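import Mathlib

section

/-!
# Cochains on profinite groups with coefficients in discrete modules
-/

namespace GC

universe u v w

section diff

variable {X : Type u} {M : Type v} [AddCommGroup M]

/-- The alternating differential of a function of `n` variables. -/
def d {n : ℕ} (c : (Fin n → X) → M) : (Fin (n + 1) → X) → M :=
  fun x => ∑ j : Fin (n + 1), (-1 : ℤ) ^ (j : ℕ) • c (fun i => x (j.succAbove i))

/-- The differential as a homomorphism. -/
def dHom (X : Type u) (M : Type v) [AddCommGroup M] (n : ℕ) :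
    ((Fin n → X) → M) →+ ((Fin (n + 1) → X) → M) where
  toFun := d
  map_zero' := by
    funext x
    simp [d]
  map_add' a b := by
    funext x
    simp [d, Finset.sum_add_distrib]

@[simp] lemma dHom_apply {n : ℕ} (c : (Fin n → X) → M) : dHom X M n c = d c := rfl

lemma d_zero {n : ℕ} : d (0 : (Fin n → X) → M) = 0 := (dHom X M n).map_zero

lemma d_add {n : ℕ} (a b : (Fin n → X) → M) : d (a + b) = d a + d b := (dHom X M n).map_add a b

lemma d_neg {n : ℕ} (a : (Fin n → X) → M) : d (-a) = -d a := (dHom X M n).map_neg a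

lemma d_sub {n : ℕ} (a b : (Fin n → X) → M) : d (a - b) = d a - d b :=
  (dHom X M n).map_sub a b

lemma d_nsmul {n : ℕ} (k : ℕ) (a : (Fin n → X) → M) : d (k • a) = k • d a :=
  (dHom X M n).map_nsmul k a

/-- The differential commutes with pullbacks. -/
lemma d_comp {Y : Type w} {n : ℕ} (θ : Y → X) (c : (Fin n → X) → M) :
    d (fun y : Fin n → Y => c (fun i => θ (y i))) = fun y => d c (fun i => θ (y i)) := rfl

/-- The differential commutes with homomorphisms of coefficients. -/
lemma d_map {M' : Type w} [AddCommGroup M'] {n : ℕ} (f : M →+ M') (c : (Fin n → X) → M) :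
    d (fun x => f (c x)) = fun x => f (d c x) := by
  funext x
  simp [d, map_sum, map_zsmul]

end diff

section group

variable {G : Type u} [Group G] [TopologicalSpace G] {M : Type v}

/-- A function of `n` variables in `G` is smooth if it is right invariant under an open
subgroup. -/
def Smooth {n : ℕ} (c : (Fin n → G) → M) : Prop :=
  ∃ U : Subgroup G, IsOpen (U : Set G) ∧
    ∀ x u : Fin n → G, (∀ i, u i ∈ U) → c (fun i => x i * u i) = c x

/-- A function of `n` variables is right invariant under the subgroup `N`. -/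
def RInv (N : Subgroup G) {n : ℕ} (c : (Fin n → G) → M) : Prop :=
  ∀ x u : Fin n → G, (∀ i, u i ∈ N) → c (fun i => x i * u i) = c x

variable [AddCommGroup M] [DistribMulAction G M]

/-- The cochains of degree `n`: the functions of `n + 1` variables in `G` with values in `M` which
are equivariant for the subgroup `S`, right invariant for the subgroup `N`, and smooth. -/
def Coch (M : Type v) [AddCommGroup M] [DistribMulAction G M] (S N : Subgroup G) (n : ℕ) :
    AddSubgroup ((Fin (n + 1) → G) → M) where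
  carrier := {c | (∀ g ∈ S, ∀ x : Fin (n + 1) → G, c (fun i => g * x i) = g • c x) ∧
    RInv N c ∧ Smooth c}
  zero_mem' := by
    refine ⟨fun g _ x => ?_, fun x u _ => rfl, ⊤, isOpen_univ, fun x u _ => rfl⟩
    simp
  add_mem' := by
    rintro a b ⟨ha1, ha2, U, hU, hU'⟩ ⟨hb1, hb2, V, hV, hV'⟩
    refine ⟨fun g hg x => ?_, fun x u hu => ?_, U ⊓ V, hU.inter hV, fun x u hu => ?_⟩
    · simp only [Pi.add_apply]
      rw [ha1 g hg x, hb1 g hg x, smul_add]
    · simp only [Pi.add_apply]
      rw [ha2 x u hu, hb2 x u hu]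
    · simp only [Pi.add_apply]
      rw [hU' x u fun i => (hu i).1, hV' x u fun i => (hu i).2]
  neg_mem' := by
    rintro a ⟨ha1, ha2, U, hU, hU'⟩
    refine ⟨fun g hg x => ?_, fun x u hu => ?_, U, hU, fun x u hu => ?_⟩
    · simp only [Pi.neg_apply]
      rw [ha1 g hg x, smul_neg]
    · simp only [Pi.neg_apply]
      rw [ha2 x u hu]
    · simp only [Pi.neg_apply]
      rw [hU' x u hu]

lemma mem_coch {S N : Subgroup G} {n : ℕ} {c : (Fin (n + 1) → G) → M} :
    c ∈ Coch M S N n ↔ (∀ g ∈ S, ∀ x : Fin (n + 1) → G, c (fun i => g * x i) = g • c x) ∧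
      RInv N c ∧ Smooth c := Iff.rfl

/-- Fewer conditions. -/
lemma coch_mono {S S' N N' : Subgroup G} (hS : S' ≤ S) (hN : N' ≤ N) (n : ℕ) :
    Coch M S N n ≤ Coch M S' N' n := fun _ hc =>
  ⟨fun g hg x => hc.1 g (hS hg) x, fun x u hu => hc.2.1 x u fun i => hN (hu i), hc.2.2⟩

/-- The differential of a cochain is a cochain. -/
lemma d_mem {S N : Subgroup G} {n : ℕ} {c : (Fin (n + 1) → G) → M} (hc : c ∈ Coch M S N n) :
    d c ∈ Coch M S N (n + 1) := by
  obtain ⟨h1, h2, U, hU, hU'⟩ := hc
  refine ⟨fun g hg x => ?_, fun x u hu => ?_, U, hU, fun x u hu => ?_⟩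
  · simp only [d, Finset.smul_sum]
    refine Finset.sum_congr rfl fun j _ => ?_
    rw [h1 g hg, smul_comm]
  · simp only [d]
    refine Finset.sum_congr rfl fun j _ => ?_
    rw [h2 (fun i => x (j.succAbove i)) (fun i => u (j.succAbove i)) fun i => hu _]
  · simp only [d]
    refine Finset.sum_congr rfl fun j _ => ?_
    rw [hU' (fun i => x (j.succAbove i)) (fun i => u (j.succAbove i)) fun i => hu _]

variable (G M)

/-- The module `M` is discrete: the stabilizers are open. -/
def Disc : Prop := ∀ m : M, ∃ U : Subgroup G, IsOpen (U : Set G) ∧ ∀ g ∈ U, g • m = m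

/-- The cocycles of degree `n`. -/
def Cocyc (n : ℕ) : AddSubgroup ((Fin (n + 1) → G) → M) :=
  Coch M (⊤ : Subgroup G) ⊥ n ⊓ (dHom G M (n + 1)).ker

/-- The coboundaries of degree `n`. -/
def Cobd : (n : ℕ) → AddSubgroup ((Fin (n + 1) → G) → M)
  | 0 => ⊥
  | n + 1 => (Coch M (⊤ : Subgroup G) ⊥ n).map (dHom G M (n + 1))

/-- The cohomology group of degree `n` of the profinite group `G` with coefficients in the discrete
module `M`. -/
abbrev H (n : ℕ) : Type (max u v) := Cocyc G M n ⧸ (Cobd G M n).addSubgroupOf (Cocyc G M n)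

/-- The cohomology group of degree `j + 1` vanishes. -/
def VanAt (j : ℕ) : Prop := ∀ c ∈ Coch M (⊤ : Subgroup G) ⊥ (j + 1), d c = 0 →
  ∃ b ∈ Coch M (⊤ : Subgroup G) ⊥ j, d b = c

/-- All cohomology groups of degree at least `k + 1` vanish. -/
def Van (k : ℕ) : Prop := ∀ j : ℕ, k ≤ j → VanAt G M j

end group

section modules

/-- The induced module: the smooth functions on `G`. -/
@[ext] structure IndM (G : Type u) [Group G] [TopologicalSpace G] (M : Type v) where
  /-- the function -/
  toFun : G → M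
  smooth : ∃ U : Subgroup G, IsOpen (U : Set G) ∧ ∀ x, ∀ u ∈ U, toFun (x * u) = toFun x

/-- The quotient of the induced module by the constants: the functions of two variables
`f (x, y) = b (y) - b (x)`, with `b` smooth. -/
@[ext] structure QM (G : Type u) [Group G] [TopologicalSpace G] (M : Type v) [AddCommGroup M] where
  /-- the function -/
  toFun : G → G → M
  smooth : ∃ U : Subgroup G, IsOpen (U : Set G) ∧
    ∀ x y, ∀ u ∈ U, ∀ v ∈ U, toFun (x * u) (y * v) = toFun x y
  add' : ∀ x y z, toFun x y + toFun y z = toFun x z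

/-- The module of the smooth homomorphisms on the subgroup `N`. -/
@[ext] structure HomM {G : Type u} [Group G] [TopologicalSpace G] (N : Subgroup G) (M : Type v)
    [AddCommGroup M] where
  /-- the homomorphism -/
  toFun : N → M
  map_mul : ∀ a b, toFun (a * b) = toFun a + toFun b
  smooth : ∃ U : Subgroup G, IsOpen (U : Set G) ∧ ∀ n : N, (n : G) ∈ U → toFun n = 0

variable {G : Type u} [Group G] [TopologicalSpace G] {M : Type v} [AddCommGroup M]

instance : CoeFun (IndM G M) (fun _ => G → M) := ⟨IndM.toFun⟩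
instance : CoeFun (QM G M) (fun _ => G → G → M) := ⟨QM.toFun⟩
instance (N : Subgroup G) : CoeFun (HomM N M) (fun _ => N → M) := ⟨HomM.toFun⟩

omit [AddCommGroup M] in
lemma IndM.ext' {f g : IndM G M} (h : ∀ x, f x = g x) : f = g := IndM.ext (funext h)

lemma QM.ext' {f g : QM G M} (h : ∀ x y, f x y = g x y) : f = g :=
  QM.ext (funext fun x => funext fun y => h x y)

lemma HomM.ext' {N : Subgroup G} {f g : HomM N M} (h : ∀ x, f x = g x) : f = g :=
  HomM.ext (funext h)

lemma HomM.map_one {N : Subgroup G} (f : HomM N M) : f 1 = 0 := by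
  have h := f.map_mul 1 1
  rw [mul_one] at h
  exact left_eq_add.mp h

lemma HomM.map_inv {N : Subgroup G} (f : HomM N M) (n : N) : f n⁻¹ = -f n := by
  have h := f.map_mul n n⁻¹
  rw [mul_inv_cancel, f.map_one] at h
  exact (neg_eq_of_add_eq_zero_right h.symm).symm

instance : Zero (IndM G M) := ⟨⟨fun _ => 0, ⊤, isOpen_univ, fun _ _ _ => rfl⟩⟩
instance : Add (IndM G M) := ⟨fun f g => ⟨fun x => f x + g x, by
  obtain ⟨U, hU, hU'⟩ := f.smooth
  obtain ⟨V, hV, hV'⟩ := g.smooth
  exact ⟨U ⊓ V, hU.inter hV, fun x u hu => by rw [hU' x u hu.1, hV' x u hu.2]⟩⟩⟩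
instance : Neg (IndM G M) := ⟨fun f => ⟨fun x => -f x, by
  obtain ⟨U, hU, hU'⟩ := f.smooth
  exact ⟨U, hU, fun x u hu => by rw [hU' x u hu]⟩⟩⟩
instance : Sub (IndM G M) := ⟨fun f g => ⟨fun x => f x - g x, by
  obtain ⟨U, hU, hU'⟩ := f.smooth
  obtain ⟨V, hV, hV'⟩ := g.smooth
  exact ⟨U ⊓ V, hU.inter hV, fun x u hu => by rw [hU' x u hu.1, hV' x u hu.2]⟩⟩⟩
instance : SMul ℕ (IndM G M) := ⟨fun k f => ⟨fun x => k • f x, by
  obtain ⟨U, hU, hU'⟩ := f.smooth
  exact ⟨U, hU, fun x u hu => by rw [hU' x u hu]⟩⟩⟩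
instance : SMul ℤ (IndM G M) := ⟨fun k f => ⟨fun x => k • f x, by
  obtain ⟨U, hU, hU'⟩ := f.smooth
  exact ⟨U, hU, fun x u hu => by rw [hU' x u hu]⟩⟩⟩

instance : AddCommGroup (IndM G M) :=
  Function.Injective.addCommGroup (fun f : IndM G M => (f : G → M))
    (fun _ _ h => IndM.ext h) rfl (fun _ _ => rfl) (fun _ => rfl) (fun _ _ => rfl)
    (fun _ _ => rfl) (fun _ _ => rfl)

instance : Zero (QM G M) := ⟨⟨fun _ _ => 0, ⟨⊤, isOpen_univ, fun _ _ _ _ _ _ => rfl⟩,
  fun _ _ _ => add_zero 0⟩⟩
instance : Add (QM G M) := ⟨fun f g => ⟨fun x y => f x y + g x y, by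
  obtain ⟨U, hU, hU'⟩ := f.smooth
  obtain ⟨V, hV, hV'⟩ := g.smooth
  exact ⟨U ⊓ V, hU.inter hV, fun x y u hu v hv => by
    rw [hU' x y u hu.1 v hv.1, hV' x y u hu.2 v hv.2]⟩, fun x y z => by
  rw [← f.add' x y z, ← g.add' x y z]
  abel⟩⟩
instance : Neg (QM G M) := ⟨fun f => ⟨fun x y => -f x y, by
  obtain ⟨U, hU, hU'⟩ := f.smooth
  exact ⟨U, hU, fun x y u hu v hv => by rw [hU' x y u hu v hv]⟩, fun x y z => by
  rw [← f.add' x y z]
  abel⟩⟩
instance : Sub (QM G M) := ⟨fun f g => ⟨fun x y => f x y - g x y, by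
  obtain ⟨U, hU, hU'⟩ := f.smooth
  obtain ⟨V, hV, hV'⟩ := g.smooth
  exact ⟨U ⊓ V, hU.inter hV, fun x y u hu v hv => by
    rw [hU' x y u hu.1 v hv.1, hV' x y u hu.2 v hv.2]⟩, fun x y z => by
  rw [← f.add' x y z, ← g.add' x y z]
  abel⟩⟩
instance : SMul ℕ (QM G M) := ⟨fun k f => ⟨fun x y => k • f x y, by
  obtain ⟨U, hU, hU'⟩ := f.smooth
  exact ⟨U, hU, fun x y u hu v hv => by rw [hU' x y u hu v hv]⟩, fun x y z => by
  rw [← f.add' x y z, smul_add]⟩⟩
instance : SMul ℤ (QM G M) := ⟨fun k f => ⟨fun x y => k • f x y, by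
  obtain ⟨U, hU, hU'⟩ := f.smooth
  exact ⟨U, hU, fun x y u hu v hv => by rw [hU' x y u hu v hv]⟩, fun x y z => by
  rw [← f.add' x y z, smul_add]⟩⟩

instance : AddCommGroup (QM G M) :=
  Function.Injective.addCommGroup (fun f : QM G M => (f : G → G → M))
    (fun _ _ h => QM.ext h) rfl (fun _ _ => rfl) (fun _ => rfl) (fun _ _ => rfl)
    (fun _ _ => rfl) (fun _ _ => rfl)

section

variable {N : Subgroup G}

instance : Zero (HomM N M) := ⟨⟨fun _ => 0, fun _ _ => (add_zero 0).symm, ⊤, isOpen_univ,
  fun _ _ => rfl⟩⟩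
instance : Add (HomM N M) := ⟨fun f g => ⟨fun x => f x + g x, fun a b => by
  rw [f.map_mul, g.map_mul]
  abel, by
  obtain ⟨U, hU, hU'⟩ := f.smooth
  obtain ⟨V, hV, hV'⟩ := g.smooth
  exact ⟨U ⊓ V, hU.inter hV, fun n hn => by rw [hU' n hn.1, hV' n hn.2, add_zero]⟩⟩⟩
instance : Neg (HomM N M) := ⟨fun f => ⟨fun x => -f x, fun a b => by
  rw [f.map_mul]
  abel, by
  obtain ⟨U, hU, hU'⟩ := f.smooth
  exact ⟨U, hU, fun n hn => by rw [hU' n hn, neg_zero]⟩⟩⟩
instance : Sub (HomM N M) := ⟨fun f g => ⟨fun x => f x - g x, fun a b => by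
  rw [f.map_mul, g.map_mul]
  abel, by
  obtain ⟨U, hU, hU'⟩ := f.smooth
  obtain ⟨V, hV, hV'⟩ := g.smooth
  exact ⟨U ⊓ V, hU.inter hV, fun n hn => by rw [hU' n hn.1, hV' n hn.2, sub_zero]⟩⟩⟩
instance : SMul ℕ (HomM N M) := ⟨fun k f => ⟨fun x => k • f x, fun a b => by
  rw [f.map_mul, smul_add], by
  obtain ⟨U, hU, hU'⟩ := f.smooth
  exact ⟨U, hU, fun n hn => by rw [hU' n hn, smul_zero]⟩⟩⟩
instance : SMul ℤ (HomM N M) := ⟨fun k f => ⟨fun x => k • f x, fun a b => by
  rw [f.map_mul, smul_add], by
  obtain ⟨U, hU, hU'⟩ := f.smooth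
  exact ⟨U, hU, fun n hn => by rw [hU' n hn, smul_zero]⟩⟩⟩

instance : AddCommGroup (HomM N M) :=
  Function.Injective.addCommGroup (fun f : HomM N M => (f : N → M))
    (fun _ _ h => HomM.ext h) rfl (fun _ _ => rfl) (fun _ => rfl) (fun _ _ => rfl)
    (fun _ _ => rfl) (fun _ _ => rfl)

@[simp] lemma HomM.add_apply (f g : HomM N M) (x : N) : (f + g) x = f x + g x := rfl
@[simp] lemma HomM.sub_apply (f g : HomM N M) (x : N) : (f - g) x = f x - g x := rfl
@[simp] lemma HomM.neg_apply (f : HomM N M) (x : N) : (-f) x = -f x := rfl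
@[simp] lemma HomM.zero_apply (x : N) : (0 : HomM N M) x = 0 := rfl

/-- Evaluation as a homomorphism. -/
def HomM.ev (x : N) : HomM N M →+ M where
  toFun f := f x
  map_zero' := rfl
  map_add' _ _ := rfl

@[simp] lemma HomM.ev_apply (x : N) (f : HomM N M) : HomM.ev x f = f x := rfl

end

@[simp] lemma IndM.add_apply (f g : IndM G M) (x : G) : (f + g) x = f x + g x := rfl
@[simp] lemma IndM.sub_apply (f g : IndM G M) (x : G) : (f - g) x = f x - g x := rfl
@[simp] lemma IndM.neg_apply (f : IndM G M) (x : G) : (-f) x = -f x := rfl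
@[simp] lemma IndM.zero_apply (x : G) : (0 : IndM G M) x = 0 := rfl
@[simp] lemma QM.add_apply (f g : QM G M) (x y : G) : (f + g) x y = f x y + g x y := rfl
@[simp] lemma QM.sub_apply (f g : QM G M) (x y : G) : (f - g) x y = f x y - g x y := rfl
@[simp] lemma QM.neg_apply (f : QM G M) (x y : G) : (-f) x y = -f x y := rfl
@[simp] lemma QM.zero_apply (x y : G) : (0 : QM G M) x y = 0 := rfl

/-- Evaluation as a homomorphism. -/
def IndM.ev (x : G) : IndM G M →+ M where
  toFun f := f x
  map_zero' := rfl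
  map_add' _ _ := rfl

@[simp] lemma IndM.ev_apply (x : G) (f : IndM G M) : IndM.ev x f = f x := rfl

/-- Evaluation as a homomorphism. -/
def QM.ev (x y : G) : QM G M →+ M where
  toFun f := f x y
  map_zero' := rfl
  map_add' _ _ := rfl

@[simp] lemma QM.ev_apply (x y : G) (f : QM G M) : QM.ev x y f = f x y := rfl

/-- The constant functions. -/
def constI (G : Type u) [Group G] [TopologicalSpace G] (M : Type v) [AddCommGroup M] :
    M →+ IndM G M where
  toFun m := ⟨fun _ => m, ⊤, isOpen_univ, fun _ _ _ => rfl⟩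
  map_zero' := rfl
  map_add' _ _ := rfl

@[simp] lemma constI_apply (m : M) (x : G) : constI G M m x = m := rfl

/-- The projection of the induced module onto its quotient by the constants. -/
def toQ (G : Type u) [Group G] [TopologicalSpace G] (M : Type v) [AddCommGroup M] :
    IndM G M →+ QM G M where
  toFun f := ⟨fun x y => f y - f x, by
    obtain ⟨U, hU, hU'⟩ := f.smooth
    exact ⟨U, hU, fun x y u hu v hv => by rw [hU' y v hv, hU' x u hu]⟩, fun x y z => by
    rw [add_comm, sub_add_sub_cancel]⟩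
  map_zero' := QM.ext' fun x y => by
    change (0 : M) - 0 = 0
    simp
  map_add' f g := QM.ext' fun x y => by
    change (f y + g y) - (f x + g x) = (f y - f x) + (g y - g x)
    abel

@[simp] lemma toQ_apply (f : IndM G M) (x y : G) : toQ G M f x y = f y - f x := rfl

variable [DistribMulAction G M]

/-- The action of `G` on the induced module. -/
instance : DistribMulAction G (IndM G M) where
  smul g f := ⟨fun x => g • f (g⁻¹ * x), by
    obtain ⟨U, hU, hU'⟩ := f.smooth
    exact ⟨U, hU, fun x u hu => by rw [← mul_assoc, hU' _ u hu]⟩⟩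
  one_smul f := IndM.ext' fun x => by
    change (1 : G) • f ((1 : G)⁻¹ * x) = f x
    simp
  mul_smul g h f := IndM.ext' fun x => by
    change (g * h) • f ((g * h)⁻¹ * x) = g • h • f (h⁻¹ * (g⁻¹ * x))
    rw [mul_inv_rev, mul_smul, mul_assoc]
  smul_zero g := IndM.ext' fun x => smul_zero g
  smul_add g f f' := IndM.ext' fun x => smul_add g _ _

lemma IndM.smul_apply (g : G) (f : IndM G M) (x : G) : (g • f) x = g • f (g⁻¹ * x) := rfl

/-- The action of `G` on the quotient by the constants. -/
instance : DistribMulAction G (QM G M) where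
  smul g f := ⟨fun x y => g • f (g⁻¹ * x) (g⁻¹ * y), by
    obtain ⟨U, hU, hU'⟩ := f.smooth
    exact ⟨U, hU, fun x y u hu v hv => by
      rw [← mul_assoc, ← mul_assoc, hU' _ _ u hu v hv]⟩, fun x y z => by
    rw [← smul_add, f.add']⟩
  one_smul f := QM.ext' fun x y => by
    change (1 : G) • f ((1 : G)⁻¹ * x) ((1 : G)⁻¹ * y) = f x y
    simp
  mul_smul g h f := QM.ext' fun x y => by
    change (g * h) • f ((g * h)⁻¹ * x) ((g * h)⁻¹ * y) =
      g • h • f (h⁻¹ * (g⁻¹ * x)) (h⁻¹ * (g⁻¹ * y))
    rw [mul_inv_rev, mul_smul, mul_assoc, mul_assoc]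
  smul_zero g := QM.ext' fun x y => smul_zero g
  smul_add g f f' := QM.ext' fun x y => smul_add g _ _

lemma QM.smul_apply (g : G) (f : QM G M) (x y : G) :
    (g • f) x y = g • f (g⁻¹ * x) (g⁻¹ * y) := rfl

lemma constI_smul (g : G) (m : M) : constI G M (g • m) = g • constI G M m := rfl

lemma toQ_smul (g : G) (f : IndM G M) : toQ G M (g • f) = g • toQ G M f :=
  QM.ext' fun x y => by
    change g • f (g⁻¹ * y) - g • f (g⁻¹ * x) = g • (f (g⁻¹ * y) - f (g⁻¹ * x))
    rw [smul_sub]

omit [TopologicalSpace G] in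
/-- The conjugate of an element of a normal subgroup. -/
def conjN {N : Subgroup G} [hN : N.Normal] (g : G) (n : N) : N :=
  ⟨g⁻¹ * n * g, by simpa using hN.conj_mem n n.2 g⁻¹⟩

omit [TopologicalSpace G] in
@[simp] lemma coe_conjN {N : Subgroup G} [N.Normal] (g : G) (n : N) :
    (conjN g n : G) = g⁻¹ * n * g := rfl

omit [TopologicalSpace G] in
lemma conjN_mul {N : Subgroup G} [N.Normal] (g : G) (a b : N) :
    conjN g (a * b) = conjN g a * conjN g b := Subtype.ext (by simp [mul_assoc])

/-- The action of `G` on the homomorphisms on the normal subgroup `N`. -/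
instance (N : Subgroup G) [N.Normal] [IsTopologicalGroup G] : DistribMulAction G (HomM N M) where
  smul g f := ⟨fun n => g • f (conjN g n), fun a b => by
    rw [conjN_mul, ← smul_add, f.map_mul], by
    obtain ⟨U, hU, hU'⟩ := f.smooth
    refine ⟨(U.comap (MulAut.conj g⁻¹).toMonoidHom), ?_, fun n hn => ?_⟩
    · have h : Continuous fun x : G => g⁻¹ * x * g := by fun_prop
      have h2 := hU.preimage h
      convert h2 using 1
      ext x
      simp [MulAut.conj]
    · have h3 : f (conjN g n) = 0 := by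
        apply hU'
        simpa [MulAut.conj] using hn
      rw [h3, smul_zero]⟩
  one_smul f := HomM.ext' fun n => by
    change (1 : G) • f (conjN 1 n) = f n
    rw [one_smul]
    congr 1
    apply Subtype.ext
    simp
  mul_smul g h f := HomM.ext' fun n => by
    change (g * h) • f (conjN (g * h) n) = g • h • f (conjN h (conjN g n))
    rw [mul_smul]
    congr 3
    apply Subtype.ext
    simp [mul_assoc]
  smul_zero g := HomM.ext' fun x => smul_zero g
  smul_add g f f' := HomM.ext' fun x => smul_add g _ _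

lemma HomM.smul_apply {N : Subgroup G} [N.Normal] [IsTopologicalGroup G] (g : G)
    (f : HomM N M) (n : N) : (g • f) n = g • f (conjN g n) := rfl

end modules

end GC
end

section

/-!
# Galois cohomology with coefficients in `ℚ_l/ℤ_l(w)`
-/

namespace GC

universe u v w

/-- The group `ℚ_l/ℤ_l`. -/
abbrev QZ (l : ℕ) [Fact l.Prime] : Type := ℚ_[l] ⧸ LinearMap.range (Algebra.linearMap ℤ_[l] ℚ_[l])

/-- The Tate twist `ℚ_l/ℤ_l(w)`: the group `ℚ_l/ℤ_l` on which the automorphisms `g` of a field act
by multiplication with the `w`-th power of the `l`-adic cyclotomic character. -/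
def Tw (l : ℕ) [Fact l.Prime] (_w : ℕ) : Type := QZ l

section Tw

variable (l : ℕ) [Fact l.Prime] (w : ℕ)

noncomputable instance : AddCommGroup (Tw l w) := inferInstanceAs (AddCommGroup (QZ l))

noncomputable instance : Module ℤ_[l] (Tw l w) := inferInstanceAs (Module ℤ_[l] (QZ l))

/-- The action of the automorphisms of a field. -/
noncomputable instance (K : Type u) (Ω : Type v) [Field K] [Field Ω] [Algebra K Ω] :
    DistribMulAction (Ω ≃ₐ[K] Ω) (Tw l w) where
  smul g m := (((cyclotomicCharacter Ω l (g : Ω ≃+* Ω)) ^ w : ℤ_[l]ˣ) : ℤ_[l]) • m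
  one_smul m := by
    change (((cyclotomicCharacter Ω l ((1 : Ω ≃ₐ[K] Ω) : Ω ≃+* Ω)) ^ w : ℤ_[l]ˣ) : ℤ_[l]) • m = m
    have h : ((1 : Ω ≃ₐ[K] Ω) : Ω ≃+* Ω) = 1 := rfl
    rw [h, map_one, one_pow, Units.val_one, one_smul]
  mul_smul g h m := by
    change (((cyclotomicCharacter Ω l ((g * h : Ω ≃ₐ[K] Ω) : Ω ≃+* Ω)) ^ w : ℤ_[l]ˣ) : ℤ_[l]) • m =
      (((cyclotomicCharacter Ω l (g : Ω ≃+* Ω)) ^ w : ℤ_[l]ˣ) : ℤ_[l]) •
      (((cyclotomicCharacter Ω l (h : Ω ≃+* Ω)) ^ w : ℤ_[l]ˣ) : ℤ_[l]) • m
    have h' : ((g * h : Ω ≃ₐ[K] Ω) : Ω ≃+* Ω) = (g : Ω ≃+* Ω) * (h : Ω ≃+* Ω) := rfl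
    rw [h', map_mul, mul_pow, Units.val_mul, mul_smul]
  smul_zero g := smul_zero (((cyclotomicCharacter Ω l (g : Ω ≃+* Ω)) ^ w : ℤ_[l]ˣ) : ℤ_[l])
  smul_add g := smul_add (((cyclotomicCharacter Ω l (g : Ω ≃+* Ω)) ^ w : ℤ_[l]ˣ) : ℤ_[l])

variable {l w}

lemma Tw.smul_def {K : Type u} {Ω : Type v} [Field K] [Field Ω] [Algebra K Ω] (g : Ω ≃ₐ[K] Ω)
    (m : Tw l w) :
    g • m = (((cyclotomicCharacter Ω l (g : Ω ≃+* Ω)) ^ w : ℤ_[l]ˣ) : ℤ_[l]) • m := rfl

instance {K : Type u} {Ω : Type v} [Field K] [Field Ω] [Algebra K Ω] :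
    SMulCommClass (Ω ≃ₐ[K] Ω) ℤ_[l] (Tw l w) where
  smul_comm g a m := by
    rw [Tw.smul_def, Tw.smul_def, smul_comm]

end Tw

/-- The absolute Galois group of the field `K`. -/
abbrev AbsGal (K : Type u) [Field K] : Type u := AlgebraicClosure K ≃ₐ[K] AlgebraicClosure K

section restriction

variable {K : Type u} [Field K] {Λ : Type v} [Field Λ]

/-- The restriction of an automorphism of a field containing an algebraic closure of `K`. -/
noncomputable def resAut (j : AlgebraicClosure K →+* Λ) (s : Λ ≃+* Λ)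
    (hs : ∀ a : K, s (j (algebraMap K _ a)) = j (algebraMap K _ a)) : AbsGal K :=
  letI := j.toAlgebra
  letI := (j.comp (algebraMap K (AlgebraicClosure K))).toAlgebra
  haveI : IsScalarTower K (AlgebraicClosure K) Λ := IsScalarTower.of_algebraMap_eq' rfl
  AlgEquiv.restrictNormal (AlgEquiv.ofRingEquiv (f := s) hs : Λ ≃ₐ[K] Λ) (AlgebraicClosure K)

lemma resAut_spec (j : AlgebraicClosure K →+* Λ) (s : Λ ≃+* Λ)
    (hs : ∀ a : K, s (j (algebraMap K _ a)) = j (algebraMap K _ a)) (x : AlgebraicClosure K) :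
    j (resAut j s hs x) = s (j x) := by
  let _ := j.toAlgebra
  let _ := (j.comp (algebraMap K (AlgebraicClosure K))).toAlgebra
  have : IsScalarTower K (AlgebraicClosure K) Λ := IsScalarTower.of_algebraMap_eq' rfl
  exact AlgEquiv.restrictNormal_commutes
    (AlgEquiv.ofRingEquiv (f := s) hs : Λ ≃ₐ[K] Λ) (AlgebraicClosure K) x

lemma eq_resAut (j : AlgebraicClosure K →+* Λ) (s : Λ ≃+* Λ)
    (hs : ∀ a : K, s (j (algebraMap K _ a)) = j (algebraMap K _ a)) {g : AbsGal K}
    (hg : ∀ x, j (g x) = s (j x)) : g = resAut j s hs := by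
  ext x
  apply j.injective
  rw [hg, resAut_spec]

end restriction

section pull

variable {K L F : Type u} [Field K] [Field L] [Field F]

/-- The homomorphism `φ` extends the homomorphism `f` to the algebraic closures. -/
def Ext (f : K →+* L) (φ : AlgebraicClosure K →+* AlgebraicClosure L) : Prop :=
  ∀ a : K, φ (algebraMap K _ a) = algebraMap L _ (f a)

lemma exists_ext (f : K →+* L) : ∃ φ : AlgebraicClosure K →+* AlgebraicClosure L, Ext f φ := by
  let _ := ((algebraMap L (AlgebraicClosure L)).comp f).toAlgebra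
  exact ⟨(IsAlgClosed.lift (S := AlgebraicClosure K) (R := K) (M := AlgebraicClosure L)).toRingHom,
    fun a => (IsAlgClosed.lift (S := AlgebraicClosure K) (R := K)
      (M := AlgebraicClosure L)).commutes a⟩

lemma Ext.comp {f : K →+* L} {g : L →+* F} {φ : AlgebraicClosure K →+* AlgebraicClosure L}
    {ψ : AlgebraicClosure L →+* AlgebraicClosure F} (hφ : Ext f φ) (hψ : Ext g ψ) :
    Ext (g.comp f) (ψ.comp φ) := fun a => by
  rw [RingHom.comp_apply, hφ, hψ, RingHom.comp_apply]

lemma Ext.id : Ext (RingHom.id K) (RingHom.id (AlgebraicClosure K)) := fun _ => rfl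

/-- An extension of `f` to the algebraic closures. -/
noncomputable def emb (f : K →+* L) : AlgebraicClosure K →+* AlgebraicClosure L :=
  (exists_ext f).choose

lemma ext_emb (f : K →+* L) : Ext f (emb f) := (exists_ext f).choose_spec

/-- The homomorphism of the absolute Galois groups attached to an extension of `f` to the algebraic
closures. -/
noncomputable def pull {f : K →+* L} {φ : AlgebraicClosure K →+* AlgebraicClosure L}
    (hφ : Ext f φ) : AbsGal L →* AbsGal K where
  toFun h := resAut φ (h : AlgebraicClosure L ≃+* AlgebraicClosure L) fun a => by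
    rw [hφ a]
    exact h.commutes _
  map_one' := (eq_resAut _ _ _ fun _ => rfl).symm
  map_mul' h h' := by
    refine (eq_resAut _ _ _ fun x => ?_).symm
    rw [AlgEquiv.mul_apply, resAut_spec, resAut_spec]
    rfl

lemma pull_spec {f : K →+* L} {φ : AlgebraicClosure K →+* AlgebraicClosure L}
    (hφ : Ext f φ) (h : AbsGal L) (x : AlgebraicClosure K) : φ (pull hφ h x) = h (φ x) :=
  resAut_spec _ _ _ _

lemma eq_pull {f : K →+* L} {φ : AlgebraicClosure K →+* AlgebraicClosure L}
    (hφ : Ext f φ) (h : AbsGal L) {g : AbsGal K} (hg : ∀ x, φ (g x) = h (φ x)) :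
    g = pull hφ h := eq_resAut _ _ _ hg

end pull

section roots

variable (Ω : Type u) [Field Ω] (l : ℕ) [Fact l.Prime]

/-- A compatible system of primitive roots of unity of order `l ^ n`. -/
def IsEps (ε : ℕ → Ω) : Prop :=
  (∀ n, IsPrimitiveRoot (ε n) (l ^ n)) ∧ ∀ n, ε (n + 1) ^ l = ε n

open Classical in
/-- The chosen compatible system of primitive roots of unity of order `l ^ n`, if it exists. -/
noncomputable def eps : ℕ → Ω := if h : ∃ ε : ℕ → Ω, IsEps Ω l ε then h.choose else fun _ => 1

variable {Ω l}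

/-- The power `x ^ a` of a root of unity `x` of order `l ^ n` with exponent in `ℤ_l`. -/
noncomputable def zlPow {Ω : Type u} [Field Ω] (l : ℕ) [Fact l.Prime] (n : ℕ) (x : Ω)
    (a : ℤ_[l]) : Ω := x ^ (PadicInt.toZModPow n a).val

open Classical in
/-- The unit which describes the action of a homomorphism on the chosen roots of unity. -/
noncomputable def twist {Ω : Type u} [Field Ω] {Ω' : Type v} [Field Ω'] (l : ℕ) [Fact l.Prime]
    (φ : Ω →+* Ω') : ℤ_[l]ˣ :=
  if h : ∃ a : ℤ_[l]ˣ, ∀ n, φ (eps Ω l n) = zlPow l n (eps Ω' l n) a then h.choose else 1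

end roots

section cochains

variable {K L : Type u} [Field K] [Field L] (l : ℕ) [Fact l.Prime] (w : ℕ)

/-- The pullback of cochains. -/
noncomputable def pullC {f : K →+* L} {φ : AlgebraicClosure K →+* AlgebraicClosure L}
    (hφ : Ext f φ) (n : ℕ) :
    ((Fin (n + 1) → AbsGal K) → Tw l w) →+ ((Fin (n + 1) → AbsGal L) → Tw l w) where
  toFun c x := (((twist l φ) ^ w : ℤ_[l]ˣ) : ℤ_[l]) • c fun i => pull hφ (x i)
  map_zero' := by
    funext x
    exact smul_zero _
  map_add' a b := by
    funext x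
    exact smul_add _ _ _

lemma pullC_apply {f : K →+* L} {φ : AlgebraicClosure K →+* AlgebraicClosure L}
    (hφ : Ext f φ) (n : ℕ) (c : (Fin (n + 1) → AbsGal K) → Tw l w) (x : Fin (n + 1) → AbsGal L) :
    pullC l w hφ n c x = (((twist l φ) ^ w : ℤ_[l]ˣ) : ℤ_[l]) • c fun i => pull hφ (x i) := rfl

end cochains

section unramified

variable {K : Type u} [Field K] {M : Type v} [AddCommGroup M] [DistribMulAction (AbsGal K) M]

/-- The cochain `c` is unramified at the valuation ring `O` of the algebraic closure of `K`: its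
restriction to the decomposition group is the sum of a coboundary and of a cochain which comes from
the quotient of the decomposition group by the inertia group, the absolute Galois group of the
residue field. -/
def UnrAt (O : ValuationSubring (AlgebraicClosure K)) {n : ℕ}
    (c : (Fin (n + 1) → AbsGal K) → M) : Prop :=
  ∃ c' ∈ Coch M (⊤ : Subgroup (O.decompositionSubgroup K)) (O.inertiaSubgroup K) n,
    (fun x : Fin (n + 1) → O.decompositionSubgroup K => c fun i => (x i : AbsGal K)) - c' ∈
      Cobd (O.decompositionSubgroup K) M n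

/-- The cochain `c` is unramified: it is unramified at all valuation rings whose trace on `K` is a
discrete valuation ring. -/
def IsUnr {n : ℕ} (c : (Fin (n + 1) → AbsGal K) → M) : Prop :=
  ∀ O : ValuationSubring (AlgebraicClosure K),
    IsDiscreteValuationRing (O.comap (algebraMap K (AlgebraicClosure K))) → UnrAt O c

end unramified

end GC
end

section

/-!
# The Galois group of a rational function field
-/

namespace GC

universe u v w

variable (K : Type u) [Field K]

/-- The algebraic closure of `K` in the algebraic closure of `K(t)`. -/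
noncomputable def jj : AlgebraicClosure K →+* AlgebraicClosure (RatFunc K) :=
  emb (algebraMap K (RatFunc K))

lemma ext_jj : Ext (algebraMap K (RatFunc K)) (jj K) := ext_emb _

/-- The variable, as an element of the algebraic closure of `K(t)`. -/
noncomputable def tt : AlgebraicClosure (RatFunc K) := algebraMap (RatFunc K) _ RatFunc.X

/-- The restriction of automorphisms to the algebraic closure of `K`. -/
noncomputable def rs : AbsGal (RatFunc K) →* AbsGal K := pull (ext_jj K)

/-- The geometric Galois group: the automorphisms which are trivial on the algebraic closure of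
`K`. -/
noncomputable def NN : Subgroup (AbsGal (RatFunc K)) := (rs K).ker

instance : (NN K).Normal := MonoidHom.normal_ker _

variable {K}

lemma jj_rs (g : AbsGal (RatFunc K)) (x : AlgebraicClosure K) : jj K (rs K g x) = g (jj K x) :=
  pull_spec (ext_jj K) g x

lemma apply_tt (g : AbsGal (RatFunc K)) : g (tt K) = tt K := g.commutes _

lemma mem_NN {g : AbsGal (RatFunc K)} : g ∈ NN K ↔ rs K g = 1 := Iff.rfl

lemma mem_NN_iff {g : AbsGal (RatFunc K)} : g ∈ NN K ↔ ∀ x, g (jj K x) = jj K x := by
  rw [mem_NN]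
  constructor
  · intro h x
    rw [← jj_rs, h]
    rfl
  · intro h
    ext x
    apply (jj K).injective
    rw [jj_rs, h]
    rfl

/-- The valuation ring `O` lies over the point `a` of the affine line over the algebraic closure of
`K`. -/
def Over (O : ValuationSubring (AlgebraicClosure (RatFunc K))) (a : AlgebraicClosure K) : Prop :=
  (∀ c, jj K c ∈ O) ∧ O.valuation (tt K - jj K a) < 1

/-- The points of the affine line over the algebraic closure of `K`. -/
def Pt (K : Type u) [Field K] : Type u := AlgebraicClosure K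

/-- The action of the Galois group of `K(t)` on the points. -/
noncomputable instance : MulAction (AbsGal (RatFunc K)) (Pt K) where
  smul g a := (rs K g) (a : AlgebraicClosure K)
  one_smul a := by
    change (rs K 1) (a : AlgebraicClosure K) = a
    rw [map_one]
    rfl
  mul_smul g h a := by
    change (rs K (g * h)) (a : AlgebraicClosure K) = rs K g (rs K h (a : AlgebraicClosure K))
    rw [map_mul]
    rfl

lemma Pt.smul_def (g : AbsGal (RatFunc K)) (a : Pt K) :
    g • a = (rs K g) (a : AlgebraicClosure K) := rfl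

section roots

variable (l : ℕ) [Fact l.Prime]

lemma exists_rt (a : AlgebraicClosure K) :
    ∃ r : ℕ → AlgebraicClosure (RatFunc K), r 0 = tt K - jj K a ∧ ∀ n, r (n + 1) ^ l = r n := by
  have h : ∀ x : AlgebraicClosure (RatFunc K), ∃ y, y ^ l = x := fun x =>
    IsAlgClosed.exists_pow_nat_eq x (Fact.out : l.Prime).pos
  choose f hf using h
  exact ⟨fun n => Nat.rec (tt K - jj K a) (fun _ x => f x) n, rfl, fun n => hf _⟩

/-- A compatible system of roots of order `l ^ n` of `t - a`. -/
noncomputable def rt (a : AlgebraicClosure K) : ℕ → AlgebraicClosure (RatFunc K) :=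
  (exists_rt l a).choose

lemma rt_zero (a : AlgebraicClosure K) : rt l a 0 = tt K - jj K a := (exists_rt l a).choose_spec.1

lemma rt_succ (a : AlgebraicClosure K) (n : ℕ) : rt l a (n + 1) ^ l = rt l a n :=
  (exists_rt l a).choose_spec.2 n

open Classical in
/-- The Kummer character attached to the element `t - a`. -/
noncomputable def kap (a : AlgebraicClosure K) (g : AbsGal (RatFunc K)) : ℤ_[l] :=
  if h : ∃ z : ℤ_[l], ∀ n, g (rt l a n) =
    zlPow l n (eps (AlgebraicClosure (RatFunc K)) l n) z * rt l a n then h.choose else 0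

end roots

end GC
end

section

/-!
# The multiplicative group of an algebraically closed field as a module
-/

namespace GC

universe u v w

variable {F Ω : Type u} [Field F] [Field Ω] [Algebra F Ω] {Δ : Type u} [Group Δ]

/-- The multiplicative group of `Ω`, written additively, with the action of `Δ` through the
homomorphism `θ`. -/
def WMod (_θ : Δ →* (Ω ≃ₐ[F] Ω)) : Type u := Additive Ωˣ

variable {θ : Δ →* (Ω ≃ₐ[F] Ω)}

instance : AddCommGroup (WMod θ) := inferInstanceAs (AddCommGroup (Additive Ωˣ))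

/-- The underlying unit. -/
def WMod.val (a : WMod θ) : Ωˣ := Additive.toMul a

/-- The element attached to a unit. -/
def WMod.mk (a : Ωˣ) : WMod θ := Additive.ofMul a

@[simp] lemma WMod.val_mk (a : Ωˣ) : (WMod.mk a : WMod θ).val = a := rfl
@[simp] lemma WMod.mk_val (a : WMod θ) : WMod.mk a.val = a := rfl
lemma WMod.ext {a b : WMod θ} (h : (a.val : Ω) = b.val) : a = b :=
  Additive.toMul.injective (Units.ext h)
@[simp] lemma WMod.val_add (a b : WMod θ) : (a + b).val = a.val * b.val := rfl
@[simp] lemma WMod.val_sub (a b : WMod θ) : (a - b).val = a.val / b.val := rfl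
@[simp] lemma WMod.val_neg (a : WMod θ) : (-a).val = a.val⁻¹ := rfl
@[simp] lemma WMod.val_zero : (0 : WMod θ).val = 1 := rfl
@[simp] lemma WMod.val_nsmul (n : ℕ) (a : WMod θ) : (n • a).val = a.val ^ n := rfl

instance : DistribMulAction Δ (WMod θ) where
  smul g a := WMod.mk (Units.map (θ g : Ω →* Ω) a.val)
  one_smul a := WMod.ext (by
    change (θ 1) (a.val : Ω) = a.val
    rw [map_one]
    rfl)
  mul_smul g h a := WMod.ext (by
    change (θ (g * h)) (a.val : Ω) = θ g (θ h (a.val : Ω))
    rw [map_mul]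
    rfl)
  smul_zero g := WMod.ext (by
    change θ g 1 = 1
    rw [map_one])
  smul_add g a b := WMod.ext (by
    change θ g ((a.val : Ω) * b.val) = θ g a.val * θ g b.val
    rw [map_mul])

@[simp] lemma WMod.val_smul (g : Δ) (a : WMod θ) : ((g • a).val : Ω) = θ g a.val := rfl

/-- Norms from cyclic extensions of degree `l` are surjective, for all intermediate fields `E`
between `F` and `Ω`: if `y ∉ E` and `y ^ l ∈ E`, then each nonzero element `a` of `E` is the norm
`∏_ζ ∑ i, x i (ζ y) ^ i` of an element of `E(y)`. -/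
def NormCond (l : ℕ) (F Ω : Type u) [Field F] [Field Ω] [Algebra F Ω] : Prop :=
  ∀ (E : IntermediateField F Ω) (a y : Ω), a ∈ E → a ≠ 0 → y ^ l ∈ E → y ∉ E →
    ∃ x : Fin l → Ω, (∀ i, x i ∈ E) ∧
      ∏ ζ ∈ Polynomial.nthRootsFinset l (1 : Ω), ∑ i : Fin l, x i * (ζ * y) ^ (i : ℕ) = a

end GC
end

section

/-!
# Hahn series with rational exponents
-/

namespace GC

universe u v w

/-- The homomorphism of rings of Hahn series which applies `f` to the coefficients. -/
noncomputable def hmap {Γ : Type v} [AddCommGroup Γ] [LinearOrder Γ] [IsOrderedAddMonoid Γ]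
    {k k' : Type u} [Field k] [Field k'] (f : k →+* k') :
    HahnSeries Γ k →+* HahnSeries Γ k' where
  toFun x := x.map f
  map_one' := by
    ext q
    rw [HahnSeries.map_coeff]
    by_cases h : q = 0
    · subst h
      simp
    · simp [HahnSeries.coeff_one, h]
  map_mul' x y := by
    ext q
    rw [HahnSeries.map_coeff, HahnSeries.coeff_mul, map_sum]
    rw [HahnSeries.coeff_mul]
    refine (Finset.sum_subset_zero_on_sdiff ?_ ?_ ?_).symm
    · intro ij hij
      simp only [Finset.mem_addAntidiagonal, HahnSeries.mem_support, HahnSeries.map_coeff] at hij ⊢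
      refine ⟨fun h => hij.1 ?_, fun h => hij.2.1 ?_, hij.2.2⟩
      · rw [h, map_zero]
      · rw [h, map_zero]
    · intro ij hij
      simp only [Finset.mem_sdiff, Finset.mem_addAntidiagonal, HahnSeries.mem_support,
        HahnSeries.map_coeff, ne_eq, map_eq_zero, not_and] at hij
      exact absurd hij.1.2.2 (hij.2 hij.1.1 hij.1.2.1)
    · intro ij hij
      rw [HahnSeries.map_coeff, HahnSeries.map_coeff, map_mul]
  map_zero' := by
    ext q
    simp [HahnSeries.map_coeff]
  map_add' x y := by
    ext q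
    simp [HahnSeries.map_coeff]

@[simp] lemma hmap_coeff {Γ : Type v} [AddCommGroup Γ] [LinearOrder Γ] [IsOrderedAddMonoid Γ]
    {k k' : Type u} [Field k] [Field k'] (f : k →+* k') (x : HahnSeries Γ k) (q : Γ) :
    (hmap f x).coeff q = f (x.coeff q) := rfl

/-- The embedding of the field of Laurent series in the field of Hahn series with rational
exponents, with `f` applied to the coefficients. -/
noncomputable def lau {K k : Type u} [Field K] [Field k] (f : K →+* k) :
    LaurentSeries K →+* HahnSeries ℚ k :=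
  (HahnSeries.embDomainRingHom (Int.castAddHom ℚ) Int.cast_injective
    fun _ _ => Int.cast_le).comp (hmap (Γ := ℤ) f)

lemma lau_coeff_int {K k : Type u} [Field K] [Field k] (f : K →+* k) (x : LaurentSeries K)
    (n : ℤ) : (lau f x).coeff (n : ℚ) = f (x.coeff n) := by
  have h := HahnSeries.embDomain_coeff
    (f := (⟨⟨Int.castAddHom ℚ, Int.cast_injective⟩, Int.cast_le⟩ : ℤ ↪o ℚ))
    (x := hmap (Γ := ℤ) f x) (a := n)
  exact h

lemma lau_coeff_of_ne {K k : Type u} [Field K] [Field k] (f : K →+* k) (x : LaurentSeries K)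
    {q : ℚ} (h : ∀ n : ℤ, (n : ℚ) ≠ q) : (lau f x).coeff q = 0 := by
  refine HahnSeries.embDomain_of_notMem_range
    (f := (⟨⟨Int.castAddHom ℚ, Int.cast_injective⟩, Int.cast_le⟩ : ℤ ↪o ℚ)) ?_
  rintro ⟨n, hn⟩
  exact h n hn

lemma hmap_lau {K k k' : Type u} [Field K] [Field k] [Field k'] (f : K →+* k) (g : k →+* k')
    (x : LaurentSeries K) : hmap g (lau f x) = lau (g.comp f) x := by
  ext q
  by_cases h : ∃ n : ℤ, (n : ℚ) = q
  · obtain ⟨n, rfl⟩ := h
    rw [hmap_coeff, lau_coeff_int, lau_coeff_int, RingHom.comp_apply]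
  · push Not at h
    rw [hmap_coeff, lau_coeff_of_ne _ _ h, lau_coeff_of_ne _ _ h, map_zero]

lemma hmap_hmap {k k' k'' : Type u} [Field k] [Field k'] [Field k''] (f : k →+* k')
    (g : k' →+* k'') (x : HahnSeries ℚ k) : hmap g (hmap f x) = hmap (g.comp f) x := by
  ext q
  rw [hmap_coeff, hmap_coeff, hmap_coeff, RingHom.comp_apply]

/-- The automorphism of the field of Hahn series attached to an automorphism of the coefficients. -/
noncomputable def hequiv {k : Type u} [Field k] (g : k ≃+* k) :
    HahnSeries ℚ k ≃+* HahnSeries ℚ k where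
  toFun := hmap (g : k →+* k)
  invFun := hmap (g.symm : k →+* k)
  left_inv x := by
    ext q
    simp
  right_inv x := by
    ext q
    simp
  map_mul' := map_mul _
  map_add' := map_add _

@[simp] lemma hequiv_coeff {k : Type u} [Field k] (g : k ≃+* k) (x : HahnSeries ℚ k) (q : ℚ) :
    (hequiv g x).coeff q = g (x.coeff q) := rfl

/-- The constant series. -/
noncomputable def hC (k : Type u) [Field k] : k →+* HahnSeries ℚ k := HahnSeries.C

lemma hmap_C {k k' : Type u} [Field k] [Field k'] (f : k →+* k') (a : k) :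
    hmap f (hC k a) = hC k' (f a) := by
  ext q
  by_cases h : q = 0
  · subst h
    simp [hC]
  · simp [hC, HahnSeries.C_apply, HahnSeries.coeff_single_of_ne h]

end GC
end
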