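import Mathlib
import Pool.Agent.Lib.MP_859dd5_ag.EQ.Fun
import Pool.Agent.Lib.MP_859dd5_ag.Mg.G059

section

/-!
# Primitive triples of polynomials
-/

namespace UnrH3

universe u v w

open Polynomial

section prim

variable {K : Type u} [Field K]

/-- No irreducible polynomial divides all three. -/
def Prim3 (v₀ v₁ v₂ : K[X]) : Prop :=
  ∀ π : K[X], Irreducible π → π ∣ v₀ → π ∣ v₁ → π ∣ v₂ → False

lemma Prim3.bezout {v₀ v₁ v₂ : K[X]} (h : Prim3 v₀ v₁ v₂) :
    ∃ α₀ α₁ α₂ : K[X], α₀ * v₀ + α₁ * v₁ + α₂ * v₂ = 1 := by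
  set I : Ideal K[X] := Ideal.span {v₀, v₁, v₂} with hI
  obtain ⟨g, hg⟩ := (IsPrincipalIdealRing.principal I).principal
  have hmem : ∀ v ∈ ({v₀, v₁, v₂} : Set K[X]), g ∣ v := by
    intro v hv
    have h1 : v ∈ I := Ideal.subset_span hv
    rw [hg] at h1
    exact Ideal.mem_span_singleton.mp h1
  have hgI : g ∈ I := by rw [hg]; exact Ideal.mem_span_singleton_self g
  have hu : IsUnit g := by
    by_contra hu
    by_cases hg0 : g = 0
    · subst hg0
      refine h X irreducible_X ?_ ?_ ?_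
      · rw [zero_dvd_iff.mp (hmem v₀ (by simp))]; exact dvd_zero _
      · rw [zero_dvd_iff.mp (hmem v₁ (by simp))]; exact dvd_zero _
      · rw [zero_dvd_iff.mp (hmem v₂ (by simp))]; exact dvd_zero _
    · obtain ⟨π, hπ, hπg⟩ := WfDvdMonoid.exists_irreducible_factor hu hg0
      exact h π hπ (hπg.trans (hmem v₀ (by simp))) (hπg.trans (hmem v₁ (by simp)))
        (hπg.trans (hmem v₂ (by simp)))
  have h1 : (1 : K[X]) ∈ I := by
    rw [Ideal.eq_top_of_isUnit_mem I hgI hu]
    trivial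
  rw [hI, Ideal.mem_span_insert] at h1
  obtain ⟨α₀, z, hz, h1⟩ := h1
  rw [Ideal.mem_span_pair] at hz
  obtain ⟨α₁, α₂, hz⟩ := hz
  exact ⟨α₀, α₁, α₂, by rw [h1, ← hz]; ring⟩

lemma Prim3.eq_of_prop {v₀ v₁ v₂ w₀ w₁ w₂ : K[X]} (hv : Prim3 v₀ v₁ v₂) (hw : Prim3 w₀ w₁ w₂)
    {L : Type v} [Field L] (i : K[X] →+* L) (hi : Function.Injective i) {c : L}
    (h₀ : i v₀ = c * i w₀) (h₁ : i v₁ = c * i w₁) (h₂ : i v₂ = c * i w₂) :
    ∃ c₀ : K, c₀ ≠ 0 ∧ v₀ = C c₀ * w₀ ∧ v₁ = C c₀ * w₁ ∧ v₂ = C c₀ * w₂ := by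
  obtain ⟨α₀, α₁, α₂, hα⟩ := hw.bezout
  obtain ⟨β₀, β₁, β₂, hβ⟩ := hv.bezout
  obtain ⟨e, he⟩ : ∃ e, e = α₀ * v₀ + α₁ * v₁ + α₂ * v₂ := ⟨_, rfl⟩
  have hie : i e = c := by
    rw [he, map_add, map_add, map_mul, map_mul, map_mul, h₀, h₁, h₂]
    have h3 := congrArg i hα
    rw [map_add, map_add, map_mul, map_mul, map_mul, map_one] at h3
    linear_combination c * h3
  have e₀ : v₀ = e * w₀ := hi (by rw [map_mul, hie, h₀])
  have e₁ : v₁ = e * w₁ := hi (by rw [map_mul, hie, h₁])
  have e₂ : v₂ = e * w₂ := hi (by rw [map_mul, hie, h₂])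
  have hu : IsUnit e := by
    apply IsUnit.of_mul_eq_one (β₀ * w₀ + β₁ * w₁ + β₂ * w₂)
    rw [e₀, e₁, e₂] at hβ
    linear_combination hβ
  obtain ⟨c₀, hc₀, rfl⟩ := Polynomial.isUnit_iff.mp hu
  exact ⟨c₀, hc₀.ne_zero, e₀, e₁, e₂⟩

lemma prim3_sym {a₁ b₁ a₂ b₂ : K[X]} (h₁ : IsCoprime a₁ b₁) (h₂ : IsCoprime a₂ b₂) :
    Prim3 (b₁ * b₂) (a₁ * b₂ + a₂ * b₁) (a₁ * a₂) := by
  intro π hπ d₀ d₁ d₂
  have hp := hπ.prime
  have hcop : ∀ a b : K[X], IsCoprime a b → π ∣ a → π ∣ b → False := fun a b hab ha hb =>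
    hπ.not_isUnit (hab.isUnit_of_dvd' ha hb)
  rcases hp.dvd_or_dvd d₀ with hb | hb
  · have h3 : π ∣ a₁ * b₂ := (dvd_add_left (hb.mul_left a₂)).mp d₁
    rcases hp.dvd_or_dvd h3 with h4 | h4
    · exact hcop _ _ h₁ h4 hb
    · rcases hp.dvd_or_dvd d₂ with h5 | h5
      · exact hcop _ _ h₁ h5 hb
      · exact hcop _ _ h₂ h5 h4
  · have h3 : π ∣ a₂ * b₁ := (dvd_add_right (hb.mul_left a₁)).mp d₁
    rcases hp.dvd_or_dvd h3 with h4 | h4
    · exact hcop _ _ h₂ h4 hb
    · rcases hp.dvd_or_dvd d₂ with h5 | h5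
      · exact hcop _ _ h₁ h5 h4
      · exact hcop _ _ h₂ h5 hb

lemma Prim3.dup (h2 : (2 : K) ≠ 0) {t s u : K[X]} (h : Prim3 t s u) :
    Prim3 (s ^ 2 - 4 * t * u) (2 * s * (u - t)) ((u + t) ^ 2) := by
  intro π hπ d₀ d₁ d₂
  have hp := hπ.prime
  have h2u : ∀ z : K[X], π ∣ 2 * z → π ∣ z := by
    intro z hz
    have h3 : (2 : K[X]) = C 2 := rfl
    have h4 : z = C (2⁻¹ : K) * (2 * z) := by
      rw [h3, ← mul_assoc, ← C_mul, inv_mul_cancel₀ h2, C_1, one_mul]
    rw [h4]
    exact hz.mul_left _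
  have h3 : π ∣ u + t := hp.dvd_of_dvd_pow d₂
  have h4 : π ∣ s * (u - t) := h2u _ (by rw [← mul_assoc]; exact d₁)
  rcases hp.dvd_or_dvd h4 with h5 | h5
  · have h6 : π ∣ 4 * t * u := (dvd_sub_right (h5.trans (Dvd.intro_left (s ^ 1) (by ring)))).mp d₀
    have h7 : π ∣ t * u := h2u _ (h2u _ (by
      have : (2 : K[X]) * (2 * (t * u)) = 4 * t * u := by ring
      rw [this]; exact h6))
    rcases hp.dvd_or_dvd h7 with h8 | h8
    · exact h π hπ h8 h5 ((dvd_add_left h8).mp h3)
    · exact h π hπ ((dvd_add_right h8).mp h3) h5 h8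
  · have h6 : π ∣ u := h2u _ (by
      have : 2 * u = (u + t) + (u - t) := by ring
      rw [this]; exact dvd_add h3 h5)
    have h7 : π ∣ t := (dvd_add_right h6).mp h3
    have h8 : π ∣ s := by
      apply hp.dvd_of_dvd_pow (n := 2)
      exact (dvd_sub_left (by exact h6.mul_left (4 * t))).mp d₀
    exact h π hπ h7 h8 h6

/-- The number `D` is the largest degree of the three polynomials. -/
def Top3 (v₀ v₁ v₂ : K[X]) (D : ℕ) : Prop :=
  v₀.natDegree ≤ D ∧ v₁.natDegree ≤ D ∧ v₂.natDegree ≤ D ∧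
    ¬ (v₀.coeff D = 0 ∧ v₁.coeff D = 0 ∧ v₂.coeff D = 0)

lemma Top3.unique {v₀ v₁ v₂ : K[X]} {D D' : ℕ} (h : Top3 v₀ v₁ v₂ D) (h' : Top3 v₀ v₁ v₂ D') :
    D = D' := by
  obtain ⟨h1, h2, h3, h4⟩ := h
  obtain ⟨h1', h2', h3', h4'⟩ := h'
  rcases lt_trichotomy D D' with hlt | heq | hlt
  · exfalso
    exact h4' ⟨coeff_eq_zero_of_natDegree_lt (h1.trans_lt hlt),
      coeff_eq_zero_of_natDegree_lt (h2.trans_lt hlt),
      coeff_eq_zero_of_natDegree_lt (h3.trans_lt hlt)⟩
  · exact heq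
  · exfalso
    exact h4 ⟨coeff_eq_zero_of_natDegree_lt (h1'.trans_lt hlt),
      coeff_eq_zero_of_natDegree_lt (h2'.trans_lt hlt),
      coeff_eq_zero_of_natDegree_lt (h3'.trans_lt hlt)⟩

lemma Top3.smul {v₀ v₁ v₂ : K[X]} {D : ℕ} (h : Top3 v₀ v₁ v₂ D) {c : K} (hc : c ≠ 0) :
    Top3 (C c * v₀) (C c * v₁) (C c * v₂) D := by
  obtain ⟨h1, h2, h3, h4⟩ := h
  refine ⟨(natDegree_C_mul_le _ _).trans h1, (natDegree_C_mul_le _ _).trans h2,
    (natDegree_C_mul_le _ _).trans h3, ?_⟩
  rw [coeff_C_mul, coeff_C_mul, coeff_C_mul]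
  rintro ⟨h5, h6, h7⟩
  exact h4 ⟨(mul_eq_zero.mp h5).resolve_left hc, (mul_eq_zero.mp h6).resolve_left hc,
    (mul_eq_zero.mp h7).resolve_left hc⟩

lemma coeff_mul_top {f g : K[X]} {d e : ℕ} (hf : f.natDegree ≤ d) (hg : g.natDegree ≤ e) :
    (f * g).coeff (d + e) = f.coeff d * g.coeff e :=
  coeff_mul_add_eq_of_natDegree_le hf hg

lemma top2_of_coprime {a b : K[X]} (h : IsCoprime a b) :
    ¬ (a.coeff (max a.natDegree b.natDegree) = 0 ∧ b.coeff (max a.natDegree b.natDegree) = 0) := by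
  rintro ⟨h1, h2⟩
  rcases le_total a.natDegree b.natDegree with h3 | h3
  · rw [max_eq_right h3] at h1 h2
    have hb : b = 0 := leadingCoeff_eq_zero.mp h2
    subst hb
    rw [natDegree_zero] at h1 h3
    have ha : a = 0 := by
      rw [← leadingCoeff_eq_zero, leadingCoeff, Nat.le_zero.mp h3]
      exact h1
    subst ha
    exact not_isCoprime_zero_zero h
  · rw [max_eq_left h3] at h1 h2
    have ha : a = 0 := leadingCoeff_eq_zero.mp h1
    subst ha
    rw [natDegree_zero] at h2 h3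
    have hb : b = 0 := by
      rw [← leadingCoeff_eq_zero, leadingCoeff, Nat.le_zero.mp h3]
      exact h2
    subst hb
    exact not_isCoprime_zero_zero h

lemma top3_sym {a₁ b₁ a₂ b₂ : K[X]} (h₁ : IsCoprime a₁ b₁) (h₂ : IsCoprime a₂ b₂) :
    Top3 (b₁ * b₂) (a₁ * b₂ + a₂ * b₁) (a₁ * a₂)
      (max a₁.natDegree b₁.natDegree + max a₂.natDegree b₂.natDegree) := by
  obtain ⟨D₁, hD₁⟩ : ∃ D, D = max a₁.natDegree b₁.natDegree := ⟨_, rfl⟩
  obtain ⟨D₂, hD₂⟩ : ∃ D, D = max a₂.natDegree b₂.natDegree := ⟨_, rfl⟩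
  have t1 := top2_of_coprime h₁
  have t2 := top2_of_coprime h₂
  rw [← hD₁] at t1 ⊢
  rw [← hD₂] at t2 ⊢
  have ha₁ : a₁.natDegree ≤ D₁ := by rw [hD₁]; exact le_max_left _ _
  have hb₁ : b₁.natDegree ≤ D₁ := by rw [hD₁]; exact le_max_right _ _
  have ha₂ : a₂.natDegree ≤ D₂ := by rw [hD₂]; exact le_max_left _ _
  have hb₂ : b₂.natDegree ≤ D₂ := by rw [hD₂]; exact le_max_right _ _
  have hmul : ∀ f g : K[X], f.natDegree ≤ D₁ → g.natDegree ≤ D₂ →
      (f * g).natDegree ≤ D₁ + D₂ := fun f g hf hg =>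
    natDegree_mul_le.trans (add_le_add hf hg)
  refine ⟨hmul _ _ hb₁ hb₂, ?_, hmul _ _ ha₁ ha₂, ?_⟩
  · refine (natDegree_add_le _ _).trans (max_le (hmul _ _ ha₁ hb₂) ?_)
    rw [mul_comm]; exact hmul _ _ hb₁ ha₂
  · rw [coeff_add, coeff_mul_top hb₁ hb₂, coeff_mul_top ha₁ hb₂, mul_comm a₂,
      coeff_mul_top hb₁ ha₂, coeff_mul_top ha₁ ha₂]
    generalize a₁.coeff D₁ = α₁ at *
    generalize b₁.coeff D₁ = β₁ at *
    generalize a₂.coeff D₂ = α₂ at *
    generalize b₂.coeff D₂ = β₂ at *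
    rintro ⟨h3, h4, h5⟩
    rcases mul_eq_zero.mp h3 with h6 | h6
    · subst h6
      rw [zero_mul, add_zero] at h4
      rcases mul_eq_zero.mp h4 with h7 | h7
      · exact t1 ⟨h7, rfl⟩
      · rcases mul_eq_zero.mp h5 with h8 | h8
        · exact t1 ⟨h8, rfl⟩
        · exact t2 ⟨h8, h7⟩
    · subst h6
      rw [mul_zero, zero_add] at h4
      rcases mul_eq_zero.mp h4 with h7 | h7
      · rcases mul_eq_zero.mp h5 with h8 | h8
        · exact t1 ⟨h8, h7⟩
        · exact t2 ⟨h8, rfl⟩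
      · exact t2 ⟨h7, rfl⟩

lemma Top3.dup (h2 : (2 : K) ≠ 0) {t s u : K[X]} {D : ℕ} (h : Top3 t s u D) :
    Top3 (s ^ 2 - 4 * t * u) (2 * s * (u - t)) ((u + t) ^ 2) (2 * D) := by
  obtain ⟨h1, h3, h4, h5⟩ := h
  have e4 : (4 : K[X]) * t * u = C 4 * (t * u) := by rw [mul_assoc]; rfl
  have e2 : (2 : K[X]) * s * (u - t) = C 2 * (s * (u - t)) := by rw [mul_assoc]; rfl
  have hmul : ∀ f g : K[X], f.natDegree ≤ D → g.natDegree ≤ D →
      (f * g).natDegree ≤ 2 * D := fun f g hf hg => by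
    rw [two_mul]
    exact natDegree_mul_le.trans (add_le_add hf hg)
  have hcoef : ∀ f g : K[X], f.natDegree ≤ D → g.natDegree ≤ D →
      (f * g).coeff (2 * D) = f.coeff D * g.coeff D := fun f g hf hg => by
    rw [two_mul]
    exact coeff_mul_top hf hg
  have hut : (u - t).natDegree ≤ D := (natDegree_sub_le _ _).trans (max_le h4 h1)
  have hut' : (u + t).natDegree ≤ D := (natDegree_add_le _ _).trans (max_le h4 h1)
  rw [e4, e2, sq, sq]
  refine ⟨?_, (natDegree_C_mul_le _ _).trans (hmul _ _ h3 hut), hmul _ _ hut' hut', ?_⟩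
  · exact (natDegree_sub_le _ _).trans (max_le (hmul _ _ h3 h3)
      ((natDegree_C_mul_le _ _).trans (hmul _ _ h1 h4)))
  · rw [coeff_sub, coeff_C_mul, coeff_C_mul, hcoef _ _ h3 h3, hcoef _ _ h1 h4, hcoef _ _ h3 hut,
      hcoef _ _ hut' hut', coeff_sub, coeff_add]
    generalize t.coeff D = τ at *
    generalize s.coeff D = ς at *
    generalize u.coeff D = υ at *
    rintro ⟨h6, h7, h8⟩
    have h9 : υ = -τ := by
      have := mul_self_eq_zero.mp h8
      linear_combination this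
    subst h9
    rcases mul_eq_zero.mp h7 with h10 | h10
    · exact h2 h10
    · rcases mul_eq_zero.mp h10 with h11 | h11
      · subst h11
        have h12 : 2 * 2 * (τ * τ) = 0 := by linear_combination h6
        have h13 : τ = 0 := by
          rcases mul_eq_zero.mp h12 with h | h
          · rcases mul_eq_zero.mp h with h | h <;> exact absurd h h2
          · exact mul_self_eq_zero.mp h
        subst h13
        exact h5 ⟨rfl, rfl, neg_zero⟩
      · have h12 : 2 * τ = 0 := by linear_combination -h11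
        have h13 : τ = 0 := (mul_eq_zero.mp h12).resolve_left h2
        subst h13
        have h14 : ς = 0 := by
          apply mul_self_eq_zero.mp
          linear_combination h6
        exact h5 ⟨rfl, h14, neg_zero⟩

end prim

end UnrH3
end

section

/-!
# The degree of a rational function
-/

namespace UnrH3

universe u v w

open Polynomial

section rdeg

variable {K : Type u} [Field K]

/-- The degree of a rational function. -/
noncomputable def rdeg (f : RatFunc K) : ℕ := max f.num.natDegree f.denom.natDegree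

lemma rdeg_div {a b : K[X]} (h : IsCoprime a b) (hb : b ≠ 0) :
    rdeg (algebraMap K[X] (RatFunc K) a / algebraMap K[X] (RatFunc K) b) =
      max a.natDegree b.natDegree := by
  set f := algebraMap K[X] (RatFunc K) a / algebraMap K[X] (RatFunc K) b with hf
  have hb' : algebraMap K[X] (RatFunc K) b ≠ 0 := RatFunc.algebraMap_ne_zero hb
  have hd' : algebraMap K[X] (RatFunc K) f.denom ≠ 0 :=
    RatFunc.algebraMap_ne_zero f.denom_ne_zero
  have h1 : a * f.denom = f.num * b := by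
    apply RatFunc.algebraMap_injective K
    rw [map_mul, map_mul]
    have h2 := RatFunc.num_div_denom f
    rw [hf] at h2
    rw [← hf] at h2
    have h3 : algebraMap K[X] (RatFunc K) f.num / algebraMap K[X] (RatFunc K) f.denom =
        algebraMap K[X] (RatFunc K) a / algebraMap K[X] (RatFunc K) b := h2.trans hf
    rw [div_eq_div_iff hd' hb'] at h3
    exact h3.symm
  have hc := f.isCoprime_num_denom
  have d1 : a ∣ f.num := h.dvd_of_dvd_mul_right ⟨f.denom, h1.symm⟩
  have d2 : f.num ∣ a := hc.dvd_of_dvd_mul_right ⟨b, h1⟩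
  have d3 : b ∣ f.denom := h.symm.dvd_of_dvd_mul_left ⟨f.num, by rw [h1]; ring⟩
  have d4 : f.denom ∣ b := hc.symm.dvd_of_dvd_mul_left ⟨a, by rw [← h1]; ring⟩
  have e1 : f.num.natDegree = a.natDegree :=
    natDegree_eq_of_degree_eq (degree_eq_degree_of_associated (associated_of_dvd_dvd d2 d1))
  have e2 : f.denom.natDegree = b.natDegree :=
    natDegree_eq_of_degree_eq (degree_eq_degree_of_associated (associated_of_dvd_dvd d4 d3))
  rw [rdeg, e1, e2]

lemma rdeg_eq_zero_iff (f : RatFunc K) : rdeg f = 0 ↔ ∃ c, f = RatFunc.C c := by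
  rw [RatFunc.eq_C_iff, rdeg, Nat.max_eq_zero_iff]

lemma rdeg_C (c : K) : rdeg (RatFunc.C c) = 0 := (rdeg_eq_zero_iff _).mpr ⟨c, rfl⟩

lemma rdeg_X : rdeg (RatFunc.X : RatFunc K) = 1 := by
  simp [rdeg]

lemma rdeg_neg (f : RatFunc K) : rdeg (-f) = rdeg f := by
  have h : -f = algebraMap K[X] (RatFunc K) (-f.num) / algebraMap K[X] (RatFunc K) f.denom := by
    rw [map_neg, neg_div, RatFunc.num_div_denom]
  rw [h, rdeg_div (IsCoprime.neg_left f.isCoprime_num_denom) f.denom_ne_zero, natDegree_neg]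
  rfl

lemma rdeg_pow (f : RatFunc K) (n : ℕ) : rdeg (f ^ n) = n * rdeg f := by
  have h : f ^ n = algebraMap K[X] (RatFunc K) (f.num ^ n) /
      algebraMap K[X] (RatFunc K) (f.denom ^ n) := by
    rw [map_pow, map_pow, ← div_pow, RatFunc.num_div_denom]
  rw [h, rdeg_div f.isCoprime_num_denom.pow (pow_ne_zero n f.denom_ne_zero), natDegree_pow,
    natDegree_pow, rdeg, ← Nat.mul_max_mul_left]

/-- The degree is multiplicative with respect to composition. -/
lemma rdeg_comp (θ : RatFunc K →ₐ[K] RatFunc K) (f : RatFunc K) :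
    rdeg (θ f) = rdeg f * rdeg (θ RatFunc.X) := by
  have h1 : ∀ g : RatFunc K, rdeg g = Module.finrank (IntermediateField.adjoin K {g})
      (RatFunc K) := fun g => (RatFunc.finrank_eq_max_natDegree g).symm
  rw [h1, h1, h1]
  have h2 : IntermediateField.adjoin K {θ f} = (IntermediateField.adjoin K {f}).map θ := by
    rw [IntermediateField.adjoin_map, Set.image_singleton]
  have h3 : IntermediateField.adjoin K {θ RatFunc.X} =
      (⊤ : IntermediateField K (RatFunc K)).map θ := by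
    rw [← RatFunc.adjoin_X, IntermediateField.adjoin_map, Set.image_singleton]
  have h4 := IntermediateField.relfinrank_map_map (IntermediateField.adjoin K {f}) ⊤ θ
  rw [IntermediateField.relfinrank_top_right] at h4
  have h5 : (IntermediateField.adjoin K {f}).map θ ≤
      (⊤ : IntermediateField K (RatFunc K)).map θ := IntermediateField.map_mono θ le_top
  have h6 := IntermediateField.relfinrank_mul_finrank_top h5
  rw [h2, h3, ← h4, h6]

lemma exists_subst {s : RatFunc K} (hs : ¬ ∃ c, s = RatFunc.C c) :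
    ∃ θ : RatFunc K →ₐ[K] RatFunc K, θ RatFunc.X = s := by
  have h1 := RatFunc.transcendental_of_ne_C s hs
  have h2 : Function.Injective (aeval s : K[X] →ₐ[K] RatFunc K) :=
    transcendental_iff_injective.mp h1
  refine ⟨RatFunc.liftAlgHom (aeval s : K[X] →ₐ[K] RatFunc K)
    (nonZeroDivisors_le_comap_nonZeroDivisors_of_injective _ h2), ?_⟩
  rw [RatFunc.liftAlgHom_apply]
  simp

end rdeg

end UnrH3
end

section

/-!
# Products of roots of several quadratic polynomials
-/

namespace UnrH3.Ell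

open Polynomial
open scoped Classical Pointwise

section ideal

variable {ι R : Type*} [Fintype ι] [CommRing R]

/-- The choice of one of two elements for each index. -/
noncomputable def pick (π π' : ι → R) (S : Finset ι) (i : ι) : R := if i ∈ S then π i else π' i

omit [Fintype ι] in
lemma prod_sub_mem {β : Type*} (J : Finset β) (e : β → ι) (x w : ι → R) :
    ∏ j ∈ J, x (e j) - ∏ j ∈ J, w (e j) ∈ Ideal.span (Set.range fun i => x i - w i) := by
  induction J using Finset.induction_on with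
  | empty => simp
  | insert a J ha ih =>
    rw [Finset.prod_insert ha, Finset.prod_insert ha]
    have h1 : x (e a) * ∏ j ∈ J, x (e j) - w (e a) * ∏ j ∈ J, w (e j) =
        (x (e a) - w (e a)) * ∏ j ∈ J, x (e j) +
          w (e a) * (∏ j ∈ J, x (e j) - ∏ j ∈ J, w (e j)) := by ring
    rw [h1]
    exact add_mem (Ideal.mul_mem_right _ _ (Ideal.subset_span ⟨_, rfl⟩))
      (Ideal.mul_mem_left _ _ ih)

/-- A product of one element for each of the subsets vanishes. -/
lemma diag_zero {x π π' : ι → R} (h : ∀ i, (x i - π i) * (x i - π' i) = 0)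
    (c : Finset ι → ι) : ∏ S : Finset ι, (x (c S) - pick π π' S (c S)) = 0 := by
  obtain ⟨T, hT⟩ : ∃ T : Finset ι, ∀ a, a ∈ T ↔ ∀ S, c S = a → a ∉ S :=
    ⟨Finset.univ.filter fun a => ∀ S, c S = a → a ∉ S, fun a => by simp⟩
  have h1 : c T ∉ T := fun h2 => (hT _).mp h2 T rfl h2
  have h3 : ∃ S, c S = c T ∧ c T ∈ S := by
    by_contra h4
    push Not at h4
    exact h1 ((hT _).mpr h4)
  obtain ⟨S, hS, hcS⟩ := h3
  have hne : T ≠ S := by
    rintro rfl
    exact h1 hcS
  rw [← Finset.mul_prod_erase Finset.univ _ (Finset.mem_univ T),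
    ← Finset.mul_prod_erase (Finset.univ.erase T) _
      (Finset.mem_erase.mpr ⟨hne.symm, Finset.mem_univ S⟩), ← mul_assoc]
  have h5 : pick π π' T (c T) = π' (c T) := by rw [pick, if_neg h1]
  have h6 : pick π π' S (c S) = π (c T) := by rw [hS, pick, if_pos hcS]
  rw [h5, h6, hS, mul_comm (x (c T) - π' (c T)), h, zero_mul]

theorem prod_pick_zero {x π π' : ι → R} (h : ∀ i, (x i - π i) * (x i - π' i) = 0)
    {β : Type*} (J : Finset β) (e : β → ι) :
    ∏ S : Finset ι, (∏ j ∈ J, x (e j) - ∏ j ∈ J, pick π π' S (e j)) = 0 := by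
  have h1 : ∏ S : Finset ι, (∏ j ∈ J, x (e j) - ∏ j ∈ J, pick π π' S (e j)) ∈
      ∏ S : Finset ι, Ideal.span (Set.range fun i => x i - pick π π' S i) :=
    Ideal.prod_mem_prod fun S _ => prod_sub_mem J e x _
  rw [Ideal.prod_span] at h1
  have h2 : Ideal.span (∏ S : Finset ι, Set.range fun i => x i - pick π π' S i) ≤ ⊥ := by
    rw [Ideal.span_le]
    intro z hz
    rw [Set.mem_finsetProd] at hz
    obtain ⟨g, hg, rfl⟩ := hz
    choose c hc using fun S => hg (Finset.mem_univ S)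
    change _ = _
    rw [← diag_zero h c]
    exact Finset.prod_congr rfl fun S _ => (hc S).symm
  exact h2 h1

end ideal

/-- A product of elements satisfying quadratic equations. -/
theorem aeval_prod_zero {ι β Rg : Type*} [Fintype ι] [CommRing Rg] (J : Finset β) (e : β → ι)
    (x : β → Rg) (hxe : ∀ i ∈ J, ∀ j ∈ J, e i = e j → x i = x j) (a : ι → ℤ) (q : ℤ)
    (hx : ∀ j ∈ J, x j ^ 2 - (a (e j) : Rg) * x j + (q : Rg) = 0)
    (π π' : ι → ℂ) (ha : ∀ i, π i + π' i = a i) (hq : ∀ i, π i * π' i = q) (P : ℤ[X])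
    (hP : P.map (Int.castRingHom ℂ) = ∏ S : Finset ι, (X - C (∏ j ∈ J, pick π π' S (e j)))) :
    aeval (∏ j ∈ J, x j) P = 0 := by
  obtain ⟨O, hO⟩ : ∃ O : Subalgebra ℤ ℂ, O = Algebra.adjoin ℤ (Set.range π ∪ Set.range π') :=
    ⟨_, rfl⟩
  have hroot : ∀ i, ∀ z : ℂ, (z - π i) * (z - π' i) = 0 → IsIntegral ℤ z := by
    intro i z hz
    refine ⟨X ^ 2 - C (a i) * X + C q, ?_, ?_⟩
    · have : (X ^ 2 - C (a i) * X + C q : ℤ[X]) = X ^ 2 + (C (-a i) * X + C q) := by
        rw [C_neg]; ring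
      rw [this]
      apply monic_X_pow_add
      refine lt_of_le_of_lt (degree_linear_le) (by norm_num)
    · rw [eval₂_add, eval₂_sub, eval₂_mul, eval₂_pow, eval₂_X, eval₂_C, eval₂_C]
      change z ^ 2 - (a i : ℂ) * z + (q : ℂ) = 0
      linear_combination hz + z * ha i - hq i
  have hint : ∀ z ∈ Set.range π ∪ Set.range π', IsIntegral ℤ z := by
    rintro z (⟨i, rfl⟩ | ⟨i, rfl⟩)
    · exact hroot i _ (by ring)
    · exact hroot i _ (by ring)
  have hπO : ∀ i, π i ∈ O := fun i => by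
    rw [hO]; exact Algebra.subset_adjoin (Or.inl ⟨i, rfl⟩)
  have hπ'O : ∀ i, π' i ∈ O := fun i => by
    rw [hO]; exact Algebra.subset_adjoin (Or.inr ⟨i, rfl⟩)
  have hfin : Module.Finite ℤ O := by
    have h1 : (Subalgebra.toSubmodule O).FG := by
      rw [hO]
      exact fg_adjoin_of_finite (Set.toFinite _) hint
    exact Module.Finite.iff_fg.mpr h1
  have hfree : Module.Free ℤ O := inferInstance
  have hinj : Function.Injective (TensorProduct.mk ℤ O Rg 1) :=
    Module.FaithfullyFlat.tensorProduct_mk_injective Rg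
  obtain ⟨ϖ, hϖ⟩ : ∃ ϖ : ι → O, ∀ i, (ϖ i : ℂ) = π i := ⟨fun i => ⟨π i, hπO i⟩, fun i => rfl⟩
  obtain ⟨ϖ', hϖ'⟩ : ∃ ϖ' : ι → O, ∀ i, (ϖ' i : ℂ) = π' i :=
    ⟨fun i => ⟨π' i, hπ'O i⟩, fun i => rfl⟩
  have hsum : ∀ i, ϖ i + ϖ' i = (a i : O) := fun i => Subtype.ext (by
    push_cast
    rw [hϖ, hϖ', ha])
  have hprod : ∀ i, ϖ i * ϖ' i = (q : O) := fun i => Subtype.ext (by
    push_cast
    rw [hϖ, hϖ', hq])
  obtain ⟨inc, hinc⟩ : ∃ inc : Rg →+* TensorProduct ℤ O Rg, ∀ z, inc z = 1 ⊗ₜ z :=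
    ⟨(Algebra.TensorProduct.includeRight : Rg →ₐ[ℤ] TensorProduct ℤ O Rg).toRingHom,
      fun z => rfl⟩
  obtain ⟨inl, hinl⟩ : ∃ inl : O →+* TensorProduct ℤ O Rg, ∀ z, inl z = z ⊗ₜ 1 :=
    ⟨(Algebra.TensorProduct.includeLeft : O →ₐ[ℤ] TensorProduct ℤ O Rg).toRingHom,
      fun z => rfl⟩
  obtain ⟨x', hx'⟩ : ∃ x' : ι → TensorProduct ℤ O Rg, ∀ i, (∃ j ∈ J, e j = i ∧ x' i = inc (x j)) ∨
      ((¬ ∃ j ∈ J, e j = i) ∧ x' i = inl (ϖ i)) := by
    have h1 : ∀ i, ∃ z : TensorProduct ℤ O Rg, (∃ j ∈ J, e j = i ∧ z = inc (x j)) ∨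
        ((¬ ∃ j ∈ J, e j = i) ∧ z = inl (ϖ i)) := by
      intro i
      by_cases h : ∃ j ∈ J, e j = i
      · obtain ⟨j, hj, hji⟩ := h
        exact ⟨_, Or.inl ⟨j, hj, hji, rfl⟩⟩
      · exact ⟨_, Or.inr ⟨h, rfl⟩⟩
    choose x' hx' using h1
    exact ⟨x', hx'⟩
  have hx'J : ∀ j ∈ J, x' (e j) = inc (x j) := by
    intro j hj
    rcases hx' (e j) with ⟨i, hi, hij, h1⟩ | ⟨h1, -⟩
    · rw [h1, hxe i hi j hj hij]
    · exact absurd ⟨j, hj, rfl⟩ h1
  have key := prod_pick_zero (x := x') (π := fun i => inl (ϖ i))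
    (π' := fun i => inl (ϖ' i)) (fun i => by
      rcases hx' i with ⟨j, hj, rfl, h1⟩ | ⟨-, h1⟩
      · rw [h1]
        have h1 := congrArg inc (hx j hj)
        rw [map_add, map_sub, map_pow, map_mul, map_intCast, map_intCast, map_zero] at h1
        have h3 := congrArg inl (hsum (e j))
        have h4 := congrArg inl (hprod (e j))
        rw [map_add, map_intCast] at h3
        rw [map_mul, map_intCast] at h4
        linear_combination h1 - inc (x j) * h3 + h4
      · rw [h1, sub_self, zero_mul]) J e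
  -- the polynomial over the ring of integers
  have hPO : P.map (Int.castRingHom O) =
      ∏ S : Finset ι, (X - C (∏ j ∈ J, pick ϖ ϖ' S (e j))) := by
    apply Polynomial.map_injective O.val.toRingHom Subtype.val_injective
    rw [Polynomial.map_map, Polynomial.map_prod]
    have h1 : (O.val.toRingHom).comp (Int.castRingHom O) = Int.castRingHom ℂ :=
      RingHom.ext_int _ _
    rw [h1, hP]
    refine Finset.prod_congr rfl fun S _ => ?_
    rw [Polynomial.map_sub, map_X, map_C]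
    have h7 : ∏ j ∈ J, pick π π' S (e j) =
        ∏ j ∈ J, O.val.toRingHom (pick ϖ ϖ' S (e j)) := by
      refine Finset.prod_congr rfl fun j _ => ?_
      unfold pick
      split_ifs
      · exact (hϖ _).symm
      · exact (hϖ' _).symm
    rw [h7, ← map_prod]
  have h5 : inc (aeval (∏ j ∈ J, x j) P) = 0 := by
    have h6 : inc (aeval (∏ j ∈ J, x j) P) =
        eval₂ inl (inc (∏ j ∈ J, x j)) (P.map (Int.castRingHom O)) := by
      rw [eval₂_map, aeval_def, hom_eval₂]
      congr 1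
      exact RingHom.ext_int _ _
    rw [h6, hPO, eval₂_finsetProd, ← key]
    refine Finset.prod_congr rfl fun S _ => ?_
    rw [eval₂_sub, eval₂_X, eval₂_C, map_prod, map_prod,
      Finset.prod_congr rfl (fun j hj => hx'J j hj)]
    congr 1
    refine Finset.prod_congr rfl fun j _ => ?_
    unfold pick
    split_ifs <;> rfl
  apply hinj
  rw [map_zero]
  rw [hinc] at h5
  exact h5

/-- A product of commuting operators satisfying quadratic equations. -/
theorem end_prod_zero {V ι β : Type*} [AddCommGroup V] [Fintype ι] [Fintype β] (e : β → ι)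
    (A : β → AddMonoid.End V) (hcomm : ∀ i j, A i * A j = A j * A i)
    (he : ∀ i j, e i = e j → A i = A j) (a : ι → ℤ) (q : ℤ)
    (hA : ∀ j v, A j (A j v) - a (e j) • A j v + q • v = 0)
    (π π' : ι → ℂ) (ha : ∀ i, π i + π' i = a i) (hq : ∀ i, π i * π' i = q) (P : ℤ[X])
    (hP : P.map (Int.castRingHom ℂ) = ∏ S : Finset ι, (X - C (∏ j, pick π π' S (e j))))
    (T : Finset β → AddMonoid.End V) (T0 : T ∅ = 1)
    (T1 : ∀ l J (hl : l ∉ J), T (Finset.cons l J hl) = A l * T J) (v : V) :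
    ∑ k ∈ Finset.range (P.natDegree + 1), P.coeff k • ((T Finset.univ) ^ k) v = 0 := by
  obtain ⟨R, hR⟩ : ∃ R : Subalgebra ℤ (AddMonoid.End V), R = Algebra.adjoin ℤ (Set.range A) :=
    ⟨_, rfl⟩
  have hAR : ∀ j, A j ∈ R := fun j => by rw [hR]; exact Algebra.subset_adjoin ⟨j, rfl⟩
  have hRcomm : ∀ y z : R, y * z = z * y := by
    subst hR
    intro y z
    have h1 : ∀ a ∈ Set.range A, ∀ b ∈ Set.range A, a * b = b * a := by
      rintro _ ⟨i, rfl⟩ _ ⟨j, rfl⟩
      exact hcomm i j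
    have h3 := Algebra.isMulCommutative_adjoin ℤ h1
    exact h3.is_comm.comm y z
  let _ : CommRing R := { (inferInstance : Ring R) with mul_comm := hRcomm }
  obtain ⟨x, hx⟩ : ∃ x : β → R, ∀ j, (x j : AddMonoid.End V) = A j :=
    ⟨fun j => ⟨A j, hAR j⟩, fun j => rfl⟩
  have hxj : ∀ j, x j ^ 2 - (a (e j) : R) * x j + (q : R) = 0 := by
    intro j
    apply Subtype.ext
    have h3 : A j ^ 2 - (a (e j) : AddMonoid.End V) * A j + (q : AddMonoid.End V) = 0 := by
      apply AddMonoidHom.ext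
      intro v
      have h1 := hA j v
      change A j (A j v) - ((a (e j) : AddMonoid.End V)) (A j v) + (q : AddMonoid.End V) v = 0
      rw [AddMonoid.End.intCast_apply, AddMonoid.End.intCast_apply]
      exact h1
    rw [← hx] at h3
    exact h3
  have key := aeval_prod_zero (Rg := R) Finset.univ e x
    (fun i _ j _ h => Subtype.ext (by rw [hx, hx, he i j h])) a q (fun j _ => hxj j)
    π π' ha hq P hP
  have hT : ∀ J : Finset β, T J = ((∏ j ∈ J, x j : R) : AddMonoid.End V) := by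
    intro J
    induction J using Finset.cons_induction with
    | empty => rw [T0, Finset.prod_empty]; rfl
    | cons l J hl ih =>
      rw [T1 l J hl, Finset.prod_cons, ih, ← hx]
      rfl
  have h5 : ∑ k ∈ Finset.range (P.natDegree + 1), P.coeff k • (T Finset.univ) ^ k = 0 := by
    rw [hT]
    rw [aeval_eq_sum_range] at key
    have h6 : ((∑ k ∈ Finset.range (P.natDegree + 1), P.coeff k •
        (∏ j, x j : R) ^ k : R) : AddMonoid.End V) = 0 := by rw [key]; rfl
    rw [← h6]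
    push_cast
    rfl
  have h7 : (∑ k ∈ Finset.range (P.natDegree + 1), P.coeff k • (T Finset.univ) ^ k :
      AddMonoid.End V) v = 0 := by rw [h5]; rfl
  have h8 : ∀ (J : Finset ℕ) (f : ℕ → AddMonoid.End V), (∑ k ∈ J, f k) v = ∑ k ∈ J, f k v := by
    intro J f
    induction J using Finset.induction_on with
    | empty => rfl
    | insert l J hl ih =>
      rw [Finset.sum_insert hl, Finset.sum_insert hl, ← ih]
      rfl
  rw [h8] at h7
  rw [← h7]
  rfl

end UnrH3.Ell
end

section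

/-!
# Galois descent of almost invariant classes
-/

namespace UnrA

universe u v w z

variable {m : UFun.{u, z}} {M : Type u} [Field M]

/-- Almost invariant unramified classes descend, up to a factor. -/
theorem fixed_trace (G : Subgroup (M ≃+* M)) [Finite G] {T : ℕ} {γ : KM m M} (hu : Unr γ)
    (hγ : ∀ g ∈ G, KM.map m (g : M →+* M) γ - γ ∈ tor T _) :
    ∃ v : KM m (FixedPoints.subfield G M), Unr v ∧
      KM.map m (FixedPoints.subfield G M).subtype v = (T * Nat.card G ^ 2) • γ := by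
  classical
  let _ : Fintype G := Fintype.ofFinite G
  have hcard : Module.finrank (FixedPoints.subfield G M) M = Nat.card G := by
    rw [FixedPoints.finrank_eq_card G M, Nat.card_eq_fintype_card]
  obtain ⟨y, hy⟩ := exists_trace (K := FixedPoints.subfield G M) (L := M) γ
  have hsum : ∑ σ : M ≃ₐ[FixedPoints.subfield G M] M, KM.map m (σ : M →+* M) γ -
      Nat.card G • γ ∈ tor T _ := by
    have h1 : Nat.card G • γ = ∑ σ : M ≃ₐ[FixedPoints.subfield G M] M, γ := by
      rw [Finset.sum_const, Finset.card_univ, ← Nat.card_eq_fintype_card,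
        Nat.card_congr (FixedPoints.toAlgAutMulEquiv G M).toEquiv.symm]
    rw [h1, ← Finset.sum_sub_distrib]
    refine sum_mem fun σ _ => ?_
    obtain ⟨g, rfl⟩ := (FixedPoints.toAlgAutMulEquiv G M).surjective σ
    exact hγ g g.2
  have h1 : KM.map m (algebraMap (FixedPoints.subfield G M) M) (T • y) =
      (T * Nat.card G) • γ := by
    rw [map_nsmul, hy, mul_smul, ← sub_eq_zero, ← smul_sub]
    exact hsum
  have h2 : Unr (KM.map m (algebraMap (FixedPoints.subfield G M) M) (T • y)) := by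
    rw [h1]; exact hu.nsmul _
  have h3 := unr_smul_of_map h2
  rw [hcard] at h3
  refine ⟨Nat.card G • T • y, h3, ?_⟩
  rw [map_nsmul]
  change Nat.card G • KM.map m (algebraMap (FixedPoints.subfield G M) M) (T • y) = _
  rw [h1, smul_smul]
  congr 1
  ring

/-- The kernel of the restriction from the fixed field is killed by the order of the group. -/
theorem fixed_ker (G : Subgroup (M ≃+* M)) [Finite G] {v : KM m (FixedPoints.subfield G M)}
    (hv : KM.map m (FixedPoints.subfield G M).subtype v = 0) : Nat.card G • v = 0 := by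
  classical
  let _ : Fintype G := Fintype.ofFinite G
  have hcard : Module.finrank (FixedPoints.subfield G M) M = Nat.card G := by
    rw [FixedPoints.finrank_eq_card G M, Nat.card_eq_fintype_card]
  exact finrank_smul_eq_zero _ hcard hv

end UnrA
end

section

/-!
# Multiplicative relations between Frobenius eigenvalues
-/

namespace UnrA

open Polynomial
open scoped Classical

lemma prod_zpow_sum {G ι : Type*} [CommGroup G] (g : G) (s : Finset ι) (f : ι → ℤ) :
    ∏ i ∈ s, g ^ f i = g ^ ∑ i ∈ s, f i := by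
  induction s using Finset.induction_on with
  | empty => simp
  | insert i s hi ih => rw [Finset.prod_insert hi, Finset.sum_insert hi, ih, zpow_add]

section rel

variable {ι : Type*} [Fintype ι] {L : Type*} [Field L] [Algebra ℚ L] [FiniteDimensional ℚ L]
  [IsGalois ℚ L] {z z' : ι → L} {a : ι → ℤ} {q : ℤ} (h1 : ∀ c, z c + z' c = a c)
  (h2 : ∀ c, z c * z' c = q) (hβ : ∀ c, a c ^ 2 ≠ 4 * q)
  (hα : ∀ c c', c ≠ c' → ¬ IsSquare ((a c ^ 2 - 4 * q) * (a c' ^ 2 - 4 * q)))

omit [Fintype ι] [Algebra ℚ L] [FiniteDimensional ℚ L] [IsGalois ℚ L] in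
include h1 h2 in
lemma disc_sq (c : ι) : (z c - z' c) ^ 2 = ((a c ^ 2 - 4 * q : ℤ) : L) := by
  push_cast
  rw [← h1, ← h2]
  ring

omit [Fintype ι] [FiniteDimensional ℚ L] [IsGalois ℚ L] in
include h1 h2 in
/-- An automorphism fixes the eigenvalues or exchanges them. -/
lemma sigma_cases (σ : L ≃ₐ[ℚ] L) (c : ι) :
    (σ (z c) = z c ∧ σ (z' c) = z' c) ∨ (σ (z c) = z' c ∧ σ (z' c) = z c) := by
  have e1 : σ (z c) + σ (z' c) = z c + z' c := by
    rw [← map_add, h1, map_intCast]
  have e2 : σ (z c) * σ (z' c) = z c * z' c := by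
    rw [← map_mul, h2, map_intCast]
  have e3 : (σ (z c) - z c) * (σ (z c) - z' c) = 0 := by
    linear_combination σ (z c) * e1 - e2
  rcases mul_eq_zero.mp e3 with h | h
  · left
    have h4 := sub_eq_zero.mp h
    exact ⟨h4, by rw [h4] at e1; exact add_left_cancel e1⟩
  · right
    have h4 := sub_eq_zero.mp h
    exact ⟨h4, by rw [h4, add_comm] at e1; exact add_right_cancel e1⟩

/-- The sign of an automorphism. -/
noncomputable def sgnAt (z : ι → L) (c : ι) (σ : L ≃ₐ[ℚ] L) : ℤ := if σ (z c) = z c then 1 else -1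

omit [Fintype ι] [FiniteDimensional ℚ L] [IsGalois ℚ L] in
include h1 h2 in
lemma sigma_disc (σ : L ≃ₐ[ℚ] L) (c : ι) :
    σ (z c - z' c) = sgnAt z c σ * (z c - z' c) := by
  unfold sgnAt
  rw [map_sub]
  split_ifs with h
  · rcases sigma_cases h1 h2 σ c with ⟨h3, h4⟩ | ⟨h3, h4⟩
    · rw [h3, h4]; push_cast; ring
    · rw [h3, h4]
      rw [h] at h3
      rw [h3]; push_cast; ring
  · rcases sigma_cases h1 h2 σ c with ⟨h3, h4⟩ | ⟨h3, h4⟩
    · exact absurd h3 h
    · rw [h3, h4]; push_cast; ring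

omit [Fintype ι] [FiniteDimensional ℚ L] [IsGalois ℚ L] in
lemma sgnAt_sq (c : ι) (σ : L ≃ₐ[ℚ] L) : sgnAt z c σ * sgnAt z c σ = 1 := by
  unfold sgnAt
  split_ifs <;> ring

omit [Fintype ι] [FiniteDimensional ℚ L] [IsGalois ℚ L] in
include h1 h2 hβ in
lemma disc_ne (c : ι) : z c - z' c ≠ 0 := by
  intro h
  have h3 := disc_sq h1 h2 c
  rw [h, zero_pow two_ne_zero] at h3
  have : CharZero L := charZero_of_injective_algebraMap (algebraMap ℚ L).injective
  have h4 : (a c ^ 2 - 4 * q : ℤ) = 0 := by exact_mod_cast h3.symm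
  exact hβ c (by linarith)

omit [Fintype ι] [FiniteDimensional ℚ L] [IsGalois ℚ L] in
include h1 h2 hβ in
lemma sgnAt_mul (c : ι) (σ τ : L ≃ₐ[ℚ] L) : sgnAt z c (σ * τ) = sgnAt z c σ * sgnAt z c τ := by
  have : CharZero L := charZero_of_injective_algebraMap (algebraMap ℚ L).injective
  have h3 := sigma_disc h1 h2 (σ * τ) c
  rw [AlgEquiv.mul_apply, sigma_disc h1 h2 τ c, map_mul, map_intCast, sigma_disc h1 h2 σ c,
    ← mul_assoc] at h3
  have h4 := mul_right_cancel₀ (disc_ne h1 h2 hβ c) h3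
  have h5 : sgnAt z c τ * sgnAt z c σ = sgnAt z c (σ * τ) := by exact_mod_cast h4
  rw [← h5, mul_comm]

omit [Fintype ι] in
include h1 h2 hβ hα in
/-- Orthogonality. -/
lemma sum_sgnAt {c c' : ι} (hne : c ≠ c') :
    ∑ σ : L ≃ₐ[ℚ] L, sgnAt z c σ * sgnAt z c' σ = 0 := by
  have hch : CharZero L := charZero_of_injective_algebraMap (algebraMap ℚ L).injective
  obtain ⟨τ, hτ⟩ : ∃ τ : L ≃ₐ[ℚ] L, sgnAt z c τ * sgnAt z c' τ ≠ 1 := by
    by_contra hcon
    push Not at hcon
    have h3 : ∀ σ : L ≃ₐ[ℚ] L, σ ((z c - z' c) * (z c' - z' c')) =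
        (z c - z' c) * (z c' - z' c') := by
      intro σ
      rw [map_mul, sigma_disc h1 h2, sigma_disc h1 h2]
      have h4 : ((sgnAt z c σ : ℤ) : L) * (sgnAt z c' σ : ℤ) = 1 := by
        have := hcon σ
        exact_mod_cast this
      linear_combination (z c - z' c) * (z c' - z' c') * h4
    obtain ⟨r, hr⟩ := IntermediateField.mem_bot.mp ((IsGalois.mem_bot_iff_fixed (F := ℚ) _).mpr h3)
    apply hα c c' hne
    rw [← Rat.isSquare_intCast_iff]
    refine ⟨r, ?_⟩
    apply (algebraMap ℚ L).injective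
    rw [map_mul, hr]
    have h5 := disc_sq h1 h2 c
    have h6 := disc_sq h1 h2 c'
    have h7 : algebraMap ℚ L (((a c ^ 2 - 4 * q) * (a c' ^ 2 - 4 * q) : ℤ) : ℚ) =
        ((a c ^ 2 - 4 * q : ℤ) : L) * ((a c' ^ 2 - 4 * q : ℤ) : L) := by
      rw [map_intCast]; push_cast; ring
    rw [h7, ← h5, ← h6]
    ring
  have h3 : ∑ σ : L ≃ₐ[ℚ] L, sgnAt z c σ * sgnAt z c' σ =
      ∑ σ : L ≃ₐ[ℚ] L, sgnAt z c (σ * τ) * sgnAt z c' (σ * τ) :=
    (Fintype.sum_equiv (Equiv.mulRight τ) _ _ fun σ => rfl).symm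
  have h4 : sgnAt z c τ * sgnAt z c' τ = -1 := by
    have h5 := sgnAt_sq (z := z) c τ
    have h6 := sgnAt_sq (z := z) c' τ
    have h7 : (sgnAt z c τ * sgnAt z c' τ - 1) * (sgnAt z c τ * sgnAt z c' τ + 1) = 0 := by
      linear_combination (sgnAt z c' τ * sgnAt z c' τ) * h5 + h6
    rcases mul_eq_zero.mp h7 with h | h
    · exact absurd (sub_eq_zero.mp h) hτ
    · linarith
  have h5 : ∀ σ : L ≃ₐ[ℚ] L, sgnAt z c (σ * τ) * sgnAt z c' (σ * τ) =
      -(sgnAt z c σ * sgnAt z c' σ) := by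
    intro σ
    rw [sgnAt_mul h1 h2 hβ, sgnAt_mul h1 h2 hβ]
    linear_combination sgnAt z c σ * sgnAt z c' σ * h4
  rw [Finset.sum_congr rfl fun σ _ => h5 σ, Finset.sum_neg_distrib] at h3
  linarith

include h1 h2 hβ hα in
/-- In a multiplicative relation between the quotients, each quotient is a root of unity. -/
theorem rel_root (hq : q ≠ 0) {n : ι → ℕ} (hn : ∏ c, z c ^ n c = ∏ c, z' c ^ n c) (c₀ : ι) :
    z c₀ ^ (Fintype.card (L ≃ₐ[ℚ] L) * n c₀) = z' c₀ ^ (Fintype.card (L ≃ₐ[ℚ] L) * n c₀) := by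
  have hch : CharZero L := charZero_of_injective_algebraMap (algebraMap ℚ L).injective
  have hq' : (q : L) ≠ 0 := by exact_mod_cast hq
  have hz : ∀ c, z c ≠ 0 := fun c h => hq' (by rw [← h2 c, h, zero_mul])
  have hz' : ∀ c, z' c ≠ 0 := fun c h => hq' (by rw [← h2 c, h, mul_zero])
  obtain ⟨u, hu⟩ : ∃ u : ι → Lˣ, ∀ c, (u c : L) = z c / z' c :=
    ⟨fun c => Units.mk0 _ (div_ne_zero (hz c) (hz' c)), fun _ => rfl⟩
  have hrel : ∀ σ : L ≃ₐ[ℚ] L, ∏ c, u c ^ (sgnAt z c σ * n c) = 1 := by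
    intro σ
    have h3 : ∏ c, (z c / z' c) ^ n c = 1 := by
      rw [Finset.prod_congr rfl fun c _ => div_pow (z c) (z' c) (n c), Finset.prod_div_distrib, hn,
        div_self]
      exact Finset.prod_ne_zero_iff.mpr fun c _ => pow_ne_zero _ (hz' c)
    have h4 := congrArg σ h3
    rw [map_one, map_prod] at h4
    apply Units.ext
    rw [Units.coe_prod, Units.val_one, ← h4]
    refine Finset.prod_congr rfl fun c _ => ?_
    rw [map_pow, map_div₀, zpow_mul, zpow_natCast, Units.val_pow_eq_pow_val]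
    congr 1
    unfold sgnAt
    split_ifs with h
    · rw [zpow_one, hu]
      rcases sigma_cases h1 h2 σ c with ⟨h5, h6⟩ | ⟨h5, h6⟩
      · rw [h5, h6]
      · rw [h] at h5
        rw [h6, h, ← h5]
    · rcases sigma_cases h1 h2 σ c with ⟨h5, h6⟩ | ⟨h5, h6⟩
      · exact absurd h5 h
      · rw [zpow_neg_one, Units.val_inv_eq_inv_val, hu, h5, h6, inv_div]
  have hprod : ∏ σ : L ≃ₐ[ℚ] L, (∏ c, u c ^ (sgnAt z c σ * n c)) ^ sgnAt z c₀ σ = 1 :=
    Finset.prod_eq_one fun σ _ => by rw [hrel σ, one_zpow]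
  have h3 : ∏ σ : L ≃ₐ[ℚ] L, (∏ c, u c ^ (sgnAt z c σ * n c)) ^ sgnAt z c₀ σ =
      ∏ c, u c ^ ∑ σ : L ≃ₐ[ℚ] L, sgnAt z c σ * n c * sgnAt z c₀ σ := by
    rw [Finset.prod_congr rfl fun c _ => (prod_zpow_sum (u c) Finset.univ
      (fun σ => sgnAt z c σ * n c * sgnAt z c₀ σ)).symm, Finset.prod_comm]
    refine Finset.prod_congr rfl fun σ _ => ?_
    rw [← Finset.prod_zpow]
    exact Finset.prod_congr rfl fun c _ => (zpow_mul _ _ _).symm
  rw [h3, Finset.prod_eq_single c₀ (fun c _ hc => ?_) (fun h => absurd (Finset.mem_univ _) h)]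
    at hprod
  · have h4 : ∑ σ : L ≃ₐ[ℚ] L, sgnAt z c₀ σ * n c₀ * sgnAt z c₀ σ =
        ((Fintype.card (L ≃ₐ[ℚ] L) * n c₀ : ℕ) : ℤ) := by
      rw [Finset.sum_congr rfl fun σ _ => show sgnAt z c₀ σ * n c₀ * sgnAt z c₀ σ = (n c₀ : ℤ) by
        linear_combination (n c₀ : ℤ) * sgnAt_sq (z := z) c₀ σ, Finset.sum_const,
        Finset.card_univ]
      simp
    rw [h4, zpow_natCast] at hprod
    have h5 := congrArg (fun x : Lˣ => (x : L)) hprod
    simp only [Units.val_pow_eq_pow_val, Units.val_one, hu] at h5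
    rw [div_pow, div_eq_one_iff_eq (pow_ne_zero _ (hz' c₀))] at h5
    exact h5
  · have h4 : ∑ σ : L ≃ₐ[ℚ] L, sgnAt z c σ * n c * sgnAt z c₀ σ = 0 := by
      rw [Finset.sum_congr rfl fun σ _ => show sgnAt z c σ * n c * sgnAt z c₀ σ =
        (sgnAt z c σ * sgnAt z c₀ σ) * n c by ring, ← Finset.sum_mul,
        sum_sgnAt h1 h2 hβ hα hc, zero_mul]
    rw [h4, zpow_zero]

end rel

section complex

variable {ι : Type*} [Fintype ι] {z : ι → ℂ} {a : ι → ℤ} {q : ℤ}
  (hz1 : ∀ c, z c + (starRingEnd ℂ) (z c) = a c) (hz2 : ∀ c, z c * (starRingEnd ℂ) (z c) = q)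

include hz1 hz2 in
/-- In a multiplicative relation between the eigenvalues, each quotient is a root of unity. -/
theorem rel_root_complex (hq : q ≠ 0) (hβ : ∀ c, a c ^ 2 ≠ 4 * q)
    (hα : ∀ c c', c ≠ c' → ¬ IsSquare ((a c ^ 2 - 4 * q) * (a c' ^ 2 - 4 * q)))
    {n : ι → ℕ} (hn : ∏ c, z c ^ n c = ∏ c, (starRingEnd ℂ) (z c) ^ n c) (c₀ : ι) :
    ∃ N : ℕ, 0 < N ∧ z c₀ ^ (N * n c₀) = (starRingEnd ℂ) (z c₀) ^ (N * n c₀) := by
  obtain ⟨f, hf⟩ : ∃ f : ℚ[X], f = ∏ c, (X ^ 2 - C (a c : ℚ) * X + C (q : ℚ)) := ⟨_, rfl⟩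
  have hf1 : ∀ c, (X ^ 2 - C (a c : ℚ) * X + C (q : ℚ)) ≠ 0 := by
    intro c
    have h3 : (X ^ 2 - C (a c : ℚ) * X + C (q : ℚ)).Monic := by monicity!
    exact h3.ne_zero
  have hf0 : f ≠ 0 := by
    rw [hf]
    exact Finset.prod_ne_zero_iff.mpr fun c _ => hf1 c
  have hev : ∀ x : ℂ, aeval x f = ∏ c, (x ^ 2 - a c * x + q) := by
    intro x
    rw [hf, map_prod]
    refine Finset.prod_congr rfl fun c _ => ?_
    simp
  have hroot : ∀ c, z c ∈ f.rootSet ℂ ∧ (starRingEnd ℂ) (z c) ∈ f.rootSet ℂ := by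
    intro c
    rw [mem_rootSet, mem_rootSet, hev, hev]
    refine ⟨⟨hf0, Finset.prod_eq_zero (Finset.mem_univ c) ?_⟩,
      ⟨hf0, Finset.prod_eq_zero (Finset.mem_univ c) ?_⟩⟩
    · rw [← hz1, ← hz2]; ring
    · rw [← hz1, ← hz2]; ring
  obtain ⟨L, hL, hfd, hno⟩ : ∃ L : IntermediateField ℚ ℂ,
      L = IntermediateField.adjoin ℚ (f.rootSet ℂ) ∧ FiniteDimensional ℚ L ∧ Normal ℚ L := by
    have hsp : IsSplittingField ℚ (IntermediateField.adjoin ℚ (f.rootSet ℂ)) f := by
      convert IntermediateField.adjoin_rootSet_isSplittingField (p := f) (K := ℚ) (L := ℂ)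
        (IsAlgClosed.splits _)
      exact Subsingleton.elim _ _
    exact ⟨_, rfl, IsSplittingField.finiteDimensional _ f, Normal.of_isSplittingField f⟩
  have hga : IsGalois ℚ L := ⟨⟩
  have hmem : ∀ c, z c ∈ L ∧ (starRingEnd ℂ) (z c) ∈ L := by
    intro c
    rw [hL]
    exact ⟨IntermediateField.subset_adjoin _ _ (hroot c).1,
      IntermediateField.subset_adjoin _ _ (hroot c).2⟩
  have key := rel_root (ι := ι) (L := L) (z := fun c => ⟨z c, (hmem c).1⟩)
    (z' := fun c => ⟨(starRingEnd ℂ) (z c), (hmem c).2⟩) (a := a) (q := q)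
    (fun c => Subtype.ext (by
      change z c + (starRingEnd ℂ) (z c) = ((a c : L) : ℂ)
      rw [hz1]; rfl))
    (fun c => Subtype.ext (by
      change z c * (starRingEnd ℂ) (z c) = ((q : L) : ℂ)
      rw [hz2]; rfl)) hβ hα hq (n := n) (by
      apply L.val.injective
      rw [map_prod, map_prod]
      exact hn) c₀
  refine ⟨Fintype.card (L ≃ₐ[ℚ] L), Fintype.card_pos, ?_⟩
  exact congrArg (fun x : L => (x : ℂ)) key

/-- The trace of an eigenvalue whose quotient by its conjugate is a root of unity. -/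
theorem trace_of_root {z : ℂ} {a q : ℤ} (hz1 : z + (starRingEnd ℂ) z = a)
    (hz2 : z * (starRingEnd ℂ) z = q) (hq : 0 < q) {N : ℕ} (hN : 0 < N)
    (h : z ^ N = (starRingEnd ℂ) z ^ N) : ∃ r : ℕ, r ≤ 4 ∧ a ^ 2 = r * q := by
  have hq' : (q : ℂ) ≠ 0 := by exact_mod_cast hq.ne'
  have hz0 : z ≠ 0 := fun h0 => hq' (by rw [← hz2, h0, zero_mul])
  have hz0' : (starRingEnd ℂ) z ≠ 0 := fun h0 => hq' (by rw [← hz2, h0, mul_zero])
  have hu : (z / (starRingEnd ℂ) z) ^ N = 1 := by
    rw [div_pow, h, div_self (pow_ne_zero _ hz0')]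
  have hv : ((starRingEnd ℂ) z / z) ^ N = 1 := by
    rw [div_pow, h, div_self (pow_ne_zero _ hz0')]
  have hint : ∀ u : ℂ, u ^ N = 1 → IsIntegral ℤ u := fun u hu =>
    ⟨X ^ N - 1, monic_X_pow_sub_C 1 hN.ne', by simp [hu]⟩
  have hsum : z / (starRingEnd ℂ) z + (starRingEnd ℂ) z / z =
      algebraMap ℚ ℂ (((a ^ 2 - 2 * q : ℤ) : ℚ) / q) := by
    have h3 : algebraMap ℚ ℂ (((a ^ 2 - 2 * q : ℤ) : ℚ) / q) = ((a : ℂ) ^ 2 - 2 * q) / q := by
      rw [map_div₀, map_intCast, map_intCast]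
      push_cast
      rfl
    rw [h3, ← hz1, ← hz2]
    field_simp
    ring
  have hI : IsIntegral ℤ (((a ^ 2 - 2 * q : ℤ) : ℚ) / q) := by
    have h3 := (hint _ hu).add (hint _ hv)
    rw [hsum] at h3
    exact (isIntegral_algebraMap_iff (algebraMap ℚ ℂ).injective).mp h3
  obtain ⟨r, hr⟩ := IsIntegrallyClosed.isIntegral_iff.mp hI
  have hqQ : (q : ℚ) ≠ 0 := by exact_mod_cast hq.ne'
  have hr' : a ^ 2 = (r + 2) * q := by
    rw [eq_intCast, eq_div_iff hqQ] at hr
    have h3 : r * q = a ^ 2 - 2 * q := by exact_mod_cast hr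
    linarith
  have hle : a ^ 2 ≤ 4 * q := by
    have h3 : (a : ℝ) = 2 * z.re := by
      have h4 := congrArg Complex.re hz1
      rw [Complex.add_re, Complex.conj_re, Complex.intCast_re] at h4
      linarith
    have h4 : (q : ℝ) = z.re ^ 2 + z.im ^ 2 := by
      have h5 := congrArg Complex.re hz2
      rw [Complex.mul_re, Complex.conj_re, Complex.conj_im, Complex.intCast_re] at h5
      linarith
    have h5 : (a : ℝ) ^ 2 ≤ 4 * q := by rw [h3, h4]; nlinarith [sq_nonneg z.im]
    exact_mod_cast h5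
  have h1 : 0 ≤ r + 2 := by
    by_contra hcon
    push Not at hcon
    nlinarith [sq_nonneg a]
  have h3 : r + 2 ≤ 4 := by
    by_contra hcon
    push Not at hcon
    nlinarith
  obtain ⟨r', hr2⟩ := Int.eq_ofNat_of_zero_le h1
  exact ⟨r', by omega, by rw [hr', hr2]⟩

include hz1 hz2 in
/-- Products of powers of Frobenius eigenvalues are not powers of `q`. -/
theorem prod_ne_pow (hq : 0 < q) (hα : ∀ c c', c ≠ c' →
      IsSquare ((a c ^ 2 - 4 * q) * (a c' ^ 2 - 4 * q)) →
        (a c ^ 2 - 4 * q) * (a c' ^ 2 - 4 * q) = 0)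
    (hβ : ∀ c, ∀ r : ℕ, r < 4 → a c ^ 2 ≠ r * q) {n : ι → ℕ} {c₀ : ι} (hc₀ : a c₀ ^ 2 ≠ 4 * q)
    (hn : n c₀ ≠ 0) (w : ℕ) : ∏ c, z c ^ n c ≠ (q : ℂ) ^ w := by
  intro h
  have h3 : ∏ c, (starRingEnd ℂ) (z c) ^ n c = (q : ℂ) ^ w := by
    have h4 := congrArg (starRingEnd ℂ) h
    rw [map_prod, map_pow, map_intCast] at h4
    rw [← h4]
    exact Finset.prod_congr rfl fun c _ => (map_pow _ _ _).symm
  have hq' : (q : ℂ) ≠ 0 := by exact_mod_cast hq.ne'
  have hsplit : ∀ c, ¬ a c ^ 2 ≠ 4 * q → (starRingEnd ℂ) (z c) = z c := by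
    intro c hc
    rw [not_not] at hc
    have h4 : (z c - (starRingEnd ℂ) (z c)) ^ 2 = 0 := by
      have h5 : (z c - (starRingEnd ℂ) (z c)) ^ 2 = ((a c ^ 2 - 4 * q : ℤ) : ℂ) := by
        push_cast
        rw [← hz1, ← hz2]
        ring
      rw [h5, hc, sub_self, Int.cast_zero]
    exact (sub_eq_zero.mp (pow_eq_zero_iff two_ne_zero |>.mp h4)).symm
  have h5 := Fintype.prod_subtype_mul_prod_subtype (fun c => a c ^ 2 ≠ 4 * q)
    (fun c => z c ^ n c)
  have h6 := Fintype.prod_subtype_mul_prod_subtype (fun c => a c ^ 2 ≠ 4 * q)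
    (fun c => (starRingEnd ℂ) (z c) ^ n c)
  have h7 : ∏ c : {c // ¬ a c ^ 2 ≠ 4 * q}, (starRingEnd ℂ) (z c) ^ n c =
      ∏ c : {c // ¬ a c ^ 2 ≠ 4 * q}, z c ^ n c :=
    Finset.prod_congr rfl fun c _ => by rw [hsplit c c.2]
  rw [h7, h3, ← h, ← h5] at h6
  have h8 : ∏ c : {c // ¬ a c ^ 2 ≠ 4 * q}, z c ^ n c ≠ 0 := by
    refine Finset.prod_ne_zero_iff.mpr fun c _ => pow_ne_zero _ fun h0 => hq' ?_
    rw [← hz2 c, h0, zero_mul]
  have h9 := (mul_right_cancel₀ h8 h6).symm
  obtain ⟨N, hN, h10⟩ := rel_root_complex (ι := {c // a c ^ 2 ≠ 4 * q}) (z := fun c => z c)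
    (a := fun c => a c) (q := q) (fun c => hz1 c) (fun c => hz2 c) hq.ne' (fun c => c.2)
    (fun c c' hne hs => by
      rcases mul_eq_zero.mp (hα c c' (fun h => hne (Subtype.ext h)) hs) with h | h
      · exact c.2 (by linarith)
      · exact c'.2 (by linarith)) (n := fun c => n c) h9 ⟨c₀, hc₀⟩
  obtain ⟨r, hr, har⟩ := trace_of_root (hz1 c₀) (hz2 c₀) hq
    (Nat.mul_pos hN (Nat.pos_of_ne_zero hn)) h10
  rcases hr.lt_or_eq with h | h
  · exact hβ c₀ r h har
  · rw [h] at har
    exact hc₀ (by exact_mod_cast har)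

end complex

end UnrA
end

section

/-!
# Open subgroups of profinite groups
-/

namespace GC

universe u v w

section

variable {G : Type u} [Group G] [TopologicalSpace G] [IsTopologicalGroup G] [CompactSpace G]

/-- Open subgroups have finitely many cosets. -/
lemma finite_quotient {U : Subgroup G} (hU : IsOpen (U : Set G)) : Finite (G ⧸ U) := by
  have := QuotientGroup.discreteTopology hU
  exact finite_of_compact_of_discrete

/-- Smooth functions have finitely many values. -/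
lemma Smooth.finite_range {M : Type v} {n : ℕ} {c : (Fin n → G) → M} (hc : Smooth c) :
    (Set.range c).Finite := by
  obtain ⟨U, hU, h⟩ := hc
  have := finite_quotient hU
  have h2 : Set.range c ⊆ Set.range fun q : Fin n → G ⧸ U => c fun i => (q i).out := by
    rintro _ ⟨x, rfl⟩
    refine ⟨fun i => (x i : G ⧸ U), ?_⟩
    have h3 : ∀ i, ∃ u : U, ((x i : G ⧸ U)).out = x i * u := fun i =>
      QuotientGroup.mk_out_eq_mul U (x i)
    choose u hu using h3
    change (c fun i => ((x i : G ⧸ U)).out) = c x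
    simp only [hu]
    exact h x (fun i => u i) fun i => (u i).2
  exact (Set.finite_range _).subset h2

variable [TotallyDisconnectedSpace G]

/-- Open subgroups contain open normal subgroups. -/
lemma exists_normal {U : Subgroup G} (hU : IsOpen (U : Set G)) :
    ∃ V : Subgroup G, V.Normal ∧ IsOpen (V : Set G) ∧ V ≤ U := by
  obtain ⟨N, hN⟩ := ProfiniteGrp.exist_openNormalSubgroup_sub_open_nhds_of_one hU (one_mem U)
  exact ⟨N.1.1, N.2, N.1.2, hN⟩

/-- Smooth functions are right invariant under an open normal subgroup contained in a given open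
subgroup. -/
lemma Smooth.exists_normal {M : Type v} {n : ℕ} {c : (Fin n → G) → M} (hc : Smooth c)
    {W : Subgroup G} (hW : IsOpen (W : Set G)) :
    ∃ V : Subgroup G, V.Normal ∧ IsOpen (V : Set G) ∧ V ≤ W ∧ RInv V c := by
  obtain ⟨U, hU, h⟩ := hc
  obtain ⟨V, hV1, hV2, hV3⟩ := GC.exists_normal (U := U ⊓ W) (hU.inter hW)
  exact ⟨V, hV1, hV2, hV3.trans inf_le_right, fun x u hu => h x u fun i => (hV3 (hu i)).1⟩

/-- A finite set of elements of a discrete module is fixed by an open normal subgroup. -/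
lemma Disc.exists_normal {M : Type v} [AddCommGroup M] [DistribMulAction G M] (hM : Disc G M)
    {S : Set M} (hS : S.Finite) {W : Subgroup G} (hW : IsOpen (W : Set G)) :
    ∃ V : Subgroup G, V.Normal ∧ IsOpen (V : Set G) ∧ V ≤ W ∧ ∀ m ∈ S, ∀ g ∈ V, g • m = m := by
  have h : ∃ U : Subgroup G, IsOpen (U : Set G) ∧ ∀ m ∈ S, ∀ g ∈ U, g • m = m := by
    induction S, hS using Set.Finite.induction_on with
    | empty => exact ⟨⊤, isOpen_univ, fun m hm => absurd hm (Set.notMem_empty m)⟩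
    | insert _ _ ih =>
      obtain ⟨U, hU, h⟩ := ih
      rename_i a s _ _
      obtain ⟨U', hU', h'⟩ := hM a
      refine ⟨U ⊓ U', hU.inter hU', fun m hm g hg => ?_⟩
      rcases hm with rfl | hm
      · exact h' g hg.2
      · exact h m hm g hg.1
  obtain ⟨U, hU, h⟩ := h
  obtain ⟨V, hV1, hV2, hV3⟩ := GC.exists_normal (U := U ⊓ W) (hU.inter hW)
  exact ⟨V, hV1, hV2, hV3.trans inf_le_right, fun m hm g hg => h m hm g (hV3 hg).1⟩

/-- A finite set of smooth functions is right invariant under an open normal subgroup. -/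
lemma IndM.exists_normal {M : Type v} {S : Set (IndM G M)} (hS : S.Finite) {W : Subgroup G}
    (hW : IsOpen (W : Set G)) :
    ∃ V : Subgroup G, V.Normal ∧ IsOpen (V : Set G) ∧ V ≤ W ∧
      ∀ f ∈ S, ∀ x, ∀ u ∈ V, f (x * u) = f x := by
  have h : ∃ U : Subgroup G, IsOpen (U : Set G) ∧ ∀ f ∈ S, ∀ x, ∀ u ∈ U, f (x * u) = f x := by
    induction S, hS using Set.Finite.induction_on with
    | empty => exact ⟨⊤, isOpen_univ, fun m hm => absurd hm (Set.notMem_empty m)⟩
    | insert _ _ ih =>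
      obtain ⟨U, hU, h⟩ := ih
      rename_i a s _ _
      obtain ⟨U', hU', h'⟩ := a.smooth
      refine ⟨U ⊓ U', hU.inter hU', fun m hm x g hg => ?_⟩
      rcases hm with rfl | hm
      · exact h' x g hg.2
      · exact h m hm x g hg.1
  obtain ⟨U, hU, h⟩ := h
  obtain ⟨V, hV1, hV2, hV3⟩ := GC.exists_normal (U := U ⊓ W) (hU.inter hW)
  exact ⟨V, hV1, hV2, hV3.trans inf_le_right, fun m hm x g hg => h m hm x g (hV3 hg).1⟩

end

end GC
end

section

/-!
# The trace from an open subgroup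
-/

namespace GC

universe u v w

variable {G : Type u} [Group G] [TopologicalSpace G] [IsTopologicalGroup G] [CompactSpace G]
  [TotallyDisconnectedSpace G] {M : Type v} [AddCommGroup M] [DistribMulAction G M]

omit [TopologicalSpace G] [IsTopologicalGroup G] [CompactSpace G] [TotallyDisconnectedSpace G] in
/-- The trace of a function which is equivariant for `S`: the sum of `g • β (g⁻¹ x)` over the cosets
`g S`. -/
noncomputable def tr (S : Subgroup G) {n : ℕ} (β : (Fin n → G) → M) : (Fin n → G) → M :=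
  fun x => ∑ᶠ q : G ⧸ S, q.out • β fun i => q.out⁻¹ * x i

variable {S : Subgroup G}

omit [TopologicalSpace G] [IsTopologicalGroup G] [CompactSpace G] [TotallyDisconnectedSpace G] in
/-- The terms of the trace depend only on the coset. -/
private lemma a18_term {n : ℕ} {β : (Fin (n + 1) → G) → M}
    (hβ : ∀ g ∈ S, ∀ x : Fin (n + 1) → G, β (fun i => g * x i) = g • β x) (x : Fin (n + 1) → G)
    {g h : G} (hgh : (g : G ⧸ S) = h) :
    (g • β fun i => g⁻¹ * x i) = h • β fun i => h⁻¹ * x i := by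
  have h1 : h⁻¹ * g ∈ S := by
    have := QuotientGroup.eq.1 hgh
    have h2 := S.inv_mem this
    rwa [mul_inv_rev, inv_inv] at h2
  have h2 : (fun i => h⁻¹ * x i) = fun i => (h⁻¹ * g) * (g⁻¹ * x i) := by
    funext i
    group
  rw [h2, hβ _ h1 (fun i => g⁻¹ * x i), smul_smul]
  congr 1
  group

/-- TASK A18 (first statement). The terms of the trace depend only on the coset.

PROOF. `(g s) • β ((g s)⁻¹ x) = g • s • β (s⁻¹ (g⁻¹ x)) = g • β (g⁻¹ x)` for `s ∈ S`. -/
theorem tr_eq (hS : IsOpen (S : Set G)) {N : Subgroup G} {n : ℕ} {β : (Fin (n + 1) → G) → M}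
    (hβ : β ∈ Coch M S N n) (r : G ⧸ S → G) (hr : ∀ q, (r q : G ⧸ S) = q)
    (x : Fin (n + 1) → G) :
    tr S β x = ∑ᶠ q : G ⧸ S, r q • β fun i => (r q)⁻¹ * x i := by
  unfold tr
  refine finsum_congr fun q => ?_
  exact a18_term hβ.1 x ((QuotientGroup.out_eq' q).trans (hr q).symm)

/-- TASK A18 (second statement). The trace is a cochain of `G`.

PROOF. `G ⧸ S` is finite (`finite_quotient`), so `∑ᶠ` is a finite sum (`finsum_eq_sum_of_fintype`).
Equivariance: `tr β (h x) = ∑ q.out • β (q.out⁻¹ h x) = h • ∑ (h⁻¹ q.out) • β ((h⁻¹ q.out)⁻¹ x)` and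
`q ↦ h⁻¹ q` permutes the cosets; the terms depend only on the coset (`tr_eq` with
`r (h⁻¹ q) = h⁻¹ q.out`). Right invariance under `N` and under the open subgroup of `β`: clear, as
`q.out⁻¹ * (x i * u i) = (q.out⁻¹ * x i) * u i`. -/
theorem tr_mem (hS : IsOpen (S : Set G)) {N : Subgroup G} {n : ℕ} {β : (Fin (n + 1) → G) → M}
    (hβ : β ∈ Coch M S N n) : tr S β ∈ Coch M (⊤ : Subgroup G) N n := by
  have hfin := finite_quotient hS
  cases nonempty_fintype (G ⧸ S)
  refine ⟨fun h _ x => ?_, fun x u hu => ?_, ?_⟩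
  · unfold tr
    rw [finsum_eq_sum_of_fintype, finsum_eq_sum_of_fintype, Finset.smul_sum]
    refine (Fintype.sum_equiv (MulAction.toPerm h : Equiv.Perm (G ⧸ S)) _ _ fun q => ?_).symm
    rw [smul_smul]
    have h1 : (fun i => (q.out)⁻¹ * x i) = fun i => (h * q.out)⁻¹ * (h * x i) := by
      funext i
      group
    rw [h1]
    refine a18_term hβ.1 (fun i => h * x i) ?_
    rw [QuotientGroup.out_eq']
    change _ = h • q
    conv_rhs => rw [← QuotientGroup.out_eq' q]
    rfl
  · unfold tr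
    refine finsum_congr fun q => ?_
    have h1 := hβ.2.1 (fun i => (q.out)⁻¹ * x i) u hu
    rw [← h1]
    congr 2
    funext i
    rw [mul_assoc]
  · obtain ⟨U, hU, hU'⟩ := hβ.2.2
    refine ⟨U, hU, fun x u hu => ?_⟩
    unfold tr
    refine finsum_congr fun q => ?_
    have h1 := hU' (fun i => (q.out)⁻¹ * x i) u hu
    rw [← h1]
    congr 2
    funext i
    rw [mul_assoc]

/-- TASK A18 (third statement). The trace commutes with the differential and is additive.

PROOF. Finite sums; `smul` is additive. -/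
theorem d_tr (hS : IsOpen (S : Set G)) {n : ℕ} (β : (Fin n → G) → M) :
    d (tr S β) = tr S (d β) := by
  have hfin := finite_quotient hS
  cases nonempty_fintype (G ⧸ S)
  funext x
  simp only [d, tr, finsum_eq_sum_of_fintype]
  simp_rw [Finset.smul_sum]
  rw [Finset.sum_comm]
  refine Finset.sum_congr rfl fun q _ => Finset.sum_congr rfl fun j _ => ?_
  rw [smul_comm]

theorem tr_add (hS : IsOpen (S : Set G)) {n : ℕ} (β β' : (Fin n → G) → M) :
    tr S (β + β') = tr S β + tr S β' := by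
  have hfin := finite_quotient hS
  cases nonempty_fintype (G ⧸ S)
  funext x
  simp only [tr, finsum_eq_sum_of_fintype, Pi.add_apply, smul_add, Finset.sum_add_distrib]

theorem tr_sub (hS : IsOpen (S : Set G)) {n : ℕ} (β β' : (Fin n → G) → M) :
    tr S (β - β') = tr S β - tr S β' := by
  have hfin := finite_quotient hS
  cases nonempty_fintype (G ⧸ S)
  funext x
  simp only [tr, finsum_eq_sum_of_fintype, Pi.sub_apply, smul_sub, Finset.sum_sub_distrib]

/-- TASK A18 (fourth statement). The trace of a cochain of `G` is its multiple by the index.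

PROOF. Each term is `g • β (g⁻¹ x) = β x`; the number of terms is
`Nat.card (G ⧸ S) = S.index`. -/
theorem tr_self (hS : IsOpen (S : Set G)) {N : Subgroup G} {n : ℕ} {β : (Fin (n + 1) → G) → M}
    (hβ : β ∈ Coch M (⊤ : Subgroup G) N n) : tr S β = S.index • β := by
  have hfin := finite_quotient hS
  cases nonempty_fintype (G ⧸ S)
  funext x
  simp only [tr, finsum_eq_sum_of_fintype, Pi.smul_apply]
  have h1 : ∀ q : G ⧸ S, (q.out • β fun i => (q.out)⁻¹ * x i) = β x := by
    intro q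
    rw [hβ.1 _ (Subgroup.mem_top _) x, smul_smul, mul_inv_cancel, one_smul]
  rw [Finset.sum_congr rfl fun q _ => h1 q, Finset.sum_const, Finset.card_univ,
    Subgroup.index, Nat.card_eq_fintype_card]

/-- TASK A18 (fifth statement). Transitivity of the trace for an intermediate subgroup: if `β` is
equivariant for the larger subgroup `T`, then `tr S β = [T : S] • tr T β`.

PROOF. Group the cosets `g S` by the cosets `g T`; each contains `S.relIndex T` cosets, and on each
the term is the same (`tr_eq` for `T`). -/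
theorem tr_tr (hS : IsOpen (S : Set G)) {T : Subgroup G} (hST : S ≤ T) {N : Subgroup G} {n : ℕ}
    {β : (Fin (n + 1) → G) → M} (hβ : β ∈ Coch M T N n) :
    tr S β = S.relIndex T • tr T β := by
  have hfin := finite_quotient hS
  have hT : IsOpen (T : Set G) := Subgroup.isOpen_mono hST hS
  have hfinT := finite_quotient hT
  have e := Subgroup.quotientEquivProdOfLE hST
  have hfin2 : Finite (T ⧸ S.subgroupOf T) := by
    have : Finite ((G ⧸ T) × (T ⧸ S.subgroupOf T)) := Finite.of_equiv _ e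
    exact Finite.prod_right (G ⧸ T)
  cases nonempty_fintype (G ⧸ S)
  cases nonempty_fintype (G ⧸ T)
  cases nonempty_fintype (T ⧸ S.subgroupOf T)
  funext x
  simp only [tr, finsum_eq_sum_of_fintype, Pi.smul_apply]
  rw [Fintype.sum_equiv (Subgroup.quotientEquivProdOfLE hST)
    (fun q : G ⧸ S => q.out • β fun i => (q.out)⁻¹ * x i)
    (fun p : (G ⧸ T) × (T ⧸ S.subgroupOf T) => p.1.out • β fun i => (p.1.out)⁻¹ * x i) ?_]
  · rw [Fintype.sum_prod_type]
    simp only [Finset.sum_const, Finset.card_univ]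
    rw [Subgroup.relIndex, Subgroup.index, Nat.card_eq_fintype_card, Finset.smul_sum]
  · intro q
    refine a18_term hβ.1 x ?_
    rw [QuotientGroup.out_eq']
    conv_rhs => rw [← QuotientGroup.out_eq' q]
    rfl

end GC
end

section

/-!
# The prism operator
-/

namespace GC

universe u v w

/-- The prism operator attached to two maps `a, b : X → Y`:
`(P c) (x_0, …, x_n) = ∑ i, (-1) ^ i c (a x_0, …, a x_i, b x_i, …, b x_n)`. -/
def prism {X : Type u} {Y : Type v} {M : Type w} [AddCommGroup M] (a b : X → Y) {n : ℕ}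
    (c : (Fin (n + 2) → Y) → M) : (Fin (n + 1) → X) → M :=
  fun x => ∑ i : Fin (n + 1), (-1 : ℤ) ^ (i : ℕ) •
    c (fun k => if h : (k : ℕ) ≤ i then a (x ⟨k, by omega⟩) else b (x ⟨k - 1, by omega⟩))

/-- The arguments of the prism operator, for sequences. -/
def a3_A {X : Type u} {Y : Type v} (a b : X → Y) (x : ℕ → X) (i k : ℕ) : Y :=
  if k ≤ i then a (x k) else b (x (k - 1))

/-- The sequence without its term `j`. -/
def a3_face {Z : Type u} (j : ℕ) (y : ℕ → Z) (k : ℕ) : Z := y (if k < j then k else k + 1)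

lemma a3_A_pos {X : Type u} {Y : Type v} (a b : X → Y) (x : ℕ → X) {i k : ℕ} (h : k ≤ i) :
    a3_A a b x i k = a (x k) := if_pos h

lemma a3_A_neg {X : Type u} {Y : Type v} (a b : X → Y) (x : ℕ → X) {i k : ℕ} (h : ¬ k ≤ i) :
    a3_A a b x i k = b (x (k - 1)) := if_neg h

lemma a3_face_pos {Z : Type u} (y : ℕ → Z) {j k : ℕ} (h : k < j) : a3_face j y k = y k := by
  unfold a3_face
  rw [if_pos h]

lemma a3_face_neg {Z : Type u} (y : ℕ → Z) {j k : ℕ} (h : ¬ k < j) :
    a3_face j y k = y (k + 1) := by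
  unfold a3_face
  rw [if_neg h]

lemma a3_face_A {X : Type u} {Y : Type v} (a b : X → Y) (x : ℕ → X) (i j : ℕ) :
    a3_A a b (a3_face j x) i =
      if j ≤ i then a3_face j (a3_A a b x (i + 1)) else a3_face (j + 1) (a3_A a b x i) := by
  by_cases hji : j ≤ i
  · rw [if_pos hji]
    funext k
    by_cases hk : k < j
    · rw [a3_A_pos a b _ (by omega : k ≤ i), a3_face_pos _ hk, a3_face_pos _ hk,
        a3_A_pos a b _ (by omega : k ≤ i + 1)]
    · by_cases hki : k ≤ i
      · rw [a3_A_pos a b _ hki, a3_face_neg _ hk, a3_face_neg _ hk,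
          a3_A_pos a b _ (by omega : k + 1 ≤ i + 1)]
      · rw [a3_A_neg a b _ hki, a3_face_neg _ (by omega : ¬ (k - 1 < j)), a3_face_neg _ hk,
          a3_A_neg a b _ (by omega : ¬ (k + 1 ≤ i + 1))]
        congr 2
        omega
  · rw [if_neg hji]
    funext k
    by_cases hk : k < j + 1
    · by_cases hki : k ≤ i
      · rw [a3_A_pos a b _ hki, a3_face_pos _ hk, a3_A_pos a b _ hki,
          a3_face_pos _ (by omega : k < j)]
      · rw [a3_A_neg a b _ hki, a3_face_pos _ hk, a3_A_neg a b _ hki,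
          a3_face_pos _ (by omega : k - 1 < j)]
    · rw [a3_A_neg a b _ (by omega : ¬ (k ≤ i)), a3_face_neg _ hk,
        a3_face_neg _ (by omega : ¬ (k - 1 < j)), a3_A_neg a b _ (by omega : ¬ (k + 1 ≤ i))]
      congr 2
      omega

lemma a3_diag {X : Type u} {Y : Type v} (a b : X → Y) (x : ℕ → X) (i : ℕ) :
    a3_face i (a3_A a b x i) = fun k => if k < i then a (x k) else b (x k) := by
  funext k
  by_cases hk : k < i
  · rw [a3_face_pos _ hk, a3_A_pos a b _ hk.le, if_pos hk]
  · rw [a3_face_neg _ hk, a3_A_neg a b _ (by omega : ¬ (k + 1 ≤ i)), if_neg hk,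
      Nat.add_sub_cancel]

lemma a3_diag' {X : Type u} {Y : Type v} (a b : X → Y) (x : ℕ → X) (i : ℕ) :
    a3_face (i + 1) (a3_A a b x i) = fun k => if k < i + 1 then a (x k) else b (x k) := by
  funext k
  by_cases hk : k < i + 1
  · rw [a3_face_pos _ hk, a3_A_pos a b _ (by omega : k ≤ i), if_pos hk]
  · rw [a3_face_neg _ hk, a3_A_neg a b _ (by omega : ¬ (k + 1 ≤ i)), if_neg hk,
      Nat.add_sub_cancel]

lemma a3_sum {M : Type w} [AddCommGroup M] (F : ℕ → ℕ → M) (N : ℕ) :
    (∑ j ∈ Finset.range (N + 1), ∑ i ∈ Finset.range N,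
        (-1 : ℤ) ^ (i + j) • (if j ≤ i then F (i + 1) j else F i (j + 1))) +
      (∑ i ∈ Finset.range (N + 1), ∑ j ∈ Finset.range (N + 2), (-1 : ℤ) ^ (i + j) • F i j) =
    ∑ i ∈ Finset.range (N + 1), (F i i - F i (i + 1)) := by
  induction N with
  | zero =>
    simp [Finset.sum_range_succ, sub_eq_add_neg]
  | succ N ih =>
    rw [Finset.sum_range_succ _ (N + 1), Finset.sum_range_succ _ (N + 1),
      Finset.sum_range_succ _ (N + 1), ← ih]
    have e1 : ∀ j ∈ Finset.range (N + 1), (∑ i ∈ Finset.range (N + 1),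
        (-1 : ℤ) ^ (i + j) • (if j ≤ i then F (i + 1) j else F i (j + 1))) =
        (∑ i ∈ Finset.range N,
          (-1 : ℤ) ^ (i + j) • (if j ≤ i then F (i + 1) j else F i (j + 1))) +
        (-1 : ℤ) ^ (N + j) • F (N + 1) j := by
      intro j hj
      rw [Finset.sum_range_succ, if_pos (by rw [Finset.mem_range] at hj; omega)]
    rw [Finset.sum_congr rfl e1, Finset.sum_add_distrib]
    have e2 : ∀ i ∈ Finset.range (N + 1), (∑ j ∈ Finset.range (N + 1 + 2),
        (-1 : ℤ) ^ (i + j) • F i j) =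
        (∑ j ∈ Finset.range (N + 2), (-1 : ℤ) ^ (i + j) • F i j) +
        (-1 : ℤ) ^ (i + (N + 2)) • F i (N + 2) := by
      intro i _
      rw [show N + 1 + 2 = N + 2 + 1 by ring, Finset.sum_range_succ]
    rw [Finset.sum_congr rfl e2, Finset.sum_add_distrib]
    have e3 : ∀ i ∈ Finset.range (N + 1), (-1 : ℤ) ^ (i + (N + 1)) •
        (if N + 1 ≤ i then F (i + 1) (N + 1) else F i (N + 1 + 1)) =
        -((-1 : ℤ) ^ (i + (N + 2)) • F i (N + 2)) := by
      intro i hi
      rw [if_neg (by rw [Finset.mem_range] at hi; omega), ← neg_smul]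
      congr 1
      rw [show i + (N + 2) = i + (N + 1) + 1 by ring, pow_succ]
      ring
    rw [Finset.sum_congr rfl e3, Finset.sum_neg_distrib]
    have e4 : (∑ j ∈ Finset.range (N + 1 + 2), (-1 : ℤ) ^ (N + 1 + j) • F (N + 1) j) =
        -(∑ j ∈ Finset.range (N + 1), (-1 : ℤ) ^ (N + j) • F (N + 1) j) +
        F (N + 1) (N + 1) - F (N + 1) (N + 1 + 1) := by
      rw [show N + 1 + 2 = N + 1 + 1 + 1 by ring, Finset.sum_range_succ, Finset.sum_range_succ]
      have e5 : ∀ j ∈ Finset.range (N + 1), (-1 : ℤ) ^ (N + 1 + j) • F (N + 1) j =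
          -((-1 : ℤ) ^ (N + j) • F (N + 1) j) := by
        intro j _
        rw [← neg_smul]
        congr 1
        rw [show N + 1 + j = N + j + 1 by ring, pow_succ]
        ring
      rw [Finset.sum_congr rfl e5, Finset.sum_neg_distrib]
      have e6 : (-1 : ℤ) ^ (N + 1 + (N + 1)) = 1 := Even.neg_one_pow ⟨N + 1, rfl⟩
      have e7 : (-1 : ℤ) ^ (N + 1 + (N + 1 + 1)) = -1 := by
        rw [show N + 1 + (N + 1 + 1) = N + 1 + (N + 1) + 1 by ring, pow_succ, e6]
        ring
      rw [e6, e7, one_smul, neg_smul, one_smul]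
      abel
    rw [e4]
    abel

lemma a3_prism {X : Type u} {Y : Type v} {M : Type w} [AddCommGroup M] (a b : X → Y) {n : ℕ}
    (c : (Fin (n + 2) → Y) → M) (x : ℕ → X) :
    prism a b c (fun k : Fin (n + 1) => x k) =
      ∑ i ∈ Finset.range (n + 1), (-1 : ℤ) ^ i • c (fun k => a3_A a b x i k) := by
  rw [← Fin.sum_univ_eq_sum_range (fun i => (-1 : ℤ) ^ i • c (fun k => a3_A a b x i k))]
  unfold prism
  refine Finset.sum_congr rfl fun i _ => ?_
  refine congrArg (fun y => (-1 : ℤ) ^ (i : ℕ) • c y) (funext fun k => ?_)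
  by_cases h : (k : ℕ) ≤ i
  · rw [dif_pos h, a3_A_pos a b _ h]
  · rw [dif_neg h, a3_A_neg a b _ h]

lemma a3_d {Y : Type v} {M : Type w} [AddCommGroup M] {m : ℕ} (c : (Fin m → Y) → M) (y : ℕ → Y) :
    d c (fun k : Fin (m + 1) => y k) =
      ∑ j ∈ Finset.range (m + 1), (-1 : ℤ) ^ j • c (fun k => a3_face j y k) := by
  rw [← Fin.sum_univ_eq_sum_range (fun j => (-1 : ℤ) ^ j • c (fun k => a3_face j y k))]
  unfold d
  refine Finset.sum_congr rfl fun j _ => ?_
  refine congrArg (fun y => (-1 : ℤ) ^ (j : ℕ) • c y) (funext fun k => ?_)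
  by_cases h : (k : ℕ) < j
  · rw [a3_face_pos _ h, Fin.succAbove_of_castSucc_lt _ _ (by rw [Fin.lt_def]; exact h)]
    rfl
  · rw [a3_face_neg _ h, Fin.succAbove_of_le_castSucc _ _ (by rw [Fin.le_def]; exact not_lt.mp h)]
    rfl

/-- TASK A3. The prism operator is a homotopy between the pullbacks by `a` and `b`.

PROOF. The classical prism identity. Write `[x_0 … x_i | x_i … x_n]` for the argument
`(a x_0, …, a x_i, b x_i, …, b x_n)`. In
`P (d c) (x_0..x_{n+1}) = ∑ i ∑ j (-1)^(i+j) c (face j of [x_0..x_i|x_i..x_{n+1}])` the faces with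
`j < i` are `[x_0..x̂_j..x_i|x_i..]`, the faces with `j > i + 1` are `[x_0..x_i|x_i..x̂_{j-1}..]`, and
the faces with `j = i` and `j = i + 1` are `(a x_0..a x_{i-1}, b x_i..)` and
`(a x_0..a x_i, b x_{i+1}..)`, with signs `+` and `-`: these telescope to
`c (b x_0..b x_{n+1}) - c (a x_0 .. a x_{n+1})`. In
`d (P c) = ∑ j ∑ i (-1)^(i+j) c ([..] for the tuple without x_j)` the terms are the same as those
with `j < i` and `j > i + 1` above with the opposite sign. (Split the double sums by `j < i`,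
`j = i`, `j = i + 1`, `j > i + 1` and reindex; a formalization by `Finset.sum_bij` on pairs of
elements of `Fin`, or by first proving the statement with sums over `Finset.range` and functions
`ℕ → X`, which avoids dependent types: for `x : ℕ → X` put `A i x k = if k ≤ i then a (x k) else
b (x (k-1))`, and the `j`-th face of a sequence `y : ℕ → Y` is `k ↦ y (if k < j then k else k+1)`.)
-/
theorem prism_spec {X : Type u} {Y : Type v} {M : Type w} [AddCommGroup M] (a b : X → Y) {n : ℕ}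
    (c : (Fin (n + 2) → Y) → M) :
    d (prism a b c) + prism a b (d c) =
      fun x => c (fun i => b (x i)) - c (fun i => a (x i)) := by
  funext x
  obtain ⟨z, hz⟩ : ∃ z : ℕ → X, x = fun k : Fin (n + 2) => z k := by
    refine ⟨fun k => x ⟨min k (n + 1), by omega⟩, ?_⟩
    funext k
    congr 1
    apply Fin.ext
    show (k : ℕ) = min (k : ℕ) (n + 1)
    omega
  subst hz
  rw [Pi.add_apply, a3_d, a3_prism]
  have h1 : ∀ j ∈ Finset.range (n + 1 + 1), (-1 : ℤ) ^ j •
      prism a b c (fun k : Fin (n + 1) => a3_face j z k) =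
      ∑ i ∈ Finset.range (n + 1), (-1 : ℤ) ^ (i + j) •
        (if j ≤ i then c (fun k => a3_face j (a3_A a b z (i + 1)) k)
          else c (fun k => a3_face (j + 1) (a3_A a b z i) k)) := by
    intro j _
    rw [a3_prism, Finset.smul_sum]
    refine Finset.sum_congr rfl fun i _ => ?_
    rw [smul_smul, ← pow_add, add_comm j i, a3_face_A]
    congr 1
    by_cases h : j ≤ i
    · rw [if_pos h, if_pos h]
    · rw [if_neg h, if_neg h]
  have h2 : ∀ i ∈ Finset.range (n + 1 + 1), (-1 : ℤ) ^ i •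
      d c (fun k : Fin (n + 2 + 1) => a3_A a b z i k) =
      ∑ j ∈ Finset.range (n + 1 + 2), (-1 : ℤ) ^ (i + j) •
        c (fun k => a3_face j (a3_A a b z i) k) := by
    intro i _
    rw [a3_d, Finset.smul_sum]
    refine Finset.sum_congr rfl fun j _ => ?_
    rw [smul_smul, ← pow_add]
  rw [Finset.sum_congr rfl h1, Finset.sum_congr rfl h2]
  have h3 := a3_sum (fun i j => c (fun k => a3_face j (a3_A a b z i) k)) (n + 1)
  refine h3.trans ?_
  set g : ℕ → M := fun i => c (fun k : Fin (n + 2) => if (k : ℕ) < i then a (z k) else b (z k))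
    with hg
  have h4 : ∀ i ∈ Finset.range (n + 1 + 1), (c (fun k => a3_face i (a3_A a b z i) k) -
      c (fun k => a3_face (i + 1) (a3_A a b z i) k)) = -(g (i + 1) - g i) := by
    intro i _
    rw [a3_diag, a3_diag', neg_sub]
  have h5 : g (n + 1 + 1) = c (fun k => a (z k)) := by
    refine congrArg c (funext fun k => ?_)
    exact if_pos k.2
  have h6 : g 0 = c (fun k => b (z k)) := by
    refine congrArg c (funext fun k => ?_)
    exact if_neg (Nat.not_lt_zero _)
  rw [Finset.sum_congr rfl h4, Finset.sum_neg_distrib, Finset.sum_range_sub, neg_sub, h5, h6]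

end GC
end

section

/-!
# Homotopies between equivariant maps
-/

namespace GC

universe u v w

variable {G : Type u} [Group G] [TopologicalSpace G] [IsTopologicalGroup G] [CompactSpace G]
  [TotallyDisconnectedSpace G] {M : Type v} [AddCommGroup M] [DistribMulAction G M]

/-- The map `a : G → G` is equivariant for the subgroup `S`, compatible with the right cosets of
`N`, and continuous. -/
structure Adm (S N : Subgroup G) (a : G → G) : Prop where
  equi : ∀ s ∈ S, ∀ g, a (s * g) = s * a g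
  cosets : ∀ g, ∀ n ∈ N, (a g)⁻¹ * a (g * n) ∈ N
  cont : ∀ U : Subgroup G, IsOpen (U : Set G) → ∃ V : Subgroup G, IsOpen (V : Set G) ∧
    ∀ g, ∀ v ∈ V, (a g)⁻¹ * a (g * v) ∈ U

/-- TASK A17 (first statement). The identity is admissible. -/
theorem adm_id (S N : Subgroup G) : Adm S N (id : G → G) := by
  refine ⟨fun s _ g => rfl, fun g n hn => ?_, fun U hU => ⟨U, hU, fun g v hv => ?_⟩⟩
  · simpa using hn
  · simpa using hv

/-- TASK A17 (second statement). The pullback of a cochain by an admissible map.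

PROOF. Let `c` be right invariant under the open subgroup `U`, and let `V` be as in `cont`. For
`v i ∈ V`: `a (x i * v i) = a (x i) * u i` with `u i ∈ U`. The same for `N`. Equivariance for
`s ∈ S`. -/
theorem Adm.comp {S N : Subgroup G} {a : G → G} (ha : Adm S N a) {n : ℕ}
    {c : (Fin (n + 1) → G) → M} (hc : c ∈ Coch M S N n) :
    (fun x : Fin (n + 1) → G => c fun i => a (x i)) ∈ Coch M S N n := by
  obtain ⟨h1, h2, U, hU, hU'⟩ := hc
  obtain ⟨V, hV, hV'⟩ := ha.cont U hU
  refine ⟨fun g hg x => ?_, fun x u hu => ?_, V, hV, fun x u hu => ?_⟩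
  · have h : (fun i => a (g * x i)) = fun i => g * a (x i) := funext fun i => ha.equi g hg (x i)
    change c (fun i => a (g * x i)) = g • c fun i => a (x i)
    rw [h, h1 g hg]
  · have h := h2 (fun i => a (x i)) (fun i => (a (x i))⁻¹ * a (x i * u i))
      fun i => ha.cosets (x i) (u i) (hu i)
    simpa using h
  · have h := hU' (fun i => a (x i)) (fun i => (a (x i))⁻¹ * a (x i * u i))
      fun i => hV' (x i) (u i) (hu i)
    simpa using h

omit [TopologicalSpace G] [IsTopologicalGroup G] [CompactSpace G] [TotallyDisconnectedSpace G]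
  [DistribMulAction G M] in
/-- The prism operator keeps the right invariance. -/
theorem a17_prism_inv {K W : Subgroup G} {a b : G → G}
    (ha : ∀ g, ∀ v ∈ W, (a g)⁻¹ * a (g * v) ∈ K) (hb : ∀ g, ∀ v ∈ W, (b g)⁻¹ * b (g * v) ∈ K)
    {n : ℕ} {c : (Fin (n + 2) → G) → M}
    (hc : ∀ x u : Fin (n + 2) → G, (∀ i, u i ∈ K) → c (fun i => x i * u i) = c x)
    (x u : Fin (n + 1) → G) (hu : ∀ i, u i ∈ W) :
    prism a b c (fun i => x i * u i) = prism a b c x := by
  unfold prism
  refine Finset.sum_congr rfl fun i _ => ?_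
  congr 1
  have h := hc (fun k : Fin (n + 2) => if h : (k : ℕ) ≤ i then a (x ⟨k, by omega⟩)
      else b (x ⟨k - 1, by omega⟩))
    (fun k : Fin (n + 2) => if h : (k : ℕ) ≤ i then
      (a (x ⟨k, by omega⟩))⁻¹ * a (x ⟨k, by omega⟩ * u ⟨k, by omega⟩)
      else (b (x ⟨k - 1, by omega⟩))⁻¹ * b (x ⟨k - 1, by omega⟩ * u ⟨k - 1, by omega⟩))
    (fun k => by
      by_cases h : (k : ℕ) ≤ i
      · simp only [h, dif_pos]
        exact ha _ _ (hu _)
      · simp only [h, dif_neg, not_false_eq_true]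
        exact hb _ _ (hu _))
  rw [← h]
  congr 1
  funext k
  by_cases h : (k : ℕ) ≤ i
  · simp only [h, dif_pos]
    rw [mul_inv_cancel_left]
  · simp only [h, dif_neg, not_false_eq_true]
    rw [mul_inv_cancel_left]

/-- TASK A17 (third statement). The pullbacks of a cocycle by two admissible maps differ by a
coboundary.

PROOF. `prism a b c` (A3) is in `Coch M S N n`: each term
`c (a x_0, …, a x_i, b x_i, …, b x_n)` is equivariant under `S`, and right invariant under `N` and
under a small open subgroup `V` (intersection of those for `a` and `b`), since the `k`-th argument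
changes by a right factor in `N`, resp. `U`. By `prism_spec` (A3) and `d c = 0` (so
`prism a b (d c) = 0`): `d (prism a b c) = c ∘ b - c ∘ a`. -/
theorem homotopy {S N : Subgroup G} {a b : G → G} (ha : Adm S N a) (hb : Adm S N b) {n : ℕ}
    {c : (Fin (n + 2) → G) → M} (hc : c ∈ Coch M S N (n + 1)) (hd : d c = 0) :
    ∃ p ∈ Coch M S N n, d p =
      (fun x => c fun i => b (x i)) - fun x => c fun i => a (x i) := by
  obtain ⟨h1, h2, U, hU, hU'⟩ := hc
  obtain ⟨V, hV, hV'⟩ := ha.cont U hU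
  obtain ⟨V₂, hV₂, hV₂'⟩ := hb.cont U hU
  refine ⟨prism a b c, ⟨fun g hg x => ?_, fun x u hu => ?_, V ⊓ V₂, hV.inter hV₂,
    fun x u hu => ?_⟩, ?_⟩
  · unfold prism
    rw [Finset.smul_sum]
    refine Finset.sum_congr rfl fun i _ => ?_
    rw [smul_comm, ← h1 g hg]
    congr 2
    funext k
    by_cases h : (k : ℕ) ≤ i
    · simp only [h, dif_pos]
      exact ha.equi g hg _
    · simp only [h, dif_neg, not_false_eq_true]
      exact hb.equi g hg _
  · exact a17_prism_inv (K := N) (W := N) ha.cosets hb.cosets h2 x u hu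
  · exact a17_prism_inv (K := U) (W := V ⊓ V₂) (fun g v hv => hV' g v hv.1)
      (fun g v hv => hV₂' g v hv.2) hU' x u hu
  · have h := prism_spec a b c
    rw [hd] at h
    have h0 : prism a b (0 : (Fin (n + 2 + 1) → G) → M) = 0 := by
      funext x
      simp [prism]
    rw [h0, add_zero] at h
    rw [h]
    rfl

omit [TopologicalSpace G] [IsTopologicalGroup G] [CompactSpace G] [TotallyDisconnectedSpace G]
  [DistribMulAction G M] in
/-- TASK A17 (fourth statement). Cocycles of degree `0` are constant.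

PROOF. `d c (y, x) = c x - c y` for one variable. -/
theorem const_of_d_eq_zero {c : (Fin 1 → G) → M} (hd : d c = 0) (x y : Fin 1 → G) :
    c x = c y := by
  have h := congrFun hd ![y 0, x 0]
  have h1 : (fun i : Fin 1 => (![y 0, x 0] : Fin 2 → G) ((0 : Fin 2).succAbove i)) = x := by
    funext i
    have hi : i = 0 := Subsingleton.elim _ _
    subst hi
    rfl
  have h2 : (fun i : Fin 1 => (![y 0, x 0] : Fin 2 → G) ((1 : Fin 2).succAbove i)) = y := by
    funext i
    have hi : i = 0 := Subsingleton.elim _ _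
    subst hi
    rfl
  have e : d c ![y 0, x 0] = (-1 : ℤ) ^ ((0 : Fin 2) : ℕ) •
      c (fun i : Fin 1 => (![y 0, x 0] : Fin 2 → G) ((0 : Fin 2).succAbove i)) +
      (-1 : ℤ) ^ ((1 : Fin 2) : ℕ) •
      c (fun i : Fin 1 => (![y 0, x 0] : Fin 2 → G) ((1 : Fin 2).succAbove i)) :=
    Fin.sum_univ_two _
  rw [h1, h2] at e
  have e' : d c ![y 0, x 0] = c x - c y := by
    rw [e]
    simp [sub_eq_add_neg]
  rw [e'] at h
  exact sub_eq_zero.1 h

end GC
end

section

/-!
# Retractions onto open subgroups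
-/

namespace GC

universe u v w

variable {G : Type u} [Group G] [TopologicalSpace G] [IsTopologicalGroup G] [CompactSpace G]
  [TotallyDisconnectedSpace G] {M : Type v} [AddCommGroup M] [DistribMulAction G M]

/-- A retraction onto the subgroup `S`, compatible with the right cosets of `N`. -/
structure Retr (S N : Subgroup G) (r : G → S) : Prop where
  equi : ∀ (s : S) (g : G), r (s * g) = s * r g
  cosets : ∀ g, ∀ n ∈ N, ((r g : S) : G)⁻¹ * r (g * n) ∈ N
  cont : ∀ U : Subgroup G, IsOpen (U : Set G) → ∃ V : Subgroup G, IsOpen (V : Set G) ∧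
    ∀ g, ∀ v ∈ V, ((r g : S) : G)⁻¹ * r (g * v) ∈ U

/-- TASK A19 (first statement). Retractions exist.

PROOF. Choose representatives `t g` of the right cosets `S g` (depending only on the coset, e.g. via
`QuotientGroup.rightRel` or via `(g⁻¹ : G ⧸ S).out⁻¹`), `g = s * t g` with `s ∈ S`, and put
`r g = s = g * (t g)⁻¹`. Equivariance: clear. Let `V` be a normal subgroup of `G` contained in `S`.
For `v ∈ V`: `g * v = (g v g⁻¹) * g` with `g v g⁻¹ ∈ V ≤ S`, so `t (g v) = t g` and
`r (g v) = g v (t g)⁻¹ = r g * (t g * v * (t g)⁻¹)`, `t g * v * (t g)⁻¹ ∈ V`. For `cosets` take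
`V = N`; for `cont` take an open normal subgroup `V ≤ U ⊓ S` (`GC.exists_normal`). -/
theorem exists_retr {S N : Subgroup G} [N.Normal] (hS : IsOpen (S : Set G)) (hNS : N ≤ S) :
    ∃ r : G → S, Retr S N r := by
  have hmem : ∀ g : G, g * (((g⁻¹ : G) : G ⧸ S)).out ∈ S := by
    intro g
    obtain ⟨u, hu⟩ := QuotientGroup.mk_out_eq_mul S g⁻¹
    rw [hu, mul_inv_cancel_left]
    exact u.2
  have key : ∀ V : Subgroup G, V.Normal → V ≤ S → ∀ g, ∀ v ∈ V,
      (g * (((g⁻¹ : G) : G ⧸ S)).out)⁻¹ * ((g * v) * ((((g * v)⁻¹ : G) : G ⧸ S)).out) ∈ V := by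
    intro V hV hVS g v hv
    have h1 : (((g * v)⁻¹ : G) : G ⧸ S) = ((g⁻¹ : G) : G ⧸ S) := by
      rw [QuotientGroup.eq]
      have h2 : (g * v)⁻¹⁻¹ * g⁻¹ = g * v * g⁻¹ := by group
      rw [h2]
      exact hVS (hV.conj_mem v hv g)
    rw [h1]
    have h3 : (g * (((g⁻¹ : G) : G ⧸ S)).out)⁻¹ * ((g * v) * (((g⁻¹ : G) : G ⧸ S)).out) =
        (((g⁻¹ : G) : G ⧸ S)).out⁻¹ * v * (((g⁻¹ : G) : G ⧸ S)).out⁻¹⁻¹ := by group
    rw [h3]
    exact hV.conj_mem v hv _
  refine ⟨fun g => ⟨g * (((g⁻¹ : G) : G ⧸ S)).out, hmem g⟩, ?_, ?_, ?_⟩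
  · intro s g
    apply Subtype.ext
    change ((s : G) * g) * ((((s * g : G)⁻¹ : G) : G ⧸ S)).out =
      (s : G) * (g * (((g⁻¹ : G) : G ⧸ S)).out)
    have h1 : ((((s : G) * g)⁻¹ : G) : G ⧸ S) = ((g⁻¹ : G) : G ⧸ S) := by
      rw [QuotientGroup.eq]
      have h2 : ((s : G) * g)⁻¹⁻¹ * g⁻¹ = s := by group
      rw [h2]
      exact s.2
    rw [h1, mul_assoc]
  · intro g n hn
    exact key N inferInstance hNS g n hn
  · intro U hU
    obtain ⟨V, hV1, hV2, hV3⟩ := GC.exists_normal (U := U ⊓ S) (hU.inter hS)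
    exact ⟨V, hV2, fun g v hv => (hV3 (key V hV1 (hV3.trans inf_le_right) g v hv)).1⟩

/-- TASK A19 (second statement). A retraction is an admissible map. -/
theorem Retr.adm {S N : Subgroup G} {r : G → S} (hr : Retr S N r) :
    Adm S N (fun g => (r g : G)) := by
  refine ⟨fun s hs g => ?_, hr.cosets, hr.cont⟩
  have := hr.equi ⟨s, hs⟩ g
  change ((r (s * g) : S) : G) = s * (r g : G)
  rw [this]
  rfl

/-- TASK A19 (third statement). The pullback of a cochain of `S` by a retraction.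

PROOF. As in `Adm.comp`: an open subgroup of `S` is open in `G` (`S` is open): it is
`U.map S.subtype`. -/
theorem Retr.comp {S N : Subgroup G} (hS : IsOpen (S : Set G)) {r : G → S} (hr : Retr S N r)
    {n : ℕ} {c : (Fin (n + 1) → S) → M}
    (hc : c ∈ Coch M (⊤ : Subgroup S) (N.subgroupOf S) n) :
    (fun x : Fin (n + 1) → G => c fun i => r (x i)) ∈ Coch M S N n := by
  obtain ⟨h1, h2, U, hU, hU'⟩ := hc
  refine ⟨fun s hs x => ?_, fun x u hu => ?_, ?_⟩
  · have h3 := h1 ⟨s, hs⟩ (Subgroup.mem_top _) (fun i => r (x i))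
    have h4 : (fun i => r (s * x i)) = fun i => (⟨s, hs⟩ : S) * r (x i) := by
      funext i
      exact hr.equi ⟨s, hs⟩ (x i)
    change c (fun i => r (s * x i)) = s • c fun i => r (x i)
    rw [h4, h3]
    rfl
  · have h4 : (fun i => r (x i * u i)) =
        fun i => r (x i) * ((r (x i))⁻¹ * r (x i * u i)) := by
      funext i
      group
    change c (fun i => r (x i * u i)) = c fun i => r (x i)
    rw [h4]
    refine h2 (fun i => r (x i)) _ fun i => ?_
    rw [Subgroup.mem_subgroupOf]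
    exact hr.cosets (x i) (u i) (hu i)
  · obtain ⟨V, hV, hV'⟩ := hr.cont (U.map S.subtype) (by
      have h5 : ((U.map S.subtype : Subgroup G) : Set G) = Subtype.val '' (U : Set S) := by
        ext y
        simp
      rw [h5]
      exact hS.isOpenMap_subtype_val _ hU)
    refine ⟨V, hV, fun x u hu => ?_⟩
    have h4 : (fun i => r (x i * u i)) =
        fun i => r (x i) * ((r (x i))⁻¹ * r (x i * u i)) := by
      funext i
      group
    change c (fun i => r (x i * u i)) = c fun i => r (x i)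
    rw [h4]
    refine hU' (fun i => r (x i)) _ fun i => ?_
    obtain ⟨y, hy, hy'⟩ := hV' (x i) (u i) (hu i)
    have h6 : ((r (x i))⁻¹ * r (x i * u i)) = y := by
      apply Subtype.ext
      exact hy'.symm
    rw [h6]
    exact hy

/-- TASK A19 (fourth statement). The restriction of a cochain which is equivariant for `S` to `S`. -/
theorem coch_restrict {S N : Subgroup G} {n : ℕ} {c : (Fin (n + 1) → G) → M}
    (hc : c ∈ Coch M S N n) :
    (fun x : Fin (n + 1) → S => c fun i => (x i : G)) ∈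
      Coch M (⊤ : Subgroup S) (N.subgroupOf S) n := by
  obtain ⟨h1, h2, U, hU, hU'⟩ := hc
  refine ⟨fun s _ x => ?_, fun x u hu => ?_, U.subgroupOf S, ?_, fun x u hu => ?_⟩
  · exact h1 s s.2 (fun i => (x i : G))
  · exact h2 (fun i => (x i : G)) (fun i => (u i : G)) fun i => Subgroup.mem_subgroupOf.1 (hu i)
  · exact hU.preimage continuous_subtype_val
  · exact hU' (fun i => (x i : G)) (fun i => (u i : G)) fun i => Subgroup.mem_subgroupOf.1 (hu i)

end GC
end

section

/-!
# Restriction and corestriction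
-/

namespace GC

universe u v w

variable {G : Type u} [Group G] [TopologicalSpace G] [IsTopologicalGroup G] [CompactSpace G]
  [TotallyDisconnectedSpace G] {M : Type v} [AddCommGroup M] [DistribMulAction G M]

/-- TASK A20 (first statement). The kernel of the restriction to an open subgroup is killed by the
index.

PROOF. `n = 0`: `Cobd S M 0 = ⊥`, so `c` vanishes on `S`, and it is constant
(`const_of_d_eq_zero`), so `c = 0`.
`n = m + 1`: let `c|_S = d b`, `b ∈ Coch M (⊤ : Subgroup S) ⊥ m`. Let `r : G → S` be a retraction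
(`exists_retr` with `N = ⊥`; `⊥.subgroupOf S = ⊥`). The maps `r` and `id` are admissible for `S`, and
`c ∈ Coch M S ⊥ (m + 1)` (`coch_mono`), so by `homotopy` (A17) there is `p ∈ Coch M S ⊥ m` with
`d p = c - c ∘ r`. And `c ∘ r = (c|_S) ∘ r = d (b ∘ r)` with `b ∘ r ∈ Coch M S ⊥ m` (`Retr.comp`;
`d_comp`). So `c = d β` with `β = p + b ∘ r ∈ Coch M S ⊥ m`, and
`S.index • c = tr S c = tr S (d β) = d (tr S β)` (`tr_self`, `d_tr`), `tr S β ∈ Coch M ⊤ ⊥ m`
(`tr_mem`). -/
theorem cor_res {S : Subgroup G} (hS : IsOpen (S : Set G)) {n : ℕ}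
    {c : (Fin (n + 1) → G) → M} (hc : c ∈ Cocyc G M n)
    (h : (fun x : Fin (n + 1) → S => c fun i => (x i : G)) ∈ Cobd S M n) :
    S.index • c ∈ Cobd G M n := by
  cases n with
  | zero =>
    have hd : d c = 0 := hc.2
    have h0 : (fun x : Fin 1 → S => c fun i => (x i : G)) = 0 := h
    have hz : c = 0 := by
      funext x
      have h1 := congrFun h0 (fun _ => (1 : S))
      rw [const_of_d_eq_zero hd x (fun _ => ((1 : S) : G))]
      exact h1
    rw [hz, smul_zero]
    exact zero_mem _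
  | succ m =>
    obtain ⟨b, hb, hdb⟩ := h
    have hcd : d c = 0 := hc.2
    have hcS : c ∈ Coch M S ⊥ (m + 1) := coch_mono le_top le_rfl (m + 1) hc.1
    obtain ⟨r, hr⟩ := exists_retr (N := (⊥ : Subgroup G)) hS bot_le
    obtain ⟨p, hp, hdp⟩ := homotopy hr.adm (adm_id S ⊥) hcS hcd
    have hb' : b ∈ Coch M (⊤ : Subgroup S) ((⊥ : Subgroup G).subgroupOf S) m := by
      rw [Subgroup.bot_subgroupOf]
      exact hb
    have hbr := hr.comp hS hb'
    have hdb' : d b = fun x : Fin (m + 2) → S => c fun i => (x i : G) := hdb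
    have hdbr : d (fun x : Fin (m + 1) → G => b fun i => r (x i)) =
        fun x : Fin (m + 2) → G => c fun i => ((r (x i) : S) : G) := by
      rw [d_comp r b, hdb']
    have hβ : p + (fun x : Fin (m + 1) → G => b fun i => r (x i)) ∈ Coch M S ⊥ m :=
      add_mem hp hbr
    have hdβ : d (p + (fun x : Fin (m + 1) → G => b fun i => r (x i))) = c := by
      rw [d_add, hdp, hdbr]
      simp
    refine ⟨tr S (p + (fun x : Fin (m + 1) → G => b fun i => r (x i))), tr_mem hS hβ, ?_⟩
    rw [dHom_apply, d_tr hS, hdβ, tr_self hS hc.1]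

/-- TASK A20 (second statement). If the index of the open subgroup `S` is prime to `l`, and all
elements of `M` are killed by powers of `l`, then the restriction to `S` is injective.

PROOF. By `cor_res`, `S.index • c ∈ Cobd`. The values of `c` are finitely many, so `l ^ k • c = 0` for
some `k`. `Nat.Coprime (l ^ k) S.index`, so `1 = u * l ^ k + v * S.index` (Bezout in `ℤ`), and
`c = v • S.index • c ∈ Cobd`. -/
theorem cobd_of_coprime {S : Subgroup G} (hS : IsOpen (S : Set G)) {l : ℕ}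
    (hl : Nat.Coprime l S.index) (hM : ∀ m : M, ∃ k : ℕ, l ^ k • m = 0) {n : ℕ}
    {c : (Fin (n + 1) → G) → M} (hc : c ∈ Cocyc G M n)
    (h : (fun x : Fin (n + 1) → S => c fun i => (x i : G)) ∈ Cobd S M n) :
    c ∈ Cobd G M n := by
  have h1 := cor_res hS hc h
  obtain ⟨-, -, hsm⟩ := hc.1
  have hfin := hsm.finite_range
  have hk : ∃ k : ℕ, ∀ m ∈ Set.range c, l ^ k • m = 0 := by
    generalize Set.range c = T at hfin
    induction T, hfin using Set.Finite.induction_on with
    | empty => exact ⟨0, fun m hm => absurd hm (Set.notMem_empty m)⟩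
    | insert _ _ ih =>
      obtain ⟨k, hk⟩ := ih
      rename_i a s _ _
      obtain ⟨k', hk'⟩ := hM a
      refine ⟨k + k', fun m hm => ?_⟩
      rcases hm with rfl | hm
      · rw [pow_add, mul_smul, hk', smul_zero]
      · rw [add_comm, pow_add, mul_smul, hk m hm, smul_zero]
  obtain ⟨k, hk⟩ := hk
  have hlk : l ^ k • c = 0 := by
    funext x
    exact hk (c x) ⟨x, rfl⟩
  have hcop : IsCoprime ((l ^ k : ℕ) : ℤ) (S.index : ℤ) :=
    Nat.isCoprime_iff_coprime.mpr (Nat.Coprime.pow_left k hl)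
  obtain ⟨u, v, huv⟩ := hcop
  have hc' : c = v • (S.index • c) := by
    have h2 : ((l ^ k : ℕ) : ℤ) • c = 0 := by
      rw [natCast_zsmul]
      exact hlk
    have h3 : (S.index : ℤ) • c = S.index • c := natCast_zsmul c S.index
    calc c = (1 : ℤ) • c := (one_smul ℤ c).symm
      _ = (u * ((l ^ k : ℕ) : ℤ) + v * (S.index : ℤ)) • c := by rw [huv]
      _ = u • (((l ^ k : ℕ) : ℤ) • c) + v • ((S.index : ℤ) • c) := by
        rw [add_smul, mul_smul, mul_smul]
      _ = v • (S.index • c) := by rw [h2, h3, smul_zero, zero_add]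
  rw [hc']
  exact zsmul_mem h1 v

end GC
end

section

/-!
# The corestriction and its restriction
-/

namespace GC

universe u v w

variable {G : Type u} [Group G] [TopologicalSpace G] [IsTopologicalGroup G] [CompactSpace G]
  [TotallyDisconnectedSpace G] {M : Type v} [AddCommGroup M] [DistribMulAction G M]

/-- The comparison of the two terms attached to a coset. -/
theorem a22_term {S : Subgroup G} [S.Normal] (hS : IsOpen (S : Set G)) {m : ℕ}
    {c : (Fin (m + 2) → S) → M} (hc : c ∈ Coch M (⊤ : Subgroup S) ⊥ (m + 1)) (hcd : d c = 0)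
    {ρ : G → S} (hρ : Retr S ⊥ ρ) (g : G) :
    (fun x : Fin (m + 2) → S => g • c fun i => ρ (g⁻¹ * x i)) -
      (fun x : Fin (m + 2) → S => g • c fun i => conjN g (x i)) ∈ Cobd S M (m + 1) := by
  have hSc : CompactSpace S := isCompact_iff_compactSpace.1
    (Subgroup.isClosed_of_isOpen S hS).isCompact
  have hA : Adm (⊤ : Subgroup S) ⊥ (fun x : S => ρ ((x : G) * g⁻¹)) := by
    refine ⟨fun s _ x => ?_, fun x n hn => ?_, fun U hU => ?_⟩
    · change ρ (((s * x : S) : G) * g⁻¹) = s * ρ ((x : G) * g⁻¹)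
      rw [Subgroup.coe_mul, mul_assoc]
      exact hρ.equi s _
    · rw [Subgroup.mem_bot] at hn
      rw [hn, mul_one, inv_mul_cancel]
      exact one_mem _
    · have hU' : IsOpen ((U.map S.subtype : Subgroup G) : Set G) := by
        rw [Subgroup.coe_map]
        exact hS.isOpenMap_subtype_val _ hU
      obtain ⟨V₀, hV₀, hV₀'⟩ := hρ.cont _ hU'
      obtain ⟨V, hVn, hV, hVV⟩ := GC.exists_normal hV₀
      refine ⟨V.subgroupOf S, hV.preimage continuous_subtype_val, fun x v hv => ?_⟩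
      have h1 := hV₀' ((x : G) * g⁻¹) (g * v * g⁻¹) (hVV (hVn.conj_mem _ hv g))
      have h2 : (x : G) * g⁻¹ * (g * v * g⁻¹) = ((x * v : S) : G) * g⁻¹ := by
        rw [Subgroup.coe_mul]
        group
      rw [h2] at h1
      obtain ⟨u, hu, hu'⟩ := h1
      have h3 : (ρ ((x : G) * g⁻¹))⁻¹ * ρ (((x * v : S) : G) * g⁻¹) = u := by
        apply Subtype.ext
        rw [Subgroup.coe_mul, Subgroup.coe_inv]
        exact hu'.symm
      change (ρ ((x : G) * g⁻¹))⁻¹ * ρ (((x * v : S) : G) * g⁻¹) ∈ U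
      rw [h3]
      exact hu
  obtain ⟨p, hp, hdp⟩ := homotopy (adm_id (⊤ : Subgroup S) ⊥) hA hc hcd
  refine ⟨fun x : Fin (m + 1) → S => g • p fun i => conjN g (x i), ?_, ?_⟩
  · obtain ⟨e1, e2, U, hU, e3⟩ := hp
    refine ⟨fun s _ x => ?_, fun x u hu => ?_,
      U.comap (MonoidHom.mk' (conjN g) (conjN_mul g)), ?_, fun x u hu => ?_⟩
    · change g • p (fun i => conjN g (s * x i)) = s • g • p (fun i => conjN g (x i))
      have h1 := e1 (conjN g s) trivial fun i => conjN g (x i)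
      have h2 : (fun i => conjN g (s * x i)) = fun i => conjN g s * conjN g (x i) :=
        funext fun i => conjN_mul g _ _
      rw [h2, h1, Subgroup.smul_def, Subgroup.smul_def, ← mul_smul, ← mul_smul, coe_conjN]
      congr 1
      group
    · have h2 : (fun i => x i * u i) = x := by
        funext i
        have h3 := hu i
        rw [Subgroup.mem_bot] at h3
        rw [h3, mul_one]
      rw [h2]
    · refine hU.preimage ?_
      exact Continuous.subtype_mk (by fun_prop) _
    · change g • p (fun i => conjN g (x i * u i)) = g • p (fun i => conjN g (x i))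
      have h2 : (fun i => conjN g (x i * u i)) = fun i => conjN g (x i) * conjN g (u i) :=
        funext fun i => conjN_mul g _ _
      rw [h2, e3 _ (fun i => conjN g (u i)) fun i => hu i]
  · have h1 := d_map (DistribSMul.toAddMonoidHom M g)
      (fun x : Fin (m + 1) → S => p fun i => conjN g (x i))
    have h2 := d_comp (conjN g) p
    rw [dHom_apply]
    change d (fun x : Fin (m + 1) → S => (DistribSMul.toAddMonoidHom M g)
      (p fun i => conjN g (x i))) = _
    rw [h1, h2, hdp]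
    funext x
    change g • ((c fun i => ρ ((conjN g (x i) : G) * g⁻¹)) - c fun i => conjN g (x i)) =
      (g • c fun i => ρ (g⁻¹ * x i)) - g • c fun i => conjN g (x i)
    rw [smul_sub]
    have h3 : ∀ i, (conjN g (x i) : G) * g⁻¹ = g⁻¹ * x i := by
      intro i
      rw [coe_conjN]
      group
    simp only [h3]

/-- TASK A22. The corestriction of a cocycle `c` of the open normal subgroup `S`, and its restriction
to `S`: the sum of the conjugates of `c`.

PROOF. Let `ρ : G → S` be a retraction (`exists_retr`, `N = ⊥`). `c ∘ ρ ∈ Coch M S ⊥ n` (`Retr.comp`)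
is a cocycle, and `C = tr S (c ∘ ρ)`. By `tr_eq`, for `x ∈ S`:
`C x = ∑ᶠ q, r q • c (fun i => ρ ((r q)⁻¹ * x i))`. For `n = 0`, `c ∘ ρ` is constant
(`const_of_d_eq_zero`), and the two sides are equal. Let `n = m + 1`. For a fixed coset `q` put
`g = r q`, `a x = ρ (g⁻¹ * x)` and `b x = g⁻¹ * x * g = conjN g x`, maps `S → S`. Put
`ψ x = g * x * g⁻¹` (an automorphism of `S`, `S` normal). The maps `a ∘ ψ` and `b ∘ ψ = id` of `S`
are admissible (`Adm` for the group `S`, with the full group and `N = ⊥`):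
`a (ψ (s x)) = ρ (g⁻¹ * g * s * x * g⁻¹) = ρ (s * (x * g⁻¹)) = s * a (ψ x)`; continuity: for `v` in a
small normal open subgroup `V`, `x * v * g⁻¹ = x * g⁻¹ * (g * v * g⁻¹)` and `Retr.cont`. By `homotopy`
for the group `S` there is `p ∈ Coch M (⊤ : Subgroup S) ⊥ m` with `d p = c ∘ (a ∘ ψ) - c`. Put
`p' x = g • p (ψ⁻¹ x) = g • p (g⁻¹ x g)`; it is in `Coch M (⊤ : Subgroup S) ⊥ m`
(`p' (s x) = g • p ((g⁻¹ s g) (g⁻¹ x g)) = g • (g⁻¹ s g) • p (..) = s • p' x`; smooth) and
`d p' x = g • c (a x) - g • c (b x)`. The sum over the finitely many cosets `q` gives the claim. -/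
theorem cor_exists {S : Subgroup G} [S.Normal] (hS : IsOpen (S : Set G)) {n : ℕ}
    {c : (Fin (n + 1) → S) → M} (hc : c ∈ Cocyc S M n) :
    ∃ C ∈ Cocyc G M n, ∀ (r : G ⧸ S → G), (∀ q, (r q : G ⧸ S) = q) →
      (fun x : Fin (n + 1) → S => C fun i => (x i : G)) -
        (fun x : Fin (n + 1) → S => ∑ᶠ q : G ⧸ S, r q • c fun i => conjN (r q) (x i)) ∈
          Cobd S M n := by
  classical
  obtain ⟨hcc, hcd⟩ := hc
  have hcd' : d c = 0 := hcd
  have hSf : Finite (G ⧸ S) := finite_quotient hS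
  have hSft : Fintype (G ⧸ S) := Fintype.ofFinite _
  obtain ⟨ρ, hρ⟩ := exists_retr (G := G) (N := ⊥) hS bot_le
  have hcc' : c ∈ Coch M (⊤ : Subgroup S) ((⊥ : Subgroup G).subgroupOf S) n := by
    refine coch_mono le_rfl ?_ _ hcc
    intro x hx
    rw [Subgroup.mem_subgroupOf, Subgroup.mem_bot] at hx
    rw [Subgroup.mem_bot]
    exact Subtype.ext hx
  have hβ := Retr.comp hS hρ hcc'
  have hdβ : d (fun x : Fin (n + 1) → G => c fun i => ρ (x i)) = 0 := by
    rw [d_comp ρ c, hcd']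
    rfl
  refine ⟨tr S (fun x : Fin (n + 1) → G => c fun i => ρ (x i)), ⟨tr_mem hS hβ, ?_⟩,
    fun r hr => ?_⟩
  · change d (tr S (fun x : Fin (n + 1) → G => c fun i => ρ (x i))) = 0
    rw [d_tr hS, hdβ]
    funext x
    simp [tr]
  · have h1 : (fun x : Fin (n + 1) → S =>
        tr S (fun x : Fin (n + 1) → G => c fun i => ρ (x i)) fun i => (x i : G)) -
        (fun x : Fin (n + 1) → S => ∑ᶠ q : G ⧸ S, r q • c fun i => conjN (r q) (x i)) =
        ∑ q : G ⧸ S, ((fun x : Fin (n + 1) → S => r q • c fun i => ρ ((r q)⁻¹ * x i)) -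
          fun x : Fin (n + 1) → S => r q • c fun i => conjN (r q) (x i)) := by
      funext x
      rw [Pi.sub_apply, tr_eq hS hβ r hr, finsum_eq_sum_of_fintype, finsum_eq_sum_of_fintype,
        Finset.sum_apply, ← Finset.sum_sub_distrib]
      rfl
    rw [h1]
    refine sum_mem fun q _ => ?_
    cases n with
    | zero =>
      have h2 : ((fun x : Fin (0 + 1) → S => r q • c fun i => ρ ((r q)⁻¹ * x i)) -
          fun x : Fin (0 + 1) → S => r q • c fun i => conjN (r q) (x i)) = 0 := by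
        funext x
        rw [Pi.sub_apply, Pi.zero_apply, sub_eq_zero]
        congr 1
        exact const_of_d_eq_zero hcd' _ _
      rw [h2]
      exact zero_mem _
    | succ m => exact a22_term hS hcc hcd' hρ (r q)

end GC
end

section

/-!
# Induced modules are acyclic
-/

namespace GC

universe u v w

variable {G : Type u} [Group G] [TopologicalSpace G] [IsTopologicalGroup G] [CompactSpace G]
  [TotallyDisconnectedSpace G] {M : Type v} [AddCommGroup M] [DistribMulAction G M]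

/-- TASK A5. The induced module is acyclic for the group `G / N`.

PROOF. Put `(s c) (x_0, …, x_n) = (y ↦ c (y, x_0, …, x_n) y)` (use `Fin.cons y x`). It is an element
of `IndM G M`: `c` is smooth, with open subgroup `U`, and its values form a finite set
(`Smooth.finite_range`), hence by `IndM.exists_normal` there is an open subgroup `V ≤ U` such that
all values of `c` are right invariant under `V`; for `u ∈ V`:
`c (y u, x) (y u) = c (y, x) (y u) = c (y, x) y`.
Equivariance: `(s c) (g x) y = c (y, g x) y = c (g (g⁻¹ y), g x) y = (g • c (g⁻¹ y, x)) y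
= g • (c (g⁻¹ y, x) (g⁻¹ y)) = g • ((s c) x (g⁻¹ y)) = (g • (s c) x) y`.
Right invariance under `N` and smoothness in `x` are clear (change the variables `x` only).
Since `d c (y, x_0, …, x_{n+1}) = 0 = c (x_0, …, x_{n+1}) - ∑ j, (-1) ^ j c (y, …, x̂_j, …)`
(`Fin.sum_univ_succ`; `Fin.cons y x ∘ succAbove (succ j) = Fin.cons y (x ∘ succAbove j)`), evaluation
at `y` gives `c x y = d (s c) x y`. -/
theorem ind_acyclic {N : Subgroup G} {n : ℕ} {c : (Fin (n + 2) → G) → IndM G M}
    (hc : c ∈ Coch (IndM G M) (⊤ : Subgroup G) N (n + 1)) (hd : d c = 0) :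
    ∃ b ∈ Coch (IndM G M) (⊤ : Subgroup G) N n, d b = c := by
  obtain ⟨h1, h2, h3⟩ := hc
  obtain ⟨U, hU, hU'⟩ := id h3
  obtain ⟨V, -, hV, hVU, hVc⟩ := IndM.exists_normal (Smooth.finite_range h3) hU
  have a5_mul : ∀ (y v : G) (x u : Fin (n + 1) → G),
      (Fin.cons (y * v) (fun i => x i * u i) : Fin (n + 2) → G) =
        fun i => (Fin.cons y x : Fin (n + 2) → G) i * (Fin.cons v u : Fin (n + 2) → G) i := by
    intro y v x u
    funext i
    refine Fin.cases ?_ (fun j => ?_) i <;> simp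
  have a5_mem : ∀ (W : Subgroup G) (v : G) (u : Fin (n + 1) → G), v ∈ W → (∀ i, u i ∈ W) →
      ∀ i, (Fin.cons v u : Fin (n + 2) → G) i ∈ W := by
    intro W v u hv hu i
    refine Fin.cases ?_ (fun j => ?_) i
    · simpa using hv
    · simpa using hu j
  let b : (Fin (n + 1) → G) → IndM G M := fun x =>
    ⟨fun y => c (Fin.cons y x) y, V, hV, fun y v hv => by
      have e : (Fin.cons (y * v) x : Fin (n + 2) → G) =
          fun i => (Fin.cons y x : Fin (n + 2) → G) i *
            (Fin.cons v (fun _ => 1) : Fin (n + 2) → G) i := by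
        have := a5_mul y v x (fun _ => 1)
        simpa using this
      rw [e, hU' _ _ (a5_mem U v _ (hVU hv) (fun _ => U.one_mem))]
      exact hVc _ ⟨_, rfl⟩ y v hv⟩
  have hb : ∀ x y, b x y = c (Fin.cons y x) y := fun _ _ => rfl
  have hinv : ∀ (W : Subgroup G), (∀ x u : Fin (n + 2) → G, (∀ i, u i ∈ W) →
      c (fun i => x i * u i) = c x) → ∀ x u : Fin (n + 1) → G, (∀ i, u i ∈ W) →
      b (fun i => x i * u i) = b x := by
    intro W hW x u hu
    apply IndM.ext'
    intro y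
    rw [hb, hb]
    have e := a5_mul y 1 x u
    rw [mul_one] at e
    rw [e, hW _ _ (a5_mem W 1 u W.one_mem hu)]
  refine ⟨b, ⟨?_, hinv N h2, U, hU, hinv U hU'⟩, ?_⟩
  · intro g _ x
    apply IndM.ext'
    intro y
    rw [IndM.smul_apply, hb, hb]
    have e : (Fin.cons y (fun i => g * x i) : Fin (n + 2) → G) =
        fun i => g * (Fin.cons (g⁻¹ * y) x : Fin (n + 2) → G) i := by
      funext i
      refine Fin.cases ?_ (fun j => ?_) i <;> simp
    rw [e, h1 g (Subgroup.mem_top g), IndM.smul_apply]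
  · funext x
    apply IndM.ext'
    intro y
    have e0 : d c (Fin.cons y x : Fin (n + 3) → G) = 0 := by rw [hd]; rfl
    have e1 : d c (Fin.cons y x : Fin (n + 3) → G) =
        c x - ∑ j : Fin (n + 2), (-1 : ℤ) ^ (j : ℕ) •
          c (Fin.cons y (fun i => x (j.succAbove i))) := by
      rw [d, Fin.sum_univ_succ, sub_eq_add_neg, ← Finset.sum_neg_distrib]
      congr 1
      · simp
      · refine Finset.sum_congr rfl fun j _ => ?_
        have e2 : (fun i : Fin (n + 2) => (Fin.cons y x : Fin (n + 3) → G) (j.succ.succAbove i)) =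
            Fin.cons y (fun i => x (j.succAbove i)) := by
          funext i
          refine Fin.cases ?_ (fun k => ?_) i
          · simp
          · simp [Fin.succ_succAbove_succ]
        rw [e2, Fin.val_succ, pow_succ, mul_neg_one, neg_smul]
    have e3 : c x = ∑ j : Fin (n + 2), (-1 : ℤ) ^ (j : ℕ) •
          c (Fin.cons y (fun i => x (j.succAbove i))) := by
      rw [← sub_eq_zero, ← e1, e0]
    have e4 : (d b x) y = ∑ j : Fin (n + 2), (-1 : ℤ) ^ (j : ℕ) •
          (c (Fin.cons y (fun i => x (j.succAbove i))) y) := by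
      rw [← IndM.ev_apply, d, map_sum]
      refine Finset.sum_congr rfl fun j _ => ?_
      rw [map_zsmul, IndM.ev_apply, hb]
    rw [e4, e3]
    conv_rhs => rw [← IndM.ev_apply, map_sum]
    refine Finset.sum_congr rfl fun j _ => ?_
    rw [map_zsmul, IndM.ev_apply]

end GC
end
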