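import Mathlib
import Pool.Agent.Lib.MP_859dd5_ag.Mg.G059
import Pool.Agent.Lib.MP_859dd5_ag.Mg.G027

section

/-!
# Pseudo-limits of Hahn series
-/

namespace GC

universe u

/-- TASK D1. The field of Hahn series is spherically complete.

PROOF. Put `b.coeff r = s.1.coeff r` if there is an `s ∈ S` with `r < s.2` (independent of `s` by
`hS`), and `0` otherwise. The support of `b` is well-founded (partially well-ordered): let `T` be a
nonempty subset of the support (`Set.isPWO_iff_isWF`/`Set.isWF_iff_...`, or `Set.IsWF` by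
minimal elements: `Set.isWF_iff_no_descending_seq`); let `r ∈ T` and `s ∈ S` with `r < s.2`; then
`T ∩ {x | x ≤ r}` is a nonempty subset of the support of `s.1`, so it has a least element, which is the
least element of `T`. -/
theorem exists_pseudoLimit {k : Type u} [Field k] (S : Set (HahnSeries ℚ k × ℚ))
    (hS : ∀ s ∈ S, ∀ t ∈ S, ∀ r : ℚ, r < s.2 → r < t.2 → s.1.coeff r = t.1.coeff r) :
    ∃ b : HahnSeries ℚ k, ∀ s ∈ S, ∀ r : ℚ, r < s.2 → b.coeff r = s.1.coeff r := by
  classical
  let c : ℚ → k := fun r =>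
    if h : ∃ s : HahnSeries ℚ k × ℚ, s ∈ S ∧ r < s.2 then h.choose.1.coeff r else 0
  have hc : ∀ s ∈ S, ∀ r : ℚ, r < s.2 → c r = s.1.coeff r := by
    intro s hs r hr
    have h : ∃ s : HahnSeries ℚ k × ℚ, s ∈ S ∧ r < s.2 := ⟨s, hs, hr⟩
    have h1 : c r = h.choose.1.coeff r := dif_pos h
    rw [h1]
    exact hS _ h.choose_spec.1 _ hs r h.choose_spec.2 hr
  have hs : ∀ r : ℚ, c r ≠ 0 → ∃ s ∈ S, r < s.2 := by
    intro r hr
    by_contra hcon
    apply hr
    have h : ¬ ∃ s : HahnSeries ℚ k × ℚ, s ∈ S ∧ r < s.2 := hcon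
    exact dif_neg h
  have hpwo : (Function.support c).IsPWO := by
    intro f
    obtain ⟨s, hsS, hs0⟩ := hs (f 0).1 (f 0).2
    by_cases h : ∃ n, 0 < n ∧ (f 0).1 ≤ (f n).1
    · obtain ⟨n, hn, hfn⟩ := h
      exact ⟨0, n, hn, hfn⟩
    · have h2 : ∀ n, (f n).1 < s.2 := by
        intro n
        rcases Nat.eq_zero_or_pos n with h0 | h0
        · rw [h0]
          exact hs0
        · have h3 : ¬ (f 0).1 ≤ (f n).1 := fun h4 => h ⟨n, h0, h4⟩
          exact (not_le.mp h3).trans hs0
      have h7 : ∀ n, (f n).1 ∈ s.1.support := by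
        intro n
        have h5 := hc s hsS (f n).1 (h2 n)
        have h6 : c (f n).1 ≠ 0 := (f n).2
        rw [h5] at h6
        exact h6
      exact s.1.isPWO_support (fun n => ⟨(f n).1, h7 n⟩)
  exact ⟨⟨c, hpwo⟩, hc⟩

end GC
end

section

/-!
# The field of Hahn series is algebraically closed
-/

namespace GC

universe u

variable {k : Type u} [Field k]

/-- The power `t ^ q` of the variable. -/
noncomputable def tq (k : Type u) [Field k] (q : ℚ) : HahnSeries ℚ k := HahnSeries.single q 1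

lemma tq_ne_zero (q : ℚ) : tq k q ≠ 0 := HahnSeries.single_ne_zero one_ne_zero

lemma tq_add (q r : ℚ) : tq k (q + r) = tq k q * tq k r := by
  simp [tq, HahnSeries.single_mul_single]

/-- The Hahn series `x` has order at least `q`. -/
def OrdGE (q : ℚ) (x : HahnSeries ℚ k) : Prop := ∀ r : ℚ, r < q → x.coeff r = 0

lemma tq_zero : tq k 0 = 1 := rfl

lemma ordGE_iff (q : ℚ) (x : HahnSeries ℚ k) : OrdGE q x ↔ (q : WithTop ℚ) ≤ x.orderTop := by
  constructor
  · intro h
    by_contra h'
    push Not at h'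
    obtain ⟨r, hr⟩ := WithTop.ne_top_iff_exists.mp (ne_top_of_lt h')
    have h1 : x.coeff r ≠ 0 := HahnSeries.coeff_orderTop_ne hr.symm
    rw [← hr] at h'
    exact h1 (h r (WithTop.coe_lt_coe.mp h'))
  · intro h r hr
    exact HahnSeries.coeff_eq_zero_of_lt_orderTop (lt_of_lt_of_le (WithTop.coe_lt_coe.mpr hr) h)

lemma ordGE_mul_tq (q r : ℚ) (x : HahnSeries ℚ k) : OrdGE (q + r) (x * tq k r) ↔ OrdGE q x := by
  constructor
  · intro h s hs
    have := h (s + r) (by linarith)
    rwa [tq, HahnSeries.coeff_mul_single_add, mul_one] at this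
  · intro h s hs
    have := h (s - r) (by linarith)
    have h2 : s = (s - r) + r := by ring
    rw [h2, tq, HahnSeries.coeff_mul_single_add, mul_one]
    exact this

/-- TASK D2 (first statement). The field of Hahn series is the ring of an explicit valuation, with an
extension to an algebraic closure.

PROOF. The set `A = {x | OrdGE 0 x}` is a subring of `H = HahnSeries ℚ k` (it is
`{x | 0 ≤ x.orderTop}`, and `HahnSeries.order_mul`/`HahnSeries.orderTop_mul`...; or look for
`HahnSeries.addVal`), and a valuation ring: if `x ≠ 0` has order `q`, then `x = t^q * u` with a unit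
`u` of `A` (the inverse of `u` has order `0`, `HahnSeries.order_inv`, or since `order` is additive). By
`LocalSubring.exists_le_valuationSubring` (applied to the image of `A` in `Ω`, local) there is a
valuation ring `O` of `Ω` which dominates it. Then `x ∈ H` is in `O` exactly if it is in `A` (if
`x ∉ A` then `x⁻¹` is in the maximal ideal of `A`), and for `x ∈ H`:
`O.valuation x ≤ O.valuation (t^q)` exactly if `x / t^q ∈ O`, i.e. `OrdGE 0 (x * t^(-q))`, i.e.
`OrdGE q x` (coefficients of `x * t^(-q)`: `HahnSeries.coeff_mul_single_add` or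
`(x * t^(-q)).coeff r = x.coeff (r + q)`). -/
theorem exists_hahn_val (Ω : Type u) [Field Ω] [Algebra (HahnSeries ℚ k) Ω] :
    ∃ O : ValuationSubring Ω, ∀ (q : ℚ) (x : HahnSeries ℚ k),
      O.valuation (algebraMap _ Ω x) ≤ O.valuation (algebraMap _ Ω (tq k q)) ↔ OrdGE q x := by
  classical
  set V : ValuationSubring (HahnSeries ℚ k) := 
    { carrier := {x | OrdGE 0 x}
      mul_mem' := by
        intro a b ha hb
        rw [Set.mem_ofPred_eq, ordGE_iff] at ha hb ⊢
        refine le_trans ?_ HahnSeries.orderTop_add_le_mul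
        simpa using add_le_add ha hb
      one_mem' := by
        rw [Set.mem_ofPred_eq, ordGE_iff]
        simp
      add_mem' := by
        intro a b ha hb r hr
        rw [HahnSeries.coeff_add, ha r hr, hb r hr, add_zero]
      zero_mem' := by
        intro r hr
        simp
      neg_mem' := by
        intro a ha r hr
        rw [HahnSeries.coeff_neg, ha r hr, neg_zero]
      mem_or_inv_mem' := by
        intro x
        by_cases hx : x = 0
        · left
          subst hx
          intro r hr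
          simp
        · have hx' : x⁻¹ ≠ 0 := inv_ne_zero hx
          have h1 : (x * x⁻¹).order = x.order + x⁻¹.order := HahnSeries.order_mul hx hx'
          rw [mul_inv_cancel₀ hx, HahnSeries.order_one] at h1
          have h2 : ∀ y : HahnSeries ℚ k, y ≠ 0 → 0 ≤ y.order → OrdGE 0 y := by
            intro y hy h
            rw [ordGE_iff, ← HahnSeries.order_eq_orderTop_of_ne_zero hy]
            exact_mod_cast h
          rcases le_total 0 x.order with h | h
          · exact Or.inl (h2 x hx h)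
          · exact Or.inr (h2 _ hx' (by linarith)) } with hV
  have hmem : ∀ x : HahnSeries ℚ k, x ∈ V ↔ OrdGE 0 x := fun x => Iff.rfl
  obtain ⟨O, h, hloc⟩ := IsLocalRing.exists_factor_valuationRing
    ((algebraMap (HahnSeries ℚ k) Ω).comp V.subtype)
  have key : ∀ x : HahnSeries ℚ k, algebraMap _ Ω x ∈ O ↔ OrdGE 0 x := by
    intro x
    constructor
    · intro hx
      by_contra hn
      have hx0 : x ≠ 0 := by
        rintro rfl
        exact hn (V.zero_mem)
      have hinv : x⁻¹ ∈ V := (V.mem_or_inv_mem x).resolve_left hn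
      have hu : IsUnit (((algebraMap (HahnSeries ℚ k) Ω).comp V.subtype).codRestrict O.toSubring h
          ⟨x⁻¹, hinv⟩) := by
        refine isUnit_iff_exists_inv.mpr ⟨⟨algebraMap _ Ω x, hx⟩, ?_⟩
        apply Subtype.ext
        show algebraMap _ Ω x⁻¹ * algebraMap _ Ω x = 1
        rw [← map_mul, inv_mul_cancel₀ hx0, map_one]
      have hu' : IsUnit (⟨x⁻¹, hinv⟩ : V) := hloc.map_nonunit _ hu
      obtain ⟨⟨y, hy⟩, hxy⟩ := isUnit_iff_exists_inv.mp hu'
      have hxy' : x⁻¹ * y = 1 := congrArg Subtype.val hxy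
      have : y = x := by
        field_simp at hxy'
        exact hxy'
      exact hn (this ▸ hy)
    · intro hx
      exact h ⟨x, hx⟩
  refine ⟨O, fun q x => ?_⟩
  have hq : algebraMap (HahnSeries ℚ k) Ω (tq k q) ≠ 0 := by
    rw [ne_eq, FaithfulSMul.algebraMap_eq_zero_iff]
    exact tq_ne_zero q
  have h1 : O.valuation (algebraMap _ Ω x) ≤ O.valuation (algebraMap _ Ω (tq k q)) ↔
      O.valuation (algebraMap _ Ω (x * tq k (-q))) ≤ 1 := by
    have h2 : algebraMap (HahnSeries ℚ k) Ω (x * tq k (-q)) * algebraMap _ Ω (tq k q)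
        = algebraMap _ Ω x := by
      rw [← map_mul, mul_assoc, ← tq_add, neg_add_cancel, tq_zero, mul_one]
    rw [← h2, map_mul]
    have h3 : O.valuation (algebraMap (HahnSeries ℚ k) Ω (tq k q)) ≠ 0 :=
      (Valuation.ne_zero_iff _).mpr hq
    constructor
    · intro h
      refine le_of_mul_le_mul_right ?_ (zero_lt_iff.mpr h3)
      rw [one_mul]
      exact h
    · intro h
      exact mul_le_of_le_one_left (zero_le) h
  rw [h1, ValuationSubring.valuation_le_one_iff, key]
  have := ordGE_mul_tq (k := k) q (-q) x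
  rw [add_neg_cancel] at this
  exact this


/-- The value of a nonzero series is the value of a power of `t`. -/
lemma val_eq_order {Ω : Type u} [Field Ω] [Algebra (HahnSeries ℚ k) Ω] {O : ValuationSubring Ω}
    (hO : ∀ (q : ℚ) (x : HahnSeries ℚ k),
      O.valuation (algebraMap _ Ω x) ≤ O.valuation (algebraMap _ Ω (tq k q)) ↔ OrdGE q x)
    {x : HahnSeries ℚ k} (hx : x ≠ 0) :
    O.valuation (algebraMap _ Ω x) = O.valuation (algebraMap _ Ω (tq k x.order)) := by
  have hx' : x⁻¹ ≠ 0 := inv_ne_zero hx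
  have h0 : (x * x⁻¹).order = x.order + x⁻¹.order := HahnSeries.order_mul hx hx'
  rw [mul_inv_cancel₀ hx, HahnSeries.order_one] at h0
  have h2 : ∀ y : HahnSeries ℚ k, y ≠ 0 → OrdGE y.order y := by
    intro y hy
    rw [ordGE_iff, ← HahnSeries.order_eq_orderTop_of_ne_zero hy]
  refine le_antisymm ((hO _ _).mpr (h2 x hx)) ?_
  have h3 := (hO _ _).mpr (h2 _ hx')
  have h4 : x⁻¹.order = - x.order := by linarith
  rw [h4] at h3
  have h5 : tq k (-x.order) * tq k x.order = 1 := by
    rw [← tq_add, neg_add_cancel, tq_zero]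
  have hq : algebraMap (HahnSeries ℚ k) Ω (tq k x.order) ≠ 0 := by
    rw [ne_eq, FaithfulSMul.algebraMap_eq_zero_iff]
    exact tq_ne_zero _
  have hxx : algebraMap (HahnSeries ℚ k) Ω x ≠ 0 := by
    rw [ne_eq, FaithfulSMul.algebraMap_eq_zero_iff]
    exact hx
  have hvq := zero_lt_iff.mpr ((Valuation.ne_zero_iff O.valuation).mpr hq)
  have hvx := zero_lt_iff.mpr ((Valuation.ne_zero_iff O.valuation).mpr hxx)
  have h6 : tq k (-x.order) = (tq k x.order)⁻¹ := eq_inv_of_mul_eq_one_left h5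
  rw [h6, map_inv₀, map_inv₀, map_inv₀, map_inv₀] at h3
  exact (inv_le_inv₀ hvx hvq).mp h3

/-- TASK D2 (second statement). All values of an algebraic extension are values of powers of `t`.

PROOF. `y` satisfies `∑ i ≤ n, a_i y^i = 0`, `a_i ∈ H` not all zero. Two different nonzero terms have
the same (maximal) valuation: `v (a_i y^i) = v (a_j y^j)`, `i < j`, `a_i, a_j ≠ 0`, so
`v (y^(j-i)) = v (a_i / a_j) = v (t^r)`, where `r` is the order of `a_i / a_j` (for a nonzero Hahn
series `x` of order `r`: `OrdGE r x` and `OrdGE (-r) x⁻¹`, so `v x = v (t^r)`). With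
`q = r / (j - i)`: `(v y)^(j-i) = (v (t^q))^(j-i)`, so `v y = v (t^q)` (linearly ordered group with
zero). -/
theorem exists_val_eq {Ω : Type u} [Field Ω] [Algebra (HahnSeries ℚ k) Ω]
    [Algebra.IsAlgebraic (HahnSeries ℚ k) Ω] {O : ValuationSubring Ω}
    (hO : ∀ (q : ℚ) (x : HahnSeries ℚ k),
      O.valuation (algebraMap _ Ω x) ≤ O.valuation (algebraMap _ Ω (tq k q)) ↔ OrdGE q x)
    {y : Ω} (hy : y ≠ 0) : ∃ q : ℚ, O.valuation y = O.valuation (algebraMap _ Ω (tq k q)) := by
  classical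
  obtain ⟨P, hP0, hP⟩ := Algebra.IsAlgebraic.isAlgebraic (R := HahnSeries ℚ k) y
  set v := O.valuation with hv
  have hsum : ∑ i ∈ P.support, algebraMap _ Ω (P.coeff i) * y ^ i = 0 := by
    rw [Polynomial.aeval_def, Polynomial.eval₂_eq_sum, Polynomial.sum_def] at hP
    exact hP
  have hne : ∀ i ∈ P.support, algebraMap _ Ω (P.coeff i) * y ^ i ≠ 0 := by
    intro i hi
    refine mul_ne_zero ?_ (pow_ne_zero _ hy)
    rw [ne_eq, FaithfulSMul.algebraMap_eq_zero_iff]
    exact Polynomial.mem_support_iff.mp hi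
  -- two terms have the same valuation
  have hex : ∃ i ∈ P.support, ∃ j ∈ P.support, i < j ∧
      v (algebraMap _ Ω (P.coeff i) * y ^ i) = v (algebraMap _ Ω (P.coeff j) * y ^ j) := by
    by_contra hno
    push Not at hno
    have hinj : ∀ i ∈ P.support, ∀ j ∈ P.support, i ≠ j →
        v (algebraMap _ Ω (P.coeff i) * y ^ i) ≠ v (algebraMap _ Ω (P.coeff j) * y ^ j) := by
      intro i hi j hj hij
      rcases lt_or_gt_of_ne hij with h | h
      · exact hno i hi j hj h
      · exact (hno j hj i hi h).symm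
    obtain ⟨i0, hi0, hmax⟩ := Finset.exists_max_image P.support
      (fun i => v (algebraMap _ Ω (P.coeff i) * y ^ i)) (Polynomial.support_nonempty.mpr hP0)
    have h1 : algebraMap _ Ω (P.coeff i0) * y ^ i0
        = -(∑ i ∈ P.support.erase i0, algebraMap _ Ω (P.coeff i) * y ^ i) := by
      rw [← Finset.add_sum_erase _ _ hi0] at hsum
      exact eq_neg_of_add_eq_zero_left hsum
    have h2 : v (algebraMap _ Ω (P.coeff i0) * y ^ i0)
        < v (algebraMap _ Ω (P.coeff i0) * y ^ i0) := by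
      conv_lhs => rw [h1, Valuation.map_neg]
      refine Valuation.map_sum_lt _ ?_ ?_
      · exact (Valuation.ne_zero_iff _).mpr (hne i0 hi0)
      · intro i hi
        have hi' := Finset.mem_erase.mp hi
        exact lt_of_le_of_ne (hmax i hi'.2) (hinj i hi'.2 i0 hi0 hi'.1)
    exact lt_irrefl _ h2
  obtain ⟨i, hi, j, hj, hij, hval⟩ := hex
  have hi' := Polynomial.mem_support_iff.mp hi
  have hj' := Polynomial.mem_support_iff.mp hj
  have hd : (j - i) ≠ 0 := Nat.sub_ne_zero_of_lt hij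
  have ha : P.coeff i / P.coeff j ≠ 0 := div_ne_zero hi' hj'
  refine ⟨(P.coeff i / P.coeff j).order / (j - i : ℕ), ?_⟩
  have h3 := val_eq_order hO ha
  set r := (P.coeff i / P.coeff j).order with hr
  have hvy : v y ≠ 0 := (Valuation.ne_zero_iff _).mpr hy
  have hvi : v (algebraMap (HahnSeries ℚ k) Ω (P.coeff i)) ≠ 0 := by
    rw [Valuation.ne_zero_iff, ne_eq, FaithfulSMul.algebraMap_eq_zero_iff]
    exact hi'
  have hvj : v (algebraMap (HahnSeries ℚ k) Ω (P.coeff j)) ≠ 0 := by
    rw [Valuation.ne_zero_iff, ne_eq, FaithfulSMul.algebraMap_eq_zero_iff]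
    exact hj'
  have h4 : (v y) ^ (j - i) = v (algebraMap _ Ω (P.coeff i / P.coeff j)) := by
    rw [map_div₀, map_div₀]
    rw [map_mul, map_mul, map_pow, map_pow] at hval
    have h5 : (v y) ^ j = (v y) ^ (j - i) * (v y) ^ i := by
      rw [← pow_add, Nat.sub_add_cancel hij.le]
    rw [h5] at hval
    rw [eq_div_iff hvj]
    have h6 : (v y) ^ i ≠ 0 := pow_ne_zero _ hvy
    apply mul_right_cancel₀ h6
    rw [hval, mul_comm ((v y) ^ (j - i)), mul_assoc]
  have h7 : ∀ n : ℕ, ∀ q : ℚ, tq k q ^ n = tq k (n * q) := by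
    intro n q
    induction n with
    | zero => simp [tq_zero]
    | succ n ih =>
      rw [pow_succ, ih, ← tq_add]
      congr 1
      push_cast
      ring
  have h8 : (v (algebraMap _ Ω (tq k (r / (j - i : ℕ))))) ^ (j - i)
      = v (algebraMap _ Ω (tq k r)) := by
    rw [← map_pow, ← map_pow, h7]
    congr 3
    field_simp
  rw [← h3, ← h4] at h8
  exact ((pow_left_inj₀ (zero_le) (zero_le) hd).mp h8).symm

lemma val_lt_one {Ω : Type u} [Field Ω] [Algebra (HahnSeries ℚ k) Ω] {O : ValuationSubring Ω}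
    (hO : ∀ (q : ℚ) (x : HahnSeries ℚ k),
      O.valuation (algebraMap _ Ω x) ≤ O.valuation (algebraMap _ Ω (tq k q)) ↔ OrdGE q x)
    {d : HahnSeries ℚ k} (h0 : OrdGE 0 d) (h1 : d.coeff 0 = 0) :
    O.valuation (algebraMap _ Ω d) < 1 := by
  by_cases hd : d = 0
  · subst hd
    rw [map_zero, map_zero]
    exact zero_lt_one
  · rw [val_eq_order hO hd]
    have hpos : 0 < d.order := by
      have h2 : (0 : WithTop ℚ) ≤ d.orderTop := (ordGE_iff _ _).mp h0
      rw [← HahnSeries.order_eq_orderTop_of_ne_zero hd] at h2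
      have h3 : (0 : ℚ) ≤ d.order := by exact_mod_cast h2
      refine lt_of_le_of_ne h3 fun h => ?_
      have h4 : d.coeff d.order ≠ 0 := by
        rw [← HahnSeries.leadingCoeff_eq]
        exact HahnSeries.leadingCoeff_ne_zero.mpr hd
      rw [← h] at h4
      exact h4 h1
    have h2 : ¬ (O.valuation (algebraMap _ Ω (1 : HahnSeries ℚ k)) ≤
        O.valuation (algebraMap _ Ω (tq k d.order))) := by
      rw [hO]
      intro h
      have := h 0 hpos
      simp at this
    rw [map_one, map_one] at h2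
    exact not_le.mp h2

/-- TASK D2 (third statement). The residue field of an algebraic extension is `k`, if `k` is
algebraically closed.

PROOF. `∑ i ≤ n, a_i y^i = 0`, `a_i ∈ H` not all zero; divide by the coefficient of largest valuation:
all `v (a_i) ≤ 1` and one `v (a_i) = 1`. Let `c_i = a_i.coeff 0`: `v (a_i - hC c_i) < 1` (the series
`a_i - hC c_i` has positive order `q`, so its value is at most `v (t^q) < 1`: `¬ OrdGE q 1`), and some
`c_i ≠ 0`. So the nonzero polynomial `P = ∑ c_i X^i ∈ k[X]` satisfies `v (P (y)) < 1`. It is not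
constant, since `v (hC c) = 1` for `c ≠ 0`; it is a product of a constant and of factors `X - r_i`
(`k` algebraically closed), so `v (y - r_i) < 1` for some `i`. (`v` is multiplicative and
`v (y - r_i) ≤ 1`.) -/
theorem exists_residue {Ω : Type u} [Field Ω] [IsAlgClosed k] [Algebra (HahnSeries ℚ k) Ω]
    [Algebra.IsAlgebraic (HahnSeries ℚ k) Ω] {O : ValuationSubring Ω}
    (hO : ∀ (q : ℚ) (x : HahnSeries ℚ k),
      O.valuation (algebraMap _ Ω x) ≤ O.valuation (algebraMap _ Ω (tq k q)) ↔ OrdGE q x)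
    {y : Ω} (hy : O.valuation y = 1) :
    ∃ c : k, O.valuation (y - algebraMap _ Ω (hC k c)) < 1 := by
  classical
  obtain ⟨P, hP0, hP⟩ := Algebra.IsAlgebraic.isAlgebraic (R := HahnSeries ℚ k) y
  set v := O.valuation with hv
  have hsum : ∑ i ∈ P.support, algebraMap _ Ω (P.coeff i) * y ^ i = 0 := by
    rw [Polynomial.aeval_def, Polynomial.eval₂_eq_sum, Polynomial.sum_def] at hP
    exact hP
  obtain ⟨i0, hi0, hmax⟩ := Finset.exists_max_image P.support
    (fun i => v (algebraMap _ Ω (P.coeff i))) (Polynomial.support_nonempty.mpr hP0)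
  set a := P.coeff i0 with ha
  have ha0 : a ≠ 0 := Polynomial.mem_support_iff.mp hi0
  have haΩ : algebraMap (HahnSeries ℚ k) Ω a ≠ 0 := by
    rw [ne_eq, FaithfulSMul.algebraMap_eq_zero_iff]
    exact ha0
  have hva : v (algebraMap (HahnSeries ℚ k) Ω a) ≠ 0 := (Valuation.ne_zero_iff _).mpr haΩ
  have hO0 : ∀ x : HahnSeries ℚ k, v (algebraMap _ Ω x) ≤ 1 ↔ OrdGE 0 x := by
    intro x
    have := hO 0 x
    rw [tq_zero, map_one, map_one] at this
    exact this
  have hb : ∀ i, OrdGE 0 (P.coeff i / a) := by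
    intro i
    rw [← hO0, map_div₀, map_div₀]
    rw [div_le_one₀ (zero_lt_iff.mpr hva)]
    by_cases hi : i ∈ P.support
    · exact hmax i hi
    · rw [Polynomial.notMem_support_iff.mp hi, map_zero, map_zero]
      exact (zero_le)
  have hsum2 : ∑ i ∈ P.support, algebraMap _ Ω (P.coeff i / a) * y ^ i = 0 := by
    have : ∑ i ∈ P.support, algebraMap _ Ω (P.coeff i / a) * y ^ i
        = (∑ i ∈ P.support, algebraMap _ Ω (P.coeff i) * y ^ i) / algebraMap _ Ω a := by
      rw [Finset.sum_div]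
      refine Finset.sum_congr rfl fun i _ => ?_
      rw [map_div₀]
      ring
    rw [this, hsum, zero_div]
  set φ : k →+* Ω := (algebraMap (HahnSeries ℚ k) Ω).comp (hC k) with hφ
  set Q : Polynomial k := ∑ i ∈ P.support, Polynomial.monomial i ((P.coeff i / a).coeff 0) with hQ
  have hQ0 : Q ≠ 0 := by
    intro h
    have h1 : Q.coeff i0 = 1 := by
      rw [hQ, Polynomial.finsetSum_coeff]
      rw [Finset.sum_eq_single i0]
      · rw [Polynomial.coeff_monomial, if_pos rfl, ← ha, div_self ha0]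
        simp
      · intro b _ hb
        rw [Polynomial.coeff_monomial, if_neg hb]
      · intro h
        exact absurd hi0 h
    rw [h] at h1
    simp at h1
  have hordC : ∀ c : k, OrdGE 0 (hC k c) := by
    intro c r hr
    rw [hC, HahnSeries.C_apply, HahnSeries.coeff_single_of_ne hr.ne]
  have hcoeffC : ∀ c : k, (hC k c).coeff 0 = c := by
    intro c
    rw [hC, HahnSeries.C_apply, HahnSeries.coeff_single_same]
  have hvQ : v (Polynomial.eval₂ φ y Q) < 1 := by
    have h1 : Polynomial.eval₂ φ y Q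
        = ∑ i ∈ P.support, algebraMap _ Ω (hC k ((P.coeff i / a).coeff 0) - P.coeff i / a) * y ^ i := by
      have h2 : ∑ i ∈ P.support, algebraMap _ Ω (hC k ((P.coeff i / a).coeff 0) - P.coeff i / a) * y ^ i
          = ∑ i ∈ P.support, (algebraMap _ Ω (hC k ((P.coeff i / a).coeff 0)) * y ^ i
            - algebraMap _ Ω (P.coeff i / a) * y ^ i) := by
        refine Finset.sum_congr rfl fun i _ => ?_
        rw [map_sub]
        ring
      rw [h2, Finset.sum_sub_distrib, hsum2, sub_zero, hQ, Polynomial.eval₂_finsetSum]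
      refine Finset.sum_congr rfl fun i _ => ?_
      rw [Polynomial.eval₂_monomial]
      rfl
    rw [h1]
    refine Valuation.map_sum_lt _ one_ne_zero ?_
    intro i _
    rw [map_mul, map_pow, hy, one_pow, mul_one]
    refine val_lt_one hO ?_ ?_
    · intro r hr
      rw [HahnSeries.coeff_sub, hordC _ r hr, hb i r hr, sub_zero]
    · rw [HahnSeries.coeff_sub, hcoeffC, sub_self]
  have hvφ : ∀ c : k, c ≠ 0 → 1 ≤ v (φ c) := by
    intro c hc
    have h1 : v (φ c⁻¹) ≤ 1 := (hO0 _).mpr (hordC _)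
    have h2 : v (φ c) ≠ 0 := by
      rw [Valuation.ne_zero_iff, ne_eq, map_eq_zero]
      exact hc
    rw [map_inv₀, map_inv₀] at h1
    exact (inv_le_one₀ (zero_lt_iff.mpr h2)).mp h1
  by_contra hno
  push Not at hno
  have hsplit := (IsAlgClosed.splits Q).eq_prod_roots
  have h3 : (1 : O.ValueGroup) ≤ v (Polynomial.eval₂ φ y Q) := by
    rw [hsplit, Polynomial.eval₂_mul, Polynomial.eval₂_C, Polynomial.eval₂_multiset_prod, map_mul,
      map_multiset_prod]
    refine one_le_mul (hvφ _ (Polynomial.leadingCoeff_ne_zero.mpr hQ0)) ?_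
    refine Multiset.one_le_prod_of_one_le ?_
    intro x hx
    simp only [Multiset.map_map, Multiset.mem_map, Function.comp_apply] at hx
    obtain ⟨r, _, rfl⟩ := hx
    rw [Polynomial.eval₂_sub, Polynomial.eval₂_X, Polynomial.eval₂_C]
    exact hno r
  exact absurd hvQ (not_lt.mpr h3)

/-- TASK D2 (fourth statement). The field of Hahn series with rational exponents over an
algebraically closed field is algebraically closed.

PROOF. Let `Ω = AlgebraicClosure H` with `O` as in `exists_hahn_val`, `v = O.valuation`. It is enough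
to show that each `y : Ω` is in (the image of) `H`. Suppose not. Let
`S = {(a, q) | v (y - a) = v (t^q)}`. For each `a : H` there is `q` with `(a, q) ∈ S`
(`exists_val_eq`). For `(a, q), (a', q') ∈ S`, with `m = min q q'`:
`v (a - a') ≤ max (v (y - a)) (v (y - a')) = v (t^m)`, so `OrdGE m (a - a')`: the hypothesis of
`exists_pseudoLimit` (D1). Let `b : H` be the pseudo-limit: `OrdGE q (b - a)` for all `(a, q) ∈ S`, so
`v (y - b) ≤ max (v (y - a)) (v (b - a)) ≤ v (t^q)`. (1)
Let `(b, r) ∈ S`. `z = (y - b) / t^r` has `v z = 1`, so by `exists_residue` there is `c` with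
`v (z - c) < 1`. Let `a = b + hC c * t^r`: `v (y - a) = v (t^r) v (z - c) < v (t^r) = v (y - b)`. Let
`(a, q) ∈ S`; by (1) `v (y - b) ≤ v (t^q) = v (y - a) < v (y - b)`, a contradiction. -/
instance isAlgClosed_hahn [IsAlgClosed k] : IsAlgClosed (HahnSeries ℚ k) := by
  classical
  set Ω := AlgebraicClosure (HahnSeries ℚ k) with hΩ
  obtain ⟨O, hO⟩ := exists_hahn_val (k := k) Ω
  set v := O.valuation with hv
  suffices hsurj : Function.Surjective (algebraMap (HahnSeries ℚ k) Ω) by
    exact IsAlgClosed.of_ringEquiv Ω (HahnSeries ℚ k) 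
      (RingEquiv.ofBijective (algebraMap (HahnSeries ℚ k) Ω)
        ⟨FaithfulSMul.algebraMap_injective _ _, hsurj⟩).symm
  intro y
  by_contra hy
  push Not at hy
  have hne : ∀ a : HahnSeries ℚ k, y - algebraMap _ Ω a ≠ 0 := by
    intro a h
    exact hy a (sub_eq_zero.mp h).symm
  set S : Set (HahnSeries ℚ k × ℚ) :=
    {s | v (y - algebraMap _ Ω s.1) = v (algebraMap _ Ω (tq k s.2))} with hS
  have hSmem : ∀ s : HahnSeries ℚ k × ℚ, s ∈ S ↔
      v (y - algebraMap _ Ω s.1) = v (algebraMap _ Ω (tq k s.2)) := fun s => Iff.rfl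
  have hex : ∀ a : HahnSeries ℚ k, ∃ q : ℚ, (a, q) ∈ S := fun a => exists_val_eq hO (hne a)
  have hmono : ∀ q r : ℚ, q ≤ r →
      v (algebraMap _ Ω (tq k r)) ≤ v (algebraMap _ Ω (tq k q)) := by
    intro q r hqr
    rw [hO]
    intro s hs
    rw [tq, HahnSeries.coeff_single_of_ne (by linarith : s < r).ne]
  obtain ⟨b, hb⟩ := exists_pseudoLimit S (by
    intro s hs t ht r hr1 hr2
    have h1 : v (algebraMap _ Ω (s.1 - t.1)) ≤ v (algebraMap _ Ω (tq k (min s.2 t.2))) := by
      have h2 : algebraMap (HahnSeries ℚ k) Ω (s.1 - t.1)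
          = (y - algebraMap _ Ω t.1) - (y - algebraMap _ Ω s.1) := by
        rw [map_sub]
        ring
      rw [h2]
      refine (Valuation.map_sub _ _ _).trans (max_le ?_ ?_)
      · rw [(hSmem t).mp ht]
        exact hmono _ _ (min_le_right _ _)
      · rw [(hSmem s).mp hs]
        exact hmono _ _ (min_le_left _ _)
    rw [hO] at h1
    have h3 := h1 r (lt_min hr1 hr2)
    rw [HahnSeries.coeff_sub] at h3
    exact sub_eq_zero.mp h3)
  have hb1 : ∀ s ∈ S, v (y - algebraMap _ Ω b) ≤ v (algebraMap _ Ω (tq k s.2)) := by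
    intro s hs
    have h1 : v (algebraMap _ Ω (b - s.1)) ≤ v (algebraMap _ Ω (tq k s.2)) := by
      rw [hO]
      intro r hr
      rw [HahnSeries.coeff_sub, hb s hs r hr, sub_self]
    have h2 : y - algebraMap _ Ω b = (y - algebraMap _ Ω s.1) - algebraMap _ Ω (b - s.1) := by
      rw [map_sub]
      ring
    rw [h2]
    refine (Valuation.map_sub _ _ _).trans (max_le ?_ h1)
    rw [(hSmem s).mp hs]
  obtain ⟨r, hr⟩ := hex b
  rw [hSmem] at hr
  have htr : algebraMap (HahnSeries ℚ k) Ω (tq k r) ≠ 0 := by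
    rw [ne_eq, FaithfulSMul.algebraMap_eq_zero_iff]
    exact tq_ne_zero r
  have hvtr : v (algebraMap (HahnSeries ℚ k) Ω (tq k r)) ≠ 0 := (Valuation.ne_zero_iff _).mpr htr
  have hz : v ((y - algebraMap _ Ω b) / algebraMap _ Ω (tq k r)) = 1 := by
    rw [map_div₀, hr]
    exact div_self hvtr
  obtain ⟨c, hc⟩ := exists_residue hO hz
  set a := b + hC k c * tq k r with ha
  have hya : y - algebraMap _ Ω a
      = ((y - algebraMap _ Ω b) / algebraMap _ Ω (tq k r) - algebraMap _ Ω (hC k c))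
        * algebraMap _ Ω (tq k r) := by
    rw [ha, map_add, map_mul, sub_mul, div_mul_cancel₀ _ htr]
    ring
  have hlt : v (y - algebraMap _ Ω a) < v (y - algebraMap _ Ω b) := by
    rw [hya, map_mul]
    have : v (y - algebraMap _ Ω b) = 1 * v (algebraMap _ Ω (tq k r)) := by
      rw [one_mul]
      exact hr
    rw [this]
    exact mul_lt_mul_of_pos_right hc (zero_lt_iff.mpr hvtr)
  obtain ⟨q, hq⟩ := hex a
  have h1 := hb1 _ hq
  rw [hSmem] at hq
  simp only at hq h1
  rw [← hq] at h1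
  exact absurd hlt (not_lt.mpr h1)

end GC
end

section

/-!
# Induced modules are acyclic for closed subgroups
-/

namespace GC

universe u v w

variable {G : Type u} [Group G] [TopologicalSpace G] [IsTopologicalGroup G] [CompactSpace G]
  [TotallyDisconnectedSpace G] {M : Type v} [AddCommGroup M] [DistribMulAction G M]

/-- TASK A6 (first statement). A retraction modulo a normal subgroup.

PROOF. Choose a set of representatives `t` of the double cosets `N \ G / V`: for each `g` the element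
`t g ∈ G` depends only on the double coset `N g V`, and `g = n * t g * v` with `n ∈ N`, `v ∈ V`
(`DoubleCoset`/`Quotient.out` for the setoid `∃ n ∈ N, ∃ v ∈ V, g' = n * g * v`). Put `r g = n` for
some such `n`. If `g = n * t * v` and `g = n' * t * v'`, then
`n⁻¹ * n' = t * (v * v'⁻¹) * t⁻¹ ∈ V` since `V` is normal. Hence `(r g)⁻¹ * r g' ∈ V` whenever
`g' = g * v'` with `v' ∈ V` (same double coset, `g' = r g * t * (v * v')`), and for `m ∈ N`:
`m * g = (m * r g) * t * v`, so `(m * r g)⁻¹ * r (m * g) ∈ V`. -/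
theorem exists_retraction_mod (N V : Subgroup G) [V.Normal] :
    ∃ r : G → N, (∀ (m : N) (g : G), ((m * r g : N) : G)⁻¹ * (r ((m : G) * g) : N) ∈ V) ∧
      ∀ g : G, ∀ v ∈ V, ((r g : N) : G)⁻¹ * (r (g * v) : N) ∈ V := by
  classical
  let s : Setoid G :=
    { r := fun g g' => ∃ n ∈ N, ∃ v ∈ V, g' = n * g * v
      iseqv := by
        refine ⟨fun g => ⟨1, one_mem _, 1, one_mem _, by simp⟩, ?_, ?_⟩
        · rintro g g' ⟨n, hn, v, hv, h⟩
          refine ⟨n⁻¹, inv_mem hn, v⁻¹, inv_mem hv, ?_⟩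
          rw [h]
          group
        · rintro g g' g'' ⟨n, hn, v, hv, h⟩ ⟨n', hn', v', hv', h'⟩
          refine ⟨n' * n, mul_mem hn' hn, v * v', mul_mem hv hv', ?_⟩
          rw [h', h]
          group }
  have ht : ∀ g : G, ∃ n ∈ N, ∃ v ∈ V, g = n * (Quotient.mk s g).out * v := by
    intro g
    exact Quotient.exact (s := s) (Quotient.out_eq (Quotient.mk s g))
  choose n hn v hv hg using ht
  have hout : ∀ g g' : G, (∃ a ∈ N, ∃ b ∈ V, g' = a * g * b) →
      (Quotient.mk s g').out = (Quotient.mk s g).out := by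
    intro g g' h
    have : Quotient.mk s g = Quotient.mk s g' := Quotient.sound (s := s) h
    rw [this]
  have key : ∀ (t a a' w w' : G), w ∈ V → w' ∈ V → a * t * w = a' * t * w' → a⁻¹ * a' ∈ V := by
    intro t a a' w w' hw hw' h
    have e1 : a⁻¹ * a' = t * (w * w'⁻¹) * t⁻¹ := by
      have h2 : a' = a * t * w * w'⁻¹ * t⁻¹ := by
        rw [h]
        group
      rw [h2]
      group
    rw [e1]
    exact Subgroup.Normal.conj_mem inferInstance _ (mul_mem hw (inv_mem hw')) t
  refine ⟨fun g => ⟨n g, hn g⟩, ?_, ?_⟩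
  · intro m g
    have h1 := hout g ((m : G) * g) ⟨m, m.2, 1, one_mem _, by simp⟩
    have h2 := hg ((m : G) * g)
    rw [h1] at h2
    have h3 := hg g
    refine key (Quotient.mk s g).out ((m : G) * n g) (n ((m : G) * g)) (v g)
      (v ((m : G) * g)) (hv _) (hv _) ?_
    calc (m : G) * n g * (Quotient.mk s g).out * v g
        = (m : G) * (n g * (Quotient.mk s g).out * v g) := by group
      _ = (m : G) * g := by rw [← h3]
      _ = _ := h2
  · intro g w hw
    have h1 := hout g (g * w) ⟨1, one_mem _, w, hw, by simp⟩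
    have h2 := hg (g * w)
    rw [h1] at h2
    have h3 := hg g
    refine key (Quotient.mk s g).out (n g) (n (g * w)) (v g * w) (v (g * w))
      (mul_mem (hv _) hw) (hv _) ?_
    calc n g * (Quotient.mk s g).out * (v g * w)
        = (n g * (Quotient.mk s g).out * v g) * w := by group
      _ = g * w := by rw [← h3]
      _ = _ := h2

/-- TASK A6. The induced module is acyclic for closed subgroups.

PROOF. `N` is compact (closed in a compact space), so `CompactSpace N`. Let `j ≥ 0` and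
`c : (Fin (j + 2) → N) → IndM G M` be a cocycle. By `Smooth.finite_range` (for the group `N`) `c` has
finitely many values, by `IndM.exists_normal` they are all right invariant under one open subgroup
of `G`, and `c` is right invariant under an open subgroup of `N`, which contains `N ∩ W` for an open
subgroup `W` of `G` (open neighbourhood of `1` in the subspace topology, then
`ProfiniteGrp.exist_openNormalSubgroup_sub_open_nhds_of_one`). So there is an open normal subgroup
`V` of `G` such that all values of `c` are right invariant under `V`, and `c (x u) = c x` whenever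
all `u i ∈ N` are in `V`. Take `r` from `exists_retraction_mod N V` and put
`(s c) (x_0, …, x_j) = (y ↦ c (r y, x_0, …, x_j) y)` for `x_i ∈ N`, `y ∈ G` (`Fin.cons (r y) x`).
* It is in `IndM G M`: for `v ∈ V`, `r (y v) = r y * u` with `u ∈ N ∩ V`, so
  `c (r (y v), x) (y v) = c (r y, x) (y v) = c (r y, x) y`.
* Equivariance for `m ∈ N`: `(m • (s c) x) y = m • (c (r (m⁻¹ y), x) (m⁻¹ y))
  = (m • c (r (m⁻¹ y), x)) y = c (m * r (m⁻¹ y), m x) y = c (r y, m x) y`, since
  `(m * r (m⁻¹ y))⁻¹ * r y ∈ V` and in `N`.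
* Right invariance of `s c` in `x` under `N ∩ V`, hence smoothness.
* `d (s c) = c`: `0 = d c (r y, x_0, …, x_{j+1}) = c x - ∑ i, (-1)^i c (r y, …, x̂_i, …)`; evaluate at
  `y`. -/
theorem ind_acyclic_sub {N : Subgroup G} (hN : IsClosed (N : Set G)) : Van N (IndM G M) 0 := by
  classical
  have hNc : CompactSpace N := isCompact_iff_compactSpace.mp hN.isCompact
  intro j _ c hc hdc
  obtain ⟨hc1, hc2, hc3⟩ := hc
  have hfin : (Set.range c).Finite := Smooth.finite_range hc3
  obtain ⟨U, hU, hU'⟩ := hc3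
  -- an open subgroup of `G` whose intersection with `N` is contained in `U`
  obtain ⟨O, hO, hOU⟩ := isOpen_induced_iff.mp hU
  have h1O : (1 : G) ∈ O := by
    have : (1 : N) ∈ (Subtype.val ⁻¹' O : Set N) := by
      rw [hOU]
      exact one_mem U
    exact this
  obtain ⟨W, hW⟩ := ProfiniteGrp.exist_openNormalSubgroup_sub_open_nhds_of_one hO h1O
  obtain ⟨V, hVn, hVo, hVW, hVv⟩ := IndM.exists_normal hfin (W := W.1.1) W.1.2
  have hVU : ∀ u : N, (u : G) ∈ V → u ∈ U := by
    intro u hu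
    have : u ∈ (Subtype.val ⁻¹' O : Set N) := hW (hVW hu)
    rw [hOU] at this
    exact this
  obtain ⟨r, hr1, hr2⟩ := exists_retraction_mod N V
  -- right invariance in the first variable
  have hcons : ∀ (a u : N) (x : Fin (j + 1) → N), u ∈ U →
      c (Fin.cons (a * u) x) = c (Fin.cons a x) := by
    intro a u x hu
    have h1 := hU' (Fin.cons a x) (Fin.cons u fun _ => 1) (fun i => by
      refine Fin.cases ?_ (fun k => ?_) i
      · simpa using hu
      · simp [one_mem])
    rw [← h1]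
    congr 1
    funext i
    refine Fin.cases ?_ (fun k => ?_) i
    · simp
    · simp
  have hcons' : ∀ (a : N) (x u : Fin (j + 1) → N), (∀ i, u i ∈ U) →
      c (Fin.cons a fun i => x i * u i) = c (Fin.cons a x) := by
    intro a x u hu
    have h1 := hU' (Fin.cons a x) (Fin.cons 1 u) (fun i => by
      refine Fin.cases ?_ (fun k => ?_) i
      · simp [one_mem]
      · simpa using hu k)
    rw [← h1]
    congr 1
    funext i
    refine Fin.cases ?_ (fun k => ?_) i
    · simp
    · simp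
  have hsm : ∀ x : Fin (j + 1) → N, ∃ U : Subgroup G, IsOpen (U : Set G) ∧ ∀ y, ∀ v ∈ U,
      (fun y => c (Fin.cons (r y) x) y) (y * v) = (fun y => c (Fin.cons (r y) x) y) y := by
    intro x
    refine ⟨V, hVo, fun y v hv => ?_⟩
    have h1 := hr2 y v hv
    set u : N := (r y)⁻¹ * r (y * v) with hu
    have h2 : r (y * v) = r y * u := by
      rw [hu]
      group
    have h3 : u ∈ U := hVU u (by simpa [hu] using h1)
    change c (Fin.cons (r (y * v)) x) (y * v) = c (Fin.cons (r y) x) y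
    rw [h2, hcons _ _ _ h3]
    exact hVv _ ⟨_, rfl⟩ y v hv
  let b : (Fin (j + 1) → N) → IndM G M := fun x => ⟨fun y => c (Fin.cons (r y) x) y, hsm x⟩
  have hb : ∀ x y, b x y = c (Fin.cons (r y) x) y := fun _ _ => rfl
  refine ⟨b, ⟨?_, ?_, U, hU, ?_⟩, ?_⟩
  · intro m _ x
    refine IndM.ext' fun y => ?_
    have e1 : (m • b x) y = (m : G) • b x ((m : G)⁻¹ * y) := rfl
    rw [e1, hb, hb]
    have e2 : (m : G) • c (Fin.cons (r ((m : G)⁻¹ * y)) x) ((m : G)⁻¹ * y) =
        (m • c (Fin.cons (r ((m : G)⁻¹ * y)) x)) y := rfl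
    rw [e2, ← hc1 m (Subgroup.mem_top m)]
    have e3 : (fun i => m * (Fin.cons (r ((m : G)⁻¹ * y)) x : Fin (j + 1 + 1) → N) i) =
        Fin.cons (m * r ((m : G)⁻¹ * y)) (fun i => m * x i) := by
      funext i
      refine Fin.cases ?_ (fun k => ?_) i
      · simp
      · simp
    rw [e3]
    have h1 := hr1 m ((m : G)⁻¹ * y)
    rw [mul_inv_cancel_left] at h1
    set u : N := (m * r ((m : G)⁻¹ * y))⁻¹ * r y with hu
    have h2 : r y = (m * r ((m : G)⁻¹ * y)) * u := by
      rw [hu]
      group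
    have h3 : u ∈ U := hVU u (by simpa [hu] using h1)
    rw [h2, hcons _ _ _ h3]
  · intro x u hu
    have : (fun i => x i * u i) = x := by
      funext i
      have := hu i
      rw [Subgroup.mem_bot] at this
      rw [this, mul_one]
    rw [this]
  · intro x u hu
    refine IndM.ext' fun y => ?_
    rw [hb, hb, hcons' _ _ _ hu]
  · funext x
    refine IndM.ext' fun y => ?_
    have h0 : d c (Fin.cons (r y) x) = 0 := by
      rw [hdc]
      rfl
    have h1 : d b x y = ∑ i : Fin (j + 1 + 1), (-1 : ℤ) ^ (i : ℕ) •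
        c (Fin.cons (r y) fun k => x (i.succAbove k)) y := by
      have : d b x y = IndM.ev y (d b x) := rfl
      rw [this]
      simp only [d, map_sum, map_zsmul, IndM.ev_apply, hb]
    have h2 : c x = ∑ i : Fin (j + 1 + 1), (-1 : ℤ) ^ (i : ℕ) •
        c (Fin.cons (r y) fun k => x (i.succAbove k)) := by
      simp only [d] at h0
      rw [Fin.sum_univ_succ] at h0
      have e1 : (fun i => (Fin.cons (r y) x : Fin (j + 1 + 1 + 1) → N) ((0 : Fin (j + 1 + 1 + 1)).succAbove i)) = x := by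
        funext i
        simp
      have e2 : ∀ i : Fin (j + 1 + 1),
          (fun k => (Fin.cons (r y) x : Fin (j + 1 + 1 + 1) → N) (i.succ.succAbove k)) =
          Fin.cons (r y) (fun k => x (i.succAbove k)) := by
        intro i
        funext k
        refine Fin.cases ?_ (fun k => ?_) k
        · simp
        · simp
      rw [e1] at h0
      simp only [e2] at h0
      have e3 : ∀ i : Fin (j + 1 + 1), (-1 : ℤ) ^ ((i.succ : Fin (j + 1 + 1 + 1)) : ℕ) •
          c (Fin.cons (r y) (fun k => x (i.succAbove k))) =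
          -((-1 : ℤ) ^ (i : ℕ) • c (Fin.cons (r y) (fun k => x (i.succAbove k)))) := by
        intro i
        rw [Fin.val_succ, pow_succ, mul_neg_one, neg_smul]
      simp only [e3, Finset.sum_neg_distrib] at h0
      simp only [Fin.val_zero, pow_zero, one_smul] at h0
      exact add_neg_eq_zero.mp h0
    rw [h1]
    have h3 : c x y = IndM.ev y (c x) := rfl
    rw [h3, h2]
    simp only [map_sum, map_zsmul, IndM.ev_apply]

end GC
end

section

/-!
# Discreteness of induced modules
-/

namespace GC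

universe u v w

variable {G : Type u} [Group G] [TopologicalSpace G] [IsTopologicalGroup G] [CompactSpace G]
  [TotallyDisconnectedSpace G] {M : Type v} [AddCommGroup M] [DistribMulAction G M]

/-- TASK A7 (first statement). The induced module is discrete.

PROOF. Let `f : IndM G M` be right invariant under the open subgroup `U`. `f` has finitely many values
(`finite_quotient`, as in `Smooth.finite_range`), so by `Disc.exists_normal` there is an open normal
subgroup `V ≤ U` which fixes all values of `f`. For `g ∈ V`: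
`(g • f) x = g • f (g⁻¹ * x) = g • f (x * (x⁻¹ * g⁻¹ * x)) = g • f x = f x`. -/
theorem disc_ind (hM : Disc G M) : Disc G (IndM G M) := by
  intro f
  obtain ⟨U, hU, hU'⟩ := f.smooth
  have hfin : Finite (G ⧸ U) := finite_quotient hU
  have hr : (Set.range fun x : G => f x) ⊆ Set.range fun q : G ⧸ U => f q.out := by
    rintro _ ⟨x, rfl⟩
    obtain ⟨u, hu⟩ := QuotientGroup.mk_out_eq_mul U x
    refine ⟨(x : G ⧸ U), ?_⟩
    change f ((x : G ⧸ U)).out = f x
    rw [hu]
    exact hU' x u u.2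
  obtain ⟨V, hV1, hV2, hV3, hV4⟩ :=
    hM.exists_normal ((Set.finite_range _).subset hr) (W := U) hU
  refine ⟨V, hV2, fun g hg => IndM.ext' fun x => ?_⟩
  rw [IndM.smul_apply]
  have h1 : g⁻¹ * x = x * (x⁻¹ * g⁻¹ * x) := by group
  have h2 : x⁻¹ * g⁻¹ * x ∈ V := by
    simpa using hV1.conj_mem g⁻¹ (V.inv_mem hg) x⁻¹
  rw [h1, hU' x _ (hV3 h2)]
  exact hV4 _ ⟨x, rfl⟩ g hg

/-- TASK A7 (second statement). The quotient by the constants is discrete.

PROOF. The same, with two variables. (Or: each `f : QM G M` is `toQ` of `x ↦ f 1 x`, and the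
stabilizer of an element contains the stabilizer of a lift, `toQ_smul`.) -/
theorem disc_q (hM : Disc G M) : Disc G (QM G M) := by
  intro f
  obtain ⟨U, hU, hU'⟩ := f.smooth
  let b : IndM G M := ⟨fun x => f 1 x, U, hU, fun x u hu => by
    have h := hU' 1 x 1 (one_mem U) u hu
    rwa [mul_one] at h⟩
  have hb : toQ G M b = f := QM.ext' fun x y => by
    change f 1 y - f 1 x = f x y
    rw [← f.add' 1 x y]
    abel
  obtain ⟨V, hV, hV'⟩ := disc_ind hM b
  refine ⟨V, hV, fun g hg => ?_⟩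
  rw [← hb, ← toQ_smul, hV' g hg]

/-- TASK A7 (third statement). The module of the smooth homomorphisms is discrete.

PROOF. Let `χ : HomM N M` vanish on `N ∩ U`, `U` open. The image of `χ` is finite: `χ` factors
through `N / (N ∩ U)`, and this is finite, since it injects in `G / U`. By `Disc.exists_normal` there
is an open normal subgroup `V ≤ U` fixing the values of `χ`. For `g ∈ V` and `n ∈ N`:
`g⁻¹ * n * g = n * (n⁻¹ * g⁻¹ * n * g)`, and `n⁻¹ * g⁻¹ * n * g` is in `V` (normal) and in `N`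
(since `n` and `g⁻¹ * n * g` are), so `(g • χ) n = g • χ (g⁻¹ n g) = g • (χ n + 0) = χ n`. -/
theorem disc_hom (hM : Disc G M) (N : Subgroup G) [N.Normal] : Disc G (HomM N M) := by
  intro χ
  obtain ⟨U, hU, hU'⟩ := χ.smooth
  have hfin : Finite (G ⧸ U) := finite_quotient hU
  -- the value of `χ` at `n` depends only on the coset of `n`
  have hval : ∀ a b : N, ((a : G) : G ⧸ U) = ((b : G) : G ⧸ U) → χ a = χ b := by
    intro a b hab
    rw [QuotientGroup.eq] at hab
    have h1 : χ (a⁻¹ * b) = 0 := hU' _ (by simpa using hab)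
    have h2 : χ (a * (a⁻¹ * b)) = χ a + χ (a⁻¹ * b) := χ.map_mul _ _
    rw [h1, add_zero, mul_inv_cancel_left] at h2
    exact h2.symm
  classical
  have hr : (Set.range fun x : N => χ x) ⊆
      Set.range fun q : G ⧸ U => if h : ∃ a : N, ((a : G) : G ⧸ U) = q then χ h.choose else 0 := by
    rintro _ ⟨n, rfl⟩
    refine ⟨((n : G) : G ⧸ U), ?_⟩
    have h : ∃ a : N, ((a : G) : G ⧸ U) = ((n : G) : G ⧸ U) := ⟨n, rfl⟩
    change (if h : ∃ a : N, ((a : G) : G ⧸ U) = ((n : G) : G ⧸ U) then χ h.choose else 0) = χ n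
    rw [dif_pos h]
    exact hval _ _ h.choose_spec
  obtain ⟨V, hV1, hV2, hV3, hV4⟩ :=
    hM.exists_normal ((Set.finite_range _).subset hr) (W := U) hU
  refine ⟨V, hV2, fun g hg => HomM.ext' fun n => ?_⟩
  rw [HomM.smul_apply]
  have h1 : χ (conjN g n) = χ n := by
    apply hval
    rw [QuotientGroup.eq]
    apply hV3
    rw [coe_conjN]
    have h2 : (g⁻¹ * (n : G) * g)⁻¹ * (n : G) = g⁻¹ * ((n : G)⁻¹ * g * n) := by group
    rw [h2]
    refine V.mul_mem (V.inv_mem hg) ?_
    simpa using hV1.conj_mem g hg (n : G)⁻¹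
  rw [h1]
  exact hV4 _ ⟨n, rfl⟩ g hg

omit [IsTopologicalGroup G] [CompactSpace G] [TotallyDisconnectedSpace G] in
/-- TASK A7 (fourth statement). Restriction to a subgroup.

PROOF. Intersect the open stabilizer with the subgroup. -/
theorem disc_sub (hM : Disc G M) (N : Subgroup G) : Disc N M := by
  intro m
  obtain ⟨U, hU, hU'⟩ := hM m
  refine ⟨U.subgroupOf N, ?_, fun g hg => ?_⟩
  · exact hU.preimage continuous_subtype_val
  · exact hU' g hg

end GC
end

section

/-!
# The square of the differential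
-/

namespace GC

universe u v w

lemma a2_val {n : ℕ} (p : Fin (n + 1)) (i : Fin n) :
    ((p.succAbove i : Fin (n + 1)) : ℕ) = if (i : ℕ) < p then (i : ℕ) else i + 1 := by
  by_cases h : (i : ℕ) < p
  · rw [if_pos h, Fin.succAbove_of_castSucc_lt _ _ (by rw [Fin.lt_def]; exact h)]
    rfl
  · rw [if_neg h, Fin.succAbove_of_le_castSucc _ _ (by rw [Fin.le_def]; exact not_lt.1 h)]
    rfl

lemma a2_swap {n : ℕ} (j : Fin (n + 2)) (i : Fin (n + 1)) (h : (j : ℕ) ≤ i)
    (h' : (j : ℕ) < n + 1) (l : Fin n) :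
    j.succAbove (i.succAbove l) = i.succ.succAbove ((j.castLT h').succAbove l) := by
  apply Fin.ext
  simp only [a2_val, Fin.val_succ, Fin.val_castLT]
  split_ifs <;> omega

/-- TASK A2. The square of the differential is zero.

PROOF. `d (d c) x = ∑ j : Fin (n+2), ∑ i : Fin (n+1), (-1)^(i+j) c (x ∘ succAbove j ∘ succAbove i)`.
The pairs `(j, i)` with `(i : ℕ) < j` and the pairs with `(j : ℕ) ≤ i` are in bijection by
`(j, i) ↦ (i.castSucc, j - 1)`; by the simplicial identity
(`Fin.succAbove_succAbove_succAbove_predAbove` or directly `Fin.succ_succAbove_succAbove...`, or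
`Fin.succAbove_comm`-like lemmas, or by cases on `<` and `omega` after `Fin.ext`) the two
compositions agree and the signs are opposite. One can use `Finset.sum_involution` on
`Finset.univ : Finset (Fin (n+2) × Fin (n+1))`. (Compare the proof of
`AlgebraicTopology.AlternatingFaceMapComplex.d_squared` in Mathlib.) -/
theorem d_d {X : Type u} {M : Type v} [AddCommGroup M] {n : ℕ} (c : (Fin n → X) → M) :
    d (d c) = 0 := by
  funext x
  have e0 : d (d c) x = ∑ q : Fin (n + 2) × Fin (n + 1), ((-1 : ℤ) ^ (q.1 : ℕ) * (-1) ^ (q.2 : ℕ)) •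
      c (fun l => x (q.1.succAbove (q.2.succAbove l))) := by
    rw [Fintype.sum_prod_type]
    simp only [d, Finset.smul_sum, smul_smul]
  rw [e0, Pi.zero_apply]
  let S : Finset (Fin (n + 2) × Fin (n + 1)) := {q | (q.1 : ℕ) ≤ q.2}
  rw [← Finset.sum_add_sum_compl S, ← eq_neg_iff_add_eq_zero, ← Finset.sum_neg_distrib]
  have hS : ∀ q, q ∈ S ↔ (q.1 : ℕ) ≤ q.2 := fun q => by simp [S]
  refine Finset.sum_bij
    (fun q hq => (q.2.succ, q.1.castLT (lt_of_le_of_lt ((hS q).1 hq) q.2.is_lt))) ?_ ?_ ?_ ?_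
  · intro q hq
    rw [Finset.mem_compl, hS]
    have h1 := (hS q).1 hq
    simp only [Fin.val_succ, Fin.val_castLT]
    omega
  · rintro ⟨j, i⟩ hq ⟨j', i'⟩ hq' h
    rw [Prod.mk.injEq] at h
    obtain ⟨h1, h2⟩ := h
    have h3 : i = i' := Fin.succ_injective _ h1
    have h4 : (j : ℕ) = j' := by
      have := congrArg Fin.val h2
      simpa using this
    rw [h3, Fin.ext h4]
  · rintro ⟨j, i⟩ hq
    rw [Finset.mem_compl, hS] at hq
    have hq2 : (i : ℕ) < j := not_le.1 hq
    have hj : (j : ℕ) - 1 < n + 1 := by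
      have := j.is_lt
      omega
    refine ⟨(i.castSucc, ⟨(j : ℕ) - 1, hj⟩), ?_, ?_⟩
    · rw [hS]
      simp only [Fin.val_castSucc]
      omega
    · rw [Prod.mk.injEq]
      constructor
      · apply Fin.ext
        simp only [Fin.val_succ]
        omega
      · apply Fin.ext
        simp
  · rintro ⟨j, i⟩ hq
    have h1 := (hS _).1 hq
    have h1' : (j : ℕ) ≤ i := h1
    have e1 : (fun l => x (j.succAbove (i.succAbove l))) = fun l => x (i.succ.succAbove
        ((j.castLT (lt_of_le_of_lt h1' i.is_lt)).succAbove l)) := by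
      funext l
      rw [a2_swap j i h1']
    simp only [Fin.val_succ, Fin.val_castLT]
    rw [e1, ← neg_smul]
    congr 1
    ring

end GC
end

section

/-!
# Lifting of cochains
-/

namespace GC

universe u v w

variable {G : Type u} [Group G] [TopologicalSpace G] [IsTopologicalGroup G] [CompactSpace G]
  [TotallyDisconnectedSpace G]

/-- TASK A4. Lifting of cochains. The relation `R b c` means that `b` is a lift of `c`.

PROOF. Let `c` be right invariant under the open subgroup `U` (smoothness). The set `S` of the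
values of `c` is finite (`Smooth.finite_range`). For each value choose with `h` (and `choose`/
`Classical.choice`) a lift: a function `s : C → B` with `R (s v) v` and `s v` fixed by `N` for each
value `v` of `c`. By `Disc.exists_normal` (for `hB` and the finite set `s '' S`, `W = U`) there is an
open normal subgroup `V ≤ U` which fixes `s v` for all `v ∈ S`. Define
`b x = x 0 • s ((x 0)⁻¹ • c x)`. Note that `(x 0)⁻¹ • c x = c (fun i => (x 0)⁻¹ * x i) ∈ S` by
equivariance.
* Equivariance: `b (g x) = (g * x 0) • s ((x 0)⁻¹ • g⁻¹ • c (g x)) = g • b x`, since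
  `c (g x) = g • c x`.
* `R (b x) (c x)`: `R (s v) v` for `v = (x 0)⁻¹ • c x`, and `R` is stable under `x 0 • ·`.
* Right invariance under `V` (hence smoothness): let `v i ∈ V`. Then `c (x v) = c x` as `V ≤ U`, and
  `(x 0 * v 0)⁻¹ • c x = (v 0)⁻¹ • c ((x 0)⁻¹ x) = c (fun i => (v 0)⁻¹ * ((x 0)⁻¹ * x i))` and
  `(v 0)⁻¹ * y = y * (y⁻¹ * (v 0)⁻¹ * y)` with the second factor in `V` (normal); so this is
  `c ((x 0)⁻¹ x) =: s'`, hence `b (x v) = x 0 • v 0 • s (s') = x 0 • s (s')`, because `v 0 ∈ V` fixes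
  `s (s')`.
* Right invariance under `N`: the same computation with `N` instead of `V`; here
  `c ((x 0)⁻¹ x n) = c ((x 0)⁻¹ x)` by right invariance under `N`, and `s (s')` is fixed by `N`. -/
theorem lift_rel {B : Type v} {C : Type w} [AddCommGroup B] [AddCommGroup C]
    [DistribMulAction G B] [DistribMulAction G C] (hB : Disc G B) {N : Subgroup G} [N.Normal]
    (R : B → C → Prop) (hR : ∀ (g : G) (b : B) (c : C), R b c → R (g • b) (g • c)) {n : ℕ}
    {c : (Fin (n + 1) → G) → C} (hc : c ∈ Coch C (⊤ : Subgroup G) N n)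
    (h : ∀ x, ∃ b, R b (c x) ∧ ∀ g ∈ N, g • b = b) :
    ∃ b ∈ Coch B (⊤ : Subgroup G) N n, ∀ x, R (b x) (c x) := by
  classical
  obtain ⟨heq, hN, U, hU, hU'⟩ := hc
  let s : C → B := fun v =>
    if hv : ∃ b, R b v ∧ ∀ g ∈ N, g • b = b then hv.choose else 0
  have hs : ∀ x, R (s (c x)) (c x) ∧ ∀ g ∈ N, g • s (c x) = s (c x) := by
    intro x
    have hv := h x
    have e : s (c x) = hv.choose := dif_pos hv
    rw [e]
    exact hv.choose_spec
  have hfin : (Set.range c).Finite := Smooth.finite_range ⟨U, hU, hU'⟩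
  obtain ⟨V, hV1, hV2, hV3, hV4⟩ := hB.exists_normal (hfin.image s) hU
  have hval : ∀ x : Fin (n + 1) → G, (x 0)⁻¹ • c x = c (fun i => (x 0)⁻¹ * x i) := fun x =>
    (heq (x 0)⁻¹ (Subgroup.mem_top _) x).symm
  let b : (Fin (n + 1) → G) → B := fun x => x 0 • s ((x 0)⁻¹ • c x)
  have key : ∀ W : Subgroup G, W.Normal →
      (∀ x u : Fin (n + 1) → G, (∀ i, u i ∈ W) → c (fun i => x i * u i) = c x) →
      (∀ x, ∀ g ∈ W, g • s (c x) = s (c x)) →
      ∀ x u : Fin (n + 1) → G, (∀ i, u i ∈ W) → b (fun i => x i * u i) = b x := by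
    intro W hW hc1 hc2 x u hu
    have e1 : (x 0 * u 0)⁻¹ • c (fun i => x i * u i) = c (fun i => (x 0)⁻¹ * x i) := by
      rw [hc1 x u hu, mul_inv_rev, mul_smul, hval x]
      rw [← heq (u 0)⁻¹ (Subgroup.mem_top _) (fun i => (x 0)⁻¹ * x i)]
      have e2 : (fun i => (u 0)⁻¹ * ((x 0)⁻¹ * x i)) =
          fun i => ((x 0)⁻¹ * x i) * (((x 0)⁻¹ * x i)⁻¹ * (u 0)⁻¹ * ((x 0)⁻¹ * x i)) := by
        funext i
        group
      rw [e2]
      refine hc1 _ _ fun i => ?_
      have h3 := hW.conj_mem (u 0)⁻¹ (W.inv_mem (hu 0)) ((x 0)⁻¹ * x i)⁻¹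
      rwa [inv_inv] at h3
    show (x 0 * u 0) • s ((x 0 * u 0)⁻¹ • c (fun i => x i * u i)) = x 0 • s ((x 0)⁻¹ • c x)
    rw [e1, hval x, mul_smul, hc2 _ _ (hu 0)]
  refine ⟨b, ⟨fun g hg x => ?_, ?_, V, hV2, ?_⟩, fun x => ?_⟩
  · show (g * x 0) • s ((g * x 0)⁻¹ • c (fun i => g * x i)) = g • x 0 • s ((x 0)⁻¹ • c x)
    rw [heq g hg x, mul_inv_rev, mul_smul (x 0)⁻¹, inv_smul_smul, mul_smul]
  · exact key N inferInstance hN fun x => (hs x).2
  · exact key V hV1 (fun x u hu => hU' x u fun i => hV3 (hu i)) fun x g hg =>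
      hV4 _ ⟨c x, ⟨x, rfl⟩, rfl⟩ g hg
  · have h1 := hR (x 0) _ _ (hs (fun i => (x 0)⁻¹ * x i)).1
    rw [← hval x, smul_inv_smul] at h1
    exact h1

/-- TASK A4 (second statement). A cochain whose values come from a submodule is a cochain with
values in the submodule.

PROOF. Choose `a x` with `i (a x) = b x`; equivariance, right invariance and smoothness follow from
those of `b` and the injectivity of `i`. -/
theorem coch_of_values {A : Type v} {B : Type w} [AddCommGroup A] [AddCommGroup B]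
    [DistribMulAction G A] [DistribMulAction G B] (i : A →+ B)
    (hi : ∀ (g : G) (a : A), i (g • a) = g • i a) (hinj : Function.Injective i)
    {S N : Subgroup G} {n : ℕ} {b : (Fin (n + 1) → G) → B} (hb : b ∈ Coch B S N n)
    (h : ∀ x, ∃ a, i a = b x) : ∃ a ∈ Coch A S N n, ∀ x, i (a x) = b x := by
  obtain ⟨h1, h2, U, hU, hU'⟩ := hb
  choose a ha using h
  refine ⟨a, ⟨fun g hg x => hinj ?_, fun x u hu => hinj ?_, U, hU, fun x u hu => hinj ?_⟩, ha⟩
  · rw [ha, h1 g hg x, hi, ha]
  · rw [ha, ha, h2 x u hu]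
  · rw [ha, ha, hU' x u hu]

/-- TASK A4 (third statement). Homomorphisms of modules map cochains to cochains.

PROOF. Immediate. -/
theorem coch_map {A : Type v} {B : Type w} [AddCommGroup A] [AddCommGroup B]
    [DistribMulAction G A] [DistribMulAction G B] (i : A →+ B)
    (hi : ∀ (g : G) (a : A), i (g • a) = g • i a)
    {S N : Subgroup G} {n : ℕ} {b : (Fin (n + 1) → G) → A} (hb : b ∈ Coch A S N n) :
    (fun x => i (b x)) ∈ Coch B S N n := by
  obtain ⟨h1, h2, U, hU, hU'⟩ := hb
  refine ⟨fun g hg x => ?_, fun x u hu => ?_, U, hU, fun x u hu => ?_⟩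
  · show i (b (fun j => g * x j)) = g • i (b x)
    rw [h1 g hg x, hi]
  · show i (b (fun j => x j * u j)) = i (b x)
    rw [h2 x u hu]
  · show i (b (fun j => x j * u j)) = i (b x)
    rw [hU' x u hu]

end GC
end

section

/-!
# The homomorphisms attached to fixed elements of the quotient of the induced module
-/

namespace GC

universe u v w z

variable {G : Type u} [Group G] [TopologicalSpace G] {M : Type v} [AddCommGroup M]
  [DistribMulAction G M]

/-- The element `q` of `Q` is fixed by `N` and has the homomorphism `χ` as its image in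
`H^1(N, M) = Hom(N, M)`. -/
def QHom (N : Subgroup G) (q : QM G M) (χ : HomM N M) : Prop :=
  (∀ n ∈ N, n • q = q) ∧ ∀ n : N, χ n = q n 1

variable [IsTopologicalGroup G] {N : Subgroup G}

omit [IsTopologicalGroup G] [DistribMulAction G M] in
private theorem a12_self (q : QM G M) (x : G) : q x x = 0 := by
  have h := q.add' x x x
  exact left_eq_add.mp h.symm

omit [IsTopologicalGroup G] [DistribMulAction G M] in
private theorem a12_swap (q : QM G M) (x y : G) : q x y = -q y x := by
  have h := q.add' x y x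
  rw [a12_self] at h
  exact eq_neg_of_add_eq_zero_left h

omit [IsTopologicalGroup G] in
private theorem a12_inv (htriv : ∀ n ∈ N, ∀ m : M, n • m = m) {q : QM G M}
    (hq : ∀ n ∈ N, n • q = q) {n : G} (hn : n ∈ N) (x y : G) : q (n * x) (n * y) = q x y := by
  have h1 := hq n⁻¹ (inv_mem hn)
  have h2 : (n⁻¹ • q) x y = q x y := by rw [h1]
  rw [QM.smul_apply, htriv _ (inv_mem hn), inv_inv] at h2
  exact h2

/-- TASK A12 (first statement). Each fixed element has a homomorphism, if `N` acts trivially on `M`.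

PROOF. `χ n = q n 1`. For `a, b ∈ N`: `q (a b) 1 = q (a b) a + q a 1` (`q.add'`), and
`q (a * b) (a * 1) = (a⁻¹ • q) b 1 = q b 1`, as `a⁻¹ ∈ N` fixes `q` and acts trivially on `M`.
Smoothness: for `n` in the open subgroup `U` of `q`: `q (1 * n) 1 = q 1 1 = 0` (`q.add' 1 1 1`). -/
theorem exists_qHom (htriv : ∀ n ∈ N, ∀ m : M, n • m = m) {q : QM G M}
    (hq : ∀ n ∈ N, n • q = q) : ∃ χ : HomM N M, QHom N q χ := by
  refine ⟨⟨fun n => q n 1, ?_, ?_⟩, hq, fun n => rfl⟩
  · intro a b
    have h1 := q.add' ((a : G) * b) a 1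
    have h2 := a12_inv htriv hq a.2 b 1
    rw [mul_one] at h2
    show q ((a : G) * b) 1 = q a 1 + q b 1
    rw [← h1, h2, add_comm]
  · obtain ⟨U, hU, hU'⟩ := q.smooth
    refine ⟨U, hU, fun n hn => ?_⟩
    have h := hU' 1 1 n hn 1 (one_mem U)
    rw [one_mul, mul_one, a12_self] at h
    exact h

/-- TASK A12 (second statement). The homomorphism is unique, additive, and equivariant.

PROOF. Uniqueness and additivity from the formula `χ n = q n 1`. -/
theorem QHom.unique {q : QM G M} {χ χ' : HomM N M} (h : QHom N q χ) (h' : QHom N q χ') :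
    χ = χ' := by
  exact HomM.ext' fun n => (h.2 n).trans (h'.2 n).symm

theorem QHom.add {q q' : QM G M} {χ χ' : HomM N M} (h : QHom N q χ) (h' : QHom N q' χ') :
    QHom N (q + q') (χ + χ') := by
  refine ⟨fun n hn => by rw [smul_add, h.1 n hn, h'.1 n hn], fun n => ?_⟩
  rw [HomM.add_apply, QM.add_apply, h.2, h'.2]

theorem QHom.neg {q : QM G M} {χ : HomM N M} (h : QHom N q χ) : QHom N (-q) (-χ) := by
  refine ⟨fun n hn => by rw [smul_neg, h.1 n hn], fun n => ?_⟩
  rw [HomM.neg_apply, QM.neg_apply, h.2]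

theorem QHom.zero : QHom N (0 : QM G M) (0 : HomM N M) := by
  exact ⟨fun n hn => smul_zero n, fun n => rfl⟩

/-- TASK A12 (third statement). Independence of the base point: `q y (n⁻¹ y) = χ n` for all `y`.

PROOF. `q y (n⁻¹ y) = q y n + q n 1 + q 1 (n⁻¹ y)` and
`q 1 (n⁻¹ y) = (n • q) n y = q n y = - q y n` (`n` acts trivially on `M`, and
`(n • q) n y = n • q (n⁻¹ n) (n⁻¹ y)`). -/
theorem QHom.base (htriv : ∀ n ∈ N, ∀ m : M, n • m = m) {q : QM G M} {χ : HomM N M}
    (h : QHom N q χ) (n : N) (y : G) : q y ((n : G)⁻¹ * y) = χ n := by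
  have h1 := q.add' y n 1
  have h2 := q.add' y 1 ((n : G)⁻¹ * y)
  have h3 := a12_inv htriv h.1 n.2 1 ((n : G)⁻¹ * y)
  rw [mul_one, mul_inv_cancel_left] at h3
  rw [← h2, ← h1, ← h3, h.2 n, a12_swap q n y]
  abel

/-- TASK A12 (fourth statement). Equivariance.

PROOF. Fixed: for `n ∈ N`, `n • g • q = g • (g⁻¹ n g) • q = g • q`. For `n ∈ N`:
`(g • q) n 1 = g • q (g⁻¹ n) g⁻¹` and with `y = g⁻¹ n` and `m = conjN g n = g⁻¹ n g`:
`m⁻¹ y = g⁻¹`, so `q (g⁻¹ n) g⁻¹ = χ (conjN g n)` by `QHom.base`. -/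
theorem QHom.smul [N.Normal] (htriv : ∀ n ∈ N, ∀ m : M, n • m = m) {q : QM G M} {χ : HomM N M}
    (h : QHom N q χ) (g : G) : QHom N (g • q) (g • χ) := by
  refine ⟨fun n hn => ?_, fun n => ?_⟩
  · have h1 := h.1 _ (conjN g (⟨n, hn⟩ : N)).2
    rw [coe_conjN] at h1
    rw [← mul_smul]
    have e : n * g = g * (g⁻¹ * n * g) := by group
    rw [e, mul_smul]
    exact congrArg (g • ·) h1
  · have h1 := QHom.base htriv h (conjN g n) (g⁻¹ * n)
    rw [coe_conjN] at h1
    have e : (g⁻¹ * (n : G) * g)⁻¹ * (g⁻¹ * n) = g⁻¹ * 1 := by group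
    rw [e] at h1
    rw [HomM.smul_apply, QM.smul_apply, h1]

/-- TASK A12 (fifth statement). A fixed element with trivial homomorphism lifts to a fixed element
of the induced module.

PROOF. `b x = q 1 x`. `toQ b = q` by `q.add'`. For `n ∈ N`: `(n • b) x = q 1 (n⁻¹ x)
= q 1 n⁻¹ + q n⁻¹ (n⁻¹ x)`, where `q 1 n⁻¹ = - q n⁻¹ 1 = -0` and
`q (n⁻¹ * 1) (n⁻¹ x) = (n • q) 1 x = q 1 x`. -/
theorem QHom.lift_of_zero (htriv : ∀ n ∈ N, ∀ m : M, n • m = m) {q : QM G M}
    (h : QHom N q 0) : ∃ b : IndM G M, toQ G M b = q ∧ ∀ n ∈ N, n • b = b := by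
  refine ⟨⟨fun x => q 1 x, ?_⟩, QM.ext' fun x y => ?_, fun n hn => IndM.ext' fun x => ?_⟩
  · obtain ⟨U, hU, hU'⟩ := q.smooth
    refine ⟨U, hU, fun x u hu => ?_⟩
    have h := hU' 1 x 1 (one_mem U) u hu
    rwa [mul_one] at h
  · show q 1 y - q 1 x = q x y
    rw [← q.add' 1 x y, add_sub_cancel_left]
  · show n • q 1 (n⁻¹ * x) = q 1 x
    rw [htriv n hn]
    have h1 := q.add' 1 n⁻¹ (n⁻¹ * x)
    have h2 : q n⁻¹ 1 = 0 := by
      have := h.2 ⟨n⁻¹, inv_mem hn⟩
      exact this.symm
    have h3 := a12_inv htriv h.1 (inv_mem hn) 1 x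
    rw [mul_one] at h3
    rw [← h1, a12_swap q 1, h2, neg_zero, zero_add, h3]

/-- TASK A12 (sixth statement). Every homomorphism comes from a fixed element of `Q`.

PROOF. Let `χ` vanish on `N ∩ U`, and let `V ≤ U` be an open normal subgroup
(`GC.exists_normal`). Take `r : G → N` from `exists_retraction_mod N V` (A6). Put `b y = - χ (r y)`;
it is smooth: `r (y v) = r y * u`, `u ∈ N ∩ V`, `χ u = 0`. For `n ∈ N`: `r (n⁻¹ y) = n⁻¹ * r y * u`
with `u ∈ N ∩ V`, so `(n • b) y - b y = b (n⁻¹ y) - b y = - χ (n⁻¹) - χ (r y) + χ (r y) = χ n`.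
So `n • b - b = constI (χ n)`, `q = toQ b` is fixed by `N`, and
`q n 1 = b 1 - b n = (n • b) n - b n = χ n`. -/
theorem exists_of_hom [CompactSpace G] [TotallyDisconnectedSpace G]
    (htriv : ∀ n ∈ N, ∀ m : M, n • m = m) (χ : HomM N M) : ∃ q : QM G M, QHom N q χ := by
  obtain ⟨U, hU, hU'⟩ := χ.smooth
  obtain ⟨V, hVn, hVo, hVU⟩ := GC.exists_normal hU
  obtain ⟨r, hr1, hr2⟩ := exists_retraction_mod N V
  have key : ∀ a b : N, ((a : N) : G)⁻¹ * (b : N) ∈ V → χ b = χ a := by
    intro a b hab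
    have h1 : χ (a⁻¹ * b) = 0 := hU' _ (hVU (by simpa using hab))
    rw [χ.map_mul, χ.map_inv] at h1
    have h2 : χ b = χ a := by
      have := neg_add_eq_zero.1 h1
      exact this.symm
    exact h2
  let b : IndM G M := ⟨fun y => -χ (r y), V, hVo, fun x u hu => by rw [key _ _ (hr2 x u hu)]⟩
  have hb : ∀ y, b y = -χ (r y) := fun _ => rfl
  have hnb : ∀ (n : N), (n : G) • b = b + constI G M (χ n) := by
    intro n
    refine IndM.ext' fun y => ?_
    have h1 : χ (r ((n : G)⁻¹ * y)) = χ (n⁻¹ * r y) := by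
      refine key _ _ ?_
      have := hr1 n⁻¹ y
      simpa using this
    rw [IndM.smul_apply, htriv n n.2, IndM.add_apply, constI_apply, hb, hb, h1, χ.map_mul,
      χ.map_inv]
    abel
  refine ⟨toQ G M b, fun n hn => ?_, fun n => ?_⟩
  · have h1 := hnb ⟨n, hn⟩
    rw [← toQ_smul]
    show toQ G M (n • b) = toQ G M b
    have h2 : n • b = b + constI G M (χ ⟨n, hn⟩) := h1
    rw [h2, map_add]
    have h3 : toQ G M (constI G M (χ ⟨n, hn⟩)) = 0 := QM.ext' fun x y => by
      rw [toQ_apply, constI_apply, constI_apply, sub_self]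
      rfl
    rw [h3, add_zero]
  · have h1 : ((n : G) • b) n = b n + χ n := by
      rw [hnb]
      rfl
    rw [IndM.smul_apply, htriv n n.2, inv_mul_cancel] at h1
    rw [toQ_apply, h1, add_sub_cancel_left]

end GC
end

section

/-!
# Cochains with values in a direct sum permuted by the group
-/

namespace GC

universe u v w

variable {G : Type u} [Group G] [TopologicalSpace G] [IsTopologicalGroup G] [CompactSpace G]
  [TotallyDisconnectedSpace G]

/-- TASK A23. Let `E` be a module with a decomposition `χ = ∑ p_a χ` indexed by a set `X` on which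
`G` acts with open stabilizers. A cochain `e` whose components `p_a e` are the differentials of
cochains equivariant for the stabilizer of `a` is the differential of a cochain.

PROOF. `e` has finitely many values (`Smooth.finite_range`), so the set
`X₀ = {a | ∃ x, p a (e x) ≠ 0}` is finite (`hfin`), and it is stable under `G`
(`p (g • a) (e (g x)) = g • p a (e x)`). For `a ∈ X₀` choose `F a` (`hloc`). Let `R ⊆ X₀` be a set of
representatives of the orbits of `G` in `X₀` (e.g. the image of `X₀` under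
`a ↦ (Quotient.mk (MulAction.orbitRel G X) a).out` intersected suitably; the representative lies in
`X₀` since `X₀` is stable). Put `f = ∑ a ∈ R, tr (stabilizer G a) (F a)` (A18). By `tr_mem`
`f ∈ Coch E ⊤ N n`, and by `d_tr`, `d f x = ∑ a ∈ R, ∑ᶠ q : G ⧸ stabilizer G a,
q.out • p a (e (q.out⁻¹ x)) = ∑ a ∈ R, ∑ᶠ q, p (q.out • a) (e x)` (`hp`, equivariance of `e`). The map
`(a, q) ↦ q.out • a` is a bijection from the pairs onto `X₀` (orbit-stabilizer,
`MulAction.orbitEquivQuotientStabilizer`), so `d f x = ∑ b ∈ X₀, p b (e x) = ∑ᶠ b, p b (e x) = e x`,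
since `p b (e x) = 0` for `b ∉ X₀`. -/
theorem si_abs {N : Subgroup G} {E : Type v} [AddCommGroup E] [DistribMulAction G E]
    {X : Type w} [MulAction G X] (hX : ∀ a : X, IsOpen (MulAction.stabilizer G a : Set G))
    (p : X → E →+ E) (hp : ∀ (g : G) (a : X) (χ : E), p (g • a) (g • χ) = g • p a χ)
    (hfin : ∀ χ : E, {a | p a χ ≠ 0}.Finite) (hsum : ∀ χ : E, ∑ᶠ a, p a χ = χ) {n : ℕ}
    {e : (Fin (n + 2) → G) → E} (he : e ∈ Coch E (⊤ : Subgroup G) N (n + 1))
    (hloc : ∀ a, ∃ F ∈ Coch E (MulAction.stabilizer G a) N n, d F = fun x => p a (e x)) :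
    ∃ f ∈ Coch E (⊤ : Subgroup G) N n, d f = e := by
  classical
  have hX₀fin : {a : X | ∃ x, p a (e x) ≠ 0}.Finite := by
    have h1 : {a : X | ∃ x, p a (e x) ≠ 0} ⊆ ⋃ χ ∈ Set.range e, {a | p a χ ≠ 0} := by
      rintro a ⟨x, hx⟩
      simp only [Set.mem_iUnion]
      exact ⟨e x, ⟨x, rfl⟩, hx⟩
    exact (he.2.2.finite_range.biUnion fun χ _ => hfin χ).subset h1
  have hstab : ∀ (g : G) (a : X), (∃ x, p a (e x) ≠ 0) → ∃ x, p (g • a) (e x) ≠ 0 := by
    rintro g a ⟨x, hx⟩
    refine ⟨fun i => g * x i, ?_⟩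
    rw [he.1 g (Subgroup.mem_top g) x, hp]
    intro h0
    apply hx
    have := congrArg (fun z => g⁻¹ • z) h0
    simpa using this
  choose F hF hdF using hloc
  let π : X → Quotient (MulAction.orbitRel G X) := fun a => Quotient.mk (MulAction.orbitRel G X) a
  let R : Finset (Quotient (MulAction.orbitRel G X)) := hX₀fin.toFinset.image π
  refine ⟨∑ ω ∈ R, tr (MulAction.stabilizer G ω.out) (F ω.out),
    sum_mem fun ω _ => tr_mem (hX _) (hF _), ?_⟩
  have hd1 : d (∑ ω ∈ R, tr (MulAction.stabilizer G ω.out) (F ω.out)) =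
      ∑ ω ∈ R, tr (MulAction.stabilizer G ω.out) (fun x => p ω.out (e x)) := by
    rw [← dHom_apply, map_sum]
    refine Finset.sum_congr rfl fun ω _ => ?_
    rw [dHom_apply, d_tr (hX _), hdF]
  rw [hd1]
  funext x
  rw [Finset.sum_apply]
  have hterm : ∀ ω ∈ R, tr (MulAction.stabilizer G ω.out) (fun x => p ω.out (e x)) x =
      ∑ b ∈ hX₀fin.toFinset with π b = ω, p b (e x) := by
    intro ω hω
    have := finite_quotient (hX ω.out)
    have := Fintype.ofFinite (G ⧸ MulAction.stabilizer G ω.out)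
    unfold tr
    rw [finsum_eq_sum_of_fintype]
    refine Finset.sum_bij (fun q _ => q.out • ω.out) ?_ ?_ ?_ ?_
    · intro q _
      rw [Finset.mem_filter, Set.Finite.mem_toFinset]
      constructor
      · obtain ⟨a, ha, haω⟩ := Finset.mem_image.mp hω
        rw [Set.Finite.mem_toFinset] at ha
        have h2 : π ω.out = π a := by
          rw [haω]
          exact Quotient.out_eq ω
        have h3 : ω.out ∈ MulAction.orbit G a := Quotient.exact h2
        obtain ⟨g, hg⟩ := h3
        have h4 := hstab (q.out * g) a ha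
        rw [mul_smul] at h4
        have hg' : g • a = ω.out := hg
        rw [hg'] at h4
        exact h4
      · have h5 : π (q.out • ω.out) = π ω.out := Quotient.sound ⟨q.out, rfl⟩
        rw [h5]
        exact Quotient.out_eq ω
    · intro q _ q' _ h
      have h6 : (q'.out)⁻¹ * q.out ∈ MulAction.stabilizer G ω.out := by
        rw [MulAction.mem_stabilizer_iff, mul_smul, h, inv_smul_smul]
      have h7 := QuotientGroup.eq.mpr h6
      rw [QuotientGroup.out_eq', QuotientGroup.out_eq'] at h7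
      exact h7.symm
    · intro b hb
      rw [Finset.mem_filter] at hb
      have h2 : π b = π ω.out := by
        rw [hb.2]
        exact (Quotient.out_eq ω).symm
      have h3 : b ∈ MulAction.orbit G ω.out := Quotient.exact h2
      obtain ⟨g, hg⟩ := h3
      have hg' : g • ω.out = b := hg
      refine ⟨(g : G ⧸ MulAction.stabilizer G ω.out), Finset.mem_univ _, ?_⟩
      obtain ⟨u, hu⟩ := QuotientGroup.mk_out_eq_mul (MulAction.stabilizer G ω.out) g
      rw [hu, mul_smul]
      have h8 : (u : G) • ω.out = ω.out := u.2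
      rw [h8, hg']
    · intro q _
      have h9 : (fun i => q.out * (q.out⁻¹ * x i)) = x := by
        funext i
        rw [mul_inv_cancel_left]
      have h10 := he.1 q.out (Subgroup.mem_top _) (fun i => q.out⁻¹ * x i)
      rw [h9] at h10
      rw [h10, hp]
  rw [Finset.sum_congr rfl hterm, Finset.sum_fiberwise_of_maps_to
    (fun b hb => Finset.mem_image_of_mem π hb)]
  rw [← finsum_eq_sum_of_support_subset, hsum]
  intro a ha
  rw [Set.Finite.coe_toFinset]
  exact ⟨x, ha⟩

end GC
end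

section

/-!
# Corestriction of unramified classes
-/

namespace GC

universe u v w

variable {G : Type u} [Group G] [TopologicalSpace G] [IsTopologicalGroup G] [CompactSpace G]
  [TotallyDisconnectedSpace G] {M : Type v} [AddCommGroup M] [DistribMulAction G M]

omit [IsTopologicalGroup G] [CompactSpace G] [TotallyDisconnectedSpace G] in
/-- The extension of a cochain of `D` to `S = D N`. -/
theorem a21_core {N D S : Subgroup G} [N.Normal] (hDS : D ≤ S)
    (hS' : ∀ s ∈ S, ∃ g ∈ D, ∃ n ∈ N, s = g * n) {E : Type v} [AddCommGroup E]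
    [DistribMulAction G E] (htriv : ∀ n ∈ N, ∀ χ : E, n • χ = χ) {n : ℕ}
    {f : (Fin (n + 1) → D) → E}
    (hf1 : ∀ (g : D) (x : Fin (n + 1) → D), f (fun i => g * x i) = g • f x)
    (hf2 : RInv (N.subgroupOf D) f) (V : Subgroup D)
    (hV : ∀ x v : Fin (n + 1) → D, (∀ i, v i ∈ V) → f (fun i => x i * v i) = f x)
    (W' : Subgroup S) (hW' : IsOpen (W' : Set S))
    (hW : ∀ (g : D), ∀ m ∈ N, ∀ w ∈ W', ∃ v ∈ V, ∃ m' ∈ N,
      (g : G) * m * (w : G) = g * (v : D) * m') :
    ∃ f' ∈ Coch E (⊤ : Subgroup S) (N.subgroupOf S) n,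
      ∀ x : Fin (n + 1) → D, f' (fun i => ⟨(x i : G), hDS (x i).2⟩) = f x := by
  have hδ : ∀ s : S, ∃ g : D, ∃ m ∈ N, (s : G) = g * m := by
    intro s
    obtain ⟨g, hg, m, hm, h⟩ := hS' s s.2
    exact ⟨⟨g, hg⟩, m, hm, h⟩
  choose δ ν hν hδν using hδ
  -- independence of the choice
  have key : ∀ (s : Fin (n + 1) → S) (g : Fin (n + 1) → D) (m : Fin (n + 1) → G),
      (∀ i, m i ∈ N) → (∀ i, (s i : G) = g i * m i) → f (fun i => δ (s i)) = f g := by
    intro s g m hm hs
    have h1 : ∀ i, (δ (s i))⁻¹ * g i ∈ N.subgroupOf D := by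
      intro i
      rw [Subgroup.mem_subgroupOf]
      have h2 : (((δ (s i))⁻¹ * g i : D) : G) = ν (s i) * (m i)⁻¹ := by
        have h3 := hδν (s i)
        rw [hs i] at h3
        rw [Subgroup.coe_mul, Subgroup.coe_inv]
        rw [inv_mul_eq_iff_eq_mul, ← mul_assoc, ← h3, mul_assoc, mul_inv_cancel, mul_one]
      rw [h2]
      exact N.mul_mem (hν _) (N.inv_mem (hm i))
    have h2 := hf2 (fun i => δ (s i)) (fun i => (δ (s i))⁻¹ * g i) h1
    rw [← h2]
    congr 1
    funext i
    group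
  refine ⟨fun s => f (fun i => δ (s i)), ⟨fun g _ x => ?_, fun x u hu => ?_, W', hW',
    fun x w hw => ?_⟩, fun x => ?_⟩
  · -- equivariance
    have h1 := key (fun i => g * x i) (fun i => δ g * δ (x i))
      (fun i => ((δ (x i) : D) : G)⁻¹ * ν g * δ (x i) * ν (x i)) (fun i => by
        refine N.mul_mem ?_ (hν _)
        have := Subgroup.Normal.conj_mem (inferInstance : N.Normal) (ν g) (hν g)
          ((δ (x i) : D) : G)⁻¹
        simpa using this) (fun i => by
        have h2 := hδν g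
        have h3 := hδν (x i)
        rw [Subgroup.coe_mul, h3, Subgroup.coe_mul]
        conv_lhs => rw [h2]
        group)
    show f (fun i => δ (g * x i)) = g • f (fun i => δ (x i))
    rw [h1, hf1]
    have h2 : (g : G) • f (fun i => δ (x i)) = (δ g : G) • f (fun i => δ (x i)) := by
      conv_lhs => rw [hδν g]
      rw [mul_smul, htriv _ (hν g)]
    exact h2.symm
  · show f (fun i => δ (x i * u i)) = f (fun i => δ (x i))
    refine key _ _ (fun i => ν (x i) * (u i : G)) (fun i => N.mul_mem (hν _) (hu i)) fun i => ?_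
    rw [Subgroup.coe_mul]
    conv_lhs => rw [hδν (x i)]
    rw [mul_assoc]
  · show f (fun i => δ (x i * w i)) = f (fun i => δ (x i))
    choose v hv m' hm' hvm using fun i => hW (δ (x i)) (ν (x i)) (hν _) (w i) (hw i)
    rw [key (fun i => x i * w i) (fun i => δ (x i) * v i) m' hm' fun i => by
      rw [Subgroup.coe_mul, Subgroup.coe_mul, ← hvm i]
      conv_lhs => rw [hδν (x i)]]
    exact hV _ _ hv
  · exact key _ x (fun _ => 1) (fun _ => N.one_mem) fun i => by
      rw [mul_one]

/-- TASK A21 (first statement). Extension of a cochain of `S` which is right invariant under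
`I ∩ S` to the subgroup `S I`.

PROOF. `T = S ⊔ I`; since `I` is normal, each `t ∈ T` is `t = s * i` with `s ∈ S`, `i ∈ I`
(`Subgroup.mul_normal`/`Subgroup.mem_sup'`). Put `c₂ (t_0, …, t_n) = c₁ (s_0, …, s_n)` for a choice
`t_k = s_k * i_k`; if `s * i = s' * i'` then `s⁻¹ * s' = i * i'⁻¹ ∈ I ∩ S`, so this does not depend
on the choice. Right invariance under `I`: clear. Equivariance under `s ∈ S`: clear. Under `i ∈ I`:
`i * s_k * i_k = s_k * (s_k⁻¹ * i * s_k) * i_k`, so `c₂ (i t) = c₂ t`, which is `i • c₂ t` as `I` acts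
trivially on `M`. Hence under `T`. Smoothness: `S` is open in `G`, so it is open in `T`; let `U` be an
open normal subgroup of `G` with `U ≤ S` such that `c₁` is right invariant under `U ∩ S`; for
`u ∈ U`: `t * u = s * i * u = s * (i * u * i⁻¹) * i` with `i * u * i⁻¹ ∈ U`. -/
theorem exists_extend {I : Subgroup G} [I.Normal] (htriv : ∀ i ∈ I, ∀ m : M, i • m = m)
    {S : Subgroup G} (hS : IsOpen (S : Set G)) {n : ℕ} {c₁ : (Fin (n + 1) → S) → M}
    (hc₁ : c₁ ∈ Coch M (⊤ : Subgroup S) (I.subgroupOf S) n) :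
    ∃ c₂ ∈ Coch M (⊤ : Subgroup (S ⊔ I : Subgroup G)) (I.subgroupOf (S ⊔ I)) n,
      ∀ x : Fin (n + 1) → S,
        c₂ (fun i => ⟨(x i : G), (le_sup_left : S ≤ S ⊔ I) (x i).2⟩) = c₁ x := by
  classical
  obtain ⟨hf1, hf2, V, hVo, hV⟩ := hc₁
  obtain ⟨O, hO, hOV⟩ := isOpen_induced_iff.1 hVo
  have h1O : (1 : G) ∈ O := by
    have h1 : (1 : S) ∈ (V : Set S) := V.one_mem
    rw [← hOV] at h1
    exact h1
  obtain ⟨U₀, hU₀⟩ := ProfiniteGrp.exist_openNormalSubgroup_sub_open_nhds_of_one
    (hO.inter hS) ⟨h1O, S.one_mem⟩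
  obtain ⟨U, hU⟩ : ∃ U : Subgroup G, U = U₀.1.1 := ⟨_, rfl⟩
  have hUn : U.Normal := by rw [hU]; exact U₀.2
  have hUo : IsOpen (U : Set G) := by rw [hU]; exact U₀.1.2
  have hUS : ∀ g : G, g ∈ U → g ∈ S := by
    intro g hg
    rw [hU] at hg
    exact (hU₀ hg).2
  have hUV : ∀ g : S, (g : G) ∈ U → g ∈ V := by
    intro g hg
    have h1 : (g : G) ∈ O := (hU₀ (by rw [hU] at hg; exact hg)).1
    have h2 : g ∈ (Subtype.val ⁻¹' O : Set S) := h1
    rw [hOV] at h2
    exact h2
  have hmem : ∀ s ∈ S ⊔ I, ∃ g ∈ S, ∃ n ∈ I, s = g * n := by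
    intro s hs
    rw [← SetLike.mem_coe, Subgroup.mul_normal, Set.mem_mul] at hs
    obtain ⟨g, hg, n, hn, h⟩ := hs
    exact ⟨g, hg, n, hn, h.symm⟩
  refine a21_core (N := I) (D := S) (S := S ⊔ I) le_sup_left hmem htriv
    (fun g x => hf1 g trivial x) hf2 V hV (U.subgroupOf (S ⊔ I))
    (hUo.preimage continuous_subtype_val) fun g m hm w hw => ?_
  have h1 : m * (w : G) * m⁻¹ ∈ U := hUn.conj_mem _ hw m
  refine ⟨⟨m * (w : G) * m⁻¹, hUS _ h1⟩, hUV ⟨m * (w : G) * m⁻¹, hUS _ h1⟩ h1, m, hm, ?_⟩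
  group

/-- The cocycles `c` and `c₂ ∘ r` differ by a coboundary. -/
theorem a21_compare {I : Subgroup G} [I.Normal] {S T : Subgroup G} (hS : IsOpen (S : Set G))
    (hST : S ≤ T) {m : ℕ} {c : (Fin (m + 2) → G) → M}
    (hcS : c ∈ Coch M S ⊥ (m + 1)) (hcd : d c = 0) {c₁ : (Fin (m + 2) → S) → M}
    {b₁ : (Fin (m + 1) → S) → M} (hb₁ : b₁ ∈ Coch M (⊤ : Subgroup S) ⊥ m)
    (hdb : d b₁ = (fun x : Fin (m + 2) → S => c fun i => (x i : G)) - c₁)
    {c₂ : (Fin (m + 2) → T) → M} (hc₂ : c₂ ∈ Coch M (⊤ : Subgroup T) (I.subgroupOf T) (m + 1))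
    (hdc₂ : d c₂ = 0)
    (hres : ∀ x : Fin (m + 2) → S, c₂ (fun i => ⟨(x i : G), hST (x i).2⟩) = c₁ x)
    {r : G → T} (hr : Retr T I r) :
    ∃ P ∈ Coch M S ⊥ m, d P = c - fun x : Fin (m + 2) → G => c₂ fun i => r (x i) := by
  have hT : IsOpen (T : Set G) := Subgroup.isOpen_mono hST hS
  have hTc : CompactSpace T := isCompact_iff_compactSpace.1
    (Subgroup.isClosed_of_isOpen T hT).isCompact
  obtain ⟨r₁, hr₁⟩ := exists_retr (G := G) (N := ⊥) hS bot_le
  obtain ⟨p₁, hp₁, hdp₁⟩ := homotopy hr₁.adm (adm_id S ⊥) hcS hcd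
  have hc₃ : (fun x : Fin (m + 2) → G => c₂ fun i => r (x i)) ∈ Coch M T I (m + 1) :=
    Retr.comp hT hr hc₂
  have hc₃S : (fun x : Fin (m + 2) → G => c₂ fun i => r (x i)) ∈ Coch M S ⊥ (m + 1) :=
    coch_mono hST bot_le _ hc₃
  have hdc₃ : d (fun x : Fin (m + 2) → G => c₂ fun i => r (x i)) = 0 := by
    rw [d_comp r c₂, hdc₂]
    rfl
  obtain ⟨p₂, hp₂, hdp₂⟩ := homotopy (adm_id S ⊥) hr₁.adm hc₃S hdc₃
  have hb₁' : (fun x : Fin (m + 1) → G => b₁ fun i => r₁ (x i)) ∈ Coch M S ⊥ m := by
    refine Retr.comp hS hr₁ (coch_mono le_rfl ?_ _ hb₁)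
    intro x hx
    rw [Subgroup.mem_subgroupOf, Subgroup.mem_bot] at hx
    rw [Subgroup.mem_bot]
    exact Subtype.ext hx
  have hadm : Adm (⊤ : Subgroup T) ⊥ (fun t : T => t * r 1) := by
    refine ⟨fun s _ g => mul_assoc _ _ _, fun g n hn => ?_, fun U hU => ?_⟩
    · rw [Subgroup.mem_bot] at hn
      rw [hn, mul_one, inv_mul_cancel]
      exact one_mem _
    · obtain ⟨V, hVn, hV, hVU⟩ := GC.exists_normal (G := T) hU
      refine ⟨V, hV, fun g v hv => hVU ?_⟩
      have h1 := hVn.conj_mem v hv (r 1)⁻¹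
      have h2 : (g * r 1)⁻¹ * (g * v * r 1) = (r 1)⁻¹ * v * (r 1)⁻¹⁻¹ := by group
      change (g * r 1)⁻¹ * (g * v * r 1) ∈ V
      rw [h2]
      exact h1
  obtain ⟨p₃, hp₃, hdp₃⟩ := homotopy (adm_id (⊤ : Subgroup T) ⊥) hadm
    (coch_mono le_rfl bot_le _ hc₂) hdc₂
  have hp₃' : (fun x : Fin (m + 1) → G => p₃ fun i => (⟨(r₁ (x i) : G), hST (r₁ (x i)).2⟩ : T)) ∈
      Coch M S ⊥ m := by
    have h1 : (fun x : Fin (m + 1) → S => p₃ fun i => (⟨(x i : G), hST (x i).2⟩ : T)) ∈
        Coch M (⊤ : Subgroup S) ((⊥ : Subgroup G).subgroupOf S) m := by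
      obtain ⟨e1, e2, U, hU, e3⟩ := hp₃
      refine ⟨fun g _ x => ?_, fun x u hu => ?_, U.comap (Subgroup.inclusion hST), ?_,
        fun x u hu => ?_⟩
      · exact e1 ⟨(g : G), hST g.2⟩ trivial fun i => (⟨(x i : G), hST (x i).2⟩ : T)
      · have h2 : (fun i => x i * u i) = x := by
          funext i
          have h3 := hu i
          rw [Subgroup.mem_subgroupOf, Subgroup.mem_bot] at h3
          have h4 : u i = 1 := Subtype.ext h3
          rw [h4, mul_one]
        rw [h2]
      · exact hU.preimage (continuous_subtype_val.subtype_mk _)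
      · exact e3 (fun i => (⟨(x i : G), hST (x i).2⟩ : T))
          (fun i => (⟨(u i : G), hST (u i).2⟩ : T)) fun i => hu i
    exact Retr.comp hS hr₁ h1
  have hrr : ∀ g : G, r (r₁ g : G) = (⟨(r₁ g : G), hST (r₁ g).2⟩ : T) * r 1 := by
    intro g
    have h1 := hr.equi (⟨(r₁ g : G), hST (r₁ g).2⟩ : T) 1
    rw [mul_one] at h1
    exact h1
  refine ⟨p₁ + (fun x : Fin (m + 1) → G => b₁ fun i => r₁ (x i)) -
    (fun x : Fin (m + 1) → G => p₃ fun i => (⟨(r₁ (x i) : G), hST (r₁ (x i)).2⟩ : T)) + p₂,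
    add_mem (sub_mem (add_mem hp₁ hb₁') hp₃') hp₂, ?_⟩
  rw [d_add, d_sub, d_add, hdp₁, hdp₂, d_comp r₁ b₁, hdb,
    d_comp (fun g => (⟨(r₁ g : G), hST (r₁ g).2⟩ : T)) p₃, hdp₃]
  funext x
  simp only [Pi.add_apply, Pi.sub_apply, id]
  have h1 : (fun i => r (r₁ (x i) : G)) =
      fun i => (⟨(r₁ (x i) : G), hST (r₁ (x i)).2⟩ : T) * r 1 := funext fun i => hrr (x i)
  rw [h1, ← hres]
  abel

/-- TASK A21 (second statement). If the restriction of the cocycle `c` of `G` to the open subgroup `S`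
is, up to a coboundary, right invariant under `I ∩ S`, then the multiple of `c` by the index of `S`
is, up to a coboundary, right invariant under `I`.

PROOF. Degree `0`: a cocycle of degree `0` is constant (`const_of_d_eq_zero`), take
`c' = S.index • c`. Let the degree be `n = m + 1`, and `c|_S = c₁ + d b₁`,
`b₁ ∈ Coch M (⊤ : Subgroup S) ⊥ m`. Then `d c₁ = 0`. Let `T = S ⊔ I`, an open subgroup, and `c₂` as in
`exists_extend`. `d c₂ = 0`: `c₂` is right invariant under `I`, and each element of `T` is in `S I`,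
so `d c₂ t = d c₂ (s) = d c₁ (s) = 0`. Let `r : G → T` be a retraction compatible with `I`
(`exists_retr`, `I ≤ T`) and `r₁ : G → S` a retraction (with `N = ⊥`).
`c' := S.relIndex T • tr T (c₂ ∘ r) = tr S (c₂ ∘ r) ∈ Coch M ⊤ I n` (`Retr.comp`, `tr_mem`,
`tr_tr`).
`S.index • c = tr S c` (`tr_self`). As cochains equivariant for `S` (`Coch M S ⊥`), up to
coboundaries `d p`, `p ∈ Coch M S ⊥ m`: `c ~ c ∘ r₁` (`homotopy` for `id` and `r₁`),
`c ∘ r₁ = (c|_S) ∘ r₁ = c₁ ∘ r₁ + d (b₁ ∘ r₁) ~ c₁ ∘ r₁`. It remains to compare `c₁ ∘ r₁ = c₂ ∘ (ι r₁)`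
and `c₂ ∘ r`, where `ι : S → T`: extend: `c₂ ∘ r` is a cocycle `c₃` on `G` in `Coch M S ⊥ n`, and by
`homotopy` for the admissible maps `r₁` and `id`: `c₃ ~ c₃ ∘ r₁ = c₂ ∘ r ∘ r₁`; and
`r (r₁ g) = r₁ g * r 1` (as `r₁ g ∈ S ≤ T`, `r (s * 1) = s * r 1`). The map `t ↦ t * r 1` of `T` and
the identity of `T` are admissible for the group `T` (with `S = ⊤`, `N = ⊥`), so by `homotopy` in the
group `T`: `c₂ ∘ (· * r 1) = c₂ + d p'` with `p' ∈ Coch M (⊤ : Subgroup T) ⊥ m`. Restrict it to the
elements `r₁ g`: `c₂ ∘ r ∘ r₁ = c₁ ∘ r₁ + d (p' ∘ ι r₁)`, and `p' ∘ ι r₁ ∈ Coch M S ⊥ m`. So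
`c ~ c₂ ∘ r` in `Coch M S ⊥`, and `tr S` of the difference is a coboundary (`d_tr`, `tr_mem`). -/
theorem cor_unr {I : Subgroup G} [I.Normal] (htriv : ∀ i ∈ I, ∀ m : M, i • m = m)
    {S : Subgroup G} (hS : IsOpen (S : Set G)) {n : ℕ}
    {c : (Fin (n + 1) → G) → M} (hc : c ∈ Cocyc G M n) {c₁ : (Fin (n + 1) → S) → M}
    (hc₁ : c₁ ∈ Coch M (⊤ : Subgroup S) (I.subgroupOf S) n)
    (h : (fun x : Fin (n + 1) → S => c fun i => (x i : G)) - c₁ ∈ Cobd S M n) :
    ∃ c' ∈ Coch M (⊤ : Subgroup G) I n, S.index • c - c' ∈ Cobd G M n := by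
  classical
  obtain ⟨hcc, hcd⟩ := hc
  have hcd' : d c = 0 := hcd
  cases n with
  | zero =>
    refine ⟨S.index • c, nsmul_mem ?_ _, ?_⟩
    · obtain ⟨e1, e2, e3⟩ := hcc
      exact ⟨e1, fun x u _ => const_of_d_eq_zero hcd' _ _, e3⟩
    · rw [sub_self]
      exact zero_mem _
  | succ m =>
    obtain ⟨b₁, hb₁, hdb₁⟩ := h
    have hdb : d b₁ = (fun x : Fin (m + 2) → S => c fun i => (x i : G)) - c₁ := hdb₁
    have hcS : c ∈ Coch M S ⊥ (m + 1) := coch_mono le_top le_rfl _ hcc
    have hdc₁ : d c₁ = 0 := by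
      have h1 : c₁ = (fun x : Fin (m + 2) → S => c fun i => (x i : G)) - d b₁ := by
        rw [hdb, sub_sub_cancel]
      have h2 : d (fun x : Fin (m + 2) → S => c fun i => (x i : G)) = 0 := by
        have h3 := d_comp (fun s : S => (s : G)) c
        rw [h3, hcd']
        rfl
      rw [h1, d_sub, h2, d_d, sub_zero]
    obtain ⟨c₂, hc₂, hres⟩ := exists_extend htriv hS hc₁
    have hST : S ≤ S ⊔ I := le_sup_left
    have hT : IsOpen ((S ⊔ I : Subgroup G) : Set G) := Subgroup.isOpen_mono hST hS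
    have hdc₂ : d c₂ = 0 := by
      funext t
      have hmem : ∀ s ∈ S ⊔ I, ∃ g ∈ S, ∃ n ∈ I, s = g * n := by
        intro s hs
        rw [← SetLike.mem_coe, Subgroup.mul_normal, Set.mem_mul] at hs
        obtain ⟨g, hg, n, hn, h⟩ := hs
        exact ⟨g, hg, n, hn, h.symm⟩
      choose g hg a ha hs using fun i => hmem (t i) (t i).2
      have h1 := (d_mem hc₂).2.1 (fun i => (⟨g i, hST (hg i)⟩ : (S ⊔ I : Subgroup G)))
        (fun i => ⟨a i, (le_sup_right : I ≤ S ⊔ I) (ha i)⟩) fun i => ha i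
      have h2 : (fun i => (⟨g i, hST (hg i)⟩ : (S ⊔ I : Subgroup G)) *
          ⟨a i, (le_sup_right : I ≤ S ⊔ I) (ha i)⟩) = t := by
        funext i
        exact Subtype.ext (hs i).symm
      rw [h2] at h1
      have h3 : (fun x : Fin (m + 2) → S =>
          c₂ fun i => (⟨(x i : G), hST (x i).2⟩ : (S ⊔ I : Subgroup G))) = c₁ := funext hres
      have h4 := congrFun (d_comp (fun y : S => (⟨(y : G), hST y.2⟩ : (S ⊔ I : Subgroup G))) c₂)
        (fun i => (⟨g i, hg i⟩ : S))
      rw [h3, hdc₁] at h4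
      rw [h1]
      exact h4.symm
    obtain ⟨r, hr⟩ := exists_retr (G := G) (S := S ⊔ I) (N := I) hT le_sup_right
    obtain ⟨P, hP, hdP⟩ := a21_compare hS hST hcS hcd' hb₁ hdb hc₂ hdc₂ hres hr
    have hc₃ : (fun x : Fin (m + 2) → G => c₂ fun i => r (x i)) ∈ Coch M (S ⊔ I) I (m + 1) :=
      Retr.comp hT hr hc₂
    refine ⟨S.relIndex (S ⊔ I) • tr (S ⊔ I) (fun x : Fin (m + 2) → G => c₂ fun i => r (x i)),
      nsmul_mem (tr_mem hT hc₃) _, tr S P, tr_mem hS hP, ?_⟩
    rw [dHom_apply, d_tr hS, hdP, tr_sub hS, tr_self hS hcc, tr_tr hS hST hc₃]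

end GC
end
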