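import Mathlib
import Pool.Agent.Lib.MP_859dd5_ag.Mg.G059
import Pool.Agent.Lib.MP_859dd5_ag.Mg.G034
import Pool.Agent.Lib.MP_859dd5_ag.Mg.G027

section

/-!
# The Galois group of an algebraically closed algebraic extension is compact
-/

namespace GC

universe u v

/-- TASK V0 (first statement). An element fixed by all automorphisms is purely inseparable.

PROOF. All roots in `Ω` of the minimal polynomial of `x` are conjugates of `x` under
`Ω ≃ₐ[F] Ω` (`Normal`, extension of embeddings), so `x` is the only root: `natSepDegree = 1`, so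
`x ^ q ^ n ∈ F` for some `n`, `q = ringExpChar F` (`minpoly.natSepDegree_eq_one_iff_pow_mem` or
`mem_perfectClosure_iff_natSepDegree_eq_one`, `mem_perfectClosure_iff`). -/
theorem pow_mem_of_fixed {F : Type u} {Ω : Type v} [Field F] [Field Ω] [Algebra F Ω]
    [IsAlgClosed Ω] [Algebra.IsAlgebraic F Ω] {x : Ω} (hx : ∀ g : Ω ≃ₐ[F] Ω, g x = x) :
    ∃ n : ℕ, x ^ ringExpChar F ^ n ∈ (algebraMap F Ω).range := by
  classical
  have hac : IsAlgClosure F Ω := ⟨inferInstance, inferInstance⟩
  have hnorm : Normal F Ω := IsAlgClosure.normal F Ω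
  have hint : IsIntegral F x := Algebra.IsIntegral.isIntegral x
  have hne : minpoly F x ≠ 0 := minpoly.ne_zero hint
  have hset : ((minpoly F x).aroots Ω).toFinset = {x} := by
    ext y
    rw [Multiset.mem_toFinset, Finset.mem_singleton, ← isConjRoot_iff_mem_minpoly_aroots hint]
    constructor
    · intro h
      obtain ⟨g, hg⟩ := isConjRoot_iff_exists_algEquiv.1 h
      have h1 := hx g.symm
      rw [← h1, ← hg, AlgEquiv.symm_apply_apply]
    · rintro rfl
      exact IsConjRoot.refl
  have hdeg : (minpoly F x).natSepDegree = 1 := by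
    rw [Polynomial.natSepDegree_eq_of_isAlgClosed Ω, hset, Finset.card_singleton]
  exact mem_perfectClosure_iff.1 (mem_perfectClosure_iff_natSepDegree_eq_one.2 hdeg)

/-- TASK V0 (second statement). The group `Ω ≃ₐ[F] Ω` is compact.

PROOF. Let `E = perfectClosure F Ω`. `E` is perfect (`perfectClosure.perfectField`), so `Ω / E` is
separable, normal, hence Galois, and `Ω ≃ₐ[E] Ω` is compact (Mathlib, `InfiniteGalois`). The map
`AlgEquiv.restrictScalars F : (Ω ≃ₐ[E] Ω) → (Ω ≃ₐ[F] Ω)` is continuous (if `E₀ / F` is a finite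
subextension, the preimage of its fixing subgroup contains the fixing subgroup of the finite
extension `E E₀ / E`) and surjective (`g ∈ Ω ≃ₐ[F] Ω` fixes `E`: `x ^ q ^ n ∈ F` and the Frobenius is
injective). So the image `univ` is compact. -/
instance compactSpace_gal {F : Type u} {Ω : Type v} [Field F] [Field Ω] [Algebra F Ω]
    [IsAlgClosed Ω] [Algebra.IsAlgebraic F Ω] : CompactSpace (Ω ≃ₐ[F] Ω) := by
  classical
  let E := perfectClosure F Ω
  have : PerfectField E := perfectClosure.perfectField F Ω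
  have : Algebra.IsAlgebraic E Ω := Algebra.IsAlgebraic.tower_top (K := F) E
  have : Algebra.IsSeparable E Ω := inferInstance
  have : IsAlgClosure E Ω := ⟨inferInstance, inferInstance⟩
  have : Normal E Ω := IsAlgClosure.normal E Ω
  have : IsGalois E Ω := ⟨⟩
  have hcomp : CompactSpace (Ω ≃ₐ[E] Ω) := inferInstance
  let r : (Ω ≃ₐ[E] Ω) →* (Ω ≃ₐ[F] Ω) := AlgEquiv.restrictScalarsHom F
  have hr : ∀ (g : Ω ≃ₐ[E] Ω) (x : Ω), r g x = g x := fun g x => rfl
  have hcont : Continuous r := by
    refine continuous_of_continuousAt_one r ?_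
    intro s hs
    rw [map_one] at hs
    obtain ⟨E0, hfin, hE0⟩ := (krullTopology_mem_nhds_one_iff F Ω s).1 hs
    have := hfin
    let b := Module.finBasis F E0
    have hmem : (⋂ i, (MulAction.stabilizer (Ω ≃ₐ[E] Ω) ((b i : E0) : Ω) :
        Set (Ω ≃ₐ[E] Ω))) ∈ nhds (1 : Ω ≃ₐ[E] Ω) := by
      refine (isOpen_iInter_of_finite fun i => ?_).mem_nhds ?_
      · exact stabilizer_isOpen_of_isIntegral _
      · simp
    rw [Filter.mem_map]
    refine Filter.mem_of_superset hmem fun g hg => hE0 ?_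
    rw [SetLike.mem_coe, IntermediateField.mem_fixingSubgroup_iff]
    intro y hy
    have h1 : (∑ i, b.repr ⟨y, hy⟩ i • ((b i : E0) : Ω)) = y := by
      have h0 := congrArg E0.val (b.sum_repr ⟨y, hy⟩)
      rw [map_sum] at h0
      simp_rw [map_smul] at h0
      exact h0
    rw [← h1, map_sum]
    refine Finset.sum_congr rfl fun i _ => ?_
    rw [map_smul]
    congr 1
    have h2 := Set.mem_iInter.1 hg i
    exact h2
  have hsurj : Function.Surjective r := by
    intro g
    have hfix : ∀ x : E, g (x : Ω) = x := by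
      intro x
      obtain ⟨n, y, hy⟩ := mem_perfectClosure_iff.1 x.2
      have : ExpChar Ω (ringExpChar F) :=
        expChar_of_injective_algebraMap (algebraMap F Ω).injective (ringExpChar F)
      refine iterateFrobenius_inj Ω (ringExpChar F) n ?_
      rw [iterateFrobenius_def, iterateFrobenius_def, ← map_pow, ← hy, AlgEquiv.commutes]
    refine ⟨AlgEquiv.ofRingEquiv (f := g.toRingEquiv) fun x => hfix x, ?_⟩
    ext x
    rfl
  have huniv : IsCompact (Set.univ : Set (Ω ≃ₐ[F] Ω)) := by
    rw [← Set.range_eq_univ.2 hsurj]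
    exact isCompact_range hcont
  exact ⟨huniv⟩

end GC
end

section

/-!
# The Galois group of an algebraic extension
-/

namespace GC

universe u v w

variable {K L : Type u} [Field K] [Field L] [Algebra K L]
  {φ : AlgebraicClosure K →+* AlgebraicClosure L}

/-- TASK B5 (first statement). For an algebraic extension the embedding is bijective.

PROOF. `AlgebraicClosure L` is algebraic over `K`, and the image of `φ` is algebraically closed. -/
theorem ext_bijective [Algebra.IsAlgebraic K L] (hφ : Ext (algebraMap K L) φ) :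
    Function.Bijective φ := by
  apply IsAlgClosed.ringHom_bijective_of_isIntegral
  intro x
  have hx : IsIntegral K x := by
    have : Algebra.IsAlgebraic K (AlgebraicClosure L) :=
      Algebra.IsAlgebraic.trans K L (AlgebraicClosure L)
    exact (Algebra.IsAlgebraic.isAlgebraic (R := K) x).isIntegral
  obtain ⟨p, hp, hpx⟩ := hx
  refine ⟨p.map (algebraMap K (AlgebraicClosure K)), hp.map _, ?_⟩
  rw [Polynomial.eval₂_map]
  have h : φ.comp (algebraMap K (AlgebraicClosure K)) = algebraMap K (AlgebraicClosure L) := by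
    ext a
    rw [RingHom.comp_apply, hφ a, ← IsScalarTower.algebraMap_apply]
  rw [h]
  exact hpx

/-- The isomorphism of the algebraic closures. -/
noncomputable def b5_equiv [Algebra.IsAlgebraic K L] (hφ : Ext (algebraMap K L) φ) :
    AlgebraicClosure K ≃ₐ[K] AlgebraicClosure L :=
  AlgEquiv.ofBijective (AlgHom.mk φ fun a => by
    change φ (algebraMap K _ a) = _
    rw [hφ a, ← IsScalarTower.algebraMap_apply]) (ext_bijective hφ)

theorem b5_equiv_apply [Algebra.IsAlgebraic K L] (hφ : Ext (algebraMap K L) φ)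
    (x : AlgebraicClosure K) : b5_equiv hφ x = φ x := rfl

theorem b5_apply_symm [Algebra.IsAlgebraic K L] (hφ : Ext (algebraMap K L) φ)
    (y : AlgebraicClosure L) : φ ((b5_equiv hφ).symm y) = y :=
  (b5_equiv hφ).apply_symm_apply y

theorem b5_symm_apply [Algebra.IsAlgebraic K L] (hφ : Ext (algebraMap K L) φ)
    (x : AlgebraicClosure K) : (b5_equiv hφ).symm (φ x) = x :=
  (b5_equiv hφ).symm_apply_apply x

/-- TASK B5 (second statement). The homomorphism of Galois groups is injective. -/
theorem pull_injective [Algebra.IsAlgebraic K L] (hφ : Ext (algebraMap K L) φ) :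
    Function.Injective (pull hφ) := by
  intro h h' e
  ext y
  obtain ⟨x, rfl⟩ := (ext_bijective hφ).2 y
  rw [← pull_spec hφ h x, ← pull_spec hφ h' x, e]

/-- Lifting of automorphisms. -/
theorem b5_lift [Algebra.IsAlgebraic K L] (hφ : Ext (algebraMap K L) φ) (g : AbsGal K)
    (hg : ∀ (a : L) (x : AlgebraicClosure K), φ x = algebraMap L _ a → g x = x) :
    ∃ h : AbsGal L, pull hφ h = g ∧ ∀ y, h y = φ (g ((b5_equiv hφ).symm y)) := by
  let s : AlgebraicClosure L ≃ₐ[K] AlgebraicClosure L :=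
    (b5_equiv hφ).symm.trans (g.trans (b5_equiv hφ))
  have hs : ∀ y, s y = φ (g ((b5_equiv hφ).symm y)) := fun y => rfl
  let h : AbsGal L := AlgEquiv.ofRingEquiv (f := (s : AlgebraicClosure L ≃+* AlgebraicClosure L))
    fun a => by
      change s (algebraMap L _ a) = _
      rw [hs, hg a _ (b5_apply_symm hφ _), b5_apply_symm]
  refine ⟨h, (eq_pull hφ h fun x => ?_).symm, fun y => hs y⟩
  change φ (g x) = s (φ x)
  rw [hs, b5_symm_apply]

/-- TASK B5 (third statement). Its image is the fixing group of `L`.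

PROOF. If `g` fixes `φ⁻¹ (L)` then `φ g φ⁻¹` is an automorphism over `L`. -/
theorem mem_range_pull [Algebra.IsAlgebraic K L] (hφ : Ext (algebraMap K L) φ)
    (g : AbsGal K) : g ∈ (pull hφ).range ↔
      ∀ (a : L) (x : AlgebraicClosure K), φ x = algebraMap L _ a → g x = x := by
  constructor
  · rintro ⟨h, rfl⟩ a x hx
    apply φ.injective
    rw [pull_spec, hx, h.commutes]
  · intro hg
    obtain ⟨h, hh, -⟩ := b5_lift hφ g hg
    exact ⟨h, hh⟩

/-- TASK B5 (fifth statement). The homomorphism `pull` maps open subgroups onto open subgroups, if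
`L` is finite over `K`.

PROOF. `AbsGal L` is compact and `AbsGal K` is Hausdorff, so the continuous injective homomorphism is
a homeomorphism onto its image, which is open. -/
theorem isOpen_map_pull [FiniteDimensional K L] (hφ : Ext (algebraMap K L) φ)
    {U : Subgroup (AbsGal L)} (hU : IsOpen (U : Set (AbsGal L))) :
    IsOpen ((U.map (pull hφ) : Subgroup (AbsGal K)) : Set (AbsGal K)) := by
  have hUn : (U : Set (AbsGal L)) ∈ nhds (1 : AbsGal L) := hU.mem_nhds (one_mem U)
  rw [krullTopology_mem_nhds_one_iff] at hUn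
  obtain ⟨E, hE, hEU⟩ := hUn
  have hfin : FiniteDimensional K E := FiniteDimensional.trans K L E
  have hfin' : FiniteDimensional K (E.restrictScalars K) := hfin
  let E' : IntermediateField K (AlgebraicClosure K) :=
    (E.restrictScalars K).map ((b5_equiv hφ).symm : AlgebraicClosure L →ₐ[K] AlgebraicClosure K)
  have hE' : FiniteDimensional K E' := LinearEquiv.finiteDimensional
    (IntermediateField.equivMap (E.restrictScalars K)
      ((b5_equiv hφ).symm : AlgebraicClosure L →ₐ[K] AlgebraicClosure K)).toLinearEquiv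
  refine Subgroup.isOpen_mono (H₁ := E'.fixingSubgroup) ?_ E'.fixingSubgroup_isOpen
  intro g hg
  have hfix : ∀ y ∈ E, g ((b5_equiv hφ).symm y) = (b5_equiv hφ).symm y := by
    intro y hy
    rw [IntermediateField.mem_fixingSubgroup_iff] at hg
    exact hg _ ⟨y, hy, rfl⟩
  obtain ⟨h, hh, hhy⟩ := b5_lift hφ g fun a x hx => by
    have h1 := hfix (algebraMap L _ a) (E.algebraMap_mem a)
    rw [← hx, b5_symm_apply] at h1
    exact h1
  refine ⟨h, hEU ?_, hh⟩
  rw [SetLike.mem_coe, IntermediateField.mem_fixingSubgroup_iff]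
  intro y hy
  rw [hhy, hfix y hy, b5_apply_symm]

/-- TASK B5 (fourth statement). The image is open if `L` is finite over `K`.

PROOF. It contains (is) the fixing subgroup of the finite extension `φ⁻¹ (L)` of `K`. -/
theorem isOpen_range_pull [FiniteDimensional K L] (hφ : Ext (algebraMap K L) φ) :
    IsOpen ((pull hφ).range : Set (AbsGal K)) := by
  rw [MonoidHom.range_eq_map]
  exact isOpen_map_pull hφ isOpen_univ

/-- TASK B5 (sixth statement). The index divides the degree.

PROOF. Let `L' = φ⁻¹ (L)`, an intermediate field isomorphic to `L`. The group `AbsGal K` acts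
transitively on the set of the embeddings `L' →ₐ[K] AlgebraicClosure K` (`Normal`), and the stabilizer
of the inclusion is the image. So the index is the number of embeddings, `Field.finSepDegree K L`,
which divides `Module.finrank K L` (`Field.finSepDegree_dvd_finrank`). -/
theorem index_range_pull_dvd [FiniteDimensional K L] (hφ : Ext (algebraMap K L) φ) :
    (pull hφ).range.index ∣ Module.finrank K L := by
  have halg : Algebra.IsAlgebraic K (AlgebraicClosure L) :=
    Algebra.IsAlgebraic.trans K L (AlgebraicClosure L)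
  have hcl : IsAlgClosure K (AlgebraicClosure L) := ⟨inferInstance, halg⟩
  have hn : Normal K (AlgebraicClosure L) := IsAlgClosure.normal K (AlgebraicClosure L)
  let Ψ : AbsGal K → Field.Emb K L := fun g =>
    (((b5_equiv hφ).symm.trans (g.trans (b5_equiv hφ)) : AlgebraicClosure L ≃ₐ[K]
      AlgebraicClosure L) : AlgebraicClosure L →ₐ[K] AlgebraicClosure L).comp
      (IsScalarTower.toAlgHom K L (AlgebraicClosure L))
  have hΨ : ∀ (g : AbsGal K) (a : L), Ψ g a = φ (g ((b5_equiv hφ).symm (algebraMap L _ a))) :=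
    fun _ _ => rfl
  have key : ∀ g g' : AbsGal K, Ψ g = Ψ g' ↔ g⁻¹ * g' ∈ (pull hφ).range := by
    intro g g'
    rw [mem_range_pull]
    constructor
    · intro h a x hx
      have h1 := DFunLike.congr_fun h a
      rw [hΨ, hΨ, ← hx, b5_symm_apply] at h1
      have h2 := φ.injective h1
      rw [AlgEquiv.mul_apply, ← h2, ← AlgEquiv.mul_apply, inv_mul_cancel]
      rfl
    · intro h
      ext a
      rw [hΨ, hΨ]
      have h1 := h a _ (b5_apply_symm hφ (algebraMap L _ a))
      rw [AlgEquiv.mul_apply] at h1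
      have h2 := congrArg g h1
      rw [← AlgEquiv.mul_apply, mul_inv_cancel] at h2
      rw [← h2]
      rfl
  have hsurj : Function.Surjective Ψ := by
    intro τ
    let s : AlgebraicClosure L ≃ₐ[K] AlgebraicClosure L :=
      AlgEquiv.ofBijective (AlgHom.liftNormal τ (AlgebraicClosure L))
        (AlgHom.normal_bijective K (AlgebraicClosure L) (AlgebraicClosure L) _)
    have hs : ∀ a : L, s (algebraMap L _ a) = τ a := fun a =>
      AlgHom.liftNormal_commutes τ (AlgebraicClosure L) a
    refine ⟨(b5_equiv hφ).trans (s.trans (b5_equiv hφ).symm), ?_⟩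
    ext a
    rw [hΨ]
    change φ ((b5_equiv hφ).symm (s (b5_equiv hφ ((b5_equiv hφ).symm (algebraMap L _ a))))) = _
    rw [b5_apply_symm, AlgEquiv.apply_symm_apply, hs]
  have hcard : Nat.card (AbsGal K ⧸ (pull hφ).range) = Nat.card (Field.Emb K L) := by
    refine Nat.card_eq_of_bijective (Quotient.lift Ψ fun g g' h => ?_) ⟨?_, ?_⟩
    · exact (key g g').2 (QuotientGroup.leftRel_apply.1 h)
    · intro q q'
      induction q using Quotient.inductionOn with
      | h g =>
        induction q' using Quotient.inductionOn with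
        | h g' =>
          intro h
          exact Quotient.sound (QuotientGroup.leftRel_apply.2 ((key g g').1 h))
    · intro τ
      obtain ⟨g, hg⟩ := hsurj τ
      exact ⟨Quotient.mk _ g, hg⟩
  rw [Subgroup.index, hcard]
  exact Field.finSepDegree_dvd_finrank K L

/-- TASK B5 (seventh statement). The Galois case: for a Galois extension the image is normal, its
index is the degree, and the cosets correspond to the Galois group.

PROOF. For `g ∈ AbsGal K` the automorphism `φ g φ⁻¹` of `AlgebraicClosure L` preserves `L` (`L` is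
normal over `K`); let `quo g` be its restriction to `L`. It is a surjective homomorphism
(extension of automorphisms), and its kernel is the image of `pull`. -/
theorem exists_quo [Normal K L] (hφ : Ext (algebraMap K L) φ) :
    ∃ quo : AbsGal K →* (L ≃ₐ[K] L), Function.Surjective quo ∧ quo.ker = (pull hφ).range ∧
      ∀ (g : AbsGal K) (a : L) (x : AlgebraicClosure K), φ x = algebraMap L _ a →
        φ (g x) = algebraMap L _ (quo g a) := by
  have halg' : Algebra.IsAlgebraic K L := inferInstance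
  have halg : Algebra.IsAlgebraic K (AlgebraicClosure L) :=
    Algebra.IsAlgebraic.trans K L (AlgebraicClosure L)
  have hcl : IsAlgClosure K (AlgebraicClosure L) := ⟨inferInstance, halg⟩
  have hn : Normal K (AlgebraicClosure L) := IsAlgClosure.normal K (AlgebraicClosure L)
  let quo : AbsGal K →* (L ≃ₐ[K] L) :=
    (AlgEquiv.restrictNormalHom (F := K) (K₁ := AlgebraicClosure L) L).comp
      (AlgEquiv.autCongr (b5_equiv hφ)).toMonoidHom
  have hspec : ∀ (g : AbsGal K) (a : L) (x : AlgebraicClosure K), φ x = algebraMap L _ a →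
      φ (g x) = algebraMap L _ (quo g a) := by
    intro g a x hx
    have h1 := AlgEquiv.restrictNormal_commutes (AlgEquiv.autCongr (b5_equiv hφ) g) L a
    have h2 : algebraMap L (AlgebraicClosure L) (quo g a) =
        AlgEquiv.autCongr (b5_equiv hφ) g (algebraMap L _ a) := h1
    rw [h2, ← hx]
    change φ (g x) = φ (g ((b5_equiv hφ).symm (φ x)))
    rw [b5_symm_apply]
  refine ⟨quo, ?_, ?_, hspec⟩
  · exact (AlgEquiv.restrictNormalHom_surjective (AlgebraicClosure L)).comp
      (AlgEquiv.autCongr (b5_equiv hφ)).surjective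
  · ext g
    rw [mem_range_pull, MonoidHom.mem_ker]
    constructor
    · intro h a x hx
      apply φ.injective
      rw [hspec g a x hx, h, hx]
      rfl
    · intro h
      ext a
      apply (algebraMap L (AlgebraicClosure L)).injective
      have h1 := hspec g a _ (b5_apply_symm hφ (algebraMap L _ a))
      rw [← h1, h a _ (b5_apply_symm hφ _), b5_apply_symm]
      rfl

theorem index_range_pull [FiniteDimensional K L] [IsGalois K L]
    (hφ : Ext (algebraMap K L) φ) : (pull hφ).range.index = Module.finrank K L := by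
  obtain ⟨quo, hs, hk, -⟩ := exists_quo hφ
  rw [← hk, Subgroup.index_ker, MonoidHom.range_eq_top.2 hs, Subgroup.card_top]
  exact IsGalois.card_aut_eq_finrank K L

end GC
end

section

/-!
# Dimension shifting
-/

namespace GC

universe u v w z

variable {Γ : Type u} [Group Γ] [TopologicalSpace Γ] [IsTopologicalGroup Γ] [CompactSpace Γ]
  [TotallyDisconnectedSpace Γ]

/-- A short exact sequence of modules. -/
structure SES (Γ : Type u) [Group Γ] {A : Type v} {B : Type w} {C : Type z} [AddCommGroup A]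
    [AddCommGroup B] [AddCommGroup C] [DistribMulAction Γ A] [DistribMulAction Γ B]
    [DistribMulAction Γ C] (i : A →+ B) (π : B →+ C) : Prop where
  i_smul : ∀ (g : Γ) (a : A), i (g • a) = g • i a
  π_smul : ∀ (g : Γ) (b : B), π (g • b) = g • π b
  inj : Function.Injective i
  surj : Function.Surjective π
  exact : ∀ b, π b = 0 ↔ ∃ a, i a = b

variable {A : Type v} {B : Type w} {C : Type z} [AddCommGroup A]
    [AddCommGroup B] [AddCommGroup C] [DistribMulAction Γ A] [DistribMulAction Γ B]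
    [DistribMulAction Γ C] {i : A →+ B} {π : B →+ C}

/-- TASK A8 (first statement). A cochain of the quotient lifts, and a cochain of the middle module
which vanishes in the quotient comes from the submodule.

PROOF. The first part is `lift_rel` (A4) with `N = ⊥` and `R b c := π b = c` (`g ∈ ⊥` is `1`); the
second part is `coch_of_values` (A4). -/
theorem SES.lift (h : SES Γ i π) (hB : Disc Γ B) {n : ℕ} {c : (Fin (n + 1) → Γ) → C}
    (hc : c ∈ Coch C (⊤ : Subgroup Γ) ⊥ n) :
    ∃ b ∈ Coch B (⊤ : Subgroup Γ) ⊥ n, ∀ x, π (b x) = c x := by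
  refine lift_rel hB (fun b c => π b = c) (fun g b c hbc => ?_) hc (fun x => ?_)
  · rw [h.π_smul, hbc]
  · obtain ⟨b, hb⟩ := h.surj (c x)
    refine ⟨b, hb, fun g hg => ?_⟩
    rw [Subgroup.mem_bot.1 hg, one_smul]

/-- TASK A8 (second statement). -/
theorem SES.pull (h : SES Γ i π) {n : ℕ} {S N : Subgroup Γ} {b : (Fin (n + 1) → Γ) → B}
    (hb : b ∈ Coch B S N n) (h0 : ∀ x, π (b x) = 0) :
    ∃ a ∈ Coch A S N n, ∀ x, i (a x) = b x := by
  exact coch_of_values i h.i_smul h.inj hb fun x => (h.exact _).1 (h0 x)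

/-- TASK A8 (third statement). `H^(j+1)(C) = 0` for `j ≥ k` if `H^(j+1)(B) = 0` and
`H^(j+2)(A) = 0` for `j ≥ k`.

PROOF. Let `c ∈ Coch C (j + 1)`, `d c = 0`, `k ≤ j`. Lift it to `b ∈ Coch B (j + 1)` (`SES.lift`).
`π (d b x) = d c x = 0` (`d_map`), so `d b = i ∘ a` with `a ∈ Coch A (j + 2)` (`SES.pull`, `d_mem`)
and `d a = 0` (injectivity of `i`, `d_map`, `d_d`). By `hA` (with `j + 1 ≥ k + 1`) `a = d a'` with
`a' ∈ Coch A (j + 1)`. Then `b - i ∘ a'` is a cocycle in `Coch B (j + 1)`, so it is `d β` by `hB`, and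
`c = π ∘ b = π ∘ (b - i ∘ a') = d (π ∘ β)`. -/
theorem SES.van_quot (h : SES Γ i π) (hB : Disc Γ B) {k : ℕ} (hvA : Van Γ A (k + 1))
    (hvB : Van Γ B k) : Van Γ C k := by
  intro j hj c hc hdc
  obtain ⟨b, hb, hbc⟩ := h.lift hB hc
  have hπ : ∀ x, π (d b x) = 0 := by
    intro x
    have h1 := congrFun (d_map π b) x
    have h2 : (fun x => π (b x)) = c := funext hbc
    rw [h2, hdc] at h1
    exact h1.symm
  obtain ⟨a, ha, hab⟩ := h.pull (d_mem hb) hπ
  have hda : d a = 0 := by
    funext x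
    apply h.inj
    have h1 := congrFun (d_map i a) x
    have h2 : (fun x => i (a x)) = d b := funext hab
    rw [h2, d_d] at h1
    rw [Pi.zero_apply, map_zero]
    exact h1.symm
  obtain ⟨a', ha', hda'⟩ := hvA (j + 1) (by omega) a ha hda
  have hia : (fun x => i (a' x)) ∈ Coch B (⊤ : Subgroup Γ) ⊥ (j + 1) := coch_map i h.i_smul ha'
  have hz : d (b - fun x => i (a' x)) = 0 := by
    rw [d_sub, d_map, hda']
    funext x
    rw [Pi.sub_apply, hab x, sub_self]
    rfl
  obtain ⟨β, hβ, hdβ⟩ := hvB j hj _ (sub_mem hb hia) hz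
  refine ⟨fun x => π (β x), coch_map π h.π_smul hβ, ?_⟩
  rw [d_map, hdβ]
  funext x
  rw [Pi.sub_apply, map_sub, hbc x, (h.exact _).2 ⟨_, rfl⟩, sub_zero]

/-- TASK A8 (fourth statement). `H^(j+2)(A) = 0` for `j ≥ k` if `H^(j+1)(C) = 0` and
`H^(j+2)(B) = 0` for `j ≥ k`.

PROOF. Let `a ∈ Coch A (j + 2)`, `d a = 0`, `j ≥ k` (an index `≥ k + 1` is `j + 1` with `j ≥ k`).
`i ∘ a` is a cocycle, so it is `d b` with `b ∈ Coch B (j + 1)`. `π ∘ b` is a cocycle, so it is `d γ`
with `γ ∈ Coch C j`. Lift `γ` to `β ∈ Coch B j`. `π ∘ (b - d β) = 0`, so `b - d β = i ∘ a'` with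
`a' ∈ Coch A (j + 1)`, and `i ∘ a = d b = d (b - d β) = i ∘ d a'`, so `a = d a'`. -/
theorem SES.van_sub (h : SES Γ i π) (hB : Disc Γ B) {k : ℕ} (hvC : Van Γ C k)
    (hvB : Van Γ B (k + 1)) : Van Γ A (k + 1) := by
  intro j hj a ha hda
  obtain ⟨j, rfl⟩ : ∃ m, j = m + 1 := ⟨j - 1, by omega⟩
  have hia : (fun x => i (a x)) ∈ Coch B (⊤ : Subgroup Γ) ⊥ (j + 1 + 1) :=
    coch_map i h.i_smul ha
  have hdi : d (fun x => i (a x)) = 0 := by
    rw [d_map, hda]
    funext x
    exact map_zero i
  obtain ⟨b, hb, hdb⟩ := hvB (j + 1) (by omega) _ hia hdi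
  have hπb : (fun x => π (b x)) ∈ Coch C (⊤ : Subgroup Γ) ⊥ (j + 1) := coch_map π h.π_smul hb
  have hdπb : d (fun x => π (b x)) = 0 := by
    rw [d_map, hdb]
    funext x
    exact (h.exact _).2 ⟨_, rfl⟩
  obtain ⟨γ, hγ, hdγ⟩ := hvC j (by omega) _ hπb hdπb
  obtain ⟨β, hβ, hβγ⟩ := h.lift hB hγ
  have h0 : ∀ x, π ((b - d β) x) = 0 := by
    intro x
    rw [Pi.sub_apply, map_sub]
    have h1 := congrFun (d_map π β) x
    have h2 : (fun x => π (β x)) = γ := funext hβγ
    rw [h2, hdγ] at h1
    exact sub_eq_zero.2 h1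
  obtain ⟨a', ha', haa'⟩ := h.pull (sub_mem hb (d_mem hβ)) h0
  refine ⟨a', ha', ?_⟩
  funext x
  apply h.inj
  have h1 := congrFun (d_map i a') x
  have h2 : (fun x => i (a' x)) = b - d β := funext haa'
  rw [h2, d_sub, d_d, sub_zero, hdb] at h1
  exact h1.symm

omit [IsTopologicalGroup Γ] [CompactSpace Γ] [TotallyDisconnectedSpace Γ] in
private lemma a8_map {A' : Type v} {B' : Type w} [AddCommGroup A'] [AddCommGroup B']
    [DistribMulAction Γ A'] [DistribMulAction Γ B'] (f : A' →+ B')
    (hf : ∀ (g : Γ) (a : A'), f (g • a) = g • f a) {n : ℕ} {b : (Fin (n + 1) → Γ) → A'}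
    (hb : b ∈ Coch A' (⊤ : Subgroup Γ) ⊥ n) :
    (fun x => f (b x)) ∈ Coch B' (⊤ : Subgroup Γ) ⊥ n := by
  obtain ⟨h1, h2, U, hU, h3⟩ := hb
  refine ⟨fun g hg x => ?_, fun x u hu => ?_, U, hU, fun x u hu => ?_⟩
  · change f (b _) = g • f (b x)
    rw [h1 g hg x, hf]
  · change f (b _) = f (b x)
    rw [h2 x u hu]
  · change f (b _) = f (b x)
    rw [h3 x u hu]

omit [IsTopologicalGroup Γ] [CompactSpace Γ] [TotallyDisconnectedSpace Γ] in
/-- TASK A8 (fifth statement). Invariance under isomorphisms.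

PROOF. Transport cochains by `e` and `e.symm` (`d_map`). -/
theorem van_congr (e : A ≃+ B) (he : ∀ (g : Γ) (a : A), e (g • a) = g • e a) {k : ℕ}
    (h : Van Γ A k) : Van Γ B k := by
  have hsymm : ∀ (g : Γ) (b : B), e.symm.toAddMonoidHom (g • b) = g • e.symm.toAddMonoidHom b := by
    intro g b
    apply e.injective
    change e (e.symm (g • b)) = e (g • e.symm b)
    rw [he, e.apply_symm_apply, e.apply_symm_apply]
  intro j hj c hc hdc
  have hd' : d (fun x => e.symm.toAddMonoidHom (c x)) = 0 := by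
    rw [d_map, hdc]
    funext x
    exact map_zero _
  obtain ⟨a, ha, hda⟩ := h j hj _ (a8_map e.symm.toAddMonoidHom hsymm hc) hd'
  refine ⟨fun x => e.toAddMonoidHom (a x), a8_map e.toAddMonoidHom he ha, ?_⟩
  rw [d_map, hda]
  funext x
  exact e.apply_symm_apply _

end GC
end

section

/-!
# The exact sequence of the induced module
-/

namespace GC

universe u v w z

variable {G : Type u} [Group G] [TopologicalSpace G] [IsTopologicalGroup G] [CompactSpace G]
  [TotallyDisconnectedSpace G] {M : Type v} [AddCommGroup M] [DistribMulAction G M]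

/-- TASK A9 (first statement). The exact sequence `0 → M → Ind → Q → 0` over `G`.

PROOF. `constI_smul`, `toQ_smul`; injectivity: evaluate at `1`; surjectivity: `q` is the image of
`x ↦ q 1 x` (`q x y = q 1 y - q 1 x` by `q.add' 1 x y`; smooth by `q.smooth` with `u = 1 ∈ U`);
exactness: `toQ b = 0` means `b y = b x` for all `x, y`. -/
theorem ses_ind (G : Type u) [Group G] [TopologicalSpace G] (M : Type v) [AddCommGroup M]
    [DistribMulAction G M] : SES G (constI G M) (toQ G M) where
  i_smul g a := constI_smul g a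
  π_smul g b := toQ_smul g b
  inj a b h := congrArg (fun f : IndM G M => f 1) h
  surj q := by
    refine ⟨⟨fun x => q 1 x, ?_⟩, QM.ext' fun x y => ?_⟩
    · obtain ⟨U, hU, hU'⟩ := q.smooth
      refine ⟨U, hU, fun x u hu => ?_⟩
      have h := hU' 1 x 1 (one_mem U) u hu
      rwa [mul_one] at h
    · show q 1 y - q 1 x = q x y
      rw [← q.add' 1 x y, add_sub_cancel_left]
  exact b := by
    constructor
    · intro h
      refine ⟨b 1, IndM.ext' fun x => ?_⟩
      have h1 : toQ G M b 1 x = 0 := by rw [h]; rfl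
      rw [toQ_apply, sub_eq_zero] at h1
      rw [constI_apply, h1]
    · rintro ⟨a, rfl⟩
      refine QM.ext' fun x y => ?_
      rw [toQ_apply, constI_apply, constI_apply, sub_self]
      rfl

/-- TASK A9 (second statement). The same sequence for a subgroup.

PROOF. Restrict the action in `ses_ind`. -/
theorem ses_ind_sub (N : Subgroup G) : SES N (constI G M) (toQ G M) where
  i_smul g a := constI_smul (g : G) a
  π_smul g b := toQ_smul (g : G) b
  inj := (ses_ind G M).inj
  surj := (ses_ind G M).surj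
  exact := (ses_ind G M).exact

/-- TASK A9 (third statement). If the cohomology groups of `N` with coefficients in `M` vanish in
degrees at least `k + 2`, then those of the quotient `Q` vanish in degrees at least `k + 1`.

PROOF. `SES.van_quot` (A8) for the group `N` (compact, since it is closed) and the sequence
`ses_ind_sub`, with `ind_acyclic_sub` (A6; `Van N (IndM G M) 0` gives `Van N (IndM G M) k`) and
`disc_sub (disc_ind hM) N` (A7). -/
theorem van_q {N : Subgroup G} (hN : IsClosed (N : Set G)) (hM : Disc G M) {k : ℕ}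
    (h : Van N M (k + 1)) : Van N (QM G M) k := by
  have : CompactSpace N := isCompact_iff_compactSpace.mp hN.isCompact
  exact SES.van_quot (ses_ind_sub N) (disc_sub (disc_ind hM) N) h
    (fun j _ => ind_acyclic_sub hN j (Nat.zero_le _))

/-- TASK A9 (fourth statement). If `H^1(N, M) = 0`, then the fixed elements of `Q` lift to fixed
elements of `Ind`.

PROOF. Let `b₀ : IndM G M` be a lift of `q` (surjectivity). For `n ∈ N`:
`toQ (n • b₀ - b₀) = n • q - q = 0`, so `n • b₀ - b₀ = constI (α n)` for a unique `α n : M`. The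
function `a (n_0, n_1) = α n_1 - α n_0` on `N × N` satisfies `constI (a (n_0, n_1)) =
n_1 • b₀ - n_0 • b₀`; it is a cochain in `Coch M ⊤ ⊥ 1` of the group `N` (equivariance from the
formula; smooth since `b₀` is fixed by an open subgroup, `disc_ind`, `disc_sub`: if `u` fixes `b₀`
then `(n u) • b₀ = n • b₀`), and `d a = 0`. By `h` `a = d a'` with
`a' ∈ Coch M ⊤ ⊥ 0`; put `m = a' 1`, so `a' n = n • m` by equivariance, and
`α n - α 1 = a (1, n) = n • m - m`, i.e. (as `α 1 = 0`) `n • b₀ - b₀ = constI (n • m - m)`. So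
`b = b₀ - constI m` is fixed by `N` and `toQ b = q`. -/
theorem exists_fixed_lift {N : Subgroup G} (hN : IsClosed (N : Set G)) (hM : Disc G M)
    (h : VanAt N M 0) {q : QM G M} (hq : ∀ n ∈ N, n • q = q) :
    ∃ b : IndM G M, toQ G M b = q ∧ ∀ n ∈ N, n • b = b := by
  obtain ⟨b₀, hb₀⟩ := (ses_ind G M).surj q
  have hinj := (ses_ind G M).inj
  have hex : ∀ n : N, ∃ m : M, constI G M m = (n : G) • b₀ - b₀ := fun n =>
    ((ses_ind G M).exact _).1 (by rw [map_sub, toQ_smul, hb₀, hq n n.2, sub_self])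
  choose α hα using hex
  have hα1 : α 1 = 0 := by
    apply hinj
    rw [hα, map_zero]
    show (1 : G) • b₀ - b₀ = 0
    rw [one_smul, sub_self]
  obtain ⟨a, ha⟩ : ∃ a : (Fin 2 → N) → M, a = fun x => α (x 1) - α (x 0) := ⟨_, rfl⟩
  have hmem : a ∈ Coch M (⊤ : Subgroup N) ⊥ 1 := by
    refine ⟨?_, ?_, ?_⟩
    · intro g _ x
      rw [ha]
      apply hinj
      show constI G M (α (g * x 1) - α (g * x 0)) = constI G M ((g : G) • (α (x 1) - α (x 0)))
      rw [constI_smul, map_sub, map_sub, hα, hα, hα, hα]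
      show ((g : G) * (x 1 : G)) • b₀ - b₀ - (((g : G) * (x 0 : G)) • b₀ - b₀) = _
      rw [sub_sub_sub_cancel_right, sub_sub_sub_cancel_right, smul_sub, mul_smul, mul_smul]
    · intro x u hu
      congr 1
      funext i
      rw [Subgroup.mem_bot.1 (hu i), mul_one]
    · obtain ⟨U, hU, hU'⟩ := disc_sub (disc_ind hM) N b₀
      refine ⟨U, hU, fun x u hu => ?_⟩
      have key : ∀ y v : N, v ∈ U → α (y * v) = α y := by
        intro y v hv
        apply hinj
        rw [hα, hα]
        have h1 : (v : G) • b₀ = b₀ := hU' v hv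
        show ((y : G) * (v : G)) • b₀ - b₀ = _
        rw [mul_smul, h1]
      rw [ha]
      show α (x 1 * u 1) - α (x 0 * u 0) = α (x 1) - α (x 0)
      rw [key _ _ (hu 1), key _ _ (hu 0)]
  have hda : d a = 0 := by
    funext x
    rw [ha]
    show ∑ j : Fin 3, (-1 : ℤ) ^ (j : ℕ) • (α (x (j.succAbove 1)) - α (x (j.succAbove 0))) = 0
    rw [Fin.sum_univ_three]
    show (-1 : ℤ) ^ 0 • (α (x 2) - α (x 1)) + (-1 : ℤ) ^ 1 • (α (x 2) - α (x 0)) +
      (-1 : ℤ) ^ 2 • (α (x 1) - α (x 0)) = 0
    simp only [pow_zero, one_smul, pow_one, neg_smul, even_two, Even.neg_pow, one_pow]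
    abel
  obtain ⟨a', ha', hda'⟩ := h a hmem hda
  obtain ⟨m, hm⟩ : ∃ m : M, m = a' (fun _ => 1) := ⟨_, rfl⟩
  have heq : ∀ n : N, a' (fun _ => n) = (n : G) • m := by
    intro n
    have h1 := ha'.1 n trivial (fun _ => 1)
    rw [← hm] at h1
    simp only [mul_one] at h1
    exact h1
  have hαn : ∀ n : N, α n = (n : G) • m - m := by
    intro n
    have h1 : d a' ![1, n] = a ![1, n] := by rw [hda']
    rw [ha] at h1
    have h2 : d a' ![1, n] = a' (fun _ => n) - a' (fun _ => 1) := by
      show ∑ j : Fin 2, (-1 : ℤ) ^ (j : ℕ) • a' (fun i => (![1, n] : Fin 2 → N) (j.succAbove i)) = _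
      rw [Fin.sum_univ_two]
      have e1 : (fun i : Fin 1 => (![1, n] : Fin 2 → N) ((0 : Fin 2).succAbove i)) =
          fun _ => n := by
        funext i
        rw [Subsingleton.elim i 0]
        rfl
      have e2 : (fun i : Fin 1 => (![1, n] : Fin 2 → N) ((1 : Fin 2).succAbove i)) =
          fun _ => 1 := by
        funext i
        rw [Subsingleton.elim i 0]
        rfl
      rw [e1, e2]
      simp [sub_eq_add_neg]
    rw [h2, heq, ← hm] at h1
    have h3 : α n - α 1 = (n : G) • m - m := h1.symm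
    rw [hα1, sub_zero] at h3
    exact h3
  refine ⟨b₀ - constI G M m, ?_, ?_⟩
  · rw [map_sub, hb₀, ((ses_ind G M).exact _).2 ⟨m, rfl⟩, sub_zero]
  · intro n hn
    have h1 := hα ⟨n, hn⟩
    rw [hαn ⟨n, hn⟩, map_sub, constI_smul] at h1
    have h2 : n • constI G M m - constI G M m = n • b₀ - b₀ := h1
    rw [smul_sub]
    have h3 : n • b₀ = n • constI G M m - constI G M m + b₀ := by rw [h2]; abel
    rw [h3]
    abel

end GC
end

section

/-!
# Local primitives
-/

namespace GC

open scoped Pointwise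

universe u v w

variable {G : Type u} [Group G] [TopologicalSpace G] [IsTopologicalGroup G] [CompactSpace G]
  [TotallyDisconnectedSpace G]

omit [IsTopologicalGroup G] [CompactSpace G] [TotallyDisconnectedSpace G] in
/-- The extension of a cochain of `D` to `S = D N`. -/
theorem a24_core {N D S : Subgroup G} [N.Normal] (hDS : D ≤ S)
    (hS' : ∀ s ∈ S, ∃ g ∈ D, ∃ n ∈ N, s = g * n) {E : Type v} [AddCommGroup E]
    [DistribMulAction G E] (htriv : ∀ n ∈ N, ∀ χ : E, n • χ = χ) {n : ℕ}
    {f : (Fin (n + 1) → D) → E}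
    (hf1 : ∀ (g : D) (x : Fin (n + 1) → D), f (fun i => g * x i) = g • f x)
    (hf2 : RInv (N.subgroupOf D) f) (V : Subgroup D)
    (hV : ∀ x v : Fin (n + 1) → D, (∀ i, v i ∈ V) → f (fun i => x i * v i) = f x)
    (W' : Subgroup S) (hW' : IsOpen (W' : Set S))
    (hW : ∀ (g : D), ∀ m ∈ N, ∀ w ∈ W', ∃ v ∈ V, ∃ m' ∈ N,
      (g : G) * m * (w : G) = g * (v : D) * m') :
    ∃ f' ∈ Coch E (⊤ : Subgroup S) (N.subgroupOf S) n,
      ∀ x : Fin (n + 1) → D, f' (fun i => ⟨(x i : G), hDS (x i).2⟩) = f x := by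
  have hδ : ∀ s : S, ∃ g : D, ∃ m ∈ N, (s : G) = g * m := by
    intro s
    obtain ⟨g, hg, m, hm, h⟩ := hS' s s.2
    exact ⟨⟨g, hg⟩, m, hm, h⟩
  choose δ ν hν hδν using hδ
  -- independence of the choice
  have key : ∀ (s : Fin (n + 1) → S) (g : Fin (n + 1) → D) (m : Fin (n + 1) → G),
      (∀ i, m i ∈ N) → (∀ i, (s i : G) = g i * m i) → f (fun i => δ (s i)) = f g := by
    intro s g m hm hs
    have h1 : ∀ i, (δ (s i))⁻¹ * g i ∈ N.subgroupOf D := by
      intro i
      rw [Subgroup.mem_subgroupOf]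
      have h2 : (((δ (s i))⁻¹ * g i : D) : G) = ν (s i) * (m i)⁻¹ := by
        have h3 := hδν (s i)
        rw [hs i] at h3
        rw [Subgroup.coe_mul, Subgroup.coe_inv]
        rw [inv_mul_eq_iff_eq_mul, ← mul_assoc, ← h3, mul_assoc, mul_inv_cancel, mul_one]
      rw [h2]
      exact N.mul_mem (hν _) (N.inv_mem (hm i))
    have h2 := hf2 (fun i => δ (s i)) (fun i => (δ (s i))⁻¹ * g i) h1
    rw [← h2]
    congr 1
    funext i
    group
  refine ⟨fun s => f (fun i => δ (s i)), ⟨fun g _ x => ?_, fun x u hu => ?_, W', hW',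
    fun x w hw => ?_⟩, fun x => ?_⟩
  · -- equivariance
    have h1 := key (fun i => g * x i) (fun i => δ g * δ (x i))
      (fun i => ((δ (x i) : D) : G)⁻¹ * ν g * δ (x i) * ν (x i)) (fun i => by
        refine N.mul_mem ?_ (hν _)
        have := Subgroup.Normal.conj_mem (inferInstance : N.Normal) (ν g) (hν g)
          ((δ (x i) : D) : G)⁻¹
        simpa using this) (fun i => by
        have h2 := hδν g
        have h3 := hδν (x i)
        rw [Subgroup.coe_mul, h3, Subgroup.coe_mul]
        conv_lhs => rw [h2]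
        group)
    show f (fun i => δ (g * x i)) = g • f (fun i => δ (x i))
    rw [h1, hf1]
    have h2 : (g : G) • f (fun i => δ (x i)) = (δ g : G) • f (fun i => δ (x i)) := by
      conv_lhs => rw [hδν g]
      rw [mul_smul, htriv _ (hν g)]
    exact h2.symm
  · show f (fun i => δ (x i * u i)) = f (fun i => δ (x i))
    refine key _ _ (fun i => ν (x i) * (u i : G)) (fun i => N.mul_mem (hν _) (hu i)) fun i => ?_
    rw [Subgroup.coe_mul]
    conv_lhs => rw [hδν (x i)]
    rw [mul_assoc]
  · show f (fun i => δ (x i * w i)) = f (fun i => δ (x i))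
    choose v hv m' hm' hvm using fun i => hW (δ (x i)) (ν (x i)) (hν _) (w i) (hw i)
    rw [key (fun i => x i * w i) (fun i => δ (x i) * v i) m' hm' fun i => by
      rw [Subgroup.coe_mul, Subgroup.coe_mul, ← hvm i]
      conv_lhs => rw [hδν (x i)]]
    exact hV _ _ hv
  · exact key _ x (fun _ => 1) (fun _ => N.one_mem) fun i => by
      rw [mul_one]

/-- TASK A24 (first statement). Let `S = D N` be an open subgroup. A cochain of `D` which is right
invariant under `D ∩ N` extends to a cochain of `S` which is right invariant under `N`.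

PROOF. For `s ∈ S` choose `s = d * n`; put `f' (s_0, …) = f (d_0, …)`; independent of the choice: if
`d n = d' n'` then `d⁻¹ d' = n n'⁻¹ ∈ D ∩ N`. Right invariance under `N`: clear. Equivariance under
`D`: clear; under `m ∈ N`: `m d n = d (d⁻¹ m d) n`, so `f' (m s) = f' s = m • f' s` (`N` acts
trivially on `E`). Smoothness: let `f` be right invariant under an open subgroup of `D`; it contains
`D ∩ U` for an open normal subgroup `U` of `G`. The set `W = (D ∩ U) N` is a subgroup (`N` is normal),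
it is closed (product of two compact sets), and it has finite index in `S`: `D ∩ U` has finite index
in `D` (finitely many `d_i` with `D = ⋃ d_i (D ∩ U)`), so `S = D N = ⋃ d_i (D ∩ U) N`. A closed
subgroup of finite index of `S` is open in `S`, hence in `G` (`Subgroup.isOpen_of_isClosed_of_finiteIndex`).
For `w = d' m ∈ W` with `d' ∈ D ∩ U`, `m ∈ N`: `s w = d n d' m = d d' (d'⁻¹ n d') m`, so
`f' (s w) = f (d d') = f (d)`. -/
theorem exists_extend' {N D S : Subgroup G} [N.Normal] (hN : IsClosed (N : Set G))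
    (hD : IsClosed (D : Set G)) (hS : IsOpen (S : Set G)) (hNS : N ≤ S) (hDS : D ≤ S)
    (hS' : ∀ s ∈ S, ∃ g ∈ D, ∃ n ∈ N, s = g * n) {E : Type v} [AddCommGroup E]
    [DistribMulAction G E] (htriv : ∀ n ∈ N, ∀ χ : E, n • χ = χ) {n : ℕ}
    {f : (Fin (n + 1) → D) → E} (hf : f ∈ Coch E (⊤ : Subgroup D) (N.subgroupOf D) n) :
    ∃ f' ∈ Coch E (⊤ : Subgroup S) (N.subgroupOf S) n,
      ∀ x : Fin (n + 1) → D, f' (fun i => ⟨(x i : G), hDS (x i).2⟩) = f x := by
  classical
  obtain ⟨hf1, hf2, V, hVo, hV⟩ := hf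
  -- an open normal subgroup `U` of `G` with `D ∩ U ≤ V`
  obtain ⟨O, hO, hOV⟩ := isOpen_induced_iff.1 hVo
  have h1O : (1 : G) ∈ O := by
    have h1 : (1 : D) ∈ (V : Set D) := V.one_mem
    rw [← hOV] at h1
    exact h1
  obtain ⟨U₀, hU₀⟩ := ProfiniteGrp.exist_openNormalSubgroup_sub_open_nhds_of_one hO h1O
  obtain ⟨U, hU⟩ : ∃ U : Subgroup G, U = U₀.1.1 := ⟨_, rfl⟩
  have hUo : IsOpen (U : Set G) := by rw [hU]; exact U₀.1.2
  have hUV : ∀ g : D, (g : G) ∈ U → g ∈ V := by
    intro g hg
    have h1 : (g : G) ∈ O := hU₀ (by rw [hU] at hg; exact hg)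
    have h2 : g ∈ (Subtype.val ⁻¹' O : Set D) := h1
    rw [hOV] at h2
    exact h2
  -- the subgroup `W = (D ∩ U) N`
  obtain ⟨W, hWdef⟩ : ∃ W : Subgroup G, W = (D ⊓ U) ⊔ N := ⟨_, rfl⟩
  have hWmem : ∀ x, x ∈ W ↔ ∃ g ∈ D ⊓ U, ∃ m ∈ N, g * m = x := by
    intro x
    rw [hWdef, ← SetLike.mem_coe, Subgroup.mul_normal, Set.mem_mul]
    rfl
  have hWS : W ≤ S := by
    rw [hWdef]
    exact sup_le (inf_le_left.trans hDS) hNS
  have hWcl : IsClosed (W : Set G) := by
    have h1 : (W : Set G) = ((D ⊓ U : Subgroup G) : Set G) * (N : Set G) := by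
      rw [hWdef, Subgroup.mul_normal]
    have h2 : IsCompact ((D ⊓ U : Subgroup G) : Set G) :=
      (hD.inter (Subgroup.isClosed_of_isOpen U hUo)).isCompact
    rw [h1]
    exact (h2.mul hN.isCompact).isClosed
  have hfin1 : Finite (S ⧸ W.subgroupOf S) := by
    have hUf : Finite (G ⧸ U) := finite_quotient hUo
    have hUi : U.FiniteIndex := Subgroup.finiteIndex_of_finite_quotient
    have h1 : Finite (D ⧸ U.subgroupOf D) := Subgroup.finite_quotient_of_finiteIndex
    refine Finite.of_surjective (fun q : D ⧸ U.subgroupOf D =>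
      (QuotientGroup.mk (⟨(q.out : D), hDS q.out.2⟩ : S) : S ⧸ W.subgroupOf S)) ?_
    intro t
    obtain ⟨s, rfl⟩ := QuotientGroup.mk_surjective t
    obtain ⟨g, hg, m, hm, hs⟩ := hS' s s.2
    refine ⟨QuotientGroup.mk (⟨g, hg⟩ : D), ?_⟩
    obtain ⟨u, hu⟩ := QuotientGroup.mk_out_eq_mul (U.subgroupOf D) (⟨g, hg⟩ : D)
    rw [QuotientGroup.eq, Subgroup.mem_subgroupOf]
    rw [hWmem]
    refine ⟨((u : D) : G)⁻¹, (D ⊓ U).inv_mem ⟨(u : D).2, u.2⟩, m, hm, ?_⟩
    rw [Subgroup.coe_mul, Subgroup.coe_inv]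
    show ((u : D) : G)⁻¹ * m = (((QuotientGroup.mk (⟨g, hg⟩ : D) : D ⧸ U.subgroupOf D).out : D) : G)⁻¹ * s
    rw [hu, hs, Subgroup.coe_mul]
    group
  have hWfin : W.FiniteIndex := by
    have hSf : Finite (G ⧸ S) := finite_quotient hS
    have hSi : S.FiniteIndex := Subgroup.finiteIndex_of_finite_quotient
    have h1 : (W.subgroupOf S).FiniteIndex := Subgroup.finiteIndex_of_finite_quotient
    refine ⟨?_⟩
    rw [← Subgroup.relIndex_mul_index hWS]
    exact mul_ne_zero h1.index_ne_zero hSi.index_ne_zero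
  have hWo : IsOpen (W : Set G) := Subgroup.isOpen_of_isClosed_of_finiteIndex W hWcl
  refine a24_core hDS hS' htriv (fun g x => hf1 g trivial x) hf2 V hV (W.subgroupOf S)
    (hWo.preimage continuous_subtype_val) fun g m hm w hw => ?_
  obtain ⟨g', ⟨hgD, hgU⟩, m', hm', h⟩ := (hWmem _).1 hw
  refine ⟨⟨g', hgD⟩, hUV ⟨g', hgD⟩ hgU, g'⁻¹ * m * g' * m', ?_, ?_⟩
  · refine N.mul_mem ?_ hm'
    have := Subgroup.Normal.conj_mem (inferInstance : N.Normal) m hm g'⁻¹
    simpa using this
  · have h' : (w : G) = g' * m' := h.symm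
    rw [h']
    group

/-- TASK A24 (second statement). A primitive of `p ∘ e` on `D` extends to a primitive on `G`,
equivariant for `S = D N`.

PROOF. Let `f'` be the extension of `f` to `S`. For `s ∈ S` (tuples): `d f' s = p (e s)`: both sides
are right invariant under `N` (`e ∈ Coch E ⊤ N`), each `s_i` is `d_i n_i`, and they agree on `D` by
`hfe`. Let `r : G → S` be a retraction compatible with `N` (`exists_retr`). Then
`f' ∘ r ∈ Coch E S N n` (`Retr.comp`), and `d (f' ∘ r) = p ∘ e ∘ r`. The cochain `c = p ∘ e` is in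
`Coch E S N (n + 1)`: equivariant for `S` by `hp`, smooth and right invariant like `e`; and
`d c = p ∘ d e = 0` (`d_map`). By `homotopy` (A17) for the admissible maps `r` and `id` there is
`p' ∈ Coch E S N n` with `d p' = c - c ∘ r`. Take `F = f' ∘ r + p'`. -/
theorem local_primitive {N D S : Subgroup G} [N.Normal] (hN : IsClosed (N : Set G))
    (hD : IsClosed (D : Set G)) (hS : IsOpen (S : Set G)) (hNS : N ≤ S) (hDS : D ≤ S)
    (hS' : ∀ s ∈ S, ∃ g ∈ D, ∃ n ∈ N, s = g * n) {E : Type v} [AddCommGroup E]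
    [DistribMulAction G E] (htriv : ∀ n ∈ N, ∀ χ : E, n • χ = χ) (p : E →+ E)
    (hp : ∀ s ∈ S, ∀ χ : E, p (s • χ) = s • p χ) {n : ℕ} {e : (Fin (n + 2) → G) → E}
    (he : e ∈ Coch E (⊤ : Subgroup G) N (n + 1)) (hed : d e = 0)
    {f : (Fin (n + 1) → D) → E} (hf : f ∈ Coch E (⊤ : Subgroup D) (N.subgroupOf D) n)
    (hfe : ∀ y : Fin (n + 2) → D, d f y = p (e fun i => (y i : G))) :
    ∃ F ∈ Coch E S N n, d F = fun x => p (e x) := by
  obtain ⟨f', hf', hres⟩ := exists_extend' hN hD hS hNS hDS hS' htriv hf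
  have hdf' : ∀ s : Fin (n + 2) → S, d f' s = p (e fun i => (s i : G)) := by
    intro s
    choose g hg m hm hs using fun i => hS' (s i) (s i).2
    have h1 := (d_mem hf').2.1 (fun i => (⟨g i, hDS (hg i)⟩ : S)) (fun i => ⟨m i, hNS (hm i)⟩)
      fun i => hm i
    have h2 : (fun i => (⟨g i, hDS (hg i)⟩ : S) * ⟨m i, hNS (hm i)⟩) = s := by
      funext i
      exact Subtype.ext (hs i).symm
    rw [h2] at h1
    have h3 : (fun x : Fin (n + 1) → D => f' fun i => (⟨(x i : G), hDS (x i).2⟩ : S)) = f :=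
      funext hres
    have h4 := congrFun (d_comp (fun y : D => (⟨(y : G), hDS y.2⟩ : S)) f')
      (fun i => (⟨g i, hg i⟩ : D))
    rw [h3] at h4
    rw [h1]
    have h5 := he.2.1 g m hm
    have h6 : (fun i => (s i : G)) = fun i => g i * m i := funext hs
    rw [h6, h5, ← hfe (fun i => (⟨g i, hg i⟩ : D)), h4]
  obtain ⟨r, hr⟩ := exists_retr (G := G) hS hNS
  have hfr := Retr.comp hS hr hf'
  have hc : (fun x => p (e x)) ∈ Coch E S N (n + 1) := by
    obtain ⟨e1, e2, U, hU, e3⟩ := he
    refine ⟨fun g hg x => ?_, fun x u hu => ?_, U, hU, fun x u hu => ?_⟩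
    · show p (e fun i => g * x i) = g • p (e x)
      rw [e1 g trivial x, hp g hg]
    · show p (e fun i => x i * u i) = p (e x)
      rw [e2 x u hu]
    · show p (e fun i => x i * u i) = p (e x)
      rw [e3 x u hu]
  have hcd : d (fun x => p (e x)) = 0 := by
    rw [d_map, hed]
    funext x
    exact map_zero p
  obtain ⟨p', hp', hdp'⟩ := homotopy hr.adm (adm_id S N) hc hcd
  refine ⟨_, add_mem hfr hp', ?_⟩
  rw [d_add, hdp', d_comp r f']
  funext x
  simp only [Pi.add_apply, Pi.sub_apply, id]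
  rw [hdf']
  abel

end GC
end

section

/-!
# Hilbert 90
-/

namespace GC

universe u v w

variable {F Ω : Type u} [Field F] [Field Ω] [Algebra F Ω] [IsAlgClosed Ω]
  [Algebra.IsAlgebraic F Ω] {Δ : Type u} [Group Δ] [TopologicalSpace Δ] [IsTopologicalGroup Δ]
  [CompactSpace Δ] [TotallyDisconnectedSpace Δ]

/-- TASK C1 (first statement). An open subgroup of `Δ` contains the preimage of the fixing subgroup of
a finite normal extension `E` of `F` in `Ω`.

PROOF. `Ω ≃ₐ[F] Ω` is Hausdorff (`krullTopology_t2`). `θ '' Uᶜ` is compact, hence closed, and does not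
contain `1` (injectivity). Its complement is an open neighbourhood of `1`, so it contains
`E₀.fixingSubgroup` for a finite extension `E₀` (`krullTopology_mem_nhds_one_iff`); enlarge `E₀` to
its normal closure in `Ω` (finite over `F`; `Ω` is normal over `F`, `Normal` from `IsAlgClosed` and
`IsAlgebraic`). -/
theorem exists_fixing {θ : Δ →* (Ω ≃ₐ[F] Ω)} (hθ : Continuous θ) (hi : Function.Injective θ)
    {U : Subgroup Δ} (hU : IsOpen (U : Set Δ)) :
    ∃ E : IntermediateField F Ω, FiniteDimensional F E ∧ Normal F E ∧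
      E.fixingSubgroup.comap θ ≤ U := by
  have : IsAlgClosure F Ω := ⟨inferInstance, inferInstance⟩
  have : Normal F Ω := IsAlgClosure.normal F Ω
  have : T2Space (Ω ≃ₐ[F] Ω) := krullTopology_t2
  have h1 : IsCompact (θ '' (U : Set Δ)ᶜ) := (hU.isClosed_compl.isCompact).image hθ
  have h2 : (θ '' (U : Set Δ)ᶜ)ᶜ ∈ nhds (1 : Ω ≃ₐ[F] Ω) := by
    apply h1.isClosed.isOpen_compl.mem_nhds
    rintro ⟨g, hg, hg1⟩
    apply hg
    have : g = 1 := hi (by rw [hg1, map_one])
    rw [this]
    exact one_mem U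
  obtain ⟨E, hE1, hE2, hE3⟩ := (krullTopology_mem_nhds_one_iff_of_normal F Ω _).1 h2
  refine ⟨E, hE1, hE2, fun g hg => ?_⟩
  by_contra hgU
  exact hE3 (show θ g ∈ (E.fixingSubgroup : Set (Ω ≃ₐ[F] Ω)) from hg) ⟨g, hgU, rfl⟩

/-- TASK C1 (second statement). Hilbert 90.

PROOF. Let `E` be as in `exists_fixing` for `U`, and `V = E.fixingSubgroup.comap θ`, an open subgroup
(`IntermediateField.fixingSubgroup_isOpen`), normal (`E` is normal). `f` is right invariant under
`V`, and `f 1 = 1` (`f 1 = f 1 * f 1`). For `g : Δ` let `χ g : E →* Ω`, `x ↦ θ g x`; it depends only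
on the coset `g V`, and different cosets give different homomorphisms (if `θ g = θ h` on `E` then
`g⁻¹ h ∈ V`). `Δ ⧸ V` is finite. By the linear independence of characters
(`linearIndependent_monoidHom E Ω`) there is `x ∈ E` with
`y := ∑ q : Δ ⧸ V, f q.out * θ q.out x ≠ 0`. For `h : Δ`:
`θ h y = ∑ θ h (f q.out) * θ (h q.out) x` and `f (h * g) = f h * θ h (f g)`, so
`f h * θ h y = ∑ f (h * q.out) * θ (h * q.out) x = y` (the terms depend only on the coset; reindex by
`q ↦ h • q`). -/
theorem h90 {θ : Δ →* (Ω ≃ₐ[F] Ω)} (hθ : Continuous θ) (hi : Function.Injective θ)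
    {f : Δ → Ω} (hf0 : ∀ g, f g ≠ 0) (hf : ∀ g h, f (g * h) = f g * θ g (f h))
    (hs : ∃ U : Subgroup Δ, IsOpen (U : Set Δ) ∧ ∀ g, ∀ u ∈ U, f (g * u) = f g) :
    ∃ y : Ω, y ≠ 0 ∧ ∀ g, θ g y * f g = y := by
  classical
  obtain ⟨U, hU, hUf⟩ := hs
  obtain ⟨E, hE1, hE2, hE3⟩ := exists_fixing hθ hi hU
  set V : Subgroup Δ := E.fixingSubgroup.comap θ with hVdef
  have hVo : IsOpen (V : Set Δ) := by
    have := hE1
    exact (E.fixingSubgroup_isOpen).preimage hθ
  have hfin : Finite (Δ ⧸ V) := finite_quotient hVo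
  have : Fintype (Δ ⧸ V) := Fintype.ofFinite _
  have hfix : ∀ v ∈ V, ∀ x : E, θ v (x : Ω) = x := by
    intro v hv x
    exact (IntermediateField.mem_fixingSubgroup_iff E (θ v)).1 hv x x.2
  let χ : Δ ⧸ V → (E →* Ω) := fun q => ((θ q.out : Ω →* Ω)).comp (E.val : E →* Ω)
  have hχa : ∀ q (x : E), χ q x = θ q.out (x : Ω) := fun q x => rfl
  have hχ : Function.Injective χ := by
    intro q q' hq
    have h1 : q.out⁻¹ * q'.out ∈ V := by
      change θ (q.out⁻¹ * q'.out) ∈ E.fixingSubgroup
      rw [IntermediateField.mem_fixingSubgroup_iff]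
      intro x hx
      have h2 : θ q.out x = θ q'.out x := by
        have := DFunLike.congr_fun hq ⟨x, hx⟩
        rw [hχa, hχa] at this
        exact this
      rw [map_mul, AlgEquiv.mul_apply, ← h2, ← AlgEquiv.mul_apply, ← map_mul, inv_mul_cancel,
        map_one, AlgEquiv.one_apply]
    have h2 := QuotientGroup.eq.2 h1
    rwa [QuotientGroup.out_eq', QuotientGroup.out_eq'] at h2
  have hli : LinearIndependent Ω (fun q => (χ q : E → Ω)) :=
    (linearIndependent_monoidHom E Ω).comp χ hχ
  have hex : ∃ x : E, ∑ q : Δ ⧸ V, f q.out * θ q.out (x : Ω) ≠ 0 := by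
    by_contra hcon
    push Not at hcon
    have h1 := Fintype.linearIndependent_iff.1 hli (fun q => f q.out) (by
      funext x
      rw [Finset.sum_apply]
      exact hcon x)
    exact hf0 _ (h1 ((1 : Δ) : Δ ⧸ V))
  obtain ⟨x, hx⟩ := hex
  refine ⟨_, hx, fun h => ?_⟩
  have ht : ∀ g, ∀ v ∈ V, f (g * v) * θ (g * v) (x : Ω) = f g * θ g (x : Ω) := by
    intro g v hv
    rw [hUf g v (hE3 hv), map_mul, AlgEquiv.mul_apply, hfix v hv]
  have hq : ∀ (q : Δ ⧸ V), f (h • q).out * θ (h • q).out (x : Ω) =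
      f (h * q.out) * θ (h * q.out) (x : Ω) := by
    intro q
    have h1 : ((h * q.out : Δ) : Δ ⧸ V) = h • q := by
      conv_rhs => rw [← QuotientGroup.out_eq' q]
      rfl
    obtain ⟨v, hv⟩ := QuotientGroup.mk_out_eq_mul V (h * q.out)
    rw [h1] at hv
    rw [hv]
    exact ht _ _ v.2
  rw [map_sum, Finset.sum_mul]
  have h2 : ∀ q : Δ ⧸ V, θ h (f q.out * θ q.out (x : Ω)) * f h =
      f (h • q).out * θ (h • q).out (x : Ω) := by
    intro q
    rw [hq, hf, map_mul, map_mul, AlgEquiv.mul_apply]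
    ring
  rw [Finset.sum_congr rfl fun q _ => h2 q]
  exact Fintype.sum_equiv (MulAction.toPerm h) _ _ fun q => rfl

/-- TASK C1 (third statement). The multiplicative group is discrete.

PROOF. `stabilizer_isOpen_of_isIntegral` and continuity of `θ`. -/
theorem disc_wmod {θ : Δ →* (Ω ≃ₐ[F] Ω)} (hθ : Continuous θ) : Disc Δ (WMod θ) := by
  intro m
  refine ⟨(MulAction.stabilizer (Ω ≃ₐ[F] Ω) (m.val : Ω)).comap θ, ?_, fun g hg => ?_⟩
  · exact (stabilizer_isOpen_of_isIntegral (m.val : Ω)).preimage hθ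
  · apply WMod.ext
    rw [WMod.val_smul]
    exact hg

private lemma c1_van {θ : Δ →* (Ω ≃ₐ[F] Ω)} (hθ : Continuous θ) (hi : Function.Injective θ) :
    VanAt Δ (WMod θ) 0 := by
  intro c hc hdc
  obtain ⟨hc1, -, U, hU, hcU⟩ := hc
  -- the value of a cocycle
  have hcoc : ∀ x0 x1 x2 : Δ, c ![x1, x2] - c ![x0, x2] + c ![x0, x1] = 0 := by
    intro x0 x1 x2
    have h := congrFun hdc ![x0, x1, x2]
    rw [d, Fin.sum_univ_three] at h
    have e0 : (fun i : Fin 2 => (![x0, x1, x2] : Fin 3 → Δ) ((0 : Fin 3).succAbove i)) =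
        ![x1, x2] := by
      funext i
      fin_cases i <;> rfl
    have e1 : (fun i : Fin 2 => (![x0, x1, x2] : Fin 3 → Δ) ((1 : Fin 3).succAbove i)) =
        ![x0, x2] := by
      funext i
      fin_cases i <;> rfl
    have e2 : (fun i : Fin 2 => (![x0, x1, x2] : Fin 3 → Δ) ((2 : Fin 3).succAbove i)) =
        ![x0, x1] := by
      funext i
      fin_cases i <;> rfl
    rw [e0, e1, e2] at h
    simp only [Fin.val_zero, pow_zero, one_smul, Fin.val_one, pow_one, neg_smul, Fin.val_two,
      Pi.zero_apply] at h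
    rw [← h]
    norm_num
    abel
  have hequ : ∀ g x0 x1 : Δ, c ![g * x0, g * x1] = g • c ![x0, x1] := by
    intro g x0 x1
    rw [← hc1 g (Subgroup.mem_top g)]
    congr 1
    funext i
    fin_cases i <;> rfl
  let f : Δ → Ω := fun g => ((c ![1, g]).val : Ω)
  have hf0 : ∀ g, f g ≠ 0 := fun g => Units.ne_zero _
  have hadd : ∀ g h : Δ, c ![1, g * h] = c ![1, g] + g • c ![1, h] := by
    intro g h
    have h1 := hcoc 1 g (g * h)
    have h2 := hequ g 1 h
    rw [mul_one] at h2
    rw [h2] at h1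
    have h3 : c ![1, g * h] = g • c ![1, h] + c ![1, g] - (g • c ![1, h] - c ![1, g * h] +
      c ![1, g]) := by abel
    rw [h1, sub_zero, add_comm] at h3
    exact h3
  have hf : ∀ g h, f (g * h) = f g * θ g (f h) := by
    intro g h
    change ((c ![1, g * h]).val : Ω) = _
    rw [hadd g h]
    rfl
  have hs : ∃ U : Subgroup Δ, IsOpen (U : Set Δ) ∧ ∀ g, ∀ u ∈ U, f (g * u) = f g := by
    refine ⟨U, hU, fun g u hu => ?_⟩
    have h1 := hcU ![1, g] ![1, u] (by
      intro i
      fin_cases i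
      · exact one_mem U
      · exact hu)
    have h2 : (fun i => (![1, g] : Fin 2 → Δ) i * (![1, u] : Fin 2 → Δ) i) = ![1, g * u] := by
      funext i
      fin_cases i
      · exact mul_one 1
      · rfl
    rw [h2] at h1
    change ((c ![1, g * u]).val : Ω) = ((c ![1, g]).val : Ω)
    rw [h1]
  obtain ⟨y, hy, hyf⟩ := h90 hθ hi hf0 hf hs
  set m : WMod θ := WMod.mk (Units.mk0 y hy) with hm
  have hcm : ∀ g, c ![1, g] = m - g • m := by
    intro g
    apply WMod.ext
    have h1 := hyf g
    have h2 : θ g y ≠ 0 := by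
      intro h0
      rw [h0, zero_mul] at h1
      exact hy h1.symm
    change f g = (((m - g • m).val : Ωˣ) : Ω)
    rw [WMod.val_sub, Units.val_div_eq_div_val, WMod.val_smul]
    change f g = y / θ g y
    rw [eq_div_iff h2, mul_comm]
    exact h1
  refine ⟨fun x => -((x 0) • m), ⟨fun g _ x => ?_, fun x u hu => ?_, ?_⟩, ?_⟩
  · change -((g * x 0) • m) = g • -(x 0 • m)
    rw [mul_smul, smul_neg]
  · have h1 : u 0 = 1 := Subgroup.mem_bot.1 (hu 0)
    change -((x 0 * u 0) • m) = -(x 0 • m)
    rw [h1, mul_one]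
  · obtain ⟨W, hW, hWm⟩ := disc_wmod (F := F) hθ m
    refine ⟨W, hW, fun x u hu => ?_⟩
    change -((x 0 * u 0) • m) = -(x 0 • m)
    rw [mul_smul, hWm _ (hu 0)]
  · funext x
    rw [d, Fin.sum_univ_two]
    have hx : x = ![x 0, x 1] := by
      funext i
      fin_cases i <;> rfl
    have h1 : c x = x 0 • (m - ((x 0)⁻¹ * x 1) • m) := by
      rw [← hcm]
      rw [← hequ, mul_one, mul_inv_cancel_left]
      rw [← hx]
    rw [h1, smul_sub, ← mul_smul, mul_inv_cancel_left]
    simp only [Fin.val_zero, pow_zero, one_smul, Fin.val_one, pow_one, neg_smul, neg_neg]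
    have e0 : ((0 : Fin 2).succAbove (0 : Fin 1)) = 1 := rfl
    have e1 : ((1 : Fin 2).succAbove (0 : Fin 1)) = 0 := rfl
    rw [e0, e1]
    abel

private lemma c1_map {Γ : Type u} [Group Γ] [TopologicalSpace Γ] {A' : Type v} {B' : Type w}
    [AddCommGroup A'] [AddCommGroup B'] [DistribMulAction Γ A'] [DistribMulAction Γ B']
    (f : A' →+ B') (hf : ∀ (g : Γ) (a : A'), f (g • a) = g • f a) {n : ℕ}
    {b : (Fin (n + 1) → Γ) → A'} (hb : b ∈ Coch A' (⊤ : Subgroup Γ) ⊥ n) :
    (fun x => f (b x)) ∈ Coch B' (⊤ : Subgroup Γ) ⊥ n := by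
  obtain ⟨h1, h2, U, hU, h3⟩ := hb
  refine ⟨fun g hg x => ?_, fun x u hu => ?_, U, hU, fun x u hu => ?_⟩
  · change f (b _) = g • f (b x)
    rw [h1 g hg x, hf]
  · change f (b _) = f (b x)
    rw [h2 x u hu]
  · change f (b _) = f (b x)
    rw [h3 x u hu]

private lemma c1_congr {Γ : Type u} [Group Γ] [TopologicalSpace Γ] {A : Type v} {B : Type w}
    [AddCommGroup A] [AddCommGroup B] [DistribMulAction Γ A] [DistribMulAction Γ B]
    (e : A ≃+ B) (he : ∀ (g : Γ) (a : A), e (g • a) = g • e a) {j : ℕ}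
    (h : VanAt Γ A j) : VanAt Γ B j := by
  have hsymm : ∀ (g : Γ) (b : B), e.symm.toAddMonoidHom (g • b) = g • e.symm.toAddMonoidHom b := by
    intro g b
    apply e.injective
    change e (e.symm (g • b)) = e (g • e.symm b)
    rw [he, e.apply_symm_apply, e.apply_symm_apply]
  intro c hc hdc
  have hd' : d (fun x => e.symm.toAddMonoidHom (c x)) = 0 := by
    rw [d_map, hdc]
    funext x
    exact map_zero _
  obtain ⟨a, ha, hda⟩ := h _ (c1_map e.symm.toAddMonoidHom hsymm hc) hd'
  refine ⟨fun x => e.toAddMonoidHom (a x), c1_map e.toAddMonoidHom he ha, ?_⟩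
  rw [d_map, hda]
  funext x
  exact e.apply_symm_apply _

/-- TASK C1 (fourth statement). `H^1(V, Ω^×) = 0` for closed subgroups `V` of `Δ`.

PROOF. Let `c ∈ Coch (WMod θ) ⊤ ⊥ 1` be a cocycle of the group `V`. Put `f g = (c (1, g)).val : Ω`
(use `![1, g]`). From `d c (1, g, g h) = 0` and `c (g, g h) = g • c (1, h)`:
`f (g h) = f g * θ g (f h)`; smoothness in `g`. Apply `h90` to the homomorphism
`θ.comp V.subtype` on the compact group `V`: `y ≠ 0` with `θ g y * f g = y` for `g ∈ V`. Put
`b g = - (g • mk y)`; then `d b (x_0, x_1) = b x_1 - b x_0 = x_0 • (mk y) - x_1 • mk y`, which has value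
`x_0 • (y / θ (x_0⁻¹ x_1) y) = x_0 • f (x_0⁻¹ x_1)`, the value of `x_0 • c (1, x_0⁻¹ x_1) =
c (x_0, x_1)`. (The same proof with `V = ⊤`, or directly, gives `VanAt Δ`.) -/
theorem van_wmod_sub {θ : Δ →* (Ω ≃ₐ[F] Ω)} (hθ : Continuous θ) (hi : Function.Injective θ)
    {V : Subgroup Δ} (hV : IsClosed (V : Set Δ)) : VanAt V (WMod θ) 0 := by
  have : CompactSpace V := isCompact_iff_compactSpace.1 hV.isCompact
  have hθ' : Continuous (θ.comp V.subtype) := hθ.comp continuous_subtype_val
  have hi' : Function.Injective (θ.comp V.subtype) := hi.comp Subtype.val_injective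
  let e : WMod (θ.comp V.subtype) ≃+ WMod θ :=
    { toFun := fun a => WMod.mk a.val
      invFun := fun a => WMod.mk a.val
      left_inv := fun a => rfl
      right_inv := fun a => rfl
      map_add' := fun a b => rfl }
  exact c1_congr e (fun g a => rfl) (c1_van hθ' hi')

/-- TASK C1 (fifth statement). The same for `Δ`. -/
theorem van_wmod {θ : Δ →* (Ω ≃ₐ[F] Ω)} (hθ : Continuous θ) (hi : Function.Injective θ) :
    VanAt Δ (WMod θ) 0 := by
  exact c1_van hθ hi

end GC
end

section

/-!
# Decomposition groups and inertia groups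
-/

namespace GC

universe u v

open scoped Pointwise

section

variable {K : Type u} {Ω : Type v} [Field K] [Field Ω] [Algebra K Ω] (O : ValuationSubring Ω)

/-- TASK V5 (first statement). The decomposition group.

PROOF. `g • O = O` iff `x ∈ O ↔ g x ∈ O` for all `x`
(`ValuationSubring.smul_mem_pointwise_smul_iff`, `ValuationSubring.ext`; `g • x = g x`). -/
theorem mem_decomp_iff (g : Ω ≃ₐ[K] Ω) :
    g ∈ O.decompositionSubgroup K ↔ ∀ x : Ω, g x ∈ O ↔ x ∈ O := by
  rw [MulAction.mem_stabilizer_iff]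
  constructor
  · intro h x
    have h1 := ValuationSubring.smul_mem_pointwise_smul_iff (g := g) (S := O) (x := x)
    rw [h] at h1
    exact h1
  · intro h
    ext x
    rw [ValuationSubring.mem_pointwise_smul_iff_inv_smul_mem]
    have h1 := h (g⁻¹ • x)
    have h2 : g (g⁻¹ • x) = x := smul_inv_smul g x
    rw [h2] at h1
    exact h1.symm

lemma v5_val_lt_one_iff (x : Ω) : O.valuation x < 1 ↔ x = 0 ∨ x⁻¹ ∉ O := by
  rcases eq_or_ne x 0 with rfl | hx
  · simp
  · rw [← O.valuation_le_one_iff, map_inv₀, not_le]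
    have h0 : 0 < O.valuation x := (Valuation.pos_iff _).2 hx
    rw [one_lt_inv₀ h0]
    simp [hx]

/-- TASK V5 (second statement). The decomposition group preserves the maximal ideal and the units.

PROOF. `O.valuation x < 1` iff `x = 0` or `x⁻¹ ∉ O`. -/
theorem val_decomp_lt_one {g : Ω ≃ₐ[K] Ω} (hg : g ∈ O.decompositionSubgroup K) (x : Ω) :
    O.valuation (g x) < 1 ↔ O.valuation x < 1 := by
  rw [v5_val_lt_one_iff, v5_val_lt_one_iff, ← map_inv₀, (mem_decomp_iff O g).1 hg, map_eq_zero_iff g g.injective]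

theorem val_decomp_eq_one {g : Ω ≃ₐ[K] Ω} (hg : g ∈ O.decompositionSubgroup K) (x : Ω) :
    O.valuation (g x) = 1 ↔ O.valuation x = 1 := by
  have h1 := (mem_decomp_iff O g).1 hg x
  have h2 := val_decomp_lt_one O hg x
  rw [← O.valuation_le_one_iff, ← O.valuation_le_one_iff] at h1
  constructor
  · intro h
    exact le_antisymm (h1.1 h.le) (not_lt.1 (fun h' => h.not_lt (h2.2 h')))
  · intro h
    exact le_antisymm (h1.2 h.le) (not_lt.1 (fun h' => h.not_lt (h2.1 h')))

/-- TASK V5 (third statement). The inertia group.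

PROOF. `g` acts trivially on the residue field iff for all `x ∈ O` the elements `g x` and `x` have the
same residue class (`IsLocalRing.residue` is surjective; the action on the residue field is induced),
i.e. `g x - x` is in the maximal ideal (`ValuationSubring.valuation_lt_one_iff`). -/
theorem mem_inertia_iff (g : O.decompositionSubgroup K) :
    g ∈ O.inertiaSubgroup K ↔ ∀ x ∈ O, O.valuation ((g : Ω ≃ₐ[K] Ω) x - x) < 1 := by
  have key : ∀ x : O, (IsLocalRing.residue O (g • x) = IsLocalRing.residue O x ↔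
      O.valuation ((g : Ω ≃ₐ[K] Ω) x - x) < 1) := by
    intro x
    rw [← sub_eq_zero, ← map_sub, IsLocalRing.residue_eq_zero_iff, ValuationSubring.valuation_lt_one_iff]
    rfl
  unfold ValuationSubring.inertiaSubgroup
  rw [MonoidHom.mem_ker]
  constructor
  · intro h x hx
    rw [← key ⟨x, hx⟩, IsLocalRing.ResidueField.residue_smul]
    exact DFunLike.congr_fun h (IsLocalRing.residue O ⟨x, hx⟩)
  · intro h
    ext y
    obtain ⟨x, rfl⟩ := IsLocalRing.residue_surjective y
    have h1 := (key x).2 (h x x.2)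
    rw [IsLocalRing.ResidueField.residue_smul] at h1
    exact h1

lemma v5_isClopen [Algebra.IsAlgebraic K Ω] (x : Ω) (T : Set Ω) :
    IsClopen {g : Ω ≃ₐ[K] Ω | g x ∈ T} := by
  have h0 : ∀ T : Set Ω, IsOpen {g : Ω ≃ₐ[K] Ω | g x ∈ T} := by
    intro T
    rw [isOpen_iff_mem_nhds]
    intro g hg
    have h1 : IsOpen ((fun h : Ω ≃ₐ[K] Ω => g⁻¹ * h) ⁻¹' (MulAction.stabilizer (Ω ≃ₐ[K] Ω) x : Set _)) :=
      (stabilizer_isOpen_of_isIntegral (K := K) x).preimage (continuous_const_mul g⁻¹)
    have h2 : g ∈ ((fun h : Ω ≃ₐ[K] Ω => g⁻¹ * h) ⁻¹' (MulAction.stabilizer (Ω ≃ₐ[K] Ω) x : Set _)) := by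
      show g⁻¹ * g ∈ MulAction.stabilizer (Ω ≃ₐ[K] Ω) x
      rw [inv_mul_cancel]
      exact one_mem _
    apply Filter.mem_of_superset (h1.mem_nhds h2)
    intro h hh
    have h3 : (g⁻¹ * h) • x = x := hh
    have h4 : h x = g x := by
      rw [mul_smul, inv_smul_eq_iff] at h3
      exact h3
    show h x ∈ T
    rw [h4]
    exact hg
  refine ⟨⟨?_⟩, h0 T⟩
  have h1 := h0 Tᶜ
  exact h1

/-- TASK V5 (fourth statement). The decomposition group is closed.

PROOF. By `mem_decomp_iff` it is the intersection over `x` of the sets `{g | g x ∈ O ↔ x ∈ O}`, and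
each of them is closed: the map `g ↦ g x` is locally constant (the stabilizer of `x` is open,
`stabilizer_isOpen_of_isIntegral`), so each set `{g | g x ∈ T}` is clopen. -/
theorem isClosed_decomp [Algebra.IsAlgebraic K Ω] :
    IsClosed (O.decompositionSubgroup K : Set (Ω ≃ₐ[K] Ω)) := by
  have h : (O.decompositionSubgroup K : Set (Ω ≃ₐ[K] Ω)) =
      ⋂ x : Ω, {g : Ω ≃ₐ[K] Ω | g x ∈ {y | y ∈ O ↔ x ∈ O}} := by
    ext g
    rw [Set.mem_iInter]
    exact mem_decomp_iff O g
  rw [h]
  exact isClosed_iInter (fun x => (v5_isClopen x _).1)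

/-- TASK V5 (fifth statement). The inertia group is closed (the same argument, `mem_inertia_iff`). -/
theorem isClosed_inertia [Algebra.IsAlgebraic K Ω] :
    IsClosed (O.inertiaSubgroup K : Set (O.decompositionSubgroup K)) := by
  have h : (O.inertiaSubgroup K : Set (O.decompositionSubgroup K)) =
      ⋂ x : O, (Subtype.val : O.decompositionSubgroup K → Ω ≃ₐ[K] Ω) ⁻¹'
        {g : Ω ≃ₐ[K] Ω | g x ∈ {y : Ω | O.valuation (y - x) < 1}} := by
    ext g
    rw [Set.mem_iInter]
    refine (mem_inertia_iff O g).trans ?_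
    exact ⟨fun h x => h x x.2, fun h x hx => h ⟨x, hx⟩⟩
  rw [h]
  exact isClosed_iInter (fun x => (v5_isClopen _ _).1.preimage continuous_subtype_val)

instance compactSpace_decomp [IsAlgClosed Ω] [Algebra.IsAlgebraic K Ω] :
    CompactSpace (O.decompositionSubgroup K) :=
  isCompact_iff_compactSpace.mp (isClosed_decomp O).isCompact

instance compactSpace_inertia [IsAlgClosed Ω] [Algebra.IsAlgebraic K Ω] :
    CompactSpace (O.inertiaSubgroup K) :=
  isCompact_iff_compactSpace.mp (isClosed_inertia O).isCompact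

/-- TASK V5 (sixth statement). The inertia group of the trivial valuation ring is trivial.

PROOF. The valuation of a nonzero element is `1`, so `g x - x = 0` by `mem_inertia_iff`. -/
theorem inertia_top (g : (⊤ : ValuationSubring Ω).decompositionSubgroup K)
    (hg : g ∈ (⊤ : ValuationSubring Ω).inertiaSubgroup K) : (g : Ω ≃ₐ[K] Ω) = 1 := by
  rw [mem_inertia_iff] at hg
  ext x
  have h1 := hg x trivial
  rw [v5_val_lt_one_iff] at h1
  rcases h1 with h1 | h1
  · exact sub_eq_zero.1 h1
  · exact absurd trivial h1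

instance normal_inertia : (O.inertiaSubgroup K).Normal := MonoidHom.normal_ker _

end

section

variable {K : Type u} {Ω : Type v} [Field K] [Field Ω] [Algebra K Ω] (O : ValuationSubring Ω)
  {K' : Type u} {Ω' : Type v} [Field K'] [Field Ω'] [Algebra K' Ω'] (φ : Ω →+* Ω')

/-- TASK V5 (seventh statement). Functoriality. Let `φ : Ω → Ω'` be a homomorphism and let `g` and `g'`
be compatible automorphisms. If `g'` is in the decomposition group of `O'`, then `g` is in the
decomposition group of `O = φ⁻¹ (O')`; the same for the inertia groups.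

PROOF. `mem_decomp_iff` and `mem_inertia_iff`; `(O'.comap φ).valuation x < 1 ↔ O'.valuation (φ x) < 1`
(`x = 0` or `x⁻¹ ∉ O`). -/
theorem val_comap_lt_one (O' : ValuationSubring Ω') (x : Ω) :
    (O'.comap φ).valuation x < 1 ↔ O'.valuation (φ x) < 1 := by
  rw [v5_val_lt_one_iff, v5_val_lt_one_iff, ← map_inv₀, map_eq_zero_iff φ φ.injective]
  rfl

theorem decomp_comap (O' : ValuationSubring Ω') {g : Ω ≃ₐ[K] Ω} {g' : Ω' ≃ₐ[K'] Ω'}
    (h : ∀ x, φ (g x) = g' (φ x)) (hg' : g' ∈ O'.decompositionSubgroup K') :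
    g ∈ (O'.comap φ).decompositionSubgroup K := by
  rw [mem_decomp_iff] at hg' ⊢
  intro x
  have h1 := hg' (φ x)
  rw [← h] at h1
  exact h1

theorem inertia_comap (O' : ValuationSubring Ω') {g : (O'.comap φ).decompositionSubgroup K}
    {g' : O'.decompositionSubgroup K'}
    (h : ∀ x, φ ((g : Ω ≃ₐ[K] Ω) x) = (g' : Ω' ≃ₐ[K'] Ω') (φ x))
    (hg' : g' ∈ O'.inertiaSubgroup K') : g ∈ (O'.comap φ).inertiaSubgroup K := by
  rw [mem_inertia_iff] at hg' ⊢
  intro x hx
  rw [val_comap_lt_one, map_sub, h]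
  exact hg' (φ x) hx

/-- TASK V5 (eighth statement). The converse, for bijective `φ`. -/
theorem decomp_comap_iff (hφ : Function.Bijective φ) (O' : ValuationSubring Ω')
    {g : Ω ≃ₐ[K] Ω} {g' : Ω' ≃ₐ[K'] Ω'} (h : ∀ x, φ (g x) = g' (φ x)) :
    g' ∈ O'.decompositionSubgroup K' ↔ g ∈ (O'.comap φ).decompositionSubgroup K := by
  refine ⟨decomp_comap φ O' h, ?_⟩
  intro hg
  rw [mem_decomp_iff] at hg ⊢
  intro y
  obtain ⟨x, rfl⟩ := hφ.2 y
  rw [← h]
  exact hg x

theorem inertia_comap_iff (hφ : Function.Bijective φ) (O' : ValuationSubring Ω')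
    {g : (O'.comap φ).decompositionSubgroup K} {g' : O'.decompositionSubgroup K'}
    (h : ∀ x, φ ((g : Ω ≃ₐ[K] Ω) x) = (g' : Ω' ≃ₐ[K'] Ω') (φ x)) :
    g' ∈ O'.inertiaSubgroup K' ↔ g ∈ (O'.comap φ).inertiaSubgroup K := by
  refine ⟨inertia_comap φ O' h, ?_⟩
  intro hg
  rw [mem_inertia_iff] at hg ⊢
  intro y hy
  obtain ⟨x, rfl⟩ := hφ.2 y
  have h1 := hg x hy
  rw [val_comap_lt_one, map_sub, h] at h1
  exact h1

end

end GC
end

section

/-!
# Surjectivity of the norm for subgroups of prime index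
-/

namespace GC

universe u v w

variable {F Ω : Type u} [Field F] [Field Ω] [Algebra F Ω] [IsAlgClosed Ω]
  [Algebra.IsAlgebraic F Ω] {Δ : Type u} [Group Δ] [TopologicalSpace Δ] [IsTopologicalGroup Δ]
  [CompactSpace Δ] [TotallyDisconnectedSpace Δ]

omit [IsAlgClosed Ω] [Algebra.IsAlgebraic F Ω] [TopologicalSpace Δ] [IsTopologicalGroup Δ]
  [CompactSpace Δ] [TotallyDisconnectedSpace Δ] in
/-- values of sums -/
theorem c5_val_sum {θ : Δ →* (Ω ≃ₐ[F] Ω)} {ι : Type*} (s : Finset ι) (f : ι → WMod θ) :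
    ((∑ i ∈ s, f i : WMod θ).val : Ω) = ∏ i ∈ s, ((f i).val : Ω) := by
  classical
  induction s using Finset.induction_on with
  | empty => simp
  | insert i s hi ih =>
    rw [Finset.sum_insert hi, Finset.prod_insert hi, WMod.val_add, Units.val_mul, ih]

/-- TASK C5. Surjectivity of the norm, from the field-theoretic condition `NormCond`.

PROOF. Let `ζ₀ ∈ F` be a primitive `l`-th root of unity. `Δ ⧸ S` is a group of prime order `l`; choose
a generator, the class of `s ∈ Δ`. Let `k : Δ → ℕ` with `g ∈ s^(k g) S`, `k g < l`; the function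
`f g = algebraMap F Ω ζ₀ ^ (k g)` is a homomorphism `Δ → Ω^×` with kernel `S`, with values in `F`, so
`f (g h) = f g * θ g (f h)`; it is right invariant under the open subgroup `S`. By `h90` there is
`y₀ ≠ 0` with `θ g y₀ * f g = y₀`; `y := y₀⁻¹` satisfies `θ g y = f g * y`. Let `E` be the
intermediate field of the elements fixed by all `θ g` (`IntermediateField.fixedField θ.range`).
`y ^ l ∈ E` (`f g ^ l = 1`), `y ∉ E` (`f s ≠ 1`). Let `a : WMod θ` be fixed by `Δ`; its value `α ≠ 0` is
in `E`. By `hN` there are `x i ∈ E` with `∏ ζ, ∑ i, x i (ζ y)^i = α`. Put `β = ∑ i, x i y^i`; it is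
not zero (it is the factor `ζ = 1` of `α ≠ 0`), and it is fixed by `θ g` for `g ∈ S`
(`θ g y = y`). Let `b = mk β`. For `g ∈ Δ`: `θ g β = ∑ i, x i (f g * y)^i`, and as `q` runs through
`Δ ⧸ S`, `f q.out` runs through the `l` different powers of `ζ₀`, which are the elements of
`Polynomial.nthRootsFinset l 1` (`IsPrimitiveRoot`). So the value of `∑ᶠ q, q.out • b` is
`∏ q, θ q.out β = ∏ ζ, ∑ i, x i (ζ y)^i = α`. -/
theorem norm_of_cond {l : ℕ} (hl : l.Prime) (hN : NormCond l F Ω) {ζ₀ : F}
    (hζ : IsPrimitiveRoot ζ₀ l) {θ : Δ →* (Ω ≃ₐ[F] Ω)} (hθ : Continuous θ)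
    (hi : Function.Injective θ) {S : Subgroup Δ} [S.Normal] (hS : IsOpen (S : Set Δ))
    (hSl : S.index = l) (a : WMod θ) (ha : ∀ g : Δ, g • a = a) :
    ∃ b : WMod θ, (∀ g ∈ S, g • b = b) ∧ ∑ᶠ q : Δ ⧸ S, q.out • b = a := by
  classical
  have : Fact l.Prime := ⟨hl⟩
  have : NeZero l := ⟨hl.ne_zero⟩
  have hfin : Finite (Δ ⧸ S) := finite_quotient hS
  let _ : Fintype (Δ ⧸ S) := Fintype.ofFinite _
  have hcard1 : Nat.card (Δ ⧸ S) = l := hSl
  have hcard2 : Nat.card (rootsOfUnity l F) = l := hζ.card_rootsOfUnity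
  let e : (Δ ⧸ S) ≃* rootsOfUnity l F := mulEquivOfPrimeCardEq hcard1 hcard2
  let r : (Δ ⧸ S) → Ω := fun q => algebraMap F Ω ((e q : Fˣ) : F)
  have hr1 : r 1 = 1 := by simp [r]
  have hrmul : ∀ p q, r (p * q) = r p * r q := by
    intro p q
    simp only [r, map_mul, Subgroup.coe_mul, Units.val_mul]
  have hrpow : ∀ q, r q ^ l = 1 := by
    intro q
    have h1 : ((e q : Fˣ) : F) ^ l = 1 := by
      have h2 := (e q).2
      rw [mem_rootsOfUnity] at h2
      have h3 := congrArg Units.val h2
      simpa using h3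
    simp only [r]
    rw [← map_pow, h1, map_one]
  have hr0 : ∀ q, r q ≠ 0 := by
    intro q h
    have := hrpow q
    rw [h, zero_pow hl.ne_zero] at this
    exact zero_ne_one this
  have hrinj : Function.Injective r := by
    intro p q h
    have h1 : ((e p : Fˣ) : F) = ((e q : Fˣ) : F) := (algebraMap F Ω).injective h
    exact e.injective (Subtype.ext (Units.ext h1))
  -- Hilbert 90
  obtain ⟨y0, hy0, hy⟩ := h90 hθ hi (f := fun g => r (g : Δ ⧸ S)) (fun g => hr0 _)
    (by
      intro g h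
      have h1 : θ g (r (h : Δ ⧸ S)) = r (h : Δ ⧸ S) := (θ g).commutes _
      rw [h1]
      change r ((g * h : Δ) : Δ ⧸ S) = _
      rw [QuotientGroup.mk_mul, hrmul])
    ⟨S, hS, fun g u hu => by
      have h1 : ((g * u : Δ) : Δ ⧸ S) = (g : Δ ⧸ S) := by
        rw [QuotientGroup.mk_mul, (QuotientGroup.eq_one_iff u).2 hu, mul_one]
      change r ((g * u : Δ) : Δ ⧸ S) = _
      rw [h1]⟩
  have hyi : ∀ g, θ g y0⁻¹ = r (g : Δ ⧸ S) * y0⁻¹ := by
    intro g
    have h1 := hy g
    rw [map_inv₀]
    have h2 : θ g y0 ≠ 0 := by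
      intro h3
      rw [h3, zero_mul] at h1
      exact hy0 h1.symm
    refine (eq_inv_of_mul_eq_one_left ?_).symm
    calc r (g : Δ ⧸ S) * y0⁻¹ * θ g y0 = (θ g y0 * r (g : Δ ⧸ S)) * y0⁻¹ := by ring
      _ = 1 := by rw [h1, mul_inv_cancel₀ hy0]
  obtain ⟨y, rfl⟩ : ∃ y, y0 = y⁻¹ := ⟨y0⁻¹, (inv_inv _).symm⟩
  rw [inv_inv] at hyi
  have hy1 : y ≠ 0 := by
    intro h
    exact hy0 (by rw [h, inv_zero])
  -- the field
  set E : IntermediateField F Ω := IntermediateField.fixedField θ.range with hE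
  have hmem : ∀ x : Ω, x ∈ E ↔ ∀ g, θ g x = x := by
    intro x
    rw [hE, IntermediateField.mem_fixedField_iff]
    constructor
    · intro h g
      exact h (θ g) ⟨g, rfl⟩
    · rintro h _ ⟨g, rfl⟩
      exact h g
  have hyl : y ^ l ∈ E := by
    rw [hmem]
    intro g
    rw [map_pow, hyi, mul_pow, hrpow, one_mul]
  have hyE : y ∉ E := by
    intro h
    rw [hmem] at h
    have h1 : ∀ q, r q = 1 := by
      intro q
      obtain ⟨g, rfl⟩ := QuotientGroup.mk_surjective q
      have h2 := hyi g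
      rw [h g] at h2
      have h3 : (r (g : Δ ⧸ S) - 1) * y = 0 := by
        rw [sub_mul, one_mul, ← h2, sub_self]
      rcases mul_eq_zero.1 h3 with h4 | h4
      · exact sub_eq_zero.1 h4
      · exact absurd h4 hy1
    have h5 : Subsingleton (Δ ⧸ S) := ⟨fun p q => hrinj (by rw [h1, h1])⟩
    have h6 : Nat.card (Δ ⧸ S) ≤ 1 := Finite.card_le_one_iff_subsingleton.2 h5
    rw [hcard1] at h6
    exact absurd hl.one_lt (by omega)
  have haE : (a.val : Ω) ∈ E := by
    rw [hmem]
    intro g
    rw [← WMod.val_smul, ha]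
  obtain ⟨x, hx, hprod⟩ := hN E (a.val : Ω) y haE a.val.ne_zero hyl hyE
  have hlpos : 0 < l := hl.pos
  set β : Ω := ∑ i : Fin l, x i * y ^ (i : ℕ) with hβ
  have hβ0 : β ≠ 0 := by
    intro h
    have h1 : (1 : Ω) ∈ Polynomial.nthRootsFinset l (1 : Ω) :=
      (Polynomial.mem_nthRootsFinset hlpos _).2 (one_pow l)
    have h2 : ∏ ζ ∈ Polynomial.nthRootsFinset l (1 : Ω),
        ∑ i : Fin l, x i * (ζ * y) ^ (i : ℕ) = 0 := by
      apply Finset.prod_eq_zero h1
      simp only [one_mul]
      exact h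
    rw [hprod] at h2
    exact a.val.ne_zero h2
  have hθβ : ∀ g, θ g β = ∑ i : Fin l, x i * (r (g : Δ ⧸ S) * y) ^ (i : ℕ) := by
    intro g
    rw [hβ, map_sum]
    refine Finset.sum_congr rfl fun i _ => ?_
    rw [map_mul, map_pow, hyi, (hmem _).1 (hx i) g]
  refine ⟨WMod.mk (Units.mk0 β hβ0), ?_, ?_⟩
  · intro g hg
    apply WMod.ext
    rw [WMod.val_smul, WMod.val_mk, Units.val_mk0, hθβ, (QuotientGroup.eq_one_iff g).2 hg, hr1]
    simp only [one_mul]
    rfl
  · rw [finsum_eq_sum_of_fintype]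
    apply WMod.ext
    rw [c5_val_sum, ← hprod]
    have himg : Finset.univ.image r = Polynomial.nthRootsFinset l (1 : Ω) := by
      apply Finset.eq_of_subset_of_card_le
      · intro z hz
        obtain ⟨q, -, rfl⟩ := Finset.mem_image.1 hz
        exact (Polynomial.mem_nthRootsFinset hlpos _).2 (hrpow q)
      · have h1 : IsPrimitiveRoot (algebraMap F Ω ζ₀) l :=
          hζ.map_of_injective (algebraMap F Ω).injective
        rw [h1.card_nthRootsFinset, Finset.card_image_of_injective _ hrinj, Finset.card_univ,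
          ← Nat.card_eq_fintype_card, hcard1]
    rw [← himg, Finset.prod_image (fun p _ q _ h => hrinj h)]
    refine Finset.prod_congr rfl fun q _ => ?_
    rw [WMod.val_smul, WMod.val_mk, Units.val_mk0, hθβ, QuotientGroup.out_eq']

end GC
end

section

/-!
# Modules of order a power of `l` over `l`-groups
-/

namespace GC

universe u v w z

variable {Γ : Type u} [Group Γ] [TopologicalSpace Γ] [IsTopologicalGroup Γ] [CompactSpace Γ]
  [TotallyDisconnectedSpace Γ]

/-- TASK C8 (first statement). Vanishing for the middle module.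

PROOF. Let `b ∈ Coch B ⊤ ⊥ (j+1)` be a cocycle. `π ∘ b = d γ` (`hC`), lift `γ` to
`β ∈ Coch B ⊤ ⊥ j` (`SES.lift`); `π ∘ (b - d β) = 0`, so `b - d β = i ∘ a` with `d a = 0`,
`a = d a'` (`hA`), `b = d (β + i ∘ a')`. -/
theorem SES.van_mid {A : Type v} {B : Type w} {C : Type z} [AddCommGroup A]
    [AddCommGroup B] [AddCommGroup C] [DistribMulAction Γ A] [DistribMulAction Γ B]
    [DistribMulAction Γ C] {i : A →+ B} {π : B →+ C} (h : SES Γ i π) (hB : Disc Γ B) {j : ℕ}
    (hA : VanAt Γ A j) (hC : VanAt Γ C j) : VanAt Γ B j := by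
  intro b hb hdb
  have h1 : (fun x => π (b x)) ∈ Coch C (⊤ : Subgroup Γ) ⊥ (j + 1) := coch_map π h.π_smul hb
  have h2 : d (fun x => π (b x)) = 0 := by
    rw [d_map, hdb]
    funext x
    simp
  obtain ⟨γ, hγ, hdγ⟩ := hC _ h1 h2
  obtain ⟨β, hβ, hβγ⟩ := h.lift hB hγ
  have h3 : b - d β ∈ Coch B (⊤ : Subgroup Γ) ⊥ (j + 1) := sub_mem hb (d_mem hβ)
  have h4 : ∀ x, π ((b - d β) x) = 0 := by
    intro x
    have e1 : (fun x => π (β x)) = γ := funext hβγ
    have e2 : d γ x = π (d β x) := by rw [← e1, d_map]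
    have e3 := congrFun hdγ x
    rw [Pi.sub_apply, map_sub, ← e2, e3, sub_self]
  obtain ⟨a, ha, hia⟩ := h.pull h3 h4
  have h5 : d a = 0 := by
    funext x
    apply h.inj
    have e1 : (fun x => i (a x)) = b - d β := funext hia
    have e2 : d (fun x => i (a x)) x = i (d a x) := by rw [d_map]
    rw [← e2, e1, d_sub, hdb, d_d]
    simp
  obtain ⟨a', ha', hda'⟩ := hA a ha h5
  refine ⟨β + fun x => i (a' x), add_mem hβ (coch_map i h.i_smul ha'), ?_⟩
  rw [d_add, d_map, hda']
  funext x
  simp [hia x]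

omit [TopologicalSpace Γ] [IsTopologicalGroup Γ] [CompactSpace Γ] [TotallyDisconnectedSpace Γ] in
/-- A group acting through a finite `l`-group on a nonzero module of order a power of `l` fixes an
element of order `l`. -/
theorem c8_exists_fixed {l : ℕ} (hl : l.Prime) {V : Subgroup Γ} {k : ℕ} (hVk : V.index = l ^ k)
    (m : ℕ) (A : Type v) [AddCommGroup A] [DistribMulAction Γ A] (hA : Nat.card A = l ^ (m + 1))
    (hVA : ∀ v ∈ V, ∀ a : A, v • a = a) :
    ∃ a₀ : A, addOrderOf a₀ = l ∧ ∀ g : Γ, g • a₀ = a₀ := by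
  have : Fact l.Prime := ⟨hl⟩
  have hfin : Finite A := Nat.finite_of_card_ne_zero (by rw [hA]; exact pow_ne_zero _ hl.ne_zero)
  let F : AddSubgroup A :=
    { carrier := {a | ∀ g : Γ, g • a = a}
      zero_mem' := fun g => smul_zero g
      add_mem' := fun {a b} ha hb g => by rw [smul_add, ha g, hb g]
      neg_mem' := fun {a} ha g => by rw [smul_neg, ha g] }
  have hF : ∀ a : A, a ∈ F ↔ ∀ g : Γ, g • a = a := fun a => Iff.rfl
  -- the group of permutations
  let P : Subgroup (Equiv.Perm A) := (MulAction.toPermHom Γ A).range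
  have hker : V ≤ (MulAction.toPermHom Γ A).ker := by
    intro v hv
    rw [MonoidHom.mem_ker]
    ext a
    exact hVA v hv a
  have hcard : Nat.card P ∣ l ^ k := by
    have h1 : Nat.card P = (MulAction.toPermHom Γ A).ker.index := by
      rw [Subgroup.index_ker]
    rw [h1, ← hVk]
    exact Subgroup.index_dvd_of_le hker
  obtain ⟨t, -, ht⟩ := (Nat.dvd_prime_pow hl).1 hcard
  have hP : IsPGroup l P := IsPGroup.of_card ht
  have hfix : ∀ a : A, a ∈ MulAction.fixedPoints P A ↔ ∀ g : Γ, g • a = a := by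
    intro a
    constructor
    · intro h g
      exact h ⟨MulAction.toPermHom Γ A g, g, rfl⟩
    · rintro h ⟨_, g, rfl⟩
      exact h g
  have hdvd : l ∣ Nat.card A := by
    rw [hA]
    exact dvd_pow_self l (Nat.succ_ne_zero m)
  obtain ⟨b, hb, hb0⟩ := hP.exists_fixed_point_of_prime_dvd_card_of_fixed_point A hdvd
    (a := 0) ((hfix 0).2 fun g => smul_zero g)
  have hbF : b ∈ F := (hF b).2 ((hfix b).1 hb)
  have hFdvd : Nat.card F ∣ l ^ (m + 1) := by
    rw [← hA]
    exact AddSubgroup.card_addSubgroup_dvd_card F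
  have hlF : l ∣ Nat.card F := by
    obtain ⟨s, -, hs⟩ := (Nat.dvd_prime_pow hl).1 hFdvd
    rcases Nat.eq_zero_or_pos s with rfl | hs0
    · exfalso
      rw [pow_zero, Nat.card_eq_one_iff_unique] at hs
      have := hs.1
      have h0 : (⟨b, hbF⟩ : F) = 0 := Subsingleton.elim _ _
      exact hb0 (congrArg Subtype.val h0).symm
    · rw [hs]
      exact dvd_pow_self l hs0.ne'
  obtain ⟨x, hx⟩ := exists_prime_addOrderOf_dvd_card' (G := F) l hlF
  refine ⟨x, ?_, (hF x).1 x.2⟩
  rw [← hx]
  exact AddSubgroup.addOrderOf_coe x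

/-- TASK C8 (second statement). Let `Γ / V` be a finite `l`-group, and let `A` be a module of order a
power of `l` on which `V` acts trivially. If `H^2(Γ, ·)` vanishes for all modules of order `l` with
trivial action, then it vanishes for `A`.

PROOF. Induction on `m`, for all `A`. `m = 0`: `A` is trivial, `b = 0`. `m + 1`: the group
`Γ ⧸ V` (order `l ^ k`) acts on `A`; the number of fixed points is congruent to `Nat.card A`
modulo `l` (`IsPGroup.card_modEq_card_fixedPoints`), hence divisible by `l`, and `0` is fixed, so there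
is a fixed `a₁ ≠ 0`, and a multiple `a₀` of it has order `l` and is fixed by `Γ`. Let
`A₁ = AddSubgroup.zmultiples a₀` (order `l`; `Γ` acts trivially; as a `Γ`-module define the action by
restriction: `⟨g • a, _⟩`), `A₂ = A ⧸ A₁` with the induced action
(`QuotientAddGroup.map`), of order `l ^ m`, with trivial action of `V`. `SES Γ A₁.subtype (mk' A₁)`.
`VanAt Γ A₁ 1` by `h`, `VanAt Γ A₂ 1` by induction, `SES.van_mid`; `A` is discrete since `V` is
open. -/
theorem devissage {l : ℕ} (hl : l.Prime)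
    (h : ∀ (A : Type v) [AddCommGroup A] [DistribMulAction Γ A], Nat.card A = l →
      (∀ (g : Γ) (a : A), g • a = a) → VanAt Γ A 1) {V : Subgroup Γ} [V.Normal]
    (hV : IsOpen (V : Set Γ)) {k : ℕ} (hVk : V.index = l ^ k) (m : ℕ) (A : Type v)
    [AddCommGroup A] [DistribMulAction Γ A] (hA : Nat.card A = l ^ m)
    (hVA : ∀ v ∈ V, ∀ a : A, v • a = a) : VanAt Γ A 1 := by
  induction m generalizing A with
  | zero =>
    rw [pow_zero, Nat.card_eq_one_iff_unique] at hA
    have := hA.1
    intro c _ _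
    exact ⟨0, zero_mem _, Subsingleton.elim _ _⟩
  | succ m ih =>
    obtain ⟨a₀, ha₀, hfix⟩ := c8_exists_fixed hl hVk m A hA hVA
    let A₁ : AddSubgroup A := AddSubgroup.zmultiples a₀
    have hA₁ : ∀ (g : Γ) (a : A₁), g • (a : A) = a := by
      rintro g ⟨_, n, rfl⟩
      change g • (n • a₀) = n • a₀
      rw [smul_comm, hfix g]
    let act₁ : DistribMulAction Γ A₁ :=
      { smul := fun _ a => a
        one_smul := fun _ => rfl
        mul_smul := fun _ _ _ => rfl
        smul_zero := fun _ => rfl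
        smul_add := fun _ _ _ => rfl }
    have hle : ∀ g : Γ, A₁ ≤ A₁.comap (DistribSMul.toAddMonoidHom A g) := by
      intro g a ha
      change g • a ∈ A₁
      rw [hA₁ g ⟨a, ha⟩]
      exact ha
    let act₂ : DistribMulAction Γ (A ⧸ A₁) :=
      { smul := fun g => QuotientAddGroup.map A₁ A₁ (DistribSMul.toAddMonoidHom A g) (hle g)
        one_smul := fun q => by
          induction q using QuotientAddGroup.induction_on with
          | H a =>
            change ((((1 : Γ) • a : A) : A ⧸ A₁)) = a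
            rw [one_smul]
        mul_smul := fun g g' q => by
          induction q using QuotientAddGroup.induction_on with
          | H a =>
            change ((((g * g') • a : A) : A ⧸ A₁)) = ((g • g' • a : A) : A ⧸ A₁)
            rw [mul_smul]
        smul_zero := fun g => map_zero _
        smul_add := fun g => map_add _ }
    have hmk : ∀ (g : Γ) (a : A), (g • (a : A ⧸ A₁)) = ((g • a : A) : A ⧸ A₁) := fun _ _ => rfl
    have hses : SES Γ A₁.subtype (QuotientAddGroup.mk' A₁) :=
      { i_smul := fun g a => (hA₁ g a).symm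
        π_smul := fun g a => rfl
        inj := Subtype.val_injective
        surj := QuotientAddGroup.mk'_surjective A₁
        exact := fun b => by
          rw [QuotientAddGroup.mk'_apply, QuotientAddGroup.eq_zero_iff]
          exact ⟨fun hb => ⟨⟨b, hb⟩, rfl⟩, by rintro ⟨a, rfl⟩; exact a.2⟩ }
    have hc₁ : Nat.card A₁ = l := by
      rw [← ha₀]
      exact Nat.card_zmultiples a₀
    have hc₂ : Nat.card (A ⧸ A₁) = l ^ m := by
      have h2 := AddSubgroup.card_eq_card_quotient_mul_card_addSubgroup A₁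
      rw [hA, hc₁, pow_succ] at h2
      exact (Nat.eq_of_mul_eq_mul_right hl.pos h2).symm
    refine hses.van_mid (fun a => ⟨V, hV, fun g hg => hVA g hg a⟩) (h A₁ hc₁ fun _ _ => rfl)
      (ih (A ⧸ A₁) hc₂ ?_)
    intro v hv q
    induction q using QuotientAddGroup.induction_on with
    | H a => rw [hmk, hVA v hv]

end GC
end
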