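import Mathlib
import Pool.Agent.Lib.MP_859dd5_ag.Mg.G033
import Pool.Agent.Lib.MP_859dd5_ag.Mg.G059
import Pool.Agent.Lib.MP_859dd5_ag.S.Fun

section

/-!
# Homomorphisms of fields of rational functions
-/

namespace GC

universe u v w

variable {K : Type u} {L : Type v} {E : Type w} [Field K] [Field L] [Field E]

/-- The homomorphism of fields of rational functions attached to a homomorphism of fields. -/
noncomputable def rmap (f : K →+* L) : RatFunc K →+* RatFunc L :=
  RatFunc.mapRingHom (Polynomial.mapRingHom f)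
    (nonZeroDivisors_le_comap_nonZeroDivisors_of_injective _
      (Polynomial.map_injective _ f.injective))

/-- Homomorphisms of the field of rational functions are determined by their values at the constants
and at the variable. -/
lemma ratFunc_hom_ext {f g : RatFunc K →+* L} (hC : ∀ c : K, f (RatFunc.C c) = g (RatFunc.C c))
    (hX : f RatFunc.X = g RatFunc.X) : f = g := by
  apply IsFractionRing.injective_comp_algebraMap (A := Polynomial K)
  refine Polynomial.ringHom_ext (fun c => ?_) ?_
  · exact hC c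
  · simpa using hX

lemma rmap_algebraMap_poly (f : K →+* L) (P : Polynomial K) :
    rmap f (algebraMap (Polynomial K) (RatFunc K) P) =
      algebraMap (Polynomial L) (RatFunc L) (P.map f) := by
  have h := RatFunc.map_apply_div (R := L) (Polynomial.mapRingHom f)
    (nonZeroDivisors_le_comap_nonZeroDivisors_of_injective _
      (Polynomial.map_injective _ f.injective)) P 1
  rw [map_one, div_one, map_one, map_one, div_one] at h
  exact h

@[simp] lemma rmap_C (f : K →+* L) (c : K) : rmap f (RatFunc.C c) = RatFunc.C (f c) := by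
  have h := rmap_algebraMap_poly f (Polynomial.C c)
  rw [Polynomial.map_C] at h
  exact h

@[simp] lemma rmap_X (f : K →+* L) : rmap f RatFunc.X = RatFunc.X := by
  have h := rmap_algebraMap_poly f Polynomial.X
  rw [Polynomial.map_X, RatFunc.algebraMap_X, RatFunc.algebraMap_X] at h
  exact h

lemma rmap_comp (f : K →+* L) (g : L →+* E) : rmap (g.comp f) = (rmap g).comp (rmap f) := by
  apply ratFunc_hom_ext
  · intro c
    simp
  · simp

lemma rmap_comp_algebraMap (f : K →+* L) :
    (rmap f).comp (algebraMap K (RatFunc K)) = (algebraMap L (RatFunc L)).comp f := by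
  ext c
  exact rmap_C f c

end GC
end

section

/-!
# Traces of discrete valuation rings
-/

namespace GC

universe u v

private theorem V3_dvr_of {K : Type u} [Field K] (A : ValuationSubring K) (a : K) (ha0 : a ≠ 0)
    (ha1 : A.valuation a < 1)
    (h : ∀ x : K, x ≠ 0 → ∃ m : ℤ, A.valuation x = A.valuation a ^ m) :
    IsDiscreteValuationRing A := by
  have hv0 : 0 < A.valuation a := (Valuation.pos_iff A.valuation).2 ha0
  have haA : a ∈ A := (A.valuation_le_one_iff a).1 ha1.le
  have hnat : ∀ x : A, x ≠ 0 → ∃ n : ℕ, A.valuation (x : K) = A.valuation a ^ n := by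
    intro x hx
    have hx' : (x : K) ≠ 0 := fun hh => hx (Subtype.ext hh)
    obtain ⟨m, hm⟩ := h x hx'
    rcases lt_or_ge m 0 with hneg | hpos
    · exfalso
      have h1 : 1 < A.valuation a ^ m := one_lt_zpow_of_neg₀ hv0 ha1 hneg
      have h2 : A.valuation (x : K) ≤ 1 := A.valuation_le_one x
      rw [hm] at h2
      exact absurd h1 (not_lt.2 h2)
    · obtain ⟨n, rfl⟩ := Int.eq_ofNat_of_zero_le hpos
      refine ⟨n, ?_⟩
      rw [hm]
      exact zpow_natCast _ _
  apply IsDiscreteValuationRing.ofHasUnitMulPowIrreducibleFactorization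
  refine ⟨⟨a, haA⟩, ⟨?_, ?_⟩, ?_⟩
  · intro hu
    have h1 := (A.valuation_eq_one_iff _).1 hu
    exact absurd h1 ha1.ne
  · intro x y hxy
    have hxy' : a = (x : K) * y := congrArg Subtype.val hxy
    have hx0 : x ≠ 0 := by
      rintro rfl
      apply ha0
      rw [hxy']
      simp
    have hy0 : y ≠ 0 := by
      rintro rfl
      apply ha0
      rw [hxy']
      simp
    obtain ⟨m, hm⟩ := hnat x hx0
    obtain ⟨k, hk⟩ := hnat y hy0
    have h1 : A.valuation a ^ 1 = A.valuation a ^ (m + k) := by
      rw [pow_one, pow_add, ← hm, ← hk, ← map_mul, ← hxy']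
    have h2 : 1 = m + k := pow_right_injective₀ hv0 ha1.ne h1
    rcases Nat.eq_zero_or_pos m with h3 | h3
    · left
      rw [A.valuation_eq_one_iff, hm, h3, pow_zero]
    · right
      have h4 : k = 0 := by omega
      rw [A.valuation_eq_one_iff, hk, h4, pow_zero]
  · intro x hx
    obtain ⟨n, hn⟩ := hnat x hx
    refine ⟨n, ?_⟩
    have h1 : A.valuation (x : K) = A.valuation (((⟨a, haA⟩ : A) ^ n : A) : K) := by
      rw [hn]
      simp
    obtain ⟨w, hw⟩ := (A.valuation_eq_iff _ _).1 h1
    refine ⟨w, ?_⟩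
    apply Subtype.ext
    rw [← hw]
    simp [mul_comm]

private theorem V3_exists_of_dvr {K : Type u} [Field K] (A : ValuationSubring K)
    (hA : IsDiscreteValuationRing A) :
    ∃ a : K, a ≠ 0 ∧ A.valuation a < 1 ∧
      ∀ x : K, x ≠ 0 → ∃ m : ℤ, A.valuation x = A.valuation a ^ m := by
  obtain ⟨ϖ, hϖ⟩ := IsDiscreteValuationRing.exists_irreducible A
  have key : ∀ x : A, x ≠ 0 → ∃ n : ℕ, A.valuation (x : K) = A.valuation (ϖ : K) ^ n := by
    intro x hx
    obtain ⟨n, u, hu⟩ := IsDiscreteValuationRing.eq_unit_mul_pow_irreducible hx hϖ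
    refine ⟨n, ?_⟩
    rw [hu]
    simp
  refine ⟨ϖ, ?_, ?_, ?_⟩
  · intro h
    exact hϖ.ne_zero (Subtype.ext h)
  · rcases A.valuation_lt_one_or_eq_one ϖ with h | h
    · exact h
    · exact absurd ((A.valuation_eq_one_iff ϖ).2 h) hϖ.not_isUnit
  · intro x hx
    rcases A.mem_or_inv_mem x with h | h
    · obtain ⟨n, hn⟩ := key ⟨x, h⟩ (fun hh => hx (congrArg Subtype.val hh))
      refine ⟨n, ?_⟩
      rw [zpow_natCast]
      exact hn
    · obtain ⟨n, hn⟩ := key ⟨x⁻¹, h⟩ (fun hh => inv_ne_zero hx (congrArg Subtype.val hh))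
      refine ⟨-n, ?_⟩
      rw [zpow_neg, zpow_natCast, ← hn, map_inv₀, inv_inv]

private theorem V3_equiv {K : Type u} {L : Type v} [Field K] [Field L] (f : K →+* L)
    (R : ValuationSubring L) : (R.comap f).valuation.IsEquiv (R.valuation.comap f) := by
  apply Valuation.isEquiv_of_val_le_one
  intro x
  rw [ValuationSubring.valuation_le_one_iff, ValuationSubring.mem_comap, Valuation.comap_apply,
    ValuationSubring.valuation_le_one_iff]

/-- A positive generator. -/
private theorem V3_gen (H : AddSubgroup ℤ) (hH : ∃ n ∈ H, n ≠ 0) :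
    ∃ e ∈ H, 0 < e ∧ ∀ n ∈ H, ∃ k : ℤ, n = e * k := by
  obtain ⟨a, ha⟩ := Int.subgroup_cyclic H
  have hmem : ∀ n, n ∈ H ↔ ∃ k : ℤ, n = a * k := by
    intro n
    rw [ha, AddSubgroup.mem_closure_singleton]
    constructor
    · rintro ⟨k, hk⟩
      exact ⟨k, by rw [← hk, smul_eq_mul, mul_comm]⟩
    · rintro ⟨k, hk⟩
      exact ⟨k, by rw [hk, smul_eq_mul, mul_comm]⟩
  have ha0 : a ≠ 0 := by
    rintro rfl
    obtain ⟨n, hn, hn0⟩ := hH
    obtain ⟨k, hk⟩ := (hmem n).1 hn
    exact hn0 (by simpa using hk)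
  rcases lt_or_gt_of_ne ha0 with h | h
  · refine ⟨-a, (hmem _).2 ⟨-1, by ring⟩, by omega, fun n hn => ?_⟩
    obtain ⟨k, hk⟩ := (hmem n).1 hn
    exact ⟨-k, by rw [hk]; ring⟩
  · refine ⟨a, (hmem _).2 ⟨1, by ring⟩, h, fun n hn => ?_⟩
    exact (hmem n).1 hn

/-- TASK V3 (first statement). The trace of a discrete valuation ring on a subfield is trivial or a
discrete valuation ring.

PROOF. Let `ϖ` be a uniformizer of `R`: each `x ∈ L^×` is `ϖ^n` times a unit, `n = v x ∈ ℤ`. The map
`K^× → ℤ`, `a ↦ v (f a)` is a homomorphism; its image is `e ℤ`. If `e = 0` the trace is `⊤`. If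
`e > 0`, let `v (f a) = e`; each `b ∈ K^×` is `a^m` times `u` with `f u` a unit of `R`, so `u` is a
unit of the trace `S`; `a ∈ S` is irreducible, `S` is not a field, and each nonzero element of `S` is
associated to a power of `a` (`IsDiscreteValuationRing.ofHasUnitMulPowIrreducibleFactorization`). -/
theorem comap_dvr {K : Type u} {L : Type v} [Field K] [Field L] (f : K →+* L)
    (R : ValuationSubring L) (hR : IsDiscreteValuationRing R) :
    R.comap f = ⊤ ∨ IsDiscreteValuationRing (R.comap f) := by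
  obtain ⟨ϖ, hϖ0, hϖ1, hϖ⟩ := V3_exists_of_dvr R hR
  have hv0 : 0 < R.valuation ϖ := (Valuation.pos_iff R.valuation).2 hϖ0
  let H : AddSubgroup ℤ :=
    { carrier := {n | ∃ b : K, b ≠ 0 ∧ R.valuation (f b) = R.valuation ϖ ^ n}
      zero_mem' := ⟨1, one_ne_zero, by simp⟩
      add_mem' := by
        rintro m n ⟨b, hb, hb'⟩ ⟨c, hc, hc'⟩
        refine ⟨b * c, mul_ne_zero hb hc, ?_⟩
        rw [map_mul, map_mul, hb', hc', zpow_add₀ hv0.ne']
      neg_mem' := by
        rintro m ⟨b, hb, hb'⟩
        refine ⟨b⁻¹, inv_ne_zero hb, ?_⟩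
        rw [map_inv₀, map_inv₀, hb', zpow_neg] }
  by_cases hH : ∃ n ∈ H, n ≠ 0
  · right
    obtain ⟨e, ⟨a, ha0, ha⟩, he, hgen⟩ := V3_gen H hH
    have hE := V3_equiv f R
    apply V3_dvr_of (R.comap f) a ha0
    · rw [(Valuation.isEquiv_iff_val_lt_one.1 hE), Valuation.comap_apply, ha]
      exact zpow_lt_one₀ hv0 hϖ1 he
    · intro x hx
      obtain ⟨n, hn⟩ := hϖ (f x) ((map_ne_zero f).2 hx)
      obtain ⟨k, hk⟩ := hgen n ⟨x, hx, hn⟩
      refine ⟨k, ?_⟩
      rw [← map_zpow₀, hE.eq_iff, Valuation.comap_apply, Valuation.comap_apply, map_zpow₀,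
        map_zpow₀, ha, hn, hk, zpow_mul]
  · left
    rw [eq_top_iff]
    intro x _
    rw [ValuationSubring.mem_comap]
    by_cases hx : x = 0
    · rw [hx, map_zero]
      exact R.zero_mem
    · obtain ⟨n, hn⟩ := hϖ (f x) ((map_ne_zero f).2 hx)
      have hn0 : n = 0 := by
        by_contra hne
        exact hH ⟨n, ⟨x, hx, hn⟩, hne⟩
      rw [← ValuationSubring.valuation_le_one_iff, hn, hn0, zpow_zero]

private theorem V3_sum {L : Type v} [Field L] (R : ValuationSubring L) {ι : Type*} (s : Finset ι)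
    (g : ι → L) (hs : ∑ i ∈ s, g i = 0) (hne : ∃ i ∈ s, g i ≠ 0) :
    ∃ i ∈ s, ∃ j ∈ s, i ≠ j ∧ g i ≠ 0 ∧ R.valuation (g i) = R.valuation (g j) := by
  classical
  obtain ⟨i0, hi0, hi0'⟩ := hne
  obtain ⟨i, hi, hmax⟩ := Finset.exists_max_image s (fun i => R.valuation (g i)) ⟨i0, hi0⟩
  have hgi : g i ≠ 0 := by
    intro h
    have h1 := hmax i0 hi0
    rw [h, map_zero] at h1
    have h2 : 0 < R.valuation (g i0) := (Valuation.pos_iff R.valuation).2 hi0'
    exact absurd h2 (not_lt.2 h1)
  by_contra hcon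
  push Not at hcon
  have hlt : ∀ j ∈ s.erase i, R.valuation (g j) < R.valuation (g i) := by
    intro j hj
    rw [Finset.mem_erase] at hj
    exact lt_of_le_of_ne (hmax j hj.2) (Ne.symm (hcon i hi j hj.2 hj.1.symm hgi))
  have h3 : R.valuation (∑ j ∈ s.erase i, g j) < R.valuation (g i) :=
    Valuation.map_sum_lt _ ((Valuation.ne_zero_iff _).2 hgi) hlt
  have h4 : ∑ j ∈ s.erase i, g j = - g i := by
    have h5 := Finset.sum_erase_add s g hi
    rw [hs] at h5
    exact eq_neg_of_add_eq_zero_left h5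
  rw [h4, Valuation.map_neg] at h3
  exact lt_irrefl _ h3

private theorem V3_pow {K : Type u} {L : Type v} [Field K] [Field L] [Algebra K L]
    [FiniteDimensional K L] (R : ValuationSubring L) (x : L) (hx : x ≠ 0) :
    ∃ k : ℕ, 0 < k ∧ k ≤ Module.finrank K L ∧ ∃ c : K, c ≠ 0 ∧
      R.valuation x ^ k = R.valuation (algebraMap K L c) := by
  have hint : IsIntegral K x := Algebra.IsIntegral.isIntegral x
  have hmon := minpoly.monic hint
  have hsum : ∑ i ∈ Finset.range ((minpoly K x).natDegree + 1),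
      algebraMap K L ((minpoly K x).coeff i) * x ^ i = 0 := by
    have h := minpoly.aeval K x
    rw [Polynomial.aeval_eq_sum_range] at h
    simpa only [Algebra.smul_def] using h
  obtain ⟨i, hi, j, hj, hij, hi0, hv⟩ := V3_sum R _ _ hsum
    ⟨(minpoly K x).natDegree, Finset.mem_range.2 (Nat.lt_succ_self _), by
      rw [show (minpoly K x).coeff (minpoly K x).natDegree = 1 from hmon.coeff_natDegree, map_one,
        one_mul]
      exact pow_ne_zero _ hx⟩
  have hdeg : (minpoly K x).natDegree ≤ Module.finrank K L := minpoly.natDegree_le x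
  rw [Finset.mem_range] at hi hj
  have hci : (minpoly K x).coeff i ≠ 0 := by
    intro h
    rw [h, map_zero, zero_mul] at hi0
    exact hi0 rfl
  have hcj : (minpoly K x).coeff j ≠ 0 := by
    intro h
    rw [h, map_zero, zero_mul, map_zero] at hv
    exact hi0 ((Valuation.zero_iff _).1 hv)
  have hvx : R.valuation x ≠ 0 := (Valuation.ne_zero_iff _).2 hx
  rw [map_mul, map_mul, map_pow, map_pow] at hv
  have hvi : R.valuation (algebraMap K L ((minpoly K x).coeff i)) ≠ 0 :=
    (Valuation.ne_zero_iff _).2 ((map_ne_zero _).2 hci)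
  have hvj : R.valuation (algebraMap K L ((minpoly K x).coeff j)) ≠ 0 :=
    (Valuation.ne_zero_iff _).2 ((map_ne_zero _).2 hcj)
  rcases lt_or_gt_of_ne hij with h | h
  · refine ⟨j - i, by omega, by omega, (minpoly K x).coeff i / (minpoly K x).coeff j,
      div_ne_zero hci hcj, ?_⟩
    have h1 : R.valuation x ^ j = R.valuation x ^ (j - i) * R.valuation x ^ i := by
      rw [← pow_add]
      congr 1
      omega
    rw [map_div₀, map_div₀, eq_div_iff hvj]
    rw [h1, ← mul_assoc] at hv
    have h2 := mul_right_cancel₀ (pow_ne_zero i hvx) hv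
    rw [mul_comm]
    exact h2.symm
  · refine ⟨i - j, by omega, by omega, (minpoly K x).coeff j / (minpoly K x).coeff i,
      div_ne_zero hcj hci, ?_⟩
    have h1 : R.valuation x ^ i = R.valuation x ^ (i - j) * R.valuation x ^ j := by
      rw [← pow_add]
      congr 1
      omega
    rw [map_div₀, map_div₀, eq_div_iff hvi]
    rw [h1, ← mul_assoc] at hv
    have h2 := mul_right_cancel₀ (pow_ne_zero j hvx) hv
    rw [mul_comm]
    exact h2

/-- TASK V3 (second statement). A valuation ring of a finite extension whose trace is a discrete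
valuation ring is a discrete valuation ring.

PROOF. Let `a ∈ K` be a uniformizer of the trace `S`, `n = [L : K]`. If `x_0, …, x_n ∈ L^×`, a
nontrivial relation `∑ c_i x_i = 0` over `K` shows that two of the terms have the same valuation, so
`v (x_i / x_j) ∈ v (K^×) = ⟨v a⟩` for some `i ≠ j`. So the value group `Γ` of `R` (a linearly ordered,
torsion-free commutative group) contains `⟨v a⟩ ≅ ℤ` with finite index `≤ n`; so `γ^(n!) ∈ ⟨v a⟩` for
all `γ ∈ Γ`, and `γ ↦ γ^(n!)` is injective: `Γ` is isomorphic to a nonzero subgroup of `ℤ`, with a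
generator `v ϖ < 1`. So each element of `L^×` is a power of `ϖ` times a unit of `R`, and `R` is a
discrete valuation ring as in the first statement. (Alternatively, look in Mathlib for the
Krull-Akizuki theorem or for extensions of discrete valuations.) -/
theorem dvr_of_finite {K : Type u} {L : Type v} [Field K] [Field L] [Algebra K L]
    [FiniteDimensional K L] (R : ValuationSubring L)
    (hR : IsDiscreteValuationRing (R.comap (algebraMap K L))) : IsDiscreteValuationRing R := by
  obtain ⟨a, ha0, ha1, ha⟩ := V3_exists_of_dvr _ hR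
  have hE := V3_equiv (algebraMap K L) R
  have hα0 : algebraMap K L a ≠ 0 := (map_ne_zero _).2 ha0
  have hα1 : R.valuation (algebraMap K L a) < 1 :=
    (Valuation.isEquiv_iff_val_lt_one.1 hE).1 ha1
  have hα : ∀ c : K, c ≠ 0 → ∃ m : ℤ,
      R.valuation (algebraMap K L c) = R.valuation (algebraMap K L a) ^ m := by
    intro c hc
    obtain ⟨m, hm⟩ := ha c hc
    refine ⟨m, ?_⟩
    rw [← map_zpow₀, hE.eq_iff, Valuation.comap_apply, Valuation.comap_apply, map_zpow₀,
      map_zpow₀] at hm
    exact hm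
  have hv0 : 0 < R.valuation (algebraMap K L a) := (Valuation.pos_iff R.valuation).2 hα0
  obtain ⟨N, hNdef⟩ : ∃ N, N = (Module.finrank K L).factorial := ⟨_, rfl⟩
  have hN : N ≠ 0 := by rw [hNdef]; exact Nat.factorial_ne_zero _
  have hpow : ∀ x : L, x ≠ 0 → ∃ m : ℤ,
      R.valuation x ^ N = R.valuation (algebraMap K L a) ^ m := by
    intro x hx
    obtain ⟨k, hk0, hkn, c, hc, hck⟩ := V3_pow (K := K) R x hx
    obtain ⟨m, hm⟩ := hα c hc
    obtain ⟨l, hl⟩ : k ∣ N := by rw [hNdef]; exact Nat.dvd_factorial hk0 hkn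
    refine ⟨m * l, ?_⟩
    rw [hl, pow_mul, hck, hm, zpow_mul, zpow_natCast]
  let H : AddSubgroup ℤ :=
    { carrier := {m | ∃ x : L, x ≠ 0 ∧ R.valuation x ^ N = R.valuation (algebraMap K L a) ^ m}
      zero_mem' := ⟨1, one_ne_zero, by simp⟩
      add_mem' := by
        rintro m n ⟨b, hb, hb'⟩ ⟨c, hc, hc'⟩
        refine ⟨b * c, mul_ne_zero hb hc, ?_⟩
        rw [map_mul, mul_pow, hb', hc', zpow_add₀ hv0.ne']
      neg_mem' := by
        rintro m ⟨b, hb, hb'⟩
        refine ⟨b⁻¹, inv_ne_zero hb, ?_⟩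
        rw [map_inv₀, inv_pow, hb', zpow_neg] }
  obtain ⟨e, ⟨ϖ, hϖ0, hϖ⟩, he, hgen⟩ := V3_gen H
    ⟨(N : ℤ), ⟨algebraMap K L a, hα0, (zpow_natCast _ _).symm⟩, by exact_mod_cast hN⟩
  apply V3_dvr_of R ϖ hϖ0
  · have h1 : R.valuation ϖ ^ N < 1 := by
      rw [hϖ]
      exact zpow_lt_one₀ hv0 hα1 he
    by_contra hcon
    exact absurd h1 (not_lt.2 (one_le_pow₀ (not_lt.1 hcon)))
  · intro x hx
    obtain ⟨m, hm⟩ := hpow x hx
    obtain ⟨k, hk⟩ := hgen m ⟨x, hx, hm⟩
    refine ⟨k, ?_⟩
    apply pow_left_injective hN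
    change R.valuation x ^ N = (R.valuation ϖ ^ k) ^ N
    rw [hm, hk, zpow_mul, ← hϖ, ← zpow_natCast, ← zpow_natCast, ← zpow_mul, ← zpow_mul, mul_comm]

/-- TASK V3 (third statement). A valuation ring of an algebraic extension whose trace is trivial is
trivial.

PROOF. Each `x ∈ L` is integral over `K ≤ R`, and `R` is integrally closed. -/
theorem eq_top_of_comap {K : Type u} {L : Type v} [Field K] [Field L] [Algebra K L]
    [Algebra.IsAlgebraic K L] (R : ValuationSubring L)
    (hR : R.comap (algebraMap K L) = ⊤) : R = ⊤ := by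
  rw [eq_top_iff]
  intro x _
  have hint : IsIntegral K x := Algebra.IsIntegral.isIntegral x
  by_contra hxR
  have hv : 1 < R.valuation x := by
    rw [← not_le, ValuationSubring.valuation_le_one_iff]
    exact hxR
  have hmon := minpoly.monic hint
  have hsum := minpoly.aeval K x
  rw [Polynomial.aeval_eq_sum_range, Finset.sum_range_succ, hmon.coeff_natDegree, one_smul] at hsum
  have h1 : R.valuation (∑ i ∈ Finset.range (minpoly K x).natDegree,
      (minpoly K x).coeff i • x ^ i) < R.valuation x ^ (minpoly K x).natDegree := by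
    apply Valuation.map_sum_lt
    · exact pow_ne_zero _ (zero_lt_one.trans hv).ne'
    · intro i hi
      rw [Finset.mem_range] at hi
      rw [Algebra.smul_def, map_mul, map_pow]
      have h2 : R.valuation (algebraMap K L ((minpoly K x).coeff i)) ≤ 1 := by
        rw [ValuationSubring.valuation_le_one_iff, ← ValuationSubring.mem_comap, hR]
        exact ValuationSubring.mem_top _
      calc _ ≤ 1 * R.valuation x ^ i := mul_le_mul_left h2 _
        _ = R.valuation x ^ i := one_mul _
        _ < _ := pow_lt_pow_right₀ hv hi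
  rw [eq_neg_of_add_eq_zero_left hsum, Valuation.map_neg, map_pow] at h1
  exact lt_irrefl _ h1

end GC
end

section

/-!
# Discrete valuation rings of rational function fields
-/

namespace GC

universe u v

open Polynomial in
private theorem v4_decomp {k : Type u} [Field k] (a : k) (f : RatFunc k) (hf : f ≠ 0) :
    ∃ (m : ℤ) (p q : k[X]), p.eval a ≠ 0 ∧ q.eval a ≠ 0 ∧
      f = (RatFunc.X - RatFunc.C a) ^ m *
        (algebraMap k[X] (RatFunc k) p / algebraMap k[X] (RatFunc k) q) := by
  have hX : (RatFunc.X - RatFunc.C a : RatFunc k) = algebraMap k[X] (RatFunc k) (X - C a) := by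
    rw [map_sub, RatFunc.algebraMap_X, RatFunc.algebraMap_C]
  have hX0 : (RatFunc.X - RatFunc.C a : RatFunc k) ≠ 0 := by
    rw [hX]
    exact (map_ne_zero_iff _ (RatFunc.algebraMap_injective k)).2 (X_sub_C_ne_zero a)
  have hn : f.num ≠ 0 := RatFunc.num_ne_zero hf
  have hd : f.denom ≠ 0 := RatFunc.denom_ne_zero f
  obtain ⟨p, hp1, hp2⟩ := exists_eq_pow_rootMultiplicity_mul_and_not_dvd f.num hn a
  obtain ⟨q, hq1, hq2⟩ := exists_eq_pow_rootMultiplicity_mul_and_not_dvd f.denom hd a
  refine ⟨(rootMultiplicity a f.num : ℤ) - (rootMultiplicity a f.denom : ℤ), p, q, ?_, ?_, ?_⟩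
  · intro h
    exact hp2 (dvd_iff_isRoot.2 h)
  · intro h
    exact hq2 (dvd_iff_isRoot.2 h)
  · have hf' : f = algebraMap k[X] (RatFunc k) f.num / algebraMap k[X] (RatFunc k) f.denom :=
      (RatFunc.num_div_denom f).symm
    rw [zpow_sub₀ hX0, zpow_natCast, zpow_natCast]
    generalize rootMultiplicity a f.num = i at *
    generalize rootMultiplicity a f.denom = j at *
    refine hf'.trans ?_
    rw [hp1, hq1, map_mul, map_mul, map_pow, map_pow, hX, div_mul_div_comm]

open Polynomial in
private theorem v4_poly_mem {k : Type u} {L : Type v} [Field k] [Field L] (e : RatFunc k →+* L)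
    (a : k) (O : ValuationSubring L) (hc : ∀ c : k, e (RatFunc.C c) ∈ O)
    (ha : O.valuation (e (RatFunc.X - RatFunc.C a)) < 1) (p : k[X]) :
    e (algebraMap k[X] (RatFunc k) p) ∈ O := by
  have hX : e RatFunc.X ∈ O := by
    have h1 : e (RatFunc.X - RatFunc.C a) ∈ O := (O.valuation_le_one_iff _).1 ha.le
    have h2 := O.add_mem _ _ h1 (hc a)
    rwa [← map_add, sub_add_cancel] at h2
  induction p using Polynomial.induction_on' with
  | add p q hp hq =>
    rw [map_add, map_add]
    exact O.add_mem _ _ hp hq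
  | monomial n c =>
    rw [← C_mul_X_pow_eq_monomial, map_mul, map_mul, map_pow, map_pow, RatFunc.algebraMap_X,
      RatFunc.algebraMap_C]
    exact O.mul_mem _ _ (hc c) (pow_mem hX n)

open Polynomial in
private theorem v4_poly_val {k : Type u} {L : Type v} [Field k] [Field L] (e : RatFunc k →+* L)
    (a : k) (O : ValuationSubring L) (hc : ∀ c : k, e (RatFunc.C c) ∈ O)
    (ha : O.valuation (e (RatFunc.X - RatFunc.C a)) < 1) (p : k[X]) (hp : p.eval a ≠ 0) :
    O.valuation (e (algebraMap k[X] (RatFunc k) p)) = 1 := by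
  obtain ⟨q, hq⟩ := X_sub_C_dvd_sub_C_eval (a := a) (p := p)
  have hC : O.valuation (e (RatFunc.C (p.eval a))) = 1 := by
    apply le_antisymm ((O.valuation_le_one_iff _).2 (hc _))
    have h1 := (O.valuation_le_one_iff _).2 (hc (p.eval a)⁻¹)
    rw [map_inv₀, map_inv₀, map_inv₀] at h1
    have h0 : O.valuation (e (RatFunc.C (p.eval a))) ≠ 0 := by
      rw [Ne, map_eq_zero, map_eq_zero, map_eq_zero]
      exact hp
    exact (inv_le_one₀ (zero_lt_iff.2 h0)).1 h1
  have h2 : p = C (p.eval a) + (X - C a) * q := by rw [← hq]; ring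
  have h3 : e (algebraMap k[X] (RatFunc k) p) = e (RatFunc.C (p.eval a)) +
      e (RatFunc.X - RatFunc.C a) * e (algebraMap k[X] (RatFunc k) q) := by
    conv_lhs => rw [h2]
    rw [map_add, map_mul, map_add, map_mul, map_sub, RatFunc.algebraMap_X, RatFunc.algebraMap_C,
      RatFunc.algebraMap_C]
  have h4 : O.valuation (e (RatFunc.X - RatFunc.C a) * e (algebraMap k[X] (RatFunc k) q)) <
      O.valuation (e (RatFunc.C (p.eval a))) := by
    rw [hC, map_mul]
    exact mul_lt_one_of_lt_of_le ha ((O.valuation_le_one_iff _).2 (v4_poly_mem e a O hc ha q))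
  rw [h3, Valuation.map_add_eq_of_lt_left _ h4, hC]

private theorem v4_ne {k : Type u} [Field k] (a : k) : (RatFunc.X - RatFunc.C a : RatFunc k) ≠ 0 := by
  have hX : (RatFunc.X - RatFunc.C a : RatFunc k) =
      algebraMap (Polynomial k) (RatFunc k) (Polynomial.X - Polynomial.C a) := by
    rw [map_sub, RatFunc.algebraMap_X, RatFunc.algebraMap_C]
  rw [hX]
  exact (map_ne_zero_iff _ (RatFunc.algebraMap_injective k)).2 (Polynomial.X_sub_C_ne_zero a)

open Polynomial in
private theorem v4_mem_iff {k : Type u} {L : Type v} [Field k] [Field L] (e : RatFunc k →+* L)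
    (a : k) (O : ValuationSubring L) (hc : ∀ c : k, e (RatFunc.C c) ∈ O)
    (ha : O.valuation (e (RatFunc.X - RatFunc.C a)) < 1) (m : ℤ) (p q : k[X])
    (hp : p.eval a ≠ 0) (hq : q.eval a ≠ 0) :
    (RatFunc.X - RatFunc.C a) ^ m *
        (algebraMap k[X] (RatFunc k) p / algebraMap k[X] (RatFunc k) q) ∈ O.comap e ↔ 0 ≤ m := by
  rw [ValuationSubring.mem_comap, ← O.valuation_le_one_iff, map_mul, map_mul, map_zpow₀, map_zpow₀,
    map_div₀, map_div₀, v4_poly_val e a O hc ha p hp, v4_poly_val e a O hc ha q hq, div_one,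
    mul_one]
  have h0 : 0 < O.valuation (e (RatFunc.X - RatFunc.C a)) := by
    rw [zero_lt_iff, Ne, map_eq_zero, map_eq_zero]
    exact v4_ne a
  constructor
  · intro h
    by_contra hm
    push Not at hm
    have h1 : 1 < O.valuation (e (RatFunc.X - RatFunc.C a)) ^ m :=
      one_lt_zpow_of_neg₀ h0 ha hm
    exact absurd h (not_le.2 h1)
  · intro h
    exact zpow_le_one₀ h0 ha.le h

/-- TASK V4 (first statement). The trace on `k(X)` of a valuation ring containing `k` and with
`X - a` in its maximal ideal is a discrete valuation ring.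

PROOF. Each `f ∈ k(X)^×` is `(X - a)^m u / v` with polynomials `u, v` not vanishing at `a`, `m ∈ ℤ`
(`Polynomial.rootMultiplicity`). `u = u(a) + (X - a) u₁`, so `e u` is a unit of `O`. Hence
`f ∈ O.comap e ↔ 0 ≤ m`, and the trace is a discrete valuation ring with uniformizer `X - a`. -/
theorem dvr_ratFunc {k : Type u} {L : Type v} [Field k] [Field L] (e : RatFunc k →+* L) (a : k)
    (O : ValuationSubring L) (hc : ∀ c : k, e (RatFunc.C c) ∈ O)
    (ha : O.valuation (e (RatFunc.X - RatFunc.C a)) < 1) :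
    IsDiscreteValuationRing (O.comap e) := by
  have hπ : (RatFunc.X - RatFunc.C a : RatFunc k) ∈ O.comap e :=
    (O.valuation_le_one_iff _).1 ha.le
  have key : ∀ x : O.comap e, x ≠ 0 → ∃ n : ℕ,
      Associated ((⟨RatFunc.X - RatFunc.C a, hπ⟩ : O.comap e) ^ n) x := by
    intro x hx
    have hx' : (x : RatFunc k) ≠ 0 := fun h => hx (Subtype.ext h)
    obtain ⟨m, p, q, hp, hq, hf⟩ := v4_decomp a _ hx'
    have hxm := x.2
    rw [hf] at hxm
    obtain ⟨n, rfl⟩ := Int.eq_ofNat_of_zero_le ((v4_mem_iff e a O hc ha m p q hp hq).1 hxm)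
    have hu := (v4_mem_iff e a O hc ha 0 p q hp hq).2 le_rfl
    have hw := (v4_mem_iff e a O hc ha 0 q p hq hp).2 le_rfl
    rw [zpow_zero, one_mul] at hu hw
    have hp0 : algebraMap (Polynomial k) (RatFunc k) p ≠ 0 := by
      rw [Ne, map_eq_zero_iff _ (RatFunc.algebraMap_injective k)]
      rintro rfl
      simp at hp
    have hq0 : algebraMap (Polynomial k) (RatFunc k) q ≠ 0 := by
      rw [Ne, map_eq_zero_iff _ (RatFunc.algebraMap_injective k)]
      rintro rfl
      simp at hq
    refine ⟨n, ⟨⟨⟨_, hu⟩, ⟨_, hw⟩, ?_, ?_⟩, ?_⟩⟩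
    · apply Subtype.ext
      change algebraMap (Polynomial k) (RatFunc k) p / algebraMap (Polynomial k) (RatFunc k) q *
        (algebraMap (Polynomial k) (RatFunc k) q / algebraMap (Polynomial k) (RatFunc k) p) = 1
      field_simp
    · apply Subtype.ext
      change algebraMap (Polynomial k) (RatFunc k) q / algebraMap (Polynomial k) (RatFunc k) p *
        (algebraMap (Polynomial k) (RatFunc k) p / algebraMap (Polynomial k) (RatFunc k) q) = 1
      field_simp
    · apply Subtype.ext
      change (RatFunc.X - RatFunc.C a : RatFunc k) ^ n * (algebraMap (Polynomial k) (RatFunc k) p /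
        algebraMap (Polynomial k) (RatFunc k) q) = x
      rw [hf, zpow_natCast]
  have hnu : ¬ IsUnit (⟨RatFunc.X - RatFunc.C a, hπ⟩ : O.comap e) := by
    rintro ⟨⟨x, y, hxy, hyx⟩, hx⟩
    change x = _ at hx
    subst hx
    have h1 : (RatFunc.X - RatFunc.C a : RatFunc k) * (y : RatFunc k) = 1 := congrArg Subtype.val hxy
    have h2 : e (RatFunc.X - RatFunc.C a) * e y = 1 := by rw [← map_mul, h1, map_one]
    have h3 : O.valuation (e (RatFunc.X - RatFunc.C a)) * O.valuation (e y) = 1 := by
      rw [← map_mul, h2, map_one]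
    have h4 : O.valuation (e y) ≤ 1 := (O.valuation_le_one_iff _).2 y.2
    exact absurd h3 (mul_lt_one_of_lt_of_le ha h4).ne
  have h0 : (⟨RatFunc.X - RatFunc.C a, hπ⟩ : O.comap e) ≠ 0 := by
    intro h
    exact v4_ne a (congrArg Subtype.val h)
  apply IsDiscreteValuationRing.ofHasUnitMulPowIrreducibleFactorization
  refine ⟨⟨RatFunc.X - RatFunc.C a, hπ⟩, ⟨hnu, ?_⟩, fun {x} hx => key x hx⟩
  intro x y hxy
  have hx0 : x ≠ 0 := by
    rintro rfl
    rw [zero_mul] at hxy
    exact h0 hxy
  have hy0 : y ≠ 0 := by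
    rintro rfl
    rw [mul_zero] at hxy
    exact h0 hxy
  obtain ⟨i, hi⟩ := key x hx0
  obtain ⟨j, hj⟩ := key y hy0
  rcases Nat.eq_zero_or_pos i with rfl | hi0
  · left
    rw [pow_zero] at hi
    exact associated_one_iff_isUnit.1 hi.symm
  rcases Nat.eq_zero_or_pos j with rfl | hj0
  · right
    rw [pow_zero] at hj
    exact associated_one_iff_isUnit.1 hj.symm
  exfalso
  have h1 : Associated ((⟨RatFunc.X - RatFunc.C a, hπ⟩ : O.comap e) ^ (i + j))
      (⟨RatFunc.X - RatFunc.C a, hπ⟩ : O.comap e) := by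
    rw [pow_add]
    conv_rhs => rw [hxy]
    exact hi.mul_mul hj
  have h2 : (⟨RatFunc.X - RatFunc.C a, hπ⟩ : O.comap e) ^ 2 ∣
      (⟨RatFunc.X - RatFunc.C a, hπ⟩ : O.comap e) :=
    (pow_dvd_pow _ (by omega)).trans h1.dvd
  obtain ⟨z, hz⟩ := h2
  apply hnu
  have h3 : (⟨RatFunc.X - RatFunc.C a, hπ⟩ : O.comap e) * 1 =
      (⟨RatFunc.X - RatFunc.C a, hπ⟩ : O.comap e) *
        ((⟨RatFunc.X - RatFunc.C a, hπ⟩ : O.comap e) * z) := by
    rw [mul_one, ← mul_assoc, ← pow_two]
    exact hz
  exact IsUnit.of_mul_eq_one _ (mul_left_cancel₀ h0 h3).symm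

/-- TASK V4 (second statement). This trace is determined by `a`.

PROOF. By the description in the first statement: `f ∈ O.comap e ↔ 0 ≤ m`. -/
theorem comap_ratFunc_eq {k : Type u} {L : Type v} [Field k] [Field L] (e : RatFunc k →+* L)
    {L' : Type v} [Field L'] (e' : RatFunc k →+* L') (a : k)
    (O : ValuationSubring L) (hc : ∀ c : k, e (RatFunc.C c) ∈ O)
    (ha : O.valuation (e (RatFunc.X - RatFunc.C a)) < 1)
    (O' : ValuationSubring L') (hc' : ∀ c : k, e' (RatFunc.C c) ∈ O')
    (ha' : O'.valuation (e' (RatFunc.X - RatFunc.C a)) < 1) :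
    O.comap e = O'.comap e' := by
  ext f
  by_cases hf : f = 0
  · subst hf
    exact ⟨fun _ => (O'.comap e').zero_mem, fun _ => (O.comap e).zero_mem⟩
  · obtain ⟨m, p, q, hp, hq, rfl⟩ := v4_decomp a f hf
    rw [v4_mem_iff e a O hc ha m p q hp hq, v4_mem_iff e' a O' hc' ha' m p q hp hq]

/-- TASK V4 (third statement). Existence.

PROOF. The subring `e (k[X])` of `L` has the prime ideal `e ((X - a))`; apply
`LocalSubring.exists_le_valuationSubring` to its localization at this ideal
(`LocalSubring.ofPrime`). -/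
theorem exists_valuationSubring {k : Type u} {L : Type v} [Field k] [Field L]
    (e : RatFunc k →+* L) (a : k) :
    ∃ O : ValuationSubring L, (∀ c : k, e (RatFunc.C c) ∈ O) ∧
      O.valuation (e (RatFunc.X - RatFunc.C a)) < 1 := by
  classical
  let P : Ideal (Polynomial k) := Ideal.span {Polynomial.X - Polynomial.C a}
  have hP : P.IsPrime :=
    (Ideal.span_singleton_prime (Polynomial.X_sub_C_ne_zero a)).2 (Polynomial.prime_X_sub_C a)
  let g : Polynomial k →+* L := e.comp (algebraMap (Polynomial k) (RatFunc k))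
  have hg : Function.Injective g := e.injective.comp (RatFunc.algebraMap_injective k)
  have hgu : ∀ y : P.primeCompl, IsUnit (g y) := by
    intro y
    rw [isUnit_iff_ne_zero, Ne, map_eq_zero_iff g hg]
    intro h
    exact y.2 (h ▸ P.zero_mem)
  let F : Localization.AtPrime P →+* L := IsLocalization.lift (M := P.primeCompl) hgu
  have hF : ∀ x, F (algebraMap (Polynomial k) (Localization.AtPrime P) x) = g x :=
    fun x => IsLocalization.lift_eq hgu x
  have hFi : Function.Injective F := by
    apply (IsLocalization.lift_injective_iff (M := P.primeCompl) hgu).2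
    intro x y
    constructor
    · intro h
      have h1 := IsLocalization.injective (Localization.AtPrime P)
        (Ideal.primeCompl_le_nonZeroDivisors P) h
      rw [h1]
    · intro h
      rw [hg h]
  obtain ⟨O, hO⟩ := (LocalSubring.range F).exists_le_valuationSubring
  obtain ⟨hle, hloc⟩ := LocalSubring.le_def.1 hO
  have hmem : ∀ x, g x ∈ (LocalSubring.range F).toSubring := by
    intro x
    rw [LocalSubring.range_toSubring]
    exact ⟨algebraMap _ _ x, hF x⟩
  have hrange : ∀ z ∈ (LocalSubring.range F).toSubring, z ∈ F.range := by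
    intro z hz
    rwa [LocalSubring.range_toSubring] at hz
  refine ⟨O, fun c => ?_, ?_⟩
  · have h1 := hle (hmem (Polynomial.C c))
    have h2 : g (Polynomial.C c) = e (RatFunc.C c) := by
      change e (algebraMap _ _ (Polynomial.C c)) = _
      rw [RatFunc.algebraMap_C]
    rw [h2] at h1
    exact h1
  · have h2 : g (Polynomial.X - Polynomial.C a) = e (RatFunc.X - RatFunc.C a) := by
      change e (algebraMap _ _ (Polynomial.X - Polynomial.C a)) = _
      rw [map_sub, RatFunc.algebraMap_X, RatFunc.algebraMap_C]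
    have h3 : e (RatFunc.X - RatFunc.C a) ∈ O := by
      rw [← h2]
      exact hle (hmem _)
    have h4 : ¬ IsUnit (⟨g (Polynomial.X - Polynomial.C a), hmem _⟩ :
        (LocalSubring.range F).toSubring) := by
      rintro ⟨⟨x, y, hxy, hyx⟩, hx⟩
      change x = _ at hx
      subst hx
      obtain ⟨z, hz⟩ := hrange y y.2
      have h5 : g (Polynomial.X - Polynomial.C a) * (y : L) = 1 := congrArg Subtype.val hxy
      rw [← hz, ← hF, ← map_mul, ← map_one F] at h5
      have h6 := hFi h5
      have h7 : IsUnit (algebraMap (Polynomial k) (Localization.AtPrime P)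
          (Polynomial.X - Polynomial.C a)) := IsUnit.of_mul_eq_one _ h6
      rw [IsLocalization.AtPrime.isUnit_to_map_iff (Localization.AtPrime P) P] at h7
      exact h7 (Ideal.mem_span_singleton_self _)
    have h8 : ¬ IsUnit (⟨e (RatFunc.X - RatFunc.C a), h3⟩ : O) := by
      intro h
      apply h4
      apply hloc.map_nonunit
      obtain ⟨y, hy⟩ := h.exists_right_inv
      have h9 : e (RatFunc.X - RatFunc.C a) * (y : L) = 1 := congrArg Subtype.val hy
      refine IsUnit.of_mul_eq_one (⟨y, y.2⟩ : O.toLocalSubring.toSubring) (Subtype.ext ?_)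
      change g (Polynomial.X - Polynomial.C a) * (y : L) = 1
      rw [h2]
      exact h9
    rw [← O.valuation_lt_one_iff ⟨_, h3⟩, IsLocalRing.mem_maximalIdeal]
    exact h8

end GC
end

section

/-!
# Valuation rings of an algebraic extension
-/

namespace GC

universe u v

/-- An element which is in all the valuation rings containing the image of `R` is integral. -/
theorem v1_integral {F : Type u} {Ω : Type v} [Field F] [Field Ω] [Algebra F Ω]
    (R : ValuationSubring F) {y : Ω}
    (hy : ∀ W : ValuationSubring Ω, (∀ a ∈ R, algebraMap F Ω a ∈ W) → y ∈ W) :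
    ((algebraMap F Ω).comp R.subtype).IsIntegralElem y := by
  have h1 : y ∈ (⨅ V : {V : ValuationSubring Ω //
      (((algebraMap F Ω).comp R.subtype).range : Set Ω) ⊆ V.toSubring}, V.1.toSubring) := by
    rw [Subring.mem_iInf]
    rintro ⟨W, hW⟩
    refine hy W fun a ha => ?_
    exact hW ⟨⟨a, ha⟩, rfl⟩
  rw [iInf_valuationSubring_superset, Subring.closure_eq] at h1
  have h2 : IsIntegral ((algebraMap F Ω).comp R.subtype).range y := h1
  obtain ⟨p, hp, hpy⟩ := h2
  have h3 : p ∈ Polynomial.lifts ((algebraMap F Ω).comp R.subtype).rangeRestrict := by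
    rw [Polynomial.lifts_iff_coeff_lifts]
    intro n
    exact ((algebraMap F Ω).comp R.subtype).rangeRestrict_surjective _
  obtain ⟨q, hq, -, hqm⟩ := Polynomial.lifts_and_natDegree_eq_and_monic h3 hp
  refine ⟨q, hqm, ?_⟩
  rw [← hpy, ← hq, Polynomial.eval₂_map]
  rfl

/-- One inclusion. -/
theorem v1_le {F : Type u} {Ω : Type v} [Field F] [Field Ω] [Algebra F Ω]
    [Algebra.IsAlgebraic F Ω] (O O' : ValuationSubring Ω)
    (h : O.comap (algebraMap F Ω) = O'.comap (algebraMap F Ω))
    (hB : ∀ b : Ω, ((algebraMap F Ω).comp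
      (O.comap (algebraMap F Ω)).subtype).IsIntegralElem b →
        (O.valuation b < 1 ↔ O'.valuation b < 1)) : O ≤ O' := by
  classical
  intro x hx
  by_cases hx0 : x = 0
  · rw [hx0]
    exact O'.zero_mem
  obtain ⟨p, hp, hpx⟩ := Algebra.IsAlgebraic.isAlgebraic (R := F) x
  obtain ⟨φ, hφ⟩ : ∃ φ : F →+* Ω, φ = algebraMap F Ω := ⟨_, rfl⟩
  obtain ⟨v, hv⟩ : ∃ v : ℕ → O.ValueGroup, v = fun i => O.valuation (φ (p.coeff i)) := ⟨_, rfl⟩
  -- the index `j`
  obtain ⟨j, hjn, hj1, hj2⟩ : ∃ j ∈ Finset.range (p.natDegree + 1),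
      (∀ i ∈ Finset.range (p.natDegree + 1), v i ≤ v j) ∧
      ∀ i ∈ Finset.range (p.natDegree + 1), j < i → v i < v j := by
    obtain ⟨j₀, hj₀, hmax⟩ := Finset.exists_max_image (Finset.range (p.natDegree + 1)) v
      ⟨0, Finset.mem_range.2 (Nat.succ_pos _)⟩
    obtain ⟨T, hT⟩ : ∃ T : Finset ℕ, T = (Finset.range (p.natDegree + 1)).filter
      (fun i => v i = v j₀) := ⟨_, rfl⟩
    have hne : T.Nonempty := ⟨j₀, by rw [hT]; exact Finset.mem_filter.2 ⟨hj₀, rfl⟩⟩
    have hTm : ∀ i, i ∈ T ↔ i ∈ Finset.range (p.natDegree + 1) ∧ v i = v j₀ := by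
      intro i
      rw [hT, Finset.mem_filter]
    have h1 := (hTm _).1 (T.max'_mem hne)
    refine ⟨T.max' hne, h1.1, fun i hi => ?_, fun i hi hlt => ?_⟩
    · rw [h1.2]
      exact hmax i hi
    · rw [h1.2]
      refine lt_of_le_of_ne (hmax i hi) fun heq => ?_
      have h2 : i ∈ T := (hTm i).2 ⟨hi, heq⟩
      exact absurd (T.le_max' i h2) (not_le.2 hlt)
  have hvj : v j ≠ 0 := by
    intro h0
    have h1 := hj1 p.natDegree (Finset.mem_range.2 (Nat.lt_succ_self _))
    rw [h0, le_zero_iff, hv] at h1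
    have h2 : φ (p.coeff p.natDegree) = 0 := (O.valuation).zero_iff.1 h1
    rw [map_eq_zero] at h2
    exact hp (Polynomial.leadingCoeff_eq_zero.1 h2)
  have haj : p.coeff j ≠ 0 := by
    intro h0
    apply hvj
    rw [hv]
    show O.valuation (φ (p.coeff j)) = 0
    rw [h0, map_zero, map_zero]
  obtain ⟨b, hb⟩ : ∃ b : ℕ → F, b = fun i => p.coeff i / p.coeff j := ⟨_, rfl⟩
  have hvb : ∀ i, O.valuation (φ (b i)) = v i / v j := by
    intro i
    rw [hb, hv]
    show O.valuation (φ (p.coeff i / p.coeff j)) = _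
    rw [map_div₀, map_div₀]
  have hv0 : ∀ i, p.natDegree < i → v i = 0 := by
    intro i hi
    rw [hv]
    show O.valuation (φ (p.coeff i)) = 0
    rw [Polynomial.coeff_eq_zero_of_natDegree_lt hi, map_zero, map_zero]
  have hbO : ∀ i, φ (b i) ∈ O := by
    intro i
    rw [← O.valuation_le_one_iff, hvb, div_le_one₀ (zero_lt_iff.2 hvj)]
    by_cases hi : i ∈ Finset.range (p.natDegree + 1)
    · exact hj1 i hi
    · rw [hv0 i (by simpa using hi)]
      exact zero_le
  have hblt : ∀ i, j < i → O.valuation (φ (b i)) < 1 := by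
    intro i hji
    rw [hvb, div_lt_one₀ (zero_lt_iff.2 hvj)]
    by_cases hi : i ∈ Finset.range (p.natDegree + 1)
    · exact hj2 i hi hji
    · rw [hv0 i (by simpa using hi)]
      exact zero_lt_iff.2 hvj
  have hbj : φ (b j) = 1 := by
    rw [hb]
    show φ (p.coeff j / p.coeff j) = 1
    rw [div_self haj, map_one]
  have hbR : ∀ i, b i ∈ O.comap (algebraMap F Ω) := by
    intro i
    rw [← hφ]
    exact hbO i
  have hbO' : ∀ i, φ (b i) ∈ O' := by
    intro i
    have h1 := hbR i
    rw [h] at h1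
    rw [hφ]
    exact h1
  -- the relation
  have hrel : ∑ i ∈ Finset.range (p.natDegree + 1), φ (b i) * x ^ i = 0 := by
    have h1 : Polynomial.aeval x p = ∑ i ∈ Finset.range (p.natDegree + 1),
        φ (p.coeff i) * x ^ i := by
      rw [Polynomial.aeval_eq_sum_range]
      refine Finset.sum_congr rfl fun i _ => ?_
      rw [Algebra.smul_def, hφ]
    rw [hpx] at h1
    have h2 : ∑ i ∈ Finset.range (p.natDegree + 1), φ (b i) * x ^ i =
        (φ (p.coeff j))⁻¹ * ∑ i ∈ Finset.range (p.natDegree + 1), φ (p.coeff i) * x ^ i := by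
      rw [Finset.mul_sum]
      refine Finset.sum_congr rfl fun i _ => ?_
      rw [hb]
      show φ (p.coeff i / p.coeff j) * x ^ i = _
      rw [map_div₀, div_eq_mul_inv]
      ring
    rw [h2, ← h1, mul_zero]
  obtain ⟨y, hy⟩ : ∃ y : Ω, y = ∑ k ∈ Finset.range (p.natDegree + 1 - j), φ (b (j + k)) * x ^ k :=
    ⟨_, rfl⟩
  obtain ⟨z, hz⟩ : ∃ z : Ω, z = ∑ i ∈ Finset.range j, φ (b i) * (x⁻¹) ^ (j - 1 - i) := ⟨_, rfl⟩
  have hjn' : j ≤ p.natDegree := Nat.lt_succ_iff.1 (Finset.mem_range.1 hjn)
  have hxyz : x * y + z = 0 := by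
    have h1 : ∑ i ∈ Finset.range (p.natDegree + 1), φ (b i) * x ^ i =
        ∑ i ∈ Finset.range j, φ (b i) * x ^ i + x ^ j * y := by
      have e : p.natDegree + 1 = j + (p.natDegree + 1 - j) := by omega
      conv_lhs => rw [e]
      rw [Finset.sum_range_add, hy, Finset.mul_sum]
      congr 1
      refine Finset.sum_congr rfl fun k _ => ?_
      rw [pow_add]
      ring
    rw [hrel] at h1
    rcases Nat.eq_zero_or_pos j with h0 | h0
    · subst h0
      rw [Finset.sum_range_zero, pow_zero, one_mul, zero_add] at h1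
      rw [← h1, hz, Finset.sum_range_zero, mul_zero, add_zero]
    · have h2 : x ^ (j - 1) * z = ∑ i ∈ Finset.range j, φ (b i) * x ^ i := by
        rw [hz, Finset.mul_sum]
        refine Finset.sum_congr rfl fun i hi => ?_
        have h3 : j - 1 = i + (j - 1 - i) := by
          have := Finset.mem_range.1 hi
          omega
        have h4 : x ^ (j - 1) = x ^ i * x ^ (j - 1 - i) := by
          rw [← pow_add, ← h3]
        rw [h4, inv_pow]
        field_simp
      rw [← h2] at h1
      have h5 : x ^ j = x ^ (j - 1) * x := by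
        rw [← pow_succ, Nat.sub_add_cancel h0]
      rw [h5] at h1
      have h6 : x ^ (j - 1) * (x * y + z) = 0 := by
        rw [h1]
        ring
      exact (mul_eq_zero.1 h6).resolve_left (pow_ne_zero _ hx0)
  -- `y` and `z` are in all the valuation rings
  have key : ∀ W : ValuationSubring Ω, (∀ i, φ (b i) ∈ W) → y ∈ W ∧ z ∈ W := by
    intro W hW
    rcases W.mem_or_inv_mem x with h1 | h1
    · have h2 : y ∈ W := by
        rw [hy]
        exact W.toSubring.sum_mem fun k _ => W.mul_mem _ _ (hW _) (W.toSubring.pow_mem h1 k)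
      refine ⟨h2, ?_⟩
      have h3 : z = -(x * y) := by linear_combination hxyz
      rw [h3]
      exact W.neg_mem _ (W.mul_mem _ _ h1 h2)
    · have h2 : z ∈ W := by
        rw [hz]
        exact W.toSubring.sum_mem fun k _ => W.mul_mem _ _ (hW _) (W.toSubring.pow_mem h1 _)
      refine ⟨?_, h2⟩
      have h3 : y = -(z * x⁻¹) := by
        have h4 : z = -(x * y) := by linear_combination hxyz
        rw [h4]
        field_simp
      rw [h3]
      exact W.neg_mem _ (W.mul_mem _ _ h2 h1)
  have hyint : ((algebraMap F Ω).comp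
      (O.comap (algebraMap F Ω)).subtype).IsIntegralElem y := by
    refine v1_integral _ fun W hW => (key W fun i => ?_).1
    rw [hφ]
    exact hW _ (hbR i)
  have hyO : O.valuation y = 1 := by
    have h1 : y = 1 + ∑ k ∈ Finset.range (p.natDegree - j), φ (b (j + (k + 1))) * x ^ (k + 1) := by
      have e : p.natDegree + 1 - j = (p.natDegree - j) + 1 := by omega
      rw [hy, e, Finset.sum_range_succ', add_comm]
      simp [hbj]
    rw [h1]
    refine Valuation.map_one_add_of_lt (O.valuation) ?_
    refine Valuation.map_sum_lt (O.valuation) one_ne_zero fun k _ => ?_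
    rw [map_mul, map_pow]
    have h2 : O.valuation x ^ (k + 1) ≤ 1 := pow_le_one' ((O.valuation_le_one_iff x).2 hx) _
    calc O.valuation (φ (b (j + (k + 1)))) * O.valuation x ^ (k + 1)
        ≤ O.valuation (φ (b (j + (k + 1)))) * 1 := mul_le_mul_right h2 _
      _ = O.valuation (φ (b (j + (k + 1)))) := mul_one _
      _ < 1 := hblt _ (by omega)
  obtain ⟨hyO', hzO'⟩ := key O' hbO'
  have h1 : ¬ O'.valuation y < 1 := by
    rw [← hB y hyint, hyO]
    exact lt_irrefl _
  have hy0 : y ≠ 0 := by
    intro h0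
    rw [h0, map_zero] at hyO
    exact zero_ne_one hyO
  have h2 : y⁻¹ ∈ O' := by
    rw [← O'.valuation_le_one_iff, map_inv₀]
    have h3 : O'.valuation y = 1 :=
      le_antisymm ((O'.valuation_le_one_iff y).2 hyO') (not_lt.1 h1)
    rw [h3, inv_one]
  have h3 : x = -(z * y⁻¹) := by
    have h4 : z = -(x * y) := by linear_combination hxyz
    rw [h4]
    field_simp
  rw [h3]
  exact O'.neg_mem _ (O'.mul_mem _ _ hzO' h2)

/-- TASK V1. A valuation ring of an algebraic extension of `F` is determined by its trace on `F`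
and by its centre on the integral closure of this trace.

PROOF. Let `R = O ∩ F = O' ∩ F`. By symmetry it is enough to show `O ≤ O'`. Let `x ∈ O`, `x ≠ 0`; `x`
is algebraic over `F`: `∑ i ≤ n, a_i x^i = 0`, `a_i ∈ F` not all zero. Let `j` be the LARGEST index
such that `a_j` has the maximal valuation (for the valuation ring `R` of `F`); put `b_i = a_i / a_j`:
`b_i ∈ R`, `b_j = 1` and `b_i` is a nonunit of `R` for `i > j`. Put
`y = ∑ i ≥ j, b_i x^(i-j)` and `z = ∑ i < j, b_i x^(i-j+1)` (nonpositive exponents). Then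
`x * y + z = x^(1-j) ∑ b_i x^i = 0`. For EACH valuation ring `W` of `Ω` containing the image of `R`:
if `x ∈ W` then `y ∈ W` and `z = - x y ∈ W`; if `x⁻¹ ∈ W` then `z ∈ W` and `y = - z x⁻¹ ∈ W`. Since the
integral closure of `R` in `Ω` is the intersection of the valuation rings of `Ω` containing `R`
(Mathlib: look for `ValuationSubring`/`iInf`/`mem_iInf_valuationSubring`... `integralClosure`; e.g.
`Subring.exists_le_valuationSubring_of_isIntegrallyClosedIn`; it follows from
`LocalSubring.exists_le_valuationSubring`: if `w` is not integral over `R` then `w⁻¹` is a nonunit of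
`R[w⁻¹]`, and a valuation ring dominating a localization of `R[w⁻¹]` at a maximal ideal containing
`w⁻¹` does not contain `w`), `y` and `z` are integral over `R`.
In `O`: `y = 1 + ∑ i > j, b_i x^(i-j)` with `O.valuation (b_i x^(i-j)) < 1`, so
`O.valuation y = 1`. By `hB`, `O'.valuation y = 1` (it is `≤ 1` as `y` is integral over `R ≤ O'`, and
not `< 1` by `hB`). So `x = - z / y ∈ O'` (`z` integral, so `z ∈ O'`). -/
theorem eq_of_center {F : Type u} {Ω : Type v} [Field F] [Field Ω] [Algebra F Ω]
    [Algebra.IsAlgebraic F Ω] (O O' : ValuationSubring Ω)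
    (h : O.comap (algebraMap F Ω) = O'.comap (algebraMap F Ω))
    (hB : ∀ b : Ω, ((algebraMap F Ω).comp
      (O.comap (algebraMap F Ω)).subtype).IsIntegralElem b →
        (O.valuation b < 1 ↔ O'.valuation b < 1)) : O = O' := by
  refine le_antisymm (v1_le O O' h hB) (v1_le O' O h.symm fun b hb => ?_)
  rw [← h] at hb
  exact (hB b hb).symm

end GC
end

section

/-!
# The Galois group acts transitively on the extensions of a valuation ring
-/

namespace GC

universe u v

open scoped Pointwise

/-- Valuation rings contain the integral elements. -/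
theorem v2_mem {F : Type u} {Ω : Type v} [Field F] [Field Ω] [Algebra F Ω]
    (R : ValuationSubring F) (W : ValuationSubring Ω) (hW : ∀ a ∈ R, algebraMap F Ω a ∈ W) {b : Ω}
    (hb : ((algebraMap F Ω).comp R.subtype).IsIntegralElem b) : b ∈ W := by
  have h1 : (algebraMap F Ω).comp R.subtype = (algebraMap W Ω).comp
      (((algebraMap F Ω).comp R.subtype).codRestrict W.toSubring fun r => hW _ r.2) := by
    ext r
    rfl
  rw [h1] at hb
  have h2 : IsIntegral W b := RingHom.IsIntegralElem.of_comp hb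
  obtain ⟨y, hy⟩ := (IsIntegrallyClosed.isIntegral_iff (R := W) (K := Ω)).1 h2
  rw [← hy]
  exact y.2

/-- The nonunits in terms of membership. -/
theorem v2_lt_one {Ω : Type v} [Field Ω] (W : ValuationSubring Ω) (b : Ω) :
    W.valuation b < 1 ↔ b = 0 ∨ b⁻¹ ∉ W := by
  by_cases hb : b = 0
  · subst hb
    simp
  · have h1 : W.valuation b ≠ 0 := (Valuation.ne_zero_iff _).2 hb
    rw [← W.valuation_le_one_iff, map_inv₀, not_le, one_lt_inv₀ (zero_lt_iff.2 h1)]
    simp [hb]

/-- TASK V2. The automorphisms of `Ω` over `F` act transitively on the valuation rings of `Ω` with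
given trace on `F`.

PROOF. Let `R = O ∩ F`, and `B ⊆ Ω` the subring of the elements integral over `R`; `G = Ω ≃ₐ[F] Ω`
acts on `B`. Let `A ⊆ B` be the subring of the elements fixed by `G` (`FixedPoints.subring` or a
hand-made subring), so `Algebra.IsInvariant A B G`. Give `B` the discrete topology;
`ContinuousSMul G B` since stabilizers are open (`stabilizer_isOpen_of_isIntegral`); `G` is compact
(`compactSpace_gal`) and totally disconnected. Let `P = {b ∈ B | O.valuation b < 1}`,
`Q = {b ∈ B | O'.valuation b < 1}`, prime ideals of `B` (`B ≤ O`, since valuation rings are integrally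
closed). `P ∩ A = Q ∩ A`: for `b ∈ A` there is by `pow_mem_of_fixed` (V0) an `n` with
`b ^ q ^ n = algebraMap c`, `c ∈ F`; for `c ∈ F`: `O.valuation c < 1 ↔ c = 0 ∨ c⁻¹ ∉ O ∩ F`, which is
the same for `O'`. By `Algebra.IsInvariant.exists_smul_of_under_eq_of_profinite` there is `g : G` with
`Q = g • P`. Then `g • O = O'` by `eq_of_center` (V1): the traces on `F` are equal (`g` fixes `F`), and
for `b ∈ B`: `(g • O).valuation b < 1 ↔ O.valuation (g⁻¹ b) < 1 ↔ g⁻¹ b ∈ P ↔ b ∈ Q`. -/
theorem exists_smul_eq {F : Type u} {Ω : Type v} [Field F] [Field Ω] [Algebra F Ω]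
    [IsAlgClosed Ω] [Algebra.IsAlgebraic F Ω] (O O' : ValuationSubring Ω)
    (h : O.comap (algebraMap F Ω) = O'.comap (algebraMap F Ω)) :
    ∃ g : Ω ≃ₐ[F] Ω, g • O = O' := by
  classical
  obtain ⟨R, hR⟩ : ∃ R : ValuationSubring F, R = O.comap (algebraMap F Ω) := ⟨_, rfl⟩
  have hRO : ∀ a ∈ R, algebraMap F Ω a ∈ O := by
    intro a ha
    rw [hR] at ha
    exact ha
  have hRO' : ∀ a ∈ R, algebraMap F Ω a ∈ O' := by
    intro a ha
    rw [hR, h] at ha
    exact ha
  let f : R →+* Ω := (algebraMap F Ω).comp R.subtype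
  let B : Subring Ω :=
    { carrier := {b | f.IsIntegralElem b}
      mul_mem' := fun ha hb => RingHom.IsIntegralElem.mul f ha hb
      one_mem' := f.isIntegralElem_one
      add_mem' := fun ha hb => RingHom.IsIntegralElem.add f ha hb
      zero_mem' := f.isIntegralElem_zero
      neg_mem' := fun ha => RingHom.IsIntegralElem.neg f ha }
  have hBO : B ≤ O.toSubring := fun b hb => v2_mem R O hRO hb
  have hBO' : B ≤ O'.toSubring := fun b hb => v2_mem R O' hRO' hb
  have hinv : IsInvariantSubring (Ω ≃ₐ[F] Ω) B := by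
    refine ⟨fun g b hb => ?_⟩
    have h1 : f = (g : Ω →+* Ω).comp f := by
      ext r
      exact (g.commutes _).symm
    show f.IsIntegralElem (g b)
    rw [h1]
    exact RingHom.IsIntegralElem.map hb (g : Ω →+* Ω)
  let A : Subring B :=
    { carrier := {b | ∀ g : Ω ≃ₐ[F] Ω, g • b = b}
      mul_mem' := fun {a b} ha hb g => by rw [smul_mul', ha g, hb g]
      one_mem' := fun g => smul_one g
      add_mem' := fun {a b} ha hb g => by rw [smul_add, ha g, hb g]
      zero_mem' := fun g => smul_zero g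
      neg_mem' := fun {a} ha g => by rw [smul_neg, ha g] }
  have hcomm : SMulCommClass (Ω ≃ₐ[F] Ω) A B := by
    refine ⟨fun g a b => ?_⟩
    show g • ((a : B) * b) = (a : B) * g • b
    rw [smul_mul', a.2 g]
  have hinvt : Algebra.IsInvariant A B (Ω ≃ₐ[F] Ω) := by
    refine ⟨fun b hb => ?_⟩
    exact ⟨⟨b, hb⟩, rfl⟩
  let _ : TopologicalSpace B := ⊥
  have : DiscreteTopology B := ⟨rfl⟩
  have : ContinuousSMul (Ω ≃ₐ[F] Ω) B := by
    rw [continuousSMul_iff_stabilizer_isOpen]
    intro b
    have h1 : (MulAction.stabilizer (Ω ≃ₐ[F] Ω) b : Set (Ω ≃ₐ[F] Ω)) =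
        MulAction.stabilizer (Ω ≃ₐ[F] Ω) (b : Ω) := by
      ext g
      simp only [SetLike.mem_coe, MulAction.mem_stabilizer_iff]
      rw [Subtype.ext_iff]
      rfl
    rw [h1]
    exact stabilizer_isOpen_of_isIntegral (b : Ω)
  let P : Ideal B := (IsLocalRing.maximalIdeal O).comap (Subring.inclusion hBO)
  let Q : Ideal B := (IsLocalRing.maximalIdeal O').comap (Subring.inclusion hBO')
  have hP : ∀ b : B, b ∈ P ↔ O.valuation (b : Ω) < 1 := fun b =>
    O.valuation_lt_one_iff (Subring.inclusion hBO b)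
  have hQ : ∀ b : B, b ∈ Q ↔ O'.valuation (b : Ω) < 1 := fun b =>
    O'.valuation_lt_one_iff (Subring.inclusion hBO' b)
  have hF : ∀ c : F, O.valuation (algebraMap F Ω c) < 1 ↔ O'.valuation (algebraMap F Ω c) < 1 := by
    intro c
    rw [v2_lt_one, v2_lt_one, ← map_inv₀]
    have h1 : c⁻¹ ∈ O.comap (algebraMap F Ω) ↔ c⁻¹ ∈ O'.comap (algebraMap F Ω) := by rw [h]
    rw [ValuationSubring.mem_comap, ValuationSubring.mem_comap] at h1
    rw [h1]
  have hunder : P.under A = Q.under A := by
    ext a
    show (a : B) ∈ P ↔ (a : B) ∈ Q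
    rw [hP, hQ]
    obtain ⟨m, c, hc⟩ := pow_mem_of_fixed (F := F) (Ω := Ω) (x := ((a : B) : Ω)) fun g => by
      have := a.2 g
      exact congrArg Subtype.val this
    have hq : ringExpChar F ^ m ≠ 0 :=
      pow_ne_zero _ (expChar_ne_zero F (ringExpChar F))
    rw [← pow_lt_one_iff_of_nonneg zero_le hq, ← map_pow, ← hc, hF c, hc, map_pow,
      pow_lt_one_iff_of_nonneg zero_le hq]
  obtain ⟨g, hg⟩ := Algebra.IsInvariant.exists_smul_of_under_eq_of_profinite
    (A := A) (B := B) (G := Ω ≃ₐ[F] Ω) P Q hunder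
  refine ⟨g, eq_of_center (F := F) (g • O) O' ?_ fun b hb => ?_⟩
  · rw [← h]
    ext c
    rw [ValuationSubring.mem_comap, ValuationSubring.mem_comap,
      ValuationSubring.mem_pointwise_smul_iff_inv_smul_mem]
    have h1 : g⁻¹ • algebraMap F Ω c = algebraMap F Ω c := (g⁻¹).commutes c
    rw [h1]
  · have htr : (g • O).comap (algebraMap F Ω) = R := by
      rw [hR]
      ext c
      rw [ValuationSubring.mem_comap, ValuationSubring.mem_comap,
        ValuationSubring.mem_pointwise_smul_iff_inv_smul_mem]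
      have h1 : g⁻¹ • algebraMap F Ω c = algebraMap F Ω c := (g⁻¹).commutes c
      rw [h1]
    rw [htr] at hb
    have hbB : b ∈ B := hb
    have h1 : (g • O).valuation b < 1 ↔ O.valuation (g⁻¹ • b) < 1 := by
      rw [v2_lt_one, v2_lt_one, ValuationSubring.mem_pointwise_smul_iff_inv_smul_mem, smul_inv'']
      rw [smul_eq_zero_iff_eq]
    have h2 : g⁻¹ • (⟨b, hbB⟩ : B) ∈ P ↔ (⟨b, hbB⟩ : B) ∈ Q := by
      rw [hg, Ideal.mem_pointwise_smul_iff_inv_smul_mem]
    rw [hP, hQ] at h2
    rw [h1]
    exact h2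

end GC
end

section

/-!
# The structure of `ℚ_l/ℤ_l`
-/

namespace GC

universe u v w

variable (l : ℕ) [Fact l.Prime] (w : ℕ)

/-- The class of `l ^ (-n)` in `ℚ_l/ℤ_l`. -/
noncomputable def qel (n : ℕ) : Tw l w :=
  (LinearMap.range (Algebra.linearMap ℤ_[l] ℚ_[l])).mkQ ((l : ℚ_[l]) ^ n)⁻¹

variable {l w}

variable (w) in
/-- The class of `x` in `ℚ_l/ℤ_l`. -/
noncomputable def b8_mk (x : ℚ_[l]) : Tw l w :=
  (LinearMap.range (Algebra.linearMap ℤ_[l] ℚ_[l])).mkQ x

lemma b8_surj (m : Tw l w) : ∃ x : ℚ_[l], b8_mk w x = m :=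
  Submodule.mkQ_surjective (LinearMap.range (Algebra.linearMap ℤ_[l] ℚ_[l])) m

lemma b8_add (x y : ℚ_[l]) : b8_mk w (x + y) = b8_mk w x + b8_mk w y :=
  map_add (LinearMap.range (Algebra.linearMap ℤ_[l] ℚ_[l])).mkQ x y

lemma b8_smul (z : ℤ_[l]) (x : ℚ_[l]) : z • b8_mk w x = b8_mk w ((z : ℚ_[l]) * x) :=
  (map_smul (LinearMap.range (Algebra.linearMap ℤ_[l] ℚ_[l])).mkQ z x).symm

lemma b8_nsmul (e : ℕ) (x : ℚ_[l]) : e • b8_mk w x = b8_mk w ((e : ℚ_[l]) * x) := by
  rw [← Nat.cast_smul_eq_nsmul ℤ_[l] e (b8_mk w x), b8_smul]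
  simp

lemma b8_zero (x : ℚ_[l]) : b8_mk w x = 0 ↔ ∃ z : ℤ_[l], (z : ℚ_[l]) = x := by
  have h : b8_mk w x = 0 ↔ x ∈ LinearMap.range (Algebra.linearMap ℤ_[l] ℚ_[l]) :=
    Submodule.Quotient.mk_eq_zero _
  rw [h, LinearMap.mem_range]
  rfl

lemma b8_ne : (l : ℚ_[l]) ≠ 0 := by
  exact_mod_cast (Fact.out : l.Prime).ne_zero

lemma b8_qel (n : ℕ) : qel l w n = b8_mk w (((l : ℚ_[l]) ^ n)⁻¹) := rfl

lemma b8_dec0 (n : ℕ) {z : ℤ_[l]} (hz : PadicInt.toZModPow n z = 0) :
    ∃ t : ℤ_[l], z = (l : ℤ_[l]) ^ n * t := by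
  have h : z ∈ RingHom.ker (PadicInt.toZModPow (p := l) n) := hz
  rw [PadicInt.ker_toZModPow, Ideal.mem_span_singleton] at h
  exact h

lemma b8_dec (n : ℕ) (z : ℤ_[l]) :
    ∃ t : ℤ_[l], z = ((PadicInt.toZModPow n z).val : ℤ_[l]) + (l : ℤ_[l]) ^ n * t := by
  obtain ⟨t, ht⟩ := b8_dec0 n (z := z - ((PadicInt.toZModPow n z).val : ℤ_[l])) (by
    rw [map_sub, map_natCast, ZMod.natCast_zmod_val, sub_self])
  exact ⟨t, by rw [← ht]; ring⟩

lemma b8_div (n : ℕ) (z : ℤ_[l]) :
    b8_mk w ((z : ℚ_[l]) * ((l : ℚ_[l]) ^ n)⁻¹) =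
      (PadicInt.toZModPow n z).val • qel l w n := by
  obtain ⟨t, ht⟩ := b8_dec n z
  generalize (PadicInt.toZModPow n z).val = e at ht ⊢
  have h1 : (z : ℚ_[l]) * ((l : ℚ_[l]) ^ n)⁻¹ =
      (e : ℚ_[l]) * ((l : ℚ_[l]) ^ n)⁻¹ + (t : ℚ_[l]) := by
    have h2 : (z : ℚ_[l]) = (e : ℚ_[l]) + (l : ℚ_[l]) ^ n * (t : ℚ_[l]) := by
      have h3 := congrArg (fun y : ℤ_[l] => (y : ℚ_[l])) ht
      simpa using h3
    have h4 : (l : ℚ_[l]) ^ n ≠ 0 := pow_ne_zero _ b8_ne
    rw [h2]
    field_simp
  rw [h1, b8_add, (b8_zero (w := w) (t : ℚ_[l])).2 ⟨t, rfl⟩, add_zero, b8_qel, b8_nsmul]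

/-- TASK B8 (first statement). All elements are killed by powers of `l`.

PROOF. `l ^ n * x ∈ ℤ_l` for large `n` (norms). -/
theorem exists_pow_smul (m : Tw l w) : ∃ n : ℕ, l ^ n • m = 0 := by
  obtain ⟨x, rfl⟩ := b8_surj m
  have hl : (1 : ℝ) < l := by
    exact_mod_cast (Fact.out : l.Prime).one_lt
  obtain ⟨n, hn⟩ := pow_unbounded_of_one_lt ‖x‖ hl
  refine ⟨n, ?_⟩
  rw [b8_nsmul, b8_zero]
  have h : ‖((l ^ n : ℕ) : ℚ_[l]) * x‖ ≤ 1 := by
    rw [norm_mul, Nat.cast_pow, norm_pow, Padic.norm_p, inv_pow]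
    rw [inv_mul_le_iff₀ (by positivity), mul_one]
    exact hn.le
  exact ⟨⟨_, h⟩, rfl⟩

/-- TASK B8 (second statement). The elements killed by `l ^ n` are the multiples of `qel n`.

PROOF. If `l ^ n x = z ∈ ℤ_l` then `x = z l^(-n)`, and `z ≡ e` modulo `l ^ n` with `e : ℕ`. -/
theorem exists_eq_smul_qel {n : ℕ} {m : Tw l w} (hm : l ^ n • m = 0) :
    ∃ e : ℕ, m = e • qel l w n := by
  obtain ⟨x, rfl⟩ := b8_surj m
  rw [b8_nsmul, b8_zero] at hm
  obtain ⟨z, hz⟩ := hm
  refine ⟨(PadicInt.toZModPow n z).val, ?_⟩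
  rw [← b8_div, hz]
  have h4 : (l : ℚ_[l]) ^ n ≠ 0 := pow_ne_zero _ b8_ne
  congr 1
  push_cast
  field_simp

theorem pow_smul_qel (n : ℕ) : l ^ n • qel l w n = 0 := by
  rw [b8_qel, b8_nsmul, b8_zero]
  refine ⟨1, ?_⟩
  have h4 : (l : ℚ_[l]) ^ n ≠ 0 := pow_ne_zero _ b8_ne
  push_cast
  rw [mul_inv_cancel₀ h4]

/-- TASK B8 (third statement). -/
theorem smul_qel_eq_zero_iff {n e : ℕ} : e • qel l w n = 0 ↔ l ^ n ∣ e := by
  rw [b8_qel, b8_nsmul, b8_zero]
  have h4 : (l : ℚ_[l]) ^ n ≠ 0 := pow_ne_zero _ b8_ne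
  have h5 : ((l ^ n : ℕ) : ℤ) ∣ (e : ℤ) ↔ l ^ n ∣ e := Int.natCast_dvd_natCast
  have h6 := PadicInt.pow_p_dvd_int_iff (p := l) n (e : ℤ)
  rw [← h5]
  push_cast
  rw [← h6]
  constructor
  · rintro ⟨z, hz⟩
    refine ⟨z, ?_⟩
    apply PadicInt.ext
    push_cast
    rw [hz]
    field_simp
  · rintro ⟨z, hz⟩
    refine ⟨z, ?_⟩
    have h7 : (e : ℚ_[l]) = (l : ℚ_[l]) ^ n * (z : ℚ_[l]) := by
      have h3 := congrArg (fun y : ℤ_[l] => (y : ℚ_[l])) hz
      simpa using h3
    rw [h7]
    field_simp

/-- TASK B8 (fourth statement). The action of `ℤ_l`. -/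
theorem zl_smul_qel (n : ℕ) (z : ℤ_[l]) :
    z • qel l w n = (PadicInt.toZModPow n z).val • qel l w n := by
  rw [← b8_div, b8_qel, b8_smul]

/-- TASK B8 (fifth statement). -/
theorem zl_smul_eq_zero {n : ℕ} {m : Tw l w} (hm : l ^ n • m = 0) {z : ℤ_[l]}
    (hz : PadicInt.toZModPow n z = 0) : z • m = 0 := by
  obtain ⟨t, rfl⟩ := b8_dec0 n hz
  have h : ((l : ℤ_[l]) ^ n) • m = l ^ n • m := by
    rw [← Nat.cast_smul_eq_nsmul ℤ_[l] (l ^ n) m, Nat.cast_pow]
  rw [mul_comm, mul_smul, h, hm, smul_zero]

/-- TASK B8 (sixth statement). The Tate twist is a discrete module for the Galois group of an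
extension `Ω / K`, if `Ω` is algebraic over `K`.

PROOF. Let `m` be killed by `l ^ n`. `(cyc g)^w • m = m` if `cyc g ≡ 1` modulo `l ^ n`
(`zl_smul_eq_zero` for `(cyc g)^w - 1`), and the cyclotomic character is continuous
(`cyclotomicCharacter.continuous`), so the set of these `g` is an open subgroup (the preimage of the
open subgroup of the units congruent to `1` modulo `l ^ n`; or: it contains the open fixing subgroup
of the `l^n`-th roots of unity). -/
theorem disc_tw (K : Type u) (Ω : Type v) [Field K] [Field Ω] [Algebra K Ω]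
    [Algebra.IsAlgebraic K Ω] : Disc (Ω ≃ₐ[K] Ω) (Tw l w) := by
  intro m
  obtain ⟨n, hn⟩ := exists_pow_smul m
  refine ⟨MulAction.stabilizer (Ω ≃ₐ[K] Ω) m, ?_, fun g hg => hg⟩
  have hc : Continuous (fun g : Ω ≃ₐ[K] Ω =>
      ((cyclotomicCharacter Ω l (g : Ω ≃+* Ω) : ℤ_[l]ˣ) : ℤ_[l])) :=
    Units.continuous_val.comp (cyclotomicCharacter.continuous l K Ω)
  have h1 : ((cyclotomicCharacter Ω l ((1 : Ω ≃ₐ[K] Ω) : Ω ≃+* Ω) : ℤ_[l]ˣ) : ℤ_[l]) = 1 := by
    have h : ((1 : Ω ≃ₐ[K] Ω) : Ω ≃+* Ω) = 1 := rfl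
    rw [h, map_one, Units.val_one]
  have hl : (0 : ℝ) < l := by
    exact_mod_cast (Fact.out : l.Prime).pos
  have h2 := hc.continuousAt (x := (1 : Ω ≃ₐ[K] Ω))
    (Metric.ball_mem_nhds _ (show (0 : ℝ) < (l : ℝ) ^ (-(n : ℤ)) by positivity))
  apply Subgroup.isOpen_of_mem_nhds _ (g := 1)
  refine Filter.mem_of_superset h2 ?_
  intro g hg
  have hg' : dist ((cyclotomicCharacter Ω l (g : Ω ≃+* Ω) : ℤ_[l]ˣ) : ℤ_[l]) 1
      < (l : ℝ) ^ (-(n : ℤ)) := by
    rw [← h1]
    exact hg
  rw [dist_eq_norm] at hg'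
  have h3 : PadicInt.toZModPow n
      ((cyclotomicCharacter Ω l (g : Ω ≃+* Ω) : ℤ_[l]ˣ) : ℤ_[l]) = 1 := by
    have h4 := (PadicInt.norm_le_pow_iff_mem_span_pow _ n).1 hg'.le
    rw [← PadicInt.ker_toZModPow, RingHom.mem_ker, map_sub, map_one, sub_eq_zero] at h4
    exact h4
  have h5 : PadicInt.toZModPow n
      ((((cyclotomicCharacter Ω l (g : Ω ≃+* Ω)) ^ w : ℤ_[l]ˣ) : ℤ_[l]) - 1) = 0 := by
    rw [map_sub, map_one, Units.val_pow_eq_pow_val, map_pow, h3, one_pow, sub_self]
  have h6 := zl_smul_eq_zero hn h5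
  rw [sub_smul, one_smul, sub_eq_zero] at h6
  exact h6

end GC
end

section

/-!
# Common zeros of homogeneous systems
-/

namespace GC

universe u v w

open MvPolynomial

/-- The height of the ideal of a point of affine space. -/
theorem T0_height {Ω : Type u} {σ : Type v} [Field Ω] [Fintype σ] (z : σ → Ω)
    [hz : (RingHom.ker (eval z)).IsPrime] :
    ((Fintype.card σ : ℕ) : ℕ∞) ≤ (RingHom.ker (eval z)).height := by
  classical
  set n := Fintype.card σ with hn
  let e : σ ≃ Fin n := Fintype.equivFin σ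
  let φ : ℕ → (MvPolynomial σ Ω →ₐ[Ω] MvPolynomial σ Ω) := fun k =>
    aeval fun s => if (e s : ℕ) < k then C (z s) else X s
  have hφX : ∀ k s, φ k (X s) = if (e s : ℕ) < k then C (z s) else X s := fun k s => by
    simp [φ]
  have hcomp : ∀ k, (φ (k + 1)).comp (φ k) = φ (k + 1) := by
    intro k
    apply algHom_ext
    intro s
    rw [AlgHom.comp_apply, hφX]
    split_ifs with h
    · rw [hφX, if_pos (by lia)]
      exact (φ (k + 1)).commutes (z s)
    · rfl
  have hprime : ∀ k, (RingHom.ker (φ k)).IsPrime := fun k => RingHom.ker_isPrime _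
  have hmono : StrictMono fun i : Fin (n + 1) =>
      (⟨RingHom.ker (φ (i : ℕ)), hprime i⟩ : PrimeSpectrum (MvPolynomial σ Ω)) := by
    rw [Fin.strictMono_iff_lt_succ]
    intro i
    rw [← PrimeSpectrum.asIdeal_lt_asIdeal]
    refine lt_of_le_of_ne ?_ ?_
    · intro p hp
      have hp' : φ (i : ℕ) p = 0 := hp
      show φ ((i : ℕ) + 1) p = 0
      rw [← hcomp, AlgHom.comp_apply, hp', map_zero]
    · intro heq
      have heq' : RingHom.ker (φ (i : ℕ)) = RingHom.ker (φ ((i : ℕ) + 1)) := heq
      have h1 : X (e.symm i) - C (z (e.symm i)) ∈ RingHom.ker (φ ((i : ℕ) + 1)) := by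
        rw [RingHom.mem_ker, map_sub, hφX, if_pos (by simp)]
        have : φ ((i : ℕ) + 1) (C (z (e.symm i))) = C (z (e.symm i)) :=
          (φ ((i : ℕ) + 1)).commutes _
        rw [this, sub_self]
      rw [← heq', RingHom.mem_ker, map_sub, hφX, if_neg (by simp)] at h1
      have h2 : φ (i : ℕ) (C (z (e.symm i))) = C (z (e.symm i)) := (φ (i : ℕ)).commutes _
      rw [h2, sub_eq_zero] at h1
      have h3 := congrArg (fun p => eval (fun _ => z (e.symm i) + 1) p) h1
      simp at h3
  have h1 : (LTSeries.mk n _ hmono).last ≤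
      (⟨RingHom.ker (eval z), hz⟩ : PrimeSpectrum (MvPolynomial σ Ω)) := by
    show RingHom.ker (φ ((Fin.last n : Fin (n + 1)) : ℕ)) ≤ RingHom.ker (eval z)
    intro p hp
    have hp' : φ n p = 0 := hp
    have h2 : ∀ p, eval z (φ n p) = eval z p := by
      intro p
      have : ((aeval z : MvPolynomial σ Ω →ₐ[Ω] Ω).comp (φ n)) = aeval z := by
        apply algHom_ext
        intro s
        rw [AlgHom.comp_apply, hφX, if_pos (e s).2]
        simp
      have h3 := congrArg (fun g : MvPolynomial σ Ω →ₐ[Ω] Ω => g p) this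
      simpa [coe_aeval_eq_eval] using h3
    show eval z p = 0
    rw [← h2, hp', map_zero]
  have h2 := Order.length_le_height h1
  rw [← PrimeSpectrum.height_eq_orderHeight] at h2
  exact h2

/-- TASK T0. Over an algebraically closed field a system of polynomials without constant terms with
more unknowns than equations has a nontrivial zero.

PROOF. Suppose that `0` is the only common zero. By the Nullstellensatz
(`MvPolynomial.vanishingIdeal_zeroLocus_eq_radical`) the radical of `I = span (range f)` is the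
maximal ideal `𝔪 = (X_s)` of the polynomials vanishing at `0`. So `𝔪` is a minimal prime over `I`, and
by Krull's height theorem (`Ideal.height_le_spanRank_toENat_of_mem_minimalPrimes`, or the version
with `Set.ncard`) its height is at most `Fintype.card τ`. But its height is at least
`Fintype.card σ`: there is the chain of the prime ideals `(X_s : s in the first i variables)`,
`0 ≤ i ≤ card σ` (a complete proof of this for a point of affine space, in `Type`, is
`i3_height` in the file `Pool/Agent/Lib/MP_6a3dac_ag/Maj/Zeros.lean` of the repository; copy it with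
universe levels). -/
theorem exists_common_zero {k : Type u} [Field k] [IsAlgClosed k] {σ : Type v} {τ : Type w}
    [Fintype σ] [Fintype τ] (f : τ → MvPolynomial σ k) (hf : ∀ t, constantCoeff (f t) = 0)
    (h : Fintype.card τ < Fintype.card σ) :
    ∃ x : σ → k, x ≠ 0 ∧ ∀ t, eval x (f t) = 0 := by
  classical
  by_contra hcon
  push Not at hcon
  have honly : ∀ x : σ → k, (∀ t, eval x (f t) = 0) → x = 0 := by
    intro x hx
    by_contra hne
    obtain ⟨t, ht⟩ := hcon x hne
    exact ht (hx t)
  have hP : (RingHom.ker (eval (0 : σ → k))).IsPrime := RingHom.ker_isPrime _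
  have hmin : RingHom.ker (eval (0 : σ → k)) ∈ (Ideal.span (Set.range f)).minimalPrimes := by
    refine ⟨⟨hP, ?_⟩, ?_⟩
    · rw [Ideal.span_le]
      rintro _ ⟨t, rfl⟩
      show eval (0 : σ → k) (f t) = 0
      have h0 : (eval (0 : σ → k)) = (constantCoeff : MvPolynomial σ k →+* k) := by
        apply MvPolynomial.ringHom_ext
        · intro a; simp
        · intro s; simp
      rw [h0]
      exact hf t
    · rintro J ⟨hJ, hIJ⟩ -
      intro p hp
      have hp' : eval (0 : σ → k) p = 0 := hp
      have h1 : p ∈ (Ideal.span (Set.range f)).radical := by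
        rw [← vanishingIdeal_zeroLocus_eq_radical (K := k), mem_vanishingIdeal_iff]
        intro w hw
        rw [zeroLocus_span] at hw
        have hw' : ∀ t, eval w (f t) = 0 := fun t => by
          have := hw (f t) (Set.mem_range_self t)
          simpa [coe_aeval_eq_eval] using this
        rw [honly w hw']
        simpa [coe_aeval_eq_eval] using hp'
      obtain ⟨N, hN⟩ := h1
      exact hJ.mem_of_pow_mem N (hIJ hN)
  have h1 := Ideal.height_le_card_of_mem_minimalPrimes_span (Set.finite_range f) hmin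
  have h2 := T0_height (0 : σ → k)
  have h3 : Fintype.card σ ≤ (Set.range f).ncard := by exact_mod_cast h2.trans h1
  have h4 : (Set.range f).ncard ≤ Fintype.card τ := by
    rw [← Set.image_univ]
    refine (Set.ncard_image_le Set.finite_univ).trans ?_
    rw [Set.ncard_univ, Nat.card_eq_fintype_card]
  omega

end GC
end

section

/-!
# Tsen's theorem
-/

namespace GC

universe u v w

open MvPolynomial

/-- TASK T1 (first statement). Systems of forms over `k[t]`.

PROOF. Let `D` bound the degrees (in `t`) of all coefficients of the `f i`, and let `S ≥ 0` be an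
integer. Consider unknowns `z (s, r)`, `s : σ`, `r : Fin (S + 1)`, and `x s = ∑ r, z (s, r) t^r`.
Then `eval x (f i) = ∑ m ≤ d S + D, G i m (z) t^m`, where `G i m ∈ k[z]` is homogeneous of degree
`d ≥ 1` (or zero), in particular without constant term. There are
`card τ * (d S + D + 1)` equations and `card σ * (S + 1)` unknowns; as `card τ * d < card σ`, the
number of unknowns is larger for large `S`. By `exists_common_zero` (T0) there is a nontrivial zero
`z`, and `x ≠ 0`. (Formalization: `G i m` is the coefficient of `t^m` of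
`aeval (fun s => ∑ r, C (X (s, r)) * t^r) (f i)` computed in `(MvPolynomial (σ × Fin (S+1)) k)[X]`;
the constant coefficient is obtained by `z = 0`: `eval 0 (f i) = 0` since `f i` is homogeneous of
degree `d > 0`.) -/
theorem exists_zero_poly {k : Type u} [Field k] [IsAlgClosed k] {σ : Type v} {τ : Type w}
    [Fintype σ] [Fintype τ] {d : ℕ} (hd : 0 < d) (f : τ → MvPolynomial σ (Polynomial k))
    (hf : ∀ t, (f t).IsHomogeneous d) (h : Fintype.card τ * d < Fintype.card σ) :
    ∃ x : σ → Polynomial k, x ≠ 0 ∧ ∀ t, eval x (f t) = 0 := by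
  classical
  -- the bound of the degrees of the coefficients
  obtain ⟨D, hD⟩ : ∃ D : ℕ, ∀ t, ∀ m ∈ (f t).support, ((f t).coeff m).natDegree ≤ D := by
    refine ⟨∑ t, ∑ m ∈ (f t).support, ((f t).coeff m).natDegree, fun t m hm => ?_⟩
    refine le_trans ?_ (Finset.single_le_sum (f := fun t => ∑ m ∈ (f t).support,
      ((f t).coeff m).natDegree) (fun _ _ => Nat.zero_le _) (Finset.mem_univ t))
    exact Finset.single_le_sum (f := fun m => ((f t).coeff m).natDegree)
      (fun _ _ => Nat.zero_le _) hm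
  let S : ℕ := Fintype.card τ * (D + 1)
  let L : σ → Polynomial (MvPolynomial (σ × Fin (S + 1)) k) := fun s =>
    ∑ r : Fin (S + 1), Polynomial.C (X (s, r)) * Polynomial.X ^ (r : ℕ)
  have hL : ∀ s, (L s).natDegree ≤ S := by
    intro s
    refine Polynomial.natDegree_sum_le_of_forall_le _ _ fun r _ => ?_
    refine (Polynomial.natDegree_C_mul_X_pow_le _ _).trans ?_
    have := r.2
    omega
  let Φ : MvPolynomial σ (Polynomial k) →+* Polynomial (MvPolynomial (σ × Fin (S + 1)) k) :=
    eval₂Hom (Polynomial.mapRingHom (C : k →+* MvPolynomial (σ × Fin (S + 1)) k)) L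
  have hΦdeg : ∀ t, (Φ (f t)).natDegree ≤ d * S + D := by
    intro t
    change Polynomial.natDegree (eval₂ (Polynomial.mapRingHom _) L (f t)) ≤ _
    rw [eval₂_eq']
    refine Polynomial.natDegree_sum_le_of_forall_le _ _ fun m hm => ?_
    refine (Polynomial.natDegree_mul_le).trans ?_
    have h1 : (Polynomial.mapRingHom (C : k →+* MvPolynomial (σ × Fin (S + 1)) k)
        ((f t).coeff m)).natDegree ≤ D := by
      rw [Polynomial.coe_mapRingHom]
      exact (Polynomial.natDegree_map_le).trans (hD t m hm)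
    have h2 : (∏ i, L i ^ m i).natDegree ≤ d * S := by
      refine (Polynomial.natDegree_prod_le _ _).trans ?_
      have h3 : ∑ i, m i = d := by
        have h4 := hf t (mem_support_iff.1 hm)
        rw [← h4, Finsupp.weight_apply, Finsupp.sum_fintype _ _ (fun _ => by simp)]
        simp
      calc ∑ i, (L i ^ m i).natDegree ≤ ∑ i, m i * S :=
            Finset.sum_le_sum fun i _ => (Polynomial.natDegree_pow_le).trans
              (Nat.mul_le_mul_left _ (hL i))
        _ = d * S := by rw [← Finset.sum_mul, h3]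
    omega
  have hΦeval : ∀ (z : σ × Fin (S + 1) → k) (F : MvPolynomial σ (Polynomial k)),
      Polynomial.mapRingHom (eval z) (Φ F) =
        eval (fun s => ∑ r : Fin (S + 1), Polynomial.C (z (s, r)) * Polynomial.X ^ (r : ℕ)) F := by
    intro z F
    induction F using MvPolynomial.induction_on with
    | C a =>
      show Polynomial.mapRingHom (eval z) (eval₂ _ _ (C a)) = _
      rw [eval₂_C, eval_C, Polynomial.coe_mapRingHom, Polynomial.coe_mapRingHom, Polynomial.map_map]
      have : (eval z).comp (C : k →+* MvPolynomial (σ × Fin (S + 1)) k) = RingHom.id k := by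
        ext x; simp
      rw [this, Polynomial.map_id]
    | add p q hp hq => rw [map_add, map_add, hp, hq, map_add]
    | mul_X p i hp =>
      rw [map_mul, map_mul, hp, map_mul, eval_X]
      congr 1
      show Polynomial.mapRingHom (eval z) (eval₂ _ _ (X i)) = _
      rw [eval₂_X]
      simp only [L, map_sum, map_mul, Polynomial.coe_mapRingHom, Polynomial.map_C,
        Polynomial.map_pow, Polynomial.map_X, eval_X]
  obtain ⟨z, hz0, hz⟩ := exists_common_zero (k := k) (σ := σ × Fin (S + 1))
    (τ := τ × Fin (d * S + D + 1)) (fun p => (Φ (f p.1)).coeff (p.2 : ℕ)) (by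
      rintro ⟨t, m⟩
      have h1 := congrArg (fun q => Polynomial.coeff q (m : ℕ)) (hΦeval 0 (f t))
      simp only [Polynomial.coe_mapRingHom, Polynomial.coeff_map] at h1
      have h2 : eval (fun s : σ => ∑ r : Fin (S + 1),
          Polynomial.C ((0 : σ × Fin (S + 1) → k) (s, r)) * Polynomial.X ^ (r : ℕ)) (f t) = 0 := by
        have h3 : (fun s : σ => ∑ r : Fin (S + 1),
            Polynomial.C ((0 : σ × Fin (S + 1) → k) (s, r)) * Polynomial.X ^ (r : ℕ)) = 0 := by
          funext s
          simp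
        rw [h3, eval_zero, constantCoeff_eq]
        by_contra hne
        have h4 := hf t hne
        rw [map_zero] at h4
        omega
      rw [h2, Polynomial.coeff_zero] at h1
      rw [← h1, ← eval_zero]) (by
      rw [Fintype.card_prod, Fintype.card_prod, Fintype.card_fin, Fintype.card_fin]
      have h1 : Fintype.card τ * d + 1 ≤ Fintype.card σ := h
      have h2 : (Fintype.card τ * d + 1) * (S + 1) ≤ Fintype.card σ * (S + 1) :=
        Nat.mul_le_mul_right _ h1
      refine lt_of_lt_of_le ?_ h2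
      have h3 : S = Fintype.card τ * (D + 1) := rfl
      nlinarith [Nat.zero_le (Fintype.card τ * d)])
  refine ⟨fun s => ∑ r : Fin (S + 1), Polynomial.C (z (s, r)) * Polynomial.X ^ (r : ℕ), ?_, ?_⟩
  · intro h0
    apply hz0
    funext p
    obtain ⟨s, r⟩ := p
    have h1 := congrFun h0 s
    have h2 := congrArg (fun q => Polynomial.coeff q (r : ℕ)) h1
    simp only [Polynomial.finsetSum_coeff, Polynomial.coeff_C_mul, Polynomial.coeff_X_pow,
      Pi.zero_apply, Polynomial.coeff_zero] at h2
    rw [Finset.sum_eq_single r] at h2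
    · simpa using h2
    · intro r' _ hne
      have : (r : ℕ) ≠ r' := fun h => hne (Fin.ext h.symm)
      simp [this]
    · intro h; exact absurd (Finset.mem_univ r) h
  · intro t
    rw [← hΦeval]
    ext m
    rw [Polynomial.coe_mapRingHom, Polynomial.coeff_map, Polynomial.coeff_zero]
    by_cases hm : m < d * S + D + 1
    · exact hz (t, ⟨m, hm⟩)
    · have h1 : (Φ (f t)).coeff m = 0 := by
        apply Polynomial.coeff_eq_zero_of_natDegree_lt
        have := hΦdeg t
        omega
      rw [h1, map_zero]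

/-- TASK T1 (second statement). Finite extensions of `k(t)` are `C_1`-fields.

PROOF. Let `w_1, …, w_e` be a basis of `E` over `RatFunc k`. Write
`f (∑ j, X (i, j) w_j)_i = ∑ m, g m (X) w_m` with `g m ∈ RatFunc k [X (i, j)]` homogeneous of degree
`d` (in `e n` unknowns); multiply by a common denominator to get
`g' m ∈ k[t][X (i, j)]` homogeneous of degree `d`. There are `e` forms in `e n > e d` unknowns, so by
the first statement there is a nontrivial zero in `k[t]`, and `x i = ∑ j, X (i, j) w_j` is a nontrivial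
zero of `f`. (Formalization of `g m`: in `MvPolynomial (Fin n × Fin e) E` the polynomial
`F = aeval (fun i => ∑ j, C (w j) * X (i, j)) f` is homogeneous of degree `d`; apply the `m`-th
coordinate function to its coefficients.) -/
theorem c_one {k : Type u} [Field k] [IsAlgClosed k] {E : Type v} [Field E]
    [Algebra (RatFunc k) E] [FiniteDimensional (RatFunc k) E] {n d : ℕ} (hd : 0 < d)
    (hdn : d < n) (f : MvPolynomial (Fin n) E) (hf : f.IsHomogeneous d) :
    ∃ x : Fin n → E, x ≠ 0 ∧ eval x f = 0 := by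
  classical
  let w := Module.finBasis (RatFunc k) E
  let e : ℕ := Module.finrank (RatFunc k) E
  have he : 0 < e := Module.finrank_pos
  let F : MvPolynomial (Fin n × Fin e) E :=
    aeval (fun i => ∑ j, C (w j) * X (i, j)) f
  have hF : F.IsHomogeneous d := by
    have h1 := hf.aeval (fun i : Fin n => (∑ j, C (w j) * X (i, j) : MvPolynomial (Fin n × Fin e) E))
      (n := 1) (fun i => by
        refine IsHomogeneous.sum _ _ _ fun j _ => ?_
        exact isHomogeneous_C_mul_X _ _)
    rw [one_mul] at h1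
    exact h1
  let g : Fin e → MvPolynomial (Fin n × Fin e) (RatFunc k) := fun m =>
    ∑ c ∈ F.support, monomial c (w.repr (F.coeff c) m)
  have hgc : ∀ m c, (g m).coeff c = w.repr (F.coeff c) m := by
    intro m c
    simp only [g, coeff_sum, coeff_monomial]
    by_cases hc : c ∈ F.support
    · rw [Finset.sum_eq_single c]
      · simp
      · intro c' _ hne
        simp [hne]
      · intro h; exact absurd hc h
    · rw [Finset.sum_eq_zero]
      · rw [notMem_support_iff.1 hc]
        simp
      · intro c' hc'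
        have : c' ≠ c := fun h => hc (h ▸ hc')
        simp [this]
  -- common denominators
  obtain ⟨q, hq⟩ := IsLocalization.exist_integer_multiples_of_finset
    (nonZeroDivisors (Polynomial k)) (Finset.univ.biUnion (fun m : Fin e =>
      F.support.image (fun c => w.repr (F.coeff c) m)))
  have hq' : ∀ m c, ∃ a : Polynomial k, algebraMap (Polynomial k) (RatFunc k) a =
      algebraMap (Polynomial k) (RatFunc k) (q : Polynomial k) * (g m).coeff c := by
    intro m c
    by_cases hc : c ∈ F.support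
    · obtain ⟨a, ha⟩ := hq ((g m).coeff c) (Finset.mem_biUnion.2 ⟨m, Finset.mem_univ m,
        Finset.mem_image.2 ⟨c, hc, (hgc m c).symm⟩⟩)
      refine ⟨a, ?_⟩
      rw [ha, Algebra.smul_def]
    · refine ⟨0, ?_⟩
      rw [hgc, notMem_support_iff.1 hc]
      simp
  choose a ha using hq'
  let g' : Fin e → MvPolynomial (Fin n × Fin e) (Polynomial k) := fun m =>
    ∑ c ∈ F.support, monomial c (a m c)
  have hinj : Function.Injective (algebraMap (Polynomial k) (RatFunc k)) :=
    IsFractionRing.injective _ _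
  have hq0 : algebraMap (Polynomial k) (RatFunc k) (q : Polynomial k) ≠ 0 := by
    intro h0
    have h1 : (q : Polynomial k) = 0 := hinj (by rw [h0, map_zero])
    exact nonZeroDivisors.coe_ne_zero q h1
  have hmap : ∀ m, map (algebraMap (Polynomial k) (RatFunc k)) (g' m) =
      C (algebraMap (Polynomial k) (RatFunc k) (q : Polynomial k)) * g m := by
    intro m
    simp only [g', g, map_sum, map_monomial, Finset.mul_sum, C_mul_monomial]
    refine Finset.sum_congr rfl fun c _ => ?_
    rw [ha, hgc]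
  have hghom : ∀ m, (g' m).IsHomogeneous d := by
    intro m
    refine IsHomogeneous.sum _ _ _ fun c hc => ?_
    refine isHomogeneous_monomial _ ?_
    have h1 := hF (mem_support_iff.1 hc)
    rw [← h1, Finsupp.weight_apply, Finsupp.degree]
    simp only [Finsupp.sum, Pi.one_apply, smul_eq_mul, mul_one]
    rfl
  obtain ⟨y, hy0, hy⟩ := exists_zero_poly hd g' hghom (by
    rw [Fintype.card_prod, Fintype.card_fin, Fintype.card_fin, mul_comm n e]
    exact Nat.mul_lt_mul_of_pos_left hdn he)
  have hgy : ∀ m, eval (fun p => algebraMap (Polynomial k) (RatFunc k) (y p)) (g m) = 0 := by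
    intro m
    have h1 : eval (fun p => algebraMap (Polynomial k) (RatFunc k) (y p))
        (map (algebraMap (Polynomial k) (RatFunc k)) (g' m)) = 0 := by
      have h2 := congrArg (algebraMap (Polynomial k) (RatFunc k)) (hy m)
      rw [map_zero] at h2
      rw [← h2, eval_map]
      have h3 := aeval_algebraMap_apply (R := Polynomial k) (RatFunc k) y (g' m)
      have h4 : aeval y (g' m) = eval y (g' m) := rfl
      rw [h4] at h3
      exact h3
    rw [hmap, map_mul, eval_C] at h1
    exact (mul_eq_zero.1 h1).resolve_left hq0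
  refine ⟨fun i => ∑ j, w j * algebraMap (RatFunc k) E
    (algebraMap (Polynomial k) (RatFunc k) (y (i, j))), ?_, ?_⟩
  · intro h0
    apply hy0
    funext p
    obtain ⟨i, j⟩ := p
    have h1 : ∑ j, (algebraMap (Polynomial k) (RatFunc k) (y (i, j))) • w j = 0 := by
      have h2 := congrFun h0 i
      simp only [Pi.zero_apply] at h2
      rw [← h2]
      refine Finset.sum_congr rfl fun j _ => ?_
      rw [Algebra.smul_def, mul_comm]
    have h3 := Fintype.linearIndependent_iff.1 w.linearIndependent _ h1 j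
    exact hinj (by rw [Pi.zero_apply, map_zero]; exact h3)
  · have h1 : eval (fun p => algebraMap (RatFunc k) E (algebraMap (Polynomial k) (RatFunc k) (y p)))
        F = eval (fun i => ∑ j, w j * algebraMap (RatFunc k) E
          (algebraMap (Polynomial k) (RatFunc k) (y (i, j)))) f := by
      have h2 : ∀ (Q : Fin n × Fin e → E) (f : MvPolynomial (Fin n) E),
          eval Q (aeval (fun i => (∑ j, C (w j) * X (i, j) : MvPolynomial (Fin n × Fin e) E)) f) =
            eval (fun i => ∑ j, w j * Q (i, j)) f := by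
        intro Q f
        induction f using MvPolynomial.induction_on with
        | C a => rw [aeval_C, eval_C]; exact eval_C a
        | add p q hp hq => rw [map_add, map_add, hp, hq, map_add]
        | mul_X p i hp =>
          rw [map_mul, map_mul, hp, map_mul, eval_X, aeval_X]
          simp only [map_sum, map_mul, eval_C, eval_X]
      exact h2 _ f
    rw [← h1, eval_eq']
    have h4 : ∀ c ∈ F.support, F.coeff c * ∏ p, (algebraMap (RatFunc k) E
        (algebraMap (Polynomial k) (RatFunc k) (y p))) ^ c p =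
        ∑ m, algebraMap (RatFunc k) E (w.repr (F.coeff c) m *
          ∏ p, (algebraMap (Polynomial k) (RatFunc k) (y p)) ^ c p) * w m := by
      intro c _
      conv_lhs => rw [← w.sum_repr (F.coeff c)]
      rw [Finset.sum_mul]
      refine Finset.sum_congr rfl fun m _ => ?_
      rw [Algebra.smul_def, map_mul, map_prod]
      simp only [map_pow]
      ring
    rw [Finset.sum_congr rfl h4, Finset.sum_comm]
    refine Finset.sum_eq_zero fun m _ => ?_
    rw [← Finset.sum_mul, ← map_sum]
    have h5 : ∑ c ∈ F.support, w.repr (F.coeff c) m *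
        ∏ p, (algebraMap (Polynomial k) (RatFunc k) (y p)) ^ c p = 0 := by
      rw [← hgy m]
      simp only [g, map_sum, eval_monomial]
      refine Finset.sum_congr rfl fun c _ => ?_
      rw [Finsupp.prod_fintype _ _ (fun _ => pow_zero _)]
    rw [h5, map_zero, zero_mul]

end GC
end

section

/-!
# Surjectivity of norms over function fields of curves
-/

namespace GC

universe u

open MvPolynomial

section aux

variable {k : Type u} [Field k] {l : ℕ}

/-- The product of the twisted generic polynomials. -/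
noncomputable def t2_Q (k : Type u) [Field k] (l : ℕ) : Polynomial (MvPolynomial (Fin l) k) :=
  ∏ ζ ∈ Polynomial.nthRootsFinset l (1 : k), ∑ i : Fin l,
    Polynomial.C (C (ζ ^ (i : ℕ)) * X i) * Polynomial.X ^ (i : ℕ)

lemma t2_comp {ζ' : k} (hl : 0 < l) (hζ : ζ' ^ l = 1) :
    (t2_Q k l).comp (Polynomial.C (C ζ') * Polynomial.X) = t2_Q k l := by
  have h0 : ζ' ≠ 0 := by
    rintro rfl
    rw [zero_pow hl.ne'] at hζ
    exact zero_ne_one hζ
  unfold t2_Q
  rw [Polynomial.prod_comp]
  refine Finset.prod_nbij' (fun ζ => ζ * ζ') (fun ζ => ζ * ζ'⁻¹) ?_ ?_ ?_ ?_ ?_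
  · intro ζ h
    rw [Polynomial.mem_nthRootsFinset hl] at h ⊢
    rw [mul_pow, h, hζ, one_mul]
  · intro ζ h
    rw [Polynomial.mem_nthRootsFinset hl] at h ⊢
    rw [mul_pow, h, inv_pow, hζ, one_mul, inv_one]
  · intro ζ _
    field_simp
  · intro ζ _
    field_simp
  · intro ζ _
    rw [Polynomial.sum_comp]
    refine Finset.sum_congr rfl fun i _ => ?_
    simp only [Polynomial.mul_comp, Polynomial.C_comp, Polynomial.pow_comp, Polynomial.X_comp,
      map_mul, map_pow, mul_pow]
    ring

lemma t2_coeff {ζ' : k} (hl : 0 < l) (hζ : IsPrimitiveRoot ζ' l) {j : ℕ} (hj : ¬ l ∣ j) :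
    (t2_Q k l).coeff j = 0 := by
  have h := congrArg (fun p => Polynomial.coeff p j) (t2_comp hl hζ.pow_eq_one)
  simp only [Polynomial.comp_C_mul_X_coeff] at h
  have h2 : (t2_Q k l).coeff j * (C (ζ' ^ j - 1)) = 0 := by
    rw [map_sub, map_pow, map_one, mul_sub, mul_one, h, sub_self]
  rcases mul_eq_zero.mp h2 with h3 | h3
  · exact h3
  · exfalso
    rw [map_eq_zero_iff _ (C_injective _ _), sub_eq_zero] at h3
    exact hj (hζ.dvd_of_pow_eq_one j h3)

lemma t2_image {Ω : Type u} [Field Ω] (ι : k →+* Ω) (hl : 0 < l) {ζ' : k}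
    (hζ : IsPrimitiveRoot ζ' l) {M : Type u} [CommMonoid M] (g : Ω → M) :
    ∏ ζ ∈ Polynomial.nthRootsFinset l (1 : Ω), g ζ =
      ∏ ζ ∈ Polynomial.nthRootsFinset l (1 : k), g (ι ζ) := by
  classical
  have h1 : Polynomial.nthRootsFinset l (1 : Ω) =
      (Polynomial.nthRootsFinset l (1 : k)).image ι := by
    symm
    apply Finset.eq_of_subset_of_card_le
    · intro x hx
      rw [Finset.mem_image] at hx
      obtain ⟨ζ, h, rfl⟩ := hx
      rw [Polynomial.mem_nthRootsFinset hl] at h ⊢
      rw [← map_pow, h, map_one]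
    · rw [Finset.card_image_of_injective _ ι.injective, hζ.card_nthRootsFinset,
        (hζ.map_of_injective (f := ι) ι.injective).card_nthRootsFinset]
  rw [h1, Finset.prod_image fun a _ b _ h => ι.injective h]

/-- The norm form over a subring. -/
noncomputable def t2_form {E : Type u} [Field E] (ι : k →+* E) (l : ℕ) (b : E) :
    MvPolynomial (Fin l) E :=
  ∑ j ∈ (t2_Q k l).support, map ι ((t2_Q k l).coeff j) * C (b ^ (j / l))

lemma t2_form_map {E Ω : Type u} [Field E] [Field Ω] (ι : k →+* E) (κ : E →+* Ω) (hl : 0 < l)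
    {ζ' : k} (hζ : IsPrimitiveRoot ζ' l) (b : E) (y : Ω) (hy : y ^ l = κ b) :
    map κ (t2_form ι l b) = ∏ ζ ∈ Polynomial.nthRootsFinset l (1 : Ω),
      ∑ i : Fin l, C ((ζ * y) ^ (i : ℕ)) * X i := by
  have h1 : (t2_Q k l).eval₂ (map (κ.comp ι)) (C y) = map κ (t2_form ι l b) := by
    rw [Polynomial.eval₂_eq_sum, Polynomial.sum, t2_form, map_sum]
    refine Finset.sum_congr rfl fun j hj => ?_
    have hd : l ∣ j := by
      by_contra h
      exact (Polynomial.mem_support_iff.mp hj) (t2_coeff hl hζ h)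
    obtain ⟨m, rfl⟩ := hd
    rw [Nat.mul_div_cancel_left m hl, map_mul, map_map, map_C, map_pow κ, ← hy, ← pow_mul,
      map_pow C]
  rw [← h1, t2_Q, Polynomial.eval₂_finsetProd, t2_image (κ.comp ι) hl hζ]
  refine Finset.prod_congr rfl fun ζ _ => ?_
  rw [Polynomial.eval₂_finsetSum]
  refine Finset.sum_congr rfl fun i _ => ?_
  simp only [Polynomial.eval₂_mul, Polynomial.eval₂_C, Polynomial.eval₂_pow, Polynomial.eval₂_X,
    map_mul, map_C, map_X, map_pow, mul_pow]
  ring

lemma t2_form_hom {E Ω : Type u} [Field E] [Field Ω] (ι : k →+* E) (κ : E →+* Ω) (hl : 0 < l)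
    {ζ' : k} (hζ : IsPrimitiveRoot ζ' l) (b : E) (y : Ω) (hy : y ^ l = κ b) :
    (t2_form ι l b).IsHomogeneous l := by
  have h1 : (map κ (t2_form ι l b)).IsHomogeneous l := by
    rw [t2_form_map ι κ hl hζ b y hy]
    have h2 : l = ∑ _ζ ∈ Polynomial.nthRootsFinset l (1 : Ω), 1 := by
      rw [Finset.sum_const, smul_eq_mul, mul_one,
        (hζ.map_of_injective (f := κ.comp ι) (κ.comp ι).injective).card_nthRootsFinset]
    have h3 := IsHomogeneous.prod (Polynomial.nthRootsFinset l (1 : Ω))
      (fun ζ => ∑ i : Fin l, C ((ζ * y) ^ (i : ℕ)) * X i) (fun _ => 1) fun ζ _ =>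
        IsHomogeneous.sum _ _ _ fun i _ => isHomogeneous_C_mul_X _ _
    rwa [← h2] at h3
  intro d hd
  apply h1 (d := d)
  rw [coeff_map]
  exact (map_ne_zero_iff κ κ.injective).mpr hd

end aux

/-- TASK T2. The norm condition for algebraic extensions of `k(t)`, `k` algebraically closed.

PROOF. Let `E`, `a`, `y` be given, `y ^ l ∈ E`, `y ∉ E`, `a ∈ E`, `a ≠ 0`. Let `E₁` be the subfield
generated over `RatFunc k` by `y ^ l` and `a`, a finite extension
(`IntermediateField.adjoin`, the elements are algebraic) contained in `E`. The `l`-th roots of unity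
of `Ω` are in (the image of) `k`: `k` is algebraically closed, so `X^l - 1` splits in `k`; and there
are `l` of them, as `l ≠ 0`. Since `y ∉ E`, no `z ∈ E` satisfies `z ^ l = y ^ l` (otherwise
`y = ζ z`), so `X^l - y^l` is irreducible over `E` (`X_pow_sub_C_irreducible_iff_of_prime`), and
`1, y, …, y^(l-1)` are linearly independent over `E`, a fortiori over `E₁`.
The polynomial `P = ∏ ζ, ∑ i : Fin l, X_i (ζ y)^i ∈ Ω[X_0, …, X_(l-1)]` has coefficients in `E₁`: in
`Ω[X_i][Y]` the polynomial `∏ ζ, ∑ i, X_i ζ^i Y^i` is invariant under `Y ↦ ζ' Y` for all `l`-th roots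
of unity `ζ'`, so only powers `Y^(l m)` occur, with coefficients in `k[X_i]`; put `Y = y`.
(Alternatively: `P` is the determinant of the multiplication by `∑ X_i Y^i` on
`E₁[X_i][Y]/(Y^l - y^l)`, `Algebra.norm`.) It is homogeneous of degree `l`. So
`f = P - C a * Z^l` is a form of degree `l` in `l + 1` unknowns over `E₁`. By `c_one` (T1) it has a
nontrivial zero `(x, z)` in `E₁`. If `z = 0`, then `∏ ζ, ∑ x_i (ζ y)^i = 0`, so
`∑ x_i ζ^i y^i = 0` for some `ζ`, and by linear independence (`ζ^i ∈ E₁`) all `x_i = 0`: contradiction.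
So `z ≠ 0`, and `x_i / z` is a solution. -/
theorem normCond_ratFunc {k Ω : Type u} [Field k] [IsAlgClosed k] [Field Ω]
    [Algebra (RatFunc k) Ω] [Algebra.IsAlgebraic (RatFunc k) Ω] [IsAlgClosed Ω] {l : ℕ}
    (hl : l.Prime) (hlk : (l : k) ≠ 0) : NormCond l (RatFunc k) Ω := by
  classical
  have hl0 : 0 < l := hl.pos
  have : NeZero (l : k) := ⟨hlk⟩
  have : NeZero l := ⟨hl0.ne'⟩
  obtain ⟨ζ₀, hζ₀⟩ := HasEnoughRootsOfUnity.exists_primitiveRoot k l
  intro E a y ha ha0 hyl hy
  have hy0 : y ≠ 0 := by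
    rintro rfl
    exact hy E.zero_mem
  -- the embedding of `k`
  let ι₀ : k →+* Ω := (algebraMap (RatFunc k) Ω).comp (algebraMap k (RatFunc k))
  have hι₀ : ∀ (E' : IntermediateField (RatFunc k) Ω) (c : k), ι₀ c ∈ E' := fun E' c =>
    E'.algebraMap_mem _
  -- roots of unity
  have hroots : ∀ z : Ω, z ^ l = 1 → z ∈ E := by
    intro z hz
    have h1 := t2_image ι₀ hl0 hζ₀ (M := Ω) (fun ζ => z - ζ)
    have h2 : ∏ ζ ∈ Polynomial.nthRootsFinset l (1 : Ω), (z - ζ) = 0 :=
      Finset.prod_eq_zero ((Polynomial.mem_nthRootsFinset hl0 1).mpr hz) (sub_self z)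
    rw [h2] at h1
    obtain ⟨ζ, _, h3⟩ := Finset.prod_eq_zero_iff.mp h1.symm
    rw [sub_eq_zero.mp h3]
    exact hι₀ E ζ
  -- irreducibility
  let b : E := ⟨y ^ l, hyl⟩
  have hirr : Irreducible (Polynomial.X ^ l - Polynomial.C b : Polynomial E) := by
    rw [X_pow_sub_C_irreducible_iff_of_prime hl]
    intro z hz
    have hz' : (z : Ω) ^ l = y ^ l := congrArg (algebraMap E Ω) hz
    have hz0 : (z : Ω) ≠ 0 := by
      intro h
      rw [h, zero_pow hl0.ne'] at hz'
      exact hy0 (pow_eq_zero_iff hl0.ne' |>.mp hz'.symm)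
    have h4 : y / z ∈ E := hroots _ (by rw [div_pow, hz', div_self (pow_ne_zero _ hy0)])
    apply hy
    have h5 := E.mul_mem h4 z.2
    rwa [div_mul_cancel₀ _ hz0] at h5
  have hmon : (Polynomial.X ^ l - Polynomial.C b : Polynomial E).Monic :=
    Polynomial.monic_X_pow_sub_C b hl0.ne'
  have hmin : (Polynomial.X ^ l - Polynomial.C b : Polynomial E) = minpoly E y := by
    apply minpoly.eq_of_irreducible_of_monic hirr ?_ hmon
    rw [map_sub, map_pow, Polynomial.aeval_X, Polynomial.aeval_C]
    exact sub_self _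
  have hind : ∀ c : Fin l → E, ∑ i : Fin l, (c i : Ω) * y ^ (i : ℕ) = 0 → ∀ i, c i = 0 := by
    intro c hc
    let p : Polynomial E := ∑ i : Fin l, Polynomial.C (c i) * Polynomial.X ^ (i : ℕ)
    have hp : Polynomial.aeval y p = 0 := by
      rw [map_sum, ← hc]
      refine Finset.sum_congr rfl fun i _ => ?_
      rw [map_mul, map_pow, Polynomial.aeval_C, Polynomial.aeval_X]
      rfl
    have hdeg : p.degree < l := Polynomial.degree_sum_fin_lt c
    have hp0 : p = 0 := by
      by_contra h
      have h6 := minpoly.degree_le_of_ne_zero E y h hp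
      rw [← hmin, Polynomial.degree_X_pow_sub_C hl0] at h6
      exact absurd hdeg (not_lt.mpr h6)
    intro i
    have h7 := congrArg (fun q => Polynomial.coeff q (i : ℕ)) hp0
    simp only [p, Polynomial.finsetSum_coeff, Polynomial.coeff_C_mul_X_pow,
      Polynomial.coeff_zero] at h7
    rw [Finset.sum_eq_single i] at h7
    · simpa using h7
    · intro j _ hj
      rw [if_neg]
      intro h8
      exact hj (Fin.ext h8.symm)
    · intro h8
      exact absurd (Finset.mem_univ i) h8
  -- the finite extension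
  let S : Set Ω := {y ^ l, a}
  let E₁ : IntermediateField (RatFunc k) Ω := IntermediateField.adjoin (RatFunc k) S
  have hfin : FiniteDimensional (RatFunc k) E₁ := by
    have : Finite S := (Set.toFinite _).to_subtype
    exact IntermediateField.finiteDimensional_adjoin fun x _ =>
      (Algebra.IsAlgebraic.isAlgebraic x).isIntegral
  have hE₁ : E₁ ≤ E := IntermediateField.adjoin_le_iff.mpr (by
    rintro x (rfl | rfl)
    · exact hyl
    · exact ha)
  have hb₁ : y ^ l ∈ E₁ := IntermediateField.subset_adjoin _ _ (Or.inl rfl)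
  have ha₁ : a ∈ E₁ := IntermediateField.subset_adjoin _ _ (Or.inr rfl)
  let b₁ : E₁ := ⟨y ^ l, hb₁⟩
  let a₁ : E₁ := ⟨a, ha₁⟩
  let ι : k →+* E₁ := (algebraMap (RatFunc k) E₁).comp (algebraMap k (RatFunc k))
  let κ : E₁ →+* Ω := algebraMap E₁ Ω
  have hfm := t2_form_map ι κ hl0 hζ₀ b₁ y rfl
  have hfh := t2_form_hom ι κ hl0 hζ₀ b₁ y rfl
  let f : MvPolynomial (Fin (l + 1)) E₁ :=
    rename Fin.castSucc (t2_form ι l b₁) - C a₁ * X (Fin.last l) ^ l
  have hf : f.IsHomogeneous l := by
    refine (hfh.rename_isHomogeneous).sub ?_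
    have h9 := (isHomogeneous_C (Fin (l + 1)) a₁).mul ((isHomogeneous_X E₁ (Fin.last l)).pow l)
    rwa [zero_add, one_mul] at h9
  obtain ⟨x, hx0, hx⟩ := c_one (k := k) hl0 (Nat.lt_succ_self l) f hf
  have hev : eval (fun i => x (Fin.castSucc i)) (t2_form ι l b₁) = a₁ * x (Fin.last l) ^ l := by
    rw [map_sub, eval_rename, map_mul, eval_C, map_pow, eval_X, sub_eq_zero] at hx
    exact hx
  have hprod : ∏ ζ ∈ Polynomial.nthRootsFinset l (1 : Ω),
      ∑ i : Fin l, (x (Fin.castSucc i) : Ω) * (ζ * y) ^ (i : ℕ) =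
        a * (x (Fin.last l) : Ω) ^ l := by
    have h10 : κ (eval (fun i => x (Fin.castSucc i)) (t2_form ι l b₁)) =
        eval (fun i => κ (x (Fin.castSucc i))) (map κ (t2_form ι l b₁)) := by
      rw [eval_map]
      have h17 := eval₂_comp_left κ (RingHom.id E₁) (fun i => x (Fin.castSucc i))
        (t2_form ι l b₁)
      rw [RingHom.comp_id] at h17
      exact h17
    rw [hfm, map_prod, hev] at h10
    have h11 : κ (a₁ * x (Fin.last l) ^ l) = a * (x (Fin.last l) : Ω) ^ l := rfl
    rw [← h11, h10]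
    refine Finset.prod_congr rfl fun ζ _ => ?_
    rw [map_sum]
    refine Finset.sum_congr rfl fun i _ => ?_
    rw [map_mul, eval_C, eval_X, mul_comm]
    rfl
  have hcard : (Polynomial.nthRootsFinset l (1 : Ω)).card = l :=
    (hζ₀.map_of_injective (f := ι₀) ι₀.injective).card_nthRootsFinset
  by_cases hz : x (Fin.last l) = 0
  · exfalso
    rw [hz] at hprod
    rw [show ((0 : E₁) : Ω) = 0 from rfl, zero_pow hl0.ne', mul_zero] at hprod
    obtain ⟨ζ, hζ, h12⟩ := Finset.prod_eq_zero_iff.mp hprod
    rw [Polynomial.mem_nthRootsFinset hl0] at hζ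
    have hζE : ζ ∈ E := hroots ζ hζ
    have hζ0 : ζ ≠ 0 := by
      rintro rfl
      rw [zero_pow hl0.ne'] at hζ
      exact zero_ne_one hζ
    have h13 := hind (fun i => ⟨(x (Fin.castSucc i) : Ω) * ζ ^ (i : ℕ),
      E.mul_mem (hE₁ (x (Fin.castSucc i)).2) (pow_mem hζE _)⟩) (by
      rw [← h12]
      refine Finset.sum_congr rfl fun i _ => ?_
      change (x (Fin.castSucc i) : Ω) * ζ ^ (i : ℕ) * y ^ (i : ℕ) = _
      rw [mul_pow]
      ring)
    apply hx0
    funext j
    refine Fin.lastCases ?_ (fun i => ?_) j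
    · exact hz
    · have h14 : (x (Fin.castSucc i) : Ω) * ζ ^ (i : ℕ) = 0 :=
        congrArg (fun z : E => (z : Ω)) (h13 i)
      rcases mul_eq_zero.mp h14 with h15 | h15
      · exact Subtype.ext h15
      · exact absurd h15 (pow_ne_zero _ hζ0)
  · have hz' : (x (Fin.last l) : Ω) ≠ 0 := fun h => hz (Subtype.ext h)
    refine ⟨fun i => (x (Fin.castSucc i) : Ω) / x (Fin.last l), fun i =>
      E.div_mem (hE₁ (x (Fin.castSucc i)).2) (hE₁ (x (Fin.last l)).2), ?_⟩
    have h16 : ∀ ζ ∈ Polynomial.nthRootsFinset l (1 : Ω),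
        ∑ i : Fin l, (x (Fin.castSucc i) : Ω) / x (Fin.last l) * (ζ * y) ^ (i : ℕ) =
          (∑ i : Fin l, (x (Fin.castSucc i) : Ω) * (ζ * y) ^ (i : ℕ)) / x (Fin.last l) := by
      intro ζ _
      rw [Finset.sum_div]
      refine Finset.sum_congr rfl fun i _ => ?_
      ring
    rw [Finset.prod_congr rfl h16, Finset.prod_div_distrib, hprod, Finset.prod_const, hcard,
      mul_div_assoc, div_self (pow_ne_zero _ hz'), mul_one]

end GC
end

section

/-!
# Laurent expansions and exchange of variables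
-/

namespace GC

universe u

/-- TASK R1 (first statement). The embedding `K(t) → K((T))`. -/
theorem exists_laurent (K : Type u) [Field K] : ∃ ρ : RatFunc K →+* LaurentSeries K,
    (∀ c, ρ (RatFunc.C c) = HahnSeries.ofPowerSeries ℤ K (PowerSeries.C c)) ∧
      ρ RatFunc.X = HahnSeries.ofPowerSeries ℤ K PowerSeries.X := by
  have hinj : Function.Injective ((HahnSeries.ofPowerSeries ℤ K).comp
      (Polynomial.coeToPowerSeries.ringHom (R := K))) := by
    rw [RingHom.coe_comp]
    exact HahnSeries.ofPowerSeries_injective.comp (Polynomial.coe_injective K)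
  refine ⟨IsFractionRing.lift (A := Polynomial K) (K := RatFunc K) hinj, fun c => ?_, ?_⟩
  · have h := IsFractionRing.lift_algebraMap (A := Polynomial K) (K := RatFunc K) hinj
      (Polynomial.C c)
    rw [RatFunc.algebraMap_C] at h
    rw [h]
    simp
  · have h := IsFractionRing.lift_algebraMap (A := Polynomial K) (K := RatFunc K) hinj
      Polynomial.X
    rw [RatFunc.algebraMap_X] at h
    rw [h]
    simp

/-- The homomorphism `(K(s))[t] → K(s)(t)` which exchanges the variables. -/
noncomputable def r1_swap₀ (K : Type u) [Field K] :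
    Polynomial (RatFunc K) →+* RatFunc (RatFunc K) :=
  Polynomial.eval₂RingHom (rmap (algebraMap K (RatFunc K))) (RatFunc.C RatFunc.X)

/-- The embedding of the ring of polynomials in two variables. -/
noncomputable def r1_theta (K : Type u) [Field K] :
    Polynomial (Polynomial K) →+* RatFunc (RatFunc K) :=
  (algebraMap (Polynomial (RatFunc K)) (RatFunc (RatFunc K))).comp
    (Polynomial.mapRingHom (algebraMap (Polynomial K) (RatFunc K)))

theorem r1_theta_injective (K : Type u) [Field K] : Function.Injective (r1_theta K) := by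
  rw [r1_theta, RingHom.coe_comp]
  exact (IsFractionRing.injective _ _).comp
    (Polynomial.map_injective _ (IsFractionRing.injective _ _))

theorem r1_swap_theta (K : Type u) [Field K] :
    (r1_swap₀ K).comp (Polynomial.mapRingHom (algebraMap (Polynomial K) (RatFunc K))) =
      (r1_theta K).comp (Polynomial.Bivariate.swap (R := K) :
        Polynomial (Polynomial K) →+* Polynomial (Polynomial K)) := by
  refine Polynomial.ringHom_ext' (Polynomial.ringHom_ext (fun c => ?_) ?_) ?_
  · simp [r1_swap₀, r1_theta, Polynomial.Bivariate.swap_C_C]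
  · simp [r1_swap₀, r1_theta, Polynomial.Bivariate.swap_X]
  · simp [r1_swap₀, r1_theta, Polynomial.Bivariate.swap_Y]

theorem r1_swap_injective (K : Type u) [Field K] : Function.Injective (r1_swap₀ K) := by
  rw [injective_iff_map_eq_zero]
  intro Q hQ
  obtain ⟨b, hbm, hb⟩ := IsLocalization.integerNormalization_spec
    (nonZeroDivisors (Polynomial K)) Q
  set P := IsLocalization.integerNormalization (nonZeroDivisors (Polynomial K)) Q
  have hb2 : b • Q = Polynomial.C (algebraMap _ (RatFunc K) b) *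
      Q := by
    ext i
    rw [Polynomial.coeff_smul, Polynomial.coeff_C_mul, Algebra.smul_def]
  have h1 : r1_swap₀ K (P.map (algebraMap (Polynomial K) (RatFunc K))) = 0 := by
    rw [hb]
    change r1_swap₀ K (b • Q) = 0
    rw [hb2, map_mul, hQ, mul_zero]
  have h2 := RingHom.congr_fun (r1_swap_theta K) P
  rw [RingHom.comp_apply, RingHom.comp_apply, Polynomial.coe_mapRingHom, h1] at h2
  have h3 : P = 0 := by
    have h4 := (injective_iff_map_eq_zero _).mp (r1_theta_injective K) _ h2.symm
    simpa using h4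
  rw [h3, Polynomial.map_zero] at hb
  have h5 : Polynomial.C (algebraMap _ (RatFunc K) b) * Q = 0 := by
    rw [← hb2]
    exact hb.symm
  rcases mul_eq_zero.mp h5 with h6 | h6
  · rw [Polynomial.C_eq_zero] at h6
    have h7 := IsFractionRing.injective (Polynomial K) (RatFunc K) (h6.trans (map_zero _).symm)
    exact absurd h7 (nonZeroDivisors.ne_zero hbm)
  · exact h6

/-- TASK R1 (second statement). The exchange of the two variables of `K(t)(s)`.

PROOF. `rmap (algebraMap K (RatFunc K)) : RatFunc K → RatFunc (RatFunc K)`, the inner variable is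
`RatFunc.C RatFunc.X`, the outer one `RatFunc.X`. The two elements are algebraically independent over
`K`, and generate. Let `S₀ : Polynomial (RatFunc K) →+* RatFunc (RatFunc K)` be
`eval₂ (rmap (algebraMap K (RatFunc K))) (RatFunc.C RatFunc.X)`; it is injective: the element
`RatFunc.C RatFunc.X` is transcendental over the image of `rmap (algebraMap K (RatFunc K))`. (If
`∑ P_i (X) * (C X)^i = 0` with `P_i ∈ RatFunc K` not all zero, clear denominators to have polynomials
`P_i ∈ K[X]`; then `∑ i, ∑ j, p_ij X^j (C X)^i = 0` in `RatFunc (RatFunc K)`, i.e. in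
`(RatFunc K)[X]`, so for each `j`: `∑ i, p_ij X^i = 0` in `RatFunc K`, so all `p_ij = 0`.) It extends to
`S : RatFunc (RatFunc K) →+* RatFunc (RatFunc K)` with `S (C x) = rmap (algebraMap K (RatFunc K)) x`
and `S X = C X`. `S ∘ S` fixes the constants and both variables, so it is the identity. -/
theorem exists_swap (K : Type u) [Field K] :
    ∃ S : RatFunc (RatFunc K) →+* RatFunc (RatFunc K),
      (∀ x, S (algebraMap (RatFunc K) (RatFunc (RatFunc K)) x) =
        rmap (algebraMap K (RatFunc K)) x) ∧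
      ∀ x, S (rmap (algebraMap K (RatFunc K)) x) =
        algebraMap (RatFunc K) (RatFunc (RatFunc K)) x := by
  have hinj := r1_swap_injective K
  set S₀ := r1_swap₀ K with hS₀
  have h := IsFractionRing.lift_algebraMap (A := Polynomial (RatFunc K))
    (K := RatFunc (RatFunc K)) hinj
  set S := IsFractionRing.lift (A := Polynomial (RatFunc K)) (K := RatFunc (RatFunc K)) hinj
    with hS
  have h1 : ∀ x, S (algebraMap (RatFunc K) (RatFunc (RatFunc K)) x) =
      rmap (algebraMap K (RatFunc K)) x := fun x => by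
    have h2 := h (Polynomial.C x)
    rw [RatFunc.algebraMap_C] at h2
    rw [RatFunc.algebraMap_eq_C, h2, hS₀]
    simp [r1_swap₀]
  refine ⟨S, h1, fun x => ?_⟩
  have h3 : S.comp (rmap (algebraMap K (RatFunc K))) =
      algebraMap (RatFunc K) (RatFunc (RatFunc K)) := by
    apply ratFunc_hom_ext
    · intro c
      have h2 := h1 (algebraMap K (RatFunc K) c)
      rw [RingHom.comp_apply, rmap_C, ← RatFunc.algebraMap_eq_C, h2, RatFunc.algebraMap_eq_C,
        rmap_C]
      rfl
    · have h2 := h Polynomial.X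
      rw [RatFunc.algebraMap_X] at h2
      rw [RingHom.comp_apply, rmap_X, h2, hS₀, RatFunc.algebraMap_eq_C]
      simp [r1_swap₀]
  exact RingHom.congr_fun h3 x

/-- TASK R1 (third statement). The compatibility of the Laurent expansions.

PROOF. `ratFunc_hom_ext`: both sides are homomorphisms on `RatFunc K`; on constants `c : K` both are
the constant series `c`, on `X` both are the variable of the series. -/
theorem rho_rmap {K : Type u} [Field K] {ρ : RatFunc K →+* LaurentSeries K}
    (hρ : ∀ c, ρ (RatFunc.C c) = HahnSeries.ofPowerSeries ℤ K (PowerSeries.C c))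
    (hρX : ρ RatFunc.X = HahnSeries.ofPowerSeries ℤ K PowerSeries.X)
    {ρ' : RatFunc (RatFunc K) →+* LaurentSeries (RatFunc K)}
    (hρ' : ∀ c, ρ' (RatFunc.C c) =
      HahnSeries.ofPowerSeries ℤ (RatFunc K) (PowerSeries.C c))
    (hρX' : ρ' RatFunc.X = HahnSeries.ofPowerSeries ℤ (RatFunc K) PowerSeries.X) :
    ρ'.comp (rmap (algebraMap K (RatFunc K))) =
      (hmap (Γ := ℤ) (algebraMap K (RatFunc K)) :
        LaurentSeries K →+* LaurentSeries (RatFunc K)).comp ρ := by
  apply ratFunc_hom_ext
  · intro c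
    rw [RingHom.comp_apply, RingHom.comp_apply, rmap_C, hρ, hρ', HahnSeries.ofPowerSeries_C,
      HahnSeries.ofPowerSeries_C]
    ext q
    rw [hmap_coeff, HahnSeries.C_apply, HahnSeries.C_apply]
    by_cases h : q = 0
    · subst h
      simp
    · rw [HahnSeries.coeff_single_of_ne h, HahnSeries.coeff_single_of_ne h, map_zero]
  · rw [RingHom.comp_apply, RingHom.comp_apply, rmap_X, hρX, hρX', HahnSeries.ofPowerSeries_X,
      HahnSeries.ofPowerSeries_X]
    ext q
    rw [hmap_coeff]
    by_cases h : q = 1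
    · subst h
      simp
    · rw [HahnSeries.coeff_single_of_ne h, HahnSeries.coeff_single_of_ne h, map_zero]

end GC
end

section

/-!
# Galois extensions of fields of rational functions
-/

namespace GC

universe u v w

/-- TASK RG. If `L / K` is a finite Galois extension, then so is `L(t) / K(t)`, of the same degree.

PROOF. Let `G = L ≃ₐ[K] L`, `d = card G = [L : K]`. `G` acts on `RatFunc L` by the automorphisms
`rmap σ` (`rmap_comp`, `ratFunc_hom_ext`), which are different for different `σ` (`rmap_C`) and fix the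
image of `RatFunc K`. By Artin's theorem (`FixedPoints.toAlgHomEquiv`/`FixedPoints.finrank_eq_card`,
`IsGalois.of_fixed_field`/`FixedPoints...isGalois`) `RatFunc L` is finite Galois over the fixed field
`E`, of degree `d`. The fixed field is the image of `RatFunc K`: it contains it, and let `x ∈ E`,
`x = P / Q` with polynomials over `L`, `Q ≠ 0`. Multiplying numerator and denominator by
`∏ σ ≠ 1, σ Q` we may assume that the denominator is `∏ σ, σ Q`, which is invariant under `G`; then the
numerator is invariant, too; a polynomial over `L` which is invariant under all `σ` has coefficients in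
`K` (`IsGalois.mem_bot_iff_fixed`). (Alternatively: a basis of `L / K` generates `RatFunc L` over
`RatFunc K`, so `[RatFunc L : RatFunc K] ≤ d`, while `G` gives `d` different automorphisms; an
extension of degree at most the number of its automorphisms is Galois,
`IsGalois.of_card_aut_eq_finrank`.) -/
theorem ratFunc_galois (K : Type u) (L : Type v) [Field K] [Field L] [Algebra K L]
    [FiniteDimensional K L] [IsGalois K L] :
    letI : Algebra (RatFunc K) (RatFunc L) := (rmap (algebraMap K L)).toAlgebra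
    FiniteDimensional (RatFunc K) (RatFunc L) ∧ IsGalois (RatFunc K) (RatFunc L) ∧
      Module.finrank (RatFunc K) (RatFunc L) = Module.finrank K L := by
  classical
  let iA : Algebra (RatFunc K) (RatFunc L) := (rmap (algebraMap K L)).toAlgebra
  let iP : Algebra (Polynomial K) (Polynomial L) :=
    (Polynomial.mapRingHom (algebraMap K L)).toAlgebra
  have hP : ∀ p : Polynomial K, algebraMap (Polynomial K) (Polynomial L) p =
      p.map (algebraMap K L) := fun _ => rfl
  have t1 : IsScalarTower (Polynomial K) (Polynomial L) (RatFunc L) := inferInstance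
  have t2 : IsScalarTower (Polynomial K) (RatFunc K) (RatFunc L) := by
    apply IsScalarTower.of_algebraMap_eq
    intro p
    rw [IsScalarTower.algebraMap_apply (Polynomial K) (Polynomial L) (RatFunc L), hP]
    exact (rmap_algebraMap_poly (algebraMap K L) p).symm
  have hG : IsGaloisGroup (L ≃ₐ[K] L) (Polynomial K) (Polynomial L) := by
    refine ⟨⟨fun {g h} H => ?_⟩, ⟨fun g p q => ?_⟩, ⟨fun b hb => ?_⟩⟩
    · ext x
      have h1 := H (Polynomial.C x)
      rw [Polynomial.smul_C, Polynomial.smul_C] at h1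
      exact Polynomial.C_injective h1
    · rw [Algebra.smul_def, Algebra.smul_def, smul_mul', hP]
      congr 1
      ext i
      rw [Polynomial.coeff_smul, Polynomial.coeff_map]
      exact g.commutes _
    · have h2 : b ∈ Polynomial.lifts (algebraMap K L) := by
        rw [Polynomial.lifts_iff_coeff_lifts]
        intro i
        have h3 : b.coeff i ∈ (⊥ : IntermediateField K L) := by
          rw [InfiniteGalois.mem_bot_iff_fixed]
          intro g
          have h4 := congrArg (fun P => Polynomial.coeff P i) (hb g)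
          simp only [Polynomial.coeff_smul] at h4
          exact h4
        exact IntermediateField.mem_bot.1 h3
      rw [Polynomial.mem_lifts] at h2
      exact h2
  let iM : MulSemiringAction (L ≃ₐ[K] L) (RatFunc L) :=
    IsFractionRing.mulSemiringAction (L ≃ₐ[K] L) (Polynomial L) (RatFunc L)
  have iD : SMulDistribClass (L ≃ₐ[K] L) (Polynomial L) (RatFunc L) :=
    IsFractionRing.smulDistribClass (L ≃ₐ[K] L) (Polynomial L) (RatFunc L)
  have hGG : IsGaloisGroup (L ≃ₐ[K] L) (RatFunc K) (RatFunc L) :=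
    IsGaloisGroup.to_isFractionRing (L ≃ₐ[K] L) (Polynomial K) (Polynomial L) (RatFunc K)
      (RatFunc L)
  refine ⟨IsGaloisGroup.finiteDimensional (L ≃ₐ[K] L) (RatFunc K) (RatFunc L),
    IsGaloisGroup.isGalois (L ≃ₐ[K] L) (RatFunc K) (RatFunc L), ?_⟩
  rw [← IsGaloisGroup.card_eq_finrank (L ≃ₐ[K] L) (RatFunc K) (RatFunc L),
    ← IsGaloisGroup.card_eq_finrank (L ≃ₐ[K] L) K L]

end GC
end

section

/-!
# Stabilization of the unramified classes
-/

namespace GC

open UnrA

universe u z

/-- The classes which become unramified in the field of rational functions in `n` variables. -/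
noncomputable def stn (A : FieldGroups.{u, z}) : ℕ → (K : Type u) → [Field K] → AddSubgroup (A.obj K)
  | 0, K, _ => A.nr K
  | n + 1, K, _ => (stn A n (RatFunc K)).comap (A.map (algebraMap K (RatFunc K)))

/-- The functor `A` with the classes which become unramified in a purely transcendental extension. -/
noncomputable def stab (A : FieldGroups.{u, z}) : FieldGroups.{u, z} where
  obj := A.obj
  grp := A.grp
  nr K _ := ⨆ n, stn A n K
  map := A.map

variable {A : FieldGroups.{u, z}}

lemma stn_le_succ (hA : A.MapsUnramified) (n : ℕ) :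
    ∀ (K : Type u) [Field K], stn A n K ≤ stn A (n + 1) K := by
  induction n with
  | zero => exact fun K _ x hx => hA _ x hx
  | succ n ih => exact fun K _ x hx => ih (RatFunc K) hx

lemma stn_mono (hA : A.MapsUnramified) (K : Type u) [Field K] : Monotone fun n => stn A n K :=
  monotone_nat_of_le_succ fun n => stn_le_succ hA n K

lemma mem_stab (hA : A.MapsUnramified) {K : Type u} [Field K] {x : A.obj K} :
    x ∈ (stab A).nr K ↔ ∃ n, x ∈ stn A n K :=
  AddSubgroup.mem_iSup_of_directed (stn_mono hA K).directed_le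

lemma nr_le_stab (K : Type u) [Field K] : A.nr K ≤ (stab A).nr K :=
  le_iSup (fun n => stn A n K) 0

lemma map_stn (hf : A.IsFunctor) (hA : A.MapsUnramified) (n : ℕ) :
    ∀ {K L : Type u} [Field K] [Field L] (f : K →+* L), ∀ x ∈ stn A n K,
      A.map f x ∈ stn A n L := by
  induction n with
  | zero => exact fun f x hx => hA f x hx
  | succ n ih =>
    intro K L _ _ f x hx
    change A.map (algebraMap L (RatFunc L)) (A.map f x) ∈ stn A n (RatFunc L)
    rw [← hf.2, ← rmap_comp_algebraMap, hf.2]
    exact ih (rmap f) _ hx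

theorem stab_mapsUnramified (hf : A.IsFunctor) (hA : A.MapsUnramified) :
    (stab A).MapsUnramified := by
  intro K L _ _ f x hx
  obtain ⟨n, hn⟩ := (mem_stab hA).mp hx
  exact (mem_stab hA).mpr ⟨n, map_stn hf hA n f x hn⟩

/-- The specialization homomorphisms, natural in the field. -/
structure IsSpec (A : FieldGroups.{u, z})
    (s : (K : Type u) → [Field K] → A.obj (LaurentSeries K) →+ A.obj K) : Prop where
  spec : ∀ (K F : Type u) [Field K] [Field F] (f : F →+* PowerSeries K) (x : A.obj F),
    s K (A.map ((HahnSeries.ofPowerSeries ℤ K).comp f) x) =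
      A.map ((PowerSeries.constantCoeff (R := K)).comp f) x
  nat : ∀ (K L : Type u) [Field K] [Field L] (f : K →+* L) (x : A.obj (LaurentSeries K)),
    s L (A.map (hmap (Γ := ℤ) f : LaurentSeries K →+* LaurentSeries L) x) = A.map f (s K x)

variable {s : (K : Type u) → [Field K] → A.obj (LaurentSeries K) →+ A.obj K}

theorem IsSpec.specializes (hs : IsSpec A s) : (stab A).Specializes := fun K _ =>
  ⟨s K, fun x _ y _ => map_add (s K) x y, fun F _ f x _ => hs.spec K F f x⟩

/-- The constants of `K(t)`, as a subfield of `K((T))`, specialize to themselves. -/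
theorem IsSpec.const (hf : A.IsFunctor) (hs : IsSpec A s) {K : Type u} [Field K]
    {ρ : RatFunc K →+* LaurentSeries K}
    (hρ : ∀ c, ρ (RatFunc.C c) = HahnSeries.ofPowerSeries ℤ K (PowerSeries.C c)) (x : A.obj K) :
    s K (A.map ρ (A.map (algebraMap K (RatFunc K)) x)) = x := by
  have h1 : ρ.comp (algebraMap K (RatFunc K)) =
      (HahnSeries.ofPowerSeries ℤ K).comp (PowerSeries.C (R := K)) := by
    ext1 c
    exact hρ c
  have h2 : (PowerSeries.constantCoeff (R := K)).comp (PowerSeries.C (R := K)) =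
      RingHom.id K := by
    ext1 c
    simp
  rw [← hf.2, h1, hs.spec, h2, hf.1]

/-- Rational extensions are injective on classes. -/
theorem IsSpec.ratInjective (hf : A.IsFunctor) (hs : IsSpec A s) : A.RatInjective := by
  intro K _ x hx
  obtain ⟨ρ, hρ, -⟩ := exists_laurent K
  have h := hs.const hf hρ x
  rw [hx, map_zero, map_zero] at h
  exact h.symm

/-- Descent for the stabilized classes. -/
theorem stn_descent (hf : A.IsFunctor) (hA : A.MapsUnramified) (hs : IsSpec A s)
    (hd : ∀ (K : Type u) [Field K], ∀ x ∈ A.nr (RatFunc K),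
      ∃ y : A.obj K, A.map (algebraMap K (RatFunc K)) y = x) (n : ℕ) :
    ∀ (K : Type u) [Field K], ∀ x ∈ stn A n (RatFunc K),
      ∃ y : A.obj K, A.map (algebraMap K (RatFunc K)) y = x := by
  induction n with
  | zero => exact hd
  | succ n ih =>
    intro K _ x hx
    obtain ⟨S, hS1, hS2⟩ := exists_swap K
    have hSa : S.comp (algebraMap (RatFunc K) (RatFunc (RatFunc K))) =
        rmap (algebraMap K (RatFunc K)) := RingHom.ext hS1
    have hSm : S.comp (rmap (algebraMap K (RatFunc K))) =
        algebraMap (RatFunc K) (RatFunc (RatFunc K)) := RingHom.ext hS2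
    have h1 : A.map (rmap (algebraMap K (RatFunc K))) x ∈ stn A n (RatFunc (RatFunc K)) := by
      rw [← hSa, hf.2]
      exact map_stn hf hA n S _ hx
    obtain ⟨y, hy⟩ := ih (RatFunc K) _ h1
    obtain ⟨ρ, hρ, hρX⟩ := exists_laurent K
    obtain ⟨ρ', hρ', hρX'⟩ := exists_laurent (RatFunc K)
    have h2 := hs.const hf hρ' y
    rw [hy, ← hf.2, rho_rmap hρ hρX hρ' hρX', hf.2, hs.nat] at h2
    refine ⟨s K (A.map ρ x), ?_⟩
    set y₀ := s K (A.map ρ x) with hy₀
    have h3 : A.map (rmap (algebraMap K (RatFunc K))) x =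
        A.map (rmap (algebraMap K (RatFunc K))) (A.map (algebraMap K (RatFunc K)) y₀) := by
      rw [← hy, ← h2, ← hf.2, ← hf.2, rmap_comp_algebraMap]
    have h4 : A.map (algebraMap (RatFunc K) (RatFunc (RatFunc K))) x =
        A.map (algebraMap (RatFunc K) (RatFunc (RatFunc K)))
          (A.map (algebraMap K (RatFunc K)) y₀) := by
      rw [← hSm, hf.2, hf.2, h3]
    have h5 : A.map (algebraMap (RatFunc K) (RatFunc (RatFunc K)))
        (A.map (algebraMap K (RatFunc K)) y₀ - x) = 0 := by
      rw [map_sub, h4, sub_self]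
    exact sub_eq_zero.mp (hs.ratInjective hf (RatFunc K) _ h5)

theorem stab_ratUnramified (hf : A.IsFunctor) (hA : A.MapsUnramified) (hs : IsSpec A s)
    (hd : ∀ (K : Type u) [Field K], ∀ x ∈ A.nr (RatFunc K),
      ∃ y : A.obj K, A.map (algebraMap K (RatFunc K)) y = x) : (stab A).RatUnramified := by
  intro K _ x hx
  obtain ⟨n, hn⟩ := (mem_stab hA).mp hx
  obtain ⟨y, rfl⟩ := stn_descent hf hA hs hd n K x hn
  exact ⟨y, (mem_stab hA).mpr ⟨n + 1, hn⟩, rfl⟩

/-- Galois descent for the stabilized classes. -/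
theorem stn_galois (hf : A.IsFunctor) (hG : A.GaloisUnramified) (n : ℕ) :
    ∀ (K L : Type u) [Field K] [Field L] [Algebra K L] [FiniteDimensional K L] [IsGalois K L]
      (x : A.obj K), A.map (algebraMap K L) x ∈ stn A n L →
        Module.finrank K L • x ∈ stn A n K := by
  induction n with
  | zero => exact fun K L _ _ _ _ _ x hx => hG K L x hx
  | succ n ih =>
    intro K L _ _ _ _ _ x hx
    let _ : Algebra (RatFunc K) (RatFunc L) := (rmap (algebraMap K L)).toAlgebra
    obtain ⟨h1, h2, h3⟩ := ratFunc_galois K L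
    have h4 : A.map (algebraMap (RatFunc K) (RatFunc L))
        (A.map (algebraMap K (RatFunc K)) x) ∈ stn A n (RatFunc L) := by
      have h5 : (algebraMap (RatFunc K) (RatFunc L)).comp (algebraMap K (RatFunc K)) =
          (algebraMap L (RatFunc L)).comp (algebraMap K L) := rmap_comp_algebraMap _
      rw [← hf.2, h5, hf.2]
      exact hx
    have h6 := ih (RatFunc K) (RatFunc L) _ h4
    rw [h3, ← map_nsmul] at h6
    exact h6

theorem stab_galoisUnramified (hf : A.IsFunctor) (hA : A.MapsUnramified)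
    (hG : A.GaloisUnramified) : (stab A).GaloisUnramified := by
  intro K L _ _ _ _ _ x hx
  obtain ⟨n, hn⟩ := (mem_stab hA).mp hx
  exact (mem_stab hA).mpr ⟨n, stn_galois hf hG n K L x hn⟩

lemma ratInjective_stab (h : A.RatInjective) : (stab A).RatInjective := h

/-- The stabilized functor satisfies all axioms. -/
theorem exists_stab (hf : A.IsFunctor) (hA : A.MapsUnramified) (hs : IsSpec A s)
    (hd : ∀ (K : Type u) [Field K], ∀ x ∈ A.nr (RatFunc K),
      ∃ y : A.obj K, A.map (algebraMap K (RatFunc K)) y = x) (hk : A.FiniteKernel)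
    (hG : A.GaloisUnramified) (ht : A.GaloisTrace) :
    ∃ B : UFun.{u, z}, B.toFieldGroups = stab A :=
  ⟨{ toFieldGroups := stab A
     isFunctor := hf
     mapsUnramified := stab_mapsUnramified hf hA
     ratInjective := ratInjective_stab (hs.ratInjective hf)
     ratUnramified := stab_ratUnramified hf hA hs hd
     finiteKernel := hk
     galoisUnramified := stab_galoisUnramified hf hA hG
     galoisTrace := ht }, rfl⟩

end GC
end
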