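import Pool.Agent.Lib.MP_859dd5_ag.Mg.G036
import Pool.Agent.Lib.MP_859dd5_ag.Mg.G033

section

/-!
# Uniformizers of the traces of valuation rings
-/

namespace GC

universe u v

private theorem W1_dvr_of {K : Type u} [Field K] (A : ValuationSubring K) (a : K) (ha0 : a ≠ 0)
    (ha1 : A.valuation a < 1)
    (h : ∀ x : K, x ≠ 0 → ∃ m : ℤ, A.valuation x = A.valuation a ^ m) :
    IsDiscreteValuationRing A := by
  have hv0 : 0 < A.valuation a := (Valuation.pos_iff A.valuation).2 ha0
  have haA : a ∈ A := (A.valuation_le_one_iff a).1 ha1.le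
  have hnat : ∀ x : A, x ≠ 0 → ∃ n : ℕ, A.valuation (x : K) = A.valuation a ^ n := by
    intro x hx
    have hx' : (x : K) ≠ 0 := fun hh => hx (Subtype.ext hh)
    obtain ⟨m, hm⟩ := h x hx'
    rcases lt_or_ge m 0 with hneg | hpos
    · exfalso
      have h1 : 1 < A.valuation a ^ m := one_lt_zpow_of_neg₀ hv0 ha1 hneg
      have h2 : A.valuation (x : K) ≤ 1 := A.valuation_le_one x
      rw [hm] at h2
      exact absurd h1 (not_lt.2 h2)
    · obtain ⟨n, rfl⟩ := Int.eq_ofNat_of_zero_le hpos
      refine ⟨n, ?_⟩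
      rw [hm]
      exact zpow_natCast _ _
  apply IsDiscreteValuationRing.ofHasUnitMulPowIrreducibleFactorization
  refine ⟨⟨a, haA⟩, ⟨?_, ?_⟩, ?_⟩
  · intro hu
    have h1 := (A.valuation_eq_one_iff _).1 hu
    exact absurd h1 ha1.ne
  · intro x y hxy
    have hxy' : a = (x : K) * y := congrArg Subtype.val hxy
    have hx0 : x ≠ 0 := by
      rintro rfl
      apply ha0
      rw [hxy']
      simp
    have hy0 : y ≠ 0 := by
      rintro rfl
      apply ha0
      rw [hxy']
      simp
    obtain ⟨m, hm⟩ := hnat x hx0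
    obtain ⟨k, hk⟩ := hnat y hy0
    have h1 : A.valuation a ^ 1 = A.valuation a ^ (m + k) := by
      rw [pow_one, pow_add, ← hm, ← hk, ← map_mul, ← hxy']
    have h2 : 1 = m + k := pow_right_injective₀ hv0 ha1.ne h1
    rcases Nat.eq_zero_or_pos m with h3 | h3
    · left
      rw [A.valuation_eq_one_iff, hm, h3, pow_zero]
    · right
      have h4 : k = 0 := by omega
      rw [A.valuation_eq_one_iff, hk, h4, pow_zero]
  · intro x hx
    obtain ⟨n, hn⟩ := hnat x hx
    refine ⟨n, ?_⟩
    have h1 : A.valuation (x : K) = A.valuation (((⟨a, haA⟩ : A) ^ n : A) : K) := by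
      rw [hn]
      simp
    obtain ⟨w, hw⟩ := (A.valuation_eq_iff _ _).1 h1
    refine ⟨w, ?_⟩
    apply Subtype.ext
    rw [← hw]
    simp [mul_comm]

private theorem W1_exists_of_dvr {K : Type u} [Field K] (A : ValuationSubring K)
    (hA : IsDiscreteValuationRing A) :
    ∃ a : K, a ≠ 0 ∧ A.valuation a < 1 ∧
      ∀ x : K, x ≠ 0 → ∃ m : ℤ, A.valuation x = A.valuation a ^ m := by
  obtain ⟨ϖ, hϖ⟩ := IsDiscreteValuationRing.exists_irreducible A
  have key : ∀ x : A, x ≠ 0 → ∃ n : ℕ, A.valuation (x : K) = A.valuation (ϖ : K) ^ n := by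
    intro x hx
    obtain ⟨n, u, hu⟩ := IsDiscreteValuationRing.eq_unit_mul_pow_irreducible hx hϖ
    refine ⟨n, ?_⟩
    rw [hu]
    simp
  refine ⟨ϖ, ?_, ?_, ?_⟩
  · intro h
    exact hϖ.ne_zero (Subtype.ext h)
  · rcases A.valuation_lt_one_or_eq_one ϖ with h | h
    · exact h
    · exact absurd ((A.valuation_eq_one_iff ϖ).2 h) hϖ.not_isUnit
  · intro x hx
    rcases A.mem_or_inv_mem x with h | h
    · obtain ⟨n, hn⟩ := key ⟨x, h⟩ (fun hh => hx (congrArg Subtype.val hh))
      refine ⟨n, ?_⟩
      rw [zpow_natCast]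
      exact hn
    · obtain ⟨n, hn⟩ := key ⟨x⁻¹, h⟩ (fun hh => inv_ne_zero hx (congrArg Subtype.val hh))
      refine ⟨-n, ?_⟩
      rw [zpow_neg, zpow_natCast, ← hn, map_inv₀, inv_inv]

private theorem W1_equiv {K : Type u} {L : Type v} [Field K] [Field L] (f : K →+* L)
    (R : ValuationSubring L) : (R.comap f).valuation.IsEquiv (R.valuation.comap f) := by
  apply Valuation.isEquiv_of_val_le_one
  intro x
  rw [ValuationSubring.valuation_le_one_iff, ValuationSubring.mem_comap, Valuation.comap_apply,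
    ValuationSubring.valuation_le_one_iff]


private theorem W1_sum {Ω : Type v} [Field Ω] (O : ValuationSubring Ω) {m : ℕ} (t : Fin m → Ω)
    (h : ∀ i j, t i ≠ 0 → t j ≠ 0 → O.valuation (t i) = O.valuation (t j) → i = j)
    (h0 : ∑ i, t i = 0) (i : Fin m) : t i = 0 := by
  classical
  obtain ⟨j, -, hj⟩ := Finset.exists_max_image Finset.univ (fun i => O.valuation (t i))
    ⟨i, Finset.mem_univ i⟩
  have hj0 : t j = 0 := by
    by_contra hne
    have hv : O.valuation (t j) ≠ 0 := (Valuation.ne_zero_iff _).2 hne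
    have h1 : O.valuation (∑ i ∈ Finset.univ.erase j, t i) < O.valuation (t j) := by
      apply Valuation.map_sum_lt _ hv
      intro k hk
      have hkj : k ≠ j := (Finset.mem_erase.1 hk).1
      by_cases hk0 : t k = 0
      · rw [hk0, map_zero]
        exact (Valuation.pos_iff _).2 hne
      · exact lt_of_le_of_ne (hj k (Finset.mem_univ k)) (fun hh => hkj (h k j hk0 hne hh))
    have h2 : ∑ i ∈ Finset.univ.erase j, t i = - t j := by
      have h3 := Finset.sum_erase_add Finset.univ t (Finset.mem_univ j)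
      rw [h0] at h3
      exact eq_neg_of_add_eq_zero_left h3
    rw [h2, Valuation.map_neg] at h1
    exact lt_irrefl _ h1
  have h4 := hj i (Finset.mem_univ i)
  simp only [hj0, map_zero] at h4
  exact (Valuation.zero_iff _).1 (le_antisymm h4 zero_le)

variable {F : Type u} {Ω : Type v} [Field F] [Field Ω] [Algebra F Ω]

/-- The element `π` of `F` is a uniformizer of the trace of the valuation ring `O` on `F`. -/
def IsUnif (O : ValuationSubring Ω) (π : F) : Prop :=
  π ≠ 0 ∧ O.valuation (algebraMap F Ω π) < 1 ∧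
    ∀ x : F, x ≠ 0 → ∃ n : ℤ, O.valuation (algebraMap F Ω x) = O.valuation (algebraMap F Ω π) ^ n

/-- TASK W1 (first statement). Existence of a uniformizer.

PROOF. Let `R` be the trace, a discrete valuation ring with fraction field `F`, and `π ∈ R` irreducible
(`IsDiscreteValuationRing.exists_irreducible`). Each `x ∈ F^×` is `π ^ n * u`, `n : ℤ`, `u` a unit of `R`
(`IsDiscreteValuationRing.eq_unit_mul_pow_irreducible` for `x` or `x⁻¹` in `R`), and units of `R` have
valuation `1`; `π` is a nonunit of `R`, so a nonunit of `O`. -/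
theorem exists_unif {O : ValuationSubring Ω}
    (hO : IsDiscreteValuationRing (O.comap (algebraMap F Ω))) : ∃ π : F, IsUnif O π := by
  obtain ⟨a, ha0, ha1, ha⟩ := W1_exists_of_dvr _ hO
  have hE := W1_equiv (algebraMap F Ω) O
  refine ⟨a, ha0, (Valuation.isEquiv_iff_val_lt_one.1 hE).1 ha1, fun x hx => ?_⟩
  obtain ⟨m, hm⟩ := ha x hx
  refine ⟨m, ?_⟩
  rw [← map_zpow₀] at hm
  have h := (hE.eq_iff).1 hm
  rw [Valuation.comap_apply, Valuation.comap_apply, map_zpow₀, map_zpow₀] at h
  exact h

/-- TASK W1 (second statement). The converse.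

PROOF. `IsDiscreteValuationRing.ofHasUnitMulPowIrreducibleFactorization` (see V3, first statement), with
the irreducible element `π`. -/
theorem IsUnif.dvr {O : ValuationSubring Ω} {π : F} (hπ : IsUnif O π) :
    IsDiscreteValuationRing (O.comap (algebraMap F Ω)) := by
  have hE := W1_equiv (algebraMap F Ω) O
  refine W1_dvr_of _ π hπ.1 ((Valuation.isEquiv_iff_val_lt_one.1 hE).2 hπ.2.1) fun x hx => ?_
  obtain ⟨m, hm⟩ := hπ.2.2 x hx
  refine ⟨m, ?_⟩
  rw [← map_zpow₀]
  refine (hE.eq_iff).2 ?_
  rw [Valuation.comap_apply, Valuation.comap_apply, map_zpow₀, map_zpow₀]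
  exact hm

/-- TASK W1 (third statement). Powers of the value of a uniformizer are different. -/
theorem IsUnif.zpow_eq_iff {O : ValuationSubring Ω} {π : F} (hπ : IsUnif O π) (m n : ℤ) :
    O.valuation (algebraMap F Ω π) ^ m = O.valuation (algebraMap F Ω π) ^ n ↔ m = n := by
  have h0 : 0 < O.valuation (algebraMap F Ω π) :=
    (Valuation.pos_iff _).2 ((map_ne_zero _).2 hπ.1)
  exact (zpow_right_injective₀ h0 hπ.2.1.ne).eq_iff

/-- TASK W1 (fourth statement). Finite extensions.

PROOF. The trace of `O` on `E` is a discrete valuation ring (`dvr_of_finite`, V3: for the valuation ring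
`O.comap (algebraMap E Ω)` of `E`); let `ϖ` be a uniformizer (`exists_unif` for `E`),
`O.valuation π = O.valuation ϖ ^ m`, and `m > 0` as both values are less than `1`. The elements
`1, ϖ, …, ϖ ^ (m-1)` are linearly independent over `F`: the nonzero terms of a relation
`∑ a_i ϖ ^ i = 0` have the values `O.valuation ϖ ^ (m k_i + i)`, which are different; so
`m ≤ [E : F]`. -/
theorem exists_unif_adjoin {O : ValuationSubring Ω} {π : F} (hπ : IsUnif O π)
    (E : IntermediateField F Ω) [FiniteDimensional F E] :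
    ∃ ϖ : E, IsUnif O ϖ ∧ ∃ m : ℕ, 0 < m ∧ m ≤ Module.finrank F E ∧
      O.valuation (algebraMap F Ω π) = O.valuation (ϖ : Ω) ^ m := by
  classical
  have hdvr : IsDiscreteValuationRing (O.comap (algebraMap E Ω)) := by
    apply dvr_of_finite (K := F) (L := E)
    have h1 : (O.comap (algebraMap E Ω)).comap (algebraMap F E) = O.comap (algebraMap F Ω) := by
      rw [ValuationSubring.comap_comap, ← IsScalarTower.algebraMap_eq]
    rw [h1]
    exact hπ.dvr
  obtain ⟨ϖ, hϖ⟩ := exists_unif hdvr
  have hπE : algebraMap F E π ≠ 0 := (map_ne_zero _).2 hπ.1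
  obtain ⟨n, hn⟩ := hϖ.2.2 _ hπE
  rw [← IsScalarTower.algebraMap_apply] at hn
  have hv0 : 0 < O.valuation (algebraMap E Ω ϖ) :=
    (Valuation.pos_iff _).2 ((map_ne_zero _).2 hϖ.1)
  have hnpos : 0 < n := by
    by_contra hneg
    have h1 : 1 ≤ O.valuation (algebraMap E Ω ϖ) ^ n :=
      one_le_zpow_of_nonpos₀ hv0 hϖ.2.1.le (not_lt.1 hneg)
    rw [← hn] at h1
    exact absurd hπ.2.1 (not_lt.2 h1)
  obtain ⟨m, rfl⟩ := Int.eq_ofNat_of_zero_le hnpos.le
  have hm : 0 < m := by exact_mod_cast hnpos
  refine ⟨ϖ, hϖ, m, hm, ?_, ?_⟩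
  · have hli : LinearIndependent F (fun i : Fin m => ϖ ^ (i : ℕ)) := by
      rw [Fintype.linearIndependent_iff]
      intro g hg
      have hg' : ∑ i : Fin m, algebraMap F Ω (g i) * (algebraMap E Ω ϖ) ^ (i : ℕ) = 0 := by
        have h1 := congrArg (algebraMap E Ω) hg
        rw [map_sum, map_zero] at h1
        rw [← h1]
        refine Finset.sum_congr rfl fun i _ => ?_
        rw [Algebra.smul_def, map_mul, map_pow, ← IsScalarTower.algebraMap_apply]
      have hϖ0 : algebraMap E Ω ϖ ≠ 0 := (map_ne_zero _).2 hϖ.1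
      have key := W1_sum O (fun i : Fin m => algebraMap F Ω (g i) * (algebraMap E Ω ϖ) ^ (i : ℕ))
        (by
          intro i j hi hj hij
          have hi' : g i ≠ 0 := fun h => hi (by simp [h])
          have hj' : g j ≠ 0 := fun h => hj (by simp [h])
          obtain ⟨a, ha⟩ := hπ.2.2 _ hi'
          obtain ⟨b, hb⟩ := hπ.2.2 _ hj'
          simp only [map_mul, map_pow] at hij
          rw [ha, hb, hn, ← zpow_mul, ← zpow_mul, ← zpow_natCast, ← zpow_natCast,
            ← zpow_add₀ hv0.ne', ← zpow_add₀ hv0.ne', hϖ.zpow_eq_iff] at hij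
          have h2 : ((i : ℕ) : ℤ) % m = ((j : ℕ) : ℤ) % m := by
            have h3 : (((i : ℕ) : ℤ) + m * a) % m = (((j : ℕ) : ℤ) + m * b) % m := by
              congr 1
              linarith
            rwa [Int.add_mul_emod_self_left, Int.add_mul_emod_self_left] at h3
          rw [Int.emod_eq_of_lt (by positivity) (by exact_mod_cast i.2),
            Int.emod_eq_of_lt (by positivity) (by exact_mod_cast j.2)] at h2
          exact Fin.ext (by exact_mod_cast h2)) hg'
      intro i
      have h5 := key i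
      simp only [mul_eq_zero, map_eq_zero, pow_eq_zero_iff', hϖ.1, false_and, or_false] at h5
      exact h5
    have h6 := hli.fintype_card_le_finrank
    simpa using h6
  · rw [hn, zpow_natCast]
    rfl

end GC
end

section

/-!
# The decomposition group acts on the residue field through all automorphisms
-/

namespace GC

universe u v

open scoped Pointwise

/-- The representation of the elements of `O` as quotients. -/
theorem w2_repr {F : Type u} {Ω : Type v} [Field F] [Field Ω] [Algebra F Ω]
    [Algebra.IsAlgebraic F Ω] (O : ValuationSubring Ω) {x : Ω} (hx : x ∈ O) (hx0 : x ≠ 0) :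
    ∃ y z : Ω, ((algebraMap F Ω).comp
      (O.comap (algebraMap F Ω)).subtype).IsIntegralElem y ∧ ((algebraMap F Ω).comp
      (O.comap (algebraMap F Ω)).subtype).IsIntegralElem z ∧ x * y + z = 0 ∧
      O.valuation y = 1 := by
  classical
  obtain ⟨p, hp, hpx⟩ := Algebra.IsAlgebraic.isAlgebraic (R := F) x
  obtain ⟨φ, hφ⟩ : ∃ φ : F →+* Ω, φ = algebraMap F Ω := ⟨_, rfl⟩
  obtain ⟨v, hv⟩ : ∃ v : ℕ → O.ValueGroup, v = fun i => O.valuation (φ (p.coeff i)) := ⟨_, rfl⟩
  -- the index `j`
  obtain ⟨j, hjn, hj1, hj2⟩ : ∃ j ∈ Finset.range (p.natDegree + 1),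
      (∀ i ∈ Finset.range (p.natDegree + 1), v i ≤ v j) ∧
      ∀ i ∈ Finset.range (p.natDegree + 1), j < i → v i < v j := by
    obtain ⟨j₀, hj₀, hmax⟩ := Finset.exists_max_image (Finset.range (p.natDegree + 1)) v
      ⟨0, Finset.mem_range.2 (Nat.succ_pos _)⟩
    obtain ⟨T, hT⟩ : ∃ T : Finset ℕ, T = (Finset.range (p.natDegree + 1)).filter
      (fun i => v i = v j₀) := ⟨_, rfl⟩
    have hne : T.Nonempty := ⟨j₀, by rw [hT]; exact Finset.mem_filter.2 ⟨hj₀, rfl⟩⟩
    have hTm : ∀ i, i ∈ T ↔ i ∈ Finset.range (p.natDegree + 1) ∧ v i = v j₀ := by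
      intro i
      rw [hT, Finset.mem_filter]
    have h1 := (hTm _).1 (T.max'_mem hne)
    refine ⟨T.max' hne, h1.1, fun i hi => ?_, fun i hi hlt => ?_⟩
    · rw [h1.2]
      exact hmax i hi
    · rw [h1.2]
      refine lt_of_le_of_ne (hmax i hi) fun heq => ?_
      have h2 : i ∈ T := (hTm i).2 ⟨hi, heq⟩
      exact absurd (T.le_max' i h2) (not_le.2 hlt)
  have hvj : v j ≠ 0 := by
    intro h0
    have h1 := hj1 p.natDegree (Finset.mem_range.2 (Nat.lt_succ_self _))
    rw [h0, le_zero_iff, hv] at h1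
    have h2 : φ (p.coeff p.natDegree) = 0 := (O.valuation).zero_iff.1 h1
    rw [map_eq_zero] at h2
    exact hp (Polynomial.leadingCoeff_eq_zero.1 h2)
  have haj : p.coeff j ≠ 0 := by
    intro h0
    apply hvj
    rw [hv]
    show O.valuation (φ (p.coeff j)) = 0
    rw [h0, map_zero, map_zero]
  obtain ⟨b, hb⟩ : ∃ b : ℕ → F, b = fun i => p.coeff i / p.coeff j := ⟨_, rfl⟩
  have hvb : ∀ i, O.valuation (φ (b i)) = v i / v j := by
    intro i
    rw [hb, hv]
    show O.valuation (φ (p.coeff i / p.coeff j)) = _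
    rw [map_div₀, map_div₀]
  have hv0 : ∀ i, p.natDegree < i → v i = 0 := by
    intro i hi
    rw [hv]
    show O.valuation (φ (p.coeff i)) = 0
    rw [Polynomial.coeff_eq_zero_of_natDegree_lt hi, map_zero, map_zero]
  have hbO : ∀ i, φ (b i) ∈ O := by
    intro i
    rw [← O.valuation_le_one_iff, hvb, div_le_one₀ (zero_lt_iff.2 hvj)]
    by_cases hi : i ∈ Finset.range (p.natDegree + 1)
    · exact hj1 i hi
    · rw [hv0 i (by simpa using hi)]
      exact zero_le
  have hblt : ∀ i, j < i → O.valuation (φ (b i)) < 1 := by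
    intro i hji
    rw [hvb, div_lt_one₀ (zero_lt_iff.2 hvj)]
    by_cases hi : i ∈ Finset.range (p.natDegree + 1)
    · exact hj2 i hi hji
    · rw [hv0 i (by simpa using hi)]
      exact zero_lt_iff.2 hvj
  have hbj : φ (b j) = 1 := by
    rw [hb]
    show φ (p.coeff j / p.coeff j) = 1
    rw [div_self haj, map_one]
  have hbR : ∀ i, b i ∈ O.comap (algebraMap F Ω) := by
    intro i
    rw [← hφ]
    exact hbO i
  -- the relation
  have hrel : ∑ i ∈ Finset.range (p.natDegree + 1), φ (b i) * x ^ i = 0 := by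
    have h1 : Polynomial.aeval x p = ∑ i ∈ Finset.range (p.natDegree + 1),
        φ (p.coeff i) * x ^ i := by
      rw [Polynomial.aeval_eq_sum_range]
      refine Finset.sum_congr rfl fun i _ => ?_
      rw [Algebra.smul_def, hφ]
    rw [hpx] at h1
    have h2 : ∑ i ∈ Finset.range (p.natDegree + 1), φ (b i) * x ^ i =
        (φ (p.coeff j))⁻¹ * ∑ i ∈ Finset.range (p.natDegree + 1), φ (p.coeff i) * x ^ i := by
      rw [Finset.mul_sum]
      refine Finset.sum_congr rfl fun i _ => ?_
      rw [hb]
      show φ (p.coeff i / p.coeff j) * x ^ i = _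
      rw [map_div₀, div_eq_mul_inv]
      ring
    rw [h2, ← h1, mul_zero]
  obtain ⟨y, hy⟩ : ∃ y : Ω, y = ∑ k ∈ Finset.range (p.natDegree + 1 - j), φ (b (j + k)) * x ^ k :=
    ⟨_, rfl⟩
  obtain ⟨z, hz⟩ : ∃ z : Ω, z = ∑ i ∈ Finset.range j, φ (b i) * (x⁻¹) ^ (j - 1 - i) := ⟨_, rfl⟩
  have hjn' : j ≤ p.natDegree := Nat.lt_succ_iff.1 (Finset.mem_range.1 hjn)
  have hxyz : x * y + z = 0 := by
    have h1 : ∑ i ∈ Finset.range (p.natDegree + 1), φ (b i) * x ^ i =
        ∑ i ∈ Finset.range j, φ (b i) * x ^ i + x ^ j * y := by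
      have e : p.natDegree + 1 = j + (p.natDegree + 1 - j) := by omega
      conv_lhs => rw [e]
      rw [Finset.sum_range_add, hy, Finset.mul_sum]
      congr 1
      refine Finset.sum_congr rfl fun k _ => ?_
      rw [pow_add]
      ring
    rw [hrel] at h1
    rcases Nat.eq_zero_or_pos j with h0 | h0
    · subst h0
      rw [Finset.sum_range_zero, pow_zero, one_mul, zero_add] at h1
      rw [← h1, hz, Finset.sum_range_zero, mul_zero, add_zero]
    · have h2 : x ^ (j - 1) * z = ∑ i ∈ Finset.range j, φ (b i) * x ^ i := by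
        rw [hz, Finset.mul_sum]
        refine Finset.sum_congr rfl fun i hi => ?_
        have h3 : j - 1 = i + (j - 1 - i) := by
          have := Finset.mem_range.1 hi
          omega
        have h4 : x ^ (j - 1) = x ^ i * x ^ (j - 1 - i) := by
          rw [← pow_add, ← h3]
        rw [h4, inv_pow]
        field_simp
      rw [← h2] at h1
      have h5 : x ^ j = x ^ (j - 1) * x := by
        rw [← pow_succ, Nat.sub_add_cancel h0]
      rw [h5] at h1
      have h6 : x ^ (j - 1) * (x * y + z) = 0 := by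
        rw [h1]
        ring
      exact (mul_eq_zero.1 h6).resolve_left (pow_ne_zero _ hx0)
  -- `y` and `z` are in all the valuation rings
  have key : ∀ W : ValuationSubring Ω, (∀ i, φ (b i) ∈ W) → y ∈ W ∧ z ∈ W := by
    intro W hW
    rcases W.mem_or_inv_mem x with h1 | h1
    · have h2 : y ∈ W := by
        rw [hy]
        exact W.toSubring.sum_mem fun k _ => W.mul_mem _ _ (hW _) (W.toSubring.pow_mem h1 k)
      refine ⟨h2, ?_⟩
      have h3 : z = -(x * y) := by linear_combination hxyz
      rw [h3]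
      exact W.neg_mem _ (W.mul_mem _ _ h1 h2)
    · have h2 : z ∈ W := by
        rw [hz]
        exact W.toSubring.sum_mem fun k _ => W.mul_mem _ _ (hW _) (W.toSubring.pow_mem h1 _)
      refine ⟨?_, h2⟩
      have h3 : y = -(z * x⁻¹) := by
        have h4 : z = -(x * y) := by linear_combination hxyz
        rw [h4]
        field_simp
      rw [h3]
      exact W.neg_mem _ (W.mul_mem _ _ h2 h1)
  have hyint : ((algebraMap F Ω).comp
      (O.comap (algebraMap F Ω)).subtype).IsIntegralElem y := by
    refine v1_integral _ fun W hW => (key W fun i => ?_).1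
    rw [hφ]
    exact hW _ (hbR i)
  have hyO : O.valuation y = 1 := by
    have h1 : y = 1 + ∑ k ∈ Finset.range (p.natDegree - j), φ (b (j + (k + 1))) * x ^ (k + 1) := by
      have e : p.natDegree + 1 - j = (p.natDegree - j) + 1 := by omega
      rw [hy, e, Finset.sum_range_succ', add_comm]
      simp [hbj]
    rw [h1]
    refine Valuation.map_one_add_of_lt (O.valuation) ?_
    refine Valuation.map_sum_lt (O.valuation) one_ne_zero fun k _ => ?_
    rw [map_mul, map_pow]
    have h2 : O.valuation x ^ (k + 1) ≤ 1 := pow_le_one' ((O.valuation_le_one_iff x).2 hx) _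
    calc O.valuation (φ (b (j + (k + 1)))) * O.valuation x ^ (k + 1)
        ≤ O.valuation (φ (b (j + (k + 1)))) * 1 := mul_le_mul_right h2 _
      _ = O.valuation (φ (b (j + (k + 1)))) := mul_one _
      _ < 1 := hblt _ (by omega)
  have hzint : ((algebraMap F Ω).comp
      (O.comap (algebraMap F Ω)).subtype).IsIntegralElem z := by
    refine v1_integral _ fun W hW => (key W fun i => ?_).2
    rw [hφ]
    exact hW _ (hbR i)
  exact ⟨y, z, hyint, hzint, hxyz, hyO⟩


/-- Powers of the characteristic exponent are injective on the residue field. -/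
theorem w2_pow_inj {F : Type u} {Ω : Type v} [Field F] [Field Ω] [Algebra F Ω]
    (O : ValuationSubring Ω) (q : ℕ) [hq : ExpChar F q] (n : ℕ) {a b : IsLocalRing.ResidueField O}
    (h : a ^ q ^ n = b ^ q ^ n) : a = b := by
  rcases hq with _ | hq
  · simpa using h
  · rename_i hc
    have h1 : (q : Ω) = 0 := by
      rw [← map_natCast (algebraMap F Ω), CharP.cast_eq_zero, map_zero]
    have h2 : (q : O) = 0 := Subtype.ext h1
    have h3 : (q : IsLocalRing.ResidueField O) = 0 := by
      rw [← map_natCast (IsLocalRing.residue O), h2, map_zero]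
    have h4 : CharP (IsLocalRing.ResidueField O) q := (CharP.charP_iff_prime_eq_zero hq).2 h3
    have h5 : ExpChar (IsLocalRing.ResidueField O) q := ExpChar.prime hq
    exact iterateFrobenius_inj (IsLocalRing.ResidueField O) q n h

/-- TASK W2. The decomposition group of `O` maps onto the group of the automorphisms of the residue
field of `O` which fix the residues of the elements of `F`.

PROOF. Let `R = O ∩ F`, `B ⊆ Ω` the subring of the elements integral over `R`, `G = Ω ≃ₐ[F] Ω`, which
acts on `B`, and `A ⊆ B` the subring of the fixed elements, `Algebra.IsInvariant A B G`; give `B` the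
discrete topology (compare the proof of V2 `exists_smul_eq`, whose construction can be copied). Let
`Q = {b ∈ B | O.valuation b < 1}`, a prime ideal of `B` (`B ≤ O`), `P = Q ∩ A`.
(1) `B / Q → ResidueField O` is bijective. `B / Q` is integral over `R / (Q ∩ R)`, which is a field
(`Q ∩ R` is the maximal ideal of the local ring `R`), so `B / Q` is a field. Let `x ∈ O` be a unit of
`O`; `x` is algebraic over `F`: `∑ a_i x^i = 0`, and as in V1 there are `y, z ∈ B` with `x y + z = 0` and
`O.valuation y = 1`. So the residue of `x` is the quotient of the residues of `-z` and `y`, hence in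
the image of the field `B / Q`.
(2) Let `s` be given; it induces an automorphism `σ` of `B / Q`. It fixes `A / P`: for `b ∈ A` there is
`n` with `b ^ q ^ n ∈ F` (`pow_mem_of_fixed`, V0; `q = ringExpChar F`), so in `F ∩ O`, and
`s (residue b) ^ q ^ n = s (residue (b ^ q ^ n)) = residue (b) ^ q ^ n`, so
`s (residue b) = residue b` (the residue field has characteristic exponent `q`; or: a Frobenius power
is injective on a field of characteristic `q`; if `q = 1` then `b ∈ F`). Caution: if `F` has
characteristic zero then `q = 1` and there is nothing to show; if `F` has characteristic `q`, so has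
the residue field.
(3) By `Ideal.Quotient.stabilizerHom_surjective_of_profinite` there is `g` in the stabilizer of `Q`
which induces `σ` on `B / Q`. Then `g • O = O` by `eq_of_center` (V1) as in the proof of V2, and by (1)
`g` acts on the residue field as `s`. -/
theorem exists_lift_residue {F : Type u} {Ω : Type v} [Field F] [Field Ω] [Algebra F Ω]
    [IsAlgClosed Ω] [Algebra.IsAlgebraic F Ω] (O : ValuationSubring Ω)
    (s : IsLocalRing.ResidueField O ≃+* IsLocalRing.ResidueField O)
    (hs : ∀ x : O, (x : Ω) ∈ (algebraMap F Ω).range →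
      s (IsLocalRing.residue O x) = IsLocalRing.residue O x) :
    ∃ g : O.decompositionSubgroup F, ∀ x : O,
      IsLocalRing.residue O (g • x) = s (IsLocalRing.residue O x) := by
  classical
  obtain ⟨R, hR⟩ : ∃ R : ValuationSubring F, R = O.comap (algebraMap F Ω) := ⟨_, rfl⟩
  have hRO : ∀ a ∈ R, algebraMap F Ω a ∈ O := by
    intro a ha
    rw [hR] at ha
    exact ha
  let f : R →+* Ω := (algebraMap F Ω).comp R.subtype
  let B : Subring Ω :=
    { carrier := {b | f.IsIntegralElem b}
      mul_mem' := fun ha hb => RingHom.IsIntegralElem.mul f ha hb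
      one_mem' := f.isIntegralElem_one
      add_mem' := fun ha hb => RingHom.IsIntegralElem.add f ha hb
      zero_mem' := f.isIntegralElem_zero
      neg_mem' := fun ha => RingHom.IsIntegralElem.neg f ha }
  have hBO : B ≤ O.toSubring := fun b hb => v2_mem R O hRO hb
  have hinv : IsInvariantSubring (Ω ≃ₐ[F] Ω) B := by
    refine ⟨fun g b hb => ?_⟩
    have h1 : f = (g : Ω →+* Ω).comp f := by
      ext r
      exact (g.commutes _).symm
    show f.IsIntegralElem (g b)
    rw [h1]
    exact RingHom.IsIntegralElem.map hb (g : Ω →+* Ω)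
  let A : Subring B :=
    { carrier := {b | ∀ g : Ω ≃ₐ[F] Ω, g • b = b}
      mul_mem' := fun {a b} ha hb g => by rw [smul_mul', ha g, hb g]
      one_mem' := fun g => smul_one g
      add_mem' := fun {a b} ha hb g => by rw [smul_add, ha g, hb g]
      zero_mem' := fun g => smul_zero g
      neg_mem' := fun {a} ha g => by rw [smul_neg, ha g] }
  have hcomm : SMulCommClass (Ω ≃ₐ[F] Ω) A B := by
    refine ⟨fun g a b => ?_⟩
    show g • ((a : B) * b) = (a : B) * g • b
    rw [smul_mul', a.2 g]
  have hinvt : Algebra.IsInvariant A B (Ω ≃ₐ[F] Ω) := by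
    refine ⟨fun b hb => ?_⟩
    exact ⟨⟨b, hb⟩, rfl⟩
  let _ : TopologicalSpace B := ⊥
  have : DiscreteTopology B := ⟨rfl⟩
  have : ContinuousSMul (Ω ≃ₐ[F] Ω) B := by
    rw [continuousSMul_iff_stabilizer_isOpen]
    intro b
    have h1 : (MulAction.stabilizer (Ω ≃ₐ[F] Ω) b : Set (Ω ≃ₐ[F] Ω)) =
        MulAction.stabilizer (Ω ≃ₐ[F] Ω) (b : Ω) := by
      ext g
      simp only [SetLike.mem_coe, MulAction.mem_stabilizer_iff]
      rw [Subtype.ext_iff]
      rfl
    rw [h1]
    exact stabilizer_isOpen_of_isIntegral (b : Ω)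
  -- the map to the residue field
  let j : B →+* O := Subring.inclusion hBO
  let r : B →+* IsLocalRing.ResidueField O := (IsLocalRing.residue O).comp j
  have hrsurj : Function.Surjective r := by
    let φ : R →+* O := ((algebraMap F Ω).comp R.subtype).codRestrict O.toSubring
      fun r => hRO _ r.2
    have hloc : IsLocalHom φ := by
      refine ⟨fun a ha => ?_⟩
      have h1 : O.valuation (algebraMap F Ω a) = 1 := (O.valuation_eq_one_iff (φ a)).1 ha
      have h2 : algebraMap F Ω (a : F) ≠ 0 := by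
        intro h0
        rw [h0, map_zero] at h1
        exact zero_ne_one h1
      have h3 : (a : F) ≠ 0 := fun h0 => h2 (by rw [h0, map_zero])
      have h4 : (a : F)⁻¹ ∈ R := by
        have h5 : (a : F)⁻¹ ∈ O.comap (algebraMap F Ω) := by
          rw [ValuationSubring.mem_comap, map_inv₀, ← O.valuation_le_one_iff, map_inv₀, h1,
            inv_one]
        rw [← hR] at h5
        exact h5
      exact IsUnit.of_mul_eq_one ⟨(a : F)⁻¹, h4⟩ (Subtype.ext (mul_inv_cancel₀ h3))
    let _ : Algebra (IsLocalRing.ResidueField R) (IsLocalRing.ResidueField O) :=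
      (IsLocalRing.ResidueField.map φ).toAlgebra
    let S : Subalgebra (IsLocalRing.ResidueField R) (IsLocalRing.ResidueField O) :=
      { r.range with
        algebraMap_mem' := by
          intro a
          obtain ⟨a', rfl⟩ := IsLocalRing.residue_surjective a
          refine ⟨⟨f a', ?_⟩, ?_⟩
          · exact f.isIntegralElem_map
          · rfl }
    have hSint : ∀ b : B, IsIntegral (IsLocalRing.ResidueField R) (r b) := by
      intro b
      obtain ⟨p, hp, hpb⟩ := b.2
      refine ⟨p.map (IsLocalRing.residue R), hp.map _, ?_⟩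
      have h1 : Polynomial.eval₂ φ (j b) p = 0 := by
        apply Subtype.ext
        have h2 := Polynomial.hom_eval₂ p φ O.subtype (j b)
        exact h2.trans hpb
      rw [Polynomial.eval₂_map]
      have h3 := Polynomial.hom_eval₂ p φ (IsLocalRing.residue O) (j b)
      rw [h1, map_zero] at h3
      exact h3.symm
    intro w
    obtain ⟨x, rfl⟩ := IsLocalRing.residue_surjective w
    by_cases hx0 : (x : Ω) = 0
    · have : x = 0 := Subtype.ext hx0
      exact ⟨0, by rw [this, map_zero, map_zero]⟩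
    obtain ⟨y, z, hy, hz, hxyz, hy1⟩ := w2_repr (F := F) O x.2 hx0
    rw [← hR] at hy hz
    let y' : B := ⟨y, hy⟩
    let z' : B := ⟨z, hz⟩
    have h1 : IsLocalRing.residue O x * r y' + r z' = 0 := by
      show IsLocalRing.residue O x * IsLocalRing.residue O (j y') +
        IsLocalRing.residue O (j z') = 0
      rw [← map_mul, ← map_add]
      have h2 : x * j y' + j z' = 0 := Subtype.ext hxyz
      rw [h2, map_zero]
    have h2 : r y' ≠ 0 := by
      show IsLocalRing.residue O (j y') ≠ 0
      rw [Ne, IsLocalRing.residue_eq_zero_iff, ValuationSubring.valuation_lt_one_iff]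
      show ¬ O.valuation y < 1
      rw [hy1]
      exact lt_irrefl _
    have h3 : (r y')⁻¹ ∈ S := (hSint y').inv_mem (A := S) ⟨y', rfl⟩
    obtain ⟨b, hb⟩ := h3
    refine ⟨-(z' * b), ?_⟩
    rw [map_neg, map_mul, hb]
    field_simp
    linear_combination -h1
  let Q : Ideal B := RingHom.ker r
  have hQp : Q.IsPrime := RingHom.ker_isPrime r
  have hQ : ∀ b : B, b ∈ Q ↔ O.valuation (b : Ω) < 1 := by
    intro b
    rw [RingHom.mem_ker]
    show IsLocalRing.residue O (j b) = 0 ↔ _
    rw [IsLocalRing.residue_eq_zero_iff, ValuationSubring.valuation_lt_one_iff]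
    rfl
  let P : Ideal A := Q.under A
  have hPQ : Q.LiesOver P := ⟨rfl⟩
  let ρ : B ⧸ Q ≃+* IsLocalRing.ResidueField O := RingHom.quotientKerEquivOfSurjective hrsurj
  have hρ : ∀ b : B, ρ (Ideal.Quotient.mk Q b) = r b := fun b => rfl
  have hsfix : ∀ a : A, s (r (a : B)) = r (a : B) := by
    intro a
    obtain ⟨m, c, hc⟩ := pow_mem_of_fixed (F := F) (Ω := Ω) (x := ((a : B) : Ω)) fun g => by
      have := a.2 g
      exact congrArg Subtype.val this
    have : ExpChar F (ringExpChar F) := ringExpChar.expChar F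
    apply w2_pow_inj (F := F) O (ringExpChar F) m
    rw [← map_pow, ← map_pow]
    apply hs
    refine ⟨c, ?_⟩
    rw [hc]
    rfl
  have hcomm' : ∀ a : A ⧸ P, ((ρ.trans s).trans ρ.symm) (algebraMap (A ⧸ P) (B ⧸ Q) a) =
      algebraMap (A ⧸ P) (B ⧸ Q) a := by
    intro a
    obtain ⟨a', rfl⟩ := Ideal.Quotient.mk_surjective a
    have h1 : algebraMap (A ⧸ P) (B ⧸ Q) (Ideal.Quotient.mk P a') = Ideal.Quotient.mk Q (a' : B) :=
      rfl
    rw [h1]
    show ρ.symm (s (ρ (Ideal.Quotient.mk Q (a' : B)))) = _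
    rw [RingEquiv.symm_apply_eq, hρ, hsfix]
  let σ : (B ⧸ Q) ≃ₐ[A ⧸ P] (B ⧸ Q) :=
    AlgEquiv.ofRingEquiv (f := (ρ.trans s).trans ρ.symm) hcomm'
  obtain ⟨g, hg⟩ := Ideal.Quotient.stabilizerHom_surjective_of_profinite
    (A := A) (B := B) (G := Ω ≃ₐ[F] Ω) P Q σ
  have hgb : ∀ b : B, r ((g : Ω ≃ₐ[F] Ω) • b) = s (r b) := by
    intro b
    have h1 := DFunLike.congr_fun hg (Ideal.Quotient.mk Q b)
    have h2 : Ideal.Quotient.mk Q ((g : Ω ≃ₐ[F] Ω) • b) = ρ.symm (s (ρ (Ideal.Quotient.mk Q b))) := h1
    rw [← hρ, h2, RingEquiv.apply_symm_apply, hρ]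
  have hgO : (g : Ω ≃ₐ[F] Ω) • O = O := by
    have htr : ((g : Ω ≃ₐ[F] Ω) • O).comap (algebraMap F Ω) = R := by
      rw [hR]
      ext c
      rw [ValuationSubring.mem_comap, ValuationSubring.mem_comap,
        ValuationSubring.mem_pointwise_smul_iff_inv_smul_mem]
      have h1 : (g : Ω ≃ₐ[F] Ω)⁻¹ • algebraMap F Ω c = algebraMap F Ω c :=
        ((g : Ω ≃ₐ[F] Ω)⁻¹).commutes c
      rw [h1]
    refine eq_of_center (F := F) ((g : Ω ≃ₐ[F] Ω) • O) O (htr.trans hR) fun b hb => ?_
    rw [htr] at hb
    have hbB : b ∈ B := hb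
    have h1 : ((g : Ω ≃ₐ[F] Ω) • O).valuation b < 1 ↔
        O.valuation ((g : Ω ≃ₐ[F] Ω)⁻¹ • b) < 1 := by
      rw [v2_lt_one, v2_lt_one, ValuationSubring.mem_pointwise_smul_iff_inv_smul_mem, smul_inv'']
      rw [smul_eq_zero_iff_eq]
    have h2 : (g : Ω ≃ₐ[F] Ω)⁻¹ • (⟨b, hbB⟩ : B) ∈ Q ↔ (⟨b, hbB⟩ : B) ∈ Q := by
      have h3 : (g : Ω ≃ₐ[F] Ω) • Q = Q := g.2
      conv_rhs => rw [← h3]
      rw [Ideal.mem_pointwise_smul_iff_inv_smul_mem]
    rw [hQ, hQ] at h2
    rw [h1]
    exact h2
  refine ⟨⟨g, hgO⟩, fun x => ?_⟩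
  obtain ⟨b, hb⟩ := hrsurj (IsLocalRing.residue O x)
  rw [← hb, ← hgb, IsLocalRing.ResidueField.residue_smul, ← hb]
  show _ • IsLocalRing.residue O (j b) = _
  rw [← IsLocalRing.ResidueField.residue_smul]
  rfl

/-- TASK W2 (second statement). The residue classes and the inertia group.

PROOF. `mem_inertia_iff` (V5): the residues of `g • x` and `x` are equal iff their difference has
valuation less than `1`. -/
theorem mem_inertia_iff_residue {F : Type u} {Ω : Type v} [Field F] [Field Ω] [Algebra F Ω]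
    (O : ValuationSubring Ω) (g : O.decompositionSubgroup F) :
    g ∈ O.inertiaSubgroup F ↔ ∀ x : O,
      IsLocalRing.residue O (g • x) = IsLocalRing.residue O x := by
  rw [mem_inertia_iff]
  constructor
  · intro h x
    rw [← sub_eq_zero, ← map_sub, IsLocalRing.residue_eq_zero_iff, ValuationSubring.valuation_lt_one_iff]
    exact h x x.2
  · intro h x hx
    have h1 := h ⟨x, hx⟩
    rw [← sub_eq_zero, ← map_sub, IsLocalRing.residue_eq_zero_iff, ValuationSubring.valuation_lt_one_iff] at h1
    exact h1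

end GC
end
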