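import Pool.Agent.Lib.MP_859dd5_ag.Mg.G060
import Pool.Agent.Lib.MP_859dd5_ag.Mg.G033
import Pool.Agent.Lib.MP_859dd5_ag.Mg.G027
import Pool.Agent.Lib.MP_859dd5_ag.Mg.G059
import Pool.Agent.Lib.MP_859dd5_ag.Mg.G036
import Pool.Agent.Lib.MP_859dd5_ag.Mg.G040

section

/-!
# Inertia groups act trivially on the Tate twists
-/

namespace GC

universe u v w

lemma l_ne_zero {K : Type u} [Field K] {p l : ℕ} [Fact p.Prime] [Fact l.Prime] [CharP K p]
    (hpl : p ≠ l) : (l : K) ≠ 0 := by
  intro h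
  rw [CharP.cast_eq_zero_iff K p] at h
  exact hpl ((Nat.prime_dvd_prime_iff_eq Fact.out Fact.out).mp h)

/-- TASK U0 (first statement). Roots of unity of order prime to the characteristic are determined by
their residues.

PROOF. Let `ζ = x / y ≠ 1`, a root of unity of order dividing `N`; `ζ ∈ O` and
`O.valuation (ζ - 1) < 1`, since `y` is a unit of `O` (`O.valuation y ^ N = 1`). The polynomial
`1 + X + ⋯ + X^(N-1)` vanishes at `ζ`; its value at `1` is `N`, so `O.valuation (N) < 1`. But `N` is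
invertible modulo `p`: there is an integer `M` with `N * M = 1` in `Ω`, so `O.valuation N = 1`. -/
theorem root_eq_of_val {Ω : Type v} [Field Ω] {p : ℕ} [Fact p.Prime] [CharP Ω p]
    (O : ValuationSubring Ω) {N : ℕ} (hN : p.Coprime N) {x y : Ω} (hx : x ^ N = 1)
    (hy : y ^ N = 1) (h : O.valuation (x - y) < 1) : x = y := by
  have hN0 : N ≠ 0 := by
    rintro rfl
    rw [Nat.coprime_zero_right] at hN
    exact (Fact.out : p.Prime).one_lt.ne' hN
  have hval : ∀ z : Ω, z ^ N = 1 → O.valuation z = 1 := by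
    intro z hz
    have h1 : O.valuation z ^ N = 1 := by rw [← map_pow, hz, map_one]
    exact (pow_eq_one_iff.1 h1).resolve_right hN0
  have hy0 : y ≠ 0 := by
    rintro rfl
    rw [zero_pow hN0] at hy
    exact zero_ne_one hy
  by_contra hne
  set ζ : Ω := x / y with hζ
  have hζ1 : ζ ^ N = 1 := by rw [hζ, div_pow, hx, hy, div_one]
  have hζne : ζ - 1 ≠ 0 := by
    intro h1
    apply hne
    rw [sub_eq_zero, hζ, div_eq_one_iff_eq hy0] at h1
    exact h1
  have hζv : O.valuation (ζ - 1) < 1 := by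
    have e : ζ - 1 = (x - y) / y := by rw [hζ]; field_simp
    rw [e, map_div₀, hval y hy, div_one]
    exact h
  have hs : ∑ i ∈ Finset.range N, ζ ^ i = 0 := by
    have h1 := geom_sum_mul ζ N
    rw [hζ1, sub_self] at h1
    exact (mul_eq_zero.1 h1).resolve_right hζne
  have hterm : ∀ i ∈ Finset.range N, O.valuation (1 - ζ ^ i) < 1 := by
    intro i _
    have h1 := geom_sum_mul ζ i
    have h2 : (1 : Ω) - ζ ^ i = -((∑ j ∈ Finset.range i, ζ ^ j) * (ζ - 1)) := by
      rw [h1]; ring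
    rw [h2, Valuation.map_neg, map_mul]
    have h3 : O.valuation (∑ j ∈ Finset.range i, ζ ^ j) ≤ 1 := by
      apply Valuation.map_sum_le
      intro j _
      rw [map_pow, hval ζ hζ1, one_pow]
    calc O.valuation (∑ j ∈ Finset.range i, ζ ^ j) * O.valuation (ζ - 1)
        ≤ 1 * O.valuation (ζ - 1) := mul_le_mul_left h3 _
      _ < 1 := by rw [one_mul]; exact hζv
  have hNv : O.valuation (N : Ω) < 1 := by
    have e : (N : Ω) = ∑ i ∈ Finset.range N, (1 - ζ ^ i) := by
      rw [Finset.sum_sub_distrib, hs]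
      simp
    rw [e]
    exact Valuation.map_sum_lt _ one_ne_zero hterm
  obtain ⟨M, -, hM⟩ := Nat.exists_mul_mod_eq_one_of_coprime hN.symm (Fact.out : p.Prime).one_lt
  have h1 : (N : Ω) * (M : Ω) = 1 := by
    have h2 := Nat.div_add_mod (N * M) p
    rw [hM] at h2
    have h3 := congrArg (Nat.cast (R := Ω)) h2
    push_cast at h3
    rw [CharP.cast_eq_zero Ω p, zero_mul, zero_add] at h3
    exact h3.symm
  have hMv : O.valuation (M : Ω) ≤ 1 := by
    rw [O.valuation_le_one_iff]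
    exact natCast_mem O M
  have h2 : O.valuation (N : Ω) * O.valuation (M : Ω) = 1 := by
    rw [← map_mul, h1, map_one]
  have h3 : O.valuation (N : Ω) * O.valuation (M : Ω) < 1 :=
    lt_of_le_of_lt (mul_le_mul_right hMv _) (by rw [mul_one]; exact hNv)
  exact h3.ne h2

variable {K : Type u} [Field K] {l : ℕ} [Fact l.Prime] {w : ℕ}

/-- TASK U0 (second statement). The inertia group fixes the roots of unity of order `l ^ n`, so its
cyclotomic character is trivial.

PROOF. For `ε = eps (AlgebraicClosure K) l n` (`isEps_eps`), `ε ∈ O` as `ε ^ l ^ n = 1`, and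
`O.valuation (g ε - ε) < 1` (`mem_inertia_iff`, V5), so `g ε = ε` by `root_eq_of_val`. By
`twist_unique` (with `a = 1`, `zlPow l n x 1 = x`) and `twist_aut` (B1) the cyclotomic character of
`g` is `1`. -/
theorem cyc_of_mem_inertia {p : ℕ} [Fact p.Prime] [CharP K p] (hpl : p ≠ l)
    (O : ValuationSubring (AlgebraicClosure K)) {g : O.decompositionSubgroup K}
    (hg : g ∈ O.inertiaSubgroup K) :
    cyclotomicCharacter (AlgebraicClosure K) l
      ((g : AbsGal K) : AlgebraicClosure K ≃+* _) = 1 := by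
  have hl : (l : AlgebraicClosure K) ≠ 0 := l_ne_zero (K := AlgebraicClosure K) hpl
  rw [← twist_aut hl]
  refine (twist_unique hl _ ?_).symm
  intro n
  have hε := (isEps_eps hl).1 n
  have hcop : p.Coprime (l ^ n) :=
    Nat.Coprime.pow_right n ((Nat.coprime_primes Fact.out Fact.out).2 hpl)
  have hε1 : eps (AlgebraicClosure K) l n ^ l ^ n = 1 := hε.pow_eq_one
  have h0 : zlPow l n (eps (AlgebraicClosure K) l n) ((1 : ℤ_[l]ˣ) : ℤ_[l]) =
      eps (AlgebraicClosure K) l n := by
    have h1 := zlPow_natCast hε1 1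
    rw [Nat.cast_one, pow_one] at h1
    rw [Units.val_one]
    exact h1
  rw [h0]
  have hmem : eps (AlgebraicClosure K) l n ∈ O := by
    rw [← O.valuation_le_one_iff]
    have h1 : O.valuation (eps (AlgebraicClosure K) l n) ^ (l ^ n) = 1 := by
      rw [← map_pow, hε1, map_one]
    exact ((pow_eq_one_iff.1 h1).resolve_right (pow_ne_zero n (Fact.out : l.Prime).ne_zero)).le
  have h2 := (mem_inertia_iff O g).1 hg _ hmem
  refine root_eq_of_val (p := p) O hcop ?_ hε1 h2
  rw [← map_pow, hε1, map_one]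

theorem smul_of_mem_inertia {p : ℕ} [Fact p.Prime] [CharP K p] (hpl : p ≠ l)
    (O : ValuationSubring (AlgebraicClosure K)) {g : O.decompositionSubgroup K}
    (hg : g ∈ O.inertiaSubgroup K) (m : Tw l w) : g • m = m := by
  have h1 : g • m = (g : AbsGal K) • m := rfl
  rw [h1, Tw.smul_def, cyc_of_mem_inertia hpl O hg, one_pow, Units.val_one, one_smul]

end GC
end

section

/-!
# Inflation and restriction in degree two
-/

namespace GC

universe u v w

variable {Γ : Type u} [Group Γ] [TopologicalSpace Γ] [IsTopologicalGroup Γ] [CompactSpace Γ]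
  [TotallyDisconnectedSpace Γ] {W : Type v} [AddCommGroup W] [DistribMulAction Γ W]

omit [IsTopologicalGroup Γ] [CompactSpace Γ] [TotallyDisconnectedSpace Γ] in
private theorem c2_fix {N : Subgroup Γ} [N.Normal] {A : Type*} [AddCommGroup A]
    [DistribMulAction Γ A] {n : ℕ} {c : (Fin (n + 1) → Γ) → A}
    (hc : c ∈ Coch A (⊤ : Subgroup Γ) N n) (z : Fin (n + 1) → Γ) : ∀ m ∈ N, m • c z = c z := by
  intro m hm
  rw [← hc.1 m (Subgroup.mem_top m) z]
  have h1 : (fun i => m * z i) = fun i => z i * ((z i)⁻¹ * m * z i) := by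
    funext i
    group
  rw [h1]
  refine hc.2.1 z (fun i => (z i)⁻¹ * m * z i) fun i => ?_
  have := Subgroup.Normal.conj_mem (H := N) inferInstance m hm (z i)⁻¹
  simpa using this

/-- Restriction of cochains to a subgroup. -/
private theorem c2_res {V : Subgroup Γ} {A : Type*} [AddCommGroup A] [DistribMulAction Γ A] {n : ℕ}
    {c : (Fin (n + 1) → Γ) → A} (hc : c ∈ Coch A (⊤ : Subgroup Γ) ⊥ n) :
    (fun y : Fin (n + 1) → V => c fun i => (y i : Γ)) ∈ Coch A (⊤ : Subgroup V) ⊥ n := by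
  obtain ⟨h1, h2, U, hU, h3⟩ := hc
  refine ⟨fun g _ x => h1 g (Subgroup.mem_top _) _, fun x u hu => ?_,
    U.comap V.subtype, hU.preimage continuous_subtype_val, fun x u hu => h3 _ _ hu⟩
  have : u = 1 := by
    funext i
    exact Subgroup.mem_bot.1 (hu i)
  subst this
  simp

/-- TASK C2. If `H^1(V, W) = 0` and the restriction to `V` of a class of degree two vanishes, then the
class is inflated from `Γ / V`.

PROOF. `constI ∘ x = d b` with `b ∈ Coch (IndM Γ W) ⊤ ⊥ 1` (`ind_acyclic`), and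
`q := toQ ∘ b` is a cocycle in `Coch (QM Γ W) ⊤ ⊥ 1`. Let `x|_V = d a`,
`a ∈ Coch W (⊤ : Subgroup V) ⊥ 1`. Then `b|_V - constI ∘ a` is a cocycle in
`Coch (IndM Γ W) (⊤ : Subgroup V) ⊥ 1`, so it is `d β`, `β ∈ Coch (IndM Γ W) (⊤ : Subgroup V) ⊥ 0`
(`ind_acyclic_sub`). Let `q₀ = toQ (β 1)`; then `q (v_0, v_1) = v_1 • q₀ - v_0 • q₀` for
`v_0, v_1 ∈ V`. Put `q' (g_0, g_1) = q (g_0, g_1) - (g_1 • q₀ - g_0 • q₀)`, a cocycle in
`Coch (QM Γ W) ⊤ ⊥ 1` which differs from `q` by `d z`, `z g = g • q₀` (in `Coch (QM Γ W) ⊤ ⊥ 0`,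
smooth as `QM` is discrete). `q'` vanishes on `V × V`, so `q' (g, g v) = g • q' (1, v) = 0`, and by the
cocycle identity `q' (g_0 v_0, g_1 v_1) = q' (g_0 v_0, g_0) + q' (g_0, g_1) + q' (g_1, g_1 v_1)
= q' (g_0, g_1)` (note `q' (h, h v⁻¹) = 0` too). So `q' ∈ Coch (QM Γ W) ⊤ V 1`. Its values are fixed
by `V` (normal), so by `exists_fixed_lift` (A9) and `lift_rel` (A4) it lifts to
`b' ∈ Coch (IndM Γ W) ⊤ V 1`; lift `z` to `ζ ∈ Coch (IndM Γ W) ⊤ ⊥ 0` (`SES.lift`).
`toQ ∘ (b - b' - d ζ) = 0`, so `b - b' - d ζ = constI ∘ m`, `m ∈ Coch W ⊤ ⊥ 1` (`SES.pull`), and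
`constI ∘ (x - d m) = d b'`, so `y := x - d m ∈ Coch W ⊤ V 2`, `d y = 0`. -/
theorem ir_two {V : Subgroup Γ} [V.Normal] (hV : IsClosed (V : Set Γ)) (hW : Disc Γ W)
    (h1 : VanAt V W 0) {x : (Fin 3 → Γ) → W} (hx : x ∈ Cocyc Γ W 2)
    (hxV : (fun y : Fin 3 → V => x fun i => (y i : Γ)) ∈ Cobd V W 2) :
    ∃ y ∈ Coch W (⊤ : Subgroup Γ) V 2, d y = 0 ∧ x - y ∈ Cobd Γ W 2 := by
  obtain ⟨hx1, hx2⟩ := hx
  have hdx : d x = 0 := hx2
  have hc1 : (fun y => constI Γ W (x y)) ∈ Coch (IndM Γ W) (⊤ : Subgroup Γ) ⊥ 2 :=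
    coch_map (constI Γ W) (fun g a => constI_smul g a) hx1
  have hc2 : d (fun y => constI Γ W (x y)) = 0 := by
    rw [d_map, hdx]
    funext z
    exact map_zero _
  obtain ⟨b, hb, hdb⟩ := ind_acyclic hc1 hc2
  obtain ⟨a, ha, hda⟩ := hxV
  have hda' : ∀ z : Fin 3 → V, d a z = x fun i => (z i : Γ) := fun z => congrFun hda z
  have hbV := c2_res (V := V) hb
  have : CompactSpace V := isCompact_iff_compactSpace.1 hV.isCompact
  have haV : (fun z => constI Γ W (a z)) ∈ Coch (IndM Γ W) (⊤ : Subgroup V) ⊥ 1 :=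
    coch_map (G := V) (constI Γ W) (fun g a => constI_smul (g : Γ) a) ha
  have hdiff : (fun y : Fin 2 → V => b fun i => (y i : Γ)) - (fun z => constI Γ W (a z)) ∈
      Coch (IndM Γ W) (⊤ : Subgroup V) ⊥ 1 := sub_mem hbV haV
  have hddiff : d ((fun y : Fin 2 → V => b fun i => (y i : Γ)) -
      (fun z => constI Γ W (a z))) = 0 := by
    rw [d_sub, d_map, d_comp (fun v : V => (v : Γ)) b, hdb]
    funext z
    simp only [Pi.sub_apply, Pi.zero_apply]
    rw [hda' z, sub_self]
  obtain ⟨β, hβ, hdβ⟩ := ind_acyclic_sub hV 0 le_rfl _ hdiff hddiff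
  set q₀ : QM Γ W := toQ Γ W (β fun _ => 1) with hq₀
  -- the cochain `z`
  let zc : (Fin 1 → Γ) → QM Γ W := fun y => y 0 • q₀
  have hzc : zc ∈ Coch (QM Γ W) (⊤ : Subgroup Γ) ⊥ 0 := by
    obtain ⟨U, hU, hU'⟩ := disc_q hW q₀
    refine ⟨fun g _ y => mul_smul _ _ _, fun y u hu => ?_, U, hU, fun y u hu => ?_⟩
    · have : u = 1 := by
        funext i
        exact Subgroup.mem_bot.1 (hu i)
      subst this
      simp
    · change (y 0 * u 0) • q₀ = y 0 • q₀
      rw [mul_smul, hU' _ (hu 0)]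
  have hdz : ∀ y : Fin 2 → Γ, d zc y = y 1 • q₀ - y 0 • q₀ := by
    intro y
    simp [d, zc, Fin.sum_univ_succ, sub_eq_add_neg]
  have hq1 : (fun y => toQ Γ W (b y)) ∈ Coch (QM Γ W) (⊤ : Subgroup Γ) ⊥ 1 :=
    coch_map (toQ Γ W) (fun g a => toQ_smul g a) hb
  have hdq1 : d (fun y => toQ Γ W (b y)) = 0 := by
    rw [d_map, hdb]
    funext z
    exact QM.ext' fun a c => by simp
  set q' : (Fin 2 → Γ) → QM Γ W := (fun y => toQ Γ W (b y)) - d zc with hq'def
  have hq' : q' ∈ Coch (QM Γ W) (⊤ : Subgroup Γ) ⊥ 1 := sub_mem hq1 (d_mem hzc)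
  have hdq' : d q' = 0 := by
    rw [hq'def, d_sub, hdq1, d_d, sub_zero]
  -- `q'` vanishes on `V × V`
  have hvan : ∀ v w : V, q' ![(v : Γ), (w : Γ)] = 0 := by
    intro v w
    have e1 := congrFun hdβ ![v, w]
    have e2 : d β ![v, w] = β (fun _ => w) - β (fun _ => v) := by
      have f0 : (fun i : Fin 1 => (![v, w] : Fin 2 → V) ((0 : Fin 2).succAbove i)) =
          fun _ => w := by
        funext i
        fin_cases i
        rfl
      have f1 : (fun i : Fin 1 => (![v, w] : Fin 2 → V) ((1 : Fin 2).succAbove i)) =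
          fun _ => v := by
        funext i
        fin_cases i
        rfl
      unfold d
      rw [Fin.sum_univ_two]
      have f2 : ((-1 : ℤ) ^ ((0 : Fin (0 + 1 + 1)) : ℕ)) = 1 := rfl
      have f3 : ((-1 : ℤ) ^ ((1 : Fin (0 + 1 + 1)) : ℕ)) = -1 := rfl
      rw [f2, f3, one_smul, neg_smul, one_smul, ← sub_eq_add_neg]
      exact congrArg₂ (· - ·) (congrArg β f0) (congrArg β f1)
    have e3 : ∀ u : V, β (fun _ => u) = u • β (fun _ => 1) := by
      intro u
      rw [← hβ.1 u (Subgroup.mem_top _)]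
      simp
    rw [e2, e3 v, e3 w] at e1
    have e4 := congrArg (toQ Γ W) e1
    simp only [Pi.sub_apply, map_sub] at e4
    have e5 : toQ Γ W (constI Γ W (a ![v, w])) = 0 := QM.ext' fun a c => by simp
    rw [e5, sub_zero] at e4
    have e6 : (fun i => ((![v, w] i : V) : Γ)) = ![(v : Γ), (w : Γ)] := by
      funext i
      fin_cases i <;> rfl
    rw [e6] at e4
    have e7 : ∀ u : V, toQ Γ W (u • β (fun _ => 1)) = (u : Γ) • q₀ := fun u => toQ_smul (u : Γ) _
    rw [e7, e7] at e4
    rw [hq'def, Pi.sub_apply, hdz, ← e4]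
    simp
  have hcoc : ∀ x₀ x₁ x₂ : Γ, q' ![x₀, x₂] = q' ![x₀, x₁] + q' ![x₁, x₂] := by
    intro x₀ x₁ x₂
    have e1 := congrFun hdq' ![x₀, x₁, x₂]
    have e2 : d q' ![x₀, x₁, x₂] = q' ![x₁, x₂] - q' ![x₀, x₂] + q' ![x₀, x₁] := by
      have f0 : (fun i => (![x₀, x₁, x₂] : Fin 3 → Γ) ((0 : Fin 3).succAbove i)) = ![x₁, x₂] := by
        funext i
        fin_cases i <;> rfl
      have f1 : (fun i => (![x₀, x₁, x₂] : Fin 3 → Γ) ((1 : Fin 3).succAbove i)) = ![x₀, x₂] := by
        funext i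
        fin_cases i <;> rfl
      have f2 : (fun i => (![x₀, x₁, x₂] : Fin 3 → Γ) ((2 : Fin 3).succAbove i)) = ![x₀, x₁] := by
        funext i
        fin_cases i <;> rfl
      unfold d
      rw [Fin.sum_univ_three]
      have g0 : ((-1 : ℤ) ^ ((0 : Fin 3) : ℕ)) = 1 := rfl
      have g1 : ((-1 : ℤ) ^ ((1 : Fin 3) : ℕ)) = -1 := rfl
      have g2 : ((-1 : ℤ) ^ ((2 : Fin 3) : ℕ)) = 1 := rfl
      rw [g0, g1, g2, one_smul, neg_smul, one_smul, one_smul, ← sub_eq_add_neg]
      exact congrArg₂ (· + ·) (congrArg₂ (· - ·) (congrArg q' f0) (congrArg q' f1))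
        (congrArg q' f2)
    rw [e2, Pi.zero_apply] at e1
    have e3 : q' ![x₀, x₂] = q' ![x₁, x₂] + q' ![x₀, x₁] := by
      rw [sub_add_eq_add_sub, sub_eq_zero] at e1
      exact e1.symm
    rw [e3, add_comm]
  have heq : ∀ g a c : Γ, q' ![g * a, g * c] = g • q' ![a, c] := by
    intro g a c
    rw [← hq'.1 g (Subgroup.mem_top _)]
    congr 1
    funext i
    fin_cases i <;> rfl
  have hnear : ∀ g : Γ, ∀ v ∈ V, q' ![g, g * v] = 0 := by
    intro g v hv
    have e1 := heq g 1 v
    rw [mul_one] at e1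
    rw [e1]
    have e2 := hvan 1 ⟨v, hv⟩
    simp only [Subgroup.coe_one] at e2
    rw [e2, smul_zero]
  have hq'V : q' ∈ Coch (QM Γ W) (⊤ : Subgroup Γ) V 1 := by
    refine ⟨hq'.1, fun y u hu => ?_, hq'.2.2⟩
    have e1 : (fun i => y i * u i) = ![y 0 * u 0, y 1 * u 1] := by
      funext i
      fin_cases i <;> rfl
    have e2 : y = ![y 0, y 1] := by
      funext i
      fin_cases i <;> rfl
    rw [e1]
    conv_rhs => rw [e2]
    rw [hcoc (y 0 * u 0) (y 0) (y 1 * u 1), hcoc (y 0) (y 1) (y 1 * u 1), hnear (y 1) _ (hu 1)]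
    have e3 := hnear (y 0 * u 0) ((u 0)⁻¹) (inv_mem (hu 0))
    rw [mul_inv_cancel_right] at e3
    rw [e3, zero_add, add_zero]
  obtain ⟨b', hb', hb'q⟩ := lift_rel (disc_ind hW) (fun b c => toQ Γ W b = c)
    (fun g b c hbc => by rw [toQ_smul, hbc]) hq'V
    (fun y => exists_fixed_lift hV hW h1 (c2_fix hq'V y))
  obtain ⟨ζ, hζ, hζz⟩ := SES.lift (ses_ind Γ W) (disc_ind hW) hzc
  have hb'' : b' ∈ Coch (IndM Γ W) (⊤ : Subgroup Γ) ⊥ 1 := coch_mono le_rfl bot_le 1 hb'
  have hrest : b - b' - d ζ ∈ Coch (IndM Γ W) (⊤ : Subgroup Γ) ⊥ 1 :=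
    sub_mem (sub_mem hb hb'') (d_mem hζ)
  have hrest0 : ∀ y, toQ Γ W ((b - b' - d ζ) y) = 0 := by
    intro y
    have e1 : toQ Γ W (d ζ y) = d zc y := by
      have e2 := congrFun (d_map (toQ Γ W) ζ) y
      rw [← e2]
      have e3 : (fun x => toQ Γ W (ζ x)) = zc := funext hζz
      rw [e3]
    rw [Pi.sub_apply, Pi.sub_apply, map_sub, map_sub, hb'q y, e1, hq'def, Pi.sub_apply,
      sub_sub_cancel, sub_self]
  obtain ⟨m, hm, hmy⟩ := SES.pull (ses_ind Γ W) hrest hrest0
  have hconst : ∀ z, constI Γ W ((x - d m) z) = d b' z := by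
    intro z
    have e1 : constI Γ W (d m z) = d (b - b' - d ζ) z := by
      have e2 := congrFun (d_map (constI Γ W) m) z
      rw [← e2]
      have e3 : (fun x => constI Γ W (m x)) = b - b' - d ζ := funext hmy
      rw [e3]
    rw [Pi.sub_apply, map_sub, e1, d_sub, d_sub, d_d, sub_zero, Pi.sub_apply]
    have e4 := congrFun hdb z
    rw [e4, sub_sub_cancel]
  obtain ⟨y, hy, hyz⟩ := coch_of_values (constI Γ W) (fun g a => constI_smul g a)
    (ses_ind Γ W).inj (d_mem hb') (fun z => ⟨(x - d m) z, hconst z⟩)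
  have hyx : y = x - d m := by
    funext z
    exact (ses_ind Γ W).inj ((hyz z).trans (hconst z).symm)
  refine ⟨y, hy, ?_, ?_⟩
  · rw [hyx, d_sub, hdx, d_d, sub_zero]
  · rw [hyx, sub_sub_cancel]
    exact ⟨m, hm, rfl⟩

end GC
end

section

/-!
# The second cohomology group of a cyclic group of prime order
-/

namespace GC

universe u v w

variable {Γ : Type u} [Group Γ] [TopologicalSpace Γ] [IsTopologicalGroup Γ] [CompactSpace Γ]
  [TotallyDisconnectedSpace Γ] {W : Type v} [AddCommGroup W] [DistribMulAction Γ W]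

omit [Group Γ] [TopologicalSpace Γ] [IsTopologicalGroup Γ] [CompactSpace Γ]
  [TotallyDisconnectedSpace Γ] [DistribMulAction Γ W] in
private lemma c3_d2 (y : (Fin 3 → Γ) → W) (x : Fin 4 → Γ) :
    d y x = y ![x 1, x 2, x 3] - y ![x 0, x 2, x 3] + y ![x 0, x 1, x 3] - y ![x 0, x 1, x 2] := by
  have h0 : (fun i : Fin 3 => x ((0 : Fin 4).succAbove i)) = ![x 1, x 2, x 3] := by
    funext i; fin_cases i <;> rfl
  have h1 : (fun i : Fin 3 => x ((1 : Fin 4).succAbove i)) = ![x 0, x 2, x 3] := by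
    funext i; fin_cases i <;> rfl
  have h2 : (fun i : Fin 3 => x ((2 : Fin 4).succAbove i)) = ![x 0, x 1, x 3] := by
    funext i; fin_cases i <;> rfl
  have h3 : (fun i : Fin 3 => x ((3 : Fin 4).succAbove i)) = ![x 0, x 1, x 2] := by
    funext i; fin_cases i <;> rfl
  unfold d
  rw [Fin.sum_univ_four, h0, h1, h2, h3]
  have e0 : ((-1 : ℤ) ^ ((0 : Fin 4) : ℕ)) = 1 := by norm_num
  have e1 : ((-1 : ℤ) ^ ((1 : Fin 4) : ℕ)) = -1 := by norm_num
  have e2 : ((-1 : ℤ) ^ ((2 : Fin 4) : ℕ)) = 1 := by norm_num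
  have e3 : ((-1 : ℤ) ^ ((3 : Fin 4) : ℕ)) = -1 := by norm_num
  rw [e0, e1, e2, e3]
  simp only [one_smul, neg_smul]
  abel

omit [Group Γ] [TopologicalSpace Γ] [IsTopologicalGroup Γ] [CompactSpace Γ]
  [TotallyDisconnectedSpace Γ] [DistribMulAction Γ W] in
private lemma c3_d1 (z : (Fin 2 → Γ) → W) (x : Fin 3 → Γ) :
    d z x = z ![x 1, x 2] - z ![x 0, x 2] + z ![x 0, x 1] := by
  have h0 : (fun i : Fin 2 => x ((0 : Fin 3).succAbove i)) = ![x 1, x 2] := by
    funext i; fin_cases i <;> rfl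
  have h1 : (fun i : Fin 2 => x ((1 : Fin 3).succAbove i)) = ![x 0, x 2] := by
    funext i; fin_cases i <;> rfl
  have h2 : (fun i : Fin 2 => x ((2 : Fin 3).succAbove i)) = ![x 0, x 1] := by
    funext i; fin_cases i <;> rfl
  unfold d
  rw [Fin.sum_univ_three, h0, h1, h2]
  have e0 : ((-1 : ℤ) ^ ((0 : Fin 3) : ℕ)) = 1 := by norm_num
  have e1 : ((-1 : ℤ) ^ ((1 : Fin 3) : ℕ)) = -1 := by norm_num
  have e2 : ((-1 : ℤ) ^ ((2 : Fin 3) : ℕ)) = 1 := by norm_num
  rw [e0, e1, e2]
  simp only [one_smul, neg_smul]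
  abel

/-- TASK C3. If the norms from `V` to `Γ` are surjective, then `H^2(Γ / V, W^V) = 0`, for `V` open
normal of prime index `l`.

PROOF. Let `s ∈ Γ` be an element whose class generates `Γ ⧸ V` (a group of prime order `l`). The
values of `y` are fixed by `V` (`v • y x = y (v x) = y (x (x⁻¹ v x)) = y x`). For `i, j : ℕ` put
`f i j = y (1, s^i, s^(i+j))` (`![1, s^i, s^(i+j)]`); it depends only on `i, j` modulo `l`
(`s^l ∈ V`) . Cocycle identity, from `d y (1, s^i, s^(i+j), s^(i+j+k)) = 0` and equivariance: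
`s^i • f j k - f (i+j) k + f i (j+k) - f i j = 0`. (1)
With `i = j = 0`: `f 0 k = f 0 0` for all `k`.
Let `a = ∑ i ∈ range l, f i 1`. By (1) with `(1, i, 1)`: `s • f i 1 = f (i+1) 1 - f 1 (i+1) + f 1 i`;
summing over `i < l` and using the periodicity, `s • a = a`; `a` is fixed by `V`, so it is fixed by
`Γ` (generated by `s` and `V`). By `norm` there is `b`, fixed by `V`, with
`∑ᶠ q : Γ ⧸ V, q.out • b = a`, and this sum is `∑ k ∈ range l, s^k • b` (the cosets are `s^k V`).
Put `h i = f 0 1 + ∑ k ∈ range i, (s^k • b - f k 1)` for `i : ℕ`. Then `h (i + l) = h i` (as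
`∑ k ∈ range l, (s^k • b - f k 1) = 0` and periodicity), `h i` is fixed by `V`, `h 1 = b`
(`f 0 1 + b - f 0 1`), and `s^i • h 1 - h (i+1) + h i = f i 1`. (2)
The function `g i j = f i j - (s^i • h j - h (i+j) + h i)` satisfies (1) as well and `g i 1 = 0` by (2);
by (1) for `g` with `(i, j, 1)`: `g i (j+1) = g i j`, so `g i j = g i (j + l) = ... = g i 1 = 0` for
all `i`, `j` (for `j ≥ 1` by induction, for `j = 0` by periodicity or by the same relation).
Define `z (x_0, x_1) = x_0 • h i` where `i` is any number with `x_0⁻¹ x_1 ∈ s^i V`. It is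
equivariant, right invariant under `V` (if `x_0` is replaced by `x_0 v`, the coset of
`x_0⁻¹ x_1` does not change, as `V` is normal, and `v` fixes `h i`), smooth (`V` is open).
`d z (1, s^i, s^(i+j)) = s^i • h j - h (i+j) + h i = f i j`; every triple is
`x_0 • (1, s^i v, s^(i+j) v')`, so `d z = y` by equivariance and right invariance. -/
theorem cyclic_two {V : Subgroup Γ} [V.Normal] (hV : IsOpen (V : Set Γ)) {l : ℕ} (hl : l.Prime)
    (hVl : V.index = l)
    (norm : ∀ a : W, (∀ g : Γ, g • a = a) →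
      ∃ b : W, (∀ g ∈ V, g • b = b) ∧ ∑ᶠ q : Γ ⧸ V, q.out • b = a)
    {y : (Fin 3 → Γ) → W} (hy : y ∈ Coch W (⊤ : Subgroup Γ) V 2) (hd : d y = 0) :
    ∃ z ∈ Coch W (⊤ : Subgroup Γ) V 1, d z = y := by
  classical
  have hfinq : Finite (Γ ⧸ V) := finite_quotient hV
  have : Fact l.Prime := ⟨hl⟩
  obtain ⟨hE, hR, hS⟩ := hy
  have hE' : ∀ (g : Γ) (x : Fin 3 → Γ), y (fun i => g * x i) = g • y x :=
    fun g x => hE g (Subgroup.mem_top g) x
  have hconj : ∀ v ∈ V, ∀ g : Γ, g⁻¹ * v * g ∈ V := by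
    intro v hv g
    have h1 := (inferInstance : V.Normal).conj_mem v hv g⁻¹
    rwa [inv_inv] at h1
  have hfix : ∀ v ∈ V, ∀ x, v • y x = y x := by
    intro v hv x
    rw [← hE' v x]
    have h1 : (fun i => v * x i) = fun i => x i * ((x i)⁻¹ * v * x i) := by
      funext i
      group
    rw [h1]
    exact hR x _ fun i => hconj v hv (x i)
  have hcard : Nat.card (Γ ⧸ V) = l := hVl
  -- a generator
  obtain ⟨s, hs⟩ : ∃ s : Γ, ((s : Γ ⧸ V)) ≠ 1 := by
    have h1 : 1 < Nat.card (Γ ⧸ V) := by rw [hcard]; exact hl.one_lt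
    have h2 : Nontrivial (Γ ⧸ V) := Finite.one_lt_card_iff_nontrivial.1 h1
    obtain ⟨q, hq⟩ := exists_ne (1 : Γ ⧸ V)
    obtain ⟨s, rfl⟩ := QuotientGroup.mk_surjective q
    exact ⟨s, hq⟩
  have hgen : ∀ q : Γ ⧸ V, ∃ k : ℕ, ((s : Γ ⧸ V)) ^ k = q := fun q =>
    mem_powers_of_prime_card hcard hs
  have hsl : s ^ l ∈ V := by
    rw [← QuotientGroup.eq_one_iff, QuotientGroup.mk_pow, ← hcard]
    exact pow_card_eq_one'
  -- invariance in terms of classes
  have hycl : ∀ x x' : Fin 3 → Γ, (∀ i, ((x i : Γ ⧸ V)) = (x' i : Γ ⧸ V)) → y x = y x' := by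
    intro x x' h
    have h1 : x' = fun i => x i * ((x i)⁻¹ * x' i) := by
      funext i
      group
    rw [h1]
    exact (hR x _ fun i => QuotientGroup.eq.1 (h i)).symm
  set f : ℕ → ℕ → W := fun i j => y ![1, s ^ i, s ^ (i + j)] with hf
  have hsm : ∀ n : ℕ, ((s ^ (n + l) : Γ) : Γ ⧸ V) = ((s ^ n : Γ) : Γ ⧸ V) := by
    intro n
    rw [pow_add]
    exact QuotientGroup.mk_mul_of_mem _ hsl
  have hfl1 : ∀ i j, f (i + l) j = f i j := by
    intro i j
    refine hycl _ _ fun t => ?_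
    fin_cases t
    · rfl
    · exact hsm i
    · show ((s ^ (i + l + j) : Γ) : Γ ⧸ V) = ((s ^ (i + j) : Γ) : Γ ⧸ V)
      rw [show i + l + j = i + j + l by omega]
      exact hsm (i + j)
  have hfl2 : ∀ i j, f i (j + l) = f i j := by
    intro i j
    refine hycl _ _ fun t => ?_
    fin_cases t
    · rfl
    · rfl
    · show ((s ^ (i + (j + l)) : Γ) : Γ ⧸ V) = ((s ^ (i + j) : Γ) : Γ ⧸ V)
      rw [show i + (j + l) = i + j + l by omega]
      exact hsm (i + j)
  have hfV : ∀ v ∈ V, ∀ i j, v • f i j = f i j := fun v hv i j => hfix v hv _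
  -- the cocycle identity
  have key : ∀ i j k : ℕ, s ^ i • f j k - f (i + j) k + f i (j + k) - f i j = 0 := by
    intro i j k
    have h1 := congrFun hd ![1, s ^ i, s ^ (i + j), s ^ (i + j + k)]
    rw [c3_d2] at h1
    have h2 : y ![s ^ i, s ^ (i + j), s ^ (i + j + k)] = s ^ i • f j k := by
      rw [hf, ← hE']
      congr 1
      funext t
      fin_cases t
      · show s ^ i = s ^ i * 1
        rw [mul_one]
      · show s ^ (i + j) = s ^ i * s ^ j
        rw [pow_add]
      · show s ^ (i + j + k) = s ^ i * s ^ (j + k)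
        rw [← pow_add]
        congr 1
        omega
    have h3 : f i (j + k) = y ![1, s ^ i, s ^ (i + j + k)] := by
      rw [hf]
      simp only [add_assoc]
    rw [h3, ← h2]
    exact h1
  have hf0 : ∀ k, f 0 k = f 0 0 := by
    intro k
    have h1 := key 0 0 k
    simp only [pow_zero, one_smul, add_zero, zero_add, sub_self] at h1
    exact sub_eq_zero.1 h1
  -- the element `a`
  set a : W := ∑ i ∈ Finset.range l, f i 1 with ha
  have hsa : s • a = a := by
    have h1 : ∀ i ∈ Finset.range l, s • f i 1 = f (i + 1) 1 - (f 1 (i + 1) - f 1 i) := by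
      intro i _
      have h2 := key 1 i 1
      rw [pow_one, add_comm 1 i] at h2
      have h3 : s • f i 1 = f (i + 1) 1 - (f 1 (i + 1) - f 1 i) +
          (s • f i 1 - f (i + 1) 1 + f 1 (i + 1) - f 1 i) := by abel
      rw [h3, h2, add_zero]
    have h4 : ∑ i ∈ Finset.range l, f (i + 1) 1 = a := by
      have h5 := Finset.sum_range_succ' (fun i => f i 1) l
      rw [Finset.sum_range_succ] at h5
      have h6 : f l 1 = f 0 1 := by
        have := hfl1 0 1
        rwa [zero_add] at this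
      rw [h6] at h5
      exact (add_right_cancel h5).symm
    have h7 : ∑ i ∈ Finset.range l, (f 1 (i + 1) - f 1 i) = 0 := by
      rw [Finset.sum_range_sub (fun i => f 1 i)]
      have := hfl2 1 0
      rw [zero_add] at this
      rw [this, sub_self]
    rw [ha, Finset.smul_sum, Finset.sum_congr rfl h1, Finset.sum_sub_distrib, h4, h7, sub_zero]
  have haV : ∀ v ∈ V, v • a = a := by
    intro v hv
    rw [ha, Finset.smul_sum]
    exact Finset.sum_congr rfl fun i _ => hfV v hv i 1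
  have hspow : ∀ k : ℕ, s ^ k • a = a := by
    intro k
    induction k with
    | zero => rw [pow_zero, one_smul]
    | succ k ih => rw [pow_succ, mul_smul, hsa, ih]
  have haG : ∀ g : Γ, g • a = a := by
    intro g
    obtain ⟨k, hk⟩ := hgen (g : Γ ⧸ V)
    rw [← QuotientGroup.mk_pow] at hk
    have h1 : (s ^ k)⁻¹ * g ∈ V := QuotientGroup.eq.1 hk
    have h2 : g = s ^ k * ((s ^ k)⁻¹ * g) := by group
    rw [h2, mul_smul, haV _ h1, hspow]
  obtain ⟨b, hbV, hb⟩ := norm a haG
  -- the classes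
  set e0 : Fin l → Γ ⧸ V := fun k => ((s ^ (k : ℕ) : Γ) : Γ ⧸ V) with he0
  have hmod : ∀ n : ℕ, ((s ^ (n % l) : Γ) : Γ ⧸ V) = ((s ^ n : Γ) : Γ ⧸ V) := by
    intro n
    exact Function.Periodic.map_mod_nat (f := fun n : ℕ => ((s ^ n : Γ) : Γ ⧸ V)) hsm n
  have hsurj : Function.Surjective e0 := by
    intro q
    obtain ⟨k, hk⟩ := hgen q
    refine ⟨⟨k % l, Nat.mod_lt _ hl.pos⟩, ?_⟩
    rw [← hk, ← QuotientGroup.mk_pow]
    exact hmod k
  have : Fintype (Γ ⧸ V) := Fintype.ofFinite _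
  have hbij : Function.Bijective e0 := by
    rw [Fintype.bijective_iff_surjective_and_card]
    refine ⟨hsurj, ?_⟩
    rw [Fintype.card_fin, ← Nat.card_eq_fintype_card, hcard]
  set e : Fin l ≃ Γ ⧸ V := Equiv.ofBijective e0 hbij with he
  have hnorm : ∑ k ∈ Finset.range l, s ^ k • b = a := by
    rw [← hb, finsum_eq_sum_of_fintype, ← Equiv.sum_comp e (fun q : Γ ⧸ V => q.out • b),
      Finset.sum_range]
    refine Finset.sum_congr rfl fun k _ => ?_
    show s ^ (k : ℕ) • b = (((s ^ (k : ℕ) : Γ) : Γ ⧸ V)).out • b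
    obtain ⟨v, hv⟩ := QuotientGroup.mk_out_eq_mul V (s ^ (k : ℕ))
    rw [hv, mul_smul, hbV v v.2]
  have hbk : ∀ k : ℕ, ∀ v ∈ V, v • (s ^ k • b) = s ^ k • b := by
    intro k v hv
    have h1 : v * s ^ k = s ^ k * ((s ^ k)⁻¹ * v * s ^ k) := by group
    rw [← mul_smul, h1, mul_smul, hbV _ (hconj v hv _)]
  -- the function `h`
  set h : ℕ → W := fun i => f 0 1 + ∑ k ∈ Finset.range i, (s ^ k • b - f k 1) with hh
  have hsucc : ∀ i, h (i + 1) = h i + (s ^ i • b - f i 1) := by
    intro i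
    simp only [hh]
    rw [Finset.sum_range_succ, add_assoc]
  have hzero : ∑ k ∈ Finset.range l, (s ^ k • b - f k 1) = 0 := by
    rw [Finset.sum_sub_distrib, hnorm, ha, sub_self]
  have hper : Function.Periodic h l := by
    intro i
    simp only [hh]
    congr 1
    rw [add_comm i l, Finset.sum_range_add, hzero, zero_add]
    refine Finset.sum_congr rfl fun k _ => ?_
    rw [add_comm l k, hfl1, pow_add, mul_smul, hbV _ hsl]
  have hhV : ∀ v ∈ V, ∀ i, v • h i = h i := by
    intro v hv i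
    simp only [hh]
    rw [smul_add, hfV v hv, Finset.smul_sum]
    congr 1
    refine Finset.sum_congr rfl fun k _ => ?_
    rw [smul_sub, hbk k v hv, hfV v hv]
  have h1b : h 1 = b := by
    have := hsucc 0
    rw [zero_add] at this
    rw [this]
    simp [hh]
  have hmain : ∀ j i : ℕ, f i j = s ^ i • h j - h (i + j) + h i := by
    -- the difference
    set g : ℕ → ℕ → W := fun i j => f i j - (s ^ i • h j - h (i + j) + h i) with hg
    have hg1 : ∀ i, g i 1 = 0 := by
      intro i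
      simp only [hg]
      rw [h1b, hsucc]
      abel
    have hgk : ∀ i j, g i (j + 1) = g i j := by
      intro i j
      have h2 := key i j 1
      have h3 : s ^ i • g j 1 - g (i + j) 1 + g i (j + 1) - g i j = 0 := by
        simp only [hg]
        rw [smul_sub, smul_add, smul_sub, ← mul_smul, ← pow_add, ← add_assoc i j 1]
        have h4 : s ^ i • f j 1 = f (i + j) 1 - f i (j + 1) + f i j +
            (s ^ i • f j 1 - f (i + j) 1 + f i (j + 1) - f i j) := by abel
        rw [h4, h2]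
        abel
      rw [hg1, hg1, smul_zero, sub_zero, zero_add] at h3
      exact sub_eq_zero.1 h3
    have hg0 : ∀ i j, g i j = 0 := by
      intro i j
      have h2 : g i 0 = 0 := by
        rw [← hgk i 0]
        exact hg1 i
      induction j with
      | zero => exact h2
      | succ j ih => rw [hgk, ih]
    intro j i
    have := hg0 i j
    exact sub_eq_zero.1 this
  -- the cochain
  set κ : Γ ⧸ V → ℕ := fun q => (e.symm q : Fin l) with hκ
  have hκs : ∀ n : ℕ, h (κ ((s ^ n : Γ) : Γ ⧸ V)) = h n := by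
    intro n
    have h2 : e ⟨n % l, Nat.mod_lt _ hl.pos⟩ = ((s ^ n : Γ) : Γ ⧸ V) := hmod n
    have h3 : κ ((s ^ n : Γ) : Γ ⧸ V) = n % l := by
      simp only [hκ]
      rw [← h2, Equiv.symm_apply_apply]
    rw [h3]
    exact hper.map_mod_nat n
  have hκm : ∀ q : Γ ⧸ V, ((s ^ κ q : Γ) : Γ ⧸ V) = q := fun q => e.apply_symm_apply q
  refine ⟨fun x => x 0 • h (κ ((x 0 : Γ ⧸ V)⁻¹ * (x 1 : Γ ⧸ V))), ⟨?_, ?_, V, hV, ?_⟩, ?_⟩
  · intro g _ x
    show (g * x 0) • h (κ (((g * x 0 : Γ) : Γ ⧸ V)⁻¹ * ((g * x 1 : Γ) : Γ ⧸ V))) =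
      g • (x 0 • h (κ ((x 0 : Γ ⧸ V)⁻¹ * (x 1 : Γ ⧸ V))))
    rw [mul_smul, QuotientGroup.mk_mul, QuotientGroup.mk_mul]
    congr 4
    group
  · intro x u hu
    show (x 0 * u 0) • h (κ (((x 0 * u 0 : Γ) : Γ ⧸ V)⁻¹ * ((x 1 * u 1 : Γ) : Γ ⧸ V))) =
      x 0 • h (κ ((x 0 : Γ ⧸ V)⁻¹ * (x 1 : Γ ⧸ V)))
    rw [QuotientGroup.mk_mul_of_mem _ (hu 0), QuotientGroup.mk_mul_of_mem _ (hu 1), mul_smul,
      hhV _ (hu 0)]
  · intro x u hu
    show (x 0 * u 0) • h (κ (((x 0 * u 0 : Γ) : Γ ⧸ V)⁻¹ * ((x 1 * u 1 : Γ) : Γ ⧸ V))) =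
      x 0 • h (κ ((x 0 : Γ ⧸ V)⁻¹ * (x 1 : Γ ⧸ V)))
    rw [QuotientGroup.mk_mul_of_mem _ (hu 0), QuotientGroup.mk_mul_of_mem _ (hu 1), mul_smul,
      hhV _ (hu 0)]
  · funext x
    rw [c3_d1]
    show x 1 • h (κ ((x 1 : Γ ⧸ V)⁻¹ * (x 2 : Γ ⧸ V))) -
      x 0 • h (κ ((x 0 : Γ ⧸ V)⁻¹ * (x 2 : Γ ⧸ V))) +
      x 0 • h (κ ((x 0 : Γ ⧸ V)⁻¹ * (x 1 : Γ ⧸ V))) = y x
    set i := κ ((x 0 : Γ ⧸ V)⁻¹ * (x 1 : Γ ⧸ V)) with hi
    set j := κ ((x 1 : Γ ⧸ V)⁻¹ * (x 2 : Γ ⧸ V)) with hj
    have hi2 : ((s ^ i : Γ) : Γ ⧸ V) = (x 0 : Γ ⧸ V)⁻¹ * (x 1 : Γ ⧸ V) := hκm _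
    have hj2 : ((s ^ j : Γ) : Γ ⧸ V) = (x 1 : Γ ⧸ V)⁻¹ * (x 2 : Γ ⧸ V) := hκm _
    have hij : ((s ^ (i + j) : Γ) : Γ ⧸ V) = (x 0 : Γ ⧸ V)⁻¹ * (x 2 : Γ ⧸ V) := by
      rw [pow_add, QuotientGroup.mk_mul, hi2, hj2]
      group
    have h2 : h (κ ((x 0 : Γ ⧸ V)⁻¹ * (x 2 : Γ ⧸ V))) = h (i + j) := by
      rw [← hij, hκs]
    have h3 : x 1 • h j = x 0 • (s ^ i • h j) := by
      have h4 : (x 0 * s ^ i)⁻¹ * x 1 ∈ V := by
        rw [← QuotientGroup.eq, QuotientGroup.mk_mul, hi2]
        group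
      have h5 : x 1 = x 0 * s ^ i * ((x 0 * s ^ i)⁻¹ * x 1) := by group
      rw [← mul_smul]
      conv_lhs => rw [h5, mul_smul, hhV _ h4]
    have h6 : y x = x 0 • f i j := by
      rw [hf, ← hE']
      refine hycl _ _ fun t => ?_
      fin_cases t
      · show ((x 0 : Γ) : Γ ⧸ V) = ((x 0 * 1 : Γ) : Γ ⧸ V)
        rw [mul_one]
      · show ((x 1 : Γ) : Γ ⧸ V) = ((x 0 * s ^ i : Γ) : Γ ⧸ V)
        rw [QuotientGroup.mk_mul, hi2]
        group
      · show ((x 2 : Γ) : Γ ⧸ V) = ((x 0 * s ^ (i + j) : Γ) : Γ ⧸ V)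
        rw [QuotientGroup.mk_mul, hij]
        group
    rw [h2, h3, h6, hmain j i]
    generalize h j = hj', h (i + j) = hij', h i = hi'
    rw [smul_add, smul_sub]

end GC
end

section

/-!
# Kummer theory in degree two
-/

namespace GC

universe u v w

variable {Γ : Type u} [Group Γ] [TopologicalSpace Γ] [IsTopologicalGroup Γ] [CompactSpace Γ]
  [TotallyDisconnectedSpace Γ] {W : Type v} [AddCommGroup W] [DistribMulAction Γ W]

/-- TASK C4 (first statement). If `H^1(Γ, W) = 0` and `W` is divisible by `l`, then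
`H^2(Γ, W[l]) → H^2(Γ, W)` is injective.

PROOF. Let `x = d b`, `b ∈ Coch W ⊤ ⊥ 1`. `d (l • b) = l • x = 0`, so `l • b = d a₀` with
`a₀ ∈ Coch W ⊤ ⊥ 0` (`h1`). `a₀ g = g • w` with `w = a₀ 1`; choose `w'` with `l • w' = w` and put
`α g = g • w'`, in `Coch W ⊤ ⊥ 0` (smooth, since `W` is discrete). Then `l • α = a₀` and
`a = b - d α` satisfies `l • a = 0`, `d a = x`. -/
theorem kummer_two (hW : Disc Γ W) {l : ℕ} (div : ∀ a : W, ∃ b, l • b = a)
    (h1 : VanAt Γ W 0) {x : (Fin 3 → Γ) → W} (hlx : l • x = 0) (hx : x ∈ Cobd Γ W 2) :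
    ∃ a ∈ Coch W (⊤ : Subgroup Γ) ⊥ 1, l • a = 0 ∧ d a = x := by
  obtain ⟨b, hb, hbx⟩ := hx
  have hbx' : d b = x := hbx
  have h2 : l • b ∈ Coch W (⊤ : Subgroup Γ) ⊥ 1 := nsmul_mem hb l
  have h3 : d (l • b) = 0 := by
    rw [d_nsmul, hbx', hlx]
  obtain ⟨a₀, ha₀, hda₀⟩ := h1 (l • b) h2 h3
  obtain ⟨w', hw'⟩ := div (a₀ fun _ => 1)
  have ha₀' : ∀ y : Fin 1 → Γ, a₀ y = y 0 • a₀ (fun _ => 1) := by
    intro y
    rw [← ha₀.1 (y 0) (Subgroup.mem_top _)]
    congr 1
    funext i
    rw [mul_one, Subsingleton.elim i 0]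
  let α : (Fin 1 → Γ) → W := fun y => y 0 • w'
  have hα : α ∈ Coch W (⊤ : Subgroup Γ) ⊥ 0 := by
    obtain ⟨U, hU, hU'⟩ := hW w'
    refine ⟨fun g _ y => ?_, fun y u hu => ?_, U, hU, fun y u hu => ?_⟩
    · change (g * y 0) • w' = g • y 0 • w'
      rw [mul_smul]
    · have h4 : u 0 = 1 := Subgroup.mem_bot.1 (hu 0)
      change (y 0 * u 0) • w' = y 0 • w'
      rw [h4, mul_one]
    · change (y 0 * u 0) • w' = y 0 • w'
      rw [mul_smul, hU' _ (hu 0)]
  have hlα : l • α = a₀ := by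
    funext y
    rw [ha₀' y, ← hw', smul_comm]
    rfl
  refine ⟨b - d α, sub_mem hb (d_mem hα), ?_, ?_⟩
  · rw [smul_sub, ← d_nsmul, hlα, hda₀, sub_self]
  · rw [d_sub, d_d, sub_zero, hbx']

/-- TASK C4 (second statement). A class of `H^2(Γ, W[l])` whose restriction to an open normal
subgroup `V` of prime index `l` becomes trivial in `H^2(V, W)` is trivial, if norms are surjective.

PROOF. By `ir_two` (C2) there is `y ∈ Coch W ⊤ V 2`, `d y = 0`, `x - y ∈ Cobd` (open subgroups are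
closed). By `cyclic_two` (C3) `y = d z`. So `x ∈ Cobd Γ W 2`, and `kummer_two` applies. -/
theorem step_two {V : Subgroup Γ} [V.Normal] (hV : IsOpen (V : Set Γ)) {l : ℕ} (hl : l.Prime)
    (hVl : V.index = l) (hW : Disc Γ W) (div : ∀ a : W, ∃ b, l • b = a)
    (h1 : VanAt Γ W 0) (h1V : VanAt V W 0)
    (norm : ∀ a : W, (∀ g : Γ, g • a = a) →
      ∃ b : W, (∀ g ∈ V, g • b = b) ∧ ∑ᶠ q : Γ ⧸ V, q.out • b = a)
    {x : (Fin 3 → Γ) → W} (hx : x ∈ Cocyc Γ W 2) (hlx : l • x = 0)
    (hxV : (fun y : Fin 3 → V => x fun i => (y i : Γ)) ∈ Cobd V W 2) :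
    ∃ a ∈ Coch W (⊤ : Subgroup Γ) ⊥ 1, l • a = 0 ∧ d a = x := by
  obtain ⟨y, hy, hdy, hxy⟩ := ir_two (Subgroup.isClosed_of_isOpen V hV) hW h1V hx hxV
  obtain ⟨z, hz, hdz⟩ := cyclic_two hV hl hVl norm hy hdy
  refine kummer_two hW div h1 hlx ?_
  have h2 : y ∈ Cobd Γ W 2 := ⟨z, coch_mono le_rfl bot_le 1 hz, hdz⟩
  have h3 : x = (x - y) + y := (sub_add_cancel x y).symm
  rw [h3]
  exact add_mem hxy h2

end GC
end

section

/-!
# The unramified Galois cohomology of a field
-/

namespace GC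

universe u v w

section unr

variable (K : Type u) [Field K] (M : Type v) [AddCommGroup M] [DistribMulAction (AbsGal K) M]

/-- The unramified cocycles. -/
def UnrCocyc (n : ℕ) : AddSubgroup ((Fin (n + 1) → AbsGal K) → M) where
  carrier := {c | c ∈ Cocyc (AbsGal K) M n ∧ IsUnr c}
  zero_mem' := by
    refine ⟨zero_mem _, fun O _ => ⟨0, zero_mem _, ?_⟩⟩
    convert zero_mem (Cobd (O.decompositionSubgroup K) M n) using 1
    exact sub_self _
  add_mem' := by
    rintro a b ⟨ha, ha'⟩ ⟨hb, hb'⟩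
    refine ⟨add_mem ha hb, fun O hO => ?_⟩
    obtain ⟨a', ha1, ha2⟩ := ha' O hO
    obtain ⟨b', hb1, hb2⟩ := hb' O hO
    refine ⟨a' + b', add_mem ha1 hb1, ?_⟩
    convert add_mem ha2 hb2 using 1
    funext x
    simp only [Pi.sub_apply, Pi.add_apply]
    abel
  neg_mem' := by
    rintro a ⟨ha, ha'⟩
    refine ⟨neg_mem ha, fun O hO => ?_⟩
    obtain ⟨a', ha1, ha2⟩ := ha' O hO
    refine ⟨-a', neg_mem ha1, ?_⟩
    convert neg_mem ha2 using 1
    funext x
    simp only [Pi.sub_apply, Pi.neg_apply]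
    abel

/-- The subgroup of the unramified classes in the Galois cohomology group of `K` of degree `n` with
coefficients in `M`. -/
noncomputable def UnrH (n : ℕ) : AddSubgroup (H (AbsGal K) M n) :=
  ((UnrCocyc K M n).addSubgroupOf (Cocyc (AbsGal K) M n)).map
    (QuotientAddGroup.mk' ((Cobd (AbsGal K) M n).addSubgroupOf (Cocyc (AbsGal K) M n)))

end unr

/-- The Galois cohomology group `H^i (K, ℚ_l/ℤ_l(w))`. -/
abbrev GalH (l : ℕ) [Fact l.Prime] (w i : ℕ) (K : Type u) [Field K] : Type u :=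
  H (AbsGal K) (Tw l w) i

/-- The natural number `N` kills the unramified classes of `H^i (K, ℚ_l/ℤ_l(w))`, for all prime
numbers `l` different from `p`. -/
def KillsGal (p w i N : ℕ) (K : Type u) [Field K] : Prop :=
  ∀ (l : ℕ) [Fact l.Prime], l ≠ p → ∀ x ∈ UnrH K (Tw l w) i, N • x = 0

end GC
end

section

/-!
# Unramified classes remain unramified
-/

namespace GC

universe u v w

lemma u1_coch_comp {G : Type*} [Group G] [TopologicalSpace G] {G' : Type*} [Group G']
    [TopologicalSpace G'] {M : Type*} [AddCommGroup M] [DistribMulAction G M] {M' : Type*}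
    [AddCommGroup M'] [DistribMulAction G' M'] (π : G' →* G) (hπ : Continuous π)
    {S N : Subgroup G} {S' N' : Subgroup G'} (hS : ∀ g ∈ S', π g ∈ S) (hN : ∀ g ∈ N', π g ∈ N)
    (f : M →+ M') (hf : ∀ g ∈ S', ∀ m, f (π g • m) = g • f m) {n : ℕ}
    {c : (Fin (n + 1) → G) → M} (hc : c ∈ Coch M S N n) :
    (fun x : Fin (n + 1) → G' => f (c fun i => π (x i))) ∈ Coch M' S' N' n := by
  obtain ⟨h1, h2, U, hU, hU'⟩ := hc
  refine ⟨fun g hg x => ?_, fun x u hu => ?_, U.comap π, ?_, fun x u hu => ?_⟩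
  · simp only [map_mul]
    rw [h1 (π g) (hS g hg) fun i => π (x i), hf g hg]
  · simp only [map_mul]
    rw [h2 (fun i => π (x i)) (fun i => π (u i)) fun i => hN _ (hu i)]
  · exact hU.preimage hπ
  · simp only [map_mul]
    rw [hU' (fun i => π (x i)) (fun i => π (u i)) fun i => hu i]

lemma u1_cobd_comp {G : Type*} [Group G] [TopologicalSpace G] {G' : Type*} [Group G']
    [TopologicalSpace G'] {M : Type*} [AddCommGroup M] [DistribMulAction G M] {M' : Type*}
    [AddCommGroup M'] [DistribMulAction G' M'] (π : G' →* G) (hπ : Continuous π)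
    (f : M →+ M') (hf : ∀ g : G', ∀ m, f (π g • m) = g • f m) {n : ℕ}
    {c : (Fin (n + 1) → G) → M} (hc : c ∈ Cobd G M n) :
    (fun x : Fin (n + 1) → G' => f (c fun i => π (x i))) ∈ Cobd G' M' n := by
  cases n with
  | zero =>
    have h0 : c = 0 := hc
    subst h0
    have : (fun x : Fin (0 + 1) → G' => f ((0 : (Fin (0 + 1) → G) → M) fun i => π (x i))) = 0 := by
      funext x
      simp
    rw [this]
    exact AddSubgroup.zero_mem _
  | succ n =>
    obtain ⟨b, hb, rfl⟩ := hc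
    refine ⟨fun x : Fin (n + 1) → G' => f (b fun i => π (x i)),
      u1_coch_comp (S := ⊤) (N := ⊥) π hπ (fun _ _ => Subgroup.mem_top _) (fun g hg => ?_) f
        (fun g _ => hf g) hb, ?_⟩
    · have : g = 1 := hg
      rw [this, map_one]
      exact Subgroup.one_mem _
    · funext x
      simp [d, map_sum, map_zsmul]

lemma u1_inertia_top {K : Type u} {Ω : Type v} [Field K] [Field Ω] [Algebra K Ω]
    (O : ValuationSubring Ω) (h : O = ⊤) (g : O.decompositionSubgroup K)
    (hg : g ∈ O.inertiaSubgroup K) : (g : Ω ≃ₐ[K] Ω) = 1 := by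
  subst h
  exact inertia_top g hg

lemma u1_dvr_congr {K : Type u} [Field K] {A B : ValuationSubring K} (h : A = B)
    (hB : IsDiscreteValuationRing B) : IsDiscreteValuationRing A := by
  subst h
  exact hB

variable {K L : Type u} [Field K] [Field L] {l : ℕ} [Fact l.Prime] {w : ℕ}

/-- TASK U1 (first statement). Coboundaries are unramified.

PROOF. Take `c' = 0`: the restriction of a coboundary to the decomposition group is a coboundary. -/
theorem unrAt_of_cobd {M : Type v} [AddCommGroup M] [DistribMulAction (AbsGal K) M]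
    (O : ValuationSubring (AlgebraicClosure K)) {n : ℕ} {c : (Fin (n + 1) → AbsGal K) → M}
    (hc : c ∈ Cobd (AbsGal K) M n) : UnrAt O c := by
  refine ⟨0, AddSubgroup.zero_mem _, ?_⟩
  rw [sub_zero]
  exact u1_cobd_comp (O.decompositionSubgroup K).subtype continuous_subtype_val
    (AddMonoidHom.id M) (fun g m => rfl) hc

theorem UnrAt.add {M : Type v} [AddCommGroup M] [DistribMulAction (AbsGal K) M]
    {O : ValuationSubring (AlgebraicClosure K)} {n : ℕ} {c c' : (Fin (n + 1) → AbsGal K) → M}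
    (hc : UnrAt O c) (hc' : UnrAt O c') : UnrAt O (c + c') := by
  obtain ⟨a, ha, hb⟩ := hc
  obtain ⟨a', ha', hb'⟩ := hc'
  refine ⟨a + a', AddSubgroup.add_mem _ ha ha', ?_⟩
  have h := AddSubgroup.add_mem _ hb hb'
  convert h using 1
  funext x
  simp only [Pi.add_apply, Pi.sub_apply]
  abel

/-- TASK U1 (second statement). Unramified classes remain unramified in extensions.

PROOF. Let `O` be a valuation ring of `AlgebraicClosure L` whose trace on `L` is a discrete valuation
ring, and `O' = O.comap φ`. The trace of `O'` on `K` is the preimage under `f` of the trace of `O` on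
`L` (`hφ`), so by `comap_dvr` (V3) it is `⊤` or a discrete valuation ring. By `decomp_comap` and
`inertia_comap` (V5), with `pull_spec`, the homomorphism `pull hφ` maps the decomposition group `D` of
`O` to that of `O'`, and the inertia group `I` of `O` to that of `O'`; let `π : D → D'` be the
resulting continuous homomorphism (`continuous_pull`).
* Discrete case: `c|_D' = c' + b'` with `c' ∈ Coch ⊤ I' n` and `b' ∈ Cobd D' n`. Then
  `(pullC hφ c)|_D = (twist φ)^w • (c' ∘ π) + (twist φ)^w • (b' ∘ π)`; the first summand is in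
  `Coch ⊤ I n`, the second in `Cobd D n` (equivariance: `π g` and `g` act on `Tw l w` in the same way,
  `cyc_pull`).
* Trivial case: `O' = ⊤` (`eq_top_of_comap`, V3), so `I' = 1` (`inertia_top`, V5) and `π` is trivial on
  `I`. So the restriction of `pullC hφ c` to `D` is itself right invariant under `I`
  (`pull hφ (x * u) = pull hφ x` for `u ∈ I`), and is in `Coch ⊤ I n` (`pullC_mem`). -/
theorem isUnr_pullC (hl : (l : K) ≠ 0) {f : K →+* L}
    {φ : AlgebraicClosure K →+* AlgebraicClosure L} (hφ : Ext f φ) {n : ℕ}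
    {c : (Fin (n + 1) → AbsGal K) → Tw l w}
    (hc : c ∈ Coch (Tw l w) (⊤ : Subgroup (AbsGal K)) ⊥ n) (hu : IsUnr c) :
    IsUnr (pullC l w hφ n c) := by
  intro O hO
  have htr : (O.comap φ).comap (algebraMap K (AlgebraicClosure K)) =
      (O.comap (algebraMap L (AlgebraicClosure L))).comap f := by
    ext a
    simp only [ValuationSubring.mem_comap]
    rw [hφ a]
  -- the homomorphism of the decomposition groups
  let π : O.decompositionSubgroup L →* (O.comap φ).decompositionSubgroup K :=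
    ((pull hφ).comp (O.decompositionSubgroup L).subtype).codRestrict _ fun g =>
      decomp_comap φ O (fun x => pull_spec hφ (g : AbsGal L) x) g.2
  have hπv : ∀ g, ((π g : (O.comap φ).decompositionSubgroup K) : AbsGal K) =
      pull hφ (g : AbsGal L) := fun g => rfl
  have hπc : Continuous π :=
    ((continuous_pull hφ).comp continuous_subtype_val).subtype_mk _
  have hπI : ∀ g ∈ O.inertiaSubgroup L, π g ∈ (O.comap φ).inertiaSubgroup K := fun g hg =>
    inertia_comap φ O (fun x => pull_spec hφ (g : AbsGal L) x) hg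
  let tw : Tw l w →+ Tw l w :=
    { toFun := fun m => (((twist l φ) ^ w : ℤ_[l]ˣ) : ℤ_[l]) • m
      map_zero' := smul_zero _
      map_add' := fun a b => smul_add _ _ _ }
  have htw : ∀ (g : O.decompositionSubgroup L) (m : Tw l w), tw (π g • m) = g • tw m := by
    intro g m
    change (((twist l φ) ^ w : ℤ_[l]ˣ) : ℤ_[l]) • (pull hφ (g : AbsGal L) • m) =
      (g : AbsGal L) • ((((twist l φ) ^ w : ℤ_[l]ˣ) : ℤ_[l]) • m)
    rw [Tw.smul_def, Tw.smul_def, cyc_pull hl hφ, smul_comm]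
  rcases comap_dvr f _ hO with h | h
  · -- trivial trace
    have htop : O.comap φ = ⊤ := eq_top_of_comap (K := K) (O.comap φ) (htr.trans h)
    refine ⟨fun x : Fin (n + 1) → O.decompositionSubgroup L =>
      pullC l w hφ n c fun i => (x i : AbsGal L), ?_, ?_⟩
    · have hm := pullC_mem hl hφ hc
      have h2 : (fun x : Fin (n + 1) → O.decompositionSubgroup L =>
          pullC l w hφ n c fun i => (x i : AbsGal L)) ∈
          Coch (Tw l w) (⊤ : Subgroup (O.decompositionSubgroup L)) ⊥ n :=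
        u1_coch_comp (S := ⊤) (N := ⊥) (O.decompositionSubgroup L).subtype continuous_subtype_val
          (fun _ _ => Subgroup.mem_top _) (fun g hg => by
            have : g = 1 := hg
            rw [this, map_one]
            exact Subgroup.one_mem _) (AddMonoidHom.id _) (fun g _ m => rfl) hm
      refine ⟨h2.1, fun x u hu => ?_, h2.2.2⟩
      have hp : ∀ i, pull hφ ((u i : O.decompositionSubgroup L) : AbsGal L) = 1 := fun i =>
        u1_inertia_top (O.comap φ) htop (π (u i)) (hπI (u i) (hu i))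
      simp only [pullC_apply, Subgroup.coe_mul, map_mul, hp, mul_one]
    · rw [sub_self]
      exact AddSubgroup.zero_mem _
  · obtain ⟨c', hc', hb'⟩ := hu (O.comap φ) (u1_dvr_congr htr h)
    refine ⟨fun x : Fin (n + 1) → O.decompositionSubgroup L => tw (c' fun i => π (x i)),
      u1_coch_comp (S := ⊤) π hπc (fun _ _ => Subgroup.mem_top _) hπI tw (fun g _ => htw g) hc', ?_⟩
    have h3 := u1_cobd_comp π hπc tw htw hb'
    convert h3 using 1
    funext x
    simp only [Pi.sub_apply, map_sub]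
    rfl

end GC
end

section

/-!
# Transport of unramified classes along a finite extension
-/

namespace GC

universe u v w

/-- Pullback of cochains along a continuous homomorphism. -/
private lemma u2_coch {G : Type u} [Group G] [TopologicalSpace G] {H : Type v} [Group H]
    [TopologicalSpace H] {M : Type w} [AddCommGroup M] [DistribMulAction G M]
    [DistribMulAction H M] (θ : H →* G) (hθ : Continuous θ) (ι : M →+ M)
    (hι : ∀ (s : H) (m : M), ι (θ s • m) = s • ι m) {N : Subgroup G} {N' : Subgroup H}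
    (hN : ∀ s ∈ N', θ s ∈ N) {n : ℕ} {c : (Fin (n + 1) → G) → M}
    (hc : c ∈ Coch M (⊤ : Subgroup G) N n) :
    (fun x : Fin (n + 1) → H => ι (c fun i => θ (x i))) ∈ Coch M (⊤ : Subgroup H) N' n := by
  obtain ⟨h1, h2, U, hU, hU'⟩ := hc
  refine ⟨fun g _ x => ?_, fun x u hu => ?_, U.comap θ, ?_, fun x u hu => ?_⟩
  · have h3 : (fun i => θ (g * x i)) = fun i => θ g * θ (x i) := by
      funext i
      exact map_mul θ _ _
    change ι (c fun i => θ (g * x i)) = g • ι (c fun i => θ (x i))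
    rw [h3, h1 (θ g) (Subgroup.mem_top _) (fun i => θ (x i)), hι]
  · have h3 : (fun i => θ (x i * u i)) = fun i => θ (x i) * θ (u i) := by
      funext i
      exact map_mul θ _ _
    change ι (c fun i => θ (x i * u i)) = ι (c fun i => θ (x i))
    rw [h3, h2 (fun i => θ (x i)) (fun i => θ (u i)) fun i => hN _ (hu i)]
  · exact hU.preimage hθ
  · have h3 : (fun i => θ (x i * u i)) = fun i => θ (x i) * θ (u i) := by
      funext i
      exact map_mul θ _ _
    change ι (c fun i => θ (x i * u i)) = ι (c fun i => θ (x i))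
    rw [h3, hU' (fun i => θ (x i)) (fun i => θ (u i)) fun i => hu i]

variable {K L : Type u} [Field K] [Field L] [Algebra K L] {l : ℕ} [Fact l.Prime] {w : ℕ}

/-- TASK U2. Let `L / K` be a finite extension, `O'` a valuation ring of `AlgebraicClosure L`, `O` the
corresponding valuation ring of `AlgebraicClosure K`, with the decomposition group `D` and the inertia
group `I`. If `pullC hφ c` is unramified at `O'`, then the restriction of `c` to the intersection `S` of
`D` with the image of `AbsGal L` is, up to a coboundary, right invariant under `I ∩ S`.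

PROOF. `φ` is bijective (`ext_bijective`, B5). Let `D'`, `I'` be the decomposition and the inertia group
of `O'`: the restriction of `pullC hφ c` to `D'` is `c' + b'` with `c' ∈ Coch ⊤ I' n`,
`b' ∈ Cobd D' n`. By `decomp_comap_iff` (V5), with `pull_spec`, `pull hφ` maps `D'` bijectively
(`pull_injective`, B5) onto `S`; let `θ : D' ≃* S` be this isomorphism. By `inertia_comap_iff` (V5)
`θ g ∈ I` iff `g ∈ I'`. The inverse of `θ` is continuous: for an open subgroup `U` of `D'`, the image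
`θ (U)` is open in `S`: `D'` is compact (`compactSpace_decomp`) and `S` is Hausdorff
(`Continuous.homeoOfEquivCompactToT2`). Put `c₁ s = ((twist φ)^w)⁻¹ • c' (θ⁻¹ s)` and, for `n = m + 1`,
`b' = d β'`, `β s = ((twist φ)^w)⁻¹ • β' (θ⁻¹ s)`. The elements `θ g` and `g` act on `Tw l w` in the
same way (`cyc_pull`, B2), so these are cochains of `S`, and `c|_S = c₁ + d β` (compare the values at
`θ x`). -/
theorem transport_unr (hl : (l : K) ≠ 0) [FiniteDimensional K L]
    {φ : AlgebraicClosure K →+* AlgebraicClosure L} (hφ : Ext (algebraMap K L) φ) {n : ℕ}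
    {c : (Fin (n + 1) → AbsGal K) → Tw l w} (O' : ValuationSubring (AlgebraicClosure L))
    (h : UnrAt O' (pullC l w hφ n c))
    (S : Subgroup ((O'.comap φ).decompositionSubgroup K))
    (hS : S = ((pull hφ).range).subgroupOf ((O'.comap φ).decompositionSubgroup K)) :
    ∃ c₁ ∈ Coch (Tw l w) (⊤ : Subgroup S) (((O'.comap φ).inertiaSubgroup K).subgroupOf S) n,
      (fun x : Fin (n + 1) → S =>
        c fun i => (((x i : S) : (O'.comap φ).decompositionSubgroup K) : AbsGal K)) - c₁ ∈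
          Cobd S (Tw l w) n := by
  -- the isomorphism between the decomposition group of `O'` and `S`
  have hbij : Function.Bijective φ := ext_bijective hφ
  have hmem : ∀ h : O'.decompositionSubgroup L,
      pull hφ (h : AbsGal L) ∈ (O'.comap φ).decompositionSubgroup K := fun h =>
    decomp_comap φ O' (pull_spec hφ (h : AbsGal L)) h.2
  have hmem2 : ∀ h : O'.decompositionSubgroup L,
      (⟨pull hφ (h : AbsGal L), hmem h⟩ : (O'.comap φ).decompositionSubgroup K) ∈ S := fun h => by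
    rw [hS, Subgroup.mem_subgroupOf]
    exact MonoidHom.mem_range.2 ⟨_, rfl⟩
  let θ₀ : O'.decompositionSubgroup L →* S :=
    { toFun := fun h => ⟨⟨pull hφ (h : AbsGal L), hmem h⟩, hmem2 h⟩
      map_one' := by
        apply Subtype.ext
        apply Subtype.ext
        exact map_one (pull hφ)
      map_mul' := fun a b => by
        apply Subtype.ext
        apply Subtype.ext
        exact map_mul (pull hφ) _ _ }
  have hθ₀c : Continuous θ₀ :=
    (((continuous_pull hφ).comp continuous_subtype_val).subtype_mk hmem).subtype_mk hmem2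
  have hinj : Function.Injective θ₀ := by
    intro a b hab
    apply Subtype.ext
    apply pull_injective hφ
    exact congrArg (fun s : S => (((s : S) : (O'.comap φ).decompositionSubgroup K) : AbsGal K)) hab
  have hsurj : Function.Surjective θ₀ := by
    intro s
    have h2 : (((s : S) : (O'.comap φ).decompositionSubgroup K) : AbsGal K) ∈
        (pull hφ).range := by
      have h1 : ∀ d ∈ S, ((d : (O'.comap φ).decompositionSubgroup K) : AbsGal K) ∈
          (pull hφ).range := by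
        intro d hd
        rw [hS, Subgroup.mem_subgroupOf] at hd
        exact hd
      exact h1 _ s.2
    obtain ⟨h, hh⟩ := MonoidHom.mem_range.1 h2
    have h3 : h ∈ O'.decompositionSubgroup L := by
      rw [decomp_comap_iff φ hbij O' (pull_spec hφ h), hh]
      exact (s : (O'.comap φ).decompositionSubgroup K).2
    refine ⟨⟨h, h3⟩, ?_⟩
    apply Subtype.ext
    apply Subtype.ext
    exact hh
  let e : O'.decompositionSubgroup L ≃* S := MulEquiv.ofBijective θ₀ ⟨hinj, hsurj⟩
  have heval : ∀ h : O'.decompositionSubgroup L,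
      (((e h : S) : (O'.comap φ).decompositionSubgroup K) : AbsGal K) = pull hφ (h : AbsGal L) :=
    fun h => rfl
  have hec : Continuous e := hθ₀c
  have hsymm : Continuous e.symm := by
    have h4 := Continuous.continuous_symm_of_equiv_compact_to_t2 (f := e.toEquiv) hec
    exact h4
  -- the scalars
  obtain ⟨c', hc', hb'⟩ := h
  set u : ℤ_[l]ˣ := (twist l φ) ^ w with hu
  let ι : Tw l w →+ Tw l w :=
    { toFun := fun m => ((u⁻¹ : ℤ_[l]ˣ) : ℤ_[l]) • m
      map_zero' := smul_zero _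
      map_add' := smul_add _ }
  have hι : ∀ m : Tw l w, ι m = ((u⁻¹ : ℤ_[l]ˣ) : ℤ_[l]) • m := fun m => rfl
  have hιu : ∀ m : Tw l w, ι ((u : ℤ_[l]) • m) = m := by
    intro m
    rw [hι, smul_smul, Units.inv_mul, one_smul]
  have hact : ∀ (s : S) (m : Tw l w),
      (e.symm s) • m = s • m := by
    intro s m
    have h5 : (((s : S) : (O'.comap φ).decompositionSubgroup K) : AbsGal K) =
        pull hφ ((e.symm s : O'.decompositionSubgroup L) : AbsGal L) := by
      rw [← heval, MulEquiv.apply_symm_apply]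
    change ((e.symm s : O'.decompositionSubgroup L) : AbsGal L) • m =
      (((s : S) : (O'.comap φ).decompositionSubgroup K) : AbsGal K) • m
    rw [h5, Tw.smul_def, Tw.smul_def, cyc_pull hl hφ]
  have hιs : ∀ (s : S) (m : Tw l w),
      ι ((e.symm.toMonoidHom s : O'.decompositionSubgroup L) • m) = s • ι m := by
    intro s m
    rw [hι, hι]
    change ((u⁻¹ : ℤ_[l]ˣ) : ℤ_[l]) • ((e.symm s) • m) = s • (((u⁻¹ : ℤ_[l]ˣ) : ℤ_[l]) • m)
    rw [hact]
    change ((u⁻¹ : ℤ_[l]ˣ) : ℤ_[l]) •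
      ((((s : S) : (O'.comap φ).decompositionSubgroup K) : AbsGal K) • m) =
      (((s : S) : (O'.comap φ).decompositionSubgroup K) : AbsGal K) •
        (((u⁻¹ : ℤ_[l]ˣ) : ℤ_[l]) • m)
    exact (smul_comm _ _ _).symm
  have hN : ∀ s ∈ ((O'.comap φ).inertiaSubgroup K).subgroupOf S,
      e.symm.toMonoidHom s ∈ O'.inertiaSubgroup L := by
    intro s hs
    rw [Subgroup.mem_subgroupOf] at hs
    have h6 : ∀ x, φ ((((s : S) : (O'.comap φ).decompositionSubgroup K) :
        AlgebraicClosure K ≃ₐ[K] AlgebraicClosure K) x) =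
        ((e.symm s : O'.decompositionSubgroup L) :
          AlgebraicClosure L ≃ₐ[L] AlgebraicClosure L) (φ x) := by
      intro x
      have h5 : (((s : S) : (O'.comap φ).decompositionSubgroup K) : AbsGal K) =
          pull hφ ((e.symm s : O'.decompositionSubgroup L) : AbsGal L) := by
        rw [← heval, MulEquiv.apply_symm_apply]
      rw [h5]
      exact pull_spec hφ _ x
    exact (inertia_comap_iff φ hbij O' h6).2 hs
  -- the main computation
  have hval : ∀ {k : ℕ} (b : (Fin (k + 1) → O'.decompositionSubgroup L) → Tw l w)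
      (x : Fin (n + 1) → S),
      c (fun i => (((x i : S) : (O'.comap φ).decompositionSubgroup K) : AbsGal K)) =
        ι (pullC l w hφ n c fun i =>
          ((e.symm (x i) : O'.decompositionSubgroup L) : AbsGal L)) := by
    intro k b x
    rw [pullC_apply, ← hu, hιu]
    congr 1
    funext i
    rw [← heval, MulEquiv.apply_symm_apply]
  refine ⟨fun x => ι (c' fun i => e.symm.toMonoidHom (x i)),
    u2_coch e.symm.toMonoidHom hsymm ι hιs hN hc', ?_⟩
  cases n with
  | zero =>
    have h7 : (fun x : Fin (0 + 1) → O'.decompositionSubgroup L =>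
        pullC l w hφ 0 c fun i => (x i : AbsGal L)) - c' = 0 := hb'
    change _ = _
    funext x
    rw [Pi.sub_apply, Pi.zero_apply]
    have h8 := congrFun h7 fun i => e.symm (x i)
    rw [Pi.sub_apply, Pi.zero_apply, sub_eq_zero] at h8
    rw [hval c' x, sub_eq_zero]
    exact congrArg ι h8
  | succ m =>
    obtain ⟨β, hβ, hβ'⟩ := hb'
    refine ⟨fun x => ι (β fun i => e.symm.toMonoidHom (x i)),
      u2_coch e.symm.toMonoidHom hsymm ι hιs (N := ⊥) (N' := ⊥) (fun s hs => ?_) hβ, ?_⟩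
    · rw [Subgroup.mem_bot] at hs ⊢
      rw [hs, map_one]
    · funext x
      rw [Pi.sub_apply, hval c' x]
      have h8 := congrFun hβ' fun i => e.symm (x i)
      rw [Pi.sub_apply] at h8
      have h9 : dHom S (Tw l w) (m + 1) (fun x => ι (β fun i => e.symm.toMonoidHom (x i))) x =
          ι (dHom (O'.decompositionSubgroup L) (Tw l w) (m + 1) β fun i => e.symm (x i)) := by
        rw [dHom_apply, dHom_apply, d_map ι (fun x : Fin (m + 1) → S =>
          β fun i => e.symm.toMonoidHom (x i))]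
        rfl
      rw [h9, h8, map_sub]
      rfl

end GC
end

section

/-!
# The inertia group moves the roots of a uniformizer
-/

namespace GC

universe u v

open scoped Pointwise

variable {K : Type u} [Field K] {l : ℕ} [Fact l.Prime] {p : ℕ} [Fact p.Prime] [CharP K p]

private lemma w3_le_sum {Ω : Type v} [Field Ω] (O : ValuationSubring Ω) {ι : Type*}
    (S : Finset ι) (f : ι → Ω)
    (hd : ∀ i ∈ S, ∀ j ∈ S, f i ≠ 0 → f j ≠ 0 → O.valuation (f i) = O.valuation (f j) → i = j) :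
    ∀ i ∈ S, O.valuation (f i) ≤ O.valuation (∑ j ∈ S, f j) := by
  classical
  intro i hi
  obtain ⟨m, hm, hmax⟩ := S.exists_max_image (fun i => O.valuation (f i)) ⟨i, hi⟩
  by_cases h0 : f m = 0
  · have h1 := hmax i hi
    rw [h0, map_zero] at h1
    exact h1.trans zero_le
  · have hv0 : O.valuation (f m) ≠ 0 := (Valuation.ne_zero_iff _).2 h0
    have h2 : O.valuation (∑ j ∈ S.erase m, f j) < O.valuation (f m) := by
      refine Valuation.map_sum_lt _ hv0 ?_
      intro j hj
      rw [Finset.mem_erase] at hj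
      refine lt_of_le_of_ne (hmax j hj.2) ?_
      intro h3
      by_cases hj0 : f j = 0
      · rw [hj0, map_zero] at h3
        exact hv0 h3.symm
      · exact hj.1 (hd j hj.2 m hm hj0 h0 h3)
    rw [← Finset.add_sum_erase S f hm, Valuation.map_add_eq_of_lt_left _ h2]
    exact hmax i hi

private lemma w3_close {F : Type u} {Ω : Type v} [Field F] [Field Ω] [Algebra F Ω]
    {O : ValuationSubring Ω} {ϖ π : F} (hϖ : IsUnif O ϖ) {q : ℕ} (hq : q.Prime) {e : ℕ}
    (hle : ¬ q ∣ e)
    (hπ : O.valuation (algebraMap F Ω π) = O.valuation (algebraMap F Ω ϖ) ^ e) {y : Ω}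
    (hy : y ^ q = algebraMap F Ω π) (R : Polynomial F) (hR : R.natDegree < q)
    (hz : O.valuation (Polynomial.aeval y R) ≤ 1) {η : Ω} (hη : O.valuation η ≤ 1)
    (t : Ω →+* Ω) (ht : ∀ a : F, t (algebraMap F Ω a) = algebraMap F Ω a) (hty : t y = η * y) :
    O.valuation (t (Polynomial.aeval y R) - Polynomial.aeval y R) < 1 := by
  have hϖ0 : O.valuation (algebraMap F Ω ϖ) ≠ 0 := by
    rw [Valuation.ne_zero_iff, Ne, map_eq_zero]
    exact hϖ.1
  have hsum := Polynomial.aeval_eq_sum_range' hR y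
  -- the values of the terms
  have hval : ∀ i, R.coeff i ≠ 0 → ∃ n : ℤ, O.valuation (R.coeff i • y ^ i) ^ q =
      O.valuation (algebraMap F Ω ϖ) ^ ((q : ℤ) * n + (e : ℤ) * i) := by
    intro i hi
    obtain ⟨n, hn⟩ := hϖ.2.2 _ hi
    refine ⟨n, ?_⟩
    rw [Algebra.smul_def, map_mul, mul_pow, hn, map_pow, ← pow_mul, mul_comm i q, pow_mul,
      ← map_pow, hy, hπ, zpow_add₀ hϖ0, mul_comm (q : ℤ), zpow_mul, zpow_natCast, zpow_mul,
      zpow_natCast, zpow_natCast]
  have hzinj : ∀ m n : ℤ, O.valuation (algebraMap F Ω ϖ) ^ m =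
      O.valuation (algebraMap F Ω ϖ) ^ n → m = n := fun m n => (hϖ.zpow_eq_iff m n).1
  have hcoe : ∀ i, R.coeff i • y ^ i ≠ 0 → R.coeff i ≠ 0 := by
    intro i h1 h2
    rw [h2, zero_smul] at h1
    exact h1 rfl
  have hdist : ∀ i ∈ Finset.range q, ∀ j ∈ Finset.range q, R.coeff i • y ^ i ≠ 0 →
      R.coeff j • y ^ j ≠ 0 →
      O.valuation (R.coeff i • y ^ i) = O.valuation (R.coeff j • y ^ j) → i = j := by
    intro i hi j hj hi0 hj0 hij
    rw [Finset.mem_range] at hi hj
    obtain ⟨m, hm⟩ := hval i (hcoe i hi0)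
    obtain ⟨n, hn⟩ := hval j (hcoe j hj0)
    rw [hij, hn] at hm
    have h1 := hzinj _ _ hm
    have h2 : (q : ℤ) ∣ (e : ℤ) * ((i : ℤ) - j) := ⟨n - m, by linear_combination -h1⟩
    have hqp : Prime (q : ℤ) := Nat.prime_iff_prime_int.1 hq
    rcases hqp.dvd_or_dvd h2 with h3 | h3
    · exact absurd (Int.natCast_dvd_natCast.1 h3) hle
    · have h4 : |(i : ℤ) - j| < q := by
        rw [abs_lt]
        constructor <;> omega
      have h5 := Int.eq_zero_of_abs_lt_dvd h3 h4
      omega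
  have hle1 := w3_le_sum O (Finset.range q) (fun i => R.coeff i • y ^ i) hdist
  rw [← hsum] at hle1
  have hlt : ∀ i ∈ Finset.range q, i ≠ 0 → O.valuation (R.coeff i • y ^ i) < 1 := by
    intro i hi hi0
    refine lt_of_le_of_ne ((hle1 i hi).trans hz) ?_
    intro h1
    have hc : R.coeff i ≠ 0 := by
      intro h2
      rw [h2, zero_smul, map_zero] at h1
      exact zero_ne_one h1
    obtain ⟨n, hn⟩ := hval i hc
    rw [h1, one_pow] at hn
    have h2 : (0 : ℤ) = (q : ℤ) * n + (e : ℤ) * i := hzinj _ _ (by rw [zpow_zero]; exact hn)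
    have h3 : (q : ℤ) ∣ (e : ℤ) * (i : ℤ) := ⟨-n, by linear_combination -h2⟩
    have hqp : Prime (q : ℤ) := Nat.prime_iff_prime_int.1 hq
    rw [Finset.mem_range] at hi
    rcases hqp.dvd_or_dvd h3 with h3 | h3
    · exact absurd (Int.natCast_dvd_natCast.1 h3) hle
    · exact absurd (Nat.le_of_dvd (Nat.pos_of_ne_zero hi0) (Int.natCast_dvd_natCast.1 h3))
        (not_le.2 hi)
  have hdiff : t (Polynomial.aeval y R) - Polynomial.aeval y R =
      ∑ i ∈ Finset.range q, (R.coeff i • y ^ i) * (η ^ i - 1) := by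
    rw [hsum, map_sum, ← Finset.sum_sub_distrib]
    refine Finset.sum_congr rfl fun i _ => ?_
    rw [Algebra.smul_def, map_mul, ht, map_pow, hty, mul_pow]
    ring
  rw [hdiff]
  refine Valuation.map_sum_lt _ one_ne_zero ?_
  intro i hi
  by_cases hi0 : i = 0
  · subst hi0
    rw [pow_zero, pow_zero, sub_self, mul_zero, map_zero]
    exact zero_lt_one
  · rw [map_mul]
    have h1 : O.valuation (η ^ i - 1) ≤ 1 := by
      refine (Valuation.map_sub _ _ _).trans (max_le ?_ ?_)
      · rw [map_pow]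
        exact pow_le_one₀ zero_le hη
      · rw [map_one]
    calc O.valuation (R.coeff i • y ^ i) * O.valuation (η ^ i - 1)
        ≤ O.valuation (R.coeff i • y ^ i) * 1 := mul_le_mul_right h1 _
      _ < 1 := by
        rw [mul_one]
        exact hlt i hi hi0

private lemma w3_poly {F : Type u} {Ω : Type v} [Field F] [Field Ω] [Algebra F Ω]
    {q : ℕ} (hq : 0 < q) {π : F} {y : Ω} (hy : y ^ q = algebraMap F Ω π) {z : Ω}
    (hz : z ∈ IntermediateField.adjoin F {y}) :
    ∃ R : Polynomial F, R.natDegree < q ∧ Polynomial.aeval y R = z := by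
  have hmon : (Polynomial.X ^ q - Polynomial.C π : Polynomial F).Monic :=
    Polynomial.monic_X_pow_sub_C _ hq.ne'
  have hroot : Polynomial.aeval y (Polynomial.X ^ q - Polynomial.C π : Polynomial F) = 0 := by
    rw [map_sub, map_pow, Polynomial.aeval_X, Polynomial.aeval_C, hy, sub_self]
  have hint : IsIntegral F y := ⟨_, hmon, hroot⟩
  have h1 : z ∈ (IntermediateField.adjoin F {y}).toSubalgebra := hz
  rw [IntermediateField.adjoin_simple_toSubalgebra_of_isAlgebraic hint.isAlgebraic,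
    Algebra.adjoin_singleton_eq_range_aeval] at h1
  obtain ⟨P, hP⟩ := h1
  have hP' : Polynomial.aeval y P = z := hP
  refine ⟨P %ₘ (Polynomial.X ^ q - Polynomial.C π), ?_, ?_⟩
  · have h2 := Polynomial.natDegree_modByMonic_lt P hmon (by
      intro h
      have h3 := congrArg Polynomial.natDegree h
      rw [Polynomial.natDegree_X_pow_sub_C, Polynomial.natDegree_one] at h3
      exact hq.ne' h3)
    rwa [Polynomial.natDegree_X_pow_sub_C] at h2
  · rw [Polynomial.aeval_modByMonic_eq_self_of_root hroot, hP']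

/-- TASK W3. The inertia group moves the `l`-th root of a uniformizer.

PROOF. Let `Ω = AlgebraicClosure K`, `v = O.valuation`, `ζ ∈ Ω` a primitive `l`-th root of unity
(`(l : K) ≠ 0`), `K₁ = K(ζ)`, of degree at most `l - 1` over `K` (`ζ` is a root of
`1 + X + ⋯ + X^(l-1)`). By `exists_unif_adjoin` (W1) there is a uniformizer `ϖ` of the trace on `K₁` and
`v π = v ϖ ^ e` with `1 ≤ e ≤ l - 1`. So `π` is not an `l`-th power in `K₁` (if `π = z ^ l`,
`v z = v ϖ ^ k`, then `e = l k`), so `X^l - π` is irreducible over `K₁`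
(`X_pow_sub_C_irreducible_iff_of_prime`), and there is `s ∈ Aut(Ω / K₁)` with `s y = ζ y`. Let
`E = K₁(y)`; each `z ∈ E` is `∑ i < l, a_i y^i` with `a_i ∈ K₁`, and
(*) the values of the nonzero terms `a_i y^i` are pairwise different, and different from `1` for
`i ≠ 0`: `v (a_i y^i) ^ l = v ϖ ^ (l k_i + e i)`, and `e i` is not divisible by `l` for `0 < i < l`.
So `v z = max v (a_i y^i)`, and `z ∈ O` iff all `a_i y^i ∈ O`, iff all `a_i^l π^i ∈ O`. The same for
`s⁻¹ z = ∑ a_i ζ^(-i) y^i`; so `O` and `s • O` have the same trace on `E`. By `exists_smul_eq` (V2) over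
the field `E` there is `τ ∈ Aut(Ω / E)` with `τ • O = s • O`. Let `j = τ⁻¹ s ∈ Aut(Ω / K)`: it is in the
decomposition group, `j y = ζ y`, and it fixes `K₁`. It induces an automorphism `j̄` of the residue field
of `O`. For `z = ∑ a_i y^i ∈ O ∩ E` the residue of `z` is that of `a_0`, by (*), and the same holds for
`j z = ∑ a_i ζ^i y^i`; so `j̄` fixes the residues of the elements of `E ∩ O`. By `exists_lift_residue`
(W2) over the field `E` there is `h ∈ Aut(Ω / E)` in the decomposition group which induces `j̄`. Let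
`i = j h⁻¹`: it is in the inertia group (`mem_inertia_iff_residue`), and `i y = j y = ζ y ≠ y`. -/
theorem exists_inertia_move (hpl : p ≠ l) {O : ValuationSubring (AlgebraicClosure K)} {π : K}
    (hπ : IsUnif O π) {y : AlgebraicClosure K} (hy : y ^ l = algebraMap K _ π) :
    ∃ i ∈ O.inertiaSubgroup K, (i : AbsGal K) y ≠ y := by
  classical
  have hlp : l.Prime := Fact.out
  have hl0 : l ≠ 0 := hlp.ne_zero
  have hl : (l : AlgebraicClosure K) ≠ 0 := l_ne_zero (K := AlgebraicClosure K) hpl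
  have hπ0 : algebraMap K (AlgebraicClosure K) π ≠ 0 := by
    rw [Ne, map_eq_zero]
    exact hπ.1
  have hy0 : y ≠ 0 := by
    rintro rfl
    rw [zero_pow hl0] at hy
    exact hπ0 hy.symm
  have : NeZero (l : AlgebraicClosure K) := ⟨hl⟩
  obtain ⟨ζ, hζ⟩ := HasEnoughRootsOfUnity.exists_primitiveRoot (AlgebraicClosure K) l
  have hζ0 : ζ ≠ 0 := hζ.ne_zero hl0
  have hζ1 : ζ ≠ 1 := hζ.ne_one hlp.one_lt
  have hζv : O.valuation ζ = 1 := by
    have h1 : O.valuation ζ ^ l = 1 := by rw [← map_pow, hζ.pow_eq_one, map_one]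
    exact (pow_eq_one_iff.1 h1).resolve_right hl0
  -- the field generated by the roots of unity
  obtain ⟨K₁, hK₁⟩ : ∃ K₁ : IntermediateField K (AlgebraicClosure K),
    K₁ = IntermediateField.adjoin K {ζ} := ⟨_, rfl⟩
  have hint : IsIntegral K ζ := Algebra.IsIntegral.isIntegral ζ
  have hfin : FiniteDimensional K K₁ := by
    rw [hK₁]
    exact IntermediateField.adjoin.finiteDimensional hint
  have hζK : ζ ∈ K₁ := by
    rw [hK₁]
    exact IntermediateField.mem_adjoin_simple_self _ ζ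
  have hrank : Module.finrank K K₁ < l := by
    rw [hK₁, IntermediateField.adjoin.finrank hint]
    have h1 : Polynomial.aeval ζ (Polynomial.cyclotomic l K) = 0 := by
      have h2 := hζ.isRoot_cyclotomic hlp.pos
      rw [Polynomial.IsRoot.def, ← Polynomial.map_cyclotomic l (algebraMap K _),
        Polynomial.eval_map_algebraMap] at h2
      exact h2
    have h2 := Polynomial.natDegree_le_of_dvd (minpoly.dvd K ζ h1)
      (Polynomial.cyclotomic_ne_zero l K)
    rw [Polynomial.natDegree_cyclotomic, Nat.totient_prime hlp] at h2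
    have := hlp.pos
    omega
  obtain ⟨ϖ, hϖ, e, he0, he1, he⟩ := exists_unif_adjoin hπ K₁
  have hle : ¬ l ∣ e := fun h => absurd (Nat.le_of_dvd he0 h) (not_le.2 (he1.trans_lt hrank))
  have hπe : O.valuation (algebraMap K₁ (AlgebraicClosure K) (algebraMap K K₁ π)) =
      O.valuation (algebraMap K₁ (AlgebraicClosure K) ϖ) ^ e := he
  have hy' : y ^ l = algebraMap K₁ (AlgebraicClosure K) (algebraMap K K₁ π) := hy
  have hv0 : O.valuation (algebraMap K₁ (AlgebraicClosure K) ϖ) ≠ 0 := by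
    rw [Valuation.ne_zero_iff, Ne, map_eq_zero]
    exact hϖ.1
  -- the uniformizer is not a power
  have hnot : ∀ b : K₁, b ^ l ≠ algebraMap K K₁ π := by
    intro b hb
    have hb0 : b ≠ 0 := by
      rintro rfl
      rw [zero_pow hl0] at hb
      apply hπ0
      have h1 := congrArg (algebraMap K₁ (AlgebraicClosure K)) hb
      rw [map_zero] at h1
      exact h1.symm
    obtain ⟨n, hn⟩ := hϖ.2.2 b hb0
    rw [← hb, map_pow, map_pow, hn, ← zpow_natCast, ← zpow_mul, ← zpow_natCast] at hπe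
    have h1 := (hϖ.zpow_eq_iff _ _).1 hπe
    apply hle
    rw [← Int.natCast_dvd_natCast]
    exact ⟨n, by rw [← h1, mul_comm]⟩
  have hirr : Irreducible (Polynomial.X ^ l - Polynomial.C (algebraMap K K₁ π)) :=
    (X_pow_sub_C_irreducible_iff_of_prime hlp).mpr hnot
  have hmon : (Polynomial.X ^ l - Polynomial.C (algebraMap K K₁ π)).Monic :=
    Polynomial.monic_X_pow_sub_C _ hl0
  have hmin : ∀ z : AlgebraicClosure K, z ^ l = algebraMap K _ π →
      minpoly K₁ z = Polynomial.X ^ l - Polynomial.C (algebraMap K K₁ π) := by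
    intro z hz
    refine (minpoly.eq_of_irreducible_of_monic hirr ?_ hmon).symm
    rw [map_sub, map_pow, Polynomial.aeval_X, Polynomial.aeval_C, hz]
    exact sub_self _
  have hcl : IsAlgClosure K₁ (AlgebraicClosure K) :=
    ⟨inferInstance, Algebra.IsAlgebraic.tower_top (K := K) K₁⟩
  have hnorm : Normal K₁ (AlgebraicClosure K) := IsAlgClosure.normal _ _
  have hz2 : (ζ * y) ^ l = algebraMap K _ π := by
    rw [mul_pow, hζ.pow_eq_one, one_mul, hy]
  have hconj : IsConjRoot K₁ (ζ * y) y := by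
    rw [IsConjRoot, hmin _ hz2, hmin _ hy]
  obtain ⟨s, hs⟩ := isConjRoot_iff_exists_algEquiv.mp hconj
  -- `hs : ζ * y = s y`
  obtain ⟨E, hE⟩ : ∃ E : IntermediateField K₁ (AlgebraicClosure K),
    E = IntermediateField.adjoin K₁ {y} := ⟨_, rfl⟩
  have hyE : y ∈ E := by
    rw [hE]
    exact IntermediateField.mem_adjoin_simple_self _ y
  have hζE : ζ ∈ E := E.algebraMap_mem ⟨ζ, hζK⟩
  have hclose : ∀ (t : AlgebraicClosure K →+* AlgebraicClosure K) (η : AlgebraicClosure K),
      O.valuation η ≤ 1 → (∀ a : K₁, t (algebraMap K₁ _ a) = algebraMap K₁ _ a) →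
      t y = η * y → ∀ z ∈ E, O.valuation z ≤ 1 → O.valuation (t z - z) < 1 := by
    intro t η hη ht hty z hz hz1
    rw [hE] at hz
    obtain ⟨R, hR, rfl⟩ := w3_poly hlp.pos hy' hz
    exact w3_close hϖ hlp hle hπe hy' R hR hz1 hη t ht hty
  have hsζ : s ζ = ζ := s.commutes ⟨ζ, hζK⟩
  have hsy : s.symm y = ζ⁻¹ * y := by
    rw [AlgEquiv.symm_apply_eq, map_mul, map_inv₀, hsζ, hs, inv_mul_cancel_left₀ hζ0]
  have hζiv : O.valuation ζ⁻¹ ≤ 1 := by
    rw [map_inv₀, hζv, inv_one]
  have hss : ∀ z ∈ E, O.valuation z ≤ 1 → O.valuation (s.symm z - z) < 1 := fun z hz hz1 =>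
    hclose (s.symm : AlgebraicClosure K →+* AlgebraicClosure K) ζ⁻¹ hζiv
      (fun a => s.symm.commutes a) hsy z hz hz1
  -- the traces on `E` are equal
  have htr : ∀ z ∈ E, (s.symm z ∈ O ↔ z ∈ O) := by
    intro z hz
    constructor
    · intro h1
      by_contra h2
      have hz0 : z ≠ 0 := by
        rintro rfl
        exact h2 O.zero_mem
      have h3 : 1 < O.valuation z := by
        rw [← O.valuation_le_one_iff, not_le] at h2
        exact h2
      have hv : O.valuation z ≠ 0 := (Valuation.ne_zero_iff _).2 hz0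
      have h4 : O.valuation z⁻¹ < 1 := by
        rw [map_inv₀, inv_lt_one₀ (zero_lt_iff.2 hv)]
        exact h3
      have h5 := hss z⁻¹ (E.inv_mem hz) h4.le
      have h6 : O.valuation (s.symm z⁻¹) < 1 := by
        have h7 : s.symm z⁻¹ = (s.symm z⁻¹ - z⁻¹) + z⁻¹ := by ring
        rw [h7]
        exact Valuation.map_add_lt _ h5 h4
      have hsz0 : s.symm z ≠ 0 := by
        rw [Ne, EmbeddingLike.map_eq_zero_iff]
        exact hz0
      have hsv : O.valuation (s.symm z) ≠ 0 := (Valuation.ne_zero_iff _).2 hsz0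
      rw [map_inv₀, map_inv₀, inv_lt_one₀ (zero_lt_iff.2 hsv)] at h6
      exact absurd ((O.valuation_le_one_iff _).2 h1) (not_le.2 h6)
    · intro h1
      have h2 := (O.valuation_le_one_iff _).2 h1
      have h3 := hss z hz h2
      have h4 : s.symm z = (s.symm z - z) + z := by ring
      rw [h4]
      exact O.add_mem _ _ ((O.valuation_le_one_iff _).1 h3.le) h1
  have hcomap : O.comap (algebraMap E (AlgebraicClosure K)) =
      (s • O).comap (algebraMap E (AlgebraicClosure K)) := by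
    ext z
    rw [ValuationSubring.mem_comap, ValuationSubring.mem_comap,
      ValuationSubring.mem_pointwise_smul_iff_inv_smul_mem]
    exact (htr z z.2).symm
  have halg : Algebra.IsAlgebraic E (AlgebraicClosure K) :=
    Algebra.IsAlgebraic.tower_top (K := K₁) E
  obtain ⟨τ, hτ⟩ := exists_smul_eq (F := E) O (s • O) hcomap
  have hτf : ∀ z ∈ E, τ.symm z = z := fun z hz => τ.symm.commutes ⟨z, hz⟩
  have hτO : ∀ x, τ.symm (s x) ∈ O ↔ x ∈ O := by
    intro x
    have h1 : τ⁻¹ • (s • x) ∈ O ↔ s • x ∈ τ • O :=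
      (ValuationSubring.mem_pointwise_smul_iff_inv_smul_mem).symm
    rw [hτ, ValuationSubring.smul_mem_pointwise_smul_iff] at h1
    exact h1
  -- the automorphism `j`
  obtain ⟨j, hj⟩ : ∃ j : AbsGal K, ∀ x, j x = τ.symm (s x) :=
    ⟨AlgEquiv.ofRingEquiv (f := (s : AlgebraicClosure K ≃+* AlgebraicClosure K).trans
      (τ.symm : AlgebraicClosure K ≃+* AlgebraicClosure K)) (fun a => by
        change τ.symm (s (algebraMap K₁ (AlgebraicClosure K) (algebraMap K K₁ a))) =
          algebraMap K₁ (AlgebraicClosure K) (algebraMap K K₁ a)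
        rw [s.commutes]
        exact hτf _ (E.algebraMap_mem _)), fun x => rfl⟩
  have hjD : j ∈ O.decompositionSubgroup K := by
    rw [mem_decomp_iff]
    intro x
    rw [hj]
    exact hτO x
  have hjy : j y = ζ * y := by
    rw [hj, hs]
    exact hτf _ (E.mul_mem hζE hyE)
  have hjc : ∀ z ∈ E, O.valuation z ≤ 1 → O.valuation (j z - z) < 1 := fun z hz hz1 =>
    hclose (j : AlgebraicClosure K →+* AlgebraicClosure K) ζ hζv.le (fun a => by
      change j (algebraMap K₁ (AlgebraicClosure K) a) = _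
      rw [hj, s.commutes]
      exact hτf _ (E.algebraMap_mem a)) hjy z hz hz1
  obtain ⟨jD, hjD'⟩ : ∃ jD : O.decompositionSubgroup K, (jD : AbsGal K) = j := ⟨⟨j, hjD⟩, rfl⟩
  have key : ∀ x x' : O, IsLocalRing.residue O x = IsLocalRing.residue O x' ↔
      O.valuation ((x : AlgebraicClosure K) - x') < 1 := by
    intro x x'
    rw [← sub_eq_zero, ← map_sub, IsLocalRing.residue_eq_zero_iff,
      ValuationSubring.valuation_lt_one_iff]
    rfl
  obtain ⟨g, hg⟩ := exists_lift_residue (F := E) O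
    (MulSemiringAction.toRingEquiv (O.decompositionSubgroup K) (IsLocalRing.ResidueField O) jD)
    (by
      rintro x ⟨z, hz⟩
      rw [MulSemiringAction.toRingEquiv_apply_apply, ← IsLocalRing.ResidueField.residue_smul, key]
      have h1 : ((jD • x : O) : AlgebraicClosure K) = j (x : AlgebraicClosure K) := by
        rw [← hjD']
        rfl
      rw [h1]
      refine hjc _ ?_ ((O.valuation_le_one_iff _).2 x.2)
      rw [← hz]
      exact z.2)
  have hgO : ∀ x, (g : AlgebraicClosure K ≃ₐ[E] AlgebraicClosure K).symm x ∈ O ↔ x ∈ O := by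
    intro x
    have h1 := (mem_decomp_iff O (g : AlgebraicClosure K ≃ₐ[E] AlgebraicClosure K)).1 g.2
      ((g : AlgebraicClosure K ≃ₐ[E] AlgebraicClosure K).symm x)
    rw [AlgEquiv.apply_symm_apply] at h1
    exact h1.symm
  obtain ⟨i, hi⟩ : ∃ i : AbsGal K, ∀ x, i x =
      j ((g : AlgebraicClosure K ≃ₐ[E] AlgebraicClosure K).symm x) :=
    ⟨AlgEquiv.ofRingEquiv
      (f := ((g : AlgebraicClosure K ≃ₐ[E] AlgebraicClosure K).symm :
        AlgebraicClosure K ≃+* AlgebraicClosure K).trans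
        (j : AlgebraicClosure K ≃+* AlgebraicClosure K)) (fun a => by
        change j ((g : AlgebraicClosure K ≃ₐ[E] AlgebraicClosure K).symm
          (algebraMap K (AlgebraicClosure K) a)) = algebraMap K (AlgebraicClosure K) a
        have h1 : (g : AlgebraicClosure K ≃ₐ[E] AlgebraicClosure K).symm
            (algebraMap K (AlgebraicClosure K) a) = algebraMap K (AlgebraicClosure K) a :=
          (g : AlgebraicClosure K ≃ₐ[E] AlgebraicClosure K).symm.commutes
            ⟨algebraMap K₁ (AlgebraicClosure K) (algebraMap K K₁ a), E.algebraMap_mem _⟩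
        rw [h1, j.commutes]), fun x => rfl⟩
  have hiD : i ∈ O.decompositionSubgroup K := by
    rw [mem_decomp_iff]
    intro x
    rw [hi, (mem_decomp_iff O j).1 hjD, hgO]
  refine ⟨⟨i, hiD⟩, ?_, ?_⟩
  · rw [mem_inertia_iff]
    intro x hx
    have hx' := (hgO x).2 hx
    have h1 := hg ⟨_, hx'⟩
    rw [MulSemiringAction.toRingEquiv_apply_apply, ← IsLocalRing.ResidueField.residue_smul, eq_comm,
      key] at h1
    have h2 : ((jD • (⟨_, hx'⟩ : O) : O) : AlgebraicClosure K) = i x := by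
      rw [hi, ← hjD']
      rfl
    have h3 : ((g • (⟨_, hx'⟩ : O) : O) : AlgebraicClosure K) = x :=
      (g : AlgebraicClosure K ≃ₐ[E] AlgebraicClosure K).apply_symm_apply x
    rw [h2, h3] at h1
    exact h1
  · change i y ≠ y
    have h1 : (g : AlgebraicClosure K ≃ₐ[E] AlgebraicClosure K).symm y = y :=
      (g : AlgebraicClosure K ≃ₐ[E] AlgebraicClosure K).symm.commutes ⟨y, hyE⟩
    rw [hi, h1, hjy]
    intro h2
    apply hζ1
    have h3 : ζ * y = 1 * y := by rw [h2, one_mul]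
    exact mul_right_cancel₀ hy0 h3

end GC
end

section

/-!
# The homomorphisms on the inertia group
-/

namespace GC

universe u v

variable {K : Type u} [Field K] {l : ℕ} [Fact l.Prime] {w : ℕ} {p : ℕ} [Fact p.Prime] [CharP K p]

/-- TASK W4 (first statement). The inertia group fixes the roots of unity of order `l ^ n`
(see the proof of `cyc_of_mem_inertia`, U0). -/
theorem inertia_fix_root (hpl : p ≠ l) (O : ValuationSubring (AlgebraicClosure K))
    {i : O.decompositionSubgroup K} (hi : i ∈ O.inertiaSubgroup K) {n : ℕ}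
    {z : AlgebraicClosure K} (hz : z ^ l ^ n = 1) : (i : AbsGal K) z = z := by
  have hcop : p.Coprime (l ^ n) :=
    Nat.Coprime.pow_right n ((Nat.coprime_primes Fact.out Fact.out).2 hpl)
  have hmem : z ∈ O := by
    rw [← O.valuation_le_one_iff]
    have h1 : O.valuation z ^ (l ^ n) = 1 := by rw [← map_pow, hz, map_one]
    exact ((pow_eq_one_iff.1 h1).resolve_right (pow_ne_zero n (Fact.out : l.Prime).ne_zero)).le
  have h2 := (mem_inertia_iff O i).1 hi _ hmem
  refine root_eq_of_val (p := p) O hcop ?_ hz h2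
  rw [← map_pow, hz, map_one]

/-- TASK W4 (second statement). The `l`-th roots of a unit fixed by the inertia group are fixed.

PROOF. As `fixed_of_pow` in F6: `ζ = i z / z` is an `l`-th root of unity with
`O.valuation (ζ - 1) < 1` (`mem_inertia_iff`, V5), so `ζ = 1` (`root_eq_of_val`, U0). -/
theorem inertia_fix_of_pow (hpl : p ≠ l) (O : ValuationSubring (AlgebraicClosure K))
    {u z : AlgebraicClosure K} (hu : O.valuation u = 1)
    (hfix : ∀ i ∈ O.inertiaSubgroup K, (i : AbsGal K) u = u) (hz : z ^ l = u) :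
    ∀ i ∈ O.inertiaSubgroup K, (i : AbsGal K) z = z := by
  intro i hi
  have hl0 : l ≠ 0 := (Fact.out : l.Prime).ne_zero
  have hv : O.valuation z = 1 := by
    have h1 : O.valuation z ^ l = 1 := by rw [← map_pow, hz, hu]
    exact (pow_eq_one_iff.mp h1).resolve_right hl0
  have hz0 : z ≠ 0 := by
    rintro rfl
    rw [map_zero] at hv
    exact zero_ne_one hv
  have hzO : z ∈ O := by
    rw [← O.valuation_le_one_iff, hv]
  have h2 := (mem_inertia_iff O i).mp hi z hzO
  have h3 : (i : AbsGal K) z / z = 1 := by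
    refine root_eq_of_val (p := p) O (N := l) ?_ ?_ (one_pow l) ?_
    · exact (Nat.coprime_primes Fact.out Fact.out).mpr hpl
    · rw [div_pow, ← map_pow, hz, hfix i hi]
      apply div_self
      rw [← hz]
      exact pow_ne_zero _ hz0
    · have h4 : (i : AbsGal K) z / z - 1 = ((i : AbsGal K) z - z) / z := by
        field_simp
      rw [h4, map_div₀, hv, div_one]
      exact h2
  rwa [div_eq_one_iff_eq hz0] at h3

/-- TASK W4 (third statement). The elements fixed by the inertia group are `l`-th powers up to powers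
of the uniformizer.

PROOF. As `val_inertia` and `exists_eq_pow` in F7. Let `E = K(α)`, `ϖ ∈ E` with `v π = v ϖ ^ m`
(`exists_unif_adjoin`, W1); `E` is fixed by the inertia group. If `m = l k`, then
`u = π / ϖ ^ (k l)` is a unit fixed by the inertia group, `u = z ^ l`, `z` is fixed, and
`y = ϖ ^ k z` satisfies `y ^ l = π` and is fixed, a contradiction to `exists_inertia_move` (W3). So
`x m + y l = 1`. Let `v α = v ϖ ^ k`; then `u = α / (π ^ (k x) (ϖ ^ (k y)) ^ l)` is a unit fixed by the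
inertia group, so it is the `l`-th power of a fixed element. -/
theorem inertia_exists_eq_pow (hpl : p ≠ l) {O : ValuationSubring (AlgebraicClosure K)} {π : K}
    (hπ : IsUnif O π) {α : AlgebraicClosure K} (hα : α ≠ 0)
    (hfix : ∀ i ∈ O.inertiaSubgroup K, (i : AbsGal K) α = α) :
    ∃ (e : ℤ) (δ : AlgebraicClosure K), δ ≠ 0 ∧
      (∀ i ∈ O.inertiaSubgroup K, (i : AbsGal K) δ = δ) ∧
        α = (algebraMap K (AlgebraicClosure K) π) ^ e * δ ^ l := by
  have hl0 : l ≠ 0 := (Fact.out : l.Prime).ne_zero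
  have hπ0 : algebraMap K (AlgebraicClosure K) π ≠ 0 := by
    rw [Ne, map_eq_zero]
    exact hπ.1
  have hπf : ∀ g : AbsGal K, g (algebraMap K (AlgebraicClosure K) π) =
      algebraMap K (AlgebraicClosure K) π := fun g => g.commutes π
  obtain ⟨E, hE⟩ : ∃ E : IntermediateField K (AlgebraicClosure K),
    E = IntermediateField.adjoin _ {α} := ⟨_, rfl⟩
  have hαE : α ∈ E := by
    rw [hE]
    exact IntermediateField.mem_adjoin_simple_self _ α
  have hfE : ∀ i ∈ O.inertiaSubgroup K, ∀ x ∈ E, (i : AbsGal K) x = x := fun g hg x hx => by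
    rw [hE] at hx
    induction hx using IntermediateField.adjoin_induction with
    | mem x hx =>
      rw [Set.mem_singleton_iff] at hx
      rw [hx, hfix g hg]
    | algebraMap x => exact (g : AbsGal K).commutes x
    | add x y hx hy h1 h2 => rw [map_add, h1, h2]
    | inv x hx h1 => rw [map_inv₀, h1]
    | mul x y hx hy h1 h2 => rw [map_mul, h1, h2]
  have hfin : FiniteDimensional K E := by
    rw [hE]
    exact IntermediateField.adjoin.finiteDimensional (Algebra.IsIntegral.isIntegral α)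
  obtain ⟨ϖ, ⟨hϖ0, hϖ1, hϖ⟩, m, hm0, -, hm⟩ := exists_unif_adjoin hπ E
  have hϖ0' : (ϖ : AlgebraicClosure K) ≠ 0 := fun h => hϖ0 (Subtype.ext h)
  have hv0 : O.valuation (ϖ : AlgebraicClosure K) ≠ 0 := (Valuation.ne_zero_iff _).mpr hϖ0'
  obtain ⟨k, hk⟩ := hϖ ⟨α, hαE⟩ fun h => hα (congrArg Subtype.val h)
  have hk' : O.valuation α = O.valuation (ϖ : AlgebraicClosure K) ^ k := hk
  have hndvd : ¬ (l : ℤ) ∣ (m : ℤ) := by
    rintro ⟨j, hj⟩
    obtain ⟨z, hz⟩ := IsAlgClosed.exists_pow_nat_eq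
      ((algebraMap K (AlgebraicClosure K) π) / ((ϖ : AlgebraicClosure K) ^ j) ^ l)
      (Nat.pos_of_ne_zero hl0)
    have hzf : ∀ i ∈ O.inertiaSubgroup K, (i : AbsGal K) z = z := by
      refine inertia_fix_of_pow hpl O (u := (algebraMap K (AlgebraicClosure K) π) /
        ((ϖ : AlgebraicClosure K) ^ j) ^ l) ?_ (fun g hg => ?_) hz
      · rw [map_div₀, map_pow, map_zpow₀, hm, ← zpow_natCast _ m, hj, mul_comm (l : ℤ), zpow_mul,
          zpow_natCast]
        exact div_self (pow_ne_zero _ (zpow_ne_zero _ hv0))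
      · rw [map_div₀, map_pow, map_zpow₀, hπf, hfE g hg _ ϖ.2]
    have hy : ((ϖ : AlgebraicClosure K) ^ j * z) ^ l = algebraMap K _ π := by
      rw [mul_pow, hz, mul_div_cancel₀ _ (pow_ne_zero _ (zpow_ne_zero _ hϖ0'))]
    obtain ⟨i, hi, hne⟩ := exists_inertia_move hpl hπ hy
    apply hne
    rw [map_mul, map_zpow₀, hfE i hi _ ϖ.2, hzf i hi]
  have hcop : IsCoprime (m : ℤ) (l : ℤ) := by
    rw [isCoprime_comm]
    exact ((Nat.prime_iff_prime_int.mp (Fact.out : l.Prime)).coprime_iff_not_dvd).mpr hndvd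
  obtain ⟨x, y, hxy⟩ := hcop
  have hβ0 : (ϖ : AlgebraicClosure K) ^ (k * y) ≠ 0 := zpow_ne_zero _ hϖ0'
  have hβ : ∀ i ∈ O.inertiaSubgroup K, (i : AbsGal K) ((ϖ : AlgebraicClosure K) ^ (k * y)) =
      (ϖ : AlgebraicClosure K) ^ (k * y) := fun i hi => by
    rw [map_zpow₀, hfE i hi _ ϖ.2]
  have hv : O.valuation α = O.valuation ((algebraMap K (AlgebraicClosure K) π) ^ (k * x) *
      ((ϖ : AlgebraicClosure K) ^ (k * y)) ^ l) := by
    rw [map_mul, map_zpow₀, map_pow, map_zpow₀, hm, hk', ← zpow_natCast _ m, ← zpow_mul,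
      ← zpow_natCast, ← zpow_mul, ← zpow_add₀ hv0]
    congr 1
    linear_combination (-k) * hxy
  generalize hβe : (ϖ : AlgebraicClosure K) ^ (k * y) = β at hβ0 hβ hv
  have h1 : (algebraMap K (AlgebraicClosure K) π) ^ (k * x) * β ^ l ≠ 0 :=
    mul_ne_zero (zpow_ne_zero _ hπ0) (pow_ne_zero _ hβ0)
  obtain ⟨z, hz⟩ := IsAlgClosed.exists_pow_nat_eq
    (α / ((algebraMap K (AlgebraicClosure K) π) ^ (k * x) * β ^ l)) (Nat.pos_of_ne_zero hl0)
  have hzf : ∀ i ∈ O.inertiaSubgroup K, (i : AbsGal K) z = z := by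
    refine inertia_fix_of_pow hpl O
      (u := α / ((algebraMap K (AlgebraicClosure K) π) ^ (k * x) * β ^ l)) ?_ (fun g hg => ?_) hz
    · rw [map_div₀, hv]
      exact div_self ((Valuation.ne_zero_iff _).mpr h1)
    · rw [map_div₀, map_mul, map_pow, map_zpow₀, hπf, hβ g hg, hfix g hg]
  have hz0 : z ≠ 0 := by
    rintro rfl
    rw [zero_pow hl0] at hz
    exact div_ne_zero hα h1 hz.symm
  refine ⟨k * x, β * z, mul_ne_zero hβ0 hz0, fun g hg => ?_, ?_⟩
  · rw [map_mul, hβ g hg, hzf g hg]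
  · rw [mul_pow, hz, ← mul_assoc, mul_div_cancel₀ _ h1]

private lemma w4_exists_pow {G : Type v} [Group G] [TopologicalSpace G] [IsTopologicalGroup G]
    {N : Subgroup G} [CompactSpace N] (χ : HomM N (Tw l w)) : ∃ n : ℕ, ∀ g, l ^ n • χ g = 0 := by
  obtain ⟨U, hU, hχ⟩ := χ.smooth
  have hV : IsOpen ((U.subgroupOf N : Subgroup N) : Set N) := hU.preimage continuous_subtype_val
  have := finite_quotient hV
  have h : ∀ q : N ⧸ U.subgroupOf N, ∃ n : ℕ, l ^ n • χ q.out = 0 := fun q => exists_pow_smul _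
  choose n hn using h
  have := Fintype.ofFinite (N ⧸ U.subgroupOf N)
  refine ⟨∑ q, n q, fun g => ?_⟩
  have h1 : χ g = χ ((g : N ⧸ U.subgroupOf N)).out := by
    obtain ⟨u, hu⟩ := QuotientGroup.mk_out_eq_mul (U.subgroupOf N) g
    rw [hu, χ.map_mul, hχ _ u.2, add_zero]
  rw [h1]
  have h2 : n (g : N ⧸ U.subgroupOf N) ≤ ∑ q, n q :=
    Finset.single_le_sum (fun _ _ => Nat.zero_le _) (Finset.mem_univ _)
  obtain ⟨k, hk⟩ := Nat.exists_eq_add_of_le h2
  rw [hk, pow_add, mul_comm, mul_smul, hn, smul_zero]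

private lemma w4_addOrderOf (n : ℕ) : addOrderOf (qel l w n) = l ^ n :=
  Nat.dvd_antisymm (addOrderOf_dvd_of_nsmul_eq_zero (pow_smul_qel n))
    (smul_qel_eq_zero_iff.mp (addOrderOf_nsmul_eq_zero _))

private lemma w4_zsmul_eq_zero_iff {Ω : Type v} [Field Ω] {n : ℕ} {x : Ω}
    (hx : IsPrimitiveRoot x (l ^ n)) (a : ℤ) : a • qel l w n = 0 ↔ x ^ a = 1 := by
  rw [hx.zpow_eq_one_iff_dvd, ← addOrderOf_dvd_iff_zsmul_eq_zero, w4_addOrderOf]

private lemma w4_kummer (hl : (l : AlgebraicClosure K) ≠ 0) {Δ : Type u} [Group Δ]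
    [TopologicalSpace Δ] [IsTopologicalGroup Δ] [CompactSpace Δ] [TotallyDisconnectedSpace Δ]
    (θ : Δ →* AbsGal K) (hθ : Continuous θ) (hi : Function.Injective θ)
    (hN : ∀ g, θ g (eps (AlgebraicClosure K) l 1) = eps (AlgebraicClosure K) l 1)
    (ψ : Δ → Tw l w) (hψ : ∀ a b, ψ (a * b) = ψ a + ψ b)
    (hU : ∃ U : Subgroup Δ, IsOpen (U : Set Δ) ∧ ∀ u ∈ U, ψ u = 0)
    (hn : ∀ g, l ^ 1 • ψ g = 0) :
    ∃ (y : AlgebraicClosure K) (k : Δ → ℕ), y ≠ 0 ∧ (∀ g, ψ g = k g • qel l w 1) ∧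
      ∀ g, θ g y * (eps (AlgebraicClosure K) l 1) ^ (k g) = y := by
  have h1 : ∀ g, ∃ e : ℕ, ψ g = e • qel l w 1 := fun g => exists_eq_smul_qel (hn g)
  choose k hk using h1
  have hε := (isEps_eps hl).1 1
  have hkey : ∀ a b : ℕ, a • qel l w 1 = b • qel l w 1 →
      (eps (AlgebraicClosure K) l 1) ^ a = (eps (AlgebraicClosure K) l 1) ^ b := fun a b hab => by
    have h2 : ((a : ℤ) - b) • qel l w 1 = 0 := by
      rw [sub_smul, natCast_zsmul, natCast_zsmul, hab, sub_self]
    rw [w4_zsmul_eq_zero_iff hε, zpow_sub₀ (hε.ne_zero (pow_ne_zero _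
      (Fact.out : l.Prime).ne_zero)), zpow_natCast, zpow_natCast] at h2
    exact (div_eq_one_iff_eq (pow_ne_zero _ (hε.ne_zero (pow_ne_zero _
      (Fact.out : l.Prime).ne_zero)))).mp h2
  obtain ⟨U, hU, hU'⟩ := hU
  obtain ⟨y, hy0, hy⟩ := h90 hθ hi
    (f := fun g => (eps (AlgebraicClosure K) l 1) ^ (k g))
    (fun g => pow_ne_zero _ (hε.ne_zero (pow_ne_zero _ (Fact.out : l.Prime).ne_zero)))
    (fun g h => by
      rw [map_pow, hN g, ← pow_add]
      apply hkey
      rw [← hk, hψ, hk, hk, add_smul])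
    ⟨U, hU, fun g u hu => by
      apply hkey
      rw [← hk, ← hk, hψ, hU' u hu, add_zero]⟩
  exact ⟨y, k, hy0, hk, hy⟩

private lemma w4_isUnit {a : ℤ_[l]} (h : PadicInt.toZModPow 1 a ≠ 0) : IsUnit a := by
  by_contra hnu
  have h5 : a ∈ IsLocalRing.maximalIdeal ℤ_[l] := hnu
  apply h
  rw [PadicInt.maximalIdeal_eq_span_p] at h5
  have h7 : a ∈ RingHom.ker (PadicInt.toZModPow 1 : ℤ_[l] →+* ZMod (l ^ 1)) := by
    rw [PadicInt.ker_toZModPow, pow_one]
    exact h5
  exact h7

private lemma w4_hom_l (hpl : p ≠ l) {O : ValuationSubring (AlgebraicClosure K)} {π : K}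
    (hπ : IsUnif O π) {r : ℕ → AlgebraicClosure K} (h0 : r 0 = algebraMap K _ π)
    (hr : ∀ n, r (n + 1) ^ l = r n) (hr0 : ∀ n, r n ≠ 0) (κ : O.inertiaSubgroup K → ℤ_[l])
    (hκ : ∀ (i : O.inertiaSubgroup K) (n : ℕ), ((i : O.decompositionSubgroup K) : AbsGal K) (r n) =
        zlPow l n (eps (AlgebraicClosure K) l n) (κ i) * r n)
    (ψ : HomM (O.inertiaSubgroup K) (Tw l w)) (hψ : ∀ i, l • ψ i = 0) :
    ∃ m : Tw l w, ∀ i : O.inertiaSubgroup K, ψ i = κ i • m := by
  have hl : (l : AlgebraicClosure K) ≠ 0 := l_ne_zero (K := AlgebraicClosure K) hpl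
  have hl0 : l ≠ 0 := (Fact.out : l.Prime).ne_zero
  obtain ⟨U, hU, hU'⟩ := ψ.smooth
  have hε := (isEps_eps hl).1 1
  obtain ⟨y, k, hy0, hk, hy⟩ := w4_kummer hl
    ((O.decompositionSubgroup K).subtype.comp (O.inertiaSubgroup K).subtype)
    (continuous_subtype_val.comp continuous_subtype_val)
    ((Subgroup.subtype_injective _).comp (Subgroup.subtype_injective _))
    (fun g => inertia_fix_root hpl O g.2 (n := 1) hε.pow_eq_one) ψ ψ.map_mul
    ⟨U.subgroupOf (O.inertiaSubgroup K), hU.preimage continuous_subtype_val,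
      fun u hu => hU' u hu⟩ (fun g => by rw [pow_one]; exact hψ g)
  have hε0 : eps (AlgebraicClosure K) l 1 ≠ 0 := hε.ne_zero (pow_ne_zero _ hl0)
  have h1 : ∀ g ∈ O.inertiaSubgroup K, (g : AbsGal K) (y ^ l) = y ^ l := fun g hg => by
    have h2 := hy ⟨g, hg⟩
    have h3 := congrArg (· ^ l) h2
    have h4 : eps (AlgebraicClosure K) l 1 ^ l = 1 := by
      have h5 := hε.pow_eq_one
      rwa [pow_one] at h5
    simp only [mul_pow, ← pow_mul] at h3
    rw [mul_comm (k _), pow_mul, h4, one_pow, mul_one] at h3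
    rw [map_pow]
    exact h3
  obtain ⟨e, δ, hδ0, hδ, hyδ⟩ := inertia_exists_eq_pow hpl hπ (pow_ne_zero l hy0) h1
  obtain ⟨ζ, hζ⟩ : ∃ ζ, ζ = y / ((r 1) ^ e * δ) := ⟨_, rfl⟩
  have hW0 : (r 1) ^ e * δ ≠ 0 := mul_ne_zero (zpow_ne_zero _ (hr0 1)) hδ0
  have hrt : (r 1) ^ l = algebraMap K _ π := by
    rw [← h0]
    exact hr 0
  have hζ1 : ζ ^ l ^ 1 = 1 := by
    rw [hζ, pow_one, div_pow, hyδ, mul_pow, ← hrt, ← zpow_natCast ((r 1) ^ e), ← zpow_mul,
      mul_comm e, zpow_mul, zpow_natCast, div_self]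
    refine mul_ne_zero (zpow_ne_zero _ (pow_ne_zero _ (hr0 1))) (pow_ne_zero _ hδ0)
  have hζ2 : y = ζ * ((r 1) ^ e * δ) := by rw [hζ, div_mul_cancel₀ _ hW0]
  refine ⟨(-e) • qel l w 1, fun i => ?_⟩
  have h2 : ((i : O.decompositionSubgroup K) : AbsGal K) y =
      y * (zlPow l 1 (eps (AlgebraicClosure K) l 1) (κ i)) ^ e := by
    conv_lhs => rw [hζ2]
    rw [map_mul, map_mul, map_zpow₀, inertia_fix_root hpl O i.2 hζ1, hκ i 1, hδ _ i.2, mul_zpow]
    conv_rhs => rw [hζ2]
    ring
  have h3 := hy i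
  change ((i : O.decompositionSubgroup K) : AbsGal K) y * _ = y at h3
  rw [h2, mul_assoc] at h3
  have h5 := mul_left_cancel₀ hy0 (h3.trans (mul_one _).symm)
  have h6 : (eps (AlgebraicClosure K) l 1) ^
      (e * ((PadicInt.toZModPow 1 (κ i)).val : ℤ) + (k i : ℤ)) = 1 := by
    rw [zpow_add₀ hε0, zpow_natCast, ← h5]
    congr 1
    rw [zlPow, ← zpow_natCast, ← zpow_mul, mul_comm]
  rw [← w4_zsmul_eq_zero_iff (w := w) hε, add_smul, add_comm, mul_smul, natCast_zsmul,
    natCast_zsmul, ← zl_smul_qel, ← hk i] at h6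
  rw [eq_neg_of_add_eq_zero_left h6, neg_smul, smul_neg, smul_comm _ e]

/-- TASK W4 (fourth statement). The tame character and the homomorphisms of the inertia group.

PROOF. Existence of `κ`: as `kap_spec` in F5 (`exists_zl`; `r n ≠ 0`). Unit value: by
`exists_inertia_move` (W3) for `y = r 1`: `zlPow l 1 (eps 1) (κ i) ≠ 1`, so `toZModPow 1 (κ i) ≠ 0` and
`κ i` is a unit. `κ` is additive (`inertia_fix_root`). Homomorphisms killed by `l`: as `hom_inertia_l` in
F7, with `h90` (C1) for `Δ = I` and `inertia_exists_eq_pow`; the general case: as `hom_inertia` in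
F7. (The files F5, F6, F7 contain complete proofs of these statements for the valuation rings over the
points of the affine line; they can be copied.) -/
theorem exists_tame (hpl : p ≠ l) {O : ValuationSubring (AlgebraicClosure K)} {π : K}
    (hπ : IsUnif O π) {r : ℕ → AlgebraicClosure K} (h0 : r 0 = algebraMap K _ π)
    (hr : ∀ n, r (n + 1) ^ l = r n) :
    ∃ κ : O.inertiaSubgroup K → ℤ_[l],
      (∀ (i : O.inertiaSubgroup K) (n : ℕ), ((i : O.decompositionSubgroup K) : AbsGal K) (r n) =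
        zlPow l n (eps (AlgebraicClosure K) l n) (κ i) * r n) ∧
      (∃ i, IsUnit (κ i)) ∧
      ∀ ψ : HomM (O.inertiaSubgroup K) (Tw l w), ∃ m : Tw l w, ∀ i, ψ i = κ i • m := by
  have hl : (l : AlgebraicClosure K) ≠ 0 := l_ne_zero (K := AlgebraicClosure K) hpl
  have hl0 : l ≠ 0 := (Fact.out : l.Prime).ne_zero
  have hπ0 : algebraMap K (AlgebraicClosure K) π ≠ 0 := by
    rw [Ne, map_eq_zero]
    exact hπ.1
  have hr0 : ∀ n, r n ≠ 0 := by
    intro n
    induction n with
    | zero => rw [h0]; exact hπ0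
    | succ n ih =>
      intro h
      apply ih
      rw [← hr n, h, zero_pow hl0]
  have hex : ∀ i : O.inertiaSubgroup K, ∃! z : ℤ_[l], ∀ n,
      ((i : O.decompositionSubgroup K) : AbsGal K) (r n) / r n =
        zlPow l n (eps (AlgebraicClosure K) l n) z := by
    intro i
    refine exists_zl (isEps_eps hl) ?_ ?_
    · change ((i : O.decompositionSubgroup K) : AbsGal K) (r 0) / r 0 = 1
      rw [h0, ((i : O.decompositionSubgroup K) : AbsGal K).commutes]
      exact div_self hπ0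
    · intro n
      change (((i : O.decompositionSubgroup K) : AbsGal K) (r (n + 1)) / r (n + 1)) ^ l =
        ((i : O.decompositionSubgroup K) : AbsGal K) (r n) / r n
      rw [div_pow, ← map_pow, hr]
  choose κ hκ1 hκ2 using fun i => (hex i)
  have hκ : ∀ (i : O.inertiaSubgroup K) (n : ℕ),
      ((i : O.decompositionSubgroup K) : AbsGal K) (r n) =
        zlPow l n (eps (AlgebraicClosure K) l n) (κ i) * r n := by
    intro i n
    have h1 := hκ1 i n
    rw [← h1, div_mul_cancel₀ _ (hr0 n)]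
  -- additivity
  have hadd : ∀ i j, κ (i * j) = κ i + κ j := by
    intro i j
    symm
    refine hκ2 (i * j) _ fun n => ?_
    have hε := (isEps_eps (Ω := AlgebraicClosure K) (l := l) hl).1 n
    have h1 : zlPow l n (eps (AlgebraicClosure K) l n) (κ j) ^ l ^ n = 1 := by
      unfold zlPow
      rw [← pow_mul, mul_comm, pow_mul, hε.pow_eq_one, one_pow]
    have h2 : (((i * j : O.inertiaSubgroup K) : O.decompositionSubgroup K) : AbsGal K) (r n) =
        ((i : O.decompositionSubgroup K) : AbsGal K)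
          (((j : O.decompositionSubgroup K) : AbsGal K) (r n)) := rfl
    rw [h2, hκ j n, map_mul, inertia_fix_root hpl O i.2 h1, hκ i n, zlPow_add hε.pow_eq_one,
      ← mul_assoc, mul_div_cancel_right₀ _ (hr0 n), mul_comm]
  -- a unit value
  have hunit : ∃ i, IsUnit (κ i) := by
    have hy : r 1 ^ l = algebraMap K _ π := by
      rw [← h0]
      exact hr 0
    obtain ⟨i, hi, hne⟩ := exists_inertia_move hpl hπ hy
    refine ⟨⟨i, hi⟩, w4_isUnit ?_⟩
    intro h1
    apply hne
    have h2 := hκ ⟨i, hi⟩ 1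
    have h3 : zlPow l 1 (eps (AlgebraicClosure K) l 1) (κ ⟨i, hi⟩) = 1 := by
      unfold zlPow
      rw [h1]
      simp
    rw [h3, one_mul] at h2
    exact h2
  refine ⟨κ, hκ, hunit, ?_⟩
  -- smoothness
  have hsm : ∀ m : Tw l w, ∃ χ : HomM (O.inertiaSubgroup K) (Tw l w), ∀ i, χ i = κ i • m := by
    intro m
    obtain ⟨n, hn⟩ := exists_pow_smul m
    refine ⟨⟨fun i => κ i • m, fun i j => by rw [hadd, add_smul],
      (MulAction.stabilizer (AbsGal K) (r n)).subgroupOf (O.decompositionSubgroup K), ?_,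
      fun i hi => ?_⟩, fun i => rfl⟩
    · exact (stabilizer_isOpen_of_isIntegral (K := K) (r n)).preimage continuous_subtype_val
    · have h1 : ((i : O.decompositionSubgroup K) : AbsGal K) (r n) = r n := hi
      have hε := (isEps_eps (Ω := AlgebraicClosure K) (l := l) hl).1 n
      refine zl_smul_eq_zero hn ?_
      have h2 := hκ i n
      rw [h1] at h2
      have h3 : zlPow l n (eps (AlgebraicClosure K) l n) (κ i) = 1 := by
        have h5 : 1 * r n = zlPow l n (eps (AlgebraicClosure K) l n) (κ i) * r n := by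
          rw [one_mul]
          exact h2
        exact (mul_right_cancel₀ (hr0 n) h5).symm
      have h4 : zlPow l n (eps (AlgebraicClosure K) l n) (κ i) =
          zlPow l n (eps (AlgebraicClosure K) l n) 0 := by
        rw [h3]
        unfold zlPow
        rw [map_zero]
        simp
      rw [zlPow_eq_iff hε, map_zero] at h4
      exact h4
  intro ψ
  obtain ⟨i₀, u, hu⟩ := hunit
  -- a homomorphism killed by a power of `l` which vanishes at `i₀` is zero
  have key : ∀ (n : ℕ) (ψ' : HomM (O.inertiaSubgroup K) (Tw l w)),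
      ψ' i₀ = 0 → (∀ i, l ^ n • ψ' i = 0) → ∀ i, ψ' i = 0 := by
    intro n
    induction n with
    | zero =>
      intro ψ' _ h i
      have h1 := h i
      rwa [pow_zero, one_smul] at h1
    | succ n ih =>
      intro ψ' h0' h
      refine ih ψ' h0' ?_
      have h1 : ∀ i, l • (l ^ n • ψ') i = 0 := fun i => by
        change l • (l ^ n • ψ' i) = 0
        rw [← mul_smul, ← pow_succ', h]
      obtain ⟨m', hm'⟩ := w4_hom_l hpl hπ h0 hr hr0 κ hκ (l ^ n • ψ') h1
      have h2 : l ^ n • ψ' i₀ = κ i₀ • m' := hm' i₀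
      rw [h0', smul_zero, ← hu] at h2
      have h3 : m' = 0 := by
        have h4 := congrArg (((u⁻¹ : ℤ_[l]ˣ) : ℤ_[l]) • ·) h2
        simp only [smul_zero, smul_smul, Units.inv_mul, one_smul] at h4
        exact h4.symm
      intro i
      have h5 : l ^ n • ψ' i = κ i • m' := hm' i
      rw [h5, h3, smul_zero]
  obtain ⟨m, hm⟩ : ∃ m : Tw l w, m = ((u⁻¹ : ℤ_[l]ˣ) : ℤ_[l]) • ψ i₀ := ⟨_, rfl⟩
  obtain ⟨χ, hχ⟩ := hsm m
  refine ⟨m, fun i => ?_⟩
  obtain ⟨n, hn⟩ := w4_exists_pow (ψ - χ)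
  have h0' : (ψ - χ) i₀ = 0 := by
    rw [HomM.sub_apply, hχ i₀, hm, ← hu, smul_smul, Units.mul_inv, one_smul, sub_self]
  have h2 := key n (ψ - χ) h0' hn i
  rw [HomM.sub_apply, sub_eq_zero] at h2
  rw [h2, hχ]

end GC
end
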