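import Pool.Agent.Lib.MP_859dd5_ag.Mg.G059
import Pool.Agent.Lib.MP_859dd5_ag.Mg.G027
import Pool.Agent.Lib.MP_859dd5_ag.Mg.G033
import Pool.Agent.Lib.MP_859dd5_ag.Mg.G034
import Pool.Agent.Lib.MP_859dd5_ag.Mg.G036

section

section

/-!
# Roots of unity and the twist
-/

namespace GC

universe u v w

variable {Ω : Type u} [Field Ω] {Ω' : Type v} [Field Ω'] {l : ℕ} [Fact l.Prime]

/-! auxiliary lemmas -/

section b1aux

omit [Fact l.Prime] in
lemma b1_pow_eq {n : ℕ} {x : Ω} (hx : x ^ l ^ n = 1) {i j : ℕ}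
    (h : (i : ZMod (l ^ n)) = j) : x ^ i = x ^ j :=
  pow_eq_pow_of_modEq ((ZMod.natCast_eq_natCast_iff _ _ _).1 h) hx

lemma b1_eq_of_pow {n : ℕ} {x : Ω} (hx : IsPrimitiveRoot x (l ^ n)) {i j : ℕ}
    (h : x ^ i = x ^ j) : (i : ZMod (l ^ n)) = j := by
  have : NeZero (l ^ n) := ⟨pow_ne_zero _ (Fact.out : l.Prime).ne_zero⟩
  have hx1 : IsUnit x := hx.isUnit this.1
  obtain ⟨u, rfl⟩ := hx1
  have hu : (u : Ωˣ) ^ i = u ^ j := by
    apply Units.ext
    simpa using h
  rw [pow_eq_pow_iff_modEq] at hu
  rw [ZMod.natCast_eq_natCast_iff]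
  have h2 : l ^ n = orderOf u := by
    rw [hx.eq_orderOf, orderOf_units]
  rwa [h2]

lemma b1_zlPow_one {n : ℕ} (a : ℤ_[l]) : zlPow l n (1 : Ω) a = 1 := one_pow _

lemma b1_zlPow_zero (x : Ω) (hx : x ^ l ^ 0 = 1) (a : ℤ_[l]) : zlPow l 0 x a = 1 := by
  have h : x = 1 := by simpa using hx
  rw [h]
  exact b1_zlPow_one a

lemma b1_zlPow_pow_eq {n : ℕ} {x : Ω} (hx : x ^ l ^ n = 1) (a : ℤ_[l]) :
    zlPow l n x a ^ l ^ n = 1 := by
  rw [zlPow, ← pow_mul, mul_comm, pow_mul, hx, one_pow]

end b1aux

/-- TASK B1 (first statement). Powers with exponents in `ℤ_l`.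

PROOF. `x ^ (l ^ n) = 1`, so `x ^ k` depends only on `k` modulo `l ^ n`, and
`PadicInt.toZModPow n : ℤ_[l] →+* ZMod (l ^ n)` is a ring homomorphism; use
`ZMod.natCast_zmod_val`/`ZMod.natCast_eq_natCast_iff` and `pow_eq_pow_iff_modEq`-style lemmas. -/
theorem zlPow_add {n : ℕ} {x : Ω} (hx : x ^ l ^ n = 1) (a b : ℤ_[l]) :
    zlPow l n x (a + b) = zlPow l n x a * zlPow l n x b := by
  have : NeZero (l ^ n) := ⟨pow_ne_zero _ (Fact.out : l.Prime).ne_zero⟩
  rw [zlPow, zlPow, zlPow, ← pow_add]
  apply b1_pow_eq hx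
  rw [Nat.cast_add, ZMod.natCast_zmod_val, ZMod.natCast_zmod_val, ZMod.natCast_zmod_val, map_add]

theorem zlPow_mul {n : ℕ} {x : Ω} (hx : x ^ l ^ n = 1) (a b : ℤ_[l]) :
    zlPow l n x (a * b) = zlPow l n (zlPow l n x a) b := by
  have : NeZero (l ^ n) := ⟨pow_ne_zero _ (Fact.out : l.Prime).ne_zero⟩
  rw [zlPow, zlPow, zlPow, ← pow_mul]
  apply b1_pow_eq hx
  rw [Nat.cast_mul, ZMod.natCast_zmod_val, ZMod.natCast_zmod_val, ZMod.natCast_zmod_val, map_mul]

theorem zlPow_natCast {n : ℕ} {x : Ω} (hx : x ^ l ^ n = 1) (k : ℕ) :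
    zlPow l n x (k : ℤ_[l]) = x ^ k := by
  have : NeZero (l ^ n) := ⟨pow_ne_zero _ (Fact.out : l.Prime).ne_zero⟩
  rw [zlPow]
  apply b1_pow_eq hx
  rw [ZMod.natCast_zmod_val, map_natCast]

theorem zlPow_pow {n : ℕ} {x : Ω} (hx : x ^ l ^ n = 1) (a : ℤ_[l]) (k : ℕ) :
    zlPow l n (x ^ k) a = zlPow l n x a ^ k := by
  rw [zlPow, zlPow, ← pow_mul, ← pow_mul, mul_comm]

/-- TASK B1 (second statement). Compatibility between the levels.

PROOF. `(PadicInt.toZModPow (n+1) a).val ≡ (PadicInt.toZModPow n a).val` modulo `l ^ n`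
(`PadicInt.cast_toZModPow`/`PadicInt.zmod_cast_comp_toZModPow`), and `(x^l)^(l^n) = 1`. -/
theorem zlPow_succ {n : ℕ} {x : Ω} (hx : x ^ l ^ (n + 1) = 1) (a : ℤ_[l]) :
    zlPow l (n + 1) x a ^ l = zlPow l n (x ^ l) a := by
  have : NeZero (l ^ n) := ⟨pow_ne_zero _ (Fact.out : l.Prime).ne_zero⟩
  have : NeZero (l ^ (n + 1)) := ⟨pow_ne_zero _ (Fact.out : l.Prime).ne_zero⟩
  have hx' : (x ^ l) ^ l ^ n = 1 := by
    rw [← pow_mul, ← pow_succ']
    exact hx
  rw [zlPow, zlPow, ← pow_mul, mul_comm, pow_mul]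
  apply b1_pow_eq hx'
  rw [ZMod.natCast_zmod_val, ZMod.natCast_val, PadicInt.cast_toZModPow n (n + 1) (Nat.le_succ n)]

theorem map_zlPow (φ : Ω →+* Ω') {n : ℕ} (x : Ω) (a : ℤ_[l]) :
    φ (zlPow l n x a) = zlPow l n (φ x) a := by
  rw [zlPow, zlPow, map_pow]

/-- TASK B1 (third statement). For a primitive root the exponent is unique modulo `l ^ n`. -/
theorem zlPow_eq_iff {n : ℕ} {x : Ω} (hx : IsPrimitiveRoot x (l ^ n)) (a b : ℤ_[l]) :
    zlPow l n x a = zlPow l n x b ↔ PadicInt.toZModPow n a = PadicInt.toZModPow n b := by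
  have : NeZero (l ^ n) := ⟨pow_ne_zero _ (Fact.out : l.Prime).ne_zero⟩
  constructor
  · intro h
    have h2 := b1_eq_of_pow hx h
    rwa [ZMod.natCast_zmod_val, ZMod.natCast_zmod_val] at h2
  · intro h
    rw [zlPow, zlPow, h]

/-- TASK B1 (fourth statement). Compatible systems of roots: if `x (n+1) ^ l = x n`, `x 0 = 1` and
`ε` is a compatible system of primitive roots of unity, then there is a unique `a : ℤ_[l]` with
`x n = zlPow (ε n) a` for all `n`.

PROOF. `x n ^ l ^ n = x 0 = 1`, so `x n = ε n ^ k n` with `k n : ZMod (l ^ n)` unique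
(`IsPrimitiveRoot.eq_pow_of_pow_eq_one`); compatibility: `ε n ^ k (n+1) = (ε (n+1) ^ k (n+1)) ^ l
= x (n+1) ^ l = x n = ε n ^ k n`, so `k (n+1) ≡ k n` modulo `l ^ n`; take the limit
(`PadicInt.ofIntSeq`, or `PadicInt.lift`-style constructions; see
`PadicInt.toZModPow_ofIntSeq_of_pow_dvd_sub`). -/
theorem exists_zl {ε : ℕ → Ω} (hε : IsEps Ω l ε) {x : ℕ → Ω} (h0 : x 0 = 1)
    (hx : ∀ n, x (n + 1) ^ l = x n) : ∃! a : ℤ_[l], ∀ n, x n = zlPow l n (ε n) a := by
  have hx1 : ∀ n, x n ^ l ^ n = 1 := by
    intro n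
    induction n with
    | zero => rw [h0, one_pow]
    | succ n ih => rw [pow_succ', pow_mul, hx, ih]
  have hk : ∀ n, ∃ k : ℕ, ε n ^ k = x n := by
    intro n
    have : NeZero (l ^ n) := ⟨pow_ne_zero _ (Fact.out : l.Prime).ne_zero⟩
    obtain ⟨i, _, hi⟩ := (hε.1 n).eq_pow_of_pow_eq_one (hx1 n)
    exact ⟨i, hi⟩
  choose k hk using hk
  have hcomp : ∀ n, (l : ℤ) ^ n ∣ (k (n + 1) : ℤ) - (k n : ℤ) := by
    intro n
    have h1 : ε n ^ k (n + 1) = ε n ^ k n := by
      rw [hk n, ← hε.2 n, ← hx n, ← hk (n + 1), ← pow_mul, ← pow_mul, mul_comm]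
    have h2 := b1_eq_of_pow (hε.1 n) h1
    have h3 : ((k n : ℤ) : ZMod (l ^ n)) = ((k (n + 1) : ℤ) : ZMod (l ^ n)) := by
      rw [Int.cast_natCast, Int.cast_natCast, h2]
    rw [ZMod.intCast_eq_intCast_iff_dvd_sub] at h3
    simpa using h3
  refine ⟨PadicInt.ofIntSeq _ (PadicInt.isCauSeq_padicNorm_of_pow_dvd_sub
    (fun n => (k n : ℤ)) l hcomp), fun n => ?_, fun b hb => ?_⟩
  · have : NeZero (l ^ n) := ⟨pow_ne_zero _ (Fact.out : l.Prime).ne_zero⟩
    rw [zlPow, PadicInt.toZModPow_ofIntSeq_of_pow_dvd_sub (fun n => (k n : ℤ)) l hcomp n, ← hk n]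
    apply b1_pow_eq (hε.1 n).pow_eq_one
    rw [ZMod.natCast_zmod_val, Int.cast_natCast]
  · apply PadicInt.ext_of_toZModPow.1
    intro n
    have : NeZero (l ^ n) := ⟨pow_ne_zero _ (Fact.out : l.Prime).ne_zero⟩
    rw [PadicInt.toZModPow_ofIntSeq_of_pow_dvd_sub (fun n => (k n : ℤ)) l hcomp n]
    have h1 := hb n
    rw [zlPow, ← hk n] at h1
    have h2 := b1_eq_of_pow (hε.1 n) h1
    rw [ZMod.natCast_zmod_val] at h2
    rw [← h2, Int.cast_natCast]

section

variable [IsAlgClosed Ω] [IsAlgClosed Ω']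

/-- TASK B1 (fifth statement). Existence of the compatible system.

PROOF. Recursively: `ε 0 = 1`, `ε 1` a primitive `l`-th root of unity (it exists, as `Ω` is
algebraically closed and `l ≠ 0`: `HasEnoughRootsOfUnity`), `ε (n+1)` an `l`-th root of `ε n`
(`IsAlgClosed.exists_pow_nat_eq`); if `ε n` is a primitive `l^n`-th root, `n ≥ 1`, then its `l`-th root
is a primitive `l^(n+1)`-th root of unity. -/
theorem exists_isEps (hl : (l : Ω) ≠ 0) : ∃ ε : ℕ → Ω, IsEps Ω l ε := by
  have hlp : l.Prime := Fact.out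
  have : NeZero (l : Ω) := ⟨hl⟩
  obtain ⟨ζ, hζ⟩ := HasEnoughRootsOfUnity.exists_primitiveRoot Ω l
  choose r hr using fun y : Ω => IsAlgClosed.exists_pow_nat_eq y hlp.pos
  let s : ℕ → Ω := fun n => Nat.rec ζ (fun _ y => r y) n
  have hs : ∀ n, s (n + 1) ^ l = s n := fun n => hr (s n)
  have hs1 : ∀ n, s n ^ l ^ n = ζ := by
    intro n
    induction n with
    | zero =>
      rw [pow_zero, pow_one]
      rfl
    | succ n ih => rw [pow_succ', pow_mul, hs, ih]
  have hprim : ∀ n, IsPrimitiveRoot (s n) (l ^ (n + 1)) := by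
    intro n
    have h1 : orderOf (s n) = l ^ (n + 1) := by
      apply orderOf_eq_prime_pow
      · rw [hs1 n]
        exact hζ.ne_one hlp.one_lt
      · rw [pow_succ, pow_mul, hs1 n, hζ.pow_eq_one]
    rw [← h1]
    exact IsPrimitiveRoot.orderOf (s n)
  refine ⟨fun n => Nat.casesOn n 1 s, fun n => ?_, fun n => ?_⟩
  · cases n with
    | zero =>
      change IsPrimitiveRoot (1 : Ω) (l ^ 0)
      rw [pow_zero]
      exact IsPrimitiveRoot.one
    | succ n => exact hprim n
  · cases n with
    | zero =>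
      change s 0 ^ l = 1
      exact hζ.pow_eq_one
    | succ n => exact hs n

theorem isEps_eps (hl : (l : Ω) ≠ 0) : IsEps Ω l (eps Ω l) := by
  have h := exists_isEps (Ω := Ω) (l := l) hl
  rw [eps, dif_pos h]
  exact h.choose_spec

/-- TASK B1 (sixth statement). The defining property of the twist.

PROOF. `exists_zl` for `ε = eps Ω' l` and `x n = φ (eps Ω l n)` gives `a : ℤ_[l]`; it is a unit: each
`x n` is a primitive root, so `a` is nonzero modulo `l` (`n = 1`), `PadicInt.isUnit_iff`. So the
condition in the definition of `twist` is satisfied (`dif_pos`). (`(l : Ω') ≠ 0`, since `φ` is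
injective.) -/
theorem twist_spec (hl : (l : Ω) ≠ 0) (φ : Ω →+* Ω') (n : ℕ) :
    φ (eps Ω l n) = zlPow l n (eps Ω' l n) (twist l φ : ℤ_[l]) := by
  have hl' : (l : Ω') ≠ 0 := by
    intro h
    apply hl
    apply φ.injective
    rw [map_natCast, map_zero, h]
  have hε := isEps_eps (Ω := Ω) (l := l) hl
  have hε' := isEps_eps (Ω := Ω') (l := l) hl'
  have h0 : φ (eps Ω l 0) = 1 := by
    have h := (hε.1 0).pow_eq_one
    rw [pow_zero, pow_one] at h
    rw [h, map_one]
  obtain ⟨a, ha, -⟩ := exists_zl hε' (x := fun n => φ (eps Ω l n)) h0 fun n => by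
    rw [← map_pow, hε.2 n]
  have hu : IsUnit a := by
    rw [← IsLocalRing.notMem_maximalIdeal, PadicInt.maximalIdeal_eq_span_p,
      ← pow_one (l : ℤ_[l]), ← PadicInt.ker_toZModPow, RingHom.mem_ker]
    intro h
    have h1 := ha 1
    rw [zlPow, h] at h1
    have hp : IsPrimitiveRoot (φ (eps Ω l 1)) (l ^ 1) :=
      (hε.1 1).map_of_injective φ.injective
    rw [ZMod.val_zero, pow_zero] at h1
    refine hp.ne_one ?_ h1
    rw [pow_one]
    exact (Fact.out : l.Prime).one_lt
  obtain ⟨u, rfl⟩ := hu
  have h : ∃ a : ℤ_[l]ˣ, ∀ n, φ (eps Ω l n) = zlPow l n (eps Ω' l n) a := ⟨u, ha⟩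
  rw [twist, dif_pos h]
  exact h.choose_spec n

theorem twist_unique (hl : (l : Ω) ≠ 0) (φ : Ω →+* Ω') {a : ℤ_[l]ˣ}
    (h : ∀ n, φ (eps Ω l n) = zlPow l n (eps Ω' l n) (a : ℤ_[l])) : a = twist l φ := by
  have hl' : (l : Ω') ≠ 0 := by
    intro h
    apply hl
    apply φ.injective
    rw [map_natCast, map_zero, h]
  have hε' := isEps_eps (Ω := Ω') (l := l) hl'
  apply Units.ext
  apply PadicInt.ext_of_toZModPow.1
  intro n
  rw [← zlPow_eq_iff (hε'.1 n), ← h n, twist_spec hl φ n]

theorem twist_comp {Ω'' : Type w} [Field Ω''] [IsAlgClosed Ω''] (hl : (l : Ω) ≠ 0)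
    (φ : Ω →+* Ω') (ψ : Ω' →+* Ω'') : twist l (ψ.comp φ) = twist l ψ * twist l φ := by
  have hl' : (l : Ω') ≠ 0 := by
    intro h
    apply hl
    apply φ.injective
    rw [map_natCast, map_zero, h]
  have hl'' : (l : Ω'') ≠ 0 := by
    intro h
    apply hl'
    apply ψ.injective
    rw [map_natCast, map_zero, h]
  have hε'' := isEps_eps (Ω := Ω'') (l := l) hl''
  refine (twist_unique hl (ψ.comp φ) fun n => ?_).symm
  rw [RingHom.comp_apply, twist_spec hl φ n, map_zlPow, twist_spec hl' ψ n, Units.val_mul,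
    zlPow_mul (hε''.1 n).pow_eq_one]

theorem twist_id (hl : (l : Ω) ≠ 0) : twist l (RingHom.id Ω) = 1 := by
  have hε := isEps_eps (Ω := Ω) (l := l) hl
  refine (twist_unique hl (RingHom.id Ω) fun n => ?_).symm
  have h := zlPow_natCast (hε.1 n).pow_eq_one 1
  rw [Nat.cast_one, pow_one] at h
  rw [RingHom.id_apply, Units.val_one, h]

/-- TASK B1 (seventh statement). The twist of an automorphism is the cyclotomic character
(`cyclotomicCharacter.spec`). -/
theorem twist_aut (hl : (l : Ω) ≠ 0) (g : Ω ≃+* Ω) :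
    twist l (g : Ω →+* Ω) = cyclotomicCharacter Ω l g := by
  have hε := isEps_eps (Ω := Ω) (l := l) hl
  have : ∀ i, HasEnoughRootsOfUnity Ω (l ^ i) := fun i =>
    ⟨⟨_, hε.1 i⟩, by
      have : NeZero (l ^ i) := ⟨pow_ne_zero _ (Fact.out : l.Prime).ne_zero⟩
      exact rootsOfUnity.isCyclic _ _⟩
  refine (twist_unique hl (g : Ω →+* Ω) fun n => ?_).symm
  exact cyclotomicCharacter.spec l g _ (hε.1 n).pow_eq_one

/-- TASK B1 (eighth statement). The twist of a Frobenius endomorphism.

PROOF. `twist_unique` with the unit attached to `q`: `zlPow_natCast`; `q` is prime to `l`: otherwise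
`φ (eps 1) = (eps 1) ^ q = 1`, contradicting the injectivity of `φ`. -/
theorem twist_frob (hl : (l : Ω) ≠ 0) (φ : Ω →+* Ω) (q : ℕ) (hφ : ∀ x, φ x = x ^ q) :
    ((twist l φ : ℤ_[l]ˣ) : ℤ_[l]) = q := by
  have hε := isEps_eps (Ω := Ω) (l := l) hl
  have hlp : l.Prime := Fact.out
  have hq : ¬ l ∣ q := by
    rintro ⟨k, rfl⟩
    have h1 : φ (eps Ω l 1) = 1 := by
      have h2 := (hε.1 1).pow_eq_one
      rw [pow_one] at h2
      rw [hφ, pow_mul, h2, one_pow]
    have h2 : eps Ω l 1 = 1 := φ.injective (by rw [h1, map_one])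
    refine (hε.1 1).ne_one ?_ h2
    rw [pow_one]
    exact hlp.one_lt
  have hu : IsUnit (q : ℤ_[l]) := by
    rw [PadicInt.isUnit_iff, PadicInt.norm_natCast_eq_one_iff]
    exact (Nat.Prime.coprime_iff_not_dvd hlp).2 hq
  obtain ⟨u, hu⟩ := hu
  rw [← hu]
  congr 1
  refine (twist_unique hl φ fun n => ?_).symm
  rw [hu, zlPow_natCast (hε.1 n).pow_eq_one, hφ]

end

end GC
end

section

/-!
# Pullbacks of cochains
-/

namespace GC

universe u v w

variable {K L F : Type u} [Field K] [Field L] [Field F] {l : ℕ} [Fact l.Prime] {w : ℕ}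

/-- TASK B2 (first statement). The homomorphisms of Galois groups are continuous.

PROOF. By `continuous_of_continuousAt_one` and `krullTopology_mem_nhds_one_iff`: let `E / K` be a
finite extension in `AlgebraicClosure K`. The subfield `E'` of `AlgebraicClosure L` generated over
`L` by `φ (E)` is finite over `L` (generated by the finitely many algebraic elements `φ (basis)`), and
if `h` fixes `E'` then `φ (pull h x) = h (φ x) = φ x` for `x ∈ E`, so `pull h` fixes `E`. -/
theorem continuous_pull {f : K →+* L} {φ : AlgebraicClosure K →+* AlgebraicClosure L}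
    (hφ : Ext f φ) : Continuous (pull hφ) := by
  apply continuous_of_continuousAt_one
  intro s hs
  rw [map_one] at hs
  rw [Filter.mem_map]
  rw [krullTopology_mem_nhds_one_iff] at hs ⊢
  obtain ⟨E, hE, hEs⟩ := hs
  let b := Module.finBasis K E
  refine ⟨IntermediateField.adjoin L (Set.range fun i => φ (b i : AlgebraicClosure K)),
    IntermediateField.finiteDimensional_adjoin fun x _ => Algebra.IsIntegral.isIntegral x, ?_⟩
  intro h hh
  apply hEs
  rw [SetLike.mem_coe, IntermediateField.mem_fixingSubgroup_iff] at hh ⊢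
  intro x hx
  apply φ.injective
  have h1 : φ x ∈ IntermediateField.adjoin L
      (Set.range fun i => φ (b i : AlgebraicClosure K)) := by
    have h2 : (⟨x, hx⟩ : E) = ∑ i, b.repr ⟨x, hx⟩ i • b i := (b.sum_repr _).symm
    have h3 : x = ∑ i, b.repr ⟨x, hx⟩ i • (b i : AlgebraicClosure K) := by
      have h4 := congrArg (E.val) h2
      rw [map_sum] at h4
      simp only [map_smul] at h4
      exact h4
    rw [h3, map_sum]
    refine sum_mem fun i _ => ?_
    rw [Algebra.smul_def, map_mul, hφ]
    exact mul_mem (IntermediateField.algebraMap_mem _ _)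
      (IntermediateField.subset_adjoin L _ ⟨i, rfl⟩)
  have h5 := hh (φ x) h1
  have h6 := pull_spec hφ h x
  change φ (pull hφ h x) = φ x
  rw [h6]
  exact h5

/-- TASK B2 (second statement). Composition (`eq_pull`, `pull_spec`). -/
theorem pull_comp {f : K →+* L} {g : L →+* F} {φ : AlgebraicClosure K →+* AlgebraicClosure L}
    {ψ : AlgebraicClosure L →+* AlgebraicClosure F} (hφ : Ext f φ) (hψ : Ext g ψ) (h : AbsGal F) :
    pull (hφ.comp hψ) h = pull hφ (pull hψ h) := by
  refine (eq_pull (hφ.comp hψ) h fun x => ?_).symm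
  rw [RingHom.comp_apply, RingHom.comp_apply, pull_spec, pull_spec]

theorem pull_id (h : AbsGal K) : pull (Ext.id (K := K)) h = h :=
  (eq_pull _ h fun _ => rfl).symm

omit [Fact l.Prime] in
theorem b2_ne (hl : (l : K) ≠ 0) : (l : AlgebraicClosure K) ≠ 0 := by
  intro h
  apply hl
  apply (algebraMap K (AlgebraicClosure K)).injective
  rw [map_natCast, map_zero]
  exact h

/-- TASK B2 (third statement). The cyclotomic characters correspond.

PROOF. `φ ∘ pull h = h ∘ φ`; take twists (`twist_comp`, `twist_aut`), and cancel the unit `twist φ` in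
the commutative group `ℤ_[l]ˣ`. -/
theorem cyc_pull (hl : (l : K) ≠ 0) {f : K →+* L}
    {φ : AlgebraicClosure K →+* AlgebraicClosure L} (hφ : Ext f φ) (h : AbsGal L) :
    cyclotomicCharacter (AlgebraicClosure K) l (pull hφ h : AlgebraicClosure K ≃+* _) =
      cyclotomicCharacter (AlgebraicClosure L) l (h : AlgebraicClosure L ≃+* _) := by
  have hK := b2_ne hl
  have hL : (l : AlgebraicClosure L) ≠ 0 := by
    intro h0
    apply hK
    apply φ.injective
    rw [map_natCast, map_zero]
    exact h0
  have h1 : φ.comp ((pull hφ h : AlgebraicClosure K ≃+* AlgebraicClosure K) :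
      AlgebraicClosure K →+* AlgebraicClosure K) =
      ((h : AlgebraicClosure L ≃+* AlgebraicClosure L) :
        AlgebraicClosure L →+* AlgebraicClosure L).comp φ :=
    RingHom.ext fun x => pull_spec hφ h x
  have h2 : twist l _ = twist l _ := congrArg (twist l) h1
  rw [twist_comp hK, twist_comp hK, twist_aut hK, twist_aut hL, mul_comm] at h2
  exact mul_right_cancel h2

/-- TASK B2 (fourth statement). The pullback of a cochain is a cochain.

PROOF. Equivariance: `c (pull (g x)) = pull g • c (pull x)` and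
`pull g • m = (cyc (pull g))^w • m = (cyc g)^w • m = g • m` (`cyc_pull`, `Tw.smul_def`), and the
scalars commute. Smoothness: the preimage of an open subgroup under the continuous homomorphism
`pull` is open. -/
theorem pullC_mem (hl : (l : K) ≠ 0) {f : K →+* L}
    {φ : AlgebraicClosure K →+* AlgebraicClosure L} (hφ : Ext f φ) {n : ℕ}
    {c : (Fin (n + 1) → AbsGal K) → Tw l w}
    (hc : c ∈ Coch (Tw l w) (⊤ : Subgroup (AbsGal K)) ⊥ n) :
    pullC l w hφ n c ∈ Coch (Tw l w) (⊤ : Subgroup (AbsGal L)) ⊥ n := by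
  rw [mem_coch] at hc ⊢
  obtain ⟨h1, h2, U, hU, hU'⟩ := hc
  refine ⟨fun g _ x => ?_, fun x u hu => ?_, U.comap (pull hφ), ?_, fun x u hu => ?_⟩
  · rw [pullC_apply, pullC_apply]
    have h3 : (fun i => pull hφ (g * x i)) = fun i => pull hφ g * pull hφ (x i) :=
      funext fun i => map_mul _ _ _
    rw [h3, h1 (pull hφ g) trivial, Tw.smul_def, Tw.smul_def, cyc_pull hl hφ g, smul_comm]
  · have h3 : (fun i => x i * u i) = x := funext fun i => by
      rw [(Subgroup.mem_bot.1 (hu i)), mul_one]
    rw [h3]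
  · exact hU.preimage (continuous_pull hφ)
  · rw [pullC_apply, pullC_apply]
    have h3 : (fun i => pull hφ (x i * u i)) = fun i => pull hφ (x i) * pull hφ (u i) :=
      funext fun i => map_mul _ _ _
    rw [h3, hU' (fun i => pull hφ (x i)) (fun i => pull hφ (u i)) fun i => hu i]

/-- TASK B2 (fifth statement). Compatibility with the differential. -/
theorem d_pullC {f : K →+* L} {φ : AlgebraicClosure K →+* AlgebraicClosure L} (hφ : Ext f φ)
    {n : ℕ} (c : (Fin (n + 1) → AbsGal K) → Tw l w) :
    d (pullC l w hφ n c) = pullC l w hφ (n + 1) (d c) := by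
  have h1 := d_map (DistribSMul.toAddMonoidHom (Tw l w)
    (((twist l φ) ^ w : ℤ_[l]ˣ) : ℤ_[l])) (fun x : Fin (n + 1) → AbsGal L =>
      c fun i => pull hφ (x i))
  exact h1

theorem pullC_cocyc (hl : (l : K) ≠ 0) {f : K →+* L}
    {φ : AlgebraicClosure K →+* AlgebraicClosure L} (hφ : Ext f φ) {n : ℕ}
    {c : (Fin (n + 1) → AbsGal K) → Tw l w} (hc : c ∈ Cocyc (AbsGal K) (Tw l w) n) :
    pullC l w hφ n c ∈ Cocyc (AbsGal L) (Tw l w) n := by
  obtain ⟨h1, h2⟩ := hc
  refine ⟨pullC_mem hl hφ h1, ?_⟩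
  have h3 : d c = 0 := h2
  change d (pullC l w hφ n c) = 0
  rw [d_pullC, h3, map_zero]

theorem pullC_cobd (hl : (l : K) ≠ 0) {f : K →+* L}
    {φ : AlgebraicClosure K →+* AlgebraicClosure L} (hφ : Ext f φ) {n : ℕ}
    {c : (Fin (n + 1) → AbsGal K) → Tw l w} (hc : c ∈ Cobd (AbsGal K) (Tw l w) n) :
    pullC l w hφ n c ∈ Cobd (AbsGal L) (Tw l w) n := by
  cases n with
  | zero =>
    have h0 : c = 0 := hc
    rw [h0, map_zero]
    exact zero_mem _
  | succ n =>
    obtain ⟨b, hb, hb'⟩ := hc
    refine ⟨pullC l w hφ n b, pullC_mem hl hφ hb, ?_⟩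
    have h1 : d b = c := hb'
    change d (pullC l w hφ n b) = pullC l w hφ (n + 1) c
    rw [d_pullC, h1]

/-- TASK B2 (sixth statement). Functoriality on cochains (`twist_comp`, `pull_comp`). -/
theorem pullC_comp (hl : (l : K) ≠ 0) {f : K →+* L} {g : L →+* F}
    {φ : AlgebraicClosure K →+* AlgebraicClosure L}
    {ψ : AlgebraicClosure L →+* AlgebraicClosure F} (hφ : Ext f φ) (hψ : Ext g ψ) {n : ℕ}
    (c : (Fin (n + 1) → AbsGal K) → Tw l w) :
    pullC l w (hφ.comp hψ) n c = pullC l w hψ n (pullC l w hφ n c) := by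
  funext x
  rw [pullC_apply, pullC_apply, pullC_apply, twist_comp (b2_ne hl), smul_smul, mul_pow,
    Units.val_mul]
  have h3 : (fun i => pull (hφ.comp hψ) (x i)) = fun i => pull hφ (pull hψ (x i)) :=
    funext fun i => pull_comp hφ hψ (x i)
  rw [h3]

theorem pullC_id (hl : (l : K) ≠ 0) {n : ℕ} (c : (Fin (n + 1) → AbsGal K) → Tw l w) :
    pullC l w (Ext.id (K := K)) n c = c := by
  funext x
  have h3 : (fun i => pull (Ext.id (K := K)) (x i)) = x := funext fun i => pull_id (x i)
  rw [pullC_apply, h3, twist_id (b2_ne hl), one_pow, Units.val_one, one_smul]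

/-- TASK B2 (seventh statement). The action of a Frobenius endomorphism.

PROOF. Take the embedding `φ x = x ^ q` of the algebraic closure (it is a ring homomorphism: `q` is a
power of the characteristic); it commutes with all automorphisms, so `pull = id`; and
`twist φ = q` (`twist_frob`). -/
theorem pullC_frob {p : ℕ} [Fact p.Prime] [CharP K p] (hpl : p ≠ l) (f : K →+* K) (r : ℕ)
    (hf : ∀ x, f x = x ^ p ^ r) :
    ∃ (φ : AlgebraicClosure K →+* AlgebraicClosure K) (hφ : Ext f φ), ∀ (n : ℕ)
      (c : (Fin (n + 1) → AbsGal K) → Tw l w), pullC l w hφ n c = ((p ^ r) ^ w : ℕ) • c := by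
  have hl : (l : K) ≠ 0 := by
    intro h0
    rw [CharP.cast_eq_zero_iff K p l] at h0
    exact hpl ((Nat.prime_dvd_prime_iff_eq Fact.out Fact.out).1 h0)
  have hch : CharP (AlgebraicClosure K) p := charP_of_injective_algebraMap
    (algebraMap K (AlgebraicClosure K)).injective p
  have hφ : Ext f (iterateFrobenius (AlgebraicClosure K) p r) := fun a => by
    rw [iterateFrobenius_def, hf, map_pow]
  refine ⟨iterateFrobenius (AlgebraicClosure K) p r, hφ, fun n c => ?_⟩
  funext x
  have h3 : (fun i => pull hφ (x i)) = x := funext fun i =>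
    (eq_pull hφ (x i) fun y => by
      rw [iterateFrobenius_def, iterateFrobenius_def, map_pow]).symm
  have h4 := twist_frob (b2_ne hl) (iterateFrobenius (AlgebraicClosure K) p r) (p ^ r)
    fun y => iterateFrobenius_def p r y
  rw [pullC_apply, h3, Units.val_pow_eq_pow_val, h4, ← Nat.cast_pow, Nat.cast_smul_eq_nsmul]
  rfl

end GC
end

section

/-!
# Independence of the embedding of the algebraic closures
-/

namespace GC

universe u v w

variable {K L F : Type u} [Field K] [Field L] [Field F] {l : ℕ} [Fact l.Prime] {w : ℕ}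

/-- TASK B3 (first statement). Two extensions differ by an automorphism.

PROOF. `φ' x` is a root of the image of the minimal polynomial of `x` over `K`, which splits in
`AlgebraicClosure K`; so `φ' x` is in the range of `φ`. Define `g` by `φ (g x) = φ' x`
(`AlgHom.restrictNormal'`-style: the `K`-algebra homomorphisms `φ, φ'` into `AlgebraicClosure L`, an
algebra over `K` through `f`; it is bijective since it is an endomorphism of an algebraic extension,
`Algebra.IsAlgebraic.algHom_bijective`). -/
theorem exists_aut {f : K →+* L} {φ φ' : AlgebraicClosure K →+* AlgebraicClosure L}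
    (hφ : Ext f φ) (hφ' : Ext f φ') : ∃ g : AbsGal K, ∀ x, φ' x = φ (g x) := by
  let _ := ((algebraMap L (AlgebraicClosure L)).comp f).toAlgebra
  let _ := φ.toAlgebra
  have : IsScalarTower K (AlgebraicClosure K) (AlgebraicClosure L) :=
    IsScalarTower.of_algebraMap_eq fun a => (hφ a).symm
  let ψ : AlgebraicClosure K →ₐ[K] AlgebraicClosure L := { φ' with commutes' := hφ' }
  refine ⟨AlgHom.restrictNormal' ψ (AlgebraicClosure K), fun x => ?_⟩
  exact (AlgHom.restrictNormal_commutes ψ (AlgebraicClosure K) x).symm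

private theorem B3_adm_mul {K : Type u} [Field K] (g : AbsGal K) :
    Adm (⊤ : Subgroup (AbsGal K)) ⊥ (fun x : AbsGal K => x * g) where
  equi s _ x := mul_assoc s x g
  cosets x n hn := by
    rw [Subgroup.mem_bot] at hn
    rw [hn, mul_one, inv_mul_cancel]
    exact one_mem _
  cont U hU := by
    refine ⟨U.comap (MulAut.conj g⁻¹).toMonoidHom, ?_, fun x v hv => ?_⟩
    · have h : Continuous fun x : AbsGal K => g⁻¹ * x * g := by fun_prop
      have h2 := hU.preimage h
      have h3 : ((U.comap (MulAut.conj g⁻¹).toMonoidHom : Subgroup (AbsGal K)) :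
          Set (AbsGal K)) = (fun x : AbsGal K => g⁻¹ * x * g) ⁻¹' (U : Set (AbsGal K)) := by
        ext x
        simp [MulAut.conj]
      rw [h3]
      exact h2
    · have h4 : (x * g)⁻¹ * (x * v * g) = g⁻¹ * v * g := by group
      change (x * g)⁻¹ * (x * v * g) ∈ U
      rw [h4]
      simpa [MulAut.conj] using hv

/-- TASK B3 (second statement). The class of the pullback of a cocycle does not depend on the
extension.

PROOF. Let `φ' = φ ∘ g`. Then `pull hφ' h = g⁻¹ * pull hφ h * g` (`eq_pull`), and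
`twist φ' = twist φ * cyc g` (`twist_comp`, `twist_aut`). By equivariance
`c (g⁻¹ y g) = g⁻¹ • c (y g)` for tuples `y`, so `pullC hφ' c x = (twist φ)^w • (cyc g)^w •
g⁻¹ • c ((pull hφ x) g) = pullC hφ (c ∘ (· * g)) x`. The maps `id` and `· * g` of `AbsGal K` are
admissible (`Adm ⊤ ⊥`: `(x g)⁻¹ * (x v g) = g⁻¹ v g`). For `n = 0`, `c` is constant
(`const_of_d_eq_zero`), so `c ∘ (· * g) = c`. For `n = m + 1`, `homotopy` (A17) gives
`c ∘ (· * g) - c = d p`, so `pullC hφ c - pullC hφ' c = - pullC hφ (d p) = - d (pullC hφ p)`. -/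
theorem pullC_indep (hl : (l : K) ≠ 0) {f : K →+* L}
    {φ φ' : AlgebraicClosure K →+* AlgebraicClosure L} (hφ : Ext f φ) (hφ' : Ext f φ') {n : ℕ}
    {c : (Fin (n + 1) → AbsGal K) → Tw l w} (hc : c ∈ Cocyc (AbsGal K) (Tw l w) n) :
    pullC l w hφ n c - pullC l w hφ' n c ∈ Cobd (AbsGal L) (Tw l w) n := by
  obtain ⟨hc1, hc2⟩ := AddSubgroup.mem_inf.1 hc
  have hd : d c = 0 := hc2
  obtain ⟨g, hg⟩ := exists_aut hφ hφ'
  have hpull : ∀ h : AbsGal L, pull hφ' h = g⁻¹ * pull hφ h * g := by
    intro h
    symm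
    apply eq_pull
    intro x
    rw [hg, hg, AlgEquiv.mul_apply, AlgEquiv.mul_apply, ← AlgEquiv.mul_apply g g⁻¹, mul_inv_cancel,
      AlgEquiv.one_apply, pull_spec]
  have hlΩ : (l : AlgebraicClosure K) ≠ 0 := by
    intro h
    apply hl
    apply (algebraMap K (AlgebraicClosure K)).injective
    rw [map_natCast, map_zero]
    exact h
  have htw : twist l φ' = twist l φ *
      cyclotomicCharacter (AlgebraicClosure K) l (g : AlgebraicClosure K ≃+* _) := by
    have h1 : φ' = φ.comp ((g : AlgebraicClosure K ≃+* AlgebraicClosure K) :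
        AlgebraicClosure K →+* AlgebraicClosure K) := RingHom.ext hg
    rw [h1, twist_comp hlΩ, twist_aut hlΩ]
  have hkey : pullC l w hφ' n c = pullC l w hφ n (fun x => c fun i => x i * g) := by
    funext x
    rw [pullC_apply, pullC_apply]
    have h2 : (c fun i => pull hφ' (x i)) = g⁻¹ • c fun i => pull hφ (x i) * g := by
      rw [← hc1.1 g⁻¹ (Subgroup.mem_top _) (fun i => pull hφ (x i) * g)]
      congr 1
      funext i
      rw [hpull, mul_assoc]
    rw [h2, htw, mul_pow, Units.val_mul, mul_smul, ← Tw.smul_def g, smul_inv_smul]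
  rw [hkey, ← map_sub]
  cases n with
  | zero =>
    have h3 : (c - fun x : Fin (0 + 1) → AbsGal K => c fun i => x i * g) = 0 := by
      funext x
      exact sub_eq_zero.2 (const_of_d_eq_zero hd _ _)
    rw [h3, map_zero]
    exact zero_mem _
  | succ m =>
    obtain ⟨p, hp, hdp⟩ := homotopy (B3_adm_mul g) (adm_id _ _) hc1 hd
    have h4 : d p = c - fun x : Fin (m + 1 + 1) → AbsGal K => c fun i => x i * g := hdp
    rw [← h4, ← d_pullC]
    exact AddSubgroup.mem_map.2 ⟨pullC l w hφ m p, pullC_mem hl hφ hp, rfl⟩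

end GC
end

section

/-!
# The section of the Galois group of the field of Laurent series
-/

namespace GC

universe u v w

variable (K : Type u) [Field K]

/-- The algebraic closure of the field of Laurent series embeds in the field of Hahn series. -/
lemma exists_psi : ∃ ψ : AlgebraicClosure (LaurentSeries K) →+* HahnSeries ℚ (AlgebraicClosure K),
    ∀ x : LaurentSeries K, ψ (algebraMap _ _ x) = lau (algebraMap K (AlgebraicClosure K)) x := by
  let _ := (lau (algebraMap K (AlgebraicClosure K))).toAlgebra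
  exact ⟨(IsAlgClosed.lift (S := AlgebraicClosure (LaurentSeries K)) (R := LaurentSeries K)
    (M := HahnSeries ℚ (AlgebraicClosure K))).toRingHom,
    fun a => (IsAlgClosed.lift (S := AlgebraicClosure (LaurentSeries K)) (R := LaurentSeries K)
      (M := HahnSeries ℚ (AlgebraicClosure K))).commutes a⟩

/-- An embedding of the algebraic closure of the field of Laurent series in the field of Hahn
series. -/
noncomputable def psi :
    AlgebraicClosure (LaurentSeries K) →+* HahnSeries ℚ (AlgebraicClosure K) :=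
  (exists_psi K).choose

lemma psi_algebraMap (x : LaurentSeries K) :
    psi K (algebraMap _ _ x) = lau (algebraMap K (AlgebraicClosure K)) x :=
  (exists_psi K).choose_spec x

variable {K}

lemma hequiv_lau (g : AbsGal K) (x : LaurentSeries K) :
    hequiv (g : AlgebraicClosure K ≃+* AlgebraicClosure K)
      (lau (algebraMap K (AlgebraicClosure K)) x) = lau (algebraMap K (AlgebraicClosure K)) x := by
  have h := hmap_lau (algebraMap K (AlgebraicClosure K))
    ((g : AlgebraicClosure K ≃+* AlgebraicClosure K) : AlgebraicClosure K →+* AlgebraicClosure K) x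
  have h2 : ((g : AlgebraicClosure K ≃+* AlgebraicClosure K) :
      AlgebraicClosure K →+* AlgebraicClosure K).comp (algebraMap K (AlgebraicClosure K)) =
      algebraMap K (AlgebraicClosure K) := RingHom.ext fun a => g.commutes a
  rw [h2] at h
  exact h

/-- The section of the Galois group of the field of Laurent series: the automorphisms of the
coefficients of the Hahn series. -/
noncomputable def sig : AbsGal K →* AbsGal (LaurentSeries K) where
  toFun g := resAut (psi K) (hequiv (g : AlgebraicClosure K ≃+* AlgebraicClosure K)) fun a => by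
    rw [psi_algebraMap, hequiv_lau]
  map_one' := by
    refine (eq_resAut _ _ _ fun x => ?_).symm
    ext q
    rfl
  map_mul' g h := by
    refine (eq_resAut _ _ _ fun x => ?_).symm
    rw [AlgEquiv.mul_apply, resAut_spec, resAut_spec]
    ext q
    rfl

lemma psi_sig (g : AbsGal K) (y : AlgebraicClosure (LaurentSeries K)) :
    psi K (sig g y) = hequiv (g : AlgebraicClosure K ≃+* AlgebraicClosure K) (psi K y) :=
  resAut_spec _ _ _ _

lemma d3_closed (a : AlgebraicClosure K) : IsClosed {g : AbsGal K | g a = a} := by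
  have h1 : FiniteDimensional K (IntermediateField.adjoin K {a}) :=
    IntermediateField.adjoin.finiteDimensional (Algebra.IsIntegral.isIntegral a)
  have h2 : {g : AbsGal K | g a = a} =
      ((IntermediateField.adjoin K {a}).fixingSubgroup : Set (AbsGal K)) := by
    ext g
    constructor
    · intro hg x
      have h3 := (IntermediateField.forall_mem_adjoin_smul_eq_self_iff K (S := {a}) g).2
        (fun y hy => by
          rw [Set.mem_singleton_iff] at hy
          rw [hy]
          exact hg)
      exact h3 x.1 x.2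
    · intro hg
      exact hg ⟨a, IntermediateField.mem_adjoin_simple_self K a⟩
  rw [h2]
  exact IntermediateField.fixingSubgroup_isClosed _

lemma d3_open (E : IntermediateField (LaurentSeries K) (AlgebraicClosure (LaurentSeries K)))
    [FiniteDimensional (LaurentSeries K) E] :
    IsOpen ((E.fixingSubgroup.comap (sig (K := K)) : Subgroup (AbsGal K)) :
      Set (AbsGal K)) := by
  have hE : IsOpen (E.fixingSubgroup : Set (AbsGal (LaurentSeries K))) :=
    IntermediateField.fixingSubgroup_isOpen E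
  have hfin : Finite (AbsGal (LaurentSeries K) ⧸ E.fixingSubgroup) :=
    Subgroup.quotient_finite_of_isOpen _ hE
  have h1 : E.fixingSubgroup.FiniteIndex := Subgroup.finiteIndex_of_finite_quotient
  have h2 : (E.fixingSubgroup.comap (sig (K := K))).FiniteIndex := by
    constructor
    rw [Subgroup.index_comap]
    exact mt Subgroup.index_eq_zero_of_relIndex_eq_zero h1.index_ne_zero
  apply Subgroup.isOpen_of_isClosed_of_finiteIndex
  have h3 : ((E.fixingSubgroup.comap (sig (K := K)) : Subgroup (AbsGal K)) : Set (AbsGal K)) =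
      ⋂ y ∈ E, ⋂ q : ℚ, {g : AbsGal K | g ((psi K y).coeff q) = (psi K y).coeff q} := by
    ext g
    simp only [Set.mem_iInter]
    constructor
    · intro hg y hy q
      have h4 : sig g y = y := hg ⟨y, hy⟩
      have h5 := psi_sig g y
      rw [h4] at h5
      have h6 := congrArg (fun x : HahnSeries ℚ (AlgebraicClosure K) => x.coeff q) h5
      exact h6.symm
    · intro hg y
      apply (psi K).injective
      change psi K (sig g y.1) = psi K y.1
      rw [psi_sig]
      ext q
      exact hg y.1 y.2 q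
  rw [h3]
  exact isClosed_biInter fun y _ => isClosed_iInter fun q => d3_closed _

/-- TASK D3 (first statement). Continuity of the section.

PROOF. As in B2 it is enough that for each finite extension `E` of `LaurentSeries K` in the algebraic
closure the set of the `g` with `sig g` in its fixing group contains an open subgroup; `E` is generated
by finitely many elements, so it is enough to treat one element `y`: the stabilizer
`U = {g | sig g y = y}` is an open subgroup. By `psi_sig` and the injectivity of `psi`,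
`U = {g | hequiv g (psi y) = psi y} = ⋂ q, {g | g ((psi y).coeff q) = (psi y).coeff q}`, an
intersection of open, hence closed subgroups: `U` is closed. It has finite index: the map
`g ↦ sig g y` has finitely many values (roots of the minimal polynomial of `y`), and its fibres are the
cosets of `U`. So `U` is open (`Subgroup.isOpen_of_isClosed_of_finiteIndex`). -/
theorem continuous_sig : Continuous (sig (K := K)) := by
  apply continuous_of_continuousAt_one
  rw [ContinuousAt, map_one]
  intro A hA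
  rw [krullTopology_mem_nhds_one_iff] at hA
  obtain ⟨E, hE, hEA⟩ := hA
  have h1 := (d3_open E).mem_nhds (one_mem _)
  exact Filter.mem_of_superset h1 fun g hg => hEA hg

variable {l : ℕ} [Fact l.Prime]

/-- TASK D3 (second statement). The cyclotomic characters correspond.

PROOF. `hequiv g ∘ hC = hC ∘ g` (`hmap_C`) and `psi ∘ sig g = hequiv g ∘ psi` (`psi_sig`); take
twists (`twist_comp`, all fields are algebraically closed, `isAlgClosed_hahn`) and cancel in the
commutative group `ℤ_[l]ˣ`: `twist (hequiv g) = twist g = cyc g`, `cyc (sig g) = twist (sig g) =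
twist (hequiv g)` (`twist_aut`). -/
theorem cyc_sig (hl : (l : K) ≠ 0) (g : AbsGal K) :
    cyclotomicCharacter (AlgebraicClosure (LaurentSeries K)) l
        (sig g : AlgebraicClosure (LaurentSeries K) ≃+* _) =
      cyclotomicCharacter (AlgebraicClosure K) l (g : AlgebraicClosure K ≃+* _) := by
  have h0 : ((l : AlgebraicClosure K)) ≠ 0 := by
    have h : ((l : AlgebraicClosure K)) = algebraMap K _ (l : K) := (map_natCast _ l).symm
    rw [h]
    exact (map_ne_zero _).2 hl
  have h1 : ((l : AlgebraicClosure (LaurentSeries K))) ≠ 0 := by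
    have h : ((l : AlgebraicClosure (LaurentSeries K))) =
        ((algebraMap (LaurentSeries K) _).comp (HahnSeries.C (Γ := ℤ) (R := K))) (l : K) :=
      (map_natCast _ l).symm
    rw [h]
    exact (map_ne_zero _).2 hl
  have e1 : (psi K).comp ((sig g : AlgebraicClosure (LaurentSeries K) ≃+*
      AlgebraicClosure (LaurentSeries K)) :
      AlgebraicClosure (LaurentSeries K) →+* AlgebraicClosure (LaurentSeries K)) =
      ((hequiv (g : AlgebraicClosure K ≃+* AlgebraicClosure K)) :
        HahnSeries ℚ (AlgebraicClosure K) →+* HahnSeries ℚ (AlgebraicClosure K)).comp (psi K) :=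
    RingHom.ext fun x => psi_sig g x
  have e2 : ((hequiv (g : AlgebraicClosure K ≃+* AlgebraicClosure K)) :
        HahnSeries ℚ (AlgebraicClosure K) →+* HahnSeries ℚ (AlgebraicClosure K)).comp
        (hC (AlgebraicClosure K)) =
      (hC (AlgebraicClosure K)).comp
        ((g : AlgebraicClosure K ≃+* AlgebraicClosure K) :
          AlgebraicClosure K →+* AlgebraicClosure K) :=
    RingHom.ext fun x => hmap_C _ x
  have f1 := congrArg (twist l) e1
  have f2 := congrArg (twist l) e2
  rw [twist_comp h1, twist_comp h1, mul_comm, mul_left_inj, twist_aut h1] at f1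
  rw [twist_comp h0, twist_comp h0, mul_comm, mul_right_inj, twist_aut h0] at f2
  rw [f1, f2]

end GC
end

section

/-!
# The specialization of cochains
-/

namespace GC

universe u v w

variable {K : Type u} [Field K] (l : ℕ) [Fact l.Prime] (w : ℕ)

/-- The specialization of cochains of the field of Laurent series. -/
noncomputable def spC (K : Type u) [Field K] (l : ℕ) [Fact l.Prime] (w n : ℕ) :
    ((Fin (n + 1) → AbsGal (LaurentSeries K)) → Tw l w) →+ ((Fin (n + 1) → AbsGal K) → Tw l w) where
  toFun c x := ((((twist l (hC (AlgebraicClosure K)))⁻¹ * twist l (psi K)) ^ w : ℤ_[l]ˣ) : ℤ_[l]) •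
    c fun i => sig (x i)
  map_zero' := by
    funext x
    exact smul_zero _
  map_add' a b := by
    funext x
    exact smul_add _ _ _

variable {l w}

lemma spC_apply {n : ℕ} (c : (Fin (n + 1) → AbsGal (LaurentSeries K)) → Tw l w)
    (x : Fin (n + 1) → AbsGal K) : spC K l w n c x =
      ((((twist l (hC (AlgebraicClosure K)))⁻¹ * twist l (psi K)) ^ w : ℤ_[l]ˣ) : ℤ_[l]) •
    c fun i => sig (x i) := rfl

/-- TASK D4 (first statement). The specialization of a cochain is a cochain.

PROOF. As `pullC_mem` (B2), with `cyc_sig` and `continuous_sig` (D3). -/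
theorem spC_mem (hl : (l : K) ≠ 0) {n : ℕ} {c : (Fin (n + 1) → AbsGal (LaurentSeries K)) → Tw l w}
    (hc : c ∈ Coch (Tw l w) (⊤ : Subgroup (AbsGal (LaurentSeries K))) ⊥ n) :
    spC K l w n c ∈ Coch (Tw l w) (⊤ : Subgroup (AbsGal K)) ⊥ n := by
  rw [mem_coch] at hc ⊢
  obtain ⟨h1, h2, U, hU, hU'⟩ := hc
  refine ⟨fun g _ x => ?_, fun x u hu => ?_, U.comap (sig (K := K)), ?_, fun x u hu => ?_⟩
  · rw [spC_apply, spC_apply]
    have h3 : (fun i => sig (g * x i)) = fun i => sig g * sig (x i) :=
      funext fun i => map_mul _ _ _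
    rw [h3, h1 (sig g) trivial, Tw.smul_def, Tw.smul_def, cyc_sig hl g, smul_comm]
  · have h3 : (fun i => x i * u i) = x := funext fun i => by
      rw [(Subgroup.mem_bot.1 (hu i)), mul_one]
    rw [h3]
  · exact hU.preimage continuous_sig
  · rw [spC_apply, spC_apply]
    have h3 : (fun i => sig (x i * u i)) = fun i => sig (x i) * sig (u i) :=
      funext fun i => map_mul _ _ _
    rw [h3, hU' (fun i => sig (x i)) (fun i => sig (u i)) fun i => hu i]

/-- TASK D4 (second statement). Compatibility with the differential. -/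
theorem d_spC {n : ℕ} (c : (Fin (n + 1) → AbsGal (LaurentSeries K)) → Tw l w) :
    d (spC K l w n c) = spC K l w (n + 1) (d c) := by
  have h1 := d_map (DistribSMul.toAddMonoidHom (Tw l w)
    ((((twist l (hC (AlgebraicClosure K)))⁻¹ * twist l (psi K)) ^ w : ℤ_[l]ˣ) : ℤ_[l]))
    (fun x : Fin (n + 1) → AbsGal K => c fun i => sig (x i))
  exact h1

theorem spC_cocyc (hl : (l : K) ≠ 0) {n : ℕ}
    {c : (Fin (n + 1) → AbsGal (LaurentSeries K)) → Tw l w}
    (hc : c ∈ Cocyc (AbsGal (LaurentSeries K)) (Tw l w) n) :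
    spC K l w n c ∈ Cocyc (AbsGal K) (Tw l w) n := by
  obtain ⟨h1, h2⟩ := hc
  refine ⟨spC_mem hl h1, ?_⟩
  have h3 : d c = 0 := h2
  change d (spC K l w n c) = 0
  rw [d_spC, h3, map_zero]

theorem spC_cobd (hl : (l : K) ≠ 0) {n : ℕ}
    {c : (Fin (n + 1) → AbsGal (LaurentSeries K)) → Tw l w}
    (hc : c ∈ Cobd (AbsGal (LaurentSeries K)) (Tw l w) n) :
    spC K l w n c ∈ Cobd (AbsGal K) (Tw l w) n := by
  cases n with
  | zero =>
    have h0 : c = 0 := hc
    rw [h0, map_zero]
    exact zero_mem _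
  | succ n =>
    obtain ⟨b, hb, hb'⟩ := hc
    refine ⟨spC K l w n b, spC_mem hl hb, ?_⟩
    have h1 : d b = c := hb'
    change d (spC K l w n b) = spC K l w (n + 1) c
    rw [d_spC, h1]

end GC
end

section

/-!
# Naturality of the specialization
-/

namespace GC

universe u v w

variable {K K' : Type u} [Field K] [Field K'] {l : ℕ} [Fact l.Prime] {w : ℕ}

/-- Two homomorphisms of an algebraic closure which agree on the field differ by an
automorphism. -/
theorem d6_exists_aut {F : Type u} [Field F] {Λ : Type v} [Field Λ]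
    (j j' : AlgebraicClosure F →+* Λ)
    (h : ∀ a : F, j' (algebraMap F _ a) = j (algebraMap F _ a)) :
    ∃ g : AbsGal F, ∀ x, j' x = j (g x) := by
  let _ := j.toAlgebra
  let _ := (j.comp (algebraMap F (AlgebraicClosure F))).toAlgebra
  have : IsScalarTower F (AlgebraicClosure F) Λ := IsScalarTower.of_algebraMap_eq' rfl
  let f : AlgebraicClosure F →ₐ[F] Λ := { j' with commutes' := h }
  refine ⟨AlgHom.restrictNormal' f (AlgebraicClosure F), fun x => ?_⟩
  exact (AlgHom.restrictNormal_commutes f (AlgebraicClosure F) x).symm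

/-- Right translations are admissible. -/
theorem d6_adm {G : Type u} [Group G] [TopologicalSpace G] [IsTopologicalGroup G] (g : G) :
    Adm (⊤ : Subgroup G) ⊥ (fun x => x * g) where
  equi s _ x := mul_assoc s x g
  cosets x n hn := by
    rw [Subgroup.mem_bot] at hn
    subst hn
    simp
  cont U hU := by
    refine ⟨U.comap (MulAut.conj g⁻¹).toMonoidHom, ?_, fun x v hv => ?_⟩
    · have h : Continuous fun x : G => g⁻¹ * x * g := by fun_prop
      have h2 := hU.preimage h
      convert h2 using 1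
      ext x
      simp [MulAut.conj]
    · have h3 : g⁻¹ * v * g ∈ U := by simpa [MulAut.conj] using hv
      have h4 : (x * g)⁻¹ * (x * v * g) = g⁻¹ * v * g := by group
      rw [h4]
      exact h3

/-- The right translate of a cocycle differs from it by a coboundary. -/
theorem d6_translate {G : Type u} [Group G] [TopologicalSpace G] [IsTopologicalGroup G]
    [CompactSpace G] [TotallyDisconnectedSpace G] {M : Type v} [AddCommGroup M]
    [DistribMulAction G M] (g : G) {n : ℕ} {c : (Fin (n + 1) → G) → M} (hc : c ∈ Cocyc G M n) :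
    (fun x : Fin (n + 1) → G => c fun i => x i * g) - c ∈ Cobd G M n := by
  have hd : d c = 0 := hc.2
  cases n with
  | zero =>
    have h : (fun x : Fin (0 + 1) → G => c fun i => x i * g) = c := by
      funext x
      exact const_of_d_eq_zero hd _ _
    rw [h, sub_self]
    exact (Cobd G M 0).zero_mem
  | succ m =>
    obtain ⟨p, hp, hp'⟩ := homotopy (adm_id (⊤ : Subgroup G) ⊥) (d6_adm g) hc.1 hd
    exact ⟨p, hp, hp'⟩

/-- TASK D6. Naturality of the specialization with respect to a homomorphism `f₀ : K → K'`.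

PROOF. Let `H' = HahnSeries ℚ (AlgebraicClosure K')`. The homomorphisms
`psi K' ∘ Φ` and `hmap φ₀ ∘ psi K` from `AlgebraicClosure (LaurentSeries K)` to `H'` agree on
`LaurentSeries K`: `psi K' (Φ x) = lau (algebraMap K' _) (hmap f₀ x)` and
`hmap φ₀ (psi K x) = hmap φ₀ (lau (algebraMap K _) x) = lau (φ₀ ∘ algebraMap K _) x` (`hmap_lau`), and
both are `lau (algebraMap K' _ ∘ f₀) x` (compare coefficients, `lau_coeff_int`, `lau_coeff_of_ne`). As
in `exists_aut` (B3; the target need not be an algebraic closure: the images of `x` under the two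
homomorphisms are roots of the same split polynomial) there is `g ∈ AbsGal (LaurentSeries K)` with
`psi K' (Φ y) = hmap φ₀ (psi K (g y))` for all `y`.
Then for `h ∈ AbsGal K'`: `pull hΦ (sig h) = g⁻¹ * sig (pull hφ₀ h) * g` : both sides have the same
image under the injective map `hmap φ₀ ∘ psi K ∘ g = psi K' ∘ Φ`:
`psi K' (Φ (pull hΦ (sig h) y)) = psi K' (sig h (Φ y)) = hequiv h (psi K' (Φ y))
= hequiv h (hmap φ₀ (psi K (g y)))`, and
`hmap φ₀ (psi K (sig (pull hφ₀ h) (g y))) = hmap φ₀ (hequiv (pull hφ₀ h) (psi K (g y)))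
= hequiv h (hmap φ₀ (psi K (g y)))` (coefficients: `φ₀ (pull hφ₀ h a) = h (φ₀ a)`).
Twists: `twist (psi K') * twist Φ = twist (hmap φ₀) * twist (psi K) * cyc g` and
`hmap φ₀ ∘ hC = hC ∘ φ₀` gives `twist (hmap φ₀) * twist (hC _) = twist (hC _) * twist φ₀`.
So, as in B3: `spC K' (pullC hΦ c) x = U^w • c (g⁻¹ * s (x i) * g)` with `s = sig ∘ pull hφ₀`, and
`c (g⁻¹ y g) = g⁻¹ • c (y g)`; the factor `cyc g` cancels, and one gets
`spC K' (pullC hΦ c) = pullC hφ₀ (spC K (c ∘ (· * g)))`. By `homotopy` (A17) (and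
`const_of_d_eq_zero` for `n = 0`) `c ∘ (· * g) - c ∈ Cobd`, and `spC`, `pullC` preserve coboundaries
(D4, B2). -/
theorem spC_natural (hl : (l : K) ≠ 0) (f₀ : K →+* K')
    {Φ : AlgebraicClosure (LaurentSeries K) →+* AlgebraicClosure (LaurentSeries K')}
    (hΦ : Ext (hmap (Γ := ℤ) f₀ : LaurentSeries K →+* LaurentSeries K') Φ)
    {φ₀ : AlgebraicClosure K →+* AlgebraicClosure K'} (hφ₀ : Ext f₀ φ₀) {n : ℕ}
    {c : (Fin (n + 1) → AbsGal (LaurentSeries K)) → Tw l w}
    (hc : c ∈ Cocyc (AbsGal (LaurentSeries K)) (Tw l w) n) :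
    spC K' l w n (pullC l w hΦ n c) - pullC l w hφ₀ n (spC K l w n c) ∈
      Cobd (AbsGal K') (Tw l w) n := by
  -- the element `g`
  obtain ⟨g, hg⟩ := d6_exists_aut ((hmap φ₀).comp (psi K)) ((psi K').comp Φ) (fun x => by
    rw [RingHom.comp_apply, RingHom.comp_apply, hΦ, psi_algebraMap, psi_algebraMap, hmap_lau]
    ext q
    by_cases h : ∃ n : ℤ, (n : ℚ) = q
    · obtain ⟨n, rfl⟩ := h
      rw [lau_coeff_int, lau_coeff_int, hmap_coeff, RingHom.comp_apply, hφ₀]
    · push Not at h
      rw [lau_coeff_of_ne _ _ h, lau_coeff_of_ne _ _ h])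
  simp only [RingHom.comp_apply] at hg
  -- conjugation
  have hcomm : ∀ (h : AbsGal K') (z : HahnSeries ℚ (AlgebraicClosure K)),
      hmap φ₀ (hequiv (pull hφ₀ h : AlgebraicClosure K ≃+* AlgebraicClosure K) z) =
        hequiv (h : AlgebraicClosure K' ≃+* AlgebraicClosure K') (hmap φ₀ z) := fun h z => by
    ext q
    rw [hmap_coeff, hequiv_coeff, hequiv_coeff, hmap_coeff]
    exact pull_spec hφ₀ h _
  have hpull : ∀ h : AbsGal K', pull hΦ (sig h) = g⁻¹ * (sig (pull hφ₀ h) * g) := fun h => by
    refine (eq_pull hΦ (sig h) fun x => ?_).symm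
    apply (psi K').injective
    rw [psi_sig, hg, hg, ← hcomm, ← psi_sig]
    congr 2
    rw [← AlgEquiv.mul_apply, ← AlgEquiv.mul_apply, mul_inv_cancel_left]
  -- twists
  have hl1 : (l : AlgebraicClosure K) ≠ 0 := fun h => hl (by
    apply (algebraMap K (AlgebraicClosure K)).injective
    rw [map_natCast, h, map_zero])
  have hlL : (l : LaurentSeries K) ≠ 0 := fun h => hl1 (by
    have h2 := congrArg (lau (algebraMap K (AlgebraicClosure K))) h
    rw [map_natCast, map_zero] at h2
    apply (hC (AlgebraicClosure K)).injective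
    rw [map_natCast, h2, map_zero])
  have hl2 : (l : AlgebraicClosure (LaurentSeries K)) ≠ 0 := fun h => hlL (by
    apply (algebraMap (LaurentSeries K) (AlgebraicClosure (LaurentSeries K))).injective
    rw [map_natCast, h, map_zero])
  have t1 : twist l (psi K') * twist l Φ = twist l (hmap (Γ := ℚ) φ₀) * (twist l (psi K) *
      cyclotomicCharacter (AlgebraicClosure (LaurentSeries K)) l
        (g : AlgebraicClosure (LaurentSeries K) ≃+* _)) := by
    rw [← twist_aut hl2, ← twist_comp hl2, ← twist_comp hl2, ← twist_comp hl2]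
    congr 1
    exact RingHom.ext fun x => hg x
  have t2 : twist l (hmap (Γ := ℚ) φ₀) * twist l (hC (AlgebraicClosure K)) =
      twist l (hC (AlgebraicClosure K')) * twist l φ₀ := by
    rw [← twist_comp hl1, ← twist_comp hl1]
    congr 1
    exact RingHom.ext fun x => hmap_C φ₀ x
  -- the main computation
  have hmain : spC K' l w n (pullC l w hΦ n c) =
      pullC l w hφ₀ n (spC K l w n (fun x => c fun i => x i * g)) := by
    funext x
    rw [spC_apply, pullC_apply, pullC_apply, spC_apply]
    simp only [hpull]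
    have hinv := hc.1.1 g⁻¹ (Subgroup.mem_top _) (fun i => sig (pull hφ₀ (x i)) * g)
    rw [hinv, Tw.smul_def, smul_smul, smul_smul, smul_smul, ← Units.val_mul, ← Units.val_mul,
      ← Units.val_mul]
    congr 2
    have hcyc : cyclotomicCharacter (AlgebraicClosure (LaurentSeries K)) l
        ((g⁻¹ : AbsGal (LaurentSeries K)) : AlgebraicClosure (LaurentSeries K) ≃+* _) =
        (cyclotomicCharacter (AlgebraicClosure (LaurentSeries K)) l
          (g : AlgebraicClosure (LaurentSeries K) ≃+* _))⁻¹ := by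
      rw [← map_inv]
      rfl
    rw [hcyc, ← mul_pow, ← mul_pow, ← mul_pow]
    congr 1
    generalize cyclotomicCharacter (AlgebraicClosure (LaurentSeries K)) l
        (g : AlgebraicClosure (LaurentSeries K) ≃+* _) = γ at t1 ⊢
    have e1 : twist l (psi K') * twist l Φ * γ⁻¹ = twist l (hmap (Γ := ℚ) φ₀) * twist l (psi K) := by
      rw [t1, ← mul_assoc, mul_inv_cancel_right]
    calc (twist l (hC (AlgebraicClosure K')))⁻¹ * twist l (psi K') * twist l Φ * γ⁻¹
        = (twist l (hC (AlgebraicClosure K')))⁻¹ * (twist l (psi K') * twist l Φ * γ⁻¹) := by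
          simp only [mul_assoc]
      _ = (twist l (hC (AlgebraicClosure K')))⁻¹ *
          (twist l (hmap (Γ := ℚ) φ₀) * twist l (psi K)) := by rw [e1]
      _ = (twist l (hC (AlgebraicClosure K')))⁻¹ *
          (twist l (hmap (Γ := ℚ) φ₀) * twist l (hC (AlgebraicClosure K))) *
          ((twist l (hC (AlgebraicClosure K)))⁻¹ * twist l (psi K)) := by
          simp only [mul_assoc, mul_inv_cancel_left]
      _ = twist l φ₀ * ((twist l (hC (AlgebraicClosure K)))⁻¹ * twist l (psi K)) := by
          rw [t2, inv_mul_cancel_left]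
  rw [hmain, ← map_sub, ← map_sub]
  exact pullC_cobd hl hφ₀ (spC_cobd hl (d6_translate g hc))

end GC
end

section

/-!
# Inflation for modules which are acyclic for the normal subgroup
-/

namespace GC

universe u v

variable {G : Type u} [Group G] [TopologicalSpace G] [IsTopologicalGroup G] [CompactSpace G]
  [TotallyDisconnectedSpace G]

omit [TopologicalSpace G] [IsTopologicalGroup G] [CompactSpace G] [TotallyDisconnectedSpace G] in
/-- Cocycles of degree `0` are constant. -/
theorem a10_const {M : Type v} [AddCommGroup M] {c : (Fin 1 → G) → M} (hd : d c = 0)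
    (x y : Fin 1 → G) : c x = c y := by
  have h := congrFun hd ![y 0, x 0]
  have h1 : (fun i : Fin 1 => (![y 0, x 0] : Fin 2 → G) ((0 : Fin 2).succAbove i)) = x := by
    funext i
    have hi : i = 0 := Subsingleton.elim _ _
    subst hi
    rfl
  have h2 : (fun i : Fin 1 => (![y 0, x 0] : Fin 2 → G) ((1 : Fin 2).succAbove i)) = y := by
    funext i
    have hi : i = 0 := Subsingleton.elim _ _
    subst hi
    rfl
  have e : d c ![y 0, x 0] = (-1 : ℤ) ^ ((0 : Fin 2) : ℕ) •
      c (fun i : Fin 1 => (![y 0, x 0] : Fin 2 → G) ((0 : Fin 2).succAbove i)) +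
      (-1 : ℤ) ^ ((1 : Fin 2) : ℕ) •
      c (fun i : Fin 1 => (![y 0, x 0] : Fin 2 → G) ((1 : Fin 2).succAbove i)) :=
    Fin.sum_univ_two _
  rw [h1, h2] at e
  have e' : d c ![y 0, x 0] = c x - c y := by
    rw [e]
    simp [sub_eq_add_neg]
  rw [e'] at h
  exact sub_eq_zero.1 h

omit [IsTopologicalGroup G] [CompactSpace G] [TotallyDisconnectedSpace G] in
/-- The values of a cochain which is right invariant under the normal subgroup are fixed by it. -/
theorem a10_fixed {M : Type v} [AddCommGroup M] [DistribMulAction G M] {N : Subgroup G}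
    [hN : N.Normal] {n : ℕ} {c : (Fin (n + 1) → G) → M} (hc : c ∈ Coch M (⊤ : Subgroup G) N n)
    (t : Fin (n + 1) → G) : ∀ m ∈ N, m • c t = c t := by
  intro m hm
  rw [← hc.1 m (Subgroup.mem_top m) t]
  have h := hc.2.1 t (fun i => (t i)⁻¹ * m * t i) fun i => by
    simpa using hN.conj_mem m hm (t i)⁻¹
  rw [← h]
  congr 1
  funext i
  group

/-- TASK A10. If all higher cohomology groups of the closed normal subgroup `N` with coefficients in
`A` vanish, then every class of `G` is inflated from `G / N`.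

PROOF. Induction on `n`, for all `A`.
`n = 0`: a cocycle of degree `0` satisfies `x g_1 - x g_0 = 0`, so it is constant, hence right
invariant under `N`: take `y = x`.
`n + 1`: let `x ∈ Cocyc G A (n + 1)`. `constI ∘ x` is a cocycle with values in `IndM G A`
(`coch_map`, `d_map`), so it is `d b` with `b ∈ Coch (IndM G A) ⊤ ⊥ n` (`ind_acyclic`, `N = ⊥`).
`toQ ∘ b` is a cocycle in `Coch (QM G A) ⊤ ⊥ n`. The module `QM G A` (in the same universe
`Type (max u v)`) is discrete (`disc_q`) and `Van N (QM G A) 0` (`van_q`, with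
`Van N A 1` from `Van N A 0`). By induction there is a cocycle `y' ∈ Coch (QM G A) ⊤ N n` with
`toQ ∘ b - y' ∈ Cobd`: if `n = 0` then `toQ ∘ b = y'`; if `n = m + 1` then
`toQ ∘ b = y' + d z'`, `z' ∈ Coch (QM G A) ⊤ ⊥ m`, and `z'` lifts to `z'' ∈ Coch (IndM G A) ⊤ ⊥ m`
(`SES.lift (ses_ind G A) (disc_ind hA)`); put `z'' = 0`, `d z'' := 0` if `n = 0`. The values of
`y'` are fixed by `N` (`n • y' x = y' (n x) = y' (x (x⁻¹ n x)) = y' x`, `N` normal), so by
`exists_fixed_lift` (A9) and `lift_rel` (A4, with `R b q := toQ b = q`) `y'` lifts to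
`b' ∈ Coch (IndM G A) ⊤ N n`. Then `b - b' - d z''` has values in the kernel of `toQ`, so it is
`constI ∘ a` with `a ∈ Coch A ⊤ ⊥ n` (`SES.pull`). Hence `constI ∘ x = d b = d b' + constI ∘ d a`, so
`constI ∘ (x - d a) = d b'` is right invariant under `N`, so `y := x - d a ∈ Coch A ⊤ N (n + 1)`
(A4 `coch_of_values` or injectivity of `constI`), `d y = 0` (`d_d`), `x - y = d a ∈ Cobd`. -/
theorem ir_surj (N : Subgroup G) [N.Normal] (hN : IsClosed (N : Set G)) (n : ℕ)
    (A : Type (max u v)) [AddCommGroup A] [DistribMulAction G A] (hA : Disc G A)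
    (hV : Van N A 0) (x : (Fin (n + 1) → G) → A) (hx : x ∈ Cocyc G A n) :
    ∃ y ∈ Coch A (⊤ : Subgroup G) N n, d y = 0 ∧ x - y ∈ Cobd G A n := by
  induction n generalizing A with
  | zero =>
    obtain ⟨⟨h1, h2, h3⟩, hd⟩ := hx
    have hd' : d x = 0 := hd
    refine ⟨x, ⟨h1, fun t u _ => a10_const hd' _ _, h3⟩, hd', ?_⟩
    rw [sub_self]
    exact zero_mem _
  | succ n ih =>
    obtain ⟨hx1, hdx⟩ := hx
    have hdx' : d x = 0 := hdx
    have hX : (fun t => constI G A (x t)) ∈ Coch (IndM G A) (⊤ : Subgroup G) ⊥ (n + 1) :=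
      coch_map (constI G A) (fun g a => constI_smul g a) hx1
    have hdX : d (fun t => constI G A (x t)) = 0 := by
      rw [d_map, hdx']
      funext t
      simp
    obtain ⟨b, hb, hdb⟩ := ind_acyclic hX hdX
    have hq : (fun t => toQ G A (b t)) ∈ Coch (QM G A) (⊤ : Subgroup G) ⊥ n :=
      coch_map (toQ G A) (fun g a => toQ_smul g a) hb
    have hdq : d (fun t => toQ G A (b t)) = 0 := by
      rw [d_map, hdb]
      funext t
      exact QM.ext' fun u v => sub_self (x t)
    obtain ⟨y', hy', hdy', hqy⟩ := ih (QM G A) (disc_q hA)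
      (van_q hN hA fun j _ => hV j (Nat.zero_le _)) (fun t => toQ G A (b t)) ⟨hq, hdq⟩
    -- the correction
    obtain ⟨z, hz, hdz, hzq⟩ : ∃ z ∈ Coch (IndM G A) (⊤ : Subgroup G) ⊥ n, d z = 0 ∧
        ∀ t, toQ G A (z t) = toQ G A (b t) - y' t := by
      cases n with
      | zero =>
        have h0 : (fun t => toQ G A (b t)) - y' = 0 := hqy
        refine ⟨0, zero_mem _, d_zero, fun t => ?_⟩
        have h1 := congrFun h0 t
        have h2 : toQ G A (b t) - y' t = 0 := h1
        rw [h2]
        exact map_zero _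
      | succ m =>
        obtain ⟨z', hz', hz'd⟩ := hqy
        obtain ⟨z'', hz'', hz''q⟩ := SES.lift (ses_ind G A) (disc_ind hA) hz'
        refine ⟨d z'', d_mem hz'', d_d z'', fun t => ?_⟩
        have h1 : (fun t => toQ G A (d z'' t)) = d z' := by
          rw [← d_map]
          congr 1
          funext s
          exact hz''q s
        have h2 : d z' = (fun t => toQ G A (b t)) - y' := hz'd
        have h3 := congrFun (h1.trans h2) t
        exact h3
    obtain ⟨b', hb', hb'q⟩ := lift_rel (disc_ind hA) (fun (b : IndM G A) (q : QM G A) =>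
        toQ G A b = q) (fun g b q h => by rw [toQ_smul, h]) hy'
      (fun t => exists_fixed_lift hN hA (hV 0 le_rfl) (a10_fixed hy' t))
    have hb'' : b' ∈ Coch (IndM G A) (⊤ : Subgroup G) ⊥ n := coch_mono le_rfl bot_le n hb'
    have hw : b - b' - z ∈ Coch (IndM G A) (⊤ : Subgroup G) ⊥ n :=
      sub_mem (sub_mem hb hb'') hz
    obtain ⟨a, ha, haw⟩ := SES.pull (ses_ind G A) hw (fun t => by
      change toQ G A (b t - b' t - z t) = 0
      rw [map_sub, map_sub, hb'q t, hzq t, sub_self])
    have hcd : (fun t => constI G A (d a t)) = d (b - b' - z) := by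
      rw [← d_map]
      congr 1
      funext t
      exact haw t
    have hval : ∀ t, constI G A ((x - d a) t) = d b' t := by
      intro t
      have h1 : constI G A (x t) = d b t := (congrFun hdb t).symm
      have h2 : constI G A (d a t) = d (b - b' - z) t := congrFun hcd t
      have h3 : constI G A ((x - d a) t) = constI G A (x t) - constI G A (d a t) :=
        map_sub _ _ _
      rw [h3, h1, h2, d_sub, d_sub, hdz]
      simp
    have hy : x - d a ∈ Coch A (⊤ : Subgroup G) N (n + 1) := by
      obtain ⟨a'', ha'', hav⟩ := coch_of_values (constI G A) (fun g a => constI_smul g a)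
        (ses_ind G A).inj (d_mem hb') (fun t => ⟨(x - d a) t, hval t⟩)
      have h1 : a'' = x - d a := by
        funext t
        exact (ses_ind G A).inj ((hav t).trans (hval t).symm)
      rw [← h1]
      exact ha''
    refine ⟨x - d a, hy, ?_, ?_⟩
    · rw [d_sub, hdx', d_d, sub_zero]
    · rw [sub_sub_cancel]
      exact ⟨a, ha, rfl⟩

end GC
end

section

/-!
# The specialization of classes defined over a power series ring
-/

namespace GC

universe u v w

variable {K F : Type u} [Field K] [Field F] {l : ℕ} [Fact l.Prime] {w : ℕ}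

/-- The valuation ring of the field of Hahn series. -/
noncomputable def d5_V (k : Type u) [Field k] : ValuationSubring (HahnSeries ℚ k) where
  carrier := {x | ∀ r : ℚ, r < 0 → x.coeff r = 0}
  mul_mem' := by
    intro a b ha hb r hr
    rw [HahnSeries.coeff_mul]
    refine Finset.sum_eq_zero fun ij hij => ?_
    simp only [Finset.mem_antidiagonal, HahnSeries.mem_support] at hij
    rcases lt_or_ge ij.1 0 with h | h
    · exact absurd (ha _ h) hij.1
    · rcases lt_or_ge ij.2 0 with h' | h'
      · exact absurd (hb _ h') hij.2.1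
      · have := hij.2.2
        linarith
  one_mem' := by
    intro r hr
    rw [HahnSeries.coeff_one, if_neg hr.ne]
  add_mem' := by
    intro a b ha hb r hr
    rw [HahnSeries.coeff_add, ha r hr, hb r hr, add_zero]
  zero_mem' := by
    intro r hr
    rfl
  neg_mem' := by
    intro a ha r hr
    rw [HahnSeries.coeff_neg, ha r hr, neg_zero]
  mem_or_inv_mem' := by
    intro x
    by_cases hx : x = 0
    · left
      subst hx
      intro r hr
      rfl
    · have hx' : x⁻¹ ≠ 0 := inv_ne_zero hx
      have h1 : (x * x⁻¹).order = x.order + x⁻¹.order := HahnSeries.order_mul hx hx'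
      rw [mul_inv_cancel₀ hx, HahnSeries.order_one] at h1
      have h2 : ∀ y : HahnSeries ℚ k, 0 ≤ y.order → ∀ r : ℚ, r < 0 → y.coeff r = 0 := by
        intro y h r hr
        exact HahnSeries.coeff_eq_zero_of_lt_order (lt_of_lt_of_le hr h)
      rcases le_total 0 x.order with h | h
      · exact Or.inl (h2 x h)
      · exact Or.inr (h2 _ (by linarith))

lemma d5_mem {k : Type u} [Field k] {x : HahnSeries ℚ k} :
    x ∈ d5_V k ↔ ∀ r : ℚ, r < 0 → x.coeff r = 0 := Iff.rfl

/-- The constant coefficient. -/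
noncomputable def d5_c (k : Type u) [Field k] : d5_V k →+* k where
  toFun x := (x : HahnSeries ℚ k).coeff 0
  map_one' := by
    change (1 : HahnSeries ℚ k).coeff 0 = 1
    rw [HahnSeries.coeff_one, if_pos rfl]
  map_zero' := rfl
  map_add' x y := HahnSeries.coeff_add
  map_mul' x y := by
    change ((x : HahnSeries ℚ k) * (y : HahnSeries ℚ k)).coeff 0 = _
    rw [HahnSeries.coeff_mul, Finset.sum_eq_single (0, 0)]
    · intro ij hij hne
      exfalso
      simp only [Finset.mem_antidiagonal, HahnSeries.mem_support] at hij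
      have h1 : 0 ≤ ij.1 := by
        by_contra h
        exact hij.1 (x.2 _ (not_le.1 h))
      have h2 : 0 ≤ ij.2 := by
        by_contra h
        exact hij.2.1 (y.2 _ (not_le.1 h))
      have h3 := hij.2.2
      exact hne (Prod.ext (by dsimp only; linarith) (by dsimp only; linarith))
    · intro h
      simp only [Finset.mem_antidiagonal, HahnSeries.mem_support, add_zero, and_true] at h
      by_cases hx : (x : HahnSeries ℚ k).coeff 0 = 0
      · rw [hx, zero_mul]
      · have hy : (y : HahnSeries ℚ k).coeff 0 = 0 := by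
          by_contra hy
          exact h ⟨hx, hy⟩
        rw [hy, mul_zero]

lemma d5_lau {K : Type u} [Field K] (x : PowerSeries K) :
    lau (algebraMap K (AlgebraicClosure K)) (HahnSeries.ofPowerSeries ℤ K x) ∈
      d5_V (AlgebraicClosure K) := by
  intro r hr
  by_cases h : ∃ n : ℤ, (n : ℚ) = r
  · obtain ⟨n, rfl⟩ := h
    have hn : n < 0 := by exact_mod_cast hr
    rw [lau_coeff_int]
    have h2 := PowerSeries.coeff_coe x n
    rw [if_pos hn] at h2
    rw [h2, map_zero]
  · push Not at h
    exact lau_coeff_of_ne _ _ h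

lemma d5_lau_zero {K : Type u} [Field K] (x : PowerSeries K) :
    (lau (algebraMap K (AlgebraicClosure K)) (HahnSeries.ofPowerSeries ℤ K x)).coeff 0 =
      algebraMap K (AlgebraicClosure K) (PowerSeries.constantCoeff x) := by
  have h1 := lau_coeff_int (algebraMap K (AlgebraicClosure K)) (HahnSeries.ofPowerSeries ℤ K x) 0
  rw [Int.cast_zero] at h1
  rw [h1]
  have h2 := PowerSeries.coeff_coe x 0
  rw [if_neg (lt_irrefl _), Int.natAbs_zero, PowerSeries.coeff_zero_eq_constantCoeff_apply] at h2
  rw [h2]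

lemma d5_ne {K : Type u} [Field K] {l : ℕ} (hl : (l : K) ≠ 0) : (l : AlgebraicClosure K) ≠ 0 := by
  intro h
  apply hl
  apply (algebraMap K (AlgebraicClosure K)).injective
  rw [map_natCast, map_zero]
  exact h

/-- TASK D5 (first statement). The reduction of the embedding of the algebraic closure of a field
`F` contained in `K[[T]]`.

PROOF. Let `H = HahnSeries ℚ (AlgebraicClosure K)` and `A = {x : H | ∀ r < 0, x.coeff r = 0}`, a
subring (`HahnSeries`: `0 ≤ orderTop`), integrally closed in `H`: if `y ≠ 0` has order `q < 0` and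
`y^n + ∑ i < n, a_i y^i = 0` with `a_i ∈ A`, then the coefficient of `y^n` at `n q` is not zero, and
those of `a_i y^i`, `i < n`, are zero (`HahnSeries.order_pow`, or the multiplicative valuation
`HahnSeries.addVal`). For `a ∈ F`: `psi (φ a) = lau (f a) ∈ A` (`lau` of the Laurent series of a power
series: coefficients at negative integers vanish), so for `x ∈ AlgebraicClosure F`, which is integral
over `F`, `psi (φ x) ∈ A`. The map `A → AlgebraicClosure K`, `x ↦ x.coeff 0`, is a ring homomorphism
(`HahnSeries.coeff_mul` for `A`: only the pair `(0, 0)`); let `φ₀` be the composition. -/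
theorem exists_reduction (f : F →+* PowerSeries K)
    {φ : AlgebraicClosure F →+* AlgebraicClosure (LaurentSeries K)}
    (hφ : Ext ((HahnSeries.ofPowerSeries ℤ K).comp f) φ) :
    ∃ φ₀ : AlgebraicClosure F →+* AlgebraicClosure K,
      Ext ((PowerSeries.constantCoeff (R := K)).comp f) φ₀ ∧
        ∀ x, φ₀ x = (psi K (φ x)).coeff 0 := by
  have hint : ∀ x : AlgebraicClosure F, psi K (φ x) ∈ d5_V (AlgebraicClosure K) := by
    intro x
    have hbase : ∀ a : F, psi K (φ (algebraMap F _ a)) ∈ d5_V (AlgebraicClosure K) := by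
      intro a
      rw [hφ a, psi_algebraMap]
      exact d5_lau (f a)
    let θ : F →+* d5_V (AlgebraicClosure K) :=
      (((psi K).comp φ).comp (algebraMap F (AlgebraicClosure F))).codRestrict
        (d5_V (AlgebraicClosure K)).toSubring hbase
    obtain ⟨P, hP1, hP2⟩ := Algebra.IsIntegral.isIntegral (R := F) x
    have h3 : IsIntegral (d5_V (AlgebraicClosure K)) (psi K (φ x)) := by
      refine ⟨P.map θ, hP1.map θ, ?_⟩
      rw [Polynomial.eval₂_map]
      have h4 := congrArg ((psi K).comp φ) hP2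
      rw [map_zero, Polynomial.hom_eval₂] at h4
      exact h4
    obtain ⟨y, hy⟩ := IsIntegrallyClosed.isIntegral_iff.1 h3
    rw [← hy]
    exact y.2
  let χ : AlgebraicClosure F →+* d5_V (AlgebraicClosure K) :=
    ((psi K).comp φ).codRestrict (d5_V (AlgebraicClosure K)).toSubring hint
  refine ⟨(d5_c (AlgebraicClosure K)).comp χ, fun a => ?_, fun x => rfl⟩
  change (psi K (φ (algebraMap F _ a))).coeff 0 = _
  rw [hφ a, psi_algebraMap]
  exact d5_lau_zero (f a)

/-- TASK D5 (second statement). The homomorphisms of Galois groups correspond.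

PROOF. By `eq_pull`: `φ₀ (pull hφ (sig g) x) = coefficient 0 of psi (φ (pull hφ (sig g) x)) =
psi (sig g (φ x)) = hequiv g (psi (φ x))`, which is `g (φ₀ x)`. -/
theorem pull_sig {f : F →+* PowerSeries K}
    {φ : AlgebraicClosure F →+* AlgebraicClosure (LaurentSeries K)}
    (hφ : Ext ((HahnSeries.ofPowerSeries ℤ K).comp f) φ)
    {φ₀ : AlgebraicClosure F →+* AlgebraicClosure K}
    (hφ₀ : Ext ((PowerSeries.constantCoeff (R := K)).comp f) φ₀)
    (h : ∀ x, φ₀ x = (psi K (φ x)).coeff 0) (g : AbsGal K) :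
    pull hφ (sig g) = pull hφ₀ g := by
  refine eq_pull hφ₀ g fun x => ?_
  rw [h, pull_spec, psi_sig, hequiv_coeff, ← h]
  rfl

/-- TASK D5 (third statement). The twists correspond.

PROOF. A root of unity `z` of order `l^n` in `H` is constant: the polynomial `X^(l^n) - 1` has `l^n`
roots in `AlgebraicClosure K`, and their images under `hC` are all its roots in `H`. So for
`ε = eps _ l n`: `psi (φ ε) = hC (φ₀ ε)`. Hence `twist (psi ∘ φ) = twist (hC ∘ φ₀)` by `twist_spec`
and `twist_unique`; use `twist_comp`. -/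
theorem twist_reduction (hl : (l : F) ≠ 0) {f : F →+* PowerSeries K}
    {φ : AlgebraicClosure F →+* AlgebraicClosure (LaurentSeries K)}
    (hφ : Ext ((HahnSeries.ofPowerSeries ℤ K).comp f) φ)
    {φ₀ : AlgebraicClosure F →+* AlgebraicClosure K}
    (hφ₀ : Ext ((PowerSeries.constantCoeff (R := K)).comp f) φ₀)
    (h : ∀ x, φ₀ x = (psi K (φ x)).coeff 0) :
    twist l (psi K) * twist l φ = twist l (hC (AlgebraicClosure K)) * twist l φ₀ := by
  have hF := d5_ne hl
  have hK : (l : AlgebraicClosure K) ≠ 0 := by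
    intro h0
    apply hF
    apply φ₀.injective
    rw [map_natCast, map_zero]
    exact h0
  have hL : (l : AlgebraicClosure (LaurentSeries K)) ≠ 0 := by
    intro h0
    apply hF
    apply φ.injective
    rw [map_natCast, map_zero]
    exact h0
  have key : ∀ n, ((psi K).comp φ) (eps (AlgebraicClosure F) l n) =
      ((hC (AlgebraicClosure K)).comp φ₀) (eps (AlgebraicClosure F) l n) := by
    intro n
    have h1 : (eps (AlgebraicClosure F) l n) ^ (l ^ n) = 1 := ((isEps_eps hF).1 n).pow_eq_one
    have hprim : IsPrimitiveRoot (hC (AlgebraicClosure K) (eps (AlgebraicClosure K) l n)) (l ^ n) :=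
      ((isEps_eps hK).1 n).map_of_injective (hC (AlgebraicClosure K)).injective
    have h2 : (psi K (φ (eps (AlgebraicClosure F) l n))) ^ (l ^ n) = 1 := by
      rw [← map_pow, ← map_pow, h1, map_one, map_one]
    have hne : NeZero (l ^ n) := ⟨pow_ne_zero _ (Fact.out : l.Prime).ne_zero⟩
    obtain ⟨i, -, hi⟩ := hprim.eq_pow_of_pow_eq_one h2
    rw [← map_pow] at hi
    change psi K (φ (eps (AlgebraicClosure F) l n)) =
      hC (AlgebraicClosure K) (φ₀ (eps (AlgebraicClosure F) l n))
    rw [h, ← hi]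
    congr 1
    simp [hC]
  have h3 : twist l ((hC (AlgebraicClosure K)).comp φ₀) = twist l ((psi K).comp φ) :=
    twist_unique hF _ fun n => by
      rw [key n]
      exact twist_spec hF _ n
  rw [← twist_comp hF, ← twist_comp hF, h3]

/-- TASK D5 (fourth statement). The specialization of the pullback is the pullback along the
reduction.

PROOF. Take `φ₀` from `exists_reduction`; `pull_sig` and `twist_reduction`. -/
theorem spC_pullC (hl : (l : F) ≠ 0) (f : F →+* PowerSeries K)
    {φ : AlgebraicClosure F →+* AlgebraicClosure (LaurentSeries K)}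
    (hφ : Ext ((HahnSeries.ofPowerSeries ℤ K).comp f) φ) :
    ∃ (φ₀ : AlgebraicClosure F →+* AlgebraicClosure K)
      (hφ₀ : Ext ((PowerSeries.constantCoeff (R := K)).comp f) φ₀),
      (∀ g : AbsGal K, pull hφ (sig g) = pull hφ₀ g) ∧
      ∀ (n : ℕ) (c : (Fin (n + 1) → AbsGal F) → Tw l w),
        spC K l w n (pullC l w hφ n c) = pullC l w hφ₀ n c := by
  obtain ⟨φ₀, hφ₀, h⟩ := exists_reduction f hφ
  refine ⟨φ₀, hφ₀, fun g => pull_sig hφ hφ₀ h g, fun n c => ?_⟩
  funext x
  rw [spC_apply, pullC_apply, pullC_apply]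
  have h3 : (fun i => pull hφ (sig (x i))) = fun i => pull hφ₀ (x i) :=
    funext fun i => pull_sig hφ hφ₀ h (x i)
  have h4 := twist_reduction hl hφ hφ₀ h
  have h5 : (twist l (hC (AlgebraicClosure K)))⁻¹ * twist l (psi K) * twist l φ = twist l φ₀ := by
    rw [mul_assoc, h4, inv_mul_cancel_left]
  rw [h3, smul_smul, ← Units.val_mul, ← mul_pow, h5]

end GC
end

section

/-!
# The section of the Galois group of the rational function field
-/

namespace GC

universe u v w

variable {K : Type u} [Field K]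

/-- TASK D7 (first statement). The field of rational functions embeds in the field of Laurent series.

PROOF. `HahnSeries.ofPowerSeries ℤ K` composed with the inclusion of the polynomials in the power
series extends to the fraction field (or: the algebra instance `K⟮X⟯ → K⸨X⸩` of Mathlib). -/
theorem exists_rho : ∃ ρ : RatFunc K →+* LaurentSeries K,
    (∀ c, ρ (RatFunc.C c) = HahnSeries.ofPowerSeries ℤ K (PowerSeries.C c)) ∧
      ρ RatFunc.X = HahnSeries.ofPowerSeries ℤ K PowerSeries.X := by
  let g : Polynomial K →+* LaurentSeries K :=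
    (HahnSeries.ofPowerSeries ℤ K).comp Polynomial.coeToPowerSeries.ringHom
  have hg : Function.Injective g :=
    HahnSeries.ofPowerSeries_injective.comp (Polynomial.coe_injective K)
  refine ⟨IsFractionRing.lift (A := Polynomial K) (K := RatFunc K) hg, fun c => ?_, ?_⟩
  · rw [← RatFunc.algebraMap_C, IsFractionRing.lift_algebraMap]
    change HahnSeries.ofPowerSeries ℤ K ((Polynomial.C c : Polynomial K) : PowerSeries K) = _
    rw [Polynomial.coe_C]
  · rw [← RatFunc.algebraMap_X, IsFractionRing.lift_algebraMap]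
    change HahnSeries.ofPowerSeries ℤ K ((Polynomial.X : Polynomial K) : PowerSeries K) = _
    rw [Polynomial.coe_X]

/-- The embedding of the field of rational functions in the field of Laurent series. -/
noncomputable def rho (K : Type u) [Field K] : RatFunc K →+* LaurentSeries K :=
  (exists_rho (K := K)).choose

lemma rho_C (c : K) :
    rho K (RatFunc.C c) = HahnSeries.ofPowerSeries ℤ K (PowerSeries.C c) :=
  (exists_rho (K := K)).choose_spec.1 c

lemma rho_X : rho K RatFunc.X = HahnSeries.ofPowerSeries ℤ K PowerSeries.X :=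
  (exists_rho (K := K)).choose_spec.2

lemma rho_comp :
    (rho K).comp (algebraMap K (RatFunc K)) =
      (HahnSeries.ofPowerSeries ℤ K).comp (PowerSeries.C (R := K)) := by
  ext1 c
  exact rho_C c

/-- TASK D7 (second statement). The restriction `rs : AbsGal (RatFunc K) → AbsGal K` has a continuous
section.

PROOF. Let `f = PowerSeries.C : K →+* PowerSeries K` and `φ = emb (rho K) ∘ jj K`, so
`Ext ((rho K).comp (algebraMap K (RatFunc K))) φ` (`Ext.comp`, `ext_emb`, `ext_jj`), i.e.
`Ext (ofPowerSeries.comp f) φ` by `rho_comp`. By `spC_pullC` (D5, for any `l`, or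
`exists_reduction` and `pull_sig`) there is `φ₀ : AlgebraicClosure K →+* AlgebraicClosure K` with
`Ext (constantCoeff.comp f) φ₀`, i.e. `φ₀` is the identity on `K`, so it is an automorphism
`α ∈ AbsGal K` (`Algebra.IsAlgebraic.algHom_bijective`), and
`pull hφ (sig g) = pull hφ₀ g = α⁻¹ * g * α` (`eq_pull`). The homomorphism
`τ' = pull (ext_emb (rho K)) ∘ sig` is continuous (`continuous_pull`, `continuous_sig`) and
`rs (τ' g) = pull hφ (sig g) = α⁻¹ * g * α` (`pull_comp`). Put `τ g = τ' (α * g * α⁻¹)`. -/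
theorem exists_section : ∃ τ : AbsGal K →* AbsGal (RatFunc K), Continuous τ ∧
    ∀ g, rs K (τ g) = g := by
  have hφ : Ext ((rho K).comp (algebraMap K (RatFunc K))) ((emb (rho K)).comp (jj K)) :=
    (ext_jj K).comp (ext_emb (rho K))
  have hφ' : Ext ((HahnSeries.ofPowerSeries ℤ K).comp (PowerSeries.C (R := K)))
      ((emb (rho K)).comp (jj K)) := rho_comp (K := K) ▸ hφ
  obtain ⟨φ₀, hφ₀, h⟩ := exists_reduction (PowerSeries.C (R := K)) hφ'
  have hid : ∀ a : K, φ₀ (algebraMap K _ a) = algebraMap K _ a := by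
    intro a
    rw [hφ₀ a]
    congr 1
  let α₀ : AlgebraicClosure K →ₐ[K] AlgebraicClosure K := { φ₀ with commutes' := hid }
  let α : AbsGal K := AlgEquiv.ofBijective α₀ (Algebra.IsAlgebraic.algHom_bijective α₀)
  have hα : ∀ x, α x = φ₀ x := fun _ => rfl
  have hp : ∀ g : AbsGal K, pull hφ₀ g = α⁻¹ * g * α := by
    intro g
    refine (eq_pull hφ₀ g fun x => ?_).symm
    rw [← hα, ← hα]
    change α ((α⁻¹ * g * α) x) = g (α x)
    rw [← AlgEquiv.mul_apply, ← AlgEquiv.mul_apply, mul_assoc, mul_inv_cancel_left]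
  have hrs : ∀ g : AbsGal K, rs K (pull (ext_emb (rho K)) (sig g)) = α⁻¹ * g * α := by
    intro g
    have h1 : rs K (pull (ext_emb (rho K)) (sig g)) = pull hφ (sig g) :=
      (pull_comp (ext_jj K) (ext_emb (rho K)) (sig g)).symm
    have h2 : pull hφ (sig g) = pull hφ' (sig g) :=
      eq_pull hφ' (sig g) fun x => pull_spec hφ (sig g) x
    rw [h1, h2, pull_sig hφ' hφ₀ h g, hp]
  refine ⟨((pull (ext_emb (rho K))).comp (sig (K := K))).comp (MulAut.conj α).toMonoidHom, ?_, ?_⟩
  · have h1 : Continuous fun g : AbsGal K => α * g * α⁻¹ := by fun_prop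
    exact ((continuous_pull (ext_emb (rho K))).comp continuous_sig).comp h1
  · intro g
    change rs K (pull (ext_emb (rho K)) (sig (α * g * α⁻¹))) = g
    rw [hrs]
    group

end GC
end

section

/-!
# Classes of `K(t)` which are inflated from `K`
-/

namespace GC

universe u v w

variable {K : Type u} [Field K] {l : ℕ} [Fact l.Prime] {w : ℕ}

/-- TASK D8. A cocycle of `AbsGal (RatFunc K)` which is right invariant under the geometric Galois
group comes from `K`.

PROOF. Let `τ` be the section of D7. Put `y₀ x = ((twist (jj K))^w)⁻¹ • y (fun i => τ (x i))`.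
Equivariance: `y (τ (g x)) = τ g • y (τ x)` and `τ g` acts on `Tw l w` like `g = rs (τ g)`
(`cyc_pull` for `ext_jj K`). Smoothness by the continuity of `τ`; `d y₀ = 0` from `d y = 0` (`d_comp`,
`d_map`). `pullC (ext_jj K) y₀ x = y (fun i => τ (rs K (x i)))`, and `rs (τ (rs g)) = rs g`, so
`τ (rs g) = g * n` with `n = g⁻¹ * τ (rs g) ∈ NN K`; the value is `y x` by right invariance. (Note
`rs K = pull (ext_jj K)`, and `jj K = emb (algebraMap K (RatFunc K))`, by definition.) -/
theorem exists_descent (hl : (l : K) ≠ 0) {n : ℕ}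
    {y : (Fin (n + 1) → AbsGal (RatFunc K)) → Tw l w}
    (hy : y ∈ Coch (Tw l w) (⊤ : Subgroup (AbsGal (RatFunc K))) (NN K) n) (hd : d y = 0) :
    ∃ y₀ ∈ Cocyc (AbsGal K) (Tw l w) n,
      pullC l w (ext_emb (algebraMap K (RatFunc K))) n y₀ = y := by
  obtain ⟨τ, hτ, hτs⟩ := exists_section (K := K)
  obtain ⟨he, hN, U, hU, hU'⟩ := hy
  let a : ℤ_[l]ˣ := (twist l (jj K)) ^ w
  let f : Tw l w →+ Tw l w := DistribSMul.toAddMonoidHom (Tw l w) ((a⁻¹ : ℤ_[l]ˣ) : ℤ_[l])
  let y₀ : (Fin (n + 1) → AbsGal K) → Tw l w := fun x => f (y (fun i => τ (x i)))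
  have hf : ∀ m : Tw l w, f m = ((a⁻¹ : ℤ_[l]ˣ) : ℤ_[l]) • m := fun _ => rfl
  have hact : ∀ (g : AbsGal K) (m : Tw l w), τ g • m = g • m := by
    intro g m
    rw [Tw.smul_def, Tw.smul_def]
    have h1 := cyc_pull hl (ext_jj K) (τ g)
    have h2 : pull (ext_jj K) (τ g) = g := hτs g
    rw [h2] at h1
    rw [h1]
  refine ⟨y₀, ⟨⟨?_, ?_, ?_⟩, ?_⟩, ?_⟩
  · intro g _ x
    show f (y (fun i => τ (g * x i))) = g • f (y (fun i => τ (x i)))
    have h1 : (fun i => τ (g * x i)) = fun i => τ g * τ (x i) := by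
      funext i
      rw [map_mul]
    rw [h1, he (τ g) (Subgroup.mem_top _) (fun i => τ (x i)), hact, hf, hf]
    exact (smul_comm g _ _).symm
  · intro x u hu
    have h1 : (fun i => x i * u i) = x := by
      funext i
      rw [Subgroup.mem_bot.1 (hu i), mul_one]
    rw [h1]
  · refine ⟨U.comap τ, hU.preimage hτ, ?_⟩
    intro x u hu
    show f (y (fun i => τ (x i * u i))) = f (y (fun i => τ (x i)))
    have h1 : (fun i => τ (x i * u i)) = fun i => τ (x i) * τ (u i) := by
      funext i
      rw [map_mul]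
    rw [h1, hU' (fun i => τ (x i)) (fun i => τ (u i)) hu]
  · show dHom (AbsGal K) (Tw l w) (n + 1) y₀ = 0
    rw [dHom_apply]
    have h1 : d y₀ = fun x => f (d (fun z : Fin (n + 1) → AbsGal K => y (fun i => τ (z i))) x) :=
      d_map f _
    rw [h1]
    funext x
    have h2 : d (fun z : Fin (n + 1) → AbsGal K => y (fun i => τ (z i))) x =
        d y (fun i => τ (x i)) := rfl
    rw [h2, hd, Pi.zero_apply, map_zero, Pi.zero_apply]
  · funext x
    rw [pullC_apply]
    have h1 : y₀ (fun i => pull (ext_emb (algebraMap K (RatFunc K))) (x i)) =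
        f (y (fun i => τ (rs K (x i)))) := rfl
    have h2 : (((twist l (emb (algebraMap K (RatFunc K)))) ^ w : ℤ_[l]ˣ) : ℤ_[l]) =
        (a : ℤ_[l]) := rfl
    rw [h1, h2, hf, smul_smul, Units.mul_inv, one_smul]
    have h3 : (fun i => τ (rs K (x i))) = fun i => x i * ((x i)⁻¹ * τ (rs K (x i))) := by
      funext i
      rw [mul_inv_cancel_left]
    rw [h3]
    apply hN x
    intro i
    rw [mem_NN, map_mul, map_inv, hτs, inv_mul_cancel]

end GC
end

section

/-!
# The geometric function field
-/

namespace GC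

universe u v w

variable (K : Type u) [Field K]

/-- TASK F1 (first statement). The field of rational functions over the algebraic closure of `K`
embeds in the algebraic closure of `K(t)`.

PROOF. The element `tt K` is transcendental over the image of `jj K`: otherwise it would be algebraic
over `K`, as the elements of `AlgebraicClosure K` are algebraic over `K`, and so would be
`RatFunc.X : RatFunc K` (injectivity of `algebraMap`); but `RatFunc.X` is transcendental over `K`
(`RatFunc.transcendental_X`-like lemma, or: a polynomial in `RatFunc.X` is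
`algebraMap K[X] (RatFunc K)` of it). So `Polynomial.eval₂RingHom (jj K) (tt K)` is injective and
extends to the fraction field (`IsFractionRing.lift` or `RatFunc.liftRingHom`). -/
theorem exists_iota : ∃ ι : RatFunc (AlgebraicClosure K) →+* AlgebraicClosure (RatFunc K),
    (∀ c, ι (RatFunc.C c) = jj K c) ∧ ι RatFunc.X = tt K := by
  let _ : Algebra (AlgebraicClosure K) (AlgebraicClosure (RatFunc K)) := (jj K).toAlgebra
  have hst : IsScalarTower K (AlgebraicClosure K) (AlgebraicClosure (RatFunc K)) := by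
    refine IsScalarTower.of_algebraMap_eq fun x => ?_
    change _ = jj K (algebraMap K _ x)
    rw [ext_jj K x]
    exact IsScalarTower.algebraMap_apply K (RatFunc K) (AlgebraicClosure (RatFunc K)) x
  have htr : ¬ IsAlgebraic (AlgebraicClosure K) (tt K) := by
    intro h
    have h1 : IsAlgebraic K (tt K) := h.restrictScalars K
    have h2 : IsAlgebraic K (RatFunc.X : RatFunc K) :=
      (isAlgebraic_algebraMap_iff
        (algebraMap (RatFunc K) (AlgebraicClosure (RatFunc K))).injective).1 h1
    exact RatFunc.transcendental_X h2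
  have hinj : Function.Injective (Polynomial.eval₂RingHom (jj K) (tt K)) := by
    rw [injective_iff_map_eq_zero]
    intro P hP
    by_contra hne
    exact htr ⟨P, hne, by
      rw [Polynomial.aeval_def]
      exact hP⟩
  refine ⟨IsFractionRing.lift hinj, fun c => ?_, ?_⟩
  · have h1 := IsFractionRing.lift_algebraMap (K := RatFunc (AlgebraicClosure K)) hinj
      (Polynomial.C c)
    rw [Polynomial.coe_eval₂RingHom, Polynomial.eval₂_C] at h1
    exact h1
  · have h1 := IsFractionRing.lift_algebraMap (K := RatFunc (AlgebraicClosure K)) hinj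
      Polynomial.X
    rw [Polynomial.coe_eval₂RingHom, Polynomial.eval₂_X, RatFunc.algebraMap_X] at h1
    exact h1

/-- The embedding of the field of rational functions over the algebraic closure of `K`. -/
noncomputable def iota : RatFunc (AlgebraicClosure K) →+* AlgebraicClosure (RatFunc K) :=
  (exists_iota K).choose

lemma iota_C (c : AlgebraicClosure K) : iota K (RatFunc.C c) = jj K c :=
  (exists_iota K).choose_spec.1 c

lemma iota_X : iota K RatFunc.X = tt K := (exists_iota K).choose_spec.2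

/-- The algebraic closure of `K(t)` as an extension of the geometric function field. -/
noncomputable instance algOm :
    Algebra (RatFunc (AlgebraicClosure K)) (AlgebraicClosure (RatFunc K)) := (iota K).toAlgebra

lemma algebraMap_om (x : RatFunc (AlgebraicClosure K)) :
    algebraMap (RatFunc (AlgebraicClosure K)) (AlgebraicClosure (RatFunc K)) x = iota K x := rfl

/-- TASK F1 (second statement). The embedding `K(t) → K^{alg}(t) → Ω`.

PROOF. `ratFunc_hom_ext` (R0): both sides are ring homomorphisms `RatFunc K →+* Ω` which agree on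
constants (`ext_jj`, `iota_C`) and on `X`. -/
theorem iota_map (x : RatFunc K) :
    iota K (rmap (algebraMap K (AlgebraicClosure K)) x) =
      algebraMap (RatFunc K) (AlgebraicClosure (RatFunc K)) x := by
  have h : (iota K).comp (rmap (algebraMap K (AlgebraicClosure K))) =
      algebraMap (RatFunc K) (AlgebraicClosure (RatFunc K)) := by
    apply ratFunc_hom_ext
    · intro c
      rw [RingHom.comp_apply, rmap_C, iota_C]
      exact ext_jj K c
    · rw [RingHom.comp_apply, rmap_X, iota_X]
      rfl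
  exact congrArg (fun f => f x) h

/-- TASK F1 (third statement). The extension is algebraic.

PROOF. Each element of `Ω` is algebraic over `RatFunc K`, so over its image in
`RatFunc (AlgebraicClosure K)` (`iota_map`). -/
instance isAlgebraic_om :
    Algebra.IsAlgebraic (RatFunc (AlgebraicClosure K)) (AlgebraicClosure (RatFunc K)) := by
  refine ⟨fun x => ?_⟩
  obtain ⟨P, hP, hP'⟩ := Algebra.IsAlgebraic.isAlgebraic (R := RatFunc K) x
  refine ⟨P.map (rmap (algebraMap K (AlgebraicClosure K))), ?_, ?_⟩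
  · rwa [Ne, Polynomial.map_eq_zero_iff (rmap (algebraMap K (AlgebraicClosure K))).injective]
  · rw [Polynomial.aeval_def, Polynomial.eval₂_map]
    rw [Polynomial.aeval_def] at hP'
    have h : (algebraMap (RatFunc (AlgebraicClosure K)) (AlgebraicClosure (RatFunc K))).comp
        (rmap (algebraMap K (AlgebraicClosure K))) =
        algebraMap (RatFunc K) (AlgebraicClosure (RatFunc K)) := by
      ext y
      exact iota_map K y
    rw [h]
    exact hP'

variable {K}

/-- TASK F1 (fourth statement). The elements of `NN` are the automorphisms over the geometric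
function field.

PROOF. `g` fixes `tt K` and, by `mem_NN_iff`, the image of `jj`; so it fixes `iota K x` for
polynomials `x`, and for quotients. -/
theorem apply_iota {g : AbsGal (RatFunc K)} (hg : g ∈ NN K) (x : RatFunc (AlgebraicClosure K)) :
    g (iota K x) = iota K x := by
  have h : ((g : AlgebraicClosure (RatFunc K) →+* AlgebraicClosure (RatFunc K))).comp (iota K) =
      iota K := by
    apply ratFunc_hom_ext
    · intro c
      rw [RingHom.comp_apply, iota_C]
      exact mem_NN_iff.1 hg c
    · rw [RingHom.comp_apply, iota_X]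
      exact apply_tt g
  exact congrArg (fun f => f x) h

/-- TASK F1 (fifth statement). Conversely an automorphism over the geometric function field is in
`NN`.

PROOF. It fixes `RatFunc K` by `iota_map`, and the image of `jj` by `iota_C`. -/
theorem exists_of_autOm
    (s : AlgebraicClosure (RatFunc K) ≃ₐ[RatFunc (AlgebraicClosure K)]
      AlgebraicClosure (RatFunc K)) : ∃ g ∈ NN K, ∀ x, g x = s x := by
  refine ⟨AlgEquiv.ofRingEquiv (f := (s : AlgebraicClosure (RatFunc K) ≃+* _)) fun y => ?_, ?_,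
    fun x => rfl⟩
  · change s (algebraMap (RatFunc K) (AlgebraicClosure (RatFunc K)) y) = _
    rw [← iota_map K y]
    exact s.commutes _
  · rw [mem_NN_iff]
    intro x
    change s (jj K x) = jj K x
    rw [← iota_C]
    exact s.commutes _

/-- TASK F1 (sixth statement). The subgroup `NN` is closed (kernel of a continuous homomorphism to a
Hausdorff group, `continuous_pull`). -/
theorem isClosed_NN : IsClosed (NN K : Set (AbsGal (RatFunc K))) := by
  have h : Continuous (rs K) := continuous_pull (ext_jj K)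
  have h2 : (NN K : Set (AbsGal (RatFunc K))) = (rs K) ⁻¹' {1} := by
    ext g
    rw [Set.mem_preimage, Set.mem_singleton_iff]
    exact mem_NN
  rw [h2]
  exact isClosed_singleton.preimage h

end GC
end
end

section

/-!
# The normal form of a cocycle
-/

namespace GC

universe u v

variable {G : Type u} [Group G] [TopologicalSpace G] [IsTopologicalGroup G] [CompactSpace G]
  [TotallyDisconnectedSpace G] {M : Type v} [AddCommGroup M] [DistribMulAction G M]

/-- A normal form of the cochain `x` relative to the normal subgroup `N`: it is `d b` for a cochain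
`b` with values in the induced module whose image in the quotient `Q` is right invariant under
`N`; and `e` is the corresponding cochain with values in `Hom(N, M)`. -/
structure IsNF (N : Subgroup G) {n : ℕ} (x : (Fin (n + 2) → G) → M)
    (b : (Fin (n + 1) → G) → IndM G M) (e : (Fin (n + 1) → G) → HomM N M) : Prop where
  mem : b ∈ Coch (IndM G M) (⊤ : Subgroup G) ⊥ n
  d_eq : ∀ y, d b y = constI G M (x y)
  mem_q : (fun y => toQ G M (b y)) ∈ Coch (QM G M) (⊤ : Subgroup G) N n
  hom : ∀ y, QHom N (toQ G M (b y)) (e y)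

/-- TASK A13 (first statement). Existence of the normal form.

PROOF. `constI ∘ x` is a cocycle in `Coch (IndM G M) ⊤ ⊥ (n + 1)`, so it is `d b₀` with
`b₀ ∈ Coch (IndM G M) ⊤ ⊥ n` (`ind_acyclic`). `toQ ∘ b₀ ∈ Cocyc G (QM G M) n`, as
`toQ ∘ constI = 0`. The module `QM G M : Type (max u v)` is discrete (`disc_q`) and
`Van N (QM G M) 0` (`van_q`, `k = 0`). By `ir_surj` there is a cocycle `y ∈ Coch (QM G M) ⊤ N n` with
`toQ ∘ b₀ - y ∈ Cobd`. If `n = 0` then `toQ ∘ b₀ = y` and `b = b₀`. If `n = m + 1` then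
`toQ ∘ b₀ - y = d z`, `z ∈ Coch (QM G M) ⊤ ⊥ m`; lift `z` to `z' ∈ Coch (IndM G M) ⊤ ⊥ m`
(`SES.lift (ses_ind G M) (disc_ind hM)`) and put `b = b₀ - d z'`; then `d b = d b₀`, `toQ ∘ b = y`.
The values of `y` are fixed by `N`: `n • y z = y (n z) = y (z (z⁻¹ n z)) = y z`; so `exists_qHom`
(A12) gives `e`. -/
theorem exists_nf (N : Subgroup G) [N.Normal] (hN : IsClosed (N : Set G)) (hM : Disc G M)
    (htriv : ∀ n ∈ N, ∀ m : M, n • m = m) (hV : Van N M 1) {n : ℕ}
    {x : (Fin (n + 2) → G) → M} (hx : x ∈ Cocyc G M (n + 1)) :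
    ∃ b e, IsNF N x b e := by
  obtain ⟨hx1, hx2⟩ := hx
  have hdx : d x = 0 := hx2
  have hc1 : (fun y => constI G M (x y)) ∈ Coch (IndM G M) (⊤ : Subgroup G) ⊥ (n + 1) :=
    coch_map (constI G M) (fun g a => constI_smul g a) hx1
  have hc2 : d (fun y => constI G M (x y)) = 0 := by
    rw [d_map, hdx]
    funext z
    exact map_zero _
  obtain ⟨b₀, hb₀, hdb₀⟩ := ind_acyclic hc1 hc2
  have hq1 : (fun y => toQ G M (b₀ y)) ∈ Coch (QM G M) (⊤ : Subgroup G) ⊥ n :=
    coch_map (toQ G M) (fun g a => toQ_smul g a) hb₀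
  have hq2 : d (fun y => toQ G M (b₀ y)) = 0 := by
    rw [d_map, hdb₀]
    funext z
    refine QM.ext' fun a c => ?_
    simp
  have hq : (fun y => toQ G M (b₀ y)) ∈ Cocyc G (QM G M) n := ⟨hq1, hq2⟩
  obtain ⟨y, hy, -, hcob⟩ := ir_surj N hN n (QM G M) (disc_q hM) (van_q hN hM hV) _ hq
  have key : ∃ b ∈ Coch (IndM G M) (⊤ : Subgroup G) ⊥ n, d b = d b₀ ∧
      ∀ z, toQ G M (b z) = y z := by
    cases n with
    | zero =>
      have h0 : (fun z => toQ G M (b₀ z)) - y = 0 := hcob
      exact ⟨b₀, hb₀, rfl, fun z => sub_eq_zero.1 (congrFun h0 z)⟩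
    | succ m =>
      obtain ⟨z, hz, hdz⟩ := hcob
      obtain ⟨z', hz', hz''⟩ := SES.lift (ses_ind G M) (disc_ind hM) hz
      refine ⟨b₀ - d z', sub_mem hb₀ (d_mem hz'), ?_, ?_⟩
      · rw [d_sub, d_d, sub_zero]
      · intro w
        have h1 : toQ G M (d z' w) = d z w := by
          have h2 := congrFun (d_map (toQ G M) z') w
          rw [← h2]
          have h3 : (fun x => toQ G M (z' x)) = z := funext hz''
          rw [h3]
        have h4 : d z w = toQ G M (b₀ w) - y w := congrFun hdz w
        rw [Pi.sub_apply, map_sub, h1, h4, sub_sub_cancel]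
  obtain ⟨b, hb, hdb, hby⟩ := key
  have hfix : ∀ z, ∀ m ∈ N, m • y z = y z := by
    intro z m hm
    rw [← hy.1 m (Subgroup.mem_top m) z]
    have h1 : (fun i => m * z i) = fun i => z i * ((z i)⁻¹ * m * z i) := by
      funext i
      group
    rw [h1]
    refine hy.2.1 z (fun i => (z i)⁻¹ * m * z i) fun i => ?_
    have := Subgroup.Normal.conj_mem (H := N) inferInstance m hm (z i)⁻¹
    simpa using this
  choose e he using fun z => exists_qHom htriv (q := y z) (hfix z)
  refine ⟨b, e, hb, ?_, ?_, ?_⟩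
  · intro w
    rw [hdb, hdb₀]
  · have h1 : (fun z => toQ G M (b z)) = y := funext hby
    rw [h1]
    exact hy
  · intro w
    rw [hby]
    exact he w

/-- TASK A13 (second statement). The cochain `e` of a normal form is a cocycle in
`Coch (HomM N M) ⊤ N n`.

PROOF. Equivariance: `QHom N (toQ (b (g y))) (e (g y))` and `toQ (b (g y)) = g • toQ (b y)`, whose
homomorphism is `g • e y` by `QHom.smul`; use `QHom.unique`. Right invariance under `N` and
smoothness: `e y` depends only on `toQ (b y)` (`QHom.unique`), which is right invariant under `N` and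
smooth by `mem_q`. `d e = 0`: the homomorphism of the alternating sum
`d (toQ ∘ b) z = toQ (d b z) = toQ (constI _) = 0` is on the one hand `d e z` (by `QHom.add`,
`QHom.neg`, `QHom.zero` and induction on the sum, or evaluate: `(e y) n = toQ (b y) n 1`, so
`(d e z) n = d (toQ ∘ b) z n 1 = 0` by `d_map` with `HomM.ev n` and `QM.ev n 1`). -/
theorem IsNF.edge_mem {N : Subgroup G} [N.Normal] (htriv : ∀ n ∈ N, ∀ m : M, n • m = m) {n : ℕ}
    {x : (Fin (n + 2) → G) → M} {b : (Fin (n + 1) → G) → IndM G M}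
    {e : (Fin (n + 1) → G) → HomM N M} (h : IsNF N x b e) :
    e ∈ Coch (HomM N M) (⊤ : Subgroup G) N n ∧ d e = 0 := by
  have hdep : ∀ y z, toQ G M (b y) = toQ G M (b z) → e y = e z := by
    intro y z hyz
    have h1 := h.hom y
    rw [hyz] at h1
    exact QHom.unique h1 (h.hom z)
  obtain ⟨m1, m2, U, hU, m3⟩ := h.mem_q
  refine ⟨⟨fun g hg y => ?_, fun y u hu => hdep _ _ (m2 y u hu), U, hU,
    fun y u hu => hdep _ _ (m3 y u hu)⟩, ?_⟩
  · have h1 := h.hom (fun i => g * y i)
    have h2 : toQ G M (b fun i => g * y i) = g • toQ G M (b y) := m1 g hg y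
    rw [h2] at h1
    exact QHom.unique h1 (QHom.smul htriv (h.hom y) g)
  · funext z
    refine HomM.ext' fun m => ?_
    have h1 := congrFun (d_map (HomM.ev (M := M) m) e) z
    have h2 : (fun y => HomM.ev m (e y)) = fun y => QM.ev (m : G) 1 (toQ G M (b y)) := by
      funext y
      exact (h.hom y).2 m
    rw [h2] at h1
    have h3 := congrFun (d_map (QM.ev (M := M) (m : G) 1) (fun y => toQ G M (b y))) z
    rw [h3] at h1
    have h4 := congrFun (d_map (toQ G M) b) z
    rw [h4, h.d_eq z] at h1
    have h5 : (d e z) m = HomM.ev m (d e z) := rfl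
    rw [h5, ← h1]
    simp

end GC
end

section

/-!
# Restriction of normal forms to subgroups
-/

namespace GC

universe u v

variable {G : Type u} [Group G] [TopologicalSpace G] [IsTopologicalGroup G] [CompactSpace G]
  [TotallyDisconnectedSpace G] {M : Type v} [AddCommGroup M] [DistribMulAction G M]

/-- The restriction of a homomorphism on `N` to a subgroup `I` of a subgroup `D`, contained in
`N`. -/
def HomM.res {N D : Subgroup G} {I : Subgroup D} (hI : ∀ i ∈ I, (i : G) ∈ N) (M : Type v)
    [AddCommGroup M] : HomM N M →+ HomM I M where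
  toFun χ := ⟨fun i => χ ⟨(i : D), hI _ i.2⟩, fun a b =>
    χ.map_mul ⟨(a : D), hI _ a.2⟩ ⟨(b : D), hI _ b.2⟩, by
    obtain ⟨U, hU, h⟩ := χ.smooth
    exact ⟨U.subgroupOf D, hU.preimage continuous_subtype_val, fun n hn => h _ hn⟩⟩
  map_zero' := rfl
  map_add' _ _ := rfl

omit [IsTopologicalGroup G] [CompactSpace G] [TotallyDisconnectedSpace G]
  [DistribMulAction G M] in
@[simp] lemma HomM.res_apply {N D : Subgroup G} {I : Subgroup D} (hI : ∀ i ∈ I, (i : G) ∈ N)
    (χ : HomM N M) (i : I) : HomM.res hI M χ i = χ ⟨(i : D), hI _ i.2⟩ := rfl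

/-- The restriction of a smooth function to a subgroup. -/
def a16_res (D : Subgroup G) (f : IndM G M) : IndM D M :=
  ⟨fun z => f (z : G), by
    obtain ⟨U, hU, h⟩ := f.smooth
    exact ⟨U.subgroupOf D, hU.preimage continuous_subtype_val, fun x u hu => h _ _ hu⟩⟩

/-- TASK A16. The restriction of a normal form is a normal form, with the restricted edge cochain.

PROOF. Put `b' y z = (b (fun i => (y i : G))) z` for `y : Fin (n+1) → D`, `z : D` (the restriction of
the function `b (..) : G → M` to `D`). It is in `IndM D M` (intersect the open subgroup with `D`).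
`b' ∈ Coch (IndM D M) ⊤ ⊥ n`: `b' (g y) z = b (g y) z = (g • b y) z = g • (b y) (g⁻¹ z)
= (g • b' y) z` for `g, z ∈ D`; smooth by intersecting the open subgroup of `b` with `D`.
`d b' y z = (d b y) z = x y`. `toQ (b' y) z z' = toQ (b y) z z'`, so it is right invariant under `I`
in `y`, as `I` is contained in `N`. `QHom I (toQ (b' y)) (res (e y))`: for `i ∈ I`,
`(i • toQ (b' y)) z z' = i • (toQ (b y)) (i⁻¹ z) (i⁻¹ z') = (i • toQ (b y)) z z' = toQ (b y) z z'`,
and `(e y) i = toQ (b y) i 1 = toQ (b' y) i 1`. -/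
theorem IsNF.res {N D : Subgroup G} {I : Subgroup D} (hI : ∀ i ∈ I, (i : G) ∈ N) {n : ℕ}
    {x : (Fin (n + 2) → G) → M} {b : (Fin (n + 1) → G) → IndM G M}
    {e : (Fin (n + 1) → G) → HomM N M} (h : IsNF N x b e) :
    ∃ b', IsNF (G := D) I (fun y : Fin (n + 2) → D => x fun i => (y i : G)) b'
      (fun y : Fin (n + 1) → D => HomM.res hI M (e fun i => (y i : G))) := by
  obtain ⟨⟨h1, h2, U, hU, h3⟩, hd, ⟨hq1, hq2, V, hV, hq3⟩, hh⟩ := h
  refine ⟨fun y => a16_res D (b fun i => (y i : G)), ⟨?_, ?_, U.subgroupOf D,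
    hU.preimage continuous_subtype_val, ?_⟩, ?_, ⟨?_, ?_, V.subgroupOf D,
    hV.preimage continuous_subtype_val, ?_⟩, ?_⟩
  · intro g _ y
    refine IndM.ext' fun z => ?_
    have := h1 (g : G) trivial (fun i => (y i : G))
    have h4 := congrArg (fun f : IndM G M => f (z : G)) this
    exact h4
  · intro y u hu
    have h4 : y * u = y := by
      funext i
      have := Subgroup.mem_bot.mp (hu i)
      simp [this]
    change a16_res D (b fun i => ((y i * u i : D) : G)) = _
    have h5 : ∀ i, y i * u i = y i := fun i => congrFun h4 i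
    simp only [h5]
  · intro y u hu
    have h4 := h3 (fun i => (y i : G)) (fun i => (u i : G)) (fun i => hu i)
    change a16_res D (b fun i => ((y i : G) * (u i : G))) = _
    rw [h4]
  · intro y
    refine IndM.ext' fun z => ?_
    have h4 := congrArg (fun f : IndM G M => f (z : G)) (hd (fun i => (y i : G)))
    have h5 := congrFun (d_map (IndM.ev (G := D) (M := M) z)
      (fun y : Fin (n + 1) → D => a16_res D (b fun i => (y i : G)))) y
    have h6 := congrFun (d_map (IndM.ev (G := G) (M := M) (z : G)) b) (fun i => (y i : G))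
    change _ = x (fun i => (y i : G))
    have h7 : d b (fun i => (y i : G)) (z : G) = x (fun i => (y i : G)) := h4
    rw [← h7]
    exact h5.symm.trans h6
  · intro g _ y
    refine QM.ext' fun z z' => ?_
    have h4 := congrArg (fun f : QM G M => f (z : G) (z' : G))
      (hq1 (g : G) trivial (fun i => (y i : G)))
    exact h4
  · intro y u hu
    refine QM.ext' fun z z' => ?_
    have h4 := congrArg (fun f : QM G M => f (z : G) (z' : G))
      (hq2 (fun i => (y i : G)) (fun i => (u i : G)) (fun i => hI _ (hu i)))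
    exact h4
  · intro y u hu
    refine QM.ext' fun z z' => ?_
    have h4 := congrArg (fun f : QM G M => f (z : G) (z' : G))
      (hq3 (fun i => (y i : G)) (fun i => (u i : G)) (fun i => hu i))
    exact h4
  · intro y
    obtain ⟨h4, h5⟩ := hh (fun i => (y i : G))
    refine ⟨fun i hi => ?_, fun i => ?_⟩
    · refine QM.ext' fun z z' => ?_
      have h6 := congrArg (fun f : QM G M => f (z : G) (z' : G)) (h4 (i : G) (hI _ hi))
      exact h6
    · exact h5 ⟨(i : D), hI _ i.2⟩

end GC
end

section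

/-!
# Pullback of normal forms
-/

namespace GC

universe u v u' v'

variable {G : Type u} [Group G] [TopologicalSpace G] [IsTopologicalGroup G]
  {G' : Type u'} [Group G'] [TopologicalSpace G'] [IsTopologicalGroup G']
  {M : Type v} [AddCommGroup M] [DistribMulAction G M]
  {M' : Type v'} [AddCommGroup M'] [DistribMulAction G' M']

omit [DistribMulAction G M] [DistribMulAction G' M'] [IsTopologicalGroup G]
  [IsTopologicalGroup G'] in
/-- The pullback of a homomorphism on `N` by `ρ`, composed with `α`. -/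
def HomM.pull (ρ : G' →* G) (hρ : Continuous ρ) (α : M →+ M') {N : Subgroup G} {N' : Subgroup G'}
    (hN : ∀ n ∈ N', ρ n ∈ N) : HomM N M →+ HomM N' M' where
  toFun χ := ⟨fun n => α (χ ⟨ρ n, hN n n.2⟩), fun a b => by
    rw [← map_add, ← χ.map_mul]
    congr 2
    exact Subtype.ext (ρ.map_mul _ _), by
    obtain ⟨U, hU, h⟩ := χ.smooth
    refine ⟨U.comap ρ, hU.preimage hρ, fun n hn => ?_⟩
    rw [h ⟨ρ n, hN n n.2⟩ hn, map_zero]⟩
  map_zero' := HomM.ext' fun n => map_zero α
  map_add' χ χ' := HomM.ext' fun n => map_add α _ _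

omit [DistribMulAction G M] [DistribMulAction G' M'] [IsTopologicalGroup G]
  [IsTopologicalGroup G'] in
@[simp] lemma HomM.pull_apply (ρ : G' →* G) (hρ : Continuous ρ) (α : M →+ M') {N : Subgroup G}
    {N' : Subgroup G'} (hN : ∀ n ∈ N', ρ n ∈ N) (χ : HomM N M) (n : N') :
    HomM.pull ρ hρ α hN χ n = α (χ ⟨ρ n, hN n n.2⟩) := rfl

omit [DistribMulAction G M] [DistribMulAction G' M'] [IsTopologicalGroup G]
  [IsTopologicalGroup G'] in
/-- The pullback of a smooth function by `ρ`, composed with `α`. -/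
def w9_pull (ρ : G' →* G) (hρ : Continuous ρ) (α : M →+ M') (f : IndM G M) : IndM G' M' :=
  ⟨fun z => α (f (ρ z)), by
    obtain ⟨U, hU, h⟩ := f.smooth
    refine ⟨U.comap ρ, hU.preimage hρ, fun x u hu => ?_⟩
    rw [map_mul, h (ρ x) (ρ u) hu]⟩

/-- TASK W9. The pullback of a normal form is a normal form, with the pulled back edge cochain.

PROOF. Put `b' y z = α (b (fun i => ρ (y i)) (ρ z))`. As in A16 (`IsNF.res`):
equivariance `b' (g y) z = α (b (ρ g * ρ y) (ρ z)) = α (ρ g • b (ρ y) (ρ g⁻¹ * ρ z)) =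
g • α (b (ρ y) (ρ (g⁻¹ z)))` (`hα`); smoothness by the continuity of `ρ`; `d b' y z = α (x (ρ y))`;
`toQ (b' y) z z' = α (toQ (b (ρ y)) (ρ z) (ρ z'))` is right invariant under `N'` in `y`, fixed by `N'`
(`n • toQ (b' y) z z' = n • α (toQ (b (ρ y)) (ρ n⁻¹ ρ z) ..) = α ((ρ n • toQ (b (ρ y))) (ρ z) ..)`), and
`toQ (b' y) n 1 = α (toQ (b (ρ y)) (ρ n) 1) = α (e (ρ y) (ρ n))`. -/
theorem IsNF.pull (ρ : G' →* G) (hρ : Continuous ρ) (α : M →+ M')
    (hα : ∀ (g : G') (m : M), α (ρ g • m) = g • α m) {N : Subgroup G} {N' : Subgroup G'}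
    (hN : ∀ n ∈ N', ρ n ∈ N) {n : ℕ}
    {x : (Fin (n + 2) → G) → M} {b : (Fin (n + 1) → G) → IndM G M}
    {e : (Fin (n + 1) → G) → HomM N M} (h : IsNF N x b e) :
    ∃ b', IsNF N' (fun y : Fin (n + 2) → G' => α (x fun i => ρ (y i))) b'
      (fun y : Fin (n + 1) → G' => HomM.pull ρ hρ α hN (e fun i => ρ (y i))) := by
  obtain ⟨⟨h1, h2, U, hU, h3⟩, hd, ⟨hq1, hq2, V, hV, hq3⟩, hh⟩ := h
  refine ⟨fun y => w9_pull ρ hρ α (b fun i => ρ (y i)), ⟨?_, ?_, U.comap ρ,
    hU.preimage hρ, ?_⟩, ?_, ⟨?_, ?_, V.comap ρ, hV.preimage hρ, ?_⟩, ?_⟩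
  · intro g _ y
    refine IndM.ext' fun z => ?_
    have h4 := congrArg (fun f : IndM G M => f (ρ z)) (h1 (ρ g) trivial (fun i => ρ (y i)))
    have h5 : b (fun i => ρ g * ρ (y i)) (ρ z) = ρ g • b (fun i => ρ (y i)) ((ρ g)⁻¹ * ρ z) := h4
    have e1 : (fun i => ρ (g * y i)) = fun i => ρ g * ρ (y i) := funext fun i => map_mul ρ _ _
    change α (b (fun i => ρ (g * y i)) (ρ z)) = g • α (b (fun i => ρ (y i)) (ρ (g⁻¹ * z)))
    rw [e1, h5, hα, map_mul, map_inv]
  · intro y u hu
    have h5 : ∀ i, y i * u i = y i := fun i => by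
      have := Subgroup.mem_bot.mp (hu i)
      rw [this, mul_one]
    change w9_pull ρ hρ α (b fun i => ρ (y i * u i)) = _
    simp only [h5]
  · intro y u hu
    have h4 := h3 (fun i => ρ (y i)) (fun i => ρ (u i)) (fun i => hu i)
    have e1 : (fun i => ρ (y i * u i)) = fun i => ρ (y i) * ρ (u i) :=
      funext fun i => map_mul ρ _ _
    change w9_pull ρ hρ α (b fun i => ρ (y i * u i)) = _
    rw [e1, h4]
  · intro y
    refine IndM.ext' fun z => ?_
    have h4 := congrArg (fun f : IndM G M => f (ρ z)) (hd (fun i => ρ (y i)))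
    have h5 := congrFun (d_map (IndM.ev (G := G') (M := M') z)
      (fun y : Fin (n + 1) → G' => w9_pull ρ hρ α (b fun i => ρ (y i)))) y
    have h6 := congrFun (d_map (α.comp (IndM.ev (G := G) (M := M) (ρ z))) b) (fun i => ρ (y i))
    change _ = α (x (fun i => ρ (y i)))
    have h7 : d b (fun i => ρ (y i)) (ρ z) = x (fun i => ρ (y i)) := h4
    rw [← h7]
    exact h5.symm.trans h6
  · intro g _ y
    refine QM.ext' fun z z' => ?_
    have h4 := congrArg (fun f : QM G M => f (ρ z) (ρ z'))
      (hq1 (ρ g) trivial (fun i => ρ (y i)))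
    have h5 : b (fun i => ρ g * ρ (y i)) (ρ z') - b (fun i => ρ g * ρ (y i)) (ρ z)
        = ρ g • (b (fun i => ρ (y i)) ((ρ g)⁻¹ * ρ z') - b (fun i => ρ (y i)) ((ρ g)⁻¹ * ρ z)) :=
      h4
    have e1 : (fun i => ρ (g * y i)) = fun i => ρ g * ρ (y i) := funext fun i => map_mul ρ _ _
    change α (b (fun i => ρ (g * y i)) (ρ z')) - α (b (fun i => ρ (g * y i)) (ρ z))
      = g • (α (b (fun i => ρ (y i)) (ρ (g⁻¹ * z'))) - α (b (fun i => ρ (y i)) (ρ (g⁻¹ * z))))
    rw [e1, ← map_sub, h5, hα, map_sub, map_mul, map_mul, map_inv]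
  · intro y u hu
    refine QM.ext' fun z z' => ?_
    have h4 := congrArg (fun f : QM G M => f (ρ z) (ρ z'))
      (hq2 (fun i => ρ (y i)) (fun i => ρ (u i)) (fun i => hN _ (hu i)))
    have h5 : b (fun i => ρ (y i) * ρ (u i)) (ρ z') - b (fun i => ρ (y i) * ρ (u i)) (ρ z)
        = b (fun i => ρ (y i)) (ρ z') - b (fun i => ρ (y i)) (ρ z) := h4
    have e1 : (fun i => ρ (y i * u i)) = fun i => ρ (y i) * ρ (u i) :=
      funext fun i => map_mul ρ _ _
    change α (b (fun i => ρ (y i * u i)) (ρ z')) - α (b (fun i => ρ (y i * u i)) (ρ z))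
      = α (b (fun i => ρ (y i)) (ρ z')) - α (b (fun i => ρ (y i)) (ρ z))
    rw [e1, ← map_sub, h5, map_sub]
  · intro y u hu
    refine QM.ext' fun z z' => ?_
    have h4 := congrArg (fun f : QM G M => f (ρ z) (ρ z'))
      (hq3 (fun i => ρ (y i)) (fun i => ρ (u i)) (fun i => hu i))
    have h5 : b (fun i => ρ (y i) * ρ (u i)) (ρ z') - b (fun i => ρ (y i) * ρ (u i)) (ρ z)
        = b (fun i => ρ (y i)) (ρ z') - b (fun i => ρ (y i)) (ρ z) := h4
    have e1 : (fun i => ρ (y i * u i)) = fun i => ρ (y i) * ρ (u i) :=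
      funext fun i => map_mul ρ _ _
    change α (b (fun i => ρ (y i * u i)) (ρ z')) - α (b (fun i => ρ (y i * u i)) (ρ z))
      = α (b (fun i => ρ (y i)) (ρ z')) - α (b (fun i => ρ (y i)) (ρ z))
    rw [e1, ← map_sub, h5, map_sub]
  · intro y
    obtain ⟨h4, h5⟩ := hh (fun i => ρ (y i))
    refine ⟨fun i hi => ?_, fun i => ?_⟩
    · refine QM.ext' fun z z' => ?_
      have h6 := congrArg (fun f : QM G M => f (ρ z) (ρ z')) (h4 (ρ i) (hN _ hi))
      have h7 : ρ i • (b (fun i => ρ (y i)) ((ρ i)⁻¹ * ρ z') - b (fun i => ρ (y i)) ((ρ i)⁻¹ * ρ z))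
          = b (fun i => ρ (y i)) (ρ z') - b (fun i => ρ (y i)) (ρ z) := h6
      change i • (α (b (fun i => ρ (y i)) (ρ (i⁻¹ * z')))
          - α (b (fun i => ρ (y i)) (ρ (i⁻¹ * z))))
        = α (b (fun i => ρ (y i)) (ρ z')) - α (b (fun i => ρ (y i)) (ρ z))
      rw [← map_sub, ← map_sub, ← h7, ← hα, map_mul, map_mul, map_inv]
    · have h8 : (e fun i => ρ (y i)) ⟨ρ i, hN i i.2⟩
          = b (fun i => ρ (y i)) 1 - b (fun i => ρ (y i)) (ρ i) := h5 ⟨ρ i, hN _ i.2⟩
      change α ((e fun i => ρ (y i)) ⟨ρ i, hN i i.2⟩)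
        = α (b (fun i => ρ (y i)) (ρ 1)) - α (b (fun i => ρ (y i)) (ρ i))
      rw [h8, map_sub, map_one]

end GC
end
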