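import Pool.Agent.Lib.MP_859dd5_ag.Mg.G027
import Pool.Agent.Lib.MP_859dd5_ag.Mg.G033
import Pool.Agent.Lib.MP_859dd5_ag.Mg.G060
import Pool.Agent.Lib.MP_859dd5_ag.Mg.G036

section

/-!
# Injectivity of the inflation for modules which are acyclic for the normal subgroup
-/

namespace GC

universe u v

variable {G : Type u} [Group G] [TopologicalSpace G] [IsTopologicalGroup G] [CompactSpace G]
  [TotallyDisconnectedSpace G]

/-- TASK A11. If all higher cohomology groups of the closed normal subgroup `N` with coefficients in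
`A` vanish, then the inflation is injective.

PROOF. Induction on `n`, for all `A`.
`n = 0`: `d x (g, g * n) = x (g * n) - x g` (with `n ∈ N`) equals, by right invariance of
`y = d x` under `N`, `d x (g, g) = 0`; so `x` itself is right invariant under `N`: `x' = x`.
`n + 1`: let `y = d x ∈ Coch A ⊤ N (n + 2)`, `x ∈ Coch A ⊤ ⊥ (n + 1)`. `d y = 0` (`d_d`).
`constI ∘ y` is a cocycle in `Coch (IndM G A) ⊤ N (n + 2)`, so it is `d b'` with
`b' ∈ Coch (IndM G A) ⊤ N (n + 1)` (`ind_acyclic`). `constI ∘ x - b'` is a cocycle in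
`Coch (IndM G A) ⊤ ⊥ (n + 1)`, so it is `d b''` with `b'' ∈ Coch (IndM G A) ⊤ ⊥ n`. Apply `toQ`:
`- toQ ∘ b' = d (toQ ∘ b'')`, where `toQ ∘ b' ∈ Coch (QM G A) ⊤ N (n + 1)`. By induction for
`QM G A` (`disc_q`, `van_q`) applied to `y := toQ ∘ b'`, `x := - toQ ∘ b''` there is
`q' ∈ Coch (QM G A) ⊤ N n` with `toQ ∘ b' = d q'`. Its values are fixed by `N` (see A10), so it lifts
to `β ∈ Coch (IndM G A) ⊤ N n` (`exists_fixed_lift`, `lift_rel`). `toQ ∘ (b' - d β) = 0`, so
`b' - d β = constI ∘ x'` with `x' ∈ Coch A ⊤ N (n + 1)` (`SES.pull`), and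
`constI ∘ d x' = d b' = constI ∘ y`. -/
theorem ir_inj (N : Subgroup G) [N.Normal] (hN : IsClosed (N : Set G)) (n : ℕ)
    (A : Type (max u v)) [AddCommGroup A] [DistribMulAction G A] (hA : Disc G A)
    (hV : Van N A 0) (y : (Fin (n + 2) → G) → A) (hy : y ∈ Coch A (⊤ : Subgroup G) N (n + 1))
    (x : (Fin (n + 1) → G) → A) (hx : x ∈ Coch A (⊤ : Subgroup G) ⊥ n) (hyx : y = d x) :
    ∃ x' ∈ Coch A (⊤ : Subgroup G) N n, y = d x' := by
  induction n generalizing A with
  | zero =>
    refine ⟨x, ⟨hx.1, fun z u hu => ?_, hx.2.2⟩, hyx⟩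
    have hd : ∀ w : Fin 2 → G, d x w = x (fun _ => w 1) - x (fun _ => w 0) := by
      intro w
      have e0 : (fun i : Fin 1 => w ((0 : Fin 2).succAbove i)) = fun _ => w 1 := by
        funext i
        have : i = 0 := Subsingleton.elim _ _
        subst this
        rfl
      have e1 : (fun i : Fin 1 => w ((1 : Fin 2).succAbove i)) = fun _ => w 0 := by
        funext i
        have : i = 0 := Subsingleton.elim _ _
        subst this
        rfl
      unfold d
      rw [Fin.sum_univ_two, e0, e1]
      simp [sub_eq_add_neg]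
    have h1 := hy.2.1 (fun _ => z 0) (fun j => if j = 0 then 1 else u 0) (by
      intro j
      by_cases hj : j = 0
      · simp only [hj, if_true]
        exact N.one_mem
      · simp only [hj, if_false]
        exact hu 0)
    rw [hyx, hd, hd] at h1
    have e2 : (fun _ : Fin 1 => z 0) = z := by
      funext i
      have : i = 0 := Subsingleton.elim _ _
      rw [this]
    have e3 : (fun _ : Fin 1 => z 0 * u 0) = fun i => z i * u i := by
      funext i
      have : i = 0 := Subsingleton.elim _ _
      rw [this]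
    simp only [if_true, mul_one, sub_self, one_ne_zero, if_false] at h1
    rw [e2, e3] at h1
    exact sub_eq_zero.mp h1
  | succ n ih =>
    have hdy : d y = 0 := by
      rw [hyx]
      exact d_d x
    have hinj : Function.Injective (constI G A) := (ses_ind G A).inj
    -- the first primitive
    have hcy : (fun z => constI G A (y z)) ∈ Coch (IndM G A) (⊤ : Subgroup G) N (n + 2) :=
      coch_map (constI G A) constI_smul hy
    have hdcy : d (fun z => constI G A (y z)) = 0 := by
      rw [d_map, hdy]
      funext z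
      exact map_zero _
    obtain ⟨b', hb', hdb'⟩ := ind_acyclic hcy hdcy
    -- the second primitive
    have hcx : (fun z => constI G A (x z)) ∈ Coch (IndM G A) (⊤ : Subgroup G) ⊥ (n + 1) :=
      coch_map (constI G A) constI_smul hx
    have hb'1 : b' ∈ Coch (IndM G A) (⊤ : Subgroup G) ⊥ (n + 1) :=
      coch_mono le_rfl bot_le _ hb'
    have he : (fun z => constI G A (x z)) - b' ∈ Coch (IndM G A) (⊤ : Subgroup G) ⊥ (n + 1) :=
      AddSubgroup.sub_mem _ hcx hb'1
    have hde : d ((fun z => constI G A (x z)) - b') = 0 := by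
      rw [d_sub, d_map, hdb', ← hyx, sub_self]
    obtain ⟨b'', hb'', hdb''⟩ := ind_acyclic he hde
    -- pass to the quotient
    have htc : ∀ m : A, toQ G A (constI G A m) = 0 := fun m =>
      ((ses_ind G A).exact _).2 ⟨m, rfl⟩
    have hq1 : (fun z => toQ G A (b' z)) ∈ Coch (QM G A) (⊤ : Subgroup G) N (n + 1) :=
      coch_map (toQ G A) toQ_smul hb'
    have hq2 : (-fun z => toQ G A (b'' z)) ∈ Coch (QM G A) (⊤ : Subgroup G) ⊥ n :=
      AddSubgroup.neg_mem _ (coch_map (toQ G A) toQ_smul hb'')
    have hq12 : (fun z => toQ G A (b' z)) = d (-fun z => toQ G A (b'' z)) := by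
      rw [d_neg, d_map, hdb'']
      funext z
      simp only [Pi.neg_apply, Pi.sub_apply, map_sub, htc, zero_sub, neg_neg]
    obtain ⟨q', hq', hdq'⟩ := ih (QM G A) (disc_q hA)
      (van_q hN hA fun j _ => hV j (Nat.zero_le j)) _ hq1 _ hq2 hq12
    -- lift the values
    have hfix : ∀ z, ∀ m ∈ N, m • q' z = q' z := by
      intro z m hm
      rw [← hq'.1 m (Subgroup.mem_top m) z]
      have h1 := hq'.2.1 z (fun i => (z i)⁻¹ * m * z i) (fun i => by
        have h2 := (inferInstance : N.Normal).conj_mem m hm (z i)⁻¹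
        rwa [inv_inv] at h2)
      rw [← h1]
      congr 1
      funext i
      group
    obtain ⟨β, hβ, hβq⟩ := lift_rel (disc_ind hA) (fun b q => toQ G A b = q)
      (fun g b q h => by rw [toQ_smul, h]) hq'
      (fun z => exists_fixed_lift hN hA (hV 0 le_rfl) (hfix z))
    have hsub : b' - d β ∈ Coch (IndM G A) (⊤ : Subgroup G) N (n + 1) :=
      AddSubgroup.sub_mem _ hb' (d_mem hβ)
    have hzero : ∀ z, toQ G A ((b' - d β) z) = 0 := by
      intro z
      have h1 : (fun z => toQ G A (d β z)) = d q' := by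
        rw [← d_map]
        congr 1
        funext z
        exact hβq z
      have h2 : toQ G A (d β z) = toQ G A (b' z) := by
        rw [← hdq'] at h1
        exact congrFun h1 z
      rw [Pi.sub_apply, map_sub, h2, sub_self]
    obtain ⟨x', hx', hx'b⟩ := (ses_ind G A).pull hsub hzero
    refine ⟨x', hx', ?_⟩
    have h3 : (fun z => constI G A (d x' z)) = fun z => constI G A (y z) := by
      rw [← d_map, ← hdb']
      have h4 : (fun z => constI G A (x' z)) = b' - d β := funext hx'b
      rw [h4, d_sub, d_d, sub_zero]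
    funext z
    exact (hinj (congrFun h3 z)).symm

end GC
end

section

/-!
# The edge homomorphism vanishes on inflated classes
-/

namespace GC

universe u v

variable {G : Type u} [Group G] [TopologicalSpace G] [IsTopologicalGroup G] [CompactSpace G]
  [TotallyDisconnectedSpace G] {M : Type v} [AddCommGroup M] [DistribMulAction G M]

/-- Values of equivariant right invariant cochains are fixed by the normal subgroup. -/
private theorem a14_fix {N : Subgroup G} [N.Normal] {A : Type*} [AddCommGroup A]
    [DistribMulAction G A] {n : ℕ} {c : (Fin (n + 1) → G) → A}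
    (hc : c ∈ Coch A (⊤ : Subgroup G) N n) (z : Fin (n + 1) → G) : ∀ m ∈ N, m • c z = c z := by
  intro m hm
  rw [← hc.1 m (Subgroup.mem_top m) z]
  have h1 : (fun i => m * z i) = fun i => z i * ((z i)⁻¹ * m * z i) := by
    funext i
    group
  rw [h1]
  refine hc.2.1 z (fun i => (z i)⁻¹ * m * z i) fun i => ?_
  have := Subgroup.Normal.conj_mem (H := N) inferInstance m hm (z i)⁻¹
  simpa using this

/-- TASK A14. If the class of `x` is inflated from `G / N`, then the cochain `e` of a normal form of
`x` is a coboundary.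

PROOF. Let `x - y = d m` with `m ∈ Coch M ⊤ ⊥ (n + 1)`. `constI ∘ y` is a cocycle in
`Coch (IndM G M) ⊤ N (n + 2)`, so `constI ∘ y = d b₂` with `b₂ ∈ Coch (IndM G M) ⊤ N (n + 1)`
(`ind_acyclic`). `b - constI ∘ m - b₂ ∈ Coch (IndM G M) ⊤ ⊥ (n + 1)` is a cocycle, so it is `d b₃`
with `b₃ ∈ Coch (IndM G M) ⊤ ⊥ n`. Apply `toQ`: `toQ ∘ b - toQ ∘ b₂ = d (toQ ∘ b₃)`, and the left
hand side is in `Coch (QM G M) ⊤ N (n + 1)` (`mem_q`, `coch_map`). By `ir_inj` for `QM G M`
(`disc_q`, `van_q` with `k = 0`) it is `d q'` with `q' ∈ Coch (QM G M) ⊤ N n`. The values of `q'`,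
`toQ ∘ b₂` are fixed by `N` (right invariance under the normal subgroup `N` and equivariance).
Let `f y` be the homomorphism of `q' y` (`exists_qHom`); as in `IsNF.edge_mem`,
`f ∈ Coch (HomM N M) ⊤ N n`. The homomorphism of `toQ (b₂ y)` is zero: `b₂ y` is fixed by `N`, so
`toQ (b₂ y) n 1 = (b₂ y) 1 - (b₂ y) n = (b₂ y) 1 - (n⁻¹ • b₂ y) 1 = 0` (trivial action on `M`).
So `e = d f`: evaluate at `n ∈ N`: `(e y) n = toQ (b y) n 1 = toQ (b₂ y) n 1 + d q' y n 1
= d f y n`. -/
theorem IsNF.edge_cobd (N : Subgroup G) [N.Normal] (hN : IsClosed (N : Set G)) (hM : Disc G M)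
    (htriv : ∀ n ∈ N, ∀ m : M, n • m = m) (hV : Van N M 1) {n : ℕ}
    {x : (Fin (n + 3) → G) → M} {b : (Fin (n + 2) → G) → IndM G M}
    {e : (Fin (n + 2) → G) → HomM N M} (h : IsNF N x b e)
    {y : (Fin (n + 3) → G) → M} (hy : y ∈ Coch M (⊤ : Subgroup G) N (n + 2)) (hyd : d y = 0)
    (hxy : x - y ∈ Cobd G M (n + 2)) :
    ∃ f ∈ Coch (HomM N M) (⊤ : Subgroup G) N n, d f = e := by
  obtain ⟨m, hm, hdm⟩ := hxy
  have hdm' : ∀ z, d m z = x z - y z := fun z => congrFun hdm z
  -- `constI ∘ y = d b₂`
  have hc1 : (fun z => constI G M (y z)) ∈ Coch (IndM G M) (⊤ : Subgroup G) N (n + 2) :=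
    coch_map (constI G M) (fun g a => constI_smul g a) hy
  have hc2 : d (fun z => constI G M (y z)) = 0 := by
    rw [d_map, hyd]
    funext z
    exact map_zero _
  obtain ⟨b₂, hb₂, hdb₂⟩ := ind_acyclic hc1 hc2
  have hb₂' : b₂ ∈ Coch (IndM G M) (⊤ : Subgroup G) ⊥ (n + 1) :=
    coch_mono le_rfl bot_le (n + 1) hb₂
  have hcm : (fun z => constI G M (m z)) ∈ Coch (IndM G M) (⊤ : Subgroup G) ⊥ (n + 1) :=
    coch_map (constI G M) (fun g a => constI_smul g a) hm
  have hdiff : b - (fun z => constI G M (m z)) - b₂ ∈ Coch (IndM G M) (⊤ : Subgroup G) ⊥ (n + 1) :=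
    sub_mem (sub_mem h.mem hcm) hb₂'
  have hddiff : d (b - (fun z => constI G M (m z)) - b₂) = 0 := by
    rw [d_sub, d_sub, hdb₂, d_map]
    funext z
    simp only [Pi.sub_apply, Pi.zero_apply]
    rw [h.d_eq z, hdm' z, map_sub, sub_sub_cancel, sub_self]
  obtain ⟨b₃, hb₃, hdb₃⟩ := ind_acyclic hdiff hddiff
  -- the quotient
  have hq2 : (fun z => toQ G M (b₂ z)) ∈ Coch (QM G M) (⊤ : Subgroup G) N (n + 1) :=
    coch_map (toQ G M) (fun g a => toQ_smul g a) hb₂
  have hq3 : (fun z => toQ G M (b₃ z)) ∈ Coch (QM G M) (⊤ : Subgroup G) ⊥ n :=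
    coch_map (toQ G M) (fun g a => toQ_smul g a) hb₃
  have hdq3 : d (fun z => toQ G M (b₃ z)) =
      (fun z => toQ G M (b z)) - fun z => toQ G M (b₂ z) := by
    rw [d_map, hdb₃]
    funext z
    simp only [Pi.sub_apply]
    rw [map_sub, map_sub]
    have : toQ G M (constI G M (m z)) = 0 := QM.ext' fun a c => by simp
    rw [this, sub_zero]
  have hY : ((fun z => toQ G M (b z)) - fun z => toQ G M (b₂ z)) ∈
      Coch (QM G M) (⊤ : Subgroup G) N (n + 1) := sub_mem h.mem_q hq2
  obtain ⟨q', hq', hYq⟩ := ir_inj N hN n (QM G M) (disc_q hM) (van_q hN hM hV) _ hY _ hq3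
    hdq3.symm
  choose f hf using fun z => exists_qHom htriv (q := q' z) (a14_fix hq' z)
  have hdep : ∀ y z, q' y = q' z → f y = f z := by
    intro y z hyz
    have h1 := hf y
    rw [hyz] at h1
    exact QHom.unique h1 (hf z)
  obtain ⟨m1, m2, U, hU, m3⟩ := hq'
  refine ⟨f, ⟨fun g hg y => ?_, fun y u hu => hdep _ _ (m2 y u hu), U, hU,
    fun y u hu => hdep _ _ (m3 y u hu)⟩, ?_⟩
  · have h1 := hf (fun i => g * y i)
    rw [m1 g hg y] at h1
    exact QHom.unique h1 (QHom.smul htriv (hf y) g)
  · funext z
    refine HomM.ext' fun k => ?_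
    have h1 := congrFun (d_map (HomM.ev (M := M) k) f) z
    have h2 : (fun y => HomM.ev k (f y)) = fun y => QM.ev (k : G) 1 (q' y) := by
      funext y
      exact (hf y).2 k
    rw [h2] at h1
    have h3 := congrFun (d_map (QM.ev (M := M) (k : G) 1) q') z
    rw [h3, ← hYq] at h1
    have h5 : (d f z) k = HomM.ev k (d f z) := rfl
    have h6 : (e z) k = toQ G M (b z) k 1 := (h.hom z).2 k
    have h7 : toQ G M (b₂ z) k 1 = 0 := by
      have h8 := a14_fix hb₂ z ((k : G)⁻¹) (inv_mem k.2)
      have h9 : (((k : G)⁻¹) • b₂ z) 1 = (k : G)⁻¹ • (b₂ z) (((k : G)⁻¹)⁻¹ * 1) :=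
        IndM.smul_apply _ _ _
      rw [h8, htriv _ (inv_mem k.2), inv_inv, mul_one] at h9
      rw [toQ_apply, h9, sub_self]
    rw [h5, ← h1, h6]
    change toQ G M (b z) k 1 - toQ G M (b₂ z) k 1 = toQ G M (b z) k 1
    rw [h7, sub_zero]

end GC
end

section

/-!
# Valuation rings over the points of the affine line
-/

namespace GC

universe u v w

variable {K : Type u} [Field K]

/-- TASK F3 (first statement). Existence: `exists_valuationSubring` (V4) for `iota K` (`iota_C`,
`iota_X`, `map_sub`). -/
theorem exists_over (a : AlgebraicClosure K) :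
    ∃ O : ValuationSubring (AlgebraicClosure (RatFunc K)), Over O a := by
  obtain ⟨O, hc, ha⟩ := exists_valuationSubring (iota K) a
  refine ⟨O, fun c => ?_, ?_⟩
  · rw [← iota_C]
    exact hc c
  · rw [map_sub, iota_X, iota_C] at ha
    exact ha

/-- A constant is in the maximal ideal only if it is zero. -/
theorem f3_eq_zero {O : ValuationSubring (AlgebraicClosure (RatFunc K))}
    (hO : ∀ c, jj K c ∈ O) {c : AlgebraicClosure K} (hc : O.valuation (jj K c) < 1) : c = 0 := by
  by_contra h
  have h1 : O.valuation (jj K c⁻¹) ≤ 1 := (O.valuation_le_one_iff _).2 (hO _)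
  have h2 : O.valuation (jj K c) * O.valuation (jj K c⁻¹) = 1 := by
    rw [← map_mul, ← map_mul, mul_inv_cancel₀ h, map_one, map_one]
  have h3 : O.valuation (jj K c) * O.valuation (jj K c⁻¹) < 1 :=
    mul_lt_one_of_nonneg_of_lt_one_left zero_le hc h1
  rw [h2] at h3
  exact lt_irrefl _ h3

/-- TASK F3 (second statement). The point is unique.

PROOF. `jj K (a - b)` is in the maximal ideal, and if `a ≠ b` then so is `1`, since
`jj K ((a - b)⁻¹) ∈ O`. -/
theorem Over.unique {O : ValuationSubring (AlgebraicClosure (RatFunc K))} {a b : AlgebraicClosure K}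
    (ha : Over O a) (hb : Over O b) : a = b := by
  have h : O.valuation (jj K (a - b)) < 1 := by
    have : jj K (a - b) = (tt K - jj K b) - (tt K - jj K a) := by
      rw [map_sub]
      ring
    rw [this]
    exact O.valuation.map_sub_lt hb.2 ha.2
  exact sub_eq_zero.1 (f3_eq_zero ha.1 h)

/-- A constant is in the maximal ideal only if it is zero. -/
theorem Over.eq_zero {O : ValuationSubring (AlgebraicClosure (RatFunc K))}
    {a c : AlgebraicClosure K} (ha : Over O a) (hc : O.valuation (jj K c) < 1) : c = 0 :=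
  f3_eq_zero ha.1 hc

/-- TASK F3 (third statement). The trace on the geometric function field: `dvr_ratFunc` and
`comap_ratFunc_eq` (V4). -/
theorem Over.dvr_iota {O : ValuationSubring (AlgebraicClosure (RatFunc K))}
    {a : AlgebraicClosure K} (ha : Over O a) : IsDiscreteValuationRing (O.comap (iota K)) := by
  refine dvr_ratFunc (iota K) a O (fun c => ?_) ?_
  · rw [iota_C]
    exact ha.1 c
  · rw [map_sub, iota_X, iota_C]
    exact ha.2

theorem Over.comap_eq {O O' : ValuationSubring (AlgebraicClosure (RatFunc K))}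
    {a : AlgebraicClosure K} (ha : Over O a) (ha' : Over O' a) :
    O.comap (iota K) = O'.comap (iota K) := by
  refine comap_ratFunc_eq (iota K) (iota K) a O (fun c => ?_) ?_ O' (fun c => ?_) ?_
  · rw [iota_C]
    exact ha.1 c
  · rw [map_sub, iota_X, iota_C]
    exact ha.2
  · rw [iota_C]
    exact ha'.1 c
  · rw [map_sub, iota_X, iota_C]
    exact ha'.2

/-- The polynomials in `t` are in `O`. -/
theorem f3_poly_mem {O : ValuationSubring (AlgebraicClosure (RatFunc K))}
    {a : AlgebraicClosure K} (ha : Over O a) (Q : Polynomial (AlgebraicClosure K)) :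
    iota K (algebraMap (Polynomial (AlgebraicClosure K)) (RatFunc (AlgebraicClosure K)) Q) ∈ O := by
  have htt : tt K ∈ O := by
    have h : tt K = (tt K - jj K a) + jj K a := by ring
    rw [h]
    exact O.add_mem _ _ ((O.valuation_le_one_iff _).1 ha.2.le) (ha.1 a)
  induction Q using Polynomial.induction_on' with
  | add p q hp hq =>
    rw [map_add, map_add]
    exact O.add_mem _ _ hp hq
  | monomial n c =>
    rw [← Polynomial.C_mul_X_pow_eq_monomial, map_mul, map_pow, RatFunc.algebraMap_C,
      RatFunc.algebraMap_X, map_mul, map_pow, iota_C, iota_X]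
    exact O.mul_mem _ _ (ha.1 c) (pow_mem htt n)

/-- The value of a polynomial in `t` modulo the maximal ideal. -/
theorem f3_poly_sub {O : ValuationSubring (AlgebraicClosure (RatFunc K))}
    {a : AlgebraicClosure K} (ha : Over O a) (Q : Polynomial (AlgebraicClosure K)) :
    O.valuation (iota K (algebraMap (Polynomial (AlgebraicClosure K))
      (RatFunc (AlgebraicClosure K)) Q) - jj K (Q.eval a)) < 1 := by
  obtain ⟨R, hR⟩ := Polynomial.X_sub_C_dvd_sub_C_eval (a := a) (p := Q)
  have h : iota K (algebraMap (Polynomial (AlgebraicClosure K))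
      (RatFunc (AlgebraicClosure K)) Q) - jj K (Q.eval a) =
      (tt K - jj K a) * iota K (algebraMap (Polynomial (AlgebraicClosure K))
        (RatFunc (AlgebraicClosure K)) R) := by
    have h2 := congrArg (fun P => iota K (algebraMap (Polynomial (AlgebraicClosure K))
      (RatFunc (AlgebraicClosure K)) P)) hR
    simp only [map_sub, map_mul, RatFunc.algebraMap_C, RatFunc.algebraMap_X, iota_C, iota_X] at h2
    exact h2
  rw [h, map_mul]
  exact mul_lt_one_of_nonneg_of_lt_one_left zero_le ha.2
    ((O.valuation_le_one_iff _).2 (f3_poly_mem ha R))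

/-- TASK F3 (fourth statement). The trace on `K(t)` is a discrete valuation ring.

PROOF. By `iota_map` (F1) it is the trace of `O.comap (iota K)` under
`rmap (algebraMap K (AlgebraicClosure K))`, so by `comap_dvr` (V3) it is `⊤` or a discrete valuation
ring. It is not `⊤`: let `P ≠ 0` be the minimal polynomial of `a` over `K`; `P (X)` in `RatFunc K` is
not zero and its image `P (tt K)` in `Ω` is in the maximal ideal, as `P (X)` is a multiple of `X - a`
over `AlgebraicClosure K`; so its inverse is not in `O`. -/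
theorem Over.dvr {O : ValuationSubring (AlgebraicClosure (RatFunc K))}
    {a : AlgebraicClosure K} (ha : Over O a) :
    IsDiscreteValuationRing (O.comap (algebraMap (RatFunc K) (AlgebraicClosure (RatFunc K)))) := by
  have hcomap : (O.comap (iota K)).comap (rmap (algebraMap K (AlgebraicClosure K))) =
      O.comap (algebraMap (RatFunc K) (AlgebraicClosure (RatFunc K))) := by
    ext x
    rw [ValuationSubring.mem_comap, ValuationSubring.mem_comap, ValuationSubring.mem_comap,
      iota_map]
  rcases comap_dvr (rmap (algebraMap K (AlgebraicClosure K))) (O.comap (iota K)) ha.dvr_iota with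
    h | h
  · exfalso
    rw [hcomap] at h
    have hint : IsIntegral K a := Algebra.IsIntegral.isIntegral a
    have hP0 : minpoly K a ≠ 0 := minpoly.ne_zero hint
    have hx0 : algebraMap (Polynomial K) (RatFunc K) (minpoly K a) ≠ 0 := by
      intro h0
      exact hP0 ((FaithfulSMul.algebraMap_injective (Polynomial K) (RatFunc K))
        (by rw [h0, map_zero]))
    have hv : O.valuation (algebraMap (RatFunc K) (AlgebraicClosure (RatFunc K))
        (algebraMap (Polynomial K) (RatFunc K) (minpoly K a))) < 1 := by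
      have h1 := f3_poly_sub ha ((minpoly K a).map (algebraMap K (AlgebraicClosure K)))
      have h2 : ((minpoly K a).map (algebraMap K (AlgebraicClosure K))).eval a = 0 := by
        rw [Polynomial.eval_map_algebraMap]
        exact minpoly.aeval K a
      rw [h2, map_zero, sub_zero, ← rmap_algebraMap_poly, iota_map] at h1
      exact h1
    have hmem : (algebraMap (Polynomial K) (RatFunc K) (minpoly K a))⁻¹ ∈
        O.comap (algebraMap (RatFunc K) (AlgebraicClosure (RatFunc K))) := by
      rw [h]
      exact ValuationSubring.mem_top _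
    rw [ValuationSubring.mem_comap, map_inv₀, ← O.valuation_le_one_iff, map_inv₀] at hmem
    have hne : O.valuation (algebraMap (RatFunc K) (AlgebraicClosure (RatFunc K))
        (algebraMap (Polynomial K) (RatFunc K) (minpoly K a))) ≠ 0 := by
      rw [Valuation.ne_zero_iff]
      intro h0
      exact hx0 ((algebraMap (RatFunc K) (AlgebraicClosure (RatFunc K))).injective
        (by rw [h0, map_zero]))
    have hcontra := mul_lt_one_of_nonneg_of_lt_one_left zero_le hv hmem
    rw [mul_inv_cancel₀ hne] at hcontra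
    exact lt_irrefl _ hcontra
  · rw [hcomap] at h
    exact h

/-- The value of a rational function in `O` modulo the maximal ideal. -/
theorem f3_ratFunc {O : ValuationSubring (AlgebraicClosure (RatFunc K))}
    {a : AlgebraicClosure K} (ha : Over O a) {f : RatFunc (AlgebraicClosure K)}
    (hf : iota K f ∈ O) : ∃ c : AlgebraicClosure K, O.valuation (iota K f - jj K c) < 1 := by
  set U := iota K (algebraMap (Polynomial (AlgebraicClosure K))
    (RatFunc (AlgebraicClosure K)) f.num) with hU
  set V := iota K (algebraMap (Polynomial (AlgebraicClosure K))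
    (RatFunc (AlgebraicClosure K)) f.denom) with hV
  have hV0 : V ≠ 0 := by
    intro h0
    rw [hV, map_eq_zero_iff _ (iota K).injective] at h0
    exact f.denom_ne_zero ((FaithfulSMul.algebraMap_injective (Polynomial (AlgebraicClosure K))
      (RatFunc (AlgebraicClosure K))) (by rw [h0, map_zero]))
  have hUV : iota K f * V = U := by
    have h1 : f = algebraMap _ _ f.num / algebraMap _ _ f.denom := (RatFunc.num_div_denom f).symm
    have h2 : iota K f = U / V := by
      rw [hU, hV, ← map_div₀, ← h1]
    rw [h2, div_mul_cancel₀ _ hV0]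
  have hUs := f3_poly_sub ha f.num
  have hVs := f3_poly_sub ha f.denom
  rw [← hU] at hUs
  rw [← hV] at hVs
  have hVa : f.denom.eval a ≠ 0 := by
    intro h0
    rw [h0, map_zero, sub_zero] at hVs
    have hUv : O.valuation U < 1 := by
      rw [← hUV, map_mul, mul_comm]
      exact mul_lt_one_of_nonneg_of_lt_one_left zero_le hVs ((O.valuation_le_one_iff _).2 hf)
    have h1 : O.valuation (jj K (f.num.eval a)) < 1 := by
      have : jj K (f.num.eval a) = U - (U - jj K (f.num.eval a)) := by ring
      rw [this]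
      exact O.valuation.map_sub_lt hUv hUs
    have h2 : f.num.eval a = 0 := ha.eq_zero h1
    obtain ⟨p, q, hpq⟩ := RatFunc.isCoprime_num_denom f
    have h3 := congrArg (Polynomial.eval a) hpq
    rw [Polynomial.eval_add, Polynomial.eval_mul, Polynomial.eval_mul, h0, h2, mul_zero, mul_zero,
      add_zero, Polynomial.eval_one] at h3
    exact zero_ne_one h3
  have hVval : O.valuation V = 1 := by
    apply le_antisymm ((O.valuation_le_one_iff _).2 (f3_poly_mem ha f.denom))
    by_contra hlt
    rw [not_le] at hlt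
    have h1 : O.valuation (jj K (f.denom.eval a)) < 1 := by
      have : jj K (f.denom.eval a) = V - (V - jj K (f.denom.eval a)) := by ring
      rw [this]
      exact O.valuation.map_sub_lt hlt hVs
    exact hVa (ha.eq_zero h1)
  refine ⟨f.num.eval a / f.denom.eval a, ?_⟩
  have hW := f3_poly_sub ha (f.num - Polynomial.C (f.num.eval a / f.denom.eval a) * f.denom)
  have hev : (f.num - Polynomial.C (f.num.eval a / f.denom.eval a) * f.denom).eval a = 0 := by
    rw [Polynomial.eval_sub, Polynomial.eval_mul, Polynomial.eval_C, div_mul_cancel₀ _ hVa,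
      sub_self]
  rw [hev, map_zero, sub_zero, map_sub, map_mul, RatFunc.algebraMap_C, map_sub, map_mul, iota_C,
    ← hU, ← hV, ← hUV, ← sub_mul, map_mul, hVval, mul_one] at hW
  exact hW

/-- The product of elements of valuation at least one has valuation at least one. -/
theorem f3_prod {O : ValuationSubring (AlgebraicClosure (RatFunc K))}
    (z : AlgebraicClosure (RatFunc K)) (s : Multiset (AlgebraicClosure K))
    (hs : ∀ r ∈ s, 1 ≤ O.valuation (z - jj K r)) :
    1 ≤ O.valuation ((s.map (fun r => z - jj K r)).prod) := by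
  induction s using Multiset.induction_on with
  | empty => simp
  | cons r s ih =>
    rw [Multiset.map_cons, Multiset.prod_cons, map_mul]
    have h1 := hs r (Multiset.mem_cons_self r s)
    have h2 := ih (fun r' hr' => hs r' (Multiset.mem_cons_of_mem hr'))
    exact one_le_mul h1 h2

/-- TASK F3 (fifth statement). The residue field is the algebraic closure of `K`.

PROOF. `z` is algebraic over `RatFunc (AlgebraicClosure K)` (`isAlgebraic_om`): `∑ i ≤ n, f_i z^i = 0`
with rational functions `f_i`, not all zero; multiply by a power of `X - a` (possibly negative) such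
that all `f_i` are regular at `a` and one of them does not vanish at `a`: then for each `i` there is
`c_i` with `O.valuation (iota f_i - jj c_i) < 1` (if `f = u / v` with `v (a) ≠ 0` then
`c = u (a) / v (a)`), not all `c_i` zero. So the nonzero polynomial `P = ∑ c_i X^i` over
`AlgebraicClosure K` satisfies `O.valuation (P (z)) < 1` (`z ∈ O`); it is not constant (`Over.eq_zero`)
and it is a product of a nonzero constant and of factors `X - r_i`; so `O.valuation (z - jj r_i) < 1`
for some `i`. -/
theorem Over.residue {O : ValuationSubring (AlgebraicClosure (RatFunc K))}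
    {a : AlgebraicClosure K} (ha : Over O a) {z : AlgebraicClosure (RatFunc K)} (hz : z ∈ O) :
    ∃ c : AlgebraicClosure K, O.valuation (z - jj K c) < 1 := by
  obtain ⟨p, hp0, hpz⟩ := Algebra.IsAlgebraic.isAlgebraic (R := RatFunc (AlgebraicClosure K)) z
  -- a coefficient of maximal valuation
  have hne : p.support.Nonempty := Polynomial.nonempty_support_iff.2 hp0
  obtain ⟨i0, hi0, hmax⟩ := p.support.exists_max_image
    (fun i => O.valuation (iota K (p.coeff i))) hne
  have hci0 : p.coeff i0 ≠ 0 := Polynomial.mem_support_iff.1 hi0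
  have hvi0 : O.valuation (iota K (p.coeff i0)) ≠ 0 := by
    rw [Valuation.ne_zero_iff]
    intro h0
    exact hci0 ((iota K).injective (by rw [h0, map_zero]))
  have hle : ∀ i, iota K (p.coeff i / p.coeff i0) ∈ O := by
    intro i
    rw [← O.valuation_le_one_iff, map_div₀, map_div₀]
    by_cases hi : p.coeff i = 0
    · rw [hi, map_zero, map_zero, zero_div]
      exact zero_le
    · have h1 := hmax i (Polynomial.mem_support_iff.2 hi)
      exact div_le_one_of_le₀ h1 zero_le
  choose c hc using fun i => f3_ratFunc ha (hle i)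
  have hc0 : c i0 = 1 := by
    have h1 := hc i0
    rw [div_self hci0, map_one] at h1
    have h2 : O.valuation (jj K (1 - c i0)) < 1 := by
      rw [map_sub, map_one]
      exact h1
    exact (sub_eq_zero.1 (ha.eq_zero h2)).symm
  set P : Polynomial (AlgebraicClosure K) :=
    ∑ i ∈ p.support, Polynomial.C (c i) * Polynomial.X ^ i with hP
  have hP0 : P ≠ 0 := by
    intro h0
    have h1 : P.coeff i0 = 1 := by
      rw [hP, Polynomial.finsetSum_coeff]
      simp only [Polynomial.coeff_C_mul, Polynomial.coeff_X_pow]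
      rw [Finset.sum_eq_single i0]
      · rw [if_pos rfl, mul_one, hc0]
      · intro j _ hj
        rw [if_neg (Ne.symm hj), mul_zero]
      · intro h
        exact absurd hi0 h
    rw [h0, Polynomial.coeff_zero] at h1
    exact zero_ne_one h1
  have hPz : O.valuation (P.eval₂ (jj K) z) < 1 := by
    have h1 : P.eval₂ (jj K) z = ∑ i ∈ p.support, jj K (c i) * z ^ i := by
      rw [hP, Polynomial.eval₂_finsetSum]
      refine Finset.sum_congr rfl (fun i _ => ?_)
      rw [Polynomial.eval₂_mul, Polynomial.eval₂_C, Polynomial.eval₂_X_pow]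
    have h2 : ∑ i ∈ p.support, iota K (p.coeff i / p.coeff i0) * z ^ i = 0 := by
      have h3 : Polynomial.aeval z p = ∑ i ∈ p.support, iota K (p.coeff i) * z ^ i := by
        rw [Polynomial.aeval_def, Polynomial.eval₂_eq_sum, Polynomial.sum_def]
        rfl
      have h4 : ∑ i ∈ p.support, iota K (p.coeff i / p.coeff i0) * z ^ i =
          (iota K (p.coeff i0))⁻¹ * ∑ i ∈ p.support, iota K (p.coeff i) * z ^ i := by
        rw [Finset.mul_sum]
        refine Finset.sum_congr rfl (fun i _ => ?_)
        rw [map_div₀, div_eq_mul_inv]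
        ring
      rw [h4, ← h3, hpz, mul_zero]
    have h5 : P.eval₂ (jj K) z =
        ∑ i ∈ p.support, -((iota K (p.coeff i / p.coeff i0) - jj K (c i)) * z ^ i) := by
      rw [h1]
      have h6 : ∑ i ∈ p.support, jj K (c i) * z ^ i =
          ∑ i ∈ p.support, (jj K (c i) * z ^ i - iota K (p.coeff i / p.coeff i0) * z ^ i) := by
        rw [Finset.sum_sub_distrib, h2, sub_zero]
      rw [h6]
      refine Finset.sum_congr rfl (fun i _ => ?_)
      ring
    rw [h5]
    refine O.valuation.map_sum_lt one_ne_zero (fun i _ => ?_)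
    rw [Valuation.map_neg, map_mul]
    exact mul_lt_one_of_nonneg_of_lt_one_left zero_le (hc i)
      ((O.valuation_le_one_iff _).2 (pow_mem hz i))
  by_contra hcon
  have hcon' : ∀ r : AlgebraicClosure K, 1 ≤ O.valuation (z - jj K r) := by
    intro r
    by_contra h
    exact hcon ⟨r, not_le.1 h⟩
  have hsplit : P = Polynomial.C P.leadingCoeff *
      (P.roots.map (fun r => Polynomial.X - Polynomial.C r)).prod :=
    (IsAlgClosed.splits P).eq_prod_roots
  have heval : P.eval₂ (jj K) z =
      jj K P.leadingCoeff * (P.roots.map (fun r => z - jj K r)).prod := by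
    have h1 : P.eval₂ (jj K) z = Polynomial.eval₂RingHom (jj K) z
        (Polynomial.C P.leadingCoeff *
          (P.roots.map (fun r => Polynomial.X - Polynomial.C r)).prod) := by
      rw [← hsplit]
      rfl
    rw [h1, map_mul, map_multiset_prod, Multiset.map_map]
    congr 1
    · simp
    · congr 1
      refine Multiset.map_congr rfl (fun r _ => ?_)
      simp
  have hlead : 1 ≤ O.valuation (jj K P.leadingCoeff) := by
    by_contra h
    exact hP0 (Polynomial.leadingCoeff_eq_zero.1 (ha.eq_zero (not_le.1 h)))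
  have hprod := f3_prod z P.roots (O := O) (fun r _ => hcon' r)
  rw [heval, map_mul] at hPz
  exact absurd hPz (not_lt.2 (one_le_mul hlead hprod))

end GC
end

section

/-!
# Decomposition and inertia groups over the points of the affine line
-/

namespace GC

universe u v w

open scoped Pointwise

variable {K : Type u} [Field K]

lemma f4_val_lt {L : Type v} [Field L] (O : ValuationSubring L) (x : L) :
    O.valuation x < 1 ↔ x = 0 ∨ x⁻¹ ∉ O := by
  rcases eq_or_ne x 0 with rfl | hx
  · simp
  · rw [← O.valuation_le_one_iff, map_inv₀, not_le, or_iff_right hx,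
      one_lt_inv₀ (zero_lt_iff.mpr ((O.valuation.ne_zero_iff).mpr hx))]

lemma f4_mem_smul {F : Type v} {L : Type w} [Field F] [Field L] [Algebra F L]
    (O : ValuationSubring L) (g : L ≃ₐ[F] L) (x : L) : g x ∈ g • O ↔ x ∈ O :=
  ValuationSubring.smul_mem_pointwise_smul_iff

lemma f4_val_smul {F : Type v} {L : Type w} [Field F] [Field L] [Algebra F L]
    (O : ValuationSubring L) (g : L ≃ₐ[F] L) (x : L) :
    (g • O).valuation (g x) < 1 ↔ O.valuation x < 1 := by
  rw [f4_val_lt, f4_val_lt, ← map_inv₀, f4_mem_smul, EmbeddingLike.map_eq_zero_iff]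

/-- TASK F4 (first statement). The Galois group permutes the points.

PROOF. `jj K c ∈ g • O` iff `g⁻¹ (jj K c) = jj K (rs K g⁻¹ c) ∈ O`; and
`g⁻¹ (tt K - jj K (rs K g a)) = tt K - jj K a`; `x` is in the maximal ideal of `g • O` iff `g⁻¹ x` is
in the maximal ideal of `O` (`x = 0` or `x⁻¹ ∉ g • O`). -/
theorem Over.smul {O : ValuationSubring (AlgebraicClosure (RatFunc K))}
    {a : AlgebraicClosure K} (ha : Over O a) (g : AbsGal (RatFunc K)) :
    Over (g • O) (rs K g a) := by
  refine ⟨fun c => ?_, ?_⟩
  · have h := (f4_mem_smul O g (jj K (rs K g⁻¹ c))).mpr (ha.1 _)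
    rwa [jj_rs, ← AlgEquiv.mul_apply, mul_inv_cancel, AlgEquiv.one_apply] at h
  · have h := (f4_val_smul O g (tt K - jj K a)).mpr ha.2
    rwa [map_sub, apply_tt, ← jj_rs] at h

/-- TASK F4 (second statement). The decomposition group fixes the point (`Over.smul`,
`Over.unique`). -/
theorem Over.rs_eq {O : ValuationSubring (AlgebraicClosure (RatFunc K))}
    {a : AlgebraicClosure K} (ha : Over O a) {g : AbsGal (RatFunc K)}
    (hg : g ∈ O.decompositionSubgroup (RatFunc K)) : rs K g a = a := by
  have h := ha.smul g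
  rw [show g • O = O from hg] at h
  exact h.unique ha

/-- TASK F4 (third statement). The inertia group is the geometric part of the decomposition group.

PROOF. By `mem_inertia_iff` (V5). If `g` is in the inertia group and `c ∈ AlgebraicClosure K`, then
`g (jj K c) - jj K c = jj K (rs K g c - c)` is in the maximal ideal, so `rs K g c = c`
(`Over.eq_zero`). Conversely let `g ∈ NN K` and `z ∈ O`; by `Over.residue` `z = jj K c + m`, and
`g z - z = g m - m`, where `g m` is in the maximal ideal, too (`val_decomp_lt_one`, V5). -/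
theorem Over.mem_inertia {O : ValuationSubring (AlgebraicClosure (RatFunc K))}
    {a : AlgebraicClosure K} (ha : Over O a) (g : O.decompositionSubgroup (RatFunc K)) :
    g ∈ O.inertiaSubgroup (RatFunc K) ↔ (g : AbsGal (RatFunc K)) ∈ NN K := by
  rw [mem_inertia_iff, mem_NN_iff]
  constructor
  · intro h x
    have h1 := h _ (ha.1 x)
    rw [← jj_rs, ← map_sub] at h1
    have h2 := ha.eq_zero h1
    rw [← jj_rs, sub_eq_zero.mp h2]
  · intro h z hz
    obtain ⟨c, hc⟩ := ha.residue hz
    have h1 : O.valuation ((g : AbsGal (RatFunc K)) (z - jj K c)) < 1 :=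
      (val_decomp_lt_one O g.2 _).mpr hc
    have h2 : (g : AbsGal (RatFunc K)) z - z =
        (g : AbsGal (RatFunc K)) (z - jj K c) - (z - jj K c) := by
      rw [map_sub, h c]
      ring
    rw [h2]
    exact O.valuation.map_sub_lt h1 hc

/-- TASK F4 (fourth statement). The stabilizer of the point is the product of the decomposition group
and of the geometric Galois group.

PROOF. `Over (g • O) a` (`Over.smul`), so `O` and `g • O` have the same trace on the geometric function
field (`Over.comap_eq`, with `algebraMap_om`), and by `exists_smul_eq` (V2; `isAlgebraic_om`) there is an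
automorphism `s` over it with `s • O = g • O`, given by `m ∈ NN K` (`exists_of_autOm`, F1): `m • O =
g • O`. So `d := m⁻¹ * g` is in the decomposition group and `g = m * d = d * (d⁻¹ * m * d)`. -/
theorem Over.exists_mul {O : ValuationSubring (AlgebraicClosure (RatFunc K))}
    {a : AlgebraicClosure K} (ha : Over O a) {g : AbsGal (RatFunc K)} (hg : rs K g a = a) :
    ∃ d ∈ O.decompositionSubgroup (RatFunc K), ∃ n ∈ NN K, g = d * n := by
  have h1 : Over (g • O) a := by
    have h := ha.smul g
    rwa [hg] at h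
  obtain ⟨s, hs⟩ := exists_smul_eq O (g • O) (ha.comap_eq h1)
  obtain ⟨m, hm, hms⟩ := exists_of_autOm s
  have h2 : m • O = g • O := by
    rw [← hs]
    ext x
    obtain ⟨y, rfl⟩ := s.surjective x
    rw [f4_mem_smul, ← hms, f4_mem_smul]
  have h3 : m⁻¹ * g ∈ O.decompositionSubgroup (RatFunc K) := by
    change (m⁻¹ * g) • O = O
    rw [mul_smul, ← h2, inv_smul_smul]
  refine ⟨m⁻¹ * g, h3, (m⁻¹ * g)⁻¹ * m * (m⁻¹ * g), ?_, ?_⟩
  · have h := (inferInstance : (NN K).Normal).conj_mem m hm (m⁻¹ * g)⁻¹
    rwa [inv_inv] at h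
  · group

lemma f4_open (b : AlgebraicClosure K) : IsOpen {g : AbsGal (RatFunc K) | rs K g b = b} := by
  have h : IsOpen (MulAction.stabilizer (AbsGal K) b : Set (AbsGal K)) :=
    stabilizer_isOpen_of_isIntegral b
  exact h.preimage (continuous_pull (ext_jj K))

/-- TASK F4 (fifth statement). The stabilizers of the points are open.

PROOF. The stabilizer of `a` in `AbsGal K` is open (`stabilizer_isOpen_of_isIntegral`), and `rs` is
continuous (`continuous_pull`, B2). -/
theorem isOpen_stabilizer_pt (a : Pt K) :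
    IsOpen (MulAction.stabilizer (AbsGal (RatFunc K)) a : Set (AbsGal (RatFunc K))) :=
  f4_open a

end GC
end

section

/-!
# Kummer characters
-/

namespace GC

universe u v w

variable {K : Type u} [Field K] {l : ℕ} [Fact l.Prime] {w : ℕ}

private lemma f5_hl (hl : (l : K) ≠ 0) : (l : (AlgebraicClosure (RatFunc K))) ≠ 0 := by
  intro h
  apply hl
  apply (algebraMap K (AlgebraicClosure K)).injective
  apply (jj K).injective
  rw [map_natCast, map_natCast, h, map_zero, map_zero]

private lemma f5_hl' (hl : (l : K) ≠ 0) : (l : AlgebraicClosure K) ≠ 0 := by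
  intro h
  apply hl
  apply (algebraMap K (AlgebraicClosure K)).injective
  rw [map_natCast, h, map_zero]

private lemma f5_base (a : AlgebraicClosure K) : tt K - jj K a ≠ 0 := by
  intro h
  rw [sub_eq_zero, ← iota_X, ← iota_C] at h
  have h2 : (RatFunc.X : RatFunc (AlgebraicClosure K)) = RatFunc.C a := (iota K).injective h
  rw [← RatFunc.algebraMap_X, ← RatFunc.algebraMap_C] at h2
  exact Polynomial.X_ne_C a (RatFunc.algebraMap_injective _ h2)

private lemma f5_ne {a : AlgebraicClosure K} {r : ℕ → AlgebraicClosure (RatFunc K)}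
    (h0 : r 0 = tt K - jj K a) (hr : ∀ n, r (n + 1) ^ l = r n) (n : ℕ) : r n ≠ 0 := by
  induction n with
  | zero => rw [h0]; exact f5_base a
  | succ n ih =>
    intro h
    apply ih
    rw [← hr n, h, zero_pow (Fact.out : l.Prime).ne_zero]

private lemma f5_root (hl : (l : K) ≠ 0) {n : ℕ} {ζ : (AlgebraicClosure (RatFunc K))} (hζ : ζ ^ l ^ n = 1)
    {g : AbsGal (RatFunc K)} (hg : g ∈ NN K) : g ζ = ζ := by
  have hε := (isEps_eps (Ω := AlgebraicClosure K) (l := l) (f5_hl' hl)).1 n
  have hε' : IsPrimitiveRoot (jj K (eps (AlgebraicClosure K) l n)) (l ^ n) :=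
    hε.map_of_injective (jj K).injective
  have : NeZero (l ^ n) := ⟨pow_ne_zero _ (Fact.out : l.Prime).ne_zero⟩
  obtain ⟨i, _, hi⟩ := hε'.eq_pow_of_pow_eq_one hζ
  rw [← hi, ← map_pow]
  exact (mem_NN_iff.mp hg) _

private lemma f5_pow {x : ℕ → AlgebraicClosure (RatFunc K)} (h0 : x 0 = 1) (hx : ∀ n, x (n + 1) ^ l = x n) (n : ℕ) :
    x n ^ l ^ n = 1 := by
  induction n with
  | zero => rw [h0, one_pow]
  | succ n ih => rw [pow_succ', pow_mul, hx, ih]

private lemma f5_ex (hl : (l : K) ≠ 0) {a : AlgebraicClosure K}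
    {r : ℕ → AlgebraicClosure (RatFunc K)} (h0 : r 0 = tt K - jj K a)
    (hr : ∀ n, r (n + 1) ^ l = r n) {g : AbsGal (RatFunc K)} (hg : g ∈ NN K) :
    ∃! z : ℤ_[l], ∀ n, g (r n) / r n = zlPow l n (eps (AlgebraicClosure (RatFunc K)) l n) z := by
  refine exists_zl (isEps_eps (f5_hl hl)) ?_ ?_
  · change g (r 0) / r 0 = 1
    rw [h0, map_sub, apply_tt, mem_NN_iff.mp hg]
    exact div_self (f5_base a)
  · intro n
    change (g (r (n + 1)) / r (n + 1)) ^ l = g (r n) / r n
    rw [div_pow, ← map_pow, hr]

/-- TASK F5 (first statement). The defining property.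

PROOF. `x n = g (rt a n) / rt a n` (`rt a n ≠ 0`, as `rt a n ^ l ^ n = tt K - jj K a ≠ 0`, since
`tt K` is not in the image of `jj K`: `iota` is injective) satisfies `x 0 = 1` (`g` fixes `tt K` and
`jj K a`) and `x (n+1) ^ l = x n`; use `exists_zl` and `isEps_eps` (B1). -/
theorem rt_ne_zero (a : AlgebraicClosure K) (n : ℕ) : rt l a n ≠ 0 := by
  exact f5_ne (rt_zero l a) (rt_succ l a) n

theorem kap_spec (hl : (l : K) ≠ 0) (a : AlgebraicClosure K) {g : AbsGal (RatFunc K)}
    (hg : g ∈ NN K) (n : ℕ) : g (rt l a n) = zlPow l n (eps (AlgebraicClosure (RatFunc K)) l n) (kap l a g) * rt l a n := by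
  have hex : ∃ z : ℤ_[l], ∀ n, g (rt l a n) =
      zlPow l n (eps (AlgebraicClosure (RatFunc K)) l n) z * rt l a n := by
    obtain ⟨z, hz, -⟩ := f5_ex hl (rt_zero l a) (rt_succ l a) hg
    refine ⟨z, fun n => ?_⟩
    rw [← hz n, div_mul_cancel₀ _ (rt_ne_zero a n)]
  have h := hex.choose_spec n
  unfold kap
  rw [dif_pos hex]
  exact h

/-- TASK F5 (second statement). Independence of the chosen roots.

PROOF. `x n = r n / rt a n` satisfies `x 0 = 1`, `x (n+1) ^ l = x n`, so `x n` is a root of unity of
order dividing `l ^ n`, hence in the image of `jj K` (`AlgebraicClosure K` contains `l ^ n` roots of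
unity), and fixed by `g ∈ NN K`. So `g (r n) / r n = g (rt a n) / rt a n`; the exponent is unique
(`exists_zl`). -/
theorem kap_unique (hl : (l : K) ≠ 0) (a : AlgebraicClosure K) {r : ℕ → AlgebraicClosure (RatFunc K)}
    (h0 : r 0 = tt K - jj K a) (hr : ∀ n, r (n + 1) ^ l = r n) {g : AbsGal (RatFunc K)}
    (hg : g ∈ NN K) {z : ℤ_[l]} (hz : ∀ n, g (r n) = zlPow l n (eps (AlgebraicClosure (RatFunc K)) l n) z * r n) :
    z = kap l a g := by
  have hx : ∀ n, g (r n) / r n = g (rt l a n) / rt l a n := by
    intro n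
    have hne := f5_ne h0 hr n
    have hne' := rt_ne_zero (l := l) a n
    have hq : g (r n / rt l a n) = r n / rt l a n := by
      refine f5_root (l := l) (n := n) hl ?_ hg
      have h := f5_pow (K := K) (l := l) (x := fun n => r n / rt l a n) ?_ ?_ n
      · exact h
      · change r 0 / rt l a 0 = 1
        rw [h0, rt_zero]
        exact div_self (f5_base a)
      · intro n
        change (r (n + 1) / rt l a (n + 1)) ^ l = r n / rt l a n
        rw [div_pow, hr, rt_succ]
    rw [map_div₀] at hq
    have hgne : g (rt l a n) ≠ 0 := by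
      rw [Ne, EmbeddingLike.map_eq_zero_iff]
      exact hne'
    rw [div_eq_div_iff hgne hne'] at hq
    rw [div_eq_div_iff hne hne', hq, mul_comm]
  obtain ⟨z', -, huniq⟩ := f5_ex hl (rt_zero l a) (rt_succ l a) hg
  rw [huniq z (fun n => ?_), huniq (kap l a g) (fun n => ?_)]
  · rw [kap_spec hl a hg n, mul_div_cancel_right₀ _ (rt_ne_zero a n)]
  · rw [← hx, hz n, mul_div_cancel_right₀ _ (f5_ne h0 hr n)]

/-- TASK F5 (third statement). The Kummer character is additive on `NN`.

PROOF. `g (h (rt n)) = g (zlPow (eps n) (kap h)) * g (rt n)`, and `g` fixes the roots of unity (they are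
in the image of `jj K`); `zlPow_add`; `kap_unique` for `rt`. -/
theorem kap_mul (hl : (l : K) ≠ 0) (a : AlgebraicClosure K) {g h : AbsGal (RatFunc K)}
    (hg : g ∈ NN K) (hh : h ∈ NN K) : kap l a (g * h) = kap l a g + kap l a h := by
  symm
  refine kap_unique hl a (rt_zero l a) (rt_succ l a) ((NN K).mul_mem hg hh) fun n => ?_
  have hε := (isEps_eps (Ω := AlgebraicClosure (RatFunc K)) (l := l) (f5_hl hl)).1 n
  have h1 : zlPow l n (eps (AlgebraicClosure (RatFunc K)) l n) (kap l a h) ^ l ^ n = 1 := by
    unfold zlPow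
    rw [← pow_mul, mul_comm, pow_mul, hε.pow_eq_one, one_pow]
  rw [AlgEquiv.mul_apply, kap_spec hl a hh n, map_mul, f5_root (l := l) (n := n) hl h1 hg,
    kap_spec hl a hg n, zlPow_add hε.pow_eq_one]
  ring

/-- TASK F5 (fourth statement). The Kummer character is smooth modulo `l ^ n`.

PROOF. Take the stabilizer `U` of `rt a n` (open: `stabilizer_isOpen_of_isIntegral`):
`zlPow (eps n) (kap g) = 1 = zlPow (eps n) 0`, and `zlPow_eq_iff` (B1). -/
theorem kap_smooth (hl : (l : K) ≠ 0) (a : AlgebraicClosure K) (n : ℕ) :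
    ∃ U : Subgroup (AbsGal (RatFunc K)), IsOpen (U : Set (AbsGal (RatFunc K))) ∧
      ∀ g ∈ U, g ∈ NN K → PadicInt.toZModPow n (kap l a g) = 0 := by
  refine ⟨MulAction.stabilizer (AbsGal (RatFunc K)) (rt l a n),
    stabilizer_isOpen_of_isIntegral (K := RatFunc K) (rt l a n), ?_⟩
  intro g hg hN
  have h1 : g (rt l a n) = rt l a n := hg
  have hε := (isEps_eps (Ω := AlgebraicClosure (RatFunc K)) (l := l) (f5_hl hl)).1 n
  have h2 : zlPow l n (eps (AlgebraicClosure (RatFunc K)) l n) (kap l a g) = zlPow l n (eps (AlgebraicClosure (RatFunc K)) l n) 0 := by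
    have h3 := kap_spec hl a hN n
    rw [h1] at h3
    have h4 : zlPow l n (eps (AlgebraicClosure (RatFunc K)) l n) (kap l a g) = 1 := by
      have h5 : 1 * rt l a n = zlPow l n (eps (AlgebraicClosure (RatFunc K)) l n) (kap l a g) * rt l a n := by
        rw [one_mul]
        exact h3
      exact (mul_right_cancel₀ (rt_ne_zero a n) h5).symm
    rw [h4]
    unfold zlPow
    rw [map_zero]
    simp
  rw [zlPow_eq_iff hε, map_zero] at h2
  exact h2

/-- TASK F5 (fifth statement). Conjugation.

PROOF. Let `b = rs K g a`, `r n = g (rt a n)`: `r 0 = tt K - jj K b`, `r (n+1) ^ l = r n`. For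
`m ∈ NN K`: `m (r n) = g ((g⁻¹ * m * g) (rt a n)) = g (zlPow (eps n) (kap a (g⁻¹ * m * g)) * rt a n)
= zlPow (g (eps n)) (..) * r n`, and `g (eps n) = zlPow (eps n) (cyc g)` (`twist_spec`, `twist_aut`),
so this is `zlPow (eps n) (cyc g * kap a (g⁻¹ * m * g)) * r n` (`zlPow_mul`); use `kap_unique`. -/
theorem kap_conj (hl : (l : K) ≠ 0) (a : AlgebraicClosure K) (g : AbsGal (RatFunc K))
    {m : AbsGal (RatFunc K)} (hm : m ∈ NN K) :
    kap l (rs K g a) m = (cyclotomicCharacter (AlgebraicClosure (RatFunc K)) l (g : (AlgebraicClosure (RatFunc K)) ≃+* AlgebraicClosure (RatFunc K)) : ℤ_[l]) *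
      kap l a (g⁻¹ * m * g) := by
  symm
  refine kap_unique hl (rs K g a) (r := fun n => g (rt l a n)) ?_ ?_ hm fun n => ?_
  · change g (rt l a 0) = _
    rw [rt_zero, map_sub, apply_tt, jj_rs]
  · intro n
    change g (rt l a (n + 1)) ^ l = g (rt l a n)
    rw [← map_pow, rt_succ]
  · change m (g (rt l a n)) = _ * g (rt l a n)
    have hm' : g⁻¹ * m * g ∈ NN K := by
      have h := (inferInstance : (NN K).Normal).conj_mem m hm g⁻¹
      rwa [inv_inv] at h
    have hε := (isEps_eps (Ω := AlgebraicClosure (RatFunc K)) (l := l) (f5_hl hl)).1 n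
    have h1 : m (g (rt l a n)) = g ((g⁻¹ * m * g) (rt l a n)) := by
      have h2 : m * g = g * (g⁻¹ * m * g) := by group
      rw [← AlgEquiv.mul_apply, h2, AlgEquiv.mul_apply]
    have h3 : g (eps (AlgebraicClosure (RatFunc K)) l n) = zlPow l n (eps (AlgebraicClosure (RatFunc K)) l n)
        (cyclotomicCharacter (AlgebraicClosure (RatFunc K)) l (g : (AlgebraicClosure (RatFunc K)) ≃+* AlgebraicClosure (RatFunc K)) : ℤ_[l]) := by
      rw [← twist_aut (f5_hl hl)]
      exact twist_spec (f5_hl hl) ((g : (AlgebraicClosure (RatFunc K)) ≃+* AlgebraicClosure (RatFunc K)) : (AlgebraicClosure (RatFunc K)) →+* AlgebraicClosure (RatFunc K)) n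
    have h4 : g (zlPow l n (eps (AlgebraicClosure (RatFunc K)) l n) (kap l a (g⁻¹ * m * g))) =
        zlPow l n (g (eps (AlgebraicClosure (RatFunc K)) l n)) (kap l a (g⁻¹ * m * g)) :=
      map_zlPow ((g : (AlgebraicClosure (RatFunc K)) ≃+* AlgebraicClosure (RatFunc K)) : (AlgebraicClosure (RatFunc K)) →+* AlgebraicClosure (RatFunc K)) _ _
    rw [h1, kap_spec hl a hm' n, map_mul, h4, h3, zlPow_mul hε.pow_eq_one]

/-- TASK F5 (sixth statement). The homomorphisms attached to the points and the elements of the Tate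
twist: existence. Additivity: `kap_mul`. Smoothness: `l ^ n • m = 0` for some `n` (B8), so
`z • m = 0` if `toZModPow n z = 0` (`zl_smul_eq_zero`, B8), and `kap_smooth`. -/
theorem exists_kum (hl : (l : K) ≠ 0) (a : AlgebraicClosure K) (m : Tw l w) :
    ∃ χ : HomM (NN K) (Tw l w), ∀ g, χ g = kap l a (g : AbsGal (RatFunc K)) • m := by
  refine ⟨⟨fun g => kap l a (g : AbsGal (RatFunc K)) • m, fun g h => ?_, ?_⟩, fun g => rfl⟩
  · change kap l a ((g * h : NN K) : AbsGal (RatFunc K)) • m = _
    rw [Subgroup.coe_mul, kap_mul hl a g.2 h.2, add_smul]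
  · obtain ⟨n, hn⟩ := exists_pow_smul m
    obtain ⟨U, hU, hU'⟩ := kap_smooth hl a n
    refine ⟨U, hU, fun g hg => ?_⟩
    exact zl_smul_eq_zero hn (hU' _ hg g.2)

end GC
end
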