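import Pool.Agent.Lib.MP_859dd5_ag.Mg.G058
import Pool.Agent.Lib.MP_859dd5_ag.Mg.G027
import Pool.Agent.Lib.MP_859dd5_ag.Mg.G060
import Pool.Agent.Lib.MP_859dd5_ag.Mg.G033
import Pool.Agent.Lib.MP_859dd5_ag.Mg.G035
import Pool.Agent.Lib.MP_859dd5_ag.Mg.G037

section

section

/-!
# The kernel of the restriction to a finite extension is killed by the degree
-/

namespace UnrG

universe u v w

open Polynomial

variable {m : ℕ}

/-- The kernel of the restriction to a simple extension is killed by the degree. -/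
theorem adjoinRoot_smul (hm : Any m) {K : Type u} [Field K] (p : K[X]) [hp : Fact (Irreducible p)]
    (hpm : p.Monic) {y : KM m K} (hy : KM.map m (AdjoinRoot.of p) y = 0) :
    p.natDegree • y = 0 := by
  set s := sym m (algebraMap K[X] (RatFunc K) p) with hs
  have hpK : algebraMap K[X] (RatFunc K) p ≠ 0 := by simpa using hp.out.ne_zero
  have hconst : ∀ (q : K[X]) [Fact (Irreducible q)],
      (placeVal q).θ hm (KM.map m (algebraMap K (RatFunc K)) y) =
        ⟨KM.map m (AdjoinRoot.of q) y, 0⟩ := by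
    intro q hq
    have hnd : ∀ a : K, a ≠ 0 → ¬ q ∣ C a := fun a ha h => by
      have h1 := isUnit_of_dvd_unit h (isUnit_C.mpr (isUnit_iff_ne_zero.mpr ha))
      exact hq.out.not_isUnit h1
    apply DVal.θ_const
    · intro a ha
      rw [algebraMap_ratFunc_eq]
      exact (placeVal_unit q (hnd a ha)).1
    · intro a ha
      rw [algebraMap_ratFunc_eq]
      exact (placeVal_unit q (hnd a ha)).2
  obtain ⟨w, hw⟩ := milnor hm (KM.map m (algebraMap K (RatFunc K)) y * s) (by
    intro q hqm hq
    rw [DVal.res, map_mul, hconst q, hs, DVal.θ_sym _ hm hpK, KMX.mul_snd]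
    by_cases hqp : q ∣ p
    · have h1 : q = p := eq_of_monic_of_associated hqm hpm (hq.out.associated_of_dvd hp.out hqp)
      subst h1
      rw [hy]
      simp
    · rw [(placeVal_unit q hqp).1]
      simp)
  have h1 := (valInfty K).θ_const hm (algebraMap K (RatFunc K)) (RingHom.id K)
    (fun a ha => (valInfty_const ha).1) (fun a ha => (valInfty_const ha).2)
  have h2 : ((valInfty K).θ hm (KM.map m (algebraMap K (RatFunc K)) w)).snd =
      ((valInfty K).θ hm (KM.map m (algebraMap K (RatFunc K)) y * s)).snd := by rw [hw]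
  rw [map_mul, h1, h1, hs, DVal.θ_sym _ hm hpK, KMX.mul_snd, (valInfty_monic hpm).1] at h2
  simp only [KM.map_id, AlgHom.id_apply, zero_mul, add_zero, mul_smul_comm, mul_one] at h2
  rw [← Nat.cast_smul_eq_nsmul (ZMod m)]
  push_cast at h2
  rw [neg_smul, eq_comm, neg_eq_zero] at h2
  exact h2

/-- A field homomorphism with a left inverse induces an injection of K-rings. -/
lemma map_injective_of_leftInv {K : Type u} {L : Type v} [Field K] [Field L] {j : K →+* L}
    {e : L →+* K} (h : e.comp j = RingHom.id K) : Function.Injective (KM.map m j) := by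
  intro x y hxy
  have h1 := congrArg (KM.map m e) hxy
  rw [KM.map_map, KM.map_map, h, KM.map_id] at h1
  exact h1

/-- A surjective field homomorphism has a two-sided inverse. -/
lemma exists_inv_of_surjective {K : Type u} {L : Type v} [Field K] [Field L] {j : K →+* L}
    (h : Function.Surjective j) : ∃ e : L →+* K, e.comp j = RingHom.id K ∧
      j.comp e = RingHom.id L := by
  let E := RingEquiv.ofBijective j ⟨j.injective, h⟩
  refine ⟨(E.symm : L →+* K), ?_, ?_⟩
  · ext z
    exact E.symm_apply_apply z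
  · ext z
    exact E.apply_symm_apply z

/-- The kernel of the restriction to a finite extension is killed by the degree. -/
theorem finrank_smul_eq_zero (hm : Any m) : ∀ (n : ℕ) {K L : Type u} [Field K] [Field L]
    [Algebra K L] [FiniteDimensional K L] (_ : Module.finrank K L = n) {y : KM m K}
    (_ : KM.map m (algebraMap K L) y = 0), n • y = 0 := by
  intro n
  induction n using Nat.strong_induction_on with
  | _ n ih =>
    intro K L _ _ _ _ hn y hy
    by_cases hs : Function.Surjective (algebraMap K L)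
    · obtain ⟨e, he, -⟩ := exists_inv_of_surjective hs
      have h1 : y = 0 := map_injective_of_leftInv he (by rw [hy, map_zero])
      rw [h1, smul_zero]
    · simp only [Function.Surjective, not_forall, not_exists] at hs
      obtain ⟨α, hα⟩ := hs
      obtain ⟨F, hF⟩ : ∃ F : IntermediateField K L, F = IntermediateField.adjoin K {α} := ⟨_, rfl⟩
      have hint : IsIntegral K α := IsIntegral.of_finite K α
      have hmul : Module.finrank K F * Module.finrank F L = n := by
        rw [Module.finrank_mul_finrank, hn]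
      have hpos : 0 < Module.finrank F L := Module.finrank_pos
      have hFd : Module.finrank K F = (minpoly K α).natDegree := by
        rw [hF]; exact IntermediateField.adjoin.finrank hint
      have hgt : 1 < Module.finrank K F := by
        by_contra hle
        have h1 : Module.finrank K F = 1 := by
          have : 0 < Module.finrank K F := Module.finrank_pos
          omega
        rw [IntermediateField.finrank_eq_one_iff] at h1
        have h2 : α ∈ F := by rw [hF]; exact IntermediateField.mem_adjoin_simple_self K α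
        rw [h1, IntermediateField.mem_bot] at h2
        obtain ⟨a, ha⟩ := h2
        exact hα a ha
      have hlt : Module.finrank F L < n := by
        rw [← hmul]
        nlinarith
      have h1 := ih _ hlt (K := F) (L := L) rfl (y := KM.map m (algebraMap K F) y) (by
        rw [KM.map_map, ← IsScalarTower.algebraMap_eq]; exact hy)
      rw [← map_nsmul] at h1
      -- the simple extension
      have hirr : Fact (Irreducible (minpoly K α)) := ⟨minpoly.irreducible hint⟩
      subst hF
      let e := IntermediateField.adjoinRootEquivAdjoin K hint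
      have h2 : KM.map m (AdjoinRoot.of (minpoly K α)) (Module.finrank
          (IntermediateField.adjoin K {α}) L • y) = 0 := by
        have h3 := congrArg (KM.map m (e.symm : _ →+* AdjoinRoot (minpoly K α))) h1
        rw [KM.map_map, map_zero] at h3
        rw [← h3]
        congr 2
        ext a
        exact (e.symm.commutes a).symm
      have h4 := adjoinRoot_smul hm (minpoly K α) (minpoly.monic hint) h2
      rw [smul_smul, ← hFd, hmul] at h4
      exact h4

end UnrG
end

section

/-!
# Finite extensions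
-/

namespace GC

universe u v w

variable {K L : Type u} [Field K] [Field L] [Algebra K L]
  {φ : AlgebraicClosure K →+* AlgebraicClosure L} {l : ℕ} [Fact l.Prime] {w : ℕ}

/-- The action of an element of `AbsGal L` and of its image in `AbsGal K`. -/
theorem b6_smul (hl : (l : K) ≠ 0) (hφ : Ext (algebraMap K L) φ) (h : AbsGal L) (m : Tw l w) :
    h • m = pull hφ h • m := by
  rw [Tw.smul_def, Tw.smul_def, cyc_pull hl hφ]

theorem b6_comm (g : AbsGal K) (a : ℤ_[l]) (m : Tw l w) : a • g • m = g • a • m :=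
  (smul_comm g a m).symm

theorem b6_cancel (t : ℤ_[l]ˣ) {m m' : Tw l w} (h : (t : ℤ_[l]) • m = (t : ℤ_[l]) • m') :
    m = m' := by
  have h1 := congrArg (fun z => ((t⁻¹ : ℤ_[l]ˣ) : ℤ_[l]) • z) h
  simp only [smul_smul] at h1
  rwa [Units.inv_mul, one_smul, one_smul] at h1

/-- The equivalence between `AbsGal L` and its image. -/
theorem b6_exists_inv [FiniteDimensional K L] (hφ : Ext (algebraMap K L) φ) :
    ∃ e : (pull hφ).range →* AbsGal L, (∀ s, (pull hφ).rangeRestrict (e s) = s) ∧
      ∀ x, e ((pull hφ).rangeRestrict x) = x := by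
  have hinj := pull_injective hφ
  refine ⟨(MonoidHom.ofInjective hinj).symm.toMonoidHom, fun s => ?_, fun x => ?_⟩
  · exact (MonoidHom.ofInjective hinj).apply_symm_apply s
  · exact (MonoidHom.ofInjective hinj).symm_apply_apply x

/-- The pullback of cochains of the image. -/
theorem b6_pullback [FiniteDimensional K L] (hl : (l : K) ≠ 0)
    (hφ : Ext (algebraMap K L) φ) (t : ℤ_[l]) {n : ℕ}
    {b : (Fin (n + 1) → (pull hφ).range) → Tw l w}
    (hb : b ∈ Coch (Tw l w) (⊤ : Subgroup (pull hφ).range) ⊥ n) :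
    (fun x : Fin (n + 1) → AbsGal L => t • b fun i => (pull hφ).rangeRestrict (x i)) ∈
      Coch (Tw l w) (⊤ : Subgroup (AbsGal L)) ⊥ n := by
  obtain ⟨h1, h2, U, hU, h3⟩ := hb
  refine ⟨fun g _ x => ?_, fun x u hu => ?_, U.comap (pull hφ).rangeRestrict, ?_,
    fun x u hu => ?_⟩
  · have e1 : (fun i => (pull hφ).rangeRestrict (g * x i)) =
        fun i => (pull hφ).rangeRestrict g * (pull hφ).rangeRestrict (x i) := by
      funext i
      rw [map_mul]
    have e2 := h1 ((pull hφ).rangeRestrict g) (Subgroup.mem_top _)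
      (fun i => (pull hφ).rangeRestrict (x i))
    change t • b (fun i => (pull hφ).rangeRestrict (g * x i)) = _
    rw [e1, e2, b6_smul hl hφ]
    exact b6_comm (pull hφ g) t _
  · have e1 : (fun i => x i * u i) = x := by
      funext i
      have := Subgroup.mem_bot.1 (hu i)
      rw [this, mul_one]
    rw [e1]
  · have hc : Continuous ((pull hφ).rangeRestrict) :=
      Continuous.subtype_mk (continuous_pull hφ) _
    exact hU.preimage hc
  · have e1 : (fun i => (pull hφ).rangeRestrict (x i * u i)) =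
        fun i => (pull hφ).rangeRestrict (x i) * (pull hφ).rangeRestrict (u i) := by
      funext i
      rw [map_mul]
    change t • b (fun i => (pull hφ).rangeRestrict (x i * u i)) = _
    rw [e1, h3 _ (fun i => (pull hφ).rangeRestrict (u i)) fun i => hu i]

/-- The pullback commutes with the differential. -/
theorem b6_d (hφ : Ext (algebraMap K L) φ) (t : ℤ_[l]) {n : ℕ}
    (b : (Fin n → (pull hφ).range) → Tw l w) :
    d (fun x : Fin n → AbsGal L => t • b fun i => (pull hφ).rangeRestrict (x i)) =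
      fun x => t • d b fun i => (pull hφ).rangeRestrict (x i) := by
  have h1 := d_map (DistribSMul.toAddMonoidHom (Tw l w) t)
    (fun x : Fin n → AbsGal L => b fun i => (pull hφ).rangeRestrict (x i))
  have h2 := d_comp (fun x : AbsGal L => (pull hφ).rangeRestrict x) b
  change d (fun x : Fin n → AbsGal L => (DistribSMul.toAddMonoidHom (Tw l w) t)
    (b fun i => (pull hφ).rangeRestrict (x i))) = _
  rw [h1, h2]
  rfl

theorem b6_cobd [FiniteDimensional K L] (hl : (l : K) ≠ 0)
    (hφ : Ext (algebraMap K L) φ) (t : ℤ_[l]) {n : ℕ}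
    {b : (Fin (n + 1) → (pull hφ).range) → Tw l w}
    (hb : b ∈ Cobd (pull hφ).range (Tw l w) n) :
    (fun x : Fin (n + 1) → AbsGal L => t • b fun i => (pull hφ).rangeRestrict (x i)) ∈
      Cobd (AbsGal L) (Tw l w) n := by
  cases n with
  | zero =>
    have h0 : b = 0 := hb
    subst h0
    have h1 : (fun x : Fin (0 + 1) → AbsGal L =>
        t • (0 : (Fin (0 + 1) → (pull hφ).range) → Tw l w)
          fun i => (pull hφ).rangeRestrict (x i)) = 0 := by
      funext x
      exact smul_zero t
    rw [h1]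
    exact zero_mem _
  | succ m =>
    obtain ⟨a, ha, rfl⟩ := hb
    refine ⟨_, b6_pullback hl hφ t ha, ?_⟩
    exact b6_d hφ t a

/-- The automorphism of `AlgebraicClosure L` attached to `g ∈ AbsGal K`. -/
theorem b6_psi [FiniteDimensional K L] (hl : (l : K) ≠ 0) (hφ : Ext (algebraMap K L) φ)
    (g : AbsGal K) {σ : L →+* L}
    (hσ : ∀ (a : L) (x : AlgebraicClosure K), φ x = algebraMap L _ a →
      φ (g x) = algebraMap L _ (σ a)) :
    ∃ (ψ : AlgebraicClosure L →+* AlgebraicClosure L) (hψ : Ext σ ψ),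
      (∀ h : AbsGal L, pull hφ (pull hψ h) = g⁻¹ * pull hφ h * g) ∧
      twist l ψ = cyclotomicCharacter (AlgebraicClosure K) l (g : AlgebraicClosure K ≃+* _) := by
  have hb := ext_bijective hφ
  let Φ : AlgebraicClosure K ≃+* AlgebraicClosure L := RingEquiv.ofBijective φ hb
  have hΦ : ∀ x, Φ x = φ x := fun x => rfl
  let ψ : AlgebraicClosure L →+* AlgebraicClosure L :=
    (Φ : AlgebraicClosure K →+* AlgebraicClosure L).comp
      (((g : AlgebraicClosure K ≃+* AlgebraicClosure K) :
        AlgebraicClosure K →+* AlgebraicClosure K).comp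
        (Φ.symm : AlgebraicClosure L →+* AlgebraicClosure K))
  have hψ0 : ∀ x, ψ (φ x) = φ (g x) := by
    intro x
    change Φ (g (Φ.symm (Φ x))) = φ (g x)
    rw [RingEquiv.symm_apply_apply]
    rfl
  have hψ : Ext σ ψ := by
    intro a
    obtain ⟨x, hx⟩ := hb.2 (algebraMap L _ a)
    rw [← hx, hψ0]
    exact hσ a x hx
  refine ⟨ψ, hψ, fun h => ?_, ?_⟩
  · refine (eq_pull hφ (pull hψ h) fun x => ?_).symm
    apply ψ.injective
    rw [hψ0, pull_spec hψ, hψ0, ← pull_spec hφ]
    congr 1
    change g (g⁻¹ (pull hφ h (g x))) = pull hφ h (g x)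
    rw [← AlgEquiv.mul_apply, mul_inv_cancel]
    rfl
  · have hlK : (l : AlgebraicClosure K) ≠ 0 := by
      intro h0
      apply hl
      apply (algebraMap K (AlgebraicClosure K)).injective
      rw [map_natCast, map_zero]
      exact h0
    have hlL : (l : AlgebraicClosure L) ≠ 0 := by
      intro h0
      apply hlK
      apply φ.injective
      rw [map_natCast, map_zero]
      exact h0
    have h1 : ψ.comp φ = φ.comp ((g : AlgebraicClosure K ≃+* AlgebraicClosure K) :
        AlgebraicClosure K →+* AlgebraicClosure K) := by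
      ext x
      exact hψ0 x
    have h2 := twist_comp hlK φ ψ
    have h3 := twist_comp hlK ((g : AlgebraicClosure K ≃+* AlgebraicClosure K) :
        AlgebraicClosure K →+* AlgebraicClosure K) φ
    rw [h1, h3, twist_aut hlK, mul_comm] at h2
    exact (mul_right_cancel h2).symm

/-- TASK B6 (first statement). Transport of cochains between `AbsGal L` and its image in `AbsGal K`:
the cochain `c` on the image of `AbsGal L` is the pullback of `pullC hφ c`, up to the unit
`(twist φ)^w`.

PROOF. Put `b_S s = ((twist φ)^w)⁻¹ • b (fun i => (pull hφ)⁻¹ (s i))` for `s` in the range `S`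
(`pull_injective`). Equivariance: `s • m = (cyc s)^w • m` and `cyc (pull h) = cyc h` (`cyc_pull`).
Smoothness by `isOpen_map_pull` (the image of the open subgroup, as a subgroup of `S`). -/
theorem exists_transport [FiniteDimensional K L] (hl : (l : K) ≠ 0)
    (hφ : Ext (algebraMap K L) φ) {n : ℕ} {b : (Fin (n + 1) → AbsGal L) → Tw l w}
    (hb : b ∈ Coch (Tw l w) (⊤ : Subgroup (AbsGal L)) ⊥ n) :
    ∃ b' ∈ Coch (Tw l w) (⊤ : Subgroup (pull hφ).range) ⊥ n, ∀ x : Fin (n + 1) → AbsGal L,
      b x = (((twist l φ) ^ w : ℤ_[l]ˣ) : ℤ_[l]) •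
        b' (fun i => ⟨pull hφ (x i), MonoidHom.mem_range.mpr ⟨x i, rfl⟩⟩) := by
  obtain ⟨e, he1, he2⟩ := b6_exists_inv hφ
  obtain ⟨h1, h2, U, hU, h3⟩ := hb
  refine ⟨fun s => ((((twist l φ) ^ w)⁻¹ : ℤ_[l]ˣ) : ℤ_[l]) • b (fun i => e (s i)),
    ⟨fun g _ x => ?_, fun x u hu => ?_, (U.map (pull hφ)).subgroupOf (pull hφ).range, ?_,
      fun x u hu => ?_⟩, fun x => ?_⟩
  · have e1 : (fun i => e (g * x i)) = fun i => e g * e (x i) := by
      funext i
      rw [map_mul]
    have e2 := h1 (e g) (Subgroup.mem_top _) (fun i => e (x i))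
    change ((((twist l φ) ^ w)⁻¹ : ℤ_[l]ˣ) : ℤ_[l]) • b (fun i => e (g * x i)) = _
    rw [e1, e2, b6_smul hl hφ]
    have e3 : pull hφ (e g) = (g : AbsGal K) := congrArg Subtype.val (he1 g)
    rw [e3]
    exact b6_comm (g : AbsGal K) _ _
  · have e1 : (fun i => x i * u i) = x := by
      funext i
      have := Subgroup.mem_bot.1 (hu i)
      rw [this, mul_one]
    rw [e1]
  · exact (isOpen_map_pull hφ hU).preimage continuous_subtype_val
  · have e1 : (fun i => e (x i * u i)) = fun i => e (x i) * e (u i) := by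
      funext i
      rw [map_mul]
    have e2 : ∀ i, e (u i) ∈ U := by
      intro i
      obtain ⟨y, hy, hy2⟩ := Subgroup.mem_subgroupOf.1 (hu i)
      have e3 : u i = (pull hφ).rangeRestrict y := Subtype.ext hy2.symm
      rw [e3, he2]
      exact hy
    change ((((twist l φ) ^ w)⁻¹ : ℤ_[l]ˣ) : ℤ_[l]) • b (fun i => e (x i * u i)) = _
    rw [e1, h3 _ (fun i => e (u i)) e2]
  · have e1 : (fun i => e ⟨pull hφ (x i), MonoidHom.mem_range.mpr ⟨x i, rfl⟩⟩) = x := by
      funext i
      exact he2 (x i)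
    change b x = (((twist l φ) ^ w : ℤ_[l]ˣ) : ℤ_[l]) •
      ((((twist l φ) ^ w)⁻¹ : ℤ_[l]ˣ) : ℤ_[l]) •
        b (fun i => e ⟨pull hφ (x i), MonoidHom.mem_range.mpr ⟨x i, rfl⟩⟩)
    rw [e1, smul_smul, Units.mul_inv, one_smul]

/-- TASK B6 (second statement). The kernel of the map attached to a finite extension is killed by
the degree.

PROOF. Let `S = (pull hφ).range`. `pullC hφ c ∈ Cobd`: for `n = 0` it is zero, so `c` is zero on `S`;
for `n = m + 1` it is `d b`; let `b'` be the transport of `b`; then `c|_S = d b'` (compare the values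
at `pull hφ x` and cancel the unit). So `c|_S ∈ Cobd S`, and by `cor_res` (A20)
`S.index • c ∈ Cobd`; `S.index` divides the degree (`index_range_pull_dvd`). -/
theorem finite_kernel [FiniteDimensional K L] (hl : (l : K) ≠ 0)
    (hφ : Ext (algebraMap K L) φ) {n : ℕ} {c : (Fin (n + 1) → AbsGal K) → Tw l w}
    (hc : c ∈ Cocyc (AbsGal K) (Tw l w) n)
    (h : pullC l w hφ n c ∈ Cobd (AbsGal L) (Tw l w) n) :
    Module.finrank K L • c ∈ Cobd (AbsGal K) (Tw l w) n := by
  have hS := isOpen_range_pull hφ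
  have key : (fun x : Fin (n + 1) → (pull hφ).range => c fun i => (x i : AbsGal K)) ∈
      Cobd (pull hφ).range (Tw l w) n := by
    obtain ⟨e, he1, he2⟩ := b6_exists_inv hφ
    have he3 : ∀ s : (pull hφ).range, pull hφ (e s) = (s : AbsGal K) := fun s =>
      congrArg Subtype.val (he1 s)
    cases n with
    | zero =>
      have h0 : pullC l w hφ 0 c = 0 := h
      have h1 : (fun x : Fin (0 + 1) → (pull hφ).range => c fun i => (x i : AbsGal K)) = 0 := by
        funext x
        have h2 := congrFun h0 (fun i => e (x i))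
        rw [pullC_apply] at h2
        simp only [he3] at h2
        apply b6_cancel ((twist l φ) ^ w)
        rw [h2]
        exact (smul_zero _).symm
      rw [h1]
      exact zero_mem _
    | succ m =>
      obtain ⟨b, hb, hbd⟩ := h
      obtain ⟨b', hb', hbb⟩ := exists_transport hl hφ hb
      refine ⟨b', hb', ?_⟩
      have h1 : b = fun x => (((twist l φ) ^ w : ℤ_[l]ˣ) : ℤ_[l]) •
          b' fun i => (pull hφ).rangeRestrict (x i) := funext hbb
      rw [dHom_apply, h1, b6_d] at hbd
      rw [dHom_apply]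
      funext x
      have h2 := congrFun hbd (fun i => e (x i))
      rw [pullC_apply] at h2
      simp only [he3, he1] at h2
      exact b6_cancel _ h2
  obtain ⟨k, hk⟩ := index_range_pull_dvd hφ
  have h2 := cor_res hS hc key
  rw [hk, mul_comm, mul_smul]
  exact nsmul_mem h2 k

/-- TASK B6 (third statement). The sum of the conjugates of a class comes from the ground field.

PROOF. Let `S = (pull hφ).range`, an open normal subgroup (`exists_quo`), and let `c'` be the
transport of `c` to `S`; it is a cocycle of `S`. Let `C ∈ Cocyc (AbsGal K)` be as in `cor_exists`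
(A22) for `c'`. For each coset `q` of `S` let `r q` be a representative; the automorphism
`ψ = φ (r q) φ⁻¹` of `AlgebraicClosure L` extends `σ = quo (r q)` (as a ring homomorphism
`L →+* L`), so `Ext σ ψ`; `pull` of `h` along `ψ` is `ψ⁻¹ h ψ`, and `pull hφ (ψ⁻¹ h ψ) =
(r q)⁻¹ * pull hφ h * r q = conjN (r q) (pull hφ h)`; `twist ψ = cyc (r q)`. So
`pullC ψ c h = (cyc (r q))^w • c (ψ⁻¹ h ψ) = (cyc (r q))^w • (twist φ)^w • c' (conjN (r q) (pull h))
= (twist φ)^w • (r q • c' (conjN (r q) (pull h)))`. By `pullC_indep` (B3) it differs from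
`pullC (ext_emb σ) c` by a coboundary. Sum over `q`, i.e. over `σ` (`q ↦ quo (r q)` is a bijection
`AbsGal K ⧸ S ≃ (L ≃ₐ[K] L)`), and use the pullback of the relation of `cor_exists`. -/
theorem galois_trace [FiniteDimensional K L] [IsGalois K L] (hl : (l : K) ≠ 0)
    (hφ : Ext (algebraMap K L) φ) {n : ℕ} {c : (Fin (n + 1) → AbsGal L) → Tw l w}
    (hc : c ∈ Cocyc (AbsGal L) (Tw l w) n) :
    ∃ C ∈ Cocyc (AbsGal K) (Tw l w) n,
      pullC l w hφ n C - ∑ σ : L ≃ₐ[K] L, pullC l w (ext_emb (σ : L →+* L)) n c ∈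
        Cobd (AbsGal L) (Tw l w) n := by
  classical
  have hopen := isOpen_range_pull hφ
  obtain ⟨quo, hsurj, hker, hquo⟩ := exists_quo hφ
  have hnorm : (pull hφ).range.Normal := by
    rw [← hker]
    infer_instance
  have hlL : (l : L) ≠ 0 := by
    intro h0
    apply hl
    apply (algebraMap K L).injective
    rw [map_natCast, map_zero]
    exact h0
  obtain ⟨e, he1, he2⟩ := b6_exists_inv hφ
  obtain ⟨c', hc', hcc⟩ := exists_transport hl hφ hc.1
  have hcc2 : c = fun x => (((twist l φ) ^ w : ℤ_[l]ˣ) : ℤ_[l]) •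
      c' fun i => (pull hφ).rangeRestrict (x i) := funext hcc
  have hd' : d c' = 0 := by
    have h1 : d c = 0 := hc.2
    rw [hcc2, b6_d] at h1
    funext x
    have h2 := congrFun h1 (fun i => e (x i))
    simp only [he1] at h2
    apply b6_cancel ((twist l φ) ^ w)
    rw [h2]
    exact (smul_zero _).symm
  obtain ⟨C, hC, hCr⟩ := cor_exists hopen (c := c') ⟨hc', hd'⟩
  refine ⟨C, hC, ?_⟩
  have hfin : Finite (AbsGal K ⧸ (pull hφ).range) := finite_quotient hopen
  have : Fintype (AbsGal K ⧸ (pull hφ).range) := Fintype.ofFinite _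
  have hr := hCr (fun q => q.out) (fun q => q.out_eq')
  -- the bijection
  have hbij : Function.Bijective
      (fun q : AbsGal K ⧸ (pull hφ).range => quo q.out) := by
    constructor
    · intro q q' h
      have h1 : q.out⁻¹ * q'.out ∈ (pull hφ).range := by
        apply hker.le
        rw [MonoidHom.mem_ker, map_mul, map_inv, inv_mul_eq_one]
        exact h
      have h2 := QuotientGroup.eq.2 h1
      rwa [QuotientGroup.out_eq', QuotientGroup.out_eq'] at h2
    · intro σ
      obtain ⟨g, hg⟩ := hsurj σ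
      refine ⟨(g : AbsGal K ⧸ (pull hφ).range), ?_⟩
      obtain ⟨s, hs⟩ := QuotientGroup.mk_out_eq_mul (pull hφ).range g
      have h1 : quo (s : AbsGal K) = 1 := MonoidHom.mem_ker.1 (hker.ge s.2)
      change quo ((g : AbsGal K ⧸ (pull hφ).range)).out = σ
      rw [hs, map_mul, h1, mul_one, hg]
  choose ψ hψ hψ1 hψ2 using fun q : AbsGal K ⧸ (pull hφ).range =>
    b6_psi (l := l) hl hφ q.out (σ := ((quo q.out : L ≃ₐ[K] L) : L →+* L)) (hquo q.out)
  have hsum : ∑ σ : L ≃ₐ[K] L, pullC l w (ext_emb (σ : L →+* L)) n c =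
      ∑ q : AbsGal K ⧸ (pull hφ).range,
        pullC l w (ext_emb ((quo q.out : L ≃ₐ[K] L) : L →+* L)) n c :=
    (hbij.sum_comp (fun σ : L ≃ₐ[K] L => pullC l w (ext_emb (σ : L →+* L)) n c)).symm
  have hdiff : (∑ q : AbsGal K ⧸ (pull hφ).range, pullC l w (hψ q) n c) -
      ∑ q : AbsGal K ⧸ (pull hφ).range,
        pullC l w (ext_emb ((quo q.out : L ≃ₐ[K] L) : L →+* L)) n c ∈
          Cobd (AbsGal L) (Tw l w) n := by
    rw [← Finset.sum_sub_distrib]
    exact sum_mem fun q _ => pullC_indep hlL (hψ q) (ext_emb _) hc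
  have hmain : pullC l w hφ n C - ∑ q : AbsGal K ⧸ (pull hφ).range, pullC l w (hψ q) n c ∈
      Cobd (AbsGal L) (Tw l w) n := by
    have h1 := b6_cobd hl hφ (((twist l φ) ^ w : ℤ_[l]ˣ) : ℤ_[l]) hr
    convert h1 using 1
    funext x
    rw [Pi.sub_apply, pullC_apply, Finset.sum_apply]
    simp only [Pi.sub_apply, smul_sub]
    congr 1
    rw [finsum_eq_sum_of_fintype, Finset.smul_sum]
    refine Finset.sum_congr rfl fun q _ => ?_
    rw [pullC_apply, hψ2, hcc2]
    have h2 : (fun i => (pull hφ).rangeRestrict (pull (hψ q) (x i))) =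
        fun i => conjN q.out ((pull hφ).rangeRestrict (x i)) := by
      funext i
      apply Subtype.ext
      exact hψ1 q (x i)
    simp only [h2]
    rw [Tw.smul_def, smul_comm]
  rw [hsum]
  have h3 := add_mem hmain hdiff
  rwa [sub_add_sub_cancel] at h3

end GC
end

section

/-!
# A class with trivial edge is inflated
-/

namespace GC

universe u v

variable {G : Type u} [Group G] [TopologicalSpace G] [IsTopologicalGroup G] [CompactSpace G]
  [TotallyDisconnectedSpace G] {M : Type v} [AddCommGroup M] [DistribMulAction G M]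

omit [IsTopologicalGroup G] [CompactSpace G] [TotallyDisconnectedSpace G] in
lemma a15_fixed {A : Type*} [AddCommGroup A] [DistribMulAction G A] {N : Subgroup G}
    [hN : N.Normal] {n : ℕ} {c : (Fin (n + 1) → G) → A} (hc : c ∈ Coch A (⊤ : Subgroup G) N n)
    (x : Fin (n + 1) → G) (g : G) (hg : g ∈ N) : g • c x = c x := by
  have h1 := hc.1 g (Subgroup.mem_top g) x
  rw [← h1]
  have h2 := hc.2.1 x (fun i => (x i)⁻¹ * g * x i) (fun i => by
    simpa using hN.conj_mem g hg (x i)⁻¹)
  rw [← h2]
  congr 1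
  funext i
  group

/-- TASK A15. If the cochain `e` of a normal form of `x` is a coboundary, then the class of `x` is
inflated from `G / N`.

PROOF. By `lift_rel` (A4) with `R q χ := QHom N q χ` (equivariant by `QHom.smul`; for each value
there is a lift by `exists_of_hom`, and it is fixed by `N`) the cochain `f` lifts to
`q ∈ Coch (QM G M) ⊤ N n` with `QHom N (q y) (f y)` (`disc_q`). Lift `q` also to
`β ∈ Coch (IndM G M) ⊤ ⊥ n` with `toQ ∘ β = q` (`SES.lift (ses_ind G M)`, after `coch_mono`).
Consider `q₁ = toQ ∘ b - d q ∈ Coch (QM G M) ⊤ N (n + 1)`. `QHom N (q₁ y) 0`: the elements are fixed by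
`N` (`mem_q`, right invariance), and `q₁ y n 1 = (e y) n - (d f y) n = 0`. By `lift_rel` with
`R b q := toQ b = q` and `QHom.lift_of_zero` there is `b₁ ∈ Coch (IndM G M) ⊤ N (n + 1)` with
`toQ ∘ b₁ = q₁`. Then `toQ ∘ (b - d β - b₁) = 0`, so `b - d β - b₁ = constI ∘ m` with
`m ∈ Coch M ⊤ ⊥ (n + 1)` (`SES.pull (ses_ind G M)`). So
`constI ∘ x = d b = d b₁ + constI ∘ d m`; `constI ∘ (x - d m) = d b₁ ∈ Coch (IndM G M) ⊤ N (n + 2)`,
so `y := x - d m ∈ Coch M ⊤ N (n + 2)` (`coch_of_values`), `d y = 0` and `x - y = d m ∈ Cobd`. -/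
theorem IsNF.inflated (N : Subgroup G) [N.Normal] (hM : Disc G M)
    (htriv : ∀ n ∈ N, ∀ m : M, n • m = m) {n : ℕ}
    {x : (Fin (n + 3) → G) → M} (hx : x ∈ Cocyc G M (n + 2)) {b : (Fin (n + 2) → G) → IndM G M}
    {e : (Fin (n + 2) → G) → HomM N M} (h : IsNF N x b e)
    {f : (Fin (n + 1) → G) → HomM N M} (hf : f ∈ Coch (HomM N M) (⊤ : Subgroup G) N n)
    (hfe : d f = e) :
    ∃ y ∈ Coch M (⊤ : Subgroup G) N (n + 2), d y = 0 ∧ x - y ∈ Cobd G M (n + 2) := by
  obtain ⟨q, hq, hqf⟩ := lift_rel (disc_q hM) (fun (q : QM G M) (χ : HomM N M) => QHom N q χ)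
    (fun g b c hbc => hbc.smul htriv g) hf (fun y => by
      obtain ⟨q, hq⟩ := exists_of_hom htriv (f y)
      exact ⟨q, hq, hq.1⟩)
  obtain ⟨β, hβ, hβq⟩ := (ses_ind G M).lift (disc_ind hM) (coch_mono le_rfl bot_le n hq)
  obtain ⟨q₁, hq1⟩ : ∃ q₁ : (Fin (n + 2) → G) → QM G M,
      q₁ = (fun y => toQ G M (b y)) - d q := ⟨_, rfl⟩
  have hq₁ : q₁ ∈ Coch (QM G M) (⊤ : Subgroup G) N (n + 1) := by
    rw [hq1]
    exact sub_mem h.mem_q (d_mem hq)
  have hdq : ∀ (y : Fin (n + 2) → G) (m : N), (d q y) (m : G) 1 = (e y) m := by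
    intro y m
    have e1 := congrFun (d_map (QM.ev (m : G) 1) q) y
    have e2 := congrFun (d_map (HomM.ev m) f) y
    have e3 : (fun x => QM.ev (m : G) 1 (q x)) = fun x => HomM.ev m (f x) := by
      funext x
      exact ((hqf x).2 m).symm
    rw [e3, e2, hfe] at e1
    exact e1.symm
  have hzero : ∀ y, QHom N (q₁ y) 0 := by
    intro y
    refine ⟨fun g hg => a15_fixed hq₁ y g hg, fun m => ?_⟩
    have e1 : (q₁ y) (m : G) 1 = (toQ G M (b y)) (m : G) 1 - (d q y) (m : G) 1 := by
      rw [hq1]
      rfl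
    rw [e1, hdq, ← (h.hom y).2 m, sub_self]
    rfl
  obtain ⟨b₁, hb₁, hb₁q⟩ := lift_rel (disc_ind hM) (fun (b : IndM G M) q => toQ G M b = q)
    (fun g b c hbc => by rw [toQ_smul, hbc]) hq₁ (fun y => (hzero y).lift_of_zero htriv)
  have hdβ : ∀ y, toQ G M (d β y) = d q y := by
    intro y
    have e1 := congrFun (d_map (toQ G M) β) y
    have e2 : (fun x => toQ G M (β x)) = q := funext hβq
    rw [e2] at e1
    exact e1.symm
  have hmem : b - d β - b₁ ∈ Coch (IndM G M) (⊤ : Subgroup G) ⊥ (n + 1) :=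
    sub_mem (sub_mem h.mem (d_mem hβ)) (coch_mono le_rfl bot_le _ hb₁)
  obtain ⟨m, hm, hmb⟩ := (ses_ind G M).pull hmem (fun y => by
    change toQ G M (b y - d β y - b₁ y) = 0
    rw [map_sub, map_sub, hdβ, hb₁q, hq1]
    simp only [Pi.sub_apply]
    abel)
  have hdb : ∀ z, constI G M (x z - d m z) = d b₁ z := by
    intro z
    have e1 := congrFun (d_map (constI G M) m) z
    have e2 : (fun y => constI G M (m y)) = b - d β - b₁ := funext hmb
    rw [e2, d_sub, d_sub, d_d] at e1
    simp only [Pi.sub_apply, sub_zero] at e1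
    rw [map_sub, ← h.d_eq, ← e1]
    abel
  obtain ⟨a, ha, hab⟩ := coch_of_values (constI G M) constI_smul (ses_ind G M).inj (d_mem hb₁)
    (fun z => ⟨_, hdb z⟩)
  have hax : a = x - d m := by
    funext z
    apply (ses_ind G M).inj
    rw [hab z, ← hdb z]
    rfl
  have hdx : d x = 0 := hx.2
  refine ⟨x - d m, hax ▸ ha, ?_, ?_⟩
  · rw [d_sub, d_d, hdx, sub_zero]
  · rw [sub_sub_cancel]
    exact ⟨m, hm, rfl⟩

end GC
end

section

/-!
# Kummer characters and inertia groups
-/

namespace GC

universe u v w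

variable {K : Type u} [Field K] {l : ℕ} [Fact l.Prime] {w : ℕ}

private lemma f6_hl (hl : (l : K) ≠ 0) : (l : AlgebraicClosure (RatFunc K)) ≠ 0 := by
  intro h
  apply hl
  apply (algebraMap K (AlgebraicClosure K)).injective
  apply (jj K).injective
  rw [map_natCast, map_natCast, h, map_zero, map_zero]

private lemma f6_hl' (hl : (l : K) ≠ 0) : (l : AlgebraicClosure K) ≠ 0 := by
  intro h
  apply hl
  apply (algebraMap K (AlgebraicClosure K)).injective
  rw [map_natCast, h, map_zero]

private lemma f6_eps (hl : (l : K) ≠ 0) (n : ℕ) :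
    ∃ c : AlgebraicClosure K, jj K c = eps (AlgebraicClosure (RatFunc K)) l n := by
  have hε := (isEps_eps (Ω := AlgebraicClosure K) (l := l) (f6_hl' hl)).1 n
  have hε' : IsPrimitiveRoot (jj K (eps (AlgebraicClosure K) l n)) (l ^ n) :=
    hε.map_of_injective (jj K).injective
  have : NeZero (l ^ n) := ⟨pow_ne_zero _ (Fact.out : l.Prime).ne_zero⟩
  have h2 := (isEps_eps (Ω := AlgebraicClosure (RatFunc K)) (l := l) (f6_hl hl)).1 n
  obtain ⟨i, _, hi⟩ := hε'.eq_pow_of_pow_eq_one h2.pow_eq_one
  exact ⟨eps (AlgebraicClosure K) l n ^ i, by rw [map_pow, hi]⟩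

/-- The general form of the transitivity. -/
private lemma f6_trans {F : Type u} {Ω : Type v} [Field F] [Field Ω] [IsAlgClosed Ω]
    (e : F →+* Ω) (he : ∀ x : Ω, ∃ P : Polynomial F, P ≠ 0 ∧ P.eval₂ e x = 0)
    (O O' : ValuationSubring Ω) (h : O.comap e = O'.comap e) :
    ∃ g : Ω ≃+* Ω, (∀ c, g (e c) = e c) ∧ ∀ x, g x ∈ O' ↔ x ∈ O := by
  letI := e.toAlgebra
  have hal : Algebra.IsAlgebraic F Ω := ⟨fun x => by
    obtain ⟨P, hP, hP'⟩ := he x
    exact ⟨P, hP, hP'⟩⟩
  obtain ⟨g, hg⟩ := exists_smul_eq (F := F) O O' h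
  refine ⟨(g : Ω ≃+* Ω), fun c => g.commutes c, fun x => ?_⟩
  rw [← hg]
  exact ValuationSubring.smul_mem_pointwise_smul_iff

private lemma f6_intDegree {k : Type u} [Field k] (b : RatFunc k) (hb : b ≠ 0) (n : ℕ) :
    RatFunc.intDegree (b ^ n) = n * RatFunc.intDegree b := by
  induction n with
  | zero => simp
  | succ n ih =>
    rw [pow_succ, RatFunc.intDegree_mul (pow_ne_zero n hb) hb, ih]
    push_cast
    ring

private lemma f6_notpow {k : Type u} [Field k] (a : k) (b : RatFunc k) :
    b ^ l ≠ RatFunc.X - RatFunc.C a := by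
  intro h
  have h1 : (RatFunc.X - RatFunc.C a : RatFunc k) =
      algebraMap (Polynomial k) (RatFunc k) (Polynomial.X - Polynomial.C a) := by
    rw [map_sub, RatFunc.algebraMap_X, RatFunc.algebraMap_C]
  have h2 : RatFunc.intDegree (RatFunc.X - RatFunc.C a : RatFunc k) = 1 := by
    rw [h1, RatFunc.intDegree_polynomial, Polynomial.natDegree_X_sub_C]
    rfl
  have hb : b ≠ 0 := by
    rintro rfl
    rw [zero_pow (Fact.out : l.Prime).ne_zero] at h
    rw [← h, RatFunc.intDegree_zero] at h2
    exact absurd h2 (by norm_num)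
  rw [← h, f6_intDegree b hb] at h2
  have h3 : (l : ℤ) ∣ 1 := ⟨_, h2.symm⟩
  have h4 : l ∣ 1 := by exact_mod_cast h3
  exact (Fact.out : l.Prime).one_lt.ne' (Nat.dvd_one.mp h4)

private lemma f6_root_ne (a : AlgebraicClosure K) (n : ℕ) : rt l a n ≠ 0 := rt_ne_zero a n

/-- The homomorphism which sends the variable to a root. -/
private lemma f6_exists_e {a : AlgebraicClosure K} {y : AlgebraicClosure (RatFunc K)}
    (hy : y ^ l = tt K - jj K a) :
    ∃ e : RatFunc (AlgebraicClosure K) →+* AlgebraicClosure (RatFunc K),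
      (∀ c, e (RatFunc.C c) = jj K c) ∧ e RatFunc.X = y := by
  have hinj : Function.Injective (Polynomial.eval₂RingHom (jj K) y) := by
    rw [injective_iff_map_eq_zero]
    intro P hP
    by_contra hP0
    letI : Algebra (AlgebraicClosure K) (AlgebraicClosure (RatFunc K)) := (jj K).toAlgebra
    have h1 : IsAlgebraic (AlgebraicClosure K) y := ⟨P, hP0, hP⟩
    have h2 : IsAlgebraic (AlgebraicClosure K) (tt K) := by
      have h3 : tt K = y ^ l + algebraMap (AlgebraicClosure K) (AlgebraicClosure (RatFunc K)) a := by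
        rw [hy]
        change tt K = tt K - jj K a + jj K a
        ring
      rw [h3]
      exact (h1.pow l).add (isAlgebraic_algebraMap a)
    obtain ⟨Q, hQ, hQ'⟩ := h2
    apply hQ
    have h4 : ∀ R : Polynomial (AlgebraicClosure K),
        iota K (algebraMap _ _ R) = R.eval₂ (jj K) (tt K) := by
      intro R
      have h5 : (iota K).comp (algebraMap (Polynomial (AlgebraicClosure K))
          (RatFunc (AlgebraicClosure K))) = Polynomial.eval₂RingHom (jj K) (tt K) := by
        apply Polynomial.ringHom_ext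
        · intro c
          rw [RingHom.comp_apply, RatFunc.algebraMap_C, iota_C]
          simp
        · rw [RingHom.comp_apply, RatFunc.algebraMap_X, iota_X]
          simp
      exact congrArg (fun f => f R) h5
    have h6 : Q.eval₂ (jj K) (tt K) = 0 := hQ'
    rw [← h4] at h6
    have h7 := (map_eq_zero (iota K)).mp h6
    exact (map_eq_zero_iff _ (RatFunc.algebraMap_injective _)).mp h7
  refine ⟨IsFractionRing.lift (A := Polynomial (AlgebraicClosure K)) hinj, fun c => ?_, ?_⟩
  · rw [← RatFunc.algebraMap_C, IsFractionRing.lift_algebraMap]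
    simp
  · rw [← RatFunc.algebraMap_X, IsFractionRing.lift_algebraMap]
    simp

private lemma f6_range {a : AlgebraicClosure K} {y : AlgebraicClosure (RatFunc K)}
    (hy : y ^ l = tt K - jj K a)
    {e : RatFunc (AlgebraicClosure K) →+* AlgebraicClosure (RatFunc K)}
    (heC : ∀ c, e (RatFunc.C c) = jj K c) (heX : e RatFunc.X = y) :
    ∃ H : RatFunc (AlgebraicClosure K) →+* RatFunc (AlgebraicClosure K),
      ∀ z, e (H z) = iota K z := by
  have ht : tt K ∈ e.fieldRange := by
    refine ⟨RatFunc.X ^ l + RatFunc.C a, ?_⟩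
    rw [map_add, map_pow, heX, heC, hy]
    ring
  have hmem : ∀ z, iota K z ∈ e.fieldRange := by
    intro z
    induction z using RatFunc.induction_on with
    | f P Q hQ =>
      have hp : ∀ R : Polynomial (AlgebraicClosure K),
          iota K (algebraMap _ _ R) ∈ e.fieldRange := by
        intro R
        induction R using Polynomial.induction_on with
        | C c =>
          rw [RatFunc.algebraMap_C, iota_C]
          exact ⟨RatFunc.C c, heC c⟩
        | add p q hp hq =>
          rw [map_add, map_add]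
          exact add_mem hp hq
        | monomial n c hn =>
          rw [map_mul, map_mul, map_pow, map_pow, RatFunc.algebraMap_C, iota_C,
            RatFunc.algebraMap_X, iota_X]
          exact mul_mem ⟨RatFunc.C c, heC c⟩ (pow_mem ht _)
      rw [map_div₀]
      exact div_mem (hp P) (hp Q)
  choose h hh using hmem
  refine ⟨⟨⟨⟨h, ?_⟩, ?_⟩, ?_, ?_⟩, hh⟩
  · apply e.injective
    rw [hh, map_one, map_one]
  · intro x y'
    apply e.injective
    change e (h (x * y')) = e (h x * h y')
    rw [map_mul, hh, hh, hh, map_mul]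
  · apply e.injective
    change e (h 0) = e 0
    rw [hh, map_zero, map_zero]
  · intro x y'
    apply e.injective
    change e (h (x + y')) = e (h x + h y')
    rw [map_add, hh, hh, hh, map_add]

private lemma f6_val {O : ValuationSubring (AlgebraicClosure (RatFunc K))}
    {a : AlgebraicClosure K} (ha : Over O a) {y : AlgebraicClosure (RatFunc K)}
    (hy : y ^ l = tt K - jj K a) : O.valuation y < 1 := by
  by_contra hcon
  have h1 : 1 ≤ O.valuation y := not_lt.mp hcon
  have h2 : 1 ≤ O.valuation y ^ l := one_le_pow₀ h1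
  rw [← map_pow, hy] at h2
  exact absurd ha.2 (not_lt.mpr h2)

/-- The homomorphism attached to the point `a` and the element `m` of the Tate twist. -/
noncomputable def kum (hl : (l : K) ≠ 0) (a : AlgebraicClosure K) :
    Tw l w →+ HomM (NN K) (Tw l w) where
  toFun m := (exists_kum hl a m).choose
  map_zero' := HomM.ext' fun g => by
    rw [(exists_kum hl a (0 : Tw l w)).choose_spec g, smul_zero, HomM.zero_apply]
  map_add' m m' := HomM.ext' fun g => by
    rw [HomM.add_apply, (exists_kum hl a (m + m')).choose_spec g,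
      (exists_kum hl a m).choose_spec g, (exists_kum hl a m').choose_spec g, smul_add]

lemma kum_apply (hl : (l : K) ≠ 0) (a : AlgebraicClosure K) (m : Tw l w) (g : NN K) :
    kum hl a m g = kap l a (g : AbsGal (RatFunc K)) • m := (exists_kum hl a m).choose_spec g

/-- TASK F6 (first statement). The Galois action on the Kummer homomorphisms.

PROOF. `(g • kum a m) n = g • (kap a (g⁻¹ * n * g) • m) = kap a (g⁻¹ * n * g) • g • m`
(`HomM.smul_apply`, `smul_comm`) and `kap_conj` (F5). -/
theorem smul_kum (hl : (l : K) ≠ 0) (a : AlgebraicClosure K) (m : Tw l w)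
    (g : AbsGal (RatFunc K)) :
    g • kum hl a m = kum hl (rs K g a)
      ((((cyclotomicCharacter (AlgebraicClosure (RatFunc K)) l
        (g : AlgebraicClosure (RatFunc K) ≃+* AlgebraicClosure (RatFunc K)))⁻¹ : ℤ_[l]ˣ) :
          ℤ_[l]) • (g • m)) := by
  refine HomM.ext' fun n => ?_
  rw [HomM.smul_apply, kum_apply, kum_apply, coe_conjN, kap_conj hl a g n.2, smul_comm, mul_smul,
    smul_smul, smul_smul]
  congr 1
  rw [mul_right_comm, Units.mul_inv, one_mul]

/-- The inertia group, as a subgroup of the Galois group of `K(t)`. -/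
noncomputable def Inr (O : ValuationSubring (AlgebraicClosure (RatFunc K))) :
    Subgroup (AbsGal (RatFunc K)) := O.decompositionSubgroup (RatFunc K) ⊓ NN K

variable {p : ℕ} [Fact p.Prime] [CharP K p]

/-- TASK F6 (second statement). The `l`-th roots of a unit fixed by the inertia group are fixed.

PROOF. Let `g ∈ Inr O`: `(g z) ^ l = g u = u = z ^ l`, so `ζ = g z / z` is an `l`-th root of unity.
`O.valuation z = 1`. `g` acts trivially on the residue field (`Over.mem_inertia`, `mem_inertia_iff`), so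
`O.valuation (g z - z) < 1`, so `O.valuation (ζ - 1) < 1`, and `ζ = 1` by `root_eq_of_val` (U0;
`CharP (AlgebraicClosure (RatFunc K)) p`, `charP_of_injective_ringHom`). -/
theorem fixed_of_pow (hpl : p ≠ l) {O : ValuationSubring (AlgebraicClosure (RatFunc K))}
    {a : AlgebraicClosure K} (ha : Over O a) {u z : AlgebraicClosure (RatFunc K)}
    (hu : O.valuation u = 1) (hfix : ∀ g ∈ Inr O, g u = u) (hz : z ^ l = u) :
    ∀ g ∈ Inr O, g z = z := by
  intro g hg
  have hchar : CharP (AlgebraicClosure (RatFunc K)) p :=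
    charP_of_injective_ringHom ((jj K).comp (algebraMap K (AlgebraicClosure K))).injective p
  have hl0 : l ≠ 0 := (Fact.out : l.Prime).ne_zero
  have hv : O.valuation z = 1 := by
    have h1 : O.valuation z ^ l = 1 := by rw [← map_pow, hz, hu]
    exact (pow_eq_one_iff.mp h1).resolve_right hl0
  have hz0 : z ≠ 0 := by
    rintro rfl
    rw [map_zero] at hv
    exact zero_ne_one hv
  have hzO : z ∈ O := by
    rw [← O.valuation_le_one_iff, hv]
  have hin : (⟨g, hg.1⟩ : O.decompositionSubgroup (RatFunc K)) ∈ O.inertiaSubgroup (RatFunc K) :=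
    (ha.mem_inertia ⟨g, hg.1⟩).mpr hg.2
  have h2 := (mem_inertia_iff O ⟨g, hg.1⟩).mp hin z hzO
  have h3 : g z / z = 1 := by
    refine root_eq_of_val (p := p) O (N := l) ?_ ?_ (one_pow l) ?_
    · exact (Nat.coprime_primes Fact.out Fact.out).mpr hpl
    · rw [div_pow, ← map_pow, hz, hfix g hg]
      apply div_self
      rw [← hz]
      exact pow_ne_zero _ hz0
    · have h4 : g z / z - 1 = (g z - z) / z := by
        field_simp
      rw [h4, map_div₀, hv, div_one]
      exact h2
  rwa [div_eq_one_iff_eq hz0] at h3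

/-- TASK F6 (third statement). The Kummer characters of the other points vanish on the inertia group.

PROOF. `tt K - jj K b = (tt K - jj K a) + jj K (a - b)` has valuation `1`, so has `rt l b n` for all `n`.
By induction on `n` and `fixed_of_pow`, `rt l b n` is fixed by `g ∈ Inr O`, so
`zlPow (eps n) (kap b g) = 1 = zlPow (eps n) 0` (`kap_spec`), so `toZModPow n (kap b g) = 0` for all
`n` (`zlPow_eq_iff`), and `kap b g = 0` (`PadicInt.ext_of_toZModPow`). -/
theorem kap_eq_zero (hpl : p ≠ l) {O : ValuationSubring (AlgebraicClosure (RatFunc K))}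
    {a b : AlgebraicClosure K} (ha : Over O a) (hab : b ≠ a) {g : AbsGal (RatFunc K)}
    (hg : g ∈ Inr O) : kap l b g = 0 := by
  have hl : (l : K) ≠ 0 := l_ne_zero hpl
  have key : ∀ n, O.valuation (rt l b n) = 1 ∧ ∀ g ∈ Inr O, g (rt l b n) = rt l b n := by
    intro n
    induction n with
    | zero =>
      constructor
      · have hc : O.valuation (jj K (a - b)) = 1 := by
          have hne : a - b ≠ 0 := sub_ne_zero.mpr (Ne.symm hab)
          have h1 : O.valuation (jj K (a - b)) ≤ 1 := (O.valuation_le_one_iff _).mpr (ha.1 _)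
          have h2 : O.valuation (jj K (a - b)⁻¹) ≤ 1 := (O.valuation_le_one_iff _).mpr (ha.1 _)
          refine le_antisymm h1 ?_
          rw [map_inv₀, map_inv₀] at h2
          by_contra hcon
          have h3 := not_le.mp hcon
          have h4 : O.valuation (jj K (a - b)) ≠ 0 := by
            rw [Ne, map_eq_zero, map_eq_zero]
            exact hne
          have h5 : 1 < (O.valuation (jj K (a - b)))⁻¹ := (one_lt_inv₀ (zero_lt_iff.mpr h4)).mpr h3
          exact absurd h2 (not_le.mpr h5)
        have h1 : rt l b 0 = (tt K - jj K a) + jj K (a - b) := by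
          rw [rt_zero, map_sub]
          ring
        rw [h1, Valuation.map_add_eq_of_lt_right _ (by rw [hc]; exact ha.2), hc]
      · intro g hg
        rw [rt_zero, map_sub, apply_tt, mem_NN_iff.mp hg.2]
    | succ n ih =>
      have h1 := rt_succ l b n
      have hl0 : l ≠ 0 := (Fact.out : l.Prime).ne_zero
      constructor
      · have h2 : O.valuation (rt l b (n + 1)) ^ l = 1 := by rw [← map_pow, h1, ih.1]
        exact (pow_eq_one_iff.mp h2).resolve_right hl0
      · exact fixed_of_pow hpl ha ih.1 ih.2 h1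
  rw [← PadicInt.ext_of_toZModPow]
  intro n
  have hε := (isEps_eps (Ω := AlgebraicClosure (RatFunc K)) (l := l) (f6_hl hl)).1 n
  rw [← zlPow_eq_iff hε]
  have h3 := kap_spec hl b hg.2 n
  rw [(key n).2 g hg] at h3
  have h5 : 1 * rt l b n = zlPow l n (eps (AlgebraicClosure (RatFunc K)) l n) (kap l b g) *
      rt l b n := by
    rw [one_mul]
    exact h3
  rw [← mul_right_cancel₀ (rt_ne_zero b n) h5]
  unfold zlPow
  rw [map_zero]
  simp

open scoped Pointwise in
/-- TASK F6 (fourth statement). The Kummer character of the point `a` takes a unit value on the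
inertia group.

PROOF. Let `y = rt l a 1`, `y ^ l = tt K - jj K a`, and `ε = eps Ω l 1`, a primitive `l`-th root of
unity, in the image of `jj K` (`Ω = AlgebraicClosure (RatFunc K)`).
(1) There is `s ∈ NN K` with `s y = ε * y`: the element `X - C a` is not an `l`-th power in
`RatFunc (AlgebraicClosure K)` (its order of vanishing at `a` is `1`), so `X^l - (X - C a)` is
irreducible over it (`X_pow_sub_C_irreducible_iff_of_prime`), so it is the minimal polynomial of `y`
and of `ε y`, and there is an automorphism over `RatFunc (AlgebraicClosure K)` with `y ↦ ε y`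
(`exists_algHom_of_splits_...`/`IsConjRoot`/`Normal`); use `exists_of_autOm` (F1).
(2) Let `e : RatFunc (AlgebraicClosure K) →+* Ω` be the homomorphism with `C c ↦ jj K c` and `X ↦ y`
(`y` is transcendental over `jj K`, as `tt K = y ^ l + jj K a` is; e.g. the composition of `iota K`
... constructed like `exists_iota`). The valuation rings `O` and `s • O` contain the constants and
`y - 0` is in their maximal ideals (`y ^ l = tt K - jj K a`; `s⁻¹ y = ε⁻¹ y`), so they have the same
trace under `e` (`comap_ratFunc_eq`, V4, with `a = 0`). `Ω` is algebraic over the image of `e` (which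
contains the image of `iota K`). By `exists_smul_eq` (V2, for the algebra structure given by `e`) there
is an automorphism `τ` of `Ω` fixing the image of `e` with `τ • O = s • O`. `τ` fixes `jj K c`, `y`,
hence also `tt K`, so it is given by an element of `NN K`. Let `i = τ⁻¹ * s`: it is in the decomposition
group and in `NN K`, and `i y = τ⁻¹ (ε * y) = ε * y`. By `kap_spec` `zlPow ε (kap a i) = ε`, so
`toZModPow 1 (kap a i) = 1`, so `kap a i` is a unit. -/
theorem exists_kap_unit (hpl : p ≠ l) {O : ValuationSubring (AlgebraicClosure (RatFunc K))}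
    {a : AlgebraicClosure K} (ha : Over O a) : ∃ g ∈ Inr O, IsUnit (kap l a g) := by
  have hl : (l : K) ≠ 0 := l_ne_zero hpl
  have hl0 : l ≠ 0 := (Fact.out : l.Prime).ne_zero
  have hy : rt l a 1 ^ l = tt K - jj K a := by
    rw [← rt_zero l a]
    exact rt_succ l a 0
  have hε := (isEps_eps (Ω := AlgebraicClosure (RatFunc K)) (l := l) (f6_hl hl)).1 1
  obtain ⟨c, hc⟩ := f6_eps (K := K) (l := l) hl 1
  -- the automorphism `s`
  have hs : ∃ s ∈ NN K, s (rt l a 1) = eps (AlgebraicClosure (RatFunc K)) l 1 * rt l a 1 := by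
    have hirr : Irreducible (Polynomial.X ^ l - Polynomial.C
        (RatFunc.X - RatFunc.C a : RatFunc (AlgebraicClosure K))) :=
      (X_pow_sub_C_irreducible_iff_of_prime (Fact.out : l.Prime)).mpr fun b => f6_notpow a b
    have hmon : (Polynomial.X ^ l - Polynomial.C
        (RatFunc.X - RatFunc.C a : RatFunc (AlgebraicClosure K))).Monic :=
      Polynomial.monic_X_pow_sub_C _ hl0
    have hroot : ∀ z : AlgebraicClosure (RatFunc K), z ^ l = tt K - jj K a →
        minpoly (RatFunc (AlgebraicClosure K)) z = Polynomial.X ^ l - Polynomial.C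
          (RatFunc.X - RatFunc.C a : RatFunc (AlgebraicClosure K)) := by
      intro z hz
      refine (minpoly.eq_of_irreducible_of_monic hirr ?_ hmon).symm
      rw [map_sub, map_pow, Polynomial.aeval_X, Polynomial.aeval_C, algebraMap_om, map_sub, iota_X,
        iota_C, hz, sub_self]
    have hz2 : (eps (AlgebraicClosure (RatFunc K)) l 1 * rt l a 1) ^ l = tt K - jj K a := by
      have h1 : eps (AlgebraicClosure (RatFunc K)) l 1 ^ l = 1 := by
        have h2 := hε.pow_eq_one
        rwa [pow_one] at h2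
      rw [mul_pow, h1, one_mul, hy]
    have hcl : IsAlgClosure (RatFunc (AlgebraicClosure K)) (AlgebraicClosure (RatFunc K)) :=
      ⟨inferInstance, inferInstance⟩
    have hnorm : Normal (RatFunc (AlgebraicClosure K)) (AlgebraicClosure (RatFunc K)) :=
      IsAlgClosure.normal _ _
    have hconj : IsConjRoot (RatFunc (AlgebraicClosure K))
        (eps (AlgebraicClosure (RatFunc K)) l 1 * rt l a 1) (rt l a 1) := by
      rw [IsConjRoot, hroot _ hz2, hroot _ hy]
    obtain ⟨σ, hσ⟩ := isConjRoot_iff_exists_algEquiv.mp hconj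
    obtain ⟨g, hg, hg'⟩ := exists_of_autOm σ
    exact ⟨g, hg, by rw [hg', hσ]⟩
  obtain ⟨s, hsN, hsy⟩ := hs
  obtain ⟨e, heC, heX⟩ := f6_exists_e hy
  obtain ⟨H, hH⟩ := f6_range hy heC heX
  have hOver : Over (s • O) a := by
    have h1 := Over.smul ha s
    rwa [mem_NN.mp hsN] at h1
  have hcomap : O.comap e = (s • O).comap e := by
    refine comap_ratFunc_eq e e 0 O (fun c => ?_) ?_ (s • O) (fun c => ?_) ?_
    · rw [heC]
      exact ha.1 c
    · rw [map_sub, heX, heC, map_zero, sub_zero]
      exact f6_val ha hy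
    · rw [heC]
      exact hOver.1 c
    · rw [map_sub, heX, heC, map_zero, sub_zero]
      exact f6_val hOver hy
  have halg : ∀ x : AlgebraicClosure (RatFunc K),
      ∃ P : Polynomial (RatFunc (AlgebraicClosure K)), P ≠ 0 ∧ P.eval₂ e x = 0 := by
    intro x
    obtain ⟨P, hP, hP'⟩ := (isAlgebraic_om K).isAlgebraic x
    refine ⟨P.map H, (Polynomial.map_ne_zero_iff H.injective).mpr hP, ?_⟩
    rw [Polynomial.eval₂_map]
    have h1 : e.comp H = iota K := RingHom.ext hH
    rw [h1]
    exact hP'
  obtain ⟨τ, hτe, hτO⟩ := f6_trans e halg O (s • O) hcomap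
  have hτi : ∀ z, τ (iota K z) = iota K z := by
    intro z
    rw [← hH, hτe]
  have hτK : ∀ z : RatFunc K, τ (algebraMap (RatFunc K) (AlgebraicClosure (RatFunc K)) z) =
      algebraMap (RatFunc K) (AlgebraicClosure (RatFunc K)) z := by
    intro z
    rw [← iota_map, hτi]
  let τ' : AbsGal (RatFunc K) := AlgEquiv.ofRingEquiv (f := τ) hτK
  have hτ' : ∀ x, τ' x = τ x := fun x => rfl
  have hinv : ∀ x, (τ'⁻¹ * s) x = τ.symm (s x) := fun x => rfl
  refine ⟨τ'⁻¹ * s, ⟨?_, ?_⟩, ?_⟩
  · refine (mem_decomp_iff O (τ'⁻¹ * s)).mpr fun x => ?_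
    rw [hinv, ← hτO, RingEquiv.apply_symm_apply]
    exact ValuationSubring.smul_mem_pointwise_smul_iff
  · refine mem_NN_iff.mpr fun x => ?_
    rw [hinv, mem_NN_iff.mp hsN, RingEquiv.symm_apply_eq, ← heC, hτe]
  · have hN : τ'⁻¹ * s ∈ NN K := by
      rw [mem_NN_iff]
      intro x
      rw [hinv, mem_NN_iff.mp hsN, RingEquiv.symm_apply_eq, ← heC, hτe]
    have h1 : (τ'⁻¹ * s) (rt l a 1) = eps (AlgebraicClosure (RatFunc K)) l 1 * rt l a 1 := by
      rw [hinv, hsy, RingEquiv.symm_apply_eq, map_mul, ← hc, ← heC c, hτe, ← heX, hτe]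
    have h2 := kap_spec hl a hN 1
    rw [h1] at h2
    have h3 := mul_right_cancel₀ (rt_ne_zero a 1) h2
    have h4 : zlPow l 1 (eps (AlgebraicClosure (RatFunc K)) l 1) (kap l a (τ'⁻¹ * s)) =
        zlPow l 1 (eps (AlgebraicClosure (RatFunc K)) l 1) ((1 : ℕ) : ℤ_[l]) := by
      rw [zlPow_natCast hε.pow_eq_one, pow_one, ← h3]
    rw [zlPow_eq_iff hε] at h4
    by_contra hnu
    have h5 : kap l a (τ'⁻¹ * s) ∈ IsLocalRing.maximalIdeal ℤ_[l] := hnu
    have h6 : kap l a (τ'⁻¹ * s) - ((1 : ℕ) : ℤ_[l]) ∈ IsLocalRing.maximalIdeal ℤ_[l] := by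
      rw [PadicInt.maximalIdeal_eq_span_p]
      have h7 : kap l a (τ'⁻¹ * s) - ((1 : ℕ) : ℤ_[l]) ∈
          RingHom.ker (PadicInt.toZModPow 1 : ℤ_[l] →+* ZMod (l ^ 1)) := by
        rw [RingHom.mem_ker, map_sub, h4, sub_self]
      rwa [PadicInt.ker_toZModPow, pow_one] at h7
    have h8 := Ideal.sub_mem _ h5 h6
    rw [Nat.cast_one, sub_sub_cancel] at h8
    exact (IsLocalRing.maximalIdeal.isMaximal ℤ_[l]).ne_top ((Ideal.eq_top_iff_one _).mpr h8)

end GC
end

section

/-!
# Classes of degree two inflated from `l`-groups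
-/

namespace GC

universe u v w

variable {F Ω : Type u} [Field F] [Field Ω] [Algebra F Ω] [IsAlgClosed Ω]
  [Algebra.IsAlgebraic F Ω]

omit [IsAlgClosed Ω] [Algebra.IsAlgebraic F Ω] in
/-- The multiplicative group with the action of a subgroup. -/
def c6_equiv {Δ : Type u} [Group Δ] (θ : Δ →* (Ω ≃ₐ[F] Ω)) (S : Subgroup Δ) :
    WMod θ ≃+ WMod (θ.comp S.subtype) where
  toFun a := WMod.mk a.val
  invFun a := WMod.mk a.val
  left_inv _ := rfl
  right_inv _ := rfl
  map_add' _ _ := rfl

omit [IsAlgClosed Ω] [Algebra.IsAlgebraic F Ω] in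
theorem c6_equiv_smul {Δ : Type u} [Group Δ] (θ : Δ →* (Ω ≃ₐ[F] Ω)) (S : Subgroup Δ) (s : S)
    (a : WMod θ) : c6_equiv θ S (s • a) = s • c6_equiv θ S a := rfl

omit [IsAlgClosed Ω] [Algebra.IsAlgebraic F Ω] in
theorem c6_equiv_symm_smul {Δ : Type u} [Group Δ] (θ : Δ →* (Ω ≃ₐ[F] Ω)) (S : Subgroup Δ) (s : S)
    (a : WMod (θ.comp S.subtype)) :
    (c6_equiv θ S).symm (s • a) = s • (c6_equiv θ S).symm a := rfl

omit [Algebra.IsAlgebraic F Ω] in
theorem c6_div {l : ℕ} (hl : l.Prime) {Δ : Type u} [Group Δ] (θ : Δ →* (Ω ≃ₐ[F] Ω))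
    (a : WMod θ) : ∃ b : WMod θ, l • b = a := by
  obtain ⟨z, hz⟩ := IsAlgClosed.exists_pow_nat_eq (a.val : Ω) hl.pos
  have hz0 : z ≠ 0 := by
    rintro rfl
    rw [zero_pow hl.ne_zero] at hz
    exact a.val.ne_zero hz.symm
  refine ⟨WMod.mk (Units.mk0 z hz0), WMod.ext ?_⟩
  rw [WMod.val_nsmul, WMod.val_mk, Units.val_pow_eq_pow_val, Units.val_mk0, hz]

/-- TASK C6. A class of `H^2(Δ, μ_l)` inflated from a finite `l`-group is trivial.

PROOF. Induction on `k`, for all `Δ`, `θ`, `V`, `x`.
`k = 0`: `V = ⊤`, so `x` is constant, equal to `w` with `g • w = w`; take `a` constant equal to `w`: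
`d a = w - w + w = w`; `l • w = 0`.
`k + 1`: `Δ ⧸ V` is a group of order `l ^ (k+1)`; it has a subgroup of index `l`
(`Sylow.exists_subgroup_card_pow_prime`), which is normal (index equal to the smallest prime factor
of the order, `Subgroup.normal_of_index_eq_minFac_card`, or via nilpotency). Let `S` be its preimage
in `Δ`: `V ≤ S`, `S` normal, open, `S.index = l`, and `V.subgroupOf S` is open, normal, of index
`l ^ k` in `S` (`Subgroup.relIndex_mul_index`). Apply the induction hypothesis to the group `S`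
(compact: open subgroups are closed), the homomorphism `θ.comp S.subtype` (continuous, injective),
`V.subgroupOf S` and the restriction of `x` to `S` (the modules `WMod θ` and
`WMod (θ.comp S.subtype)` have the same underlying group and the same action of `S`): the
restriction is `d a_S`, so it is in `Cobd S (WMod θ) 2`. Now `step_two` (C4) with `V := S`, using
`disc_wmod`, `van_wmod`, `van_wmod_sub` (C1), the divisibility of `Ω^×` (`IsAlgClosed.exists_pow_nat_eq`)
and `norm_of_cond` (C5). -/
theorem lgroup_two {l : ℕ} (hl : l.Prime) (hN : NormCond l F Ω) {ζ₀ : F}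
    (hζ : IsPrimitiveRoot ζ₀ l) (k : ℕ) (Δ : Type u) [Group Δ] [TopologicalSpace Δ]
    [IsTopologicalGroup Δ] [CompactSpace Δ] [TotallyDisconnectedSpace Δ]
    (θ : Δ →* (Ω ≃ₐ[F] Ω)) (hθ : Continuous θ) (hi : Function.Injective θ) (V : Subgroup Δ)
    (hVn : V.Normal) (hV : IsOpen (V : Set Δ)) (hVk : V.index = l ^ k)
    (x : (Fin 3 → Δ) → WMod θ) (hx : x ∈ Coch (WMod θ) (⊤ : Subgroup Δ) V 2) (hxd : d x = 0)
    (hlx : l • x = 0) :
    ∃ a ∈ Coch (WMod θ) (⊤ : Subgroup Δ) ⊥ 1, l • a = 0 ∧ d a = x := by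
  induction k generalizing Δ with
  | zero =>
    rw [pow_zero, Subgroup.index_eq_one] at hVk
    subst hVk
    have h1 : ∀ y, x y = x (fun _ => 1) := by
      intro y
      have h := hx.2.1 y (fun i => (y i)⁻¹) (fun i => Subgroup.mem_top _)
      simp only [mul_inv_cancel] at h
      exact h.symm
    have h2 : ∀ g : Δ, g • x (fun _ => 1) = x (fun _ => 1) := by
      intro g
      rw [← hx.1 g (Subgroup.mem_top g) (fun _ => 1), h1]
    refine ⟨fun _ => x (fun _ => 1), ⟨fun g _ y => (h2 g).symm, fun _ _ _ => rfl,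
      ⊤, isOpen_univ, fun _ _ _ => rfl⟩, ?_, ?_⟩
    · funext y
      exact congrFun hlx (fun _ => 1)
    · funext y
      rw [h1 y]
      simp [d, Fin.sum_univ_succ]
  | succ k ih =>
    have hp : Fact l.Prime := ⟨hl⟩
    have hcard : Nat.card (Δ ⧸ V) = l ^ (k + 1) := hVk
    have hfin : Finite (Δ ⧸ V) :=
      Nat.finite_of_card_ne_zero (by rw [hcard]; exact pow_ne_zero _ hl.ne_zero)
    obtain ⟨T, hT⟩ := Sylow.exists_subgroup_card_pow_prime (G := Δ ⧸ V) (n := k) l
      (by rw [hcard]; exact pow_dvd_pow l (Nat.le_succ k))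
    have hTi : T.index = l := by
      have h := T.card_mul_index
      rw [hT, hcard, pow_succ] at h
      exact Nat.eq_of_mul_eq_mul_left (pow_pos hl.pos k) h
    have hTn : T.Normal := by
      apply Subgroup.normal_of_index_eq_minFac_card
      rw [hTi, hcard, hl.pow_minFac (Nat.succ_ne_zero k)]
    let S : Subgroup Δ := T.comap (QuotientGroup.mk' V)
    have hSn : S.Normal := hTn.comap _
    have hSi : S.index = l := by
      rw [← hTi]
      exact Subgroup.index_comap_of_surjective T (QuotientGroup.mk'_surjective V)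
    have hVS : V ≤ S := by
      intro v hv
      rw [Subgroup.mem_comap]
      have h0 : QuotientGroup.mk' V v = 1 := (QuotientGroup.eq_one_iff v).2 hv
      rw [h0]
      exact one_mem T
    have hSo : IsOpen (S : Set Δ) := Subgroup.isOpen_mono hVS hV
    have hSc : IsClosed (S : Set Δ) := Subgroup.isClosed_of_isOpen S hSo
    have hSk : CompactSpace S := isCompact_iff_compactSpace.1 hSc.isCompact
    have hVi : (V.subgroupOf S).index = l ^ k := by
      have h := Subgroup.relIndex_mul_index hVS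
      rw [hSi, hVk, pow_succ] at h
      exact Nat.eq_of_mul_eq_mul_right hl.pos h
    have hVo : IsOpen ((V.subgroupOf S : Subgroup S) : Set S) :=
      hV.preimage continuous_subtype_val
    -- the restriction of `x`
    let x' : (Fin 3 → S) → WMod (θ.comp S.subtype) := fun y => c6_equiv θ S (x fun i => (y i : Δ))
    have hx' : x' ∈ Coch (WMod (θ.comp S.subtype)) (⊤ : Subgroup S) (V.subgroupOf S) 2 := by
      refine ⟨fun g _ y => ?_, fun y u hu => ?_, ?_⟩
      · have h := hx.1 (g : Δ) (Subgroup.mem_top _) (fun i => (y i : Δ))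
        change c6_equiv θ S (x fun i => (g : Δ) * (y i : Δ)) = _
        rw [h]
        rfl
      · change c6_equiv θ S (x fun i => (y i : Δ) * (u i : Δ)) = _
        rw [hx.2.1 (fun i => (y i : Δ)) (fun i => (u i : Δ)) fun i => hu i]
      · obtain ⟨U, hU, hU'⟩ := hx.2.2
        refine ⟨U.subgroupOf S, hU.preimage continuous_subtype_val, fun y u hu => ?_⟩
        change c6_equiv θ S (x fun i => (y i : Δ) * (u i : Δ)) = _
        rw [hU' (fun i => (y i : Δ)) (fun i => (u i : Δ)) fun i => hu i]
    have hx'd : d x' = 0 := by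
      have h1 : d x' = fun y => c6_equiv θ S (d x fun i => (y i : Δ)) := by
        funext y
        simp only [x', d, map_sum, map_zsmul]
      rw [h1, hxd]
      funext y
      exact map_zero (c6_equiv θ S)
    have hlx' : l • x' = 0 := by
      funext y
      change l • c6_equiv θ S (x fun i => (y i : Δ)) = 0
      rw [← map_nsmul]
      have h := congrFun hlx (fun i => (y i : Δ))
      change l • x (fun i => (y i : Δ)) = 0 at h
      rw [h, map_zero]
    obtain ⟨a, ha, hla, hda⟩ := ih S (θ.comp S.subtype) (hθ.comp continuous_subtype_val)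
      (hi.comp Subtype.val_injective) (V.subgroupOf S) inferInstance hVo hVi x' hx' hx'd hlx'
    have hxV : (fun y : Fin 3 → S => x fun i => (y i : Δ)) ∈ Cobd S (WMod θ) 2 := by
      refine ⟨fun y => (c6_equiv θ S).symm (a y), ⟨fun g hg y => ?_, fun y u hu => ?_, ?_⟩, ?_⟩
      · change (c6_equiv θ S).symm (a fun i => g * y i) = g • (c6_equiv θ S).symm (a y)
        rw [ha.1 g hg y, c6_equiv_symm_smul]
      · change (c6_equiv θ S).symm (a fun i => y i * u i) = _
        rw [ha.2.1 y u hu]
      · obtain ⟨U, hU, hU'⟩ := ha.2.2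
        refine ⟨U, hU, fun y u hu => ?_⟩
        change (c6_equiv θ S).symm (a fun i => y i * u i) = _
        rw [hU' y u hu]
      · funext y
        have h1 : d (fun y => (c6_equiv θ S).symm (a y)) y = (c6_equiv θ S).symm (d a y) := by
          simp only [d, map_sum, map_zsmul]
        rw [dHom_apply, h1, hda]
        exact (c6_equiv θ S).symm_apply_apply _
    exact step_two hSo hl hSi (disc_wmod hθ) (c6_div hl θ) (van_wmod hθ hi)
      (van_wmod_sub hθ hi hSc) (norm_of_cond hl hN hζ hθ hi hSo hSi)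
      (x := x) ⟨coch_mono le_rfl bot_le 2 hx, hxd⟩ hlx hxV

end GC
end

section

/-!
# Vanishing of `H^2` for the trivial module of order `l`
-/

namespace GC

universe u v w

/-- TASK C7 (first statement). An open subgroup of index prime to `l` which is an `l`-group modulo an
open normal subgroup.

PROOF. The preimage of a Sylow `l`-subgroup of the finite group `Γ ⧸ V`. -/
theorem exists_sylow {Γ : Type u} [Group Γ] [TopologicalSpace Γ] [IsTopologicalGroup Γ]
    [CompactSpace Γ] {l : ℕ} (hl : l.Prime) {V : Subgroup Γ} [V.Normal]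
    (hV : IsOpen (V : Set Γ)) :
    ∃ S : Subgroup Γ, V ≤ S ∧ IsOpen (S : Set Γ) ∧ Nat.Coprime l S.index ∧
      ∃ k, (V.subgroupOf S).index = l ^ k := by
  have : Fact l.Prime := ⟨hl⟩
  have hfin : Finite (Γ ⧸ V) := finite_quotient hV
  obtain ⟨P⟩ : Nonempty (Sylow l (Γ ⧸ V)) := inferInstance
  have hle : V ≤ (P : Subgroup (Γ ⧸ V)).comap (QuotientGroup.mk' V) := by
    intro v hv
    rw [Subgroup.mem_comap, QuotientGroup.mk'_apply, (QuotientGroup.eq_one_iff v).2 hv]
    exact one_mem _
  have hidx : ((P : Subgroup (Γ ⧸ V)).comap (QuotientGroup.mk' V)).index =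
      (P : Subgroup (Γ ⧸ V)).index :=
    Subgroup.index_comap_of_surjective _ (QuotientGroup.mk'_surjective V)
  have hndvd : ¬ l ∣ (P : Subgroup (Γ ⧸ V)).index := P.not_dvd_index
  refine ⟨(P : Subgroup (Γ ⧸ V)).comap (QuotientGroup.mk' V), hle,
    Subgroup.isOpen_mono hle hV, ?_, ?_⟩
  · rw [hidx]
    exact (Nat.Prime.coprime_iff_not_dvd hl).2 hndvd
  · obtain ⟨k, hk⟩ := P.isPGroup'.exists_card_eq
    refine ⟨k, ?_⟩
    have h1 : (V.subgroupOf ((P : Subgroup (Γ ⧸ V)).comap (QuotientGroup.mk' V))).index *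
        ((P : Subgroup (Γ ⧸ V)).comap (QuotientGroup.mk' V)).index = V.index :=
      Subgroup.relIndex_mul_index hle
    have h2 : Nat.card (P : Subgroup (Γ ⧸ V)) * (P : Subgroup (Γ ⧸ V)).index =
        Nat.card (Γ ⧸ V) := Subgroup.card_mul_index _
    have h3 : Nat.card (Γ ⧸ V) = V.index := rfl
    rw [hidx, ← h3, ← h2] at h1
    have h4 : (P : Subgroup (Γ ⧸ V)).index ≠ 0 := Subgroup.index_ne_zero_of_finite
    have h5 := Nat.eq_of_mul_eq_mul_right (Nat.pos_of_ne_zero h4) h1
    rw [h5]
    exact hk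

variable {F Ω : Type u} [Field F] [Field Ω] [Algebra F Ω] [IsAlgClosed Ω]
  [Algebra.IsAlgebraic F Ω] {Δ : Type u} [Group Δ] [TopologicalSpace Δ] [IsTopologicalGroup Δ]
  [CompactSpace Δ] [TotallyDisconnectedSpace Δ]

omit [TopologicalSpace Δ] [IsTopologicalGroup Δ] [CompactSpace Δ] [TotallyDisconnectedSpace Δ]
  [IsAlgClosed Ω] [Algebra.IsAlgebraic F Ω] in
/-- the embedding of a group of order `l` in the roots of unity -/
theorem c7_iota {l : ℕ} (hl : l.Prime) {ζ₀ : F} (hζ : IsPrimitiveRoot ζ₀ l)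
    (θ : Δ →* (Ω ≃ₐ[F] Ω)) (A : Type v) [AddCommGroup A] (hA : Nat.card A = l) :
    ∃ ι : A →+ WMod θ, Function.Injective ι ∧ (∀ (g : Δ) (a : A), g • ι a = ι a) ∧
      ∀ m : WMod θ, l • m = 0 → ∃ a, ι a = m := by
  have : Fact l.Prime := ⟨hl⟩
  have : NeZero l := ⟨hl.ne_zero⟩
  have hζ' : IsPrimitiveRoot (algebraMap F Ω ζ₀) l :=
    hζ.map_of_injective (algebraMap F Ω).injective
  have hcard : Nat.card (rootsOfUnity l Ω) = l := hζ'.card_rootsOfUnity
  have hA' : Nat.card (Multiplicative A) = l := hA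
  let e : Multiplicative A ≃* rootsOfUnity l Ω := mulEquivOfPrimeCardEq hA' hcard
  let ι : A →+ WMod θ :=
    { toFun := fun a => WMod.mk ((e (Multiplicative.ofAdd a) : rootsOfUnity l Ω) : Ωˣ)
      map_zero' := by
        apply WMod.ext
        rw [ofAdd_zero, map_one]
        rfl
      map_add' := by
        intro a b
        apply WMod.ext
        rw [ofAdd_add, map_mul]
        rfl }
  have hι : ∀ a, ((ι a).val : Ω) ^ l = 1 := by
    intro a
    have h1 := (e (Multiplicative.ofAdd a)).2
    rw [mem_rootsOfUnity] at h1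
    have h2 := congrArg Units.val h1
    rw [Units.val_pow_eq_pow_val] at h2
    exact h2
  refine ⟨ι, ?_, ?_, ?_⟩
  · intro a b h
    have h1 : ((ι a).val : Ωˣ) = (ι b).val := by rw [h]
    have h2 : e (Multiplicative.ofAdd a) = e (Multiplicative.ofAdd b) := Subtype.ext h1
    exact Multiplicative.ofAdd.injective (e.injective h2)
  · intro g a
    apply WMod.ext
    rw [WMod.val_smul]
    obtain ⟨i, -, hi⟩ := hζ'.eq_pow_of_pow_eq_one (hι a)
    rw [← hi, map_pow, (θ g).commutes]
  · intro m hm
    have h1 : m.val ^ l = 1 := by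
      have h2 : (l • m).val = 1 := by rw [hm]; rfl
      rwa [WMod.val_nsmul] at h2
    refine ⟨Multiplicative.toAdd (e.symm ⟨m.val, (mem_rootsOfUnity l _).2 h1⟩), ?_⟩
    apply WMod.ext
    change (((e (Multiplicative.ofAdd (Multiplicative.toAdd (e.symm
      ⟨m.val, (mem_rootsOfUnity l _).2 h1⟩))) : rootsOfUnity l Ω) : Ωˣ) : Ω) = m.val
    rw [ofAdd_toAdd, MulEquiv.apply_symm_apply]

/-- TASK C7 (second statement). `H^2(Δ, A) = 0` if `A` has order `l` and trivial action.

PROOF. Let `x ∈ Coch A ⊤ ⊥ 2` be a cocycle, right invariant under the open normal subgroup `V`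
(`Smooth.exists_normal`), and `S` as in `exists_sylow`. Let `a₀` be a generator of `A` (a group of
prime order is cyclic) and `ι : A →+ WMod θ` the injective homomorphism with
`ι a₀ = mk (algebraMap ζ₀)`; it is equivariant (both actions are trivial), and its image is the
subgroup of the elements killed by `l` (an `l`-th root of unity in `Ω` is a power of `ζ₀`). The
restriction of `ι ∘ x` to `S`, as a cochain with values in `WMod (θ.comp S.subtype)` (the same group
with the same action of `S`), is right invariant under `V.subgroupOf S`, a cocycle, killed by `l`.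
By `lgroup_two` for the group `S` it is `d a` with `l • a = 0`, so `a = ι ∘ a'` with
`a' ∈ Coch A (⊤ : Subgroup S) ⊥ 1` (`coch_of_values`), and `x|_S = d a'`. By `cobd_of_coprime` (A20;
`l • m = 0` for all `m : A`) `x ∈ Cobd Δ A 2`. -/
theorem van_order_l {l : ℕ} (hl : l.Prime) (hN : NormCond l F Ω) {ζ₀ : F}
    (hζ : IsPrimitiveRoot ζ₀ l) {θ : Δ →* (Ω ≃ₐ[F] Ω)} (hθ : Continuous θ)
    (hi : Function.Injective θ) (A : Type v) [AddCommGroup A] [DistribMulAction Δ A]
    (hA : Nat.card A = l) (htriv : ∀ (g : Δ) (a : A), g • a = a) : VanAt Δ A 1 := by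
  intro c hc hdc
  obtain ⟨V, hVn, hVo, -, hVc⟩ := Smooth.exists_normal hc.2.2 (W := ⊤) isOpen_univ
  obtain ⟨S, hVS, hSo, hSl, k, hk⟩ := exists_sylow hl hVo
  have hSc : IsClosed (S : Set Δ) := S.isClosed_of_isOpen hSo
  have : CompactSpace S := isCompact_iff_compactSpace.1 hSc.isCompact
  obtain ⟨ι, hinj, hequi, himg⟩ := c7_iota hl hζ (θ.comp S.subtype) A hA
  have hlA : ∀ a : A, l • a = 0 := by
    intro a
    rw [← hA]
    exact card_nsmul_eq_zero'
  -- the restriction
  have hx : (fun x : Fin 3 → S => ι (c fun i => (x i : Δ))) ∈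
      Coch (WMod (θ.comp S.subtype)) (⊤ : Subgroup S) (V.subgroupOf S) 2 := by
    refine ⟨?_, ?_, ?_⟩
    · intro g _ x
      rw [hequi]
      change ι (c fun i => (g : Δ) * (x i : Δ)) = _
      rw [hc.1 g trivial (fun i => (x i : Δ)), htriv]
    · intro x u hu
      change ι (c fun i => (x i : Δ) * (u i : Δ)) = _
      rw [hVc (fun i => (x i : Δ)) (fun i => (u i : Δ)) hu]
    · refine ⟨V.subgroupOf S, ?_, ?_⟩
      · exact hVo.preimage continuous_subtype_val
      · intro x u hu
        change ι (c fun i => (x i : Δ) * (u i : Δ)) = _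
        rw [hVc (fun i => (x i : Δ)) (fun i => (u i : Δ)) hu]
  have hxd : d (fun x : Fin 3 → S => ι (c fun i => (x i : Δ))) = 0 := by
    rw [d_map ι (fun x : Fin 3 → S => c fun i => (x i : Δ)),
      d_comp (fun s : S => (s : Δ)) c, hdc]
    funext x
    simp
  have hlx : l • (fun x : Fin 3 → S => ι (c fun i => (x i : Δ))) = 0 := by
    funext x
    rw [Pi.smul_apply, ← map_nsmul, hlA, map_zero, Pi.zero_apply]
  have hVn' : (V.subgroupOf S).Normal := inferInstance
  have hVo' : IsOpen ((V.subgroupOf S : Subgroup S) : Set S) :=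
    hVo.preimage continuous_subtype_val
  obtain ⟨a, ha, hla, hda⟩ := lgroup_two hl hN hζ k S (θ.comp S.subtype)
    (hθ.comp continuous_subtype_val) (hi.comp Subtype.val_injective) (V.subgroupOf S) hVn' hVo' hk
    _ hx hxd hlx
  obtain ⟨a', ha', haa⟩ := coch_of_values ι (fun g b => by
    rw [hequi]
    change ι ((g : Δ) • b) = ι b
    rw [htriv]) hinj ha (fun x => himg _ (congrFun hla x))
  have hres : d a' = fun x : Fin 3 → S => c fun i => (x i : Δ) := by
    funext x
    apply hinj
    have h1 : (fun y => ι (a' y)) = a := funext haa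
    have h2 := congrFun (d_map ι a') x
    rw [h1, hda] at h2
    exact h2.symm
  have hcob : c ∈ Cobd Δ A 2 := by
    refine cobd_of_coprime hSo hSl (fun m => ⟨1, by rw [pow_one, hlA]⟩) ⟨hc, ?_⟩ ?_
    · exact hdc
    · exact ⟨a', ha', hres⟩
  obtain ⟨b, hb, hbd⟩ := hcob
  exact ⟨b, hb, hbd⟩

end GC
end

section

/-!
# Vanishing of `H^2` for all `l`-primary modules
-/

namespace GC

universe u v w

variable {F Ω : Type u} [Field F] [Field Ω] [Algebra F Ω] [IsAlgClosed Ω]
  [Algebra.IsAlgebraic F Ω] {Δ : Type u} [Group Δ] [TopologicalSpace Δ] [IsTopologicalGroup Δ]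
  [CompactSpace Δ] [TotallyDisconnectedSpace Δ]

/-- TASK C9 (first statement). Finite modules.

PROOF. `A` is finite and discrete, so there is an open normal subgroup `V` acting trivially
(`Disc.exists_normal`). Let `x` be a cocycle in degree `2`. Let `S` be as in `exists_sylow` (C7) for
`V`. The group `S` is compact; `θ.comp S.subtype` is continuous and injective; by `van_order_l` (C7)
for `S` and `devissage` (C8) for `S` and `V.subgroupOf S`: `VanAt S A 1`. So the restriction of `x` to
`S` is in `Cobd S A 2`, and `cobd_of_coprime` (A20) applies (`l ^ m • a = 0`). -/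
theorem van_finite {l : ℕ} (hl : l.Prime) (hN : NormCond l F Ω) {ζ₀ : F}
    (hζ : IsPrimitiveRoot ζ₀ l) {θ : Δ →* (Ω ≃ₐ[F] Ω)} (hθ : Continuous θ)
    (hi : Function.Injective θ) (A : Type v) [AddCommGroup A] [DistribMulAction Δ A]
    (hD : Disc Δ A) {m : ℕ} (hA : Nat.card A = l ^ m) : VanAt Δ A 1 := by
  haveI : Finite A := Nat.finite_of_card_ne_zero (by
    rw [hA]
    exact pow_ne_zero _ hl.ne_zero)
  obtain ⟨V, hVn, hVo, -, hVA⟩ := hD.exists_normal (S := (Set.univ : Set A)) Set.finite_univ
    (W := ⊤) isOpen_univ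
  intro x hx hdx
  obtain ⟨S, hVS, hSo, hSl, k, hk⟩ := exists_sylow (Γ := Δ) hl hVo
  have hSc : IsClosed (S : Set Δ) := Subgroup.isClosed_of_isOpen S hSo
  haveI : CompactSpace S := isCompact_iff_compactSpace.1 hSc.isCompact
  have h1 : VanAt S A 1 := by
    refine devissage (Γ := S) (l := l) hl ?_ (V := V.subgroupOf S) ?_ hk m A hA ?_
    · intro B _ _ hB htriv
      exact van_order_l hl hN hζ (θ := θ.comp S.subtype) (hθ.comp continuous_subtype_val)
        (hi.comp Subtype.val_injective) B hB htriv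
    · exact hVo.preimage continuous_subtype_val
    · intro v hv a
      exact hVA a (Set.mem_univ a) v hv
  have hxS : (fun y : Fin 3 → S => x fun i => (y i : Δ)) ∈ Coch A (⊤ : Subgroup S) ⊥ 2 := by
    have h2 := coch_restrict (S := S) (N := ⊥) (coch_mono (le_top : S ≤ ⊤) le_rfl 2 hx)
    exact coch_mono le_rfl bot_le 2 h2
  have hdS : d (fun y : Fin 3 → S => x fun i => (y i : Δ)) = 0 := by
    rw [d_comp (fun y : S => (y : Δ)) x, hdx]
    rfl
  obtain ⟨b, hb, hb'⟩ := h1 _ hxS hdS
  have h3 : x ∈ Cobd Δ A 2 := by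
    refine cobd_of_coprime hSo hSl (fun a => ⟨m, ?_⟩) ⟨hx, hdx⟩ ⟨b, hb, hb'⟩
    rw [← hA]
    exact card_nsmul_eq_zero'
  obtain ⟨c, hc, hc'⟩ := h3
  exact ⟨c, hc, hc'⟩

/-- TASK C9 (second statement). All `l`-primary modules.

PROOF. Let `x` be a cocycle with values in `A`. Its finitely many values (`Smooth.finite_range`) have
finite orbits (`A` is discrete, open subgroups have finite index), so the subgroup `A₀` generated by
the orbits of the values is finitely generated, killed by a power of `l`, hence finite, of order a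
power of `l`, and stable under `Δ`. Let `Δ` act on `A₀` by restriction. `x = i ∘ x₀` with a cocycle
`x₀` (`coch_of_values`), `x₀ = d b₀` by `van_finite`, so `x = d (i ∘ b₀)`. -/
theorem van_primary {l : ℕ} (hl : l.Prime) (hN : NormCond l F Ω) {ζ₀ : F}
    (hζ : IsPrimitiveRoot ζ₀ l) {θ : Δ →* (Ω ≃ₐ[F] Ω)} (hθ : Continuous θ)
    (hi : Function.Injective θ) (A : Type v) [AddCommGroup A] [DistribMulAction Δ A]
    (hD : Disc Δ A) (hA : ∀ a : A, ∃ k : ℕ, l ^ k • a = 0) : VanAt Δ A 1 := by
  intro x hx hdx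
  have hfin : (Set.range x).Finite := hx.2.2.finite_range
  -- the orbits
  have horb : ∀ a : A, (Set.range fun g : Δ => g • a).Finite := by
    intro a
    obtain ⟨U, hU, hU'⟩ := hD a
    haveI := finite_quotient hU
    have h2 : (Set.range fun g : Δ => g • a) ⊆ Set.range fun q : Δ ⧸ U => q.out • a := by
      rintro _ ⟨g, rfl⟩
      refine ⟨(g : Δ ⧸ U), ?_⟩
      obtain ⟨u, hu⟩ := QuotientGroup.mk_out_eq_mul U g
      change ((g : Δ ⧸ U)).out • a = g • a
      rw [hu, mul_smul, hU' _ u.2]
    exact (Set.finite_range _).subset h2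
  let T : Set A := ⋃ a ∈ Set.range x, Set.range fun g : Δ => g • a
  have hT : T.Finite := hfin.biUnion fun a _ => horb a
  have hTs : ∀ (g : Δ), ∀ t ∈ T, g • t ∈ T := by
    intro g t ht
    obtain ⟨a, ha, h, rfl⟩ := Set.mem_iUnion₂.1 ht
    exact Set.mem_iUnion₂.2 ⟨a, ha, g * h, mul_smul g h a⟩
  let A₀ : AddSubgroup A := AddSubgroup.closure T
  have hst : ∀ (g : Δ), ∀ a ∈ A₀, g • a ∈ A₀ := by
    intro g a ha
    have h1 : A₀ ≤ A₀.comap (DistribSMul.toAddMonoidHom A g) := by
      refine (AddSubgroup.closure_le _).2 fun t ht => ?_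
      exact AddSubgroup.subset_closure (hTs g t ht)
    exact h1 ha
  haveI hfg : AddGroup.FG A₀ := (AddGroup.fg_iff_addSubgroup_fg A₀).2 ⟨hT.toFinset, by
    rw [Set.Finite.coe_toFinset]⟩
  have htor : ∀ a : A₀, ∃ k : ℕ, l ^ k • a = 0 := by
    intro a
    obtain ⟨k, hk⟩ := hA a
    exact ⟨k, Subtype.ext hk⟩
  haveI hfA : Finite A₀ := by
    refine AddCommGroup.finite_of_fg_isAddTorsion (G := A₀) ?_
    intro a
    obtain ⟨k, hk⟩ := htor a
    exact isOfFinAddOrder_iff_nsmul_eq_zero.2 ⟨l ^ k, pow_pos hl.pos k, hk⟩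
  obtain ⟨m, hm⟩ : ∃ m : ℕ, Nat.card A₀ = l ^ m := by
    haveI : Fact l.Prime := ⟨hl⟩
    have h1 : IsPGroup l (Multiplicative A₀) := by
      intro a
      obtain ⟨k, hk⟩ := htor a.toAdd
      refine ⟨k, ?_⟩
      apply Multiplicative.toAdd.injective
      rw [toAdd_pow, hk]
      rfl
    obtain ⟨m, hm⟩ := IsPGroup.iff_card.1 h1
    exact ⟨m, hm⟩
  letI act : DistribMulAction Δ A₀ :=
    { smul := fun g a => ⟨g • (a : A), hst g a a.2⟩
      one_smul := fun a => Subtype.ext (one_smul Δ (a : A))
      mul_smul := fun g h a => Subtype.ext (mul_smul g h (a : A))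
      smul_zero := fun g => Subtype.ext (smul_zero g)
      smul_add := fun g a b => Subtype.ext (smul_add g (a : A) (b : A)) }
  have hcoe : ∀ (g : Δ) (a : A₀), A₀.subtype (g • a) = g • A₀.subtype a := fun g a => rfl
  have hD₀ : Disc Δ A₀ := by
    intro a
    obtain ⟨U, hU, hU'⟩ := hD (a : A)
    exact ⟨U, hU, fun g hg => Subtype.ext (hU' g hg)⟩
  obtain ⟨x₀, hx₀, hx₀'⟩ := coch_of_values A₀.subtype hcoe A₀.subtype_injective hx (fun y =>
    ⟨⟨x y, AddSubgroup.subset_closure (Set.mem_iUnion₂.2 ⟨x y, ⟨y, rfl⟩, 1, one_smul Δ (x y)⟩)⟩, rfl⟩)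
  have hx₀'' : (fun y => A₀.subtype (x₀ y)) = x := funext hx₀'
  have hdx₀ : d x₀ = 0 := by
    funext y
    apply A₀.subtype_injective
    have h1 := congrFun (d_map A₀.subtype x₀) y
    rw [hx₀'', hdx] at h1
    rw [← h1]
    rfl
  obtain ⟨b₀, hb₀, hdb₀⟩ := van_finite hl hN hζ hθ hi A₀ hD₀ hm x₀ hx₀ hdx₀
  refine ⟨fun y => A₀.subtype (b₀ y), coch_map A₀.subtype hcoe hb₀, ?_⟩
  rw [d_map, hdb₀]
  exact hx₀''

end GC
end

section

/-!
# Vanishing of the cohomology in all degrees at least two
-/

namespace GC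

universe u v w

variable {F Ω : Type u} [Field F] [Field Ω] [Algebra F Ω] [IsAlgClosed Ω]
  [Algebra.IsAlgebraic F Ω] {Δ : Type u} [Group Δ] [TopologicalSpace Δ] [IsTopologicalGroup Δ]
  [CompactSpace Δ] [TotallyDisconnectedSpace Δ]

omit [IsTopologicalGroup Δ] [CompactSpace Δ] [TotallyDisconnectedSpace Δ] in
/-- A finite set of elements killed by powers of `l` is killed by one power of `l`. -/
theorem c10_finite {A : Type v} [AddCommGroup A] {l : ℕ} {S : Set A} (hS : S.Finite)
    (h : ∀ a : A, ∃ k : ℕ, l ^ k • a = 0) : ∃ K : ℕ, ∀ a ∈ S, l ^ K • a = 0 := by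
  induction S, hS using Set.Finite.induction_on with
  | empty => exact ⟨0, fun a ha => absurd ha (Set.notMem_empty a)⟩
  | insert _ _ ih =>
    obtain ⟨K, hK⟩ := ih
    rename_i b s _ _
    obtain ⟨k, hk⟩ := h b
    refine ⟨k + K, fun a ha => ?_⟩
    rcases ha with rfl | ha
    · rw [pow_add, mul_comm, mul_smul, hk, smul_zero]
    · rw [pow_add, mul_smul, hK a ha, smul_zero]

omit [TotallyDisconnectedSpace Δ] in
/-- The module of pairs is `l`-primary. -/
theorem c10_primary {A : Type v} [AddCommGroup A] {l : ℕ}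
    (h : ∀ a : A, ∃ k : ℕ, l ^ k • a = 0) (q : QM Δ A) : ∃ k : ℕ, l ^ k • q = 0 := by
  have hs : Smooth (G := Δ) (n := 2) (fun x : Fin 2 → Δ => q (x 0) (x 1)) := by
    obtain ⟨U, hU, hU'⟩ := q.smooth
    exact ⟨U, hU, fun x u hu => hU' (x 0) (x 1) (u 0) (hu 0) (u 1) (hu 1)⟩
  obtain ⟨K, hK⟩ := c10_finite hs.finite_range h
  refine ⟨K, QM.ext' fun x y => ?_⟩
  exact hK (q x y) ⟨![x, y], rfl⟩

/-- Vanishing in degree `j + 2`. -/
theorem c10_vanAt {l : ℕ} (hl : l.Prime) (hN : NormCond l F Ω) {ζ₀ : F}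
    (hζ : IsPrimitiveRoot ζ₀ l) {θ : Δ →* (Ω ≃ₐ[F] Ω)} (hθ : Continuous θ)
    (hi : Function.Injective θ) (j : ℕ) : ∀ (A : Type (max u v)) [AddCommGroup A]
    [DistribMulAction Δ A], Disc Δ A → (∀ a : A, ∃ k : ℕ, l ^ k • a = 0) →
      VanAt Δ A (j + 1) := by
  induction j with
  | zero =>
    intro A _ _ hD hA
    exact van_primary hl hN hζ hθ hi A hD hA
  | succ j ih =>
    intro A _ _ hD hA a ha hda
    have hQ : VanAt Δ (QM Δ A) (j + 1) := ih (QM Δ A) (disc_q hD) (c10_primary hA)
    have hS := ses_ind Δ A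
    have h1 : (fun x => constI Δ A (a x)) ∈ Coch (IndM Δ A) (⊤ : Subgroup Δ) ⊥ (j + 1 + 1 + 1) :=
      coch_map (constI Δ A) hS.i_smul ha
    have h2 : d (fun x => constI Δ A (a x)) = 0 := by
      rw [d_map, hda]
      funext x
      simp
    obtain ⟨b, hb, hdb⟩ := ind_acyclic h1 h2
    have h3 : (fun x => toQ Δ A (b x)) ∈ Coch (QM Δ A) (⊤ : Subgroup Δ) ⊥ (j + 1 + 1) :=
      coch_map (toQ Δ A) hS.π_smul hb
    have h4 : d (fun x => toQ Δ A (b x)) = 0 := by
      rw [d_map, hdb]
      funext x
      exact (hS.exact _).2 ⟨a x, rfl⟩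
    obtain ⟨γ, hγ, hdγ⟩ := hQ _ h3 h4
    obtain ⟨β, hβ, hβγ⟩ := hS.lift (disc_ind hD) hγ
    have h5 : b - d β ∈ Coch (IndM Δ A) (⊤ : Subgroup Δ) ⊥ (j + 1 + 1) := sub_mem hb (d_mem hβ)
    have h6 : ∀ x, toQ Δ A ((b - d β) x) = 0 := by
      intro x
      have e1 : (fun x => toQ Δ A (β x)) = γ := funext hβγ
      have e2 : d γ x = toQ Δ A (d β x) := by rw [← e1, d_map]
      have e3 := congrFun hdγ x
      rw [Pi.sub_apply, map_sub, ← e2, e3, sub_self]
    obtain ⟨a', ha', hia'⟩ := hS.pull h5 h6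
    refine ⟨a', ha', ?_⟩
    funext x
    apply hS.inj
    have e1 : (fun x => constI Δ A (a' x)) = b - d β := funext hia'
    have e2 : d (fun x => constI Δ A (a' x)) x = constI Δ A (d a' x) := by rw [d_map]
    rw [← e2, e1, d_sub, hdb, d_d, sub_zero]

/-- TASK C10 (first statement). All degrees at least two.

PROOF. Show `VanAt Δ A (j + 1)` by induction on `j` for all `A : Type (max u v)`. `j = 0`:
`van_primary`. `j + 1`: the module `QM Δ A : Type (max u v)` is discrete (`disc_q`) and `l`-primary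
(each `q : QM Δ A` has finitely many values: it is smooth; so `l ^ k • q = 0` for some `k`), so
`VanAt Δ (QM Δ A) (j + 1)` by induction. Let `a` be a cocycle of degree `j + 3` with values in `A`:
`constI ∘ a = d b` (`ind_acyclic`, `N = ⊥`), `toQ ∘ b` is a cocycle of degree `j + 2`, so
`toQ ∘ b = d γ`; lift `γ` to `β` (`SES.lift (ses_ind Δ A)`), `b - d β = constI ∘ a'` (`SES.pull`),
`a = d a'`. -/
theorem van_all_aux {l : ℕ} (hl : l.Prime) (hN : NormCond l F Ω) {ζ₀ : F}
    (hζ : IsPrimitiveRoot ζ₀ l) {θ : Δ →* (Ω ≃ₐ[F] Ω)} (hθ : Continuous θ)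
    (hi : Function.Injective θ) (A : Type (max u v)) [AddCommGroup A] [DistribMulAction Δ A]
    (hD : Disc Δ A) (hA : ∀ a : A, ∃ k : ℕ, l ^ k • a = 0) : Van Δ A 1 := by
  intro j hj
  obtain ⟨i, rfl⟩ := Nat.exists_eq_add_of_le' hj
  exact c10_vanAt hl hN hζ hθ hi i A hD hA

/-- TASK C10 (second statement). The same for modules in any universe.

PROOF. Apply `van_all_aux` to `ULift.{u} A` and transport by `van_congr` (A8). -/
theorem van_all {l : ℕ} (hl : l.Prime) (hN : NormCond l F Ω) {ζ₀ : F}
    (hζ : IsPrimitiveRoot ζ₀ l) {θ : Δ →* (Ω ≃ₐ[F] Ω)} (hθ : Continuous θ)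
    (hi : Function.Injective θ) (A : Type v) [AddCommGroup A] [DistribMulAction Δ A]
    (hD : Disc Δ A) (hA : ∀ a : A, ∃ k : ℕ, l ^ k • a = 0) : Van Δ A 1 := by
  refine van_congr (A := ULift.{u} A) AddEquiv.ulift (fun g a => rfl) ?_
  refine van_all_aux hl hN hζ hθ hi (ULift.{u} A) ?_ ?_
  · rintro ⟨a⟩
    obtain ⟨U, hU, h⟩ := hD a
    exact ⟨U, hU, fun g hg => congrArg ULift.up (h g hg)⟩
  · rintro ⟨a⟩
    obtain ⟨k, hk⟩ := hA a
    exact ⟨k, congrArg ULift.up hk⟩

end GC
end
end

section

/-!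
# Traces of classes for a Galois extension
-/

namespace UnrG

universe u v w

open Polynomial
open scoped Classical

variable {m : ℕ}

section baseChange

variable {K L : Type u} [Field K] [Field L] (j : K →+* L)

/-- The base change of rational function fields. -/
noncomputable def ratBase : RatFunc K →+* RatFunc L :=
  IsFractionRing.lift (A := K[X]) (g := (algebraMap L[X] (RatFunc L)).comp (mapRingHom j))
    ((IsFractionRing.injective L[X] (RatFunc L)).comp (Polynomial.map_injective j j.injective))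

lemma ratBase_algebraMap (f : K[X]) :
    ratBase j (algebraMap K[X] (RatFunc K) f) = algebraMap L[X] (RatFunc L) (f.map j) := by
  unfold ratBase
  rw [IsFractionRing.lift_algebraMap]
  rfl

lemma ratBase_const (a : K) :
    ratBase j (algebraMap K (RatFunc K) a) = algebraMap L (RatFunc L) (j a) := by
  rw [algebraMap_ratFunc_eq, ratBase_algebraMap, map_C, algebraMap_ratFunc_eq]

lemma ratBase_X : ratBase j RatFunc.X = RatFunc.X := by
  rw [← RatFunc.algebraMap_X, ratBase_algebraMap, map_X, RatFunc.algebraMap_X]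

lemma placeVal_rep (p : K[X]) [hp : Fact (Irreducible p)] {a : RatFunc K} (ha : a ≠ 0) :
    ∃ (u w : K[X]), ¬ p ∣ u ∧ ¬ p ∣ w ∧
      a = (algebraMap K[X] (RatFunc K) p) ^ ((placeVal p).v a) *
        (algebraMap K[X] (RatFunc K) u / algebraMap K[X] (RatFunc K) w) ∧
      (placeVal p).ρ a = AdjoinRoot.mk p u / AdjoinRoot.mk p w := by
  obtain ⟨u, w, hu, hw, h1, h2⟩ : Rep (AdjoinRoot.mk p) p a ((placeVal p).v a)
    ((placeVal p).ρ a) := DVal.ofPrime_rep (K := RatFunc K) (AdjoinRoot.mk p) p _ _ _ ha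
  exact ⟨u, w, by rwa [Ne, AdjoinRoot.mk_eq_zero] at hu, by rwa [Ne, AdjoinRoot.mk_eq_zero] at hw,
    h1, h2⟩

lemma mk_X_sub_C (β : L) (f : L[X]) :
    AdjoinRoot.mk (X - C β) f = AdjoinRoot.of (X - C β) (f.eval β) := by
  have h1 : AdjoinRoot.mk (X - C β) (f - C (f.eval β)) = 0 := by
    rw [AdjoinRoot.mk_eq_zero, dvd_iff_isRoot]
    simp
  rw [map_sub, AdjoinRoot.mk_C, sub_eq_zero] at h1
  exact h1

lemma irreducible_X_sub_C' (β : L) : Fact (Irreducible (X - C β)) := ⟨irreducible_X_sub_C β⟩

/-- Compatibility of the place given by a root with the place below. -/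
lemma ratBase_place (p : K[X]) [hp : Fact (Irreducible p)] (hsep : p.Separable) {β : L}
    (hβ : p.eval₂ j β = 0) [Fact (Irreducible (X - C β))] :
    ∃ c : AdjoinRoot (X - C β), c ≠ 0 ∧ ∀ a : RatFunc K, a ≠ 0 →
      (placeVal (X - C β)).v (ratBase j a) = (placeVal p).v a ∧
      (placeVal (X - C β)).ρ (ratBase j a) =
        (AdjoinRoot.of (X - C β)) (AdjoinRoot.lift j β hβ ((placeVal p).ρ a)) *
          c ^ ((placeVal p).v a) := by
  obtain ⟨r, hr⟩ : (X - C β) ∣ p.map j := by
    rw [dvd_iff_isRoot, IsRoot.def, eval_map]; exact hβ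
  have hr0 : ¬ (X - C β) ∣ r := by
    rintro ⟨s, rfl⟩
    have hsq : Squarefree (p.map j) := (hsep.map).squarefree
    have h1 := hsq (X - C β) ⟨s, by rw [hr]; ring⟩
    exact not_isUnit_X_sub_C β h1
  have hX0 : (X - C β : L[X]) ≠ 0 := X_sub_C_ne_zero β
  have hr00 : r ≠ 0 := by rintro rfl; exact hr0 (dvd_zero _)
  have eX : algebraMap L[X] (RatFunc L) (X - C β) ≠ 0 := by
    rw [Ne, FaithfulSMul.algebraMap_eq_zero_iff]; exact hX0
  have er : algebraMap L[X] (RatFunc L) r ≠ 0 := by simpa using hr00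
  have hun := placeVal_unit (X - C β) hr0
  have hp1 : (placeVal (X - C β)).v (ratBase j (algebraMap K[X] (RatFunc K) p)) = 1 ∧
      (placeVal (X - C β)).ρ (ratBase j (algebraMap K[X] (RatFunc K) p)) =
        AdjoinRoot.mk (X - C β) r := by
    rw [ratBase_algebraMap, hr, map_mul]
    refine ⟨?_, ?_⟩
    · rw [DVal.v_mul _ _ _ eX er, placeVal_v_self, hun.1]; simp
    · rw [map_mul, placeVal_ρ_self, hun.2, one_mul]
  have hunit : ∀ u : K[X], ¬ p ∣ u →
      (placeVal (X - C β)).v (ratBase j (algebraMap K[X] (RatFunc K) u)) = 0 ∧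
      (placeVal (X - C β)).ρ (ratBase j (algebraMap K[X] (RatFunc K) u)) =
        AdjoinRoot.of (X - C β) (AdjoinRoot.lift j β hβ (AdjoinRoot.mk p u)) := by
    intro u hu
    have h1 : ¬ (X - C β) ∣ u.map j := by
      intro h
      rw [dvd_iff_isRoot, IsRoot.def, eval_map] at h
      have hcop : IsCoprime u p := (hp.out.coprime_iff_not_dvd.mpr hu).symm
      obtain ⟨a, b, hab⟩ := hcop
      have h2 := congrArg (fun f => eval₂ j β f) hab
      simp only [eval₂_add, eval₂_mul, h, hβ, mul_zero, add_zero, eval₂_one] at h2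
      exact zero_ne_one h2
    rw [ratBase_algebraMap]
    refine ⟨(placeVal_unit _ h1).1, ?_⟩
    rw [(placeVal_unit _ h1).2, mk_X_sub_C, eval_map, AdjoinRoot.lift_mk]
  refine ⟨AdjoinRoot.mk (X - C β) r, by rwa [Ne, AdjoinRoot.mk_eq_zero], ?_⟩
  intro a ha
  obtain ⟨u, w, hu, hw, h1, h2⟩ := placeVal_rep p ha
  have hu0 : u ≠ 0 := by rintro rfl; exact hu (dvd_zero _)
  have hw0 : w ≠ 0 := by rintro rfl; exact hw (dvd_zero _)
  have eu : algebraMap K[X] (RatFunc K) u ≠ 0 := by simpa using hu0
  have ew : algebraMap K[X] (RatFunc K) w ≠ 0 := by simpa using hw0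
  have ep : algebraMap K[X] (RatFunc K) p ≠ 0 := by simpa using hp.out.ne_zero
  have bu := (_root_.map_ne_zero (ratBase j)).mpr eu
  have bw := (_root_.map_ne_zero (ratBase j)).mpr ew
  have bp := (_root_.map_ne_zero (ratBase j)).mpr ep
  obtain ⟨n, hn⟩ : ∃ n, n = (placeVal p).v a := ⟨_, rfl⟩
  rw [← hn] at h1 ⊢
  rw [h2, h1, map_mul, map_zpow₀, map_div₀]
  refine ⟨?_, ?_⟩
  · rw [DVal.v_mul _ _ _ (zpow_ne_zero _ bp) (div_ne_zero bu bw), DVal.v_zpow _ bp,
      DVal.v_div _ bu bw, hp1.1, (hunit u hu).1, (hunit w hw).1]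
    simp
  · rw [map_mul, map_zpow₀, map_div₀, hp1.2, (hunit u hu).2, (hunit w hw).2, map_div₀, map_div₀,
      mul_comm]

/-- Residues over `L(t)` at a root of `p`. -/
lemma res_ratBase_root (hm : Any m) (p : K[X]) [hp : Fact (Irreducible p)] (hsep : p.Separable)
    {β : L} (hβ : p.eval₂ j β = 0) [Fact (Irreducible (X - C β))] (z : KM m (RatFunc K)) :
    (placeVal (X - C β)).res hm (KM.map m (ratBase j) z) =
      KM.map m (AdjoinRoot.of (X - C β))
        (KM.map m (AdjoinRoot.lift j β hβ) ((placeVal p).res hm z)) := by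
  obtain ⟨c, hc, h⟩ := ratBase_place j p hsep hβ
  have h1 := DVal.res_map hm (placeVal p) (placeVal (X - C β)) (ratBase j)
    ((AdjoinRoot.of (X - C β)).comp (AdjoinRoot.lift j β hβ)) 1 c hc
    (fun a ha => by rw [(h a ha).1, one_mul]) (fun a ha => (h a ha).2) z
  rw [h1, KM.map_map]
  simp

/-- Residues over `L(t)` at a place over a place where the residue vanishes. -/
lemma res_ratBase_zero (hm : Any m) (q : K[X]) [hq : Fact (Irreducible q)] (Q : L[X])
    [hQ : Fact (Irreducible Q)] (hQq : Q ∣ q.map j) {z : KM m (RatFunc K)}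
    (hz : (placeVal q).res hm z = 0) :
    (placeVal Q).res hm (KM.map m (ratBase j) z) = 0 := by
  have eq0 : algebraMap K[X] (RatFunc K) q ≠ 0 := by simpa using hq.out.ne_zero
  have hU : z ∈ (placeVal q).U m := by
    refine DVal.mem_U_of_res_eq_zero hm _ eq0 (placeVal_v_self q) (placeVal_ρ_self q) ?_ hz
    intro g hg
    obtain ⟨f, rfl⟩ := AdjoinRoot.mk_surjective g
    have hf : ¬ q ∣ f := by rwa [Ne, AdjoinRoot.mk_eq_zero] at hg
    have hf0 : f ≠ 0 := by rintro rfl; exact hf (dvd_zero _)
    exact ⟨algebraMap K[X] (RatFunc K) f, by simpa using hf0, (placeVal_unit q hf).1,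
      (placeVal_unit q hf).2⟩
  apply DVal.res_eq_zero_of_mem_U hm
  unfold DVal.U at hU ⊢
  clear hz
  induction hU using Algebra.adjoin_induction with
  | mem x hx =>
    obtain ⟨a, ⟨ha0, ha⟩, rfl⟩ := hx
    rw [KM.map_sym]
    refine Algebra.subset_adjoin ⟨_, ⟨(_root_.map_ne_zero (ratBase j)).mpr ha0, ?_⟩, rfl⟩
    obtain ⟨u, w, hu, hw, h1, -⟩ := placeVal_rep q ha0
    rw [ha, zpow_zero, one_mul] at h1
    have hunit : ∀ u : K[X], ¬ q ∣ u → u ≠ 0 ∧ ¬ Q ∣ u.map j := by
      intro u hu
      refine ⟨by rintro rfl; exact hu (dvd_zero _), fun h => ?_⟩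
      have hcop : IsCoprime u q := (hq.out.coprime_iff_not_dvd.mpr hu).symm
      obtain ⟨a, b, hab⟩ := hcop
      have h2 : (a.map j) * (u.map j) + (b.map j) * (q.map j) = 1 := by
        rw [← Polynomial.map_mul, ← Polynomial.map_mul, ← Polynomial.map_add, hab,
          Polynomial.map_one]
      have h3 : Q ∣ 1 := by
        rw [← h2]
        exact dvd_add (h.mul_left _) (hQq.mul_left _)
      exact hQ.out.not_isUnit (isUnit_of_dvd_one h3)
    have nu := hunit u hu
    have nw := hunit w hw
    have mu : algebraMap L[X] (RatFunc L) (u.map j) ≠ 0 := by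
      rw [Ne, FaithfulSMul.algebraMap_eq_zero_iff, Polynomial.map_eq_zero]; exact nu.1
    have mw : algebraMap L[X] (RatFunc L) (w.map j) ≠ 0 := by
      rw [Ne, FaithfulSMul.algebraMap_eq_zero_iff, Polynomial.map_eq_zero]; exact nw.1
    rw [h1, map_div₀, ratBase_algebraMap, ratBase_algebraMap, DVal.v_div _ mu mw,
      (placeVal_unit Q nu.2).1, (placeVal_unit Q nw.2).1, sub_zero]
  | algebraMap r => rw [AlgHom.commutes]; exact Subalgebra.algebraMap_mem _ _
  | add x y _ _ hx hy => rw [map_add]; exact add_mem hx hy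
  | mul x y _ _ hx hy => rw [map_mul]; exact mul_mem hx hy

lemma ratBase_zero {a : RatFunc K} (ha : a ≠ 0) :
    (valZero L).v (ratBase j a) = (valZero K).v a ∧
    (valZero L).ρ (ratBase j a) = j ((valZero K).ρ a) := by
  obtain ⟨u, w, hu, hw, h1, h2⟩ : Rep (evalRingHom (0 : K)) X a ((valZero K).v a)
    ((valZero K).ρ a) := DVal.ofPrime_rep (K := RatFunc K) (evalRingHom (0 : K)) X _ _ _ ha
  have hu' : u.eval 0 ≠ 0 := hu
  have hw' : w.eval 0 ≠ 0 := hw
  have he : ∀ f : K[X], (f.map j).eval 0 = j (f.eval 0) := by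
    intro f
    rw [eval_map, ← map_zero j, eval₂_at_apply]
  have h3 := valZero_eq (x := ratBase j a) ((valZero K).v a) (u.map j) (w.map j)
    (by rw [he]; simpa using hu') (by rw [he]; simpa using hw') (by
      conv_lhs => rw [h1]
      rw [map_mul, map_zpow₀, map_div₀, ratBase_algebraMap, ratBase_algebraMap,
        ratBase_algebraMap, map_X])
  refine ⟨h3.1, ?_⟩
  rw [h3.2, h2, he, he, map_div₀]
  rfl

lemma ratBase_ratInv : (ratBase j).comp (ratInv K) = (ratInv L).comp (ratBase j) := by
  apply IsLocalization.ringHom_ext (nonZeroDivisors K[X])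
  apply Polynomial.ringHom_ext
  · intro a
    simp only [RingHom.comp_apply]
    rw [ratInv_algebraMap, aeval_C, ratBase_const, ratBase_algebraMap, map_C, ratInv_algebraMap,
      aeval_C]
  · simp only [RingHom.comp_apply]
    rw [ratInv_algebraMap, aeval_X, map_inv₀, ratBase_X, ratBase_algebraMap, map_X,
      ratInv_algebraMap, aeval_X]

lemma ratBase_infty {a : RatFunc K} (ha : a ≠ 0) :
    (valInfty L).v (ratBase j a) = (valInfty K).v a ∧
    (valInfty L).ρ (ratBase j a) = j ((valInfty K).ρ a) := by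
  have h1 : ratInv L (ratBase j a) = ratBase j (ratInv K a) :=
    (congrArg (fun f : RatFunc K →+* RatFunc L => f a) (ratBase_ratInv j)).symm
  change (valZero L).v (ratInv L (ratBase j a)) = (valZero K).v (ratInv K a) ∧
    (valZero L).ρ (ratInv L (ratBase j a)) = j ((valZero K).ρ (ratInv K a))
  rw [h1]
  exact ratBase_zero j ((_root_.map_ne_zero (ratInv K)).mpr ha)

lemma res_ratBase_infty (hm : Any m) (z : KM m (RatFunc K)) :
    (valInfty L).res hm (KM.map m (ratBase j) z) = KM.map m j ((valInfty K).res hm z) := by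
  have h1 := DVal.res_map hm (valInfty K) (valInfty L) (ratBase j) j 1 1 one_ne_zero
    (fun a ha => by rw [(ratBase_infty j ha).1, one_mul])
    (fun a ha => by rw [(ratBase_infty j ha).2, one_zpow, mul_one]) z
  rw [h1]
  simp

end baseChange

section trace

variable {K L : Type u} [Field K] [Field L] [Algebra K L] [FiniteDimensional K L] [IsGalois K L]

/-- For a Galois extension the sum of the conjugates of a class comes from the base field. -/
theorem exists_trace (hm : Any m) (x : KM m L) :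
    ∃ y : KM m K, KM.map m (algebraMap K L) y =
      ∑ σ : L ≃ₐ[K] L, KM.map m (σ : L →+* L) x := by
  obtain ⟨α, hα⟩ := Field.exists_primitive_element K L
  have hint : IsIntegral K α := IsIntegral.of_finite K α
  obtain ⟨p, hp⟩ : ∃ p, p = minpoly K α := ⟨_, rfl⟩
  have hirr : Fact (Irreducible p) := ⟨hp ▸ minpoly.irreducible hint⟩
  have hpm : p.Monic := hp ▸ minpoly.monic hint
  have hsep : p.Separable := hp ▸ Algebra.IsSeparable.isSeparable K α
  have hroot : ∀ σ : L ≃ₐ[K] L, p.eval₂ (algebraMap K L) (σ α) = 0 := by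
    intro σ
    have h1 : aeval (σ α) p = 0 := by
      rw [aeval_algEquiv, AlgHom.comp_apply, hp, minpoly.aeval, map_zero]
    exact h1
  -- the isomorphism with the abstract extension
  obtain ⟨e, he⟩ : ∃ e : L →+* AdjoinRoot p, ∀ σ : L ≃ₐ[K] L,
      (AdjoinRoot.lift (algebraMap K L) (σ α) (hroot σ)).comp e = (σ : L →+* L) := by
    obtain ⟨ψ, hψmk⟩ : ∃ ψ : AdjoinRoot p →+* L, ∀ f : K[X], ψ (AdjoinRoot.mk p f) = aeval α f :=
      ⟨AdjoinRoot.lift (algebraMap K L) α (hroot AlgEquiv.refl),
        fun f => AdjoinRoot.lift_mk (hroot AlgEquiv.refl) f⟩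
    have hψo : ∀ a : K, ψ (AdjoinRoot.of p a) = algebraMap K L a := by
      intro a
      rw [← AdjoinRoot.mk_C, hψmk, aeval_C]
    have hψr : ψ (AdjoinRoot.root p) = α := by
      rw [← AdjoinRoot.mk_X, hψmk, aeval_X]
    have hψ : Function.Surjective ψ := by
      intro z
      have hz : z ∈ IntermediateField.adjoin K {α} := by rw [hα]; trivial
      rw [IntermediateField.mem_adjoin_simple_iff] at hz
      obtain ⟨f, g, hfg⟩ := hz
      refine ⟨AdjoinRoot.mk p f / AdjoinRoot.mk p g, ?_⟩
      rw [map_div₀, hfg, hψmk, hψmk]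
    obtain ⟨e, he1, he2⟩ := exists_inv_of_surjective hψ
    refine ⟨e, fun σ => ?_⟩
    have h1 : AdjoinRoot.lift (algebraMap K L) (σ α) (hroot σ) = (σ : L →+* L).comp ψ := by
      apply AdjoinRoot.ringHom_ext
      · ext a
        simp only [RingHom.comp_apply, AdjoinRoot.lift_of, hψo]
        exact (σ.commutes a).symm
      · simp only [RingHom.comp_apply, AdjoinRoot.lift_root, hψr]
        rfl
    rw [h1, RingHom.comp_assoc, he2, RingHom.comp_id]
  obtain ⟨z, hz1, hz2⟩ := exists_single_residue hm p hpm (KM.map m e x)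
  have hfact : ∀ β : L, Fact (Irreducible (X - C β)) := irreducible_X_sub_C'
  -- the difference
  set T : KM m (RatFunc L) := ∑ σ : L ≃ₐ[K] L,
    KM.map m (algebraMap L (RatFunc L)) (KM.map m (σ : L →+* L) x) *
      sym m (algebraMap L[X] (RatFunc L) (X - C (σ α))) with hT
  have eX : ∀ β : L, algebraMap L[X] (RatFunc L) (X - C β) ≠ 0 := by
    intro β
    rw [Ne, FaithfulSMul.algebraMap_eq_zero_iff]; exact X_sub_C_ne_zero β
  have hconst : ∀ (Q : L[X]) [Fact (Irreducible Q)] (c : KM m L),
      (placeVal Q).θ hm (KM.map m (algebraMap L (RatFunc L)) c) =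
        ⟨KM.map m (AdjoinRoot.of Q) c, 0⟩ := by
    intro Q hQ c
    have hnd : ∀ a : L, a ≠ 0 → ¬ Q ∣ C a := fun a ha h => by
      have h1 := isUnit_of_dvd_unit h (isUnit_C.mpr (isUnit_iff_ne_zero.mpr ha))
      exact hQ.out.not_isUnit h1
    apply DVal.θ_const
    · intro a ha
      rw [algebraMap_ratFunc_eq]
      exact (placeVal_unit Q (hnd a ha)).1
    · intro a ha
      rw [algebraMap_ratFunc_eq]
      exact (placeVal_unit Q (hnd a ha)).2
  have hterm : ∀ (Q : L[X]) [Fact (Irreducible Q)] (c : KM m L) (β : L),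
      (placeVal Q).res hm (KM.map m (algebraMap L (RatFunc L)) c *
        sym m (algebraMap L[X] (RatFunc L) (X - C β))) =
      (((placeVal Q).v (algebraMap L[X] (RatFunc L) (X - C β)) : ℤ) : ZMod m) •
        KM.map m (AdjoinRoot.of Q) c := by
    intro Q hQ c β
    have h1 := hconst Q c
    rw [DVal.res_mul_sym hm _ _ (eX β) (by rw [DVal.res, h1]), DVal.spec_apply, h1]
  obtain ⟨c, hc⟩ := milnor hm (KM.map m (ratBase (algebraMap K L)) z - T) (by
    intro Q hQm hQ
    rw [DVal.res_sub, hT, DVal.res_sum, sub_eq_zero]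
    by_cases hQp : Q ∣ p.map (algebraMap K L)
    · -- a root of `p`
      obtain ⟨β, rfl⟩ : ∃ β, Q = X - C β := by
        have hspl : (p.map (algebraMap K L)).Splits := hp ▸ Normal.splits inferInstance α
        have h1 : Q.degree = 1 :=
          (hspl.of_dvd ((Polynomial.map_ne_zero hirr.out.ne_zero)) hQp).degree_eq_one_of_irreducible
            hQ.out
        refine ⟨-Q.coeff 0, ?_⟩
        have h2 := eq_X_add_C_of_degree_eq_one h1
        rw [hQm.leadingCoeff, C_1, one_mul] at h2
        conv_lhs => rw [h2]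
        rw [C_neg, sub_neg_eq_add]
      have hβ : p.eval₂ (algebraMap K L) β = 0 := by
        rw [dvd_iff_isRoot, IsRoot.def, eval_map] at hQp
        exact hQp
      obtain ⟨σ₀, hσ₀⟩ : ∃ σ : L ≃ₐ[K] L, σ α = β := by
        have h1 : IsConjRoot K α β := by
          rw [isConjRoot_iff_aeval_eq_zero hint, ← hp]
          exact hβ
        exact (h1.symm).exists_algEquiv
      subst hσ₀
      rw [res_ratBase_root (algebraMap K L) hm p hsep hβ z, hz1, KM.map_map _ _ x, he σ₀]
      rw [Finset.sum_eq_single σ₀]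
      · rw [hterm, placeVal_v_self]
        simp
      · intro σ _ hσ
        have hne : σ α ≠ σ₀ α := by
          intro h
          apply hσ
          have h3 : (σ : L →ₐ[K] L) = (σ₀ : L →ₐ[K] L) := by
            have h4 : ∀ z ∈ IntermediateField.adjoin K {α}, σ z = σ₀ z := by
              intro z hz
              rw [IntermediateField.mem_adjoin_simple_iff] at hz
              obtain ⟨f, g, rfl⟩ := hz
              rw [map_div₀, map_div₀]
              have h5 : ∀ f : K[X], σ (aeval α f) = σ₀ (aeval α f) := by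
                intro f
                have h6 := aeval_algEquiv σ α (R := K)
                have h7 := aeval_algEquiv σ₀ α (R := K)
                have h8 := congrArg (fun F : K[X] →ₐ[K] L => F f) h6
                have h9 := congrArg (fun F : K[X] →ₐ[K] L => F f) h7
                simp only [AlgHom.comp_apply] at h8 h9
                have h10 : aeval (σ α) f = aeval (σ₀ α) f := by rw [h]
                rw [h8, h9] at h10
                exact h10
              rw [h5 f, h5 g]
            ext z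
            exact h4 z (by rw [hα]; trivial)
          ext z
          exact congrArg (fun F : L →ₐ[K] L => F z) h3
        rw [hterm, (placeVal_unit (X - C (σ₀ α)) ?_).1]
        · simp
        · intro hdvd
          rw [dvd_iff_isRoot, IsRoot.def, eval_sub, eval_X, eval_C, sub_eq_zero] at hdvd
          exact hne hdvd.symm
      · intro h
        exact absurd (Finset.mem_univ _) h
    · -- the other places
      have h0 : (placeVal Q).res hm (KM.map m (ratBase (algebraMap K L)) z) = 0 := by
        have : FiniteDimensional L (AdjoinRoot Q) :=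
          (AdjoinRoot.powerBasis hQ.out.ne_zero).finite
        have : FiniteDimensional K (AdjoinRoot Q) := FiniteDimensional.trans K L _
        have hr : IsIntegral K (AdjoinRoot.root Q) := IsIntegral.of_finite K _
        obtain ⟨q, hq⟩ : ∃ q, q = minpoly K (AdjoinRoot.root Q) := ⟨_, rfl⟩
        have hqi : Fact (Irreducible q) := ⟨hq ▸ minpoly.irreducible hr⟩
        have hqm : q.Monic := hq ▸ minpoly.monic hr
        have hQq : Q ∣ q.map (algebraMap K L) := by
          rw [← AdjoinRoot.mk_eq_zero]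
          have h1 : aeval (AdjoinRoot.root Q) q = 0 := by rw [hq]; exact minpoly.aeval _ _
          rw [aeval_def, IsScalarTower.algebraMap_eq K L (AdjoinRoot Q), ← eval₂_map] at h1
          rw [← AdjoinRoot.aeval_eq]
          exact h1
        exact res_ratBase_zero (algebraMap K L) hm q Q hQq
          (hz2 q hqm hqi (fun h => hQp (h ▸ hQq)))
      rw [h0, eq_comm]
      apply Finset.sum_eq_zero
      intro σ _
      rw [hterm, (placeVal_unit Q ?_).1]
      · simp
      · intro hdvd
        apply hQp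
        apply hdvd.trans
        rw [dvd_iff_isRoot, IsRoot.def, eval_map]
        exact hroot σ)
  -- the place at infinity
  have h1 := (valInfty L).θ_const hm (algebraMap L (RatFunc L)) (RingHom.id L)
    (fun a ha => (valInfty_const ha).1) (fun a ha => (valInfty_const ha).2)
  have h2 := congrArg ((valInfty L).res hm) hc
  have hTi : (valInfty L).res hm T = - ∑ σ : L ≃ₐ[K] L, KM.map m (σ : L →+* L) x := by
    rw [hT, DVal.res_sum, ← Finset.sum_neg_distrib]
    apply Finset.sum_congr rfl
    intro σ _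
    have h3 := h1 (KM.map m (σ : L →+* L) x)
    rw [DVal.res_mul_sym hm _ _ (eX _) (by rw [DVal.res, h3]), DVal.spec_apply, h3,
      (valInfty_monic (monic_X_sub_C (σ α))).1, natDegree_X_sub_C]
    simp
  rw [DVal.res_sub, res_ratBase_infty, hTi, DVal.res, h1, sub_neg_eq_add] at h2
  refine ⟨- (valInfty K).res hm z, ?_⟩
  rw [map_neg]
  have h3 : (0 : KM m L) = KM.map m (algebraMap K L) ((valInfty K).res hm z) +
    ∑ σ : L ≃ₐ[K] L, KM.map m (σ : L →+* L) x := h2
  rw [eq_comm, eq_neg_iff_add_eq_zero, add_comm]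
  exact h3.symm

end trace

end UnrG
end
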