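import Pool.Agent.Lib.MP_859dd5_ag.Mg.G033
import Pool.Agent.Lib.MP_859dd5_ag.Mg.G061
import Pool.Agent.Lib.MP_859dd5_ag.Mg.G036
import Pool.Agent.Lib.MP_859dd5_ag.Mg.G060
import Pool.Agent.Lib.MP_859dd5_ag.Mg.G035
import Pool.Agent.Lib.MP_859dd5_ag.Mg.G034

section

/-!
# Tame inertia
-/

namespace GC

universe u v w

variable {K : Type u} [Field K] {l : ℕ} [Fact l.Prime] {w : ℕ} {p : ℕ} [Fact p.Prime] [CharP K p]

omit [Fact l.Prime] [Fact p.Prime] [CharP K p] in
lemma f7_natCast_ne_zero (hl : (l : K) ≠ 0) : (l : AlgebraicClosure (RatFunc K)) ≠ 0 := by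
  have h1 : ((jj K).comp (algebraMap K (AlgebraicClosure K))) (l : K) =
      (l : AlgebraicClosure (RatFunc K)) := map_natCast _ l
  rw [← h1]
  exact fun h => hl ((RingHom.injective _) (h.trans (map_zero _).symm))

omit [Fact l.Prime] [Fact p.Prime] [CharP K p] in
lemma f7_natCast_ne_zero' (hl : (l : K) ≠ 0) : (l : AlgebraicClosure K) ≠ 0 := by
  have h1 : (algebraMap K (AlgebraicClosure K)) (l : K) = (l : AlgebraicClosure K) :=
    map_natCast _ l
  rw [← h1]
  exact fun h => hl ((RingHom.injective _) (h.trans (map_zero _).symm))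

omit [Fact p.Prime] [CharP K p] in
lemma f7_root_fixed (hl : (l : K) ≠ 0) {g : AbsGal (RatFunc K)} (hg : g ∈ NN K) {n : ℕ}
    {x : AlgebraicClosure (RatFunc K)} (hx : x ^ l ^ n = 1) : g x = x := by
  have h1 := ((isEps_eps (f7_natCast_ne_zero' hl)).1 n).map_of_injective (jj K).injective
  have : NeZero (l ^ n) := ⟨pow_ne_zero _ (Fact.out : l.Prime).ne_zero⟩
  obtain ⟨i, _, rfl⟩ := h1.eq_pow_of_pow_eq_one hx
  rw [map_pow, mem_NN_iff.mp hg]

omit [Fact p.Prime] [CharP K p] in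
lemma f7_exists_pow {G : Type v} [Group G] [TopologicalSpace G] [IsTopologicalGroup G]
    {N : Subgroup G} [CompactSpace N] (χ : HomM N (Tw l w)) : ∃ n : ℕ, ∀ g, l ^ n • χ g = 0 := by
  obtain ⟨U, hU, hχ⟩ := χ.smooth
  have hV : IsOpen ((U.subgroupOf N : Subgroup N) : Set N) := hU.preimage continuous_subtype_val
  have := finite_quotient hV
  have h : ∀ q : N ⧸ U.subgroupOf N, ∃ n : ℕ, l ^ n • χ q.out = 0 := fun q => exists_pow_smul _
  choose n hn using h
  have := Fintype.ofFinite (N ⧸ U.subgroupOf N)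
  refine ⟨∑ q, n q, fun g => ?_⟩
  have h1 : χ g = χ ((g : N ⧸ U.subgroupOf N)).out := by
    obtain ⟨u, hu⟩ := QuotientGroup.mk_out_eq_mul (U.subgroupOf N) g
    rw [hu, χ.map_mul, hχ _ u.2, add_zero]
  rw [h1]
  have h2 : n (g : N ⧸ U.subgroupOf N) ≤ ∑ q, n q :=
    Finset.single_le_sum (fun _ _ => Nat.zero_le _) (Finset.mem_univ _)
  obtain ⟨k, hk⟩ := Nat.exists_eq_add_of_le h2
  rw [hk, pow_add, mul_comm, mul_smul, hn, smul_zero]

lemma f7_addOrderOf (n : ℕ) : addOrderOf (qel l w n) = l ^ n :=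
  Nat.dvd_antisymm (addOrderOf_dvd_of_nsmul_eq_zero (pow_smul_qel n))
    (smul_qel_eq_zero_iff.mp (addOrderOf_nsmul_eq_zero _))

lemma f7_zsmul_eq_zero_iff {Ω : Type v} [Field Ω] {n : ℕ} {x : Ω}
    (hx : IsPrimitiveRoot x (l ^ n)) (a : ℤ) : a • qel l w n = 0 ↔ x ^ a = 1 := by
  rw [hx.zpow_eq_one_iff_dvd, ← addOrderOf_dvd_iff_zsmul_eq_zero, f7_addOrderOf]

lemma f7_kummer (hl : (l : K) ≠ 0) {Δ : Type u} [Group Δ] [TopologicalSpace Δ]
    [IsTopologicalGroup Δ] [CompactSpace Δ] [TotallyDisconnectedSpace Δ]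
    (θ : Δ →* AbsGal (RatFunc K)) (hθ : Continuous θ) (hi : Function.Injective θ)
    (hN : ∀ g, θ g ∈ NN K) (ψ : Δ → Tw l w) (hψ : ∀ a b, ψ (a * b) = ψ a + ψ b)
    (hU : ∃ U : Subgroup Δ, IsOpen (U : Set Δ) ∧ ∀ u ∈ U, ψ u = 0) (n : ℕ)
    (hn : ∀ g, l ^ n • ψ g = 0) :
    ∃ (y : AlgebraicClosure (RatFunc K)) (k : Δ → ℕ), y ≠ 0 ∧ (∀ g, ψ g = k g • qel l w n) ∧
      ∀ g, θ g y * (eps (AlgebraicClosure (RatFunc K)) l n) ^ (k g) = y := by
  have h1 : ∀ g, ∃ e : ℕ, ψ g = e • qel l w n := fun g => exists_eq_smul_qel (hn g)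
  choose k hk using h1
  have hlt : (l : AlgebraicClosure (RatFunc K)) ≠ 0 := f7_natCast_ne_zero hl
  have hε := (isEps_eps hlt).1 n
  have hkey : ∀ a b : ℕ, a • qel l w n = b • qel l w n →
      (eps (AlgebraicClosure (RatFunc K)) l n) ^ a =
      (eps (AlgebraicClosure (RatFunc K)) l n) ^ b := fun a b hab => by
    have h2 : ((a : ℤ) - b) • qel l w n = 0 := by
      rw [sub_smul, natCast_zsmul, natCast_zsmul, hab, sub_self]
    rw [f7_zsmul_eq_zero_iff hε, zpow_sub₀ (hε.ne_zero (pow_ne_zero _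
      (Fact.out : l.Prime).ne_zero)), zpow_natCast, zpow_natCast] at h2
    exact (div_eq_one_iff_eq (pow_ne_zero _ (hε.ne_zero (pow_ne_zero _
      (Fact.out : l.Prime).ne_zero)))).mp h2
  have hfix : ∀ g ∈ NN K, g (eps (AlgebraicClosure (RatFunc K)) l n) =
      eps (AlgebraicClosure (RatFunc K)) l n := fun g hg =>
    f7_root_fixed hl hg (hε.pow_eq_one)
  obtain ⟨U, hU, hU'⟩ := hU
  obtain ⟨y, hy0, hy⟩ := h90 hθ hi
    (f := fun g => (eps (AlgebraicClosure (RatFunc K)) l n) ^ (k g))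
    (fun g => pow_ne_zero _ (hε.ne_zero (pow_ne_zero _ (Fact.out : l.Prime).ne_zero)))
    (fun g h => by
      rw [map_pow, hfix _ (hN g), ← pow_add]
      apply hkey
      rw [← hk, hψ, hk, hk, add_smul])
    ⟨U, hU, fun g u hu => by
      apply hkey
      rw [← hk, ← hk, hψ, hU' u hu, add_zero]⟩
  exact ⟨y, k, hy0, hk, hy⟩

omit [Fact p.Prime] [CharP K p] in
lemma f7_rt_pow (a : AlgebraicClosure K) (n : ℕ) : rt l a n ^ l ^ n = tt K - jj K a := by
  induction n with
  | zero => rw [pow_zero, pow_one, rt_zero]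
  | succ n ih => rw [pow_succ', pow_mul, rt_succ, ih]

omit [Fact p.Prime] [CharP K p] [Fact l.Prime] in
lemma f7_uniformizer {L : Type v} {Ω : Type w} [Field L] [Field Ω] (f : L →+* Ω)
    (O : ValuationSubring Ω) (hR : IsDiscreteValuationRing (O.comap f)) :
    ∃ ϖ : L, ϖ ≠ 0 ∧ ∀ x : L, x ≠ 0 → ∃ k : ℤ, O.valuation (f x) = O.valuation (f ϖ) ^ k := by
  obtain ⟨ϖ, hϖ⟩ := IsDiscreteValuationRing.exists_irreducible (O.comap f)
  have h1 : ∀ x : O.comap f, x ≠ 0 → ∃ k : ℕ,
      O.valuation (f (x : L)) = O.valuation (f (ϖ : L)) ^ k := fun x hx => by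
    obtain ⟨k, u, hu⟩ := IsDiscreteValuationRing.eq_unit_mul_pow_irreducible hx hϖ
    refine ⟨k, ?_⟩
    have h2 : O.valuation (f ((u : O.comap f) : L)) = 1 := by
      apply le_antisymm
      · exact (O.valuation_le_one_iff _).mpr (u : O.comap f).2
      · have h3 : O.valuation (f (((u⁻¹ : (O.comap f)ˣ) : O.comap f) : L)) ≤ 1 :=
          (O.valuation_le_one_iff _).mpr ((u⁻¹ : (O.comap f)ˣ) : O.comap f).2
        have h4 : f ((u : O.comap f) : L) * f (((u⁻¹ : (O.comap f)ˣ) : O.comap f) : L) = 1 := by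
          rw [← map_mul]
          have h5 : (u : O.comap f) * ((u⁻¹ : (O.comap f)ˣ) : O.comap f) = 1 := u.mul_inv
          have h6 : ((u : O.comap f) : L) * (((u⁻¹ : (O.comap f)ˣ) : O.comap f) : L) = 1 :=
            congrArg Subtype.val h5
          rw [h6, map_one]
        have h7 := congrArg O.valuation h4
        rw [map_mul, map_one] at h7
        calc (1 : _) = O.valuation (f ((u : O.comap f) : L)) *
              O.valuation (f (((u⁻¹ : (O.comap f)ˣ) : O.comap f) : L)) := h7.symm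
          _ ≤ O.valuation (f ((u : O.comap f) : L)) * 1 := mul_le_mul_right h3 _
          _ = _ := mul_one _
    have h8 : (x : L) = ((u : O.comap f) : L) * (ϖ : L) ^ k := by
      rw [hu]
      rfl
    rw [h8, map_mul, map_mul, h2, one_mul, map_pow, map_pow]
  refine ⟨(ϖ : L), fun h => hϖ.ne_zero (Subtype.ext h), fun x hx => ?_⟩
  rcases (O.comap f).mem_or_inv_mem x with h | h
  · obtain ⟨k, hk⟩ := h1 ⟨x, h⟩ fun h' => hx (congrArg Subtype.val h')
    exact ⟨k, by rw [zpow_natCast]; exact hk⟩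
  · obtain ⟨k, hk⟩ := h1 ⟨x⁻¹, h⟩ fun h' => inv_ne_zero hx (congrArg Subtype.val h')
    refine ⟨-k, ?_⟩
    rw [zpow_neg, zpow_natCast]
    have h9 : O.valuation (f x⁻¹) = O.valuation (f (ϖ : L)) ^ k := hk
    rw [← h9, map_inv₀, map_inv₀, inv_inv]

omit [Fact p.Prime] [CharP K p] [Fact l.Prime] in
lemma f7_fix_tt {g : AbsGal (RatFunc K)} (hg : g ∈ NN K) (a : AlgebraicClosure K) :
    g (tt K - jj K a) = tt K - jj K a := by
  rw [map_sub, apply_tt, mem_NN_iff.mp hg]

omit [Fact p.Prime] [CharP K p] [Fact l.Prime] in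
lemma f7_sub_ne_zero (b : AlgebraicClosure K) : tt K - jj K b ≠ 0 := by
  intro h
  have h1 : iota K (RatFunc.X - RatFunc.C b) = 0 := by
    rw [map_sub, iota_X, iota_C, h]
  have h2 := (iota K).injective (h1.trans (map_zero _).symm)
  rw [← RatFunc.algebraMap_X, ← RatFunc.algebraMap_C, ← map_sub] at h2
  exact Polynomial.X_sub_C_ne_zero b ((RatFunc.algebraMap_injective _)
    (h2.trans (map_zero _).symm))

/-- TASK F7 (first statement). The values of the elements fixed by the inertia group.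

PROOF. Let `F' = RatFunc (AlgebraicClosure K)` and let `E = F'(α)` (`IntermediateField.adjoin F' {α}`), a
finite extension (`isAlgebraic_om`), all of whose elements are fixed by `Inr O` (`apply_iota`). The
trace `R` of `O` on `E` has a discrete trace on `F'` (`Over.dvr_iota`, `algebraMap_om`), so it is a
discrete valuation ring (`dvr_of_finite`, V3). Let `ϖ ∈ E` be a uniformizer, and
`O.valuation (tt K - jj K a) = O.valuation ϖ ^ m`, `m ≥ 1`. If `m = l * k`: `u = (tt K - jj K a) /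
(ϖ ^ k) ^ l` is a unit fixed by `Inr O`; let `z ^ l = u`; `z` is fixed (`fixed_of_pow`), so
`(ϖ ^ k * z) ^ l = tt K - jj K a = (rt l a 1) ^ l`, and `rt l a 1` is an `l`-th root of unity (which is in
the image of `jj K`) times `ϖ ^ k * z`, so it is fixed by `Inr O`. This contradicts
`exists_kap_unit` and `kap_spec` (with `n = 1`: `zlPow (eps 1) (kap a g) = 1` implies
`toZModPow 1 (kap a g) = 0`, not a unit). So `m` is prime to `l`: `1 = x * m + y * l` in `ℤ`. Let
`O.valuation α = O.valuation ϖ ^ k`, `k : ℤ`; take `e = k * x` and `β = ϖ ^ (k * y)`. -/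
theorem val_inertia (hpl : p ≠ l) {O : ValuationSubring (AlgebraicClosure (RatFunc K))}
    {a : AlgebraicClosure K} (ha : Over O a) {α : AlgebraicClosure (RatFunc K)} (hα : α ≠ 0)
    (hfix : ∀ g ∈ Inr O, g α = α) :
    ∃ (e : ℤ) (β : AlgebraicClosure (RatFunc K)), β ≠ 0 ∧ (∀ g ∈ Inr O, g β = β) ∧
      O.valuation α = O.valuation ((tt K - jj K a) ^ e * β ^ l) := by
  have hl : (l : K) ≠ 0 := l_ne_zero hpl
  have hl0 : l ≠ 0 := (Fact.out : l.Prime).ne_zero
  obtain ⟨E, hE⟩ : ∃ E : IntermediateField (RatFunc (AlgebraicClosure K))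
    (AlgebraicClosure (RatFunc K)), E = IntermediateField.adjoin _ {α} := ⟨_, rfl⟩
  have hαE : α ∈ E := by
    rw [hE]
    exact IntermediateField.mem_adjoin_simple_self _ α
  have hfE : ∀ g ∈ Inr O, ∀ x ∈ E, g x = x := fun g hg x hx => by
    rw [hE] at hx
    induction hx using IntermediateField.adjoin_induction with
    | mem x hx =>
      rw [Set.mem_singleton_iff] at hx
      rw [hx, hfix g hg]
    | algebraMap x => exact apply_iota hg.2 x
    | add x y hx hy h1 h2 => rw [map_add, h1, h2]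
    | inv x hx h1 => rw [map_inv₀, h1]
    | mul x y hx hy h1 h2 => rw [map_mul, h1, h2]
  have hfin : FiniteDimensional (RatFunc (AlgebraicClosure K)) E := by
    rw [hE]
    exact IntermediateField.adjoin.finiteDimensional (Algebra.IsIntegral.isIntegral α)
  have hR : IsDiscreteValuationRing (O.comap (algebraMap E (AlgebraicClosure (RatFunc K)))) := by
    apply dvr_of_finite (K := RatFunc (AlgebraicClosure K))
    exact ha.dvr_iota
  obtain ⟨ϖ, hϖ0, hϖ⟩ := f7_uniformizer _ O hR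
  have hϖ0' : (ϖ : AlgebraicClosure (RatFunc K)) ≠ 0 := fun h => hϖ0 (Subtype.ext h)
  have htE : tt K - jj K a ∈ E := by
    have h1 : tt K - jj K a = iota K (RatFunc.X - RatFunc.C a) := by
      rw [map_sub, iota_X, iota_C]
    rw [h1]
    exact E.algebraMap_mem _
  obtain ⟨m, hm⟩ := hϖ ⟨tt K - jj K a, htE⟩ fun h => f7_sub_ne_zero a (congrArg Subtype.val h)
  obtain ⟨k, hk⟩ := hϖ ⟨α, hαE⟩ fun h => hα (congrArg Subtype.val h)
  have hm' : O.valuation (tt K - jj K a) = O.valuation (ϖ : AlgebraicClosure (RatFunc K)) ^ m := hm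
  have hk' : O.valuation α = O.valuation (ϖ : AlgebraicClosure (RatFunc K)) ^ k := hk
  have hv0 : O.valuation (ϖ : AlgebraicClosure (RatFunc K)) ≠ 0 :=
    (Valuation.ne_zero_iff _).mpr hϖ0'
  have hndvd : ¬ (l : ℤ) ∣ m := by
    rintro ⟨j, rfl⟩
    obtain ⟨z, hz⟩ := IsAlgClosed.exists_pow_nat_eq
      ((tt K - jj K a) / ((ϖ : AlgebraicClosure (RatFunc K)) ^ j) ^ l)
      (Nat.pos_of_ne_zero hl0)
    have hzf : ∀ g ∈ Inr O, g z = z := by
      refine fixed_of_pow hpl ha (u := (tt K - jj K a) /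
        ((ϖ : AlgebraicClosure (RatFunc K)) ^ j) ^ l) ?_ (fun g hg => ?_) hz
      · rw [map_div₀, map_pow, map_zpow₀, hm', mul_comm (l : ℤ), zpow_mul, zpow_natCast]
        exact div_self (pow_ne_zero _ (zpow_ne_zero _ hv0))
      · rw [map_div₀, map_pow, map_zpow₀, f7_fix_tt hg.2, hfE g hg _ ϖ.2]
    obtain ⟨g, hg, hu⟩ := exists_kap_unit (l := l) hpl ha
    have h1 : (rt l a 1 / ((ϖ : AlgebraicClosure (RatFunc K)) ^ j * z)) ^ l ^ 1 = 1 := by
      rw [pow_one, div_pow, mul_pow, hz, mul_div_cancel₀ _ (pow_ne_zero _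
        (zpow_ne_zero _ hϖ0')), ← rt_zero l a, ← rt_succ l a 0, zero_add, div_self]
      exact pow_ne_zero _ (rt_ne_zero a 1)
    have h2 := f7_root_fixed hl hg.2 h1
    have hz0 : z ≠ 0 := by
      rintro rfl
      rw [zero_pow hl0] at hz
      exact div_ne_zero (f7_sub_ne_zero a) (pow_ne_zero _ (zpow_ne_zero _ hϖ0')) hz.symm
    have h3 : (ϖ : AlgebraicClosure (RatFunc K)) ^ j * z ≠ 0 :=
      mul_ne_zero (zpow_ne_zero _ hϖ0') hz0
    rw [map_div₀, map_mul, map_zpow₀, hfE g hg _ ϖ.2, hzf g hg, div_left_inj' h3,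
      kap_spec hl a hg.2] at h2
    have h4 : zlPow l 1 (eps (AlgebraicClosure (RatFunc K)) l 1) (kap l a g) = 1 :=
      mul_right_cancel₀ (rt_ne_zero (l := l) a 1) (h2.trans (one_mul _).symm)
    have hε := (isEps_eps (f7_natCast_ne_zero (K := K) hl)).1 1
    have h5 : zlPow l 1 (eps (AlgebraicClosure (RatFunc K)) l 1) (kap l a g) =
        zlPow l 1 (eps (AlgebraicClosure (RatFunc K)) l 1) 0 := by
      rw [h4, zlPow, map_zero, ZMod.val_zero, pow_zero]
    rw [zlPow_eq_iff hε, map_zero] at h5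
    have h6 := hu.map (PadicInt.toZModPow (p := l) 1)
    rw [h5] at h6
    have : Fact (1 < l ^ 1) := ⟨by rw [pow_one]; exact (Fact.out : l.Prime).one_lt⟩
    exact not_isUnit_zero h6
  have hcop : IsCoprime m (l : ℤ) := by
    rw [isCoprime_comm]
    exact ((Nat.prime_iff_prime_int.mp (Fact.out : l.Prime)).coprime_iff_not_dvd).mpr hndvd
  obtain ⟨x, y, hxy⟩ := hcop
  refine ⟨k * x, (ϖ : AlgebraicClosure (RatFunc K)) ^ (k * y), zpow_ne_zero _ hϖ0',
    fun g hg => ?_, ?_⟩
  · rw [map_zpow₀, hfE g hg _ ϖ.2]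
  · rw [map_mul, map_zpow₀, map_pow, map_zpow₀, hm', hk', ← zpow_mul, ← zpow_natCast, ← zpow_mul,
      ← zpow_add₀ hv0]
    congr 1
    linear_combination (-k) * hxy

/-- TASK F7 (second statement). The elements fixed by the inertia group are `l`-th powers up to powers
of `t - a`.

PROOF. With `e`, `β` as in `val_inertia`, `u = α / ((tt K - jj K a) ^ e * β ^ l)` is a unit fixed by
`Inr O`; let `z ^ l = u`; `z` is fixed (`fixed_of_pow`); `δ = β * z`. -/
theorem exists_eq_pow (hpl : p ≠ l) {O : ValuationSubring (AlgebraicClosure (RatFunc K))}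
    {a : AlgebraicClosure K} (ha : Over O a) {α : AlgebraicClosure (RatFunc K)} (hα : α ≠ 0)
    (hfix : ∀ g ∈ Inr O, g α = α) :
    ∃ (e : ℤ) (δ : AlgebraicClosure (RatFunc K)), δ ≠ 0 ∧ (∀ g ∈ Inr O, g δ = δ) ∧
      α = (tt K - jj K a) ^ e * δ ^ l := by
  have hl0 : l ≠ 0 := (Fact.out : l.Prime).ne_zero
  obtain ⟨e, β, hβ0, hβ, hv⟩ := val_inertia hpl ha hα hfix
  have h1 : (tt K - jj K a) ^ e * β ^ l ≠ 0 :=
    mul_ne_zero (zpow_ne_zero _ (f7_sub_ne_zero a)) (pow_ne_zero _ hβ0)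
  obtain ⟨z, hz⟩ := IsAlgClosed.exists_pow_nat_eq (α / ((tt K - jj K a) ^ e * β ^ l))
    (Nat.pos_of_ne_zero hl0)
  have hzf : ∀ g ∈ Inr O, g z = z := by
    refine fixed_of_pow hpl ha (u := α / ((tt K - jj K a) ^ e * β ^ l)) ?_ (fun g hg => ?_) hz
    · rw [map_div₀, hv]
      exact div_self ((Valuation.ne_zero_iff _).mpr h1)
    · rw [map_div₀, map_mul, map_pow, map_zpow₀, f7_fix_tt hg.2, hβ g hg, hfix g hg]
  have hz0 : z ≠ 0 := by
    rintro rfl
    rw [zero_pow hl0] at hz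
    exact div_ne_zero hα h1 hz.symm
  refine ⟨e, β * z, mul_ne_zero hβ0 hz0, fun g hg => ?_, ?_⟩
  · rw [map_mul, hβ g hg, hzf g hg]
  · rw [mul_pow, hz, ← mul_assoc, mul_div_cancel₀ _ h1]

/-- TASK F7 (third statement). The homomorphisms of the inertia group killed by `l`.

PROOF. Write `D`, `I` for the decomposition and inertia groups. Each `ψ i` is killed by `l`, so
`ψ i = k i • qel l w 1` with `k i : ℕ` (`exists_eq_smul_qel`, B8), `k` unique modulo `l`
(`smul_qel_eq_zero_iff`). Let `ε = eps Ω l 1`, `f i = ε ^ k i`, a homomorphism `I → Ω^×`, trivial on an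
open subgroup. `i ∈ I` fixes `ε` (it is in the image of `jj K`, `Over.mem_inertia`). By Hilbert 90 (`h90`,
C1, for `Δ = I`, `θ : I → D → AbsGal (RatFunc K)` the inclusion; `compactSpace_inertia`, V5) there is
`y ≠ 0` with `i y * f i = y` for all `i ∈ I`. `α = y ^ l` is fixed by `I`, i.e. by `Inr O`
(`Over.mem_inertia`), so by `exists_eq_pow`
`y ^ l = (tt K - jj K a) ^ e * δ ^ l = ((rt l a 1) ^ e * δ) ^ l` (`rt l a 1 ^ l = rt l a 0`), so
`y = ζ * (rt l a 1) ^ e * δ` with an `l`-th root of unity `ζ`, fixed by `I`. Hence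
`ε ^ (-k i) = i y / y = (i (rt l a 1) / rt l a 1) ^ e = (zlPow ε (kap a i)) ^ e`, so
`ψ i = k i • qel l w 1 = kap a i • (-e • qel l w 1)` (`zl_smul_qel`, B8). -/
theorem hom_inertia_l (hpl : p ≠ l) {O : ValuationSubring (AlgebraicClosure (RatFunc K))}
    {a : AlgebraicClosure K} (ha : Over O a)
    (ψ : HomM (O.inertiaSubgroup (RatFunc K)) (Tw l w)) (hψ : ∀ i, l • ψ i = 0) :
    ∃ m : Tw l w, ∀ i : O.inertiaSubgroup (RatFunc K),
      ψ i = kap l a ((i : O.decompositionSubgroup (RatFunc K)) : AbsGal (RatFunc K)) • m := by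
  have hl : (l : K) ≠ 0 := l_ne_zero hpl
  have hl0 : l ≠ 0 := (Fact.out : l.Prime).ne_zero
  obtain ⟨U, hU, hU'⟩ := ψ.smooth
  have hN : ∀ i : O.inertiaSubgroup (RatFunc K),
      ((i : O.decompositionSubgroup (RatFunc K)) : AbsGal (RatFunc K)) ∈ NN K := fun i =>
    (ha.mem_inertia _).mp i.2
  obtain ⟨y, k, hy0, hk, hy⟩ := f7_kummer hl
    ((O.decompositionSubgroup (RatFunc K)).subtype.comp (O.inertiaSubgroup (RatFunc K)).subtype)
    (continuous_subtype_val.comp continuous_subtype_val)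
    ((Subgroup.subtype_injective _).comp (Subgroup.subtype_injective _)) hN ψ ψ.map_mul
    ⟨U.subgroupOf (O.inertiaSubgroup (RatFunc K)), hU.preimage continuous_subtype_val,
      fun u hu => hU' u hu⟩ 1 (fun g => by rw [pow_one]; exact hψ g)
  have hε := (isEps_eps (f7_natCast_ne_zero (K := K) hl)).1 1
  have hε0 : eps (AlgebraicClosure (RatFunc K)) l 1 ≠ 0 := hε.ne_zero (pow_ne_zero _ hl0)
  have h1 : ∀ g ∈ Inr O, g (y ^ l) = y ^ l := fun g hg => by
    have h2 := hy ⟨⟨g, hg.1⟩, (ha.mem_inertia _).mpr hg.2⟩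
    have h3 := congrArg (· ^ l) h2
    have h4 : eps (AlgebraicClosure (RatFunc K)) l 1 ^ l = 1 := by
      have h5 := hε.pow_eq_one
      rwa [pow_one] at h5
    simp only [mul_pow, ← pow_mul] at h3
    rw [mul_comm (k _), pow_mul, h4, one_pow, mul_one] at h3
    rw [map_pow]
    exact h3
  obtain ⟨e, δ, hδ0, hδ, hyδ⟩ := exists_eq_pow hpl ha (pow_ne_zero l hy0) h1
  obtain ⟨ζ, hζ⟩ : ∃ ζ, ζ = y / ((rt l a 1) ^ e * δ) := ⟨_, rfl⟩
  have hW0 : (rt l a 1) ^ e * δ ≠ 0 := mul_ne_zero (zpow_ne_zero _ (rt_ne_zero a 1)) hδ0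
  have hrt : (rt l a 1) ^ l = tt K - jj K a := by rw [rt_succ l a 0, rt_zero]
  have hζ1 : ζ ^ l ^ 1 = 1 := by
    rw [hζ, pow_one, div_pow, hyδ, mul_pow, ← hrt, ← zpow_natCast ((rt l a 1) ^ e), ← zpow_mul,
      mul_comm e, zpow_mul, zpow_natCast, div_self]
    refine mul_ne_zero (zpow_ne_zero _ (pow_ne_zero _ (rt_ne_zero a 1))) (pow_ne_zero _ hδ0)
  have hζ2 : y = ζ * ((rt l a 1) ^ e * δ) := by rw [hζ, div_mul_cancel₀ _ hW0]
  refine ⟨(-e) • qel l w 1, fun i => ?_⟩
  have h2 : ((i : O.decompositionSubgroup (RatFunc K)) : AbsGal (RatFunc K)) y =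
      y * (zlPow l 1 (eps (AlgebraicClosure (RatFunc K)) l 1) (kap l a
        ((i : O.decompositionSubgroup (RatFunc K)) : AbsGal (RatFunc K)))) ^ e := by
    conv_lhs => rw [hζ2]
    rw [map_mul, map_mul, map_zpow₀, f7_root_fixed hl (hN i) hζ1, kap_spec hl a (hN i),
      hδ _ ⟨(i : O.decompositionSubgroup (RatFunc K)).2, hN i⟩, mul_zpow]
    conv_rhs => rw [hζ2]
    ring
  have h3 := hy i
  change ((i : O.decompositionSubgroup (RatFunc K)) : AbsGal (RatFunc K)) y * _ = y at h3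
  rw [h2, mul_assoc] at h3
  have h5 := mul_left_cancel₀ hy0 (h3.trans (mul_one _).symm)
  have h6 : (eps (AlgebraicClosure (RatFunc K)) l 1) ^
      (e * ((PadicInt.toZModPow 1 (kap l a ((i : O.decompositionSubgroup (RatFunc K)) :
        AbsGal (RatFunc K)))).val : ℤ) + (k i : ℤ)) = 1 := by
    rw [zpow_add₀ hε0, zpow_natCast, ← h5]
    congr 1
    rw [zlPow, ← zpow_natCast, ← zpow_mul, mul_comm]
  rw [← f7_zsmul_eq_zero_iff (w := w) hε, add_smul, add_comm, mul_smul, natCast_zsmul,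
    natCast_zsmul, ← zl_smul_qel, ← hk i] at h6
  rw [eq_neg_of_add_eq_zero_left h6, neg_smul, smul_neg, smul_comm _ e]

/-- TASK F7 (fourth statement). All homomorphisms of the inertia group are multiples of the Kummer
character.

PROOF. Let `i₀` be as in `exists_kap_unit` (an element of `I`, `Over.mem_inertia`), and
`m = (kap a i₀)⁻¹ • ψ i₀`. The function `ψ' i = ψ i - kap a i • m` is a smooth homomorphism
(`HomM.res` of `kum hl a m` gives the second term as a `HomM`; see A16) with `ψ' i₀ = 0`. The image of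
`ψ'` is finite (it factors through the quotient by an open subgroup), so `l ^ k • ψ' = 0` for some
`k`; let `k` be minimal. If `k > 0`, then `ψ'' = l ^ (k-1) • ψ'` is killed by `l`, so
`ψ'' i = kap a i • m'` (`hom_inertia_l`); `0 = ψ'' i₀ = kap a i₀ • m'` gives `m' = 0`, so `ψ'' = 0`, a
contradiction. So `ψ' = 0`. -/
theorem hom_inertia (hpl : p ≠ l) {O : ValuationSubring (AlgebraicClosure (RatFunc K))}
    {a : AlgebraicClosure K} (ha : Over O a)
    (ψ : HomM (O.inertiaSubgroup (RatFunc K)) (Tw l w)) :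
    ∃ m : Tw l w, ∀ i : O.inertiaSubgroup (RatFunc K),
      ψ i = kap l a ((i : O.decompositionSubgroup (RatFunc K)) : AbsGal (RatFunc K)) • m := by
  have hl : (l : K) ≠ 0 := l_ne_zero hpl
  obtain ⟨i₀, hi₀, u, hu⟩ := exists_kap_unit (l := l) hpl ha
  have hi₀' : (⟨i₀, hi₀.1⟩ : O.decompositionSubgroup (RatFunc K)) ∈
    O.inertiaSubgroup (RatFunc K) := (ha.mem_inertia _).mpr hi₀.2
  have hN : ∀ i : O.inertiaSubgroup (RatFunc K),
      ((i : O.decompositionSubgroup (RatFunc K)) : AbsGal (RatFunc K)) ∈ NN K := fun i =>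
    (ha.mem_inertia _).mp i.2
  -- a homomorphism killed by a power of `l` which vanishes at `i₀` is zero
  have key : ∀ (n : ℕ) (ψ' : HomM (O.inertiaSubgroup (RatFunc K)) (Tw l w)),
      ψ' ⟨⟨i₀, hi₀.1⟩, hi₀'⟩ = 0 → (∀ i, l ^ n • ψ' i = 0) → ∀ i, ψ' i = 0 := by
    intro n
    induction n with
    | zero =>
      intro ψ' _ h i
      have h1 := h i
      rwa [pow_zero, one_smul] at h1
    | succ n ih =>
      intro ψ' h0 h
      refine ih ψ' h0 ?_
      have h1 : ∀ i, l • (l ^ n • ψ') i = 0 := fun i => by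
        change l • (l ^ n • ψ' i) = 0
        rw [← mul_smul, ← pow_succ', h]
      obtain ⟨m', hm'⟩ := hom_inertia_l hpl ha (l ^ n • ψ') h1
      have h2 : l ^ n • ψ' ⟨⟨i₀, hi₀.1⟩, hi₀'⟩ = kap l a i₀ • m' := hm' ⟨⟨i₀, hi₀.1⟩, hi₀'⟩
      rw [h0, smul_zero, ← hu] at h2
      have h3 : m' = 0 := by
        have h4 := congrArg (((u⁻¹ : ℤ_[l]ˣ) : ℤ_[l]) • ·) h2
        simp only [smul_zero, smul_smul, Units.inv_mul, one_smul] at h4
        exact h4.symm
      intro i
      have h5 : l ^ n • ψ' i = kap l a ((i : O.decompositionSubgroup (RatFunc K)) :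
        AbsGal (RatFunc K)) • m' := hm' i
      rw [h5, h3, smul_zero]
  obtain ⟨m, hm⟩ : ∃ m : Tw l w, m = ((u⁻¹ : ℤ_[l]ˣ) : ℤ_[l]) • ψ ⟨⟨i₀, hi₀.1⟩, hi₀'⟩ := ⟨_, rfl⟩
  obtain ⟨χ, hχ⟩ : ∃ χ : HomM (O.inertiaSubgroup (RatFunc K)) (Tw l w),
      ∀ i, χ i = kap l a ((i : O.decompositionSubgroup (RatFunc K)) : AbsGal (RatFunc K)) • m := by
    obtain ⟨U, hU, hU'⟩ := (kum hl a m).smooth
    refine ⟨⟨fun i => kap l a ((i : O.decompositionSubgroup (RatFunc K)) :
      AbsGal (RatFunc K)) • m, fun i j => ?_, U.subgroupOf (O.decompositionSubgroup (RatFunc K)),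
        hU.preimage continuous_subtype_val, fun i hi => ?_⟩, fun i => rfl⟩
    · have h1 := kap_mul hl a (hN i) (hN j)
      rw [← add_smul, ← h1]
      rfl
    · have h1 := hU' ⟨_, hN i⟩ hi
      rw [kum_apply] at h1
      exact h1
  refine ⟨m, fun i => ?_⟩
  obtain ⟨n, hn⟩ := f7_exists_pow (ψ - χ)
  have h0 : (ψ - χ) ⟨⟨i₀, hi₀.1⟩, hi₀'⟩ = 0 := by
    have h1 : χ ⟨⟨i₀, hi₀.1⟩, hi₀'⟩ = kap l a i₀ • m := hχ ⟨⟨i₀, hi₀.1⟩, hi₀'⟩
    rw [HomM.sub_apply, h1, hm, ← hu, smul_smul, Units.mul_inv, one_smul, sub_self]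
  have h2 := key n (ψ - χ) h0 hn i
  rw [HomM.sub_apply, sub_eq_zero] at h2
  rw [h2, hχ]

end GC
end

section

/-!
# Vanishing of the cohomology of the geometric Galois group
-/

namespace GC

universe u v w

variable {K : Type u} [Field K] {l : ℕ} [Fact l.Prime] {w : ℕ}

/-- TASK F2 (first statement). `NN` acts trivially on the Tate twists.

PROOF. `cyc_pull` (B2): `cyc g = cyc (rs K g) = cyc 1 = 1`; `Tw.smul_def`. -/
theorem cyc_of_mem_NN (hl : (l : K) ≠ 0) {g : AbsGal (RatFunc K)} (hg : g ∈ NN K) :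
    cyclotomicCharacter (AlgebraicClosure (RatFunc K)) l
      (g : AlgebraicClosure (RatFunc K) ≃+* _) = 1 := by
  have h1 : pull (ext_jj K) g = 1 := hg
  have h := cyc_pull (l := l) hl (ext_jj K) g
  rw [h1] at h
  rw [← h]
  have h2 : ((1 : AbsGal K) : AlgebraicClosure K ≃+* AlgebraicClosure K) = 1 := rfl
  rw [h2, map_one]

theorem smul_of_mem_NN (hl : (l : K) ≠ 0) {g : AbsGal (RatFunc K)} (hg : g ∈ NN K)
    (m : Tw l w) : g • m = m := by
  rw [Tw.smul_def, cyc_of_mem_NN hl hg, one_pow, Units.val_one, one_smul]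

/-- The homomorphism to the automorphisms over the geometric function field. -/
noncomputable def f2_hom {Δ : Type u} [Group Δ] (θ : Δ →* AbsGal (RatFunc K))
    (hN : ∀ g, θ g ∈ NN K) :
    Δ →* (AlgebraicClosure (RatFunc K) ≃ₐ[RatFunc (AlgebraicClosure K)]
      AlgebraicClosure (RatFunc K)) where
  toFun g := AlgEquiv.ofRingEquiv
    (f := ((θ g : AbsGal (RatFunc K)) : AlgebraicClosure (RatFunc K) ≃+* _))
    (fun x => apply_iota (hN g) x)
  map_one' := by
    ext x
    change (θ 1) x = x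
    rw [map_one]
    rfl
  map_mul' g h := by
    ext x
    change (θ (g * h)) x = θ g (θ h x)
    rw [map_mul]
    rfl

lemma f2_hom_apply {Δ : Type u} [Group Δ] (θ : Δ →* AbsGal (RatFunc K))
    (hN : ∀ g, θ g ∈ NN K) (g : Δ) (x : AlgebraicClosure (RatFunc K)) :
    f2_hom θ hN g x = θ g x := rfl

lemma f2_continuous {Δ : Type u} [Group Δ] [TopologicalSpace Δ] [IsTopologicalGroup Δ]
    (θ : Δ →* AbsGal (RatFunc K)) (hθ : Continuous θ) (hN : ∀ g, θ g ∈ NN K) :
    Continuous (f2_hom θ hN) := by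
  apply continuous_of_continuousAt_one
  rw [ContinuousAt, map_one]
  intro s hs
  rw [krullTopology_mem_nhds_one_iff] at hs
  obtain ⟨E, hE, hs⟩ := hs
  let b := Module.finBasis (RatFunc (AlgebraicClosure K)) E
  have hopen : IsOpen (⋂ i, θ ⁻¹' (MulAction.stabilizer
      (AlgebraicClosure (RatFunc K) ≃ₐ[RatFunc K] AlgebraicClosure (RatFunc K))
      ((b i : E) : AlgebraicClosure (RatFunc K)) : Set (AbsGal (RatFunc K)))) := by
    refine isOpen_iInter_of_finite fun i => ?_
    exact (stabilizer_isOpen_of_isIntegral _).preimage hθ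
  rw [Filter.mem_map]
  refine Filter.mem_of_superset (hopen.mem_nhds ?_) ?_
  · refine Set.mem_iInter.2 fun i => ?_
    change (θ 1) _ = _
    rw [map_one]
    rfl
  · intro g hg
    apply hs
    rw [SetLike.mem_coe, IntermediateField.mem_fixingSubgroup_iff]
    intro x hx
    have hb : ∀ i, f2_hom θ hN g ((b i : E) : AlgebraicClosure (RatFunc K)) = (b i : E) :=
      fun i => Set.mem_iInter.1 hg i
    have h1 := b.sum_repr ⟨x, hx⟩
    have h2 : x = ∑ i, (b.repr ⟨x, hx⟩ i) • ((b i : E) : AlgebraicClosure (RatFunc K)) := by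
      have h3 := congrArg (fun z : E => (z : AlgebraicClosure (RatFunc K))) h1
      simp only [AddSubmonoidClass.coe_finsetSum] at h3
      exact h3.symm
    change f2_hom θ hN g x = x
    rw [h2, map_sum]
    refine Finset.sum_congr rfl fun i _ => ?_
    rw [map_smul, hb]

/-- TASK F2 (second statement). Vanishing of the cohomology in degrees at least two of the closed
subgroups of `NN`.

PROOF. `Δ` acts trivially on `Tw l w`, so the action is discrete (`Disc`: take `U = ⊤`), and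
`Tw l w` is `l`-primary (`exists_pow_smul`, B8). Let `θ' : Δ →* (Ω ≃ₐ[RatFunc (AlgebraicClosure K)] Ω)`,
`Ω = AlgebraicClosure (RatFunc K)`, be the homomorphism with `θ' g x = θ g x`
(`AlgEquiv.ofRingEquiv` with `apply_iota`, F1); it is injective, and continuous: if `E` is a finite
extension of `RatFunc (AlgebraicClosure K)` in `Ω`, generated by finitely many elements `x`, the
subgroup of the `g` with `θ g x = x` for these `x` is open, since `θ` is continuous and `x` is algebraic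
over `RatFunc K` (`stabilizer_isOpen_of_isIntegral`). Apply `van_all` (C10) with
`F = RatFunc (AlgebraicClosure K)`, `normCond_ratFunc` (T2) and the primitive root of unity
`RatFunc.C (eps (AlgebraicClosure K) l 1)` (`isEps_eps`, B1, `l ^ 1 = l`). -/
theorem van_of_hom (hl : (l : K) ≠ 0) {Δ : Type u} [Group Δ] [TopologicalSpace Δ]
    [IsTopologicalGroup Δ] [CompactSpace Δ] [TotallyDisconnectedSpace Δ]
    [DistribMulAction Δ (Tw l w)] (θ : Δ →* AbsGal (RatFunc K)) (hθ : Continuous θ)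
    (hi : Function.Injective θ) (hN : ∀ g, θ g ∈ NN K)
    (ht : ∀ (g : Δ) (m : Tw l w), g • m = m) : Van Δ (Tw l w) 1 := by
  have hl' : ((l : ℕ) : AlgebraicClosure K) ≠ 0 := by
    have h := (map_ne_zero (algebraMap K (AlgebraicClosure K))).2 hl
    rwa [map_natCast] at h
  have hζ : IsPrimitiveRoot (RatFunc.C (eps (AlgebraicClosure K) l 1)) l := by
    have h := (isEps_eps hl').1 1
    rw [pow_one] at h
    exact h.map_of_injective (RatFunc.C (K := AlgebraicClosure K)).injective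
  refine van_all (Fact.out : l.Prime) (normCond_ratFunc (Fact.out : l.Prime) hl') hζ
    (f2_continuous θ hθ hN) ?_ (Tw l w) ?_ exists_pow_smul
  · intro g h hgh
    apply hi
    ext x
    exact DFunLike.congr_fun hgh x
  · intro m
    exact ⟨⊤, isOpen_univ, fun g _ => ht g m⟩

/-- TASK F2 (third statement). The case of `NN`.

PROOF. `van_of_hom` for the inclusion; `NN` is closed, hence compact. -/
theorem van_NN (hl : (l : K) ≠ 0) : Van (NN K) (Tw l w) 1 := by
  have : CompactSpace (NN K) := isCompact_iff_compactSpace.1 isClosed_NN.isCompact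
  exact van_of_hom hl (NN K).subtype continuous_subtype_val Subtype.val_injective
    (fun g => g.2) (fun g m => smul_of_mem_NN hl g.2 m)

end GC
end

section

/-!
# The homomorphisms on the geometric Galois group
-/

namespace GC

universe u v w

variable {K : Type u} [Field K] {l : ℕ} [Fact l.Prime] {w : ℕ} {p : ℕ} [Fact p.Prime] [CharP K p]

omit [Fact l.Prime] [Fact p.Prime] [CharP K p] in
lemma f8_natCast_ne_zero (hl : (l : K) ≠ 0) : (l : AlgebraicClosure (RatFunc K)) ≠ 0 := by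
  have h1 : ((jj K).comp (algebraMap K (AlgebraicClosure K))) (l : K) =
      (l : AlgebraicClosure (RatFunc K)) := map_natCast _ l
  rw [← h1]
  exact fun h => hl ((RingHom.injective _) (h.trans (map_zero _).symm))

omit [Fact l.Prime] [Fact p.Prime] [CharP K p] in
lemma f8_natCast_ne_zero' (hl : (l : K) ≠ 0) : (l : AlgebraicClosure K) ≠ 0 := by
  have h1 : (algebraMap K (AlgebraicClosure K)) (l : K) = (l : AlgebraicClosure K) :=
    map_natCast _ l
  rw [← h1]
  exact fun h => hl ((RingHom.injective _) (h.trans (map_zero _).symm))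

omit [Fact p.Prime] [CharP K p] in
lemma f8_root_fixed (hl : (l : K) ≠ 0) {g : AbsGal (RatFunc K)} (hg : g ∈ NN K) {n : ℕ}
    {x : AlgebraicClosure (RatFunc K)} (hx : x ^ l ^ n = 1) : g x = x := by
  have h1 := ((isEps_eps (f8_natCast_ne_zero' hl)).1 n).map_of_injective (jj K).injective
  have : NeZero (l ^ n) := ⟨pow_ne_zero _ (Fact.out : l.Prime).ne_zero⟩
  obtain ⟨i, _, rfl⟩ := h1.eq_pow_of_pow_eq_one hx
  rw [map_pow, mem_NN_iff.mp hg]

/-- TASK F8 (first statement). The elements fixed by `NN` are purely inseparable over the geometric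
function field.

PROOF. `pow_mem_of_fixed` (V0) for `F = RatFunc (AlgebraicClosure K)` (`isAlgebraic_om`,
`exists_of_autOm`, F1); the characteristic exponent is `p`. -/
theorem exists_pow_iota {α : AlgebraicClosure (RatFunc K)} (h : ∀ g ∈ NN K, g α = α) :
    ∃ (r : ℕ) (R : RatFunc (AlgebraicClosure K)), α ^ p ^ r = iota K R := by
  have h1 : ∀ s : AlgebraicClosure (RatFunc K) ≃ₐ[RatFunc (AlgebraicClosure K)]
      AlgebraicClosure (RatFunc K), s α = α := fun s => by
    obtain ⟨g, hg, hs⟩ := exists_of_autOm s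
    rw [← hs, h g hg]
  obtain ⟨r, R, hR⟩ := pow_mem_of_fixed h1
  have : CharP (AlgebraicClosure K) p :=
    charP_of_injective_algebraMap (algebraMap K (AlgebraicClosure K)).injective p
  have : CharP (RatFunc (AlgebraicClosure K)) p :=
    charP_of_injective_algebraMap
      (algebraMap (AlgebraicClosure K) (RatFunc (AlgebraicClosure K))).injective p
  have : ExpChar (RatFunc (AlgebraicClosure K)) p := ExpChar.prime (Fact.out : p.Prime)
  rw [ringExpChar.eq (RatFunc (AlgebraicClosure K)) p] at hR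
  exact ⟨r, R, hR.symm⟩

open Classical in
omit [Fact p.Prime] [CharP K p] in
lemma f8_factor_poly (P : Polynomial (AlgebraicClosure K))
    (s : Finset (AlgebraicClosure K)) (hs : P.roots.toFinset ⊆ s) :
    iota K (algebraMap (Polynomial (AlgebraicClosure K)) (RatFunc (AlgebraicClosure K)) P) =
      jj K P.leadingCoeff * ∏ b ∈ s, (tt K - jj K b) ^ P.roots.count b := by
  have h1 : P = Polynomial.C P.leadingCoeff *
      (P.roots.map fun a => Polynomial.X - Polynomial.C a).prod :=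
    (IsAlgClosed.splits P).eq_prod_roots
  have h2 : (P.roots.map fun a => Polynomial.X - Polynomial.C a).prod =
      ∏ b ∈ s, (Polynomial.X - Polynomial.C b) ^ P.roots.count b := by
    rw [Finset.prod_multiset_map_count]
    refine Finset.prod_subset hs fun b _ hb => ?_
    rw [Multiset.mem_toFinset] at hb
    rw [Multiset.count_eq_zero_of_notMem hb, pow_zero]
  rw [h2] at h1
  conv_lhs => rw [h1]
  rw [map_mul, map_mul, map_prod, map_prod]
  congr 1
  · rw [RatFunc.algebraMap_C, iota_C]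
  · refine Finset.prod_congr rfl fun b _ => ?_
    rw [map_pow, map_pow, map_sub, map_sub, RatFunc.algebraMap_C, RatFunc.algebraMap_X, iota_C,
      iota_X]

omit [Fact p.Prime] [CharP K p] in
lemma f8_sub_ne_zero (b : AlgebraicClosure K) : tt K - jj K b ≠ 0 := by
  intro h
  have h1 : iota K (RatFunc.X - RatFunc.C b) = 0 := by
    rw [map_sub, iota_X, iota_C, h]
  have h2 := (iota K).injective (h1.trans (map_zero _).symm)
  rw [← RatFunc.algebraMap_X, ← RatFunc.algebraMap_C, ← map_sub] at h2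
  exact Polynomial.X_sub_C_ne_zero b ((RatFunc.algebraMap_injective _)
    (h2.trans (map_zero _).symm))

/-- TASK F8 (second statement). Factorization of rational functions.

PROOF. The polynomials over the algebraically closed field split:
`P = C c * ∏ (X - C r_i)` (`IsAlgClosed.splits`, `Polynomial.eq_prod_roots_of_splits_id`); the
quotient of two such products; collect the factors with multiplicities. -/
theorem exists_factor {R : RatFunc (AlgebraicClosure K)} (hR : R ≠ 0) :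
    ∃ (c : AlgebraicClosure K) (s : Finset (AlgebraicClosure K)) (e : AlgebraicClosure K → ℤ),
      c ≠ 0 ∧ iota K R = jj K c * ∏ b ∈ s, (tt K - jj K b) ^ e b := by
  classical
  have hn : R.num ≠ 0 := RatFunc.num_ne_zero hR
  have hd : R.denom ≠ 0 := R.denom_ne_zero
  refine ⟨R.num.leadingCoeff / R.denom.leadingCoeff,
    R.num.roots.toFinset ∪ R.denom.roots.toFinset,
    fun b => (R.num.roots.count b : ℤ) - R.denom.roots.count b, ?_, ?_⟩
  · exact div_ne_zero (Polynomial.leadingCoeff_ne_zero.mpr hn)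
      (Polynomial.leadingCoeff_ne_zero.mpr hd)
  · conv_lhs => rw [← RatFunc.num_div_denom R]
    rw [map_div₀, f8_factor_poly _ _ Finset.subset_union_left,
      f8_factor_poly _ _ Finset.subset_union_right, map_div₀, mul_div_mul_comm,
      ← Finset.prod_div_distrib]
    congr 1
    refine Finset.prod_congr rfl fun b _ => ?_
    rw [zpow_sub₀ (f8_sub_ne_zero b), zpow_natCast, zpow_natCast]

omit [Fact p.Prime] [CharP K p] in
lemma f8_zpow_sum {Ω : Type v} [Field Ω] {ι : Type v} {x : Ω} (hx : x ≠ 0) (s : Finset ι)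
    (f : ι → ℤ) : x ^ (∑ b ∈ s, f b) = ∏ b ∈ s, x ^ f b := by
  classical
  induction s using Finset.induction_on with
  | empty => rw [Finset.sum_empty, Finset.prod_empty, zpow_zero]
  | insert a s ha ih => rw [Finset.sum_insert ha, Finset.prod_insert ha, zpow_add₀ hx, ih]

lemma f8_exists_pow {G : Type v} [Group G] [TopologicalSpace G] [IsTopologicalGroup G]
    {N : Subgroup G} [CompactSpace N] (χ : HomM N (Tw l w)) : ∃ n : ℕ, ∀ g, l ^ n • χ g = 0 := by
  obtain ⟨U, hU, hχ⟩ := χ.smooth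
  have hV : IsOpen ((U.subgroupOf N : Subgroup N) : Set N) := hU.preimage continuous_subtype_val
  have := finite_quotient hV
  have h : ∀ q : N ⧸ U.subgroupOf N, ∃ n : ℕ, l ^ n • χ q.out = 0 := fun q => exists_pow_smul _
  choose n hn using h
  have := Fintype.ofFinite (N ⧸ U.subgroupOf N)
  refine ⟨∑ q, n q, fun g => ?_⟩
  have h1 : χ g = χ ((g : N ⧸ U.subgroupOf N)).out := by
    obtain ⟨u, hu⟩ := QuotientGroup.mk_out_eq_mul (U.subgroupOf N) g
    rw [hu, χ.map_mul, hχ _ u.2, add_zero]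
  rw [h1]
  have h2 : n (g : N ⧸ U.subgroupOf N) ≤ ∑ q, n q :=
    Finset.single_le_sum (fun _ _ => Nat.zero_le _) (Finset.mem_univ _)
  obtain ⟨k, hk⟩ := Nat.exists_eq_add_of_le h2
  rw [hk, pow_add, mul_comm, mul_smul, hn, smul_zero]

lemma f8_addOrderOf (n : ℕ) : addOrderOf (qel l w n) = l ^ n :=
  Nat.dvd_antisymm (addOrderOf_dvd_of_nsmul_eq_zero (pow_smul_qel n))
    (smul_qel_eq_zero_iff.mp (addOrderOf_nsmul_eq_zero _))

lemma f8_zsmul_eq_zero_iff {Ω : Type v} [Field Ω] {n : ℕ} {x : Ω}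
    (hx : IsPrimitiveRoot x (l ^ n)) (a : ℤ) : a • qel l w n = 0 ↔ x ^ a = 1 := by
  rw [hx.zpow_eq_one_iff_dvd, ← addOrderOf_dvd_iff_zsmul_eq_zero, f8_addOrderOf]

lemma f8_kummer (hl : (l : K) ≠ 0) {Δ : Type u} [Group Δ] [TopologicalSpace Δ]
    [IsTopologicalGroup Δ] [CompactSpace Δ] [TotallyDisconnectedSpace Δ]
    (θ : Δ →* AbsGal (RatFunc K)) (hθ : Continuous θ) (hi : Function.Injective θ)
    (hN : ∀ g, θ g ∈ NN K) (ψ : Δ → Tw l w) (hψ : ∀ a b, ψ (a * b) = ψ a + ψ b)
    (hU : ∃ U : Subgroup Δ, IsOpen (U : Set Δ) ∧ ∀ u ∈ U, ψ u = 0) (n : ℕ)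
    (hn : ∀ g, l ^ n • ψ g = 0) :
    ∃ (y : AlgebraicClosure (RatFunc K)) (k : Δ → ℕ), y ≠ 0 ∧ (∀ g, ψ g = k g • qel l w n) ∧
      ∀ g, θ g y * (eps (AlgebraicClosure (RatFunc K)) l n) ^ (k g) = y := by
  have h1 : ∀ g, ∃ e : ℕ, ψ g = e • qel l w n := fun g => exists_eq_smul_qel (hn g)
  choose k hk using h1
  have hlt : (l : AlgebraicClosure (RatFunc K)) ≠ 0 := f8_natCast_ne_zero hl
  have hε := (isEps_eps hlt).1 n
  have hkey : ∀ a b : ℕ, a • qel l w n = b • qel l w n →
      (eps (AlgebraicClosure (RatFunc K)) l n) ^ a =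
      (eps (AlgebraicClosure (RatFunc K)) l n) ^ b := fun a b hab => by
    have h2 : ((a : ℤ) - b) • qel l w n = 0 := by
      rw [sub_smul, natCast_zsmul, natCast_zsmul, hab, sub_self]
    rw [f8_zsmul_eq_zero_iff hε, zpow_sub₀ (hε.ne_zero (pow_ne_zero _
      (Fact.out : l.Prime).ne_zero)), zpow_natCast, zpow_natCast] at h2
    exact (div_eq_one_iff_eq (pow_ne_zero _ (hε.ne_zero (pow_ne_zero _
      (Fact.out : l.Prime).ne_zero)))).mp h2
  have hfix : ∀ g ∈ NN K, g (eps (AlgebraicClosure (RatFunc K)) l n) =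
      eps (AlgebraicClosure (RatFunc K)) l n := fun g hg =>
    f8_root_fixed hl hg (hε.pow_eq_one)
  obtain ⟨U, hU, hU'⟩ := hU
  obtain ⟨y, hy0, hy⟩ := h90 hθ hi
    (f := fun g => (eps (AlgebraicClosure (RatFunc K)) l n) ^ (k g))
    (fun g => pow_ne_zero _ (hε.ne_zero (pow_ne_zero _ (Fact.out : l.Prime).ne_zero)))
    (fun g h => by
      rw [map_pow, hfix _ (hN g), ← pow_add]
      apply hkey
      rw [← hk, hψ, hk, hk, add_smul])
    ⟨U, hU, fun g u hu => by
      apply hkey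
      rw [← hk, ← hk, hψ, hU' u hu, add_zero]⟩
  exact ⟨y, k, hy0, hk, hy⟩

omit [Fact p.Prime] [CharP K p] in
lemma f8_rt_pow (a : AlgebraicClosure K) (n : ℕ) : rt l a n ^ l ^ n = tt K - jj K a := by
  induction n with
  | zero => rw [pow_zero, pow_one, rt_zero]
  | succ n ih => rw [pow_succ', pow_mul, rt_succ, ih]

/-- TASK F8 (third statement). Each homomorphism on `NN` is a finite sum of Kummer homomorphisms.

PROOF. The image of `χ` is finite (it factors through a finite quotient), so `l ^ n • χ = 0` for some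
`n`, and `χ g = k g • qel l w n`, `k g : ℕ` unique modulo `l ^ n` (B8). Let `ε = eps Ω l n`,
`f g = ε ^ k g`, a smooth homomorphism `NN → Ω^×`; `NN` fixes `ε` (in the image of `jj K`). By Hilbert 90
(`h90`, C1, for `Δ = NN K`, compact) there is `y ≠ 0` with `g y * f g = y`. `α = y ^ l ^ n` is fixed by
`NN`, so `α ^ p ^ r = iota K R` (first statement), `R ≠ 0`, and
`(y ^ p ^ r) ^ l ^ n = jj K c * ∏ b ∈ s, (tt K - jj K b) ^ e b`. Let `c' ^ l ^ n = c`; since
`(rt l b n) ^ l ^ n = tt K - jj K b`, `y ^ p ^ r = ζ * jj K c' * ∏ b ∈ s, (rt l b n) ^ e b` with a root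
of unity `ζ` in the image of `jj K`. Apply `g ∈ NN`:
`ε ^ (- k g * p ^ r) = ∏ b ∈ s, (zlPow ε (kap b g)) ^ e b`, so
`(p ^ r * k g) • qel n = - ∑ b ∈ s, e b • kap b g • qel n` (`zl_smul_qel`). Let `u : ℕ` with
`u * p ^ r ≡ 1` modulo `l ^ n`; take `m b = - (u * e b) • qel l w n`. -/
theorem exists_sum_kum (hpl : p ≠ l) (hl : (l : K) ≠ 0) (χ : HomM (NN K) (Tw l w)) :
    ∃ (s : Finset (AlgebraicClosure K)) (m : AlgebraicClosure K → Tw l w),
      χ = ∑ b ∈ s, kum hl b (m b) := by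
  have hcN : CompactSpace (NN K) := isCompact_iff_compactSpace.mp (isClosed_NN (K := K)).isCompact
  obtain ⟨n, hn⟩ := f8_exists_pow χ
  obtain ⟨U, hU, hU'⟩ := χ.smooth
  obtain ⟨y, k, hy0, hk, hy⟩ := f8_kummer hl (NN K).subtype continuous_subtype_val
    (Subgroup.subtype_injective _) (fun g => g.2) χ χ.map_mul
    ⟨U.subgroupOf (NN K), hU.preimage continuous_subtype_val, fun u hu => hU' u hu⟩ n hn
  have hlt : (l : AlgebraicClosure (RatFunc K)) ≠ 0 := f8_natCast_ne_zero hl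
  have hε := (isEps_eps hlt).1 n
  have hε0 : eps (AlgebraicClosure (RatFunc K)) l n ≠ 0 :=
    hε.ne_zero (pow_ne_zero _ (Fact.out : l.Prime).ne_zero)
  have h1 : ∀ g ∈ NN K, g (y ^ l ^ n) = y ^ l ^ n := fun g hg => by
    have h2 := hy ⟨g, hg⟩
    have h3 := congrArg (· ^ l ^ n) h2
    simp only [mul_pow, ← pow_mul] at h3
    rw [mul_comm (k _), pow_mul, hε.pow_eq_one, one_pow, mul_one] at h3
    rw [map_pow]
    exact h3
  obtain ⟨r, R, hR⟩ := exists_pow_iota (p := p) h1
  have hR0 : R ≠ 0 := by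
    rintro rfl
    rw [map_zero] at hR
    exact hy0 (pow_eq_zero_iff (pow_ne_zero _ (Fact.out : l.Prime).ne_zero) |>.mp
      (pow_eq_zero_iff (pow_ne_zero _ (Fact.out : p.Prime).ne_zero) |>.mp hR))
  obtain ⟨c, s, e, hc, hf⟩ := exists_factor hR0
  obtain ⟨c', hc'⟩ := IsAlgClosed.exists_pow_nat_eq c
    (pow_pos (Fact.out : l.Prime).pos n : 0 < l ^ n)
  have hW0 : jj K c' * ∏ b ∈ s, (rt l b n) ^ e b ≠ 0 := by
    refine mul_ne_zero ?_ (Finset.prod_ne_zero_iff.mpr fun b _ => zpow_ne_zero _ (rt_ne_zero b n))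
    intro h
    have h3 : c' = 0 := (jj K).injective (h.trans (map_zero _).symm)
    rw [h3, zero_pow (pow_ne_zero _ (Fact.out : l.Prime).ne_zero)] at hc'
    exact hc hc'.symm
  have hWp : (jj K c' * ∏ b ∈ s, (rt l b n) ^ e b) ^ l ^ n = iota K R := by
    rw [hf, mul_pow, ← map_pow, hc', ← Finset.prod_pow]
    congr 1
    refine Finset.prod_congr rfl fun b _ => ?_
    rw [← zpow_natCast, ← zpow_mul, mul_comm, zpow_mul, zpow_natCast, f8_rt_pow]
  obtain ⟨ζ, hζ⟩ : ∃ ζ, ζ = y ^ p ^ r / (jj K c' * ∏ b ∈ s, (rt l b n) ^ e b) := ⟨_, rfl⟩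
  have hζ1 : ζ ^ l ^ n = 1 := by
    rw [hζ, div_pow, hWp, ← hR, ← pow_mul, ← pow_mul, mul_comm (p ^ r), div_self]
    exact pow_ne_zero _ hy0
  have hζ2 : y ^ p ^ r = ζ * (jj K c' * ∏ b ∈ s, (rt l b n) ^ e b) := by
    rw [hζ, div_mul_cancel₀ _ hW0]
  -- the relation for each `g`
  have hrel : ∀ g : NN K, ((p ^ r * k g : ℕ) : ℤ) • qel l w n =
      -∑ b ∈ s, e b • (kap l b (g : AbsGal (RatFunc K)) • qel l w n) := fun g => by
    have h2 : (g : AbsGal (RatFunc K)) (y ^ p ^ r) =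
        ζ * (jj K c' * ∏ b ∈ s, (rt l b n) ^ e b) *
          ∏ b ∈ s, (zlPow l n (eps (AlgebraicClosure (RatFunc K)) l n)
            (kap l b (g : AbsGal (RatFunc K)))) ^ e b := by
      rw [hζ2, map_mul, map_mul, map_prod, f8_root_fixed hl g.2 hζ1, mem_NN_iff.mp g.2,
        mul_assoc, mul_assoc, ← Finset.prod_mul_distrib]
      congr 2
      refine Finset.prod_congr rfl fun b _ => ?_
      rw [map_zpow₀, kap_spec hl b g.2, mul_zpow, mul_comm]
    have h3 : (g : AbsGal (RatFunc K)) (y ^ p ^ r) *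
        (eps (AlgebraicClosure (RatFunc K)) l n) ^ (p ^ r * k g) = y ^ p ^ r := by
      have h4 := congrArg (· ^ p ^ r) (hy g)
      simp only [mul_pow, ← pow_mul] at h4
      rw [mul_comm (k g)] at h4
      rw [map_pow]
      exact h4
    rw [h2, ← hζ2, mul_assoc] at h3
    have h5 := mul_left_cancel₀ (pow_ne_zero _ hy0) (h3.trans (mul_one _).symm)
    have h6 : (eps (AlgebraicClosure (RatFunc K)) l n) ^
        ((∑ b ∈ s, e b * ((PadicInt.toZModPow n (kap l b (g : AbsGal (RatFunc K)))).val : ℤ)) +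
          ((p ^ r * k g : ℕ) : ℤ)) = 1 := by
      rw [zpow_add₀ hε0, zpow_natCast, ← h5]
      congr 1
      rw [f8_zpow_sum hε0]
      refine Finset.prod_congr rfl fun b _ => ?_
      rw [zlPow, ← zpow_natCast, ← zpow_mul, mul_comm]
    rw [← f8_zsmul_eq_zero_iff (w := w) hε, add_smul, add_comm, Finset.sum_smul] at h6
    rw [eq_neg_of_add_eq_zero_left h6]
    congr 1
    refine Finset.sum_congr rfl fun b _ => ?_
    rw [mul_smul, natCast_zsmul, zl_smul_qel]
  have hcop : IsCoprime ((p ^ r : ℕ) : ℤ) ((l ^ n : ℕ) : ℤ) :=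
    Nat.isCoprime_iff_coprime.mpr (Nat.Coprime.pow _ _
      ((Nat.coprime_primes Fact.out Fact.out).mpr hpl))
  obtain ⟨u, v, huv⟩ := hcop
  refine ⟨s, fun b => (-(u * e b)) • qel l w n, HomM.ext' fun g => ?_⟩
  have h7 : χ g = u • (((p ^ r : ℕ) : ℤ) • χ g) := by
    conv_lhs => rw [← one_smul ℤ (χ g), ← huv]
    rw [add_smul, mul_smul, mul_smul, natCast_zsmul (χ g) (l ^ n), hn, smul_zero, add_zero]
  rw [h7, hk g, ← natCast_zsmul _ (k g), ← mul_smul ((p ^ r : ℕ) : ℤ), ← Nat.cast_mul, hrel,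
    ← HomM.ev_apply, map_sum, smul_neg, Finset.smul_sum, ← Finset.sum_neg_distrib]
  refine Finset.sum_congr rfl fun b _ => ?_
  rw [HomM.ev_apply, kum_apply]
  change _ = _ • ((-(u * e b)) • qel l w n)
  rw [neg_smul, smul_neg, mul_smul, smul_comm (kap l b (g : AbsGal (RatFunc K))) u,
    smul_comm (kap l b (g : AbsGal (RatFunc K))) (e b)]

end GC
end

section

/-!
# The residues of the homomorphisms on the geometric Galois group
-/

namespace GC

universe u v w

variable {K : Type u} [Field K] {l : ℕ} [Fact l.Prime] {w : ℕ} {p : ℕ} [Fact p.Prime] [CharP K p]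

open Classical in
/-- TASK F9 (first statement). The residue at the point `a`.

PROOF. Let `O` be a valuation ring over `a` (`exists_over`, F3), with decomposition group `D` and inertia
group `I`. For `χ : HomM (NN K) (Tw l w)` the restriction to `I` (`HomM.res`, A16, with
`Over.mem_inertia`) is `i ↦ kap a i • m` for some `m` (`hom_inertia`, F7), and `m` is unique: let
`i₀ ∈ I` with `kap a i₀` a unit (`exists_kap_unit`, F6): `m = (kap a i₀)⁻¹ • χ i₀`. Put `r χ = m`; this
is additive. For `χ = kum hl b m`: `χ i = kap b i • m`, so `r χ = m` if `b = a`, and `0` if `b ≠ a`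
(`kap_eq_zero`, F6). -/
theorem exists_residue_hom (hpl : p ≠ l) (hl : (l : K) ≠ 0) (a : AlgebraicClosure K) :
    ∃ r : HomM (NN K) (Tw l w) →+ Tw l w, ∀ (b : AlgebraicClosure K) (m : Tw l w),
      r (kum hl b m) = if b = a then m else 0 := by
  obtain ⟨O, hO⟩ := exists_over a
  obtain ⟨i₀, hi₀, u, hu⟩ := exists_kap_unit (l := l) hpl hO
  refine ⟨(DistribSMul.toAddMonoidHom (Tw l w) ((u⁻¹ : ℤ_[l]ˣ) : ℤ_[l])).comp
    (HomM.ev ⟨i₀, hi₀.2⟩), fun b m => ?_⟩
  rw [AddMonoidHom.comp_apply, HomM.ev_apply, kum_apply]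
  change ((u⁻¹ : ℤ_[l]ˣ) : ℤ_[l]) • kap l b i₀ • m = _
  split_ifs with h
  · rw [h, ← hu, smul_smul, Units.inv_mul, one_smul]
  · rw [kap_eq_zero hpl hO h hi₀, zero_smul, smul_zero]

/-- The residue at the point `a`. -/
noncomputable def resi (hpl : p ≠ l) (hl : (l : K) ≠ 0) (a : AlgebraicClosure K) :
    HomM (NN K) (Tw l w) →+ Tw l w := (exists_residue_hom hpl hl a).choose

open Classical in
lemma resi_kum (hpl : p ≠ l) (hl : (l : K) ≠ 0) (a b : AlgebraicClosure K) (m : Tw l w) :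
    resi hpl hl a (kum hl b m) = if b = a then m else 0 :=
  (exists_residue_hom hpl hl a).choose_spec b m

/-- The component at the point `a` of a homomorphism on the geometric Galois group. -/
noncomputable def compo (hpl : p ≠ l) (hl : (l : K) ≠ 0) (a : AlgebraicClosure K) :
    HomM (NN K) (Tw l w) →+ HomM (NN K) (Tw l w) := (kum hl a).comp (resi hpl hl a)

/-- TASK F9 (second statement). The residue describes the restriction to each inertia group over
`a`.

PROOF. By `exists_sum_kum` (F8) and additivity it is enough to treat `χ = kum hl b m`: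
`kap b g • m`, and `kap b g = 0` for `b ≠ a` (`kap_eq_zero`). -/
theorem apply_eq_resi (hpl : p ≠ l) (hl : (l : K) ≠ 0)
    {O : ValuationSubring (AlgebraicClosure (RatFunc K))} {a : AlgebraicClosure K}
    (ha : Over O a) (χ : HomM (NN K) (Tw l w)) {g : AbsGal (RatFunc K)} (hg : g ∈ Inr O)
    (hg' : g ∈ NN K) : χ ⟨g, hg'⟩ = kap l a g • resi hpl hl a χ := by
  classical
  obtain ⟨s, m, rfl⟩ := exists_sum_kum hpl hl χ
  rw [← HomM.ev_apply, map_sum, map_sum, Finset.smul_sum]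
  refine Finset.sum_congr rfl fun b _ => ?_
  rw [HomM.ev_apply, kum_apply, resi_kum]
  split_ifs with h
  · rw [h]
  · rw [kap_eq_zero hpl ha h hg, zero_smul, smul_zero]

open Classical in
lemma f9_compo_kum (hpl : p ≠ l) (hl : (l : K) ≠ 0) (a b : AlgebraicClosure K) (m : Tw l w) :
    compo hpl hl a (kum hl b m) = if b = a then kum hl b m else 0 := by
  rw [compo, AddMonoidHom.comp_apply, resi_kum]
  split_ifs with h
  · rw [h]
  · rw [map_zero]

open Classical in
lemma f9_compo_sum (hpl : p ≠ l) (hl : (l : K) ≠ 0) (a : AlgebraicClosure K)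
    (s : Finset (AlgebraicClosure K)) (m : AlgebraicClosure K → Tw l w) :
    compo hpl hl a (∑ b ∈ s, kum hl b (m b)) = if a ∈ s then kum hl a (m a) else 0 := by
  rw [map_sum]
  simp only [f9_compo_kum]
  rw [Finset.sum_ite_eq']

lemma f9_compo_smul (hpl : p ≠ l) (hl : (l : K) ≠ 0) (g : AbsGal (RatFunc K))
    (a : AlgebraicClosure K) (χ : HomM (NN K) (Tw l w)) :
    compo hpl hl (rs K g a) (g • χ) = g • compo hpl hl a χ := by
  classical
  obtain ⟨s, m, rfl⟩ := exists_sum_kum hpl hl χ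
  rw [map_sum, Finset.smul_sum, Finset.smul_sum, map_sum]
  refine Finset.sum_congr rfl fun b _ => ?_
  rw [smul_kum, f9_compo_kum, f9_compo_kum]
  by_cases h : b = a
  · rw [if_pos (by rw [h]), if_pos h, smul_kum]
  · rw [if_neg fun h' => h ((rs K g).injective h'), if_neg h, smul_zero]

/-- TASK F9 (third statement). Equivariance of the components.

PROOF. By `exists_sum_kum` and additivity it is enough to treat `χ = kum hl b m`:
`compo a (kum b m) = if b = a then kum b m else 0`, and `g • kum b m = kum (rs K g b) (..)`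
(`smul_kum`, F6); `rs K g b = rs K g a` iff `b = a`. -/
theorem compo_smul (hpl : p ≠ l) (hl : (l : K) ≠ 0) (g : AbsGal (RatFunc K)) (a : Pt K)
    (χ : HomM (NN K) (Tw l w)) :
    compo hpl hl (g • a : Pt K) (g • χ) = g • compo hpl hl (a : AlgebraicClosure K) χ :=
  f9_compo_smul hpl hl g a χ

/-- TASK F9 (fourth statement). Finiteness and decomposition.

PROOF. Let `χ = ∑ b ∈ s, kum b (m b)`. `compo a χ = if a ∈ s then kum a (m a) else 0`. -/
theorem compo_finite (hpl : p ≠ l) (hl : (l : K) ≠ 0) (χ : HomM (NN K) (Tw l w)) :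
    {a : Pt K | compo hpl hl (a : AlgebraicClosure K) χ ≠ 0}.Finite := by
  classical
  obtain ⟨s, m, rfl⟩ := exists_sum_kum hpl hl χ
  refine (s.finite_toSet).subset fun a ha => ?_
  by_contra h
  exact ha ((f9_compo_sum hpl hl a s m).trans (if_neg h))

theorem finsum_compo (hpl : p ≠ l) (hl : (l : K) ≠ 0) (χ : HomM (NN K) (Tw l w)) :
    ∑ᶠ a : Pt K, compo hpl hl (a : AlgebraicClosure K) χ = χ := by
  classical
  obtain ⟨s, m, rfl⟩ := exists_sum_kum hpl hl χ
  change ∑ᶠ a : AlgebraicClosure K, compo hpl hl a (∑ b ∈ s, kum hl b (m b)) = _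
  simp only [f9_compo_sum]
  rw [finsum_eq_sum_of_support_subset (s := s)]
  · exact Finset.sum_congr rfl fun b hb => if_pos hb
  · intro a ha
    by_contra h
    exact ha (if_neg h)

/-- TASK F9 (fifth statement). `NN` acts trivially on its homomorphisms (`HomM.smul_apply`,
`χ (n⁻¹ * m * n) = χ m`, and `smul_of_mem_NN`, F2). -/
theorem smul_hom_of_mem_NN (hl : (l : K) ≠ 0) {g : AbsGal (RatFunc K)} (hg : g ∈ NN K)
    (χ : HomM (NN K) (Tw l w)) : g • χ = χ := by
  refine HomM.ext' fun n => ?_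
  rw [HomM.smul_apply, smul_of_mem_NN hl hg]
  have h : conjN g n = (⟨g, hg⟩ : NN K)⁻¹ * n * ⟨g, hg⟩ := Subtype.ext rfl
  rw [h, χ.map_mul, χ.map_mul, χ.map_inv]
  abel

end GC
end

section

/-!
# Unramified classes of the rational function field
-/

namespace GC

universe u v w

variable {K : Type u} [Field K] {l : ℕ} [Fact l.Prime] {w : ℕ} {p : ℕ} [Fact p.Prime] [CharP K p]

/-- TASK F10 (first statement). The extension of homomorphisms from the inertia group.

PROOF. For `ψ : HomM I (Tw l w)`, `I = O.inertiaSubgroup`, there is a unique `m` with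
`ψ i = kap a i • m` for all `i ∈ I` (`hom_inertia`, F7, and `exists_kap_unit`, F6). Put
`L ψ = kum hl a m`; it is additive. For `χ : HomM (NN K) (Tw l w)` the restriction to `I` has
`m = resi a χ` (`apply_eq_resi`, F9), so `L (res χ) = compo a χ`. Equivariance: let `g ∈ D`. By
`exists_residue_hom`/`kum` there is `χ = kum hl a m` with `res χ = ψ`; `res (g • χ) = g • res χ`
(`HomM.smul_apply` on both sides), so `L (g • ψ) = L (res (g • χ)) = compo a (g • χ)
= g • compo a χ = g • L ψ` (`compo_smul`, with `g • a = a`: `Over.rs_eq`). -/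
theorem exists_ext_hom (hpl : p ≠ l) (hl : (l : K) ≠ 0)
    {O : ValuationSubring (AlgebraicClosure (RatFunc K))} {a : AlgebraicClosure K}
    (ha : Over O a) (hI : ∀ i ∈ O.inertiaSubgroup (RatFunc K), (i : AbsGal (RatFunc K)) ∈ NN K) :
    ∃ L : HomM (O.inertiaSubgroup (RatFunc K)) (Tw l w) →+ HomM (NN K) (Tw l w),
      (∀ χ : HomM (NN K) (Tw l w), L (HomM.res hI (Tw l w) χ) = compo hpl hl a χ) ∧
      ∀ (g : O.decompositionSubgroup (RatFunc K))
        (ψ : HomM (O.inertiaSubgroup (RatFunc K)) (Tw l w)),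
        L (g • ψ) = (g : AbsGal (RatFunc K)) • L ψ := by
  obtain ⟨g₀, hg₀, hu₀⟩ := exists_kap_unit (l := l) hpl ha
  have hi₀ : (⟨g₀, hg₀.1⟩ : O.decompositionSubgroup (RatFunc K)) ∈
      O.inertiaSubgroup (RatFunc K) := (ha.mem_inertia _).2 hg₀.2
  obtain ⟨u, hu⟩ := hu₀
  let r : HomM (O.inertiaSubgroup (RatFunc K)) (Tw l w) →+ Tw l w :=
    { toFun := fun ψ => ((u⁻¹ : ℤ_[l]ˣ) : ℤ_[l]) • ψ ⟨⟨g₀, hg₀.1⟩, hi₀⟩
      map_zero' := smul_zero _
      map_add' := fun _ _ => smul_add _ _ _ }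
  have hrm : ∀ (ψ : HomM (O.inertiaSubgroup (RatFunc K)) (Tw l w)) (m : Tw l w),
      (∀ i : O.inertiaSubgroup (RatFunc K),
        ψ i = kap l a ((i : O.decompositionSubgroup (RatFunc K)) : AbsGal (RatFunc K)) • m) →
      r ψ = m := by
    intro ψ m hm
    change ((u⁻¹ : ℤ_[l]ˣ) : ℤ_[l]) • ψ ⟨⟨g₀, hg₀.1⟩, hi₀⟩ = m
    rw [hm ⟨⟨g₀, hg₀.1⟩, hi₀⟩]
    change ((u⁻¹ : ℤ_[l]ˣ) : ℤ_[l]) • kap l a g₀ • m = m
    rw [← hu, smul_smul, Units.inv_mul, one_smul]
  have hr : ∀ (ψ : HomM (O.inertiaSubgroup (RatFunc K)) (Tw l w))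
      (i : O.inertiaSubgroup (RatFunc K)),
      ψ i = kap l a ((i : O.decompositionSubgroup (RatFunc K)) : AbsGal (RatFunc K)) • r ψ := by
    intro ψ i
    obtain ⟨m, hm⟩ := hom_inertia hpl ha ψ
    rw [hrm ψ m hm]
    exact hm i
  have hres : ∀ χ : HomM (NN K) (Tw l w),
      r (HomM.res hI (Tw l w) χ) = resi hpl hl a χ := by
    intro χ
    apply hrm
    intro i
    rw [HomM.res_apply]
    exact apply_eq_resi hpl hl ha χ ⟨(i : O.decompositionSubgroup (RatFunc K)).2, hI _ i.2⟩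
      (hI _ i.2)
  refine ⟨(kum hl a).comp r, fun χ => ?_, fun g ψ => ?_⟩
  · change kum hl a (r _) = kum hl a (resi hpl hl a χ)
    rw [hres]
  · have h1 : HomM.res hI (Tw l w) (kum hl a (r ψ)) = ψ := HomM.ext' fun i => by
      rw [HomM.res_apply, kum_apply]
      exact (hr ψ i).symm
    have h2 : HomM.res hI (Tw l w) ((g : AbsGal (RatFunc K)) • kum hl a (r ψ)) = g • ψ := by
      conv_rhs => rw [← h1]
      apply HomM.ext'
      intro i
      rfl
    change kum hl a (r (g • ψ)) = (g : AbsGal (RatFunc K)) • kum hl a (r ψ)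
    rw [← h2, hres]
    change compo hpl hl a _ = _
    have h3 := compo_smul hpl hl (g : AbsGal (RatFunc K)) (a : Pt K) (kum hl a (r ψ))
    have h4 : @HSMul.hSMul (AbsGal (RatFunc K)) (Pt K) (Pt K) _ (g : AbsGal (RatFunc K)) a = a :=
      ha.rs_eq g.2
    rw [h4] at h3
    refine h3.trans ?_
    congr 1
    change kum hl a (resi hpl hl a (kum hl a (r ψ))) = _
    rw [resi_kum, if_pos rfl]

/-- TASK F10 (second statement). Local primitives.

PROOF. Let `O` be a valuation ring over `a` (`exists_over`, F3), `D`, `I` its decomposition and inertia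
groups, `G = AbsGal (RatFunc K)`; `D` and `I` are closed (V5). `x` is unramified at `O` (`Over.dvr`,
F3): `x|_D - x' ∈ Cobd D (n+2)` with `x' ∈ Coch ⊤ I (n+2)`; `d x' = 0` (`d_d`). By `IsNF.res` (A16)
`x|_D` has a normal form relative to `I` with edge cochain `y ↦ res (e y)`. By `IsNF.edge_cobd` (A14)
for the group `D` and `I` (`disc_sub (disc_tw ..)`; `I` acts trivially: `smul_of_mem_NN`, F2; the
vanishing `Van I (Tw l w) 1` is `van_of_hom`, F2, for the inclusion `I → D → G`) there is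
`f ∈ Coch (HomM I (Tw l w)) ⊤ I n` with `d f y = res (e y)` for `y ∈ D`. Let `L` be as in
`exists_ext_hom`. `L ∘ f ∈ Coch (HomM (NN K) (Tw l w)) (⊤ : Subgroup D) ((NN K).subgroupOf D) n`
(equivariance of `L`; `(NN K).subgroupOf D = I` by `Over.mem_inertia`), and
`d (L ∘ f) y = L (res (e y)) = compo a (e y)` (`d_map`). Now `local_primitive` (A24) for `N = NN K`, `D`,
`S = MulAction.stabilizer G a` (open: `isOpen_stabilizer_pt`; it contains `NN K` (F0: `rs g = 1`) and `D`
(`Over.rs_eq`); `S = D * NN` by `Over.exists_mul`), `E = HomM (NN K) (Tw l w)`, `p = compo a`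
(`compo_smul`, `smul_hom_of_mem_NN`). `d e = 0` and `e ∈ Coch ⊤ NN (n+1)` by `IsNF.edge_mem` (A13). -/
theorem local_exists (hpl : p ≠ l) (hl : (l : K) ≠ 0) {n : ℕ}
    {x : (Fin (n + 3) → AbsGal (RatFunc K)) → Tw l w}
    (hx : x ∈ Cocyc (AbsGal (RatFunc K)) (Tw l w) (n + 2)) (hu : IsUnr x)
    {b : (Fin (n + 2) → AbsGal (RatFunc K)) → IndM (AbsGal (RatFunc K)) (Tw l w)}
    {e : (Fin (n + 2) → AbsGal (RatFunc K)) → HomM (NN K) (Tw l w)}
    (h : IsNF (NN K) x b e) (a : Pt K) :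
    ∃ F ∈ Coch (HomM (NN K) (Tw l w)) (MulAction.stabilizer (AbsGal (RatFunc K)) a) (NN K) n,
      d F = fun y => compo hpl hl (a : AlgebraicClosure K) (e y) := by
  obtain ⟨O, ha⟩ := exists_over (a : AlgebraicClosure K)
  have hI : ∀ i ∈ O.inertiaSubgroup (RatFunc K), (i : AbsGal (RatFunc K)) ∈ NN K :=
    fun i hi => (ha.mem_inertia i).1 hi
  obtain ⟨L, hL1, hL2⟩ := exists_ext_hom (w := w) hpl hl ha hI
  obtain ⟨x', hx', hxx⟩ := hu O ha.dvr
  have hdx : d x = 0 := hx.2
  have hdx' : d x' = 0 := by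
    obtain ⟨z, hz, hz'⟩ := hxx
    have h1 : x' = (fun y : Fin (n + 3) → O.decompositionSubgroup (RatFunc K) =>
        x fun i => (y i : AbsGal (RatFunc K))) - d z := by
      have h2 : d z = (fun y : Fin (n + 3) → O.decompositionSubgroup (RatFunc K) =>
        x fun i => (y i : AbsGal (RatFunc K))) - x' := hz'
      rw [h2]
      abel
    rw [h1, d_sub, d_d, sub_zero, d_comp, hdx]
    rfl
  obtain ⟨b', hb'⟩ := h.res hI
  have htrI : ∀ i ∈ O.inertiaSubgroup (RatFunc K), ∀ m : Tw l w, i • m = m :=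
    fun i hi m => smul_of_mem_NN hl (hI i hi) m
  have hV : Van (O.inertiaSubgroup (RatFunc K)) (Tw l w) 1 := by
    refine van_of_hom hl ((O.decompositionSubgroup (RatFunc K)).subtype.comp
      (O.inertiaSubgroup (RatFunc K)).subtype) ?_ ?_ ?_ ?_
    · exact continuous_subtype_val.comp continuous_subtype_val
    · intro g g' hgg
      exact Subtype.ext (Subtype.ext hgg)
    · intro g
      exact hI g g.2
    · intro g m
      exact htrI g g.2 m
  obtain ⟨f, hf, hdf⟩ := hb'.edge_cobd (O.inertiaSubgroup (RatFunc K)) (isClosed_inertia O)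
    (disc_sub (disc_tw (RatFunc K) (AlgebraicClosure (RatFunc K))) _) htrI hV hx' hdx' hxx
  have hLf := coch_map (G := O.decompositionSubgroup (RatFunc K)) L (fun g ψ => hL2 g ψ) hf
  have hsub : (NN K).subgroupOf (O.decompositionSubgroup (RatFunc K)) ≤
      O.inertiaSubgroup (RatFunc K) := fun g hg => (ha.mem_inertia g).2 hg
  have hLf' := coch_mono le_rfl hsub n hLf
  have hem := h.edge_mem (fun g hg m => smul_of_mem_NN hl hg m)
  refine local_primitive (N := NN K) (D := O.decompositionSubgroup (RatFunc K))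
    isClosed_NN (isClosed_decomp O) (isOpen_stabilizer_pt a) ?_ ?_ ?_
    (fun g hg χ => smul_hom_of_mem_NN hl hg χ)
    (compo hpl hl (a : AlgebraicClosure K)) ?_ hem.1 hem.2 hLf' ?_
  · intro g hg
    rw [MulAction.mem_stabilizer_iff, Pt.smul_def, mem_NN.1 hg]
    rfl
  · intro g hg
    exact ha.rs_eq hg
  · intro s hs
    exact ha.exists_mul hs
  · intro s hs χ
    have h3 := compo_smul hpl hl s a χ
    rw [MulAction.mem_stabilizer_iff.1 hs] at h3
    exact h3
  · intro y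
    rw [d_map, hdf]
    exact hL1 _

end GC
end

section

/-!
# Unramified classes of the rational function field come from the ground field
-/

namespace GC

universe u v w

variable {K : Type u} [Field K] {l : ℕ} [Fact l.Prime] {w : ℕ} {p : ℕ} [Fact p.Prime] [CharP K p]

/-- TASK F11. The unramified classes of degree at least two of `K(t)` come from `K`.

PROOF. `exists_nf` (A13) for `N = NN K` (`isClosed_NN`, F1; `disc_tw`, B8; `smul_of_mem_NN`, `van_NN`,
F2) gives a normal form `b`, `e` of `x`. By `si_abs` (A23) for `X = Pt K`, `p a = compo a`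
(`isOpen_stabilizer_pt`, F4; `compo_smul`, `compo_finite`, `finsum_compo`, F9; `local_exists`, F10;
`IsNF.edge_mem`) `e = d f`. By `IsNF.inflated` (A15) there is `y ∈ Coch ⊤ NN (n+2)` with `d y = 0`,
`x - y ∈ Cobd`; apply `exists_descent` (D8). -/
theorem unr_descent (hpl : p ≠ l) {n : ℕ} {x : (Fin (n + 3) → AbsGal (RatFunc K)) → Tw l w}
    (hx : x ∈ Cocyc (AbsGal (RatFunc K)) (Tw l w) (n + 2)) (hu : IsUnr x) :
    ∃ y ∈ Cocyc (AbsGal K) (Tw l w) (n + 2),
      x - pullC l w (ext_emb (algebraMap K (RatFunc K))) (n + 2) y ∈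
        Cobd (AbsGal (RatFunc K)) (Tw l w) (n + 2) := by
  have hl : (l : K) ≠ 0 := l_ne_zero hpl
  have hM : Disc (AbsGal (RatFunc K)) (Tw l w) := disc_tw (RatFunc K) (AlgebraicClosure (RatFunc K))
  have htriv : ∀ g ∈ NN K, ∀ m : Tw l w, g • m = m := fun g hg m => smul_of_mem_NN hl hg m
  obtain ⟨b, e, h⟩ := exists_nf (NN K) isClosed_NN hM htriv (van_NN hl) (n := n + 1) hx
  have hem := h.edge_mem htriv
  obtain ⟨f, hf, hfe⟩ := si_abs (N := NN K) (E := HomM (NN K) (Tw l w)) (X := Pt K)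
    isOpen_stabilizer_pt (fun a => compo hpl hl (a : AlgebraicClosure K))
    (fun g a χ => compo_smul hpl hl g a χ) (compo_finite hpl hl) (finsum_compo hpl hl)
    hem.1 (fun a => local_exists hpl hl hx hu h a)
  obtain ⟨y, hy, hyd, hxy⟩ := h.inflated (NN K) hM htriv hx hf hfe
  obtain ⟨y₀, hy₀, hyy⟩ := exists_descent hl hy hyd
  exact ⟨y₀, hy₀, by rw [hyy]; exact hxy⟩

end GC
end
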