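import Pool.Agent.Lib.MP_859dd5_ag.Mg.G034
import Pool.Agent.Lib.MP_859dd5_ag.Mg.G037
import Pool.Agent.Lib.MP_859dd5_ag.Mg.G036
import Pool.Agent.Lib.MP_859dd5_ag.Mg.G060
import Pool.Agent.Lib.MP_859dd5_ag.Mg.G033
import Pool.Agent.Lib.MP_859dd5_ag.Mg.G040

section

/-!
# Classes which are unramified in a Galois extension
-/

namespace GC

universe u v w

variable {K L : Type u} [Field K] [Field L] [Algebra K L] {l : ℕ} [Fact l.Prime] {w : ℕ}

/-- TASK U3. The multiple by the degree of a class which becomes unramified in a finite Galois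
extension is unramified.

PROOF. Let `O` be a valuation ring of `AlgebraicClosure K` whose trace on `K` is a discrete valuation
ring. `φ` is bijective (`ext_bijective`, B5); let `O'` be the valuation ring of `AlgebraicClosure L`
with `O'.comap φ = O` (`ValuationSubring.comap` along the inverse of the bijection; then `subst`). The
trace `R` of `O'` on `L` has as its trace on `K` that of `O` (`hφ`), so it is a discrete valuation ring
by `dvr_of_finite` (V3). So `pullC hφ c` is unramified at `O'`. Let `D`, `I`, `S`, `c₁` be as in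
`transport_unr` (U2). `S` is open in `D` (`isOpen_range_pull`, B5). By `cor_unr` (A21) for the group
`D` (compact: `compactSpace_decomp`, V5), `I` (it acts trivially: `smul_of_mem_inertia`, U0), `S` and
the restriction of `c` to `D` (a cocycle of `D`), there is `c'' ∈ Coch ⊤ I n` with
`S.index • c|_D - c'' ∈ Cobd D n`. Since the image of `pull hφ` is normal in `AbsGal K`, of index the
degree (`exists_quo`, `index_range_pull`, B5), the index of `S` in `D` divides the degree
(`Subgroup.relIndex_dvd_index_of_normal`); multiply by the quotient. -/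
theorem isUnr_of_galois {p : ℕ} [Fact p.Prime] [CharP K p] (hpl : p ≠ l)
    [FiniteDimensional K L] [IsGalois K L]
    {φ : AlgebraicClosure K →+* AlgebraicClosure L} (hφ : Ext (algebraMap K L) φ) {n : ℕ}
    {c : (Fin (n + 1) → AbsGal K) → Tw l w} (hc : c ∈ Cocyc (AbsGal K) (Tw l w) n)
    (hu : IsUnr (pullC l w hφ n c)) : IsUnr (Module.finrank K L • c) := by
  intro O hO
  have hb : Function.Bijective φ := ext_bijective hφ
  obtain ⟨O', rfl⟩ : ∃ O' : ValuationSubring (AlgebraicClosure L), O'.comap φ = O := by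
    refine ⟨O.comap ((RingEquiv.ofBijective φ hb).symm :
      AlgebraicClosure L →+* AlgebraicClosure K), ?_⟩
    ext x
    rw [ValuationSubring.mem_comap, ValuationSubring.mem_comap]
    have h : ((RingEquiv.ofBijective φ hb).symm :
        AlgebraicClosure L →+* AlgebraicClosure K) (φ x) = x :=
      (RingEquiv.ofBijective φ hb).symm_apply_apply x
    rw [h]
  have hR : (O'.comap (algebraMap L (AlgebraicClosure L))).comap (algebraMap K L) =
      (O'.comap φ).comap (algebraMap K (AlgebraicClosure K)) := by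
    ext a
    simp only [ValuationSubring.mem_comap]
    rw [hφ a]
  have hR' : IsDiscreteValuationRing (O'.comap (algebraMap L (AlgebraicClosure L))) := by
    apply dvr_of_finite (K := K)
    rw [hR]
    exact hO
  have h1 : UnrAt O' (pullC l w hφ n c) := hu O' hR'
  have hl : (l : K) ≠ 0 := l_ne_zero hpl
  obtain ⟨c₁, hc₁, h2⟩ := transport_unr hl hφ O' h1
    (((pull hφ).range).subgroupOf ((O'.comap φ).decompositionSubgroup K)) rfl
  have hSo : IsOpen ((((pull hφ).range).subgroupOf
      ((O'.comap φ).decompositionSubgroup K) :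
        Subgroup ((O'.comap φ).decompositionSubgroup K)) :
          Set ((O'.comap φ).decompositionSubgroup K)) :=
    (isOpen_range_pull hφ).preimage continuous_subtype_val
  have hcD : (fun x : Fin (n + 1) → (O'.comap φ).decompositionSubgroup K =>
      c fun i => (x i : AbsGal K)) ∈ Cocyc ((O'.comap φ).decompositionSubgroup K) (Tw l w) n := by
    obtain ⟨⟨ha, _, U, hU, hU'⟩, hd⟩ := hc
    refine ⟨⟨fun g _ x => ?_, fun x u hx => ?_,
      U.subgroupOf ((O'.comap φ).decompositionSubgroup K), ?_, fun x u hx => ?_⟩, ?_⟩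
    · exact ha (g : AbsGal K) (Subgroup.mem_top _) fun i => (x i : AbsGal K)
    · have hu1 : u = fun _ => 1 := by
        funext i
        exact Subgroup.mem_bot.mp (hx i)
      subst hu1
      simp only [mul_one]
    · exact hU.preimage continuous_subtype_val
    · exact hU' (fun i => (x i : AbsGal K)) (fun i => (u i : AbsGal K)) fun i => hx i
    · have hd' : d c = 0 := hd
      change d (fun x : Fin (n + 1) → (O'.comap φ).decompositionSubgroup K =>
        c fun i => (x i : AbsGal K)) = 0
      rw [d_comp (fun y : (O'.comap φ).decompositionSubgroup K => (y : AbsGal K)) c, hd']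
      rfl
  obtain ⟨c'', hc'', h3⟩ := cor_unr (I := (O'.comap φ).inertiaSubgroup K)
    (fun i hi m => smul_of_mem_inertia hpl (O'.comap φ) hi m) hSo hcD hc₁ h2
  have hnormal : ((pull hφ).range).Normal := by
    obtain ⟨quo, _, hk, _⟩ := exists_quo (K := K) (L := L) hφ
    rw [← hk]
    exact MonoidHom.normal_ker quo
  have hdvd : (((pull hφ).range).subgroupOf
      ((O'.comap φ).decompositionSubgroup K)).index ∣ Module.finrank K L := by
    rw [← index_range_pull hφ]
    exact Subgroup.relIndex_dvd_index_of_normal _ _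
  obtain ⟨k, hk⟩ := hdvd
  refine ⟨k • c'', AddSubgroup.nsmul_mem _ hc'' k, ?_⟩
  have h4 := AddSubgroup.nsmul_mem _ h3 k
  have h5 : (fun x : Fin (n + 1) → (O'.comap φ).decompositionSubgroup K =>
      (Module.finrank K L • c) fun i => (x i : AbsGal K)) - k • c'' =
      k • ((((pull hφ).range).subgroupOf
      ((O'.comap φ).decompositionSubgroup K)).index •
        (fun x : Fin (n + 1) → (O'.comap φ).decompositionSubgroup K =>
          c fun i => (x i : AbsGal K)) - c'') := by
    rw [nsmul_sub, ← mul_nsmul, hk]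
    rfl
  rw [h5]
  exact h4

end GC
end

section

/-!
# Gauss valuations
-/

namespace GC

universe u v

variable {K : Type u} [Field K]

lemma w6_val_lt_one_iff {E : Type v} [Field E] (O : ValuationSubring E) (x : E) :
    O.valuation x < 1 ↔ x = 0 ∨ x⁻¹ ∉ O := by
  rcases eq_or_ne x 0 with rfl | hx
  · simp
  · rw [← O.valuation_le_one_iff, map_inv₀, not_le]
    have h0 : 0 < O.valuation x := (Valuation.pos_iff _).2 hx
    rw [one_lt_inv₀ h0]
    simp [hx]

theorem w6_dominate {E : Type v} [Field E] (A : Subring E) (P : Ideal A) [P.IsPrime] :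
    ∃ V : ValuationSubring E, ∀ a : A, V.valuation (a : E) ≤ 1 ∧
      (V.valuation (a : E) < 1 ↔ a ∈ P) := by
  obtain ⟨V, hle, hloc⟩ := (LocalSubring.ofPrime A P).exists_le_valuationSubring
  refine ⟨V, fun a => ?_⟩
  have ha : (a : E) ∈ (LocalSubring.ofPrime A P).toSubring := LocalSubring.le_ofPrime A P a.2
  have haV : (a : E) ∈ V := hle ha
  have h1 : V.valuation (a : E) ≤ 1 := (V.valuation_le_one_iff _).2 haV
  refine ⟨h1, ?_⟩
  have h2 : IsUnit (⟨a, haV⟩ : V) ↔ V.valuation (a : E) = 1 := V.valuation_eq_one_iff _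
  have h3 : IsUnit (algebraMap A (LocalSubring.ofPrime A P).toSubring a) ↔ a ∈ P.primeCompl :=
    IsLocalization.AtPrime.isUnit_to_map_iff _ P a
  have h4 : IsUnit (Subring.inclusion hle (algebraMap A (LocalSubring.ofPrime A P).toSubring a)) ↔
      IsUnit (algebraMap A (LocalSubring.ofPrime A P).toSubring a) := isUnit_map_iff _ _
  have h5 : IsUnit (Subring.inclusion hle (algebraMap A (LocalSubring.ofPrime A P).toSubring a)) ↔
      IsUnit (⟨a, haV⟩ : V) := Iff.rfl
  rw [lt_iff_le_and_ne, and_iff_right h1, Ne, ← h2, ← h5, h4, h3]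
  exact not_not

/-- The valuation ring `O'` of the algebraic closure of `K(t)` is an extension of the valuation ring `O`
of the algebraic closure of `K` by a Gauss valuation: the residue of `t` is transcendental over the
residue field of `O`. -/
structure IsGauss (O : ValuationSubring (AlgebraicClosure K))
    (O' : ValuationSubring (AlgebraicClosure (RatFunc K))) : Prop where
  comap : O'.comap (jj K) = O
  val_le_one : ∀ P : Polynomial (AlgebraicClosure K), (∀ i, P.coeff i ∈ O) →
    O'.valuation (P.eval₂ (jj K) (tt K)) ≤ 1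
  val_lt_one : ∀ P : Polynomial (AlgebraicClosure K), (∀ i, P.coeff i ∈ O) →
    (O'.valuation (P.eval₂ (jj K) (tt K)) < 1 ↔ ∀ i, O.valuation (P.coeff i) < 1)

theorem w6_eval_inj : Function.Injective (Polynomial.eval₂RingHom (jj K) (tt K)) := by
  have h : Polynomial.eval₂RingHom (jj K) (tt K) =
      (iota K).comp (algebraMap (Polynomial (AlgebraicClosure K)) (RatFunc (AlgebraicClosure K))) := by
    apply Polynomial.ringHom_ext
    · intro c
      rw [Polynomial.coe_eval₂RingHom, Polynomial.eval₂_C, RingHom.comp_apply, RatFunc.algebraMap_C,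
        iota_C]
    · rw [Polynomial.coe_eval₂RingHom, Polynomial.eval₂_X, RingHom.comp_apply, RatFunc.algebraMap_X,
        iota_X]
  rw [h, RingHom.coe_comp]
  exact (iota K).injective.comp (RatFunc.algebraMap_injective _)

/-- TASK W6 (first statement). Existence of the Gauss extension.

PROOF. Let `B` be the image of `O[X]` in `AlgebraicClosure (RatFunc K)` under `P ↦ P.eval₂ (jj K) (tt K)`,
an injective ring homomorphism (`exists_iota`, F1: it is `iota K` of the polynomial). The polynomials
with coefficients in the maximal ideal `m` of `O` form a prime ideal of `O[X]`, since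
`O[X] / m[X] = (O / m)[X]` is a domain (`Ideal.isPrime_map_C_of_isPrime`). Let `O'` be a valuation ring
which dominates the localization of `B` at this prime ideal
(`LocalSubring.exists_le_valuationSubring`, `LocalSubring.ofPrime`): it contains `B`, the elements of
the prime ideal are in its maximal ideal, and the other elements of `B` are units of `O'`. This gives
`val_le_one` and `val_lt_one`. `O'.comap (jj K) ≥ O`, and for `c ∉ O`, `c⁻¹ ∈ m`, so `jj K c⁻¹` is in the maximal ideal of
`O'` and `jj K c ∉ O'`. -/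
theorem exists_gauss (O : ValuationSubring (AlgebraicClosure K)) :
    ∃ O' : ValuationSubring (AlgebraicClosure (RatFunc K)), IsGauss O O' := by
  let φ : Polynomial O →+* AlgebraicClosure (RatFunc K) :=
    (Polynomial.eval₂RingHom (jj K) (tt K)).comp (Polynomial.mapRingHom O.subtype)
  have hφ : Function.Injective φ := by
    change Function.Injective ((Polynomial.eval₂RingHom (jj K) (tt K)).comp
      (Polynomial.mapRingHom O.subtype))
    rw [RingHom.coe_comp]
    refine w6_eval_inj.comp ?_
    exact Polynomial.map_injective _ Subtype.val_injective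
  let e : Polynomial O ≃+* φ.range := RingEquiv.ofBijective φ.rangeRestrict
    ⟨fun x y h => hφ (congrArg Subtype.val h), φ.rangeRestrict_surjective⟩
  let m : Ideal (Polynomial O) := Ideal.map Polynomial.C (IsLocalRing.maximalIdeal O)
  have hm : m.IsPrime := Ideal.isPrime_map_C_of_isPrime
  let Q : Ideal φ.range := m.comap (e.symm : φ.range →+* Polynomial O)
  have hQ : Q.IsPrime := Ideal.IsPrime.comap _
  obtain ⟨V, hV⟩ := w6_dominate φ.range Q
  have key : ∀ P : Polynomial (AlgebraicClosure K), (∀ i, P.coeff i ∈ O) →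
      V.valuation (P.eval₂ (jj K) (tt K)) ≤ 1 ∧
        (V.valuation (P.eval₂ (jj K) (tt K)) < 1 ↔ ∀ i, O.valuation (P.coeff i) < 1) := by
    intro P hP
    obtain ⟨q, hq⟩ := (Polynomial.mem_lifts P).1
      ((Polynomial.lifts_iff_coeff_lifts (f := O.subtype) P).2 fun i => ⟨⟨_, hP i⟩, rfl⟩)
    have h1 := hV (e q)
    have h2 : ((e q : φ.range) : AlgebraicClosure (RatFunc K)) = P.eval₂ (jj K) (tt K) := by
      rw [← hq]; rfl
    rw [h2] at h1
    refine ⟨h1.1, h1.2.trans ?_⟩
    have h3 : e q ∈ Q ↔ q ∈ m := by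
      change e.symm (e q) ∈ m ↔ _
      rw [RingEquiv.symm_apply_apply]
    rw [h3]
    refine (Ideal.mem_map_C_iff).trans (forall_congr' fun i => ?_)
    rw [O.valuation_lt_one_iff, ← hq, Polynomial.coeff_map]
    rfl
  refine ⟨V, ?_, fun P hP => (key P hP).1, fun P hP => (key P hP).2⟩
  have hC : ∀ c : AlgebraicClosure K, c ∈ O → jj K c ∈ V ∧ (V.valuation (jj K c) < 1 ↔
      O.valuation c < 1) := by
    intro c hc
    have h1 := key (Polynomial.C c) (fun i => by
      rw [Polynomial.coeff_C]; split_ifs
      · exact hc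
      · exact O.zero_mem)
    rw [Polynomial.eval₂_C] at h1
    refine ⟨(V.valuation_le_one_iff _).1 h1.1, h1.2.trans ?_⟩
    constructor
    · intro h
      simpa using h 0
    · intro h i
      rw [Polynomial.coeff_C]; split_ifs
      · exact h
      · simp
  ext c
  rw [ValuationSubring.mem_comap]
  constructor
  · intro h
    by_contra hc
    have hc0 : c ≠ 0 := by
      rintro rfl
      exact hc O.zero_mem
    have hi : c⁻¹ ∈ O := (O.mem_or_inv_mem c).resolve_left hc
    have h1 : V.valuation (jj K c⁻¹) < 1 := by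
      rw [(hC _ hi).2, w6_val_lt_one_iff, inv_inv]
      exact Or.inr hc
    rw [w6_val_lt_one_iff, map_inv₀, inv_inv] at h1
    rcases h1 with h1 | h1
    · rw [inv_eq_zero, map_eq_zero] at h1
      exact hc0 h1
    · exact h1 h
  · exact fun h => (hC c h).1

/-- Scaling of polynomials: one coefficient of value one. -/
theorem w6_scale {O : ValuationSubring (AlgebraicClosure K)} {π : K} (hπ : IsUnif O π)
    {P : Polynomial K} (hP : P ≠ 0) : ∃ (n : ℤ) (P' : Polynomial K),
      P = Polynomial.C (π ^ n) * P' ∧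
      (∀ i, O.valuation (algebraMap K (AlgebraicClosure K) (P'.coeff i)) ≤ 1) ∧
      (∃ i, O.valuation (algebraMap K (AlgebraicClosure K) (P'.coeff i)) = 1) := by
  obtain ⟨i₀, hi₀, hmax⟩ := Finset.exists_max_image P.support
    (fun i => O.valuation (algebraMap K (AlgebraicClosure K) (P.coeff i)))
    (Polynomial.support_nonempty.2 hP)
  have h0 : P.coeff i₀ ≠ 0 := Polynomial.mem_support_iff.1 hi₀
  obtain ⟨n, hn⟩ := hπ.2.2 _ h0
  have hπ0 : (π ^ n : K) ≠ 0 := zpow_ne_zero _ hπ.1
  have hv0 : O.valuation (algebraMap K (AlgebraicClosure K) (P.coeff i₀)) ≠ 0 := by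
    rw [Valuation.ne_zero_iff, map_ne_zero_iff _ (algebraMap K _).injective]
    exact h0
  have hv : ∀ i, O.valuation (algebraMap K (AlgebraicClosure K)
      ((Polynomial.C (π ^ n)⁻¹ * P).coeff i)) =
      (O.valuation (algebraMap K (AlgebraicClosure K) (P.coeff i₀)))⁻¹ *
        O.valuation (algebraMap K (AlgebraicClosure K) (P.coeff i)) := by
    intro i
    rw [Polynomial.coeff_C_mul, map_mul, map_mul, hn, map_inv₀, map_inv₀, map_zpow₀, map_zpow₀]
  refine ⟨n, Polynomial.C (π ^ n)⁻¹ * P, ?_, fun i => ?_, i₀, ?_⟩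
  · rw [← mul_assoc, ← Polynomial.C_mul, mul_inv_cancel₀ hπ0, Polynomial.C_1, one_mul]
  · rw [hv]
    by_cases hi : i ∈ P.support
    · have h1 := hmax i hi
      calc _ ≤ (O.valuation (algebraMap K (AlgebraicClosure K) (P.coeff i₀)))⁻¹ *
            O.valuation (algebraMap K (AlgebraicClosure K) (P.coeff i₀)) :=
            mul_le_mul_right h1 _
        _ = 1 := inv_mul_cancel₀ hv0
    · rw [Polynomial.notMem_support_iff.1 hi, map_zero, map_zero, mul_zero]
      exact zero_le_one
  · rw [hv, inv_mul_cancel₀ hv0]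

/-- TASK W6 (second statement). The representation of rational functions.

PROOF. `f = P₁ / Q₁` with polynomials over `K`. Multiply each of them by a power of `π` such that all
coefficients are in `O` and one of them has valuation `1` (`IsUnif`: the valuations of the nonzero
coefficients are powers of that of `π`; take the largest one). -/
theorem exists_gauss_repr {O : ValuationSubring (AlgebraicClosure K)} {π : K} (hπ : IsUnif O π)
    {f : RatFunc K} (hf : f ≠ 0) :
    ∃ (n : ℤ) (P Q : Polynomial K),
      (∀ i, O.valuation (algebraMap K (AlgebraicClosure K) (P.coeff i)) ≤ 1) ∧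
      (∀ i, O.valuation (algebraMap K (AlgebraicClosure K) (Q.coeff i)) ≤ 1) ∧
      (∃ i, O.valuation (algebraMap K (AlgebraicClosure K) (P.coeff i)) = 1) ∧
      (∃ i, O.valuation (algebraMap K (AlgebraicClosure K) (Q.coeff i)) = 1) ∧
      f = algebraMap K (RatFunc K) π ^ n * (algebraMap _ (RatFunc K) P / algebraMap _ (RatFunc K) Q) := by
  obtain ⟨n, P, hn, hP1, hP2⟩ := w6_scale hπ (RatFunc.num_ne_zero hf)
  obtain ⟨m, Q, hm, hQ1, hQ2⟩ := w6_scale hπ (RatFunc.denom_ne_zero f)
  refine ⟨n - m, P, Q, hP1, hQ1, hP2, hQ2, ?_⟩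
  have hπ' : algebraMap K (RatFunc K) π ≠ 0 :=
    (map_ne_zero_iff _ (algebraMap K (RatFunc K)).injective).2 hπ.1
  have hC : ∀ j : ℤ, algebraMap (Polynomial K) (RatFunc K) (Polynomial.C (π ^ j)) =
      algebraMap K (RatFunc K) π ^ j := by
    intro j
    rw [RatFunc.algebraMap_C, ← map_zpow₀]
    rfl
  rw [← RatFunc.num_div_denom f, hn, hm, map_mul, map_mul, hC, hC, zpow_sub₀ hπ', mul_div_mul_comm]

/-- TASK W6 (third statement). A uniformizer of `K` is a uniformizer of `K(t)`.

PROOF. By `exists_gauss_repr` and `val_le_one`, `val_lt_one` (for `P`, `Q` mapped to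
`AlgebraicClosure K`: their values in `O'` are `1`): `O'.valuation f = O'.valuation π ^ n`. `O'.valuation π < 1` from `comap`
(`val_comap_lt_one`, V5) and `ext_jj`. -/
theorem IsGauss.unif {O : ValuationSubring (AlgebraicClosure K)}
    {O' : ValuationSubring (AlgebraicClosure (RatFunc K))} (h : IsGauss O O') {π : K}
    (hπ : IsUnif O π) : IsUnif O' (algebraMap K (RatFunc K) π) := by
  have hval : ∀ P : Polynomial K,
      (∀ i, O.valuation (algebraMap K (AlgebraicClosure K) (P.coeff i)) ≤ 1) →
      (∃ i, O.valuation (algebraMap K (AlgebraicClosure K) (P.coeff i)) = 1) →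
      O'.valuation (algebraMap (RatFunc K) (AlgebraicClosure (RatFunc K))
        (algebraMap (Polynomial K) (RatFunc K) P)) = 1 := by
    intro P hP1 hP2
    have h1 : ∀ i, (P.map (algebraMap K (AlgebraicClosure K))).coeff i ∈ O := by
      intro i
      rw [Polynomial.coeff_map]
      exact (O.valuation_le_one_iff _).1 (hP1 i)
    have h2 : (P.map (algebraMap K (AlgebraicClosure K))).eval₂ (jj K) (tt K) =
        algebraMap (RatFunc K) (AlgebraicClosure (RatFunc K))
          (algebraMap (Polynomial K) (RatFunc K) P) := by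
      rw [Polynomial.eval₂_map]
      have h3 : Polynomial.eval₂RingHom ((jj K).comp (algebraMap K (AlgebraicClosure K))) (tt K) =
          (algebraMap (RatFunc K) (AlgebraicClosure (RatFunc K))).comp
            (algebraMap (Polynomial K) (RatFunc K)) := by
        apply Polynomial.ringHom_ext
        · intro c
          rw [Polynomial.coe_eval₂RingHom, Polynomial.eval₂_C, RingHom.comp_apply,
            RingHom.comp_apply, ext_jj K c, RatFunc.algebraMap_C]
          rfl
        · rw [Polynomial.coe_eval₂RingHom, Polynomial.eval₂_X, RingHom.comp_apply,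
            RatFunc.algebraMap_X]
          rfl
      exact DFunLike.congr_fun h3 P
    rw [← h2]
    refine le_antisymm (h.val_le_one _ h1) (not_lt.1 fun h3 => ?_)
    obtain ⟨i, hi⟩ := hP2
    have h4 := (h.val_lt_one _ h1).1 h3 i
    rw [Polynomial.coeff_map, hi] at h4
    exact lt_irrefl _ h4
  refine ⟨(map_ne_zero_iff _ (algebraMap K (RatFunc K)).injective).2 hπ.1, ?_, fun f hf => ?_⟩
  · have h1 := val_comap_lt_one (jj K) O' (algebraMap K (AlgebraicClosure K) π)
    rw [h.comap, ext_jj K π] at h1
    exact h1.1 hπ.2.1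
  · obtain ⟨n, P, Q, hP1, hQ1, hP2, hQ2, hfe⟩ := exists_gauss_repr hπ hf
    refine ⟨n, ?_⟩
    rw [hfe, map_mul, map_mul, map_zpow₀, map_zpow₀, map_div₀, map_div₀, hval P hP1 hP2,
      hval Q hQ1 hQ2, div_one, mul_one]

end GC
end

section

/-!
# The homomorphisms on the inertia groups of a Gauss extension
-/

namespace GC

universe u v

variable {K : Type u} [Field K] {l : ℕ} [Fact l.Prime] {w : ℕ} {p : ℕ} [Fact p.Prime] [CharP K p]

/-- The restriction of automorphisms, on the decomposition groups. -/
noncomputable def rsD {O : ValuationSubring (AlgebraicClosure K)}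
    {O' : ValuationSubring (AlgebraicClosure (RatFunc K))} (h : O'.comap (jj K) = O) :
    O'.decompositionSubgroup (RatFunc K) →* O.decompositionSubgroup K where
  toFun g := ⟨rs K g, by
    subst h
    exact decomp_comap (K := K) (K' := RatFunc K) (jj K) O' (g := rs K g)
      (g' := (g : AbsGal (RatFunc K))) (fun x => jj_rs _ x) g.2⟩
  map_one' := Subtype.ext (map_one (rs K))
  map_mul' g g' := Subtype.ext (map_mul (rs K) _ _)

@[simp] lemma rsD_coe {O : ValuationSubring (AlgebraicClosure K)}
    {O' : ValuationSubring (AlgebraicClosure (RatFunc K))} (h : O'.comap (jj K) = O)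
    (g : O'.decompositionSubgroup (RatFunc K)) : ((rsD h g : O.decompositionSubgroup K) : AbsGal K) =
      rs K g := rfl

lemma continuous_rsD {O : ValuationSubring (AlgebraicClosure K)}
    {O' : ValuationSubring (AlgebraicClosure (RatFunc K))} (h : O'.comap (jj K) = O) :
    Continuous (rsD h) :=
  Continuous.subtype_mk ((continuous_pull (ext_jj K)).comp continuous_subtype_val) _

lemma rsD_inertia {O : ValuationSubring (AlgebraicClosure K)}
    {O' : ValuationSubring (AlgebraicClosure (RatFunc K))} (h : O'.comap (jj K) = O) :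
    ∀ g ∈ O'.inertiaSubgroup (RatFunc K), rsD h g ∈ O.inertiaSubgroup K := by
  subst h
  exact fun g hg => inertia_comap (K := K) (K' := RatFunc K) (jj K) O'
    (g := rsD rfl g) (fun x => jj_rs _ x) hg

/-- The twist of the embedding `jj`, acting on the Tate twist. -/
noncomputable def twJ (K : Type u) [Field K] (l : ℕ) [Fact l.Prime] (w : ℕ) : Tw l w →+ Tw l w where
  toFun m := (((twist l (jj K)) ^ w : ℤ_[l]ˣ) : ℤ_[l]) • m
  map_zero' := smul_zero _
  map_add' := smul_add _

lemma twJ_apply (m : Tw l w) :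
    twJ K l w m = (((twist l (jj K)) ^ w : ℤ_[l]ˣ) : ℤ_[l]) • m := rfl

/-- TASK W10 (first statement). Equivariance of the twist.

PROOF. `cyc_pull` (B2) for `ext_jj K`: `rs K g` and `g` act on `Tw l w` in the same way; the scalars
commute (`smul_comm`). -/
theorem twJ_smul (hl : (l : K) ≠ 0) {O : ValuationSubring (AlgebraicClosure K)}
    {O' : ValuationSubring (AlgebraicClosure (RatFunc K))} (h : O'.comap (jj K) = O)
    (g : O'.decompositionSubgroup (RatFunc K)) (m : Tw l w) :
    twJ K l w (rsD h g • m) = g • twJ K l w m := by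
  have h1 : rsD h g • m = (pull (ext_jj K) (g : AbsGal (RatFunc K)) : AbsGal K) • m := rfl
  have h2 : g • twJ K l w m = (g : AbsGal (RatFunc K)) • twJ K l w m := rfl
  rw [h1, h2, twJ_apply, twJ_apply, Tw.smul_def, Tw.smul_def,
    cyc_pull hl (ext_jj K) (g : AbsGal (RatFunc K)), smul_comm]

omit [Fact l.Prime] in
private lemma w10_ne {Ω : Type u} [Field Ω] {r : ℕ → Ω} (hl : l ≠ 0) (h0 : r 0 ≠ 0)
    (hr : ∀ n, r (n + 1) ^ l = r n) (n : ℕ) : r n ≠ 0 := by
  induction n with
  | zero => exact h0
  | succ n ih =>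
    intro h
    apply ih
    rw [← hr n, h, zero_pow hl]

/-- The tame character is additive. -/
private lemma w10_add (hpl : p ≠ l) {O : ValuationSubring (AlgebraicClosure K)}
    {r : ℕ → AlgebraicClosure K} (hr0 : ∀ n, r n ≠ 0)
    {κ : O.inertiaSubgroup K → ℤ_[l]}
    (hκ : ∀ (i : O.inertiaSubgroup K) (n : ℕ), ((i : O.decompositionSubgroup K) : AbsGal K) (r n) =
        zlPow l n (eps (AlgebraicClosure K) l n) (κ i) * r n) (i j : O.inertiaSubgroup K) :
    κ (i * j) = κ i + κ j := by
  have hl : (l : AlgebraicClosure K) ≠ 0 := l_ne_zero (K := AlgebraicClosure K) hpl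
  apply PadicInt.ext_of_toZModPow.1
  intro n
  have hε := (isEps_eps (Ω := AlgebraicClosure K) (l := l) hl).1 n
  rw [← zlPow_eq_iff hε, zlPow_add hε.pow_eq_one]
  apply mul_right_cancel₀ (hr0 n)
  rw [← hκ (i * j) n]
  have h1 : ((((i * j : O.inertiaSubgroup K) : O.decompositionSubgroup K) : AbsGal K)) (r n) =
      ((i : O.decompositionSubgroup K) : AbsGal K)
        (((j : O.decompositionSubgroup K) : AbsGal K) (r n)) := rfl
  have h2 : zlPow l n (eps (AlgebraicClosure K) l n) (κ j) ^ l ^ n = 1 := by
    unfold zlPow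
    rw [← pow_mul, mul_comm, pow_mul, hε.pow_eq_one, one_pow]
  rw [h1, hκ j n, map_mul, inertia_fix_root hpl O i.2 h2, hκ i n]
  ring

/-- The homomorphisms attached to the tame character. -/
private lemma w10_exists (hpl : p ≠ l) {O : ValuationSubring (AlgebraicClosure K)}
    {r : ℕ → AlgebraicClosure K} (hr0 : ∀ n, r n ≠ 0)
    {κ : O.inertiaSubgroup K → ℤ_[l]}
    (hκ : ∀ (i : O.inertiaSubgroup K) (n : ℕ), ((i : O.decompositionSubgroup K) : AbsGal K) (r n) =
        zlPow l n (eps (AlgebraicClosure K) l n) (κ i) * r n) (m : Tw l w) :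
    ∃ ψ : HomM (O.inertiaSubgroup K) (Tw l w), ∀ i, ψ i = κ i • m := by
  have hl : (l : AlgebraicClosure K) ≠ 0 := l_ne_zero (K := AlgebraicClosure K) hpl
  refine ⟨⟨fun i => κ i • m, fun i j => ?_, ?_⟩, fun i => rfl⟩
  · change κ (i * j) • m = _
    rw [w10_add hpl hr0 hκ, add_smul]
  · obtain ⟨n, hn⟩ := exists_pow_smul m
    have hε := (isEps_eps (Ω := AlgebraicClosure K) (l := l) hl).1 n
    refine ⟨(MulAction.stabilizer (AbsGal K) (r n)).comap (O.decompositionSubgroup K).subtype,
      ?_, fun i hi => ?_⟩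
    · exact (stabilizer_isOpen_of_isIntegral (K := K) (r n)).preimage continuous_subtype_val
    · have h1 : ((i : O.decompositionSubgroup K) : AbsGal K) (r n) = r n := hi
      change κ i • m = 0
      refine zl_smul_eq_zero hn ?_
      have h2 : zlPow l n (eps (AlgebraicClosure K) l n) (κ i) =
          zlPow l n (eps (AlgebraicClosure K) l n) 0 := by
        have h3 : zlPow l n (eps (AlgebraicClosure K) l n) (κ i) = 1 := by
          apply mul_right_cancel₀ (hr0 n)
          rw [← hκ i n, h1, one_mul]
        rw [h3]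
        unfold zlPow
        rw [map_zero]
        simp
      rw [zlPow_eq_iff hε, map_zero] at h2
      exact h2

/-- TASK W10 (second statement). The homomorphisms on the two inertia groups correspond.

PROOF. Let `π` be a uniformizer of `K`, `r` a system of roots of `π` in `AlgebraicClosure K`
(`IsAlgClosed.exists_pow_nat_eq`), `κ` the tame character of `O` (`exists_tame`, W4). `jj K (r n)` is a
system of roots of `algebraMap π`, which is a uniformizer of `K(t)` for `O'` (`IsGauss.unif`, W6); let `κ'`
be the tame character of `O'` (`exists_tame` for the field `RatFunc K`). For `i'` in the inertia group of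
`O'`: `i' (jj (r n)) = jj (rs i' (r n)) = jj (zlPow (eps n) (κ (rsD i'))) * jj (r n)`, and
`jj (eps n) = zlPow (eps n) (twist jj)` (`twist_spec`, `map_zlPow`, `zlPow_mul`, B1), so
`κ' i' = twist jj * κ (rsD i')` (`exists_zl`: uniqueness). (1)
Let `ψ' : HomM I' (Tw l w)`; `ψ' i' = κ' i' • m'` for some `m'`, so
`ψ' i' = κ (rsD i') • (twist jj • m') = twJ (κ (rsD i') • m)` with
`m = ((twist jj)^w)⁻¹ • twist jj • m'`. The homomorphism `ψ i = κ i • m` of `I` (additive: `κ` is
additive, as in `kap_mul`; smooth, as in `exists_kum`, F5) satisfies `pull ψ = ψ'`: surjectivity.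
Injectivity: if `pull ψ = 0`, `ψ i = κ i • m` (`exists_tame`), then `κ' i' • m = 0` for all `i'`, up to a
unit, and `κ' i'` is a unit for some `i'`; so `m = 0`. -/
theorem hom_pull_bijective (hpl : p ≠ l) {O : ValuationSubring (AlgebraicClosure K)}
    {O' : ValuationSubring (AlgebraicClosure (RatFunc K))} (h : IsGauss O O') {π : K}
    (hπ : IsUnif O π) :
    Function.Bijective (HomM.pull (rsD h.comap) (continuous_rsD h.comap) (twJ K l w)
      (rsD_inertia h.comap)) := by
  have hlp : l.Prime := Fact.out
  have hl : (l : AlgebraicClosure K) ≠ 0 := l_ne_zero (K := AlgebraicClosure K) hpl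
  have hch : CharP (RatFunc K) p := charP_of_injective_algebraMap
    (algebraMap K (RatFunc K)).injective p
  have hl' : (l : AlgebraicClosure (RatFunc K)) ≠ 0 :=
    l_ne_zero (K := AlgebraicClosure (RatFunc K)) hpl
  obtain ⟨f, hf⟩ := Classical.axiomOfChoice (fun x : AlgebraicClosure K =>
    IsAlgClosed.exists_pow_nat_eq x hlp.pos)
  let r : ℕ → AlgebraicClosure K := fun n =>
    Nat.rec (algebraMap K (AlgebraicClosure K) π) (fun _ x => f x) n
  have h0 : r 0 = algebraMap K _ π := rfl
  have hr : ∀ n, r (n + 1) ^ l = r n := fun n => hf _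
  have hr0 : ∀ n, r n ≠ 0 := w10_ne hlp.ne_zero (by
    rw [h0]
    exact (map_ne_zero _).2 hπ.1) hr
  obtain ⟨κ, hκ, -, hψ⟩ := exists_tame (w := w) hpl hπ h0 hr
  have h0' : jj K (r 0) = algebraMap (RatFunc K) _ (algebraMap K (RatFunc K) π) := by
    rw [h0]
    exact ext_jj K π
  have hr' : ∀ n, jj K (r (n + 1)) ^ l = jj K (r n) := fun n => by rw [← map_pow, hr]
  have hr0' : ∀ n, jj K (r n) ≠ 0 := fun n => (map_ne_zero _).2 (hr0 n)
  obtain ⟨κ', hκ', ⟨i₀, hi₀⟩, hψ'⟩ := exists_tame (w := w) (K := RatFunc K) hpl (h.unif hπ)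
    (r := fun n => jj K (r n)) h0' hr'
  have key : ∀ i' : O'.inertiaSubgroup (RatFunc K), κ' i' =
      ((twist l (jj K) : ℤ_[l]ˣ) : ℤ_[l]) *
        κ ⟨rsD h.comap i', rsD_inertia h.comap i' i'.2⟩ := by
    intro i'
    apply PadicInt.ext_of_toZModPow.1
    intro n
    have hε' := (isEps_eps (Ω := AlgebraicClosure (RatFunc K)) (l := l) hl').1 n
    rw [← zlPow_eq_iff hε', zlPow_mul hε'.pow_eq_one, ← twist_spec hl (jj K) n]
    apply mul_right_cancel₀ (hr0' n)
    rw [← hκ' i' n, ← map_zlPow, ← map_mul,
      ← hκ ⟨rsD h.comap i', rsD_inertia h.comap i' i'.2⟩ n]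
    exact (jj_rs _ _).symm
  constructor
  · rw [injective_iff_map_eq_zero]
    intro ψ h1
    obtain ⟨m, hm⟩ := hψ ψ
    have h2 : (HomM.pull (rsD h.comap) (continuous_rsD h.comap) (twJ K l w)
      (rsD_inertia h.comap) ψ) i₀ = 0 := by
      rw [h1]
      rfl
    rw [HomM.pull_apply, twJ_apply, hm] at h2
    have h3 : κ ⟨rsD h.comap i₀, rsD_inertia h.comap i₀ i₀.2⟩ • m = 0 := by
      have h4 := congrArg (fun y => (((twist l (jj K) ^ w)⁻¹ : ℤ_[l]ˣ) : ℤ_[l]) • y) h2
      simp only [smul_smul, smul_zero] at h4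
      rw [← mul_assoc, Units.inv_mul, one_mul] at h4
      exact h4
    have h5 : κ' i₀ • m = 0 := by
      rw [key i₀, mul_smul, h3, smul_zero]
    have h6 : m = 0 := by
      obtain ⟨u, hu⟩ := hi₀
      have h7 := congrArg (fun y => ((u⁻¹ : ℤ_[l]ˣ) : ℤ_[l]) • y) h5
      simp only [smul_smul, smul_zero] at h7
      rw [← hu, Units.inv_mul, one_smul] at h7
      exact h7
    apply HomM.ext'
    intro i
    rw [hm, h6, smul_zero]
    rfl
  · intro ψ'
    obtain ⟨m', hm'⟩ := hψ' ψ'
    obtain ⟨ψ, hψm⟩ := w10_exists (w := w) hpl hr0 hκ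
      ((((twist l (jj K) ^ w)⁻¹ : ℤ_[l]ˣ) : ℤ_[l]) • ((twist l (jj K) : ℤ_[l]ˣ) : ℤ_[l]) • m')
    refine ⟨ψ, HomM.ext' fun i' => ?_⟩
    rw [HomM.pull_apply, twJ_apply, hψm, hm', key i']
    simp only [smul_smul]
    congr 1
    have h8 : ((twist l (jj K) ^ w : ℤ_[l]ˣ) : ℤ_[l]) *
        (((twist l (jj K) ^ w)⁻¹ : ℤ_[l]ˣ) : ℤ_[l]) = 1 := Units.mul_inv _
    calc _ = ((twist l (jj K) ^ w : ℤ_[l]ˣ) : ℤ_[l]) *
        (((twist l (jj K) ^ w)⁻¹ : ℤ_[l]ˣ) : ℤ_[l]) *
        (κ ⟨rsD h.comap i', rsD_inertia h.comap i' i'.2⟩ *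
          ((twist l (jj K) : ℤ_[l]ˣ) : ℤ_[l])) := by ring
      _ = _ := by rw [h8, one_mul, mul_comm]

end GC
end

section

/-!
# The section modulo the inertia group
-/

namespace GC

universe u v

variable {K : Type u} [Field K]

/-- The homomorphism of the residue fields. -/
noncomputable def resJ {O : ValuationSubring (AlgebraicClosure K)}
    {O' : ValuationSubring (AlgebraicClosure (RatFunc K))} (h : O'.comap (jj K) = O) :
    IsLocalRing.ResidueField O →+* IsLocalRing.ResidueField O' :=
  Ideal.Quotient.lift _ ((IsLocalRing.residue O').comp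
    ((jj K).restrict O O' fun x hx => by
      subst h
      exact hx)) fun x hx => by
    subst h
    have hx' : (O'.comap (jj K)).valuation (x : AlgebraicClosure K) < 1 :=
      ((O'.comap (jj K)).valuation_lt_one_iff x).mp hx
    rw [RingHom.comp_apply, IsLocalRing.residue_eq_zero_iff]
    refine (O'.valuation_lt_one_iff _).mpr ?_
    exact (val_comap_lt_one (jj K) O' x).mp hx'

lemma resJ_residue {O : ValuationSubring (AlgebraicClosure K)}
    {O' : ValuationSubring (AlgebraicClosure (RatFunc K))} (h : O'.comap (jj K) = O) (x : O)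
    (hx : jj K x ∈ O') :
    resJ h (IsLocalRing.residue O x) = IsLocalRing.residue O' ⟨jj K x, hx⟩ := rfl

/-- The action of the decomposition group on the residue field. -/
noncomputable def resAct {K : Type u} {Ω : Type v} [Field K] [Field Ω] [Algebra K Ω]
    (O : ValuationSubring Ω) (g : O.decompositionSubgroup K) :
    IsLocalRing.ResidueField O ≃+* IsLocalRing.ResidueField O :=
  MulSemiringAction.toRingAut (O.decompositionSubgroup K) (IsLocalRing.ResidueField O) g

lemma resAct_residue {K : Type u} {Ω : Type v} [Field K] [Field Ω] [Algebra K Ω]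
    (O : ValuationSubring Ω) (g : O.decompositionSubgroup K) (x : O) :
    resAct O g (IsLocalRing.residue O x) = IsLocalRing.residue O (g • x) := rfl

lemma mem_inertia_iff_resAct {K : Type u} {Ω : Type v} [Field K] [Field Ω] [Algebra K Ω]
    (O : ValuationSubring Ω) (g : O.decompositionSubgroup K) :
    g ∈ O.inertiaSubgroup K ↔ resAct O g = RingEquiv.refl _ := Iff.rfl

lemma resAct_mul {K : Type u} {Ω : Type v} [Field K] [Field Ω] [Algebra K Ω]
    (O : ValuationSubring Ω) (g h : O.decompositionSubgroup K) (x : IsLocalRing.ResidueField O) :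
    resAct O (g * h) x = resAct O g (resAct O h x) := by
  unfold resAct
  rw [map_mul]
  rfl

/-- TASK W7 (first statement). The residue field is algebraically closed.

PROOF. `IsAlgClosed.of_exists_root`: lift a monic polynomial to a monic polynomial over `O`
(`Polynomial.lifts_and_natDegree_eq_and_monic`), of positive degree; it has a root in `Ω`, which is
integral over `O`, so in `O`; its residue is a root. -/
theorem isAlgClosed_residue {Ω : Type v} [Field Ω] [IsAlgClosed Ω] (O : ValuationSubring Ω) :
    IsAlgClosed (IsLocalRing.ResidueField O) := by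
  refine IsAlgClosed.of_exists_root _ fun P hP hirr => ?_
  have hl : P ∈ Polynomial.lifts (IsLocalRing.residue O) := by
    rw [Polynomial.lifts_iff_coeff_lifts]
    intro n
    exact IsLocalRing.residue_surjective _
  obtain ⟨Q, hQ1, hQ2, hQ3⟩ := Polynomial.lifts_and_natDegree_eq_and_monic hl hP
  have hdeg : (Q.map (algebraMap O Ω)).degree ≠ 0 := by
    rw [hQ3.degree_map]
    intro h
    have h2 : Q.natDegree = 0 := Polynomial.natDegree_eq_of_degree_eq_some h
    rw [hQ2] at h2
    exact hirr.natDegree_pos.ne' h2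
  obtain ⟨x, hx⟩ := IsAlgClosed.exists_root _ hdeg
  have hint : IsIntegral O x := ⟨Q, hQ3, by
    rwa [Polynomial.IsRoot.def, Polynomial.eval_map] at hx⟩
  obtain ⟨y, rfl⟩ := IsIntegrallyClosed.isIntegral_iff.mp hint
  refine ⟨IsLocalRing.residue O y, ?_⟩
  have h3 : Polynomial.eval y Q = 0 := by
    apply IsFractionRing.injective O Ω
    rw [map_zero, ← Polynomial.eval₂_at_apply, ← Polynomial.eval_map]
    exact hx
  rw [← hQ1, Polynomial.eval_map, Polynomial.eval₂_at_apply, h3, map_zero]

lemma IsGauss.tt_mem {O : ValuationSubring (AlgebraicClosure K)}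
    {O' : ValuationSubring (AlgebraicClosure (RatFunc K))} (h : IsGauss O O') : tt K ∈ O' := by
  have h1 := h.val_le_one Polynomial.X fun i => by
    rw [Polynomial.coeff_X]
    split_ifs
    · exact O.one_mem
    · exact O.zero_mem
  rw [Polynomial.eval₂_X] at h1
  exact (O'.valuation_le_one_iff _).mp h1

section w7

variable {O : ValuationSubring (AlgebraicClosure K)}
  {O' : ValuationSubring (AlgebraicClosure (RatFunc K))}

/-- The homomorphism of the valuation rings. -/
noncomputable def w7_jO (h : O'.comap (jj K) = O) : O →+* O' :=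
  (jj K).restrict O O' fun x hx => by
    subst h
    exact hx

/-- The evaluation at the variable. -/
noncomputable def w7_th (h : IsGauss O O') : Polynomial O →+* O' :=
  Polynomial.eval₂RingHom (w7_jO h.comap) ⟨tt K, h.tt_mem⟩

/-- The evaluation at the residue of the variable. -/
noncomputable def w7_ep (h : IsGauss O O') :
    Polynomial (IsLocalRing.ResidueField O) →+* IsLocalRing.ResidueField O' :=
  Polynomial.eval₂RingHom (resJ h.comap) (IsLocalRing.residue O' ⟨tt K, h.tt_mem⟩)

lemma w7_th_val (h : IsGauss O O') (P : Polynomial O) :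
    ((w7_th h P : O') : AlgebraicClosure (RatFunc K)) =
      (P.map O.subtype).eval₂ (jj K) (tt K) := by
  rw [Polynomial.eval₂_map]
  change O'.subtype (Polynomial.eval₂ (w7_jO h.comap) ⟨tt K, h.tt_mem⟩ P) = _
  rw [Polynomial.hom_eval₂]
  rfl

lemma w7_ep_map (h : IsGauss O O') (P : Polynomial O) :
    w7_ep h (P.map (IsLocalRing.residue O)) = IsLocalRing.residue O' (w7_th h P) := by
  change Polynomial.eval₂ _ _ _ = IsLocalRing.residue O' (Polynomial.eval₂ _ _ _)
  rw [Polynomial.eval₂_map, Polynomial.hom_eval₂]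
  rfl

lemma w7_res_zero {Ω : Type v} [Field Ω] (A : ValuationSubring Ω) (x : A) :
    IsLocalRing.residue A x = 0 ↔ A.valuation (x : Ω) < 1 := by
  rw [IsLocalRing.residue_eq_zero_iff, ValuationSubring.valuation_lt_one_iff]

lemma w7_ep_inj (h : IsGauss O O') (P : Polynomial (IsLocalRing.ResidueField O))
    (hP : w7_ep h P = 0) : P = 0 := by
  obtain ⟨Q, rfl⟩ := Polynomial.map_surjective _ IsLocalRing.residue_surjective P
  rw [w7_ep_map, w7_res_zero, w7_th_val, h.val_lt_one] at hP
  · ext i
    rw [Polynomial.coeff_map, Polynomial.coeff_zero, w7_res_zero]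
    have h1 := hP i
    rwa [Polynomial.coeff_map] at h1
  · intro i
    rw [Polynomial.coeff_map]
    exact (Q.coeff i).2

/-- The coefficients of the polynomial `P` are residues of elements of `K`. -/
def w7_K (O : ValuationSubring (AlgebraicClosure K))
    (P : Polynomial (IsLocalRing.ResidueField O)) : Prop :=
  ∀ i, ∃ (a : K) (ha : algebraMap K (AlgebraicClosure K) a ∈ O),
    P.coeff i = IsLocalRing.residue O ⟨_, ha⟩

lemma w7_algMap (P : Polynomial K) :
    algebraMap (RatFunc K) (AlgebraicClosure (RatFunc K)) (algebraMap _ (RatFunc K) P) =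
      (P.map (algebraMap K (AlgebraicClosure K))).eval₂ (jj K) (tt K) := by
  have h : ((algebraMap (RatFunc K) (AlgebraicClosure (RatFunc K))).comp
      (algebraMap (Polynomial K) (RatFunc K))) =
      (Polynomial.eval₂RingHom ((jj K).comp (algebraMap K (AlgebraicClosure K))) (tt K)) := by
    apply Polynomial.ringHom_ext
    · intro a
      rw [RingHom.comp_apply, Polynomial.coe_eval₂RingHom, Polynomial.eval₂_C,
        RingHom.comp_apply, ext_jj K a, RatFunc.algebraMap_C]
      rfl
    · rw [RingHom.comp_apply, Polynomial.coe_eval₂RingHom, Polynomial.eval₂_X,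
        RatFunc.algebraMap_X]
      rfl
  rw [Polynomial.eval₂_map]
  exact congrArg (fun f => f P) h

/-- The polynomials over `K` with coefficients in `O`. -/
lemma w7_lift (h : IsGauss O O') (P : Polynomial K)
    (hP : ∀ i, O.valuation (algebraMap K (AlgebraicClosure K) (P.coeff i)) ≤ 1) :
    ∃ Q : Polynomial O, w7_K O (Q.map (IsLocalRing.residue O)) ∧
      ((w7_th h Q : O') : AlgebraicClosure (RatFunc K)) =
        algebraMap (RatFunc K) (AlgebraicClosure (RatFunc K)) (algebraMap _ (RatFunc K) P) ∧
      ∀ i, ((Q.coeff i : O) : AlgebraicClosure K) = algebraMap K (AlgebraicClosure K) (P.coeff i) := by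
  have h1 : P.map (algebraMap K (AlgebraicClosure K)) ∈ Polynomial.lifts O.subtype := by
    rw [Polynomial.lifts_iff_coeff_lifts]
    intro n
    rw [Polynomial.coeff_map]
    exact ⟨⟨_, (O.valuation_le_one_iff _).mp (hP n)⟩, rfl⟩
  obtain ⟨Q, hQ⟩ := (Polynomial.mem_lifts _).mp h1
  have h2 : ∀ i, ((Q.coeff i : O) : AlgebraicClosure K) =
      algebraMap K (AlgebraicClosure K) (P.coeff i) := by
    intro i
    have h3 := congrArg (fun p => p.coeff i) hQ
    simp only [Polynomial.coeff_map] at h3
    exact h3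
  refine ⟨Q, fun i => ?_, ?_, h2⟩
  · refine ⟨P.coeff i, (O.valuation_le_one_iff _).mp (hP i), ?_⟩
    rw [Polynomial.coeff_map]
    congr 1
    exact Subtype.ext (h2 i)
  · rw [w7_th_val, hQ, w7_algMap]

lemma w7_good (h : IsGauss O O') {π : K} (hπ : IsUnif O π) (f : RatFunc K)
    (hf : algebraMap (RatFunc K) (AlgebraicClosure (RatFunc K)) f ∈ O') :
    ∃ N D : Polynomial (IsLocalRing.ResidueField O), w7_K O N ∧ w7_K O D ∧ D ≠ 0 ∧
      IsLocalRing.residue O' ⟨_, hf⟩ * w7_ep h D = w7_ep h N := by
  have hK0 : w7_K O 0 := fun i => ⟨0, by rw [map_zero]; exact O.zero_mem, by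
    rw [Polynomial.coeff_zero]
    exact ((w7_res_zero O _).mpr (by simp)).symm⟩
  have hK1 : w7_K O 1 := fun i => by
    by_cases hi : i = 0
    · subst hi
      refine ⟨1, by rw [map_one]; exact O.one_mem, ?_⟩
      rw [Polynomial.coeff_one_zero, ← map_one (IsLocalRing.residue O)]
      exact congrArg (IsLocalRing.residue O) (Subtype.ext (map_one _).symm)
    · refine ⟨0, by rw [map_zero]; exact O.zero_mem, ?_⟩
      rw [Polynomial.coeff_one, if_neg hi]
      exact ((w7_res_zero O _).mpr (by simp)).symm
  by_cases h0 : IsLocalRing.residue O' ⟨_, hf⟩ = 0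
  · exact ⟨0, 1, hK0, hK1, one_ne_zero, by rw [h0, zero_mul, map_zero]⟩
  have hf0 : f ≠ 0 := by
    rintro rfl
    exact h0 ((w7_res_zero O' _).mpr (by simp))
  obtain ⟨n, P, Q, hP, hQ, ⟨i, hPi⟩, ⟨j, hQj⟩, hfe⟩ := exists_gauss_repr hπ hf0
  obtain ⟨P1, hP1, hP2, hP3⟩ := w7_lift h P hP
  obtain ⟨Q1, hQ1, hQ2, hQ3⟩ := w7_lift h Q hQ
  have hne : ∀ (R : Polynomial O) (i : ℕ), O.valuation ((R.coeff i : O) : AlgebraicClosure K) = 1 →
      R.map (IsLocalRing.residue O) ≠ 0 := by
    intro R i hR h1
    have h2 : (R.map (IsLocalRing.residue O)).coeff i = 0 := by rw [h1, Polynomial.coeff_zero]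
    rw [Polynomial.coeff_map, w7_res_zero, hR] at h2
    exact lt_irrefl _ h2
  have hPn := hne P1 i (by rw [hP3, hPi])
  have hQn := hne Q1 j (by rw [hQ3, hQj])
  have hval : ∀ R : Polynomial O, R.map (IsLocalRing.residue O) ≠ 0 →
      O'.valuation ((w7_th h R : O') : AlgebraicClosure (RatFunc K)) = 1 := by
    intro R hR
    refine le_antisymm ((O'.valuation_le_one_iff _).mpr (w7_th h R).2) (not_lt.mp fun h1 => hR ?_)
    apply w7_ep_inj h
    rw [w7_ep_map, w7_res_zero]
    exact h1
  have hvP := hval P1 hPn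
  have hvQ := hval Q1 hQn
  have hq0 : ((w7_th h Q1 : O') : AlgebraicClosure (RatFunc K)) ≠ 0 := by
    intro h1
    rw [h1, map_zero] at hvQ
    exact zero_ne_one hvQ
  set π' := algebraMap (RatFunc K) (AlgebraicClosure (RatFunc K)) (algebraMap K (RatFunc K) π)
    with hπ'
  have hfe' : algebraMap (RatFunc K) (AlgebraicClosure (RatFunc K)) f *
      ((w7_th h Q1 : O') : AlgebraicClosure (RatFunc K)) =
        π' ^ n * ((w7_th h P1 : O') : AlgebraicClosure (RatFunc K)) := by
    rw [hfe, map_mul, map_zpow₀, map_div₀, ← hP2, ← hQ2, mul_assoc, div_mul_cancel₀ _ hq0]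
  obtain ⟨hu1, hu2, -⟩ := h.unif hπ
  have hvπ0 : O'.valuation π' ≠ 0 := by
    rw [Valuation.ne_zero_iff]
    exact (map_ne_zero _).mpr hu1
  have hvf : O'.valuation (algebraMap (RatFunc K) (AlgebraicClosure (RatFunc K)) f) =
      O'.valuation π' ^ n := by
    have h1 := congrArg O'.valuation hfe'
    rwa [map_mul, map_mul, hvP, hvQ, mul_one, mul_one, map_zpow₀] at h1
  have hf1 : O'.valuation (algebraMap (RatFunc K) (AlgebraicClosure (RatFunc K)) f) = 1 := by
    refine le_antisymm ((O'.valuation_le_one_iff _).mpr hf) (not_lt.mp fun h1 => h0 ?_)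
    exact (w7_res_zero O' _).mpr h1
  have hn : n = 0 := by
    rw [hvf] at hf1
    by_contra hn
    rcases lt_or_gt_of_ne hn with hn | hn
    · have h1 : 1 < O'.valuation π' ^ n := one_lt_zpow_of_neg₀ (zero_lt_iff.mpr hvπ0) hu2 hn
      exact h1.ne' hf1
    · have h1 : O'.valuation π' ^ n < 1 := zpow_lt_one₀ (zero_lt_iff.mpr hvπ0) hu2 hn
      exact h1.ne hf1
  refine ⟨P1.map (IsLocalRing.residue O), Q1.map (IsLocalRing.residue O), hP1, hQ1, hQn, ?_⟩
  rw [w7_ep_map, w7_ep_map, ← map_mul]
  congr 1
  apply Subtype.ext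
  rw [hn, zpow_zero, one_mul] at hfe'
  exact hfe'

lemma w7_alg0 (O' : ValuationSubring (AlgebraicClosure (RatFunc K)))
    (z : IsLocalRing.ResidueField O') :
    ∃ P : Polynomial (IsLocalRing.ResidueField O'), P ≠ 0 ∧ P.eval z = 0 ∧
      ∀ i, ∃ (f : RatFunc K) (hf : algebraMap (RatFunc K) (AlgebraicClosure (RatFunc K)) f ∈ O'),
        P.coeff i = IsLocalRing.residue O' ⟨_, hf⟩ := by
  obtain ⟨x, rfl⟩ := IsLocalRing.residue_surjective z
  obtain ⟨P, hP0, hP⟩ := Algebra.IsAlgebraic.isAlgebraic (R := RatFunc K)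
    ((x : O') : AlgebraicClosure (RatFunc K))
  obtain ⟨i0, hi0, hmax⟩ := Finset.exists_max_image P.support
    (fun i => O'.valuation (algebraMap _ (AlgebraicClosure (RatFunc K)) (P.coeff i)))
    (Polynomial.support_nonempty.mpr hP0)
  set a := P.coeff i0 with ha
  have ha0 : a ≠ 0 := Polynomial.mem_support_iff.mp hi0
  have haΩ : O'.valuation (algebraMap (RatFunc K) (AlgebraicClosure (RatFunc K)) a) ≠ 0 := by
    rw [Valuation.ne_zero_iff]
    exact (map_ne_zero _).mpr ha0
  set P1 := Polynomial.C a⁻¹ * P with hP1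
  have hmem : ∀ i, algebraMap (RatFunc K) (AlgebraicClosure (RatFunc K)) (P1.coeff i) ∈ O' := by
    intro i
    rw [← O'.valuation_le_one_iff, hP1, Polynomial.coeff_C_mul, map_mul, map_mul, map_inv₀,
      map_inv₀, inv_mul_le_one₀ (zero_lt_iff.mpr haΩ)]
    by_cases hi : i ∈ P.support
    · exact hmax i hi
    · rw [Polynomial.notMem_support_iff.mp hi, map_zero, map_zero]
      exact zero_le
  set R := O'.comap (algebraMap (RatFunc K) (AlgebraicClosure (RatFunc K))) with hR
  have hl : P1 ∈ Polynomial.lifts R.subtype := by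
    rw [Polynomial.lifts_iff_coeff_lifts]
    intro n
    exact ⟨⟨_, hmem n⟩, rfl⟩
  obtain ⟨P2, hP2⟩ := (Polynomial.mem_lifts _).mp hl
  let r : R →+* O' := (algebraMap (RatFunc K) (AlgebraicClosure (RatFunc K))).restrict R O'
    fun x hx => hx
  have hc : ∀ i, ((P2.coeff i : R) : RatFunc K) = P1.coeff i := by
    intro i
    rw [← hP2, Polynomial.coeff_map]
    rfl
  refine ⟨P2.map ((IsLocalRing.residue O').comp r), ?_, ?_, fun i => ?_⟩
  · intro h1
    have h2 : (P2.map ((IsLocalRing.residue O').comp r)).coeff i0 = 0 := by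
      rw [h1, Polynomial.coeff_zero]
    rw [Polynomial.coeff_map, RingHom.comp_apply, w7_res_zero] at h2
    have h3 : ((r (P2.coeff i0) : O') : AlgebraicClosure (RatFunc K)) = 1 := by
      change algebraMap (RatFunc K) (AlgebraicClosure (RatFunc K)) ((P2.coeff i0 : R) : RatFunc K) = 1
      rw [hc, hP1, Polynomial.coeff_C_mul, inv_mul_cancel₀ ha0, map_one]
    rw [h3, map_one] at h2
    exact lt_irrefl _ h2
  · rw [Polynomial.eval_map]
    have h1 : Polynomial.eval₂ r x P2 = 0 := by
      apply Subtype.val_injective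
      change O'.subtype (Polynomial.eval₂ r x P2) = 0
      rw [Polynomial.hom_eval₂]
      have h2 : O'.subtype.comp r =
          (algebraMap (RatFunc K) (AlgebraicClosure (RatFunc K))).comp R.subtype := rfl
      rw [h2, ← Polynomial.eval₂_map, hP2, hP1]
      change Polynomial.aeval ((x : O') : AlgebraicClosure (RatFunc K)) (Polynomial.C a⁻¹ * P) = 0
      rw [map_mul, hP, mul_zero]
    have h2 := congrArg (IsLocalRing.residue O') h1
    rw [Polynomial.hom_eval₂, map_zero] at h2
    exact h2
  · refine ⟨P1.coeff i, hmem i, ?_⟩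
    rw [Polynomial.coeff_map, RingHom.comp_apply]
    congr 1
    apply Subtype.ext
    change algebraMap (RatFunc K) (AlgebraicClosure (RatFunc K)) ((P2.coeff i : R) : RatFunc K) = _
    rw [hc]

end w7

section w7b

lemma w7_tq_pow (k : Type u) [Field k] (n : ℕ) : tq k 1 ^ n = tq k n := by
  induction n with
  | zero =>
    rw [pow_zero, Nat.cast_zero]
    rfl
  | succ n ih => rw [pow_succ, ih, ← tq_add, Nat.cast_succ]

lemma w7_coeff_eval {k : Type u} [Field k] (P : Polynomial k) (n : ℕ) :
    (P.eval₂ (hC k) (tq k 1)).coeff (n : ℚ) = P.coeff n := by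
  induction P using Polynomial.induction_on' with
  | add p q hp hq =>
    rw [Polynomial.eval₂_add, HahnSeries.coeff_add, hp, hq, Polynomial.coeff_add]
  | monomial m a =>
    rw [Polynomial.eval₂_monomial, w7_tq_pow, Polynomial.coeff_monomial]
    have h1 : hC k a * tq k (m : ℚ) = HahnSeries.single (m : ℚ) a := by
      simp [hC, tq, HahnSeries.C_apply, HahnSeries.single_mul_single]
    rw [h1, HahnSeries.coeff_single]
    by_cases h : m = n
    · subst h
      simp
    · rw [if_neg h, if_neg]
      intro h2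
      exact h (by exact_mod_cast h2.symm)

/-- The evaluation in the field of Hahn series. -/
noncomputable def w7_ev (k : Type u) [Field k] : Polynomial k →+* HahnSeries ℚ k :=
  Polynomial.eval₂RingHom (hC k) (tq k 1)

lemma w7_ev_inj (k : Type u) [Field k] : Function.Injective (w7_ev k) := by
  rw [injective_iff_map_eq_zero]
  intro P hP
  ext n
  rw [← w7_coeff_eval, Polynomial.coeff_zero]
  change ((w7_ev k) P).coeff _ = 0
  rw [hP]
  rfl

lemma w7_ev_hequiv {k : Type u} [Field k] (σ : k ≃+* k) (P : Polynomial k) :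
    hequiv σ (w7_ev k P) = w7_ev k (P.map (σ : k →+* k)) := by
  change (hequiv σ : HahnSeries ℚ k →+* HahnSeries ℚ k) (Polynomial.eval₂ _ _ P) =
    Polynomial.eval₂ _ _ _
  rw [Polynomial.hom_eval₂, Polynomial.eval₂_map]
  congr 1
  · ext1 c
    exact hmap_C _ c
  · ext q
    change σ ((tq k 1).coeff q) = _
    unfold tq
    rw [HahnSeries.coeff_single]
    split_ifs <;> simp

variable {O : ValuationSubring (AlgebraicClosure K)}
  {O' : ValuationSubring (AlgebraicClosure (RatFunc K))}

lemma w7_psi_ep (h : IsGauss O O')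
    {ψ : IsLocalRing.ResidueField O' →+* HahnSeries ℚ (IsLocalRing.ResidueField O)}
    (hψ : ∀ c, ψ (resJ h.comap c) = hC _ c)
    (hψt : ψ (IsLocalRing.residue O' ⟨tt K, h.tt_mem⟩) = tq _ 1)
    (P : Polynomial (IsLocalRing.ResidueField O)) :
    ψ (w7_ep h P) = w7_ev _ P := by
  change ψ (Polynomial.eval₂ _ _ P) = Polynomial.eval₂ _ _ P
  rw [Polynomial.hom_eval₂, hψt]
  congr 1
  ext1 c
  exact hψ c

lemma w7_fix (g : O.decompositionSubgroup K) (P : Polynomial (IsLocalRing.ResidueField O))
    (hP : w7_K O P) : P.map (resAct O g : IsLocalRing.ResidueField O →+* _) = P := by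
  ext i
  rw [Polynomial.coeff_map]
  obtain ⟨a, ha, h1⟩ := hP i
  rw [h1]
  change resAct O g (IsLocalRing.residue O ⟨_, ha⟩) = _
  rw [resAct_residue]
  congr 1
  apply Subtype.ext
  exact (g : AlgebraicClosure K ≃ₐ[K] AlgebraicClosure K).commutes a

lemma w7_fix_psi (h : IsGauss O O') {π : K} (hπ : IsUnif O π)
    {ψ : IsLocalRing.ResidueField O' →+* HahnSeries ℚ (IsLocalRing.ResidueField O)}
    (hψ : ∀ c, ψ (resJ h.comap c) = hC _ c)
    (hψt : ψ (IsLocalRing.residue O' ⟨tt K, h.tt_mem⟩) = tq _ 1)
    (g : O.decompositionSubgroup K) (f : RatFunc K)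
    (hf : algebraMap (RatFunc K) (AlgebraicClosure (RatFunc K)) f ∈ O') :
    hequiv (resAct O g) (ψ (IsLocalRing.residue O' ⟨_, hf⟩)) =
      ψ (IsLocalRing.residue O' ⟨_, hf⟩) := by
  obtain ⟨N, D, hN, hD, hD0, he⟩ := w7_good h hπ f hf
  have h1 := congrArg ψ he
  rw [map_mul, w7_psi_ep h hψ hψt, w7_psi_ep h hψ hψt] at h1
  have h2 := congrArg (hequiv (resAct O g)) h1
  rw [map_mul, w7_ev_hequiv, w7_ev_hequiv, w7_fix g D hD, w7_fix g N hN, ← h1] at h2
  refine mul_right_cancel₀ ?_ h2
  rw [map_ne_zero_iff _ (w7_ev_inj _)]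
  exact hD0

/-- The image of `ψ` is stable. -/
lemma w7_range (h : IsGauss O O') {π : K} (hπ : IsUnif O π)
    {ψ : IsLocalRing.ResidueField O' →+* HahnSeries ℚ (IsLocalRing.ResidueField O)}
    (hψ : ∀ c, ψ (resJ h.comap c) = hC _ c)
    (hψt : ψ (IsLocalRing.residue O' ⟨tt K, h.tt_mem⟩) = tq _ 1)
    (σ : IsLocalRing.ResidueField O ≃+* IsLocalRing.ResidueField O)
    (z : IsLocalRing.ResidueField O') : ∃ w, ψ w = hequiv σ (ψ z) := by
  have hA : IsAlgClosed (IsLocalRing.ResidueField O') := isAlgClosed_residue O'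
  obtain ⟨P, hP0, hP, hPc⟩ := w7_alg0 O' z
  have h1 : P.map ((hequiv σ : HahnSeries ℚ (IsLocalRing.ResidueField O) →+*
      HahnSeries ℚ (IsLocalRing.ResidueField O)).comp ψ) ∈
      Polynomial.lifts ψ := by
    rw [Polynomial.lifts_iff_coeff_lifts]
    intro i
    rw [Polynomial.coeff_map]
    obtain ⟨f, hf, hc⟩ := hPc i
    obtain ⟨N, D, hN, hD, hD0, he⟩ := w7_good h hπ f hf
    rw [hc]
    have h1 := congrArg ψ he
    rw [map_mul, w7_psi_ep h hψ hψt, w7_psi_ep h hψ hψt] at h1
    have h2 := congrArg (hequiv σ) h1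
    rw [map_mul, w7_ev_hequiv, w7_ev_hequiv] at h2
    have hD1 : D.map (σ : IsLocalRing.ResidueField O →+* IsLocalRing.ResidueField O) ≠ 0 := by
      rwa [Ne, Polynomial.map_eq_zero_iff σ.injective]
    refine ⟨w7_ep h (N.map (σ : IsLocalRing.ResidueField O →+* IsLocalRing.ResidueField O)) /
      w7_ep h (D.map (σ : IsLocalRing.ResidueField O →+* IsLocalRing.ResidueField O)), ?_⟩
    rw [map_div₀, w7_psi_ep h hψ hψt, w7_psi_ep h hψ hψt, ← h2]
    rw [mul_div_assoc, div_self, mul_one]
    · rfl
    · rw [map_ne_zero_iff _ (w7_ev_inj _)]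
      exact hD1
  obtain ⟨Q, hQ⟩ := (Polynomial.mem_lifts _).mp h1
  have hQ0 : Q.map ψ ≠ 0 := by
    rw [hQ, Ne, Polynomial.map_eq_zero_iff (RingHom.injective _)]
    exact hP0
  have h2 : hequiv σ (ψ z) ∈ (Q.map ψ).roots := by
    rw [Polynomial.mem_roots hQ0, Polynomial.IsRoot.def, hQ, Polynomial.eval_map]
    have h3 := Polynomial.eval₂_at_apply
      ((hequiv σ : HahnSeries ℚ (IsLocalRing.ResidueField O) →+*
      HahnSeries ℚ (IsLocalRing.ResidueField O)).comp ψ) (p := P) z
    rw [hP, map_zero] at h3
    exact h3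
  rw [(IsAlgClosed.splits Q).roots_map ψ, Multiset.mem_map] at h2
  obtain ⟨w, -, hw⟩ := h2
  exact ⟨w, hw⟩

lemma w7_isClopen {F : Type u} {Ω : Type v} [Field F] [Field Ω] [Algebra F Ω]
    [Algebra.IsAlgebraic F Ω] (x : Ω) (T : Set Ω) :
    IsClosed {g : Ω ≃ₐ[F] Ω | g x ∈ T} := by
  have h0 : ∀ T : Set Ω, IsOpen {g : Ω ≃ₐ[F] Ω | g x ∈ T} := by
    intro T
    rw [isOpen_iff_mem_nhds]
    intro g hg
    have h1 : IsOpen ((fun h : Ω ≃ₐ[F] Ω => g⁻¹ * h) ⁻¹'
        (MulAction.stabilizer (Ω ≃ₐ[F] Ω) x : Set _)) :=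
      (stabilizer_isOpen_of_isIntegral (K := F) x).preimage (continuous_const_mul g⁻¹)
    have h2 : g ∈ ((fun h : Ω ≃ₐ[F] Ω => g⁻¹ * h) ⁻¹'
        (MulAction.stabilizer (Ω ≃ₐ[F] Ω) x : Set _)) := by
      show g⁻¹ * g ∈ MulAction.stabilizer (Ω ≃ₐ[F] Ω) x
      rw [inv_mul_cancel]
      exact one_mem _
    apply Filter.mem_of_superset (h1.mem_nhds h2)
    intro h hh
    have h3 : (g⁻¹ * h) • x = x := hh
    have h4 : h x = g x := by
      rw [mul_smul, inv_smul_eq_iff] at h3
      exact h3
    show h x ∈ T
    rw [h4]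
    exact hg
  exact ⟨h0 Tᶜ⟩

lemma w7_closed (c : IsLocalRing.ResidueField O) :
    IsClosed {g : O.decompositionSubgroup K | resAct O g c = c} := by
  obtain ⟨y, rfl⟩ := IsLocalRing.residue_surjective c
  have h1 : {g : O.decompositionSubgroup K | resAct O g (IsLocalRing.residue O y) =
      IsLocalRing.residue O y} =
      (Subtype.val : O.decompositionSubgroup K → (AlgebraicClosure K ≃ₐ[K] AlgebraicClosure K)) ⁻¹'
        {g : AlgebraicClosure K ≃ₐ[K] AlgebraicClosure K | g y ∈
          {x : AlgebraicClosure K | O.valuation (x - y) < 1}} := by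
    ext g
    change resAct O g (IsLocalRing.residue O y) = IsLocalRing.residue O y ↔
      O.valuation ((g : AlgebraicClosure K ≃ₐ[K] AlgebraicClosure K) y - y) < 1
    rw [resAct_residue, ← sub_eq_zero, ← map_sub, w7_res_zero]
    rfl
  rw [h1]
  exact (w7_isClopen _ _).preimage continuous_subtype_val

end w7b

/-- TASK W7 (second statement). The embedding of the residue field of a Gauss extension in the field of
Hahn series over the residue field of `O`.

PROOF. Let `k̄ = ResidueField O`, `k̄' = ResidueField O'`, `t̄ ∈ k̄'` the residue of `tt K`, and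
`H = HahnSeries ℚ k̄`, which is algebraically closed (`isAlgClosed_residue`, `isAlgClosed_hahn`, D2).
(1) `t̄` is transcendental over `k̄` (via `resJ`): a polynomial over `k̄` lifts to a polynomial over `O`;
use `val_lt_one`. `tq k̄ 1` is transcendental over `k̄` (via `hC`). So there is a homomorphism from the
subfield `k̄(t̄)` of `k̄'` (or from `RatFunc k̄`) to `H` with `c ↦ hC c`, `t̄ ↦ tq k̄ 1`.
(2) `k̄'` is algebraic over `k̄(t̄)`: let `z ∈ O'`; `z` is algebraic over `RatFunc K`:
`∑ f_i z^i = 0`, `f_i ∈ RatFunc K` not all zero; dividing by the coefficient of largest value we may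
assume that all `f_i ∈ O'` and that one of them has value `1`; by `exists_gauss_repr` (W6) the residue of
`f_i` (if it is not zero) is the quotient of the residues of `P` and `Q`, in `k̄(t̄)`. So the residue of
`z` is algebraic over `k̄(t̄)`.
(3) `IsAlgClosed.lift`. -/
theorem exists_psiR {O : ValuationSubring (AlgebraicClosure K)}
    {O' : ValuationSubring (AlgebraicClosure (RatFunc K))} (h : IsGauss O O') {π : K}
    (hπ : IsUnif O π) :
    ∃ ψ : IsLocalRing.ResidueField O' →+* HahnSeries ℚ (IsLocalRing.ResidueField O),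
      (∀ c, ψ (resJ h.comap c) = hC _ c) ∧
        ψ (IsLocalRing.residue O' ⟨tt K, h.tt_mem⟩) = tq _ 1 := by
  have hA : IsAlgClosed (IsLocalRing.ResidueField O) := isAlgClosed_residue O
  have hinj : Function.Injective (w7_ep h) := by
    rw [injective_iff_map_eq_zero]
    exact w7_ep_inj h
  let i1 : RatFunc (IsLocalRing.ResidueField O) →+* IsLocalRing.ResidueField O' :=
    IsFractionRing.lift hinj
  let i2 : RatFunc (IsLocalRing.ResidueField O) →+* HahnSeries ℚ (IsLocalRing.ResidueField O) :=
    IsFractionRing.lift (w7_ev_inj (IsLocalRing.ResidueField O))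
  have e1 : ∀ P, i1 (algebraMap _ _ P) = w7_ep h P := fun P =>
    IsFractionRing.lift_algebraMap hinj P
  have e2 : ∀ P, i2 (algebraMap _ _ P) = w7_ev _ P := fun P =>
    IsFractionRing.lift_algebraMap (w7_ev_inj (IsLocalRing.ResidueField O)) P
  let _ : Algebra (RatFunc (IsLocalRing.ResidueField O)) (IsLocalRing.ResidueField O') :=
    i1.toAlgebra
  let _ : Algebra (RatFunc (IsLocalRing.ResidueField O))
    (HahnSeries ℚ (IsLocalRing.ResidueField O)) := i2.toAlgebra
  have halg : Algebra.IsAlgebraic (RatFunc (IsLocalRing.ResidueField O))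
      (IsLocalRing.ResidueField O') := by
    refine ⟨fun z => ?_⟩
    obtain ⟨P, hP0, hP, hPc⟩ := w7_alg0 O' z
    have h1 : P ∈ Polynomial.lifts i1 := by
      rw [Polynomial.lifts_iff_coeff_lifts]
      intro i
      obtain ⟨f, hf, hc⟩ := hPc i
      obtain ⟨N, D, hN, hD, hD0, he⟩ := w7_good h hπ f hf
      refine ⟨algebraMap _ _ N / algebraMap _ _ D, ?_⟩
      rw [map_div₀, e1, e1, hc, ← he, mul_div_assoc, div_self, mul_one]
      rw [map_ne_zero_iff _ hinj]
      exact hD0
    obtain ⟨Q, hQ⟩ := (Polynomial.mem_lifts _).mp h1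
    refine ⟨Q, ?_, ?_⟩
    · rintro rfl
      rw [Polynomial.map_zero] at hQ
      exact hP0 hQ.symm
    · rw [Polynomial.aeval_def, ← Polynomial.eval_map]
      change Polynomial.eval z (Q.map i1) = 0
      rw [hQ, hP]
  let ψ := IsAlgClosed.lift (S := IsLocalRing.ResidueField O')
    (R := RatFunc (IsLocalRing.ResidueField O)) (M := HahnSeries ℚ (IsLocalRing.ResidueField O))
  have hψ : ∀ x, ψ (i1 x) = i2 x := fun x => ψ.commutes x
  refine ⟨ψ.toRingHom, fun c => ?_, ?_⟩
  · have h1 := hψ (algebraMap _ _ (Polynomial.C c))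
    rw [e1, e2] at h1
    have h2 : w7_ep h (Polynomial.C c) = resJ h.comap c := Polynomial.eval₂_C _ _
    have h3 : w7_ev (IsLocalRing.ResidueField O) (Polynomial.C c) = hC _ c :=
      Polynomial.eval₂_C _ _
    rw [h2, h3] at h1
    exact h1
  · have h1 := hψ (algebraMap (Polynomial (IsLocalRing.ResidueField O)) _ Polynomial.X)
    rw [e1, e2] at h1
    have h2 : w7_ep h Polynomial.X = IsLocalRing.residue O' ⟨tt K, h.tt_mem⟩ :=
      Polynomial.eval₂_X _ _
    have h3 : w7_ev (IsLocalRing.ResidueField O) Polynomial.X = tq _ 1 := Polynomial.eval₂_X _ _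
    rw [h2, h3] at h1
    exact h1


/-- TASK W7 (third statement). The lifts of the automorphisms of the residue field.

PROOF. An element `x` of `H` is in the image of `ψ` iff it is algebraic over the subfield `k̄(T)`
generated by `hC k̄` and `T = tq k̄ 1`: the residue field of `O'` is algebraic over `k̄(t̄)` (as in the proof
of `exists_psiR`; see `exists_psiR_alg` if you prefer to split it off) and it is algebraically closed
(`isAlgClosed_residue`). The automorphism `hequiv σ` of `H` maps `k̄(T)` onto itself (it maps `hC c` to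
`hC (σ c)` and fixes `T`), so it maps the image of `ψ` onto itself. Put `s z = ψ⁻¹ (hequiv σ (ψ z))`. -/
theorem exists_res_lift {O : ValuationSubring (AlgebraicClosure K)}
    {O' : ValuationSubring (AlgebraicClosure (RatFunc K))} (h : IsGauss O O') {π : K}
    (hπ : IsUnif O π)
    {ψ : IsLocalRing.ResidueField O' →+* HahnSeries ℚ (IsLocalRing.ResidueField O)}
    (hψ : ∀ c, ψ (resJ h.comap c) = hC _ c)
    (hψt : ψ (IsLocalRing.residue O' ⟨tt K, h.tt_mem⟩) = tq _ 1)
    (σ : IsLocalRing.ResidueField O ≃+* IsLocalRing.ResidueField O) :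
    ∃ s : IsLocalRing.ResidueField O' ≃+* IsLocalRing.ResidueField O',
      ∀ z, ψ (s z) = hequiv σ (ψ z) := by
  choose s hs using w7_range h hπ hψ hψt σ
  choose s' hs' using w7_range h hπ hψ hψt σ.symm
  refine ⟨{
    toFun := s
    invFun := s'
    left_inv := fun z => ?_
    right_inv := fun z => ?_
    map_mul' := fun a b => ?_
    map_add' := fun a b => ?_ }, hs⟩
  · apply ψ.injective
    rw [hs', hs]
    ext q
    simp
  · apply ψ.injective
    rw [hs, hs']
    ext q
    simp
  · apply ψ.injective
    rw [map_mul, hs, hs, hs, map_mul, map_mul]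
  · apply ψ.injective
    rw [map_add, hs, hs, hs, map_add, map_add]


/-- TASK W7 (fourth statement). The lifts of the automorphisms which come from the decomposition group
fix the residues of the elements of `K(t)`.

PROOF. Let `f ∈ K(t)`, `f ∈ O'`; if its residue is zero there is nothing to show; otherwise
`O'.valuation f = 1`, so in `exists_gauss_repr` (W6) `n = 0` (`IsGauss.unif`), and the residue of `f` is
the quotient of the residues of `P` and `Q`, which are polynomials in `t̄` whose coefficients are
`resJ` of the residues of elements `a` of `K`; `ψ` maps these to `hC (residue a)`, fixed by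
`hequiv (resAct O g)` since `g a = a`; and `ψ t̄ = tq 1` is fixed, too. -/
theorem res_lift_fix {O : ValuationSubring (AlgebraicClosure K)}
    {O' : ValuationSubring (AlgebraicClosure (RatFunc K))} (h : IsGauss O O') {π : K}
    (hπ : IsUnif O π)
    {ψ : IsLocalRing.ResidueField O' →+* HahnSeries ℚ (IsLocalRing.ResidueField O)}
    (hψ : ∀ c, ψ (resJ h.comap c) = hC _ c)
    (hψt : ψ (IsLocalRing.residue O' ⟨tt K, h.tt_mem⟩) = tq _ 1)
    (g : O.decompositionSubgroup K)
    {s : IsLocalRing.ResidueField O' ≃+* IsLocalRing.ResidueField O'}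
    (hs : ∀ z, ψ (s z) = hequiv (resAct O g) (ψ z)) (x : O')
    (hx : (x : AlgebraicClosure (RatFunc K)) ∈ (algebraMap (RatFunc K) _).range) :
    s (IsLocalRing.residue O' x) = IsLocalRing.residue O' x := by
  obtain ⟨f, hf⟩ := hx
  have hf' : algebraMap (RatFunc K) (AlgebraicClosure (RatFunc K)) f ∈ O' := by
    rw [hf]
    exact x.2
  have h1 : x = ⟨_, hf'⟩ := Subtype.ext hf.symm
  apply ψ.injective
  rw [hs, h1]
  exact w7_fix_psi h hπ hψ hψt g f hf'


/-- TASK W7 (fifth statement). Continuity: the stabilizer of a Hahn series in the image of `ψ` is open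
in the decomposition group.

PROOF. As `continuous_sig` in D3. The stabilizer `U` of `x = ψ z` is
`⋂ q, {g | resAct O g (x.coeff q) = x.coeff q}`, and each of these sets is an open, hence closed,
subgroup of the decomposition group: for `c = residue y`, `y ∈ O`, it contains the elements with
`g y = y` (`stabilizer_isOpen_of_isIntegral`). It has finite index: `x` is algebraic over the subfield
generated by the `hC (residue a)`, `a ∈ K ∩ O`, and `T` (as in the proof of `exists_psiR`; its elements are
fixed by all `hequiv (resAct O g)`), so the orbit of `x` is contained in the finite set of the roots of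
a polynomial. So `U` is open (`Subgroup.isOpen_of_isClosed_of_finiteIndex`). -/
theorem isOpen_stab_psiR {O : ValuationSubring (AlgebraicClosure K)}
    {O' : ValuationSubring (AlgebraicClosure (RatFunc K))} (h : IsGauss O O') {π : K}
    (hπ : IsUnif O π)
    {ψ : IsLocalRing.ResidueField O' →+* HahnSeries ℚ (IsLocalRing.ResidueField O)}
    (hψ : ∀ c, ψ (resJ h.comap c) = hC _ c)
    (hψt : ψ (IsLocalRing.residue O' ⟨tt K, h.tt_mem⟩) = tq _ 1)
    (z : IsLocalRing.ResidueField O') :
    ∃ U : Subgroup (O.decompositionSubgroup K), IsOpen (U : Set (O.decompositionSubgroup K)) ∧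
      ∀ g ∈ U, hequiv (resAct O g) (ψ z) = ψ z := by
  classical
  have hmul : ∀ (g g' : O.decompositionSubgroup K) (x : HahnSeries ℚ (IsLocalRing.ResidueField O)),
      hequiv (resAct O (g * g')) x = hequiv (resAct O g) (hequiv (resAct O g') x) := by
    intro g g' x
    ext q
    rw [hequiv_coeff, hequiv_coeff, hequiv_coeff, resAct_mul]
  have hone : ∀ x : HahnSeries ℚ (IsLocalRing.ResidueField O),
      hequiv (resAct O (1 : O.decompositionSubgroup K)) x = x := by
    intro x
    have h1 := hmul 1 1 x
    rw [one_mul] at h1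
    exact ((hequiv (resAct O (1 : O.decompositionSubgroup K))).injective h1).symm
  let U : Subgroup (O.decompositionSubgroup K) :=
    { carrier := {g | hequiv (resAct O g) (ψ z) = ψ z}
      mul_mem' := by
        intro a b ha hb
        change hequiv (resAct O (a * b)) (ψ z) = ψ z
        rw [hmul, hb, ha]
      one_mem' := hone _
      inv_mem' := by
        intro a ha
        change hequiv (resAct O a⁻¹) (ψ z) = ψ z
        have h1 := hmul a⁻¹ a (ψ z)
        rw [ha, inv_mul_cancel, hone] at h1
        exact h1.symm }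
  have hU : ∀ g, g ∈ U ↔ hequiv (resAct O g) (ψ z) = ψ z := fun g => Iff.rfl
  refine ⟨U, ?_, fun g hg => hg⟩
  have hclosed : IsClosed (U : Set (O.decompositionSubgroup K)) := by
    have h1 : (U : Set (O.decompositionSubgroup K)) =
        ⋂ q : ℚ, {g | resAct O g ((ψ z).coeff q) = (ψ z).coeff q} := by
      ext g
      rw [Set.mem_iInter]
      constructor
      · intro hg q
        have h2 := congrArg (fun x : HahnSeries ℚ (IsLocalRing.ResidueField O) => x.coeff q)
          ((hU g).mp hg)
        exact h2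
      · intro hg
        refine (hU g).mpr ?_
        ext q
        exact hg q
    rw [h1]
    exact isClosed_iInter fun q => w7_closed _
  -- finite index
  obtain ⟨P, hP0, hP, hPc⟩ := w7_alg0 O' z
  have hroot : ∀ g : O.decompositionSubgroup K,
      hequiv (resAct O g) (ψ z) ∈ (P.map ψ).roots.toFinset := by
    intro g
    have hne : P.map ψ ≠ 0 := by
      rwa [Ne, Polynomial.map_eq_zero_iff ψ.injective]
    rw [Multiset.mem_toFinset, Polynomial.mem_roots hne, Polynomial.IsRoot.def,
      Polynomial.eval_map]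
    have h1 : (hequiv (resAct O g) : HahnSeries ℚ (IsLocalRing.ResidueField O) →+*
        HahnSeries ℚ (IsLocalRing.ResidueField O)) (Polynomial.eval₂ ψ (ψ z) P) = 0 := by
      rw [Polynomial.eval₂_at_apply, hP, map_zero, map_zero]
    rw [Polynomial.hom_eval₂] at h1
    rw [← h1]
    rw [Polynomial.eval₂_eq_sum_range, Polynomial.eval₂_eq_sum_range]
    refine Finset.sum_congr rfl fun i _ => ?_
    obtain ⟨f, hf, hc⟩ := hPc i
    rw [hc]
    congr 1
    exact (w7_fix_psi h hπ hψ hψt g f hf).symm
  have hfin : Finite (O.decompositionSubgroup K ⧸ U) := by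
    let φ : O.decompositionSubgroup K ⧸ U → {x // x ∈ (P.map ψ).roots.toFinset} :=
      Quotient.lift (fun g => (⟨hequiv (resAct O g) (ψ z), hroot g⟩ :
        {x // x ∈ (P.map ψ).roots.toFinset})) (by
          intro a b hab
          have h1 : a⁻¹ * b ∈ U := QuotientGroup.leftRel_apply.mp hab
          have h2 : hequiv (resAct O b) (ψ z) = hequiv (resAct O a) (ψ z) := by
            have h3 := hmul a (a⁻¹ * b) (ψ z)
            rwa [(hU _).mp h1, mul_inv_cancel_left] at h3
          exact Subtype.ext h2.symm)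
    have hφ : Function.Injective φ := by
      intro x y
      induction x using QuotientGroup.induction_on with
      | H a =>
        induction y using QuotientGroup.induction_on with
        | H b =>
          intro hab
          have h1 : hequiv (resAct O a) (ψ z) = hequiv (resAct O b) (ψ z) :=
            congrArg Subtype.val hab
          rw [QuotientGroup.eq]
          refine (hU _).mpr ?_
          rw [hmul, ← h1, ← hmul, inv_mul_cancel, hone]
    exact Finite.of_injective φ hφ
  have hfi : U.FiniteIndex := Subgroup.finiteIndex_of_finite_quotient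
  exact Subgroup.isOpen_of_isClosed_of_finiteIndex U hclosed


end GC
end

section

/-!
# The section modulo the inertia group
-/

namespace GC

universe u v

variable {K : Type u} [Field K]

/-- TASK W8. The section modulo the inertia groups of the decomposition group of a Gauss extension.

PROOF. Let `ψ` be as in `exists_psiR` (W7). For `g ∈ D = O.decompositionSubgroup K` let `s_g` be the
automorphism of the residue field of `O'` with `ψ (s_g z) = hequiv (resAct O g) (ψ z)`
(`exists_res_lift`), unique since `ψ` is injective, so `s_(g h) = s_g ∘ s_h`. It fixes the residues of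
the elements of `K(t)` (`res_lift_fix`), so by `exists_lift_residue` (W2) there is `s g` in the
decomposition group `D'` of `O'` with `resAct O' (s g) = s_g`.
(a) `s (g * h)` and `s g * s h` act on the residue field in the same way (`resAct_mul`), so they differ
by an element of the inertia group `I'`.
(b) Let `U` be open in `D'`, `I' ≤ U`. For `z ∈ ResidueField O'` let
`C_z = {g' ∈ D' | resAct O' g' z = z}`, closed in `D'` (it contains the open stabilizer of a lift of `z`,
so it is an open subgroup). `⋂ C_z = I' ⊆ U`, `D'` is compact, so there are `z_1, …, z_r` with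
`⋂ C_(z_j) ⊆ U`. Let `V` be the intersection of the open subgroups of `isOpen_stab_psiR` for the `z_j`:
for `v ∈ V`, `ψ (s_v z_j) = ψ z_j`, so `s v ∈ C_(z_j)`.
(c) For `x ∈ O`: the residue of `s g (jj K x) = jj K (rs K (s g) x)` is `s_g (resJ (residue x))`, and
`ψ (s_g (resJ (residue x))) = hequiv (resAct O g) (hC (residue x)) = hC (residue (g x))
= ψ (resJ (residue (g x)))`. So `resJ (residue (rs K (s g) x)) = resJ (residue (g x))`, so
`residue (rs K (s g) x) = residue (g x)`. `rs K (s g)` is in `D` (`decomp_comap`, V5), so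
`g⁻¹ * rs K (s g)` is in the inertia group.
(d) For `i` in the inertia group, `resAct O i = 1`, so `s_i = 1`. -/
theorem exists_section_mod {O : ValuationSubring (AlgebraicClosure K)}
    {O' : ValuationSubring (AlgebraicClosure (RatFunc K))} (h : IsGauss O O') {π : K}
    (hπ : IsUnif O π) :
    ∃ s : O.decompositionSubgroup K → O'.decompositionSubgroup (RatFunc K),
      (∀ g h, (s (g * h))⁻¹ * (s g * s h) ∈ O'.inertiaSubgroup (RatFunc K)) ∧
      (∀ U : Subgroup (O'.decompositionSubgroup (RatFunc K)),
        IsOpen (U : Set (O'.decompositionSubgroup (RatFunc K))) →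
        O'.inertiaSubgroup (RatFunc K) ≤ U →
        ∃ V : Subgroup (O.decompositionSubgroup K),
          IsOpen (V : Set (O.decompositionSubgroup K)) ∧ ∀ v ∈ V, s v ∈ U) ∧
      (∀ g, ∃ i ∈ O.inertiaSubgroup K,
        rs K (s g : AbsGal (RatFunc K)) = ((g * i : O.decompositionSubgroup K) : AbsGal K)) ∧
      ∀ i ∈ O.inertiaSubgroup K, s i ∈ O'.inertiaSubgroup (RatFunc K) := by
  have hc := h.comap
  subst hc
  obtain ⟨ψ, hψ, hψt⟩ := exists_psiR h hπ
  have hex : ∀ g : (O'.comap (jj K)).decompositionSubgroup K,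
      ∃ s : IsLocalRing.ResidueField O' ≃+* IsLocalRing.ResidueField O',
        ∀ z, ψ (s z) = hequiv (resAct (O'.comap (jj K)) g) (ψ z) := fun g =>
    exists_res_lift h hπ hψ hψt (resAct (O'.comap (jj K)) g)
  choose r hr using hex
  have hex2 : ∀ g : (O'.comap (jj K)).decompositionSubgroup K,
      ∃ g' : O'.decompositionSubgroup (RatFunc K), ∀ x : O',
        IsLocalRing.residue O' (g' • x) = r g (IsLocalRing.residue O' x) := fun g =>
    exists_lift_residue O' (r g) fun x hx => res_lift_fix h hπ hψ hψt g (hr g) x hx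
  choose s hs using hex2
  have hsr : ∀ g z, resAct O' (s g) z = r g z := by
    intro g z
    obtain ⟨x, rfl⟩ := IsLocalRing.residue_surjective z
    rw [resAct_residue, hs]
  have h1 : ∀ (g : O'.decompositionSubgroup (RatFunc K)) z, resAct O' g⁻¹ (resAct O' g z) = z := by
    intro g z
    rw [← resAct_mul, inv_mul_cancel]
    unfold resAct
    rw [map_one]
    rfl
  have hrm : ∀ g g' z, r g (r g' z) = r (g * g') z := by
    intro g g' z
    apply ψ.injective
    rw [hr, hr, hr]
    ext q
    rw [hequiv_coeff, hequiv_coeff, hequiv_coeff, resAct_mul]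
  refine ⟨s, fun g g' => ?_, fun U hU hIU => ?_, fun g => ?_, fun i hi => ?_⟩
  · rw [mem_inertia_iff_resAct]
    ext z
    rw [resAct_mul, resAct_mul, hsr, hsr, hrm, ← hsr, h1]
    rfl
  · let Cz : IsLocalRing.ResidueField O' → Subgroup (O'.decompositionSubgroup (RatFunc K)) :=
      fun z =>
      { carrier := {g | resAct O' g z = z}
        one_mem' := by
          change resAct O' 1 z = z
          unfold resAct
          rw [map_one]
          rfl
        mul_mem' := by
          intro a b ha hb
          change resAct O' (a * b) z = z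
          rw [resAct_mul]
          change resAct O' a z = z at ha
          change resAct O' b z = z at hb
          rw [hb, ha]
        inv_mem' := by
          intro a ha
          change resAct O' a⁻¹ z = z
          change resAct O' a z = z at ha
          conv_lhs => rw [← ha]
          exact h1 a z }
    have hCo : ∀ z, IsOpen (Cz z : Set (O'.decompositionSubgroup (RatFunc K))) := by
      intro z
      obtain ⟨x, rfl⟩ := IsLocalRing.residue_surjective z
      have h2 : IsOpen (MulAction.stabilizer (AlgebraicClosure (RatFunc K) ≃ₐ[RatFunc K]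
          AlgebraicClosure (RatFunc K)) (x : AlgebraicClosure (RatFunc K)) :
            Set (AlgebraicClosure (RatFunc K) ≃ₐ[RatFunc K] AlgebraicClosure (RatFunc K))) :=
        stabilizer_isOpen_of_isIntegral (x : AlgebraicClosure (RatFunc K))
      have h3 := h2.preimage (continuous_subtype_val (p := fun g =>
        g ∈ O'.decompositionSubgroup (RatFunc K)))
      refine Subgroup.isOpen_mono (H₁ := (MulAction.stabilizer (AlgebraicClosure (RatFunc K)
          ≃ₐ[RatFunc K] AlgebraicClosure (RatFunc K)) (x : AlgebraicClosure (RatFunc K))).subgroupOf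
          (O'.decompositionSubgroup (RatFunc K))) ?_ h3
      intro g hg
      change resAct O' g (IsLocalRing.residue O' x) = IsLocalRing.residue O' x
      rw [resAct_residue]
      congr 1
      apply Subtype.ext
      exact hg
    have hCc : ∀ z, IsClosed (Cz z : Set (O'.decompositionSubgroup (RatFunc K))) := fun z =>
      (Cz z).isClosed_of_isOpen (hCo z)
    have hUc : IsCompact ((U : Set (O'.decompositionSubgroup (RatFunc K)))ᶜ) :=
      hU.isClosed_compl.isCompact
    obtain ⟨u, hu⟩ := hUc.elim_finite_subfamily_closed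
      (fun z => (Cz z : Set (O'.decompositionSubgroup (RatFunc K)))) hCc (by
        ext g
        simp only [Set.mem_inter_iff, Set.mem_compl_iff, SetLike.mem_coe, Set.mem_iInter,
          Set.mem_empty_iff_false, iff_false, not_and]
        intro hg hz
        apply hg
        apply hIU
        rw [mem_inertia_iff_resAct]
        ext z
        exact hz z)
    have hV : ∀ u : Finset (IsLocalRing.ResidueField O'),
        ∃ V : Subgroup ((O'.comap (jj K)).decompositionSubgroup K),
          IsOpen (V : Set ((O'.comap (jj K)).decompositionSubgroup K)) ∧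
            ∀ v ∈ V, ∀ z ∈ u, hequiv (resAct (O'.comap (jj K)) v) (ψ z) = ψ z := by
      intro u
      induction u using Finset.cons_induction with
      | empty => exact ⟨⊤, isOpen_univ, fun v _ z hz => absurd hz (Finset.notMem_empty z)⟩
      | cons a u ha ih =>
        obtain ⟨V, hV, hV'⟩ := ih
        obtain ⟨W, hW, hW'⟩ := isOpen_stab_psiR h hπ hψ hψt a
        refine ⟨V ⊓ W, hV.inter hW, fun v hv z hz => ?_⟩
        rcases Finset.mem_cons.mp hz with rfl | hz
        · exact hW' v hv.2
        · exact hV' v hv.1 z hz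
    obtain ⟨V, hVo, hV'⟩ := hV u
    refine ⟨V, hVo, fun v hv => ?_⟩
    by_contra hnot
    have h4 : s v ∈ (U : Set (O'.decompositionSubgroup (RatFunc K)))ᶜ ∩
        ⋂ z ∈ u, (Cz z : Set (O'.decompositionSubgroup (RatFunc K))) := by
      refine ⟨hnot, Set.mem_iInter₂.mpr fun z hz => ?_⟩
      change resAct O' (s v) z = z
      rw [hsr]
      apply ψ.injective
      rw [hr]
      exact hV' v hv z hz
    rw [hu] at h4
    exact h4
  · have hmem : rs K (s g : AbsGal (RatFunc K)) ∈ (O'.comap (jj K)).decompositionSubgroup K :=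
      decomp_comap (jj K) O' (fun x => jj_rs _ x) (s g).2
    refine ⟨g⁻¹ * ⟨rs K (s g : AbsGal (RatFunc K)), hmem⟩, ?_, ?_⟩
    · rw [mem_inertia_iff_residue]
      intro x
      have hxm : jj K (x : AlgebraicClosure K) ∈ O' := x.2
      have key : r g (resJ h.comap (IsLocalRing.residue (O'.comap (jj K)) x)) =
          resJ h.comap (IsLocalRing.residue (O'.comap (jj K)) (g • x)) := by
        apply ψ.injective
        rw [hr, hψ, hψ, ← resAct_residue]
        exact hmap_C _ _
      have h5 : IsLocalRing.residue (O'.comap (jj K))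
          ((⟨rs K (s g : AbsGal (RatFunc K)), hmem⟩ :
            (O'.comap (jj K)).decompositionSubgroup K) • x) =
          IsLocalRing.residue (O'.comap (jj K)) (g • x) := by
        apply (resJ h.comap).injective
        rw [← key, resJ_residue h.comap x hxm, ← hs]
        refine (resJ_residue h.comap _ ?_).trans ?_
        · exact ((⟨rs K (s g : AbsGal (RatFunc K)), hmem⟩ :
            (O'.comap (jj K)).decompositionSubgroup K) • x).2
        · congr 1
          apply Subtype.ext
          exact jj_rs _ _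
      rw [mul_smul, ← resAct_residue, h5, resAct_residue, inv_smul_smul]
    · rw [mul_inv_cancel_left]
  · rw [mem_inertia_iff_resAct] at hi ⊢
    ext z
    rw [hsr]
    apply ψ.injective
    rw [hr, hi]
    ext q
    rfl

end GC
end
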