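import Pool.Agent.Lib.MP_859dd5_ag.Mg.G061
import Pool.Agent.Lib.MP_859dd5_ag.Mg.G037
import Pool.Agent.Lib.MP_859dd5_ag.Mg.G035
import Pool.Agent.Lib.MP_859dd5_ag.Mg.G039

section

/-!
# Vanishing of the cohomology of the inertia groups in degrees at least two
-/

namespace GC

universe u v

variable {K : Type u} [Field K] {l : ℕ} [Fact l.Prime] {w : ℕ} {p : ℕ} [Fact p.Prime] [CharP K p]

/-- The field of the elements fixed by the inertia group. -/
noncomputable def inertiaField (O : ValuationSubring (AlgebraicClosure K)) :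
    IntermediateField K (AlgebraicClosure K) :=
  IntermediateField.fixedField ((O.inertiaSubgroup K).map (O.decompositionSubgroup K).subtype)

/-- The automorphisms over the perfect closure. -/
private theorem w5_restrict (F : Type u) (Ω : Type v) [Field F] [Field Ω] [Algebra F Ω]
    [IsAlgClosed Ω] [Algebra.IsAlgebraic F Ω] :
    IsGalois (perfectClosure F Ω) Ω ∧
    Continuous (AlgEquiv.restrictScalarsHom F : (Ω ≃ₐ[perfectClosure F Ω] Ω) →* (Ω ≃ₐ[F] Ω)) ∧
    Function.Surjective
      (AlgEquiv.restrictScalarsHom F : (Ω ≃ₐ[perfectClosure F Ω] Ω) →* (Ω ≃ₐ[F] Ω)) := by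
  classical
  let E := perfectClosure F Ω
  have : PerfectField E := perfectClosure.perfectField F Ω
  have : Algebra.IsAlgebraic E Ω := Algebra.IsAlgebraic.tower_top (K := F) E
  have : Algebra.IsSeparable E Ω := inferInstance
  have : IsAlgClosure E Ω := ⟨inferInstance, inferInstance⟩
  have : Normal E Ω := IsAlgClosure.normal E Ω
  have hgal : IsGalois E Ω := ⟨⟩
  let r : (Ω ≃ₐ[E] Ω) →* (Ω ≃ₐ[F] Ω) := AlgEquiv.restrictScalarsHom F
  have hr : ∀ (g : Ω ≃ₐ[E] Ω) (x : Ω), r g x = g x := fun g x => rfl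
  refine ⟨hgal, ?_, ?_⟩
  · refine continuous_of_continuousAt_one r ?_
    intro s hs
    rw [map_one] at hs
    obtain ⟨E0, hfin, hE0⟩ := (krullTopology_mem_nhds_one_iff F Ω s).1 hs
    have := hfin
    let b := Module.finBasis F E0
    have hmem : (⋂ i, (MulAction.stabilizer (Ω ≃ₐ[E] Ω) ((b i : E0) : Ω) :
        Set (Ω ≃ₐ[E] Ω))) ∈ nhds (1 : Ω ≃ₐ[E] Ω) := by
      refine (isOpen_iInter_of_finite fun i => ?_).mem_nhds ?_
      · exact stabilizer_isOpen_of_isIntegral _
      · simp
    rw [Filter.mem_map]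
    refine Filter.mem_of_superset hmem fun g hg => hE0 ?_
    rw [SetLike.mem_coe, IntermediateField.mem_fixingSubgroup_iff]
    intro y hy
    have h1 : (∑ i, b.repr ⟨y, hy⟩ i • ((b i : E0) : Ω)) = y := by
      have h0 := congrArg E0.val (b.sum_repr ⟨y, hy⟩)
      rw [map_sum] at h0
      simp_rw [map_smul] at h0
      exact h0
    rw [← h1, map_sum]
    refine Finset.sum_congr rfl fun i _ => ?_
    rw [map_smul]
    congr 1
    have h2 := Set.mem_iInter.1 hg i
    exact h2
  · intro g
    have hfix : ∀ x : E, g (x : Ω) = x := by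
      intro x
      obtain ⟨n, y, hy⟩ := mem_perfectClosure_iff.1 x.2
      have : ExpChar Ω (ringExpChar F) :=
        expChar_of_injective_algebraMap (algebraMap F Ω).injective (ringExpChar F)
      refine iterateFrobenius_inj Ω (ringExpChar F) n ?_
      rw [iterateFrobenius_def, iterateFrobenius_def, ← map_pow, ← hy, AlgEquiv.commutes]
    refine ⟨AlgEquiv.ofRingEquiv (f := g.toRingEquiv) fun x => hfix x, ?_⟩
    ext x
    rfl

/-- TASK W5 (first statement). The automorphisms over the inertia field are in the inertia group.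

PROOF. Let `I` be the image of the inertia group in `AbsGal K`, a closed subgroup (`isClosed_inertia`,
`isClosed_decomp`, V5: image of a compact group). Suppose `g ∉ I` fixes the inertia field `F`. There is
an open normal subgroup `V` of `AbsGal K` with `g V ∩ I = ∅`, and a finite normal extension `N` of `K`
whose fixing group is contained in `V` (`krullTopology_mem_nhds_one_iff`, normal closure), so that the
restriction of `g` to `N` is not the restriction of an element of `I`. The restrictions of the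
elements of `I` form a finite group `H` of automorphisms of `N`, whose fixed field is `F ∩ N`; by
Artin's theorem (`IntermediateField.fixingSubgroup_fixedField`, `FixedPoints.toAlgHomEquiv`) all
automorphisms of `N` over `F ∩ N` are in `H`: a contradiction for the restriction of `g`. -/
theorem mem_inertia_of_fix (O : ValuationSubring (AlgebraicClosure K)) {g : AbsGal K}
    (hg : ∀ x ∈ inertiaField O, g x = x) :
    ∃ i ∈ O.inertiaSubgroup K, (i : AbsGal K) = g := by
  classical
  obtain ⟨hgal, hcont, hsurj⟩ := w5_restrict K (AlgebraicClosure K)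
  set r : (AlgebraicClosure K ≃ₐ[perfectClosure K (AlgebraicClosure K)] AlgebraicClosure K) →*
    (AlgebraicClosure K ≃ₐ[K] AlgebraicClosure K) := AlgEquiv.restrictScalarsHom K with hr
  set H : Subgroup (AbsGal K) :=
    (O.inertiaSubgroup K).map (O.decompositionSubgroup K).subtype with hH
  have hHc : IsClosed (H : Set (AbsGal K)) := by
    rw [hH, Subgroup.coe_map]
    exact ((isClosed_inertia O).isCompact.image continuous_subtype_val).isClosed
  have hH'c : IsClosed ((H.comap r : Subgroup _) : Set (AlgebraicClosure K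
      ≃ₐ[perfectClosure K (AlgebraicClosure K)] AlgebraicClosure K)) := by
    rw [Subgroup.coe_comap]
    exact hHc.preimage hcont
  obtain ⟨g', hg'⟩ := hsurj g
  have hmem : g' ∈ (IntermediateField.fixedField (H.comap r)).fixingSubgroup := by
    rw [IntermediateField.mem_fixingSubgroup_iff]
    intro x hx
    rw [IntermediateField.mem_fixedField_iff] at hx
    have h1 : x ∈ inertiaField O := by
      unfold inertiaField
      rw [IntermediateField.mem_fixedField_iff]
      intro f hf
      obtain ⟨f', hf'⟩ := hsurj f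
      have h2 : f' ∈ H.comap r := by
        rw [Subgroup.mem_comap]
        have h3 : r f' = f := hf'
        rw [h3]
        exact hf
      have h4 := hx f' h2
      have h5 : f x = f' x := by
        rw [← hf']
        rfl
      rw [h5, h4]
    have h6 := hg x h1
    rw [← hg'] at h6
    exact h6
  have h7 := InfiniteGalois.fixingSubgroup_fixedField (⟨H.comap r, hH'c⟩ : ClosedSubgroup _)
  change (IntermediateField.fixedField (H.comap r)).fixingSubgroup = H.comap r at h7
  rw [h7, Subgroup.mem_comap] at hmem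
  have h8 : g ∈ H := by
    rw [← hg']
    exact hmem
  rw [hH, Subgroup.mem_map] at h8
  obtain ⟨i, hi, hi2⟩ := h8
  exact ⟨i, hi, hi2⟩

/-- The units of `O` over the inertia field are `l`-th powers. -/
private theorem w5_pow (hpl : p ≠ l) {O : ValuationSubring (AlgebraicClosure K)}
    (E : IntermediateField (inertiaField O) (AlgebraicClosure K)) {u : AlgebraicClosure K}
    (huE : u ∈ E) (hu : O.valuation u = 1) : ∃ c ∈ E, c ^ l = u := by
  classical
  have hl : l.Prime := Fact.out
  have hp : p.Prime := Fact.out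
  have hFE : ∀ x ∈ inertiaField O, x ∈ E := fun x hx =>
    E.algebraMap_mem (⟨x, hx⟩ : inertiaField O)
  have hKE : ∀ x : K, algebraMap K (AlgebraicClosure K) x ∈ E := fun x =>
    hFE _ ((inertiaField O).algebraMap_mem x)
  obtain ⟨z, hz⟩ := IsAlgClosed.exists_pow_nat_eq u hl.pos
  have hz1 : O.valuation z = 1 := by
    have h1 : O.valuation z ^ l = 1 := by rw [← map_pow, hz, hu]
    exact (pow_eq_one_iff.1 h1).resolve_right hl.ne_zero
  have hz0 : z ≠ 0 := by
    rintro rfl
    rw [map_zero] at hz1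
    exact zero_ne_one hz1
  have hzO : z ∈ O := by
    rw [← O.valuation_le_one_iff]
    exact hz1.le
  have hcop : p.Coprime l := (Nat.coprime_primes hp hl).2 hpl
  have hfix : ∀ s : AlgebraicClosure K ≃ₐ[E] AlgebraicClosure K, s z = z := by
    intro s
    have hsE : ∀ x ∈ E, s x = x := fun x hx => s.commutes ⟨x, hx⟩
    let g : AbsGal K := AlgEquiv.ofRingEquiv (f := s.toRingEquiv) fun x => hsE _ (hKE x)
    have hg : ∀ x ∈ inertiaField O, g x = x := fun x hx => hsE x (hFE x hx)
    obtain ⟨i, hi, hig⟩ := mem_inertia_of_fix O hg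
    have h1 := (mem_inertia_iff O i).1 hi z hzO
    have h2 : (i : AbsGal K) z = s z := by rw [hig]; rfl
    rw [h2] at h1
    have h3 : (s z) ^ l = z ^ l := by rw [← map_pow, hz, hsE u huE]
    have h4 : s z / z = 1 := by
      refine root_eq_of_val (p := p) O hcop ?_ (one_pow l) ?_
      · rw [div_pow, h3, div_self (pow_ne_zero l hz0)]
      · have h5 : s z / z - 1 = (s z - z) / z := by
          field_simp
        rw [h5, map_div₀, hz1, div_one]
        exact h1
    exact (div_eq_one_iff_eq hz0).1 h4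
  have halg : Algebra.IsAlgebraic (inertiaField O) (AlgebraicClosure K) :=
    Algebra.IsAlgebraic.tower_top (K := K) (inertiaField O)
  have halg' : Algebra.IsAlgebraic E (AlgebraicClosure K) :=
    Algebra.IsAlgebraic.tower_top (K := inertiaField O) E
  obtain ⟨n, hn⟩ := pow_mem_of_fixed (F := E) (Ω := AlgebraicClosure K) hfix
  have hchar : ringExpChar E = p := by
    have h1 : CharP E p := by
      have h2 : CharP (AlgebraicClosure K) p := inferInstance
      exact (algebraMap E (AlgebraicClosure K)).charP (algebraMap E (AlgebraicClosure K)).injective p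
    have h3 : ExpChar E p := inferInstance
    exact (ringExpChar.eq E p).symm ▸ rfl
  rw [hchar] at hn
  obtain ⟨y, hy⟩ := hn
  have h1 : z ^ p ^ n ∈ E := by
    rw [← hy]
    exact y.2
  have h2 : z ^ l ∈ E := by rw [hz]; exact huE
  have h3 : IsCoprime (l : ℤ) ((p ^ n : ℕ) : ℤ) :=
    Nat.isCoprime_iff_coprime.2 (Nat.Coprime.pow_right n hcop.symm)
  obtain ⟨a, b, hab⟩ := h3
  refine ⟨z, ?_, hz⟩
  have h4 : z = (z ^ l) ^ a * (z ^ p ^ n) ^ b := by
    have h5 : (z ^ l) ^ a * (z ^ p ^ n) ^ b = z ^ (a * (l : ℤ) + b * ((p ^ n : ℕ) : ℤ)) := by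
      rw [← zpow_natCast z l, ← zpow_natCast z (p ^ n), ← zpow_mul, ← zpow_mul, ← zpow_add₀ hz0,
        mul_comm (l : ℤ) a, mul_comm ((p ^ n : ℕ) : ℤ) b]
    rw [h5, hab, zpow_one]
  rw [h4]
  exact mul_mem (zpow_mem h2 a) (zpow_mem h1 b)

/-- TASK W5 (second statement). The norm condition.

PROOF. Let `Ω = AlgebraicClosure K`, `F = inertiaField O`, `v = O.valuation`. `F` contains all roots of
unity of order `l ^ n` (`inertia_fix_root`, W4). Let `E`, `a`, `y` be as in `NormCond`, `β = y ^ l`.
(1) A unit `u ∈ E` of `O` is an `l`-th power in `E`: let `z ^ l = u`, `z ∈ Ω`. Each automorphism of `Ω`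
over `E` is in the inertia group (`mem_inertia_of_fix`; it fixes `u`); as in `inertia_fix_of_pow` (the
proof uses only that this automorphism fixes `u`) it fixes `z`. So `z` is purely inseparable over `E`
(`pow_mem_of_fixed`, V0): `z ^ q ^ n ∈ E`, `q` the characteristic exponent, which is prime to `l`, and
`z ^ l ∈ E`, so `z ∈ E`.
(2) `β` is not an `l`-th power in `E` (otherwise `y` is an `l`-th root of unity times an element of
`E`). Let `π` be a uniformizer for `K` (`exists_unif`, W1), and `ϖ ∈ K(β, a) ⊆ E` a uniformizer of the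
trace on the finite extension `K(β, a)` (`exists_unif_adjoin`); `v β = v ϖ ^ m`, and `l ∤ m` by (1), as
otherwise `β = (ϖ ^ (m / l)) ^ l u`. `v a = v ϖ ^ k`; choose `s` with `0 ≤ s < l`, `s m ≡ k` modulo `l`;
then `a / β ^ s = (ϖ ^ j) ^ l u` is an `l`-th power `c ^ l` in `E`. If `l` is odd, the product of the
`l`-th roots of unity is `1`, and if `l = 2` it is `-1 = i ^ 2` with `i ∈ E` of order `4`; in both cases it
is `d ^ l` with `d ∈ E`... (`d = 1`, resp. `d = i`), so `∏ ζ, (ζ y) ^ s = (d ^ s) ^ l β ^ s`. Take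
`x s = c / d ^ s` and `x i = 0` for `i ≠ s`: `∏ ζ, x s (ζ y) ^ s = (c / d^s) ^ l (d ^ s) ^ l β ^ s = a`. -/
theorem normCond_inertia (hpl : p ≠ l) {O : ValuationSubring (AlgebraicClosure K)}
    (hO : IsDiscreteValuationRing (O.comap (algebraMap K (AlgebraicClosure K)))) :
    NormCond l (inertiaField O) (AlgebraicClosure K) := by
  classical
  intro E a y ha ha0 hy hyE
  have hl : l.Prime := Fact.out
  have hl0 : (l : AlgebraicClosure K) ≠ 0 := l_ne_zero (K := AlgebraicClosure K) hpl
  have hFE : ∀ x ∈ inertiaField O, x ∈ E := fun x hx =>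
    E.algebraMap_mem (⟨x, hx⟩ : inertiaField O)
  have hKE : ∀ x : K, algebraMap K (AlgebraicClosure K) x ∈ E := fun x =>
    hFE _ ((inertiaField O).algebraMap_mem x)
  have hroot : ∀ (n : ℕ) (z : AlgebraicClosure K), z ^ l ^ n = 1 → z ∈ E := by
    intro n z hz
    refine hFE z ?_
    unfold inertiaField
    rw [IntermediateField.mem_fixedField_iff]
    rintro f ⟨i, hi, rfl⟩
    exact inertia_fix_root hpl O hi hz
  have hy0 : y ≠ 0 := by
    rintro rfl
    exact hyE (zero_mem E)
  obtain ⟨β, hβ⟩ : ∃ β : AlgebraicClosure K, β = y ^ l := ⟨_, rfl⟩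
  rw [← hβ] at hy
  have hβ0 : β ≠ 0 := by rw [hβ]; exact pow_ne_zero l hy0
  have hnp : ∀ b ∈ E, b ^ l ≠ β := by
    intro b hb hbβ
    have hb0 : b ≠ 0 := by
      rintro rfl
      rw [zero_pow hl.ne_zero] at hbβ
      exact hβ0 hbβ.symm
    have h1 : (y / b) ^ l ^ 1 = 1 := by
      rw [pow_one, div_pow, hbβ, hβ, div_self (pow_ne_zero l hy0)]
    have h2 : y = (y / b) * b := by field_simp
    apply hyE
    rw [h2]
    exact mul_mem (hroot 1 _ h1) hb
  obtain ⟨π, hπ⟩ := exists_unif hO
  let E₁ : IntermediateField K (AlgebraicClosure K) :=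
    IntermediateField.adjoin K ({β, a} : Set (AlgebraicClosure K))
  have hfin : FiniteDimensional K E₁ := by
    refine IntermediateField.finiteDimensional_adjoin ?_
    intro x _
    exact Algebra.IsIntegral.isIntegral x
  have hβ1 : β ∈ E₁ := IntermediateField.subset_adjoin K _ (by simp)
  have ha1 : a ∈ E₁ := IntermediateField.subset_adjoin K _ (by simp)
  have hE₁ : ∀ x ∈ E₁, x ∈ E := by
    intro x hx
    have h1 : E₁ ≤ E.restrictScalars K := by
      rw [IntermediateField.adjoin_le_iff]
      rintro t ht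
      rcases ht with rfl | ht
      · exact hy
      · rw [Set.mem_singleton_iff] at ht
        rw [ht]
        exact ha
    exact h1 hx
  obtain ⟨ϖ, hϖ, -⟩ := exists_unif_adjoin hπ E₁
  have hϖE : (ϖ : AlgebraicClosure K) ∈ E := hE₁ _ ϖ.2
  have hϖ0 : (ϖ : AlgebraicClosure K) ≠ 0 := fun h => hϖ.1 (Subtype.ext h)
  obtain ⟨m, hm⟩ := hϖ.2.2 ⟨β, hβ1⟩ (fun h => hβ0 (congrArg Subtype.val h))
  obtain ⟨k, hk⟩ := hϖ.2.2 ⟨a, ha1⟩ (fun h => ha0 (congrArg Subtype.val h))
  change O.valuation β = O.valuation (ϖ : AlgebraicClosure K) ^ m at hm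
  change O.valuation a = O.valuation (ϖ : AlgebraicClosure K) ^ k at hk
  have hvϖ0 : O.valuation (ϖ : AlgebraicClosure K) ≠ 0 := (Valuation.ne_zero_iff _).2 hϖ0
  have hlm : ¬ (l : ℤ) ∣ m := by
    rintro ⟨m', rfl⟩
    have h1 : O.valuation (β / ((ϖ : AlgebraicClosure K) ^ m') ^ l) = 1 := by
      rw [map_div₀, map_pow, map_zpow₀, hm, ← zpow_natCast, ← zpow_mul, mul_comm m' (l : ℤ)]
      exact div_self (zpow_ne_zero _ hvϖ0)
    have h2 : β / ((ϖ : AlgebraicClosure K) ^ m') ^ l ∈ E :=
      div_mem hy (pow_mem (zpow_mem hϖE m') l)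
    obtain ⟨c, hcE, hc⟩ := w5_pow hpl E h2 h1
    refine hnp ((ϖ : AlgebraicClosure K) ^ m' * c) (mul_mem (zpow_mem hϖE m') hcE) ?_
    rw [mul_pow, hc]
    field_simp
  -- the exponent
  have hcop : IsCoprime m (l : ℤ) := by
    have h1 : Prime (l : ℤ) := Nat.prime_iff_prime_int.1 hl
    exact ((Irreducible.coprime_iff_not_dvd h1.irreducible).2 hlm).symm
  obtain ⟨b₁, b₂, hb⟩ := hcop
  obtain ⟨s, hs, j, hj⟩ : ∃ s : ℕ, s < l ∧ ∃ j : ℤ, k = s * m + l * j := by
    have hlpos : (0 : ℤ) < l := by exact_mod_cast hl.pos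
    refine ⟨(b₁ * k % l).toNat, ?_, b₂ * k + (b₁ * k / l) * m, ?_⟩
    · have h1 := Int.emod_lt_of_pos (b₁ * k) hlpos
      have h2 := Int.emod_nonneg (b₁ * k) hlpos.ne'
      omega
    · have h2 := Int.emod_nonneg (b₁ * k) hlpos.ne'
      rw [Int.toNat_of_nonneg h2]
      have h3 := Int.emod_add_mul_ediv (b₁ * k) l
      have h4 : b₁ * k % l = b₁ * k - l * (b₁ * k / l) := by linarith
      rw [h4]
      have h5 : k = (b₁ * m + b₂ * l) * k := by rw [hb, one_mul]
      calc k = (b₁ * m + b₂ * l) * k := h5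
        _ = _ := by ring
  have h1 : O.valuation (a / (β ^ s * ((ϖ : AlgebraicClosure K) ^ j) ^ l)) = 1 := by
    rw [map_div₀, map_mul, map_pow, map_pow, map_zpow₀, hm, hk, ← zpow_natCast, ← zpow_natCast,
      ← zpow_mul, ← zpow_mul, ← zpow_add₀ hvϖ0, hj,
      show m * (s : ℤ) + j * (l : ℤ) = s * m + l * j by ring]
    exact div_self (zpow_ne_zero _ hvϖ0)
  have h2 : a / (β ^ s * ((ϖ : AlgebraicClosure K) ^ j) ^ l) ∈ E :=
    div_mem ha (mul_mem (pow_mem hy s) (pow_mem (zpow_mem hϖE j) l))
  obtain ⟨c₀, hc₀E, hc₀⟩ := w5_pow hpl E h2 h1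
  set c : AlgebraicClosure K := (ϖ : AlgebraicClosure K) ^ j * c₀ with hc
  have hcE : c ∈ E := mul_mem (zpow_mem hϖE j) hc₀E
  have hca : c ^ l * β ^ s = a := by
    rw [hc, mul_pow, hc₀]
    have h3 : ((ϖ : AlgebraicClosure K) ^ j) ^ l ≠ 0 := pow_ne_zero _ (zpow_ne_zero _ hϖ0)
    have h4 : β ^ s ≠ 0 := pow_ne_zero _ hβ0
    field_simp
  -- the product of the roots of unity
  set P : AlgebraicClosure K := ∏ ζ ∈ Polynomial.nthRootsFinset l (1 : AlgebraicClosure K), ζ with hP
  have hPl : P ^ l = 1 := by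
    rw [hP, ← Finset.prod_pow]
    refine Finset.prod_eq_one fun ζ hζ => ?_
    exact (Polynomial.mem_nthRootsFinset hl.pos _).1 hζ
  obtain ⟨d, hd⟩ := IsAlgClosed.exists_pow_nat_eq P hl.pos
  have hdE : d ∈ E := by
    refine hroot 2 d ?_
    rw [pow_two, pow_mul, hd, hPl]
  have hd0 : d ≠ 0 := by
    rintro rfl
    rw [zero_pow hl.ne_zero] at hd
    rw [← hd, zero_pow hl.ne_zero] at hPl
    exact zero_ne_one hPl
  have hcard : (Polynomial.nthRootsFinset l (1 : AlgebraicClosure K)).card = l := by
    have hζ := (isEps_eps hl0).1 1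
    rw [pow_one] at hζ
    exact hζ.card_nthRootsFinset
  refine ⟨fun i => if i = ⟨s, hs⟩ then c / d ^ s else 0, fun i => ?_, ?_⟩
  · dsimp only
    split_ifs
    · exact div_mem hcE (pow_mem hdE s)
    · exact zero_mem E
  · have h3 : ∀ ζ ∈ Polynomial.nthRootsFinset l (1 : AlgebraicClosure K),
        ∑ i : Fin l, (if i = ⟨s, hs⟩ then c / d ^ s else 0) * (ζ * y) ^ (i : ℕ) =
        (c / d ^ s * y ^ s) * ζ ^ s := by
      intro ζ _
      rw [Finset.sum_eq_single (⟨s, hs⟩ : Fin l)]
      · rw [if_pos rfl, mul_pow]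
        ring
      · intro i _ hi
        rw [if_neg hi, zero_mul]
      · intro h
        exact absurd (Finset.mem_univ _) h
    rw [Finset.prod_congr rfl h3, Finset.prod_mul_distrib, Finset.prod_const, hcard,
      Finset.prod_pow, ← hP, ← hd]
    have h5 : (c / d ^ s * y ^ s) ^ l * (d ^ l) ^ s = c ^ l * β ^ s := by
      have e1 : (d ^ s) ^ l = (d ^ l) ^ s := by rw [← pow_mul, ← pow_mul, mul_comm]
      have e2 : (y ^ s) ^ l = (y ^ l) ^ s := by rw [← pow_mul, ← pow_mul, mul_comm]
      have e3 : (d ^ l) ^ s ≠ 0 := pow_ne_zero _ (pow_ne_zero _ hd0)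
      rw [hβ, mul_pow, div_pow, e1, e2]
      field_simp
    rw [h5, hca]

/-- The elements of the inertia group as automorphisms over the inertia field. -/
private noncomputable def w5_theta (O : ValuationSubring (AlgebraicClosure K)) :
    O.inertiaSubgroup K →*
      (AlgebraicClosure K ≃ₐ[inertiaField O] AlgebraicClosure K) where
  toFun i := AlgEquiv.ofRingEquiv
    (f := ((i : O.decompositionSubgroup K) : AbsGal K).toRingEquiv) fun x => by
      have h := x.2
      unfold inertiaField at h
      rw [IntermediateField.mem_fixedField_iff] at h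
      exact h _ ⟨i, i.2, rfl⟩
  map_one' := by
    ext x
    rfl
  map_mul' i j := by
    ext x
    rfl

private theorem w5_theta_apply (O : ValuationSubring (AlgebraicClosure K))
    (i : O.inertiaSubgroup K) (x : AlgebraicClosure K) :
    w5_theta O i x = ((i : O.decompositionSubgroup K) : AbsGal K) x := rfl

private theorem w5_theta_inj (O : ValuationSubring (AlgebraicClosure K)) :
    Function.Injective (w5_theta O) := by
  intro i j h
  apply Subtype.ext
  apply Subtype.ext
  ext x
  rw [← w5_theta_apply, ← w5_theta_apply, h]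

private theorem w5_theta_cont (O : ValuationSubring (AlgebraicClosure K)) :
    Continuous (w5_theta O) := by
  classical
  refine continuous_of_continuousAt_one (w5_theta O) ?_
  intro s hs
  rw [map_one] at hs
  obtain ⟨E0, hfin, hE0⟩ := (krullTopology_mem_nhds_one_iff (inertiaField O)
    (AlgebraicClosure K) s).1 hs
  have := hfin
  let b := Module.finBasis (inertiaField O) E0
  have hcoe : Continuous (fun i : O.inertiaSubgroup K =>
      ((i : O.decompositionSubgroup K) : AbsGal K)) :=
    continuous_subtype_val.comp continuous_subtype_val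
  have hmem : (⋂ i, (fun i : O.inertiaSubgroup K =>
      ((i : O.decompositionSubgroup K) : AbsGal K)) ⁻¹'
      (MulAction.stabilizer (AbsGal K) ((b i : E0) : AlgebraicClosure K) :
      Set (AbsGal K))) ∈ nhds (1 : O.inertiaSubgroup K) := by
    refine (isOpen_iInter_of_finite fun i => ?_).mem_nhds ?_
    · exact (stabilizer_isOpen_of_isIntegral _).preimage hcoe
    · simp
  rw [Filter.mem_map]
  refine Filter.mem_of_superset hmem fun g hg => hE0 ?_
  rw [SetLike.mem_coe, IntermediateField.mem_fixingSubgroup_iff]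
  intro y hy
  have h1 : (∑ i, b.repr ⟨y, hy⟩ i • ((b i : E0) : AlgebraicClosure K)) = y := by
    have h0 := congrArg E0.val (b.sum_repr ⟨y, hy⟩)
    rw [map_sum] at h0
    simp_rw [map_smul] at h0
    exact h0
  rw [← h1, map_sum]
  refine Finset.sum_congr rfl fun i _ => ?_
  rw [map_smul]
  congr 1
  have h2 := Set.mem_iInter.1 hg i
  exact h2

/-- TASK W5 (third statement). Vanishing of the cohomology.

PROOF. `van_all` (C10) for `F = inertiaField O`, `Ω = AlgebraicClosure K`, `Δ = O.inertiaSubgroup K`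
(compact: V5), `θ : Δ → Aut(Ω / F)` the obvious homomorphism (continuous, injective),
`normCond_inertia`, a primitive `l`-th root of unity in `F` (`inertia_fix_root`); `Δ` acts trivially on
`Tw l w` (`smul_of_mem_inertia`, U0), so the action is discrete; `exists_pow_smul` (B8). -/
theorem van_inertia (hpl : p ≠ l) {O : ValuationSubring (AlgebraicClosure K)}
    (hO : IsDiscreteValuationRing (O.comap (algebraMap K (AlgebraicClosure K)))) :
    Van (O.inertiaSubgroup K) (Tw l w) 1 := by
  have halg : Algebra.IsAlgebraic (inertiaField O) (AlgebraicClosure K) :=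
    Algebra.IsAlgebraic.tower_top (K := K) (inertiaField O)
  have hl0 : (l : AlgebraicClosure K) ≠ 0 := l_ne_zero (K := AlgebraicClosure K) hpl
  have hζ := (isEps_eps hl0).1 1
  rw [pow_one] at hζ
  have hmem : eps (AlgebraicClosure K) l 1 ∈ inertiaField O := by
    unfold inertiaField
    rw [IntermediateField.mem_fixedField_iff]
    rintro f ⟨i, hi, rfl⟩
    refine inertia_fix_root (n := 1) hpl O hi ?_
    rw [pow_one]
    exact hζ.pow_eq_one
  have hζ' : IsPrimitiveRoot (⟨eps (AlgebraicClosure K) l 1, hmem⟩ : inertiaField O) l := by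
    refine IsPrimitiveRoot.of_map_of_injective (f := algebraMap (inertiaField O)
      (AlgebraicClosure K)) ?_ (algebraMap (inertiaField O) (AlgebraicClosure K)).injective
    exact hζ
  refine van_all (Fact.out : l.Prime) (normCond_inertia hpl hO) hζ' (w5_theta_cont O)
    (w5_theta_inj O) (Tw l w) ?_ exists_pow_smul
  intro m
  refine ⟨⊤, isOpen_univ, fun g _ => ?_⟩
  exact smul_of_mem_inertia hpl O g.2 m

end GC
end

section

/-!
# Descent of unramifiedness from the rational function field
-/

namespace GC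

universe u v

variable {K : Type u} [Field K] {l : ℕ} [Fact l.Prime] {w : ℕ} {p : ℕ} [Fact p.Prime] [CharP K p]

omit [Fact l.Prime] in
/-- A normal subgroup acting trivially on `M` acts trivially on its homomorphisms to `M`. -/
private lemma w11_triv {G : Type*} [Group G] [TopologicalSpace G] [IsTopologicalGroup G]
    {M : Type*} [AddCommGroup M] [DistribMulAction G M] {N : Subgroup G} [N.Normal]
    (htriv : ∀ n ∈ N, ∀ m : M, n • m = m) {g : G} (hg : g ∈ N) (χ : HomM N M) : g • χ = χ := by
  refine HomM.ext' fun n => ?_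
  rw [HomM.smul_apply, htriv g hg]
  have h1 : conjN g n = (⟨g, hg⟩ : N)⁻¹ * n * ⟨g, hg⟩ := Subtype.ext rfl
  rw [h1, χ.map_mul, χ.map_mul, χ.map_inv]
  abel

private lemma w11_pull_smul (hpl : p ≠ l) {O : ValuationSubring (AlgebraicClosure K)}
    {O' : ValuationSubring (AlgebraicClosure (RatFunc K))} (h : O'.comap (jj K) = O)
    (g : O'.decompositionSubgroup (RatFunc K)) (χ : HomM (O.inertiaSubgroup K) (Tw l w)) :
    HomM.pull (rsD h) (continuous_rsD h) (twJ K l w) (rsD_inertia h) (rsD h g • χ) =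
      g • HomM.pull (rsD h) (continuous_rsD h) (twJ K l w) (rsD_inertia h) χ := by
  refine HomM.ext' fun n => ?_
  rw [HomM.pull_apply, HomM.smul_apply, twJ_smul (l_ne_zero hpl) h, HomM.smul_apply,
    HomM.pull_apply]
  congr 3
  exact Subtype.ext (by simp [map_mul])

/-- TASK W11 (first statement). Transport of cochains with values in the homomorphisms.

PROOF. Let `P` be the bijection `hom_pull_bijective` (W10), `L = P⁻¹`, and
`f y = L (f' (fun i => s (y i)))`. `P (rsD g' • ψ) = g' • P ψ` (`HomM.smul_apply`, `twJ_smul`; conjugation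
commutes with `rsD`), so `L (g' • ψ') = rsD g' • L ψ'`. The inertia group `I` acts trivially on
`HomM I (Tw l w)` (`χ (n⁻¹ m n) = χ m` and `smul_of_mem_inertia`, U0), likewise `I'` on `HomM I' (Tw l w)`.
* Equivariance: `s (g * y i) = s g * s (y i) * i'` with `i'` in `I'` (property (a), `I'` normal), so
  `f' (s (g y)) = f' (s g * s y) = s g • f' (s y)` and `L (s g • ψ') = rsD (s g) • L ψ' = g • L ψ'`, as
  `rsD (s g) = g * i` with `i ∈ I` (property (c)).
* Right invariance under `I`: `s (y * i) ∈ s y * s i * I' = s y * I'` (properties (a), (d)).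
* Smoothness: `f'` is right invariant under `I'` and under an open subgroup `U₀` of `D'`; let `U₁ ≤ U₀` be
  open normal (`GC.exists_normal`, A1) and `U = U₁ ⊔ I'` (`= U₁ I'`); `f'` is right invariant under `U`.
  Let `V` be as in property (b) for `U`; for `v ∈ V`, `s (y * v) ∈ s y * s v * I' ⊆ s y * U`. -/
theorem transport_hom (hpl : p ≠ l) {O : ValuationSubring (AlgebraicClosure K)}
    {O' : ValuationSubring (AlgebraicClosure (RatFunc K))} (h : IsGauss O O') {π : K}
    (hπ : IsUnif O π)
    {s : O.decompositionSubgroup K → O'.decompositionSubgroup (RatFunc K)}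
    (ha : ∀ g h, (s (g * h))⁻¹ * (s g * s h) ∈ O'.inertiaSubgroup (RatFunc K))
    (hb : ∀ U : Subgroup (O'.decompositionSubgroup (RatFunc K)),
      IsOpen (U : Set (O'.decompositionSubgroup (RatFunc K))) →
      O'.inertiaSubgroup (RatFunc K) ≤ U →
      ∃ V : Subgroup (O.decompositionSubgroup K),
        IsOpen (V : Set (O.decompositionSubgroup K)) ∧ ∀ v ∈ V, s v ∈ U)
    (hc : ∀ g, ∃ i ∈ O.inertiaSubgroup K,
      rs K (s g : AbsGal (RatFunc K)) = ((g * i : O.decompositionSubgroup K) : AbsGal K))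
    (hd : ∀ i ∈ O.inertiaSubgroup K, s i ∈ O'.inertiaSubgroup (RatFunc K)) {n : ℕ}
    {f' : (Fin (n + 1) → O'.decompositionSubgroup (RatFunc K)) →
      HomM (O'.inertiaSubgroup (RatFunc K)) (Tw l w)}
    (hf' : f' ∈ Coch (HomM (O'.inertiaSubgroup (RatFunc K)) (Tw l w))
      (⊤ : Subgroup (O'.decompositionSubgroup (RatFunc K))) (O'.inertiaSubgroup (RatFunc K)) n) :
    ∃ f ∈ Coch (HomM (O.inertiaSubgroup K) (Tw l w))
      (⊤ : Subgroup (O.decompositionSubgroup K)) (O.inertiaSubgroup K) n,
      ∀ y, HomM.pull (rsD h.comap) (continuous_rsD h.comap) (twJ K l w) (rsD_inertia h.comap) (f y) =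
        f' fun i => s (y i) := by
  have hbij := hom_pull_bijective (l := l) (w := w) hpl h hπ
  obtain ⟨P, hP⟩ : ∃ P, P = HomM.pull (rsD h.comap) (continuous_rsD h.comap) (twJ K l w)
    (rsD_inertia h.comap) := ⟨_, rfl⟩
  rw [← hP] at hbij ⊢
  obtain ⟨L, hPL⟩ : ∃ L : HomM (O'.inertiaSubgroup (RatFunc K)) (Tw l w) →
      HomM (O.inertiaSubgroup K) (Tw l w), ∀ ψ, P (L ψ) = ψ :=
    ⟨fun ψ => (hbij.2 ψ).choose, fun ψ => (hbij.2 ψ).choose_spec⟩
  have hLsm : ∀ (g' : O'.decompositionSubgroup (RatFunc K)) (ψ), L (g' • ψ) =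
      rsD h.comap g' • L ψ := by
    intro g' ψ
    apply hbij.1
    have h1 := w11_pull_smul (w := w) hpl h.comap g' (L ψ)
    rw [← hP] at h1
    rw [hPL, h1, hPL]
  have htrI : ∀ i ∈ O.inertiaSubgroup K, ∀ m : Tw l w, i • m = m :=
    fun i hi m => smul_of_mem_inertia hpl O hi m
  obtain ⟨hf1, hf2, U₀, hU₀, hf3⟩ := hf'
  have hmul : ∀ y z : Fin (n + 1) → O.decompositionSubgroup K,
      f' (fun i => s (y i * z i)) = f' (fun i => s (y i) * s (z i)) := by
    intro y z
    have h1 := hf2 (fun i => s (y i * z i))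
      (fun i => (s (y i * z i))⁻¹ * (s (y i) * s (z i))) (fun i => ha _ _)
    rw [← h1]
    congr 1
    funext i
    group
  refine ⟨fun y => L (f' fun i => s (y i)), ⟨?_, ?_, ?_⟩, fun y => hPL _⟩
  · intro g _ y
    obtain ⟨i, hi, hgi⟩ := hc g
    have h1 : rsD h.comap (s g) = g * i := Subtype.ext hgi
    have h2 := hmul (fun _ => g) y
    have h3 := hf1 (s g) trivial (fun i => s (y i))
    change L (f' fun i => s (g * y i)) = g • L (f' fun i => s (y i))
    rw [h2, h3, hLsm, h1, mul_smul, w11_triv htrI hi]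
  · intro y u hu
    have h1 := hmul y u
    have h2 := hf2 (fun i => s (y i)) (fun i => s (u i)) (fun i => hd _ (hu i))
    change L (f' fun i => s (y i * u i)) = L (f' fun i => s (y i))
    rw [h1, h2]
  · obtain ⟨V, hV, hVU⟩ := hb (U₀ ⊔ O'.inertiaSubgroup (RatFunc K))
      (Subgroup.isOpen_mono le_sup_left hU₀) le_sup_right
    refine ⟨V, hV, fun y u hu => ?_⟩
    have h3 : ∀ i, ∃ a ∈ U₀, ∃ b ∈ O'.inertiaSubgroup (RatFunc K), a * b = s (u i) := by
      intro i
      have h4 : s (u i) ∈ ((U₀ ⊔ O'.inertiaSubgroup (RatFunc K) : Subgroup _) : Set _) :=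
        hVU _ (hu i)
      rw [Subgroup.mul_normal] at h4
      exact h4
    choose a ha' b hb' hab using h3
    have h4 : (fun i => s (y i) * s (u i)) = fun i => (s (y i) * a i) * b i := by
      funext i
      rw [← hab, mul_assoc]
    change L (f' fun i => s (y i * u i)) = L (f' fun i => s (y i))
    rw [hmul y u, h4, hf2 (fun i => s (y i) * a i) b hb', hf3 (fun i => s (y i)) a ha']

/-- TASK W11 (second statement). A class of degree at least two which becomes unramified in `K(t)` is
unramified.

PROOF. Let `O` be a valuation ring whose trace on `K` is a discrete valuation ring, `π` a uniformizer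
(`exists_unif`, W1), `O'` a Gauss extension (`exists_gauss`, W6), `D`, `I`, `D'`, `I'` the decomposition
and inertia groups, `s` the section (`exists_section_mod`, W8). By `exists_nf` (A13) for the group `D`
and `I` (`isClosed_inertia`, `disc_sub (disc_tw ..)`, `smul_of_mem_inertia`, `van_inertia`) the
restriction of `x` to `D` has a normal form `b`, `e`. By `IsNF.pull` (W9), with `ρ = rsD`, `α = twJ`
(`twJ_smul`), the cochain `y ↦ twJ (x (rs y))` on `D'`, which is the restriction of
`pullC (ext_jj K) x` to `D'` (`pullC_apply`), has a normal form with edge `e' y = pull (e (rsD y))`. As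
`pullC (ext_jj K) x` is unramified at `O'` (`IsUnif.dvr`, `IsGauss.unif`), there is by
`IsNF.edge_cobd` (A14; the same conditions for `D'`, `I'`) a cochain `f' ∈ Coch ⊤ I' n` with `d f' = e'`.
Let `f` be as in `transport_hom`. Then `pull (d f y) = d f' (s y) = e' (s y) = pull (e (rsD (s y)))`
(`d_map`, `d_comp`), and `rsD (s (y i)) = y i * i'` with `i' ∈ I` (property (c)), so
`e (rsD (s y)) = e y` (`e ∈ Coch ⊤ I`, `IsNF.edge_mem`, A13). As `pull` is injective, `d f = e`. By
`IsNF.inflated` (A15) `x|_D - y ∈ Cobd D` with `y ∈ Coch ⊤ I (n+2)`: `x` is unramified at `O`. -/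
theorem unr_of_ratFunc (hpl : p ≠ l) {n : ℕ} {x : (Fin (n + 3) → AbsGal K) → Tw l w}
    (hx : x ∈ Cocyc (AbsGal K) (Tw l w) (n + 2))
    (hu : IsUnr (pullC l w (ext_jj K) (n + 2) x)) : IsUnr x := by
  intro O hO
  obtain ⟨π, hπ⟩ := exists_unif hO
  obtain ⟨O', hG⟩ := exists_gauss O
  obtain ⟨s, ha, hb, hc, hd⟩ := exists_section_mod hG hπ
  have hl : (l : K) ≠ 0 := l_ne_zero hpl
  have hdx : d x = 0 := hx.2
  obtain ⟨xD, hxD⟩ : ∃ xD : (Fin (n + 3) → O.decompositionSubgroup K) → Tw l w,
      xD = fun y => x fun i => (y i : AbsGal K) := ⟨_, rfl⟩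
  have hxDc : xD ∈ Cocyc (O.decompositionSubgroup K) (Tw l w) (n + 2) := by
    obtain ⟨⟨h1, h2, U, hU, h3⟩, -⟩ := hx
    subst hxD
    refine ⟨⟨fun g _ y => ?_, fun y u hu => ?_, U.subgroupOf _,
      hU.preimage continuous_subtype_val, fun y u hu => ?_⟩, ?_⟩
    · exact h1 (g : AbsGal K) trivial fun i => (y i : AbsGal K)
    · have h4 : (fun i => y i * u i) = y := funext fun i => by
        rw [Subgroup.mem_bot.1 (hu i), mul_one]
      rw [h4]
    · exact h3 (fun i => (y i : AbsGal K)) (fun i => (u i : AbsGal K)) hu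
    · have h5 := d_comp (fun g : O.decompositionSubgroup K => (g : AbsGal K)) x
      rw [hdx] at h5
      exact h5
  have htrI : ∀ i ∈ O.inertiaSubgroup K, ∀ m : Tw l w, i • m = m :=
    fun i hi m => smul_of_mem_inertia hpl O hi m
  have hdisc : Disc (O.decompositionSubgroup K) (Tw l w) :=
    disc_sub (disc_tw K (AlgebraicClosure K)) _
  obtain ⟨b, e, hNF⟩ := exists_nf (O.inertiaSubgroup K) (isClosed_inertia O) hdisc htrI
    (van_inertia hpl hO) hxDc
  obtain ⟨b', hNF'⟩ := hNF.pull (rsD hG.comap) (continuous_rsD hG.comap) (twJ K l w)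
    (fun g m => twJ_smul hl hG.comap g m) (rsD_inertia hG.comap)
  have hO' := (hG.unif hπ).dvr
  obtain ⟨c', hc', hcc⟩ := hu O' hO'
  have hchar : CharP (RatFunc K) p :=
    charP_of_injective_algebraMap (algebraMap K (RatFunc K)).injective p
  have htrI' : ∀ i ∈ O'.inertiaSubgroup (RatFunc K), ∀ m : Tw l w, i • m = m :=
    fun i hi m => smul_of_mem_inertia hpl O' hi m
  have hdc' : d c' = 0 := by
    obtain ⟨z, hz, hz'⟩ := hcc
    have h1 : c' = (fun y : Fin (n + 3) → O'.decompositionSubgroup (RatFunc K) =>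
        pullC l w (ext_jj K) (n + 2) x fun i => (y i : AbsGal (RatFunc K))) - d z := by
      have h2 : d z = (fun y : Fin (n + 3) → O'.decompositionSubgroup (RatFunc K) =>
        pullC l w (ext_jj K) (n + 2) x fun i => (y i : AbsGal (RatFunc K))) - c' := hz'
      rw [h2]
      abel
    have h3 : d (pullC l w (ext_jj K) (n + 2) x) = 0 := (pullC_cocyc hl (ext_jj K) hx).2
    have h4 := d_comp (fun g : O'.decompositionSubgroup (RatFunc K) => (g : AbsGal (RatFunc K)))
      (pullC l w (ext_jj K) (n + 2) x)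
    rw [h3] at h4
    rw [h1, d_sub, d_d, sub_zero]
    exact h4
  have hcc' : (fun y : Fin (n + 3) → O'.decompositionSubgroup (RatFunc K) =>
      twJ K l w (xD fun i => rsD hG.comap (y i))) - c' ∈
      Cobd (O'.decompositionSubgroup (RatFunc K)) (Tw l w) (n + 2) := by
    subst hxD
    exact hcc
  obtain ⟨f', hf', hdf'⟩ := hNF'.edge_cobd (O'.inertiaSubgroup (RatFunc K))
    (isClosed_inertia O') (disc_sub (disc_tw (RatFunc K) (AlgebraicClosure (RatFunc K))) _)
    htrI' (van_inertia hpl hO') hc' hdc' hcc'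
  obtain ⟨f, hf, hff⟩ := transport_hom hpl hG hπ ha hb hc hd hf'
  have hem := hNF.edge_mem htrI
  have hdfe : d f = e := by
    funext y
    apply (hom_pull_bijective (l := l) (w := w) hpl hG hπ).1
    have h1 := congrFun (d_map (HomM.pull (rsD hG.comap) (continuous_rsD hG.comap) (twJ K l w)
      (rsD_inertia hG.comap)) f) y
    rw [← h1, funext hff]
    have h3 := congrFun (d_comp s f') y
    rw [h3, hdf']
    choose i hi hgi using hc
    have h4 : (fun j => rsD hG.comap (s (y j))) = fun j => y j * i (y j) :=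
      funext fun j => Subtype.ext (hgi (y j))
    have h5 : e (fun j => rsD hG.comap (s (y j))) = e y := by
      rw [h4]
      exact hem.1.2.1 y (fun j => i (y j)) fun j => hi _
    rw [← h5]
  obtain ⟨y, hy, -, hxy⟩ := hNF.inflated (O.inertiaSubgroup K) hdisc htrI hxDc hf hdfe
  subst hxD
  exact ⟨y, hy, hxy⟩

end GC
end
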