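import Pool.Agent.Lib.MP_859dd5_ag.Mg.G057

section

/-!
# Vanishing of odd unramified classes on squares of supersingular curves
-/

namespace UnrH3

universe u v w

open Polynomial WeierstrassCurve
open scoped Classical

variable {m : ℕ}

section scaling

variable {K : Type u} {L : Type v} [Field K] [Field L]

/-- The endomorphism of the Milnor K-ring multiplying symbols `{a}` by `c`. -/
noncomputable def sc (K : Type u) [Field K] (c : ZMod m) : KM m K →ₐ[ZMod m] KM m K :=
  lift (fun a => c • usym m a) (fun a b => by rw [usym_mul, smul_add])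
    (fun a b h => by rw [smul_mul_smul_comm, usym_steinberg a b h, smul_zero])

@[simp] lemma sc_sym (c : ZMod m) (a : K) : sc K c (sym m a) = c • sym m a := by
  by_cases ha : a = 0
  · simp [ha]
  rw [sym_of_ne ha, sc, lift_usym]

lemma sc_comp (c d : ZMod m) : (sc K c).comp (sc K d) = sc K (c * d) := by
  apply algHom_ext'
  intro a _
  rw [AlgHom.comp_apply, sc_sym, map_smul, sc_sym, sc_sym, smul_smul, mul_comm]

lemma sc_one : sc K (1 : ZMod m) = AlgHom.id _ _ := by
  apply algHom_ext'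
  intro a _
  rw [sc_sym, one_smul]; rfl

lemma map_pow_eq_sc (f : K →+* K) (q : ℕ) (hf : ∀ x, f x = x ^ q) :
    KM.map m f = sc K (q : ZMod m) := by
  apply algHom_ext'
  intro a ha
  rw [KM.map_sym, sc_sym, hf, sym_pow ha, Nat.cast_smul_eq_nsmul]

lemma map_pow_injective (f : K →+* K) (q : ℕ) (hq : q.Coprime m) (hf : ∀ x, f x = x ^ q) :
    Function.Injective (KM.map m f) := by
  obtain ⟨c, hc⟩ := (ZMod.isUnit_iff_coprime q m).mpr hq
  rw [map_pow_eq_sc f q hf]
  intro x y hxy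
  have h : (sc K (((c⁻¹ : (ZMod m)ˣ) : ZMod m))).comp (sc K (q : ZMod m)) = AlgHom.id _ _ := by
    rw [sc_comp, ← hc, Units.inv_mul, sc_one]
  have h1 := congrArg (fun g : KM m K →ₐ[ZMod m] KM m K => g x) h
  have h2 := congrArg (fun g : KM m K →ₐ[ZMod m] KM m K => g y) h
  simp only [AlgHom.comp_apply, AlgHom.id_apply] at h1 h2
  rw [← h1, ← h2, hxy]

/-- A purely inseparable extension of exponent one induces an injection. -/
lemma map_injective_of_pow (p : ℕ) [hp : Fact p.Prime] [CharP K p] (hpm : p.Coprime m)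
    (j : K →+* L) (h : ∀ z : L, ∃ a : K, j a = z ^ p) : Function.Injective (KM.map m j) := by
  have : CharP L p := charP_of_injective_ringHom j.injective p
  choose r hr using h
  let r' : L →+* K :=
    { toFun := r
      map_one' := j.injective (by rw [hr, map_one, one_pow])
      map_mul' := fun x y => j.injective (by rw [hr, map_mul, hr, hr, mul_pow])
      map_zero' := j.injective (by rw [hr, map_zero, zero_pow hp.out.ne_zero])
      map_add' := fun x y => j.injective (by rw [hr, map_add, hr, hr, add_pow_char]) }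
  have h1 : Function.Injective (KM.map m (r'.comp j)) := by
    apply map_pow_injective _ p hpm
    intro x
    apply j.injective
    change j (r (j x)) = j (x ^ p)
    rw [hr, map_pow]
  intro x y hxy
  apply h1
  rw [← KM.map_map, ← KM.map_map, hxy]

end scaling

section comp

variable {S : Type v} [Field S] {W : WeierstrassCurve S}

/-- Composition of natural endomorphisms. -/
noncomputable def NatEnd.comp (φ ψ : NatEnd.{u} W) : NatEnd.{u} W where
  toFun Ω _ _ := (φ.toFun Ω).comp (ψ.toFun Ω)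
  nat Ω Ω' _ _ _ _ g P := by
    rw [AddMonoidHom.comp_apply, φ.nat, ψ.nat]; rfl
  inCl Ω _ _ T hT P := by
    rw [AddMonoidHom.comp_apply, φ.inCl Ω T hT, ψ.inCl Ω T hT]

end comp

section frobinj

variable {S : Type v} [Field S] {W : WeierstrassCurve S} {p : ℕ} [hp : Fact p.Prime]
  [hS : CharP S p] (hW : ∀ x ∈ ({W.a₁, W.a₂, W.a₃, W.a₄, W.a₆} : Set S), x ^ p ^ 1 = x)
  {K : Type u} [Field K] [Algebra S K] [hG : GoodW W]

include hW in
/-- Pull-back by the Frobenius in one variable is injective. -/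
lemma ev_frob_injective (hpm : p.Coprime m) (β : KM m (FF W K))
    (h : ev (base W K) ((frobEnd W p 1 hW).toFun _ (gpt W K)) β = 0) : β = 0 := by
  have := charP_of_alg (S := S) p (FF W K)
  have hgen : Gen (base W K) ((frobEnd W p 1 hW).toFun _ (gpt W K)) := fun h' =>
    gen_gpt (((frobEnd W p 1 hW).inCl _ _ (range_in_cl _) _).mp h')
  rw [ev_of_gen hgen] at h
  refine (injective_iff_map_eq_zero _).mp (map_injective_of_pow p hpm _ ?_) β h
  have hx : liftPt (base W K) _ hgen (gx W K) = gx W K ^ p := by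
    rw [liftPt_gx]
    change frobHom S p 1 _ (gx W K) = _
    rw [frobHom_apply, pow_one]
  have hy : liftPt (base W K) _ hgen (gy W K) = gy W K ^ p := by
    rw [liftPt_gy]
    change frobHom S p 1 _ (gy W K) = _
    rw [frobHom_apply, pow_one]
  have hb : ∀ a : K, liftPt (base W K) _ hgen (base W K a) = base W K a := by
    intro a
    exact congrArg (fun f : K →ₐ[S] FF W K => f a) (liftPt_base (base W K) _ hgen)
  intro z
  have := FF_range_le (AlgHom.id S (FF W K))
    ((liftPt (base W K) _ hgen : FF W K →+* FF W K).fieldRange.comap (frobenius (FF W K) p))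
    (fun a => ⟨base W K (a ^ p), by
      rw [RingHom.coe_coe, hb, map_pow]; rfl⟩)
    ⟨gx W K, by rw [RingHom.coe_coe, hx]; rfl⟩ ⟨gy W K, by rw [RingHom.coe_coe, hy]; rfl⟩ z
  obtain ⟨a, ha⟩ := this
  exact ⟨a, ha⟩

end frobinj

section vanish

variable {S : Type v} [Field S] {W : WeierstrassCurve S} [hG : GoodW W]

lemma ev_natEnd (χ : NatEnd.{u} W) {K Ω : Type u} [Field K] [Algebra S K] [Field Ω]
    [Algebra S Ω] {i : K →ₐ[S] Ω} {P : Pt W Ω} (h : Gen i P) (β : KM m (FF W K)) :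
    ev i P (ev (base W K) (χ.toFun _ (gpt W K)) β) = ev i (χ.toFun _ P) β := by
  rw [ev_ev h, χ.nat, liftPt_gpt]

/-- Anticommuting endomorphisms force the vanishing of doubly odd unramified classes. -/
theorem vanish_of_anticomm (hm : Odd m) (φ ψ : NatEnd.{u} W)
    (hanti : ∀ (Ω : Type u) [Field Ω] [Algebra S Ω] (P : Pt W Ω),
      φ.toFun Ω (ψ.toFun Ω P) = - ψ.toFun Ω (φ.toFun Ω P))
    (hinj : ∀ (K : Type u) [Field K] [Algebra S K] (β : KM m (FF W K)),
      ev (base W K) ((φ.comp ψ).toFun _ (gpt W K)) β = 0 → β = 0)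
    {K : Type u} [Field K] [Algebra S K] {α : KM m (F2 W K)} (hu : Unr α) (h1 : Odd1 α)
    (h2 : OddCl α) : α = 0 := by
  have hPQ := ind_P2_Q2 W K
  set Q := Q2 W K with hQ
  set P := P2 W K with hP
  have e1 : ev2 (i2 W K) ((φ.comp ψ).toFun _ P) Q α = ev2 (i2 W K) P ((φ.comp ψ).toFun _ Q) α :=
    bal hm (φ.comp ψ) hu h1 h2 hPQ
  have e2 : ev2 (i2 W K) (φ.toFun _ (ψ.toFun _ P)) Q α =
      ev2 (i2 W K) P (ψ.toFun _ (φ.toFun _ Q)) α := by
    rw [bal hm φ hu h1 h2 (ψ.ind_left hPQ), bal hm ψ hu h1 h2 (φ.ind_right hPQ)]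
  have e3 : ψ.toFun _ (φ.toFun _ Q) = - (φ.comp ψ).toFun _ Q := by
    change _ = - φ.toFun _ (ψ.toFun _ Q)
    rw [hanti, neg_neg]
  have hχ : Ind (i2 W K) P ((φ.comp ψ).toFun _ Q) := (φ.comp ψ).ind_right hPQ
  have e4 : ev2 (i2 W K) P ((φ.comp ψ).toFun _ Q) α = 0 := by
    change ev2 (i2 W K) (φ.toFun _ (ψ.toFun _ P)) Q α = _ at e1
    rw [e2, e3, h2.ev2_neg_right hχ] at e1
    apply eq_zero_of_add_self hm
    nth_rewrite 1 [← e1]
    exact neg_add_cancel _
  rw [ev2_eq_ev hχ, liftPt_P2] at e4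
  exact hinj _ α e4

end vanish

section j1728

variable {S : Type v} [Field S] {ι : S} {p : ℕ} [hp : Fact p.Prime]
  [hS : CharP S p]

omit hp in
lemma Wi_good (h2 : p ≠ 2) : GoodW (Wi S) := by
  constructor
  left
  have : ((2 : ℕ) : S) ≠ 0 := by
    rw [Ne, CharP.cast_eq_zero_iff S p]
    intro h
    have := (Nat.prime_two.eq_one_or_self_of_dvd p h)
    rcases this with h3 | h3
    · subst h3
      exact CharP.char_ne_one S 1 rfl
    · exact h2 h3
  exact_mod_cast this

omit hS in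
lemma Wi_frob (s : ℕ) (h2 : p ≠ 2) : ∀ x ∈ ({(Wi S).a₁, (Wi S).a₂, (Wi S).a₃, (Wi S).a₄,
    (Wi S).a₆} : Set S), x ^ p ^ s = x := by
  have hodd : Odd (p ^ s) := (hp.out.odd_of_ne_two h2).pow
  intro x hx
  have hpos : p ^ s ≠ 0 := (pow_pos hp.out.pos s).ne'
  simp only [Wi, Set.mem_insert_iff, Set.mem_singleton_iff] at hx
  rcases hx with rfl | rfl | rfl | rfl | rfl
  · exact zero_pow hpos
  · exact zero_pow hpos
  · exact zero_pow hpos
  · rw [hodd.neg_pow, one_pow]
  · exact zero_pow hpos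

lemma pow_of_mod_four {Ω : Type u} [Field Ω] {i : Ω} (hi : i ^ 2 = -1) {q : ℕ}
    (hq : q % 4 = 3) : i ^ q = - i := by
  obtain ⟨k, rfl⟩ : ∃ k, q = 4 * k + 3 := ⟨q / 4, by omega⟩
  have h4 : i ^ 4 = 1 := by linear_combination (i ^ 2 - 1) * hi
  rw [pow_add, pow_mul, h4, one_pow, one_mul]
  linear_combination i * hi

/-- For `p ≡ 3` modulo `4` and `ι² = -1` in the base field, doubly odd unramified classes on
the square of `y² = x³ - x` vanish. -/
theorem vanish_j1728 (hι : ι ^ 2 = -1) (hm : Odd m) (hp3 : p % 4 = 3) (hpm : p.Coprime m)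
    {K : Type u} [Field K] [Algebra S K] :
    haveI : GoodW (Wi S) := Wi_good (p := p) (by omega)
    ∀ {α : KM m (F2 (Wi S) K)}, Unr α → Odd1 α → OddCl α → α = 0 := by
  have h2 : p ≠ 2 := by omega
  have : GoodW (Wi S) := Wi_good (p := p) h2
  intro α hu h1 h2'
  have hfr := Wi_frob (S := S) (p := p) 1 h2
  refine vanish_of_anticomm hm (cmI hι) (frobEnd (Wi S) p 1 hfr) ?_ ?_ hu h1 h2'
  · intro Ω _ _ P
    rcases P with _ | ⟨x, y, h⟩
    · rfl
    · obtain ⟨h3, e3⟩ := frobEnd_some (Wi S) p 1 hfr h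
      obtain ⟨h4, e4⟩ := cmI_some hι h3
      obtain ⟨h5, e5⟩ := cmI_some hι h
      obtain ⟨h6, e6⟩ := frobEnd_some (Wi S) p 1 hfr h5
      rw [e3, e4, e5, e6, Affine.Point.neg_some]
      have hι' : (algebraMap S Ω ι) ^ 2 = -1 := by rw [← map_pow, hι, map_neg, map_one]
      have hodd : Odd p := hp.out.odd_of_ne_two h2
      refine (Affine.Point.some.injEq _ _ _ _ _ _).mpr ⟨?_, ?_⟩
      · rw [pow_one, hodd.neg_pow]
      · simp only [Affine.negY]
        have e1 : ((Wi S)⁄Ω).a₁ = 0 := map_zero _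
        have e3 : ((Wi S)⁄Ω).a₃ = 0 := map_zero _
        rw [e1, e3, zero_mul, sub_zero, sub_zero, pow_one, mul_pow, pow_of_mod_four hι' hp3]
        ring
  · intro K _ _ β hβ
    change ev (base (Wi S) K) ((cmI hι).toFun _ ((frobEnd (Wi S) p 1 hfr).toFun _
      (gpt (Wi S) K))) β = 0 at hβ
    set γ := ev (base (Wi S) K) ((cmI hι).toFun _ (gpt (Wi S) K)) β with hγ
    have hgen : Gen (base (Wi S) K) ((frobEnd (Wi S) p 1 hfr).toFun _ (gpt (Wi S) K)) := fun h' =>
      gen_gpt (((frobEnd (Wi S) p 1 hfr).inCl _ _ (range_in_cl _) _).mp h')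
    have hγ0 : γ = 0 := by
      apply ev_frob_injective hfr hpm
      rw [hγ, ev_natEnd (cmI hι) hgen]
      exact hβ
    have hgen2 : Gen (base (Wi S) K) (-(cmI hι).toFun _ (gpt (Wi S) K)) := by
      apply Gen.neg
      exact fun h' => gen_gpt (((cmI hι).inCl _ _ (range_in_cl _) _).mp h')
    have h5 := ev_natEnd (cmI hι) hgen2 β
    rw [← hγ, hγ0] at h5
    have h6 : (cmI hι).toFun _ (-(cmI hι).toFun _ (gpt (Wi S) K)) = gpt (Wi S) K := by
      rw [map_neg]
      obtain ⟨h7, e7⟩ := cmI_some hι (gx_gy_nonsingular (Wi S) K)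
      obtain ⟨h8, e8⟩ := cmI_some hι h7
      have h9 : gpt (Wi S) K = .some _ _ (gx_gy_nonsingular (Wi S) K) := rfl
      rw [h9, e7, e8, Affine.Point.neg_some]
      have hι' : (algebraMap S (FF (Wi S) K) ι) ^ 2 = -1 := by
        rw [← map_pow, hι, map_neg, map_one]
      refine (Affine.Point.some.injEq _ _ _ _ _ _).mpr ⟨neg_neg _, ?_⟩
      simp only [Affine.negY]
      have e1 : ((Wi S)⁄(FF (Wi S) K)).a₁ = 0 := map_zero _
      have e3 : ((Wi S)⁄(FF (Wi S) K)).a₃ = 0 := map_zero _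
      rw [e1, e3, zero_mul, sub_zero, sub_zero]
      linear_combination - gy (Wi S) K * hι'
    rw [h6, ev_self] at h5
    rw [← h5, ev_of_gen hgen2, map_zero]

end j1728

end UnrH3
end

section

/-!
# The homogeneous parts of the Milnor K-ring
-/

namespace UnrH3

universe u v w

open Polynomial
open scoped Classical

variable {m : ℕ} {K : Type u} {L : Type v} [Field K] [Field L]

/-- The part of degree `j` of the Milnor K-ring modulo `m`. -/
noncomputable def KM.deg (m : ℕ) (K : Type u) [Field K] (j : ℕ) : Submodule (ZMod m) (KM m K) :=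
  Submodule.span (ZMod m) (Set.range (sym m : K → KM m K)) ^ j

lemma KM.deg_zero_one : (1 : KM m K) ∈ KM.deg m K 0 := by
  unfold KM.deg
  rw [pow_zero]
  exact Submodule.one_le.mp le_rfl

lemma KM.sym_mul_mem {j : ℕ} (a : K) {ξ : KM m K} (h : ξ ∈ KM.deg m K j) :
    sym m a * ξ ∈ KM.deg m K (j + 1) := by
  unfold KM.deg at *
  rw [pow_succ']
  exact Submodule.mul_mem_mul (Submodule.subset_span ⟨a, rfl⟩) h

/-- Induction principle. -/
lemma KM.deg_induction {P : ℕ → KM m K → Prop} (h0 : ∀ r : ZMod m, P 0 (algebraMap _ _ r))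
    (hadd : ∀ j x y, P j x → P j y → P j (x + y)) (hzero : ∀ j, P j 0)
    (hsmul : ∀ j (r : ZMod m) x, P j x → P j (r • x))
    (hmul : ∀ j (a : K) (x : KM m K), P j x → P (j + 1) (sym m a * x)) (j : ℕ) {x : KM m K}
    (hx : x ∈ KM.deg m K j) : P j x := by
  induction j generalizing x with
  | zero =>
    unfold KM.deg at hx
    rw [pow_zero, Submodule.mem_one] at hx
    obtain ⟨r, rfl⟩ := hx
    exact h0 r
  | succ j ih =>
    unfold KM.deg at hx
    rw [pow_succ'] at hx
    induction hx using Submodule.mul_induction_on' with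
    | mem_mul_mem a ha b hb =>
      induction ha using Submodule.span_induction with
      | mem a ha =>
        obtain ⟨a, rfl⟩ := ha
        exact hmul j a b (ih hb)
      | zero => rw [zero_mul]; exact hzero _
      | add a a' _ _ h h' => rw [add_mul]; exact hadd _ _ _ h h'
      | smul r a _ h => rw [smul_mul_assoc]; exact hsmul _ _ _ h
    | add a _ b _ ha hb => exact hadd _ _ _ ha hb

lemma KM.deg_map (f : K →+* L) {j : ℕ} {ξ : KM m K} (h : ξ ∈ KM.deg m K j) :
    KM.map m f ξ ∈ KM.deg m L j := by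
  refine KM.deg_induction (P := fun j ξ => KM.map m f ξ ∈ KM.deg m L j) ?_ ?_ ?_ ?_ ?_ j h
  · intro r
    rw [AlgHom.commutes, Algebra.algebraMap_eq_smul_one]
    exact Submodule.smul_mem _ _ KM.deg_zero_one
  · intro j x y hx hy
    rw [map_add]; exact add_mem hx hy
  · intro j
    rw [map_zero]; exact zero_mem _
  · intro j r x hx
    rw [map_smul]; exact Submodule.smul_mem _ _ hx
  · intro j a x hx
    rw [map_mul, KM.map_sym]
    exact KM.sym_mul_mem _ hx

lemma KM.deg_sc (c : ZMod m) {j : ℕ} {ξ : KM m K} (h : ξ ∈ KM.deg m K j) :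
    sc K c ξ = c ^ j • ξ := by
  refine KM.deg_induction (P := fun j ξ => sc K c ξ = c ^ j • ξ) ?_ ?_ ?_ ?_ ?_ j h
  · intro r
    rw [AlgHom.commutes, pow_zero, one_smul]
  · intro j x y hx hy
    rw [map_add, hx, hy, smul_add]
  · intro j
    rw [map_zero, smul_zero]
  · intro j r x hx
    rw [map_smul, hx, smul_smul, smul_smul, mul_comm]
  · intro j a x hx
    rw [map_mul, sc_sym, hx, smul_mul_smul_comm, pow_succ']

/-- The Frobenius on the part of degree `j`. -/
lemma KM.deg_frob {f : K →+* K} {q : ℕ} (hf : ∀ x, f x = x ^ q) {j : ℕ} {ξ : KM m K}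
    (h : ξ ∈ KM.deg m K j) : KM.map m f ξ = ((q : ℤ) ^ j) • ξ := by
  rw [map_pow_eq_sc f q hf, KM.deg_sc _ h, ← Int.cast_smul_eq_zsmul (ZMod m)]
  push_cast
  rfl

/-- The grading of the Milnor K-ring as a homomorphism to a polynomial ring. -/
noncomputable def KM.gr (m : ℕ) (K : Type u) [Field K] : KM m K →ₐ[ZMod m] (KM m K)[X] :=
  lift (fun a => C (usym m a) * X) (fun a b => by rw [usym_mul, map_add, add_mul])
    (fun a b h => by
      rw [mul_assoc, ← mul_assoc X, X_mul_C, mul_assoc, ← mul_assoc, ← C_mul,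
        usym_steinberg a b h, C_0, zero_mul])

lemma KM.gr_sym (a : K) : KM.gr m K (sym m a) = C (sym m a) * X := by
  by_cases ha : a = 0
  · simp [ha]
  rw [sym_of_ne ha, KM.gr, lift_usym]

lemma KM.gr_algebraMap (r : ZMod m) :
    KM.gr m K (algebraMap (ZMod m) (KM m K) r) = C (algebraMap (ZMod m) (KM m K) r) := by
  rw [AlgHom.commutes]; rfl

lemma KM.gr_smul (r : ZMod m) (x : (KM m K)[X]) : r • x = C (algebraMap (ZMod m) (KM m K) r) * x := by
  rw [Algebra.smul_def]; rfl

lemma KM.deg_gr {j : ℕ} {ξ : KM m K} (h : ξ ∈ KM.deg m K j) :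
    KM.gr m K ξ = C ξ * X ^ j := by
  refine KM.deg_induction (P := fun j ξ => KM.gr m K ξ = C ξ * X ^ j) ?_ ?_ ?_ ?_ ?_ j h
  · intro r
    rw [KM.gr_algebraMap, pow_zero, mul_one]
  · intro j x y hx hy
    rw [map_add, hx, hy, map_add, add_mul]
  · intro j
    rw [map_zero, map_zero, zero_mul]
  · intro j r x hx
    rw [map_smul, hx, KM.gr_smul, Algebra.smul_def, C_mul, mul_assoc]
  · intro j a x hx
    rw [map_mul, KM.gr_sym, hx, C_mul, mul_assoc, ← mul_assoc X, X_mul_C, mul_assoc,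
      ← pow_succ', mul_assoc]

/-- A homogeneous class of degree at least two that is a sum of a constant and a symbol
vanishes. -/
lemma KM.eq_zero_of_deg {j : ℕ} (hj : 2 ≤ j) {ξ : KM m K} (h : ξ ∈ KM.deg m K j) {r : ZMod m}
    {a : K} (he : ξ = algebraMap _ _ r + sym m a) : ξ = 0 := by
  have h1 := KM.deg_gr h
  rw [he, map_add, KM.gr_algebraMap, KM.gr_sym, ← he] at h1
  have h2 := congrArg (fun q : (KM m K)[X] => q.coeff j) h1
  simp only [coeff_add, coeff_C, coeff_C_mul, coeff_X, coeff_X_pow] at h2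
  rw [if_neg (by omega), if_neg (by omega)] at h2
  simp at h2
  exact h2.symm

/-- In a field whose non-zero elements are roots of unity, the Milnor K-ring is trivial in degrees
at least two. -/
lemma sym_mul_sym_of_torsion (hm : Odd m) {a b : K} (ha : ∃ n > 0, a ^ n = 1)
    (hb : ∃ n > 0, b ^ n = 1) : sym m a * sym m b = 0 := by
  obtain ⟨k, hk, ha⟩ := ha
  obtain ⟨l, hl, hb⟩ := hb
  have hkl : k * l ≠ 0 := (Nat.mul_pos hk hl).ne'
  have : NeZero (k * l) := ⟨hkl⟩
  have ha0 : a ≠ 0 := by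
    rintro rfl
    rw [zero_pow hk.ne'] at ha
    exact zero_ne_one ha
  have hb0 : b ≠ 0 := by
    rintro rfl
    rw [zero_pow hl.ne'] at hb
    exact zero_ne_one hb
  have ha' : Units.mk0 a ha0 ∈ rootsOfUnity (k * l) K := by
    rw [mem_rootsOfUnity']
    change a ^ (k * l) = 1
    rw [pow_mul, ha, one_pow]
  have hb' : Units.mk0 b hb0 ∈ rootsOfUnity (k * l) K := by
    rw [mem_rootsOfUnity']
    change b ^ (k * l) = 1
    rw [mul_comm, pow_mul, hb, one_pow]
  obtain ⟨g, hg⟩ := IsCyclic.exists_generator (α := rootsOfUnity (k * l) K)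
  obtain ⟨i, hi⟩ := Subgroup.mem_zpowers_iff.mp (hg ⟨_, ha'⟩)
  obtain ⟨i', hi'⟩ := Subgroup.mem_zpowers_iff.mp (hg ⟨_, hb'⟩)
  have e1 : a = ((g : Kˣ) : K) ^ i := by
    have := congrArg (fun z : rootsOfUnity (k * l) K => ((z : Kˣ) : K)) hi
    simpa using this.symm
  have e2 : b = ((g : Kˣ) : K) ^ i' := by
    have := congrArg (fun z : rootsOfUnity (k * l) K => ((z : Kˣ) : K)) hi'
    simpa using this.symm
  have hg0 : ((g : Kˣ) : K) ≠ 0 := (g : Kˣ).ne_zero
  rw [e1, e2, sym_zpow hg0, sym_zpow hg0, smul_mul_smul_comm, sym_sq hm, smul_zero]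

lemma KM.of_torsion (hm : Odd m) (hK : ∀ a : K, a ≠ 0 → ∃ n > 0, a ^ n = 1) (ξ : KM m K) :
    ∃ (r : ZMod m) (a : K), a ≠ 0 ∧ ξ = algebraMap _ _ r + sym m a := by
  have : NeZero m := ⟨by rintro rfl; exact absurd hm (by decide)⟩
  have hsm : ∀ (c : ZMod m) (a : K), a ≠ 0 → c • sym m a = sym m (a ^ c.val) := by
    intro c a ha
    rw [sym_pow ha, ← Nat.cast_smul_eq_nsmul (ZMod m), ZMod.natCast_zmod_val]
  refine KM.induction (P := fun ξ => ∃ (r : ZMod m) (a : K), a ≠ 0 ∧
    ξ = algebraMap _ _ r + sym m a) ?_ ?_ ?_ ?_ ξ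
  · intro r
    exact ⟨r, 1, one_ne_zero, by rw [sym_one, add_zero]⟩
  · rintro _ _ ⟨r, a, ha, rfl⟩ ⟨r', a', ha', rfl⟩
    refine ⟨r + r', a * a', mul_ne_zero ha ha', ?_⟩
    rw [map_add, sym_mul ha ha']
    abel
  · rintro c _ ⟨r, a, ha, rfl⟩
    refine ⟨c * r, a ^ c.val, pow_ne_zero _ ha, ?_⟩
    rw [smul_add, hsm c a ha, map_mul, Algebra.smul_def]
  · rintro b _ hb ⟨r, a, ha, rfl⟩
    refine ⟨0, b ^ r.val, pow_ne_zero _ hb, ?_⟩
    rw [mul_add, sym_mul_sym_of_torsion hm (hK b hb) (hK a ha), add_zero, map_zero, zero_add,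
      ← hsm r b hb, Algebra.smul_def, Algebra.commutes]

end UnrH3
end
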