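import Pool.Agent.Lib.MP_859dd5_ag.Mg.G057
import Pool.Agent.Lib.MP_859dd5_ag.Mg.G061
import Pool.Agent.Lib.MP_859dd5_ag.Mg.G060
import Pool.Agent.Lib.MP_859dd5_ag.Mg.G038
import Pool.Agent.Lib.MP_859dd5_ag.Mg.G037
import Pool.Agent.Lib.MP_859dd5_ag.Mg.G039
import Pool.Agent.Lib.MP_859dd5_ag.Mg.G036
import Pool.Agent.Lib.MP_859dd5_ag.Mg.G041
import Pool.Agent.Lib.MP_859dd5_ag.EQ.Tor
import Pool.Agent.Lib.MP_859dd5_ag.GC.N0
import Pool.Agent.Lib.MP_859dd5_ag.Mg.G063

section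

section

/-!
# Rational and multiquadratic extensions
-/

namespace UnrH3

universe u v w

open Polynomial
open scoped Classical

variable {m : ℕ} {Λ : Type u} [Field Λ]

section rational

lemma transc_sub {A : Subfield Λ} {a : Λ} (ha : a ∉ cl (A : Set Λ)) (p : A[X])
    (hp : p.eval₂ A.subtype a = 0) : p = 0 := by
  by_contra hp0
  apply ha
  apply mem_cl_of_isAlg (F := A) (subset_cl _)
  exact ⟨p, hp0, hp⟩

lemma from_rat1 (hm : Odd m) {A : Subfield Λ} {a : Λ} (ha : a ∉ cl (A : Set Λ))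
    {ξ : KM m (adj A {a})} (hξ : Unr ξ) : From A (adj A {a}) ξ := by
  let ψ : RatFunc A →+* Λ := IsFractionRing.lift (A := A[X]) (g := eval₂RingHom A.subtype a)
    ((injective_iff_map_eq_zero _).mpr (transc_sub ha))
  have hψ : ∀ f : A[X], ψ (algebraMap A[X] (RatFunc A) f) = f.eval₂ A.subtype a := by
    intro f
    exact IsFractionRing.lift_algebraMap _ f
  have hψc : ∀ c : A, ψ (algebraMap A (RatFunc A) c) = c := by
    intro c
    rw [algebraMap_ratFunc_eq, hψ, eval₂_C]; rfl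
  have hmem : ∀ z, ψ z ∈ adj A {a} := by
    intro z
    have hA : ∀ c : A, (c : Λ) ∈ adj A {a} := fun c => le_adj _ _ c.2
    have ha' : a ∈ adj A {a} := subset_adj _ _ rfl
    have hf : ∀ f : A[X], f.eval₂ A.subtype a ∈ adj A {a} := by
      intro f
      rw [eval₂_eq_sum_range]
      exact sum_mem (fun k _ => mul_mem (hA _) (pow_mem ha' k))
    obtain ⟨f, g, -, rfl⟩ := IsFractionRing.div_surjective (A := A[X]) z
    rw [map_div₀, hψ, hψ]
    exact div_mem (hf f) (hf g)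
  let ψ' : RatFunc A →+* adj A {a} := ψ.codRestrict _ hmem
  have hsurj : Function.Surjective ψ' := by
    intro z
    have hle : adj A {a} ≤ ψ.fieldRange := by
      apply adj_le
      · intro c hc
        exact ⟨algebraMap A (RatFunc A) ⟨c, hc⟩, hψc _⟩
      · rintro c rfl
        exact ⟨RatFunc.X, by rw [← RatFunc.algebraMap_X, hψ, eval₂_X]⟩
    obtain ⟨y, hy⟩ := hle z.2
    exact ⟨y, Subtype.ext hy⟩
  let e : RatFunc A ≃+* adj A {a} := RingEquiv.ofBijective ψ' ⟨ψ'.injective, hsurj⟩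
  obtain ⟨η, hη, hη'⟩ := unr_ratFunc hm (hξ.map (e.symm : adj A {a} →+* RatFunc A))
  refine ⟨le_adj _ _, η, hη, ?_⟩
  have h1 := congrArg (KM.map m (e : RatFunc A →+* adj A {a})) hη'
  rw [KM.map_map, KM.map_map] at h1
  have h2 : (e : RatFunc A →+* adj A {a}).comp (e.symm : adj A {a} →+* RatFunc A) =
      RingHom.id _ := by
    ext z; simp
  have h3 : (e : RatFunc A →+* adj A {a}).comp (algebraMap A (RatFunc A)) =
      Subfield.inclusion (le_adj A {a}) := by
    ext z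
    exact hψc z
  rw [h2, h3, KM.map_id] at h1
  exact h1

lemma From.trans {A B C : Subfield Λ} {ξ : KM m C} (hBC : From B C ξ)
    (hAB : ∀ η : KM m B, Unr η → From A B η) : From A C ξ := by
  obtain ⟨h, η, hη, rfl⟩ := hBC
  obtain ⟨h', η', hη', rfl⟩ := hAB η hη
  exact ⟨h'.trans h, η', hη', (up_up _ _ _).symm⟩

/-- The finite set `T` is algebraically independent over the subfield `A`. -/
def IndSet (A : Subfield Λ) (T : Set Λ) : Prop := ∀ t ∈ T, t ∉ cl ((A : Set Λ) ∪ (T \ {t}))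

lemma IndSet.mono {A : Subfield Λ} {T T' : Set Λ} (h : IndSet A T) (hT : T' ⊆ T) :
    IndSet A T' := fun t ht h' => h t (hT ht) (cl_mono (Set.union_subset_union_right _
      (Set.sdiff_subset_sdiff_left hT)) h')

lemma cl_adj (A : Subfield Λ) (T : Set Λ) : cl (adj A T : Set Λ) = cl ((A : Set Λ) ∪ T) := by
  apply le_antisymm
  · exact cl_le (fun z hz => closure_le_cl _ hz)
  · exact cl_mono Subfield.subset_closure

/-- Unramified classes of a purely transcendental extension are constant. -/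
theorem from_rat (hm : Odd m) {A : Subfield Λ} {T : Set Λ} (hfin : T.Finite)
    (hT : IndSet A T) : ∀ {ξ : KM m (adj A T)}, Unr ξ → From A (adj A T) ξ := by
  induction T, hfin using Set.Finite.induction_on with
  | empty =>
    intro ξ hξ
    refine ⟨le_adj _ _, up m (adj_empty A).le ξ, hξ.map _, ?_⟩
    rw [up_up, up_refl]
  | @insert a T ha _ ih =>
    intro ξ hξ
    have he : adj A (insert a T) = adj (adj A T) {a} := by
      rw [adj_adj, Set.union_comm, Set.singleton_union]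
    have ha' : a ∉ cl (adj A T : Set Λ) := by
      rw [cl_adj]
      have := hT a (Set.mem_insert _ _)
      rwa [Set.insert_sdiff_self_of_notMem ha] at this
    have key : ∀ (B : Subfield Λ), B = adj (adj A T) {a} → ∀ ξ : KM m B, Unr ξ →
        From (adj A T) B ξ := by
      rintro B rfl ξ hξ
      exact from_rat1 hm ha' hξ
    exact (key _ he ξ hξ).trans (fun η hη => ih (hT.mono (Set.subset_insert _ _)) hη)

end rational

section multi

lemma exists_inv_part (hm : Odd m) {K L : Type u} [Field K] [Field L] {j : K →+* L} {θ : L}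
    (h : IsQuad j θ) (σ : L →+* L) (hσ : σ.comp j = j) (hσθ : σ θ ≠ θ)
    (hσσ : σ.comp σ = RingHom.id L) {ξ : KM m L} (hξ : Unr ξ) :
    ∃ (η : KM m K) (ζ : KM m L), Unr η ∧ Unr ζ ∧ KM.map m σ ζ = -ζ ∧
      ξ = KM.map m j η + ζ ∧ ζ = (exists_half (m := m) hm).choose • (ξ - KM.map m σ ξ) := by
  set c := (exists_half (m := m) hm).choose with hc'
  have hc : c + c = 1 := (exists_half (m := m) hm).choose_spec
  have hss : ∀ x : KM m L, KM.map m σ (KM.map m σ x) = x := by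
    intro x
    rw [KM.map_map, hσσ, KM.map_id]; rfl
  obtain ⟨η, hη, hη'⟩ := h.exists_unr_of_invariant hm σ hσ hσθ
    (x := c • (ξ + KM.map m σ ξ)) (by rw [map_smul, map_add, hss, add_comm])
    ((hξ.add (hξ.map _)).smul c)
  refine ⟨η, c • (ξ - KM.map m σ ξ), hη, (hξ.sub (hξ.map _)).smul c, ?_, ?_, rfl⟩
  · rw [map_smul, map_sub, hss, ← smul_neg, neg_sub]
  · rw [hη', ← smul_add]
    have : ξ + KM.map m σ ξ + (ξ - KM.map m σ ξ) = ξ + ξ := by abel
    rw [this, smul_add, ← add_smul, hc, one_smul]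

/-- The set of classes of `B` coming from unramified classes of the subfields `adj F {v}`. -/
noncomputable def SpanFrom (m : ℕ) (F B : Subfield Λ) (D : Set Λ) : AddSubgroup (KM m B) :=
  AddSubgroup.closure {ξ | ∃ v ∈ Submonoid.closure D, From (adj F {v}) B ξ}

lemma SpanFrom.up_mem {F B C : Subfield Λ} {D D' : Set Λ}
    (hD : Submonoid.closure D ≤ Submonoid.closure D') (h : B ≤ C) {ξ : KM m B}
    (hξ : ξ ∈ SpanFrom m F B D) : up m h ξ ∈ SpanFrom m F C D' := by
  unfold SpanFrom at hξ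
  induction hξ using AddSubgroup.closure_induction with
  | mem x hx =>
    obtain ⟨v, hv, h', η, hη, rfl⟩ := hx
    exact AddSubgroup.subset_closure ⟨v, hD hv, h'.trans h, η, hη, (up_up _ _ _).symm⟩
  | zero => rw [map_zero]; exact zero_mem _
  | add x y _ _ hx hy => rw [map_add]; exact add_mem hx hy
  | neg x _ hx => rw [map_neg]; exact neg_mem hx

lemma SpanFrom.of_up {F B C : Subfield Λ} {D D' : Set Λ}
    (hD : Submonoid.closure D ≤ Submonoid.closure D') (h : B ≤ C) (h' : C ≤ B) {ξ : KM m B}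
    (hξ : up m h ξ ∈ SpanFrom m F C D) : ξ ∈ SpanFrom m F B D' := by
  have := SpanFrom.up_mem hD h' hξ
  rwa [up_up, up_refl] at this

lemma isQuad_of_eq {A B : Subfield Λ} (h : A ≤ B) {s : Λ} (hB : B = adj A {s})
    (hs : s ^ 2 ∈ A) (hs' : s ∉ A) (hsB : s ∈ B) :
    IsQuad (Subfield.inclusion h) (⟨s, hsB⟩ : B) := by
  subst hB
  exact isQuad_adj hs hs'

lemma hom_eq_of_gen {B : Subfield Λ} {R : Type v} [Field R] (f g : B →+* R) {F : Subfield Λ}
    {T : Set Λ} (hFB : F ≤ B) (hTB : T ⊆ B) (hF : ∀ z (hz : z ∈ F), f ⟨z, hFB hz⟩ = g ⟨z, hFB hz⟩)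
    (hT : ∀ z (hz : z ∈ T), f ⟨z, hTB hz⟩ = g ⟨z, hTB hz⟩) (z : B) (hz : (z : Λ) ∈ adj F T) :
    f z = g z := by
  have hle : adj F T ≤ (RingHom.eqLocusField f g).map B.subtype := by
    apply adj_le
    · intro z hz
      exact ⟨⟨z, hFB hz⟩, hF z hz, rfl⟩
    · intro z hz
      exact ⟨⟨z, hTB hz⟩, hT z hz, rfl⟩
  obtain ⟨z', hz', he⟩ := hle hz
  have : z' = z := Subtype.ext he
  rw [← this]
  exact hz'

/-- Unramified classes of a multiquadratic extension are sums of classes of quadratic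
subextensions. -/
theorem multi (hm : Odd m) (h2 : (2 : Λ) ≠ 0) {F : Subfield Λ} : ∀ (n : ℕ) (D : Finset Λ),
    D.card ≤ n → (∀ v ∈ D, v ≠ 0 ∧ v ^ 2 ∈ F) → ∀ ξ : KM m (adj F (D : Set Λ)), Unr ξ →
    ξ ∈ SpanFrom m F (adj F (D : Set Λ)) (D : Set Λ) := by
  intro n
  induction n with
  | zero =>
    intro D hD _ ξ hξ
    have hD0 : D = ∅ := Finset.card_eq_zero.mp (by omega)
    subst hD0
    refine AddSubgroup.subset_closure ⟨1, one_mem _, ?_⟩
    refine ⟨adj_le (le_adj _ _) (by rintro z rfl; exact one_mem _),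
      up m ((show adj F ((∅ : Finset Λ) : Set Λ) ≤ adj F {1} by
        rw [Finset.coe_empty, adj_empty]; exact le_adj _ _)) ξ, hξ.map _, ?_⟩
    rw [up_up, up_refl]
  | succ n ih =>
    intro D hD hsq ξ hξ
    by_cases hcard : D.card ≤ n
    · exact ih D hcard hsq ξ hξ
    by_cases hcard1 : D.card ≤ 1
    · -- one generator
      obtain ⟨v, rfl⟩ : ∃ v, D = {v} := Finset.card_eq_one.mp (by omega)
      have he : ((({v} : Finset Λ)) : Set Λ) = {v} := Finset.coe_singleton v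
      refine AddSubgroup.subset_closure ⟨v, Submonoid.subset_closure (by simp), ?_⟩
      refine ⟨by rw [he], up m (by rw [he]) ξ, hξ.map _, ?_⟩
      rw [up_up, up_refl]
    -- two generators to work with
    suffices H : ∀ L : Subfield Λ, L = adj F (D : Set Λ) → ∀ ξ : KM m L, Unr ξ →
        ξ ∈ SpanFrom m F L (D : Set Λ) from H _ rfl ξ hξ
    clear hξ ξ
    intro L hL ξ hξ
    obtain ⟨v₁, hv₁⟩ : D.Nonempty := Finset.card_pos.mp (by omega)
    obtain ⟨D₂, hD₂⟩ : ∃ D₂, D₂ = D.erase v₁ := ⟨_, rfl⟩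
    have hcD₂ : D₂.card + 1 = D.card := by rw [hD₂]; exact Finset.card_erase_add_one hv₁
    obtain ⟨v₂, hv₂'⟩ : D₂.Nonempty := Finset.card_pos.mp (by omega)
    have hv₂ : v₂ ∈ D := by rw [hD₂] at hv₂'; exact Finset.mem_of_mem_erase hv₂'
    have hne : v₂ ≠ v₁ := by rw [hD₂] at hv₂'; exact Finset.ne_of_mem_erase hv₂'
    obtain ⟨D₁, hD₁⟩ : ∃ D₁, D₁ = D.erase v₂ := ⟨_, rfl⟩
    have hcD₁ : D₁.card + 1 = D.card := by rw [hD₁]; exact Finset.card_erase_add_one hv₂
    have hv₁' : v₁ ∈ D₁ := by rw [hD₁]; exact Finset.mem_erase.mpr ⟨hne.symm, hv₁⟩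
    obtain ⟨D₀, hD₀⟩ : ∃ D₀, D₀ = D₂.erase v₂ := ⟨_, rfl⟩
    have hcD₀ : D₀.card + 1 = D₂.card := by rw [hD₀]; exact Finset.card_erase_add_one hv₂'
    obtain ⟨D₃, hD₃⟩ : ∃ D₃, D₃ = insert (v₁ * v₂) D₀ := ⟨_, rfl⟩
    have hcD₃ : D₃.card ≤ n := by
      have := Finset.card_insert_le (v₁ * v₂) D₀
      rw [hD₃]
      omega
    have sD₂ : D₂ ⊆ D := by rw [hD₂]; exact Finset.erase_subset _ _
    have sD₁ : D₁ ⊆ D := by rw [hD₁]; exact Finset.erase_subset _ _
    have sD₀ : D₀ ⊆ D₂ := by rw [hD₀]; exact Finset.erase_subset _ _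
    have hsq₁ : ∀ v ∈ D₁, v ≠ 0 ∧ v ^ 2 ∈ F := fun v hv => hsq v (sD₁ hv)
    have hsq₂ : ∀ v ∈ D₂, v ≠ 0 ∧ v ^ 2 ∈ F := fun v hv => hsq v (sD₂ hv)
    have hsq₀ : ∀ v ∈ D₀, v ≠ 0 ∧ v ^ 2 ∈ F := fun v hv => hsq₂ v (sD₀ hv)
    have hsq₃ : ∀ v ∈ D₃, v ≠ 0 ∧ v ^ 2 ∈ F := by
      intro v hv
      rw [hD₃] at hv
      rcases Finset.mem_insert.mp hv with rfl | hv
      · rw [mul_pow]
        exact ⟨mul_ne_zero (hsq _ hv₁).1 (hsq _ hv₂).1, mul_mem (hsq _ hv₁).2 (hsq _ hv₂).2⟩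
      · exact hsq₀ v hv
    have hv₁0 : v₁ ≠ 0 := (hsq _ hv₁).1
    have hv₂0 : v₂ ≠ 0 := (hsq _ hv₂).1
    obtain ⟨L₁, hL₁⟩ : ∃ L₁, L₁ = adj F (D₁ : Set Λ) := ⟨_, rfl⟩
    obtain ⟨L₂, hL₂⟩ : ∃ L₂, L₂ = adj F (D₂ : Set Λ) := ⟨_, rfl⟩
    obtain ⟨L₃, hL₃⟩ : ∃ L₃, L₃ = adj F (D₃ : Set Λ) := ⟨_, rfl⟩
    have hd₁ : (D : Set Λ) = (D₁ : Set Λ) ∪ {v₂} := by
      ext z
      rw [hD₁, Finset.coe_erase]
      by_cases hz : z = v₂
      · subst hz; simp [hv₂]
      · simp [hz]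
    have hd₂ : (D : Set Λ) = (D₂ : Set Λ) ∪ {v₁} := by
      ext z
      rw [hD₂, Finset.coe_erase]
      by_cases hz : z = v₁
      · subst hz; simp [hv₁]
      · simp [hz]
    have hd₀ : (D : Set Λ) ⊆ (D₀ : Set Λ) ∪ {v₁, v₂} := by
      intro z hz
      by_cases hz1 : z = v₁
      · right; left; exact hz1
      by_cases hz2 : z = v₂
      · right; right; exact hz2
      left
      rw [hD₀, hD₂]
      exact Finset.mem_erase.mpr ⟨hz2, Finset.mem_erase.mpr ⟨hz1, hz⟩⟩
    have hD₀₂ : (D₀ : Set Λ) ⊆ D₂ := sD₀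
    have hD₀₁ : (D₀ : Set Λ) ⊆ D₁ := fun z hz => by
      rw [hD₀, hD₂] at hz
      have h3 := Finset.mem_erase.mp hz
      rw [hD₁]
      exact Finset.mem_erase.mpr ⟨h3.1, Finset.mem_of_mem_erase h3.2⟩
    have hD₀₃ : (D₀ : Set Λ) ⊆ D₃ := fun z hz => by
      rw [hD₃]
      exact Finset.mem_insert_of_mem hz
    have hLL₁ : L = adj L₁ {v₂} := by rw [hL₁, adj_adj, ← hd₁, hL]
    have hLL₂ : L = adj L₂ {v₁} := by rw [hL₂, adj_adj, ← hd₂, hL]
    have hFL : F ≤ L := by rw [hL]; exact le_adj _ _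
    have hDL : (D : Set Λ) ⊆ L := by rw [hL]; exact subset_adj _ _
    have hFL₁ : F ≤ L₁ := by rw [hL₁]; exact le_adj _ _
    have hFL₂ : F ≤ L₂ := by rw [hL₂]; exact le_adj _ _
    have hFL₃ : F ≤ L₃ := by rw [hL₃]; exact le_adj _ _
    have hDL₁ : (D₁ : Set Λ) ⊆ L₁ := by rw [hL₁]; exact subset_adj _ _
    have hDL₂ : (D₂ : Set Λ) ⊆ L₂ := by rw [hL₂]; exact subset_adj _ _
    have hDL₃ : (D₃ : Set Λ) ⊆ L₃ := by rw [hL₃]; exact subset_adj _ _
    have hmemv₁ : v₁ ∈ L := hDL hv₁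
    have hmemv₂ : v₂ ∈ L := hDL hv₂
    have hD₂D : (D₂ : Set Λ) ⊆ D := sD₂
    have hD₁D : (D₁ : Set Λ) ⊆ D := sD₁
    have hle₁ : L₁ ≤ L := by rw [hL, hL₁]; exact adj_mono le_rfl hD₁D
    have hle₂ : L₂ ≤ L := by rw [hL, hL₂]; exact adj_mono le_rfl hD₂D
    have hD₃L : (D₃ : Set Λ) ⊆ L := by
      rw [hD₃, Finset.coe_insert]
      rintro z (rfl | hz)
      · exact mul_mem hmemv₁ hmemv₂
      · exact hDL (hD₂D (hD₀₂ hz))
    have hle₃ : L₃ ≤ L := by rw [hL₃]; exact adj_le hFL hD₃L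
    have hv₁₂ : v₁ * v₂ ∈ L₃ := hDL₃ (by rw [hD₃]; simp)
    have hLL₃ : L = adj L₃ {v₁} := by
      apply le_antisymm
      · conv_lhs => rw [hL]
        apply adj_le (hFL₃.trans (le_adj _ _))
        intro z hz
        rcases hd₀ hz with hz | hz | hz
        · exact le_adj _ _ (hDL₃ (hD₀₃ hz))
        · rw [hz]; exact subset_adj _ _ rfl
        · rw [hz]
          have h3 : v₂ = (v₁ * v₂) / v₁ := by field_simp
          rw [h3]
          exact div_mem (le_adj _ _ hv₁₂) (subset_adj _ _ rfl)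
      · exact adj_le hle₃ (by rintro z rfl; exact hmemv₁)
    -- comparison of the products
    have hc₁ : Submonoid.closure (D₁ : Set Λ) ≤ Submonoid.closure (D : Set Λ) :=
      Submonoid.closure_mono hD₁D
    have hc₂ : Submonoid.closure (D₂ : Set Λ) ≤ Submonoid.closure (D : Set Λ) :=
      Submonoid.closure_mono hD₂D
    have hc₃ : Submonoid.closure (D₃ : Set Λ) ≤ Submonoid.closure (D : Set Λ) := by
      rw [Submonoid.closure_le, hD₃, Finset.coe_insert]
      rintro z (rfl | hz)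
      · exact mul_mem (Submonoid.subset_closure hv₁) (Submonoid.subset_closure hv₂)
      · exact Submonoid.subset_closure (hD₂D (hD₀₂ hz))
    have hn₁ : D₁.card ≤ n := by omega
    have hn₂ : D₂.card ≤ n := by omega
    -- the degenerate cases
    have deg : ∀ (D' : Finset Λ), D'.card ≤ n → (∀ v ∈ D', v ≠ 0 ∧ v ^ 2 ∈ F) →
        Submonoid.closure (D' : Set Λ) ≤ Submonoid.closure (D : Set Λ) →
        adj F (D' : Set Λ) ≤ L → L ≤ adj F (D' : Set Λ) →
        ξ ∈ SpanFrom m F L (D : Set Λ) := by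
      intro D' hcard' hsq' hc' h3 h4
      exact SpanFrom.of_up hc' h4 h3 (ih D' hcard' hsq' _ (hξ.map _))
    by_cases hd1 : v₂ ∈ L₁
    · refine deg D₁ hn₁ hsq₁ hc₁ (by rw [← hL₁]; exact hle₁) ?_
      rw [← hL₁, hLL₁]
      refine adj_le le_rfl ?_
      intro z hz
      rw [Set.mem_singleton_iff.mp hz]
      exact hd1
    by_cases hd2 : v₁ ∈ L₂
    · refine deg D₂ hn₂ hsq₂ hc₂ (by rw [← hL₂]; exact hle₂) ?_
      rw [← hL₂, hLL₂]
      refine adj_le le_rfl ?_
      intro z hz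
      rw [Set.mem_singleton_iff.mp hz]
      exact hd2
    by_cases hd3 : v₁ ∈ L₃
    · refine deg D₃ hcD₃ hsq₃ hc₃ (by rw [← hL₃]; exact hle₃) ?_
      rw [← hL₃, hLL₃]
      refine adj_le le_rfl ?_
      intro z hz
      rw [Set.mem_singleton_iff.mp hz]
      exact hd3
    -- the conjugations
    have q₁ := isQuad_of_eq hle₁ hLL₁ (hFL₁ (hsq _ hv₂).2) hd1 hmemv₂
    have q₂ := isQuad_of_eq hle₂ hLL₂ (hFL₂ (hsq _ hv₁).2) hd2 hmemv₁
    have q₃ := isQuad_of_eq hle₃ hLL₃ (hFL₃ (hsq _ hv₁).2) hd3 hmemv₁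
    obtain ⟨σ₁, hσ₁, hσ₁v⟩ := q₁.exists_conj (c := ⟨v₂ ^ 2, hFL₁ (hsq _ hv₂).2⟩) rfl
    obtain ⟨σ₂, hσ₂, hσ₂v⟩ := q₂.exists_conj (c := ⟨v₁ ^ 2, hFL₂ (hsq _ hv₁).2⟩) rfl
    have fix₁ : ∀ z (hz : z ∈ L₁), σ₁ ⟨z, hle₁ hz⟩ = ⟨z, hle₁ hz⟩ := fun z hz =>
      congrArg (fun f : L₁ →+* L => f ⟨z, hz⟩) hσ₁
    have fix₂ : ∀ z (hz : z ∈ L₂), σ₂ ⟨z, hle₂ hz⟩ = ⟨z, hle₂ hz⟩ := fun z hz =>
      congrArg (fun f : L₂ →+* L => f ⟨z, hz⟩) hσ₂
    have a₁ : σ₁ ⟨v₁, hmemv₁⟩ = ⟨v₁, hmemv₁⟩ := fix₁ v₁ (hDL₁ hv₁')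
    have a₂ : σ₂ ⟨v₂, hmemv₂⟩ = ⟨v₂, hmemv₂⟩ := fix₂ v₂ (hDL₂ hv₂')
    have mem_gen : ∀ z : L, (z : Λ) ∈ adj F (D : Set Λ) := fun z => by rw [← hL]; exact z.2
    have ss₁ : σ₁.comp σ₁ = RingHom.id L := by
      ext1 z
      refine hom_eq_of_gen (σ₁.comp σ₁) (RingHom.id L) hFL hDL ?_ ?_ z (mem_gen z)
      · intro z hz
        change σ₁ (σ₁ _) = _
        rw [fix₁ z (hFL₁ hz), fix₁ z (hFL₁ hz)]; rfl
      · intro z hz
        change σ₁ (σ₁ _) = _
        by_cases hz' : z = v₂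
        · subst hz'
          rw [hσ₁v, map_neg, hσ₁v, neg_neg]; rfl
        · have hz1 : z ∈ L₁ := hDL₁ (by rw [hD₁]; exact Finset.mem_erase.mpr ⟨hz', hz⟩)
          rw [fix₁ z hz1, fix₁ z hz1]; rfl
    have ss₂ : σ₂.comp σ₂ = RingHom.id L := by
      ext1 z
      refine hom_eq_of_gen (σ₂.comp σ₂) (RingHom.id L) hFL hDL ?_ ?_ z (mem_gen z)
      · intro z hz
        change σ₂ (σ₂ _) = _
        rw [fix₂ z (hFL₂ hz), fix₂ z (hFL₂ hz)]; rfl
      · intro z hz
        change σ₂ (σ₂ _) = _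
        by_cases hz' : z = v₁
        · subst hz'
          rw [hσ₂v, map_neg, hσ₂v, neg_neg]; rfl
        · have hz1 : z ∈ L₂ := hDL₂ (by rw [hD₂]; exact Finset.mem_erase.mpr ⟨hz', hz⟩)
          rw [fix₂ z hz1, fix₂ z hz1]; rfl
    have cc : σ₁.comp σ₂ = σ₂.comp σ₁ := by
      ext1 z
      refine hom_eq_of_gen (σ₁.comp σ₂) (σ₂.comp σ₁) hFL hDL ?_ ?_ z (mem_gen z)
      · intro z hz
        change σ₁ (σ₂ _) = σ₂ (σ₁ _)
        rw [fix₁ z (hFL₁ hz), fix₂ z (hFL₂ hz), fix₁ z (hFL₁ hz)]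
      · intro z hz
        change σ₁ (σ₂ _) = σ₂ (σ₁ _)
        rcases hd₀ hz with hz' | hz' | hz'
        · rw [fix₁ z (hDL₁ (hD₀₁ hz')), fix₂ z (hDL₂ (hD₀₂ hz')),
            fix₁ z (hDL₁ (hD₀₁ hz'))]
        · subst hz'
          rw [hσ₂v, map_neg, a₁, hσ₂v]
        · rw [Set.mem_singleton_iff] at hz'
          subst hz'
          rw [hσ₁v, map_neg, a₂, hσ₁v]
    have negne : ∀ (z : Λ) (hz : z ∈ L), z ≠ 0 → -(⟨z, hz⟩ : L) ≠ ⟨z, hz⟩ := by
      intro z hz hz0 he
      have h3 : -z = z := congrArg Subtype.val he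
      have h4 : 2 * z = 0 := by linear_combination -h3
      rcases mul_eq_zero.mp h4 with h5 | h5
      · exact h2 h5
      · exact hz0 h5
    obtain ⟨η₁, ζ₁, hη₁, hζ₁, hζ₁σ, hξ₁, -⟩ := exists_inv_part hm q₁ σ₁ hσ₁
      (by rw [hσ₁v]; exact negne _ _ hv₂0) ss₁ hξ
    obtain ⟨η₂, ζ₂, hη₂, hζ₂, hζ₂σ, hξ₂, hζ₂'⟩ := exists_inv_part hm q₂ σ₂ hσ₂
      (by rw [hσ₂v]; exact negne _ _ hv₁0) ss₂ hζ₁
    have hσ₁ζ₂ : KM.map m σ₁ ζ₂ = -ζ₂ := by
      have h3 : KM.map m σ₁ (KM.map m σ₂ ζ₁) = - KM.map m σ₂ ζ₁ := by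
        rw [KM.map_map, cc, ← KM.map_map, hζ₁σ, map_neg]
      rw [hζ₂', map_smul, map_sub, hζ₁σ, h3, ← smul_neg]
      congr 1
      abel
    have hinv : KM.map m (σ₁.comp σ₂) ζ₂ = ζ₂ := by
      rw [← KM.map_map, hζ₂σ, map_neg, hσ₁ζ₂, neg_neg]
    have hcomp : (σ₁.comp σ₂).comp (Subfield.inclusion hle₃) = Subfield.inclusion hle₃ := by
      ext1 z
      refine hom_eq_of_gen (σ₁.comp σ₂) (RingHom.id L) hFL hD₃L ?_ ?_
        (Subfield.inclusion hle₃ z) (by rw [← hL₃]; exact z.2)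
      · intro z hz
        change σ₁ (σ₂ _) = _
        rw [fix₂ z (hFL₂ hz), fix₁ z (hFL₁ hz)]; rfl
      · intro z hz
        change σ₁ (σ₂ _) = _
        have hz0 := hz
        rw [hD₃] at hz0
        rcases Finset.mem_insert.mp hz0 with hz' | hz'
        · subst hz'
          have h3 : (⟨v₁ * v₂, hD₃L hz⟩ : L) = ⟨v₁, hmemv₁⟩ * ⟨v₂, hmemv₂⟩ := rfl
          rw [h3, map_mul, hσ₂v, a₂, map_mul, map_neg, a₁, hσ₁v, neg_mul_neg]; rfl
        · rw [fix₂ z (hDL₂ (hD₀₂ hz')), fix₁ z (hDL₁ (hD₀₁ hz'))]; rfl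
    obtain ⟨η₃, hη₃, hζ₃⟩ := q₃.exists_unr_of_invariant hm (σ₁.comp σ₂) hcomp (by
      change σ₁ (σ₂ _) ≠ _
      rw [hσ₂v, map_neg, a₁]
      exact negne _ _ hv₁0) hinv hζ₂
    rw [hξ₁, hξ₂, ← hζ₃]
    refine add_mem ?_ (add_mem ?_ ?_)
    · subst hL₁
      exact SpanFrom.up_mem hc₁ hle₁ (ih D₁ hn₁ hsq₁ _ hη₁)
    · subst hL₂
      exact SpanFrom.up_mem hc₂ hle₂ (ih D₂ hn₂ hsq₂ _ hη₂)
    · subst hL₃
      exact SpanFrom.up_mem hc₃ hle₃ (ih D₃ hcD₃ hsq₃ _ hη₃)

end multi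

end UnrH3
end

section

/-!
# Additivity at dependent points
-/

namespace UnrH3

universe u v w

open Polynomial WeierstrassCurve
open scoped Classical

variable {m : ℕ} {S : Type v} [Field S] {W : WeierstrassCurve S} [hG : GoodW W]
  {K Ω : Type u} [Field K] [Algebra S K] [Field Ω] [Algebra S Ω]

lemma cl_range_comp_le {Ω' : Type u} [Field Ω'] [Algebra S Ω'] (i : K →ₐ[S] Ω)
    (g : Ω →ₐ[S] Ω') : cl (Set.range (g.comp i)) ≤ cl (Set.range g) :=
  cl_mono (by rintro _ ⟨a, rfl⟩; exact ⟨i a, rfl⟩)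

/-- Additivity of odd unramified classes at two generic points with generic sum. -/
theorem OddCl.add' (hm : Odd m) {β : KM m (FF W K)} (hβ : Unr β) (hodd : OddCl β)
    {i : K →ₐ[S] Ω} {A B : Pt W Ω} (hA : Gen i A) (hB : Gen i B) (hAB : Gen i (A + B)) :
    ev i (A + B) β = ev i A β + ev i B β := by
  set b := base W Ω with hb
  set Q := gpt W Ω with hQ
  have hQg : Gen b Q := gen_gpt
  have hle : cl (Set.range (b.comp i)) ≤ cl (Set.range b) := cl_range_comp_le i b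
  have hpt : ∀ C : Pt W Ω, InCl (Set.range b) (ptMap b C) := by
    intro C
    change ptX (ptMap b C) ∈ cl (Set.range b)
    rw [ptX_map]
    exact subset_cl _ ⟨_, rfl⟩
  have hS : ∀ s : S, algebraMap S (FF W Ω) s ∈ cl (Set.range b) := range_in_cl b
  -- a point depending only on `Ω` plus `Q` is generic
  have hgen : ∀ C : Pt W Ω, Gen b (ptMap b C + Q) := by
    intro C h
    exact hQg ((InCl_add_iff_right hS (hpt C)).mp h)
  have hgen' : ∀ C : Pt W Ω, Gen (b.comp i) (ptMap b C + Q) := fun C h =>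
    hgen C (h.mono hle)
  have hind : ∀ C : Pt W Ω, Gen i C → Ind (b.comp i) (ptMap b C) Q := by
    intro C hC
    refine ⟨(Gen_map_iff i b C).mpr hC, fun h => hQg (h.mono (cl_le ?_))⟩
    rintro z (rfl | hz)
    · exact hpt C
    · exact hle (subset_cl _ hz)
  have hind2 : Ind (b.comp i) (ptMap b A + Q) (ptMap b B - Q) := by
    refine ⟨hgen' A, fun h => ?_⟩
    have hS' := insert_in_cl (b.comp i) (ptX (ptMap b A + Q))
    have h1 : InCl (insert (ptX (ptMap b A + Q)) (Set.range (b.comp i))) (ptMap b (A + B)) := by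
      have h2 := (InCl_self (T := Set.range (b.comp i)) (ptMap b A + Q)).add hS' h
      have h3 : ptMap b A + Q + (ptMap b B - Q) = ptMap b (A + B) := by
        rw [map_add]; abel
      rwa [h3] at h2
    have h2 : Gen (b.comp i) (ptMap b (A + B)) := (Gen_map_iff i b _).mpr hAB
    have h3 := InCl_exchange h1 h2
    apply hgen A
    refine h3.mono (cl_le ?_)
    rintro z (rfl | hz)
    · exact hpt _
    · exact hle (subset_cl _ hz)
  apply base_injective (W := W) hm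
  rw [map_add]
  have e0 : ∀ C : Pt W Ω, KM.map m (base W Ω : Ω →+* FF W Ω) (ev i C β) =
      ev (b.comp i) (ptMap b C) β := fun C => (ev_map i b C β).symm
  rw [e0, e0, e0]
  have e1 : ptMap b (A + B) = (ptMap b A + Q) + (ptMap b B + -Q) := by
    rw [map_add]; abel
  rw [e1, hodd.add hm hβ (by rw [← sub_eq_add_neg]; exact hind2), hodd.add hm hβ (hind A hA),
    hodd.add hm hβ (hind B hB).neg_right, hodd.ev_neg]
  abel

end UnrH3
end

section

/-!
# Purely transcendental extensions induce injections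
-/

namespace UnrH3

universe u v w

open Polynomial
open scoped Classical

variable {m : ℕ} {Λ : Type u} [Field Λ]

lemma exists_rat_equiv {A : Subfield Λ} {a : Λ} (ha : a ∉ cl (A : Set Λ)) :
    ∃ e : RatFunc A ≃+* adj A {a}, (e : RatFunc A →+* adj A {a}).comp (algebraMap A (RatFunc A)) =
      Subfield.inclusion (le_adj A {a}) := by
  let ψ : RatFunc A →+* Λ := IsFractionRing.lift (A := A[X]) (g := eval₂RingHom A.subtype a)
    ((injective_iff_map_eq_zero _).mpr (transc_sub ha))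
  have hψ : ∀ f : A[X], ψ (algebraMap A[X] (RatFunc A) f) = f.eval₂ A.subtype a := by
    intro f
    exact IsFractionRing.lift_algebraMap _ f
  have hψc : ∀ c : A, ψ (algebraMap A (RatFunc A) c) = c := by
    intro c
    rw [algebraMap_ratFunc_eq, hψ, eval₂_C]; rfl
  have hmem : ∀ z, ψ z ∈ adj A {a} := by
    intro z
    have hA : ∀ c : A, (c : Λ) ∈ adj A {a} := fun c => le_adj _ _ c.2
    have ha' : a ∈ adj A {a} := subset_adj _ _ rfl
    have hf : ∀ f : A[X], f.eval₂ A.subtype a ∈ adj A {a} := by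
      intro f
      rw [eval₂_eq_sum_range]
      exact sum_mem (fun k _ => mul_mem (hA _) (pow_mem ha' k))
    obtain ⟨f, g, -, rfl⟩ := IsFractionRing.div_surjective (A := A[X]) z
    rw [map_div₀, hψ, hψ]
    exact div_mem (hf f) (hf g)
  let ψ' : RatFunc A →+* adj A {a} := ψ.codRestrict _ hmem
  have hsurj : Function.Surjective ψ' := by
    intro z
    have hle : adj A {a} ≤ ψ.fieldRange := by
      apply adj_le
      · intro c hc
        exact ⟨algebraMap A (RatFunc A) ⟨c, hc⟩, hψc _⟩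
      · rintro c rfl
        exact ⟨RatFunc.X, by rw [← RatFunc.algebraMap_X, hψ, eval₂_X]⟩
    obtain ⟨y, hy⟩ := hle z.2
    exact ⟨y, Subtype.ext hy⟩
  refine ⟨RingEquiv.ofBijective ψ' ⟨ψ'.injective, hsurj⟩, ?_⟩
  ext z
  exact hψc z

lemma up_injective_rat1 (hm : Odd m) {A : Subfield Λ} {a : Λ} (ha : a ∉ cl (A : Set Λ)) :
    Function.Injective (up m (le_adj A {a})) := by
  obtain ⟨e, he⟩ := exists_rat_equiv ha
  intro x y hxy
  apply map_ratFunc_injective hm
  have h1 : (e.symm : adj A {a} →+* RatFunc A).comp (Subfield.inclusion (le_adj A {a})) =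
      algebraMap A (RatFunc A) := by
    rw [← he]
    ext z
    simp
  have h2 := congrArg (KM.map m (e.symm : adj A {a} →+* RatFunc A)) hxy
  unfold up at h2
  rw [KM.map_map, KM.map_map, h1] at h2
  exact h2

theorem up_injective_rat (hm : Odd m) {A : Subfield Λ} {T : Set Λ} (hfin : T.Finite)
    (hT : IndSet A T) : Function.Injective (up m (le_adj A T)) := by
  induction T, hfin using Set.Finite.induction_on with
  | empty =>
    intro x y hxy
    have h1 := congrArg (up m (adj_empty A).le) hxy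
    rwa [up_up, up_up, up_refl, up_refl] at h1
  | @insert a T ha _ ih =>
    intro x y hxy
    have he : adj A (insert a T) = adj (adj A T) {a} := by
      rw [adj_adj, Set.union_comm, Set.singleton_union]
    have ha' : a ∉ cl (adj A T : Set Λ) := by
      rw [cl_adj]
      have := hT a (Set.mem_insert _ _)
      rwa [Set.insert_sdiff_self_of_notMem ha] at this
    apply ih (hT.mono (Set.subset_insert _ _))
    apply up_injective_rat1 hm ha'
    rw [up_up, up_up]
    have h1 := congrArg (up m he.le) hxy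
    rwa [up_up, up_up] at h1

end UnrH3
end

section

/-!
# The Galois cohomology groups as functors
-/

namespace GC

universe u v w

section

variable {K L F : Type u} [Field K] [Field L] [Field F] {l : ℕ} [Fact l.Prime] {w i : ℕ}

/-- The class of a cocycle. -/
noncomputable def cls (c : (Fin (i + 1) → AbsGal K) → Tw l w) (hc : c ∈ Cocyc (AbsGal K) (Tw l w) i) :
    GalH l w i K := QuotientAddGroup.mk ⟨c, hc⟩

lemma exists_cls (x : GalH l w i K) :
    ∃ (c : (Fin (i + 1) → AbsGal K) → Tw l w) (hc : c ∈ Cocyc (AbsGal K) (Tw l w) i),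
      x = cls c hc := by
  obtain ⟨⟨c, hc⟩, rfl⟩ := QuotientAddGroup.mk_surjective x
  exact ⟨c, hc, rfl⟩

lemma cls_eq_iff {c c' : (Fin (i + 1) → AbsGal K) → Tw l w}
    {hc : c ∈ Cocyc (AbsGal K) (Tw l w) i} {hc' : c' ∈ Cocyc (AbsGal K) (Tw l w) i} :
    cls c hc = cls c' hc' ↔ c - c' ∈ Cobd (AbsGal K) (Tw l w) i := by
  unfold cls
  rw [QuotientAddGroup.eq, AddSubgroup.mem_addSubgroupOf]
  have h : ((-(⟨c, hc⟩ : Cocyc (AbsGal K) (Tw l w) i) + ⟨c', hc'⟩ :
    Cocyc (AbsGal K) (Tw l w) i) : (Fin (i + 1) → AbsGal K) → Tw l w) = -(c - c') := by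
    change -c + c' = -(c - c')
    abel
  rw [h, neg_mem_iff]

lemma cls_add {c c' : (Fin (i + 1) → AbsGal K) → Tw l w}
    (hc : c ∈ Cocyc (AbsGal K) (Tw l w) i) (hc' : c' ∈ Cocyc (AbsGal K) (Tw l w) i) :
    cls (c + c') (add_mem hc hc') = cls c hc + cls c' hc' := rfl

lemma cls_nsmul {c : (Fin (i + 1) → AbsGal K) → Tw l w}
    (hc : c ∈ Cocyc (AbsGal K) (Tw l w) i) (N : ℕ) :
    cls (N • c) (nsmul_mem hc N) = N • cls c hc := rfl

lemma cls_eq_zero_iff {c : (Fin (i + 1) → AbsGal K) → Tw l w}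
    {hc : c ∈ Cocyc (AbsGal K) (Tw l w) i} :
    cls c hc = 0 ↔ c ∈ Cobd (AbsGal K) (Tw l w) i := by
  have h : (0 : GalH l w i K) = cls 0 (zero_mem _) := rfl
  rw [h, cls_eq_iff, sub_zero]

lemma cls_mem_unr {c : (Fin (i + 1) → AbsGal K) → Tw l w}
    {hc : c ∈ Cocyc (AbsGal K) (Tw l w) i} :
    cls c hc ∈ UnrH K (Tw l w) i ↔ IsUnr c := by
  constructor
  · rintro ⟨⟨c', hc'⟩, h1, h2⟩
    have h3 : IsUnr c' := h1.2
    have h4 : cls c' hc' = cls c hc := h2
    rw [cls_eq_iff] at h4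
    intro O hO
    have h5 := (h3 O hO).add (unrAt_of_cobd O (neg_mem h4))
    convert h5 using 1
    abel
  · intro h
    exact ⟨⟨c, hc⟩, ⟨hc, h⟩, rfl⟩

/-- The homomorphism of the cocycles. -/
noncomputable def cocMap (hl : (l : K) ≠ 0) (f : K →+* L) (w i : ℕ) :
    Cocyc (AbsGal K) (Tw l w) i →+ Cocyc (AbsGal L) (Tw l w) i where
  toFun c := ⟨pullC l w (ext_emb f) i c, pullC_cocyc hl (ext_emb f) c.2⟩
  map_zero' := Subtype.ext (map_zero _)
  map_add' _ _ := Subtype.ext (map_add _ _ _)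

open Classical in
/-- The map of the Galois cohomology groups attached to a homomorphism of fields. -/
noncomputable def Hmap (l : ℕ) [Fact l.Prime] (w i : ℕ) (f : K →+* L) :
    GalH l w i K →+ GalH l w i L :=
  if hl : (l : K) ≠ 0 then
    QuotientAddGroup.map _ _ (cocMap hl f w i) fun c hc => by
      rw [AddSubgroup.mem_comap, AddSubgroup.mem_addSubgroupOf]
      exact pullC_cobd hl (ext_emb f) hc
  else 0

/-- The map may be computed with any extension of `f` to the algebraic closures. -/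
theorem Hmap_cls (hl : (l : K) ≠ 0) {f : K →+* L}
    {φ : AlgebraicClosure K →+* AlgebraicClosure L} (hφ : Ext f φ)
    {c : (Fin (i + 1) → AbsGal K) → Tw l w} (hc : c ∈ Cocyc (AbsGal K) (Tw l w) i) :
    Hmap l w i f (cls c hc) = cls (pullC l w hφ i c) (pullC_cocyc hl hφ hc) := by
  have h : Hmap l w i f (cls c hc) =
      cls (pullC l w (ext_emb f) i c) (pullC_cocyc hl (ext_emb f) hc) := by
    unfold Hmap
    rw [dif_pos hl]
    rfl
  rw [h, cls_eq_iff]
  exact pullC_indep hl (ext_emb f) hφ hc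

theorem Hmap_id (hl : (l : K) ≠ 0) (x : GalH l w i K) : Hmap l w i (RingHom.id K) x = x := by
  obtain ⟨c, hc, rfl⟩ := exists_cls x
  rw [Hmap_cls hl Ext.id, cls_eq_iff, pullC_id hl, sub_self]
  exact zero_mem _

omit [Fact l.Prime] in
lemma natCast_ne_zero_map {f : K →+* L} (hl : (l : K) ≠ 0) : (l : L) ≠ 0 := by
  rw [← map_natCast f l]
  exact (map_ne_zero f).mpr hl

theorem Hmap_comp (hl : (l : K) ≠ 0) (f : K →+* L) (g : L →+* F) (x : GalH l w i K) :
    Hmap l w i (g.comp f) x = Hmap l w i g (Hmap l w i f x) := by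
  obtain ⟨c, hc, rfl⟩ := exists_cls x
  have hl' : (l : L) ≠ 0 := natCast_ne_zero_map (f := f) hl
  rw [Hmap_cls hl ((ext_emb f).comp (ext_emb g)), Hmap_cls hl (ext_emb f),
    Hmap_cls hl' (ext_emb g), cls_eq_iff, pullC_comp hl (ext_emb f) (ext_emb g), sub_self]
  exact zero_mem _

/-- Unramified classes remain unramified. -/
theorem Hmap_unr (hl : (l : K) ≠ 0) (f : K →+* L) {x : GalH l w i K}
    (hx : x ∈ UnrH K (Tw l w) i) : Hmap l w i f x ∈ UnrH L (Tw l w) i := by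
  obtain ⟨c, hc, rfl⟩ := exists_cls x
  rw [Hmap_cls hl (ext_emb f), cls_mem_unr]
  exact isUnr_pullC hl (ext_emb f) hc.1 (cls_mem_unr.mp hx)

open Classical in
/-- The specialization map from the classes of the field of Laurent series. -/
noncomputable def spH (K : Type u) [Field K] (l : ℕ) [Fact l.Prime] (w i : ℕ) :
    GalH l w i (LaurentSeries K) →+ GalH l w i K :=
  if hl : (l : K) ≠ 0 then
    QuotientAddGroup.map _ _ (AddMonoidHom.mk'
      (fun c : Cocyc (AbsGal (LaurentSeries K)) (Tw l w) i =>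
        (⟨spC K l w i c, spC_cocyc hl c.2⟩ : Cocyc (AbsGal K) (Tw l w) i))
      fun a b => Subtype.ext (map_add _ _ _)) fun c hc => by
      rw [AddSubgroup.mem_comap, AddSubgroup.mem_addSubgroupOf]
      exact spC_cobd hl hc
  else 0

lemma spH_cls (hl : (l : K) ≠ 0) {c : (Fin (i + 1) → AbsGal (LaurentSeries K)) → Tw l w}
    (hc : c ∈ Cocyc (AbsGal (LaurentSeries K)) (Tw l w) i) :
    spH K l w i (cls c hc) = cls (spC K l w i c) (spC_cocyc hl hc) := by
  unfold spH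
  rw [dif_pos hl]
  rfl

/-- The specialization of a class defined over a field contained in `K[[T]]`. -/
theorem spH_Hmap (hl : (l : F) ≠ 0) (f : F →+* PowerSeries K) (x : GalH l w i F) :
    spH K l w i (Hmap l w i ((HahnSeries.ofPowerSeries ℤ K).comp f) x) =
      Hmap l w i ((PowerSeries.constantCoeff (R := K)).comp f) x := by
  obtain ⟨c, hc, rfl⟩ := exists_cls x
  have hlK : (l : K) ≠ 0 :=
    natCast_ne_zero_map (f := (PowerSeries.constantCoeff (R := K)).comp f) hl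
  obtain ⟨φ₀, hφ₀, -, h2⟩ := spC_pullC (w := w) hl f
    (ext_emb ((HahnSeries.ofPowerSeries ℤ K).comp f))
  rw [Hmap_cls hl (ext_emb _), spH_cls hlK, Hmap_cls hl hφ₀, cls_eq_iff, h2, sub_self]
  exact zero_mem _

/-- Naturality of the specialization. -/
theorem spH_natural (hl : (l : K) ≠ 0) (f₀ : K →+* L) (x : GalH l w i (LaurentSeries K)) :
    spH L l w i (Hmap l w i (hmap (Γ := ℤ) f₀ : LaurentSeries K →+* LaurentSeries L) x) =
      Hmap l w i f₀ (spH K l w i x) := by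
  obtain ⟨c, hc, rfl⟩ := exists_cls x
  have hl' : (l : LaurentSeries K) ≠ 0 :=
    natCast_ne_zero_map (f := (HahnSeries.ofPowerSeries ℤ K).comp (PowerSeries.C (R := K))) hl
  have hlL : (l : L) ≠ 0 := natCast_ne_zero_map (f := f₀) hl
  rw [Hmap_cls hl' (ext_emb _), spH_cls hlL, spH_cls hl, Hmap_cls hl (ext_emb f₀), cls_eq_iff]
  exact spC_natural hl f₀ (ext_emb _) (ext_emb f₀) hc

/-- The kernel of the map attached to a finite extension. -/
theorem Hmap_kernel (hl : (l : K) ≠ 0) [Algebra K L] [FiniteDimensional K L]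
    {x : GalH l w i K} (hx : Hmap l w i (algebraMap K L) x = 0) :
    Module.finrank K L • x = 0 := by
  obtain ⟨c, hc, rfl⟩ := exists_cls x
  rw [Hmap_cls hl (ext_emb _), cls_eq_zero_iff] at hx
  rw [← cls_nsmul, cls_eq_zero_iff]
  exact finite_kernel hl (ext_emb _) hc hx

/-- Galois descent for unramified classes. -/
theorem Hmap_galois_unr {p : ℕ} [Fact p.Prime] [CharP K p] (hpl : p ≠ l) [Algebra K L]
    [FiniteDimensional K L] [IsGalois K L] {x : GalH l w i K}
    (hx : Hmap l w i (algebraMap K L) x ∈ UnrH L (Tw l w) i) :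
    Module.finrank K L • x ∈ UnrH K (Tw l w) i := by
  obtain ⟨c, hc, rfl⟩ := exists_cls x
  rw [Hmap_cls (l_ne_zero hpl) (ext_emb _), cls_mem_unr] at hx
  rw [← cls_nsmul, cls_mem_unr]
  exact isUnr_of_galois hpl (ext_emb _) hc hx

/-- The trace. -/
theorem Hmap_trace (hl : (l : K) ≠ 0) [Algebra K L] [FiniteDimensional K L] [IsGalois K L]
    (x : GalH l w i L) : ∃ y : GalH l w i K,
      Hmap l w i (algebraMap K L) y = ∑ σ : L ≃ₐ[K] L, Hmap l w i (σ : L →+* L) x := by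
  obtain ⟨c, hc, rfl⟩ := exists_cls x
  have hlL : (l : L) ≠ 0 := natCast_ne_zero_map (f := algebraMap K L) hl
  obtain ⟨C, hC, h⟩ := galois_trace hl (ext_emb (algebraMap K L)) hc
  refine ⟨cls C hC, ?_⟩
  have h1 : ∀ s : Finset (L ≃ₐ[K] L),
      ∑ σ ∈ s, Hmap l w i (σ : L →+* L) (cls c hc) =
      cls (∑ σ ∈ s, pullC l w (ext_emb (σ : L →+* L)) i c)
        (sum_mem fun σ _ => pullC_cocyc hlL (ext_emb (σ : L →+* L)) hc) := by
    intro s
    classical
    induction s using Finset.induction_on with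
    | empty => rfl
    | insert σ s hσ ih =>
      rw [Finset.sum_insert hσ, ih, Hmap_cls hlL (ext_emb (σ : L →+* L)), ← cls_add, cls_eq_iff,
        Finset.sum_insert hσ, sub_self]
      exact zero_mem _
  rw [h1, Hmap_cls hl (ext_emb _), cls_eq_iff]
  exact h

/-- The unramified classes of `K(t)` come from `K`. -/
theorem Hmap_descent {p : ℕ} [Fact p.Prime] [CharP K p] (hpl : p ≠ l) {n : ℕ}
    {x : GalH l w (n + 2) (RatFunc K)} (hx : x ∈ UnrH (RatFunc K) (Tw l w) (n + 2)) :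
    ∃ y : GalH l w (n + 2) K, Hmap l w (n + 2) (algebraMap K (RatFunc K)) y = x := by
  obtain ⟨c, hc, rfl⟩ := exists_cls x
  obtain ⟨y, hy, h⟩ := unr_descent hpl hc (cls_mem_unr.mp hx)
  refine ⟨cls y hy, ?_⟩
  rw [Hmap_cls (l_ne_zero hpl) (ext_emb _), cls_eq_iff, ← neg_mem_iff, neg_sub]
  exact h

/-- The action of the Frobenius endomorphisms. -/
theorem Hmap_frob {p : ℕ} [Fact p.Prime] [CharP K p] (hpl : p ≠ l) (f : K →+* K) (r : ℕ)
    (hf : ∀ x, f x = x ^ p ^ r) (x : GalH l w i K) : Hmap l w i f x = (p ^ r) ^ w • x := by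
  obtain ⟨c, hc, rfl⟩ := exists_cls x
  obtain ⟨φ, hφ, h⟩ := pullC_frob (w := w) hpl f r hf
  rw [Hmap_cls (l_ne_zero hpl) hφ, ← cls_nsmul, cls_eq_iff, h, sub_self]
  exact zero_mem _

end

end GC
end

section

/-!
# The functor of the Galois cohomology groups in characteristic `p`
-/

namespace GC

open UnrA

universe u v

/-- The group of the classes of the field `K`, if `K` has characteristic `p`, and the trivial group
otherwise. -/
def GObj (p l w i : ℕ) [Fact l.Prime] (K : Type u) [Field K] : AddSubgroup (GalH l w i K) where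
  carrier := {x | ¬ CharP K p → x = 0}
  zero_mem' _ := rfl
  add_mem' ha hb h := by rw [ha h, hb h, add_zero]
  neg_mem' ha h := by rw [ha h, neg_zero]

section

variable {p l w i : ℕ} [Fact p.Prime] [Fact l.Prime] {K L : Type u} [Field K] [Field L]

omit [Fact p.Prime] in
lemma mem_gobj [h : CharP K p] (x : GalH l w i K) : x ∈ GObj p l w i K := fun h' => absurd h h'

omit [Fact p.Prime] in
lemma gobj_eq_zero (h : ¬ CharP K p) (x : GObj p l w i K) : x = 0 := Subtype.ext (x.2 h)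

/-- The maps. -/
noncomputable def gmap (p l w i : ℕ) [Fact l.Prime] (f : K →+* L) :
    GObj p l w i K →+ GObj p l w i L :=
  ((Hmap l w i f).comp (GObj p l w i K).subtype).codRestrict (GObj p l w i L) fun x h => by
    have h1 : ¬ CharP K p := fun h' => h (charP_of_injective_ringHom f.injective p)
    have h2 : (x : GalH l w i K) = 0 := x.2 h1
    change Hmap l w i f x = 0
    rw [h2, map_zero]

omit [Fact p.Prime] in
@[simp] lemma gmap_coe (f : K →+* L) (x : GObj p l w i K) :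
    ((gmap p l w i f x : GObj p l w i L) : GalH l w i L) = Hmap l w i f x := rfl

end

/-- The Galois cohomology groups of the fields of characteristic `p`, with the unramified classes. -/
noncomputable def GalF (p l w i : ℕ) [Fact l.Prime] : FieldGroups.{u, u} where
  obj K _ := GObj p l w i K
  nr K _ := (UnrH K (Tw l w) i).addSubgroupOf (GObj p l w i K)
  map f := gmap p l w i f

lemma galF_eq_zero {p l w i : ℕ} [Fact l.Prime] {K : Type u} [Field K] (h : ¬ CharP K p)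
    (x : (GalF.{u} p l w i).obj K) : x = 0 := gobj_eq_zero h x

section

variable {p l w i : ℕ} [Fact p.Prime] [Fact l.Prime] (hpl : p ≠ l)

include hpl

theorem galF_isFunctor : (GalF.{u} p l w i).IsFunctor := by
  refine ⟨fun {K} _ x => ?_, fun {K L E} _ _ _ f g x => ?_⟩
  · by_cases h : CharP K p
    · exact Subtype.ext (Hmap_id (l_ne_zero hpl) _)
    · rw [galF_eq_zero h x, map_zero]
  · by_cases h : CharP K p
    · exact Subtype.ext (Hmap_comp (l_ne_zero hpl) f g _)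
    · rw [galF_eq_zero h x, map_zero, map_zero, map_zero]

theorem galF_mapsUnramified : (GalF.{u} p l w i).MapsUnramified := by
  intro K L _ _ f x hx
  by_cases h : CharP K p
  · exact Hmap_unr (l_ne_zero hpl) f hx
  · rw [galF_eq_zero h x, map_zero]
    exact zero_mem _

theorem galF_finiteKernel : (GalF.{u} p l w i).FiniteKernel := by
  intro K L _ _ _ _ x hx
  by_cases h : CharP K p
  · exact Subtype.ext (Hmap_kernel (l_ne_zero hpl) (Subtype.ext_iff.mp hx))
  · rw [galF_eq_zero h x, smul_zero]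

theorem galF_galoisUnramified : (GalF.{u} p l w i).GaloisUnramified := by
  intro K L _ _ _ _ _ x hx
  by_cases h : CharP K p
  · exact Hmap_galois_unr hpl hx
  · rw [galF_eq_zero h x, smul_zero]
    exact zero_mem _

theorem galF_galoisTrace : (GalF.{u} p l w i).GaloisTrace := by
  intro K L _ _ _ _ _ x
  by_cases h : CharP K p
  · obtain ⟨y, hy⟩ := Hmap_trace (l_ne_zero hpl) (K := K) (L := L) (w := w) (i := i) x.1
    refine ⟨⟨y, mem_gobj y⟩, Subtype.ext ?_⟩
    refine hy.trans ?_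
    exact (AddSubgroup.val_finsetSum (GObj p l w i L)
      (fun σ : L ≃ₐ[K] L => gmap p l w i (σ : L →+* L) x) Finset.univ).symm
  · have h' : ¬ CharP L p := fun h' => h
      ((RingHom.charP_iff (algebraMap K L) (algebraMap K L).injective p).mpr h')
    refine ⟨0, ?_⟩
    rw [galF_eq_zero h' x, map_zero]
    exact (Finset.sum_eq_zero fun σ _ => map_zero _).symm

omit [Fact p.Prime] hpl in
lemma charP_laurent {K : Type u} [Field K] (h : ¬ CharP K p) : ¬ CharP (LaurentSeries K) p :=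
  fun h' => h ((RingHom.charP_iff ((HahnSeries.ofPowerSeries ℤ K).comp (PowerSeries.C (R := K)))
    (RingHom.injective _) p).mpr h')

omit [Fact p.Prime] hpl in
/-- The specialization. -/
noncomputable def gsp (p l w i : ℕ) [Fact l.Prime] (K : Type u) [Field K] :
    (GalF.{u} p l w i).obj (LaurentSeries K) →+ (GalF.{u} p l w i).obj K :=
  ((spH K l w i).comp (GObj p l w i (LaurentSeries K)).subtype).codRestrict (GObj p l w i K)
    fun x h => by
      have h2 : (x : GalH l w i (LaurentSeries K)) = 0 := x.2 (charP_laurent h)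
      change spH K l w i x = 0
      rw [h2, map_zero]

theorem galF_isSpec : IsSpec (GalF.{u} p l w i) (fun K _ => gsp p l w i K) := by
  constructor
  · intro K F _ _ f x
    by_cases h : CharP F p
    · exact Subtype.ext (spH_Hmap (l_ne_zero hpl) f _)
    · rw [galF_eq_zero h x, map_zero, map_zero, map_zero]
  · intro K L _ _ f x
    by_cases h : CharP K p
    · exact Subtype.ext (spH_natural (l_ne_zero hpl) f _)
    · rw [galF_eq_zero (charP_laurent h) x, map_zero, map_zero, map_zero, map_zero]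

end

theorem galF_descent {p l w n : ℕ} [Fact p.Prime] [Fact l.Prime] (hpl : p ≠ l) (K : Type u)
    [Field K] (x : (GalF.{u} p l w (n + 2)).obj (RatFunc K))
    (hx : x ∈ (GalF.{u} p l w (n + 2)).nr (RatFunc K)) :
    ∃ y : (GalF.{u} p l w (n + 2)).obj K,
      (GalF.{u} p l w (n + 2)).map (algebraMap K (RatFunc K)) y = x := by
  by_cases h : CharP K p
  · obtain ⟨y, hy⟩ := Hmap_descent hpl hx
    exact ⟨⟨y, mem_gobj y⟩, Subtype.ext hy⟩
  · have h' : ¬ CharP (RatFunc K) p := fun h' => h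
      ((RingHom.charP_iff (algebraMap K (RatFunc K)) (algebraMap K (RatFunc K)).injective p).mpr h')
    exact ⟨0, by rw [map_zero, galF_eq_zero h' x]⟩

/-- The Galois cohomology groups of degree `i ≥ 2` give a functor with unramified classes, with
specializations and of weight `w`, for which the classes which are unramified in the literal sense
are unramified. -/
theorem exists_galois_functor {p l : ℕ} [Fact p.Prime] [Fact l.Prime] (hpl : p ≠ l) (w n : ℕ) :
    ∃ A : UFun.{u, u}, A.Specializes ∧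
      (∀ (κ : Type v) [Field κ] [CharP κ p] (r : ℕ), A.HasWeight κ (p ^ r) w) ∧
      ∀ (N : ℕ) (K : Type u) [Field K] [CharP K p], (∀ x ∈ A.nr K, N • x = 0) →
        ∀ x ∈ UnrH K (Tw l w) (n + 2), N • x = 0 := by
  obtain ⟨A, hA⟩ := exists_stab (galF_isFunctor.{u} (w := w) (i := n + 2) hpl)
    (galF_mapsUnramified hpl) (galF_isSpec hpl) (galF_descent hpl) (galF_finiteKernel hpl)
    (galF_galoisUnramified hpl) (galF_galoisTrace hpl)
  refine ⟨A, ?_, ?_, ?_⟩
  · rw [hA]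
    exact (galF_isSpec hpl).specializes
  · intro κ _ _ r K _ g f hf x
    have h : CharP K p := charP_of_injective_ringHom g.injective p
    revert x
    rw [hA]
    intro x
    exact Subtype.ext (Hmap_frob hpl f r hf _)
  · intro N K _ _ hN x hx
    revert hN
    rw [hA]
    intro hN
    have h1 := hN ⟨x, mem_gobj x⟩ (nr_le_stab K hx)
    exact Subtype.ext_iff.mp h1

end GC
end

section

/-!
# The functor of the Galois cohomology groups with the literally unramified classes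
-/

namespace GC

open UnrA

universe u v

section

variable {p l w : ℕ} [Fact p.Prime] [Fact l.Prime] (hpl : p ≠ l)

include hpl

/-- A class of degree at least two is unramified exactly if it is unramified in `K(t)`. -/
theorem Hmap_ratFunc_mem_unr {K : Type u} [Field K] [CharP K p] {n : ℕ} {x : GalH l w (n + 2) K} :
    Hmap l w (n + 2) (algebraMap K (RatFunc K)) x ∈ UnrH (RatFunc K) (Tw l w) (n + 2) ↔
      x ∈ UnrH K (Tw l w) (n + 2) := by
  refine ⟨fun hx => ?_, Hmap_unr (l_ne_zero hpl) _⟩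
  obtain ⟨c, hc, rfl⟩ := exists_cls x
  rw [Hmap_cls (l_ne_zero hpl) (ext_jj K), cls_mem_unr] at hx
  rw [cls_mem_unr]
  exact unr_of_ratFunc hpl hc hx

/-- The unramified classes of `K(t)` are the unramified classes of `K`. -/
theorem Hmap_ratFunc_surj {K : Type u} [Field K] [CharP K p] {n : ℕ}
    {x : GalH l w (n + 2) (RatFunc K)} (hx : x ∈ UnrH (RatFunc K) (Tw l w) (n + 2)) :
    ∃ y ∈ UnrH K (Tw l w) (n + 2), Hmap l w (n + 2) (algebraMap K (RatFunc K)) y = x := by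
  obtain ⟨y, rfl⟩ := Hmap_descent hpl hx
  exact ⟨y, (Hmap_ratFunc_mem_unr hpl).mp hx, rfl⟩

theorem galF_ratUnramified (n : ℕ) : (GalF.{u} p l w (n + 2)).RatUnramified := by
  intro K _ x hx
  by_cases h : CharP K p
  · obtain ⟨y, hy, hyx⟩ := Hmap_ratFunc_surj hpl (K := K) (x := x.1) hx
    exact ⟨⟨y, mem_gobj y⟩, hy, Subtype.ext hyx⟩
  · obtain ⟨y, hy⟩ := galF_descent hpl K x hx
    exact ⟨y, by rw [galF_eq_zero h y]; exact zero_mem _, hy⟩

end

/-- The functor of the Galois cohomology groups `H^(n+2) (K, ℚ_l/ℤ_l(w))` of the fields `K` of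
characteristic `p`, with the classes which are unramified at all discrete valuation rings. -/
noncomputable def GalU {p l : ℕ} [Fact p.Prime] [Fact l.Prime] (hpl : p ≠ l) (w n : ℕ) :
    UFun.{u, u} where
  toFieldGroups := GalF p l w (n + 2)
  isFunctor := galF_isFunctor hpl
  mapsUnramified := galF_mapsUnramified hpl
  ratInjective := (galF_isSpec hpl).ratInjective (galF_isFunctor hpl)
  ratUnramified := galF_ratUnramified hpl n
  finiteKernel := galF_finiteKernel hpl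
  galoisUnramified := galF_galoisUnramified hpl
  galoisTrace := galF_galoisTrace hpl

section

variable {p l : ℕ} [Fact p.Prime] [Fact l.Prime] (hpl : p ≠ l) {w n : ℕ}

theorem galU_specializes : (GalU.{u} hpl w n).Specializes := fun K _ =>
  ⟨gsp p l w (n + 2) K, fun x _ y _ => map_add (gsp p l w (n + 2) K) x y,
    fun F _ f x _ => (galF_isSpec hpl).spec K F f x⟩

theorem galU_hasWeight (κ : Type v) [Field κ] [CharP κ p] (r : ℕ) :
    (GalU.{u} hpl w n).HasWeight κ (p ^ r) w := by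
  intro K _ g f hf x
  have h : CharP K p := charP_of_injective_ringHom g.injective p
  exact Subtype.ext (Hmap_frob hpl f r hf _)

variable {K : Type u} [Field K] [CharP K p]

/-- The group of the functor `GalU` is the Galois cohomology group. -/
noncomputable def galU_equiv (K : Type u) [Field K] [CharP K p] :
    (GalU.{u} hpl w n).obj K ≃+ GalH l w (n + 2) K :=
  AddEquiv.ofBijective (GObj p l w (n + 2) K).subtype
    ⟨Subtype.coe_injective, fun x => ⟨⟨x, mem_gobj x⟩, rfl⟩⟩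

lemma mem_galU_nr {x : (GalU.{u} hpl w n).obj K} :
    x ∈ (GalU.{u} hpl w n).nr K ↔ galU_equiv hpl K x ∈ UnrH K (Tw l w) (n + 2) := Iff.rfl

lemma galU_map {L : Type u} [Field L] [CharP L p] (f : K →+* L) (x : (GalU.{u} hpl w n).obj K) :
    galU_equiv hpl L ((GalU.{u} hpl w n).map f x) = Hmap l w (n + 2) f (galU_equiv hpl K x) := rfl

lemma galU_kills_iff {N : ℕ} : (∀ x ∈ (GalU.{u} hpl w n).nr K, N • x = 0) ↔
    ∀ x ∈ UnrH K (Tw l w) (n + 2), N • x = 0 := by
  refine ⟨fun h x hx => ?_, fun h x hx => Subtype.ext (h _ hx)⟩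
  exact Subtype.ext_iff.mp (h ⟨x, mem_gobj x⟩ hx)

end

/-- The Galois cohomology groups in terms of the functors `GalU`. -/
theorem killsGal_iff {p : ℕ} [hp : Fact p.Prime] {w n N : ℕ} {K : Type u} [Field K] [CharP K p] :
    KillsGal p w (n + 2) N K ↔ ∀ (l : ℕ) [Fact l.Prime] (hpl : p ≠ l),
      ∀ x ∈ (GalU.{u} hpl w n).nr K, N • x = 0 :=
  ⟨fun h l _ hpl => (galU_kills_iff hpl).mpr (h l hpl.symm),
    fun h l _ hpl => (galU_kills_iff hpl.symm).mp (h l hpl.symm)⟩

/-- Transfer: if `C` kills the unramified classes of `H^i (k, ℚ_l/ℤ_l(w))`, for all `l ≠ p`, and if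
each functor with unramified classes, with specializations, of weight `w`, whose unramified classes
over `k` are killed by `C`, has unramified classes over `K` which are killed by `N`, then `N`
kills the unramified classes of `H^i (K, ℚ_l/ℤ_l(w))`, for all `l ≠ p`. -/
theorem killsGal_of_killsGal {p : ℕ} (hp : p.Prime) {w i N C : ℕ} (hi : 2 ≤ i) {k K : Type u}
    [Field k] [Field K] [CharP k p] [CharP K p]
    (h : ∀ A : UFun.{u, u}, A.Specializes →
      (∀ (κ : Type v) [Field κ] [CharP κ p] (r : ℕ), A.HasWeight κ (p ^ r) w) →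
        (∀ x ∈ A.nr k, C • x = 0) → ∀ x ∈ A.nr K, N • x = 0) (hC : KillsGal p w i C k) :
    KillsGal p w i N K := by
  have : Fact p.Prime := ⟨hp⟩
  obtain ⟨n, rfl⟩ : ∃ n, i = n + 2 := ⟨i - 2, by omega⟩
  rw [killsGal_iff] at hC ⊢
  intro l _ hpl
  exact h (GalU hpl w n) (galU_specializes hpl) (fun κ _ _ r => galU_hasWeight hpl κ r)
    (hC l hpl)

end GC
end

section

/-!
# Comparison of the elementary definitions with the cohomology groups
-/

namespace GC

open UnrGal UnrA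

universe u v

section

variable {l : ℕ} [Fact l.Prime] {w : ℕ} {K : Type u} [Field K]

lemma cyc_smul (g : AbsGal K) (m : Tw l w) : g • m = (cyc l w K g) • m := by
  rw [Tw.smul_def, cyc, Units.val_pow_eq_pow_val]

lemma diff_eq {X : Type u} {n : ℕ} (c : (Fin n → X) → Tw l w) :
    (fun x => diff (l := l) c x) = d c := rfl

lemma isCochain_iff {N : Subgroup (AbsGal K)} {n : ℕ} {c : (Fin (n + 1) → AbsGal K) → Tw l w} :
    IsCochain (l := l) (cyc l w K) N c ↔ c ∈ Coch (Tw l w) (⊤ : Subgroup (AbsGal K)) N n := by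
  constructor
  · rintro ⟨h1, h2, h3⟩
    exact ⟨fun g _ x => (h1 g x).trans (cyc_smul g (c x)).symm, h2, h3⟩
  · rintro ⟨h1, h2, h3⟩
    exact ⟨fun g x => (h1 g trivial x).trans (cyc_smul g (c x)), h2, h3⟩

lemma isCochain_sub_iff {O : ValuationSubring (AlgebraicClosure K)}
    {N : Subgroup (O.decompositionSubgroup K)} {n : ℕ}
    {c : (Fin (n + 1) → O.decompositionSubgroup K) → Tw l w} :
    IsCochain (l := l) (fun g : O.decompositionSubgroup K => cyc l w K g) N c ↔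
      c ∈ Coch (Tw l w) (⊤ : Subgroup (O.decompositionSubgroup K)) N n := by
  constructor
  · rintro ⟨h1, h2, h3⟩
    exact ⟨fun g _ x => (h1 g x).trans (cyc_smul (g : AbsGal K) (c x)).symm, h2, h3⟩
  · rintro ⟨h1, h2, h3⟩
    exact ⟨fun g x => (h1 g trivial x).trans (cyc_smul (g : AbsGal K) (c x)), h2, h3⟩

lemma isUnrAt_iff {O : ValuationSubring (AlgebraicClosure K)} {n : ℕ}
    {c : (Fin (n + 2) → AbsGal K) → Tw l w} : IsUnrAt (l := l) w O c ↔ UnrAt O c := by
  constructor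
  · rintro ⟨a, b, ha, hb, h⟩
    refine ⟨a, isCochain_sub_iff.mp ha, b, isCochain_sub_iff.mp hb, ?_⟩
    funext x
    exact (eq_sub_of_add_eq' (h x).symm)
  · rintro ⟨a, ha, b, hb, h⟩
    refine ⟨a, b, isCochain_sub_iff.mpr ha, isCochain_sub_iff.mpr hb, fun x => ?_⟩
    have h1 := congrFun h x
    exact (sub_eq_iff_eq_add'.mp h1.symm)

lemma isUnrCocycle_iff {n : ℕ} {c : (Fin (n + 2) → AbsGal K) → Tw l w} :
    IsUnrCocycle (l := l) w c ↔ c ∈ Cocyc (AbsGal K) (Tw l w) (n + 1) ∧ IsUnr c := by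
  constructor
  · rintro ⟨h1, h2, h3⟩
    exact ⟨⟨isCochain_iff.mp h1, funext h2⟩, fun O hO => isUnrAt_iff.mp (h3 O hO)⟩
  · rintro ⟨⟨h1, h2⟩, h3⟩
    exact ⟨isCochain_iff.mpr h1, congrFun h2, fun O hO => isUnrAt_iff.mpr (h3 O hO)⟩

lemma isCoboundary_iff {n : ℕ} {c : (Fin (n + 2) → AbsGal K) → Tw l w} :
    IsCoboundary (l := l) w c ↔ c ∈ Cobd (AbsGal K) (Tw l w) (n + 1) := by
  constructor
  · rintro ⟨b, hb, h⟩
    exact ⟨b, isCochain_iff.mp hb, funext fun x => (h x).symm⟩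
  · rintro ⟨b, hb, h⟩
    exact ⟨b, isCochain_iff.mpr hb, fun x => congrFun h.symm x⟩

end

/-- The elementary definition is the same as the definition with the cohomology groups. -/
theorem kills_iff {p w n N : ℕ} {K : Type u} [Field K] :
    Kills p w (n + 1) N K ↔ KillsGal p w (n + 1) N K := by
  constructor
  · intro h l _ hl x hx
    obtain ⟨c, hc, rfl⟩ := exists_cls x
    rw [cls_mem_unr] at hx
    rw [← cls_nsmul, cls_eq_zero_iff]
    exact isCoboundary_iff.mp (h l hl c (isUnrCocycle_iff.mpr ⟨hc, hx⟩))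
  · intro h l _ hl c hc
    obtain ⟨h1, h2⟩ := isUnrCocycle_iff.mp hc
    have h3 := h l hl (cls c h1) (cls_mem_unr.mpr h2)
    rw [← cls_nsmul, cls_eq_zero_iff] at h3
    exact isCoboundary_iff.mpr h3

section scal

variable {l : ℕ} [Fact l.Prime] {w : ℕ} {G : Type u} [Group G] [TopologicalSpace G]
  [DistribMulAction G (Tw l w)] [SMulCommClass G ℤ_[l] (Tw l w)]

lemma scal_coch (a : ℤ_[l]) {S N : Subgroup G} {n : ℕ} {c : (Fin (n + 1) → G) → Tw l w}
    (hc : c ∈ Coch (Tw l w) S N n) : a • c ∈ Coch (Tw l w) S N n := by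
  obtain ⟨h1, h2, U, hU, hU'⟩ := hc
  refine ⟨fun g hg x => ?_, fun x u hu => ?_, U, hU, fun x u hu => ?_⟩
  · change a • c (fun j => g * x j) = g • a • c x
    rw [h1 g hg x, ← smul_comm]
  · change a • c (fun j => x j * u j) = a • c x
    rw [h2 x u hu]
  · change a • c (fun j => x j * u j) = a • c x
    rw [hU' x u hu]

lemma scal_d {X : Type u} (a : ℤ_[l]) {n : ℕ} (c : (Fin n → X) → Tw l w) :
    d (a • c) = a • d c :=
  d_map (DistribSMul.toAddMonoidHom (Tw l w) a) c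

lemma scal_cocyc (a : ℤ_[l]) {n : ℕ} {c : (Fin (n + 1) → G) → Tw l w}
    (hc : c ∈ Cocyc G (Tw l w) n) : a • c ∈ Cocyc G (Tw l w) n := by
  have h2 : d c = 0 := hc.2
  refine ⟨scal_coch a hc.1, ?_⟩
  change d (a • c) = 0
  rw [scal_d, h2, smul_zero]

lemma scal_cobd (a : ℤ_[l]) {n : ℕ} {c : (Fin (n + 1) → G) → Tw l w}
    (hc : c ∈ Cobd G (Tw l w) n) : a • c ∈ Cobd G (Tw l w) n := by
  cases n with
  | zero =>
    have h0 : c = 0 := hc
    rw [h0, smul_zero]
    exact zero_mem _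
  | succ n =>
    obtain ⟨b, hb, hb'⟩ := hc
    have h1 : d b = c := hb'
    refine ⟨a • b, scal_coch a hb, ?_⟩
    change d (a • b) = a • c
    rw [scal_d, h1]

end scal

section

variable {l : ℕ} [Fact l.Prime] {w : ℕ} {K : Type u} [Field K]

lemma scal_unrAt (a : ℤ_[l]) {O : ValuationSubring (AlgebraicClosure K)} {n : ℕ}
    {c : (Fin (n + 1) → AbsGal K) → Tw l w} (hc : UnrAt O c) : UnrAt O (a • c) := by
  obtain ⟨c', hc', h⟩ := hc
  refine ⟨a • c', scal_coch a hc', ?_⟩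
  have h1 := scal_cobd a h
  rw [smul_sub] at h1
  exact h1

lemma scal_unr (a : ℤ_[l]) {n : ℕ} {c : (Fin (n + 1) → AbsGal K) → Tw l w} (hc : IsUnr c) :
    IsUnr (a • c) := fun O hO => scal_unrAt a (hc O hO)

/-- The restriction, without the scalar. -/
lemma isRes_iff {L : Type u} [Field L] [Algebra K L] {n : ℕ}
    {c : (Fin (n + 1) → AbsGal K) → Tw l w} {c' : (Fin (n + 1) → AbsGal L) → Tw l w} :
    IsRes (l := l) c c' ↔ ∃ (φ : AlgebraicClosure K →+* AlgebraicClosure L)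
      (hφ : Ext (algebraMap K L) φ), c' = fun x => c fun i => pull hφ (x i) := by
  constructor
  · rintro ⟨φ, hφ, h⟩
    exact ⟨φ, hφ, funext fun x => h x _ fun i z => pull_spec (f := algebraMap K L) hφ (x i) z⟩
  · rintro ⟨φ, hφ, rfl⟩
    refine ⟨φ, hφ, fun x y hxy => ?_⟩
    have h1 : y = fun i => pull hφ (x i) := funext fun i => eq_pull hφ (x i) (hxy i)
    rw [h1]

lemma pullC_eq {L : Type u} [Field L] {f : K →+* L}
    {φ : AlgebraicClosure K →+* AlgebraicClosure L} (hφ : Ext f φ) {n : ℕ}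
    (c : (Fin (n + 1) → AbsGal K) → Tw l w) :
    pullC l w hφ n c = (((twist l φ) ^ w : ℤ_[l]ˣ) : ℤ_[l]) • fun x => c fun i => pull hφ (x i) :=
  rfl

end

/-- For all prime numbers `l ≠ p`, the unramified classes of `H^i (K, ℚ_l/ℤ_l(w))`, multiplied by
`D`, come in the extension `L` of `K` and `k` from unramified classes of `k`. -/
def GalFrom (p w i D : ℕ) (k K L : Type u) [Field k] [Field K] [Field L] [Algebra k L]
    [Algebra K L] : Prop :=
  ∀ (l : ℕ) [Fact l.Prime], l ≠ p → ∀ x ∈ UnrH K (Tw l w) i, ∃ y ∈ UnrH k (Tw l w) i,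
    Hmap l w i (algebraMap k L) y = D • Hmap l w i (algebraMap K L) x

/-- The elementary definition is the same as the definition with the cohomology groups. -/
theorem descends_iff {p : ℕ} [Fact p.Prime] {w n D : ℕ} {k K L : Type u} [Field k] [Field K]
    [Field L] [Algebra k L] [Algebra K L] [CharP k p] [CharP K p] :
    Descends p w (n + 1) D k K L ↔ GalFrom p w (n + 1) D k K L := by
  constructor
  · intro h l _ hl x hx
    have hlk : (l : k) ≠ 0 := l_ne_zero hl.symm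
    have hlK : (l : K) ≠ 0 := l_ne_zero hl.symm
    obtain ⟨c, hc, rfl⟩ := exists_cls x
    rw [cls_mem_unr] at hx
    obtain ⟨(b : (Fin (n + 2) → AbsGal k) → Tw l w), (b' : (Fin (n + 2) → AbsGal L) → Tw l w),
      hb, hbb, hcob⟩ := h l hl c _ (isUnrCocycle_iff.mpr ⟨hc, hx⟩)
      (isRes_iff.mpr ⟨_, ext_emb (algebraMap K L), rfl⟩)
    obtain ⟨hb1, hb2⟩ := isUnrCocycle_iff.mp hb
    obtain ⟨φ, hφ, hbe⟩ := isRes_iff.mp hbb
    have hcob' : (D • (fun x => c fun i => pull (ext_emb (algebraMap K L)) (x i)) -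
        (fun x => b fun i => pull hφ (x i)) : (Fin (n + 2) → AbsGal L) → Tw l w) ∈
          Cobd (AbsGal L) (Tw l w) (n + 1) := by
      have h1 := isCoboundary_iff.mp hcob
      rw [hbe] at h1
      exact h1
    obtain ⟨t, ht⟩ : ∃ t : ℤ_[l]ˣ, t = (twist l (emb (algebraMap K L))) ^ w := ⟨_, rfl⟩
    obtain ⟨s, hs⟩ : ∃ s : ℤ_[l]ˣ, s = (twist l φ) ^ w := ⟨_, rfl⟩
    refine ⟨cls (((t * s⁻¹ : ℤ_[l]ˣ) : ℤ_[l]) • b) (scal_cocyc _ hb1),
      cls_mem_unr.mpr (scal_unr _ hb2), ?_⟩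
    rw [Hmap_cls hlk hφ, Hmap_cls hlK (ext_emb (algebraMap K L)), ← cls_nsmul, cls_eq_iff,
      ← neg_mem_iff, neg_sub]
    have h1 := scal_cobd (t : ℤ_[l]) hcob'
    convert h1 using 1
    rw [pullC_eq, pullC_eq, ← ht, ← hs]
    funext x
    change D • (t : ℤ_[l]) • c (fun i => pull (ext_emb (algebraMap K L)) (x i)) -
      (s : ℤ_[l]) • ((t * s⁻¹ : ℤ_[l]ˣ) : ℤ_[l]) • b (fun i => pull hφ (x i)) = (t : ℤ_[l]) •
        (D • c (fun i => pull (ext_emb (algebraMap K L)) (x i)) - b fun i => pull hφ (x i))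
    rw [smul_sub, smul_smul (s : ℤ_[l]), ← Units.val_mul, mul_comm t s⁻¹, mul_inv_cancel_left,
      smul_comm D]
  · rintro h l _ hl (c : (Fin (n + 2) → AbsGal K) → Tw l w)
      (c' : (Fin (n + 2) → AbsGal L) → Tw l w) hc hcc
    have hlk : (l : k) ≠ 0 := l_ne_zero hl.symm
    have hlK : (l : K) ≠ 0 := l_ne_zero hl.symm
    obtain ⟨hc1, hc2⟩ := isUnrCocycle_iff.mp hc
    obtain ⟨φ, hφ, hce⟩ := isRes_iff.mp hcc
    obtain ⟨y, hy, hyx⟩ := h l hl (cls c hc1) (cls_mem_unr.mpr hc2)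
    obtain ⟨b, hb, rfl⟩ := exists_cls y
    rw [cls_mem_unr] at hy
    rw [Hmap_cls hlk (ext_emb (algebraMap k L)), Hmap_cls hlK hφ, ← cls_nsmul, cls_eq_iff,
      ← neg_mem_iff, neg_sub] at hyx
    obtain ⟨t, ht⟩ : ∃ t : ℤ_[l]ˣ, t = (twist l φ) ^ w := ⟨_, rfl⟩
    obtain ⟨s, hs⟩ : ∃ s : ℤ_[l]ˣ, s = (twist l (emb (algebraMap k L))) ^ w := ⟨_, rfl⟩
    refine ⟨((t⁻¹ * s : ℤ_[l]ˣ) : ℤ_[l]) • b, _,
      isUnrCocycle_iff.mpr ⟨scal_cocyc _ hb, scal_unr _ hy⟩,
      isRes_iff.mpr ⟨_, ext_emb (algebraMap k L), rfl⟩, isCoboundary_iff.mpr ?_⟩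
    have h1 := scal_cobd ((t⁻¹ : ℤ_[l]ˣ) : ℤ_[l]) hyx
    rw [hce]
    convert h1 using 1
    rw [pullC_eq, pullC_eq, ← ht, ← hs]
    funext x
    change D • c (fun i => pull hφ (x i)) - ((t⁻¹ * s : ℤ_[l]ˣ) : ℤ_[l]) •
        b (fun i => pull (ext_emb (algebraMap k L)) (x i)) =
      ((t⁻¹ : ℤ_[l]ˣ) : ℤ_[l]) • (D • (t : ℤ_[l]) • c (fun i => pull hφ (x i)) -
        (s : ℤ_[l]) • b fun i => pull (ext_emb (algebraMap k L)) (x i))
    rw [smul_sub, smul_comm D, smul_smul _ (t : ℤ_[l]), smul_smul _ (s : ℤ_[l]),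
      ← Units.val_mul, ← Units.val_mul, inv_mul_cancel, Units.val_one, one_smul]

end GC
end
end

section

/-!
# Twisted products of two supersingular curves
-/

namespace UnrH3

universe u v w

open Polynomial WeierstrassCurve
open scoped Classical

variable {m : ℕ} {Λ : Type u} [Field Λ]

section pt

variable {S : Type u} [Field S] [Algebra S Λ]

/-- Points of `y² = x³ - x`. -/
lemma Wi_nonsingular (h2 : (2 : Λ) ≠ 0) {X Y : Λ} (h : Y ^ 2 = X ^ 3 - X) (hY : Y ≠ 0) :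
    ((Wi S)⁄Λ).toAffine.Nonsingular X Y := by
  have e1 : ((Wi S)⁄Λ).a₁ = 0 := map_zero _
  have e2 : ((Wi S)⁄Λ).a₂ = 0 := map_zero _
  have e3 : ((Wi S)⁄Λ).a₃ = 0 := map_zero _
  have e4 : ((Wi S)⁄Λ).a₄ = -1 := by
    change algebraMap S Λ (-1) = -1
    rw [map_neg, map_one]
  have e6 : ((Wi S)⁄Λ).a₆ = 0 := map_zero _
  rw [Affine.nonsingular_iff, Affine.equation_iff]
  refine ⟨?_, Or.inr ?_⟩
  · rw [e1, e2, e3, e4, e6]
    linear_combination h
  · change ¬ (Y = -Y - ((Wi S)⁄Λ).a₁ * X - ((Wi S)⁄Λ).a₃)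
    rw [e1, e3]
    intro h3
    have h4 : 2 * Y = 0 := by linear_combination h3
    rcases mul_eq_zero.mp h4 with h5 | h5
    · exact h2 h5
    · exact hY h5

end pt

lemma range_ofId (K' : Subfield Λ) : Set.range (Algebra.ofId K' Λ) = (K' : Set Λ) := by
  ext z
  constructor
  · rintro ⟨a, rfl⟩; exact a.2
  · intro hz; exact ⟨⟨z, hz⟩, rfl⟩

lemma mem_cl_of_pow {T : Set Λ} {z : Λ} {n : ℕ} (hn : 0 < n) (h : z ^ n ∈ cl T) : z ∈ cl T := by
  apply mem_cl_of_isAlg (F := cl T) le_rfl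
  refine ⟨X ^ n - C (⟨_, h⟩ : cl T), X_pow_sub_C_ne_zero hn _, ?_⟩
  simp only [map_sub, map_pow, aeval_X, aeval_C]
  exact sub_self _

lemma ev2_neg_Q2 {S : Type v} [Field S] {W : WeierstrassCurve S} [GoodW W] {K : Type u}
    [Field K] [Algebra S K] (g : KM m (F2 W K)) :
    ev2 (i2 W K) (P2 W K) (-Q2 W K) g = KM.map m (nu W (FF W K) : F2 W K →+* F2 W K) g := by
  have h6 : ev2 (i2 W K) (P2 W K) (-Q2 W K) g =
      ev (base W (FF W K)) (-gpt W (FF W K)) g := by
    rw [ev2_eq_ev (ind_P2_Q2 W K).neg_right, liftPt_P2]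
    rfl
  rw [h6, ev_neg_pt, ev_self]

/-- The factorization of one embedding through another. -/
lemma exists_factor {A B C : Type u} [Field A] [Field B] [Field C] (f : A →+* C) (g : B →+* C)
    (h : ∀ a, f a ∈ g.fieldRange) : ∃ e : A →+* B, g.comp e = f := by
  choose e he using h
  refine ⟨{ toFun := e, map_one' := ?_, map_mul' := ?_, map_zero' := ?_, map_add' := ?_ }, ?_⟩
  · exact g.injective (by rw [he, map_one, map_one])
  · intro x y
    exact g.injective (by rw [he, map_mul, map_mul, he, he])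
  · exact g.injective (by rw [he, map_zero, map_zero])
  · intro x y
    exact g.injective (by rw [he, map_add, map_add, he, he])
  · ext x
    exact he x

theorem tw2 [IsAlgClosed Λ] (hm : Odd m) {p : ℕ} [hp : Fact p.Prime] [CharP Λ p]
    (hp3 : p % 4 = 3) (hpm : p.Coprime m) {K : Subfield Λ} {x y w c a b : Λ}
    (hx : x ∉ cl (K : Set Λ)) (hy : y ∉ cl (insert x (K : Set Λ))) (hc : c ∈ K) (hc0 : c ≠ 0)
    (ha : a ∈ K) (ha0 : a ≠ 0) (hb : b ∈ K) (hb0 : b ≠ 0)
    (hw : w ^ 2 = c * (x ^ 3 - a * x) * (y ^ 3 - b * y))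
    {ξ : KM m (adj K {x, y, w})} (hξ : Unr ξ) : From K (adj K {x, y, w}) ξ := by
  have h2 : (2 : Λ) ≠ 0 := by
    have : ((2 : ℕ) : Λ) ≠ 0 := by
      rw [Ne, CharP.cast_eq_zero_iff Λ p]
      intro h
      have := Nat.le_of_dvd (by norm_num) h
      have := hp.out.two_le
      omega
    exact_mod_cast this
  suffices H : ∀ L : Subfield Λ, L = adj K {x, y, w} → ∀ ξ : KM m L, Unr ξ → From K L ξ from
    H _ rfl ξ hξ
  clear hξ ξ
  intro L hL ξ hξ
  obtain ⟨B, hB⟩ : ∃ B, B = adj K {x, y} := ⟨_, rfl⟩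
  have hset : ({x, y, w} : Set Λ) = {x, y} ∪ {w} := by
    ext z
    simp only [Set.mem_insert_iff, Set.mem_singleton_iff, Set.mem_union]
    tauto
  have hLB : L = adj B {w} := by rw [hL, hB, adj_adj, hset]
  have hBL : B ≤ L := by rw [hLB]; exact le_adj _ _
  have hKB : K ≤ B := by rw [hB]; exact le_adj _ _
  have hxB : x ∈ B := by rw [hB]; exact subset_adj _ _ (by simp)
  have hyB : y ∈ B := by rw [hB]; exact subset_adj _ _ (by simp)
  have hwL : w ∈ L := by rw [hL]; exact subset_adj _ _ (by simp)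
  have hxy : x ∉ cl (insert y (K : Set Λ)) := fun h => hy (cl_exchange h hx)
  have hxne : x ≠ y := by
    rintro rfl
    exact hy (subset_cl _ (Set.mem_insert _ _))
  have hind : IndSet K ({x, y} : Set Λ) := by
    rintro t (rfl | rfl)
    · intro h
      apply hxy
      refine cl_mono ?_ h
      rintro z (hz | ⟨hz | hz, hz'⟩)
      · exact Set.mem_insert_of_mem _ hz
      · exact absurd hz hz'
      · rw [Set.mem_singleton_iff.mp hz]; exact Set.mem_insert _ _
    · intro h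
      apply hy
      refine cl_mono ?_ h
      rintro z (hz | ⟨hz | hz, hz'⟩)
      · exact Set.mem_insert_of_mem _ hz
      · rw [hz]; exact Set.mem_insert _ _
      · exact absurd hz hz'
  have hBfrom : ∀ η : KM m B, Unr η → From K B η := by
    subst hB
    intro η hη
    exact from_rat hm (Set.toFinite _) hind hη
  by_cases hwB : w ∈ B
  · -- degenerate case
    have hLB' : L ≤ B := by
      rw [hLB]
      exact adj_le le_rfl (by rintro z rfl; exact hwB)
    have h3 : From B L ξ := ⟨hBL, up m hLB' ξ, hξ.map _, by rw [up_up, up_refl]⟩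
    exact h3.trans hBfrom
  have hw2B : w ^ 2 ∈ B := by
    rw [hw]
    exact mul_mem (mul_mem (hKB hc) (sub_mem (pow_mem hxB 3) (mul_mem (hKB ha) hxB)))
      (sub_mem (pow_mem hyB 3) (mul_mem (hKB hb) hyB))
  have hw0 : w ≠ 0 := by
    rintro rfl
    exact hwB (zero_mem B)
  have q := isQuad_of_eq hBL hLB hw2B hwB hwL
  obtain ⟨σ, hσ, hσw⟩ := q.exists_conj (c := ⟨w ^ 2, hw2B⟩) rfl
  have fix : ∀ z (hz : z ∈ B), σ ⟨z, hBL hz⟩ = ⟨z, hBL hz⟩ := fun z hz =>
    congrArg (fun f : B →+* L => f ⟨z, hz⟩) hσ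
  have mem_gen : ∀ z : L, (z : Λ) ∈ adj B {w} := fun z => by rw [← hLB]; exact z.2
  have hwsub : ({w} : Set Λ) ⊆ L := by rintro z rfl; exact hwL
  have ss : σ.comp σ = RingHom.id L := by
    ext1 z
    refine hom_eq_of_gen (σ.comp σ) (RingHom.id L) hBL hwsub ?_ ?_ z (mem_gen z)
    · intro z hz
      change σ (σ _) = _
      rw [fix z hz, fix z hz]; rfl
    · intro z hz
      rw [Set.mem_singleton_iff] at hz
      subst hz
      change σ (σ _) = _
      rw [hσw, map_neg, hσw, neg_neg]; rfl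
  obtain ⟨η, ζ, hη, hζ, hζσ, hξ', -⟩ := exists_inv_part hm q σ hσ (by
    rw [hσw]
    intro he
    have h3 : -w = w := congrArg Subtype.val he
    have h4 : 2 * w = 0 := by linear_combination -h3
    rcases mul_eq_zero.mp h4 with h5 | h5
    · exact h2 h5
    · exact hw0 h5) ss hξ
  suffices hζ0 : ζ = 0 by
    rw [hζ0, add_zero] at hξ'
    have h3 : From B L ξ := ⟨hBL, η, hη, hξ'.symm⟩
    exact h3.trans hBfrom
  -- the auxiliary elements
  obtain ⟨ι, hι⟩ : ∃ ι : Λ, ι ^ 2 = -1 := by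
    obtain ⟨z, hz⟩ := IsAlgClosed.exists_pow_nat_eq (-1 : Λ) (n := 2) (by norm_num)
    exact ⟨z, hz⟩
  obtain ⟨γ, hγ⟩ := IsAlgClosed.exists_pow_nat_eq c (n := 2) (by norm_num)
  obtain ⟨α, hα⟩ := IsAlgClosed.exists_pow_nat_eq a (n := 4) (by norm_num)
  obtain ⟨β, hβ⟩ := IsAlgClosed.exists_pow_nat_eq b (n := 4) (by norm_num)
  have hγ0 : γ ≠ 0 := by rintro rfl; apply hc0; rw [← hγ]; simp
  have hα0 : α ≠ 0 := by rintro rfl; apply ha0; rw [← hα]; simp
  have hβ0 : β ≠ 0 := by rintro rfl; apply hb0; rw [← hβ]; simp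
  obtain ⟨K', hK'⟩ : ∃ K', K' = adj K {ι, γ, α, β} := ⟨_, rfl⟩
  have hKK' : K ≤ K' := by rw [hK']; exact le_adj _ _
  have hιK : ι ∈ K' := by rw [hK']; exact subset_adj _ _ (by simp)
  have hγK : γ ∈ K' := by rw [hK']; exact subset_adj _ _ (by simp)
  have hαK : α ∈ K' := by rw [hK']; exact subset_adj _ _ (by simp)
  have hβK : β ∈ K' := by rw [hK']; exact subset_adj _ _ (by simp)
  have hK'cl : (K' : Set Λ) ⊆ cl (K : Set Λ) := by
    have h3 : K' ≤ cl (K : Set Λ) := by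
      rw [hK']
      apply adj_le (subset_cl _)
      rintro z (rfl | rfl | rfl | rfl)
      · apply mem_cl_of_pow (n := 2) (by norm_num)
        rw [hι]
        exact neg_mem (one_mem _)
      · apply mem_cl_of_pow (n := 2) (by norm_num)
        rw [hγ]
        exact subset_cl _ hc
      · apply mem_cl_of_pow (n := 4) (by norm_num)
        rw [hα]
        exact subset_cl _ ha
      · apply mem_cl_of_pow (n := 4) (by norm_num)
        rw [hβ]
        exact subset_cl _ hb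
    exact h3
  obtain ⟨X, hX⟩ : ∃ X, X = x / α ^ 2 := ⟨_, rfl⟩
  obtain ⟨Y, hY⟩ : ∃ Y, Y = y / β ^ 2 := ⟨_, rfl⟩
  have hxX : x = α ^ 2 * X := by rw [hX]; field_simp
  have hyY : y = β ^ 2 * Y := by rw [hY]; field_simp
  have hXK : X ∉ cl (K' : Set Λ) := by
    intro h3
    apply hx
    have h4 : cl (K' : Set Λ) ≤ cl (K : Set Λ) := cl_le hK'cl
    rw [hxX]
    exact mul_mem (pow_mem (hK'cl hαK) 2) (h4 h3)
  have hYK : Y ∉ cl (insert X (K' : Set Λ)) := by
    intro h3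
    apply hy
    have h5 : cl (K : Set Λ) ≤ cl (insert x (K : Set Λ)) := cl_mono (Set.subset_insert _ _)
    have h4 : cl (insert X (K' : Set Λ)) ≤ cl (insert x (K : Set Λ)) := by
      apply cl_le
      rintro z (rfl | hz)
      · rw [hX]
        exact div_mem (subset_cl _ (Set.mem_insert _ _)) (pow_mem (h5 (hK'cl hαK)) 2)
      · exact h5 (hK'cl hz)
    rw [hyY]
    exact mul_mem (pow_mem (h5 (hK'cl hβK)) 2) (h4 h3)
  have hX3 : X ^ 3 - X ≠ 0 := by
    intro h3
    apply hXK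
    have h4 : X * (X - 1) * (X + 1) = 0 := by linear_combination h3
    rcases mul_eq_zero.mp h4 with h5 | h5
    · rcases mul_eq_zero.mp h5 with h6 | h6
      · rw [h6]; exact zero_mem _
      · rw [sub_eq_zero.mp h6]; exact one_mem _
    · rw [eq_neg_of_add_eq_zero_left h5]; exact neg_mem (one_mem _)
  obtain ⟨y₁, hy₁⟩ := IsAlgClosed.exists_pow_nat_eq (X ^ 3 - X) (n := 2) (by norm_num)
  have hy₁0 : y₁ ≠ 0 := by
    rintro rfl
    apply hX3
    rw [← hy₁]
    simp
  obtain ⟨y₂, hy₂⟩ : ∃ y₂, y₂ = w / (γ * α ^ 3 * β ^ 3 * y₁) := ⟨_, rfl⟩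
  have hwy : w = γ * α ^ 3 * β ^ 3 * y₁ * y₂ := by rw [hy₂]; field_simp
  have hy₂0 : y₂ ≠ 0 := by
    rintro rfl
    apply hw0
    rw [hwy, mul_zero]
  have hy₂2 : y₂ ^ 2 = Y ^ 3 - Y := by
    have h3 : (γ * α ^ 3 * β ^ 3 * y₁) ^ 2 ≠ 0 :=
      pow_ne_zero 2 (mul_ne_zero (mul_ne_zero (mul_ne_zero hγ0 (pow_ne_zero 3 hα0))
        (pow_ne_zero 3 hβ0)) hy₁0)
    apply mul_left_cancel₀ h3
    have h4 : (γ * α ^ 3 * β ^ 3 * y₁) ^ 2 * y₂ ^ 2 = w ^ 2 := by rw [hwy]; ring
    rw [h4, hw, ← hγ, ← hα, ← hβ, hxX, hyY]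
    linear_combination (-(γ ^ 2 * α ^ 6 * β ^ 6 * (Y ^ 3 - Y))) * hy₁
  -- the points
  let P : Pt (Wi K') Λ := .some X y₁ (Wi_nonsingular h2 hy₁ hy₁0)
  let Q : Pt (Wi K') Λ := .some Y y₂ (Wi_nonsingular h2 hy₂2 hy₂0)
  have : CharP K' p := K'.subtype.charP K'.subtype.injective p
  have : GoodW (Wi K') := Wi_good (p := p) (by omega)
  let i := Algebra.ofId K' Λ
  have hPQ : Ind i P Q := by
    refine ⟨?_, ?_⟩
    · change ¬ (X ∈ cl (Set.range i))
      rw [range_ofId]; exact hXK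
    · change ¬ (Y ∈ cl (insert X (Set.range i)))
      rw [range_ofId]; exact hYK
  let f := lift2 i P Q hPQ
  have finj : Function.Injective f := RingHom.injective (f : F2 (Wi K') K' →+* Λ)
  have fb : ∀ z : K', f (i2 (Wi K') K' z) = z := fun z =>
    congrArg (fun g : K' →ₐ[K'] Λ => g z) (lift2_i2 i P Q hPQ)
  have fP : ptMap f (P2 (Wi K') K') = P := lift2_P2 _ _ _ _
  have fQ : ptMap f (Q2 (Wi K') K') = Q := lift2_Q2 _ _ _ _
  have fPx : f (ptX (P2 (Wi K') K')) = X := by rw [← ptX_map, fP]; rfl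
  have fPy : f (ptY (P2 (Wi K') K')) = y₁ := by rw [← ptY_map, fP]; rfl
  have fQx : f (ptX (Q2 (Wi K') K')) = Y := by rw [← ptX_map, fQ]; rfl
  have fQy : f (ptY (Q2 (Wi K') K')) = y₂ := by rw [← ptY_map, fQ]; rfl
  -- the embedding of `L`
  have hex : x = f (i2 (Wi K') K' ⟨α, hαK⟩ ^ 2 * ptX (P2 (Wi K') K')) := by
    rw [map_mul, map_pow, fb, fPx]; exact hxX
  have hey : y = f (i2 (Wi K') K' ⟨β, hβK⟩ ^ 2 * ptX (Q2 (Wi K') K')) := by
    rw [map_mul, map_pow, fb, fQx]; exact hyY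
  have hew : w = f (i2 (Wi K') K' ⟨γ, hγK⟩ * i2 (Wi K') K' ⟨α, hαK⟩ ^ 3 *
      i2 (Wi K') K' ⟨β, hβK⟩ ^ 3 * ptY (P2 (Wi K') K') * ptY (Q2 (Wi K') K')) := by
    rw [map_mul, map_mul, map_mul, map_mul, map_pow, map_pow, fb, fb, fb, fPy, fQy]; exact hwy
  have hKf : ∀ z (hz : z ∈ K), z = f (i2 (Wi K') K' ⟨z, hKK' hz⟩) := fun z hz =>
    (fb ⟨z, hKK' hz⟩).symm
  obtain ⟨e, he⟩ : ∃ e : L →+* F2 (Wi K') K', (f : F2 (Wi K') K' →+* Λ).comp e = L.subtype := by
    apply exists_factor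
    intro z
    have h3 : L ≤ (f : F2 (Wi K') K' →+* Λ).fieldRange := by
      rw [hL]
      apply adj_le
      · intro z hz
        exact ⟨_, (hKf z hz).symm⟩
      · rintro z (hz | hz | hz)
        · rw [hz]; exact ⟨_, hex.symm⟩
        · rw [hz]; exact ⟨_, hey.symm⟩
        · rw [Set.mem_singleton_iff.mp hz]; exact ⟨_, hew.symm⟩
    exact h3 z.2
  have hfe : ∀ z : L, f (e z) = z := fun z => congrArg (fun g : L →+* Λ => g z) he
  -- conjugation
  have conj : ∀ (P' Q' : Pt (Wi K') Λ) (h : Ind i P' Q') (ν : F2 (Wi K') K' →ₐ[K'] F2 (Wi K') K'),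
      f.comp ν = lift2 i P' Q' h → ptX P' = X → ptX Q' = Y → ptY P' * ptY Q' = - (y₁ * y₂) →
      (ν : F2 (Wi K') K' →+* F2 (Wi K') K').comp e = e.comp σ := by
    intro P' Q' h ν hν hX' hY' hPQ'
    have hb' : ∀ z : K', lift2 i P' Q' h (i2 (Wi K') K' z) = z := fun z =>
      congrArg (fun g : K' →ₐ[K'] Λ => g z) (lift2_i2 i P' Q' h)
    have h1 : lift2 i P' Q' h (ptX (P2 (Wi K') K')) = X := by
      rw [← ptX_map, lift2_P2]; exact hX'
    have h2 : lift2 i P' Q' h (ptX (Q2 (Wi K') K')) = Y := by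
      rw [← ptX_map, lift2_Q2]; exact hY'
    have h3 : lift2 i P' Q' h (ptY (P2 (Wi K') K')) = ptY P' := by
      rw [← ptY_map, lift2_P2]
    have h4 : lift2 i P' Q' h (ptY (Q2 (Wi K') K')) = ptY Q' := by
      rw [← ptY_map, lift2_Q2]
    have hfν : ∀ z, f (ν z) = lift2 i P' Q' h z := fun z =>
      congrArg (fun g : F2 (Wi K') K' →ₐ[K'] Λ => g z) hν
    have hee : ∀ (z : L) (z' : F2 (Wi K') K'), (z : Λ) = f z' → e z = z' := by
      intro z z' hz
      apply finj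
      rw [hfe]; exact hz
    have hKL : K ≤ L := hKB.trans hBL
    have hsub : ({x, y, w} : Set Λ) ⊆ L := by
      rintro z (hz | hz | hz)
      · rw [hz]; exact hBL hxB
      · rw [hz]; exact hBL hyB
      · rw [Set.mem_singleton_iff.mp hz]; exact hwL
    have goal : ∀ z : L, f (ν (e z)) = f (e (σ z)) := by
      intro z
      refine hom_eq_of_gen ((f : F2 (Wi K') K' →+* Λ).comp
        ((ν : F2 (Wi K') K' →+* F2 (Wi K') K').comp e)) ((f : F2 (Wi K') K' →+* Λ).comp
        (e.comp σ)) hKL hsub ?_ ?_ z (by rw [← hL]; exact z.2)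
      · intro z hz
        change f (ν (e _)) = f (e (σ _))
        rw [fix z (hKB hz), hfe, hfν, hee ⟨z, hKL hz⟩ _ (hKf z hz), hb']
      · rintro z hz
        change f (ν (e _)) = f (e (σ _))
        rw [hfe, hfν]
        rcases id hz with hz' | hz' | hz'
        · subst hz'
          rw [fix z hxB, hee ⟨z, hsub hz⟩ _ hex, map_mul, map_pow, hb', h1]
          exact hxX.symm
        · subst hz'
          rw [fix z hyB, hee ⟨z, hsub hz⟩ _ hey, map_mul, map_pow, hb', h2]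
          exact hyY.symm
        · rw [Set.mem_singleton_iff] at hz'
          subst hz'
          rw [hσw, hee ⟨z, hsub hz⟩ _ hew, map_mul, map_mul, map_mul, map_mul, map_pow, map_pow,
            hb', hb', hb', h3, h4]
          change γ * α ^ 3 * β ^ 3 * ptY P' * ptY Q' = -z
          rw [hwy]
          linear_combination (γ * α ^ 3 * β ^ 3) * hPQ'
    ext1 z
    exact finj (goal z)
  have a₁0 : ((Wi K')⁄Λ).a₁ = 0 := map_zero _
  have a₃0 : ((Wi K')⁄Λ).a₃ = 0 := map_zero _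
  have negP : -P = .some X (-y₁) (Wi_nonsingular h2 (by rw [neg_sq]; exact hy₁)
      (neg_ne_zero.mpr hy₁0)) := by
    rw [Affine.Point.neg_some]
    refine (Affine.Point.some.injEq _ _ _ _ _ _).mpr ⟨rfl, ?_⟩
    simp only [Affine.negY]
    rw [a₁0, a₃0]; ring
  have negQ : -Q = .some Y (-y₂) (Wi_nonsingular h2 (by rw [neg_sq]; exact hy₂2)
      (neg_ne_zero.mpr hy₂0)) := by
    rw [Affine.Point.neg_some]
    refine (Affine.Point.some.injEq _ _ _ _ _ _).mpr ⟨rfl, ?_⟩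
    simp only [Affine.negY]
    rw [a₁0, a₃0]; ring
  obtain ⟨ω, hω⟩ : ∃ ω, ω = KM.map m e ζ := ⟨_, rfl⟩
  have hωu : Unr ω := by rw [hω]; exact hζ.map _
  have hω1 : Odd1 ω := by
    unfold Odd1
    rw [ev2_of_ind (ind_P2_Q2 (Wi K') K').neg_left, hω, KM.map_map,
      conj (-P) Q hPQ.neg_left (lift2 (i2 (Wi K') K') (-P2 (Wi K') K') (Q2 (Wi K') K')
        (ind_P2_Q2 (Wi K') K').neg_left) ?_ ?_ rfl ?_, ← KM.map_map, hζσ, map_neg]
    · apply F2_hom_ext
      · rw [AlgHom.comp_assoc, lift2_i2, lift2_i2, lift2_i2]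
      · rw [ptMap_comp, lift2_P2, lift2_P2, map_neg, fP]
      · rw [ptMap_comp, lift2_Q2]
        exact fQ.trans (lift2_Q2 _ _ _ _).symm
    · rw [negP]; rfl
    · rw [negP]
      change -y₁ * y₂ = _
      ring
  have hω2 : OddCl ω := by
    unfold OddCl
    rw [← ev2_neg_Q2, ev2_of_ind (ind_P2_Q2 (Wi K') K').neg_right, hω, KM.map_map,
      conj P (-Q) hPQ.neg_right (lift2 (i2 (Wi K') K') (P2 (Wi K') K') (-Q2 (Wi K') K')
        (ind_P2_Q2 (Wi K') K').neg_right) ?_ rfl ?_ ?_, ← KM.map_map, hζσ, map_neg]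
    · apply F2_hom_ext
      · rw [AlgHom.comp_assoc, lift2_i2, lift2_i2, lift2_i2]
      · rw [ptMap_comp, lift2_P2]
        exact fP.trans (lift2_P2 _ _ _ _).symm
      · rw [ptMap_comp, lift2_Q2, lift2_Q2, map_neg, fQ]
    · rw [negQ]; rfl
    · rw [negQ]
      change y₁ * -y₂ = _
      ring
  have hω0 : ω = 0 := vanish_j1728 (S := K') (ι := ⟨ι, hιK⟩) (p := p) (Subtype.ext hι) hm hp3 hpm
    hωu hω1 hω2
  -- injectivity
  obtain ⟨l, hl⟩ : ∃ l : List Λ, l = [ι, γ, α ^ 2, α, β ^ 2, β, y₁] := ⟨_, rfl⟩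
  obtain ⟨M, hM⟩ : ∃ M, M = adj L {z | z ∈ l} := ⟨_, rfl⟩
  have hLM : L ≤ M := by rw [hM]; exact le_adj _ _
  have hlM : ∀ z ∈ l, z ∈ M := by
    intro z hz
    rw [hM]; exact subset_adj _ _ hz
  have hKL : K ≤ L := hKB.trans hBL
  have hinj : Function.Injective (up m hLM) := by
    apply up_injective_of_list hm l L M hLM _ hM.le
    subst hl
    intro n hn
    have hcM : ∀ T : Set Λ, K ≤ adj L T := fun T => hKL.trans (le_adj _ _)
    simp only [List.length_cons, List.length_nil] at hn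
    interval_cases n
    · change ι ^ 2 ∈ _
      rw [hι]; exact neg_mem (one_mem _)
    · change γ ^ 2 ∈ _
      rw [hγ]; exact hcM _ hc
    · change (α ^ 2) ^ 2 ∈ _
      rw [← pow_mul, hα]; exact hcM _ ha
    · change α ^ 2 ∈ _
      exact subset_adj _ _ (by simp)
    · change (β ^ 2) ^ 2 ∈ _
      rw [← pow_mul, hβ]; exact hcM _ hb
    · change β ^ 2 ∈ _
      exact subset_adj _ _ (by simp)
    · change y₁ ^ 2 ∈ _
      rw [hy₁, hX]
      have h3 : x / α ^ 2 ∈ adj L {z | z ∈ [ι, γ, α ^ 2, α, β ^ 2, β, y₁].take 6} :=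
        div_mem (le_adj _ _ (hBL hxB)) (subset_adj _ _ (by simp))
      exact sub_mem (pow_mem h3 3) h3
  have hKM : K ≤ M := hKL.trans hLM
  have hιM : ι ∈ M := hlM ι (by rw [hl]; simp)
  have hγM : γ ∈ M := hlM γ (by rw [hl]; simp)
  have hαM : α ∈ M := hlM α (by rw [hl]; simp)
  have hβM : β ∈ M := hlM β (by rw [hl]; simp)
  have hy₁M : y₁ ∈ M := hlM y₁ (by rw [hl]; simp)
  have hK'M : K' ≤ M := by
    rw [hK']
    apply adj_le hKM
    rintro z (rfl | rfl | rfl | rfl)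
    · exact hιM
    · exact hγM
    · exact hαM
    · exact hβM
  have hXM : X ∈ M := by rw [hX]; exact div_mem (hLM (hBL hxB)) (pow_mem hαM 2)
  have hYM : Y ∈ M := by rw [hY]; exact div_mem (hLM (hBL hyB)) (pow_mem hβM 2)
  have hy₂M : y₂ ∈ M := by
    rw [hy₂]
    exact div_mem (hLM hwL) (mul_mem (mul_mem (mul_mem hγM (pow_mem hαM 3)) (pow_mem hβM 3)) hy₁M)
  have hfM : ∀ z, f z ∈ M := by
    intro z
    apply FF_range_le f M
    · intro z'
      have h3 : f (base (Wi K') (FF (Wi K') K') z') = liftPt i P hPQ.gen₁ z' :=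
        congrArg (fun g : FF (Wi K') K' →ₐ[K'] Λ => g z') (lift2_base i P Q hPQ)
      have h5 : liftPt i P hPQ.gen₁ z' ∈ M := by
        apply FF_range_le (liftPt i P hPQ.gen₁) M
        · intro z''
          have h4 : liftPt i P hPQ.gen₁ (base (Wi K') K' z'') = z'' :=
            congrArg (fun g : K' →ₐ[K'] Λ => g z'') (liftPt_base i P hPQ.gen₁)
          rw [h4]
          exact hK'M z''.2
        · rw [liftPt_gx]; exact hXM
        · rw [liftPt_gy]; exact hy₁M
      rw [← h3] at h5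
      exact h5
    · exact fQx ▸ hYM
    · exact fQy ▸ hy₂M
  let fM : F2 (Wi K') K' →+* M := (f : F2 (Wi K') K' →+* Λ).codRestrict M hfM
  apply hinj
  rw [map_zero]
  have h3 : fM.comp e = Subfield.inclusion hLM := by
    ext z
    exact hfe z
  rw [up, ← h3, ← KM.map_map, ← hω, hω0, map_zero]

end UnrH3
end

section

/-!
# Multiquadratic extensions attached to families of curves `y² = x³ - a x`
-/

namespace UnrH3

universe u v w

open Polynomial WeierstrassCurve
open scoped Classical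

variable {m : ℕ} {Λ : Type u} [Field Λ]

/-- The elements of a family `x` are algebraically independent over the subfield `k`. -/
def IndFam {n : ℕ} (k : Subfield Λ) (x : Fin n → Λ) : Prop :=
  ∀ j, x j ∉ cl ((k : Set Λ) ∪ x '' {l | l ≠ j})

lemma IndFam.indSet {n : ℕ} {k : Subfield Λ} {x : Fin n → Λ} (h : IndFam k x) {A : Subfield Λ}
    {J J' : Set (Fin n)} (hA : (A : Set Λ) ⊆ cl ((k : Set Λ) ∪ x '' J')) (hJ : Disjoint J J') :
    IndSet A (x '' J) := by
  rintro _ ⟨j, hj, rfl⟩ h'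
  apply h j
  refine cl_le ?_ h'
  rintro z (hz | ⟨⟨l, hl, rfl⟩, hne⟩)
  · refine cl_mono ?_ (hA hz)
    apply Set.union_subset_union_right
    apply Set.image_mono
    intro l hl
    rintro rfl
    exact Set.disjoint_left.mp hJ hj hl
  · apply subset_cl
    right
    exact ⟨l, fun he => hne (by rw [he]; rfl), rfl⟩

section base

variable {n : ℕ} {k : Subfield Λ} {x : Fin n → Λ} {a : Fin n → Λ}

/-- The right-hand sides of the equations of the curves. -/
def fx (x a : Fin n → Λ) (j : Fin n) : Λ := x j ^ 3 - a j * x j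

lemma fx_mem {A : Subfield Λ} {j : Fin n} (hx : x j ∈ A) (ha : a j ∈ A) : fx x a j ∈ A :=
  sub_mem (pow_mem hx 3) (mul_mem ha hx)

lemma fx_ne_zero [IsAlgClosed Λ] (hx : IndFam k x) (ha : ∀ j, a j ∈ k) (j : Fin n) :
    fx x a j ≠ 0 := by
  intro h
  apply hx j
  have hk : (k : Set Λ) ⊆ cl ((k : Set Λ) ∪ x '' {l | l ≠ j}) := fun z hz =>
    subset_cl _ (Or.inl hz)
  have h1 : x j * (x j ^ 2 - a j) = 0 := by
    unfold fx at h
    linear_combination h
  rcases mul_eq_zero.mp h1 with h2 | h2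
  · rw [h2]; exact zero_mem _
  · apply mem_cl_of_pow (n := 2) (by norm_num)
    rw [sub_eq_zero.mp h2]
    exact hk (ha j)

/-- The case of at least two variables under the square root. -/
theorem from_two [IsAlgClosed Λ] (hm : Odd m) {p : ℕ} [hp : Fact p.Prime] [CharP Λ p]
    (hp3 : p % 4 = 3) (hpm : p.Coprime m) (hx : IndFam k x) (ha : ∀ j, a j ∈ k ∧ a j ≠ 0)
    {c : Λ} (hc : c ∈ k) (hc0 : c ≠ 0) {S : Finset (Fin n)} (hS : 2 ≤ S.card) {v : Λ}
    (hv : v ^ 2 = c * ∏ j ∈ S, fx x a j) {ξ : KM m (adj (adj k (Set.range x)) {v})}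
    (hξ : Unr ξ) : From k (adj (adj k (Set.range x)) {v}) ξ := by
  obtain ⟨j₁, hj₁, j₂, hj₂, hne⟩ := Finset.one_lt_card.mp hS
  obtain ⟨J, hJ⟩ : ∃ J : Set (Fin n), J = {l | l ≠ j₁ ∧ l ≠ j₂} := ⟨_, rfl⟩
  obtain ⟨K, hK⟩ : ∃ K, K = adj k (x '' J) := ⟨_, rfl⟩
  have hkK : k ≤ K := by rw [hK]; exact le_adj _ _
  have hxK : ∀ l, l ≠ j₁ → l ≠ j₂ → x l ∈ K := by
    intro l h1 h2
    rw [hK]
    exact subset_adj _ _ ⟨l, by rw [hJ]; exact ⟨h1, h2⟩, rfl⟩
  have hKcl : cl (K : Set Λ) = cl ((k : Set Λ) ∪ x '' J) := by rw [hK, cl_adj]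
  have hx₁ : x j₁ ∉ cl (K : Set Λ) := by
    rw [hKcl]
    intro h
    apply hx j₁
    refine cl_mono ?_ h
    apply Set.union_subset_union_right
    apply Set.image_mono
    intro l hl
    rw [hJ] at hl
    exact hl.1
  have hx₂ : x j₂ ∉ cl (insert (x j₁) (K : Set Λ)) := by
    intro h
    apply hx j₂
    refine cl_le ?_ h
    rintro z (rfl | hz)
    · exact subset_cl _ (Or.inr ⟨j₁, hne, rfl⟩)
    · have h1 : z ∈ cl (K : Set Λ) := subset_cl _ hz
      rw [hKcl] at h1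
      refine cl_mono ?_ h1
      apply Set.union_subset_union_right
      apply Set.image_mono
      intro l hl
      rw [hJ] at hl
      exact hl.2
  obtain ⟨c', hc'⟩ : ∃ c', c' = c * ∏ j ∈ (S.erase j₁).erase j₂, fx x a j := ⟨_, rfl⟩
  have hc'K : c' ∈ K := by
    rw [hc']
    apply mul_mem (hkK hc)
    apply prod_mem
    intro l hl
    have h1 := Finset.mem_erase.mp hl
    have h2 := Finset.mem_erase.mp h1.2
    exact fx_mem (hxK l h2.1 h1.1) (hkK (ha l).1)
  have hc'0 : c' ≠ 0 := by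
    rw [hc']
    apply mul_ne_zero hc0
    rw [Finset.prod_ne_zero_iff]
    intro l _
    exact fx_ne_zero hx (fun j => (ha j).1) l
  have hv' : v ^ 2 = c' * (x j₁ ^ 3 - a j₁ * x j₁) * (x j₂ ^ 3 - a j₂ * x j₂) := by
    rw [hv, hc']
    have h1 : ∏ j ∈ S, fx x a j = fx x a j₁ * ∏ j ∈ S.erase j₁, fx x a j :=
      (Finset.mul_prod_erase S _ hj₁).symm
    have h2 : ∏ j ∈ S.erase j₁, fx x a j = fx x a j₂ * ∏ j ∈ (S.erase j₁).erase j₂, fx x a j :=
      (Finset.mul_prod_erase _ _ (Finset.mem_erase.mpr ⟨hne.symm, hj₂⟩)).symm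
    rw [h1, h2]
    unfold fx
    ring
  have hL : adj (adj k (Set.range x)) {v} = adj K {x j₁, x j₂, v} := by
    rw [hK, adj_adj, adj_adj]
    congr 1
    ext z
    constructor
    · rintro (⟨l, rfl⟩ | hz)
      · by_cases h1 : l = j₁
        · subst h1; right; left; rfl
        by_cases h2 : l = j₂
        · subst h2; right; right; left; rfl
        left
        exact ⟨l, by rw [hJ]; exact ⟨h1, h2⟩, rfl⟩
      · right; right; right; exact hz
    · rintro (⟨l, _, rfl⟩ | hz | hz | hz)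
      · left; exact ⟨l, rfl⟩
      · left; rw [hz]; exact ⟨j₁, rfl⟩
      · left; rw [hz]; exact ⟨j₂, rfl⟩
      · right; exact hz
  have key : ∀ (L : Subfield Λ), L = adj K {x j₁, x j₂, v} → ∀ ξ : KM m L, Unr ξ →
      From K L ξ := by
    rintro L rfl ξ hξ
    exact tw2 hm hp3 hpm hx₁ hx₂ hc'K hc'0 (hkK (ha j₁).1) (ha j₁).2 (hkK (ha j₂).1) (ha j₂).2
      hv' hξ
  refine (key _ hL ξ hξ).trans ?_
  subst hK
  intro η hη
  have hfin : (x '' J).Finite := Set.toFinite _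
  have hind : IndSet k (x '' J) := hx.indSet (J' := ∅) (fun z hz => subset_cl _ (Or.inl hz))
    (Set.disjoint_empty _)
  exact from_rat hm hfin hind hη

/-- The case of at most one variable under the square root. -/
theorem from_one [IsAlgClosed Λ] (hm : Odd m) (hx : IndFam k x) (ha : ∀ j, a j ∈ k)
    {c : Λ} (hc : c ∈ k) {S : Finset (Fin n)} {v : Λ}
    (hv : v ^ 2 = c * ∏ j ∈ S, fx x a j) {ξ : KM m (adj (adj k (Set.range x)) {v})}
    (hξ : Unr ξ) : From (adj k (insert v (x '' (S : Set (Fin n)))))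
      (adj (adj k (Set.range x)) {v}) ξ := by
  obtain ⟨A, hA⟩ : ∃ A, A = adj k (insert v (x '' (S : Set (Fin n)))) := ⟨_, rfl⟩
  rw [← hA]
  have hL : adj (adj k (Set.range x)) {v} = adj A (x '' ((S : Set (Fin n))ᶜ)) := by
    rw [hA, adj_adj, adj_adj]
    congr 1
    ext z
    constructor
    · rintro (⟨l, rfl⟩ | hz)
      · by_cases h1 : l ∈ S
        · left; right; exact ⟨l, h1, rfl⟩
        · right; exact ⟨l, h1, rfl⟩
      · left; left; exact hz
    · rintro ((hz | ⟨l, _, rfl⟩) | ⟨l, _, rfl⟩)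
      · right; exact hz
      · left; exact ⟨l, rfl⟩
      · left; exact ⟨l, rfl⟩
  have hAcl : (A : Set Λ) ⊆ cl ((k : Set Λ) ∪ x '' (S : Set (Fin n))) := by
    have h3 : A ≤ cl ((k : Set Λ) ∪ x '' (S : Set (Fin n))) := by
      rw [hA]
      apply adj_le
      · exact fun z hz => subset_cl _ (Or.inl hz)
      · rintro z (rfl | hz)
        · apply mem_cl_of_pow (n := 2) (by norm_num)
          rw [hv]
          apply mul_mem (show c ∈ cl ((k : Set Λ) ∪ x '' (S : Set (Fin n))) from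
            subset_cl _ (Or.inl hc))
          apply prod_mem
          intro l hl
          exact fx_mem (subset_cl _ (Or.inr ⟨l, hl, rfl⟩)) (subset_cl _ (Or.inl (ha l)))
        · exact subset_cl _ (Or.inr hz)
    exact h3
  have key : ∀ (L : Subfield Λ), L = adj A (x '' ((S : Set (Fin n))ᶜ)) → ∀ ξ : KM m L, Unr ξ →
      From A L ξ := by
    rintro L rfl ξ hξ
    exact from_rat hm (Set.toFinite _) (hx.indSet hAcl disjoint_compl_left) hξ
  exact key _ hL ξ hξ

end base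

section products

variable {n r : ℕ} {k : Subfield Λ} {x : Fin n → Λ} {a : Fin n → Λ} {w d : Fin r → Λ}
  {S : Fin r → Finset (Fin n)}

/-- The set of variables occurring to an odd power in the product of the equations indexed
by `I`. -/
def oddSet (S : Fin r → Finset (Fin n)) (I : Finset (Fin r)) : Finset (Fin n) :=
  Finset.univ.filter fun j => Odd (I.filter fun i => j ∈ S i).card

lemma prod_eq (hw : ∀ i, w i ^ 2 = d i * ∏ j ∈ S i, fx x a j) (I : Finset (Fin r)) :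
    (∏ i ∈ I, w i) ^ 2 = (∏ i ∈ I, d i) * (∏ j ∈ oddSet S I, fx x a j) *
      (∏ j, fx x a j ^ ((I.filter fun i => j ∈ S i).card / 2)) ^ 2 := by
  rw [← Finset.prod_pow]
  simp only [hw]
  rw [Finset.prod_mul_distrib, mul_assoc]
  congr 1
  have h1 : ∀ i ∈ I, ∏ j ∈ S i, fx x a j = ∏ j, (if j ∈ S i then fx x a j else 1) := by
    intro i _
    rw [Finset.prod_ite_mem, Finset.univ_inter]
  rw [Finset.prod_congr rfl h1, Finset.prod_comm]
  have h2 : ∀ j : Fin n, ∏ i ∈ I, (if j ∈ S i then fx x a j else 1) =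
      fx x a j ^ (I.filter fun i => j ∈ S i).card := by
    intro j
    rw [Finset.prod_ite, Finset.prod_const, Finset.prod_const_one, mul_one]
  simp only [h2]
  have h3 : ∏ j ∈ oddSet S I, fx x a j =
      ∏ j, (if Odd (I.filter fun i => j ∈ S i).card then fx x a j else 1) := by
    unfold oddSet
    rw [Finset.prod_filter]
  rw [h3, ← Finset.prod_pow, ← Finset.prod_mul_distrib]
  apply Finset.prod_congr rfl
  intro j _
  set e := (I.filter fun i => j ∈ S i).card
  rw [← pow_mul]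
  by_cases he : Odd e
  · rw [if_pos he, ← pow_succ']
    congr 1
    rcases he with ⟨t, ht⟩
    omega
  · rw [if_neg he, one_mul]
    congr 1
    rw [Nat.not_odd_iff_even] at he
    rcases he with ⟨t, ht⟩
    omega

/-- Elements of the monoid generated by the `w i`. -/
lemma mem_closure_form {F : Subfield Λ} (hw0 : ∀ i, w i ≠ 0) (hwF : ∀ i, w i ^ 2 ∈ F) {v : Λ}
    (hv : v ∈ Submonoid.closure (Set.range w)) :
    ∃ (I : Finset (Fin r)) (g : Λ), g ∈ F ∧ g ≠ 0 ∧ v = g * ∏ i ∈ I, w i := by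
  induction hv using Submonoid.closure_induction with
  | mem z hz =>
    obtain ⟨i, rfl⟩ := hz
    exact ⟨{i}, 1, one_mem _, one_ne_zero, by simp⟩
  | one => exact ⟨∅, 1, one_mem _, one_ne_zero, by simp⟩
  | mul z z' _ _ hz hz' =>
    obtain ⟨I, g, hg, hg0, rfl⟩ := hz
    obtain ⟨I', g', hg', hg0', rfl⟩ := hz'
    refine ⟨symmDiff I I', g * g' * ∏ i ∈ I ∩ I', w i ^ 2, ?_, ?_, ?_⟩
    · exact mul_mem (mul_mem hg hg') (prod_mem fun i _ => hwF i)
    · refine mul_ne_zero (mul_ne_zero hg0 hg0') ?_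
      rw [Finset.prod_ne_zero_iff]
      intro i _
      exact pow_ne_zero 2 (hw0 i)
    · have h1 : (∏ i ∈ I, w i) * ∏ i ∈ I', w i =
          (∏ i ∈ I ∩ I', w i ^ 2) * ∏ i ∈ symmDiff I I', w i := by
        have e1 : ∏ i ∈ I, w i = (∏ i ∈ I ∩ I', w i) * ∏ i ∈ I \ I', w i := by
          exact (Finset.prod_inter_mul_prod_sdiff I I' w).symm
        have e2 : ∏ i ∈ I', w i = (∏ i ∈ I ∩ I', w i) * ∏ i ∈ I' \ I, w i := by
          rw [Finset.inter_comm]
          exact (Finset.prod_inter_mul_prod_sdiff I' I w).symm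
        have e3 : ∏ i ∈ symmDiff I I', w i = (∏ i ∈ I \ I', w i) * ∏ i ∈ I' \ I, w i := by
          have hd : Disjoint (I \ I') (I' \ I) := disjoint_sdiff_sdiff
          rw [← Finset.prod_union hd]
          rfl
        rw [e1, e2, e3, Finset.prod_pow]
        ring
      calc g * (∏ i ∈ I, w i) * (g' * ∏ i ∈ I', w i) =
          g * g' * ((∏ i ∈ I, w i) * ∏ i ∈ I', w i) := by ring
        _ = _ := by rw [h1]; ring

lemma From.congr_left {A A' B : Subfield Λ} (h : A = A') {ξ : KM m B} (hξ : From A B ξ) :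
    From A' B ξ := h ▸ hξ

lemma From.up {A B C : Subfield Λ} {ξ : KM m B} (hξ : From A B ξ) (h : B ≤ C) :
    From A C (UnrH3.up m h ξ) := by
  obtain ⟨h', η, hη, rfl⟩ := hξ
  exact ⟨h'.trans h, η, hη, (up_up _ _ _).symm⟩

lemma From.of_up {A B C : Subfield Λ} {ξ : KM m B} (h : B ≤ C) (h' : C ≤ B)
    (hξ : From A C (UnrH3.up m h ξ)) : From A B ξ := by
  have := hξ.up h'
  rwa [up_up, up_refl] at this

/-- The general decomposition. -/
theorem gen_main [IsAlgClosed Λ] (hm : Odd m) {p : ℕ} [hp : Fact p.Prime] [CharP Λ p]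
    (hp3 : p % 4 = 3) (hpm : p.Coprime m) (hx : IndFam k x) (ha : ∀ j, a j ∈ k ∧ a j ≠ 0)
    (hd : ∀ i, d i ∈ k ∧ d i ≠ 0) (hw : ∀ i, w i ^ 2 = d i * ∏ j ∈ S i, fx x a j)
    {L : Subfield Λ} (hL : L = adj k (Set.range x ∪ Set.range w)) {ξ : KM m L} (hξ : Unr ξ) :
    ξ ∈ AddSubgroup.closure {ζ : KM m L | ∃ (I : Finset (Fin r)) (v : Λ),
      (oddSet S I).card ≤ 1 ∧ v ^ 2 = (∏ i ∈ I, d i) * ∏ j ∈ oddSet S I, fx x a j ∧
      v * (∏ j, fx x a j ^ ((I.filter fun i => j ∈ S i).card / 2)) = ∏ i ∈ I, w i ∧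
      From (adj k (insert v (x '' (oddSet S I : Set (Fin n))))) L ζ} := by
  have h2 : (2 : Λ) ≠ 0 := by
    have : ((2 : ℕ) : Λ) ≠ 0 := by
      rw [Ne, CharP.cast_eq_zero_iff Λ p]
      intro h
      have := Nat.le_of_dvd (by norm_num) h
      have := hp.out.two_le
      omega
    exact_mod_cast this
  have ha' : ∀ j, a j ∈ k := fun j => (ha j).1
  have hf0 : ∀ j, fx x a j ≠ 0 := fx_ne_zero hx ha'
  obtain ⟨F, hF⟩ : ∃ F, F = adj k (Set.range x) := ⟨_, rfl⟩
  have hkF : k ≤ F := by rw [hF]; exact le_adj _ _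
  have hxF : ∀ j, x j ∈ F := fun j => by rw [hF]; exact subset_adj _ _ ⟨j, rfl⟩
  have hfF : ∀ j, fx x a j ∈ F := fun j => fx_mem (hxF j) (hkF (ha' j))
  have hw0 : ∀ i, w i ≠ 0 := by
    intro i h0
    have h3 := hw i
    rw [h0] at h3
    have h4 : d i * ∏ j ∈ S i, fx x a j ≠ 0 := mul_ne_zero (hd i).2
      (Finset.prod_ne_zero_iff.mpr fun j _ => hf0 j)
    apply h4
    rw [← h3]
    ring
  have hwF : ∀ i, w i ^ 2 ∈ F := by
    intro i
    rw [hw i]
    exact mul_mem (hkF (hd i).1) (prod_mem fun j _ => hfF j)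
  have hLF : L = adj F ((Finset.univ.image w : Finset Λ) : Set Λ) := by
    rw [hL, hF, adj_adj, Finset.coe_image, Finset.coe_univ, Set.image_univ]
  have key : ∀ M : Subfield Λ, M = adj F ((Finset.univ.image w : Finset Λ) : Set Λ) →
      ∀ ξ : KM m M, Unr ξ → ξ ∈ SpanFrom m F M ((Finset.univ.image w : Finset Λ) : Set Λ) := by
    rintro M rfl ξ hξ
    refine multi hm h2 _ _ le_rfl ?_ ξ hξ
    intro v hv
    obtain ⟨i, -, rfl⟩ := Finset.mem_image.mp hv
    exact ⟨hw0 i, hwF i⟩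
  have h3 := key L hLF ξ hξ
  unfold SpanFrom at h3
  refine (AddSubgroup.closure_le _).mpr ?_ h3
  rintro ζ ⟨v, hv, hζ⟩
  rw [Finset.coe_image, Finset.coe_univ, Set.image_univ] at hv
  obtain ⟨I, g, hg, hg0, rfl⟩ := mem_closure_form hw0 hwF hv
  obtain ⟨e, he⟩ : ∃ e, e = ∏ j, fx x a j ^ ((I.filter fun i => j ∈ S i).card / 2) := ⟨_, rfl⟩
  have heF : e ∈ F := by rw [he]; exact prod_mem fun j _ => pow_mem (hfF j) _
  have he0 : e ≠ 0 := by
    rw [he]
    exact Finset.prod_ne_zero_iff.mpr fun j _ => pow_ne_zero _ (hf0 j)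
  obtain ⟨v, hv'⟩ : ∃ v, v = (∏ i ∈ I, w i) / e := ⟨_, rfl⟩
  have hve : v * e = ∏ i ∈ I, w i := by rw [hv']; field_simp
  have hv2 : v ^ 2 = (∏ i ∈ I, d i) * ∏ j ∈ oddSet S I, fx x a j := by
    have h4 := prod_eq hw I
    rw [← he, ← hve] at h4
    apply mul_right_cancel₀ (pow_ne_zero 2 he0)
    linear_combination h4
  have hfield : adj F {g * ∏ i ∈ I, w i} = adj F {v} := by
    apply le_antisymm
    · apply adj_le (le_adj _ _)
      rintro z rfl
      rw [← hve]
      exact mul_mem (le_adj _ _ hg) (mul_mem (subset_adj _ _ rfl) (le_adj _ _ heF))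
    · apply adj_le (le_adj _ _)
      have h4 : v = (g * ∏ i ∈ I, w i) / (g * e) := by
        rw [← hve]; field_simp
      have h5 : (g * ∏ i ∈ I, w i) / (g * e) ∈ adj F {g * ∏ i ∈ I, w i} :=
        div_mem (subset_adj _ _ rfl) (le_adj _ _ (mul_mem hg heF))
      intro z hz
      rw [Set.mem_singleton_iff.mp hz, h4]
      exact h5
  have hζ' : From (adj F {v}) L ζ := hζ.congr_left hfield
  have hdk : ∏ i ∈ I, d i ∈ k := prod_mem fun i _ => (hd i).1
  have hd0 : ∏ i ∈ I, d i ≠ 0 := Finset.prod_ne_zero_iff.mpr fun i _ => (hd i).2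
  by_cases hcard : (oddSet S I).card ≤ 1
  · apply AddSubgroup.subset_closure
    refine ⟨I, v, hcard, hv2, by rw [← he]; exact hve, ?_⟩
    refine hζ'.trans ?_
    subst hF
    intro η hη
    exact from_one hm hx ha' hdk hv2 hη
  · apply AddSubgroup.subset_closure
    refine ⟨∅, 1, ?_, ?_, ?_, ?_⟩
    · simp [oddSet]
    · simp [oddSet]
    · simp
    · have h5 : From k L ζ := by
        refine hζ'.trans ?_
        subst hF
        intro η hη
        exact from_two hm hp3 hpm hx ha hdk hd0 (by omega) hv2 hη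
      refine h5.congr_left ?_
      symm
      apply adj_eq_self
      rintro z (rfl | ⟨l, hl, rfl⟩)
      · exact one_mem _
      · simp [oddSet] at hl

end products

end UnrH3
end
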