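import Pool.Agent.Lib.MP_859dd5_ag.Mg.G062

section

section

/-!
# Two independent points in subfields of a fixed field
-/

namespace UnrH3

universe u v w

open Polynomial WeierstrassCurve
open scoped Classical

variable {m : ℕ} {Λ : Type u} [Field Λ]

section pair

variable {K M : Subfield Λ} {W : WeierstrassCurve K} [hG : GoodW W] {P Q : Pt W Λ}

/-- The field generated by two independent points is the function field of the square. -/
lemma exists_pair_iso (hPQ : Ind (Algebra.ofId K Λ) P Q)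
    (hM : M = adj K {ptX P, ptY P, ptX Q, ptY Q}) :
    ∃ (fM : F2 W K →+* M) (e : M →+* F2 W K), e.comp fM = RingHom.id _ ∧
      fM.comp e = RingHom.id _ ∧ ∀ z, (fM z : Λ) = lift2 (Algebra.ofId K Λ) P Q hPQ z := by
  obtain ⟨f, hf⟩ : ∃ f, f = lift2 (Algebra.ofId K Λ) P Q hPQ := ⟨_, rfl⟩
  have fb : ∀ z : K, f (i2 W K z) = z := fun z => by
    rw [hf]
    exact congrArg (fun g : K →ₐ[K] Λ => g z) (lift2_i2 _ P Q hPQ)
  have fP : ptMap f (P2 W K) = P := by rw [hf]; exact lift2_P2 _ _ _ _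
  have fQ : ptMap f (Q2 W K) = Q := by rw [hf]; exact lift2_Q2 _ _ _ _
  have fPx : f (ptX (P2 W K)) = ptX P := by rw [← ptX_map, fP]
  have fPy : f (ptY (P2 W K)) = ptY P := by rw [← ptY_map, fP]
  have fQx : f (ptX (Q2 W K)) = ptX Q := by rw [← ptX_map, fQ]
  have fQy : f (ptY (Q2 W K)) = ptY Q := by rw [← ptY_map, fQ]
  have hfM : ∀ z, f z ∈ M := by
    intro z
    rw [hM]
    apply FF_range_le f
    · intro z'
      have h3 : f (base W (FF W K) z') = liftPt (Algebra.ofId K Λ) P hPQ.gen₁ z' := by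
        rw [hf]
        exact congrArg (fun g : FF W K →ₐ[K] Λ => g z') (lift2_base _ P Q hPQ)
      have h5 : liftPt (Algebra.ofId K Λ) P hPQ.gen₁ z' ∈ adj K {ptX P, ptY P, ptX Q, ptY Q} := by
        apply FF_range_le (liftPt (Algebra.ofId K Λ) P hPQ.gen₁)
        · intro z''
          have h4 : liftPt (Algebra.ofId K Λ) P hPQ.gen₁ (base W K z'') = z'' :=
            congrArg (fun g : K →ₐ[K] Λ => g z'') (liftPt_base _ P hPQ.gen₁)
          rw [h4]
          exact le_adj _ _ z''.2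
        · rw [liftPt_gx]; exact subset_adj _ _ (by simp)
        · rw [liftPt_gy]; exact subset_adj _ _ (by simp)
      rw [← h3] at h5
      exact h5
    · have h6 : ptX Q ∈ adj K {ptX P, ptY P, ptX Q, ptY Q} := subset_adj _ _ (by simp)
      exact fQx ▸ h6
    · have h6 : ptY Q ∈ adj K {ptX P, ptY P, ptX Q, ptY Q} := subset_adj _ _ (by simp)
      exact fQy ▸ h6
  obtain ⟨e, he⟩ : ∃ e : M →+* F2 W K, (f : F2 W K →+* Λ).comp e = M.subtype := by
    apply exists_factor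
    intro z
    have h3 : M ≤ (f : F2 W K →+* Λ).fieldRange := by
      rw [hM]
      apply adj_le
      · intro z hz
        exact ⟨_, fb ⟨z, hz⟩⟩
      · rintro z (hz | hz | hz | hz)
        · rw [hz]; exact ⟨_, fPx⟩
        · rw [hz]; exact ⟨_, fPy⟩
        · rw [hz]; exact ⟨_, fQx⟩
        · rw [Set.mem_singleton_iff.mp hz]; exact ⟨_, fQy⟩
    exact h3 z.2
  have hfe : ∀ z : M, f (e z) = z := fun z => congrArg (fun g : M →+* Λ => g z) he
  refine ⟨(f : F2 W K →+* Λ).codRestrict M hfM, e, ?_, ?_, ?_⟩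
  · ext1 z
    apply RingHom.injective (f : F2 W K →+* Λ)
    exact hfe _
  · ext1 z
    exact Subtype.ext (hfe z)
  · intro z
    rw [← hf]; rfl

variable (hPQ : Ind (Algebra.ofId K Λ) P Q) (fM : F2 W K →+* M) (e : M →+* F2 W K)
  (hef : e.comp fM = RingHom.id _) (hfe : fM.comp e = RingHom.id _)
  (hf : ∀ z, (fM z : Λ) = lift2 (Algebra.ofId K Λ) P Q hPQ z)

include hef hf

lemma pair_e_of {z : M} {z' : F2 W K}
    (h : (z : Λ) = lift2 (Algebra.ofId K Λ) P Q hPQ z') : e z = z' := by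
  have h1 : fM z' = z := Subtype.ext (by rw [hf, h])
  rw [← h1]
  exact congrArg (fun g : F2 W K →+* F2 W K => g z') hef

lemma pair_e_base {z : M} (hz : (z : Λ) ∈ K) : e z = i2 W K ⟨z, hz⟩ := by
  apply pair_e_of hPQ fM e hef hf
  exact (congrArg (fun g : K →ₐ[K] Λ => g ⟨z, hz⟩) (lift2_i2 _ P Q hPQ)).symm

lemma pair_e_Px {z : M} (hz : (z : Λ) = ptX P) : e z = ptX (P2 W K) := by
  apply pair_e_of hPQ fM e hef hf
  rw [← ptX_map, lift2_P2, hz]

lemma pair_e_Py {z : M} (hz : (z : Λ) = ptY P) : e z = ptY (P2 W K) := by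
  apply pair_e_of hPQ fM e hef hf
  rw [← ptY_map, lift2_P2, hz]

lemma pair_e_Qx {z : M} (hz : (z : Λ) = ptX Q) : e z = ptX (Q2 W K) := by
  apply pair_e_of hPQ fM e hef hf
  rw [← ptX_map, lift2_Q2, hz]

lemma pair_e_Qy {z : M} (hz : (z : Λ) = ptY Q) : e z = ptY (Q2 W K) := by
  apply pair_e_of hPQ fM e hef hf
  rw [← ptY_map, lift2_Q2, hz]

include hfe

/-- The effect of a substitution, seen in the function field of the square. -/
lemma pair_spec (hM : M = adj K {ptX P, ptY P, ptX Q, ptY Q}) {A B : Pt W (F2 W K)}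
    (h : Ind (i2 W K) A B) (g : M →+* M) (hK : ∀ z : M, (z : Λ) ∈ K → g z = z)
    (hPx : ∀ z : M, (z : Λ) = ptX P → (g z : Λ) = fM (ptX A))
    (hPy : ∀ z : M, (z : Λ) = ptY P → (g z : Λ) = fM (ptY A))
    (hQx : ∀ z : M, (z : Λ) = ptX Q → (g z : Λ) = fM (ptX B))
    (hQy : ∀ z : M, (z : Λ) = ptY Q → (g z : Λ) = fM (ptY B)) :
    e.comp g = (lift2 (i2 W K) A B h : F2 W K →+* F2 W K).comp e := by
  have hKM : K ≤ M := by rw [hM]; exact le_adj _ _
  have hTM : ({ptX P, ptY P, ptX Q, ptY Q} : Set Λ) ⊆ M := by rw [hM]; exact subset_adj _ _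
  have hfe' : ∀ z : M, fM (e z) = z := fun z => congrArg (fun g : M →+* M => g z) hfe
  have hi : ∀ z : K, lift2 (i2 W K) A B h (i2 W K z) = i2 W K z := fun z =>
    congrArg (fun g : K →ₐ[K] F2 W K => g z) (lift2_i2 _ A B h)
  ext1 z
  have goal : fM (e (g z)) = fM (lift2 (i2 W K) A B h (e z)) := by
    refine hom_eq_of_gen (fM.comp (e.comp g))
      (fM.comp ((lift2 (i2 W K) A B h : F2 W K →+* F2 W K).comp e)) hKM hTM ?_ ?_ z
      (by rw [← hM]; exact z.2)
    · intro z hz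
      change fM (e (g _)) = fM (lift2 (i2 W K) A B h (e _))
      rw [hfe', hK _ hz, pair_e_base hPQ fM e hef hf (z := ⟨z, hKM hz⟩) hz, hi,
        ← pair_e_base hPQ fM e hef hf (z := ⟨z, hKM hz⟩) hz, hfe']
    · intro z hz
      change fM (e (g _)) = fM (lift2 (i2 W K) A B h (e _))
      rw [hfe']
      rcases id hz with hz' | hz' | hz' | hz'
      · rw [pair_e_Px hPQ fM e hef hf (z := ⟨z, hTM hz⟩) hz', ← ptX_map, lift2_P2]
        exact Subtype.ext (hPx _ hz')
      · rw [pair_e_Py hPQ fM e hef hf (z := ⟨z, hTM hz⟩) hz', ← ptY_map, lift2_P2]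
        exact Subtype.ext (hPy _ hz')
      · rw [pair_e_Qx hPQ fM e hef hf (z := ⟨z, hTM hz⟩) hz', ← ptX_map, lift2_Q2]
        exact Subtype.ext (hQx _ hz')
      · rw [pair_e_Qy hPQ fM e hef hf (z := ⟨z, hTM hz⟩) hz', ← ptY_map, lift2_Q2]
        exact Subtype.ext (hQy _ hz')
  exact fM.injective goal

/-- The existence of substitutions. -/
lemma pair_exists {A B : Pt W (F2 W K)} (h : Ind (i2 W K) A B) :
    ∃ g : M →+* M, (∀ z : M, (z : Λ) ∈ K → g z = z) ∧
      (∀ z : M, (z : Λ) = ptX P → (g z : Λ) = fM (ptX A)) ∧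
      (∀ z : M, (z : Λ) = ptY P → (g z : Λ) = fM (ptY A)) ∧
      (∀ z : M, (z : Λ) = ptX Q → (g z : Λ) = fM (ptX B)) ∧
      (∀ z : M, (z : Λ) = ptY Q → (g z : Λ) = fM (ptY B)) := by
  have hfe' : ∀ z : M, fM (e z) = z := fun z => congrArg (fun g : M →+* M => g z) hfe
  have hi : ∀ z : K, lift2 (i2 W K) A B h (i2 W K z) = i2 W K z := fun z =>
    congrArg (fun g : K →ₐ[K] F2 W K => g z) (lift2_i2 _ A B h)
  refine ⟨fM.comp ((lift2 (i2 W K) A B h : F2 W K →+* F2 W K).comp e), ?_, ?_, ?_, ?_, ?_⟩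
  · intro z hz
    change fM (lift2 (i2 W K) A B h (e z)) = z
    rw [pair_e_base hPQ fM e hef hf hz, hi, ← pair_e_base hPQ fM e hef hf hz, hfe']
  · intro z hz
    change (fM (lift2 (i2 W K) A B h (e z)) : Λ) = _
    rw [pair_e_Px hPQ fM e hef hf hz, ← ptX_map, lift2_P2]
  · intro z hz
    change (fM (lift2 (i2 W K) A B h (e z)) : Λ) = _
    rw [pair_e_Py hPQ fM e hef hf hz, ← ptY_map, lift2_P2]
  · intro z hz
    change (fM (lift2 (i2 W K) A B h (e z)) : Λ) = _
    rw [pair_e_Qx hPQ fM e hef hf hz, ← ptX_map, lift2_Q2]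
  · intro z hz
    change (fM (lift2 (i2 W K) A B h (e z)) : Λ) = _
    rw [pair_e_Qy hPQ fM e hef hf hz, ← ptY_map, lift2_Q2]

end pair

end UnrH3
end

section

/-!
# Descent of unramified classes along towers of quadratic extensions
-/

namespace UnrH3

universe u v w

open Polynomial
open scoped Classical

section extension

/-- Extension of homomorphisms to an algebraically closed field. -/
lemma exists_extension {R : Type u} {S : Type v} {M : Type w} [CommRing R] [IsDomain R]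
    [Field S] [Field M] [IsAlgClosed M] (f : R →+* S) (g : R →+* M)
    (hf : Function.Injective f) (hg : Function.Injective g)
    (halg : ∀ s : S, ∃ p : R[X], p ≠ 0 ∧ p.eval₂ f s = 0) : ∃ h : S →+* M, h.comp f = g := by
  letI := f.toAlgebra
  letI := g.toAlgebra
  haveI : Module.IsTorsionFree R S :=
    Module.isTorsionFree_iff_algebraMap_injective.mpr hf
  haveI : Module.IsTorsionFree R M :=
    Module.isTorsionFree_iff_algebraMap_injective.mpr hg
  haveI : Algebra.IsAlgebraic R S := ⟨fun s => by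
    obtain ⟨p, hp, hp0⟩ := halg s
    exact ⟨p, hp, by rw [aeval_def]; exact hp0⟩⟩
  exact ⟨(IsAlgClosed.lift : S →ₐ[R] M), (IsAlgClosed.lift : S →ₐ[R] M).comp_algebraMap⟩

variable {Λ : Type u} [Field Λ]

lemma exists_poly_of_mem_cl {A : Subfield Λ} {z : Λ} (hz : z ∈ cl (A : Set Λ)) :
    ∃ p : A[X], p ≠ 0 ∧ p.eval₂ A.subtype z = 0 := by
  rw [mem_cl] at hz
  have h1 : Subfield.closure (A : Set Λ) ≤ A := by rw [Subfield.closure_le]
  obtain ⟨p, hp, hp0⟩ := isAlg_mono h1 hz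
  exact ⟨p, hp, hp0⟩

/-- Extension of a homomorphism of subfields along an algebraic extension. -/
lemma exists_extension_sub [IsAlgClosed Λ] {A B : Subfield Λ} (hAB : A ≤ B)
    (hB : (B : Set Λ) ⊆ cl (A : Set Λ)) (g : A →+* Λ) :
    ∃ h : B →+* Λ, ∀ z : A, h (Subfield.inclusion hAB z) = g z := by
  obtain ⟨h, hh⟩ := exists_extension (Subfield.inclusion hAB) g (RingHom.injective _) g.injective (by
    intro s
    obtain ⟨p, hp, hp0⟩ := exists_poly_of_mem_cl (hB s.2)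
    refine ⟨p, hp, ?_⟩
    apply B.subtype.injective
    rw [map_zero, hom_eval₂]
    exact hp0)
  exact ⟨h, fun z => congrArg (fun f : A →+* Λ => f z) hh⟩

end extension

section descent

variable {m : ℕ} {Λ : Type u} [Field Λ]

lemma mem_cl_of_tower (l : List Λ) : ∀ (A : Subfield Λ),
    (∀ n (hn : n < l.length), l[n] ^ 2 ∈ adj A {z | z ∈ l.take n}) →
    (adj A {z | z ∈ l} : Set Λ) ⊆ cl (A : Set Λ) := by
  induction l with
  | nil =>
    intro A _
    have : ({z : Λ | z ∈ ([] : List Λ)}) = ∅ := by ext z; simp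
    rw [this, adj_empty]
    exact subset_cl _
  | cons s l ih =>
    intro A hsq
    have h0 : s ^ 2 ∈ A := by
      have := hsq 0 (by simp)
      simpa [adj_empty] using this
    have hset : ∀ l' : List Λ, {z | z ∈ s :: l'} = {s} ∪ {z | z ∈ l'} := by
      intro l'
      ext z
      simp
    have h1 : ∀ n (hn : n < l.length), l[n] ^ 2 ∈ adj (adj A {s}) {z | z ∈ l.take n} := by
      intro n hn
      have := hsq (n + 1) (by simpa using hn)
      rw [adj_adj, ← hset]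
      simpa using this
    have h2 : adj A {z | z ∈ s :: l} = adj (adj A {s}) {z | z ∈ l} := by
      rw [adj_adj, hset]
    have h3 : adj A {s} ≤ cl (A : Set Λ) := by
      apply adj_le (subset_cl _)
      rintro z rfl
      exact mem_cl_of_pow (n := 2) (by norm_num) (subset_cl _ h0)
    have h4 := ih (adj A {s}) h1
    rw [h2]
    exact h4.trans (cl_le h3)

/-- Descent of invariant unramified classes along a normal tower of quadratic extensions. -/
theorem descend_list [IsAlgClosed Λ] (hm : Odd m) (h2 : (2 : Λ) ≠ 0) {B C : Subfield Λ}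
    (hN : ∀ g : C →+* Λ, (∀ z : C, (z : Λ) ∈ B → g z = z) → ∀ z, g z ∈ C) {ξ : KM m C}
    (hξ : Unr ξ) (hinv : ∀ g : C →+* C, (∀ z : C, (z : Λ) ∈ B → g z = z) → KM.map m g ξ = ξ)
    (l : List Λ) : ∀ (B' : Subfield Λ), B ≤ B' →
    (∀ n (hn : n < l.length), l[n] ^ 2 ∈ adj B' {z | z ∈ l.take n}) →
    C = adj B' {z | z ∈ l} → From B' C ξ := by
  induction l with
  | nil =>
    intro B' _ _ hC
    have : ({z : Λ | z ∈ ([] : List Λ)}) = ∅ := by ext z; simp
    rw [this, adj_empty] at hC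
    exact ⟨hC.ge, up m hC.le ξ, hξ.map _, by rw [up_up, up_refl]⟩
  | cons s l ih =>
    intro B' hB' hsq hC
    have h0 : s ^ 2 ∈ B' := by
      have := hsq 0 (by simp)
      simpa [adj_empty] using this
    have hset : ∀ l' : List Λ, {z | z ∈ s :: l'} = {s} ∪ {z | z ∈ l'} := by
      intro l'
      ext z
      simp
    have h1 : ∀ n (hn : n < l.length), l[n] ^ 2 ∈ adj (adj B' {s}) {z | z ∈ l.take n} := by
      intro n hn
      have := hsq (n + 1) (by simpa using hn)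
      rw [adj_adj, ← hset]
      simpa using this
    have h3 : adj B' {z | z ∈ s :: l} = adj (adj B' {s}) {z | z ∈ l} := by
      rw [adj_adj, hset]
    obtain ⟨hle, η, hη, hηξ⟩ := ih (adj B' {s}) (hB'.trans (le_adj _ _)) h1 (hC.trans h3)
    have hB'C : B' ≤ C := (le_adj _ _).trans hle
    by_cases hs : s ∈ B'
    · have he : adj B' {s} = B' := adj_eq_self (by rintro z rfl; exact hs)
      exact ⟨hB'C, up m he.le η, hη.map _, by rw [up_up, hηξ]⟩
    · have q := isQuad_adj h0 hs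
      obtain ⟨σ, hσ, hσs⟩ := q.exists_conj (c := ⟨s ^ 2, h0⟩) rfl
      have hCcl : (C : Set Λ) ⊆ cl ((adj B' {s} : Subfield Λ) : Set Λ) := by
        rw [hC, h3]
        exact mem_cl_of_tower l _ h1
      obtain ⟨g, hg⟩ := exists_extension_sub hle hCcl ((adj B' {s}).subtype.comp σ)
      have hgfix : ∀ z : C, (z : Λ) ∈ B → g z = z := by
        intro z hz
        have h4 := hg ⟨z, le_adj B' {s} (hB' hz)⟩
        have h5 : σ ⟨z, le_adj B' {s} (hB' hz)⟩ = ⟨z, le_adj B' {s} (hB' hz)⟩ :=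
          congrArg (fun f : B' →+* adj B' {s} => f ⟨z, hB' hz⟩) hσ
        change g z = (σ ⟨z, le_adj B' {s} (hB' hz)⟩ : Λ) at h4
        rw [h4, h5]
      have hgC := hN g hgfix
      let g' : C →+* C := g.codRestrict C hgC
      have h6 : KM.map m g' ξ = ξ := hinv g' (fun z hz => Subtype.ext (hgfix z hz))
      have h7 : g'.comp (Subfield.inclusion hle) = (Subfield.inclusion hle).comp σ := by
        ext z
        exact hg z
      have hinj : Function.Injective (up m hle) :=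
        up_injective_of_list hm l _ _ hle h1 (hC.trans h3).le
      have h8 : KM.map m σ η = η := by
        apply hinj
        rw [KM.map_map, ← h7, ← KM.map_map, hηξ, h6]
      have hs0 : s ≠ 0 := by
        rintro rfl
        exact hs (zero_mem _)
      obtain ⟨η', hη', hη''⟩ := q.exists_unr_of_invariant hm σ hσ (by
        rw [hσs]
        intro he
        have h9 : -s = s := congrArg Subtype.val he
        have h10 : 2 * s = 0 := by linear_combination -h9
        rcases mul_eq_zero.mp h10 with h11 | h11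
        · exact h2 h11
        · exact hs0 h11) h8 hη
      exact ⟨hB'C, η', hη', by rw [← hηξ, ← hη'', up_up]⟩

end descent

end UnrH3
end

section

/-!
# Towers of quadratic extensions
-/

namespace UnrH3

universe u v w

open Polynomial
open scoped Classical

variable {m : ℕ} {Λ : Type u} [Field Λ]

/-- `B` is obtained from `A` by adjoining square roots successively. -/
inductive QTower : Subfield Λ → Subfield Λ → Prop
  | refl (A : Subfield Λ) : QTower A A
  | step {A B : Subfield Λ} (s : Λ) (h : QTower A B) (hs : s ^ 2 ∈ B) : QTower A (adj B {s})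

lemma QTower.le {A B : Subfield Λ} (h : QTower A B) : A ≤ B := by
  induction h with
  | refl => exact le_rfl
  | step s _ _ ih => exact ih.trans (le_adj _ _)

lemma QTower.trans {A B C : Subfield Λ} (h : QTower A B) (h' : QTower B C) : QTower A C := by
  induction h' with
  | refl => exact h
  | step s _ hs ih => exact QTower.step s ih hs

lemma QTower.up_injective (hm : Odd m) {A B : Subfield Λ} (h : QTower A B) (hle : A ≤ B) :
    Function.Injective (up m hle) := by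
  induction h with
  | refl =>
    intro x y hxy
    rwa [up_refl, up_refl] at hxy
  | @step B s h hs ih =>
    intro x y hxy
    apply ih h.le
    apply up_injective_of_sq (m := m) hm hs (le_adj _ _)
    rwa [up_up, up_up]

lemma QTower.subset_cl {A B : Subfield Λ} (h : QTower A B) : (B : Set Λ) ⊆ cl (A : Set Λ) := by
  induction h with
  | refl => exact UnrH3.subset_cl _
  | @step B s h hs ih =>
    have : adj B {s} ≤ cl (A : Set Λ) := by
      apply adj_le ih
      rintro z rfl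
      exact mem_cl_of_pow (n := 2) (by norm_num) (ih hs)
    exact this

/-- Adjoining finitely many fourth roots. -/
lemma QTower.of_pow_four {A : Subfield Λ} {S : Set Λ} (hS : S.Finite)
    (h : ∀ z ∈ S, z ^ 4 ∈ A) : QTower A (adj A S) := by
  induction S, hS using Set.Finite.induction_on with
  | empty => rw [adj_empty]; exact QTower.refl A
  | @insert z S _ _ ih =>
    have h1 := ih (fun y hy => h y (Set.mem_insert_of_mem _ hy))
    have h2 : z ^ 4 ∈ adj A S := le_adj _ _ (h z (Set.mem_insert _ _))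
    have h3 : QTower A (adj (adj A S) {z ^ 2}) := QTower.step (z ^ 2) h1 (by
      rw [← pow_mul]; exact h2)
    have h4 : QTower A (adj (adj (adj A S) {z ^ 2}) {z}) := QTower.step z h3 (subset_adj _ _ rfl)
    have h5 : adj (adj (adj A S) {z ^ 2}) {z} = adj A (insert z S) := by
      rw [adj_adj, adj_adj]
      apply le_antisymm
      · apply adj_le (le_adj _ _)
        rintro y (hy | hy | hy)
        · exact subset_adj _ _ (Set.mem_insert_of_mem _ hy)
        · rw [Set.mem_singleton_iff.mp hy]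
          exact pow_mem (subset_adj A (insert z S) (Set.mem_insert _ _)) 2
        · rw [Set.mem_singleton_iff.mp hy]
          exact subset_adj _ _ (Set.mem_insert _ _)
      · apply adj_le (le_adj _ _)
        rintro y (hy | hy)
        · rw [hy]
          exact subset_adj _ _ (Or.inr (Or.inr rfl))
        · exact subset_adj _ _ (Or.inl hy)
    rw [← h5]
    exact h4

/-- Descent of invariant unramified classes along a normal tower of quadratic extensions. -/
theorem QTower.descend [IsAlgClosed Λ] (hm : Odd m) (h2 : (2 : Λ) ≠ 0) {A C : Subfield Λ}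
    {ξ : KM m C}
    (hN : ∀ g : C →+* Λ, (∀ z : C, (z : Λ) ∈ A → g z = z) → ∀ z, g z ∈ C)
    (hinv : ∀ g : C →+* C, (∀ z : C, (z : Λ) ∈ A → g z = z) → KM.map m g ξ = ξ)
    {B : Subfield Λ} (hAB : QTower A B) (hBC : QTower B C) (hξ : From B C ξ) : From A C ξ := by
  induction hAB with
  | refl => exact hξ
  | @step B s h hs ih =>
    refine ih ?_ ?_
    · exact (QTower.step s (QTower.refl B) hs).trans hBC
    · obtain ⟨hle, η, hη, hηξ⟩ := hξ
      have hB'C : B ≤ C := (le_adj _ _).trans hle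
      by_cases hs' : s ∈ B
      · have he : adj B {s} = B := adj_eq_self (by rintro z rfl; exact hs')
        exact ⟨hB'C, up m he.le η, hη.map _, by rw [up_up, hηξ]⟩
      · have q := isQuad_adj hs hs'
        obtain ⟨σ, hσ, hσs⟩ := q.exists_conj (c := ⟨s ^ 2, hs⟩) rfl
        obtain ⟨g, hg⟩ := exists_extension_sub hle hBC.subset_cl ((adj B {s}).subtype.comp σ)
        have hgfix : ∀ z : C, (z : Λ) ∈ A → g z = z := by
          intro z hz
          have h4 := hg ⟨z, le_adj B {s} (h.le hz)⟩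
          have h5 : σ ⟨z, le_adj B {s} (h.le hz)⟩ = ⟨z, le_adj B {s} (h.le hz)⟩ :=
            congrArg (fun f : B →+* adj B {s} => f ⟨z, h.le hz⟩) hσ
          change g z = (σ ⟨z, le_adj B {s} (h.le hz)⟩ : Λ) at h4
          rw [h4, h5]
        have hgC := hN g hgfix
        let g' : C →+* C := g.codRestrict C hgC
        have h6 : KM.map m g' ξ = ξ := hinv g' (fun z hz => Subtype.ext (hgfix z hz))
        have h7 : g'.comp (Subfield.inclusion hle) = (Subfield.inclusion hle).comp σ := by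
          ext z
          exact hg z
        have hinj : Function.Injective (up m hle) := hBC.up_injective hm hle
        have h8 : KM.map m σ η = η := by
          apply hinj
          rw [KM.map_map, ← h7, ← KM.map_map, hηξ, h6]
        have hs0 : s ≠ 0 := by
          rintro rfl
          exact hs' (zero_mem _)
        obtain ⟨η', hη', hη''⟩ := q.exists_unr_of_invariant hm σ hσ (by
          rw [hσs]
          intro he
          have h9 : -s = s := congrArg Subtype.val he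
          have h10 : 2 * s = 0 := by linear_combination -h9
          rcases mul_eq_zero.mp h10 with h11 | h11
          · exact h2 h11
          · exact hs0 h11) h8 hη
        exact ⟨hB'C, η', hη', by rw [← hηξ, ← hη'', up_up]⟩

/-- Fourth roots are moved by roots of unity. -/
lemma eq_of_pow_four {ι x y : Λ} (hι : ι ^ 2 = -1) (h : x ^ 4 = y ^ 4) :
    x = y ∨ x = -y ∨ x = ι * y ∨ x = -(ι * y) := by
  have h1 : (x - y) * ((x + y) * ((x - ι * y) * (x + ι * y))) = 0 := by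
    linear_combination h + (y ^ 4 - x ^ 2 * y ^ 2) * hι
  rcases mul_eq_zero.mp h1 with h2 | h2
  · left; linear_combination h2
  · rcases mul_eq_zero.mp h2 with h3 | h3
    · right; left; linear_combination h3
    · rcases mul_eq_zero.mp h3 with h4 | h4
      · right; right; left; linear_combination h4
      · right; right; right; linear_combination h4

lemma mem_of_pow_four {ι x y : Λ} (hι : ι ^ 2 = -1) {F : Subfield Λ} (hιF : ι ∈ F) (hy : y ∈ F)
    (h : x ^ 4 = y ^ 4) : x ∈ F := by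
  rcases eq_of_pow_four hι h with h | h | h | h
  · rw [h]; exact hy
  · rw [h]; exact neg_mem hy
  · rw [h]; exact mul_mem hιF hy
  · rw [h]; exact neg_mem (mul_mem hιF hy)

end UnrH3
end

section

/-!
# From subfields of an algebraic closure to abstract extensions
-/

namespace UnrH3

universe u v w

open Polynomial
open scoped Classical

variable {m : ℕ}

section ind

variable {k Λ : Type u} [Field k] [Field Λ] [Algebra k Λ]

lemma isAlgebraic_adjoin_of_mem_cl {T : Set Λ} {z : Λ}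
    (h : z ∈ cl (((algebraMap k Λ).fieldRange : Set Λ) ∪ T)) :
    IsAlgebraic (Algebra.adjoin k T) z := by
  rw [mem_cl] at h
  rw [← IntermediateField.isAlgebraic_adjoin_iff]
  have h1 : Subfield.closure (((algebraMap k Λ).fieldRange : Set Λ) ∪ T) ≤
      (IntermediateField.adjoin k T).toSubfield := by
    rw [Subfield.closure_le]
    rintro y (⟨c, rfl⟩ | hy)
    · exact (IntermediateField.adjoin k T).algebraMap_mem c
    · exact IntermediateField.subset_adjoin k T hy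
  have h2 : IsAlgebraic (IntermediateField.adjoin k T).toSubfield z := isAlg_mono h1 h
  exact h2

lemma indFam_of_algInd {n : ℕ} {x : Fin n → Λ} (hx : AlgebraicIndependent k x) :
    IndFam (algebraMap k Λ).fieldRange x := by
  intro j h
  have h1 := ((AlgebraicIndependent.iff_transcendental_adjoin_image j).mp hx).2
  apply h1
  have h2 : {l : Fin n | l ≠ j} = {j}ᶜ := by ext l; simp
  rw [h2] at h
  exact isAlgebraic_adjoin_of_mem_cl h

end ind

section transfer

variable {k L Λ : Type u} [Field k] [Field L] [Field Λ] [Algebra k L] (φ : L →+* Λ)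

lemma fieldRange_eq_adj {T : Set L} (hT : IntermediateField.adjoin k T = ⊤) :
    φ.fieldRange = adj (φ.comp (algebraMap k L)).fieldRange (φ '' T) := by
  apply le_antisymm
  · have h1 : (IntermediateField.adjoin k T).toSubfield ≤
        (adj (φ.comp (algebraMap k L)).fieldRange (φ '' T)).comap φ := by
      apply IntermediateField.adjoin_le_subfield
      · rintro _ ⟨c, rfl⟩
        exact le_adj _ _ ⟨c, rfl⟩
      · intro z hz
        exact subset_adj _ _ ⟨z, hz, rfl⟩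
    rintro _ ⟨z, rfl⟩
    apply h1
    rw [hT]
    trivial
  · apply adj_le
    · rintro _ ⟨c, rfl⟩
      exact ⟨algebraMap k L c, rfl⟩
    · rintro _ ⟨z, _, rfl⟩
      exact ⟨z, rfl⟩

/-- The isomorphism of a field with its image. -/
noncomputable def toRange : L →+* φ.fieldRange := φ.rangeRestrictField

lemma toRange_map_injective : Function.Injective (KM.map m (toRange φ)) := by
  obtain ⟨e, he⟩ : ∃ e : φ.fieldRange →+* L, φ.comp e = φ.fieldRange.subtype :=
    exists_factor _ _ (fun a => a.2)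
  have h1 : e.comp (toRange φ) = RingHom.id L := by
    ext z
    apply φ.injective
    exact congrArg (fun f : φ.fieldRange →+* Λ => f (toRange φ z)) he
  intro a b hab
  have h2 := congrArg (KM.map m e) hab
  rw [KM.map_map, KM.map_map, h1, KM.map_id] at h2
  exact h2

lemma transfer_from {E : Type u} [Field E] (ψ : E →+* L) {A : Subfield Λ}
    (hA : A ≤ (φ.comp ψ).fieldRange) {ζ : KM m L}
    (h : From A φ.fieldRange (KM.map m (toRange φ) ζ)) :
    ∃ η : KM m E, Unr η ∧ KM.map m ψ η = ζ := by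
  obtain ⟨hAL, η₀, hη₀, hη₀'⟩ := h
  obtain ⟨ρ, hρ⟩ : ∃ ρ : A →+* E, (φ.comp ψ).comp ρ = A.subtype :=
    exists_factor _ _ (fun a => hA a.2)
  refine ⟨KM.map m ρ η₀, hη₀.map ρ, ?_⟩
  apply toRange_map_injective φ
  rw [← hη₀', KM.map_map, KM.map_map]
  congr 2
  ext z
  exact congrArg (fun f : A →+* Λ => f z) hρ

lemma transfer_from_mem {E : Type u} [Field E] (ψ : E →+* L) {A : Subfield Λ}
    (hA : A ≤ (φ.comp ψ).fieldRange) {ζ : KM m φ.fieldRange} (h : From A φ.fieldRange ζ) :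
    ∃ η : KM m E, Unr η ∧ KM.map m ((toRange φ).comp ψ) η = ζ := by
  obtain ⟨hAL, η₀, hη₀, hη₀'⟩ := h
  obtain ⟨ρ, hρ⟩ : ∃ ρ : A →+* E, (φ.comp ψ).comp ρ = A.subtype :=
    exists_factor _ _ (fun a => hA a.2)
  refine ⟨KM.map m ρ η₀, hη₀.map ρ, ?_⟩
  rw [← hη₀', KM.map_map]
  unfold up
  congr 2
  ext z
  exact congrArg (fun f : A →+* Λ => f z) hρ

end transfer

end UnrH3
end

section

/-!
# Auxiliary statements for the transfer to abstract fields
-/

namespace UnrH3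

universe u v w

open Polynomial
open scoped Classical

lemma torsion_of_algebraic {p : ℕ} [Fact p.Prime] {F : Type u} [Field F] [Algebra (ZMod p) F]
    [Algebra.IsAlgebraic (ZMod p) F] {y : F} (hy : y ≠ 0) : ∃ l > 0, y ^ l = 1 := by
  have h1 : IsIntegral (ZMod p) y := (Algebra.IsAlgebraic.isAlgebraic y).isIntegral
  have h2 : FiniteDimensional (ZMod p) (IntermediateField.adjoin (ZMod p) {y}) :=
    IntermediateField.adjoin.finiteDimensional h1
  have h3 : Finite (IntermediateField.adjoin (ZMod p) {y}) := Module.finite_of_finite (ZMod p)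
  have hm : y ∈ IntermediateField.adjoin (ZMod p) {y} :=
    IntermediateField.mem_adjoin_simple_self _ _
  have hy' : (⟨y, hm⟩ : IntermediateField.adjoin (ZMod p) {y}) ≠ 0 := fun h =>
    hy (congrArg Subtype.val h)
  have h4 := pow_orderOf_eq_one (Units.mk0 _ hy')
  refine ⟨orderOf (Units.mk0 _ hy'), orderOf_pos _, ?_⟩
  generalize orderOf (Units.mk0 _ hy') = l at h4
  have h5 := congrArg (fun z : (IntermediateField.adjoin (ZMod p) {y})ˣ =>
    ((z : IntermediateField.adjoin (ZMod p) {y}) : F)) h4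
  simpa using h5

section ind

variable {k Λ : Type u} [Field k] [Field Λ] [Algebra k Λ] {r n : ℕ}

lemma not_mem_cl_of_algInd {I : Type} {y : I → Λ} (hy : AlgebraicIndependent k y) (i : I) :
    y i ∉ cl (((algebraMap k Λ).fieldRange : Set Λ) ∪ y '' {i}ᶜ) := fun h =>
  ((AlgebraicIndependent.iff_transcendental_adjoin_image i).mp hy).2
    (isAlgebraic_adjoin_of_mem_cl h)

lemma indSet_of_sum {t : Fin r → Λ} {x : Fin n → Λ}
    (h : AlgebraicIndependent k (Sum.elim t x)) :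
    IndSet (algebraMap k Λ).fieldRange (Set.range t) := by
  rintro _ ⟨i, rfl⟩ h'
  apply not_mem_cl_of_algInd h (Sum.inl i)
  refine cl_mono (Set.union_subset_union_right _ ?_) h'
  rintro _ ⟨⟨l, rfl⟩, hl⟩
  refine ⟨Sum.inl l, ?_, rfl⟩
  rintro he
  exact hl (by rw [Sum.inl_injective he]; rfl)

lemma indFam_of_sum {t : Fin r → Λ} {x : Fin n → Λ}
    (h : AlgebraicIndependent k (Sum.elim t x)) :
    IndFam (adj (algebraMap k Λ).fieldRange (Set.range t)) x := by
  intro i h'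
  apply not_mem_cl_of_algInd h (Sum.inr i)
  refine cl_le ?_ h'
  rintro z (hz | ⟨l, hl, rfl⟩)
  · have h1 : adj (algebraMap k Λ).fieldRange (Set.range t) ≤
        cl (((algebraMap k Λ).fieldRange : Set Λ) ∪ Sum.elim t x '' {Sum.inr i}ᶜ) := by
      apply adj_le
      · intro z hz
        exact subset_cl _ (Or.inl hz)
      · rintro _ ⟨l, rfl⟩
        exact subset_cl _ (Or.inr ⟨Sum.inl l, by simp, rfl⟩)
    exact h1 hz
  · exact subset_cl _ (Or.inr ⟨Sum.inr l, fun he => hl (Sum.inr_injective he), rfl⟩)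

end ind

section norms

/-- The norm of `ι ^ B ϖ ^ k - p ^ l` is not zero. -/
lemma gauss_norm_ne_zero {F : Type u} [Field F] {p : ℕ} [hp : Fact p.Prime] [CharP F p]
    (h2 : (2 : F) ≠ 0) {ι : F} (hι : ι ^ 2 = -1) {ϖ : GaussianInt} (hϖ : ϖ.norm = p)
    (hϖι : (ϖ.re : F) + ϖ.im * ι = 0) {B k l : ℕ} (hl : 0 < l) :
    (⟨0, 1⟩ ^ B * ϖ ^ k - (p : GaussianInt) ^ l : GaussianInt).norm ≠ 0 := by
  intro h
  have h1 : (⟨0, 1⟩ ^ B * ϖ ^ k - (p : GaussianInt) ^ l : GaussianInt) = 0 := by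
    rw [Zsqrtd.norm_eq_zero_iff (by norm_num)] at h
    exact h
  -- the homomorphism to `F` that does not kill `ϖ`
  have hι' : (-ι) * (-ι) = ((-1 : ℤ) : F) := by push_cast; linear_combination hι
  obtain ⟨f, hf⟩ : ∃ f : GaussianInt →+* F, ∀ z, f z = (z.re : F) + z.im * (-ι) :=
    ⟨Zsqrtd.lift ⟨-ι, hι'⟩, fun z => Zsqrtd.lift_apply_apply _ _⟩
  have h3 := congrArg f h1
  rw [map_sub, map_mul, map_pow, map_pow, map_pow, map_natCast, map_zero,
    CharP.cast_eq_zero, zero_pow hl.ne', sub_zero] at h3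
  have h4 : f ⟨0, 1⟩ = -ι := by rw [hf]; simp
  have hι0 : -ι ≠ 0 := by
    intro h5
    have h6 : ι = 0 := neg_eq_zero.mp h5
    rw [h6] at hι
    exact one_ne_zero (by linear_combination hι : (1 : F) = 0)
  rcases mul_eq_zero.mp h3 with h5 | h5
  · rw [h4] at h5
    exact hι0 (eq_zero_of_pow_eq_zero h5)
  · have h6 : f ϖ = 0 := eq_zero_of_pow_eq_zero h5
    rw [hf] at h6
    have h7 : 2 * (ϖ.re : F) = 0 := by linear_combination h6 + hϖι
    have h8 : (ϖ.re : F) = 0 := (mul_eq_zero.mp h7).resolve_left h2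
    have h9 : (p : ℤ) ∣ ϖ.re := (CharP.intCast_eq_zero_iff F p _).mp h8
    have h10 : (ϖ.im : F) = 0 := by
      rw [h8, zero_add] at hϖι
      exact (mul_eq_zero.mp hϖι).resolve_right (fun h => hι0 (by rw [h, neg_zero]))
    have h11 : (p : ℤ) ∣ ϖ.im := (CharP.intCast_eq_zero_iff F p _).mp h10
    obtain ⟨u, hu⟩ := h9
    obtain ⟨v, hv⟩ := h11
    rw [Zsqrtd.norm_def, hu, hv] at hϖ
    have hp0 : (p : ℤ) ≠ 0 := by exact_mod_cast hp.out.ne_zero
    have h12 : (p : ℤ) * (u * u + v * v) = 1 := by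
      apply mul_left_cancel₀ hp0
      linear_combination hϖ
    have h13 : (p : ℤ) ∣ 1 := ⟨_, h12.symm⟩
    have h14 := Int.le_of_dvd (by norm_num) h13
    have h15 := hp.out.one_lt
    omega

end norms

end UnrH3
end

section

/-!
# Embeddings of function fields in an algebraically closed field
-/

namespace UnrH3

universe u v w

open Polynomial
open scoped Classical

variable {m : ℕ}

section

variable {k Λ : Type u} [Field k] [Field Λ] [Algebra k Λ]

lemma mem_cl_of_isAlgebraic_adjoin {T : Set Λ} {z : Λ}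
    (h : IsAlgebraic (Algebra.adjoin k T) z) :
    z ∈ cl (((algebraMap k Λ).fieldRange : Set Λ) ∪ T) := by
  rw [← IntermediateField.isAlgebraic_adjoin_iff] at h
  rw [mem_cl]
  have h1 : (IntermediateField.adjoin k T).toSubfield ≤
      Subfield.closure (((algebraMap k Λ).fieldRange : Set Λ) ∪ T) := by
    apply IntermediateField.adjoin_le_subfield
    · rintro _ ⟨c, rfl⟩
      exact Subfield.subset_closure (Or.inl ⟨c, rfl⟩)
    · intro z hz
      exact Subfield.subset_closure (Or.inr hz)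
  have h2 : IsAlgebraic (IntermediateField.adjoin k T).toSubfield z := h
  exact isAlg_mono h1 h2

lemma algInd_of_indFam {n : ℕ} {y : Fin n → Λ} (h : IndFam (algebraMap k Λ).fieldRange y) :
    AlgebraicIndependent k y := by
  apply algebraicIndependent_of_finite_type' (algebraMap k Λ).injective
  intro t _ _ i hi halg
  apply h i
  refine cl_mono (Set.union_subset_union_right _ ?_) (mem_cl_of_isAlgebraic_adjoin halg)
  rintro _ ⟨j, hj, rfl⟩
  exact ⟨j, fun he => hi (by rw [← he]; exact hj), rfl⟩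

/-- The function field of a cover of affine space embeds. -/
lemma exists_embedding [IsAlgClosed Λ] {L' : Type v} [Field L'] [Algebra k L'] {n : ℕ}
    {x' : Fin n → L'} (hx' : AlgebraicIndependent k x') {w' : L'}
    (hw' : IsAlgebraic (Algebra.adjoin k (Set.range x')) w')
    (hL' : IntermediateField.adjoin k (insert w' (Set.range x')) = ⊤) {y : Fin n → Λ}
    (hy : AlgebraicIndependent k y) :
    ∃ φ : L' →+* Λ, φ.comp (algebraMap k L') = algebraMap k Λ ∧ ∀ j, φ (x' j) = y j := by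
  have halg : ∀ s : L', IsAlgebraic (IntermediateField.adjoin k (Set.range x')) s := by
    have h1 : IntermediateField.adjoin k (insert w' (Set.range x')) ≤
        (algebraicClosure (IntermediateField.adjoin k (Set.range x')) L').restrictScalars k := by
      rw [IntermediateField.adjoin_le_iff]
      rintro z (rfl | hz)
      · change z ∈ algebraicClosure (IntermediateField.adjoin k (Set.range x')) L'
        rw [mem_algebraicClosure_iff]
        rwa [IntermediateField.isAlgebraic_adjoin_iff]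
      · change z ∈ algebraicClosure (IntermediateField.adjoin k (Set.range x')) L'
        rw [mem_algebraicClosure_iff]
        exact isAlgebraic_algebraMap
          (⟨z, IntermediateField.subset_adjoin _ _ hz⟩ : IntermediateField.adjoin k (Set.range x'))
    intro s
    have h2 : s ∈ (algebraicClosure (IntermediateField.adjoin k (Set.range x'))
        L').restrictScalars k := h1 (by rw [hL']; trivial)
    change s ∈ algebraicClosure (IntermediateField.adjoin k (Set.range x')) L' at h2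
    rwa [mem_algebraicClosure_iff] at h2
  obtain ⟨h, hh⟩ := exists_extension (R := MvPolynomial (Fin n) k)
    ((MvPolynomial.aeval x' : MvPolynomial (Fin n) k →ₐ[k] L') : MvPolynomial (Fin n) k →+* L')
    ((MvPolynomial.aeval y : MvPolynomial (Fin n) k →ₐ[k] Λ) : MvPolynomial (Fin n) k →+* Λ)
    (algebraicIndependent_iff_injective_aeval.mp hx')
    (algebraicIndependent_iff_injective_aeval.mp hy) (by
      intro s
      have h1 := halg s
      rw [IntermediateField.isAlgebraic_adjoin_iff] at h1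
      obtain ⟨p, hp, hp0⟩ := h1
      refine ⟨p.map (hx'.aevalEquiv.symm : Algebra.adjoin k (Set.range x') →+*
        MvPolynomial (Fin n) k), ?_, ?_⟩
      · rw [Ne, Polynomial.map_eq_zero_iff]
        · exact hp
        · exact hx'.aevalEquiv.symm.injective
      · rw [eval₂_map]
        have h2 : (((MvPolynomial.aeval x' : MvPolynomial (Fin n) k →ₐ[k] L') :
            MvPolynomial (Fin n) k →+* L').comp (hx'.aevalEquiv.symm :
            Algebra.adjoin k (Set.range x') →+* MvPolynomial (Fin n) k)) =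
            algebraMap (Algebra.adjoin k (Set.range x')) L' := by
          ext z
          have h3 := hx'.algebraMap_aevalEquiv (hx'.aevalEquiv.symm z)
          rw [AlgEquiv.apply_symm_apply] at h3
          exact h3.symm
        rw [h2]
        rw [aeval_def] at hp0
        exact hp0)
  refine ⟨h, ?_, ?_⟩
  · ext c
    have h1 := congrArg (fun f : MvPolynomial (Fin n) k →+* Λ => f (MvPolynomial.C c)) hh
    simp only [RingHom.comp_apply, RingHom.coe_coe, MvPolynomial.aeval_C] at h1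
    exact h1
  · intro j
    have h1 := congrArg (fun f : MvPolynomial (Fin n) k →+* Λ => f (MvPolynomial.X j)) hh
    simp only [RingHom.comp_apply, RingHom.coe_coe, MvPolynomial.aeval_X] at h1
    exact h1

end

end UnrH3
end
end

section

/-!
# Balanced classes on two points of `y² = x³ - x`
-/

namespace UnrH3

universe u v w

open Polynomial WeierstrassCurve
open scoped Classical

variable {m : ℕ} {Λ : Type u} [Field Λ]

/-- The class `γ` of `M` is odd with respect to changing the sign of `y` and fixing `K` and `T`. -/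
def OddAt {m : ℕ} (K : Subfield Λ) {M : Subfield Λ} (y : Λ) (T : Set Λ) (γ : KM m M) : Prop :=
  ∀ g : M →+* M, (∀ z : M, (z : Λ) ∈ K → g z = z) → (∀ z : M, (z : Λ) ∈ T → g z = z) →
    (∀ z : M, (z : Λ) = y → g z = -z) → KM.map m g γ = -γ

lemma Wi_good' {S : Type v} [Field S] (h2 : (2 : S) ≠ 0) : GoodW (Wi S) := ⟨Or.inl h2⟩

lemma cube_sub_ne_zero {K : Subfield Λ} {x : Λ} (hx : x ∉ cl (K : Set Λ)) : x ^ 3 - x ≠ 0 := by
  intro h
  apply hx
  have h1 : x * ((x - 1) * (x + 1)) = 0 := by linear_combination h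
  rcases mul_eq_zero.mp h1 with h2 | h2
  · rw [h2]; exact zero_mem _
  · rcases mul_eq_zero.mp h2 with h3 | h3
    · rw [sub_eq_zero.mp h3]; exact one_mem _
    · rw [eq_neg_of_add_eq_zero_left h3]; exact neg_mem (one_mem _)

section

variable {K M : Subfield Λ} {x₁ y₁ x₂ y₂ : Λ}

/-- The data attached to two independent points of `y² = x³ - x`. -/
lemma exists_pair (h2 : (2 : Λ) ≠ 0) (hx₁ : x₁ ∉ cl (K : Set Λ))
    (hx₂ : x₂ ∉ cl (insert x₁ (K : Set Λ))) (h₁ : y₁ ^ 2 = x₁ ^ 3 - x₁)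
    (h₂ : y₂ ^ 2 = x₂ ^ 3 - x₂) :
    ∃ P Q : Pt (Wi K) Λ, ptX P = x₁ ∧ ptY P = y₁ ∧ ptX Q = x₂ ∧ ptY Q = y₂ ∧
      Ind (Algebra.ofId K Λ) P Q := by
  have hx₂' : x₂ ∉ cl (K : Set Λ) := fun h => hx₂ (cl_mono (Set.subset_insert _ _) h)
  have hy₁ : y₁ ≠ 0 := by
    rintro rfl
    apply cube_sub_ne_zero hx₁
    rw [← h₁]; simp
  have hy₂ : y₂ ≠ 0 := by
    rintro rfl
    apply cube_sub_ne_zero hx₂'
    rw [← h₂]; simp
  refine ⟨.some x₁ y₁ (Wi_nonsingular h2 h₁ hy₁), .some x₂ y₂ (Wi_nonsingular h2 h₂ hy₂),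
    rfl, rfl, rfl, rfl, ?_, ?_⟩
  · change ¬ (x₁ ∈ cl (Set.range (Algebra.ofId K Λ)))
    rw [range_ofId]; exact hx₁
  · change ¬ (x₂ ∈ cl (insert x₁ (Set.range (Algebra.ofId K Λ))))
    rw [range_ofId]; exact hx₂

lemma Wi_a₁ {S : Type v} [Field S] {Ω : Type u} [Field Ω] [Algebra S Ω] :
    ((Wi S)⁄Ω).a₁ = 0 := map_zero _

lemma Wi_a₃ {S : Type v} [Field S] {Ω : Type u} [Field Ω] [Algebra S Ω] :
    ((Wi S)⁄Ω).a₃ = 0 := map_zero _

lemma ptX_neg {S : Type v} [Field S] {Ω : Type u} [Field Ω] [Algebra S Ω] {W : WeierstrassCurve S}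
    (P : Pt W Ω) : ptX (-P) = ptX P := by
  rcases P with _ | ⟨x, y, h⟩
  · rfl
  · rfl

lemma Wi_ptY_neg {S : Type v} [Field S] {Ω : Type u} [Field Ω] [Algebra S Ω]
    (P : Pt (Wi S) Ω) : ptY (-P) = -ptY P := by
  rcases P with _ | ⟨x, y, h⟩
  · exact neg_zero.symm
  · rw [Affine.Point.neg_some]
    simp only [Affine.negY, ptY_some]
    rw [Wi_a₁, Wi_a₃]; ring

lemma cmI_ptX {S : Type v} [Field S] {ι : S} (hι : ι ^ 2 = -1) {Ω : Type u} [Field Ω]
    [Algebra S Ω] (P : Pt (Wi S) Ω) : ptX ((cmI hι).toFun Ω P) = - ptX P := by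
  rcases P with _ | ⟨x, y, h⟩
  · exact neg_zero.symm
  · obtain ⟨h', e⟩ := cmI_some hι h
    rw [e]; rfl

lemma cmI_ptY {S : Type v} [Field S] {ι : S} (hι : ι ^ 2 = -1) {Ω : Type u} [Field Ω]
    [Algebra S Ω] (P : Pt (Wi S) Ω) : ptY ((cmI hι).toFun Ω P) = algebraMap S Ω ι * ptY P := by
  rcases P with _ | ⟨x, y, h⟩
  · exact (mul_zero _).symm
  · obtain ⟨h', e⟩ := cmI_some hι h
    rw [e]; rfl

lemma cmI_cmI {S : Type v} [Field S] {ι : S} (hι : ι ^ 2 = -1) {Ω : Type u} [Field Ω]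
    [Algebra S Ω] (P : Pt (Wi S) Ω) :
    (cmI hι).toFun Ω ((cmI hι).toFun Ω P) = -P := by
  by_cases h0 : P = 0
  · rw [h0, map_zero, map_zero, neg_zero]
  have hI : ∀ Q : Pt (Wi S) Ω, Q ≠ 0 → (cmI hι).toFun Ω Q ≠ 0 := by
    intro Q hQ
    rcases Q with _ | ⟨x, y, h⟩
    · exact absurd rfl hQ
    · obtain ⟨h', e⟩ := cmI_some hι h
      rw [e]
      exact Affine.Point.some_ne_zero _
  apply pt_ext (hI _ (hI _ h0)) (neg_ne_zero.mpr h0)
  · rw [cmI_ptX, cmI_ptX, ptX_neg, neg_neg]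
  · rw [cmI_ptY, cmI_ptY, Wi_ptY_neg, ← mul_assoc, ← map_mul, ← sq, hι, map_neg, map_one]
    ring

/-- Oddness of the transported class. -/
lemma pair_odd [GoodW (Wi K)] {P Q : Pt (Wi K) Λ} (hPQ : Ind (Algebra.ofId K Λ) P Q)
    (fM : F2 (Wi K) K →+* M) (e : M →+* F2 (Wi K) K) (hef : e.comp fM = RingHom.id _)
    (hfe : fM.comp e = RingHom.id _)
    (hf : ∀ z, (fM z : Λ) = lift2 (Algebra.ofId K Λ) P Q hPQ z)
    (hP1 : ptX P = x₁) (hP2 : ptY P = y₁) (hQ1 : ptX Q = x₂) (hQ2 : ptY Q = y₂)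
    (hM' : M = adj K {ptX P, ptY P, ptX Q, ptY Q}) {γ : KM m M}
    (ho₁ : OddAt K y₁ {x₁, x₂, y₂} γ) (ho₂ : OddAt K y₂ {x₁, y₁, x₂} γ) :
    Odd1 (KM.map m e γ) ∧ OddCl (KM.map m e γ) := by
  have hfPx : (fM (ptX (P2 (Wi K) K)) : Λ) = x₁ := by rw [hf, ← ptX_map, lift2_P2, hP1]
  have hfPy : (fM (ptY (P2 (Wi K) K)) : Λ) = y₁ := by rw [hf, ← ptY_map, lift2_P2, hP2]
  have hfQx : (fM (ptX (Q2 (Wi K) K)) : Λ) = x₂ := by rw [hf, ← ptX_map, lift2_Q2, hQ1]
  have hfQy : (fM (ptY (Q2 (Wi K) K)) : Λ) = y₂ := by rw [hf, ← ptY_map, lift2_Q2, hQ2]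
  have hind := ind_P2_Q2 (Wi K) K
  refine ⟨?_, ?_⟩
  · unfold Odd1
    obtain ⟨g', g'1, g'2, g'3, g'4, g'5⟩ := pair_exists hPQ fM e hef hfe hf hind.neg_left
    have hs := pair_spec hPQ fM e hef hfe hf hM' hind.neg_left g' g'1 g'2 g'3 g'4 g'5
    have hg' : KM.map m g' γ = -γ := by
      apply ho₁ g' g'1
      · rintro z (hz | hz | hz)
        · apply Subtype.ext
          rw [g'2 z (hz.trans hP1.symm), ptX_neg, hfPx, hz]
        · apply Subtype.ext
          rw [g'4 z (hz.trans hQ1.symm), hfQx, hz]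
        · apply Subtype.ext
          rw [Set.mem_singleton_iff] at hz
          rw [g'5 z (hz.trans hQ2.symm), hfQy, hz]
      · intro z hz
        apply Subtype.ext
        rw [g'3 z (hz.trans hP2.symm), Wi_ptY_neg, map_neg]
        change -(fM (ptY (P2 (Wi K) K)) : Λ) = -(z : Λ)
        rw [hfPy, hz]
    rw [ev2_of_ind hind.neg_left, KM.map_map, ← hs, ← KM.map_map, hg', map_neg]
  · unfold OddCl
    obtain ⟨g', g'1, g'2, g'3, g'4, g'5⟩ := pair_exists hPQ fM e hef hfe hf hind.neg_right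
    have hs := pair_spec hPQ fM e hef hfe hf hM' hind.neg_right g' g'1 g'2 g'3 g'4 g'5
    have hg' : KM.map m g' γ = -γ := by
      apply ho₂ g' g'1
      · rintro z (hz | hz | hz)
        · apply Subtype.ext
          rw [g'2 z (hz.trans hP1.symm), hfPx, hz]
        · apply Subtype.ext
          rw [g'3 z (hz.trans hP2.symm), hfPy, hz]
        · apply Subtype.ext
          rw [Set.mem_singleton_iff] at hz
          rw [g'4 z (hz.trans hQ1.symm), ptX_neg, hfQx, hz]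
      · intro z hz
        apply Subtype.ext
        rw [g'5 z (hz.trans hQ2.symm), Wi_ptY_neg, map_neg]
        change -(fM (ptY (Q2 (Wi K) K)) : Λ) = -(z : Λ)
        rw [hfQy, hz]
    rw [← ev2_neg_Q2, ev2_of_ind hind.neg_right, KM.map_map, ← hs, ← KM.map_map, hg',
      map_neg]

variable (hm : Odd m) (h2 : (2 : Λ) ≠ 0) (hx₁ : x₁ ∉ cl (K : Set Λ))
    (hx₂ : x₂ ∉ cl (insert x₁ (K : Set Λ))) (h₁ : y₁ ^ 2 = x₁ ^ 3 - x₁)
    (h₂ : y₂ ^ 2 = x₂ ^ 3 - x₂) (hM : M = adj K {x₁, y₁, x₂, y₂})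

include hm h2 hx₁ hx₂ h₁ h₂ hM

/-- The simultaneous flip. -/
theorem flip_pair {ι : Λ} (hι : ι ^ 2 = -1) (hιK : ι ∈ K) :
    ∃ g : M →+* M, (∀ z : M, (z : Λ) ∈ K → g z = z) ∧ (∀ z : M, (z : Λ) = x₁ → g z = -z) ∧
      (∀ z : M, (z : Λ) = y₁ → (g z : Λ) = ι * z) ∧ (∀ z : M, (z : Λ) = x₂ → g z = -z) ∧
      (∀ z : M, (z : Λ) = y₂ → (g z : Λ) = -(ι * z)) ∧
      ∀ γ : KM m M, Unr γ → OddAt K y₁ {x₁, x₂, y₂} γ → OddAt K y₂ {x₁, y₁, x₂} γ →
        KM.map m g γ = γ := by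
  have h2K : (2 : K) ≠ 0 := fun h => h2 (by
    have := congrArg K.subtype h
    rwa [map_ofNat, map_zero] at this)
  have : GoodW (Wi K) := Wi_good' h2K
  obtain ⟨P, Q, hP1, hP2, hQ1, hQ2, hPQ⟩ := exists_pair h2 hx₁ hx₂ h₁ h₂
  have hM' : M = adj K {ptX P, ptY P, ptX Q, ptY Q} := by rw [hP1, hP2, hQ1, hQ2]; exact hM
  obtain ⟨fM, e, hef, hfe, hf⟩ := exists_pair_iso hPQ hM'
  have hfPx : (fM (ptX (P2 (Wi K) K)) : Λ) = x₁ := by rw [hf, ← ptX_map, lift2_P2, hP1]
  have hfPy : (fM (ptY (P2 (Wi K) K)) : Λ) = y₁ := by rw [hf, ← ptY_map, lift2_P2, hP2]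
  have hfQx : (fM (ptX (Q2 (Wi K) K)) : Λ) = x₂ := by rw [hf, ← ptX_map, lift2_Q2, hQ1]
  have hfQy : (fM (ptY (Q2 (Wi K) K)) : Λ) = y₂ := by rw [hf, ← ptY_map, lift2_Q2, hQ2]
  set ι' : K := ⟨ι, hιK⟩ with hι'
  have hι'2 : ι' ^ 2 = -1 := Subtype.ext hι
  have hfι : (fM (algebraMap K (F2 (Wi K) K) ι') : Λ) = ι := by
    rw [hf, AlgHom.commutes]; rfl
  have hind := ind_P2_Q2 (Wi K) K
  set φ := cmI (S := K) hι'2 with hφ
  have hA : Ind (i2 (Wi K) K) (φ.toFun _ (P2 (Wi K) K)) (-(φ.toFun _ (Q2 (Wi K) K))) :=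
    (φ.ind_right (φ.ind_left hind)).neg_right
  obtain ⟨g, g1, g2, g3, g4, g5⟩ := pair_exists hPQ fM e hef hfe hf hA
  rw [hP1] at g2
  rw [hP2] at g3
  rw [hQ1] at g4
  rw [hQ2] at g5
  refine ⟨g, g1, ?_, ?_, ?_, ?_, ?_⟩
  · intro z hz
    apply Subtype.ext
    rw [g2 z hz, cmI_ptX, map_neg]
    change -(fM (ptX (P2 (Wi K) K)) : Λ) = -(z : Λ)
    rw [hfPx, hz]
  · intro z hz
    rw [g3 z hz, cmI_ptY, map_mul]
    change (fM (algebraMap K (F2 (Wi K) K) ι') : Λ) * (fM (ptY (P2 (Wi K) K)) : Λ) = ι * z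
    rw [hfι, hfPy, hz]
  · intro z hz
    apply Subtype.ext
    rw [g4 z hz, ptX_neg, cmI_ptX, map_neg]
    change -(fM (ptX (Q2 (Wi K) K)) : Λ) = -(z : Λ)
    rw [hfQx, hz]
  · intro z hz
    rw [g5 z hz, Wi_ptY_neg, cmI_ptY, map_neg, map_mul]
    change -((fM (algebraMap K (F2 (Wi K) K) ι') : Λ) * (fM (ptY (Q2 (Wi K) K)) : Λ)) = -(ι * z)
    rw [hfι, hfQy, hz]
  · intro γ hu ho₁ ho₂
    have he_inj : Function.Injective (KM.map m e) := by
      intro a b hab
      have := congrArg (KM.map m fM) hab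
      rwa [KM.map_map, KM.map_map, hfe, KM.map_id] at this
    set α := KM.map m e γ with hα
    have hαu : Unr α := hu.map _
    obtain ⟨hα1, hα2⟩ := pair_odd hPQ fM e hef hfe hf hP1 hP2 hQ1 hQ2 hM' ho₁ ho₂
    have hs := pair_spec hPQ fM e hef hfe hf hM' hA g g1 (by rw [hP1]; exact g2)
      (by rw [hP2]; exact g3) (by rw [hQ1]; exact g4) (by rw [hQ2]; exact g5)
    apply he_inj
    rw [← hα, KM.map_map, hs, ← KM.map_map, ← hα]
    have h3 : ev2 (i2 (Wi K) K) (φ.toFun _ (P2 (Wi K) K)) (-(φ.toFun _ (Q2 (Wi K) K))) α = α := by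
      rw [bal hm φ hαu hα1 hα2 (φ.ind_right hind).neg_right, map_neg, cmI_cmI, neg_neg,
        ev2_of_ind hind]
      have h4 : (lift2 (i2 (Wi K) K) (P2 (Wi K) K) (Q2 (Wi K) K) hind) = AlgHom.id K _ := by
        apply F2_hom_ext
        · rw [lift2_i2]; rfl
        · rw [lift2_P2, ptMap_id]
        · rw [lift2_Q2, ptMap_id]
      rw [h4]
      exact congrArg (fun f : KM m (F2 (Wi K) K) →ₐ[ZMod m] KM m (F2 (Wi K) K) => f α)
        (KM.map_id (m := m) (K := F2 (Wi K) K))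
    rw [ev2_of_ind hA] at h3
    exact h3

/-- Frobenius in the first variable and Frobenius in the second variable. -/
theorem frob_pair {p : ℕ} [hp : Fact p.Prime] [CharP Λ p] (s : ℕ) (g g' : M →+* M)
    (g1 : ∀ z : M, (z : Λ) ∈ K → g z = z) (g2 : ∀ z : M, (z : Λ) = x₁ → g z = z ^ p ^ s)
    (g3 : ∀ z : M, (z : Λ) = y₁ → g z = z ^ p ^ s) (g4 : ∀ z : M, (z : Λ) = x₂ → g z = z)
    (g5 : ∀ z : M, (z : Λ) = y₂ → g z = z) (g'1 : ∀ z : M, (z : Λ) ∈ K → g' z = z)
    (g'2 : ∀ z : M, (z : Λ) = x₁ → g' z = z) (g'3 : ∀ z : M, (z : Λ) = y₁ → g' z = z)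
    (g'4 : ∀ z : M, (z : Λ) = x₂ → g' z = z ^ p ^ s)
    (g'5 : ∀ z : M, (z : Λ) = y₂ → g' z = z ^ p ^ s) {γ : KM m M} (hu : Unr γ)
    (ho₁ : OddAt K y₁ {x₁, x₂, y₂} γ) (ho₂ : OddAt K y₂ {x₁, y₁, x₂} γ) :
    KM.map m g γ = KM.map m g' γ := by
  have h2K : (2 : K) ≠ 0 := fun h => h2 (by
    have := congrArg K.subtype h
    rwa [map_ofNat, map_zero] at this)
  have : GoodW (Wi K) := Wi_good' h2K
  have hpc : CharP K p := K.subtype.charP K.subtype.injective p
  have hp2 : p ≠ 2 := by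
    rintro rfl
    exact h2 (by exact_mod_cast CharP.cast_eq_zero Λ 2)
  obtain ⟨P, Q, hP1, hP2, hQ1, hQ2, hPQ⟩ := exists_pair h2 hx₁ hx₂ h₁ h₂
  have hM' : M = adj K {ptX P, ptY P, ptX Q, ptY Q} := by rw [hP1, hP2, hQ1, hQ2]; exact hM
  obtain ⟨fM, e, hef, hfe, hf⟩ := exists_pair_iso hPQ hM'
  have hfPx : (fM (ptX (P2 (Wi K) K)) : Λ) = x₁ := by rw [hf, ← ptX_map, lift2_P2, hP1]
  have hfPy : (fM (ptY (P2 (Wi K) K)) : Λ) = y₁ := by rw [hf, ← ptY_map, lift2_P2, hP2]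
  have hfQx : (fM (ptX (Q2 (Wi K) K)) : Λ) = x₂ := by rw [hf, ← ptX_map, lift2_Q2, hQ1]
  have hfQy : (fM (ptY (Q2 (Wi K) K)) : Λ) = y₂ := by rw [hf, ← ptY_map, lift2_Q2, hQ2]
  have hind := ind_P2_Q2 (Wi K) K
  set φ := frobEnd (Wi K) p s (Wi_frob (S := K) (p := p) s hp2) with hφ
  have hφX : ∀ R : Pt (Wi K) (F2 (Wi K) K), ptX (φ.toFun _ R) = ptX R ^ p ^ s := by
    intro R
    rcases R with _ | ⟨x, y, h⟩
    · exact (zero_pow (pow_pos hp.out.pos s).ne').symm
    · obtain ⟨h', e'⟩ := frobEnd_some (Wi K) p s (Wi_frob (S := K) (p := p) s hp2) h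
      rw [hφ, e']; rfl
  have hφY : ∀ R : Pt (Wi K) (F2 (Wi K) K), ptY (φ.toFun _ R) = ptY R ^ p ^ s := by
    intro R
    rcases R with _ | ⟨x, y, h⟩
    · exact (zero_pow (pow_pos hp.out.pos s).ne').symm
    · obtain ⟨h', e'⟩ := frobEnd_some (Wi K) p s (Wi_frob (S := K) (p := p) s hp2) h
      rw [hφ, e']; rfl
  obtain ⟨hα1, hα2⟩ := pair_odd hPQ fM e hef hfe hf hP1 hP2 hQ1 hQ2 hM' ho₁ ho₂
  have hαu : Unr (KM.map m e γ) := hu.map _
  have he_inj : Function.Injective (KM.map m e) := by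
    intro a b hab
    have := congrArg (KM.map m fM) hab
    rwa [KM.map_map, KM.map_map, hfe, KM.map_id] at this
  have hA := φ.ind_left hind
  have hB := φ.ind_right hind
  have hs := pair_spec hPQ fM e hef hfe hf hM' hA g g1
    (fun z hz => by
      rw [g2 z (hz.trans hP1), hφX, map_pow]
      change (z : Λ) ^ p ^ s = (fM (ptX (P2 (Wi K) K)) : Λ) ^ p ^ s
      rw [hfPx, hz, hP1])
    (fun z hz => by
      rw [g3 z (hz.trans hP2), hφY, map_pow]
      change (z : Λ) ^ p ^ s = (fM (ptY (P2 (Wi K) K)) : Λ) ^ p ^ s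
      rw [hfPy, hz, hP2])
    (fun z hz => by rw [g4 z (hz.trans hQ1), hfQx, hz, hQ1])
    (fun z hz => by rw [g5 z (hz.trans hQ2), hfQy, hz, hQ2])
  have hs' := pair_spec hPQ fM e hef hfe hf hM' hB g' g'1
    (fun z hz => by rw [g'2 z (hz.trans hP1), hfPx, hz, hP1])
    (fun z hz => by rw [g'3 z (hz.trans hP2), hfPy, hz, hP2])
    (fun z hz => by
      rw [g'4 z (hz.trans hQ1), hφX, map_pow]
      change (z : Λ) ^ p ^ s = (fM (ptX (Q2 (Wi K) K)) : Λ) ^ p ^ s
      rw [hfQx, hz, hQ1])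
    (fun z hz => by
      rw [g'5 z (hz.trans hQ2), hφY, map_pow]
      change (z : Λ) ^ p ^ s = (fM (ptY (Q2 (Wi K) K)) : Λ) ^ p ^ s
      rw [hfQy, hz, hQ2])
  apply he_inj
  rw [KM.map_map, KM.map_map, hs, hs', ← KM.map_map, ← KM.map_map]
  have h3 := bal hm φ hαu hα1 hα2 hind
  rw [ev2_of_ind hA, ev2_of_ind hB] at h3
  exact h3

end

end UnrH3
end

section

/-!
# Families of independent points of `y² = x³ - x`
-/

namespace UnrH3

universe u v w

open Polynomial WeierstrassCurve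
open scoped Classical

variable {m : ℕ} {Λ : Type u} [Field Λ] {n : ℕ}

/-- The class `γ` is odd with respect to the sign of each `Y j`. -/
def MultiOdd {m : ℕ} (C : Subfield Λ) (X Y : Fin n → Λ) {M : Subfield Λ} (γ : KM m M) : Prop :=
  ∀ j, OddAt C (Y j) (Set.range X ∪ Y '' {i | i ≠ j}) γ

lemma hom_gen_id {M C : Subfield Λ} {T : Set Λ} (hM : M = adj C T) (g g' : M →+* M)
    (hC : ∀ z : M, (z : Λ) ∈ C → g z = g' z) (hT : ∀ z : M, (z : Λ) ∈ T → g z = g' z) :
    g = g' := by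
  have hCM : C ≤ M := by rw [hM]; exact le_adj _ _
  have hTM : T ⊆ M := by rw [hM]; exact subset_adj _ _
  ext1 z
  exact hom_eq_of_gen g g' hCM hTM (fun z hz => hC _ hz) (fun z hz => hT _ hz) z
    (by rw [← hM]; exact z.2)

lemma map_injective_of_pow_four {M : Subfield Λ} {g : M →+* M}
    (h : (g.comp g).comp (g.comp g) = RingHom.id M) : Function.Injective (KM.map m g) := by
  intro a b hab
  have h1 : ∀ x : KM m M, KM.map m g (KM.map m g (KM.map m g (KM.map m g x))) = x := by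
    intro x
    have h2 : KM.map m ((g.comp g).comp (g.comp g)) x = x := by rw [h, KM.map_id]; rfl
    rw [← KM.map_map, ← KM.map_map, ← KM.map_map] at h2
    exact h2
  rw [← h1 a, ← h1 b, hab]

section family

variable {C M : Subfield Λ} {X Y : Fin n → Λ} (hX : IndFam C X)
  (hY : ∀ j, Y j ^ 2 = X j ^ 3 - X j) (hM : M = adj C (Set.range X ∪ Set.range Y))

include hX hY hM

omit hM in
lemma family_fact (j l : Fin n) (hjl : j ≠ l) (K : Subfield Λ)
    (hK : K = adj C (X '' {i | i ≠ j ∧ i ≠ l} ∪ Y '' {i | i ≠ j ∧ i ≠ l})) :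
    X j ∉ cl (K : Set Λ) ∧ X l ∉ cl (insert (X j) (K : Set Λ)) := by
  have hYX : ∀ (T : Set Λ) (i : Fin n), X i ∈ cl T → Y i ∈ cl T := by
    intro T i hi
    apply mem_cl_of_pow (n := 2) (by norm_num)
    rw [hY]
    exact sub_mem (pow_mem hi 3) hi
  have hKcl : ∀ T : Set Λ, (C : Set Λ) ⊆ cl T → (∀ i, i ≠ j → i ≠ l → X i ∈ cl T) →
      (K : Set Λ) ⊆ cl T := by
    intro T hC hT
    have : K ≤ cl T := by
      rw [hK]
      apply adj_le hC
      rintro z (⟨i, ⟨h1, h2⟩, rfl⟩ | ⟨i, ⟨h1, h2⟩, rfl⟩)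
      · exact hT i h1 h2
      · exact hYX T i (hT i h1 h2)
    exact this
  refine ⟨fun h => hX j (cl_le (hKcl _ (fun z hz => subset_cl _ (Or.inl hz)) ?_) h),
    fun h => hX l (cl_le ?_ h)⟩
  · intro i h1 _
    exact subset_cl _ (Or.inr ⟨i, h1, rfl⟩)
  · rintro z (rfl | hz)
    · exact subset_cl _ (Or.inr ⟨j, hjl, rfl⟩)
    · exact hKcl _ (fun z hz => subset_cl _ (Or.inl hz))
        (fun i _ h2 => subset_cl _ (Or.inr ⟨i, h2, rfl⟩)) hz

omit hX hY in
lemma family_M (j l : Fin n) (K : Subfield Λ)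
    (hK : K = adj C (X '' {i | i ≠ j ∧ i ≠ l} ∪ Y '' {i | i ≠ j ∧ i ≠ l})) :
    M = adj K {X j, Y j, X l, Y l} := by
  rw [hM, hK, adj_adj]
  congr 1
  ext z
  simp only [Set.mem_union, Set.mem_range, Set.mem_image, Set.mem_ofPred_eq, Set.mem_insert_iff,
    Set.mem_singleton_iff]
  constructor
  · rintro (⟨i, rfl⟩ | ⟨i, rfl⟩)
    · by_cases h1 : i = j
      · subst h1; right; left; rfl
      · by_cases h2 : i = l
        · subst h2; right; right; right; left; rfl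
        · left; left; exact ⟨i, ⟨h1, h2⟩, rfl⟩
    · by_cases h1 : i = j
      · subst h1; right; right; left; rfl
      · by_cases h2 : i = l
        · subst h2; right; right; right; right; rfl
        · left; right; exact ⟨i, ⟨h1, h2⟩, rfl⟩
  · rintro ((⟨i, _, rfl⟩ | ⟨i, _, rfl⟩) | rfl | rfl | rfl | rfl)
    · left; exact ⟨i, rfl⟩
    · right; exact ⟨i, rfl⟩
    · left; exact ⟨j, rfl⟩
    · right; exact ⟨j, rfl⟩
    · left; exact ⟨l, rfl⟩
    · right; exact ⟨l, rfl⟩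

omit hX hY hM in
lemma family_odd (j l : Fin n) (K : Subfield Λ)
    (hK : K = adj C (X '' {i | i ≠ j ∧ i ≠ l} ∪ Y '' {i | i ≠ j ∧ i ≠ l})) {γ : KM m M}
    (ho : MultiOdd C X Y γ) : OddAt K (Y j) {X j, X l, Y l} γ ∧
      OddAt K (Y l) {X j, Y j, X l} γ := by
  have hCK : C ≤ K := by rw [hK]; exact le_adj _ _
  have hXK : ∀ i, i ≠ j → i ≠ l → X i ∈ K := fun i h1 h2 => by
    rw [hK]; exact subset_adj _ _ (Or.inl ⟨i, ⟨h1, h2⟩, rfl⟩)
  have hYK : ∀ i, i ≠ j → i ≠ l → Y i ∈ K := fun i h1 h2 => by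
    rw [hK]; exact subset_adj _ _ (Or.inr ⟨i, ⟨h1, h2⟩, rfl⟩)
  refine ⟨?_, ?_⟩
  · intro g g1 g2 g3
    apply ho j g (fun z hz => g1 z (hCK hz)) _ g3
    rintro z (⟨i, hi⟩ | ⟨i, hij, hi⟩)
    · by_cases h1 : i = j
      · subst h1; exact g2 z (by rw [← hi]; simp)
      · by_cases h2 : i = l
        · subst h2; exact g2 z (by rw [← hi]; simp)
        · exact g1 z (by rw [← hi]; exact hXK i h1 h2)
    · by_cases h2 : i = l
      · subst h2; exact g2 z (by rw [← hi]; simp)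
      · exact g1 z (by rw [← hi]; exact hYK i hij h2)
  · intro g g1 g2 g3
    apply ho l g (fun z hz => g1 z (hCK hz)) _ g3
    rintro z (⟨i, hi⟩ | ⟨i, hij, hi⟩)
    · by_cases h1 : i = j
      · subst h1; exact g2 z (by rw [← hi]; simp)
      · by_cases h2 : i = l
        · subst h2; exact g2 z (by rw [← hi]; simp)
        · exact g1 z (by rw [← hi]; exact hXK i h1 h2)
    · by_cases h2 : i = j
      · subst h2; exact g2 z (by rw [← hi]; simp)
      · exact g1 z (by rw [← hi]; exact hYK i h2 hij)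

/-- Flipping two of the points. -/
lemma flip_two (hm : Odd m) (h2 : (2 : Λ) ≠ 0) {ι : Λ} (hι : ι ^ 2 = -1) (hιC : ι ∈ C)
    {j l : Fin n} (hjl : j ≠ l) :
    ∃ g : M →+* M, (∀ z : M, (z : Λ) ∈ C → g z = z) ∧
      (∀ i, ∀ z : M, (z : Λ) = X i → g z = if i = j ∨ i = l then -z else z) ∧
      (∀ z : M, (z : Λ) = ∏ i, Y i → g z = z) ∧ Function.Injective (KM.map m g) ∧
      ∀ γ : KM m M, Unr γ → MultiOdd C X Y γ → KM.map m g γ = γ := by
  obtain ⟨K, hK⟩ : ∃ K, K = adj C (X '' {i | i ≠ j ∧ i ≠ l} ∪ Y '' {i | i ≠ j ∧ i ≠ l}) :=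
    ⟨_, rfl⟩
  have hCK : C ≤ K := by rw [hK]; exact le_adj _ _
  have hXK : ∀ i, i ≠ j → i ≠ l → X i ∈ K := fun i h1 h2 => by
    rw [hK]; exact subset_adj _ _ (Or.inl ⟨i, ⟨h1, h2⟩, rfl⟩)
  have hYK : ∀ i, i ≠ j → i ≠ l → Y i ∈ K := fun i h1 h2 => by
    rw [hK]; exact subset_adj _ _ (Or.inr ⟨i, ⟨h1, h2⟩, rfl⟩)
  obtain ⟨hx₁, hx₂⟩ := family_fact hX hY j l hjl K hK
  have hM' := family_M hM j l K hK
  have hXM : ∀ i, X i ∈ M := fun i => by rw [hM]; exact subset_adj _ _ (Or.inl ⟨i, rfl⟩)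
  have hYM : ∀ i, Y i ∈ M := fun i => by rw [hM]; exact subset_adj _ _ (Or.inr ⟨i, rfl⟩)
  have hCM : C ≤ M := by rw [hM]; exact le_adj _ _
  obtain ⟨g, g1, g2, g3, g4, g5, g6⟩ := flip_pair hm h2 hx₁ hx₂ (hY j) (hY l) hM' hι (hCK hιC)
  have hιg : g ⟨ι, hCM hιC⟩ = ⟨ι, hCM hιC⟩ := g1 _ (hCK hιC)
  have g3' : g ⟨Y j, hYM j⟩ = ⟨ι, hCM hιC⟩ * ⟨Y j, hYM j⟩ := Subtype.ext (g3 _ rfl)
  have g5' : g ⟨Y l, hYM l⟩ = -(⟨ι, hCM hιC⟩ * ⟨Y l, hYM l⟩) := Subtype.ext (g5 _ rfl)
  have hι2 : (⟨ι, hCM hιC⟩ : M) ^ 2 = -1 := Subtype.ext hι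
  refine ⟨g, fun z hz => g1 z (hCK hz), ?_, ?_, ?_, ?_⟩
  · intro i z hz
    by_cases h1 : i = j
    · subst h1
      rw [if_pos (Or.inl rfl)]; exact g2 z hz
    · by_cases h2 : i = l
      · subst h2
        rw [if_pos (Or.inr rfl)]; exact g4 z hz
      · rw [if_neg (by tauto)]
        exact g1 z (by rw [hz]; exact hXK i h1 h2)
  · intro z hz
    have h3 : z = ∏ i, (⟨Y i, hYM i⟩ : M) := by
      apply Subtype.ext
      rw [hz]
      push_cast
      rfl
    rw [h3, map_prod]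
    have h4 : ∀ f : Fin n → M, ∏ i, f i = f j * f l * ∏ i ∈ (Finset.univ.erase j).erase l, f i := by
      intro f
      rw [← Finset.mul_prod_erase Finset.univ f (Finset.mem_univ j),
        ← Finset.mul_prod_erase (Finset.univ.erase j) f
          (Finset.mem_erase.mpr ⟨hjl.symm, Finset.mem_univ l⟩), mul_assoc]
    rw [h4 (fun i => g ⟨Y i, hYM i⟩), h4 (fun i => (⟨Y i, hYM i⟩ : M)), g3', g5']
    have h5 : ∀ i ∈ (Finset.univ.erase j).erase l, g ⟨Y i, hYM i⟩ = ⟨Y i, hYM i⟩ := by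
      intro i hi
      rw [Finset.mem_erase, Finset.mem_erase] at hi
      exact g1 _ (hYK i hi.2.1 hi.1)
    rw [Finset.prod_congr rfl h5]
    linear_combination (-(⟨Y j, hYM j⟩ * ⟨Y l, hYM l⟩ *
      ∏ i ∈ (Finset.univ.erase j).erase l, (⟨Y i, hYM i⟩ : M))) * hι2
  · apply map_injective_of_pow_four
    apply hom_gen_id hM
    · intro z hz
      have := g1 z (hCK hz)
      simp only [RingHom.comp_apply, this, RingHom.id_apply]
    · rintro z (⟨i, hi⟩ | ⟨i, hi⟩)
      · by_cases h1 : i = j ∨ i = l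
        · have h3 : g z = -z := by
            rcases h1 with h1 | h1
            · subst h1; exact g2 z hi.symm
            · subst h1; exact g4 z hi.symm
          simp only [RingHom.comp_apply, h3, map_neg, neg_neg, RingHom.id_apply]
        · have h3 : g z = z := g1 z (by rw [← hi]; exact hXK i (by tauto) (by tauto))
          simp only [RingHom.comp_apply, h3, RingHom.id_apply]
      · by_cases h1 : i = j
        · subst h1
          have hz : z = ⟨Y i, hYM i⟩ := Subtype.ext hi.symm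
          rw [hz]
          simp only [RingHom.comp_apply, g3', map_mul, hιg, RingHom.id_apply]
          linear_combination ((⟨ι, hCM hιC⟩ : M) ^ 2 - 1) * ⟨Y i, hYM i⟩ * hι2
        · by_cases h4 : i = l
          · subst h4
            have hz : z = ⟨Y i, hYM i⟩ := Subtype.ext hi.symm
            rw [hz]
            simp only [RingHom.comp_apply, g5', map_mul, map_neg, hιg, RingHom.id_apply]
            linear_combination ((⟨ι, hCM hιC⟩ : M) ^ 2 - 1) * ⟨Y i, hYM i⟩ * hι2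
          · have h3 : g z = z := g1 z (by rw [← hi]; exact hYK i h1 h4)
            simp only [RingHom.comp_apply, h3, RingHom.id_apply]
  · intro γ hu ho
    obtain ⟨ho1, ho2⟩ := family_odd j l K hK ho
    exact g6 γ hu ho1 ho2

/-- Flipping an even number of the points. -/
lemma flip_even (hm : Odd m) (h2 : (2 : Λ) ≠ 0) {ι : Λ} (hι : ι ^ 2 = -1) (hιC : ι ∈ C) :
    ∀ (t : ℕ) (J : Finset (Fin n)), J.card = 2 * t →
    ∃ g : M →+* M, (∀ z : M, (z : Λ) ∈ C → g z = z) ∧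
      (∀ i, ∀ z : M, (z : Λ) = X i → g z = if i ∈ J then -z else z) ∧
      (∀ z : M, (z : Λ) = ∏ i, Y i → g z = z) ∧ Function.Injective (KM.map m g) ∧
      ∀ γ : KM m M, Unr γ → MultiOdd C X Y γ → KM.map m g γ = γ := by
  intro t
  induction t with
  | zero =>
    intro J hJ
    rw [mul_zero, Finset.card_eq_zero] at hJ
    subst hJ
    refine ⟨RingHom.id M, fun z _ => rfl, fun i z _ => by simp, fun z _ => rfl, ?_, ?_⟩
    · rw [KM.map_id]; exact Function.injective_id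
    · intro γ _ _
      rw [KM.map_id]; rfl
  | succ t ih =>
    intro J hJ
    obtain ⟨j, hj, l, hl, hjl⟩ := Finset.one_lt_card.mp (by omega : 1 < J.card)
    obtain ⟨g', g'1, g'2, g'3, g'4, g'5⟩ := ih ((J.erase j).erase l) (by
      rw [Finset.card_erase_of_mem (Finset.mem_erase.mpr ⟨hjl.symm, hl⟩),
        Finset.card_erase_of_mem hj]
      omega)
    obtain ⟨g, g1, g2, g3, g4, g5⟩ := flip_two hX hY hM hm h2 hι hιC hjl
    refine ⟨g.comp g', ?_, ?_, ?_, ?_, ?_⟩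
    · intro z hz
      rw [RingHom.comp_apply, g'1 z hz, g1 z hz]
    · intro i z hz
      rw [RingHom.comp_apply, g'2 i z hz]
      simp only [Finset.mem_erase]
      by_cases h1 : i = j
      · subst h1
        rw [if_neg (by tauto), if_pos hj, g2 i z hz, if_pos (Or.inl rfl)]
      · by_cases h3 : i = l
        · subst h3
          rw [if_neg (by tauto), if_pos hl, g2 i z hz, if_pos (Or.inr rfl)]
        · by_cases h4 : i ∈ J
          · rw [if_pos ⟨h3, h1, h4⟩, if_pos h4, map_neg, g2 i z hz, if_neg (by tauto)]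
          · rw [if_neg (by tauto), if_neg h4, g2 i z hz, if_neg (by tauto)]
    · intro z hz
      rw [RingHom.comp_apply, g'3 z hz, g3 z hz]
    · intro a b hab
      rw [← KM.map_map, ← KM.map_map] at hab
      exact g'4 (g4 hab)
    · intro γ hu ho
      rw [← KM.map_map, g'5 γ hu ho, g5 γ hu ho]

end family

end UnrH3
end

section

/-!
# Twisted covers and their trivialisation
-/

namespace UnrH3

universe u v w

open Polynomial WeierstrassCurve
open scoped Classical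

variable {m : ℕ} {Λ : Type u} [Field Λ] {n : ℕ}

/-- A twisted cover `w² = d ∏ (x_j³ - a_j x_j)` over `k` together with the constants in `C` that
identify it with the cover given by the points `(X j, Y j)`. -/
structure Tw (k C : Subfield Λ) (X Y x a s : Fin n → Λ) (d δ w : Λ) : Prop where
  ha : ∀ j, a j ∈ k
  hd : d ∈ k
  hd0 : d ≠ 0
  hs : ∀ j, s j ^ 4 = a j
  hs0 : ∀ j, s j ≠ 0
  hsC : ∀ j, s j ∈ C
  hδ : δ ^ 2 = d
  hδC : δ ∈ C
  hx : ∀ j, x j = s j ^ 2 * X j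
  hw : w = δ * (∏ j, s j ^ 3) * ∏ j, Y j

/-- The field generated by a twisted cover. -/
def twF (k : Subfield Λ) (x : Fin n → Λ) (w : Λ) : Subfield Λ := adj k (insert w (Set.range x))

section

variable {k C M : Subfield Λ} {X Y x a s : Fin n → Λ} {d δ w : Λ}

lemma k_le_twF : k ≤ twF k x w := le_adj _ _

lemma x_mem_twF (j : Fin n) : x j ∈ twF k x w := subset_adj _ _ (Or.inr ⟨j, rfl⟩)

lemma w_mem_twF : w ∈ twF k x w := subset_adj _ _ (Or.inl rfl)

lemma Tw.cube (T : Tw k C X Y x a s d δ w) (hY : ∀ j, Y j ^ 2 = X j ^ 3 - X j) (j : Fin n) :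
    x j ^ 3 - a j * x j = s j ^ 6 * Y j ^ 2 := by
  rw [T.hx, ← T.hs, hY]; ring

lemma Tw.w_sq (T : Tw k C X Y x a s d δ w) (hY : ∀ j, Y j ^ 2 = X j ^ 3 - X j) :
    w ^ 2 = d * ∏ j, (x j ^ 3 - a j * x j) := by
  have h1 : ∏ j, (x j ^ 3 - a j * x j) = (∏ j, s j ^ 3) ^ 2 * (∏ j, Y j) ^ 2 := by
    rw [← Finset.prod_pow, ← Finset.prod_pow, ← Finset.prod_mul_distrib]
    refine Finset.prod_congr rfl fun j _ => ?_
    rw [T.cube hY]; ring
  rw [h1, T.hw, ← T.hδ]; ring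

lemma Tw.le (T : Tw k C X Y x a s d δ w) (hkC : k ≤ C)
    (hM : M = adj C (Set.range X ∪ Set.range Y)) : twF k x w ≤ M := by
  have hCM : C ≤ M := by rw [hM]; exact le_adj _ _
  have hXM : ∀ i, X i ∈ M := fun i => by rw [hM]; exact subset_adj _ _ (Or.inl ⟨i, rfl⟩)
  have hYM : ∀ i, Y i ∈ M := fun i => by rw [hM]; exact subset_adj _ _ (Or.inr ⟨i, rfl⟩)
  apply adj_le (hkC.trans hCM)
  rintro z (rfl | ⟨j, rfl⟩)
  · rw [T.hw]
    exact mul_mem (mul_mem (hCM T.hδC) (prod_mem fun j _ => pow_mem (hCM (T.hsC j)) 3))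
      (prod_mem fun j _ => hYM j)
  · rw [T.hx]
    exact mul_mem (pow_mem (hCM (T.hsC j)) 2) (hXM j)

/-- The pulled back class is odd in each of the points. -/
lemma Tw.multiOdd (T : Tw k C X Y x a s d δ w) (hkC : k ≤ C)
    (hM : M = adj C (Set.range X ∪ Set.range Y)) (hL : twF k x w ≤ M)
    {τ : twF k x w →+* twF k x w} (hτk : ∀ z : twF k x w, (z : Λ) ∈ k → τ z = z)
    (hτx : ∀ j, ∀ z : twF k x w, (z : Λ) = x j → τ z = z)
    (hτw : ∀ z : twF k x w, (z : Λ) = w → τ z = -z) {α : KM m (twF k x w)}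
    (hα : KM.map m τ α = -α) : MultiOdd C X Y (up m hL α) := by
  intro j g gC gT gY
  have hCM : C ≤ M := by rw [hM]; exact le_adj _ _
  have hXM : ∀ i, X i ∈ M := fun i => by rw [hM]; exact subset_adj _ _ (Or.inl ⟨i, rfl⟩)
  have hYM : ∀ i, Y i ∈ M := fun i => by rw [hM]; exact subset_adj _ _ (Or.inr ⟨i, rfl⟩)
  have h1 : g.comp (Subfield.inclusion hL) = (Subfield.inclusion hL).comp τ := by
    ext1 z
    refine hom_eq_of_gen (g.comp (Subfield.inclusion hL)) ((Subfield.inclusion hL).comp τ)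
      (F := k) (T := insert w (Set.range x)) k_le_twF (subset_adj _ _) ?_ ?_ z z.2
    · intro z hz
      change g _ = Subfield.inclusion hL (τ _)
      rw [hτk _ hz, gC _ (hkC hz)]
    · rintro z (hz | ⟨i, hz⟩)
      · change g _ = Subfield.inclusion hL (τ _)
        rw [hτw _ hz]
        have h2 : (Subfield.inclusion hL ⟨z, subset_adj _ _ (Or.inl hz)⟩ : M) =
            (⟨δ, hCM T.hδC⟩ * ∏ j, (⟨s j, hCM (T.hsC j)⟩ : M) ^ 3) * ∏ j, (⟨Y j, hYM j⟩ : M) := by
          apply Subtype.ext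
          push_cast
          change z = _
          rw [hz]; exact T.hw
        have h3 : g (⟨δ, hCM T.hδC⟩ * ∏ j, (⟨s j, hCM (T.hsC j)⟩ : M) ^ 3) =
            ⟨δ, hCM T.hδC⟩ * ∏ j, (⟨s j, hCM (T.hsC j)⟩ : M) ^ 3 := by
          apply gC
          push_cast
          exact mul_mem T.hδC (prod_mem fun j _ => pow_mem (T.hsC j) 3)
        have h4 : g (∏ j, (⟨Y j, hYM j⟩ : M)) = -∏ j, (⟨Y j, hYM j⟩ : M) := by
          rw [map_prod, ← Finset.mul_prod_erase Finset.univ _ (Finset.mem_univ j),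
            ← Finset.mul_prod_erase Finset.univ (fun j => (⟨Y j, hYM j⟩ : M))
              (Finset.mem_univ j), gY _ rfl, neg_mul]
          congr 2
          refine Finset.prod_congr rfl fun i hi => ?_
          exact gT _ (Or.inr ⟨i, (Finset.mem_erase.mp hi).1, rfl⟩)
        rw [map_neg, h2, map_mul, h3, h4, mul_neg]
      · change g _ = Subfield.inclusion hL (τ _)
        rw [hτx i _ hz.symm]
        have h2 : (Subfield.inclusion hL ⟨z, subset_adj _ _ (Or.inr ⟨i, hz⟩)⟩ : M) =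
            ⟨s i, hCM (T.hsC i)⟩ ^ 2 * ⟨X i, hXM i⟩ := by
          apply Subtype.ext
          push_cast
          change z = _
          rw [← hz]; exact T.hx i
        rw [h2, map_mul, map_pow, gC _ (T.hsC i), gT _ (Or.inl ⟨i, rfl⟩)]
  rw [KM.map_map, h1, ← KM.map_map, hα, map_neg]

/-- The key invariance property. -/
theorem Tw.lift (T : Tw k C X Y x a s d δ w) (hm : Odd m) (h2 : (2 : Λ) ≠ 0)
    {ι : Λ} (hι : ι ^ 2 = -1) (hιC : ι ∈ C) (hkC : k ≤ C) (hX : IndFam C X)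
    (hY : ∀ j, Y j ^ 2 = X j ^ 3 - X j)
    (hM : M = adj C (Set.range X ∪ Set.range Y)) (hL : twF k x w ≤ M)
    {τ : twF k x w →+* twF k x w} (hτk : ∀ z : twF k x w, (z : Λ) ∈ k → τ z = z)
    (hτx : ∀ j, ∀ z : twF k x w, (z : Λ) = x j → τ z = z)
    (hτw : ∀ z : twF k x w, (z : Λ) = w → τ z = -z) {α : KM m (twF k x w)}
    (hα : KM.map m τ α = -α) (hu : Unr α)
    (σ : twF k x w →+* twF k x w) (hσk : ∀ z : twF k x w, (z : Λ) ∈ k → (σ z : Λ) ∈ k)
    (hσx : ∀ j, ∀ z : twF k x w, (z : Λ) = x j → σ z = z)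
    (hσw : ∀ z : twF k x w, (z : Λ) = w → σ z = z)
    (g : M →+* M) (hgk : ∀ z : twF k x w, (z : Λ) ∈ k →
      (g (Subfield.inclusion hL z) : Λ) = σ z)
    (hgx : ∀ j, ∀ z : M, (z : Λ) = x j → g z = z ∨ g z = -z)
    (hgw : ∀ z : M, (z : Λ) = w → g z = z) (hga : ∀ j, ∀ z : M, (z : Λ) = a j → g z = z)
    (hgd : ∀ z : M, (z : Λ) = d → g z = z) :
    KM.map m g (up m hL α) = up m hL (KM.map m σ α) := by
  have hCM : C ≤ M := by rw [hM]; exact le_adj _ _
  have hXM : ∀ i, X i ∈ M := fun i => by rw [hM]; exact subset_adj _ _ (Or.inl ⟨i, rfl⟩)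
  have hYM : ∀ i, Y i ∈ M := fun i => by rw [hM]; exact subset_adj _ _ (Or.inr ⟨i, rfl⟩)
  have hxM : ∀ i, x i ∈ M := fun i => hL (x_mem_twF i)
  have hwM : w ∈ M := hL w_mem_twF
  have hxs : ∀ i, (⟨x i, hxM i⟩ : M) = ⟨s i, hCM (T.hsC i)⟩ ^ 2 * ⟨X i, hXM i⟩ := fun i =>
    Subtype.ext (T.hx i)
  have hf0 : ∀ j, x j ^ 3 - a j * x j ≠ 0 := by
    intro j
    rw [T.cube hY, hY]
    have h3 : X j ∉ cl (C : Set Λ) := by
      intro h
      exact hX j (cl_mono Set.subset_union_left h)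
    exact mul_ne_zero (pow_ne_zero 6 (T.hs0 j)) (cube_sub_ne_zero h3)
  have hw0 : w ≠ 0 := by
    intro h
    have h3 := T.w_sq hY
    rw [h, zero_pow (by norm_num)] at h3
    rcases mul_eq_zero.mp h3.symm with h4 | h4
    · exact T.hd0 h4
    · obtain ⟨j, _, hj⟩ := Finset.prod_eq_zero_iff.mp h4
      exact hf0 j hj
  have haM : ∀ j, a j ∈ M := fun j => hCM (hkC (T.ha j))
  have hdM : d ∈ M := hCM (hkC T.hd)
  obtain ⟨J, hJ⟩ : ∃ J : Finset (Fin n), J = Finset.univ.filter fun j =>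
    g ⟨x j, hxM j⟩ ≠ ⟨x j, hxM j⟩ := ⟨_, rfl⟩
  have hgJ : ∀ j, g ⟨x j, hxM j⟩ = if j ∈ J then -⟨x j, hxM j⟩ else ⟨x j, hxM j⟩ := by
    intro j
    by_cases h : j ∈ J
    · rw [if_pos h]
      rw [hJ, Finset.mem_filter] at h
      exact (hgx j _ rfl).resolve_left h.2
    · rw [if_neg h]
      rw [hJ, Finset.mem_filter] at h
      by_contra h'
      exact h ⟨Finset.mem_univ _, h'⟩
  -- parity
  have hJeven : ∃ t, J.card = 2 * t := by
    have h3 : (⟨w, hwM⟩ : M) ^ 2 = ⟨d, hdM⟩ *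
        ∏ j, ((⟨x j, hxM j⟩ : M) ^ 3 - ⟨a j, haM j⟩ * ⟨x j, hxM j⟩) := by
      apply Subtype.ext
      push_cast
      exact T.w_sq hY
    have h4 := congrArg g h3
    rw [map_pow, map_mul, map_prod, hgw _ rfl, hgd _ rfl] at h4
    have h5 : ∏ j, g ((⟨x j, hxM j⟩ : M) ^ 3 - ⟨a j, haM j⟩ * ⟨x j, hxM j⟩) =
        (-1) ^ J.card * ∏ j, ((⟨x j, hxM j⟩ : M) ^ 3 - ⟨a j, haM j⟩ * ⟨x j, hxM j⟩) := by
      have h6 : ∀ j, g ((⟨x j, hxM j⟩ : M) ^ 3 - ⟨a j, haM j⟩ * ⟨x j, hxM j⟩) =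
          (if j ∈ J then -1 else 1) * ((⟨x j, hxM j⟩ : M) ^ 3 - ⟨a j, haM j⟩ * ⟨x j, hxM j⟩) := by
        intro j
        rw [map_sub, map_pow, map_mul, hga j ⟨a j, haM j⟩ rfl, hgJ]
        split_ifs <;> ring
      rw [Finset.prod_congr rfl (fun j _ => h6 j), Finset.prod_mul_distrib]
      congr 1
      rw [Finset.prod_ite, Finset.prod_const, Finset.prod_const_one, mul_one]
      congr 2
      ext j; simp
    rw [h5] at h4
    rcases Nat.even_or_odd J.card with ⟨t, ht⟩ | h7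
    · exact ⟨t, by omega⟩
    · exfalso
      rw [h7.neg_one_pow, neg_one_mul, mul_neg, ← h3] at h4
      have h8 : (w : Λ) ^ 2 = -w ^ 2 := congrArg Subtype.val h4
      have h9 : 2 * w ^ 2 = 0 := by linear_combination h8
      rcases mul_eq_zero.mp h9 with h10 | h10
      · exact h2 h10
      · exact hw0 (pow_eq_zero_iff (by norm_num) |>.mp h10)
  obtain ⟨t, ht⟩ := hJeven
  obtain ⟨h, h1, h3, h4, h5, h6⟩ := flip_even hX hY hM hm h2 hι hιC t J ht
  -- the composition restricts to `σ`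
  have hh : (h.comp g).comp (Subfield.inclusion hL) = (Subfield.inclusion hL).comp σ := by
    ext1 z
    refine hom_eq_of_gen ((h.comp g).comp (Subfield.inclusion hL))
      ((Subfield.inclusion hL).comp σ)
      (F := k) (T := insert w (Set.range x)) k_le_twF (subset_adj _ _) ?_ ?_ z z.2
    · intro z hz
      change h (g _) = Subfield.inclusion hL (σ _)
      have h7 : g (Subfield.inclusion hL ⟨z, k_le_twF hz⟩) =
          Subfield.inclusion hL (σ ⟨z, k_le_twF hz⟩) := Subtype.ext (hgk ⟨z, k_le_twF hz⟩ hz)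
      rw [h7]
      exact h1 _ (hkC (hσk ⟨z, k_le_twF hz⟩ hz))
    · rintro z (hz | ⟨i, hz⟩)
      · change h (g _) = Subfield.inclusion hL (σ _)
        rw [hσw _ hz, hgw _ hz]
        have h7 : (Subfield.inclusion hL ⟨z, subset_adj _ _ (Or.inl hz)⟩ : M) =
            (⟨δ, hCM T.hδC⟩ * ∏ j, (⟨s j, hCM (T.hsC j)⟩ : M) ^ 3) * ∏ j, (⟨Y j, hYM j⟩ : M) := by
          apply Subtype.ext
          push_cast
          change z = _
          rw [hz]; exact T.hw
        rw [h7, map_mul, h1, h4]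
        · push_cast; rfl
        · push_cast
          exact mul_mem T.hδC (prod_mem fun j _ => pow_mem (T.hsC j) 3)
      · change h (g _) = Subfield.inclusion hL (σ _)
        subst hz
        rw [hσx i _ rfl]
        change h (g ⟨x i, hxM i⟩) = ⟨x i, hxM i⟩
        have h7 : h ⟨x i, hxM i⟩ = if i ∈ J then -⟨x i, hxM i⟩ else ⟨x i, hxM i⟩ := by
          rw [hxs, map_mul, map_pow, h1 _ (T.hsC i), h3 i _ rfl]
          split_ifs
          · rw [mul_neg]
          · rfl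
        rw [hgJ]
        by_cases h8 : i ∈ J
        · rw [if_pos h8, map_neg, h7, if_pos h8, neg_neg]
        · rw [if_neg h8, h7, if_neg h8]
  -- the class `σ α` is odd
  have hστ : σ.comp τ = τ.comp σ := by
    ext1 z
    refine hom_eq_of_gen (σ.comp τ) (τ.comp σ) (F := k) (T := insert w (Set.range x)) k_le_twF
      (subset_adj _ _) ?_ ?_ z z.2
    · intro z hz
      change σ (τ _) = τ (σ _)
      rw [hτk _ hz, hτk _ (hσk _ hz)]
    · rintro z (hz | ⟨i, hz⟩)
      · change σ (τ _) = τ (σ _)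
        rw [hτw _ hz, map_neg, hσw _ hz, hτw _ hz]
      · change σ (τ _) = τ (σ _)
        rw [hτx i _ hz.symm, hσx i _ hz.symm, hτx i _ hz.symm]
  have hα' : KM.map m τ (KM.map m σ α) = -KM.map m σ α := by
    rw [KM.map_map, ← hστ, ← KM.map_map, hα, map_neg]
  have h9 := h6 (up m hL (KM.map m σ α)) ((hu.map _).map _)
    (T.multiOdd hkC hM hL hτk hτx hτw hα')
  apply h5
  rw [h9, KM.map_map, KM.map_map, hh, ← KM.map_map]

end

end UnrH3
end

section

/-!
# The first coordinates of sums and differences on `y² = x³ + a₂ x² + a₄ x + a₆`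
-/

namespace UnrH3.Ell

universe u v w

open Polynomial WeierstrassCurve
open scoped Classical

/-- The curve is `y² = x³ + a₂ x² + a₄ x + a₆` with non-zero discriminant, away from `2`. -/
class EllW {S : Type v} [Field S] (W : WeierstrassCurve S) : Prop where
  a1 : W.a₁ = 0
  a3 : W.a₃ = 0
  two : (2 : S) ≠ 0
  disc : W.a₂ ^ 2 * W.a₄ ^ 2 - 4 * W.a₄ ^ 3 - 4 * W.a₂ ^ 3 * W.a₆ +
    18 * W.a₂ * W.a₄ * W.a₆ - 27 * W.a₆ ^ 2 ≠ 0

instance EllW.good {S : Type v} [Field S] (W : WeierstrassCurve S) [h : EllW W] : GoodW W :=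
  ⟨Or.inl h.two⟩

section field

variable {k : Type u} [Field k]

lemma disc_key {a b c x : k} (hd : a ^ 2 * b ^ 2 - 4 * b ^ 3 - 4 * a ^ 3 * c +
    18 * a * b * c - 27 * c ^ 2 ≠ 0) (hf : x ^ 3 + a * x ^ 2 + b * x + c = 0)
    (hf' : 3 * x ^ 2 + 2 * a * x + b = 0) : False := by
  apply hd
  linear_combination (-((6 * a ^ 2 - 18 * b) * x + (4 * a ^ 3 - 15 * a * b + 27 * c))) * hf -
    ((-2 * a ^ 2 + 6 * b) * x ^ 2 + (7 * a * b - 2 * a ^ 3 - 9 * c) * x +
      (4 * b ^ 2 - a ^ 2 * b - 3 * a * c)) * hf'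

/-- The three quadratic forms have no common zero. -/
lemma quad_zero {a b c t s u : k} (h2 : (2 : k) ≠ 0)
    (hd : a ^ 2 * b ^ 2 - 4 * b ^ 3 - 4 * a ^ 3 * c + 18 * a * b * c - 27 * c ^ 2 ≠ 0)
    (h0 : s ^ 2 - 4 * t * u = 0) (h1 : 2 * (s * (b * t + u) + 2 * a * t * u + 2 * c * t ^ 2) = 0)
    (h3 : (u - b * t) ^ 2 - 4 * c * t * s - 4 * a * c * t ^ 2 = 0) : t = 0 ∧ s = 0 ∧ u = 0 := by
  by_cases ht : t = 0
  · subst ht
    have hs : s = 0 := by
      apply pow_eq_zero_iff (n := 2) (by norm_num) |>.mp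
      linear_combination h0
    have hu : u = 0 := by
      apply pow_eq_zero_iff (n := 2) (by norm_num) |>.mp
      linear_combination h3
    exact ⟨rfl, hs, hu⟩
  · exfalso
    obtain ⟨x, hx⟩ : ∃ x, x * (2 * t) = s := ⟨s / (2 * t), div_mul_cancel₀ _ (mul_ne_zero h2 ht)⟩
    have hu : u = t * x ^ 2 := by
      have h4 : (4 * t) * (u - t * x ^ 2) = 0 := by
        rw [← hx] at h0
        linear_combination -h0
      rcases mul_eq_zero.mp h4 with h5 | h5
      · exfalso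
        have h6 : (2 * 2) * t = 0 := by linear_combination h5
        exact mul_ne_zero (mul_ne_zero h2 h2) ht h6
      · linear_combination h5
    subst hu
    rw [← hx] at h1 h3
    have hf : x ^ 3 + a * x ^ 2 + b * x + c = 0 := by
      have h4 : (2 * 2 * (t * t)) * (x ^ 3 + a * x ^ 2 + b * x + c) = 0 := by
        linear_combination h1
      exact (mul_eq_zero.mp h4).resolve_left (mul_ne_zero (mul_ne_zero h2 h2) (mul_ne_zero ht ht))
    have hf' : 3 * x ^ 2 + 2 * a * x + b = 0 := by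
      apply pow_eq_zero_iff (n := 2) (by norm_num) |>.mp
      have h4 : (t * t) * (3 * x ^ 2 + 2 * a * x + b) ^ 2 = 0 := by
        linear_combination h3 + (t * t) * (8 * x + 4 * a) * hf
      exact (mul_eq_zero.mp h4).resolve_left (mul_ne_zero ht ht)
    exact disc_key hd hf hf'

end field

section proj

variable {S : Type v} [Field S] {W : WeierstrassCurve S} [hE : EllW W]
  {Ω : Type u} [Field Ω] [Algebra S Ω]

lemma two_alg (W : WeierstrassCurve S) [hE : EllW W] (Ω : Type w) [Field Ω] [Algebra S Ω] :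
    (2 : Ω) ≠ 0 := by
  intro h
  apply hE.two
  apply (algebraMap S Ω).injective
  rw [map_ofNat, map_zero]; exact h

lemma disc_alg (W : WeierstrassCurve S) [hE : EllW W] (Ω : Type w) [Field Ω] [Algebra S Ω] :
    (W⁄Ω).a₂ ^ 2 * (W⁄Ω).a₄ ^ 2 - 4 * (W⁄Ω).a₄ ^ 3 - 4 * (W⁄Ω).a₂ ^ 3 * (W⁄Ω).a₆ +
      18 * (W⁄Ω).a₂ * (W⁄Ω).a₄ * (W⁄Ω).a₆ - 27 * (W⁄Ω).a₆ ^ 2 ≠ 0 := by
  intro h
  apply hE.disc
  apply (algebraMap S Ω).injective
  rw [map_zero, ← h]
  simp only [map_add, map_sub, map_mul, map_pow, map_ofNat]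
  rfl

omit hE in
variable (W) in
lemma A1 [hE : EllW W] : (W⁄Ω).a₁ = 0 := by
  change algebraMap S Ω W.a₁ = 0
  rw [hE.a1, map_zero]

omit hE in
variable (W) in
lemma A3 [hE : EllW W] : (W⁄Ω).a₃ = 0 := by
  change algebraMap S Ω W.a₃ = 0
  rw [hE.a3, map_zero]

lemma negY (x y : Ω) : (W⁄Ω).toAffine.negY x y = -y := by
  simp only [Affine.negY]
  rw [A1, A3]; ring

lemma ptY_neg (P : Pt W Ω) : ptY (-P) = -ptY P := by
  rcases P with _ | ⟨x, y, h⟩
  · exact neg_zero.symm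
  · rw [Affine.Point.neg_some, ptY_some, ptY_some, negY]

lemma eq_of_ns {x y : Ω} (h : (W⁄Ω).toAffine.Nonsingular x y) :
    y ^ 2 = x ^ 3 + (W⁄Ω).a₂ * x ^ 2 + (W⁄Ω).a₄ * x + (W⁄Ω).a₆ := by
  have h1 := ((W⁄Ω).toAffine.equation_iff x y).mp h.1
  rw [A1, A3] at h1
  linear_combination h1

lemma pt_eq {A : Pt W Ω} (h0 : A ≠ 0) :
    ptY A ^ 2 = ptX A ^ 3 + (W⁄Ω).a₂ * ptX A ^ 2 + (W⁄Ω).a₄ * ptX A + (W⁄Ω).a₆ := by
  rcases A with _ | ⟨x, y, h⟩
  · exact absurd rfl h0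
  · exact eq_of_ns h

lemma nonsingular_of {x y : Ω}
    (h : y ^ 2 = x ^ 3 + (W⁄Ω).a₂ * x ^ 2 + (W⁄Ω).a₄ * x + (W⁄Ω).a₆) :
    (W⁄Ω).toAffine.Nonsingular x y := by
  rw [Affine.nonsingular_iff, Affine.equation_iff, A1, A3]
  refine ⟨by linear_combination h, ?_⟩
  by_contra hc
  push Not at hc
  obtain ⟨h1, h2⟩ := hc
  have h2' := two_alg W Ω
  have hy : y = 0 := by
    have h3 : 2 * y = 0 := by linear_combination h2
    exact (mul_eq_zero.mp h3).resolve_left h2'
  subst hy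
  refine disc_key (disc_alg W Ω) (x := x) (by linear_combination -h) (by linear_combination -h1)

lemma add_ne {x₁ y₁ x₂ y₂ : Ω} (h₁ : (W⁄Ω).toAffine.Nonsingular x₁ y₁)
    (h₂ : (W⁄Ω).toAffine.Nonsingular x₂ y₂) (hx : x₁ ≠ x₂) :
    (.some x₁ y₁ h₁ + .some x₂ y₂ h₂ : Pt W Ω) ≠ 0 ∧
      ptX (.some x₁ y₁ h₁ + .some x₂ y₂ h₂ : Pt W Ω) =
        ((y₁ - y₂) / (x₁ - x₂)) ^ 2 - (W⁄Ω).a₂ - x₁ - x₂ := by
  have hxy : ¬(x₁ = x₂ ∧ y₁ = (W⁄Ω).toAffine.negY x₂ y₂) := fun h => hx h.1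
  rw [Affine.Point.add_some hxy]
  refine ⟨Affine.Point.some_ne_zero _, ?_⟩
  rw [ptX_some, Affine.slope_of_X_ne hx]
  simp only [Affine.addX]
  rw [A1]; ring

lemma dbl {x y : Ω} (h : (W⁄Ω).toAffine.Nonsingular x y) (hy : 2 * y ≠ 0) :
    (.some x y h + .some x y h : Pt W Ω) ≠ 0 ∧
      ptX (.some x y h + .some x y h : Pt W Ω) * (4 * y ^ 2) =
        (x ^ 2 - (W⁄Ω).a₄) ^ 2 - 8 * (W⁄Ω).a₆ * x - 4 * (W⁄Ω).a₂ * (W⁄Ω).a₆ := by
  have hy' : y ≠ (W⁄Ω).toAffine.negY x y := by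
    rw [negY]
    intro h'
    apply hy
    linear_combination h'
  have hxy : ¬(x = x ∧ y = (W⁄Ω).toAffine.negY x y) := fun h => hy' h.2
  rw [Affine.Point.add_some hxy]
  refine ⟨Affine.Point.some_ne_zero _, ?_⟩
  rw [ptX_some, Affine.slope_of_Y_ne rfl hy']
  simp only [Affine.addX]
  rw [A1, negY]
  have h3 := eq_of_ns h
  have h4 : y - -y = 2 * y := by ring
  rw [h4]
  have h5 : (3 * x ^ 2 + 2 * (W⁄Ω).a₂ * x + (W⁄Ω).a₄ - 0 * y) / (2 * y) * (2 * y) =
      3 * x ^ 2 + 2 * (W⁄Ω).a₂ * x + (W⁄Ω).a₄ := by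
    rw [div_mul_cancel₀ _ hy]; ring
  generalize (3 * x ^ 2 + 2 * (W⁄Ω).a₂ * x + (W⁄Ω).a₄ - 0 * y) / (2 * y) = ℓ at h5
  linear_combination (2 * y * ℓ + (3 * x ^ 2 + 2 * (W⁄Ω).a₂ * x + (W⁄Ω).a₄)) * h5 -
    (8 * x + 4 * (W⁄Ω).a₂) * h3

lemma dbl_zero {x y : Ω} (h : (W⁄Ω).toAffine.Nonsingular x y) (hy : y = 0) :
    (.some x y h + .some x y h : Pt W Ω) = 0 := by
  apply Affine.Point.add_of_Y_eq rfl
  rw [negY, hy, neg_zero]

/-- Homogeneous coordinates of `x(P)`. -/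
noncomputable def hX (P : Pt W Ω) : Ω := if P = 0 then 1 else ptX P

/-- Homogeneous coordinates of `x(P)`. -/
noncomputable def hZ (P : Pt W Ω) : Ω := if P = 0 then 0 else 1

omit hE in
lemma hX_zero : hX (0 : Pt W Ω) = 1 := if_pos rfl
omit hE in
lemma hZ_zero : hZ (0 : Pt W Ω) = 0 := if_pos rfl
omit hE in
lemma hX_ne {P : Pt W Ω} (h : P ≠ 0) : hX P = ptX P := if_neg h
omit hE in
lemma hZ_ne {P : Pt W Ω} (h : P ≠ 0) : hZ P = 1 := if_neg h

omit hE in
lemma hX_neg (P : Pt W Ω) : hX (-P) = hX P := by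
  by_cases h : P = 0
  · rw [h, neg_zero]
  · rw [hX_ne h, hX_ne (neg_ne_zero.mpr h), ptX_neg]

omit hE in
lemma hZ_neg (P : Pt W Ω) : hZ (-P) = hZ P := by
  by_cases h : P = 0
  · rw [h, neg_zero]
  · rw [hZ_ne h, hZ_ne (neg_ne_zero.mpr h)]

/-- The relation between the first coordinates of `A`, `B`, `A + B` and `A - B`. -/
def ProjRel (A B C D : Pt W Ω) : Prop := ∃ c : Ω, c ≠ 0 ∧
    hZ C * hZ D = c * ((hX A * hZ B + hX B * hZ A) ^ 2 - 4 * (hZ A * hZ B) * (hX A * hX B)) ∧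
    hX C * hZ D + hX D * hZ C = c * (2 * ((hX A * hZ B + hX B * hZ A) *
      ((W⁄Ω).a₄ * (hZ A * hZ B) + hX A * hX B) + 2 * (W⁄Ω).a₂ * (hZ A * hZ B) * (hX A * hX B) +
      2 * (W⁄Ω).a₆ * (hZ A * hZ B) ^ 2)) ∧
    hX C * hX D = c * ((hX A * hX B - (W⁄Ω).a₄ * (hZ A * hZ B)) ^ 2 -
      4 * (W⁄Ω).a₆ * (hZ A * hZ B) * (hX A * hZ B + hX B * hZ A) -
      4 * (W⁄Ω).a₂ * (W⁄Ω).a₆ * (hZ A * hZ B) ^ 2)

lemma projRel_dbl {A B : Pt W Ω} (hA : A ≠ 0) (hB : B = A ∨ B = -A) :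
    ProjRel A B (A + A) 0 := by
  have h2 := two_alg W Ω
  have e1 : hX B = hX A := by
    rcases hB with rfl | rfl
    · rfl
    · exact hX_neg _
  have e2 : hZ B = hZ A := by
    rcases hB with rfl | rfl
    · rfl
    · exact hZ_neg _
  unfold ProjRel
  rw [e1, e2, hX_zero, hZ_zero, hX_ne hA, hZ_ne hA]
  rcases A with _ | ⟨x, y, h⟩
  · exact absurd rfl hA
  have h3 := eq_of_ns h
  rw [ptX_some]
  by_cases hy : y = 0
  · rw [dbl_zero h hy, hX_zero, hZ_zero]
    rw [hy] at h3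
    obtain ⟨z, hz⟩ : ∃ z, z = (x ^ 2 - (W⁄Ω).a₄) ^ 2 - 8 * (W⁄Ω).a₆ * x -
      4 * (W⁄Ω).a₂ * (W⁄Ω).a₆ := ⟨_, rfl⟩
    have h4 : z ≠ 0 := by
      intro h5
      have h6 : 3 * x ^ 2 + 2 * (W⁄Ω).a₂ * x + (W⁄Ω).a₄ = 0 := by
        apply pow_eq_zero_iff (n := 2) (by norm_num) |>.mp
        rw [hz] at h5
        linear_combination h5 - (8 * x + 4 * (W⁄Ω).a₂) * h3
      exact disc_key (disc_alg W Ω) (x := x) (by linear_combination -h3) h6
    refine ⟨z⁻¹, inv_ne_zero h4, by ring, ?_, ?_⟩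
    · linear_combination (4 * z⁻¹) * h3
    · have h5 := inv_mul_cancel₀ h4
      linear_combination -h5 - z⁻¹ * hz + 2 * z⁻¹ * hz
  · have h2y : 2 * y ≠ 0 := mul_ne_zero h2 hy
    obtain ⟨h4, h5⟩ := dbl h h2y
    rw [hX_ne h4, hZ_ne h4]
    have h6 : 4 * y ^ 2 ≠ 0 := by
      have := pow_ne_zero 2 h2y
      intro h7
      apply this
      linear_combination h7
    have h7 := inv_mul_cancel₀ h6
    refine ⟨(4 * y ^ 2)⁻¹, inv_ne_zero h6, by ring, ?_, ?_⟩
    · linear_combination -h7 + 4 * (4 * y ^ 2)⁻¹ * h3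
    · linear_combination (-ptX (.some x y h + .some x y h : Pt W Ω)) * h7 +
        (4 * y ^ 2)⁻¹ * h5

theorem projRel (A B : Pt W Ω) : ProjRel A B (A + B) (A - B) := by
  by_cases hA : A = 0
  · subst hA
    rw [zero_add, zero_sub]
    refine ⟨1, one_ne_zero, ?_, ?_, ?_⟩
    · rw [hZ_neg, hX_zero, hZ_zero]; ring
    · rw [hZ_neg, hX_neg, hX_zero, hZ_zero]; ring
    · rw [hX_neg, hX_zero, hZ_zero]; ring
  by_cases hB : B = 0
  · subst hB
    rw [add_zero, sub_zero]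
    refine ⟨1, one_ne_zero, ?_, ?_, ?_⟩
    · rw [hX_zero, hZ_zero]; ring
    · rw [hX_zero, hZ_zero]; ring
    · rw [hX_zero, hZ_zero]; ring
  by_cases hAB : B = A
  · subst hAB
    rw [sub_self]
    exact projRel_dbl hA (Or.inl rfl)
  by_cases hAB' : B = -A
  · subst hAB'
    rw [add_neg_cancel, sub_neg_eq_add]
    obtain ⟨c, hc, e1, e2, e3⟩ := projRel_dbl hA (Or.inr rfl)
    exact ⟨c, hc, by rw [mul_comm]; exact e1, by rw [add_comm]; exact e2,
      by rw [mul_comm]; exact e3⟩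
  rcases A with _ | ⟨x₁, y₁, h₁⟩
  · exact absurd rfl hA
  rcases B with _ | ⟨x₂, y₂, h₂⟩
  · exact absurd rfl hB
  have e₁ := eq_of_ns h₁
  have e₂ := eq_of_ns h₂
  have hx : x₁ ≠ x₂ := by
    intro hx
    subst hx
    have h3 : (y₂ - y₁) * (y₂ + y₁) = 0 := by linear_combination e₂ - e₁
    rcases mul_eq_zero.mp h3 with h4 | h4
    · apply hAB
      have : y₂ = y₁ := by linear_combination h4
      subst this
      rfl
    · apply hAB'
      have : y₂ = -y₁ := by linear_combination h4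
      apply pt_ext hB (neg_ne_zero.mpr hA)
      · rw [ptX_neg]; rfl
      · rw [ptY_neg]; exact this
  obtain ⟨h3, h4⟩ := add_ne h₁ h₂ hx
  have h5 : (W⁄Ω).toAffine.Nonsingular x₂ (-y₂) := by
    have := (Affine.nonsingular_neg x₂ y₂).mpr h₂
    rwa [negY] at this
  have h6 : -(.some x₂ y₂ h₂ : Pt W Ω) = .some x₂ (-y₂) h5 := by
    apply pt_ext (neg_ne_zero.mpr hB) (Affine.Point.some_ne_zero _)
    · rw [ptX_neg]; rfl
    · rw [ptY_neg]; rfl
  obtain ⟨h7, h8⟩ := add_ne h₁ h5 hx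
  rw [← h6, ← sub_eq_add_neg] at h7 h8
  unfold ProjRel
  rw [hX_ne h3, hX_ne h7, hZ_ne h3, hZ_ne h7, hX_ne hA, hX_ne hB, hZ_ne hA, hZ_ne hB, h4, h8,
    ptX_some, ptX_some]
  generalize (W⁄Ω).a₂ = a at *
  generalize (W⁄Ω).a₄ = b at *
  generalize (W⁄Ω).a₆ = c at *
  have hx' : x₁ - x₂ ≠ 0 := sub_ne_zero.mpr hx
  have h9 : ∀ z : Ω, z / (x₁ - x₂) = z * (x₁ - x₂)⁻¹ := fun z => div_eq_mul_inv _ _
  have h10 := inv_mul_cancel₀ hx'
  rw [h9, h9]
  set i := (x₁ - x₂)⁻¹ with hi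
  refine ⟨i ^ 2, pow_ne_zero 2 (inv_ne_zero hx'), ?_, ?_, ?_⟩
  · linear_combination (-(i * (x₁ - x₂)) - 1) * h10
  · linear_combination (2 * i ^ 2) * e₁ + (2 * i ^ 2) * e₂ +
      2 * (x₁ + x₂ + a) * (i * (x₁ - x₂) + 1) * h10
  · linear_combination
      (i ^ 4 * (y₁ ^ 2 - y₂ ^ 2 + (x₁ ^ 3 + a * x₁ ^ 2 + b * x₁ + c) -
        (x₂ ^ 3 + a * x₂ ^ 2 + b * x₂ + c)) - 2 * (x₁ + x₂ + a) * i ^ 2) * e₁ +
      (-i ^ 4 * (y₁ ^ 2 - y₂ ^ 2 + (x₁ ^ 3 + a * x₁ ^ 2 + b * x₁ + c) -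
        (x₂ ^ 3 + a * x₂ ^ 2 + b * x₂ + c)) - 2 * (x₁ + x₂ + a) * i ^ 2) * e₂ +
      ((x₁ ^ 2 + x₁ * x₂ + x₂ ^ 2 + a * (x₁ + x₂) + b) ^ 2 * i ^ 2 -
        (x₁ + x₂ + a) ^ 2) * (i * (x₁ - x₂) + 1) * h10

end proj

end UnrH3.Ell
end

section

/-!
# The first coordinates of sums and differences on `y² = x³ - x`
-/

namespace UnrH3

universe u v w

open Polynomial WeierstrassCurve
open scoped Classical

section proj

variable {S : Type v} [Field S] {Ω : Type u} [Field Ω] [Algebra S Ω]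

lemma Wi_a₂ : ((Wi S)⁄Ω).a₂ = 0 := map_zero _

lemma Wi_a₄ : ((Wi S)⁄Ω).a₄ = -1 := by
  change algebraMap S Ω (-1) = -1
  rw [map_neg, map_one]

lemma Wi_a₆ : ((Wi S)⁄Ω).a₆ = 0 := map_zero _

lemma Wi_negY (x y : Ω) : ((Wi S)⁄Ω).toAffine.negY x y = -y := by
  simp only [Affine.negY]
  rw [Wi_a₁, Wi_a₃]; ring

lemma Wi_eq {x y : Ω} (h : ((Wi S)⁄Ω).toAffine.Nonsingular x y) : y ^ 2 = x ^ 3 - x := by
  have h1 := (((Wi S)⁄Ω).toAffine.equation_iff x y).mp h.1
  rw [Wi_a₁, Wi_a₂, Wi_a₃, Wi_a₄, Wi_a₆] at h1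
  linear_combination h1

lemma Wi_add_ne {x₁ y₁ x₂ y₂ : Ω} (h₁ : ((Wi S)⁄Ω).toAffine.Nonsingular x₁ y₁)
    (h₂ : ((Wi S)⁄Ω).toAffine.Nonsingular x₂ y₂) (hx : x₁ ≠ x₂) :
    (.some x₁ y₁ h₁ + .some x₂ y₂ h₂ : Pt (Wi S) Ω) ≠ 0 ∧
      ptX (.some x₁ y₁ h₁ + .some x₂ y₂ h₂ : Pt (Wi S) Ω) =
        ((y₁ - y₂) / (x₁ - x₂)) ^ 2 - x₁ - x₂ := by
  have hxy : ¬(x₁ = x₂ ∧ y₁ = ((Wi S)⁄Ω).toAffine.negY x₂ y₂) := fun h => hx h.1
  rw [Affine.Point.add_some hxy]
  refine ⟨Affine.Point.some_ne_zero _, ?_⟩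
  rw [ptX_some, Affine.slope_of_X_ne hx]
  simp only [Affine.addX]
  rw [Wi_a₁, Wi_a₂]; ring

lemma Wi_dbl {x y : Ω} (h : ((Wi S)⁄Ω).toAffine.Nonsingular x y) (hy : 2 * y ≠ 0) :
    (.some x y h + .some x y h : Pt (Wi S) Ω) ≠ 0 ∧
      ptX (.some x y h + .some x y h : Pt (Wi S) Ω) * (4 * y ^ 2) = (x ^ 2 + 1) ^ 2 := by
  have hy' : y ≠ ((Wi S)⁄Ω).toAffine.negY x y := by
    rw [Wi_negY]
    intro h'
    apply hy
    linear_combination h'
  have hxy : ¬(x = x ∧ y = ((Wi S)⁄Ω).toAffine.negY x y) := fun h => hy' h.2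
  rw [Affine.Point.add_some hxy]
  refine ⟨Affine.Point.some_ne_zero _, ?_⟩
  rw [ptX_some, Affine.slope_of_Y_ne rfl hy']
  simp only [Affine.addX]
  rw [Wi_a₁, Wi_a₂, Wi_a₄, Wi_negY]
  have h3 := Wi_eq h
  have h4 : y - -y = 2 * y := by ring
  rw [h4]
  have h5 : (3 * x ^ 2 + 2 * 0 * x + -1 - 0 * y) / (2 * y) * (2 * y) = 3 * x ^ 2 - 1 := by
    rw [div_mul_cancel₀ _ hy]; ring
  generalize (3 * x ^ 2 + 2 * 0 * x + -1 - 0 * y) / (2 * y) = ℓ at h5
  linear_combination (2 * y * ℓ + (3 * x ^ 2 - 1)) * h5 - 8 * x * h3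

lemma Wi_dbl_zero {x y : Ω} (h : ((Wi S)⁄Ω).toAffine.Nonsingular x y) (hy : y = 0) :
    (.some x y h + .some x y h : Pt (Wi S) Ω) = 0 := by
  apply Affine.Point.add_of_Y_eq rfl
  rw [Wi_negY, hy, neg_zero]

/-- Homogeneous coordinates of `x(P)`. -/
noncomputable def hX (P : Pt (Wi S) Ω) : Ω := if P = 0 then 1 else ptX P

/-- Homogeneous coordinates of `x(P)`. -/
noncomputable def hZ (P : Pt (Wi S) Ω) : Ω := if P = 0 then 0 else 1

lemma hX_zero : hX (0 : Pt (Wi S) Ω) = 1 := if_pos rfl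
lemma hZ_zero : hZ (0 : Pt (Wi S) Ω) = 0 := if_pos rfl
lemma hX_ne {P : Pt (Wi S) Ω} (h : P ≠ 0) : hX P = ptX P := if_neg h
lemma hZ_ne {P : Pt (Wi S) Ω} (h : P ≠ 0) : hZ P = 1 := if_neg h

lemma hX_neg (P : Pt (Wi S) Ω) : hX (-P) = hX P := by
  by_cases h : P = 0
  · rw [h, neg_zero]
  · rw [hX_ne h, hX_ne (neg_ne_zero.mpr h), ptX_neg]

lemma hZ_neg (P : Pt (Wi S) Ω) : hZ (-P) = hZ P := by
  by_cases h : P = 0
  · rw [h, neg_zero]
  · rw [hZ_ne h, hZ_ne (neg_ne_zero.mpr h)]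

/-- The relation between the first coordinates of `A`, `B`, `A + B` and `A - B`. -/
def ProjRel (A B C D : Pt (Wi S) Ω) : Prop := ∃ c : Ω, c ≠ 0 ∧
    hZ C * hZ D = c * ((hX A * hZ B + hX B * hZ A) ^ 2 - 4 * (hZ A * hZ B) * (hX A * hX B)) ∧
    hX C * hZ D + hX D * hZ C = c * (2 * (hX A * hZ B + hX B * hZ A) *
      (hX A * hX B - hZ A * hZ B)) ∧
    hX C * hX D = c * (hX A * hX B + hZ A * hZ B) ^ 2

lemma projRel_dbl (h2 : (2 : Ω) ≠ 0) {A B : Pt (Wi S) Ω} (hA : A ≠ 0) (hB : B = A ∨ B = -A) :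
    ProjRel A B (A + A) 0 := by
  have e1 : hX B = hX A := by
    rcases hB with rfl | rfl
    · rfl
    · exact hX_neg _
  have e2 : hZ B = hZ A := by
    rcases hB with rfl | rfl
    · rfl
    · exact hZ_neg _
  unfold ProjRel
  rw [e1, e2, hX_zero, hZ_zero, hX_ne hA, hZ_ne hA]
  rcases A with _ | ⟨x, y, h⟩
  · exact absurd rfl hA
  have h3 := Wi_eq h
  rw [ptX_some]
  by_cases hy : y = 0
  · rw [Wi_dbl_zero h hy, hX_zero, hZ_zero]
    rw [hy] at h3
    have h4 : (x ^ 2 + 1) ^ 2 ≠ 0 := by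
      intro h5
      have h6 : x ^ 2 + 1 = 0 := pow_eq_zero_iff (by norm_num) |>.mp h5
      have h7 : x * (x ^ 2 - 1) = 0 := by linear_combination -h3
      rcases mul_eq_zero.mp h7 with h8 | h8
      · rw [h8] at h6
        exact one_ne_zero (by linear_combination h6)
      · exact h2 (by linear_combination h6 - h8)
    refine ⟨((x ^ 2 + 1) ^ 2)⁻¹, inv_ne_zero h4, by ring, ?_, ?_⟩
    · linear_combination (4 * ((x ^ 2 + 1) ^ 2)⁻¹) * h3
    · have h5 := inv_mul_cancel₀ h4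
      linear_combination -h5
  · have h2y : 2 * y ≠ 0 := mul_ne_zero h2 hy
    obtain ⟨h4, h5⟩ := Wi_dbl h h2y
    rw [hX_ne h4, hZ_ne h4]
    have h6 : 4 * y ^ 2 ≠ 0 := by
      have := pow_ne_zero 2 h2y
      intro h7
      apply this
      linear_combination h7
    have h7 := inv_mul_cancel₀ h6
    refine ⟨(4 * y ^ 2)⁻¹, inv_ne_zero h6, by ring, ?_, ?_⟩
    · linear_combination -h7 - 4 * (4 * y ^ 2)⁻¹ * h3 + 2 * 4 * (4 * y ^ 2)⁻¹ * h3
    · linear_combination (-ptX (.some x y h + .some x y h : Pt (Wi S) Ω)) * h7 +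
        (4 * y ^ 2)⁻¹ * h5

theorem projRel (h2 : (2 : Ω) ≠ 0) (A B : Pt (Wi S) Ω) : ProjRel A B (A + B) (A - B) := by
  by_cases hA : A = 0
  · subst hA
    rw [zero_add, zero_sub]
    refine ⟨1, one_ne_zero, ?_, ?_, ?_⟩
    · rw [hZ_neg, hX_zero, hZ_zero]; ring
    · rw [hZ_neg, hX_neg, hX_zero, hZ_zero]; ring
    · rw [hX_neg, hX_zero, hZ_zero]; ring
  by_cases hB : B = 0
  · subst hB
    rw [add_zero, sub_zero]
    refine ⟨1, one_ne_zero, ?_, ?_, ?_⟩
    · rw [hX_zero, hZ_zero]; ring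
    · rw [hX_zero, hZ_zero]; ring
    · rw [hX_zero, hZ_zero]; ring
  by_cases hAB : B = A
  · subst hAB
    rw [sub_self]
    exact projRel_dbl h2 hA (Or.inl rfl)
  by_cases hAB' : B = -A
  · subst hAB'
    rw [add_neg_cancel, sub_neg_eq_add]
    obtain ⟨c, hc, e1, e2, e3⟩ := projRel_dbl (S := S) h2 hA (Or.inr rfl)
    exact ⟨c, hc, by rw [mul_comm]; exact e1, by rw [add_comm]; exact e2,
      by rw [mul_comm]; exact e3⟩
  rcases A with _ | ⟨x₁, y₁, h₁⟩
  · exact absurd rfl hA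
  rcases B with _ | ⟨x₂, y₂, h₂⟩
  · exact absurd rfl hB
  have e₁ := Wi_eq h₁
  have e₂ := Wi_eq h₂
  have hx : x₁ ≠ x₂ := by
    intro hx
    subst hx
    have h3 : (y₂ - y₁) * (y₂ + y₁) = 0 := by linear_combination e₂ - e₁
    rcases mul_eq_zero.mp h3 with h4 | h4
    · apply hAB
      have : y₂ = y₁ := by linear_combination h4
      subst this
      rfl
    · apply hAB'
      have : y₂ = -y₁ := by linear_combination h4
      apply pt_ext hB (neg_ne_zero.mpr hA)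
      · rw [ptX_neg]; rfl
      · rw [Wi_ptY_neg]; exact this
  obtain ⟨h3, h4⟩ := Wi_add_ne h₁ h₂ hx
  have h5 : ((Wi S)⁄Ω).toAffine.Nonsingular x₂ (-y₂) := by
    have := (Affine.nonsingular_neg x₂ y₂).mpr h₂
    rwa [Wi_negY] at this
  have h6 : -(.some x₂ y₂ h₂ : Pt (Wi S) Ω) = .some x₂ (-y₂) h5 := by
    apply pt_ext (neg_ne_zero.mpr hB) (Affine.Point.some_ne_zero _)
    · rw [ptX_neg]; rfl
    · rw [Wi_ptY_neg]; rfl
  obtain ⟨h7, h8⟩ := Wi_add_ne h₁ h5 hx
  rw [← h6, ← sub_eq_add_neg] at h7 h8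
  unfold ProjRel
  rw [hX_ne h3, hX_ne h7, hZ_ne h3, hZ_ne h7, hX_ne hA, hX_ne hB, hZ_ne hA, hZ_ne hB, h4, h8,
    ptX_some, ptX_some]
  have hx' : x₁ - x₂ ≠ 0 := sub_ne_zero.mpr hx
  have h9 : ∀ z : Ω, z / (x₁ - x₂) = z * (x₁ - x₂)⁻¹ := fun z => div_eq_mul_inv _ _
  have h10 := inv_mul_cancel₀ hx'
  rw [h9, h9]
  set i := (x₁ - x₂)⁻¹ with hi
  refine ⟨i ^ 2, pow_ne_zero 2 (inv_ne_zero hx'), ?_, ?_, ?_⟩
  · linear_combination (-(i * (x₁ - x₂)) - 1) * h10
  · linear_combination (2 * i ^ 2) * e₁ + (2 * i ^ 2) * e₂ +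
      2 * (x₁ + x₂) * (i * (x₁ - x₂) + 1) * h10
  · linear_combination
      (i ^ 4 * (y₁ ^ 2 - y₂ ^ 2 + (x₁ ^ 3 - x₁) - (x₂ ^ 3 - x₂)) - 2 * (x₁ + x₂) * i ^ 2) * e₁ +
      (-i ^ 4 * (y₁ ^ 2 - y₂ ^ 2 + (x₁ ^ 3 - x₁) - (x₂ ^ 3 - x₂)) - 2 * (x₁ + x₂) * i ^ 2) * e₂ +
      ((x₁ ^ 2 + x₁ * x₂ + x₂ ^ 2 - 1) ^ 2 * i ^ 2 - (x₁ + x₂) ^ 2) * (i * (x₁ - x₂) + 1) * h10

end proj

end UnrH3
end

section

/-!
# The fixed field of a finite group acting on the coefficients
-/

namespace UnrA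

universe u v w z

open scoped Classical
open UnrH3 (cl subset_cl adj le_adj subset_adj adj_le hom_gen_id)

variable {Λ : Type u} [Field Λ] {n : ℕ}

section
variable {k₀ C M N : Subfield Λ} {X Y : Fin n → Λ} (hk₀C : k₀ ≤ C)
  (hM : M = adj C (Set.range X ∪ Set.range Y)) (hN : N = adj k₀ (Set.range X ∪ Set.range Y))
  (Γ : Subgroup (M ≃+* M)) [Finite Γ]
  (hΓC : ∀ k ∈ Γ, ∀ z : M, (z : Λ) ∈ C → (k z : Λ) ∈ C)
  (hΓX : ∀ k ∈ Γ, ∀ z : M, (z : Λ) ∈ Set.range X ∪ Set.range Y → k z = z)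
  (hk₀ : ∀ z : M, (z : Λ) ∈ C → ((z : Λ) ∈ k₀ ↔ ∀ k ∈ Γ, k z = z))

omit [Finite Γ] in
include hk₀C hM hN hΓX hk₀ in
lemma fixed_of_mem {z : M} (hz : (z : Λ) ∈ N) : ∀ k ∈ Γ, k z = z := by
  intro k hk
  have hCM : C ≤ M := by rw [hM]; exact le_adj _ _
  have hXM : Set.range X ∪ Set.range Y ⊆ M := by rw [hM]; exact subset_adj _ _
  exact UnrH3.hom_eq_of_gen (B := M) (k : M →+* M) (RingHom.id M) (F := k₀)
    (T := Set.range X ∪ Set.range Y) (hk₀C.trans hCM) hXM
    (fun z hz => (hk₀ ⟨z, hCM (hk₀C hz)⟩ (hk₀C hz)).mp hz k hk)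
    (fun z hz => hΓX k hk _ hz) z (by rw [← hN]; exact hz)

include hM hΓX in
lemma exists_trace_ne : ∃ c : M, (c : Λ) ∈ C ∧ ∑ᶠ k : Γ, (k : M ≃+* M) c ≠ 0 := by
  let _ : Fintype Γ := Fintype.ofFinite Γ
  have hCM : C ≤ M := by rw [hM]; exact le_adj _ _
  by_contra hcon
  push Not at hcon
  let f : Γ → (C →* M) := fun k =>
    (((k : M ≃+* M) : M →+* M).comp (Subfield.inclusion hCM) : C →* M)
  have hf : Function.Injective f := by
    intro k k' h
    apply Subtype.ext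
    have h1 : ((k : M ≃+* M) : M →+* M) = ((k' : M ≃+* M) : M →+* M) := by
      apply hom_gen_id hM
      · intro z hz
        exact DFunLike.congr_fun h (⟨z, hz⟩ : C)
      · intro z hz
        exact (hΓX k k.2 z hz).trans (hΓX k' k'.2 z hz).symm
    exact RingEquiv.ext fun z => RingHom.congr_fun h1 z
  have hli := (linearIndependent_monoidHom C M).comp f hf
  rw [Fintype.linearIndependent_iff] at hli
  have := hli (fun _ => 1) (by
    funext c
    have h1 := hcon ⟨c, hCM c.2⟩ c.2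
    rw [finsum_eq_sum_of_fintype] at h1
    rw [Finset.sum_apply]
    simp only [one_smul, Pi.zero_apply]
    exact h1) 1
  exact one_ne_zero this

include hk₀C hM hN hΓC hΓX hk₀ in
/-- The fixed field of a finite group acting on the coefficients only. -/
theorem fixed_field (z : M) : (z : Λ) ∈ N ↔ ∀ k ∈ Γ, k z = z := by
  let _ : Fintype Γ := Fintype.ofFinite Γ
  have hCM : C ≤ M := by rw [hM]; exact le_adj _ _
  have hXM : Set.range X ∪ Set.range Y ⊆ M := by rw [hM]; exact subset_adj _ _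
  have hNM : N ≤ M := by rw [hN]; exact adj_le (hk₀C.trans hCM) hXM
  have hfix := fun (z : M) (hz : (z : Λ) ∈ N) =>
    fixed_of_mem hk₀C hM hN Γ hΓX hk₀ hz
  refine ⟨hfix z, ?_⟩
  -- the trace
  have htrC : ∀ c : M, (c : Λ) ∈ C → ((∑ k : Γ, (k : M ≃+* M) c : M) : Λ) ∈ k₀ := by
    intro c hc
    have h1 : ((∑ k : Γ, (k : M ≃+* M) c : M) : Λ) ∈ C := by
      push_cast
      exact sum_mem fun k _ => hΓC k k.2 c hc
    rw [hk₀ _ h1]
    intro g hg
    rw [map_sum]
    exact Fintype.sum_equiv (Equiv.mulLeft (⟨g, hg⟩ : Γ)) _ _ (fun k => rfl)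
  obtain ⟨c₀, hc₀, hc₀1⟩ : ∃ c : M, (c : Λ) ∈ C ∧ ∑ k : Γ, (k : M ≃+* M) c = 1 := by
    obtain ⟨c, hc, hc1⟩ := exists_trace_ne hM Γ hΓX
    rw [finsum_eq_sum_of_fintype] at hc1
    have h1 := htrC c hc
    refine ⟨(∑ k : Γ, (k : M ≃+* M) c)⁻¹ * c, ?_, ?_⟩
    · push_cast
      refine mul_mem (inv_mem ?_) hc
      have h2 := hk₀C h1
      push_cast at h2
      exact h2
    · have h2 : ∀ k : Γ, (k : M ≃+* M) ((∑ k : Γ, (k : M ≃+* M) c)⁻¹ * c) =
          (∑ k : Γ, (k : M ≃+* M) c)⁻¹ * (k : M ≃+* M) c := by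
        intro k
        rw [map_mul, map_inv₀, (hk₀ _ (hk₀C h1)).mp h1 k k.2]
      rw [Finset.sum_congr rfl fun k _ => h2 k, ← Finset.mul_sum, inv_mul_cancel₀ hc1]
  obtain ⟨T, hT⟩ : ∃ T : AddSubgroup M, T = AddSubgroup.closure
      {z | ∃ c w : M, (c : Λ) ∈ C ∧ (w : Λ) ∈ N ∧ z = c * w} := ⟨_, rfl⟩
  have hgen : ∀ c w : M, (c : Λ) ∈ C → (w : Λ) ∈ N → c * w ∈ T := by
    intro c w hc hw
    rw [hT]
    exact AddSubgroup.subset_closure ⟨c, w, hc, hw, rfl⟩
  have hind : ∀ {p : M → Prop}, (∀ c w : M, (c : Λ) ∈ C → (w : Λ) ∈ N → p (c * w)) → p 0 →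
      (∀ x y, p x → p y → p (x + y)) → (∀ x, p x → p (-x)) → ∀ x ∈ T, p x := by
    intro p h1 h2 h3 h4 x hx
    rw [hT] at hx
    induction hx using AddSubgroup.closure_induction with
    | mem x hx =>
      obtain ⟨c, w, hc, hw, rfl⟩ := hx
      exact h1 c w hc hw
    | zero => exact h2
    | add x y _ _ hx hy => exact h3 x y hx hy
    | neg x _ hx => exact h4 x hx
  have hmul : ∀ x ∈ T, ∀ y ∈ T, x * y ∈ T := by
    intro x hx
    refine hind (p := fun x => ∀ y ∈ T, x * y ∈ T) ?_ ?_ ?_ ?_ x hx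
    · intro c w hc hw
      refine hind ?_ ?_ ?_ ?_
      · intro c' w' hc' hw'
        have h1 := hgen (c * c') (w * w') (by push_cast; exact mul_mem hc hc')
          (by push_cast; exact mul_mem hw hw')
        rwa [mul_mul_mul_comm] at h1
      · rw [mul_zero]; exact zero_mem _
      · intro x y hx hy
        rw [mul_add]; exact add_mem hx hy
      · intro x hx
        rw [mul_neg]; exact neg_mem hx
    · intro y _
      rw [zero_mul]; exact zero_mem _
    · intro x y hx hy z hz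
      rw [add_mul]; exact add_mem (hx z hz) (hy z hz)
    · intro x hx z hz
      rw [neg_mul]; exact neg_mem (hx z hz)
  have hCT : ∀ c : M, (c : Λ) ∈ C → c ∈ T := by
    intro c hc
    have h1 := hgen c 1 hc (by push_cast; exact one_mem _)
    rwa [mul_one] at h1
  have hNT : ∀ w : M, (w : Λ) ∈ N → w ∈ T := by
    intro w hw
    have h1 := hgen 1 w (by push_cast; exact one_mem _) hw
    rwa [one_mul] at h1
  have hkT : ∀ k ∈ Γ, ∀ x ∈ T, k x ∈ T := by
    intro k hk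
    refine hind ?_ ?_ ?_ ?_
    · intro c w hc hw
      rw [map_mul, hfix w hw k hk]
      exact hgen _ _ (hΓC k hk c hc) hw
    · rw [map_zero]; exact zero_mem _
    · intro x y hx hy
      rw [map_add]; exact add_mem hx hy
    · intro x hx
      rw [map_neg]; exact neg_mem hx
  have htrT : ∀ x ∈ T, ((∑ k : Γ, (k : M ≃+* M) x : M) : Λ) ∈ N := by
    refine hind ?_ ?_ ?_ ?_
    · intro c w hc hw
      have h1 : ∑ k : Γ, (k : M ≃+* M) (c * w) = (∑ k : Γ, (k : M ≃+* M) c) * w := by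
        rw [Finset.sum_mul]
        refine Finset.sum_congr rfl fun k _ => ?_
        rw [map_mul, hfix w hw k k.2]
      rw [h1]
      push_cast
      refine mul_mem ?_ hw
      have h2 := htrC c hc
      push_cast at h2
      rw [hN]
      exact le_adj _ _ h2
    · simp
    · intro x y hx hy
      simp only [map_add, Finset.sum_add_distrib]
      push_cast at hx hy ⊢
      exact add_mem hx hy
    · intro x hx
      simp only [map_neg, Finset.sum_neg_distrib]
      push_cast at hx ⊢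
      exact neg_mem hx
  have hdesc : ∀ x ∈ T, (∀ k ∈ Γ, k x = x) → (x : Λ) ∈ N := by
    intro x hx hkx
    have h1 := htrT (c₀ * x) (hmul _ (hCT c₀ hc₀) x hx)
    have h2 : ∑ k : Γ, (k : M ≃+* M) (c₀ * x) = x := by
      have h3 : ∀ k : Γ, (k : M ≃+* M) (c₀ * x) = (k : M ≃+* M) c₀ * x := by
        intro k
        rw [map_mul, hkx k k.2]
      rw [Finset.sum_congr rfl fun k _ => h3 k, ← Finset.sum_mul, hc₀1, one_mul]
    rwa [h2] at h1
  have hprod : ∀ (s : Finset Γ) (x : M), x ∈ T → ∏ k ∈ s, (k : M ≃+* M) x ∈ T := by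
    intro s x hx
    induction s using Finset.induction_on with
    | empty =>
      rw [Finset.prod_empty]
      exact hCT 1 (by push_cast; exact one_mem _)
    | insert k s hk ih =>
      rw [Finset.prod_insert hk]
      exact hmul _ (hkT k k.2 x hx) _ ih
  have hinv : ∀ x ∈ T, x⁻¹ ∈ T := by
    intro x hx
    by_cases hx0 : x = 0
    · rw [hx0, inv_zero]; exact zero_mem _
    have h1 : ((∏ k : Γ, (k : M ≃+* M) x : M) : Λ) ∈ N := by
      apply hdesc _ (hprod _ x hx)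
      intro g hg
      rw [map_prod]
      exact Fintype.prod_equiv (Equiv.mulLeft (⟨g, hg⟩ : Γ)) _ _ (fun k => rfl)
    have h2 : x⁻¹ = (∏ k : Γ, (k : M ≃+* M) x)⁻¹ *
        ∏ k ∈ Finset.univ.erase (1 : Γ), (k : M ≃+* M) x := by
      have h3 : x * ∏ k ∈ Finset.univ.erase (1 : Γ), (k : M ≃+* M) x =
          ∏ k : Γ, (k : M ≃+* M) x := by
        rw [← Finset.mul_prod_erase Finset.univ (fun k : Γ => (k : M ≃+* M) x)
          (Finset.mem_univ 1)]
        rfl
      have h4 : ∏ k ∈ Finset.univ.erase (1 : Γ), (k : M ≃+* M) x ≠ 0 := by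
        rw [Finset.prod_ne_zero_iff]
        intro k _
        rw [Ne, map_eq_zero_iff _ (k : M ≃+* M).injective]
        exact hx0
      rw [← h3, mul_inv, mul_assoc, inv_mul_cancel₀ h4, mul_one]
    rw [h2]
    refine hmul _ (hNT _ ?_) _ (hprod _ x hx)
    push_cast at h1 ⊢
    exact inv_mem h1
  have htop : ∀ x : M, x ∈ T := by
    intro x
    let S : Subfield M :=
      { T with
        one_mem' := hCT 1 (by push_cast; exact one_mem _)
        mul_mem' := fun {x y} hx hy => hmul x hx y hy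
        inv_mem' := fun x hx => hinv x hx }
    have h1 : M ≤ S.map M.subtype := by
      conv_lhs => rw [hM]
      apply adj_le
      · intro c hc
        exact ⟨⟨c, hCM hc⟩, hCT _ hc, rfl⟩
      · intro w hw
        exact ⟨⟨w, hXM hw⟩, hNT _ (by rw [hN]; exact subset_adj _ _ hw), rfl⟩
    obtain ⟨y, hy, hyx⟩ := h1 x.2
    have h2 : y = x := Subtype.ext hyx
    rw [← h2]
    exact hy
  exact fun h => hdesc z (htop z) h

end

end UnrA
end
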