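import Pool.Agent.Lib.MP_859dd5_ag.Mg.G064
import Pool.Agent.Lib.MP_859dd5_ag.Mg.G027
import Pool.Agent.Lib.MP_859dd5_ag.Compare
import Pool.Agent.Lib.MP_859dd5_ag.Mg.G063
import Pool.Agent.Lib.MP_859dd5_ag.Mg.G062

section

section

/-!
# Duplication of primitive triples of polynomials
-/

namespace UnrH3.Ell

universe u v w

open Polynomial

section prim

variable {K : Type u} [Field K]

lemma prim3_dup (h2 : (2 : K) ≠ 0) {a b c : K}
    (hd : a ^ 2 * b ^ 2 - 4 * b ^ 3 - 4 * a ^ 3 * c + 18 * a * b * c - 27 * c ^ 2 ≠ 0)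
    {t s u : K[X]} (h : Prim3 t s u) :
    Prim3 (s ^ 2 - 4 * t * u) (2 * (s * (C b * t + u) + 2 * C a * t * u + 2 * C c * t ^ 2))
      ((u - C b * t) ^ 2 - 4 * C c * t * s - 4 * C a * C c * t ^ 2) := by
  intro π hπ d₀ d₁ d₂
  have : Fact (Irreducible π) := ⟨hπ⟩
  obtain ⟨φ, hφ⟩ : ∃ φ : K[X] →+* AdjoinRoot π, ∀ z, φ z = 0 ↔ π ∣ z :=
    ⟨AdjoinRoot.mk π, fun z => AdjoinRoot.mk_eq_zero⟩
  have hC : Function.Injective (φ.comp C) := (φ.comp C).injective
  have h2' : (2 : AdjoinRoot π) ≠ 0 := by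
    intro h'
    apply h2
    apply hC
    rw [map_ofNat, map_zero]; exact h'
  have hd' : φ (C a) ^ 2 * φ (C b) ^ 2 - 4 * φ (C b) ^ 3 - 4 * φ (C a) ^ 3 * φ (C c) +
      18 * φ (C a) * φ (C b) * φ (C c) - 27 * φ (C c) ^ 2 ≠ 0 := by
    intro h'
    apply hd
    apply hC
    rw [map_zero, ← h']
    simp only [RingHom.comp_apply, map_add, map_sub, map_mul, map_pow, map_ofNat]
  have e0 := (hφ _).mpr d₀
  have e1 := (hφ _).mpr d₁
  have e2 := (hφ _).mpr d₂
  simp only [map_add, map_sub, map_mul, map_pow, map_ofNat] at e0 e1 e2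
  obtain ⟨z0, z1, z2⟩ := quad_zero h2' hd' e0 e1 e2
  exact h π hπ ((hφ _).mp z0) ((hφ _).mp z1) ((hφ _).mp z2)

lemma top3_dup (h2 : (2 : K) ≠ 0) {a b c : K}
    (hd : a ^ 2 * b ^ 2 - 4 * b ^ 3 - 4 * a ^ 3 * c + 18 * a * b * c - 27 * c ^ 2 ≠ 0)
    {t s u : K[X]} {D : ℕ} (h : Top3 t s u D) :
    Top3 (s ^ 2 - 4 * t * u) (2 * (s * (C b * t + u) + 2 * C a * t * u + 2 * C c * t ^ 2))
      ((u - C b * t) ^ 2 - 4 * C c * t * s - 4 * C a * C c * t ^ 2) (2 * D) := by
  obtain ⟨h1, h3, h4, h5⟩ := h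
  have hmul : ∀ f g : K[X], f.natDegree ≤ D → g.natDegree ≤ D →
      (f * g).natDegree ≤ 2 * D := fun f g hf hg => by
    rw [two_mul]
    exact natDegree_mul_le.trans (add_le_add hf hg)
  have hcoef : ∀ f g : K[X], f.natDegree ≤ D → g.natDegree ≤ D →
      (f * g).coeff (2 * D) = f.coeff D * g.coeff D := fun f g hf hg => by
    rw [two_mul]
    exact coeff_mul_top hf hg
  have e0 : s ^ 2 - 4 * t * u = s * s - C 4 * (t * u) := by
    have : (C 4 : K[X]) = 4 := rfl
    rw [this]; ring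
  have e1 : 2 * (s * (C b * t + u) + 2 * C a * t * u + 2 * C c * t ^ 2) =
      C 2 * (C b * (s * t) + s * u + C (2 * a) * (t * u) + C (2 * c) * (t * t)) := by
    have : (C 2 : K[X]) = 2 := rfl
    rw [C_mul, C_mul, this]; ring
  have e2 : (u - C b * t) ^ 2 - 4 * C c * t * s - 4 * C a * C c * t ^ 2 =
      u * u - C (2 * b) * (u * t) + C (b * b - 4 * a * c) * (t * t) - C (4 * c) * (t * s) := by
    have h2 : (C 2 : K[X]) = 2 := rfl
    have h4 : (C 4 : K[X]) = 4 := rfl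
    simp only [C_mul, C_sub, h2, h4]; ring
  rw [e0, e1, e2]
  have hCm : ∀ (r : K) (f : K[X]), f.natDegree ≤ 2 * D → (C r * f).natDegree ≤ 2 * D :=
    fun r f hf => (natDegree_C_mul_le _ _).trans hf
  have hadd : ∀ f g : K[X], f.natDegree ≤ 2 * D → g.natDegree ≤ 2 * D →
      (f + g).natDegree ≤ 2 * D := fun f g hf hg => (natDegree_add_le _ _).trans (max_le hf hg)
  have hsub : ∀ f g : K[X], f.natDegree ≤ 2 * D → g.natDegree ≤ 2 * D →
      (f - g).natDegree ≤ 2 * D := fun f g hf hg => (natDegree_sub_le _ _).trans (max_le hf hg)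
  refine ⟨hsub _ _ (hmul _ _ h3 h3) (hCm _ _ (hmul _ _ h1 h4)),
    hCm _ _ (hadd _ _ (hadd _ _ (hadd _ _ (hCm _ _ (hmul _ _ h3 h1)) (hmul _ _ h3 h4))
      (hCm _ _ (hmul _ _ h1 h4))) (hCm _ _ (hmul _ _ h1 h1))),
    hsub _ _ (hadd _ _ (hsub _ _ (hmul _ _ h4 h4) (hCm _ _ (hmul _ _ h4 h1)))
      (hCm _ _ (hmul _ _ h1 h1))) (hCm _ _ (hmul _ _ h1 h3)), ?_⟩
  simp only [coeff_sub, coeff_add, coeff_C_mul, hcoef _ _ h3 h3, hcoef _ _ h1 h4, hcoef _ _ h3 h1,
    hcoef _ _ h3 h4, hcoef _ _ h1 h1, hcoef _ _ h4 h4, hcoef _ _ h4 h1, hcoef _ _ h1 h3]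
  generalize t.coeff D = τ at *
  generalize s.coeff D = ς at *
  generalize u.coeff D = υ at *
  rintro ⟨h6, h7, h8⟩
  obtain ⟨z0, z1, z2⟩ := quad_zero (t := τ) (s := ς) (u := υ) h2 hd (by linear_combination h6)
    (by linear_combination h7) (by linear_combination h8)
  exact h5 ⟨z0, z1, z2⟩

end prim

end UnrH3.Ell
end

section

/-!
# The height of a point and the parallelogram law
-/

namespace UnrH3.Ell

universe u v w

open Polynomial WeierstrassCurve
open scoped Classical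

section ht

variable {S : Type v} [Field S] {W : WeierstrassCurve S} [hE : EllW W] {K : Type u} [Field K]
  [Algebra S K]

/-- The points that change sign under the involution. -/
def antiG {S : Type v} [Field S] (W : WeierstrassCurve S) [EllW W] (K : Type u) [Field K]
    [Algebra S K] :
    AddSubgroup (Pt W (FF W K)) where
  carrier := {A | ptMap (nu W K) A = -A}
  zero_mem' := by
    change ptMap (nu W K) 0 = -0
    rw [map_zero, neg_zero]
  add_mem' := by
    intro A B hA hB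
    change ptMap (nu W K) (A + B) = -(A + B)
    rw [map_add, hA, hB, neg_add]
  neg_mem' := by
    intro A hA
    change ptMap (nu W K) (-A) = - -A
    rw [map_neg, hA]

lemma mem_antiG {A : Pt W (FF W K)} :
    A ∈ antiG W K ↔ ptMap (nu W K) A = -A := Iff.rfl

lemma gpt_mem_antiG : gpt W K ∈ antiG W K := liftPt_gpt _ _ _

omit hE in
lemma ratHom_injective : Function.Injective (ratHom W K) := (ratHom W K).injective

lemma nu_gy' : nu W K (gy W K) = -gy W K := by
  rw [nu_gy, negY]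

lemma nu_rat (r : RatFunc K) : nu W K (ratHom W K r) = ratHom W K r :=
  congrArg (fun f : RatFunc K →+* FF W K => f r) nu_ratHom

omit hE in
lemma gy_ne_zero : gy W K ≠ 0 := by
  intro h
  apply (isQuad_gy W K).not_mem 0
  rw [h, map_zero]

lemma gy_sq : gy W K ^ 2 = gx W K ^ 3 + (W⁄(FF W K)).a₂ * gx W K ^ 2 + (W⁄(FF W K)).a₄ * gx W K +
    (W⁄(FF W K)).a₆ := eq_of_ns (gx_gy_nonsingular W K)

lemma exists_rat {z : FF W K} (h : nu W K z = z) : ∃ r, ratHom W K r = z := by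
  obtain ⟨a, b, rfl⟩ := (isQuad_gy W K).span z
  rw [map_add, map_mul, nu_rat, nu_rat, nu_gy'] at h
  have h2 := two_alg W (FF W K)
  have h3 : 2 * (ratHom W K b * gy W K) = 0 := by linear_combination -h
  have h4 := (mul_eq_zero.mp h3).resolve_left h2
  exact ⟨a, by rw [h4, add_zero]⟩

lemma exists_rat_mul {z : FF W K} (h : nu W K z = -z) :
    ∃ r, z = ratHom W K r * gy W K := by
  obtain ⟨a, b, rfl⟩ := (isQuad_gy W K).span z
  rw [map_add, map_mul, nu_rat, nu_rat, nu_gy'] at h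
  have h2 := two_alg W (FF W K)
  have h3 : 2 * ratHom W K a = 0 := by linear_combination h
  have h4 := (mul_eq_zero.mp h3).resolve_left h2
  exact ⟨b, by rw [h4, zero_add]⟩

lemma antiG_ptX {A : Pt W (FF W K)} (hA : A ∈ antiG W K) :
    ∃ r, ratHom W K r = ptX A := by
  apply exists_rat
  rw [← ptX_map, mem_antiG.mp hA, ptX_neg]

lemma antiG_ptY {A : Pt W (FF W K)} (hA : A ∈ antiG W K) :
    ∃ r, ptY A = ratHom W K r * gy W K := by
  apply exists_rat_mul
  rw [← ptY_map, mem_antiG.mp hA, ptY_neg]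

/-- The height of a point. -/
noncomputable def ht (A : Pt W (FF W K)) : ℕ :=
  if h : ∃ r, ratHom W K r = ptX A then rdeg h.choose else 0

omit hE in
lemma ht_eq {A : Pt W (FF W K)} {r : RatFunc K} (h : ratHom W K r = ptX A) :
    ht A = rdeg r := by
  have h1 : ∃ r, ratHom W K r = ptX A := ⟨r, h⟩
  rw [ht, dif_pos h1]
  congr 1
  apply ratHom_injective (W := W)
  rw [h1.choose_spec, h]

omit hE in
lemma ht_zero : ht (0 : Pt W (FF W K)) = 0 := by
  rw [ht_eq (r := RatFunc.C 0) (by rw [map_zero, map_zero]; rfl), rdeg_C]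

lemma ht_gpt : ht (gpt W K) = 1 := by
  rw [ht_eq (r := RatFunc.X) rfl, rdeg_X]

/-- The inclusion of polynomials in the function field. -/
noncomputable def polHom {S : Type v} [Field S] (W : WeierstrassCurve S) (K : Type u) [Field K]
    [Algebra S K] : K[X] →+* FF W K := (ratHom W K).comp (algebraMap K[X] (RatFunc K))

omit hE in
lemma polHom_injective : Function.Injective (polHom W K) := by
  intro a b h
  exact RatFunc.algebraMap_injective K (ratHom_injective (W := W) h)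

lemma exists_coord {A : Pt W (FF W K)} (hA : A ∈ antiG W K) :
    ∃ a b : K[X], IsCoprime a b ∧ ht A = max a.natDegree b.natDegree ∧
      ∃ l : FF W K, l ≠ 0 ∧ polHom W K a = l * hX A ∧ polHom W K b = l * hZ A := by
  by_cases h0 : A = 0
  · subst h0
    refine ⟨1, 0, isCoprime_one_left, ?_, 1, one_ne_zero, ?_, ?_⟩
    · rw [ht_zero]; simp
    · rw [hX_zero, map_one, one_mul]
    · rw [hZ_zero, map_zero, one_mul]
  · obtain ⟨r, hr⟩ := antiG_ptX hA
    have hd : algebraMap K[X] (RatFunc K) r.denom ≠ 0 := RatFunc.algebraMap_ne_zero r.denom_ne_zero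
    refine ⟨r.num, r.denom, r.isCoprime_num_denom, ?_, polHom W K r.denom, ?_, ?_, ?_⟩
    · rw [ht_eq hr]; rfl
    · exact fun h => hd (ratHom_injective (by rw [map_zero]; exact h))
    · rw [hX_ne h0, ← hr]
      change ratHom _ _ _ = ratHom _ _ _ * _
      rw [← map_mul]
      congr 1
      have h1 := RatFunc.num_div_denom r
      rw [div_eq_iff hd] at h1
      rw [h1, mul_comm]
    · rw [hZ_ne h0, mul_one]

theorem ht_parallelogram {A B : Pt W (FF W K)} (hA : A ∈ antiG W K)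
    (hB : B ∈ antiG W K) : ht (A + B) + ht (A - B) = 2 * (ht A + ht B) := by
  have h2K : (2 : K) ≠ 0 := two_alg W K
  obtain ⟨a₁, b₁, c₁, t₁, l₁, n₁, e₁, f₁⟩ := exists_coord hA
  obtain ⟨a₂, b₂, c₂, t₂, l₂, n₂, e₂, f₂⟩ := exists_coord hB
  obtain ⟨a₃, b₃, c₃, t₃, l₃, n₃, e₃, f₃⟩ := exists_coord (add_mem hA hB)
  obtain ⟨a₄, b₄, c₄, t₄, l₄, n₄, e₄, f₄⟩ := exists_coord (sub_mem hA hB)
  obtain ⟨c, hc, g₁, g₂, g₃⟩ := projRel A B
  have hdK := disc_alg W K
  have hw := prim3_sym c₁ c₂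
  have hv := prim3_sym c₃ c₄
  have hw' := prim3_dup h2K hdK hw
  have T1 := top3_dup h2K hdK (top3_sym c₁ c₂)
  have T2 := top3_sym c₃ c₄
  have hCp : ∀ c : K, polHom W K (C c) = base W K c := by
    intro c
    change ratHom W K (algebraMap K[X] (RatFunc K) (C c)) = _
    rw [← algebraMap_ratFunc_eq, ratHom_algebraMap]
  have ha2 : base W K (W⁄K).a₂ = (W⁄(FF W K)).a₂ := (base W K).commutes W.a₂
  have ha4 : base W K (W⁄K).a₄ = (W⁄(FF W K)).a₄ := (base W K).commutes W.a₄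
  have ha6 : base W K (W⁄K).a₆ = (W⁄(FF W K)).a₆ := (base W K).commutes W.a₆
  obtain ⟨c₀, hc₀, q₀, q₁, q₂⟩ := hv.eq_of_prop hw' (polHom W K) polHom_injective
    (c := c * (l₃ * l₄) / (l₁ * l₂) ^ 2)
    (by
      simp only [map_mul, map_sub, map_pow, map_add, map_ofNat, e₁, e₂, f₁, f₂, f₃, f₄]
      rw [div_mul_eq_mul_div, eq_div_iff (pow_ne_zero 2 (mul_ne_zero n₁ n₂))]
      linear_combination (l₃ * l₄ * (l₁ * l₂) ^ 2) * g₁)
    (by
      simp only [map_mul, map_sub, map_add, map_pow, map_ofNat, hCp, ha2, ha4, ha6,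
        e₁, e₂, e₃, e₄, f₁, f₂, f₃, f₄]
      rw [div_mul_eq_mul_div, eq_div_iff (pow_ne_zero 2 (mul_ne_zero n₁ n₂))]
      linear_combination (l₃ * l₄ * (l₁ * l₂) ^ 2) * g₂)
    (by
      simp only [map_mul, map_sub, map_pow, map_add, map_ofNat, hCp, ha2, ha4, ha6,
        e₁, e₂, e₃, e₄, f₁, f₂]
      rw [div_mul_eq_mul_div, eq_div_iff (pow_ne_zero 2 (mul_ne_zero n₁ n₂))]
      linear_combination (l₃ * l₄ * (l₁ * l₂) ^ 2) * g₃)
  rw [q₀, q₁, q₂] at T2
  have h := T2.unique (T1.smul hc₀)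
  rw [t₁, t₂, t₃, t₄]
  exact h

end ht

end UnrH3.Ell
end

section

/-!
# Natural endomorphisms and the multiplicativity of heights
-/

namespace UnrH3.Ell

universe u v w

open Polynomial WeierstrassCurve
open scoped Classical

section comp

variable {S : Type v} [Field S] {W : WeierstrassCurve S} [hE : EllW W] {K : Type u} [Field K]
  [Algebra S K]

/-- The natural endomorphisms of the group of points. -/
noncomputable def natE {S : Type v} [Field S] (W : WeierstrassCurve S) (K : Type u) [Field K]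
    [Algebra S K] :
    Subring (AddMonoid.End (Pt W (FF W K))) :=
  Subring.centralizer {f | ∃ g : FF W K →ₐ[S] FF W K,
    g.comp (base W K) = base W K ∧ f = ptMap g}

omit hE in
lemma mem_natE {φ : AddMonoid.End (Pt W (FF W K))} : φ ∈ natE W K ↔
    ∀ g : FF W K →ₐ[S] FF W K, g.comp (base W K) = base W K →
      ∀ A, ptMap g (φ A) = φ (ptMap g A) := by
  unfold natE
  rw [Subring.mem_centralizer_iff]
  constructor
  · intro h g hg A
    exact congrArg (fun f : AddMonoid.End (Pt W (FF W K)) => f A) (h _ ⟨g, hg, rfl⟩)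
  · rintro h _ ⟨g, hg, rfl⟩
    ext1 A
    exact h g hg A

omit hE in
lemma natEnd_mem (χ : NatEnd.{u} W) {φ : AddMonoid.End (Pt W (FF W K))}
    (hφ : ∀ A, φ A = χ.toFun (FF W K) A) : φ ∈ natE W K := by
  rw [mem_natE]
  intro g _ A
  rw [hφ, hφ]
  exact χ.nat _ _ g A

lemma natE_anti {φ : AddMonoid.End (Pt W (FF W K))} (h : φ ∈ natE W K)
    {A : Pt W (FF W K)} (hA : A ∈ antiG W K) : φ A ∈ antiG W K := by
  rw [mem_antiG, mem_natE.mp h _ nu_base, mem_antiG.mp hA, map_neg]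

/-- A point of positive height is generic. -/
lemma gen_of_ht {A : Pt W (FF W K)} (hA : A ∈ antiG W K) (h : ht A ≠ 0) :
    Gen (base W K) A := by
  obtain ⟨s, hs⟩ := antiG_ptX hA
  rw [ht_eq hs, Ne, rdeg_eq_zero_iff] at h
  have ht := RatFunc.transcendental_of_ne_C s h
  unfold Gen InCl
  rw [mem_cl_range_iff, ← hs]
  rintro ⟨p, hp, hp0⟩
  apply hp
  apply transcendental_iff.mp ht
  apply ratHom_injective (W := W)
  rw [map_zero, ← hp0]
  have h2 : ((base W K : K →ₐ[S] FF W K) : K →+* FF W K) =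
      (ratHom W K).comp (algebraMap K (RatFunc K)) := by
    ext a
    exact (ratHom_algebraMap W K a).symm
  rw [h2, ← Polynomial.hom_eval₂]
  rfl

/-- Heights are multiplicative with respect to composition. -/
theorem ht_comp {φ : AddMonoid.End (Pt W (FF W K))} (hφ : φ ∈ natE W K)
    {A : Pt W (FF W K)} (hA : A ∈ antiG W K) (h : ht A ≠ 0) :
    ht (φ A) = ht (φ (gpt W K)) * ht A := by
  have hgen := gen_of_ht hA h
  obtain ⟨s, hs⟩ := antiG_ptX hA
  have h' := h
  rw [ht_eq hs, Ne, rdeg_eq_zero_iff] at h'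
  obtain ⟨θ, hθ⟩ := exists_subst h'
  obtain ⟨r, hr⟩ := antiG_ptX (natE_anti hφ (gpt_mem_antiG (W := W) (K := K)))
  set g := liftPt (base W K) A hgen with hg
  have hgP : ptMap g (gpt W K) = A := liftPt_gpt _ _ _
  have hgb : g.comp (base W K) = base W K := liftPt_base _ _ _
  have h1 : φ A = ptMap g (φ (gpt W K)) := by
    rw [mem_natE.mp hφ g hgb, hgP]
  have h2 : (g : FF W K →+* FF W K).comp (ratHom W K) =
      (ratHom W K).comp (θ : RatFunc K →+* RatFunc K) := by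
    apply IsLocalization.ringHom_ext (nonZeroDivisors K[X])
    apply Polynomial.ringHom_ext
    · intro a
      simp only [RingHom.comp_apply, RingHom.coe_coe]
      rw [← algebraMap_ratFunc_eq, ratHom_algebraMap, AlgHom.commutes, ratHom_algebraMap]
      exact congrArg (fun f : K →ₐ[S] FF W K => f a) hgb
    · simp only [RingHom.comp_apply, RingHom.coe_coe]
      rw [RatFunc.algebraMap_X, hθ, hs]
      exact liftPt_gx _ _ _
  have h3 : ratHom W K (θ r) = ptX (φ A) := by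
    rw [h1, ptX_map, ← hr]
    exact (congrArg (fun f : RatFunc K →+* FF W K => f r) h2).symm
  rw [ht_eq h3, rdeg_comp, hθ, ← ht_eq hs, ← ht_eq hr]

lemma ht_int_parallelogram (a b : antiG W K) :
    (ht (a + b : Pt W (FF W K)) : ℤ) + ht (a - b : Pt W (FF W K)) =
      2 * (ht (a : Pt W (FF W K)) + ht (b : Pt W (FF W K))) := by
  exact_mod_cast ht_parallelogram a.2 b.2

end comp

end UnrH3.Ell
end

section

/-!
# The height of a point and the parallelogram law
-/

namespace UnrH3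

universe u v w

open Polynomial WeierstrassCurve
open scoped Classical

section ht

variable {S : Type v} [Field S] [hG : GoodW (Wi S)] {K : Type u} [Field K] [Algebra S K]

lemma two_ne_zero_of_good : (2 : S) ≠ 0 := by
  rcases hG.out with h | h | h
  · exact h
  · exact absurd rfl h
  · exact absurd rfl h

lemma two_ne_zero_alg (Ω : Type w) [Field Ω] [Algebra S Ω] : (2 : Ω) ≠ 0 := by
  intro h
  apply two_ne_zero_of_good (S := S)
  apply (algebraMap S Ω).injective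
  rw [map_ofNat, map_zero]; exact h

/-- The points that change sign under the involution. -/
def antiG (S : Type v) [Field S] [GoodW (Wi S)] (K : Type u) [Field K] [Algebra S K] :
    AddSubgroup (Pt (Wi S) (FF (Wi S) K)) where
  carrier := {A | ptMap (nu (Wi S) K) A = -A}
  zero_mem' := by
    change ptMap (nu (Wi S) K) 0 = -0
    rw [map_zero, neg_zero]
  add_mem' := by
    intro A B hA hB
    change ptMap (nu (Wi S) K) (A + B) = -(A + B)
    rw [map_add, hA, hB, neg_add]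
  neg_mem' := by
    intro A hA
    change ptMap (nu (Wi S) K) (-A) = - -A
    rw [map_neg, hA]

lemma mem_antiG {A : Pt (Wi S) (FF (Wi S) K)} :
    A ∈ antiG S K ↔ ptMap (nu (Wi S) K) A = -A := Iff.rfl

lemma gpt_mem_antiG : gpt (Wi S) K ∈ antiG S K := liftPt_gpt _ _ _

omit hG in
lemma ratHom_injective : Function.Injective (ratHom (Wi S) K) := (ratHom (Wi S) K).injective

lemma Wi_nu_gy : nu (Wi S) K (gy (Wi S) K) = -gy (Wi S) K := by
  rw [nu_gy, Wi_negY]

lemma nu_rat (r : RatFunc K) : nu (Wi S) K (ratHom (Wi S) K r) = ratHom (Wi S) K r :=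
  congrArg (fun f : RatFunc K →+* FF (Wi S) K => f r) nu_ratHom

omit hG in
lemma gy_ne_zero : gy (Wi S) K ≠ 0 := by
  intro h
  apply (isQuad_gy (Wi S) K).not_mem 0
  rw [h, map_zero]

lemma gy_sq : gy (Wi S) K ^ 2 = gx (Wi S) K ^ 3 - gx (Wi S) K := Wi_eq (gx_gy_nonsingular (Wi S) K)

lemma exists_rat {z : FF (Wi S) K} (h : nu (Wi S) K z = z) : ∃ r, ratHom (Wi S) K r = z := by
  obtain ⟨a, b, rfl⟩ := (isQuad_gy (Wi S) K).span z
  rw [map_add, map_mul, nu_rat, nu_rat, Wi_nu_gy] at h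
  have h2 := two_ne_zero_alg (S := S) (FF (Wi S) K)
  have h3 : 2 * (ratHom (Wi S) K b * gy (Wi S) K) = 0 := by linear_combination -h
  have h4 := (mul_eq_zero.mp h3).resolve_left h2
  exact ⟨a, by rw [h4, add_zero]⟩

lemma exists_rat_mul {z : FF (Wi S) K} (h : nu (Wi S) K z = -z) :
    ∃ r, z = ratHom (Wi S) K r * gy (Wi S) K := by
  obtain ⟨a, b, rfl⟩ := (isQuad_gy (Wi S) K).span z
  rw [map_add, map_mul, nu_rat, nu_rat, Wi_nu_gy] at h
  have h2 := two_ne_zero_alg (S := S) (FF (Wi S) K)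
  have h3 : 2 * ratHom (Wi S) K a = 0 := by linear_combination h
  have h4 := (mul_eq_zero.mp h3).resolve_left h2
  exact ⟨b, by rw [h4, zero_add]⟩

lemma antiG_ptX {A : Pt (Wi S) (FF (Wi S) K)} (hA : A ∈ antiG S K) :
    ∃ r, ratHom (Wi S) K r = ptX A := by
  apply exists_rat
  rw [← ptX_map, mem_antiG.mp hA, ptX_neg]

lemma antiG_ptY {A : Pt (Wi S) (FF (Wi S) K)} (hA : A ∈ antiG S K) :
    ∃ r, ptY A = ratHom (Wi S) K r * gy (Wi S) K := by
  apply exists_rat_mul
  rw [← ptY_map, mem_antiG.mp hA, Wi_ptY_neg]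

/-- The height of a point. -/
noncomputable def ht (A : Pt (Wi S) (FF (Wi S) K)) : ℕ :=
  if h : ∃ r, ratHom (Wi S) K r = ptX A then rdeg h.choose else 0

omit hG in
lemma ht_eq {A : Pt (Wi S) (FF (Wi S) K)} {r : RatFunc K} (h : ratHom (Wi S) K r = ptX A) :
    ht A = rdeg r := by
  have h1 : ∃ r, ratHom (Wi S) K r = ptX A := ⟨r, h⟩
  rw [ht, dif_pos h1]
  congr 1
  apply ratHom_injective (S := S)
  rw [h1.choose_spec, h]

lemma ht_zero : ht (0 : Pt (Wi S) (FF (Wi S) K)) = 0 := by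
  rw [ht_eq (r := RatFunc.C 0) (by rw [map_zero, map_zero]; rfl), rdeg_C]

lemma ht_gpt : ht (gpt (Wi S) K) = 1 := by
  rw [ht_eq (r := RatFunc.X) rfl, rdeg_X]

/-- The inclusion of polynomials in the function field. -/
noncomputable def polHom (S : Type v) [Field S] (K : Type u) [Field K] [Algebra S K] :
    K[X] →+* FF (Wi S) K := (ratHom (Wi S) K).comp (algebraMap K[X] (RatFunc K))

omit hG in
lemma polHom_injective : Function.Injective (polHom S K) := by
  intro a b h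
  exact RatFunc.algebraMap_injective K (ratHom_injective (S := S) h)

lemma exists_coord {A : Pt (Wi S) (FF (Wi S) K)} (hA : A ∈ antiG S K) :
    ∃ a b : K[X], IsCoprime a b ∧ ht A = max a.natDegree b.natDegree ∧
      ∃ l : FF (Wi S) K, l ≠ 0 ∧ polHom S K a = l * hX A ∧ polHom S K b = l * hZ A := by
  by_cases h0 : A = 0
  · subst h0
    refine ⟨1, 0, isCoprime_one_left, ?_, 1, one_ne_zero, ?_, ?_⟩
    · rw [ht_zero]; simp
    · rw [hX_zero, map_one, one_mul]
    · rw [hZ_zero, map_zero, one_mul]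
  · obtain ⟨r, hr⟩ := antiG_ptX hA
    have hd : algebraMap K[X] (RatFunc K) r.denom ≠ 0 := RatFunc.algebraMap_ne_zero r.denom_ne_zero
    refine ⟨r.num, r.denom, r.isCoprime_num_denom, ?_, polHom S K r.denom, ?_, ?_, ?_⟩
    · rw [ht_eq hr]; rfl
    · exact fun h => hd (ratHom_injective (by rw [map_zero]; exact h))
    · rw [hX_ne h0, ← hr]
      change ratHom _ _ _ = ratHom _ _ _ * _
      rw [← map_mul]
      congr 1
      have h1 := RatFunc.num_div_denom r
      rw [div_eq_iff hd] at h1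
      rw [h1, mul_comm]
    · rw [hZ_ne h0, mul_one]

theorem ht_parallelogram {A B : Pt (Wi S) (FF (Wi S) K)} (hA : A ∈ antiG S K)
    (hB : B ∈ antiG S K) : ht (A + B) + ht (A - B) = 2 * (ht A + ht B) := by
  have h2K : (2 : K) ≠ 0 := two_ne_zero_alg (S := S) K
  obtain ⟨a₁, b₁, c₁, t₁, l₁, n₁, e₁, f₁⟩ := exists_coord hA
  obtain ⟨a₂, b₂, c₂, t₂, l₂, n₂, e₂, f₂⟩ := exists_coord hB
  obtain ⟨a₃, b₃, c₃, t₃, l₃, n₃, e₃, f₃⟩ := exists_coord (add_mem hA hB)
  obtain ⟨a₄, b₄, c₄, t₄, l₄, n₄, e₄, f₄⟩ := exists_coord (sub_mem hA hB)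
  obtain ⟨c, hc, g₁, g₂, g₃⟩ := projRel (S := S) (two_ne_zero_alg (S := S) (FF (Wi S) K)) A B
  have hw := prim3_sym c₁ c₂
  have hv := prim3_sym c₃ c₄
  have hw' := hw.dup h2K
  have T1 := (top3_sym c₁ c₂).dup h2K
  have T2 := top3_sym c₃ c₄
  obtain ⟨c₀, hc₀, q₀, q₁, q₂⟩ := hv.eq_of_prop hw' (polHom S K) polHom_injective
    (c := c * (l₃ * l₄) / (l₁ * l₂) ^ 2)
    (by
      simp only [map_mul, map_sub, map_pow, map_add, map_ofNat, e₁, e₂, f₁, f₂, f₃, f₄]
      rw [div_mul_eq_mul_div, eq_div_iff (pow_ne_zero 2 (mul_ne_zero n₁ n₂))]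
      linear_combination (l₃ * l₄ * (l₁ * l₂) ^ 2) * g₁)
    (by
      simp only [map_mul, map_sub, map_add, map_ofNat, e₁, e₂, e₃, e₄, f₁, f₂, f₃, f₄]
      rw [div_mul_eq_mul_div, eq_div_iff (pow_ne_zero 2 (mul_ne_zero n₁ n₂))]
      linear_combination (l₃ * l₄ * (l₁ * l₂) ^ 2) * g₂)
    (by
      simp only [map_mul, map_pow, map_add, e₁, e₂, e₃, e₄, f₁, f₂]
      rw [div_mul_eq_mul_div, eq_div_iff (pow_ne_zero 2 (mul_ne_zero n₁ n₂))]
      linear_combination (l₃ * l₄ * (l₁ * l₂) ^ 2) * g₃)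
  rw [q₀, q₁, q₂] at T2
  have h := T2.unique (T1.smul hc₀)
  rw [t₁, t₂, t₃, t₄]
  exact h

end ht

end UnrH3
end

section

/-!
# Quadratic forms from the parallelogram law, and composition
-/

namespace UnrH3

universe u v w

open Polynomial WeierstrassCurve
open scoped Classical

section quad

variable {G : Type u} [AddCommGroup G] {q : G → ℤ}
  (hq : ∀ a b, q (a + b) + q (a - b) = 2 * (q a + q b))

include hq

lemma q_zero : q 0 = 0 := by
  have := hq 0 0
  rw [add_zero, sub_zero] at this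
  omega

lemma q_neg (a : G) : q (-a) = q a := by
  have h1 := hq 0 a
  rw [zero_add, zero_sub, q_zero hq] at h1
  omega

lemma q_add3 (x y z : G) :
    q (x + y + z) = q (x + y) + q (x + z) + q (y + z) - q x - q y - q z := by
  have h1 := hq (x + y) z
  have h2 := hq (x - z) y
  have h3 := hq x (y + z)
  have h4 := hq x z
  have e1 : x - z + y = x + y - z := by abel
  have e2 : x - z - y = x - (y + z) := by abel
  have e3 : x + (y + z) = x + y + z := by abel
  rw [e1, e2] at h2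
  rw [e3] at h3
  omega

/-- The polar form. -/
def pol (q : G → ℤ) (a b : G) : ℤ := q (a + b) - q a - q b

omit hq in
lemma pol_comm (a b : G) : pol q a b = pol q b a := by
  unfold pol
  rw [add_comm]; ring

lemma pol_add_left (a a' b : G) : pol q (a + a') b = pol q a b + pol q a' b := by
  unfold pol
  rw [q_add3 hq]; ring

lemma pol_add_right (a b b' : G) : pol q a (b + b') = pol q a b + pol q a b' := by
  rw [pol_comm, pol_add_left hq, pol_comm b, pol_comm b']

/-- The polar form as a homomorphism. -/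
def polL (b : G) : G →+ ℤ := AddMonoidHom.mk' (fun a => pol q a b)
  (fun a a' => pol_add_left hq a a' b)

lemma pol_zsmul_left (n : ℤ) (a b : G) : pol q (n • a) b = n * pol q a b := by
  have := map_zsmul (polL hq b) n a
  exact this

lemma pol_neg_left (a b : G) : pol q (-a) b = - pol q a b := map_neg (polL hq b) a

lemma pol_sub_left (a a' b : G) : pol q (a - a') b = pol q a b - pol q a' b :=
  map_sub (polL hq b) a a'

lemma pol_zsmul_right (n : ℤ) (a b : G) : pol q a (n • b) = n * pol q a b := by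
  rw [pol_comm, pol_zsmul_left hq, pol_comm]

lemma pol_neg_right (a b : G) : pol q a (-b) = - pol q a b := by
  rw [pol_comm, pol_neg_left hq, pol_comm]

lemma pol_self (a : G) : pol q a a = 2 * q a := by
  have h1 := hq a a
  rw [sub_self, q_zero hq] at h1
  unfold pol
  omega

lemma q_zsmul (n : ℤ) (a : G) : q (n • a) = n ^ 2 * q a := by
  have h1 := pol_self hq (n • a)
  rw [pol_zsmul_left hq, pol_zsmul_right hq, pol_self hq] at h1
  have h2 : 2 * (n ^ 2 * q a) = 2 * q (n • a) := by rw [← h1]; ring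
  omega

omit hq in
lemma q_add (a b : G) : q (a + b) = q a + q b + pol q a b := by
  unfold pol; ring

lemma q_sub (a b : G) : q (a - b) = q a + q b - pol q a b := by
  rw [sub_eq_add_neg, q_add (q := q), q_neg hq, pol_neg_right hq]; ring

end quad

section comp

variable {S : Type v} [Field S] [hG : GoodW (Wi S)] {K : Type u} [Field K] [Algebra S K]

/-- The natural endomorphisms of the group of points. -/
noncomputable def natE (S : Type v) [Field S] (K : Type u) [Field K] [Algebra S K] :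
    Subring (AddMonoid.End (Pt (Wi S) (FF (Wi S) K))) :=
  Subring.centralizer {f | ∃ g : FF (Wi S) K →ₐ[S] FF (Wi S) K,
    g.comp (base (Wi S) K) = base (Wi S) K ∧ f = ptMap g}

omit hG in
lemma mem_natE {φ : AddMonoid.End (Pt (Wi S) (FF (Wi S) K))} : φ ∈ natE S K ↔
    ∀ g : FF (Wi S) K →ₐ[S] FF (Wi S) K, g.comp (base (Wi S) K) = base (Wi S) K →
      ∀ A, ptMap g (φ A) = φ (ptMap g A) := by
  unfold natE
  rw [Subring.mem_centralizer_iff]
  constructor
  · intro h g hg A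
    exact congrArg (fun f : AddMonoid.End (Pt (Wi S) (FF (Wi S) K)) => f A) (h _ ⟨g, hg, rfl⟩)
  · rintro h _ ⟨g, hg, rfl⟩
    ext1 A
    exact h g hg A

omit hG in
lemma natEnd_mem (χ : NatEnd.{u} (Wi S)) {φ : AddMonoid.End (Pt (Wi S) (FF (Wi S) K))}
    (hφ : ∀ A, φ A = χ.toFun (FF (Wi S) K) A) : φ ∈ natE S K := by
  rw [mem_natE]
  intro g _ A
  rw [hφ, hφ]
  exact χ.nat _ _ g A

lemma natE_anti {φ : AddMonoid.End (Pt (Wi S) (FF (Wi S) K))} (h : φ ∈ natE S K)
    {A : Pt (Wi S) (FF (Wi S) K)} (hA : A ∈ antiG S K) : φ A ∈ antiG S K := by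
  rw [mem_antiG, mem_natE.mp h _ nu_base, mem_antiG.mp hA, map_neg]

/-- A point of positive height is generic. -/
lemma gen_of_ht {A : Pt (Wi S) (FF (Wi S) K)} (hA : A ∈ antiG S K) (h : ht A ≠ 0) :
    Gen (base (Wi S) K) A := by
  obtain ⟨s, hs⟩ := antiG_ptX hA
  rw [ht_eq hs, Ne, rdeg_eq_zero_iff] at h
  have ht := RatFunc.transcendental_of_ne_C s h
  unfold Gen InCl
  rw [mem_cl_range_iff, ← hs]
  rintro ⟨p, hp, hp0⟩
  apply hp
  apply transcendental_iff.mp ht
  apply ratHom_injective (S := S)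
  rw [map_zero, ← hp0]
  have h2 : ((base (Wi S) K : K →ₐ[S] FF (Wi S) K) : K →+* FF (Wi S) K) =
      (ratHom (Wi S) K).comp (algebraMap K (RatFunc K)) := by
    ext a
    exact (ratHom_algebraMap (Wi S) K a).symm
  rw [h2, ← Polynomial.hom_eval₂]
  rfl

/-- Heights are multiplicative with respect to composition. -/
theorem ht_comp {φ : AddMonoid.End (Pt (Wi S) (FF (Wi S) K))} (hφ : φ ∈ natE S K)
    {A : Pt (Wi S) (FF (Wi S) K)} (hA : A ∈ antiG S K) (h : ht A ≠ 0) :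
    ht (φ A) = ht (φ (gpt (Wi S) K)) * ht A := by
  have hgen := gen_of_ht hA h
  obtain ⟨s, hs⟩ := antiG_ptX hA
  have h' := h
  rw [ht_eq hs, Ne, rdeg_eq_zero_iff] at h'
  obtain ⟨θ, hθ⟩ := exists_subst h'
  obtain ⟨r, hr⟩ := antiG_ptX (natE_anti hφ (gpt_mem_antiG (S := S) (K := K)))
  set g := liftPt (base (Wi S) K) A hgen with hg
  have hgP : ptMap g (gpt (Wi S) K) = A := liftPt_gpt _ _ _
  have hgb : g.comp (base (Wi S) K) = base (Wi S) K := liftPt_base _ _ _
  have h1 : φ A = ptMap g (φ (gpt (Wi S) K)) := by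
    rw [mem_natE.mp hφ g hgb, hgP]
  have h2 : (g : FF (Wi S) K →+* FF (Wi S) K).comp (ratHom (Wi S) K) =
      (ratHom (Wi S) K).comp (θ : RatFunc K →+* RatFunc K) := by
    apply IsLocalization.ringHom_ext (nonZeroDivisors K[X])
    apply Polynomial.ringHom_ext
    · intro a
      simp only [RingHom.comp_apply, RingHom.coe_coe]
      rw [← algebraMap_ratFunc_eq, ratHom_algebraMap, AlgHom.commutes, ratHom_algebraMap]
      exact congrArg (fun f : K →ₐ[S] FF (Wi S) K => f a) hgb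
    · simp only [RingHom.comp_apply, RingHom.coe_coe]
      rw [RatFunc.algebraMap_X, hθ, hs]
      exact liftPt_gx _ _ _
  have h3 : ratHom (Wi S) K (θ r) = ptX (φ A) := by
    rw [h1, ptX_map, ← hr]
    exact (congrArg (fun f : RatFunc K →+* FF (Wi S) K => f r) h2).symm
  rw [ht_eq h3, rdeg_comp, hθ, ← ht_eq hs, ← ht_eq hr]

lemma ht_int_parallelogram (a b : antiG S K) :
    (ht (a + b : Pt (Wi S) (FF (Wi S) K)) : ℤ) + ht (a - b : Pt (Wi S) (FF (Wi S) K)) =
      2 * (ht (a : Pt (Wi S) (FF (Wi S) K)) + ht (b : Pt (Wi S) (FF (Wi S) K))) := by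
  exact_mod_cast ht_parallelogram a.2 b.2

end comp

end UnrH3
end

section

/-!
# The characteristic equation of the Frobenius endomorphism
-/

namespace UnrH3.Ell

universe u v w

open Polynomial WeierstrassCurve
open scoped Classical

section zero

variable {S : Type v} [Field S] {W : WeierstrassCurve S} [hE : EllW W] {K : Type u} [Field K]
  [Algebra S K]

/-- The polynomial `x³ + a₂ x² + a₄ x + a₆`. -/
noncomputable def fP {S : Type v} [Field S] (W : WeierstrassCurve S) (K : Type u) [Field K]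
    [Algebra S K] : K[X] :=
  X ^ 3 + C (W⁄K).a₂ * X ^ 2 + C (W⁄K).a₄ * X + C (W⁄K).a₆

omit hE in
lemma fP_natDegree : (fP W K).natDegree = 3 := by
  unfold fP
  compute_degree!

omit hE in
lemma fP_monic : (fP W K).Monic := by
  unfold fP
  monicity!

omit hE in
lemma polHom_C (c : K) : polHom W K (C c) = base W K c := by
  change ratHom W K (algebraMap K[X] (RatFunc K) (C c)) = _
  rw [← algebraMap_ratFunc_eq, ratHom_algebraMap]

omit hE in
lemma polHom_X : polHom W K X = gx W K := by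
  change ratHom W K (algebraMap K[X] (RatFunc K) X) = _
  rw [RatFunc.algebraMap_X]; rfl

omit hE in
lemma base_a₂ : base W K (W⁄K).a₂ = (W⁄(FF W K)).a₂ := (base W K).commutes W.a₂
omit hE in
lemma base_a₄ : base W K (W⁄K).a₄ = (W⁄(FF W K)).a₄ := (base W K).commutes W.a₄
omit hE in
lemma base_a₆ : base W K (W⁄K).a₆ = (W⁄(FF W K)).a₆ := (base W K).commutes W.a₆

lemma polHom_fP : polHom W K (fP W K) = gy W K ^ 2 := by
  rw [gy_sq]
  unfold fP
  simp only [map_add, map_mul, map_pow, polHom_C, polHom_X, base_a₂, base_a₄, base_a₆]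

omit hE in
lemma no_square (r : RatFunc K) (c : K)
    (h : r ^ 2 * algebraMap K[X] (RatFunc K) (fP W K) = RatFunc.C c) : r = 0 := by
  by_contra hr
  have hX0 : fP W K ≠ 0 := fP_monic.ne_zero
  have hX0' : algebraMap K[X] (RatFunc K) (fP W K) ≠ 0 := RatFunc.algebraMap_ne_zero hX0
  have h1 := congrArg RatFunc.intDegree h
  rw [RatFunc.intDegree_mul (pow_ne_zero 2 hr) hX0', RatFunc.intDegree_C,
    RatFunc.intDegree_polynomial, fP_natDegree, sq, RatFunc.intDegree_mul hr hr] at h1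
  push_cast at h1
  omega

lemma const_of_ht_zero {A : Pt W (FF W K)} (hA : A ∈ antiG W K) (h : ht A = 0)
    (h0 : A ≠ 0) : ∃ c : K, ptX A = base W K c ∧ ptY A = 0 := by
  obtain ⟨r, hr⟩ := antiG_ptX hA
  obtain ⟨r', hr'⟩ := antiG_ptY hA
  rw [ht_eq hr, rdeg_eq_zero_iff] at h
  obtain ⟨c, rfl⟩ := h
  have h1 := pt_eq h0
  rw [hr', ← hr] at h1
  have hc : ratHom W K (RatFunc.C c) = base W K c := by
    rw [← ratHom_algebraMap]; rfl
  have h2 : r' ^ 2 * algebraMap K[X] (RatFunc K) (fP W K) =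
      RatFunc.C (c ^ 3 + (W⁄K).a₂ * c ^ 2 + (W⁄K).a₄ * c + (W⁄K).a₆) := by
    apply ratHom_injective (W := W)
    have h3 := polHom_fP (W := W) (K := K)
    change ratHom W K (algebraMap K[X] (RatFunc K) (fP W K)) = _ at h3
    have hC : ∀ c : K, ratHom W K (RatFunc.C c) = base W K c := fun c => by
      rw [← ratHom_algebraMap]; rfl
    rw [map_mul, map_pow, h3, ← mul_pow, h1, hC, hC]
    simp only [map_add, map_mul, map_pow, base_a₂, base_a₄, base_a₆]
  refine ⟨c, ?_, ?_⟩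
  · rw [← hr, hc]
  · rw [hr', no_square r' _ h2, map_zero, zero_mul]

/-- A natural endomorphism of height zero vanishes at the generic point. -/
theorem eq_zero_of_ht {φ : AddMonoid.End (Pt W (FF W K))} (hφ : φ ∈ natE W K)
    (h : ht (φ (gpt W K)) = 0) : φ (gpt W K) = 0 := by
  by_contra h0
  set P := gpt W K with hP
  have hPG : P ∈ antiG W K := gpt_mem_antiG
  have hA := natE_anti hφ hPG
  obtain ⟨c, hc, hc'⟩ := const_of_ht_zero hA h h0
  have h2 : ht (P + P) ≠ 0 := by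
    have h3 := ht_parallelogram hPG hPG
    rw [sub_self, ht_zero, ht_gpt] at h3
    omega
  have hgen := gen_of_ht (add_mem hPG hPG) h2
  set g := liftPt (base W K) (P + P) hgen with hg
  have hgP : ptMap g P = P + P := liftPt_gpt _ _ _
  have hgb : g.comp (base W K) = base W K := liftPt_base _ _ _
  have h3 : ptMap g (φ P) = φ P := by
    apply pt_ext
    · intro h4
      apply h0
      have h5 := congrArg ptX h4
      rcases hQ : φ P with _ | ⟨x, y, hxy⟩
      · rfl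
      · rw [hQ] at h4
        exact absurd h4 (Affine.Point.some_ne_zero _)
    · exact h0
    · rw [ptX_map, hc]
      exact congrArg (fun f : K →ₐ[S] FF W K => f c) hgb
    · rw [ptY_map, hc', map_zero]
  have h4 := mem_natE.mp hφ g hgb P
  rw [h3, hgP, map_add] at h4
  apply h0
  exact add_eq_left.mp h4.symm

end zero

section frob

variable {S : Type v} [Field S] {W : WeierstrassCurve S} [hE : EllW W] {p : ℕ}
  [hp : Fact p.Prime] [hS : CharP S p] {s : ℕ}
  (hW : ∀ x ∈ ({W.a₁, W.a₂, W.a₃, W.a₄, W.a₆} : Set S), x ^ p ^ s = x)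
  {K : Type u} [Field K] [Algebra S K]

omit hE in
include hW in
lemma fr_ptX {Ω : Type u} [Field Ω] [Algebra S Ω] (A : Pt W Ω) :
    ptX ((frobEnd W p s hW).toFun Ω A) = ptX A ^ p ^ s := by
  rcases A with _ | ⟨x, y, h⟩
  · exact (zero_pow (pow_pos hp.out.pos s).ne').symm
  · obtain ⟨h', e'⟩ := frobEnd_some W p s hW h
    rw [e']; rfl

omit hE in
include hW in
lemma fr_ptY {Ω : Type u} [Field Ω] [Algebra S Ω] (A : Pt W Ω) :
    ptY ((frobEnd W p s hW).toFun Ω A) = ptY A ^ p ^ s := by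
  rcases A with _ | ⟨x, y, h⟩
  · exact (zero_pow (pow_pos hp.out.pos s).ne').symm
  · obtain ⟨h', e'⟩ := frobEnd_some W p s hW h
    rw [e']; rfl

omit hE in
include hW in
lemma fr_ne_zero {Ω : Type u} [Field Ω] [Algebra S Ω] {A : Pt W Ω} (h : A ≠ 0) :
    (frobEnd W p s hW).toFun Ω A ≠ 0 := by
  rcases A with _ | ⟨x, y, h'⟩
  · exact absurd rfl h
  · obtain ⟨h'', e'⟩ := frobEnd_some W p s hW h'
    rw [e']
    exact Affine.Point.some_ne_zero _

include hW in
lemma ht_fr {A : Pt W (FF W K)} (hA : A ∈ antiG W K) :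
    ht ((frobEnd W p s hW).toFun _ A) = p ^ s * ht A := by
  obtain ⟨r, hr⟩ := antiG_ptX hA
  rw [ht_eq (r := r ^ p ^ s) (by rw [map_pow, hr, fr_ptX]), ht_eq hr, rdeg_pow]

/-- The trace of the Frobenius endomorphism. -/
noncomputable def tr (K : Type u) [Field K] [Algebra S K] : ℤ :=
  (p : ℤ) ^ s + 1 - ht ((frobEnd W p s hW).toFun _ (gpt W K) - gpt W K)

/-- The characteristic equation of the Frobenius endomorphism. -/
theorem frob_char (hs : 0 < s) :
    tr hW K ^ 2 ≤ 4 * (p : ℤ) ^ s ∧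
    (frobEnd W p s hW).toFun _ ((frobEnd W p s hW).toFun _ (gpt W K)) -
      tr hW K • (frobEnd W p s hW).toFun _ (gpt W K) + ((p : ℤ) ^ s) • gpt W K = 0 := by
  set P := gpt W K with hP
  have hPG : P ∈ antiG W K := gpt_mem_antiG
  obtain ⟨Q, hQ⟩ : ∃ Q : ℤ, Q = (p : ℤ) ^ s := ⟨_, rfl⟩
  have hQ1 : 1 < Q := by
    rw [hQ]
    exact_mod_cast Nat.one_lt_pow hs.ne' hp.out.one_lt
  obtain ⟨F, hF⟩ : ∃ F : AddMonoid.End (Pt W (FF W K)),
      ∀ A, F A = (frobEnd W p s hW).toFun _ A := ⟨(frobEnd W p s hW).toFun _, fun _ => rfl⟩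
  have hFn : F ∈ natE W K := natEnd_mem _ hF
  have hFh : ∀ A ∈ antiG W K, ht (F A) = p ^ s * ht A := fun A hA => by
    rw [hF, ht_fr hW hA]
  -- the quadratic form
  obtain ⟨q, hqdef⟩ : ∃ q : antiG W K → ℤ, ∀ a, q a = ht (a : Pt W (FF W K)) :=
    ⟨fun a => ht (a : Pt W (FF W K)), fun _ => rfl⟩
  have hq : ∀ a b, q (a + b) + q (a - b) = 2 * (q a + q b) := by
    intro a b
    rw [hqdef, hqdef, hqdef, hqdef]
    exact ht_int_parallelogram a b
  obtain ⟨ap, hap⟩ : ∃ ap : ∀ φ : AddMonoid.End (Pt W (FF W K)), φ ∈ natE W K →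
      antiG W K → antiG W K, ∀ φ hφ a, (ap φ hφ a : Pt W (FF W K)) = φ a :=
    ⟨fun φ hφ a => ⟨φ a, natE_anti hφ a.2⟩, fun _ _ _ => rfl⟩
  obtain ⟨P', hP'⟩ : ∃ P' : antiG W K, (P' : Pt W (FF W K)) = P := ⟨⟨P, hPG⟩, rfl⟩
  have qP : q P' = 1 := by rw [hqdef, hP', ht_gpt]; rfl
  have qF : ∀ a, q (ap F hFn a) = Q * q a := fun a => by
    rw [hqdef, hqdef, hap, hFh _ a.2, hQ]; push_cast; rfl
  have apadd : ∀ φ hφ a b, ap φ hφ (a + b) = ap φ hφ a + ap φ hφ b := fun φ hφ a b =>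
    Subtype.ext (by rw [hap]; push_cast; rw [map_add, hap, hap])
  have pF : ∀ a b, pol q (ap F hFn a) (ap F hFn b) = Q * pol q a b := by
    intro a b
    unfold pol
    rw [← apadd, qF, qF, qF]; ring
  obtain ⟨f, hf⟩ : ∃ f, f = ap F hFn P' := ⟨_, rfl⟩
  obtain ⟨g, hg⟩ : ∃ g, g = ap F hFn f := ⟨_, rfl⟩
  have qf : q f = Q := by rw [hf, qF, qP, mul_one]
  have qg : q g = Q ^ 2 := by rw [hg, qF, qf]; ring
  have hfP : (f : Pt W (FF W K)) = F P := by rw [hf, hap, hP']
  have hgP : (g : Pt W (FF W K)) = F (F P) := by rw [hg, hap, hfP]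
  obtain ⟨t, ht'⟩ : ∃ t, t = tr hW K := ⟨_, rfl⟩
  rw [← ht', ← hQ]
  have qfP : q (f - P') = 1 + Q - t := by
    rw [hqdef, ht', hQ]
    push_cast
    rw [hfP, hP', hF]
    unfold tr
    rw [← hP]; ring
  have pfP : pol q f P' = t := by
    have h1 := q_sub hq f P'
    rw [qfP, qf, qP] at h1
    linarith
  have pgf : pol q g f = Q * t := by
    have h1 := pF f P'
    rw [← hf, ← hg, pfP] at h1
    exact h1
  -- the bound
  have hbound : t ^ 2 ≤ 4 * Q := by
    have h1 : 0 ≤ q ((2 : ℤ) • f - t • P') := by rw [hqdef]; positivity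
    rw [q_sub hq, q_zsmul hq, q_zsmul hq, pol_zsmul_left hq, pol_zsmul_right hq, qf, qP, pfP] at h1
    linarith
  refine ⟨hbound, ?_⟩
  -- composition
  have hcomp : ∀ φ (hφ : φ ∈ natE W K) (a : antiG W K), q a ≠ 0 →
      q (ap φ hφ a) = q (ap φ hφ P') * q a := by
    intro φ hφ a ha
    rw [hqdef] at ha
    have h1 := ht_comp hφ a.2 (by exact_mod_cast ha)
    rw [hqdef, hqdef, hqdef, hap, hap, h1, hP']
    push_cast; rfl
  have hne : q (P' - f) ≠ 0 := by
    intro h0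
    have h1 := q_sub hq P' f
    rw [h0, qf, qP, pol_comm, pfP] at h1
    have h2 : t = 1 + Q := by linarith
    rw [h2] at hbound
    nlinarith
  have pgP : pol q g P' = t ^ 2 - 2 * Q := by
    have h1 := hcomp (1 + F) (add_mem (one_mem _) hFn) (P' - f) hne
    have h2 : ap (1 + F) (add_mem (one_mem _) hFn) (P' - f) = P' - g := by
      apply Subtype.ext
      rw [hap]
      push_cast
      rw [hP', hfP, hgP]
      change (P - F P) + F (P - F P) = P - F (F P)
      rw [map_sub]; abel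
    have h3 : ap (1 + F) (add_mem (one_mem _) hFn) P' = P' + f := by
      apply Subtype.ext
      rw [hap]
      push_cast
      rw [hP', hfP]
      rfl
    rw [h2, h3, q_sub hq, q_sub hq, q_add (q := q), pol_comm P' g, pol_comm P' f, pfP, qf, qP,
      qg] at h1
    linarith
  obtain ⟨φ, hφ⟩ : ∃ φ : AddMonoid.End (Pt W (FF W K)), φ = F * F - t • F + Q • 1 := ⟨_, rfl⟩
  have hφn : φ ∈ natE W K := by
    rw [hφ]
    exact add_mem (sub_mem (mul_mem hFn hFn) (zsmul_mem hFn _)) (zsmul_mem (one_mem _) _)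
  have hφA : φ P = F (F P) - t • F P + Q • P := by rw [hφ]; rfl
  have h0 : φ P = 0 := by
    apply eq_zero_of_ht hφn
    have h1 : ap φ hφn P' = g - t • f + Q • P' := by
      apply Subtype.ext
      rw [hap]
      push_cast
      rw [hP', hφA, hfP, hgP]
    have h2 : q (ap φ hφn P') = 0 := by
      rw [h1, q_add (q := q), q_sub hq, q_zsmul hq, q_zsmul hq, pol_sub_left hq,
        pol_zsmul_left hq, pol_zsmul_right hq, pol_zsmul_right hq, pol_zsmul_right hq, qg, qf, qP,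
        pgf, pgP, pfP]
      ring
    rw [hqdef, hap, hP'] at h2
    exact_mod_cast h2
  rw [hφA] at h0
  rw [← hF, ← hF]
  exact h0

end frob

end UnrH3.Ell
end

section

/-!
# Frobenius as a complex multiplication
-/

namespace UnrH3

universe u v w

open Polynomial WeierstrassCurve
open scoped Classical

section zero

variable {S : Type v} [Field S] [hG : GoodW (Wi S)] {K : Type u} [Field K] [Algebra S K]

omit hG in
lemma pt_eq {Ω : Type u} [Field Ω] [Algebra S Ω] {A : Pt (Wi S) Ω} (h0 : A ≠ 0) :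
    ptY A ^ 2 = ptX A ^ 3 - ptX A := by
  rcases A with _ | ⟨x, y, h⟩
  · exact absurd rfl h0
  · exact Wi_eq h

lemma no_square (r : RatFunc K) (c : K)
    (h : r ^ 2 * (RatFunc.X ^ 3 - RatFunc.X) = RatFunc.C c) : r = 0 := by
  by_contra hr
  have hX : (RatFunc.X : RatFunc K) ^ 3 - RatFunc.X = algebraMap K[X] (RatFunc K) (X ^ 3 - X) := by
    rw [map_sub, map_pow, RatFunc.algebraMap_X]
  have hd : (X ^ 3 - X : K[X]).natDegree = 3 := by
    compute_degree!
  have hX0 : (X ^ 3 - X : K[X]) ≠ 0 := by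
    intro h0
    rw [h0, natDegree_zero] at hd
    omega
  have hX0' : (RatFunc.X : RatFunc K) ^ 3 - RatFunc.X ≠ 0 := by
    rw [hX]; exact RatFunc.algebraMap_ne_zero hX0
  have h1 := congrArg RatFunc.intDegree h
  rw [RatFunc.intDegree_mul (pow_ne_zero 2 hr) hX0', RatFunc.intDegree_C, hX,
    RatFunc.intDegree_polynomial, hd, sq, RatFunc.intDegree_mul hr hr] at h1
  push_cast at h1
  omega

lemma const_of_ht_zero {A : Pt (Wi S) (FF (Wi S) K)} (hA : A ∈ antiG S K) (h : ht A = 0)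
    (h0 : A ≠ 0) : ∃ c : K, ptX A = base (Wi S) K c ∧ ptY A = 0 := by
  obtain ⟨r, hr⟩ := antiG_ptX hA
  obtain ⟨r', hr'⟩ := antiG_ptY hA
  rw [ht_eq hr, rdeg_eq_zero_iff] at h
  obtain ⟨c, rfl⟩ := h
  have h1 := pt_eq h0
  rw [hr', ← hr] at h1
  have h2 : r' ^ 2 * (RatFunc.X ^ 3 - RatFunc.X) = RatFunc.C (c ^ 3 - c) := by
    apply ratHom_injective (S := S)
    rw [map_mul, map_pow, map_sub, map_pow, map_sub, map_pow, map_sub, map_pow]
    have h3 := gy_sq (S := S) (K := K)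
    change _ * (gx (Wi S) K ^ 3 - gx (Wi S) K) = _
    rw [← h3, ← h1]; ring
  refine ⟨c, ?_, ?_⟩
  · rw [← hr, ← ratHom_algebraMap]; rfl
  · rw [hr', no_square r' _ h2, map_zero, zero_mul]

/-- A natural endomorphism of height zero vanishes at the generic point. -/
theorem eq_zero_of_ht {φ : AddMonoid.End (Pt (Wi S) (FF (Wi S) K))} (hφ : φ ∈ natE S K)
    (h : ht (φ (gpt (Wi S) K)) = 0) : φ (gpt (Wi S) K) = 0 := by
  by_contra h0
  set P := gpt (Wi S) K with hP
  have hPG : P ∈ antiG S K := gpt_mem_antiG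
  have hA := natE_anti hφ hPG
  obtain ⟨c, hc, hc'⟩ := const_of_ht_zero hA h h0
  have h2 : ht (P + P) ≠ 0 := by
    have h3 := ht_parallelogram hPG hPG
    rw [sub_self, ht_zero, ht_gpt] at h3
    omega
  have hgen := gen_of_ht (add_mem hPG hPG) h2
  set g := liftPt (base (Wi S) K) (P + P) hgen with hg
  have hgP : ptMap g P = P + P := liftPt_gpt _ _ _
  have hgb : g.comp (base (Wi S) K) = base (Wi S) K := liftPt_base _ _ _
  have h3 : ptMap g (φ P) = φ P := by
    apply pt_ext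
    · intro h4
      apply h0
      have h5 := congrArg ptX h4
      rcases hQ : φ P with _ | ⟨x, y, hxy⟩
      · rfl
      · rw [hQ] at h4
        exact absurd h4 (Affine.Point.some_ne_zero _)
    · exact h0
    · rw [ptX_map, hc]
      exact congrArg (fun f : K →ₐ[S] FF (Wi S) K => f c) hgb
    · rw [ptY_map, hc', map_zero]
  have h4 := mem_natE.mp hφ g hgb P
  rw [h3, hgP, map_add] at h4
  apply h0
  exact add_eq_left.mp h4.symm

end zero

section frob

lemma p_ne_two_of_good (S : Type v) [Field S] [GoodW (Wi S)] (p : ℕ) [CharP S p] : p ≠ 2 := by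
  rintro rfl
  apply two_ne_zero_of_good (S := S)
  exact_mod_cast CharP.cast_eq_zero S 2

variable {S : Type v} [Field S] [hG : GoodW (Wi S)] {p : ℕ} [hp : Fact p.Prime] [hS : CharP S p]
  {K : Type u} [Field K] [Algebra S K]

omit hG hS hp in
lemma pow_iota (hp4 : p % 4 = 1) {ι : S} (hι : ι ^ 2 = -1) (s : ℕ) : ι ^ p ^ s = ι := by
  have h1 : p ^ s % 4 = 1 := by
    rw [Nat.pow_mod, hp4, one_pow]; rfl
  obtain ⟨k, hk⟩ : ∃ k, p ^ s = 4 * k + 1 := ⟨p ^ s / 4, by omega⟩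
  rw [hk, pow_succ, pow_mul]
  have h2 : ι ^ 4 = 1 := by linear_combination (ι ^ 2 - 1) * hι
  rw [h2, one_pow, one_mul]

variable (S p) in
/-- The Frobenius endomorphism of the curve `y² = x³ - x`. -/
noncomputable def frW (s : ℕ) : NatEnd.{u} (Wi S) :=
  frobEnd (Wi S) p s (Wi_frob (S := S) (p := p) s (p_ne_two_of_good S p))

lemma frW_ptX (s : ℕ) {Ω : Type u} [Field Ω] [Algebra S Ω] (A : Pt (Wi S) Ω) :
    ptX ((frW S p s).toFun Ω A) = ptX A ^ p ^ s := by
  rcases A with _ | ⟨x, y, h⟩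
  · exact (zero_pow (pow_pos hp.out.pos s).ne').symm
  · obtain ⟨h', e'⟩ := frobEnd_some (Wi S) p s
      (Wi_frob (S := S) (p := p) s (p_ne_two_of_good S p)) h
    rw [frW, e']; rfl

lemma frW_ptY (s : ℕ) {Ω : Type u} [Field Ω] [Algebra S Ω] (A : Pt (Wi S) Ω) :
    ptY ((frW S p s).toFun Ω A) = ptY A ^ p ^ s := by
  rcases A with _ | ⟨x, y, h⟩
  · exact (zero_pow (pow_pos hp.out.pos s).ne').symm
  · obtain ⟨h', e'⟩ := frobEnd_some (Wi S) p s
      (Wi_frob (S := S) (p := p) s (p_ne_two_of_good S p)) h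
    rw [frW, e']; rfl

lemma frW_ne_zero (s : ℕ) {Ω : Type u} [Field Ω] [Algebra S Ω] {A : Pt (Wi S) Ω} (h : A ≠ 0) :
    (frW S p s).toFun Ω A ≠ 0 := by
  rcases A with _ | ⟨x, y, h'⟩
  · exact absurd rfl h
  · obtain ⟨h'', e'⟩ := frobEnd_some (Wi S) p s
      (Wi_frob (S := S) (p := p) s (p_ne_two_of_good S p)) h'
    rw [frW, e']
    exact Affine.Point.some_ne_zero _

omit hG in
lemma cmI_ne_zero {ι : S} (hι : ι ^ 2 = -1) {Ω : Type u} [Field Ω] [Algebra S Ω]
    {A : Pt (Wi S) Ω} (h : A ≠ 0) : (cmI hι).toFun Ω A ≠ 0 := by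
  rcases A with _ | ⟨x, y, h'⟩
  · exact absurd rfl h
  · obtain ⟨h'', e'⟩ := cmI_some hι h'
    rw [e']
    exact Affine.Point.some_ne_zero _

lemma frW_cmI (hp4 : p % 4 = 1) {ι : S} (hι : ι ^ 2 = -1) (s : ℕ) {Ω : Type u} [Field Ω]
    [Algebra S Ω] (A : Pt (Wi S) Ω) :
    (frW S p s).toFun Ω ((cmI hι).toFun Ω A) = (cmI hι).toFun Ω ((frW S p s).toFun Ω A) := by
  by_cases h0 : A = 0
  · rw [h0]; simp only [map_zero]
  · have hodd : Odd (p ^ s) := (hp.out.odd_of_ne_two (p_ne_two_of_good S p)).pow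
    apply pt_ext (frW_ne_zero s (cmI_ne_zero hι h0)) (cmI_ne_zero hι (frW_ne_zero s h0))
    · rw [frW_ptX, cmI_ptX, cmI_ptX, frW_ptX, hodd.neg_pow]
    · rw [frW_ptY, cmI_ptY, cmI_ptY, frW_ptY, mul_pow, ← map_pow, pow_iota hp4 hι]

lemma ht_frW (s : ℕ) {A : Pt (Wi S) (FF (Wi S) K)} (hA : A ∈ antiG S K) :
    ht ((frW S p s).toFun _ A) = p ^ s * ht A := by
  obtain ⟨r, hr⟩ := antiG_ptX hA
  rw [ht_eq (r := r ^ p ^ s) (by rw [map_pow, hr, frW_ptX]), ht_eq hr, rdeg_pow]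

lemma ht_cmI {ι : S} (hι : ι ^ 2 = -1) {A : Pt (Wi S) (FF (Wi S) K)} (hA : A ∈ antiG S K) :
    ht ((cmI hι).toFun _ A) = ht A := by
  obtain ⟨r, hr⟩ := antiG_ptX hA
  rw [ht_eq (r := -r) (by rw [map_neg, hr, cmI_ptX]), ht_eq hr, rdeg_neg]

omit hG hp hS in
lemma even_of_sum {t t' : ℤ} (h : t ^ 2 + t' ^ 2 = 4 * p) :
    ∃ u v : ℤ, t = 2 * u ∧ t' = 2 * v ∧ u ^ 2 + v ^ 2 = p := by
  rcases Int.even_or_odd' t with ⟨u, hu | hu⟩ <;> rcases Int.even_or_odd' t' with ⟨v, hv | hv⟩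
  · exact ⟨u, v, hu, hv, by subst hu hv; linarith⟩
  · exfalso
    subst hu hv
    have : 4 * (u ^ 2 + v ^ 2 + v) + 1 = 4 * (p : ℤ) := by linarith
    omega
  · exfalso
    subst hu hv
    have : 4 * (u ^ 2 + v ^ 2 + u) + 1 = 4 * (p : ℤ) := by linarith
    omega
  · exfalso
    subst hu hv
    have : 4 * (u ^ 2 + v ^ 2 + u + v) + 2 = 4 * (p : ℤ) := by linarith
    omega

/-- Frobenius is a complex multiplication. -/
theorem frob_eq_cm (hp4 : p % 4 = 1) {ι : S} (hι : ι ^ 2 = -1) :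
    ∃ u v : ℤ, u ^ 2 + v ^ 2 = p ∧ (frW S p 1).toFun _ (gpt (Wi S) K) =
      u • gpt (Wi S) K + v • (cmI hι).toFun _ (gpt (Wi S) K) := by
  set P := gpt (Wi S) K with hP
  have hPG : P ∈ antiG S K := gpt_mem_antiG
  obtain ⟨F, hF⟩ : ∃ F : AddMonoid.End (Pt (Wi S) (FF (Wi S) K)),
      ∀ A, F A = (frW S p 1).toFun _ A := ⟨(frW S p 1).toFun _, fun _ => rfl⟩
  obtain ⟨I, hI⟩ : ∃ I : AddMonoid.End (Pt (Wi S) (FF (Wi S) K)),
      ∀ A, I A = (cmI hι).toFun _ A := ⟨(cmI hι).toFun _, fun _ => rfl⟩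
  have hFn : F ∈ natE S K := natEnd_mem _ hF
  have hIn : I ∈ natE S K := natEnd_mem _ hI
  have hFI : ∀ A, F (I A) = I (F A) := fun A => by
    rw [hF, hI, hI, hF]; exact frW_cmI hp4 hι 1 A
  have hII : ∀ A, I (I A) = -A := fun A => by rw [hI, hI]; exact cmI_cmI hι A
  have hFh : ∀ A ∈ antiG S K, ht (F A) = p * ht A := fun A hA => by
    rw [hF, ht_frW 1 hA, pow_one]
  have hIh : ∀ A ∈ antiG S K, ht (I A) = ht A := fun A hA => by
    rw [hI, ht_cmI hι hA]
  -- the quadratic form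
  obtain ⟨q, hqdef⟩ : ∃ q : antiG S K → ℤ, ∀ a, q a = ht (a : Pt (Wi S) (FF (Wi S) K)) :=
    ⟨fun a => ht (a : Pt (Wi S) (FF (Wi S) K)), fun _ => rfl⟩
  have hq : ∀ a b, q (a + b) + q (a - b) = 2 * (q a + q b) := by
    intro a b
    rw [hqdef, hqdef, hqdef, hqdef]
    exact ht_int_parallelogram a b
  obtain ⟨ap, hap⟩ : ∃ ap : ∀ φ : AddMonoid.End (Pt (Wi S) (FF (Wi S) K)), φ ∈ natE S K →
      antiG S K → antiG S K, ∀ φ hφ a, (ap φ hφ a : Pt (Wi S) (FF (Wi S) K)) = φ a :=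
    ⟨fun φ hφ a => ⟨φ a, natE_anti hφ a.2⟩, fun _ _ _ => rfl⟩
  obtain ⟨P', hP'⟩ : ∃ P' : antiG S K, (P' : Pt (Wi S) (FF (Wi S) K)) = P := ⟨⟨P, hPG⟩, rfl⟩
  have qP : q P' = 1 := by rw [hqdef, hP', ht_gpt]; rfl
  have qI : ∀ a, q (ap I hIn a) = q a := fun a => by
    rw [hqdef, hqdef, hap, hIh _ a.2]
  have qF : ∀ a, q (ap F hFn a) = p * q a := fun a => by
    rw [hqdef, hqdef, hap, hFh _ a.2]; push_cast; rfl
  have apadd : ∀ φ hφ a b, ap φ hφ (a + b) = ap φ hφ a + ap φ hφ b := fun φ hφ a b =>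
    Subtype.ext (by rw [hap]; push_cast; rw [map_add, hap, hap])
  have pI : ∀ a b, pol q (ap I hIn a) (ap I hIn b) = pol q a b := by
    intro a b
    unfold pol
    rw [← apadd, qI, qI, qI]
  obtain ⟨e, he⟩ : ∃ e, e = ap I hIn P' := ⟨_, rfl⟩
  obtain ⟨f, hf⟩ : ∃ f, f = ap F hFn P' := ⟨_, rfl⟩
  have qe : q e = 1 := by rw [he, qI, qP]
  have qf : q f = p := by rw [hf, qF, qP, mul_one]
  have hκ : pol q P' e = 0 := by
    have h1 : ap I hIn e = -P' := Subtype.ext (by rw [hap, he, hap, hII]; push_cast; rfl)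
    have h2 := pI P' e
    rw [h1, ← he, pol_neg_right hq, pol_comm] at h2
    omega
  obtain ⟨t, ht'⟩ : ∃ t, t = pol q f P' := ⟨_, rfl⟩
  obtain ⟨t', ht''⟩ : ∃ t', t' = pol q f e := ⟨_, rfl⟩
  obtain ⟨b, hb⟩ : ∃ b : AddMonoid.End (Pt (Wi S) (FF (Wi S) K)),
      b = (2 : ℤ) • F - t • 1 - t' • I := ⟨_, rfl⟩
  have hbn : b ∈ natE S K := by
    rw [hb]
    exact sub_mem (sub_mem (zsmul_mem hFn _) (zsmul_mem (one_mem _) _)) (zsmul_mem hIn _)
  have hbA : ∀ A, b A = (2 : ℤ) • F A - t • A - t' • I A := by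
    intro A
    rw [hb]; rfl
  have hbI : ∀ A, b (I A) = I (b A) := by
    intro A
    rw [hbA, hbA, hFI, map_sub, map_sub, map_zsmul, map_zsmul, map_zsmul]
  obtain ⟨g, hg⟩ : ∃ g, g = ap b hbn P' := ⟨_, rfl⟩
  have hg' : g = (2 : ℤ) • f - t • P' - t' • e := by
    apply Subtype.ext
    rw [hg, hap, hbA]
    push_cast
    rw [hf, he, hap, hap]
  have pgP : pol q g P' = 0 := by
    rw [hg', pol_sub_left hq, pol_sub_left hq, pol_zsmul_left hq, pol_zsmul_left hq,
      pol_zsmul_left hq, ← ht', pol_self hq, qP, pol_comm e, hκ]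
    ring
  have pge : pol q g e = 0 := by
    rw [hg', pol_sub_left hq, pol_sub_left hq, pol_zsmul_left hq, pol_zsmul_left hq,
      pol_zsmul_left hq, ← ht'', pol_self hq, qe, hκ]
    ring
  have hn0 : 0 ≤ q g := by rw [hqdef]; positivity
  -- composition
  have hcomp : ∀ φ (hφ : φ ∈ natE S K) (a : antiG S K), q a ≠ 0 →
      q (ap φ hφ a) = q (ap φ hφ P') * q a := by
    intro φ hφ a ha
    rw [hqdef] at ha
    have h1 := ht_comp hφ a.2 (by exact_mod_cast ha)
    rw [hqdef, hqdef, hqdef, hap, hap, h1, hP']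
    push_cast; rfl
  obtain ⟨c, hc⟩ : ∃ c, c = ap b hbn g := ⟨_, rfl⟩
  have hcP : (c : Pt (Wi S) (FF (Wi S) K)) = b (b P) := by rw [hc, hap, hg, hap, hP']
  have hgP : (g : Pt (Wi S) (FF (Wi S) K)) = b P := by rw [hg, hap, hP']
  have heP : (e : Pt (Wi S) (FF (Wi S) K)) = I P := by rw [he, hap, hP']
  have hplus : q (c + P') = (q g + 1) ^ 2 := by
    have h1 : q (g - e) = q g + 1 := by rw [q_sub hq, pge, qe]; ring
    have h2 := hcomp (b + I) (add_mem hbn hIn) (g - e) (by rw [h1]; omega)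
    have h3 : ap (b + I) (add_mem hbn hIn) (g - e) = c + P' := by
      apply Subtype.ext
      rw [hap]
      push_cast
      rw [hcP, hP', hgP, heP]
      change b (b P - I P) + I (b P - I P) = _
      rw [map_sub, map_sub, hbI, hII]
      abel
    have h4 : ap (b + I) (add_mem hbn hIn) P' = g + e := by
      apply Subtype.ext
      rw [hap]
      push_cast
      rw [hgP, heP, hP']
      rfl
    have h5 : q (g + e) = q g + 1 := by rw [q_add (q := q), pge, qe]; ring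
    rw [h3, h4, h5, h1] at h2
    rw [h2]; ring
  have hminus : q (c - P') = (q g + 1) ^ 2 := by
    have h1 : q (g - P') = q g + 1 := by rw [q_sub hq, pgP, qP]; ring
    have h2 := hcomp (b + 1) (add_mem hbn (one_mem _)) (g - P') (by rw [h1]; omega)
    have h3 : ap (b + 1) (add_mem hbn (one_mem _)) (g - P') = c - P' := by
      apply Subtype.ext
      rw [hap]
      push_cast
      rw [hcP, hP', hgP]
      change b (b P - P) + (b P - P) = _
      rw [map_sub]
      abel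
    have h4 : ap (b + 1) (add_mem hbn (one_mem _)) P' = g + P' := by
      apply Subtype.ext
      rw [hap]
      push_cast
      rw [hgP, hP']
      rfl
    have h5 : q (g + P') = q g + 1 := by rw [q_add (q := q), pgP, qP]; ring
    rw [h3, h4, h5, h1] at h2
    rw [h2]; ring
  have hg0 : q g = 0 := by
    by_contra hne
    have h1 := hcomp b hbn g hne
    rw [← hc, ← hg] at h1
    have h2 := hq c P'
    rw [hplus, hminus, h1, qP] at h2
    apply hne
    linarith
  have hbP : b P = 0 := by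
    apply eq_zero_of_ht hbn
    rw [hqdef, hgP] at hg0
    exact_mod_cast hg0
  have hrel : (2 : ℤ) • f = t • P' + t' • e := by
    apply Subtype.ext
    push_cast
    rw [hP', heP, hf, hap, hP']
    rw [hbA, sub_sub, sub_eq_zero] at hbP
    exact hbP
  have hsum : t ^ 2 + t' ^ 2 = 4 * p := by
    have h1 := congrArg q hrel
    rw [q_zsmul hq, q_add (q := q), q_zsmul hq, q_zsmul hq, pol_zsmul_left hq, pol_zsmul_right hq, hκ, qf,
      qP, qe] at h1
    linarith
  obtain ⟨u, v, hu, hv, huv⟩ := even_of_sum hsum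
  refine ⟨u, v, huv, ?_⟩
  obtain ⟨φ, hφ⟩ : ∃ φ : AddMonoid.End (Pt (Wi S) (FF (Wi S) K)),
      φ = F - u • 1 - v • I := ⟨_, rfl⟩
  have hφn : φ ∈ natE S K := by
    rw [hφ]
    exact sub_mem (sub_mem hFn (zsmul_mem (one_mem _) _)) (zsmul_mem hIn _)
  have hφA : ∀ A, φ A = F A - u • A - v • I A := by
    intro A
    rw [hφ]; rfl
  have h2φ : (2 : ℤ) • φ P = 0 := by
    rw [hφA, ← hbP, hbA, hu, hv]
    simp only [smul_sub, smul_smul]
  have h3 : φ P = 0 := by
    apply eq_zero_of_ht hφn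
    have h4 := q_zsmul hq 2 (ap φ hφn P')
    have h5 : (2 : ℤ) • ap φ hφn P' = 0 := by
      apply Subtype.ext
      push_cast
      rw [hap, hP']
      exact h2φ
    rw [h5, q_zero hq, hqdef, hap, hP'] at h4
    have h6 : (ht (φ P) : ℤ) = 0 := by linarith
    exact_mod_cast h6
  rw [hφA, sub_sub, sub_eq_zero, hF, hI] at h3
  exact h3

end frob

end UnrH3
end

section

/-!
# Twisted covers with constant invariant over rational function fields
-/

namespace UnrH3

universe u v w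

open Polynomial WeierstrassCurve
open scoped Classical

variable {m : ℕ} {Λ : Type u} [Field Λ] {n r : ℕ}

lemma indep_swap {B : Set Λ} {t : Λ} (ht : t ∉ cl B) {X : Fin n → Λ}
    (hX : ∀ j, X j ∉ cl (insert t (B ∪ X '' {l | l ≠ j}))) : t ∉ cl (B ∪ Set.range X) := by
  have key : ∀ J : Finset (Fin n), t ∉ cl (B ∪ X '' J) := by
    intro J
    induction J using Finset.induction_on with
    | empty => simpa using ht
    | insert l J hl ih =>
      intro h
      rw [Finset.coe_insert, Set.image_insert_eq, Set.union_insert] at h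
      have h1 := cl_exchange h ih
      apply hX l
      refine cl_mono (Set.insert_subset_insert (Set.union_subset_union_right _ ?_)) h1
      apply Set.image_mono
      intro i hi
      rintro rfl
      exact hl (by exact_mod_cast hi)
  have := key Finset.univ
  rwa [Finset.coe_univ, Set.image_univ] at this

section

variable {F₀ k C M : Subfield Λ} {t : Fin r → Λ} {X Y x a s : Fin n → Λ} {d δ w : Λ}

lemma zero_of_from (hm : Odd m) (hk : k = adj F₀ (Set.range t)) (ht : IndSet F₀ (Set.range t))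
    (htors : ∀ z ∈ F₀, z ≠ 0 → ∃ l > 0, z ^ l = 1) {j : ℕ} (hj : 2 ≤ j) {L : Subfield Λ}
    {η : KM m L} (h : From k L η) (hd : η ∈ KM.deg m L j) : η = 0 := by
  obtain ⟨hkL, η', hη', rfl⟩ := h
  subst hk
  obtain ⟨hF, η₀, -, rfl⟩ := from_rat hm (Set.finite_range t) ht hη'
  rw [up_up] at hd ⊢
  obtain ⟨c, z, hz, rfl⟩ := KM.of_torsion hm (K := F₀) (by
    intro z hz
    obtain ⟨l, hl, h1⟩ := htors z z.2 (fun h => hz (Subtype.ext h))
    exact ⟨l, hl, Subtype.ext h1⟩) η₀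
  refine KM.eq_zero_of_deg hj hd (r := c) (a := Subfield.inclusion (hF.trans hkL) z) ?_
  unfold up
  rw [map_add, AlgHom.commutes, KM.map_sym]

/-- Homogeneous unramified classes of degree at least two are odd. -/
lemma Tw.odd_of_deg (T : Tw k C X Y x a s d δ w) (hm : Odd m) (h2 : (2 : Λ) ≠ 0) (hkC : k ≤ C)
    (hX : IndFam C X) (hY : ∀ j, Y j ^ 2 = X j ^ 3 - X j) (hk : k = adj F₀ (Set.range t))
    (ht : IndSet F₀ (Set.range t)) (htors : ∀ z ∈ F₀, z ≠ 0 → ∃ l > 0, z ^ l = 1) {j : ℕ}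
    (hj : 2 ≤ j) {ξ : KM m (twF k x w)} (hξ : Unr ξ) (hd : ξ ∈ KM.deg m (twF k x w) j) :
    ξ = 0 ∨ ∃ τ : twF k x w →+* twF k x w, (∀ z : twF k x w, (z : Λ) ∈ k → τ z = z) ∧
      (∀ j, ∀ z : twF k x w, (z : Λ) = x j → τ z = z) ∧
      (∀ z : twF k x w, (z : Λ) = w → τ z = -z) ∧ KM.map m τ ξ = -ξ := by
  rcases T.split hm h2 hkC hX hY ξ hξ with h | ⟨η, ζ, τ, hη, hζ, hξ', t1, t2, t3, t4, c, -, hc⟩
  · left
    exact zero_of_from hm hk ht htors hj h hd
  · right
    have h1 : ζ ∈ KM.deg m (twF k x w) j := by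
      rw [hc]
      exact Submodule.smul_mem _ _ (sub_mem hd (KM.deg_map τ hd))
    have h3 : η ∈ KM.deg m (twF k x w) j := by
      have h4 : η = ξ - ζ := by rw [hξ']; abel
      rw [h4]; exact sub_mem hd h1
    have h4 : η = 0 := zero_of_from hm hk ht htors hj hη h3
    rw [h4, zero_add] at hξ'
    subst hξ'
    exact ⟨τ, t1, t2, t3, t4⟩

end

end UnrH3
end
end

section

/-!
# Complex multiplication and one-variable classes
-/

namespace UnrH3

universe u v w

open Polynomial WeierstrassCurve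
open scoped Classical

section cm

variable {S : Type v} [Field S] [hG : GoodW (Wi S)] {K : Type u} [Field K] [Algebra S K]
  {ι : S} (hι : ι ^ 2 = -1)

/-- The point `z P` for a Gaussian integer `z`. -/
noncomputable def gp {Ω : Type u} [Field Ω] [Algebra S Ω] (P : Pt (Wi S) Ω) :
    GaussianInt →+ Pt (Wi S) Ω :=
  AddMonoidHom.mk' (fun z => z.re • P + z.im • (cmI hι).toFun Ω P) (by
    intro a b
    rw [Zsqrtd.re_add, Zsqrtd.im_add, add_smul, add_smul]
    abel)

omit hG in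
lemma gp_apply {Ω : Type u} [Field Ω] [Algebra S Ω] (P : Pt (Wi S) Ω) (z : GaussianInt) :
    gp hι P z = z.re • P + z.im • (cmI hι).toFun Ω P := rfl

omit hG in
lemma gp_one {Ω : Type u} [Field Ω] [Algebra S Ω] (P : Pt (Wi S) Ω) : gp hι P 1 = P := by
  rw [gp_apply]; simp

omit hG in
lemma gp_add_pt {Ω : Type u} [Field Ω] [Algebra S Ω] (P Q : Pt (Wi S) Ω) (z : GaussianInt) :
    gp hι (P + Q) z = gp hι P z + gp hι Q z := by
  rw [gp_apply, gp_apply, gp_apply, map_add, smul_add, smul_add]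
  abel

omit hG in
lemma gp_mul_I {Ω : Type u} [Field Ω] [Algebra S Ω] (P : Pt (Wi S) Ω) (z : GaussianInt) :
    (cmI hι).toFun Ω (gp hι P z) = gp hι P (⟨0, 1⟩ * z) := by
  rw [gp_apply, gp_apply, map_add, map_zsmul, map_zsmul, cmI_cmI]
  simp [add_comm]

omit hG in
lemma gp_mul {Ω : Type u} [Field Ω] [Algebra S Ω] (P : Pt (Wi S) Ω) (z w : GaussianInt) :
    gp hι P (w * z) = gp hι (gp hι P z) w := by
  rw [gp_apply hι (gp hι P z), gp_mul_I, ← map_zsmul, ← map_zsmul, ← map_add]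
  congr 1
  ext <;> simp [Zsqrtd.re_mul, Zsqrtd.im_mul]

lemma gp_mem_antiG (z : GaussianInt) : gp hι (gpt (Wi S) K) z ∈ antiG S K := by
  rw [gp_apply]
  have hI : (cmI hι).toFun _ (gpt (Wi S) K) ∈ antiG S K := by
    obtain ⟨I, hI⟩ : ∃ I : AddMonoid.End (Pt (Wi S) (FF (Wi S) K)),
      ∀ A, I A = (cmI hι).toFun _ A := ⟨(cmI hι).toFun _, fun _ => rfl⟩
    rw [← hI]
    exact natE_anti (natEnd_mem _ hI) gpt_mem_antiG
  exact add_mem (zsmul_mem gpt_mem_antiG _) (zsmul_mem hI _)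

/-- The height of a multiple of the generic point. -/
lemma ht_gp (z : GaussianInt) : (ht (gp hι (gpt (Wi S) K) z) : ℤ) = z.re ^ 2 + z.im ^ 2 := by
  obtain ⟨I, hI⟩ : ∃ I : AddMonoid.End (Pt (Wi S) (FF (Wi S) K)),
      ∀ A, I A = (cmI hι).toFun _ A := ⟨(cmI hι).toFun _, fun _ => rfl⟩
  have hIn : I ∈ natE S K := natEnd_mem _ hI
  obtain ⟨q, hqdef⟩ : ∃ q : antiG S K → ℤ, ∀ a, q a = ht (a : Pt (Wi S) (FF (Wi S) K)) :=
    ⟨fun a => ht (a : Pt (Wi S) (FF (Wi S) K)), fun _ => rfl⟩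
  have hq : ∀ a b, q (a + b) + q (a - b) = 2 * (q a + q b) := by
    intro a b
    rw [hqdef, hqdef, hqdef, hqdef]
    exact ht_int_parallelogram a b
  obtain ⟨P', hP'⟩ : ∃ P' : antiG S K, (P' : Pt (Wi S) (FF (Wi S) K)) = gpt (Wi S) K :=
    ⟨⟨gpt (Wi S) K, gpt_mem_antiG⟩, rfl⟩
  obtain ⟨e, he⟩ : ∃ e : antiG S K, (e : Pt (Wi S) (FF (Wi S) K)) = I (gpt (Wi S) K) :=
    ⟨⟨I (gpt (Wi S) K), natE_anti hIn gpt_mem_antiG⟩, rfl⟩
  have qP : q P' = 1 := by rw [hqdef, hP', ht_gpt]; rfl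
  have qI : ∀ a b : antiG S K, (b : Pt (Wi S) (FF (Wi S) K)) = I a → q b = q a := fun a b h => by
    rw [hqdef, hqdef, h, hI, ht_cmI hι a.2]
  have qe : q e = 1 := by rw [qI P' e (by rw [he, hP']), qP]
  have hκ : pol q P' e = 0 := by
    have h1 : q (e + -P') = q (P' + e) := by
      apply qI
      push_cast
      rw [he, hP', map_add, hI (I _), hI (gpt (Wi S) K), cmI_cmI]
    have h2 : pol q e (-P') = pol q P' e := by
      unfold pol
      rw [h1, q_neg hq, qP, qe]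
    rw [pol_neg_right hq, pol_comm] at h2
    omega
  have h1 : gp hι (gpt (Wi S) K) z =
      ((z.re • P' + z.im • e : antiG S K) : Pt (Wi S) (FF (Wi S) K)) := by
    push_cast
    rw [hP', he, gp_apply, hI]
  rw [h1, ← hqdef, q_add (q := q), q_zsmul hq, q_zsmul hq, pol_zsmul_left hq, pol_zsmul_right hq,
    hκ, qP, qe]
  ring

lemma gen_gp {z : GaussianInt} (hz : z ≠ 0) : Gen (base (Wi S) K) (gp hι (gpt (Wi S) K) z) := by
  apply gen_of_ht (gp_mem_antiG hι z)
  intro h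
  have h1 := ht_gp (K := K) hι z
  rw [h] at h1
  push_cast at h1
  apply hz
  have h2 : z.re = 0 := by nlinarith [sq_nonneg z.re, sq_nonneg z.im]
  have h3 : z.im = 0 := by nlinarith [sq_nonneg z.re, sq_nonneg z.im]
  ext
  · exact h2
  · exact h3

variable {m : ℕ}

omit hG in
lemma ev_zero_pt {Ω : Type u} [Field Ω] [Algebra S Ω] (i : K →ₐ[S] Ω)
    (β : KM m (FF (Wi S) K)) : ev i (0 : Pt (Wi S) Ω) β = 0 := by
  unfold ev
  rw [dif_neg]
  intro h
  exact h.ne_zero rfl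

/-- Additivity of odd unramified classes at multiples of the generic point. -/
lemma ev_gp_add (hm : Odd m) {β : KM m (FF (Wi S) K)} (hβ : Unr β) (hodd : OddCl β)
    (z w : GaussianInt) : ev (base (Wi S) K) (gp hι (gpt (Wi S) K) (z + w)) β =
      ev (base (Wi S) K) (gp hι (gpt (Wi S) K) z) β +
        ev (base (Wi S) K) (gp hι (gpt (Wi S) K) w) β := by
  by_cases hz : z = 0
  · rw [hz, zero_add, map_zero, ev_zero_pt, zero_add]
  by_cases hw : w = 0
  · rw [hw, add_zero, map_zero, ev_zero_pt, add_zero]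
  by_cases hzw : z + w = 0
  · have h1 : w = -z := (neg_eq_of_add_eq_zero_right hzw).symm
    rw [hzw, map_zero, ev_zero_pt, h1, map_neg, hodd.ev_neg, add_neg_cancel]
  · rw [map_add]
    exact hodd.add' hm hβ (gen_gp hι hz) (gen_gp hι hw) (by rw [← map_add]; exact gen_gp hι hzw)

/-- The values at the multiples of the generic point as a homomorphism. -/
noncomputable def evG (hm : Odd m) {β : KM m (FF (Wi S) K)} (hβ : Unr β) (hodd : OddCl β) :
    GaussianInt →+ KM m (FF (Wi S) K) :=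
  AddMonoidHom.mk' (fun z => ev (base (Wi S) K) (gp hι (gpt (Wi S) K) z) β)
    (ev_gp_add hι hm hβ hodd)

lemma ev_gp (hm : Odd m) {β : KM m (FF (Wi S) K)} (hβ : Unr β) (hodd : OddCl β)
    (z : GaussianInt) : ev (base (Wi S) K) (gp hι (gpt (Wi S) K) z) β =
      z.re • β + z.im • ev (base (Wi S) K) ((cmI hι).toFun _ (gpt (Wi S) K)) β := by
  have h1 : z = z.re • (1 : GaussianInt) + z.im • (⟨0, 1⟩ : GaussianInt) := by
    ext <;> simp
  have h2 : evG hι hm hβ hodd 1 = β := by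
    change ev (base (Wi S) K) (gp hι (gpt (Wi S) K) 1) β = β
    rw [gp_one, ev_self]
  have h3 : evG hι hm hβ hodd ⟨0, 1⟩ =
      ev (base (Wi S) K) ((cmI hι).toFun _ (gpt (Wi S) K)) β := by
    change ev (base (Wi S) K) (gp hι (gpt (Wi S) K) ⟨0, 1⟩) β = _
    rw [gp_apply]; simp
  change evG hι hm hβ hodd z = _
  conv_lhs => rw [h1]
  rw [map_add, map_zsmul, map_zsmul, h2, h3]

/-- A class on which `z` acts as the integer `Q` is killed by the norm of `z - Q`. -/
theorem norm_smul (hm : Odd m) {β : KM m (FF (Wi S) K)} (hβ : Unr β) (hodd : OddCl β)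
    (z : GaussianInt) (Q : ℤ)
    (h : ev (base (Wi S) K) (gp hι (gpt (Wi S) K) z) β = Q • β) :
    (z - (Q : GaussianInt)).norm • β = 0 := by
  rw [ev_gp hι hm hβ hodd] at h
  set IP := (cmI hι).toFun _ (gpt (Wi S) K) with hIP
  set T := ev (base (Wi S) K) IP β with hT
  have hgI : Gen (base (Wi S) K) IP := by
    have h1 := gen_gp (K := K) hι (z := ⟨0, 1⟩) (by
      intro h2
      have := congrArg Zsqrtd.im h2
      exact one_ne_zero this)
    rw [gp_apply] at h1
    simpa using h1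
  have hTT : ev (base (Wi S) K) IP T = -β := by
    rw [hT, hIP]
    rw [ev_natEnd (cmI hι) (by rw [← hIP]; exact hgI), cmI_cmI, hodd.ev_neg, ev_self]
  have hsm : ∀ (n : ℤ) (x : KM m (FF (Wi S) K)), ev (base (Wi S) K) IP (n • x) =
      n • ev (base (Wi S) K) IP x := by
    intro n x
    rw [ev_of_gen hgI, ev_of_gen hgI, map_zsmul]
  have h2 := congrArg (ev (base (Wi S) K) IP) h
  rw [ev_add, hsm, hsm, hsm, ← hT, hTT, smul_neg] at h2
  have hn : (z - (Q : GaussianInt)).norm = (z.re - Q) * (z.re - Q) + z.im * z.im := by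
    rw [Zsqrtd.norm_def]
    simp
  have e1 : (z.re - Q) • β = -(z.im • T) := by
    rw [sub_smul, ← h]; abel
  have e2 : z.im • β = (z.re - Q) • T := by
    rw [sub_smul, ← h2]; abel
  rw [hn, add_smul, mul_smul, mul_smul, e1, e2, smul_neg, smul_smul, smul_smul, mul_comm z.im]
  abel

end cm

section primary

variable {S : Type u} [Field S] [hG : GoodW (Wi S)] {p : ℕ} [hp : Fact p.Prime] [hS : CharP S p]
  {K : Type u} [Field K] [Algebra S K] {ι : S} (hι : ι ^ 2 = -1)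

omit hG in
lemma gp_map {Ω Ω' : Type u} [Field Ω] [Algebra S Ω] [Field Ω'] [Algebra S Ω']
    (g : Ω →ₐ[S] Ω') (P : Pt (Wi S) Ω) (z : GaussianInt) :
    ptMap g (gp hι P z) = gp hι (ptMap g P) z := by
  rw [gp_apply, gp_apply, map_add, map_zsmul, map_zsmul, (cmI hι).nat]

omit hG in
lemma exists_pt_of_eq {Ω : Type u} [Field Ω] [Algebra S Ω] (h2 : (2 : Ω) ≠ 0) {x y : Ω}
    (h : y ^ 2 = x ^ 3 - x) (hy : y ≠ 0) :
    ∃ Q : Pt (Wi S) Ω, Q ≠ 0 ∧ ptX Q = x ∧ ptY Q = y := by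
  have h3 := Wi_nonsingular (S := S) h2 h hy
  exact ⟨.some x y h3, Affine.Point.some_ne_zero _, rfl, rfl⟩

omit hG in
lemma Wi_dbl' {Ω : Type u} [Field Ω] [Algebra S Ω] {Q : Pt (Wi S) Ω} (hQ : Q ≠ 0)
    (hy : 2 * ptY Q ≠ 0) : Q + Q ≠ 0 ∧
      ptX (Q + Q) * (4 * ptY Q ^ 2) = (ptX Q ^ 2 + 1) ^ 2 := by
  rcases Q with _ | ⟨x, y, h⟩
  · exact absurd rfl hQ
  · exact Wi_dbl h hy

/-- The group-theoretic part of the normalisation of the Gaussian integer. -/
lemma gauss_primary {A : Type u} [AddCommGroup A] {Q J T : A} (hT : T = Q + Q) (hJJ : J + J = T)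
    (hT0 : T ≠ 0) (hTT : T + T = 0) (hJQ : J ≠ Q) (hJQ' : J ≠ -Q) {u v : ℤ}
    (h4 : (u - 1) • Q + v • J = 0) : (⟨2, 2⟩ : GaussianInt) ∣ (⟨u, v⟩ : GaussianInt) - 1 := by
  have hTneg : -T = T := neg_eq_of_add_eq_zero_right hTT
  have hTeven : ∀ n : ℤ, n • T = 0 → Even n := by
    intro n hn
    by_contra h
    rw [Int.not_even_iff_odd] at h
    obtain ⟨k, rfl⟩ := h
    rw [add_smul, one_smul, mul_comm, mul_smul, two_smul, hTT, smul_zero, zero_add] at hn
    exact hT0 hn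
  have hmod : ∀ n : ℤ, n • T = 0 ∨ n • T = T := by
    intro n
    rcases Int.even_or_odd n with h | h
    · left
      obtain ⟨k, rfl⟩ := h
      rw [← two_mul, mul_comm, mul_smul, two_smul, hTT, smul_zero]
    · right
      obtain ⟨k, rfl⟩ := h
      rw [add_smul, one_smul, mul_comm, mul_smul, two_smul, hTT, smul_zero, zero_add]
  have htwo : ∀ (n : ℤ) (R : A), (2 * n) • R = n • (R + R) := by
    intro n R
    rw [mul_comm, mul_smul, two_smul]
  have h5 : (u - 1 + v) • T = 0 := by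
    have h6 : (u - 1) • (Q + Q) + v • (J + J) = 0 := by
      rw [smul_add, smul_add]
      have : (u - 1) • Q + (u - 1) • Q + (v • J + v • J) =
          ((u - 1) • Q + v • J) + ((u - 1) • Q + v • J) := by abel
      rw [this, h4, add_zero]
    rw [← hT, hJJ, ← add_smul] at h6
    exact h6
  have h6 := hTeven _ h5
  rcases Int.even_or_odd' v with ⟨d, hd | hd⟩
  · obtain ⟨c, hc⟩ : ∃ c, u - 1 = 2 * c := by
      obtain ⟨k, hk⟩ := h6
      exact ⟨k - d, by omega⟩
    rw [hc, hd, htwo, htwo, ← hT, hJJ, ← add_smul] at h4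
    obtain ⟨k, hk⟩ := hTeven _ h4
    refine ⟨⟨k, k - c⟩, ?_⟩
    have e1 : u = 1 + 2 * c := by omega
    have e2 : d = 2 * k - c := by omega
    rw [Zsqrtd.ext_iff]
    constructor
    · simp only [Zsqrtd.re_sub, Zsqrtd.re_one, Zsqrtd.re_mul]
      rw [e1]; ring
    · simp only [Zsqrtd.im_sub, Zsqrtd.im_one, Zsqrtd.im_mul]
      rw [hd, e2]; ring
  · exfalso
    obtain ⟨c, hc⟩ : ∃ c, u - 1 = 2 * c + 1 := by
      obtain ⟨k, hk⟩ := h6
      exact ⟨k - d - 1, by omega⟩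
    rw [hc, hd, add_smul, add_smul, htwo, htwo, ← hT, hJJ, one_smul, one_smul] at h4
    have h7 : (c + d) • T + (Q + J) = 0 := by
      rw [add_smul, ← h4]; abel
    rcases hmod (c + d) with h8 | h8
    · rw [h8, zero_add, add_comm] at h7
      exact hJQ' (eq_neg_of_add_eq_zero_left h7)
    · rw [h8] at h7
      apply hJQ
      have h9 : J = -(T + Q) := by
        apply eq_neg_of_add_eq_zero_right
        rw [add_assoc]; exact h7
      rw [h9, neg_add, hTneg, hT]
      abel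

/-- The Gaussian integer that gives the Frobenius endomorphism. -/
theorem exists_frob_gauss (hp4 : p % 4 = 1) (K : Type u) [Field K] [Algebra S K] :
    ∃ ϖ : GaussianInt, ϖ.norm = p ∧ (⟨2, 2⟩ : GaussianInt) ∣ ϖ - 1 ∧
      ∀ (Ω : Type u) [Field Ω] [Algebra S Ω] (i : K →ₐ[S] Ω) (A : Pt (Wi S) Ω), Gen i A →
        (frW S p 1).toFun Ω A = gp hι A ϖ := by
  obtain ⟨u, v, huv, hF⟩ := frob_eq_cm (S := S) (K := K) hp4 hι
  have hmain : ∀ (Ω : Type u) [Field Ω] [Algebra S Ω] (i : K →ₐ[S] Ω) (A : Pt (Wi S) Ω),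
      Gen i A → (frW S p 1).toFun Ω A = gp hι A ⟨u, v⟩ := by
    intro Ω _ _ i A hA
    have h1 := congrArg (ptMap (liftPt i A hA)) hF
    rw [(frW S p 1).nat, liftPt_gpt, map_add, map_zsmul, map_zsmul, (cmI hι).nat, liftPt_gpt] at h1
    rw [h1, gp_apply]
  refine ⟨⟨u, v⟩, ?_, ?_, hmain⟩
  · rw [Zsqrtd.norm_def, ← huv]; ring
  -- a point of order `2 + 2i`
  obtain ⟨ι', hι'⟩ : ∃ ι' : FF (Wi S) K, ι' = algebraMap S (FF (Wi S) K) ι := ⟨_, rfl⟩
  have hι'2 : ι' ^ 2 = -1 := by rw [hι', ← map_pow, hι, map_neg, map_one]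
  have h2 : (2 : (FF (Wi S) K)) ≠ 0 := two_ne_zero_alg (S := S) (FF (Wi S) K)
  have hι0 : ι' ≠ 0 := by
    intro h
    rw [h] at hι'2
    exact one_ne_zero (by linear_combination hι'2 : (1 : (FF (Wi S) K)) = 0)
  have hQe : (1 - ι') ^ 2 = ι' ^ 3 - ι' := by linear_combination (1 - ι') * hι'2
  have hQ0 : 1 - ι' ≠ 0 := by
    intro h
    rw [h] at hQe
    have h3 : 2 * ι' = 0 := by linear_combination hQe + ι' * hι'2
    rcases mul_eq_zero.mp h3 with h4 | h4
    · exact h2 h4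
    · exact hι0 h4
  obtain ⟨Q, hQne, hQx, hQy⟩ := exists_pt_of_eq (S := S) h2 hQe hQ0
  have hodd : Odd p := hp.out.odd_of_ne_two (p_ne_two_of_good S p)
  have hpι : ι' ^ p = ι' := by
    have h3 := pow_iota (p := p) hp4 hι 1
    rw [pow_one] at h3
    rw [hι', ← map_pow, h3]
  have hch : CharP (FF (Wi S) K) p := charP_of_alg (S := S) p (FF (Wi S) K)
  have hFQ : (frW S p 1).toFun _ Q = Q := by
    apply pt_ext (frW_ne_zero 1 hQne) hQne
    · rw [frW_ptX, hQx, pow_one, hpι]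
    · rw [frW_ptY, hQy, pow_one, sub_pow_char, one_pow, hpι]
  have hQcl : InCl (Set.range (base (Wi S) K)) Q := by
    change ptX Q ∈ _
    rw [hQx, hι']
    exact range_in_cl (base (Wi S) K) ι
  have hgen : Gen (base (Wi S) K) (gpt (Wi S) K + Q) := by
    intro h
    exact gen_gpt ((InCl_add_iff_left (range_in_cl _) hQcl).mp h)
  have h3 := hmain (FF (Wi S) K) (base (Wi S) K) _ hgen
  rw [map_add, gp_add_pt, hmain (FF (Wi S) K) (base (Wi S) K) _ gen_gpt, hFQ, add_right_inj] at h3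
  rw [gp_apply] at h3
  set J := (cmI hι).toFun (FF (Wi S) K) Q with hJ
  have hJx : ptX J = -ι' := by rw [hJ, cmI_ptX, hQx]
  have hxne : -ι' ≠ ι' := by
    intro h
    have h4 : 2 * ι' = 0 := by linear_combination -h
    rcases mul_eq_zero.mp h4 with h5 | h5
    · exact h2 h5
    · exact hι0 h5
  have hJQ : J ≠ Q := by
    intro h
    exact hxne (by rw [← hJx, h, hQx])
  have hJQ' : J ≠ -Q := by
    intro h
    exact hxne (by rw [← hJx, h, ptX_neg, hQx])
  obtain ⟨T, hT⟩ : ∃ T, T = Q + Q := ⟨_, rfl⟩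
  have hT0 : T ≠ 0 ∧ ptX T = 0 := by
    have h4 := Wi_dbl' hQne (by rw [hQy]; exact mul_ne_zero h2 hQ0)
    rw [← hT, hQx, hQy] at h4
    refine ⟨h4.1, ?_⟩
    have h5 := h4.2
    rw [hι'2] at h5
    have h6 : ptX T * (4 * (1 - ι') ^ 2) = 0 := by rw [h5]; ring
    rcases mul_eq_zero.mp h6 with h7 | h7
    · exact h7
    · exfalso
      have h8 : (2 * (1 - ι')) ^ 2 = 0 := by linear_combination h7
      exact mul_ne_zero h2 hQ0 (pow_eq_zero_iff (by norm_num) |>.mp h8)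
  have hTy : ptY T = 0 := by
    have h4 := pt_eq hT0.1
    rw [hT0.2] at h4
    exact pow_eq_zero_iff (by norm_num) |>.mp (by linear_combination h4 : ptY T ^ 2 = 0)
  have hTneg : -T = T := by
    apply pt_ext (neg_ne_zero.mpr hT0.1) hT0.1
    · rw [ptX_neg]
    · rw [Wi_ptY_neg, hTy, neg_zero]
  have hTT : T + T = 0 := by
    nth_rewrite 1 [← hTneg]
    exact neg_add_cancel T
  have hIT : (cmI hι).toFun (FF (Wi S) K) T = T := by
    apply pt_ext (cmI_ne_zero hι hT0.1) hT0.1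
    · rw [cmI_ptX, hT0.2, neg_zero]
    · rw [cmI_ptY, hTy, mul_zero]
  have hJJ : J + J = T := by rw [hJ, ← map_add, ← hT, hIT]
  refine gauss_primary hT hJJ hT0.1 hTT hJQ hJQ' ?_
  rw [sub_smul, one_smul]
  nth_rewrite 2 [h3]
  abel

end primary

end UnrH3
end

section

/-!
# Powers of the Frobenius and one-variable classes
-/

namespace UnrH3

universe u v w

open Polynomial WeierstrassCurve
open scoped Classical

section natid

variable {S : Type v} [Field S] (W : WeierstrassCurve S)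

/-- The identity. -/
noncomputable def NatEnd.idE : NatEnd.{u} W where
  toFun _ _ _ := AddMonoidHom.id _
  nat _ _ _ _ _ _ _ _ := rfl
  inCl _ _ _ _ _ _ := Iff.rfl

end natid

section powers

variable {S : Type u} [Field S] {ι : S} (hι : ι ^ 2 = -1)

/-- The powers of the automorphism `(x, y) ↦ (-x, ι y)`. -/
noncomputable def cmPow : ℕ → NatEnd.{u} (Wi S)
  | 0 => NatEnd.idE (Wi S)
  | a + 1 => (cmI hι).comp (cmPow a)

lemma cmPow_zero {Ω : Type u} [Field Ω] [Algebra S Ω] (A : Pt (Wi S) Ω) :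
    (cmPow hι 0).toFun Ω A = A := rfl

lemma cmPow_succ (a : ℕ) {Ω : Type u} [Field Ω] [Algebra S Ω] (A : Pt (Wi S) Ω) :
    (cmPow hι (a + 1)).toFun Ω A = (cmI hι).toFun Ω ((cmPow hι a).toFun Ω A) := rfl

lemma cmPow_ptX (a : ℕ) {Ω : Type u} [Field Ω] [Algebra S Ω] (A : Pt (Wi S) Ω) :
    ptX ((cmPow hι a).toFun Ω A) = (-1) ^ a * ptX A := by
  induction a with
  | zero => rw [cmPow_zero]; ring
  | succ a ih => rw [cmPow_succ, cmI_ptX, ih]; ring

lemma cmPow_ptY (a : ℕ) {Ω : Type u} [Field Ω] [Algebra S Ω] (A : Pt (Wi S) Ω) :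
    ptY ((cmPow hι a).toFun Ω A) = algebraMap S Ω ι ^ a * ptY A := by
  induction a with
  | zero => rw [cmPow_zero]; ring
  | succ a ih => rw [cmPow_succ, cmI_ptY, ih]; ring

lemma cmPow_gp (a : ℕ) {Ω : Type u} [Field Ω] [Algebra S Ω] (P : Pt (Wi S) Ω)
    (z : GaussianInt) : (cmPow hι a).toFun Ω (gp hι P z) = gp hι P (⟨0, 1⟩ ^ a * z) := by
  induction a with
  | zero => rw [cmPow_zero, pow_zero, one_mul]
  | succ a ih => rw [cmPow_succ, ih, gp_mul_I, pow_succ, mul_comm _ (⟨0, 1⟩ : GaussianInt),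
      mul_assoc]

variable [hG : GoodW (Wi S)] {p : ℕ} [hp : Fact p.Prime] [hS : CharP S p]

lemma frW_zero {Ω : Type u} [Field Ω] [Algebra S Ω] (A : Pt (Wi S) Ω) :
    (frW S p 0).toFun Ω A = A := by
  by_cases h0 : A = 0
  · rw [h0, map_zero]
  · apply pt_ext (frW_ne_zero 0 h0) h0
    · rw [frW_ptX, pow_zero, pow_one]
    · rw [frW_ptY, pow_zero, pow_one]

lemma frW_succ (k : ℕ) {Ω : Type u} [Field Ω] [Algebra S Ω] (A : Pt (Wi S) Ω) :
    (frW S p (k + 1)).toFun Ω A = (frW S p 1).toFun Ω ((frW S p k).toFun Ω A) := by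
  by_cases h0 : A = 0
  · rw [h0, map_zero, map_zero, map_zero]
  · apply pt_ext (frW_ne_zero _ h0) (frW_ne_zero _ (frW_ne_zero _ h0))
    · rw [frW_ptX, frW_ptX, frW_ptX, ← pow_mul, pow_one, pow_succ]
    · rw [frW_ptY, frW_ptY, frW_ptY, ← pow_mul, pow_one, pow_succ]

variable {K : Type u} [Field K] [Algebra S K]

/-- The powers of the Frobenius are given by the powers of a Gaussian integer. -/
theorem exists_frob_gauss_pow (hp4 : p % 4 = 1) (K : Type u) [Field K] [Algebra S K] :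
    ∃ ϖ : GaussianInt, ϖ.norm = p ∧ (⟨2, 2⟩ : GaussianInt) ∣ ϖ - 1 ∧
      ∀ (k : ℕ) (Ω : Type u) [Field Ω] [Algebra S Ω] (i : K →ₐ[S] Ω) (A : Pt (Wi S) Ω), Gen i A →
        (frW S p k).toFun Ω A = gp hι A (ϖ ^ k) := by
  obtain ⟨ϖ, h1, h2, h3⟩ := exists_frob_gauss hι hp4 K
  refine ⟨ϖ, h1, h2, ?_⟩
  intro k
  induction k with
  | zero =>
    intro Ω _ _ i A _
    rw [frW_zero, pow_zero, gp_one]
  | succ k ih =>
    intro Ω _ _ i A hA
    have h4 : Gen i ((frW S p k).toFun Ω A) := fun h' =>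
      hA (((frW S p k).inCl _ _ (range_in_cl _) _).mp h')
    rw [frW_succ, h3 Ω i _ h4, ih Ω i A hA, ← gp_mul, pow_succ, mul_comm]

/-- One-variable odd unramified classes on which `I ^ a F ^ k` acts as an integer. -/
theorem one_var {m : ℕ} (hm : Odd m) (hp4 : p % 4 = 1) (K : Type u) [Field K] [Algebra S K] :
    ∃ ϖ : GaussianInt, ϖ.norm = p ∧ (⟨2, 2⟩ : GaussianInt) ∣ ϖ - 1 ∧
      ∀ (a k : ℕ) (Q : ℤ) (β : KM m (FF (Wi S) K)), Unr β → OddCl β →
        ev (base (Wi S) K) ((cmPow hι a).toFun _ ((frW S p k).toFun _ (gpt (Wi S) K))) β =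
          Q • β → (⟨0, 1⟩ ^ a * ϖ ^ k - (Q : GaussianInt)).norm • β = 0 := by
  obtain ⟨ϖ, h1, h2, h3⟩ := exists_frob_gauss_pow (p := p) hι hp4 K
  refine ⟨ϖ, h1, h2, ?_⟩
  intro a k Q β hβ hodd h
  rw [h3 k _ (base (Wi S) K) _ gen_gpt, cmPow_gp] at h
  exact norm_smul hι hm hβ hodd _ Q h

end powers

end UnrH3
end
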