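import Pool.Agent.Lib.MP_859dd5_ag.Mg.G056

section

/-!
# Evaluation of classes at generic points
-/

namespace UnrH3

universe u v w

open Polynomial WeierstrassCurve
open scoped Classical

variable {m : ℕ} {S : Type v} [Field S] {W : WeierstrassCurve S}

section closure

variable {K Ω Ω' : Type u} [Field K] [Algebra S K] [Field Ω] [Algebra S Ω] [Field Ω'] [Algebra S Ω']

lemma mem_cl_range_iff (i : K →ₐ[S] Ω) (x : Ω) :
    x ∈ cl (Set.range i) ↔ ∃ p : K[X], p ≠ 0 ∧ p.eval₂ (i : K →+* Ω) x = 0 := by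
  constructor
  · intro h
    rw [mem_cl] at h
    obtain ⟨p, hp, hpx⟩ := h
    have hF : Subfield.closure (Set.range i) = (i : K →+* Ω).fieldRange := by
      apply le_antisymm
      · rw [Subfield.closure_le]
        rintro _ ⟨a, rfl⟩
        exact ⟨a, rfl⟩
      · rintro _ ⟨a, rfl⟩
        exact Subfield.subset_closure ⟨a, rfl⟩
    have hsurj : ∀ y : Subfield.closure (Set.range i), ∃ a : K, i a = (y : Ω) := by
      intro y
      obtain ⟨a, ha⟩ := hF.le y.2
      exact ⟨a, ha⟩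
    have hmem : ∀ a : K, i a ∈ Subfield.closure (Set.range i) := fun a =>
      Subfield.subset_closure ⟨a, rfl⟩
    let i' : K →+* Subfield.closure (Set.range i) :=
      (i : K →+* Ω).codRestrict (Subfield.closure (Set.range i)) hmem
    have hi' : Function.Surjective i' := by
      intro y
      obtain ⟨a, ha⟩ := hsurj y
      exact ⟨a, Subtype.ext ha⟩
    obtain ⟨q, rfl⟩ := Polynomial.map_surjective i' hi' p
    refine ⟨q, ?_, ?_⟩
    · rintro rfl; simp at hp
    · rw [aeval_def, eval₂_map] at hpx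
      exact hpx
  · rintro ⟨p, hp, hpx⟩
    by_contra h
    exact hp (transc_of_notMem_cl i h p hpx)

lemma map_mem_cl_iff (i : K →ₐ[S] Ω) (g : Ω →ₐ[S] Ω') (x : Ω) :
    g x ∈ cl (Set.range (g.comp i)) ↔ x ∈ cl (Set.range i) := by
  rw [mem_cl_range_iff, mem_cl_range_iff]
  apply exists_congr
  intro p
  have h : p.eval₂ ((g.comp i : K →ₐ[S] Ω') : K →+* Ω') (g x) = g (p.eval₂ (i : K →+* Ω) x) := by
    have := Polynomial.hom_eval₂ p (i : K →+* Ω) (g : Ω →+* Ω') x
    exact this.symm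
  rw [h, map_eq_zero]

lemma Gen_map_iff (i : K →ₐ[S] Ω) (g : Ω →ₐ[S] Ω') (P : Pt W Ω) :
    Gen (g.comp i) (ptMap g P) ↔ Gen i P := by
  unfold Gen InCl
  rw [ptX_map, map_mem_cl_iff]

lemma Gen.neg {i : K →ₐ[S] Ω} {P : Pt W Ω} (h : Gen i P) : Gen i (-P) := by
  unfold Gen at *
  rwa [InCl_neg_iff (range_in_cl i)]

lemma Gen_neg_iff {i : K →ₐ[S] Ω} {P : Pt W Ω} : Gen i (-P) ↔ Gen i P :=
  ⟨fun h => by have := h.neg; rwa [neg_neg] at this, fun h => h.neg⟩

lemma liftPt_mem_cl (i : K →ₐ[S] Ω) (P : Pt W Ω) (h : Gen i P) (z : FF W K) :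
    liftPt i P h z ∈ cl (insert (ptX P) (Set.range i)) := by
  set T : Set Ω := insert (ptX P) (Set.range i) with hT
  have hS : ∀ s : S, algebraMap S Ω s ∈ cl T := fun s =>
    cl_mono (Set.subset_insert _ _) (range_in_cl i s)
  have hX : ptX P ∈ cl T := subset_cl _ (Set.mem_insert _ _)
  have hY : ptY P ∈ cl T := ptY_mem_cl hS hX
  have hi : ∀ a : K, i a ∈ cl T := fun a => subset_cl _ (Set.mem_insert_of_mem _ ⟨a, rfl⟩)
  have hpoly : ∀ f : K[X], f.eval₂ (i : K →+* Ω) (ptX P) ∈ cl T := by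
    intro f
    rw [eval₂_eq_sum_range]
    exact sum_mem (fun k _ => mul_mem (hi _) (pow_mem hX k))
  have hrat : ∀ r : RatFunc K, ratLift i P h r ∈ cl T := by
    intro r
    obtain ⟨f, g, -, rfl⟩ := IsFractionRing.div_surjective (A := K[X]) r
    rw [map_div₀, ratLift_algebraMap, ratLift_algebraMap]
    exact div_mem (hpoly f) (hpoly g)
  obtain ⟨a, b, rfl⟩ := (isQuad_gy W K).span z
  rw [map_add, map_mul, liftPt_ratHom, liftPt_ratHom, liftPt_gy]
  exact add_mem (hrat a) (mul_mem (hrat b) hY)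

lemma cl_range_liftPt (i : K →ₐ[S] Ω) (P : Pt W Ω) (h : Gen i P) :
    cl (Set.range (liftPt i P h)) = cl (insert (ptX P) (Set.range i)) := by
  apply le_antisymm
  · apply cl_le
    rintro _ ⟨z, rfl⟩
    exact liftPt_mem_cl i P h z
  · apply cl_mono
    rintro z (rfl | ⟨a, rfl⟩)
    · exact ⟨gx W K, liftPt_gx i P h⟩
    · exact ⟨base W K a, by
        rw [← AlgHom.comp_apply, liftPt_base]⟩

lemma Gen_liftPt_iff (i : K →ₐ[S] Ω) (P : Pt W Ω) (h : Gen i P) (Q : Pt W Ω) :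
    Gen (liftPt i P h) Q ↔ ¬ InCl (insert (ptX P) (Set.range i)) Q := by
  unfold Gen InCl
  rw [cl_range_liftPt]

/-- The points `P, Q` are independent over `i(K)`. -/
def Ind (i : K →ₐ[S] Ω) (P Q : Pt W Ω) : Prop :=
  Gen i P ∧ ¬ InCl (insert (ptX P) (Set.range i)) Q

lemma Ind.gen₁ {i : K →ₐ[S] Ω} {P Q : Pt W Ω} (h : Ind i P Q) : Gen i P := h.1

lemma Ind.gen₂' {i : K →ₐ[S] Ω} {P Q : Pt W Ω} (h : Ind i P Q) : Gen (liftPt i P h.gen₁) Q :=
  (Gen_liftPt_iff i P h.gen₁ Q).mpr h.2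

lemma Ind.gen₂ {i : K →ₐ[S] Ω} {P Q : Pt W Ω} (h : Ind i P Q) : Gen i Q := fun h' =>
  h.2 (h'.mono (cl_mono (Set.subset_insert _ _)))

lemma Ind.symm {i : K →ₐ[S] Ω} {P Q : Pt W Ω} (h : Ind i P Q) : Ind i Q P :=
  ⟨h.gen₂, fun h' => h.2 (InCl_exchange h' h.1)⟩

lemma insert_in_cl (i : K →ₐ[S] Ω) (x : Ω) (s : S) :
    algebraMap S Ω s ∈ cl (insert x (Set.range i)) :=
  cl_mono (Set.subset_insert _ _) (range_in_cl i s)

lemma Ind.neg_right {i : K →ₐ[S] Ω} {P Q : Pt W Ω} (h : Ind i P Q) : Ind i P (-Q) :=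
  ⟨h.1, fun h' => h.2 ((InCl_neg_iff (insert_in_cl i _)).mp h')⟩

lemma Ind.neg_left {i : K →ₐ[S] Ω} {P Q : Pt W Ω} (h : Ind i P Q) : Ind i (-P) Q :=
  h.symm.neg_right.symm

/-- Adding to the second point a point depending only on the first. -/
lemma Ind.add_right {i : K →ₐ[S] Ω} {P Q : Pt W Ω} (h : Ind i P Q) {R : Pt W Ω}
    (hR : InCl (insert (ptX P) (Set.range i)) R) : Ind i P (Q + R) :=
  ⟨h.1, fun h' => h.2 ((InCl_add_iff_left (insert_in_cl i _) hR).mp h')⟩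

lemma Ind.add_right_self {i : K →ₐ[S] Ω} {P Q : Pt W Ω} (h : Ind i P Q) : Ind i P (P + Q) := by
  rw [add_comm]
  exact h.add_right (InCl_self P)

lemma Ind.gen_add {i : K →ₐ[S] Ω} {P Q : Pt W Ω} (h : Ind i P Q) : Gen i (P + Q) :=
  h.add_right_self.gen₂

lemma Ind.map {i : K →ₐ[S] Ω} {P Q : Pt W Ω} (h : Ind i P Q) (g : Ω →ₐ[S] Ω') :
    Ind (g.comp i) (ptMap g P) (ptMap g Q) := by
  have h1 : Gen (g.comp i) (ptMap g P) := (Gen_map_iff i g P).mpr h.1
  refine ⟨h1, ?_⟩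
  rw [← Gen_liftPt_iff _ _ h1]
  have h2 : liftPt (g.comp i) (ptMap g P) h1 = g.comp (liftPt i P h.1) := by
    apply FF_hom_ext
    · rw [liftPt_base, AlgHom.comp_assoc, liftPt_base]
    · rw [liftPt_gx, AlgHom.comp_apply, liftPt_gx, ptX_map]
    · rw [liftPt_gy, AlgHom.comp_apply, liftPt_gy, ptY_map]
  rw [h2, Gen_map_iff]
  exact h.gen₂'

end closure

section ev

variable {K Ω Ω' : Type u} [Field K] [Algebra S K] [Field Ω] [Algebra S Ω] [Field Ω'] [Algebra S Ω']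

/-- The value of the class `β` at the point `P`, generic over `i(K)`. -/
noncomputable def ev (i : K →ₐ[S] Ω) (P : Pt W Ω) (β : KM m (FF W K)) : KM m Ω :=
  if h : Gen i P then KM.map m (liftPt i P h : FF W K →+* Ω) β else 0

lemma ev_of_gen {i : K →ₐ[S] Ω} {P : Pt W Ω} (h : Gen i P) (β : KM m (FF W K)) :
    ev i P β = KM.map m (liftPt i P h : FF W K →+* Ω) β := dif_pos h

lemma liftPt_comp (i : K →ₐ[S] Ω) (g : Ω →ₐ[S] Ω') (P : Pt W Ω) (h : Gen i P)
    (h' : Gen (g.comp i) (ptMap g P)) :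
    liftPt (g.comp i) (ptMap g P) h' = g.comp (liftPt i P h) := by
  apply FF_hom_ext
  · rw [liftPt_base, AlgHom.comp_assoc, liftPt_base]
  · rw [liftPt_gx, AlgHom.comp_apply, liftPt_gx, ptX_map]
  · rw [liftPt_gy, AlgHom.comp_apply, liftPt_gy, ptY_map]

lemma ev_map (i : K →ₐ[S] Ω) (g : Ω →ₐ[S] Ω') (P : Pt W Ω) (β : KM m (FF W K)) :
    ev (g.comp i) (ptMap g P) β = KM.map m (g : Ω →+* Ω') (ev i P β) := by
  by_cases h : Gen i P
  · have h' : Gen (g.comp i) (ptMap g P) := (Gen_map_iff i g P).mpr h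
    rw [ev_of_gen h, ev_of_gen h', liftPt_comp i g P h, KM.map_map]
    rfl
  · have h' : ¬ Gen (g.comp i) (ptMap g P) := fun h' => h ((Gen_map_iff i g P).mp h')
    unfold ev
    rw [dif_neg h, dif_neg h', map_zero]

lemma ev_add (i : K →ₐ[S] Ω) (P : Pt W Ω) (β β' : KM m (FF W K)) :
    ev i P (β + β') = ev i P β + ev i P β' := by
  by_cases h : Gen i P
  · simp only [ev_of_gen h, _root_.map_add]
  · simp only [ev, dif_neg h, add_zero]

lemma ev_neg (i : K →ₐ[S] Ω) (P : Pt W Ω) (β : KM m (FF W K)) :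
    ev i P (-β) = - ev i P β := by
  by_cases h : Gen i P
  · simp only [ev_of_gen h, _root_.map_neg]
  · simp only [ev, dif_neg h, _root_.neg_zero]

lemma ev_sub (i : K →ₐ[S] Ω) (P : Pt W Ω) (β β' : KM m (FF W K)) :
    ev i P (β - β') = ev i P β - ev i P β' := by
  rw [sub_eq_add_neg, ev_add, ev_neg, ← sub_eq_add_neg]

lemma ev_smul (i : K →ₐ[S] Ω) (P : Pt W Ω) (r : ZMod m) (β : KM m (FF W K)) :
    ev i P (r • β) = r • ev i P β := by
  by_cases h : Gen i P
  · simp only [ev_of_gen h, _root_.map_smul]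
  · simp only [ev, dif_neg h, smul_zero]

lemma ev_const {i : K →ₐ[S] Ω} {P : Pt W Ω} (h : Gen i P) (c : KM m K) :
    ev i P (KM.map m (base W K : K →+* FF W K) c) = KM.map m (i : K →+* Ω) c := by
  rw [ev_of_gen h, KM.map_map]
  congr 2
  have := liftPt_base i P h
  exact congrArg (fun f : K →ₐ[S] Ω => (f : K →+* Ω)) this

lemma Unr.ev {i : K →ₐ[S] Ω} {P : Pt W Ω} {β : KM m (FF W K)} (hβ : Unr β) :
    Unr (ev i P β) := by
  by_cases h : Gen i P
  · rw [ev_of_gen h]; exact hβ.map _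
  · rw [UnrH3.ev, dif_neg h]; exact Unr.zero

variable [hW : GoodW W]

lemma gen_gpt : Gen (base W K) (gpt W K) := by
  unfold Gen InCl
  rw [mem_cl_range_iff, ptX_gpt]
  rintro ⟨p, hp, hp0⟩
  apply hp
  have h1 : p.eval₂ ((base W K : K →ₐ[S] FF W K) : K →+* FF W K) (gx W K) =
      ratHom W K (algebraMap K[X] (RatFunc K) p) := by
    have h2 : ((base W K : K →ₐ[S] FF W K) : K →+* FF W K) =
        (ratHom W K).comp (algebraMap K (RatFunc K)) := by
      ext a
      exact (ratHom_algebraMap W K a).symm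
    rw [h2]
    unfold gx
    rw [← Polynomial.hom_eval₂]
    congr 1
    rw [← RatFunc.algebraMap_X]
    have h4 := aeval_algebraMap_apply (A := K[X]) (RatFunc K) (X : K[X]) p
    rw [aeval_X_left_apply] at h4
    exact h4
  rw [h1, map_eq_zero, map_eq_zero_iff _ (IsFractionRing.injective K[X] (RatFunc K))] at hp0
  exact hp0

lemma liftPt_gpt_self : liftPt (base W K) (gpt W K) gen_gpt = AlgHom.id S (FF W K) := by
  apply FF_hom_ext
  · rw [liftPt_base, AlgHom.id_comp]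
  · rw [liftPt_gx, ptX_gpt]; rfl
  · rw [liftPt_gy, ptY_gpt]; rfl

@[simp] lemma ev_self (β : KM m (FF W K)) : ev (base W K) (gpt W K) β = β := by
  rw [ev_of_gen gen_gpt, liftPt_gpt_self]
  exact congrArg (fun f : KM m (FF W K) →ₐ[ZMod m] KM m (FF W K) => f β)
    (KM.map_id (m := m) (K := FF W K))

/-- Evaluation of `ev (base) A β` at a point. -/
lemma ev_ev {i : K →ₐ[S] Ω} {P : Pt W Ω} (h : Gen i P) (A : Pt W (FF W K))
    (β : KM m (FF W K)) :
    ev i P (ev (base W K) A β) = ev i (ptMap (liftPt i P h) A) β := by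
  have h1 := ev_map (base W K) (liftPt i P h) A β
  rw [liftPt_base] at h1
  rw [h1, ev_of_gen h]

/-- The negation automorphism of the function field. -/
noncomputable def nu (W : WeierstrassCurve S) [GoodW W] (K : Type u) [Field K] [Algebra S K] :
    FF W K →ₐ[S] FF W K :=
  liftPt (base W K) (-gpt W K) gen_gpt.neg

lemma ev_neg_pt (i : K →ₐ[S] Ω) (P : Pt W Ω) (β : KM m (FF W K)) :
    ev i (-P) β = ev i P (KM.map m (nu W K : FF W K →+* FF W K) β) := by
  by_cases h : Gen i P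
  · have h1 : KM.map m (nu W K : FF W K →+* FF W K) β = ev (base W K) (-gpt W K) β :=
      (ev_of_gen gen_gpt.neg β).symm
    rw [h1, ev_ev h, _root_.map_neg, liftPt_gpt]
  · have h' : ¬ Gen i (-P) := fun h' => h (Gen_neg_iff.mp h')
    unfold ev
    rw [dif_neg h, dif_neg h']

/-- The class `β` is odd. -/
def OddCl (β : KM m (FF W K)) : Prop := KM.map m (nu W K : FF W K →+* FF W K) β = -β

/-- The class `β` is even. -/
def EvenCl (β : KM m (FF W K)) : Prop := KM.map m (nu W K : FF W K →+* FF W K) β = β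

lemma OddCl.ev_neg {β : KM m (FF W K)} (hβ : OddCl β) (i : K →ₐ[S] Ω) (P : Pt W Ω) :
    ev i (-P) β = - ev i P β := by
  rw [ev_neg_pt, hβ, UnrH3.ev_neg]

lemma nu_gx : nu W K (gx W K) = gx W K := by
  unfold nu
  rw [liftPt_gx]
  rfl

lemma nu_gy : nu W K (gy W K) = (W⁄(FF W K)).toAffine.negY (gx W K) (gy W K) := by
  unfold nu
  rw [liftPt_gy]
  rfl

lemma nu_base : (nu W K).comp (base W K) = base W K := liftPt_base _ _ _

lemma nu_ratHom : (nu W K : FF W K →+* FF W K).comp (ratHom W K) = ratHom W K := by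
  apply IsLocalization.ringHom_ext (nonZeroDivisors K[X])
  apply Polynomial.ringHom_ext
  · intro a
    simp only [RingHom.comp_apply]
    rw [← algebraMap_ratFunc_eq, ratHom_algebraMap]
    exact congrArg (fun f : K →ₐ[S] FF W K => f a) nu_base
  · simp only [RingHom.comp_apply]
    rw [RatFunc.algebraMap_X]
    exact nu_gx

/-- Even unramified classes are constant. -/
theorem EvenCl.const (hm : Odd m) {β : KM m (FF W K)} (hβ : EvenCl β) (hu : Unr β) :
    ∃ c : KM m K, Unr c ∧ KM.map m (base W K : K →+* FF W K) c = β := by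
  obtain ⟨y, hy, hyβ⟩ := (isQuad_gy W K).exists_unr_of_invariant hm
    (nu W K : FF W K →+* FF W K) nu_ratHom (by
      change nu W K (gy W K) ≠ gy W K
      rw [nu_gy]
      exact (gy_ne_negY W K).symm) hβ hu
  obtain ⟨c, hc, hcy⟩ := unr_ratFunc hm hy
  refine ⟨c, hc, ?_⟩
  rw [← hyβ, ← hcy, KM.map_map]
  congr 2

lemma base_injective (hm : Odd m) :
    Function.Injective (KM.map m (base W K : K →+* FF W K)) := by
  have h1 : (base W K : K →+* FF W K) = (ratHom W K).comp (algebraMap K (RatFunc K)) := by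
    ext a
    exact (ratHom_algebraMap W K a).symm
  intro x y hxy
  rw [h1, ← KM.map_map, ← KM.map_map] at hxy
  exact map_ratFunc_injective hm ((isQuad_gy W K).map_injective hm hxy)

end ev

end UnrH3
end

section

/-!
# The symmetric square of an elliptic curve
-/

namespace UnrH3

universe u v w

open Polynomial WeierstrassCurve
open scoped Classical

variable {m : ℕ} {S : Type v} [Field S] {W : WeierstrassCurve S}

section gen

variable {K Ω : Type u} [Field K] [Algebra S K] [Field Ω] [Algebra S Ω]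

lemma FF_range_le (φ : FF W K →ₐ[S] Ω) (F : Subfield Ω) (h1 : ∀ a : K, φ (base W K a) ∈ F)
    (hx : φ (gx W K) ∈ F) (hy : φ (gy W K) ∈ F) (z : FF W K) : φ z ∈ F := by
  have hpoly : ∀ f : K[X], φ (ratHom W K (algebraMap K[X] (RatFunc K) f)) ∈ F := by
    intro f
    induction f using Polynomial.induction_on' with
    | add p q hp hq => rw [map_add, map_add, map_add]; exact add_mem hp hq
    | monomial n a =>
      rw [← C_mul_X_pow_eq_monomial, map_mul, map_mul, map_mul, map_pow, map_pow, map_pow,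
        ← algebraMap_ratFunc_eq, ratHom_algebraMap, RatFunc.algebraMap_X]
      exact mul_mem (h1 a) (pow_mem hx n)
  have hrat : ∀ r : RatFunc K, φ (ratHom W K r) ∈ F := by
    intro r
    obtain ⟨f, g, -, rfl⟩ := IsFractionRing.div_surjective (A := K[X]) r
    rw [map_div₀, map_div₀]
    exact div_mem (hpoly f) (hpoly g)
  obtain ⟨a, b, rfl⟩ := (isQuad_gy W K).span z
  rw [map_add, map_mul]
  exact add_mem (hrat a) (mul_mem (hrat b) hy)

end gen

section line

variable {Ω : Type u} [Field Ω] (V : Affine Ω)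

/-- The chord through two points. -/
lemma chord {x₁ x₂ y₁ y₂ : Ω} (h₁ : V.Equation x₁ y₁) (h₂ : V.Equation x₂ y₂) (hx : x₁ ≠ x₂)
    {ℓ x₃ n₃ : Ω} (hℓ : ℓ = V.slope x₁ x₂ y₁ y₂) (hx₃ : x₃ = V.addX x₁ x₂ ℓ)
    (hn₃ : n₃ = V.negAddY x₁ x₂ y₁ ℓ) :
    x₁ + x₂ = ℓ ^ 2 + V.a₁ * ℓ - V.a₂ - x₃ ∧
    x₁ * x₂ = (x₁ + x₂) ^ 2 + V.a₂ * (x₁ + x₂) + V.a₄ - ℓ ^ 2 * (x₁ + x₂) -
      2 * ℓ * (n₃ - ℓ * x₃) - V.a₁ * ℓ * (x₁ + x₂) - V.a₁ * (n₃ - ℓ * x₃) - V.a₃ * ℓ ∧
    y₁ = ℓ * (x₁ - x₃) + n₃ ∧ y₂ = ℓ * (x₂ - x₃) + n₃ := by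
  rw [Affine.equation_iff] at h₁ h₂
  have hd : x₁ - x₂ ≠ 0 := sub_ne_zero.mpr hx
  have hs : ℓ * (x₁ - x₂) = y₁ - y₂ := by
    rw [hℓ, Affine.slope_of_X_ne hx, div_mul_cancel₀ _ hd]
  have hy₁ : y₁ = ℓ * (x₁ - x₃) + n₃ := by
    rw [hn₃, Affine.negAddY, ← hx₃]; ring
  have hy₂ : y₂ = ℓ * (x₂ - x₃) + n₃ := by
    linear_combination hy₁ + hs
  refine ⟨by rw [hx₃, Affine.addX]; ring, ?_, hy₁, hy₂⟩
  apply mul_left_cancel₀ hd
  set ν := n₃ - ℓ * x₃ with hν
  have e1 : y₁ = ℓ * x₁ + ν := by rw [hν]; linear_combination hy₁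
  have e2 : y₂ = ℓ * x₂ + ν := by rw [hν]; linear_combination hy₂
  rw [e1] at h₁
  rw [e2] at h₂
  linear_combination h₁ - h₂

end line

section two

variable {K Ω : Type u} [Field K] [Algebra S K] [Field Ω] [Algebra S Ω]

lemma Ind.X_ne {i : K →ₐ[S] Ω} {P Q : Pt W Ω} (h : Ind i P Q) : ptX P ≠ ptX Q := by
  intro hx
  apply h.2
  change ptX Q ∈ _
  rw [← hx]
  exact InCl_self P

lemma Ind.chord {i : K →ₐ[S] Ω} {P Q : Pt W Ω} (h : Ind i P Q) {ℓ : Ω}
    (hℓ : ℓ = (W⁄Ω).toAffine.slope (ptX P) (ptX Q) (ptY P) (ptY Q)) :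
    ptX P + ptX Q = ℓ ^ 2 + (W⁄Ω).a₁ * ℓ - (W⁄Ω).a₂ - ptX (P + Q) ∧
    ptX P * ptX Q = (ptX P + ptX Q) ^ 2 + (W⁄Ω).a₂ * (ptX P + ptX Q) + (W⁄Ω).a₄ -
      ℓ ^ 2 * (ptX P + ptX Q) -
      2 * ℓ * ((W⁄Ω).toAffine.negY (ptX (P + Q)) (ptY (P + Q)) - ℓ * ptX (P + Q)) -
      (W⁄Ω).a₁ * ℓ * (ptX P + ptX Q) -
      (W⁄Ω).a₁ * ((W⁄Ω).toAffine.negY (ptX (P + Q)) (ptY (P + Q)) - ℓ * ptX (P + Q)) -
      (W⁄Ω).a₃ * ℓ ∧
    ptY P = ℓ * (ptX P - ptX (P + Q)) + (W⁄Ω).toAffine.negY (ptX (P + Q)) (ptY (P + Q)) ∧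
    ptY Q = ℓ * (ptX Q - ptX (P + Q)) + (W⁄Ω).toAffine.negY (ptX (P + Q)) (ptY (P + Q)) := by
  obtain ⟨h₁, hP⟩ := h.gen₁.some
  obtain ⟨h₂, hQ⟩ := h.gen₂.some
  have hx := h.X_ne
  have hsum : P + Q = .some _ _ ((W⁄Ω).toAffine.nonsingular_add h₁ h₂ fun hxy => hx hxy.left) := by
    conv_lhs => rw [hP, hQ]
    exact Affine.Point.add_of_X_ne hx
  have hX : ptX (P + Q) = (W⁄Ω).toAffine.addX (ptX P) (ptX Q) ℓ := by
    rw [hsum, ptX_some, hℓ]
  have hY : (W⁄Ω).toAffine.negY (ptX (P + Q)) (ptY (P + Q)) =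
      (W⁄Ω).toAffine.negAddY (ptX P) (ptX Q) (ptY P) ℓ := by
    rw [hX, hsum, ptY_some, ← hℓ]
    unfold Affine.addY
    rw [Affine.negY_negY]
  rw [hY]
  exact UnrH3.chord (W⁄Ω).toAffine h₁.1 h₂.1 hx hℓ hX rfl

/-- The slope of the chord is transcendental over the field of the sum. -/
lemma Ind.slope_notMem {i : K →ₐ[S] Ω} {P Q : Pt W Ω} (h : Ind i P Q) :
    (W⁄Ω).toAffine.slope (ptX P) (ptX Q) (ptY P) (ptY Q) ∉
      cl (insert (ptX (P + Q)) (Set.range i)) := by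
  set ℓ := (W⁄Ω).toAffine.slope (ptX P) (ptX Q) (ptY P) (ptY Q) with hℓ
  intro hmem
  obtain ⟨hs, ht, -, -⟩ := h.chord hℓ
  set T : Set Ω := insert (ptX (P + Q)) (Set.range i) with hT
  have hS : ∀ s : S, algebraMap S Ω s ∈ cl T := insert_in_cl i _
  have hX : ptX (P + Q) ∈ cl T := subset_cl _ (Set.mem_insert _ _)
  have hY : ptY (P + Q) ∈ cl T := ptY_mem_cl hS hX
  have a1 : (W⁄Ω).a₁ ∈ cl T := hS _
  have a2 : (W⁄Ω).a₂ ∈ cl T := hS _
  have a3 : (W⁄Ω).a₃ ∈ cl T := hS _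
  have a4 : (W⁄Ω).a₄ ∈ cl T := hS _
  have h2 : (2 : Ω) ∈ cl T := by
    have := add_mem (one_mem (cl T)) (one_mem (cl T)); rwa [one_add_one_eq_two] at this
  have hn : (W⁄Ω).toAffine.negY (ptX (P + Q)) (ptY (P + Q)) ∈ cl T := by
    unfold Affine.negY
    exact sub_mem (sub_mem (neg_mem hY) (mul_mem a1 hX)) a3
  have hs' : ptX P + ptX Q ∈ cl T := by
    rw [hs]
    exact sub_mem (sub_mem (add_mem (pow_mem hmem 2) (mul_mem a1 hmem)) a2) hX
  have hν := sub_mem hn (mul_mem hmem hX)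
  have ht' : ptX P * ptX Q ∈ cl T := by
    rw [ht]
    exact sub_mem (sub_mem (sub_mem (sub_mem (sub_mem (add_mem (add_mem (pow_mem hs' 2)
      (mul_mem a2 hs')) a4) (mul_mem (pow_mem hmem 2) hs')) (mul_mem (mul_mem h2 hmem) hν))
      (mul_mem (mul_mem a1 hmem) hs')) (mul_mem a1 hν)) (mul_mem a3 hmem)
  have hPcl : InCl T P := by
    change ptX P ∈ cl T
    apply mem_cl_of_isAlg (F := cl T) le_rfl
    refine ⟨X ^ 2 - C (⟨_, hs'⟩ : cl T) * X + C (⟨_, ht'⟩ : cl T), ?_, ?_⟩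
    · intro h0
      have := congrArg (fun p : (cl T)[X] => p.coeff 2) h0
      simp at this
    · simp only [map_sub, map_add, map_pow, aeval_X, map_mul, aeval_C]
      change ptX P ^ 2 - (ptX P + ptX Q) * ptX P + ptX P * ptX Q = 0
      ring
  -- exchange
  have h3 : InCl (insert (ptX P) (Set.range i)) (P + Q) := InCl_exchange hPcl h.1
  exact h.2 ((InCl_add_iff_right (insert_in_cl i _) (InCl_self P)).mp h3)

end two

section K2

variable (W) (K : Type u) [Field K] [Algebra S K] [hW : GoodW W]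

/-- The function field of the square of the curve. -/
abbrev F2 : Type u := FF W (FF W K)

/-- The inclusion of the base field in the function field of the square. -/
noncomputable def i2 : K →ₐ[S] F2 W K := (base W (FF W K)).comp (base W K)

/-- The first generic point. -/
noncomputable def P2 : Pt W (F2 W K) := ptMap (base W (FF W K)) (gpt W K)

/-- The second generic point. -/
noncomputable def Q2 : Pt W (F2 W K) := gpt W (FF W K)

lemma gen_P2 : Gen (i2 W K) (P2 W K) := (Gen_map_iff _ _ _).mpr gen_gpt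

lemma liftPt_P2 : liftPt (i2 W K) (P2 W K) (gen_P2 W K) = base W (FF W K) := by
  have h := liftPt_comp (base W K) (base W (FF W K)) (gpt W K) gen_gpt (gen_P2 W K)
  rw [liftPt_gpt_self] at h
  exact h

lemma ind_P2_Q2 : Ind (i2 W K) (P2 W K) (Q2 W K) := by
  refine ⟨gen_P2 W K, ?_⟩
  rw [← Gen_liftPt_iff (i2 W K) (P2 W K) (gen_P2 W K), liftPt_P2]
  exact gen_gpt

end K2

section lift2

variable {K Ω Ω' : Type u} [Field K] [Algebra S K] [Field Ω] [Algebra S Ω] [Field Ω'] [Algebra S Ω']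

/-- The homomorphism of function fields attached to a pair of independent points. -/
noncomputable def lift2 (i : K →ₐ[S] Ω) (P Q : Pt W Ω) (h : Ind i P Q) : F2 W K →ₐ[S] Ω :=
  liftPt (liftPt i P h.gen₁) Q h.gen₂'

lemma lift2_base (i : K →ₐ[S] Ω) (P Q : Pt W Ω) (h : Ind i P Q) :
    (lift2 i P Q h).comp (base W (FF W K)) = liftPt i P h.gen₁ := liftPt_base _ _ _

lemma lift2_i2 (i : K →ₐ[S] Ω) (P Q : Pt W Ω) (h : Ind i P Q) :
    (lift2 i P Q h).comp (i2 W K) = i := by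
  unfold i2
  rw [← AlgHom.comp_assoc, lift2_base, liftPt_base]

variable [hW : GoodW W]

lemma ptMap_comp (f : K →ₐ[S] Ω) (g : Ω →ₐ[S] Ω') (P : Pt W K) :
    ptMap (g.comp f) P = ptMap g (ptMap f P) := (Affine.Point.map_map f g P).symm

lemma ptMap_id (P : Pt W K) : ptMap (AlgHom.id S K) P = P := by
  rcases P with _ | ⟨x, y, h⟩ <;> rfl

lemma lift2_P2 (i : K →ₐ[S] Ω) (P Q : Pt W Ω) (h : Ind i P Q) :
    ptMap (lift2 i P Q h) (P2 W K) = P := by
  unfold P2
  rw [← ptMap_comp, lift2_base, liftPt_gpt]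

lemma lift2_Q2 (i : K →ₐ[S] Ω) (P Q : Pt W Ω) (h : Ind i P Q) :
    ptMap (lift2 i P Q h) (Q2 W K) = Q := liftPt_gpt _ _ _

lemma F2_hom_ext {φ ψ : F2 W K →ₐ[S] Ω} (h1 : φ.comp (i2 W K) = ψ.comp (i2 W K))
    (hP : ptMap φ (P2 W K) = ptMap ψ (P2 W K)) (hQ : ptMap φ (Q2 W K) = ptMap ψ (Q2 W K)) :
    φ = ψ := by
  apply FF_hom_ext' _ hQ
  apply FF_hom_ext'
  · exact h1
  · rw [ptMap_comp, ptMap_comp]
    exact hP

/-- The value of a two-variable class at a pair of independent points. -/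
noncomputable def ev2 (i : K →ₐ[S] Ω) (P Q : Pt W Ω) (α : KM m (F2 W K)) : KM m Ω :=
  if h : Ind i P Q then KM.map m (lift2 i P Q h : F2 W K →+* Ω) α else 0

lemma ev2_of_ind {i : K →ₐ[S] Ω} {P Q : Pt W Ω} (h : Ind i P Q) (α : KM m (F2 W K)) :
    ev2 i P Q α = KM.map m (lift2 i P Q h : F2 W K →+* Ω) α := dif_pos h

lemma ev2_eq_ev {i : K →ₐ[S] Ω} {P Q : Pt W Ω} (h : Ind i P Q) (α : KM m (F2 W K)) :
    ev2 i P Q α = ev (liftPt i P h.gen₁) Q α := by
  rw [ev2_of_ind h, ev_of_gen h.gen₂']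
  rfl

lemma lift2_comp (i : K →ₐ[S] Ω) (g : Ω →ₐ[S] Ω') (P Q : Pt W Ω) (h : Ind i P Q)
    (h' : Ind (g.comp i) (ptMap g P) (ptMap g Q)) :
    lift2 (g.comp i) (ptMap g P) (ptMap g Q) h' = g.comp (lift2 i P Q h) := by
  apply F2_hom_ext
  · rw [lift2_i2, AlgHom.comp_assoc, lift2_i2]
  · rw [lift2_P2, ptMap_comp, lift2_P2]
  · rw [lift2_Q2, ptMap_comp, lift2_Q2]

lemma ev2_map {i : K →ₐ[S] Ω} (g : Ω →ₐ[S] Ω') {P Q : Pt W Ω} (h : Ind i P Q)
    (α : KM m (F2 W K)) :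
    ev2 (g.comp i) (ptMap g P) (ptMap g Q) α = KM.map m (g : Ω →+* Ω') (ev2 i P Q α) := by
  rw [ev2_of_ind h, ev2_of_ind (h.map g), lift2_comp i g P Q h (h.map g), KM.map_map]
  rfl

lemma lift2_self : lift2 (i2 W K) (P2 W K) (Q2 W K) (ind_P2_Q2 W K) = AlgHom.id S _ := by
  apply F2_hom_ext
  · rw [lift2_i2]; rfl
  · rw [lift2_P2, ptMap_id]
  · rw [lift2_Q2, ptMap_id]

@[simp] lemma ev2_self (α : KM m (F2 W K)) : ev2 (i2 W K) (P2 W K) (Q2 W K) α = α := by
  rw [ev2_of_ind (ind_P2_Q2 W K), lift2_self]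
  exact congrArg (fun f : KM m (F2 W K) →ₐ[ZMod m] KM m (F2 W K) => f α)
    (KM.map_id (m := m) (K := F2 W K))

lemma ev2_add {i : K →ₐ[S] Ω} {P Q : Pt W Ω} (α β : KM m (F2 W K)) :
    ev2 i P Q (α + β) = ev2 i P Q α + ev2 i P Q β := by
  by_cases h : Ind i P Q
  · simp only [ev2_of_ind h, _root_.map_add]
  · simp only [ev2, dif_neg h, add_zero]

lemma ev2_neg {i : K →ₐ[S] Ω} {P Q : Pt W Ω} (α : KM m (F2 W K)) :
    ev2 i P Q (-α) = - ev2 i P Q α := by
  by_cases h : Ind i P Q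
  · simp only [ev2_of_ind h, _root_.map_neg]
  · simp only [ev2, dif_neg h, _root_.neg_zero]

lemma Unr.ev2 {i : K →ₐ[S] Ω} {P Q : Pt W Ω} {α : KM m (F2 W K)} (hα : Unr α) :
    Unr (ev2 i P Q α) := by
  by_cases h : Ind i P Q
  · rw [ev2_of_ind h]; exact hα.map _
  · rw [UnrH3.ev2, dif_neg h]; exact Unr.zero

/-- Evaluating `α(A, B)`, for points `A, B` of the generic field, at `(P, Q)`. -/
lemma ev2_ev2 {i : K →ₐ[S] Ω} {P Q : Pt W Ω} (h : Ind i P Q) {A B : Pt W (F2 W K)}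
    (hAB : Ind (i2 W K) A B) (α : KM m (F2 W K)) :
    ev2 i P Q (ev2 (i2 W K) A B α) =
      ev2 i (ptMap (lift2 i P Q h) A) (ptMap (lift2 i P Q h) B) α := by
  have h1 := ev2_map (lift2 i P Q h) hAB α
  rw [lift2_i2] at h1
  rw [h1, ev2_of_ind h]

lemma ev2_ev {i : K →ₐ[S] Ω} {P Q : Pt W Ω} (h : Ind i P Q) {A : Pt W (F2 W K)}
    (β : KM m (FF W K)) :
    ev2 i P Q (ev (i2 W K) A β) = ev i (ptMap (lift2 i P Q h) A) β := by
  have h1 := ev_map (i2 W K) (lift2 i P Q h) A β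
  rw [lift2_i2] at h1
  rw [h1, ev2_of_ind h]

end lift2

end UnrH3
end

section

/-!
# Symmetric classes on the square come from the sum
-/

namespace UnrH3

universe u v w

open Polynomial WeierstrassCurve
open scoped Classical

variable {m : ℕ} {S : Type v} [Field S]

section quadsub

variable {K' Ω : Type u} [Field K'] [Field Ω]

/-- The subfield generated by a quadratic element. -/
lemma exists_quad_subfield (j : K' →+* Ω) (θ : Ω) (s t : K') (hθ : θ * θ = j s * θ - j t)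
    (hnot : ∀ a, j a ≠ θ) : ∃ F : Subfield Ω, ∀ z, z ∈ F ↔ ∃ a b : K', z = j a + j b * θ := by
  refine ⟨{ carrier := {z | ∃ a b : K', z = j a + j b * θ}
            mul_mem' := ?_, one_mem' := ⟨1, 0, by simp⟩, add_mem' := ?_
            zero_mem' := ⟨0, 0, by simp⟩, neg_mem' := ?_, inv_mem' := ?_ }, fun z => Iff.rfl⟩
  · rintro _ _ ⟨a, b, rfl⟩ ⟨c, d, rfl⟩
    refine ⟨a * c - b * d * t, a * d + b * c + b * d * s, ?_⟩
    simp only [map_add, map_sub, map_mul]
    linear_combination (j b * j d) * hθ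
  · rintro _ _ ⟨a, b, rfl⟩ ⟨c, d, rfl⟩
    refine ⟨a + c, b + d, ?_⟩
    simp only [map_add]
    ring
  · rintro _ ⟨a, b, rfl⟩
    refine ⟨-a, -b, ?_⟩
    simp only [map_neg]
    ring
  · rintro _ ⟨a, b, rfl⟩
    by_cases hz : j a + j b * θ = 0
    · exact ⟨0, 0, by rw [hz]; simp⟩
    set n := a ^ 2 + a * b * s + b ^ 2 * t with hn
    have hprod : (j a + j b * θ) * (j (a + b * s) - j b * θ) = j n := by
      rw [hn]
      simp only [map_add, map_mul, map_pow]
      linear_combination -(j b) ^ 2 * hθ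
    have hn0 : n ≠ 0 := by
      intro h0
      rw [h0, map_zero] at hprod
      have h1 := (mul_eq_zero.mp hprod).resolve_left hz
      by_cases hb : b = 0
      · subst hb
        simp at h1 hz
        exact hz h1
      · apply hnot ((a + b * s) / b)
        rw [map_div₀, div_eq_iff ((map_ne_zero j).mpr hb)]
        linear_combination h1
    refine ⟨(a + b * s) / n, -b / n, ?_⟩
    have hjn : j n ≠ 0 := (map_ne_zero j).mpr hn0
    apply inv_eq_of_mul_eq_one_right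
    have h2 : j ((a + b * s) / n) + j (-b / n) * θ = (j (a + b * s) - j b * θ) / j n := by
      rw [map_div₀, map_div₀, map_neg]
      field_simp
      ring
    rw [h2, mul_div_assoc', hprod, div_self hjn]

end quadsub

section core

variable (W : WeierstrassCurve S) (K : Type u) [Field K] [Algebra S K] [hW : GoodW W]

/-- The sum of the two generic points. -/
noncomputable abbrev A2 : Pt W (F2 W K) := P2 W K + Q2 W K

lemma gen_A2 : Gen (i2 W K) (A2 W K) := (ind_P2_Q2 W K).gen_add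

/-- The embedding of function fields given by the sum. -/
noncomputable def phi2 : FF W K →ₐ[S] F2 W K := liftPt (i2 W K) (A2 W K) (gen_A2 W K)

/-- The slope of the chord through the two generic points. -/
noncomputable def lam : F2 W K :=
  (W⁄(F2 W K)).toAffine.slope (ptX (P2 W K)) (ptX (Q2 W K)) (ptY (P2 W K)) (ptY (Q2 W K))

lemma lam_notMem : lam W K ∉ cl (Set.range (phi2 W K)) := by
  unfold phi2
  rw [cl_range_liftPt]
  exact (ind_P2_Q2 W K).slope_notMem

/-- The embedding of the rational function field over `K(P+Q)` given by the slope. -/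
noncomputable def jS : RatFunc (FF W K) →+* F2 W K :=
  IsFractionRing.lift (A := (FF W K)[X]) (g := eval₂RingHom (phi2 W K : FF W K →+* F2 W K) (lam W K))
    ((injective_iff_map_eq_zero _).mpr (transc_of_notMem_cl (phi2 W K) (lam_notMem W K)))

lemma jS_algebraMap (f : (FF W K)[X]) :
    jS W K (algebraMap (FF W K)[X] (RatFunc (FF W K)) f) =
      f.eval₂ (phi2 W K : FF W K →+* F2 W K) (lam W K) := by
  unfold jS
  rw [IsFractionRing.lift_algebraMap]
  rfl

lemma jS_const (a : FF W K) :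
    jS W K (algebraMap (FF W K) (RatFunc (FF W K)) a) = phi2 W K a := by
  rw [algebraMap_ratFunc_eq, jS_algebraMap, eval₂_C]
  rfl

lemma jS_X : jS W K RatFunc.X = lam W K := by
  rw [← RatFunc.algebraMap_X, jS_algebraMap, eval₂_X]

/-- The swap of the two points. -/
noncomputable def tau : F2 W K →ₐ[S] F2 W K :=
  lift2 (i2 W K) (Q2 W K) (P2 W K) (ind_P2_Q2 W K).symm

lemma tau_P2 : ptMap (tau W K) (P2 W K) = Q2 W K := lift2_P2 _ _ _ _
lemma tau_Q2 : ptMap (tau W K) (Q2 W K) = P2 W K := lift2_Q2 _ _ _ _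
lemma tau_i2 : (tau W K).comp (i2 W K) = i2 W K := lift2_i2 _ _ _ _

lemma tau_phi2 : (tau W K).comp (phi2 W K) = phi2 W K := by
  apply FF_hom_ext'
  · unfold phi2
    rw [AlgHom.comp_assoc, liftPt_base, tau_i2]
  · rw [ptMap_comp]
    unfold phi2
    rw [liftPt_gpt, map_add, tau_P2, tau_Q2, add_comm]

lemma tau_lam : tau W K (lam W K) = lam W K := by
  have hx := (ind_P2_Q2 W K).X_ne
  have e1 : tau W K (ptX (P2 W K)) = ptX (Q2 W K) := by rw [← ptX_map, tau_P2]
  have e2 : tau W K (ptX (Q2 W K)) = ptX (P2 W K) := by rw [← ptX_map, tau_Q2]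
  have e3 : tau W K (ptY (P2 W K)) = ptY (Q2 W K) := by rw [← ptY_map, tau_P2]
  have e4 : tau W K (ptY (Q2 W K)) = ptY (P2 W K) := by rw [← ptY_map, tau_Q2]
  unfold lam
  rw [Affine.slope_of_X_ne hx, map_div₀, map_sub, map_sub, e1, e2, e3, e4]
  rw [← neg_sub (ptY (P2 W K)), ← neg_sub (ptX (P2 W K)), neg_div_neg_eq]

lemma tau_jS : (tau W K : F2 W K →+* F2 W K).comp (jS W K) = jS W K := by
  apply IsLocalization.ringHom_ext (nonZeroDivisors (FF W K)[X])
  apply Polynomial.ringHom_ext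
  · intro a
    simp only [RingHom.comp_apply]
    rw [← algebraMap_ratFunc_eq, jS_const]
    exact congrArg (fun f : FF W K →ₐ[S] F2 W K => f a) (tau_phi2 W K)
  · simp only [RingHom.comp_apply]
    rw [RatFunc.algebraMap_X, jS_X]
    exact tau_lam W K

lemma isQuad_jS : IsQuad (jS W K) (ptX (P2 W K)) := by
  have hnot : ∀ a, jS W K a ≠ ptX (P2 W K) := by
    intro a ha
    have h1 : tau W K (jS W K a) = jS W K a :=
      congrArg (fun f : RatFunc (FF W K) →+* F2 W K => f a) (tau_jS W K)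
    rw [ha, ← ptX_map, tau_P2] at h1
    exact (ind_P2_Q2 W K).X_ne h1.symm
  set R := (jS W K).fieldRange with hR
  obtain ⟨hs, ht, hyP, hyQ⟩ := (ind_P2_Q2 W K).chord (ℓ := lam W K) rfl
  have hℓ : lam W K ∈ R := ⟨RatFunc.X, jS_X W K⟩
  have hphi : ∀ a, phi2 W K a ∈ R := fun a => ⟨_, jS_const W K a⟩
  have hS : ∀ s : S, algebraMap S (F2 W K) s ∈ R := by
    intro s
    have := hphi (algebraMap S (FF W K) s)
    rwa [AlgHom.commutes] at this
  have hXA : ptX (P2 W K + Q2 W K) ∈ R := by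
    have := hphi (gx W K)
    unfold phi2 at this
    rwa [liftPt_gx] at this
  have hYA : ptY (P2 W K + Q2 W K) ∈ R := by
    have := hphi (gy W K)
    unfold phi2 at this
    rwa [liftPt_gy] at this
  have a1 : (W⁄(F2 W K)).a₁ ∈ R := hS _
  have a2 : (W⁄(F2 W K)).a₂ ∈ R := hS _
  have a3 : (W⁄(F2 W K)).a₃ ∈ R := hS _
  have a4 : (W⁄(F2 W K)).a₄ ∈ R := hS _
  have h2 : (2 : F2 W K) ∈ R := by
    have := add_mem (one_mem R) (one_mem R); rwa [one_add_one_eq_two] at this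
  have hn : (W⁄(F2 W K)).toAffine.negY (ptX (P2 W K + Q2 W K)) (ptY (P2 W K + Q2 W K)) ∈ R := by
    unfold Affine.negY
    exact sub_mem (sub_mem (neg_mem hYA) (mul_mem a1 hXA)) a3
  have hs' : ptX (P2 W K) + ptX (Q2 W K) ∈ R := by
    rw [hs]
    exact sub_mem (sub_mem (add_mem (pow_mem hℓ 2) (mul_mem a1 hℓ)) a2) hXA
  have hν := sub_mem hn (mul_mem hℓ hXA)
  have ht' : ptX (P2 W K) * ptX (Q2 W K) ∈ R := by
    rw [ht]
    exact sub_mem (sub_mem (sub_mem (sub_mem (sub_mem (add_mem (add_mem (pow_mem hs' 2)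
      (mul_mem a2 hs')) a4) (mul_mem (pow_mem hℓ 2) hs')) (mul_mem (mul_mem h2 hℓ) hν))
      (mul_mem (mul_mem a1 hℓ) hs')) (mul_mem a1 hν)) (mul_mem a3 hℓ)
  obtain ⟨s, hs0⟩ := hs'
  obtain ⟨t, ht0⟩ := ht'
  obtain ⟨F, hF⟩ := exists_quad_subfield (jS W K) (ptX (P2 W K)) s t
    (by rw [hs0, ht0]; ring) hnot
  have hRF : ∀ z ∈ R, z ∈ F := by
    rintro _ ⟨a, rfl⟩
    exact (hF _).mpr ⟨a, 0, by simp⟩
  have hXP : ptX (P2 W K) ∈ F := (hF _).mpr ⟨0, 1, by simp⟩
  have hXQ : ptX (Q2 W K) ∈ F := by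
    have h3 := sub_mem (hRF _ ⟨s, hs0⟩) hXP
    rwa [add_sub_cancel_left] at h3
  have hYP : ptY (P2 W K) ∈ F := by
    rw [hyP]
    exact add_mem (mul_mem (hRF _ hℓ) (sub_mem hXP (hRF _ hXA))) (hRF _ hn)
  have hYQ : ptY (Q2 W K) ∈ F := by
    rw [hyQ]
    exact add_mem (mul_mem (hRF _ hℓ) (sub_mem hXQ (hRF _ hXA))) (hRF _ hn)
  refine ⟨?_, hnot⟩
  intro z
  rw [← hF]
  have h1 : ∀ a : FF W K, base W (FF W K) a ∈ F := by
    apply FF_range_le (base W (FF W K)) F
    · intro a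
      have h4 : base W (FF W K) (base W K a) = phi2 W K (base W K a) := by
        have h5 : (phi2 W K).comp (base W K) = i2 W K := liftPt_base _ _ _
        exact (congrArg (fun f : K →ₐ[S] F2 W K => f a) h5).symm
      rw [h4]
      exact hRF _ (hphi _)
    · have : base W (FF W K) (gx W K) = ptX (P2 W K) := by
        unfold P2; rw [ptX_map, ptX_gpt]
      rw [this]; exact hXP
    · have : base W (FF W K) (gy W K) = ptY (P2 W K) := by
        unfold P2; rw [ptY_map, ptY_gpt]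
      rw [this]; exact hYP
  exact FF_range_le (AlgHom.id S (F2 W K)) F h1 hXQ hYQ z

variable {W} {K}

/-- Symmetric unramified classes on the square are pulled back along the sum map. -/
theorem symm_class (hm : Odd m) {γ : KM m (F2 W K)} (hγ : Unr γ)
    (hτ : ev2 (i2 W K) (Q2 W K) (P2 W K) γ = γ) :
    ∃ β : KM m (FF W K), Unr β ∧ ev (i2 W K) (A2 W K) β = γ := by
  have hτ' : KM.map m (tau W K : F2 W K →+* F2 W K) γ = γ := by
    rw [ev2_of_ind (ind_P2_Q2 W K).symm] at hτ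
    exact hτ
  obtain ⟨δ, hδ, hδγ⟩ := (isQuad_jS W K).exists_unr_of_invariant hm
    (tau W K : F2 W K →+* F2 W K) (tau_jS W K) (by
      change tau W K (ptX (P2 W K)) ≠ ptX (P2 W K)
      rw [← ptX_map, tau_P2]
      exact (ind_P2_Q2 W K).X_ne.symm) hτ' hγ
  obtain ⟨β, hβ, hβδ⟩ := unr_ratFunc hm hδ
  refine ⟨β, hβ, ?_⟩
  rw [ev_of_gen (gen_A2 W K), ← hδγ, ← hβδ, KM.map_map]
  congr 2
  ext a
  exact (jS_const W K a).symm

end core

end UnrH3
end

section

/-!
# Additivity and alternation of odd unramified classes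
-/

namespace UnrH3

universe u v w

open Polynomial WeierstrassCurve
open scoped Classical

variable {m : ℕ} {S : Type v} [Field S] {W : WeierstrassCurve S}

section ind3

variable {K Ω Ω' : Type u} [Field K] [Algebra S K] [Field Ω] [Algebra S Ω] [Field Ω'] [Algebra S Ω']

/-- The points `P, Q, R` are independent over `i(K)`. -/
def Ind3 (i : K →ₐ[S] Ω) (P Q R : Pt W Ω) : Prop :=
  Ind i P Q ∧ ¬ InCl (insert (ptX Q) (insert (ptX P) (Set.range i))) R

lemma insert2_in_cl (i : K →ₐ[S] Ω) (x y : Ω) (s : S) :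
    algebraMap S Ω s ∈ cl (insert y (insert x (Set.range i))) :=
  cl_mono (Set.subset_insert _ _) (insert_in_cl i x s)

lemma Ind3.swap12 {i : K →ₐ[S] Ω} {P Q R : Pt W Ω} (h : Ind3 i P Q R) : Ind3 i Q P R :=
  ⟨h.1.symm, by rw [Set.insert_comm]; exact h.2⟩

lemma Ind3.ind12 {i : K →ₐ[S] Ω} {P Q R : Pt W Ω} (h : Ind3 i P Q R) : Ind i P Q := h.1

lemma Ind3.ind13 {i : K →ₐ[S] Ω} {P Q R : Pt W Ω} (h : Ind3 i P Q R) : Ind i P R :=
  ⟨h.1.1, fun h' => h.2 (h'.mono (cl_mono (Set.subset_insert _ _)))⟩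

lemma Ind3.swap23 {i : K →ₐ[S] Ω} {P Q R : Pt W Ω} (h : Ind3 i P Q R) : Ind3 i P R Q :=
  ⟨h.ind13, fun h' => h.2 (InCl_exchange h' h.1.2)⟩

lemma Ind3.ind23 {i : K →ₐ[S] Ω} {P Q R : Pt W Ω} (h : Ind3 i P Q R) : Ind i Q R :=
  h.swap12.ind13

lemma Ind3.swap13 {i : K →ₐ[S] Ω} {P Q R : Pt W Ω} (h : Ind3 i P Q R) : Ind3 i R Q P :=
  h.swap12.swap23.swap12

lemma Ind3.rot {i : K →ₐ[S] Ω} {P Q R : Pt W Ω} (h : Ind3 i P Q R) : Ind3 i Q R P :=
  h.swap12.swap23

lemma Ind3.add_right {i : K →ₐ[S] Ω} {P Q R : Pt W Ω} (h : Ind3 i P Q R) {T : Pt W Ω}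
    (hT : InCl (insert (ptX Q) (insert (ptX P) (Set.range i))) T) : Ind3 i P Q (R + T) :=
  ⟨h.1, fun h' => h.2 ((InCl_add_iff_left (insert2_in_cl i _ _) hT).mp h')⟩

lemma Ind3.neg_right {i : K →ₐ[S] Ω} {P Q R : Pt W Ω} (h : Ind3 i P Q R) : Ind3 i P Q (-R) :=
  ⟨h.1, fun h' => h.2 ((InCl_neg_iff (insert2_in_cl i _ _)).mp h')⟩

lemma Ind3.neg_left {i : K →ₐ[S] Ω} {P Q R : Pt W Ω} (h : Ind3 i P Q R) : Ind3 i (-P) Q R :=
  h.swap13.neg_right.swap13

lemma Ind3.neg_mid {i : K →ₐ[S] Ω} {P Q R : Pt W Ω} (h : Ind3 i P Q R) : Ind3 i P (-Q) R :=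
  h.swap23.neg_right.swap23

lemma InCl_left {T : Set Ω} (P : Pt W Ω) (x : Ω) : InCl (insert x (insert (ptX P) T)) P :=
  subset_cl _ (Set.mem_insert_of_mem _ (Set.mem_insert _ _))

lemma Ind3.add_right_left {i : K →ₐ[S] Ω} {P Q R : Pt W Ω} (h : Ind3 i P Q R) :
    Ind3 i P Q (R + P) := h.add_right (InCl_left P _)

lemma Ind3.add_right_mid {i : K →ₐ[S] Ω} {P Q R : Pt W Ω} (h : Ind3 i P Q R) :
    Ind3 i P Q (R + Q) := h.add_right (InCl_self Q)

/-- Passing from three to two points. -/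
lemma Ind3.ind_of_inCl {i : K →ₐ[S] Ω} {P Q R A : Pt W Ω} (h : Ind3 i P Q R) (hA : Gen i A)
    (hA' : InCl (insert (ptX Q) (insert (ptX P) (Set.range i))) A) : Ind i A R := by
  refine ⟨hA, fun h' => h.2 (h'.mono (cl_le ?_))⟩
  rintro z (rfl | hz)
  · exact hA'
  · exact subset_cl _ (Set.mem_insert_of_mem _ (Set.mem_insert_of_mem _ hz))

lemma Ind3.ind_add {i : K →ₐ[S] Ω} {P Q R : Pt W Ω} (h : Ind3 i P Q R) : Ind i (P + Q) R :=
  h.ind_of_inCl h.1.gen_add ((InCl_left P _).add (insert2_in_cl i _ _) (InCl_self Q))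

lemma Ind3.ind' {i : K →ₐ[S] Ω} {P Q R : Pt W Ω} (h : Ind3 i P Q R) :
    Ind (liftPt i P h.1.gen₁) Q R := by
  have h1 := cl_range_liftPt i P h.1.gen₁
  refine ⟨h.1.gen₂', fun h' => h.2 (h'.mono (cl_le ?_))⟩
  rintro z (rfl | hz)
  · exact subset_cl _ (Set.mem_insert _ _)
  · have h2 : z ∈ cl (Set.range (liftPt i P h.1.gen₁)) := subset_cl _ hz
    rw [h1] at h2
    exact cl_mono (Set.subset_insert _ _) h2

end ind3

section half

variable {R : Type*} [AddCommGroup R] [Module (ZMod m) R]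

/-- The inverse of `2` modulo the odd number `m`. -/
lemma exists_half (hm : Odd m) : ∃ h : ZMod m, h + h = 1 := by
  have hu : IsUnit ((2 : ℕ) : ZMod m) := by
    rw [ZMod.isUnit_iff_coprime]
    exact (Nat.coprime_two_left (n := m)).mpr hm
  obtain ⟨c, hc⟩ := hu
  refine ⟨((c⁻¹ : (ZMod m)ˣ) : ZMod m), ?_⟩
  have h2 : ((2 : ℕ) : ZMod m) * ((c⁻¹ : (ZMod m)ˣ) : ZMod m) = 1 := by
    rw [← hc, Units.mul_inv]
  rw [← two_mul]
  exact_mod_cast h2

lemma eq_zero_of_add_self (hm : Odd m) {x : R} (h : x + x = 0) : x = 0 := by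
  obtain ⟨c, hc⟩ := exists_half (m := m) hm
  calc x = (c + c) • x := by rw [hc, one_smul]
    _ = c • (x + x) := by rw [add_smul, smul_add]
    _ = 0 := by rw [h, smul_zero]

end half

section K3

variable (W) (K : Type u) [Field K] [Algebra S K] [hW : GoodW W]

/-- The function field of the cube of the curve. -/
abbrev F3 : Type u := FF W (F2 W K)

/-- The inclusion of the function field of the square. -/
noncomputable abbrev b3 : F2 W K →ₐ[S] F3 W K := base W (F2 W K)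

/-- The inclusion of the base field in the function field of the cube. -/
noncomputable def i3 : K →ₐ[S] F3 W K := (b3 W K).comp (i2 W K)

/-- The first generic point of the cube. -/
noncomputable def P3 : Pt W (F3 W K) := ptMap (b3 W K) (P2 W K)
/-- The second generic point of the cube. -/
noncomputable def Q3 : Pt W (F3 W K) := ptMap (b3 W K) (Q2 W K)
/-- The third generic point of the cube. -/
noncomputable def R3 : Pt W (F3 W K) := gpt W (F2 W K)

lemma ind3_self : Ind3 (i3 W K) (P3 W K) (Q3 W K) (R3 W K) := by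
  refine ⟨(ind_P2_Q2 W K).map (b3 W K), ?_⟩
  intro h
  have hg : Gen (b3 W K) (R3 W K) := gen_gpt
  apply hg
  refine h.mono (cl_le ?_)
  rintro z (rfl | rfl | ⟨a, rfl⟩)
  · unfold Q3
    rw [ptX_map]
    exact subset_cl _ ⟨_, rfl⟩
  · unfold P3
    rw [ptX_map]
    exact subset_cl _ ⟨_, rfl⟩
  · exact subset_cl _ ⟨i2 W K a, rfl⟩

variable {W} {K}

lemma ev_P2 (β : KM m (FF W K)) :
    ev (i2 W K) (P2 W K) β = KM.map m (base W (FF W K) : FF W K →+* F2 W K) β := by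
  have h := ev_map (base W K) (base W (FF W K)) (gpt W K) β
  rw [ev_self] at h
  exact h

lemma ev_P3 (β : KM m (FF W K)) :
    ev (i3 W K) (P3 W K) β = KM.map m (b3 W K : F2 W K →+* F3 W K)
      (KM.map m (base W (FF W K) : FF W K →+* F2 W K) β) := by
  have h := ev_map (i2 W K) (b3 W K) (P2 W K) β
  rw [ev_P2] at h
  exact h

end K3

section add

variable {K : Type u} [Field K] [Algebra S K] [hW : GoodW W]

lemma base_eq_zero (hm : Odd m) {x : KM m K}
    (hx : KM.map m (base W K : K →+* FF W K) x = 0) : x = 0 :=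
  (injective_iff_map_eq_zero _).mp (base_injective (W := W) hm) x hx

lemma nu_nu : (nu W K).comp (nu W K) = AlgHom.id S (FF W K) := by
  apply FF_hom_ext'
  · rw [AlgHom.comp_assoc, nu_base, nu_base]; rfl
  · rw [ptMap_comp, ptMap_id]
    have h : ptMap (nu W K) (gpt W K) = -gpt W K := liftPt_gpt _ _ _
    rw [h, _root_.map_neg, h, neg_neg]

lemma nu_nu_apply (β : KM m (FF W K)) :
    KM.map m (nu W K : FF W K →+* FF W K) (KM.map m (nu W K : FF W K →+* FF W K) β) = β := by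
  rw [KM.map_map]
  have h : (nu W K : FF W K →+* FF W K).comp (nu W K : FF W K →+* FF W K) =
      RingHom.id (FF W K) := by
    have := nu_nu (W := W) (K := K)
    exact congrArg (fun f : FF W K →ₐ[S] FF W K => (f : FF W K →+* FF W K)) this
  rw [h, KM.map_id]
  rfl

/-- Existence of the operator `T`. -/
lemma exists_T (hm : Odd m) {β : KM m (FF W K)} (hβ : Unr β) (hodd : OddCl β) :
    ∃ β' : KM m (FF W K), Unr β' ∧ OddCl β' ∧
      ∀ (Ω : Type u) [Field Ω] [Algebra S Ω] (i : K →ₐ[S] Ω) (P Q : Pt W Ω), Ind i P Q →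
        ev i (P + Q) β' = ev i P β + ev i Q β := by
  set γ : KM m (F2 W K) := ev (i2 W K) (P2 W K) β + ev (i2 W K) (Q2 W K) β with hγ
  have hγu : Unr γ := hβ.ev.add hβ.ev
  have hev : ∀ (Ω : Type u) [Field Ω] [Algebra S Ω] (i : K →ₐ[S] Ω) (P Q : Pt W Ω), Ind i P Q →
      ev2 i P Q γ = ev i P β + ev i Q β := by
    intro Ω _ _ i P Q h
    rw [hγ, ev2_add, ev2_ev h, ev2_ev h, lift2_P2, lift2_Q2]
  have hτ : ev2 (i2 W K) (Q2 W K) (P2 W K) γ = γ := by
    rw [hev _ _ _ _ (ind_P2_Q2 W K).symm, add_comm]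
  obtain ⟨β₀, hβ₀, hβ₀γ⟩ := symm_class hm hγu hτ
  have hrel : ∀ (Ω : Type u) [Field Ω] [Algebra S Ω] (i : K →ₐ[S] Ω) (P Q : Pt W Ω), Ind i P Q →
      ev i (P + Q) β₀ = ev i P β + ev i Q β := by
    intro Ω _ _ i P Q h
    rw [← hev Ω i P Q h, ← hβ₀γ, ev2_ev h, map_add, lift2_P2, lift2_Q2]
  obtain ⟨c, hc⟩ := exists_half (m := m) hm
  refine ⟨c • (β₀ - KM.map m (nu W K : FF W K →+* FF W K) β₀), ?_, ?_, ?_⟩
  · exact (hβ₀.sub (hβ₀.map _)).smul c
  · unfold OddCl
    rw [map_smul, map_sub, nu_nu_apply, ← smul_neg, neg_sub]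
  · intro Ω _ _ i P Q h
    rw [ev_smul, ev_sub, ← ev_neg_pt, hrel Ω i P Q h, neg_add, hrel Ω i (-P) (-Q)
      h.neg_left.neg_right, hodd.ev_neg, hodd.ev_neg]
    set x := ev i P β
    set y := ev i Q β
    have h1 : x + y - (-x + -y) = (x + y) + (x + y) := by abel
    rw [h1, smul_add, ← add_smul, hc, one_smul]

/-- Additivity of odd unramified classes. -/
theorem OddCl.add (hm : Odd m) {β : KM m (FF W K)} (hβ : Unr β) (hodd : OddCl β)
    {Ω : Type u} [Field Ω] [Algebra S Ω] {i : K →ₐ[S] Ω} {P Q : Pt W Ω} (h : Ind i P Q) :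
    ev i (P + Q) β = ev i P β + ev i Q β := by
  obtain ⟨β', hβ', hodd', hT⟩ := exists_T hm hβ hodd
  obtain ⟨β'', hβ'', hodd'', hT'⟩ := exists_T hm hβ' hodd'
  have key : ∀ (Ω : Type u) [Field Ω] [Algebra S Ω] (i : K →ₐ[S] Ω) (P Q R : Pt W Ω),
      Ind3 i P Q R → ev i R (β' - β) = ev i P (β' - β) := by
    intro Ω _ _ i P Q R h
    have e1 : ev i (P + Q + R) β'' = ev i P β + ev i Q β + ev i R β' := by
      rw [hT' Ω i (P + Q) R h.ind_add, hT Ω i P Q h.ind12]
    have e2 : ev i (P + Q + R) β'' = ev i R β + ev i Q β + ev i P β' := by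
      have h3 : P + Q + R = R + Q + P := by abel
      rw [h3, hT' Ω i (R + Q) P h.swap13.ind_add, hT Ω i R Q h.swap13.ind12]
    rw [e1] at e2
    rw [ev_sub, ev_sub]
    have e3 : ev i R β' - ev i R β - (ev i P β' - ev i P β) =
        (ev i P β + ev i Q β + ev i R β') - (ev i R β + ev i Q β + ev i P β') := by abel
    rw [← sub_eq_zero, e3, e2, sub_self]
  have hδodd : OddCl (β' - β) := by
    unfold OddCl at *
    rw [map_sub, hodd, hodd']; abel
  have hδ : β' - β = 0 := by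
    have h1 := key _ (i3 W K) _ _ _ (ind3_self W K)
    have h2 := key _ (i3 W K) _ _ _ (ind3_self W K).neg_left
    rw [hδodd.ev_neg, h1] at h2
    have h3 : ev (i3 W K) (P3 W K) (β' - β) = 0 := by
      apply eq_zero_of_add_self hm
      nth_rewrite 1 [h2]
      exact neg_add_cancel _
    rw [ev_P3] at h3
    exact base_eq_zero hm (base_eq_zero hm h3)
  have hβ'β : β' = β := sub_eq_zero.mp hδ
  rw [hβ'β] at hT
  exact hT Ω i P Q h

/-- Two-variable classes odd in the first variable. -/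
def Odd1 (α : KM m (F2 W K)) : Prop := ev2 (i2 W K) (-P2 W K) (Q2 W K) α = -α

lemma Odd1.ev2_neg {α : KM m (F2 W K)} (h : Odd1 α) {Ω : Type u} [Field Ω] [Algebra S Ω]
    {i : K →ₐ[S] Ω} {P Q : Pt W Ω} (hPQ : Ind i P Q) : ev2 i (-P) Q α = - ev2 i P Q α := by
  have h1 := ev2_ev2 hPQ (ind_P2_Q2 W K).neg_left α
  rw [_root_.map_neg, lift2_P2, lift2_Q2, h, UnrH3.ev2_neg] at h1
  exact h1.symm

lemma OddCl.ev2_neg_right {α : KM m (F2 W K)} (h : OddCl α) {Ω : Type u} [Field Ω]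
    [Algebra S Ω] {i : K →ₐ[S] Ω} {P Q : Pt W Ω} (hPQ : Ind i P Q) :
    ev2 i P (-Q) α = - ev2 i P Q α := by
  rw [ev2_eq_ev hPQ, ev2_eq_ev hPQ.neg_right]
  exact h.ev_neg _ _

/-- Classes odd in both variables are alternating. -/
theorem alt (hm : Odd m) {α : KM m (F2 W K)} (hu : Unr α) (h1 : Odd1 α) (h2 : OddCl α)
    {Ω : Type u} [Field Ω] [Algebra S Ω] {i : K →ₐ[S] Ω} {P Q : Pt W Ω} (hPQ : Ind i P Q) :
    ev2 i Q P α = - ev2 i P Q α := by
  set γ : KM m (F2 W K) := α + ev2 (i2 W K) (Q2 W K) (P2 W K) α with hγ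
  have hγu : Unr γ := hu.add hu.ev2
  have hev : ∀ (Ω : Type u) [Field Ω] [Algebra S Ω] (i : K →ₐ[S] Ω) (P Q : Pt W Ω), Ind i P Q →
      ev2 i P Q γ = ev2 i P Q α + ev2 i Q P α := by
    intro Ω _ _ i P Q h
    rw [hγ, ev2_add, ev2_ev2 h (ind_P2_Q2 W K).symm, lift2_P2, lift2_Q2]
  have hτ : ev2 (i2 W K) (Q2 W K) (P2 W K) γ = γ := by
    rw [hev _ _ _ _ (ind_P2_Q2 W K).symm, ev2_self, add_comm]
  obtain ⟨β₀, hβ₀, hβ₀γ⟩ := symm_class hm hγu hτ
  have hrel : ∀ (Ω : Type u) [Field Ω] [Algebra S Ω] (i : K →ₐ[S] Ω) (P Q : Pt W Ω), Ind i P Q →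
      ev i (P + Q) β₀ = ev2 i P Q α + ev2 i Q P α := by
    intro Ω _ _ i P Q h
    rw [← hev Ω i P Q h, ← hβ₀γ, ev2_ev h, map_add, lift2_P2, lift2_Q2]
  obtain ⟨c, hc⟩ := exists_half (m := m) hm
  set β₁ := c • (β₀ + KM.map m (nu W K : FF W K →+* FF W K) β₀) with hβ₁
  have hβ₁u : Unr β₁ := (hβ₀.add (hβ₀.map _)).smul c
  have hβ₁e : EvenCl β₁ := by
    unfold EvenCl
    rw [hβ₁, map_smul, map_add, nu_nu_apply, add_comm]
  have hrel₁ : ∀ (Ω : Type u) [Field Ω] [Algebra S Ω] (i : K →ₐ[S] Ω) (P Q : Pt W Ω),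
      Ind i P Q → ev i (P + Q) β₁ = ev2 i P Q α + ev2 i Q P α := by
    intro Ω _ _ i P Q h
    rw [hβ₁, ev_smul, ev_add, ← ev_neg_pt, hrel Ω i P Q h, neg_add, hrel Ω i (-P) (-Q)
      h.neg_left.neg_right, h1.ev2_neg h.neg_right, h2.ev2_neg_right h,
      h1.ev2_neg h.symm.neg_right, h2.ev2_neg_right h.symm, neg_neg, neg_neg, smul_add,
      ← add_smul, hc, one_smul]
  obtain ⟨c₁, -, hc₁⟩ := hβ₁e.const hm hβ₁u
  have hrel₂ : ∀ (Ω : Type u) [Field Ω] [Algebra S Ω] (i : K →ₐ[S] Ω) (P Q : Pt W Ω),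
      Ind i P Q → ev2 i P Q α + ev2 i Q P α = KM.map m (i : K →+* Ω) c₁ := by
    intro Ω _ _ i P Q h
    rw [← hrel₁ Ω i P Q h, ← hc₁, ev_const h.gen_add]
  have e1 := hrel₂ Ω i P Q hPQ
  have e2 := hrel₂ Ω i (-P) Q hPQ.neg_left
  rw [h1.ev2_neg hPQ, h2.ev2_neg_right hPQ.symm, ← e1] at e2
  have e3 : ev2 i P Q α + ev2 i Q P α = 0 := by
    apply eq_zero_of_add_self hm
    nth_rewrite 1 [← e2]
    abel
  rw [add_comm] at e3
  exact eq_neg_of_add_eq_zero_left e3

/-- Additivity in the second variable. -/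
theorem add_second (hm : Odd m) {α : KM m (F2 W K)} (hu : Unr α) (h2 : OddCl α)
    {Ω : Type u} [Field Ω] [Algebra S Ω] {i : K →ₐ[S] Ω} {P Q R : Pt W Ω} (h : Ind3 i P Q R) :
    ev2 i P (Q + R) α = ev2 i P Q α + ev2 i P R α := by
  have hQR : Ind i P (Q + R) := by
    rw [add_comm]
    have h4 := h.add_right_mid
    exact h4.ind13
  rw [ev2_eq_ev hQR, ev2_eq_ev h.ind12, ev2_eq_ev h.ind13]
  exact h2.add hm hu h.ind'

/-- Additivity in the first variable. -/
theorem add_first (hm : Odd m) {α : KM m (F2 W K)} (hu : Unr α) (h1 : Odd1 α) (h2 : OddCl α)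
    {Ω : Type u} [Field Ω] [Algebra S Ω] {i : K →ₐ[S] Ω} {P Q R : Pt W Ω} (h : Ind3 i P Q R) :
    ev2 i (P + Q) R α = ev2 i P R α + ev2 i Q R α := by
  have h' : Ind3 i R P Q := h.rot.rot
  have hPQ : Ind i R (P + Q) := h.ind_add.symm
  have e1 := alt hm hu h1 h2 hPQ
  have e2 := alt hm hu h1 h2 h'.ind12
  have e3 := alt hm hu h1 h2 h'.ind13
  rw [e1, e2, e3, add_second hm hu h2 h']
  abel

end add

section bal

variable (W)

/-- A natural endomorphism of the group of points, finite as a map of curves. -/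
structure NatEnd where
  /-- the endomorphism of the group of points -/
  toFun : ∀ (Ω : Type u) [Field Ω] [Algebra S Ω], Pt W Ω →+ Pt W Ω
  nat : ∀ (Ω Ω' : Type u) [Field Ω] [Algebra S Ω] [Field Ω'] [Algebra S Ω'] (g : Ω →ₐ[S] Ω')
    (P : Pt W Ω), ptMap g (toFun Ω P) = toFun Ω' (ptMap g P)
  inCl : ∀ (Ω : Type u) [Field Ω] [Algebra S Ω] (T : Set Ω)
    (_ : ∀ s : S, algebraMap S Ω s ∈ cl T) (P : Pt W Ω), InCl T (toFun Ω P) ↔ InCl T P

variable {W}

section

variable (φ : NatEnd.{u} W) {K Ω : Type u} [Field K] [Algebra S K] [Field Ω] [Algebra S Ω]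

lemma NatEnd.inCl_self (T : Set Ω) (hS : ∀ s : S, algebraMap S Ω s ∈ cl T) (P : Pt W Ω) :
    InCl (insert (ptX P) T) (φ.toFun Ω P) :=
  (φ.inCl Ω _ (fun s => cl_mono (Set.subset_insert _ _) (hS s)) P).mpr (InCl_self P)

lemma NatEnd.cl_insert (T : Set Ω) (hS : ∀ s : S, algebraMap S Ω s ∈ cl T) (P : Pt W Ω) :
    cl (insert (ptX (φ.toFun Ω P)) T) = cl (insert (ptX P) T) := by
  apply le_antisymm
  · apply cl_le
    rintro z (rfl | hz)
    · exact φ.inCl_self T hS P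
    · exact subset_cl _ (Set.mem_insert_of_mem _ hz)
  · apply cl_le
    rintro z (rfl | hz)
    · have h1 : InCl (insert (ptX (φ.toFun Ω P)) T) (φ.toFun Ω P) := InCl_self _
      exact (φ.inCl Ω _ (fun s => cl_mono (Set.subset_insert _ _) (hS s)) P).mp h1
    · exact subset_cl _ (Set.mem_insert_of_mem _ hz)

lemma NatEnd.ind_left {i : K →ₐ[S] Ω} {P Q : Pt W Ω} (h : Ind i P Q) :
    Ind i (φ.toFun Ω P) Q := by
  refine ⟨fun h' => h.1 ((φ.inCl Ω _ (range_in_cl i) P).mp h'), ?_⟩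
  intro h'
  apply h.2
  change _ ∈ _ at h' ⊢
  rwa [φ.cl_insert _ (range_in_cl i)] at h'

lemma NatEnd.ind_right {i : K →ₐ[S] Ω} {P Q : Pt W Ω} (h : Ind i P Q) :
    Ind i P (φ.toFun Ω Q) := (φ.ind_left h.symm).symm

lemma NatEnd.ind3_right {i : K →ₐ[S] Ω} {P Q R : Pt W Ω} (h : Ind3 i P Q R) :
    Ind3 i P Q (φ.toFun Ω R) :=
  ⟨h.1, fun h' => h.2 ((φ.inCl Ω _ (insert2_in_cl i _ _) R).mp h')⟩

lemma NatEnd.ind3_left {i : K →ₐ[S] Ω} {P Q R : Pt W Ω} (h : Ind3 i P Q R) :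
    Ind3 i (φ.toFun Ω P) Q R := (φ.ind3_right h.swap13).swap13

end

variable {K : Type u} [Field K] [Algebra S K] [hW : GoodW W]

/-- Odd unramified two-variable classes are balanced with respect to endomorphisms. -/
theorem bal (hm : Odd m) (φ : NatEnd.{u} W) {α : KM m (F2 W K)} (hu : Unr α) (h1 : Odd1 α)
    (h2 : OddCl α) {Ω : Type u} [Field Ω] [Algebra S Ω] {i : K →ₐ[S] Ω} {P Q : Pt W Ω}
    (hPQ : Ind i P Q) : ev2 i (φ.toFun Ω P) Q α = ev2 i P (φ.toFun Ω Q) α := by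
  -- abbreviations for the algebraic closures
  have inL : ∀ {Ω : Type u} [Field Ω] [Algebra S Ω] (i : K →ₐ[S] Ω) (P Q : Pt W Ω),
      InCl (insert (ptX Q) (insert (ptX P) (Set.range i))) (φ.toFun Ω P) := by
    intro Ω _ _ i P Q
    exact (φ.inCl Ω _ (insert2_in_cl i _ _) P).mpr (InCl_left P _)
  have inR : ∀ {Ω : Type u} [Field Ω] [Algebra S Ω] (i : K →ₐ[S] Ω) (P Q : Pt W Ω),
      InCl (insert (ptX Q) (insert (ptX P) (Set.range i))) (φ.toFun Ω Q) := by
    intro Ω _ _ i P Q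
    exact (φ.inCl Ω _ (insert2_in_cl i _ _) Q).mpr (InCl_self Q)
  have indφ : ∀ {Ω : Type u} [Field Ω] [Algebra S Ω] {i : K →ₐ[S] Ω} {P Q : Pt W Ω},
      Ind i P Q → Ind i (φ.toFun Ω Q + P) Q := by
    intro Ω _ _ i P Q h
    rw [add_comm]
    exact (h.symm.add_right (φ.inCl_self _ (range_in_cl i) Q)).symm
  -- the defect
  let g : ∀ (Ω : Type u) [Field Ω] [Algebra S Ω] (_ : K →ₐ[S] Ω) (_ _ : Pt W Ω), KM m Ω :=
    fun Ω _ _ i P Q => ev2 i (φ.toFun Ω Q + P) Q α - ev2 i P Q α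
  have gmap : ∀ {Ω Ω' : Type u} [Field Ω] [Algebra S Ω] [Field Ω'] [Algebra S Ω']
      {i : K →ₐ[S] Ω} (f : Ω →ₐ[S] Ω') {P Q : Pt W Ω}, Ind i P Q →
      g Ω' (f.comp i) (ptMap f P) (ptMap f Q) = KM.map m (f : Ω →+* Ω') (g Ω i P Q) := by
    intro Ω Ω' _ _ _ _ i f P Q h
    simp only [g]
    rw [← φ.nat, ← map_add, ev2_map f (indφ h), ev2_map f h, map_sub]
  -- independence of the first point
  have claim1 : ∀ {Ω : Type u} [Field Ω] [Algebra S Ω] {i : K →ₐ[S] Ω} {P Q R : Pt W Ω},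
      Ind3 i P Q R → g Ω i P Q = g Ω i R Q := by
    intro Ω _ _ i P Q R h
    simp only [g]
    have hQRP : Ind3 i Q R P := h.rot
    -- the triple `(Q, φQ + R, P - R)`
    have h4 : Ind3 i Q P (φ.toFun Ω Q + R) := by
      rw [add_comm]
      exact h.swap12.add_right (inL i Q P)
    have h5 : Ind3 i Q (φ.toFun Ω Q + R) (P - R) := by
      rw [sub_eq_add_neg]
      apply h4.swap23.add_right
      have hself : InCl (insert (ptX (φ.toFun Ω Q + R)) (insert (ptX Q) (Set.range i)))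
        (φ.toFun Ω Q + R) := InCl_self _
      have h6 : InCl (insert (ptX (φ.toFun Ω Q + R)) (insert (ptX Q) (Set.range i)))
        (φ.toFun Ω Q) := (φ.inCl Ω _ (insert2_in_cl i _ _) Q).mpr (InCl_left Q _)
      have h7 := hself.sub (insert2_in_cl i _ _) h6
      rw [add_sub_cancel_left] at h7
      exact h7.neg (insert2_in_cl i _ _)
    have e1 : φ.toFun Ω Q + P = (φ.toFun Ω Q + R) + (P - R) := by abel
    rw [e1, add_first hm hu h1 h2 h5.rot, sub_eq_add_neg P R,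
      add_first hm hu h1 h2 (h.swap23.neg_mid), h1.ev2_neg h.swap13.ind12]
    abel
  -- the defect as a class
  set g' : KM m (F2 W K) := g _ (i2 W K) (Q2 W K) (P2 W K) with hg'
  have hg'u : Unr g' := hu.ev2.sub hu.ev2
  have hg'ev : ∀ {Ω : Type u} [Field Ω] [Algebra S Ω] {i : K →ₐ[S] Ω} {P Q : Pt W Ω},
      Ind i P Q → ev2 i P Q g' = g Ω i Q P := by
    intro Ω _ _ i P Q h
    have h3 := gmap (lift2 i P Q h) (ind_P2_Q2 W K).symm
    rw [lift2_i2, lift2_P2, lift2_Q2] at h3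
    rw [h3, ev2_of_ind h]
  have hg'e : EvenCl g' := by
    unfold EvenCl
    apply base_injective (W := W) hm
    have h3 := ind3_self W K
    have e1 : ev2 (i3 W K) (P3 W K) (Q3 W K) g' = ev2 (i3 W K) (P3 W K) (-Q3 W K) g' := by
      rw [hg'ev h3.ind12, hg'ev h3.neg_mid.ind12, claim1 h3.swap12,
        claim1 h3.neg_mid.swap12]
    have e2 : ev2 (i3 W K) (P3 W K) (Q3 W K) g' =
        KM.map m (b3 W K : F2 W K →+* F3 W K) g' := by
      have := ev2_map (b3 W K) (ind_P2_Q2 W K) g'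
      rw [ev2_self] at this
      exact this
    have e3 : ev2 (i3 W K) (P3 W K) (-Q3 W K) g' =
        KM.map m (b3 W K : F2 W K →+* F3 W K)
          (KM.map m (nu W (FF W K) : F2 W K →+* F2 W K) g') := by
      have h4 := ev2_map (b3 W K) (ind_P2_Q2 W K).neg_right g'
      have h5 : ev2 (i2 W K) (P2 W K) (-Q2 W K) g' =
          KM.map m (nu W (FF W K) : F2 W K →+* F2 W K) g' := by
        have h6 : ev2 (i2 W K) (P2 W K) (-Q2 W K) g' = ev (base W (FF W K)) (-gpt W (FF W K)) g' := by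
          rw [ev2_eq_ev (ind_P2_Q2 W K).neg_right, liftPt_P2]
          rfl
        rw [h6, ev_neg_pt, ev_self]
      rw [h5, _root_.map_neg] at h4
      exact h4
    rw [← e3, ← e1, e2]
  obtain ⟨c₁, hc₁u, hc₁⟩ := hg'e.const hm hg'u
  have hg1 : ∀ {Ω : Type u} [Field Ω] [Algebra S Ω] {i : K →ₐ[S] Ω} {P Q : Pt W Ω},
      Ind i P Q → g Ω i P Q = ev i Q c₁ := by
    intro Ω _ _ i P Q h
    rw [← hg'ev h.symm, ← hc₁, ev2_eq_ev h.symm, ev_const h.symm.gen₂', ev_of_gen h.gen₂]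
  -- evenness of `c₁`
  have hc₁e : EvenCl c₁ := by
    unfold EvenCl
    apply base_injective (W := W) hm
    have h3 := (ind_P2_Q2 W K).symm
    have h4 : Ind (i2 W K) (Q2 W K - φ.toFun _ (P2 W K)) (P2 W K) := by
      rw [sub_eq_add_neg]
      exact ((ind_P2_Q2 W K).add_right ((φ.inCl_self _ (range_in_cl _) (P2 W K)).neg
        (insert_in_cl _ _))).symm
    have e1 : g _ (i2 W K) (Q2 W K) (-P2 W K) =
        g _ (i2 W K) (Q2 W K - φ.toFun _ (P2 W K)) (P2 W K) := by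
      simp only [g]
      have e5 : φ.toFun _ (P2 W K) + (Q2 W K - φ.toFun _ (P2 W K)) = Q2 W K := by abel
      have e6 : φ.toFun _ (-P2 W K) + Q2 W K = Q2 W K - φ.toFun _ (P2 W K) := by
        rw [_root_.map_neg]; abel
      rw [e5, e6, h2.ev2_neg_right h4, h2.ev2_neg_right h3]
      abel
    rw [hg1 h3.neg_right, hg1 h4, ev_P2, ev_neg_pt, ev_P2] at e1
    exact e1
  obtain ⟨c₀, -, hc₀⟩ := hc₁e.const hm hc₁u
  have hg0 : ∀ {Ω : Type u} [Field Ω] [Algebra S Ω] {i : K →ₐ[S] Ω} {P Q : Pt W Ω},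
      Ind i P Q → ev2 i (φ.toFun Ω Q + P) Q α = ev2 i P Q α + KM.map m (i : K →+* Ω) c₀ := by
    intro Ω _ _ i P Q h
    have h3 := hg1 h
    rw [← hc₀, ev_const h.gen₂] at h3
    simp only [g] at h3
    rw [← h3]; abel
  -- the key relation
  have key : ∀ {Ω : Type u} [Field Ω] [Algebra S Ω] {i : K →ₐ[S] Ω} {P Q R : Pt W Ω},
      Ind3 i P Q R → ev2 i (φ.toFun Ω R) Q α + ev2 i (φ.toFun Ω Q) R α =
        - KM.map m (i : K →+* Ω) c₀ := by
    intro Ω _ _ i P Q R h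
    set X := φ.toFun Ω (Q + R) + P with hX
    have hQRP : Ind3 i Q R P := h.rot
    have hX' : X = P + (φ.toFun Ω Q + φ.toFun Ω R) := by rw [hX, map_add]; abel
    have hQRX : Ind3 i Q R X := by
      rw [hX']
      exact hQRP.add_right ((inL i Q R).add (insert2_in_cl i _ _) (inR i Q R))
    have hXQR : Ind3 i X Q R := hQRX.rot.rot
    have e1 : ev2 i X (Q + R) α = ev2 i P (Q + R) α + KM.map m (i : K →+* Ω) c₀ := by
      rw [hX]
      exact hg0 h.rot.ind_add.symm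
    have e2 : ev2 i X (Q + R) α = ev2 i X Q α + ev2 i X R α := add_second hm hu h2 hXQR
    have e3 : ev2 i P (Q + R) α = ev2 i P Q α + ev2 i P R α := add_second hm hu h2 h
    have hRPQ : Ind3 i (φ.toFun Ω R) P Q := φ.ind3_left h.rot.rot
    have hQPR : Ind3 i (φ.toFun Ω Q) P R := φ.ind3_left h.swap12
    have e4 : ev2 i X Q α = ev2 i (φ.toFun Ω R + P) Q α + KM.map m (i : K →+* Ω) c₀ := by
      have h5 : X = φ.toFun Ω Q + (φ.toFun Ω R + P) := by rw [hX, map_add]; abel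
      rw [h5]
      exact hg0 hRPQ.ind_add
    have e5 : ev2 i X R α = ev2 i (φ.toFun Ω Q + P) R α + KM.map m (i : K →+* Ω) c₀ := by
      have h5 : X = φ.toFun Ω R + (φ.toFun Ω Q + P) := by rw [hX, map_add]; abel
      rw [h5]
      exact hg0 hQPR.ind_add
    rw [e2, e4, e5, e3, add_first hm hu h1 h2 hRPQ, add_first hm hu h1 h2 hQPR] at e1
    rw [← sub_eq_zero] at e1 ⊢
    rw [← e1]; abel
  -- conclusion
  have hfin : ∀ {Ω : Type u} [Field Ω] [Algebra S Ω] {i : K →ₐ[S] Ω} {P Q R : Pt W Ω},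
      Ind3 i P Q R → ev2 i (φ.toFun Ω R) Q α = ev2 i R (φ.toFun Ω Q) α := by
    intro Ω _ _ i P Q R h
    have e1 := key h
    have e2 := key h.neg_mid
    have hRQ : Ind i (φ.toFun Ω R) Q := φ.ind_left h.ind23.symm
    have hQR : Ind i (φ.toFun Ω Q) R := φ.ind_left h.ind23
    rw [h2.ev2_neg_right hRQ, _root_.map_neg, h1.ev2_neg hQR, ← e1] at e2
    have e3 : ev2 i (φ.toFun Ω R) Q α + ev2 i (φ.toFun Ω Q) R α = 0 := by
      apply eq_zero_of_add_self hm
      nth_rewrite 1 [← e2]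
      abel
    have e4 := alt hm hu h1 h2 hQR
    rw [e4]
    exact eq_neg_of_add_eq_zero_left e3
  have hgen : ev2 (i2 W K) (φ.toFun _ (P2 W K)) (Q2 W K) α =
      ev2 (i2 W K) (P2 W K) (φ.toFun _ (Q2 W K)) α := by
    apply base_injective (W := W) hm
    have h3 := (ind3_self W K).rot.rot.swap23
    have e1 := hfin h3
    have e2 := ev2_map (b3 W K) (φ.ind_left (ind_P2_Q2 W K)) α
    have e3 := ev2_map (b3 W K) (φ.ind_right (ind_P2_Q2 W K)) α
    rw [φ.nat] at e2 e3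
    exact e2.symm.trans (e1.trans e3)
  have e1 := ev2_ev2 hPQ (φ.ind_left (ind_P2_Q2 W K)) α
  have e2 := ev2_ev2 hPQ (φ.ind_right (ind_P2_Q2 W K)) α
  rw [φ.nat, lift2_P2, lift2_Q2] at e1 e2
  rw [← e1, ← e2, hgen]

end bal

end UnrH3
end

section

/-!
# Unramified classes of subfields of a fixed field
-/

namespace UnrH3

universe u v w

open Polynomial
open scoped Classical

variable {m : ℕ} {Λ : Type u} [Field Λ]

section conj

variable {K : Type u} {L : Type v} [Field K] [Field L]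

/-- The conjugation of a quadratic extension generated by a square root. -/
lemma IsQuad.exists_conj {j : K →+* L} {θ : L} (h : IsQuad j θ) {c : K} (hc : θ ^ 2 = j c) :
    ∃ σ : L →+* L, σ.comp j = j ∧ σ θ = - θ := by
  choose a b hab using h.span
  have huniq : ∀ a b a' b' : K, j a + j b * θ = j a' + j b' * θ → a = a' ∧ b = b' := by
    intro a b a' b' he
    by_cases hb : b = b'
    · subst hb
      refine ⟨j.injective ?_, rfl⟩
      linear_combination he
    · exfalso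
      apply h.not_mem ((a' - a) / (b - b'))
      have hb0 : j b - j b' ≠ 0 := sub_ne_zero.mpr (fun h' => hb (j.injective h'))
      rw [map_div₀, map_sub, map_sub, div_eq_iff hb0]
      linear_combination -he
  have key : ∀ (z : L) (a' b' : K), z = j a' + j b' * θ → a z = a' ∧ b z = b' := by
    intro z a' b' hz
    apply huniq
    rw [← hz]
    exact (hab z).symm
  refine ⟨{ toFun := fun z => j (a z) - j (b z) * θ, map_one' := ?_, map_mul' := ?_,
            map_zero' := ?_, map_add' := ?_ }, ?_, ?_⟩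
  · obtain ⟨h1, h2⟩ := key 1 1 0 (by simp)
    rw [h1, h2]; simp
  · intro x y
    obtain ⟨h1, h2⟩ := key (x * y) (a x * a y + b x * b y * c) (a x * b y + b x * a y) (by
      conv_lhs => rw [hab x, hab y]
      simp only [map_add, map_mul]
      linear_combination (j (b x) * j (b y)) * hc)
    simp only [h1, h2, map_add, map_mul]
    linear_combination (-(j (b x) * j (b y))) * hc
  · obtain ⟨h1, h2⟩ := key 0 0 0 (by simp)
    change j (a 0) - j (b 0) * θ = 0
    rw [h1, h2]; simp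
  · intro x y
    obtain ⟨h1, h2⟩ := key (x + y) (a x + a y) (b x + b y) (by
      conv_lhs => rw [hab x, hab y]
      simp only [map_add]
      ring)
    change j (a (x + y)) - j (b (x + y)) * θ =
      (j (a x) - j (b x) * θ) + (j (a y) - j (b y) * θ)
    rw [h1, h2]
    simp only [map_add]
    ring
  · ext z
    obtain ⟨h1, h2⟩ := key (j z) z 0 (by simp)
    change j (a (j z)) - j (b (j z)) * θ = j z
    rw [h1, h2]; simp
  · obtain ⟨h1, h2⟩ := key θ 0 1 (by simp)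
    change j (a θ) - j (b θ) * θ = -θ
    rw [h1, h2]; simp

end conj

section adj

/-- The subfield generated by the subfield `A` and the set `T`. -/
def adj (A : Subfield Λ) (T : Set Λ) : Subfield Λ := Subfield.closure ((A : Set Λ) ∪ T)

lemma le_adj (A : Subfield Λ) (T : Set Λ) : A ≤ adj A T :=
  fun _ hx => Subfield.subset_closure (Or.inl hx)

lemma subset_adj (A : Subfield Λ) (T : Set Λ) : T ⊆ adj A T :=
  fun _ hx => Subfield.subset_closure (Or.inr hx)

lemma adj_le {A B : Subfield Λ} {T : Set Λ} (h : A ≤ B) (hT : T ⊆ B) : adj A T ≤ B :=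
  (Subfield.closure_le).mpr (Set.union_subset h hT)

lemma adj_le_iff {A B : Subfield Λ} {T : Set Λ} : adj A T ≤ B ↔ A ≤ B ∧ T ⊆ B :=
  ⟨fun h => ⟨(le_adj A T).trans h, (subset_adj A T).trans h⟩, fun h => adj_le h.1 h.2⟩

lemma adj_mono {A B : Subfield Λ} {T T' : Set Λ} (h : A ≤ B) (hT : T ⊆ T') :
    adj A T ≤ adj B T' :=
  adj_le (h.trans (le_adj B T')) (hT.trans (subset_adj B T'))

lemma adj_adj (A : Subfield Λ) (T T' : Set Λ) : adj (adj A T) T' = adj A (T ∪ T') := by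
  apply le_antisymm
  · exact adj_le (adj_mono le_rfl Set.subset_union_left)
      (Set.subset_union_right.trans (subset_adj _ _))
  · exact adj_le ((le_adj A T).trans (le_adj _ _)) (Set.union_subset
      ((subset_adj A T).trans (le_adj _ _)) (subset_adj _ _))

lemma adj_empty (A : Subfield Λ) : adj A ∅ = A :=
  le_antisymm (adj_le le_rfl (Set.empty_subset _)) (le_adj _ _)

lemma adj_eq_self {A : Subfield Λ} {T : Set Λ} (h : T ⊆ A) : adj A T = A :=
  le_antisymm (adj_le le_rfl h) (le_adj _ _)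

/-- Restriction of scalars for the Milnor K-ring of subfields. -/
noncomputable abbrev up (m : ℕ) {A B : Subfield Λ} (h : A ≤ B) : KM m A →ₐ[ZMod m] KM m B :=
  KM.map m (Subfield.inclusion h)

lemma up_up {A B C : Subfield Λ} (h : A ≤ B) (h' : B ≤ C) (x : KM m A) :
    up m h' (up m h x) = up m (h.trans h') x := by
  rw [KM.map_map]
  rfl

lemma up_refl {A : Subfield Λ} (h : A ≤ A) (x : KM m A) : up m h x = x := by
  have : Subfield.inclusion h = RingHom.id A := by ext z; rfl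
  rw [up, this, KM.map_id]
  rfl

/-- A class of `B` comes from an unramified class of `A`. -/
def From (A B : Subfield Λ) (ξ : KM m B) : Prop :=
  ∃ (h : A ≤ B) (η : KM m A), Unr η ∧ up m h η = ξ

lemma isQuad_adj {A : Subfield Λ} {s : Λ} (hs : s ^ 2 ∈ A) (hs' : s ∉ A) :
    IsQuad (Subfield.inclusion (le_adj A {s})) (⟨s, subset_adj A {s} rfl⟩ : adj A {s}) := by
  constructor
  · obtain ⟨F, hF⟩ := exists_quad_subfield A.subtype s 0 (-⟨s ^ 2, hs⟩) (by
      simp [sq]) (fun a h => hs' (h ▸ a.2))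
    have hle : adj A {s} ≤ F := by
      apply adj_le
      · intro z hz
        exact (hF z).mpr ⟨⟨z, hz⟩, 0, by simp⟩
      · rintro z rfl
        exact (hF _).mpr ⟨0, 1, by simp⟩
    intro z
    obtain ⟨a, b, hab⟩ := (hF z).mp (hle z.2)
    exact ⟨a, b, Subtype.ext hab⟩
  · intro a ha
    apply hs'
    have : (a : Λ) = s := congrArg Subtype.val ha
    rw [← this]
    exact a.2

lemma up_injective_of_sq (hm : Odd m) {A : Subfield Λ} {s : Λ} (hs : s ^ 2 ∈ A)
    (h : A ≤ adj A {s}) : Function.Injective (up m h) := by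
  by_cases hs' : s ∈ A
  · have he : adj A {s} = A := adj_eq_self (by rintro z rfl; exact hs')
    intro x y hxy
    have h1 := congrArg (up m he.le) hxy
    rw [up_up, up_up, up_refl, up_refl] at h1
    exact h1
  · exact (isQuad_adj hs hs').map_injective hm

/-- Adjoining square roots successively. -/
lemma up_injective_of_list (hm : Odd m) (l : List Λ) : ∀ (A B : Subfield Λ) (h : A ≤ B),
    (∀ n (hn : n < l.length), l[n] ^ 2 ∈ adj A {z | z ∈ l.take n}) →
    B ≤ adj A {z | z ∈ l} → Function.Injective (up m h) := by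
  induction l with
  | nil =>
    intro A B h _ hB
    have he : B ≤ A := by
      refine hB.trans (adj_le le_rfl ?_)
      intro z hz
      simp at hz
    intro x y hxy
    have h1 := congrArg (up m he) hxy
    rw [up_up, up_up, up_refl, up_refl] at h1
    exact h1
  | cons s l ih =>
    intro A B h hsq hB
    have h0 : s ^ 2 ∈ A := by
      have := hsq 0 (by simp)
      simpa [adj_empty] using this
    have hset : ∀ l' : List Λ, {z | z ∈ s :: l'} = {s} ∪ {z | z ∈ l'} := by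
      intro l'
      ext z
      simp
    have h1 : ∀ n (hn : n < l.length), l[n] ^ 2 ∈ adj (adj A {s}) {z | z ∈ l.take n} := by
      intro n hn
      have := hsq (n + 1) (by simpa using hn)
      rw [adj_adj, ← hset]
      simpa using this
    have h2 : adj A {z | z ∈ s :: l} = adj (adj A {s}) {z | z ∈ l} := by
      rw [adj_adj, hset]
    have h3 := ih (adj A {s}) (adj A {z | z ∈ s :: l})
      (adj_mono le_rfl (by rw [hset]; exact Set.subset_union_left)) h1 h2.le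
    have h4 := up_injective_of_sq (m := m) hm h0 (le_adj A {s})
    intro x y hxy
    apply h4
    apply h3
    have h5 := congrArg (up m hB) hxy
    rw [up_up, up_up] at h5
    rw [up_up, up_up]
    exact h5

end adj

end UnrH3
end

section

/-!
# Frobenius and automorphisms as natural endomorphisms
-/

namespace UnrH3

universe u v w

open Polynomial WeierstrassCurve
open scoped Classical

section ringMap

variable {F K : Type u} [Field F] [Field K]

/-- The homomorphism on points induced by a ring homomorphism carrying one curve to another. -/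
noncomputable def ptRingMap (f : F →+* K) (V : WeierstrassCurve F) (V' : WeierstrassCurve K)
    (h : V.map f = V') : V.toAffine.Point →+ V'.toAffine.Point where
  toFun P := match P with
    | .zero => 0
    | .some x y hxy => .some (f x) (f y) (by
        subst h
        exact (Affine.map_nonsingular (W := V.toAffine) f.injective x y).mpr hxy)
  map_zero' := rfl
  map_add' := by
    subst h
    rintro (_ | ⟨x₁, y₁, h₁⟩) (_ | ⟨x₂, y₂, h₂⟩)
    any_goals rfl
    by_cases hxy : x₁ = x₂ ∧ y₁ = V.toAffine.negY x₂ y₂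
    · rw [Affine.Point.add_of_Y_eq hxy.left hxy.right]
      refine (Affine.Point.add_of_Y_eq (congr_arg _ hxy.left) ?_).symm
      rw [hxy.right]
      exact (Affine.map_negY (W' := V.toAffine) f x₂ y₂).symm
    · have hxy' : ¬(f x₁ = f x₂ ∧ f y₁ = (V.map f).toAffine.negY (f x₂) (f y₂)) := by
        rintro ⟨h3, h4⟩
        refine hxy ⟨f.injective h3, f.injective ?_⟩
        rw [h4]
        exact Affine.map_negY (W' := V.toAffine) f x₂ y₂
      have hs := Affine.map_slope (W := V.toAffine) f x₁ x₂ y₁ y₂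
      have hX := Affine.map_addX (W' := V.toAffine) f x₁ x₂ (V.toAffine.slope x₁ x₂ y₁ y₂)
      have hY := Affine.map_addY (W' := V.toAffine) f x₁ y₁ x₂ (V.toAffine.slope x₁ x₂ y₁ y₂)
      rw [Affine.Point.add_some hxy]
      refine Eq.trans ?_ (Affine.Point.add_some hxy').symm
      rw [← hs] at hX hY
      exact (Affine.Point.some.injEq _ _ _ _ _ _).mpr ⟨hX.symm, hY.symm⟩

@[simp] lemma ptRingMap_zero (f : F →+* K) (V : WeierstrassCurve F) (V' : WeierstrassCurve K)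
    (h : V.map f = V') : ptRingMap f V V' h 0 = 0 := rfl

end ringMap

section frob

variable {S : Type v} [Field S] (W : WeierstrassCurve S) (p : ℕ) [hp : Fact p.Prime]
  [hS : CharP S p]

omit hp in
lemma charP_of_alg (Ω : Type u) [Field Ω] [Algebra S Ω] : CharP Ω p :=
  charP_of_injective_algebraMap (algebraMap S Ω).injective p

/-- The `p ^ s`-power homomorphism. -/
noncomputable def frobHom (S : Type v) [Field S] (p : ℕ) [Fact p.Prime] [CharP S p] (s : ℕ)
    (Ω : Type u) [Field Ω] [Algebra S Ω] : Ω →+* Ω :=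
  haveI := charP_of_alg (S := S) p Ω
  iterateFrobenius Ω p s

@[simp] lemma frobHom_apply (s : ℕ) (Ω : Type u) [Field Ω] [Algebra S Ω] (x : Ω) :
    frobHom S p s Ω x = x ^ p ^ s := by
  have := charP_of_alg (S := S) p Ω
  unfold frobHom
  rw [iterateFrobenius_def]

variable (s : ℕ) (hW : ∀ x ∈ ({W.a₁, W.a₂, W.a₃, W.a₄, W.a₆} : Set S), x ^ p ^ s = x)

include hW in
lemma frob_curve (Ω : Type u) [Field Ω] [Algebra S Ω] :
    (W⁄Ω).map (frobHom S p s Ω) = W⁄Ω := by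
  have h : ∀ x ∈ ({W.a₁, W.a₂, W.a₃, W.a₄, W.a₆} : Set S),
      frobHom S p s Ω (algebraMap S Ω x) = algebraMap S Ω x := by
    intro x hx
    rw [frobHom_apply, ← map_pow, hW x hx]
  ext
  · exact h W.a₁ (by simp)
  · exact h W.a₂ (by simp)
  · exact h W.a₃ (by simp)
  · exact h W.a₄ (by simp)
  · exact h W.a₆ (by simp)

/-- The `p ^ s`-power Frobenius as a natural endomorphism. -/
noncomputable def frobEnd : NatEnd.{u} W where
  toFun Ω _ _ := ptRingMap (frobHom S p s Ω) (W⁄Ω) (W⁄Ω) (frob_curve W p s hW Ω)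
  nat Ω Ω' _ _ _ _ g P := by
    rcases P with _ | ⟨x, y, h⟩
    · rfl
    · refine (Affine.Point.some.injEq _ _ _ _ _ _).mpr ⟨?_, ?_⟩
      · simp
      · simp
  inCl Ω _ _ T _ P := by
    rcases P with _ | ⟨x, y, h⟩
    · exact Iff.rfl
    · change frobHom S p s Ω x ∈ cl T ↔ x ∈ cl T
      rw [frobHom_apply]
      constructor
      · intro hx
        apply mem_cl_of_isAlg (F := cl T) le_rfl
        have hpos : 0 < p ^ s := pow_pos hp.out.pos s
        refine ⟨X ^ (p ^ s) - C (⟨_, hx⟩ : cl T), X_pow_sub_C_ne_zero hpos _, ?_⟩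
        simp only [map_sub, map_pow, aeval_X, aeval_C]
        exact sub_self _
      · intro hx
        exact pow_mem hx _

lemma frobEnd_some {Ω : Type u} [Field Ω] [Algebra S Ω] {x y : Ω}
    (h : (W⁄Ω).toAffine.Nonsingular x y) : ∃ h',
    (frobEnd W p s hW).toFun Ω (.some x y h) = .some (x ^ p ^ s) (y ^ p ^ s) h' := by
  have h1 := frobHom_apply (S := S) p s Ω x
  have h2 := frobHom_apply (S := S) p s Ω y
  have h' : (W⁄Ω).toAffine.Nonsingular (x ^ p ^ s) (y ^ p ^ s) := by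
    rw [← h1, ← h2]
    have h3 : ((W⁄Ω).map (frobHom S p s Ω)).toAffine.Nonsingular (frobHom S p s Ω x)
      (frobHom S p s Ω y) :=
      (Affine.map_nonsingular (W := (W⁄Ω).toAffine) (frobHom S p s Ω).injective x y).mpr h
    rwa [frob_curve W p s hW Ω] at h3
  exact ⟨h', (Affine.Point.some.injEq _ _ _ _ _ _).mpr ⟨h1, h2⟩⟩

end frob

section scale

variable {Ω : Type u} [Field Ω] {V : WeierstrassCurve Ω} {u : Ω}

lemma scale_equation (h1 : V.a₁ = 0) (h2 : V.a₂ = 0) (h3 : V.a₃ = 0) (h4 : u ^ 4 * V.a₄ = V.a₄)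
    (h6 : u ^ 6 * V.a₆ = V.a₆) {x y : Ω} (h : V.toAffine.Nonsingular x y) (hu : u ≠ 0) :
    V.toAffine.Nonsingular (u ^ 2 * x) (u ^ 3 * y) := by
  rw [Affine.nonsingular_iff, Affine.equation_iff] at h ⊢
  simp only [h1, h2, h3, zero_mul, mul_zero, sub_zero, add_zero] at h ⊢
  obtain ⟨h5, h7⟩ := h
  refine ⟨by linear_combination u ^ 6 * h5 + (x * u ^ 2) * h4 + h6, ?_⟩
  rcases h7 with h7 | h7
  · left
    intro h8
    apply h7
    apply mul_left_cancel₀ (pow_ne_zero 4 hu)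
    linear_combination h8 - h4
  · right
    intro h8
    apply h7
    apply mul_left_cancel₀ (pow_ne_zero 3 hu)
    linear_combination h8

/-- The automorphism `(x, y) ↦ (u² x, u³ y)` of a short Weierstrass curve. -/
noncomputable def scalePt (h1 : V.a₁ = 0) (h2 : V.a₂ = 0) (h3 : V.a₃ = 0)
    (h4 : u ^ 4 * V.a₄ = V.a₄) (h6 : u ^ 6 * V.a₆ = V.a₆) (hu : u ≠ 0) :
    V.toAffine.Point →+ V.toAffine.Point where
  toFun P := match P with
    | .zero => 0
    | .some x y hxy => .some (u ^ 2 * x) (u ^ 3 * y) (scale_equation h1 h2 h3 h4 h6 hxy hu)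
  map_zero' := rfl
  map_add' := by
    rintro (_ | ⟨x₁, y₁, h₁⟩) (_ | ⟨x₂, y₂, h₂⟩)
    any_goals rfl
    have hn : ∀ x y : Ω, V.toAffine.negY x y = -y := by
      intro x y
      simp [Affine.negY, h1, h3]
    have hu2 : u ^ 2 ≠ 0 := pow_ne_zero 2 hu
    have hu3 : u ^ 3 ≠ 0 := pow_ne_zero 3 hu
    by_cases hxy : x₁ = x₂ ∧ y₁ = V.toAffine.negY x₂ y₂
    · rw [Affine.Point.add_of_Y_eq hxy.left hxy.right]
      refine (Affine.Point.add_of_Y_eq (by rw [hxy.left]) ?_).symm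
      rw [hxy.right, hn, hn]
      ring
    · have hxy' : ¬(u ^ 2 * x₁ = u ^ 2 * x₂ ∧
          u ^ 3 * y₁ = V.toAffine.negY (u ^ 2 * x₂) (u ^ 3 * y₂)) := by
        rintro ⟨h7, h8⟩
        refine hxy ⟨mul_left_cancel₀ hu2 h7, mul_left_cancel₀ hu3 ?_⟩
        rw [h8, hn, hn]
        ring
      have hs : V.toAffine.slope (u ^ 2 * x₁) (u ^ 2 * x₂) (u ^ 3 * y₁) (u ^ 3 * y₂) =
          u * V.toAffine.slope x₁ x₂ y₁ y₂ := by
        by_cases hx : x₁ = x₂
        · subst hx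
          have hy : y₁ ≠ V.toAffine.negY x₁ y₂ := fun h => hxy ⟨rfl, h⟩
          have hy' : u ^ 3 * y₁ ≠ V.toAffine.negY (u ^ 2 * x₁) (u ^ 3 * y₂) :=
            fun h => hxy' ⟨rfl, h⟩
          have heq1 := (V.toAffine.equation_iff _ _).mp h₁.1
          have heq2 := (V.toAffine.equation_iff _ _).mp h₂.1
          simp only [h1, h2, h3, zero_mul, add_zero] at heq1 heq2
          have hy12 : y₁ = y₂ := by
            rw [hn] at hy
            have h9 : (y₁ - y₂) * (y₁ + y₂) = 0 := by linear_combination heq1 - heq2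
            rcases mul_eq_zero.mp h9 with h10 | h10
            · exact sub_eq_zero.mp h10
            · exact absurd (by linear_combination h10) hy
          subst hy12
          rw [Affine.slope_of_Y_ne rfl hy, Affine.slope_of_Y_ne rfl hy', hn, hn]
          rw [hn] at hy
          have hy2 : y₁ + y₁ ≠ 0 := fun h => hy (by linear_combination h)
          simp only [h1, h2, mul_zero, zero_mul, add_zero, sub_zero, sub_neg_eq_add]
          rw [← mul_add, div_eq_iff (mul_ne_zero hu3 hy2)]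
          have h11 : u * ((3 * x₁ ^ 2 + V.toAffine.a₄) / (y₁ + y₁)) * (u ^ 3 * (y₁ + y₁)) =
              u ^ 4 * (3 * x₁ ^ 2 + V.toAffine.a₄) := by
            generalize y₁ + y₁ = z at hy2
            field_simp
          rw [h11]
          linear_combination - h4
        · have hx' : u ^ 2 * x₁ ≠ u ^ 2 * x₂ := fun h => hx (mul_left_cancel₀ hu2 h)
          rw [Affine.slope_of_X_ne hx, Affine.slope_of_X_ne hx', ← mul_sub, ← mul_sub]
          have hx2 : x₁ - x₂ ≠ 0 := sub_ne_zero.mpr hx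
          field_simp
      rw [Affine.Point.add_some hxy]
      refine Eq.trans ?_ (Affine.Point.add_some hxy').symm
      refine (Affine.Point.some.injEq _ _ _ _ _ _).mpr ⟨?_, ?_⟩
      · rw [hs]
        simp only [Affine.addX, h1, h2]
        ring
      · rw [hs]
        simp only [Affine.addY, Affine.negAddY, Affine.addX, hn, h1, h2]
        ring

end scale

/-! ### The curve `y² = x³ - x` -/

section j1728

variable (S : Type v) [Field S]

/-- The curve `y² = x³ - x`. -/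
def Wi : WeierstrassCurve S := ⟨0, 0, 0, -1, 0⟩

variable {S} {ι : S} (hι : ι ^ 2 = -1)

/-- The automorphism `(x, y) ↦ (-x, ι y)` as a natural endomorphism. -/
noncomputable def cmI : NatEnd.{u} (Wi S) where
  toFun Ω _ _ := scalePt (V := (Wi S)⁄Ω) (u := - algebraMap S Ω ι) (map_zero _) (map_zero _)
    (map_zero _) (by
      change (-algebraMap S Ω ι) ^ 4 * algebraMap S Ω (-1) = algebraMap S Ω (-1)
      have h : (-algebraMap S Ω ι) ^ 4 = 1 := by
        rw [← map_neg, ← map_pow]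
        have h1 : (-ι) ^ 4 = 1 := by linear_combination (ι ^ 2 - 1) * hι
        rw [h1, map_one]
      rw [h, one_mul])
    (by
      change _ * algebraMap S Ω 0 = algebraMap S Ω 0
      rw [map_zero, mul_zero])
    (by
      intro h
      rw [neg_eq_zero, map_eq_zero] at h
      rw [h] at hι
      have : (0 : S) = 1 := by linear_combination -hι
      exact zero_ne_one this)
  nat Ω Ω' _ _ _ _ g P := by
    rcases P with _ | ⟨x, y, h⟩
    · rfl
    · refine (Affine.Point.some.injEq _ _ _ _ _ _).mpr ⟨?_, ?_⟩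
      · simp
      · simp
  inCl Ω _ _ T hT P := by
    rcases P with _ | ⟨x, y, h⟩
    · exact Iff.rfl
    · change (- algebraMap S Ω ι) ^ 2 * x ∈ cl T ↔ x ∈ cl T
      have h1 : (- algebraMap S Ω ι) ^ 2 * x = -x := by
        rw [neg_sq, ← map_pow, hι, map_neg, map_one]; ring
      rw [h1]
      exact neg_mem_iff

lemma cmI_some {Ω : Type u} [Field Ω] [Algebra S Ω] {x y : Ω}
    (h : ((Wi S)⁄Ω).toAffine.Nonsingular x y) : ∃ h',
    (cmI hι).toFun Ω (.some x y h) = .some (-x) (algebraMap S Ω ι * y) h' := by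
  have h1 : (- algebraMap S Ω ι) ^ 2 * x = -x := by
    rw [neg_sq, ← map_pow, hι, map_neg, map_one]; ring
  have h2 : (- algebraMap S Ω ι) ^ 3 * y = algebraMap S Ω ι * y := by
    have h3 : (-ι) ^ 3 = ι := by linear_combination (-ι) * hι
    rw [← map_neg, ← map_pow, h3]
  have h' : ((Wi S)⁄Ω).toAffine.Nonsingular (-x) (algebraMap S Ω ι * y) := by
    rw [← h1, ← h2]
    obtain ⟨x', y', h4, h5⟩ : ∃ x' y', ∃ h4 : ((Wi S)⁄Ω).toAffine.Nonsingular x' y',
        (cmI hι).toFun Ω (.some x y h) = .some x' y' h4 ∧ x' = (- algebraMap S Ω ι) ^ 2 * x ∧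
        y' = (- algebraMap S Ω ι) ^ 3 * y := ⟨_, _, _, rfl, rfl, rfl⟩
    rw [← h5.2.1, ← h5.2.2]
    exact h4
  exact ⟨h', (Affine.Point.some.injEq _ _ _ _ _ _).mpr ⟨h1, h2⟩⟩

end j1728

end UnrH3
end

section

/-!
# Evaluation of classes at generic points, all coefficients
-/

namespace UnrA

universe u v w z

open Polynomial WeierstrassCurve
open scoped Classical
open UnrH3 (IsQuad GoodW Pt FF ptX ptY ptMap Gen liftPt base gpt gx gy ratHom nu isQuad_gy
  gy_ne_negY Gen_map_iff liftPt_comp liftPt_base liftPt_gpt gen_gpt liftPt_gpt_self nu_gy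
  nu_ratHom nu_base FF_hom_ext' ratHom_algebraMap Gen_neg_iff)

variable {m : UFun.{u, z}} {S : Type v} [Field S] {W : WeierstrassCurve S}

section ev

variable {K Ω Ω' : Type u} [Field K] [Algebra S K] [Field Ω] [Algebra S Ω] [Field Ω'] [Algebra S Ω']

/-- The value of the class `β` at the point `P`, generic over `i(K)`. -/
noncomputable def ev (i : K →ₐ[S] Ω) (P : Pt W Ω) (β : KM m (FF W K)) : KM m Ω :=
  if h : Gen i P then KM.map m (liftPt i P h : FF W K →+* Ω) β else 0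

lemma ev_of_gen {i : K →ₐ[S] Ω} {P : Pt W Ω} (h : Gen i P) (β : KM m (FF W K)) :
    ev i P β = KM.map m (liftPt i P h : FF W K →+* Ω) β := dif_pos h

lemma ev_map (i : K →ₐ[S] Ω) (g : Ω →ₐ[S] Ω') (P : Pt W Ω) (β : KM m (FF W K)) :
    ev (g.comp i) (ptMap g P) β = KM.map m (g : Ω →+* Ω') (ev i P β) := by
  by_cases h : Gen i P
  · have h' : Gen (g.comp i) (ptMap g P) := (Gen_map_iff i g P).mpr h
    rw [ev_of_gen h, ev_of_gen h', liftPt_comp i g P h, KM.map_map]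
    rfl
  · have h' : ¬ Gen (g.comp i) (ptMap g P) := fun h' => h ((Gen_map_iff i g P).mp h')
    unfold ev
    rw [dif_neg h, dif_neg h', map_zero]

lemma ev_add (i : K →ₐ[S] Ω) (P : Pt W Ω) (β β' : KM m (FF W K)) :
    ev i P (β + β') = ev i P β + ev i P β' := by
  by_cases h : Gen i P
  · simp only [ev_of_gen h, _root_.map_add]
  · simp only [ev, dif_neg h, add_zero]

lemma ev_neg (i : K →ₐ[S] Ω) (P : Pt W Ω) (β : KM m (FF W K)) :
    ev i P (-β) = - ev i P β := by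
  by_cases h : Gen i P
  · simp only [ev_of_gen h, _root_.map_neg]
  · simp only [ev, dif_neg h, _root_.neg_zero]

lemma ev_sub (i : K →ₐ[S] Ω) (P : Pt W Ω) (β β' : KM m (FF W K)) :
    ev i P (β - β') = ev i P β - ev i P β' := by
  rw [sub_eq_add_neg, ev_add, ev_neg, ← sub_eq_add_neg]

lemma ev_nsmul (i : K →ₐ[S] Ω) (P : Pt W Ω) (r : ℕ) (β : KM m (FF W K)) :
    ev i P (r • β) = r • ev i P β := by
  by_cases h : Gen i P
  · simp only [ev_of_gen h, _root_.map_nsmul]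
  · simp only [ev, dif_neg h, smul_zero]

lemma ev_const {i : K →ₐ[S] Ω} {P : Pt W Ω} (h : Gen i P) (c : KM m K) :
    ev i P (KM.map m (base W K : K →+* FF W K) c) = KM.map m (i : K →+* Ω) c := by
  rw [ev_of_gen h, KM.map_map]
  congr 2
  have := liftPt_base i P h
  exact congrArg (fun f : K →ₐ[S] Ω => (f : K →+* Ω)) this

lemma Unr.ev {i : K →ₐ[S] Ω} {P : Pt W Ω} {β : KM m (FF W K)} (hβ : Unr β) :
    Unr (ev i P β) := by
  by_cases h : Gen i P
  · rw [ev_of_gen h]; exact hβ.map _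
  · rw [UnrA.ev, dif_neg h]; exact Unr.zero

variable [hW : GoodW W]

@[simp] lemma ev_self (β : KM m (FF W K)) : ev (base W K) (gpt W K) β = β := by
  rw [ev_of_gen gen_gpt, liftPt_gpt_self]
  exact congrArg (fun f : KM m (FF W K) →+ KM m (FF W K) => f β)
    (KM.map_id (m := m) (K := FF W K))

/-- Evaluation of `ev (base) A β` at a point. -/
lemma ev_ev {i : K →ₐ[S] Ω} {P : Pt W Ω} (h : Gen i P) (A : Pt W (FF W K))
    (β : KM m (FF W K)) :
    ev i P (ev (base W K) A β) = ev i (ptMap (liftPt i P h) A) β := by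
  have h1 := ev_map (base W K) (liftPt i P h) A β
  rw [liftPt_base] at h1
  rw [h1, ev_of_gen h]

lemma ev_neg_pt (i : K →ₐ[S] Ω) (P : Pt W Ω) (β : KM m (FF W K)) :
    ev i (-P) β = ev i P (KM.map m (nu W K : FF W K →+* FF W K) β) := by
  by_cases h : Gen i P
  · have h1 : KM.map m (nu W K : FF W K →+* FF W K) β = ev (base W K) (-gpt W K) β :=
      (ev_of_gen gen_gpt.neg β).symm
    rw [h1, ev_ev h, _root_.map_neg, liftPt_gpt]
  · have h' : ¬ Gen i (-P) := fun h' => h (Gen_neg_iff.mp h')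
    unfold ev
    rw [dif_neg h, dif_neg h']

/-- The class `β` is odd. -/
def OddCl (β : KM m (FF W K)) : Prop := KM.map m (nu W K : FF W K →+* FF W K) β = -β

/-- The class `β` is even. -/
def EvenCl (β : KM m (FF W K)) : Prop := KM.map m (nu W K : FF W K →+* FF W K) β = β

lemma OddCl.ev_neg {β : KM m (FF W K)} (hβ : OddCl β) (i : K →ₐ[S] Ω) (P : Pt W Ω) :
    ev i (-P) β = - ev i P β := by
  rw [ev_neg_pt, hβ, UnrA.ev_neg]

/-- Even unramified classes are constant, up to the factor `4`. -/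
theorem EvenCl.const {β : KM m (FF W K)} (hβ : EvenCl β) (hu : Unr β) :
    ∃ c : KM m K, Unr c ∧ KM.map m (base W K : K →+* FF W K) c = 4 • β := by
  obtain ⟨y, hy, hyβ⟩ := quad_exists_unr (isQuad_gy W K)
    (nu W K : FF W K →+* FF W K) nu_ratHom (by
      change nu W K (gy W K) ≠ gy W K
      rw [nu_gy]
      exact (gy_ne_negY W K).symm) hβ hu
  obtain ⟨c, hc, hcy⟩ := unr_ratFunc hy
  refine ⟨c, hc, ?_⟩
  rw [← hyβ, ← hcy, KM.map_map]
  congr 2

/-- The kernel of the restriction to the function field of the curve is killed by `2`. -/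
lemma base_two_smul {c : KM m K} (h : KM.map m (base W K : K →+* FF W K) c = 0) : 2 • c = 0 := by
  have h1 : (base W K : K →+* FF W K) = (ratHom W K).comp (algebraMap K (RatFunc K)) := by
    ext a
    exact (ratHom_algebraMap W K a).symm
  rw [h1, ← KM.map_map] at h
  have h2 := quad_two_smul (isQuad_gy W K) h
  rw [← map_nsmul] at h2
  exact (injective_iff_map_eq_zero _).mp (map_ratFunc_injective) _ h2

lemma base_tor {N : ℕ} {c : KM m K} (h : KM.map m (base W K : K →+* FF W K) c ∈ tor N _) :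
    c ∈ tor (2 * N) _ := by
  rw [mem_tor] at *
  rw [mul_smul]
  apply base_two_smul (W := W)
  rw [map_nsmul, h]

end ev

end UnrA
end

section

/-!
# Two-variable classes, all coefficients
-/

namespace UnrA

universe u v w z

open Polynomial WeierstrassCurve
open scoped Classical
open UnrH3 (IsQuad GoodW Pt FF F2 i2 P2 Q2 A2 ptX ptY ptMap Gen Ind liftPt lift2 base gpt gx gy
  ratHom nu isQuad_gy tau phi2 jS tau_jS isQuad_jS jS_const gen_A2 ind_P2_Q2
  gy_ne_negY Gen_map_iff liftPt_comp liftPt_base liftPt_gpt gen_gpt liftPt_gpt_self nu_gy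
  nu_ratHom nu_base ptMap_comp ptMap_id FF_hom_ext' ratHom_algebraMap Gen_neg_iff
  F2_hom_ext lift2_i2 lift2_P2 lift2_Q2 lift2_base lift2_comp lift2_self liftPt_P2)

variable {m : UFun.{u, z}} {S : Type v} [Field S] {W : WeierstrassCurve S}

section lift2

variable {K Ω Ω' : Type u} [Field K] [Algebra S K] [Field Ω] [Algebra S Ω] [Field Ω'] [Algebra S Ω']

variable [hW : GoodW W]

/-- The value of a two-variable class at a pair of independent points. -/
noncomputable def ev2 (i : K →ₐ[S] Ω) (P Q : Pt W Ω) (α : KM m (F2 W K)) : KM m Ω :=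
  if h : Ind i P Q then KM.map m (lift2 i P Q h : F2 W K →+* Ω) α else 0

lemma ev2_of_ind {i : K →ₐ[S] Ω} {P Q : Pt W Ω} (h : Ind i P Q) (α : KM m (F2 W K)) :
    ev2 i P Q α = KM.map m (lift2 i P Q h : F2 W K →+* Ω) α := dif_pos h

lemma ev2_eq_ev {i : K →ₐ[S] Ω} {P Q : Pt W Ω} (h : Ind i P Q) (α : KM m (F2 W K)) :
    ev2 i P Q α = ev (liftPt i P h.gen₁) Q α := by
  rw [ev2_of_ind h, ev_of_gen h.gen₂']
  rfl

lemma ev2_map {i : K →ₐ[S] Ω} (g : Ω →ₐ[S] Ω') {P Q : Pt W Ω} (h : Ind i P Q)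
    (α : KM m (F2 W K)) :
    ev2 (g.comp i) (ptMap g P) (ptMap g Q) α = KM.map m (g : Ω →+* Ω') (ev2 i P Q α) := by
  rw [ev2_of_ind h, ev2_of_ind (h.map g), lift2_comp i g P Q h (h.map g), KM.map_map]
  rfl

@[simp] lemma ev2_self (α : KM m (F2 W K)) : ev2 (i2 W K) (P2 W K) (Q2 W K) α = α := by
  rw [ev2_of_ind (ind_P2_Q2 W K), lift2_self]
  exact congrArg (fun f : KM m (F2 W K) →+ KM m (F2 W K) => f α)
    (KM.map_id (m := m) (K := F2 W K))

lemma ev2_add {i : K →ₐ[S] Ω} {P Q : Pt W Ω} (α β : KM m (F2 W K)) :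
    ev2 i P Q (α + β) = ev2 i P Q α + ev2 i P Q β := by
  by_cases h : Ind i P Q
  · simp only [ev2_of_ind h, _root_.map_add]
  · simp only [ev2, dif_neg h, add_zero]

lemma ev2_neg {i : K →ₐ[S] Ω} {P Q : Pt W Ω} (α : KM m (F2 W K)) :
    ev2 i P Q (-α) = - ev2 i P Q α := by
  by_cases h : Ind i P Q
  · simp only [ev2_of_ind h, _root_.map_neg]
  · simp only [ev2, dif_neg h, _root_.neg_zero]

lemma ev2_nsmul {i : K →ₐ[S] Ω} {P Q : Pt W Ω} (r : ℕ) (α : KM m (F2 W K)) :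
    ev2 i P Q (r • α) = r • ev2 i P Q α := by
  by_cases h : Ind i P Q
  · simp only [ev2_of_ind h, _root_.map_nsmul]
  · simp only [ev2, dif_neg h, smul_zero]

lemma Unr.ev2 {i : K →ₐ[S] Ω} {P Q : Pt W Ω} {α : KM m (F2 W K)} (hα : Unr α) :
    Unr (ev2 i P Q α) := by
  by_cases h : Ind i P Q
  · rw [ev2_of_ind h]; exact hα.map _
  · rw [UnrA.ev2, dif_neg h]; exact Unr.zero

/-- Evaluating `α(A, B)`, for points `A, B` of the generic field, at `(P, Q)`. -/
lemma ev2_ev2 {i : K →ₐ[S] Ω} {P Q : Pt W Ω} (h : Ind i P Q) {A B : Pt W (F2 W K)}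
    (hAB : Ind (i2 W K) A B) (α : KM m (F2 W K)) :
    ev2 i P Q (ev2 (i2 W K) A B α) =
      ev2 i (ptMap (lift2 i P Q h) A) (ptMap (lift2 i P Q h) B) α := by
  have h1 := ev2_map (lift2 i P Q h) hAB α
  rw [lift2_i2] at h1
  rw [h1, ev2_of_ind h]

lemma ev2_ev {i : K →ₐ[S] Ω} {P Q : Pt W Ω} (h : Ind i P Q) {A : Pt W (F2 W K)}
    (β : KM m (FF W K)) :
    ev2 i P Q (ev (i2 W K) A β) = ev i (ptMap (lift2 i P Q h) A) β := by
  have h1 := ev_map (i2 W K) (lift2 i P Q h) A β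
  rw [lift2_i2] at h1
  rw [h1, ev2_of_ind h]

/-- Symmetric unramified classes on the square are pulled back along the sum map, up to the
factor `4`. -/
theorem symm_class {γ : KM m (F2 W K)} (hγ : Unr γ)
    (hτ : ev2 (i2 W K) (Q2 W K) (P2 W K) γ = γ) :
    ∃ β : KM m (FF W K), Unr β ∧ ev (i2 W K) (A2 W K) β = 4 • γ := by
  have hτ' : KM.map m (tau W K : F2 W K →+* F2 W K) γ = γ := by
    rw [ev2_of_ind (ind_P2_Q2 W K).symm] at hτ
    exact hτ
  obtain ⟨δ, hδ, hδγ⟩ := quad_exists_unr (isQuad_jS W K)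
    (tau W K : F2 W K →+* F2 W K) (tau_jS W K) (by
      change tau W K (ptX (P2 W K)) ≠ ptX (P2 W K)
      rw [← UnrH3.ptX_map, UnrH3.tau_P2]
      exact (ind_P2_Q2 W K).X_ne.symm) hτ' hγ
  obtain ⟨β, hβ, hβδ⟩ := unr_ratFunc hδ
  refine ⟨β, hβ, ?_⟩
  rw [ev_of_gen (gen_A2 W K), ← hδγ, ← hβδ, KM.map_map]
  congr 2
  ext a
  exact (jS_const W K a).symm

end lift2

end UnrA
end

section

/-!
# Additivity and alternation of odd unramified classes, all coefficients
-/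

namespace UnrA

universe u v w z

open Polynomial WeierstrassCurve
open scoped Classical
open UnrH3 (IsQuad GoodW Pt FF F2 F3 i2 P2 Q2 A2 i3 b3 P3 Q3 R3 ptX ptY ptMap Gen Ind Ind3 liftPt
  lift2 base gpt gx gy ratHom nu ind3_self NatEnd
  gy_ne_negY Gen_map_iff liftPt_comp liftPt_base liftPt_gpt gen_gpt liftPt_gpt_self
  nu_base ptMap_comp ptMap_id FF_hom_ext' Gen_neg_iff
  F2_hom_ext lift2_i2 lift2_P2 lift2_Q2 lift2_base lift2_comp lift2_self liftPt_P2 ind_P2_Q2)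

variable {m : UFun.{u, z}} {S : Type v} [Field S] {W : WeierstrassCurve S}

section add

variable {K : Type u} [Field K] [Algebra S K] [hW : GoodW W]

lemma ev_P2 (β : KM m (FF W K)) :
    ev (i2 W K) (P2 W K) β = KM.map m (base W (FF W K) : FF W K →+* F2 W K) β := by
  have h := ev_map (base W K) (base W (FF W K)) (gpt W K) β
  rw [ev_self] at h
  exact h

lemma ev_P3 (β : KM m (FF W K)) :
    ev (i3 W K) (P3 W K) β = KM.map m (b3 W K : F2 W K →+* F3 W K)
      (KM.map m (base W (FF W K) : FF W K →+* F2 W K) β) := by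
  have h := ev_map (i2 W K) (b3 W K) (P2 W K) β
  rw [ev_P2] at h
  exact h

lemma nu_nu_apply (β : KM m (FF W K)) :
    KM.map m (nu W K : FF W K →+* FF W K) (KM.map m (nu W K : FF W K →+* FF W K) β) = β := by
  rw [KM.map_map]
  have h : (nu W K : FF W K →+* FF W K).comp (nu W K : FF W K →+* FF W K) =
      RingHom.id (FF W K) := by
    have := UnrH3.nu_nu (W := W) (K := K)
    exact congrArg (fun f : FF W K →ₐ[S] FF W K => (f : FF W K →+* FF W K)) this
  rw [h, KM.map_id]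
  rfl

/-- Existence of the operator `T`. -/
lemma exists_T {β : KM m (FF W K)} (hβ : Unr β) (hodd : OddCl β) :
    ∃ β' : KM m (FF W K), Unr β' ∧ OddCl β' ∧
      ∀ (Ω : Type u) [Field Ω] [Algebra S Ω] (i : K →ₐ[S] Ω) (P Q : Pt W Ω), Ind i P Q →
        ev i (P + Q) β' = 8 • (ev i P β + ev i Q β) := by
  set γ : KM m (F2 W K) := ev (i2 W K) (P2 W K) β + ev (i2 W K) (Q2 W K) β with hγ
  have hγu : Unr γ := hβ.ev.add hβ.ev
  have hev : ∀ (Ω : Type u) [Field Ω] [Algebra S Ω] (i : K →ₐ[S] Ω) (P Q : Pt W Ω), Ind i P Q →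
      ev2 i P Q γ = ev i P β + ev i Q β := by
    intro Ω _ _ i P Q h
    rw [hγ, ev2_add, ev2_ev h, ev2_ev h, lift2_P2, lift2_Q2]
  have hτ : ev2 (i2 W K) (Q2 W K) (P2 W K) γ = γ := by
    rw [hev _ _ _ _ (ind_P2_Q2 W K).symm, add_comm]
  obtain ⟨β₀, hβ₀, hβ₀γ⟩ := symm_class hγu hτ
  have hrel : ∀ (Ω : Type u) [Field Ω] [Algebra S Ω] (i : K →ₐ[S] Ω) (P Q : Pt W Ω), Ind i P Q →
      ev i (P + Q) β₀ = 4 • (ev i P β + ev i Q β) := by
    intro Ω _ _ i P Q h
    rw [← hev Ω i P Q h, ← ev2_nsmul, ← hβ₀γ, ev2_ev h, map_add, lift2_P2, lift2_Q2]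
  refine ⟨β₀ - KM.map m (nu W K : FF W K →+* FF W K) β₀, ?_, ?_, ?_⟩
  · exact hβ₀.sub (hβ₀.map _)
  · unfold OddCl
    rw [map_sub, nu_nu_apply, neg_sub]
  · intro Ω _ _ i P Q h
    rw [ev_sub, ← ev_neg_pt, hrel Ω i P Q h, neg_add, hrel Ω i (-P) (-Q)
      h.neg_left.neg_right, hodd.ev_neg, hodd.ev_neg]
    module

/-- Additivity of odd unramified classes. -/
theorem OddCl.add {β : KM m (FF W K)} (hβ : Unr β) (hodd : OddCl β)
    {Ω : Type u} [Field Ω] [Algebra S Ω] {i : K →ₐ[S] Ω} {P Q : Pt W Ω} (h : Ind i P Q) :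
    ev i (P + Q) β - (ev i P β + ev i Q β) ∈ tor 512 _ := by
  obtain ⟨β', hβ', hodd', hT⟩ := exists_T hβ hodd
  obtain ⟨β'', hβ'', hodd'', hT'⟩ := exists_T hβ' hodd'
  have key : ∀ (Ω : Type u) [Field Ω] [Algebra S Ω] (i : K →ₐ[S] Ω) (P Q R : Pt W Ω),
      Ind3 i P Q R → ev i R (8 • β' - 64 • β) = ev i P (8 • β' - 64 • β) := by
    intro Ω _ _ i P Q R h
    have e1 : ev i (P + Q + R) β'' = 64 • ev i P β + 64 • ev i Q β + 8 • ev i R β' := by
      rw [hT' Ω i (P + Q) R h.ind_add, hT Ω i P Q h.ind12]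
      module
    have e2 : ev i (P + Q + R) β'' = 64 • ev i R β + 64 • ev i Q β + 8 • ev i P β' := by
      have h3 : P + Q + R = R + Q + P := by abel
      rw [h3, hT' Ω i (R + Q) P h.swap13.ind_add, hT Ω i R Q h.swap13.ind12]
      module
    rw [e1] at e2
    rw [ev_sub, ev_sub, ev_nsmul, ev_nsmul, ev_nsmul, ev_nsmul]
    have e3 : 8 • ev i R β' - 64 • ev i R β - (8 • ev i P β' - 64 • ev i P β) =
        (64 • ev i P β + 64 • ev i Q β + 8 • ev i R β') -
          (64 • ev i R β + 64 • ev i Q β + 8 • ev i P β') := by abel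
    rw [← sub_eq_zero, e3, e2, sub_self]
  have hδodd : OddCl (8 • β' - 64 • β) := by
    unfold OddCl at *
    rw [map_sub, map_nsmul, map_nsmul, hodd, hodd']; module
  have hδ : 8 • β' - 64 • β ∈ tor 8 _ := by
    have h1 := key _ (i3 W K) _ _ _ (ind3_self W K)
    have h2 := key _ (i3 W K) _ _ _ (ind3_self W K).neg_left
    rw [hδodd.ev_neg, h1] at h2
    have h3 : ev (i3 W K) (P3 W K) (8 • β' - 64 • β) ∈ tor 2 _ := by
      rw [mem_tor, two_nsmul]
      nth_rewrite 1 [h2]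
      exact neg_add_cancel _
    rw [ev_P3] at h3
    exact base_tor (W := W) (N := 4) (base_tor (W := W) (N := 2) h3)
  have h4 : 64 • (β' - 8 • β) = 0 := by
    rw [mem_tor] at hδ
    rw [← hδ]; module
  have h5 := hT Ω i P Q h
  have h6 : ev i (P + Q) (64 • (β' - 8 • β)) = 0 := by
    rw [h4]
    have := ev_nsmul i (P + Q) 0 (0 : KM m (FF W K))
    rwa [zero_smul, zero_smul] at this
  rw [ev_nsmul, ev_sub, ev_nsmul, h5] at h6
  rw [mem_tor]
  rw [← neg_eq_zero, ← h6]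
  module

/-- Two-variable classes odd in the first variable. -/
def Odd1 (α : KM m (F2 W K)) : Prop := ev2 (i2 W K) (-P2 W K) (Q2 W K) α = -α

lemma Odd1.ev2_neg {α : KM m (F2 W K)} (h : Odd1 α) {Ω : Type u} [Field Ω] [Algebra S Ω]
    {i : K →ₐ[S] Ω} {P Q : Pt W Ω} (hPQ : Ind i P Q) : ev2 i (-P) Q α = - ev2 i P Q α := by
  have h1 := ev2_ev2 hPQ (ind_P2_Q2 W K).neg_left α
  rw [_root_.map_neg, lift2_P2, lift2_Q2, h, UnrA.ev2_neg] at h1
  exact h1.symm

lemma OddCl.ev2_neg_right {α : KM m (F2 W K)} (h : OddCl α) {Ω : Type u} [Field Ω]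
    [Algebra S Ω] {i : K →ₐ[S] Ω} {P Q : Pt W Ω} (hPQ : Ind i P Q) :
    ev2 i P (-Q) α = - ev2 i P Q α := by
  rw [ev2_eq_ev hPQ, ev2_eq_ev hPQ.neg_right]
  exact h.ev_neg _ _

/-- Classes odd in both variables are alternating. -/
theorem alt {α : KM m (F2 W K)} (hu : Unr α) (h1 : Odd1 α) (h2 : OddCl α)
    {Ω : Type u} [Field Ω] [Algebra S Ω] {i : K →ₐ[S] Ω} {P Q : Pt W Ω} (hPQ : Ind i P Q) :
    ev2 i Q P α + ev2 i P Q α ∈ tor 64 _ := by
  set γ : KM m (F2 W K) := α + ev2 (i2 W K) (Q2 W K) (P2 W K) α with hγ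
  have hγu : Unr γ := hu.add hu.ev2
  have hev : ∀ (Ω : Type u) [Field Ω] [Algebra S Ω] (i : K →ₐ[S] Ω) (P Q : Pt W Ω), Ind i P Q →
      ev2 i P Q γ = ev2 i P Q α + ev2 i Q P α := by
    intro Ω _ _ i P Q h
    rw [hγ, ev2_add, ev2_ev2 h (ind_P2_Q2 W K).symm, lift2_P2, lift2_Q2]
  have hτ : ev2 (i2 W K) (Q2 W K) (P2 W K) γ = γ := by
    rw [hev _ _ _ _ (ind_P2_Q2 W K).symm, ev2_self, add_comm]
  obtain ⟨β₀, hβ₀, hβ₀γ⟩ := symm_class hγu hτ
  have hrel : ∀ (Ω : Type u) [Field Ω] [Algebra S Ω] (i : K →ₐ[S] Ω) (P Q : Pt W Ω), Ind i P Q →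
      ev i (P + Q) β₀ = 4 • (ev2 i P Q α + ev2 i Q P α) := by
    intro Ω _ _ i P Q h
    rw [← hev Ω i P Q h, ← ev2_nsmul, ← hβ₀γ, ev2_ev h, map_add, lift2_P2, lift2_Q2]
  set β₁ := β₀ + KM.map m (nu W K : FF W K →+* FF W K) β₀ with hβ₁
  have hβ₁u : Unr β₁ := hβ₀.add (hβ₀.map _)
  have hβ₁e : EvenCl β₁ := by
    unfold EvenCl
    rw [hβ₁, map_add, nu_nu_apply, add_comm]
  have hrel₁ : ∀ (Ω : Type u) [Field Ω] [Algebra S Ω] (i : K →ₐ[S] Ω) (P Q : Pt W Ω),
      Ind i P Q → ev i (P + Q) β₁ = 8 • (ev2 i P Q α + ev2 i Q P α) := by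
    intro Ω _ _ i P Q h
    rw [hβ₁, ev_add, ← ev_neg_pt, hrel Ω i P Q h, neg_add, hrel Ω i (-P) (-Q)
      h.neg_left.neg_right, h1.ev2_neg h.neg_right, h2.ev2_neg_right h,
      h1.ev2_neg h.symm.neg_right, h2.ev2_neg_right h.symm, neg_neg, neg_neg]
    module
  obtain ⟨c₁, -, hc₁⟩ := hβ₁e.const hβ₁u
  have hrel₂ : ∀ (Ω : Type u) [Field Ω] [Algebra S Ω] (i : K →ₐ[S] Ω) (P Q : Pt W Ω),
      Ind i P Q → 32 • (ev2 i P Q α + ev2 i Q P α) = KM.map m (i : K →+* Ω) c₁ := by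
    intro Ω _ _ i P Q h
    rw [← ev_const (W := W) h.gen_add, hc₁, ev_nsmul, hrel₁ Ω i P Q h]
    module
  have e1 := hrel₂ Ω i P Q hPQ
  have e2 := hrel₂ Ω i (-P) Q hPQ.neg_left
  rw [h1.ev2_neg hPQ, h2.ev2_neg_right hPQ.symm, ← e1] at e2
  rw [mem_tor]
  have e3 : 64 • (ev2 i Q P α + ev2 i P Q α) = 32 • (ev2 i P Q α + ev2 i Q P α) -
      32 • (-ev2 i P Q α + -ev2 i Q P α) := by module
  rw [e3, e2, sub_self]

/-- Odd unramified two-variable classes are balanced with respect to endomorphisms. -/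
theorem bal (φ : NatEnd.{u} W) {α : KM m (F2 W K)} (hu : Unr α) (h1 : Odd1 α)
    (h2 : OddCl α) {Ω : Type u} [Field Ω] [Algebra S Ω] {i : K →ₐ[S] Ω} {P Q : Pt W Ω}
    (hPQ : Ind i P Q) : ev2 i (φ.toFun Ω P) Q α - ev2 i P (φ.toFun Ω Q) α ∈ tor 64 _ := by
  have hind := ind_P2_Q2 W K
  -- the class `α(φ P, Q)`
  set α' : KM m (F2 W K) := ev2 (i2 W K) (φ.toFun _ (P2 W K)) (Q2 W K) α with hα'
  have hev : ∀ (Ω : Type u) [Field Ω] [Algebra S Ω] (i : K →ₐ[S] Ω) (P Q : Pt W Ω), Ind i P Q →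
      ev2 i P Q α' = ev2 i (φ.toFun _ P) Q α := by
    intro Ω _ _ i P Q h
    rw [hα', ev2_ev2 h (φ.ind_left hind), φ.nat, lift2_P2, lift2_Q2]
  have hu' : Unr α' := hu.ev2
  have h1' : Odd1 α' := by
    unfold Odd1
    rw [hev _ _ _ _ hind.neg_left, _root_.map_neg, h1.ev2_neg (φ.ind_left hind), hα']
  have h2' : OddCl α' := by
    have e1 : ev2 (i2 W K) (P2 W K) (-Q2 W K) α' = -α' := by
      rw [hev _ _ _ _ hind.neg_right, h2.ev2_neg_right (φ.ind_left hind), hα']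
    have e2 : ev2 (i2 W K) (P2 W K) (-Q2 W K) α' =
        KM.map m (nu W (FF W K) : F2 W K →+* F2 W K) α' := by
      have h6 : ev2 (i2 W K) (P2 W K) (-Q2 W K) α' =
          ev (base W (FF W K)) (-gpt W (FF W K)) α' := by
        rw [ev2_eq_ev (ind_P2_Q2 W K).neg_right, liftPt_P2]
        rfl
      rw [h6, ev_neg_pt, ev_self]
    unfold OddCl
    rw [← e2, e1]
  have k1 := alt hu' h1' h2' hPQ
  rw [hev _ _ _ _ hPQ, hev _ _ _ _ hPQ.symm] at k1
  have k2 := alt hu h1 h2 (φ.ind_left hPQ.symm)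
  have k3 := sub_mem k1 k2
  have k4 : ev2 i (φ.toFun Ω P) Q α - ev2 i P (φ.toFun Ω Q) α =
      (ev2 i (φ.toFun Ω Q) P α + ev2 i (φ.toFun Ω P) Q α) -
        (ev2 i P (φ.toFun Ω Q) α + ev2 i (φ.toFun Ω Q) P α) := by abel
  rw [k4]
  exact k3

end add

end UnrA
end
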