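import Pool.Agent.Lib.MP_859dd5_ag.Mg.G062
import Pool.Agent.Lib.MP_859dd5_ag.Mg.G057
import Pool.Agent.Lib.MP_859dd5_ag.Mg.G065
import Pool.Agent.Lib.MP_859dd5_ag.Mg.G064
import Pool.Agent.Lib.MP_859dd5_ag.Mg.G027

section

section

/-!
# Additivity at dependent points and the characteristic equation, all coefficients
-/

namespace UnrA

universe u v w z

open Polynomial WeierstrassCurve
open scoped Classical
open UnrH3 (IsQuad GoodW Pt FF F2 i2 P2 Q2 ptX ptY ptMap Gen Ind InCl liftPt base gpt NatEnd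
  gen_gpt range_in_cl insert_in_cl subset_cl cl_le cl_mono cl InCl_self InCl_exchange
  InCl_add_iff_right Gen_map_iff cl_range_comp_le liftPt_gpt frobEnd)

variable {m : UFun.{u, z}} {S : Type v} [Field S] {W : WeierstrassCurve S} [hG : GoodW W]
  {K Ω : Type u} [Field K] [Algebra S K] [Field Ω] [Algebra S Ω]

/-- Additivity of odd unramified classes at two generic points with generic sum. -/
theorem OddCl.add' {β : KM m (FF W K)} (hβ : Unr β) (hodd : OddCl β)
    {i : K →ₐ[S] Ω} {A B : Pt W Ω} (hA : Gen i A) (hB : Gen i B) (hAB : Gen i (A + B)) :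
    ev i (A + B) β - (ev i A β + ev i B β) ∈ tor 1024 _ := by
  set b := base W Ω with hb
  set Q := gpt W Ω with hQ
  have hQg : Gen b Q := gen_gpt
  have hle : cl (Set.range (b.comp i)) ≤ cl (Set.range b) := cl_range_comp_le i b
  have hpt : ∀ C : Pt W Ω, InCl (Set.range b) (ptMap b C) := by
    intro C
    change ptX (ptMap b C) ∈ cl (Set.range b)
    rw [UnrH3.ptX_map]
    exact subset_cl _ ⟨_, rfl⟩
  have hS : ∀ s : S, algebraMap S (FF W Ω) s ∈ cl (Set.range b) := range_in_cl b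
  -- a point depending only on `Ω` plus `Q` is generic
  have hgen : ∀ C : Pt W Ω, Gen b (ptMap b C + Q) := by
    intro C h
    exact hQg ((InCl_add_iff_right hS (hpt C)).mp h)
  have hgen' : ∀ C : Pt W Ω, Gen (b.comp i) (ptMap b C + Q) := fun C h =>
    hgen C (h.mono hle)
  have hind : ∀ C : Pt W Ω, Gen i C → Ind (b.comp i) (ptMap b C) Q := by
    intro C hC
    refine ⟨(Gen_map_iff i b C).mpr hC, fun h => hQg (h.mono (cl_le ?_))⟩
    rintro z (rfl | hz)
    · exact hpt C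
    · exact hle (subset_cl _ hz)
  have hind2 : Ind (b.comp i) (ptMap b A + Q) (ptMap b B - Q) := by
    refine ⟨hgen' A, fun h => ?_⟩
    have hS' := insert_in_cl (b.comp i) (ptX (ptMap b A + Q))
    have h1 : InCl (insert (ptX (ptMap b A + Q)) (Set.range (b.comp i))) (ptMap b (A + B)) := by
      have h2 := (InCl_self (T := Set.range (b.comp i)) (ptMap b A + Q)).add hS' h
      have h3 : ptMap b A + Q + (ptMap b B - Q) = ptMap b (A + B) := by
        rw [map_add]; abel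
      rwa [h3] at h2
    have h2 : Gen (b.comp i) (ptMap b (A + B)) := (Gen_map_iff i b _).mpr hAB
    have h3 := InCl_exchange h1 h2
    apply hgen A
    refine h3.mono (cl_le ?_)
    rintro z (rfl | hz)
    · exact hpt _
    · exact hle (subset_cl _ hz)
  apply base_tor (W := W) (N := 512)
  rw [map_sub, map_add]
  have e0 : ∀ C : Pt W Ω, KM.map m (base W Ω : Ω →+* FF W Ω) (ev i C β) =
      ev (b.comp i) (ptMap b C) β := fun C => (ev_map i b C β).symm
  rw [e0, e0, e0]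
  have e1 : ptMap b (A + B) = (ptMap b A + Q) + (ptMap b B + -Q) := by
    rw [map_add]; abel
  have k1 := hodd.add hβ (P := ptMap b A + Q) (Q := ptMap b B + -Q) (i := b.comp i)
    (by rw [← sub_eq_add_neg]; exact hind2)
  have k2 := hodd.add hβ (hind A hA)
  have k3 := hodd.add hβ (hind B hB).neg_right
  rw [hodd.ev_neg] at k3
  rw [e1]
  have k4 := add_mem k1 (add_mem k2 k3)
  convert k4 using 1
  abel

section char

variable {S : Type v} [Field S] {W : WeierstrassCurve S} [hE : UnrH3.Ell.EllW W] {K : Type u}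
  [Field K] [Algebra S K] {m : UFun.{u, z}}

omit hE in
lemma ev_zero_pt {Ω : Type u} [Field Ω] [Algebra S Ω] (i : K →ₐ[S] Ω)
    (β : KM m (FF W K)) : ev i (0 : Pt W Ω) β = 0 := by
  unfold ev
  rw [dif_neg]
  intro h
  exact h.ne_zero rfl

/-- A natural endomorphism is zero or generic at the generic point. -/
lemma gen_natE {φ : AddMonoid.End (Pt W (FF W K))} (hφ : φ ∈ UnrH3.Ell.natE W K)
    (h : φ (gpt W K) ≠ 0) : Gen (base W K) (φ (gpt W K)) := by
  apply UnrH3.Ell.gen_of_ht (UnrH3.Ell.natE_anti hφ UnrH3.Ell.gpt_mem_antiG)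
  intro h0
  exact h (UnrH3.Ell.eq_zero_of_ht hφ h0)

/-- Additivity of odd unramified classes in the natural endomorphism. -/
lemma ev_natE_add {β : KM m (FF W K)} (hβ : Unr β) (hodd : OddCl β)
    {φ ψ : AddMonoid.End (Pt W (FF W K))} (hφ : φ ∈ UnrH3.Ell.natE W K)
    (hψ : ψ ∈ UnrH3.Ell.natE W K) :
    ev (base W K) ((φ + ψ) (gpt W K)) β -
      (ev (base W K) (φ (gpt W K)) β + ev (base W K) (ψ (gpt W K)) β) ∈ tor 1024 _ := by
  have hs : (φ + ψ) (gpt W K) = φ (gpt W K) + ψ (gpt W K) := rfl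
  by_cases h1 : φ (gpt W K) = 0
  · rw [hs, h1, zero_add, ev_zero_pt, zero_add, sub_self]
    exact zero_mem _
  by_cases h2 : ψ (gpt W K) = 0
  · rw [hs, h2, add_zero, ev_zero_pt, add_zero, sub_self]
    exact zero_mem _
  by_cases h3 : (φ + ψ) (gpt W K) = 0
  · have h4 : ψ (gpt W K) = -φ (gpt W K) :=
      (neg_eq_of_add_eq_zero_right (by rw [← hs]; exact h3)).symm
    rw [h3, ev_zero_pt, h4, hodd.ev_neg, add_neg_cancel, sub_self]
    exact zero_mem _
  · rw [hs]
    exact hodd.add' hβ (gen_natE hφ h1) (gen_natE hψ h2)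
      (by rw [← hs]; exact gen_natE (add_mem hφ hψ) h3)

/-- The values at the natural endomorphisms as a homomorphism. -/
noncomputable def evN {β : KM m (FF W K)} (hβ : Unr β) (hodd : OddCl β) :
    UnrH3.Ell.natE W K →+ (KM m (FF W K)) ⧸ (tor 1024 (KM m (FF W K))) :=
  AddMonoidHom.mk' (fun φ => QuotientAddGroup.mk
      (ev (base W K) ((φ : AddMonoid.End (Pt W (FF W K))) (gpt W K)) β))
    (fun φ ψ => by
      rw [← QuotientAddGroup.mk_add, eq_comm, QuotientAddGroup.eq, neg_add_eq_sub]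
      exact ev_natE_add hβ hodd φ.2 ψ.2)

lemma ev_natEnd (χ : NatEnd.{u} W) {Ω : Type u} [Field Ω]
    [Algebra S Ω] {i : K →ₐ[S] Ω} {P : Pt W Ω} (h : Gen i P) (β : KM m (FF W K)) :
    ev i P (ev (base W K) (χ.toFun _ (gpt W K)) β) = ev i (χ.toFun _ P) β := by
  rw [ev_ev h, χ.nat, liftPt_gpt]

variable {p : ℕ} [hp : Fact p.Prime] [hS : CharP S p] {s : ℕ}
  (hW : ∀ x ∈ ({W.a₁, W.a₂, W.a₃, W.a₄, W.a₆} : Set S), x ^ p ^ s = x)

/-- The characteristic equation of the Frobenius on one-variable odd unramified classes. -/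
theorem one_var_char (hs : 0 < s) {β : KM m (FF W K)} (hβ : Unr β)
    (hodd : OddCl β) :
    ev (base W K) ((frobEnd W p s hW).toFun _ (gpt W K))
        (ev (base W K) ((frobEnd W p s hW).toFun _ (gpt W K)) β) -
      UnrH3.Ell.tr hW K • ev (base W K) ((frobEnd W p s hW).toFun _ (gpt W K)) β +
      ((p : ℤ) ^ s) • β ∈ tor 1024 _ := by
  obtain ⟨-, hchar⟩ := UnrH3.Ell.frob_char (K := K) hW hs
  obtain ⟨F, hF⟩ : ∃ F : AddMonoid.End (Pt W (FF W K)),
      ∀ A, F A = (frobEnd W p s hW).toFun _ A := ⟨(frobEnd W p s hW).toFun _, fun _ => rfl⟩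
  have hFn : F ∈ UnrH3.Ell.natE W K := UnrH3.Ell.natEnd_mem _ hF
  have hg0 : gpt W K ≠ 0 := Affine.Point.some_ne_zero _
  have hgF : Gen (base W K) ((frobEnd W p s hW).toFun _ (gpt W K)) := by
    rw [← hF]
    apply gen_natE hFn
    rw [hF]; exact UnrH3.Ell.fr_ne_zero hW hg0
  rw [ev_natEnd (frobEnd W p s hW) hgF]
  obtain ⟨E, hEdef⟩ : ∃ E : UnrH3.Ell.natE W K →+ (KM m (FF W K)) ⧸ (tor 1024 (KM m (FF W K))),
      ∀ φ, E φ = QuotientAddGroup.mk
        (ev (base W K) ((φ : AddMonoid.End (Pt W (FF W K))) (gpt W K)) β) :=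
    ⟨evN hβ hodd, fun _ => rfl⟩
  obtain ⟨φ, hφ⟩ : ∃ φ : UnrH3.Ell.natE W K, φ = ⟨F, hFn⟩ * ⟨F, hFn⟩ -
    UnrH3.Ell.tr hW K • ⟨F, hFn⟩ + ((p : ℤ) ^ s) • 1 := ⟨_, rfl⟩
  have h1 : E φ = 0 := by
    rw [hEdef]
    have h2 : (φ : AddMonoid.End (Pt W (FF W K))) (gpt W K) = F (F (gpt W K)) -
        UnrH3.Ell.tr hW K • F (gpt W K) + ((p : ℤ) ^ s) • gpt W K := by
      rw [hφ]
      push_cast
      rfl
    rw [h2, hF, hF, hchar, ev_zero_pt]
    rfl
  rw [hφ, map_add, map_sub, map_zsmul, map_zsmul, hEdef, hEdef, hEdef] at h1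
  have e1 : (((⟨F, hFn⟩ * ⟨F, hFn⟩ : UnrH3.Ell.natE W K) :
      AddMonoid.End (Pt W (FF W K))) (gpt W K)) =
      (frobEnd W p s hW).toFun _ ((frobEnd W p s hW).toFun _ (gpt W K)) := by
    change F (F (gpt W K)) = _
    rw [hF, hF]
  have e2 : (((⟨F, hFn⟩ : UnrH3.Ell.natE W K) : AddMonoid.End (Pt W (FF W K))) (gpt W K)) =
      (frobEnd W p s hW).toFun _ (gpt W K) := hF _
  have e3 : (((1 : UnrH3.Ell.natE W K) : AddMonoid.End (Pt W (FF W K))) (gpt W K)) =
    gpt W K := rfl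
  rw [e1, e2, e3, ev_self] at h1
  rw [← QuotientAddGroup.eq_zero_iff]
  exact h1

end char

end UnrA
end

section

/-!
# The characteristic equation on one-variable classes
-/

namespace UnrH3.Ell

universe u v w

open Polynomial WeierstrassCurve
open scoped Classical

section one

variable {S : Type v} [Field S] {W : WeierstrassCurve S} [hE : EllW W] {K : Type u} [Field K]
  [Algebra S K] {m : ℕ}

omit hE in
lemma ev_zero_pt {Ω : Type u} [Field Ω] [Algebra S Ω] (i : K →ₐ[S] Ω)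
    (β : KM m (FF W K)) : ev i (0 : Pt W Ω) β = 0 := by
  unfold ev
  rw [dif_neg]
  intro h
  exact h.ne_zero rfl

/-- A natural endomorphism is zero or generic at the generic point. -/
lemma gen_natE {φ : AddMonoid.End (Pt W (FF W K))} (hφ : φ ∈ natE W K)
    (h : φ (gpt W K) ≠ 0) : Gen (base W K) (φ (gpt W K)) := by
  apply gen_of_ht (natE_anti hφ gpt_mem_antiG)
  intro h0
  exact h (eq_zero_of_ht hφ h0)

/-- Additivity of odd unramified classes in the natural endomorphism. -/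
lemma ev_natE_add (hm : Odd m) {β : KM m (FF W K)} (hβ : Unr β) (hodd : OddCl β)
    {φ ψ : AddMonoid.End (Pt W (FF W K))} (hφ : φ ∈ natE W K) (hψ : ψ ∈ natE W K) :
    ev (base W K) ((φ + ψ) (gpt W K)) β =
      ev (base W K) (φ (gpt W K)) β + ev (base W K) (ψ (gpt W K)) β := by
  have hs : (φ + ψ) (gpt W K) = φ (gpt W K) + ψ (gpt W K) := rfl
  by_cases h1 : φ (gpt W K) = 0
  · rw [hs, h1, zero_add, ev_zero_pt, zero_add]
  by_cases h2 : ψ (gpt W K) = 0
  · rw [hs, h2, add_zero, ev_zero_pt, add_zero]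
  by_cases h3 : (φ + ψ) (gpt W K) = 0
  · have h4 : ψ (gpt W K) = -φ (gpt W K) :=
      (neg_eq_of_add_eq_zero_right (by rw [← hs]; exact h3)).symm
    rw [h3, ev_zero_pt, h4, hodd.ev_neg, add_neg_cancel]
  · rw [hs]
    exact hodd.add' hm hβ (gen_natE hφ h1) (gen_natE hψ h2)
      (by rw [← hs]; exact gen_natE (add_mem hφ hψ) h3)

/-- The values at the natural endomorphisms as a homomorphism. -/
noncomputable def evN (hm : Odd m) {β : KM m (FF W K)} (hβ : Unr β) (hodd : OddCl β) :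
    natE W K →+ KM m (FF W K) :=
  AddMonoidHom.mk' (fun φ => ev (base W K) ((φ : AddMonoid.End (Pt W (FF W K))) (gpt W K)) β)
    (fun φ ψ => ev_natE_add hm hβ hodd φ.2 ψ.2)

variable {p : ℕ} [hp : Fact p.Prime] [hS : CharP S p] {s : ℕ}
  (hW : ∀ x ∈ ({W.a₁, W.a₂, W.a₃, W.a₄, W.a₆} : Set S), x ^ p ^ s = x)

/-- The characteristic equation of the Frobenius on one-variable odd unramified classes. -/
theorem one_var_char (hs : 0 < s) (hm : Odd m) {β : KM m (FF W K)} (hβ : Unr β)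
    (hodd : OddCl β) :
    ev (base W K) ((frobEnd W p s hW).toFun _ (gpt W K))
        (ev (base W K) ((frobEnd W p s hW).toFun _ (gpt W K)) β) -
      tr hW K • ev (base W K) ((frobEnd W p s hW).toFun _ (gpt W K)) β +
      ((p : ℤ) ^ s) • β = 0 := by
  obtain ⟨-, hchar⟩ := frob_char (K := K) hW hs
  obtain ⟨F, hF⟩ : ∃ F : AddMonoid.End (Pt W (FF W K)),
      ∀ A, F A = (frobEnd W p s hW).toFun _ A := ⟨(frobEnd W p s hW).toFun _, fun _ => rfl⟩
  have hFn : F ∈ natE W K := natEnd_mem _ hF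
  have hg0 : gpt W K ≠ 0 := Affine.Point.some_ne_zero _
  have hgF : Gen (base W K) ((frobEnd W p s hW).toFun _ (gpt W K)) := by
    rw [← hF]
    apply gen_natE hFn
    rw [hF]; exact fr_ne_zero hW hg0
  rw [ev_natEnd (frobEnd W p s hW) hgF]
  obtain ⟨E, hEdef⟩ : ∃ E : natE W K →+ KM m (FF W K), ∀ φ, E φ =
      ev (base W K) ((φ : AddMonoid.End (Pt W (FF W K))) (gpt W K)) β :=
    ⟨evN hm hβ hodd, fun _ => rfl⟩
  obtain ⟨φ, hφ⟩ : ∃ φ : natE W K, φ = ⟨F, hFn⟩ * ⟨F, hFn⟩ - tr hW K • ⟨F, hFn⟩ +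
    ((p : ℤ) ^ s) • 1 := ⟨_, rfl⟩
  have h1 : E φ = 0 := by
    rw [hEdef]
    have h2 : (φ : AddMonoid.End (Pt W (FF W K))) (gpt W K) = F (F (gpt W K)) -
        tr hW K • F (gpt W K) + ((p : ℤ) ^ s) • gpt W K := by
      rw [hφ]
      push_cast
      rfl
    rw [h2, hF, hF, hchar, ev_zero_pt]
  rw [hφ, map_add, map_sub, map_zsmul, map_zsmul, hEdef, hEdef, hEdef] at h1
  have e1 : (((⟨F, hFn⟩ * ⟨F, hFn⟩ : natE W K) : AddMonoid.End (Pt W (FF W K))) (gpt W K)) =
      (frobEnd W p s hW).toFun _ ((frobEnd W p s hW).toFun _ (gpt W K)) := by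
    change F (F (gpt W K)) = _
    rw [hF, hF]
  have e2 : (((⟨F, hFn⟩ : natE W K) : AddMonoid.End (Pt W (FF W K))) (gpt W K)) =
      (frobEnd W p s hW).toFun _ (gpt W K) := hF _
  have e3 : (((1 : natE W K) : AddMonoid.End (Pt W (FF W K))) (gpt W K)) = gpt W K := rfl
  rw [e1, e2, e3, ev_self] at h1
  exact h1

end one

end UnrH3.Ell
end

section

/-!
# Points of general elliptic curves in subfields of a fixed field
-/

namespace UnrH3.Ell

universe u v w

open Polynomial WeierstrassCurve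
open scoped Classical

variable {m : ℕ} {Λ : Type u} [Field Λ]

/-- The points with coordinates in the function field. -/
abbrev PtF {S : Type v} [Field S] (W : WeierstrassCurve S) (K : Type u) [Field K]
    [Algebra S K] : Type u := Pt W (FF W K)

section single

variable {K M : Subfield Λ} {W : WeierstrassCurve K} {x₁ y₁ : Λ}

/-- A solution of the equation of the curve. -/
def OnW (W : WeierstrassCurve K) (x y : Λ) : Prop :=
  y ^ 2 = x ^ 3 + (W.a₂ : Λ) * x ^ 2 + (W.a₄ : Λ) * x + (W.a₆ : Λ)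

lemma OnW.pt [EllW W] (h : OnW W x₁ y₁) : ∃ P : Pt W Λ, P ≠ 0 ∧ ptX P = x₁ ∧ ptY P = y₁ :=
  ⟨.some x₁ y₁ (nonsingular_of (W := W) h), Affine.Point.some_ne_zero _, rfl, rfl⟩

/-- The field generated by a point is the function field of the curve. -/
lemma exists_single_iso [EllW W] (hx₁ : x₁ ∉ cl (K : Set Λ)) (h₁ : OnW W x₁ y₁)
    (hM : M = adj K {x₁, y₁}) :
    ∃ (fM : FF W K →+* M) (e : M →+* FF W K), e.comp fM = RingHom.id _ ∧
      fM.comp e = RingHom.id _ ∧ (∀ z : K, (fM (base W K z) : Λ) = z) ∧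
      (fM (gx W K) : Λ) = x₁ ∧ (fM (gy W K) : Λ) = y₁ := by
  obtain ⟨P, hP0, hPx, hPy⟩ := h₁.pt
  have hP : Gen (Algebra.ofId K Λ) P := by
    change ¬ (ptX P ∈ cl (Set.range (Algebra.ofId K Λ)))
    rw [range_ofId, hPx]; exact hx₁
  obtain ⟨f, hf⟩ : ∃ f, f = liftPt (Algebra.ofId K Λ) P hP := ⟨_, rfl⟩
  have fb : ∀ z : K, f (base W K z) = z := fun z => by
    rw [hf]
    exact congrArg (fun g : K →ₐ[K] Λ => g z) (liftPt_base _ P hP)
  have fx : f (gx W K) = x₁ := by rw [hf, liftPt_gx, hPx]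
  have fy : f (gy W K) = y₁ := by rw [hf, liftPt_gy, hPy]
  have hfM : ∀ z, f z ∈ M := by
    intro z
    rw [hM]
    apply FF_range_le f
    · intro z'
      rw [fb]; exact le_adj _ _ z'.2
    · rw [fx]; exact subset_adj _ _ (by simp)
    · rw [fy]; exact subset_adj _ _ (by simp)
  obtain ⟨e, he⟩ : ∃ e : M →+* FF W K, (f : FF W K →+* Λ).comp e = M.subtype := by
    apply exists_factor
    intro z
    have h3 : M ≤ (f : FF W K →+* Λ).fieldRange := by
      rw [hM]
      apply adj_le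
      · intro z hz
        exact ⟨_, fb ⟨z, hz⟩⟩
      · rintro z (hz | hz)
        · rw [hz]; exact ⟨_, fx⟩
        · rw [Set.mem_singleton_iff.mp hz]; exact ⟨_, fy⟩
    exact h3 z.2
  have hfe : ∀ z : M, f (e z) = z := fun z => congrArg (fun g : M →+* Λ => g z) he
  refine ⟨(f : FF W K →+* Λ).codRestrict M hfM, e, ?_, ?_, fb, fx, fy⟩
  · ext1 z
    apply RingHom.injective (f : FF W K →+* Λ)
    exact hfe _
  · ext1 z
    exact Subtype.ext (hfe z)

variable (fM : FF W K →+* M) (e : M →+* FF W K)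
  (hef : e.comp fM = RingHom.id _) (hfe : fM.comp e = RingHom.id _)
  (hb : ∀ z : K, (fM (base W K z) : Λ) = z)
  (hx : (fM (gx W K) : Λ) = x₁) (hy : (fM (gy W K) : Λ) = y₁)

include hef

lemma single_e_of {z : M} {z' : FF W K} (h : (fM z' : Λ) = z) : e z = z' := by
  have h1 : fM z' = z := Subtype.ext h
  rw [← h1]
  exact congrArg (fun g : FF W K →+* FF W K => g z') hef

include hfe hb hx hy

/-- The effect of a substitution, seen in the function field. -/
lemma single_spec (hM : M = adj K {x₁, y₁}) {A : PtF W K}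
    (h : Gen (base W K) A) (g : M →+* M) (hK : ∀ z : M, (z : Λ) ∈ K → g z = z)
    (hPx : ∀ z : M, (z : Λ) = x₁ → (g z : Λ) = fM (ptX A))
    (hPy : ∀ z : M, (z : Λ) = y₁ → (g z : Λ) = fM (ptY A)) :
    e.comp g = (liftPt (base W K) A h : FF W K →+* FF W K).comp e := by
  have hKM : K ≤ M := by rw [hM]; exact le_adj _ _
  have hTM : ({x₁, y₁} : Set Λ) ⊆ M := by rw [hM]; exact subset_adj _ _
  have hfe' : ∀ z : M, fM (e z) = z := fun z => congrArg (fun g : M →+* M => g z) hfe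
  have hi : ∀ z : K, liftPt (base W K) A h (base W K z) = base W K z := fun z =>
    congrArg (fun g : K →ₐ[K] FF W K => g z) (liftPt_base _ A h)
  ext1 z
  have goal : fM (e (g z)) = fM (liftPt (base W K) A h (e z)) := by
    refine hom_eq_of_gen (fM.comp (e.comp g))
      (fM.comp ((liftPt (base W K) A h : FF W K →+* FF W K).comp e)) hKM hTM
      ?_ ?_ z (by rw [← hM]; exact z.2)
    · intro z hz
      change fM (e (g _)) = fM (liftPt (base W K) A h (e _))
      have h3 : e ⟨z, hKM hz⟩ = base W K ⟨z, hz⟩ := single_e_of fM e hef (hb ⟨z, hz⟩)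
      rw [hfe', hK _ hz, h3, hi]
      exact Subtype.ext (hb ⟨z, hz⟩).symm
    · intro z hz
      change fM (e (g _)) = fM (liftPt (base W K) A h (e _))
      rw [hfe']
      rcases id hz with hz' | hz'
      · have h3 : e ⟨z, hTM hz⟩ = gx W K := single_e_of fM e hef (hx.trans hz'.symm)
        rw [h3, liftPt_gx]
        exact Subtype.ext (hPx _ hz')
      · have h3 : e ⟨z, hTM hz⟩ = gy W K := single_e_of fM e hef (hy.trans hz'.symm)
        rw [h3, liftPt_gy]
        exact Subtype.ext (hPy _ hz')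
  exact fM.injective goal

omit hfe in
/-- The existence of substitutions. -/
lemma single_exists {A : PtF W K} (h : Gen (base W K) A) :
    ∃ g : M →+* M, (∀ z : M, (z : Λ) ∈ K → g z = z) ∧
      (∀ z : M, (z : Λ) = x₁ → (g z : Λ) = fM (ptX A)) ∧
      (∀ z : M, (z : Λ) = y₁ → (g z : Λ) = fM (ptY A)) := by
  have hi : ∀ z : K, liftPt (base W K) A h (base W K z) = base W K z := fun z =>
    congrArg (fun g : K →ₐ[K] FF W K => g z) (liftPt_base _ A h)
  refine ⟨fM.comp ((liftPt (base W K) A h : FF W K →+* FF W K).comp e), ?_, ?_, ?_⟩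
  · intro z hz
    change fM (liftPt (base W K) A h (e z)) = z
    have h3 : e z = base W K ⟨z, hz⟩ := single_e_of fM e hef (hb ⟨z, hz⟩)
    rw [h3, hi]
    exact Subtype.ext (hb ⟨z, hz⟩)
  · intro z hz
    change (fM (liftPt (base W K) A h (e z)) : Λ) = _
    have h3 : e z = gx W K := single_e_of fM e hef (hx.trans hz.symm)
    rw [h3, liftPt_gx]
  · intro z hz
    change (fM (liftPt (base W K) A h (e z)) : Λ) = _
    have h3 : e z = gy W K := single_e_of fM e hef (hy.trans hz.symm)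
    rw [h3, liftPt_gy]

end single

section frob

variable {K M : Subfield Λ} {W : WeierstrassCurve K} [hE : EllW W] {x₁ y₁ : Λ} {p : ℕ}
  [hp : Fact p.Prime] [CharP Λ p] [hpK : CharP K p] {s : ℕ}
  (hW : ∀ x ∈ ({W.a₁, W.a₂, W.a₃, W.a₄, W.a₆} : Set K), x ^ p ^ s = x)

omit [CharP Λ p] in
include hW in
/-- The Frobenius substitution. -/
lemma single_frob_exists (hx₁ : x₁ ∉ cl (K : Set Λ)) (h₁ : OnW W x₁ y₁)
    (hM : M = adj K {x₁, y₁}) :
    ∃ g : M →+* M, (∀ z : M, (z : Λ) ∈ K → g z = z) ∧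
      (∀ z : M, (z : Λ) = x₁ → g z = z ^ p ^ s) ∧ (∀ z : M, (z : Λ) = y₁ → g z = z ^ p ^ s) := by
  obtain ⟨fM, e, hef, hfe, hb, hx, hy⟩ := exists_single_iso hx₁ h₁ hM
  obtain ⟨A, hA⟩ : ∃ A : PtF W K, A = (frobEnd W p s hW).toFun _ (gpt W K) := ⟨_, rfl⟩
  have hgen : Gen (base W K) A := by
    intro h'
    rw [hA] at h'
    exact gen_gpt (((frobEnd W p s hW).inCl _ _ (range_in_cl _) _).mp h')
  have hAx : (fM (ptX A) : Λ) = x₁ ^ p ^ s := by
    rw [hA, fr_ptX, ptX_gpt, map_pow]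
    push_cast
    rw [hx]
  have hAy : (fM (ptY A) : Λ) = y₁ ^ p ^ s := by
    rw [hA, fr_ptY, ptY_gpt, map_pow]
    push_cast
    rw [hy]
  obtain ⟨g, g1, g2, g3⟩ := single_exists fM e hef hb hx hy hgen
  exact ⟨g, g1, fun z hz => Subtype.ext (by rw [g2 z hz, hAx]; push_cast; rw [hz]),
    fun z hz => Subtype.ext (by rw [g3 z hz, hAy]; push_cast; rw [hz])⟩

omit [CharP Λ p] in
include hW in
/-- The characteristic equation of the Frobenius substitution. -/
theorem single_char (hs : 0 < s) (hm : Odd m) (hx₁ : x₁ ∉ cl (K : Set Λ))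
    (h₁ : OnW W x₁ y₁) (hM : M = adj K {x₁, y₁}) {γ : KM m M} (hu : Unr γ)
    (ho : OddAt K y₁ {x₁} γ) (g : M →+* M) (g1 : ∀ z : M, (z : Λ) ∈ K → g z = z)
    (g2 : ∀ z : M, (z : Λ) = x₁ → g z = z ^ p ^ s)
    (g3 : ∀ z : M, (z : Λ) = y₁ → g z = z ^ p ^ s) :
    KM.map m g (KM.map m g γ) - tr hW K • KM.map m g γ + ((p : ℤ) ^ s) • γ = 0 := by
  obtain ⟨fM, e, hef, hfe, hb, hx, hy⟩ := exists_single_iso hx₁ h₁ hM
  have hinj : Function.Injective (KM.map m e) := by
    intro a b hab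
    have := congrArg (KM.map m fM) hab
    rwa [KM.map_map, KM.map_map, hfe, KM.map_id] at this
  have hodd : OddCl (KM.map m e γ) := by
    obtain ⟨g', g'1, g'2, g'3⟩ := single_exists fM e hef hb hx hy
      (A := -gpt W K) gen_gpt.neg
    have hs := single_spec fM e hef hfe hb hx hy hM gen_gpt.neg g' g'1 g'2 g'3
    have hg' : KM.map m g' γ = -γ := by
      apply ho g' g'1
      · intro z hz
        apply Subtype.ext
        rw [g'2 z hz, ptX_neg, ptX_gpt, hx]
        exact (Set.mem_singleton_iff.mp hz).symm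
      · intro z hz
        apply Subtype.ext
        rw [g'3 z hz, ptY_neg, ptY_gpt, map_neg]
        push_cast
        rw [hy, hz]
    unfold OddCl nu
    rw [KM.map_map, ← hs, ← KM.map_map, hg', map_neg]
  obtain ⟨A, hA⟩ : ∃ A : PtF W K, A = (frobEnd W p s hW).toFun _ (gpt W K) := ⟨_, rfl⟩
  have hgen : Gen (base W K) A := by
    intro h'
    rw [hA] at h'
    exact gen_gpt (((frobEnd W p s hW).inCl _ _ (range_in_cl _) _).mp h')
  have hAx : (fM (ptX A) : Λ) = x₁ ^ p ^ s := by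
    rw [hA, fr_ptX, ptX_gpt, map_pow]
    push_cast
    rw [hx]
  have hAy : (fM (ptY A) : Λ) = y₁ ^ p ^ s := by
    rw [hA, fr_ptY, ptY_gpt, map_pow]
    push_cast
    rw [hy]
  have hs' := single_spec fM e hef hfe hb hx hy hM hgen g g1
    (fun z hz => by rw [g2 z hz, hAx]; push_cast; rw [hz])
    (fun z hz => by rw [g3 z hz, hAy]; push_cast; rw [hz])
  have hev : ∀ δ : KM m M, KM.map m e (KM.map m g δ) = ev (base W K) A (KM.map m e δ) := by
    intro δ
    rw [ev_of_gen hgen, KM.map_map, hs', ← KM.map_map]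
  have key := one_var_char hW hs hm (hu.map e) hodd
  rw [← hA] at key
  apply hinj
  rw [map_add, map_sub, map_zsmul, map_zsmul, map_zero, hev, hev]
  exact key

end frob

section pair

variable {K M : Subfield Λ} {W : WeierstrassCurve K} [hE : EllW W] {x₁ y₁ x₂ y₂ : Λ}

omit hE in
/-- The data attached to two independent points. -/
lemma exists_pair [EllW W] (hx₁ : x₁ ∉ cl (K : Set Λ))
    (hx₂ : x₂ ∉ cl (insert x₁ (K : Set Λ))) (h₁ : OnW W x₁ y₁) (h₂ : OnW W x₂ y₂) :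
    ∃ P Q : Pt W Λ, ptX P = x₁ ∧ ptY P = y₁ ∧ ptX Q = x₂ ∧ ptY Q = y₂ ∧
      Ind (Algebra.ofId K Λ) P Q := by
  refine ⟨.some x₁ y₁ (nonsingular_of (W := W) h₁), .some x₂ y₂ (nonsingular_of (W := W) h₂),
    rfl, rfl, rfl, rfl, ?_, ?_⟩
  · change ¬ (x₁ ∈ cl (Set.range (Algebra.ofId K Λ)))
    rw [range_ofId]; exact hx₁
  · change ¬ (x₂ ∈ cl (insert x₁ (Set.range (Algebra.ofId K Λ))))
    rw [range_ofId]; exact hx₂

/-- Oddness of the transported class. -/
lemma pair_odd {P Q : Pt W Λ} (hPQ : Ind (Algebra.ofId K Λ) P Q)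
    (fM : F2 W K →+* M) (e : M →+* F2 W K) (hef : e.comp fM = RingHom.id _)
    (hfe : fM.comp e = RingHom.id _)
    (hf : ∀ z, (fM z : Λ) = lift2 (Algebra.ofId K Λ) P Q hPQ z)
    (hP1 : ptX P = x₁) (hP2 : ptY P = y₁) (hQ1 : ptX Q = x₂) (hQ2 : ptY Q = y₂)
    (hM' : M = adj K {ptX P, ptY P, ptX Q, ptY Q}) {γ : KM m M}
    (ho₁ : OddAt K y₁ {x₁, x₂, y₂} γ) (ho₂ : OddAt K y₂ {x₁, y₁, x₂} γ) :
    Odd1 (KM.map m e γ) ∧ OddCl (KM.map m e γ) := by
  have hfPx : (fM (ptX (P2 W K)) : Λ) = x₁ := by rw [hf, ← ptX_map, lift2_P2, hP1]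
  have hfPy : (fM (ptY (P2 W K)) : Λ) = y₁ := by rw [hf, ← ptY_map, lift2_P2, hP2]
  have hfQx : (fM (ptX (Q2 W K)) : Λ) = x₂ := by rw [hf, ← ptX_map, lift2_Q2, hQ1]
  have hfQy : (fM (ptY (Q2 W K)) : Λ) = y₂ := by rw [hf, ← ptY_map, lift2_Q2, hQ2]
  have hind := ind_P2_Q2 W K
  refine ⟨?_, ?_⟩
  · unfold Odd1
    obtain ⟨g', g'1, g'2, g'3, g'4, g'5⟩ := pair_exists hPQ fM e hef hfe hf hind.neg_left
    have hs := pair_spec hPQ fM e hef hfe hf hM' hind.neg_left g' g'1 g'2 g'3 g'4 g'5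
    have hg' : KM.map m g' γ = -γ := by
      apply ho₁ g' g'1
      · rintro z (hz | hz | hz)
        · apply Subtype.ext
          rw [g'2 z (hz.trans hP1.symm), ptX_neg, hfPx, hz]
        · apply Subtype.ext
          rw [g'4 z (hz.trans hQ1.symm), hfQx, hz]
        · apply Subtype.ext
          rw [Set.mem_singleton_iff] at hz
          rw [g'5 z (hz.trans hQ2.symm), hfQy, hz]
      · intro z hz
        apply Subtype.ext
        rw [g'3 z (hz.trans hP2.symm), ptY_neg, map_neg]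
        change -(fM (ptY (P2 W K)) : Λ) = -(z : Λ)
        rw [hfPy, hz]
    rw [ev2_of_ind hind.neg_left, KM.map_map, ← hs, ← KM.map_map, hg', map_neg]
  · unfold OddCl
    obtain ⟨g', g'1, g'2, g'3, g'4, g'5⟩ := pair_exists hPQ fM e hef hfe hf hind.neg_right
    have hs := pair_spec hPQ fM e hef hfe hf hM' hind.neg_right g' g'1 g'2 g'3 g'4 g'5
    have hg' : KM.map m g' γ = -γ := by
      apply ho₂ g' g'1
      · rintro z (hz | hz | hz)
        · apply Subtype.ext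
          rw [g'2 z (hz.trans hP1.symm), hfPx, hz]
        · apply Subtype.ext
          rw [g'3 z (hz.trans hP2.symm), hfPy, hz]
        · apply Subtype.ext
          rw [Set.mem_singleton_iff] at hz
          rw [g'4 z (hz.trans hQ1.symm), ptX_neg, hfQx, hz]
      · intro z hz
        apply Subtype.ext
        rw [g'5 z (hz.trans hQ2.symm), ptY_neg, map_neg]
        change -(fM (ptY (Q2 W K)) : Λ) = -(z : Λ)
        rw [hfQy, hz]
    rw [← ev2_neg_Q2, ev2_of_ind hind.neg_right, KM.map_map, ← hs, ← KM.map_map, hg',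
      map_neg]

variable (hm : Odd m) (hx₁ : x₁ ∉ cl (K : Set Λ))
    (hx₂ : x₂ ∉ cl (insert x₁ (K : Set Λ))) (h₁ : OnW W x₁ y₁) (h₂ : OnW W x₂ y₂)
    (hM : M = adj K {x₁, y₁, x₂, y₂})

include hm hx₁ hx₂ h₁ h₂ hM

/-- Frobenius in the first variable and Frobenius in the second variable. -/
theorem frob_pair {p : ℕ} [hp : Fact p.Prime] [hpK : CharP K p] (s : ℕ)
    (hW : ∀ x ∈ ({W.a₁, W.a₂, W.a₃, W.a₄, W.a₆} : Set K), x ^ p ^ s = x) (g g' : M →+* M)
    (g1 : ∀ z : M, (z : Λ) ∈ K → g z = z) (g2 : ∀ z : M, (z : Λ) = x₁ → g z = z ^ p ^ s)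
    (g3 : ∀ z : M, (z : Λ) = y₁ → g z = z ^ p ^ s) (g4 : ∀ z : M, (z : Λ) = x₂ → g z = z)
    (g5 : ∀ z : M, (z : Λ) = y₂ → g z = z) (g'1 : ∀ z : M, (z : Λ) ∈ K → g' z = z)
    (g'2 : ∀ z : M, (z : Λ) = x₁ → g' z = z) (g'3 : ∀ z : M, (z : Λ) = y₁ → g' z = z)
    (g'4 : ∀ z : M, (z : Λ) = x₂ → g' z = z ^ p ^ s)
    (g'5 : ∀ z : M, (z : Λ) = y₂ → g' z = z ^ p ^ s) {γ : KM m M} (hu : Unr γ)
    (ho₁ : OddAt K y₁ {x₁, x₂, y₂} γ) (ho₂ : OddAt K y₂ {x₁, y₁, x₂} γ) :
    KM.map m g γ = KM.map m g' γ := by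
  obtain ⟨P, Q, hP1, hP2, hQ1, hQ2, hPQ⟩ := exists_pair hx₁ hx₂ h₁ h₂
  have hM' : M = adj K {ptX P, ptY P, ptX Q, ptY Q} := by rw [hP1, hP2, hQ1, hQ2]; exact hM
  obtain ⟨fM, e, hef, hfe, hf⟩ := exists_pair_iso hPQ hM'
  have hfPx : (fM (ptX (P2 W K)) : Λ) = x₁ := by rw [hf, ← ptX_map, lift2_P2, hP1]
  have hfPy : (fM (ptY (P2 W K)) : Λ) = y₁ := by rw [hf, ← ptY_map, lift2_P2, hP2]
  have hfQx : (fM (ptX (Q2 W K)) : Λ) = x₂ := by rw [hf, ← ptX_map, lift2_Q2, hQ1]
  have hfQy : (fM (ptY (Q2 W K)) : Λ) = y₂ := by rw [hf, ← ptY_map, lift2_Q2, hQ2]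
  have hind := ind_P2_Q2 W K
  obtain ⟨φ, hφ⟩ : ∃ φ, φ = frobEnd.{u} W p s hW := ⟨_, rfl⟩
  have hφX : ∀ R : Pt W (F2 W K), ptX (φ.toFun _ R) = ptX R ^ p ^ s := by
    intro R
    rw [hφ, fr_ptX]
  have hφY : ∀ R : Pt W (F2 W K), ptY (φ.toFun _ R) = ptY R ^ p ^ s := by
    intro R
    rw [hφ, fr_ptY]
  obtain ⟨hα1, hα2⟩ := pair_odd hPQ fM e hef hfe hf hP1 hP2 hQ1 hQ2 hM' ho₁ ho₂
  have hαu : Unr (KM.map m e γ) := hu.map _
  have he_inj : Function.Injective (KM.map m e) := by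
    intro a b hab
    have := congrArg (KM.map m fM) hab
    rwa [KM.map_map, KM.map_map, hfe, KM.map_id] at this
  have hA := φ.ind_left hind
  have hB := φ.ind_right hind
  have hs := pair_spec hPQ fM e hef hfe hf hM' hA g g1
    (fun z hz => by
      rw [g2 z (hz.trans hP1), hφX, map_pow]
      change (z : Λ) ^ p ^ s = (fM (ptX (P2 W K)) : Λ) ^ p ^ s
      rw [hfPx, hz, hP1])
    (fun z hz => by
      rw [g3 z (hz.trans hP2), hφY, map_pow]
      change (z : Λ) ^ p ^ s = (fM (ptY (P2 W K)) : Λ) ^ p ^ s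
      rw [hfPy, hz, hP2])
    (fun z hz => by rw [g4 z (hz.trans hQ1), hfQx, hz, hQ1])
    (fun z hz => by rw [g5 z (hz.trans hQ2), hfQy, hz, hQ2])
  have hs' := pair_spec hPQ fM e hef hfe hf hM' hB g' g'1
    (fun z hz => by rw [g'2 z (hz.trans hP1), hfPx, hz, hP1])
    (fun z hz => by rw [g'3 z (hz.trans hP2), hfPy, hz, hP2])
    (fun z hz => by
      rw [g'4 z (hz.trans hQ1), hφX, map_pow]
      change (z : Λ) ^ p ^ s = (fM (ptX (Q2 W K)) : Λ) ^ p ^ s
      rw [hfQx, hz, hQ1])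
    (fun z hz => by
      rw [g'5 z (hz.trans hQ2), hφY, map_pow]
      change (z : Λ) ^ p ^ s = (fM (ptY (Q2 W K)) : Λ) ^ p ^ s
      rw [hfQy, hz, hQ2])
  apply he_inj
  rw [KM.map_map, KM.map_map, hs, hs', ← KM.map_map, ← KM.map_map]
  have h3 := bal hm φ hαu hα1 hα2 hind
  rw [ev2_of_ind hA, ev2_of_ind hB] at h3
  exact h3

end pair

end UnrH3.Ell
end

section

/-!
# The trace of the Frobenius endomorphism and the number of points
-/

namespace UnrH3.Ell

universe u v w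

open Polynomial WeierstrassCurve
open scoped Classical

section count

variable {κ : Type w} [Field κ] [Fintype κ] (h2 : (2 : κ) ≠ 0)

include h2 in
lemma card_sq_eq (r : κ) : (Finset.univ.filter fun v : κ => v ^ 2 = r).card =
    if r = 0 then 1 else if IsSquare r then 2 else 0 := by
  by_cases hr : r = 0
  · subst hr
    rw [if_pos rfl]
    have : (Finset.univ.filter fun v : κ => v ^ 2 = 0) = {0} := by
      ext v; simp
    rw [this, Finset.card_singleton]
  · rw [if_neg hr]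
    by_cases hs : IsSquare r
    · rw [if_pos hs]
      obtain ⟨y, hy⟩ := hs
      have hy0 : y ≠ 0 := by rintro rfl; simp at hy; exact hr hy
      have hne : y ≠ -y := by
        intro h
        have h3 : 2 * y = 0 := by linear_combination h
        exact mul_ne_zero h2 hy0 h3
      have : (Finset.univ.filter fun v : κ => v ^ 2 = r) = {y, -y} := by
        ext v
        simp only [Finset.mem_filter, Finset.mem_univ, true_and, Finset.mem_insert,
          Finset.mem_singleton]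
        rw [hy, ← sq]
        exact sq_eq_sq_iff_eq_or_eq_neg
      rw [this, Finset.card_pair hne]
    · rw [if_neg hs]
      rw [Finset.card_eq_zero, Finset.filter_eq_empty_iff]
      intro v _ hv
      exact hs ⟨v, by rw [← hv, sq]⟩

include h2 in
lemma card_points (g : κ → κ) : (Finset.univ.filter fun uv : κ × κ => uv.2 ^ 2 = g uv.1).card =
    (Finset.univ.filter fun u : κ => g u = 0).card +
      2 * (Finset.univ.filter fun u : κ => g u ≠ 0 ∧ IsSquare (g u)).card := by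
  have h1 : (Finset.univ.filter fun uv : κ × κ => uv.2 ^ 2 = g uv.1).card =
      ∑ u : κ, (Finset.univ.filter fun v : κ => v ^ 2 = g u).card := by
    rw [Finset.card_filter, Fintype.sum_prod_type]
    refine Finset.sum_congr rfl fun u _ => ?_
    rw [Finset.card_filter]
  rw [h1]
  simp only [card_sq_eq h2]
  rw [Finset.card_filter, Finset.card_filter, Finset.mul_sum, ← Finset.sum_add_distrib]
  refine Finset.sum_congr rfl fun u _ => ?_
  by_cases hu : g u = 0
  · simp [hu]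
  · by_cases hs : IsSquare (g u)
    · simp [hu, hs]
    · simp [hu, hs]

variable {K : Type u} [Field K] (j : κ →+* K)

lemma prod_X_sub (q : ℕ) (hq : Fintype.card κ = q) :
    (X ^ q - X : K[X]) = ∏ u : κ, (X - C (j u)) := by
  have h1 : (X ^ q - X : κ[X]) = ∏ u : κ, (X - C u) := by
    have hmon : (X ^ q - X : κ[X]).Monic := by
      apply monic_X_pow_sub
      rw [degree_X, ← hq]
      exact_mod_cast Fintype.one_lt_card
    have h2 := prod_multiset_X_sub_C_of_monic_of_roots_card_eq hmon (by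
      rw [← hq, FiniteField.roots_X_pow_card_sub_X,
        FiniteField.X_pow_card_sub_X_natDegree_eq κ Fintype.one_lt_card]
      rfl)
    rw [← hq, FiniteField.roots_X_pow_card_sub_X, hq] at h2
    rw [← h2]
    rfl
  have h3 := congrArg (Polynomial.map j) h1
  rw [Polynomial.map_sub, Polynomial.map_pow, map_X, Polynomial.map_prod] at h3
  rw [h3]
  refine Finset.prod_congr rfl fun u _ => ?_
  rw [Polynomial.map_sub, map_X, map_C]

lemma natDegree_prod_X_sub (T : Finset κ) : (∏ u ∈ T, (X - C (j u))).natDegree = T.card := by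
  rw [natDegree_prod_of_monic _ _ fun u _ => monic_X_sub_C _]
  simp

lemma prod_dvd_of_roots {T : Finset κ} {P : K[X]} (h : ∀ u ∈ T, P.eval (j u) = 0) :
    (∏ u ∈ T, (X - C (j u))) ∣ P := by
  apply Finset.prod_dvd_of_coprime
  · intro u _ v _ huv
    exact isCoprime_X_sub_C_of_isUnit_sub
      (sub_ne_zero.mpr (fun h => huv (j.injective h))).isUnit
  · intro u hu
    rw [dvd_iff_isRoot]
    exact h u hu

include h2 in
/-- Manin's computation of the degree. -/
theorem count_poly {a b c : κ} (hd : a ^ 2 * b ^ 2 - 4 * b ^ 3 - 4 * a ^ 3 * c +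
      18 * a * b * c - 27 * c ^ 2 ≠ 0) {q e : ℕ} (hq : Fintype.card κ = q) (he : q = 2 * e + 1)
    {f : K[X]} (hf : f = X ^ 3 + C (j a) * X ^ 2 + C (j b) * X + C (j c))
    (hfq : f ^ q = X ^ (3 * q) + C (j a) * X ^ (2 * q) + C (j b) * X ^ q + C (j c)) :
    ∃ n' D' G : K[X], IsCoprime n' D' ∧ D' ≠ 0 ∧ G ≠ 0 ∧
      f * (f ^ e + 1) ^ 2 - (X ^ q - X) ^ 2 * (X ^ q + X + C (j a)) = G * n' ∧
      (X ^ q - X) ^ 2 = G * D' ∧ max n'.natDegree D'.natDegree =
        (Finset.univ.filter fun uv : κ × κ =>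
          uv.2 ^ 2 = uv.1 ^ 3 + a * uv.1 ^ 2 + b * uv.1 + c).card + 1 := by
  have hq1 : 1 < q := by rw [← hq]; exact Fintype.one_lt_card
  have he0 : 1 ≤ e := by omega
  have hrc : ringChar κ ≠ 2 := by
    intro h
    apply h2
    have h3 : ((2 : ℕ) : κ) = 0 := by rw [ringChar.spec, h]
    exact_mod_cast h3
  have h2K : (2 : K) ≠ 0 := by
    intro h
    apply h2
    apply j.injective
    rw [map_ofNat, map_zero]; exact h
  obtain ⟨g, hg⟩ : ∃ g : κ → κ, ∀ u, g u = u ^ 3 + a * u ^ 2 + b * u + c := ⟨_, fun _ => rfl⟩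
  have hfe : ∀ u, f.eval (j u) = j (g u) := by
    intro u
    rw [hf, hg]
    simp only [eval_add, eval_mul, eval_pow, eval_C, eval_X, map_add, map_mul, map_pow]
  have hce : Fintype.card κ / 2 = e := by rw [hq, he]; omega
  obtain ⟨Z, hZ⟩ : ∃ Z : Finset κ, Z = Finset.univ.filter fun u => g u = 0 := ⟨_, rfl⟩
  obtain ⟨R, hR⟩ : ∃ R : Finset κ, R = Finset.univ.filter fun u => g u ≠ 0 ∧ IsSquare (g u) :=
    ⟨_, rfl⟩
  obtain ⟨N, hN⟩ : ∃ N : Finset κ, N = Finset.univ.filter fun u => ¬ IsSquare (g u) := ⟨_, rfl⟩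
  have hZR : Disjoint Z R := by
    rw [hZ, hR, Finset.disjoint_filter]
    intro u _ h1 h3
    exact h3.1 h1
  have hZN : Disjoint (Z ∪ R) N := by
    rw [Finset.disjoint_left]
    intro u h1 h3
    rw [hN, Finset.mem_filter] at h3
    rw [Finset.mem_union, hZ, hR, Finset.mem_filter, Finset.mem_filter] at h1
    rcases h1 with h1 | h1
    · exact h3.2 ⟨0, by rw [h1.2]; simp⟩
    · exact h3.2 h1.2.2
  have hall : Z ∪ R ∪ N = Finset.univ := by
    ext u
    simp only [Finset.mem_union, hZ, hR, hN, Finset.mem_filter, Finset.mem_univ, true_and,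
      iff_true]
    by_cases h1 : g u = 0
    · left; left; exact h1
    · by_cases h3 : IsSquare (g u)
      · left; right; exact ⟨h1, h3⟩
      · right; exact h3
  have hcard : Z.card + R.card + N.card = q := by
    rw [← hq, ← Finset.card_univ, ← hall, Finset.card_union_of_disjoint hZN,
      Finset.card_union_of_disjoint hZR]
  obtain ⟨πZ, hπZ⟩ : ∃ πZ : K[X], πZ = ∏ u ∈ Z, (X - C (j u)) := ⟨_, rfl⟩
  obtain ⟨πR, hπR⟩ : ∃ πR : K[X], πR = ∏ u ∈ R, (X - C (j u)) := ⟨_, rfl⟩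
  obtain ⟨πN, hπN⟩ : ∃ πN : K[X], πN = ∏ u ∈ N, (X - C (j u)) := ⟨_, rfl⟩
  have hprod : (X ^ q - X : K[X]) = πZ * πR * πN := by
    rw [prod_X_sub j q hq, ← hall, Finset.prod_union hZN, Finset.prod_union hZR, hπZ, hπR, hπN]
  have mZ : πZ.Monic := by rw [hπZ]; exact monic_prod_of_monic _ _ fun u _ => monic_X_sub_C _
  have mR : πR.Monic := by rw [hπR]; exact monic_prod_of_monic _ _ fun u _ => monic_X_sub_C _
  have mN : πN.Monic := by rw [hπN]; exact monic_prod_of_monic _ _ fun u _ => monic_X_sub_C _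
  have dZ : πZ.natDegree = Z.card := by rw [hπZ]; exact natDegree_prod_X_sub j Z
  have dR : πR.natDegree = R.card := by rw [hπR]; exact natDegree_prod_X_sub j R
  have dN : πN.natDegree = N.card := by rw [hπN]; exact natDegree_prod_X_sub j N
  have hZf : πZ ∣ f := by
    rw [hπZ]
    apply prod_dvd_of_roots
    intro u hu
    rw [hZ, Finset.mem_filter] at hu
    rw [hfe, hu.2, map_zero]
  have hNf : πN ∣ f ^ e + 1 := by
    rw [hπN]
    apply prod_dvd_of_roots
    intro u hu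
    rw [hN, Finset.mem_filter] at hu
    have hu0 : g u ≠ 0 := by
      intro h
      exact hu.2 ⟨0, by rw [h]; simp⟩
    have h3 := FiniteField.pow_dichotomy hrc hu0
    rw [hce] at h3
    have h4 : g u ^ e = -1 := by
      rcases h3 with h3 | h3
      · exfalso
        apply hu.2
        rw [FiniteField.isSquare_iff hrc hu0, hce]
        exact h3
      · exact h3
    rw [eval_add, eval_pow, hfe, ← map_pow, h4, eval_one, map_neg, map_one, neg_add_cancel]
  obtain ⟨f₁, hf₁⟩ := hZf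
  obtain ⟨f₂, hf₂⟩ := hNf
  -- the numerator
  obtain ⟨n, hn⟩ : ∃ n, n = f * (f ^ e + 1) ^ 2 - (X ^ q - X) ^ 2 * (X ^ q + X + C (j a)) :=
    ⟨_, rfl⟩
  obtain ⟨G, hG⟩ : ∃ G, G = πZ * πN ^ 2 := ⟨_, rfl⟩
  have hG0 : G.Monic := by rw [hG]; exact mZ.mul (mN.pow 2)
  obtain ⟨n', hn'⟩ : ∃ n', n' = f₁ * f₂ ^ 2 - πZ * πR ^ 2 * (X ^ q + X + C (j a)) := ⟨_, rfl⟩
  have hnG : n = G * n' := by
    rw [hn, hG, hn', hprod, hf₂]
    nth_rewrite 1 [hf₁]
    ring
  have hDG : (X ^ q - X : K[X]) ^ 2 = G * (πZ * πR ^ 2) := by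
    rw [hprod, hG]; ring
  -- evaluation
  have hzero : ∀ u, (X ^ q - X : K[X]).eval (j u) = 0 := by
    intro u
    rw [prod_X_sub j q hq, eval_prod]
    apply Finset.prod_eq_zero (Finset.mem_univ u)
    simp
  have hneval : ∀ u, n.eval (j u) = j (g u) * (j (g u) ^ e + 1) ^ 2 := by
    intro u
    have h3 : ((X ^ q - X : K[X]) ^ 2).eval (j u) = 0 := by
      rw [eval_pow, hzero, zero_pow (by norm_num)]
    rw [hn, eval_sub, eval_mul, eval_mul, h3, eval_pow, eval_add, eval_pow, hfe, eval_one]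
    ring
  have hcopZ : ∀ u ∈ Z, n'.eval (j u) ≠ 0 := by
    intro u hu h0
    have hu' : g u = 0 := by rw [hZ, Finset.mem_filter] at hu; exact hu.2
    have h3 : (X - C (j u)) ^ 2 ∣ n := by
      rw [hnG, sq]
      apply mul_dvd_mul
      · rw [hG, hπZ]
        exact Dvd.dvd.mul_right (Finset.dvd_prod_of_mem _ hu) _
      · rw [dvd_iff_isRoot]; exact h0
    have h4 : (X - C (j u)) ^ 2 ∣ f * (f ^ e + 1) ^ 2 := by
      have h5 : f * (f ^ e + 1) ^ 2 = n + (X ^ q - X) ^ 2 * (X ^ q + X + C (j a)) := by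
        rw [hn]; ring
      rw [h5]
      apply dvd_add h3
      apply Dvd.dvd.mul_right
      apply pow_dvd_pow_of_dvd
      rw [dvd_iff_isRoot]; exact hzero u
    obtain ⟨r, hr⟩ := h4
    have h5 := congrArg (fun P => (derivative P).eval (j u)) hr
    have hfu : f.eval (j u) = 0 := by rw [hfe, hu', map_zero]
    simp only [derivative_mul, derivative_pow, derivative_sub, derivative_X, derivative_C,
      eval_add, eval_mul, eval_pow, eval_sub, eval_X, eval_C, sub_self, hfu,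
      eval_one] at h5
    rw [zero_pow (by omega : e ≠ 0)] at h5
    have h6 : (derivative f).eval (j u) = 0 := by
      simpa using h5
    rw [hf] at h6
    simp only [derivative_add, derivative_mul, derivative_pow, derivative_X, derivative_C,
      eval_add, eval_mul, eval_pow, eval_X, eval_C, eval_zero, eval_one] at h6
    refine disc_key hd (x := u) (by rw [← hg]; exact hu') ?_
    apply j.injective
    rw [map_zero, ← h6]
    simp only [map_add, map_mul, map_pow, map_ofNat, zero_mul, zero_add, Nat.cast_ofNat]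
    ring
  have hcopR : ∀ u ∈ R, n'.eval (j u) ≠ 0 := by
    intro u hu h0
    rw [hR, Finset.mem_filter] at hu
    have h3 : g u ^ e = 1 := by
      have := (FiniteField.isSquare_iff hrc hu.2.1).mp hu.2.2
      rwa [hce] at this
    have h4 := hneval u
    rw [hnG, eval_mul, h0, mul_zero, ← map_pow, h3, map_one] at h4
    have h5 : j (g u) * (2 * 2) = 0 := by rw [h4]; ring
    rcases mul_eq_zero.mp h5 with h6 | h6
    · exact hu.2.1 ((map_eq_zero j).mp h6)
    · exact mul_ne_zero h2K h2K h6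
  have hcop : IsCoprime n' (πZ * πR ^ 2) := by
    have key : ∀ T : Finset κ, (∀ u ∈ T, n'.eval (j u) ≠ 0) →
        IsCoprime n' (∏ u ∈ T, (X - C (j u))) := by
      intro T hT
      apply IsCoprime.prod_right
      intro u hu
      have h3 : ¬ (X - C (j u)) ∣ n' := by
        rw [dvd_iff_isRoot]; exact hT u hu
      exact ((irreducible_X_sub_C (j u)).coprime_iff_not_dvd.mpr h3).symm
    apply IsCoprime.mul_right
    · rw [hπZ]; exact key Z hcopZ
    · apply IsCoprime.pow_right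
      rw [hπR]; exact key R hcopR
  refine ⟨n', πZ * πR ^ 2, G, hcop, (mZ.mul (mR.pow 2)).ne_zero, hG0.ne_zero, ?_, hDG, ?_⟩
  · rw [← hn, hnG]
  -- degrees
  have hdeg : n.natDegree = 2 * q + 1 := by
    have h3 : f * (f ^ e + 1) ^ 2 = f ^ q + 2 * f ^ (e + 1) + f := by
      rw [he]; ring
    have h4 : n = X ^ (2 * q + 1) + (X ^ (q + 2) + C (2 * j a) * X ^ (q + 1) +
        C (j b) * X ^ q + C (j b) * X + C (2 * j c) + C 2 * f ^ (e + 1)) := by
      have hC2 : (C 2 : K[X]) = 2 := rfl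
      rw [hn, h3, hfq, C_mul, C_mul, hC2]
      nth_rewrite 2 [hf]
      ring
    have h5 : (X ^ (q + 2) + C (2 * j a) * X ^ (q + 1) +
        C (j b) * X ^ q + C (j b) * X + C (2 * j c) + C 2 * f ^ (e + 1) : K[X]).natDegree ≤
          2 * q := by
      have hfdeg : f.natDegree ≤ 3 := by
        rw [hf]; compute_degree
      refine (natDegree_add_le _ _).trans (max_le ?_ ?_)
      · refine (natDegree_add_le _ _).trans (max_le ?_ ?_)
        · refine (natDegree_add_le _ _).trans (max_le ?_ ?_)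
          · refine (natDegree_add_le _ _).trans (max_le ?_ ?_)
            · refine (natDegree_add_le _ _).trans (max_le ?_ ?_)
              · rw [natDegree_X_pow]; omega
              · exact (natDegree_C_mul_X_pow_le _ _).trans (by omega)
            · exact (natDegree_C_mul_X_pow_le _ _).trans (by omega)
          · exact (natDegree_C_mul_le _ _).trans (by rw [natDegree_X]; omega)
        · rw [natDegree_C]; omega
      · refine (natDegree_C_mul_le _ _).trans ((natDegree_pow_le).trans ?_)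
        calc (e + 1) * f.natDegree ≤ (e + 1) * 3 := Nat.mul_le_mul_left _ hfdeg
          _ ≤ 2 * q := by omega
    rw [h4]
    rw [natDegree_add_eq_left_of_natDegree_lt]
    · rw [natDegree_X_pow]
    · rw [natDegree_X_pow]; omega
  have hn'0 : n' ≠ 0 := by
    rintro rfl
    rw [hnG, mul_zero, natDegree_zero] at hdeg
    omega
  have hGdeg : G.natDegree = Z.card + 2 * N.card := by
    rw [hG, mZ.natDegree_mul (mN.pow 2), mN.natDegree_pow, dZ, dN]
  have e1 : n'.natDegree = 2 * q + 1 - (Z.card + 2 * N.card) := by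
    rw [hnG, natDegree_mul hG0.ne_zero hn'0, hGdeg] at hdeg
    omega
  have e2 : (πZ * πR ^ 2).natDegree = Z.card + 2 * R.card := by
    rw [mZ.natDegree_mul (mR.pow 2), mR.natDegree_pow, dZ, dR]
  have e3 : (Finset.univ.filter fun uv : κ × κ =>
      uv.2 ^ 2 = uv.1 ^ 3 + a * uv.1 ^ 2 + b * uv.1 + c).card = Z.card + 2 * R.card := by
    have h3 := card_points h2 g
    rw [← hZ, ← hR] at h3
    rw [← h3]
    congr 1
    ext uv
    simp only [Finset.mem_filter, Finset.mem_univ, true_and, hg]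
  rw [e1, e2, e3]
  omega

end count

section trace

variable {S : Type v} [Field S] {W : WeierstrassCurve S} [hE : EllW W] {p : ℕ}
  [hp : Fact p.Prime] [hS : CharP S p] {s : ℕ}
  (hW : ∀ x ∈ ({W.a₁, W.a₂, W.a₃, W.a₄, W.a₆} : Set S), x ^ p ^ s = x)
  {K : Type u} [Field K] [Algebra S K]

/-- The trace of the Frobenius endomorphism is given by the number of points. -/
theorem tr_eq (hs : 0 < s) {κ : Type w} [Field κ] [Fintype κ] (hcard : Fintype.card κ = p ^ s)
    (j : κ →+* K) {a b c : κ} (ha : j a = (W⁄K).a₂) (hb : j b = (W⁄K).a₄)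
    (hc : j c = (W⁄K).a₆) : tr hW K = (p : ℤ) ^ s - (Finset.univ.filter fun uv : κ × κ =>
      uv.2 ^ 2 = uv.1 ^ 3 + a * uv.1 ^ 2 + b * uv.1 + c).card := by
  have h2K := two_alg W K
  have h2 : (2 : κ) ≠ 0 := by
    intro h
    apply h2K
    rw [← map_ofNat j 2, h, map_zero]
  have hpK : CharP K p := charP_of_alg (S := S) p K
  have hd : a ^ 2 * b ^ 2 - 4 * b ^ 3 - 4 * a ^ 3 * c + 18 * a * b * c - 27 * c ^ 2 ≠ 0 := by
    intro h
    apply disc_alg W K
    rw [← ha, ← hb, ← hc]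
    have h3 := congrArg j h
    rw [map_zero] at h3
    rw [← h3]
    simp only [map_add, map_sub, map_mul, map_pow, map_ofNat]
  have hp2 : p ≠ 2 := by
    rintro rfl
    apply h2K
    exact_mod_cast CharP.cast_eq_zero K 2
  have hodd : Odd (p ^ s) := (hp.out.odd_of_ne_two hp2).pow
  obtain ⟨e, he⟩ := hodd
  have hq1 : 1 < p ^ s := Nat.one_lt_pow hs.ne' hp.out.one_lt
  have hWK : ∀ x ∈ ({W.a₁, W.a₂, W.a₃, W.a₄, W.a₆} : Set S),
      (algebraMap S K x) ^ p ^ s = algebraMap S K x := by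
    intro x hx
    rw [← map_pow, hW x hx]
  have hfq : fP W K ^ (p ^ s) = X ^ (3 * p ^ s) + C (j a) * X ^ (2 * p ^ s) +
      C (j b) * X ^ (p ^ s) + C (j c) := by
    have hpX : CharP K[X] p := inferInstance
    unfold fP
    rw [add_pow_char_pow, add_pow_char_pow, add_pow_char_pow, mul_pow, mul_pow, ← C_pow, ← C_pow,
      ← C_pow, ha, hb, hc]
    have e2 : (W⁄K).a₂ ^ p ^ s = (W⁄K).a₂ := hWK _ (by simp)
    have e4 : (W⁄K).a₄ ^ p ^ s = (W⁄K).a₄ := hWK _ (by simp)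
    have e6 : (W⁄K).a₆ ^ p ^ s = (W⁄K).a₆ := hWK _ (by simp)
    rw [e2, e4, e6, ← pow_mul, ← pow_mul]
  obtain ⟨n', D', G, hcop, hD0, hG0, hn, hD, hmax⟩ := count_poly h2 j hd hcard he
    (f := fP W K) (by unfold fP; rw [ha, hb, hc]) hfq
  obtain ⟨F, hF⟩ : ∃ F, F = (frobEnd W p s hW).toFun _ (gpt W K) := ⟨_, rfl⟩
  -- the first coordinate
  have hXne : gx W K ^ p ^ s - gx W K ≠ 0 := by
    intro h
    have h3 : polHom W K (X ^ p ^ s - X) = 0 := by
      rw [map_sub, map_pow, polHom_X]; exact h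
    rw [map_eq_zero_iff _ polHom_injective] at h3
    exact FiniteField.X_pow_card_sub_X_ne_zero K hq1 h3
  have hFx : ptX F = gx W K ^ p ^ s := by rw [hF, fr_ptX]; rfl
  have hFy : ptY F = gy W K ^ p ^ s := by rw [hF, fr_ptY]; rfl
  have hF0 : F ≠ 0 := by rw [hF]; exact fr_ne_zero hW (Affine.Point.some_ne_zero _)
  have hx : ptX (F - gpt W K) =
      ((gy W K ^ p ^ s + gy W K) / (gx W K ^ p ^ s - gx W K)) ^ 2 - (W⁄(FF W K)).a₂ -
        gx W K ^ p ^ s - gx W K := by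
    rcases F with _ | ⟨x, y, h⟩
    · exact absurd rfl hF0
    rw [ptX_some] at hFx
    rw [ptY_some] at hFy
    subst hFx hFy
    have h5 : (W⁄(FF W K)).toAffine.Nonsingular (gx W K) (-gy W K) := by
      have := (Affine.nonsingular_neg (gx W K) (gy W K)).mpr (gx_gy_nonsingular W K)
      rwa [negY] at this
    have h6 : -(gpt W K) = .some (gx W K) (-gy W K) h5 := by
      apply pt_ext (neg_ne_zero.mpr (Affine.Point.some_ne_zero _)) (Affine.Point.some_ne_zero _)
      · rw [ptX_neg]; rfl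
      · rw [ptY_neg]; rfl
    rw [sub_eq_add_neg, h6, (add_ne h h5 (sub_ne_zero.mp hXne)).2, sub_neg_eq_add]
  obtain ⟨r, hr⟩ : ∃ r : RatFunc K, r = algebraMap K[X] (RatFunc K) n' /
    algebraMap K[X] (RatFunc K) D' := ⟨_, rfl⟩
  have hD' : polHom W K D' ≠ 0 := fun h => hD0 (polHom_injective (by rw [h, map_zero]))
  have hG' : polHom W K G ≠ 0 := fun h => hG0 (polHom_injective (by rw [h, map_zero]))
  have hrx : ratHom W K r = ptX (F - gpt W K) := by
    rw [hr, map_div₀]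
    change polHom W K n' / polHom W K D' = _
    rw [hx, div_eq_iff hD']
    apply mul_left_cancel₀ hG'
    have e1 := congrArg (polHom W K) hn
    have e2 := congrArg (polHom W K) hD
    rw [map_mul] at e1 e2
    rw [← e1]
    have e3 : polHom W K G * ((((gy W K ^ p ^ s + gy W K) / (gx W K ^ p ^ s - gx W K)) ^ 2 -
        (W⁄(FF W K)).a₂ - gx W K ^ p ^ s - gx W K) * polHom W K D') =
        (((gy W K ^ p ^ s + gy W K) / (gx W K ^ p ^ s - gx W K)) ^ 2 -
        (W⁄(FF W K)).a₂ - gx W K ^ p ^ s - gx W K) * (polHom W K G * polHom W K D') := by ring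
    rw [e3, ← e2]
    simp only [map_sub, map_mul, map_add, map_pow, map_one, polHom_fP, polHom_X, polHom_C, ha,
      base_a₂]
    have e4 : (gy W K ^ p ^ s + gy W K) ^ 2 = gy W K ^ 2 * ((gy W K ^ 2) ^ e + 1) ^ 2 := by
      rw [he]; ring
    rw [← e4, div_pow]
    generalize gx W K ^ p ^ s - gx W K = δ at hXne
    field_simp
    ring
  have hht : ht (F - gpt W K) = (Finset.univ.filter fun uv : κ × κ =>
      uv.2 ^ 2 = uv.1 ^ 3 + a * uv.1 ^ 2 + b * uv.1 + c).card + 1 := by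
    rw [ht_eq hrx, hr, rdeg_div hcop hD0, hmax]
  unfold tr
  rw [← hF, hht]
  push_cast
  ring

end trace

end UnrH3.Ell
end

section

/-!
# Moving endomorphisms from one variable to another
-/

namespace UnrH3

universe u v w

open Polynomial WeierstrassCurve
open scoped Classical

variable {m : ℕ} {Λ : Type u} [Field Λ]

section pair

variable {K M : Subfield Λ} {x₁ y₁ x₂ y₂ : Λ} (hm : Odd m) (h2 : (2 : Λ) ≠ 0)
    (hx₁ : x₁ ∉ cl (K : Set Λ))
    (hx₂ : x₂ ∉ cl (insert x₁ (K : Set Λ))) (h₁ : y₁ ^ 2 = x₁ ^ 3 - x₁)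
    (h₂ : y₂ ^ 2 = x₂ ^ 3 - x₂) (hM : M = adj K {x₁, y₁, x₂, y₂})

include hm h2 hx₁ hx₂ h₁ h₂ hM

/-- The endomorphism `I ^ a F ^ s` in the first variable and in the second variable. -/
theorem scale_pair {p : ℕ} [hp : Fact p.Prime] [CharP Λ p] {ι : Λ} (hι : ι ^ 2 = -1)
    (hιK : ι ∈ K) (a s : ℕ) (g g' : M →+* M)
    (g1 : ∀ z : M, (z : Λ) ∈ K → g z = z)
    (g2 : ∀ z : M, (z : Λ) = x₁ → (g z : Λ) = (-1) ^ a * (z : Λ) ^ p ^ s)
    (g3 : ∀ z : M, (z : Λ) = y₁ → (g z : Λ) = ι ^ a * (z : Λ) ^ p ^ s)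
    (g4 : ∀ z : M, (z : Λ) = x₂ → g z = z) (g5 : ∀ z : M, (z : Λ) = y₂ → g z = z)
    (g'1 : ∀ z : M, (z : Λ) ∈ K → g' z = z)
    (g'2 : ∀ z : M, (z : Λ) = x₁ → g' z = z) (g'3 : ∀ z : M, (z : Λ) = y₁ → g' z = z)
    (g'4 : ∀ z : M, (z : Λ) = x₂ → (g' z : Λ) = (-1) ^ a * (z : Λ) ^ p ^ s)
    (g'5 : ∀ z : M, (z : Λ) = y₂ → (g' z : Λ) = ι ^ a * (z : Λ) ^ p ^ s)
    {γ : KM m M} (hu : Unr γ)
    (ho₁ : OddAt K y₁ {x₁, x₂, y₂} γ) (ho₂ : OddAt K y₂ {x₁, y₁, x₂} γ) :
    KM.map m g γ = KM.map m g' γ := by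
  have h2K : (2 : K) ≠ 0 := fun h => h2 (by
    have := congrArg K.subtype h
    rwa [map_ofNat, map_zero] at this)
  have : GoodW (Wi K) := Wi_good' h2K
  have hpc : CharP K p := K.subtype.charP K.subtype.injective p
  obtain ⟨P, Q, hP1, hP2, hQ1, hQ2, hPQ⟩ := exists_pair h2 hx₁ hx₂ h₁ h₂
  have hM' : M = adj K {ptX P, ptY P, ptX Q, ptY Q} := by rw [hP1, hP2, hQ1, hQ2]; exact hM
  obtain ⟨fM, e, hef, hfe, hf⟩ := exists_pair_iso hPQ hM'
  have hfPx : (fM (ptX (P2 (Wi K) K)) : Λ) = x₁ := by rw [hf, ← ptX_map, lift2_P2, hP1]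
  have hfPy : (fM (ptY (P2 (Wi K) K)) : Λ) = y₁ := by rw [hf, ← ptY_map, lift2_P2, hP2]
  have hfQx : (fM (ptX (Q2 (Wi K) K)) : Λ) = x₂ := by rw [hf, ← ptX_map, lift2_Q2, hQ1]
  have hfQy : (fM (ptY (Q2 (Wi K) K)) : Λ) = y₂ := by rw [hf, ← ptY_map, lift2_Q2, hQ2]
  have hind := ind_P2_Q2 (Wi K) K
  obtain ⟨ι', hι'⟩ : ∃ ι' : K, ι' = ⟨ι, hιK⟩ := ⟨_, rfl⟩
  have hι'2 : ι' ^ 2 = -1 := by rw [hι']; exact Subtype.ext hι
  have hfι : (fM (algebraMap K (F2 (Wi K) K) ι') : Λ) = ι := by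
    rw [hf, AlgHom.commutes, hι']; rfl
  obtain ⟨φ, hφ⟩ : ∃ φ, φ = (cmPow hι'2 a).comp (frW K p s) := ⟨_, rfl⟩
  have hφX : ∀ R : Pt (Wi K) (F2 (Wi K) K), ptX (φ.toFun _ R) = (-1) ^ a * ptX R ^ p ^ s := by
    intro R
    rw [hφ]
    change ptX ((cmPow hι'2 a).toFun _ ((frW K p s).toFun _ R)) = _
    rw [cmPow_ptX, frW_ptX]
  have hφY : ∀ R : Pt (Wi K) (F2 (Wi K) K), ptY (φ.toFun _ R) =
      algebraMap K (F2 (Wi K) K) ι' ^ a * ptY R ^ p ^ s := by
    intro R
    rw [hφ]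
    change ptY ((cmPow hι'2 a).toFun _ ((frW K p s).toFun _ R)) = _
    rw [cmPow_ptY, frW_ptY]
  obtain ⟨hα1, hα2⟩ := pair_odd hPQ fM e hef hfe hf hP1 hP2 hQ1 hQ2 hM' ho₁ ho₂
  have hαu : Unr (KM.map m e γ) := hu.map _
  have he_inj : Function.Injective (KM.map m e) := by
    intro a b hab
    have := congrArg (KM.map m fM) hab
    rwa [KM.map_map, KM.map_map, hfe, KM.map_id] at this
  have hA := φ.ind_left hind
  have hB := φ.ind_right hind
  have hxf : ∀ (R : Pt (Wi K) (F2 (Wi K) K)) (x : Λ), (fM (ptX R) : Λ) = x →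
      (fM (ptX (φ.toFun _ R)) : Λ) = (-1) ^ a * x ^ p ^ s := by
    intro R x hR
    rw [hφX, map_mul, map_pow, map_pow, map_neg, map_one]
    push_cast
    rw [hR]
  have hyf : ∀ (R : Pt (Wi K) (F2 (Wi K) K)) (y : Λ), (fM (ptY R) : Λ) = y →
      (fM (ptY (φ.toFun _ R)) : Λ) = ι ^ a * y ^ p ^ s := by
    intro R y hR
    rw [hφY, map_mul, map_pow, map_pow]
    push_cast
    rw [hR, hfι]
  have hs := pair_spec hPQ fM e hef hfe hf hM' hA g g1
    (fun z hz => by rw [g2 z (hz.trans hP1), hxf _ _ hfPx, hz, hP1])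
    (fun z hz => by rw [g3 z (hz.trans hP2), hyf _ _ hfPy, hz, hP2])
    (fun z hz => by rw [g4 z (hz.trans hQ1), hfQx, hz, hQ1])
    (fun z hz => by rw [g5 z (hz.trans hQ2), hfQy, hz, hQ2])
  have hs' := pair_spec hPQ fM e hef hfe hf hM' hB g' g'1
    (fun z hz => by rw [g'2 z (hz.trans hP1), hfPx, hz, hP1])
    (fun z hz => by rw [g'3 z (hz.trans hP2), hfPy, hz, hP2])
    (fun z hz => by rw [g'4 z (hz.trans hQ1), hxf _ _ hfQx, hz, hQ1])
    (fun z hz => by rw [g'5 z (hz.trans hQ2), hyf _ _ hfQy, hz, hQ2])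
  apply he_inj
  rw [KM.map_map, KM.map_map, hs, hs', ← KM.map_map, ← KM.map_map]
  have h3 := bal hm φ hαu hα1 hα2 hind
  rw [ev2_of_ind hA, ev2_of_ind hB] at h3
  exact h3

end pair

end UnrH3
end

section

/-!
# One point in subfields of a fixed field
-/

namespace UnrH3

universe u v w

open Polynomial WeierstrassCurve
open scoped Classical

variable {m : ℕ} {Λ : Type u} [Field Λ]

/-- The points with coordinates in the function field. -/
abbrev PtF (S : Type v) [Field S] (K : Type u) [Field K] [Algebra S K] : Type u :=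
  Pt (Wi S) (FF (Wi S) K)

section single

variable {K M : Subfield Λ} {x₁ y₁ : Λ}

/-- The field generated by a point is the function field of the curve. -/
lemma exists_single_iso (h2 : (2 : Λ) ≠ 0) (hx₁ : x₁ ∉ cl (K : Set Λ))
    (h₁ : y₁ ^ 2 = x₁ ^ 3 - x₁) (hM : M = adj K {x₁, y₁}) :
    ∃ (fM : FF (Wi K) K →+* M) (e : M →+* FF (Wi K) K), e.comp fM = RingHom.id _ ∧
      fM.comp e = RingHom.id _ ∧ (∀ z : K, (fM (base (Wi K) K z) : Λ) = z) ∧
      (fM (gx (Wi K) K) : Λ) = x₁ ∧ (fM (gy (Wi K) K) : Λ) = y₁ := by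
  have hy₁ : y₁ ≠ 0 := by
    rintro rfl
    apply cube_sub_ne_zero hx₁
    rw [← h₁]; simp
  obtain ⟨P, hP0, hPx, hPy⟩ := exists_pt_of_eq (S := K) h2 h₁ hy₁
  have hP : Gen (Algebra.ofId K Λ) P := by
    change ¬ (ptX P ∈ cl (Set.range (Algebra.ofId K Λ)))
    rw [range_ofId, hPx]; exact hx₁
  obtain ⟨f, hf⟩ : ∃ f, f = liftPt (Algebra.ofId K Λ) P hP := ⟨_, rfl⟩
  have fb : ∀ z : K, f (base (Wi K) K z) = z := fun z => by
    rw [hf]
    exact congrArg (fun g : K →ₐ[K] Λ => g z) (liftPt_base _ P hP)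
  have fx : f (gx (Wi K) K) = x₁ := by rw [hf, liftPt_gx, hPx]
  have fy : f (gy (Wi K) K) = y₁ := by rw [hf, liftPt_gy, hPy]
  have hfM : ∀ z, f z ∈ M := by
    intro z
    rw [hM]
    apply FF_range_le f
    · intro z'
      rw [fb]; exact le_adj _ _ z'.2
    · rw [fx]; exact subset_adj _ _ (by simp)
    · rw [fy]; exact subset_adj _ _ (by simp)
  obtain ⟨e, he⟩ : ∃ e : M →+* FF (Wi K) K, (f : FF (Wi K) K →+* Λ).comp e = M.subtype := by
    apply exists_factor
    intro z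
    have h3 : M ≤ (f : FF (Wi K) K →+* Λ).fieldRange := by
      rw [hM]
      apply adj_le
      · intro z hz
        exact ⟨_, fb ⟨z, hz⟩⟩
      · rintro z (hz | hz)
        · rw [hz]; exact ⟨_, fx⟩
        · rw [Set.mem_singleton_iff.mp hz]; exact ⟨_, fy⟩
    exact h3 z.2
  have hfe : ∀ z : M, f (e z) = z := fun z => congrArg (fun g : M →+* Λ => g z) he
  refine ⟨(f : FF (Wi K) K →+* Λ).codRestrict M hfM, e, ?_, ?_, fb, fx, fy⟩
  · ext1 z
    apply RingHom.injective (f : FF (Wi K) K →+* Λ)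
    exact hfe _
  · ext1 z
    exact Subtype.ext (hfe z)

variable (fM : FF (Wi K) K →+* M) (e : M →+* FF (Wi K) K)
  (hef : e.comp fM = RingHom.id _) (hfe : fM.comp e = RingHom.id _)
  (hb : ∀ z : K, (fM (base (Wi K) K z) : Λ) = z)
  (hx : (fM (gx (Wi K) K) : Λ) = x₁) (hy : (fM (gy (Wi K) K) : Λ) = y₁)

include hef

lemma single_e_of {z : M} {z' : FF (Wi K) K} (h : (fM z' : Λ) = z) : e z = z' := by
  have h1 : fM z' = z := Subtype.ext h
  rw [← h1]
  exact congrArg (fun g : FF (Wi K) K →+* FF (Wi K) K => g z') hef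

include hfe hb hx hy

/-- The effect of a substitution, seen in the function field. -/
lemma single_spec [GoodW (Wi K)] (hM : M = adj K {x₁, y₁}) {A : PtF K K}
    (h : Gen (base (Wi K) K) A) (g : M →+* M) (hK : ∀ z : M, (z : Λ) ∈ K → g z = z)
    (hPx : ∀ z : M, (z : Λ) = x₁ → (g z : Λ) = fM (ptX A))
    (hPy : ∀ z : M, (z : Λ) = y₁ → (g z : Λ) = fM (ptY A)) :
    e.comp g = (liftPt (base (Wi K) K) A h : FF (Wi K) K →+* FF (Wi K) K).comp e := by
  have hKM : K ≤ M := by rw [hM]; exact le_adj _ _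
  have hTM : ({x₁, y₁} : Set Λ) ⊆ M := by rw [hM]; exact subset_adj _ _
  have hfe' : ∀ z : M, fM (e z) = z := fun z => congrArg (fun g : M →+* M => g z) hfe
  have hi : ∀ z : K, liftPt (base (Wi K) K) A h (base (Wi K) K z) = base (Wi K) K z := fun z =>
    congrArg (fun g : K →ₐ[K] FF (Wi K) K => g z) (liftPt_base _ A h)
  ext1 z
  have goal : fM (e (g z)) = fM (liftPt (base (Wi K) K) A h (e z)) := by
    refine hom_eq_of_gen (fM.comp (e.comp g))
      (fM.comp ((liftPt (base (Wi K) K) A h : FF (Wi K) K →+* FF (Wi K) K).comp e)) hKM hTM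
      ?_ ?_ z (by rw [← hM]; exact z.2)
    · intro z hz
      change fM (e (g _)) = fM (liftPt (base (Wi K) K) A h (e _))
      have h3 : e ⟨z, hKM hz⟩ = base (Wi K) K ⟨z, hz⟩ := single_e_of fM e hef (hb ⟨z, hz⟩)
      rw [hfe', hK _ hz, h3, hi]
      exact Subtype.ext (hb ⟨z, hz⟩).symm
    · intro z hz
      change fM (e (g _)) = fM (liftPt (base (Wi K) K) A h (e _))
      rw [hfe']
      rcases id hz with hz' | hz'
      · have h3 : e ⟨z, hTM hz⟩ = gx (Wi K) K := single_e_of fM e hef (hx.trans hz'.symm)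
        rw [h3, liftPt_gx]
        exact Subtype.ext (hPx _ hz')
      · have h3 : e ⟨z, hTM hz⟩ = gy (Wi K) K := single_e_of fM e hef (hy.trans hz'.symm)
        rw [h3, liftPt_gy]
        exact Subtype.ext (hPy _ hz')
  exact fM.injective goal

omit hfe in
/-- The existence of substitutions. -/
lemma single_exists [GoodW (Wi K)] {A : PtF K K} (h : Gen (base (Wi K) K) A) :
    ∃ g : M →+* M, (∀ z : M, (z : Λ) ∈ K → g z = z) ∧
      (∀ z : M, (z : Λ) = x₁ → (g z : Λ) = fM (ptX A)) ∧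
      (∀ z : M, (z : Λ) = y₁ → (g z : Λ) = fM (ptY A)) := by
  have hi : ∀ z : K, liftPt (base (Wi K) K) A h (base (Wi K) K z) = base (Wi K) K z := fun z =>
    congrArg (fun g : K →ₐ[K] FF (Wi K) K => g z) (liftPt_base _ A h)
  refine ⟨fM.comp ((liftPt (base (Wi K) K) A h : FF (Wi K) K →+* FF (Wi K) K).comp e), ?_, ?_, ?_⟩
  · intro z hz
    change fM (liftPt (base (Wi K) K) A h (e z)) = z
    have h3 : e z = base (Wi K) K ⟨z, hz⟩ := single_e_of fM e hef (hb ⟨z, hz⟩)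
    rw [h3, hi]
    exact Subtype.ext (hb ⟨z, hz⟩)
  · intro z hz
    change (fM (liftPt (base (Wi K) K) A h (e z)) : Λ) = _
    have h3 : e z = gx (Wi K) K := single_e_of fM e hef (hx.trans hz.symm)
    rw [h3, liftPt_gx]
  · intro z hz
    change (fM (liftPt (base (Wi K) K) A h (e z)) : Λ) = _
    have h3 : e z = gy (Wi K) K := single_e_of fM e hef (hy.trans hz.symm)
    rw [h3, liftPt_gy]

end single

section norm

variable {K M : Subfield Λ} {x₁ y₁ : Λ} {p : ℕ} [hp : Fact p.Prime] [CharP Λ p]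

/-- Substitution of `I ^ a F ^ k`. -/
lemma single_H_exists (h2 : (2 : Λ) ≠ 0) {ι : Λ} (hι : ι ^ 2 = -1)
    (hιK : ι ∈ K) (hx₁ : x₁ ∉ cl (K : Set Λ)) (h₁ : y₁ ^ 2 = x₁ ^ 3 - x₁)
    (hM : M = adj K {x₁, y₁}) (a k : ℕ) :
    ∃ g : M →+* M, (∀ z : M, (z : Λ) ∈ K → g z = z) ∧
      (∀ z : M, (z : Λ) = x₁ → (g z : Λ) = (-1) ^ a * (z : Λ) ^ p ^ k) ∧
      (∀ z : M, (z : Λ) = y₁ → (g z : Λ) = ι ^ a * (z : Λ) ^ p ^ k) := by
  have h2K : (2 : K) ≠ 0 := fun h => h2 (by
    have := congrArg K.subtype h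
    rwa [map_ofNat, map_zero] at this)
  have : GoodW (Wi K) := Wi_good' h2K
  have hpc : CharP K p := K.subtype.charP K.subtype.injective p
  obtain ⟨fM, e, hef, hfe, hb, hx, hy⟩ := exists_single_iso h2 hx₁ h₁ hM
  obtain ⟨ι', hι'⟩ : ∃ ι' : K, ι' = ⟨ι, hιK⟩ := ⟨_, rfl⟩
  have hι'2 : ι' ^ 2 = -1 := by rw [hι']; exact Subtype.ext hι
  obtain ⟨A, hA⟩ : ∃ A : PtF K K, A = (cmPow hι'2 a).toFun _ ((frW K p k).toFun _
      (gpt (Wi K) K)) := ⟨_, rfl⟩
  have hgen : Gen (base (Wi K) K) A := by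
    intro h'
    rw [hA] at h'
    exact gen_gpt (((frW K p k).inCl _ _ (range_in_cl _) _).mp
      (((cmPow hι'2 a).inCl _ _ (range_in_cl _) _).mp h'))
  have hAx : (fM (ptX A) : Λ) = (-1) ^ a * x₁ ^ p ^ k := by
    rw [hA, cmPow_ptX, frW_ptX, ptX_gpt, map_mul, map_pow, map_pow, map_neg, map_one]
    push_cast
    rw [hx]
  have hAy : (fM (ptY A) : Λ) = ι ^ a * y₁ ^ p ^ k := by
    rw [hA, cmPow_ptY, frW_ptY, ptY_gpt, map_mul, map_pow, map_pow]
    push_cast
    rw [hy]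
    have h3 : (fM (algebraMap K (FF (Wi K) K) ι') : Λ) = ι' := hb ι'
    rw [hι'] at h3
    rw [hι']
    congr 2
  obtain ⟨g, g1, g2, g3⟩ := single_exists fM e hef hb hx hy hgen
  exact ⟨g, g1, fun z hz => by rw [g2 z hz, hAx, hz], fun z hz => by rw [g3 z hz, hAy, hz]⟩

/-- An odd unramified class on which the substitution `I ^ a F ^ k` acts as an integer. -/
theorem single_norm (hm : Odd m) (hp4 : p % 4 = 1) (h2 : (2 : Λ) ≠ 0) {ι : Λ} (hι : ι ^ 2 = -1)
    (hιK : ι ∈ K) (hx₁ : x₁ ∉ cl (K : Set Λ)) (h₁ : y₁ ^ 2 = x₁ ^ 3 - x₁)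
    (hM : M = adj K {x₁, y₁}) {γ : KM m M} (hu : Unr γ) (ho : OddAt K y₁ {x₁} γ) (a k : ℕ)
    (g : M →+* M) (g1 : ∀ z : M, (z : Λ) ∈ K → g z = z)
    (g2 : ∀ z : M, (z : Λ) = x₁ → (g z : Λ) = (-1) ^ a * (z : Λ) ^ p ^ k)
    (g3 : ∀ z : M, (z : Λ) = y₁ → (g z : Λ) = ι ^ a * (z : Λ) ^ p ^ k) (Q : ℤ)
    (h : KM.map m g γ = Q • γ) {N : ℤ} (hN : ∀ ϖ : GaussianInt, ϖ.norm = p →
      (⟨2, 2⟩ : GaussianInt) ∣ ϖ - 1 → (⟨0, 1⟩ ^ a * ϖ ^ k - (Q : GaussianInt)).norm ∣ N) :
    N • γ = 0 := by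
  have h2K : (2 : K) ≠ 0 := fun h => h2 (by
    have := congrArg K.subtype h
    rwa [map_ofNat, map_zero] at this)
  have : GoodW (Wi K) := Wi_good' h2K
  have hpc : CharP K p := K.subtype.charP K.subtype.injective p
  obtain ⟨fM, e, hef, hfe, hb, hx, hy⟩ := exists_single_iso h2 hx₁ h₁ hM
  obtain ⟨ι', hι'⟩ : ∃ ι' : K, ι' = ⟨ι, hιK⟩ := ⟨_, rfl⟩
  have hι'2 : ι' ^ 2 = -1 := by rw [hι']; exact Subtype.ext hι
  have hinj : Function.Injective (KM.map m e) := by
    intro a b hab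
    have := congrArg (KM.map m fM) hab
    rwa [KM.map_map, KM.map_map, hfe, KM.map_id] at this
  have hodd : OddCl (KM.map m e γ) := by
    obtain ⟨g', g'1, g'2, g'3⟩ := single_exists fM e hef hb hx hy
      (A := -gpt (Wi K) K) gen_gpt.neg
    have hs := single_spec fM e hef hfe hb hx hy hM gen_gpt.neg g' g'1 g'2 g'3
    have hg' : KM.map m g' γ = -γ := by
      apply ho g' g'1
      · intro z hz
        apply Subtype.ext
        rw [g'2 z hz, ptX_neg, ptX_gpt, hx]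
        exact (Set.mem_singleton_iff.mp hz).symm
      · intro z hz
        apply Subtype.ext
        rw [g'3 z hz, Wi_ptY_neg, ptY_gpt, map_neg]
        push_cast
        rw [hy, hz]
    unfold OddCl nu
    rw [KM.map_map, ← hs, ← KM.map_map, hg', map_neg]
  obtain ⟨A, hA⟩ : ∃ A : PtF K K, A = (cmPow hι'2 a).toFun _ ((frW K p k).toFun _
      (gpt (Wi K) K)) := ⟨_, rfl⟩
  have hgen : Gen (base (Wi K) K) A := by
    intro h'
    rw [hA] at h'
    exact gen_gpt (((frW K p k).inCl _ _ (range_in_cl _) _).mp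
      (((cmPow hι'2 a).inCl _ _ (range_in_cl _) _).mp h'))
  have hAx : (fM (ptX A) : Λ) = (-1) ^ a * x₁ ^ p ^ k := by
    rw [hA, cmPow_ptX, frW_ptX, ptX_gpt, map_mul, map_pow, map_pow, map_neg, map_one]
    push_cast
    rw [hx]
  have hAy : (fM (ptY A) : Λ) = ι ^ a * y₁ ^ p ^ k := by
    rw [hA, cmPow_ptY, frW_ptY, ptY_gpt, map_mul, map_pow, map_pow]
    push_cast
    rw [hy]
    have h3 : (fM (algebraMap K (FF (Wi K) K) ι') : Λ) = ι' := hb ι'
    rw [hι'] at h3
    rw [hι']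
    congr 2
  have hs := single_spec fM e hef hfe hb hx hy hM hgen g g1
    (fun z hz => by rw [g2 z hz, hAx, hz]) (fun z hz => by rw [g3 z hz, hAy, hz])
  have hev : ev (base (Wi K) K) A (KM.map m e γ) = Q • KM.map m e γ := by
    rw [ev_of_gen hgen, KM.map_map, ← hs, ← KM.map_map, h, map_zsmul]
  obtain ⟨ϖ, n1, n2, n3⟩ := one_var (p := p) hι'2 hm hp4 K
  rw [hA] at hev
  have h4 := n3 a k Q _ (hu.map _) hodd hev
  obtain ⟨c, hc⟩ := hN ϖ n1 n2
  apply hinj
  rw [map_zsmul, map_zero, hc, mul_comm, mul_smul, h4, smul_zero]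

end norm

end UnrH3
end

section

/-!
# Substitutions by endomorphisms in several variables
-/

namespace UnrH3

universe u v w

open Polynomial WeierstrassCurve
open scoped Classical

variable {m : ℕ} {Λ : Type u} [Field Λ] {n : ℕ}

/-- The substitution of `I ^ a i * F ^ s i` in the variable `i`. -/
structure IsH (p : ℕ) (ι : Λ) (C : Subfield Λ) (X Y : Fin n → Λ) {M : Subfield Λ}
    (a s : Fin n → ℕ) (g : M →+* M) : Prop where
  c : ∀ z : M, (z : Λ) ∈ C → g z = z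
  x : ∀ i, ∀ z : M, (z : Λ) = X i → (g z : Λ) = (-1) ^ a i * (z : Λ) ^ p ^ s i
  y : ∀ i, ∀ z : M, (z : Λ) = Y i → (g z : Λ) = ι ^ a i * (z : Λ) ^ p ^ s i

/-- The elements fixed by an endomorphism of a subfield. -/
def fixF {M : Subfield Λ} (g : M →+* M) : Subfield Λ :=
  (RingHom.eqLocusField g (RingHom.id M)).map M.subtype

lemma mem_fixF {M : Subfield Λ} {g : M →+* M} {z : M} (h : g z = z) : (z : Λ) ∈ fixF g :=
  ⟨z, h, rfl⟩

lemma of_mem_fixF {M : Subfield Λ} {g : M →+* M} {z : M} (h : (z : Λ) ∈ fixF g) : g z = z := by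
  obtain ⟨z', hz', he⟩ := h
  have : z' = z := Subtype.ext he
  rw [← this]; exact hz'

section family

variable {C M : Subfield Λ} {X Y : Fin n → Λ} {p : ℕ} {ι : Λ}

lemma IsH.unique (hM : M = adj C (Set.range X ∪ Set.range Y)) {a s : Fin n → ℕ} {g g' : M →+* M}
    (h : IsH p ι C X Y a s g) (h' : IsH p ι C X Y a s g') : g = g' := by
  apply hom_gen_id hM
  · intro z hz
    rw [h.c z hz, h'.c z hz]
  · rintro z (⟨i, hi⟩ | ⟨i, hi⟩)
    · exact Subtype.ext (by rw [h.x i z hi.symm, h'.x i z hi.symm])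
    · exact Subtype.ext (by rw [h.y i z hi.symm, h'.y i z hi.symm])

lemma IsH.id : IsH p ι C X Y 0 0 (RingHom.id M) where
  c _ _ := rfl
  x i z _ := by simp
  y i z _ := by simp

lemma neg_one_pow_pow (hp4 : p % 4 = 1) (a s : ℕ) : ((-1 : Λ) ^ a) ^ p ^ s = (-1) ^ a := by
  have h1 : Odd (p ^ s) := (Nat.odd_iff.mpr (by omega)).pow
  rw [← pow_mul, mul_comm, pow_mul, h1.neg_one_pow]

lemma iota_pow_pow (hp4 : p % 4 = 1) (hι : ι ^ 2 = -1) (a s : ℕ) : (ι ^ a) ^ p ^ s = ι ^ a := by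
  rw [← pow_mul, mul_comm, pow_mul, pow_iota hp4 hι]

lemma IsH.comp (hp4 : p % 4 = 1) (hι : ι ^ 2 = -1) (hιC : ι ∈ C) (hCM : C ≤ M)
    {a s a' s' : Fin n → ℕ} {g g' : M →+* M}
    (h : IsH p ι C X Y a s g) (h' : IsH p ι C X Y a' s' g') :
    IsH p ι C X Y (a + a') (s + s') (g.comp g') where
  c z hz := by rw [RingHom.comp_apply, h'.c z hz, h.c z hz]
  x i z hz := by
    have h1 : g' z = (-1) ^ a' i * z ^ p ^ s' i := Subtype.ext (h'.x i z hz)
    rw [RingHom.comp_apply, h1, map_mul, map_pow, map_pow, map_neg, map_one]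
    push_cast
    rw [h.x i z hz, mul_pow, neg_one_pow_pow hp4, Pi.add_apply, Pi.add_apply, pow_add, pow_add,
      pow_mul]
    ring
  y i z hz := by
    have hιM : ι ∈ M := hCM hιC
    have h1 : g' z = ⟨ι, hιM⟩ ^ a' i * z ^ p ^ s' i := Subtype.ext (h'.y i z hz)
    have h2 : g ⟨ι, hιM⟩ = ⟨ι, hιM⟩ := h.c _ hιC
    rw [RingHom.comp_apply, h1, map_mul, map_pow, map_pow, h2]
    push_cast
    rw [h.y i z hz, mul_pow, iota_pow_pow hp4 hι, Pi.add_apply, Pi.add_apply, pow_add, pow_add,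
      pow_mul]
    ring

lemma IsH.commute (hM : M = adj C (Set.range X ∪ Set.range Y)) (hp4 : p % 4 = 1)
    (hι : ι ^ 2 = -1) (hιC : ι ∈ C)
    {a s a' s' : Fin n → ℕ} {g g' : M →+* M}
    (h : IsH p ι C X Y a s g) (h' : IsH p ι C X Y a' s' g') : g.comp g' = g'.comp g := by
  have hCM : C ≤ M := by rw [hM]; exact le_adj _ _
  have h1 := h.comp hp4 hι hιC hCM h'
  have h2 := h'.comp hp4 hι hιC hCM h
  rw [add_comm a', add_comm s'] at h2
  exact h1.unique hM h2

lemma family_single_fact (hX : IndFam C X) (hY : ∀ j, Y j ^ 2 = X j ^ 3 - X j) (j : Fin n)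
    (K : Subfield Λ) (hK : K = adj C (X '' {i | i ≠ j} ∪ Y '' {i | i ≠ j})) :
    X j ∉ cl (K : Set Λ) := by
  intro h
  apply hX j
  have h1 : K ≤ cl ((C : Set Λ) ∪ X '' {l | l ≠ j}) := by
    rw [hK]
    apply adj_le (fun z hz => subset_cl _ (Or.inl hz))
    rintro z (⟨i, hi, rfl⟩ | ⟨i, hi, rfl⟩)
    · exact subset_cl _ (Or.inr ⟨i, hi, rfl⟩)
    · apply mem_cl_of_pow (n := 2) (by norm_num)
      rw [hY]
      have h2 : X i ∈ cl ((C : Set Λ) ∪ X '' {l | l ≠ j}) := subset_cl _ (Or.inr ⟨i, hi, rfl⟩)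
      exact sub_mem (pow_mem h2 3) h2
  exact cl_le h1 h

lemma family_single_M (hM : M = adj C (Set.range X ∪ Set.range Y)) (j : Fin n) (K : Subfield Λ)
    (hK : K = adj C (X '' {i | i ≠ j} ∪ Y '' {i | i ≠ j})) : M = adj K {X j, Y j} := by
  rw [hM, hK, adj_adj]
  congr 1
  ext z
  simp only [Set.mem_union, Set.mem_range, Set.mem_image, Set.mem_ofPred_eq, Set.mem_insert_iff,
    Set.mem_singleton_iff]
  constructor
  · rintro (⟨i, rfl⟩ | ⟨i, rfl⟩)
    · by_cases h1 : i = j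
      · subst h1; right; left; rfl
      · left; left; exact ⟨i, h1, rfl⟩
    · by_cases h1 : i = j
      · subst h1; right; right; rfl
      · left; right; exact ⟨i, h1, rfl⟩
  · rintro ((⟨i, _, rfl⟩ | ⟨i, _, rfl⟩) | rfl | rfl)
    · left; exact ⟨i, rfl⟩
    · right; exact ⟨i, rfl⟩
    · left; exact ⟨j, rfl⟩
    · right; exact ⟨j, rfl⟩

/-- Substitution in one variable. -/
lemma exists_isH_single [hp : Fact p.Prime] [CharP Λ p] (h2 : (2 : Λ) ≠ 0) (hX : IndFam C X)
    (hY : ∀ j, Y j ^ 2 = X j ^ 3 - X j) (hM : M = adj C (Set.range X ∪ Set.range Y))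
    (hι : ι ^ 2 = -1) (hιC : ι ∈ C) (j : Fin n) (a s : ℕ) :
    ∃ g : M →+* M, IsH p ι C X Y (Pi.single j a) (Pi.single j s) g := by
  obtain ⟨K, hK⟩ : ∃ K, K = adj C (X '' {i | i ≠ j} ∪ Y '' {i | i ≠ j}) := ⟨_, rfl⟩
  have hCK : C ≤ K := by rw [hK]; exact le_adj _ _
  obtain ⟨g, g1, g2, g3⟩ := single_H_exists (p := p) h2 hι (hCK hιC)
    (family_single_fact hX hY j K hK) (hY j) (family_single_M hM j K hK) a s
  refine ⟨g, fun z hz => g1 z (hCK hz), ?_, ?_⟩
  · intro i z hz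
    by_cases hij : i = j
    · subst hij
      rw [g2 z hz, Pi.single_eq_same, Pi.single_eq_same]
    · rw [g1 z, Pi.single_eq_of_ne hij, Pi.single_eq_of_ne hij]
      · ring
      · rw [hK, hz]; exact subset_adj _ _ (Or.inl ⟨i, hij, rfl⟩)
  · intro i z hz
    by_cases hij : i = j
    · subst hij
      rw [g3 z hz, Pi.single_eq_same, Pi.single_eq_same]
    · rw [g1 z, Pi.single_eq_of_ne hij, Pi.single_eq_of_ne hij]
      · ring
      · rw [hK, hz]; exact subset_adj _ _ (Or.inr ⟨i, hij, rfl⟩)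

/-- Moving an endomorphism from one variable to another. -/
lemma IsH.move [hp : Fact p.Prime] [CharP Λ p] (hm : Odd m) (h2 : (2 : Λ) ≠ 0)
    (hX : IndFam C X) (hY : ∀ j, Y j ^ 2 = X j ^ 3 - X j)
    (hM : M = adj C (Set.range X ∪ Set.range Y)) (hι : ι ^ 2 = -1)
    (hιC : ι ∈ C) {j l : Fin n} {a s : ℕ} {g g' : M →+* M}
    (h : IsH p ι C X Y (Pi.single j a) (Pi.single j s) g)
    (h' : IsH p ι C X Y (Pi.single l a) (Pi.single l s) g') {γ : KM m M} (hu : Unr γ)
    (ho : MultiOdd C X Y γ) : KM.map m g γ = KM.map m g' γ := by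
  by_cases hjl : j = l
  · subst hjl
    rw [h.unique hM h']
  obtain ⟨K, hK⟩ : ∃ K, K = adj C (X '' {i | i ≠ j ∧ i ≠ l} ∪ Y '' {i | i ≠ j ∧ i ≠ l}) :=
    ⟨_, rfl⟩
  have hCK : C ≤ K := by rw [hK]; exact le_adj _ _
  obtain ⟨hx₁, hx₂⟩ := family_fact hX hY j l hjl K hK
  have hM' := family_M hM j l K hK
  have hXM : ∀ i, X i ∈ M := fun i => by rw [hM]; exact subset_adj _ _ (Or.inl ⟨i, rfl⟩)
  have hYM : ∀ i, Y i ∈ M := fun i => by rw [hM]; exact subset_adj _ _ (Or.inr ⟨i, rfl⟩)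
  have hCM : C ≤ M := by rw [hM]; exact le_adj _ _
  obtain ⟨ho1, ho2⟩ := family_odd j l K hK ho
  -- a substitution in the variable `j` fixes the other coordinates
  have fixx : ∀ (j : Fin n) (g : M →+* M), IsH p ι C X Y (Pi.single j a) (Pi.single j s) g →
      ∀ i, i ≠ j → (∀ z : M, (z : Λ) = X i → g z = z) ∧ (∀ z : M, (z : Λ) = Y i → g z = z) := by
    intro j g h i hij
    constructor
    · intro z hz
      apply Subtype.ext
      rw [h.x i z hz, Pi.single_eq_of_ne hij, Pi.single_eq_of_ne hij]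
      ring
    · intro z hz
      apply Subtype.ext
      rw [h.y i z hz, Pi.single_eq_of_ne hij, Pi.single_eq_of_ne hij]
      ring
  have fixK : ∀ g : M →+* M, (∀ z : M, (z : Λ) ∈ C → g z = z) →
      (∀ i, i ≠ j ∧ i ≠ l → (∀ z : M, (z : Λ) = X i → g z = z) ∧
        (∀ z : M, (z : Λ) = Y i → g z = z)) → ∀ z : M, (z : Λ) ∈ K → g z = z := by
    intro g gC gi z hz
    apply of_mem_fixF
    have h3 : K ≤ fixF g := by
      rw [hK]
      apply adj_le
      · intro z hz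
        exact mem_fixF (z := ⟨z, hCM hz⟩) (gC _ hz)
      · rintro z (⟨i, hi, rfl⟩ | ⟨i, hi, rfl⟩)
        · exact mem_fixF (z := ⟨X i, hXM i⟩) ((gi i hi).1 _ rfl)
        · exact mem_fixF (z := ⟨Y i, hYM i⟩) ((gi i hi).2 _ rfl)
    exact h3 hz
  have gK := fixK g h.c (fun i hi => fixx j g h i hi.1)
  have g'K := fixK g' h'.c (fun i hi => fixx l g' h' i hi.2)
  refine scale_pair hm h2 hx₁ hx₂ (hY j) (hY l) hM' hι (hCK hιC) a s g g' gK ?_ ?_
    (fixx j g h l (Ne.symm hjl)).1 (fixx j g h l (Ne.symm hjl)).2 g'K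
    (fixx l g' h' j hjl).1 (fixx l g' h' j hjl).2 ?_ ?_ hu ho1 ho2
  · intro z hz
    rw [h.x j z hz, Pi.single_eq_same, Pi.single_eq_same]
  · intro z hz
    rw [h.y j z hz, Pi.single_eq_same, Pi.single_eq_same]
  · intro z hz
    rw [h'.x l z hz, Pi.single_eq_same, Pi.single_eq_same]
  · intro z hz
    rw [h'.y l z hz, Pi.single_eq_same, Pi.single_eq_same]

/-- Moving all endomorphisms to one variable. -/
theorem exists_total [hp : Fact p.Prime] [CharP Λ p] (hm : Odd m) (h2 : (2 : Λ) ≠ 0)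
    (hX : IndFam C X) (hY : ∀ j, Y j ^ 2 = X j ^ 3 - X j)
    (hM : M = adj C (Set.range X ∪ Set.range Y)) (hp4 : p % 4 = 1) (hι : ι ^ 2 = -1)
    (hιC : ι ∈ C) (a s : Fin n → ℕ) (j : Fin n) {γ : KM m M} (hu : Unr γ)
    (ho : MultiOdd C X Y γ) (J : Finset (Fin n)) :
    ∃ g g' : M →+* M, IsH p ι C X Y (fun i => if i ∈ J then a i else 0)
        (fun i => if i ∈ J then s i else 0) g ∧
      IsH p ι C X Y (Pi.single j (∑ i ∈ J, a i)) (Pi.single j (∑ i ∈ J, s i)) g' ∧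
      KM.map m g γ = KM.map m g' γ := by
  have hCM : C ≤ M := by rw [hM]; exact le_adj _ _
  induction J using Finset.induction_on with
  | empty =>
    refine ⟨RingHom.id M, RingHom.id M, ?_, ?_, rfl⟩
    · simp only [Finset.notMem_empty, if_false]
      exact IsH.id
    · simp only [Finset.sum_empty, Pi.single_zero]
      exact IsH.id
  | insert l J hl ih =>
    obtain ⟨g, g', hg, hg', e⟩ := ih
    obtain ⟨f, hf⟩ := exists_isH_single (p := p) h2 hX hY hM hι hιC l (a l) (s l)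
    obtain ⟨f', hf'⟩ := exists_isH_single (p := p) h2 hX hY hM hι hιC j (a l) (s l)
    refine ⟨f.comp g, f'.comp g', ?_, ?_, ?_⟩
    · have h1 := hf.comp hp4 hι hιC hCM hg
      convert h1 using 1
      · funext i
        by_cases hi : i = l
        · subst hi; simp [hl]
        · simp [hi]
      · funext i
        by_cases hi : i = l
        · subst hi; simp [hl]
        · simp [hi]
    · have h1 := hf'.comp hp4 hι hιC hCM hg'
      rw [Finset.sum_insert hl, Finset.sum_insert hl, Pi.single_add, Pi.single_add]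
      exact h1
    · rw [← KM.map_map, e, KM.map_map, hf.commute hM hp4 hι hιC hg', ← KM.map_map,
        hf.move hm h2 hX hY hM hι hιC hf' hu ho, KM.map_map,
        ← hf'.commute hM hp4 hι hιC hg']

/-- The action of the Frobenius on multi-odd unramified classes. -/
theorem theoremZ [hp : Fact p.Prime] [CharP Λ p] (hm : Odd m) (hpm : p.Coprime m)
    (h2 : (2 : Λ) ≠ 0) (hX : IndFam C X) (hY : ∀ j, Y j ^ 2 = X j ^ 3 - X j)
    (hM : M = adj C (Set.range X ∪ Set.range Y)) (hp4 : p % 4 = 1) (hι : ι ^ 2 = -1)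
    (hιC : ι ∈ C) (j : Fin n) (s : ℕ) (e : Fin n → ℕ) (σ : M →+* M)
    (σC : ∀ z : M, (z : Λ) ∈ C → σ z = z ^ p ^ s)
    (σX : ∀ i, ∀ z : M, (z : Λ) = X i → (σ z : Λ) = (-1) ^ e i * z)
    (σY : ∀ i, ∀ z : M, (z : Λ) = Y i → (σ z : Λ) = ι ^ e i * z)
    {γ : KM m M} (hu : Unr γ) (ho : MultiOdd C X Y γ)
    (hσ : KM.map m σ γ = p ^ s • γ) (fr : M →+* M) (hfr : ∀ z, fr z = z ^ p ^ s)
    (hfrγ : KM.map m fr γ = (p ^ s) ^ 3 • γ) {N : ℤ}
    (hN : ∀ ϖ : GaussianInt, ϖ.norm = p → (⟨2, 2⟩ : GaussianInt) ∣ ϖ - 1 →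
      (⟨0, 1⟩ ^ (∑ i, 3 * e i) * ϖ ^ (s * n) - (p : GaussianInt) ^ (2 * s)).norm ∣ N) :
    N • γ = 0 := by
  have hCM : C ≤ M := by rw [hM]; exact le_adj _ _
  have hXM : ∀ i, X i ∈ M := fun i => by rw [hM]; exact subset_adj _ _ (Or.inl ⟨i, rfl⟩)
  have hYM : ∀ i, Y i ∈ M := fun i => by rw [hM]; exact subset_adj _ _ (Or.inr ⟨i, rfl⟩)
  have hιM : ι ∈ M := hCM hιC
  obtain ⟨h, h', H, H', hh⟩ := exists_total hm h2 hX hY hM hp4 hι hιC (fun i => 3 * e i)
    (fun _ => s) j hu ho Finset.univ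
  simp only [Finset.mem_univ, if_true, Finset.sum_const, Finset.card_univ, Fintype.card_fin,
    smul_eq_mul] at H H'
  have hι4 : ι ^ 4 = 1 := by linear_combination (ι ^ 2 - 1) * hι
  have h1e : ∀ k : ℕ, (-1 : Λ) ^ (3 * k) * (-1) ^ k = 1 := by
    intro k
    rw [← pow_add, show 3 * k + k = 2 * (2 * k) by ring, pow_mul, neg_one_sq, one_pow]
  have hιe : ∀ k : ℕ, ι ^ (3 * k) * ι ^ k = 1 := by
    intro k
    rw [← pow_add, show 3 * k + k = 4 * k by ring, pow_mul, hι4, one_pow]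
  have σι : σ ⟨ι, hιM⟩ = ⟨ι, hιM⟩ := by
    rw [σC _ hιC]
    exact Subtype.ext (pow_iota hp4 hι s)
  have σX' : ∀ i, σ ⟨X i, hXM i⟩ = (-1) ^ e i * ⟨X i, hXM i⟩ := fun i =>
    Subtype.ext (by rw [σX i _ rfl]; push_cast; rfl)
  have σY' : ∀ i, σ ⟨Y i, hYM i⟩ = ⟨ι, hιM⟩ ^ e i * ⟨Y i, hYM i⟩ := fun i =>
    Subtype.ext (by rw [σY i _ rfl]; push_cast; rfl)
  -- the composition with `h` is the Frobenius
  have hcomp : σ.comp h = fr := by
    apply hom_gen_id hM
    · intro z hz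
      rw [RingHom.comp_apply, H.c z hz, σC z hz, hfr]
    · rintro z (⟨i, hi⟩ | ⟨i, hi⟩)
      · have h3 : h z = (-1) ^ (3 * e i) * ⟨X i, hXM i⟩ ^ p ^ s := by
          apply Subtype.ext
          rw [H.x i z hi.symm]
          push_cast
          rw [hi]
        have h4 : z = ⟨X i, hXM i⟩ := Subtype.ext hi.symm
        rw [RingHom.comp_apply, h3, map_mul, map_pow, map_pow, map_neg, map_one, σX', hfr, h4]
        apply Subtype.ext
        push_cast
        rw [mul_pow, neg_one_pow_pow hp4, ← mul_assoc, h1e, one_mul]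
      · have h3 : h z = ⟨ι, hιM⟩ ^ (3 * e i) * ⟨Y i, hYM i⟩ ^ p ^ s := by
          apply Subtype.ext
          rw [H.y i z hi.symm]
          push_cast
          rw [hi]
        have h4 : z = ⟨Y i, hYM i⟩ := Subtype.ext hi.symm
        rw [RingHom.comp_apply, h3, map_mul, map_pow, map_pow, σι, σY', hfr, h4]
        apply Subtype.ext
        push_cast
        rw [mul_pow, iota_pow_pow hp4 hι, ← mul_assoc, hιe, one_mul]
  -- `σ` commutes with `h'`
  have hcomm : σ.comp h' = h'.comp σ := by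
    apply hom_gen_id hM
    · intro z hz
      rw [RingHom.comp_apply, RingHom.comp_apply, H'.c z hz, σC z hz, map_pow, H'.c z hz]
    · rintro z (⟨i, hi⟩ | ⟨i, hi⟩)
      · have h4 : z = ⟨X i, hXM i⟩ := Subtype.ext hi.symm
        obtain ⟨A, B, hAB⟩ : ∃ A B : ℕ, h' ⟨X i, hXM i⟩ = (-1) ^ A * ⟨X i, hXM i⟩ ^ p ^ B :=
          ⟨_, _, Subtype.ext (by rw [H'.x i _ rfl]; push_cast; rfl)⟩
        rw [RingHom.comp_apply, RingHom.comp_apply, h4, σX', map_mul, map_pow, map_neg, map_one,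
          hAB, map_mul, map_pow, map_pow, map_neg, map_one, σX']
        apply Subtype.ext
        push_cast
        rw [mul_pow, neg_one_pow_pow hp4]
        ring
      · have h4 : z = ⟨Y i, hYM i⟩ := Subtype.ext hi.symm
        obtain ⟨A, B, hAB⟩ : ∃ A B : ℕ, h' ⟨Y i, hYM i⟩ = ⟨ι, hιM⟩ ^ A * ⟨Y i, hYM i⟩ ^ p ^ B :=
          ⟨_, _, Subtype.ext (by rw [H'.y i _ rfl]; push_cast; rfl)⟩
        have h5 : h' ⟨ι, hιM⟩ = ⟨ι, hιM⟩ := H'.c _ hιC
        rw [RingHom.comp_apply, RingHom.comp_apply, h4, σY', map_mul, map_pow, h5, hAB, map_mul,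
          map_pow, map_pow, σι, σY']
        apply Subtype.ext
        push_cast
        rw [mul_pow, iota_pow_pow hp4 hι]
        ring
  have hq : IsUnit ((p ^ s : ℕ) : ZMod m) := by
    rw [ZMod.isUnit_iff_coprime]
    exact Nat.Coprime.pow_left s hpm
  have e1 : (p ^ s) • KM.map m h' γ = (p ^ s) • ((p ^ (2 * s) : ℕ) • γ) := by
    have h3 : KM.map m (σ.comp h) γ = (p ^ s) ^ 3 • γ := by rw [hcomp, hfrγ]
    rw [← KM.map_map, hh, KM.map_map, hcomm, ← KM.map_map, hσ, map_nsmul] at h3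
    rw [h3, smul_smul]
    congr 1
    ring
  have e2 : KM.map m h' γ = (p ^ (2 * s) : ℕ) • γ := by
    obtain ⟨c, hc⟩ := hq
    have h3 : ∀ x : KM m M, ((c⁻¹ : (ZMod m)ˣ) : ZMod m) • ((p ^ s) • x) = x := by
      intro x
      rw [← Nat.cast_smul_eq_nsmul (ZMod m), ← hc, smul_smul, Units.inv_mul, one_smul]
    rw [← h3 (KM.map m h' γ), e1, h3]
  obtain ⟨K, hK⟩ : ∃ K, K = adj C (X '' {i | i ≠ j} ∪ Y '' {i | i ≠ j}) := ⟨_, rfl⟩
  have hCK : C ≤ K := by rw [hK]; exact le_adj _ _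
  have fixK : ∀ z : M, (z : Λ) ∈ K → h' z = z := by
    intro z hz
    apply of_mem_fixF
    have h3 : K ≤ fixF h' := by
      rw [hK]
      apply adj_le
      · intro z hz
        exact mem_fixF (z := ⟨z, hCM hz⟩) (H'.c _ hz)
      · rintro z (⟨i, hi, rfl⟩ | ⟨i, hi, rfl⟩)
        · refine mem_fixF (z := ⟨X i, hXM i⟩) (Subtype.ext ?_)
          rw [H'.x i _ rfl, Pi.single_eq_of_ne hi, Pi.single_eq_of_ne hi]
          ring
        · refine mem_fixF (z := ⟨Y i, hYM i⟩) (Subtype.ext ?_)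
          rw [H'.y i _ rfl, Pi.single_eq_of_ne hi, Pi.single_eq_of_ne hi]
          ring
    exact h3 hz
  have hoK : OddAt K (Y j) {X j} γ := by
    intro g g1 g2 g3
    apply ho j g (fun z hz => g1 z (hCK hz)) _ g3
    rintro z (⟨i, hi⟩ | ⟨i, hij, hi⟩)
    · by_cases h1 : i = j
      · subst h1; exact g2 z (by rw [← hi]; rfl)
      · exact g1 z (by rw [← hi, hK]; exact subset_adj _ _ (Or.inl ⟨i, h1, rfl⟩))
    · exact g1 z (by rw [← hi, hK]; exact subset_adj _ _ (Or.inr ⟨i, hij, rfl⟩))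
  refine single_norm hm hp4 h2 hι (hCK hιC) (family_single_fact hX hY j K hK) (hY j)
    (family_single_M hM j K hK) hu hoK (∑ i, 3 * e i) (n * s) h' fixK ?_ ?_
    ((p : ℤ) ^ (2 * s)) ?_ ?_
  · intro z hz
    rw [H'.x j z hz, Pi.single_eq_same, Pi.single_eq_same]
  · intro z hz
    rw [H'.y j z hz, Pi.single_eq_same, Pi.single_eq_same]
  · rw [e2, ← natCast_zsmul]
    push_cast; rfl
  · intro ϖ n1 n2
    have := hN ϖ n1 n2
    rw [mul_comm s n] at this
    push_cast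
    exact this

end family

end UnrH3
end
end

section

/-!
# Points in subfields of a fixed field, all coefficients
-/

namespace UnrA

universe u v w z

open Polynomial WeierstrassCurve
open scoped Classical
open UnrH3 (IsQuad GoodW Pt FF F2 i2 P2 Q2 ptX ptY ptMap Gen Ind InCl liftPt lift2 base gpt gx gy
  NatEnd gen_gpt range_in_cl cl subset_cl adj le_adj subset_adj frobEnd ind_P2_Q2 ptX_neg
  ptX_gpt ptY_gpt lift2_P2 lift2_Q2 pair_exists pair_spec exists_pair_iso liftPt_P2 ptX_map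
  ptY_map)
open UnrH3.Ell (EllW PtF OnW exists_single_iso single_exists single_spec fr_ptX fr_ptY tr
  exists_pair ptY_neg)

variable {m : UFun.{u, z}} {Λ : Type u} [Field Λ]

/-- The class `γ` is odd at the variable `y`. -/
def OddAt {m : UFun.{u, z}} (K : Subfield Λ) {M : Subfield Λ} (y : Λ) (T : Set Λ) (γ : KM m M) : Prop :=
  ∀ g : M →+* M, (∀ z : M, (z : Λ) ∈ K → g z = z) → (∀ z : M, (z : Λ) ∈ T → g z = z) →
    (∀ z : M, (z : Λ) = y → g z = -z) → KM.map m g γ = -γ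

section frob

variable {K M : Subfield Λ} {W : WeierstrassCurve K} [hE : EllW W] {x₁ y₁ : Λ} {p : ℕ}
  [hp : Fact p.Prime] [CharP Λ p] [hpK : CharP K p] {s : ℕ}
  (hW : ∀ x ∈ ({W.a₁, W.a₂, W.a₃, W.a₄, W.a₆} : Set K), x ^ p ^ s = x)

omit [CharP Λ p] in
include hW in
/-- The characteristic equation of the Frobenius substitution. -/
theorem single_char (hs : 0 < s) (hx₁ : x₁ ∉ cl (K : Set Λ))
    (h₁ : OnW W x₁ y₁) (hM : M = adj K {x₁, y₁}) {γ : KM m M} (hu : Unr γ)
    (ho : OddAt K y₁ {x₁} γ) (g : M →+* M) (g1 : ∀ z : M, (z : Λ) ∈ K → g z = z)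
    (g2 : ∀ z : M, (z : Λ) = x₁ → g z = z ^ p ^ s)
    (g3 : ∀ z : M, (z : Λ) = y₁ → g z = z ^ p ^ s) :
    KM.map m g (KM.map m g γ) - tr hW K • KM.map m g γ + ((p : ℤ) ^ s) • γ ∈ tor 1024 _ := by
  obtain ⟨fM, e, hef, hfe, hb, hx, hy⟩ := exists_single_iso hx₁ h₁ hM
  have hback : ∀ δ : KM m M, KM.map m fM (KM.map m e δ) = δ := by
    intro δ
    rw [KM.map_map, hfe, KM.map_id]
    rfl
  have hodd : OddCl (KM.map m e γ) := by
    obtain ⟨g', g'1, g'2, g'3⟩ := single_exists fM e hef hb hx hy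
      (A := -gpt W K) gen_gpt.neg
    have hs := single_spec fM e hef hfe hb hx hy hM gen_gpt.neg g' g'1 g'2 g'3
    have hg' : KM.map m g' γ = -γ := by
      apply ho g' g'1
      · intro z hz
        apply Subtype.ext
        rw [g'2 z hz, ptX_neg, ptX_gpt, hx]
        exact (Set.mem_singleton_iff.mp hz).symm
      · intro z hz
        apply Subtype.ext
        rw [g'3 z hz, ptY_neg, ptY_gpt, map_neg]
        push_cast
        rw [hy, hz]
    unfold OddCl UnrH3.nu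
    rw [KM.map_map, ← hs, ← KM.map_map, hg', map_neg]
  obtain ⟨A, hA⟩ : ∃ A : PtF W K, A = (frobEnd W p s hW).toFun _ (gpt W K) := ⟨_, rfl⟩
  have hgen : Gen (base W K) A := by
    intro h'
    rw [hA] at h'
    exact gen_gpt (((frobEnd W p s hW).inCl _ _ (range_in_cl _) _).mp h')
  have hAx : (fM (ptX A) : Λ) = x₁ ^ p ^ s := by
    rw [hA, fr_ptX, ptX_gpt, map_pow]
    push_cast
    rw [hx]
  have hAy : (fM (ptY A) : Λ) = y₁ ^ p ^ s := by
    rw [hA, fr_ptY, ptY_gpt, map_pow]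
    push_cast
    rw [hy]
  have hs' := single_spec fM e hef hfe hb hx hy hM hgen g g1
    (fun z hz => by rw [g2 z hz, hAx]; push_cast; rw [hz])
    (fun z hz => by rw [g3 z hz, hAy]; push_cast; rw [hz])
  have hev : ∀ δ : KM m M, KM.map m e (KM.map m g δ) = ev (base W K) A (KM.map m e δ) := by
    intro δ
    rw [ev_of_gen hgen, KM.map_map, hs', ← KM.map_map]
  have key := one_var_char hW hs (hu.map e) hodd
  rw [← hA] at key
  have k0 : KM.map m e (KM.map m g (KM.map m g γ) - tr hW K • KM.map m g γ +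
      ((p : ℤ) ^ s) • γ) ∈ tor 1024 _ := by
    rw [map_add, map_sub, map_zsmul, map_zsmul, hev, hev]
    exact key
  have k2 := tor_map (KM.map m fM) k0
  have k3 := hback (KM.map m g (KM.map m g γ) - tr hW K • KM.map m g γ + ((p : ℤ) ^ s) • γ)
  rw [← k3]
  exact k2

end frob

section pair

variable {K M : Subfield Λ} {W : WeierstrassCurve K} [hE : EllW W] {x₁ y₁ x₂ y₂ : Λ}

lemma ev2_neg_Q2 {K' : Type u} [Field K'] {S : Type v} [Field S] [Algebra S K']
    {W : WeierstrassCurve S} [GoodW W] (α : KM m (F2 W K')) :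
    ev2 (i2 W K') (P2 W K') (-Q2 W K') α =
      KM.map m (UnrH3.nu W (FF W K') : F2 W K' →+* F2 W K') α := by
  have h6 : ev2 (i2 W K') (P2 W K') (-Q2 W K') α =
      ev (base W (FF W K')) (-gpt W (FF W K')) α := by
    rw [ev2_eq_ev (ind_P2_Q2 W K').neg_right, liftPt_P2]
    rfl
  rw [h6, ev_neg_pt, ev_self]

/-- Oddness of the transported class. -/
lemma pair_odd {P Q : Pt W Λ} (hPQ : Ind (Algebra.ofId K Λ) P Q)
    (fM : F2 W K →+* M) (e : M →+* F2 W K) (hef : e.comp fM = RingHom.id _)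
    (hfe : fM.comp e = RingHom.id _)
    (hf : ∀ z, (fM z : Λ) = lift2 (Algebra.ofId K Λ) P Q hPQ z)
    (hP1 : ptX P = x₁) (hP2 : ptY P = y₁) (hQ1 : ptX Q = x₂) (hQ2 : ptY Q = y₂)
    (hM' : M = adj K {ptX P, ptY P, ptX Q, ptY Q}) {γ : KM m M}
    (ho₁ : OddAt K y₁ {x₁, x₂, y₂} γ) (ho₂ : OddAt K y₂ {x₁, y₁, x₂} γ) :
    Odd1 (KM.map m e γ) ∧ OddCl (KM.map m e γ) := by
  have hfPx : (fM (ptX (P2 W K)) : Λ) = x₁ := by rw [hf, ← ptX_map, lift2_P2, hP1]
  have hfPy : (fM (ptY (P2 W K)) : Λ) = y₁ := by rw [hf, ← ptY_map, lift2_P2, hP2]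
  have hfQx : (fM (ptX (Q2 W K)) : Λ) = x₂ := by rw [hf, ← ptX_map, lift2_Q2, hQ1]
  have hfQy : (fM (ptY (Q2 W K)) : Λ) = y₂ := by rw [hf, ← ptY_map, lift2_Q2, hQ2]
  have hind := ind_P2_Q2 W K
  refine ⟨?_, ?_⟩
  · unfold Odd1
    obtain ⟨g', g'1, g'2, g'3, g'4, g'5⟩ := pair_exists hPQ fM e hef hfe hf hind.neg_left
    have hs := pair_spec hPQ fM e hef hfe hf hM' hind.neg_left g' g'1 g'2 g'3 g'4 g'5
    have hg' : KM.map m g' γ = -γ := by
      apply ho₁ g' g'1
      · rintro z (hz | hz | hz)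
        · apply Subtype.ext
          rw [g'2 z (hz.trans hP1.symm), ptX_neg, hfPx, hz]
        · apply Subtype.ext
          rw [g'4 z (hz.trans hQ1.symm), hfQx, hz]
        · apply Subtype.ext
          rw [Set.mem_singleton_iff] at hz
          rw [g'5 z (hz.trans hQ2.symm), hfQy, hz]
      · intro z hz
        apply Subtype.ext
        rw [g'3 z (hz.trans hP2.symm), ptY_neg, map_neg]
        change -(fM (ptY (P2 W K)) : Λ) = -(z : Λ)
        rw [hfPy, hz]
    rw [ev2_of_ind hind.neg_left, KM.map_map, ← hs, ← KM.map_map, hg', map_neg]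
  · unfold OddCl
    obtain ⟨g', g'1, g'2, g'3, g'4, g'5⟩ := pair_exists hPQ fM e hef hfe hf hind.neg_right
    have hs := pair_spec hPQ fM e hef hfe hf hM' hind.neg_right g' g'1 g'2 g'3 g'4 g'5
    have hg' : KM.map m g' γ = -γ := by
      apply ho₂ g' g'1
      · rintro z (hz | hz | hz)
        · apply Subtype.ext
          rw [g'2 z (hz.trans hP1.symm), hfPx, hz]
        · apply Subtype.ext
          rw [g'3 z (hz.trans hP2.symm), hfPy, hz]
        · apply Subtype.ext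
          rw [Set.mem_singleton_iff] at hz
          rw [g'4 z (hz.trans hQ1.symm), ptX_neg, hfQx, hz]
      · intro z hz
        apply Subtype.ext
        rw [g'5 z (hz.trans hQ2.symm), ptY_neg, map_neg]
        change -(fM (ptY (Q2 W K)) : Λ) = -(z : Λ)
        rw [hfQy, hz]
    rw [← ev2_neg_Q2, ev2_of_ind hind.neg_right, KM.map_map, ← hs, ← KM.map_map, hg',
      map_neg]

variable (hx₁ : x₁ ∉ cl (K : Set Λ))
    (hx₂ : x₂ ∉ cl (insert x₁ (K : Set Λ))) (h₁ : OnW W x₁ y₁) (h₂ : OnW W x₂ y₂)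
    (hM : M = adj K {x₁, y₁, x₂, y₂})

include hx₁ hx₂ h₁ h₂ hM

/-- Frobenius in the first variable and Frobenius in the second variable. -/
theorem frob_pair {p : ℕ} [hp : Fact p.Prime] [hpK : CharP K p] (s : ℕ)
    (hW : ∀ x ∈ ({W.a₁, W.a₂, W.a₃, W.a₄, W.a₆} : Set K), x ^ p ^ s = x) (g g' : M →+* M)
    (g1 : ∀ z : M, (z : Λ) ∈ K → g z = z) (g2 : ∀ z : M, (z : Λ) = x₁ → g z = z ^ p ^ s)
    (g3 : ∀ z : M, (z : Λ) = y₁ → g z = z ^ p ^ s) (g4 : ∀ z : M, (z : Λ) = x₂ → g z = z)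
    (g5 : ∀ z : M, (z : Λ) = y₂ → g z = z) (g'1 : ∀ z : M, (z : Λ) ∈ K → g' z = z)
    (g'2 : ∀ z : M, (z : Λ) = x₁ → g' z = z) (g'3 : ∀ z : M, (z : Λ) = y₁ → g' z = z)
    (g'4 : ∀ z : M, (z : Λ) = x₂ → g' z = z ^ p ^ s)
    (g'5 : ∀ z : M, (z : Λ) = y₂ → g' z = z ^ p ^ s) {γ : KM m M} (hu : Unr γ)
    (ho₁ : OddAt K y₁ {x₁, x₂, y₂} γ) (ho₂ : OddAt K y₂ {x₁, y₁, x₂} γ) :
    KM.map m g γ - KM.map m g' γ ∈ tor 64 _ := by
  obtain ⟨P, Q, hP1, hP2, hQ1, hQ2, hPQ⟩ := exists_pair hx₁ hx₂ h₁ h₂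
  have hM' : M = adj K {ptX P, ptY P, ptX Q, ptY Q} := by rw [hP1, hP2, hQ1, hQ2]; exact hM
  obtain ⟨fM, e, hef, hfe, hf⟩ := exists_pair_iso hPQ hM'
  have hfPx : (fM (ptX (P2 W K)) : Λ) = x₁ := by rw [hf, ← ptX_map, lift2_P2, hP1]
  have hfPy : (fM (ptY (P2 W K)) : Λ) = y₁ := by rw [hf, ← ptY_map, lift2_P2, hP2]
  have hfQx : (fM (ptX (Q2 W K)) : Λ) = x₂ := by rw [hf, ← ptX_map, lift2_Q2, hQ1]
  have hfQy : (fM (ptY (Q2 W K)) : Λ) = y₂ := by rw [hf, ← ptY_map, lift2_Q2, hQ2]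
  have hind := ind_P2_Q2 W K
  obtain ⟨φ, hφ⟩ : ∃ φ, φ = frobEnd.{u} W p s hW := ⟨_, rfl⟩
  have hφX : ∀ R : Pt W (F2 W K), ptX (φ.toFun _ R) = ptX R ^ p ^ s := by
    intro R
    rw [hφ, fr_ptX]
  have hφY : ∀ R : Pt W (F2 W K), ptY (φ.toFun _ R) = ptY R ^ p ^ s := by
    intro R
    rw [hφ, fr_ptY]
  obtain ⟨hα1, hα2⟩ := pair_odd hPQ fM e hef hfe hf hP1 hP2 hQ1 hQ2 hM' ho₁ ho₂
  have hαu : Unr (KM.map m e γ) := hu.map _
  have hback : ∀ δ : KM m M, KM.map m fM (KM.map m e δ) = δ := by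
    intro δ
    rw [KM.map_map, hfe, KM.map_id]
    rfl
  have hA := φ.ind_left hind
  have hB := φ.ind_right hind
  have hs := pair_spec hPQ fM e hef hfe hf hM' hA g g1
    (fun z hz => by
      rw [g2 z (hz.trans hP1), hφX, map_pow]
      change (z : Λ) ^ p ^ s = (fM (ptX (P2 W K)) : Λ) ^ p ^ s
      rw [hfPx, hz, hP1])
    (fun z hz => by
      rw [g3 z (hz.trans hP2), hφY, map_pow]
      change (z : Λ) ^ p ^ s = (fM (ptY (P2 W K)) : Λ) ^ p ^ s
      rw [hfPy, hz, hP2])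
    (fun z hz => by rw [g4 z (hz.trans hQ1), hfQx, hz, hQ1])
    (fun z hz => by rw [g5 z (hz.trans hQ2), hfQy, hz, hQ2])
  have hs' := pair_spec hPQ fM e hef hfe hf hM' hB g' g'1
    (fun z hz => by rw [g'2 z (hz.trans hP1), hfPx, hz, hP1])
    (fun z hz => by rw [g'3 z (hz.trans hP2), hfPy, hz, hP2])
    (fun z hz => by
      rw [g'4 z (hz.trans hQ1), hφX, map_pow]
      change (z : Λ) ^ p ^ s = (fM (ptX (Q2 W K)) : Λ) ^ p ^ s
      rw [hfQx, hz, hQ1])
    (fun z hz => by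
      rw [g'5 z (hz.trans hQ2), hφY, map_pow]
      change (z : Λ) ^ p ^ s = (fM (ptY (Q2 W K)) : Λ) ^ p ^ s
      rw [hfQy, hz, hQ2])
  have h3 := bal φ hαu hα1 hα2 hind
  rw [ev2_of_ind hA, ev2_of_ind hB, KM.map_map, KM.map_map, ← hs, ← hs', ← KM.map_map,
    ← KM.map_map, ← map_sub] at h3
  have k2 := tor_map (KM.map m fM) h3
  rw [← hback (KM.map m g γ - KM.map m g' γ)]
  exact k2

/-- The exchange of the two points acts by `-1`. -/
theorem swap_pair (g : M →+* M)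
    (g1 : ∀ z : M, (z : Λ) ∈ K → g z = z) (g2 : ∀ z : M, (z : Λ) = x₁ → (g z : Λ) = x₂)
    (g3 : ∀ z : M, (z : Λ) = y₁ → (g z : Λ) = y₂) (g4 : ∀ z : M, (z : Λ) = x₂ → (g z : Λ) = x₁)
    (g5 : ∀ z : M, (z : Λ) = y₂ → (g z : Λ) = y₁) {γ : KM m M} (hu : Unr γ)
    (ho₁ : OddAt K y₁ {x₁, x₂, y₂} γ) (ho₂ : OddAt K y₂ {x₁, y₁, x₂} γ) :
    KM.map m g γ + γ ∈ tor 64 _ := by
  obtain ⟨P, Q, hP1, hP2, hQ1, hQ2, hPQ⟩ := exists_pair hx₁ hx₂ h₁ h₂
  have hM' : M = adj K {ptX P, ptY P, ptX Q, ptY Q} := by rw [hP1, hP2, hQ1, hQ2]; exact hM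
  obtain ⟨fM, e, hef, hfe, hf⟩ := exists_pair_iso hPQ hM'
  have hfPx : (fM (ptX (P2 W K)) : Λ) = x₁ := by rw [hf, ← ptX_map, lift2_P2, hP1]
  have hfPy : (fM (ptY (P2 W K)) : Λ) = y₁ := by rw [hf, ← ptY_map, lift2_P2, hP2]
  have hfQx : (fM (ptX (Q2 W K)) : Λ) = x₂ := by rw [hf, ← ptX_map, lift2_Q2, hQ1]
  have hfQy : (fM (ptY (Q2 W K)) : Λ) = y₂ := by rw [hf, ← ptY_map, lift2_Q2, hQ2]
  have hind := ind_P2_Q2 W K
  obtain ⟨hα1, hα2⟩ := pair_odd hPQ fM e hef hfe hf hP1 hP2 hQ1 hQ2 hM' ho₁ ho₂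
  have hαu : Unr (KM.map m e γ) := hu.map _
  have hback : ∀ δ : KM m M, KM.map m fM (KM.map m e δ) = δ := by
    intro δ
    rw [KM.map_map, hfe, KM.map_id]
    rfl
  have hs := pair_spec hPQ fM e hef hfe hf hM' hind.symm g g1
    (fun z hz => by rw [g2 z (hz.trans hP1), hfQx])
    (fun z hz => by rw [g3 z (hz.trans hP2), hfQy])
    (fun z hz => by rw [g4 z (hz.trans hQ1), hfPx])
    (fun z hz => by rw [g5 z (hz.trans hQ2), hfPy])
  have h3 := alt hαu hα1 hα2 hind
  rw [ev2_self, ev2_of_ind hind.symm, KM.map_map, ← hs, ← KM.map_map, ← map_add] at h3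
  have k2 := tor_map (KM.map m fM) h3
  rw [← hback (KM.map m g γ + γ)]
  exact k2

end pair

section swap

variable {K M : Subfield Λ} {W : WeierstrassCurve K} {x₁ y₁ x₂ y₂ : Λ}

/-- The exchange of the two points exists. -/
theorem swap_exists [EllW W] (hx₁ : x₁ ∉ cl (K : Set Λ))
    (hx₂ : x₂ ∉ cl (insert x₁ (K : Set Λ))) (h₁ : OnW W x₁ y₁) (h₂ : OnW W x₂ y₂)
    (hM : M = adj K {x₁, y₁, x₂, y₂}) : ∃ g : M →+* M,
    (∀ z : M, (z : Λ) ∈ K → g z = z) ∧ (∀ z : M, (z : Λ) = x₁ → (g z : Λ) = x₂) ∧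
    (∀ z : M, (z : Λ) = y₁ → (g z : Λ) = y₂) ∧ (∀ z : M, (z : Λ) = x₂ → (g z : Λ) = x₁) ∧
    (∀ z : M, (z : Λ) = y₂ → (g z : Λ) = y₁) := by
  obtain ⟨P, Q, hP1, hP2, hQ1, hQ2, hPQ⟩ := exists_pair hx₁ hx₂ h₁ h₂
  have hM' : M = adj K {ptX P, ptY P, ptX Q, ptY Q} := by rw [hP1, hP2, hQ1, hQ2]; exact hM
  obtain ⟨fM, e, hef, hfe, hf⟩ := exists_pair_iso hPQ hM'
  have hfPx : (fM (ptX (P2 W K)) : Λ) = x₁ := by rw [hf, ← ptX_map, lift2_P2, hP1]
  have hfPy : (fM (ptY (P2 W K)) : Λ) = y₁ := by rw [hf, ← ptY_map, lift2_P2, hP2]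
  have hfQx : (fM (ptX (Q2 W K)) : Λ) = x₂ := by rw [hf, ← ptX_map, lift2_Q2, hQ1]
  have hfQy : (fM (ptY (Q2 W K)) : Λ) = y₂ := by rw [hf, ← ptY_map, lift2_Q2, hQ2]
  have hind := ind_P2_Q2 W K
  obtain ⟨g, g1, g2, g3, g4, g5⟩ := pair_exists hPQ fM e hef hfe hf hind.symm
  exact ⟨g, g1, fun z hz => by rw [g2 z (hz.trans hP1.symm), hfQx],
    fun z hz => by rw [g3 z (hz.trans hP2.symm), hfQy],
    fun z hz => by rw [g4 z (hz.trans hQ1.symm), hfPx],
    fun z hz => by rw [g5 z (hz.trans hQ2.symm), hfPy]⟩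

end swap

end UnrA
end

section

/-!
# Families of independent points of elliptic curves over a finite field
-/

namespace UnrH3.Ell

universe u v w

open Polynomial WeierstrassCurve
open scoped Classical

variable {m : ℕ} {Λ : Type u} [Field Λ] {n : ℕ}

/-- Independent points of elliptic curves over a finite field. -/
structure Fam {κ : Type w} [Field κ] (j : κ →+* Λ) (C : Subfield Λ) (a b c : Fin n → κ)
    (X Y : Fin n → Λ) : Prop where
  two : (2 : κ) ≠ 0
  disc : ∀ i, a i ^ 2 * b i ^ 2 - 4 * b i ^ 3 - 4 * a i ^ 3 * c i +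
    18 * a i * b i * c i - 27 * c i ^ 2 ≠ 0
  jC : ∀ z, j z ∈ C
  ind : IndFam C X
  hY : ∀ i, Y i ^ 2 = X i ^ 3 + j (a i) * X i ^ 2 + j (b i) * X i + j (c i)

/-- The curve. -/
def crv {κ : Type w} [Field κ] {K : Type u} [Field K] (j : κ →+* K) (a b c : κ) :
    WeierstrassCurve K := ⟨0, j a, 0, j b, j c⟩

lemma crv_ell {κ : Type w} [Field κ] {K : Type u} [Field K] (j : κ →+* K) {a b c : κ}
    (h2 : (2 : κ) ≠ 0) (hd : a ^ 2 * b ^ 2 - 4 * b ^ 3 - 4 * a ^ 3 * c +
      18 * a * b * c - 27 * c ^ 2 ≠ 0) : EllW (crv j a b c) where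
  a1 := rfl
  a3 := rfl
  two := by
    rw [← map_ofNat j 2, Ne, map_eq_zero]; exact h2
  disc := by
    change j a ^ 2 * j b ^ 2 - 4 * j b ^ 3 - 4 * j a ^ 3 * j c + 18 * j a * j b * j c -
      27 * j c ^ 2 ≠ 0
    intro h
    apply hd
    apply j.injective
    rw [map_zero, ← h]
    simp only [map_add, map_sub, map_mul, map_pow, map_ofNat]

lemma crv_frob {κ : Type w} [Field κ] [Fintype κ] {K : Type u} [Field K] (j : κ →+* K)
    {a b c : κ} {p s : ℕ} (hcard : Fintype.card κ = p ^ s) :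
    ∀ x ∈ ({(crv j a b c).a₁, (crv j a b c).a₂, (crv j a b c).a₃, (crv j a b c).a₄,
      (crv j a b c).a₆} : Set K), x ^ p ^ s = x := by
  have h1 : ∀ z : κ, j z ^ p ^ s = j z := by
    intro z
    rw [← map_pow, ← hcard, FiniteField.pow_card]
  have h0 : (0 : K) ^ p ^ s = 0 := by
    have := h1 0
    rwa [map_zero] at this
  rintro x (rfl | rfl | rfl | rfl | rfl)
  · exact h0
  · exact h1 a
  · exact h0
  · exact h1 b
  · exact h1 c

/-- The Frobenius in the variables in `J`. -/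
structure IsFr (Q : ℕ) (C : Subfield Λ) (X Y : Fin n → Λ) {M : Subfield Λ} (J : Finset (Fin n))
    (g : M →+* M) : Prop where
  c : ∀ z : M, (z : Λ) ∈ C → g z = z
  x : ∀ i, ∀ z : M, (z : Λ) = X i → g z = if i ∈ J then z ^ Q else z
  y : ∀ i, ∀ z : M, (z : Λ) = Y i → g z = if i ∈ J then z ^ Q else z

section fam

variable {C M : Subfield Λ} {X Y : Fin n → Λ} {Q : ℕ}

lemma IsFr.unique (hM : M = adj C (Set.range X ∪ Set.range Y)) {J : Finset (Fin n)}
    {g g' : M →+* M} (h : IsFr Q C X Y J g) (h' : IsFr Q C X Y J g') : g = g' := by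
  apply hom_gen_id hM
  · intro z hz
    rw [h.c z hz, h'.c z hz]
  · rintro z (⟨i, hi⟩ | ⟨i, hi⟩)
    · rw [h.x i z hi.symm, h'.x i z hi.symm]
    · rw [h.y i z hi.symm, h'.y i z hi.symm]

lemma IsFr.id : IsFr Q C X Y ∅ (RingHom.id M) where
  c _ _ := rfl
  x i z _ := by simp
  y i z _ := by simp

lemma IsFr.commute (hM : M = adj C (Set.range X ∪ Set.range Y)) {J J' : Finset (Fin n)}
    {g g' : M →+* M} (h : IsFr Q C X Y J g) (h' : IsFr Q C X Y J' g') :
    g.comp g' = g'.comp g := by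
  apply hom_gen_id hM
  · intro z hz
    rw [RingHom.comp_apply, RingHom.comp_apply, h.c z hz, h'.c z hz, h.c z hz]
  · rintro z (⟨i, hi⟩ | ⟨i, hi⟩)
    · rw [RingHom.comp_apply, RingHom.comp_apply, h.x i z hi.symm, h'.x i z hi.symm]
      split_ifs <;> simp only [map_pow, h.x i z hi.symm, h'.x i z hi.symm] <;>
        (try rw [if_pos (by assumption)]) <;> (try rw [if_neg (by assumption)]) <;>
        (try rw [if_pos (by assumption)]) <;> (try rw [if_neg (by assumption)])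
    · rw [RingHom.comp_apply, RingHom.comp_apply, h.y i z hi.symm, h'.y i z hi.symm]
      split_ifs <;> simp only [map_pow, h.y i z hi.symm, h'.y i z hi.symm] <;>
        (try rw [if_pos (by assumption)]) <;> (try rw [if_neg (by assumption)]) <;>
        (try rw [if_pos (by assumption)]) <;> (try rw [if_neg (by assumption)])

lemma IsFr.comp_insert {J : Finset (Fin n)} {l : Fin n} (hl : l ∉ J)
    {g g' : M →+* M} (h : IsFr Q C X Y {l} g) (h' : IsFr Q C X Y J g') :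
    IsFr Q C X Y (insert l J) (g.comp g') where
  c z hz := by rw [RingHom.comp_apply, h'.c z hz, h.c z hz]
  x i z hz := by
    rw [RingHom.comp_apply, h'.x i z hz]
    by_cases hil : i = l
    · subst hil
      rw [if_neg hl, h.x i z hz, if_pos (Finset.mem_singleton_self i),
        if_pos (Finset.mem_insert_self i J)]
    · by_cases hiJ : i ∈ J
      · rw [if_pos hiJ, map_pow, h.x i z hz, if_neg (by simpa using hil),
          if_pos (Finset.mem_insert_of_mem hiJ)]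
      · rw [if_neg hiJ, h.x i z hz, if_neg (by simpa using hil), if_neg (by
          rw [Finset.mem_insert]; tauto)]
  y i z hz := by
    rw [RingHom.comp_apply, h'.y i z hz]
    by_cases hil : i = l
    · subst hil
      rw [if_neg hl, h.y i z hz, if_pos (Finset.mem_singleton_self i),
        if_pos (Finset.mem_insert_self i J)]
    · by_cases hiJ : i ∈ J
      · rw [if_pos hiJ, map_pow, h.y i z hz, if_neg (by simpa using hil),
          if_pos (Finset.mem_insert_of_mem hiJ)]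
      · rw [if_neg hiJ, h.y i z hz, if_neg (by simpa using hil), if_neg (by
          rw [Finset.mem_insert]; tauto)]

/-- The Frobenius preserves odd classes. -/
lemma IsFr.multiOdd (hM : M = adj C (Set.range X ∪ Set.range Y)) (hQ : Odd Q)
    {J : Finset (Fin n)} {g : M →+* M} (h : IsFr Q C X Y J g) {γ : KM m M}
    (ho : MultiOdd C X Y γ) : MultiOdd C X Y (KM.map m g γ) := by
  intro j g' g1 g2 g3
  have h1 : g'.comp g = g.comp g' := by
    apply hom_gen_id hM
    · intro z hz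
      rw [RingHom.comp_apply, RingHom.comp_apply, h.c z hz, g1 z hz, h.c z hz]
    · rintro z (⟨i, hi⟩ | ⟨i, hi⟩)
      · have h3 : g' z = z := g2 z (Or.inl ⟨i, hi⟩)
        rw [RingHom.comp_apply, RingHom.comp_apply, h3, h.x i z hi.symm]
        split_ifs
        · rw [map_pow, h3]
        · exact h3
      · by_cases hij : i = j
        · subst hij
          have h3 : g' z = -z := g3 z hi.symm
          rw [RingHom.comp_apply, RingHom.comp_apply, h3, map_neg, h.y i z hi.symm]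
          split_ifs
          · rw [map_pow, h3, hQ.neg_pow]
          · exact h3
        · have h3 : g' z = z := g2 z (Or.inr ⟨i, hij, hi⟩)
          rw [RingHom.comp_apply, RingHom.comp_apply, h3, h.y i z hi.symm]
          split_ifs
          · rw [map_pow, h3]
          · exact h3
  rw [KM.map_map, h1, ← KM.map_map, ho j g' g1 g2 g3, map_neg]

end fam

section fam

variable {κ : Type w} [Field κ] {j : κ →+* Λ} {C M : Subfield Λ} {a b c : Fin n → κ}
  {X Y : Fin n → Λ}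

lemma Fam.mem_cl (F : Fam j C a b c X Y) {T : Set Λ} (hC : (C : Set Λ) ⊆ cl T) {i : Fin n}
    (hi : X i ∈ cl T) : Y i ∈ cl T := by
  apply mem_cl_of_pow (n := 2) (by norm_num)
  rw [F.hY]
  exact add_mem (add_mem (add_mem (pow_mem hi 3) (mul_mem (hC (F.jC _)) (pow_mem hi 2)))
    (mul_mem (hC (F.jC _)) hi)) (hC (F.jC _))

lemma Fam.mono (F : Fam j C a b c X Y) {C' : Subfield Λ} (hj : ∀ z, j z ∈ C')
    (h : C' ≤ UnrH3.cl (C : Set Λ)) : Fam j C' a b c X Y where
  two := F.two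
  disc := F.disc
  jC := hj
  ind i hi := by
    apply F.ind i
    refine cl_le ?_ hi
    rintro z (hz | hz)
    · exact cl_mono Set.subset_union_left (h hz)
    · exact subset_cl _ (Or.inr hz)
  hY := F.hY

lemma Fam.fact (F : Fam j C a b c X Y) (i l : Fin n) (hil : i ≠ l) (K : Subfield Λ)
    (hK : K = adj C (X '' {t | t ≠ i ∧ t ≠ l} ∪ Y '' {t | t ≠ i ∧ t ≠ l})) :
    X i ∉ UnrH3.cl (K : Set Λ) ∧ X l ∉ UnrH3.cl (insert (X i) (K : Set Λ)) := by
  have hKcl : ∀ T : Set Λ, (C : Set Λ) ⊆ UnrH3.cl T → (∀ t, t ≠ i → t ≠ l → X t ∈ UnrH3.cl T) →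
      (K : Set Λ) ⊆ UnrH3.cl T := by
    intro T hC hT
    have : K ≤ UnrH3.cl T := by
      rw [hK]
      apply adj_le hC
      rintro z (⟨t, ⟨h1, h2⟩, rfl⟩ | ⟨t, ⟨h1, h2⟩, rfl⟩)
      · exact hT t h1 h2
      · exact F.mem_cl hC (hT t h1 h2)
    exact this
  refine ⟨fun h => F.ind i (cl_le (hKcl _ (fun z hz => subset_cl _ (Or.inl hz)) ?_) h),
    fun h => F.ind l (cl_le ?_ h)⟩
  · intro t h1 _
    exact subset_cl _ (Or.inr ⟨t, h1, rfl⟩)
  · rintro z (rfl | hz)
    · exact subset_cl _ (Or.inr ⟨i, hil, rfl⟩)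
    · exact hKcl _ (fun z hz => subset_cl _ (Or.inl hz))
        (fun t _ h2 => subset_cl _ (Or.inr ⟨t, h2, rfl⟩)) hz

lemma Fam.single_fact (F : Fam j C a b c X Y) (i : Fin n)
    (K : Subfield Λ) (hK : K = adj C (X '' {t | t ≠ i} ∪ Y '' {t | t ≠ i})) :
    X i ∉ UnrH3.cl (K : Set Λ) := by
  intro h
  apply F.ind i
  have h1 : K ≤ UnrH3.cl ((C : Set Λ) ∪ X '' {l | l ≠ i}) := by
    rw [hK]
    have hC : (C : Set Λ) ⊆ UnrH3.cl ((C : Set Λ) ∪ X '' {l | l ≠ i}) := fun z hz =>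
      subset_cl _ (Or.inl hz)
    apply adj_le hC
    rintro z (⟨t, ht, rfl⟩ | ⟨t, ht, rfl⟩)
    · exact subset_cl _ (Or.inr ⟨t, ht, rfl⟩)
    · exact F.mem_cl hC (subset_cl _ (Or.inr ⟨t, ht, rfl⟩))
  exact cl_le h1 h

/-- The curve over a subfield. -/
lemma Fam.onW (F : Fam j C a b c X Y) {K : Subfield Λ} (hCK : C ≤ K) (i : Fin n) :
    OnW (crv (j.codRestrict K fun z => hCK (F.jC z)) (a i) (b i) (c i)) (X i) (Y i) := F.hY i

lemma Fam.ell (F : Fam j C a b c X Y) {K : Subfield Λ} (hCK : C ≤ K) (i : Fin n) :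
    EllW (crv (j.codRestrict K fun z => hCK (F.jC z)) (a i) (b i) (c i)) :=
  crv_ell _ F.two (F.disc i)

/-- A substitution that fixes the coordinates with index different from `i` fixes the field they
generate. -/
lemma fix_of_fix (hM : M = adj C (Set.range X ∪ Set.range Y)) {I : Set (Fin n)} {K : Subfield Λ}
    (hK : K = adj C (X '' I ∪ Y '' I)) {g : M →+* M} (gC : ∀ z : M, (z : Λ) ∈ C → g z = z)
    (gi : ∀ i ∈ I, (∀ z : M, (z : Λ) = X i → g z = z) ∧ (∀ z : M, (z : Λ) = Y i → g z = z))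
    (z : M) (hz : (z : Λ) ∈ K) : g z = z := by
  have hXM : ∀ i, X i ∈ M := fun i => by rw [hM]; exact subset_adj _ _ (Or.inl ⟨i, rfl⟩)
  have hYM : ∀ i, Y i ∈ M := fun i => by rw [hM]; exact subset_adj _ _ (Or.inr ⟨i, rfl⟩)
  have hCM : C ≤ M := by rw [hM]; exact le_adj _ _
  apply of_mem_fixF
  have h3 : K ≤ fixF g := by
    rw [hK]
    apply adj_le
    · intro z hz
      exact mem_fixF (z := ⟨z, hCM hz⟩) (gC _ hz)
    · rintro z (⟨i, hi, rfl⟩ | ⟨i, hi, rfl⟩)
      · exact mem_fixF (z := ⟨X i, hXM i⟩) ((gi i hi).1 _ rfl)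
      · exact mem_fixF (z := ⟨Y i, hYM i⟩) ((gi i hi).2 _ rfl)
  exact h3 hz

lemma IsFr.fix {Q : ℕ} {J : Finset (Fin n)} {g : M →+* M} (h : IsFr Q C X Y J g) {i : Fin n}
    (hi : i ∉ J) : (∀ z : M, (z : Λ) = X i → g z = z) ∧ (∀ z : M, (z : Λ) = Y i → g z = z) :=
  ⟨fun z hz => by rw [h.x i z hz, if_neg hi], fun z hz => by rw [h.y i z hz, if_neg hi]⟩

variable {p s : ℕ} [hp : Fact p.Prime] [hpΛ : CharP Λ p]

/-- The Frobenius in one variable. -/
lemma Fam.exists_single [Fintype κ] (F : Fam j C a b c X Y)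
    (hM : M = adj C (Set.range X ∪ Set.range Y)) (hcard : Fintype.card κ = p ^ s) (i : Fin n) :
    ∃ g : M →+* M, IsFr (p ^ s) C X Y {i} g := by
  obtain ⟨K, hK⟩ : ∃ K, K = adj C (X '' {t | t ≠ i} ∪ Y '' {t | t ≠ i}) := ⟨_, rfl⟩
  have hCK : C ≤ K := by rw [hK]; exact le_adj _ _
  have hpK : CharP K p := K.subtype.charP K.subtype.injective p
  have := F.ell hCK i
  obtain ⟨g, g1, g2, g3⟩ := single_frob_exists (p := p) (s := s) (crv_frob _ hcard)
    (F.single_fact i K hK) (F.onW hCK i) (family_single_M hM i K hK)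
  refine ⟨g, fun z hz => g1 z (hCK hz), ?_, ?_⟩
  · intro l z hz
    by_cases hil : l = i
    · subst hil
      rw [if_pos (Finset.mem_singleton_self l), g2 z hz]
    · rw [if_neg (by simpa using hil), g1 z]
      rw [hK, hz]; exact subset_adj _ _ (Or.inl ⟨l, hil, rfl⟩)
  · intro l z hz
    by_cases hil : l = i
    · subst hil
      rw [if_pos (Finset.mem_singleton_self l), g3 z hz]
    · rw [if_neg (by simpa using hil), g1 z]
      rw [hK, hz]; exact subset_adj _ _ (Or.inr ⟨l, hil, rfl⟩)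

/-- Moving the Frobenius from one variable to another one with the same curve. -/
lemma Fam.move [Fintype κ] (F : Fam j C a b c X Y) (hm : Odd m)
    (hM : M = adj C (Set.range X ∪ Set.range Y)) (hcard : Fintype.card κ = p ^ s)
    {i l : Fin n} (ha : a i = a l) (hb : b i = b l) (hc : c i = c l) {g g' : M →+* M}
    (h : IsFr (p ^ s) C X Y {i} g) (h' : IsFr (p ^ s) C X Y {l} g') {γ : KM m M} (hu : Unr γ)
    (ho : MultiOdd C X Y γ) : KM.map m g γ = KM.map m g' γ := by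
  by_cases hil : i = l
  · subst hil
    rw [h.unique hM h']
  obtain ⟨K, hK⟩ : ∃ K, K = adj C (X '' {t | t ≠ i ∧ t ≠ l} ∪ Y '' {t | t ≠ i ∧ t ≠ l}) :=
    ⟨_, rfl⟩
  have hCK : C ≤ K := by rw [hK]; exact le_adj _ _
  obtain ⟨hx₁, hx₂⟩ := F.fact i l hil K hK
  have hM' := family_M hM i l K hK
  obtain ⟨ho1, ho2⟩ := family_odd i l K hK ho
  have hpK : CharP K p := K.subtype.charP K.subtype.injective p
  have := F.ell hCK i
  have h₂ : OnW (crv (j.codRestrict K fun z => hCK (F.jC z)) (a i) (b i) (c i)) (X l) (Y l) := by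
    rw [ha, hb, hc]; exact F.onW hCK l
  have gK := fix_of_fix hM hK h.c (fun t ht => h.fix (by simpa using ht.1))
  have g'K := fix_of_fix hM hK h'.c (fun t ht => h'.fix (by simpa using ht.2))
  exact frob_pair hm hx₁ hx₂ (F.onW hCK i) h₂ hM' s (crv_frob _ hcard) g g' gK
    (fun z hz => by rw [h.x i z hz, if_pos (Finset.mem_singleton_self i)])
    (fun z hz => by rw [h.y i z hz, if_pos (Finset.mem_singleton_self i)])
    (h.fix (by simpa using Ne.symm hil)).1 (h.fix (by simpa using Ne.symm hil)).2 g'K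
    (h'.fix (by simpa using hil)).1 (h'.fix (by simpa using hil)).2
    (fun z hz => by rw [h'.x l z hz, if_pos (Finset.mem_singleton_self l)])
    (fun z hz => by rw [h'.y l z hz, if_pos (Finset.mem_singleton_self l)]) hu ho1 ho2

/-- The number of points of an affine cubic. -/
noncomputable def npt [Fintype κ] (a b c : κ) : ℕ := (Finset.univ.filter fun uv : κ × κ =>
  uv.2 ^ 2 = uv.1 ^ 3 + a * uv.1 ^ 2 + b * uv.1 + c).card

/-- The characteristic equation of the Frobenius in one variable. -/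
lemma Fam.char [Fintype κ] (F : Fam j C a b c X Y) (hm : Odd m) (hs : 0 < s)
    (hM : M = adj C (Set.range X ∪ Set.range Y)) (hcard : Fintype.card κ = p ^ s)
    {i : Fin n} {g : M →+* M} (h : IsFr (p ^ s) C X Y {i} g) {γ : KM m M} (hu : Unr γ)
    (ho : MultiOdd C X Y γ) :
    KM.map m g (KM.map m g γ) - ((p : ℤ) ^ s - npt (a i) (b i) (c i)) • KM.map m g γ +
      ((p : ℤ) ^ s) • γ = 0 := by
  obtain ⟨K, hK⟩ : ∃ K, K = adj C (X '' {t | t ≠ i} ∪ Y '' {t | t ≠ i}) := ⟨_, rfl⟩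
  have hCK : C ≤ K := by rw [hK]; exact le_adj _ _
  have hpK : CharP K p := K.subtype.charP K.subtype.injective p
  have := F.ell hCK i
  have hoK : OddAt K (Y i) {X i} γ := by
    intro g g1 g2 g3
    apply ho i g (fun z hz => g1 z (hCK hz)) _ g3
    rintro z (⟨t, ht⟩ | ⟨t, hti, ht⟩)
    · by_cases h1 : t = i
      · subst h1; exact g2 z (by rw [← ht]; rfl)
      · exact g1 z (by rw [← ht, hK]; exact subset_adj _ _ (Or.inl ⟨t, h1, rfl⟩))
    · exact g1 z (by rw [← ht, hK]; exact subset_adj _ _ (Or.inr ⟨t, hti, rfl⟩))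
  have gK := fix_of_fix hM hK h.c (fun t ht => h.fix (by simpa using ht))
  have key := single_char (p := p) (s := s) (crv_frob (j.codRestrict K fun z => hCK (F.jC z))
    (a := a i) (b := b i) (c := c i) hcard) hs hm
    (F.single_fact i K hK) (F.onW hCK i) (family_single_M hM i K hK) hu hoK g gK
    (fun z hz => by rw [h.x i z hz, if_pos (Finset.mem_singleton_self i)])
    (fun z hz => by rw [h.y i z hz, if_pos (Finset.mem_singleton_self i)])
  rw [tr_eq _ hs hcard (j.codRestrict K fun z => hCK (F.jC z)) (a := a i) (b := b i)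
    (c := c i) rfl rfl rfl] at key
  exact key

/-- The group of the odd unramified classes. -/
def oddUnr (m : ℕ) (C M : Subfield Λ) (X Y : Fin n → Λ) : AddSubgroup (KM m M) where
  carrier := {γ | Unr γ ∧ MultiOdd C X Y γ}
  add_mem' := by
    rintro γ γ' ⟨h1, h2⟩ ⟨h3, h4⟩
    refine ⟨h1.add h3, fun i g g1 g2 g3 => ?_⟩
    rw [map_add, h2 i g g1 g2 g3, h4 i g g1 g2 g3, neg_add]
  zero_mem' := ⟨Unr.zero, fun i g g1 g2 g3 => by rw [map_zero, neg_zero]⟩
  neg_mem' := by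
    rintro γ ⟨h1, h2⟩
    exact ⟨h1.neg, fun i g g1 g2 g3 => by rw [map_neg, h2 i g g1 g2 g3]⟩

/-- The Frobenius in several variables. -/
lemma Fam.exists_fr [Fintype κ] (F : Fam j C a b c X Y)
    (hM : M = adj C (Set.range X ∪ Set.range Y)) (hcard : Fintype.card κ = p ^ s)
    (J : Finset (Fin n)) : ∃ g : M →+* M, IsFr (p ^ s) C X Y J g := by
  induction J using Finset.induction_on with
  | empty => exact ⟨_, IsFr.id⟩
  | insert l J hl ih =>
    obtain ⟨g', h'⟩ := ih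
    obtain ⟨g, h⟩ := F.exists_single hM hcard l
    exact ⟨_, h.comp_insert hl h'⟩

/-- The characteristic equation of the Frobenius in all variables. -/
theorem Fam.total [Fintype κ] {ι : Type*} [Fintype ι] (F : Fam j C a b c X Y) (hm : Odd m)
    (hs : 0 < s) (hM : M = adj C (Set.range X ∪ Set.range Y)) (hcard : Fintype.card κ = p ^ s)
    (e : Fin n → ι) {A B D : ι → κ} (ha : ∀ i, a i = A (e i)) (hb : ∀ i, b i = B (e i))
    (hc : ∀ i, c i = D (e i)) (π π' : ι → ℂ)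
    (hsum : ∀ i, π i + π' i = (p : ℂ) ^ s - npt (A i) (B i) (D i))
    (hprod : ∀ i, π i * π' i = (p : ℂ) ^ s) (P : ℤ[X])
    (hP : P.map (Int.castRingHom ℂ) =
      ∏ S : Finset ι, (Polynomial.X - Polynomial.C (∏ i, pick π π' S (e i))))
    {g : M →+* M} (hg : IsFr (p ^ s) C X Y Finset.univ g) {γ : KM m M} (hu : Unr γ)
    (ho : MultiOdd C X Y γ) :
    ∑ k ∈ Finset.range (P.natDegree + 1), P.coeff k • (KM.map m g)^[k] γ = 0 := by
  have hQ : Odd (p ^ s) := by
    have h2p : p ≠ 2 := by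
      intro h
      apply F.two
      apply j.injective
      rw [map_ofNat, map_zero]
      have h1 := CharP.cast_eq_zero Λ p
      rw [h] at h1
      exact_mod_cast h1
    exact (hp.out.odd_of_ne_two h2p).pow
  choose G hG using F.exists_fr (p := p) (s := s) hM hcard
  have hV : ∀ J, ∀ v ∈ oddUnr m C M X Y, KM.map m (G J) v ∈ oddUnr m C M X Y :=
    fun J v hv => ⟨hv.1.map _, (hG J).multiOdd hM hQ hv.2⟩
  obtain ⟨T, hT⟩ : ∃ T : Finset (Fin n) → AddMonoid.End (oddUnr m C M X Y),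
      ∀ J v, (T J v : KM m M) = KM.map m (G J) v :=
    ⟨fun J => ((KM.map m (G J) : KM m M →+ KM m M).comp (oddUnr m C M X Y).subtype).codRestrict
      (oddUnr m C M X Y) (fun v => hV J v v.2), fun J v => rfl⟩
  have ext' : ∀ A B : AddMonoid.End (oddUnr m C M X Y), (∀ v, (A v : KM m M) = B v) → A = B :=
    fun A B h => AddMonoidHom.ext fun v => Subtype.ext (h v)
  have key := end_prod_zero e (fun i => T {i})
    (fun i l => by
      apply ext'
      intro v
      change (T {i} (T {l} v) : KM m M) = T {l} (T {i} v)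
      rw [hT, hT, hT, hT, KM.map_map, KM.map_map, (hG {i}).commute hM (hG {l})])
    (fun i l hil => by
      apply ext'
      intro v
      rw [hT, hT]
      exact F.move hm hM hcard (by rw [ha, ha, hil]) (by rw [hb, hb, hil]) (by rw [hc, hc, hil])
        (hG {i}) (hG {l}) v.2.1 v.2.2)
    (fun i => (p : ℤ) ^ s - npt (A i) (B i) (D i)) ((p : ℤ) ^ s)
    (fun i v => by
      apply Subtype.ext
      have h1 := F.char hm hs hM hcard (hG {i}) v.2.1 v.2.2
      rw [ha, hb, hc] at h1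
      push_cast
      rw [hT, hT]
      exact h1)
    π π' (fun i => by rw [hsum]; push_cast; rfl) (fun i => by rw [hprod]; push_cast; rfl) P hP T
    (by
      apply ext'
      intro v
      rw [hT, (hG ∅).unique hM IsFr.id, KM.map_id]
      rfl)
    (fun l J hl => by
      apply ext'
      intro v
      rw [Finset.cons_eq_insert]
      change (T (insert l J) v : KM m M) = T {l} (T J v)
      rw [hT, hT, hT, KM.map_map, (hG (insert l J)).unique hM ((hG {l}).comp_insert hl (hG J))])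
    ⟨γ, hu, ho⟩
  have hgG : g = G Finset.univ := hg.unique hM (hG _)
  have hpow : ∀ k (v : oddUnr m C M X Y),
      (((T Finset.univ) ^ k) v : KM m M) = (KM.map m g)^[k] v := by
    intro k
    induction k with
    | zero => intro v; rfl
    | succ k ih =>
      intro v
      rw [Function.iterate_succ_apply, hgG, ← hT, ← hgG, ← ih, pow_succ]
      rfl
  have h1 : ((∑ k ∈ Finset.range (P.natDegree + 1), P.coeff k • ((T Finset.univ) ^ k)
      (⟨γ, hu, ho⟩ : oddUnr m C M X Y) : oddUnr m C M X Y) : KM m M) = 0 := by rw [key]; rfl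
  rw [← h1, AddSubgroup.val_finsetSum]
  refine Finset.sum_congr rfl fun k _ => ?_
  rw [AddSubgroup.coe_zsmul, hpow]

end fam

end UnrH3.Ell
end

section

/-!
# The action of an arithmetic Frobenius on odd unramified classes
-/

namespace UnrH3.Ell

universe u v w

open Polynomial WeierstrassCurve
open scoped Classical

variable {m : ℕ} {Λ : Type u} [Field Λ] {n : ℕ}
variable {κ : Type w} [Field κ] {j : κ →+* Λ} {C M : Subfield Λ} {a b c : Fin n → κ}
  {X Y : Fin n → Λ}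

/-- The sign change in one variable. -/
lemma Fam.exists_flip (F : Fam j C a b c X Y) (hM : M = adj C (Set.range X ∪ Set.range Y))
    (i : Fin n) : ∃ g : M →+* M, (∀ z : M, (z : Λ) ∈ C → g z = z) ∧
      (∀ l, ∀ z : M, (z : Λ) = X l → g z = z) ∧
      (∀ l, ∀ z : M, (z : Λ) = Y l → g z = if l = i then -z else z) := by
  obtain ⟨K, hK⟩ : ∃ K, K = adj C (X '' {t | t ≠ i} ∪ Y '' {t | t ≠ i}) := ⟨_, rfl⟩
  have hCK : C ≤ K := by rw [hK]; exact le_adj _ _
  have := F.ell hCK i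
  obtain ⟨fM, e, hef, hfe, hb, hx, hy⟩ := exists_single_iso (F.single_fact i K hK)
    (F.onW hCK i) (family_single_M hM i K hK)
  obtain ⟨g, g1, g2, g3⟩ := single_exists fM e hef hb hx hy
    (A := -gpt (crv (j.codRestrict K fun z => hCK (F.jC z)) (a i) (b i) (c i)) K) gen_gpt.neg
  refine ⟨g, fun z hz => g1 z (hCK hz), ?_, ?_⟩
  · intro l z hz
    by_cases hli : l = i
    · subst hli
      apply Subtype.ext
      rw [g2 z hz, ptX_neg, ptX_gpt, hx, hz]
    · exact g1 z (by rw [hz, hK]; exact subset_adj _ _ (Or.inl ⟨l, hli, rfl⟩))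
  · intro l z hz
    by_cases hli : l = i
    · subst hli
      rw [if_pos rfl]
      apply Subtype.ext
      rw [g3 z hz, ptY_neg, ptY_gpt, map_neg]
      push_cast
      rw [hy, hz]
    · rw [if_neg hli]
      exact g1 z (by rw [hz, hK]; exact subset_adj _ _ (Or.inr ⟨l, hli, rfl⟩))

/-- Sign changes in several variables. -/
lemma Fam.exists_flips (F : Fam j C a b c X Y) (hM : M = adj C (Set.range X ∪ Set.range Y))
    {γ : KM m M} (ho : MultiOdd C X Y γ) (J : Finset (Fin n)) :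
    ∃ g : M →+* M, (∀ z : M, (z : Λ) ∈ C → g z = z) ∧
      (∀ l, ∀ z : M, (z : Λ) = X l → g z = z) ∧
      (∀ l, ∀ z : M, (z : Λ) = Y l → g z = if l ∈ J then -z else z) ∧
      KM.map m g γ = (-1 : ℤ) ^ J.card • γ := by
  induction J using Finset.induction_on with
  | empty =>
    refine ⟨RingHom.id M, fun z _ => rfl, fun l z _ => rfl, fun l z _ => by simp, ?_⟩
    rw [KM.map_id, Finset.card_empty, pow_zero, one_smul]
    rfl
  | insert i J hi ih =>
    obtain ⟨g', g'1, g'2, g'3, g'4⟩ := ih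
    obtain ⟨g, g1, g2, g3⟩ := F.exists_flip hM i
    refine ⟨g.comp g', ?_, ?_, ?_, ?_⟩
    · intro z hz
      rw [RingHom.comp_apply, g'1 z hz, g1 z hz]
    · intro l z hz
      rw [RingHom.comp_apply, g'2 l z hz, g2 l z hz]
    · intro l z hz
      rw [RingHom.comp_apply, g'3 l z hz]
      by_cases hli : l = i
      · subst hli
        rw [if_neg hi, g3 l z hz, if_pos rfl, if_pos (Finset.mem_insert_self l J)]
      · by_cases hlJ : l ∈ J
        · rw [if_pos hlJ, map_neg, g3 l z hz, if_neg hli, if_pos (Finset.mem_insert_of_mem hlJ)]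
        · rw [if_neg hlJ, g3 l z hz, if_neg hli, if_neg (by rw [Finset.mem_insert]; tauto)]
    · have h1 : KM.map m g γ = -γ := by
        apply ho i g g1
        · rintro z (⟨l, hl⟩ | ⟨l, hli, hl⟩)
          · exact g2 l z hl.symm
          · rw [g3 l z hl.symm, if_neg hli]
        · intro z hz
          rw [g3 i z hz, if_pos rfl]
      rw [← KM.map_map, g'4, map_zsmul, h1, Finset.card_insert_of_notMem hi, pow_succ, mul_smul,
        neg_one_smul]

variable {p s : ℕ} [hp : Fact p.Prime] [hpΛ : CharP Λ p]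

/-- The action of an arithmetic Frobenius on multi-odd unramified classes. -/
theorem Fam.frob [Fintype κ] {ι : Type*} [Fintype ι] (F : Fam j C a b c X Y) (hm : Odd m)
    (hs : 0 < s) (hM : M = adj C (Set.range X ∪ Set.range Y)) (hcard : Fintype.card κ = p ^ s)
    (e : Fin n → ι) {A B D : ι → κ} (ha : ∀ i, a i = A (e i)) (hb : ∀ i, b i = B (e i))
    (hc : ∀ i, c i = D (e i)) (π π' : ι → ℂ)
    (hsum : ∀ i, π i + π' i = (p : ℂ) ^ s - npt (A i) (B i) (D i))
    (hprod : ∀ i, π i * π' i = (p : ℂ) ^ s) (P : ℤ[X])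
    (hP : P.map (Int.castRingHom ℂ) =
      ∏ S : Finset ι, (Polynomial.X - Polynomial.C (∏ i, pick π π' S (e i))))
    (J : Finset (Fin n)) (σ : M →+* M) (σC : ∀ z : M, (z : Λ) ∈ C → σ z = z ^ p ^ s)
    (σX : ∀ i, ∀ z : M, (z : Λ) = X i → σ z = z)
    (σY : ∀ i, ∀ z : M, (z : Λ) = Y i → σ z = if i ∈ J then -z else z)
    {γ : KM m M} (hu : Unr γ) (ho : MultiOdd C X Y γ)
    (fr : M →+* M) (hfr : ∀ z, fr z = z ^ p ^ s) {q : ℤ} (hfrγ : KM.map m fr γ = q • γ)
    {N : ℕ} (hN : P.natDegree ≤ N) :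
    ∑ k ∈ Finset.range (N + 1),
      (P.coeff k * ((-1) ^ J.card * q) ^ k) • (KM.map m σ)^[N - k] γ = 0 := by
  have hQ : Odd (p ^ s) := by
    have h2p : p ≠ 2 := by
      intro h
      apply F.two
      apply j.injective
      rw [map_ofNat, map_zero]
      have h1 := CharP.cast_eq_zero Λ p
      rw [h] at h1
      exact_mod_cast h1
    exact (hp.out.odd_of_ne_two h2p).pow
  have hCM : C ≤ M := by rw [hM]; exact le_adj _ _
  obtain ⟨g, hg⟩ := F.exists_fr (p := p) (s := s) hM hcard Finset.univ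
  have gX : ∀ i, ∀ z : M, (z : Λ) = X i → g z = z ^ p ^ s := fun i z hz => by
    rw [hg.x i z hz, if_pos (Finset.mem_univ i)]
  have gY : ∀ i, ∀ z : M, (z : Λ) = Y i → g z = z ^ p ^ s := fun i z hz => by
    rw [hg.y i z hz, if_pos (Finset.mem_univ i)]
  obtain ⟨τ, τC, τX, τY, hτ⟩ := F.exists_flips hM ho J
  have h1 : g.comp σ = τ.comp fr := by
    apply hom_gen_id hM
    · intro z hz
      rw [RingHom.comp_apply, RingHom.comp_apply, σC z hz, hfr, map_pow, map_pow, hg.c z hz,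
        τC z hz]
    · rintro z (⟨i, hi⟩ | ⟨i, hi⟩)
      · rw [RingHom.comp_apply, RingHom.comp_apply, σX i z hi.symm, hfr, map_pow,
          gX i z hi.symm, τX i z hi.symm]
      · rw [RingHom.comp_apply, RingHom.comp_apply, σY i z hi.symm, hfr, map_pow,
          τY i z hi.symm]
        split_ifs
        · rw [map_neg, gY i z hi.symm, hQ.neg_pow]
        · rw [gY i z hi.symm]
  have h2 : σ.comp g = g.comp σ := by
    apply hom_gen_id hM
    · intro z hz
      rw [RingHom.comp_apply, RingHom.comp_apply, σC z hz, hg.c z hz, map_pow, hg.c z hz,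
        σC z hz]
    · rintro z (⟨i, hi⟩ | ⟨i, hi⟩)
      · rw [RingHom.comp_apply, RingHom.comp_apply, σX i z hi.symm, gX i z hi.symm, map_pow,
          σX i z hi.symm]
      · rw [RingHom.comp_apply, RingHom.comp_apply, σY i z hi.symm, gY i z hi.symm, map_pow,
          σY i z hi.symm]
        split_ifs
        · rw [map_neg, gY i z hi.symm, hQ.neg_pow]
        · rw [gY i z hi.symm]
  obtain ⟨lam, hlam⟩ : ∃ lam : ℤ, lam = (-1) ^ J.card * q := ⟨_, rfl⟩
  rw [← hlam]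
  have h3 : KM.map m σ (KM.map m g γ) = lam • γ := by
    rw [KM.map_map, h2, h1, ← KM.map_map, hfrγ, map_zsmul, hτ, smul_smul, hlam, mul_comm]
  have hcomm : Function.Commute (KM.map m σ) (KM.map m g) := by
    intro x
    rw [KM.map_map, KM.map_map, h2]
  have h4 : ∀ k, (KM.map m σ)^[k] ((KM.map m g)^[k] γ) = lam ^ k • γ := by
    intro k
    induction k with
    | zero => rw [pow_zero, one_smul]; rfl
    | succ k ih =>
      have hz : ∀ (k : ℕ) (c : ℤ) (x : KM m M),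
          (KM.map m σ)^[k] (c • x) = c • (KM.map m σ)^[k] x := by
        intro k
        induction k with
        | zero => intro c x; rfl
        | succ k ih =>
          intro c x
          rw [Function.iterate_succ_apply, Function.iterate_succ_apply, map_zsmul, ih]
      have hz' : ∀ (k : ℕ) (c : ℤ) (x : KM m M),
          (KM.map m g)^[k] (c • x) = c • (KM.map m g)^[k] x := by
        intro k
        induction k with
        | zero => intro c x; rfl
        | succ k ih =>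
          intro c x
          rw [Function.iterate_succ_apply, Function.iterate_succ_apply, map_zsmul, ih]
      rw [Function.iterate_succ_apply, Function.iterate_succ_apply,
        (hcomm.iterate_right k).eq (KM.map m g γ), h3, hz', hz, ih, smul_smul, pow_succ,
        mul_comm]
  have h5 := F.total hm hs hM hcard e ha hb hc π π' hsum hprod P hP hg hu ho
  have h6 : ∑ k ∈ Finset.range (N + 1), P.coeff k • (KM.map m g)^[k] γ = 0 := by
    rw [← h5]
    symm
    apply Finset.sum_subset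
    · exact Finset.range_mono (by omega)
    · intro k _ hk
      rw [Finset.mem_range, not_lt] at hk
      rw [coeff_eq_zero_of_natDegree_lt (by omega), zero_smul]
  have hadd : ∀ (k : ℕ) (I : Finset ℕ) (f : ℕ → KM m M),
      (KM.map m σ)^[k] (∑ i ∈ I, f i) = ∑ i ∈ I, (KM.map m σ)^[k] (f i) := by
    intro k
    induction k with
    | zero => intro I f; rfl
    | succ k ih =>
      intro I f
      simp only [Function.iterate_succ_apply]
      rw [map_sum, ih]
  have hz : ∀ (k : ℕ) (c : ℤ) (x : KM m M),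
      (KM.map m σ)^[k] (c • x) = c • (KM.map m σ)^[k] x := by
    intro k
    induction k with
    | zero => intro c x; rfl
    | succ k ih =>
      intro c x
      rw [Function.iterate_succ_apply, Function.iterate_succ_apply, map_zsmul, ih]
  have h7 := congrArg (KM.map m σ)^[N] h6
  rw [hadd] at h7
  have h8 : (KM.map m σ)^[N] (0 : KM m M) = 0 := by
    have := hz N 0 0
    rwa [zero_smul, zero_smul] at this
  rw [h8] at h7
  rw [← h7]
  refine Finset.sum_congr rfl fun k hk => ?_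
  rw [Finset.mem_range] at hk
  rw [hz, mul_smul, ← hz (N - k), ← h4 k, ← Function.iterate_add_apply]
  congr 2
  omega

end UnrH3.Ell
end
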