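import Pool.Agent.Lib.MP_859dd5_ag.EQ.Fam
import Pool.Agent.Lib.MP_859dd5_ag.Mg.G066
import Pool.Agent.Lib.MP_859dd5_ag.Mg.G027
import Pool.Agent.Lib.MP_859dd5_ag.SwapA
import Pool.Agent.Lib.MP_859dd5_ag.Mg.G064

section

/-!
# Even variables
-/

namespace UnrA

universe u v w z

open Polynomial WeierstrassCurve
open scoped Classical
open UnrH3 (cl subset_cl adj le_adj subset_adj adj_le IndFam hom_gen_id family_M family_single_M
  mem_fixF of_mem_fixF fixF cl_mono cl_le)
open UnrH3.Ell (EllW OnW Fam IsFr crv crv_frob crv_ell fix_of_fix npt)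

variable {m : UFun.{u, z}} {Λ : Type u} [Field Λ] {n : ℕ}

/-- Restriction of scalars for the Milnor K-ring of subfields. -/
noncomputable abbrev up (m : UFun.{u, z}) {A B : Subfield Λ} (h : A ≤ B) : KM m A →+ KM m B :=
  KM.map m (Subfield.inclusion h)

lemma up_up {A B C : Subfield Λ} (h : A ≤ B) (h' : B ≤ C) (x : KM m A) :
    up m h' (up m h x) = up m (h.trans h') x := by
  rw [KM.map_map]
  rfl

lemma up_refl {A : Subfield Λ} (h : A ≤ A) (x : KM m A) : up m h x = x := by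
  have : Subfield.inclusion h = RingHom.id A := by ext z; rfl
  rw [up, this, KM.map_id]
  rfl

/-- The subfield generated by the variables with index outside `J`. -/
def offJ (C : Subfield Λ) (X Y : Fin n → Λ) (J : Finset (Fin n)) : Subfield Λ :=
  adj C (X '' {i | i ∉ J} ∪ Y '' {i | i ∉ J})

variable {κ : Type w} [Field κ] {j : κ →+* Λ} {C M : Subfield Λ} {a b c : Fin n → κ}
  {X Y : Fin n → Λ} {I J : Finset (Fin n)}

lemma le_offJ : C ≤ offJ C X Y J := le_adj _ _

lemma offJ_empty (hM : M = adj C (Set.range X ∪ Set.range Y)) : offJ C X Y ∅ = M := by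
  rw [hM]
  unfold offJ
  congr 1
  simp

lemma offJ_univ : offJ C X Y Finset.univ = C := by
  unfold offJ
  simp [UnrH3.adj_empty]

lemma offJ_le (hM : M = adj C (Set.range X ∪ Set.range Y)) : offJ C X Y J ≤ M := by
  rw [hM]
  exact UnrH3.adj_mono le_rfl (Set.union_subset_union (Set.image_subset_range _ _)
    (Set.image_subset_range _ _))

/-- The variables with index outside `J` and one more variable. -/
lemma offJ_insert {l : Fin n} (hl : l ∉ J) :
    offJ C X Y J = adj (offJ C X Y (insert l J)) {X l, Y l} := by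
  unfold offJ
  rw [UnrH3.adj_adj]
  congr 1
  have h : {i : Fin n | i ∉ J} = insert l {i : Fin n | i ∉ insert l J} := by
    ext i
    simp only [Set.mem_ofPred_eq, Set.mem_insert_iff, Finset.mem_insert, not_or]
    constructor
    · intro hi
      by_cases h : i = l
      · exact Or.inl h
      · exact Or.inr ⟨h, hi⟩
    · rintro (rfl | ⟨-, hi⟩)
      · exact hl
      · exact hi
  rw [h, Set.image_insert_eq, Set.image_insert_eq]
  ext z
  simp only [Set.mem_union, Set.mem_insert_iff, Set.mem_singleton_iff]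
  tauto

/-- The variable with index `l` is transcendental over the field generated by the variables with
index outside a set containing `l`. -/
lemma offJ_notMem (F : Fam j C a b c X Y) {l : Fin n} (hl : l ∈ J) :
    X l ∉ cl (offJ C X Y J : Set Λ) := by
  intro h
  refine F.single_fact l _ rfl (cl_mono ?_ h)
  have hs : {i : Fin n | i ∉ J} ⊆ {i | i ≠ l} := by
    rintro i hi rfl
    exact hi hl
  exact UnrH3.adj_mono le_rfl (Set.union_subset_union (Set.image_mono hs) (Set.image_mono hs))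

/-- The kernel of the restriction to a field generated by a generic point is killed by `2`. -/
lemma single_ker {K N : Subfield Λ} {W : WeierstrassCurve K} [EllW W] {x₁ y₁ : Λ}
    (hx₁ : x₁ ∉ cl (K : Set Λ)) (h₁ : OnW W x₁ y₁) (hN : N = adj K {x₁, y₁}) (h : K ≤ N)
    {γ : KM m K} (hγ : up m h γ = 0) : 2 • γ = 0 := by
  obtain ⟨fM, e, hef, hfe, hb, hx, hy⟩ := UnrH3.Ell.exists_single_iso hx₁ h₁ hN
  have h1 : e.comp (Subfield.inclusion h) = (UnrH3.base W K : K →+* UnrH3.FF W K) := by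
    ext z
    exact UnrH3.Ell.single_e_of fM e hef (hb z)
  apply base_two_smul (W := W)
  rw [← h1, ← KM.map_map, hγ, map_zero]

/-- An even unramified class of a field generated by a generic point is constant, up to the
factor `4`. -/
lemma single_even {K N : Subfield Λ} {W : WeierstrassCurve K} [EllW W] {x₁ y₁ : Λ}
    (hx₁ : x₁ ∉ cl (K : Set Λ)) (h₁ : OnW W x₁ y₁) (hN : N = adj K {x₁, y₁}) (h : K ≤ N)
    {γ : KM m N} (hu : Unr γ)
    (hγ : ∀ g : N →+* N, (∀ z : N, (z : Λ) ∈ K → g z = z) → (∀ z : N, (z : Λ) = x₁ → g z = z) →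
      (∀ z : N, (z : Λ) = y₁ → g z = -z) → KM.map m g γ = γ) :
    ∃ γ' : KM m K, Unr γ' ∧ up m h γ' = 4 • γ := by
  obtain ⟨fM, e, hef, hfe, hb, hx, hy⟩ := UnrH3.Ell.exists_single_iso hx₁ h₁ hN
  have hev : EvenCl (KM.map m e γ) := by
    obtain ⟨g', g'1, g'2, g'3⟩ := UnrH3.Ell.single_exists fM e hef hb hx hy
      (A := -UnrH3.gpt W K) UnrH3.gen_gpt.neg
    have hs := UnrH3.Ell.single_spec fM e hef hfe hb hx hy hN UnrH3.gen_gpt.neg g' g'1 g'2 g'3
    have hg' : KM.map m g' γ = γ := by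
      apply hγ g' g'1
      · intro z hz
        apply Subtype.ext
        rw [g'2 z hz, UnrH3.ptX_neg, UnrH3.ptX_gpt, hx, hz]
      · intro z hz
        apply Subtype.ext
        rw [g'3 z hz, UnrH3.Ell.ptY_neg, UnrH3.ptY_gpt, map_neg]
        push_cast
        rw [hy, hz]
    unfold EvenCl UnrH3.nu
    rw [KM.map_map, ← hs, ← KM.map_map, hg']
  obtain ⟨c, hc, hcβ⟩ := hev.const (hu.map e)
  refine ⟨c, hc, ?_⟩
  have h1 : fM.comp (UnrH3.base W K : K →+* UnrH3.FF W K) = Subfield.inclusion h := by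
    ext z
    exact hb z
  rw [up, ← h1, ← KM.map_map, hcβ, map_nsmul, KM.map_map, hfe, KM.map_id]
  rfl

/-- The kernel of the restriction is killed by a power of `2`. -/
theorem offJ_ker (F : Fam j C a b c X Y) (hM : M = adj C (Set.range X ∪ Set.range Y))
    (h : offJ C X Y J ≤ M) {γ : KM m (offJ C X Y J)} (hγ : up m h γ = 0) :
    2 ^ J.card • γ = 0 := by
  induction J using Finset.induction_on with
  | empty =>
    have h1 : M ≤ offJ C X Y ∅ := by rw [offJ_empty hM]
    have h2 := congrArg (up m h1) hγ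
    rw [up_up, up_refl, map_zero] at h2
    rw [h2, smul_zero]
  | insert l J hl ih =>
    have hN := offJ_insert (C := C) (X := X) (Y := Y) hl
    have hle : offJ C X Y (insert l J) ≤ offJ C X Y J := by rw [hN]; exact le_adj _ _
    have h1 := ih (offJ_le hM) (γ := up m hle γ) (by rw [up_up]; exact hγ)
    rw [← map_nsmul] at h1
    have := F.ell (K := offJ C X Y (insert l J)) le_offJ l
    have h2 := single_ker (offJ_notMem F (Finset.mem_insert_self l J)) (F.onW le_offJ l) hN hle h1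
    rw [Finset.card_insert_of_notMem hl, pow_succ', mul_smul]
    exact h2

/-- Unramified classes come, up to a power of `2`, from the field generated by the variables in
which they are not even. -/
theorem even_descend (F : Fam j C a b c X Y) (hM : M = adj C (Set.range X ∪ Set.range Y))
    (hIJ : Disjoint I J) (h : offJ C X Y J ≤ M) {γ : KM m M} (hu : Unr γ)
    (ho : Par C X Y I γ) :
    ∃ γ' : KM m (offJ C X Y J), Unr γ' ∧ up m h γ' = 2 ^ ((n + 2) * J.card) • γ := by
  induction J using Finset.induction_on with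
  | empty =>
    have h1 : M ≤ offJ C X Y ∅ := by rw [offJ_empty hM]
    refine ⟨up m h1 γ, hu.map _, ?_⟩
    rw [up_up, up_refl, Finset.card_empty, mul_zero, pow_zero, one_smul]
  | insert l J hl ih =>
    have hN := offJ_insert (C := C) (X := X) (Y := Y) hl
    have hle : offJ C X Y (insert l J) ≤ offJ C X Y J := by rw [hN]; exact le_adj _ _
    have hJM : offJ C X Y J ≤ M := offJ_le hM
    have hlI : l ∉ I := fun h => Finset.disjoint_left.mp hIJ h (Finset.mem_insert_self l J)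
    have hIJ' : Disjoint I J := hIJ.mono_right (Finset.subset_insert l J)
    obtain ⟨γ₁, hγ₁u, hγ₁⟩ := ih hIJ' hJM
    obtain ⟨G, G1, G2, G3⟩ := F.exists_flip hM l
    have hG : KM.map m G γ = γ := by
      rw [ho l G ⟨G1, G2, G3⟩, if_neg hlI]
    have hev : ∀ g : offJ C X Y J →+* offJ C X Y J,
        (∀ z : offJ C X Y J, (z : Λ) ∈ offJ C X Y (insert l J) → g z = z) →
        (∀ z : offJ C X Y J, (z : Λ) = X l → g z = z) →
        (∀ z : offJ C X Y J, (z : Λ) = Y l → g z = -z) →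
        KM.map m g (2 ^ J.card • γ₁) = 2 ^ J.card • γ₁ := by
      intro g g1 g2 g3
      have hcomp : (Subfield.inclusion hJM).comp g = G.comp (Subfield.inclusion hJM) := by
        have h1 : ∀ z : offJ C X Y J, ((Subfield.inclusion hJM (g z) : M) : Λ) =
            ((G (Subfield.inclusion hJM z) : M) : Λ) := by
          rintro ⟨z, hz⟩
          have hz' := hz
          unfold offJ at hz'
          refine Subfield.closure_induction (p := fun w _ => ∀ hw : w ∈ offJ C X Y J,
            ((Subfield.inclusion hJM (g ⟨w, hw⟩) : M) : Λ) =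
            ((G (Subfield.inclusion hJM ⟨w, hw⟩) : M) : Λ)) ?_ ?_ ?_ ?_ ?_ ?_ hz' hz
          · rintro w (hwC | ⟨i, hi, rfl⟩ | ⟨i, hi, rfl⟩) hw
            · rw [g1 _ (le_offJ hwC), G1 _ hwC]
            · rw [G2 i _ rfl]
              by_cases hil : i = l
              · subst hil
                rw [g2 _ rfl]
              · rw [g1 ⟨X i, hw⟩ (subset_adj _ _ (Or.inl ⟨i, by
                  simp only [Set.mem_ofPred_eq, Finset.mem_insert, not_or]
                  exact ⟨hil, hi⟩, rfl⟩))]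
            · rw [G3 i _ rfl]
              by_cases hil : i = l
              · subst hil
                rw [g3 _ rfl, if_pos rfl]
                rfl
              · rw [g1 ⟨Y i, hw⟩ (subset_adj _ _ (Or.inr ⟨i, by
                  simp only [Set.mem_ofPred_eq, Finset.mem_insert, not_or]
                  exact ⟨hil, hi⟩, rfl⟩)), if_neg hil]
          · intro hw
            have : (⟨1, hw⟩ : offJ C X Y J) = 1 := rfl
            rw [this, map_one, map_one, map_one]
          · intro x y hx hy hx' hy' hw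
            have hxw : x ∈ offJ C X Y J := hx
            have hyw : y ∈ offJ C X Y J := hy
            have : (⟨x + y, hw⟩ : offJ C X Y J) = ⟨x, hxw⟩ + ⟨y, hyw⟩ := rfl
            rw [this, map_add, map_add, map_add, map_add]
            exact congrArg₂ (· + ·) (hx' hxw) (hy' hyw)
          · intro x hx hx' hw
            have hxw : x ∈ offJ C X Y J := hx
            have : (⟨-x, hw⟩ : offJ C X Y J) = -⟨x, hxw⟩ := rfl
            rw [this, map_neg, map_neg, map_neg, map_neg]
            exact congrArg (fun z => -z) (hx' hxw)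
          · intro x hx hx' hw
            have hxw : x ∈ offJ C X Y J := hx
            have : (⟨x⁻¹, hw⟩ : offJ C X Y J) = (⟨x, hxw⟩)⁻¹ := rfl
            rw [this, map_inv₀, map_inv₀, map_inv₀, map_inv₀]
            exact congrArg (fun z => z⁻¹) (hx' hxw)
          · intro x y hx hy hx' hy' hw
            have hxw : x ∈ offJ C X Y J := hx
            have hyw : y ∈ offJ C X Y J := hy
            have : (⟨x * y, hw⟩ : offJ C X Y J) = ⟨x, hxw⟩ * ⟨y, hyw⟩ := rfl
            rw [this, map_mul, map_mul, map_mul, map_mul]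
            exact congrArg₂ (· * ·) (hx' hxw) (hy' hyw)
        ext z
        exact h1 z
      have h1 : up m hJM (KM.map m g γ₁ - γ₁) = 0 := by
        rw [map_sub, sub_eq_zero, up, KM.map_map, hcomp, ← KM.map_map, ← up, hγ₁, map_nsmul, hG]
      have h2 := offJ_ker F hM hJM h1
      rw [smul_sub, sub_eq_zero] at h2
      rw [map_nsmul, h2]
    have := F.ell (K := offJ C X Y (insert l J)) le_offJ l
    obtain ⟨c', hc', hc'γ⟩ := single_even (offJ_notMem F (Finset.mem_insert_self l J))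
      (F.onW le_offJ l) hN hle (hγ₁u.nsmul _) hev
    have hJn : J.card ≤ n := by
      have := Finset.card_le_univ J
      simpa using this
    refine ⟨2 ^ (n - J.card) • c', hc'.nsmul _, ?_⟩
    rw [map_nsmul, ← up_up hle hJM, hc'γ, map_nsmul, map_nsmul, hγ₁, smul_smul, smul_smul,
      smul_smul, Finset.card_insert_of_notMem hl]
    congr 1
    have h3 : (4 : ℕ) = 2 ^ 2 := rfl
    rw [h3, ← pow_add, ← pow_add, ← pow_add]
    congr 1
    have h4 : (n + 2) * (J.card + 1) = (n + 2) * J.card + (n + 2) := by ring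
    omega

/-- Endomorphisms which move only even variables fix the class up to torsion. -/
theorem even_fix (F : Fam j C a b c X Y) (hM : M = adj C (Set.range X ∪ Set.range Y))
    (hIJ : Disjoint I J) {γ : KM m M} (hu : Unr γ) (ho : Par C X Y I γ) (g : M →+* M)
    (hg : ∀ z : M, (z : Λ) ∈ offJ C X Y J → g z = z) :
    KM.map m g γ - γ ∈ tor (TT n) _ := by
  obtain ⟨γ', -, hγ'⟩ := even_descend F hM hIJ (offJ_le hM) hu ho
  have h1 : KM.map m g (up m (offJ_le hM) γ') = up m (offJ_le hM) γ' := by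
    rw [KM.map_map]
    congr 2
    ext z
    exact congrArg Subtype.val (hg _ z.2)
  rw [hγ', map_nsmul] at h1
  have h2 : KM.map m g γ - γ ∈ tor (2 ^ ((n + 2) * J.card)) _ := by
    rw [mem_tor, smul_sub, h1, sub_self]
  refine tor_mono ?_ h2
  unfold TT
  apply pow_dvd_pow
  have h3 : J.card ≤ n := by
    have := Finset.card_le_univ J
    simpa using this
  have h4 := Nat.mul_le_mul_left (n + 2) h3
  omega

end UnrA
end

section

/-!
# Descent to the field generated by the variables over the constants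
-/

namespace UnrA

universe u v w z

open Polynomial WeierstrassCurve
open scoped Classical
open UnrH3 (cl subset_cl adj le_adj subset_adj adj_le IndFam hom_gen_id family_M family_single_M
  mem_fixF of_mem_fixF fixF cl_mono cl_le IndSet restrict_hom)
open UnrH3.Ell (EllW OnW Fam IsFr crv crv_frob crv_ell fix_of_fix npt)

variable {m : UFun.{u, z}} {Λ : Type u} [Field Λ] {n : ℕ}

section trace

variable {M N : Subfield Λ} (Γ : Subgroup (M ≃+* M)) [Finite Γ] (hNM : N ≤ M)
  (hN : ∀ z : M, (z : Λ) ∈ N ↔ ∀ k ∈ Γ, k z = z)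

include hN

omit [Finite Γ] in
lemma exists_fixed_iso : ∃ (φ : FixedPoints.subfield Γ M →+* N)
    (ψ : N →+* FixedPoints.subfield Γ M),
    (Subfield.inclusion hNM).comp φ = (FixedPoints.subfield Γ M).subtype ∧
    (FixedPoints.subfield Γ M).subtype.comp ψ = Subfield.inclusion hNM ∧
    φ.comp ψ = RingHom.id N := by
  have h1 : ∀ z : FixedPoints.subfield Γ M, (((z : M) : M) : Λ) ∈ N := by
    intro z
    rw [hN]
    intro k hk
    exact z.2 (⟨k, hk⟩ : Γ)
  have h2 : ∀ z : N, Subfield.inclusion hNM z ∈ FixedPoints.subfield Γ M := by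
    intro z
    rintro ⟨k, hk⟩
    exact (hN (Subfield.inclusion hNM z)).mp z.2 k hk
  refine ⟨(M.subtype.comp (FixedPoints.subfield Γ M).subtype).codRestrict N h1,
    (Subfield.inclusion hNM).codRestrict _ h2, ?_, ?_, ?_⟩
  · ext z; rfl
  · ext z; rfl
  · ext z; rfl

/-- Descent of almost invariant classes. -/
theorem trace_descend {T : ℕ} {γ : KM m M} (hu : Unr γ)
    (hγ : ∀ g ∈ Γ, KM.map m (g : M →+* M) γ - γ ∈ tor T _) :
    ∃ v : KM m N, Unr v ∧ up m hNM v = (T * Nat.card Γ ^ 2) • γ := by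
  obtain ⟨φ, ψ, h1, h2, h3⟩ := exists_fixed_iso Γ hNM hN
  obtain ⟨v, hv, hvγ⟩ := fixed_trace Γ hu hγ
  refine ⟨KM.map m φ v, hv.map φ, ?_⟩
  rw [up, KM.map_map, h1, hvγ]

/-- The kernel of the restriction. -/
theorem trace_ker {v : KM m N} (hv : up m hNM v = 0) : Nat.card Γ • v = 0 := by
  obtain ⟨φ, ψ, h1, h2, h3⟩ := exists_fixed_iso Γ hNM hN
  have h4 : KM.map m (FixedPoints.subfield Γ M).subtype (KM.map m ψ v) = 0 := by
    rw [KM.map_map, h2]
    exact hv
  have h5 := fixed_ker Γ h4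
  have h6 := congrArg (KM.map m φ) h5
  rw [map_nsmul, KM.map_map, h3, KM.map_id, map_zero] at h6
  exact h6

end trace

section

variable {κ : Type w} [Field κ] {j : κ →+* Λ} {C M MF : Subfield Λ} {a b c : Fin n → κ}
  {X Y : Fin n → Λ} {I J : Finset (Fin n)} {r : ℕ} {F₀ : Subfield Λ} {t : Fin r → Λ}

lemma adj_comm' (F₀ : Subfield Λ) (S T : Set Λ) : adj (adj F₀ S) T = adj (adj F₀ T) S := by
  rw [UnrH3.adj_adj, UnrH3.adj_adj, Set.union_comm]

lemma up_comp {A B : Subfield Λ} (h : A ≤ B) {g : A →+* A} {g' : B →+* B}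
    (hg : ∀ z : A, (g z : Λ) = g' (Subfield.inclusion h z)) (ξ : KM m A) :
    up m h (KM.map m g ξ) = KM.map m g' (up m h ξ) := by
  rw [up, KM.map_map, KM.map_map]
  congr 2
  ext z
  exact hg z

/-- Restriction of a sign change to a smaller field of coefficients. -/
lemma flip_restrict {k₀ N : Subfield Λ} (hk₀C : k₀ ≤ C)
    (hM : M = adj C (Set.range X ∪ Set.range Y)) (hN : N = adj k₀ (Set.range X ∪ Set.range Y))
    (hle : N ≤ M) {l : Fin n} {G : M →+* M} (hG : IsFlip C X Y l G) {g : N →+* N}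
    (hg : IsFlip k₀ X Y l g) (z : N) : (g z : Λ) = G (Subfield.inclusion hle z) := by
  have hX : ∀ i, X i ∈ N := fun i => by rw [hN]; exact subset_adj _ _ (Or.inl ⟨i, rfl⟩)
  have hY : ∀ i, Y i ∈ N := fun i => by rw [hN]; exact subset_adj _ _ (Or.inr ⟨i, rfl⟩)
  have hkN : k₀ ≤ N := by rw [hN]; exact le_adj _ _
  obtain ⟨g', hg'⟩ := restrict_hom hle hN G
    (fun z hz => by rw [hG.c z (hk₀C hz)]; exact hkN hz)
    (by
      rintro z (⟨i, hi⟩ | ⟨i, hi⟩)
      · rw [hG.x i z hi.symm, ← hi]; exact hX i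
      · rw [hG.y i z hi.symm]
        split_ifs
        · push_cast
          rw [← hi]
          exact neg_mem (hY i)
        · rw [← hi]; exact hY i)
  have h1 : g = g' := by
    apply hom_gen_id hN
    · intro z hz
      apply Subtype.ext
      rw [hg.c z hz, hg', hG.c _ (hk₀C hz)]
      rfl
    · rintro z (⟨i, hi⟩ | ⟨i, hi⟩)
      · apply Subtype.ext
        rw [hg.x i z hi.symm, hg', hG.x i _ hi.symm]
        rfl
      · apply Subtype.ext
        rw [hg.y i z hi.symm, hg', hG.y i _ hi.symm]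
        split_ifs <;> rfl
  rw [h1, hg']

/-- Descent to the field generated by the variables over the fixed coefficients. -/
theorem k_descend (F : Fam j C a b c X Y) {k₀ N : Subfield Λ} (hk₀C : k₀ ≤ C)
    (hM : M = adj C (Set.range X ∪ Set.range Y)) (hNdef : N = adj k₀ (Set.range X ∪ Set.range Y))
    (hle : N ≤ M) (Γ : Subgroup (M ≃+* M)) [Finite Γ]
    (hN : ∀ z : M, (z : Λ) ∈ N ↔ ∀ k ∈ Γ, k z = z) {T : ℕ} {γ : KM m M} (hu : Unr γ)
    (hγ : ∀ g ∈ Γ, KM.map m (g : M →+* M) γ - γ ∈ tor T _) (ho : Par C X Y I γ) :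
    ∃ v : KM m N, Unr v ∧ Par k₀ X Y I v ∧ up m hle v = (T * Nat.card Γ ^ 3) • γ := by
  obtain ⟨v, hv, hvγ⟩ := trace_descend Γ hle hN hu hγ
  refine ⟨Nat.card Γ • v, hv.nsmul _, ?_, ?_⟩
  · intro l g hg
    obtain ⟨G, G1, G2, G3⟩ := F.exists_flip hM l
    have hG : IsFlip C X Y l G := ⟨G1, G2, G3⟩
    have h2 := ho l G hG
    have h1 : up m hle (KM.map m g v - (if l ∈ I then (-1 : ℤ) else 1) • v) = 0 := by
      rw [map_sub, up_comp hle (flip_restrict hk₀C hM hNdef hle hG hg), map_zsmul, hvγ,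
        map_nsmul, h2]
      split_ifs
      · rw [neg_one_smul, smul_neg, sub_self]
      · rw [one_smul, sub_self]
    have h3 := trace_ker Γ hle hN h1
    rw [smul_sub, sub_eq_zero] at h3
    rw [map_nsmul, h3]
    split_ifs
    · rw [neg_one_smul, smul_neg]
    · rw [one_smul]
  · rw [map_nsmul, hvγ, smul_smul]
    congr 1
    ring

end

end UnrA
end

section

/-!
# Permutations of the variables and sign changes
-/

namespace UnrA

universe u v w z

open Polynomial WeierstrassCurve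
open scoped Classical
open UnrH3 (cl subset_cl adj le_adj subset_adj adj_le IndFam hom_gen_id family_M family_single_M
  mem_fixF of_mem_fixF fixF cl_mono cl_le)
open UnrH3.Ell (EllW OnW Fam IsFr crv crv_frob crv_ell fix_of_fix npt)

variable {m : UFun.{u, z}} {Λ : Type u} [Field Λ] {n : ℕ}

/-- The endomorphism `g` of `M` permutes the variables by `π` and changes signs by `ε`. -/
structure IsSlot (C : Subfield Λ) (X Y : Fin n → Λ) {M : Subfield Λ} (π : Equiv.Perm (Fin n))
    (ε : Fin n → ℤˣ) (g : M →+* M) : Prop where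
  c : ∀ z : M, (z : Λ) ∈ C → g z = z
  x : ∀ i, ∀ z : M, (z : Λ) = X i → (g z : Λ) = X (π i)
  y : ∀ i, ∀ z : M, (z : Λ) = Y i → (g z : Λ) = ((ε i : ℤ) : Λ) * Y (π i)

/-- The sign of a signed permutation preserving `I`, on the variables with index in `I`. -/
def chi (I : Finset (Fin n)) (π : Equiv.Perm (Fin n)) (hI : ∀ i, π i ∈ I ↔ i ∈ I)
    (ε : Fin n → ℤˣ) : ℤˣ :=
  Equiv.Perm.sign (π.subtypePerm hI) * ∏ i ∈ I, ε i

variable {κ : Type w} [Field κ] {j : κ →+* Λ} {C M : Subfield Λ} {a b c : Fin n → κ}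
  {X Y : Fin n → Λ} {I J : Finset (Fin n)}

lemma IsSlot.unique (hM : M = adj C (Set.range X ∪ Set.range Y)) {π : Equiv.Perm (Fin n)}
    {ε : Fin n → ℤˣ} {g g' : M →+* M} (h : IsSlot C X Y π ε g) (h' : IsSlot C X Y π ε g') :
    g = g' := by
  apply hom_gen_id hM
  · intro z hz
    rw [h.c z hz, h'.c z hz]
  · rintro z (⟨i, hi⟩ | ⟨i, hi⟩)
    · exact Subtype.ext (by rw [h.x i z hi.symm, h'.x i z hi.symm])
    · exact Subtype.ext (by rw [h.y i z hi.symm, h'.y i z hi.symm])

lemma IsSlot.id : IsSlot C X Y (M := M) 1 1 (RingHom.id M) where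
  c _ _ := rfl
  x i z hz := hz
  y i z hz := by
    rw [RingHom.id_apply, hz]
    simp

lemma IsSlot.comp {π π' : Equiv.Perm (Fin n)} {ε ε' : Fin n → ℤˣ} {g g' : M →+* M}
    (hM : M = adj C (Set.range X ∪ Set.range Y))
    (h : IsSlot C X Y π ε g) (h' : IsSlot C X Y π' ε' g') :
    IsSlot C X Y (π * π') (fun i => ε' i * ε (π' i)) (g.comp g') where
  c z hz := by rw [RingHom.comp_apply, h'.c z hz, h.c z hz]
  x i z hz := by
    rw [RingHom.comp_apply, h.x (π' i) _ (h'.x i z hz)]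
    rfl
  y i z hz := by
    have hY : Y (π' i) ∈ M := by rw [hM]; exact subset_adj _ _ (Or.inr ⟨_, rfl⟩)
    have h1 : g' z = ((ε' i : ℤ) : M) * ⟨Y (π' i), hY⟩ := by
      apply Subtype.ext
      rw [h'.y i z hz]
      push_cast
      rfl
    rw [RingHom.comp_apply, h1, map_mul, map_intCast]
    push_cast
    rw [h.y (π' i) _ rfl, ← mul_assoc]
    rfl

lemma chi_mul {π π' : Equiv.Perm (Fin n)} {ε ε' : Fin n → ℤˣ} (hI : ∀ i, π i ∈ I ↔ i ∈ I)
    (hI' : ∀ i, π' i ∈ I ↔ i ∈ I) (hII : ∀ i, (π * π') i ∈ I ↔ i ∈ I) :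
    chi I (π * π') hII (fun i => ε' i * ε (π' i)) = chi I π hI ε * chi I π' hI' ε' := by
  unfold chi
  have h1 : (π * π').subtypePerm hII = π.subtypePerm hI * π'.subtypePerm hI' := by
    ext i
    rfl
  have h2 : ∏ i ∈ I, ε (π' i) = ∏ i ∈ I, ε i := by
    refine Finset.prod_bij (fun i _ => π' i) (fun i hi => (hI' i).mpr hi)
      (fun i _ l _ h => π'.injective h) (fun l hl => ⟨π'.symm l, ?_, ?_⟩) (fun i _ => rfl)
    · rw [← hI', Equiv.apply_symm_apply]; exact hl
    · exact Equiv.apply_symm_apply _ _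
  rw [h1, Equiv.Perm.sign_mul, Finset.prod_mul_distrib, h2, mul_comm (∏ i ∈ I, ε' i),
    mul_mul_mul_comm]

/-- The signed permutation is realised and acts on the classes by its sign. -/
def SlotOK (m : UFun.{u, z}) (C M : Subfield Λ) (X Y : Fin n → Λ) (I : Finset (Fin n))
    (π : Equiv.Perm (Fin n)) (ε : Fin n → ℤˣ) : Prop :=
  ∃ hI : ∀ i, π i ∈ I ↔ i ∈ I, ∃ g : M →+* M, IsSlot C X Y π ε g ∧
    ∀ γ : KM m M, Unr γ → Par C X Y I γ →
      KM.map m g γ - ((chi I π hI ε : ℤˣ) : ℤ) • γ ∈ tor (TT n) _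

lemma SlotOK.one : SlotOK m C M X Y I 1 1 := by
  refine ⟨fun i => Iff.rfl, RingHom.id M, IsSlot.id, fun γ _ _ => ?_⟩
  have h1 : chi I (1 : Equiv.Perm (Fin n)) (fun i => Iff.rfl) 1 = 1 := by
    unfold chi
    have h2 : (1 : Equiv.Perm (Fin n)).subtypePerm (p := fun i => i ∈ I) (fun i => Iff.rfl) = 1 := by
      ext i
      rfl
    rw [h2, Equiv.Perm.sign_one]
    simp
  rw [h1, KM.map_id]
  simp

lemma SlotOK.mul (hM : M = adj C (Set.range X ∪ Set.range Y)) {π π' : Equiv.Perm (Fin n)}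
    {ε ε' : Fin n → ℤˣ} (h : SlotOK m C M X Y I π ε) (h' : SlotOK m C M X Y I π' ε') :
    SlotOK m C M X Y I (π * π') (fun i => ε' i * ε (π' i)) := by
  obtain ⟨hI, g, hg, hγ⟩ := h
  obtain ⟨hI', g', hg', hγ'⟩ := h'
  have hII : ∀ i, (π * π') i ∈ I ↔ i ∈ I := fun i => (hI (π' i)).trans (hI' i)
  refine ⟨hII, g.comp g', hg.comp hM hg', fun γ hu ho => ?_⟩
  rw [chi_mul hI hI' hII, ← KM.map_map]
  have h1 := tor_map (KM.map m g)
    (hγ' γ hu ho)
  have h2 := tor_zsmul ((chi I π' hI' ε' : ℤˣ) : ℤ) (hγ γ hu ho)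
  have h3 := add_mem h1 h2
  convert h3 using 1
  change _ = KM.map m g (KM.map m g' γ - ((chi I π' hI' ε' : ℤˣ) : ℤ) • γ) + _
  rw [map_sub, map_zsmul, smul_sub, smul_smul]
  push_cast
  rw [mul_comm ((chi I π hI ε : ℤˣ) : ℤ)]
  abel

lemma chi_swap_mem {i l : Fin n} (hil : i ≠ l) (hi : i ∈ I) (hl : l ∈ I)
    (hI : ∀ t, Equiv.swap i l t ∈ I ↔ t ∈ I) : chi I (Equiv.swap i l) hI 1 = -1 := by
  unfold chi
  have h1 : (Equiv.swap i l).subtypePerm hI = Equiv.swap (⟨i, hi⟩ : {t // t ∈ I}) ⟨l, hl⟩ := by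
    refine Equiv.ext fun t => Subtype.ext ?_
    change Equiv.swap i l (t : Fin n) = _
    by_cases h1 : (t : Fin n) = i
    · have h2 : t = ⟨i, hi⟩ := Subtype.ext h1
      rw [h2, Equiv.swap_apply_left, Equiv.swap_apply_left]
    by_cases h3 : (t : Fin n) = l
    · have h2 : t = ⟨l, hl⟩ := Subtype.ext h3
      rw [h2, Equiv.swap_apply_right, Equiv.swap_apply_right]
    rw [Equiv.swap_apply_of_ne_of_ne h1 h3, Equiv.swap_apply_of_ne_of_ne]
    · exact fun h => h1 (congrArg Subtype.val h)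
    · exact fun h => h3 (congrArg Subtype.val h)
  rw [h1, Equiv.Perm.sign_swap (fun h => hil (congrArg Subtype.val h))]
  simp

lemma chi_swap_notMem {i l : Fin n} (hi : i ∉ I) (hl : l ∉ I)
    (hI : ∀ t, Equiv.swap i l t ∈ I ↔ t ∈ I) : chi I (Equiv.swap i l) hI 1 = 1 := by
  unfold chi
  have h1 : (Equiv.swap i l).subtypePerm hI = 1 := by
    refine Equiv.ext fun t => Subtype.ext ?_
    change Equiv.swap i l (t : Fin n) = (t : Fin n)
    apply Equiv.swap_apply_of_ne_of_ne
    · intro h; exact hi (h ▸ t.2)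
    · intro h; exact hl (h ▸ t.2)
  rw [h1, Equiv.Perm.sign_one]
  simp

lemma SlotOK.swap (F : Fam j C a b c X Y) (hM : M = adj C (Set.range X ∪ Set.range Y))
    {i l : Fin n} (hil : i ≠ l) (hI : i ∈ I ↔ l ∈ I) (ha : a i = a l) (hb : b i = b l)
    (hc : c i = c l) : SlotOK m C M X Y I (Equiv.swap i l) 1 := by
  have hII : ∀ t, Equiv.swap i l t ∈ I ↔ t ∈ I := by
    intro t
    by_cases h1 : t = i
    · rw [h1, Equiv.swap_apply_left]; exact hI.symm
    by_cases h2 : t = l
    · rw [h2, Equiv.swap_apply_right]; exact hI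
    rw [Equiv.swap_apply_of_ne_of_ne h1 h2]
  obtain ⟨g, gC, gX, gY⟩ := fam_exists_swap F hM hil ha hb hc
  refine ⟨hII, g, ⟨gC, gX, ?_⟩, ?_⟩
  · intro t z hz
    rw [gY t z hz]
    simp
  · intro γ hu ho
    by_cases hi : i ∈ I
    · have hl := hI.mp hi
      rw [chi_swap_mem hil hi hl]
      have h1 := fam_swap F hM hil ha hb hc gC gX gY hu ho hi hl
      have h2 : (((-1 : ℤˣ)) : ℤ) = -1 := rfl
      rw [h2, neg_one_smul, sub_neg_eq_add]
      exact tor_TT_of_dvd (by norm_num) h1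
    · have hl : l ∉ I := fun h => hi (hI.mpr h)
      rw [chi_swap_notMem hi hl]
      have h2 : (((1 : ℤˣ)) : ℤ) = 1 := rfl
      rw [h2, one_smul]
      apply even_fix F hM (J := {i, l}) _ hu ho g
      · intro z hz
        refine fix_of_fix hM (I := {t | t ∉ ({i, l} : Finset (Fin n))}) rfl gC ?_ z hz
        intro t ht
        have ht' : t ≠ i ∧ t ≠ l := by
          simpa [not_or] using ht
        refine ⟨fun z hz => Subtype.ext ?_, fun z hz => Subtype.ext ?_⟩
        · rw [gX t z hz, Equiv.swap_apply_of_ne_of_ne ht'.1 ht'.2, hz]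
        · rw [gY t z hz, Equiv.swap_apply_of_ne_of_ne ht'.1 ht'.2, hz]
      · rw [Finset.disjoint_right]
        intro t ht
        rw [Finset.mem_insert, Finset.mem_singleton] at ht
        rcases ht with rfl | rfl
        · exact hi
        · exact hl

lemma SlotOK.flip (F : Fam j C a b c X Y) (hM : M = adj C (Set.range X ∪ Set.range Y))
    (i : Fin n) : SlotOK m C M X Y I 1 (fun t => if t = i then -1 else 1) := by
  obtain ⟨g, g1, g2, g3⟩ := F.exists_flip hM i
  refine ⟨fun _ => Iff.rfl, g, ⟨g1, fun t z hz => ?_, fun t z hz => ?_⟩, fun γ hu ho => ?_⟩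
  · rw [g2 t z hz]; exact hz
  · rw [g3 t z hz]
    split_ifs
    · push_cast
      rw [hz]
      simp
    · rw [hz]
      simp
  · have h1 : chi I (1 : Equiv.Perm (Fin n)) (fun i => Iff.rfl)
        (fun t => if t = i then -1 else 1) = if i ∈ I then -1 else 1 := by
      unfold chi
      have h2 : (1 : Equiv.Perm (Fin n)).subtypePerm (p := fun i => i ∈ I)
          (fun i => Iff.rfl) = 1 := by
        ext i
        rfl
      rw [h2, Equiv.Perm.sign_one, one_mul, Finset.prod_ite_eq' I i]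
    rw [h1, ho i g ⟨g1, g2, g3⟩]
    split_ifs
    · have h2 : (((-1 : ℤˣ)) : ℤ) = -1 := rfl
      rw [h2, neg_one_smul, sub_self]
      exact zero_mem _
    · have h2 : (((1 : ℤˣ)) : ℤ) = 1 := rfl
      rw [h2, one_smul, sub_self]
      exact zero_mem _

lemma SlotOK.flips (F : Fam j C a b c X Y) (hM : M = adj C (Set.range X ∪ Set.range Y))
    (J : Finset (Fin n)) : SlotOK m C M X Y I 1 (fun t => if t ∈ J then -1 else 1) := by
  induction J using Finset.induction_on with
  | empty =>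
    have h := SlotOK.one (m := m) (C := C) (M := M) (X := X) (Y := Y) (I := I)
    convert h using 1
    funext t
    simp
  | insert i J hi ih =>
    have h := (SlotOK.flip (m := m) (I := I) F hM i).mul hM ih
    rw [mul_one] at h
    convert h using 1
    funext t
    rw [Equiv.Perm.one_apply]
    by_cases h1 : t = i
    · subst h1
      rw [if_pos (Finset.mem_insert_self t J), if_neg hi, if_pos rfl, one_mul]
    · rw [if_neg h1, mul_one]
      by_cases h2 : t ∈ J
      · rw [if_pos h2, if_pos (Finset.mem_insert_of_mem h2)]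
      · rw [if_neg h2, if_neg (by rw [Finset.mem_insert]; tauto)]

lemma SlotOK.perm (F : Fam j C a b c X Y) (hM : M = adj C (Set.range X ∪ Set.range Y)) :
    ∀ (N : ℕ) (π : Equiv.Perm (Fin n)), π.support.card ≤ N → (∀ i, π i ∈ I ↔ i ∈ I) →
      (∀ i, a (π i) = a i) → (∀ i, b (π i) = b i) → (∀ i, c (π i) = c i) →
      SlotOK m C M X Y I π 1 := by
  intro N
  induction N with
  | zero =>
    intro π h0 _ _ _ _
    have hπ : π = 1 := by
      rw [← Equiv.Perm.card_support_eq_zero]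
      omega
    rw [hπ]
    exact SlotOK.one
  | succ N ih =>
    intro π hN hI ha hb hc
    by_cases hπ : π = 1
    · rw [hπ]
      exact SlotOK.one
    obtain ⟨i, hi⟩ : ∃ i, π i ≠ i := by
      by_contra h
      push Not at h
      exact hπ (Equiv.ext h)
    have hcard : (Equiv.swap i (π i) * π).support.card < π.support.card :=
      Equiv.Perm.card_support_swap_mul hi
    have hsw : ∀ {α : Type w} (f : Fin n → α), f (π i) = f i →
        ∀ t, f (Equiv.swap i (π i) t) = f t := by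
      intro α f hf t
      by_cases h1 : t = i
      · rw [h1, Equiv.swap_apply_left, hf]
      by_cases h2 : t = π i
      · rw [h2, Equiv.swap_apply_right, hf]
      rw [Equiv.swap_apply_of_ne_of_ne h1 h2]
    have hswI : ∀ t, Equiv.swap i (π i) t ∈ I ↔ t ∈ I := by
      intro t
      by_cases h1 : t = i
      · rw [h1, Equiv.swap_apply_left, hI]
      by_cases h2 : t = π i
      · rw [h2, Equiv.swap_apply_right, hI]
      rw [Equiv.swap_apply_of_ne_of_ne h1 h2]
    have h1 : SlotOK m C M X Y I (Equiv.swap i (π i) * π) 1 := by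
      apply ih
      · omega
      · intro t
        rw [Equiv.Perm.mul_apply, hswI, hI]
      · intro t
        rw [Equiv.Perm.mul_apply, hsw a (ha i), ha]
      · intro t
        rw [Equiv.Perm.mul_apply, hsw b (hb i), hb]
      · intro t
        rw [Equiv.Perm.mul_apply, hsw c (hc i), hc]
    have h2 : SlotOK m C M X Y I (Equiv.swap i (π i)) 1 :=
      SlotOK.swap F hM hi.symm (hI i).symm (ha i).symm (hb i).symm (hc i).symm
    have h3 := h2.mul hM h1
    have h4 : Equiv.swap i (π i) * (Equiv.swap i (π i) * π) = π := by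
      rw [← mul_assoc, Equiv.swap_mul_self, one_mul]
    rw [h4] at h3
    convert h3 using 1
    funext t
    simp

lemma SlotOK.all (F : Fam j C a b c X Y) (hM : M = adj C (Set.range X ∪ Set.range Y))
    (π : Equiv.Perm (Fin n)) (ε : Fin n → ℤˣ) (ha : ∀ i, a (π i) = a i)
    (hb : ∀ i, b (π i) = b i) (hc : ∀ i, c (π i) = c i) (hI : ∀ i, π i ∈ I ↔ i ∈ I) :
    SlotOK m C M X Y I π ε := by
  have h := (SlotOK.perm (m := m) (I := I) F hM _ π le_rfl hI ha hb hc).mul hM
    (SlotOK.flips (m := m) (I := I) F hM (Finset.univ.filter fun t => ε t = -1))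
  rw [mul_one] at h
  convert h using 1
  funext t
  rw [Equiv.Perm.one_apply, Pi.one_apply, mul_one]
  simp only [Finset.mem_filter, Finset.mem_univ, true_and]
  rcases Int.units_eq_one_or (ε t) with h1 | h1
  · rw [h1, if_neg (by decide)]
  · rw [h1, if_pos rfl]

/-- Existence of the signed permutations of the variables, and their action on the unramified
classes of given parity. -/
theorem exists_slot (F : Fam j C a b c X Y) (hM : M = adj C (Set.range X ∪ Set.range Y))
    (π : Equiv.Perm (Fin n)) (ε : Fin n → ℤˣ) (ha : ∀ i, a (π i) = a i)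
    (hb : ∀ i, b (π i) = b i) (hc : ∀ i, c (π i) = c i) :
    ∃ g : M →+* M, IsSlot C X Y π ε g := by
  obtain ⟨-, g, hg, -⟩ := SlotOK.all (m := UFun.triv.{u, 0}) (I := ∅) F hM π ε ha hb hc (fun i => by simp)
  exact ⟨g, hg⟩

theorem slot_action (F : Fam j C a b c X Y) (hM : M = adj C (Set.range X ∪ Set.range Y))
    {π : Equiv.Perm (Fin n)} {ε : Fin n → ℤˣ} (ha : ∀ i, a (π i) = a i)
    (hb : ∀ i, b (π i) = b i) (hc : ∀ i, c (π i) = c i) (hI : ∀ i, π i ∈ I ↔ i ∈ I)
    {g : M →+* M} (hg : IsSlot C X Y π ε g) {γ : KM m M} (hu : Unr γ) (ho : Par C X Y I γ) :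
    KM.map m g γ - ((chi I π hI ε : ℤˣ) : ℤ) • γ ∈ tor (TT n) _ := by
  obtain ⟨_, g', hg', h⟩ := SlotOK.all (m := m) (I := I) F hM π ε ha hb hc hI
  rw [hg.unique hM hg']
  exact h γ hu ho

end UnrA
end

section

/-!
# Semilinear signed permutations of the variables, and their coefficient parts
-/

namespace UnrA

universe u v w z

open Polynomial WeierstrassCurve
open scoped Classical
open UnrH3 (cl subset_cl adj le_adj subset_adj adj_le IndFam hom_gen_id family_M family_single_M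
  mem_fixF of_mem_fixF fixF cl_mono cl_le)
open UnrH3.Ell (EllW OnW Fam IsFr crv crv_frob crv_ell fix_of_fix npt)

variable {m : UFun.{u, z}} {Λ : Type u} [Field Λ] {n : ℕ}

/-- The endomorphism `h` of `M` preserves `C`, permutes the variables by `π` and changes signs
by `ε`. -/
structure IsSemi (C : Subfield Λ) (X Y : Fin n → Λ) {M : Subfield Λ} (π : Equiv.Perm (Fin n))
    (ε : Fin n → ℤˣ) (h : M →+* M) : Prop where
  c : ∀ z : M, (z : Λ) ∈ C → (h z : Λ) ∈ C
  x : ∀ i, ∀ z : M, (z : Λ) = X i → (h z : Λ) = X (π i)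
  y : ∀ i, ∀ z : M, (z : Λ) = Y i → (h z : Λ) = ((ε i : ℤ) : Λ) * Y (π i)

/-- The endomorphism `k` fixes the variables and acts on the coefficients as `h`. -/
structure IsCoef (C : Subfield Λ) (X Y : Fin n → Λ) {M : Subfield Λ} (h k : M →+* M) : Prop where
  c : ∀ z : M, (z : Λ) ∈ C → k z = h z
  x : ∀ i, ∀ z : M, (z : Λ) = X i → k z = z
  y : ∀ i, ∀ z : M, (z : Λ) = Y i → k z = z

variable {κ : Type w} [Field κ] {j : κ →+* Λ} {C M : Subfield Λ} {a b c : Fin n → κ}
  {X Y : Fin n → Λ} {I J : Finset (Fin n)}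

lemma perm_inv (π : Equiv.Perm (Fin n)) (i : Fin n) : π (π⁻¹ i) = i := π.apply_symm_apply i

lemma IsCoef.unique (hM : M = adj C (Set.range X ∪ Set.range Y)) {h k k' : M →+* M}
    (hk : IsCoef C X Y h k) (hk' : IsCoef C X Y h k') : k = k' := by
  apply hom_gen_id hM
  · intro z hz
    rw [hk.c z hz, hk'.c z hz]
  · rintro z (⟨i, hi⟩ | ⟨i, hi⟩)
    · rw [hk.x i z hi.symm, hk'.x i z hi.symm]
    · rw [hk.y i z hi.symm, hk'.y i z hi.symm]

lemma IsCoef.id : IsCoef C X Y (RingHom.id M) (RingHom.id M) where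
  c _ _ := rfl
  x _ _ _ := rfl
  y _ _ _ := rfl

lemma IsCoef.comp {h k h' k' : M →+* M} (hk : IsCoef C X Y h k) (hk' : IsCoef C X Y h' k')
    (hC : ∀ z : M, (z : Λ) ∈ C → (h' z : Λ) ∈ C) :
    IsCoef C X Y (h.comp h') (k.comp k') where
  c z hz := by
    rw [RingHom.comp_apply, RingHom.comp_apply, hk'.c z hz, hk.c _ (hC z hz)]
  x i z hz := by
    rw [RingHom.comp_apply, hk'.x i z hz, hk.x i z hz]
  y i z hz := by
    rw [RingHom.comp_apply, hk'.y i z hz, hk.y i z hz]

/-- Existence of the coefficient part and its action on the classes. -/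
theorem coef_exists (F : Fam j C a b c X Y) (hM : M = adj C (Set.range X ∪ Set.range Y))
    {π : Equiv.Perm (Fin n)} {ε : Fin n → ℤˣ} (ha : ∀ i, a (π i) = a i)
    (hb : ∀ i, b (π i) = b i) (hc : ∀ i, c (π i) = c i) {h : M →+* M}
    (hh : IsSemi C X Y π ε h) :
    ∃ k : M →+* M, IsCoef C X Y h k ∧ ∀ (I : Finset (Fin n)) (hI : ∀ i, π i ∈ I ↔ i ∈ I),
      ∀ γ : KM m M, Unr γ → Par C X Y I γ → KM.map m h γ = γ →
        KM.map m k γ - ((chi I π hI ε : ℤˣ) : ℤ) • γ ∈ tor (TT n) _ := by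
  have ha' : ∀ i, a (π⁻¹ i) = a i := fun i => by
    rw [← ha (π⁻¹ i), perm_inv]
  have hb' : ∀ i, b (π⁻¹ i) = b i := fun i => by
    rw [← hb (π⁻¹ i), perm_inv]
  have hc' : ∀ i, c (π⁻¹ i) = c i := fun i => by
    rw [← hc (π⁻¹ i), perm_inv]
  obtain ⟨s, hs⟩ := exists_slot F hM π⁻¹ (fun i => ε (π⁻¹ i)) ha' hb' hc'
  refine ⟨h.comp s, ⟨?_, ?_, ?_⟩, ?_⟩
  · intro z hz
    rw [RingHom.comp_apply, hs.c z hz]
  · intro i z hz
    apply Subtype.ext
    rw [RingHom.comp_apply, hh.x _ _ (hs.x i z hz), perm_inv, hz]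
  · intro i z hz
    have hY : Y (π⁻¹ i) ∈ M := by rw [hM]; exact subset_adj _ _ (Or.inr ⟨_, rfl⟩)
    have h1 : s z = ((ε (π⁻¹ i) : ℤ) : M) * ⟨Y (π⁻¹ i), hY⟩ := by
      apply Subtype.ext
      rw [hs.y i z hz]
      push_cast
      rfl
    apply Subtype.ext
    rw [RingHom.comp_apply, h1, map_mul, map_intCast]
    push_cast
    rw [hh.y (π⁻¹ i) _ rfl, ← mul_assoc, perm_inv, hz]
    have h2 : (((ε (π⁻¹ i) : ℤ)) : Λ) * ((ε (π⁻¹ i) : ℤ)) = 1 := by
      rw [← Int.cast_mul, ← Units.val_mul, Int.units_mul_self]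
      simp
    rw [h2, one_mul]
  · intro I hI γ hu ho hγ
    have hI' : ∀ i, π⁻¹ i ∈ I ↔ i ∈ I := fun i => by
      rw [← hI (π⁻¹ i), perm_inv]
    have hχ' : chi I π⁻¹ hI' (fun i => ε (π⁻¹ i)) = chi I π hI ε := by
      have hII : ∀ i, (π * π⁻¹) i ∈ I ↔ i ∈ I := fun i => (hI (π⁻¹ i)).trans (hI' i)
      have h1 := chi_mul (ε := ε) (ε' := fun i => ε (π⁻¹ i)) hI hI' hII
      have h2 : chi I (π * π⁻¹) hII (fun i => ε (π⁻¹ i) * ε (π⁻¹ i)) = 1 := by
        unfold chi
        have h3 : (π * π⁻¹).subtypePerm hII = 1 := by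
          refine Equiv.ext fun t => Subtype.ext ?_
          change π (π⁻¹ (t : Fin n)) = (t : Fin n)
          exact perm_inv _ _
        rw [h3, Equiv.Perm.sign_one, one_mul]
        exact Finset.prod_eq_one fun i _ => Int.units_mul_self _
      rw [h2] at h1
      have h3 := congrArg (chi I π hI ε * ·) h1
      simp only [mul_one, ← mul_assoc, Int.units_mul_self, one_mul] at h3
      exact h3.symm
    have h3 := slot_action (m := m) F hM ha' hb' hc' hI' hs hu ho
    rw [hχ'] at h3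
    have h5 := tor_map (KM.map m h) h3
    have h6 : KM.map m h (KM.map m s γ - ((chi I π hI ε : ℤˣ) : ℤ) • γ) =
        KM.map m (h.comp s) γ - ((chi I π hI ε : ℤˣ) : ℤ) • γ := by
      rw [map_sub, KM.map_map, map_zsmul, hγ]
    rwa [h6] at h5

/-- The group of the coefficient parts of the elements of `G`. -/
def coefGroup (C : Subfield Λ) (X Y : Fin n → Λ) {M : Subfield Λ} (G : Subgroup (M ≃+* M))
    (hG : ∀ h ∈ G, ∀ z : M, (z : Λ) ∈ C → (h z : Λ) ∈ C) : Subgroup (M ≃+* M) where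
  carrier := {k | ∃ h ∈ G, IsCoef C X Y (h : M →+* M) (k : M →+* M)}
  mul_mem' := by
    rintro k k' ⟨h, hh, hk⟩ ⟨h', hh', hk'⟩
    exact ⟨h * h', mul_mem hh hh', hk.comp hk' (hG h' hh')⟩
  one_mem' := ⟨1, one_mem _, IsCoef.id⟩
  inv_mem' := by
    rintro k ⟨h, hh, hk⟩
    refine ⟨h⁻¹, inv_mem hh, ?_, ?_, ?_⟩
    · intro z hz
      have h1 := hG h⁻¹ (inv_mem hh) z hz
      have h2 := hk.c _ h1
      change k ((h⁻¹ : M ≃+* M) z) = h ((h⁻¹ : M ≃+* M) z) at h2
      have h3 : h ((h⁻¹ : M ≃+* M) z) = z := h.apply_symm_apply z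
      rw [h3] at h2
      change k.symm z = (h⁻¹ : M ≃+* M) z
      rw [RingEquiv.symm_apply_eq]
      exact h2.symm
    · intro i z hz
      change k.symm z = z
      rw [RingEquiv.symm_apply_eq]
      exact (hk.x i z hz).symm
    · intro i z hz
      change k.symm z = z
      rw [RingEquiv.symm_apply_eq]
      exact (hk.y i z hz).symm

variable {G : Subgroup (M ≃+* M)} (hG : ∀ h ∈ G, ∀ z : M, (z : Λ) ∈ C → (h z : Λ) ∈ C)

lemma coef_equiv (hM : M = adj C (Set.range X ∪ Set.range Y))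
    (hex : ∀ h ∈ G, ∃ k : M →+* M, IsCoef C X Y (h : M →+* M) k) (h : M ≃+* M) (hh : h ∈ G) :
    ∃ k ∈ coefGroup C X Y G hG, IsCoef C X Y (h : M →+* M) ((k : M ≃+* M) : M →+* M) := by
  obtain ⟨k, hk⟩ := hex h hh
  obtain ⟨k', hk'⟩ := hex h⁻¹ (inv_mem hh)
  have h1 : k.comp k' = RingHom.id M := by
    have h2 := hk.comp hk' (hG _ (inv_mem hh))
    have h3 : (h : M →+* M).comp ((h⁻¹ : M ≃+* M) : M →+* M) = RingHom.id M := by
      ext z
      exact congrArg Subtype.val (h.apply_symm_apply z)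
    rw [h3] at h2
    exact h2.unique hM IsCoef.id
  have h1' : k'.comp k = RingHom.id M := by
    have h2 := hk'.comp hk (hG _ hh)
    have h3 : ((h⁻¹ : M ≃+* M) : M →+* M).comp (h : M →+* M) = RingHom.id M := by
      ext z
      exact congrArg Subtype.val (h.symm_apply_apply z)
    rw [h3] at h2
    exact h2.unique hM IsCoef.id
  obtain ⟨k₁, hk₁⟩ : ∃ k₁ : M ≃+* M, (k₁ : M →+* M) = k :=
    ⟨RingEquiv.ofRingHom k k' h1 h1', by ext z; rfl⟩
  have h4 : IsCoef C X Y (h : M →+* M) (k₁ : M →+* M) := by rw [hk₁]; exact hk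
  exact ⟨k₁, ⟨h, hh, h4⟩, h4⟩

lemma coefGroup_card (hM : M = adj C (Set.range X ∪ Set.range Y))
    (hex : ∀ h ∈ G, ∃ k : M →+* M, IsCoef C X Y (h : M →+* M) k) :
    Nat.card (coefGroup C X Y G hG) ∣ Nat.card G := by
  choose! f hf hf' using coef_equiv (X := X) (Y := Y) hG hM hex
  have hu : ∀ {h k k' : M ≃+* M}, IsCoef C X Y (h : M →+* M) (k : M →+* M) →
      IsCoef C X Y (h : M →+* M) (k' : M →+* M) → k = k' := by
    intro h k k' h1 h2
    exact RingEquiv.ext fun z => RingHom.congr_fun (h1.unique hM h2) z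
  let φ : G →* coefGroup C X Y G hG := MonoidHom.mk' (fun h => ⟨f h, hf h h.2⟩) (by
    intro h h'
    apply Subtype.ext
    exact hu (hf' _ (mul_mem h.2 h'.2)) ((hf' h h.2).comp (hf' h' h'.2) (hG h' h'.2)))
  apply Subgroup.card_dvd_of_surjective φ
  rintro ⟨k, h, hh, hk⟩
  exact ⟨⟨h, hh⟩, Subtype.ext (hu (hf' h hh) hk)⟩

end UnrA
end

section

/-!
# The decomposition of a class into classes of given parity
-/

namespace UnrA

universe u v w z

open Polynomial WeierstrassCurve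
open scoped Classical
open UnrH3 (cl subset_cl adj le_adj subset_adj adj_le IndFam hom_gen_id family_M family_single_M
  mem_fixF of_mem_fixF fixF cl_mono cl_le)
open UnrH3.Ell (EllW OnW Fam IsFr crv crv_frob crv_ell fix_of_fix npt)

variable {m : UFun.{u, z}} {Λ : Type u} [Field Λ] {n : ℕ}

/-- The endomorphism `g` of `M` changes the signs of the `Y j` with `j ∈ J`. -/
structure IsFlips (C : Subfield Λ) (X Y : Fin n → Λ) {M : Subfield Λ} (J : Finset (Fin n))
    (g : M →+* M) : Prop where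
  c : ∀ z : M, (z : Λ) ∈ C → g z = z
  x : ∀ i, ∀ z : M, (z : Λ) = X i → g z = z
  y : ∀ i, ∀ z : M, (z : Λ) = Y i → g z = if i ∈ J then -z else z

/-- The sign `(-1) ^ |I ∩ J|`. -/
def sg (I J : Finset (Fin n)) : ℤ := ∏ i ∈ I, if i ∈ J then -1 else 1

lemma sg_symmDiff (I J : Finset (Fin n)) (l : Fin n) :
    sg I (symmDiff J {l}) = (if l ∈ I then -1 else 1) * sg I J := by
  have h1 : (if l ∈ I then (-1 : ℤ) else 1) = ∏ i ∈ I, if i = l then -1 else 1 := by
    rw [Finset.prod_ite_eq' I l]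
  unfold sg
  rw [h1, ← Finset.prod_mul_distrib]
  refine Finset.prod_congr rfl fun i _ => ?_
  by_cases h2 : i ∈ J <;> by_cases h3 : i = l <;>
    simp [Finset.mem_symmDiff, Finset.mem_singleton, h2, h3]

lemma sg_map (I J : Finset (Fin n)) (π : Equiv.Perm (Fin n)) (hI : ∀ i, π i ∈ I ↔ i ∈ I) :
    sg I (J.map π.toEmbedding) = sg I J := by
  unfold sg
  refine (Finset.prod_bij (fun i _ => π i) (fun i hi => (hI i).mpr hi)
    (fun i _ l _ h => π.injective h) (fun l hl => ⟨π.symm l, ?_, ?_⟩) (fun i _ => ?_)).symm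
  · rw [← hI, Equiv.apply_symm_apply]; exact hl
  · exact Equiv.apply_symm_apply _ _
  · have h1 : π i ∈ J.map π.toEmbedding ↔ i ∈ J := Finset.mem_map' π.toEmbedding
    rw [if_congr h1 rfl rfl]

lemma sum_sg (J : Finset (Fin n)) :
    ∑ I : Finset (Fin n), sg I J = if J = ∅ then 2 ^ n else 0 := by
  have h1 : ∑ I : Finset (Fin n), sg I J = ∏ i : Fin n, (1 + if i ∈ J then (-1 : ℤ) else 1) := by
    rw [Finset.prod_one_add, ← Finset.powerset_univ]
    rfl
  rw [h1]
  split_ifs with h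
  · subst h
    simp
  · obtain ⟨l, hl⟩ := Finset.nonempty_iff_ne_empty.mpr h
    apply Finset.prod_eq_zero (Finset.mem_univ l)
    rw [if_pos hl]
    norm_num

variable {κ : Type w} [Field κ] {j : κ →+* Λ} {C M : Subfield Λ} {a b c : Fin n → κ}
  {X Y : Fin n → Λ} {I J : Finset (Fin n)}

lemma exists_flips (F : Fam j C a b c X Y) (hM : M = adj C (Set.range X ∪ Set.range Y))
    (J : Finset (Fin n)) : ∃ g : M →+* M, IsFlips C X Y J g := by
  obtain ⟨g, hg⟩ := exists_slot F hM 1 (fun t => if t ∈ J then -1 else 1) (fun _ => rfl)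
    (fun _ => rfl) (fun _ => rfl)
  refine ⟨g, hg.c, fun i z hz => Subtype.ext ?_, fun i z hz => Subtype.ext ?_⟩
  · rw [hg.x i z hz, hz]; rfl
  · rw [hg.y i z hz, Equiv.Perm.one_apply, ← hz]
    split_ifs
    · push_cast; ring
    · push_cast; ring

lemma IsFlips.unique (hM : M = adj C (Set.range X ∪ Set.range Y)) {g g' : M →+* M}
    (h : IsFlips C X Y J g) (h' : IsFlips C X Y J g') : g = g' := by
  apply hom_gen_id hM
  · intro z hz
    rw [h.c z hz, h'.c z hz]
  · rintro z (⟨i, hi⟩ | ⟨i, hi⟩)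
    · rw [h.x i z hi.symm, h'.x i z hi.symm]
    · rw [h.y i z hi.symm, h'.y i z hi.symm]

lemma IsFlips.comp_flip {l : Fin n} {g g' : M →+* M} (h : IsFlip C X Y l g)
    (h' : IsFlips C X Y J g') : IsFlips C X Y (symmDiff J {l}) (g.comp g') where
  c z hz := by rw [RingHom.comp_apply, h'.c z hz, h.c z hz]
  x i z hz := by rw [RingHom.comp_apply, h'.x i z hz, h.x i z hz]
  y i z hz := by
    rw [RingHom.comp_apply, h'.y i z hz]
    have h1 := h.y i z hz
    by_cases h3 : i = l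
    · subst h3
      by_cases h2 : i ∈ J <;> simp [Finset.mem_symmDiff, h2, h1]
    · by_cases h2 : i ∈ J <;> simp [Finset.mem_symmDiff, h2, h3, h1]

lemma IsFlips.semi (hM : M = adj C (Set.range X ∪ Set.range Y)) {π : Equiv.Perm (Fin n)}
    {ε : Fin n → ℤˣ} {h g g' : M →+* M} (hh : IsSemi C X Y π ε h) (hg : IsFlips C X Y J g)
    (hg' : IsFlips C X Y (J.map π.toEmbedding) g') : h.comp g = g'.comp h := by
  apply hom_gen_id hM
  · intro z hz
    rw [RingHom.comp_apply, RingHom.comp_apply, hg.c z hz, hg'.c _ (hh.c z hz)]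
  · rintro z (⟨i, hi⟩ | ⟨i, hi⟩)
    · rw [RingHom.comp_apply, RingHom.comp_apply, hg.x i z hi.symm,
        hg'.x (π i) _ (hh.x i z hi.symm)]
    · have hY : Y (π i) ∈ M := by rw [hM]; exact subset_adj _ _ (Or.inr ⟨_, rfl⟩)
      have h1 : h z = ((ε i : ℤ) : M) * ⟨Y (π i), hY⟩ := by
        apply Subtype.ext
        rw [hh.y i z hi.symm]
        push_cast
        rfl
      have h2 : π i ∈ J.map π.toEmbedding ↔ i ∈ J := Finset.mem_map' π.toEmbedding
      rw [RingHom.comp_apply, RingHom.comp_apply, hg.y i z hi.symm]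
      have h3 : g' (h z) = ((ε i : ℤ) : M) * g' ⟨Y (π i), hY⟩ := by
        rw [h1, map_mul, map_intCast]
      rw [h3, hg'.y (π i) _ rfl, if_congr h2 rfl rfl]
      split_ifs
      · rw [map_neg, h1]; ring
      · rw [h1]

/-- The part of parity `I` of a class (times `2 ^ n`). -/
noncomputable def part (G : Finset (Fin n) → (M →+* M)) (I : Finset (Fin n)) (z : KM m M) :
    KM m M := ∑ J : Finset (Fin n), sg I J • KM.map m (G J) z

variable {G : Finset (Fin n) → (M →+* M)} (hG : ∀ J, IsFlips C X Y J (G J)) {z : KM m M}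

omit [Field Λ] in
lemma part_unr_aux {K : Type u} [Field K] {ι : Type*} {s : Finset ι} {f : ι → KM m K} {g : ι → ℤ}
    (h : ∀ i ∈ s, Unr (f i)) : Unr (∑ i ∈ s, g i • f i) := Unr.sum fun i hi => (h i hi).zsmul _

lemma part_unr (hz : Unr z) : Unr (part G I z) := by
  unfold part
  exact part_unr_aux fun J _ => hz.map (G J)

include hG in
lemma part_par (hM : M = adj C (Set.range X ∪ Set.range Y)) : Par C X Y I (part G I z) := by
  intro l g hg
  unfold part
  rw [map_sum]
  have h1 : ∀ J, KM.map m g (sg I J • KM.map m (G J) z) =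
      (if l ∈ I then -1 else 1) • (sg I (symmDiff J {l}) • KM.map m (G (symmDiff J {l})) z) := by
    intro J
    rw [map_zsmul, KM.map_map, ((hG J).comp_flip hg).unique hM (hG _), sg_symmDiff, smul_smul,
      ← mul_assoc]
    congr 1
    split_ifs <;> ring
  rw [Finset.sum_congr rfl fun J _ => h1 J, ← Finset.smul_sum]
  have h2 : ∑ J : Finset (Fin n), sg I (symmDiff J {l}) • KM.map m (G (symmDiff J {l})) z =
      ∑ J : Finset (Fin n), sg I J • KM.map m (G J) z := by
    refine Fintype.sum_equiv (Equiv.ofBijective (fun J : Finset (Fin n) => symmDiff J {l}) ?_) _ _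
      (fun J => rfl)
    refine Function.Involutive.bijective fun J => ?_
    rw [symmDiff_assoc, symmDiff_self]
    exact symmDiff_bot J
  rw [h2]
  split_ifs
  · rw [neg_one_smul]
  · rw [one_smul]

include hG in
lemma sum_part (hM : M = adj C (Set.range X ∪ Set.range Y)) :
    ∑ I : Finset (Fin n), part G I z = 2 ^ n • z := by
  unfold part
  rw [Finset.sum_comm]
  have h1 : ∀ J : Finset (Fin n), ∑ I : Finset (Fin n), sg I J • KM.map m (G J) z =
      (if J = ∅ then (2 : ℤ) ^ n else 0) • KM.map m (G J) z := by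
    intro J
    rw [← Finset.sum_smul, sum_sg]
  rw [Finset.sum_congr rfl fun J _ => h1 J, Finset.sum_eq_single (∅ : Finset (Fin n))]
  · have h2 : G ∅ = RingHom.id M := by
      apply (hG ∅).unique hM
      exact ⟨fun _ _ => rfl, fun _ _ _ => rfl, fun i z _ => by simp⟩
    rw [if_pos rfl, h2, KM.map_id]
    change (2 : ℤ) ^ n • z = _
    rw [← natCast_zsmul z]
    push_cast
    rfl
  · intro J _ hJ
    rw [if_neg hJ, zero_smul]
  · intro h
    exact absurd (Finset.mem_univ _) h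

include hG in
lemma part_semi (hM : M = adj C (Set.range X ∪ Set.range Y)) {π : Equiv.Perm (Fin n)}
    {ε : Fin n → ℤˣ} {h : M →+* M} (hh : IsSemi C X Y π ε h) (hI : ∀ i, π i ∈ I ↔ i ∈ I) {t : ℤ}
    (hz : KM.map m h z = t • z) : KM.map m h (part G I z) = t • part G I z := by
  unfold part
  rw [map_sum, Finset.smul_sum]
  have h1 : ∀ J, KM.map m h (sg I J • KM.map m (G J) z) =
      t • (sg I (J.map π.toEmbedding) • KM.map m (G (J.map π.toEmbedding)) z) := by
    intro J
    rw [map_zsmul, KM.map_map, IsFlips.semi hM hh (hG J) (hG (J.map π.toEmbedding)),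
      ← KM.map_map, hz, map_zsmul, sg_map I J π hI, smul_comm]
  rw [Finset.sum_congr rfl fun J _ => h1 J]
  refine Fintype.sum_equiv (Equiv.ofBijective
    (fun J : Finset (Fin n) => J.map π.toEmbedding) ?_) _ _ (fun J => rfl)
  refine ⟨Finset.map_injective _, fun J => ⟨J.map π.symm.toEmbedding, ?_⟩⟩
  ext i
  simp

end UnrA
end

section

/-!
# Invariant classes of products of elliptic curves over a field with a finite group action
-/

namespace UnrA

universe u v w z

open Polynomial WeierstrassCurve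
open scoped Classical
open UnrH3 (cl subset_cl adj le_adj subset_adj adj_le IndFam hom_gen_id family_M family_single_M
  mem_fixF of_mem_fixF fixF cl_mono cl_le IndSet restrict_hom)
open UnrH3.Ell (EllW OnW Fam IsFr crv crv_frob crv_ell fix_of_fix npt pick)

variable {m : UFun.{u, z}} {Λ : Type u} [Field Λ] {n : ℕ}

/-- The semilinear signed permutations compatible with the curves. -/
structure IsAdm {ι : Type*} (C : Subfield Λ) (X Y : Fin n → Λ) (e : Fin n → ι) {M : Subfield Λ}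
    (ρ : Equiv.Perm (Fin n)) (ε : Fin n → ℤˣ) (h : M →+* M) : Prop where
  e : ∀ i, e (ρ i) = e i
  s : IsSemi C X Y ρ ε h

/-- The elements of `C` fixed by the group `G`. -/
def fixC (C : Subfield Λ) {M : Subfield Λ} (G : Subgroup (M ≃+* M)) : Subfield Λ where
  carrier := {z | ∃ w : M, (w : Λ) = z ∧ z ∈ C ∧ ∀ h ∈ G, h w = w}
  mul_mem' := by
    rintro _ _ ⟨w, rfl, hw, hw'⟩ ⟨v, rfl, hv, hv'⟩
    exact ⟨w * v, rfl, mul_mem hw hv, fun h hh => by rw [map_mul, hw' h hh, hv' h hh]⟩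
  one_mem' := ⟨1, rfl, one_mem _, fun h _ => map_one h⟩
  add_mem' := by
    rintro _ _ ⟨w, rfl, hw, hw'⟩ ⟨v, rfl, hv, hv'⟩
    exact ⟨w + v, rfl, add_mem hw hv, fun h hh => by rw [map_add, hw' h hh, hv' h hh]⟩
  zero_mem' := ⟨0, rfl, zero_mem _, fun h _ => map_zero h⟩
  neg_mem' := by
    rintro _ ⟨w, rfl, hw, hw'⟩
    exact ⟨-w, rfl, neg_mem hw, fun h hh => by rw [map_neg, hw' h hh]⟩
  inv_mem' := by
    rintro _ ⟨w, rfl, hw, hw'⟩
    exact ⟨w⁻¹, rfl, inv_mem hw, fun h hh => by rw [map_inv₀, hw' h hh]⟩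

lemma mem_fixC {C M : Subfield Λ} {G : Subgroup (M ≃+* M)} (z : M) :
    (z : Λ) ∈ fixC C G ↔ (z : Λ) ∈ C ∧ ∀ h ∈ G, h z = z := by
  constructor
  · rintro ⟨w, hw, hC, hh⟩
    have h1 : w = z := Subtype.ext hw
    rw [h1] at hh
    exact ⟨hC, hh⟩
  · rintro ⟨hC, hh⟩
    exact ⟨z, rfl, hC, hh⟩

lemma fixC_le {C M : Subfield Λ} {G : Subgroup (M ≃+* M)} : fixC C G ≤ C := by
  rintro _ ⟨w, rfl, hw, -⟩
  exact hw

lemma IsSemi.comp {C M : Subfield Λ} {X Y : Fin n → Λ} {π π' : Equiv.Perm (Fin n)}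
    {ε ε' : Fin n → ℤˣ} {g g' : M →+* M}
    (hM : M = adj C (Set.range X ∪ Set.range Y))
    (h : IsSemi C X Y π ε g) (h' : IsSemi C X Y π' ε' g') :
    IsSemi C X Y (π * π') (fun i => ε' i * ε (π' i)) (g.comp g') where
  c z hz := h.c _ (h'.c z hz)
  x i z hz := by
    rw [RingHom.comp_apply, h.x (π' i) _ (h'.x i z hz)]
    rfl
  y i z hz := by
    have hY : Y (π' i) ∈ M := by rw [hM]; exact subset_adj _ _ (Or.inr ⟨_, rfl⟩)
    have h1 : g' z = ((ε' i : ℤ) : M) * ⟨Y (π' i), hY⟩ := by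
      apply Subtype.ext
      rw [h'.y i z hz]
      push_cast
      rfl
    rw [RingHom.comp_apply, h1, map_mul, map_intCast]
    push_cast
    rw [h.y (π' i) _ rfl, ← mul_assoc]
    rfl

lemma IsSemi.one {C M : Subfield Λ} {X Y : Fin n → Λ} :
    IsSemi C X Y (M := M) 1 1 (RingHom.id M) where
  c _ hz := hz
  x i z hz := hz
  y i z hz := by
    rw [RingHom.id_apply, hz]
    simp

lemma chi_one {I : Finset (Fin n)} (hI : ∀ i, (1 : Equiv.Perm (Fin n)) i ∈ I ↔ i ∈ I) :
    chi I 1 hI 1 = 1 := by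
  unfold chi
  have h1 : (1 : Equiv.Perm (Fin n)).subtypePerm hI = 1 := by
    refine Equiv.ext fun t => Subtype.ext ?_
    rfl
  rw [h1, Equiv.Perm.sign_one]
  simp

/-- The element `h` preserves `I` with sign `s`. -/
def HasSign {ι : Type*} (C : Subfield Λ) (X Y : Fin n → Λ) (e : Fin n → ι) {M : Subfield Λ}
    (I : Finset (Fin n)) (s : ℤˣ) (h : M →+* M) : Prop :=
  ∃ ρ ε, ∃ hI : ∀ i, ρ i ∈ I ↔ i ∈ I, IsAdm C X Y e ρ ε h ∧ chi I ρ hI ε = s

section

variable {ι : Type*} {C M : Subfield Λ} {X Y : Fin n → Λ} {e : Fin n → ι} {I : Finset (Fin n)}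

lemma HasSign.mul (hM : M = adj C (Set.range X ∪ Set.range Y)) {s s' : ℤˣ} {g g' : M →+* M}
    (h : HasSign C X Y e I s g) (h' : HasSign C X Y e I s' g') :
    HasSign C X Y e I (s * s') (g.comp g') := by
  obtain ⟨ρ, ε, hI, hA, hs⟩ := h
  obtain ⟨ρ', ε', hI', hA', hs'⟩ := h'
  refine ⟨ρ * ρ', fun i => ε' i * ε (ρ' i), fun i => (hI (ρ' i)).trans (hI' i),
    ⟨fun i => (hA.e (ρ' i)).trans (hA'.e i), hA.s.comp hM hA'.s⟩, ?_⟩
  rw [chi_mul hI hI', hs, hs']

lemma HasSign.one : HasSign C X Y e I 1 (RingHom.id M) :=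
  ⟨1, 1, fun _ => Iff.rfl, ⟨fun _ => rfl, IsSemi.one⟩, chi_one _⟩

/-- The elements of `G` preserving `I` without sign. -/
def GI (hM : M = adj C (Set.range X ∪ Set.range Y)) (e : Fin n → ι) (I : Finset (Fin n))
    (G : Subgroup (M ≃+* M)) [Finite G] : Subgroup (M ≃+* M) where
  carrier := {h | h ∈ G ∧ HasSign C X Y e I 1 (h : M →+* M)}
  mul_mem' := by
    rintro h h' ⟨h1, h2⟩ ⟨h3, h4⟩
    refine ⟨mul_mem h1 h3, ?_⟩
    have h5 := h2.mul hM h4
    rw [mul_one] at h5
    exact h5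
  one_mem' := ⟨one_mem _, HasSign.one⟩
  inv_mem' := by
    rintro h ⟨h1, h2⟩
    have h3 : ∀ k : ℕ, h ^ k ∈ G ∧ HasSign C X Y e I 1 ((h ^ k : M ≃+* M) : M →+* M) := by
      intro k
      induction k with
      | zero => exact ⟨by rw [pow_zero]; exact one_mem _, by rw [pow_zero]; exact HasSign.one⟩
      | succ k ih =>
        refine ⟨by rw [pow_succ]; exact mul_mem ih.1 h1, ?_⟩
        have h5 := ih.2.mul hM h2
        rw [mul_one] at h5
        rw [pow_succ]
        exact h5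
    obtain ⟨N, hN, hN1⟩ := isOfFinOrder_iff_pow_eq_one.mp (isOfFinOrder_of_finite (⟨h, h1⟩ : G))
    have h4 : h ^ N = 1 := congrArg Subtype.val hN1
    have h5 : h⁻¹ = h ^ (N - 1) := by
      apply inv_eq_of_mul_eq_one_left
      rw [← pow_succ, Nat.sub_add_cancel hN, h4]
    rw [h5]
    exact h3 _

lemma GI_le {hM : M = adj C (Set.range X ∪ Set.range Y)} {G : Subgroup (M ≃+* M)} [Finite G] :
    GI hM e I G ≤ G := fun _ h => h.1

end

variable {κ : Type w} [Field κ] {j : κ →+* Λ} {C M : Subfield Λ} {a b c : Fin n → κ}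
  {X Y : Fin n → Λ} {I J : Finset (Fin n)} {F₀ : Subfield Λ}

lemma coefGroup_finite {G : Subgroup (M ≃+* M)} [Finite G]
    (hG : ∀ h ∈ G, ∀ z : M, (z : Λ) ∈ C → (h z : Λ) ∈ C)
    (hM : M = adj C (Set.range X ∪ Set.range Y))
    (hex : ∀ h ∈ G, ∃ k : M →+* M, IsCoef C X Y (h : M →+* M) k) :
    Finite (coefGroup C X Y G hG) := by
  have h1 := coefGroup_card (X := X) (Y := Y) hG hM hex
  have h2 : Nat.card G ≠ 0 := Nat.card_pos.ne'
  apply Nat.finite_of_card_ne_zero
  intro h3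
  rw [h3, zero_dvd_iff] at h1
  exact h2 h1

/-- The classes of parity `I` invariant under a group acting without signs. -/
theorem part_descend {ι : Type*} (F : Fam j C a b c X Y)
    (hM : M = adj C (Set.range X ∪ Set.range Y))
    (e : Fin n → ι) {A B D : ι → κ} (ha : ∀ i, a i = A (e i)) (hb : ∀ i, b i = B (e i))
    (hc : ∀ i, c i = D (e i)) (G : Subgroup (M ≃+* M)) [Finite G]
    (hG : ∀ h ∈ G, HasSign C X Y e I 1 (h : M →+* M)) {N : Subfield Λ}
    (hN : N = adj (fixC C G) (Set.range X ∪ Set.range Y)) (hle : N ≤ M)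
    {γ : KM m M} (hu : Unr γ) (ho : Par C X Y I γ)
    (hGγ : ∀ h ∈ G, KM.map m (h : M →+* M) γ = γ) :
    ∃ v : KM m N, Unr v ∧ Par (fixC C G) X Y I v ∧
      up m hle v = (TT n * Nat.card G ^ 3) • γ := by
  have hCM : C ≤ M := by rw [hM]; exact le_adj _ _
  have hGC : ∀ h ∈ G, ∀ z : M, (z : Λ) ∈ C → (h z : Λ) ∈ C := by
    intro h hh z hz
    obtain ⟨ρ, ε, _, hA, _⟩ := hG h hh
    exact hA.s.c z hz
  have hco : ∀ h ∈ G, ∃ k : M →+* M, IsCoef C X Y (h : M →+* M) k ∧
      KM.map m k γ - γ ∈ tor (TT n) _ := by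
    intro h hh
    obtain ⟨ρ, ε, hI, hA, hχ⟩ := hG h hh
    obtain ⟨k, hk, hk'⟩ := coef_exists (m := m) F hM
      (fun i => by rw [ha, ha, hA.e]) (fun i => by rw [hb, hb, hA.e])
      (fun i => by rw [hc, hc, hA.e]) hA.s
    have h1 := hk' I hI γ hu ho (hGγ h hh)
    have h2 : (((1 : ℤˣ)) : ℤ) = 1 := rfl
    rw [hχ, h2, one_smul] at h1
    exact ⟨k, hk, h1⟩
  have hex : ∀ h ∈ G, ∃ k : M →+* M, IsCoef C X Y (h : M →+* M) k := fun h hh => by
    obtain ⟨k, hk, -⟩ := hco h hh
    exact ⟨k, hk⟩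
  obtain ⟨Γ, hΓ⟩ : ∃ Γ, Γ = coefGroup C X Y G hGC := ⟨_, rfl⟩
  have hfinΓ : Finite Γ := by rw [hΓ]; exact coefGroup_finite hGC hM hex
  have hcardΓ : Nat.card Γ ∣ Nat.card G := by rw [hΓ]; exact coefGroup_card hGC hM hex
  have hΓG : ∀ k ∈ Γ, ∃ h ∈ G, IsCoef C X Y (h : M →+* M) (k : M →+* M) := by
    intro k hk
    rw [hΓ] at hk
    exact hk
  have hGΓ : ∀ h ∈ G, ∃ k ∈ Γ, IsCoef C X Y (h : M →+* M) ((k : M ≃+* M) : M →+* M) := by
    intro h hh
    obtain ⟨k, hk, hk'⟩ := coef_equiv (X := X) (Y := Y) hGC hM hex h hh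
    exact ⟨k, by rw [hΓ]; exact hk, hk'⟩
  have hγΓ : ∀ k ∈ Γ, KM.map m (k : M →+* M) γ - γ ∈ tor (TT n) _ := by
    intro k hk
    obtain ⟨h, hh, hkh⟩ := hΓG k hk
    obtain ⟨k', hk', hk''⟩ := hco h hh
    rw [hkh.unique hM hk']
    exact hk''
  have hfix : ∀ z : M, (z : Λ) ∈ N ↔ ∀ k ∈ Γ, k z = z := by
    intro z
    refine fixed_field (fixC_le (C := C) (G := G)) hM hN Γ ?_ ?_ ?_ z
    · intro k hk z hz
      obtain ⟨h, hh, hkh⟩ := hΓG k hk
      have h1 : k z = h z := hkh.c z hz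
      rw [h1]
      exact hGC h hh z hz
    · intro k hk z hz
      obtain ⟨h, hh, hkh⟩ := hΓG k hk
      rcases hz with ⟨i, hi⟩ | ⟨i, hi⟩
      · exact hkh.x i z hi.symm
      · exact hkh.y i z hi.symm
    · intro z hz
      rw [mem_fixC]
      constructor
      · rintro ⟨-, hzk⟩ k hk
        obtain ⟨h, hh, hkh⟩ := hΓG k hk
        have h1 : k z = h z := hkh.c z hz
        rw [h1]
        exact hzk h hh
      · intro hk
        refine ⟨hz, fun h hh => ?_⟩
        obtain ⟨k, hkΓ, hkh⟩ := hGΓ h hh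
        have h1 : k z = h z := hkh.c z hz
        rw [← h1]
        exact hk k hkΓ
  obtain ⟨v, hv, hvp, hvγ⟩ := k_descend F (fixC_le (C := C) (G := G)) hM hN hle Γ hfix hu hγΓ ho
  obtain ⟨c', hc'⟩ := hcardΓ
  refine ⟨c' ^ 3 • v, hv.nsmul _, ?_, ?_⟩
  · intro l g hg
    rw [map_nsmul, hvp l g hg]
    split_ifs
    · rw [smul_neg]
    · rfl
  · rw [map_nsmul, hvγ, smul_smul, hc']
    congr 1
    ring

/-- Constant classes of parity `I`, invariant under an element acting with sign `-1`. -/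
theorem part_two {ι : Type*} (F : Fam j C a b c X Y)
    (hM : M = adj C (Set.range X ∪ Set.range Y)) (hF₀ : F₀ ≤ C)
    (e : Fin n → ι) {A B D : ι → κ} (ha : ∀ i, a i = A (e i)) (hb : ∀ i, b i = B (e i))
    (hc : ∀ i, c i = D (e i)) {h : M →+* M} (hs : HasSign C X Y e I (-1) h)
    (hF : ∀ z : M, (z : Λ) ∈ F₀ → h z = z) {γ : KM m M} (hu : Unr γ) (ho : Par C X Y I γ)
    (hγ : KM.map m h γ = γ) {MF : Subfield Λ} (hMF : MF = adj F₀ (Set.range X ∪ Set.range Y))
    (hle : MF ≤ M) {w : KM m MF} {N : ℕ} (hw : up m hle w = N • γ) :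
    (2 * TT n * N) • γ = 0 := by
  have hCM : C ≤ M := by rw [hM]; exact le_adj _ _
  obtain ⟨ρ, ε, hI, hA, hχ⟩ := hs
  obtain ⟨k, hk, hk'⟩ := coef_exists (m := m) F hM
    (fun i => by rw [ha, ha, hA.e]) (fun i => by rw [hb, hb, hA.e])
    (fun i => by rw [hc, hc, hA.e]) hA.s
  have h1 := hk' I hI γ hu ho hγ
  have h2 : (((-1 : ℤˣ)) : ℤ) = -1 := rfl
  rw [hχ, h2, neg_one_smul, sub_neg_eq_add] at h1
  have h3 : KM.map m k (up m hle w) = up m hle w := by
    rw [KM.map_map]
    congr 2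
    ext z
    have hz : ((Subfield.inclusion hle z : M) : Λ) ∈
        adj F₀ (Set.range X ∪ Set.range Y) := hMF ▸ z.2
    have h4 := UnrH3.hom_eq_of_gen (B := M) k (RingHom.id M) (F := F₀)
      (T := Set.range X ∪ Set.range Y) (hF₀.trans hCM)
      (by rw [hM]; exact subset_adj _ _)
      (fun z hz => by
        rw [hk.c _ (hF₀ hz)]
        exact hF _ hz)
      (fun z hz => by
        rcases hz with ⟨i, hi⟩ | ⟨i, hi⟩
        · exact hk.x i _ hi.symm
        · exact hk.y i _ hi.symm) (Subfield.inclusion hle z) hz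
    exact congrArg Subtype.val h4
  rw [hw, map_nsmul] at h3
  rw [mem_tor] at h1
  have h5 := congrArg (fun x => N • x) h1
  simp only [smul_zero] at h5
  rw [smul_comm, smul_add, h3, ← two_nsmul, smul_smul, smul_smul] at h5
  rw [← h5]
  congr 1
  ring

/-- The main theorem for subfields of a fixed field. -/
theorem main_kill {ι : Type*} (F : Fam j C a b c X Y)
    (hM : M = adj C (Set.range X ∪ Set.range Y)) (hF₀ : F₀ ≤ C)
    (e : Fin n → ι) {A B D : ι → κ} (ha : ∀ i, a i = A (e i)) (hb : ∀ i, b i = B (e i))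
    (hc : ∀ i, c i = D (e i)) (G : Subgroup (M ≃+* M)) [Finite G]
    (hG : ∀ h ∈ G, ∃ ρ ε, IsAdm C X Y e ρ ε (h : M →+* M))
    {z : KM m M} (hu : Unr z) (hGz : ∀ h ∈ G, KM.map m (h : M →+* M) z = z) (E : ℕ)
    (H : ∀ I : Finset (Fin n),
      (∃ h ∈ G, HasSign C X Y e I (-1) (h : M →+* M) ∧ ∀ z : M, (z : Λ) ∈ C → h z = z) ∨
      (∀ v : KM m (adj (fixC C (GI hM e I G)) (Set.range X ∪ Set.range Y)), Unr v →
        Par (fixC C (GI hM e I G)) X Y I v → E • v = 0) ∨
      (∃ h ∈ G, HasSign C X Y e I (-1) (h : M →+* M) ∧ ∀ z : M, (z : Λ) ∈ F₀ → h z = z) ∧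
        ∀ v : KM m (adj (fixC C (GI hM e I G)) (Set.range X ∪ Set.range Y)), Unr v →
        Par (fixC C (GI hM e I G)) X Y I v → ∃ (w : KM m (adj F₀ (Set.range X ∪ Set.range Y)))
          (h : adj F₀ (Set.range X ∪ Set.range Y) ≤
            adj (fixC C (GI hM e I G)) (Set.range X ∪ Set.range Y)), up m h w = E • v) :
    (2 ^ n * (2 * TT n ^ 2 * E * Nat.card G ^ 3)) • z = 0 := by
  choose Fl hFl using exists_flips F hM
  have hpart : ∀ I : Finset (Fin n),
      (2 * TT n ^ 2 * E * Nat.card G ^ 3) • part Fl I z = 0 := by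
    intro I
    have hpu : Unr (part Fl I z) := part_unr hu
    have hpp : Par C X Y I (part Fl I z) := part_par hFl hM
    have hinv : ∀ h ∈ G, ∀ s, HasSign C X Y e I s (h : M →+* M) →
        KM.map m (h : M →+* M) (part Fl I z) = part Fl I z := by
      rintro h hh s ⟨ρ, ε, hI, hA, -⟩
      have h2 := part_semi hFl hM hA.s hI (t := 1) (z := z) (by rw [hGz h hh, one_smul])
      rwa [one_smul] at h2
    have hNM : adj (fixC C (GI hM e I G)) (Set.range X ∪ Set.range Y) ≤ M := by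
      conv_rhs => rw [hM]
      exact UnrH3.adj_mono fixC_le le_rfl
    have hfinI : Finite (GI hM e I G) :=
      Finite.of_injective (Subgroup.inclusion GI_le) (Subgroup.inclusion_injective _)
    have hcardI : Nat.card (GI hM e I G) ∣ Nat.card G := Subgroup.card_dvd_of_le GI_le
    obtain ⟨c', hc'⟩ := hcardI
    have hdes := part_descend F hM e ha hb hc (GI hM e I G) (fun h hh => hh.2) rfl hNM hpu hpp
      (fun h hh => hinv h hh.1 1 hh.2)
    rcases H I with ⟨h, hh, hs, hfixC⟩ | hv | ⟨⟨h, hh, hs, hfixF⟩, hv⟩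
    · have h1 := hinv h hh _ hs
      obtain ⟨ρ, ε, hI, hA, hχ⟩ := hs
      have h3 := slot_action (m := m) F hM
        (fun i => by rw [ha, ha, hA.e]) (fun i => by rw [hb, hb, hA.e])
        (fun i => by rw [hc, hc, hA.e]) hI
        (g := (h : M →+* M)) ⟨hfixC, hA.s.x, hA.s.y⟩ hpu hpp
      have h4 : (((-1 : ℤˣ)) : ℤ) = -1 := rfl
      rw [hχ, h4, neg_one_smul, sub_neg_eq_add, h1, ← two_nsmul] at h3
      have h5 := tor_of_smul h3
      rw [mem_tor] at h5
      have h6 : 2 * TT n ^ 2 * E * Nat.card G ^ 3 = (TT n * E * Nat.card G ^ 3) *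
        (TT n * 2) := by ring
      rw [h6, mul_smul, h5, smul_zero]
    · obtain ⟨v, hvu, hvp, hvγ⟩ := hdes
      have h1 := congrArg (up m hNM) (hv v hvu hvp)
      rw [map_nsmul, hvγ, map_zero, smul_smul] at h1
      have h6 : 2 * TT n ^ 2 * E * Nat.card G ^ 3 = (2 * TT n * c' ^ 3) *
        (E * (TT n * Nat.card (GI hM e I G) ^ 3)) := by
        rw [hc']; ring
      rw [h6, mul_smul, h1, smul_zero]
    · obtain ⟨v, hvu, hvp, hvγ⟩ := hdes
      obtain ⟨w, hle, hw⟩ := hv v hvu hvp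
      have h1 := congrArg (up m hNM) hw
      rw [up_up, map_nsmul, hvγ, smul_smul] at h1
      have h2 := part_two F hM hF₀ e ha hb hc hs hfixF hpu hpp (hinv h hh _ hs) rfl
        (hle.trans hNM) h1
      have h6 : 2 * TT n ^ 2 * E * Nat.card G ^ 3 = c' ^ 3 *
        (2 * TT n * (E * (TT n * Nat.card (GI hM e I G) ^ 3))) := by
        rw [hc']; ring
      rw [h6, mul_smul, h2, smul_zero]
  have h1 := sum_part hFl hM (z := z)
  rw [mul_comm, mul_smul, ← h1, Finset.smul_sum]
  exact Finset.sum_eq_zero fun I _ => hpart I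

end UnrA
end
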