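import Mathlib.Algebra.CubicDiscriminant
import Pool.Agent.Lib.MP_859dd5_ag.Mg.G067
import Pool.Agent.Lib.MP_859dd5_ag.Mg.G064
import Pool.Agent.Lib.MP_859dd5_ag.EQ.MulA
import Pool.Agent.Lib.MP_859dd5_ag.EQ.Fun
import Pool.Agent.Lib.MP_859dd5_ag.Mg.G066
import Pool.Agent.Lib.MP_859dd5_ag.Mg.G065
import Pool.Agent.Lib.MP_859dd5_ag.Mg.G062

section

/-!
# Degrees of extensions generated by independent generic points
-/

namespace UnrA

universe u v w z

open Polynomial
open scoped Classical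
open UnrH3 (cl subset_cl adj le_adj subset_adj adj_le transc_sub algebraMap_ratFunc_eq)
open UnrH3.Ell (EllW OnW Fam)

variable {m : UFun.{u, z}} {Λ : Type u} [Field Λ]

section degree

/-- The degree of a field extension (zero if it is infinite). -/
noncomputable def dgh {K L : Type u} [Field K] [Field L] (f : K →+* L) : ℕ :=
  letI := f.toAlgebra
  Module.finrank K L

lemma dgh_comp {K L E : Type u} [Field K] [Field L] [Field E] (f : K →+* L) (g : L →+* E) :
    dgh f * dgh g = dgh (g.comp f) := by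
  let _ := f.toAlgebra
  let _ := g.toAlgebra
  let _ := (g.comp f).toAlgebra
  have : IsScalarTower K L E := IsScalarTower.of_algebraMap_eq fun _ => rfl
  exact Module.finrank_mul_finrank K L E

lemma dgh_ker {K L : Type u} [Field K] [Field L] (f : K →+* L) {x : KM m K}
    (hx : KM.map m f x = 0) : dgh f • x = 0 := by
  let _ := f.toAlgebra
  by_cases h : dgh f = 0
  · rw [h, zero_smul]
  · have : FiniteDimensional K L := Module.finite_of_finrank_pos (Nat.pos_of_ne_zero h)
    exact finrank_smul_eq_zero _ rfl hx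

attribute [local instance] Polynomial.algebra in
theorem finrank_transc {K K' E E' : Type*} [Field K] [Field K'] [Field E] [Field E']
    [Algebra K K'] [Algebra E E'] (φ : RatFunc K ≃+* E) (φ' : RatFunc K' ≃+* E')
    (h1 : ∀ a : K, algebraMap E E' (φ (algebraMap K (RatFunc K) a)) =
      φ' (algebraMap K' (RatFunc K') (algebraMap K K' a)))
    (h2 : algebraMap E E' (φ RatFunc.X) = φ' RatFunc.X) :
    Module.finrank E E' = Module.finrank K K' := by
  let _ : Algebra K[X] E := ((φ : RatFunc K →+* E).comp (algebraMap K[X] (RatFunc K))).toAlgebra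
  let _ : Algebra K'[X] E' :=
    ((φ' : RatFunc K' →+* E').comp (algebraMap K'[X] (RatFunc K'))).toAlgebra
  let _ : Algebra K[X] E' := ((algebraMap E E').comp (algebraMap K[X] E)).toAlgebra
  have i1 : IsFractionRing K[X] E :=
    IsLocalization.isLocalization_of_algEquiv _ (AlgEquiv.ofRingEquiv (f := φ) fun _ => rfl)
  have i2 : IsFractionRing K'[X] E' :=
    IsLocalization.isLocalization_of_algEquiv _ (AlgEquiv.ofRingEquiv (f := φ') fun _ => rfl)
  have t1 : IsScalarTower K[X] E E' := IsScalarTower.of_algebraMap_eq fun _ => rfl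
  have t2 : IsScalarTower K[X] K'[X] E' := by
    apply IsScalarTower.of_algebraMap_eq'
    apply Polynomial.ringHom_ext
    · intro a
      change algebraMap E E' (φ (algebraMap K[X] (RatFunc K) (C a))) =
        φ' (algebraMap K'[X] (RatFunc K') (algebraMap K[X] K'[X] (C a)))
      rw [Polynomial.algebraMap_def, coe_mapRingHom, map_C, ← algebraMap_ratFunc_eq,
        ← algebraMap_ratFunc_eq, h1]
    · change algebraMap E E' (φ (algebraMap K[X] (RatFunc K) X)) =
        φ' (algebraMap K'[X] (RatFunc K') (algebraMap K[X] K'[X] X))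
      rw [Polynomial.algebraMap_def, coe_mapRingHom, map_X, RatFunc.algebraMap_X,
        RatFunc.algebraMap_X, h2]
  rw [IsFractionRing.finrank_eq K[X] E K'[X] E']
  exact congrArg Cardinal.toNat (rank_polynomial_polynomial K K')

theorem dgh_transc {K K' E E' : Type u} [Field K] [Field K'] [Field E] [Field E']
    (f : K →+* K') (g : E →+* E') (φ : RatFunc K ≃+* E) (φ' : RatFunc K' ≃+* E')
    (h1 : ∀ a : K, g (φ (algebraMap K (RatFunc K) a)) =
      φ' (algebraMap K' (RatFunc K') (f a)))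
    (h2 : g (φ RatFunc.X) = φ' RatFunc.X) : dgh g = dgh f := by
  let _ := f.toAlgebra
  let _ := g.toAlgebra
  exact finrank_transc φ φ' h1 h2

end degree

/-- The degree of an extension of subfields. -/
noncomputable def dg {A B : Subfield Λ} (h : A ≤ B) : ℕ := dgh (Subfield.inclusion h)

lemma dg_mul {A B C : Subfield Λ} (h : A ≤ B) (h' : B ≤ C) : dg h * dg h' = dg (h.trans h') :=
  dgh_comp _ _

lemma dg_ker {A B : Subfield Λ} (h : A ≤ B) {x : KM m A} (hx : up m h x = 0) :
    dg h • x = 0 := dgh_ker _ hx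

lemma rat_iso' {A : Subfield Λ} {a : Λ} (ha : a ∉ cl (A : Set Λ)) :
    ∃ e : RatFunc A ≃+* adj A {a}, (∀ c : A, (e (algebraMap A (RatFunc A) c) : Λ) = c) ∧
      (e RatFunc.X : Λ) = a := by
  let ψ : RatFunc A →+* Λ := IsFractionRing.lift (A := A[X]) (g := eval₂RingHom A.subtype a)
    ((injective_iff_map_eq_zero _).mpr (transc_sub ha))
  have hψ : ∀ f : A[X], ψ (algebraMap A[X] (RatFunc A) f) = f.eval₂ A.subtype a := by
    intro f
    exact IsFractionRing.lift_algebraMap _ f
  have hψc : ∀ c : A, ψ (algebraMap A (RatFunc A) c) = c := by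
    intro c
    rw [algebraMap_ratFunc_eq, hψ, eval₂_C]; rfl
  have hmem : ∀ z, ψ z ∈ adj A {a} := by
    intro z
    have hA : ∀ c : A, (c : Λ) ∈ adj A {a} := fun c => le_adj _ _ c.2
    have ha' : a ∈ adj A {a} := subset_adj _ _ rfl
    have hf : ∀ f : A[X], f.eval₂ A.subtype a ∈ adj A {a} := by
      intro f
      rw [eval₂_eq_sum_range]
      exact sum_mem (fun k _ => mul_mem (hA _) (pow_mem ha' k))
    obtain ⟨f, g, -, rfl⟩ := IsFractionRing.div_surjective (A := A[X]) z
    rw [map_div₀, hψ, hψ]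
    exact div_mem (hf f) (hf g)
  let ψ' : RatFunc A →+* adj A {a} := ψ.codRestrict _ hmem
  have hsurj : Function.Surjective ψ' := by
    intro z
    have hle : adj A {a} ≤ ψ.fieldRange := by
      apply adj_le
      · intro c hc
        exact ⟨algebraMap A (RatFunc A) ⟨c, hc⟩, hψc _⟩
      · rintro c rfl
        exact ⟨RatFunc.X, by rw [← RatFunc.algebraMap_X, hψ, eval₂_X]⟩
    obtain ⟨y, hy⟩ := hle z.2
    exact ⟨y, Subtype.ext hy⟩
  refine ⟨RingEquiv.ofBijective ψ' ⟨ψ'.injective, hsurj⟩, hψc, ?_⟩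
  change ψ RatFunc.X = a
  rw [← RatFunc.algebraMap_X, hψ, eval₂_X]

lemma coe_incl {A B : Subfield Λ} (h : A ≤ B) (z : A) : (Subfield.inclusion h z : Λ) = z := rfl

/-- The degree does not change when a transcendental element is adjoined. -/
lemma dg_transc {K K' : Subfield Λ} (h : K ≤ K') {x : Λ} (hx : x ∉ cl (K' : Set Λ))
    (hE : adj K {x} ≤ adj K' {x}) : dg hE = dg h := by
  have hx' : x ∉ cl (K : Set Λ) := fun h' => hx (UnrH3.cl_mono h h')
  obtain ⟨φ, h1, h2⟩ := rat_iso' hx'
  obtain ⟨φ', h1', h2'⟩ := rat_iso' hx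
  have e1 : ∀ a : K, Subfield.inclusion hE (φ (algebraMap K (RatFunc K) a)) =
      φ' (algebraMap K' (RatFunc K') (Subfield.inclusion h a)) := by
    intro a
    apply Subtype.ext
    rw [h1', coe_incl, h1, coe_incl]
  have e2 : Subfield.inclusion hE (φ RatFunc.X) = φ' RatFunc.X := by
    apply Subtype.ext
    rw [h2', coe_incl, h2]
  exact dgh_transc _ _ φ φ' e1 e2

/-- The degree over the field generated by the first coordinate. -/
lemma dg_quad {K N : Subfield Λ} {W : WeierstrassCurve K} [EllW W] {x₁ y₁ : Λ}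
    (hx₁ : x₁ ∉ cl (K : Set Λ)) (h₁ : OnW W x₁ y₁) (hN : N = adj K {x₁, y₁})
    (h : adj K {x₁} ≤ N) : dg h = 2 := by
  obtain ⟨fM, e, hef, hfe, hb, hx, hy⟩ := UnrH3.Ell.exists_single_iso hx₁ h₁ hN
  have hK : K ≤ adj K {x₁} := le_adj _ _
  have hxm : x₁ ∈ adj K {x₁} := subset_adj _ _ rfl
  have hyN : y₁ ∈ N := by rw [hN]; exact subset_adj _ _ (Or.inr rfl)
  have hxN : x₁ ∈ N := by rw [hN]; exact subset_adj _ _ (Or.inl rfl)
  have hKN : K ≤ N := by rw [hN]; exact le_adj _ _
  have hnot : y₁ ∉ adj K {x₁} := by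
    intro hmem
    have h1 : ∀ z (hz : z ∈ adj K {x₁}) (hzN : z ∈ N), e ⟨z, hzN⟩ ∈
        (UnrH3.ratHom W K : RatFunc K →+* UnrH3.FF W K).fieldRange := by
      intro z hz hzN
      have h2 : adj K {x₁} ≤ ((UnrH3.ratHom W K : RatFunc K →+* UnrH3.FF W K).fieldRange.comap
          e).map N.subtype := by
        apply adj_le
        · intro c hc
          refine ⟨⟨c, hKN hc⟩, ?_, rfl⟩
          refine ⟨algebraMap K (RatFunc K) ⟨c, hc⟩, ?_⟩
          have h3 : e ⟨c, hKN hc⟩ = UnrH3.base W K ⟨c, hc⟩ :=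
            UnrH3.Ell.single_e_of fM e hef (hb ⟨c, hc⟩)
          rw [h3]
          exact UnrH3.ratHom_algebraMap W K _
        · rintro c rfl
          refine ⟨⟨c, hxN⟩, ?_, rfl⟩
          refine ⟨RatFunc.X, ?_⟩
          have h3 : e ⟨c, hxN⟩ = UnrH3.gx W K := UnrH3.Ell.single_e_of fM e hef hx
          rw [h3]
          rfl
      obtain ⟨w, hw, hwz⟩ := h2 hz
      have h3 : w = ⟨z, hzN⟩ := Subtype.ext hwz
      rw [← h3]
      exact hw
    obtain ⟨a, ha⟩ := h1 y₁ hmem hyN
    have h3 : e ⟨y₁, hyN⟩ = UnrH3.gy W K := UnrH3.Ell.single_e_of fM e hef hy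
    rw [h3] at ha
    exact (UnrH3.isQuad_gy W K).not_mem a ha
  have hN' : N = adj (adj K {x₁}) {y₁} := by
    rw [UnrH3.adj_adj, hN]
    congr 1
  have hsq : y₁ ^ 2 ∈ adj K {x₁} := by
    have h2 : y₁ ^ 2 = x₁ ^ 3 + (W.a₂ : Λ) * x₁ ^ 2 + (W.a₄ : Λ) * x₁ + (W.a₆ : Λ) := h₁
    rw [h2]
    exact add_mem (add_mem (add_mem (pow_mem hxm _) (mul_mem (hK W.a₂.2) (pow_mem hxm _)))
      (mul_mem (hK W.a₄.2) hxm)) (hK W.a₆.2)
  exact quad_finrank (UnrH3.isQuad_of_eq h hN' hsq hnot hyN)

/-- The degree does not change when a generic point is adjoined. -/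
lemma dg_single {K K' N N' : Subfield Λ} {W : WeierstrassCurve K} [EllW W]
    {W' : WeierstrassCurve K'} [EllW W'] {x₁ y₁ : Λ} (h : K ≤ K')
    (hx₁ : x₁ ∉ cl (K' : Set Λ)) (h₁ : OnW W x₁ y₁) (h₁' : OnW W' x₁ y₁)
    (hN : N = adj K {x₁, y₁}) (hN' : N' = adj K' {x₁, y₁}) (hNN' : N ≤ N') : dg hNN' = dg h := by
  have hx' : x₁ ∉ cl (K : Set Λ) := fun h' => hx₁ (UnrH3.cl_mono h h')
  have h1 : adj K {x₁} ≤ N := by
    rw [hN]; exact UnrH3.adj_mono le_rfl (by simp)
  have h1' : adj K' {x₁} ≤ N' := by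
    rw [hN']; exact UnrH3.adj_mono le_rfl (by simp)
  have h2 : adj K {x₁} ≤ adj K' {x₁} := UnrH3.adj_mono h le_rfl
  have e1 := dg_quad hx' h₁ hN h1
  have e2 := dg_quad hx₁ h₁' hN' h1'
  have e3 := dg_transc h hx₁ h2
  have e4 : dg h1 * dg hNN' = dg h2 * dg h1' := by
    rw [dg_mul, dg_mul]
  rw [e1, e2, e3] at e4
  omega

/-- The degree does not change when independent generic points are adjoined. -/
theorem dg_fam {κ : Type w} [Field κ] {n : ℕ} {j : κ →+* Λ} {k R : Subfield Λ}
    {a b c : Fin n → κ} {X Y : Fin n → Λ} (F : Fam j R a b c X Y) (hj : ∀ z, j z ∈ k)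
    (h : k ≤ R) (J : Finset (Fin n)) (hJ : offJ k X Y J ≤ offJ R X Y J) : dg hJ = dg h := by
  have Fk : Fam j k a b c X Y := F.mono hj fun z hz => subset_cl _ (h hz)
  induction hc : Jᶜ.card generalizing J with
  | zero =>
    rw [Finset.card_eq_zero, Finset.compl_eq_empty_iff] at hc
    subst hc
    have h1 : offJ k X Y Finset.univ = k := offJ_univ
    have h2 : offJ R X Y Finset.univ = R := offJ_univ
    revert hJ
    rw [h1, h2]
    intro hJ
    rfl
  | succ s ih =>
    obtain ⟨l, hl⟩ : Jᶜ.Nonempty := by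
      rw [← Finset.card_pos, hc]; omega
    rw [Finset.mem_compl] at hl
    have hle : offJ k X Y (insert l J) ≤ offJ R X Y (insert l J) :=
      UnrH3.adj_mono h le_rfl
    have hcard : (insert l J)ᶜ.card = s := by
      rw [Finset.card_compl, Finset.card_insert_of_notMem hl]
      rw [Finset.card_compl] at hc
      omega
    rw [← ih (insert l J) hle hcard]
    have := Fk.ell (K := offJ k X Y (insert l J)) le_offJ l
    have := F.ell (K := offJ R X Y (insert l J)) le_offJ l
    exact dg_single hle (offJ_notMem F (Finset.mem_insert_self l J)) (Fk.onW le_offJ l)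
      (F.onW le_offJ l) (offJ_insert hl) (offJ_insert hl) hJ

end UnrA
end

section

/-!
# Embeddings of fields dominated by products and restricted automorphisms
-/

namespace UnrA

universe u v w z

open Polynomial WeierstrassCurve
open scoped Classical
open UnrH3 (cl subset_cl adj le_adj subset_adj adj_le IndFam IndSet exists_factor)

lemma dgh_equiv {K L K' L' : Type u} [Field K] [Field L] [Field K'] [Field L'] (f : K →+* L)
    (f' : K' →+* L') (a : K ≃+* K') (b : L ≃+* L') (h : ∀ z, b (f z) = f' (a z)) :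
    dgh f = dgh f' := by
  let _ := f.toAlgebra
  let _ := f'.toAlgebra
  exact Algebra.finrank_eq_of_equiv_equiv a b (RingHom.ext fun z => (h z).symm)

/-- The degree of a finite extension embedded in a field. -/
lemma dg_fieldRange {k R Λ : Type u} [Field k] [Field R] [Field Λ] [Algebra k R]
    (f : k →+* Λ) (g : R →+* Λ) (h : ∀ z, g (algebraMap k R z) = f z)
    (hle : f.fieldRange ≤ g.fieldRange) : dg hle = Module.finrank k R := by
  have h1 : dgh (algebraMap k R) = Module.finrank k R := by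
    have h2 : (algebraMap k R).toAlgebra = (inferInstance : Algebra k R) :=
      Algebra.algebra_ext _ _ fun _ => rfl
    change @Module.finrank k R _ _ (algebraMap k R).toAlgebra.toModule = _
    rw [h2]
  rw [← h1]
  unfold dg
  symm
  refine dgh_equiv _ _ (RingEquiv.ofBijective f.rangeRestrictField
    ⟨f.rangeRestrictField.injective, f.rangeRestrictField_bijective.2⟩)
    (RingEquiv.ofBijective g.rangeRestrictField
    ⟨g.rangeRestrictField.injective, g.rangeRestrictField_bijective.2⟩) fun z => ?_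
  apply Subtype.ext
  exact h z

/-- A finite extension of `k` generated over `κ` by independent elements and points of curves
can be embedded in an algebraically closed field. -/
theorem exists_dom {κ k R Λ : Type u} [Field κ] [Field k] [Field R] [Field Λ] [IsAlgClosed Λ]
    [Algebra κ k] [Algebra k R] [Algebra κ R] [IsScalarTower κ k R] [FiniteDimensional k R]
    (f : k →+* Λ) {r μ : ℕ} {t : Fin r → R} {x y : Fin μ → R}
    (hind : AlgebraicIndependent κ (Sum.elim t x))
    (htop : IntermediateField.adjoin κ (Set.range t ∪ (Set.range x ∪ Set.range y)) = ⊤) :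
    ∃ (g : R →+* Λ) (hle : f.fieldRange ≤ g.fieldRange), dg hle = Module.finrank k R ∧
      (∀ z : k, g (algebraMap k R z) = f z) ∧
      (∀ z : κ, g (algebraMap κ R z) = f (algebraMap κ k z)) ∧
      g.fieldRange = adj (adj (f.comp (algebraMap κ k)).fieldRange (Set.range fun i => g (t i)))
        (Set.range (fun i => g (x i)) ∪ Set.range (fun i => g (y i))) ∧
      IndSet (f.comp (algebraMap κ k)).fieldRange (Set.range fun i => g (t i)) ∧
      IndFam (adj (f.comp (algebraMap κ k)).fieldRange (Set.range fun i => g (t i)))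
        (fun i => g (x i)) := by
  let _ : Algebra k Λ := f.toAlgebra
  let _ : Algebra κ Λ := (f.comp (algebraMap κ k)).toAlgebra
  have hal : Algebra.IsAlgebraic k R := inferInstance
  obtain ⟨g, hg⟩ : ∃ g : R →ₐ[k] Λ, g = IsAlgClosed.lift := ⟨_, rfl⟩
  have h1 : ∀ z, (g : R →+* Λ) (algebraMap k R z) = f z := fun z => g.commutes z
  have h2 : ∀ z : κ, (g : R →+* Λ) (algebraMap κ R z) = f (algebraMap κ k z) := by
    intro z
    rw [IsScalarTower.algebraMap_apply κ k R, h1]
  have hle : f.fieldRange ≤ (g : R →+* Λ).fieldRange := by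
    rintro _ ⟨z, rfl⟩
    exact ⟨_, h1 z⟩
  obtain ⟨F₀, hF₀⟩ : ∃ F₀, F₀ = (f.comp (algebraMap κ k)).fieldRange := ⟨_, rfl⟩
  have hcomp : ((g : R →+* Λ).comp (algebraMap κ R)) = f.comp (algebraMap κ k) := RingHom.ext h2
  obtain ⟨gκ, hgκ⟩ : ∃ gκ : R →ₐ[κ] Λ, ∀ z, gκ z = g z :=
    ⟨⟨(g : R →+* Λ), h2⟩, fun _ => rfl⟩
  have hind' : AlgebraicIndependent κ (Sum.elim (fun i => (g : R →+* Λ) (t i))
      (fun i => (g : R →+* Λ) (x i))) := by
    have h3 : AlgebraicIndependent κ (gκ ∘ Sum.elim t x) :=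
      hind.map' gκ.toRingHom.injective
    have h4 : gκ ∘ Sum.elim t x = Sum.elim (fun i => (g : R →+* Λ) (t i))
        (fun i => (g : R →+* Λ) (x i)) := by
      funext i
      cases i
      · exact hgκ _
      · exact hgκ _
    rw [← h4]
    exact h3
  refine ⟨(g : R →+* Λ), hle, dg_fieldRange f _ h1 hle, h1, h2, ?_,
    UnrH3.indSet_of_sum hind', UnrH3.indFam_of_sum hind'⟩
  rw [UnrH3.fieldRange_eq_adj (g : R →+* Λ) htop, UnrH3.adj_adj, hcomp]
  congr 1
  rw [Set.image_union, Set.image_union, ← Set.range_comp, ← Set.range_comp, ← Set.range_comp]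
  rfl

/-- The restriction of a group of automorphisms to a stable subfield of a bigger field. -/
theorem exists_theta {κ M Λ : Type u} [Field κ] [Field M] [Field Λ] [Algebra κ M] (φ : M →+* Λ)
    (G : Subgroup (M ≃ₐ[κ] M)) {M' : Subfield Λ} (hM' : M' ≤ φ.fieldRange)
    (hG : ∀ g ∈ G, ∀ z : M, φ z ∈ M' → φ (g z) ∈ M') :
    ∃ θ : G →* (M' ≃+* M'), ∀ g : G, ∀ z : M, ∀ w : M', (w : Λ) = φ z →
      (θ g w : Λ) = φ ((g : M ≃ₐ[κ] M) z) := by
  obtain ⟨ψ, hψ⟩ := exists_factor M'.subtype φ fun z => hM' z.2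
  have hψ' : ∀ w : M', φ (ψ w) = w := fun w => congrArg (fun h : M' →+* Λ => h w) hψ
  obtain ⟨T, hT⟩ : ∃ T : G → (M' →+* M'), ∀ g w, (T g w : Λ) =
      φ ((g : M ≃ₐ[κ] M) (ψ w)) := by
    refine ⟨fun g => (φ.comp (((g : M ≃ₐ[κ] M) : M →+* M).comp ψ)).codRestrict M' fun w => ?_,
      fun g w => rfl⟩
    exact hG g g.2 (ψ w) (by rw [hψ']; exact w.2)
  have hTz : ∀ g : G, ∀ z : M, ∀ w : M', (w : Λ) = φ z →
      (T g w : Λ) = φ ((g : M ≃ₐ[κ] M) z) := by
    intro g z w hw
    rw [hT]
    have h1 : ψ w = z := φ.injective (by rw [hψ', hw])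
    rw [h1]
  have hTmul : ∀ g h : G, T (g * h) = (T g).comp (T h) := by
    intro g h
    ext w
    have h1 := hTz g ((h : M ≃ₐ[κ] M) (ψ w)) (T h w) (hT h w)
    rw [RingHom.comp_apply, h1, hT]
    rfl
  have hTone : T 1 = RingHom.id M' := by
    ext w
    rw [hT]
    exact hψ' w
  refine ⟨{ toFun := fun g => RingEquiv.ofRingHom (T g) (T g⁻¹)
              (by rw [← hTmul, mul_inv_cancel, hTone])
              (by rw [← hTmul, inv_mul_cancel, hTone])
            map_one' := ?_
            map_mul' := ?_ }, fun g z w hw => hTz g z w hw⟩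
  · ext w
    change ((T 1 w : M') : Λ) = w
    rw [hTone]
    rfl
  · intro g h
    ext w
    change ((T (g * h) w : M') : Λ) = T g (T h w)
    rw [hTmul]
    rfl

end UnrA
end

section

/-!
# Multiplication by integers and translations for subfields of a fixed field
-/

namespace UnrA

universe u v w z

open Polynomial WeierstrassCurve
open scoped Classical
open UnrH3 (GoodW Pt FF ptX ptY ptMap Gen InCl liftPt base gpt gx gy nu
  gen_gpt range_in_cl subset_cl cl_le cl_mono cl adj le_adj subset_adj adj_le range_ofId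
  liftPt_gpt liftPt_base ptMap_comp liftPt_gx liftPt_gy FF_range_le exists_factor)
open UnrH3.Ell (EllW OnW)

variable {m : UFun.{u, z}} {Λ : Type u} [Field Λ]

section single

variable {K M : Subfield Λ} {W : WeierstrassCurve K} [hE : EllW W]

omit hE in
/-- The field generated by a generic point is the function field of the curve. -/
lemma pt_iso {P : Pt W Λ} (hP : Gen (Algebra.ofId K Λ) P) (hM : M = adj K {ptX P, ptY P}) :
    ∃ (f : FF W K →+* M) (e : M →+* FF W K), e.comp f = RingHom.id _ ∧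
      f.comp e = RingHom.id _ ∧ ∀ z, (f z : Λ) = liftPt (Algebra.ofId K Λ) P hP z := by
  obtain ⟨f, hf⟩ : ∃ f, f = liftPt (Algebra.ofId K Λ) P hP := ⟨_, rfl⟩
  have fb : ∀ z : K, f (base W K z) = z := fun z => by
    rw [hf]
    exact congrArg (fun g : K →ₐ[K] Λ => g z) (liftPt_base _ P hP)
  have fx : f (gx W K) = ptX P := by rw [hf, liftPt_gx]
  have fy : f (gy W K) = ptY P := by rw [hf, liftPt_gy]
  have hfM : ∀ z, f z ∈ M := by
    intro z
    rw [hM]
    apply FF_range_le f
    · intro z'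
      rw [fb]; exact le_adj _ _ z'.2
    · rw [fx]; exact subset_adj _ _ (by simp)
    · rw [fy]; exact subset_adj _ _ (by simp)
  obtain ⟨e, he⟩ : ∃ e : M →+* FF W K, (f : FF W K →+* Λ).comp e = M.subtype := by
    apply exists_factor
    intro z
    have h3 : M ≤ (f : FF W K →+* Λ).fieldRange := by
      rw [hM]
      apply adj_le
      · intro z hz
        exact ⟨_, fb ⟨z, hz⟩⟩
      · rintro z (hz | hz)
        · rw [hz]; exact ⟨_, fx⟩
        · rw [Set.mem_singleton_iff.mp hz]; exact ⟨_, fy⟩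
    exact h3 z.2
  have hfe : ∀ z : M, f (e z) = z := fun z => congrArg (fun g : M →+* Λ => g z) he
  refine ⟨(f : FF W K →+* Λ).codRestrict M hfM, e, ?_, ?_, fun z => by rw [← hf]; rfl⟩
  · ext1 z
    apply RingHom.injective (f : FF W K →+* Λ)
    exact hfe _
  · ext1 z
    exact Subtype.ext (hfe z)

variable {P Q : Pt W Λ} (hP : Gen (Algebra.ofId K Λ) P) {N : ℕ} (hN : N ≠ 0) (b : Pt W K)
  (hQ : Q = N • P + ptMap (Algebra.ofId K Λ) b)

include hP hN hQ

lemma aff_gen : Gen (Algebra.ofId K Λ) Q := by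
  have hgen := gen_add_base (gen_nsmul (W := W) (K := K) hN) b
  have h1 := (UnrH3.Gen_map_iff (base W K) (liftPt (Algebra.ofId K Λ) P hP) _).mpr hgen
  rw [liftPt_base, map_add, map_nsmul, liftPt_gpt, ← ptMap_comp, liftPt_base, ← hQ] at h1
  exact h1

lemma aff_lift (hQg : Gen (Algebra.ofId K Λ) Q) (z : FF W K) :
    liftPt (Algebra.ofId K Λ) Q hQg z = liftPt (Algebra.ofId K Λ) P hP
      (liftPt (base W K) (N • gpt W K + ptMap (base W K) b)
        (gen_add_base (gen_nsmul hN) b) z) := by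
  have h2 : (liftPt (Algebra.ofId K Λ) P hP).comp (liftPt (base W K)
      (N • gpt W K + ptMap (base W K) b) (gen_add_base (gen_nsmul hN) b)) =
      liftPt (Algebra.ofId K Λ) Q hQg := by
    apply UnrH3.FF_hom_ext'
    · rw [AlgHom.comp_assoc, liftPt_base, liftPt_base, liftPt_base]
    · rw [ptMap_comp, liftPt_gpt, liftPt_gpt, map_add, map_nsmul, liftPt_gpt, ← ptMap_comp,
        liftPt_base, ← hQ]
  rw [← h2]
  rfl

variable {M' : Subfield Λ} (hM : M = adj K {ptX P, ptY P}) (hM' : M' = adj K {ptX Q, ptY Q})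

include hM hM'

lemma aff_le : M' ≤ M := by
  have hQg := aff_gen hP hN b hQ
  obtain ⟨f, e, hef, hfe, hf⟩ := pt_iso hP hM
  rw [hM']
  apply adj_le
  · rw [hM]; exact le_adj _ _
  · have h1 : ∀ z, liftPt (Algebra.ofId K Λ) Q hQg z ∈ M := by
      intro z
      rw [aff_lift hP hN b hQ hQg, ← hf]
      exact (f _).2
    rintro z (hz | hz)
    · rw [hz, ← liftPt_gx (Algebra.ofId K Λ) Q hQg]; exact h1 _
    · rw [Set.mem_singleton_iff.mp hz, ← liftPt_gy (Algebra.ofId K Λ) Q hQg]; exact h1 _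

lemma aff_comp (hle : M' ≤ M) : ∃ (f : FF W K →+* M) (e : M →+* FF W K) (f' : FF W K →+* M')
    (e' : M' →+* FF W K), e.comp f = RingHom.id _ ∧ f.comp e = RingHom.id _ ∧
    e'.comp f' = RingHom.id _ ∧ f'.comp e' = RingHom.id _ ∧
    ∀ β : KM m (FF W K), up m hle (KM.map m f' β) =
      KM.map m f (ev (base W K) (N • gpt W K + ptMap (base W K) b) β) := by
  have hQg := aff_gen hP hN b hQ
  obtain ⟨f, e, hef, hfe, hf⟩ := pt_iso hP hM
  obtain ⟨f', e', hef', hfe', hf'⟩ := pt_iso hQg hM'
  refine ⟨f, e, f', e', hef, hfe, hef', hfe', fun β => ?_⟩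
  rw [ev_of_gen (gen_add_base (gen_nsmul hN) b), KM.map_map, KM.map_map]
  congr 2
  ext z
  rw [RingHom.comp_apply, RingHom.comp_apply]
  change (f' z : Λ) = _
  rw [hf', hf, aff_lift hP hN b hQ hQg]
  rfl

/-- Unramified classes come from an affine map. -/
theorem single_desc (hle : M' ≤ M) {ξ : KM m M} (hξ : Unr ξ) :
    ∃ ξ' : KM m M', Unr ξ' ∧ up m hle ξ' = (2048 * N) • ξ := by
  obtain ⟨f, e, f', e', hef, hfe, hef', hfe', h⟩ := aff_comp (m := m) hP hN b hQ hM hM' hle
  obtain ⟨β', hβ', h1⟩ := aff_desc b hN (hξ.map e)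
  refine ⟨KM.map m f' β', hβ'.map f', ?_⟩
  rw [h, h1, map_nsmul, KM.map_map, hfe, KM.map_id]
  rfl

/-- The kernel of an affine map. -/
theorem single_mker (hle : M' ≤ M) {ξ : KM m M'} (hξ : Unr ξ) (h0 : up m hle ξ = 0) :
    (2048 * N) • ξ = 0 := by
  obtain ⟨f, e, f', e', hef, hfe, hef', hfe', h⟩ := aff_comp (m := m) hP hN b hQ hM hM' hle
  have h1 := h (KM.map m e' ξ)
  have h2 : KM.map m f' (KM.map m e' ξ) = ξ := by
    rw [KM.map_map, hfe', KM.map_id]
    rfl
  rw [h2, h0] at h1
  have h3 := congrArg (KM.map m e) h1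
  rw [map_zero, KM.map_map, hef, KM.map_id] at h3
  have h4 := aff_ker b hN (hξ.map e') h3.symm
  have h5 := congrArg (KM.map m f') h4
  rw [map_nsmul, h2, map_zero] at h5
  exact h5

end single

end UnrA
end

section

/-!
# Multiplication by integers and translations for families of independent points
-/

namespace UnrA

universe u v w z

open Polynomial WeierstrassCurve
open scoped Classical
open UnrH3 (GoodW Pt FF ptX ptY ptMap Gen InCl liftPt base gpt gx gy nu
  gen_gpt range_in_cl subset_cl cl_le cl_mono cl adj le_adj subset_adj adj_le range_ofId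
  liftPt_gpt liftPt_base ptMap_comp liftPt_gx liftPt_gy FF_range_le exists_factor
  family_single_M IndFam)
open UnrH3.Ell (EllW OnW Fam crv)

variable {m : UFun.{u, z}} {Λ : Type u} [Field Λ] {κ : Type w} [Field κ]

/-- The point `(x', y')` is `N` times the point `(x, y)` plus a point with coordinates in `C`. -/
def MulRel (j : κ →+* Λ) (C : Subfield Λ) (N : ℕ) (a b c : κ) (x y x' y' : Λ) : Prop :=
  ∃ P Q B : (crv j a b c).toAffine.Point, (∃ h, P = .some x y h) ∧ (∃ h, Q = .some x' y' h) ∧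
    (B = 0 ∨ ∃ s t h, B = .some s t h ∧ s ∈ C ∧ t ∈ C) ∧ Q = N • P + B

lemma point_transport {V V' : WeierstrassCurve Λ} (h : V = V') :
    ∃ f : V.toAffine.Point →+ V'.toAffine.Point, ∀ x y (hxy : V.toAffine.Nonsingular x y),
      ∃ hxy' : V'.toAffine.Nonsingular x y, f (.some x y hxy) = .some x y hxy' := by
  subst h
  exact ⟨AddMonoidHom.id _, fun x y hxy => ⟨hxy, rfl⟩⟩

/-- The relation over a subfield. -/
lemma MulRel.sub {j : κ →+* Λ} {C K : Subfield Λ} (hCK : C ≤ K) (hj : ∀ z, j z ∈ K) {N : ℕ}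
    {a b c : κ} {x y x' y' : Λ} [hE : EllW (crv (j.codRestrict K hj) a b c)]
    (h : MulRel j C N a b c x y x' y') :
    ∃ (P Q : Pt (crv (j.codRestrict K hj) a b c) Λ) (B : Pt (crv (j.codRestrict K hj) a b c) K),
      P ≠ 0 ∧ Q ≠ 0 ∧ ptX P = x ∧ ptY P = y ∧ ptX Q = x' ∧ ptY Q = y' ∧
      Q = N • P + ptMap (Algebra.ofId K Λ) B := by
  obtain ⟨P, Q, B, ⟨hP, rfl⟩, ⟨hQ, hQ'⟩, hB, hrel⟩ := h
  have hV : crv j a b c = ((crv (j.codRestrict K hj) a b c)⁄Λ : WeierstrassCurve Λ) := by
    ext
    · exact (map_zero (algebraMap K Λ)).symm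
    · rfl
    · exact (map_zero (algebraMap K Λ)).symm
    · rfl
    · rfl
  obtain ⟨f, hf⟩ := point_transport hV
  obtain ⟨hP', hP''⟩ := hf _ _ hP
  obtain ⟨hQ'', hQ'''⟩ := hf _ _ hQ
  have hrel' := congrArg f hrel
  rw [map_add, map_nsmul, hQ', hP'', hQ'''] at hrel'
  obtain ⟨B', hB'⟩ : ∃ B' : Pt (crv (j.codRestrict K hj) a b c) K,
      ptMap (Algebra.ofId K Λ) B' = f B := by
    rcases hB with rfl | ⟨s, t, hst, rfl, hs, ht⟩
    · exact ⟨0, by rw [map_zero, map_zero]⟩
    · obtain ⟨hst', hst''⟩ := hf _ _ hst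
      have h1 := UnrH3.Ell.eq_of_ns (W := crv (j.codRestrict K hj) a b c) hst'
      have h2 : (⟨t, hCK ht⟩ : K) ^ 2 = (⟨s, hCK hs⟩ : K) ^ 3 +
          ((crv (j.codRestrict K hj) a b c)⁄K).a₂ * (⟨s, hCK hs⟩ : K) ^ 2 +
          ((crv (j.codRestrict K hj) a b c)⁄K).a₄ * (⟨s, hCK hs⟩ : K) +
          ((crv (j.codRestrict K hj) a b c)⁄K).a₆ := by
        apply Subtype.ext
        exact h1
      have h3 := UnrH3.Ell.nonsingular_of (W := crv (j.codRestrict K hj) a b c) (Ω := K) h2
      refine ⟨.some _ _ h3, ?_⟩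
      rw [hst'']
      rfl
  refine ⟨.some _ _ hP', .some _ _ hQ'', B', Affine.Point.some_ne_zero _,
    Affine.Point.some_ne_zero _, rfl, rfl, rfl, rfl, ?_⟩
  rw [hB', ← hrel']

variable {n : ℕ} {j : κ →+* Λ} {C M : Subfield Λ} {a b c : Fin n → κ} {X Y : Fin n → Λ}

/-- The change of one point of the family. -/
lemma fam_update (F : Fam j C a b c X Y) {l : Fin n} {K : Subfield Λ}
    (hK : K = adj C (X '' {t | t ≠ l} ∪ Y '' {t | t ≠ l})) {x' y' : Λ}
    (hx : x' ∉ cl (K : Set Λ))
    (hy : y' ^ 2 = x' ^ 3 + j (a l) * x' ^ 2 + j (b l) * x' + j (c l)) :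
    Fam j C a b c (Function.update X l x') (Function.update Y l y') where
  two := F.two
  disc := F.disc
  jC := F.jC
  hY i := by
    by_cases h : i = l
    · subst h
      rw [Function.update_self, Function.update_self]
      exact hy
    · rw [Function.update_of_ne h, Function.update_of_ne h]
      exact F.hY i
  ind i := by
    have hCK : C ≤ K := by rw [hK]; exact le_adj _ _
    have hXK : ∀ t, t ≠ l → X t ∈ K := fun t ht => by
      rw [hK]; exact subset_adj _ _ (Or.inl ⟨t, ht, rfl⟩)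
    by_cases h : i = l
    · subst h
      rw [Function.update_self]
      intro h1
      apply hx
      refine cl_le ?_ h1
      rintro z (hz | ⟨t, ht, rfl⟩)
      · exact subset_cl _ (hCK hz)
      · rw [Function.update_of_ne ht]
        exact subset_cl _ (hXK t ht)
    · rw [Function.update_of_ne h]
      intro h1
      obtain ⟨T, hT⟩ : ∃ T, T = (C : Set Λ) ∪ X '' {t | t ≠ i ∧ t ≠ l} := ⟨_, rfl⟩
      have h2 : X i ∈ cl (insert x' T) := by
        refine cl_mono ?_ h1
        rintro z (hz | ⟨t, ht, rfl⟩)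
        · rw [hT]; exact Or.inr (Or.inl hz)
        · by_cases htl : t = l
          · subst htl
            rw [Function.update_self]
            exact Or.inl rfl
          · rw [Function.update_of_ne htl, hT]
            exact Or.inr (Or.inr ⟨t, ⟨ht, htl⟩, rfl⟩)
      have h3 : X i ∉ cl T := by
        intro h4
        apply F.ind i
        refine cl_mono ?_ h4
        rw [hT]
        rintro z (hz | ⟨t, ht, rfl⟩)
        · exact Or.inl hz
        · exact Or.inr ⟨t, ht.1, rfl⟩
      have h4 := UnrH3.cl_exchange h2 h3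
      apply hx
      refine cl_le ?_ h4
      rintro z (rfl | hz)
      · exact subset_cl _ (hXK i h)
      · rw [hT] at hz
        rcases hz with hz | ⟨t, ht, rfl⟩
        · exact subset_cl _ (hCK hz)
        · exact subset_cl _ (hXK t ht.2)

/-- One step: multiplication and translation in one variable. -/
theorem step_fam (F : Fam j C a b c X Y) (hM : M = adj C (Set.range X ∪ Set.range Y)) {N : ℕ}
    (hN : N ≠ 0) {l : Fin n} {x' y' : Λ}
    (hrel : MulRel j C N (a l) (b l) (c l) (X l) (Y l) x' y') {M' : Subfield Λ}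
    (hM' : M' = adj C (Set.range (Function.update X l x') ∪
      Set.range (Function.update Y l y'))) :
    Fam j C a b c (Function.update X l x') (Function.update Y l y') ∧ ∃ hle : M' ≤ M,
      (∀ ξ : KM m M, Unr ξ → ∃ ξ' : KM m M', Unr ξ' ∧ up m hle ξ' = (2048 * N) • ξ) ∧
      ∀ ξ : KM m M', Unr ξ → up m hle ξ = 0 → (2048 * N) • ξ = 0 := by
  obtain ⟨K, hK⟩ : ∃ K, K = adj C (X '' {t | t ≠ l} ∪ Y '' {t | t ≠ l}) := ⟨_, rfl⟩
  have hCK : C ≤ K := by rw [hK]; exact le_adj _ _
  have := F.ell hCK l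
  obtain ⟨P, Q, B, hP0, hQ0, hPx, hPy, hQx, hQy, hQP⟩ := hrel.sub hCK (fun z => hCK (F.jC z))
  have hP : Gen (Algebra.ofId K Λ) P := by
    change ¬ (ptX P ∈ cl (Set.range (Algebra.ofId K Λ)))
    rw [range_ofId, hPx]
    exact F.single_fact l K hK
  have hQ := aff_gen hP hN B hQP
  have hx' : x' ∉ cl (K : Set Λ) := by
    intro h
    apply hQ
    change ptX Q ∈ cl (Set.range (Algebra.ofId K Λ))
    rw [range_ofId, hQx]
    exact h
  have hy' : y' ^ 2 = x' ^ 3 + j (a l) * x' ^ 2 + j (b l) * x' + j (c l) := by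
    have h1 := UnrH3.Ell.pt_eq hQ0
    rw [hQx, hQy] at h1
    exact h1
  have hMK : M = adj K {ptX P, ptY P} := by
    rw [hPx, hPy]
    exact family_single_M hM l K hK
  have hK' : K = adj C (Function.update X l x' '' {t | t ≠ l} ∪
      Function.update Y l y' '' {t | t ≠ l}) := by
    rw [hK]
    congr 2
    · exact Set.image_congr fun t ht => (Function.update_of_ne ht _ _).symm
    · exact Set.image_congr fun t ht => (Function.update_of_ne ht _ _).symm
  have hMK' : M' = adj K {ptX Q, ptY Q} := by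
    have h1 := family_single_M hM' l K hK'
    rw [Function.update_self, Function.update_self] at h1
    rw [hQx, hQy]
    exact h1
  refine ⟨fam_update F hK hx' hy', aff_le hP hN B hQP hMK hMK', ?_, ?_⟩
  · intro ξ hξ
    exact single_desc hP hN B hQP hMK hMK' _ hξ
  · intro ξ hξ h0
    exact single_mker hP hN B hQP hMK hMK' _ hξ h0

/-- Multiplication and translation in all the variables. -/
theorem mul_fam (F : Fam j C a b c X Y) (hM : M = adj C (Set.range X ∪ Set.range Y)) {N : ℕ}
    (hN : N ≠ 0) {X' Y' : Fin n → Λ}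
    (hrel : ∀ l, MulRel j C N (a l) (b l) (c l) (X l) (Y l) (X' l) (Y' l)) {M' : Subfield Λ}
    (hM' : M' = adj C (Set.range X' ∪ Set.range Y')) :
    Fam j C a b c X' Y' ∧ ∃ hle : M' ≤ M,
      (∀ ξ : KM m M, Unr ξ → ∃ ξ' : KM m M', Unr ξ' ∧ up m hle ξ' = (2048 * N) ^ n • ξ) ∧
      ∀ ξ : KM m M', Unr ξ → up m hle ξ = 0 → (2048 * N) ^ n • ξ = 0 := by
  have key : ∀ J : Finset (Fin n), ∀ MJ : Subfield Λ,
      MJ = adj C (Set.range (fun i => if i ∈ J then X' i else X i) ∪
        Set.range (fun i => if i ∈ J then Y' i else Y i)) →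
      Fam j C a b c (fun i => if i ∈ J then X' i else X i)
        (fun i => if i ∈ J then Y' i else Y i) ∧ ∃ hle : MJ ≤ M,
      (∀ ξ : KM m M, Unr ξ → ∃ ξ' : KM m MJ, Unr ξ' ∧
        up m hle ξ' = (2048 * N) ^ J.card • ξ) ∧
      ∀ ξ : KM m MJ, Unr ξ → up m hle ξ = 0 → (2048 * N) ^ J.card • ξ = 0 := by
    intro J
    induction J using Finset.induction_on with
    | empty =>
      intro MJ hMJ
      have h1 : MJ = M := by
        rw [hMJ, hM]
        congr 1
      subst h1
      refine ⟨?_, le_rfl, ?_, ?_⟩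
      · have e1 : (fun i => if i ∈ (∅ : Finset (Fin n)) then X' i else X i) = X := by
          funext i; simp
        have e2 : (fun i => if i ∈ (∅ : Finset (Fin n)) then Y' i else Y i) = Y := by
          funext i; simp
        rw [e1, e2]
        exact F
      · intro ξ hξ
        refine ⟨ξ, hξ, ?_⟩
        rw [up_refl, Finset.card_empty, pow_zero, one_smul]
      · intro ξ _ h0
        rw [up_refl] at h0
        rw [h0, smul_zero]
    | insert l J hl ih =>
      intro MJ hMJ
      obtain ⟨FJ, hle, h1, h2⟩ := ih _ rfl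
      have e1 : (fun i => if i ∈ insert l J then X' i else X i) =
          Function.update (fun i => if i ∈ J then X' i else X i) l (X' l) := by
        funext i
        by_cases h : i = l
        · subst h
          rw [Function.update_self, if_pos (Finset.mem_insert_self i J)]
        · rw [Function.update_of_ne h]
          have h3 : i ∈ insert l J ↔ i ∈ J := by rw [Finset.mem_insert]; tauto
          rw [if_congr h3 rfl rfl]
      have e2 : (fun i => if i ∈ insert l J then Y' i else Y i) =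
          Function.update (fun i => if i ∈ J then Y' i else Y i) l (Y' l) := by
        funext i
        by_cases h : i = l
        · subst h
          rw [Function.update_self, if_pos (Finset.mem_insert_self i J)]
        · rw [Function.update_of_ne h]
          have h3 : i ∈ insert l J ↔ i ∈ J := by rw [Finset.mem_insert]; tauto
          rw [if_congr h3 rfl rfl]
      rw [e1, e2] at hMJ
      have hrel' : MulRel j C N (a l) (b l) (c l) ((fun i => if i ∈ J then X' i else X i) l)
          ((fun i => if i ∈ J then Y' i else Y i) l) (X' l) (Y' l) := by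
        have e3 : (fun i => if i ∈ J then X' i else X i) l = X l := if_neg hl
        have e4 : (fun i => if i ∈ J then Y' i else Y i) l = Y l := if_neg hl
        rw [e3, e4]
        exact hrel l
      obtain ⟨F', hle', h3, h4⟩ := step_fam (m := m) FJ rfl hN hrel' hMJ
      rw [e1, e2]
      refine ⟨F', hle'.trans hle, ?_, ?_⟩
      · intro ξ hξ
        obtain ⟨ξ₁, hξ₁, h5⟩ := h1 ξ hξ
        obtain ⟨ξ₂, hξ₂, h6⟩ := h3 ξ₁ hξ₁
        refine ⟨ξ₂, hξ₂, ?_⟩
        rw [← up_up hle' hle, h6, map_nsmul, h5, smul_smul,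
          Finset.card_insert_of_notMem hl, pow_succ']
      · intro ξ hξ h0
        rw [← up_up hle' hle] at h0
        have h5 := h2 _ (hξ.map _) h0
        rw [← map_nsmul] at h5
        have h6 := h4 _ (hξ.nsmul _) h5
        rw [smul_smul] at h6
        rw [Finset.card_insert_of_notMem hl, pow_succ']
        exact h6
  obtain ⟨F', hle, h1, h2⟩ := key Finset.univ M' (by
    rw [hM']
    congr 2
    · congr 1; funext i; simp
    · congr 1; funext i; simp)
  rw [Finset.card_univ, Fintype.card_fin] at h1 h2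
  refine ⟨?_, hle, h1, h2⟩
  convert F' using 1
  · funext i; simp
  · funext i; simp

end UnrA
end

section

/-!
# Two families of independent generic points
-/

namespace UnrA

universe u v w z

open Polynomial
open scoped Classical
open UnrH3 (cl subset_cl adj le_adj subset_adj adj_le cl_mono cl_le IndFam IndSet)
open UnrH3.Ell (EllW OnW Fam)

variable {m : UFun.{u, z}} {Λ : Type u} [Field Λ]

section

variable {κ : Type w} [Field κ] {j : κ →+* Λ} {T R : Subfield Λ} {μ n : ℕ}
  {a' b' c' : Fin μ → κ} {x' y' : Fin μ → Λ} {a b c : Fin n → κ} {X Y : Fin n → Λ}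

/-- The union of two independent families. -/
theorem fam_append (F' : Fam j T a' b' c' x' y')
    (hR : R = adj T (Set.range x' ∪ Set.range y')) (F : Fam j R a b c X Y) :
    Fam j T (Fin.append a' a) (Fin.append b' b) (Fin.append c' c) (Fin.append x' X)
      (Fin.append y' Y) where
  two := F.two
  disc i := by
    refine Fin.addCases (fun i => ?_) (fun i => ?_) i
    · simp only [Fin.append_left]; exact F'.disc i
    · simp only [Fin.append_right]; exact F.disc i
  jC := F'.jC
  hY i := by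
    refine Fin.addCases (fun i => ?_) (fun i => ?_) i
    · simp only [Fin.append_left]; exact F'.hY i
    · simp only [Fin.append_right]; exact F.hY i
  ind i := by
    have hRcl : ∀ S : Set Λ, (T : Set Λ) ⊆ cl S → (∀ l, x' l ∈ cl S) →
        (R : Set Λ) ⊆ cl S := by
      intro S h1 h2
      have h3 : R ≤ cl S := by
        rw [hR]
        refine adj_le h1 ?_
        rintro _ (⟨l, rfl⟩ | ⟨l, rfl⟩)
        · exact h2 l
        · exact F'.mem_cl h1 (h2 l)
      exact h3
    refine Fin.addCases (fun i => ?_) (fun i => ?_) i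
    · rw [Fin.append_left]
      intro h
      -- remove the variables of the second family one by one
      have key : ∀ J : Finset (Fin n),
          x' i ∉ cl ((T : Set Λ) ∪ (x' '' {l | l ≠ i} ∪ X '' J)) := by
        intro J
        induction J using Finset.induction_on with
        | empty =>
          intro h1
          refine F'.ind i (cl_mono ?_ h1)
          rintro z (hz | hz | ⟨l, hl, -⟩)
          · exact Or.inl hz
          · exact Or.inr hz
          · simp at hl
        | insert l J hl ih =>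
          intro h1
          have h2 : x' i ∈ cl (insert (X l)
              ((T : Set Λ) ∪ (x' '' {l | l ≠ i} ∪ X '' J))) := by
            refine cl_mono ?_ h1
            rintro z (hz | hz | ⟨s, hs, rfl⟩)
            · exact Or.inr (Or.inl hz)
            · exact Or.inr (Or.inr (Or.inl hz))
            · rw [Finset.mem_coe, Finset.mem_insert] at hs
              rcases hs with rfl | hs
              · exact Or.inl rfl
              · exact Or.inr (Or.inr (Or.inr ⟨s, hs, rfl⟩))
          have h3 := UnrH3.cl_exchange h2 ih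
          apply F.ind l
          refine cl_le ?_ h3
          have hTR : ∀ z ∈ T, z ∈ R := fun z hz => by rw [hR]; exact le_adj _ _ hz
          have hxR : ∀ s, x' s ∈ R := fun s => by
            rw [hR]; exact subset_adj _ _ (Or.inl ⟨s, rfl⟩)
          rintro z (rfl | hz | ⟨s, _, rfl⟩ | ⟨s, hs, rfl⟩)
          · exact subset_cl _ (Or.inl (hxR i))
          · exact subset_cl _ (Or.inl (hTR _ hz))
          · exact subset_cl _ (Or.inl (hxR s))
          · refine subset_cl _ (Or.inr ⟨s, ?_, rfl⟩)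
            rintro rfl
            exact hl hs
      apply key Finset.univ
      refine cl_mono ?_ h
      rintro z (hz | ⟨l, hl, rfl⟩)
      · exact Or.inl hz
      · revert hl
        refine Fin.addCases (fun l => ?_) (fun l => ?_) l
        · intro hl
          rw [Fin.append_left]
          refine Or.inr (Or.inl ⟨l, ?_, rfl⟩)
          rintro rfl
          exact hl rfl
        · intro _
          rw [Fin.append_right]
          exact Or.inr (Or.inr ⟨l, by simp, rfl⟩)
    · rw [Fin.append_right]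
      intro h
      apply F.ind i
      refine cl_le ?_ h
      have hTR : ∀ z ∈ T, z ∈ R := fun z hz => by rw [hR]; exact le_adj _ _ hz
      have hxR : ∀ s, x' s ∈ R := fun s => by
        rw [hR]; exact subset_adj _ _ (Or.inl ⟨s, rfl⟩)
      rintro z (hz | ⟨l, hl, rfl⟩)
      · exact subset_cl _ (Or.inl (hTR _ hz))
      · revert hl
        refine Fin.addCases (fun l => ?_) (fun l => ?_) l
        · intro _
          rw [Fin.append_left]
          exact subset_cl _ (Or.inl (hxR l))
        · intro hl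
          rw [Fin.append_right]
          refine subset_cl _ (Or.inr ⟨l, ?_, rfl⟩)
          rintro rfl
          exact hl rfl

lemma range_append {α : Type*} (f : Fin μ → α) (g : Fin n → α) :
    Set.range (Fin.append f g) = Set.range f ∪ Set.range g := by
  ext z
  constructor
  · rintro ⟨i, rfl⟩
    refine Fin.addCases (fun i => ?_) (fun i => ?_) i
    · rw [Fin.append_left]; exact Or.inl ⟨i, rfl⟩
    · rw [Fin.append_right]; exact Or.inr ⟨i, rfl⟩
  · rintro (⟨i, rfl⟩ | ⟨i, rfl⟩)
    · exact ⟨Fin.castAdd n i, Fin.append_left _ _ _⟩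
    · exact ⟨Fin.natAdd μ i, Fin.append_right _ _ _⟩

lemma adj_append (hR : R = adj T (Set.range x' ∪ Set.range y')) :
    adj R (Set.range X ∪ Set.range Y) =
      adj T (Set.range (Fin.append x' X) ∪ Set.range (Fin.append y' Y)) := by
  rw [hR, UnrH3.adj_adj, range_append, range_append]
  congr 1
  ext z
  simp only [Set.mem_union]
  tauto

end

end UnrA
end

section

/-!
# The Frobenius and classes of given parity over the constant field
-/

namespace UnrA

universe u v w z

open Polynomial WeierstrassCurve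
open scoped Classical
open UnrH3 (cl subset_cl adj le_adj subset_adj adj_le IndFam hom_gen_id family_M family_single_M
  mem_fixF of_mem_fixF fixF cl_mono cl_le)
open UnrH3.Ell (EllW OnW Fam IsFr crv crv_frob crv_ell fix_of_fix npt pick end_prod_zero)

variable {m : UFun.{u, z}} {Λ : Type u} [Field Λ] {n : ℕ}

/-- The endomorphism induced on the quotient by the elements killed by `N`. -/
noncomputable def qEnd (N : ℕ) {V : Type*} [AddCommGroup V] (f : AddMonoid.End V) :
    AddMonoid.End (V ⧸ tor N V) :=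
  QuotientAddGroup.map (tor N V) (tor N V) f (fun _ hx => tor_map f hx)

lemma qEnd_mk (N : ℕ) {V : Type*} [AddCommGroup V] (f : AddMonoid.End V) (v : V) :
    qEnd N f (QuotientAddGroup.mk v) = QuotientAddGroup.mk (f v) := rfl

lemma qEnd_ext {N : ℕ} {V : Type*} [AddCommGroup V] {A B : AddMonoid.End (V ⧸ tor N V)}
    (h : ∀ v : V, A (QuotientAddGroup.mk v) = B (QuotientAddGroup.mk v)) : A = B :=
  AddMonoidHom.ext fun x => by
    obtain ⟨v, rfl⟩ := QuotientAddGroup.mk_surjective x
    exact h v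

lemma mk_eq_mk_iff {N : ℕ} {V : Type*} [AddCommGroup V] {x y : V} :
    (QuotientAddGroup.mk x : V ⧸ tor N V) = QuotientAddGroup.mk y ↔ x - y ∈ tor N V := by
  rw [eq_comm, QuotientAddGroup.eq, neg_add_eq_sub]

variable {κ : Type w} [Field κ] {j : κ →+* Λ} {C M : Subfield Λ} {a b c : Fin n → κ}
  {X Y : Fin n → Λ} {I : Finset (Fin n)} {p s : ℕ} [hp : Fact p.Prime] [hpΛ : CharP Λ p]

/-- The Frobenius in the variables with index in `I` satisfies its characteristic equation. -/
theorem par_total [Fintype κ] {ι : Type*} [Fintype ι] (F : Fam j C a b c X Y)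
    (hs : 0 < s) (hM : M = adj C (Set.range X ∪ Set.range Y)) (hcard : Fintype.card κ = p ^ s)
    (e : Fin n → ι) {A B D : ι → κ} (ha : ∀ i, a i = A (e i)) (hb : ∀ i, b i = B (e i))
    (hc : ∀ i, c i = D (e i)) (π π' : ι → ℂ)
    (hsum : ∀ i, π i + π' i = (p : ℂ) ^ s - npt (A i) (B i) (D i))
    (hprod : ∀ i, π i * π' i = (p : ℂ) ^ s) (P : ℤ[X])
    (hP : P.map (Int.castRingHom ℂ) =
      ∏ S : Finset ι, (Polynomial.X - Polynomial.C (∏ i ∈ I, pick π π' S (e i))))
    {g : M →+* M} (hg : IsFr (p ^ s) C X Y I g) {γ : KM m M} (hu : Unr γ)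
    (ho : Par C X Y I γ) :
    ∑ k ∈ Finset.range (P.natDegree + 1), P.coeff k • (KM.map m g)^[k] γ ∈ tor (TT n) _ := by
  have hQ : Odd (p ^ s) := by
    have h2p : p ≠ 2 := by
      intro h
      apply F.two
      apply j.injective
      rw [map_ofNat, map_zero]
      have h1 := CharP.cast_eq_zero Λ p
      rw [h] at h1
      exact_mod_cast h1
    exact (hp.out.odd_of_ne_two h2p).pow
  choose G hG using F.exists_fr (p := p) (s := s) hM hcard
  have hV : ∀ J, ∀ v ∈ parUnr m C M X Y I, KM.map m (G J) v ∈ parUnr m C M X Y I :=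
    fun J v hv => ⟨hv.1.map _, par_fr hM hQ (hG J) hv.2⟩
  obtain ⟨T, hT⟩ : ∃ T : Finset (Fin n) → AddMonoid.End (parUnr m C M X Y I),
      ∀ J v, (T J v : KM m M) = KM.map m (G J) v :=
    ⟨fun J => ((KM.map m (G J) : KM m M →+ KM m M).comp
      (parUnr m C M X Y I).subtype).codRestrict
      (parUnr m C M X Y I) (fun v => hV J v v.2), fun J v => rfl⟩
  have hsub : ∀ {x : parUnr m C M X Y I} {N : ℕ}, (x : KM m M) ∈ tor N _ → x ∈ tor N _ := by
    intro x N hx
    rw [mem_tor] at *
    exact Subtype.ext hx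
  have key := end_prod_zero (β := {i // i ∈ I}) (fun i => e i) (fun i => qEnd (TT n) (T {(i : Fin n)}))
    (fun i l => by
      apply qEnd_ext
      intro v
      change (QuotientAddGroup.mk (T {(i : Fin n)} (T {(l : Fin n)} v)) :
        parUnr m C M X Y I ⧸ tor (TT n) _) =
        QuotientAddGroup.mk (T {(l : Fin n)} (T {(i : Fin n)} v))
      congr 1
      apply Subtype.ext
      rw [hT, hT, hT, hT, KM.map_map, KM.map_map,
        (hG {(i : Fin n)}).commute hM (hG {(l : Fin n)})])
    (fun i l hil => by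
      apply qEnd_ext
      intro v
      rw [qEnd_mk, qEnd_mk, mk_eq_mk_iff]
      apply hsub
      push_cast
      rw [hT, hT]
      exact tor_TT_of_dvd (by norm_num) (fam_move F hM hcard (by rw [ha, ha, hil])
        (by rw [hb, hb, hil]) (by rw [hc, hc, hil])
        (hG {(i : Fin n)}) (hG {(l : Fin n)}) v.2.1 v.2.2 i.2 l.2))
    (fun i => (p : ℤ) ^ s - npt (A i) (B i) (D i)) ((p : ℤ) ^ s)
    (fun i v => by
      obtain ⟨v, rfl⟩ := QuotientAddGroup.mk_surjective v
      rw [qEnd_mk, qEnd_mk, ← QuotientAddGroup.mk_zsmul, ← QuotientAddGroup.mk_zsmul,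
        ← QuotientAddGroup.mk_sub, ← QuotientAddGroup.mk_add, QuotientAddGroup.eq_zero_iff]
      apply hsub
      have h1 := fam_char F hs hM hcard (hG {(i : Fin n)}) v.2.1 v.2.2 i.2
      rw [ha, hb, hc] at h1
      push_cast
      rw [hT, hT]
      exact tor_TT_of_dvd (by norm_num) h1)
    π π' (fun i => by rw [hsum]; push_cast; rfl) (fun i => by rw [hprod]; push_cast; rfl) P
    (by
      rw [hP]
      refine Finset.prod_congr rfl fun S _ => ?_
      rw [← Finset.prod_coe_sort I])
    (fun J => qEnd (TT n) (T (J.map (Function.Embedding.subtype _))))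
    (by
      apply qEnd_ext
      intro v
      rw [qEnd_mk]
      change (QuotientAddGroup.mk _ : parUnr m C M X Y I ⧸ tor (TT n) _) = QuotientAddGroup.mk v
      congr 1
      apply Subtype.ext
      rw [Finset.map_empty, hT, (hG ∅).unique hM IsFr.id, KM.map_id]
      rfl)
    (fun l J hl => by
      apply qEnd_ext
      intro v
      change (QuotientAddGroup.mk _ : parUnr m C M X Y I ⧸ tor (TT n) _) =
        QuotientAddGroup.mk (T {(l : Fin n)} (T (J.map (Function.Embedding.subtype _)) v))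
      congr 1
      apply Subtype.ext
      rw [Finset.map_cons, Finset.cons_eq_insert]
      change ((T (insert (l : Fin n) (J.map (Function.Embedding.subtype _))) v :
        parUnr m C M X Y I) : KM m M) =
        (T {(l : Fin n)} (T (J.map (Function.Embedding.subtype _)) v) : parUnr m C M X Y I)
      have hl' : (l : Fin n) ∉ J.map (Function.Embedding.subtype _) := by
        rw [Finset.mem_map]
        rintro ⟨t, ht, htl⟩
        exact hl (by rwa [Subtype.ext (a1 := t) (a2 := l) htl] at ht)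
      rw [hT, hT, hT, KM.map_map, (hG (insert (l : Fin n) _)).unique hM
        ((hG {(l : Fin n)}).comp_insert hl' (hG _))])
    (QuotientAddGroup.mk ⟨γ, hu, ho⟩)
  have huniv : (Finset.univ : Finset {i // i ∈ I}).map (Function.Embedding.subtype _) = I := by
    ext i
    simp
  rw [huniv] at key
  have hgG : g = G I := hg.unique hM (hG _)
  have hpow : ∀ k (v : parUnr m C M X Y I), ((T I ^ k) v : KM m M) = (KM.map m g)^[k] v := by
    intro k
    induction k with
    | zero => intro v; rfl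
    | succ k ih =>
      intro v
      rw [Function.iterate_succ_apply, hgG, ← hT, ← hgG, ← ih, pow_succ]
      rfl
  have hqpow : ∀ k (v : parUnr m C M X Y I), (qEnd (TT n) (T I) ^ k) (QuotientAddGroup.mk v) =
      QuotientAddGroup.mk ((T I ^ k) v) := by
    intro k
    induction k with
    | zero => intro v; rfl
    | succ k ih =>
      intro v
      rw [pow_succ, pow_succ]
      change (qEnd (TT n) (T I) ^ k) (qEnd (TT n) (T I) (QuotientAddGroup.mk v)) = _
      rw [qEnd_mk, ih]
      rfl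
  have h2 : (QuotientAddGroup.mk (∑ k ∈ Finset.range (P.natDegree + 1), P.coeff k •
      (T I ^ k) (⟨γ, hu, ho⟩ : parUnr m C M X Y I)) : parUnr m C M X Y I ⧸ tor (TT n) _) = 0 := by
    rw [← key]
    have h3 : ∀ (s : Finset ℕ) (f : ℕ → parUnr m C M X Y I),
        (QuotientAddGroup.mk (∑ k ∈ s, f k) : parUnr m C M X Y I ⧸ tor (TT n) _) =
        ∑ k ∈ s, QuotientAddGroup.mk (f k) := by
      intro s f
      exact map_sum (QuotientAddGroup.mk' (tor (TT n) _)) f s
    rw [h3]
    refine Finset.sum_congr rfl fun k _ => ?_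
    rw [hqpow, QuotientAddGroup.mk_zsmul]
  rw [QuotientAddGroup.eq_zero_iff] at h2
  have h4 := tor_map (parUnr m C M X Y I).subtype h2
  have h5 : (parUnr m C M X Y I).subtype (∑ k ∈ Finset.range (P.natDegree + 1), P.coeff k •
      (T I ^ k) (⟨γ, hu, ho⟩ : parUnr m C M X Y I)) =
      ∑ k ∈ Finset.range (P.natDegree + 1), P.coeff k • (KM.map m g)^[k] γ := by
    rw [map_sum]
    refine Finset.sum_congr rfl fun k _ => ?_
    rw [map_zsmul]
    congr 1
    exact hpow k _
  rwa [h5] at h4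

/-- The Frobenius eigenclasses of given parity over the constant field are killed by an explicit
integer. -/
theorem frob_kill [Fintype κ] {ι : Type*} [Fintype ι] (F : Fam j C a b c X Y)
    (hs : 0 < s) (hM : M = adj C (Set.range X ∪ Set.range Y)) (hcard : Fintype.card κ = p ^ s)
    (e : Fin n → ι) {A B D : ι → κ} (ha : ∀ i, a i = A (e i)) (hb : ∀ i, b i = B (e i))
    (hc : ∀ i, c i = D (e i)) (π π' : ι → ℂ)
    (hsum : ∀ i, π i + π' i = (p : ℂ) ^ s - npt (A i) (B i) (D i))
    (hprod : ∀ i, π i * π' i = (p : ℂ) ^ s) (P : ℤ[X])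
    (hP : P.map (Int.castRingHom ℂ) =
      ∏ S : Finset ι, (Polynomial.X - Polynomial.C (∏ i ∈ I, pick π π' S (e i))))
    (σ : M →+* M) (σC : ∀ z : M, (z : Λ) ∈ C → σ z = z ^ p ^ s)
    (σX : ∀ i, ∀ z : M, (z : Λ) = X i → σ z = z)
    (σY : ∀ i, ∀ z : M, (z : Λ) = Y i → σ z = z) {γ : KM m M} (hu : Unr γ)
    (ho : Par C X Y I γ) {d t : ℕ} (hd : m.HasWeight κ (p ^ s) d) (htd : t ≤ d)
    (hσ : KM.map m σ γ = (((p ^ s : ℕ) : ℤ) ^ t) • γ) :
    ((TT n : ℤ) * (((p ^ s : ℕ) : ℤ) ^ (t * P.natDegree) *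
      P.eval (((p ^ s : ℕ) : ℤ) ^ (d - t)))) • γ = 0 := by
  obtain ⟨q, hq⟩ : ∃ q : ℕ, q = p ^ s := ⟨_, rfl⟩
  obtain ⟨g, hg⟩ := F.exists_fr (p := p) (s := s) hM hcard I
  obtain ⟨g', hg'⟩ := F.exists_fr (p := p) (s := s) hM hcard Iᶜ
  have hCM : C ≤ M := by rw [hM]; exact le_adj _ _
  have hpM : CharP M p := M.subtype.charP M.subtype.injective p
  obtain ⟨fr, hfr⟩ : ∃ fr : M →+* M, ∀ z, fr z = z ^ p ^ s :=
    ⟨iterateFrobenius M p s, fun z => iterateFrobenius_def p s z⟩
  -- the absolute Frobenius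
  have h1 : fr = σ.comp (g.comp g') := by
    apply hom_gen_id hM
    · intro z hz
      rw [RingHom.comp_apply, RingHom.comp_apply, hg'.c z hz, hg.c z hz, σC z hz, hfr]
    · rintro z (⟨i, hi⟩ | ⟨i, hi⟩)
      · rw [RingHom.comp_apply, RingHom.comp_apply, hg'.x i z hi.symm, hfr]
        by_cases hiI : i ∈ I
        · rw [if_neg (by simpa using hiI), hg.x i z hi.symm, if_pos hiI, map_pow,
            σX i z hi.symm]
        · rw [if_pos (by simpa using hiI), map_pow, hg.x i z hi.symm, if_neg hiI, map_pow,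
            σX i z hi.symm]
      · rw [RingHom.comp_apply, RingHom.comp_apply, hg'.y i z hi.symm, hfr]
        by_cases hiI : i ∈ I
        · rw [if_neg (by simpa using hiI), hg.y i z hi.symm, if_pos hiI, map_pow,
            σY i z hi.symm]
        · rw [if_pos (by simpa using hiI), map_pow, hg.y i z hi.symm, if_neg hiI, map_pow,
            σY i z hi.symm]
  have h2 : σ.comp g = g.comp σ := by
    apply hom_gen_id hM
    · intro z hz
      rw [RingHom.comp_apply, RingHom.comp_apply, σC z hz, hg.c z hz, map_pow, hg.c z hz,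
        σC z hz]
    · rintro z (⟨i, hi⟩ | ⟨i, hi⟩)
      · rw [RingHom.comp_apply, RingHom.comp_apply, σX i z hi.symm, hg.x i z hi.symm]
        split_ifs
        · rw [map_pow, σX i z hi.symm]
        · rw [σX i z hi.symm]
      · rw [RingHom.comp_apply, RingHom.comp_apply, σY i z hi.symm, hg.y i z hi.symm]
        split_ifs
        · rw [map_pow, σY i z hi.symm]
        · rw [σY i z hi.symm]
  have h3 : KM.map m g' γ - γ ∈ tor (TT n) _ := by
    apply even_fix F hM (J := Iᶜ) disjoint_compl_right hu ho g'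
    intro z hz
    exact fix_of_fix hM (I := {i | i ∉ Iᶜ}) rfl hg'.c (fun i hi => hg'.fix hi) z hz
  have h4 : KM.map m fr γ = ((q : ℤ) ^ d) • γ := by
    have h5 := hd M (j.codRestrict M fun z => hCM (F.jC z)) fr hfr γ
    rw [← hq] at h5
    have h6 : m.map fr γ = ((q : ℤ) ^ d) • γ := by
      rw [h5, ← natCast_zsmul]
      push_cast
      rfl
    exact h6
  have h5 : ((q : ℤ) ^ d) • γ - ((q : ℤ) ^ t) • KM.map m g γ ∈ tor (TT n) _ := by
    have h6 := tor_map (KM.map m (σ.comp g)) h3
    have h7 : (KM.map m (σ.comp g))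
        (KM.map m g' γ - γ) = ((q : ℤ) ^ d) • γ - ((q : ℤ) ^ t) • KM.map m g γ := by
      change KM.map m (σ.comp g) (KM.map m g' γ - γ) = _
      rw [map_sub, KM.map_map]
      congr 1
      · rw [← h4, h1]
        rfl
      · rw [h2, ← KM.map_map, hσ, map_zsmul, hq]
    rwa [h7] at h6
  have h6 := par_total F hs hM hcard e ha hb hc π π' hsum hprod P hP hg hu ho
  -- powers
  have hz : ∀ (k : ℕ) (c : ℤ) (x : KM m M),
      (KM.map m g)^[k] (c • x) = c • (KM.map m g)^[k] x := by
    intro k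
    induction k with
    | zero => intro c x; rfl
    | succ k ih =>
      intro c x
      rw [Function.iterate_succ_apply, Function.iterate_succ_apply, map_zsmul, ih]
  have h7 : ∀ k : ℕ, ((q : ℤ) ^ (t * k)) • (KM.map m g)^[k] γ - ((q : ℤ) ^ (d * k)) • γ ∈
      tor (TT n) _ := by
    intro k
    induction k with
    | zero => simp
    | succ k ih =>
      have h8 := tor_zsmul ((q : ℤ) ^ t) (tor_map
        (KM.map m g) ih)
      have h9 : ((q : ℤ) ^ t) • (KM.map m g)
          (((q : ℤ) ^ (t * k)) • (KM.map m g)^[k] γ - ((q : ℤ) ^ (d * k)) • γ) =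
          ((q : ℤ) ^ (t * (k + 1))) • (KM.map m g)^[k + 1] γ -
            ((q : ℤ) ^ (d * k)) • (((q : ℤ) ^ t) • KM.map m g γ) := by
        change ((q : ℤ) ^ t) • KM.map m g (((q : ℤ) ^ (t * k)) • (KM.map m g)^[k] γ -
          ((q : ℤ) ^ (d * k)) • γ) = _
        rw [map_sub, map_zsmul, map_zsmul, smul_sub, ← Function.iterate_succ_apply' (KM.map m g),
          smul_smul, smul_comm ((q : ℤ) ^ t)]
        congr 2
        ring
      rw [h9] at h8
      have h10 := tor_zsmul ((q : ℤ) ^ (d * k)) h5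
      have h11 := sub_mem h8 h10
      have e0 : ((q : ℤ) ^ (d * (k + 1))) • γ = ((q : ℤ) ^ (d * k)) • (((q : ℤ) ^ d) • γ) := by
        rw [smul_smul, ← pow_add, mul_add, mul_one]
      convert h11 using 1
      rw [smul_sub, e0]
      abel
  have h8 := tor_zsmul ((q : ℤ) ^ (t * P.natDegree)) h6
  have h9 : ∑ k ∈ Finset.range (P.natDegree + 1), (P.coeff k * (q : ℤ) ^ (t * (P.natDegree - k))) •
      (((q : ℤ) ^ (t * k)) • (KM.map m g)^[k] γ - ((q : ℤ) ^ (d * k)) • γ) ∈ tor (TT n) _ :=
    sum_mem fun k _ => tor_zsmul _ (h7 k)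
  have h10 := sub_mem h8 h9
  have h11 : ((q : ℤ) ^ (t * P.natDegree)) • ∑ k ∈ Finset.range (P.natDegree + 1),
      P.coeff k • (KM.map m g)^[k] γ - ∑ k ∈ Finset.range (P.natDegree + 1),
      (P.coeff k * (q : ℤ) ^ (t * (P.natDegree - k))) •
      (((q : ℤ) ^ (t * k)) • (KM.map m g)^[k] γ - ((q : ℤ) ^ (d * k)) • γ) =
      ((q : ℤ) ^ (t * P.natDegree) * P.eval ((q : ℤ) ^ (d - t))) • γ := by
    rw [Finset.smul_sum, ← Finset.sum_sub_distrib, eval_eq_sum_range, Finset.mul_sum,
      Finset.sum_smul]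
    refine Finset.sum_congr rfl fun k hk => ?_
    rw [Finset.mem_range] at hk
    rw [smul_sub, smul_smul, smul_smul, smul_smul]
    have e1 : (q : ℤ) ^ (t * P.natDegree) * P.coeff k =
        P.coeff k * (q : ℤ) ^ (t * (P.natDegree - k)) * (q : ℤ) ^ (t * k) := by
      rw [mul_assoc, ← pow_add, ← mul_add, mul_comm (P.coeff k)]
      congr 3
      omega
    rw [e1, sub_sub_cancel]
    congr 1
    have e2 : (q : ℤ) ^ (d * k) = (q : ℤ) ^ (t * k) * ((q : ℤ) ^ (d - t)) ^ k := by
      rw [← pow_mul, ← pow_add, ← add_mul]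
      congr 2
      omega
    have e3 : (q : ℤ) ^ (t * P.natDegree) =
        (q : ℤ) ^ (t * (P.natDegree - k)) * (q : ℤ) ^ (t * k) := by
      rw [← pow_add, ← mul_add]
      congr 2
      omega
    rw [e2, e3]
    ring
  rw [h11, mem_tor] at h10
  rw [← hq, mul_smul, natCast_zsmul]
  exact h10

end UnrA
end

section

/-!
# Coefficient fields dominated by products of elliptic curves and rational varieties
-/

namespace UnrA

universe u v w z

open Polynomial
open scoped Classical
open UnrH3 (cl subset_cl adj le_adj subset_adj adj_le cl_mono cl_le IndFam IndSet restrict_hom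
  hom_gen_id)
open UnrH3.Ell (EllW OnW Fam npt pick)

variable {m : UFun.{u, z}} {Λ : Type u} [Field Λ]

section up

variable {κ : Type w} [Field κ] {j : κ →+* Λ} {C M k₀ N : Subfield Λ} {n : ℕ} {a b c : Fin n → κ}
  {X Y : Fin n → Λ} {I : Finset (Fin n)}

/-- The parity does not change when the field of coefficients grows. -/
lemma Par.up (F : Fam j C a b c X Y) (hj : ∀ z, j z ∈ k₀) (hk₀C : k₀ ≤ C)
    (hM : M = adj C (Set.range X ∪ Set.range Y)) (hN : N = adj k₀ (Set.range X ∪ Set.range Y))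
    (hle : N ≤ M) {v : KM m N} (hv : Par k₀ X Y I v) : Par C X Y I (up m hle v) := by
  intro l G hG
  have Fk : Fam j k₀ a b c X Y := F.mono hj fun z hz => subset_cl _ (hk₀C hz)
  obtain ⟨g, g1, g2, g3⟩ := Fk.exists_flip hN l
  have hg : IsFlip k₀ X Y l g := ⟨g1, g2, g3⟩
  rw [← up_comp hle (flip_restrict hk₀C hM hN hle hG hg), hv l g hg]
  split_ifs
  · rw [map_neg]
  · rfl

end up

section kill

variable {κ : Type w} [Field κ] {j : κ →+* Λ} {C M : Subfield Λ} {n : ℕ} {a b c : Fin n → κ}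
  {X Y : Fin n → Λ} {I : Finset (Fin n)} {p s : ℕ} [hp : Fact p.Prime] [hpΛ : CharP Λ p]

/-- Classes of given parity over the finite constant field. -/
theorem par_kill [Fintype κ] {ι : Type*} [Fintype ι] (F : Fam j C a b c X Y)
    (hC : ∀ z ∈ C, ∃ w, j w = z) (hs : 0 < s) (hM : M = adj C (Set.range X ∪ Set.range Y))
    (hcard : Fintype.card κ = p ^ s)
    (e : Fin n → ι) {A B D : ι → κ} (ha : ∀ i, a i = A (e i)) (hb : ∀ i, b i = B (e i))
    (hc : ∀ i, c i = D (e i)) (π π' : ι → ℂ)
    (hsum : ∀ i, π i + π' i = (p : ℂ) ^ s - npt (A i) (B i) (D i))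
    (hprod : ∀ i, π i * π' i = (p : ℂ) ^ s) (P : ℤ[X])
    (hP : P.map (Int.castRingHom ℂ) =
      ∏ S : Finset ι, (Polynomial.X - Polynomial.C (∏ i ∈ I, pick π π' S (e i))))
    {d : ℕ} (hw : m.HasWeight κ (p ^ s) d) {γ : KM m M} (hu : Unr γ) (ho : Par C X Y I γ) :
    (TT n * (P.eval (((p ^ s : ℕ) : ℤ) ^ d)).natAbs) • γ = 0 := by
  have hfix : ∀ z : M, (z : Λ) ∈ C → z = z ^ p ^ s := by
    intro z hz
    obtain ⟨w, hw⟩ := hC _ hz
    apply Subtype.ext
    push_cast
    rw [← hw, ← map_pow, ← hcard, FiniteField.pow_card]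
  have h1 := frob_kill F hs hM hcard e ha hb hc π π' hsum hprod P hP (RingHom.id M)
    (fun z hz => hfix z hz) (fun _ _ _ => rfl) (fun _ _ _ => rfl) hu ho hw (Nat.zero_le d)
    (t := 0) (by rw [KM.map_id, pow_zero, one_smul]; rfl)
  rw [zero_mul, pow_zero, one_mul, Nat.sub_zero] at h1
  rcases Int.natAbs_eq (P.eval (((p ^ s : ℕ) : ℤ) ^ d)) with h3 | h3
  · rw [← natCast_zsmul γ]
    rw [h3] at h1
    push_cast at h1 ⊢
    exact h1
  · rw [← natCast_zsmul γ, ← neg_eq_zero, ← neg_smul]
    rw [h3] at h1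
    push_cast at h1 ⊢
    rw [← h1]
    congr 1
    ring

/-- The part of `I'` in the second family of variables. -/
def sndPart {μ n : ℕ} (I' : Finset (Fin (μ + n))) : Finset (Fin n) :=
  Finset.univ.filter fun i => Fin.natAdd μ i ∈ I'

/-- Classes of given parity in a subset of the variables, over the finite constant field. -/
theorem snd_kill [Fintype κ] {ι : Type*} [Fintype ι] {μ : ℕ} {a b c : Fin (μ + n) → κ}
    {X Y : Fin (μ + n) → Λ} (F : Fam j C a b c X Y)
    (hC : ∀ z ∈ C, ∃ w, j w = z) (hs : 0 < s) (hM : M = adj C (Set.range X ∪ Set.range Y))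
    (hcard : Fintype.card κ = p ^ s)
    (e : Fin (μ + n) → ι) {A B D : ι → κ} (ha : ∀ i, a i = A (e i)) (hb : ∀ i, b i = B (e i))
    (hc : ∀ i, c i = D (e i)) (π π' : ι → ℂ)
    (hsum : ∀ i, π i + π' i = (p : ℂ) ^ s - npt (A i) (B i) (D i))
    (hprod : ∀ i, π i * π' i = (p : ℂ) ^ s) (P : Finset (Fin (μ + n)) → ℤ[X])
    (hP : ∀ I', (P I').map (Int.castRingHom ℂ) =
      ∏ S : Finset ι, (Polynomial.X - Polynomial.C (∏ i ∈ I', pick π π' S (e i))))
    {d : ℕ} (hw : m.HasWeight κ (p ^ s) d) {γ : KM m M} (hu : Unr γ)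
    (ho : ∀ i : Fin n, ∀ g : M →+* M, IsFlip C X Y (Fin.natAdd μ i) g →
      KM.map m g γ = if i ∈ I then -γ else γ) {E : ℕ}
    (hE : ∀ I' : Finset (Fin (μ + n)), sndPart I' = I →
      ((P I').eval (((p ^ s : ℕ) : ℤ) ^ d)).natAbs ∣ E ∨
      ∃ N : ℕ, N ∣ E ∧ ∀ γ' : KM m M, Unr γ' → Par C X Y I' γ' → (1024 * N) • γ' = 0) :
    (2 ^ (μ + n) * (2 * TT (μ + n) * E)) • γ = 0 := by
  choose Fl hFl using exists_flips F hM
  have hpart : ∀ I' : Finset (Fin (μ + n)), (2 * TT (μ + n) * E) • part Fl I' γ = 0 := by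
    intro I'
    have hpu : Unr (part Fl I' γ) := part_unr hu
    have hpp : Par C X Y I' (part Fl I' γ) := part_par hFl hM
    by_cases h : sndPart I' = I
    · rcases hE I' h with ⟨c', hc'⟩ | ⟨N, ⟨c', hc'⟩, hN⟩
      · have h1 := par_kill F hC hs hM hcard e ha hb hc π π' hsum hprod (P I') (hP I') hw hpu hpp
        have h2 : 2 * TT (μ + n) * E = (2 * c') *
            (TT (μ + n) * ((P I').eval (((p ^ s : ℕ) : ℤ) ^ d)).natAbs) := by
          rw [hc']; ring
        rw [h2, mul_smul, h1, smul_zero]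
      · have h1 := hN _ hpu hpp
        have h2 : 2 * TT (μ + n) * E = (2 * 2 ^ ((μ + n + 2) * (μ + n)) * c') * (1024 * N) := by
          rw [hc']
          unfold TT
          rw [pow_add]
          ring
        rw [h2, mul_smul, h1, smul_zero]
    · obtain ⟨i, hi⟩ : ∃ i, ¬ (i ∈ sndPart I' ↔ i ∈ I) := by
        by_contra hcon
        push Not at hcon
        exact h (Finset.ext hcon)
      obtain ⟨g, g1, g2, g3⟩ := F.exists_flip hM (Fin.natAdd μ i)
      have hg : IsFlip C X Y (Fin.natAdd μ i) g := ⟨g1, g2, g3⟩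
      have e1 := hpp _ g hg
      have e2 : KM.map m g (part Fl I' γ) =
          if i ∈ I then -part Fl I' γ else part Fl I' γ := by
        have hcomm : ∀ J, g.comp (Fl J) = (Fl J).comp g := by
          intro J
          apply hom_gen_id hM
          · intro z hz
            rw [RingHom.comp_apply, RingHom.comp_apply, (hFl J).c z hz, hg.c z hz,
              (hFl J).c z hz]
          · rintro z (⟨l, hl⟩ | ⟨l, hl⟩)
            · rw [RingHom.comp_apply, RingHom.comp_apply, (hFl J).x l z hl.symm,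
                hg.x l z hl.symm, (hFl J).x l z hl.symm]
            · have hgz := hg.y l z hl.symm
              have hFz := (hFl J).y l z hl.symm
              rw [RingHom.comp_apply, RingHom.comp_apply, hFz, hgz]
              by_cases h7 : l ∈ J
              · rw [if_pos h7] at hFz ⊢
                by_cases h8 : l = Fin.natAdd μ i
                · rw [if_pos h8] at hgz ⊢
                  rw [map_neg, map_neg, hgz, hFz]
                · rw [if_neg h8] at hgz ⊢
                  rw [map_neg, hgz, hFz]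
              · rw [if_neg h7] at hFz ⊢
                by_cases h8 : l = Fin.natAdd μ i
                · rw [if_pos h8] at hgz ⊢
                  rw [map_neg, hgz, hFz]
                · rw [if_neg h8] at hgz ⊢
                  rw [hgz, hFz]
        unfold part
        rw [map_sum]
        have h3 : ∀ J, KM.map m g (sg I' J • KM.map m (Fl J) γ) =
            if i ∈ I then -(sg I' J • KM.map m (Fl J) γ) else sg I' J • KM.map m (Fl J) γ := by
          intro J
          rw [map_zsmul, KM.map_map, hcomm, ← KM.map_map, ho i g hg]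
          split_ifs
          · rw [map_neg, smul_neg]
          · rfl
        rw [Finset.sum_congr rfl fun J _ => h3 J]
        split_ifs
        · rw [Finset.sum_neg_distrib]
        · rfl
      have h4 : 2 • part Fl I' γ = 0 := by
        rw [e1] at e2
        have h5 : (Fin.natAdd μ i ∈ I') ↔ i ∈ sndPart I' := by
          unfold sndPart
          simp
        by_cases h6 : i ∈ I
        · have h7 : Fin.natAdd μ i ∉ I' := fun h7 => hi ⟨fun _ => h6, fun _ => h5.mp h7⟩
          rw [if_neg h7, if_pos h6] at e2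
          rw [two_nsmul]
          nth_rewrite 1 [e2]
          exact neg_add_cancel _
        · have h7 : Fin.natAdd μ i ∈ I' := by
            by_contra h7
            exact hi ⟨fun h8 => (h7 (h5.mpr h8)).elim, fun h8 => (h6 h8).elim⟩
          rw [if_pos h7, if_neg h6] at e2
          rw [two_nsmul]
          nth_rewrite 2 [← e2]
          exact add_neg_cancel _
      have h2 : 2 * TT (μ + n) * E = (TT (μ + n) * E) * 2 := by ring
      rw [h2, mul_smul, h4, smul_zero]
  have h1 := sum_part hFl hM (z := γ)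
  rw [mul_comm, mul_smul, ← h1, Finset.smul_sum]
  exact Finset.sum_eq_zero fun I _ => hpart I

end kill

end UnrA
end

section

/-!
# Purely transcendental extensions
-/

namespace UnrA

universe u v w z

open Polynomial
open scoped Classical
open UnrH3 (cl subset_cl adj le_adj subset_adj adj_le IndSet transc_sub algebraMap_ratFunc_eq)

variable {m : UFun.{u, z}} {Λ : Type u} [Field Λ]

lemma rat_iso {A : Subfield Λ} {a : Λ} (ha : a ∉ cl (A : Set Λ)) :
    ∃ e : RatFunc A ≃+* adj A {a}, (e : RatFunc A →+* adj A {a}).comp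
      (algebraMap A (RatFunc A)) = Subfield.inclusion (le_adj A {a}) := by
  let ψ : RatFunc A →+* Λ := IsFractionRing.lift (A := A[X]) (g := eval₂RingHom A.subtype a)
    ((injective_iff_map_eq_zero _).mpr (transc_sub ha))
  have hψ : ∀ f : A[X], ψ (algebraMap A[X] (RatFunc A) f) = f.eval₂ A.subtype a := by
    intro f
    exact IsFractionRing.lift_algebraMap _ f
  have hψc : ∀ c : A, ψ (algebraMap A (RatFunc A) c) = c := by
    intro c
    rw [algebraMap_ratFunc_eq, hψ, eval₂_C]; rfl
  have hmem : ∀ z, ψ z ∈ adj A {a} := by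
    intro z
    have hA : ∀ c : A, (c : Λ) ∈ adj A {a} := fun c => le_adj _ _ c.2
    have ha' : a ∈ adj A {a} := subset_adj _ _ rfl
    have hf : ∀ f : A[X], f.eval₂ A.subtype a ∈ adj A {a} := by
      intro f
      rw [eval₂_eq_sum_range]
      exact sum_mem (fun k _ => mul_mem (hA _) (pow_mem ha' k))
    obtain ⟨f, g, -, rfl⟩ := IsFractionRing.div_surjective (A := A[X]) z
    rw [map_div₀, hψ, hψ]
    exact div_mem (hf f) (hf g)
  let ψ' : RatFunc A →+* adj A {a} := ψ.codRestrict _ hmem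
  have hsurj : Function.Surjective ψ' := by
    intro z
    have hle : adj A {a} ≤ ψ.fieldRange := by
      apply adj_le
      · intro c hc
        exact ⟨algebraMap A (RatFunc A) ⟨c, hc⟩, hψc _⟩
      · rintro c rfl
        exact ⟨RatFunc.X, by rw [← RatFunc.algebraMap_X, hψ, eval₂_X]⟩
    obtain ⟨y, hy⟩ := hle z.2
    exact ⟨y, Subtype.ext hy⟩
  refine ⟨RingEquiv.ofBijective ψ' ⟨ψ'.injective, hsurj⟩, ?_⟩
  ext z
  exact hψc z

lemma rat_descend1 {A : Subfield Λ} {a : Λ} (ha : a ∉ cl (A : Set Λ))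
    {ξ : KM m (adj A {a})} (hξ : Unr ξ) :
    ∃ η : KM m A, Unr η ∧ up m (le_adj A {a}) η = ξ := by
  obtain ⟨e, he⟩ := rat_iso ha
  obtain ⟨η, hη, hη'⟩ := unr_ratFunc (hξ.map (e.symm : adj A {a} →+* RatFunc A))
  refine ⟨η, hη, ?_⟩
  have h1 := congrArg (KM.map m (e : RatFunc A →+* adj A {a})) hη'
  rw [KM.map_map, KM.map_map] at h1
  have h2 : (e : RatFunc A →+* adj A {a}).comp (e.symm : adj A {a} →+* RatFunc A) =
      RingHom.id _ := by
    ext z; simp
  rw [h2, he, KM.map_id] at h1
  exact h1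

lemma rat_inj1 {A : Subfield Λ} {a : Λ} (ha : a ∉ cl (A : Set Λ)) {η : KM m A}
    (h : up m (le_adj A {a}) η = 0) : η = 0 := by
  obtain ⟨e, he⟩ := rat_iso ha
  have h1 : KM.map m (algebraMap A (RatFunc A)) η = 0 := by
    have h2 : (e.symm : adj A {a} →+* RatFunc A).comp (Subfield.inclusion (le_adj A {a})) =
        algebraMap A (RatFunc A) := by
      rw [← he]
      ext z
      simp
    rw [← h2, ← KM.map_map, ← up, h, map_zero]
  exact (injective_iff_map_eq_zero _).mp (map_ratFunc_injective) _ h1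

/-- Unramified classes of a purely transcendental extension are constant. -/
theorem rat_descend {A B : Subfield Λ} {T : Set Λ} (hfin : T.Finite) (hT : IndSet A T)
    (hB : B = adj A T) (h : A ≤ B) {ξ : KM m B} (hξ : Unr ξ) :
    ∃ η : KM m A, Unr η ∧ up m h η = ξ := by
  induction T, hfin using Set.Finite.induction_on generalizing B with
  | empty =>
    rw [UnrH3.adj_empty] at hB
    subst hB
    exact ⟨ξ, hξ, up_refl _ _⟩
  | @insert a T ha _ ih =>
    have he : B = adj (adj A T) {a} := by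
      rw [hB, UnrH3.adj_adj, Set.union_comm, Set.singleton_union]
    have ha' : a ∉ cl (adj A T : Set Λ) := by
      rw [UnrH3.cl_adj]
      have := hT a (Set.mem_insert _ _)
      rwa [Set.insert_sdiff_self_of_notMem ha] at this
    subst he
    obtain ⟨η, hη, hη'⟩ := rat_descend1 ha' hξ
    obtain ⟨ζ, hζ, hζ'⟩ := ih (hT.mono (Set.subset_insert _ _)) rfl (le_adj A T) hη
    refine ⟨ζ, hζ, ?_⟩
    rw [← hη', ← hζ', up_up]

/-- The restriction to a purely transcendental extension is injective. -/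
theorem rat_injective {A B : Subfield Λ} {T : Set Λ} (hfin : T.Finite) (hT : IndSet A T)
    (hB : B = adj A T) (h : A ≤ B) {η : KM m A} (hη : up m h η = 0) : η = 0 := by
  induction T, hfin using Set.Finite.induction_on generalizing B with
  | empty =>
    rw [UnrH3.adj_empty] at hB
    subst hB
    rw [up_refl] at hη
    exact hη
  | @insert a T ha _ ih =>
    have he : B = adj (adj A T) {a} := by
      rw [hB, UnrH3.adj_adj, Set.union_comm, Set.singleton_union]
    have ha' : a ∉ cl (adj A T : Set Λ) := by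
      rw [UnrH3.cl_adj]
      have := hT a (Set.mem_insert _ _)
      rwa [Set.insert_sdiff_self_of_notMem ha] at this
    subst he
    apply ih (hT.mono (Set.subset_insert _ _)) rfl (le_adj A T)
    apply rat_inj1 ha'
    rw [up_up]
    exact hη

end UnrA
end

section

/-!
# The Frobenius on the unramified classes of constant covers
-/

namespace UnrH3.Ell

universe u v w

open Polynomial WeierstrassCurve
open scoped Classical

variable {m : ℕ} {Λ : Type u} [Field Λ] {n r : ℕ}
variable {κ : Type w} [Field κ] {j : κ →+* Λ} {F₀ k M M₀ : Subfield Λ} {a b c : Fin n → κ}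
  {X Y : Fin n → Λ} {t : Fin r → Λ} {v : Λ}

lemma Fam.two' {C : Subfield Λ} (F : Fam j C a b c X Y) : (2 : Λ) ≠ 0 := by
  rw [← map_ofNat j 2, Ne, map_eq_zero]; exact F.two

/-- Homogeneous unramified classes of degree at least two are odd. -/
lemma Fam.odd_of_deg (F : Fam j k a b c X Y) (hm : Odd m) (hv : v = ∏ i, Y i)
    (hk : k = adj F₀ (Set.range t)) (ht : IndSet F₀ (Set.range t))
    (htors : ∀ z ∈ F₀, z ≠ 0 → ∃ l > 0, z ^ l = 1) {d : ℕ}
    (hd2 : 2 ≤ d) {ξ : KM m (twF k X v)} (hξ : Unr ξ) (hd : ξ ∈ KM.deg m (twF k X v) d) :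
    ξ = 0 ∨ ∃ τ : twF k X v →+* twF k X v, (∀ z : twF k X v, (z : Λ) ∈ k → τ z = z) ∧
      (∀ i, ∀ z : twF k X v, (z : Λ) = X i → τ z = z) ∧
      (∀ z : twF k X v, (z : Λ) = v → τ z = -z) ∧ KM.map m τ ξ = -ξ := by
  have h2 := F.two'
  obtain ⟨B, hB⟩ : ∃ B, B = adj k (Set.range X) := ⟨_, rfl⟩
  have hkB : k ≤ B := by rw [hB]; exact le_adj _ _
  have hxB : ∀ i, X i ∈ B := fun i => by rw [hB]; exact subset_adj _ _ ⟨i, rfl⟩
  have hLB : twF k X v = adj B {v} := by
    rw [hB, adj_adj, twF, Set.union_singleton]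
  have hBL : B ≤ twF k X v := by rw [hLB]; exact le_adj _ _
  have hBfrom : ∀ η : KM m B, Unr η → From k B η := by
    subst hB
    intro η hη
    exact from_rat hm (Set.finite_range X) F.ind.indSet_range hη
  by_cases hwB : v ∈ B
  · left
    have hle : twF k X v ≤ B := by
      rw [hLB]
      exact adj_le le_rfl (by rintro z rfl; exact hwB)
    have h3 : From B (twF k X v) ξ := ⟨hBL, up m hle ξ, hξ.map _, by rw [up_up, up_refl]⟩
    exact zero_of_from hm hk ht htors hd2 (h3.trans hBfrom) hd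
  · right
    have hw2 : v ^ 2 ∈ B := by
      rw [hv, ← Finset.prod_pow]
      refine prod_mem fun i _ => ?_
      rw [F.hY]
      exact add_mem (add_mem (add_mem (pow_mem (hxB i) 3) (mul_mem (hkB (F.jC _))
        (pow_mem (hxB i) 2))) (mul_mem (hkB (F.jC _)) (hxB i))) (hkB (F.jC _))
    have q := isQuad_of_eq hBL hLB hw2 hwB w_mem_twF
    obtain ⟨τ, hτ, hτw⟩ := q.exists_conj (c := ⟨v ^ 2, hw2⟩) rfl
    have fix : ∀ z (hz : z ∈ B), τ ⟨z, hBL hz⟩ = ⟨z, hBL hz⟩ := fun z hz =>
      congrArg (fun f : B →+* twF k X v => f ⟨z, hz⟩) hτ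
    have ss : τ.comp τ = RingHom.id _ := by
      ext1 z
      refine hom_eq_of_gen (τ.comp τ) (RingHom.id _) (F := B) (T := {v}) hBL
        (by rintro z rfl; exact w_mem_twF) ?_ ?_ z (by rw [← hLB]; exact z.2)
      · intro z hz
        change τ (τ _) = _
        rw [fix z hz, fix z hz]; rfl
      · intro z hz
        rw [Set.mem_singleton_iff] at hz
        subst hz
        change τ (τ _) = _
        rw [hτw, map_neg, hτw, neg_neg]; rfl
    have hw0 : v ≠ 0 := by
      rintro h0
      exact hwB (by rw [h0]; exact zero_mem _)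
    obtain ⟨η, ζ, hη, hζ, hζτ, hξ', hζ'⟩ := exists_inv_part hm q τ hτ (by
      rw [hτw]
      intro he
      have h3 : -v = v := congrArg Subtype.val he
      have h4 : 2 * v = 0 := by linear_combination -h3
      rcases mul_eq_zero.mp h4 with h5 | h5
      · exact h2 h5
      · exact hw0 h5) ss hξ
    have h3 : From B (twF k X v) (up m hBL η) := ⟨hBL, η, hη, rfl⟩
    have hζd : ζ ∈ KM.deg m (twF k X v) d := by
      rw [hζ']
      exact Submodule.smul_mem _ _ (sub_mem hd (KM.deg_map τ hd))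
    have hηd : up m hBL η ∈ KM.deg m (twF k X v) d := by
      have h4 : up m hBL η = ξ - ζ := by rw [hξ']; abel
      rw [h4]; exact sub_mem hd hζd
    have h4 : up m hBL η = 0 := zero_of_from hm hk ht htors hd2 (h3.trans hBfrom) hηd
    rw [h4, zero_add] at hξ'
    subst hξ'
    refine ⟨τ, ?_, ?_, ?_, hζτ⟩
    · intro z hz
      exact fix z (hkB hz)
    · intro j z hz
      have h4 : z = ⟨X j, hBL (hxB j)⟩ := Subtype.ext hz
      rw [h4]; exact fix _ (hxB j)
    · intro z hz
      have h4 : z = ⟨v, w_mem_twF⟩ := Subtype.ext hz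
      rw [h4]; exact hτw

lemma Fam.cover_le (_F : Fam j k a b c X Y) (hM : M = adj k (Set.range X ∪ Set.range Y))
    (hv : v = ∏ i, Y i) : twF k X v ≤ M := by
  have hCM : k ≤ M := by rw [hM]; exact le_adj _ _
  have hXM : ∀ i, X i ∈ M := fun i => by rw [hM]; exact subset_adj _ _ (Or.inl ⟨i, rfl⟩)
  have hYM : ∀ i, Y i ∈ M := fun i => by rw [hM]; exact subset_adj _ _ (Or.inr ⟨i, rfl⟩)
  apply adj_le hCM
  rintro z (rfl | ⟨i, rfl⟩)
  · rw [hv]; exact prod_mem fun i _ => hYM i
  · exact hXM i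

/-- The pulled back class is odd in each of the points. -/
lemma Fam.cover_multiOdd (_F : Fam j k a b c X Y) (hM : M = adj k (Set.range X ∪ Set.range Y))
    (hv : v = ∏ i, Y i) (hL : twF k X v ≤ M)
    {τ : twF k X v →+* twF k X v} (hτk : ∀ z : twF k X v, (z : Λ) ∈ k → τ z = z)
    (hτx : ∀ j, ∀ z : twF k X v, (z : Λ) = X j → τ z = z)
    (hτw : ∀ z : twF k X v, (z : Λ) = v → τ z = -z) {α : KM m (twF k X v)}
    (hα : KM.map m τ α = -α) : MultiOdd k X Y (up m hL α) := by
  intro j g gC gT gY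
  have hCM : k ≤ M := by rw [hM]; exact le_adj _ _
  have hXM : ∀ i, X i ∈ M := fun i => by rw [hM]; exact subset_adj _ _ (Or.inl ⟨i, rfl⟩)
  have hYM : ∀ i, Y i ∈ M := fun i => by rw [hM]; exact subset_adj _ _ (Or.inr ⟨i, rfl⟩)
  have h1 : g.comp (Subfield.inclusion hL) = (Subfield.inclusion hL).comp τ := by
    ext1 z
    refine hom_eq_of_gen (g.comp (Subfield.inclusion hL)) ((Subfield.inclusion hL).comp τ)
      (F := k) (T := insert v (Set.range X)) k_le_twF (subset_adj _ _) ?_ ?_ z z.2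
    · intro z hz
      change g _ = Subfield.inclusion hL (τ _)
      rw [hτk _ hz, gC _ hz]
    · rintro z (hz | ⟨i, hz⟩)
      · change g _ = Subfield.inclusion hL (τ _)
        rw [hτw _ hz]
        have h2 : (Subfield.inclusion hL ⟨z, subset_adj _ _ (Or.inl hz)⟩ : M) =
            ∏ j, (⟨Y j, hYM j⟩ : M) := by
          apply Subtype.ext
          push_cast
          change z = _
          rw [hz]; exact hv
        have h4 : g (∏ j, (⟨Y j, hYM j⟩ : M)) = -∏ j, (⟨Y j, hYM j⟩ : M) := by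
          rw [map_prod, ← Finset.mul_prod_erase Finset.univ _ (Finset.mem_univ j),
            ← Finset.mul_prod_erase Finset.univ (fun j => (⟨Y j, hYM j⟩ : M))
              (Finset.mem_univ j), gY _ rfl, neg_mul]
          congr 2
          refine Finset.prod_congr rfl fun i hi => ?_
          exact gT _ (Or.inr ⟨i, (Finset.mem_erase.mp hi).1, rfl⟩)
        rw [map_neg, h2, h4]
      · change g _ = Subfield.inclusion hL (τ _)
        rw [hτx i _ hz.symm]
        exact gT _ (Or.inl ⟨i, hz⟩)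
  rw [KM.map_map, h1, ← KM.map_map, hα, map_neg]

lemma Fam.cover_tower (F : Fam j k a b c X Y) (hM : M = adj k (Set.range X ∪ Set.range Y))
    (hv : v = ∏ i, Y i) : QTower (twF k X v) M := by
  have h2 : QTower (twF k X v) (adj (twF k X v) (Set.range Y)) := by
    apply QTower.of_pow_four (Set.finite_range Y)
    rintro _ ⟨i, rfl⟩
    have h3 : Y i ^ 4 = (Y i ^ 2) ^ 2 := by ring
    rw [h3, F.hY]
    exact pow_mem (add_mem (add_mem (add_mem (pow_mem (x_mem_twF i) 3) (mul_mem
      (k_le_twF (F.jC _)) (pow_mem (x_mem_twF i) 2))) (mul_mem (k_le_twF (F.jC _)) (x_mem_twF i)))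
      (k_le_twF (F.jC _))) 2
  have h3 : adj (twF k X v) (Set.range Y) = M := by
    apply le_antisymm
    · apply adj_le (F.cover_le hM hv)
      rintro _ ⟨j, rfl⟩
      rw [hM]
      exact subset_adj _ _ (Or.inr ⟨j, rfl⟩)
    · rw [hM]
      apply adj_le (k_le_twF.trans (le_adj _ _))
      rintro z (⟨j, rfl⟩ | ⟨j, rfl⟩)
      · exact le_adj _ _ (x_mem_twF j)
      · exact subset_adj _ _ ⟨j, rfl⟩
  rw [← h3]
  exact h2

/-- The elements `t` are independent over the constant field `M₀`. -/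
lemma Fam.indSet_const (F : Fam j k a b c X Y) (hk : k = adj F₀ (Set.range t))
    (ht : IndSet F₀ (Set.range t)) (hj : ∀ z, j z ∈ F₀)
    (hM₀ : M₀ = adj F₀ (Set.range X ∪ Set.range Y)) : IndSet M₀ (Set.range t) := by
  have hFk : F₀ ≤ k := by rw [hk]; exact le_adj _ _
  have F' : Fam j F₀ a b c X Y := F.mono hj (fun z hz => subset_cl _ (hFk hz))
  intro z hz h
  have h1 : z ∉ cl ((F₀ : Set Λ) ∪ (Set.range t \ {z}) ∪ Set.range X) := by
    apply indep_swap (ht z hz)
    intro j hj
    apply F.ind j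
    refine cl_mono ?_ hj
    have hkC' : (F₀ : Set Λ) ∪ Set.range t ⊆ k := by
      rintro y (hy | hy)
      · rw [hk]; exact le_adj _ _ hy
      · rw [hk]; exact subset_adj _ _ hy
    rintro y (rfl | (hy | ⟨hy, _⟩) | hy)
    · exact Or.inl (hkC' (Or.inr hz))
    · exact Or.inl (hkC' (Or.inl hy))
    · exact Or.inl (hkC' (Or.inr hy))
    · exact Or.inr hy
  apply h1
  refine cl_le ?_ h
  rintro y (hy | hy)
  · have h3 : M₀ ≤ cl ((F₀ : Set Λ) ∪ (Set.range t \ {z}) ∪ Set.range X) := by
      rw [hM₀]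
      have hC : (F₀ : Set Λ) ⊆ cl ((F₀ : Set Λ) ∪ (Set.range t \ {z}) ∪ Set.range X) :=
        fun y hy => subset_cl _ (Or.inl (Or.inl hy))
      apply adj_le hC
      have h4 : ∀ i, X i ∈ cl ((F₀ : Set Λ) ∪ (Set.range t \ {z}) ∪ Set.range X) := fun i =>
        subset_cl _ (Or.inr ⟨i, rfl⟩)
      rintro y (⟨i, rfl⟩ | ⟨i, rfl⟩)
      · exact h4 i
      · exact F'.mem_cl hC (h4 i)
    exact h3 hy
  · exact subset_cl _ (Or.inl (Or.inr hy))

/-- Oddness over the constant field. -/
lemma Fam.const_multiOdd (F : Fam j k a b c X Y) (hF : F₀ ≤ k)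
    (hM : M = adj k (Set.range X ∪ Set.range Y))
    (hM₀ : M₀ = adj F₀ (Set.range X ∪ Set.range Y)) (h : M₀ ≤ M)
    (hinj : Function.Injective (up m h)) {γ : KM m M₀} (hodd : MultiOdd k X Y (up m h γ)) :
    MultiOdd F₀ X Y γ := by
  intro l g g1 g2 g3
  have hFM₀ : F₀ ≤ M₀ := by rw [hM₀]; exact le_adj _ _
  have hTM₀ : (Set.range X ∪ Set.range Y) ⊆ M₀ := by rw [hM₀]; exact subset_adj _ _
  obtain ⟨G, GC, GX, GY⟩ := F.exists_flip hM l
  have h1 : KM.map m G (up m h γ) = -up m h γ := by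
    apply hodd l G GC
    · rintro z (⟨i, hi⟩ | ⟨i, hij, hi⟩)
      · exact GX i z hi.symm
      · rw [GY i z hi.symm, if_neg hij]
    · intro z hz
      rw [GY l z hz, if_pos rfl]
  have h3 : G.comp (Subfield.inclusion h) = (Subfield.inclusion h).comp g := by
    ext1 z
    refine hom_eq_of_gen (G.comp (Subfield.inclusion h)) ((Subfield.inclusion h).comp g)
      (F := F₀) (T := Set.range X ∪ Set.range Y) hFM₀ hTM₀ ?_ ?_ z (by rw [← hM₀]; exact z.2)
    · intro z hz
      change G _ = Subfield.inclusion h (g _)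
      rw [g1 _ hz, GC _ (hF hz)]
    · rintro z (⟨i, hi⟩ | ⟨i, hi⟩)
      · change G _ = Subfield.inclusion h (g _)
        rw [g2 _ (Or.inl ⟨i, hi⟩), GX i _ hi.symm]
      · change G _ = Subfield.inclusion h (g _)
        by_cases hij : i = l
        · subst hij
          rw [g3 _ hi.symm, GY i _ hi.symm, if_pos rfl, map_neg]
        · rw [g2 _ (Or.inr ⟨i, hij, hi⟩), GY i _ hi.symm, if_neg hij]
  apply hinj
  unfold up at h1 ⊢
  rw [KM.map_map, h3, ← KM.map_map] at h1
  rw [h1, map_neg]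

variable {p s : ℕ} [hp : Fact p.Prime] [hpΛ : CharP Λ p]

/-- The characteristic equation of the Frobenius on the unramified classes of a constant cover. -/
theorem Fam.cover_frob [IsAlgClosed Λ] [Fintype κ] {ι : Type*} [Fintype ι]
    (F : Fam j k a b c X Y) (hm : Odd m) (hs : 0 < s) (hj : ∀ z, j z ∈ F₀)
    (hM : M = adj k (Set.range X ∪ Set.range Y)) (hv : v = ∏ i, Y i)
    (hk : k = adj F₀ (Set.range t)) (ht : IndSet F₀ (Set.range t))
    (htors : ∀ z ∈ F₀, z ≠ 0 → ∃ l > 0, z ^ l = 1)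
    (hcard : Fintype.card κ = p ^ s)
    (e : Fin n → ι) {A B D : ι → κ} (ha : ∀ i, a i = A (e i)) (hb : ∀ i, b i = B (e i))
    (hc : ∀ i, c i = D (e i)) (π π' : ι → ℂ)
    (hsum : ∀ i, π i + π' i = (p : ℂ) ^ s - npt (A i) (B i) (D i))
    (hprod : ∀ i, π i * π' i = (p : ℂ) ^ s) (P : ℤ[X])
    (hP : P.map (Int.castRingHom ℂ) =
      ∏ S : Finset ι, (Polynomial.X - Polynomial.C (∏ i, pick π π' S (e i)))) (β : ℕ)
    (σ : twF k X v →+* twF k X v)
    (σF : ∀ z : twF k X v, (z : Λ) ∈ F₀ → σ z = z ^ p ^ s)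
    (σt : ∀ i, ∀ z : twF k X v, (z : Λ) = t i → σ z = z)
    (σx : ∀ i, ∀ z : twF k X v, (z : Λ) = X i → σ z = z)
    (σv : ∀ z : twF k X v, (z : Λ) = v → σ z = (-1) ^ β * z)
    {d : ℕ} (hd2 : 2 ≤ d) {ξ : KM m (twF k X v)} (hξ : Unr ξ) (hd : ξ ∈ KM.deg m (twF k X v) d)
    {N : ℕ} (hN : P.natDegree ≤ N) :
    ∑ l ∈ Finset.range (N + 1),
      (P.coeff l * ((-1) ^ β * (p : ℤ) ^ (s * d)) ^ l) • (KM.map m σ)^[N - l] ξ = 0 := by
  have h2 := F.two'
  have hFk : F₀ ≤ k := by rw [hk]; exact le_adj _ _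
  have hkM : k ≤ M := by rw [hM]; exact le_adj _ _
  have hL := F.cover_le hM hv
  have htower := F.cover_tower hM hv
  have hLinj : Function.Injective (up m hL) := htower.up_injective hm hL
  -- iterates of zero
  have hit0 : ∀ (R : Subfield Λ) (f : R →+* R) (l : ℕ), (KM.map m f)^[l] (0 : KM m R) = 0 := by
    intro R f l
    induction l with
    | zero => rfl
    | succ l ih => rw [Function.iterate_succ_apply, map_zero, ih]
  rcases F.odd_of_deg hm hv hk ht htors hd2 hξ hd with h0 | ⟨τ, t1, t2, t3, t4⟩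
  · rw [h0]
    refine Finset.sum_eq_zero fun l _ => ?_
    rw [hit0, smul_zero]
  have hXM : ∀ i, X i ∈ M := fun i => by rw [hM]; exact subset_adj _ _ (Or.inl ⟨i, rfl⟩)
  have hYM : ∀ i, Y i ∈ M := fun i => by rw [hM]; exact subset_adj _ _ (Or.inr ⟨i, rfl⟩)
  have hvM : v ∈ M := hL w_mem_twF
  have hjM : ∀ z, j z ∈ M := fun z => hkM (F.jC z)
  -- an extension of `σ`
  obtain ⟨g₀, hg₀⟩ := exists_extension_sub hL htower.subset_cl ((twF k X v).subtype.comp σ)
  have hg₀' : ∀ z : M, ∀ hz : (z : Λ) ∈ twF k X v, g₀ z = σ ⟨z, hz⟩ := fun z hz => hg₀ ⟨z, hz⟩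
  have gF : ∀ z : M, (z : Λ) ∈ F₀ → g₀ z = (z : Λ) ^ p ^ s := by
    intro z hz
    rw [hg₀' z (k_le_twF (hFk hz)), σF _ hz]
    rfl
  have gt : ∀ i, ∀ z : M, (z : Λ) = t i → g₀ z = z := by
    intro i z hz
    have h1 : (z : Λ) ∈ k := by rw [hk, hz]; exact subset_adj _ _ ⟨i, rfl⟩
    rw [hg₀' z (k_le_twF h1), σt i _ hz]
  have gx : ∀ i, g₀ ⟨X i, hXM i⟩ = X i := by
    intro i
    rw [hg₀' ⟨X i, hXM i⟩ (x_mem_twF i), σx i _ rfl]
  have gv : g₀ ⟨v, hvM⟩ = (-1) ^ β * v := by
    rw [hg₀' ⟨v, hvM⟩ w_mem_twF, σv _ rfl]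
    push_cast
    rfl
  have gj : ∀ z, g₀ ⟨j z, hjM z⟩ = j z := by
    intro z
    rw [gF _ (hj z)]
    change (j z) ^ p ^ s = _
    rw [← map_pow, ← hcard, FiniteField.pow_card]
  have gk : ∀ z : M, (z : Λ) ∈ k → g₀ z ∈ k := by
    have : k ≤ (k.comap g₀).map M.subtype := by
      conv_lhs => rw [hk]
      apply adj_le
      · intro z hz
        refine ⟨⟨z, hkM (hFk hz)⟩, ?_, rfl⟩
        change g₀ _ ∈ k
        rw [gF _ hz]
        exact pow_mem (hFk hz) _
      · rintro _ ⟨i, rfl⟩
        have h1 : t i ∈ k := by rw [hk]; exact subset_adj _ _ ⟨i, rfl⟩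
        refine ⟨⟨t i, hkM h1⟩, ?_, rfl⟩
        change g₀ _ ∈ k
        rw [gt i _ rfl]
        exact h1
    intro z hz
    obtain ⟨z', hz', he⟩ := this hz
    have : z' = z := Subtype.ext he
    rw [← this]; exact hz'
  have gY' : ∀ i, g₀ ⟨Y i, hYM i⟩ = Y i ∨ g₀ ⟨Y i, hYM i⟩ = -Y i := by
    intro i
    apply sq_eq_sq_iff_eq_or_eq_neg.mp
    have h3 : (⟨Y i, hYM i⟩ : M) ^ 2 = ⟨X i, hXM i⟩ ^ 3 + ⟨j (a i), hjM _⟩ * ⟨X i, hXM i⟩ ^ 2 +
      ⟨j (b i), hjM _⟩ * ⟨X i, hXM i⟩ + ⟨j (c i), hjM _⟩ := Subtype.ext (F.hY i)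
    rw [← map_pow, h3, map_add, map_add, map_add, map_mul, map_mul, map_pow, map_pow, gx, gj, gj,
      gj]
    exact (F.hY i).symm
  have hYX : ∀ i, Y i ≠ 0 := by
    intro i h
    apply F.ind i
    refine cl_mono Set.subset_union_left ?_
    have hC : ∀ z ∈ k, z ∈ UnrH3.cl (k : Set Λ) := fun z hz => subset_cl _ hz
    have h3 := F.hY i
    rw [h] at h3
    rw [UnrH3.mem_cl]
    have h4 : ∀ z : κ, j z ∈ Subfield.closure (k : Set Λ) := fun z =>
      Subfield.subset_closure (F.jC z)
    refine ⟨Polynomial.X ^ 3 + (Polynomial.C ⟨j (a i), h4 _⟩ * Polynomial.X ^ 2 +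
      Polynomial.C ⟨j (b i), h4 _⟩ * Polynomial.X + Polynomial.C ⟨j (c i), h4 _⟩), ?_, ?_⟩
    · apply Monic.ne_zero
      apply monic_X_pow_add
      compute_degree!
    · simp only [map_add, map_mul, map_pow, aeval_X, aeval_C]
      change X i ^ 3 + (j (a i) * X i ^ 2 + j (b i) * X i + j (c i)) = 0
      linear_combination -h3
  obtain ⟨J, hJ⟩ : ∃ J : Finset (Fin n), ∀ i,
      g₀ ⟨Y i, hYM i⟩ = if i ∈ J then -Y i else Y i := by
    refine ⟨Finset.univ.filter fun i => g₀ ⟨Y i, hYM i⟩ ≠ Y i, fun i => ?_⟩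
    by_cases h : g₀ ⟨Y i, hYM i⟩ = Y i
    · rw [if_neg (by simpa using h), h]
    · rw [if_pos (by simpa using h)]
      exact (gY' i).resolve_left h
  have hJβ : ((-1 : ℤ) ^ J.card) = (-1) ^ β := by
    have h3 : (⟨v, hvM⟩ : M) = ∏ i, ⟨Y i, hYM i⟩ := by
      apply Subtype.ext
      push_cast
      exact hv
    have h4 := gv
    rw [h3, map_prod, Finset.prod_congr rfl (fun i _ => hJ i)] at h4
    have h5 : ∏ i, (if i ∈ J then -Y i else Y i) = (-1) ^ J.card * ∏ i, Y i := by
      have h6 : ∀ i, (if i ∈ J then -Y i else Y i) = (if i ∈ J then -1 else 1) * Y i := by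
        intro i
        split_ifs <;> ring
      rw [Finset.prod_congr rfl (fun i _ => h6 i), Finset.prod_mul_distrib]
      congr 1
      rw [Finset.prod_ite, Finset.prod_const, Finset.prod_const_one, mul_one]
      congr 2
      ext i; simp
    rw [h5, ← hv] at h4
    have hv0 : v ≠ 0 := by
      rw [hv]; exact Finset.prod_ne_zero_iff.mpr fun i _ => hYX i
    have h7 := mul_right_cancel₀ hv0 h4
    rcases Nat.even_or_odd J.card with hJc | hJc <;> rcases Nat.even_or_odd β with hβ | hβ
    · rw [hJc.neg_one_pow, hβ.neg_one_pow]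
    · rw [hJc.neg_one_pow, hβ.neg_one_pow] at h7
      exact absurd (by linear_combination h7) h2
    · rw [hJc.neg_one_pow, hβ.neg_one_pow] at h7
      exact absurd (by linear_combination -h7) h2
    · rw [hJc.neg_one_pow, hβ.neg_one_pow]
  -- the constant field
  obtain ⟨M₀, hM₀⟩ : ∃ M₀, M₀ = adj F₀ (Set.range X ∪ Set.range Y) := ⟨_, rfl⟩
  have hM₀M : M₀ ≤ M := by
    rw [hM₀, hM]
    exact adj_mono hFk le_rfl
  have hFM₀ : F₀ ≤ M₀ := by rw [hM₀]; exact le_adj _ _
  have hXM₀ : ∀ i, X i ∈ M₀ := fun i => by rw [hM₀]; exact subset_adj _ _ (Or.inl ⟨i, rfl⟩)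
  have hYM₀ : ∀ i, Y i ∈ M₀ := fun i => by rw [hM₀]; exact subset_adj _ _ (Or.inr ⟨i, rfl⟩)
  have hind₀ := F.indSet_const hk ht hj hM₀
  have hMM₀ : M = adj M₀ (Set.range t) := by
    rw [hM, hM₀, hk, adj_adj, adj_adj, Set.union_comm]
  have hinj : Function.Injective (up m hM₀M) := by
    have key : ∀ (B : Subfield Λ) (h : M₀ ≤ B), B = adj M₀ (Set.range t) →
        Function.Injective (up m h) := by
      rintro B h rfl
      exact up_injective_rat hm (Set.finite_range t) hind₀
    exact key _ _ hMM₀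
  obtain ⟨_, γ, hγ, hγξ⟩ : From M₀ M (up m hL ξ) := by
    have key : ∀ (B : Subfield Λ), B = adj M₀ (Set.range t) → ∀ ξ : KM m B, Unr ξ →
        From M₀ B ξ := by
      rintro B rfl ξ hξ
      exact from_rat hm (Set.finite_range t) hind₀ hξ
    exact key _ hMM₀ _ (hξ.map _)
  have hodd : MultiOdd F₀ X Y γ := by
    apply F.const_multiOdd hFk hM hM₀ hM₀M hinj
    rw [hγξ]
    exact F.cover_multiOdd hM hv hL t1 t2 t3 t4
  have gM : ∀ z : M, g₀ z ∈ M := by
    intro z
    have hfin : M ≤ (M.comap g₀).map M.subtype := by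
      conv_lhs => rw [hM]
      apply adj_le
      · intro z hz
        exact ⟨⟨z, hkM hz⟩, hkM (gk ⟨z, hkM hz⟩ hz), rfl⟩
      · rintro z (⟨i, rfl⟩ | ⟨i, rfl⟩)
        · refine ⟨⟨X i, hXM i⟩, ?_, rfl⟩
          change g₀ _ ∈ M
          rw [gx]; exact hXM i
        · refine ⟨⟨Y i, hYM i⟩, ?_, rfl⟩
          change g₀ _ ∈ M
          rw [hJ]
          split_ifs
          · exact neg_mem (hYM i)
          · exact hYM i
    obtain ⟨z', hz', he⟩ := hfin z.2
    have : z' = z := Subtype.ext he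
    rw [← this]; exact hz'
  obtain ⟨g, hg⟩ : ∃ g : M →+* M, ∀ z, (g z : Λ) = g₀ z :=
    ⟨g₀.codRestrict M gM, fun _ => rfl⟩
  have hgL : g.comp (Subfield.inclusion hL) = (Subfield.inclusion hL).comp σ := by
    ext z
    change (g (Subfield.inclusion hL z) : Λ) = σ z
    rw [hg]
    exact hg₀ z
  have gM₀ : ∀ z : M₀, (g (Subfield.inclusion hM₀M z) : Λ) ∈ M₀ := by
    intro z
    have hfin : M₀ ≤ (M₀.comap (g₀.comp (Subfield.inclusion hM₀M))).map M₀.subtype := by
      conv_lhs => rw [hM₀]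
      apply adj_le
      · intro z hz
        refine ⟨⟨z, hFM₀ hz⟩, ?_, rfl⟩
        change g₀ _ ∈ M₀
        rw [gF _ hz]
        exact pow_mem (hFM₀ hz) _
      · rintro z (⟨i, rfl⟩ | ⟨i, rfl⟩)
        · refine ⟨⟨X i, hXM₀ i⟩, ?_, rfl⟩
          change g₀ ⟨X i, hXM i⟩ ∈ M₀
          rw [gx]; exact hXM₀ i
        · refine ⟨⟨Y i, hYM₀ i⟩, ?_, rfl⟩
          change g₀ ⟨Y i, hYM i⟩ ∈ M₀
          rw [hJ]
          split_ifs
          · exact neg_mem (hYM₀ i)
          · exact hYM₀ i
    obtain ⟨z', hz', he⟩ := hfin z.2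
    have : z' = z := Subtype.ext he
    rw [← this, hg]; exact hz'
  obtain ⟨σ₀, hσ₀⟩ : ∃ σ₀ : M₀ →+* M₀, ∀ z, (σ₀ z : Λ) = g (Subfield.inclusion hM₀M z) :=
    ⟨(M.subtype.comp (g.comp (Subfield.inclusion hM₀M))).codRestrict M₀ gM₀, fun _ => rfl⟩
  have hgM₀ : g.comp (Subfield.inclusion hM₀M) = (Subfield.inclusion hM₀M).comp σ₀ := by
    ext z
    exact (hσ₀ z).symm
  have hM₀p : CharP M₀ p := M₀.subtype.charP M₀.subtype.injective p
  have hMp : CharP M p := M.subtype.charP M.subtype.injective p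
  have hfr₀ : ∀ z : M₀, iterateFrobenius M₀ p s z = z ^ p ^ s := fun z =>
    iterateFrobenius_def ..
  have hfr : ∀ z : M, iterateFrobenius M p s z = z ^ p ^ s := fun z => iterateFrobenius_def ..
  have hfrcomp : (iterateFrobenius M p s).comp (Subfield.inclusion hM₀M) =
      (Subfield.inclusion hM₀M).comp (iterateFrobenius M₀ p s) := by
    ext1 z
    rw [RingHom.comp_apply, RingHom.comp_apply, hfr, hfr₀, map_pow]
  have hQ : KM.map m (iterateFrobenius M₀ p s) γ = ((p ^ s : ℕ) : ℤ) ^ d • γ := by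
    apply hinj
    unfold up at *
    rw [KM.map_map, ← hfrcomp, ← KM.map_map, map_zsmul, hγξ]
    exact KM.deg_frob hfr (KM.deg_map _ hd)
  have F' : Fam j F₀ a b c X Y := F.mono hj (fun z hz => subset_cl _ (hFk hz))
  have key := F'.frob hm hs hM₀ hcard e ha hb hc π π' hsum hprod P hP J σ₀ (by
      intro z hz
      apply Subtype.ext
      rw [hσ₀, hg, gF _ hz]
      rfl)
    (by
      intro i z hz
      have h1 : Subfield.inclusion hM₀M z = ⟨X i, hXM i⟩ := Subtype.ext hz
      apply Subtype.ext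
      rw [hσ₀, hg, h1, gx, hz])
    (by
      intro i z hz
      have h1 : Subfield.inclusion hM₀M z = ⟨Y i, hYM i⟩ := Subtype.ext hz
      apply Subtype.ext
      rw [hσ₀, hg, h1, hJ]
      split_ifs
      · push_cast
        rw [hz]
      · rw [hz])
    hγ hodd (iterateFrobenius M₀ p s) hfr₀ hQ hN
  rw [hJβ] at key
  have e0 : ∀ (l : ℕ) (η : KM m M₀), (KM.map m g)^[l] (up m hM₀M η) =
      up m hM₀M ((KM.map m σ₀)^[l] η) := by
    intro l
    induction l with
    | zero => intro η; rfl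
    | succ l ih =>
      intro η
      have h1 : KM.map m g (up m hM₀M η) = up m hM₀M (KM.map m σ₀ η) := by
        unfold up
        rw [KM.map_map, KM.map_map, hgM₀]
      rw [Function.iterate_succ_apply, Function.iterate_succ_apply, h1, ih]
  have e1 : ∀ (l : ℕ) (η : KM m (twF k X v)), (KM.map m g)^[l] (up m hL η) =
      up m hL ((KM.map m σ)^[l] η) := by
    intro l
    induction l with
    | zero => intro η; rfl
    | succ l ih =>
      intro η
      have h1 : KM.map m g (up m hL η) = up m hL (KM.map m σ η) := by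
        unfold up
        rw [KM.map_map, KM.map_map, hgL]
      rw [Function.iterate_succ_apply, Function.iterate_succ_apply, h1, ih]
  have hq : ((p ^ s : ℕ) : ℤ) ^ d = (p : ℤ) ^ (s * d) := by
    push_cast
    rw [pow_mul]
  rw [hq] at key
  apply hLinj
  rw [map_zero]
  have h3 := congrArg (up m hM₀M) key
  rw [map_zero, map_sum] at h3
  rw [map_sum, ← h3]
  refine Finset.sum_congr rfl fun l _ => ?_
  rw [map_zsmul, map_zsmul, ← e0, ← e1, hγξ]

end UnrH3.Ell
end

section

/-!
# The Hasse bound and the values of the characteristic polynomial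
-/

namespace UnrH3.Ell

universe u v w

open Polynomial WeierstrassCurve
open scoped Classical

lemma cubic_eq {κ : Type w} [Field κ] {f : κ[X]} (hf : f.Monic) (h3 : f.natDegree = 3) :
    f = (⟨1, f.coeff 2, f.coeff 1, f.coeff 0⟩ : Cubic κ).toPoly := by
  have h1 : f.coeff 3 = 1 := by rw [← h3]; exact hf
  conv_lhs => rw [f.as_sum_range_C_mul_X_pow, h3]
  rw [Cubic.toPoly]
  simp only [Finset.sum_range_succ, Finset.sum_range_zero, h1, pow_zero, pow_one, mul_one,
    zero_add]
  ring

/-- The discriminant of a separable monic cubic. -/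
lemma cubic_disc {κ : Type w} [Field κ] {f : κ[X]} (hf : f.Monic) (h3 : f.natDegree = 3)
    (hs : f.Separable) : f.coeff 2 ^ 2 * f.coeff 1 ^ 2 - 4 * f.coeff 1 ^ 3 -
      4 * f.coeff 2 ^ 3 * f.coeff 0 +
      18 * f.coeff 2 * f.coeff 1 * f.coeff 0 - 27 * f.coeff 0 ^ 2 ≠ 0 := by
  obtain ⟨P, hP⟩ : ∃ P : Cubic κ, P = ⟨1, f.coeff 2, f.coeff 1, f.coeff 0⟩ := ⟨_, rfl⟩
  have hfP : f = P.toPoly := by rw [hP]; exact cubic_eq hf h3
  have ha : P.a ≠ 0 := by rw [hP]; exact one_ne_zero
  have hsplit : (P.toPoly.map (algebraMap κ (AlgebraicClosure κ))).Splits :=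
    IsAlgClosed.splits _
  obtain ⟨x, y, z, hxyz⟩ := (Cubic.splits_iff_roots_eq_three ha).mp hsplit
  have h1 := (Cubic.discr_ne_zero_iff_roots_nodup ha hsplit).mpr (by
    have h2 : (Cubic.map (algebraMap κ (AlgebraicClosure κ)) P).toPoly.Separable := by
      rw [Cubic.map_toPoly, ← hfP]
      exact hs.map
    exact nodup_roots h2)
  intro h
  apply h1
  rw [Cubic.discr, hP]
  simp only
  linear_combination h

section hasse

variable {κ : Type w} [Field κ] [Fintype κ]

lemma npt_eq {f : κ[X]} (hf : f.Monic) (h3 : f.natDegree = 3) :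
    Nat.card {uv : κ × κ // uv.2 ^ 2 = f.eval uv.1} =
      npt (f.coeff 2) (f.coeff 1) (f.coeff 0) := by
  rw [Nat.card_eq_fintype_card, Fintype.card_subtype]
  unfold npt
  congr 1
  apply Finset.filter_congr
  intro uv _
  have h1 : f.eval uv.1 = uv.1 ^ 3 + f.coeff 2 * uv.1 ^ 2 + f.coeff 1 * uv.1 + f.coeff 0 := by
    conv_lhs => rw [cubic_eq hf h3]
    rw [Cubic.toPoly]
    simp
  rw [h1]

/-- The Hasse bound. -/
lemma hasse_bound (h2 : (2 : κ) ≠ 0) {a b c : κ} (hd : a ^ 2 * b ^ 2 - 4 * b ^ 3 - 4 * a ^ 3 * c +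
      18 * a * b * c - 27 * c ^ 2 ≠ 0) :
    ((Fintype.card κ : ℤ) - npt a b c) ^ 2 ≤ 4 * (Fintype.card κ : ℤ) := by
  obtain ⟨p, hpκ⟩ := CharP.exists κ
  obtain ⟨s', hp', hcard⟩ := FiniteField.card κ p
  have hp : Fact p.Prime := ⟨hp'⟩
  have hE : EllW (crv (RingHom.id κ) a b c) := crv_ell _ h2 hd
  have h1 := (frob_char (K := κ) (p := p) (s := s')
    (crv_frob (RingHom.id κ) (a := a) (b := b) (c := c) hcard) s'.pos).1
  rw [tr_eq _ s'.pos hcard (RingHom.id κ) (a := a) (b := b) (c := c) rfl rfl rfl] at h1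
  rw [hcard]
  push_cast
  exact h1

/-- The eigenvalues of the Frobenius. -/
lemma eigen {q a : ℤ} (hb : a ^ 2 ≤ 4 * q) {z : ℂ} (hz : z ^ 2 - a * z + q = 0) :
    z + starRingEnd ℂ z = a ∧ z * starRingEnd ℂ z = q := by
  have hre := congrArg Complex.re hz
  have him := congrArg Complex.im hz
  simp only [pow_two, Complex.add_re, Complex.sub_re, Complex.mul_re, Complex.intCast_re,
    Complex.intCast_im, Complex.add_im, Complex.sub_im, Complex.mul_im, Complex.zero_re,
    Complex.zero_im, zero_mul, sub_zero, add_zero] at hre him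
  have hb' : (a : ℝ) ^ 2 ≤ 4 * q := by exact_mod_cast hb
  have hx : 2 * z.re = a := by
    have h1 : z.im * (2 * z.re - a) = 0 := by linear_combination him
    rcases mul_eq_zero.mp h1 with h2 | h2
    · rw [h2] at hre
      have h3 : (2 * z.re - a) ^ 2 ≤ 0 := by nlinarith
      have h4 : (2 * z.re - a) ^ 2 = 0 := le_antisymm h3 (sq_nonneg _)
      have h5 := pow_eq_zero_iff (n := 2) (by norm_num) |>.mp h4
      linarith
    · linarith
  constructor
  · rw [Complex.add_conj, hx]
    push_cast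
    rfl
  · rw [Complex.mul_conj, Complex.normSq_apply]
    have h1 : z.re * z.re + z.im * z.im = q := by
      rw [← hx] at hre
      linear_combination -hre
    rw [h1]
    push_cast
    rfl

end hasse

/-- The values of the characteristic polynomial. -/
lemma eval_ne_zero {l n : ℕ} {q : ℕ} (hq : 1 < q) (e : Fin n → Fin l) (π : Fin l → ℂ)
    (hπ : ∀ i, π i * starRingEnd ℂ (π i) = q) {P : ℤ[X]}
    (hP : P.map (Int.castRingHom ℂ) = ∏ S : Finset (Fin l), (X - C (∏ j,
      if e j ∈ S then π (e j) else starRingEnd ℂ (π (e j))))) (b i : ℕ) (hni : n ≠ 2 * i) :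
    P.eval ((-1) ^ b * (q : ℤ) ^ i) ≠ 0 := by
  intro h
  have h1 : (P.map (Int.castRingHom ℂ)).eval (((-1) ^ b * (q : ℤ) ^ i : ℤ) : ℂ) = 0 := by
    rw [eval_intCast_map, Int.cast_id, h]; simp
  rw [hP, eval_prod, Finset.prod_eq_zero_iff] at h1
  obtain ⟨S, -, hS⟩ := h1
  rw [eval_sub, eval_X, eval_C, sub_eq_zero] at hS
  have h2 := congrArg (fun z : ℂ => ‖z‖ ^ 2) hS
  simp only [norm_prod] at h2
  have h3 : ∀ j, ‖(if e j ∈ S then π (e j) else starRingEnd ℂ (π (e j)))‖ ^ 2 = (q : ℝ) := by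
    intro j
    have h4 : ‖π (e j)‖ ^ 2 = (q : ℝ) := by
      have h5 := hπ (e j)
      rw [Complex.mul_conj] at h5
      rw [← Complex.normSq_eq_norm_sq]
      exact_mod_cast h5
    split_ifs
    · exact h4
    · rw [RCLike.norm_conj]; exact h4
  rw [← Finset.prod_pow, Finset.prod_congr rfl (fun j _ => h3 j), Finset.prod_const,
    Finset.card_univ, Fintype.card_fin] at h2
  push_cast at h2
  rw [norm_mul, norm_pow, norm_pow, norm_neg, norm_one, one_pow, one_mul, Complex.norm_natCast,
    ← pow_mul] at h2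
  have h5 : q ^ (i * 2) = q ^ n := by exact_mod_cast h2
  have h6 := Nat.pow_right_injective hq h5
  omega

lemma natDegree_eq {l n : ℕ} (e : Fin n → Fin l) (w : Finset (Fin l) → Fin n → ℂ) {P : ℤ[X]}
    (hP : P.map (Int.castRingHom ℂ) = ∏ S : Finset (Fin l), (X - C (∏ j, w S j))) :
    P.natDegree = 2 ^ l := by
  have h1 : (P.map (Int.castRingHom ℂ)).natDegree = P.natDegree :=
    natDegree_map_eq_of_injective (RingHom.injective_int _) P
  rw [← h1, hP, natDegree_prod_of_monic _ _ (fun S _ => monic_X_sub_C _),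
    Finset.sum_congr rfl (fun S _ => natDegree_X_sub_C _), Finset.sum_const, Finset.card_univ,
    Fintype.card_finset, Fintype.card_fin, smul_eq_mul, mul_one]

end UnrH3.Ell
end
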