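import Pool.Agent.Lib.MP_859dd5_ag.Mg.G054

section

/-!
# Construction of discrete valuations from prime elements
-/

namespace UnrG

universe u v w

variable {m : ℕ}

section Prime

variable {R : Type w} {K : Type u} {κ : Type v} [CommRing R] [IsDomain R] [Field K] [Field κ]
  [Algebra R K] [IsFractionRing R K]

/-- `x = p^n u / w` with `u, w` prime to `p`, and `c` is the residue of `u / w`. -/
def Rep (π : R →+* κ) (p : R) (x : K) (n : ℤ) (c : κ) : Prop :=
  ∃ u w : R, π u ≠ 0 ∧ π w ≠ 0 ∧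
    x = (algebraMap R K p) ^ n * (algebraMap R K u / algebraMap R K w) ∧ c = π u / π w

lemma Rep.mul {π : R →+* κ} {p : R} (hp : p ≠ 0) {x y : K} {n k : ℤ} {c d : κ}
    (h1 : Rep π p x n c) (h2 : Rep π p y k d) : Rep π p (x * y) (n + k) (c * d) := by
  obtain ⟨u, w, hu, hw, rfl, rfl⟩ := h1
  obtain ⟨u', w', hu', hw', rfl, rfl⟩ := h2
  refine ⟨u * u', w * w', by simp [hu, hu'], by simp [hw, hw'], ?_, ?_⟩
  · rw [zpow_add₀ (by simpa using hp), map_mul, map_mul]
    field_simp
  · rw [map_mul, map_mul]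
    field_simp

lemma Rep.unique {π : R →+* κ} {p : R} (hp : p ≠ 0) (hker : π p = 0) {x : K} {n k : ℤ} {c d : κ}
    (h1 : Rep π p x n c) (h2 : Rep π p x k d) : n = k ∧ c = d := by
  wlog hnk : n ≤ k generalizing n k c d with H
  · obtain ⟨h3, h4⟩ := H h2 h1 (le_of_lt (not_le.mp hnk))
    exact ⟨h3.symm, h4.symm⟩
  obtain ⟨u, w, hu, hw, h1, rfl⟩ := h1
  obtain ⟨u', w', hu', hw', h2, rfl⟩ := h2
  have hu0 : u ≠ 0 := fun h => hu (by rw [h, map_zero])
  have hw0 : w ≠ 0 := fun h => hw (by rw [h, map_zero])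
  have hu0' : u' ≠ 0 := fun h => hu' (by rw [h, map_zero])
  have hw0' : w' ≠ 0 := fun h => hw' (by rw [h, map_zero])
  have inj := IsFractionRing.injective R K
  have hpK : algebraMap R K p ≠ 0 := by simpa using hp
  have hwK : algebraMap R K w ≠ 0 := by simpa using hw0
  have hwK' : algebraMap R K w' ≠ 0 := by simpa using hw0'
  obtain ⟨j, hj⟩ := Int.le.dest hnk
  have key : u * w' = p ^ j * u' * w := by
    apply inj
    rw [h1, ← hj, zpow_add₀ hpK, zpow_natCast, mul_assoc] at h2
    have h3 := mul_left_cancel₀ (zpow_ne_zero n hpK) h2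
    rw [map_mul, map_mul, map_mul, map_pow]
    field_simp at h3
    linear_combination h3
  have key2 := congrArg π key
  rw [map_mul, map_mul, map_mul, map_pow, hker] at key2
  rcases Nat.eq_zero_or_pos j with hj0 | hj0
  · subst hj0
    refine ⟨by simpa using hj, ?_⟩
    rw [div_eq_div_iff hw hw']
    simpa using key2
  · rw [zero_pow (by omega), zero_mul, zero_mul] at key2
    exact absurd key2 (mul_ne_zero hu hw')

lemma Rep.exists {π : R →+* κ} {p : R}
    (hfin : ∀ a : R, a ≠ 0 → ∃ (n : ℕ) (u : R), a = p ^ n * u ∧ π u ≠ 0) (hp : p ≠ 0)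
    {x : K} (hx : x ≠ 0) : ∃ (n : ℤ) (c : κ), Rep π p x n c := by
  obtain ⟨a, b, hb, rfl⟩ := IsFractionRing.div_surjective (A := R) x
  have hb0 : b ≠ 0 := nonZeroDivisors.ne_zero hb
  have ha0 : a ≠ 0 := by
    rintro rfl
    simp at hx
  obtain ⟨n, u, rfl, hu⟩ := hfin a ha0
  obtain ⟨k, w, rfl, hw⟩ := hfin b hb0
  have hpK : algebraMap R K p ≠ 0 := by simpa using hp
  refine ⟨(n : ℤ) - k, π u / π w, u, w, hu, hw, ?_, rfl⟩
  have hwK : algebraMap R K w ≠ 0 := by
    have : w ≠ 0 := by rintro rfl; simp at hw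
    simpa using this
  rw [map_mul, map_mul, map_pow, map_pow, zpow_sub₀ hpK, zpow_natCast, zpow_natCast]
  field_simp

lemma Rep.ne_zero {π : R →+* κ} {p : R} {x : K} {n : ℤ} {c : κ}
    (h : Rep π p x n c) : c ≠ 0 := by
  obtain ⟨u, w, hu, hw, -, rfl⟩ := h
  exact div_ne_zero hu hw

lemma Rep.st {π : R →+* κ} {p : R} (hp : p ≠ 0) (hker : π p = 0)
    (hfin : ∀ a : R, a ≠ 0 → ∃ (n : ℕ) (u : R), a = p ^ n * u ∧ π u ≠ 0)
    {a b : K} (hb : b ≠ 0) (hab : a + b = 1) {n k : ℤ} {c d : κ}
    (h1 : Rep π p a n c) (h2 : Rep π p b k d) :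
    (0 < n ∧ k = 0 ∧ d = 1) ∨ (0 < k ∧ n = 0 ∧ c = 1) ∨
    (n = 0 ∧ k = 0 ∧ c + d = 1) ∨ (n < 0 ∧ k = n ∧ d = - c) := by
  obtain ⟨u, w, hu, hw, hxa, hc⟩ := h1
  have hb' : b = 1 - a := by rw [← hab]; ring
  have hpK : algebraMap R K p ≠ 0 := by simpa using hp
  have hw0 : w ≠ 0 := by rintro rfl; simp at hw
  have hwK : algebraMap R K w ≠ 0 := by simpa using hw0
  rcases lt_trichotomy n 0 with hn | hn | hn
  · -- negative valuation
    obtain ⟨j, hj⟩ := Int.eq_ofNat_of_zero_le (show 0 ≤ -n by omega)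
    have hj0 : j ≠ 0 := by omega
    have h3 : Rep π p b n (-c) := by
      refine ⟨p ^ j * w - u, w, ?_, hw, ?_, ?_⟩
      · rw [map_sub, map_mul, map_pow, hker, zero_pow hj0, zero_mul, zero_sub, neg_ne_zero]
        exact hu
      · rw [hb', hxa, map_sub, map_mul, map_pow]
        have : n = -(j : ℤ) := by omega
        rw [this, zpow_neg, zpow_natCast]
        field_simp
      · rw [map_sub, map_mul, map_pow, hker, zero_pow hj0, zero_mul, zero_sub, hc]
        field_simp
    obtain ⟨h4, h5⟩ := h2.unique hp hker h3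
    exact Or.inr (Or.inr (Or.inr ⟨hn, h4, h5⟩))
  · -- zero valuation
    have hwu : w - u ≠ 0 := by
      intro h
      apply hb
      have : w = u := sub_eq_zero.mp h
      rw [hb', hxa, hn, this, zpow_zero, one_mul, div_self, sub_self]
      rw [← this]; exact hwK
    obtain ⟨i, u', hi, hu'⟩ := hfin _ hwu
    have hb'' : b = algebraMap R K (w - u) / algebraMap R K w := by
      rw [hb', hxa, hn, zpow_zero, one_mul, map_sub]
      field_simp
    rcases Nat.eq_zero_or_pos i with hi0 | hi0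
    · subst hi0
      rw [pow_zero, one_mul] at hi
      have h3 : Rep π p b 0 (π (w - u) / π w) :=
        ⟨w - u, w, by rw [hi]; exact hu', hw, by rw [hb'', zpow_zero, one_mul], rfl⟩
      obtain ⟨h4, h5⟩ := h2.unique hp hker h3
      refine Or.inr (Or.inr (Or.inl ⟨hn, h4, ?_⟩))
      rw [hc, h5, map_sub]
      field_simp
      ring
    · have h3 : Rep π p b (i : ℤ) (π u' / π w) := by
        refine ⟨u', w, hu', hw, ?_, rfl⟩
        rw [hb'', hi, zpow_natCast, map_mul, map_pow]
        field_simp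
      obtain ⟨h4, h5⟩ := h2.unique hp hker h3
      refine Or.inr (Or.inl ⟨by omega, hn, ?_⟩)
      have h6 := congrArg π hi
      rw [map_sub, map_mul, map_pow, hker, zero_pow (by omega), zero_mul, sub_eq_zero] at h6
      rw [hc, ← h6, div_self hw]
  · -- positive valuation
    obtain ⟨j, hj⟩ := Int.eq_ofNat_of_zero_le hn.le
    have hj0 : j ≠ 0 := by omega
    have h3 : Rep π p b 0 1 := by
      refine ⟨w - p ^ j * u, w, ?_, hw, ?_, ?_⟩
      · rw [map_sub, map_mul, map_pow, hker, zero_pow hj0, zero_mul, sub_zero]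
        exact hw
      · rw [hb', hxa, map_sub, map_mul, map_pow, hj, zpow_natCast]
        field_simp
      · rw [map_sub, map_mul, map_pow, hker, zero_pow hj0, zero_mul, sub_zero, div_self hw]
    obtain ⟨h4, h5⟩ := h2.unique hp hker h3
    exact Or.inl ⟨hn, h4, h5⟩

open Classical in
/-- The discrete valuation attached to a prime element `p` of a domain `R` with fraction
field `K`, and a homomorphism `π` to a field `κ` with kernel `(p)`. -/
noncomputable def DVal.ofPrime (K : Type u) [Field K] [Algebra R K] [IsFractionRing R K]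
    (π : R →+* κ) (p : R) (hp : p ≠ 0) (hker : π p = 0)
    (hfin : ∀ a : R, a ≠ 0 → ∃ (n : ℕ) (u : R), a = p ^ n * u ∧ π u ≠ 0) : DVal K κ where
  v x := if hx : x = 0 then 0 else (Rep.exists (π := π) hfin hp hx).choose
  ρ :=
    { toFun := fun x => if hx : x = 0 then 0 else (Rep.exists (π := π) hfin hp hx).choose_spec.choose
      map_zero' := by simp
      map_one' := by
        rw [dif_neg one_ne_zero]
        have h1 := (Rep.exists (π := π) hfin hp (one_ne_zero (α := K))).choose_spec.choose_spec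
        have h2 : Rep π p (1 : K) 0 (1 : κ) := ⟨1, 1, by simp, by simp, by simp, by simp⟩
        exact (h1.unique hp hker h2).2
      map_mul' := by
        intro x y
        by_cases hx : x = 0
        · subst hx; simp
        by_cases hy : y = 0
        · subst hy; simp
        have hxy : x * y ≠ 0 := mul_ne_zero hx hy
        rw [dif_neg hx, dif_neg hy, dif_neg hxy]
        have h1 := (Rep.exists (π := π) hfin hp hx).choose_spec.choose_spec
        have h2 := (Rep.exists (π := π) hfin hp hy).choose_spec.choose_spec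
        have h3 := (Rep.exists (π := π) hfin hp hxy).choose_spec.choose_spec
        exact (h3.unique hp hker (h1.mul hp h2)).2 }
  v_mul x y hx hy := by
    have hxy : x * y ≠ 0 := mul_ne_zero hx hy
    rw [dif_neg hx, dif_neg hy, dif_neg hxy]
    have h1 := (Rep.exists (π := π) hfin hp hx).choose_spec.choose_spec
    have h2 := (Rep.exists (π := π) hfin hp hy).choose_spec.choose_spec
    have h3 := (Rep.exists (π := π) hfin hp hxy).choose_spec.choose_spec
    exact (h3.unique hp hker (h1.mul hp h2)).1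
  st a b ha hb hab := by
    simp only [MonoidWithZeroHom.coe_mk, ZeroHom.coe_mk]
    rw [dif_neg ha, dif_neg hb, dif_neg ha, dif_neg hb]
    have h1 := (Rep.exists (π := π) hfin hp ha).choose_spec.choose_spec
    have h2 := (Rep.exists (π := π) hfin hp hb).choose_spec.choose_spec
    exact Rep.st hp hker hfin hb hab h1 h2

variable (π : R →+* κ) (p : R) (hp : p ≠ 0) (hker : π p = 0)
    (hfin : ∀ a : R, a ≠ 0 → ∃ (n : ℕ) (u : R), a = p ^ n * u ∧ π u ≠ 0)

lemma DVal.ofPrime_rep {x : K} (hx : x ≠ 0) :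
    Rep π p x ((DVal.ofPrime K π p hp hker hfin).v x) ((DVal.ofPrime K π p hp hker hfin).ρ x) := by
  have h1 := (Rep.exists (π := π) hfin hp hx).choose_spec.choose_spec
  have h2 : (DVal.ofPrime K π p hp hker hfin).v x = (Rep.exists (π := π) hfin hp hx).choose := by
    simp only [DVal.ofPrime]
    rw [dif_neg hx]
  have h3 : (DVal.ofPrime K π p hp hker hfin).ρ x =
      (Rep.exists (π := π) hfin hp hx).choose_spec.choose := by
    simp only [DVal.ofPrime, MonoidWithZeroHom.coe_mk, ZeroHom.coe_mk]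
    rw [dif_neg hx]
  rw [h2, h3]
  exact h1

lemma DVal.ofPrime_eq {x : K} (hx : x ≠ 0) {n : ℤ} {c : κ} (h : Rep π p x n c) :
    (DVal.ofPrime K π p hp hker hfin).v x = n ∧ (DVal.ofPrime K π p hp hker hfin).ρ x = c :=
  (DVal.ofPrime_rep π p hp hker hfin hx).unique hp hker h

lemma DVal.ofPrime_unit {a : R} (ha : π a ≠ 0) :
    (DVal.ofPrime K π p hp hker hfin).v (algebraMap R K a) = 0 ∧
    (DVal.ofPrime K π p hp hker hfin).ρ (algebraMap R K a) = π a := by
  have ha0 : a ≠ 0 := by rintro rfl; simp at ha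
  apply DVal.ofPrime_eq
  · simpa using ha0
  · exact ⟨a, 1, ha, by simp, by simp, by simp⟩

lemma DVal.ofPrime_self :
    (DVal.ofPrime K π p hp hker hfin).v (algebraMap R K p) = 1 ∧
    (DVal.ofPrime K π p hp hker hfin).ρ (algebraMap R K p) = 1 := by
  apply DVal.ofPrime_eq
  · simpa using hp
  · exact ⟨1, 1, by simp, by simp, by simp, by simp⟩

lemma DVal.ofPrime_nonneg_iff {x : K} (hx : x ≠ 0) :
    0 ≤ (DVal.ofPrime K π p hp hker hfin).v x ↔
      ∃ a w : R, π w ≠ 0 ∧ x = algebraMap R K a / algebraMap R K w := by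
  constructor
  · intro h
    obtain ⟨u, w, hu, hw, h1, h2⟩ := DVal.ofPrime_rep π p hp hker hfin hx
    obtain ⟨j, hj⟩ := Int.eq_ofNat_of_zero_le h
    refine ⟨p ^ j * u, w, hw, ?_⟩
    rw [hj, zpow_natCast] at h1
    rw [h1, map_mul, map_pow, mul_div_assoc]
  · rintro ⟨a, w, hw, h1⟩
    have ha : a ≠ 0 := by rintro rfl; simp [h1] at hx
    obtain ⟨n, u, h2, hu⟩ := hfin a ha
    have h3 : Rep π p x n (π u / π w) :=
      ⟨u, w, hu, hw, by rw [h1, h2, map_mul, map_pow, zpow_natCast, mul_div_assoc], rfl⟩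
    rw [((DVal.ofPrime_rep π p hp hker hfin hx).unique hp hker h3).1]
    omega

end Prime

section Units

variable {K : Type u} {κ : Type v} [Field K] [Field κ]

/-- The set of units of a discrete valuation. -/
def DVal.unitSet (D : DVal K κ) : Set K := {u | u ≠ 0 ∧ D.v u = 0}

variable (m) in
/-- The subalgebra of the Milnor K-ring generated by the symbols of units. -/
noncomputable def DVal.U (D : DVal K κ) : Subalgebra (ZMod m) (KM m K) :=
  Algebra.adjoin (ZMod m) (sym m '' D.unitSet)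

lemma DVal.res_eq_zero_of_mem_U (hm : Any m) (D : DVal K κ) {x : KM m K} (hx : x ∈ D.U m) :
    D.res hm x = 0 := by
  unfold DVal.U at hx
  induction hx using Algebra.adjoin_induction with
  | mem x hx =>
    obtain ⟨u, ⟨hu0, hu⟩, rfl⟩ := hx
    rw [DVal.res, D.θ_sym hm hu0, hu]
    simp
  | algebraMap r => rw [DVal.res, AlgHom.commutes, KMX.algebraMap_eq]
  | add x y _ _ hx hy =>
    rw [DVal.res] at *
    rw [map_add, KMX.add_snd, hx, hy, add_zero]
  | mul x y _ _ hx hy =>
    rw [DVal.res] at *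
    rw [map_mul, KMX.mul_snd, hx, hy, mul_zero, zero_mul, add_zero]

/-- An element congruent to `1` times the uniformizer lies in the unit part. -/
lemma DVal.one_unit_aux (hm : Any m) (D : DVal K κ) {ϖ : K} (hϖ : ϖ ≠ 0) (hv : D.v ϖ = 1)
    {u : K} (hu : u ≠ 0) (hvu : D.v (1 - u) = 1) (hu1 : u ≠ 1) (hv0 : D.v u = 0) :
    sym m u * sym m ϖ ∈ D.U m := by
  have h1u : (1 : K) - u ≠ 0 := sub_ne_zero.mpr (Ne.symm hu1)
  set a := (1 - u) / ϖ with ha
  have ha0 : a ≠ 0 := div_ne_zero h1u hϖ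
  have hva : D.v a = 0 := by rw [ha, D.v_div h1u hϖ, hvu, hv]; norm_num
  have h2 : sym m u * sym m (1 - u) = 0 := sym_steinberg (by ring)
  have h3 : (1 : K) - u = a * ϖ := by rw [ha]; field_simp
  rw [h3, sym_mul ha0 hϖ, mul_add] at h2
  have h4 : sym m u * sym m ϖ = - (sym m u * sym m a) := by
    rw [add_comm] at h2
    exact eq_neg_of_add_eq_zero_left h2
  rw [h4]
  apply neg_mem
  apply mul_mem
  · exact Algebra.subset_adjoin ⟨u, ⟨hu, hv0⟩, rfl⟩
  · exact Algebra.subset_adjoin ⟨a, ⟨ha0, hva⟩, rfl⟩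

lemma DVal.v_one_sub (D : DVal K κ) {u : K} (hu : u ≠ 0) (hu1 : u ≠ 1) (hv : D.v u = 0)
    (hρ : D.ρ u = 1) : 0 < D.v (1 - u) := by
  have h1u : (1 : K) - u ≠ 0 := sub_ne_zero.mpr (Ne.symm hu1)
  rcases D.st u (1 - u) hu h1u (by ring) with h | h | h | h
  · omega
  · exact h.1
  · have := h.2.2
    rw [hρ] at this
    have h2 : D.ρ (1 - u) = 0 := by
      have h3 : (1 : κ) + D.ρ (1 - u) = 1 + 0 := by rw [this, add_zero]
      exact add_left_cancel h3
    exact absurd h2 (D.ρ_ne h1u)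
  · omega

lemma DVal.v_add_eq_of_lt (D : DVal K κ) {a b : K} (ha : a ≠ 0) (hb : b ≠ 0)
    (h : D.v a < D.v b) : a + b ≠ 0 ∧ D.v (a + b) = D.v a := by
  have hab : a + b ≠ 0 := by
    intro h0
    have : b = -a := by rw [eq_neg_iff_add_eq_zero, add_comm]; exact h0
    rw [this, D.v_neg ha] at h
    omega
  refine ⟨hab, ?_⟩
  have hba : b / a ≠ 0 := div_ne_zero hb ha
  have h1 : D.v (b / a) = D.v b - D.v a := D.v_div hb ha
  have hs : (a + b) / a ≠ 0 := div_ne_zero hab ha
  have h2 : D.v ((a + b) / a) = D.v (a + b) - D.v a := D.v_div hab ha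
  have hnb : -(b / a) ≠ 0 := neg_ne_zero.mpr hba
  rcases D.st (-(b / a)) ((a + b) / a) hnb hs (by field_simp; ring) with h | h | h | h
  · omega
  · rw [D.v_neg hba] at h; omega
  · rw [D.v_neg hba] at h; omega
  · rw [D.v_neg hba] at h; omega

lemma DVal.ρ_neg_one (D : DVal K κ) {ϖ : K} (hϖ : ϖ ≠ 0) (hv : D.v ϖ = 1) : D.ρ (-1) = -1 := by
  have hϖ1 : (1 : K) - ϖ ≠ 0 := by
    intro h
    rw [sub_eq_zero] at h
    rw [← h, D.v_one] at hv
    omega
  have h1 : D.ρ (1 - ϖ) = 1 := by
    rcases D.st ϖ (1 - ϖ) hϖ hϖ1 (by ring) with h | h | h | h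
    · exact h.2.2
    · omega
    · omega
    · omega
  have hb : (1 : K) - ϖ⁻¹ ≠ 0 := by
    intro h
    apply hϖ1
    rw [sub_eq_zero] at h ⊢
    rw [← inv_inv ϖ, ← h, inv_one]
  have h2 : D.ρ (1 - ϖ⁻¹) = - D.ρ ϖ⁻¹ := by
    have h3 : D.v ϖ⁻¹ = -1 := by rw [D.v_inv hϖ, hv]
    rcases D.st ϖ⁻¹ (1 - ϖ⁻¹) (inv_ne_zero hϖ) hb (by ring) with h | h | h | h
    · omega
    · omega
    · omega
    · exact h.2.2
  have h4 : (1 : K) - ϖ⁻¹ = (-1) * ϖ⁻¹ * (1 - ϖ) := by
    field_simp
    ring
  rw [h4, map_mul, map_mul, h1, mul_one] at h2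
  have h5 : D.ρ ϖ⁻¹ ≠ 0 := D.ρ_ne (inv_ne_zero hϖ)
  rw [← neg_one_mul (D.ρ ϖ⁻¹)] at h2
  exact mul_right_cancel₀ h5 h2

lemma DVal.one_unit (hm : Any m) (D : DVal K κ) {ϖ : K} (hϖ : ϖ ≠ 0) (hv : D.v ϖ = 1)
    {u : K} (hu : u ≠ 0) (hvu : D.v u = 0) (hρ : D.ρ u = 1) :
    sym m u * sym m ϖ ∈ D.U m := by
  by_cases hu1 : u = 1
  · subst hu1; simp
  have h0 := D.v_one_sub hu hu1 hvu hρ
  have h1u : (1 : K) - u ≠ 0 := sub_ne_zero.mpr (Ne.symm hu1)
  by_cases h1 : D.v (1 - u) = 1
  · exact D.one_unit_aux hm hϖ hv hu h1 hu1 hvu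
  have h2 : 1 < D.v (1 - u) := by omega
  -- the auxiliary one-unit `1 - ϖ`
  have hw1 : (1 : K) - ϖ ≠ 1 := by simpa using hϖ
  have hw0 : (1 : K) - ϖ ≠ 0 ∧ D.v (1 - ϖ) = 0 := by
    have := D.v_add_eq_of_lt one_ne_zero (neg_ne_zero.mpr hϖ) (by rw [D.v_neg hϖ, hv]; simp)
    rw [← sub_eq_add_neg] at this
    refine ⟨this.1, ?_⟩
    rw [this.2, D.v_one]
  have h3 : sym m (1 - ϖ) * sym m ϖ ∈ D.U m :=
    D.one_unit_aux hm hϖ hv hw0.1 (by rw [sub_sub_cancel, hv]) hw1 hw0.2
  set w := (1 : K) - ϖ with hw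
  have hq0 : u / w ≠ 0 := div_ne_zero hu hw0.1
  have hvq : D.v (u / w) = 0 := by rw [D.v_div hu hw0.1, hvu, hw0.2, sub_zero]
  have h4 : (1 : K) - u / w = (-ϖ + (1 - u)) / w := by
    rw [eq_div_iff hw0.1, sub_mul, div_mul_cancel₀ _ hw0.1, one_mul, hw]; ring
  have h5 := D.v_add_eq_of_lt (neg_ne_zero.mpr hϖ) h1u (by rw [D.v_neg hϖ, hv]; exact h2)
  have h6 : D.v (1 - u / w) = 1 := by
    rw [h4, D.v_div h5.1 hw0.1, h5.2, D.v_neg hϖ, hv, hw0.2, sub_zero]
  have h7 : u / w ≠ 1 := by
    intro h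
    rw [h, sub_self] at h4
    have : (-ϖ + (1 - u)) / w ≠ 0 := div_ne_zero h5.1 hw0.1
    exact this h4.symm
  have h8 := D.one_unit_aux hm hϖ hv hq0 h6 h7 hvq
  rw [sym_div hu hw0.1, sub_mul] at h8
  have h9 := add_mem h8 h3
  rwa [sub_add_cancel] at h9

/-- For a normalized discrete valuation whose residue field is `κ`, the kernel of the tame
residue is generated by symbols of units. -/
theorem DVal.mem_U_of_res_eq_zero (hm : Any m) (D : DVal K κ) {ϖ : K} (hϖ : ϖ ≠ 0)
    (hv : D.v ϖ = 1) (hρϖ : D.ρ ϖ = 1)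
    (hsurj : ∀ g : κ, g ≠ 0 → ∃ u : K, u ≠ 0 ∧ D.v u = 0 ∧ D.ρ u = g)
    {x : KM m K} (hx : D.res hm x = 0) : x ∈ D.U m := by
  have dec : ∀ x : KM m K, ∃ w₀ w₁ : KM m K, w₀ ∈ D.U m ∧ w₁ ∈ D.U m ∧
      x = w₀ + w₁ * sym m ϖ := by
    intro x
    induction x using KM.induction with
    | h0 r => exact ⟨_, 0, Subalgebra.algebraMap_mem _ r, zero_mem _, by simp⟩
    | hadd x y hx hy =>
      obtain ⟨a, b, ha, hb, rfl⟩ := hx
      obtain ⟨a', b', ha', hb', rfl⟩ := hy
      exact ⟨a + a', b + b', add_mem ha ha', add_mem hb hb', by rw [add_mul]; abel⟩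
    | hsmul r x hx =>
      obtain ⟨a, b, ha, hb, rfl⟩ := hx
      exact ⟨r • a, r • b, Subalgebra.smul_mem _ ha r, Subalgebra.smul_mem _ hb r, by
        rw [smul_add, smul_mul_assoc]⟩
    | hmul a x ha hx =>
      obtain ⟨w₀, w₁, hw₀, hw₁, rfl⟩ := hx
      set n := D.v a
      have hn : D.v (a / ϖ ^ n) = 0 := by
        rw [D.v_div ha (zpow_ne_zero _ hϖ), D.v_zpow hϖ, hv]; simp [n]
      have hu0 : a / ϖ ^ n ≠ 0 := div_ne_zero ha (zpow_ne_zero _ hϖ)
      have hsa : sym m a = sym m (a / ϖ ^ n) + (n : ℤ) • sym m ϖ := by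
        rw [← sym_zpow hϖ, ← sym_mul hu0 (zpow_ne_zero _ hϖ)]
        congr 1
        field_simp
      have hsu : sym m (a / ϖ ^ n) ∈ D.U m := Algebra.subset_adjoin ⟨_, ⟨hu0, hn⟩, rfl⟩
      refine ⟨sym m (a / ϖ ^ n) * w₀,
        sym m (a / ϖ ^ n) * w₁ + (n : ℤ) • eps m K w₀, mul_mem hsu hw₀,
        add_mem (mul_mem hsu hw₁) (zsmul_mem (eps_mem_adjoin hw₀) _), ?_⟩
      rw [hsa, add_mul, mul_add, mul_add, smul_mul_assoc, smul_mul_assoc, sym_mul_eq hm ϖ w₀,
        ← mul_assoc (sym m ϖ), sym_mul_eq hm ϖ w₁, mul_assoc _ (sym m ϖ) (sym m ϖ), sym_sq hm,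
        mul_zero, smul_zero, add_zero, add_mul, smul_mul_assoc, mul_assoc]
      abel
  obtain ⟨w₀, w₁, hw₀, hw₁, rfl⟩ := dec x
  have h1 : D.spec hm w₁ = 0 := by
    have h2 : D.res hm w₀ = 0 := D.res_eq_zero_of_mem_U hm hw₀
    have h3 : D.res hm (w₀ + w₁ * sym m ϖ) = D.res hm w₀ + D.spec hm w₁ := by
      rw [DVal.res, DVal.res, DVal.spec_apply, map_add, map_mul, D.θ_sym hm hϖ, hv, hρϖ]
      simp
    rw [h3, h2, zero_add] at hx
    exact hx
  apply add_mem hw₀
  classical
  choose! G hG0 hGv hGρ using hsurj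
  refine mul_sym_mem_of_spec_eq_zero hm D.unitSet ϖ D.ρ (D.spec hm) ?_ G ?_ ?_ ?_ ?_
    ⟨by simp, D.v_neg_one⟩ (D.ρ_neg_one hϖ hv) hw₁ h1
  · intro u hu
    rw [DVal.spec_apply, D.θ_sym hm hu.1]
  · intro g hg
    exact ⟨hG0 g hg, hGv g hg⟩
  · intro g h hg hh
    have hgh : g * h ≠ 0 := mul_ne_zero hg hh
    have h4 : sym m (G (g * h)) - sym m (G g) - sym m (G h) =
        sym m (G (g * h) / (G g * G h)) := by
      rw [sym_div (hG0 _ hgh) (mul_ne_zero (hG0 g hg) (hG0 h hh)),
        sym_mul (hG0 g hg) (hG0 h hh), sub_sub]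
    rw [h4]
    apply D.one_unit hm hϖ hv (div_ne_zero (hG0 _ hgh) (mul_ne_zero (hG0 g hg) (hG0 h hh)))
    · rw [D.v_div (hG0 _ hgh) (mul_ne_zero (hG0 g hg) (hG0 h hh)),
        D.v_mul _ _ (hG0 g hg) (hG0 h hh), hGv _ hgh, hGv g hg, hGv h hh]
      norm_num
    · rw [map_div₀, map_mul, hGρ _ hgh, hGρ g hg, hGρ h hh, div_self hgh]
  · intro g h hg hh hgh
    -- compare `G h` with `1 - G g`
    have hGg1 : G g ≠ 1 := by
      intro h1
      have h2 := hGρ g hg
      rw [h1, map_one] at h2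
      rw [← h2] at hgh
      exact hh (by simpa using hgh)
    have hb0 : (1 : K) - G g ≠ 0 := sub_ne_zero.mpr (Ne.symm hGg1)
    have hb : D.v (1 - G g) = 0 ∧ D.ρ (1 - G g) = h := by
      rcases D.st (G g) (1 - G g) (hG0 g hg) hb0 (by ring) with h' | h' | h' | h'
      · have := hGv g hg; omega
      · exfalso
        have h2 := h'.2.2
        rw [hGρ g hg] at h2
        rw [h2] at hgh
        exact hh (by simpa using hgh)
      · refine ⟨h'.2.1, ?_⟩
        have h2 := h'.2.2
        rw [hGρ g hg, ← hgh] at h2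
        exact add_left_cancel h2
      · have := hGv g hg; omega
    have h5 : sym m (G h) = sym m (1 - G g) + sym m (G h / (1 - G g)) := by
      rw [sym_div (hG0 h hh) hb0]; abel
    have h6 : sym m (G g) * sym m (1 - G g) = 0 := sym_steinberg (by ring)
    rw [h5, mul_add, h6, zero_add, mul_assoc]
    apply mul_mem
    · exact Algebra.subset_adjoin ⟨_, ⟨hG0 g hg, hGv g hg⟩, rfl⟩
    · apply D.one_unit hm hϖ hv (div_ne_zero (hG0 h hh) hb0)
      · rw [D.v_div (hG0 h hh) hb0, hGv h hh, hb.1, sub_zero]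
      · rw [map_div₀, hGρ h hh, hb.2, div_self hh]
  · intro u hu hu0
    have hρu : D.ρ u ≠ 0 := D.ρ_ne hu0
    rw [← sym_div hu0 (hG0 _ hρu)]
    apply D.one_unit hm hϖ hv (div_ne_zero hu0 (hG0 _ hρu))
    · rw [D.v_div hu0 (hG0 _ hρu), hu.2, hGv _ hρu, sub_zero]
    · rw [map_div₀, hGρ _ hρu, div_self hρu]

end Units

end UnrG
end

section

/-!
# Milnor's theorem on the K-ring of a rational function field
-/

namespace UnrG

universe u v w

open Polynomial

variable {m : ℕ} {K : Type u} [Field K]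

section place

variable (p : K[X]) [hp : Fact (Irreducible p)]

/-- The `p`-adic discrete valuation of the rational function field. -/
noncomputable def placeVal : DVal (RatFunc K) (AdjoinRoot p) :=
  DVal.ofPrime (RatFunc K) (AdjoinRoot.mk p) p hp.out.ne_zero (by simp)
    (by
      intro a ha
      obtain ⟨n, c, hc, h⟩ := WfDvdMonoid.max_power_factor ha hp.out
      exact ⟨n, c, h, by rwa [Ne, AdjoinRoot.mk_eq_zero]⟩)

lemma placeVal_v_self : (placeVal p).v (algebraMap K[X] (RatFunc K) p) = 1 :=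
  (DVal.ofPrime_self (K := RatFunc K) (AdjoinRoot.mk p) p _ _ _).1

lemma placeVal_ρ_self : (placeVal p).ρ (algebraMap K[X] (RatFunc K) p) = 1 :=
  (DVal.ofPrime_self (K := RatFunc K) (AdjoinRoot.mk p) p _ _ _).2

lemma placeVal_unit {f : K[X]} (hf : ¬ p ∣ f) :
    (placeVal p).v (algebraMap K[X] (RatFunc K) f) = 0 ∧
    (placeVal p).ρ (algebraMap K[X] (RatFunc K) f) = AdjoinRoot.mk p f :=
  DVal.ofPrime_unit (K := RatFunc K) (AdjoinRoot.mk p) p _ _ _ (by rwa [Ne, AdjoinRoot.mk_eq_zero])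

end place

/-- Nonzero polynomials of degree at most `d`, as rational functions. -/
def polySet (K : Type u) [Field K] (d : ℕ) : Set (RatFunc K) :=
  {r | ∃ f : K[X], f ≠ 0 ∧ f.natDegree ≤ d ∧ r = algebraMap K[X] (RatFunc K) f}

variable (m K) in
/-- The subalgebra generated by the symbols of polynomials of degree at most `d`. -/
noncomputable def Lsub (d : ℕ) : Subalgebra (ZMod m) (KM m (RatFunc K)) :=
  Algebra.adjoin (ZMod m) (sym m '' polySet K d)

lemma Lsub_mono {d e : ℕ} (h : d ≤ e) : Lsub m K d ≤ Lsub m K e := by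
  apply Algebra.adjoin_mono
  apply Set.image_mono
  rintro r ⟨f, hf, hd, rfl⟩
  exact ⟨f, hf, hd.trans h, rfl⟩

lemma sym_mem_Lsub {d : ℕ} {f : K[X]} (hd : f.natDegree ≤ d) :
    sym m (algebraMap K[X] (RatFunc K) f) ∈ Lsub m K d := by
  by_cases hf : f = 0
  · subst hf; simp
  exact Algebra.subset_adjoin ⟨_, ⟨f, hf, hd, rfl⟩, rfl⟩

lemma exists_mem_Lsub (x : KM m (RatFunc K)) : ∃ d, x ∈ Lsub m K d := by
  induction x using KM.induction with
  | h0 r => exact ⟨0, Subalgebra.algebraMap_mem _ r⟩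
  | hadd x y hx hy =>
    obtain ⟨d, hd⟩ := hx
    obtain ⟨e, he⟩ := hy
    exact ⟨max d e, add_mem (Lsub_mono (le_max_left _ _) hd) (Lsub_mono (le_max_right _ _) he)⟩
  | hsmul r x hx =>
    obtain ⟨d, hd⟩ := hx
    exact ⟨d, Subalgebra.smul_mem _ hd r⟩
  | hmul a x ha hx =>
    obtain ⟨d, hd⟩ := hx
    obtain ⟨f, g, hg, rfl⟩ := IsFractionRing.div_surjective (A := K[X]) a
    have hg0 : g ≠ 0 := nonZeroDivisors.ne_zero hg
    have hf0 : f ≠ 0 := by rintro rfl; simp at ha
    have h1 : sym m (algebraMap K[X] (RatFunc K) f / algebraMap K[X] (RatFunc K) g) =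
        sym m (algebraMap K[X] (RatFunc K) f) - sym m (algebraMap K[X] (RatFunc K) g) :=
      sym_div (by simpa using hf0) (by simpa using hg0)
    refine ⟨max d (max f.natDegree g.natDegree), mul_mem ?_ (Lsub_mono (le_max_left _ _) hd)⟩
    rw [h1]
    exact sub_mem (sym_mem_Lsub (by omega)) (sym_mem_Lsub (by omega))

section step

variable {d : ℕ} {p : K[X]} [hp : Fact (Irreducible p)]

lemma not_dvd_of_natDegree_lt {f : K[X]} (hf : f ≠ 0) (h : f.natDegree < p.natDegree) :
    ¬ p ∣ f := fun hdvd => absurd (natDegree_le_of_dvd hdvd hf) (not_le.mpr h)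

lemma θ_snd_of_mem_Lsub (hm : Any m) (hd : d < p.natDegree) {x : KM m (RatFunc K)}
    (hx : x ∈ Lsub m K d) : ((placeVal p).θ hm x).snd = 0 := by
  apply DVal.res_eq_zero_of_mem_U hm
  refine Algebra.adjoin_mono ?_ hx
  apply Set.image_mono
  rintro r ⟨f, hf, hfd, rfl⟩
  exact ⟨by simpa using hf,
    (placeVal_unit p (not_dvd_of_natDegree_lt hf (lt_of_le_of_lt hfd hd))).1⟩

/-- The key lemma in Milnor's theorem. -/
lemma mul_sym_mem_Lsub (hm : Any m) (hpm : p.Monic) (hd : p.natDegree = d + 1)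
    {x : KM m (RatFunc K)} (hx : x ∈ Lsub m K d) (hx0 : (placeVal p).spec hm x = 0) :
    x * sym m (algebraMap K[X] (RatFunc K) p) ∈ Lsub m K d := by
  have hp1 : p ≠ 1 := by rintro rfl; simp at hd
  have hρ : ∀ f : K[X], f ≠ 0 → f.natDegree ≤ d →
      (placeVal p).ρ (algebraMap K[X] (RatFunc K) f) = AdjoinRoot.mk p f := fun f hf hfd =>
    (placeVal_unit p (not_dvd_of_natDegree_lt hf (by omega))).2
  have hGmem : ∀ g : AdjoinRoot p, (AdjoinRoot.modByMonicHom hpm g).natDegree ≤ d := by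
    intro g
    obtain ⟨f, rfl⟩ := AdjoinRoot.mk_surjective g
    rw [AdjoinRoot.modByMonicHom_mk]
    have := natDegree_modByMonic_lt f hpm hp1
    omega
  have hmk : ∀ g : AdjoinRoot p, AdjoinRoot.mk p (AdjoinRoot.modByMonicHom hpm g) = g :=
    AdjoinRoot.mk_leftInverse hpm
  have hG0 : ∀ g : AdjoinRoot p, g ≠ 0 → AdjoinRoot.modByMonicHom hpm g ≠ 0 := by
    intro g hg h
    apply hg
    rw [← hmk g, h, map_zero]
  unfold Lsub at *
  refine mul_sym_mem_of_spec_eq_zero hm (polySet K d) _ (placeVal p).ρ ((placeVal p).spec hm) ?_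
    (fun g => algebraMap K[X] (RatFunc K) (AdjoinRoot.modByMonicHom hpm g)) ?_ ?_ ?_ ?_
    ⟨-1, by simp, by simp, by simp⟩ (by
      have h1 := hρ (-1) (by simp) (by simp)
      have h2 : algebraMap K[X] (RatFunc K) (-1) = -1 := by simp
      rw [h2] at h1
      rw [h1]
      simp) hx hx0
  · rintro u ⟨f, hf, hfd, rfl⟩
    rw [DVal.spec_apply, DVal.θ_sym _ hm (by simpa using hf)]
  · intro g hg
    exact ⟨_, hG0 g hg, hGmem g, rfl⟩
  · intro g h hg hh
    set G₁ := AdjoinRoot.modByMonicHom hpm g with hG₁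
    set G₂ := AdjoinRoot.modByMonicHom hpm h with hG₂
    set G₃ := AdjoinRoot.modByMonicHom hpm (g * h) with hG₃
    have hg1 : G₁ ≠ 0 := hG0 g hg
    have hg2 : G₂ ≠ 0 := hG0 h hh
    have hg3 : G₃ ≠ 0 := hG0 _ (mul_ne_zero hg hh)
    have h3 : G₃ = (G₁ * G₂) %ₘ p := by
      rw [hG₃, ← AdjoinRoot.modByMonicHom_mk hpm, map_mul (AdjoinRoot.mk p), hG₁, hG₂, hmk g,
        hmk h]
    set H := (G₁ * G₂) /ₘ p with hH
    have hsum : G₃ + p * H = G₁ * G₂ := by rw [h3, hH]; exact modByMonic_add_div _ _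
    have e1 : algebraMap K[X] (RatFunc K) G₁ ≠ 0 := by simpa using hg1
    have e2 : algebraMap K[X] (RatFunc K) G₂ ≠ 0 := by simpa using hg2
    have e3 : algebraMap K[X] (RatFunc K) G₃ ≠ 0 := by simpa using hg3
    have ep : algebraMap K[X] (RatFunc K) p ≠ 0 := by simpa using hp.out.ne_zero
    have hsumK := congrArg (algebraMap K[X] (RatFunc K)) hsum
    rw [map_add, map_mul, map_mul] at hsumK
    by_cases hH0 : H = 0
    · rw [hH0, map_zero, mul_zero, add_zero] at hsumK
      rw [hsumK, sym_mul e1 e2]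
      simp
    · have eH : algebraMap K[X] (RatFunc K) H ≠ 0 := by simpa using hH0
      have hHd : H.natDegree ≤ d := by
        rw [hH, natDegree_divByMonic _ hpm, natDegree_mul hg1 hg2, hd]
        have h6 : G₁.natDegree ≤ d := hGmem g
        have h7 : G₂.natDegree ≤ d := hGmem h
        omega
      have hst : sym m (algebraMap K[X] (RatFunc K) G₃ / (algebraMap K[X] (RatFunc K) G₁ *
          algebraMap K[X] (RatFunc K) G₂)) * sym m ((algebraMap K[X] (RatFunc K) p *
          algebraMap K[X] (RatFunc K) H) / (algebraMap K[X] (RatFunc K) G₁ *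
          algebraMap K[X] (RatFunc K) G₂)) = 0 := by
        apply sym_steinberg
        rw [← add_div, hsumK, div_self (mul_ne_zero e1 e2)]
      rw [sym_div e3 (mul_ne_zero e1 e2), sym_div (mul_ne_zero ep eH) (mul_ne_zero e1 e2),
        sym_mul e1 e2, sym_mul ep eH] at hst
      set s₁ := sym m (algebraMap K[X] (RatFunc K) G₁) with hs₁
      set s₂ := sym m (algebraMap K[X] (RatFunc K) G₂) with hs₂
      set s₃ := sym m (algebraMap K[X] (RatFunc K) G₃) with hs₃
      set sp := sym m (algebraMap K[X] (RatFunc K) p) with hsp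
      set sH := sym m (algebraMap K[X] (RatFunc K) H) with hsH
      have h4 : (s₃ - s₁ - s₂) * sp = -((s₃ - s₁ - s₂) * (sH - s₁ - s₂)) := by
        have h5 : (s₃ - s₁ - s₂) * sp + (s₃ - s₁ - s₂) * (sH - s₁ - s₂) = 0 := by
          rw [← mul_add, ← hst]
          congr 1 <;> abel
        exact eq_neg_of_add_eq_zero_left h5
      rw [h4]
      have m1 : s₁ ∈ Lsub m K d := sym_mem_Lsub (hGmem g)
      have m2 : s₂ ∈ Lsub m K d := sym_mem_Lsub (hGmem h)
      have m3 : s₃ ∈ Lsub m K d := sym_mem_Lsub (hGmem (g * h))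
      have mH : sH ∈ Lsub m K d := sym_mem_Lsub hHd
      exact neg_mem (mul_mem (sub_mem (sub_mem m3 m1) m2) (sub_mem (sub_mem mH m1) m2))
  · intro g h hg hh hgh
    have h1 : sym m (algebraMap K[X] (RatFunc K) (AdjoinRoot.modByMonicHom hpm g)) *
        sym m (algebraMap K[X] (RatFunc K) (AdjoinRoot.modByMonicHom hpm h)) = 0 := by
      apply sym_steinberg
      rw [← map_add, ← map_add, hgh, ← map_one (AdjoinRoot.mk p), AdjoinRoot.modByMonicHom_mk,
        (modByMonic_eq_self_iff hpm).mpr, map_one]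
      rw [degree_one, ← natDegree_pos_iff_degree_pos, hd]
      omega
    rw [h1, zero_mul]
    exact zero_mem _
  · rintro u ⟨f, hf, hfd, rfl⟩ _
    rw [hρ f hf hfd, AdjoinRoot.modByMonicHom_mk, (modByMonic_eq_self_iff hpm).mpr, sub_self,
      zero_mul]
    · exact zero_mem _
    · exact degree_lt_degree (by omega)

end step

/-- Monic irreducible polynomials of a given degree. -/
def MonicIrr (K : Type u) [Field K] (d : ℕ) : Type u :=
  {p : K[X] // p.Monic ∧ Irreducible p ∧ p.natDegree = d}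

/-- The span used in the inductive step of Milnor's theorem. -/
noncomputable def Nsub (m : ℕ) (K : Type u) [Field K] (d : ℕ) :
    Submodule (ZMod m) (KM m (RatFunc K)) :=
  Subalgebra.toSubmodule (Lsub m K d) ⊔
    ⨆ p : MonicIrr K (d + 1), (Subalgebra.toSubmodule (Lsub m K d)).map
      (LinearMap.mulRight (ZMod m) (sym m (algebraMap K[X] (RatFunc K) p.1)))

lemma mem_Nsub_left {d : ℕ} {x : KM m (RatFunc K)} (hx : x ∈ Lsub m K d) : x ∈ Nsub m K d :=
  Submodule.mem_sup_left hx

lemma mul_sym_mem_Nsub {d : ℕ} {x : KM m (RatFunc K)} (hx : x ∈ Lsub m K d)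
    (p : MonicIrr K (d + 1)) : x * sym m (algebraMap K[X] (RatFunc K) p.1) ∈ Nsub m K d := by
  apply Submodule.mem_sup_right
  apply Submodule.mem_iSup_of_mem p
  exact ⟨x, hx, rfl⟩

lemma Nsub_induction {d : ℕ} {P : KM m (RatFunc K) → Prop}
    (h0 : ∀ w ∈ Lsub m K d, P w)
    (h1 : ∀ w ∈ Lsub m K d, ∀ p : MonicIrr K (d + 1),
      P (w * sym m (algebraMap K[X] (RatFunc K) p.1)))
    (hadd : ∀ x y, P x → P y → P (x + y)) {x : KM m (RatFunc K)} (hx : x ∈ Nsub m K d) : P x := by
  obtain ⟨y, hy, z, hz, rfl⟩ := Submodule.mem_sup.mp hx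
  apply hadd _ _ (h0 y hy)
  refine Submodule.iSup_induction _ (motive := P) hz ?_ ?_ hadd
  · rintro p _ ⟨w, hw, rfl⟩
    exact h1 w hw p
  · exact h0 0 (zero_mem _)

lemma mul_mem_Nsub_of_Lsub {d : ℕ} {w x : KM m (RatFunc K)} (hw : w ∈ Lsub m K d)
    (hx : x ∈ Nsub m K d) : w * x ∈ Nsub m K d := by
  refine Nsub_induction (P := fun x => w * x ∈ Nsub m K d) ?_ ?_ ?_ hx
  · intro y hy; exact mem_Nsub_left (mul_mem hw hy)
  · intro y hy p
    rw [← mul_assoc]
    exact mul_sym_mem_Nsub (mul_mem hw hy) p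
  · intro x y hx hy
    rw [mul_add]
    exact add_mem hx hy

lemma sym_mul_mem_Nsub (hm : Any m) {d : ℕ} {x : KM m (RatFunc K)} (q : MonicIrr K (d + 1))
    (hx : x ∈ Nsub m K d) : sym m (algebraMap K[X] (RatFunc K) q.1) * x ∈ Nsub m K d := by
  have heps : ∀ {w}, w ∈ Lsub m K d → eps m _ w ∈ Lsub m K d := fun h => eps_mem_adjoin h
  refine Nsub_induction
    (P := fun x => sym m (algebraMap K[X] (RatFunc K) q.1) * x ∈ Nsub m K d) ?_ ?_ ?_ hx
  · intro y hy
    rw [sym_mul_eq hm]
    exact mul_sym_mem_Nsub (heps hy) q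
  · intro y hy p
    rw [← mul_assoc, sym_mul_eq hm, mul_assoc]
    apply mul_mem_Nsub_of_Lsub (heps hy)
    by_cases hpq : q.1 = p.1
    · rw [hpq, sym_sq hm]
      exact zero_mem _
    · -- `q = p + h`
      have eq0 : algebraMap K[X] (RatFunc K) q.1 ≠ 0 := by
        simpa using q.2.2.1.ne_zero
      have ep0 : algebraMap K[X] (RatFunc K) p.1 ≠ 0 := by
        simpa using p.2.2.1.ne_zero
      have hh0 : q.1 - p.1 ≠ 0 := sub_ne_zero.mpr hpq
      have eh0 : algebraMap K[X] (RatFunc K) (q.1 - p.1) ≠ 0 := by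
        rw [Ne, FaithfulSMul.algebraMap_eq_zero_iff]; exact hh0
      have hdeg : (q.1 - p.1).natDegree ≤ d := by
        have h1 : (q.1 - p.1).degree < q.1.degree := by
          apply degree_sub_lt_left
          · rw [degree_eq_natDegree q.2.2.1.ne_zero, degree_eq_natDegree p.2.2.1.ne_zero,
              q.2.2.2, p.2.2.2]
          · exact q.2.2.1.ne_zero
          · rw [q.2.1.leadingCoeff, p.2.1.leadingCoeff]
        have h2 := natDegree_lt_natDegree hh0 h1
        rw [q.2.2.2] at h2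
        omega
      have hst : sym m (algebraMap K[X] (RatFunc K) p.1 / algebraMap K[X] (RatFunc K) q.1) *
          sym m (algebraMap K[X] (RatFunc K) (q.1 - p.1) / algebraMap K[X] (RatFunc K) q.1)
            = 0 := by
        apply sym_steinberg
        rw [← add_div, ← map_add, add_sub_cancel, div_self eq0]
      rw [sym_div ep0 eq0, sym_div eh0 eq0] at hst
      set sp := sym m (algebraMap K[X] (RatFunc K) p.1)
      set sq := sym m (algebraMap K[X] (RatFunc K) q.1)
      set sh := sym m (algebraMap K[X] (RatFunc K) (q.1 - p.1))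
      have e1 : sq * sq = 0 := sym_sq hm _
      have e2 : sp * sq = - (sq * sp) := sym_anticomm hm _ _
      have e3 : sp * sh = - (sh * sp) := sym_anticomm hm _ _
      have e4 : sq * sh = - (sh * sq) := sym_anticomm hm _ _
      have h5 : sq * sp = sh * sp - sh * sq := by
        rw [sub_mul, mul_sub, mul_sub, e1, e2, e3, e4] at hst
        have h6 : sq * sp - (sh * sp - sh * sq) = 0 := by
          rw [← hst]; abel
        exact sub_eq_zero.mp h6
      rw [h5]
      have mh : sh ∈ Lsub m K d := sym_mem_Lsub hdeg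
      exact sub_mem (mul_sym_mem_Nsub mh p) (mul_sym_mem_Nsub mh q)
  · intro x y hx hy
    rw [mul_add]
    exact add_mem hx hy

lemma Lsub_succ_le (hm : Any m) {d : ℕ} {x : KM m (RatFunc K)} (hx : x ∈ Lsub m K (d + 1)) :
    x ∈ Nsub m K d := by
  have key : ∀ z ∈ Nsub m K d, x * z ∈ Nsub m K d := by
    unfold Lsub at hx
    induction hx using Algebra.adjoin_induction with
    | mem x hx =>
      obtain ⟨_, ⟨f, hf, hfd, rfl⟩, rfl⟩ := hx
      intro z hz
      by_cases hfd' : f.natDegree ≤ d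
      · exact mul_mem_Nsub_of_Lsub (sym_mem_Lsub hfd') hz
      have hfd'' : f.natDegree = d + 1 := by omega
      have hfu : ¬ IsUnit f := by
        intro h
        have := natDegree_eq_zero_of_isUnit h
        omega
      by_cases hirr : Irreducible f
      · -- normalize `f`
        set c := f.leadingCoeff with hc
        have hc0 : c ≠ 0 := leadingCoeff_ne_zero.mpr hf
        have hq : (f * C c⁻¹).Monic := monic_mul_leadingCoeff_inv hf
        have hunit : IsUnit (C c⁻¹ : K[X]) := (isUnit_C).mpr (isUnit_iff_ne_zero.mpr (inv_ne_zero hc0))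
        have hqi : Irreducible (f * C c⁻¹) := (irreducible_mul_isUnit hunit).mpr hirr
        have hqd : (f * C c⁻¹).natDegree = d + 1 := by
          rw [natDegree_mul_C (inv_ne_zero hc0), hfd'']
        have hfe : f = C c * (f * C c⁻¹) := by
          rw [mul_comm f, ← mul_assoc, ← C_mul, mul_inv_cancel₀ hc0, C_1, one_mul]
        have e1 : algebraMap K[X] (RatFunc K) (C c) ≠ 0 := by simpa using hc0
        have e2 : algebraMap K[X] (RatFunc K) (f * C c⁻¹) ≠ 0 := by simpa using hq.ne_zero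
        rw [hfe, map_mul, sym_mul e1 e2, add_mul]
        refine add_mem (mul_mem_Nsub_of_Lsub (sym_mem_Lsub (by simp)) hz)
          (sym_mul_mem_Nsub hm ⟨_, hq, hqi, hqd⟩ hz)
      · -- `f` is a product of polynomials of smaller degree
        rw [irreducible_iff] at hirr
        push Not at hirr
        obtain ⟨g, h, hgh, hg, hh⟩ := hirr hfu
        have hg0 : g ≠ 0 := by rintro rfl; rw [zero_mul] at hgh; exact hf hgh
        have hh0 : h ≠ 0 := by rintro rfl; rw [mul_zero] at hgh; exact hf hgh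
        have hgd : 0 < g.natDegree := by
          by_contra h0
          apply hg
          rw [Polynomial.isUnit_iff_degree_eq_zero, degree_eq_natDegree hg0]
          have : g.natDegree = 0 := by omega
          simp [this]
        have hhd : 0 < h.natDegree := by
          by_contra h0
          apply hh
          rw [Polynomial.isUnit_iff_degree_eq_zero, degree_eq_natDegree hh0]
          have : h.natDegree = 0 := by omega
          simp [this]
        have hsum : g.natDegree + h.natDegree = d + 1 := by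
          rw [← natDegree_mul hg0 hh0, ← hgh, hfd'']
        have e1 : algebraMap K[X] (RatFunc K) g ≠ 0 := by simpa using hg0
        have e2 : algebraMap K[X] (RatFunc K) h ≠ 0 := by simpa using hh0
        rw [hgh, map_mul, sym_mul e1 e2]
        exact mul_mem_Nsub_of_Lsub (add_mem (sym_mem_Lsub (by omega)) (sym_mem_Lsub (by omega))) hz
    | algebraMap r =>
      intro z hz
      rw [← Algebra.smul_def]
      exact Submodule.smul_mem _ r hz
    | add x y _ _ hx hy =>
      intro z hz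
      rw [add_mul]
      exact add_mem (hx z hz) (hy z hz)
    | mul x y _ _ hx hy =>
      intro z hz
      rw [mul_assoc]
      exact hx _ (hy z hz)
  have := key 1 (mem_Nsub_left (one_mem _))
  simpa using this

/-- The inductive step in Milnor's theorem. -/
lemma milnor_step (hm : Any m) {d : ℕ} {x : KM m (RatFunc K)} (hx : x ∈ Lsub m K (d + 1))
    (hres : ∀ (p : K[X]) (_ : p.Monic) (hp : Fact (Irreducible p)),
      (placeVal p).res hm x = 0) : x ∈ Lsub m K d := by
  classical
  have hN := Lsub_succ_le hm hx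
  obtain ⟨y, hy, z, hz, rfl⟩ := Submodule.mem_sup.mp hN
  rw [Submodule.mem_iSup_iff_exists_finsupp] at hz
  obtain ⟨f, hf, rfl⟩ := hz
  have hy : y ∈ Lsub m K d := hy
  refine add_mem hy (sum_mem ?_)
  intro q hq
  obtain ⟨w, hw, hwq⟩ := hf q
  have hw : w ∈ Lsub m K d := hw
  rw [LinearMap.mulRight_apply] at hwq
  rw [← hwq]
  have : Fact (Irreducible q.1) := ⟨q.2.2.1⟩
  apply mul_sym_mem_Lsub hm q.2.1 q.2.2.2 hw
  have h1 := hres q.1 q.2.1 inferInstance
  have hdq : d < q.1.natDegree := by rw [q.2.2.2]; omega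
  have hterm : ∀ i : MonicIrr K (d + 1), i ≠ q → (placeVal q.1).res hm (f i) = 0 := by
    intro i hi
    obtain ⟨w', hw', hwi⟩ := hf i
    have hw' : w' ∈ Lsub m K d := hw'
    rw [LinearMap.mulRight_apply] at hwi
    have hndvd : ¬ q.1 ∣ i.1 := by
      intro hdvd
      apply hi
      apply Subtype.ext
      exact (eq_of_monic_of_associated q.2.1 i.2.1
        (q.2.2.1.associated_of_dvd i.2.2.1 hdvd) ).symm
    have h2 := placeVal_unit q.1 hndvd
    have e0 : algebraMap K[X] (RatFunc K) i.1 ≠ 0 := by simpa using i.2.2.1.ne_zero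
    rw [← hwi, DVal.res, map_mul, DVal.θ_sym _ hm e0, h2.1, KMX.mul_snd,
      θ_snd_of_mem_Lsub hm hdq hw']
    simp
  have hself : (placeVal q.1).res hm (f q) = (placeVal q.1).spec hm w := by
    have e0 : algebraMap K[X] (RatFunc K) q.1 ≠ 0 := by simpa using q.2.2.1.ne_zero
    rw [← hwq, DVal.res, map_mul, DVal.θ_sym _ hm e0, placeVal_v_self, KMX.mul_snd,
      θ_snd_of_mem_Lsub hm hdq hw, DVal.spec_apply]
    simp
  have hsum : (placeVal q.1).res hm (y + ∑ i ∈ f.support, f i) =
      (placeVal q.1).res hm y + ∑ i ∈ f.support, (placeVal q.1).res hm (f i) := by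
    simp only [DVal.res, map_add, map_sum, KMX.add_snd, KMX.sum_snd]
  rw [Finsupp.sum, hsum, Finset.sum_eq_single q (fun i _ hi => hterm i hi) (fun h => absurd hq h), hself] at h1
  have h3 : (placeVal q.1).res hm y = 0 := θ_snd_of_mem_Lsub hm hdq hy
  rwa [h3, zero_add] at h1

/-- Milnor's theorem: an element of the K-ring of `K(t)` modulo `m` whose residues at all monic
irreducible polynomials vanish comes from `K`. -/
theorem milnor (hm : Any m) (x : KM m (RatFunc K))
    (hres : ∀ (p : K[X]) (_ : p.Monic) (hp : Fact (Irreducible p)),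
      (placeVal p).res hm x = 0) : ∃ y : KM m K, KM.map m (algebraMap K (RatFunc K)) y = x := by
  obtain ⟨d, hd⟩ := exists_mem_Lsub x
  have h0 : x ∈ Lsub m K 0 := by
    induction d with
    | zero => exact hd
    | succ d ih => exact ih (milnor_step hm hd hres)
  unfold Lsub at h0
  have h1 : Algebra.adjoin (ZMod m) (sym m '' polySet K 0) ≤
      (KM.map m (algebraMap K (RatFunc K))).range := by
    rw [Algebra.adjoin_le_iff]
    rintro _ ⟨_, ⟨f, hf, hfd, rfl⟩, rfl⟩
    have h2 : f = C (f.coeff 0) := eq_C_of_natDegree_le_zero hfd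
    refine ⟨sym m (f.coeff 0), ?_⟩
    change KM.map m _ _ = _
    rw [KM.map_sym]
    congr 1
    conv_rhs => rw [h2]
    simp
  obtain ⟨y, hy⟩ := h1 h0
  exact ⟨y, hy⟩

end UnrG
end

section

/-!
# Unramified elements of the Milnor K-ring modulo `m`
-/

namespace UnrG

universe u v w

variable {m : ℕ}

section Def

variable {K : Type u} [Field K]

/-- The element `x` of the Milnor K-ring of `K` modulo `m` is unramified at the valuation ring
`A` of `K` if it lies in the subring generated by the symbols `{u}` of units `u` of `A`. -/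
def UnrAt (m : ℕ) {K : Type u} [Field K] (A : ValuationSubring K) (x : KM m K) : Prop :=
  x ∈ Algebra.adjoin (ZMod m) (Set.range fun u : Aˣ => sym m ((u : A) : K))

/-- The element `x` of the Milnor K-ring of `K` modulo `m` is unramified if it is unramified at
every discrete valuation ring with fraction field `K`. -/
def Unr (x : KM m K) : Prop :=
  ∀ A : ValuationSubring K, IsDiscreteValuationRing A → UnrAt m A x

end Def

section DVR

variable {K : Type u} [Field K]

/-- The discrete valuation attached to a discrete valuation ring and a uniformizer. -/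
noncomputable def DVal.ofDVR (A : ValuationSubring K) [IsDiscreteValuationRing A] (ϖ : A)
    (hϖ : Irreducible ϖ) : DVal K (IsLocalRing.ResidueField A) :=
  DVal.ofPrime K (IsLocalRing.residue A) ϖ hϖ.ne_zero
    (by
      rw [IsLocalRing.residue_eq_zero_iff, IsLocalRing.mem_maximalIdeal]
      exact hϖ.not_isUnit)
    (by
      intro a ha
      obtain ⟨n, u, hu⟩ := IsDiscreteValuationRing.eq_unit_mul_pow_irreducible ha hϖ
      refine ⟨n, u, by rw [hu, mul_comm], ?_⟩
      rw [Ne, IsLocalRing.residue_eq_zero_iff, IsLocalRing.mem_maximalIdeal]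
      simp)

section

variable (A : ValuationSubring K) [IsDiscreteValuationRing A] (ϖ : A) (hϖ : Irreducible ϖ)

lemma residue_ne_zero_iff {a : A} : IsLocalRing.residue A a ≠ 0 ↔ IsUnit a := by
  rw [Ne, IsLocalRing.residue_eq_zero_iff, IsLocalRing.mem_maximalIdeal, mem_nonunits_iff, not_not]

lemma DVal.ofDVR_nonneg {x : K} (hx : x ≠ 0) : 0 ≤ (DVal.ofDVR A ϖ hϖ).v x ↔ x ∈ A := by
  unfold DVal.ofDVR
  rw [DVal.ofPrime_nonneg_iff _ _ _ _ _ hx]
  constructor
  · rintro ⟨a, w, hw, h⟩
    rw [residue_ne_zero_iff] at hw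
    obtain ⟨w, rfl⟩ := hw
    have h2 : x = ((a * (w⁻¹ : Aˣ) : A) : K) := by
      have hw0 : ((w : A) : K) ≠ 0 := by
        have := w.ne_zero
        simpa using this
      have h3 : (((w : A) * ((w⁻¹ : Aˣ) : A) : A) : K) = 1 := by simp
      rw [h]
      change (a : K) / ((w : A) : K) = _
      rw [div_eq_iff hw0]
      push_cast at h3 ⊢
      rw [mul_assoc, mul_comm ((w⁻¹ : Aˣ) : K), h3, mul_one]
    rw [h2]
    exact (a * (w⁻¹ : Aˣ) : A).2
  · intro h
    exact ⟨⟨x, h⟩, 1, by simp, by simp⟩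

lemma DVal.ofDVR_unit_iff {x : K} (hx : x ≠ 0) :
    (DVal.ofDVR A ϖ hϖ).v x = 0 ↔ ∃ u : Aˣ, ((u : A) : K) = x := by
  constructor
  · intro h
    have h1 : x ∈ A := (DVal.ofDVR_nonneg A ϖ hϖ hx).mp h.ge
    have h2 : x⁻¹ ∈ A := by
      apply (DVal.ofDVR_nonneg A ϖ hϖ (inv_ne_zero hx)).mp
      rw [DVal.v_inv _ hx, h]
      simp
    exact ⟨⟨⟨x, h1⟩, ⟨x⁻¹, h2⟩, by ext; simp [hx], by ext; simp [hx]⟩, rfl⟩
  · rintro ⟨u, rfl⟩
    exact (DVal.ofPrime_unit (K := K) (IsLocalRing.residue A) ϖ _ _ _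
      (residue_ne_zero_iff A |>.mpr u.isUnit)).1

lemma DVal.ofDVR_ρ (u : A) (hu : IsUnit u) :
    (DVal.ofDVR A ϖ hϖ).ρ (u : K) = IsLocalRing.residue A u :=
  (DVal.ofPrime_unit (K := K) (IsLocalRing.residue A) ϖ _ _ _
      (residue_ne_zero_iff A |>.mpr hu)).2

lemma DVal.ofDVR_v_self : (DVal.ofDVR A ϖ hϖ).v (ϖ : K) = 1 :=
  (DVal.ofPrime_self (K := K) (IsLocalRing.residue A) ϖ _ _ _).1

lemma DVal.ofDVR_ρ_self : (DVal.ofDVR A ϖ hϖ).ρ (ϖ : K) = 1 :=
  (DVal.ofPrime_self (K := K) (IsLocalRing.residue A) ϖ _ _ _).2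

lemma DVal.ofDVR_U : (DVal.ofDVR A ϖ hϖ).U m =
    Algebra.adjoin (ZMod m) (Set.range fun u : Aˣ => sym m ((u : A) : K)) := by
  unfold DVal.U
  congr 1
  ext y
  constructor
  · rintro ⟨x, ⟨hx0, hx⟩, rfl⟩
    obtain ⟨u, rfl⟩ := (DVal.ofDVR_unit_iff A ϖ hϖ hx0).mp hx
    exact ⟨u, rfl⟩
  · rintro ⟨u, rfl⟩
    have hu : ((u : A) : K) ≠ 0 := by
      have := u.ne_zero
      simpa using this
    exact ⟨_, ⟨hu, (DVal.ofDVR_unit_iff A ϖ hϖ hu).mpr ⟨u, rfl⟩⟩, rfl⟩

/-- An element is unramified at `A` if and only if its tame residue at `A` vanishes. -/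
theorem unrAt_iff_res (hm : Any m) (x : KM m K) :
    UnrAt m A x ↔ (DVal.ofDVR A ϖ hϖ).res hm x = 0 := by
  unfold UnrAt
  rw [← DVal.ofDVR_U A ϖ hϖ]
  constructor
  · exact fun h => DVal.res_eq_zero_of_mem_U hm _ h
  · intro h
    have hϖ0 : (ϖ : K) ≠ 0 := by
      have := hϖ.ne_zero
      simpa using this
    refine DVal.mem_U_of_res_eq_zero hm _ hϖ0 (DVal.ofDVR_v_self A ϖ hϖ)
      (DVal.ofDVR_ρ_self A ϖ hϖ) ?_ h
    intro g hg
    obtain ⟨a, rfl⟩ := IsLocalRing.residue_surjective g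
    have ha : IsUnit a := (residue_ne_zero_iff A).mp hg
    have ha0 : (a : K) ≠ 0 := by
      have := ha.ne_zero
      simpa using this
    refine ⟨a, ha0, ?_, DVal.ofDVR_ρ A ϖ hϖ a ha⟩
    rw [DVal.ofDVR_unit_iff A ϖ hϖ ha0]
    obtain ⟨w, rfl⟩ := ha
    exact ⟨w, rfl⟩

end

end DVR

section Ring

variable {K : Type u} {κ : Type v} [Field K] [Field κ] (D : DVal K κ)

lemma DVal.min_le_v_add {a b : K} (ha : a ≠ 0) (hb : b ≠ 0) (hab : a + b ≠ 0) :
    min (D.v a) (D.v b) ≤ D.v (a + b) := by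
  have h1 := D.st (a / (a + b)) (b / (a + b)) (div_ne_zero ha hab) (div_ne_zero hb hab)
    (by field_simp)
  rw [D.v_div ha hab, D.v_div hb hab] at h1
  rcases h1 with h | h | h | h <;> omega

/-- The valuation ring of a discrete valuation. -/
def DVal.ring : ValuationSubring K where
  carrier := {x | x = 0 ∨ 0 ≤ D.v x}
  mul_mem' := by
    rintro a b (rfl | ha) (rfl | hb)
    · left; simp
    · left; simp
    · left; simp
    · by_cases h0 : a = 0
      · left; simp [h0]
      by_cases h1 : b = 0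
      · left; simp [h1]
      right
      rw [D.v_mul _ _ h0 h1]
      omega
  one_mem' := Or.inr (by rw [D.v_one])
  add_mem' := by
    rintro a b ha hb
    by_cases h0 : a = 0
    · subst h0; simpa using hb
    by_cases h1 : b = 0
    · subst h1; simpa using ha
    by_cases h2 : a + b = 0
    · exact Or.inl h2
    right
    have := D.min_le_v_add h0 h1 h2
    have ha := ha.resolve_left h0
    have hb := hb.resolve_left h1
    exact le_trans (le_min ha hb) this
  zero_mem' := Or.inl rfl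
  neg_mem' := by
    rintro a (rfl | ha)
    · left; simp
    · by_cases h0 : a = 0
      · left; simp [h0]
      right
      rwa [D.v_neg h0]
  mem_or_inv_mem' := by
    intro x
    by_cases hx : x = 0
    · exact Or.inl (Or.inl hx)
    rcases le_total 0 (D.v x) with h | h
    · exact Or.inl (Or.inr h)
    · right; right
      rw [D.v_inv hx]; omega

lemma DVal.mem_ring {x : K} (hx : x ≠ 0) : x ∈ D.ring ↔ 0 ≤ D.v x := by
  change (x = 0 ∨ 0 ≤ D.v x) ↔ _
  simp [hx]

lemma DVal.ring_isUnit_iff {x : D.ring} (hx : (x : K) ≠ 0) : IsUnit x ↔ D.v (x : K) = 0 := by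
  constructor
  · rintro ⟨u, rfl⟩
    have h1 : ((((u : D.ring) * ((u⁻¹ : (D.ring)ˣ) : D.ring) : D.ring)) : K) = 1 := by simp
    have hu : ((((u⁻¹ : (D.ring)ˣ) : D.ring)) : K) ≠ 0 := by
      intro h
      push_cast at h1
      rw [h, mul_zero] at h1
      exact zero_ne_one h1
    have h2 := (D.mem_ring hx).mp (u : D.ring).2
    have h3 := (D.mem_ring hu).mp ((u⁻¹ : (D.ring)ˣ) : D.ring).2
    have h4 := D.v_mul _ _ hx hu
    push_cast at h1
    rw [h1, D.v_one] at h4
    omega
  · intro h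
    have h2 : (x : K)⁻¹ ∈ D.ring := by
      rw [D.mem_ring (inv_ne_zero hx), D.v_inv hx, h]; simp
    refine ⟨⟨x, ⟨(x : K)⁻¹, h2⟩, ?_, ?_⟩, rfl⟩
    · ext; simp [hx]
    · ext; simp [hx]

/-- The valuation ring of a normalized discrete valuation is a discrete valuation ring. -/
lemma DVal.ring_isDVR {ϖ : K} (hϖ : ϖ ≠ 0) (hv : D.v ϖ = 1) : IsDiscreteValuationRing D.ring := by
  apply IsDiscreteValuationRing.ofHasUnitMulPowIrreducibleFactorization
  have hmem : ϖ ∈ D.ring := by rw [D.mem_ring hϖ, hv]; norm_num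
  refine ⟨⟨ϖ, hmem⟩, ?_, ?_⟩
  · constructor
    · rw [D.ring_isUnit_iff (by simpa using hϖ)]
      simp [hv]
    · intro a b hab
      have h1 : (a : K) * b = ϖ := by
        have := congrArg (fun z : D.ring => (z : K)) hab
        simpa using this.symm
      have ha : (a : K) ≠ 0 := by rintro h; rw [h, zero_mul] at h1; exact hϖ h1.symm
      have hb : (b : K) ≠ 0 := by rintro h; rw [h, mul_zero] at h1; exact hϖ h1.symm
      have h2 := D.v_mul _ _ ha hb
      rw [h1, hv] at h2
      have h3 := (D.mem_ring ha).mp a.2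
      have h4 := (D.mem_ring hb).mp b.2
      rw [D.ring_isUnit_iff ha, D.ring_isUnit_iff hb]
      omega
  · intro x hx
    have hx0 : (x : K) ≠ 0 := by simpa using hx
    have h1 := (D.mem_ring hx0).mp x.2
    obtain ⟨n, hn⟩ := Int.eq_ofNat_of_zero_le h1
    have hpow : ϖ ^ n ≠ 0 := pow_ne_zero n hϖ
    have h2 : D.v ((x : K) / ϖ ^ n) = 0 := by
      rw [D.v_div hx0 hpow, D.v_pow hϖ, hv, hn]; simp
    have h3 : (x : K) / ϖ ^ n ∈ D.ring := by
      rw [D.mem_ring (div_ne_zero hx0 hpow), h2]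
    have h4 : IsUnit (⟨(x : K) / ϖ ^ n, h3⟩ : D.ring) := by
      rw [D.ring_isUnit_iff (by simpa using div_ne_zero hx0 hpow)]
      exact h2
    obtain ⟨u, hu⟩ := h4
    refine ⟨n, u, ?_⟩
    rw [hu]
    ext
    push_cast
    field_simp

lemma DVal.U_eq_of_ring :
    Algebra.adjoin (ZMod m) (Set.range fun u : (D.ring)ˣ => sym m ((u : D.ring) : K)) =
      D.U m := by
  unfold DVal.U
  congr 1
  ext y
  constructor
  · rintro ⟨u, rfl⟩
    have hu : ((u : D.ring) : K) ≠ 0 := by
      have := u.ne_zero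
      simpa using this
    exact ⟨_, ⟨hu, (D.ring_isUnit_iff hu).mp u.isUnit⟩, rfl⟩
  · rintro ⟨x, ⟨hx0, hx⟩, rfl⟩
    have h1 : x ∈ D.ring := (D.mem_ring hx0).mpr hx.ge
    obtain ⟨u, hu⟩ := (D.ring_isUnit_iff (x := ⟨x, h1⟩) hx0).mpr hx
    exact ⟨u, by simp [hu]⟩

/-- Unramified elements have vanishing residues at every normalized discrete valuation. -/
lemma Unr.res_eq_zero (hm : Any m) {x : KM m K} (hx : Unr x) {ϖ : K} (hϖ : ϖ ≠ 0)
    (hv : D.v ϖ = 1) : D.res hm x = 0 := by
  have h1 := hx D.ring (D.ring_isDVR hϖ hv)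
  unfold UnrAt at h1
  rw [DVal.U_eq_of_ring] at h1
  exact D.res_eq_zero_of_mem_U hm h1

end Ring

section Functoriality

variable {K : Type u} {L : Type v} [Field K] [Field L]

lemma Unr.zero : Unr (0 : KM m K) := fun _ _ => zero_mem _

lemma Unr.add {x y : KM m K} (hx : Unr x) (hy : Unr y) : Unr (x + y) :=
  fun A hA => add_mem (hx A hA) (hy A hA)

lemma Unr.neg {x : KM m K} (hx : Unr x) : Unr (-x) :=
  fun A hA => neg_mem (hx A hA)

lemma Unr.sub {x y : KM m K} (hx : Unr x) (hy : Unr y) : Unr (x - y) :=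
  fun A hA => sub_mem (hx A hA) (hy A hA)

lemma Unr.mul {x y : KM m K} (hx : Unr x) (hy : Unr y) : Unr (x * y) :=
  fun A hA => mul_mem (hx A hA) (hy A hA)

lemma Unr.smul {x : KM m K} (hx : Unr x) (r : ZMod m) : Unr (r • x) :=
  fun A hA => Subalgebra.smul_mem _ (hx A hA) r

/-- The preimage of a discrete valuation ring under a field homomorphism is the whole field
or a discrete valuation ring. -/
lemma comap_isDVR (f : K →+* L) (B : ValuationSubring L) [IsDiscreteValuationRing B] :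
    B.comap f = ⊤ ∨ IsDiscreteValuationRing (B.comap f) := by
  classical
  obtain ⟨ϖ, hϖ⟩ := IsDiscreteValuationRing.exists_irreducible B
  set D := DVal.ofDVR B ϖ hϖ with hD
  have hmem : ∀ x : K, x ≠ 0 → (x ∈ B.comap f ↔ 0 ≤ D.v (f x)) := by
    intro x hx
    rw [ValuationSubring.mem_comap, hD, DVal.ofDVR_nonneg B ϖ hϖ ((map_ne_zero f).mpr hx)]
  by_cases hpos : ∃ x : K, x ≠ 0 ∧ 0 < D.v (f x)
  · right
    have hex : ∃ n : ℕ, 0 < n ∧ ∃ x : K, x ≠ 0 ∧ D.v (f x) = n := by
      obtain ⟨x, hx, h⟩ := hpos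
      exact ⟨(D.v (f x)).toNat, by omega, x, hx, by omega⟩
    obtain ⟨hn0, t, ht, hvt⟩ := Nat.find_spec hex
    set n := Nat.find hex with hn
    have hdvd : ∀ x : K, x ≠ 0 → (n : ℤ) ∣ D.v (f x) := by
      intro x hx
      by_contra hcon
      set q := D.v (f x) / n with hq
      have hfx : f x ≠ 0 := (map_ne_zero f).mpr hx
      have hft : f t ≠ 0 := (map_ne_zero f).mpr ht
      have h1 : D.v (f (x / t ^ q)) = D.v (f x) % n := by
        rw [map_div₀, map_zpow₀, D.v_div hfx (zpow_ne_zero _ hft), D.v_zpow hft, hvt]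
        have := Int.emod_add_mul_ediv (D.v (f x)) n
        rw [hq]
        linarith
      have h2 : 0 ≤ D.v (f x) % n := Int.emod_nonneg _ (by omega)
      have h3 : D.v (f x) % n < n := Int.emod_lt_of_pos _ (by omega)
      have h4 : D.v (f x) % n ≠ 0 := fun h => hcon (Int.dvd_of_emod_eq_zero h)
      refine Nat.find_min hex (m := (D.v (f x) % n).toNat) (by omega)
        ⟨by omega, x / t ^ q, div_ne_zero hx (zpow_ne_zero _ ht), by omega⟩
    -- the restricted valuation, divided by `n`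
    let D' : DVal K (IsLocalRing.ResidueField B) :=
      { v := fun x => D.v (f x) / n
        ρ := D.ρ.comp f.toMonoidWithZeroHom
        v_mul := by
          intro a b ha hb
          obtain ⟨c, hc⟩ := hdvd a ha
          obtain ⟨d, hd⟩ := hdvd b hb
          rw [map_mul, D.v_mul _ _ ((map_ne_zero f).mpr ha) ((map_ne_zero f).mpr hb), hc, hd,
            ← mul_add, Int.mul_ediv_cancel_left _ (by omega), Int.mul_ediv_cancel_left _ (by omega),
            Int.mul_ediv_cancel_left _ (by omega)]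
        st := by
          intro a b ha hb hab
          have h1 := D.st (f a) (f b) ((map_ne_zero f).mpr ha) ((map_ne_zero f).mpr hb)
            (by rw [← map_add, hab, map_one])
          obtain ⟨c, hc⟩ := hdvd a ha
          obtain ⟨d, hd⟩ := hdvd b hb
          have hn' : (0 : ℤ) < n := by omega
          rw [hc, hd] at h1 ⊢
          rw [Int.mul_ediv_cancel_left _ (by omega), Int.mul_ediv_cancel_left _ (by omega)]
          change _ ∨ _ ∨ _ ∨ _
          rcases h1 with ⟨h1, h2, h3⟩ | ⟨h1, h2, h3⟩ | ⟨h1, h2, h3⟩ | ⟨h1, h2, h3⟩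
          · exact Or.inl ⟨(mul_pos_iff_of_pos_left hn').mp h1,
              (mul_eq_zero.mp h2).resolve_left (by omega), h3⟩
          · exact Or.inr (Or.inl ⟨(mul_pos_iff_of_pos_left hn').mp h1,
              (mul_eq_zero.mp h2).resolve_left (by omega), h3⟩)
          · exact Or.inr (Or.inr (Or.inl ⟨(mul_eq_zero.mp h1).resolve_left (by omega),
              (mul_eq_zero.mp h2).resolve_left (by omega), h3⟩))
          · exact Or.inr (Or.inr (Or.inr ⟨by nlinarith, mul_left_cancel₀ (by omega) h2, h3⟩)) }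
    have hring : B.comap f = D'.ring := by
      ext x
      by_cases hx : x = 0
      · subst hx; simp
      rw [hmem x hx, D'.mem_ring hx]
      obtain ⟨c, hc⟩ := hdvd x hx
      change _ ↔ 0 ≤ D.v (f x) / n
      rw [hc, Int.mul_ediv_cancel_left _ (by omega)]
      constructor
      · intro h; by_contra h'; push Not at h'; nlinarith
      · intro h; positivity
    rw [hring]
    exact D'.ring_isDVR ht (by change D.v (f t) / n = 1; rw [hvt]; exact Int.ediv_self (by omega))
  · left
    rw [eq_top_iff]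
    intro x _
    by_cases hx : x = 0
    · subst hx; exact zero_mem _
    rw [hmem x hx]
    by_contra h
    push Not at h hpos
    have := hpos x⁻¹ (inv_ne_zero hx)
    rw [map_inv₀, D.v_inv ((map_ne_zero f).mpr hx)] at this
    omega

/-- Functoriality of unramified elements under field homomorphisms. -/
theorem Unr.map (f : K →+* L) {x : KM m K} (hx : Unr x) : Unr (KM.map m f x) := by
  intro B hB
  have key : ∀ (x : KM m K) (S : Set (KM m K)), x ∈ Algebra.adjoin (ZMod m) S →
      (∀ s ∈ S, UnrAt m B (KM.map m f s)) → UnrAt m B (KM.map m f x) := by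
    intro x S hx hS
    induction hx using Algebra.adjoin_induction with
    | mem x hx => exact hS x hx
    | algebraMap r => rw [AlgHom.commutes]; exact Subalgebra.algebraMap_mem _ _
    | add x y _ _ hx hy => rw [map_add]; exact add_mem hx hy
    | mul x y _ _ hx hy => rw [map_mul]; exact mul_mem hx hy
  have hunit : ∀ a : K, a ≠ 0 → a ∈ B.comap f → a⁻¹ ∈ B.comap f →
      UnrAt m B (KM.map m f (sym m a)) := by
    intro a ha h1 h2
    rw [KM.map_sym]
    rw [ValuationSubring.mem_comap] at h1 h2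
    rw [map_inv₀] at h2
    have hfa : f a ≠ 0 := (map_ne_zero f).mpr ha
    exact Algebra.subset_adjoin ⟨⟨⟨f a, h1⟩, ⟨(f a)⁻¹, h2⟩, by ext; simp [hfa],
      by ext; simp [hfa]⟩, rfl⟩
  rcases comap_isDVR f B with h | h
  · refine key x (Set.range (usym m : Kˣ → KM m K)) (by rw [adjoin_range_usym]; trivial) ?_
    rintro _ ⟨a, rfl⟩
    rw [← sym_unit]
    exact hunit _ a.ne_zero (by rw [h]; trivial) (by rw [h]; trivial)
  · refine key x _ (hx _ h) ?_
    rintro _ ⟨u, rfl⟩
    have hu : ((u : B.comap f) : K) ≠ 0 := by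
      have := u.ne_zero
      simpa using this
    refine hunit _ hu (u : B.comap f).2 ?_
    have h1 : (((u : B.comap f) : K)) * ((((u⁻¹ : (B.comap f)ˣ)) : B.comap f) : K) = 1 := by
      have h2 : (((u : B.comap f) * ((u⁻¹ : (B.comap f)ˣ) : B.comap f) : B.comap f) : K) = 1 := by
        simp
      exact_mod_cast h2
    rw [← eq_inv_of_mul_eq_one_right h1]
    exact (((u⁻¹ : (B.comap f)ˣ)) : B.comap f).2

end Functoriality

end UnrG
end

section

/-!
# Unramified elements of a rational function field, and injectivity for finite extensions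
-/

namespace UnrG

universe u v w

open Polynomial

variable {m : ℕ}

section general

variable {K : Type u} {L : Type v} {κ : Type w} [Field K] [Field L] [Field κ]

lemma DVal.θ_const (hm : Any m) (D : DVal L κ) (f : K →+* L) (j : K →+* κ)
    (hv : ∀ a : K, a ≠ 0 → D.v (f a) = 0) (hρ : ∀ a : K, a ≠ 0 → D.ρ (f a) = j a)
    (x : KM m K) : D.θ hm (KM.map m f x) = ⟨KM.map m j x, 0⟩ := by
  have h : (D.θ hm).comp (KM.map m f) = (KMX.const m κ).comp (KM.map m j) := by
    apply algHom_ext'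
    intro a ha
    have hfa : f a ≠ 0 := (map_ne_zero f).mpr ha
    rw [AlgHom.comp_apply, AlgHom.comp_apply, KM.map_sym, KM.map_sym, D.θ_sym hm hfa, hv a ha,
      hρ a ha]
    ext <;> simp
  exact congrArg (fun g : KM m K →ₐ[ZMod m] KMX m κ => g x) h

/-- Restriction of a discrete valuation to a subfield. -/
def DVal.comap (D : DVal L κ) (f : K →+* L) : DVal K κ where
  v x := D.v (f x)
  ρ := D.ρ.comp f.toMonoidWithZeroHom
  v_mul a b ha hb := by
    rw [map_mul, D.v_mul _ _ ((map_ne_zero f).mpr ha) ((map_ne_zero f).mpr hb)]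
  st a b ha hb hab := D.st (f a) (f b) ((map_ne_zero f).mpr ha) ((map_ne_zero f).mpr hb)
            (by rw [← map_add, hab, map_one])

end general

section hom

variable {R : Type w} {K : Type u} {κ : Type v} [CommRing R] [IsDomain R] [Field K] [Field κ]

lemma isFractionRing_of_hom (ι : R →+* K) (hι : Function.Injective ι)
    (hsurj : ∀ z : K, ∃ x y : R, z = ι x / ι y) :
    @IsFractionRing R _ K _ ι.toAlgebra := by
  letI := ι.toAlgebra
  haveI : FaithfulSMul R K := (faithfulSMul_iff_algebraMap_injective R K).mpr hι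
  exact IsFractionRing.of_field R K hsurj

/-- Variant of `DVal.ofPrime` with an explicit embedding of `R` in `K`. -/
noncomputable def DVal.ofHom (ι : R →+* K) (hι : Function.Injective ι)
    (hsurj : ∀ z : K, ∃ x y : R, z = ι x / ι y) (π : R →+* κ) (p : R) (hp : p ≠ 0)
    (hker : π p = 0)
    (hfin : ∀ a : R, a ≠ 0 → ∃ (n : ℕ) (u : R), a = p ^ n * u ∧ π u ≠ 0) : DVal K κ :=
  letI := ι.toAlgebra
  haveI := isFractionRing_of_hom ι hι hsurj
  DVal.ofPrime K π p hp hker hfin

lemma DVal.ofHom_eq (ι : R →+* K) (hι : Function.Injective ι)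
    (hsurj : ∀ z : K, ∃ x y : R, z = ι x / ι y) (π : R →+* κ) (p : R) (hp : p ≠ 0)
    (hker : π p = 0)
    (hfin : ∀ a : R, a ≠ 0 → ∃ (n : ℕ) (u : R), a = p ^ n * u ∧ π u ≠ 0)
    {x : K} (n : ℤ) (u w : R) (hu : π u ≠ 0) (hw : π w ≠ 0)
    (hx : x = (ι p) ^ n * (ι u / ι w)) :
    (DVal.ofHom ι hι hsurj π p hp hker hfin).v x = n ∧
    (DVal.ofHom ι hι hsurj π p hp hker hfin).ρ x = π u / π w := by
  letI := ι.toAlgebra
  haveI := isFractionRing_of_hom ι hι hsurj
  have hu0 : u ≠ 0 := by rintro rfl; simp at hu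
  have hw0 : w ≠ 0 := by rintro rfl; simp at hw
  have hx0 : x ≠ 0 := by
    rw [hx]
    exact mul_ne_zero (zpow_ne_zero _ ((map_ne_zero_iff ι hι).mpr hp))
      (div_ne_zero ((map_ne_zero_iff ι hι).mpr hu0) ((map_ne_zero_iff ι hι).mpr hw0))
  exact DVal.ofPrime_eq π p hp hker hfin hx0 ⟨u, w, hu, hw, hx, rfl⟩

end hom

section zero

variable {K : Type u} [Field K]

lemma algebraMap_ratFunc_eq (a : K) :
    algebraMap K (RatFunc K) a = algebraMap K[X] (RatFunc K) (C a) :=
  IsScalarTower.algebraMap_apply K K[X] (RatFunc K) a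

/-- The valuation at `0` of the rational function field, with residue field `K`. -/
noncomputable def valZero (K : Type u) [Field K] : DVal (RatFunc K) K :=
  DVal.ofPrime (RatFunc K) (evalRingHom (0 : K)) X X_ne_zero (by simp)
    (by
      intro a ha
      obtain ⟨n, c, hc, h⟩ := WfDvdMonoid.max_power_factor ha (Polynomial.irreducible_X)
      refine ⟨n, c, h, ?_⟩
      rw [X_dvd_iff, coeff_zero_eq_eval_zero] at hc
      simpa using hc)

lemma valZero_eq {x : RatFunc K} (n : ℤ) (u w : K[X]) (hu : u.eval 0 ≠ 0) (hw : w.eval 0 ≠ 0)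
    (hx : x = (algebraMap K[X] (RatFunc K) X) ^ n *
      (algebraMap K[X] (RatFunc K) u / algebraMap K[X] (RatFunc K) w)) :
    (valZero K).v x = n ∧ (valZero K).ρ x = u.eval 0 / w.eval 0 := by
  have hu0 : u ≠ 0 := by rintro rfl; simp at hu
  have hw0 : w ≠ 0 := by rintro rfl; simp at hw
  have hx0 : x ≠ 0 := by
    rw [hx]
    exact mul_ne_zero (zpow_ne_zero _ (by simpa using RatFunc.X_ne_zero))
      (div_ne_zero (by simpa using hu0) (by simpa using hw0))
  exact DVal.ofPrime_eq (K := RatFunc K) (evalRingHom (0 : K)) X _ _ _ hx0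
    ⟨u, w, hu, hw, hx, rfl⟩

lemma valZero_const {a : K} (ha : a ≠ 0) :
    (valZero K).v (algebraMap K (RatFunc K) a) = 0 ∧
    (valZero K).ρ (algebraMap K (RatFunc K) a) = a := by
  have := valZero_eq (x := algebraMap K (RatFunc K) a) 0 (C a) 1 (by simpa using ha) (by simp)
    (by simp)
  simpa using this

/-- The K-ring of `K` injects in the K-ring of `K(t)`. -/
theorem map_ratFunc_injective (hm : Any m) :
    Function.Injective (KM.map m (algebraMap K (RatFunc K))) := by
  intro x y hxy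
  have h : ∀ z : KM m K, (valZero K).spec hm (KM.map m (algebraMap K (RatFunc K)) z) = z := by
    intro z
    rw [DVal.spec_apply, (valZero K).θ_const hm _ (RingHom.id K)
      (fun a ha => (valZero_const ha).1) (fun a ha => (valZero_const ha).2)]
    simp
  rw [← h x, ← h y, hxy]

end zero

section descent

variable {K L : Type u} [Field K] [Field L]

/-- Descent of unramifiedness along an extension of valuations with ramification index prime
to `m` and injective residue extension. -/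
lemma unrAt_of_map (hm : Any m) (f : K →+* L) (A : ValuationSubring K)
    [IsDiscreteValuationRing A] (ϖ : A) (hϖ : Irreducible ϖ) {κ' : Type u} [Field κ']
    (D' : DVal L κ') {ϖ' : L} (hϖ'0 : ϖ' ≠ 0) (hϖ' : D'.v ϖ' = 1)
    (j : IsLocalRing.ResidueField A →+* κ')
    (e : ℤ) (c : κ') (hc : c ≠ 0)
    (hv : ∀ a : K, a ≠ 0 → D'.v (f a) = e * (DVal.ofDVR A ϖ hϖ).v a)
    (hρ : ∀ a : K, a ≠ 0 → D'.ρ (f a) = j ((DVal.ofDVR A ϖ hϖ).ρ a) * c ^ ((DVal.ofDVR A ϖ hϖ).v a))
    (he : IsUnit ((e : ℤ) : ZMod m)) (hj : Function.Injective (KM.map m j))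
    {y : KM m K} (hy : Unr (KM.map m f y)) : UnrAt m A y := by
  rw [unrAt_iff_res A ϖ hϖ hm]
  have h1 := hy.res_eq_zero D' hm hϖ'0 hϖ'
  rw [DVal.res_map hm (DVal.ofDVR A ϖ hϖ) D' f j e c hc hv hρ] at h1
  obtain ⟨e', he'⟩ := he
  rw [← he'] at h1
  have h2 := congrArg (fun z => ((e'⁻¹ : (ZMod m)ˣ) : ZMod m) • z) h1
  simp only [smul_smul, Units.inv_mul, one_smul, smul_zero] at h2
  apply hj
  rw [h2, map_zero]

end descent

section gauss

variable {K : Type u} [Field K] (A : ValuationSubring K)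

/-- The embedding of `A[X]` in `K(X)`. -/
noncomputable def gaussEmb : A[X] →+* RatFunc K :=
  (algebraMap K[X] (RatFunc K)).comp (mapRingHom A.subtype)

lemma gaussEmb_injective : Function.Injective (gaussEmb A) := by
  unfold gaussEmb
  rw [RingHom.coe_comp]
  exact (IsFractionRing.injective K[X] (RatFunc K)).comp
    (Polynomial.map_injective _ (ValuationSubring.subtype_injective A))

lemma gaussEmb_surj (z : RatFunc K) : ∃ x y : A[X], z = gaussEmb A x / gaussEmb A y := by
  have key : ∀ f : K[X], ∃ (b : A) (g : A[X]), b ≠ 0 ∧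
      mapRingHom A.subtype g = C (b : K) * f := by
    intro f
    obtain ⟨b, hb, h⟩ := IsLocalization.integerNormalization_spec (nonZeroDivisors A) f
    refine ⟨b, IsLocalization.integerNormalization (nonZeroDivisors A) f,
      nonZeroDivisors.ne_zero hb, ?_⟩
    rw [← smul_eq_C_mul]
    exact h
  obtain ⟨f, g, hg, rfl⟩ := IsFractionRing.div_surjective (A := K[X]) z
  obtain ⟨b, f', hb, hf'⟩ := key f
  obtain ⟨c, g', hc, hg'⟩ := key g
  have hb' : (b : K) ≠ 0 := by simpa using hb
  have hc' : (c : K) ≠ 0 := by simpa using hc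
  have hcC : algebraMap K[X] (RatFunc K) (C (c : K)) ≠ 0 := by simpa using hc'
  have hbC : algebraMap K[X] (RatFunc K) (C (b : K)) ≠ 0 := by simpa using hb'
  refine ⟨C c * f', C b * g', ?_⟩
  simp only [gaussEmb, RingHom.comp_apply, map_mul, hf', hg']
  simp only [coe_mapRingHom, map_C]
  change _ = (algebraMap K[X] (RatFunc K) (C (c : K)) * (algebraMap K[X] (RatFunc K) (C (b : K)) *
    algebraMap K[X] (RatFunc K) f)) / (algebraMap K[X] (RatFunc K) (C (b : K)) *
    (algebraMap K[X] (RatFunc K) (C (c : K)) * algebraMap K[X] (RatFunc K) g))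
  have hg0 : algebraMap K[X] (RatFunc K) g ≠ 0 := by simpa using nonZeroDivisors.ne_zero hg
  field_simp

variable [IsDiscreteValuationRing A] (ϖ : A) (hϖ : Irreducible ϖ)

/-- The reduction `A[X] → κ(X)`. -/
noncomputable def gaussRed : A[X] →+* RatFunc (IsLocalRing.ResidueField A) :=
  (algebraMap (IsLocalRing.ResidueField A)[X] (RatFunc (IsLocalRing.ResidueField A))).comp
    (mapRingHom (IsLocalRing.residue A))

include hϖ in
lemma gaussRed_eq_zero_iff (f : A[X]) : gaussRed A f = 0 ↔ C ϖ ∣ f := by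
  unfold gaussRed
  rw [RingHom.comp_apply, map_eq_zero_iff _ (IsFractionRing.injective _ _),
    Polynomial.C_dvd_iff_dvd_coeff, coe_mapRingHom, Polynomial.ext_iff]
  apply forall_congr'
  intro i
  rw [coeff_map, coeff_zero, IsLocalRing.residue_eq_zero_iff, hϖ.maximalIdeal_eq,
    Ideal.mem_span_singleton]

/-- The Gauss valuation. -/
noncomputable def gaussVal : DVal (RatFunc K) (RatFunc (IsLocalRing.ResidueField A)) :=
  DVal.ofHom (gaussEmb A) (gaussEmb_injective A) (gaussEmb_surj A) (gaussRed A) (C ϖ)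
    (by simpa using hϖ.ne_zero) (by rw [gaussRed_eq_zero_iff A ϖ hϖ])
    (by
      intro a ha
      have hC : ¬ IsUnit (C ϖ : A[X]) := by
        rw [Polynomial.isUnit_C]; exact hϖ.not_isUnit
      obtain ⟨n, c, hc, h⟩ := WfDvdMonoid.max_power_factor' ha hC
      exact ⟨n, c, h, by rwa [Ne, gaussRed_eq_zero_iff A ϖ hϖ]⟩)

lemma gaussVal_const {a : K} (ha : a ≠ 0) :
    (gaussVal A ϖ hϖ).v (algebraMap K (RatFunc K) a) = (DVal.ofDVR A ϖ hϖ).v a ∧
    (gaussVal A ϖ hϖ).ρ (algebraMap K (RatFunc K) a) =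
      algebraMap _ (RatFunc (IsLocalRing.ResidueField A)) ((DVal.ofDVR A ϖ hϖ).ρ a) := by
  obtain ⟨u, w, hu, hw, h1, h2⟩ : Rep (IsLocalRing.residue A) ϖ a ((DVal.ofDVR A ϖ hϖ).v a)
    ((DVal.ofDVR A ϖ hϖ).ρ a) := DVal.ofPrime_rep (K := K) (IsLocalRing.residue A) ϖ _ _ _ ha
  have hC : ∀ x : A, gaussEmb A (C x) = algebraMap K (RatFunc K) (x : K) := by
    intro x
    simp [gaussEmb, RatFunc.algebraMap_C]
  have hR : ∀ x : A, gaussRed A (C x) = algebraMap _ (RatFunc (IsLocalRing.ResidueField A))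
      (IsLocalRing.residue A x) := by
    intro x
    simp [gaussRed, RatFunc.algebraMap_C]
  have h3 := DVal.ofHom_eq (gaussEmb A) (gaussEmb_injective A) (gaussEmb_surj A) (gaussRed A)
    (C ϖ) (by simpa using hϖ.ne_zero) (by rw [gaussRed_eq_zero_iff A ϖ hϖ])
    (by
      intro a ha
      have hC : ¬ IsUnit (C ϖ : A[X]) := by
        rw [Polynomial.isUnit_C]; exact hϖ.not_isUnit
      obtain ⟨n, c, hc, h⟩ := WfDvdMonoid.max_power_factor' ha hC
      exact ⟨n, c, h, by rwa [Ne, gaussRed_eq_zero_iff A ϖ hϖ]⟩)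
    (x := algebraMap K (RatFunc K) a) ((DVal.ofDVR A ϖ hϖ).v a) (C u) (C w)
    (by rw [hR]; simpa using hu) (by rw [hR]; simpa using hw)
    (by
      rw [hC, hC, hC, ← map_zpow₀, ← map_div₀, ← map_mul]
      congr 1)
  refine ⟨h3.1, ?_⟩
  rw [h2, map_div₀, ← hR, ← hR]
  exact h3.2

end gauss

section ratfunc

variable {K : Type u} [Field K]

/-- Unramifiedness can be tested after a purely transcendental extension. -/
theorem unr_of_map_ratFunc (hm : Any m) {y : KM m K}
    (hy : Unr (KM.map m (algebraMap K (RatFunc K)) y)) : Unr y := by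
  intro A hA
  obtain ⟨ϖ, hϖ⟩ := IsDiscreteValuationRing.exists_irreducible A
  have hϖ0 : (ϖ : K) ≠ 0 := by simpa using hϖ.ne_zero
  refine unrAt_of_map hm (algebraMap K (RatFunc K)) A ϖ hϖ (gaussVal A ϖ hϖ)
    (ϖ' := algebraMap K (RatFunc K) ϖ) (by simpa using hϖ0) ?_
    (algebraMap (IsLocalRing.ResidueField A) (RatFunc (IsLocalRing.ResidueField A))) 1 1
    one_ne_zero ?_ ?_ (by simp) (map_ratFunc_injective hm) hy
  · rw [(gaussVal_const A ϖ hϖ hϖ0).1, DVal.ofDVR_v_self]
  · intro a ha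
    rw [(gaussVal_const A ϖ hϖ ha).1, one_mul]
  · intro a ha
    rw [(gaussVal_const A ϖ hϖ ha).2, one_zpow, mul_one]

/-- Unramified elements of `K(t)` come from unramified elements of `K`. -/
theorem unr_ratFunc (hm : Any m) {x : KM m (RatFunc K)} (hx : Unr x) :
    ∃ y : KM m K, Unr y ∧ KM.map m (algebraMap K (RatFunc K)) y = x := by
  obtain ⟨y, hy⟩ := milnor hm x (by
    intro p hpm hp
    exact hx.res_eq_zero (placeVal p) hm (ϖ := algebraMap K[X] (RatFunc K) p)
      (by simpa using hp.out.ne_zero) (placeVal_v_self p))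
  exact ⟨y, unr_of_map_ratFunc hm (by rw [hy]; exact hx), hy⟩

end ratfunc

section inj

variable {K : Type u} [Field K]

/-- The automorphism `t ↦ 1/t` of the rational function field. -/
noncomputable def ratInv (K : Type u) [Field K] : RatFunc K →+* RatFunc K :=
  IsFractionRing.lift (A := K[X]) (g := (aeval (RatFunc.X⁻¹ : RatFunc K) : K[X] →ₐ[K] RatFunc K).toRingHom)
    (by
      have h : Transcendental K (RatFunc.X⁻¹ : RatFunc K) := by
        intro h
        exact RatFunc.transcendental_X (by simpa using h.inv)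
      exact transcendental_iff_injective.mp h)

lemma ratInv_algebraMap (f : K[X]) :
    ratInv K (algebraMap K[X] (RatFunc K) f) = aeval (RatFunc.X⁻¹ : RatFunc K) f := by
  unfold ratInv
  rw [IsFractionRing.lift_algebraMap]
  rfl

/-- The valuation at infinity of the rational function field. -/
noncomputable def valInfty (K : Type u) [Field K] : DVal (RatFunc K) K :=
  (valZero K).comap (ratInv K)

lemma valInfty_const {a : K} (ha : a ≠ 0) :
    (valInfty K).v (algebraMap K (RatFunc K) a) = 0 ∧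
    (valInfty K).ρ (algebraMap K (RatFunc K) a) = a := by
  have h : ratInv K (algebraMap K (RatFunc K) a) = algebraMap K (RatFunc K) a := by
    rw [algebraMap_ratFunc_eq, ratInv_algebraMap, aeval_C, algebraMap_ratFunc_eq]
  unfold valInfty DVal.comap
  simp only [MonoidWithZeroHom.comp_apply]
  change (valZero K).v (ratInv K (algebraMap K (RatFunc K) a)) = 0 ∧
    (valZero K).ρ (ratInv K (algebraMap K (RatFunc K) a)) = a
  rw [h]
  exact valZero_const ha

lemma valInfty_monic {p : K[X]} (hp : p.Monic) :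
    (valInfty K).v (algebraMap K[X] (RatFunc K) p) = - p.natDegree ∧
    (valInfty K).ρ (algebraMap K[X] (RatFunc K) p) = 1 := by
  change (valZero K).v (ratInv K (algebraMap K[X] (RatFunc K) p)) = _ ∧
    (valZero K).ρ (ratInv K (algebraMap K[X] (RatFunc K) p)) = _
  have hX : (RatFunc.X⁻¹ : RatFunc K) ≠ 0 := inv_ne_zero RatFunc.X_ne_zero
  have h1 := valZero_eq (x := ratInv K (algebraMap K[X] (RatFunc K) p)) (-(p.natDegree : ℤ))
    p.reverse 1 (by rw [← coeff_zero_eq_eval_zero, coeff_zero_reverse, hp.leadingCoeff]; simp)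
    (by simp) (by
      rw [ratInv_algebraMap, map_one, div_one]
      letI : Invertible (RatFunc.X⁻¹ : RatFunc K) := invertibleOfNonzero hX
      have h2 := eval₂_reverse_mul_pow (algebraMap K (RatFunc K)) (RatFunc.X⁻¹ : RatFunc K) p
      rw [← aeval_def, ← aeval_def] at h2
      rw [← h2, zpow_neg, zpow_natCast, mul_comm]
      have h3 : ⅟(RatFunc.X⁻¹ : RatFunc K) = RatFunc.X := by
        rw [invOf_eq_inv, inv_inv]
      rw [h3, RatFunc.algebraMap_X, inv_pow]
      congr 1
      have h4 : ∀ q : K[X], aeval (RatFunc.X : RatFunc K) q = algebraMap K[X] (RatFunc K) q := by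
        intro q
        rw [← RatFunc.algebraMap_X, aeval_algebraMap_apply, aeval_X_left_apply]
      exact h4 _)
  refine ⟨h1.1, ?_⟩
  rw [h1.2, ← coeff_zero_eq_eval_zero, coeff_zero_reverse, hp.leadingCoeff]
  simp

/-- The K-ring of `K` modulo `m` injects in that of a simple extension of degree prime
to `m`. -/
theorem adjoinRoot_injective (hm : Any m) (p : K[X]) [hp : Fact (Irreducible p)] (hpm : p.Monic)
    (hdeg : p.natDegree.Coprime m) {y : KM m K} (hy : KM.map m (AdjoinRoot.of p) y = 0) :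
    y = 0 := by
  set s := sym m (algebraMap K[X] (RatFunc K) p) with hs
  have hpK : algebraMap K[X] (RatFunc K) p ≠ 0 := by simpa using hp.out.ne_zero
  have hconst : ∀ (q : K[X]) [Fact (Irreducible q)],
      (placeVal q).θ hm (KM.map m (algebraMap K (RatFunc K)) y) =
        ⟨KM.map m (AdjoinRoot.of q) y, 0⟩ := by
    intro q hq
    have hnd : ∀ a : K, a ≠ 0 → ¬ q ∣ C a := fun a ha h => by
      have h1 := isUnit_of_dvd_unit h (isUnit_C.mpr (isUnit_iff_ne_zero.mpr ha))
      exact hq.out.not_isUnit h1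
    apply DVal.θ_const
    · intro a ha
      rw [algebraMap_ratFunc_eq]
      exact (placeVal_unit q (hnd a ha)).1
    · intro a ha
      rw [algebraMap_ratFunc_eq]
      exact (placeVal_unit q (hnd a ha)).2
  obtain ⟨w, hw⟩ := milnor hm (KM.map m (algebraMap K (RatFunc K)) y * s) (by
    intro q hqm hq
    rw [DVal.res, map_mul, hconst q, hs, DVal.θ_sym _ hm hpK, KMX.mul_snd]
    by_cases hqp : q ∣ p
    · have h1 : q = p := eq_of_monic_of_associated hqm hpm (hq.out.associated_of_dvd hp.out hqp)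
      subst h1
      rw [hy]
      simp
    · rw [(placeVal_unit q hqp).1]
      simp)
  have h1 := (valInfty K).θ_const hm (algebraMap K (RatFunc K)) (RingHom.id K)
    (fun a ha => (valInfty_const ha).1) (fun a ha => (valInfty_const ha).2)
  have h2 : ((valInfty K).θ hm (KM.map m (algebraMap K (RatFunc K)) w)).snd =
      ((valInfty K).θ hm (KM.map m (algebraMap K (RatFunc K)) y * s)).snd := by rw [hw]
  rw [map_mul, h1, h1, hs, DVal.θ_sym _ hm hpK, KMX.mul_snd, (valInfty_monic hpm).1] at h2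
  simp only [KM.map_id, AlgHom.id_apply, zero_mul, add_zero, mul_smul_comm, mul_one] at h2
  apply smul_eq_zero_of_coprime hdeg
  rw [← Nat.cast_smul_eq_nsmul (ZMod m)]
  push_cast at h2
  rw [neg_smul, eq_comm, neg_eq_zero] at h2
  exact h2

/-- Injectivity for a simple extension of degree prime to `m`, in terms of a generator. -/
theorem map_injective_of_root (hm : Any m) {L : Type v} [Field L] (j : K →+* L) (p : K[X])
    (hp : Irreducible p) (hpm : p.Monic) (hdeg : p.natDegree.Coprime m) (θ : L)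
    (hθ : p.eval₂ j θ = 0) (hgen : ∀ z : L, ∃ f : K[X], z = f.eval₂ j θ) :
    Function.Injective (KM.map m j) := by
  have : Fact (Irreducible p) := ⟨hp⟩
  let ψ : AdjoinRoot p →+* L := AdjoinRoot.lift j θ hθ
  have hψ : Function.Bijective ψ := by
    refine ⟨ψ.injective, ?_⟩
    intro z
    obtain ⟨f, rfl⟩ := hgen z
    exact ⟨AdjoinRoot.mk p f, AdjoinRoot.lift_mk hθ f⟩
  let e := RingEquiv.ofBijective ψ hψ
  have he : (e.symm : L →+* AdjoinRoot p).comp j = AdjoinRoot.of p := by
    ext a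
    rw [RingHom.comp_apply]
    change e.symm (j a) = _
    rw [RingEquiv.symm_apply_eq]
    change j a = ψ (AdjoinRoot.of p a)
    exact (AdjoinRoot.lift_of hθ).symm
  rw [injective_iff_map_eq_zero]
  intro y hy
  apply adjoinRoot_injective hm p hpm hdeg
  rw [← he, ← KM.map_map, hy, map_zero]

end inj

end UnrG
end

section

/-!
# Elements of the K-ring of `K(t)` with prescribed residues
-/

namespace UnrG

universe u v w

open Polynomial
open scoped Classical

variable {m : ℕ}

section linear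

variable {K : Type u} {κ : Type v} [Field K] [Field κ]

/-- The tame residue as a linear map. -/
noncomputable def DVal.resL (hm : Any m) (D : DVal K κ) : KM m K →ₗ[ZMod m] KM m κ :=
  (KMX.sndHom m κ).comp (D.θ hm).toLinearMap

lemma DVal.resL_apply (hm : Any m) (D : DVal K κ) (x : KM m K) : D.resL hm x = D.res hm x := rfl

lemma DVal.res_add (hm : Any m) (D : DVal K κ) (x y : KM m K) :
    D.res hm (x + y) = D.res hm x + D.res hm y := map_add (D.resL hm) x y

lemma DVal.res_sub (hm : Any m) (D : DVal K κ) (x y : KM m K) :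
    D.res hm (x - y) = D.res hm x - D.res hm y := map_sub (D.resL hm) x y

lemma DVal.res_sum (hm : Any m) (D : DVal K κ) {ι : Type*} (s : Finset ι) (f : ι → KM m K) :
    D.res hm (∑ i ∈ s, f i) = ∑ i ∈ s, D.res hm (f i) := map_sum (D.resL hm) f s

lemma DVal.res_zero (hm : Any m) (D : DVal K κ) : D.res hm 0 = 0 := map_zero (D.resL hm)

/-- Residue of a product with a symbol. -/
lemma DVal.res_mul_sym (hm : Any m) (D : DVal K κ) (x : KM m K) {a : K} (ha : a ≠ 0)
    (hx : D.res hm x = 0) :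
    D.res hm (x * sym m a) = ((D.v a : ℤ) : ZMod m) • D.spec hm x := by
  rw [DVal.res] at hx ⊢
  rw [map_mul, D.θ_sym hm ha, KMX.mul_snd, hx, zero_mul, add_zero, mul_smul_comm, mul_one,
    DVal.spec_apply]

end linear

variable {K : Type u} [Field K]

lemma not_dvd_of_monic {p q : K[X]} (hp : Irreducible p) (hpm : p.Monic) (hq : Irreducible q)
    (hqm : q.Monic) (hne : q ≠ p) : ¬ q ∣ p := fun h =>
  hne (eq_of_monic_of_associated hqm hpm (hq.associated_of_dvd hp h))

/-- Almost all residues of a class vanish. -/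
lemma finite_residues (hm : Any m) (x : KM m (RatFunc K)) :
    ∃ S : Finset K[X], ∀ (q : K[X]) (_ : q.Monic) (hq : Fact (Irreducible q)), q ∉ S →
      (placeVal q).res hm x = 0 := by
  induction x using KM.induction with
  | h0 r =>
    refine ⟨∅, fun q _ hq _ => ?_⟩
    rw [DVal.res, AlgHom.commutes, KMX.algebraMap_eq]
  | hadd x y hx hy =>
    obtain ⟨S, hS⟩ := hx
    obtain ⟨T, hT⟩ := hy
    refine ⟨S ∪ T, fun q hqm hq hqS => ?_⟩
    rw [DVal.res_add, hS q hqm hq (fun h => hqS (Finset.mem_union_left _ h)),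
      hT q hqm hq (fun h => hqS (Finset.mem_union_right _ h)), add_zero]
  | hsmul r x hx =>
    obtain ⟨S, hS⟩ := hx
    refine ⟨S, fun q hqm hq hqS => ?_⟩
    rw [← DVal.resL_apply, map_smul, DVal.resL_apply, hS q hqm hq hqS, smul_zero]
  | hmul a x ha hx =>
    obtain ⟨S, hS⟩ := hx
    obtain ⟨f, g, hg, rfl⟩ := IsFractionRing.div_surjective (A := K[X]) a
    have hg0 : g ≠ 0 := nonZeroDivisors.ne_zero hg
    have hf0 : f ≠ 0 := by rintro rfl; simp at ha
    have ef : algebraMap K[X] (RatFunc K) f ≠ 0 := by simpa using hf0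
    have eg : algebraMap K[X] (RatFunc K) g ≠ 0 := by simpa using hg0
    refine ⟨S ∪ (UniqueFactorizationMonoid.normalizedFactors (f * g)).toFinset,
      fun q hqm hq hqS => ?_⟩
    have h1 : ¬ q ∣ f * g := by
      intro h
      apply hqS
      apply Finset.mem_union_right
      rw [Multiset.mem_toFinset, Polynomial.mem_normalizedFactors_iff (mul_ne_zero hf0 hg0)]
      exact ⟨hq.out, hqm, h⟩
    have h2 := (placeVal_unit q (fun h => h1 (h.mul_right g))).1
    have h3 := (placeVal_unit q (fun h => h1 (h.mul_left f))).1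
    have h4 : (placeVal q).v (algebraMap K[X] (RatFunc K) f / algebraMap K[X] (RatFunc K) g) = 0 := by
      rw [DVal.v_div _ ef eg, h2, h3, sub_zero]
    have h5 := hS q hqm hq (fun h => hqS (Finset.mem_union_left _ h))
    rw [DVal.res] at h5 ⊢
    rw [map_mul, DVal.θ_sym _ hm ha, KMX.mul_snd, h5, h4]
    simp

/-- Classes of the residue field lift to the classes of polynomials of small degree. -/
lemma exists_lift_Lsub (hm : Any m) {d : ℕ} (p : K[X]) [hp : Fact (Irreducible p)]
    (hpm : p.Monic) (hd : p.natDegree = d + 1) (y : KM m (AdjoinRoot p)) :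
    ∃ w ∈ Lsub m K d, (placeVal p).spec hm w = y := by
  have hp1 : p ≠ 1 := by rintro rfl; simp at hd
  induction y using KM.induction with
  | h0 r => exact ⟨algebraMap _ _ r, Subalgebra.algebraMap_mem _ r, AlgHom.commutes _ r⟩
  | hadd x y hx hy =>
    obtain ⟨a, ha, rfl⟩ := hx
    obtain ⟨b, hb, rfl⟩ := hy
    exact ⟨a + b, add_mem ha hb, map_add _ _ _⟩
  | hsmul r x hx =>
    obtain ⟨a, ha, rfl⟩ := hx
    exact ⟨r • a, Subalgebra.smul_mem _ ha r, map_smul _ _ _⟩
  | hmul g x hg hx =>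
    obtain ⟨a, ha, rfl⟩ := hx
    set G := AdjoinRoot.modByMonicHom hpm g with hG
    have hmk : AdjoinRoot.mk p G = g := AdjoinRoot.mk_leftInverse hpm g
    have hG0 : G ≠ 0 := by
      intro h
      apply hg
      rw [← hmk, h, map_zero]
    have hGd : G.natDegree ≤ d := by
      obtain ⟨f, rfl⟩ := AdjoinRoot.mk_surjective g
      rw [hG, AdjoinRoot.modByMonicHom_mk]
      have := natDegree_modByMonic_lt f hpm hp1
      omega
    refine ⟨sym m (algebraMap K[X] (RatFunc K) G) * a, mul_mem (sym_mem_Lsub hGd) ha, ?_⟩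
    rw [map_mul, DVal.spec_apply _ hm (sym m _), DVal.θ_sym _ hm (by simpa using hG0),
      (placeVal_unit p (not_dvd_of_natDegree_lt hG0 (by omega))).2, hmk]

/-- Prescribing the residues at the polynomials of a given degree. -/
lemma exists_match_degree (hm : Any m) (d : ℕ) (x : KM m (RatFunc K)) :
    ∃ z : KM m (RatFunc K), (∀ (q : K[X]) (_ : q.Monic) (hq : Fact (Irreducible q)),
      q.natDegree = d + 1 → (placeVal q).res hm z = (placeVal q).res hm x) ∧
      ∀ (q : K[X]) (_ : q.Monic) (hq : Fact (Irreducible q)), d + 1 < q.natDegree →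
        (placeVal q).res hm z = 0 := by
  obtain ⟨S, hS⟩ := finite_residues hm x
  have hlift : ∀ q : MonicIrr K (d + 1), ∃ w ∈ Lsub m K d, ∀ hq : Fact (Irreducible q.1),
      (placeVal q.1).spec hm w = (placeVal q.1).res hm x := by
    intro q
    haveI : Fact (Irreducible q.1) := ⟨q.2.2.1⟩
    obtain ⟨w, hw, h⟩ := exists_lift_Lsub hm q.1 q.2.1 q.2.2.2 ((placeVal q.1).res hm x)
    exact ⟨w, hw, fun _ => h⟩
  choose W hW hWs using hlift
  set S' : Finset (MonicIrr K (d + 1)) :=
    Finset.subtype (fun p => p.Monic ∧ Irreducible p ∧ p.natDegree = d + 1) S with hS'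
  have hmemS' : ∀ q : MonicIrr K (d + 1), q ∈ S' ↔ q.1 ∈ S := fun q => Finset.mem_subtype
  -- residues of one term
  have e0 : ∀ q : MonicIrr K (d + 1), algebraMap K[X] (RatFunc K) q.1 ≠ 0 := fun q => by
    simpa using q.2.2.1.ne_zero
  have hterm : ∀ (q : MonicIrr K (d + 1)) (q' : K[X]) (_ : q'.Monic) (hq' : Fact (Irreducible q')),
      d < q'.natDegree → q' ≠ q.1 →
      (placeVal q').res hm (W q * sym m (algebraMap K[X] (RatFunc K) q.1)) = 0 := by
    intro q q' hqm' hq' hd hne
    rw [DVal.res_mul_sym hm _ _ (e0 q) (θ_snd_of_mem_Lsub hm hd (hW q)),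
      (placeVal_unit q' (not_dvd_of_monic q.2.2.1 q.2.1 hq'.out hqm' hne)).1]
    simp
  have hself : ∀ (q : MonicIrr K (d + 1)) (hq : Fact (Irreducible q.1)),
      (placeVal q.1).res hm (W q * sym m (algebraMap K[X] (RatFunc K) q.1)) =
        (placeVal q.1).res hm x := by
    intro q hq
    have hd : d < q.1.natDegree := by rw [q.2.2.2]; omega
    rw [DVal.res_mul_sym hm _ _ (e0 q) (θ_snd_of_mem_Lsub hm hd (hW q)), placeVal_v_self,
      hWs q hq]
    simp
  refine ⟨∑ q ∈ S', W q * sym m (algebraMap K[X] (RatFunc K) q.1), ?_, ?_⟩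
  · intro q hqm hq hqd
    obtain ⟨q₀, hq₀⟩ : ∃ q₀ : MonicIrr K (d + 1), q₀.1 = q := ⟨⟨q, hqm, hq.out, hqd⟩, rfl⟩
    subst hq₀
    rw [DVal.res_sum]
    have hd : d < q₀.1.natDegree := by omega
    by_cases hmem : q₀ ∈ S'
    · rw [Finset.sum_eq_single q₀ (fun i _ hi => hterm i q₀.1 hqm hq hd
        (fun h => hi (Subtype.ext h.symm))) (fun h => absurd hmem h), hself]
    · rw [Finset.sum_eq_zero, hS q₀.1 hqm hq (fun h => hmem ((hmemS' q₀).mpr h))]
      intro i hi
      apply hterm i q₀.1 hqm hq hd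
      intro h
      apply hmem
      rw [Subtype.ext h]
      exact hi
  · intro q hqm hq hqd
    rw [DVal.res_sum]
    apply Finset.sum_eq_zero
    intro i _
    apply hterm i q hqm hq (by omega)
    rintro rfl
    rw [i.2.2.2] at hqd
    omega

/-- Prescribing the residues at the polynomials of bounded degree. -/
lemma exists_match (hm : Any m) (d : ℕ) : ∀ x : KM m (RatFunc K),
    ∃ z : KM m (RatFunc K), (∀ (q : K[X]) (_ : q.Monic) (hq : Fact (Irreducible q)),
      q.natDegree ≤ d → (placeVal q).res hm z = (placeVal q).res hm x) ∧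
      ∀ (q : K[X]) (_ : q.Monic) (hq : Fact (Irreducible q)), d < q.natDegree →
        (placeVal q).res hm z = 0 := by
  induction d with
  | zero =>
    intro x
    refine ⟨0, fun q _ hq h => ?_, fun q _ hq _ => DVal.res_zero hm _⟩
    have := hq.out.natDegree_pos
    omega
  | succ d ih =>
    intro x
    obtain ⟨z₁, h1, h2⟩ := exists_match_degree hm d x
    obtain ⟨z₂, h3, h4⟩ := ih (x - z₁)
    refine ⟨z₁ + z₂, fun q hqm hq hqd => ?_, fun q hqm hq hqd => ?_⟩
    · rw [DVal.res_add]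
      by_cases h5 : q.natDegree ≤ d
      · rw [h3 q hqm hq h5, DVal.res_sub]; abel
      · rw [h1 q hqm hq (by omega), h4 q hqm hq (by omega), add_zero]
    · rw [DVal.res_add, h2 q hqm hq hqd, h4 q hqm hq (by omega), add_zero]

/-- There is a class with one prescribed residue and no other finite residue. -/
theorem exists_single_residue (hm : Any m) (p : K[X]) [hp : Fact (Irreducible p)]
    (hpm : p.Monic) (y : KM m (AdjoinRoot p)) :
    ∃ z : KM m (RatFunc K), (placeVal p).res hm z = y ∧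
      ∀ (q : K[X]) (_ : q.Monic) (hq : Fact (Irreducible q)), q ≠ p →
        (placeVal q).res hm z = 0 := by
  obtain ⟨d, hd⟩ : ∃ d, p.natDegree = d + 1 := ⟨p.natDegree - 1, by
    have := hp.out.natDegree_pos
    omega⟩
  obtain ⟨w, hw, hwy⟩ := exists_lift_Lsub hm p hpm hd y
  have ep : algebraMap K[X] (RatFunc K) p ≠ 0 := by simpa using hp.out.ne_zero
  set z₀ := w * sym m (algebraMap K[X] (RatFunc K) p) with hz₀
  obtain ⟨z₁, h1, h2⟩ := exists_match hm d z₀
  refine ⟨z₀ - z₁, ?_, ?_⟩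
  · have hd' : d < p.natDegree := by omega
    rw [DVal.res_sub, h2 p hpm hp hd', sub_zero, hz₀,
      DVal.res_mul_sym hm _ _ ep (θ_snd_of_mem_Lsub hm hd' hw), placeVal_v_self, hwy]
    simp
  · intro q hqm hq hne
    rw [DVal.res_sub]
    by_cases hqd : q.natDegree ≤ d
    · rw [h1 q hqm hq hqd, sub_self]
    · rw [h2 q hqm hq (by omega), sub_zero, hz₀,
        DVal.res_mul_sym hm _ _ ep (θ_snd_of_mem_Lsub hm (by omega) hw),
        (placeVal_unit q (not_dvd_of_monic hp.out hpm hq.out hqm hne)).1]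
      simp

end UnrG
end
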