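import Mathlib

section

/-!
# Relative algebraic closure as a closure operator on a field
-/

namespace UnrH3

universe u v w

variable {Ω : Type u} [Field Ω]

lemma isAlg_mono {F₁ F₂ : Subfield Ω} (h : F₁ ≤ F₂) {x : Ω} (hx : IsAlgebraic F₁ x) :
    IsAlgebraic F₂ x := by
  letI : Algebra F₁ F₂ := (Subfield.inclusion h).toAlgebra
  haveI : IsScalarTower F₁ F₂ Ω := IsScalarTower.of_algebraMap_eq (fun _ => rfl)
  exact hx.tower_top F₂

/-- The relative algebraic closure in `Ω` of the subfield generated by `T`. -/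
noncomputable def cl (T : Set Ω) : Subfield Ω := (algebraicClosure (Subfield.closure T) Ω).toSubfield

lemma mem_cl {T : Set Ω} {x : Ω} : x ∈ cl T ↔ IsAlgebraic (Subfield.closure T) x :=
  mem_algebraicClosure_iff (F := Subfield.closure T) (E := Ω)

lemma closure_le_cl (T : Set Ω) : Subfield.closure T ≤ cl T := by
  intro x hx
  rw [mem_cl]
  exact isAlgebraic_algebraMap (⟨x, hx⟩ : Subfield.closure T)

lemma subset_cl (T : Set Ω) : T ⊆ cl T :=
  Subfield.subset_closure.trans (closure_le_cl T)

lemma mem_cl_of_isAlg {T : Set Ω} {F : Subfield Ω} (hF : F ≤ cl T) {x : Ω}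
    (hx : IsAlgebraic F x) : x ∈ cl T := by
  rw [mem_cl]
  have h1 : IsAlgebraic (cl T) x := isAlg_mono hF hx
  have h2 : IsAlgebraic (algebraicClosure (Subfield.closure T) Ω) x := h1
  exact h2.restrictScalars (Subfield.closure T)

lemma cl_le {T T' : Set Ω} (h : T ⊆ cl T') : cl T ≤ cl T' := by
  intro x hx
  rw [mem_cl] at hx
  exact mem_cl_of_isAlg ((Subfield.closure_le).mpr h) hx

lemma cl_mono {T T' : Set Ω} (h : T ⊆ T') : cl T ≤ cl T' :=
  cl_le (h.trans (subset_cl T'))

lemma cl_exchange {T : Set Ω} {a b : Ω} (hb : b ∈ cl (insert a T)) (hb' : b ∉ cl T) :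
    a ∈ cl (insert b T) := by
  set F := Subfield.closure T with hF
  have key : ∀ c x : Ω, x ∈ cl (insert c T) ↔ IsAlgebraic (Algebra.adjoin F {c}) x := by
    intro c x
    rw [← IntermediateField.isAlgebraic_adjoin_iff, mem_cl]
    have h1 : Subfield.closure (insert c T) ≤ (IntermediateField.adjoin F {c}).toSubfield := by
      rw [Subfield.closure_le]
      rintro z (rfl | hz)
      · exact IntermediateField.subset_adjoin F {z} rfl
      · exact (IntermediateField.adjoin F {c}).algebraMap_mem
          (⟨z, Subfield.subset_closure hz⟩ : F)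
    have h2 : (IntermediateField.adjoin F {c}).toSubfield ≤ Subfield.closure (insert c T) := by
      apply IntermediateField.adjoin_le_subfield
      · rintro _ ⟨z, rfl⟩
        exact Subfield.closure_mono (Set.subset_insert _ _) z.2
      · rintro z rfl
        exact Subfield.subset_closure (Set.mem_insert _ _)
    constructor
    · intro h
      have h3 : IsAlgebraic (IntermediateField.adjoin F {c}).toSubfield x := isAlg_mono h1 h
      exact h3
    · intro h
      have h3 : IsAlgebraic (IntermediateField.adjoin F {c}).toSubfield x := h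
      exact isAlg_mono h2 h3
  by_contra ha
  have hab : a ≠ b := by
    rintro rfl
    exact ha (subset_cl _ (Set.mem_insert _ _))
  rw [key] at hb ha
  rw [mem_cl] at hb'
  have h1 : AlgebraicIndepOn F (id : Ω → Ω) {b} :=
    (algebraicIndependent_singleton_iff (⟨b, rfl⟩ : ({b} : Set Ω))).mpr hb'
  have h2 : AlgebraicIndepOn F (id : Ω → Ω) (insert a {b}) :=
    h1.insert (by rw [Set.image_id]; exact ha)
  rw [Set.pair_comm] at h2
  have h3 := ((AlgebraicIndepOn.insert_iff (by simpa using hab.symm)).mp h2).2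
  rw [Set.image_id] at h3
  exact h3 hb

end UnrH3
end

section

/-!
# The Milnor K-ring modulo an odd integer `m`

`KM m K` is the Milnor K-ring of the field `K` with coefficients in `ZMod m`: the unital
associative `ZMod m`-algebra generated by symbols `{a}`, `a` a unit of `K`, subject to
`{a b} = {a} + {b}` and to the Steinberg relation `{a}{b} = 0` when `a + b = 1`.
-/

namespace UnrH3

universe u v w

section Def

variable (m : ℕ) (K : Type u) [Field K]

/-- The defining relations of the Milnor K-ring with `ZMod m` coefficients. -/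
inductive KMRel : FreeAlgebra (ZMod m) Kˣ → FreeAlgebra (ZMod m) Kˣ → Prop
  | mul (a b : Kˣ) :
      KMRel (FreeAlgebra.ι (ZMod m) (a * b)) (FreeAlgebra.ι (ZMod m) a + FreeAlgebra.ι (ZMod m) b)
  | steinberg (a b : Kˣ) (h : (a : K) + (b : K) = 1) :
      KMRel (FreeAlgebra.ι (ZMod m) a * FreeAlgebra.ι (ZMod m) b) 0

/-- The Milnor K-ring of the field `K` with coefficients in `ZMod m`. -/
def KM : Type u := RingQuot (KMRel m K)

set_option warn.classDefReducibility false in
/-- The ring structure of the Milnor K-ring: that of the quotient. -/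
noncomputable def KM.ring : Ring (KM m K) := RingQuot.instRing (KMRel m K)

noncomputable instance KM.instRing : Ring (KM m K) := KM.ring m K

set_option warn.classDefReducibility false in
/-- The algebra structure of the Milnor K-ring: that of the quotient. -/
noncomputable def KM.algebra : Algebra (ZMod m) (KM m K) := RingQuot.instAlgebra (KMRel m K)

noncomputable instance KM.instAlgebra : Algebra (ZMod m) (KM m K) := KM.algebra m K

variable {K}

variable (K) in
/-- The quotient map from the free algebra. -/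
noncomputable def KM.mk : FreeAlgebra (ZMod m) Kˣ →ₐ[ZMod m] KM m K :=
  RingQuot.mkAlgHom (ZMod m) (KMRel m K)

/-- The symbol `{a}` of a unit `a`. -/
noncomputable def usym (a : Kˣ) : KM m K := KM.mk m K (FreeAlgebra.ι (ZMod m) a)

open Classical in
/-- The symbol `{a}` of an element `a`, with the junk value `0` at `a = 0`. -/
noncomputable def sym (a : K) : KM m K :=
  if h : a = 0 then 0 else usym m (Units.mk0 a h)

end Def

variable {m : ℕ} {K : Type u} [Field K]

lemma KM.mk_rel {x y : FreeAlgebra (ZMod m) Kˣ} (h : KMRel m K x y) :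
    KM.mk m K x = KM.mk m K y :=
  RingQuot.mkAlgHom_rel (ZMod m) h

lemma usym_mul (a b : Kˣ) : usym m (a * b) = usym m a + usym m b := by
  unfold usym
  rw [← map_add]
  exact KM.mk_rel (KMRel.mul a b)

lemma usym_steinberg (a b : Kˣ) (h : (a : K) + (b : K) = 1) : usym m a * usym m b = 0 := by
  unfold usym
  rw [← map_mul, KM.mk_rel (KMRel.steinberg a b h), map_zero]

@[simp] lemma sym_zero : sym m (0 : K) = 0 := by simp [sym]

lemma sym_of_ne {a : K} (h : a ≠ 0) : sym m a = usym m (Units.mk0 a h) := by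
  simp [sym, h]

@[simp] lemma sym_unit (a : Kˣ) : sym m (a : K) = usym m a := by
  rw [sym_of_ne a.ne_zero]; simp

lemma sym_mul {a b : K} (ha : a ≠ 0) (hb : b ≠ 0) : sym m (a * b) = sym m a + sym m b := by
  rw [sym_of_ne ha, sym_of_ne hb, sym_of_ne (mul_ne_zero ha hb), ← usym_mul]
  congr 1
  ext; simp

lemma sym_steinberg {a b : K} (h : a + b = 1) : sym m a * sym m b = 0 := by
  by_cases ha : a = 0
  · simp [ha]
  by_cases hb : b = 0
  · simp [hb]
  rw [sym_of_ne ha, sym_of_ne hb]
  exact usym_steinberg _ _ (by simpa using h)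

@[simp] lemma sym_one : sym m (1 : K) = 0 := by
  have h := sym_mul (m := m) (one_ne_zero (α := K)) (one_ne_zero (α := K))
  rw [one_mul] at h
  exact left_eq_add.mp h

lemma sym_inv (a : K) : sym m a⁻¹ = - sym m a := by
  by_cases ha : a = 0
  · simp [ha]
  have h := sym_mul (m := m) ha (inv_ne_zero ha)
  rw [mul_inv_cancel₀ ha, sym_one] at h
  exact (neg_eq_of_add_eq_zero_right h.symm).symm

lemma sym_div {a b : K} (ha : a ≠ 0) (hb : b ≠ 0) : sym m (a / b) = sym m a - sym m b := by
  rw [div_eq_mul_inv, sym_mul ha (inv_ne_zero hb), sym_inv, sub_eq_add_neg]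

lemma sym_pow {a : K} (ha : a ≠ 0) (n : ℕ) : sym m (a ^ n) = n • sym m a := by
  induction n with
  | zero => simp
  | succ n ih => rw [pow_succ, sym_mul (pow_ne_zero _ ha) ha, ih, succ_nsmul]

lemma sym_zpow {a : K} (ha : a ≠ 0) (n : ℤ) : sym m (a ^ n) = n • sym m a := by
  cases n with
  | ofNat n => simp [sym_pow ha]
  | negSucc n =>
    rw [zpow_negSucc, sym_inv, sym_pow ha, negSucc_zsmul]

lemma two_smul_eq_zero (hm : Odd m) {x : KM m K} (h : (2 : ℕ) • x = 0) : x = 0 := by
  have hu : IsUnit ((2 : ℕ) : ZMod m) := by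
    rw [ZMod.isUnit_iff_coprime]
    exact (Nat.coprime_two_left (n := m)).mpr hm
  have h2 : ((2 : ℕ) : ZMod m) • x = 0 := by
    rw [Nat.cast_smul_eq_nsmul]; exact h
  obtain ⟨c, hc⟩ := hu
  rw [← hc] at h2
  have := congrArg (fun y => ((c⁻¹ : (ZMod m)ˣ) : ZMod m) • y) h2
  simpa [smul_smul] using this

lemma smul_eq_zero_of_coprime {n : ℕ} (hn : n.Coprime m) {x : KM m K} (h : n • x = 0) : x = 0 := by
  have hu : IsUnit ((n : ℕ) : ZMod m) := by
    rw [ZMod.isUnit_iff_coprime]
    exact hn
  have h2 : ((n : ℕ) : ZMod m) • x = 0 := by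
    rw [Nat.cast_smul_eq_nsmul]; exact h
  obtain ⟨c, hc⟩ := hu
  rw [← hc] at h2
  have := congrArg (fun y => ((c⁻¹ : (ZMod m)ˣ) : ZMod m) • y) h2
  simpa [smul_smul] using this

lemma sym_neg_one (hm : Odd m) : sym m (-1 : K) = 0 := by
  apply two_smul_eq_zero hm
  rw [← sym_pow (by simp)]
  simp

lemma sym_neg (hm : Odd m) (a : K) : sym m (-a) = sym m a := by
  by_cases ha : a = 0
  · simp [ha]
  rw [← neg_one_mul, sym_mul (by simp) ha, sym_neg_one hm, zero_add]

lemma sym_mul_sym_neg (a : K) : sym m a * sym m (-a) = 0 := by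
  by_cases ha : a = 0
  · simp [ha]
  by_cases ha1 : a = 1
  · simp [ha1]
  have h1 : (1 : K) - a ≠ 0 := sub_ne_zero.mpr (Ne.symm ha1)
  have h2 : (1 : K) - a⁻¹ ≠ 0 := by
    rw [sub_ne_zero]
    intro h
    exact ha1 (by rw [← inv_inv a, ← h, inv_one])
  have h3 : -a = (1 - a) / (1 - a⁻¹) := by
    rw [eq_div_iff h2]
    field_simp
    ring
  have h4 : sym m a * sym m (1 - a) = 0 := sym_steinberg (by ring)
  have h5 : sym m a⁻¹ * sym m (1 - a⁻¹) = 0 := sym_steinberg (by ring)
  rw [sym_inv, neg_mul, neg_eq_zero] at h5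
  rw [h3, sym_div h1 h2, mul_sub, h4, h5, sub_zero]

lemma sym_sq (hm : Odd m) (a : K) : sym m a * sym m a = 0 := by
  have := sym_mul_sym_neg (m := m) a
  rwa [sym_neg hm] at this

lemma sym_anticomm (hm : Odd m) (a b : K) : sym m a * sym m b = - (sym m b * sym m a) := by
  by_cases ha : a = 0
  · simp [ha]
  by_cases hb : b = 0
  · simp [hb]
  have h := sym_sq hm (a * b)
  rw [sym_mul ha hb, add_mul, mul_add, mul_add, sym_sq hm, sym_sq hm, zero_add, add_zero] at h
  exact eq_neg_of_add_eq_zero_left h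

/-! ### Universal property -/

section lift

variable {A : Type v} [Ring A] [Algebra (ZMod m) A]

/-- The universal property of `KM m K`. -/
noncomputable def lift (f : Kˣ → A) (hmul : ∀ a b, f (a * b) = f a + f b)
    (hst : ∀ a b : Kˣ, (a : K) + (b : K) = 1 → f a * f b = 0) : KM m K →ₐ[ZMod m] A :=
  RingQuot.liftAlgHom (ZMod m) (s := KMRel m K)
    ⟨FreeAlgebra.lift (ZMod m) f, by
      intro x y h
      cases h with
      | mul a b => simp [hmul]
      | steinberg a b h => simp [hst a b h]⟩

@[simp] lemma lift_usym (f : Kˣ → A) (hmul hst) (a : Kˣ) :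
    lift (m := m) f hmul hst (usym m a) = f a := by
  unfold lift usym
  erw [RingQuot.liftAlgHom_mkAlgHom_apply]
  simp

lemma algHom_ext {f g : KM m K →ₐ[ZMod m] A} (h : ∀ a : Kˣ, f (usym m a) = g (usym m a)) :
    f = g := by
  apply RingQuot.ringQuot_ext' (ZMod m) 
  apply FreeAlgebra.hom_ext
  funext a
  exact h a

end lift

lemma adjoin_range_usym : Algebra.adjoin (ZMod m) (Set.range (usym m : Kˣ → KM m K)) = ⊤ := by
  set S := Algebra.adjoin (ZMod m) (Set.range (usym m : Kˣ → KM m K)) with hS
  let g : KM m K →ₐ[ZMod m] S := lift (fun a => ⟨usym m a, Algebra.subset_adjoin ⟨a, rfl⟩⟩)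
    (fun a b => by ext; simp [usym_mul]) (fun a b h => by ext; simp [usym_steinberg a b h])
  have h : S.val.comp g = AlgHom.id _ _ := by
    apply algHom_ext
    intro a
    simp [g]
  rw [eq_top_iff]
  intro x _
  have : (S.val.comp g) x = x := by rw [h]; rfl
  rw [← this]
  exact (g x).2

/-- Induction principle. -/
lemma KM.induction {P : KM m K → Prop} (h0 : ∀ r : ZMod m, P (algebraMap _ _ r))
    (hadd : ∀ x y, P x → P y → P (x + y)) (hsmul : ∀ (r : ZMod m) x, P x → P (r • x))
    (hmul : ∀ (a : K) (x : KM m K), a ≠ 0 → P x → P (sym m a * x)) (x : KM m K) : P x := by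
  have hx : x ∈ Algebra.adjoin (ZMod m) (Set.range (usym m : Kˣ → KM m K)) := by
    rw [adjoin_range_usym]; trivial
  have key : ∀ y, P y → P (x * y) := by
    induction hx using Algebra.adjoin_induction with
    | mem x hx =>
      obtain ⟨a, rfl⟩ := hx
      intro y hy
      rw [← sym_unit]
      exact hmul _ _ a.ne_zero hy
    | algebraMap r =>
      intro y hy
      rw [← Algebra.smul_def]
      exact hsmul _ _ hy
    | add x y _ _ hx hy => intro z hz; rw [add_mul]; exact hadd _ _ (hx z hz) (hy z hz)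
    | mul x y _ _ hx hy => intro z hz; rw [mul_assoc]; exact hx _ (hy _ hz)
  simpa using key 1 (by simpa using h0 1)

end UnrH3
end

section

/-!
# Functoriality and tame residues for the Milnor K-ring modulo `m`
-/

namespace UnrH3

universe u v w

variable {m : ℕ}

section map

variable {K : Type u} {L : Type v} {M : Type w} [Field K] [Field L] [Field M]

/-- Functoriality of the Milnor K-ring for field homomorphisms. -/
noncomputable def KM.map (m : ℕ) (f : K →+* L) : KM m K →ₐ[ZMod m] KM m L :=
  lift (fun a => usym m (Units.map (f : K →* L) a))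
    (fun a b => by rw [map_mul, usym_mul])
    (fun a b h => usym_steinberg _ _ (by
      simpa only [Units.coe_map, MonoidHom.coe_coe, map_add, map_one] using congrArg f h))

@[simp] lemma KM.map_sym (f : K →+* L) (a : K) : KM.map m f (sym m a) = sym m (f a) := by
  by_cases ha : a = 0
  · simp [ha]
  have hfa : f a ≠ 0 := (map_ne_zero f).mpr ha
  rw [sym_of_ne ha, sym_of_ne hfa, KM.map, lift_usym]
  congr 1
  ext; simp

lemma algHom_ext' {A : Type w} [Ring A] [Algebra (ZMod m) A] {f g : KM m K →ₐ[ZMod m] A}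
    (h : ∀ a : K, a ≠ 0 → f (sym m a) = g (sym m a)) : f = g := by
  apply algHom_ext
  intro a
  rw [← sym_unit]
  exact h _ a.ne_zero

lemma KM.map_comp (g : L →+* M) (f : K →+* L) :
    (KM.map m g).comp (KM.map m f) = KM.map m (g.comp f) := by
  apply algHom_ext'
  intro a _
  simp

lemma KM.map_map (g : L →+* M) (f : K →+* L) (x : KM m K) :
    KM.map m g (KM.map m f x) = KM.map m (g.comp f) x := by
  rw [← KM.map_comp]; rfl

@[simp] lemma KM.map_id : KM.map m (RingHom.id K) = AlgHom.id _ _ := by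
  apply algHom_ext'
  intro a _
  simp

end map

section eps

variable {K : Type u} {L : Type v} [Field K] [Field L]

/-- The grading involution of the Milnor K-ring, acting by `-1` on symbols `{a}`. -/
noncomputable def eps (m : ℕ) (K : Type u) [Field K] : KM m K →ₐ[ZMod m] KM m K :=
  lift (fun a => - usym m a) (fun a b => by rw [usym_mul, neg_add])
    (fun a b h => by rw [neg_mul_neg, usym_steinberg a b h])

@[simp] lemma eps_sym (a : K) : eps m K (sym m a) = - sym m a := by
  by_cases ha : a = 0
  · simp [ha]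
  rw [sym_of_ne ha, eps, lift_usym]

@[simp] lemma eps_eps (x : KM m K) : eps m K (eps m K x) = x := by
  have : (eps m K).comp (eps m K) = AlgHom.id _ _ := by
    apply algHom_ext'
    intro a _
    simp
  exact congrArg (fun f : KM m K →ₐ[ZMod m] KM m K => f x) this

lemma map_eps (f : K →+* L) (x : KM m K) :
    KM.map m f (eps m K x) = eps m L (KM.map m f x) := by
  have : (KM.map m f).comp (eps m K) = (eps m L).comp (KM.map m f) := by
    apply algHom_ext'
    intro a _
    simp
  exact congrArg (fun f : KM m K →ₐ[ZMod m] KM m L => f x) this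

lemma sym_mul_eq (hm : Odd m) (a : K) (x : KM m K) :
    sym m a * x = eps m K x * sym m a := by
  induction x using KM.induction with
  | h0 r =>
    rw [AlgHom.commutes]
    exact (Algebra.commutes r _).symm
  | hadd x y hx hy => rw [mul_add, hx, hy, map_add, add_mul]
  | hsmul r x hx => rw [mul_smul_comm, hx, map_smul, smul_mul_assoc]
  | hmul b x _ hx =>
    rw [← mul_assoc, sym_anticomm hm a b, neg_mul, mul_assoc, hx, map_mul, eps_sym, neg_mul,
      neg_mul, mul_assoc]

end eps

/-! ### The extension `A[ξ]`, `ξ² = 0`, `ξ a = ε(a) ξ` -/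

/-- The ring `KM(κ)[ξ]` with `ξ² = 0` and `ξ x = ε(x) ξ`; the element `⟨a, b⟩` stands
for `a + b ξ`. -/
@[ext] structure KMX (m : ℕ) (κ : Type u) [Field κ] where
  /-- the constant term -/
  fst : KM m κ
  /-- the coefficient of `ξ` -/
  snd : KM m κ

namespace KMX

variable {κ : Type u} [Field κ]

noncomputable instance : Zero (KMX m κ) := ⟨⟨0, 0⟩⟩
noncomputable instance : One (KMX m κ) := ⟨⟨1, 0⟩⟩
noncomputable instance : Add (KMX m κ) := ⟨fun x y => ⟨x.fst + y.fst, x.snd + y.snd⟩⟩
noncomputable instance : Neg (KMX m κ) := ⟨fun x => ⟨-x.fst, -x.snd⟩⟩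
noncomputable instance : Sub (KMX m κ) := ⟨fun x y => ⟨x.fst - y.fst, x.snd - y.snd⟩⟩
noncomputable instance : Mul (KMX m κ) :=
  ⟨fun x y => ⟨x.fst * y.fst, x.fst * y.snd + x.snd * eps m κ y.fst⟩⟩

@[simp] lemma zero_fst : (0 : KMX m κ).fst = 0 := rfl
@[simp] lemma zero_snd : (0 : KMX m κ).snd = 0 := rfl
@[simp] lemma one_fst : (1 : KMX m κ).fst = 1 := rfl
@[simp] lemma one_snd : (1 : KMX m κ).snd = 0 := rfl
@[simp] lemma add_fst (x y : KMX m κ) : (x + y).fst = x.fst + y.fst := rfl
@[simp] lemma add_snd (x y : KMX m κ) : (x + y).snd = x.snd + y.snd := rfl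
@[simp] lemma neg_fst (x : KMX m κ) : (-x).fst = -x.fst := rfl
@[simp] lemma neg_snd (x : KMX m κ) : (-x).snd = -x.snd := rfl
@[simp] lemma sub_fst (x y : KMX m κ) : (x - y).fst = x.fst - y.fst := rfl
@[simp] lemma sub_snd (x y : KMX m κ) : (x - y).snd = x.snd - y.snd := rfl
@[simp] lemma mul_fst (x y : KMX m κ) : (x * y).fst = x.fst * y.fst := rfl
@[simp] lemma mul_snd (x y : KMX m κ) :
    (x * y).snd = x.fst * y.snd + x.snd * eps m κ y.fst := rfl

noncomputable instance : AddCommGroup (KMX m κ) where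
  add_assoc x y z := by ext <;> simp [add_assoc]
  zero_add x := by ext <;> simp
  add_zero x := by ext <;> simp
  add_comm x y := by ext <;> simp [add_comm]
  neg_add_cancel x := by ext <;> simp
  sub_eq_add_neg x y := by ext <;> simp [sub_eq_add_neg]
  nsmul := nsmulRec
  zsmul := zsmulRec

noncomputable instance : Ring (KMX m κ) where
  __ := (inferInstance : AddCommGroup (KMX m κ))
  left_distrib x y z := by ext <;> simp [mul_add]; abel
  right_distrib x y z := by ext <;> simp [add_mul]; abel
  zero_mul x := by ext <;> simp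
  mul_zero x := by ext <;> simp
  mul_assoc x y z := by ext <;> simp [mul_assoc, mul_add, add_mul]; abel
  one_mul x := by ext <;> simp
  mul_one x := by ext <;> simp

/-- The constants. -/
noncomputable def constHom (m : ℕ) (κ : Type u) [Field κ] : KM m κ →+* KMX m κ where
  toFun x := ⟨x, 0⟩
  map_one' := rfl
  map_zero' := rfl
  map_add' x y := by ext <;> simp
  map_mul' x y := by ext <;> simp

noncomputable instance : Algebra (ZMod m) (KMX m κ) :=
  RingHom.toAlgebra' ((constHom m κ).comp (algebraMap (ZMod m) (KM m κ))) (by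
    intro r x
    ext
    · simpa [constHom] using Algebra.commutes r x.fst
    · simpa [constHom, AlgHom.commutes] using Algebra.commutes r x.snd)

lemma algebraMap_eq (r : ZMod m) :
    algebraMap (ZMod m) (KMX m κ) r = ⟨algebraMap (ZMod m) (KM m κ) r, 0⟩ := rfl

@[simp] lemma smul_fst (r : ZMod m) (x : KMX m κ) : (r • x).fst = r • x.fst := by
  rw [Algebra.smul_def, Algebra.smul_def, mul_fst, algebraMap_eq]

@[simp] lemma smul_snd (r : ZMod m) (x : KMX m κ) : (r • x).snd = r • x.snd := by
  rw [Algebra.smul_def, Algebra.smul_def, mul_snd, algebraMap_eq]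
  simp

@[simp] lemma sum_fst {ι : Type*} (s : Finset ι) (f : ι → KMX m κ) :
    (∑ i ∈ s, f i).fst = ∑ i ∈ s, (f i).fst := by
  classical
  induction s using Finset.induction_on with
  | empty => simp
  | insert a s ha ih => rw [Finset.sum_insert ha, Finset.sum_insert ha, add_fst, ih]

@[simp] lemma sum_snd {ι : Type*} (s : Finset ι) (f : ι → KMX m κ) :
    (∑ i ∈ s, f i).snd = ∑ i ∈ s, (f i).snd := by
  classical
  induction s using Finset.induction_on with
  | empty => simp
  | insert a s ha ih => rw [Finset.sum_insert ha, Finset.sum_insert ha, add_snd, ih]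

/-- The constants, as an algebra homomorphism. -/
noncomputable def const (m : ℕ) (κ : Type u) [Field κ] : KM m κ →ₐ[ZMod m] KMX m κ where
  __ := constHom m κ
  commutes' r := rfl

@[simp] lemma const_fst (x : KM m κ) : (const m κ x).fst = x := rfl
@[simp] lemma const_snd (x : KM m κ) : (const m κ x).snd = 0 := rfl

/-- First projection, as an algebra homomorphism. -/
noncomputable def fstHom (m : ℕ) (κ : Type u) [Field κ] : KMX m κ →ₐ[ZMod m] KM m κ where
  toFun x := x.fst
  map_one' := rfl
  map_zero' := rfl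
  map_add' x y := rfl
  map_mul' x y := rfl
  commutes' r := rfl

@[simp] lemma fstHom_apply (x : KMX m κ) : fstHom m κ x = x.fst := rfl

/-- Second projection, as a linear map. -/
noncomputable def sndHom (m : ℕ) (κ : Type u) [Field κ] : KMX m κ →ₗ[ZMod m] KM m κ where
  toFun x := x.snd
  map_add' x y := rfl
  map_smul' r x := by simp

@[simp] lemma sndHom_apply (x : KMX m κ) : sndHom m κ x = x.snd := rfl

end KMX

/-! ### Discrete valuations with a chosen uniformizer and residue field -/

/-- The data of a discrete valuation `v` of a field `K` together with a choice of leading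
coefficient map `ρ` (residue of `a ϖ^{-v(a)}` for a uniformizer `ϖ`) with values in a
field `κ`. The value group is allowed to be any subgroup of `ℤ`. -/
structure DVal (K : Type u) (κ : Type v) [Field K] [Field κ] where
  /-- the order of vanishing (with junk value at `0`) -/
  v : K → ℤ
  /-- the leading coefficient -/
  ρ : K →*₀ κ
  v_mul : ∀ a b : K, a ≠ 0 → b ≠ 0 → v (a * b) = v a + v b
  /-- the ultrametric and residue conditions -/
  st : ∀ a b : K, a ≠ 0 → b ≠ 0 → a + b = 1 →
    (0 < v a ∧ v b = 0 ∧ ρ b = 1) ∨ (0 < v b ∧ v a = 0 ∧ ρ a = 1) ∨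
    (v a = 0 ∧ v b = 0 ∧ ρ a + ρ b = 1) ∨ (v a < 0 ∧ v b = v a ∧ ρ b = - ρ a)

namespace DVal

variable {K : Type u} {κ : Type v} [Field K] [Field κ] (D : DVal K κ)

@[simp] lemma v_one : D.v 1 = 0 := by
  have := D.v_mul 1 1 one_ne_zero one_ne_zero
  simpa using this

lemma v_inv {a : K} (ha : a ≠ 0) : D.v a⁻¹ = - D.v a := by
  have := D.v_mul a a⁻¹ ha (inv_ne_zero ha)
  rw [mul_inv_cancel₀ ha, v_one] at this
  omega

lemma v_div {a b : K} (ha : a ≠ 0) (hb : b ≠ 0) : D.v (a / b) = D.v a - D.v b := by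
  rw [div_eq_mul_inv, D.v_mul _ _ ha (inv_ne_zero hb), D.v_inv hb, sub_eq_add_neg]

lemma v_pow {a : K} (ha : a ≠ 0) (n : ℕ) : D.v (a ^ n) = n * D.v a := by
  induction n with
  | zero => simp
  | succ n ih => rw [pow_succ, D.v_mul _ _ (pow_ne_zero _ ha) ha, ih]; push_cast; ring

lemma v_zpow {a : K} (ha : a ≠ 0) (n : ℤ) : D.v (a ^ n) = n * D.v a := by
  cases n with
  | ofNat n => simp [D.v_pow ha]
  | negSucc n =>
    rw [zpow_negSucc, D.v_inv (pow_ne_zero _ ha), D.v_pow ha, Int.negSucc_eq]
    push_cast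
    ring

lemma ρ_ne {a : K} (ha : a ≠ 0) : D.ρ a ≠ 0 := (map_ne_zero D.ρ).mpr ha

lemma v_neg_one : D.v (-1) = 0 := by
  have h := D.v_mul (-1) (-1) (by simp) (by simp)
  have h1 : ((-1 : K) * (-1)) = 1 := by ring
  rw [h1, v_one] at h
  omega

lemma v_neg {a : K} (ha : a ≠ 0) : D.v (-a) = D.v a := by
  rw [← neg_one_mul, D.v_mul _ _ (by simp) ha, v_neg_one, zero_add]

/-- The homomorphism `θ : KM(K) → KM(κ)[ξ]`, `{a} ↦ {ρ(a)} + v(a) ξ`. -/
noncomputable def θ (hm : Odd m) : KM m K →ₐ[ZMod m] KMX m κ :=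
  lift (fun a => ⟨sym m (D.ρ a), ((D.v a : ℤ) : ZMod m) • 1⟩)
    (by
      intro a b
      ext
      · simp only [KMX.add_fst, Units.val_mul, map_mul]
        exact sym_mul (D.ρ_ne a.ne_zero) (D.ρ_ne b.ne_zero)
      · simp only [KMX.add_snd, Units.val_mul]
        rw [D.v_mul _ _ a.ne_zero b.ne_zero]
        push_cast
        rw [add_smul])
    (by
      intro a b h
      ext
      · simp only [KMX.mul_fst, KMX.zero_fst]
        rcases D.st a b a.ne_zero b.ne_zero h with ⟨_, _, h1⟩ | ⟨_, _, h1⟩ | ⟨_, _, h1⟩ | ⟨_, _, h1⟩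
        · rw [h1]; simp
        · rw [h1]; simp
        · exact sym_steinberg h1
        · rw [h1]; exact sym_mul_sym_neg _
      · simp only [KMX.mul_snd, KMX.zero_snd]
        rw [eps_sym, mul_smul_comm, mul_one, smul_mul_assoc, one_mul]
        rcases D.st a b a.ne_zero b.ne_zero h with
          ⟨_, h2, h1⟩ | ⟨_, h2, h1⟩ | ⟨h3, h2, h1⟩ | ⟨_, h2, h1⟩
        · rw [h1, h2]; simp
        · rw [h1, h2]; simp
        · rw [h3, h2]; simp
        · rw [h1, h2, sym_neg hm]; simp)

lemma θ_sym (hm : Odd m) {a : K} (ha : a ≠ 0) :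
    D.θ hm (sym m a) = ⟨sym m (D.ρ a), ((D.v a : ℤ) : ZMod m) • 1⟩ := by
  rw [sym_of_ne ha, θ, lift_usym]
  rfl

/-- The tame residue: the coefficient of `ξ` in `θ`. -/
noncomputable def res (hm : Odd m) (x : KM m K) : KM m κ := (D.θ hm x).snd

/-- The specialization map: the constant coefficient of `θ`. -/
noncomputable def spec (hm : Odd m) : KM m K →ₐ[ZMod m] KM m κ :=
  (KMX.fstHom m κ).comp (D.θ hm)

lemma spec_apply (hm : Odd m) (x : KM m K) : D.spec hm x = (D.θ hm x).fst := rfl

end DVal

end UnrH3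
end

section

/-!
# Compatibility of residues, and the basic lifting lemma
-/

namespace UnrH3

universe u v w

variable {m : ℕ}

section compat

variable {K : Type u} {κ : Type v} {L : Type u} {κ' : Type v} [Field K] [Field κ] [Field L]
  [Field κ']

/-- Compatibility of `θ` with a field extension: `e` is the ramification index, `c` the
leading coefficient of the uniformizer. -/
lemma DVal.θ_map (hm : Odd m) (D : DVal K κ) (D' : DVal L κ') (f : K →+* L) (j : κ →+* κ')
    (e : ℤ) (c : κ') (hc : c ≠ 0) (hv : ∀ a : K, a ≠ 0 → D'.v (f a) = e * D.v a)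
    (hρ : ∀ a : K, a ≠ 0 → D'.ρ (f a) = j (D.ρ a) * c ^ (D.v a)) (x : KM m K) :
    D'.θ hm (KM.map m f x) = ⟨KM.map m j (D.θ hm x).fst + KM.map m j (D.θ hm x).snd * sym m c,
      ((e : ℤ) : ZMod m) • KM.map m j (D.θ hm x).snd⟩ := by
  induction x using KM.induction with
  | h0 r =>
    rw [AlgHom.commutes, AlgHom.commutes, AlgHom.commutes, KMX.algebraMap_eq,
      KMX.algebraMap_eq]
    simp
  | hadd x y hx hy =>
    rw [map_add, map_add, hx, hy, map_add]
    ext
    · simp only [KMX.add_fst, KMX.add_snd, map_add, add_mul]; abel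
    · simp only [KMX.add_snd, map_add, smul_add]
  | hsmul r x hx =>
    rw [map_smul, map_smul, hx, map_smul]
    ext
    · simp only [KMX.smul_fst, KMX.smul_snd, map_smul, smul_add, smul_mul_assoc]
    · simp only [KMX.smul_snd, map_smul]
      rw [smul_comm]
  | hmul a x ha hx =>
    have hfa : f a ≠ 0 := (map_ne_zero f).mpr ha
    have hja : j (D.ρ a) ≠ 0 := (map_ne_zero j).mpr (D.ρ_ne ha)
    rw [map_mul, KM.map_sym, map_mul, hx, map_mul, D'.θ_sym hm hfa, D.θ_sym hm ha, hv a ha,
      hρ a ha, sym_mul hja (zpow_ne_zero _ hc), sym_zpow hc]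
    set X := (D.θ hm x).fst
    set Y := (D.θ hm x).snd
    have h1 : sym m c * KM.map m j X = KM.map m j (eps m κ X) * sym m c := by
      rw [map_eps]; exact sym_mul_eq hm c _
    have h2 : sym m c * KM.map m j Y = KM.map m j (eps m κ Y) * sym m c := by
      rw [map_eps]; exact sym_mul_eq hm c _
    have h3 : sym m c * sym m c = 0 := sym_sq hm c
    ext
    · simp only [KMX.mul_fst, KMX.mul_snd, map_mul, map_add, KM.map_sym, map_smul,
        smul_mul_assoc, one_mul, ← Int.cast_smul_eq_zsmul (ZMod m)]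
      rw [add_mul, mul_add, smul_mul_assoc, mul_add, ← mul_assoc (sym m c), h2, mul_assoc _ _ (sym m c),
        h3, h1, mul_zero, add_mul, smul_mul_assoc, add_zero, mul_assoc]
      abel
    · simp only [KMX.mul_snd, map_mul, map_add, KM.map_sym, map_smul, eps_sym,
        smul_mul_assoc, one_mul, ← Int.cast_smul_eq_zsmul (ZMod m), mul_neg, mul_smul_comm]
      rw [add_mul, smul_mul_assoc, h2, ← map_eps, ← map_eps]
      rw [Int.cast_mul, mul_smul, ← smul_add]
      congr 1
      rw [smul_add, smul_neg]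
      abel

lemma DVal.res_map (hm : Odd m) (D : DVal K κ) (D' : DVal L κ') (f : K →+* L) (j : κ →+* κ')
    (e : ℤ) (c : κ') (hc : c ≠ 0) (hv : ∀ a : K, a ≠ 0 → D'.v (f a) = e * D.v a)
    (hρ : ∀ a : K, a ≠ 0 → D'.ρ (f a) = j (D.ρ a) * c ^ (D.v a)) (x : KM m K) :
    D'.res hm (KM.map m f x) = ((e : ℤ) : ZMod m) • KM.map m j (D.res hm x) := by
  have := D.θ_map hm D' f j e c hc hv hρ x
  exact congrArg KMX.snd this

end compat

section lifting

variable {K : Type u} {κ : Type v} [Field K] [Field κ]

lemma eps_mem_adjoin {S : Set K} {x : KM m K}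
    (hx : x ∈ Algebra.adjoin (ZMod m) (sym m '' S)) :
    eps m K x ∈ Algebra.adjoin (ZMod m) (sym m '' S) := by
  induction hx using Algebra.adjoin_induction with
  | mem x hx =>
    obtain ⟨u, hu, rfl⟩ := hx
    rw [eps_sym]
    exact neg_mem (Algebra.subset_adjoin ⟨u, hu, rfl⟩)
  | algebraMap r => rw [AlgHom.commutes]; exact Subalgebra.algebraMap_mem _ _
  | add x y _ _ hx hy => rw [map_add]; exact add_mem hx hy
  | mul x y _ _ hx hy => rw [map_mul]; exact mul_mem hx hy

/-- The basic lifting lemma: `S` is a set of units, `ρ` the reduction map to `κ`,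
`G` a system of lifts, and `t` is the uniformizer. -/
lemma mul_sym_mem_of_spec_eq_zero (hm : Odd m) (S : Set K) (t : K) (ρ : K →*₀ κ)
    (spec : KM m K →ₐ[ZMod m] KM m κ) (hspec : ∀ u ∈ S, spec (sym m u) = sym m (ρ u))
    (G : κ → K) (hGS : ∀ g : κ, g ≠ 0 → G g ∈ S)
    (hmul : ∀ g h : κ, g ≠ 0 → h ≠ 0 → (sym m (G (g * h)) - sym m (G g) - sym m (G h)) * sym m t ∈
      Algebra.adjoin (ZMod m) (sym m '' S))
    (hst : ∀ g h : κ, g ≠ 0 → h ≠ 0 → g + h = 1 → sym m (G g) * sym m (G h) * sym m t ∈
      Algebra.adjoin (ZMod m) (sym m '' S))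
    (hlift : ∀ u ∈ S, u ≠ 0 → (sym m u - sym m (G (ρ u))) * sym m t ∈
      Algebra.adjoin (ZMod m) (sym m '' S)) {x : KM m K}
    (hx : x ∈ Algebra.adjoin (ZMod m) (sym m '' S)) (hx0 : spec x = 0) :
    x * sym m t ∈ Algebra.adjoin (ZMod m) (sym m '' S) := by
  set L := Algebra.adjoin (ZMod m) (sym m '' S) with hL
  have hsymS : ∀ u ∈ S, sym m u ∈ L := fun u hu => Algebra.subset_adjoin ⟨u, hu, rfl⟩
  have hcomm : ∀ w : KM m K, w * sym m t = sym m t * eps m K w := by
    intro w
    rw [sym_mul_eq hm, eps_eps]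
  let J : Submodule (ZMod m) L :=
    { carrier := {z | (z : KM m K) * sym m t ∈ L}
      add_mem' := by
        intro a b ha hb
        simp only [Set.mem_ofPred_eq, Subalgebra.coe_add, add_mul] at *
        exact add_mem ha hb
      zero_mem' := by simp
      smul_mem' := by
        intro c z hz
        simp only [Set.mem_ofPred_eq, Subalgebra.coe_smul, smul_mul_assoc] at *
        exact Subalgebra.smul_mem _ hz _ }
  have hJ : ∀ z : L, z ∈ J ↔ (z : KM m K) * sym m t ∈ L := fun z => Iff.rfl
  have hleft : ∀ w : L, J ≤ J.comap (LinearMap.mulLeft (ZMod m) w) := by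
    intro w z hz
    rw [Submodule.mem_comap, LinearMap.mulLeft_apply, hJ]
    simp only [Subalgebra.coe_mul, mul_assoc]
    exact mul_mem w.2 ((hJ z).mp hz)
  have hright : ∀ (a : KM m K) (_ : a ∈ L) (w : L), a * sym m t ∈ L →
      a * (w : KM m K) * sym m t ∈ L := by
    intro a _ w h
    rw [mul_assoc, hcomm, ← mul_assoc]
    exact mul_mem h (eps_mem_adjoin w.2)
  let q : L → Module.End (ZMod m) (L ⧸ J) := fun w =>
    J.mapQ J (LinearMap.mulLeft (ZMod m) w) (hleft w)
  have hq : ∀ (w z : L), q w (J.mkQ z) = J.mkQ (w * z) := by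
    intro w z
    simp [q]
  have hqext : ∀ (a : Module.End (ZMod m) (L ⧸ J)) (b : Module.End (ZMod m) (L ⧸ J)),
      (∀ z : L, a (J.mkQ z) = b (J.mkQ z)) → a = b := by
    intro a b h
    apply LinearMap.ext
    intro y
    obtain ⟨z, rfl⟩ := J.mkQ_surjective y
    exact h z
  have hqeq : ∀ w w' : L, ((w : KM m K) - w') * sym m t ∈ L → q w = q w' := by
    intro w w' h
    apply hqext
    intro z
    rw [hq, hq, ← sub_eq_zero, ← map_sub, ← LinearMap.mem_ker, Submodule.ker_mkQ, hJ, ← sub_mul]
    simp only [Subalgebra.coe_mul]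
    exact hright _ (sub_mem w.2 w'.2) z h
  let g0 : κˣ → L := fun a => ⟨sym m (G a), hsymS _ (hGS _ a.ne_zero)⟩
  let Ψ : KM m κ →ₐ[ZMod m] Module.End (ZMod m) (L ⧸ J) := lift (fun a => q (g0 a))
    (by
      intro a b
      apply hqext
      intro z
      rw [LinearMap.add_apply, hq, hq, hq, ← map_add, ← sub_eq_zero, ← map_sub,
        ← LinearMap.mem_ker, Submodule.ker_mkQ, hJ]
      have h1 : (((g0 (a * b) * z - (g0 a * z + g0 b * z) : L)) : KM m K) =
          (sym m (G ((a : κ) * b)) - sym m (G a) - sym m (G b)) * z := by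
        simp only [g0, Subalgebra.coe_sub, Subalgebra.coe_mul, Subalgebra.coe_add, Units.val_mul]
        rw [sub_mul, sub_mul]; abel
      rw [h1]
      exact hright _ (sub_mem (sub_mem (g0 (a * b)).2 (g0 a).2) (g0 b).2) z
        (hmul _ _ a.ne_zero b.ne_zero))
    (by
      intro a b h
      apply hqext
      intro z
      rw [Module.End.mul_apply, hq, hq, LinearMap.zero_apply, ← LinearMap.mem_ker,
        Submodule.ker_mkQ, hJ, ← mul_assoc]
      simp only [Subalgebra.coe_mul]
      exact hright _ (mul_mem (g0 a).2 (g0 b).2) z (hst _ _ a.ne_zero b.ne_zero h))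
  have key : ∀ x (hx : x ∈ L), Ψ (spec x) = q ⟨x, hx⟩ := by
    intro x hx
    induction hx using Algebra.adjoin_induction with
    | mem x hx =>
      obtain ⟨u, hu, rfl⟩ := hx
      by_cases hu0 : u = 0
      · subst hu0
        apply hqext
        intro z
        rw [hq]
        have : (⟨sym m (0 : K), hsymS _ hu⟩ : L) = 0 := by
          ext; simp
        rw [this]
        simp
      · rw [hspec u hu, sym_of_ne ((map_ne_zero ρ).mpr hu0), lift_usym]
        symm
        apply hqeq
        exact hlift u hu hu0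
    | algebraMap r =>
      rw [AlgHom.commutes, AlgHom.commutes]
      apply hqext
      intro z
      rw [hq, Module.algebraMap_end_apply, ← map_smul]
      congr 1
    | add x y hx hy ihx ihy =>
      rw [map_add, map_add, ihx, ihy]
      apply hqext
      intro z
      rw [LinearMap.add_apply, hq, hq, hq, ← map_add]
      congr 1
      ext
      simp [add_mul]
    | mul x y hx hy ihx ihy =>
      rw [map_mul, map_mul, ihx, ihy]
      apply hqext
      intro z
      rw [Module.End.mul_apply, hq, hq, hq]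
      congr 1
      ext
      simp [mul_assoc]
  have h1 := key x hx
  rw [hx0, map_zero] at h1
  have h2 := hq ⟨x, hx⟩ 1
  rw [← h1, LinearMap.zero_apply, mul_one] at h2
  have h3 := h2.symm
  rw [← LinearMap.mem_ker, Submodule.ker_mkQ, hJ] at h3
  exact h3

end lifting

end UnrH3
end

section

/-!
# The reduced Milnor K-ring modulo an integer `m`

`KM m K` is the Milnor K-ring of the field `K` with coefficients in `ZMod m`, divided by the ideal
generated by `{-1}`: the unital associative `ZMod m`-algebra generated by symbols `{a}`, `a` a unit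
of `K`, subject to `{a b} = {a} + {b}`, to the Steinberg relation `{a}{b} = 0` when `a + b = 1` and
to `{-1} = 0`. For odd `m` this is the Milnor K-ring itself; for even `m` it differs from it by
elements killed by `2`.
-/

namespace UnrG

universe u v w

/-- A trivial hypothesis on `m` (the parallel development for the Milnor K-ring itself assumes here
that `m` is odd). -/
def Any (_ : ℕ) : Prop := True

theorem any (m : ℕ) : Any m := trivial

section Def

variable (m : ℕ) (K : Type u) [Field K]

/-- The defining relations of the Milnor K-ring with `ZMod m` coefficients. -/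
inductive KMRel : FreeAlgebra (ZMod m) Kˣ → FreeAlgebra (ZMod m) Kˣ → Prop
  | mul (a b : Kˣ) :
      KMRel (FreeAlgebra.ι (ZMod m) (a * b)) (FreeAlgebra.ι (ZMod m) a + FreeAlgebra.ι (ZMod m) b)
  | steinberg (a b : Kˣ) (h : (a : K) + (b : K) = 1) :
      KMRel (FreeAlgebra.ι (ZMod m) a * FreeAlgebra.ι (ZMod m) b) 0
  | neg : KMRel (FreeAlgebra.ι (ZMod m) (-1)) 0

/-- The Milnor K-ring of the field `K` with coefficients in `ZMod m`. -/
def KM : Type u := RingQuot (KMRel m K)

set_option warn.classDefReducibility false in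
/-- The ring structure of the Milnor K-ring: that of the quotient. -/
noncomputable def KM.ring : Ring (KM m K) := RingQuot.instRing (KMRel m K)

noncomputable instance KM.instRing : Ring (KM m K) := KM.ring m K

set_option warn.classDefReducibility false in
/-- The algebra structure of the Milnor K-ring: that of the quotient. -/
noncomputable def KM.algebra : Algebra (ZMod m) (KM m K) := RingQuot.instAlgebra (KMRel m K)

noncomputable instance KM.instAlgebra : Algebra (ZMod m) (KM m K) := KM.algebra m K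

variable {K}

variable (K) in
/-- The quotient map from the free algebra. -/
noncomputable def KM.mk : FreeAlgebra (ZMod m) Kˣ →ₐ[ZMod m] KM m K :=
  RingQuot.mkAlgHom (ZMod m) (KMRel m K)

/-- The symbol `{a}` of a unit `a`. -/
noncomputable def usym (a : Kˣ) : KM m K := KM.mk m K (FreeAlgebra.ι (ZMod m) a)

open Classical in
/-- The symbol `{a}` of an element `a`, with the junk value `0` at `a = 0`. -/
noncomputable def sym (a : K) : KM m K :=
  if h : a = 0 then 0 else usym m (Units.mk0 a h)

end Def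

variable {m : ℕ} {K : Type u} [Field K]

lemma KM.mk_rel {x y : FreeAlgebra (ZMod m) Kˣ} (h : KMRel m K x y) :
    KM.mk m K x = KM.mk m K y :=
  RingQuot.mkAlgHom_rel (ZMod m) h

lemma usym_mul (a b : Kˣ) : usym m (a * b) = usym m a + usym m b := by
  unfold usym
  rw [← map_add]
  exact KM.mk_rel (KMRel.mul a b)

lemma usym_steinberg (a b : Kˣ) (h : (a : K) + (b : K) = 1) : usym m a * usym m b = 0 := by
  unfold usym
  rw [← map_mul, KM.mk_rel (KMRel.steinberg a b h), map_zero]

@[simp] lemma sym_zero : sym m (0 : K) = 0 := by simp [sym]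

lemma sym_of_ne {a : K} (h : a ≠ 0) : sym m a = usym m (Units.mk0 a h) := by
  simp [sym, h]

@[simp] lemma sym_unit (a : Kˣ) : sym m (a : K) = usym m a := by
  rw [sym_of_ne a.ne_zero]; simp

lemma sym_mul {a b : K} (ha : a ≠ 0) (hb : b ≠ 0) : sym m (a * b) = sym m a + sym m b := by
  rw [sym_of_ne ha, sym_of_ne hb, sym_of_ne (mul_ne_zero ha hb), ← usym_mul]
  congr 1
  ext; simp

lemma sym_steinberg {a b : K} (h : a + b = 1) : sym m a * sym m b = 0 := by
  by_cases ha : a = 0
  · simp [ha]
  by_cases hb : b = 0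
  · simp [hb]
  rw [sym_of_ne ha, sym_of_ne hb]
  exact usym_steinberg _ _ (by simpa using h)

@[simp] lemma sym_one : sym m (1 : K) = 0 := by
  have h := sym_mul (m := m) (one_ne_zero (α := K)) (one_ne_zero (α := K))
  rw [one_mul] at h
  exact left_eq_add.mp h

lemma sym_inv (a : K) : sym m a⁻¹ = - sym m a := by
  by_cases ha : a = 0
  · simp [ha]
  have h := sym_mul (m := m) ha (inv_ne_zero ha)
  rw [mul_inv_cancel₀ ha, sym_one] at h
  exact (neg_eq_of_add_eq_zero_right h.symm).symm

lemma sym_div {a b : K} (ha : a ≠ 0) (hb : b ≠ 0) : sym m (a / b) = sym m a - sym m b := by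
  rw [div_eq_mul_inv, sym_mul ha (inv_ne_zero hb), sym_inv, sub_eq_add_neg]

lemma sym_pow {a : K} (ha : a ≠ 0) (n : ℕ) : sym m (a ^ n) = n • sym m a := by
  induction n with
  | zero => simp
  | succ n ih => rw [pow_succ, sym_mul (pow_ne_zero _ ha) ha, ih, succ_nsmul]

lemma sym_zpow {a : K} (ha : a ≠ 0) (n : ℤ) : sym m (a ^ n) = n • sym m a := by
  cases n with
  | ofNat n => simp [sym_pow ha]
  | negSucc n =>
    rw [zpow_negSucc, sym_inv, sym_pow ha, negSucc_zsmul]

lemma smul_eq_zero_of_coprime {n : ℕ} (hn : n.Coprime m) {x : KM m K} (h : n • x = 0) : x = 0 := by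
  have hu : IsUnit ((n : ℕ) : ZMod m) := by
    rw [ZMod.isUnit_iff_coprime]
    exact hn
  have h2 : ((n : ℕ) : ZMod m) • x = 0 := by
    rw [Nat.cast_smul_eq_nsmul]; exact h
  obtain ⟨c, hc⟩ := hu
  rw [← hc] at h2
  have := congrArg (fun y => ((c⁻¹ : (ZMod m)ˣ) : ZMod m) • y) h2
  simpa [smul_smul] using this

lemma usym_neg_one : usym m (-1 : Kˣ) = 0 := by
  unfold usym
  rw [KM.mk_rel KMRel.neg, map_zero]

lemma sym_neg_one (_ : Any m) : sym m (-1 : K) = 0 := by
  have h : ((-1 : Kˣ) : K) = -1 := by simp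
  rw [← h, sym_unit, usym_neg_one]

lemma sym_neg (hm : Any m) (a : K) : sym m (-a) = sym m a := by
  by_cases ha : a = 0
  · simp [ha]
  rw [← neg_one_mul, sym_mul (by simp) ha, sym_neg_one hm, zero_add]

lemma sym_mul_sym_neg (a : K) : sym m a * sym m (-a) = 0 := by
  by_cases ha : a = 0
  · simp [ha]
  by_cases ha1 : a = 1
  · simp [ha1]
  have h1 : (1 : K) - a ≠ 0 := sub_ne_zero.mpr (Ne.symm ha1)
  have h2 : (1 : K) - a⁻¹ ≠ 0 := by
    rw [sub_ne_zero]
    intro h
    exact ha1 (by rw [← inv_inv a, ← h, inv_one])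
  have h3 : -a = (1 - a) / (1 - a⁻¹) := by
    rw [eq_div_iff h2]
    field_simp
    ring
  have h4 : sym m a * sym m (1 - a) = 0 := sym_steinberg (by ring)
  have h5 : sym m a⁻¹ * sym m (1 - a⁻¹) = 0 := sym_steinberg (by ring)
  rw [sym_inv, neg_mul, neg_eq_zero] at h5
  rw [h3, sym_div h1 h2, mul_sub, h4, h5, sub_zero]

lemma sym_sq (hm : Any m) (a : K) : sym m a * sym m a = 0 := by
  have := sym_mul_sym_neg (m := m) a
  rwa [sym_neg hm] at this

lemma sym_anticomm (hm : Any m) (a b : K) : sym m a * sym m b = - (sym m b * sym m a) := by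
  by_cases ha : a = 0
  · simp [ha]
  by_cases hb : b = 0
  · simp [hb]
  have h := sym_sq hm (a * b)
  rw [sym_mul ha hb, add_mul, mul_add, mul_add, sym_sq hm, sym_sq hm, zero_add, add_zero] at h
  exact eq_neg_of_add_eq_zero_left h

/-! ### Universal property -/

section lift

variable {A : Type v} [Ring A] [Algebra (ZMod m) A]

/-- The universal property of `KM m K`. -/
noncomputable def lift (f : Kˣ → A) (hmul : ∀ a b, f (a * b) = f a + f b)
    (hst : ∀ a b : Kˣ, (a : K) + (b : K) = 1 → f a * f b = 0) (hneg : f (-1) = 0) :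
    KM m K →ₐ[ZMod m] A :=
  RingQuot.liftAlgHom (ZMod m) (s := KMRel m K)
    ⟨FreeAlgebra.lift (ZMod m) f, by
      intro x y h
      cases h with
      | mul a b => simp [hmul]
      | steinberg a b h => simp [hst a b h]
      | neg => simp [hneg]⟩

@[simp] lemma lift_usym (f : Kˣ → A) (hmul hst hneg) (a : Kˣ) :
    lift (m := m) f hmul hst hneg (usym m a) = f a := by
  unfold lift usym
  erw [RingQuot.liftAlgHom_mkAlgHom_apply]
  simp

lemma algHom_ext {f g : KM m K →ₐ[ZMod m] A} (h : ∀ a : Kˣ, f (usym m a) = g (usym m a)) :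
    f = g := by
  apply RingQuot.ringQuot_ext' (ZMod m) 
  apply FreeAlgebra.hom_ext
  funext a
  exact h a

end lift

lemma adjoin_range_usym : Algebra.adjoin (ZMod m) (Set.range (usym m : Kˣ → KM m K)) = ⊤ := by
  set S := Algebra.adjoin (ZMod m) (Set.range (usym m : Kˣ → KM m K)) with hS
  let g : KM m K →ₐ[ZMod m] S := lift (fun a => ⟨usym m a, Algebra.subset_adjoin ⟨a, rfl⟩⟩)
    (fun a b => by ext; simp [usym_mul]) (fun a b h => by ext; simp [usym_steinberg a b h])
    (by ext; simp [usym_neg_one])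
  have h : S.val.comp g = AlgHom.id _ _ := by
    apply algHom_ext
    intro a
    simp [g]
  rw [eq_top_iff]
  intro x _
  have : (S.val.comp g) x = x := by rw [h]; rfl
  rw [← this]
  exact (g x).2

/-- Induction principle. -/
lemma KM.induction {P : KM m K → Prop} (h0 : ∀ r : ZMod m, P (algebraMap _ _ r))
    (hadd : ∀ x y, P x → P y → P (x + y)) (hsmul : ∀ (r : ZMod m) x, P x → P (r • x))
    (hmul : ∀ (a : K) (x : KM m K), a ≠ 0 → P x → P (sym m a * x)) (x : KM m K) : P x := by
  have hx : x ∈ Algebra.adjoin (ZMod m) (Set.range (usym m : Kˣ → KM m K)) := by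
    rw [adjoin_range_usym]; trivial
  have key : ∀ y, P y → P (x * y) := by
    induction hx using Algebra.adjoin_induction with
    | mem x hx =>
      obtain ⟨a, rfl⟩ := hx
      intro y hy
      rw [← sym_unit]
      exact hmul _ _ a.ne_zero hy
    | algebraMap r =>
      intro y hy
      rw [← Algebra.smul_def]
      exact hsmul _ _ hy
    | add x y _ _ hx hy => intro z hz; rw [add_mul]; exact hadd _ _ (hx z hz) (hy z hz)
    | mul x y _ _ hx hy => intro z hz; rw [mul_assoc]; exact hx _ (hy _ hz)
  simpa using key 1 (by simpa using h0 1)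

end UnrG
end

section

/-!
# Functoriality and tame residues for the Milnor K-ring modulo `m`
-/

namespace UnrG

universe u v w

variable {m : ℕ}

section map

variable {K : Type u} {L : Type v} {M : Type w} [Field K] [Field L] [Field M]

/-- Functoriality of the Milnor K-ring for field homomorphisms. -/
noncomputable def KM.map (m : ℕ) (f : K →+* L) : KM m K →ₐ[ZMod m] KM m L :=
  lift (fun a => usym m (Units.map (f : K →* L) a))
    (fun a b => by rw [map_mul, usym_mul])
    (fun a b h => usym_steinberg _ _ (by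
      simpa only [Units.coe_map, MonoidHom.coe_coe, map_add, map_one] using congrArg f h))
    (by
      have h : Units.map (f : K →* L) (-1) = -1 := by ext; simp
      rw [h, usym_neg_one])

@[simp] lemma KM.map_sym (f : K →+* L) (a : K) : KM.map m f (sym m a) = sym m (f a) := by
  by_cases ha : a = 0
  · simp [ha]
  have hfa : f a ≠ 0 := (map_ne_zero f).mpr ha
  rw [sym_of_ne ha, sym_of_ne hfa, KM.map, lift_usym]
  congr 1
  ext; simp

lemma algHom_ext' {A : Type w} [Ring A] [Algebra (ZMod m) A] {f g : KM m K →ₐ[ZMod m] A}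
    (h : ∀ a : K, a ≠ 0 → f (sym m a) = g (sym m a)) : f = g := by
  apply algHom_ext
  intro a
  rw [← sym_unit]
  exact h _ a.ne_zero

lemma KM.map_comp (g : L →+* M) (f : K →+* L) :
    (KM.map m g).comp (KM.map m f) = KM.map m (g.comp f) := by
  apply algHom_ext'
  intro a _
  simp

lemma KM.map_map (g : L →+* M) (f : K →+* L) (x : KM m K) :
    KM.map m g (KM.map m f x) = KM.map m (g.comp f) x := by
  rw [← KM.map_comp]; rfl

@[simp] lemma KM.map_id : KM.map m (RingHom.id K) = AlgHom.id _ _ := by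
  apply algHom_ext'
  intro a _
  simp

end map

section eps

variable {K : Type u} {L : Type v} [Field K] [Field L]

/-- The grading involution of the Milnor K-ring, acting by `-1` on symbols `{a}`. -/
noncomputable def eps (m : ℕ) (K : Type u) [Field K] : KM m K →ₐ[ZMod m] KM m K :=
  lift (fun a => - usym m a) (fun a b => by rw [usym_mul, neg_add])
    (fun a b h => by rw [neg_mul_neg, usym_steinberg a b h])
    (by rw [usym_neg_one, neg_zero])

@[simp] lemma eps_sym (a : K) : eps m K (sym m a) = - sym m a := by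
  by_cases ha : a = 0
  · simp [ha]
  rw [sym_of_ne ha, eps, lift_usym]

@[simp] lemma eps_eps (x : KM m K) : eps m K (eps m K x) = x := by
  have : (eps m K).comp (eps m K) = AlgHom.id _ _ := by
    apply algHom_ext'
    intro a _
    simp
  exact congrArg (fun f : KM m K →ₐ[ZMod m] KM m K => f x) this

lemma map_eps (f : K →+* L) (x : KM m K) :
    KM.map m f (eps m K x) = eps m L (KM.map m f x) := by
  have : (KM.map m f).comp (eps m K) = (eps m L).comp (KM.map m f) := by
    apply algHom_ext'
    intro a _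
    simp
  exact congrArg (fun f : KM m K →ₐ[ZMod m] KM m L => f x) this

lemma sym_mul_eq (hm : Any m) (a : K) (x : KM m K) :
    sym m a * x = eps m K x * sym m a := by
  induction x using KM.induction with
  | h0 r =>
    rw [AlgHom.commutes]
    exact (Algebra.commutes r _).symm
  | hadd x y hx hy => rw [mul_add, hx, hy, map_add, add_mul]
  | hsmul r x hx => rw [mul_smul_comm, hx, map_smul, smul_mul_assoc]
  | hmul b x _ hx =>
    rw [← mul_assoc, sym_anticomm hm a b, neg_mul, mul_assoc, hx, map_mul, eps_sym, neg_mul,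
      neg_mul, mul_assoc]

end eps

/-! ### The extension `A[ξ]`, `ξ² = 0`, `ξ a = ε(a) ξ` -/

/-- The ring `KM(κ)[ξ]` with `ξ² = 0` and `ξ x = ε(x) ξ`; the element `⟨a, b⟩` stands
for `a + b ξ`. -/
@[ext] structure KMX (m : ℕ) (κ : Type u) [Field κ] where
  /-- the constant term -/
  fst : KM m κ
  /-- the coefficient of `ξ` -/
  snd : KM m κ

namespace KMX

variable {κ : Type u} [Field κ]

noncomputable instance : Zero (KMX m κ) := ⟨⟨0, 0⟩⟩
noncomputable instance : One (KMX m κ) := ⟨⟨1, 0⟩⟩
noncomputable instance : Add (KMX m κ) := ⟨fun x y => ⟨x.fst + y.fst, x.snd + y.snd⟩⟩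
noncomputable instance : Neg (KMX m κ) := ⟨fun x => ⟨-x.fst, -x.snd⟩⟩
noncomputable instance : Sub (KMX m κ) := ⟨fun x y => ⟨x.fst - y.fst, x.snd - y.snd⟩⟩
noncomputable instance : Mul (KMX m κ) :=
  ⟨fun x y => ⟨x.fst * y.fst, x.fst * y.snd + x.snd * eps m κ y.fst⟩⟩

@[simp] lemma zero_fst : (0 : KMX m κ).fst = 0 := rfl
@[simp] lemma zero_snd : (0 : KMX m κ).snd = 0 := rfl
@[simp] lemma one_fst : (1 : KMX m κ).fst = 1 := rfl
@[simp] lemma one_snd : (1 : KMX m κ).snd = 0 := rfl
@[simp] lemma add_fst (x y : KMX m κ) : (x + y).fst = x.fst + y.fst := rfl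
@[simp] lemma add_snd (x y : KMX m κ) : (x + y).snd = x.snd + y.snd := rfl
@[simp] lemma neg_fst (x : KMX m κ) : (-x).fst = -x.fst := rfl
@[simp] lemma neg_snd (x : KMX m κ) : (-x).snd = -x.snd := rfl
@[simp] lemma sub_fst (x y : KMX m κ) : (x - y).fst = x.fst - y.fst := rfl
@[simp] lemma sub_snd (x y : KMX m κ) : (x - y).snd = x.snd - y.snd := rfl
@[simp] lemma mul_fst (x y : KMX m κ) : (x * y).fst = x.fst * y.fst := rfl
@[simp] lemma mul_snd (x y : KMX m κ) :
    (x * y).snd = x.fst * y.snd + x.snd * eps m κ y.fst := rfl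

noncomputable instance : AddCommGroup (KMX m κ) where
  add_assoc x y z := by ext <;> simp [add_assoc]
  zero_add x := by ext <;> simp
  add_zero x := by ext <;> simp
  add_comm x y := by ext <;> simp [add_comm]
  neg_add_cancel x := by ext <;> simp
  sub_eq_add_neg x y := by ext <;> simp [sub_eq_add_neg]
  nsmul := nsmulRec
  zsmul := zsmulRec

noncomputable instance : Ring (KMX m κ) where
  __ := (inferInstance : AddCommGroup (KMX m κ))
  left_distrib x y z := by ext <;> simp [mul_add]; abel
  right_distrib x y z := by ext <;> simp [add_mul]; abel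
  zero_mul x := by ext <;> simp
  mul_zero x := by ext <;> simp
  mul_assoc x y z := by ext <;> simp [mul_assoc, mul_add, add_mul]; abel
  one_mul x := by ext <;> simp
  mul_one x := by ext <;> simp

/-- The constants. -/
noncomputable def constHom (m : ℕ) (κ : Type u) [Field κ] : KM m κ →+* KMX m κ where
  toFun x := ⟨x, 0⟩
  map_one' := rfl
  map_zero' := rfl
  map_add' x y := by ext <;> simp
  map_mul' x y := by ext <;> simp

noncomputable instance : Algebra (ZMod m) (KMX m κ) :=
  RingHom.toAlgebra' ((constHom m κ).comp (algebraMap (ZMod m) (KM m κ))) (by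
    intro r x
    ext
    · simpa [constHom] using Algebra.commutes r x.fst
    · simpa [constHom, AlgHom.commutes] using Algebra.commutes r x.snd)

lemma algebraMap_eq (r : ZMod m) :
    algebraMap (ZMod m) (KMX m κ) r = ⟨algebraMap (ZMod m) (KM m κ) r, 0⟩ := rfl

@[simp] lemma smul_fst (r : ZMod m) (x : KMX m κ) : (r • x).fst = r • x.fst := by
  rw [Algebra.smul_def, Algebra.smul_def, mul_fst, algebraMap_eq]

@[simp] lemma smul_snd (r : ZMod m) (x : KMX m κ) : (r • x).snd = r • x.snd := by
  rw [Algebra.smul_def, Algebra.smul_def, mul_snd, algebraMap_eq]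
  simp

@[simp] lemma sum_fst {ι : Type*} (s : Finset ι) (f : ι → KMX m κ) :
    (∑ i ∈ s, f i).fst = ∑ i ∈ s, (f i).fst := by
  classical
  induction s using Finset.induction_on with
  | empty => simp
  | insert a s ha ih => rw [Finset.sum_insert ha, Finset.sum_insert ha, add_fst, ih]

@[simp] lemma sum_snd {ι : Type*} (s : Finset ι) (f : ι → KMX m κ) :
    (∑ i ∈ s, f i).snd = ∑ i ∈ s, (f i).snd := by
  classical
  induction s using Finset.induction_on with
  | empty => simp
  | insert a s ha ih => rw [Finset.sum_insert ha, Finset.sum_insert ha, add_snd, ih]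

/-- The constants, as an algebra homomorphism. -/
noncomputable def const (m : ℕ) (κ : Type u) [Field κ] : KM m κ →ₐ[ZMod m] KMX m κ where
  __ := constHom m κ
  commutes' r := rfl

@[simp] lemma const_fst (x : KM m κ) : (const m κ x).fst = x := rfl
@[simp] lemma const_snd (x : KM m κ) : (const m κ x).snd = 0 := rfl

/-- First projection, as an algebra homomorphism. -/
noncomputable def fstHom (m : ℕ) (κ : Type u) [Field κ] : KMX m κ →ₐ[ZMod m] KM m κ where
  toFun x := x.fst
  map_one' := rfl
  map_zero' := rfl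
  map_add' x y := rfl
  map_mul' x y := rfl
  commutes' r := rfl

@[simp] lemma fstHom_apply (x : KMX m κ) : fstHom m κ x = x.fst := rfl

/-- Second projection, as a linear map. -/
noncomputable def sndHom (m : ℕ) (κ : Type u) [Field κ] : KMX m κ →ₗ[ZMod m] KM m κ where
  toFun x := x.snd
  map_add' x y := rfl
  map_smul' r x := by simp

@[simp] lemma sndHom_apply (x : KMX m κ) : sndHom m κ x = x.snd := rfl

end KMX

/-! ### Discrete valuations with a chosen uniformizer and residue field -/

/-- The data of a discrete valuation `v` of a field `K` together with a choice of leading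
coefficient map `ρ` (residue of `a ϖ^{-v(a)}` for a uniformizer `ϖ`) with values in a
field `κ`. The value group is allowed to be any subgroup of `ℤ`. -/
structure DVal (K : Type u) (κ : Type v) [Field K] [Field κ] where
  /-- the order of vanishing (with junk value at `0`) -/
  v : K → ℤ
  /-- the leading coefficient -/
  ρ : K →*₀ κ
  v_mul : ∀ a b : K, a ≠ 0 → b ≠ 0 → v (a * b) = v a + v b
  /-- the ultrametric and residue conditions -/
  st : ∀ a b : K, a ≠ 0 → b ≠ 0 → a + b = 1 →
    (0 < v a ∧ v b = 0 ∧ ρ b = 1) ∨ (0 < v b ∧ v a = 0 ∧ ρ a = 1) ∨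
    (v a = 0 ∧ v b = 0 ∧ ρ a + ρ b = 1) ∨ (v a < 0 ∧ v b = v a ∧ ρ b = - ρ a)

namespace DVal

variable {K : Type u} {κ : Type v} [Field K] [Field κ] (D : DVal K κ)

@[simp] lemma v_one : D.v 1 = 0 := by
  have := D.v_mul 1 1 one_ne_zero one_ne_zero
  simpa using this

lemma v_inv {a : K} (ha : a ≠ 0) : D.v a⁻¹ = - D.v a := by
  have := D.v_mul a a⁻¹ ha (inv_ne_zero ha)
  rw [mul_inv_cancel₀ ha, v_one] at this
  omega

lemma v_div {a b : K} (ha : a ≠ 0) (hb : b ≠ 0) : D.v (a / b) = D.v a - D.v b := by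
  rw [div_eq_mul_inv, D.v_mul _ _ ha (inv_ne_zero hb), D.v_inv hb, sub_eq_add_neg]

lemma v_pow {a : K} (ha : a ≠ 0) (n : ℕ) : D.v (a ^ n) = n * D.v a := by
  induction n with
  | zero => simp
  | succ n ih => rw [pow_succ, D.v_mul _ _ (pow_ne_zero _ ha) ha, ih]; push_cast; ring

lemma v_zpow {a : K} (ha : a ≠ 0) (n : ℤ) : D.v (a ^ n) = n * D.v a := by
  cases n with
  | ofNat n => simp [D.v_pow ha]
  | negSucc n =>
    rw [zpow_negSucc, D.v_inv (pow_ne_zero _ ha), D.v_pow ha, Int.negSucc_eq]
    push_cast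
    ring

lemma ρ_ne {a : K} (ha : a ≠ 0) : D.ρ a ≠ 0 := (map_ne_zero D.ρ).mpr ha

lemma v_neg_one : D.v (-1) = 0 := by
  have h := D.v_mul (-1) (-1) (by simp) (by simp)
  have h1 : ((-1 : K) * (-1)) = 1 := by ring
  rw [h1, v_one] at h
  omega

lemma v_neg {a : K} (ha : a ≠ 0) : D.v (-a) = D.v a := by
  rw [← neg_one_mul, D.v_mul _ _ (by simp) ha, v_neg_one, zero_add]

/-- The homomorphism `θ : KM(K) → KM(κ)[ξ]`, `{a} ↦ {ρ(a)} + v(a) ξ`. -/
noncomputable def θ (hm : Any m) : KM m K →ₐ[ZMod m] KMX m κ :=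
  lift (fun a => ⟨sym m (D.ρ a), ((D.v a : ℤ) : ZMod m) • 1⟩)
    (by
      intro a b
      ext
      · simp only [KMX.add_fst, Units.val_mul, map_mul]
        exact sym_mul (D.ρ_ne a.ne_zero) (D.ρ_ne b.ne_zero)
      · simp only [KMX.add_snd, Units.val_mul]
        rw [D.v_mul _ _ a.ne_zero b.ne_zero]
        push_cast
        rw [add_smul])
    (by
      intro a b h
      ext
      · simp only [KMX.mul_fst, KMX.zero_fst]
        rcases D.st a b a.ne_zero b.ne_zero h with ⟨_, _, h1⟩ | ⟨_, _, h1⟩ | ⟨_, _, h1⟩ | ⟨_, _, h1⟩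
        · rw [h1]; simp
        · rw [h1]; simp
        · exact sym_steinberg h1
        · rw [h1]; exact sym_mul_sym_neg _
      · simp only [KMX.mul_snd, KMX.zero_snd]
        rw [eps_sym, mul_smul_comm, mul_one, smul_mul_assoc, one_mul]
        rcases D.st a b a.ne_zero b.ne_zero h with
          ⟨_, h2, h1⟩ | ⟨_, h2, h1⟩ | ⟨h3, h2, h1⟩ | ⟨_, h2, h1⟩
        · rw [h1, h2]; simp
        · rw [h1, h2]; simp
        · rw [h3, h2]; simp
        · rw [h1, h2, sym_neg hm]; simp)
    (by
      have h1 : D.ρ ((-1 : Kˣ) : K) = 1 ∨ D.ρ ((-1 : Kˣ) : K) = -1 := by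
        have h2 : D.ρ ((-1 : Kˣ) : K) ^ 2 = 1 := by
          rw [← map_pow]
          simp
        exact mul_self_eq_one_iff.mp (by rwa [pow_two] at h2)
      ext
      · simp only [KMX.zero_fst]
        rcases h1 with h | h
        · rw [h, sym_one]
        · rw [h, sym_neg_one hm]
      · simp only [KMX.zero_snd, Units.val_neg, Units.val_one, D.v_neg_one]
        simp)

lemma θ_sym (hm : Any m) {a : K} (ha : a ≠ 0) :
    D.θ hm (sym m a) = ⟨sym m (D.ρ a), ((D.v a : ℤ) : ZMod m) • 1⟩ := by
  rw [sym_of_ne ha, θ, lift_usym]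
  rfl

/-- The tame residue: the coefficient of `ξ` in `θ`. -/
noncomputable def res (hm : Any m) (x : KM m K) : KM m κ := (D.θ hm x).snd

/-- The specialization map: the constant coefficient of `θ`. -/
noncomputable def spec (hm : Any m) : KM m K →ₐ[ZMod m] KM m κ :=
  (KMX.fstHom m κ).comp (D.θ hm)

lemma spec_apply (hm : Any m) (x : KM m K) : D.spec hm x = (D.θ hm x).fst := rfl

end DVal

end UnrG
end

section

/-!
# Compatibility of residues, and the basic lifting lemma
-/

namespace UnrG

universe u v w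

variable {m : ℕ}

section compat

variable {K : Type u} {κ : Type v} {L : Type u} {κ' : Type v} [Field K] [Field κ] [Field L]
  [Field κ']

/-- Compatibility of `θ` with a field extension: `e` is the ramification index, `c` the
leading coefficient of the uniformizer. -/
lemma DVal.θ_map (hm : Any m) (D : DVal K κ) (D' : DVal L κ') (f : K →+* L) (j : κ →+* κ')
    (e : ℤ) (c : κ') (hc : c ≠ 0) (hv : ∀ a : K, a ≠ 0 → D'.v (f a) = e * D.v a)
    (hρ : ∀ a : K, a ≠ 0 → D'.ρ (f a) = j (D.ρ a) * c ^ (D.v a)) (x : KM m K) :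
    D'.θ hm (KM.map m f x) = ⟨KM.map m j (D.θ hm x).fst + KM.map m j (D.θ hm x).snd * sym m c,
      ((e : ℤ) : ZMod m) • KM.map m j (D.θ hm x).snd⟩ := by
  induction x using KM.induction with
  | h0 r =>
    rw [AlgHom.commutes, AlgHom.commutes, AlgHom.commutes, KMX.algebraMap_eq,
      KMX.algebraMap_eq]
    simp
  | hadd x y hx hy =>
    rw [map_add, map_add, hx, hy, map_add]
    ext
    · simp only [KMX.add_fst, KMX.add_snd, map_add, add_mul]; abel
    · simp only [KMX.add_snd, map_add, smul_add]
  | hsmul r x hx =>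
    rw [map_smul, map_smul, hx, map_smul]
    ext
    · simp only [KMX.smul_fst, KMX.smul_snd, map_smul, smul_add, smul_mul_assoc]
    · simp only [KMX.smul_snd, map_smul]
      rw [smul_comm]
  | hmul a x ha hx =>
    have hfa : f a ≠ 0 := (map_ne_zero f).mpr ha
    have hja : j (D.ρ a) ≠ 0 := (map_ne_zero j).mpr (D.ρ_ne ha)
    rw [map_mul, KM.map_sym, map_mul, hx, map_mul, D'.θ_sym hm hfa, D.θ_sym hm ha, hv a ha,
      hρ a ha, sym_mul hja (zpow_ne_zero _ hc), sym_zpow hc]
    set X := (D.θ hm x).fst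
    set Y := (D.θ hm x).snd
    have h1 : sym m c * KM.map m j X = KM.map m j (eps m κ X) * sym m c := by
      rw [map_eps]; exact sym_mul_eq hm c _
    have h2 : sym m c * KM.map m j Y = KM.map m j (eps m κ Y) * sym m c := by
      rw [map_eps]; exact sym_mul_eq hm c _
    have h3 : sym m c * sym m c = 0 := sym_sq hm c
    ext
    · simp only [KMX.mul_fst, KMX.mul_snd, map_mul, map_add, KM.map_sym, map_smul,
        smul_mul_assoc, one_mul, ← Int.cast_smul_eq_zsmul (ZMod m)]
      rw [add_mul, mul_add, smul_mul_assoc, mul_add, ← mul_assoc (sym m c), h2, mul_assoc _ _ (sym m c),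
        h3, h1, mul_zero, add_mul, smul_mul_assoc, add_zero, mul_assoc]
      abel
    · simp only [KMX.mul_snd, map_mul, map_add, KM.map_sym, map_smul, eps_sym,
        smul_mul_assoc, one_mul, ← Int.cast_smul_eq_zsmul (ZMod m), mul_neg, mul_smul_comm]
      rw [add_mul, smul_mul_assoc, h2, ← map_eps, ← map_eps]
      rw [Int.cast_mul, mul_smul, ← smul_add]
      congr 1
      rw [smul_add, smul_neg]
      abel

lemma DVal.res_map (hm : Any m) (D : DVal K κ) (D' : DVal L κ') (f : K →+* L) (j : κ →+* κ')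
    (e : ℤ) (c : κ') (hc : c ≠ 0) (hv : ∀ a : K, a ≠ 0 → D'.v (f a) = e * D.v a)
    (hρ : ∀ a : K, a ≠ 0 → D'.ρ (f a) = j (D.ρ a) * c ^ (D.v a)) (x : KM m K) :
    D'.res hm (KM.map m f x) = ((e : ℤ) : ZMod m) • KM.map m j (D.res hm x) := by
  have := D.θ_map hm D' f j e c hc hv hρ x
  exact congrArg KMX.snd this

end compat

section lifting

variable {K : Type u} {κ : Type v} [Field K] [Field κ]

lemma eps_mem_adjoin {S : Set K} {x : KM m K}
    (hx : x ∈ Algebra.adjoin (ZMod m) (sym m '' S)) :
    eps m K x ∈ Algebra.adjoin (ZMod m) (sym m '' S) := by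
  induction hx using Algebra.adjoin_induction with
  | mem x hx =>
    obtain ⟨u, hu, rfl⟩ := hx
    rw [eps_sym]
    exact neg_mem (Algebra.subset_adjoin ⟨u, hu, rfl⟩)
  | algebraMap r => rw [AlgHom.commutes]; exact Subalgebra.algebraMap_mem _ _
  | add x y _ _ hx hy => rw [map_add]; exact add_mem hx hy
  | mul x y _ _ hx hy => rw [map_mul]; exact mul_mem hx hy

/-- The basic lifting lemma: `S` is a set of units, `ρ` the reduction map to `κ`,
`G` a system of lifts, and `t` is the uniformizer. -/
lemma mul_sym_mem_of_spec_eq_zero (hm : Any m) (S : Set K) (t : K) (ρ : K →*₀ κ)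
    (spec : KM m K →ₐ[ZMod m] KM m κ) (hspec : ∀ u ∈ S, spec (sym m u) = sym m (ρ u))
    (G : κ → K) (hGS : ∀ g : κ, g ≠ 0 → G g ∈ S)
    (hmul : ∀ g h : κ, g ≠ 0 → h ≠ 0 → (sym m (G (g * h)) - sym m (G g) - sym m (G h)) * sym m t ∈
      Algebra.adjoin (ZMod m) (sym m '' S))
    (hst : ∀ g h : κ, g ≠ 0 → h ≠ 0 → g + h = 1 → sym m (G g) * sym m (G h) * sym m t ∈
      Algebra.adjoin (ZMod m) (sym m '' S))
    (hlift : ∀ u ∈ S, u ≠ 0 → (sym m u - sym m (G (ρ u))) * sym m t ∈
      Algebra.adjoin (ZMod m) (sym m '' S)) (hS1 : (-1 : K) ∈ S) (hρ1 : ρ (-1) = -1) {x : KM m K}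
    (hx : x ∈ Algebra.adjoin (ZMod m) (sym m '' S)) (hx0 : spec x = 0) :
    x * sym m t ∈ Algebra.adjoin (ZMod m) (sym m '' S) := by
  set L := Algebra.adjoin (ZMod m) (sym m '' S) with hL
  have hsymS : ∀ u ∈ S, sym m u ∈ L := fun u hu => Algebra.subset_adjoin ⟨u, hu, rfl⟩
  have hcomm : ∀ w : KM m K, w * sym m t = sym m t * eps m K w := by
    intro w
    rw [sym_mul_eq hm, eps_eps]
  let J : Submodule (ZMod m) L :=
    { carrier := {z | (z : KM m K) * sym m t ∈ L}
      add_mem' := by
        intro a b ha hb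
        simp only [Set.mem_ofPred_eq, Subalgebra.coe_add, add_mul] at *
        exact add_mem ha hb
      zero_mem' := by simp
      smul_mem' := by
        intro c z hz
        simp only [Set.mem_ofPred_eq, Subalgebra.coe_smul, smul_mul_assoc] at *
        exact Subalgebra.smul_mem _ hz _ }
  have hJ : ∀ z : L, z ∈ J ↔ (z : KM m K) * sym m t ∈ L := fun z => Iff.rfl
  have hleft : ∀ w : L, J ≤ J.comap (LinearMap.mulLeft (ZMod m) w) := by
    intro w z hz
    rw [Submodule.mem_comap, LinearMap.mulLeft_apply, hJ]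
    simp only [Subalgebra.coe_mul, mul_assoc]
    exact mul_mem w.2 ((hJ z).mp hz)
  have hright : ∀ (a : KM m K) (_ : a ∈ L) (w : L), a * sym m t ∈ L →
      a * (w : KM m K) * sym m t ∈ L := by
    intro a _ w h
    rw [mul_assoc, hcomm, ← mul_assoc]
    exact mul_mem h (eps_mem_adjoin w.2)
  let q : L → Module.End (ZMod m) (L ⧸ J) := fun w =>
    J.mapQ J (LinearMap.mulLeft (ZMod m) w) (hleft w)
  have hq : ∀ (w z : L), q w (J.mkQ z) = J.mkQ (w * z) := by
    intro w z
    simp [q]
  have hqext : ∀ (a : Module.End (ZMod m) (L ⧸ J)) (b : Module.End (ZMod m) (L ⧸ J)),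
      (∀ z : L, a (J.mkQ z) = b (J.mkQ z)) → a = b := by
    intro a b h
    apply LinearMap.ext
    intro y
    obtain ⟨z, rfl⟩ := J.mkQ_surjective y
    exact h z
  have hqeq : ∀ w w' : L, ((w : KM m K) - w') * sym m t ∈ L → q w = q w' := by
    intro w w' h
    apply hqext
    intro z
    rw [hq, hq, ← sub_eq_zero, ← map_sub, ← LinearMap.mem_ker, Submodule.ker_mkQ, hJ, ← sub_mul]
    simp only [Subalgebra.coe_mul]
    exact hright _ (sub_mem w.2 w'.2) z h
  let g0 : κˣ → L := fun a => ⟨sym m (G a), hsymS _ (hGS _ a.ne_zero)⟩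
  let Ψ : KM m κ →ₐ[ZMod m] Module.End (ZMod m) (L ⧸ J) := lift (fun a => q (g0 a))
    (by
      intro a b
      apply hqext
      intro z
      rw [LinearMap.add_apply, hq, hq, hq, ← map_add, ← sub_eq_zero, ← map_sub,
        ← LinearMap.mem_ker, Submodule.ker_mkQ, hJ]
      have h1 : (((g0 (a * b) * z - (g0 a * z + g0 b * z) : L)) : KM m K) =
          (sym m (G ((a : κ) * b)) - sym m (G a) - sym m (G b)) * z := by
        simp only [g0, Subalgebra.coe_sub, Subalgebra.coe_mul, Subalgebra.coe_add, Units.val_mul]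
        rw [sub_mul, sub_mul]; abel
      rw [h1]
      exact hright _ (sub_mem (sub_mem (g0 (a * b)).2 (g0 a).2) (g0 b).2) z
        (hmul _ _ a.ne_zero b.ne_zero))
    (by
      intro a b h
      apply hqext
      intro z
      rw [Module.End.mul_apply, hq, hq, LinearMap.zero_apply, ← LinearMap.mem_ker,
        Submodule.ker_mkQ, hJ, ← mul_assoc]
      simp only [Subalgebra.coe_mul]
      exact hright _ (mul_mem (g0 a).2 (g0 b).2) z (hst _ _ a.ne_zero b.ne_zero h))
    (by
      apply hqext
      intro z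
      rw [hq, LinearMap.zero_apply, ← LinearMap.mem_ker, Submodule.ker_mkQ, hJ]
      simp only [Subalgebra.coe_mul]
      refine hright _ (g0 (-1)).2 z ?_
      have h1 := hlift (-1) hS1 (by simp)
      rw [sym_neg_one hm, zero_sub, hρ1, neg_mul] at h1
      have h2 : ((g0 (-1) : L) : KM m K) = sym m (G (-1)) := by
        simp only [g0, Units.val_neg, Units.val_one]
      rw [h2]
      exact neg_mem_iff.mp h1)
  have key : ∀ x (hx : x ∈ L), Ψ (spec x) = q ⟨x, hx⟩ := by
    intro x hx
    induction hx using Algebra.adjoin_induction with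
    | mem x hx =>
      obtain ⟨u, hu, rfl⟩ := hx
      by_cases hu0 : u = 0
      · subst hu0
        apply hqext
        intro z
        rw [hq]
        have : (⟨sym m (0 : K), hsymS _ hu⟩ : L) = 0 := by
          ext; simp
        rw [this]
        simp
      · rw [hspec u hu, sym_of_ne ((map_ne_zero ρ).mpr hu0), lift_usym]
        symm
        apply hqeq
        exact hlift u hu hu0
    | algebraMap r =>
      rw [AlgHom.commutes, AlgHom.commutes]
      apply hqext
      intro z
      rw [hq, Module.algebraMap_end_apply, ← map_smul]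
      congr 1
    | add x y hx hy ihx ihy =>
      rw [map_add, map_add, ihx, ihy]
      apply hqext
      intro z
      rw [LinearMap.add_apply, hq, hq, hq, ← map_add]
      congr 1
      ext
      simp [add_mul]
    | mul x y hx hy ihx ihy =>
      rw [map_mul, map_mul, ihx, ihy]
      apply hqext
      intro z
      rw [Module.End.mul_apply, hq, hq, hq]
      congr 1
      ext
      simp [mul_assoc]
  have h1 := key x hx
  rw [hx0, map_zero] at h1
  have h2 := hq ⟨x, hx⟩ 1
  rw [← h1, LinearMap.zero_apply, mul_one] at h2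
  have h3 := h2.symm
  rw [← LinearMap.mem_ker, Submodule.ker_mkQ, hJ] at h3
  exact h3

end lifting

end UnrG
end
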