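import Pool.Agent.Lib.MP_859dd5_ag.Mg.G055
import Pool.Agent.Lib.MP_859dd5_ag.Mg.G054
import Pool.Agent.Lib.MP_859dd5_ag.EQ.Fun
import Pool.Agent.Lib.MP_859dd5_ag.Mg.G058
import Pool.Agent.Lib.MP_859dd5_ag.K.I0

section

/-!
# Unramified elements of a rational function field, and injectivity for finite extensions
-/

namespace UnrH3

universe u v w

open Polynomial

variable {m : ℕ}

section general

variable {K : Type u} {L : Type v} {κ : Type w} [Field K] [Field L] [Field κ]

lemma DVal.θ_const (hm : Odd m) (D : DVal L κ) (f : K →+* L) (j : K →+* κ)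
    (hv : ∀ a : K, a ≠ 0 → D.v (f a) = 0) (hρ : ∀ a : K, a ≠ 0 → D.ρ (f a) = j a)
    (x : KM m K) : D.θ hm (KM.map m f x) = ⟨KM.map m j x, 0⟩ := by
  have h : (D.θ hm).comp (KM.map m f) = (KMX.const m κ).comp (KM.map m j) := by
    apply algHom_ext'
    intro a ha
    have hfa : f a ≠ 0 := (map_ne_zero f).mpr ha
    rw [AlgHom.comp_apply, AlgHom.comp_apply, KM.map_sym, KM.map_sym, D.θ_sym hm hfa, hv a ha,
      hρ a ha]
    ext <;> simp
  exact congrArg (fun g : KM m K →ₐ[ZMod m] KMX m κ => g x) h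

/-- Restriction of a discrete valuation to a subfield. -/
def DVal.comap (D : DVal L κ) (f : K →+* L) : DVal K κ where
  v x := D.v (f x)
  ρ := D.ρ.comp f.toMonoidWithZeroHom
  v_mul a b ha hb := by
    rw [map_mul, D.v_mul _ _ ((map_ne_zero f).mpr ha) ((map_ne_zero f).mpr hb)]
  st a b ha hb hab := D.st (f a) (f b) ((map_ne_zero f).mpr ha) ((map_ne_zero f).mpr hb)
            (by rw [← map_add, hab, map_one])

end general

section hom

variable {R : Type w} {K : Type u} {κ : Type v} [CommRing R] [IsDomain R] [Field K] [Field κ]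

lemma isFractionRing_of_hom (ι : R →+* K) (hι : Function.Injective ι)
    (hsurj : ∀ z : K, ∃ x y : R, z = ι x / ι y) :
    @IsFractionRing R _ K _ ι.toAlgebra := by
  letI := ι.toAlgebra
  haveI : FaithfulSMul R K := (faithfulSMul_iff_algebraMap_injective R K).mpr hι
  exact IsFractionRing.of_field R K hsurj

/-- Variant of `DVal.ofPrime` with an explicit embedding of `R` in `K`. -/
noncomputable def DVal.ofHom (ι : R →+* K) (hι : Function.Injective ι)
    (hsurj : ∀ z : K, ∃ x y : R, z = ι x / ι y) (π : R →+* κ) (p : R) (hp : p ≠ 0)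
    (hker : π p = 0)
    (hfin : ∀ a : R, a ≠ 0 → ∃ (n : ℕ) (u : R), a = p ^ n * u ∧ π u ≠ 0) : DVal K κ :=
  letI := ι.toAlgebra
  haveI := isFractionRing_of_hom ι hι hsurj
  DVal.ofPrime K π p hp hker hfin

lemma DVal.ofHom_eq (ι : R →+* K) (hι : Function.Injective ι)
    (hsurj : ∀ z : K, ∃ x y : R, z = ι x / ι y) (π : R →+* κ) (p : R) (hp : p ≠ 0)
    (hker : π p = 0)
    (hfin : ∀ a : R, a ≠ 0 → ∃ (n : ℕ) (u : R), a = p ^ n * u ∧ π u ≠ 0)
    {x : K} (n : ℤ) (u w : R) (hu : π u ≠ 0) (hw : π w ≠ 0)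
    (hx : x = (ι p) ^ n * (ι u / ι w)) :
    (DVal.ofHom ι hι hsurj π p hp hker hfin).v x = n ∧
    (DVal.ofHom ι hι hsurj π p hp hker hfin).ρ x = π u / π w := by
  letI := ι.toAlgebra
  haveI := isFractionRing_of_hom ι hι hsurj
  have hu0 : u ≠ 0 := by rintro rfl; simp at hu
  have hw0 : w ≠ 0 := by rintro rfl; simp at hw
  have hx0 : x ≠ 0 := by
    rw [hx]
    exact mul_ne_zero (zpow_ne_zero _ ((map_ne_zero_iff ι hι).mpr hp))
      (div_ne_zero ((map_ne_zero_iff ι hι).mpr hu0) ((map_ne_zero_iff ι hι).mpr hw0))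
  exact DVal.ofPrime_eq π p hp hker hfin hx0 ⟨u, w, hu, hw, hx, rfl⟩

end hom

section zero

variable {K : Type u} [Field K]

lemma algebraMap_ratFunc_eq (a : K) :
    algebraMap K (RatFunc K) a = algebraMap K[X] (RatFunc K) (C a) :=
  IsScalarTower.algebraMap_apply K K[X] (RatFunc K) a

/-- The valuation at `0` of the rational function field, with residue field `K`. -/
noncomputable def valZero (K : Type u) [Field K] : DVal (RatFunc K) K :=
  DVal.ofPrime (RatFunc K) (evalRingHom (0 : K)) X X_ne_zero (by simp)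
    (by
      intro a ha
      obtain ⟨n, c, hc, h⟩ := WfDvdMonoid.max_power_factor ha (Polynomial.irreducible_X)
      refine ⟨n, c, h, ?_⟩
      rw [X_dvd_iff, coeff_zero_eq_eval_zero] at hc
      simpa using hc)

lemma valZero_eq {x : RatFunc K} (n : ℤ) (u w : K[X]) (hu : u.eval 0 ≠ 0) (hw : w.eval 0 ≠ 0)
    (hx : x = (algebraMap K[X] (RatFunc K) X) ^ n *
      (algebraMap K[X] (RatFunc K) u / algebraMap K[X] (RatFunc K) w)) :
    (valZero K).v x = n ∧ (valZero K).ρ x = u.eval 0 / w.eval 0 := by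
  have hu0 : u ≠ 0 := by rintro rfl; simp at hu
  have hw0 : w ≠ 0 := by rintro rfl; simp at hw
  have hx0 : x ≠ 0 := by
    rw [hx]
    exact mul_ne_zero (zpow_ne_zero _ (by simpa using RatFunc.X_ne_zero))
      (div_ne_zero (by simpa using hu0) (by simpa using hw0))
  exact DVal.ofPrime_eq (K := RatFunc K) (evalRingHom (0 : K)) X _ _ _ hx0
    ⟨u, w, hu, hw, hx, rfl⟩

lemma valZero_const {a : K} (ha : a ≠ 0) :
    (valZero K).v (algebraMap K (RatFunc K) a) = 0 ∧
    (valZero K).ρ (algebraMap K (RatFunc K) a) = a := by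
  have := valZero_eq (x := algebraMap K (RatFunc K) a) 0 (C a) 1 (by simpa using ha) (by simp)
    (by simp)
  simpa using this

/-- The K-ring of `K` injects in the K-ring of `K(t)`. -/
theorem map_ratFunc_injective (hm : Odd m) :
    Function.Injective (KM.map m (algebraMap K (RatFunc K))) := by
  intro x y hxy
  have h : ∀ z : KM m K, (valZero K).spec hm (KM.map m (algebraMap K (RatFunc K)) z) = z := by
    intro z
    rw [DVal.spec_apply, (valZero K).θ_const hm _ (RingHom.id K)
      (fun a ha => (valZero_const ha).1) (fun a ha => (valZero_const ha).2)]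
    simp
  rw [← h x, ← h y, hxy]

end zero

section descent

variable {K L : Type u} [Field K] [Field L]

/-- Descent of unramifiedness along an extension of valuations with ramification index prime
to `m` and injective residue extension. -/
lemma unrAt_of_map (hm : Odd m) (f : K →+* L) (A : ValuationSubring K)
    [IsDiscreteValuationRing A] (ϖ : A) (hϖ : Irreducible ϖ) {κ' : Type u} [Field κ']
    (D' : DVal L κ') {ϖ' : L} (hϖ'0 : ϖ' ≠ 0) (hϖ' : D'.v ϖ' = 1)
    (j : IsLocalRing.ResidueField A →+* κ')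
    (e : ℤ) (c : κ') (hc : c ≠ 0)
    (hv : ∀ a : K, a ≠ 0 → D'.v (f a) = e * (DVal.ofDVR A ϖ hϖ).v a)
    (hρ : ∀ a : K, a ≠ 0 → D'.ρ (f a) = j ((DVal.ofDVR A ϖ hϖ).ρ a) * c ^ ((DVal.ofDVR A ϖ hϖ).v a))
    (he : IsUnit ((e : ℤ) : ZMod m)) (hj : Function.Injective (KM.map m j))
    {y : KM m K} (hy : Unr (KM.map m f y)) : UnrAt m A y := by
  rw [unrAt_iff_res A ϖ hϖ hm]
  have h1 := hy.res_eq_zero D' hm hϖ'0 hϖ'
  rw [DVal.res_map hm (DVal.ofDVR A ϖ hϖ) D' f j e c hc hv hρ] at h1
  obtain ⟨e', he'⟩ := he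
  rw [← he'] at h1
  have h2 := congrArg (fun z => ((e'⁻¹ : (ZMod m)ˣ) : ZMod m) • z) h1
  simp only [smul_smul, Units.inv_mul, one_smul, smul_zero] at h2
  apply hj
  rw [h2, map_zero]

end descent

section gauss

variable {K : Type u} [Field K] (A : ValuationSubring K)

/-- The embedding of `A[X]` in `K(X)`. -/
noncomputable def gaussEmb : A[X] →+* RatFunc K :=
  (algebraMap K[X] (RatFunc K)).comp (mapRingHom A.subtype)

lemma gaussEmb_injective : Function.Injective (gaussEmb A) := by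
  unfold gaussEmb
  rw [RingHom.coe_comp]
  exact (IsFractionRing.injective K[X] (RatFunc K)).comp
    (Polynomial.map_injective _ (ValuationSubring.subtype_injective A))

lemma gaussEmb_surj (z : RatFunc K) : ∃ x y : A[X], z = gaussEmb A x / gaussEmb A y := by
  have key : ∀ f : K[X], ∃ (b : A) (g : A[X]), b ≠ 0 ∧
      mapRingHom A.subtype g = C (b : K) * f := by
    intro f
    obtain ⟨b, hb, h⟩ := IsLocalization.integerNormalization_spec (nonZeroDivisors A) f
    refine ⟨b, IsLocalization.integerNormalization (nonZeroDivisors A) f,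
      nonZeroDivisors.ne_zero hb, ?_⟩
    rw [← smul_eq_C_mul]
    exact h
  obtain ⟨f, g, hg, rfl⟩ := IsFractionRing.div_surjective (A := K[X]) z
  obtain ⟨b, f', hb, hf'⟩ := key f
  obtain ⟨c, g', hc, hg'⟩ := key g
  have hb' : (b : K) ≠ 0 := by simpa using hb
  have hc' : (c : K) ≠ 0 := by simpa using hc
  have hcC : algebraMap K[X] (RatFunc K) (C (c : K)) ≠ 0 := by simpa using hc'
  have hbC : algebraMap K[X] (RatFunc K) (C (b : K)) ≠ 0 := by simpa using hb'
  refine ⟨C c * f', C b * g', ?_⟩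
  simp only [gaussEmb, RingHom.comp_apply, map_mul, hf', hg']
  simp only [coe_mapRingHom, map_C]
  change _ = (algebraMap K[X] (RatFunc K) (C (c : K)) * (algebraMap K[X] (RatFunc K) (C (b : K)) *
    algebraMap K[X] (RatFunc K) f)) / (algebraMap K[X] (RatFunc K) (C (b : K)) *
    (algebraMap K[X] (RatFunc K) (C (c : K)) * algebraMap K[X] (RatFunc K) g))
  have hg0 : algebraMap K[X] (RatFunc K) g ≠ 0 := by simpa using nonZeroDivisors.ne_zero hg
  field_simp

variable [IsDiscreteValuationRing A] (ϖ : A) (hϖ : Irreducible ϖ)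

/-- The reduction `A[X] → κ(X)`. -/
noncomputable def gaussRed : A[X] →+* RatFunc (IsLocalRing.ResidueField A) :=
  (algebraMap (IsLocalRing.ResidueField A)[X] (RatFunc (IsLocalRing.ResidueField A))).comp
    (mapRingHom (IsLocalRing.residue A))

include hϖ in
lemma gaussRed_eq_zero_iff (f : A[X]) : gaussRed A f = 0 ↔ C ϖ ∣ f := by
  unfold gaussRed
  rw [RingHom.comp_apply, map_eq_zero_iff _ (IsFractionRing.injective _ _),
    Polynomial.C_dvd_iff_dvd_coeff, coe_mapRingHom, Polynomial.ext_iff]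
  apply forall_congr'
  intro i
  rw [coeff_map, coeff_zero, IsLocalRing.residue_eq_zero_iff, hϖ.maximalIdeal_eq,
    Ideal.mem_span_singleton]

/-- The Gauss valuation. -/
noncomputable def gaussVal : DVal (RatFunc K) (RatFunc (IsLocalRing.ResidueField A)) :=
  DVal.ofHom (gaussEmb A) (gaussEmb_injective A) (gaussEmb_surj A) (gaussRed A) (C ϖ)
    (by simpa using hϖ.ne_zero) (by rw [gaussRed_eq_zero_iff A ϖ hϖ])
    (by
      intro a ha
      have hC : ¬ IsUnit (C ϖ : A[X]) := by
        rw [Polynomial.isUnit_C]; exact hϖ.not_isUnit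
      obtain ⟨n, c, hc, h⟩ := WfDvdMonoid.max_power_factor' ha hC
      exact ⟨n, c, h, by rwa [Ne, gaussRed_eq_zero_iff A ϖ hϖ]⟩)

lemma gaussVal_const {a : K} (ha : a ≠ 0) :
    (gaussVal A ϖ hϖ).v (algebraMap K (RatFunc K) a) = (DVal.ofDVR A ϖ hϖ).v a ∧
    (gaussVal A ϖ hϖ).ρ (algebraMap K (RatFunc K) a) =
      algebraMap _ (RatFunc (IsLocalRing.ResidueField A)) ((DVal.ofDVR A ϖ hϖ).ρ a) := by
  obtain ⟨u, w, hu, hw, h1, h2⟩ : Rep (IsLocalRing.residue A) ϖ a ((DVal.ofDVR A ϖ hϖ).v a)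
    ((DVal.ofDVR A ϖ hϖ).ρ a) := DVal.ofPrime_rep (K := K) (IsLocalRing.residue A) ϖ _ _ _ ha
  have hC : ∀ x : A, gaussEmb A (C x) = algebraMap K (RatFunc K) (x : K) := by
    intro x
    simp [gaussEmb, RatFunc.algebraMap_C]
  have hR : ∀ x : A, gaussRed A (C x) = algebraMap _ (RatFunc (IsLocalRing.ResidueField A))
      (IsLocalRing.residue A x) := by
    intro x
    simp [gaussRed, RatFunc.algebraMap_C]
  have h3 := DVal.ofHom_eq (gaussEmb A) (gaussEmb_injective A) (gaussEmb_surj A) (gaussRed A)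
    (C ϖ) (by simpa using hϖ.ne_zero) (by rw [gaussRed_eq_zero_iff A ϖ hϖ])
    (by
      intro a ha
      have hC : ¬ IsUnit (C ϖ : A[X]) := by
        rw [Polynomial.isUnit_C]; exact hϖ.not_isUnit
      obtain ⟨n, c, hc, h⟩ := WfDvdMonoid.max_power_factor' ha hC
      exact ⟨n, c, h, by rwa [Ne, gaussRed_eq_zero_iff A ϖ hϖ]⟩)
    (x := algebraMap K (RatFunc K) a) ((DVal.ofDVR A ϖ hϖ).v a) (C u) (C w)
    (by rw [hR]; simpa using hu) (by rw [hR]; simpa using hw)
    (by
      rw [hC, hC, hC, ← map_zpow₀, ← map_div₀, ← map_mul]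
      congr 1)
  refine ⟨h3.1, ?_⟩
  rw [h2, map_div₀, ← hR, ← hR]
  exact h3.2

end gauss

section ratfunc

variable {K : Type u} [Field K]

/-- Unramifiedness can be tested after a purely transcendental extension. -/
theorem unr_of_map_ratFunc (hm : Odd m) {y : KM m K}
    (hy : Unr (KM.map m (algebraMap K (RatFunc K)) y)) : Unr y := by
  intro A hA
  obtain ⟨ϖ, hϖ⟩ := IsDiscreteValuationRing.exists_irreducible A
  have hϖ0 : (ϖ : K) ≠ 0 := by simpa using hϖ.ne_zero
  refine unrAt_of_map hm (algebraMap K (RatFunc K)) A ϖ hϖ (gaussVal A ϖ hϖ)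
    (ϖ' := algebraMap K (RatFunc K) ϖ) (by simpa using hϖ0) ?_
    (algebraMap (IsLocalRing.ResidueField A) (RatFunc (IsLocalRing.ResidueField A))) 1 1
    one_ne_zero ?_ ?_ (by simp) (map_ratFunc_injective hm) hy
  · rw [(gaussVal_const A ϖ hϖ hϖ0).1, DVal.ofDVR_v_self]
  · intro a ha
    rw [(gaussVal_const A ϖ hϖ ha).1, one_mul]
  · intro a ha
    rw [(gaussVal_const A ϖ hϖ ha).2, one_zpow, mul_one]

/-- Unramified elements of `K(t)` come from unramified elements of `K`. -/
theorem unr_ratFunc (hm : Odd m) {x : KM m (RatFunc K)} (hx : Unr x) :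
    ∃ y : KM m K, Unr y ∧ KM.map m (algebraMap K (RatFunc K)) y = x := by
  obtain ⟨y, hy⟩ := milnor hm x (by
    intro p hpm hp
    exact hx.res_eq_zero (placeVal p) hm (ϖ := algebraMap K[X] (RatFunc K) p)
      (by simpa using hp.out.ne_zero) (placeVal_v_self p))
  exact ⟨y, unr_of_map_ratFunc hm (by rw [hy]; exact hx), hy⟩

end ratfunc

section inj

variable {K : Type u} [Field K]

/-- The automorphism `t ↦ 1/t` of the rational function field. -/
noncomputable def ratInv (K : Type u) [Field K] : RatFunc K →+* RatFunc K :=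
  IsFractionRing.lift (A := K[X]) (g := (aeval (RatFunc.X⁻¹ : RatFunc K) : K[X] →ₐ[K] RatFunc K).toRingHom)
    (by
      have h : Transcendental K (RatFunc.X⁻¹ : RatFunc K) := by
        intro h
        exact RatFunc.transcendental_X (by simpa using h.inv)
      exact transcendental_iff_injective.mp h)

lemma ratInv_algebraMap (f : K[X]) :
    ratInv K (algebraMap K[X] (RatFunc K) f) = aeval (RatFunc.X⁻¹ : RatFunc K) f := by
  unfold ratInv
  rw [IsFractionRing.lift_algebraMap]
  rfl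

/-- The valuation at infinity of the rational function field. -/
noncomputable def valInfty (K : Type u) [Field K] : DVal (RatFunc K) K :=
  (valZero K).comap (ratInv K)

lemma valInfty_const {a : K} (ha : a ≠ 0) :
    (valInfty K).v (algebraMap K (RatFunc K) a) = 0 ∧
    (valInfty K).ρ (algebraMap K (RatFunc K) a) = a := by
  have h : ratInv K (algebraMap K (RatFunc K) a) = algebraMap K (RatFunc K) a := by
    rw [algebraMap_ratFunc_eq, ratInv_algebraMap, aeval_C, algebraMap_ratFunc_eq]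
  unfold valInfty DVal.comap
  simp only [MonoidWithZeroHom.comp_apply]
  change (valZero K).v (ratInv K (algebraMap K (RatFunc K) a)) = 0 ∧
    (valZero K).ρ (ratInv K (algebraMap K (RatFunc K) a)) = a
  rw [h]
  exact valZero_const ha

lemma valInfty_monic {p : K[X]} (hp : p.Monic) :
    (valInfty K).v (algebraMap K[X] (RatFunc K) p) = - p.natDegree ∧
    (valInfty K).ρ (algebraMap K[X] (RatFunc K) p) = 1 := by
  change (valZero K).v (ratInv K (algebraMap K[X] (RatFunc K) p)) = _ ∧
    (valZero K).ρ (ratInv K (algebraMap K[X] (RatFunc K) p)) = _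
  have hX : (RatFunc.X⁻¹ : RatFunc K) ≠ 0 := inv_ne_zero RatFunc.X_ne_zero
  have h1 := valZero_eq (x := ratInv K (algebraMap K[X] (RatFunc K) p)) (-(p.natDegree : ℤ))
    p.reverse 1 (by rw [← coeff_zero_eq_eval_zero, coeff_zero_reverse, hp.leadingCoeff]; simp)
    (by simp) (by
      rw [ratInv_algebraMap, map_one, div_one]
      letI : Invertible (RatFunc.X⁻¹ : RatFunc K) := invertibleOfNonzero hX
      have h2 := eval₂_reverse_mul_pow (algebraMap K (RatFunc K)) (RatFunc.X⁻¹ : RatFunc K) p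
      rw [← aeval_def, ← aeval_def] at h2
      rw [← h2, zpow_neg, zpow_natCast, mul_comm]
      have h3 : ⅟(RatFunc.X⁻¹ : RatFunc K) = RatFunc.X := by
        rw [invOf_eq_inv, inv_inv]
      rw [h3, RatFunc.algebraMap_X, inv_pow]
      congr 1
      have h4 : ∀ q : K[X], aeval (RatFunc.X : RatFunc K) q = algebraMap K[X] (RatFunc K) q := by
        intro q
        rw [← RatFunc.algebraMap_X, aeval_algebraMap_apply, aeval_X_left_apply]
      exact h4 _)
  refine ⟨h1.1, ?_⟩
  rw [h1.2, ← coeff_zero_eq_eval_zero, coeff_zero_reverse, hp.leadingCoeff]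
  simp

/-- The K-ring of `K` modulo `m` injects in that of a simple extension of degree prime
to `m`. -/
theorem adjoinRoot_injective (hm : Odd m) (p : K[X]) [hp : Fact (Irreducible p)] (hpm : p.Monic)
    (hdeg : p.natDegree.Coprime m) {y : KM m K} (hy : KM.map m (AdjoinRoot.of p) y = 0) :
    y = 0 := by
  set s := sym m (algebraMap K[X] (RatFunc K) p) with hs
  have hpK : algebraMap K[X] (RatFunc K) p ≠ 0 := by simpa using hp.out.ne_zero
  have hconst : ∀ (q : K[X]) [Fact (Irreducible q)],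
      (placeVal q).θ hm (KM.map m (algebraMap K (RatFunc K)) y) =
        ⟨KM.map m (AdjoinRoot.of q) y, 0⟩ := by
    intro q hq
    have hnd : ∀ a : K, a ≠ 0 → ¬ q ∣ C a := fun a ha h => by
      have h1 := isUnit_of_dvd_unit h (isUnit_C.mpr (isUnit_iff_ne_zero.mpr ha))
      exact hq.out.not_isUnit h1
    apply DVal.θ_const
    · intro a ha
      rw [algebraMap_ratFunc_eq]
      exact (placeVal_unit q (hnd a ha)).1
    · intro a ha
      rw [algebraMap_ratFunc_eq]
      exact (placeVal_unit q (hnd a ha)).2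
  obtain ⟨w, hw⟩ := milnor hm (KM.map m (algebraMap K (RatFunc K)) y * s) (by
    intro q hqm hq
    rw [DVal.res, map_mul, hconst q, hs, DVal.θ_sym _ hm hpK, KMX.mul_snd]
    by_cases hqp : q ∣ p
    · have h1 : q = p := eq_of_monic_of_associated hqm hpm (hq.out.associated_of_dvd hp.out hqp)
      subst h1
      rw [hy]
      simp
    · rw [(placeVal_unit q hqp).1]
      simp)
  have h1 := (valInfty K).θ_const hm (algebraMap K (RatFunc K)) (RingHom.id K)
    (fun a ha => (valInfty_const ha).1) (fun a ha => (valInfty_const ha).2)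
  have h2 : ((valInfty K).θ hm (KM.map m (algebraMap K (RatFunc K)) w)).snd =
      ((valInfty K).θ hm (KM.map m (algebraMap K (RatFunc K)) y * s)).snd := by rw [hw]
  rw [map_mul, h1, h1, hs, DVal.θ_sym _ hm hpK, KMX.mul_snd, (valInfty_monic hpm).1] at h2
  simp only [KM.map_id, AlgHom.id_apply, zero_mul, add_zero, mul_smul_comm, mul_one] at h2
  apply smul_eq_zero_of_coprime hdeg
  rw [← Nat.cast_smul_eq_nsmul (ZMod m)]
  push_cast at h2
  rw [neg_smul, eq_comm, neg_eq_zero] at h2
  exact h2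

/-- Injectivity for a simple extension of degree prime to `m`, in terms of a generator. -/
theorem map_injective_of_root (hm : Odd m) {L : Type v} [Field L] (j : K →+* L) (p : K[X])
    (hp : Irreducible p) (hpm : p.Monic) (hdeg : p.natDegree.Coprime m) (θ : L)
    (hθ : p.eval₂ j θ = 0) (hgen : ∀ z : L, ∃ f : K[X], z = f.eval₂ j θ) :
    Function.Injective (KM.map m j) := by
  have : Fact (Irreducible p) := ⟨hp⟩
  let ψ : AdjoinRoot p →+* L := AdjoinRoot.lift j θ hθ
  have hψ : Function.Bijective ψ := by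
    refine ⟨ψ.injective, ?_⟩
    intro z
    obtain ⟨f, rfl⟩ := hgen z
    exact ⟨AdjoinRoot.mk p f, AdjoinRoot.lift_mk hθ f⟩
  let e := RingEquiv.ofBijective ψ hψ
  have he : (e.symm : L →+* AdjoinRoot p).comp j = AdjoinRoot.of p := by
    ext a
    rw [RingHom.comp_apply]
    change e.symm (j a) = _
    rw [RingEquiv.symm_apply_eq]
    change j a = ψ (AdjoinRoot.of p a)
    exact (AdjoinRoot.lift_of hθ).symm
  rw [injective_iff_map_eq_zero]
  intro y hy
  apply adjoinRoot_injective hm p hpm hdeg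
  rw [← he, ← KM.map_map, hy, map_zero]

end inj

end UnrH3
end

section

/-!
# Quadratic extensions
-/

namespace UnrH3

universe u v w

open Polynomial

variable {m : ℕ}

/-- The field extension `j : K → L` is quadratic with basis `1, θ`. -/
structure IsQuad {K : Type u} {L : Type v} [Field K] [Field L] (j : K →+* L) (θ : L) : Prop where
  span : ∀ z : L, ∃ a b : K, z = j a + j b * θ
  not_mem : ∀ a : K, j a ≠ θ

section basic

variable {K : Type u} {L : Type v} [Field K] [Field L] {j : K →+* L} {θ : L}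

/-- Any element outside `K` can serve as the second basis vector. -/
lemma IsQuad.change (h : IsQuad j θ) {b : L} (hb : ∀ a : K, j a ≠ b) : IsQuad j b := by
  refine ⟨?_, hb⟩
  intro z
  obtain ⟨b₀, b₁, hb'⟩ := h.span b
  have hb1 : b₁ ≠ 0 := by
    rintro rfl
    exact hb b₀ (by rw [hb']; simp)
  have hb1' : j b₁ ≠ 0 := (map_ne_zero j).mpr hb1
  obtain ⟨z₀, z₁, rfl⟩ := h.span z
  refine ⟨z₀ - z₁ * b₀ / b₁, z₁ / b₁, ?_⟩
  have hθ : θ = (b - j b₀) / j b₁ := by rw [hb']; field_simp; ring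
  rw [hθ]
  simp only [map_sub, map_mul, map_div₀]
  field_simp
  ring

/-- Injectivity for a quadratic extension. -/
theorem IsQuad.map_injective (hm : Odd m) (h : IsQuad j θ) :
    Function.Injective (KM.map m j) := by
  obtain ⟨s, t, hst⟩ := h.span (θ * θ)
  set p : K[X] := X ^ 2 - C t * X - C s with hp
  have hpeq : p = C 1 * X ^ 2 + C (-t) * X + C (-s) := by
    rw [hp]; simp only [C_neg, C_1]; ring
  have hpd : p.natDegree = 2 := by
    rw [hpeq]; exact natDegree_quadratic one_ne_zero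
  have hpm : p.Monic := by
    rw [Monic, hpeq]
    exact leadingCoeff_quadratic one_ne_zero
  have hirr : Irreducible p := by
    rw [hpm.irreducible_iff_roots_eq_zero_of_degree_le_three (by omega) (by omega)]
    rw [Multiset.eq_zero_iff_forall_notMem]
    intro r hr
    rw [mem_roots hpm.ne_zero, IsRoot.def, hp] at hr
    simp only [eval_sub, eval_pow, eval_X, eval_mul, eval_C] at hr
    have h1 := congrArg j hr
    simp only [map_sub, map_pow, map_mul, map_zero] at h1
    have h2 : (θ - j r) * (θ - j (t - r)) = 0 := by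
      rw [map_sub]
      linear_combination hst - h1
    rcases mul_eq_zero.mp h2 with h3 | h3
    · exact h.not_mem r (sub_eq_zero.mp h3).symm
    · exact h.not_mem (t - r) (sub_eq_zero.mp h3).symm
  refine map_injective_of_root hm j p hirr hpm ?_ θ ?_ ?_
  · rw [hpd]
    exact (Nat.coprime_two_left (n := m)).mpr hm
  · rw [hp]
    simp only [eval₂_sub, eval₂_pow, eval₂_X, eval₂_mul, eval₂_C]
    linear_combination hst
  · intro z
    obtain ⟨a, b, rfl⟩ := h.span z
    exact ⟨C a + C b * X, by simp⟩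

/-- The K-ring of a quadratic extension is generated over that of the base by symbols. -/
lemma IsQuad.mem_span (hm : Odd m) (h : IsQuad j θ) (x : KM m L) :
    x ∈ Submodule.span (ZMod m) {z : KM m L | (∃ y : KM m K, z = KM.map m j y) ∨
      (∃ (a : L) (y : KM m K), z = sym m a * KM.map m j y)} := by
  set S : Set (KM m L) := {z : KM m L | (∃ y : KM m K, z = KM.map m j y) ∨
      (∃ (a : L) (y : KM m K), z = sym m a * KM.map m j y)} with hS
  have hS1 : ∀ y : KM m K, KM.map m j y ∈ Submodule.span (ZMod m) S := fun y =>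
    Submodule.subset_span (Or.inl ⟨y, rfl⟩)
  have hS2 : ∀ (a : L) (y : KM m K), sym m a * KM.map m j y ∈ Submodule.span (ZMod m) S :=
    fun a y => Submodule.subset_span (Or.inr ⟨a, y, rfl⟩)
  have key : ∀ (b a : L) (y : KM m K),
      sym m b * (sym m a * KM.map m j y) ∈ Submodule.span (ZMod m) S := by
    intro b a y
    by_cases ha : ∃ a₀, j a₀ = a
    · obtain ⟨a₀, rfl⟩ := ha
      rw [← KM.map_sym, ← map_mul]
      exact hS2 _ _
    push Not at ha
    obtain ⟨c, d, hb⟩ := (h.change ha).span b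
    have ha0 : a ≠ 0 := fun h0 => ha 0 (by rw [h0, map_zero])
    have hcomm : ∀ c : K, sym m (j c) * sym m a = -(sym m a * sym m (j c)) := fun c =>
      sym_anticomm hm _ _
    by_cases hd : d = 0
    · subst hd
      rw [map_zero, zero_mul, add_zero] at hb
      rw [hb, ← mul_assoc, hcomm, neg_mul, mul_assoc, ← KM.map_sym, ← map_mul]
      exact neg_mem (hS2 _ _)
    by_cases hc : c = 0
    · subst hc
      rw [map_zero, zero_add] at hb
      have hjd : j d ≠ 0 := (map_ne_zero j).mpr hd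
      rw [hb, sym_mul hjd ha0, add_mul, ← mul_assoc, ← mul_assoc (sym m a), sym_sq hm, zero_mul,
        add_zero, hcomm, neg_mul, mul_assoc, ← KM.map_sym, ← map_mul]
      exact neg_mem (hS2 _ _)
    by_cases hb0 : b = 0
    · rw [hb0, sym_zero, zero_mul]; exact zero_mem _
    have hjc : j c ≠ 0 := (map_ne_zero j).mpr hc
    have hjd : j d ≠ 0 := (map_ne_zero j).mpr hd
    have hst : sym m (j c / b) * sym m (j d * a / b) = 0 := by
      apply sym_steinberg
      rw [← add_div, ← hb, div_self hb0]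
    rw [sym_div hjc hb0, sym_div (mul_ne_zero hjd ha0) hb0, sym_mul hjd ha0] at hst
    have e1 : sym m b * sym m b = 0 := sym_sq hm b
    have e2 : sym m (j c) * sym m b = - (sym m b * sym m (j c)) := sym_anticomm hm _ _
    have h5 : sym m b * sym m a = sym m (j c) * sym m (j d) - sym m a * sym m (j c) +
        sym m b * sym m (j c) - sym m b * sym m (j d) := by
      rw [sub_mul, mul_sub, mul_sub, mul_add, mul_add, e1, e2, hcomm] at hst
      have h6 : sym m b * sym m a - (sym m (j c) * sym m (j d) - sym m a * sym m (j c) +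
        sym m b * sym m (j c) - sym m b * sym m (j d)) = 0 := by
        rw [← neg_eq_zero, ← hst]; abel
      exact sub_eq_zero.mp h6
    rw [← mul_assoc, h5, sub_mul, add_mul, sub_mul, mul_assoc, mul_assoc, mul_assoc, mul_assoc]
    simp only [← KM.map_sym, ← map_mul]
    exact sub_mem (add_mem (sub_mem (hS1 _) (hS2 _ _)) (hS2 _ _)) (hS2 _ _)
  induction x using KM.induction with
  | h0 r =>
    have := hS1 (algebraMap _ _ r)
    rwa [AlgHom.commutes] at this
  | hadd x y hx hy => exact add_mem hx hy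
  | hsmul r x hx => exact Submodule.smul_mem _ r hx
  | hmul b x hb hx =>
    induction hx using Submodule.span_induction with
    | mem x hx =>
      rcases hx with ⟨y, rfl⟩ | ⟨a, y, rfl⟩
      · exact hS2 b y
      · exact key b a y
    | zero => rw [mul_zero]; exact zero_mem _
    | add x y _ _ hx hy => rw [mul_add]; exact add_mem hx hy
    | smul r x _ hx => rw [mul_smul_comm]; exact Submodule.smul_mem _ r hx

/-- Galois descent for a quadratic extension. -/
theorem IsQuad.exists_of_invariant (hm : Odd m) (h : IsQuad j θ) (σ : L →+* L)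
    (hσ : σ.comp j = j) (hσθ : σ θ ≠ θ) {x : KM m L} (hx : KM.map m σ x = x) :
    ∃ y : KM m K, KM.map m j y = x := by
  have hσj : ∀ a : K, σ (j a) = j a := fun a => by
    rw [← RingHom.comp_apply, hσ]
  obtain ⟨s, t, hst⟩ := h.span (θ * θ)
  have hσθ' : σ θ = j t - θ := by
    have h1 := congrArg σ hst
    rw [map_mul, map_add, map_mul, hσj, hσj] at h1
    have h2 : (σ θ - θ) * (σ θ - (j t - θ)) = 0 := by
      linear_combination h1 - hst
    rcases mul_eq_zero.mp h2 with h3 | h3
    · exact absurd (sub_eq_zero.mp h3) hσθ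
    · exact sub_eq_zero.mp h3
  have hnorm : ∀ a : L, ∃ n : K, a * σ a = j n := by
    intro a
    obtain ⟨c, d, rfl⟩ := h.span a
    refine ⟨c ^ 2 + c * d * t - d ^ 2 * s, ?_⟩
    simp only [map_add, map_mul, hσj, hσθ', map_sub, map_pow]
    linear_combination -(j d) ^ 2 * hst
  have key : ∀ x : KM m L, ∃ y : KM m K, KM.map m j y = x + KM.map m σ x := by
    intro x
    have hx := h.mem_span hm x
    induction hx using Submodule.span_induction with
    | mem x hx =>
      rcases hx with ⟨y, rfl⟩ | ⟨a, y, rfl⟩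
      · refine ⟨y + y, ?_⟩
        rw [KM.map_map, hσ, map_add]
      · by_cases ha : a = 0
        · exact ⟨0, by simp [ha]⟩
        obtain ⟨n, hn⟩ := hnorm a
        refine ⟨sym m n * y, ?_⟩
        rw [map_mul, KM.map_sym, ← hn, sym_mul ha ((map_ne_zero σ).mpr ha), add_mul, map_mul,
          KM.map_sym, KM.map_map, hσ]
    | zero => exact ⟨0, by simp⟩
    | add x y _ _ hx hy =>
      obtain ⟨a, ha⟩ := hx
      obtain ⟨b, hb⟩ := hy
      refine ⟨a + b, ?_⟩
      rw [map_add, map_add, ha, hb]; abel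
    | smul r x _ hx =>
      obtain ⟨a, ha⟩ := hx
      refine ⟨r • a, ?_⟩
      rw [map_smul, map_smul, ha, smul_add]
  obtain ⟨y, hy⟩ := key x
  rw [hx, ← two_nsmul] at hy
  have hu : IsUnit ((2 : ℕ) : ZMod m) := by
    rw [ZMod.isUnit_iff_coprime]
    exact (Nat.coprime_two_left (n := m)).mpr hm
  obtain ⟨c, hc⟩ := hu
  refine ⟨((c⁻¹ : (ZMod m)ˣ) : ZMod m) • y, ?_⟩
  rw [map_smul, hy, ← Nat.cast_smul_eq_nsmul (ZMod m), ← hc, smul_smul, Units.inv_mul, one_smul]

end basic

section valuation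

variable {K L : Type u} [Field K] [Field L]

/-- A criterion for a valuation ring to be a discrete valuation ring. -/
lemma isDVR_of_val (B : ValuationSubring L) (v : L → ℤ)
    (hmul : ∀ a b : L, a ≠ 0 → b ≠ 0 → v (a * b) = v a + v b)
    (hmem : ∀ x : L, x ≠ 0 → (x ∈ B ↔ 0 ≤ v x)) (ϖ : B) (hϖ0 : (ϖ : L) ≠ 0)
    (hϖ : v (ϖ : L) = 1) : IsDiscreteValuationRing B ∧ Irreducible ϖ := by
  have v1 : v 1 = 0 := by
    have := hmul 1 1 one_ne_zero one_ne_zero
    simp at this; exact this
  have vinv : ∀ a : L, a ≠ 0 → v a⁻¹ = - v a := by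
    intro a ha
    have := hmul a a⁻¹ ha (inv_ne_zero ha)
    rw [mul_inv_cancel₀ ha, v1] at this
    omega
  have vpow : ∀ (a : L) (_ : a ≠ 0) (n : ℕ), v (a ^ n) = n * v a := by
    intro a ha n
    induction n with
    | zero => simp [v1]
    | succ n ih => rw [pow_succ, hmul _ _ (pow_ne_zero _ ha) ha, ih]; push_cast; ring
  have hunit : ∀ x : B, (x : L) ≠ 0 → (IsUnit x ↔ v (x : L) = 0) := by
    intro x hx
    constructor
    · rintro ⟨u, rfl⟩
      have h1 : ((((u : B) * ((u⁻¹ : Bˣ) : B) : B)) : L) = 1 := by simp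
      have hu : ((((u⁻¹ : Bˣ) : B)) : L) ≠ 0 := by
        intro h
        push_cast at h1
        rw [h, mul_zero] at h1
        exact zero_ne_one h1
      have h2 := (hmem _ hx).mp (u : B).2
      have h3 := (hmem _ hu).mp ((u⁻¹ : Bˣ) : B).2
      have h4 := hmul _ _ hx hu
      push_cast at h1
      rw [h1, v1] at h4
      omega
    · intro h
      have h2 : (x : L)⁻¹ ∈ B := by
        rw [hmem _ (inv_ne_zero hx), vinv _ hx, h]; simp
      refine ⟨⟨x, ⟨(x : L)⁻¹, h2⟩, ?_, ?_⟩, rfl⟩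
      · ext; simp [hx]
      · ext; simp [hx]
  have hirr : Irreducible ϖ := by
    constructor
    · rw [hunit _ hϖ0, hϖ]
      norm_num
    · intro a b hab
      have h1 : (a : L) * b = ϖ := by
        have := congrArg (fun z : B => (z : L)) hab
        simpa using this.symm
      have ha : (a : L) ≠ 0 := by rintro h; rw [h, zero_mul] at h1; exact hϖ0 h1.symm
      have hb : (b : L) ≠ 0 := by rintro h; rw [h, mul_zero] at h1; exact hϖ0 h1.symm
      have h2 := hmul _ _ ha hb
      rw [h1, hϖ] at h2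
      have h3 := (hmem _ ha).mp a.2
      have h4 := (hmem _ hb).mp b.2
      rw [hunit _ ha, hunit _ hb]
      omega
  refine ⟨?_, hirr⟩
  apply IsDiscreteValuationRing.ofHasUnitMulPowIrreducibleFactorization
  refine ⟨ϖ, hirr, ?_⟩
  intro x hx
  have hx0 : (x : L) ≠ 0 := by simpa using hx
  have h1 := (hmem _ hx0).mp x.2
  obtain ⟨n, hn⟩ := Int.eq_ofNat_of_zero_le h1
  have hpow : (ϖ : L) ^ n ≠ 0 := pow_ne_zero n hϖ0
  have hxn : (x : L) / (ϖ : L) ^ n ≠ 0 := div_ne_zero hx0 hpow
  have h2 : v ((x : L) / (ϖ : L) ^ n) = 0 := by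
    rw [div_eq_mul_inv, hmul _ _ hx0 (inv_ne_zero hpow), vinv _ hpow, vpow _ hϖ0, hϖ, hn]; simp
  have h3 : (x : L) / (ϖ : L) ^ n ∈ B := by
    rw [hmem _ hxn, h2]
  have h4 : IsUnit (⟨(x : L) / (ϖ : L) ^ n, h3⟩ : B) := by
    rw [hunit _ (by simpa using hxn)]
    exact h2
  obtain ⟨u, hu⟩ := h4
  refine ⟨n, u, ?_⟩
  rw [hu]
  ext
  push_cast
  field_simp

/-- Descent of unramifiedness along a quadratic extension. -/
theorem IsQuad.unr_of_map (hm : Odd m) {j : K →+* L} {θ : L} (h : IsQuad j θ) {y : KM m K}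
    (hy : Unr (KM.map m j y)) : Unr y := by
  intro A hA
  obtain ⟨ϖ, hϖ⟩ := IsDiscreteValuationRing.exists_irreducible A
  have hϖ0 : (ϖ : K) ≠ 0 := by simpa using hϖ.ne_zero
  have hjϖ0 : j (ϖ : K) ≠ 0 := (map_ne_zero j).mpr hϖ0
  set D := DVal.ofDVR A ϖ hϖ with hD
  have hDv : D.v (ϖ : K) = 1 := DVal.ofDVR_v_self A ϖ hϖ
  have hmemA : ∀ x : K, x ≠ 0 → (x ∈ A ↔ 0 ≤ D.v x) := fun x hx =>
    (DVal.ofDVR_nonneg A ϖ hϖ hx).symm
  -- a valuation ring `B` of `L` above `A`
  obtain ⟨B, hAB, hϖB⟩ : ∃ B : ValuationSubring L, (∀ a : K, a ∈ A → j a ∈ B) ∧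
      (j (ϖ : K))⁻¹ ∉ B := by
    set A' : Subring L := A.toSubring.map j with hA'
    have hmem : j (ϖ : K) ∈ A' := ⟨ϖ, ϖ.2, rfl⟩
    have hI : Ideal.span {(⟨j (ϖ : K), hmem⟩ : A')} ≠ ⊤ := by
      rw [Ne, Ideal.span_singleton_eq_top]
      intro hu
      obtain ⟨⟨b, ⟨a, ha, rfl⟩⟩, hb⟩ := isUnit_iff_exists_inv.mp hu
      have h1 : j (ϖ : K) * j a = 1 := congrArg Subtype.val hb
      rw [← map_mul, ← map_one j] at h1
      have h2 : (ϖ : K) * a = 1 := j.injective h1
      have ha0 : a ≠ 0 := by rintro rfl; simp at h2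
      have h3 := D.v_mul _ _ hϖ0 ha0
      rw [h2, D.v_one, hDv] at h3
      have h4 := (hmemA a ha0).mp ha
      omega
    obtain ⟨B, hB1, hB2⟩ := Ideal.image_subset_nonunits_valuationSubring _ hI
    refine ⟨B, fun a ha => hB1 ⟨a, ha, rfl⟩, ?_⟩
    have h1 : j (ϖ : K) ∈ B.nonunits := hB2 ⟨_, Ideal.subset_span rfl, rfl⟩
    rw [ValuationSubring.mem_nonunits_iff_or] at h1
    exact h1.resolve_left hjϖ0
  have hmemj : ∀ x : K, x ≠ 0 → (j x ∈ B ↔ 0 ≤ D.v x) := by
    intro x hx
    constructor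
    · intro hxB
      by_contra hneg
      push Not at hneg
      apply hϖB
      have h1 : (ϖ : K)⁻¹ / x ∈ A := by
        rw [hmemA _ (div_ne_zero (inv_ne_zero hϖ0) hx), D.v_div (inv_ne_zero hϖ0) hx,
          D.v_inv hϖ0, hDv]
        omega
      have h2 := mul_mem (hAB _ h1) hxB
      rw [← map_mul, div_mul_cancel₀ _ hx, map_inv₀] at h2
      exact h2
    · intro hx'
      exact hAB x ((hmemA x hx).mpr hx')
  set ν := B.valuation with hν
  have hνle : ∀ x : L, ν x ≤ 1 ↔ x ∈ B := fun x => B.valuation_le_one_iff x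
  have hν0 : ∀ x : L, x ≠ 0 → ν x ≠ 0 := fun x hx => (Valuation.ne_zero_iff ν).mpr hx
  have hνj : ∀ x y : K, x ≠ 0 → y ≠ 0 → (ν (j x) ≤ ν (j y) ↔ D.v y ≤ D.v x) := by
    intro x y hx hy
    have hjy : j y ≠ 0 := (map_ne_zero j).mpr hy
    rw [← div_le_one₀ (zero_lt_iff.mpr (hν0 _ hjy)), ← map_div₀ ν, ← map_div₀ j, hνle,
      hmemj _ (div_ne_zero hx hy), D.v_div hx hy]
    omega
  have hνj' : ∀ x y : K, x ≠ 0 → y ≠ 0 → (ν (j x) = ν (j y) ↔ D.v x = D.v y) := by
    intro x y hx hy
    rw [le_antisymm_iff, hνj x y hx hy, hνj y x hy hx]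
    omega
  -- the square of the value of any element is the value of an element of `K`
  have hsq : ∀ b : L, b ≠ 0 → ∃ c : K, c ≠ 0 ∧ ν b ^ 2 = ν (j c) := by
    intro b hb0
    by_cases hb : ∃ a, j a = b
    · obtain ⟨a, rfl⟩ := hb
      exact ⟨a ^ 2, pow_ne_zero _ ((map_ne_zero j).mp hb0), by rw [map_pow, map_pow]⟩
    push Not at hb
    obtain ⟨s, t, hst⟩ := (h.change hb).span (b * b)
    by_cases ht : t = 0
    · subst ht
      rw [map_zero, zero_mul, add_zero] at hst
      refine ⟨s, ?_, ?_⟩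
      · rintro rfl
        rw [map_zero] at hst
        exact hb0 (mul_self_eq_zero.mp hst)
      · rw [pow_two, ← map_mul, hst]
    by_cases hs : s = 0
    · subst hs
      rw [map_zero, zero_add] at hst
      exact absurd (mul_right_cancel₀ hb0 hst).symm (hb t)
    have hjt : j t ≠ 0 := (map_ne_zero j).mpr ht
    have hjs : j s ≠ 0 := (map_ne_zero j).mpr hs
    by_cases heq : ν (j s) = ν (j t * b)
    · refine ⟨(s / t) ^ 2, pow_ne_zero _ (div_ne_zero hs ht), ?_⟩
      rw [map_pow, map_pow, map_div₀, map_div₀, heq, map_mul,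
        mul_div_cancel_left₀ _ (hν0 _ hjt)]
    · have h1 := Valuation.map_add_of_distinct_val ν heq
      rw [← hst, map_mul ν b b, ← pow_two] at h1
      rcases max_choice (ν (j s)) (ν (j t * b)) with h2 | h2
      · exact ⟨s, hs, by rw [h1, h2]⟩
      · rw [h2, map_mul, pow_two] at h1
        have h3 := mul_right_cancel₀ (hν0 b hb0) h1
        exact ⟨t ^ 2, pow_ne_zero _ ht, by rw [map_pow, map_pow, h3]⟩
  choose! c hc0 hc using hsq
  -- the doubled valuation
  let wv : L → ℤ := fun b => D.v (c b)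
  have hwmul : ∀ a b : L, a ≠ 0 → b ≠ 0 → wv (a * b) = wv a + wv b := by
    intro a b ha hb
    change D.v (c (a * b)) = D.v (c a) + D.v (c b)
    rw [← D.v_mul _ _ (hc0 a ha) (hc0 b hb)]
    rw [← hνj' _ _ (hc0 _ (mul_ne_zero ha hb)) (mul_ne_zero (hc0 a ha) (hc0 b hb)),
      ← hc _ (mul_ne_zero ha hb), map_mul, mul_pow, hc a ha, hc b hb, ← map_mul, ← map_mul]
  have hwj : ∀ a : K, a ≠ 0 → wv (j a) = 2 * D.v a := by
    intro a ha
    have hja : j a ≠ 0 := (map_ne_zero j).mpr ha
    change D.v (c (j a)) = 2 * D.v a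
    have h1 : D.v (c (j a)) = D.v (a ^ 2) := by
      rw [← hνj' _ _ (hc0 _ hja) (pow_ne_zero _ ha), ← hc _ hja, map_pow, map_pow]
    rw [h1, D.v_pow ha]
    norm_num
  have hwmem : ∀ b : L, b ≠ 0 → (b ∈ B ↔ 0 ≤ wv b) := by
    intro b hb
    change _ ↔ 0 ≤ D.v (c b)
    rw [← hmemj _ (hc0 b hb), ← hνle, ← hνle, ← hc b hb]
    rw [pow_le_one_iff (two_ne_zero)]
  have hw1 : wv 1 = 0 := by
    have := hwmul 1 1 one_ne_zero one_ne_zero
    simp only [mul_one] at this
    omega
  have hwinv : ∀ a : L, a ≠ 0 → wv a⁻¹ = - wv a := by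
    intro a ha
    have := hwmul a a⁻¹ ha (inv_ne_zero ha)
    rw [mul_inv_cancel₀ ha, hw1] at this
    omega
  have hwdiv : ∀ a b : L, a ≠ 0 → b ≠ 0 → wv (a / b) = wv a - wv b := by
    intro a b ha hb
    rw [div_eq_mul_inv, hwmul _ _ ha (inv_ne_zero hb), hwinv _ hb, sub_eq_add_neg]
  -- normalization
  obtain ⟨v, e, ϖ', hvmul, hvmem, hϖ'0, hvϖ', hve, he⟩ :
      ∃ (v : L → ℤ) (e : ℕ) (ϖ' : L), (∀ a b : L, a ≠ 0 → b ≠ 0 → v (a * b) = v a + v b) ∧
        (∀ x : L, x ≠ 0 → (x ∈ B ↔ 0 ≤ v x)) ∧ ϖ' ≠ 0 ∧ v ϖ' = 1 ∧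
        (∀ a : K, a ≠ 0 → v (j a) = e * D.v a) ∧ (e = 1 ∨ e = 2) := by
    by_cases hodd : ∃ b : L, b ≠ 0 ∧ ¬ (2 : ℤ) ∣ wv b
    · obtain ⟨b, hb0, hb⟩ := hodd
      refine ⟨wv, 2, b / j ((ϖ : K) ^ (wv b / 2)), hwmul, hwmem,
        div_ne_zero hb0 ((map_ne_zero j).mpr (zpow_ne_zero _ hϖ0)), ?_, ?_, Or.inr rfl⟩
      · rw [hwdiv _ _ hb0 ((map_ne_zero j).mpr (zpow_ne_zero _ hϖ0)), hwj _ (zpow_ne_zero _ hϖ0),
          D.v_zpow hϖ0, hDv]
        omega
      · intro a ha
        rw [hwj a ha]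
        norm_num
    · push Not at hodd
      refine ⟨fun b => wv b / 2, 1, j (ϖ : K), ?_, ?_, hjϖ0, ?_, ?_, Or.inl rfl⟩
      · intro a b ha hb
        have h1 := hodd a ha
        have h2 := hodd b hb
        simp only [hwmul a b ha hb]
        omega
      · intro x hx
        rw [hwmem x hx]
        have h1 := hodd x hx
        change 0 ≤ wv x ↔ 0 ≤ wv x / 2
        omega
      · change wv (j (ϖ : K)) / 2 = 1
        rw [hwj _ hϖ0, hDv]
        norm_num
      · intro a ha
        change wv (j a) / 2 = _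
        rw [hwj _ ha]
        push_cast
        omega
  have hϖ'B : ϖ' ∈ B := by rw [hvmem _ hϖ'0, hvϖ']; norm_num
  obtain ⟨hBdvr, hϖ'irr⟩ := isDVR_of_val B v hvmul hvmem ⟨ϖ', hϖ'B⟩ hϖ'0 hvϖ'
  set D' := DVal.ofDVR B ⟨ϖ', hϖ'B⟩ hϖ'irr with hD'
  have hD'v : ∀ x : L, x ≠ 0 → (x ∈ B ↔ 0 ≤ D'.v x) := fun x hx =>
    (DVal.ofDVR_nonneg B _ hϖ'irr hx).symm
  have hD'self : D'.v ϖ' = 1 := DVal.ofDVR_v_self B _ hϖ'irr
  have hv1 : v 1 = 0 := by
    have := hvmul 1 1 one_ne_zero one_ne_zero
    simp only [mul_one] at this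
    omega
  have hvinv : ∀ a : L, a ≠ 0 → v a⁻¹ = - v a := by
    intro a ha
    have := hvmul a a⁻¹ ha (inv_ne_zero ha)
    rw [mul_inv_cancel₀ ha, hv1] at this
    omega
  have hvpow : ∀ (a : L) (_ : a ≠ 0) (n : ℕ), v (a ^ n) = n * v a := by
    intro a ha n
    induction n with
    | zero => simp [hv1]
    | succ n ih => rw [pow_succ, hvmul _ _ (pow_ne_zero _ ha) ha, ih]; push_cast; ring
  have hvzpow : ∀ (a : L) (_ : a ≠ 0) (n : ℤ), v (a ^ n) = n * v a := by
    intro a ha n
    cases n with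
    | ofNat n => simpa using hvpow a ha n
    | negSucc n =>
      rw [zpow_negSucc, hvinv _ (pow_ne_zero _ ha), hvpow a ha, Int.negSucc_eq]
      push_cast
      ring
  have hvv : ∀ x : L, x ≠ 0 → D'.v x = v x := by
    intro x hx
    have hz : ϖ' ^ (v x) ≠ 0 := zpow_ne_zero _ hϖ'0
    have hxz : x / ϖ' ^ (v x) ≠ 0 := div_ne_zero hx hz
    have h1 : v (x / ϖ' ^ (v x)) = 0 := by
      rw [div_eq_mul_inv, hvmul _ _ hx (inv_ne_zero hz), hvinv _ hz, hvzpow _ hϖ'0, hvϖ']
      ring
    have h2 := (hvmem _ hxz).mpr h1.ge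
    have h3 := (hvmem _ (inv_ne_zero hxz)).mpr (by rw [hvinv _ hxz, h1]; simp)
    rw [hD'v _ hxz] at h2
    rw [hD'v _ (inv_ne_zero hxz), D'.v_inv hxz] at h3
    rw [D'.v_div hx hz, D'.v_zpow hϖ'0, hD'self] at h2 h3
    omega
  -- the residue extension
  have hloc : ∀ a : A, IsLocalRing.residue B ⟨j (a : K), hAB _ a.2⟩ = 0 ↔
      IsLocalRing.residue A a = 0 := by
    intro a
    by_cases ha : (a : K) = 0
    · have ha' : a = 0 := by simpa using ha
      subst ha'
      have h0 : (⟨j ((0 : A) : K), hAB _ (0 : A).2⟩ : B) = 0 := by ext; simp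
      rw [h0, map_zero, map_zero]
      simp
    have hja : j (a : K) ≠ 0 := (map_ne_zero j).mpr ha
    rw [← not_iff_not]
    change IsLocalRing.residue B _ ≠ 0 ↔ IsLocalRing.residue A a ≠ 0
    rw [residue_ne_zero_iff, residue_ne_zero_iff]
    have hA1 : IsUnit a ↔ D.v (a : K) = 0 := by
      rw [DVal.ofDVR_unit_iff A ϖ hϖ ha]
      constructor
      · rintro ⟨u, rfl⟩; exact ⟨u, rfl⟩
      · rintro ⟨u, hu⟩
        have : a = u := by ext; exact hu.symm
        rw [this]; exact u.isUnit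
    have hB1 : IsUnit (⟨j (a : K), hAB _ a.2⟩ : B) ↔ D'.v (j (a : K)) = 0 := by
      rw [DVal.ofDVR_unit_iff B _ hϖ'irr hja]
      constructor
      · rintro ⟨u, hu⟩; exact ⟨u, by rw [hu]⟩
      · rintro ⟨u, hu⟩
        have : (⟨j (a : K), hAB _ a.2⟩ : B) = u := by ext; exact hu.symm
        rw [this]; exact u.isUnit
    rw [hA1, hB1, hvv _ hja, hve _ ha]
    constructor
    · intro h1
      rcases mul_eq_zero.mp h1 with h2 | h2
      · exfalso
        rcases he with rfl | rfl <;> norm_num at h2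
      · exact h2
    · intro h1; rw [h1, mul_zero]
  let jA : A →+* B :=
    { toFun := fun a => ⟨j (a : K), hAB _ a.2⟩
      map_one' := by ext; simp
      map_zero' := by ext; simp
      map_add' := fun a b => by ext; simp
      map_mul' := fun a b => by ext; simp }
  let jb : IsLocalRing.ResidueField A →+* IsLocalRing.ResidueField B :=
    Ideal.Quotient.lift (IsLocalRing.maximalIdeal A) ((IsLocalRing.residue B).comp jA) (by
      intro a ha
      rw [RingHom.comp_apply]
      exact (hloc a).mpr ((IsLocalRing.residue_eq_zero_iff a).mpr ha))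
  have hjb : ∀ a : A, jb (IsLocalRing.residue A a) = IsLocalRing.residue B ⟨j (a : K), hAB _ a.2⟩ :=
    fun a => rfl
  -- injectivity on K-rings of the residue extension
  have hinj : Function.Injective (KM.map m jb) := by
    by_cases hsurj : Function.Surjective jb
    · let E := RingEquiv.ofBijective jb ⟨jb.injective, hsurj⟩
      have hE : (E.symm : IsLocalRing.ResidueField B →+* IsLocalRing.ResidueField A).comp jb =
          RingHom.id _ := by
        ext a
        exact E.symm_apply_apply a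
      intro x y hxy
      have h1 := congrArg (KM.map m (E.symm : IsLocalRing.ResidueField B →+*
        IsLocalRing.ResidueField A)) hxy
      rw [KM.map_map, KM.map_map, hE, KM.map_id] at h1
      exact h1
    · rw [Function.Surjective] at hsurj
      push Not at hsurj
      obtain ⟨θ', hθ'⟩ := hsurj
      obtain ⟨b, rfl⟩ := IsLocalRing.residue_surjective θ'
      have hbK : ∀ a : K, j a ≠ (b : L) := by
        intro a ha
        by_cases ha0 : a = 0
        · apply hθ' 0
          subst ha0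
          rw [map_zero] at ha
          have : b = 0 := by ext; simpa using ha.symm
          rw [this, map_zero, map_zero]
        have haA : a ∈ A := by
          rw [hmemA a ha0, ← hmemj a ha0, ha]
          exact b.2
        apply hθ' (IsLocalRing.residue A ⟨a, haA⟩)
        rw [hjb]
        congr 1
        ext
        exact ha
      have hq : IsQuad jb (IsLocalRing.residue B b) := by
        refine ⟨?_, hθ'⟩
        intro z'
        obtain ⟨z, rfl⟩ := IsLocalRing.residue_surjective z'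
        obtain ⟨c₀, c₁, hz⟩ := (h.change hbK).span (z : L)
        -- if both coefficients are integral we are done
        by_cases hint : c₀ ∈ A ∧ c₁ ∈ A
        · refine ⟨IsLocalRing.residue A ⟨c₀, hint.1⟩, IsLocalRing.residue A ⟨c₁, hint.2⟩, ?_⟩
          rw [hjb, hjb, ← map_mul, ← map_add]
          congr 1
          ext
          simpa using hz
        · exfalso
          -- scale by a power of the uniformizer
          obtain ⟨n, hn0, hn1, hn2, hn3⟩ : ∃ n : ℤ, 0 < n ∧
              (c₀ * (ϖ : K) ^ n ∈ A) ∧ (c₁ * (ϖ : K) ^ n ∈ A) ∧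
              ((c₀ ≠ 0 ∧ D.v (c₀ * (ϖ : K) ^ n) = 0) ∨ (c₁ ≠ 0 ∧ D.v (c₁ * (ϖ : K) ^ n) = 0)) := by
            have hval : ∀ (x : K) (_ : x ≠ 0) (n : ℤ), D.v (x * (ϖ : K) ^ n) = D.v x + n := by
              intro x hx n
              rw [D.v_mul _ _ hx (zpow_ne_zero _ hϖ0), D.v_zpow hϖ0, hDv, mul_one]
            have hmemn : ∀ (x : K) (n : ℤ), (x ≠ 0 → 0 ≤ D.v x + n) → x * (ϖ : K) ^ n ∈ A := by
              intro x n hx
              by_cases hx0 : x = 0
              · rw [hx0, zero_mul]; exact zero_mem _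
              · rw [hmemA _ (mul_ne_zero hx0 (zpow_ne_zero _ hϖ0)), hval x hx0]
                exact hx hx0
            by_cases h0 : c₀ = 0
            · have h1 : c₁ ∉ A := fun h1 => hint ⟨by rw [h0]; exact zero_mem _, h1⟩
              have h10 : c₁ ≠ 0 := by rintro rfl; exact h1 (zero_mem _)
              rw [hmemA _ h10] at h1
              refine ⟨- D.v c₁, by omega, hmemn _ _ (fun h => absurd h0 h),
                hmemn _ _ (fun _ => by omega), Or.inr ⟨h10, by rw [hval _ h10]; ring⟩⟩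
            by_cases h1 : c₁ = 0
            · have h2 : c₀ ∉ A := fun h2 => hint ⟨h2, by rw [h1]; exact zero_mem _⟩
              rw [hmemA _ h0] at h2
              refine ⟨- D.v c₀, by omega, hmemn _ _ (fun _ => by omega),
                hmemn _ _ (fun h => absurd h1 h), Or.inl ⟨h0, by rw [hval _ h0]; ring⟩⟩
            rw [hmemA _ h0, hmemA _ h1] at hint
            rcases le_total (D.v c₀) (D.v c₁) with hle | hle
            · refine ⟨- D.v c₀, by omega, hmemn _ _ (fun _ => by omega),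
                hmemn _ _ (fun _ => by omega), Or.inl ⟨h0, by rw [hval _ h0]; ring⟩⟩
            · refine ⟨- D.v c₁, by omega, hmemn _ _ (fun _ => by omega),
                hmemn _ _ (fun _ => by omega), Or.inr ⟨h1, by rw [hval _ h1]; ring⟩⟩
          have hϖn : IsLocalRing.residue A ⟨(ϖ : K) ^ n, by
              rw [hmemA _ (zpow_ne_zero _ hϖ0), D.v_zpow hϖ0, hDv]; omega⟩ = 0 := by
            by_contra hcon
            rw [← Ne, residue_ne_zero_iff] at hcon
            obtain ⟨u, hu⟩ := hcon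
            have h1 := (DVal.ofDVR_unit_iff A ϖ hϖ (x := (ϖ : K) ^ n)
              (zpow_ne_zero _ hϖ0)).mpr ⟨u, by rw [hu]⟩
            rw [← hD, D.v_zpow hϖ0, hDv] at h1
            omega
          have hrel : jb (IsLocalRing.residue A ⟨c₀ * (ϖ : K) ^ n, hn1⟩) +
              jb (IsLocalRing.residue A ⟨c₁ * (ϖ : K) ^ n, hn2⟩) * IsLocalRing.residue B b = 0 := by
            have h1 : (IsLocalRing.residue B z) * jb (IsLocalRing.residue A ⟨(ϖ : K) ^ n, by
              rw [hmemA _ (zpow_ne_zero _ hϖ0), D.v_zpow hϖ0, hDv]; omega⟩) = 0 := by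
              rw [hϖn, map_zero, mul_zero]
            rw [← h1, hjb, hjb, hjb, ← map_mul, ← map_add, ← map_mul]
            congr 1
            ext
            simp only [map_mul]
            change j c₀ * j ((ϖ : K) ^ n) + j c₁ * j ((ϖ : K) ^ n) * (b : L) =
              (z : L) * j ((ϖ : K) ^ n)
            rw [hz]; ring
          have hres0 : ∀ (x : K) (hx : x * (ϖ : K) ^ n ∈ A), x ≠ 0 →
              D.v (x * (ϖ : K) ^ n) = 0 → IsLocalRing.residue A ⟨x * (ϖ : K) ^ n, hx⟩ ≠ 0 := by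
            intro x hx hx0 hxv
            rw [residue_ne_zero_iff]
            obtain ⟨u, hu⟩ := (DVal.ofDVR_unit_iff A ϖ hϖ (x := x * (ϖ : K) ^ n)
              (mul_ne_zero hx0 (zpow_ne_zero _ hϖ0))).mp hxv
            have : (⟨x * (ϖ : K) ^ n, hx⟩ : A) = u := by ext; exact hu.symm
            rw [this]; exact u.isUnit
          by_cases hc1 : IsLocalRing.residue A ⟨c₁ * (ϖ : K) ^ n, hn2⟩ = 0
          · rw [hc1, map_zero, zero_mul, add_zero] at hrel
            have hc0' := (map_eq_zero jb).mp hrel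
            rcases hn3 with ⟨h1, h2⟩ | ⟨h1, h2⟩
            · exact hres0 c₀ hn1 h1 h2 hc0'
            · exact hres0 c₁ hn2 h1 h2 hc1
          · apply hθ' (- IsLocalRing.residue A ⟨c₀ * (ϖ : K) ^ n, hn1⟩ /
              IsLocalRing.residue A ⟨c₁ * (ϖ : K) ^ n, hn2⟩)
            rw [map_div₀, map_neg, div_eq_iff ((map_ne_zero jb).mpr hc1)]
            linear_combination -hrel
      exact hq.map_injective hm
  -- conclusion
  refine unrAt_of_map hm j A ϖ hϖ D' hϖ'0 hD'self jb e (D'.ρ (j (ϖ : K))) (D'.ρ_ne hjϖ0) ?_ ?_ ?_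
    hinj hy
  · intro a ha
    rw [hvv _ ((map_ne_zero j).mpr ha), hve a ha]
  · intro a ha
    set n := D.v a with hn
    have hz : (ϖ : K) ^ n ≠ 0 := zpow_ne_zero _ hϖ0
    have haz : a / (ϖ : K) ^ n ≠ 0 := div_ne_zero ha hz
    have h1 : D.v (a / (ϖ : K) ^ n) = 0 := by
      rw [D.v_div ha hz, D.v_zpow hϖ0, hDv]; simp [hn]
    obtain ⟨u, hu⟩ := (DVal.ofDVR_unit_iff A ϖ hϖ haz).mp h1
    have h2 : a = ((u : A) : K) * (ϖ : K) ^ n := by rw [hu]; field_simp
    have h3 : D.ρ a = IsLocalRing.residue A u := by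
      rw [h2, map_mul, map_zpow₀, hD, DVal.ofDVR_ρ_self, one_zpow, mul_one,
        DVal.ofDVR_ρ A ϖ hϖ _ u.isUnit]
    rw [← hD] at *
    rw [h3, hjb]
    have h4 : D'.ρ (j ((u : A) : K)) = IsLocalRing.residue B ⟨j ((u : A) : K), hAB _ (u : A).2⟩ := by
      rw [hD']
      refine DVal.ofDVR_ρ B _ hϖ'irr ⟨j ((u : A) : K), hAB _ (u : A).2⟩ ?_
      rw [← residue_ne_zero_iff, Ne, hloc]
      exact (residue_ne_zero_iff A).mpr u.isUnit
    rw [← h4]
    conv_lhs => rw [h2]
    rw [map_mul, map_zpow₀, map_mul, map_zpow₀]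
  · rcases he with rfl | rfl
    · simp
    · have : IsUnit ((2 : ℕ) : ZMod m) := by
        rw [ZMod.isUnit_iff_coprime]
        exact (Nat.coprime_two_left (n := m)).mpr hm
      simpa using this

/-- Galois descent of unramified elements for a quadratic extension. -/
theorem IsQuad.exists_unr_of_invariant (hm : Odd m) {j : K →+* L} {θ : L} (h : IsQuad j θ)
    (σ : L →+* L) (hσ : σ.comp j = j) (hσθ : σ θ ≠ θ) {x : KM m L} (hx : KM.map m σ x = x)
    (hxu : Unr x) : ∃ y : KM m K, Unr y ∧ KM.map m j y = x := by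
  obtain ⟨y, hy⟩ := h.exists_of_invariant hm σ hσ hσθ hx
  exact ⟨y, h.unr_of_map hm (by rw [hy]; exact hxu), hy⟩

end valuation

end UnrH3
end

section

/-!
# Points of Weierstrass curves and algebraic closures
-/

namespace UnrH3

universe u v w

open Polynomial WeierstrassCurve
open scoped Classical

variable {S : Type v} [Field S] (W : WeierstrassCurve S)

/-- The condition that the generic point is not a point of order two. -/
class GoodW : Prop where
  out : (2 : S) ≠ 0 ∨ W.a₁ ≠ 0 ∨ W.a₃ ≠ 0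

/-- The points of the curve with coordinates in the field `K`. -/
abbrev Pt (K : Type u) [Field K] [Algebra S K] : Type u := (W⁄K).toAffine.Point

section points

variable {W} {Ω : Type u} [Field Ω] [Algebra S Ω]

/-- The first coordinate, with junk value `0` at infinity. -/
def ptX : Pt W Ω → Ω
  | .zero => 0
  | .some x _ _ => x

/-- The second coordinate, with junk value `0` at infinity. -/
def ptY : Pt W Ω → Ω
  | .zero => 0
  | .some _ y _ => y

@[simp] lemma ptX_zero : ptX (0 : Pt W Ω) = 0 := rfl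
@[simp] lemma ptY_zero : ptY (0 : Pt W Ω) = 0 := rfl
@[simp] lemma ptX_some {x y : Ω} (h : (W⁄Ω).toAffine.Nonsingular x y) :
    ptX (W := W) (.some x y h) = x := rfl
@[simp] lemma ptY_some {x y : Ω} (h : (W⁄Ω).toAffine.Nonsingular x y) :
    ptY (W := W) (.some x y h) = y := rfl

/-- The coordinates of the point lie in the subfield `M`. -/
def PtIn (M : Subfield Ω) (P : Pt W Ω) : Prop := ptX P ∈ M ∧ ptY P ∈ M

lemma PtIn_zero (M : Subfield Ω) : PtIn M (0 : Pt W Ω) := ⟨zero_mem M, zero_mem M⟩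

section subgroup

variable {M : Subfield Ω} (hS : ∀ s : S, algebraMap S Ω s ∈ M)

include hS

lemma PtIn_neg {P : Pt W Ω} (hP : PtIn M P) : PtIn M (-P) := by
  rcases P with _ | ⟨x, y, hxy⟩
  · exact hP
  · rw [Affine.Point.neg_some]
    refine ⟨hP.1, ?_⟩
    simp only [Affine.negY, ptY_some]
    exact sub_mem (sub_mem (neg_mem hP.2) (mul_mem (hS _) hP.1)) (hS _)

lemma slope_mem {x₁ x₂ y₁ y₂ : Ω} (hx₁ : x₁ ∈ M) (hx₂ : x₂ ∈ M) (hy₁ : y₁ ∈ M) (hy₂ : y₂ ∈ M) :
    (W⁄Ω).toAffine.slope x₁ x₂ y₁ y₂ ∈ M := by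
  have h2 : (2 : Ω) ∈ M := by
    have := add_mem (one_mem M) (one_mem M); rwa [one_add_one_eq_two] at this
  have h3 : (3 : Ω) ∈ M := by
    have := add_mem h2 (one_mem M); rwa [show (2 : Ω) + 1 = 3 by norm_num] at this
  have a1 : (W⁄Ω).a₁ ∈ M := hS _
  have a2 : (W⁄Ω).a₂ ∈ M := hS _
  have a3 : (W⁄Ω).a₃ ∈ M := hS _
  have a4 : (W⁄Ω).a₄ ∈ M := hS _
  unfold Affine.slope
  split_ifs
  · exact zero_mem _
  · unfold Affine.negY
    exact div_mem (sub_mem (add_mem (add_mem (mul_mem h3 (pow_mem hx₁ 2))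
      (mul_mem (mul_mem h2 a2) hx₁)) a4) (mul_mem a1 hy₁))
      (sub_mem hy₁ (sub_mem (sub_mem (neg_mem hy₁) (mul_mem a1 hx₁)) a3))
  · exact div_mem (sub_mem hy₁ hy₂) (sub_mem hx₁ hx₂)

lemma PtIn_add {P Q : Pt W Ω} (hP : PtIn M P) (hQ : PtIn M Q) : PtIn M (P + Q) := by
  rcases P with _ | ⟨x₁, y₁, h₁⟩
  · change PtIn M (0 + Q)
    rwa [zero_add]
  rcases Q with _ | ⟨x₂, y₂, h₂⟩
  · change PtIn M (_ + 0)
    rwa [add_zero]
  by_cases hxy : x₁ = x₂ ∧ y₁ = (W⁄Ω).toAffine.negY x₂ y₂
  · rw [Affine.Point.add_of_Y_eq hxy.1 hxy.2]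
    exact PtIn_zero M
  · rw [Affine.Point.add_some hxy]
    have hs := slope_mem (W := W) hS hP.1 hQ.1 hP.2 hQ.2
    simp only [ptX_some, ptY_some] at hs
    have hx₁ : x₁ ∈ M := hP.1
    have hy₁ : y₁ ∈ M := hP.2
    have a1 : (W⁄Ω).a₁ ∈ M := hS _
    have a2 : (W⁄Ω).a₂ ∈ M := hS _
    have a3 : (W⁄Ω).a₃ ∈ M := hS _
    have hX : (W⁄Ω).toAffine.addX x₁ x₂ ((W⁄Ω).toAffine.slope x₁ x₂ y₁ y₂) ∈ M := by
      unfold Affine.addX
      exact sub_mem (sub_mem (sub_mem (add_mem (pow_mem hs 2) (mul_mem a1 hs)) a2) hP.1) hQ.1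
    refine ⟨hX, ?_⟩
    simp only [ptY_some]
    unfold Affine.addY Affine.negAddY Affine.negY
    exact sub_mem (sub_mem (neg_mem (add_mem (mul_mem hs (sub_mem hX hx₁)) hy₁))
      (mul_mem a1 hX)) a3

end subgroup

/-- A point with algebraic first coordinate has algebraic second coordinate. -/
lemma ptY_mem_cl {T : Set Ω} (hS : ∀ s : S, algebraMap S Ω s ∈ cl T) {P : Pt W Ω}
    (hP : ptX P ∈ cl T) : ptY P ∈ cl T := by
  rcases P with _ | ⟨x, y, hxy⟩
  · exact zero_mem _
  have hx : x ∈ cl T := hP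
  change y ∈ cl T
  have heq := ((W⁄Ω).toAffine.equation_iff x y).mp hxy.1
  have a1 : (W⁄Ω).a₁ ∈ cl T := hS _
  have a2 : (W⁄Ω).a₂ ∈ cl T := hS _
  have a3 : (W⁄Ω).a₃ ∈ cl T := hS _
  have a4 : (W⁄Ω).a₄ ∈ cl T := hS _
  have a6 : (W⁄Ω).a₆ ∈ cl T := hS _
  have hb : (W⁄Ω).a₁ * x + (W⁄Ω).a₃ ∈ cl T := add_mem (mul_mem a1 hx) a3
  have hc : x ^ 3 + (W⁄Ω).a₂ * x ^ 2 + (W⁄Ω).a₄ * x + (W⁄Ω).a₆ ∈ cl T :=
    add_mem (add_mem (add_mem (pow_mem hx 3) (mul_mem a2 (pow_mem hx 2))) (mul_mem a4 hx)) a6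
  apply mem_cl_of_isAlg (F := cl T) le_rfl
  refine ⟨X ^ 2 + C (⟨_, hb⟩ : cl T) * X - C (⟨_, hc⟩ : cl T), ?_, ?_⟩
  · intro h0
    have := congrArg (fun p : (cl T)[X] => p.coeff 2) h0
    simp at this
  · simp only [map_sub, map_add, map_pow, aeval_X, map_mul, aeval_C]
    change y ^ 2 + ((W⁄Ω).a₁ * x + (W⁄Ω).a₃) * y -
      (x ^ 3 + (W⁄Ω).a₂ * x ^ 2 + (W⁄Ω).a₄ * x + (W⁄Ω).a₆) = 0
    linear_combination heq

/-- The point `P` is algebraic over the field generated by `T`. -/
def InCl (T : Set Ω) (P : Pt W Ω) : Prop := ptX P ∈ cl T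

section InCl

variable {T T' : Set Ω}

lemma InCl.ptIn (hS : ∀ s : S, algebraMap S Ω s ∈ cl T) {P : Pt W Ω} (hP : InCl T P) :
    PtIn (cl T) P := ⟨hP, ptY_mem_cl hS hP⟩

lemma InCl_zero : InCl T (0 : Pt W Ω) := zero_mem (cl T)

lemma InCl.mono {P : Pt W Ω} (h : cl T ≤ cl T') (hP : InCl T P) : InCl T' P := h hP

lemma InCl_self (P : Pt W Ω) : InCl (insert (ptX P) T) P :=
  subset_cl _ (Set.mem_insert _ _)

variable (hS : ∀ s : S, algebraMap S Ω s ∈ cl T)

include hS

lemma InCl.neg {P : Pt W Ω} (hP : InCl T P) : InCl T (-P) :=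
  (PtIn_neg hS (hP.ptIn hS)).1

lemma InCl.add {P Q : Pt W Ω} (hP : InCl T P) (hQ : InCl T Q) : InCl T (P + Q) :=
  (PtIn_add hS (hP.ptIn hS) (hQ.ptIn hS)).1

lemma InCl.sub {P Q : Pt W Ω} (hP : InCl T P) (hQ : InCl T Q) : InCl T (P - Q) := by
  rw [sub_eq_add_neg]
  exact hP.add hS (hQ.neg hS)

lemma InCl_neg_iff {P : Pt W Ω} : InCl T (-P) ↔ InCl T P :=
  ⟨fun h => by have := h.neg hS; rwa [neg_neg] at this, fun h => h.neg hS⟩

lemma InCl_add_iff_left {P Q : Pt W Ω} (hQ : InCl T Q) : InCl T (P + Q) ↔ InCl T P :=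
  ⟨fun h => by have := h.sub hS hQ; rwa [add_sub_cancel_right] at this, fun h => h.add hS hQ⟩

lemma InCl_add_iff_right {P Q : Pt W Ω} (hP : InCl T P) : InCl T (P + Q) ↔ InCl T Q := by
  rw [add_comm, InCl_add_iff_left hS hP]

omit hS in
lemma InCl_exchange {P Q : Pt W Ω} (h : InCl (insert (ptX P) T) Q) (h' : ¬ InCl T Q) :
    InCl (insert (ptX Q) T) P := cl_exchange h h'

end InCl

end points

section FF

variable (K : Type u) [Field K] [Algebra S K]

/-- The Weierstrass polynomial over the rational function field. -/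
noncomputable def ffPoly : (RatFunc K)[X] :=
  ((W⁄K).toAffine.polynomial).map (algebraMap K[X] (RatFunc K))

instance ffPoly_irreducible : Fact (Irreducible (ffPoly W K)) := by
  constructor
  unfold ffPoly
  rw [← Polynomial.Monic.irreducible_iff_irreducible_map_fraction_map
    (W⁄K).toAffine.monic_polynomial]
  exact (W⁄K).toAffine.irreducible_polynomial

/-- The function field of the curve over `K`. -/
def FF : Type u := AdjoinRoot (ffPoly W K)

noncomputable instance : Field (FF W K) := inferInstanceAs (Field (AdjoinRoot (ffPoly W K)))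
noncomputable instance : Algebra (RatFunc K) (FF W K) :=
  inferInstanceAs (Algebra (RatFunc K) (AdjoinRoot (ffPoly W K)))
noncomputable instance : Algebra S (FF W K) :=
  inferInstanceAs (Algebra S (AdjoinRoot (ffPoly W K)))
noncomputable instance : Algebra K (FF W K) :=
  inferInstanceAs (Algebra K (AdjoinRoot (ffPoly W K)))
instance : IsScalarTower S K (FF W K) :=
  inferInstanceAs (IsScalarTower S K (AdjoinRoot (ffPoly W K)))
instance : IsScalarTower K (RatFunc K) (FF W K) :=
  inferInstanceAs (IsScalarTower K (RatFunc K) (AdjoinRoot (ffPoly W K)))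
instance : IsScalarTower S (RatFunc K) (FF W K) :=
  inferInstanceAs (IsScalarTower S (RatFunc K) (AdjoinRoot (ffPoly W K)))

/-- The inclusion of the base field. -/
noncomputable def base : K →ₐ[S] FF W K := IsScalarTower.toAlgHom S K (FF W K)

/-- The inclusion of the rational function field. -/
noncomputable def ratHom : RatFunc K →+* FF W K := algebraMap (RatFunc K) (FF W K)

lemma ratHom_algebraMap (a : K) : ratHom W K (algebraMap K (RatFunc K) a) = base W K a :=
  (IsScalarTower.algebraMap_apply K (RatFunc K) (FF W K) a).symm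

/-- The generic first coordinate. -/
noncomputable def gx : FF W K := ratHom W K RatFunc.X

/-- The generic second coordinate. -/
noncomputable def gy : FF W K := AdjoinRoot.root (ffPoly W K)

lemma ffPoly_natDegree : (ffPoly W K).natDegree = 2 := by
  unfold ffPoly
  rw [((W⁄K).toAffine.monic_polynomial).natDegree_map, Affine.natDegree_polynomial]

lemma ffPoly_monic : (ffPoly W K).Monic := by
  unfold ffPoly
  exact ((W⁄K).toAffine.monic_polynomial).map _

lemma isQuad_gy : IsQuad (ratHom W K) (gy W K) := by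
  constructor
  · intro z
    obtain ⟨f, rfl⟩ := AdjoinRoot.mk_surjective (g := ffPoly W K) z
    have h1 : AdjoinRoot.mk (ffPoly W K) f = AdjoinRoot.mk (ffPoly W K) (f %ₘ ffPoly W K) := by
      rw [AdjoinRoot.mk_eq_mk]
      exact ⟨f /ₘ ffPoly W K, by
        have := modByMonic_add_div f (ffPoly W K)
        linear_combination -this⟩
    have hd : (f %ₘ ffPoly W K).natDegree ≤ 1 := by
      have := natDegree_modByMonic_lt f (ffPoly_monic W K) (by
        intro h
        have := ffPoly_natDegree W K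
        rw [h, natDegree_one] at this
        omega)
      rw [ffPoly_natDegree] at this
      omega
    obtain ⟨a, b, hab⟩ := exists_eq_X_add_C_of_natDegree_le_one hd
    refine ⟨b, a, ?_⟩
    rw [h1, hab, map_add, map_mul, AdjoinRoot.mk_C, AdjoinRoot.mk_C, AdjoinRoot.mk_X, add_comm]
    rfl
  · intro a ha
    have h1 : AdjoinRoot.mk (ffPoly W K) (X - C a) = 0 := by
      rw [map_sub, AdjoinRoot.mk_X, AdjoinRoot.mk_C, sub_eq_zero]
      exact ha.symm
    rw [AdjoinRoot.mk_eq_zero] at h1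
    have h2 := natDegree_le_of_dvd h1 (X_sub_C_ne_zero a)
    rw [ffPoly_natDegree, natDegree_X_sub_C] at h2
    omega

lemma gx_gy_equation : (W⁄(FF W K)).toAffine.Equation (gx W K) (gy W K) := by
  have h1 : (ffPoly W K).eval₂ (ratHom W K) (gy W K) = 0 := AdjoinRoot.eval₂_root _
  unfold ffPoly at h1
  rw [eval₂_map] at h1
  rw [Affine.equation_iff']
  have hc : ∀ s : S, ratHom W K (algebraMap K[X] (RatFunc K) (C (algebraMap S K s))) =
      algebraMap S (FF W K) s := by
    intro s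
    rw [← algebraMap_ratFunc_eq, ratHom_algebraMap]
    exact (base W K).commutes s
  have hx : ratHom W K (algebraMap K[X] (RatFunc K) X) = gx W K := by
    rw [RatFunc.algebraMap_X]; rfl
  have e1 : ratHom W K (algebraMap K[X] (RatFunc K) (C (W⁄K).toAffine.a₁)) =
      (W⁄(FF W K)).toAffine.a₁ := hc W.a₁
  have e2 : ratHom W K (algebraMap K[X] (RatFunc K) (C (W⁄K).toAffine.a₂)) =
      (W⁄(FF W K)).toAffine.a₂ := hc W.a₂
  have e3 : ratHom W K (algebraMap K[X] (RatFunc K) (C (W⁄K).toAffine.a₃)) =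
      (W⁄(FF W K)).toAffine.a₃ := hc W.a₃
  have e4 : ratHom W K (algebraMap K[X] (RatFunc K) (C (W⁄K).toAffine.a₄)) =
      (W⁄(FF W K)).toAffine.a₄ := hc W.a₄
  have e6 : ratHom W K (algebraMap K[X] (RatFunc K) (C (W⁄K).toAffine.a₆)) =
      (W⁄(FF W K)).toAffine.a₆ := hc W.a₆
  unfold Affine.polynomial at h1
  simp only [eval₂_sub, eval₂_add, eval₂_pow, eval₂_X, eval₂_mul, eval₂_C, RingHom.comp_apply,
    map_add, map_mul, map_pow, hx, e1, e2, e3, e4, e6] at h1
  linear_combination h1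


variable [hW : GoodW W]

lemma gy_ne_negY : gy W K ≠ (W⁄(FF W K)).toAffine.negY (gx W K) (gy W K) := by
  intro h
  unfold Affine.negY at h
  have hc : ∀ s : S, ratHom W K (algebraMap K[X] (RatFunc K) (C (algebraMap S K s))) =
      algebraMap S (FF W K) s := by
    intro s
    rw [← algebraMap_ratFunc_eq, ratHom_algebraMap]
    exact (base W K).commutes s
  have hx : ratHom W K (algebraMap K[X] (RatFunc K) X) = gx W K := by
    rw [RatFunc.algebraMap_X]; rfl
  have e1 : ratHom W K (algebraMap K[X] (RatFunc K) (C (algebraMap S K W.a₁))) =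
      (W⁄(FF W K)).toAffine.a₁ := hc W.a₁
  have e3 : ratHom W K (algebraMap K[X] (RatFunc K) (C (algebraMap S K W.a₃))) =
      (W⁄(FF W K)).toAffine.a₃ := hc W.a₃
  set q : K[X] := C (algebraMap S K W.a₁) * X + C (algebraMap S K W.a₃) with hq
  have hq' : ratHom W K (algebraMap K[X] (RatFunc K) q) =
      (W⁄(FF W K)).toAffine.a₁ * gx W K + (W⁄(FF W K)).toAffine.a₃ := by
    rw [hq, map_add, map_add, map_mul, map_mul, e1, e3, hx]
  have h0 : 2 * gy W K + ratHom W K (algebraMap K[X] (RatFunc K) q) = 0 := by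
    rw [hq']
    linear_combination h
  by_cases h2 : (2 : S) = 0
  · have h2' : (2 : FF W K) = 0 := by
      have := congrArg (algebraMap S (FF W K)) h2
      rwa [map_ofNat, map_zero] at this
    rw [h2', zero_mul, zero_add, map_eq_zero,
      map_eq_zero_iff _ (IsFractionRing.injective K[X] (RatFunc K))] at h0
    have c0 := congrArg (fun p : K[X] => p.coeff 0) h0
    have c1 := congrArg (fun p : K[X] => p.coeff 1) h0
    simp [hq] at c0 c1
    rcases hW.out with h3 | h3 | h3
    · exact h3 h2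
    · exact h3 c1
    · exact h3 c0
  · have h2' : (2 : FF W K) ≠ 0 := by
      intro h4
      apply h2
      apply (algebraMap S (FF W K)).injective
      rw [map_ofNat, map_zero]
      exact h4
    apply (isQuad_gy W K).not_mem (-(algebraMap K[X] (RatFunc K) q) / 2)
    rw [map_div₀, map_neg, map_ofNat, div_eq_iff h2']
    linear_combination -h0

lemma gx_gy_nonsingular : (W⁄(FF W K)).toAffine.Nonsingular (gx W K) (gy W K) := by
  rw [Affine.nonsingular_iff]
  exact ⟨gx_gy_equation W K, Or.inr (gy_ne_negY W K)⟩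

/-- The generic point. -/
noncomputable def gpt : Pt W (FF W K) := .some (gx W K) (gy W K) (gx_gy_nonsingular W K)

lemma ptX_gpt : ptX (gpt W K) = gx W K := rfl
lemma ptY_gpt : ptY (gpt W K) = gy W K := rfl

end FF

section lift

variable {W} {K Ω : Type u} [Field K] [Algebra S K] [Field Ω] [Algebra S Ω]

/-- The point `P` is generic over the subfield `i(K)`. -/
def Gen (i : K →ₐ[S] Ω) (P : Pt W Ω) : Prop := ¬ InCl (Set.range i) P

lemma transc_of_notMem_cl (i : K →ₐ[S] Ω) {x : Ω} (hx : x ∉ cl (Set.range i)) (p : K[X])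
    (hp : p.eval₂ (i : K →+* Ω) x = 0) : p = 0 := by
  by_contra hp0
  apply hx
  rw [mem_cl]
  have hmem : ∀ a : K, i a ∈ Subfield.closure (Set.range i) := fun a =>
    Subfield.subset_closure ⟨a, rfl⟩
  let i' : K →+* Subfield.closure (Set.range i) :=
    (i : K →+* Ω).codRestrict (Subfield.closure (Set.range i)) hmem
  refine ⟨p.map i', ?_, ?_⟩
  · rwa [Ne, Polynomial.map_eq_zero]
  · rw [aeval_def, eval₂_map]
    exact hp

lemma range_in_cl (i : K →ₐ[S] Ω) (s : S) : algebraMap S Ω s ∈ cl (Set.range i) :=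
  subset_cl _ ⟨algebraMap S K s, i.commutes s⟩

lemma Gen.ne_zero {i : K →ₐ[S] Ω} {P : Pt W Ω} (h : Gen i P) : P ≠ 0 := by
  rintro rfl
  exact h InCl_zero

lemma Gen.some {i : K →ₐ[S] Ω} {P : Pt W Ω} (h : Gen i P) :
    ∃ hxy : (W⁄Ω).toAffine.Nonsingular (ptX P) (ptY P), P = .some (ptX P) (ptY P) hxy := by
  rcases P with _ | ⟨x, y, hxy⟩
  · exact absurd rfl h.ne_zero
  · exact ⟨hxy, rfl⟩

/-- The homomorphism of rational function fields attached to a generic point. -/
noncomputable def ratLift (i : K →ₐ[S] Ω) (P : Pt W Ω) (h : Gen i P) : RatFunc K →+* Ω :=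
  IsFractionRing.lift (A := K[X]) (g := eval₂RingHom (i : K →+* Ω) (ptX P))
    ((injective_iff_map_eq_zero _).mpr (transc_of_notMem_cl i h))

lemma ratLift_algebraMap (i : K →ₐ[S] Ω) (P : Pt W Ω) (h : Gen i P) (f : K[X]) :
    ratLift i P h (algebraMap K[X] (RatFunc K) f) = f.eval₂ (i : K →+* Ω) (ptX P) := by
  unfold ratLift
  rw [IsFractionRing.lift_algebraMap]
  rfl

lemma ratLift_eval (i : K →ₐ[S] Ω) (P : Pt W Ω) (h : Gen i P) :
    (ffPoly W K).eval₂ (ratLift i P h) (ptY P) = 0 := by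
  obtain ⟨hxy, -⟩ := h.some
  have heq := ((W⁄Ω).toAffine.equation_iff _ _).mp hxy.1
  unfold ffPoly
  rw [eval₂_map]
  have hc : ∀ s : S, ratLift i P h (algebraMap K[X] (RatFunc K) (C (algebraMap S K s))) =
      algebraMap S Ω s := by
    intro s
    rw [ratLift_algebraMap, eval₂_C]
    exact i.commutes s
  have hx : ratLift i P h (algebraMap K[X] (RatFunc K) X) = ptX P := by
    rw [ratLift_algebraMap, eval₂_X]
  have e1 : ratLift i P h (algebraMap K[X] (RatFunc K) (C (W⁄K).toAffine.a₁)) =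
      (W⁄Ω).toAffine.a₁ := hc W.a₁
  have e2 : ratLift i P h (algebraMap K[X] (RatFunc K) (C (W⁄K).toAffine.a₂)) =
      (W⁄Ω).toAffine.a₂ := hc W.a₂
  have e3 : ratLift i P h (algebraMap K[X] (RatFunc K) (C (W⁄K).toAffine.a₃)) =
      (W⁄Ω).toAffine.a₃ := hc W.a₃
  have e4 : ratLift i P h (algebraMap K[X] (RatFunc K) (C (W⁄K).toAffine.a₄)) =
      (W⁄Ω).toAffine.a₄ := hc W.a₄
  have e6 : ratLift i P h (algebraMap K[X] (RatFunc K) (C (W⁄K).toAffine.a₆)) =
      (W⁄Ω).toAffine.a₆ := hc W.a₆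
  unfold Affine.polynomial
  simp only [eval₂_sub, eval₂_add, eval₂_pow, eval₂_X, eval₂_mul, eval₂_C, RingHom.comp_apply,
    map_add, map_mul, map_pow, hx, e1, e2, e3, e4, e6]
  linear_combination heq

/-- The homomorphism of function fields attached to a generic point. -/
noncomputable def liftPt (i : K →ₐ[S] Ω) (P : Pt W Ω) (h : Gen i P) : FF W K →ₐ[S] Ω where
  __ := AdjoinRoot.lift (ratLift i P h) (ptY P) (ratLift_eval i P h)
  commutes' s := by
    have h1 : algebraMap S (FF W K) s = AdjoinRoot.of (ffPoly W K)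
        (algebraMap K[X] (RatFunc K) (C (algebraMap S K s))) := by
      rw [← algebraMap_ratFunc_eq, ← IsScalarTower.algebraMap_apply S K (RatFunc K)]
      rfl
    rw [h1]
    change AdjoinRoot.lift (ratLift i P h) (ptY P) (ratLift_eval i P h) _ = _
    rw [AdjoinRoot.lift_of, ratLift_algebraMap, eval₂_C]
    exact i.commutes s

lemma liftPt_ratHom (i : K →ₐ[S] Ω) (P : Pt W Ω) (h : Gen i P) (r : RatFunc K) :
    liftPt i P h (ratHom W K r) = ratLift i P h r :=
  AdjoinRoot.lift_of (ratLift_eval i P h)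

lemma liftPt_base (i : K →ₐ[S] Ω) (P : Pt W Ω) (h : Gen i P) :
    (liftPt i P h).comp (base W K) = i := by
  ext a
  rw [AlgHom.comp_apply, ← ratHom_algebraMap, liftPt_ratHom, algebraMap_ratFunc_eq,
    ratLift_algebraMap, eval₂_C]
  rfl

lemma liftPt_gx (i : K →ₐ[S] Ω) (P : Pt W Ω) (h : Gen i P) :
    liftPt i P h (gx W K) = ptX P := by
  unfold gx
  rw [liftPt_ratHom, ← RatFunc.algebraMap_X, ratLift_algebraMap, eval₂_X]

lemma liftPt_gy (i : K →ₐ[S] Ω) (P : Pt W Ω) (h : Gen i P) :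
    liftPt i P h (gy W K) = ptY P :=
  AdjoinRoot.lift_root (ratLift_eval i P h)

/-- Uniqueness of homomorphisms from the function field. -/
lemma FF_hom_ext {φ ψ : FF W K →ₐ[S] Ω} (h1 : φ.comp (base W K) = ψ.comp (base W K))
    (hx : φ (gx W K) = ψ (gx W K)) (hy : φ (gy W K) = ψ (gy W K)) : φ = ψ := by
  have hr : (φ : FF W K →+* Ω).comp (ratHom W K) = (ψ : FF W K →+* Ω).comp (ratHom W K) := by
    apply IsLocalization.ringHom_ext (nonZeroDivisors K[X])
    apply Polynomial.ringHom_ext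
    · intro a
      simp only [RingHom.comp_apply]
      rw [← algebraMap_ratFunc_eq, ratHom_algebraMap]
      exact congrArg (fun f : K →ₐ[S] Ω => f a) h1
    · simp only [RingHom.comp_apply]
      rw [RatFunc.algebraMap_X]
      exact hx
  ext z
  obtain ⟨a, b, rfl⟩ := (isQuad_gy W K).span z
  have ha := congrArg (fun f : RatFunc K →+* Ω => f a) hr
  have hb := congrArg (fun f : RatFunc K →+* Ω => f b) hr
  simp only [RingHom.comp_apply, RingHom.coe_coe] at ha hb
  rw [map_add, map_add, map_mul, map_mul, ha, hb, hy]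

/-- Functoriality of points. -/
noncomputable abbrev ptMap (φ : K →ₐ[S] Ω) : Pt W K →+ Pt W Ω := Affine.Point.map (W' := W) φ

@[simp] lemma ptX_map (φ : K →ₐ[S] Ω) (P : Pt W K) : ptX (ptMap φ P) = φ (ptX P) := by
  rcases P with _ | ⟨x, y, h⟩
  · exact (map_zero φ).symm
  · rfl

@[simp] lemma ptY_map (φ : K →ₐ[S] Ω) (P : Pt W K) : ptY (ptMap φ P) = φ (ptY P) := by
  rcases P with _ | ⟨x, y, h⟩
  · exact (map_zero φ).symm
  · rfl

lemma pt_ext {P Q : Pt W Ω} (hP : P ≠ 0) (hQ : Q ≠ 0) (hx : ptX P = ptX Q)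
    (hy : ptY P = ptY Q) : P = Q := by
  rcases P with _ | ⟨x, y, h⟩
  · exact absurd rfl hP
  rcases Q with _ | ⟨x', y', h'⟩
  · exact absurd rfl hQ
  simp only [ptX_some, ptY_some] at hx hy
  subst hx hy
  rfl

variable [hW : GoodW W]

lemma liftPt_gpt (i : K →ₐ[S] Ω) (P : Pt W Ω) (h : Gen i P) :
    ptMap (liftPt i P h) (gpt W K) = P := by
  apply pt_ext
  · exact Affine.Point.some_ne_zero _
  · exact h.ne_zero
  · rw [ptX_map, ptX_gpt, liftPt_gx]
  · rw [ptY_map, ptY_gpt, liftPt_gy]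

lemma FF_hom_ext' {φ ψ : FF W K →ₐ[S] Ω} (h1 : φ.comp (base W K) = ψ.comp (base W K))
    (hg : ptMap φ (gpt W K) = ptMap ψ (gpt W K)) : φ = ψ := by
  apply FF_hom_ext h1
  · have := congrArg ptX hg
    rwa [ptX_map, ptX_map, ptX_gpt] at this
  · have := congrArg ptY hg
    rwa [ptY_map, ptY_map, ptY_gpt] at this

end lift

end UnrH3
end

section

/-!
# Quadratic extensions, all coefficients
-/

namespace UnrA

universe u v w z

open Polynomial
open UnrH3 (IsQuad)

variable {m : UFun.{u, z}}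

section

variable {K L : Type u} [Field K] [Field L] {j : K →+* L} {θ : L}

lemma quad_finrank (h : IsQuad j θ) : letI := j.toAlgebra; Module.finrank K L = 2 := by
  let _ := j.toAlgebra
  have hj : ∀ a, algebraMap K L a = j a := fun _ => rfl
  let b : Fin 2 → L := ![1, θ]
  have hli : LinearIndependent K b := by
    rw [LinearIndependent.pair_iff]
    intro s t hst
    have h1 : j s + j t * θ = 0 := by
      have := hst
      rw [Algebra.smul_def, Algebra.smul_def, mul_one] at this
      exact this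
    by_cases ht : t = 0
    · subst ht
      refine ⟨?_, rfl⟩
      rw [map_zero, zero_mul, add_zero, map_eq_zero] at h1
      exact h1
    · exfalso
      apply h.not_mem (-s / t)
      rw [map_div₀, map_neg, div_eq_iff ((map_ne_zero j).mpr ht)]
      linear_combination -h1
  have hsp : ⊤ ≤ Submodule.span K (Set.range b) := by
    intro z _
    obtain ⟨a, c, rfl⟩ := h.span z
    have h1 : j a + j c * θ = a • b 0 + c • b 1 := by
      rw [Algebra.smul_def, Algebra.smul_def]
      change j a + j c * θ = j a * 1 + j c * θ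
      rw [mul_one]
    rw [h1]
    exact add_mem (Submodule.smul_mem _ _ (Submodule.subset_span ⟨0, rfl⟩))
      (Submodule.smul_mem _ _ (Submodule.subset_span ⟨1, rfl⟩))
  let B : Module.Basis (Fin 2) K L := Module.Basis.mk hli hsp
  rw [Module.finrank_eq_card_basis B, Fintype.card_fin]

/-- The kernel of the restriction to a quadratic extension is killed by `2`. -/
theorem quad_two_smul (h : IsQuad j θ) {y : KM m K} (hy : KM.map m j y = 0) : 2 • y = 0 := by
  let _ := j.toAlgebra
  have h2 := quad_finrank h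
  have : FiniteDimensional K L := Module.finite_of_finrank_eq_succ h2
  exact finrank_smul_eq_zero 2 (K := K) (L := L) h2 hy

/-- Invariant unramified classes of a quadratic extension descend, up to the factor `4`. -/
theorem quad_exists_unr (h : IsQuad j θ) (σ : L →+* L) (hσ : σ.comp j = j) (hσθ : σ θ ≠ θ)
    {x : KM m L} (hx : KM.map m σ x = x) (hxu : Unr x) :
    ∃ y : KM m K, Unr y ∧ KM.map m j y = 4 • x := by
  classical
  let _ := j.toAlgebra
  have h2 := quad_finrank h
  have hfd : FiniteDimensional K L := Module.finite_of_finrank_eq_succ h2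
  let σ' : L →ₐ[K] L := { σ with commutes' := fun a => RingHom.congr_fun hσ a }
  have hbij : Function.Bijective σ' := Algebra.IsAlgebraic.algHom_bijective σ'
  let s : L ≃ₐ[K] L := AlgEquiv.ofBijective σ' hbij
  have hs : ∀ z, s z = σ z := fun z => rfl
  have hs1 : s ≠ 1 := by
    intro h1
    apply hσθ
    rw [← hs, h1]
    rfl
  have hcard : 2 ≤ Fintype.card (L ≃ₐ[K] L) := by
    have := Fintype.one_lt_card_iff.mpr ⟨s, 1, hs1⟩
    omega
  have hcard2 : Fintype.card (L ≃ₐ[K] L) = 2 := by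
    apply le_antisymm _ hcard
    have h3 := AlgEquiv.card_le (F := K) (K := L)
    omega
  have hgal : IsGalois K L := IsGalois.of_card_aut_eq_finrank K L (by
    rw [Nat.card_eq_fintype_card, hcard2, h2])
  have huniv : (Finset.univ : Finset (L ≃ₐ[K] L)) = {1, s} := by
    symm
    apply Finset.eq_univ_of_card
    rw [Finset.card_pair hs1.symm, hcard2]
  obtain ⟨y, hy⟩ := exists_trace (K := K) (L := L) x
  rw [huniv, Finset.sum_pair hs1.symm] at hy
  have e1 : KM.map m ((1 : L ≃ₐ[K] L) : L →+* L) x = x := by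
    have : ((1 : L ≃ₐ[K] L) : L →+* L) = RingHom.id L := rfl
    rw [this, KM.map_id]
    rfl
  have e2 : KM.map m ((s : L ≃ₐ[K] L) : L →+* L) x = x := by
    have : ((s : L ≃ₐ[K] L) : L →+* L) = σ := rfl
    rw [this, hx]
  rw [e1, e2] at hy
  have hy' : KM.map m j y = x + x := hy
  have hu : Unr (KM.map m (algebraMap K L) y) := by
    rw [hy]; exact hxu.add hxu
  have h3 := unr_smul_of_map (K := K) (L := L) hu
  rw [h2] at h3
  refine ⟨2 • y, h3, ?_⟩
  rw [map_nsmul, hy']
  abel

end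

end UnrA
end

section

/-!
# Comparison of the Milnor K-ring with the reduced one
-/

namespace UnrG

universe u v w

open Polynomial Finset
open scoped Classical

variable {m : ℕ} {K : Type u} [Field K]

private lemma MK.map_sym_aux {L : Type v} [Field L] (f : K →+* L) (a : Kˣ) :
    MK.map m f (MK.sym m a) = MK.sym m (Units.map (f : K →* L) a) := by
  unfold MK.map
  rw [MK.lift_sym]

/-- Hint: both sides are algebra homomorphisms; compare on symbols (`usym`, `KM.map_sym`,
`sym_unit`). -/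
lemma MK.red_map {L : Type v} [Field L] (f : K →+* L) (ξ : MK m K) :
    MK.red m L (MK.map m f ξ) = KM.map m f (MK.red m K ξ) := by
  have h : (MK.red m L).comp (MK.map m f) = (KM.map m f).comp (MK.red m K) := by
    apply MK.algHom_ext
    intro a
    rw [AlgHom.comp_apply, AlgHom.comp_apply, MK.map_sym_aux, MK.red_sym, MK.red_sym,
      ← sym_unit a, KM.map_sym, ← sym_unit]
    rfl
  exact congrArg (fun g : MK m K →ₐ[ZMod m] KM m L => g ξ) h

lemma MK.red_deg {j : ℕ} {ξ : MK m K} (h : ξ ∈ MK.deg m K j) :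
    MK.red m K ξ ∈ KM.deg m K j := by
  unfold MK.deg at h
  unfold KM.deg
  have h1 : MK.red m K ξ ∈ Submodule.map (MK.red m K).toLinearMap
      (Submodule.span (ZMod m) (Set.range (MK.sym m : Kˣ → MK m K)) ^ j) :=
    ⟨ξ, h, rfl⟩
  rw [Submodule.map_pow] at h1
  have h2 : Submodule.map (MK.red m K).toLinearMap
      (Submodule.span (ZMod m) (Set.range (MK.sym m : Kˣ → MK m K))) ≤
      Submodule.span (ZMod m) (Set.range (UnrG.sym m : K → KM m K)) := by
    rw [Submodule.map_span, Submodule.span_le]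
    rintro _ ⟨_, ⟨a, rfl⟩, rfl⟩
    apply Submodule.subset_span
    exact ⟨(a : K), by rw [sym_unit]; exact (MK.red_sym a).symm⟩
  exact pow_le_pow_left' h2 j h1

/-- Hint: `Unr`, `UnrAt` unfold to membership in `Algebra.adjoin` of the symbols of units;
`AlgHom.map_adjoin`. -/
lemma MK.red_unr {ξ : MK m K} (h : MK.Unr ξ) : UnrG.Unr (MK.red m K ξ) := by
  intro A hA
  unfold UnrAt
  have h1 := h A hA
  have h2 : MK.red m K ξ ∈ (Algebra.adjoin (ZMod m) (Set.range fun u : Aˣ =>
      (MK.sym m (Units.map (A.subtype : A →* K) u) : MK m K))).map (MK.red m K) := ⟨ξ, h1, rfl⟩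
  rw [AlgHom.map_adjoin] at h2
  refine Algebra.adjoin_mono ?_ h2
  rintro _ ⟨_, ⟨u, rfl⟩, rfl⟩
  refine ⟨u, ?_⟩
  change UnrG.sym m ((u : A) : K) = MK.red m K (MK.sym m (Units.map (A.subtype : A →* K) u))
  rw [MK.red_sym, ← sym_unit]
  rfl

private def MK.twoCon (m : ℕ) (K : Type u) [Field K] : RingCon (MK m K) where
  r x y := 2 • x = 2 • y
  iseqv := ⟨fun _ => rfl, fun h => h.symm, fun h h' => h.trans h'⟩
  mul' := by
    intro a b c d h h'
    have h1 : (2 : ℕ) • a = (2 : ℕ) • b := h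
    have h2 : (2 : ℕ) • c = (2 : ℕ) • d := h'
    rw [← smul_mul_assoc, h1, smul_mul_assoc, ← mul_smul_comm, h2, mul_smul_comm]
  add' := by
    intro a b c d h h'
    have h1 : (2 : ℕ) • a = (2 : ℕ) • b := h
    have h2 : (2 : ℕ) • c = (2 : ℕ) • d := h'
    rw [smul_add, h1, h2, smul_add]

/-- The kernel of the projection is killed by two. Proof: `I = {ξ | 2 • ξ = 0}` is a two-sided ideal
containing the symbol `{-1}` (`2 • {-1} = {1} = 0`), so the projection `MK → MK / I` factors through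
`KM` by `UnrG.lift`; an element killed by `MK.red` lies in `I`. (Use `RingCon`/`TwoSidedIdeal`
quotients or `RingQuot` by the relation `a ~ b` iff `2 • a = 2 • b`, with
`RingQuot.mkAlgHom`.) -/
theorem MK.two_smul_eq_zero {ξ : MK m K} (h : MK.red m K ξ = 0) : 2 • ξ = 0 := by
  let c := MK.twoCon m K
  let π : MK m K →ₐ[ZMod m] c.Quotient := RingCon.mkₐ (α := ZMod m) c
  have hone : MK.sym m (1 : Kˣ) = (0 : MK m K) := by
    have := MK.sym_mul (m := m) (1 : Kˣ) 1
    rw [one_mul] at this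
    exact left_eq_add.mp this
  let ψ : KM m K →ₐ[ZMod m] c.Quotient := UnrG.lift (fun a => π (MK.sym m a))
    (fun a b => by rw [MK.sym_mul, map_add])
    (fun a b hab => by rw [← map_mul, MK.sym_steinberg a b hab, map_zero])
    (by
      rw [← map_zero π]
      apply (RingCon.eq c).2
      change 2 • MK.sym m (-1 : Kˣ) = 2 • (0 : MK m K)
      rw [two_smul, ← MK.sym_mul, smul_zero, neg_one_mul, neg_neg, hone])
  have hcomp : ψ.comp (MK.red m K) = π := by
    apply MK.algHom_ext
    intro a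
    rw [AlgHom.comp_apply, MK.red_sym]
    exact lift_usym _ _ _ _ a
  have h1 : π ξ = π 0 := by
    rw [← hcomp, AlgHom.comp_apply, h, map_zero, map_zero]
  have h2 : c ξ 0 := (RingCon.eq c).1 h1
  have h3 : 2 • ξ = 2 • (0 : MK m K) := h2
  rw [h3, smul_zero]

end UnrG
end
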