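import Mathlib
import Pool.Agent.Lib.MP_859dd5_ag.Mg.G054
import Pool.Agent.Lib.MP_859dd5_ag.EQ.Fun

section

/-!
# The arithmetic data: a finite field containing the roots of unity
-/

namespace UnrG

universe u v w

open Polynomial Finset

/-- The arithmetic data of Fermat curves over a finite field of order `N e + 1`: a primitive root
of unity `η` of order `N e` (a generator of the multiplicative group) and an `N`-th root `ε`
of `-1`. -/
structure Base (𝔽 : Type w) [Field 𝔽] [Fintype 𝔽] where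
  /-- the exponent of the Fermat curve -/
  N : ℕ
  /-- the cofactor -/
  e : ℕ
  two_le : 2 ≤ N
  card : Fintype.card 𝔽 = N * e + 1
  /-- a generator of the multiplicative group -/
  η : 𝔽
  hη : IsPrimitiveRoot η (N * e)
  /-- an `N`-th root of `-1` -/
  ε : 𝔽
  hε : ε ^ N = -1

namespace Base

variable {𝔽 : Type w} [Field 𝔽] [Fintype 𝔽] (b : Base 𝔽)

/-- The order of the finite field. -/
def q : ℕ := b.N * b.e + 1

/-- A primitive `N`-th root of unity. -/
def ζ : 𝔽 := b.η ^ b.e

lemma e_pos : 0 < b.e := by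
  rcases Nat.eq_zero_or_pos b.e with h | h
  · have h1 := b.card
    rw [h, mul_zero, zero_add] at h1
    have h2 := Fintype.one_lt_card (α := 𝔽)
    omega
  · exact h

lemma N_pos : 0 < b.N := lt_of_lt_of_le (by norm_num) b.two_le

lemma card_q : Fintype.card 𝔽 = b.q := b.card

lemma hζ : IsPrimitiveRoot b.ζ b.N :=
  b.hη.pow (Nat.mul_pos b.N_pos b.e_pos) (Nat.mul_comm _ _)

lemma pow_eq_one {c : 𝔽} (hc : c ≠ 0) : c ^ (b.N * b.e) = 1 := by
  have h := FiniteField.pow_card_sub_one_eq_one c hc
  rwa [b.card, Nat.add_sub_cancel] at h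

lemma pow_q (c : 𝔽) : c ^ b.q = c := by
  have h := FiniteField.pow_card c
  rwa [b.card_q] at h

/-- In a field containing `𝔽` the integer `N` is invertible. -/
lemma N_ne {K : Type u} [Field K] (ι : 𝔽 →+* K) : (b.N : K) ≠ 0 := by
  have h1 : (b.N : 𝔽) ≠ 0 := by
    intro h
    have h2 : ((Fintype.card 𝔽 : ℕ) : 𝔽) = 0 := FiniteField.cast_card_eq_zero 𝔽
    rw [b.card] at h2
    push_cast at h2
    rw [h, zero_mul, zero_add] at h2
    exact one_ne_zero h2
  intro h
  apply h1
  have h2 : ι (b.N : 𝔽) = 0 := by rw [map_natCast]; exact h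
  exact (map_eq_zero ι).mp h2

/-- Every nonzero element of the finite field is a power of the generator. -/
lemma exists_pow_eq {c : 𝔽} (hc : c ≠ 0) : ∃ i : ℕ, b.η ^ i = c := by
  have : NeZero (b.N * b.e) := ⟨(Nat.mul_pos b.N_pos b.e_pos).ne'⟩
  obtain ⟨i, _, hi⟩ := b.hη.eq_pow_of_pow_eq_one (b.pow_eq_one hc)
  exact ⟨i, hi⟩

/-- The `e`-th power of a nonzero element of the finite field is a power of `ζ`. -/
lemma exists_pow_ζ {c : 𝔽} (hc : c ≠ 0) : ∃ i : ℕ, c ^ b.e = b.ζ ^ i := by
  obtain ⟨i, hi⟩ := b.exists_pow_eq hc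
  exact ⟨i, by rw [← hi, ζ, ← pow_mul, ← pow_mul, mul_comm]⟩

/-- The `N`-th roots of unity in a field containing `𝔽`. -/
lemma hζ_map {K : Type u} [Field K] (ι : 𝔽 →+* K) : IsPrimitiveRoot (ι b.ζ) b.N :=
  b.hζ.map_of_injective ι.injective

end Base

end UnrG
end

section

/-!
# Weights
-/

namespace UnrG

universe u v w

open Polynomial Finset
open scoped Classical

/-- An integral weight on `ZMod N` whose sums over the cosets of nonzero subgroups vanish. -/
structure Weight (N : ℕ) (r : ZMod N → ℤ) : Prop where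
  zero : r 0 = 1
  sum : ∀ k : ZMod N, k ≠ 0 → ∀ j : ZMod N, ∑ i ∈ range N, r (j + i * k) = 0

private noncomputable def C1L (N : ℕ) : ℤ[X] →ₗ[ℤ] ℤ :=
  (Polynomial.lcoeff ℤ 0).comp (Polynomial.modByMonicHom (cyclotomic N ℤ))

private lemma C1L_dvd {N : ℕ} {P : ℤ[X]} (h : cyclotomic N ℤ ∣ P) : C1L N P = 0 := by
  have : P %ₘ cyclotomic N ℤ = 0 :=
    (Polynomial.modByMonic_eq_zero_iff_dvd (cyclotomic.monic N ℤ)).mpr h
  simp [C1L, Polynomial.modByMonicHom, this]

private lemma C1L_one {N : ℕ} (hN : 2 ≤ N) : C1L N 1 = 1 := by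
  have h1 : (1 : ℤ[X]) %ₘ cyclotomic N ℤ = 1 := by
    refine (Polynomial.modByMonic_eq_self_iff (cyclotomic.monic N ℤ)).mpr ?_
    rw [degree_one, degree_cyclotomic]
    exact_mod_cast Nat.totient_pos.mpr (by omega)
  simp [C1L, Polynomial.modByMonicHom, h1]

private lemma C1L_pow {N : ℕ} (a : ℕ) : C1L N (X ^ (a % N)) = C1L N (X ^ a) := by
  rw [eq_comm, ← sub_eq_zero, ← map_sub]
  refine C1L_dvd ((cyclotomic.dvd_X_pow_sub_one N ℤ).trans ?_)
  have h1 : (X : ℤ[X]) ^ a - X ^ (a % N) = X ^ (a % N) * ((X ^ N) ^ (a / N) - 1) := by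
    rw [mul_sub, mul_one, ← pow_mul, ← pow_add, Nat.mod_add_div]
  rw [h1]
  refine Dvd.dvd.mul_left ?_ _
  have := sub_dvd_pow_sub_pow ((X : ℤ[X]) ^ N) 1 (a / N)
  rwa [one_pow] at this

private lemma C1L_sum {N : ℕ} (hN : 2 ≤ N) (a b : ℕ) (hb : ¬ N ∣ b) :
    C1L N (∑ i ∈ range N, X ^ (a + i * b)) = 0 := by
  refine C1L_dvd ?_
  have hN0 : N ≠ 0 := by omega
  have hζ := Complex.isPrimitiveRoot_exp N hN0
  set ζ := Complex.exp (2 * Real.pi * Complex.I / N) with hζd
  have hint : IsIntegral ℤ ζ := hζ.isIntegral (by omega)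
  rw [cyclotomic_eq_minpoly hζ (by omega), ← minpoly.isIntegrallyClosed_dvd_iff hint]
  rw [map_sum]
  simp only [map_pow, aeval_X]
  have h1 : ∀ i, ζ ^ (a + i * b) = ζ ^ a * (ζ ^ b) ^ i := by
    intro i
    rw [pow_add, ← pow_mul, mul_comm i b]
  simp_rw [h1]
  rw [← mul_sum]
  have h2 : (∑ i ∈ range N, (ζ ^ b) ^ i) * (ζ ^ b - 1) = 0 := by
    rw [geom_sum_mul, ← pow_mul, mul_comm b N, pow_mul, hζ.pow_eq_one, one_pow, sub_self]
  have h3 : ζ ^ b - 1 ≠ 0 := by
    rw [sub_ne_zero]
    intro h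
    exact hb ((hζ.pow_eq_one_iff_dvd b).mp h)
  rw [(mul_eq_zero.mp h2).resolve_right h3, mul_zero]

/-- Hint: `r j = (X ^ j.val %ₘ cyclotomic N ℤ).coeff 0`. It only depends on `j` mod `N`
(`cyclotomic N ℤ ∣ X ^ N - 1`), `r 0 = 1` as the cyclotomic polynomial has positive degree, and
for `k ≠ 0` the polynomial `∑ i ∈ range N, X ^ (j + i * k)` is divisible by `cyclotomic N ℤ`:
multiply by `X ^ k - 1`, which is prime to it (a primitive `N`-th root of unity in `ℂ` is not a
root; `cyclotomic N ℤ` is prime in `ℤ[X]`). `%ₘ` is additive (`Polynomial.modByMonicHom`). -/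
theorem exists_weight {N : ℕ} (hN : 2 ≤ N) : ∃ r : ZMod N → ℤ, Weight N r := by
  have : NeZero N := ⟨by omega⟩
  refine ⟨fun j => C1L N (X ^ j.val), ?_, ?_⟩
  · simp only [ZMod.val_zero, pow_zero]
    exact C1L_one hN
  · intro k hk j
    have h1 : ∀ i : ℕ, C1L N (X ^ (j + i * k : ZMod N).val) = C1L N (X ^ (j.val + i * k.val)) := by
      intro i
      rw [← C1L_pow (j.val + i * k.val)]
      congr 2
      rw [← ZMod.val_natCast]
      congr 1
      push_cast
      rw [ZMod.natCast_zmod_val, ZMod.natCast_zmod_val]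
    simp_rw [h1]
    rw [← map_sum]
    refine C1L_sum hN _ _ ?_
    intro h
    apply hk
    have h2 : k.val = 0 := Nat.eq_zero_of_dvd_of_lt h (ZMod.val_lt k)
    exact (ZMod.val_eq_zero k).mp h2

/-- Hint: if `c i₀ ≠ 0`, translating `e i₀` by `i` for `i < N` shows that `N` times the sum is
`∑ e, ∑ i ∈ range N, r (∑ e c + i * c i₀) = 0`. -/
theorem Weight.sum_all {N : ℕ} [NeZero N] {r : ZMod N → ℤ} (h : Weight N r) {κ : Type*}
    [Fintype κ] (c : κ → ZMod N) :
    ∑ e : κ → ZMod N, r (∑ i, e i * c i) = if c = 0 then (N : ℤ) ^ Fintype.card κ else 0 := by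
  split_ifs with hc
  · subst hc
    simp [h.zero, ZMod.card]
  · obtain ⟨i₀, hi₀⟩ := Function.ne_iff.mp hc
    rw [Pi.zero_apply] at hi₀
    have h1 : ∀ t : ℕ, ∑ e : κ → ZMod N, r (∑ i, e i * c i + t * c i₀) =
        ∑ e : κ → ZMod N, r (∑ i, e i * c i) := by
      intro t
      refine Fintype.sum_equiv (Equiv.addRight (Pi.single i₀ (t : ZMod N))) _ _ (fun e => ?_)
      congr 1
      simp only [Equiv.coe_addRight, Pi.add_apply, add_mul, Finset.sum_add_distrib]
      congr 1
      rw [Finset.sum_eq_single i₀]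
      · rw [Pi.single_eq_same]
      · intro j _ hj
        rw [Pi.single_eq_of_ne hj, zero_mul]
      · intro hj
        exact absurd (Finset.mem_univ _) hj
    have h2 : (N : ℤ) * ∑ e : κ → ZMod N, r (∑ i, e i * c i) = 0 := by
      have h3 : ∑ t ∈ range N, ∑ e : κ → ZMod N, r (∑ i, e i * c i + t * c i₀) =
          (N : ℤ) * ∑ e : κ → ZMod N, r (∑ i, e i * c i) := by
        rw [Finset.sum_congr rfl (fun t _ => h1 t), Finset.sum_const, Finset.card_range,
          nsmul_eq_mul]
      rw [← h3, Finset.sum_comm]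
      exact Finset.sum_eq_zero (fun e _ => h.sum (c i₀) hi₀ _)
    rcases mul_eq_zero.mp h2 with h4 | h4
    · exact absurd (by exact_mod_cast h4) (NeZero.ne N)
    · exact h4

end UnrG
end

section

/-!
# Function fields of diagonal hypersurfaces: definitions
-/

namespace UnrG

universe u v w

open Polynomial Finset
open scoped Classical

variable {m : ℕ} {𝔽 : Type w} [Field 𝔽] [Fintype 𝔽] (b : Base 𝔽)

instance Base.instNeZero : NeZero b.N := ⟨b.N_pos.ne'⟩

variable {F L : Type u} [Field F] [Field L] [Algebra F L] (ι : 𝔽 →+* F) {r n : ℕ}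

/-- `L` is the function field of the diagonal hypersurface `∑ a_i x_i ^ N = 0` (with `x_0 = 1`) of
dimension `n` over the purely transcendental extension `F(t)` of `F`. -/
structure DiagData (t : Fin r → L) (a x : Fin (n + 2) → L) : Prop where
  a_mem : ∀ i, a i ∈ IntermediateField.adjoin F (Set.range t)
  a_ne : ∀ i, a i ≠ 0
  x_zero : x 0 = 1
  rel : ∑ i, a i * x i ^ b.N = 0
  ind : AlgebraicIndependent F (Sum.elim t (fun i : Fin n => x i.castSucc.succ))
  gen : IntermediateField.adjoin F (Set.range t ∪ Set.range x) = ⊤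

/-- The diagonal automorphism with exponents `c`. -/
structure IsAdm (t : Fin r → L) (x : Fin (n + 2) → L) (c : Fin (n + 2) → ZMod b.N)
    (f : L →+* L) : Prop where
  const : ∀ a : F, f (algebraMap F L a) = algebraMap F L a
  ft : ∀ i, f (t i) = t i
  fx : ∀ i, f (x i) = algebraMap F L (ι b.ζ) ^ (c i).val * x i

/-- The group of exponents of diagonal automorphisms. -/
noncomputable def admSet (t : Fin r → L) (x : Fin (n + 2) → L) :
    Finset (Fin (n + 2) → ZMod b.N) :=
  univ.filter (fun c => ∃ f : L →+* L, IsAdm b ι t x c f)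

/-- The diagonal automorphism with exponents `c` (the identity if there is none). -/
noncomputable def adm (t : Fin r → L) (x : Fin (n + 2) → L) (c : Fin (n + 2) → ZMod b.N) :
    L →+* L :=
  if h : ∃ f : L →+* L, IsAdm b ι t x c f then h.choose else RingHom.id L

lemma isAdm_adm {t : Fin r → L} {x : Fin (n + 2) → L} {c : Fin (n + 2) → ZMod b.N}
    (h : c ∈ admSet b ι t x) : IsAdm b ι t x c (adm b ι t x c) := by
  have h' : ∃ f : L →+* L, IsAdm b ι t x c f := (Finset.mem_filter.mp h).2
  unfold adm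
  rw [dif_pos h']
  exact h'.choose_spec

lemma mem_admSet {t : Fin r → L} {x : Fin (n + 2) → L} {c : Fin (n + 2) → ZMod b.N} :
    c ∈ admSet b ι t x ↔ ∃ f : L →+* L, IsAdm b ι t x c f := by
  simp [admSet]

/-- The pairing of exponents. -/
def pair {N n : ℕ} (α c : Fin n → ZMod N) : ZMod N := ∑ i, α i * c i

/-- The weighted projection of a class. -/
noncomputable def vv (t : Fin r → L) (x : Fin (n + 2) → L) (w : ZMod b.N → ℤ)
    (α : Fin (n + 2) → ZMod b.N) (ξ : KM m L) : KM m L :=
  ∑ c ∈ admSet b ι t x, w (pair α c) • KM.map m (adm b ι t x c) ξ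

/-- The exponents of the diagonal automorphisms fixing the subfield `T`. -/
noncomputable def admFix (t : Fin r → L) (x : Fin (n + 2) → L) (T : IntermediateField F L) :
    Finset (Fin (n + 2) → ZMod b.N) :=
  (admSet b ι t x).filter (fun c => ∀ z ∈ T, adm b ι t x c z = z)

/-- The sum of a class over the diagonal automorphisms fixing the subfield `T`. -/
noncomputable def trT (t : Fin r → L) (x : Fin (n + 2) → L) (T : IntermediateField F L)
    (ξ : KM m L) : KM m L :=
  ∑ c ∈ admFix b ι t x T, KM.map m (adm b ι t x c) ξ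

/-- The monomial with exponents `α`. -/
def wmon {N n : ℕ} {L : Type u} [Field L] (x : Fin n → L) (α : Fin n → ZMod N) : L :=
  ∏ i, x i ^ (α i).val

/-- The field generated by `F`, `t`, the powers `x_i ^ N`. -/
def fieldK (F : Type u) [Field F] [Algebra F L] (t : Fin r → L) (x : Fin (n + 2) → L) :
    IntermediateField F L :=
  IntermediateField.adjoin F (Set.range t ∪ Set.range (fun i => x i ^ b.N))

/-- The field generated by `F`, `t`, the powers `x_i ^ N` and the monomial with exponents `α`. -/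
def fieldA (F : Type u) [Field F] [Algebra F L] (t : Fin r → L) (x : Fin (n + 2) → L)
    (α : Fin (n + 2) → ZMod b.N) : IntermediateField F L :=
  IntermediateField.adjoin F (Set.range t ∪ Set.range (fun i => x i ^ b.N) ∪ {wmon x α})

/-- Minimal zero-sum sequences. -/
def MinZero {N n : ℕ} (α : Fin n → ZMod N) : Prop :=
  ∑ i, α i = 0 ∧ ∀ I : Finset (Fin n), I.Nonempty → I ≠ univ → ∑ i ∈ I, α i ≠ 0

/-- The Frobenius of `L` relative to `t` and the `x_i`, `a_i`. -/
structure SigmaL (F : Type u) [Field F] [Algebra F L] (t : Fin r → L) (a x : Fin (n + 2) → L)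
    (σ : L →+* L) : Prop where
  const : ∀ c : F, σ (algebraMap F L c) = algebraMap F L c ^ b.q
  ft : ∀ i, σ (t i) = t i
  fa : ∀ i, σ (a i) = a i
  fx : ∀ i, σ (x i) = x i

end UnrG
end

section

/-!
# Function fields of diagonal hypersurfaces: weighted projections of classes
-/

namespace UnrA.Fer

open UnrG

universe u v w z

open Polynomial Finset
open scoped Classical

variable {m : UFun.{u, z}} {𝔽 : Type w} [Field 𝔽] [Fintype 𝔽] (b : Base 𝔽)

variable {F L : Type u} [Field F] [Field L] [Algebra F L] (ι : 𝔽 →+* F) {r n : ℕ}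

/-- The weighted projection of a class. -/
noncomputable def vv (t : Fin r → L) (x : Fin (n + 2) → L) (w : ZMod b.N → ℤ)
    (α : Fin (n + 2) → ZMod b.N) (ξ : KM m L) : KM m L :=
  ∑ c ∈ admSet b ι t x, w (pair α c) • KM.map m (adm b ι t x c) ξ

/-- The sum of a class over the diagonal automorphisms fixing the subfield `T`. -/
noncomputable def trT (t : Fin r → L) (x : Fin (n + 2) → L) (T : IntermediateField F L)
    (ξ : KM m L) : KM m L :=
  ∑ c ∈ admFix b ι t x T, KM.map m (adm b ι t x c) ξ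

end UnrA.Fer
end

section

/-!
# The correspondence of the Frobenius of a Fermat curve: definitions
-/

namespace UnrG

universe u v w

open Polynomial Finset
open scoped Classical

variable {m : ℕ} {𝔽 : Type w} [Field 𝔽] [Fintype 𝔽] (b : Base 𝔽)

/-- The norm polynomial of the correspondence, as a polynomial in the parameter `v`. -/
noncomputable def normPoly {M : Type u} [Field M] (u : M) : M[X] :=
  (1 - C u * X ^ (b.N * b.e)) - (1 - C u) * (1 - X) ^ (b.N * b.e)

/-- The parameter points of the correspondence. -/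
noncomputable def normSet {M : Type u} [Field M] (ι : 𝔽 →+* M) (u : M) : Finset M :=
  insert u ((univ.filter (fun c : 𝔽 => c ≠ 0 ∧ c ≠ 1)).image ι)

/-- The curve of the correspondence: the extension of `M(v)` generated by an `N`-th root of
`1 - x ^ N v ^ (q - 1)`, with its automorphism `s` and the homomorphism
`ψ : x ↦ x v ^ e, y ↦ Y`. -/
structure FrobData {K M : Type u} [Field K] [Field M] (ι : 𝔽 →+* K) (j : K →+* M) (x y : M)
    (L : Type u) [Field L] [Algebra (RatFunc M) L] where
  /-- the root -/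
  Y : L
  /-- the automorphism -/
  s : L →+* L
  /-- the homomorphism -/
  ψ : M →+* L
  hY : Y ^ b.N = algebraMap (RatFunc M) L
    (algebraMap M[X] (RatFunc M) (1 - C (x ^ b.N) * X ^ (b.N * b.e)))
  htop : IntermediateField.adjoin (RatFunc M) {Y} = ⊤
  hs : s.comp (algebraMap (RatFunc M) L) = algebraMap (RatFunc M) L
  hsY : s Y = algebraMap (RatFunc M) L (algebraMap M (RatFunc M) (j (ι b.ζ))) * Y
  hψj : ∀ a : K, ψ (j a) = algebraMap (RatFunc M) L (algebraMap M (RatFunc M) (j a))
  hψx : ψ x = algebraMap (RatFunc M) L (algebraMap M (RatFunc M) x * RatFunc.X ^ b.e)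
  hψy : ψ y = Y

/-- The function defining the correspondence. -/
noncomputable def FrobData.g {K M : Type u} [Field K] [Field M] {ι : 𝔽 →+* K} {j : K →+* M}
    {x y : M} {L : Type u} [Field L] [Algebra (RatFunc M) L] (d : FrobData b ι j x y L) : L :=
  d.Y - algebraMap (RatFunc M) L (algebraMap M (RatFunc M) y * (1 - RatFunc.X) ^ b.e)

/-- The class on the correspondence. -/
noncomputable def FrobData.β {K M : Type u} [Field K] [Field M] {ι : 𝔽 →+* K} {j : K →+* M}
    {x y : M} {L : Type u} [Field L] [Algebra (RatFunc M) L] (d : FrobData b ι j x y L) (m : ℕ)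
    (ξ : KM m M) : KM m L := KM.map m d.ψ ξ * sym m (d.g b)

/-- The powers of `s` act trivially on `M(v)`. -/
lemma FrobData.s_pow_const {K M : Type u} [Field K] [Field M] {ι : 𝔽 →+* K} {j : K →+* M}
    {x y : M} {L : Type u} [Field L] [Algebra (RatFunc M) L] (d : FrobData b ι j x y L) (i : ℕ)
    (a : RatFunc M) : (d.s ^ i) (algebraMap (RatFunc M) L a) = algebraMap (RatFunc M) L a := by
  induction i with
  | zero => rfl
  | succ i ih =>
    rw [pow_succ]
    change (d.s ^ i) (d.s _) = _
    rw [show d.s (algebraMap (RatFunc M) L a) = algebraMap (RatFunc M) L a from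
      congrArg (fun f : RatFunc M →+* L => f a) d.hs, ih]

lemma FrobData.s_pow_Y {K M : Type u} [Field K] [Field M] {ι : 𝔽 →+* K} {j : K →+* M}
    {x y : M} {L : Type u} [Field L] [Algebra (RatFunc M) L] (d : FrobData b ι j x y L) (i : ℕ) :
    (d.s ^ i) d.Y =
      algebraMap (RatFunc M) L (algebraMap M (RatFunc M) (j (ι b.ζ))) ^ i * d.Y := by
  induction i with
  | zero => simp
  | succ i ih =>
    rw [pow_succ]
    change (d.s ^ i) (d.s _) = _
    rw [d.hsY, map_mul, ih, d.s_pow_const b, pow_succ]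
    ring

end UnrG
end
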