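import Mathlib
import Pool.Agent.Lib.MP_859dd5_ag.Mg.G068
import Pool.Agent.Lib.MP_859dd5_ag.Mg.G054
import Pool.Agent.Lib.MP_859dd5_ag.EQ.Fun

section

section

/-!
# Fields of constants which contain a given finite field
-/

namespace UnrG

universe u v

open Polynomial Finset

/-- `F` has a primitive root of unity of order `p ^ k - 1`; for a field of characteristic `p` this
says that `F` contains the field with `p ^ k` elements. -/
class FixSp (F : Type u) [Field F] (p k : ℕ) : Prop where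
  exists_root : ∃ ω : F, IsPrimitiveRoot ω (p ^ k - 1)

theorem FixSp.of_dvd (F : Type u) [Field F] {p k S : ℕ} (hp : p.Prime) (hS : 0 < S) (h : k ∣ S)
    (hF : FixSp F p S) : FixSp F p k := by
  obtain ⟨ω, hω⟩ := hF.exists_root
  obtain ⟨d, rfl⟩ := h
  have h1 : p ^ k - 1 ∣ p ^ (k * d) - 1 := by
    rw [pow_mul]
    simpa only [one_pow] using Nat.sub_dvd_pow_sub_pow (p ^ k) 1 d
  obtain ⟨e, he⟩ := h1
  have h2 : 0 < p ^ (k * d) - 1 := by
    have := Nat.one_lt_pow hS.ne' hp.one_lt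
    omega
  exact ⟨ω ^ e, hω.pow h2 (by rw [he, mul_comm])⟩

variable {F : Type u} [Field F] {p k : ℕ}

/-- The polynomial `X ^ (p ^ k) - X` splits. -/
theorem FixSp.splits (hp : p.Prime) (hk : 0 < k) (hF : FixSp F p k) :
    (X ^ p ^ k - X : F[X]).Splits := by
  obtain ⟨ω, hω⟩ := hF.exists_root
  have hQ1 : 1 < p ^ k := Nat.one_lt_pow hk.ne' hp.one_lt
  have hfac : (X ^ p ^ k - X : F[X]) =
      X * ∏ ζ ∈ nthRootsFinset (p ^ k - 1) (1 : F), (X - C ζ) := by
    have h1 : (X ^ (p ^ k - 1) - 1 : F[X]) =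
        ∏ ζ ∈ nthRootsFinset (p ^ k - 1) (1 : F), (X - C ζ) :=
      X_pow_sub_one_eq_prod (by omega) hω
    rw [← h1, mul_sub, mul_one, ← pow_succ', Nat.sub_add_cancel hQ1.le]
  rw [hfac]
  refine Splits.X.mul (Splits.prod fun ζ _ => ?_)
  exact Splits.X_sub_C ζ

/-- A primitive root of unity of order `N ∣ p ^ k - 1`. -/
theorem FixSp.exists_isPrimitiveRoot (hp : p.Prime) (hk : 0 < k) (hF : FixSp F p k) {N : ℕ}
    (h : N ∣ p ^ k - 1) : ∃ ζ : F, IsPrimitiveRoot ζ N := by
  obtain ⟨ω, hω⟩ := hF.exists_root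
  obtain ⟨e, he⟩ := h
  have hQ1 : 1 < p ^ k := Nat.one_lt_pow hk.ne' hp.one_lt
  exact ⟨ω ^ e, hω.pow (by omega) (by rw [he, mul_comm])⟩

/-- Elements of an extension of `F` fixed by the `p ^ k`-th power. -/
theorem FixSp.mem_range (hp : p.Prime) (hk : 0 < k) (hF : FixSp F p k) {Ω : Type v} [Field Ω]
    [Algebra F Ω] {μ : Ω} (h : μ ^ p ^ k = μ) : ∃ c : F, algebraMap F Ω c = μ := by
  obtain ⟨ω, hω⟩ := hF.exists_root
  have hQ1 : 1 < p ^ k := Nat.one_lt_pow hk.ne' hp.one_lt
  by_cases hμ : μ = 0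
  · exact ⟨0, by rw [hμ, map_zero]⟩
  · have h1 : μ ^ (p ^ k - 1) = 1 := by
      have h2 : μ * μ ^ (p ^ k - 1) = μ * 1 := by
        rw [← pow_succ', Nat.sub_add_cancel hQ1.le, h, mul_one]
      exact mul_left_cancel₀ hμ h2
    have : NeZero (p ^ k - 1) := ⟨by omega⟩
    have hω' : IsPrimitiveRoot (algebraMap F Ω ω) (p ^ k - 1) :=
      hω.map_of_injective (algebraMap F Ω).injective
    obtain ⟨i, _, hi⟩ := hω'.eq_pow_of_pow_eq_one h1
    exact ⟨ω ^ i, by rw [map_pow, hi]⟩

/-- Roots of unity of order dividing `N`, when `F` has a primitive one. -/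
theorem mem_range_of_pow_eq_one {N : ℕ} (hN : 0 < N) {ζ : F} (hζ : IsPrimitiveRoot ζ N)
    {Ω : Type v} [Field Ω] [Algebra F Ω] {μ : Ω} (h : μ ^ N = 1) :
    ∃ c : F, algebraMap F Ω c = μ := by
  have : NeZero N := ⟨hN.ne'⟩
  have hω' : IsPrimitiveRoot (algebraMap F Ω ζ) N :=
    hζ.map_of_injective (algebraMap F Ω).injective
  obtain ⟨i, _, hi⟩ := hω'.eq_pow_of_pow_eq_one h
  exact ⟨ζ ^ i, by rw [map_pow, hi]⟩

/-- An element with `ε ^ (p ^ κ + 1) = -1`. -/
theorem FixSp.exists_pow_eq_neg_one (hp : p.Prime) [CharP F p] {κ : ℕ} (hκ : 0 < κ)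
    (hF : FixSp F p (2 * κ)) : ∃ ε : F, ε ^ (p ^ κ + 1) = -1 := by
  obtain ⟨ω, hω⟩ := hF.exists_root
  have hQ1 : 1 < p ^ κ := Nat.one_lt_pow hκ.ne' hp.one_lt
  rcases hp.eq_two_or_odd' with rfl | hodd
  · refine ⟨1, ?_⟩
    rw [one_pow, CharTwo.neg_eq]
  · have hQo : Odd (p ^ κ) := hodd.pow
    obtain ⟨l, hl⟩ := hQo
    have h1 : p ^ (2 * κ) - 1 = 2 * (l * (p ^ κ + 1)) := by
      have h2 : p ^ (2 * κ) = p ^ κ * p ^ κ := by rw [two_mul, pow_add]
      rw [h2, hl]
      have h3 : (2 * l + 1) * (2 * l + 1) = 2 * (l * (2 * l + 1 + 1)) + 1 := by ring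
      rw [h3, Nat.add_sub_cancel]
    have hl0 : 0 < l := by omega
    have h2 : 0 < p ^ (2 * κ) - 1 := by
      rw [h1]
      positivity
    have h3 : IsPrimitiveRoot (ω ^ (l * (p ^ κ + 1))) 2 :=
      hω.pow h2 (by rw [h1, mul_comm])
    refine ⟨ω ^ l, ?_⟩
    rw [← pow_mul]
    exact h3.eq_neg_one_of_two_right

/-- Algebraically closed fields. -/
theorem FixSp.of_isAlgClosed [IsAlgClosed F] (hp : p.Prime) [CharP F p] (hk : 0 < k) :
    FixSp F p k := by
  have hQ1 : 1 < p ^ k := Nat.one_lt_pow hk.ne' hp.one_lt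
  have h1 : ((p ^ k - 1 : ℕ) : F) ≠ 0 := by
    rw [Nat.cast_sub hQ1.le]
    push_cast
    rw [CharP.cast_eq_zero F p, zero_pow hk.ne', zero_sub]
    exact neg_ne_zero.2 one_ne_zero
  have : NeZero ((p ^ k - 1 : ℕ) : F) := ⟨h1⟩
  exact ⟨HasEnoughRootsOfUnity.exists_primitiveRoot F (p ^ k - 1)⟩

end UnrG
end

section

/-!
# A finite extension containing the roots of unity
-/

namespace UnrG

universe u v w

open Polynomial Finset
open scoped Classical

/-- Roots of unity and roots of `-1`. Hint: `e = (card - 1) / N`; `η` a generator of the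
cyclic group of units. -/
theorem exists_base_of_root {𝔽 : Type w} [Field 𝔽] [Fintype 𝔽] {N : ℕ} (hN : 2 ≤ N)
    (hdvd : N ∣ Fintype.card 𝔽 - 1) {ε : 𝔽} (hε : ε ^ N = -1) :
    ∃ b : Base 𝔽, b.N = N := by
  obtain ⟨e, he⟩ := hdvd
  obtain ⟨g, hg⟩ := IsCyclic.exists_generator (α := 𝔽ˣ)
  have hc := Fintype.one_lt_card (α := 𝔽)
  have h1 : orderOf g = N * e := by
    rw [orderOf_eq_card_of_forall_mem_zpowers hg, Nat.card_units, Nat.card_eq_fintype_card, he]
  refine ⟨⟨N, e, hN, by omega, (g : 𝔽), ?_, ε, hε⟩, rfl⟩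
  rw [IsPrimitiveRoot.coe_units_iff, ← h1]
  exact IsPrimitiveRoot.orderOf g

private theorem J1_aux_root {𝔽 : Type w} [Field 𝔽] [Fintype 𝔽] {N : ℕ}
    (hdvd : 2 * N ∣ Fintype.card 𝔽 - 1) : ∃ ε : 𝔽, ε ^ N = -1 := by
  obtain ⟨f, hf⟩ := hdvd
  obtain ⟨g, hg⟩ := IsCyclic.exists_generator (α := 𝔽ˣ)
  have hc := Fintype.one_lt_card (α := 𝔽)
  have h1 : orderOf g = 2 * N * f := by
    rw [orderOf_eq_card_of_forall_mem_zpowers hg, Nat.card_units, Nat.card_eq_fintype_card, hf]
  have hpos : 0 < N * f := by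
    rcases Nat.eq_zero_or_pos (N * f) with h | h
    · rw [mul_assoc, h] at hf
      omega
    · exact h
  have h2 : (g : 𝔽) ^ (N * f) * (g : 𝔽) ^ (N * f) = 1 := by
    rw [← pow_add, ← two_mul, ← mul_assoc, ← h1, ← Units.val_pow_eq_pow_val, pow_orderOf_eq_one,
      Units.val_one]
  have h3 : (g : 𝔽) ^ (N * f) ≠ 1 := by
    intro h
    have h4 : g ^ (N * f) = 1 := by
      apply Units.ext
      rw [Units.val_pow_eq_pow_val, h, Units.val_one]
    have h5 := Nat.le_of_dvd hpos (orderOf_dvd_of_pow_eq_one h4)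
    rw [h1, mul_assoc] at h5
    omega
  refine ⟨(g : 𝔽) ^ f, ?_⟩
  rw [← pow_mul, mul_comm f N]
  rcases mul_self_eq_one_iff.1 h2 with h | h
  · exact absurd h h3
  · exact h

/-- Hint: let `M = 2 * N * (q - 1)` if `q` is odd and `M = N * (q - 1)` if `q` is even; it is prime
to `q`, so `q ^ s ≡ 1` mod `M` for `s = φ(M)`. Then `N ∣ q ^ s - 1`,
`N ∣ (q ^ s - 1) / (q - 1) = ∑ i < s, q ^ i`, and in a field with `q ^ s` elements (`GaloisField p k`
with `q = p ^ j`, `k = j s`; `FiniteField.card`, `GaloisField.card`) `-1` is an `N`-th power: if `q` is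
odd, the cyclic group of units has an element `ε` of order `2 N` and `ε ^ N = -1`. -/
theorem exists_base_extension (𝔽 : Type) [Field 𝔽] [Fintype 𝔽] {N : ℕ} (hN : 2 ≤ N)
    (hq : (Fintype.card 𝔽).Coprime N) :
    ∃ (s : ℕ) (𝔽' : Type) (_ : Field 𝔽') (_ : Fintype 𝔽') (b : Base 𝔽'), 0 < s ∧ b.N = N ∧
      Fintype.card 𝔽' = Fintype.card 𝔽 ^ s ∧
      N ∣ ∑ i ∈ range s, Fintype.card 𝔽 ^ i := by
  obtain ⟨p, hchar⟩ := CharP.exists 𝔽
  obtain ⟨j, hp, hcard⟩ := FiniteField.card 𝔽 p
  have : Fact p.Prime := ⟨hp⟩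
  obtain ⟨q, hqdef⟩ : ∃ q, q = Fintype.card 𝔽 := ⟨_, rfl⟩
  rw [← hqdef] at hq hcard ⊢
  have hq1 : 1 < q := by rw [hqdef]; exact Fintype.one_lt_card
  obtain ⟨c, hc0, hcop, hc2⟩ : ∃ c : ℕ, 0 < c ∧ q.Coprime c ∧ (c = 2 ∨ p = 2) := by
    rcases hp.eq_two_or_odd' with h | h
    · exact ⟨1, one_pos, Nat.coprime_one_right q, Or.inr h⟩
    · refine ⟨2, two_pos, ?_, Or.inl rfl⟩
      rw [Nat.coprime_two_right, hcard]
      exact h.pow
  have hM0 : 0 < c * N * (q - 1) := Nat.mul_pos (Nat.mul_pos hc0 (by omega)) (by omega)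
  have hcopM : q.Coprime (c * N * (q - 1)) := by
    refine Nat.Coprime.mul_right (Nat.Coprime.mul_right hcop hq) ?_
    have h1 : q = (q - 1) + 1 := by omega
    have h2 : Nat.Coprime ((q - 1) + 1) (q - 1) := by simp
    rwa [← h1] at h2
  obtain ⟨s, hs, hmod⟩ : ∃ s : ℕ, 0 < s ∧ q ^ s ≡ 1 [MOD c * N * (q - 1)] :=
    ⟨_, Nat.totient_pos.2 hM0, Nat.ModEq.pow_totient hcopM⟩
  have hgeo : (∑ i ∈ range s, q ^ i) * (q - 1) = q ^ s - 1 := by
    have h1 := geom_sum_mul (q : ℤ) s
    have h2 : 1 ≤ q ^ s := Nat.one_le_pow _ _ (by omega)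
    zify [h2, hq1.le]
    exact h1
  have hdvd : c * N ∣ ∑ i ∈ range s, q ^ i := by
    have h1 : c * N * (q - 1) ∣ (∑ i ∈ range s, q ^ i) * (q - 1) := by
      rw [hgeo]
      exact (Nat.modEq_iff_dvd' (Nat.one_le_pow _ _ (by omega))).1 hmod.symm
    exact Nat.dvd_of_mul_dvd_mul_right (by omega) h1
  have hdvd2 : c * N ∣ q ^ s - 1 := by
    rw [← hgeo]
    exact hdvd.mul_right _
  have hjs : (j : ℕ) * s ≠ 0 := Nat.mul_ne_zero j.pos.ne' hs.ne'
  have hfin : Finite (GaloisField p (j * s)) := inferInstance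
  let inst := Fintype.ofFinite (GaloisField p (j * s))
  have hcard' : Fintype.card (GaloisField p (j * s)) = q ^ s := by
    rw [← Nat.card_eq_fintype_card, GaloisField.card p _ hjs, hcard, pow_mul]
  obtain ⟨ε, hε⟩ : ∃ ε : GaloisField p (j * s), ε ^ N = -1 := by
    rcases hc2 with h | h
    · refine J1_aux_root ?_
      rw [hcard', ← h]
      exact hdvd2
    · refine ⟨1, ?_⟩
      have h1 : CharP (GaloisField p (j * s)) 2 := by
        rw [← h]
        infer_instance
      rw [one_pow, CharTwo.neg_eq]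
  obtain ⟨b, hb⟩ := exists_base_of_root (𝔽 := GaloisField p (j * s)) hN
    (by rw [hcard']; exact (Dvd.intro_left c rfl).trans hdvd2) hε
  exact ⟨s, GaloisField p (j * s), inferInstance, inst, b, hs, hb, hcard',
    (Dvd.intro_left c rfl).trans hdvd⟩

end UnrG
end

section

/-!
# Diagonal automorphisms: formal properties
-/

namespace UnrG

universe u v w

open Polynomial Finset
open scoped Classical

variable {m : ℕ} {𝔽 : Type w} [Field 𝔽] [Fintype 𝔽] (b : Base 𝔽)

variable {F L : Type u} [Field F] [Field L] [Algebra F L] {ι : 𝔽 →+* F} {r n : ℕ}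
  {t : Fin r → L} {a x : Fin (n + 2) → L}

private lemma D1_indep (h : DiagData b t (F := F) a x) :
    AlgebraicIndependent (IntermediateField.adjoin F (Set.range t))
      (fun i : Fin n => x i.castSucc.succ) := by
  have h1 : AlgebraicIndependent F (Sum.elim (fun i : Fin n => x i.castSucc.succ) t) := by
    have h2 := h.ind.comp Sum.swap Sum.swap_leftInverse.injective
    have h3 : Sum.elim t (fun i : Fin n => x i.castSucc.succ) ∘ Sum.swap =
        Sum.elim (fun i : Fin n => x i.castSucc.succ) t := by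
      funext i
      rcases i with i | i <;> rfl
    rwa [h3] at h2
  exact IntermediateField.algebraicIndependent_adjoin_iff.mpr
    (AlgebraicIndependent.sumElim_iff.mp h1).2

private lemma D1_lin (h : DiagData b t (F := F) a x)
    (d0 : IntermediateField.adjoin F (Set.range t))
    (d : Fin n → IntermediateField.adjoin F (Set.range t))
    (h0 : (d0 : L) + ∑ i, (d i : L) * x i.castSucc.succ ^ b.N = 0) : d0 = 0 := by
  have h1 := D1_indep b h
  rw [algebraicIndependent_iff] at h1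
  have h2 := h1 (MvPolynomial.C d0 + ∑ i, MvPolynomial.C (d i) * MvPolynomial.X i ^ b.N) (by
    rw [map_add, map_sum, MvPolynomial.aeval_C]
    simp only [map_mul, map_pow, MvPolynomial.aeval_C, MvPolynomial.aeval_X]
    exact h0)
  have h3 := congrArg (MvPolynomial.eval (fun _ => 0)) h2
  simpa [zero_pow b.N_pos.ne'] using h3

/-- Hint: for `i = 1, …, n` from `ind`, for the last one from `rel` and `ind` (the elements
`x_1 ^ N, …, x_n ^ N` are algebraically independent over `F(t)`, so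
`∑_{i ≤ n} a_i x_i ^ N ≠ 0`; note `n = 0` is allowed: then it is `a_0 ≠ 0`). -/
lemma DiagData.x_ne (h : DiagData b t (F := F) a x) (i : Fin (n + 2)) : x i ≠ 0 := by
  refine Fin.cases ?_ (fun i => ?_) i
  · rw [h.x_zero]
    exact one_ne_zero
  · refine Fin.lastCases ?_ (fun i => ?_) i
    · intro h0
      have h1 := h.rel
      rw [Fin.sum_univ_succ, Fin.sum_univ_castSucc, h0, zero_pow b.N_pos.ne', mul_zero, add_zero,
        h.x_zero, one_pow, mul_one] at h1
      have h2 := D1_lin b h ⟨a 0, h.a_mem 0⟩ (fun i => ⟨a i.castSucc.succ, h.a_mem _⟩) h1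
      exact h.a_ne 0 (congrArg Subtype.val h2)
    · exact h.ind.ne_zero (Sum.inr i)

private lemma D1_ext (h : DiagData b t (F := F) a x) {f g : L →+* L}
    (h1 : ∀ c : F, f (algebraMap F L c) = g (algebraMap F L c)) (h2 : ∀ i, f (t i) = g (t i))
    (h3 : ∀ i, f (x i) = g (x i)) : f = g := by
  have hle : IntermediateField.adjoin F (Set.range t ∪ Set.range x) ≤
      (RingHom.eqLocusField f g).toIntermediateField h1 := by
    rw [IntermediateField.adjoin_le_iff]
    rintro _ (⟨i, rfl⟩ | ⟨i, rfl⟩)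
    · exact h2 i
    · exact h3 i
  ext z
  have hz : z ∈ IntermediateField.adjoin F (Set.range t ∪ Set.range x) := by
    rw [h.gen]; trivial
  exact hle hz

/-- Hint: the equalizer is an intermediate field containing the generators. -/
lemma IsAdm.unique (h : DiagData b t (F := F) a x) {c : Fin (n + 2) → ZMod b.N} {f g : L →+* L}
    (hf : IsAdm b ι t x c f) (hg : IsAdm b ι t x c g) : f = g :=
  D1_ext b h (fun a => (hf.const a).trans (hg.const a).symm)
    (fun i => (hf.ft i).trans (hg.ft i).symm) (fun i => (hf.fx i).trans (hg.fx i).symm)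

private lemma D1_zeta (ι : 𝔽 →+* F) : (algebraMap F L (ι b.ζ)) ^ b.N = 1 := by
  rw [← map_pow, ← map_pow, b.hζ.pow_eq_one, map_one, map_one]

private lemma D1_pow_add (ι : 𝔽 →+* F) (c d : ZMod b.N) :
    (algebraMap F L (ι b.ζ)) ^ (c + d).val =
      (algebraMap F L (ι b.ζ)) ^ c.val * (algebraMap F L (ι b.ζ)) ^ d.val := by
  rw [ZMod.val_add, ← pow_eq_pow_mod _ (D1_zeta b ι), pow_add]

/-- Hint: `ζ ^ (i : ZMod N).val` depends only on `i` mod `N`; `ZMod.val_add`, `pow_mod`-type
arguments with `ζ ^ N = 1` (`Base.hζ_map`). -/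
lemma IsAdm.comp {c c' : Fin (n + 2) → ZMod b.N} {f g : L →+* L}
    (hf : IsAdm b ι t x c f) (hg : IsAdm b ι t x c' g) : IsAdm b ι t x (c + c') (f.comp g) where
  const a := by rw [RingHom.comp_apply, hg.const, hf.const]
  ft i := by rw [RingHom.comp_apply, hg.ft, hf.ft]
  fx i := by
    rw [RingHom.comp_apply, hg.fx, map_mul, map_pow, hf.const, hf.fx, Pi.add_apply,
      D1_pow_add]
    ring

lemma IsAdm.id' : IsAdm b ι t x 0 (RingHom.id L) where
  const _ := rfl
  ft _ := rfl
  fx i := by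
    rw [Pi.zero_apply, ZMod.val_zero, pow_zero, one_mul]
    rfl

lemma IsAdm.pow {c : Fin (n + 2) → ZMod b.N} {f : L →+* L} (hf : IsAdm b ι t x c f) (i : ℕ) :
    IsAdm b ι t x (i • c) (f ^ i) := by
  induction i with
  | zero =>
    rw [zero_nsmul, pow_zero]
    exact IsAdm.id' b
  | succ i ih =>
    rw [succ_nsmul, pow_succ]
    exact ih.comp b hf

/-- Hint: `x 0 = 1`, so `ζ ^ (c 0).val = 1`. -/
lemma IsAdm.zero_eq (h : DiagData b t (F := F) a x) {c : Fin (n + 2) → ZMod b.N} {f : L →+* L}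
    (hf : IsAdm b ι t x c f) : c 0 = 0 := by
  have h1 := hf.fx 0
  rw [h.x_zero, map_one, mul_one] at h1
  have hp : IsPrimitiveRoot (algebraMap F L (ι b.ζ)) b.N :=
    (b.hζ_map ι).map_of_injective (algebraMap F L).injective
  have h2 : b.N ∣ (c 0).val := (hp.pow_eq_one_iff_dvd _).mp h1.symm
  have h3 : (c 0).val = 0 := Nat.eq_zero_of_dvd_of_lt h2 (ZMod.val_lt _)
  exact (ZMod.val_eq_zero _).mp h3

/-- Hint: `IsAdm.pow` with exponent `N - 1`. -/
lemma neg_mem_admSet {c : Fin (n + 2) → ZMod b.N} (hc : c ∈ admSet b ι t x) :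
    -c ∈ admSet b ι t x := by
  rw [mem_admSet] at hc ⊢
  obtain ⟨f, hf⟩ := hc
  refine ⟨f ^ (b.N - 1), ?_⟩
  have h1 : (b.N - 1) • c = -c := by
    apply eq_neg_of_add_eq_zero_left
    rw [← succ_nsmul, Nat.sub_add_cancel b.N_pos]
    funext i
    simp
  rw [← h1]
  exact hf.pow b _

lemma add_mem_admSet {c c' : Fin (n + 2) → ZMod b.N} (hc : c ∈ admSet b ι t x)
    (hc' : c' ∈ admSet b ι t x) : c + c' ∈ admSet b ι t x := by
  rw [mem_admSet] at hc hc' ⊢
  obtain ⟨f, hf⟩ := hc
  obtain ⟨g, hg⟩ := hc'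
  exact ⟨f.comp g, hf.comp b hg⟩

lemma adm_add (h : DiagData b t (F := F) a x) {c c' : Fin (n + 2) → ZMod b.N}
    (hc : c ∈ admSet b ι t x) (hc' : c' ∈ admSet b ι t x) :
    adm b ι t x (c + c') = (adm b ι t x c).comp (adm b ι t x c') :=
  (isAdm_adm b ι (add_mem_admSet b hc hc')).unique b h
    ((isAdm_adm b ι hc).comp b (isAdm_adm b ι hc'))

/-- Translation by an element of `admSet` permutes it. -/
lemma sum_admSet_add {A : Type*} [AddCommMonoid A] {c₀ : Fin (n + 2) → ZMod b.N}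
    (hc : c₀ ∈ admSet b ι t x) (f : (Fin (n + 2) → ZMod b.N) → A) :
    ∑ c ∈ admSet b ι t x, f (c + c₀) = ∑ c ∈ admSet b ι t x, f c := by
  refine Finset.sum_nbij' (fun c => c + c₀) (fun c => c + -c₀) ?_ ?_ ?_ ?_ ?_
  · intro c h
    exact add_mem_admSet b h hc
  · intro c h
    exact add_mem_admSet b h (neg_mem_admSet b hc)
  · intro c _
    exact add_neg_cancel_right c c₀
  · intro c _
    exact neg_add_cancel_right c c₀
  · intro c _
    rfl

end UnrG
end

section

/-!
# The decomposition of a class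
-/

namespace UnrA.Fer

open UnrG

universe u v w z

open Polynomial Finset
open scoped Classical

variable {m : UFun.{u, z}} {𝔽 : Type w} [Field 𝔽] [Fintype 𝔽] (b : Base 𝔽)

variable {F L : Type u} [Field F] [Field L] [Algebra F L] {ι : 𝔽 →+* F} {r n : ℕ}
  {t : Fin r → L} {a x : Fin (n + 2) → L}

private lemma D2_zero_mem : (0 : Fin (n + 2) → ZMod b.N) ∈ admSet b ι t x :=
  (mem_admSet b ι).mpr ⟨RingHom.id L, IsAdm.id' b⟩

private lemma D2_adm_zero (h : DiagData b t (F := F) a x) : adm b ι t x 0 = RingHom.id L :=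
  (isAdm_adm b ι (D2_zero_mem b)).unique b h (IsAdm.id' b)

private lemma D2_pair_cons (s : ZMod b.N) (e : Fin (n + 1) → ZMod b.N)
    {c : Fin (n + 2) → ZMod b.N} (hc : c 0 = 0) :
    pair (Fin.cons s e : Fin (n + 2) → ZMod b.N) c = ∑ j, e j * c j.succ := by
  unfold pair
  rw [Fin.sum_univ_succ, hc, mul_zero, zero_add]
  simp only [Fin.cons_succ]

/-- The decomposition of a class. Proof: exchange the sums; the coefficient of the class
`adm c ξ` is `∑ e, w (∑ j, e j * c j.succ)` because `c 0 = 0` (`IsAdm.zero_eq`), which is zero unless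
`c = 0` (`Weight.sum_all`), and then it is `N ^ (n + 1)`; `adm 0 = id` (`IsAdm.unique`,
`IsAdm.id'`). -/
theorem sum_vv (h : DiagData b t (F := F) a x) {w : ZMod b.N → ℤ} (hw : Weight b.N w)
    (ξ : KM m L) :
    ∑ e : Fin (n + 1) → ZMod b.N, vv b ι t x w (Fin.cons (-∑ j, e j) e) ξ =
      ((b.N : ℤ) ^ (n + 1)) • ξ := by
  unfold vv
  rw [Finset.sum_comm]
  have h1 : ∀ c ∈ admSet b ι t x,
      ∑ e : Fin (n + 1) → ZMod b.N, w (pair (Fin.cons (-∑ j, e j) e : Fin (n + 2) → ZMod b.N) c) •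
        KM.map m (adm b ι t x c) ξ =
      if c = 0 then ((b.N : ℤ) ^ (n + 1)) • ξ else 0 := by
    intro c hc
    have h0 : c 0 = 0 := (isAdm_adm b ι hc).zero_eq b h
    rw [← Finset.sum_smul]
    have h2 : ∀ e : Fin (n + 1) → ZMod b.N,
        w (pair (Fin.cons (-∑ j, e j) e : Fin (n + 2) → ZMod b.N) c) =
          w (∑ j, e j * c j.succ) := fun e => by rw [D2_pair_cons b _ e h0]
    have h3 : ∑ e : Fin (n + 1) → ZMod b.N, w (∑ j, e j * c j.succ) = _ :=
      (Finset.sum_congr (Finset.ext fun e => by simp) fun _ _ => rfl).trans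
        (hw.sum_all (fun j : Fin (n + 1) => c j.succ))
    rw [Finset.sum_congr rfl fun e _ => h2 e, h3]
    by_cases hc0 : c = 0
    · rw [if_pos hc0, if_pos (by rw [hc0]; rfl), Fintype.card_fin, hc0, D2_adm_zero b h, KM.map_id]
      rfl
    · rw [if_neg hc0, if_neg, zero_smul]
      intro h3
      refine hc0 (funext fun i => ?_)
      refine Fin.cases h0 (fun j => ?_) i
      exact congrFun h3 j
  rw [Finset.sum_congr rfl h1, Finset.sum_ite_eq', if_pos (D2_zero_mem b)]

private lemma D2_map_adm (h : DiagData b t (F := F) a x) {w : ZMod b.N → ℤ}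
    {α c₀ : Fin (n + 2) → ZMod b.N} {f : L →+* L} (hf : IsAdm b ι t x c₀ f) (ξ : KM m L) :
    KM.map m f (vv b ι t x w α ξ) =
      ∑ c ∈ admSet b ι t x, w (pair α c - pair α c₀) • KM.map m (adm b ι t x c) ξ := by
  have hc₀ : c₀ ∈ admSet b ι t x := (mem_admSet b ι).mpr ⟨f, hf⟩
  rw [← sum_admSet_add b hc₀]
  unfold vv
  rw [map_sum]
  refine Finset.sum_congr rfl fun c hc => ?_
  rw [map_zsmul, KM.map_map]
  have h1 : f.comp (adm b ι t x c) = adm b ι t x (c + c₀) := by
    refine (hf.comp b (isAdm_adm b ι hc)).unique b h ?_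
    rw [add_comm c₀ c]
    exact isAdm_adm b ι (add_mem_admSet b hc hc₀)
  have h2 : pair α (c + c₀) - pair α c₀ = pair α c := by
    unfold pair
    simp only [Pi.add_apply, mul_add, Finset.sum_add_distrib, add_sub_cancel_right]
  rw [h1, h2]

/-- The sums over nontrivial diagonal automorphisms vanish. Proof:
`KM.map (f ^ i) (vv α ξ) = ∑ c, w (pair α c) • KM.map (adm (i • c₀ + c)) ξ
= ∑ c, w (pair α c - i * pair α c₀) • KM.map (adm c) ξ` (`sum_admSet_add`), and
`∑ i ∈ range N, w (k' - i * k) = 0` for `k = pair α c₀ ≠ 0` (`Weight.sum` for `-k`). -/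
theorem sum_pow_vv (h : DiagData b t (F := F) a x) {w : ZMod b.N → ℤ} (hw : Weight b.N w)
    {α c₀ : Fin (n + 2) → ZMod b.N} {f : L →+* L} (hf : IsAdm b ι t x c₀ f)
    (hk : pair α c₀ ≠ 0) (ξ : KM m L) :
    ∑ i ∈ range b.N, KM.map m (f ^ i) (vv b ι t x w α ξ) = 0 := by
  rw [Finset.sum_congr rfl fun i _ => D2_map_adm b h (w := w) (α := α) (hf.pow b i) ξ,
    Finset.sum_comm]
  refine Finset.sum_eq_zero fun c _ => ?_
  rw [← Finset.sum_smul]
  have h1 : ∀ i : ℕ, w (pair α c - pair α (i • c₀)) = w (pair α c + i * (-pair α c₀)) := by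
    intro i
    congr 1
    unfold pair
    simp only [Pi.smul_apply, nsmul_eq_mul]
    have h2 : ∀ j, α j * ((i : ZMod b.N) * c₀ j) = (i : ZMod b.N) * (α j * c₀ j) := fun j => by ring
    rw [Finset.sum_congr rfl fun j _ => h2 j, ← Finset.mul_sum]
    ring
  rw [Finset.sum_congr rfl fun i _ => h1 i, hw.sum _ (neg_ne_zero.mpr hk), zero_smul]

/-- Compatibility with homomorphisms commuting with the diagonal automorphisms. -/
private lemma D2_map_vv {σ : L →+* L} (w : ZMod b.N → ℤ)
    (hσ : ∀ c ∈ admSet b ι t x, σ.comp (adm b ι t x c) = (adm b ι t x c).comp σ)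
    (α : Fin (n + 2) → ZMod b.N) (ξ : KM m L) :
    KM.map m σ (vv b ι t x w α ξ) = vv b ι t x w α (KM.map m σ ξ) := by
  unfold vv
  rw [map_sum]
  refine Finset.sum_congr rfl fun c hc => ?_
  rw [map_zsmul, KM.map_map, KM.map_map, hσ c hc]

/-- Classes invariant under a diagonal automorphism acting nontrivially on the monomial. Proof:
`f (vv α ξ) = vv α (f ξ) = vv α ξ` since diagonal automorphisms commute; now `sum_pow_vv`. -/
theorem vv_eq_zero_of_inv (h : DiagData b t (F := F) a x) {w : ZMod b.N → ℤ}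
    (hw : Weight b.N w) {α c₀ : Fin (n + 2) → ZMod b.N} {f : L →+* L}
    (hf : IsAdm b ι t x c₀ f) (hk : pair α c₀ ≠ 0) {ξ : KM m L} (hξ : KM.map m f ξ = ξ) :
    b.N • vv b ι t x w α ξ = 0 := by
  have h1 : KM.map m f (vv b ι t x w α ξ) = vv b ι t x w α ξ := by
    rw [D2_map_vv b w (fun c hc => ?_), hξ]
    refine (hf.comp b (isAdm_adm b ι hc)).unique b h ?_
    rw [add_comm]
    exact (isAdm_adm b ι hc).comp b hf
  have h2 : ∀ i : ℕ, KM.map m (f ^ i) (vv b ι t x w α ξ) = vv b ι t x w α ξ := by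
    intro i
    induction i with
    | zero =>
      rw [pow_zero]
      change KM.map m (RingHom.id L) _ = _
      rw [KM.map_id]
      rfl
    | succ i ih =>
      rw [pow_succ]
      change KM.map m ((f ^ i).comp f) _ = _
      rw [← KM.map_map, h1, ih]
  have h3 := sum_pow_vv b h hw hf hk ξ
  rw [Finset.sum_congr rfl fun i _ => h2 i, Finset.sum_const, Finset.card_range] at h3
  exact h3

/-- Compatibility with homomorphisms commuting with the diagonal automorphisms. -/
lemma map_vv {σ : L →+* L} (w : ZMod b.N → ℤ)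
    (hσ : ∀ c ∈ admSet b ι t x, σ.comp (adm b ι t x c) = (adm b ι t x c).comp σ)
    (α : Fin (n + 2) → ZMod b.N) (ξ : KM m L) :
    KM.map m σ (vv b ι t x w α ξ) = vv b ι t x w α (KM.map m σ ξ) := D2_map_vv b w hσ α ξ

lemma vv_zsmul (w : ZMod b.N → ℤ) (α : Fin (n + 2) → ZMod b.N) (ξ : KM m L) (k : ℤ) :
    vv b ι t x w α (k • ξ) = k • vv b ι t x w α ξ := by
  unfold vv
  rw [Finset.smul_sum]
  refine Finset.sum_congr rfl fun c _ => ?_
  rw [map_zsmul, smul_comm]

/-- Unramified classes. -/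
lemma unr_vv (w : ZMod b.N → ℤ) (α : Fin (n + 2) → ZMod b.N) {ξ : KM m L} (hξ : Unr ξ) :
    Unr (vv b ι t x w α ξ) := by
  exact Unr.sum fun c _ => (hξ.map (adm b ι t x c)).zsmul _

end UnrA.Fer
end

section

/-!
# The affine coordinates of a diagonal hypersurface
-/

namespace UnrG

universe u v w

open Polynomial Finset
open scoped Classical

variable {m : ℕ} {𝔽 : Type w} [Field 𝔽] [Fintype 𝔽] (b : Base 𝔽)

variable {F L : Type u} [Field F] [Field L] [Algebra F L] {ι : 𝔽 →+* F} {r n : ℕ}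
  {t : Fin r → L} {a x : Fin (n + 2) → L}

/-- The truncated sums `T_j = ∑ i ≤ j, a i x i ^ N / a 0`. -/
noncomputable def partS (N : ℕ) (a x : Fin (n + 2) → L) (j : Fin (n + 2)) : L :=
  ∑ i ∈ univ.filter (fun i => i ≤ j), a i * x i ^ N / a 0

/-- The coordinates `U_j = T_j / T_{j + 1}`. -/
noncomputable def coordU (N : ℕ) (a x : Fin (n + 2) → L) (j : Fin n) : L :=
  partS N a x j.castSucc.castSucc / partS N a x j.castSucc.succ

lemma partS_zero (h : DiagData b t (F := F) a x) : partS b.N a x 0 = 1 := by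
  have h1 : (univ.filter (fun i : Fin (n + 2) => i ≤ 0)) = {0} := by
    ext i
    simp
  unfold partS
  rw [h1, sum_singleton, h.x_zero, one_pow, mul_one, div_self (h.a_ne 0)]

lemma partS_succ (N : ℕ) (a x : Fin (n + 2) → L) (j : Fin (n + 1)) :
    partS N a x j.succ = partS N a x j.castSucc + a j.succ * x j.succ ^ N / a 0 := by
  have h1 : (univ.filter (fun i : Fin (n + 2) => i ≤ j.succ)) =
      insert j.succ (univ.filter (fun i : Fin (n + 2) => i ≤ j.castSucc)) := by
    ext i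
    simp only [mem_filter, mem_univ, true_and, mem_insert, Fin.le_def, Fin.ext_iff, Fin.val_succ,
      Fin.val_castSucc]
    omega
  unfold partS
  rw [h1, sum_insert, add_comm]
  simp only [mem_filter, mem_univ, true_and, Fin.le_def, Fin.val_succ, Fin.val_castSucc]
  omega

lemma partS_last (h : DiagData b t (F := F) a x) : partS b.N a x (Fin.last (n + 1)) = 0 := by
  have h1 : (univ.filter (fun i : Fin (n + 2) => i ≤ Fin.last (n + 1))) = univ := by
    ext i
    simp [Fin.le_last]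
  unfold partS
  rw [h1, ← sum_div, h.rel, zero_div]

/-- A power of a member of an algebraically independent family is not in the field generated by
the other ones. -/
private lemma pow_notMem {κ : Type*} {g : κ → L} (hg : AlgebraicIndependent F g) {s : Set κ}
    {i : κ} (hi : i ∉ s) {N : ℕ} (hN : 0 < N) : g i ^ N ∉ IntermediateField.adjoin F (g '' s) := by
  intro hmem
  rw [IntermediateField.mem_adjoin_iff_div] at hmem
  obtain ⟨p, hp, q, hq, hpq⟩ := hmem
  have htr := hg.transcendental_adjoin hi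
  have hq0 : q ≠ 0 := by
    rintro rfl
    rw [div_zero] at hpq
    exact hg.ne_zero i (pow_eq_zero_iff hN.ne' |>.1 hpq)
  apply htr
  refine ⟨C (⟨q, hq⟩ : Algebra.adjoin F (g '' s)) * X ^ N - C ⟨p, hp⟩, ?_, ?_⟩
  · intro h0
    have h1 := congrArg (fun P => coeff P N) h0
    simp only [coeff_sub, coeff_C_mul, coeff_X_pow_self, mul_one, coeff_zero, coeff_C,
      if_neg hN.ne', sub_zero] at h1
    exact hq0 (congrArg Subtype.val h1)
  · rw [map_sub, map_mul, map_pow, aeval_C, aeval_C, aeval_X, hpq]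
    change q * (p / q) - p = 0
    field_simp
    ring

private lemma mem_of_a (h : DiagData b t (F := F) a x) {E : IntermediateField F L}
    (hE : Set.range t ⊆ E) (i : Fin (n + 2)) : a i ∈ E :=
  (IntermediateField.adjoin_le_iff.2 hE) (h.a_mem i)

/-- Hint: algebraic independence of `t`, `x_1, …, x_n` (for `j ≤ n`, coefficients in `F(t)` are
nonzero). -/
lemma partS_ne (h : DiagData b t (F := F) a x) (j : Fin (n + 1)) :
    partS b.N a x j.castSucc ≠ 0 := by
  rcases Fin.eq_zero_or_eq_succ j with rfl | ⟨k, rfl⟩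
  · have h1 : partS b.N a x (Fin.castSucc 0) = 1 := partS_zero b h
    rw [h1]
    exact one_ne_zero
  · intro h0
    -- the coordinate `x_{k+1}`
    let g : Fin r ⊕ Fin n → L := Sum.elim t (fun i : Fin n => x i.castSucc.succ)
    let s : Set (Fin r ⊕ Fin n) := {Sum.inr k}ᶜ
    have hk : (Sum.inr k : Fin r ⊕ Fin n) ∉ s := by simp [s]
    refine pow_notMem h.ind hk b.N_pos ?_
    change x k.castSucc.succ ^ b.N ∈ IntermediateField.adjoin F (g '' s)
    have ht : Set.range t ⊆ IntermediateField.adjoin F (g '' s) := by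
      rintro _ ⟨i, rfl⟩
      exact IntermediateField.subset_adjoin F _ ⟨Sum.inl i, by simp [s], rfl⟩
    have ha : ∀ i, a i ∈ IntermediateField.adjoin F (g '' s) := mem_of_a b h ht
    have hx : ∀ i : Fin (n + 2), i ≤ k.castSucc.castSucc →
        x i ∈ IntermediateField.adjoin F (g '' s) := by
      intro i hi
      rcases Fin.eq_zero_or_eq_succ i with rfl | ⟨i', rfl⟩
      · rw [h.x_zero]; exact one_mem _
      · have hlt : i'.val < n := by
          have := k.isLt
          simp only [Fin.le_def, Fin.val_succ, Fin.val_castSucc] at hi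
          omega
        refine IntermediateField.subset_adjoin F _ ⟨Sum.inr ⟨i'.val, hlt⟩, ?_, ?_⟩
        · simp only [s, Set.mem_compl_iff, Set.mem_singleton_iff, Sum.inr.injEq, Fin.ext_iff]
          simp only [Fin.le_def, Fin.val_succ, Fin.val_castSucc] at hi
          omega
        · rfl
    have h1 : partS b.N a x (Fin.castSucc k.succ) = partS b.N a x k.castSucc.castSucc +
        a k.castSucc.succ * x k.castSucc.succ ^ b.N / a 0 := partS_succ b.N a x k.castSucc
    rw [h1] at h0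
    have hS : partS b.N a x k.castSucc.castSucc ∈ IntermediateField.adjoin F (g '' s) := by
      unfold partS
      refine sum_mem fun i hi => ?_
      rw [mem_filter] at hi
      exact div_mem (mul_mem (ha i) (pow_mem (hx i hi.2) _)) (ha 0)
    have h2 : x k.castSucc.succ ^ b.N =
        -partS b.N a x k.castSucc.castSucc * a 0 / a k.castSucc.succ := by
      have h3 := h.a_ne k.castSucc.succ
      have h4 := h.a_ne 0
      field_simp at h0 ⊢
      linear_combination h0
    rw [h2]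
    exact div_mem (mul_mem (neg_mem hS) (ha 0)) (ha _)

lemma one_sub_coordU (h : DiagData b t (F := F) a x) (j : Fin n) :
    1 - coordU b.N a x j =
      (a j.castSucc.succ * x j.castSucc.succ ^ b.N / a 0) / partS b.N a x j.castSucc.succ := by
  have h1 : partS b.N a x j.castSucc.succ ≠ 0 := partS_ne b h j.succ
  unfold coordU
  rw [eq_div_iff h1, sub_mul, one_mul, div_mul_cancel₀ _ h1]
  have h2 := partS_succ b.N a x j.castSucc
  rw [h2]
  ring

private lemma range_t_le : Set.range t ⊆ (fieldK b F t x : Set L) := by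
  intro z hz
  exact IntermediateField.subset_adjoin F _ (Or.inl hz)

lemma partS_mem (h : DiagData b t (F := F) a x) (j : Fin (n + 2)) :
    partS b.N a x j ∈ fieldK b F t x := by
  unfold partS
  refine sum_mem fun i _ => ?_
  have ha : ∀ i, a i ∈ fieldK b F t x := mem_of_a b h (range_t_le b)
  exact div_mem (mul_mem (ha i) (IntermediateField.subset_adjoin F _ (Or.inr ⟨i, rfl⟩))) (ha 0)

lemma coordU_mem (h : DiagData b t (F := F) a x) (j : Fin n) :
    coordU b.N a x j ∈ fieldK b F t x :=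
  div_mem (partS_mem b h _) (partS_mem b h _)

/-- Hint: `T_j = ∏_{i < j} U_i⁻¹` lies in the right-hand side, so does
`a_{j+1} x_{j+1} ^ N / a_0 = T_{j+1} - T_j`, and `a_i ∈ F(t)`. -/
lemma fieldK_le_coord (h : DiagData b t (F := F) a x) :
    fieldK b F t x ≤
      IntermediateField.adjoin F (Set.range t ∪ Set.range (coordU b.N a x)) := by
  set E := IntermediateField.adjoin F (Set.range t ∪ Set.range (coordU b.N a x)) with hE
  have ht : Set.range t ⊆ (E : Set L) := fun z hz => IntermediateField.subset_adjoin F _ (Or.inl hz)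
  have hU : ∀ j, coordU b.N a x j ∈ E := fun j =>
    IntermediateField.subset_adjoin F _ (Or.inr ⟨j, rfl⟩)
  have ha : ∀ i, a i ∈ E := mem_of_a b h ht
  have hT : ∀ j : Fin (n + 1), partS b.N a x j.castSucc ∈ E := by
    intro j
    induction j using Fin.induction with
    | zero =>
      have h1 : partS b.N a x (Fin.castSucc 0) = 1 := partS_zero b h
      rw [h1]
      exact one_mem _
    | succ j ih =>
      have h1 : partS b.N a x j.castSucc.succ ≠ 0 := partS_ne b h j.succ
      have h0 : partS b.N a x j.castSucc.castSucc ≠ 0 := partS_ne b h j.castSucc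
      have h2 : partS b.N a x (Fin.castSucc j.succ) =
          partS b.N a x j.castSucc.castSucc / coordU b.N a x j := by
        unfold coordU
        rw [div_div_cancel₀ h0]
        rfl
      rw [h2]
      exact div_mem ih (hU j)
  have hT' : ∀ j : Fin (n + 2), partS b.N a x j ∈ E := by
    intro j
    rcases Fin.eq_castSucc_or_eq_last j with ⟨k, rfl⟩ | rfl
    · exact hT k
    · rw [partS_last b h]; exact zero_mem _
  unfold fieldK
  rw [IntermediateField.adjoin_le_iff]
  rintro z (hz | ⟨i, rfl⟩)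
  · exact ht hz
  · rcases Fin.eq_zero_or_eq_succ i with rfl | ⟨k, rfl⟩
    · simp only [h.x_zero, one_pow]
      exact one_mem _
    · have h3 := h.a_ne k.succ
      have h4 := h.a_ne 0
      have h5 : x k.succ ^ b.N =
          (partS b.N a x k.succ - partS b.N a x k.castSucc) * a 0 / a k.succ := by
        rw [partS_succ]
        field_simp
        ring
      simp only
      rw [h5]
      exact div_mem (mul_mem (sub_mem (hT' _) (hT' _)) (ha 0)) (ha _)

open scoped IntermediateField.algebraAdjoinAdjoin in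
/-- Hint: `L` is algebraic over `F(t, U)` (which contains all `x_i ^ N`, `fieldK_le_coord`) and has
transcendence degree `r + n` over `F`; so the `r + n` elements `t`, `U` are algebraically
independent. -/
lemma algebraicIndependent_coord (h : DiagData b t (F := F) a x) :
    AlgebraicIndependent F (Sum.elim t (coordU b.N a x)) := by
  set S : Set L := Set.range (Sum.elim t (coordU b.N a x)) with hS
  set E := IntermediateField.adjoin F S with hE
  have hS' : S = Set.range t ∪ Set.range (coordU b.N a x) := Set.Sum.elim_range _ _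
  have hK : fieldK b F t x ≤ E := by
    rw [hE, hS']
    exact fieldK_le_coord b h
  have h1 : ∀ z : L, IsAlgebraic E z := by
    have h2 : (⊤ : IntermediateField F L) ≤ (algebraicClosure E L).restrictScalars F := by
      rw [← h.gen, IntermediateField.adjoin_le_iff]
      rintro z (hz | ⟨i, rfl⟩)
      · have hz' : z ∈ E := hK (range_t_le b hz)
        change z ∈ algebraicClosure E L
        rw [mem_algebraicClosure_iff]
        exact isAlgebraic_algebraMap (⟨z, hz'⟩ : E)
      · have hz' : x i ^ b.N ∈ E :=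
          hK (IntermediateField.subset_adjoin F _ (Or.inr ⟨i, rfl⟩))
        change x i ∈ algebraicClosure E L
        rw [mem_algebraicClosure_iff]
        exact IsAlgebraic.of_pow b.N_pos (isAlgebraic_algebraMap (⟨x i ^ b.N, hz'⟩ : E))
    intro z
    have h5 : z ∈ algebraicClosure E L := h2 (x := z) trivial
    rwa [mem_algebraicClosure_iff] at h5
  have h3 : Algebra.IsAlgebraic E L := ⟨h1⟩
  have h4 : Algebra.IsAlgebraic (Algebra.adjoin F S) L :=
    (IsFractionRing.comap_isAlgebraic_iff (K := E)).2 h3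
  exact (Algebra.IsAlgebraic.isTranscendenceBasis_of_lift_le_trdeg_of_finite F _
    h.ind.lift_cardinalMk_le_trdeg).1

lemma SigmaL.coordU {σ : L →+* L} (hσ : SigmaL b F t a x σ) (j : Fin n) :
    σ (UnrG.coordU b.N a x j) = UnrG.coordU b.N a x j := by
  have h1 : ∀ j, σ (partS b.N a x j) = partS b.N a x j := by
    intro j
    unfold partS
    rw [map_sum]
    refine sum_congr rfl fun i _ => ?_
    rw [map_div₀, map_mul, map_pow, hσ.fa, hσ.fx, hσ.fa]
  unfold UnrG.coordU
  rw [map_div₀, h1, h1]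

end UnrG
end

section

/-!
# Power series: lifting homomorphisms and roots of polynomials
-/

namespace UnrA.Fer

open UnrG

universe u v w z

open Polynomial Finset
open scoped Classical

/-- A homomorphism to the field of Laurent series with good values on generators is the lift of a
homomorphism to the ring of power series. -/
theorem exists_ps_lift {M L : Type u} [Field M] [Field L] {s : Set M}
    (hs : Subfield.closure s = ⊤) (h : M →+* LaurentSeries L) (γ : M →+* L)
    (hg : ∀ z ∈ s, ∃ g : PowerSeries L, HahnSeries.ofPowerSeries ℤ L g = h z ∧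
      PowerSeries.constantCoeff g = γ z) :
    ∃ f : M →+* PowerSeries L, (HahnSeries.ofPowerSeries ℤ L).comp f = h ∧
      (PowerSeries.constantCoeff (R := L)).comp f = γ := by
  have key : ∀ z : M, ∃ g : PowerSeries L, HahnSeries.ofPowerSeries ℤ L g = h z ∧
      PowerSeries.constantCoeff g = γ z := by
    intro z
    have hz : z ∈ Subfield.closure s := by rw [hs]; trivial
    induction hz using Subfield.closure_induction with
    | mem z hz => exact hg z hz
    | one => exact ⟨1, by rw [map_one, map_one], by rw [map_one, map_one]⟩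
    | add a b _ _ ha hb =>
      obtain ⟨g, h1, h2⟩ := ha
      obtain ⟨g', h3, h4⟩ := hb
      exact ⟨g + g', by rw [map_add, map_add, h1, h3], by rw [map_add, map_add, h2, h4]⟩
    | neg a _ ha =>
      obtain ⟨g, h1, h2⟩ := ha
      exact ⟨-g, by rw [map_neg, map_neg, h1], by rw [map_neg, map_neg, h2]⟩
    | inv a _ ha =>
      obtain ⟨g, h1, h2⟩ := ha
      by_cases h0 : a = 0
      · exact ⟨0, by rw [h0, inv_zero, map_zero, map_zero], by
          rw [h0, inv_zero, map_zero, map_zero]⟩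
      · have hc : PowerSeries.constantCoeff g ≠ 0 := by
          rw [h2]
          exact (map_ne_zero γ).mpr h0
        refine ⟨g⁻¹, ?_, ?_⟩
        · rw [map_inv₀]
          refine eq_inv_of_mul_eq_one_right ?_
          rw [← h1, ← map_mul, PowerSeries.mul_inv_cancel _ hc, map_one]
        · rw [PowerSeries.constantCoeff_inv, h2, map_inv₀]
    | mul a b _ _ ha hb =>
      obtain ⟨g, h1, h2⟩ := ha
      obtain ⟨g', h3, h4⟩ := hb
      exact ⟨g * g', by rw [map_mul, map_mul, h1, h3], by rw [map_mul, map_mul, h2, h4]⟩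
  choose f hf1 hf2 using key
  have hinj : Function.Injective (HahnSeries.ofPowerSeries ℤ L) :=
    HahnSeries.ofPowerSeries_injective
  refine ⟨⟨⟨⟨f, ?_⟩, ?_⟩, ?_, ?_⟩, ?_, ?_⟩
  · apply hinj
    rw [hf1, map_one, map_one]
  · intro a c
    apply hinj
    change HahnSeries.ofPowerSeries ℤ L (f (a * c)) = HahnSeries.ofPowerSeries ℤ L (f a * f c)
    rw [hf1, map_mul, map_mul, hf1, hf1]
  · apply hinj
    change HahnSeries.ofPowerSeries ℤ L (f 0) = _
    rw [hf1, map_zero, map_zero]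
  · intro a c
    apply hinj
    change HahnSeries.ofPowerSeries ℤ L (f (a + c)) = HahnSeries.ofPowerSeries ℤ L (f a + f c)
    rw [hf1, map_add, map_add, hf1, hf1]
  · ext1 z
    exact hf1 z
  · ext1 z
    exact hf2 z

/-- Polynomials over the ring of power series with split reduction. -/
theorem exists_roots_ps {K : Type u} [Field K] (f : (PowerSeries K)[X]) (S : Finset K)
    (hd : f.natDegree ≤ S.card)
    (hf : f.map (PowerSeries.constantCoeff (R := K)) = ∏ c ∈ S, (X - C c)) :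
    ∃ v : K → PowerSeries K, (∀ c ∈ S, PowerSeries.constantCoeff (v c) = c) ∧
      f.leadingCoeff ≠ 0 ∧ f = C f.leadingCoeff * ∏ c ∈ S, (X - C (v c)) := by
  have hmon : (∏ c ∈ S, (X - C c) : K[X]).Monic := monic_prod_X_sub_C _ _
  have hdeg : (∏ c ∈ S, (X - C c) : K[X]).natDegree = S.card :=
    natDegree_finsetProd_X_sub_C_eq_card S (fun c => c)
  have hc : PowerSeries.constantCoeff (f.coeff S.card) = 1 := by
    have h1 := congrArg (fun p : K[X] => p.coeff S.card) hf
    simp only [coeff_map] at h1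
    rw [h1]
    have h2 := hmon.coeff_natDegree
    rwa [hdeg] at h2
  have hne : f.coeff S.card ≠ 0 := by
    intro h0
    rw [h0, map_zero] at hc
    exact zero_ne_one hc
  have hnat : f.natDegree = S.card := le_antisymm hd (le_natDegree_of_ne_zero hne)
  have hlc : f.leadingCoeff = f.coeff S.card := by rw [leadingCoeff, hnat]
  have hlc0 : PowerSeries.constantCoeff f.leadingCoeff = 1 := by rw [hlc, hc]
  have hlc1 : f.leadingCoeff⁻¹ * f.leadingCoeff = 1 :=
    PowerSeries.inv_mul_cancel _ (by rw [hlc0]; exact one_ne_zero)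
  have hmon' : (C f.leadingCoeff⁻¹ * f).Monic := monic_C_mul_of_mul_leadingCoeff_eq_one hlc1
  have hmap : (C f.leadingCoeff⁻¹ * f).map (PowerSeries.constantCoeff (R := K)) =
      ∏ c ∈ S, (X - C c) := by
    rw [Polynomial.map_mul, map_C, PowerSeries.constantCoeff_inv, hlc0, inv_one, C_1, one_mul, hf]
  have hsep : (∏ c ∈ S, (X - C c) : K[X]).Separable := by
    rw [separable_prod_X_sub_C_iff']
    exact fun _ _ _ _ h => h
  have hH : HenselianRing (PowerSeries K) (Ideal.span {PowerSeries.X}) := inferInstance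
  have hev : ∀ (p : (PowerSeries K)[X]) (c : K),
      PowerSeries.constantCoeff (p.eval (PowerSeries.C c)) =
        (p.map (PowerSeries.constantCoeff (R := K))).eval c := by
    intro p c
    have h1 : (PowerSeries.constantCoeff (R := K)) (PowerSeries.C c) = c := by simp
    conv_rhs => rw [eval_map, ← h1]
    rw [eval₂_at_apply]
  have key : ∀ c : K, ∃ g : PowerSeries K, c ∈ S → f.IsRoot g ∧
      PowerSeries.constantCoeff g = c := by
    intro c
    by_cases hcS : c ∈ S
    · have hroot : (∏ c ∈ S, (X - C c) : K[X]).eval c = 0 := by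
        rw [eval_prod]
        exact Finset.prod_eq_zero hcS (by simp)
      obtain ⟨g, hg, hga⟩ := hH.is_henselian (C f.leadingCoeff⁻¹ * f) hmon' (PowerSeries.C c) (by
        rw [Ideal.mem_span_singleton, PowerSeries.X_dvd_iff]
        rw [hev, hmap, hroot]) (by
        apply IsUnit.map
        rw [PowerSeries.isUnit_iff_constantCoeff, hev, ← derivative_map, hmap, isUnit_iff_ne_zero]
        have h1 := hsep.aeval_derivative_ne_zero (x := c) (by
          rw [coe_aeval_eq_eval]
          exact hroot)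
        rwa [coe_aeval_eq_eval] at h1)
      refine ⟨g, fun _ => ⟨?_, ?_⟩⟩
      · rw [IsRoot.def, eval_mul, eval_C] at hg
        rcases mul_eq_zero.mp hg with h1 | h1
        · rw [h1, zero_mul] at hlc1
          exact absurd hlc1 zero_ne_one
        · exact h1
      · rw [Ideal.mem_span_singleton, PowerSeries.X_dvd_iff, map_sub] at hga
        simpa using sub_eq_zero.mp hga
    · exact ⟨0, fun h => absurd h hcS⟩
  choose v hv using key
  refine ⟨v, fun c hc => (hv c hc).2, ?_, ?_⟩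
  · rw [hlc]
    exact hne
  · have hinj : Set.InjOn v S := by
      intro c hc c' hc' h
      rw [← (hv c hc).2, ← (hv c' hc').2, h]
    have hf0 : f ≠ 0 := by
      rintro rfl
      simp at hne
    have hle : (S.image v).val = f.roots := by
      refine Multiset.eq_of_le_of_card_le ?_ ?_
      · rw [Multiset.le_iff_subset (S.image v).nodup]
        intro g hg
        obtain ⟨c, hc, rfl⟩ := Finset.mem_image.mp hg
        exact (mem_roots hf0).mpr (hv c hc).1
      · refine (card_roots' f).trans ?_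
        rw [Finset.card_val, Finset.card_image_of_injOn hinj]
        exact hd
    have h1 := C_leadingCoeff_mul_prod_multiset_X_sub_C (p := f) (by
      rw [← hle, Finset.card_val, Finset.card_image_of_injOn hinj, hnat])
    rw [← hle] at h1
    have h2 : (Multiset.map (fun a => X - C a) (S.image v).val).prod = ∏ c ∈ S, (X - C (v c)) := by
      change ∏ g ∈ S.image v, (X - C g) = _
      rw [Finset.prod_image hinj]
    rw [h2] at h1
    exact h1.symm

end UnrA.Fer
end

section

/-!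
# Families of homomorphisms indexed by the roots of a polynomial
-/

namespace UnrA.Fer

universe u v w z

open Polynomial Finset
open scoped Classical

variable {m : UFun.{u, z}}

/-- The degree of a splitting field divides the factorial of the degree of the polynomial. -/
theorem finrank_splitting_dvd {K S : Type u} [Field K] [Field S] [Algebra K S] (P : K[X])
    (hP : P.Separable) [P.IsSplittingField K S] {l : ℕ} (hl : P.natDegree ≤ l) :
    Module.finrank K S ∣ l.factorial := by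
  have hfd : FiniteDimensional K S := IsSplittingField.finiteDimensional S P
  have hG : IsGalois K S := IsGalois.of_separable_splitting_field hP
  have hspl : (P.map (algebraMap K S)).Splits := IsSplittingField.splits S P
  -- the automorphisms act faithfully on the roots
  have hmem : ∀ (σ : S ≃ₐ[K] S) (v : P.rootSet S), σ v ∈ P.rootSet S := by
    intro σ v
    have h1 := v.2
    rw [mem_rootSet] at h1 ⊢
    refine ⟨h1.1, ?_⟩
    have h2 := aeval_algHom_apply (σ : S →ₐ[K] S) (v : S) P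
    have h3 : aeval (σ (v : S)) P = σ (aeval (v : S) P) := h2
    rw [h3, h1.2, map_zero]
  have hinv : ∀ (σ τ : S ≃ₐ[K] S), (∀ v : P.rootSet S, σ v = τ v) → σ = τ := by
    intro σ τ h
    have h1 : (σ : S →ₐ[K] S) = τ := by
      refine AlgHom.ext_of_adjoin_eq_top (IsSplittingField.adjoin_rootSet S P) ?_
      intro v hv
      exact h ⟨v, hv⟩
    exact AlgEquiv.ext fun z => DFunLike.congr_fun h1 z
  let ρ : (S ≃ₐ[K] S) →* Equiv.Perm (P.rootSet S) :=
    { toFun := fun σ =>
        { toFun := fun v => ⟨σ v, hmem σ v⟩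
          invFun := fun v => ⟨σ⁻¹ v, hmem σ⁻¹ v⟩
          left_inv := fun v => Subtype.ext (σ.symm_apply_apply _)
          right_inv := fun v => Subtype.ext (σ.apply_symm_apply _) }
      map_one' := by ext v; rfl
      map_mul' := fun σ τ => by ext v; rfl }
  have hρ : Function.Injective ρ := by
    intro σ τ h
    refine hinv σ τ fun v => ?_
    have h1 := DFunLike.congr_fun h v
    exact congrArg Subtype.val h1
  have h1 : Nat.card (S ≃ₐ[K] S) ∣ Nat.card (Equiv.Perm (P.rootSet S)) :=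
    Subgroup.card_dvd_of_injective ρ hρ
  rw [IsGalois.card_aut_eq_finrank, Nat.card_perm] at h1
  refine h1.trans (Nat.factorial_dvd_factorial ?_)
  exact (ncard_rootSet_le P S).trans hl

/-- A family of homomorphisms to a splitting field permuted by the Galois group: the sum of the
images of an unramified class is constant up to the degree. -/
theorem family_trace {K S M : Type u} [Field K] [Field S] [Field M] [Algebra K S] (P : K[X])
    (hP : P.Separable) [P.IsSplittingField K S] {l : ℕ} (hl : P.natDegree ≤ l)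
    (ψ : S → (M →+* S))
    (hψ : ∀ (σ : S ≃ₐ[K] S) (v : S), aeval v P = 0 → (σ : S →+* S).comp (ψ v) = ψ (σ v))
    {ξ : KM m M} (hξ : Unr ξ) :
    ∃ (D : ℕ) (y : KM m K), D ∣ l.factorial ∧ Unr y ∧
      KM.map m (algebraMap K S) y =
        (D * D) • ∑ v ∈ (P.rootSet S).toFinset, KM.map m (ψ v) ξ := by
  have hfd : FiniteDimensional K S := IsSplittingField.finiteDimensional S P
  have hG : IsGalois K S := IsGalois.of_separable_splitting_field hP
  have hroot : ∀ v : S, v ∈ (P.rootSet S).toFinset ↔ aeval v P = 0 := by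
    intro v
    rw [Set.mem_toFinset, mem_rootSet]
    exact ⟨fun h => h.2, fun h => ⟨hP.ne_zero, h⟩⟩
  obtain ⟨Ξ, hΞ⟩ : ∃ Ξ : KM m S, Ξ = ∑ v ∈ (P.rootSet S).toFinset, KM.map m (ψ v) ξ := ⟨_, rfl⟩
  have hΞu : Unr Ξ := by
    rw [hΞ]
    exact Unr.sum fun v _ => hξ.map _
  have hinv : ∀ σ : S ≃ₐ[K] S, KM.map m (σ : S →+* S) Ξ = Ξ := by
    intro σ
    rw [hΞ, map_sum]
    have hev : ∀ v : S, aeval (σ v) P = σ (aeval v P) := fun v =>
      aeval_algHom_apply (σ : S →ₐ[K] S) v P
    refine Finset.sum_bij (fun v _ => σ v) ?_ ?_ ?_ ?_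
    · intro v hv
      rw [hroot] at hv ⊢
      rw [hev, hv, map_zero]
    · intro v _ v' _ h
      exact σ.injective h
    · intro v hv
      refine ⟨σ.symm v, ?_, σ.apply_symm_apply v⟩
      rw [hroot] at hv ⊢
      apply σ.injective
      rw [← hev, σ.apply_symm_apply, hv, map_zero]
    · intro v hv
      rw [KM.map_map, hψ σ v ((hroot v).mp hv)]
  obtain ⟨y₁, hy₁⟩ := exists_trace (K := K) (L := S) Ξ
  rw [Finset.sum_congr rfl fun σ _ => hinv σ, Finset.sum_const, Finset.card_univ,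
    ← Nat.card_eq_fintype_card, IsGalois.card_aut_eq_finrank] at hy₁
  have hu : Unr (KM.map m (algebraMap K S) y₁) := by
    rw [hy₁]
    exact hΞu.nsmul _
  refine ⟨Module.finrank K S, Module.finrank K S • y₁, finrank_splitting_dvd P hP hl,
    unr_smul_of_map hu, ?_⟩
  rw [map_nsmul, hy₁, ← mul_smul, hΞ]

end UnrA.Fer
end

section

/-!
# Monomials and traces
-/

namespace UnrG

universe u v w

open Polynomial Finset
open scoped Classical

variable {F Ω : Type u} [Field F] [Field Ω] [Algebra F Ω]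

private theorem G6b_root {K : Type u} [Field K] {p : ℕ} [Fact p.Prime] {k₁ k₂ : ℕ}
    (h₁ : 0 < k₁) (h₂ : 0 < k₂) {c : K} (hc : c ≠ 0) :
    ∃ Y : AlgebraicClosure K,
      (∑ i ∈ range k₂, Y ^ (p ^ k₁) ^ i) ^ (p ^ k₁ - 1) = algebraMap K (AlgebraicClosure K) c ∧
      IsIntegral K Y ∧ (minpoly K Y).natDegree ≤ p ^ (k₁ * k₂) := by
  have hp : 1 < p ^ k₁ := Nat.one_lt_pow h₁.ne' (Fact.out : p.Prime).one_lt
  have hp0 : 0 < p ^ k₁ := by omega
  obtain ⟨Z, hZ⟩ := IsAlgClosed.exists_pow_nat_eq (algebraMap K (AlgebraicClosure K) c)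
    (n := p ^ k₁ - 1) (by omega)
  obtain ⟨S, hS⟩ : ∃ S : (AlgebraicClosure K)[X], S = ∑ i ∈ range k₂, X ^ (p ^ k₁) ^ i := ⟨_, rfl⟩
  have hcoeff : (S - C Z).coeff 1 = 1 := by
    rw [hS, coeff_sub, finsetSum_coeff, coeff_C_of_ne_zero one_ne_zero, sub_zero,
      sum_eq_single_of_mem 0 (mem_range.mpr h₂)]
    · rw [pow_zero, pow_one, coeff_X_one]
    · intro i _ hi
      rw [coeff_X_pow, if_neg]
      exact (Nat.one_lt_pow hi hp).ne
  have hdeg : (S - C Z).degree ≠ 0 := by
    intro h0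
    have h3 := natDegree_eq_of_degree_eq_some h0
    have h4 : (S - C Z).coeff 1 = 0 := coeff_eq_zero_of_natDegree_lt (by rw [h3]; norm_num)
    rw [hcoeff] at h4
    exact one_ne_zero h4
  obtain ⟨Y, hY⟩ := IsAlgClosed.exists_root (S - C Z) hdeg
  have hY' : ∑ i ∈ range k₂, Y ^ (p ^ k₁) ^ i = Z := by
    rw [IsRoot.def, eval_sub, eval_C, sub_eq_zero, hS, eval_finsetSum] at hY
    rw [← hY]
    exact sum_congr rfl fun i _ => by rw [eval_pow, eval_X]
  obtain ⟨P, hP⟩ : ∃ P : K[X], P = (∑ i ∈ range k₂, X ^ (p ^ k₁) ^ i) ^ (p ^ k₁ - 1) - C c :=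
    ⟨_, rfl⟩
  have hP0 : P ≠ 0 := by
    intro h0
    have h3 : P.eval 0 = -c := by
      rw [hP, eval_sub, eval_C, eval_pow, eval_finsetSum]
      have h4 : ∑ i ∈ range k₂, (X ^ (p ^ k₁) ^ i : K[X]).eval 0 = 0 := by
        refine sum_eq_zero fun i _ => ?_
        rw [eval_pow, eval_X, zero_pow (pow_pos hp0 i).ne']
      rw [h4, zero_pow (by omega), zero_sub]
    rw [h0, eval_zero] at h3
    exact hc (neg_eq_zero.mp h3.symm)
  have hPY : aeval Y P = 0 := by
    rw [hP, map_sub, map_pow, aeval_C, map_sum]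
    have h4 : ∑ i ∈ range k₂, aeval Y (X ^ (p ^ k₁) ^ i : K[X]) = Z := by
      rw [← hY']
      exact sum_congr rfl fun i _ => by rw [map_pow, aeval_X]
    rw [h4, hZ, sub_self]
  have hint : IsIntegral K Y := (isAlgebraic_iff_isIntegral).mp ⟨P, hP0, hPY⟩
  refine ⟨Y, by rw [hY', hZ], hint, ?_⟩
  refine (natDegree_le_of_dvd (minpoly.dvd K Y hPY) hP0).trans ?_
  rw [hP, natDegree_sub_C]
  refine (natDegree_pow_le).trans ?_
  have h5 : (∑ i ∈ range k₂, X ^ (p ^ k₁) ^ i : K[X]).natDegree ≤ (p ^ k₁) ^ (k₂ - 1) := by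
    refine natDegree_sum_le_of_forall_le _ _ fun i hi => ?_
    rw [natDegree_X_pow]
    rw [mem_range] at hi
    exact Nat.pow_le_pow_right hp0 (by omega)
  calc (p ^ k₁ - 1) * (∑ i ∈ range k₂, X ^ (p ^ k₁) ^ i : K[X]).natDegree
      ≤ p ^ k₁ * (p ^ k₁) ^ (k₂ - 1) := Nat.mul_le_mul (Nat.sub_le _ _) h5
    _ = p ^ (k₁ * k₂) := by
      rw [← pow_succ', Nat.sub_add_cancel h₂, ← pow_mul]

/-- Adjunction of roots. Proof: in an algebraic closure of `K` take a root `Z₁` of
`X ^ (p ^ k₁ - 1) - c₁` and a root `Y₁` of the polynomial `∑ i < k₂, X ^ ((p ^ k₁) ^ i) - Z₁` (of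
positive degree since `k₂ > 0`), similarly `Z₂`, `Y₂`, and let `Ω = K(Y₁, Y₂)` inside the algebraic
closure (it contains `Z₁`, `Z₂`). `Y₁` is a root of
`(∑ i < k₂, X ^ ((p ^ k₁) ^ i)) ^ (p ^ k₁ - 1) - c₁`, of degree
`(p ^ k₁) ^ (k₂ - 1) * (p ^ k₁ - 1) ≤ p ^ (k₁ k₂)`, so the degree of `Ω` is at most
`(p ^ (k₁ k₂)) ^ 2` (`IntermediateField.adjoin` of two elements: tower, or
`IntermediateField.finrank_adjoin_simple...`, `minpoly` degree bounds `minpoly.natDegree_le`-type
lemmas; `Module.finrank_mul_finrank`). -/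
theorem exists_trace_roots {K : Type u} [Field K] {p : ℕ} [Fact p.Prime] [CharP K p] {k₁ k₂ : ℕ}
    (h₁ : 0 < k₁) (h₂ : 0 < k₂) {c₁ c₂ : K} (hc₁ : c₁ ≠ 0) (hc₂ : c₂ ≠ 0) :
    ∃ (Ω : Type u) (_ : Field Ω) (_ : Algebra K Ω) (Z₁ Z₂ Y₁ Y₂ : Ω),
      FiniteDimensional K Ω ∧ Module.finrank K Ω ≤ (p ^ (k₁ * k₂)) ^ 2 ∧
      IntermediateField.adjoin K {Y₁, Y₂} = ⊤ ∧
      Z₁ = ∑ i ∈ range k₂, Y₁ ^ (p ^ k₁) ^ i ∧ Z₂ = ∑ i ∈ range k₁, Y₂ ^ (p ^ k₂) ^ i ∧
      Z₁ ^ (p ^ k₁ - 1) = algebraMap K Ω c₁ ∧ Z₂ ^ (p ^ k₂ - 1) = algebraMap K Ω c₂ := by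
  obtain ⟨y₁, hy₁, hi₁, hd₁⟩ := G6b_root (p := p) h₁ h₂ hc₁
  obtain ⟨y₂, hy₂, hi₂, hd₂⟩ := G6b_root (p := p) h₂ h₁ hc₂
  obtain ⟨E, hE⟩ : ∃ E : IntermediateField K (AlgebraicClosure K),
      E = IntermediateField.adjoin K {y₁, y₂} := ⟨_, rfl⟩
  have hE' : E = IntermediateField.adjoin K {y₁} ⊔ IntermediateField.adjoin K {y₂} := by
    rw [hE, ← IntermediateField.adjoin_union]
    rfl
  have hm₁ : y₁ ∈ E := by
    rw [hE]
    exact IntermediateField.subset_adjoin K _ (Or.inl rfl)
  have hm₂ : y₂ ∈ E := by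
    rw [hE]
    exact IntermediateField.subset_adjoin K _ (Or.inr rfl)
  have hf₁ : FiniteDimensional K (IntermediateField.adjoin K {y₁}) :=
    IntermediateField.adjoin.finiteDimensional hi₁
  have hf₂ : FiniteDimensional K (IntermediateField.adjoin K {y₂}) :=
    IntermediateField.adjoin.finiteDimensional hi₂
  refine ⟨E, inferInstance, inferInstance, ∑ i ∈ range k₂, (⟨y₁, hm₁⟩ : E) ^ (p ^ k₁) ^ i,
    ∑ i ∈ range k₁, (⟨y₂, hm₂⟩ : E) ^ (p ^ k₂) ^ i, ⟨y₁, hm₁⟩, ⟨y₂, hm₂⟩, ?_, ?_, ?_, rfl, rfl,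
    ?_, ?_⟩
  · rw [hE']
    exact IntermediateField.finiteDimensional_sup _ _
  · rw [hE', sq]
    refine (IntermediateField.finrank_sup_le _ _).trans (Nat.mul_le_mul ?_ ?_)
    · rw [IntermediateField.adjoin.finrank hi₁]
      exact hd₁
    · rw [IntermediateField.adjoin.finrank hi₂, mul_comm k₁ k₂]
      exact hd₂
  · have h3 : (IntermediateField.adjoin K {(⟨y₁, hm₁⟩ : E), ⟨y₂, hm₂⟩}).map E.val =
        (⊤ : IntermediateField K E).map E.val := by
      rw [IntermediateField.adjoin_map, ← AlgHom.fieldRange_eq_map, IntermediateField.fieldRange_val,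
        Set.image_pair]
      exact hE.symm
    exact IntermediateField.map_injective E.val h3
  · apply E.val.injective
    rw [map_pow, map_sum]
    refine Eq.trans ?_ hy₁
    congr 1
  · apply E.val.injective
    rw [map_pow, map_sum]
    refine Eq.trans ?_ hy₂
    congr 1

end UnrG
end

section

/-!
# Purely transcendental extensions, the finite subfield
-/

namespace UnrG

universe u v w

open Polynomial Finset
open scoped Classical

/-- `T` is a purely transcendental extension of `F` of finite transcendence degree. -/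
def IsPurely {F Ω : Type u} [Field F] [Field Ω] [Algebra F Ω] (T : IntermediateField F Ω) : Prop :=
  ∃ (s : ℕ) (v : Fin s → Ω), AlgebraicIndependent F v ∧
    IntermediateField.adjoin F (Set.range v) = T

/-- The elements `c` of `F` with `c ^ Q = c`. -/
noncomputable def fixQ (F : Type u) [Field F] (Q : ℕ) : Finset F :=
  (X ^ Q - X : F[X]).roots.toFinset

/-- Data with two twisted pairs: the field `K = F(t, X, w)` with `∑ X_i = 0`, `X_5 = 1`,
`w ^ N = δ ∏ X_i ^ e_i`. -/
structure CycData (p N k₁ k₂ : ℕ) {F K : Type u} [Field F] [Field K] [Algebra F K] {r : ℕ}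
    (t : Fin r → K) (X : Fin 6 → K) (w δ : K) (e : Fin 6 → ℕ) : Prop where
  N_pos : 0 < N
  k₁_pos : 0 < k₁
  k₂_pos : 0 < k₂
  h01 : N ∣ p ^ k₁ * e 0 + e 1
  h23 : N ∣ p ^ k₂ * e 2 + e 3
  h4 : (e 4).Coprime N
  X_ne : ∀ i, X i ≠ 0
  X_last : X 5 = 1
  sum : ∑ i, X i = 0
  δ_mem : δ ∈ IntermediateField.adjoin F (Set.range t)
  δ_ne : δ ≠ 0
  eq : w ^ N = δ * ∏ i, X i ^ e i
  ind : AlgebraicIndependent F (Sum.elim t (fun i : Fin 4 => X (i.castLE (by norm_num))))
  gen : IntermediateField.adjoin F (Set.range t ∪ Set.range X ∪ {w}) = ⊤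

/-- The same in the extension field `Ω = K(Y₁, Y₂)`. -/
structure PairData (p N k₁ k₂ : ℕ) {F Ω : Type u} [Field F] [Field Ω] [Algebra F Ω] {r : ℕ}
    (t : Fin r → Ω) (X : Fin 6 → Ω) (w δ Z₁ Z₂ Y₁ Y₂ : Ω) (e : Fin 6 → ℕ) : Prop where
  N_pos : 0 < N
  k₁_pos : 0 < k₁
  k₂_pos : 0 < k₂
  h01 : N ∣ p ^ k₁ * e 0 + e 1
  h23 : N ∣ p ^ k₂ * e 2 + e 3
  h4 : (e 4).Coprime N
  X_ne : ∀ i, X i ≠ 0
  X_last : X 5 = 1
  sum : ∑ i, X i = 0
  δ_mem : δ ∈ IntermediateField.adjoin F (Set.range t)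
  δ_ne : δ ≠ 0
  eq : w ^ N = δ * ∏ i, X i ^ e i
  ind : AlgebraicIndependent F (Sum.elim t (fun i : Fin 4 => X (i.castLE (by norm_num))))
  gen : IntermediateField.adjoin F (Set.range t ∪ Set.range X ∪ {w, Y₁, Y₂}) = ⊤
  Z₁_eq : Z₁ = ∑ i ∈ range k₂, Y₁ ^ (p ^ k₁) ^ i
  Z₂_eq : Z₂ = ∑ i ∈ range k₁, Y₂ ^ (p ^ k₂) ^ i
  Z₁_pow : Z₁ ^ (p ^ k₁ - 1) = -X 0 / X 1
  Z₂_pow : Z₂ ^ (p ^ k₂ - 1) = -X 2 / X 3

end UnrG
end

section

/-!
# Purely transcendental extensions
-/

namespace UnrG

universe u v w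

open Polynomial Finset
open scoped Classical

variable {F Ω : Type u} [Field F] [Field Ω] [Algebra F Ω]

/-- Hint: choose a bijection of `κ` with `Fin (Nat.card κ)` (`Finite.equivFin`);
`AlgebraicIndependent.comp`, `Equiv.range_comp` or `Set.range_comp`. -/
lemma isPurely_adjoin {κ : Type*} [Finite κ] (v : κ → Ω) (hv : AlgebraicIndependent F v) :
    IsPurely (IntermediateField.adjoin F (Set.range v)) := by
  obtain ⟨s, ⟨e⟩⟩ := Finite.exists_equiv_fin κ
  refine ⟨s, v ∘ e.symm, hv.comp _ e.symm.injective, ?_⟩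
  rw [EquivLike.range_comp]

open scoped IntermediateField.algebraAdjoinAdjoin in
/-- A family with as many members as an independent one, over which `Ω` is algebraic, is
independent. Hint: as in the proof of `indep_of_pow` (file K/E1):
`Algebra.IsAlgebraic.isTranscendenceBasis_of_lift_le_trdeg_of_finite` with
`AlgebraicIndependent.lift_cardinalMk_le_trdeg` for `f`; pass from
`IntermediateField.adjoin F (Set.range g)` to `Algebra.adjoin F (Set.range g)`
(`IntermediateField.adjoin` is the fraction field of the latter, see the use in K/D7,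
`algebraicIndependent_coord`). -/
theorem indep_of_trdeg {κ : Type*} [Finite κ] {f g : κ → Ω} (hf : AlgebraicIndependent F f)
    (hg : ∀ z : Ω, IsAlgebraic (IntermediateField.adjoin F (Set.range g)) z) :
    AlgebraicIndependent F g := by
  have h3 : Algebra.IsAlgebraic (IntermediateField.adjoin F (Set.range g)) Ω := ⟨hg⟩
  have h4 : Algebra.IsAlgebraic (Algebra.adjoin F (Set.range g)) Ω :=
    (IsFractionRing.comap_isAlgebraic_iff (K := IntermediateField.adjoin F (Set.range g))).2 h3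
  exact (Algebra.IsAlgebraic.isTranscendenceBasis_of_lift_le_trdeg_of_finite F _
    hf.lift_cardinalMk_le_trdeg).1

end UnrG
end

section

/-!
# Lines in the plane over the finite subfield
-/

namespace UnrG

universe u v w

open Polynomial Finset
open scoped Classical

/-- The number of lines through a point: a pair `(a, b)` of elements of the finite set `S` (closed
under `-a / b`) lies on one of the `|S| + 1` lines `a + c b = 0` (`c ∈ S`), `b = 0` exactly once if it
is not `(0, 0)`, and on all of them if it is. -/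
lemma card_lines {F : Type*} [Field F] {S : Finset F} (h : ∀ a ∈ S, ∀ b ∈ S, -a / b ∈ S)
    {a b : F} (ha : a ∈ S) (hb : b ∈ S) :
    (S.filter (fun c => a + c * b = 0)).card + (if b = 0 then 1 else 0) =
      (if a = 0 ∧ b = 0 then S.card else 0) + 1 := by
  by_cases hb0 : b = 0
  · subst hb0
    by_cases ha0 : a = 0
    · subst ha0
      simp
    · simp [ha0]
  · have h1 : S.filter (fun c => a + c * b = 0) = {-a / b} := by
      ext c
      rw [mem_filter, mem_singleton]
      constructor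
      · rintro ⟨_, hc⟩
        rw [eq_div_iff hb0]
        linear_combination hc
      · rintro rfl
        refine ⟨h a ha b hb, ?_⟩
        rw [div_mul_cancel₀ _ hb0, add_neg_cancel]
    rw [h1, card_singleton, if_neg hb0, if_neg (fun h2 => hb0 h2.2)]

/-- Exchange the order of summation and use `card_lines`. -/
theorem lines_sum {F : Type*} [Field F] {S : Finset F} (h : ∀ a ∈ S, ∀ b ∈ S, -a / b ∈ S)
    {G A : Type*} [Fintype G] [AddCommGroup A] {b₁ b₂ : G → F} (h1 : ∀ g, b₁ g ∈ S)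
    (h2 : ∀ g, b₂ g ∈ S) {e : G} (he : ∀ g, b₁ g = 0 ∧ b₂ g = 0 ↔ g = e) (φ : G → A) :
    ∑ c ∈ S, ∑ g ∈ univ.filter (fun g => b₁ g + c * b₂ g = 0), φ g +
      ∑ g ∈ univ.filter (fun g => b₂ g = 0), φ g = S.card • φ e + ∑ g, φ g := by
  have h3 : ∑ c ∈ S, ∑ g ∈ univ.filter (fun g => b₁ g + c * b₂ g = 0), φ g =
      ∑ g, (S.filter (fun c => b₁ g + c * b₂ g = 0)).card • φ g := by
    simp_rw [sum_filter]
    rw [sum_comm]
    refine sum_congr rfl fun g _ => ?_
    rw [← sum_filter, sum_const]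
  have h4 : ∑ g ∈ univ.filter (fun g => b₂ g = 0), φ g =
      ∑ g, (if b₂ g = 0 then 1 else 0) • φ g := by
    rw [sum_filter]
    refine sum_congr rfl fun g _ => ?_
    split_ifs <;> simp
  have h5 : S.card • φ e = ∑ g, (if b₁ g = 0 ∧ b₂ g = 0 then S.card else 0) • φ g := by
    rw [sum_eq_single e]
    · rw [if_pos ((he e).2 rfl)]
    · intro g _ hg
      rw [if_neg (fun h6 => hg ((he g).1 h6)), zero_smul]
    · intro h6
      exact absurd (mem_univ e) h6
  rw [h3, h4, h5, ← sum_add_distrib, ← sum_add_distrib]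
  refine sum_congr rfl fun g _ => ?_
  rw [← add_smul, card_lines h (h1 g) (h2 g), add_smul, one_smul]

end UnrG
end

section

/-!
# The finite subfield with `p ^ k` elements, purely transcendental extensions
-/

namespace UnrG

universe u v w

open Polynomial Finset
open scoped Classical

variable {F Ω : Type u} [Field F] [Field Ω] [Algebra F Ω]

/-- Hint: `X ^ Q - X` is not zero (`FiniteField.X_pow_card_sub_X_ne_zero` or degree), `mem_roots`. -/
lemma mem_fixQ {Q : ℕ} (hQ : 1 < Q) {c : F} : c ∈ fixQ F Q ↔ c ^ Q = c := by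
  have h0 : (X ^ Q - X : F[X]) ≠ 0 := FiniteField.X_pow_card_sub_X_ne_zero F hQ
  unfold fixQ
  rw [Multiset.mem_toFinset, mem_roots h0, IsRoot.def, eval_sub, eval_pow, eval_X, sub_eq_zero]

/-- Hint: `X ^ Q - X` splits (`FixSp`) and is separable (its derivative is `-1`),
so it has `Q` distinct roots (`Polynomial.card_rootSet_eq_natDegree` or
`IsAlgClosed.splits` with `Polynomial.nodup_roots`, `FiniteField.X_pow_card_pow_sub_X_natDegree_eq`,
`galois_poly_separable`). -/
lemma card_fixQ {p : ℕ} [Fact p.Prime] [CharP F p] {k : ℕ} [FixSp F p k] (hk : 0 < k) :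
    (fixQ F (p ^ k)).card = p ^ k := by
  have hs : (X ^ p ^ k - X : F[X]).Separable :=
    galois_poly_separable p (p ^ k) (dvd_pow_self p hk.ne')
  have hsp : (X ^ p ^ k - X : F[X]).Splits := FixSp.splits Fact.out hk inferInstance
  unfold fixQ
  rw [Multiset.toFinset_card_of_nodup (nodup_roots hs), splits_iff_card_roots.1 hsp]
  exact FiniteField.X_pow_card_pow_sub_X_natDegree_eq F hk.ne' (Fact.out : p.Prime).one_lt

/-- Hint: `(-a / b) ^ Q = -a / b` in characteristic `p`; `(-1) ^ (p ^ k) = -1` (`neg_pow_char_pow`,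
or `sub_pow_char_pow` for `0 - a`). -/
lemma neg_div_mem_fixQ {p : ℕ} [Fact p.Prime] [CharP F p] {k : ℕ} (hk : 0 < k) {a b : F}
    (ha : a ∈ fixQ F (p ^ k)) (hb : b ∈ fixQ F (p ^ k)) : -a / b ∈ fixQ F (p ^ k) := by
  have hQ : 1 < p ^ k := Nat.one_lt_pow hk.ne' (Fact.out : p.Prime).one_lt
  rw [mem_fixQ hQ] at ha hb ⊢
  have h1 : (-a) ^ p ^ k = -a := by
    have h2 := sub_pow_char_pow (p := p) (n := k) (0 : F) a
    rw [zero_pow (by omega), zero_sub, zero_sub, ha] at h2
    exact h2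
  rw [div_pow, h1, hb]

end UnrG
end

section

/-!
# Artin–Schreier extensions
-/

namespace UnrG

universe u v w

open Polynomial Finset
open scoped Classical

variable {F Ω : Type u} [Field F] [Field Ω] [Algebra F Ω]

/-- Hint: `(g Y - Y) ^ Q = g Y - Y` (characteristic `p`, `g` fixes `Y ^ Q - Y`), and the roots of
`X ^ Q - X` in `Ω` are the images of those in `F` (`card_fixQ` and the degree, or
`Polynomial.Splits`/`IsAlgClosed` for the intermediate field of algebraic elements). -/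
theorem as_translate {p : ℕ} [Fact p.Prime] [CharP F p] {k : ℕ} [FixSp F p k] (hk : 0 < k)
    {Y : Ω} {g : Ω →+* Ω} (hg : g (Y ^ p ^ k - Y) = Y ^ p ^ k - Y) :
    ∃ c ∈ fixQ F (p ^ k), g Y = Y + algebraMap F Ω c := by
  have hΩ : CharP Ω p := charP_of_injective_algebraMap (algebraMap F Ω).injective p
  have hQ : 1 < p ^ k := Nat.one_lt_pow hk.ne' (Fact.out : p.Prime).one_lt
  obtain ⟨D, hD⟩ : ∃ D : Ω, D = g Y - Y := ⟨_, rfl⟩
  have h1 : D ^ p ^ k = D := by
    rw [hD, sub_pow_char_pow, ← map_pow]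
    rw [map_sub] at hg
    linear_combination hg
  have h2 : (X ^ p ^ k - X : F[X]) ≠ 0 := by
    intro h3
    have h4 := congrArg (fun q : F[X] => q.coeff (p ^ k)) h3
    simp only [coeff_sub, coeff_X_pow, if_true, coeff_X_of_ne_one hQ.ne', coeff_zero, sub_zero]
      at h4
    exact one_ne_zero h4
  have h3 : ((X ^ p ^ k - X : F[X]).map (algebraMap F Ω)).IsRoot D := by
    rw [IsRoot.def, Polynomial.map_sub, Polynomial.map_pow, map_X, eval_sub, eval_pow, eval_X, h1,
      sub_self]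
  obtain ⟨c, hc⟩ := (FixSp.splits Fact.out hk inferInstance :
    (X ^ p ^ k - X : F[X]).Splits).mem_range_of_isRoot h2 h3
  refine ⟨c, ?_, ?_⟩
  · rw [mem_fixQ hQ]
    apply (algebraMap F Ω).injective
    rw [map_pow, hc, h1]
  · rw [hc, hD]
    ring

end UnrG
end

section

/-!
# Artin–Schreier extensions
-/

namespace UnrG

universe u v w

open Polynomial Finset
open scoped Classical

variable {F Ω : Type u} [Field F] [Field Ω] [Algebra F Ω]

private theorem G3b_poly {p : ℕ} [Fact p.Prime] [CharP F p] {k : ℕ} [FixSp F p k] (hk : 0 < k)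
    (T : IntermediateField F Ω) {Y : Ω} (h : Y ^ p ^ k - Y ∈ T) :
    ∃ P : T[X], P.Monic ∧ P.natDegree ≤ p ^ k ∧ aeval Y P = 0 ∧ P.Separable ∧
      (P.map (algebraMap T Ω)).Splits := by
  have hΩ : CharP Ω p := charP_of_injective_algebraMap (algebraMap F Ω).injective p
  have hT : CharP T p := charP_of_injective_algebraMap (algebraMap F T).injective p
  have hQ : 1 < p ^ k := Nat.one_lt_pow hk.ne' (Fact.out : p.Prime).one_lt
  obtain ⟨y, hy⟩ : ∃ y : T, algebraMap T Ω y = Y ^ p ^ k - Y := ⟨⟨_, h⟩, rfl⟩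
  have hdeg : (X + C y : T[X]).degree < ((p ^ k : ℕ) : WithBot ℕ) := by
    rw [degree_X_add_C]
    exact_mod_cast hQ
  have hmap : (X ^ p ^ k - (X + C y) : T[X]).map (algebraMap T Ω) =
      (X ^ p ^ k - X : Polynomial Ω).comp (X - C Y) := by
    rw [Polynomial.map_sub, Polynomial.map_pow, Polynomial.map_add, map_X, map_C, hy, sub_comp,
      pow_comp, X_comp, sub_pow_char_pow, ← C_pow, C_sub]
    ring
  refine ⟨X ^ p ^ k - (X + C y), monic_X_pow_sub hdeg, ?_, ?_, ?_, ?_⟩
  · refine (natDegree_sub_le _ _).trans ?_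
    rw [natDegree_X_pow, natDegree_X_add_C]
    exact max_le le_rfl hQ.le
  · rw [map_sub, map_add, map_pow, aeval_X, aeval_C, hy]
    ring
  · have h1 : derivative (X ^ p ^ k - (X + C y) : T[X]) = -1 := by
      rw [derivative_sub, derivative_X_pow, derivative_add, derivative_X, derivative_C,
        CharP.cast_eq_zero_iff T p (p ^ k) |>.mpr (dvd_pow_self p hk.ne')]
      simp
    rw [Separable, h1]
    exact isCoprime_one_right.neg_right
  · rw [hmap]
    have h1 : (X ^ p ^ k - X : Polynomial Ω).Splits := by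
      have h2 := (FixSp.splits Fact.out hk inferInstance :
        (X ^ p ^ k - X : F[X]).Splits).map (algebraMap F Ω)
      rwa [Polynomial.map_sub, Polynomial.map_pow, map_X] at h2
    exact h1.comp_X_sub_C Y

/-- Artin–Schreier extensions. Proof: `Y₁`, `Y₂` are roots of the polynomials
`X ^ Q - X - (Y ^ Q - Y)` over `T`, which are separable (derivative `-1`) and split in `Ω` (the roots
are `Y + c`, `c ∈ fixQ F Q`: there are `Q` of them, `card_fixQ`); so `Ω` is the splitting field of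
their product, finite and Galois (`IsGalois.of_separable_splitting_field` needs a separable
polynomial: use instead `Normal.of_isSplittingField` and separability of the adjoined elements, as
in K/D3 `D3_split`, `galois_fieldT`; or one step at a time). The degree is at most `Q ^ 2`: the
automorphism group embeds into the pairs `(g Y₁ - Y₁, g Y₂ - Y₂) ∈ fixQ × fixQ`
(`IsGalois.card_aut_eq_finrank`). -/
theorem as_galois {p : ℕ} [Fact p.Prime] [CharP F p] {k : ℕ} [FixSp F p k] (hk : 0 < k)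
    (T : IntermediateField F Ω) {Y₁ Y₂ : Ω} (h1 : Y₁ ^ p ^ k - Y₁ ∈ T) (h2 : Y₂ ^ p ^ k - Y₂ ∈ T)
    (gen : IntermediateField.adjoin T {Y₁, Y₂} = ⊤) :
    FiniteDimensional T Ω ∧ IsGalois T Ω ∧ Module.finrank T Ω ≤ (p ^ k) ^ 2 := by
  obtain ⟨P₁, hm₁, hd₁, hr₁, hs₁, hsp₁⟩ := G3b_poly hk T h1
  obtain ⟨P₂, hm₂, hd₂, hr₂, hs₂, hsp₂⟩ := G3b_poly hk T h2
  have hi₁ : IsIntegral T Y₁ := ⟨P₁, hm₁, hr₁⟩
  have hi₂ : IsIntegral T Y₂ := ⟨P₂, hm₂, hr₂⟩
  have hint : ∀ z ∈ ({Y₁, Y₂} : Set Ω), IsIntegral T z := by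
    rintro z (rfl | hz)
    · exact hi₁
    · rw [Set.mem_singleton_iff] at hz
      rw [hz]
      exact hi₂
  have hsplit : (P₁ * P₂).IsSplittingField T Ω := by
    refine ⟨?_, ?_⟩
    · rw [Polynomial.map_mul]
      exact hsp₁.mul hsp₂
    · rw [← top_le_iff]
      have h3 := congrArg IntermediateField.toSubalgebra gen
      rw [IntermediateField.adjoin_toSubalgebra_of_isAlgebraic
        (fun z hz => (hint z hz).isAlgebraic), IntermediateField.top_toSubalgebra] at h3
      rw [← h3]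
      apply Algebra.adjoin_mono
      have h0 : P₁ * P₂ ≠ 0 := mul_ne_zero hm₁.ne_zero hm₂.ne_zero
      rintro z (rfl | hz)
      · rw [mem_rootSet]
        exact ⟨h0, by rw [map_mul, hr₁, zero_mul]⟩
      · rw [Set.mem_singleton_iff] at hz
        rw [hz, mem_rootSet]
        exact ⟨h0, by rw [map_mul, hr₂, mul_zero]⟩
  have hfd : FiniteDimensional T Ω := hsplit.finiteDimensional (K := T) (L := Ω) _
  have hno : Normal T Ω := Normal.of_isSplittingField (P₁ * P₂)
  have hsep : Algebra.IsSeparable T Ω := by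
    have h3 : Algebra.IsSeparable T (IntermediateField.adjoin T {Y₁, Y₂}) :=
      (IntermediateField.isSeparable_adjoin_iff_isSeparable T Ω).mpr (by
        rintro z (rfl | hz)
        · exact hs₁.of_dvd (minpoly.dvd _ _ hr₁)
        · rw [Set.mem_singleton_iff] at hz
          rw [hz]
          exact hs₂.of_dvd (minpoly.dvd _ _ hr₂))
    rw [gen] at h3
    exact Algebra.IsSeparable.of_algHom T (⊤ : IntermediateField T Ω)
      (IntermediateField.topEquiv (F := T) (E := Ω)).symm.toAlgHom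
  refine ⟨hfd, ⟨⟩, ?_⟩
  have h4 : (⊤ : IntermediateField T Ω) =
      IntermediateField.adjoin T {Y₁} ⊔ IntermediateField.adjoin T {Y₂} := by
    rw [← gen, ← IntermediateField.adjoin_union]
    rfl
  rw [← IntermediateField.finrank_top', h4, sq]
  refine (IntermediateField.finrank_sup_le _ _).trans (Nat.mul_le_mul ?_ ?_)
  · rw [IntermediateField.adjoin.finrank hi₁]
    exact (natDegree_le_of_dvd (minpoly.dvd T Y₁ hr₁) hm₁.ne_zero).trans hd₁
  · rw [IntermediateField.adjoin.finrank hi₂]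
    exact (natDegree_le_of_dvd (minpoly.dvd T Y₂ hr₂) hm₂.ne_zero).trans hd₂

end UnrG
end
end

section

section

/-!
# The monomial in the affine coordinates
-/

namespace UnrG

universe u v w

open Polynomial Finset
open scoped Classical

variable {m : ℕ} {𝔽 : Type w} [Field 𝔽] [Fintype 𝔽] (b : Base 𝔽)

variable {F L : Type u} [Field F] [Field L] [Algebra F L] {ι : 𝔽 →+* F} {r n : ℕ}
  {t : Fin r → L} {a x : Fin (n + 2) → L}

/-- The exponents of the monomial in the coordinates `x_j ^ N = U_j`. -/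
def expB {N n : ℕ} (α : Fin (n + 2) → ZMod N) (j : Fin n) : ℕ :=
  (∑ i ∈ univ.filter (fun i => i ≤ j.castSucc.castSucc), α i).val

/-- The exponents of the monomial in the coordinates `y_j ^ N = 1 - U_j`. -/
def expA {N n : ℕ} (α : Fin (n + 2) → ZMod N) (j : Fin n) : ℕ := (α j.castSucc.succ).val

private lemma not_dvd_val {N : ℕ} [NeZero N] {z : ZMod N} (hz : z ≠ 0) : ¬ N ∣ z.val := by
  intro h
  have h1 : ((z.val : ℕ) : ZMod N) = 0 := (ZMod.natCast_eq_zero_iff _ _).2 h
  rw [ZMod.natCast_zmod_val] at h1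
  exact hz h1

/-- the truncated sums of the exponents -/
private def pS {N n : ℕ} (α : Fin (n + 2) → ZMod N) (k : Fin (n + 1)) : ZMod N :=
  ∑ i ∈ univ.filter (fun i => i ≤ k.castSucc), α i

private lemma filter_succ {n : ℕ} (j : Fin (n + 1)) :
    (univ.filter (fun i : Fin (n + 2) => i ≤ j.succ)) =
      insert j.succ (univ.filter (fun i : Fin (n + 2) => i ≤ j.castSucc)) := by
  ext i
  simp only [mem_filter, mem_univ, true_and, mem_insert, Fin.le_def, Fin.ext_iff, Fin.val_succ,
    Fin.val_castSucc]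
  omega

private lemma sum_succ {N n : ℕ} (α : Fin (n + 2) → ZMod N) (j : Fin (n + 1)) :
    ∑ i ∈ univ.filter (fun i : Fin (n + 2) => i ≤ j.succ), α i = pS α j + α j.succ := by
  rw [filter_succ, sum_insert, add_comm]
  · rfl
  · simp only [mem_filter, mem_univ, true_and, Fin.le_def, Fin.val_succ, Fin.val_castSucc]
    omega

private lemma pS_succ {N n : ℕ} (α : Fin (n + 2) → ZMod N) (j : Fin n) :
    pS α j.succ = pS α j.castSucc + α j.castSucc.succ :=
  sum_succ α j.castSucc

private lemma pS_last {N n : ℕ} {α : Fin (n + 2) → ZMod N} (hα : ∑ i, α i = 0) :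
    pS α (Fin.last n) + α (Fin.last (n + 1)) = 0 := by
  have h1 := sum_succ α (Fin.last n)
  have h2 : (univ.filter (fun i : Fin (n + 2) => i ≤ (Fin.last n).succ)) = univ := by
    ext i
    simp [Fin.le_last]
  rw [h2, hα] at h1
  exact h1.symm

/-- Hint: the sets `{i ≤ j}`, `{j + 1}`, `{i ≤ j + 1}` are nonempty and proper. -/
lemma MinZero.exp {α : Fin (n + 2) → ZMod b.N} (hα : MinZero α) (j : Fin n) :
    ¬ b.N ∣ expB α j ∧ ¬ b.N ∣ expA α j ∧ ¬ b.N ∣ expB α j + expA α j := by
  have key : ∀ k : Fin (n + 1), pS α k ≠ 0 := by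
    intro k
    refine hα.2 _ ⟨0, by simp⟩ ?_
    intro h1
    have h2 : Fin.last (n + 1) ∈ (univ : Finset (Fin (n + 2))) := mem_univ _
    rw [← h1, mem_filter] at h2
    have h3 := h2.2
    simp only [Fin.le_def, Fin.val_last, Fin.val_castSucc] at h3
    have := k.isLt
    omega
  have hB : (expB α j : ZMod b.N) = pS α j.castSucc := by
    unfold expB
    rw [ZMod.natCast_zmod_val]
    rfl
  have hA : (expA α j : ZMod b.N) = α j.castSucc.succ := by
    unfold expA
    rw [ZMod.natCast_zmod_val]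
  refine ⟨?_, ?_, ?_⟩
  · rw [← ZMod.natCast_eq_zero_iff, hB]
    exact key _
  · rw [← ZMod.natCast_eq_zero_iff, hA]
    have h1 := hα.2 {j.castSucc.succ} (singleton_nonempty _) (by
      intro h2
      have h3 : (0 : Fin (n + 2)) ∈ ({j.castSucc.succ} : Finset (Fin (n + 2))) := by
        rw [h2]; exact mem_univ _
      rw [mem_singleton] at h3
      exact (Fin.succ_ne_zero _ h3.symm))
    rwa [sum_singleton] at h1
  · rw [← ZMod.natCast_eq_zero_iff, Nat.cast_add, hB, hA, ← pS_succ]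
    exact key _

private lemma exists_quot {N : ℕ} [NeZero N] {p q s : ZMod N} (h : p + q = s) :
    ∃ e : ℕ, p.val + q.val = s.val + N * e := by
  have h1 : ((p.val + q.val : ℕ) : ZMod N) = s := by
    rw [Nat.cast_add, ZMod.natCast_zmod_val, ZMod.natCast_zmod_val, h]
  have h2 : (p.val + q.val) % N = s.val := by
    rw [← h1, ZMod.val_natCast]
  exact ⟨(p.val + q.val) / N, by rw [← h2]; exact (Nat.mod_add_div _ _).symm⟩

private lemma sigma_partS {σ : L →+* L} (hσ : SigmaL b F t a x σ) (j : Fin (n + 2)) :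
    σ (partS b.N a x j) = partS b.N a x j := by
  unfold partS
  rw [map_sum]
  refine sum_congr rfl fun i _ => ?_
  rw [map_div₀, map_mul, map_pow, hσ.fa, hσ.fx, hσ.fa]

/-- The monomial identity. Proof: with `s_i = a_i x_i ^ N / a_0`, `T_j = partS`, and
`1 - U_j = s_{j+1} / T_{j+1}`, `s_{n+1} = -T_n` (`partS_last`, `partS_succ`):
`∏ i, s_i ^ (α i).val = (-1) ^ (α (last)).val * T_n ^ (α last).val * ∏ j, ((1 - U_j) T_{j+1}) ^ (α (j+1)).val`
and `∏ j U_j ^ expB = ∏ T_j ^ expB_j T_{j+1} ^ (-expB_j)`; the total exponent of each `T_j`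
in the quotient of the two sides is divisible by `N` because
`expB_{j+1} - expB_j ≡ α_{j+1}` and `-expB_{n-1} ≡ α_n + α_{n+1}` mod `N` (`∑ α = 0`). Further
`∏ s_i ^ (α i).val = (∏ a_i ^ (α i).val) * (wmon x α) ^ N / a_0 ^ (∑ (α i).val)` and the exponent
`∑ (α i).val` is divisible by `N`. So the quotient is the `N`-th power of a product `c` of
integral powers of the `T_j`, `a_0` and `β`. -/
theorem mono_identity (h : DiagData b t (F := F) a x) {α : Fin (n + 2) → ZMod b.N}
    (hα : ∑ i, α i = 0) {β : L} (hβ : β ∈ IntermediateField.adjoin F (Set.range t))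
    (hβN : ∏ i, a i ^ (α i).val = β ^ b.N) {σ : L →+* L} (hσ : SigmaL b F t a x σ)
    (hσβ : σ β = β) :
    ∃ c : L, c ∈ fieldK b F t x ∧ c ≠ 0 ∧ σ c = c ∧
      ∏ j, (coordU b.N a x j ^ expB α j * (1 - coordU b.N a x j) ^ expA α j) =
        (-1) ^ (α (Fin.last (n + 1))).val * (c * wmon x α) ^ b.N := by
  set T : Fin (n + 1) → L := fun k => partS b.N a x k.castSucc with hT
  have hT0 : ∀ k, T k ≠ 0 := fun k => partS_ne b h k
  set s : Fin (n + 2) → L := fun i => a i * x i ^ b.N / a 0 with hs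
  have ha0 := h.a_ne 0
  -- quotients
  have hq : ∀ j : Fin n, ∃ e : ℕ, (pS α j.castSucc).val + (α j.castSucc.succ).val =
      (pS α j.succ).val + b.N * e := fun j => exists_quot (pS_succ α j).symm
  choose e he using hq
  obtain ⟨e', he'⟩ := exists_quot (pS_last hα)
  rw [ZMod.val_zero, zero_add] at he'
  obtain ⟨M, hM⟩ : ∃ M : ℕ, ∑ i, (α i).val = b.N * M := by
    have h1 : ((∑ i, (α i).val : ℕ) : ZMod b.N) = 0 := by
      rw [Nat.cast_sum, ← hα]
      exact sum_congr rfl fun i _ => ZMod.natCast_zmod_val _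
    exact (ZMod.natCast_eq_zero_iff _ _).1 h1
  -- the last summand
  have hlast : s (Fin.last (n + 1)) = -T (Fin.last n) := by
    have h1 := partS_succ b.N a x (Fin.last n)
    have h2 : partS b.N a x (Fin.last n).succ = 0 := partS_last b h
    rw [h2] at h1
    have h3 : T (Fin.last n) + s (Fin.last (n + 1)) = 0 := h1.symm
    linear_combination h3
  have hs0 : s 0 = 1 := by
    simp only [hs]
    rw [h.x_zero, one_pow, mul_one, div_self ha0]
  -- the product of the powers of the summands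
  have hprod : ∏ i, s i ^ (α i).val = (β * wmon x α / a 0 ^ M) ^ b.N := by
    simp only [hs]
    have h1 : ∀ i, (a i * x i ^ b.N / a 0) ^ (α i).val =
        a i ^ (α i).val * (x i ^ (α i).val) ^ b.N / a 0 ^ (α i).val := by
      intro i
      rw [div_pow, mul_pow, ← pow_mul, ← pow_mul, mul_comm b.N]
    rw [prod_congr rfl fun i _ => h1 i, prod_div_distrib, prod_mul_distrib, hβN, prod_pow,
      prod_pow_eq_pow_sum, hM, div_pow, mul_pow, ← pow_mul, mul_comm M]
    rfl
  have hprod2 : ∏ i, s i ^ (α i).val =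
      (∏ j : Fin n, s j.castSucc.succ ^ (α j.castSucc.succ).val) *
        (-T (Fin.last n)) ^ (α (Fin.last (n + 1))).val := by
    rw [Fin.prod_univ_succ, hs0, one_pow, one_mul, Fin.prod_univ_castSucc, ← hlast]
    rfl
  -- the factors
  have hU : ∀ j : Fin n, coordU b.N a x j = T j.castSucc / T j.succ := fun j => rfl
  have hV : ∀ j : Fin n, 1 - coordU b.N a x j = s j.castSucc.succ / T j.succ := fun j =>
    one_sub_coordU b h j
  have hfac : ∀ j : Fin n, coordU b.N a x j ^ expB α j * (1 - coordU b.N a x j) ^ expA α j =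
      s j.castSucc.succ ^ (α j.castSucc.succ).val *
        (T j.castSucc ^ (pS α j.castSucc).val / T j.succ ^ (pS α j.succ).val) *
          ((T j.succ ^ e j)⁻¹) ^ b.N := by
    intro j
    have h1 : expB α j = (pS α j.castSucc).val := rfl
    have h2 : expA α j = (α j.castSucc.succ).val := rfl
    rw [hU, div_pow]
    rw [← hU, hV, div_pow, h1, h2]
    have h3 : T j.succ ^ (pS α j.castSucc).val * T j.succ ^ (α j.castSucc.succ).val =
        T j.succ ^ (pS α j.succ).val * (T j.succ ^ e j) ^ b.N := by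
      rw [← pow_add, he j, pow_add, ← pow_mul, mul_comm b.N]
    have h4 := hT0 j.succ
    rw [inv_pow]
    rw [div_mul_div_comm, h3]
    have h5 : T j.succ ^ (pS α j.succ).val ≠ 0 := pow_ne_zero _ h4
    have h6 : (T j.succ ^ e j) ^ b.N ≠ 0 := pow_ne_zero _ (pow_ne_zero _ h4)
    field_simp
  have htel : ∏ j : Fin n, (T j.castSucc ^ (pS α j.castSucc).val / T j.succ ^ (pS α j.succ).val) =
      (T (Fin.last n) ^ (pS α (Fin.last n)).val)⁻¹ := by
    have h1 := Fin.prod_univ_succ (fun k : Fin (n + 1) => T k ^ (pS α k).val)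
    rw [Fin.prod_univ_castSucc] at h1
    have h2 : T 0 = 1 := partS_zero b h
    rw [h2, one_pow, one_mul] at h1
    have h3 : ∏ j : Fin n, T j.succ ^ (pS α j.succ).val ≠ 0 :=
      prod_ne_zero_iff.2 fun j _ => pow_ne_zero _ (hT0 _)
    have h4 : T (Fin.last n) ^ (pS α (Fin.last n)).val ≠ 0 := pow_ne_zero _ (hT0 _)
    rw [prod_div_distrib, ← h1, div_eq_iff (by rw [h1]; exact h3)]
    field_simp
  refine ⟨β / a 0 ^ M * (T (Fin.last n) ^ e')⁻¹ * ∏ j : Fin n, (T j.succ ^ e j)⁻¹,
    ?_, ?_, ?_, ?_⟩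
  · have ht : ∀ z ∈ IntermediateField.adjoin F (Set.range t), z ∈ fieldK b F t x := by
      intro z hz
      refine (IntermediateField.adjoin_le_iff.2 ?_) hz
      intro y hy
      exact IntermediateField.subset_adjoin F _ (Or.inl hy)
    have hTm : ∀ k, T k ∈ fieldK b F t x := fun k => partS_mem b h _
    refine mul_mem (mul_mem (div_mem (ht _ hβ) (pow_mem (ht _ (h.a_mem 0)) _))
      (inv_mem (pow_mem (hTm _) _))) (prod_mem fun j _ => inv_mem (pow_mem (hTm _) _))
  · have hβ0 : β ≠ 0 := by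
      intro h0
      rw [h0, zero_pow b.N_pos.ne'] at hβN
      exact (prod_ne_zero_iff.2 fun i _ => pow_ne_zero _ (h.a_ne i)) hβN
    refine mul_ne_zero (mul_ne_zero (div_ne_zero hβ0 (pow_ne_zero _ ha0))
      (inv_ne_zero (pow_ne_zero _ (hT0 _)))) (prod_ne_zero_iff.2 fun j _ =>
        inv_ne_zero (pow_ne_zero _ (hT0 _)))
  · have hTs : ∀ k, σ (T k) = T k := fun k => sigma_partS b hσ _
    rw [map_mul, map_mul, map_div₀, map_pow, map_inv₀, map_pow, map_prod, hσβ, hσ.fa, hTs]
    congr 1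
    refine prod_congr rfl fun j _ => ?_
    rw [map_inv₀, map_pow, hTs]
  · rw [prod_congr rfl fun j _ => hfac j, prod_mul_distrib, prod_mul_distrib, htel, prod_pow]
    have h1 := hprod2.symm.trans hprod
    have h2 : (-T (Fin.last n)) ^ (α (Fin.last (n + 1))).val =
        (-1) ^ (α (Fin.last (n + 1))).val * T (Fin.last n) ^ (α (Fin.last (n + 1))).val := by
      rw [← neg_one_mul, mul_pow]
    rw [h2] at h1
    have h3 : T (Fin.last n) ^ (pS α (Fin.last n)).val *
        T (Fin.last n) ^ (α (Fin.last (n + 1))).val = (T (Fin.last n) ^ e') ^ b.N := by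
      rw [← pow_add, he', ← pow_mul, mul_comm b.N]
    have h4 : T (Fin.last n) ^ (pS α (Fin.last n)).val ≠ 0 := pow_ne_zero _ (hT0 _)
    have h5 : T (Fin.last n) ^ (α (Fin.last (n + 1))).val ≠ 0 := pow_ne_zero _ (hT0 _)
    have h6 : ((-1 : L) ^ (α (Fin.last (n + 1))).val) * (-1) ^ (α (Fin.last (n + 1))).val = 1 := by
      rw [← mul_pow]; simp
    set P := ∏ j : Fin n, s j.castSucc.succ ^ (α j.castSucc.succ).val
    set R := ∏ j : Fin n, (T j.succ ^ e j)⁻¹
    set ep : L := (-1 : L) ^ (α (Fin.last (n + 1))).val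
    set X1 := T (Fin.last n) ^ (pS α (Fin.last n)).val
    set X2 := T (Fin.last n) ^ (α (Fin.last (n + 1))).val
    have h7 : (β / a 0 ^ M * (T (Fin.last n) ^ e')⁻¹ * R * wmon x α) ^ b.N =
        (β * wmon x α / a 0 ^ M) ^ b.N * ((T (Fin.last n) ^ e') ^ b.N)⁻¹ * R ^ b.N := by
      have h8 : β / a 0 ^ M * (T (Fin.last n) ^ e')⁻¹ * R * wmon x α =
          β * wmon x α / a 0 ^ M * (T (Fin.last n) ^ e')⁻¹ * R := by ring
      rw [h8, mul_pow, mul_pow, inv_pow]
    rw [h7, ← h1, ← h3]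
    rw [mul_inv]
    have h8 : X2 * X2⁻¹ = 1 := mul_inv_cancel₀ h5
    linear_combination (-(P * X1⁻¹ * R ^ b.N) * (X2 * X2⁻¹)) * h6 - (P * X1⁻¹ * R ^ b.N) * h8

end UnrG
end

section

/-!
# Algebraic independence of roots, roots of unity
-/

namespace UnrG

universe u v w

open Polynomial Finset
open scoped Classical

/-- Roots of algebraically independent elements are algebraically independent. Hint: by
transcendence degree (`F(g)` contains `F(f)`, and a finite family of as many elements as the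
transcendence degree of a field algebraic over them is independent), or directly: the family `f`
is algebraic over `F(g)`. -/
theorem indep_of_pow {F A : Type u} [Field F] [Field A] [Algebra F A] {κ : Type*} [Finite κ]
    {f g : κ → A} (hf : AlgebraicIndependent F f) (e : κ → ℕ) (h : ∀ k, g k ^ e k = f k) :
    AlgebraicIndependent F g := by
  let S := Algebra.adjoin F (Set.range g)
  have hg : ∀ k, g k ∈ S := fun k => Algebra.subset_adjoin ⟨k, rfl⟩
  let g' : κ → S := fun k => ⟨g k, hg k⟩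
  let f' : κ → S := fun k => g' k ^ e k
  have hf' : AlgebraicIndependent F f' := by
    have h1 : f = S.val ∘ f' := by
      funext k
      rw [← h k]
      rfl
    rw [h1] at hf
    exact (AlgHom.algebraicIndependent_iff S.val Subtype.val_injective).1 hf
  have top : Algebra.adjoin F (Set.range g') = ⊤ := by
    have h1 : Set.range g' = ((↑) : S → A) ⁻¹' (Set.range g) := by
      ext x
      constructor
      · rintro ⟨k, rfl⟩
        exact ⟨k, rfl⟩
      · rintro ⟨k, hk⟩
        exact ⟨k, Subtype.ext hk⟩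
    rw [h1]
    exact Algebra.adjoin_adjoin_coe_preimage
  have halg : Algebra.IsAlgebraic (Algebra.adjoin F (Set.range g')) S := by
    rw [top]
    exact ⟨fun x => isAlgebraic_algebraMap (⟨x, trivial⟩ : (⊤ : Subalgebra F S))⟩
  have key := Algebra.IsAlgebraic.isTranscendenceBasis_of_lift_le_trdeg_of_finite F g'
    hf'.lift_cardinalMk_le_trdeg
  exact key.1.map' (f := S.val) Subtype.val_injective

variable {𝔽 : Type w} [Field 𝔽] [Fintype 𝔽] (b : Base 𝔽)

/-- Hint: `(ε ^ s) ^ N = (-1) ^ s`, so `z / ι' (ε ^ s)` is an `N`-th root of unity, i.e. a power of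
`ι' ζ` (`Base.hζ_map`). -/
theorem Base.exists_kappa {K : Type u} [Field K] (ι' : 𝔽 →+* K) {z : K} {s : ℕ}
    (hz : z ^ b.N = (-1) ^ s) : ∃ κ : 𝔽, κ ≠ 0 ∧ ι' κ = z := by
  have hε : b.ε ≠ 0 := by
    intro h
    have h1 := b.hε
    rw [h, zero_pow b.N_pos.ne'] at h1
    exact one_ne_zero (neg_eq_zero.1 h1.symm)
  have h0 : b.ε ^ s ≠ 0 := pow_ne_zero _ hε
  have h1 : ι' (b.ε ^ s) ≠ 0 := (map_ne_zero ι').2 h0
  have h2 : (ι' (b.ε ^ s)) ^ b.N = (-1) ^ s := by
    rw [← map_pow, ← pow_mul, mul_comm, pow_mul, b.hε, map_pow, map_neg, map_one]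
  have h3 : (z / ι' (b.ε ^ s)) ^ b.N = 1 := by
    rw [div_pow, hz, h2, div_self]
    exact pow_ne_zero _ (neg_ne_zero.2 one_ne_zero)
  have : NeZero b.N := ⟨b.N_pos.ne'⟩
  obtain ⟨i, -, hi⟩ := (b.hζ_map ι').eq_pow_of_pow_eq_one h3
  refine ⟨b.ζ ^ i * b.ε ^ s, mul_ne_zero (pow_ne_zero _ ?_) h0, ?_⟩
  · exact b.hζ.ne_zero b.N_pos.ne'
  · rw [map_mul, map_pow, hi, div_mul_cancel₀ _ h1]

end UnrG
end

section

/-!
# Bézout relations over the integers
-/

namespace UnrG

universe u v w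

open Polynomial Finset
open scoped Classical

private lemma C2_clear (s : Set ℤ[X]) (P : ℚ[X])
    (hP : P ∈ Ideal.span ((Polynomial.map (Int.castRingHom ℚ)) '' s)) :
    ∃ D : ℤ, D ≠ 0 ∧ ∃ Q ∈ Ideal.span s, Q.map (Int.castRingHom ℚ) = C (D : ℚ) * P := by
  refine Submodule.span_induction (p := fun P _ => ∃ D : ℤ, D ≠ 0 ∧ ∃ Q ∈ Ideal.span s,
    Q.map (Int.castRingHom ℚ) = C (D : ℚ) * P) ?_ ?_ ?_ ?_ hP
  · rintro _ ⟨f, hf, rfl⟩
    exact ⟨1, one_ne_zero, f, Ideal.subset_span hf, by simp⟩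
  · exact ⟨1, one_ne_zero, 0, zero_mem _, by simp⟩
  · rintro P1 P2 _ _ ⟨D1, h1, Q1, hQ1, e1⟩ ⟨D2, h2, Q2, hQ2, e2⟩
    refine ⟨D1 * D2, mul_ne_zero h1 h2, C D2 * Q1 + C D1 * Q2,
      add_mem (Ideal.mul_mem_left _ _ hQ1) (Ideal.mul_mem_left _ _ hQ2), ?_⟩
    rw [Polynomial.map_add, Polynomial.map_mul, Polynomial.map_mul, e1, e2, Polynomial.map_C,
      Polynomial.map_C, Int.cast_mul, map_mul]
    simp only [eq_intCast]
    ring
  · rintro a P1 _ ⟨D1, h1, Q1, hQ1, e1⟩
    obtain ⟨b, hb, hq⟩ := IsLocalization.integerNormalization_spec (R := ℤ) (S := ℚ)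
      (nonZeroDivisors ℤ) a
    refine ⟨b * D1, mul_ne_zero (nonZeroDivisors.ne_zero hb) h1,
      IsLocalization.integerNormalization (nonZeroDivisors ℤ) a * Q1,
      Ideal.mul_mem_left _ _ hQ1, ?_⟩
    have hq' : (IsLocalization.integerNormalization (nonZeroDivisors ℤ) a).map
        (Int.castRingHom ℚ) = C (b : ℚ) * a := by
      rw [← algebraMap_int_eq, hq]
      ext n
      simp
    rw [Polynomial.map_mul, e1, hq', smul_eq_mul]
    simp only [Int.cast_mul, map_mul]
    ring

/-- Integral polynomials without common complex root generate an ideal containing a nonzero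
integer. Hint: the ideal generated by the images in `ℚ[X]` is principal; a generator which is not
a unit would have a complex root; so `1` is a combination over `ℚ`, clear denominators. -/
theorem exists_int_bezout (s : Set ℤ[X])
    (h : ∀ z : ℂ, ∃ f ∈ s, Polynomial.aeval z f ≠ 0) :
    ∃ D : ℤ, D ≠ 0 ∧ C D ∈ Ideal.span s := by
  have htop : Ideal.span ((Polynomial.map (Int.castRingHom ℚ)) '' s) = ⊤ := by
    by_contra hne
    obtain ⟨g, hg⟩ := (IsPrincipalIdealRing.principal
      (Ideal.span ((Polynomial.map (Int.castRingHom ℚ)) '' s))).principal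
    have hroot : ∃ z : ℂ, Polynomial.aeval z g = 0 := by
      by_cases hg0 : g = 0
      · exact ⟨0, by rw [hg0, map_zero]⟩
      · refine IsAlgClosed.exists_aeval_eq_zero ℂ g ?_
        intro hdeg
        apply hne
        rw [hg]
        exact Ideal.span_singleton_eq_top.2 (Polynomial.isUnit_iff_degree_eq_zero.2 hdeg)
    obtain ⟨z, hz⟩ := hroot
    obtain ⟨f, hf, hfz⟩ := h z
    have h1 : f.map (Int.castRingHom ℚ) ∈
        Ideal.span ((Polynomial.map (Int.castRingHom ℚ)) '' s) :=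
      Ideal.subset_span ⟨f, hf, rfl⟩
    rw [hg] at h1
    obtain ⟨a, ha⟩ := Ideal.mem_span_singleton'.1 h1
    apply hfz
    have h2 : Polynomial.aeval z (f.map (Int.castRingHom ℚ)) = 0 := by
      rw [← ha, map_mul, hz, mul_zero]
    have h3 : Polynomial.aeval z (f.map (algebraMap ℤ ℚ)) = Polynomial.aeval z f :=
      Polynomial.aeval_map_algebraMap ℚ z f
    rw [algebraMap_int_eq] at h3
    rw [← h3, h2]
  obtain ⟨D, hD, Q, hQ, e⟩ := C2_clear s 1 (by rw [htop]; trivial)
  refine ⟨D, hD, ?_⟩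
  have h4 : Q = C D := by
    apply Polynomial.map_injective (Int.castRingHom ℚ) Int.cast_injective
    rw [e, mul_one, Polynomial.map_C, eq_intCast]
  rw [← h4]
  exact hQ

/-- Roots of unity of order `orderOf (ζ ^ k)` in `ℂ` are `k`-th powers of primitive `N`-th roots of
unity. Hint: for a primitive `N`-th root `ω₀` of unity in `ℂ`, `ω₀ ^ k` has the same order `N'` as
`ζ ^ k`, so `ω = (ω₀ ^ k) ^ a` with `a` prime to `N'`; `N' ∣ N` and `ZMod.unitsMap_surjective`
gives `a'` prime to `N` with `a' ≡ a` mod `N'`; take `ω' = ω₀ ^ a'`. -/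
theorem exists_primitive_lift {N k : ℕ} (hN : 0 < N) {R : Type*} [Field R] {ζ : R}
    (hζ : IsPrimitiveRoot ζ N) {ω : ℂ} (hω : IsPrimitiveRoot ω (orderOf (ζ ^ k))) :
    ∃ ω' : ℂ, IsPrimitiveRoot ω' N ∧ ω' ^ k = ω := by
  have hN0 : N ≠ 0 := hN.ne'
  have h0 := Complex.isPrimitiveRoot_exp N hN0
  set ω₀ := Complex.exp (2 * Real.pi * Complex.I / N) with hω₀
  have f1 : IsOfFinOrder ω₀ := isOfFinOrder_iff_pow_eq_one.2 ⟨N, hN, h0.pow_eq_one⟩
  have f2 : IsOfFinOrder ζ := isOfFinOrder_iff_pow_eq_one.2 ⟨N, hN, hζ.pow_eq_one⟩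
  have ho : orderOf (ω₀ ^ k) = orderOf (ζ ^ k) := by
    rw [f1.orderOf_pow, f2.orderOf_pow, ← h0.eq_orderOf, ← hζ.eq_orderOf]
  have hpos : 0 < orderOf (ζ ^ k) := (f2.pow (n := k)).orderOf_pos
  have hp : IsPrimitiveRoot (ω₀ ^ k) (orderOf (ζ ^ k)) := by
    rw [← ho]
    exact IsPrimitiveRoot.orderOf _
  have : NeZero (orderOf (ζ ^ k)) := ⟨hpos.ne'⟩
  have : NeZero N := ⟨hN0⟩
  obtain ⟨i, _, hi, hiω⟩ := hp.isPrimitiveRoot_iff.1 hω
  have hdvd : orderOf (ζ ^ k) ∣ N := by
    apply orderOf_dvd_of_pow_eq_one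
    rw [← pow_mul, mul_comm, pow_mul, hζ.pow_eq_one, one_pow]
  obtain ⟨u, hu⟩ := ZMod.unitsMap_surjective hdvd (ZMod.unitOfCoprime i hi)
  refine ⟨ω₀ ^ (u : ZMod N).val, h0.pow_of_coprime _ (ZMod.val_coe_unit_coprime u), ?_⟩
  rw [← pow_mul, mul_comm, pow_mul, ← hiω,
    pow_eq_pow_mod (u : ZMod N).val hp.pow_eq_one, pow_eq_pow_mod i hp.pow_eq_one]
  congr 1
  change (u : ZMod N).val ≡ i [MOD _]
  rw [← ZMod.natCast_eq_natCast_iff]
  have h5 := congrArg (fun v : (ZMod (orderOf (ζ ^ k)))ˣ => (v : ZMod (orderOf (ζ ^ k)))) hu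
  simp only [ZMod.unitsMap_val, ZMod.coe_unitOfCoprime] at h5
  rw [ZMod.natCast_val]
  exact h5

end UnrG
end

section

/-!
# Jacobi sums
-/

namespace UnrG

universe u v w

open Polynomial Finset
open scoped Classical

variable {𝔽 : Type w} [Field 𝔽] [Fintype 𝔽] (b : Base 𝔽)


private lemma C3_pow {R : Type*} [Field R] {z : R} {N : ℕ} (hz : IsPrimitiveRoot z N)
    (hN : 0 < N) {a c : ℕ} : z ^ a = z ^ c ↔ a ≡ c [MOD N] := by
  have h1 : orderOf (Units.mk0 z (hz.ne_zero hN.ne')) = N := by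
    rw [← orderOf_units, Units.val_mk0]
    exact hz.eq_orderOf.symm
  rw [← h1, ← pow_eq_pow_iff_modEq, Units.ext_iff]
  simp

/-- The multiplicative character attached to a primitive root of unity. Hint: `b.η` generates the
cyclic group `𝔽ˣ` (`b.hη`, `b.card`); `MulChar.ofUnitHom` of the homomorphism sending `b.η` to
`ω` (the order `N e` of `η` is a multiple of the order `N` of `ω`); if `c = η ^ s` and
`c ^ e = ζ ^ i = η ^ (e i)` then `s ≡ i` mod `N`. -/
theorem Base.exists_char {ω : ℂ} (hω : IsPrimitiveRoot ω b.N) :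
    ∃ χ : MulChar 𝔽 ℂ, (∀ (c : 𝔽) (i : ℕ), c ≠ 0 → c ^ b.e = b.ζ ^ i → χ c = ω ^ i) ∧
      ∀ k : ℕ, χ ^ k = 1 ↔ b.N ∣ k := by
  have hNe : b.N * b.e ≠ 0 := (Nat.mul_pos b.N_pos b.e_pos).ne'
  have hη0 : b.η ≠ 0 := b.hη.ne_zero hNe
  set g : 𝔽ˣ := Units.mk0 b.η hη0 with hg
  have hgv : (g : 𝔽) = b.η := rfl
  have hgen : ∀ x : 𝔽ˣ, x ∈ Subgroup.zpowers g := by
    intro x
    obtain ⟨i, hi⟩ := b.exists_pow_eq x.ne_zero
    refine ⟨(i : ℤ), ?_⟩
    ext
    simp [hgv, hi]
  have hord : orderOf g = b.N * b.e := by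
    rw [← orderOf_units, hgv]
    exact b.hη.eq_orderOf.symm
  have hω0 : ω ≠ 0 := hω.ne_zero b.N_pos.ne'
  set w : ℂˣ := Units.mk0 ω hω0 with hw
  have hwv : (w : ℂ) = ω := rfl
  have hword : orderOf w = b.N := by
    rw [← orderOf_units, hwv]
    exact hω.eq_orderOf.symm
  have hdvd : orderOf w ∣ orderOf g := by
    rw [hword, hord]
    exact Dvd.intro _ rfl
  have hχ : ∀ s : ℕ, MulChar.ofUnitHom (monoidHomOfForallMemZpowers hgen hdvd) (b.η ^ s) =
      ω ^ s := by
    intro s
    have h1 : b.η ^ s = ((g ^ s : 𝔽ˣ) : 𝔽) := by simp [hgv]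
    rw [h1, MulChar.ofUnitHom_coe, map_pow, monoidHomOfForallMemZpowers_apply_gen]
    simp [hwv]
  refine ⟨MulChar.ofUnitHom (monoidHomOfForallMemZpowers hgen hdvd), ?_, ?_⟩
  · intro c i hc hci
    obtain ⟨s, rfl⟩ := b.exists_pow_eq hc
    rw [hχ]
    have h1 : b.ζ ^ s = b.ζ ^ i := by
      rw [← hci, Base.ζ, ← pow_mul, ← pow_mul, mul_comm]
    exact (C3_pow hω b.N_pos).mpr ((C3_pow b.hζ b.N_pos).mp h1)
  · intro k
    constructor
    · intro h
      have h1 := congrArg (fun ψ : MulChar 𝔽 ℂ => ψ (g : 𝔽)) h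
      simp only [MulChar.pow_apply_coe, MulChar.one_apply_coe] at h1
      have h2 := hχ 1
      rw [pow_one, pow_one, ← hgv] at h2
      rw [h2] at h1
      exact (hω.pow_eq_one_iff_dvd k).mp h1
    · rintro ⟨l, rfl⟩
      ext x
      rw [MulChar.pow_apply_coe, MulChar.one_apply_coe]
      obtain ⟨s, hs⟩ := b.exists_pow_eq x.ne_zero
      rw [← hs, hχ, ← pow_mul, mul_left_comm, pow_mul, hω.pow_eq_one, one_pow]

/-- The absolute value of Jacobi sums of nontrivial characters with nontrivial product. Hint: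
`jacobiSum_mul_jacobiSum_inv` and complex conjugation of `χ` is `χ⁻¹`
(`MulChar.star_eq_inv`/`MulChar.starComp_eq_inv`). -/
theorem normSq_jacobiSum {χ ψ : MulChar 𝔽 ℂ} (h1 : χ ≠ 1) (h2 : ψ ≠ 1) (h3 : χ * ψ ≠ 1) :
    Complex.normSq (jacobiSum χ ψ) = Fintype.card 𝔽 := by
  have hchar : ringChar ℂ ≠ ringChar 𝔽 := by
    rw [ringChar.eq_zero]
    exact (CharP.ringChar_ne_zero_of_finite 𝔽).symm
  have h := jacobiSum_mul_jacobiSum_inv hchar h1 h2 h3
  have hconj : (starRingEnd ℂ) (jacobiSum χ ψ) = jacobiSum χ⁻¹ ψ⁻¹ := by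
    rw [jacobiSum, jacobiSum, map_sum]
    refine sum_congr rfl (fun c _ => ?_)
    rw [map_mul]
    congr 1
    · exact MulChar.star_apply' χ c
    · exact MulChar.star_apply' ψ (1 - c)
  rw [← hconj, Complex.mul_conj] at h
  exact_mod_cast h

/-- The polynomial of the automorphisms of the correspondence evaluated at a root of unity is a
Jacobi sum. -/
theorem Base.jac_eq {ω' : ℂ} (hω' : IsPrimitiveRoot ω' b.N) {k : ℕ} (bb aa : ℕ) (l : 𝔽 → ℕ)
    (hl : ∀ c' : 𝔽, c' ≠ 0 → c' ≠ 1 →
      (b.ζ ^ k) ^ l c' = (c' ^ b.e) ^ bb * ((1 - c') ^ b.e) ^ aa) {χ : MulChar 𝔽 ℂ}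
    (hχ : ∀ (c : 𝔽) (i : ℕ), c ≠ 0 → c ^ b.e = b.ζ ^ i → χ c = ω' ^ i) :
    ∑ c ∈ univ.filter (fun c : 𝔽 => c ≠ 0 ∧ c ≠ 1), (ω' ^ k) ^ l c =
      jacobiSum (χ ^ bb) (χ ^ aa) := by
  rw [jacobiSum, ← sum_subset (filter_subset (fun c : 𝔽 => c ≠ 0 ∧ c ≠ 1) univ)]
  · refine sum_congr rfl (fun c hc => ?_)
    obtain ⟨hc0, hc1⟩ := (mem_filter.mp hc).2
    have hc1' : 1 - c ≠ 0 := sub_ne_zero.mpr (Ne.symm hc1)
    obtain ⟨s, hs⟩ := b.exists_pow_ζ hc0
    obtain ⟨t, ht⟩ := b.exists_pow_ζ hc1'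
    have h4 := hl c hc0 hc1
    rw [hs, ht, ← pow_mul, ← pow_mul, ← pow_mul, ← pow_add] at h4
    have h6 : ω' ^ (k * l c) = ω' ^ (s * bb + t * aa) :=
      (C3_pow hω' b.N_pos).mpr ((C3_pow b.hζ b.N_pos).mp h4)
    have h7 : (χ ^ bb) c = (χ c) ^ bb := by
      have := MulChar.pow_apply_coe χ bb (Units.mk0 c hc0)
      simpa using this
    have h8 : (χ ^ aa) (1 - c) = (χ (1 - c)) ^ aa := by
      have := MulChar.pow_apply_coe χ aa (Units.mk0 (1 - c) hc1')
      simpa using this
    rw [← pow_mul, h6, h7, h8, hχ c s hc0 hs, hχ (1 - c) t hc1' ht, pow_add, pow_mul, pow_mul]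
  · intro c _ hc
    have h4 : c = 0 ∨ c = 1 := by
      by_contra h5
      push Not at h5
      exact hc (mem_filter.mpr ⟨mem_univ _, h5⟩)
    rcases h4 with rfl | rfl
    · rw [MulChar.map_zero, zero_mul]
    · rw [sub_self, MulChar.map_zero, mul_zero]

/-- The absolute value of the polynomial of the automorphisms of the correspondence at a root of
unity. -/
theorem Base.normSq_jac {ω' : ℂ} (hω' : IsPrimitiveRoot ω' b.N) {k : ℕ} (bb aa : ℕ)
    (h1 : ¬ b.N ∣ bb) (h2 : ¬ b.N ∣ aa) (h3 : ¬ b.N ∣ bb + aa) (l : 𝔽 → ℕ)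
    (hl : ∀ c' : 𝔽, c' ≠ 0 → c' ≠ 1 →
      (b.ζ ^ k) ^ l c' = (c' ^ b.e) ^ bb * ((1 - c') ^ b.e) ^ aa) :
    Complex.normSq (∑ c ∈ univ.filter (fun c : 𝔽 => c ≠ 0 ∧ c ≠ 1), (ω' ^ k) ^ l c) = b.q := by
  obtain ⟨χ, hχ, hχ1⟩ := b.exists_char hω'
  rw [b.jac_eq hω' bb aa l hl hχ, normSq_jacobiSum (fun h => h1 ((hχ1 bb).mp h))
    (fun h => h2 ((hχ1 aa).mp h))
    (fun h => h3 ((hχ1 (bb + aa)).mp (by rw [pow_add]; exact h))), b.card_q]

end UnrG
end

section

/-!
# Irreducibility of Kummer equations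
-/

namespace UnrG

universe u v w

open Polynomial Finset
open scoped Classical

variable {m : ℕ} {K : Type u} [Field K]

/-- Eisenstein's criterion. -/
theorem irreducible_kummer (f : K[X]) (hf : Squarefree f) (hd : 0 < f.natDegree) {N : ℕ}
    (hN : 0 < N) :
    Irreducible (X ^ N - C (algebraMap K[X] (RatFunc K) f) : (RatFunc K)[X]) := by
  have hf0 : f ≠ 0 := by
    rintro rfl
    simp at hd
  have hfu : ¬ IsUnit f := by
    intro hu
    rw [natDegree_eq_zero_of_isUnit hu] at hd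
    exact lt_irrefl _ hd
  obtain ⟨π, hπ, hπf⟩ := WfDvdMonoid.exists_irreducible_factor hfu hf0
  have hπp : Prime π := hπ.prime
  have hmon : (X ^ N - C f : K[X][X]).Monic := monic_X_pow_sub_C f hN.ne'
  have hdeg : (X ^ N - C f : K[X][X]).degree = N := degree_X_pow_sub_C hN f
  have hirr : Irreducible (X ^ N - C f : K[X][X]) := by
    refine irreducible_of_eisenstein_criterion (P := Ideal.span {π})
      ((Ideal.span_singleton_prime hπp.ne_zero).2 hπp) ?_ ?_ ?_ ?_ hmon.isPrimitive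
    · rw [hmon.leadingCoeff, Ideal.mem_span_singleton]
      exact fun h => hπ.not_isUnit (isUnit_of_dvd_one h)
    · intro n hn
      rw [hdeg] at hn
      have hn' : n < N := by exact_mod_cast hn
      rw [coeff_sub, coeff_X_pow, if_neg hn'.ne, coeff_C]
      split_ifs
      · rw [zero_sub, Ideal.neg_mem_iff, Ideal.mem_span_singleton]
        exact hπf
      · rw [sub_zero]
        exact Ideal.zero_mem _
    · rw [hdeg]
      exact_mod_cast hN
    · rw [coeff_sub, coeff_X_pow, if_neg hN.ne, coeff_C, if_pos rfl, zero_sub, Ideal.neg_mem_iff,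
        Ideal.span_singleton_pow, Ideal.mem_span_singleton, pow_two]
      intro h
      exact hπ.not_isUnit (hf π h)
  have h1 := (hmon.irreducible_iff_irreducible_map_fraction_map (K := RatFunc K)).1 hirr
  rwa [Polynomial.map_sub, Polynomial.map_pow, map_X, map_C] at h1

private lemma X1_aux {l : ℕ} (hl : (l : K) ≠ 0) (u : K) :
    Squarefree (1 - C u * X ^ l : K[X]) := by
  have hl0 : l ≠ 0 := by
    rintro rfl
    simp at hl
  obtain ⟨k, rfl⟩ : ∃ k, l = k + 1 := ⟨l - 1, by omega⟩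
  have h2 : C (((k + 1 : ℕ) : K)⁻¹) * C ((k + 1 : ℕ) : K) = 1 := by
    rw [← C_mul, inv_mul_cancel₀ hl, C_1]
  have h3 : (1 - C u * X ^ (k + 1) : K[X]).Separable := by
    refine ⟨1, -(C (((k + 1 : ℕ) : K)⁻¹) * X), ?_⟩
    rw [derivative_sub, derivative_one, derivative_C_mul, derivative_X_pow, zero_sub,
      Nat.add_sub_cancel]
    linear_combination (C u * X ^ (k + 1) : K[X]) * h2
  exact h3.squarefree

lemma squarefree_one_sub_pow {N : ℕ} (hN : (N : K) ≠ 0) :
    Squarefree (1 - X ^ N : K[X]) := by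
  have h := X1_aux hN (1 : K)
  rwa [C_1, one_mul] at h

lemma squarefree_one_sub_mul_pow {l : ℕ} (hl : (l : K) ≠ 0) (u : K) :
    Squarefree (1 - C u * X ^ l : K[X]) := X1_aux hl u

end UnrG
end

section

/-!
# Fermat extensions
-/

namespace UnrG

universe u v w

open Polynomial Finset
open scoped Classical

variable {m : ℕ}

/-- `M` is the function field of the Fermat curve `x ^ N + y ^ N = 1` over `K`. -/
structure IsFermat (N : ℕ) {K : Type v} {M : Type u} [Field K] [Field M] (j : K →+* M) (x y : M) :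
    Prop where
  eq : x ^ N + y ^ N = 1
  transc : ∀ f : K[X], f ≠ 0 → f.eval₂ j x ≠ 0
  gen : Subfield.closure (Set.range j ∪ {x, y}) = ⊤

lemma IsFermat.hom_ext {N : ℕ} {K : Type v} {M : Type u} {E : Type w} [Field K]
    [Field M] [Field E] {j : K →+* M} {x y : M} (h : IsFermat N j x y) {f g : M →+* E}
    (h1 : f.comp j = g.comp j) (hx : f x = g x) (hy : f y = g y) : f = g := by
  apply RingHom.eq_of_eqOn_of_field_closure_eq_top h.gen
  rintro z (⟨a, rfl⟩ | rfl | rfl)
  · exact congrArg (fun f : K →+* E => f a) h1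
  · exact hx
  · exact hy

section transc

variable {K : Type v} {M : Type u} [Field K] [Field M] {j : K →+* M} {x : M}

/-- Hint: `f.eval₂ j (x ^ l) = (expand K l f).eval₂ j x`. -/
lemma transc_pow (h : ∀ f : K[X], f ≠ 0 → f.eval₂ j x ≠ 0) {l : ℕ} (hl : 0 < l) :
    ∀ f : K[X], f ≠ 0 → f.eval₂ j (x ^ l) ≠ 0 := by
  intro f hf h0
  refine h (expand K l f) ((expand_ne_zero hl).2 hf) ?_
  rw [expand_eq_comp_X_pow, eval₂_comp, eval₂_pow, eval₂_X]
  exact h0

/-- Hint: compose with `C c * X`, which is invertible under composition. -/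
lemma transc_mul (h : ∀ f : K[X], f ≠ 0 → f.eval₂ j x ≠ 0) {c : K} (hc : c ≠ 0) :
    ∀ f : K[X], f ≠ 0 → f.eval₂ j (j c * x) ≠ 0 := by
  intro f hf h0
  refine h (f.comp (C c * X)) ?_ ?_
  · intro h1
    apply hf
    have h2 : (f.comp (C c * X)).comp (C c⁻¹ * X) = f := by
      rw [comp_assoc, mul_comp, C_comp, X_comp, ← mul_assoc, ← C_mul, mul_inv_cancel₀ hc, C_1,
        one_mul, comp_X]
    rw [← h2, h1, zero_comp]
  · rw [eval₂_comp, eval₂_mul, eval₂_C, eval₂_X]
    exact h0

lemma transc_map (h : ∀ f : K[X], f ≠ 0 → f.eval₂ j x ≠ 0) {E : Type w} [Field E]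
    (i : M →+* E) : ∀ f : K[X], f ≠ 0 → f.eval₂ (i.comp j) (i x) ≠ 0 := by
  intro f hf h'
  rw [← hom_eval₂, map_eq_zero] at h'
  exact h f hf h'

/-- A transcendental element does not satisfy an equation over the constants. -/
lemma IsFermat.x_ne {N : ℕ} {y : M} (h : IsFermat N j x y) : x ≠ 0 := by
  intro h0
  exact h.transc X X_ne_zero (by rw [eval₂_X]; exact h0)

/-- Hint: otherwise `x ^ N = 1` is algebraic over the constants. -/
lemma IsFermat.y_ne {N : ℕ} (hN : 0 < N) {y : M} (h : IsFermat N j x y) : y ≠ 0 := by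
  intro h0
  refine h.transc (X ^ N - C 1) (X_pow_sub_C_ne_zero hN 1) ?_
  have h1 := h.eq
  rw [h0, zero_pow hN.ne', add_zero] at h1
  rw [eval₂_sub, eval₂_pow, eval₂_X, eval₂_C, map_one, h1, sub_self]

/-- Hint: `u - a` for a constant `a` vanishes for no `a` since `x ^ N` is transcendental. -/
lemma IsFermat.pow_ne {N : ℕ} (hN : 0 < N) {y : M} (h : IsFermat N j x y) (a : K) :
    x ^ N ≠ j a := by
  intro h0
  refine h.transc (X ^ N - C a) (X_pow_sub_C_ne_zero hN a) ?_
  rw [eval₂_sub, eval₂_pow, eval₂_X, eval₂_C, h0, sub_self]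

end transc

/-- The universal property of the function field of the Fermat curve. Hint: the homomorphism
`RatFunc K →+* M`, `X ↦ x` exists by `transc`; its range `R` and `y` generate `M`;
`X ^ N - C (1 - x ^ N)` is irreducible over `R` by `irreducible_kummer` and
`squarefree_one_sub_pow` (transported along `RatFunc K ≃+* R`, or make `M` an algebra over
`RatFunc K`; for this use `K M` in different universes with care, e.g. prove the statement with
`AdjoinRoot (X ^ N - C (algebraMap _ _ (1 - X ^ N)) : (RatFunc K)[X])`, which maps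
isomorphically to `M`). The homomorphism `RatFunc K →+* E`, `X ↦ x'` exists by `htr`. -/
theorem IsFermat.exists_hom {N : ℕ} (hN : 0 < N) {K : Type v} {M : Type u} {E : Type w} [Field K]
    [Field M] [Field E] (hNK : (N : K) ≠ 0) {j : K →+* M} {x y : M} (h : IsFermat N j x y)
    (g : K →+* E) (x' y' : E) (heq : x' ^ N + y' ^ N = 1)
    (htr : ∀ f : K[X], f ≠ 0 → f.eval₂ g x' ≠ 0) :
    ∃ f : M →+* E, f.comp j = g ∧ f x = x' ∧ f y = y' := by
  -- lifts to the field of rational functions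
  have hinj1 : Function.Injective (eval₂RingHom j x) := by
    rw [injective_iff_map_eq_zero]
    intro f hf
    by_contra h0
    exact h.transc f h0 hf
  have hinj2 : Function.Injective (eval₂RingHom g x') := by
    rw [injective_iff_map_eq_zero]
    intro f hf
    by_contra h0
    exact htr f h0 hf
  let f₁ : RatFunc K →+* M := IsFractionRing.lift hinj1
  let f₂ : RatFunc K →+* E := IsFractionRing.lift hinj2
  have hf₁ : ∀ p : K[X], f₁ (algebraMap K[X] (RatFunc K) p) = p.eval₂ j x := fun p =>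
    IsFractionRing.lift_algebraMap hinj1 p
  have hf₂ : ∀ p : K[X], f₂ (algebraMap K[X] (RatFunc K) p) = p.eval₂ g x' := fun p =>
    IsFractionRing.lift_algebraMap hinj2 p
  let P : (RatFunc K)[X] := X ^ N - C (algebraMap K[X] (RatFunc K) (1 - X ^ N))
  have hP : Irreducible P := by
    refine irreducible_kummer (1 - X ^ N) (squarefree_one_sub_pow hNK) ?_ hN
    have h1 : (1 - X ^ N : K[X]) = -(X ^ N - C 1) := by
      rw [C_1]
      ring
    rw [h1, natDegree_neg, natDegree_X_pow_sub_C]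
    exact hN
  have : Fact (Irreducible P) := ⟨hP⟩
  have hy1 : P.eval₂ f₁ y = 0 := by
    rw [eval₂_sub, eval₂_pow, eval₂_X, eval₂_C, hf₁, eval₂_sub, eval₂_one, eval₂_pow, eval₂_X,
      ← h.eq]
    ring
  have hy2 : P.eval₂ f₂ y' = 0 := by
    rw [eval₂_sub, eval₂_pow, eval₂_X, eval₂_C, hf₂, eval₂_sub, eval₂_one, eval₂_pow, eval₂_X,
      ← heq]
    ring
  let α : AdjoinRoot P →+* M := AdjoinRoot.lift f₁ y hy1
  let β : AdjoinRoot P →+* E := AdjoinRoot.lift f₂ y' hy2
  have hαj : ∀ a : K, α (AdjoinRoot.of P (algebraMap K[X] (RatFunc K) (C a))) = j a := by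
    intro a
    rw [AdjoinRoot.lift_of, hf₁, eval₂_C]
  have hαx : α (AdjoinRoot.of P (algebraMap K[X] (RatFunc K) X)) = x := by
    rw [AdjoinRoot.lift_of, hf₁, eval₂_X]
  have hαy : α (AdjoinRoot.root P) = y := AdjoinRoot.lift_root hy1
  have hsurj : Function.Surjective α := by
    rw [← RingHom.range_eq_top]
    have h1 : α.fieldRange = ⊤ := by
      rw [eq_top_iff, ← h.gen, Subfield.closure_le]
      rintro z (⟨a, rfl⟩ | rfl | rfl)
      · exact ⟨_, hαj a⟩
      · exact ⟨_, hαx⟩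
      · exact ⟨_, hαy⟩
    rw [eq_top_iff]
    intro z _
    have h2 : z ∈ α.fieldRange := by rw [h1]; trivial
    exact h2
  let e : AdjoinRoot P ≃+* M := RingEquiv.ofBijective α ⟨α.injective, hsurj⟩
  have he : ∀ z, e.symm (α z) = z := fun z => e.symm_apply_apply z
  refine ⟨β.comp (e.symm : M →+* AdjoinRoot P), ?_, ?_, ?_⟩
  · refine RingHom.ext fun a => ?_
    change β (e.symm (j a)) = g a
    rw [← hαj a, he, AdjoinRoot.lift_of, hf₂, eval₂_C]
  · change β (e.symm x) = x'
    have h1 : e.symm x = AdjoinRoot.of P (algebraMap K[X] (RatFunc K) X) := by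
      rw [← he (AdjoinRoot.of P (algebraMap K[X] (RatFunc K) X)), hαx]
    rw [h1, AdjoinRoot.lift_of, hf₂, eval₂_X]
  · change β (e.symm y) = y'
    have h1 : e.symm y = AdjoinRoot.root P := by
      rw [← he (AdjoinRoot.root P), hαy]
    rw [h1]
    exact AdjoinRoot.lift_root hy2

end UnrG
end

section

/-!
# The polynomial identity behind the correspondence
-/

namespace UnrG

universe u v w

open Polynomial Finset
open scoped Classical

variable {m : ℕ} {𝔽 : Type w} [Field 𝔽] [Fintype 𝔽] (b : Base 𝔽)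

private lemma B1_prod_field (𝔽 : Type w) [Field 𝔽] [Fintype 𝔽] :
    ∏ c : 𝔽, (X - C c) = (X ^ Fintype.card 𝔽 - X : 𝔽[X]) := by
  have hr := FiniteField.roots_X_pow_card_sub_X 𝔽
  have hd : (X ^ Fintype.card 𝔽 - X : 𝔽[X]).natDegree = Fintype.card 𝔽 :=
    FiniteField.X_pow_card_sub_X_natDegree_eq _ Fintype.one_lt_card
  have hm : (X ^ Fintype.card 𝔽 - X : 𝔽[X]).Monic := by
    apply monic_X_pow_sub
    rw [degree_X]
    exact_mod_cast Fintype.one_lt_card
  have h := prod_multiset_X_sub_C_of_monic_of_roots_card_eq hm (by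
    rw [hr, hd]
    rfl)
  rw [hr] at h
  exact h

private lemma B1_prod {M : Type u} [Field M] (ι : 𝔽 →+* M) :
    ∏ c : 𝔽, (X - C (ι c)) = (X ^ b.q - X : M[X]) := by
  have h := congrArg (Polynomial.map ι) (B1_prod_field 𝔽)
  rw [Polynomial.map_prod, b.card_q] at h
  simpa using h

/-- In a field containing `𝔽` the `q`-th power map is additive. Hint: `FiniteField.card`,
`sub_pow_char_pow`. -/
private lemma B1_sub_pow {R : Type u} [CommRing R] {M : Type u} [Field M] (ι : 𝔽 →+* M)
    [Algebra M R] [Nontrivial R] (u v : R) :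
    (u - v) ^ b.q = u ^ b.q - v ^ b.q := by
  obtain ⟨p, hp⟩ := CharP.exists 𝔽
  obtain ⟨n, hpr, hn⟩ := FiniteField.card 𝔽 p
  have : Fact p.Prime := ⟨hpr⟩
  have hinj : Function.Injective ((algebraMap M R).comp ι) := ((algebraMap M R).comp ι).injective
  have : CharP R p := charP_of_injective_ringHom hinj p
  rw [← b.card_q, hn]
  exact sub_pow_char_pow (R := R) (p := p) u v n

/-- Hint: multiply by `X * (1 - X)`, which is not a zero divisor, and use
`∏ c : 𝔽, (X - C (ι c)) = X ^ q - X` (`FiniteField.X_pow_card_sub_X...`/`FiniteField.prod_X_sub_C_eq`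
mapped to `M`; `X ^ q - X = X * (X - 1) * ∏_{c ≠ 0, 1} (X - C (ι c))`). With `q = N e + 1`:
`v (1 - v) (1 - u v ^ (q - 1)) - (1 - u) v (1 - v) (1 - v) ^ (q - 1) = (v - u) (v ^ q - v)`,
using `(1 - v) ^ q = 1 - v ^ q` (`sub_pow_char_pow`-type lemma, `q` is a power of the
characteristic: `FiniteField.card`). -/
lemma normPoly_eq {M : Type u} [Field M] (ι : 𝔽 →+* M) (u : M) :
    normPoly b u =
      -((X - C u) * ∏ c ∈ univ.filter (fun c : 𝔽 => c ≠ 0 ∧ c ≠ 1), (X - C (ι c))) := by
  have h0 : (X * (1 - X) : M[X]) ≠ 0 := by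
    refine mul_ne_zero X_ne_zero ?_
    intro h
    have := congrArg (fun p : M[X] => p.eval 0) h
    simp at this
  apply mul_right_cancel₀ h0
  have h1 := B1_prod b ι
  have h2 : (1 - X : M[X]) ^ b.q = 1 ^ b.q - X ^ b.q := B1_sub_pow b ι (R := M[X]) 1 X
  have h3 : univ.filter (fun c : 𝔽 => c ≠ 0 ∧ c ≠ 1) = (univ.erase 0).erase 1 := by
    ext c
    simp only [mem_filter, mem_univ, true_and, mem_erase, and_true]
    tauto
  have h4 : ∏ c : 𝔽, (X - C (ι c)) = (X - C (ι 0)) * ((X - C (ι 1)) *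
      ∏ c ∈ univ.filter (fun c : 𝔽 => c ≠ 0 ∧ c ≠ 1), (X - C (ι c))) := by
    rw [h3, mul_prod_erase (univ.erase 0) (fun c : 𝔽 => X - C (ι c))
        (mem_erase.mpr ⟨one_ne_zero, mem_univ _⟩),
      mul_prod_erase univ (fun c : 𝔽 => X - C (ι c)) (mem_univ _)]
  rw [h4, map_zero, map_one, C_0, C_1, sub_zero] at h1
  unfold normPoly
  rw [one_pow] at h2
  have hq : b.q = b.N * b.e + 1 := rfl
  rw [hq, pow_succ] at h2
  rw [hq, pow_succ] at h1
  linear_combination - (1 - C u) * X * h2 - (X - C u) * h1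

/-- In a field containing `𝔽` the `q`-th power map is additive. Hint: `FiniteField.card`,
`sub_pow_char_pow`. -/
lemma Base.sub_pow_q {M : Type u} [Field M] (ι : 𝔽 →+* M) (u v : M) :
    (u - v) ^ b.q = u ^ b.q - v ^ b.q := B1_sub_pow b ι u v

/-- The points of the correspondence are simple zeros of the norm polynomial, and all the
conditions of `FrobData.res_local` hold there. Hint: `normPoly_eq`; `x ^ N` is not a constant
(`IsFermat.pow_ne`). For `c = ι c'` one has `c ^ (N e) = 1 = (1 - c) ^ (N e)`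
(`Base.pow_eq_one`); for `c = u = x ^ N`: `(y * (1 - u) ^ e) ^ N = y ^ N * y ^ (N * N * e) =
(1 - u) ^ q = 1 - u ^ q`. -/
lemma normSet_spec {K M : Type u} [Field K] [Field M] {ι : 𝔽 →+* K} {j : K →+* M} {x y : M}
    (h : IsFermat b.N j x y) {c : M} (hc : c ∈ normSet (j.comp ι) (x ^ b.N)) :
    c ≠ 0 ∧ c ≠ 1 ∧ (y * (1 - c) ^ b.e) ^ b.N = 1 - x ^ b.N * c ^ (b.N * b.e) ∧
    (normPoly b (x ^ b.N)).eval c = 0 ∧ (normPoly b (x ^ b.N)).derivative.eval c ≠ 0 := by
  have hN := b.N_pos
  have hy : y ^ b.N = 1 - x ^ b.N := by rw [← h.eq]; ring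
  have hne : ∀ a : 𝔽, x ^ b.N ≠ (j.comp ι) a := fun a => h.pow_ne hN (ι a)
  rw [normPoly_eq b (j.comp ι) (x ^ b.N)]
  unfold normSet at hc
  rw [mem_insert] at hc
  rcases hc with rfl | hc
  · refine ⟨?_, ?_, ?_, ?_, ?_⟩
    · simpa using hne 0
    · simpa using hne 1
    · rw [mul_pow, hy, ← pow_mul, ← pow_succ', Nat.mul_comm b.e b.N]
      have h1 := b.sub_pow_q (j.comp ι) 1 (x ^ b.N)
      have hq : b.q = b.N * b.e + 1 := rfl
      rw [hq, one_pow, pow_succ' (x ^ b.N)] at h1
      exact h1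
    · rw [eval_neg, eval_mul, eval_sub, eval_X, eval_C, sub_self, zero_mul, neg_zero]
    · rw [derivative_neg, derivative_mul, derivative_sub, derivative_X, derivative_C, sub_zero,
        one_mul, eval_neg, eval_add, eval_mul, eval_sub, eval_X, eval_C, sub_self, zero_mul,
        add_zero, neg_ne_zero, eval_prod, prod_ne_zero_iff]
      intro a _
      rw [eval_sub, eval_X, eval_C, sub_ne_zero]
      exact hne a
  · obtain ⟨a, ha, rfl⟩ := mem_image.mp hc
    have ha' := (mem_filter.mp ha).2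
    have hinj := (j.comp ι).injective
    refine ⟨?_, ?_, ?_, ?_, ?_⟩
    · exact (_root_.map_ne_zero _).mpr ha'.1
    · intro h1
      exact ha'.2 (hinj (by rw [h1, map_one]))
    · have h1 : ((j.comp ι) a) ^ (b.N * b.e) = 1 := by
        rw [← map_pow, b.pow_eq_one ha'.1, map_one]
      have h2 : (1 - (j.comp ι) a) ^ (b.N * b.e) = 1 := by
        rw [← map_one (j.comp ι), ← map_sub, ← map_pow,
          b.pow_eq_one (sub_ne_zero.mpr (Ne.symm ha'.2)), map_one]
      rw [mul_pow, ← pow_mul, Nat.mul_comm b.e b.N, h1, h2, hy]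
      ring
    · rw [eval_neg, eval_mul, eval_prod, prod_eq_zero ha, mul_zero, neg_zero]
      rw [eval_sub, eval_X, eval_C, sub_self]
    · rw [← mul_prod_erase _ _ ha]
      have e : (X - C (x ^ b.N)) * ((X - C ((j.comp ι) a)) *
          ∏ c ∈ (univ.filter (fun c : 𝔽 => c ≠ 0 ∧ c ≠ 1)).erase a, (X - C ((j.comp ι) c))) =
          (X - C ((j.comp ι) a)) * ((X - C (x ^ b.N)) *
          ∏ c ∈ (univ.filter (fun c : 𝔽 => c ≠ 0 ∧ c ≠ 1)).erase a, (X - C ((j.comp ι) c))) := by
        ring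
      rw [e, derivative_neg, derivative_mul, derivative_sub, derivative_X, derivative_C, sub_zero,
        one_mul, eval_neg, eval_add, eval_mul (p := X - C ((j.comp ι) a)), eval_sub, eval_X,
        eval_C, sub_self, zero_mul, add_zero, neg_ne_zero, eval_mul, eval_prod]
      refine mul_ne_zero ?_ (prod_ne_zero_iff.mpr ?_)
      · rw [eval_sub, eval_X, eval_C, sub_ne_zero]
        exact (hne a).symm
      · intro c hc
        rw [eval_sub, eval_X, eval_C, sub_ne_zero]
        intro h1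
        exact (mem_erase.mp hc).1 (hinj h1).symm

end UnrG
end
end
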