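import Pool.Agent.Lib.MP_859dd5_ag.Mg.G058
import Pool.Agent.Lib.MP_859dd5_ag.EQ.Fun
import Pool.Agent.Lib.MP_859dd5_ag.Mg.G068
import Pool.Agent.Lib.MP_859dd5_ag.Mg.G069

section

/-!
# The valuation of the field of Laurent series
-/

namespace UnrG

universe u v w

open Polynomial Finset
open scoped Classical

variable {m : ℕ} {K : Type u} [Field K]

lemma lau_order_eq {b : LaurentSeries K} {n : ℤ} (h0 : ∀ i < n, b.coeff i = 0)
    (hn : b.coeff n ≠ 0) : b.order = n ∧ b.leadingCoeff = b.coeff n := by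
  have hb : b ≠ 0 := by
    rintro rfl
    exact hn rfl
  have h1 : b.order ≤ n := HahnSeries.order_le_of_coeff_ne_zero hn
  have h2 : b.order = n := by
    refine le_antisymm h1 ?_
    by_contra h
    push Not at h
    exact hb (HahnSeries.coeff_order_eq_zero.mp (h0 _ h))
  exact ⟨h2, by rw [HahnSeries.leadingCoeff_eq, h2]⟩

lemma lau_st (a b : LaurentSeries K) (ha : a ≠ 0) (hb : b ≠ 0) (hab : a + b = 1) :
    (0 < a.order ∧ b.order = 0 ∧ b.leadingCoeff = 1) ∨
    (0 < b.order ∧ a.order = 0 ∧ a.leadingCoeff = 1) ∨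
    (a.order = 0 ∧ b.order = 0 ∧ a.leadingCoeff + b.leadingCoeff = 1) ∨
    (a.order < 0 ∧ b.order = a.order ∧ b.leadingCoeff = - a.leadingCoeff) := by
  have hc : ∀ i : ℤ, a.coeff i + b.coeff i = if i = 0 then 1 else 0 := by
    intro i
    have h1 : (a + b).coeff i = (1 : LaurentSeries K).coeff i := by rw [hab]
    rw [HahnSeries.coeff_add] at h1
    rw [h1, HahnSeries.coeff_one]
    split_ifs <;> rfl
  have key : ∀ a b : LaurentSeries K, a ≠ 0 → b ≠ 0 →
      (∀ i : ℤ, a.coeff i + b.coeff i = if i = 0 then 1 else 0) →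
      (0 < a.order → b.order = 0 ∧ b.leadingCoeff = 1) ∧
      (a.order < 0 → b.order = a.order ∧ b.leadingCoeff = - a.leadingCoeff) := by
    intro a b ha hb hc
    constructor
    · intro h
      have h1 : b.coeff 0 = 1 := by
        have := hc 0
        rw [HahnSeries.coeff_eq_zero_of_lt_order h] at this
        simpa using this
      have h2 := lau_order_eq (b := b) (n := 0) (by
        intro i hi
        have := hc i
        rw [HahnSeries.coeff_eq_zero_of_lt_order (hi.trans h), if_neg hi.ne] at this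
        simpa using this) (by rw [h1]; exact one_ne_zero)
      rwa [h1] at h2
    · intro h
      have h1 : b.coeff a.order = - a.leadingCoeff := by
        have := hc a.order
        rw [if_neg h.ne] at this
        rw [HahnSeries.leadingCoeff_eq]
        exact eq_neg_of_add_eq_zero_right this
      have h2 := lau_order_eq (b := b) (n := a.order) (by
        intro i hi
        have := hc i
        rw [HahnSeries.coeff_eq_zero_of_lt_order hi, if_neg (hi.trans h).ne] at this
        simpa using this) (by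
          rw [h1, neg_ne_zero]
          exact HahnSeries.leadingCoeff_ne_zero.mpr ha)
      rwa [h1] at h2
  have k1 := key a b ha hb hc
  have k2 := key b a hb ha (fun i => by rw [add_comm]; exact hc i)
  rcases lt_trichotomy a.order 0 with h | h | h
  · exact Or.inr (Or.inr (Or.inr ⟨h, k1.2 h⟩))
  · rcases lt_trichotomy b.order 0 with h' | h' | h'
    · have := (k2.2 h').1
      omega
    · refine Or.inr (Or.inr (Or.inl ⟨h, h', ?_⟩))
      rw [HahnSeries.leadingCoeff_eq, HahnSeries.leadingCoeff_eq, h, h', hc 0, if_pos rfl]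
    · exact Or.inr (Or.inl ⟨h', k2.1 h'⟩)
  · exact Or.inl ⟨h, k1.1 h⟩

/-- The valuation of the field of Laurent series: order and leading coefficient. -/
noncomputable def lauVal (K : Type u) [Field K] : DVal (LaurentSeries K) K where
  v a := a.order
  ρ :=
    { toFun := fun a => a.leadingCoeff
      map_zero' := HahnSeries.leadingCoeff_zero
      map_one' := HahnSeries.leadingCoeff_one
      map_mul' := fun x y => HahnSeries.leadingCoeff_mul x y }
  v_mul := fun _ _ ha hb => HahnSeries.order_mul ha hb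
  st := lau_st

lemma lauVal_v (a : LaurentSeries K) : (lauVal K).v a = a.order := rfl

lemma lauVal_ρ (a : LaurentSeries K) : (lauVal K).ρ a = a.leadingCoeff := rfl

/-- The variable of the field of Laurent series. -/
noncomputable def lT (K : Type u) [Field K] : LaurentSeries K := HahnSeries.single 1 1

lemma lT_ne : lT K ≠ 0 := by
  unfold lT
  rw [Ne, HahnSeries.single_eq_zero_iff]
  exact one_ne_zero

lemma lauVal_lT : (lauVal K).v (lT K) = 1 ∧ (lauVal K).ρ (lT K) = 1 := by
  refine ⟨?_, ?_⟩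
  · rw [lauVal_v]; exact HahnSeries.order_single one_ne_zero
  · rw [lauVal_ρ]; exact HahnSeries.leadingCoeff_of_single

/-- Power series with nonzero constant term are units of the valuation. -/
lemma lauVal_coe (f : PowerSeries K) (hf : PowerSeries.constantCoeff f ≠ 0) :
    (lauVal K).v (f : LaurentSeries K) = 0 ∧
      (lauVal K).ρ (f : LaurentSeries K) = PowerSeries.constantCoeff f := by
  have h0 : (f : LaurentSeries K).coeff 0 = PowerSeries.constantCoeff f := by
    rw [PowerSeries.coeff_coe]; simp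
  have h := lau_order_eq (b := (f : LaurentSeries K)) (n := 0) (by
    intro i hi
    rw [PowerSeries.coeff_coe, if_pos hi]) (by rw [h0]; exact hf)
  rw [lauVal_v, lauVal_ρ, h.1, h.2, h0]
  exact ⟨rfl, rfl⟩

/-- A power series with zero constant term and nonzero linear term. -/
lemma lauVal_coe_one (f : PowerSeries K) (hf : PowerSeries.constantCoeff f = 0)
    (hf1 : PowerSeries.coeff 1 f ≠ 0) :
    (lauVal K).v (f : LaurentSeries K) = 1 ∧
      (lauVal K).ρ (f : LaurentSeries K) = PowerSeries.coeff 1 f := by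
  have h0 : (f : LaurentSeries K).coeff 1 = PowerSeries.coeff 1 f := by
    rw [PowerSeries.coeff_coe]; simp
  have h := lau_order_eq (b := (f : LaurentSeries K)) (n := 1) (by
    intro i hi
    rw [PowerSeries.coeff_coe]
    split_ifs with h
    · rfl
    · have : i = 0 := by omega
      subst this
      simpa using hf) (by rw [h0]; exact hf1)
  rw [lauVal_v, lauVal_ρ, h.1, h.2, h0]
  exact ⟨rfl, rfl⟩

/-- An element of nonzero valuation is transcendental over a field of constants. -/
lemma DVal.transc {L : Type u} {κ : Type v} {k : Type w} [Field L] [Field κ] [Field k]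
    (D : DVal L κ) (g : k →+* L) (hg : ∀ a : k, a ≠ 0 → D.v (g a) = 0) {t : L} (ht : t ≠ 0)
    (hv : D.v t ≠ 0) {f : k[X]} (hf : f ≠ 0) : f.eval₂ g t ≠ 0 := by
  have key : ∀ t : L, t ≠ 0 → 0 < D.v t → ∀ f : k[X], f ≠ 0 → f.eval₂ g t ≠ 0 := by
    intro t ht hv f hf h
    have hc : ∀ a : k, g a ∈ D.ring := by
      intro a
      by_cases ha : a = 0
      · rw [ha, map_zero]; exact zero_mem _
      · rw [D.mem_ring ((_root_.map_ne_zero g).mpr ha), hg a ha]
    have ht' : t ∈ D.ring := by rw [D.mem_ring ht]; omega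
    have hmem : ∀ f : k[X], f.eval₂ g t ∈ D.ring := by
      intro f
      rw [eval₂_eq_sum_range]
      exact sum_mem (fun i _ => mul_mem (hc _) (pow_mem ht' i))
    have main : ∀ (n : ℕ) (f : k[X]), f.natDegree ≤ n → f ≠ 0 → f.eval₂ g t ≠ 0 := by
      intro n
      induction n with
      | zero =>
        intro f hn hf h
        rw [eq_C_of_natDegree_eq_zero (Nat.le_zero.mp hn), eval₂_C] at h
        apply hf
        rw [eq_C_of_natDegree_eq_zero (Nat.le_zero.mp hn), (map_eq_zero g).mp h, C_0]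
      | succ n ih =>
        intro f hn hf h
        have h1 := congrArg (eval₂ g t) (divX_mul_X_add f)
        rw [eval₂_add, eval₂_mul, eval₂_X, eval₂_C, h] at h1
        have hd : f.divX.natDegree ≤ n := by
          rw [natDegree_divX_eq_natDegree_tsub_one]; omega
        by_cases h0 : f.coeff 0 = 0
        · rw [h0, map_zero, add_zero] at h1
          have h2 : f.divX ≠ 0 := by
            intro h2
            apply hf
            rw [← divX_mul_X_add f, h2, h0]
            simp
          exact ih _ hd h2 ((mul_eq_zero.mp h1).resolve_right ht)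
        · have h2 : f.divX.eval₂ g t ≠ 0 := by
            intro h2
            rw [h2, zero_mul, zero_add] at h1
            exact h0 ((map_eq_zero g).mp h1)
          have h3 : g (f.coeff 0) = -(f.divX.eval₂ g t * t) := eq_neg_of_add_eq_zero_right h1
          have h4 := hg _ h0
          rw [h3, D.v_neg (mul_ne_zero h2 ht), D.v_mul _ _ h2 ht] at h4
          have h5 := (D.mem_ring h2).mp (hmem f.divX)
          omega
    exact main _ f le_rfl hf h
  rcases lt_or_gt_of_ne hv with h | h
  · intro h0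
    let _ : Invertible t := invertibleOfNonzero ht
    have h1 : f.reverse.eval₂ g (⅟t) = 0 := (eval₂_reverse_eq_zero_iff g t f).mpr h0
    rw [invOf_eq_inv] at h1
    refine key t⁻¹ (inv_ne_zero ht) (by rw [D.v_inv ht]; omega) f.reverse ?_ h1
    rwa [Ne, reverse_eq_zero]
  · exact key t ht h f hf

lemma lauVal_C {a : K} (ha : a ≠ 0) : (lauVal K).v (HahnSeries.C a : LaurentSeries K) = 0 ∧
    (lauVal K).ρ (HahnSeries.C a : LaurentSeries K) = a := by
  have h := lauVal_coe (PowerSeries.C a) (by simpa using ha)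
  rw [PowerSeries.coe_C] at h
  simpa using h

lemma lauVal_C_v (a : K) (ha : a ≠ 0) : (lauVal K).v (HahnSeries.C a : LaurentSeries K) = 0 :=
  (lauVal_C ha).1

lemma lau_aux (c : K) : ∀ y : nonZeroDivisors K[X], IsUnit
    (eval₂RingHom (HahnSeries.C : K →+* LaurentSeries K) (HahnSeries.C c + lT K) (y : K[X])) := by
  intro y
  have hy : (y : K[X]) ≠ 0 := nonZeroDivisors.ne_zero y.2
  rw [isUnit_iff_ne_zero, coe_eval₂RingHom]
  have h1 : (y : K[X]).eval₂ (HahnSeries.C : K →+* LaurentSeries K) (HahnSeries.C c + lT K) =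
      ((y : K[X]).comp (C c + X)).eval₂ (HahnSeries.C : K →+* LaurentSeries K) (lT K) := by
    rw [eval₂_comp]
    simp
  rw [h1]
  refine (lauVal K).transc _ lauVal_C_v lT_ne (by rw [lauVal_lT.1]; exact one_ne_zero) ?_
  intro h
  apply hy
  have h2 := congrArg (fun p : K[X] => p.comp (X - C c)) h
  simp only [zero_comp, comp_assoc, add_comp, C_comp, X_comp] at h2
  rwa [add_sub_cancel, comp_X] at h2

/-- The local expansion of rational functions at the point `c`. -/
noncomputable def lau (c : K) : RatFunc K →+* LaurentSeries K :=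
  IsLocalization.lift (M := nonZeroDivisors K[X]) (lau_aux c)

lemma lau_algebraMap (c : K) (f : K[X]) :
    lau c (algebraMap K[X] (RatFunc K) f) =
      f.eval₂ (HahnSeries.C : K →+* LaurentSeries K) (HahnSeries.C c + lT K) :=
  IsLocalization.lift_eq (lau_aux c) f

lemma lau_const (c a : K) : lau c (algebraMap K (RatFunc K) a) = HahnSeries.C a := by
  rw [algebraMap_ratFunc_eq, lau_algebraMap, eval₂_C]

lemma lau_X (c : K) : lau c RatFunc.X = HahnSeries.C c + lT K := by
  rw [← RatFunc.algebraMap_X, lau_algebraMap, eval₂_X]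

lemma lauInf_aux (K : Type u) [Field K] : ∀ y : nonZeroDivisors K[X], IsUnit
    (eval₂RingHom (HahnSeries.C : K →+* LaurentSeries K) (lT K)⁻¹ (y : K[X])) := by
  intro y
  have hy : (y : K[X]) ≠ 0 := nonZeroDivisors.ne_zero y.2
  rw [isUnit_iff_ne_zero, coe_eval₂RingHom]
  refine (lauVal K).transc _ lauVal_C_v (inv_ne_zero lT_ne) ?_ hy
  rw [(lauVal K).v_inv lT_ne, lauVal_lT.1]
  omega

/-- The local expansion of rational functions at infinity. -/
noncomputable def lauInf (K : Type u) [Field K] : RatFunc K →+* LaurentSeries K :=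
  IsLocalization.lift (M := nonZeroDivisors K[X]) (lauInf_aux K)

lemma lauInf_algebraMap (f : K[X]) :
    lauInf K (algebraMap K[X] (RatFunc K) f) =
      f.eval₂ (HahnSeries.C : K →+* LaurentSeries K) (lT K)⁻¹ :=
  IsLocalization.lift_eq (lauInf_aux K) f

lemma lauInf_const (a : K) : lauInf K (algebraMap K (RatFunc K) a) = HahnSeries.C a := by
  rw [algebraMap_ratFunc_eq, lauInf_algebraMap, eval₂_C]

lemma lauInf_X : lauInf K RatFunc.X = (lT K)⁻¹ := by
  rw [← RatFunc.algebraMap_X, lauInf_algebraMap, eval₂_X]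

end UnrG
end

section

section

/-!
# Unramified classes of Artin–Schreier extensions
-/

namespace UnrA.Fer

open UnrG

universe u v w z

open Polynomial Finset
open scoped Classical

variable {m : UFun.{u, z}} {F Ω : Type u} [Field F] [Field Ω] [Algebra F Ω]

/-- TASK V1. Proof: as `unr_lines` in PF/G5 (copy it; replace the three uses of `subSum_purely` by the
hypotheses; `C` takes the place of the factorial). -/
theorem lines_kill {p : ℕ}
    [Fact p.Prime] [CharP F p] {k : ℕ} [FixSp F p k] (hk : 0 < k) (T : IntermediateField F Ω)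
    [FiniteDimensional T Ω] {Y₁ Y₂ : Ω}
    (h1 : Y₁ ^ p ^ k - Y₁ ∈ T) (h2 : Y₂ ^ p ^ k - Y₂ ∈ T)
    (gen : IntermediateField.adjoin T {Y₁, Y₂} = ⊤) (z : KM m Ω) (C : ℕ)
    (e1 : ∀ c ∈ fixQ F (p ^ k), C •
      ∑ g ∈ univ.filter (fun g : Ω ≃ₐ[T] Ω =>
          g (Y₁ + algebraMap F Ω c * Y₂) = Y₁ + algebraMap F Ω c * Y₂),
        KM.map m (g : Ω →+* Ω) z = 0)
    (e2 : C • ∑ g ∈ univ.filter (fun g : Ω ≃ₐ[T] Ω => g Y₂ = Y₂), KM.map m (g : Ω →+* Ω) z = 0)
    (e3 : C • ∑ g : Ω ≃ₐ[T] Ω, KM.map m (g : Ω →+* Ω) z = 0) :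
    (p ^ k * C) • z = 0 := by
  have hg1 : ∀ g : Ω ≃ₐ[T] Ω, (g : Ω →+* Ω) (Y₁ ^ p ^ k - Y₁) = Y₁ ^ p ^ k - Y₁ := fun g =>
    g.commutes ⟨_, h1⟩
  have hg2 : ∀ g : Ω ≃ₐ[T] Ω, (g : Ω →+* Ω) (Y₂ ^ p ^ k - Y₂) = Y₂ ^ p ^ k - Y₂ := fun g =>
    g.commutes ⟨_, h2⟩
  choose b₁ hb₁ hb₁' using fun g : Ω ≃ₐ[T] Ω => as_translate (F := F) hk (hg1 g)
  choose b₂ hb₂ hb₂' using fun g : Ω ≃ₐ[T] Ω => as_translate (F := F) hk (hg2 g)
  have hY1 : ∀ g : Ω ≃ₐ[T] Ω, g Y₁ = Y₁ + algebraMap F Ω (b₁ g) := fun g => hb₁' g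
  have hY2 : ∀ g : Ω ≃ₐ[T] Ω, g Y₂ = Y₂ + algebraMap F Ω (b₂ g) := fun g => hb₂' g
  have hcF : ∀ (g : Ω ≃ₐ[T] Ω) (c : F), g (algebraMap F Ω c) = algebraMap F Ω c := fun g c =>
    g.commutes (algebraMap F T c)
  have hinj : ∀ c : F, algebraMap F Ω c = 0 ↔ c = 0 := fun c =>
    map_eq_zero_iff _ (algebraMap F Ω).injective
  have hext : ∀ g : Ω ≃ₐ[T] Ω, g Y₁ = Y₁ → g Y₂ = Y₂ → g = 1 := by
    intro g e1 e2
    apply AlgEquiv.ext
    intro x
    change g x = x
    have hx : x ∈ IntermediateField.adjoin T {Y₁, Y₂} := by rw [gen]; trivial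
    induction hx using IntermediateField.adjoin_induction with
    | mem x hx =>
      rcases hx with rfl | rfl
      · exact e1
      · exact e2
    | algebraMap x => exact g.commutes x
    | add x y _ _ hx hy => rw [map_add, hx, hy]
    | inv x _ hx => rw [map_inv₀, hx]
    | mul x y _ _ hx hy => rw [map_mul, hx, hy]
  have he : ∀ g, b₁ g = 0 ∧ b₂ g = 0 ↔ g = (1 : Ω ≃ₐ[T] Ω) := by
    intro g
    constructor
    · rintro ⟨h3, h4⟩
      apply hext
      · rw [hY1, h3, map_zero, add_zero]
      · rw [hY2, h4, map_zero, add_zero]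
    · rintro rfl
      have h3 := hY1 1
      have h4 := hY2 1
      rw [AlgEquiv.one_apply] at h3 h4
      exact ⟨(hinj _).1 (by linear_combination -h3), (hinj _).1 (by linear_combination -h4)⟩
  have key := lines_sum (S := fixQ F (p ^ k))
    (fun a ha b hb => neg_div_mem_fixQ hk ha hb) hb₁ hb₂ he
    (fun g : Ω ≃ₐ[T] Ω => KM.map m (g : Ω →+* Ω) z)
  have e1' : ∀ c ∈ fixQ F (p ^ k), C •
      ∑ g ∈ univ.filter (fun g : Ω ≃ₐ[T] Ω => b₁ g + c * b₂ g = 0),
        KM.map m (g : Ω →+* Ω) z = 0 := by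
    intro c hc
    have h3 := e1 c hc
    have h4 : univ.filter (fun g : Ω ≃ₐ[T] Ω => b₁ g + c * b₂ g = 0) =
        univ.filter (fun g : Ω ≃ₐ[T] Ω =>
          g (Y₁ + algebraMap F Ω c * Y₂) = Y₁ + algebraMap F Ω c * Y₂) := by
      refine Finset.filter_congr fun g _ => ?_
      rw [map_add, map_mul, hcF, hY1, hY2, ← hinj, map_add, map_mul]
      constructor
      · intro h5
        linear_combination h5
      · intro h5
        linear_combination h5
    rw [h4]
    exact h3
  have e2' : C •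
      ∑ g ∈ univ.filter (fun g : Ω ≃ₐ[T] Ω => b₂ g = 0), KM.map m (g : Ω →+* Ω) z = 0 := by
    have h4 : univ.filter (fun g : Ω ≃ₐ[T] Ω => b₂ g = 0) =
        univ.filter (fun g : Ω ≃ₐ[T] Ω => g Y₂ = Y₂) := by
      refine Finset.filter_congr fun g _ => ?_
      rw [hY2, ← hinj]
      constructor
      · intro h5
        linear_combination h5
      · intro h5
        linear_combination h5
    rw [h4]
    exact e2
  have e4 : KM.map m (((1 : Ω ≃ₐ[T] Ω)) : Ω →+* Ω) z = z := by
    have h3 : (((1 : Ω ≃ₐ[T] Ω)) : Ω →+* Ω) = RingHom.id Ω := rfl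
    rw [h3, KM.map_id]
    rfl
  have h6 := congrArg (fun x => C • x) key
  beta_reduce at h6
  rw [smul_add, smul_add, smul_sum, sum_eq_zero e1', e2', e3, e4, card_fixQ hk, add_zero,
    add_zero] at h6
  rw [mul_comm, mul_nsmul']
  exact h6.symm

end UnrA.Fer
end

section

/-!
# Descent along lines
-/

namespace UnrA.Fer

open UnrG

universe u v w z

open Polynomial Finset
open scoped Classical

variable {m : UFun.{u, z}} {F Ω : Type u} [Field F] [Field Ω] [Algebra F Ω]

/-- TASK V2. Proof: let `T' = T ⊔ F(Y)`. As in `subSum_purely` (PF/G4b; copy its beginning and the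
identification of the automorphisms over `T'` with those over `T` fixing `Y`) `Ω / T'` is Galois,
`d := finrank T' Ω` divides `B!`, and with `S = ∑_{g : Ω ≃ₐ[T'] Ω} g z` (the same as the sum in the
statement): `exists_trace` gives `y : KM m T'` with image `S`; `S` is unramified (PF/G4), so `d • y` is
unramified (`unr_smul_of_map`). Take `R`, `i`, `κ` from `hdesc` for `η = d • y`. For every `l`,
`(τ ^ l).comp i = i` (induction), so `KM.map m (τ ^ l) (KM.map m i κ) = KM.map m i κ`, i.e.
`KM.map m (τ ^ l) (c • d • S) = c • d • S`. Summing over `l ∈ range n`: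
`n • (c • d • S) = c • d • ∑ l, KM.map m (τ ^ l) S = c • d • ∑_g KM.map m g (∑ l, KM.map m (τ ^ l) z) = 0`,
since `τ ^ l` commutes with `g` (induction on `l` from `hτ`, `KM.map_map`). Finally
`d ∣ B!` (`Nat.dvd_factorial`). -/
theorem line_descent
    (T : IntermediateField F Ω) [FiniteDimensional T Ω] [IsGalois T Ω] {B : ℕ}
    (hB : Module.finrank T Ω ≤ B) (Y : Ω) (τ : Ω →+* Ω)
    (hτ : ∀ g : Ω ≃ₐ[T] Ω, τ.comp (g : Ω →+* Ω) = (g : Ω →+* Ω).comp τ) {n c : ℕ} {z : KM m Ω}
    (hz : Unr z) (hsum : ∑ l ∈ range n, KM.map m (τ ^ l) z = 0)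
    (hdesc : ∀ η : KM m (T ⊔ IntermediateField.adjoin F {Y} : IntermediateField F Ω), Unr η →
      ∃ (R : Type u) (_ : Field R) (i : R →+* Ω) (κ : KM m R), τ.comp i = i ∧
        KM.map m i κ =
          c • KM.map m (algebraMap (T ⊔ IntermediateField.adjoin F {Y} : IntermediateField F Ω) Ω) η) :
    (n * (c * B.factorial)) •
      ∑ g ∈ univ.filter (fun g : Ω ≃ₐ[T] Ω => g Y = Y), KM.map m (g : Ω →+* Ω) z = 0 := by
  obtain ⟨T', hT'⟩ : ∃ T' : IntermediateField F Ω, T' = T ⊔ IntermediateField.adjoin F {Y} :=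
    ⟨_, rfl⟩
  rw [← hT'] at hdesc
  have hle : T ≤ T' := by
    rw [hT']
    exact le_sup_left
  have hY : Y ∈ T' := by
    rw [hT']
    exact (le_sup_right : IntermediateField.adjoin F {Y} ≤ T ⊔ IntermediateField.adjoin F {Y})
      (IntermediateField.mem_adjoin_simple_self F Y)
  let _ : Algebra T T' := (IntermediateField.inclusion hle).toRingHom.toAlgebra
  have : IsScalarTower T T' Ω := IsScalarTower.of_algebraMap_eq fun x => rfl
  have : IsGalois T' Ω := IsGalois.tower_top_of_isGalois T T' Ω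
  have : FiniteDimensional T' Ω := Module.Finite.of_restrictScalars_finite T T' Ω
  have hpos : 0 < Module.finrank T' Ω := Module.finrank_pos
  have hfin : Module.finrank T' Ω ≤ B := by
    refine le_trans ?_ hB
    have : FiniteDimensional T T' :=
      FiniteDimensional.of_injective (IsScalarTower.toAlgHom T T' Ω).toLinearMap
        (IsScalarTower.toAlgHom T T' Ω).injective
    have hfree : Module.Free T T' := Module.Free.of_divisionRing T T'
    have hfree' : Module.Free T' Ω := Module.Free.of_divisionRing T' Ω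
    have hmul := Module.finrank_mul_finrank T T' Ω
    rw [← hmul]
    exact Nat.le_mul_of_pos_left _ Module.finrank_pos
  have h2 : ∑ g : Ω ≃ₐ[T'] Ω, KM.map m (g : Ω →+* Ω) z =
      ∑ g ∈ univ.filter (fun g : Ω ≃ₐ[T] Ω => g Y = Y), KM.map m (g : Ω →+* Ω) z := by
    refine Finset.sum_bij (fun g _ => g.restrictScalars T) ?_ ?_ ?_ ?_
    · intro g _
      rw [mem_filter]
      exact ⟨mem_univ _, g.commutes ⟨Y, hY⟩⟩
    · intro g _ g' _ h3
      refine AlgEquiv.ext fun x => ?_
      exact DFunLike.congr_fun h3 x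
    · intro g hg
      rw [mem_filter] at hg
      obtain ⟨S, hS⟩ : ∃ S : IntermediateField F Ω, ∀ x, x ∈ S ↔ g x = x :=
        ⟨{ carrier := {x | g x = x}
           mul_mem' := fun {x y} hx hy => by
             change g (x * y) = x * y
             rw [map_mul, show g x = x from hx, show g y = y from hy]
           add_mem' := fun {x y} hx hy => by
             change g (x + y) = x + y
             rw [map_add, show g x = x from hx, show g y = y from hy]
           algebraMap_mem' := fun c => g.commutes (algebraMap F T c)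
           inv_mem' := fun x hx => by
             change g x⁻¹ = x⁻¹
             rw [map_inv₀, show g x = x from hx] }, fun x => Iff.rfl⟩
      have hS' : T' ≤ S := by
        rw [hT']
        refine sup_le (fun x hx => (hS x).mpr (g.commutes ⟨x, hx⟩)) ?_
        rw [IntermediateField.adjoin_simple_le_iff]
        exact (hS Y).mpr hg.2
      refine ⟨{ (g : Ω ≃+* Ω) with commutes' := fun x => (hS _).mp (hS' x.2) }, mem_univ _, ?_⟩
      exact AlgEquiv.ext fun x => rfl
    · intro g _
      rfl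
  obtain ⟨y, hy⟩ := exists_trace (K := T') (L := Ω) z
  obtain ⟨S, hS⟩ : ∃ S : KM m Ω, S = ∑ g : Ω ≃ₐ[T'] Ω, KM.map m (g : Ω →+* Ω) z := ⟨_, rfl⟩
  have hSu : Unr S := by
    rw [hS]
    exact Unr.sum fun c _ => hz.map _
  rw [← hS] at hy
  have hu : Unr (Module.finrank T' Ω • y) := unr_smul_of_map (by rw [hy]; exact hSu)
  obtain ⟨R, _, i, κ, hτi, hκ⟩ := hdesc _ hu
  have hpow : ∀ l : ℕ, (τ ^ l).comp i = i := by
    intro l
    induction l with
    | zero => rfl
    | succ l ih =>
      have h3 : (τ ^ (l + 1)).comp i = (τ ^ l).comp (τ.comp i) := by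
        rw [pow_succ]
        rfl
      rw [h3, hτi, ih]
  have hcomm : ∀ (l : ℕ) (g : Ω ≃ₐ[T] Ω),
      (τ ^ l).comp (g : Ω →+* Ω) = (g : Ω →+* Ω).comp (τ ^ l) := by
    intro l g
    induction l with
    | zero => rfl
    | succ l ih =>
      have h3 : (τ ^ (l + 1)).comp (g : Ω →+* Ω) = (τ ^ l).comp (τ.comp (g : Ω →+* Ω)) := by
        rw [pow_succ]
        rfl
      have h4 : (g : Ω →+* Ω).comp (τ ^ (l + 1)) = ((g : Ω →+* Ω).comp (τ ^ l)).comp τ := by
        rw [pow_succ]
        rfl
      rw [h3, hτ g, h4, ← ih]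
      rfl
  have hfix : ∀ l : ℕ, KM.map m (τ ^ l) (c • (Module.finrank T' Ω • S)) =
      c • (Module.finrank T' Ω • S) := by
    intro l
    have h3 : c • (Module.finrank T' Ω • S) = KM.map m i κ := by
      rw [hκ, map_nsmul, hy]
    rw [h3, KM.map_map, hpow l]
  have hzero : ∑ l ∈ range n, KM.map m (τ ^ l) S = 0 := by
    have h3 : ∀ l, KM.map m (τ ^ l) S =
        ∑ g ∈ univ.filter (fun g : Ω ≃ₐ[T] Ω => g Y = Y),
          KM.map m (g : Ω →+* Ω) (KM.map m (τ ^ l) z) := by
      intro l
      rw [hS, h2, map_sum]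
      refine Finset.sum_congr rfl fun g _ => ?_
      rw [KM.map_map, KM.map_map, hcomm]
    rw [Finset.sum_congr rfl fun l _ => h3 l, Finset.sum_comm]
    refine Finset.sum_eq_zero fun g _ => ?_
    rw [← map_sum, hsum, map_zero]
  have hfinal : n • (c • (Module.finrank T' Ω • S)) = 0 := by
    have h3 : ∑ l ∈ range n, KM.map m (τ ^ l) (c • (Module.finrank T' Ω • S)) =
        n • (c • (Module.finrank T' Ω • S)) := by
      rw [Finset.sum_congr rfl fun l _ => hfix l, Finset.sum_const, Finset.card_range]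
    rw [← h3]
    have h4 : ∀ l, KM.map m (τ ^ l) (c • (Module.finrank T' Ω • S)) =
        c • (Module.finrank T' Ω • KM.map m (τ ^ l) S) := by
      intro l
      rw [map_nsmul, map_nsmul]
    rw [Finset.sum_congr rfl fun l _ => h4 l, ← Finset.smul_sum, ← Finset.smul_sum, hzero,
      smul_zero, smul_zero]
  rw [← h2, ← hS]
  obtain ⟨q, hq⟩ := Nat.dvd_factorial hpos hfin
  have h5 : n * (c * B.factorial) = q * (n * (c * Module.finrank T' Ω)) := by
    rw [hq]
    ring
  rw [h5, mul_nsmul', mul_nsmul', mul_nsmul', hfinal, nsmul_zero]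

end UnrA.Fer
end

section

/-!
# The monomial identity with a twist
-/

namespace UnrA.Fer

open UnrG

universe u v w z

open Polynomial Finset
open scoped Classical

variable {𝔽 : Type w} [Field 𝔽] [Fintype 𝔽] (b : Base 𝔽)

variable {F L : Type u} [Field F] [Field L] [Algebra F L] {ι : 𝔽 →+* F} {r n : ℕ}
  {t : Fin r → L} {a x : Fin (n + 2) → L}

/-- the truncated sums of the exponents -/
private def pS {N n : ℕ} (α : Fin (n + 2) → ZMod N) (k : Fin (n + 1)) : ZMod N :=
  ∑ i ∈ univ.filter (fun i => i ≤ k.castSucc), α i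

private lemma filter_succ {n : ℕ} (j : Fin (n + 1)) :
    (univ.filter (fun i : Fin (n + 2) => i ≤ j.succ)) =
      insert j.succ (univ.filter (fun i : Fin (n + 2) => i ≤ j.castSucc)) := by
  ext i
  simp only [mem_filter, mem_univ, true_and, mem_insert, Fin.le_def, Fin.ext_iff, Fin.val_succ,
    Fin.val_castSucc]
  omega

private lemma sum_succ {N n : ℕ} (α : Fin (n + 2) → ZMod N) (j : Fin (n + 1)) :
    ∑ i ∈ univ.filter (fun i : Fin (n + 2) => i ≤ j.succ), α i = pS α j + α j.succ := by
  rw [filter_succ, sum_insert, add_comm]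
  · rfl
  · simp only [mem_filter, mem_univ, true_and, Fin.le_def, Fin.val_succ, Fin.val_castSucc]
    omega

private lemma pS_succ {N n : ℕ} (α : Fin (n + 2) → ZMod N) (j : Fin n) :
    pS α j.succ = pS α j.castSucc + α j.castSucc.succ :=
  sum_succ α j.castSucc

private lemma pS_last {N n : ℕ} {α : Fin (n + 2) → ZMod N} (hα : ∑ i, α i = 0) :
    pS α (Fin.last n) + α (Fin.last (n + 1)) = 0 := by
  have h1 := sum_succ α (Fin.last n)
  have h2 : (univ.filter (fun i : Fin (n + 2) => i ≤ (Fin.last n).succ)) = univ := by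
    ext i
    simp [Fin.le_last]
  rw [h2, hα] at h1
  exact h1.symm

private lemma exists_quot {N : ℕ} [NeZero N] {p q s : ZMod N} (h : p + q = s) :
    ∃ e : ℕ, p.val + q.val = s.val + N * e := by
  have h1 : ((p.val + q.val : ℕ) : ZMod N) = s := by
    rw [Nat.cast_add, ZMod.natCast_zmod_val, ZMod.natCast_zmod_val, h]
  have h2 : (p.val + q.val) % N = s.val := by
    rw [← h1, ZMod.val_natCast]
  exact ⟨(p.val + q.val) / N, by rw [← h2]; exact (Nat.mod_add_div _ _).symm⟩

/-- The monomial identity with a twist. -/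
theorem mono_identity_twist (h : DiagData b t (F := F) a x) {α : Fin (n + 2) → ZMod b.N}
    (hα : ∑ i, α i = 0) :
    ∃ c : L, c ∈ fieldK b F t x ∧ c ≠ 0 ∧
      ∏ j, (coordU b.N a x j ^ expB α j * (1 - coordU b.N a x j) ^ expA α j) =
        (-1) ^ (α (Fin.last (n + 1))).val * (∏ i, a i ^ (α i).val) * (c * wmon x α) ^ b.N := by
  obtain ⟨δ, hδ⟩ : ∃ δ, δ = ∏ i, a i ^ (α i).val := ⟨_, rfl⟩
  rw [← hδ]
  set T : Fin (n + 1) → L := fun k => partS b.N a x k.castSucc with hT
  have hT0 : ∀ k, T k ≠ 0 := fun k => partS_ne b h k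
  set s : Fin (n + 2) → L := fun i => a i * x i ^ b.N / a 0 with hs
  have ha0 := h.a_ne 0
  -- quotients
  have hq : ∀ j : Fin n, ∃ e : ℕ, (pS α j.castSucc).val + (α j.castSucc.succ).val =
      (pS α j.succ).val + b.N * e := fun j => exists_quot (pS_succ α j).symm
  choose e he using hq
  obtain ⟨e', he'⟩ := exists_quot (pS_last hα)
  rw [ZMod.val_zero, zero_add] at he'
  obtain ⟨M, hM⟩ : ∃ M : ℕ, ∑ i, (α i).val = b.N * M := by
    have h1 : ((∑ i, (α i).val : ℕ) : ZMod b.N) = 0 := by
      rw [Nat.cast_sum, ← hα]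
      exact sum_congr rfl fun i _ => ZMod.natCast_zmod_val _
    exact (ZMod.natCast_eq_zero_iff _ _).1 h1
  -- the last summand
  have hlast : s (Fin.last (n + 1)) = -T (Fin.last n) := by
    have h1 := partS_succ b.N a x (Fin.last n)
    have h2 : partS b.N a x (Fin.last n).succ = 0 := partS_last b h
    rw [h2] at h1
    have h3 : T (Fin.last n) + s (Fin.last (n + 1)) = 0 := h1.symm
    linear_combination h3
  have hs0 : s 0 = 1 := by
    simp only [hs]
    rw [h.x_zero, one_pow, mul_one, div_self ha0]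
  -- the product of the powers of the summands
  have hprod : ∏ i, s i ^ (α i).val = δ * (wmon x α / a 0 ^ M) ^ b.N := by
    simp only [hs]
    have h1 : ∀ i, (a i * x i ^ b.N / a 0) ^ (α i).val =
        a i ^ (α i).val * (x i ^ (α i).val) ^ b.N / a 0 ^ (α i).val := by
      intro i
      rw [div_pow, mul_pow, ← pow_mul, ← pow_mul, mul_comm b.N]
    rw [prod_congr rfl fun i _ => h1 i, prod_div_distrib, prod_mul_distrib, ← hδ, prod_pow,
      prod_pow_eq_pow_sum, hM, div_pow, ← pow_mul, mul_comm M, mul_div_assoc]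
    rfl
  have hprod2 : ∏ i, s i ^ (α i).val =
      (∏ j : Fin n, s j.castSucc.succ ^ (α j.castSucc.succ).val) *
        (-T (Fin.last n)) ^ (α (Fin.last (n + 1))).val := by
    rw [Fin.prod_univ_succ, hs0, one_pow, one_mul, Fin.prod_univ_castSucc, ← hlast]
    rfl
  -- the factors
  have hU : ∀ j : Fin n, coordU b.N a x j = T j.castSucc / T j.succ := fun j => rfl
  have hV : ∀ j : Fin n, 1 - coordU b.N a x j = s j.castSucc.succ / T j.succ := fun j =>
    one_sub_coordU b h j
  have hfac : ∀ j : Fin n, coordU b.N a x j ^ expB α j * (1 - coordU b.N a x j) ^ expA α j =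
      s j.castSucc.succ ^ (α j.castSucc.succ).val *
        (T j.castSucc ^ (pS α j.castSucc).val / T j.succ ^ (pS α j.succ).val) *
          ((T j.succ ^ e j)⁻¹) ^ b.N := by
    intro j
    have h1 : expB α j = (pS α j.castSucc).val := rfl
    have h2 : expA α j = (α j.castSucc.succ).val := rfl
    rw [hU, div_pow]
    rw [← hU, hV, div_pow, h1, h2]
    have h3 : T j.succ ^ (pS α j.castSucc).val * T j.succ ^ (α j.castSucc.succ).val =
        T j.succ ^ (pS α j.succ).val * (T j.succ ^ e j) ^ b.N := by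
      rw [← pow_add, he j, pow_add, ← pow_mul, mul_comm b.N]
    have h4 := hT0 j.succ
    rw [inv_pow]
    rw [div_mul_div_comm, h3]
    have h5 : T j.succ ^ (pS α j.succ).val ≠ 0 := pow_ne_zero _ h4
    have h6 : (T j.succ ^ e j) ^ b.N ≠ 0 := pow_ne_zero _ (pow_ne_zero _ h4)
    field_simp
  have htel : ∏ j : Fin n, (T j.castSucc ^ (pS α j.castSucc).val / T j.succ ^ (pS α j.succ).val) =
      (T (Fin.last n) ^ (pS α (Fin.last n)).val)⁻¹ := by
    have h1 := Fin.prod_univ_succ (fun k : Fin (n + 1) => T k ^ (pS α k).val)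
    rw [Fin.prod_univ_castSucc] at h1
    have h2 : T 0 = 1 := partS_zero b h
    rw [h2, one_pow, one_mul] at h1
    have h3 : ∏ j : Fin n, T j.succ ^ (pS α j.succ).val ≠ 0 :=
      prod_ne_zero_iff.2 fun j _ => pow_ne_zero _ (hT0 _)
    have h4 : T (Fin.last n) ^ (pS α (Fin.last n)).val ≠ 0 := pow_ne_zero _ (hT0 _)
    rw [prod_div_distrib, ← h1, div_eq_iff (by rw [h1]; exact h3)]
    field_simp
  refine ⟨(a 0 ^ M)⁻¹ * (T (Fin.last n) ^ e')⁻¹ * ∏ j : Fin n, (T j.succ ^ e j)⁻¹,
    ?_, ?_, ?_⟩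
  · have ht : ∀ z ∈ IntermediateField.adjoin F (Set.range t), z ∈ fieldK b F t x := by
      intro z hz
      refine (IntermediateField.adjoin_le_iff.2 ?_) hz
      intro y hy
      exact IntermediateField.subset_adjoin F _ (Or.inl hy)
    have hTm : ∀ k, T k ∈ fieldK b F t x := fun k => partS_mem b h _
    refine mul_mem (mul_mem (inv_mem (pow_mem (ht _ (h.a_mem 0)) _))
      (inv_mem (pow_mem (hTm _) _))) (prod_mem fun j _ => inv_mem (pow_mem (hTm _) _))
  · refine mul_ne_zero (mul_ne_zero (inv_ne_zero (pow_ne_zero _ ha0))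
      (inv_ne_zero (pow_ne_zero _ (hT0 _)))) (prod_ne_zero_iff.2 fun j _ =>
        inv_ne_zero (pow_ne_zero _ (hT0 _)))
  · rw [prod_congr rfl fun j _ => hfac j, prod_mul_distrib, prod_mul_distrib, htel, prod_pow]
    have h1 := hprod2.symm.trans hprod
    have h2 : (-T (Fin.last n)) ^ (α (Fin.last (n + 1))).val =
        (-1) ^ (α (Fin.last (n + 1))).val * T (Fin.last n) ^ (α (Fin.last (n + 1))).val := by
      rw [← neg_one_mul, mul_pow]
    rw [h2] at h1
    have h3 : T (Fin.last n) ^ (pS α (Fin.last n)).val *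
        T (Fin.last n) ^ (α (Fin.last (n + 1))).val = (T (Fin.last n) ^ e') ^ b.N := by
      rw [← pow_add, he', ← pow_mul, mul_comm b.N]
    have h4 : T (Fin.last n) ^ (pS α (Fin.last n)).val ≠ 0 := pow_ne_zero _ (hT0 _)
    have h5 : T (Fin.last n) ^ (α (Fin.last (n + 1))).val ≠ 0 := pow_ne_zero _ (hT0 _)
    have h6 : ((-1 : L) ^ (α (Fin.last (n + 1))).val) * (-1) ^ (α (Fin.last (n + 1))).val = 1 := by
      rw [← mul_pow]; simp
    set P := ∏ j : Fin n, s j.castSucc.succ ^ (α j.castSucc.succ).val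
    set R := ∏ j : Fin n, (T j.succ ^ e j)⁻¹
    set ep : L := (-1 : L) ^ (α (Fin.last (n + 1))).val
    set X1 := T (Fin.last n) ^ (pS α (Fin.last n)).val
    set X2 := T (Fin.last n) ^ (α (Fin.last (n + 1))).val
    have h7 : ep * δ * ((a 0 ^ M)⁻¹ * (T (Fin.last n) ^ e')⁻¹ * R * wmon x α) ^ b.N =
        ep * (δ * (wmon x α / a 0 ^ M) ^ b.N) * ((T (Fin.last n) ^ e') ^ b.N)⁻¹ * R ^ b.N := by
      have h8 : (a 0 ^ M)⁻¹ * (T (Fin.last n) ^ e')⁻¹ * R * wmon x α =
          wmon x α / a 0 ^ M * (T (Fin.last n) ^ e')⁻¹ * R := by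
        rw [div_eq_mul_inv]
        ring
      rw [h8, mul_pow, mul_pow, inv_pow]
      ring
    rw [h7, ← h1, ← h3]
    rw [mul_inv]
    have h8 : X2 * X2⁻¹ = 1 := mul_inv_cancel₀ h5
    linear_combination (-(P * X1⁻¹ * R ^ b.N) * (X2 * X2⁻¹)) * h6 - (P * X1⁻¹ * R ^ b.N) * h8

end UnrA.Fer
end
end
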