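import Pool.Agent.Lib.MP_859dd5_ag.Mg.G058
import Pool.Agent.Lib.MP_859dd5_ag.Mg.G069
import Pool.Agent.Lib.MP_859dd5_ag.K.Graded
import Pool.Agent.Lib.MP_859dd5_ag.EQ.Fun
import Pool.Agent.Lib.MP_859dd5_ag.Mg.G068
import Pool.Agent.Lib.MP_859dd5_ag.PQ.E0

section

/-!
# The decomposition of a class
-/

namespace UnrG

universe u v w

open Polynomial Finset
open scoped Classical

variable {m : ℕ} {𝔽 : Type w} [Field 𝔽] [Fintype 𝔽] (b : Base 𝔽)

variable {F L : Type u} [Field F] [Field L] [Algebra F L] {ι : 𝔽 →+* F} {r n : ℕ}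
  {t : Fin r → L} {a x : Fin (n + 2) → L}

private lemma D2_zero_mem : (0 : Fin (n + 2) → ZMod b.N) ∈ admSet b ι t x :=
  (mem_admSet b ι).mpr ⟨RingHom.id L, IsAdm.id' b⟩

private lemma D2_adm_zero (h : DiagData b t (F := F) a x) : adm b ι t x 0 = RingHom.id L :=
  (isAdm_adm b ι (D2_zero_mem b)).unique b h (IsAdm.id' b)

private lemma D2_pair_cons (s : ZMod b.N) (e : Fin (n + 1) → ZMod b.N)
    {c : Fin (n + 2) → ZMod b.N} (hc : c 0 = 0) :
    pair (Fin.cons s e : Fin (n + 2) → ZMod b.N) c = ∑ j, e j * c j.succ := by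
  unfold pair
  rw [Fin.sum_univ_succ, hc, mul_zero, zero_add]
  simp only [Fin.cons_succ]

/-- The decomposition of a class. Proof: exchange the sums; the coefficient of the class
`adm c ξ` is `∑ e, w (∑ j, e j * c j.succ)` because `c 0 = 0` (`IsAdm.zero_eq`), which is zero unless
`c = 0` (`Weight.sum_all`), and then it is `N ^ (n + 1)`; `adm 0 = id` (`IsAdm.unique`,
`IsAdm.id'`). -/
theorem sum_vv (h : DiagData b t (F := F) a x) {w : ZMod b.N → ℤ} (hw : Weight b.N w)
    (ξ : KM m L) :
    ∑ e : Fin (n + 1) → ZMod b.N, vv b ι t x w (Fin.cons (-∑ j, e j) e) ξ =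
      ((b.N : ℤ) ^ (n + 1)) • ξ := by
  unfold vv
  rw [Finset.sum_comm]
  have h1 : ∀ c ∈ admSet b ι t x,
      ∑ e : Fin (n + 1) → ZMod b.N, w (pair (Fin.cons (-∑ j, e j) e : Fin (n + 2) → ZMod b.N) c) •
        KM.map m (adm b ι t x c) ξ =
      if c = 0 then ((b.N : ℤ) ^ (n + 1)) • ξ else 0 := by
    intro c hc
    have h0 : c 0 = 0 := (isAdm_adm b ι hc).zero_eq b h
    rw [← Finset.sum_smul]
    have h2 : ∀ e : Fin (n + 1) → ZMod b.N,
        w (pair (Fin.cons (-∑ j, e j) e : Fin (n + 2) → ZMod b.N) c) =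
          w (∑ j, e j * c j.succ) := fun e => by rw [D2_pair_cons b _ e h0]
    have h3 : ∑ e : Fin (n + 1) → ZMod b.N, w (∑ j, e j * c j.succ) = _ :=
      (Finset.sum_congr (Finset.ext fun e => by simp) fun _ _ => rfl).trans
        (hw.sum_all (fun j : Fin (n + 1) => c j.succ))
    rw [Finset.sum_congr rfl fun e _ => h2 e, h3]
    by_cases hc0 : c = 0
    · rw [if_pos hc0, if_pos (by rw [hc0]; rfl), Fintype.card_fin, hc0, D2_adm_zero b h, KM.map_id]
      rfl
    · rw [if_neg hc0, if_neg, zero_smul]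
      intro h3
      refine hc0 (funext fun i => ?_)
      refine Fin.cases h0 (fun j => ?_) i
      exact congrFun h3 j
  rw [Finset.sum_congr rfl h1, Finset.sum_ite_eq', if_pos (D2_zero_mem b)]

private lemma D2_map_adm (h : DiagData b t (F := F) a x) {w : ZMod b.N → ℤ}
    {α c₀ : Fin (n + 2) → ZMod b.N} {f : L →+* L} (hf : IsAdm b ι t x c₀ f) (ξ : KM m L) :
    KM.map m f (vv b ι t x w α ξ) =
      ∑ c ∈ admSet b ι t x, w (pair α c - pair α c₀) • KM.map m (adm b ι t x c) ξ := by
  have hc₀ : c₀ ∈ admSet b ι t x := (mem_admSet b ι).mpr ⟨f, hf⟩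
  rw [← sum_admSet_add b hc₀]
  unfold vv
  rw [map_sum]
  refine Finset.sum_congr rfl fun c hc => ?_
  rw [map_zsmul, KM.map_map]
  have h1 : f.comp (adm b ι t x c) = adm b ι t x (c + c₀) := by
    refine (hf.comp b (isAdm_adm b ι hc)).unique b h ?_
    rw [add_comm c₀ c]
    exact isAdm_adm b ι (add_mem_admSet b hc hc₀)
  have h2 : pair α (c + c₀) - pair α c₀ = pair α c := by
    unfold pair
    simp only [Pi.add_apply, mul_add, Finset.sum_add_distrib, add_sub_cancel_right]
  rw [h1, h2]

/-- The sums over nontrivial diagonal automorphisms vanish. Proof: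
`KM.map (f ^ i) (vv α ξ) = ∑ c, w (pair α c) • KM.map (adm (i • c₀ + c)) ξ
= ∑ c, w (pair α c - i * pair α c₀) • KM.map (adm c) ξ` (`sum_admSet_add`), and
`∑ i ∈ range N, w (k' - i * k) = 0` for `k = pair α c₀ ≠ 0` (`Weight.sum` for `-k`). -/
theorem sum_pow_vv (h : DiagData b t (F := F) a x) {w : ZMod b.N → ℤ} (hw : Weight b.N w)
    {α c₀ : Fin (n + 2) → ZMod b.N} {f : L →+* L} (hf : IsAdm b ι t x c₀ f)
    (hk : pair α c₀ ≠ 0) (ξ : KM m L) :
    ∑ i ∈ range b.N, KM.map m (f ^ i) (vv b ι t x w α ξ) = 0 := by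
  rw [Finset.sum_congr rfl fun i _ => D2_map_adm b h (w := w) (α := α) (hf.pow b i) ξ,
    Finset.sum_comm]
  refine Finset.sum_eq_zero fun c _ => ?_
  rw [← Finset.sum_smul]
  have h1 : ∀ i : ℕ, w (pair α c - pair α (i • c₀)) = w (pair α c + i * (-pair α c₀)) := by
    intro i
    congr 1
    unfold pair
    simp only [Pi.smul_apply, nsmul_eq_mul]
    have h2 : ∀ j, α j * ((i : ZMod b.N) * c₀ j) = (i : ZMod b.N) * (α j * c₀ j) := fun j => by ring
    rw [Finset.sum_congr rfl fun j _ => h2 j, ← Finset.mul_sum]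
    ring
  rw [Finset.sum_congr rfl fun i _ => h1 i, hw.sum _ (neg_ne_zero.mpr hk), zero_smul]

/-- Compatibility with homomorphisms commuting with the diagonal automorphisms. -/
private lemma D2_map_vv {σ : L →+* L} (w : ZMod b.N → ℤ)
    (hσ : ∀ c ∈ admSet b ι t x, σ.comp (adm b ι t x c) = (adm b ι t x c).comp σ)
    (α : Fin (n + 2) → ZMod b.N) (ξ : KM m L) :
    KM.map m σ (vv b ι t x w α ξ) = vv b ι t x w α (KM.map m σ ξ) := by
  unfold vv
  rw [map_sum]
  refine Finset.sum_congr rfl fun c hc => ?_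
  rw [map_zsmul, KM.map_map, KM.map_map, hσ c hc]

/-- Classes invariant under a diagonal automorphism acting nontrivially on the monomial. Proof:
`f (vv α ξ) = vv α (f ξ) = vv α ξ` since diagonal automorphisms commute; now `sum_pow_vv`. -/
theorem vv_eq_zero_of_inv (h : DiagData b t (F := F) a x) {w : ZMod b.N → ℤ}
    (hw : Weight b.N w) {α c₀ : Fin (n + 2) → ZMod b.N} {f : L →+* L}
    (hf : IsAdm b ι t x c₀ f) (hk : pair α c₀ ≠ 0) {ξ : KM m L} (hξ : KM.map m f ξ = ξ) :
    b.N • vv b ι t x w α ξ = 0 := by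
  have h1 : KM.map m f (vv b ι t x w α ξ) = vv b ι t x w α ξ := by
    rw [D2_map_vv b w (fun c hc => ?_), hξ]
    refine (hf.comp b (isAdm_adm b ι hc)).unique b h ?_
    rw [add_comm]
    exact (isAdm_adm b ι hc).comp b hf
  have h2 : ∀ i : ℕ, KM.map m (f ^ i) (vv b ι t x w α ξ) = vv b ι t x w α ξ := by
    intro i
    induction i with
    | zero =>
      rw [pow_zero]
      change KM.map m (RingHom.id L) _ = _
      rw [KM.map_id]
      rfl
    | succ i ih =>
      rw [pow_succ]
      change KM.map m ((f ^ i).comp f) _ = _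
      rw [← KM.map_map, h1, ih]
  have h3 := sum_pow_vv b h hw hf hk ξ
  rw [Finset.sum_congr rfl fun i _ => h2 i, Finset.sum_const, Finset.card_range] at h3
  exact h3

/-- Compatibility with homomorphisms commuting with the diagonal automorphisms. -/
lemma map_vv {σ : L →+* L} (w : ZMod b.N → ℤ)
    (hσ : ∀ c ∈ admSet b ι t x, σ.comp (adm b ι t x c) = (adm b ι t x c).comp σ)
    (α : Fin (n + 2) → ZMod b.N) (ξ : KM m L) :
    KM.map m σ (vv b ι t x w α ξ) = vv b ι t x w α (KM.map m σ ξ) := D2_map_vv b w hσ α ξ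

lemma vv_zsmul (w : ZMod b.N → ℤ) (α : Fin (n + 2) → ZMod b.N) (ξ : KM m L) (k : ℤ) :
    vv b ι t x w α (k • ξ) = k • vv b ι t x w α ξ := by
  unfold vv
  rw [Finset.smul_sum]
  refine Finset.sum_congr rfl fun c _ => ?_
  rw [map_zsmul, smul_comm]

private lemma D2_ext (h : DiagData b t (F := F) a x) {f g : L →+* L}
    (h1 : ∀ c : F, f (algebraMap F L c) = g (algebraMap F L c)) (h2 : ∀ i, f (t i) = g (t i))
    (h3 : ∀ i, f (x i) = g (x i)) : f = g := by
  have hle : IntermediateField.adjoin F (Set.range t ∪ Set.range x) ≤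
      (RingHom.eqLocusField f g).toIntermediateField h1 := by
    rw [IntermediateField.adjoin_le_iff]
    rintro _ (⟨i, rfl⟩ | ⟨i, rfl⟩)
    · exact h2 i
    · exact h3 i
  ext z
  have hz : z ∈ IntermediateField.adjoin F (Set.range t ∪ Set.range x) := by
    rw [h.gen]; trivial
  exact hle hz

/-- Hint: on constants both composites are `a ↦ a ^ q`; `σ ζ = ζ ^ q = ζ`. -/
lemma SigmaL.comm (h : DiagData b t (F := F) a x) {σ : L →+* L} (hσ : SigmaL b F t a x σ)
    {c : Fin (n + 2) → ZMod b.N} {f : L →+* L} (hf : IsAdm b ι t x c f) :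
    σ.comp f = f.comp σ := by
  refine D2_ext b h (fun c => ?_) (fun i => ?_) (fun i => ?_)
  · rw [RingHom.comp_apply, RingHom.comp_apply, hf.const, hσ.const, map_pow, hf.const]
  · rw [RingHom.comp_apply, RingHom.comp_apply, hf.ft, hσ.ft, hf.ft]
  · have hz : (algebraMap F L (ι b.ζ)) ^ b.q = algebraMap F L (ι b.ζ) := by
      rw [← map_pow, ← map_pow, b.pow_q]
    rw [RingHom.comp_apply, RingHom.comp_apply, hf.fx, map_mul, map_pow, hσ.const, hσ.fx, hf.fx,
      hz]

/-- Unramified classes. -/
lemma unr_vv (w : ZMod b.N → ℤ) (α : Fin (n + 2) → ZMod b.N) {ξ : KM m L} (hξ : Unr ξ) :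
    Unr (vv b ι t x w α ξ) := by
  intro A hA
  exact sum_mem fun c _ => zsmul_mem ((hξ.map (adm b ι t x c)) A hA) _

end UnrG
end

section

/-!
# Unramified classes of simple transcendental extensions
-/

namespace UnrG

universe u v w

open Polynomial Finset
open scoped Classical

variable {m : ℕ}

/-- A simple transcendental extension is isomorphic to the field of rational functions. Hint:
`IsFractionRing.lift`/`IsLocalization.lift` as in `LauDef.lean` (`lau`); surjective because the
range is a subfield containing the generators. -/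
lemma exists_ratFunc_equiv {K T : Type u} [Field K] [Field T] (j : K →+* T) {t : T}
    (ht : ∀ f : K[X], f ≠ 0 → f.eval₂ j t ≠ 0) (hT : Subfield.closure (Set.range j ∪ {t}) = ⊤) :
    ∃ e : RatFunc K ≃+* T, (e : RatFunc K →+* T).comp (algebraMap K (RatFunc K)) = j ∧
      e RatFunc.X = t := by
  have haux : ∀ y : nonZeroDivisors K[X], IsUnit (eval₂RingHom j t (y : K[X])) := fun y =>
    isUnit_iff_ne_zero.mpr (ht _ (nonZeroDivisors.ne_zero y.2))
  let g : RatFunc K →+* T := IsLocalization.lift (M := nonZeroDivisors K[X]) haux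
  have hg : ∀ f : K[X], g (algebraMap K[X] (RatFunc K) f) = f.eval₂ j t := fun f =>
    IsLocalization.lift_eq haux f
  have hgc : ∀ a, g (algebraMap K (RatFunc K) a) = j a := by
    intro a
    rw [algebraMap_ratFunc_eq, hg, eval₂_C]
  have hgX : g RatFunc.X = t := by
    rw [← RatFunc.algebraMap_X, hg, eval₂_X]
  have hsurj : Function.Surjective g := by
    have h1 : Subfield.closure (Set.range j ∪ {t}) ≤ g.fieldRange := by
      rw [Subfield.closure_le]
      rintro z (⟨a, rfl⟩ | hz)
      · exact ⟨_, hgc a⟩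
      · rw [Set.mem_singleton_iff] at hz
        subst hz
        exact ⟨_, hgX⟩
    rw [hT] at h1
    intro z
    exact h1 (Subfield.mem_top z)
  refine ⟨RingEquiv.ofBijective g ⟨g.injective, hsurj⟩, ?_, ?_⟩
  · ext a
    exact hgc a
  · exact hgX

/-- Unramified classes of a simple transcendental extension are constant. Hint: `unr_ratFunc`
transported by `exists_ratFunc_equiv` (`Unr.map` for the inverse isomorphism, `KM.map_map`). -/
theorem unr_transc (hm : Any m) {K T : Type u} [Field K] [Field T] (j : K →+* T) {t : T}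
    (ht : ∀ f : K[X], f ≠ 0 → f.eval₂ j t ≠ 0) (hT : Subfield.closure (Set.range j ∪ {t}) = ⊤)
    {ξ : KM m T} (hξ : Unr ξ) : ∃ y : KM m K, Unr y ∧ KM.map m j y = ξ := by
  obtain ⟨e, he, _⟩ := exists_ratFunc_equiv j ht hT
  obtain ⟨y, hy, hye⟩ := unr_ratFunc hm (x := KM.map m (e.symm : T →+* RatFunc K) ξ) (hξ.map _)
  refine ⟨y, hy, ?_⟩
  have h1 : (e : RatFunc K →+* T).comp (e.symm : T →+* RatFunc K) = RingHom.id T := by
    ext z
    exact e.apply_symm_apply z
  rw [← he, ← KM.map_map, hye, KM.map_map, h1, KM.map_id]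
  rfl

/-- Unramified classes of a simple transcendental extension are invariant under endomorphisms
fixing the constants. -/
theorem unr_transc_map (hm : Any m) {K T : Type u} [Field K] [Field T] (j : K →+* T) {t : T}
    (ht : ∀ f : K[X], f ≠ 0 → f.eval₂ j t ≠ 0) (hT : Subfield.closure (Set.range j ∪ {t}) = ⊤)
    {ξ : KM m T} (hξ : Unr ξ) {E : Type u} [Field E] (f g : T →+* E)
    (hfg : f.comp j = g.comp j) : KM.map m f ξ = KM.map m g ξ := by
  obtain ⟨y, _, hy⟩ := unr_transc hm j ht hT hξ
  rw [← hy, KM.map_map, KM.map_map, hfg]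

/-- Constant classes of degree at least two vanish when the constants are roots of unity. Hint:
`KM.of_torsion`, `KM.eq_zero_of_deg`. -/
theorem const_eq_zero (hm : Any m) {F T : Type u} [Field F] [Field T] (f : F →+* T)
    (hF : ∀ a : F, a ≠ 0 → ∃ n > 0, a ^ n = 1) {j : ℕ} (hj : 2 ≤ j) (y : KM m F)
    (hd : KM.map m f y ∈ KM.deg m T j) : KM.map m f y = 0 := by
  obtain ⟨r, a, _, hy⟩ := KM.of_torsion hm hF y
  refine KM.eq_zero_of_deg hj hd (r := r) (a := f a) ?_
  rw [hy, map_add, AlgHom.commutes, KM.map_sym]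

end UnrG
end

section

/-!
# Unramified classes of purely transcendental extensions
-/

namespace UnrG

universe u v w

open Polynomial Finset
open scoped Classical

variable {m : ℕ}

/-- Unramified classes of a purely transcendental extension are constant. Hint: induction on `n`:
for `n + 1` variables let `T' = IntermediateField.adjoin F (range (v ∘ Fin.castSucc))` (or
`v ∘ Fin.succ`); the last variable is transcendental over `T'`
(`AlgebraicIndependent.transcendental_adjoin`-type lemmas,
`IntermediateField.isAlgebraic_adjoin_iff`), so `unr_transc` applies to `T' → T`, and the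
induction hypothesis to `F → T'`. -/
theorem unr_purely (hm : Any m) {F T : Type u} [Field F] [Field T] [Algebra F T] {n : ℕ}
    (v : Fin n → T) (hv : AlgebraicIndependent F v)
    (hT : IntermediateField.adjoin F (Set.range v) = ⊤) {ξ : KM m T} (hξ : Unr ξ) :
    ∃ y : KM m F, KM.map m (algebraMap F T) y = ξ := by
  induction n generalizing T with
  | zero =>
    have h1 : Function.Surjective (algebraMap F T) := by
      rw [Set.range_eq_empty, IntermediateField.adjoin_empty] at hT
      intro z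
      have h2 : z ∈ (⊥ : IntermediateField F T) := by rw [hT]; trivial
      exact IntermediateField.mem_bot.mp h2
    let e : F ≃+* T := RingEquiv.ofBijective (algebraMap F T) ⟨(algebraMap F T).injective, h1⟩
    refine ⟨KM.map m (e.symm : T →+* F) ξ, ?_⟩
    have h3 : (algebraMap F T).comp (e.symm : T →+* F) = RingHom.id T := by
      ext z
      exact e.apply_symm_apply z
    rw [KM.map_map, h3, KM.map_id]
    rfl
  | succ n ih =>
    obtain ⟨T', hT'⟩ : ∃ T' : IntermediateField F T, T' =
      IntermediateField.adjoin F (v '' Set.range Fin.castSucc) := ⟨_, rfl⟩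
    have hmem : ∀ i : Fin n, v i.castSucc ∈ T' := by
      intro i
      rw [hT']
      exact IntermediateField.subset_adjoin _ _ ⟨_, ⟨i, rfl⟩, rfl⟩
    have htr : Transcendental T' (v (Fin.last n)) := by
      subst hT'
      rw [IntermediateField.transcendental_adjoin_iff]
      refine hv.transcendental_adjoin (s := Set.range Fin.castSucc) ?_
      rintro ⟨i, hi⟩
      exact (Fin.castSucc_lt_last i).ne hi
    have hgen : Subfield.closure (Set.range (algebraMap T' T) ∪ {v (Fin.last n)}) = ⊤ := by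
      have h1 := congrArg IntermediateField.toSubfield hT
      rw [IntermediateField.adjoin_toSubfield, IntermediateField.top_toSubfield] at h1
      rw [eq_top_iff, ← h1, Subfield.closure_le]
      rintro z (⟨a, rfl⟩ | ⟨i, rfl⟩)
      · exact Subfield.subset_closure (Or.inl ⟨⟨_, T'.algebraMap_mem a⟩, rfl⟩)
      · refine Fin.lastCases ?_ (fun i => ?_) i
        · exact Subfield.subset_closure (Or.inr rfl)
        · exact Subfield.subset_closure (Or.inl ⟨⟨_, hmem i⟩, rfl⟩)
    obtain ⟨y, hy, hyξ⟩ := unr_transc hm (algebraMap T' T) (t := v (Fin.last n)) (by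
      intro f hf h0
      exact htr ⟨f, hf, by rw [aeval_def]; exact h0⟩) hgen hξ
    have hv' : AlgebraicIndependent F (fun i : Fin n => (⟨v i.castSucc, hmem i⟩ : T')) := by
      apply AlgebraicIndependent.of_comp T'.val
      exact hv.comp _ (Fin.castSucc_injective n)
    have hgen' : IntermediateField.adjoin F
        (Set.range (fun i : Fin n => (⟨v i.castSucc, hmem i⟩ : T'))) = ⊤ := by
      apply IntermediateField.map_injective T'.val
      rw [IntermediateField.adjoin_map, ← AlgHom.fieldRange_eq_map, IntermediateField.fieldRange_val,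
        ← Set.range_comp]
      have h1 : Set.range (⇑T'.val ∘ fun i : Fin n => (⟨v i.castSucc, hmem i⟩ : T')) =
          v '' Set.range Fin.castSucc := by
        rw [← Set.range_comp]
        rfl
      rw [h1]
      exact hT'.symm
    obtain ⟨z, hz⟩ := ih (T := T') (fun i => ⟨v i.castSucc, hmem i⟩) hv' hgen' hy
    refine ⟨z, ?_⟩
    rw [← hyξ, ← hz, KM.map_map]
    rfl

end UnrG
end

section

/-!
# Unramified classes of purely transcendental extensions
-/

namespace UnrA.Fer

open UnrG

universe u v w z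

open Polynomial Finset
open scoped Classical

variable {m : UFun.{u, z}}

/-- Unramified classes of a simple transcendental extension are constant. Hint: `unr_ratFunc`
transported by `exists_ratFunc_equiv` (`Unr.map` for the inverse isomorphism, `KM.map_map`). -/
theorem unr_transc {K T : Type u} [Field K] [Field T] (j : K →+* T) {t : T}
    (ht : ∀ f : K[X], f ≠ 0 → f.eval₂ j t ≠ 0) (hT : Subfield.closure (Set.range j ∪ {t}) = ⊤)
    {ξ : KM m T} (hξ : Unr ξ) : ∃ y : KM m K, Unr y ∧ KM.map m j y = ξ := by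
  obtain ⟨e, he, _⟩ := exists_ratFunc_equiv j ht hT
  obtain ⟨y, hy, hye⟩ := unr_ratFunc (x := KM.map m (e.symm : T →+* RatFunc K) ξ) (hξ.map _)
  refine ⟨y, hy, ?_⟩
  have h1 : (e : RatFunc K →+* T).comp (e.symm : T →+* RatFunc K) = RingHom.id T := by
    ext z
    exact e.apply_symm_apply z
  rw [← he, ← KM.map_map, hye, KM.map_map, h1, KM.map_id]
  rfl

/-- Unramified classes of a simple transcendental extension are invariant under endomorphisms
fixing the constants. -/
theorem unr_transc_map {K T : Type u} [Field K] [Field T] (j : K →+* T) {t : T}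
    (ht : ∀ f : K[X], f ≠ 0 → f.eval₂ j t ≠ 0) (hT : Subfield.closure (Set.range j ∪ {t}) = ⊤)
    {ξ : KM m T} (hξ : Unr ξ) {E : Type u} [Field E] (f g : T →+* E)
    (hfg : f.comp j = g.comp j) : KM.map m f ξ = KM.map m g ξ := by
  obtain ⟨y, _, hy⟩ := unr_transc j ht hT hξ
  rw [← hy, KM.map_map, KM.map_map, hfg]

/-- Unramified classes of a purely transcendental extension are constant. Hint: induction on `n`:
for `n + 1` variables let `T' = IntermediateField.adjoin F (range (v ∘ Fin.castSucc))` (or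
`v ∘ Fin.succ`); the last variable is transcendental over `T'`
(`AlgebraicIndependent.transcendental_adjoin`-type lemmas,
`IntermediateField.isAlgebraic_adjoin_iff`), so `unr_transc` applies to `T' → T`, and the
induction hypothesis to `F → T'`. -/
theorem unr_purely {F T : Type u} [Field F] [Field T] [Algebra F T] {n : ℕ}
    (v : Fin n → T) (hv : AlgebraicIndependent F v)
    (hT : IntermediateField.adjoin F (Set.range v) = ⊤) {ξ : KM m T} (hξ : Unr ξ) :
    ∃ y : KM m F, Unr y ∧ KM.map m (algebraMap F T) y = ξ := by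
  induction n generalizing T with
  | zero =>
    have h1 : Function.Surjective (algebraMap F T) := by
      rw [Set.range_eq_empty, IntermediateField.adjoin_empty] at hT
      intro z
      have h2 : z ∈ (⊥ : IntermediateField F T) := by rw [hT]; trivial
      exact IntermediateField.mem_bot.mp h2
    let e : F ≃+* T := RingEquiv.ofBijective (algebraMap F T) ⟨(algebraMap F T).injective, h1⟩
    refine ⟨KM.map m (e.symm : T →+* F) ξ, hξ.map _, ?_⟩
    have h3 : (algebraMap F T).comp (e.symm : T →+* F) = RingHom.id T := by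
      ext z
      exact e.apply_symm_apply z
    rw [KM.map_map, h3, KM.map_id]
    rfl
  | succ n ih =>
    obtain ⟨T', hT'⟩ : ∃ T' : IntermediateField F T, T' =
      IntermediateField.adjoin F (v '' Set.range Fin.castSucc) := ⟨_, rfl⟩
    have hmem : ∀ i : Fin n, v i.castSucc ∈ T' := by
      intro i
      rw [hT']
      exact IntermediateField.subset_adjoin _ _ ⟨_, ⟨i, rfl⟩, rfl⟩
    have htr : Transcendental T' (v (Fin.last n)) := by
      subst hT'
      rw [IntermediateField.transcendental_adjoin_iff]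
      refine hv.transcendental_adjoin (s := Set.range Fin.castSucc) ?_
      rintro ⟨i, hi⟩
      exact (Fin.castSucc_lt_last i).ne hi
    have hgen : Subfield.closure (Set.range (algebraMap T' T) ∪ {v (Fin.last n)}) = ⊤ := by
      have h1 := congrArg IntermediateField.toSubfield hT
      rw [IntermediateField.adjoin_toSubfield, IntermediateField.top_toSubfield] at h1
      rw [eq_top_iff, ← h1, Subfield.closure_le]
      rintro z (⟨a, rfl⟩ | ⟨i, rfl⟩)
      · exact Subfield.subset_closure (Or.inl ⟨⟨_, T'.algebraMap_mem a⟩, rfl⟩)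
      · refine Fin.lastCases ?_ (fun i => ?_) i
        · exact Subfield.subset_closure (Or.inr rfl)
        · exact Subfield.subset_closure (Or.inl ⟨⟨_, hmem i⟩, rfl⟩)
    obtain ⟨y, hy, hyξ⟩ := unr_transc (algebraMap T' T) (t := v (Fin.last n)) (by
      intro f hf h0
      exact htr ⟨f, hf, by rw [aeval_def]; exact h0⟩) hgen hξ
    have hv' : AlgebraicIndependent F (fun i : Fin n => (⟨v i.castSucc, hmem i⟩ : T')) := by
      apply AlgebraicIndependent.of_comp T'.val
      exact hv.comp _ (Fin.castSucc_injective n)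
    have hgen' : IntermediateField.adjoin F
        (Set.range (fun i : Fin n => (⟨v i.castSucc, hmem i⟩ : T'))) = ⊤ := by
      apply IntermediateField.map_injective T'.val
      rw [IntermediateField.adjoin_map, ← AlgHom.fieldRange_eq_map, IntermediateField.fieldRange_val,
        ← Set.range_comp]
      have h1 : Set.range (⇑T'.val ∘ fun i : Fin n => (⟨v i.castSucc, hmem i⟩ : T')) =
          v '' Set.range Fin.castSucc := by
        rw [← Set.range_comp]
        rfl
      rw [h1]
      exact hT'.symm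
    obtain ⟨z, hzu, hz⟩ := ih (T := T') (fun i => ⟨v i.castSucc, hmem i⟩) hv' hgen' hy
    refine ⟨z, hzu, ?_⟩
    rw [← hyξ, ← hz, KM.map_map]
    rfl

end UnrA.Fer
end

section

/-!
# Change of the base field
-/

namespace UnrA.Fer

open UnrG

universe u v w z

open Polynomial Finset
open scoped Classical

/-- A compositum of an extension with a finite extension of the base field. -/
theorem exists_compositum {k E k' : Type u} [Field k] [Field E] [Field k'] [Algebra k E]
    [Algebra k k'] [FiniteDimensional k k'] :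
    ∃ (E' : Type u) (_ : Field E') (_ : Algebra E E') (_ : Algebra k' E') (_ : Algebra k E'),
      IsScalarTower k E E' ∧ IsScalarTower k k' E' ∧ FiniteDimensional E E' ∧
      Module.finrank E E' ≤ Module.finrank k k' ∧
      Subfield.closure (Set.range (algebraMap E E') ∪ Set.range (algebraMap k' E')) = ⊤ := by
  obtain ⟨j⟩ : Nonempty (k' →ₐ[k] AlgebraicClosure E) := ⟨IsAlgClosed.lift⟩
  obtain ⟨T, hT⟩ : ∃ T : IntermediateField E (AlgebraicClosure E),
    T = IntermediateField.adjoin E (j.fieldRange : Set (AlgebraicClosure E)) := ⟨_, rfl⟩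
  have halg : Algebra.IsAlgebraic k j.fieldRange :=
    (AlgEquiv.ofInjectiveField j).isAlgebraic
  have hrank : Module.rank E T ≤ Module.rank k j.fieldRange := by
    rw [hT]
    exact IntermediateField.adjoin_rank_le_of_isAlgebraic_right E j.fieldRange
  have hrank' : Module.rank k j.fieldRange = Module.rank k k' :=
    ((AlgEquiv.ofInjectiveField j).toLinearEquiv.rank_eq).symm
  rw [hrank'] at hrank
  have hfd : FiniteDimensional E T :=
    Module.rank_lt_aleph0_iff.mp (lt_of_le_of_lt hrank (Module.rank_lt_aleph0 k k'))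
  have hle : Module.finrank E T ≤ Module.finrank k k' :=
    Cardinal.toNat_le_toNat hrank (Module.rank_lt_aleph0 k k')
  have hmem : ∀ x : k', j x ∈ T := by
    intro x
    rw [hT]
    exact IntermediateField.subset_adjoin E _ ⟨x, rfl⟩
  let i' : k' →+* T := (j : k' →+* AlgebraicClosure E).codRestrict T.toSubfield hmem
  let _ : Algebra k' T := i'.toAlgebra
  let _ : Algebra k T := ((algebraMap E T).comp (algebraMap k E)).toAlgebra
  refine ⟨T, inferInstance, inferInstance, inferInstance, inferInstance, ?_, ?_, hfd, hle, ?_⟩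
  · exact IsScalarTower.of_algebraMap_eq fun x => rfl
  · refine IsScalarTower.of_algebraMap_eq fun x => ?_
    apply Subtype.ext
    change algebraMap E (AlgebraicClosure E) (algebraMap k E x) = j (algebraMap k k' x)
    rw [j.commutes]
    rfl
  · have h1 : T.toSubfield = Subfield.closure (Set.range (algebraMap E (AlgebraicClosure E)) ∪
        (j.fieldRange : Set (AlgebraicClosure E))) := by
      rw [hT, IntermediateField.adjoin_toSubfield]
    rw [eq_top_iff]
    intro x _
    obtain ⟨R, hR⟩ : ∃ R, R = Subfield.closure (Set.range (algebraMap E T) ∪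
      Set.range (algebraMap k' T)) := ⟨_, rfl⟩
    rw [← hR]
    have h2 : T.toSubfield ≤ R.map (algebraMap T (AlgebraicClosure E)) := by
      rw [h1, Subfield.closure_le]
      rintro _ (⟨a, rfl⟩ | ⟨a, rfl⟩)
      · refine ⟨algebraMap E T a, ?_, rfl⟩
        rw [hR]
        exact Subfield.subset_closure (Or.inl ⟨a, rfl⟩)
      · refine ⟨algebraMap k' T a, ?_, rfl⟩
        rw [hR]
        exact Subfield.subset_closure (Or.inr ⟨a, rfl⟩)
    obtain ⟨y, hy, hyx⟩ := h2 x.2
    have h3 : y = x := Subtype.ext hyx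
    rw [← h3]
    exact hy

/-- Change of the base field of a cyclic cover of an affine space. -/
theorem exists_baseChange {N n s : ℕ} {k E k' κ : Type u} [Field k] [Field E] [Field k']
    [Field κ] [Algebra k E] [Algebra k k'] [FiniteDimensional k k'] [Algebra κ k']
    {t : Fin 0 → E} {X : Fin n → E} {D W : E} {B A : Fin n → ZMod N}
    (h : CycProdD N (F := k) t X D W B A) {τ : Fin s → k'} (hτ : AlgebraicIndependent κ τ)
    (hgen : IntermediateField.adjoin κ (Set.range τ) = ⊤) :
    ∃ (E' : Type u) (_ : Field E') (_ : Algebra E E') (_ : Algebra κ E') (_ : Algebra k' E'),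
      FiniteDimensional E E' ∧ Module.finrank E E' ≤ Module.finrank k k' ∧
      (∀ a : k, algebraMap E E' (algebraMap k E a) = algebraMap k' E' (algebraMap k k' a)) ∧
      CycProdD N (F := κ) (fun i => algebraMap k' E' (τ i)) (fun j => algebraMap E E' (X j))
        (algebraMap E E' D) (algebraMap E E' W) B A ∧
      ∀ z : k', algebraMap k' E' z ∈
        IntermediateField.adjoin κ (Set.range fun i => algebraMap k' E' (τ i)) := by
  obtain ⟨E', _, _, _, _, hst, hst', hfd, hle, hcl⟩ := exists_compositum (k := k) (E := E)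
    (k' := k')
  let _ : Algebra κ E' := ((algebraMap k' E').comp (algebraMap κ k')).toAlgebra
  have hst'' : IsScalarTower κ k' E' := IsScalarTower.of_algebraMap_eq fun x => rfl
  have hcomm : ∀ a : k, algebraMap E E' (algebraMap k E a) = algebraMap k' E' (algebraMap k k' a) :=
    fun a => by
      rw [← IsScalarTower.algebraMap_apply, ← IsScalarTower.algebraMap_apply]
  have hk' : ∀ z : k', algebraMap k' E' z ∈
      IntermediateField.adjoin κ (Set.range fun i => algebraMap k' E' (τ i)) := by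
    intro z
    have h1 : (IntermediateField.adjoin κ (Set.range τ)).map (IsScalarTower.toAlgHom κ k' E') =
        IntermediateField.adjoin κ (Set.range (fun i => algebraMap k' E' (τ i))) := by
      rw [IntermediateField.adjoin_map, ← Set.range_comp]
      rfl
    rw [← h1]
    exact ⟨z, by rw [hgen]; trivial, rfl⟩
  have hD : ∃ d : k, algebraMap k E d = D := by
    have h1 := h.D_mem
    rw [Set.range_eq_empty, IntermediateField.adjoin_empty] at h1
    exact IntermediateField.mem_bot.mp h1
  obtain ⟨d, hd⟩ := hD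
  have hX : AlgebraicIndependent k X := h.ind.comp (Sum.inr : Fin n → Fin 0 ⊕ Fin n)
    Sum.inr_injective
  refine ⟨E', inferInstance, inferInstance, inferInstance, inferInstance, hfd, hle, hcomm,
    ⟨?_, ?_, ?_, ?_, ?_⟩, hk'⟩
  · have h1 : AlgebraicIndependent k (fun j => algebraMap E E' (X j)) :=
      hX.map' (f := IsScalarTower.toAlgHom k E E') (algebraMap E E').injective
    have halg : Algebra.IsAlgebraic k k' := Algebra.IsAlgebraic.of_finite k k'
    have h2 : AlgebraicIndependent k' (fun j => algebraMap E E' (X j)) :=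
      h1.extendScalars k'
    have h3 := AlgebraicIndependent.sumElim_comp hτ h2
    have h4 := h3.comp (Sum.swap : Fin s ⊕ Fin n → Fin n ⊕ Fin s)
      (Function.LeftInverse.injective Sum.swap_swap)
    have h5 : Sum.elim (fun j => algebraMap E E' (X j)) (algebraMap k' E' ∘ τ) ∘ Sum.swap =
        Sum.elim (fun i => algebraMap k' E' (τ i)) (fun j => algebraMap E E' (X j)) := by
      funext i
      rcases i with i | i <;> rfl
    rw [h5] at h4
    exact h4
  · rw [← hd, hcomm]
    exact hk' _
  · exact (map_ne_zero (algebraMap E E')).2 h.D_ne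
  · rw [← map_pow, h.eq, map_mul, map_prod]
    congr 1
    refine Finset.prod_congr rfl fun j _ => ?_
    rw [map_mul, map_pow, map_pow, map_sub, map_one]
  · rw [eq_top_iff]
    intro x _
    obtain ⟨R, hR⟩ : ∃ R, R = IntermediateField.adjoin κ
      ((Set.range fun i => algebraMap k' E' (τ i)) ∪ (Set.range fun j => algebraMap E E' (X j)) ∪
        {algebraMap E E' W}) := ⟨_, rfl⟩
    rw [← hR]
    have hkR : ∀ z : k', algebraMap k' E' z ∈ R := by
      intro z
      rw [hR]
      exact IntermediateField.adjoin.mono κ _ _ (Set.subset_union_left.trans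
        Set.subset_union_left) (hk' z)
    have hER : ∀ z : E, algebraMap E E' z ∈ R := by
      intro z
      have h1 := congrArg IntermediateField.toSubfield h.gen
      rw [IntermediateField.adjoin_toSubfield, IntermediateField.top_toSubfield] at h1
      have h2 : (⊤ : Subfield E) ≤ R.toSubfield.comap (algebraMap E E') := by
        rw [← h1, Subfield.closure_le]
        rintro y (⟨a, rfl⟩ | ((⟨i, rfl⟩ | ⟨i, rfl⟩) | hy))
        · change algebraMap E E' (algebraMap k E a) ∈ R
          rw [hcomm]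
          exact hkR _
        · exact i.elim0
        · change algebraMap E E' (X i) ∈ R
          rw [hR]
          exact IntermediateField.subset_adjoin _ _ (Or.inl (Or.inr ⟨i, rfl⟩))
        · rw [Set.mem_singleton_iff] at hy
          change algebraMap E E' y ∈ R
          rw [hy, hR]
          exact IntermediateField.subset_adjoin _ _ (Or.inr rfl)
      exact h2 (Subfield.mem_top z)
    have h3 : (⊤ : Subfield E') ≤ R.toSubfield := by
      rw [← hcl, Subfield.closure_le]
      rintro _ (⟨a, rfl⟩ | ⟨a, rfl⟩)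
      · exact hER a
      · exact hkR a
    exact h3 (Subfield.mem_top x)

end UnrA.Fer
end

section

/-!
# Products of Fermat curves: definitions
-/

namespace UnrG

universe u v w

open Polynomial Finset
open scoped Classical

variable {m : ℕ} {𝔽 : Type w} [Field 𝔽] [Fintype 𝔽] (b : Base 𝔽)

/-- `M` is the function field over `F` of the product of `n` Fermat curves and an affine
space of dimension `r`. -/
structure ProdData {F M : Type u} [Field F] [Field M] [Algebra F M] {r n : ℕ} (t : Fin r → M)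
    (x y : Fin n → M) : Prop where
  eq : ∀ j, x j ^ b.N + y j ^ b.N = 1
  ind : AlgebraicIndependent F (Sum.elim t x)
  gen : IntermediateField.adjoin F (Set.range t ∪ Set.range x ∪ Set.range y) = ⊤

variable {F M : Type u} [Field F] [Field M] [Algebra F M] (ι : 𝔽 →+* F) {r n : ℕ}

/-- The subfield generated by all coordinates but the `j`-th. -/
def others (F : Type u) [Field F] [Algebra F M] (t : Fin r → M) (x y : Fin n → M) (j : Fin n) :
    Subfield M :=
  Subfield.closure (Set.range (algebraMap F M) ∪ Set.range t ∪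
    {z | ∃ i, i ≠ j ∧ (z = x i ∨ z = y i)})

/-- Endomorphisms fixing the constants, `t`, and all coordinates outside `J`. -/
structure FixBut (F : Type u) [Field F] [Algebra F M] (t : Fin r → M) (x y : Fin n → M)
    (J : Finset (Fin n)) (f : M →+* M) : Prop where
  const : ∀ a : F, f (algebraMap F M a) = algebraMap F M a
  ft : ∀ i, f (t i) = t i
  fx : ∀ i, i ∉ J → f (x i) = x i
  fy : ∀ i, i ∉ J → f (y i) = y i

/-- The diagonal endomorphisms. -/
structure IsDiag (t : Fin r → M) (x y : Fin n → M) (a c : Fin n → ℕ) (f : M →+* M) : Prop where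
  const : ∀ a : F, f (algebraMap F M a) = algebraMap F M a
  ft : ∀ i, f (t i) = t i
  fx : ∀ i, f (x i) = algebraMap F M (ι b.ζ) ^ a i * x i
  fy : ∀ i, f (y i) = algebraMap F M (ι b.ζ) ^ c i * y i

/-- The Frobenius in the coordinates in `J`. -/
structure IsFrobAt (F : Type u) [Field F] [Algebra F M] (t : Fin r → M) (x y : Fin n → M)
    (J : Finset (Fin n)) (f : M →+* M) : Prop extends FixBut F t x y J f where
  gx : ∀ i ∈ J, f (x i) = x i ^ b.q
  gy : ∀ i ∈ J, f (y i) = y i ^ b.q

/-- The automorphism of the correspondence with parameter `c` in the `j`-th coordinate. -/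
structure IsGamma (t : Fin r → M) (x y : Fin n → M) (j : Fin n) (c : 𝔽) (f : M →+* M) : Prop
    extends FixBut F t x y {j} f where
  gx : f (x j) = algebraMap F M (ι c) ^ b.e * x j
  gy : f (y j) = algebraMap F M (ι (1 - c)) ^ b.e * y j

/-- The monomial `∏ x_j ^ bb_j y_j ^ aa_j`. -/
def mono (x y : Fin n → M) (bb aa : Fin n → ℕ) : M := ∏ j, (x j ^ bb j * y j ^ aa j)

/-- The weight of a diagonal endomorphism on the monomial. -/
def wt (bb aa a c : Fin n → ℕ) : ℕ := ∑ j, (bb j * a j + aa j * c j)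

/-- The properties of the classes coming from the field generated by `F`, `t`, the powers
`x_j ^ N` and the monomial `w`. -/
structure Good (F : Type u) [Field F] [Algebra F M] (ι : 𝔽 →+* F) (t : Fin r → M)
    (x y : Fin n → M) (bb aa : Fin n → ℕ) (Z : KM m M) : Prop where
  unr : Unr Z
  inv : ∀ f g : M →+* M, (∀ a : F, f (algebraMap F M a) = g (algebraMap F M a)) →
    (∀ i, f (t i) = g (t i)) → (∀ j, f (x j ^ b.N) = g (x j ^ b.N)) →
    f (mono x y bb aa) = g (mono x y bb aa) → KM.map m f Z = KM.map m g Z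
  new : ∀ (a c : Fin n → ℕ) (f : M →+* M), IsDiag b ι t x y a c f → ¬ b.N ∣ wt bb aa a c →
    ∑ i ∈ range b.N, KM.map m (f ^ i) Z = 0

/-- The additive endomorphism induced by a field homomorphism. -/
noncomputable def actL (m : ℕ) (τ : M →+* M) : Module.End ℤ (KM m M) :=
  (KM.map m τ : KM m M →+ KM m M).toIntLinearMap

lemma actL_apply (τ : M →+* M) (ξ : KM m M) : actL m τ ξ = KM.map m τ ξ := rfl

/-- The polynomial of the automorphisms of the correspondence. -/
noncomputable def jacPoly (𝔽 : Type w) [Field 𝔽] [Fintype 𝔽] (l : 𝔽 → ℕ) : ℤ[X] :=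
  ∑ c ∈ univ.filter (fun c : 𝔽 => c ≠ 0 ∧ c ≠ 1), X ^ l c

end UnrG
end

section

/-!
# Monomial subfields of products of Fermat curves: definitions
-/

namespace UnrG

universe u v w

open Polynomial Finset
open scoped Classical

variable {m : ℕ} {𝔽 : Type w} [Field 𝔽] [Fintype 𝔽] (b : Base 𝔽)

variable {F M : Type u} [Field F] [Field M] [Algebra F M] (ι : 𝔽 →+* F) {r n : ℕ}
  {t : Fin r → M} {x y : Fin n → M}

/-- The embedding of the field generated by `F`, `t`, the powers `x_j ^ N` and the monomial. -/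
structure MonoEmb (F : Type u) [Field F] [Algebra F M] (t : Fin r → M) (x y : Fin n → M)
    (bb aa : Fin n → ℕ) {E : Type u} [Field E] (i : E →+* M) : Prop where
  const : ∀ a : F, algebraMap F M a ∈ i.fieldRange
  t_mem : ∀ k, t k ∈ i.fieldRange
  x_mem : ∀ j, x j ^ b.N ∈ i.fieldRange
  w_mem : mono x y bb aa ∈ i.fieldRange
  gen : i.fieldRange ≤ Subfield.closure (Set.range (algebraMap F M) ∪ Set.range t ∪
    (Set.range fun j => x j ^ b.N) ∪ {mono x y bb aa})

/-- The vanishing of the sums over nontrivial automorphisms of the subfield. -/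
def NewCls (F : Type u) [Field F] [Algebra F M] (ι : 𝔽 →+* F) (t : Fin r → M)
    (x y : Fin n → M) (bb aa : Fin n → ℕ) {E : Type u} [Field E] (i : E →+* M) (z : KM m E) :
    Prop :=
  ∀ (g : E →+* E) (k : ℕ), (∀ (a : F) (e : E), i e = algebraMap F M a → g e = e) →
    (∀ l (e : E), i e = t l → g e = e) → (∀ j (e : E), i e = x j ^ b.N → g e = e) →
    (∀ e : E, i e = mono x y bb aa →
      i (g e) = algebraMap F M (ι b.ζ) ^ k * mono x y bb aa) → ¬ b.N ∣ k →
    ∑ l ∈ range b.N, KM.map m (g ^ l) z = 0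

/-- The Frobenius of `E` relative to `t`, the powers and the monomial. -/
structure RelFrob (F : Type u) [Field F] [Algebra F M] (t : Fin r → M) (x y : Fin n → M)
    (bb aa : Fin n → ℕ) {E : Type u} [Field E] (i : E →+* M) (σ : E →+* E) : Prop where
  const : ∀ (a : F) (e : E), i e = algebraMap F M a → σ e = e ^ b.q
  ft : ∀ l (e : E), i e = t l → σ e = e
  fx : ∀ j (e : E), i e = x j ^ b.N → σ e = e
  fw : ∀ e : E, i e = mono x y bb aa → σ e = e

end UnrG
end

section

/-!
# Embedding of the monomial subfield into the function field of a product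
-/

namespace UnrG

universe u v w

open Polynomial Finset
open scoped Classical

variable {m : ℕ} {𝔽 : Type w} [Field 𝔽] [Fintype 𝔽] (b : Base 𝔽)

variable {F L : Type u} [Field F] [Field L] [Algebra F L] {ι : 𝔽 →+* F} {r n : ℕ}
  {t : Fin r → L} {a x : Fin (n + 2) → L}

section aux

variable {Ω : Type u} [Field Ω] [Algebra F Ω] [Algebra L Ω] [IsScalarTower F L Ω]

/-- the preimage of a subfield containing the constants -/
private def D9_comap (F : Type u) {L Ω : Type u} [Field F] [Field L] [Algebra F L] [Field Ω]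
    [Algebra F Ω] [Algebra L Ω] [IsScalarTower F L Ω] (T : Subfield Ω)
    (hF : ∀ c : F, algebraMap F Ω c ∈ T) : IntermediateField F L :=
  (T.comap (algebraMap L Ω)).toIntermediateField (fun c => by
    change algebraMap L Ω (algebraMap F L c) ∈ T
    rw [← IsScalarTower.algebraMap_apply]
    exact hF c)

private lemma D9_mem (T : Subfield Ω) (hF : ∀ c : F, algebraMap F Ω c ∈ T) {z : L} :
    z ∈ (D9_comap F T hF : IntermediateField F L) ↔ algebraMap L Ω z ∈ T := Iff.rfl

private lemma D9_fieldK (h : DiagData b t (F := F) a x) (T : Subfield Ω)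
    (hF : ∀ c : F, algebraMap F Ω c ∈ T) (ht : ∀ k, algebraMap L Ω (t k) ∈ T)
    (hU : ∀ j, algebraMap L Ω (coordU b.N a x j) ∈ T) {z : L} (hz : z ∈ fieldK b F t x) :
    algebraMap L Ω z ∈ T := by
  have h1 : IntermediateField.adjoin F (Set.range t ∪ Set.range (coordU b.N a x)) ≤
      D9_comap F T hF := by
    rw [IntermediateField.adjoin_le_iff]
    rintro _ (⟨k, rfl⟩ | ⟨j, rfl⟩)
    · exact ht k
    · exact hU j
  exact (D9_mem T hF).mp (h1 (fieldK_le_coord b h hz))

private lemma D9_fieldA (h : DiagData b t (F := F) a x) (T : Subfield Ω)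
    (hF : ∀ c : F, algebraMap F Ω c ∈ T) (ht : ∀ k, algebraMap L Ω (t k) ∈ T)
    (hU : ∀ j, algebraMap L Ω (coordU b.N a x j) ∈ T) {α : Fin (n + 2) → ZMod b.N} {c : L}
    (hc : c ∈ fieldK b F t x) (hc0 : c ≠ 0) {k : F} (hk : k ≠ 0)
    (hw : algebraMap L Ω (algebraMap F L k * c * wmon x α) ∈ T) {z : L}
    (hz : z ∈ fieldA b F t x α) : algebraMap L Ω z ∈ T := by
  have hk' : algebraMap F L k ≠ 0 := (_root_.map_ne_zero _).mpr hk
  have hw' : algebraMap L Ω (wmon x α) ∈ T := by
    have e1 : wmon x α = (algebraMap F L k * c)⁻¹ * (algebraMap F L k * c * wmon x α) := by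
      field_simp
    rw [e1, map_mul, map_inv₀, map_mul]
    refine T.mul_mem (T.inv_mem (T.mul_mem ?_ (D9_fieldK b h T hF ht hU hc))) hw
    rw [← IsScalarTower.algebraMap_apply]
    exact hF k
  have h1 : fieldA b F t x α ≤ D9_comap F T hF := by
    unfold fieldA
    rw [IntermediateField.adjoin_le_iff]
    rintro _ ((⟨k, rfl⟩ | ⟨i, rfl⟩) | rfl)
    · exact ht k
    · exact D9_fieldK b h T hF ht hU (IntermediateField.subset_adjoin _ _ (Or.inr ⟨i, rfl⟩))
    · exact hw'
  exact (D9_mem T hF).mp (h1 hz)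

end aux

private lemma D9_mono_pow {Ω : Type u} [Field Ω] [Algebra L Ω] {X Y : Fin n → Ω} {U : Fin n → L}
    (hX : ∀ j, X j ^ b.N = algebraMap L Ω (U j)) (hY : ∀ j, Y j ^ b.N = algebraMap L Ω (1 - U j))
    (B A : Fin n → ℕ) :
    mono X Y B A ^ b.N = algebraMap L Ω (∏ j, (U j ^ B j * (1 - U j) ^ A j)) := by
  unfold mono
  rw [map_prod, ← Finset.prod_pow]
  refine Finset.prod_congr rfl fun j _ => ?_
  rw [mul_pow, ← pow_mul, ← pow_mul, Nat.mul_comm (B j), Nat.mul_comm (A j), pow_mul, pow_mul,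
    hX, hY, map_mul, map_pow, map_pow]

/-- The embedding. Proof: in an algebraic closure `Ω` of `L` choose `X_j`, `Y_j` with
`X_j ^ N = U_j = coordU`, `Y_j ^ N = 1 - U_j`, and let `M = IntermediateField.adjoin F` of `t`, `X`, `Y`.
The independence of `t`, `X` follows from `algebraicIndependent_coord` and `indep_of_pow`.
Let `E = fieldA b F t x α`. By `fieldK_le_coord` the image of `fieldK` lies in `M`; by
`mono_identity` `(mono X Y expB expA / (c * wmon x α)) ^ N = ± 1`, so this quotient is an
`N`-th root of `± 1`, i.e. the image of some `κ ∈ 𝔽` (`Base.exists_kappa`); so `wmon` lies in `M`, and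
`W = κ c wmon`. -/
theorem exists_embedding (h : DiagData b t (F := F) a x) {α : Fin (n + 2) → ZMod b.N}
    (ι : 𝔽 →+* F) (hα : ∑ i, α i = 0) {β : L}
    (hβ : β ∈ IntermediateField.adjoin F (Set.range t))
    (hβN : ∏ i, a i ^ (α i).val = β ^ b.N) {σ : L →+* L} (hσ : SigmaL b F t a x σ)
    (hσβ : σ β = β) :
    ∃ (M : Type u) (_ : Field M) (_ : Algebra F M) (t' : Fin r → M) (x' y' : Fin n → M)
      (i : fieldA b F t x α →+* M), ProdData (F := F) b t' x' y' ∧
      MonoEmb b F t' x' y' (expB α) (expA α) i ∧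
      (∀ (c : F) (e : fieldA b F t x α), i e = algebraMap F M c ↔ (e : L) = algebraMap F L c) ∧
      (∀ k (e : fieldA b F t x α), i e = t' k ↔ (e : L) = t k) ∧
      (∀ j (e : fieldA b F t x α), i e = x' j ^ b.N ↔ (e : L) = coordU b.N a x j) ∧
      ∃ (κ : 𝔽) (c : L), κ ≠ 0 ∧ c ∈ fieldK b F t x ∧ c ≠ 0 ∧ σ c = c ∧
        ∀ e : fieldA b F t x α, i e = mono x' y' (expB α) (expA α) ↔
          (e : L) = algebraMap F L (ι κ) * c * wmon x α := by
  have hX : ∀ j : Fin n, ∃ X : AlgebraicClosure L,
      X ^ b.N = algebraMap L (AlgebraicClosure L) (coordU b.N a x j) :=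
    fun j => IsAlgClosed.exists_pow_nat_eq _ b.N_pos
  have hY : ∀ j : Fin n, ∃ Y : AlgebraicClosure L,
      Y ^ b.N = algebraMap L (AlgebraicClosure L) (1 - coordU b.N a x j) :=
    fun j => IsAlgClosed.exists_pow_nat_eq _ b.N_pos
  choose X hX using hX
  choose Y hY using hY
  let Ω := AlgebraicClosure L
  let M : IntermediateField F Ω := IntermediateField.adjoin F
    (Set.range (fun k => algebraMap L Ω (t k)) ∪ Set.range X ∪ Set.range Y)
  have mt : ∀ k, algebraMap L Ω (t k) ∈ M := fun k =>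
    IntermediateField.subset_adjoin _ _ (Or.inl (Or.inl ⟨k, rfl⟩))
  have mX : ∀ j, X j ∈ M := fun j => IntermediateField.subset_adjoin _ _ (Or.inl (Or.inr ⟨j, rfl⟩))
  have mY : ∀ j, Y j ∈ M := fun j => IntermediateField.subset_adjoin _ _ (Or.inr ⟨j, rfl⟩)
  let t' : Fin r → M := fun k => ⟨algebraMap L Ω (t k), mt k⟩
  let x' : Fin n → M := fun j => ⟨X j, mX j⟩
  let y' : Fin n → M := fun j => ⟨Y j, mY j⟩
  obtain ⟨c, hc, hc0, hσc, hid⟩ := mono_identity b h hα hβ hβN hσ hσβ
  have hwne : wmon x α ≠ 0 := by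
    unfold wmon
    exact Finset.prod_ne_zero_iff.mpr fun i _ => pow_ne_zero _ (h.x_ne b i)
  have hcw : algebraMap L Ω (c * wmon x α) ≠ 0 := (_root_.map_ne_zero _).mpr (mul_ne_zero hc0 hwne)
  have hz : (mono X Y (expB α) (expA α) / algebraMap L Ω (c * wmon x α)) ^ b.N =
      (-1) ^ (α (Fin.last (n + 1))).val := by
    rw [div_pow, D9_mono_pow b hX hY, hid, map_mul, map_pow, map_neg, map_one, map_pow,
      mul_div_cancel_right₀ _ (pow_ne_zero _ hcw)]
  obtain ⟨κ, hκ0, hκ⟩ := b.exists_kappa ((algebraMap F Ω).comp ι) hz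
  have hικ : ι κ ≠ 0 := (_root_.map_ne_zero _).mpr hκ0
  have hW : mono X Y (expB α) (expA α) =
      algebraMap L Ω (algebraMap F L (ι κ) * c * wmon x α) := by
    have h1 := (eq_div_iff hcw).mp hκ
    rw [← h1, mul_assoc, map_mul (algebraMap L Ω) (algebraMap F L (ι κ)),
      ← IsScalarTower.algebraMap_apply]
    rfl
  have hFM : ∀ d : F, algebraMap F Ω d ∈ M.toSubfield := fun d => M.algebraMap_mem d
  have hUM : ∀ j, algebraMap L Ω (coordU b.N a x j) ∈ M.toSubfield := fun j => by
    rw [← hX]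
    exact pow_mem (mX j) _
  have hWM : mono X Y (expB α) (expA α) ∈ M.toSubfield :=
    prod_mem fun j _ => mul_mem (pow_mem (mX j) _) (pow_mem (mY j) _)
  have hiM : ∀ e : fieldA b F t x α, algebraMap L Ω (e : L) ∈ M.toSubfield := fun e =>
    D9_fieldA b h M.toSubfield hFM mt hUM hc hc0 hικ (by rw [← hW]; exact hWM) e.2
  let i : fieldA b F t x α →+* M :=
    ((algebraMap L Ω).comp (algebraMap (fieldA b F t x α) L)).codRestrict M hiM
  have hi : ∀ e : fieldA b F t x α, ((i e : M) : Ω) = algebraMap L Ω (e : L) := fun _ => rfl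
  have hinj : Function.Injective (algebraMap L Ω) := (algebraMap L Ω).injective
  have hmono : ((mono x' y' (expB α) (expA α) : M) : Ω) = mono X Y (expB α) (expA α) := by
    unfold mono
    simp [x', y']
  have hUA : ∀ j, coordU b.N a x j ∈ fieldA b F t x α := fun j => by
    have h1 : fieldK b F t x ≤ fieldA b F t x α :=
      IntermediateField.adjoin.mono _ _ _ Set.subset_union_left
    exact h1 (coordU_mem b h j)
  have hcA : c ∈ fieldA b F t x α := by
    have h1 : fieldK b F t x ≤ fieldA b F t x α :=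
      IntermediateField.adjoin.mono _ _ _ Set.subset_union_left
    exact h1 hc
  have htA : ∀ k, t k ∈ fieldA b F t x α := fun k =>
    IntermediateField.subset_adjoin _ _ (Or.inl (Or.inl ⟨k, rfl⟩))
  have hwA : wmon x α ∈ fieldA b F t x α :=
    IntermediateField.subset_adjoin _ _ (Or.inr rfl)
  refine ⟨M, inferInstance, inferInstance, t', x', y', i, ⟨?_, ?_, ?_⟩, ⟨?_, ?_, ?_, ?_, ?_⟩,
    ?_, ?_, ?_, κ, c, hκ0, hc, hc0, hσc, ?_⟩
  · -- eq
    intro j
    apply Subtype.ext
    change X j ^ b.N + Y j ^ b.N = 1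
    rw [hX, hY, ← map_add, add_sub_cancel, map_one]
  · -- ind
    have h1 := (algebraicIndependent_coord b h).map' (f := IsScalarTower.toAlgHom F L Ω) hinj
    have h2 : AlgebraicIndependent F (Sum.elim (fun k => algebraMap L Ω (t k)) X) := by
      refine indep_of_pow h1 (Sum.elim (fun _ => 1) (fun _ => b.N)) ?_
      rintro (k | j)
      · simp
      · exact hX j
    have h3 : (M.val : M → Ω) ∘ Sum.elim t' x' = Sum.elim (fun k => algebraMap L Ω (t k)) X := by
      funext k
      rcases k with k | j <;> rfl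
    rw [← h3] at h2
    exact (M.val.algebraicIndependent_iff M.val.injective).mp h2
  · -- gen
    apply IntermediateField.lift_injective M
    rw [IntermediateField.lift_adjoin, IntermediateField.lift_top, Set.image_union,
      Set.image_union, ← Set.range_comp, ← Set.range_comp, ← Set.range_comp]
    rfl
  · -- const
    intro d
    refine ⟨algebraMap F _ d, Subtype.ext ?_⟩
    rw [hi]
    change algebraMap L Ω (algebraMap F L d) = algebraMap F Ω d
    rw [← IsScalarTower.algebraMap_apply]
  · intro k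
    exact ⟨⟨t k, htA k⟩, rfl⟩
  · intro j
    exact ⟨⟨coordU b.N a x j, hUA j⟩, Subtype.ext (hX j).symm⟩
  · refine ⟨⟨algebraMap F L (ι κ) * c * wmon x α,
      mul_mem (mul_mem ((fieldA b F t x α).algebraMap_mem _) hcA) hwA⟩, Subtype.ext ?_⟩
    rw [hi, hmono, hW]
  · -- gen
    rintro _ ⟨e, rfl⟩
    set Sc : Subfield M := Subfield.closure (Set.range (algebraMap F M) ∪ Set.range t' ∪
      (Set.range fun j => x' j ^ b.N) ∪ {mono x' y' (expB α) (expA α)}) with hSc
    have h1 : algebraMap L Ω (e : L) ∈ Sc.map (algebraMap M Ω) := by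
      refine D9_fieldA b h _ ?_ ?_ ?_ hc hc0 hικ ?_ e.2
      · intro d
        exact ⟨algebraMap F M d, Subfield.subset_closure (Or.inl (Or.inl (Or.inl ⟨d, rfl⟩))), rfl⟩
      · intro k
        exact ⟨t' k, Subfield.subset_closure (Or.inl (Or.inl (Or.inr ⟨k, rfl⟩))), rfl⟩
      · intro j
        exact ⟨x' j ^ b.N, Subfield.subset_closure (Or.inl (Or.inr ⟨j, rfl⟩)), hX j⟩
      · exact ⟨mono x' y' (expB α) (expA α), Subfield.subset_closure (Or.inr rfl), by
          rw [← hW]; exact hmono⟩
    obtain ⟨m', hm', hme⟩ := h1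
    have h2 : m' = i e := Subtype.ext hme
    rw [← h2]
    exact hm'
  · intro d e
    constructor
    · intro h1
      have h2 := congrArg (fun z : M => (z : Ω)) h1
      apply hinj
      rw [← hi e, h1, ← IsScalarTower.algebraMap_apply]
      rfl
    · intro h1
      apply Subtype.ext
      rw [hi, h1, ← IsScalarTower.algebraMap_apply]
      rfl
  · intro k e
    constructor
    · intro h1
      apply hinj
      rw [← hi e, h1]
    · intro h1
      apply Subtype.ext
      rw [hi, h1]
  · intro j e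
    constructor
    · intro h1
      apply hinj
      rw [← hi e, h1]
      exact hX j
    · intro h1
      apply Subtype.ext
      rw [hi, h1]
      exact (hX j).symm
  · intro e
    constructor
    · intro h1
      apply hinj
      rw [← hi e, h1, hmono, hW]
    · intro h1
      apply Subtype.ext
      rw [hi, h1, hmono, hW]

end UnrG
end

section

/-!
# The exponents
-/

namespace UnrG

universe u v w

open Polynomial Finset
open scoped Classical

private lemma C5_wt_add {n : ℕ} (bb aa s t s' t' : Fin n → ℕ) :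
    wt bb aa (s + s') (t + t') = wt bb aa s t + wt bb aa s' t' := by
  unfold wt
  rw [← Finset.sum_add_distrib]
  refine Finset.sum_congr rfl (fun i _ => ?_)
  simp only [Pi.add_apply]
  ring

private lemma C5_wt_smul {n : ℕ} (bb aa s t : Fin n → ℕ) (k : ℕ) :
    wt bb aa (k • s) (k • t) = wt bb aa s t * k := by
  unfold wt
  rw [Finset.sum_mul]
  refine Finset.sum_congr rfl (fun i _ => ?_)
  simp only [Pi.smul_apply, smul_eq_mul]
  ring

private lemma C5_wt_single {n : ℕ} (bb aa : Fin n → ℕ) (j : Fin n) (s t : ℕ) :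
    wt bb aa (Pi.single j s) (Pi.single j t) = bb j * s + aa j * t := by
  unfold wt
  rw [Finset.sum_eq_single j]
  · simp
  · intro i _ hi
    simp [Pi.single_eq_of_ne hi]
  · intro h
    exact absurd (mem_univ j) h

/-- the weights as a subgroup -/
private def C5_grp {N n : ℕ} (hN : 0 < N) (bb aa : Fin n → ℕ) : AddSubgroup (ZMod N) where
  carrier := {z | ∃ s t : Fin n → ℕ, ((wt bb aa s t : ℕ) : ZMod N) = z}
  zero_mem' := ⟨0, 0, by simp [wt]⟩
  add_mem' := by
    rintro _ _ ⟨s, t, rfl⟩ ⟨s', t', rfl⟩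
    exact ⟨s + s', t + t', by rw [C5_wt_add]; push_cast; rfl⟩
  neg_mem' := by
    rintro _ ⟨s, t, rfl⟩
    refine ⟨(N - 1) • s, (N - 1) • t, ?_⟩
    rw [C5_wt_smul, Nat.cast_mul, Nat.cast_sub hN]
    simp

/-- The exponents of a diagonal automorphism whose weight generates all weights. Hint: the weights
mod `N` form a subgroup of `ZMod N`, which is cyclic (every subgroup of a cyclic group), generated
by some weight; or `Finset` Bézout for the gcd of `N` and all `bb j`, `aa j`. -/
theorem exists_generator {N n : ℕ} (hN : 0 < N) (bb aa : Fin n → ℕ) :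
    ∃ a c : Fin n → ℕ, ∀ s t : Fin n → ℕ,
      ∃ l : ℕ, wt bb aa a c * l ≡ wt bb aa s t [MOD N] := by
  have : NeZero N := ⟨hN.ne'⟩
  obtain ⟨⟨g, a, c, hg⟩, hgen⟩ := IsAddCyclic.exists_generator (α := C5_grp hN bb aa)
  refine ⟨a, c, fun s t => ?_⟩
  obtain ⟨l, hl⟩ := AddSubgroup.mem_zmultiples_iff.1
    (hgen ⟨((wt bb aa s t : ℕ) : ZMod N), s, t, rfl⟩)
  have hl' := congrArg (fun z : C5_grp hN bb aa => (z : ZMod N)) hl
  simp only [AddSubgroup.coe_zsmul] at hl'
  refine ⟨(l % N).toNat, ?_⟩
  rw [← ZMod.natCast_eq_natCast_iff, Nat.cast_mul, hg]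
  have h1 : (((l % N).toNat : ℕ) : ZMod N) = (l : ZMod N) := by
    have h2 : (((l % N).toNat : ℕ) : ℤ) = l % N :=
      Int.toNat_of_nonneg (Int.emod_nonneg _ (by exact_mod_cast hN.ne'))
    have h3 : (((l % N).toNat : ℕ) : ZMod N) = ((((l % N).toNat : ℕ) : ℤ) : ZMod N) := by
      push_cast
      rfl
    rw [h3, h2]
    simp
  rw [h1, mul_comm, ← zsmul_eq_mul]
  exact hl'

variable {𝔽 : Type w} [Field 𝔽] [Fintype 𝔽] (b : Base 𝔽)

/-- The exponents of the automorphisms of the correspondence. Hint: write `c' ^ e = ζ ^ s`,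
`(1 - c') ^ e = ζ ^ t` (`Base.exists_pow_ζ`); apply `exists_generator` to
`Pi.single j s`, `Pi.single j t`. -/
theorem Base.exists_exponents {n : ℕ} (bb aa : Fin n → ℕ) :
    ∃ (a c : Fin n → ℕ) (l : Fin n → 𝔽 → ℕ), ∀ (j : Fin n) (c' : 𝔽), c' ≠ 0 → c' ≠ 1 →
      (b.ζ ^ wt bb aa a c) ^ l j c' = (c' ^ b.e) ^ bb j * ((1 - c') ^ b.e) ^ aa j := by
  obtain ⟨a, c, hac⟩ := exists_generator b.N_pos bb aa
  have h : ∀ (j : Fin n) (c' : 𝔽), ∃ l : ℕ, c' ≠ 0 → c' ≠ 1 →
      (b.ζ ^ wt bb aa a c) ^ l = (c' ^ b.e) ^ bb j * ((1 - c') ^ b.e) ^ aa j := by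
    intro j c'
    by_cases h0 : c' ≠ 0 ∧ c' ≠ 1
    · obtain ⟨s, hs⟩ := b.exists_pow_ζ h0.1
      obtain ⟨t, ht⟩ := b.exists_pow_ζ (sub_ne_zero.2 h0.2.symm)
      obtain ⟨l, hl⟩ := hac (Pi.single j s) (Pi.single j t)
      refine ⟨l, fun _ _ => ?_⟩
      rw [C5_wt_single] at hl
      rw [hs, ht, ← pow_mul, ← pow_mul, ← pow_mul, ← pow_add,
        pow_eq_pow_mod (wt bb aa a c * l) b.hζ.pow_eq_one,
        pow_eq_pow_mod (s * bb j + t * aa j) b.hζ.pow_eq_one, mul_comm s, mul_comm t]
      congr 1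
    · exact ⟨0, fun h1 h2 => absurd ⟨h1, h2⟩ h0⟩
  choose l hl using h
  exact ⟨a, c, l, hl⟩

end UnrG
end

section

/-!
# Monomial subfields: the Frobenius
-/

namespace UnrG

universe u v w

open Polynomial Finset
open scoped Classical

variable {m : ℕ} {𝔽 : Type w} [Field 𝔽] [Fintype 𝔽] (b : Base 𝔽)

variable {F M : Type u} [Field F] [Field M] [Algebra F M] (ι : 𝔽 →+* F) {r n : ℕ}
  {t : Fin r → M} {x y : Fin n → M}

variable {bb aa : Fin n → ℕ} {E : Type u} [Field E] {i : E →+* M}

/-- In a field containing `𝔽` the `q`-th power map is a homomorphism. Hint: `iterateFrobenius`,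
`FiniteField.card`. -/
lemma Base.exists_frob {K : Type u} [Field K] (ι : 𝔽 →+* K) :
    ∃ fr : K →+* K, ∀ a, fr a = a ^ b.q := by
  obtain ⟨p, hp⟩ := CharP.exists 𝔽
  obtain ⟨n, hpr, hn⟩ := FiniteField.card 𝔽 p
  have : Fact p.Prime := ⟨hpr⟩
  have : CharP K p := charP_of_injective_ringHom ι.injective p
  refine ⟨iterateFrobenius K p n, fun a => ?_⟩
  rw [iterateFrobenius_def, ← hn, b.card_q]

/-- Hint: both sides are ring homomorphisms `E →+* M`; compare on the elements of `E` mapping to
the generators (the equalizer is a subfield of `E` whose image contains the generating set of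
`MonoEmb.gen`): constants `a ↦ a ^ q`, `t ↦ t ^ q`, `x_j ^ N ↦ (x_j ^ N) ^ q`, and
`mono ↦ mono ^ q`. -/
lemma RelFrob.frob_eq (hP : ProdData (F := F) b t x y) (h : MonoEmb b F t x y bb aa i)
    {σ : E →+* E} (hσ : RelFrob b F t x y bb aa i σ)
    {φ ψ : M →+* M} (hφ : IsFrobAt b F t x y univ φ)
    (h1 : ∀ a : F, ψ (algebraMap F M a) = algebraMap F M a) (h2 : ∀ i, ψ (t i) = t i ^ b.q)
    (h3 : ∀ i, ψ (x i) = x i) (h4 : ∀ i, ψ (y i) = y i) {fr : M →+* M}
    (hfr : ∀ a, fr a = a ^ b.q) :
    (φ.comp ψ).comp (i.comp σ) = fr.comp i := by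
  obtain ⟨A, hA⟩ : ∃ A : E →+* M, A = (φ.comp ψ).comp (i.comp σ) := ⟨_, rfl⟩
  obtain ⟨B, hB⟩ : ∃ B : E →+* M, B = fr.comp i := ⟨_, rfl⟩
  have hA' : ∀ e, A e = φ (ψ (i (σ e))) := fun e => by rw [hA]; rfl
  have hB' : ∀ e, B e = i e ^ b.q := fun e => by
    rw [hB]
    exact hfr _
  rw [← hA, ← hB]
  have key : i.fieldRange ≤ (A.eqLocusField B).map i := by
    refine h.gen.trans ?_
    rw [Subfield.closure_le]
    rintro z (((⟨a, rfl⟩ | ⟨k, rfl⟩) | ⟨j, rfl⟩) | rfl)
    · obtain ⟨e, he⟩ := h.const a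
      refine ⟨e, ?_, he⟩
      change A e = B e
      rw [hA', hB', hσ.const a e he, map_pow, he, map_pow, map_pow, h1, hφ.const]
    · obtain ⟨e, he⟩ := h.t_mem k
      refine ⟨e, ?_, he⟩
      change A e = B e
      rw [hA', hB', hσ.ft k e he, he, h2, map_pow, hφ.ft]
    · obtain ⟨e, he⟩ := h.x_mem j
      refine ⟨e, ?_, he⟩
      change A e = B e
      rw [hA', hB', hσ.fx j e he, he, map_pow, map_pow, h3, hφ.gx j (Finset.mem_univ _),
        ← pow_mul, ← pow_mul, mul_comm]
    · obtain ⟨e, he⟩ := h.w_mem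
      refine ⟨e, ?_, he⟩
      change A e = B e
      rw [hA', hB', hσ.fw e he, he, mono, map_prod, map_prod, ← Finset.prod_pow]
      refine Finset.prod_congr rfl fun j _ => ?_
      rw [map_mul, map_mul, map_pow, map_pow, map_pow, map_pow, h3, h4,
        hφ.gx j (Finset.mem_univ _), hφ.gy j (Finset.mem_univ _), mul_pow, ← pow_mul, ← pow_mul,
        ← pow_mul, ← pow_mul, mul_comm (bb j), mul_comm (aa j)]
  ext e
  obtain ⟨e', he', hee⟩ := key ⟨e, rfl⟩
  have h5 := i.injective hee
  rw [← h5]
  exact he'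

end UnrG
end

section

/-!
# The Bézout relation for the Frobenius polynomial
-/

namespace UnrA.Fer

open UnrG

universe u v w z

open Polynomial Finset
open scoped Classical

variable {𝔽 : Type w} [Field 𝔽] [Fintype 𝔽] (b : Base 𝔽)

/-- The Bézout relation. Proof: by `exists_int_bezout` it suffices that the polynomials have no
common complex root `z`. A common root has `z ^ N' = 1`, `N' = orderOf (ζ ^ k)`, and
`∑ j < N, z ^ (j i) = 0`, so `z ^ i ≠ 1`, whenever `¬ N ∣ k i`, i.e. whenever `¬ N' ∣ i`; so `z` is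
a primitive `N'`-th root of unity, `z = ω' ^ k` by `exists_primitive_lift`. Then
`q ^ w = (-1) ^ n ∏ jac (z)`, and taking `Complex.normSq` with `Base.normSq_jac`: `q ^ (2 w) = q ^ n`,
so `n = 2 w` as `q ≥ 2`; then `∏ jac (z) = q ^ w`, contradicting the hypothesis `hn`. -/
theorem exists_bezout {n : ℕ} (wd : ℕ) (bb aa : Fin n → ℕ)
    (hn : n = 2 * wd → ∀ χ : MulChar 𝔽 ℂ, orderOf χ = b.N →
      ∏ j, jacobiSum (χ ^ bb j) (χ ^ aa j) ≠ (b.q : ℂ) ^ wd)
    (h1 : ∀ j, ¬ b.N ∣ bb j) (h2 : ∀ j, ¬ b.N ∣ aa j) (h3 : ∀ j, ¬ b.N ∣ bb j + aa j) (k : ℕ)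
    (l : Fin n → 𝔽 → ℕ)
    (hl : ∀ (j : Fin n) (c' : 𝔽), c' ≠ 0 → c' ≠ 1 →
      (b.ζ ^ k) ^ l j c' = (c' ^ b.e) ^ bb j * ((1 - c') ^ b.e) ^ aa j) :
    ∃ D : ℤ, D ≠ 0 ∧ C D ∈ Ideal.span (({X ^ orderOf (b.ζ ^ k) - 1,
        C ((b.q : ℤ) ^ wd) - (-1) ^ n * ∏ j, jacPoly 𝔽 (l j)} : Set ℤ[X]) ∪
      {f | ∃ i : ℕ, ¬ b.N ∣ k * i ∧ f = ∑ j ∈ range b.N, X ^ (j * i)}) := by
  apply exists_int_bezout
  intro z
  by_contra hcon
  push Not at hcon
  have e1 : z ^ orderOf (b.ζ ^ k) = 1 := by
    have h := hcon (X ^ orderOf (b.ζ ^ k) - 1) (Or.inl (Or.inl rfl))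
    rw [map_sub, map_pow, aeval_X, map_one, sub_eq_zero] at h
    exact h
  have e2 : ((b.q : ℂ)) ^ wd = (-1) ^ n * ∏ j, ∑ c ∈ univ.filter (fun c : 𝔽 => c ≠ 0 ∧ c ≠ 1),
      z ^ l j c := by
    have h := hcon (C ((b.q : ℤ) ^ wd) - (-1) ^ n * ∏ j, jacPoly 𝔽 (l j)) (Or.inl (Or.inr rfl))
    have h3' : aeval z ((-1 : ℤ[X]) ^ n) = (-1) ^ n := by
      rw [map_pow, map_neg, map_one]
    have h4 : algebraMap ℤ ℂ ((b.q : ℤ) ^ wd) = (b.q : ℂ) ^ wd := by
      rw [map_pow]
      simp
    rw [map_sub, aeval_C, map_mul, h3', h4, map_prod, sub_eq_zero] at h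
    rw [h]
    congr 1
    refine Finset.prod_congr rfl fun j _ => ?_
    rw [jacPoly, map_sum]
    exact Finset.sum_congr rfl fun c _ => by rw [map_pow, aeval_X]
  have e3 : ∀ i : ℕ, ¬ b.N ∣ k * i → z ^ i ≠ 1 := by
    intro i hi hz
    have h := hcon (∑ j ∈ range b.N, X ^ (j * i)) (Or.inr ⟨i, hi, rfl⟩)
    rw [map_sum] at h
    have h5 : ∀ j ∈ range b.N, aeval z (X ^ (j * i) : ℤ[X]) = 1 := by
      intro j _
      rw [map_pow, aeval_X, mul_comm, pow_mul, hz, one_pow]
    rw [Finset.sum_congr rfl h5, Finset.sum_const, card_range, nsmul_eq_mul, mul_one] at h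
    have h6 : b.N = 0 := by exact_mod_cast h
    exact b.N_pos.ne' h6
  have hprim : IsPrimitiveRoot z (orderOf (b.ζ ^ k)) := by
    refine ⟨e1, fun i hi => ?_⟩
    by_contra hdvd
    refine e3 i (fun h => hdvd ?_) hi
    rw [orderOf_dvd_iff_pow_eq_one, ← pow_mul]
    exact (b.hζ.pow_eq_one_iff_dvd _).2 h
  obtain ⟨ω', hω', hω'k⟩ := exists_primitive_lift b.N_pos b.hζ hprim
  have h7 : ∀ j, Complex.normSq (∑ c ∈ univ.filter (fun c : 𝔽 => c ≠ 0 ∧ c ≠ 1), z ^ l j c) =
      b.q := by
    intro j
    rw [← hω'k]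
    exact b.normSq_jac hω' (bb j) (aa j) (h1 j) (h2 j) (h3 j) (l j) (hl j)
  have h8 := congrArg Complex.normSq e2
  rw [map_pow, map_mul, map_pow, map_prod, Finset.prod_congr rfl (fun j _ => h7 j),
    Finset.prod_const, card_univ, Fintype.card_fin, Complex.normSq_neg, map_one, one_pow, one_mul,
    Complex.normSq_natCast] at h8
  have h9 : ((b.q : ℝ)) ^ (2 * wd) = (b.q : ℝ) ^ n := by
    rw [← h8]
    ring
  have h10 : b.q ^ (2 * wd) = b.q ^ n := by exact_mod_cast h9
  have hq : 2 ≤ b.q := by
    have h11 := Nat.mul_pos b.N_pos b.e_pos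
    unfold Base.q
    omega
  have h12 : n = 2 * wd := (Nat.pow_right_injective hq h10).symm
  obtain ⟨χ, hχ, hχ1⟩ := b.exists_char hω'
  have h13 : orderOf χ = b.N :=
    Nat.dvd_antisymm (orderOf_dvd_of_pow_eq_one ((hχ1 b.N).mpr dvd_rfl))
      ((hχ1 _).mp (pow_orderOf_eq_one χ))
  apply hn h12 χ h13
  have h14 : (-1 : ℂ) ^ n = 1 := by rw [h12, pow_mul]; norm_num
  rw [e2, h14, one_mul]
  refine Finset.prod_congr rfl fun j _ => ?_
  rw [← hω'k]
  exact (b.jac_eq hω' (bb j) (aa j) (l j) (hl j) hχ).symm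

end UnrA.Fer
end

section

/-!
# The product as a Fermat curve over the other coordinates
-/

namespace UnrG

universe u v w

open Polynomial Finset
open scoped Classical

variable {m : ℕ} {𝔽 : Type w} [Field 𝔽] [Fintype 𝔽] (b : Base 𝔽)

variable {F M : Type u} [Field F] [Field M] [Algebra F M] (ι : 𝔽 →+* F) {r n : ℕ}
  {t : Fin r → M} {x y : Fin n → M}

private lemma P1_closure (h : ProdData (F := F) b t x y) :
    Subfield.closure (Set.range (algebraMap F M) ∪ (Set.range t ∪ Set.range x ∪ Set.range y)) =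
      ⊤ := by
  have h1 := congrArg IntermediateField.toSubfield h.gen
  rwa [IntermediateField.adjoin_toSubfield, IntermediateField.top_toSubfield] at h1

private lemma P1_gen (h : ProdData (F := F) b t x y) (j : Fin n) :
    Subfield.closure (Set.range (others F t x y j).subtype ∪ {x j, y j}) = ⊤ := by
  rw [eq_top_iff, ← P1_closure b h, Subfield.closure_le]
  have hO : ∀ z ∈ others F t x y j,
      z ∈ Subfield.closure (Set.range (others F t x y j).subtype ∪ {x j, y j}) :=
    fun z hz => Subfield.subset_closure (Or.inl ⟨⟨z, hz⟩, rfl⟩)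
  rintro z (⟨a, rfl⟩ | ((⟨i, rfl⟩ | ⟨i, rfl⟩) | ⟨i, rfl⟩))
  · exact hO _ (Subfield.subset_closure (Or.inl (Or.inl ⟨a, rfl⟩)))
  · exact hO _ (Subfield.subset_closure (Or.inl (Or.inr ⟨i, rfl⟩)))
  · by_cases hij : i = j
    · subst hij
      exact Subfield.subset_closure (Or.inr (Or.inl rfl))
    · exact hO _ (Subfield.subset_closure (Or.inr ⟨i, hij, Or.inl rfl⟩))
  · by_cases hij : i = j
    · subst hij
      exact Subfield.subset_closure (Or.inr (Or.inr rfl))
    · exact hO _ (Subfield.subset_closure (Or.inr ⟨i, hij, Or.inr rfl⟩))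

private lemma P1_transc (h : ProdData (F := F) b t x y) (j : Fin n) :
    ∀ f : (others F t x y j)[X], f ≠ 0 → f.eval₂ (others F t x y j).subtype (x j) ≠ 0 := by
  obtain ⟨B, hB⟩ : ∃ B : IntermediateField F M, B =
    IntermediateField.adjoin F (Sum.elim t x '' {Sum.inr j}ᶜ) := ⟨_, rfl⟩
  have hT0 : Transcendental B (x j) := by
    subst hB
    rw [IntermediateField.transcendental_adjoin_iff]
    exact h.ind.transcendental_adjoin (s := {Sum.inr j}ᶜ) (i := Sum.inr j) (by simp)
  have hT : Transcendental (algebraicClosure B M) (x j) := hT0.algebraicClosure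
  have hmem : ∀ z ∈ B, z ∈ algebraicClosure B M := fun z hz =>
    (algebraicClosure B M).algebraMap_mem ⟨z, hz⟩
  have ht : ∀ i, t i ∈ B := by
    intro i
    rw [hB]
    exact IntermediateField.subset_adjoin _ _ ⟨Sum.inl i, by simp, rfl⟩
  have hx : ∀ i, i ≠ j → x i ∈ B := by
    intro i hij
    rw [hB]
    exact IntermediateField.subset_adjoin _ _ ⟨Sum.inr i, by simp [hij], rfl⟩
  have hle : others F t x y j ≤ (algebraicClosure B M).toSubfield := by
    unfold others
    rw [Subfield.closure_le]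
    rintro z ((⟨a, rfl⟩ | ⟨i, rfl⟩) | ⟨i, hij, rfl | rfl⟩)
    · exact hmem _ (B.algebraMap_mem a)
    · exact hmem _ (ht i)
    · exact hmem _ (hx i hij)
    · have h1 : x i ∈ algebraicClosure B M := hmem _ (hx i hij)
      have h2 : y i ^ b.N ∈ algebraicClosure B M := by
        have h3 : y i ^ b.N = 1 - x i ^ b.N := eq_sub_of_add_eq' (h.eq i)
        rw [h3]
        exact sub_mem (one_mem _) (pow_mem h1 _)
      change y i ∈ algebraicClosure B M
      rw [mem_algebraicClosure_iff'] at h2 ⊢
      exact h2.of_pow b.N_pos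
  intro f hf h0
  have hg : Function.Injective (Subfield.inclusion hle) := (Subfield.inclusion hle).injective
  refine hT ⟨f.map (Subfield.inclusion hle), ?_, ?_⟩
  · exact (Polynomial.map_ne_zero_iff hg).mpr hf
  · rw [aeval_def, eval₂_map]
    exact h0

/-- Hint: transcendence of `x j` over the field generated by the other coordinates: that field is
algebraic over `F(t, x_i : i ≠ j)` since `y_i ^ N = 1 - x_i ^ N`, and `x j` is transcendental over
the latter by algebraic independence (`AlgebraicIndependent.iff_transcendental_adjoin_image` or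
`AlgebraicIndependent` of a disjoint union; algebraic over algebraic is algebraic); generation:
`h.gen` restated with `Subfield.closure`. -/
lemma ProdData.isFermat (h : ProdData (F := F) b t x y) (j : Fin n) :
    IsFermat b.N (others F t x y j).subtype (x j) (y j) :=
  ⟨h.eq j, P1_transc b h j, P1_gen b h j⟩

/-- Hint: `RingHom.eq_of_eqOn_of_field_closure_eq_top`, or the equalizer as an intermediate
field. -/
lemma ProdData.ext (h : ProdData (F := F) b t x y) {E : Type v} [Field E] {f g : M →+* E}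
    (h1 : ∀ a : F, f (algebraMap F M a) = g (algebraMap F M a)) (h2 : ∀ i, f (t i) = g (t i))
    (h3 : ∀ i, f (x i) = g (x i)) (h4 : ∀ i, f (y i) = g (y i)) : f = g := by
  apply RingHom.eq_of_eqOn_of_field_closure_eq_top (P1_closure b h)
  rintro z (⟨a, rfl⟩ | ((⟨i, rfl⟩ | ⟨i, rfl⟩) | ⟨i, rfl⟩))
  · exact h1 a
  · exact h2 i
  · exact h3 i
  · exact h4 i

end UnrG
end

section

/-!
# Diagonal endomorphisms and good classes: formal properties
-/

namespace UnrG

universe u v w

open Polynomial Finset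
open scoped Classical

variable {m : ℕ} {𝔽 : Type w} [Field 𝔽] [Fintype 𝔽] (b : Base 𝔽)

variable {F M : Type u} [Field F] [Field M] [Algebra F M] (ι : 𝔽 →+* F) {r n : ℕ}
  {t : Fin r → M} {x y : Fin n → M}

private lemma P5_fconst {f : M →+* M} (hf : ∀ a : F, f (algebraMap F M a) = algebraMap F M a)
    (i : ℕ) : f (algebraMap F M (ι b.ζ) ^ i) = algebraMap F M (ι b.ζ) ^ i := by
  rw [map_pow, hf]

lemma IsDiag.comp {a c a' c' : Fin n → ℕ} {f g : M →+* M} (hf : IsDiag b ι t x y a c f)
    (hg : IsDiag b ι t x y a' c' g) : IsDiag b ι t x y (a + a') (c + c') (f.comp g) := by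
  refine ⟨?_, ?_, ?_, ?_⟩
  · intro z
    rw [RingHom.comp_apply, hg.const, hf.const]
  · intro i
    rw [RingHom.comp_apply, hg.ft, hf.ft]
  · intro i
    rw [RingHom.comp_apply, hg.fx, map_mul, P5_fconst b ι hf.const, hf.fx, Pi.add_apply, pow_add]
    ring
  · intro i
    rw [RingHom.comp_apply, hg.fy, map_mul, P5_fconst b ι hf.const, hf.fy, Pi.add_apply, pow_add]
    ring

lemma IsDiag.pow {a c : Fin n → ℕ} {f : M →+* M} (hf : IsDiag b ι t x y a c f) (i : ℕ) :
    IsDiag b ι t x y (i • a) (i • c) (f ^ i) := by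
  induction i with
  | zero =>
    refine ⟨fun _ => rfl, fun _ => rfl, ?_, ?_⟩
    · intro i
      simp
    · intro i
      simp
  | succ i ih =>
    rw [succ_nsmul, succ_nsmul, pow_succ]
    exact ih.comp b ι hf

lemma IsDiag.map_mono {a c : Fin n → ℕ} {f : M →+* M} (hf : IsDiag b ι t x y a c f)
    (bb aa : Fin n → ℕ) :
    f (mono x y bb aa) = algebraMap F M (ι b.ζ) ^ wt bb aa a c * mono x y bb aa := by
  unfold mono wt
  rw [map_prod, ← Finset.prod_pow_eq_pow_sum, ← Finset.prod_mul_distrib]
  refine Finset.prod_congr rfl fun j _ => ?_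
  rw [map_mul, map_pow, map_pow, hf.fx, hf.fy, mul_pow, mul_pow, pow_add, ← pow_mul, ← pow_mul,
    mul_comm (a j), mul_comm (c j)]
  ring

lemma Good.zero {bb aa : Fin n → ℕ} : Good b F ι t x y bb aa (0 : KM m M) := by
  refine ⟨Unr.zero, ?_, ?_⟩
  · intro f g _ _ _ _
    rw [map_zero, map_zero]
  · intro a c f _ _
    exact Finset.sum_eq_zero fun i _ => map_zero _

lemma Good.add {bb aa : Fin n → ℕ} {Z Z' : KM m M} (h : Good b F ι t x y bb aa Z)
    (h' : Good b F ι t x y bb aa Z') : Good b F ι t x y bb aa (Z + Z') := by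
  refine ⟨h.unr.add h'.unr, ?_, ?_⟩
  · intro f g h1 h2 h3 h4
    rw [map_add, map_add, h.inv f g h1 h2 h3 h4, h'.inv f g h1 h2 h3 h4]
  · intro a c f hf hw
    simp only [map_add]
    rw [Finset.sum_add_distrib, h.new a c f hf hw, h'.new a c f hf hw, add_zero]

lemma Good.zsmul {bb aa : Fin n → ℕ} {Z : KM m M} (h : Good b F ι t x y bb aa Z) (c : ℤ) :
    Good b F ι t x y bb aa (c • Z) := by
  refine ⟨?_, ?_, ?_⟩
  · have h1 := h.unr.smul (c : ZMod m)
    rwa [Int.cast_smul_eq_zsmul] at h1
  · intro f g h1 h2 h3 h4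
    rw [map_zsmul, map_zsmul, h.inv f g h1 h2 h3 h4]
  · intro a c' f hf hw
    simp only [map_zsmul]
    rw [← Finset.smul_sum, h.new a c' f hf hw, smul_zero]

lemma actL_pow (τ : M →+* M) (i : ℕ) (ξ : KM m M) :
    (actL m τ ^ i) ξ = KM.map m (τ ^ i) ξ := by
  induction i generalizing ξ with
  | zero =>
    rw [pow_zero, pow_zero]
    change ξ = KM.map m (RingHom.id M) ξ
    rw [KM.map_id]
    rfl
  | succ i ih =>
    rw [pow_succ, pow_succ]
    change (actL m τ ^ i) (actL m τ ξ) = KM.map m ((τ ^ i).comp τ) ξ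
    rw [ih, actL_apply, KM.map_map]

end UnrG
end

section

/-!
# Products of Fermat curves: good classes
-/

namespace UnrA.Fer

open UnrG

universe u v w z

open Polynomial Finset
open scoped Classical

variable {m : UFun.{u, z}} {𝔽 : Type w} [Field 𝔽] [Fintype 𝔽] (b : Base 𝔽)

variable {F M : Type u} [Field F] [Field M] [Algebra F M] (ι : 𝔽 →+* F) {r n : ℕ}

/-- The constant of the Frobenius relation. -/
def fc : ℕ := b.N * (b.N * b.e).factorial ^ 2

lemma fc_pos : 0 < fc b := Nat.mul_pos b.N_pos (pow_pos (Nat.factorial_pos _) 2)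

/-- The properties of the classes coming from the field generated by `F`, `t`, the powers
`x_j ^ N` and the monomial `w`. -/
structure Good (F : Type u) [Field F] [Algebra F M] (ι : 𝔽 →+* F) (t : Fin r → M)
    (x y : Fin n → M) (bb aa : Fin n → ℕ) (Z : KM m M) : Prop where
  unr : Unr Z
  inv : ∀ f g : M →+* M, (∀ a : F, f (algebraMap F M a) = g (algebraMap F M a)) →
    (∀ i, f (t i) = g (t i)) → (∀ j, f (x j ^ b.N) = g (x j ^ b.N)) →
    f (mono x y bb aa) = g (mono x y bb aa) → KM.map m f Z = KM.map m g Z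
  new : ∀ (a c : Fin n → ℕ) (f : M →+* M), IsDiag b ι t x y a c f → ¬ b.N ∣ wt bb aa a c →
    ∑ i ∈ range b.N, KM.map m (f ^ i) Z = 0

/-- The additive endomorphism induced by a field homomorphism. -/
noncomputable def actL (m : UFun.{u, z}) (τ : M →+* M) : Module.End ℤ (KM m M) :=
  (KM.map m τ : KM m M →+ KM m M).toIntLinearMap

lemma actL_apply (τ : M →+* M) (ξ : KM m M) : actL m τ ξ = KM.map m τ ξ := rfl

end UnrA.Fer
end

section

/-!
# The Frobenius in the rational coordinates
-/

namespace UnrA.Fer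

open UnrG

universe u v w z

open Polynomial Finset
open scoped Classical

variable {m : UFun.{u, z}} {𝔽 : Type w} [Field 𝔽] [Fintype 𝔽] (b : Base 𝔽)

variable {F M : Type u} [Field F] [Field M] [Algebra F M] (ι : 𝔽 →+* F) {r n : ℕ}
  {t : Fin r → M} {x y : Fin n → M}

private lemma P4_tower (h : ProdData (F := F) b t x y) (i : Fin r) :
    ∃ (K : Type u) (_ : Field K) (j : K →+* M), (∀ f : K[X], f ≠ 0 → f.eval₂ j (t i) ≠ 0) ∧
      Subfield.closure (Set.range j ∪ {t i}) = ⊤ ∧ (∀ a : F, algebraMap F M a ∈ j.range) ∧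
      (∀ k, k ≠ i → t k ∈ j.range) ∧ (∀ k, x k ∈ j.range) ∧ (∀ k, y k ∈ j.range) := by
  set S : Set M := Sum.elim t x '' {Sum.inl i}ᶜ with hS
  have htr : Transcendental (IntermediateField.adjoin F S) (t i) := by
    rw [IntermediateField.transcendental_adjoin_iff]
    exact h.ind.transcendental_adjoin (s := {Sum.inl i}ᶜ) (i := Sum.inl i) (by simp)
  set K0 := IntermediateField.adjoin F S with hK0
  have hxS : ∀ k, x k ∈ K0 := fun k =>
    IntermediateField.subset_adjoin F S ⟨Sum.inr k, by simp, rfl⟩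
  have htS : ∀ k, k ≠ i → t k ∈ K0 := fun k hk =>
    IntermediateField.subset_adjoin F S ⟨Sum.inl k, by simpa using hk, rfl⟩
  have hy : ∀ z ∈ Set.range y, IsIntegral K0 z := by
    rintro _ ⟨k, rfl⟩
    refine ⟨X ^ b.N - C (1 - ⟨x k, hxS k⟩ ^ b.N), monic_X_pow_sub_C _ b.N_pos.ne', ?_⟩
    rw [eval₂_sub, eval₂_X_pow, eval₂_C, map_sub, map_one, map_pow]
    have h1 := h.eq k
    have h2 : algebraMap K0 M ⟨x k, hxS k⟩ = x k := rfl
    rw [h2, ← h1]
    ring
  have halg : Algebra.IsAlgebraic K0 (IntermediateField.adjoin K0 (Set.range y)) :=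
    IntermediateField.isAlgebraic_adjoin hy
  have htr2 : Transcendental (IntermediateField.adjoin K0 (Set.range y)) (t i) :=
    htr.extendScalars _
  have hF : ∀ a : F, algebraMap F M a ∈
      (algebraMap (IntermediateField.adjoin K0 (Set.range y)) M).range := fun a =>
    ⟨⟨algebraMap F M a, (IntermediateField.adjoin K0 (Set.range y)).algebraMap_mem
      (algebraMap F K0 a)⟩, rfl⟩
  have hK : ∀ a : K0, (a : M) ∈
      (algebraMap (IntermediateField.adjoin K0 (Set.range y)) M).range := fun a =>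
    ⟨⟨(a : M), (IntermediateField.adjoin K0 (Set.range y)).algebraMap_mem a⟩, rfl⟩
  have hY : ∀ k, y k ∈
      (algebraMap (IntermediateField.adjoin K0 (Set.range y)) M).range := fun k =>
    ⟨⟨y k, IntermediateField.subset_adjoin K0 _ ⟨k, rfl⟩⟩, rfl⟩
  refine ⟨IntermediateField.adjoin K0 (Set.range y), inferInstance,
    algebraMap _ M, ?_, ?_, hF, fun k hk => hK ⟨t k, htS k hk⟩, fun k => hK ⟨x k, hxS k⟩, hY⟩
  · intro f hf hf0
    exact hf ((transcendental_iff.mp htr2) f hf0)
  · set C := Subfield.closure (Set.range (algebraMap (IntermediateField.adjoin K0 (Set.range y)) M)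
      ∪ {t i}) with hC
    have hsub : ∀ z, z ∈ (algebraMap (IntermediateField.adjoin K0 (Set.range y)) M).range →
        z ∈ C := fun z hz => Subfield.subset_closure (Or.inl (by simpa using hz))
    have hmem : ∀ z : M, z ∈ C := by
      intro z
      have hz : z ∈ IntermediateField.adjoin F (Set.range t ∪ Set.range x ∪ Set.range y) := by
        rw [h.gen]; trivial
      have hle : IntermediateField.adjoin F (Set.range t ∪ Set.range x ∪ Set.range y) ≤
          C.toIntermediateField (fun a => hsub _ (hF a)) := by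
        rw [IntermediateField.adjoin_le_iff]
        rintro w ((⟨k, rfl⟩ | ⟨k, rfl⟩) | ⟨k, rfl⟩)
        · by_cases hk : k = i
          · rw [hk]
            exact Subfield.subset_closure (Or.inr rfl)
          · exact hsub _ (hK ⟨t k, htS k hk⟩)
        · exact hsub _ (hK ⟨x k, hxS k⟩)
        · exact hsub _ (hY k)
      exact hle hz
    exact eq_top_iff.mpr fun z _ => hmem z

private lemma P4_one (m : UFun.{u, z}) (h : ProdData (F := F) b t x y) (i : Fin r) :
    ∃ f : M →+* M, (∀ a : F, f (algebraMap F M a) = algebraMap F M a) ∧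
      f (t i) = t i ^ b.q ∧ (∀ k, k ≠ i → f (t k) = t k) ∧
      (∀ i, f (x i) = x i) ∧ (∀ i, f (y i) = y i) ∧
      ∀ ξ : KM m M, Unr ξ → KM.map m f ξ = ξ := by
  obtain ⟨K, _, j, hj, hT, hF, ht, hx, hy⟩ := P4_tower b h i
  obtain ⟨e, he1, he2⟩ := exists_ratFunc_equiv j hj hT
  have hq : 0 < b.q := Nat.succ_pos _
  have hinj : Function.Injective (eval₂RingHom j (t i ^ b.q)) := by
    rw [injective_iff_map_eq_zero]
    intro f hf
    by_contra hne
    refine hj (expand K b.q f) ?_ ?_
    · rw [Ne, expand_eq_zero hq]; exact hne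
    · rw [expand_eq_comp_X_pow, eval₂_comp, eval₂_X_pow]
      exact hf
  let g : RatFunc K →+* M := IsFractionRing.lift hinj
  have hg : ∀ p : K[X], g (algebraMap K[X] (RatFunc K) p) = p.eval₂ j (t i ^ b.q) := fun p =>
    IsFractionRing.lift_algebraMap hinj p
  let f : M →+* M := g.comp (e.symm : M →+* RatFunc K)
  have hfj : f.comp j = j := by
    ext a
    have h1 : e.symm (j a) = algebraMap K (RatFunc K) a := by
      rw [RingEquiv.symm_apply_eq, ← he1]; rfl
    change g (e.symm (j a)) = j a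
    rw [h1, IsScalarTower.algebraMap_apply K K[X] (RatFunc K), hg]
    simp
  have hfa : ∀ z ∈ j.range, f z = z := by
    rintro _ ⟨a, rfl⟩
    exact DFunLike.congr_fun hfj a
  refine ⟨f, fun a => hfa _ (hF a), ?_, fun k hk => hfa _ (ht k hk), fun k => hfa _ (hx k),
    fun k => hfa _ (hy k), fun ξ hξ => ?_⟩
  · have h1 : e.symm (t i) = algebraMap K[X] (RatFunc K) X := by
      rw [RingEquiv.symm_apply_eq, ← he2, RatFunc.algebraMap_X]
    change g (e.symm (t i)) = _
    rw [h1, hg, eval₂_X]
  · have h1 := unr_transc_map j hj hT hξ f (RingHom.id M) (by rw [hfj]; rfl)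
    rw [h1, KM.map_id]
    rfl

/-- The Frobenius in the coordinates `t` acts trivially on unramified classes. Hint: for a subset
`S` of the indices construct the endomorphism with `t_i ↦ t_i ^ q` for `i ∈ S`, by induction: for
one index `i`, `M` is a simple transcendental extension of the field `K` generated by the other
coordinates (`t_i` is transcendental over `K`, as in `ProdData.isFermat`), the endomorphism
`t_i ↦ t_i ^ q` over `K` exists by `exists_ratFunc_equiv`, and it acts trivially on unramified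
classes by `unr_transc_map` (compare with the identity); unramified classes are preserved by
`Unr.map`. -/
lemma exists_frobT (m : UFun.{u, z}) (h : ProdData (F := F) b t x y) :
    ∃ f : M →+* M, (∀ a : F, f (algebraMap F M a) = algebraMap F M a) ∧
      (∀ i, f (t i) = t i ^ b.q) ∧ (∀ i, f (x i) = x i) ∧ (∀ i, f (y i) = y i) ∧
      ∀ ξ : KM m M, Unr ξ → KM.map m f ξ = ξ := by
  have key : ∀ S : Finset (Fin r), ∃ f : M →+* M,
      (∀ a : F, f (algebraMap F M a) = algebraMap F M a) ∧
      (∀ i ∈ S, f (t i) = t i ^ b.q) ∧ (∀ i, i ∉ S → f (t i) = t i) ∧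
      (∀ i, f (x i) = x i) ∧ (∀ i, f (y i) = y i) ∧
      ∀ ξ : KM m M, Unr ξ → KM.map m f ξ = ξ := by
    intro S
    induction S using Finset.induction_on with
    | empty =>
      refine ⟨RingHom.id M, fun _ => rfl, fun i hi => absurd hi (Finset.notMem_empty i),
        fun _ _ => rfl, fun _ => rfl, fun _ => rfl, fun ξ _ => ?_⟩
      rw [KM.map_id]
      rfl
    | insert i S hi ih =>
      obtain ⟨f, f1, f2, f3, f4, f5, f6⟩ := ih
      obtain ⟨g, g1, g2, g3, g4, g5, g6⟩ := P4_one b m h i
      refine ⟨g.comp f, fun a => ?_, fun k hk => ?_, fun k hk => ?_, fun k => ?_, fun k => ?_,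
        fun ξ hξ => ?_⟩
      · rw [RingHom.comp_apply, f1, g1]
      · rw [RingHom.comp_apply]
        rcases Finset.mem_insert.mp hk with rfl | hk
        · rw [f3 k hi, g2]
        · have hne : k ≠ i := fun h0 => hi (h0 ▸ hk)
          rw [f2 k hk, map_pow, g3 k hne]
      · rw [Finset.mem_insert, not_or] at hk
        rw [RingHom.comp_apply, f3 k hk.2, g3 k hk.1]
      · rw [RingHom.comp_apply, f4, g4]
      · rw [RingHom.comp_apply, f5, g5]
      · rw [← KM.map_map, f6 ξ hξ, g6 ξ hξ]
  obtain ⟨f, f1, f2, -, f4, f5, f6⟩ := key univ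
  exact ⟨f, f1, fun i => f2 i (mem_univ i), f4, f5, f6⟩

end UnrA.Fer
end

section

/-!
# Monomial subfields of products of Fermat curves: definitions
-/

namespace UnrA.Fer

open UnrG

universe u v w z

open Polynomial Finset
open scoped Classical

variable {m : UFun.{u, z}} {𝔽 : Type w} [Field 𝔽] [Fintype 𝔽] (b : Base 𝔽)

variable {F M : Type u} [Field F] [Field M] [Algebra F M] (ι : 𝔽 →+* F) {r n : ℕ}
  {t : Fin r → M} {x y : Fin n → M}

/-- The vanishing of the sums over nontrivial automorphisms of the subfield. -/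
def NewCls (F : Type u) [Field F] [Algebra F M] (ι : 𝔽 →+* F) (t : Fin r → M)
    (x y : Fin n → M) (bb aa : Fin n → ℕ) {E : Type u} [Field E] (i : E →+* M) (z : KM m E) :
    Prop :=
  ∀ (g : E →+* E) (k : ℕ), (∀ (a : F) (e : E), i e = algebraMap F M a → g e = e) →
    (∀ l (e : E), i e = t l → g e = e) → (∀ j (e : E), i e = x j ^ b.N → g e = e) →
    (∀ e : E, i e = mono x y bb aa →
      i (g e) = algebraMap F M (ι b.ζ) ^ k * mono x y bb aa) → ¬ b.N ∣ k →
    ∑ l ∈ range b.N, KM.map m (g ^ l) z = 0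

end UnrA.Fer
end
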