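import Pool.Agent.Lib.MP_859dd5_ag.Mg.G062
import Pool.Agent.Lib.MP_859dd5_ag.Mg.G061
import Pool.Agent.Lib.MP_859dd5_ag.Mg.G069
import Pool.Agent.Lib.MP_859dd5_ag.K.Graded
import Pool.Agent.Lib.MP_859dd5_ag.G.NormD
import Pool.Agent.Lib.MP_859dd5_ag.Mg.G003
import Pool.Agent.Lib.MP_859dd5_ag.Mg.G068
import Pool.Agent.Lib.MP_859dd5_ag.S.Fun

section

/-!
# From functors to Galois cohomology
-/

namespace GC

open UnrA

universe u v

/-- If `N` kills the unramified classes of `K` for all functors with unramified classes which have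
specializations and weight `w`, then it kills the unramified classes of `H^i (K, ℚ_l/ℤ_l(w))` for
all `i ≥ 2` and all `l ≠ p`. -/
theorem killsGal_of_functor {p : ℕ} (hp : p.Prime) {w i N : ℕ} (hi : 2 ≤ i) {K : Type u} [Field K]
    [CharP K p] (h : ∀ A : UFun.{u, u}, A.Specializes →
      (∀ (κ : Type v) [Field κ] [CharP κ p] (r : ℕ), A.HasWeight κ (p ^ r) w) →
        ∀ x ∈ A.nr K, N • x = 0) : KillsGal p w i N K := by
  have : Fact p.Prime := ⟨hp⟩
  obtain ⟨n, rfl⟩ : ∃ n, i = n + 2 := ⟨i - 2, by omega⟩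
  intro l _ hl x hx
  obtain ⟨A, hA1, hA2, hA3⟩ := exists_galois_functor.{u, v} (p := p) (l := l) hl.symm w n
  exact hA3 N K (h A hA1 hA2) x hx

/-- The characteristic of a finite field. -/
lemma charP_of_card {p : ℕ} (hp : p.Prime) {r : ℕ} (hr : 0 < r) {κ : Type v} [Field κ]
    (h : Nat.card κ = p ^ r) : CharP κ p := by
  have : Finite κ := Nat.finite_of_card_ne_zero (by rw [h]; exact (pow_pos hp.pos r).ne')
  have : Fintype κ := Fintype.ofFinite κ
  rw [Nat.card_eq_fintype_card] at h
  obtain ⟨q, hq⟩ := CharP.exists κ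
  have hq' : q.Prime := (CharP.char_is_prime_or_zero κ q).resolve_right fun h0 => by
    subst h0
    have := CharP.charP_to_charZero κ
    exact not_finite κ
  have : Fact q.Prime := ⟨hq'⟩
  obtain ⟨⟨n, hn⟩, h1, h2⟩ := FiniteField.card κ q
  change Fintype.card κ = q ^ n at h2
  rw [h] at h2
  have h3 : q ∣ p ^ r := h2 ▸ dvd_pow_self q hn.ne'
  have h4 := (Nat.prime_dvd_prime_iff_eq hq' hp).mp (hq'.dvd_of_dvd_pow h3)
  rw [← h4]
  exact hq

end GC
end

section

/-!
# Galois theory of the subfields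
-/

namespace UnrG

universe u v w

open Polynomial Finset
open scoped Classical

variable {m : ℕ} {𝔽 : Type w} [Field 𝔽] [Fintype 𝔽] (b : Base 𝔽)

variable {F L : Type u} [Field F] [Field L] [Algebra F L] {ι : 𝔽 →+* F} {r n : ℕ}
  {t : Fin r → L} {a x : Fin (n + 2) → L}


private lemma D3_F_mem (T : IntermediateField F L) (z : F) : algebraMap F L z ∈ T :=
  T.algebraMap_mem z

private lemma D3_pow_mem (i : Fin (n + 2)) : x i ^ b.N ∈ fieldK b F t x :=
  IntermediateField.subset_adjoin F _ (Or.inr ⟨i, rfl⟩)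

private lemma D3_t_mem (i : Fin r) : t i ∈ fieldK b F t x :=
  IntermediateField.subset_adjoin F _ (Or.inl ⟨i, rfl⟩)

/-- A homomorphism fixing `fieldK` is diagonal. -/
private lemma D3_isAdm (ι : 𝔽 →+* F) (h : DiagData b t (F := F) a x) (f : L →+* L)
    (hf : ∀ z ∈ fieldK b F t x, f z = z) :
    ∃ c : Fin (n + 2) → ZMod b.N, IsAdm b ι t x c f := by
  have hζ : IsPrimitiveRoot (algebraMap F L (ι b.ζ)) b.N :=
    b.hζ_map ((algebraMap F L).comp ι)
  have key : ∀ i, ∃ k : ZMod b.N, f (x i) = algebraMap F L (ι b.ζ) ^ k.val * x i := by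
    intro i
    have h1 : (f (x i) / x i) ^ b.N = 1 := by
      rw [div_pow, ← map_pow, hf _ (D3_pow_mem b i), div_self]
      exact pow_ne_zero _ (h.x_ne b i)
    obtain ⟨k, hk, hk'⟩ := hζ.eq_pow_of_pow_eq_one h1
    refine ⟨(k : ZMod b.N), ?_⟩
    rw [ZMod.val_natCast, Nat.mod_eq_of_lt hk, hk', div_mul_cancel₀ _ (h.x_ne b i)]
  choose c hc using key
  exact ⟨c, fun z => hf _ (D3_F_mem _ z), fun i => hf _ (D3_t_mem b i), hc⟩

private lemma D3_exp_unique (h : DiagData b t (F := F) a x) {c c' : Fin (n + 2) → ZMod b.N}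
    {f : L →+* L} (hf : IsAdm b ι t x c f) (hf' : IsAdm b ι t x c' f) : c = c' := by
  have hζ : IsPrimitiveRoot (algebraMap F L (ι b.ζ)) b.N :=
    b.hζ_map ((algebraMap F L).comp ι)
  funext i
  have h1 := (hf.fx i).symm.trans (hf'.fx i)
  have h2 := mul_right_cancel₀ (h.x_ne b i) h1
  exact ZMod.val_injective _ (hζ.pow_inj (ZMod.val_lt _) (ZMod.val_lt _) h2)

private lemma D3_bij (h : DiagData b t (F := F) a x) {c : Fin (n + 2) → ZMod b.N}
    {f : L →+* L} (hf : IsAdm b ι t x c f) : Function.Bijective f := by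
  have h1 : f ^ b.N = RingHom.id L := by
    refine IsAdm.unique b (ι := ι) h (c := 0) ?_ (IsAdm.id' b)
    have h2 := IsAdm.pow b hf b.N
    have h3 : b.N • c = 0 := by
      funext i
      simp
    rwa [h3] at h2
  have hs : ∀ k : ℕ, ∀ z : L, (f ^ k) z = f^[k] z := fun k z => by
    rw [RingHom.coe_pow]
  refine ⟨f.injective, fun z => ?_⟩
  have h2 : (f ^ b.N) z = z := by rw [h1]; rfl
  rw [hs] at h2
  obtain ⟨k, hk⟩ : ∃ k, b.N = k + 1 := ⟨b.N - 1, by have := b.N_pos; omega⟩
  rw [hk, Function.iterate_succ_apply'] at h2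
  exact ⟨_, h2⟩

/-- The homomorphism of an automorphism over `T`. -/
private lemma D3_gal (ι : 𝔽 →+* F) (h : DiagData b t (F := F) a x) (T : IntermediateField F L)
    (hT : fieldK b F t x ≤ T) (g : L ≃ₐ[T] L) :
    ∃ c : Fin (n + 2) → ZMod b.N, IsAdm b ι t x c (g : L →+* L) :=
  D3_isAdm b ι h _ (fun z hz => g.commutes ⟨z, hT hz⟩)

private lemma D3_T_ne (ι : 𝔽 →+* F) (T : IntermediateField F L) : ((b.N : ℕ) : T) ≠ 0 :=
  b.N_ne ((algebraMap F T).comp ι)

private lemma D3_split (ι : 𝔽 →+* F) (h : DiagData b t (F := F) a x) (T : IntermediateField F L)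
    (hT : fieldK b F t x ≤ T) :
    ∃ p : T[X], p.IsSplittingField T L ∧ Algebra.IsSeparable T L := by
  have hζ : IsPrimitiveRoot (algebraMap F L (ι b.ζ)) b.N :=
    b.hζ_map ((algebraMap F L).comp ι)
  obtain ⟨y, hy⟩ : ∃ y : Fin (n + 2) → T, ∀ i, algebraMap T L (y i) = x i ^ b.N :=
    ⟨fun i => ⟨x i ^ b.N, hT (D3_pow_mem b i)⟩, fun i => rfl⟩
  have hy0 : ∀ i, y i ≠ 0 := by
    intro i h0
    have h1 := hy i
    rw [h0, map_zero] at h1
    exact pow_ne_zero _ (h.x_ne b i) h1.symm
  have htop : IntermediateField.adjoin T (Set.range x) = ⊤ := by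
    rw [eq_top_iff]
    have h1 : (IntermediateField.adjoin F (Set.range t ∪ Set.range x)) ≤
        (IntermediateField.adjoin T (Set.range x)).restrictScalars F := by
      rw [IntermediateField.adjoin_le_iff]
      rintro z (⟨i, rfl⟩ | ⟨i, rfl⟩)
      · exact (IntermediateField.adjoin T (Set.range x)).algebraMap_mem
          ⟨t i, hT (D3_t_mem b i)⟩
      · exact IntermediateField.subset_adjoin T _ ⟨i, rfl⟩
    rw [h.gen] at h1
    intro z _
    exact h1 (IntermediateField.mem_top)
  have hroot : ∀ i, aeval (x i) (X ^ b.N - C (y i) : T[X]) = 0 := by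
    intro i
    rw [map_sub, map_pow, aeval_X, aeval_C, hy, sub_self]
  have hint : ∀ i, IsIntegral T (x i) := fun i =>
    ⟨X ^ b.N - C (y i), monic_X_pow_sub_C _ b.N_pos.ne', by rw [← aeval_def]; exact hroot i⟩
  have hsep : ∀ i, IsSeparable T (x i) := by
    intro i
    have h1 : (X ^ b.N - C (y i) : T[X]).Separable :=
      separable_X_pow_sub_C _ (D3_T_ne b ι T) (hy0 i)
    exact h1.of_dvd (minpoly.dvd _ _ (hroot i))
  refine ⟨∏ i, (X ^ b.N - C (y i)), ⟨?_, ?_⟩, ?_⟩
  · rw [Polynomial.map_prod]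
    refine Splits.prod fun i _ => ?_
    rw [Polynomial.map_sub, Polynomial.map_pow, map_X, map_C, hy]
    exact X_pow_sub_C_splits_of_isPrimitiveRoot hζ rfl
  · rw [← top_le_iff]
    have h1 : IntermediateField.adjoin T (Set.range x) = ⊤ := htop
    have h2 := congrArg IntermediateField.toSubalgebra h1
    rw [IntermediateField.adjoin_toSubalgebra_of_isAlgebraic
      (fun z hz => by obtain ⟨i, rfl⟩ := hz; exact (hint i).isAlgebraic),
      IntermediateField.top_toSubalgebra] at h2
    rw [← h2]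
    apply Algebra.adjoin_mono
    rintro z ⟨i, rfl⟩
    have h0 : (∏ i, (X ^ b.N - C (y i)) : T[X]) ≠ 0 :=
      Finset.prod_ne_zero_iff.mpr fun i _ => (monic_X_pow_sub_C _ b.N_pos.ne').ne_zero
    rw [mem_rootSet]
    refine ⟨h0, ?_⟩
    rw [map_prod]
    exact Finset.prod_eq_zero (Finset.mem_univ i) (hroot i)
  · have h1 : Algebra.IsSeparable T (IntermediateField.adjoin T (Set.range x)) :=
      (IntermediateField.isSeparable_adjoin_iff_isSeparable T L).mpr
        (fun z hz => by obtain ⟨i, rfl⟩ := hz; exact hsep i)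
    rw [htop] at h1
    exact Algebra.IsSeparable.of_algHom T (⊤ : IntermediateField T L)
      (IntermediateField.topEquiv (F := T) (E := L)).symm.toAlgHom

/-- `L` is a Kummer extension of each subfield containing `F`, `t` and the `x_i ^ N`. Hint: it is
generated over `T` by the roots `x_i` of the separable polynomials `X ^ N - x_i ^ N`, which split
(`ζ ∈ F`), so it is Galois (`IsGalois.of_separable_splitting_field` for their product, or
`IntermediateField`-suprema); the degree is at most `N ^ (n + 1)` because `x_0 = 1`. -/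
theorem galois_fieldT (ι : 𝔽 →+* F) (h : DiagData b t (F := F) a x) (T : IntermediateField F L)
    (hT : fieldK b F t x ≤ T) :
    FiniteDimensional T L ∧ IsGalois T L ∧ Module.finrank T L ≤ b.N ^ (n + 1) := by
  obtain ⟨p, hp, hs⟩ := D3_split b ι h T hT
  have hfd : FiniteDimensional T L := hp.finiteDimensional (K := T) (L := L) p
  have hno : Normal T L := Normal.of_isSplittingField p
  have hG : IsGalois T L := ⟨⟩
  refine ⟨hfd, hG, ?_⟩
  rw [← IsGalois.card_aut_eq_finrank]
  choose c hc using D3_gal b ι h T hT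
  have hinj : Function.Injective (fun g : L ≃ₐ[T] L => fun i : Fin (n + 1) => c g i.succ) := by
    intro g g' hgg
    have h1 : c g = c g' := by
      funext i
      refine Fin.cases ?_ (fun i => congrFun hgg i) i
      rw [IsAdm.zero_eq b h (hc g), IsAdm.zero_eq b h (hc g')]
    have h2 : (g : L →+* L) = (g' : L →+* L) := by
      refine IsAdm.unique b h (hc g) ?_
      rw [h1]
      exact hc g'
    exact AlgEquiv.ext fun z => RingHom.congr_fun h2 z
  have h1 := Nat.card_le_card_of_injective _ hinj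
  rw [Nat.card_eq_fintype_card (α := Fin (n + 1) → ZMod b.N), Fintype.card_fun, ZMod.card,
    Fintype.card_fin] at h1
  exact h1

/-- The automorphisms of `L` over `T` are the diagonal automorphisms fixing `T`. Hint: an
automorphism `g` over `T` fixes `x_i ^ N`, so `g x_i = ζ ^ k x_i`; so it is diagonal, and
diagonal automorphisms are determined by their exponents (`IsAdm.unique`), and different
exponents give different automorphisms (`x i ≠ 0`, `ζ` primitive). Conversely, `adm c` is bijective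
(finite order: `IsAdm.pow` with exponent `N`). -/
theorem exists_galEquiv (h : DiagData b t (F := F) a x) (T : IntermediateField F L)
    (hT : fieldK b F t x ≤ T) [FiniteDimensional T L] [IsGalois T L] :
    ∃ e : (L ≃ₐ[T] L) ≃ admFix b ι t x T, ∀ g : L ≃ₐ[T] L,
      (g : L →+* L) = adm b ι t x (e g).1 := by
  choose c hc using D3_gal b ι h T hT
  have hadm : ∀ g, adm b ι t x (c g) = (g : L →+* L) := fun g =>
    IsAdm.unique b h (isAdm_adm b ι ((mem_admSet b ι).mpr ⟨_, hc g⟩)) (hc g)
  have hmem : ∀ g, c g ∈ admFix b ι t x T := by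
    intro g
    refine Finset.mem_filter.mpr ⟨(mem_admSet b ι).mpr ⟨_, hc g⟩, fun z hz => ?_⟩
    rw [hadm g]
    exact g.commutes ⟨z, hz⟩
  refine ⟨Equiv.ofBijective (fun g => ⟨c g, hmem g⟩) ⟨?_, ?_⟩, fun g => (hadm g).symm⟩
  · intro g g' hgg
    have h1 : c g = c g' := congrArg Subtype.val hgg
    have h2 : (g : L →+* L) = (g' : L →+* L) := by
      rw [← hadm g, ← hadm g', h1]
    exact AlgEquiv.ext fun z => RingHom.congr_fun h2 z
  · rintro ⟨d, hd⟩
    have hd' := Finset.mem_filter.mp hd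
    have hA := isAdm_adm b ι hd'.1
    obtain ⟨g, hg⟩ : ∃ g : L ≃ₐ[T] L, (g : L →+* L) = adm b ι t x d := by
      refine ⟨AlgEquiv.ofBijective
        ({ adm b ι t x d with commutes' := fun z => hd'.2 _ z.2 } : L →ₐ[T] L)
        (D3_bij b h hA), ?_⟩
      ext z
      rfl
    refine ⟨g, Subtype.ext ?_⟩
    refine D3_exp_unique b h (hc g) ?_
    rw [hg]
    exact hA

/-- The trace to `T`. Hint: `exists_galEquiv`, `exists_trace`, and for the degree part project to
degree `j` (`KM.proj_mem`, `KM.proj_map`, `KM.proj_eq`, `KM.deg_map`). -/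
theorem exists_trT (hm : Any m) (h : DiagData b t (F := F) a x) (T : IntermediateField F L)
    (hT : fieldK b F t x ≤ T) {j : ℕ} {ξ : KM m L} (hξ : ξ ∈ KM.deg m L j) :
    ∃ y : KM m T, y ∈ KM.deg m T j ∧
      KM.map m (algebraMap T L) y = trT b ι t x T ξ := by
  obtain ⟨hfd, hG, -⟩ := galois_fieldT b ι h T hT
  obtain ⟨e, he⟩ := exists_galEquiv b (ι := ι) h T hT
  obtain ⟨y, hy⟩ := exists_trace (K := T) (L := L) hm ξ
  have h1 : ∑ σ : L ≃ₐ[T] L, KM.map m (σ : L →+* L) ξ = trT b ι t x T ξ := by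
    unfold trT
    rw [← Finset.sum_coe_sort (admFix b ι t x T)]
    exact Fintype.sum_equiv e _ _ (fun g => by rw [he g])
  rw [h1] at hy
  refine ⟨KM.proj m T j y, KM.proj_mem j y, ?_⟩
  rw [← KM.proj_map, hy]
  refine KM.proj_eq ?_
  unfold trT
  exact Submodule.sum_mem _ (fun c _ => KM.deg_map _ hξ)

/-- The number of diagonal automorphisms fixing `T` is the degree. -/
theorem card_admFix (h : DiagData b t (F := F) a x) (T : IntermediateField F L)
    (hT : fieldK b F t x ≤ T) : (admFix b ι t x T).card = Module.finrank T L := by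
  obtain ⟨hfd, hG, -⟩ := galois_fieldT b ι h T hT
  obtain ⟨e, -⟩ := exists_galEquiv b (ι := ι) h T hT
  rw [← IsGalois.card_aut_eq_finrank, Nat.card_congr e, Nat.card_eq_fintype_card,
    Fintype.card_coe]

/-- The projection of the trace. Proof: `∑ c ∈ admSet, w (pair α c) • adm c (∑ c' ∈ admFix, adm c' ξ)
= ∑ c' ∈ admFix, ∑ c ∈ admSet, w (pair α (c + c')) • adm (c + c') ξ` since `pair α c' = 0`, and each
inner sum is `vv α ξ` (`sum_admSet_add`, `adm_add`). -/
theorem vv_trT (h : DiagData b t (F := F) a x) (w : ZMod b.N → ℤ) (T : IntermediateField F L)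
    {α : Fin (n + 2) → ZMod b.N} (hα : ∀ c ∈ admFix b ι t x T, pair α c = 0) (ξ : KM m L) :
    vv b ι t x w α (trT b ι t x T ξ) = (admFix b ι t x T).card • vv b ι t x w α ξ := by
  have h1 : ∀ c' ∈ admFix b ι t x T,
      ∑ c ∈ admSet b ι t x, w (pair α c) • KM.map m (adm b ι t x c)
        (KM.map m (adm b ι t x c') ξ) = vv b ι t x w α ξ := by
    intro c' hc'
    have hc2 := (Finset.mem_filter.mp hc').1
    unfold vv
    rw [← sum_admSet_add b hc2 (fun c => w (pair α c) • KM.map m (adm b ι t x c) ξ)]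
    refine Finset.sum_congr rfl fun c hc => ?_
    have h2 : pair α (c + c') = pair α c := by
      have h3 : pair α (c + c') = pair α c + pair α c' := by
        unfold pair
        rw [← Finset.sum_add_distrib]
        exact Finset.sum_congr rfl fun i _ => by rw [Pi.add_apply, mul_add]
      rw [h3, hα c' hc', add_zero]
    rw [h2, adm_add b h hc hc2, ← KM.map_map]
  have h2 : vv b ι t x w α (trT b ι t x T ξ) =
      ∑ c' ∈ admFix b ι t x T, ∑ c ∈ admSet b ι t x, w (pair α c) • KM.map m (adm b ι t x c)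
        (KM.map m (adm b ι t x c') ξ) := by
    rw [Finset.sum_comm]
    unfold vv trT
    refine Finset.sum_congr rfl fun c _ => ?_
    rw [map_sum, Finset.smul_sum]
  rw [h2, Finset.sum_congr rfl h1, Finset.sum_const]

/-- A homomorphism of a subfield over `fieldK` extends to a diagonal automorphism. Hint: `L` is
normal over `fieldK`, so the homomorphism `g : T → T ⊆ L` over `fieldK` extends to an automorphism
of `L` over `fieldK` (`AlgHom.liftNormal`, or `IsAlgClosure`/`Normal` lifting with `L` as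
splitting field), which is diagonal by `exists_galEquiv` for `fieldK`. -/
theorem exists_adm_extension (ι : 𝔽 →+* F) (h : DiagData b t (F := F) a x) (T : IntermediateField F L)
    (hT : fieldK b F t x ≤ T) (g : T →+* T)
    (hg : ∀ z : T, (z : L) ∈ fieldK b F t x → g z = z) :
    ∃ (c : Fin (n + 2) → ZMod b.N) (f : L →+* L), IsAdm b ι t x c f ∧
      ∀ z : T, f z = g z := by
  obtain ⟨hfd, hG, -⟩ := galois_fieldT b ι h (fieldK b F t x) le_rfl
  obtain ⟨T', hT'⟩ : ∃ T' : IntermediateField (fieldK b F t x) L,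
      T' = IntermediateField.extendScalars hT := ⟨_, rfl⟩
  have hmem : ∀ z, z ∈ T' ↔ z ∈ T := by
    intro z
    rw [hT', IntermediateField.mem_extendScalars]
  let j₁ : T' →+* T :=
    { toFun := fun z => ⟨z, (hmem _).mp z.2⟩
      map_one' := rfl
      map_mul' := fun u v => rfl
      map_zero' := rfl
      map_add' := fun u v => rfl }
  let j₂ : T →+* T' :=
    { toFun := fun z => ⟨z, (hmem _).mpr z.2⟩
      map_one' := rfl
      map_mul' := fun u v => rfl
      map_zero' := rfl
      map_add' := fun u v => rfl }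
  let g' : T' →ₐ[fieldK b F t x] T' :=
    { j₂.comp (g.comp j₁) with
      commutes' := fun u => by
        have e1 : j₁ (algebraMap (fieldK b F t x) T' u) = ⟨u, hT u.2⟩ := Subtype.ext rfl
        change j₂ (g (j₁ (algebraMap (fieldK b F t x) T' u))) = algebraMap (fieldK b F t x) T' u
        rw [e1, hg _ u.2]
        exact Subtype.ext rfl }
  obtain ⟨f, hf⟩ : ∃ f : L →ₐ[fieldK b F t x] L, ∀ z : T', f z = g' z :=
    ⟨g'.liftNormal L, fun z => g'.liftNormal_commutes L z⟩
  obtain ⟨c, hc⟩ := D3_isAdm b ι h (f : L →+* L) (fun z hz => f.commutes ⟨z, hz⟩)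
  exact ⟨c, f, hc, fun z => hf ⟨z, (hmem _).mpr z.2⟩⟩

end UnrG
end

section

/-!
# Purely transcendental subfields
-/

namespace UnrG

universe u v w

open Polynomial Finset
open scoped Classical

variable {m : ℕ} {𝔽 : Type w} [Field 𝔽] [Fintype 𝔽] (b : Base 𝔽)

variable {F L : Type u} [Field F] [Field L] [Algebra F L] {ι : 𝔽 →+* F} {r n : ℕ}
  {t : Fin r → L} {a x : Fin (n + 2) → L}

/-- The trace to a purely transcendental subfield. Proof: let `y` be the class of `exists_trT`; its
restriction to `L` is unramified, so `finrank T L • y` is unramified (`unr_smul_of_map`), hence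
constant (`unr_purely`); its restriction to `L` is homogeneous of degree at least two and comes from
`F`, so it vanishes (`const_eq_zero`). -/
theorem trT_eq_zero (hm : Any m) (h : DiagData b t (F := F) a x)
    (hF : ∀ a : F, a ≠ 0 → ∃ n > 0, a ^ n = 1) (T : IntermediateField F L)
    (hT : fieldK b F t x ≤ T) {s : ℕ} (v : Fin s → T) (hv : AlgebraicIndependent F v)
    (hgen : IntermediateField.adjoin F (Set.range v) = ⊤) {j : ℕ} (hj : 2 ≤ j) {ξ : KM m L}
    (hξ : Unr ξ) (hd : ξ ∈ KM.deg m L j) :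
    (admFix b ι t x T).card • trT b ι t x T ξ = 0 := by
  obtain ⟨hfd, hgal, -⟩ := galois_fieldT b ι h T hT
  obtain ⟨y, hy, hyT⟩ := exists_trT (ι := ι) b hm h T hT hd
  have h1 : Unr (KM.map m (algebraMap T L) y) := by
    rw [hyT]
    intro A hA
    exact sum_mem fun c _ => (hξ.map (adm b ι t x c)) A hA
  have h2 : Unr (Module.finrank T L • y) := unr_smul_of_map hm h1
  obtain ⟨y', hy'⟩ := unr_purely hm v hv hgen h2
  have h3 : KM.map m (algebraMap F L) y' = Module.finrank T L • trT b ι t x T ξ := by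
    have h4 : algebraMap F L = (algebraMap T L).comp (algebraMap F T) := rfl
    rw [h4, ← KM.map_map, hy', map_nsmul, hyT]
  have h5 : Module.finrank T L • trT b ι t x T ξ ∈ KM.deg m L j := by
    rw [← hyT, ← map_nsmul]
    exact KM.deg_map (algebraMap T L) (nsmul_mem hy _)
  rw [card_admFix b h T hT, ← h3]
  exact const_eq_zero hm (algebraMap F L) hF hj y' (by rw [h3]; exact h5)

/-- The projection of an unramified class to an exponent killed by the automorphisms over a purely
transcendental subfield. Hint: `trT_eq_zero`, `vv_trT`, `card_admFix`, `galois_fieldT`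
(the degree is at most `N ^ (n + 1)`, so it divides the factorial), `vv_zsmul`. -/
theorem vv_eq_zero_of_purely (hm : Any m) (h : DiagData b t (F := F) a x)
    (hF : ∀ a : F, a ≠ 0 → ∃ n > 0, a ^ n = 1) (w : ZMod b.N → ℤ) (T : IntermediateField F L)
    (hT : fieldK b F t x ≤ T) {s : ℕ} (v : Fin s → T) (hv : AlgebraicIndependent F v)
    (hgen : IntermediateField.adjoin F (Set.range v) = ⊤) {α : Fin (n + 2) → ZMod b.N}
    (hα : ∀ c ∈ admFix b ι t x T, pair α c = 0) {j : ℕ} (hj : 2 ≤ j) {ξ : KM m L}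
    (hξ : Unr ξ) (hd : ξ ∈ KM.deg m L j) :
    ((b.N ^ (n + 1)).factorial ^ 2) • vv b ι t x w α ξ = 0 := by
  obtain ⟨hfd, hgal, hle⟩ := galois_fieldT b ι h T hT
  have h1 := trT_eq_zero (ι := ι) b hm h hF T hT v hv hgen hj hξ hd
  have h2 := congrArg (vv b ι t x w α) h1
  have h3 : vv b ι t x w α (0 : KM m L) = 0 := by
    unfold vv
    simp only [map_zero, smul_zero, Finset.sum_const_zero]
  rw [h3, ← natCast_zsmul, vv_zsmul, natCast_zsmul, vv_trT b h w T hα, ← mul_nsmul'] at h2
  have hcard : (admFix b ι t x T).card = Module.finrank T L := card_admFix b h T hT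
  have hpos : 0 < (admFix b ι t x T).card := by
    rw [hcard]
    exact Module.finrank_pos
  have hdvd : (admFix b ι t x T).card ∣ (b.N ^ (n + 1)).factorial :=
    Nat.dvd_factorial hpos (by rw [hcard]; exact hle)
  obtain ⟨k, hk⟩ := mul_dvd_mul hdvd hdvd
  rw [sq, hk, mul_comm, mul_nsmul', h2, nsmul_zero]

end UnrG
end

section

/-!
# Exponents which are not minimal
-/

namespace UnrG

universe u v w

open Polynomial Finset
open scoped Classical

variable {m : ℕ} {𝔽 : Type w} [Field 𝔽] [Fintype 𝔽] (b : Base 𝔽)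

variable {F L : Type u} [Field F] [Field L] [Algebra F L] {ι : 𝔽 →+* F} {r n : ℕ}
  {t : Fin r → L} {a x : Fin (n + 2) → L}

/-- The field of ratios of the coordinates in the two parts of a partition. -/
def ratioField (F : Type u) [Field F] [Algebra F L] (t : Fin r → L) (x : Fin (n + 2) → L)
    (I : Finset (Fin (n + 2))) (i₀ i₁ : Fin (n + 2)) : IntermediateField F L :=
  IntermediateField.adjoin F (Set.range t ∪ {z | ∃ i ∈ I, z = x i / x i₀} ∪
    {z | ∃ i, i ∉ I ∧ z = x i / x i₁})

private lemma D5_indep (h : DiagData b t (F := F) a x) :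
    AlgebraicIndependent (IntermediateField.adjoin F (Set.range t))
      (fun i : Fin n => x i.castSucc.succ) := by
  have h1 : AlgebraicIndependent F (Sum.elim (fun i : Fin n => x i.castSucc.succ) t) := by
    have h2 := h.ind.comp Sum.swap Sum.swap_leftInverse.injective
    have h3 : Sum.elim t (fun i : Fin n => x i.castSucc.succ) ∘ Sum.swap =
        Sum.elim (fun i : Fin n => x i.castSucc.succ) t := by
      funext i
      rcases i with i | i <;> rfl
    rwa [h3] at h2
  exact IntermediateField.algebraicIndependent_adjoin_iff.mpr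
    (AlgebraicIndependent.sumElim_iff.mp h1).2

private lemma D5_lin (h : DiagData b t (F := F) a x)
    (d0 : IntermediateField.adjoin F (Set.range t))
    (d : Fin n → IntermediateField.adjoin F (Set.range t))
    (h0 : (d0 : L) + ∑ i, (d i : L) * x i.castSucc.succ ^ b.N = 0) : d0 = 0 ∧ ∀ i, d i = 0 := by
  have h1 := D5_indep b h
  rw [algebraicIndependent_iff] at h1
  have h2 := h1 (MvPolynomial.C d0 + ∑ i, MvPolynomial.C (d i) * MvPolynomial.X i ^ b.N) (by
    rw [map_add, map_sum, MvPolynomial.aeval_C]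
    simp only [map_mul, map_pow, MvPolynomial.aeval_C, MvPolynomial.aeval_X]
    exact h0)
  have h3 : d0 = 0 := by
    have h4 := congrArg (MvPolynomial.eval (fun _ => 0)) h2
    simpa [zero_pow b.N_pos.ne'] using h4
  refine ⟨h3, fun i => ?_⟩
  have h4 := congrArg (MvPolynomial.eval (Pi.single i 1)) h2
  rw [map_add, MvPolynomial.eval_C, map_sum, h3, zero_add, map_zero,
    Finset.sum_eq_single i] at h4
  · rw [map_mul, MvPolynomial.eval_C, map_pow, MvPolynomial.eval_X, Pi.single_eq_same, one_pow,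
      mul_one] at h4
    exact h4
  · intro j _ hj
    rw [map_mul, map_pow, MvPolynomial.eval_X, Pi.single_eq_of_ne hj, zero_pow b.N_pos.ne',
      mul_zero]
  · intro hi
    exact absurd (mem_univ i) hi

private lemma D5_last (h : DiagData b t (F := F) a x) {I : Finset (Fin (n + 2))}
    (hI : I.Nonempty) (hl : (Fin.last n).succ ∉ I) : ∑ i ∈ I, a i * x i ^ b.N ≠ 0 := by
  intro h0
  have h1 : ∑ i ∈ I, a i * x i ^ b.N = ∑ i, if i ∈ I then a i * x i ^ b.N else 0 := by
    rw [Finset.sum_ite_mem, Finset.univ_inter]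
  rw [h1, Fin.sum_univ_succ, Fin.sum_univ_castSucc, if_neg hl, add_zero, h.x_zero, one_pow,
    mul_one] at h0
  let d0 : IntermediateField.adjoin F (Set.range t) := if (0 : Fin (n + 2)) ∈ I then
    ⟨a 0, h.a_mem 0⟩ else 0
  let d : Fin n → IntermediateField.adjoin F (Set.range t) := fun i =>
    if i.castSucc.succ ∈ I then ⟨a i.castSucc.succ, h.a_mem _⟩ else 0
  have h2 : (d0 : L) + ∑ i, (d i : L) * x i.castSucc.succ ^ b.N = 0 := by
    rw [← h0]
    congr 1
    · simp only [d0]
      split_ifs <;> rfl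
    · refine Finset.sum_congr rfl fun i _ => ?_
      simp only [d]
      split_ifs
      · rfl
      · exact zero_mul _
  obtain ⟨h3, h4⟩ := D5_lin b h d0 d h2
  obtain ⟨i, hi⟩ := hI
  have key : ∀ i, i ∉ I := by
    intro i
    refine Fin.cases ?_ (fun i => ?_) i
    · intro hi
      simp only [d0, if_pos hi] at h3
      exact h.a_ne 0 (congrArg Subtype.val h3)
    · refine Fin.lastCases hl (fun i => ?_) i
      intro hi
      have h5 := h4 i
      simp only [d, if_pos hi] at h5
      exact h.a_ne _ (congrArg Subtype.val h5)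
  exact key i hi

/-- A proper nonempty partial sum of the defining equation does not vanish. Hint: by `rel` the sum
over `I` vanishes iff the sum over the complement does; one of the two does not contain the last
index; this is a relation between `1` and the `x_i ^ N`, `1 ≤ i ≤ n`, with nonzero coefficients in
`F(t)`, and these elements are algebraically independent. -/
lemma sum_ne_zero_of_proper (h : DiagData b t (F := F) a x) {I : Finset (Fin (n + 2))}
    (hI : I.Nonempty) (hI' : I ≠ univ) : ∑ i ∈ I, a i * x i ^ b.N ≠ 0 := by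
  by_cases hl : (Fin.last n).succ ∈ I
  · intro h0
    have h1 : Iᶜ.Nonempty := by
      rw [Finset.nonempty_iff_ne_empty]
      intro h2
      exact hI' (Finset.compl_eq_empty_iff I |>.mp h2)
    refine D5_last b h h1 (by simpa using hl) ?_
    have h2 := Finset.sum_add_sum_compl I fun i => a i * x i ^ b.N
    rw [h0, zero_add, h.rel] at h2
    exact h2
  · exact D5_last b h hI hl

private lemma D5_a_mem (h : DiagData b t (F := F) a x) (I : Finset (Fin (n + 2)))
    (i₀ i₁ : Fin (n + 2)) (i : Fin (n + 2)) : a i ∈ ratioField F t x I i₀ i₁ := by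
  have h1 : IntermediateField.adjoin F (Set.range t) ≤ ratioField F t x I i₀ i₁ :=
    IntermediateField.adjoin.mono _ _ _ (fun z hz => Or.inl (Or.inl hz))
  exact h1 (h.a_mem i)

/-- Hint: let `A = ∑ i ∈ I, a i (x i / x i₀) ^ N` and `B = ∑ i ∉ I, a i (x i / x i₁) ^ N`; they are
nonzero (`sum_ne_zero_of_proper`), lie in the field, and `A x_{i₀} ^ N + B x_{i₁} ^ N = 0`, so
`(x_{i₀} / x_{i₁}) ^ N` lies in the field. If `0 ∈ I` then `1 / x_{i₀}` is a ratio, so `x_i` lies in
the field for `i ∈ I` and `x_{i₁} ^ N` does, hence `x_i ^ N` for `i ∉ I`; similarly if `0 ∉ I`. -/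
lemma fieldK_le_ratioField (h : DiagData b t (F := F) a x) {I : Finset (Fin (n + 2))}
    {i₀ i₁ : Fin (n + 2)} (h₀ : i₀ ∈ I) (h₁ : i₁ ∉ I) :
    fieldK b F t x ≤ ratioField F t x I i₀ i₁ := by
  set R := ratioField F t x I i₀ i₁ with hR
  have r0 : ∀ i ∈ I, x i / x i₀ ∈ R := fun i hi =>
    IntermediateField.subset_adjoin _ _ (Or.inl (Or.inr ⟨i, hi, rfl⟩))
  have r1 : ∀ i, i ∉ I → x i / x i₁ ∈ R := fun i hi =>
    IntermediateField.subset_adjoin _ _ (Or.inr ⟨i, hi, rfl⟩)
  have hn0 := h.x_ne b i₀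
  have hn1 := h.x_ne b i₁
  have hA : ∑ i ∈ I, a i * (x i / x i₀) ^ b.N ∈ R :=
    sum_mem fun i hi => mul_mem (D5_a_mem b h I i₀ i₁ i) (pow_mem (r0 i hi) _)
  have hB : ∑ i ∈ Iᶜ, a i * (x i / x i₁) ^ b.N ∈ R :=
    sum_mem fun i hi => mul_mem (D5_a_mem b h I i₀ i₁ i)
      (pow_mem (r1 i (Finset.mem_compl.mp hi)) _)
  have eA : (∑ i ∈ I, a i * (x i / x i₀) ^ b.N) * x i₀ ^ b.N = ∑ i ∈ I, a i * x i ^ b.N := by
    rw [Finset.sum_mul]
    refine Finset.sum_congr rfl fun i _ => ?_
    rw [mul_assoc, ← mul_pow, div_mul_cancel₀ _ hn0]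
  have eB : (∑ i ∈ Iᶜ, a i * (x i / x i₁) ^ b.N) * x i₁ ^ b.N = ∑ i ∈ Iᶜ, a i * x i ^ b.N := by
    rw [Finset.sum_mul]
    refine Finset.sum_congr rfl fun i _ => ?_
    rw [mul_assoc, ← mul_pow, div_mul_cancel₀ _ hn1]
  have hIne : I ≠ univ := fun h2 => h₁ (h2 ▸ mem_univ _)
  have hA0 : ∑ i ∈ I, a i * (x i / x i₀) ^ b.N ≠ 0 := by
    intro h2
    rw [h2, zero_mul] at eA
    exact sum_ne_zero_of_proper b h ⟨i₀, h₀⟩ hIne eA.symm
  have hB0 : ∑ i ∈ Iᶜ, a i * (x i / x i₁) ^ b.N ≠ 0 := by
    intro h2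
    rw [h2, zero_mul] at eB
    refine sum_ne_zero_of_proper b h ⟨i₁, Finset.mem_compl.mpr h₁⟩ ?_ eB.symm
    intro h3
    have h4 : i₀ ∈ Iᶜ := h3 ▸ mem_univ _
    exact Finset.mem_compl.mp h4 h₀
  have hsum : (∑ i ∈ I, a i * (x i / x i₀) ^ b.N) * x i₀ ^ b.N +
      (∑ i ∈ Iᶜ, a i * (x i / x i₁) ^ b.N) * x i₁ ^ b.N = 0 := by
    rw [eA, eB, Finset.sum_add_sum_compl, h.rel]
  set A := ∑ i ∈ I, a i * (x i / x i₀) ^ b.N
  set B := ∑ i ∈ Iᶜ, a i * (x i / x i₁) ^ b.N
  have both : x i₀ ^ b.N ∈ R ∧ x i₁ ^ b.N ∈ R := by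
    by_cases hz : (0 : Fin (n + 2)) ∈ I
    · have h2 := r0 0 hz
      rw [h.x_zero, one_div] at h2
      have h3 : x i₀ ∈ R := by
        rw [← inv_inv (x i₀)]
        exact inv_mem h2
      have h4 : x i₀ ^ b.N ∈ R := pow_mem h3 _
      refine ⟨h4, ?_⟩
      have h5 : x i₁ ^ b.N = -(A * x i₀ ^ b.N) / B := by
        rw [eq_div_iff hB0]
        linear_combination hsum
      rw [h5]
      exact div_mem (neg_mem (mul_mem hA h4)) hB
    · have h2 := r1 0 hz
      rw [h.x_zero, one_div] at h2
      have h3 : x i₁ ∈ R := by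
        rw [← inv_inv (x i₁)]
        exact inv_mem h2
      have h4 : x i₁ ^ b.N ∈ R := pow_mem h3 _
      refine ⟨?_, h4⟩
      have h5 : x i₀ ^ b.N = -(B * x i₁ ^ b.N) / A := by
        rw [eq_div_iff hA0]
        linear_combination hsum
      rw [h5]
      exact div_mem (neg_mem (mul_mem hB h4)) hA
  unfold fieldK
  rw [IntermediateField.adjoin_le_iff]
  rintro _ (⟨i, rfl⟩ | ⟨i, rfl⟩)
  · exact IntermediateField.subset_adjoin _ _ (Or.inl (Or.inl ⟨i, rfl⟩))
  · change x i ^ b.N ∈ R
    by_cases hi : i ∈ I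
    · have h2 : x i ^ b.N = (x i / x i₀) ^ b.N * x i₀ ^ b.N := by
        rw [← mul_pow, div_mul_cancel₀ _ hn0]
      rw [h2]
      exact mul_mem (pow_mem (r0 i hi) _) both.1
    · have h2 : x i ^ b.N = (x i / x i₁) ^ b.N * x i₁ ^ b.N := by
        rw [← mul_pow, div_mul_cancel₀ _ hn1]
      rw [h2]
      exact mul_mem (pow_mem (r1 i hi) _) both.2

private lemma D5_exp (h : DiagData b t (F := F) a x) {c : Fin (n + 2) → ZMod b.N} {f : L →+* L}
    (hf : IsAdm b ι t x c f) {i j : Fin (n + 2)} (hij : f (x i / x j) = x i / x j) :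
    c i = c j := by
  have hp : IsPrimitiveRoot (algebraMap F L (ι b.ζ)) b.N :=
    (b.hζ_map ι).map_of_injective (algebraMap F L).injective
  have hz : algebraMap F L (ι b.ζ) ≠ 0 := hp.ne_zero b.N_pos.ne'
  have hi := h.x_ne b i
  have hj := h.x_ne b j
  rw [map_div₀, hf.fx, hf.fx, div_eq_div_iff (mul_ne_zero (pow_ne_zero _ hz) hj) hj] at hij
  have h1 : algebraMap F L (ι b.ζ) ^ (c i).val = algebraMap F L (ι b.ζ) ^ (c j).val := by
    have h2 : x i * x j ≠ 0 := mul_ne_zero hi hj
    apply mul_right_cancel₀ h2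
    linear_combination hij
  have h2 := hp.pow_inj (ZMod.val_lt _) (ZMod.val_lt _) h1
  exact ZMod.val_injective _ h2

/-- Hint: a diagonal automorphism fixing `x i / x i₀` has `c i = c i₀` (`ζ` primitive, `x i ≠ 0`);
so `pair α c = c i₀ * ∑ i ∈ I, α i + c i₁ * ∑ i ∉ I, α i = 0`. -/
lemma pair_eq_zero_of_ratio (h : DiagData b t (F := F) a x) {I : Finset (Fin (n + 2))}
    {i₀ i₁ : Fin (n + 2)} (h₀ : i₀ ∈ I) (h₁ : i₁ ∉ I) {α : Fin (n + 2) → ZMod b.N}
    (hα : ∑ i, α i = 0) (hI : ∑ i ∈ I, α i = 0) :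
    ∀ c ∈ admFix b ι t x (ratioField F t x I i₀ i₁), pair α c = 0 := by
  intro c hc
  obtain ⟨hc1, hc2⟩ := Finset.mem_filter.mp hc
  have hadm := isAdm_adm b ι hc1
  have e0 : ∀ i ∈ I, c i = c i₀ := fun i hi =>
    D5_exp b h hadm (hc2 _ (IntermediateField.subset_adjoin _ _ (Or.inl (Or.inr ⟨i, hi, rfl⟩))))
  have e1 : ∀ i, i ∉ I → c i = c i₁ := fun i hi =>
    D5_exp b h hadm (hc2 _ (IntermediateField.subset_adjoin _ _ (Or.inr ⟨i, hi, rfl⟩)))
  have hI' : ∑ i ∈ Iᶜ, α i = 0 := by
    have h2 := Finset.sum_add_sum_compl I α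
    rw [hI, zero_add, hα] at h2
    exact h2
  unfold pair
  rw [← Finset.sum_add_sum_compl I,
    Finset.sum_congr rfl fun i hi => by rw [e0 i hi],
    Finset.sum_congr (s₁ := Iᶜ) rfl fun i hi => by rw [e1 i (Finset.mem_compl.mp hi)],
    ← Finset.sum_mul, ← Finset.sum_mul, hI, hI', zero_mul, zero_mul, add_zero]

private lemma D5_alg (h : DiagData b t (F := F) a x) (T : IntermediateField F L)
    (hT : fieldK b F t x ≤ T) : Algebra.IsAlgebraic T L := by
  have hx : ∀ z ∈ Set.range x, IsIntegral T z := by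
    rintro _ ⟨k, rfl⟩
    have hk : x k ^ b.N ∈ T :=
      hT (IntermediateField.subset_adjoin _ _ (Or.inr ⟨k, rfl⟩))
    refine ⟨X ^ b.N - C ⟨x k ^ b.N, hk⟩, monic_X_pow_sub_C _ b.N_pos.ne', ?_⟩
    rw [eval₂_sub, eval₂_X_pow, eval₂_C, IntermediateField.algebraMap_apply, sub_self]
  have h1 : Algebra.IsAlgebraic T (IntermediateField.adjoin T (Set.range x)) :=
    IntermediateField.isAlgebraic_adjoin hx
  have h2 : ∀ z : L, z ∈ IntermediateField.adjoin T (Set.range x) := by
    intro z
    have hz : z ∈ IntermediateField.adjoin F (Set.range t ∪ Set.range x) := by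
      rw [h.gen]; trivial
    have hle : IntermediateField.adjoin F (Set.range t ∪ Set.range x) ≤
        (IntermediateField.adjoin T (Set.range x)).restrictScalars F := by
      rw [IntermediateField.adjoin_le_iff]
      rintro _ (⟨i, rfl⟩ | ⟨i, rfl⟩)
      · have hti : t i ∈ T := hT (IntermediateField.subset_adjoin _ _ (Or.inl ⟨i, rfl⟩))
        exact IntermediateField.algebraMap_mem _ (⟨t i, hti⟩ : T)
      · have hxi : x i ∈ IntermediateField.adjoin T (Set.range x) :=
          IntermediateField.subset_adjoin T (Set.range x) ⟨i, rfl⟩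
        exact hxi
    exact hle hz
  exact ⟨fun z => IntermediateField.isAlgebraic_iff.mp (h1.isAlgebraic ⟨z, h2 z⟩)⟩

/-- Hint: the field is generated over `F` by `t` and the `|I| - 1 + (n + 2 - |I|) - 1 = n` ratios
with `i ≠ i₀, i₁`; `L` is algebraic over it and has transcendence degree `r + n` over `F`, so these
`r + n` generators are algebraically independent (a subfamily is a transcendence basis, which
has `r + n` elements). -/
lemma ratioField_purely (h : DiagData b t (F := F) a x) {I : Finset (Fin (n + 2))}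
    {i₀ i₁ : Fin (n + 2)} (h₀ : i₀ ∈ I) (h₁ : i₁ ∉ I) :
    ∃ v : Fin (r + n) → ratioField F t x I i₀ i₁, AlgebraicIndependent F v ∧
      IntermediateField.adjoin F (Set.range v) = ⊤ := by
  have hne : i₁ ≠ i₀ := fun h2 => h₁ (h2 ▸ h₀)
  have hcard : ((univ.erase i₀).erase i₁).card = n := by
    rw [Finset.card_erase_of_mem (Finset.mem_erase.mpr ⟨hne, mem_univ _⟩),
      Finset.card_erase_of_mem (mem_univ _), Finset.card_univ, Fintype.card_fin]
    omega
  let e : {i // i ∈ (univ.erase i₀).erase i₁} ≃ Fin n := Finset.equivFinOfCardEq hcard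
  let ρ : Fin (n + 2) → L := fun i => if i ∈ I then x i / x i₀ else x i / x i₁
  let u : Fin r ⊕ Fin n → L := Sum.elim t fun k => ρ (e.symm k)
  have hρ : ∀ i, ρ i ∈ ratioField F t x I i₀ i₁ := by
    intro i
    by_cases hi : i ∈ I
    · simp only [ρ, if_pos hi]
      exact IntermediateField.subset_adjoin _ _ (Or.inl (Or.inr ⟨i, hi, rfl⟩))
    · simp only [ρ, if_neg hi]
      exact IntermediateField.subset_adjoin _ _ (Or.inr ⟨i, hi, rfl⟩)
  have hu : ∀ k, u k ∈ ratioField F t x I i₀ i₁ := by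
    rintro (k | k)
    · exact IntermediateField.subset_adjoin _ _ (Or.inl (Or.inl ⟨k, rfl⟩))
    · exact hρ _
  have hρ' : ∀ i, ρ i ∈ IntermediateField.adjoin F (Set.range u) := by
    intro i
    by_cases hi0 : i = i₀
    · simp only [ρ, hi0, if_pos h₀, div_self (h.x_ne b i₀)]
      exact one_mem _
    · by_cases hi1 : i = i₁
      · simp only [ρ, hi1, if_neg h₁, div_self (h.x_ne b i₁)]
        exact one_mem _
      · refine IntermediateField.subset_adjoin _ _ ⟨Sum.inr (e ⟨i, ?_⟩), ?_⟩
        · exact Finset.mem_erase.mpr ⟨hi1, Finset.mem_erase.mpr ⟨hi0, mem_univ _⟩⟩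
        · simp only [u, Sum.elim_inr, Equiv.symm_apply_apply]
  have hadj : IntermediateField.adjoin F (Set.range u) = ratioField F t x I i₀ i₁ := by
    apply le_antisymm
    · rw [IntermediateField.adjoin_le_iff]
      rintro _ ⟨k, rfl⟩
      exact hu k
    · unfold ratioField
      rw [IntermediateField.adjoin_le_iff]
      rintro _ ((⟨k, rfl⟩ | ⟨i, hi, rfl⟩) | ⟨i, hi, rfl⟩)
      · exact IntermediateField.subset_adjoin _ _ ⟨Sum.inl k, rfl⟩
      · have h2 := hρ' i
        simp only [ρ, if_pos hi] at h2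
        exact h2
      · have h2 := hρ' i
        simp only [ρ, if_neg hi] at h2
        exact h2
  have halg : Algebra.IsAlgebraic (Algebra.adjoin F (Set.range u)) L := by
    rw [← IntermediateField.isAlgebraic_adjoin_iff_top, hadj]
    exact D5_alg b h _ (fieldK_le_ratioField b h h₀ h₁)
  have hbas : IsTranscendenceBasis F u :=
    Algebra.IsAlgebraic.isTranscendenceBasis_of_lift_le_trdeg_of_finite F u
      h.ind.lift_cardinalMk_le_trdeg
  let e' : Fin (r + n) ≃ Fin r ⊕ Fin n := finSumFinEquiv.symm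
  refine ⟨fun k => ⟨u (e' k), hu _⟩, ?_, ?_⟩
  · refine AlgebraicIndependent.of_comp (ratioField F t x I i₀ i₁).val ?_
    exact hbas.1.comp e' e'.injective
  · apply IntermediateField.lift_injective
    rw [IntermediateField.lift_adjoin, IntermediateField.lift_top, ← Set.range_comp]
    refine Eq.trans ?_ hadj
    exact congrArg (IntermediateField.adjoin F) (e'.surjective.range_comp u)

/-- Exponents which are not minimal contribute nothing. -/
theorem vv_eq_zero_of_not_min (hm : Any m) (h : DiagData b t (F := F) a x)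
    (hF : ∀ a : F, a ≠ 0 → ∃ n > 0, a ^ n = 1) (w : ZMod b.N → ℤ)
    {α : Fin (n + 2) → ZMod b.N} (hα : ∑ i, α i = 0) (hmin : ¬ MinZero α) {j : ℕ} (hj : 2 ≤ j)
    {ξ : KM m L} (hξ : Unr ξ) (hd : ξ ∈ KM.deg m L j) :
    ((b.N ^ (n + 1)).factorial ^ 2) • vv b ι t x w α ξ = 0 := by
  obtain ⟨I, hI, hI', hsum⟩ : ∃ I : Finset (Fin (n + 2)), I.Nonempty ∧ I ≠ univ ∧
      ∑ i ∈ I, α i = 0 := by
    by_contra hcon
    push Not at hcon
    exact hmin ⟨hα, fun I h1 h2 => hcon I h1 h2⟩
  obtain ⟨i₀, h₀⟩ := hI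
  obtain ⟨i₁, h₁⟩ : ∃ i, i ∉ I := by
    by_contra hcon
    push Not at hcon
    exact hI' (eq_univ_of_forall hcon)
  obtain ⟨v, hv, hgen⟩ := ratioField_purely b h h₀ h₁
  exact vv_eq_zero_of_purely b hm h hF w _ (fieldK_le_ratioField b h h₀ h₁) v hv hgen
    (pair_eq_zero_of_ratio b h h₀ h₁ hα hsum) hj hξ hd

end UnrG
end

section

/-!
# Traces to subfields
-/

namespace UnrA.Fer

open UnrG

universe u v w z

open Polynomial Finset
open scoped Classical

variable {m : UFun.{u, z}} {𝔽 : Type w} [Field 𝔽] [Fintype 𝔽] (b : Base 𝔽)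

variable {F L : Type u} [Field F] [Field L] [Algebra F L] {ι : 𝔽 →+* F} {r n : ℕ}
  {t : Fin r → L} {a x : Fin (n + 2) → L}

/-- The trace to `T`. -/
theorem exists_trT (h : DiagData b t (F := F) a x) (T : IntermediateField F L)
    (hT : fieldK b F t x ≤ T) (ξ : KM m L) :
    ∃ y : KM m T, KM.map m (algebraMap T L) y = trT b ι t x T ξ := by
  obtain ⟨hfd, hG, -⟩ := galois_fieldT b ι h T hT
  obtain ⟨e, he⟩ := exists_galEquiv b (ι := ι) h T hT
  obtain ⟨y, hy⟩ := exists_trace (K := T) (L := L) ξ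
  refine ⟨y, hy.trans ?_⟩
  unfold trT
  rw [← Finset.sum_coe_sort (admFix b ι t x T)]
  exact Fintype.sum_equiv e _ _ (fun g => by rw [he g])

/-- The projection of the trace. Proof: `∑ c ∈ admSet, w (pair α c) • adm c (∑ c' ∈ admFix, adm c' ξ)
= ∑ c' ∈ admFix, ∑ c ∈ admSet, w (pair α (c + c')) • adm (c + c') ξ` since `pair α c' = 0`, and each
inner sum is `vv α ξ` (`sum_admSet_add`, `adm_add`). -/
theorem vv_trT (h : DiagData b t (F := F) a x) (w : ZMod b.N → ℤ) (T : IntermediateField F L)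
    {α : Fin (n + 2) → ZMod b.N} (hα : ∀ c ∈ admFix b ι t x T, pair α c = 0) (ξ : KM m L) :
    vv b ι t x w α (trT b ι t x T ξ) = (admFix b ι t x T).card • vv b ι t x w α ξ := by
  have h1 : ∀ c' ∈ admFix b ι t x T,
      ∑ c ∈ admSet b ι t x, w (pair α c) • KM.map m (adm b ι t x c)
        (KM.map m (adm b ι t x c') ξ) = vv b ι t x w α ξ := by
    intro c' hc'
    have hc2 := (Finset.mem_filter.mp hc').1
    unfold vv
    rw [← sum_admSet_add b hc2 (fun c => w (pair α c) • KM.map m (adm b ι t x c) ξ)]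
    refine Finset.sum_congr rfl fun c hc => ?_
    have h2 : pair α (c + c') = pair α c := by
      have h3 : pair α (c + c') = pair α c + pair α c' := by
        unfold pair
        rw [← Finset.sum_add_distrib]
        exact Finset.sum_congr rfl fun i _ => by rw [Pi.add_apply, mul_add]
      rw [h3, hα c' hc', add_zero]
    rw [h2, adm_add b h hc hc2, ← KM.map_map]
  have h2 : vv b ι t x w α (trT b ι t x T ξ) =
      ∑ c' ∈ admFix b ι t x T, ∑ c ∈ admSet b ι t x, w (pair α c) • KM.map m (adm b ι t x c)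
        (KM.map m (adm b ι t x c') ξ) := by
    rw [Finset.sum_comm]
    unfold vv trT
    refine Finset.sum_congr rfl fun c _ => ?_
    rw [map_sum, Finset.smul_sum]
  rw [h2, Finset.sum_congr rfl h1, Finset.sum_const]

/-- Traces of unramified classes. -/
lemma unr_trT (T : IntermediateField F L) {ξ : KM m L} (hξ : Unr ξ) :
    Unr (trT b ι t x T ξ) :=
  Unr.sum fun c _ => hξ.map (adm b ι t x c)

end UnrA.Fer
end

section

/-!
# Subfields without unramified classes
-/

namespace UnrA.Fer

open UnrG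

universe u v w z

open Polynomial Finset
open scoped Classical

variable {m : UFun.{u, z}} {𝔽 : Type w} [Field 𝔽] [Fintype 𝔽] (b : Base 𝔽)

variable {F L : Type u} [Field F] [Field L] [Algebra F L] {ι : 𝔽 →+* F} {r n : ℕ}
  {t : Fin r → L} {a x : Fin (n + 2) → L}

/-- Projections of constant classes are constant. -/
lemma vv_mem_cst (w : ZMod b.N → ℤ) (α : Fin (n + 2) → ZMod b.N) {ξ : KM m L}
    (hξ : ξ ∈ cst m F L) : vv b ι t x w α ξ ∈ cst m F L := by
  unfold vv
  refine sum_mem fun c hc => zsmul_mem ?_ _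
  rw [map_of_mem_cst hξ (isAdm_adm b ι hc).const]
  exact hξ

/-- The trace to a subfield whose unramified classes are constant up to `C₀`. -/
theorem trT_mem_cst (h : DiagData b t (F := F) a x) (T : IntermediateField F L)
    (hT : fieldK b F t x ≤ T) {C₀ : ℕ} (hC : ∀ z : KM m T, Unr z → C₀ • z ∈ cst m F T)
    {ξ : KM m L} (hξ : Unr ξ) :
    (C₀ * (admFix b ι t x T).card) • trT b ι t x T ξ ∈ cst m F L := by
  obtain ⟨hfd, hgal, -⟩ := galois_fieldT b ι h T hT
  obtain ⟨y, hyT⟩ := exists_trT (ι := ι) b h T hT ξ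
  have h1 : Unr (KM.map m (algebraMap T L) y) := by
    rw [hyT]
    exact unr_trT b T hξ
  have h2 : Unr (Module.finrank T L • y) := unr_smul_of_map h1
  have h3 := map_mem_cst (M := L) (hC _ h2) (f := algebraMap T L) (fun _ => rfl)
  rw [map_nsmul, map_nsmul, hyT, ← mul_smul, ← card_admFix b (ι := ι) h T hT] at h3
  exact h3

/-- The projection of an unramified class to an exponent killed by the automorphisms over a
subfield whose unramified classes are constant up to `C₀`. -/
theorem vv_mem_cst_of_sub (h : DiagData b t (F := F) a x) (w : ZMod b.N → ℤ)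
    (T : IntermediateField F L) (hT : fieldK b F t x ≤ T) {C₀ : ℕ}
    (hC : ∀ z : KM m T, Unr z → C₀ • z ∈ cst m F T) {α : Fin (n + 2) → ZMod b.N}
    (hα : ∀ c ∈ admFix b ι t x T, pair α c = 0) {ξ : KM m L} (hξ : Unr ξ) :
    (C₀ * (b.N ^ (n + 1)).factorial ^ 2) • vv b ι t x w α ξ ∈ cst m F L := by
  obtain ⟨hfd, hgal, hle⟩ := galois_fieldT b ι h T hT
  have h1 := vv_mem_cst (ι := ι) (t := t) (x := x) b w α
    (trT_mem_cst (ι := ι) b h T hT hC hξ)
  rw [← natCast_zsmul, vv_zsmul, natCast_zsmul, vv_trT b h w T hα, ← mul_smul] at h1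
  have hcard : (admFix b ι t x T).card = Module.finrank T L := card_admFix b h T hT
  have hpos : 0 < (admFix b ι t x T).card := by
    rw [hcard]
    exact Module.finrank_pos
  have hdvd : (admFix b ι t x T).card ∣ (b.N ^ (n + 1)).factorial :=
    Nat.dvd_factorial hpos (by rw [hcard]; exact hle)
  refine smul_mem_cst_of_dvd ?_ h1
  rw [mul_assoc, sq]
  exact mul_dvd_mul_left _ (mul_dvd_mul hdvd hdvd)

/-- The projection of an unramified class to an exponent killed by the automorphisms over a purely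
transcendental subfield. -/
theorem vv_mem_cst_of_purely (h : DiagData b t (F := F) a x) (w : ZMod b.N → ℤ)
    (T : IntermediateField F L) (hT : fieldK b F t x ≤ T) {s : ℕ} (v : Fin s → T)
    (hv : AlgebraicIndependent F v) (hgen : IntermediateField.adjoin F (Set.range v) = ⊤)
    {α : Fin (n + 2) → ZMod b.N} (hα : ∀ c ∈ admFix b ι t x T, pair α c = 0) {ξ : KM m L}
    (hξ : Unr ξ) :
    ((b.N ^ (n + 1)).factorial ^ 2) • vv b ι t x w α ξ ∈ cst m F L := by
  have h1 := vv_mem_cst_of_sub (C₀ := 1) b h w T hT (fun z hz => by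
    rw [one_smul]
    exact mem_cst.mpr (unr_purely v hv hgen hz)) hα hξ
  rwa [one_mul] at h1

end UnrA.Fer
end

section

/-!
# Exponents which are not minimal
-/

namespace UnrA.Fer

open UnrG

universe u v w z

open Polynomial Finset
open scoped Classical

variable {m : UFun.{u, z}} {𝔽 : Type w} [Field 𝔽] [Fintype 𝔽] (b : Base 𝔽)

variable {F L : Type u} [Field F] [Field L] [Algebra F L] {ι : 𝔽 →+* F} {r n : ℕ}
  {t : Fin r → L} {a x : Fin (n + 2) → L}

/-- Exponents which are not minimal contribute constant classes. -/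
theorem vv_mem_cst_of_not_min (h : DiagData b t (F := F) a x) (w : ZMod b.N → ℤ)
    {α : Fin (n + 2) → ZMod b.N} (hα : ∑ i, α i = 0) (hmin : ¬ MinZero α)
    {ξ : KM m L} (hξ : Unr ξ) :
    ((b.N ^ (n + 1)).factorial ^ 2) • vv b ι t x w α ξ ∈ cst m F L := by
  obtain ⟨I, hI, hI', hsum⟩ : ∃ I : Finset (Fin (n + 2)), I.Nonempty ∧ I ≠ univ ∧
      ∑ i ∈ I, α i = 0 := by
    by_contra hcon
    push Not at hcon
    exact hmin ⟨hα, fun I h1 h2 => hcon I h1 h2⟩
  obtain ⟨i₀, h₀⟩ := hI
  obtain ⟨i₁, h₁⟩ : ∃ i, i ∉ I := by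
    by_contra hcon
    push Not at hcon
    exact hI' (eq_univ_of_forall hcon)
  obtain ⟨v, hv, hgen⟩ := ratioField_purely b h h₀ h₁
  exact vv_mem_cst_of_purely b h w _ (fieldK_le_ratioField b h h₀ h₁) v hv hgen
    (pair_eq_zero_of_ratio b h h₀ h₁ hα hsum) hξ

end UnrA.Fer
end

section

/-!
# Descent of the projections to the monomial subfields
-/

namespace UnrG

universe u v w

open Polynomial Finset
open scoped Classical

variable {m : ℕ} {𝔽 : Type w} [Field 𝔽] [Fintype 𝔽] (b : Base 𝔽)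

variable {F L : Type u} [Field F] [Field L] [Algebra F L] {ι : 𝔽 →+* F} {r n : ℕ}
  {t : Fin r → L} {a x : Fin (n + 2) → L}

lemma fieldK_le_fieldA (α : Fin (n + 2) → ZMod b.N) :
    fieldK b F t x ≤ fieldA b F t x α :=
  IntermediateField.adjoin.mono F _ _ Set.subset_union_left

private lemma zeta_prim (ι : 𝔽 →+* F) : IsPrimitiveRoot (algebraMap F L (ι b.ζ)) b.N :=
  b.hζ_map ((algebraMap F L).comp ι)

private lemma zeta_pow_congr (ι : 𝔽 →+* F) {i j : ℕ} (h : (i : ZMod b.N) = j) :
    algebraMap F L (ι b.ζ) ^ i = algebraMap F L (ι b.ζ) ^ j := by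
  have h1 : i % b.N = j % b.N := (ZMod.natCast_eq_natCast_iff _ _ _).1 h
  have h2 := (zeta_prim (L := L) b ι).pow_eq_one
  rw [← Nat.mod_add_div i b.N, ← Nat.mod_add_div j b.N, pow_add, pow_add, pow_mul, pow_mul, h2,
    one_pow, one_pow, h1]

private lemma zeta_pow_eq_one (ι : 𝔽 →+* F) {z : ZMod b.N}
    (h : algebraMap F L (ι b.ζ) ^ z.val = 1) : z = 0 := by
  have h1 := (zeta_prim (L := L) b ι).dvd_of_pow_eq_one z.val h
  have h2 : ((z.val : ℕ) : ZMod b.N) = 0 := (ZMod.natCast_eq_zero_iff _ _).2 h1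
  rwa [ZMod.natCast_zmod_val] at h2

/-- Hint: `adm c` multiplies the monomial by `ζ ^ (pair α c).val`. -/
lemma IsAdm.wmon {c : Fin (n + 2) → ZMod b.N} {f : L →+* L} (hf : IsAdm b ι t x c f)
    (α : Fin (n + 2) → ZMod b.N) :
    f (UnrG.wmon x α) = algebraMap F L (ι b.ζ) ^ (pair α c).val * UnrG.wmon x α := by
  unfold UnrG.wmon
  rw [map_prod]
  have h1 : ∀ i, f (x i ^ (α i).val) =
      algebraMap F L (ι b.ζ) ^ ((c i).val * (α i).val) * x i ^ (α i).val := by
    intro i
    rw [map_pow, hf.fx, mul_pow, ← pow_mul]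
  rw [prod_congr rfl fun i _ => h1 i, prod_mul_distrib, prod_pow_eq_pow_sum]
  congr 1
  apply zeta_pow_congr
  rw [ZMod.natCast_zmod_val, Nat.cast_sum]
  unfold pair
  refine sum_congr rfl fun i _ => ?_
  rw [Nat.cast_mul, ZMod.natCast_zmod_val, ZMod.natCast_zmod_val, mul_comm]

private lemma wmon_ne (h : DiagData b t (F := F) a x) (α : Fin (n + 2) → ZMod b.N) :
    UnrG.wmon x α ≠ 0 :=
  prod_ne_zero_iff.2 fun i _ => pow_ne_zero _ (h.x_ne b i)

lemma pair_eq_zero_of_fieldA (h : DiagData b t (F := F) a x) (α : Fin (n + 2) → ZMod b.N) :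
    ∀ c ∈ admFix b ι t x (fieldA b F t x α), pair α c = 0 := by
  intro c hc
  rw [admFix, mem_filter] at hc
  have h1 := hc.2 (UnrG.wmon x α) (IntermediateField.subset_adjoin F _ (Or.inr rfl))
  rw [(isAdm_adm b ι hc.1).wmon b α] at h1
  have h2 : algebraMap F L (ι b.ζ) ^ (pair α c).val = 1 :=
    mul_right_cancel₀ (wmon_ne b h α) (by rw [h1, one_mul])
  exact zeta_pow_eq_one (L := L) b ι h2

/-- Diagonal automorphisms, and the Frobenius, preserve the monomial subfield. -/
lemma IsAdm.exists_restrict {c : Fin (n + 2) → ZMod b.N} {f : L →+* L} (hf : IsAdm b ι t x c f)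
    (α : Fin (n + 2) → ZMod b.N) :
    ∃ g : fieldA b F t x α →+* fieldA b F t x α, ∀ z, (g z : L) = f z := by
  let f' : L →ₐ[F] L := { f with commutes' := hf.const }
  have hc : ∀ y ∈ fieldA b F t x α, f' y ∈ fieldA b F t x α := by
    have h1 : fieldA b F t x α ≤ (fieldA b F t x α).comap f' := by
      conv_lhs => unfold fieldA
      rw [IntermediateField.adjoin_le_iff]
      rintro y ((⟨i, rfl⟩ | ⟨i, rfl⟩) | hy)
      · change f (t i) ∈ fieldA b F t x α
        rw [hf.ft]
        exact IntermediateField.subset_adjoin F _ (Or.inl (Or.inl ⟨i, rfl⟩))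
      · change f (x i ^ b.N) ∈ fieldA b F t x α
        have h2 : f (x i ^ b.N) = x i ^ b.N := by
          rw [map_pow, hf.fx, mul_pow, ← pow_mul, mul_comm (c i).val, pow_mul,
            (zeta_prim b ι).pow_eq_one, one_pow, one_mul]
        rw [h2]
        exact IntermediateField.subset_adjoin F _ (Or.inl (Or.inr ⟨i, rfl⟩))
      · rw [Set.mem_singleton_iff] at hy
        subst hy
        change f (UnrG.wmon x α) ∈ fieldA b F t x α
        rw [hf.wmon b α]
        refine mul_mem (pow_mem (algebraMap_mem _ _) _) ?_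
        exact IntermediateField.subset_adjoin F _ (Or.inr rfl)
    exact fun y hy => h1 hy
  exact ⟨(f.comp (algebraMap (fieldA b F t x α) L)).codRestrict (fieldA b F t x α)
    (fun z => hc z z.2), fun z => rfl⟩

lemma SigmaL.exists_restrict {σ : L →+* L} (hσ : SigmaL b F t a x σ)
    (α : Fin (n + 2) → ZMod b.N) :
    ∃ g : fieldA b F t x α →+* fieldA b F t x α, ∀ z, (g z : L) = σ z := by
  have hc : ∀ y ∈ fieldA b F t x α, σ y ∈ fieldA b F t x α := by
    have h1 : (fieldA b F t x α).toSubfield ≤ ((fieldA b F t x α).toSubfield).comap σ := by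
      conv_lhs => unfold fieldA
      rw [IntermediateField.adjoin_toSubfield, Subfield.closure_le]
      rintro y (⟨c, rfl⟩ | ((⟨i, rfl⟩ | ⟨i, rfl⟩) | hy))
      · change σ (algebraMap F L c) ∈ fieldA b F t x α
        rw [hσ.const]
        exact pow_mem (algebraMap_mem _ _) _
      · change σ (t i) ∈ fieldA b F t x α
        rw [hσ.ft]
        exact IntermediateField.subset_adjoin F _ (Or.inl (Or.inl ⟨i, rfl⟩))
      · change σ (x i ^ b.N) ∈ fieldA b F t x α
        rw [map_pow, hσ.fx]
        exact IntermediateField.subset_adjoin F _ (Or.inl (Or.inr ⟨i, rfl⟩))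
      · rw [Set.mem_singleton_iff] at hy
        subst hy
        change σ (UnrG.wmon x α) ∈ fieldA b F t x α
        have h2 : σ (UnrG.wmon x α) = UnrG.wmon x α := by
          unfold UnrG.wmon
          rw [map_prod]
          refine prod_congr rfl fun i _ => ?_
          rw [map_pow, hσ.fx]
        rw [h2]
        exact IntermediateField.subset_adjoin F _ (Or.inr rfl)
    exact fun y hy => h1 hy
  exact ⟨(σ.comp (algebraMap (fieldA b F t x α) L)).codRestrict (fieldA b F t x α)
    (fun z => hc z z.2), fun z => rfl⟩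

private lemma unr_nsmul {K : Type u} [Field K] {y : KM m K} (hy : Unr y) (k : ℕ) :
    Unr (k • y) := by
  rw [← Nat.cast_smul_eq_nsmul (ZMod m)]
  exact hy.smul _

private lemma pair_add {N n : ℕ} (α c c' : Fin n → ZMod N) :
    pair α (c + c') = pair α c + pair α c' := by
  unfold pair
  rw [← sum_add_distrib]
  exact sum_congr rfl fun i _ => by rw [Pi.add_apply, mul_add]

private lemma pair_nsmul {N n : ℕ} (α c : Fin n → ZMod N) (l : ℕ) :
    pair α (l • c) = l * pair α c := by
  unfold pair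
  rw [mul_sum]
  exact sum_congr rfl fun i _ => by rw [Pi.smul_apply, nsmul_eq_mul]; ring

private lemma nsmul_mem_admSet {c : Fin (n + 2) → ZMod b.N} (hc : c ∈ admSet b ι t x) (l : ℕ) :
    l • c ∈ admSet b ι t x := by
  obtain ⟨f, hf⟩ := (mem_admSet b ι).1 hc
  exact (mem_admSet b ι).2 ⟨_, hf.pow b l⟩

/-- Descent. Proof: let `T = fieldA b F t x α`, `B = finrank T L = (admFix).card`, `y` from
`exists_trT` with `map y = trT ξ`, and `y' = ∑ c ∈ admSet, w (pair α c) • KM.map (g c) y`, where
`g c : T →+* T` is the restriction of `adm c`. Then `map y' = vv α (trT ξ) = B • vv α ξ`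
(`vv_trT`, `pair_eq_zero_of_fieldA`). Put `z = B • y'`. It is unramified by `unr_smul_of_map`
(`unr_vv`); `map (σ' y' - q y') = B • vv α (σ ξ - q ξ) = 0` (`map_vv`, `SigmaL.comm`), so
`B • (σ' y' - q y') = 0` by `finrank_smul_eq_zero`. For the last property: by
`exists_adm_extension` the homomorphism `g` is the restriction of a diagonal automorphism with
exponents `c₀`, and `ζ ^ (pair α c₀).val = ζ ^ k` (`IsAdm.wmon`, the monomial is nonzero), so
`pair α c₀ ≠ 0`; then `∑ i ∈ range N, KM.map (g ^ i) y' = 0` as in `sum_pow_vv` (the computation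
holds on `T` since `g c ∘ g c' = g (c + c')`). Finally `map z = B ^ 2 • vv α ξ`. -/
theorem exists_descent (hm : Any m) (h : DiagData b t (F := F) a x) {w : ZMod b.N → ℤ}
    (hw : Weight b.N w) (α : Fin (n + 2) → ZMod b.N) {σ : L →+* L} (hσ : SigmaL b F t a x σ)
    {j : ℕ} {ξ : KM m L} (hξ : Unr ξ) (hd : ξ ∈ KM.deg m L j) (hσξ : KM.map m σ ξ = b.q • ξ) :
    ∃ (B : ℕ) (z : KM m (fieldA b F t x α)), 0 < B ∧ B ≤ b.N ^ (n + 1) ∧
      KM.map m (algebraMap (fieldA b F t x α) L) z = B ^ 2 • vv b ι t x w α ξ ∧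
      z ∈ KM.deg m (fieldA b F t x α) j ∧ Unr z ∧
      (∀ g : fieldA b F t x α →+* fieldA b F t x α, (∀ e, (g e : L) = σ e) →
        KM.map m g z = b.q • z) ∧
      ∀ (g : fieldA b F t x α →+* fieldA b F t x α) (k : ℕ),
        (∀ e : fieldA b F t x α, (e : L) ∈ fieldK b F t x → g e = e) →
        (∀ e : fieldA b F t x α, (e : L) = wmon x α →
          (g e : L) = algebraMap F L (ι b.ζ) ^ k * wmon x α) →
        ¬ b.N ∣ k → ∑ l ∈ range b.N, KM.map m (g ^ l) z = 0 := by
  set T := fieldA b F t x α with hTdef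
  have hT : fieldK b F t x ≤ T := fieldK_le_fieldA b α
  obtain ⟨hfd, hgal, hle⟩ := galois_fieldT b ι h T hT
  obtain ⟨y, hyd, hy⟩ := exists_trT b (ι := ι) hm h T hT hd
  -- restrictions
  have hrex : ∀ c : Fin (n + 2) → ZMod b.N, ∃ g : T →+* T, c ∈ admSet b ι t x →
      ∀ z, (g z : L) = adm b ι t x c z := by
    intro c
    by_cases hc : c ∈ admSet b ι t x
    · obtain ⟨g, hg⟩ := (isAdm_adm b ι hc).exists_restrict b α
      exact ⟨g, fun _ => hg⟩
    · exact ⟨RingHom.id _, fun h => absurd h hc⟩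
  choose g hg using hrex
  set y' : KM m T := ∑ c ∈ admSet b ι t x, w (pair α c) • KM.map m (g c) y with hy'
  set B := Module.finrank T L with hB
  have hmap : KM.map m (algebraMap T L) y' = B • vv b ι t x w α ξ := by
    have h1 : KM.map m (algebraMap T L) y' = vv b ι t x w α (trT b ι t x T ξ) := by
      rw [hy', map_sum]
      unfold vv
      refine sum_congr rfl fun c hc => ?_
      rw [map_zsmul, KM.map_map, ← hy, KM.map_map]
      congr 2
      exact congrArg _ (RingHom.ext fun z => hg c hc z)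
    rw [h1, vv_trT b h w T (pair_eq_zero_of_fieldA b h α), card_admFix b h T hT]
  refine ⟨B, B • y', Module.finrank_pos, hle, ?_, ?_, ?_, ?_, ?_⟩
  · rw [map_nsmul, hmap, smul_smul, pow_two]
  · refine nsmul_mem (sum_mem fun c _ => zsmul_mem (KM.deg_map _ hyd) _) _
  · refine unr_smul_of_map hm ?_
    rw [hmap]
    exact unr_nsmul (unr_vv b w α hξ) _
  · intro g' hg'
    have h1 : KM.map m (algebraMap T L) (KM.map m g' y' - (b.q : ℤ) • y') = 0 := by
      rw [map_sub, map_zsmul, KM.map_map]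
      have h2 : (algebraMap T L).comp g' = σ.comp (algebraMap T L) :=
        RingHom.ext fun z => hg' z
      rw [h2, ← KM.map_map, hmap, map_nsmul,
        map_vv b w (fun c hc => hσ.comm b h (isAdm_adm b ι hc)), hσξ]
      have h3 : vv b ι t x w α (b.q • ξ) = (b.q : ℤ) • vv b ι t x w α ξ := by
        rw [← vv_zsmul, natCast_zsmul]
      rw [h3, smul_comm, sub_self]
    have h4 := finrank_smul_eq_zero hm B rfl h1
    rw [smul_sub, sub_eq_zero] at h4
    rw [map_nsmul, h4, smul_comm, natCast_zsmul]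
  · intro g' k hfix hwm hk
    obtain ⟨c₀, f, hf, hfg⟩ := exists_adm_extension b ι h T hT g' hfix
    have hc₀ : c₀ ∈ admSet b ι t x := (mem_admSet b ι).2 ⟨f, hf⟩
    have hpair : pair α c₀ ≠ 0 := by
      intro h0
      have hm' : UnrG.wmon x α ∈ T := IntermediateField.subset_adjoin F _ (Or.inr rfl)
      have h1 := hwm ⟨UnrG.wmon x α, hm'⟩ rfl
      rw [← hfg] at h1
      have h2 := hf.wmon b α
      rw [h0, ZMod.val_zero, pow_zero, one_mul] at h2
      have h3 : UnrG.wmon x α = algebraMap F L (ι b.ζ) ^ k * UnrG.wmon x α := h2.symm.trans h1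
      have h4 : algebraMap F L (ι b.ζ) ^ k = 1 :=
        mul_right_cancel₀ (wmon_ne b h α) (by rw [← h3, one_mul])
      exact hk ((zeta_prim (L := L) b ι).dvd_of_pow_eq_one k h4)
    -- the composition
    have hcomp : ∀ (l : ℕ) (c : Fin (n + 2) → ZMod b.N), c ∈ admSet b ι t x →
        (g' ^ l).comp (g c) = g (c + l • c₀) := by
      intro l c hc
      have hl := nsmul_mem_admSet b hc₀ l
      apply RingHom.ext
      intro z
      apply Subtype.ext
      have h1 : ∀ (l : ℕ) (z : T), ((g' ^ l) z : L) = (f ^ l) z := by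
        intro l
        induction l with
        | zero => intro z; rfl
        | succ l ih =>
          intro z
          rw [pow_succ', pow_succ']
          change ((g' ((g' ^ l) z) : T) : L) = f ((f ^ l) z)
          rw [← hfg, ih]
      have h2 : IsAdm b ι t x (l • c₀ + c) ((f ^ l).comp (adm b ι t x c)) :=
        (hf.pow b l).comp b (isAdm_adm b ι hc)
      have h3 : c + l • c₀ ∈ admSet b ι t x := add_mem_admSet b hc hl
      rw [hg _ h3]
      change ((g' ^ l) (g c z) : L) = _
      rw [h1, hg c hc]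
      rw [add_comm] at h2
      exact congrArg (fun φ : L →+* L => φ z) (h2.unique b h (isAdm_adm b ι h3))
    have key : ∑ l ∈ range b.N, KM.map m (g' ^ l) y' = 0 := by
      have h1 : ∀ l : ℕ, KM.map m (g' ^ l) y' =
          ∑ c ∈ admSet b ι t x, w (pair α c + l * (-pair α c₀)) • KM.map m (g c) y := by
        intro l
        rw [hy', map_sum]
        rw [← sum_admSet_add b (nsmul_mem_admSet b hc₀ l)
          (fun c => w (pair α c + l * (-pair α c₀)) • KM.map m (g c) y)]
        refine sum_congr rfl fun c hc => ?_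
        rw [map_zsmul, KM.map_map, hcomp l c hc, pair_add, pair_nsmul]
        congr 2
        ring
      rw [sum_congr rfl fun l _ => h1 l, sum_comm]
      refine sum_eq_zero fun c _ => ?_
      rw [← sum_smul, hw.sum _ (neg_ne_zero.2 hpair), zero_smul]
    have h5 : ∀ l : ℕ, KM.map m (g' ^ l) (B • y') = B • KM.map m (g' ^ l) y' := fun l =>
      map_nsmul _ _ _
    rw [sum_congr rfl fun l _ => h5 l, ← smul_sum, key, smul_zero]

end UnrG
end

section

/-!
# Descent of the projections to the monomial subfields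
-/

namespace UnrA.Fer

open UnrG

universe u v w z

open Polynomial Finset
open scoped Classical

variable {m : UFun.{u, z}} {𝔽 : Type w} [Field 𝔽] [Fintype 𝔽] (b : Base 𝔽)

variable {F L : Type u} [Field F] [Field L] [Algebra F L] {ι : 𝔽 →+* F} {r n : ℕ}
  {t : Fin r → L} {a x : Fin (n + 2) → L}

private lemma zeta_prim (ι : 𝔽 →+* F) : IsPrimitiveRoot (algebraMap F L (ι b.ζ)) b.N :=
  b.hζ_map ((algebraMap F L).comp ι)

private lemma wmon_ne (h : DiagData b t (F := F) a x) (α : Fin (n + 2) → ZMod b.N) :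
    UnrG.wmon x α ≠ 0 :=
  prod_ne_zero_iff.2 fun i _ => pow_ne_zero _ (h.x_ne b i)

private lemma pair_add {N n : ℕ} (α c c' : Fin n → ZMod N) :
    pair α (c + c') = pair α c + pair α c' := by
  unfold pair
  rw [← sum_add_distrib]
  exact sum_congr rfl fun i _ => by rw [Pi.add_apply, mul_add]

private lemma pair_nsmul {N n : ℕ} (α c : Fin n → ZMod N) (l : ℕ) :
    pair α (l • c) = l * pair α c := by
  unfold pair
  rw [mul_sum]
  exact sum_congr rfl fun i _ => by rw [Pi.smul_apply, nsmul_eq_mul]; ring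

private lemma nsmul_mem_admSet {c : Fin (n + 2) → ZMod b.N} (hc : c ∈ admSet b ι t x) (l : ℕ) :
    l • c ∈ admSet b ι t x := by
  obtain ⟨f, hf⟩ := (mem_admSet b ι).1 hc
  exact (mem_admSet b ι).2 ⟨_, hf.pow b l⟩

/-- Descent. Proof: let `T = fieldA b F t x α`, `B = finrank T L = (admFix).card`, `y` from
`exists_trT` with `map y = trT ξ`, and `y' = ∑ c ∈ admSet, w (pair α c) • KM.map (g c) y`, where
`g c : T →+* T` is the restriction of `adm c`. Then `map y' = vv α (trT ξ) = B • vv α ξ`
(`vv_trT`, `pair_eq_zero_of_fieldA`). Put `z = B • y'`. It is unramified by `unr_smul_of_map`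
(`unr_vv`). For the last property: by
`exists_adm_extension` the homomorphism `g` is the restriction of a diagonal automorphism with
exponents `c₀`, and `ζ ^ (pair α c₀).val = ζ ^ k` (`IsAdm.wmon`, the monomial is nonzero), so
`pair α c₀ ≠ 0`; then `∑ i ∈ range N, KM.map (g ^ i) y' = 0` as in `sum_pow_vv` (the computation
holds on `T` since `g c ∘ g c' = g (c + c')`). Finally `map z = B ^ 2 • vv α ξ`. -/
theorem exists_descent (h : DiagData b t (F := F) a x) {w : ZMod b.N → ℤ}
    (hw : Weight b.N w) (α : Fin (n + 2) → ZMod b.N) {ξ : KM m L} (hξ : Unr ξ) :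
    ∃ (B : ℕ) (z : KM m (fieldA b F t x α)), 0 < B ∧ B ≤ b.N ^ (n + 1) ∧
      KM.map m (algebraMap (fieldA b F t x α) L) z = B ^ 2 • vv b ι t x w α ξ ∧
      Unr z ∧
      ∀ (g : fieldA b F t x α →+* fieldA b F t x α) (k : ℕ),
        (∀ e : fieldA b F t x α, (e : L) ∈ fieldK b F t x → g e = e) →
        (∀ e : fieldA b F t x α, (e : L) = wmon x α →
          (g e : L) = algebraMap F L (ι b.ζ) ^ k * wmon x α) →
        ¬ b.N ∣ k → ∑ l ∈ range b.N, KM.map m (g ^ l) z = 0 := by
  set T := fieldA b F t x α with hTdef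
  have hT : fieldK b F t x ≤ T := fieldK_le_fieldA b α
  obtain ⟨hfd, hgal, hle⟩ := galois_fieldT b ι h T hT
  obtain ⟨y, hy⟩ := exists_trT b (ι := ι) h T hT ξ
  -- restrictions
  have hrex : ∀ c : Fin (n + 2) → ZMod b.N, ∃ g : T →+* T, c ∈ admSet b ι t x →
      ∀ z, (g z : L) = adm b ι t x c z := by
    intro c
    by_cases hc : c ∈ admSet b ι t x
    · obtain ⟨g, hg⟩ := (isAdm_adm b ι hc).exists_restrict b α
      exact ⟨g, fun _ => hg⟩
    · exact ⟨RingHom.id _, fun h => absurd h hc⟩
  choose g hg using hrex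
  set y' : KM m T := ∑ c ∈ admSet b ι t x, w (pair α c) • KM.map m (g c) y with hy'
  set B := Module.finrank T L with hB
  have hmap : KM.map m (algebraMap T L) y' = B • vv b ι t x w α ξ := by
    have h1 : KM.map m (algebraMap T L) y' = vv b ι t x w α (trT b ι t x T ξ) := by
      rw [hy', map_sum]
      unfold vv
      refine sum_congr rfl fun c hc => ?_
      rw [map_zsmul, KM.map_map, ← hy, KM.map_map]
      congr 2
      exact congrArg _ (RingHom.ext fun z => hg c hc z)
    rw [h1, vv_trT b h w T (pair_eq_zero_of_fieldA b h α), card_admFix b h T hT]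
  refine ⟨B, B • y', Module.finrank_pos, hle, ?_, ?_, ?_⟩
  · rw [map_nsmul, hmap, smul_smul, pow_two]
  · refine unr_smul_of_map ?_
    rw [hmap]
    exact (unr_vv b w α hξ).nsmul _
  · intro g' k hfix hwm hk
    obtain ⟨c₀, f, hf, hfg⟩ := exists_adm_extension b ι h T hT g' hfix
    have hc₀ : c₀ ∈ admSet b ι t x := (mem_admSet b ι).2 ⟨f, hf⟩
    have hpair : pair α c₀ ≠ 0 := by
      intro h0
      have hm' : UnrG.wmon x α ∈ T := IntermediateField.subset_adjoin F _ (Or.inr rfl)
      have h1 := hwm ⟨UnrG.wmon x α, hm'⟩ rfl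
      rw [← hfg] at h1
      have h2 := hf.wmon b α
      rw [h0, ZMod.val_zero, pow_zero, one_mul] at h2
      have h3 : UnrG.wmon x α = algebraMap F L (ι b.ζ) ^ k * UnrG.wmon x α := h2.symm.trans h1
      have h4 : algebraMap F L (ι b.ζ) ^ k = 1 :=
        mul_right_cancel₀ (wmon_ne b h α) (by rw [← h3, one_mul])
      exact hk ((zeta_prim (L := L) b ι).dvd_of_pow_eq_one k h4)
    -- the composition
    have hcomp : ∀ (l : ℕ) (c : Fin (n + 2) → ZMod b.N), c ∈ admSet b ι t x →
        (g' ^ l).comp (g c) = g (c + l • c₀) := by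
      intro l c hc
      have hl := nsmul_mem_admSet b hc₀ l
      apply RingHom.ext
      intro z
      apply Subtype.ext
      have h1 : ∀ (l : ℕ) (z : T), ((g' ^ l) z : L) = (f ^ l) z := by
        intro l
        induction l with
        | zero => intro z; rfl
        | succ l ih =>
          intro z
          rw [pow_succ', pow_succ']
          change ((g' ((g' ^ l) z) : T) : L) = f ((f ^ l) z)
          rw [← hfg, ih]
      have h2 : IsAdm b ι t x (l • c₀ + c) ((f ^ l).comp (adm b ι t x c)) :=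
        (hf.pow b l).comp b (isAdm_adm b ι hc)
      have h3 : c + l • c₀ ∈ admSet b ι t x := add_mem_admSet b hc hl
      rw [hg _ h3]
      change ((g' ^ l) (g c z) : L) = _
      rw [h1, hg c hc]
      rw [add_comm] at h2
      exact congrArg (fun φ : L →+* L => φ z) (h2.unique b h (isAdm_adm b ι h3))
    have key : ∑ l ∈ range b.N, KM.map m (g' ^ l) y' = 0 := by
      have h1 : ∀ l : ℕ, KM.map m (g' ^ l) y' =
          ∑ c ∈ admSet b ι t x, w (pair α c + l * (-pair α c₀)) • KM.map m (g c) y := by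
        intro l
        rw [hy', map_sum]
        rw [← sum_admSet_add b (nsmul_mem_admSet b hc₀ l)
          (fun c => w (pair α c + l * (-pair α c₀)) • KM.map m (g c) y)]
        refine sum_congr rfl fun c hc => ?_
        rw [map_zsmul, KM.map_map, hcomp l c hc, pair_add, pair_nsmul]
        congr 2
        ring
      rw [sum_congr rfl fun l _ => h1 l, sum_comm]
      refine sum_eq_zero fun c _ => ?_
      rw [← sum_smul, hw.sum _ (neg_ne_zero.2 hpair), zero_smul]
    have h5 : ∀ l : ℕ, KM.map m (g' ^ l) (B • y') = B • KM.map m (g' ^ l) y' := fun l =>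
      map_nsmul _ _ _
    rw [sum_congr rfl fun l _ => h5 l, ← smul_sum, key, smul_zero]

end UnrA.Fer
end
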