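import Mathlib
import Pool.Agent.Lib.MP_859dd5_ag.Mg.G069
import Pool.Agent.Lib.MP_859dd5_ag.PP.M1
import Pool.Agent.Lib.MP_859dd5_ag.Mg.G068
import Pool.Agent.Lib.MP_859dd5_ag.PP.N0

section

/-!
# Monomials and traces
-/

namespace UnrG

universe u v w

open Polynomial Finset
open scoped Classical

variable {F Ω : Type u} [Field F] [Field Ω] [Algebra F Ω]

/-- Proof: let `s e + v N = 1` with integers `s`, `v` (`Nat.Coprime`, `Int.gcd_eq_gcd_ab`), and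
`y = w ^ s * X ^ v`. Then `y ^ N = (w ^ N) ^ s * X ^ (v N) = c ^ s * X ^ (s e + v N) = c ^ s * X`, so
`X = y ^ N * c ^ (-s)`; and `w = w ^ (s e + v N) = (w ^ s) ^ e * (w ^ N) ^ v
= (y * X ^ (-v)) ^ e * (c * X ^ e) ^ v = y ^ e * c ^ v`. (`w ≠ 0` because `w ^ N ≠ 0`, `N > 0`.) -/
theorem mono_trick (T : IntermediateField F Ω) {N e : ℕ} (hN : 0 < N) (he : e.Coprime N)
    {w X c : Ω} (hc : c ∈ T) (hc0 : c ≠ 0) (hX : X ≠ 0) (hw : w ^ N = c * X ^ e) :
    ∃ y : Ω, T ⊔ IntermediateField.adjoin F {w, X} = T ⊔ IntermediateField.adjoin F {y} := by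
  obtain ⟨s, v, hsv⟩ : ∃ s v : ℤ, (e : ℤ) * s + N * v = 1 := by
    refine ⟨Nat.gcdA e N, Nat.gcdB e N, ?_⟩
    rw [← Nat.gcd_eq_gcd_ab, he.gcd_eq_one]
    rfl
  have hw0 : w ≠ 0 := by
    rintro rfl
    rw [zero_pow hN.ne'] at hw
    exact mul_ne_zero hc0 (pow_ne_zero _ hX) hw.symm
  obtain ⟨y, hy⟩ : ∃ y : Ω, y = w ^ s * X ^ v := ⟨_, rfl⟩
  have hwN : w ^ (N : ℤ) = c * X ^ (e : ℤ) := by
    rw [zpow_natCast, zpow_natCast, hw]
  have h1 : y ^ (N : ℤ) = c ^ s * X := by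
    calc y ^ (N : ℤ) = (w ^ (N : ℤ)) ^ s * X ^ ((N : ℤ) * v) := by
          rw [hy, mul_zpow, ← zpow_mul, ← zpow_mul, ← zpow_mul, mul_comm s, mul_comm v]
      _ = c ^ s * (X ^ ((e : ℤ) * s) * X ^ ((N : ℤ) * v)) := by
          rw [hwN, mul_zpow, ← zpow_mul, mul_assoc]
      _ = c ^ s * X := by rw [← zpow_add₀ hX, hsv, zpow_one]
  have h2 : w = y ^ (e : ℤ) * c ^ v := by
    have h3 : c = w ^ (N : ℤ) * X ^ (-(e : ℤ)) := by
      rw [hwN, mul_assoc, ← zpow_add₀ hX, add_neg_cancel, zpow_zero, mul_one]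
    calc w = w ^ ((e : ℤ) * s + N * v) := by rw [hsv, zpow_one]
      _ = w ^ ((e : ℤ) * s) * w ^ ((N : ℤ) * v) := zpow_add₀ hw0 _ _
      _ = w ^ ((e : ℤ) * s) * w ^ ((N : ℤ) * v) * (X ^ ((e : ℤ) * v) * X ^ (-(e : ℤ) * v)) := by
          rw [← zpow_add₀ hX, neg_mul, add_neg_cancel, zpow_zero, mul_one]
      _ = (w ^ s * X ^ v) ^ (e : ℤ) * (w ^ (N : ℤ) * X ^ (-(e : ℤ))) ^ v := by
          rw [mul_zpow, mul_zpow, ← zpow_mul, ← zpow_mul, ← zpow_mul, ← zpow_mul, mul_comm s,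
            mul_comm v (e : ℤ)]
          ring
      _ = _ := by rw [← h3, hy]
  have h4 : X = y ^ (N : ℤ) * (c ^ s)⁻¹ := by
    rw [h1, mul_comm (c ^ s), mul_assoc, mul_inv_cancel₀ (zpow_ne_zero _ hc0), mul_one]
  refine ⟨y, le_antisymm (sup_le le_sup_left ?_) (sup_le le_sup_left ?_)⟩
  · have hyM : y ∈ T ⊔ IntermediateField.adjoin F {y} :=
      (le_sup_right : IntermediateField.adjoin F {y} ≤ _)
        (IntermediateField.mem_adjoin_simple_self F y)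
    have hcM : c ∈ T ⊔ IntermediateField.adjoin F {y} := (le_sup_left : T ≤ _) hc
    rw [IntermediateField.adjoin_le_iff]
    rintro z (rfl | hz)
    · rw [SetLike.mem_coe, h2]
      exact mul_mem (zpow_mem hyM _) (zpow_mem hcM _)
    · rw [Set.mem_singleton_iff] at hz
      rw [hz, SetLike.mem_coe, h4]
      exact mul_mem (zpow_mem hyM _) (inv_mem (zpow_mem hcM _))
  · rw [IntermediateField.adjoin_simple_le_iff, hy]
    have hwM : w ∈ T ⊔ IntermediateField.adjoin F {w, X} :=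
      (le_sup_right : IntermediateField.adjoin F {w, X} ≤ _)
        (IntermediateField.subset_adjoin F _ (Or.inl rfl))
    have hXM : X ∈ T ⊔ IntermediateField.adjoin F {w, X} :=
      (le_sup_right : IntermediateField.adjoin F {w, X} ≤ _)
        (IntermediateField.subset_adjoin F _ (Or.inr rfl))
    exact mul_mem (zpow_mem hwM _) (zpow_mem hXM _)

/-- Hint: `Z ^ (p ^ a) = ∑ i < b, Y ^ ((p ^ a) ^ (i + 1))` (`sum_pow_char_pow`), telescoping sum
(`Finset.sum_range_succ`, `Finset.sum_range_succ'`). -/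
lemma trace_pow_sub {K : Type*} [Field K] {p : ℕ} [Fact p.Prime] [CharP K p] (a b : ℕ) {Y Z : K}
    (hZ : Z = ∑ i ∈ range b, Y ^ (p ^ a) ^ i) : Z ^ p ^ a - Z = Y ^ p ^ (a * b) - Y := by
  have h1 : Z ^ p ^ a = ∑ i ∈ range b, Y ^ (p ^ a) ^ (i + 1) := by
    rw [hZ, sum_pow_char_pow]
    refine sum_congr rfl fun i _ => ?_
    rw [← pow_mul, ← pow_succ]
  rw [h1, hZ, ← sum_sub_distrib, sum_range_sub (fun i => Y ^ (p ^ a) ^ i), pow_zero, pow_one,
    ← pow_mul]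

end UnrG
end

section

/-!
# Two twisted pairs in a relation with four terms: definitions
-/

namespace UnrG

universe u v w

open Polynomial Finset

/-- Data with two twisted pairs: the field `K = F(t, X, w)` with `∑ X_i = 0` (four terms), `X_3 = 1`,
`w ^ N = δ ∏ X_i ^ e_i`. -/
structure Cyc4 (p N k₁ k₂ : ℕ) {F K : Type u} [Field F] [Field K] [Algebra F K] {r : ℕ}
    (t : Fin r → K) (X : Fin 4 → K) (w δ : K) (e : Fin 4 → ℕ) : Prop where
  N_pos : 0 < N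
  k₁_pos : 0 < k₁
  k₂_pos : 0 < k₂
  h01 : N ∣ p ^ k₁ * e 0 + e 1
  h23 : N ∣ p ^ k₂ * e 2 + e 3
  hsum : N ∣ ∑ i, e i
  hb : (e 0 + e 1).Coprime N
  X_ne : ∀ i, X i ≠ 0
  X_last : X 3 = 1
  sum : ∑ i, X i = 0
  δ_mem : δ ∈ IntermediateField.adjoin F (Set.range t)
  δ_ne : δ ≠ 0
  eq : w ^ N = δ * ∏ i, X i ^ e i
  ind : AlgebraicIndependent F (Sum.elim t (fun i : Fin 2 => X (i.castLE (by norm_num))))
  gen : IntermediateField.adjoin F (Set.range t ∪ Set.range X ∪ {w}) = ⊤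

/-- The same in the extension field `Ω = K(Y₁, Y₂)`. -/
structure Pair4 (p N k₁ k₂ : ℕ) {F Ω : Type u} [Field F] [Field Ω] [Algebra F Ω] {r : ℕ}
    (t : Fin r → Ω) (X : Fin 4 → Ω) (w δ Z₁ Z₂ Y₁ Y₂ : Ω) (e : Fin 4 → ℕ) : Prop where
  N_pos : 0 < N
  k₁_pos : 0 < k₁
  k₂_pos : 0 < k₂
  h01 : N ∣ p ^ k₁ * e 0 + e 1
  h23 : N ∣ p ^ k₂ * e 2 + e 3
  hsum : N ∣ ∑ i, e i
  hb : (e 0 + e 1).Coprime N
  X_ne : ∀ i, X i ≠ 0
  X_last : X 3 = 1
  sum : ∑ i, X i = 0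
  δ_mem : δ ∈ IntermediateField.adjoin F (Set.range t)
  δ_ne : δ ≠ 0
  eq : w ^ N = δ * ∏ i, X i ^ e i
  ind : AlgebraicIndependent F (Sum.elim t (fun i : Fin 2 => X (i.castLE (by norm_num))))
  gen : IntermediateField.adjoin F (Set.range t ∪ Set.range X ∪ {w, Y₁, Y₂}) = ⊤
  Z₁_eq : Z₁ = ∑ i ∈ range k₂, Y₁ ^ (p ^ k₁) ^ i
  Z₂_eq : Z₂ = ∑ i ∈ range k₁, Y₂ ^ (p ^ k₂) ^ i
  Z₁_pow : Z₁ ^ (p ^ k₁ - 1) = -X 0 / X 1
  Z₂_pow : Z₂ ^ (p ^ k₂ - 1) = -X 2 / X 3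

end UnrG
end

section

/-!
# Four terms: identities
-/

namespace UnrG

universe u v w

open Polynomial Finset

variable {p N k₁ k₂ : ℕ} {F Ω : Type u} [Field F] [Field Ω] [Algebra F Ω] {r : ℕ} {t : Fin r → Ω}
  {X : Fin 4 → Ω} {w δ Z₁ Z₂ Y₁ Y₂ : Ω} {e : Fin 4 → ℕ}

namespace Pair4

/-- Hint: `Z₁ ^ (p ^ k₁ - 1) = -X 0 / X 1 ≠ 0`, and `p ^ k₁ - 1 > 0`. -/
lemma Z_ne [Fact p.Prime] (h : Pair4 p N k₁ k₂ (F := F) t X w δ Z₁ Z₂ Y₁ Y₂ e) :
    Z₁ ≠ 0 ∧ Z₂ ≠ 0 := by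
  have hp : 1 < p := (Fact.out : p.Prime).one_lt
  have hk : ∀ k, 0 < k → p ^ k - 1 ≠ 0 := by
    intro k hk
    have h1 := Nat.one_lt_pow hk.ne' hp
    omega
  have hd : ∀ a b : Ω, a ≠ 0 → b ≠ 0 → -a / b ≠ 0 := fun a b ha hb =>
    div_ne_zero (neg_ne_zero.2 ha) hb
  constructor
  · intro h0
    have h1 := h.Z₁_pow
    rw [h0, zero_pow (hk _ h.k₁_pos)] at h1
    exact hd _ _ (h.X_ne 0) (h.X_ne 1) h1.symm
  · intro h0
    have h1 := h.Z₂_pow
    rw [h0, zero_pow (hk _ h.k₂_pos)] at h1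
    exact hd _ _ (h.X_ne 2) (h.X_ne 3) h1.symm

/-- Hint: `X 0 = -X 1 * Z₁ ^ (p ^ k₁ - 1)`, and `Z₁ * Z₁ ^ (p ^ k₁ - 1) = Z₁ ^ p ^ k₁`. -/
lemma X_zero [Fact p.Prime] (h : Pair4 p N k₁ k₂ (F := F) t X w δ Z₁ Z₂ Y₁ Y₂ e) :
    X 0 = (-X 1 / Z₁) * Z₁ ^ p ^ k₁ ∧ X 1 = -((-X 1 / Z₁) * Z₁) := by
  have hp : 1 < p := (Fact.out : p.Prime).one_lt
  have hZ := h.Z_ne.1
  have hX := h.X_ne 1
  have h1 : Z₁ ^ p ^ k₁ = Z₁ ^ (p ^ k₁ - 1) * Z₁ := by
    rw [← pow_succ]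
    congr 1
    have := Nat.one_lt_pow h.k₁_pos.ne' hp
    omega
  constructor
  · rw [h1, h.Z₁_pow]
    field_simp
  · field_simp

/-- Here `X 3 = 1`. -/
lemma X_two [Fact p.Prime] (h : Pair4 p N k₁ k₂ (F := F) t X w δ Z₁ Z₂ Y₁ Y₂ e) :
    X 2 = (-1 / Z₂) * Z₂ ^ p ^ k₂ ∧ X 3 = -((-1 / Z₂) * Z₂) := by
  have hp : 1 < p := (Fact.out : p.Prime).one_lt
  have hZ := h.Z_ne.2
  have h1 : Z₂ ^ p ^ k₂ = Z₂ ^ (p ^ k₂ - 1) * Z₂ := by
    rw [← pow_succ]
    congr 1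
    have := Nat.one_lt_pow h.k₂_pos.ne' hp
    omega
  constructor
  · rw [h1, h.Z₂_pow, h.X_last]
    field_simp
  · rw [h.X_last]
    field_simp

/-- Hint: `X_zero`, `X_two`, `trace_pow_sub` (PF/G6) and `sum` (`Fin.sum_univ_four`). -/
lemma rel [Fact p.Prime] [CharP Ω p]
    (h : Pair4 p N k₁ k₂ (F := F) t X w δ Z₁ Z₂ Y₁ Y₂ e) :
    (-X 1 / Z₁) * (Y₁ ^ p ^ (k₁ * k₂) - Y₁) + (-1 / Z₂) * (Y₂ ^ p ^ (k₁ * k₂) - Y₂) = 0 := by
  have h0 := h.sum
  rw [Fin.sum_univ_four] at h0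
  obtain ⟨h1, h2⟩ := h.X_zero
  obtain ⟨h3, h4⟩ := h.X_two
  have h5 := trace_pow_sub k₁ k₂ h.Z₁_eq
  have h6 := trace_pow_sub k₂ k₁ h.Z₂_eq
  rw [mul_comm k₂ k₁] at h6
  rw [← h5, ← h6]
  linear_combination h0 - h1 - h2 - h3 - h4

/-- The quotient `v = u₁ / u₂`. -/
lemma v_ne [Fact p.Prime] (h : Pair4 p N k₁ k₂ (F := F) t X w δ Z₁ Z₂ Y₁ Y₂ e) :
    X 1 * Z₂ / Z₁ ≠ 0 :=
  div_ne_zero (mul_ne_zero (h.X_ne 1) h.Z_ne.2) h.Z_ne.1

/-- The monomial. Proof: with `u₁ = -X 1 / Z₁`, `u₂ = -1 / Z₂`, and `p ^ k₁ e_0 + e_1 = N k`,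
`p ^ k₂ e_2 + e_3 = N l`, `∑ e = N M`: `X_0 ^ e_0 X_1 ^ e_1 = (-1) ^ e_1 u₁ ^ (e_0 + e_1) (Z₁ ^ k) ^ N`,
similarly for `X_2`, `X_3`; and `u₁ ^ (e_0 + e_1) u₂ ^ (e_2 + e_3) = (u₁ / u₂) ^ (e_0 + e_1) (u₂ ^ M) ^ N`,
`u₁ / u₂ = X 1 * Z₂ / Z₁`. Take `g = Z₁ ^ k Z₂ ^ l u₂ ^ M`, up to the form of the statement. -/
lemma exists_W [Fact p.Prime] (h : Pair4 p N k₁ k₂ (F := F) t X w δ Z₁ Z₂ Y₁ Y₂ e) :
    ∃ g : Ω, g ≠ 0 ∧ g ∈ IntermediateField.adjoin F {Z₁, Z₂} ∧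
      (w / g) ^ N = (δ * (-1) ^ (e 1 + e 3)) * (X 1 * Z₂ / Z₁) ^ (e 0 + e 1) := by
  obtain ⟨hZ₁, hZ₂⟩ := h.Z_ne
  obtain ⟨h1, h2⟩ := h.X_zero
  obtain ⟨h3, h4⟩ := h.X_two
  obtain ⟨k, hk⟩ := h.h01
  obtain ⟨l, hl⟩ := h.h23
  obtain ⟨M, hM⟩ := h.hsum
  rw [Fin.sum_univ_four] at hM
  obtain ⟨v, hv⟩ : ∃ v, v = X 1 * Z₂ / Z₁ := ⟨_, rfl⟩
  obtain ⟨u, hu⟩ : ∃ u : Ω, u = -1 / Z₂ := ⟨_, rfl⟩
  have hu0 : u ≠ 0 := by
    rw [hu]
    exact div_ne_zero (neg_ne_zero.2 one_ne_zero) hZ₂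
  have hvu : -X 1 / Z₁ = v * u := by
    rw [hv, hu]
    field_simp
  rw [hvu] at h1 h2
  rw [← hu] at h3 h4
  have hgne : Z₁ ^ k * Z₂ ^ l * u ^ M ≠ 0 :=
    mul_ne_zero (mul_ne_zero (pow_ne_zero _ hZ₁) (pow_ne_zero _ hZ₂)) (pow_ne_zero _ hu0)
  refine ⟨Z₁ ^ k * Z₂ ^ l * u ^ M, hgne, ?_, ?_⟩
  · have hz₁ : Z₁ ∈ IntermediateField.adjoin F {Z₁, Z₂} :=
      IntermediateField.subset_adjoin F _ (Or.inl rfl)
    have hz₂ : Z₂ ∈ IntermediateField.adjoin F {Z₁, Z₂} :=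
      IntermediateField.subset_adjoin F _ (Or.inr rfl)
    have hz₃ : u ∈ IntermediateField.adjoin F {Z₁, Z₂} := by
      rw [hu]
      exact div_mem (neg_mem (one_mem _)) hz₂
    exact mul_mem (mul_mem (pow_mem hz₁ _) (pow_mem hz₂ _)) (pow_mem hz₃ _)
  · rw [← hv, div_pow, h.eq, div_eq_iff (pow_ne_zero _ hgne), Fin.prod_univ_four]
    have e1 : X 0 ^ e 0 * X 1 ^ e 1 = (-1) ^ e 1 * (v * u) ^ (e 0 + e 1) * (Z₁ ^ k) ^ N := by
      rw [h1, h2, ← pow_mul Z₁ k N, mul_comm k N, ← hk]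
      ring
    have e2 : X 2 ^ e 2 * X 3 ^ e 3 = (-1) ^ e 3 * u ^ (e 2 + e 3) * (Z₂ ^ l) ^ N := by
      rw [h3, h4, ← pow_mul Z₂ l N, mul_comm l N, ← hl]
      ring
    have e3 : (u ^ M) ^ N = u ^ (e 0 + e 1) * u ^ (e 2 + e 3) := by
      rw [← pow_mul, mul_comm M N, ← hM]
      ring
    calc δ * (X 0 ^ e 0 * X 1 ^ e 1 * X 2 ^ e 2 * X 3 ^ e 3) =
        δ * ((X 0 ^ e 0 * X 1 ^ e 1) * (X 2 ^ e 2 * X 3 ^ e 3)) := by ring
      _ = δ * (((-1) ^ e 1 * (v * u) ^ (e 0 + e 1) * (Z₁ ^ k) ^ N) *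
          ((-1) ^ e 3 * u ^ (e 2 + e 3) * (Z₂ ^ l) ^ N)) := by rw [e1, e2]
      _ = δ * ((-1) ^ e 1 * (-1) ^ e 3) * v ^ (e 0 + e 1) *
          ((Z₁ ^ k) ^ N * (Z₂ ^ l) ^ N * (u ^ (e 0 + e 1) * u ^ (e 2 + e 3))) := by
          rw [mul_pow v u]
          ring
      _ = δ * (-1) ^ (e 1 + e 3) * v ^ (e 0 + e 1) * (Z₁ ^ k * Z₂ ^ l * u ^ M) ^ N := by
          rw [← e3, pow_add (-1 : Ω), mul_pow, mul_pow]

end Pair4

end UnrG
end

section

/-!
# Four terms: the generator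
-/

namespace UnrG

universe u v w

open Polynomial Finset

variable {p N k₁ k₂ : ℕ} {F Ω : Type u} [Field F] [Field Ω] [Algebra F Ω] {r : ℕ} {t : Fin r → Ω}
  {X : Fin 4 → Ω} {w δ Z₁ Z₂ Y₁ Y₂ : Ω} {e : Fin 4 → ℕ}

/-- The properties of the generator `y` of the field generated by `t`, `v = X 1 * Z₂ / Z₁` and the
monomial. -/
structure Gen4 (F : Type u) {Ω : Type u} [Field F] [Field Ω] [Algebra F Ω] {r : ℕ}
    (t : Fin r → Ω) (v w Z₁ Z₂ y : Ω) : Prop where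
  v_mem : ∀ T : IntermediateField F Ω, Set.range t ⊆ (T : Set Ω) → y ∈ T → v ∈ T
  w_mem : ∀ T : IntermediateField F Ω, Set.range t ⊆ (T : Set Ω) → y ∈ T → Z₁ ∈ T → Z₂ ∈ T → w ∈ T
  alg : IsAlgebraic (IntermediateField.adjoin F (Set.range t)) v →
    IsAlgebraic (IntermediateField.adjoin F (Set.range t)) y

/-- Proof: `exists_W`, and `mono_trick` (PF/G6) for the subfield generated by `t`, which contains the
coefficient, with `X = v = X 1 * Z₂ / Z₁` and the exponent `e 0 + e 1` prime to `N` (`hb`). For `w_mem`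
use `w = (w / g) * g`. For `alg`: `(w / g) ^ N` is algebraic, so `w / g` is (`IsAlgebraic.of_pow`), so
all elements of the field generated by `v` and `w / g` over the subfield are. -/
theorem Pair4.exists_y [Fact p.Prime] (h : Pair4 p N k₁ k₂ (F := F) t X w δ Z₁ Z₂ Y₁ Y₂ e) :
    ∃ y : Ω, Gen4 F t (X 1 * Z₂ / Z₁) w Z₁ Z₂ y := by
  obtain ⟨g, hg0, hg, hW⟩ := h.exists_W
  obtain ⟨T, hT⟩ : ∃ T : IntermediateField F Ω, T = IntermediateField.adjoin F (Set.range t) :=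
    ⟨_, rfl⟩
  obtain ⟨W, hWdef⟩ : ∃ W : Ω, W = w / g := ⟨_, rfl⟩
  obtain ⟨V, hV⟩ : ∃ V : Ω, V = X 1 * Z₂ / Z₁ := ⟨_, rfl⟩
  have hV0 : V ≠ 0 := by
    rw [hV]
    exact h.v_ne
  rw [← hWdef, ← hV] at hW
  rw [← hV]
  have hcT : δ * (-1) ^ (e 1 + e 3) ∈ T := by
    rw [hT]
    exact mul_mem h.δ_mem (pow_mem (neg_mem (one_mem _)) _)
  have hc0 : δ * (-1) ^ (e 1 + e 3) ≠ 0 :=
    mul_ne_zero h.δ_ne (pow_ne_zero _ (neg_ne_zero.mpr one_ne_zero))
  obtain ⟨y, hy⟩ := mono_trick T h.N_pos h.hb hcT hc0 hV0 hW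
  have hWmem : W ∈ T ⊔ IntermediateField.adjoin F {y} := by
    rw [← hy]
    exact (le_sup_right : IntermediateField.adjoin F {W, V} ≤ _)
      (IntermediateField.subset_adjoin F _ (Set.mem_insert _ _))
  have hVmem : V ∈ T ⊔ IntermediateField.adjoin F {y} := by
    rw [← hy]
    exact (le_sup_right : IntermediateField.adjoin F {W, V} ≤ _)
      (IntermediateField.subset_adjoin F _ (Set.mem_insert_of_mem _ rfl))
  have hle : ∀ T' : IntermediateField F Ω, Set.range t ⊆ (T' : Set Ω) → y ∈ T' →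
      T ⊔ IntermediateField.adjoin F {y} ≤ T' := by
    intro T' h1 h2
    refine sup_le ?_ ?_
    · rw [hT]
      exact IntermediateField.adjoin_le_iff.mpr h1
    · exact IntermediateField.adjoin_le_iff.mpr (Set.singleton_subset_iff.mpr h2)
  refine ⟨y, ?_, ?_, ?_⟩
  · intro T' h1 h2
    exact hle T' h1 h2 hVmem
  · intro T' h1 h2 h3 h4
    have hgT : g ∈ T' := by
      have h5 : IntermediateField.adjoin F {Z₁, Z₂} ≤ T' := by
        refine IntermediateField.adjoin_le_iff.mpr ?_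
        rintro x (rfl | rfl)
        · exact h3
        · exact h4
      exact h5 hg
    have hw : w = W * g := by
      rw [hWdef, div_mul_cancel₀ _ hg0]
    rw [hw]
    exact mul_mem (hle T' h1 h2 hWmem) hgT
  · rw [← hT]
    intro hVa
    have hcAlg : IsAlgebraic T (δ * (-1) ^ (e 1 + e 3)) :=
      isAlgebraic_algebraMap (⟨_, hcT⟩ : T)
    have hWa : IsAlgebraic T W := by
      refine IsAlgebraic.of_pow h.N_pos ?_
      rw [hW]
      exact hcAlg.mul (hVa.pow _)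
    have h6 : T ⊔ IntermediateField.adjoin F {W, V} ≤
        (algebraicClosure T Ω).restrictScalars F := by
      refine sup_le ?_ ?_
      · intro x hx
        change x ∈ algebraicClosure T Ω
        exact mem_algebraicClosure_iff.mpr (isAlgebraic_algebraMap (⟨x, hx⟩ : T))
      · refine IntermediateField.adjoin_le_iff.mpr ?_
        rintro x (rfl | rfl)
        · exact mem_algebraicClosure_iff.mpr hWa
        · exact mem_algebraicClosure_iff.mpr hVa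
    have h7 : y ∈ T ⊔ IntermediateField.adjoin F {W, V} := by
      rw [hy]
      exact (le_sup_right : IntermediateField.adjoin F {y} ≤ _)
        (IntermediateField.subset_adjoin F _ rfl)
    exact mem_algebraicClosure_iff.mp (h6 h7)

/-- The subfield generated by `t`, `y`, `B`. -/
def sub4 (F : Type u) {Ω : Type u} [Field F] [Field Ω] [Algebra F Ω] {r : ℕ} (t : Fin r → Ω)
    (y B : Ω) : IntermediateField F Ω :=
  IntermediateField.adjoin F (Set.range t ∪ {y, B})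

end UnrG
end

section

/-!
# Four terms: the subfields
-/

namespace UnrG

universe u v w

open Polynomial Finset

variable {p N k₁ k₂ : ℕ} {F Ω : Type u} [Field F] [Field Ω] [Algebra F Ω] {r : ℕ} {t : Fin r → Ω}
  {X : Fin 4 → Ω} {w δ Z₁ Z₂ Y₁ Y₂ y : Ω} {e : Fin 4 → ℕ}

namespace Pair4

/-- Hint: `Y₂ ^ Q - Y₂ = -v (Y₁ ^ Q - Y₁)` with `v = X 1 * Z₂ / Z₁` (`rel`). -/
lemma as_mem [Fact p.Prime] [CharP Ω p]
    (h : Pair4 p N k₁ k₂ (F := F) t X w δ Z₁ Z₂ Y₁ Y₂ e)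
    (hy : Gen4 F t (X 1 * Z₂ / Z₁) w Z₁ Z₂ y) :
    Y₁ ^ p ^ (k₁ * k₂) - Y₁ ∈ sub4 F t y (Y₁ ^ p ^ (k₁ * k₂) - Y₁) ∧
      Y₂ ^ p ^ (k₁ * k₂) - Y₂ ∈ sub4 F t y (Y₁ ^ p ^ (k₁ * k₂) - Y₁) := by
  have hB : Y₁ ^ p ^ (k₁ * k₂) - Y₁ ∈ sub4 F t y (Y₁ ^ p ^ (k₁ * k₂) - Y₁) :=
    IntermediateField.subset_adjoin F _ (Or.inr (Or.inr rfl))
  have ht : Set.range t ⊆ (sub4 F t y (Y₁ ^ p ^ (k₁ * k₂) - Y₁) : Set Ω) := fun z hz =>
    IntermediateField.subset_adjoin F _ (Or.inl hz)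
  have hym : y ∈ sub4 F t y (Y₁ ^ p ^ (k₁ * k₂) - Y₁) :=
    IntermediateField.subset_adjoin F _ (Or.inr (Or.inl rfl))
  have hv := hy.v_mem _ ht hym
  refine ⟨hB, ?_⟩
  have hZ₁ := h.Z_ne.1
  have hZ₂ := h.Z_ne.2
  have h1 := h.rel
  have h2 : Y₂ ^ p ^ (k₁ * k₂) - Y₂ = -(X 1 * Z₂ / Z₁) * (Y₁ ^ p ^ (k₁ * k₂) - Y₁) := by
    field_simp at h1 ⊢
    linear_combination -h1
  rw [h2]
  exact mul_mem (neg_mem hv) hB

/-- Hint: the field generated by `T`, `Y₁`, `Y₂` contains `Z₁`, `Z₂` (`Z₁_eq`, `Z₂_eq`), `v` (`v_mem`), so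
`X 1 = v Z₁ / Z₂`, `X 0`, `X 2` (`X_zero`, `X_two`), `X 3 = 1`, `w` (`w_mem`), `t`; now `gen`. -/
lemma adjoin_Y [Fact p.Prime] (h : Pair4 p N k₁ k₂ (F := F) t X w δ Z₁ Z₂ Y₁ Y₂ e)
    (hy : Gen4 F t (X 1 * Z₂ / Z₁) w Z₁ Z₂ y) :
    IntermediateField.adjoin (sub4 F t y (Y₁ ^ p ^ (k₁ * k₂) - Y₁)) {Y₁, Y₂} = ⊤ := by
  obtain ⟨T, hT⟩ : ∃ T, T = sub4 F t y (Y₁ ^ p ^ (k₁ * k₂) - Y₁) := ⟨_, rfl⟩
  rw [← hT]
  obtain ⟨T', hT'⟩ : ∃ T' : IntermediateField F Ω,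
      T' = (IntermediateField.adjoin T {Y₁, Y₂}).restrictScalars F := ⟨_, rfl⟩
  have hle : ∀ z ∈ T, z ∈ T' := by
    intro z hz
    rw [hT', IntermediateField.mem_restrictScalars]
    exact (IntermediateField.adjoin T {Y₁, Y₂}).algebraMap_mem ⟨z, hz⟩
  have hY₁ : Y₁ ∈ T' := by
    rw [hT', IntermediateField.mem_restrictScalars]
    exact IntermediateField.subset_adjoin T _ (Or.inl rfl)
  have hY₂ : Y₂ ∈ T' := by
    rw [hT', IntermediateField.mem_restrictScalars]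
    exact IntermediateField.subset_adjoin T _ (Or.inr rfl)
  have ht : Set.range t ⊆ (T' : Set Ω) := fun z hz => hle z (by
    rw [hT]
    exact IntermediateField.subset_adjoin F _ (Or.inl hz))
  have hym : y ∈ T' := hle y (by
    rw [hT]
    exact IntermediateField.subset_adjoin F _ (Or.inr (Or.inl rfl)))
  have hv := hy.v_mem _ ht hym
  have hZ₁ : Z₁ ∈ T' := by
    rw [h.Z₁_eq]
    exact sum_mem fun i _ => pow_mem hY₁ _
  have hZ₂ : Z₂ ∈ T' := by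
    rw [h.Z₂_eq]
    exact sum_mem fun i _ => pow_mem hY₂ _
  have hw := hy.w_mem _ ht hym hZ₁ hZ₂
  obtain ⟨hz₁, hz₂⟩ := h.Z_ne
  have hX₁ : X 1 ∈ T' := by
    have h1 : X 1 = (X 1 * Z₂ / Z₁) * Z₁ / Z₂ := by field_simp
    rw [h1]
    exact div_mem (mul_mem hv hZ₁) hZ₂
  have hX₀ : X 0 ∈ T' := by
    rw [h.X_zero.1]
    exact mul_mem (div_mem (neg_mem hX₁) hZ₁) (pow_mem hZ₁ _)
  have hX₂ : X 2 ∈ T' := by
    rw [h.X_two.1]
    exact mul_mem (div_mem (neg_mem (one_mem _)) hZ₂) (pow_mem hZ₂ _)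
  have hX₃ : X 3 ∈ T' := by
    rw [h.X_last]
    exact one_mem _
  have hX : ∀ i, X i ∈ T' := by
    intro i
    fin_cases i
    · exact hX₀
    · exact hX₁
    · exact hX₂
    · exact hX₃
  have htop : (⊤ : IntermediateField F Ω) ≤ T' := by
    rw [← h.gen, IntermediateField.adjoin_le_iff]
    rintro z ((⟨i, rfl⟩ | ⟨i, rfl⟩) | hz)
    · exact ht ⟨i, rfl⟩
    · exact hX i
    · rcases hz with rfl | rfl | hz
      · exact hw
      · exact hY₁
      · rw [Set.mem_singleton_iff] at hz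
        rw [hz]
        exact hY₂
  rw [eq_top_iff]
  intro z _
  have h1 := htop (IntermediateField.mem_top (x := z))
  rw [hT', IntermediateField.mem_restrictScalars] at h1
  exact h1

/-- The line `b₂ = 0`. Hint: `Y₁ ^ Q - Y₁ = -(Y₂ ^ Q - Y₂) / v`. -/
lemma sup_Y₂ [Fact p.Prime] [CharP Ω p]
    (h : Pair4 p N k₁ k₂ (F := F) t X w δ Z₁ Z₂ Y₁ Y₂ e)
    (hy : Gen4 F t (X 1 * Z₂ / Z₁) w Z₁ Z₂ y) :
    sub4 F t y (Y₁ ^ p ^ (k₁ * k₂) - Y₁) ⊔ IntermediateField.adjoin F {Y₂} = sub4 F t y Y₂ := by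
  obtain ⟨hz₁, hz₂⟩ := h.Z_ne
  have hv0 := h.v_ne
  have hX1 := h.X_ne 1
  apply le_antisymm
  · have ht : Set.range t ⊆ (sub4 F t y Y₂ : Set Ω) := fun z hz =>
      IntermediateField.subset_adjoin F _ (Or.inl hz)
    have hym : y ∈ sub4 F t y Y₂ :=
      IntermediateField.subset_adjoin F _ (Or.inr (Or.inl rfl))
    have hYm : Y₂ ∈ sub4 F t y Y₂ :=
      IntermediateField.subset_adjoin F _ (Or.inr (Or.inr rfl))
    have hv := hy.v_mem _ ht hym
    refine sup_le ?_ ?_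
    · unfold sub4
      rw [IntermediateField.adjoin_le_iff]
      rintro z (hz | hz | hz)
      · exact ht hz
      · rw [hz]
        exact hym
      · rw [Set.mem_singleton_iff] at hz
        have h1 := h.rel
        have h2 : Y₁ ^ p ^ (k₁ * k₂) - Y₁ =
            -(Y₂ ^ p ^ (k₁ * k₂) - Y₂) / (X 1 * Z₂ / Z₁) := by
          rw [eq_div_iff hv0]
          field_simp at h1 ⊢
          linear_combination -h1
        rw [hz, h2]
        exact div_mem (neg_mem (sub_mem (pow_mem hYm _) hYm)) hv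
    · rw [IntermediateField.adjoin_simple_le_iff]
      exact hYm
  · unfold sub4
    rw [IntermediateField.adjoin_le_iff]
    have hle := (le_sup_left : sub4 F t y (Y₁ ^ p ^ (k₁ * k₂) - Y₁) ≤
      sub4 F t y (Y₁ ^ p ^ (k₁ * k₂) - Y₁) ⊔ IntermediateField.adjoin F {Y₂})
    rintro z (hz | hz | hz)
    · exact hle (IntermediateField.subset_adjoin F _ (Or.inl hz))
    · rw [hz]
      exact hle (IntermediateField.subset_adjoin F _ (Or.inr (Or.inl rfl)))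
    · rw [Set.mem_singleton_iff] at hz
      rw [hz]
      exact (le_sup_right : IntermediateField.adjoin F {Y₂} ≤
        sub4 F t y (Y₁ ^ p ^ (k₁ * k₂) - Y₁) ⊔ IntermediateField.adjoin F {Y₂})
        (IntermediateField.mem_adjoin_simple_self F Y₂)

/-- The other lines. Hint: with `Y = Y₁ + c Y₂`, `c ^ Q = c`:
`Y ^ Q - Y = (Y₁ ^ Q - Y₁) + c (Y₂ ^ Q - Y₂) = (Y₁ ^ Q - Y₁) (1 - c v)`, and `1 - c v ≠ 0`. -/
lemma sup_Y [Fact p.Prime] [CharP Ω p]
    (h : Pair4 p N k₁ k₂ (F := F) t X w δ Z₁ Z₂ Y₁ Y₂ e)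
    (hy : Gen4 F t (X 1 * Z₂ / Z₁) w Z₁ Z₂ y) {c : F} (hc : c ^ p ^ (k₁ * k₂) = c)
    (hc' : algebraMap F Ω c * (X 1 * Z₂ / Z₁) ≠ 1) :
    sub4 F t y (Y₁ ^ p ^ (k₁ * k₂) - Y₁) ⊔
        IntermediateField.adjoin F {Y₁ + algebraMap F Ω c * Y₂} =
      sub4 F t y (Y₁ + algebraMap F Ω c * Y₂) := by
  obtain ⟨hz₁, hz₂⟩ := h.Z_ne
  have hX1 := h.X_ne 1
  obtain ⟨Y, hY⟩ : ∃ Y, Y = Y₁ + algebraMap F Ω c * Y₂ := ⟨_, rfl⟩
  rw [← hY]
  have hv1 : 1 - algebraMap F Ω c * (X 1 * Z₂ / Z₁) ≠ 0 := sub_ne_zero.2 (Ne.symm hc')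
  apply le_antisymm
  · have ht : Set.range t ⊆ (sub4 F t y Y : Set Ω) := fun z hz =>
      IntermediateField.subset_adjoin F _ (Or.inl hz)
    have hym : y ∈ sub4 F t y Y :=
      IntermediateField.subset_adjoin F _ (Or.inr (Or.inl rfl))
    have hYm : Y ∈ sub4 F t y Y :=
      IntermediateField.subset_adjoin F _ (Or.inr (Or.inr rfl))
    have hv := hy.v_mem _ ht hym
    refine sup_le ?_ ?_
    · unfold sub4
      rw [IntermediateField.adjoin_le_iff]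
      rintro z (hz | hz | hz)
      · exact ht hz
      · rw [hz]
        exact hym
      · rw [Set.mem_singleton_iff] at hz
        have h1 := h.rel
        have h2 : Y₂ ^ p ^ (k₁ * k₂) - Y₂ =
            -(X 1 * Z₂ / Z₁) * (Y₁ ^ p ^ (k₁ * k₂) - Y₁) := by
          field_simp at h1 ⊢
          linear_combination -h1
        have h3 : Y ^ p ^ (k₁ * k₂) = Y₁ ^ p ^ (k₁ * k₂) +
            algebraMap F Ω c * Y₂ ^ p ^ (k₁ * k₂) := by
          rw [hY, add_pow_char_pow, mul_pow, ← map_pow, hc]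
        have h4 : Y₁ ^ p ^ (k₁ * k₂) - Y₁ =
            (Y ^ p ^ (k₁ * k₂) - Y) / (1 - algebraMap F Ω c * (X 1 * Z₂ / Z₁)) := by
          rw [eq_div_iff hv1, h3, hY]
          linear_combination -(algebraMap F Ω c) * h2
        rw [hz, h4]
        exact div_mem (sub_mem (pow_mem hYm _) hYm) (sub_mem (one_mem _)
          (mul_mem ((sub4 F t y Y).algebraMap_mem c) hv))
    · rw [IntermediateField.adjoin_simple_le_iff]
      exact hYm
  · unfold sub4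
    rw [IntermediateField.adjoin_le_iff]
    have hle := (le_sup_left : sub4 F t y (Y₁ ^ p ^ (k₁ * k₂) - Y₁) ≤
      sub4 F t y (Y₁ ^ p ^ (k₁ * k₂) - Y₁) ⊔ IntermediateField.adjoin F {Y})
    rintro z (hz | hz | hz)
    · exact hle (IntermediateField.subset_adjoin F _ (Or.inl hz))
    · rw [hz]
      exact hle (IntermediateField.subset_adjoin F _ (Or.inr (Or.inl rfl)))
    · rw [Set.mem_singleton_iff] at hz
      rw [hz]
      exact (le_sup_right : IntermediateField.adjoin F {Y} ≤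
        sub4 F t y (Y₁ ^ p ^ (k₁ * k₂) - Y₁) ⊔ IntermediateField.adjoin F {Y})
        (IntermediateField.mem_adjoin_simple_self F Y)

end Pair4

end UnrG
end

section

/-!
# Fields of constants which contain a given finite field: norms and traces
-/

namespace UnrG

universe u v

open Polynomial Finset

variable {F : Type u} [Field F] {p k : ℕ}

/-- Norms from the field with `Q ^ 2` elements to the field with `Q = p ^ κ` elements. -/
theorem FixSp.exists_norm (hp : p.Prime) {κ : ℕ} (hκ : 0 < κ) (hF : FixSp F p (2 * κ)) {c : F}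
    (hc : c ^ p ^ κ = c) (hc0 : c ≠ 0) : ∃ α : F, α ^ (p ^ κ + 1) = c := by
  obtain ⟨ω, hω⟩ := hF.exists_root
  have hQ1 : 1 < p ^ κ := Nat.one_lt_pow hκ.ne' hp.one_lt
  have h1 : c ^ (p ^ κ - 1) = 1 := by
    have h2 : c * c ^ (p ^ κ - 1) = c * 1 := by
      rw [← pow_succ', Nat.sub_add_cancel hQ1.le, hc, mul_one]
    exact mul_left_cancel₀ hc0 h2
  have hfac : p ^ (2 * κ) - 1 = (p ^ κ + 1) * (p ^ κ - 1) := by
    have h2 : p ^ (2 * κ) = (p ^ κ) ^ 2 := by rw [← pow_mul, mul_comm]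
    rw [h2, ← one_pow 2, Nat.sq_sub_sq, one_pow]
  have hpos : 0 < p ^ (2 * κ) - 1 := by
    rw [hfac]
    exact Nat.mul_pos (Nat.succ_pos _) (by omega)
  have hω' : IsPrimitiveRoot (ω ^ (p ^ κ + 1)) (p ^ κ - 1) := hω.pow hpos hfac
  have : NeZero (p ^ κ - 1) := ⟨by omega⟩
  obtain ⟨i, _, hi⟩ := hω'.eq_pow_of_pow_eq_one h1
  exact ⟨ω ^ i, by rw [← pow_mul, mul_comm, pow_mul, hi]⟩

/-- An element of trace one. -/
theorem FixSp.exists_trace (hp : p.Prime) [CharP F p] {κ : ℕ} (hκ : 0 < κ)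
    (hF : FixSp F p (2 * κ)) : ∃ b : F, b ^ p ^ κ + b = 1 := by
  have : Fact p.Prime := ⟨hp⟩
  have hQ1 : 1 < p ^ κ := Nat.one_lt_pow hκ.ne' hp.one_lt
  obtain ⟨θ, hθ⟩ := hF.exists_isPrimitiveRoot hp (by omega) (N := p ^ κ + 1) (by
    have h1 : p ^ (2 * κ) = (p ^ κ) ^ 2 := by rw [← pow_mul, mul_comm]
    rw [h1, ← one_pow 2, Nat.sq_sub_sq, one_pow]
    exact dvd_mul_right _ _)
  have hθ1 : θ ≠ 1 := hθ.ne_one (by omega)
  have hθp : θ ^ (p ^ κ) * θ = 1 := by rw [← pow_succ]; exact hθ.pow_eq_one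
  have hθ0 : θ ≠ 0 := right_ne_zero_of_mul_eq_one hθp
  have h1 : (1 : F) - θ ≠ 0 := sub_ne_zero.2 (Ne.symm hθ1)
  have hθi : θ ^ (p ^ κ) = θ⁻¹ := eq_inv_of_mul_eq_one_left hθp
  refine ⟨(1 - θ)⁻¹, ?_⟩
  have hc : ((1 - θ)⁻¹ : F) ^ (p ^ κ) = -(θ * (1 - θ)⁻¹) := by
    rw [inv_pow, sub_pow_char_pow, one_pow, hθi]
    have h3 : (1 : F) - θ⁻¹ = -((1 - θ) * θ⁻¹) := by
      field_simp
      ring
    rw [h3]
    field_simp
  rw [hc]
  field_simp
  ring

/-- An element with `θ ^ (Q - 1) = -1`. -/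
theorem FixSp.exists_anti (hp : p.Prime) [CharP F p] {κ : ℕ} (hκ : 0 < κ)
    (hF : FixSp F p (2 * κ)) : ∃ θ : F, θ ^ (p ^ κ - 1) = -1 := by
  obtain ⟨ω, hω⟩ := hF.exists_root
  have hQ1 : 1 < p ^ κ := Nat.one_lt_pow hκ.ne' hp.one_lt
  rcases hp.eq_two_or_odd' with rfl | hodd
  · refine ⟨1, ?_⟩
    rw [one_pow, CharTwo.neg_eq]
  · have hQo : Odd (p ^ κ) := hodd.pow
    obtain ⟨l, hl⟩ := hQo
    have h1 : p ^ (2 * κ) - 1 = 2 * ((l + 1) * (p ^ κ - 1)) := by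
      have h2 : p ^ (2 * κ) = p ^ κ * p ^ κ := by rw [two_mul, pow_add]
      rw [h2, hl, Nat.add_sub_cancel]
      have h3 : (2 * l + 1) * (2 * l + 1) = 2 * ((l + 1) * (2 * l)) + 1 := by ring
      rw [h3, Nat.add_sub_cancel]
    have hl0 : 0 < l := by omega
    have h2 : 0 < p ^ (2 * κ) - 1 := by
      rw [h1]
      exact Nat.mul_pos two_pos (Nat.mul_pos (Nat.succ_pos _) (by omega))
    have h3 : IsPrimitiveRoot (ω ^ ((l + 1) * (p ^ κ - 1))) 2 :=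
      hω.pow h2 (by rw [h1, mul_comm])
    refine ⟨ω ^ (l + 1), ?_⟩
    rw [← pow_mul]
    exact h3.eq_neg_one_of_two_right

/-- `-1` is an `N`-th power. -/
class NegPow (F : Type u) [Field F] (N : ℕ) : Prop where
  exists_pow : ∃ z : F, z ^ N = -1

/-- `-1` is an `N`-th power if `N` is a prime number and `F` contains the field with `p ^ 2`
elements. -/
theorem NegPow.of_fixSp (hp : p.Prime) [CharP F p] {κ : ℕ} (hκ : 0 < κ)
    (hF : FixSp F p (2 * κ)) {N : ℕ} (hN : N.Prime) : NegPow F N := by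
  rcases hN.eq_two_or_odd' with rfl | hNo
  · rcases hp.eq_two_or_odd' with rfl | hodd
    · exact ⟨1, by rw [one_pow, CharTwo.neg_eq]⟩
    · obtain ⟨ε, hε⟩ := hF.exists_pow_eq_neg_one hp hκ
      obtain ⟨l, hl⟩ : Even (p ^ κ + 1) := (hodd.pow).add_one
      refine ⟨ε ^ l, ?_⟩
      rw [← pow_mul, mul_two, ← hl, hε]
  · exact ⟨-1, hNo.neg_one_pow⟩

/-- `F` contains the fields with `p ^ k` elements, `k ≤ n`. -/
class FixLe (F : Type u) [Field F] (p n : ℕ) : Prop where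
  fix : ∀ k, 0 < k → k ≤ n → FixSp F p k

theorem FixLe.of_fixSp (hp : p.Prime) {n S : ℕ} (hS : 0 < S) (h : n.factorial ∣ S)
    (hF : FixSp F p S) : FixLe F p n :=
  ⟨fun _ hk hkn => FixSp.of_dvd F hp hS ((Nat.dvd_factorial hk hkn).trans h) hF⟩

theorem FixLe.negPow (hp : p.Prime) [CharP F p] {n : ℕ} (hn : 2 ≤ n) (h : FixLe F p n) {N : ℕ}
    (hN : N.Prime) : NegPow F N :=
  NegPow.of_fixSp hp (κ := 1) one_pos (h.fix 2 two_pos hn) hN

end UnrG
end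

section

/-!
# Balanced multisets: removing pairs
-/

namespace UnrG

variable {p e N : ℕ}

/-- Hint: `cnt_cons`; by `cnt1_neg` and `cnt1_pow_mul` the counting functions of `x` and of
`y = -p ^ k x` are exchanged by `a ↦ -a`. -/
lemma Bal.of_pair (he : 0 < e) (hpe : (p : ZMod N) ^ e = 1) {S : Multiset (ZMod N)} {x : ZMod N}
    {k : ℕ} (h : Bal p e (x ::ₘ (-(p : ZMod N) ^ k * x) ::ₘ S)) : Bal p e S := by
  intro a
  have h1 := h a
  rw [cnt_cons, cnt_cons, cnt_cons, cnt_cons] at h1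
  have h2 : ∀ b : ZMod N, cnt1 p e (-(p : ZMod N) ^ k * x) b = cnt1 p e x (-b) := by
    intro b
    rw [neg_mul, cnt1_neg, cnt1_pow_mul he hpe]
  rw [h2, h2, neg_neg] at h1
  omega

/-- Hint: `cnt1_self_pos` gives `0 < cnt S x = cnt S (-x)`; `exists_of_cnt_pos`, `partner_of_eq`
(with `i = 0`); `y ≠ x` because `-1` is not a power of `p` and `x` is a unit times ... (`N` is prime and
`x ≠ 0`), so `y ∈ S.erase x` (`Multiset.mem_erase_of_ne`). -/
lemma Bal.exists_partner [Fact N.Prime] (he : 0 < e) (hpe : (p : ZMod N) ^ e = 1)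
    (hneg : ∀ j : ℕ, (p : ZMod N) ^ j ≠ -1) {S : Multiset (ZMod N)} (h : Bal p e S)
    {x : ZMod N} (hx : x ∈ S) (hx0 : x ≠ 0) :
    ∃ k < e, -(p : ZMod N) ^ k * x ∈ S.erase x := by
  have h1 : 0 < cnt p e S x := by
    obtain ⟨T, hT⟩ := Multiset.exists_cons_of_mem hx
    rw [hT, cnt_cons]
    have := cnt1_self_pos (p := p) he x
    omega
  have h2 : 0 < cnt p e S (-x) := by
    rw [h x]
    exact h1
  obtain ⟨y, hy, j, hj, hyj⟩ := exists_of_cnt_pos h2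
  obtain ⟨k, hk, hyk⟩ := partner_of_eq he hpe (i := 0) he hj
    (by rw [pow_zero, one_mul] : (p : ZMod N) ^ 0 * x = x) hyj
  refine ⟨k, hk, ?_⟩
  rw [← hyk]
  refine (Multiset.mem_erase_of_ne ?_).mpr hy
  intro hyx
  rw [hyx] at hyk
  have h3 : (1 + (p : ZMod N) ^ k) * x = 0 := by linear_combination hyk
  rcases mul_eq_zero.mp h3 with h4 | h4
  · exact hneg k (eq_neg_of_add_eq_zero_right h4)
  · exact hx0 h4

/-- Hint: strong induction on the cardinality, `Bal.exists_partner` and `Bal.of_pair` (with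
`Multiset.cons_erase`). -/
theorem Bal.even_card [Fact N.Prime] (he : 0 < e) (hpe : (p : ZMod N) ^ e = 1)
    (hneg : ∀ j : ℕ, (p : ZMod N) ^ j ≠ -1) {S : Multiset (ZMod N)} (h : Bal p e S)
    (h0 : ∀ x ∈ S, x ≠ 0) : Even (Multiset.card S) := by
  induction hn : Multiset.card S using Nat.strong_induction_on generalizing S with
  | _ n ih =>
    rcases Multiset.empty_or_exists_mem S with hS | ⟨x, hx⟩
    · rw [hS, Multiset.card_zero] at hn
      rw [← hn]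
      exact Even.zero
    · obtain ⟨k, _, hk⟩ := h.exists_partner he hpe hneg hx (h0 x hx)
      obtain ⟨T, hT⟩ := Multiset.exists_cons_of_mem hk
      have hS : S = x ::ₘ (-(p : ZMod N) ^ k * x) ::ₘ T := by
        rw [← hT, Multiset.cons_erase hx]
      have hc : Multiset.card S = Multiset.card T + 2 := by
        rw [hS, Multiset.card_cons, Multiset.card_cons]
      have hB : Bal p e T := Bal.of_pair he hpe (hS ▸ h)
      have hm : ∀ y ∈ T, y ≠ 0 := by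
        intro y hy
        refine h0 y ?_
        rw [hS]
        exact Multiset.mem_cons_of_mem (Multiset.mem_cons_of_mem hy)
      have hE : Even (Multiset.card T) := ih _ (by omega) hB hm rfl
      rw [← hn, hc]
      exact hE.add (by decide)

/-- Proof: if `R` is not balanced there is `a` with `cnt R (-a) < cnt R a` (exchange `a` and `-a`
otherwise). Then `cnt S (-a) > 0` since `cnt (R + S) (-a) = cnt (R + S) a ≥ cnt R a`, and
`cnt R a > 0`; `exists_of_cnt_pos`, `partner_of_eq`. -/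
theorem Bal.cross (he : 0 < e) (hpe : (p : ZMod N) ^ e = 1) {R S : Multiset (ZMod N)}
    (h : Bal p e (R + S)) :
    Bal p e R ∨ ∃ x ∈ R, ∃ y ∈ S, ∃ k < e, y = -(p : ZMod N) ^ k * x := by
  by_cases hR : Bal p e R
  · exact Or.inl hR
  · right
    have h1 : ∃ a, cnt p e R (-a) < cnt p e R a := by
      unfold Bal at hR
      push Not at hR
      obtain ⟨a, ha⟩ := hR
      rcases lt_or_gt_of_ne ha with h2 | h2
      · exact ⟨a, h2⟩
      · exact ⟨-a, by rw [neg_neg]; exact h2⟩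
    obtain ⟨a, ha⟩ := h1
    have h2 := h a
    rw [cnt_add, cnt_add] at h2
    have h3 : 0 < cnt p e S (-a) := by omega
    have h4 : 0 < cnt p e R a := by omega
    obtain ⟨x, hx, i, hi, hxi⟩ := exists_of_cnt_pos h4
    obtain ⟨y, hy, j, hj, hyj⟩ := exists_of_cnt_pos h3
    obtain ⟨k, hk, hyk⟩ := partner_of_eq he hpe hi hj hxi hyj
    exact ⟨x, hx, y, hy, k, hk, hyk⟩

/-- Hint: `cnt_cons`, `cnt1_pow_mul`. -/
lemma Bal.twist (he : 0 < e) (hpe : (p : ZMod N) ^ e = 1) (k : ℕ) {S T : Multiset (ZMod N)} :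
    Bal p e (S + T.map fun x => (p : ZMod N) ^ k * x) ↔ Bal p e (S + T) := by
  have h1 : ∀ a, cnt p e (T.map fun x => (p : ZMod N) ^ k * x) a = cnt p e T a := by
    intro a
    unfold cnt
    rw [Multiset.map_map]
    congr 1
    refine Multiset.map_congr rfl fun x _ => ?_
    exact cnt1_pow_mul he hpe k x a
  unfold Bal
  simp only [cnt_add, h1]

end UnrG
end

section

/-!
# Two pairs in balanced families
-/

namespace UnrG

variable {p e N : ℕ}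

private lemma M3_step [Fact N.Prime] (he : 0 < e) (hpe : (p : ZMod N) ^ e = 1)
    (hneg : ∀ j : ℕ, (p : ZMod N) ^ j ≠ -1) {s : ℕ} {g : Fin s → ZMod N} (T : Finset (Fin s))
    (h : Bal p e (Multiset.map g T.val)) (h0 : ∀ i, g i ≠ 0) {i : Fin s} (hi : i ∈ T) :
    ∃ j ∈ T.erase i, (∃ k, 0 < k ∧ k ≤ 2 * e ∧ g j = -(p : ZMod N) ^ k * g i) ∧
      Bal p e (Multiset.map g ((T.erase i).erase j).val) := by
  have hT : T.val = i ::ₘ (T.erase i).val := by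
    rw [Finset.erase_val, Multiset.cons_erase (Finset.mem_val.mpr hi)]
  have hS : Multiset.map g T.val = g i ::ₘ Multiset.map g (T.erase i).val := by
    rw [hT, Multiset.map_cons]
  have h1 : g i ∈ Multiset.map g T.val := by
    rw [hS]
    exact Multiset.mem_cons_self _ _
  obtain ⟨k, hk, hk2⟩ := h.exists_partner he hpe hneg h1 (h0 i)
  rw [hS, Multiset.erase_cons_head, Multiset.mem_map] at hk2
  obtain ⟨j, hj, hjk⟩ := hk2
  have hj' : j ∈ T.erase i := Finset.mem_val.mp hj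
  have hT2 : (T.erase i).val = j ::ₘ ((T.erase i).erase j).val := by
    rw [Finset.erase_val (T.erase i) j, Multiset.cons_erase hj]
  refine ⟨j, hj', ⟨k + e, by omega, by omega, ?_⟩, ?_⟩
  · rw [hjk, pow_add, hpe, mul_one]
  · rw [hS, hT2, Multiset.map_cons, hjk] at h
    exact Bal.of_pair he hpe h

/-- Proof: take `i₀ = 0`; by `Bal.exists_partner` there is `i₁ ≠ i₀` with `g i₁ = -p ^ k₁ * g i₀`; the
remaining multiset is balanced (`Bal.of_pair`); take `i₂` in the remaining set and `i₃` similarly.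
(The multiset `map g univ.val`, `Multiset.map_erase`-type lemmas, or argue with
`Multiset.map g (univ.erase i₀).val`.) The exponents are made positive by adding `e`. -/
theorem exists_two_pairs [Fact N.Prime] (he : 0 < e) (hpe : (p : ZMod N) ^ e = 1)
    (hneg : ∀ j : ℕ, (p : ZMod N) ^ j ≠ -1) {s : ℕ} (hs : 4 ≤ s) {g : Fin s → ZMod N}
    (h : Bal p e (Multiset.map g Finset.univ.val)) (h0 : ∀ i, g i ≠ 0) :
    ∃ i₀ i₁ i₂ i₃ : Fin s, [i₀, i₁, i₂, i₃].Nodup ∧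
      (∃ k, 0 < k ∧ k ≤ 2 * e ∧ g i₁ = -(p : ZMod N) ^ k * g i₀) ∧
      ∃ k, 0 < k ∧ k ≤ 2 * e ∧ g i₃ = -(p : ZMod N) ^ k * g i₂ := by
  obtain ⟨i₁, hi₁, hk₁, hB⟩ := M3_step he hpe hneg Finset.univ h h0
    (Finset.mem_univ (⟨0, by omega⟩ : Fin s))
  obtain ⟨i₀, hi₀⟩ : ∃ i : Fin s, i = ⟨0, by omega⟩ := ⟨_, rfl⟩
  rw [← hi₀] at hi₁ hk₁ hB
  have hc : 0 < (((Finset.univ : Finset (Fin s)).erase i₀).erase i₁).card := by
    rw [Finset.card_erase_of_mem hi₁, Finset.card_erase_of_mem (Finset.mem_univ _),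
      Finset.card_univ, Fintype.card_fin]
    omega
  obtain ⟨i₂, hi₂⟩ := Finset.card_pos.mp hc
  obtain ⟨i₃, hi₃, hk₃, _⟩ := M3_step he hpe hneg _ hB h0 hi₂
  refine ⟨i₀, i₁, i₂, i₃, ?_, hk₁, hk₃⟩
  rw [Finset.mem_erase] at hi₁ hi₂ hi₃
  have h2 := Finset.mem_erase.mp hi₂.2
  have h3 := Finset.mem_erase.mp hi₃.2
  have h4 := Finset.mem_erase.mp h3.2
  simp only [List.nodup_cons, List.mem_cons, List.not_mem_nil, or_false, not_or,
    List.nodup_nil, and_true, not_false_eq_true]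
  exact ⟨⟨fun h => hi₁.1 h.symm, fun h => h2.1 h.symm, fun h => h4.1 h.symm⟩,
    ⟨fun h => hi₂.1 h.symm, fun h => h3.1 h.symm⟩, fun h => hi₃.1 h.symm⟩

end UnrG
end

section

/-!
# Normalised coordinates on the monomial subfield
-/

namespace UnrG

universe u v w

open Polynomial Finset
open scoped Classical

variable {m : ℕ} {𝔽 : Type w} [Field 𝔽] [Fintype 𝔽] (b : Base 𝔽)

variable {F L : Type u} [Field F] [Field L] [Algebra F L] {ι : 𝔽 →+* F} {r : ℕ}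
  {t : Fin r → L} {a x : Fin (4 + 2) → L}

private lemma D1_step (π : Equiv.Perm (Fin (4 + 2))) (j y : Fin (4 + 2)) :
    ∃ ρ : Equiv.Perm (Fin (4 + 2)), ρ j = y ∧ ∀ k, k ≠ j → π k ≠ y → ρ k = π k := by
  refine ⟨π * Equiv.swap j (π.symm y), ?_, ?_⟩
  · rw [Equiv.Perm.mul_apply, Equiv.swap_apply_left, Equiv.apply_symm_apply]
  · intro k hk hy
    rw [Equiv.Perm.mul_apply, Equiv.swap_apply_of_ne_of_ne hk]
    intro h
    apply hy
    rw [h, Equiv.apply_symm_apply]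

/-- Four distinct elements of `Fin 6` are the images of `0, 1, 2, 3` by a permutation. -/
lemma exists_perm {i₀ i₁ i₂ i₃ : Fin (4 + 2)} (h : [i₀, i₁, i₂, i₃].Nodup) :
    ∃ π : Equiv.Perm (Fin (4 + 2)), π 0 = i₀ ∧ π 1 = i₁ ∧ π 2 = i₂ ∧ π 3 = i₃ := by
  simp only [List.nodup_cons, List.mem_cons, List.not_mem_nil, or_false, not_or,
    not_false_eq_true, List.nodup_nil, and_true] at h
  obtain ⟨⟨h01, h02, h03⟩, ⟨h12, h13⟩, h23⟩ := h
  obtain ⟨π₀, p0, -⟩ := D1_step 1 0 i₀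
  obtain ⟨π₁, q1, q⟩ := D1_step π₀ 1 i₁
  have q0 : π₁ 0 = i₀ := by rw [q 0 (by decide) (by rw [p0]; exact h01), p0]
  obtain ⟨π₂, r2, r⟩ := D1_step π₁ 2 i₂
  have r0 : π₂ 0 = i₀ := by rw [r 0 (by decide) (by rw [q0]; exact h02), q0]
  have r1 : π₂ 1 = i₁ := by rw [r 1 (by decide) (by rw [q1]; exact h12), q1]
  obtain ⟨π₃, s3, s⟩ := D1_step π₂ 3 i₃
  refine ⟨π₃, ?_, ?_, ?_, s3⟩
  · rw [s 0 (by decide) (by rw [r0]; exact h03), r0]
  · rw [s 1 (by decide) (by rw [r1]; exact h13), r1]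
  · rw [s 2 (by decide) (by rw [r2]; exact h23), r2]

/-- The coordinates divided by the last one. -/
def nX {L : Type u} [Field L] (N : ℕ) (a x : Fin (4 + 2) → L) (π : Equiv.Perm (Fin (4 + 2)))
    (i : Fin (4 + 2)) : L :=
  (a (π i) * x (π i) ^ N) / (a (π 5) * x (π 5) ^ N)

/-- The coefficient. -/
def nδ {L : Type u} [Field L] {N : ℕ} (a : Fin (4 + 2) → L) (π : Equiv.Perm (Fin (4 + 2)))
    (α : Fin (4 + 2) → ZMod N) : L :=
  ∏ i, (a (π 5) / a (π i)) ^ (α (π i)).val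

/-- The normalised monomial. -/
def nw {L : Type u} [Field L] {N : ℕ} (x : Fin (4 + 2) → L) (π : Equiv.Perm (Fin (4 + 2)))
    (α : Fin (4 + 2) → ZMod N) : L :=
  wmon x α / (x (π 5) ^ N) ^ ((∑ i, (α i).val) / N)

end UnrG
end

section

/-!
# Twisted pairs: the identities in the extension field
-/

namespace UnrG

universe u v w

open Polynomial Finset
open scoped Classical

variable {p N k₁ k₂ : ℕ} {F Ω : Type u} [Field F] [Field Ω] [Algebra F Ω] {r : ℕ} {t : Fin r → Ω}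
  {X : Fin 6 → Ω} {w δ Z₁ Z₂ Y₁ Y₂ : Ω} {e : Fin 6 → ℕ}

namespace PairData

/-- Hint: `Z₁ ^ (p ^ k₁ - 1) = -X 0 / X 1 ≠ 0`, and `p ^ k₁ - 1 > 0`. -/
lemma Z₁_ne [Fact p.Prime] (h : PairData p N k₁ k₂ (F := F) t X w δ Z₁ Z₂ Y₁ Y₂ e) : Z₁ ≠ 0 := by
  intro h0
  have h1 := h.Z₁_pow
  have h2 : 1 < p ^ k₁ := Nat.one_lt_pow h.k₁_pos.ne' (Fact.out : p.Prime).one_lt
  rw [h0, zero_pow (by omega)] at h1
  exact div_ne_zero (neg_ne_zero.2 (h.X_ne 0)) (h.X_ne 1) h1.symm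

lemma Z₂_ne [Fact p.Prime] (h : PairData p N k₁ k₂ (F := F) t X w δ Z₁ Z₂ Y₁ Y₂ e) : Z₂ ≠ 0 := by
  intro h0
  have h1 := h.Z₂_pow
  have h2 : 1 < p ^ k₂ := Nat.one_lt_pow h.k₂_pos.ne' (Fact.out : p.Prime).one_lt
  rw [h0, zero_pow (by omega)] at h1
  exact div_ne_zero (neg_ne_zero.2 (h.X_ne 2)) (h.X_ne 3) h1.symm

private lemma G7_aux {q : ℕ} (hq : 0 < q) {A B Z : Ω} (hB : B ≠ 0) (hZ : Z ≠ 0)
    (h : Z ^ (q - 1) = -A / B) : A = (-B / Z) * Z ^ q ∧ B = -((-B / Z) * Z) := by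
  constructor
  · obtain ⟨q', rfl⟩ : ∃ q', q = q' + 1 := ⟨q - 1, by omega⟩
    rw [Nat.add_sub_cancel] at h
    rw [pow_succ, h]
    field_simp
  · field_simp

/-- Hint: `X 0 = -X 1 * Z₁ ^ (p ^ k₁ - 1)`, and `Z₁ * Z₁ ^ (p ^ k₁ - 1) = Z₁ ^ p ^ k₁`. -/
lemma X_zero [Fact p.Prime] (h : PairData p N k₁ k₂ (F := F) t X w δ Z₁ Z₂ Y₁ Y₂ e) :
    X 0 = (-X 1 / Z₁) * Z₁ ^ p ^ k₁ ∧ X 1 = -((-X 1 / Z₁) * Z₁) :=
  G7_aux (pow_pos (Fact.out : p.Prime).pos _) (h.X_ne 1) h.Z₁_ne h.Z₁_pow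

lemma X_two [Fact p.Prime] (h : PairData p N k₁ k₂ (F := F) t X w δ Z₁ Z₂ Y₁ Y₂ e) :
    X 2 = (-X 3 / Z₂) * Z₂ ^ p ^ k₂ ∧ X 3 = -((-X 3 / Z₂) * Z₂) :=
  G7_aux (pow_pos (Fact.out : p.Prime).pos _) (h.X_ne 3) h.Z₂_ne h.Z₂_pow

/-- Hint: `X_zero`, `trace_pow_sub`. -/
lemma add_zero_one [Fact p.Prime] [CharP Ω p]
    (h : PairData p N k₁ k₂ (F := F) t X w δ Z₁ Z₂ Y₁ Y₂ e) :
    X 0 + X 1 = (-X 1 / Z₁) * (Y₁ ^ p ^ (k₁ * k₂) - Y₁) := by
  have h1 := trace_pow_sub (K := Ω) (p := p) k₁ k₂ h.Z₁_eq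
  rw [← h1]
  obtain ⟨h2, h3⟩ := h.X_zero
  calc X 0 + X 1 = (-X 1 / Z₁) * Z₁ ^ p ^ k₁ + -((-X 1 / Z₁) * Z₁) := by rw [← h2, ← h3]
    _ = _ := by ring

/-- Hint: `X_two`, `trace_pow_sub` with `k₂ * k₁ = k₁ * k₂`. -/
lemma add_two_three [Fact p.Prime] [CharP Ω p]
    (h : PairData p N k₁ k₂ (F := F) t X w δ Z₁ Z₂ Y₁ Y₂ e) :
    X 2 + X 3 = (-X 3 / Z₂) * (Y₂ ^ p ^ (k₁ * k₂) - Y₂) := by
  have h1 := trace_pow_sub (K := Ω) (p := p) k₂ k₁ h.Z₂_eq
  rw [mul_comm k₂ k₁] at h1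
  rw [← h1]
  obtain ⟨h2, h3⟩ := h.X_two
  calc X 2 + X 3 = (-X 3 / Z₂) * Z₂ ^ p ^ k₂ + -((-X 3 / Z₂) * Z₂) := by rw [← h2, ← h3]
    _ = _ := by ring

/-- Hint: `sum`, `X_last`, `Fin.sum_univ_six`. -/
lemma sum_eq (h : PairData p N k₁ k₂ (F := F) t X w δ Z₁ Z₂ Y₁ Y₂ e) :
    (X 0 + X 1) + (X 2 + X 3) + X 4 + 1 = 0 := by
  have h1 := h.sum
  rw [Fin.sum_univ_six, h.X_last] at h1
  linear_combination h1

/-- Hint: `u₁ = -X 1 / Z₁` etc.; `Z₁ ≠ 0`, `X_ne`. -/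
lemma u_ne [Fact p.Prime] (h : PairData p N k₁ k₂ (F := F) t X w δ Z₁ Z₂ Y₁ Y₂ e) :
    -X 1 / Z₁ ≠ 0 ∧ -X 3 / Z₂ ≠ 0 :=
  ⟨div_ne_zero (neg_ne_zero.2 (h.X_ne 1)) h.Z₁_ne, div_ne_zero (neg_ne_zero.2 (h.X_ne 3)) h.Z₂_ne⟩

end PairData

end UnrG
end

section

/-!
# Twisted pairs: the identities in the extension field
-/

namespace UnrG

universe u v w

open Polynomial Finset
open scoped Classical

variable {p N k₁ k₂ : ℕ} {F Ω : Type u} [Field F] [Field Ω] [Algebra F Ω] {r : ℕ} {t : Fin r → Ω}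
  {X : Fin 6 → Ω} {w δ Z₁ Z₂ Y₁ Y₂ : Ω} {e : Fin 6 → ℕ}

namespace PairData

private lemma G7b_aux {A B u Z : Ω} {q a c N k : ℕ} (hA : A = u * Z ^ q) (hB : B = -(u * Z))
    (hk : q * a + c = N * k) : A ^ a * B ^ c = (-1) ^ c * u ^ (a + c) * (Z ^ k) ^ N := by
  rw [hA, hB, neg_pow, mul_pow, mul_pow, ← pow_mul, ← pow_mul, mul_comm k N, ← hk, pow_add,
    pow_add]
  ring

/-- The monomial. Proof: with `u₁ = -X 1 / Z₁`, `u₂ = -X 3 / Z₂`, and
`p ^ k₁ e_0 + e_1 = N k`, `p ^ k₂ e_2 + e_3 = N l`, let `W = w / (Z₁ ^ k Z₂ ^ l)`. By `X_zero`,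
`X_two`: `X_0 ^ e_0 X_1 ^ e_1 = (-1) ^ e_1 u₁ ^ (e_0 + e_1) (Z₁ ^ k) ^ N`, similarly for `X_2`, `X_3`;
`X_5 = 1`. -/
lemma exists_W [Fact p.Prime] (h : PairData p N k₁ k₂ (F := F) t X w δ Z₁ Z₂ Y₁ Y₂ e) :
    ∃ k l : ℕ, (w / (Z₁ ^ k * Z₂ ^ l)) ^ N =
      (δ * (-1) ^ (e 1 + e 3) * (-X 1 / Z₁) ^ (e 0 + e 1) * (-X 3 / Z₂) ^ (e 2 + e 3)) *
        X 4 ^ e 4 := by
  obtain ⟨k, hk⟩ := h.h01
  obtain ⟨l, hl⟩ := h.h23
  refine ⟨k, l, ?_⟩
  have h1 := G7b_aux h.X_zero.1 h.X_zero.2 hk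
  have h2 := G7b_aux h.X_two.1 h.X_two.2 hl
  have hZ₁ : (Z₁ ^ k) ^ N ≠ 0 := pow_ne_zero _ (pow_ne_zero _ h.Z₁_ne)
  have hZ₂ : (Z₂ ^ l) ^ N ≠ 0 := pow_ne_zero _ (pow_ne_zero _ h.Z₂_ne)
  rw [div_pow, mul_pow, h.eq, Fin.prod_univ_six, h.X_last, one_pow, mul_one,
    div_eq_iff (mul_ne_zero hZ₁ hZ₂), h1]
  rw [mul_assoc (_ * _) (X 2 ^ e 2) (X 3 ^ e 3), h2, pow_add (-1 : Ω)]
  ring

end PairData

end UnrG
end

section

/-!
# Twisted pairs: the subfields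
-/

namespace UnrG

universe u v w

open Polynomial Finset
open scoped Classical

variable {p N k₁ k₂ : ℕ} {F Ω : Type u} [Field F] [Field Ω] [Algebra F Ω] {r : ℕ} {t : Fin r → Ω}
  {X : Fin 6 → Ω} {w δ Z₁ Z₂ Y₁ Y₂ : Ω} {e : Fin 6 → ℕ}

/-- The subfield generated by `t`, `u₁`, `u₂`, `y`, `B`. -/
def subT (F : Type u) [Field F] [Algebra F Ω] (t : Fin r → Ω) (u₁ u₂ y B : Ω) :
    IntermediateField F Ω :=
  IntermediateField.adjoin F (Set.range t ∪ {u₁, u₂, y, B})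

namespace PairData

/-- The generator `y`. Proof: `exists_W`, and `mono_trick` for the subfield generated by `t`, `u₁`,
`u₂`, which contains the coefficient (`δ_mem`); it is not zero (`δ_ne`, `u_ne`); `X 4 ≠ 0`. For the
last claim use `w = W Z₁ ^ k Z₂ ^ l` (`Z₁_ne`, `Z₂_ne`). -/
theorem exists_y [Fact p.Prime] (h : PairData p N k₁ k₂ (F := F) t X w δ Z₁ Z₂ Y₁ Y₂ e) :
    ∃ y : Ω, (∀ T : IntermediateField F Ω, Set.range t ⊆ (T : Set Ω) → -X 1 / Z₁ ∈ T →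
        -X 3 / Z₂ ∈ T → y ∈ T → X 4 ∈ T ∧ (Z₁ ∈ T → Z₂ ∈ T → w ∈ T)) := by
  obtain ⟨k, l, hW⟩ := h.exists_W
  obtain ⟨T₁, hT₁⟩ : ∃ T₁ : IntermediateField F Ω,
      T₁ = IntermediateField.adjoin F (Set.range t ∪ {-X 1 / Z₁, -X 3 / Z₂}) := ⟨_, rfl⟩
  have hu₁ : -X 1 / Z₁ ∈ T₁ := by
    rw [hT₁]; exact IntermediateField.subset_adjoin F _ (Or.inr (Or.inl rfl))
  have hu₂ : -X 3 / Z₂ ∈ T₁ := by
    rw [hT₁]; exact IntermediateField.subset_adjoin F _ (Or.inr (Or.inr rfl))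
  have hδ : δ ∈ T₁ := by
    rw [hT₁]
    exact IntermediateField.adjoin.mono F _ _ Set.subset_union_left h.δ_mem
  have hc : δ * (-1) ^ (e 1 + e 3) * (-X 1 / Z₁) ^ (e 0 + e 1) * (-X 3 / Z₂) ^ (e 2 + e 3) ∈ T₁ :=
    mul_mem (mul_mem (mul_mem hδ (pow_mem (neg_mem (one_mem _)) _)) (pow_mem hu₁ _))
      (pow_mem hu₂ _)
  have hc0 : δ * (-1) ^ (e 1 + e 3) * (-X 1 / Z₁) ^ (e 0 + e 1) *
      (-X 3 / Z₂) ^ (e 2 + e 3) ≠ 0 :=
    mul_ne_zero (mul_ne_zero (mul_ne_zero h.δ_ne (pow_ne_zero _ (neg_ne_zero.2 one_ne_zero)))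
      (pow_ne_zero _ h.u_ne.1)) (pow_ne_zero _ h.u_ne.2)
  obtain ⟨y, hy⟩ := mono_trick T₁ h.N_pos h.h4 hc hc0 (h.X_ne 4) hW
  refine ⟨y, fun T ht h1 h2 hyT => ?_⟩
  have hle : T₁ ⊔ IntermediateField.adjoin F {y} ≤ T := by
    refine sup_le ?_ ?_
    · rw [hT₁, IntermediateField.adjoin_le_iff]
      rintro z (hz | rfl | rfl)
      · exact ht hz
      · exact h1
      · exact h2
    · rw [IntermediateField.adjoin_le_iff]
      rintro z rfl
      exact hyT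
  have hle2 : IntermediateField.adjoin F {w / (Z₁ ^ k * Z₂ ^ l), X 4} ≤ T :=
    (le_sup_right.trans hy.le).trans hle
  have hW' : w / (Z₁ ^ k * Z₂ ^ l) ∈ T :=
    hle2 (IntermediateField.subset_adjoin F _ (Or.inl rfl))
  refine ⟨hle2 (IntermediateField.subset_adjoin F _ (Or.inr rfl)), fun hZ₁ hZ₂ => ?_⟩
  have h3 : w = w / (Z₁ ^ k * Z₂ ^ l) * (Z₁ ^ k * Z₂ ^ l) := by
    rw [div_mul_cancel₀]
    exact mul_ne_zero (pow_ne_zero _ h.Z₁_ne) (pow_ne_zero _ h.Z₂_ne)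
  rw [h3]
  exact mul_mem hW' (mul_mem (pow_mem hZ₁ _) (pow_mem hZ₂ _))

end PairData

end UnrG
end

section

/-!
# Twisted pairs: the subfields
-/

namespace UnrG

universe u v w

open Polynomial Finset
open scoped Classical

variable {p N k₁ k₂ : ℕ} {F Ω : Type u} [Field F] [Field Ω] [Algebra F Ω] {r : ℕ} {t : Fin r → Ω}
  {X : Fin 6 → Ω} {w δ Z₁ Z₂ Y₁ Y₂ : Ω} {e : Fin 6 → ℕ}

namespace PairData

private lemma G8b_sub (F : Type u) [Field F] [Algebra F Ω] (t : Fin r → Ω) (u₁ u₂ y B : Ω) :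
    Set.range t ⊆ (subT F t u₁ u₂ y B : Set Ω) ∧ u₁ ∈ subT F t u₁ u₂ y B ∧
      u₂ ∈ subT F t u₁ u₂ y B ∧ y ∈ subT F t u₁ u₂ y B ∧ B ∈ subT F t u₁ u₂ y B := by
  have h : ∀ z ∈ Set.range t ∪ {u₁, u₂, y, B}, z ∈ subT F t u₁ u₂ y B := fun z hz =>
    IntermediateField.subset_adjoin F _ hz
  refine ⟨fun z hz => h z (Or.inl hz), h _ (Or.inr ?_), h _ (Or.inr ?_), h _ (Or.inr ?_),
    h _ (Or.inr ?_)⟩ <;> simp

/-- Hint: with `T = subT t u₁ u₂ y (X 0 + X 1)`: `Y₁ ^ Q - Y₁ = (X 0 + X 1) / u₁` (`add_zero_one`,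
`u_ne`) and `Y₂ ^ Q - Y₂ = (X 2 + X 3) / u₂ = -((X 0 + X 1) + X 4 + 1) / u₂` (`add_two_three`,
`sum_eq`). -/
lemma as_mem [Fact p.Prime] [CharP Ω p]
    (h : PairData p N k₁ k₂ (F := F) t X w δ Z₁ Z₂ Y₁ Y₂ e) {y : Ω}
    (hy : ∀ T : IntermediateField F Ω, Set.range t ⊆ (T : Set Ω) → -X 1 / Z₁ ∈ T →
        -X 3 / Z₂ ∈ T → y ∈ T → X 4 ∈ T ∧ (Z₁ ∈ T → Z₂ ∈ T → w ∈ T)) :
    Y₁ ^ p ^ (k₁ * k₂) - Y₁ ∈ subT F t (-X 1 / Z₁) (-X 3 / Z₂) y (X 0 + X 1) ∧
      Y₂ ^ p ^ (k₁ * k₂) - Y₂ ∈ subT F t (-X 1 / Z₁) (-X 3 / Z₂) y (X 0 + X 1) := by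
  obtain ⟨ht, h1, h2, hyT, hA⟩ := G8b_sub F t (-X 1 / Z₁) (-X 3 / Z₂) y (X 0 + X 1)
  have hX4 := (hy _ ht h1 h2 hyT).1
  constructor
  · have e1 : Y₁ ^ p ^ (k₁ * k₂) - Y₁ = (X 0 + X 1) / (-X 1 / Z₁) := by
      rw [eq_div_iff h.u_ne.1, mul_comm]
      exact h.add_zero_one.symm
    rw [e1]
    exact div_mem hA h1
  · have e1 : Y₂ ^ p ^ (k₁ * k₂) - Y₂ = -((X 0 + X 1) + X 4 + 1) / (-X 3 / Z₂) := by
      rw [eq_div_iff h.u_ne.2, mul_comm, ← h.add_two_three]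
      linear_combination h.sum_eq
    rw [e1]
    exact div_mem (neg_mem (add_mem (add_mem hA hX4) (one_mem _))) h2

/-- Hint: the field generated by `T`, `Y₁`, `Y₂` contains `Z₁`, `Z₂` (`Z₁_eq`, `Z₂_eq`), so
`X 0, …, X 3` (`X_zero`, `X_two`), `X 4` and `w` (`hy`), `X 5 = 1`, `t`; now `gen`. -/
lemma adjoin_Y [Fact p.Prime] (h : PairData p N k₁ k₂ (F := F) t X w δ Z₁ Z₂ Y₁ Y₂ e) {y : Ω}
    (hy : ∀ T : IntermediateField F Ω, Set.range t ⊆ (T : Set Ω) → -X 1 / Z₁ ∈ T →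
        -X 3 / Z₂ ∈ T → y ∈ T → X 4 ∈ T ∧ (Z₁ ∈ T → Z₂ ∈ T → w ∈ T)) :
    IntermediateField.adjoin (subT F t (-X 1 / Z₁) (-X 3 / Z₂) y (X 0 + X 1)) {Y₁, Y₂} = ⊤ := by
  obtain ⟨ht, h1, h2, hyT, hA⟩ := G8b_sub F t (-X 1 / Z₁) (-X 3 / Z₂) y (X 0 + X 1)
  obtain ⟨T, hT⟩ : ∃ T, T = subT F t (-X 1 / Z₁) (-X 3 / Z₂) y (X 0 + X 1) := ⟨_, rfl⟩
  rw [← hT] at ht h1 h2 hyT hA ⊢
  obtain ⟨R, hR⟩ : ∃ R : IntermediateField F Ω,
      R = (IntermediateField.adjoin T {Y₁, Y₂}).restrictScalars F := ⟨_, rfl⟩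
  have hTR : ∀ z ∈ T, z ∈ R := by
    intro z hz
    rw [hR]
    exact (IntermediateField.adjoin T {Y₁, Y₂}).algebraMap_mem ⟨z, hz⟩
  have hY₁ : Y₁ ∈ R := by
    rw [hR]
    exact IntermediateField.subset_adjoin T {Y₁, Y₂} (Or.inl rfl)
  have hY₂ : Y₂ ∈ R := by
    rw [hR]
    exact IntermediateField.subset_adjoin T {Y₁, Y₂} (Or.inr rfl)
  have hZ₁ : Z₁ ∈ R := by
    rw [h.Z₁_eq]
    exact sum_mem fun i _ => pow_mem hY₁ _
  have hZ₂ : Z₂ ∈ R := by
    rw [h.Z₂_eq]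
    exact sum_mem fun i _ => pow_mem hY₂ _
  obtain ⟨hX4, hw⟩ := hy R (fun z hz => hTR z (ht hz)) (hTR _ h1) (hTR _ h2) (hTR _ hyT)
  have hwR := hw hZ₁ hZ₂
  have hX0 : X 0 ∈ R := by
    rw [h.X_zero.1]
    exact mul_mem (hTR _ h1) (pow_mem hZ₁ _)
  have hX1 : X 1 ∈ R := by
    rw [h.X_zero.2]
    exact neg_mem (mul_mem (hTR _ h1) hZ₁)
  have hX2 : X 2 ∈ R := by
    rw [h.X_two.1]
    exact mul_mem (hTR _ h2) (pow_mem hZ₂ _)
  have hX3 : X 3 ∈ R := by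
    rw [h.X_two.2]
    exact neg_mem (mul_mem (hTR _ h2) hZ₂)
  have hX5 : X 5 ∈ R := by
    rw [h.X_last]
    exact one_mem _
  have htop : (⊤ : IntermediateField F Ω) ≤ R := by
    rw [← h.gen, IntermediateField.adjoin_le_iff]
    rintro z ((hz | ⟨i, rfl⟩) | (rfl | rfl | rfl))
    · exact hTR z (ht hz)
    · fin_cases i
      · exact hX0
      · exact hX1
      · exact hX2
      · exact hX3
      · exact hX4
      · exact hX5
    · exact hwR
    · exact hY₁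
    · exact hY₂
  rw [eq_top_iff]
  intro z _
  have h3 : z ∈ R := htop trivial
  rw [hR] at h3
  exact h3

end PairData

end UnrG
end

section

/-!
# Twisted pairs: the subfields
-/

namespace UnrG

universe u v w

open Polynomial Finset
open scoped Classical

variable {p N k₁ k₂ : ℕ} {F Ω : Type u} [Field F] [Field Ω] [Algebra F Ω] {r : ℕ} {t : Fin r → Ω}
  {X : Fin 6 → Ω} {w δ Z₁ Z₂ Y₁ Y₂ : Ω} {e : Fin 6 → ℕ}

namespace PairData

private lemma G8c_sub (F : Type u) [Field F] [Algebra F Ω] (t : Fin r → Ω) (u₁ u₂ y B : Ω) :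
    Set.range t ⊆ (subT F t u₁ u₂ y B : Set Ω) ∧ u₁ ∈ subT F t u₁ u₂ y B ∧
      u₂ ∈ subT F t u₁ u₂ y B ∧ y ∈ subT F t u₁ u₂ y B ∧ B ∈ subT F t u₁ u₂ y B := by
  have h : ∀ z ∈ Set.range t ∪ {u₁, u₂, y, B}, z ∈ subT F t u₁ u₂ y B := fun z hz =>
    IntermediateField.subset_adjoin F _ hz
  refine ⟨fun z hz => h z (Or.inl hz), h _ (Or.inr ?_), h _ (Or.inr ?_), h _ (Or.inr ?_),
    h _ (Or.inr ?_)⟩ <;> simp

private lemma G8c_sup (F : Type u) [Field F] [Algebra F Ω] (t : Fin r → Ω) (u₁ u₂ y B Y : Ω)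
    (hB : B ∈ subT F t u₁ u₂ y Y) :
    subT F t u₁ u₂ y B ⊔ IntermediateField.adjoin F {Y} = subT F t u₁ u₂ y Y := by
  obtain ⟨ht, h1, h2, hy, hY⟩ := G8c_sub F t u₁ u₂ y Y
  obtain ⟨ht', h1', h2', hy', hB'⟩ := G8c_sub F t u₁ u₂ y B
  apply le_antisymm
  · refine sup_le ?_ ?_
    · rw [subT, IntermediateField.adjoin_le_iff]
      rintro z (hz | rfl | rfl | rfl | rfl)
      · exact ht hz
      · exact h1
      · exact h2
      · exact hy
      · exact hB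
    · rw [IntermediateField.adjoin_le_iff]
      rintro z rfl
      exact hY
  · conv_lhs => rw [subT]
    rw [IntermediateField.adjoin_le_iff]
    have hle : subT F t u₁ u₂ y B ≤ subT F t u₁ u₂ y B ⊔ IntermediateField.adjoin F {Y} :=
      le_sup_left
    have hle' : IntermediateField.adjoin F {Y} ≤
        subT F t u₁ u₂ y B ⊔ IntermediateField.adjoin F {Y} := le_sup_right
    rintro z (hz | rfl | rfl | rfl | rfl)
    · exact hle (ht' hz)
    · exact hle h1'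
    · exact hle h2'
    · exact hle hy'
    · exact hle' (IntermediateField.subset_adjoin F _ rfl)

/-- The line `b₂ = 0`. Hint: `X 0 + X 1 = -u₂ (Y₂ ^ Q - Y₂) - X 4 - 1` (`sum_eq`, `add_two_three`). -/
lemma sup_Y₂ [Fact p.Prime] [CharP Ω p]
    (h : PairData p N k₁ k₂ (F := F) t X w δ Z₁ Z₂ Y₁ Y₂ e) {y : Ω}
    (hy : ∀ T : IntermediateField F Ω, Set.range t ⊆ (T : Set Ω) → -X 1 / Z₁ ∈ T →
        -X 3 / Z₂ ∈ T → y ∈ T → X 4 ∈ T ∧ (Z₁ ∈ T → Z₂ ∈ T → w ∈ T)) :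
    subT F t (-X 1 / Z₁) (-X 3 / Z₂) y (X 0 + X 1) ⊔ IntermediateField.adjoin F {Y₂} =
      subT F t (-X 1 / Z₁) (-X 3 / Z₂) y Y₂ := by
  apply G8c_sup
  obtain ⟨ht, h1, h2, hyT, hY⟩ := G8c_sub F t (-X 1 / Z₁) (-X 3 / Z₂) y Y₂
  have hX4 := (hy _ ht h1 h2 hyT).1
  have e1 : X 0 + X 1 = -((-X 3 / Z₂) * (Y₂ ^ p ^ (k₁ * k₂) - Y₂)) - X 4 - 1 := by
    rw [← h.add_two_three]
    linear_combination h.sum_eq
  rw [e1]
  exact sub_mem (sub_mem (neg_mem (mul_mem h2 (sub_mem (pow_mem hY _) hY))) hX4) (one_mem _)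

/-- The other lines. Hint: with `Y = Y₁ + c Y₂`, `c ^ Q = c`, `A = X 0 + X 1`:
`Y ^ Q - Y = (Y₁ ^ Q - Y₁) + c (Y₂ ^ Q - Y₂) = A / u₁ - c (A + X 4 + 1) / u₂
= A (1 / u₁ - c / u₂) - c (X 4 + 1) / u₂`, and `1 / u₁ - c / u₂ ≠ 0` because `u₂ ≠ c u₁`. -/
lemma sup_Y [Fact p.Prime] [CharP F p] [CharP Ω p]
    (h : PairData p N k₁ k₂ (F := F) t X w δ Z₁ Z₂ Y₁ Y₂ e) {y : Ω}
    (hy : ∀ T : IntermediateField F Ω, Set.range t ⊆ (T : Set Ω) → -X 1 / Z₁ ∈ T →
        -X 3 / Z₂ ∈ T → y ∈ T → X 4 ∈ T ∧ (Z₁ ∈ T → Z₂ ∈ T → w ∈ T)) {c : F}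
    (hc : c ^ p ^ (k₁ * k₂) = c) (hc' : -X 3 / Z₂ ≠ algebraMap F Ω c * (-X 1 / Z₁)) :
    subT F t (-X 1 / Z₁) (-X 3 / Z₂) y (X 0 + X 1) ⊔
        IntermediateField.adjoin F {Y₁ + algebraMap F Ω c * Y₂} =
      subT F t (-X 1 / Z₁) (-X 3 / Z₂) y (Y₁ + algebraMap F Ω c * Y₂) := by
  apply G8c_sup
  obtain ⟨ht, h1, h2, hyT, hY⟩ := G8c_sub F t (-X 1 / Z₁) (-X 3 / Z₂) y
    (Y₁ + algebraMap F Ω c * Y₂)
  have hX4 := (hy _ ht h1 h2 hyT).1
  obtain ⟨hu₁, hu₂⟩ := h.u_ne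
  have hA := h.add_zero_one
  have hB := h.add_two_three
  have hs := h.sum_eq
  obtain ⟨u₁, hu₁d⟩ : ∃ u₁, u₁ = -X 1 / Z₁ := ⟨_, rfl⟩
  obtain ⟨u₂, hu₂d⟩ : ∃ u₂, u₂ = -X 3 / Z₂ := ⟨_, rfl⟩
  obtain ⟨A, hAd⟩ : ∃ A, A = X 0 + X 1 := ⟨_, rfl⟩
  obtain ⟨γ, hγ⟩ : ∃ γ, γ = algebraMap F Ω c := ⟨_, rfl⟩
  have hcT : γ ∈ subT F t (-X 1 / Z₁) (-X 3 / Z₂) y (Y₁ + algebraMap F Ω c * Y₂) := by
    rw [hγ]; exact IntermediateField.algebraMap_mem _ _
  have hγQ : γ ^ p ^ (k₁ * k₂) = γ := by rw [hγ, ← map_pow, hc]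
  rw [← hu₁d, ← hu₂d, ← hγ] at hc'
  rw [← hγ] at hY h1 h2 hX4 hcT ⊢
  rw [← hu₁d] at hu₁ hA
  rw [← hu₂d] at hu₂ hB
  rw [← hAd] at hA hs ⊢
  obtain ⟨R, hR⟩ : ∃ R, R = subT F t (-X 1 / Z₁) (-X 3 / Z₂) y (Y₁ + γ * Y₂) := ⟨_, rfl⟩
  rw [← hR] at hY h1 h2 hX4 hcT ⊢
  rw [← hu₁d] at h1
  rw [← hu₂d] at h2
  have hYQ : (Y₁ + γ * Y₂) ^ p ^ (k₁ * k₂) - (Y₁ + γ * Y₂) =
      (Y₁ ^ p ^ (k₁ * k₂) - Y₁) + γ * (Y₂ ^ p ^ (k₁ * k₂) - Y₂) := by
    rw [add_pow_char_pow, mul_pow, hγQ]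
    ring
  have hd : u₂ - γ * u₁ ≠ 0 := sub_ne_zero.2 hc'
  have e1 : A = (u₁ * u₂ * ((Y₁ + γ * Y₂) ^ p ^ (k₁ * k₂) - (Y₁ + γ * Y₂)) +
      γ * u₁ * (X 4 + 1)) / (u₂ - γ * u₁) := by
    rw [eq_div_iff hd, hYQ]
    linear_combination (u₂) * hA + (γ * u₁) * hB - (γ * u₁) * hs
  rw [e1]
  exact div_mem (add_mem (mul_mem (mul_mem h1 h2) (sub_mem (pow_mem hY _) hY))
    (mul_mem (mul_mem hcT h1) (add_mem hX4 (one_mem _)))) (sub_mem h2 (mul_mem hcT h1))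

end PairData

end UnrG
end

section

/-!
# Twisted pairs: unramified classes
-/

namespace UnrG

universe u v w

open Polynomial Finset
open scoped Classical

variable {p N k₁ k₂ : ℕ} {F Ω : Type u} [Field F] [Field Ω] [Algebra F Ω] {r : ℕ} {t : Fin r → Ω}
  {X : Fin 6 → Ω} {w δ Z₁ Z₂ Y₁ Y₂ : Ω} {e : Fin 6 → ℕ}

/-- A subfield generated by `t` and four elements, over which `Ω` is algebraic, is purely
transcendental. Proof: `subT t u₁ u₂ y B` is generated by the family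
`Sum.elim t ![u₁, u₂, y, B]`, which is independent by `indep_of_trdeg` (compare with
`ind : AlgebraicIndependent F (Sum.elim t (fun i : Fin 4 => X _))`); `isPurely_adjoin`. -/
theorem PairData.isPurely_subT (h : PairData p N k₁ k₂ (F := F) t X w δ Z₁ Z₂ Y₁ Y₂ e)
    {u₁ u₂ y B : Ω} (halg : ∀ z : Ω, IsAlgebraic (subT F t u₁ u₂ y B) z) :
    AlgebraicIndependent F (Sum.elim t ![u₁, u₂, y, B]) ∧ IsPurely (subT F t u₁ u₂ y B) := by
  have h1 : subT F t u₁ u₂ y B =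
      IntermediateField.adjoin F (Set.range (Sum.elim t ![u₁, u₂, y, B])) := by
    unfold subT
    congr 1
    rw [Set.Sum.elim_range]
    congr 1
    ext z
    simp only [Set.mem_insert_iff, Set.mem_singleton_iff, Set.mem_range]
    constructor
    · rintro (rfl | rfl | rfl | rfl)
      · exact ⟨0, rfl⟩
      · exact ⟨1, rfl⟩
      · exact ⟨2, rfl⟩
      · exact ⟨3, rfl⟩
    · rintro ⟨i, rfl⟩
      fin_cases i
      · exact Or.inl rfl
      · exact Or.inr (Or.inl rfl)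
      · exact Or.inr (Or.inr (Or.inl rfl))
      · exact Or.inr (Or.inr (Or.inr rfl))
  have h2 : AlgebraicIndependent F (Sum.elim t ![u₁, u₂, y, B]) := by
    refine indep_of_trdeg h.ind ?_
    rw [← h1]
    exact halg
  refine ⟨h2, ?_⟩
  rw [h1]
  exact isPurely_adjoin _ h2

end UnrG
end

section

/-!
# Adjoining a root of order a power of the characteristic
-/

namespace UnrG

universe u v w

open Polynomial Finset

/-- Hint: in `AlgebraicClosure K` take a root `y` of `X ^ (p ^ k) - C x` and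
`K' = IntermediateField.adjoin K {y}`; the degree of `minpoly K y` is at most `p ^ k`
(`IntermediateField.adjoin.finrank`, `minpoly.natDegree_le`-type lemmas or
`Polynomial.natDegree_le_of_dvd`). The `F`-algebra structure is the composition. -/
theorem exists_root_ext {F K : Type u} [Field F] [Field K] [Algebra F K] {p : ℕ} [Fact p.Prime]
    (k : ℕ) (x : K) :
    ∃ (K' : Type u) (_ : Field K') (_ : Algebra F K') (_ : Algebra K K')
      (_ : IsScalarTower F K K') (y : K'), FiniteDimensional K K' ∧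
      Module.finrank K K' ≤ p ^ k ∧ y ^ p ^ k = algebraMap K K' x ∧
      IntermediateField.adjoin K {y} = ⊤ := by
  have hp : 0 < p ^ k := pow_pos (Fact.out : p.Prime).pos k
  obtain ⟨y, hy⟩ := IsAlgClosed.exists_pow_nat_eq (algebraMap K (AlgebraicClosure K) x) hp
  have hroot : aeval y (X ^ p ^ k - C x : K[X]) = 0 := by
    rw [map_sub, map_pow, aeval_X, aeval_C, hy, sub_self]
  have hmon : (X ^ p ^ k - C x : K[X]).Monic := monic_X_pow_sub_C _ hp.ne'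
  have hint : IsIntegral K y := ⟨_, hmon, by rw [← aeval_def]; exact hroot⟩
  have hfd : FiniteDimensional K (IntermediateField.adjoin K {y}) :=
    IntermediateField.adjoin.finiteDimensional hint
  let alg : Algebra F (IntermediateField.adjoin K {y}) :=
    ((algebraMap K (IntermediateField.adjoin K {y})).comp (algebraMap F K)).toAlgebra
  have htow : @IsScalarTower F K (IntermediateField.adjoin K {y}) _ _ alg.toSMul :=
    @IsScalarTower.of_algebraMap_eq F K (IntermediateField.adjoin K {y}) _ _ _ _ _ alg (fun _ => rfl)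
  refine ⟨IntermediateField.adjoin K {y}, inferInstance, alg, inferInstance, htow,
    IntermediateField.AdjoinSimple.gen K y, hfd, ?_, ?_, ?_⟩
  · rw [IntermediateField.adjoin.finrank hint]
    have h1 := natDegree_le_of_dvd (minpoly.dvd K y hroot) hmon.ne_zero
    rwa [natDegree_X_pow_sub_C] at h1
  · apply (algebraMap (IntermediateField.adjoin K {y}) (AlgebraicClosure K)).injective
    rw [map_pow, IntermediateField.AdjoinSimple.algebraMap_gen, hy]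
    rfl
  · apply IntermediateField.lift_injective (IntermediateField.adjoin K {y})
    rw [IntermediateField.lift_adjoin, IntermediateField.lift_top, Set.image_singleton]
    congr 1

end UnrG
end

section

/-!
# Roots of power series
-/

namespace UnrG

universe u v w

open Polynomial Finset
open scoped Classical

variable {m : ℕ} {K : Type u} [Field K]

/-- Roots of power series. Hint: construct the coefficients recursively, or: Hensel's lemma for the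
`X`-adically complete ring of power series; or: reduce to `a = 1` and solve
`(1 + g) ^ N = f` degree by degree (the coefficient of `X ^ n` of `(∑ g_i X ^ i) ^ N` is
`N * g_0 ^ (N - 1) * g_n` plus an expression in `g_0, …, g_{n-1}`). -/
theorem exists_root_powerSeries {N : ℕ} (hN : (N : K) ≠ 0) (f : PowerSeries K) (a : K)
    (ha : a ≠ 0) (h : a ^ N = PowerSeries.constantCoeff f) :
    ∃ g : PowerSeries K, g ^ N = f ∧ PowerSeries.constantCoeff g = a := by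
  have hN0 : N ≠ 0 := by
    rintro rfl
    exact hN (by simp)
  have hH : HenselianRing (PowerSeries K) (Ideal.span {PowerSeries.X}) := inferInstance
  obtain ⟨g, hg, hga⟩ := hH.is_henselian ((X : (PowerSeries K)[X]) ^ N - C f)
    (monic_X_pow_sub_C f hN0) (PowerSeries.C a) (by
      rw [Ideal.mem_span_singleton, PowerSeries.X_dvd_iff]
      simp [h]) (by
      apply IsUnit.map
      rw [PowerSeries.isUnit_iff_constantCoeff]
      rw [derivative_sub, derivative_C, sub_zero, derivative_X_pow]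
      simp [ha, hN])
  refine ⟨g, ?_, ?_⟩
  · have h1 : g ^ N - f = 0 := by
      have h2 := hg
      rw [IsRoot.def, eval_sub, eval_pow, eval_X, eval_C] at h2
      exact h2
    exact sub_eq_zero.mp h1
  · rw [Ideal.mem_span_singleton, PowerSeries.X_dvd_iff, map_sub] at hga
    simpa using sub_eq_zero.mp hga

/-- The `N`-th root with given nonzero constant term is unique. Hint: `f ^ N - g ^ N =
(f - g) * ∑ f ^ i g ^ (N - 1 - i)` and the second factor has constant term `N a ^ (N - 1) ≠ 0`. -/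
theorem root_powerSeries_unique {N : ℕ} (hN : (N : K) ≠ 0) {f g : PowerSeries K}
    (hf : PowerSeries.constantCoeff f ≠ 0)
    (h0 : PowerSeries.constantCoeff f = PowerSeries.constantCoeff g) (h : f ^ N = g ^ N) :
    f = g := by
  have h1 : (f - g) * ∑ i ∈ range N, f ^ i * g ^ (N - 1 - i) = 0 := by
    rw [mul_comm, (Commute.all f g).geom_sum₂_mul, h, sub_self]
  rcases mul_eq_zero.mp h1 with h2 | h2
  · exact sub_eq_zero.mp h2
  · exfalso
    have h3 := congrArg PowerSeries.constantCoeff h2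
    rw [map_sum, map_zero] at h3
    have h4 : ∀ i ∈ range N, PowerSeries.constantCoeff (f ^ i * g ^ (N - 1 - i)) =
        (PowerSeries.constantCoeff f) ^ (N - 1) := by
      intro i hi
      rw [mem_range] at hi
      rw [map_mul, map_pow, map_pow, ← h0, ← pow_add]
      congr 1
      omega
    rw [Finset.sum_congr rfl h4, Finset.sum_const, card_range, nsmul_eq_mul] at h3
    exact mul_ne_zero hN (pow_ne_zero _ hf) h3

end UnrG
end

section

/-!
# Twisted pairs, the trace character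
-/

namespace UnrG

open Finset

/-- The family `α` has two disjoint twisted pairs `(a, -p ^ k a)`. -/
def TwistedPairs (p : ℕ) {N l : ℕ} (α : Fin l → ZMod N) : Prop :=
  ∃ i₀ i₁ i₂ i₃ : Fin l, [i₀, i₁, i₂, i₃].Nodup ∧ ∃ k₁ k₂ : ℕ,
    α i₁ = -(p : ZMod N) ^ k₁ * α i₀ ∧ α i₃ = -(p : ZMod N) ^ k₂ * α i₂

/-- The additive character `x ↦ exp (2 π i Tr x / p)` of a finite field of characteristic `p`. -/
noncomputable def trChar (p : ℕ) [Fact p.Prime] (k : Type) [Field k] [Fintype k]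
    [Algebra (ZMod p) k] : AddChar k ℂ :=
  (ZMod.stdAddChar (N := p)).compAddMonoidHom (Algebra.trace (ZMod p) k).toAddMonoidHom

lemma trChar_apply (p : ℕ) [Fact p.Prime] (k : Type) [Field k] [Fintype k]
    [Algebra (ZMod p) k] (x : k) :
    trChar p k x = ZMod.stdAddChar (N := p) (Algebra.trace (ZMod p) k x) := rfl

/-- The primitive `p`-th root of unity `exp (2 π i / p)`. -/
noncomputable def zetaP (p : ℕ) [Fact p.Prime] : ℂ := ZMod.stdAddChar (N := p) 1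

/-- The sum `∑_{j < e} (p ^ j c mod N)`. -/
def valSum (p e : ℕ) {N : ℕ} (c : ZMod N) : ℕ := ∑ j ∈ range e, ((p : ZMod N) ^ j * c).val

end UnrG
end

section

/-!
# A valuation of the complex numbers above `p`
-/

namespace UnrG

open Finset

/-- Hint: `Ideal.image_subset_nonunits_valuationSubring` for the subring `(Int.castRingHom ℂ).range`
and the ideal generated by `p` (proper, since `1 = p * n` is impossible in `ℤ`). -/
theorem exists_valuation (p : ℕ) [hp : Fact p.Prime] :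
    ∃ V : ValuationSubring ℂ, V.valuation (p : ℂ) < 1 := by
  have hmem : (p : ℂ) ∈ (Int.castRingHom ℂ).range := ⟨(p : ℤ), by simp⟩
  set A : Subring ℂ := (Int.castRingHom ℂ).range with hA
  have hI : Ideal.span {(⟨(p : ℂ), hmem⟩ : A)} ≠ ⊤ := by
    intro h
    rw [Ideal.eq_top_iff_one, Ideal.mem_span_singleton'] at h
    obtain ⟨⟨a, ha⟩, hx⟩ := h
    obtain ⟨n, hn⟩ := ha
    have h1 : a * (p : ℂ) = 1 := congrArg Subtype.val hx
    have h2 : ((n * (p : ℤ) : ℤ) : ℂ) = ((1 : ℤ) : ℂ) := by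
      push_cast
      rw [← h1, ← hn]
      simp
    have h3 : n * (p : ℤ) = 1 := Int.cast_injective h2
    have h4 : (p : ℤ) ∣ 1 := ⟨n, by rw [mul_comm]; exact h3.symm⟩
    have h5 : p ∣ 1 := by exact_mod_cast h4
    exact hp.out.one_lt.ne' (Nat.dvd_one.1 h5)
  obtain ⟨V, -, hV⟩ := Ideal.image_subset_nonunits_valuationSubring _ hI
  refine ⟨V, ?_⟩
  rw [← ValuationSubring.mem_nonunits_iff]
  exact hV ⟨⟨(p : ℂ), hmem⟩, Ideal.subset_span rfl, rfl⟩

variable (V : ValuationSubring ℂ)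

/-- Roots of unity are units. Hint: `v z ^ n = 1` in a linearly ordered group with zero. -/
lemma v_root {z : ℂ} {n : ℕ} (hn : 0 < n) (hz : z ^ n = 1) : V.valuation z = 1 := by
  have h : V.valuation z ^ n = 1 := by rw [← map_pow, hz, map_one]
  rcases lt_trichotomy (V.valuation z) 1 with h1 | h1 | h1
  · exact absurd h (pow_lt_one₀ zero_le h1 hn.ne').ne
  · exact h1
  · exact absurd h (one_lt_pow₀ h1 hn.ne').ne'

lemma v_natCast_le (n : ℕ) : V.valuation (n : ℂ) ≤ 1 :=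
  (V.valuation_le_one_iff _).2 (natCast_mem V n)

/-- Hint: if `u n + w p = 1` then `1 ≤ max (v n) (v p)`. -/
lemma v_natCast_coprime {p : ℕ} (hV : V.valuation (p : ℂ) < 1) {n : ℕ} (hn : n.Coprime p) :
    V.valuation (n : ℂ) = 1 := by
  refine le_antisymm (v_natCast_le V n) ?_
  by_contra hlt
  rw [not_le] at hlt
  have hbez := Nat.gcd_eq_gcd_ab n p
  rw [Nat.coprime_iff_gcd_eq_one.1 hn] at hbez
  have hb : (1 : ℂ) = (n : ℂ) * (n.gcdA p : ℂ) + (p : ℂ) * (n.gcdB p : ℂ) := by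
    have := congrArg (fun z : ℤ => (z : ℂ)) hbez
    simpa using this
  have hint : ∀ m : ℤ, V.valuation (m : ℂ) ≤ 1 := fun m =>
    (V.valuation_le_one_iff _).2 (intCast_mem V m)
  have hlt1 : V.valuation ((n : ℂ) * (n.gcdA p : ℂ) + (p : ℂ) * (n.gcdB p : ℂ)) < 1 := by
    refine Valuation.map_add_lt _ ?_ ?_
    · rw [map_mul]
      exact mul_lt_one_of_lt_of_le hlt (hint _)
    · rw [map_mul]
      exact mul_lt_one_of_lt_of_le hV (hint _)
  rw [← hb, map_one] at hlt1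
  exact lt_irrefl _ hlt1

/-- Hint: `∏ (1 - z) = n`, the product over the `n`-th roots of unity `z ≠ 1`
(e.g. evaluate `∑ i < n, X ^ i = ∏ (X - z)` at one, or
`IsPrimitiveRoot.prod_one_sub_pow_eq_order`); all factors have
`v ≤ 1` and `v n = 1`. -/
lemma v_one_sub_root {p : ℕ} (hV : V.valuation (p : ℂ) < 1) {n : ℕ} (hn0 : 0 < n)
    (hn : n.Coprime p) {z : ℂ} (hz : z ^ n = 1) (hz1 : z ≠ 1) : V.valuation (1 - z) = 1 := by
  have hzv : V.valuation z = 1 := v_root V hn0 hz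
  have hle : V.valuation (1 - z) ≤ 1 := by
    refine (Valuation.map_sub _ _ _).trans ?_
    rw [map_one, hzv, max_self]
  refine le_antisymm hle ?_
  have hi : ∀ i : ℕ, V.valuation (1 - z ^ i) ≤ V.valuation (1 - z) := by
    intro i
    have h1 : 1 - z ^ i = (∑ j ∈ range i, z ^ j) * (1 - z) := by
      rw [geom_sum_mul_neg]
    rw [h1, map_mul]
    refine mul_le_of_le_one_left' ?_
    refine Valuation.map_sum_le _ fun j _ => ?_
    rw [map_pow, hzv, one_pow]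
  have hsum : (n : ℂ) = ∑ i ∈ range n, (1 - z ^ i) := by
    rw [Finset.sum_sub_distrib, Finset.sum_const, Finset.card_range, nsmul_eq_mul, mul_one]
    have h2 : (∑ j ∈ range n, z ^ j) * (1 - z) = 0 := by
      rw [geom_sum_mul_neg, hz, sub_self]
    have h3 : (1 - z) ≠ 0 := sub_ne_zero.2 hz1.symm
    have h4 : ∑ j ∈ range n, z ^ j = 0 := (mul_eq_zero.1 h2).resolve_right h3
    rw [h4, sub_zero]
  have hv := v_natCast_coprime V hV hn
  rw [← hv, hsum]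
  exact Valuation.map_sum_le _ fun i _ => hi i

end UnrG
end

section

/-!
# The valuation of `ζ_p - 1`
-/

namespace UnrG

open Finset

lemma zetaP_primitive (p : ℕ) [Fact p.Prime] : IsPrimitiveRoot (zetaP p) p := by
  have hp : p ≠ 0 := (Fact.out : p.Prime).ne_zero
  have h : zetaP p = Complex.exp (2 * Real.pi * Complex.I / p) := by
    have h1 := ZMod.stdAddChar_coe (N := p) 1
    unfold zetaP
    simpa using h1
  rw [h]
  exact Complex.isPrimitiveRoot_exp p hp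

lemma stdAddChar_eq_pow (p : ℕ) [Fact p.Prime] (a : ZMod p) :
    ZMod.stdAddChar (N := p) a = zetaP p ^ a.val := by
  have h : a = a.val • (1 : ZMod p) := by
    rw [nsmul_eq_mul, mul_one, ZMod.natCast_zmod_val]
  conv_lhs => rw [h]
  rw [AddChar.map_nsmul_eq_pow]
  rfl

variable (V : ValuationSubring ℂ)

private lemma S2_one_sub_pow_le {z : ℂ} (hz : V.valuation z ≤ 1) (i : ℕ) :
    V.valuation (1 - z ^ i) ≤ V.valuation (1 - z) := by
  have h1 : 1 - z ^ i = (∑ j ∈ range i, z ^ j) * (1 - z) := by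
    rw [geom_sum_mul_neg]
  rw [h1, map_mul]
  refine mul_le_of_le_one_left' ?_
  refine Valuation.map_sum_le _ fun j _ => ?_
  rw [map_pow]
  exact pow_le_one₀ zero_le hz

private lemma S2_one_sub_pow_eq (p : ℕ) [hp : Fact p.Prime] {j : ℕ} (hj : 0 < j) (hjp : j < p) :
    V.valuation (1 - zetaP p ^ j) = V.valuation (1 - zetaP p) := by
  have hprim := zetaP_primitive p
  have hv : V.valuation (zetaP p) = 1 := v_root V hp.out.pos hprim.pow_eq_one
  refine le_antisymm (S2_one_sub_pow_le V hv.le j) ?_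
  have hcop : j.Coprime p := by
    rw [Nat.coprime_comm, hp.out.coprime_iff_not_dvd]
    exact fun h => absurd (Nat.le_of_dvd hj h) (not_le.2 hjp)
  obtain ⟨i, -, hi⟩ := Nat.exists_mul_mod_eq_one_of_coprime hcop hp.out.one_lt
  have hz : (zetaP p ^ j) ^ i = zetaP p := by
    rw [← pow_mul, ← Nat.mod_add_div (j * i) p, hi, pow_add, pow_mul, hprim.pow_eq_one, one_pow,
      pow_one, mul_one]
  have hv2 : V.valuation (zetaP p ^ j) ≤ 1 := by
    rw [map_pow, hv, one_pow]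
  have := S2_one_sub_pow_le V hv2 i
  rwa [hz] at this

/-- Hint: `∏_{0 < j < p} (1 - ζ ^ j) = p` (`Polynomial.eval_one_cyclotomic_prime`, or
`IsPrimitiveRoot.prod_one_sub_pow_eq_order`), and
`v (1 - ζ ^ j) = v (1 - ζ)`: the quotient `(1 - ζ ^ j) / (1 - ζ) = ∑_{i < j} ζ ^ i` is integral and so
is its inverse since `ζ = (ζ ^ j) ^ i` with `i j = 1` mod `p`. -/
lemma v_zetaP_sub_one_pow (p : ℕ) [Fact p.Prime] :
    V.valuation (zetaP p - 1) ^ (p - 1) = V.valuation (p : ℂ) := by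
  have hp : 0 < p := (Fact.out : p.Prime).pos
  obtain ⟨m, hm⟩ : ∃ m, p = m + 1 := ⟨p - 1, by omega⟩
  have hprim : IsPrimitiveRoot (zetaP p) (m + 1) := hm ▸ zetaP_primitive p
  have hprod := hprim.prod_one_sub_pow_eq_order
  have hcast : (p : ℂ) = (m : ℂ) + 1 := by
    rw [hm]
    push_cast
    rfl
  rw [hcast, ← hprod, map_prod, Valuation.map_sub_swap]
  rw [Finset.prod_congr rfl fun k hk => S2_one_sub_pow_eq V p (Nat.succ_pos k)
    (by have := Finset.mem_range.1 hk; omega), Finset.prod_const, Finset.card_range]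
  congr 1
  omega

lemma v_zetaP_sub_one_lt (p : ℕ) [Fact p.Prime] (hV : V.valuation (p : ℂ) < 1) :
    V.valuation (zetaP p - 1) < 1 := by
  by_contra h
  rw [not_lt] at h
  have h1 := v_zetaP_sub_one_pow V p
  have h2 : 1 ≤ V.valuation (zetaP p - 1) ^ (p - 1) := one_le_pow₀ h
  rw [h1] at h2
  exact absurd hV (not_lt.2 h2)

lemma v_zetaP_sub_one_ne (p : ℕ) [Fact p.Prime] : V.valuation (zetaP p - 1) ≠ 0 := by
  rw [Ne, map_eq_zero, sub_eq_zero]
  exact (zetaP_primitive p).ne_one (Fact.out : p.Prime).one_lt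

end UnrG
end

section

/-!
# The Teichmüller character
-/

namespace UnrG

open Finset

variable (V : ValuationSubring ℂ)

private lemma S3_residue_zero_iff {z : ℂ} (hz : z ∈ V) :
    IsLocalRing.residue V ⟨z, hz⟩ = 0 ↔ V.valuation z < 1 := by
  rw [IsLocalRing.residue_eq_zero_iff, V.valuation_lt_one_iff]

private lemma S3_residue_eq_iff {z w : ℂ} (hz : z ∈ V) (hw : w ∈ V) :
    IsLocalRing.residue V ⟨z, hz⟩ = IsLocalRing.residue V ⟨w, hw⟩ ↔ V.valuation (z - w) < 1 := by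
  rw [← sub_eq_zero, ← map_sub]
  exact S3_residue_zero_iff V (sub_mem hz hw)

private theorem S3_isAlgClosed : IsAlgClosed (IsLocalRing.ResidueField V) := by
  refine IsAlgClosed.of_exists_root _ fun P hP hirr => ?_
  have hlift : P ∈ Polynomial.lifts (IsLocalRing.residue V) := by
    rw [Polynomial.mem_lifts]
    exact Polynomial.map_surjective _ IsLocalRing.residue_surjective P
  obtain ⟨Q, hQ, hdeg, hmon⟩ := Polynomial.lifts_and_natDegree_eq_and_monic hlift hP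
  have hdeg0 : (Q.map (algebraMap V ℂ)).degree ≠ 0 := by
    rw [hmon.degree_map]
    have h1 : Q.natDegree = P.natDegree := hdeg
    have h2 : 0 < P.natDegree := hirr.natDegree_pos
    intro h
    have h3 : Q.natDegree = 0 := Polynomial.natDegree_eq_of_degree_eq_some h
    omega
  obtain ⟨z, hz⟩ := IsAlgClosed.exists_root _ hdeg0
  have hint : IsIntegral V z := ⟨Q, hmon, by
    rw [← Polynomial.eval_map]
    exact hz⟩
  obtain ⟨y, hy⟩ := IsIntegrallyClosed.isIntegral_iff.1 hint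
  refine ⟨IsLocalRing.residue V y, ?_⟩
  rw [← hQ, Polynomial.eval_map, Polynomial.eval₂_at_apply]
  have h4 : Q.eval y = 0 := by
    apply FaithfulSMul.algebraMap_injective V ℂ
    rw [map_zero, ← Polynomial.eval₂_at_apply, hy, ← Polynomial.eval_map]
    exact hz
  rw [h4, map_zero]

/-- Hint: the residue field `κ` of `V` has characteristic `p`, and the polynomial `X ^ q - X` splits
over `κ`: it has the `q` distinct roots `0` and the residues of the `(q - 1)`-th roots of unity of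
`ℂ` (`v_root`, `v_one_sub_root`). As `k` is a splitting field of `X ^ q - X` over `ZMod p`
(`FiniteField.isSplittingField_sub`), it embeds into `κ` (`Polynomial.IsSplittingField.lift`). -/
theorem exists_residue_hom (p : ℕ) [Fact p.Prime] (hV : V.valuation (p : ℂ) < 1) (k : Type)
    [Field k] [Fintype k] [CharP k p] :
    Nonempty (k →+* IsLocalRing.ResidueField V) := by
  have hp0 : ((p : ℕ) : IsLocalRing.ResidueField V) = 0 := by
    have h1 : IsLocalRing.residue V ⟨(p : ℂ), natCast_mem V p⟩ = 0 :=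
      (S3_residue_zero_iff V _).2 hV
    have h2 : (⟨(p : ℂ), natCast_mem V p⟩ : V) = ((p : ℕ) : V) := rfl
    rw [h2, map_natCast] at h1
    exact h1
  have hchar : CharP (IsLocalRing.ResidueField V) p :=
    (CharP.charP_iff_prime_eq_zero (Fact.out : p.Prime)).2 hp0
  have : IsAlgClosed (IsLocalRing.ResidueField V) := S3_isAlgClosed V
  let : Algebra (ZMod p) k := ZMod.algebra k p
  let : Algebra (ZMod p) (IsLocalRing.ResidueField V) := ZMod.algebra _ p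
  have : Algebra.IsAlgebraic (ZMod p) k := Algebra.IsAlgebraic.of_finite (ZMod p) k
  exact ⟨(IsAlgClosed.lift : k →ₐ[ZMod p] IsLocalRing.ResidueField V).toRingHom⟩

/-- The roots of unity of the residue field lift. -/
private lemma S3_exists_lift {n : ℕ} (hn : 0 < n) {y : IsLocalRing.ResidueField V}
    (hy : y ^ n = 1) : ∃ z : ℂ, z ^ n = 1 ∧ ∃ h : z ∈ V, IsLocalRing.residue V ⟨z, h⟩ = y := by
  have hprim := Complex.isPrimitiveRoot_exp n hn.ne'
  have hmem : ∀ z : ℂ, z ^ n = 1 → z ∈ V := fun z hz =>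
    (V.valuation_le_one_iff z).1 (v_root V hn hz).le
  obtain ⟨x, hx⟩ := IsLocalRing.residue_surjective (R := V) y
  have hfac := hprim.pow_sub_pow_eq_prod_sub_mul (x : ℂ) 1 hn
  rw [one_pow] at hfac
  have hlt : V.valuation ((x : ℂ) ^ n - 1) < 1 := by
    have h1 : IsLocalRing.residue V (x ^ n - 1) = 0 := by
      rw [map_sub, map_pow, hx, hy, map_one, sub_self]
    have h2 : (x ^ n - 1 : V) = ⟨(x : ℂ) ^ n - 1, sub_mem (pow_mem x.2 n) (one_mem V)⟩ := rfl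
    rw [h2] at h1
    exact (S3_residue_zero_iff V _).1 h1
  by_contra hcon
  push Not at hcon
  have hall : ∀ z ∈ Polynomial.nthRootsFinset n (1 : ℂ), V.valuation ((x : ℂ) - z * 1) = 1 := by
    intro z hz
    have hz1 : z ^ n = 1 := (Polynomial.mem_nthRootsFinset hn _).1 hz
    have hzV := hmem z hz1
    rw [mul_one]
    refine le_antisymm ((V.valuation_le_one_iff _).2 (sub_mem x.2 hzV)) ?_
    by_contra hlt1
    rw [not_le] at hlt1
    refine hcon z hz1 hzV ?_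
    rw [← hx]
    exact ((S3_residue_eq_iff V x.2 hzV).2 hlt1).symm
  rw [hfac, map_prod, Finset.prod_congr rfl hall, Finset.prod_const_one] at hlt
  exact lt_irrefl _ hlt

private lemma S3_unique {p : ℕ} (hV : V.valuation (p : ℂ) < 1) {n : ℕ} (hn : 0 < n)
    (hnp : n.Coprime p) {z w : ℂ} (hz : z ^ n = 1) (hw : w ^ n = 1)
    (hlt : V.valuation (z - w) < 1) : z = w := by
  by_contra hne
  have hw0 : w ≠ 0 := by
    rintro rfl
    rw [zero_pow hn.ne'] at hw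
    exact zero_ne_one hw
  have ht : (z / w) ^ n = 1 := by rw [div_pow, hz, hw, div_one]
  have ht1 : z / w ≠ 1 := fun h => hne ((div_eq_one_iff_eq hw0).1 h)
  have h1 := v_one_sub_root V hV hn hnp ht ht1
  have h2 : z - w = -(w * (1 - z / w)) := by
    field_simp
    ring
  rw [h2, Valuation.map_neg, map_mul, h1, v_root V hn hw, mul_one] at hlt
  exact lt_irrefl _ hlt

private lemma S3_coprime (p : ℕ) [hp : Fact p.Prime] (k : Type) [Field k] [Fintype k] [CharP k p] :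
    0 < Fintype.card k - 1 ∧ (Fintype.card k - 1).Coprime p := by
  obtain ⟨m, -, hm⟩ := FiniteField.card k p
  have h1 : 1 < Fintype.card k := Fintype.one_lt_card
  refine ⟨by omega, ?_⟩
  rw [Nat.coprime_comm, hp.out.coprime_iff_not_dvd]
  intro h
  have h2 : p ∣ Fintype.card k := by
    rw [hm]
    exact dvd_pow_self p m.ne_zero
  have h3 : p ∣ 1 := by
    have := Nat.dvd_sub h2 h
    rwa [Nat.sub_sub_self h1.le] at this
  exact hp.out.one_lt.ne' (Nat.dvd_one.1 h3)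

/-- Hint: reduction induces a bijection from the `(q - 1)`-th roots of unity of `ℂ` to those of the
residue field (injective by `v_one_sub_root`, and both sets have `q - 1` elements, the second one
since it contains `φ (kˣ)`, or because it has at most `q - 1` elements). For `x ≠ 0` let `ω x` be the
unique `(q - 1)`-th root of unity with residue `φ x`. -/
theorem exists_teichmuller (p : ℕ) [Fact p.Prime] (hV : V.valuation (p : ℂ) < 1) (k : Type)
    [Field k] [Fintype k] [CharP k p] (φ : k →+* IsLocalRing.ResidueField V) :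
    ∃ ω : MulChar k ℂ, ∀ x : k, ∃ h : ω x ∈ V, IsLocalRing.residue V ⟨ω x, h⟩ = φ x := by
  classical
  obtain ⟨hn, hnp⟩ := S3_coprime p k
  set n := Fintype.card k - 1 with hndef
  have hpow : ∀ x : kˣ, φ (x : k) ^ n = 1 := by
    intro x
    rw [← map_pow, FiniteField.pow_card_sub_one_eq_one (x : k) x.ne_zero, map_one]
  choose f hf1 hf2 hf3 using fun x : kˣ => S3_exists_lift V hn (hpow x)
  have huniq : ∀ (x : kˣ) (z : ℂ) (hz : z ∈ V), z ^ n = 1 →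
      IsLocalRing.residue V ⟨z, hz⟩ = φ (x : k) → f x = z := by
    intro x z hz hzn hres
    refine S3_unique V hV hn hnp (hf1 x) hzn ?_
    rw [← S3_residue_eq_iff V (hf2 x) hz, hf3 x, hres]
  have hne : ∀ x, f x ≠ 0 := by
    intro x h
    have := hf1 x
    rw [h, zero_pow hn.ne'] at this
    exact zero_ne_one this
  let F : kˣ →* ℂˣ :=
    { toFun := fun x => Units.mk0 (f x) (hne x)
      map_one' := by
        apply Units.ext
        rw [Units.val_mk0, Units.val_one]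
        refine huniq 1 1 (one_mem V) (one_pow n) ?_
        have : (⟨(1 : ℂ), one_mem V⟩ : V) = 1 := rfl
        rw [this, map_one, Units.val_one, map_one]
      map_mul' := fun x y => by
        apply Units.ext
        rw [Units.val_mul, Units.val_mk0, Units.val_mk0, Units.val_mk0]
        refine huniq (x * y) (f x * f y) (mul_mem (hf2 x) (hf2 y)) ?_ ?_
        · rw [mul_pow, hf1, hf1, one_mul]
        · have : (⟨f x * f y, mul_mem (hf2 x) (hf2 y)⟩ : V) = ⟨f x, hf2 x⟩ * ⟨f y, hf2 y⟩ := rfl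
          rw [this, map_mul, hf3, hf3, Units.val_mul, map_mul] }
  refine ⟨MulChar.ofUnitHom F, fun x => ?_⟩
  by_cases hx : x = 0
  · subst hx
    have h0 : MulChar.ofUnitHom F (0 : k) = 0 := MulChar.map_zero _
    refine ⟨h0 ▸ zero_mem V, ?_⟩
    have h1 : (⟨MulChar.ofUnitHom F (0 : k), h0 ▸ zero_mem V⟩ : V) = 0 := Subtype.ext h0
    rw [h1, map_zero, map_zero]
  · have h1 : MulChar.ofUnitHom F x = f (Units.mk0 x hx) := by
      have := MulChar.ofUnitHom_coe F (Units.mk0 x hx)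
      rw [Units.val_mk0] at this
      exact this
    refine ⟨h1 ▸ hf2 _, ?_⟩
    have h2 : (⟨MulChar.ofUnitHom F x, h1 ▸ hf2 _⟩ : V) = ⟨f (Units.mk0 x hx), hf2 _⟩ :=
      Subtype.ext h1
    rw [h2, hf3, Units.val_mk0]

/-- Hint: if `ω ^ A = 1` then `x ^ A = 1` for all `x ≠ 0`, but the group of units is cyclic of order
`card k - 1`. -/
lemma teichmuller_pow_ne_one {k : Type} [Field k] [Fintype k]
    {φ : k →+* IsLocalRing.ResidueField V} {ω : MulChar k ℂ}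
    (hω : ∀ x : k, ∃ h : ω x ∈ V, IsLocalRing.residue V ⟨ω x, h⟩ = φ x) {A : ℕ} (hA : 0 < A)
    (hA' : A < Fintype.card k - 1) : ω⁻¹ ^ A ≠ 1 := by
  classical
  intro h
  have h1 : ω ^ A = 1 := by
    rw [inv_pow, inv_eq_one] at h
    exact h
  obtain ⟨g, hg⟩ := IsCyclic.exists_generator (α := kˣ)
  have hord : orderOf g = Fintype.card k - 1 := by
    rw [orderOf_eq_card_of_forall_mem_zpowers hg, Nat.card_eq_fintype_card, Fintype.card_units]
  have hgA : g ^ A = 1 := by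
    have h2 : ω ((g : kˣ) : k) ^ A = 1 := by
      rw [← MulChar.pow_apply_coe, h1, MulChar.one_apply_coe]
    obtain ⟨hm, hr⟩ := hω (g : k)
    have h3 : IsLocalRing.residue V (⟨ω (g : k), hm⟩ ^ A) = 1 := by
      have : (⟨ω (g : k), hm⟩ ^ A : V) = 1 := Subtype.ext h2
      rw [this, map_one]
    rw [map_pow, hr, ← map_pow, ← map_one φ] at h3
    have h4 := φ.injective h3
    apply Units.ext
    rw [Units.val_pow_eq_pow_val, Units.val_one]
    exact h4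
  have hdvd := orderOf_dvd_of_pow_eq_one hgA
  rw [hord] at hdvd
  exact absurd (Nat.le_of_dvd hA hdvd) (not_le.2 hA')

end UnrG
end

section

/-!
# Formal properties of the valuations of Gauss sums
-/

namespace UnrG

open Finset

section Frob

variable (p : ℕ) [Fact p.Prime] (k : Type) [Field k] [Fintype k] [Algebra (ZMod p) k]

/-- Hint: the trace is invariant under the Frobenius (`Algebra.trace_eq_of_algEquiv` for
`FiniteField.frobeniusAlgEquiv`, or `FiniteField.algebraMap_trace_eq_sum_pow`). -/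
lemma trChar_pow (x : k) : trChar p k (x ^ p) = trChar p k x := by
  rw [trChar_apply, trChar_apply]
  congr 1
  have h := Algebra.trace_eq_of_algEquiv
    (FiniteField.frobeniusAlgEquivOfAlgebraic (ZMod p) k) x
  rw [FiniteField.coe_frobeniusAlgEquivOfAlgebraic] at h
  simpa only [ZMod.card] using h

private lemma pow_bij : Function.Bijective fun x : k => x ^ p := by
  have h := (FiniteField.frobeniusAlgEquivOfAlgebraic (ZMod p) k).bijective
  rw [FiniteField.coe_frobeniusAlgEquivOfAlgebraic] at h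
  simpa only [ZMod.card] using h

/-- Hint: `∑ χ x ^ p * ψ x = ∑ χ (x ^ p) * ψ (x ^ p)`, and `x ↦ x ^ p` is bijective. -/
lemma gaussSum_pow_char (χ : MulChar k ℂ) :
    gaussSum (χ ^ p) (trChar p k) = gaussSum χ (trChar p k) := by
  unfold gaussSum
  refine Fintype.sum_bijective (fun x : k => x ^ p) (pow_bij p k) _ _ fun x => ?_
  rw [trChar_pow, map_pow, MulChar.pow_apply' _ (Fact.out : p.Prime).ne_zero]

lemma gaussSum_pow_pow_char (χ : MulChar k ℂ) (i : ℕ) :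
    gaussSum (χ ^ p ^ i) (trChar p k) = gaussSum χ (trChar p k) := by
  induction i with
  | zero => rw [pow_zero, pow_one]
  | succ i ih => rw [pow_succ, pow_mul, gaussSum_pow_char, ih]

/-- Hint: the trace form is nondegenerate (`FiniteField.trace_to_zmod_nondegenerate`), and a
nontrivial additive character of a field is primitive (`AddChar.IsPrimitive.of_ne_one`). -/
lemma trChar_primitive : (trChar p k).IsPrimitive := by
  refine AddChar.IsPrimitive.of_ne_one fun h => ?_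
  obtain ⟨x, hx⟩ := Algebra.trace_surjective (ZMod p) k 1
  have h1 : trChar p k x = 1 := by rw [h, AddChar.one_apply]
  rw [trChar_apply, hx] at h1
  have h2 : ZMod.stdAddChar (N := p) 1 = ZMod.stdAddChar (N := p) 0 := by
    rw [h1, AddChar.map_zero_eq_one]
  exact one_ne_zero (ZMod.injective_stdAddChar h2)

end Frob

section Val

variable (V : ValuationSubring ℂ) {k : Type} [Field k] [Fintype k]

lemma v_mulChar_unit (χ : MulChar k ℂ) {x : k} (hx : x ≠ 0) : V.valuation (χ x) = 1 := by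
  have hc : 0 < Fintype.card k - 1 := by
    have := Fintype.one_lt_card (α := k)
    omega
  refine v_root V hc ?_
  rw [← map_pow, FiniteField.pow_card_sub_one_eq_one x hx, map_one]

/-- Values of multiplicative characters and Jacobi sums are integral (roots of unity: `v_root`). -/
lemma v_mulChar_le (χ : MulChar k ℂ) (x : k) : V.valuation (χ x) ≤ 1 := by
  rcases eq_or_ne x 0 with rfl | hx
  · rw [MulChar.map_zero, map_zero]
    exact zero_le_one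
  · exact (v_mulChar_unit V χ hx).le

lemma v_jacobiSum_le (χ φ : MulChar k ℂ) : V.valuation (jacobiSum χ φ) ≤ 1 := by
  unfold jacobiSum
  refine Valuation.map_sum_le _ fun x _ => ?_
  rw [map_mul]
  exact mul_le_one' (v_mulChar_le V χ _) (v_mulChar_le V φ _)

/-- Hint: `jacobiSum_mul_nontrivial`. -/
lemma v_gaussSum_mul_le {χ φ : MulChar k ℂ} (h : χ * φ ≠ 1) (ψ : AddChar k ℂ) :
    V.valuation (gaussSum χ ψ) * V.valuation (gaussSum φ ψ) ≤ V.valuation (gaussSum (χ * φ) ψ) := by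
  rw [← map_mul, ← jacobiSum_mul_nontrivial h ψ, map_mul]
  exact mul_le_of_le_one_right' (v_jacobiSum_le V χ φ)

/-- Hint: `gaussSum_mul_gaussSum_eq_card`, `mul_gaussSum_inv_eq_gaussSum`. -/
lemma v_gaussSum_mul_inv {χ : MulChar k ℂ} (h : χ ≠ 1) {ψ : AddChar k ℂ} (hψ : ψ.IsPrimitive) :
    V.valuation (gaussSum χ ψ) * V.valuation (gaussSum χ⁻¹ ψ) =
      V.valuation (Fintype.card k : ℂ) := by
  rw [← mul_gaussSum_inv_eq_gaussSum χ⁻¹ ψ, map_mul,
    v_mulChar_unit V χ⁻¹ (neg_ne_zero.2 one_ne_zero), one_mul, ← map_mul,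
    gaussSum_mul_gaussSum_eq_card h hψ]

end Val

end UnrG
end

section

/-!
# Valuations of Jacobi sums and Gauss sums
-/

namespace UnrG

open Finset

private lemma N2_pow_mul {k : Type} [Field k] [Fintype k] {N : ℕ} [NeZero N] {χ : MulChar k ℂ}
    (hχ : orderOf χ = N) (a b : ZMod N) : χ ^ a.val * χ ^ b.val = χ ^ (a + b).val := by
  rw [← pow_add, ZMod.val_add]
  conv_lhs => rw [← pow_mod_orderOf, hχ]

private lemma N2_ne_one {k : Type} [Field k] [Fintype k] {N : ℕ} [NeZero N] {χ : MulChar k ℂ}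
    (hχ : orderOf χ = N) {a : ZMod N} (ha : a ≠ 0) : χ ^ a.val ≠ 1 := by
  intro h
  have h1 := orderOf_dvd_of_pow_eq_one h
  rw [hχ] at h1
  have h2 := Nat.eq_zero_of_dvd_of_lt h1 (ZMod.val_lt a)
  exact ha ((ZMod.val_eq_zero a).mp h2)

private lemma N2_inv {k : Type} [Field k] [Fintype k] {N : ℕ} [NeZero N] {χ : MulChar k ℂ}
    (hχ : orderOf χ = N) {a b : ZMod N} (hab : a + b = 0) : (χ ^ a.val)⁻¹ = χ ^ b.val := by
  rw [inv_eq_iff_mul_eq_one, N2_pow_mul hχ, hab, ZMod.val_zero, pow_zero]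

/-- Proof: `J (χ ^ B, χ ^ A) g (χ ^ (B + A)) = g (χ ^ B) g (χ ^ A)` (`jacobiSum_mul_nontrivial`), multiply
by `g (χ ^ (-(B + A)))` and use `v_gaussSum_mul_inv` (PF/S5). (`χ ^ a.val * χ ^ b.val = χ ^ (a + b).val`
because `χ ^ N = 1`; see `s9_pow_mul`, `s9_ne_one`, `s9_inv` in PF/S9.) -/
theorem v_jacobi_triple (V : ValuationSubring ℂ) {k : Type} [Field k] [Fintype k]
    {ψ : AddChar k ℂ} (hψ : ψ.IsPrimitive) {N : ℕ} [NeZero N] (χ : MulChar k ℂ)
    (hχ : orderOf χ = N) {B A : ZMod N} (hC : B + A ≠ 0) :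
    V.valuation (jacobiSum (χ ^ B.val) (χ ^ A.val)) * V.valuation (Fintype.card k : ℂ) =
      ∏ c, V.valuation (gaussSum (χ ^ (tripE B A c).val) ψ) := by
  rw [Fin.prod_univ_three]
  have e0 : tripE B A 0 = B := rfl
  have e1 : tripE B A 1 = A := rfl
  have e2 : tripE B A 2 = -(B + A) := rfl
  rw [e0, e1, e2]
  have h1 : χ ^ B.val * χ ^ A.val ≠ 1 := by
    rw [N2_pow_mul hχ]
    exact N2_ne_one hχ hC
  have h2 := congrArg V.valuation (jacobiSum_mul_nontrivial h1 ψ)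
  rw [N2_pow_mul hχ, map_mul, map_mul] at h2
  have h3 : V.valuation (gaussSum (χ ^ (B + A).val) ψ) *
      V.valuation (gaussSum (χ ^ (-(B + A)).val) ψ) = V.valuation (Fintype.card k : ℂ) := by
    rw [← N2_inv hχ (add_neg_cancel (B + A))]
    exact v_gaussSum_mul_inv V (N2_ne_one hχ hC) hψ
  rw [← h2, ← h3, ← mul_assoc]
  congr 1
  exact mul_comm _ _

end UnrG
end
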