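import Pool.Agent.Lib.MP_859dd5_ag.Mg.G071
import Pool.Agent.Lib.MP_859dd5_ag.Mg.G068
import Pool.Agent.Lib.MP_859dd5_ag.Mg.G069
import Pool.Agent.Lib.MP_859dd5_ag.Mg.G009
import Pool.Agent.Lib.MP_859dd5_ag.PQ.E0
import Pool.Agent.Lib.MP_859dd5_ag.Mg.G003
import Pool.Agent.Lib.MP_859dd5_ag.PP.E0

section

section

/-!
# Four Jacobi sums with product the square of the order of the field
-/

namespace UnrG

private lemma N5_sum {N n : ℕ} (f : ZMod N → ℕ) (T : Fin n → Fin 3 → ZMod N) :
    ((∑ j, Multiset.map (T j) Finset.univ.val).map f).sum = ∑ j, ∑ i, f (T j i) := by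
  have h : ∀ s : Finset (Fin n), ((∑ j ∈ s, Multiset.map (T j) Finset.univ.val).map f).sum =
      ∑ j ∈ s, ∑ i, f (T j i) := by
    intro s
    classical
    induction s using Finset.induction_on with
    | empty => simp
    | insert a s ha ih =>
      rw [Finset.sum_insert ha, Finset.sum_insert ha, Multiset.map_add, Multiset.sum_add, ih,
        Multiset.map_map]
      rfl
  exact h Finset.univ

private lemma N5_mem {N n : ℕ} (T : Fin n → Fin 3 → ZMod N) {x : ZMod N}
    (hx : x ∈ ∑ j, Multiset.map (T j) Finset.univ.val) : ∃ j i, T j i = x := by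
  have h : ∀ s : Finset (Fin n), x ∈ ∑ j ∈ s, Multiset.map (T j) Finset.univ.val →
      ∃ j i, T j i = x := by
    intro s
    classical
    induction s using Finset.induction_on with
    | empty => intro h; simp at h
    | insert a s ha ih =>
      intro h
      rw [Finset.sum_insert ha, Multiset.mem_add] at h
      rcases h with h | h
      · obtain ⟨i, _, hi⟩ := Multiset.mem_map.1 h
        exact ⟨a, i, hi⟩
      · exact ih h
  exact h _ hx

private lemma N5_trip_ne {N : ℕ} {B A : ZMod N} (hB : B ≠ 0) (hA : A ≠ 0) (hC : B + A ≠ 0)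
    (i : Fin 3) : tripE B A i ≠ 0 := by
  unfold tripE
  fin_cases i
  · simpa using hB
  · simpa using hA
  · simpa using neg_ne_zero.2 hC

/-- Proof: `bal_of_valSum` with `C = (n + c) * e * N` and `sum_valSum_prod`; the multiset
`∑ j, map (tripE (B j) (A j)) univ.val` (`Multiset.map_sum`-type lemmas, `Finset.sum_val`-type lemmas);
`p ≠ 0` in `ZMod N` because `N ∣ p ^ e - 1` (see the proof of `twistedPairs_of_jacobi` in PF/N9). -/
theorem bal_of_jacobi (p : ℕ) [Fact p.Prime] {k : Type} [Field k] [Fintype k] [CharP k p]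
    {N : ℕ} (hN : N.Prime) {e : ℕ} (hcard : Fintype.card k = p ^ e) {n c : ℕ}
    {B A : Fin n → ZMod N} (hB : ∀ j, B j ≠ 0) (hA : ∀ j, A j ≠ 0) (hC : ∀ j, B j + A j ≠ 0)
    (χ : MulChar k ℂ) (hχ : orderOf χ = N)
    (hJ : ∏ j, jacobiSum (χ ^ (B j).val) (χ ^ (A j).val) = (Fintype.card k : ℂ) ^ c) :
    (p : ZMod N) ^ e = 1 ∧
      Bal p e (∑ j, Multiset.map (tripE (B j) (A j)) Finset.univ.val) := by
  have : Fact N.Prime := ⟨hN⟩
  have he : e ≠ 0 := by
    rintro rfl
    have h1 : 1 < Fintype.card k := Fintype.one_lt_card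
    rw [hcard, pow_zero] at h1
    exact lt_irrefl _ h1
  have hdvd : N ∣ Fintype.card k - 1 := hχ ▸ MulChar.orderOf_dvd_card_sub_one (F := k) (χ := χ)
  have h1le : 1 ≤ Fintype.card k := Fintype.card_pos
  have hcast : ((Fintype.card k : ℕ) : ZMod N) = 1 := by
    have h0 : ((Fintype.card k - 1 : ℕ) : ZMod N) = 0 := (ZMod.natCast_eq_zero_iff _ _).mpr hdvd
    rw [Nat.cast_sub h1le, Nat.cast_one, sub_eq_zero] at h0
    exact h0
  have hpe : (p : ZMod N) ^ (e : ℕ) = 1 := by
    rw [← Nat.cast_pow, ← hcard, hcast]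
  have hp0 : (p : ZMod N) ≠ 0 := by
    intro h0
    rw [h0, zero_pow he] at hpe
    exact zero_ne_one hpe
  refine ⟨hpe, bal_of_valSum hp0 ?_ ((n + c) * e * N) ?_⟩
  · intro x hx
    obtain ⟨j, i, rfl⟩ := N5_mem (fun j => tripE (B j) (A j)) hx
    exact N5_trip_ne (hB j) (hA j) (hC j) i
  · intro t
    rw [N5_sum (fun x => valSum p e ((t : ZMod N) * x)) (fun j => tripE (B j) (A j))]
    exact sum_valSum_prod p hN hcard hB hA hC χ hχ hJ t

end UnrG
end

section

/-!
# Degenerate exponents
-/

namespace UnrG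

universe u v w

open Polynomial Finset
open scoped Classical

variable {N : ℕ} {F E : Type u} [Field F] [Field E] [Algebra F E] {r n : ℕ} {t : Fin r → E}
  {X : Fin n → E} {D W : E} {B A : Fin n → ZMod N}

/-- Hint: `X j` is transcendental (`h.ind`). -/
lemma CycProdD.X_ne (h : CycProdD N (F := F) t X D W B A) (j : Fin n) : X j ≠ 0 ∧ 1 - X j ≠ 0 := by
  have h1 : Transcendental F (X j) := h.ind.transcendental (Sum.inr j)
  constructor
  · intro h2
    apply h1
    rw [h2]
    exact isAlgebraic_zero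
  · intro h2
    apply h1
    rw [← sub_eq_zero.1 h2]
    exact isAlgebraic_one

/-- If one factor depends on one coordinate `P ∈ {X_j, 1 - X_j, X_j / (1 - X_j)}` only, with exponent
prime to `N`, then the field is purely transcendental. Proof: by `mono_trick` (PF/G6), for the
subfield `T` generated by `t` and the `X_i`, `i ≠ j`, and `W / g`, `P`, there is `y` with
`T ⊔ adjoin {W / g, P} = T ⊔ adjoin {y}`, and this is everything (`X j` lies in `F(P)`, `hXP`; `g` lies in
`T(P)`). The family `t`, `X_i` (`i ≠ j`), `y`, i.e. `Sum.elim t (Function.update X j y)`, generates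
`E`; it is independent by `indep_of_trdeg` (PF/G1b), compare with `h.ind`. -/
theorem CycProdD.isPurely_aux (h : CycProdD N (F := F) t X D W B A) (hN : 0 < N) (j : Fin n)
    {P c g : E} {k : ℕ} (hk : k.Coprime N)
    (hc : c ∈ IntermediateField.adjoin F (Set.range t ∪ X '' {i | i ≠ j})) (hc0 : c ≠ 0)
    (hP : P ≠ 0) (hg0 : g ≠ 0) (hg : g ∈ IntermediateField.adjoin F {P})
    (hXP : X j ∈ IntermediateField.adjoin F {P}) (hW : (W / g) ^ N = c * P ^ k) :
    ∃ (s : ℕ) (v : Fin s → E), AlgebraicIndependent F v ∧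
      IntermediateField.adjoin F (Set.range v) = ⊤ := by
  obtain ⟨y, hy⟩ := mono_trick (IntermediateField.adjoin F (Set.range t ∪ X '' {i | i ≠ j})) hN hk
    hc hc0 hP hW
  have hPle : IntermediateField.adjoin F {P} ≤
      IntermediateField.adjoin F (Set.range t ∪ X '' {i | i ≠ j}) ⊔
        IntermediateField.adjoin F {W / g, P} := by
    refine le_trans ?_ le_sup_right
    exact IntermediateField.adjoin.mono F _ _ (fun z hz => Or.inr hz)
  have htop : IntermediateField.adjoin F (Set.range t ∪ X '' {i | i ≠ j}) ⊔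
      IntermediateField.adjoin F {y} = ⊤ := by
    rw [← hy, eq_top_iff, ← h.gen, IntermediateField.adjoin_le_iff]
    rintro z ((⟨i, rfl⟩ | ⟨i, rfl⟩) | hz)
    · exact (le_sup_left : IntermediateField.adjoin F (Set.range t ∪ X '' {i | i ≠ j}) ≤ _)
        (IntermediateField.subset_adjoin F _ (Or.inl ⟨i, rfl⟩))
    · by_cases hij : i = j
      · subst hij
        exact hPle hXP
      · exact (le_sup_left : IntermediateField.adjoin F (Set.range t ∪ X '' {i | i ≠ j}) ≤ _)
          (IntermediateField.subset_adjoin F _ (Or.inr ⟨i, hij, rfl⟩))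
    · rw [Set.mem_singleton_iff] at hz
      subst hz
      have h1 : z / g * g ∈ IntermediateField.adjoin F (Set.range t ∪ X '' {i | i ≠ j}) ⊔
          IntermediateField.adjoin F {z / g, P} :=
        mul_mem ((le_sup_right : IntermediateField.adjoin F {z / g, P} ≤ _)
          (IntermediateField.subset_adjoin F _ (Or.inl rfl))) (hPle hg)
      rwa [div_mul_cancel₀ _ hg0] at h1
  have hgen : IntermediateField.adjoin F (Set.range (Sum.elim t (Function.update X j y))) = ⊤ := by
    rw [eq_top_iff, ← htop, sup_le_iff]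
    constructor
    · rw [IntermediateField.adjoin_le_iff]
      rintro z (⟨i, rfl⟩ | ⟨i, hi, rfl⟩)
      · exact IntermediateField.subset_adjoin F _ ⟨Sum.inl i, rfl⟩
      · exact IntermediateField.subset_adjoin F _ ⟨Sum.inr i, Function.update_of_ne hi _ _⟩
    · rw [IntermediateField.adjoin_simple_le_iff]
      exact IntermediateField.subset_adjoin F _ ⟨Sum.inr j, Function.update_self _ _ _⟩
  have hind : AlgebraicIndependent F (Sum.elim t (Function.update X j y)) := by
    refine indep_of_trdeg h.ind fun z => ?_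
    have hz : z ∈ IntermediateField.adjoin F
        (Set.range (Sum.elim t (Function.update X j y))) := by
      rw [hgen]
      exact IntermediateField.mem_top
    exact isAlgebraic_algebraMap (⟨z, hz⟩ : IntermediateField.adjoin F
        (Set.range (Sum.elim t (Function.update X j y))))
  refine ⟨r + n, Sum.elim t (Function.update X j y) ∘ finSumFinEquiv.symm,
    hind.comp _ finSumFinEquiv.symm.injective, ?_⟩
  rw [Set.range_comp, finSumFinEquiv.symm.surjective.range_eq, Set.image_univ]
  exact hgen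

end UnrG
end

section

/-!
# Products of Fermat curves: the subfields
-/

namespace UnrG

universe u v w

open Finset

variable {𝔽 : Type w} [Field 𝔽] [Fintype 𝔽] (b : Base 𝔽)

/-- The subfield generated by `t`, the `x_j ^ N` and the monomial with exponents `B`, `A`. -/
def fieldG (F : Type u) {M : Type u} [Field F] [Field M] [Algebra F M] {r n : ℕ}
    (t : Fin r → M) (x y : Fin n → M) (B A : Fin n → ZMod b.N) : IntermediateField F M :=
  IntermediateField.adjoin F (Set.range t ∪ Set.range (fun j => x j ^ b.N) ∪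
    {mono x y (fun j => (B j).val) (fun j => (A j).val)})

/-- The subfield generated by `t` and the `x_j ^ N`. -/
def fieldX (F : Type u) {M : Type u} [Field F] [Field M] [Algebra F M] {r n : ℕ}
    (t : Fin r → M) (x : Fin n → M) : IntermediateField F M :=
  IntermediateField.adjoin F (Set.range t ∪ Set.range (fun j => x j ^ b.N))

/-- The Frobenius of `M` relative to `t`, `x`, `y`. -/
structure ProdFrob (q : ℕ) (F : Type u) {M : Type u} [Field F] [Field M] [Algebra F M] {r n : ℕ}
    (t : Fin r → M) (x y : Fin n → M) (σ : M →+* M) : Prop where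
  const : ∀ a : F, σ (algebraMap F M a) = algebraMap F M a ^ q
  ft : ∀ i, σ (t i) = t i
  fx : ∀ j, σ (x j) = x j
  fy : ∀ j, σ (y j) = y j

end UnrG
end

section

/-!
# Products of Fermat curves: the monomial subfields
-/

namespace UnrG

universe u v w

open Polynomial Finset
open scoped Classical

variable {𝔽 : Type w} [Field 𝔽] [Fintype 𝔽] (b : Base 𝔽)

variable {F M : Type u} [Field F] [Field M] [Algebra F M] {r n : ℕ} {t : Fin r → M}
  {x y : Fin n → M}

/-- Hint: `x j` is transcendental over `F`, and `y j ^ N = 1 - x j ^ N`. -/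
lemma ProdData.ne (h : ProdData (F := F) b t x y) (j : Fin n) : x j ≠ 0 ∧ y j ≠ 0 := by
  have h1 : Transcendental F (x j) := h.ind.transcendental (Sum.inr j)
  constructor
  · intro h0
    rw [h0] at h1
    exact h1 isAlgebraic_zero
  · intro h0
    have h2 := h.eq j
    rw [h0, zero_pow b.N_pos.ne', add_zero] at h2
    have h3 : IsAlgebraic F (x j ^ b.N) := by
      rw [h2]
      exact isAlgebraic_one
    exact h1 (h3.of_pow b.N_pos)

/-- The powers `x_j ^ N` are independent. Hint: `indep_of_trdeg` (PF/G1b), compare with `h.ind`: all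
elements of `M` are algebraic over the field generated by `t` and the `x_j ^ N` (`h.gen`,
`x_j`, `y_j` are roots of `X ^ N - x_j ^ N`, `X ^ N - (1 - x_j ^ N)`). -/
lemma ProdData.ind_pow (h : ProdData (F := F) b t x y) :
    AlgebraicIndependent F (Sum.elim t (fun j => x j ^ b.N)) := by
  obtain ⟨K₀, hK₀⟩ : ∃ K₀ : IntermediateField F M,
      K₀ = IntermediateField.adjoin F (Set.range (Sum.elim t (fun j => x j ^ b.N))) := ⟨_, rfl⟩
  have hx : ∀ j, x j ^ b.N ∈ K₀ := fun j => by
    rw [hK₀]
    exact IntermediateField.subset_adjoin F _ ⟨Sum.inr j, rfl⟩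
  have ht : ∀ i, t i ∈ K₀ := fun i => by
    rw [hK₀]
    exact IntermediateField.subset_adjoin F _ ⟨Sum.inl i, rfl⟩
  have hy : ∀ j, y j ^ b.N ∈ K₀ := fun j => by
    have h1 : y j ^ b.N = 1 - x j ^ b.N := by
      rw [← h.eq j]
      ring
    rw [h1]
    exact sub_mem (one_mem _) (hx j)
  have hpow : ∀ z : M, z ^ b.N ∈ K₀ → IsAlgebraic K₀ z := by
    intro z hz
    have h1 : IsAlgebraic K₀ (z ^ b.N) := isAlgebraic_algebraMap (⟨z ^ b.N, hz⟩ : K₀)
    exact h1.of_pow b.N_pos
  refine indep_of_trdeg h.ind fun z => ?_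
  rw [← hK₀]
  have h2 : (⊤ : IntermediateField F M) ≤ (algebraicClosure K₀ M).restrictScalars F := by
    rw [← h.gen, IntermediateField.adjoin_le_iff]
    rintro w ((⟨i, rfl⟩ | ⟨j, rfl⟩) | ⟨j, rfl⟩)
    · exact mem_algebraicClosure_iff.2 (isAlgebraic_algebraMap (⟨t i, ht i⟩ : K₀))
    · exact mem_algebraicClosure_iff.2 (hpow _ (hx j))
    · exact mem_algebraicClosure_iff.2 (hpow _ (hy j))
  exact mem_algebraicClosure_iff.1 (h2 (IntermediateField.mem_top (x := z)))

/-- Hint: the elements `t`, `x_j ^ N`, the monomial lie in `fieldG`; see `exists_cycData` in PF/D2 for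
the conversion to the subtype. `mono ^ N = ∏ (x_j ^ N) ^ B_j (1 - x_j ^ N) ^ A_j`. -/
theorem ProdData.cycProd (h : ProdData (F := F) b t x y) (B A : Fin n → ZMod b.N) :
    ∃ (t' : Fin r → fieldG b F t x y B A) (X' : Fin n → fieldG b F t x y B A)
      (W' : fieldG b F t x y B A), (∀ i, (t' i : M) = t i) ∧ (∀ j, (X' j : M) = x j ^ b.N) ∧
      (W' : M) = mono x y (fun j => (B j).val) (fun j => (A j).val) ∧
      CycProd b.N (F := F) t' X' W' B A := by
  obtain ⟨T, hT⟩ : ∃ T, T = fieldG b F t x y B A := ⟨_, rfl⟩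
  rw [← hT]
  have ht : ∀ i, t i ∈ T := fun i => by
    rw [hT]
    exact IntermediateField.subset_adjoin F _ (Or.inl (Or.inl ⟨i, rfl⟩))
  have hX : ∀ j, x j ^ b.N ∈ T := fun j => by
    rw [hT]
    exact IntermediateField.subset_adjoin F _ (Or.inl (Or.inr ⟨j, rfl⟩))
  have hW : mono x y (fun j => (B j).val) (fun j => (A j).val) ∈ T := by
    rw [hT]
    exact IntermediateField.subset_adjoin F _ (Or.inr rfl)
  refine ⟨fun i => ⟨t i, ht i⟩, fun j => ⟨x j ^ b.N, hX j⟩,
    ⟨mono x y (fun j => (B j).val) (fun j => (A j).val), hW⟩, fun _ => rfl, fun _ => rfl, rfl,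
    ?_, ?_, ?_⟩
  · apply AlgebraicIndependent.of_comp (IntermediateField.val T)
    have h3 := h.ind_pow b
    have h5 : (IntermediateField.val T) ∘ (Sum.elim (fun i => (⟨t i, ht i⟩ : T))
        (fun j => (⟨x j ^ b.N, hX j⟩ : T))) = Sum.elim t (fun j => x j ^ b.N) := by
      funext i
      rcases i with i | i <;> rfl
    rw [h5]
    exact h3
  · apply Subtype.ext
    have h5 : (((∏ j, ((⟨x j ^ b.N, hX j⟩ : T) ^ (B j).val *
        (1 - (⟨x j ^ b.N, hX j⟩ : T)) ^ (A j).val) : T)) : M) =
        ∏ j, ((x j ^ b.N) ^ (B j).val * (1 - x j ^ b.N) ^ (A j).val) := by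
      rw [SubmonoidClass.coe_finsetProd]
      rfl
    rw [h5]
    change mono x y (fun j => (B j).val) (fun j => (A j).val) ^ b.N = _
    unfold mono
    rw [← Finset.prod_pow]
    refine Finset.prod_congr rfl fun j _ => ?_
    have h1 : 1 - x j ^ b.N = y j ^ b.N := by
      rw [← h.eq j]
      ring
    rw [h1, mul_pow, ← pow_mul, ← pow_mul, ← pow_mul, ← pow_mul, mul_comm (B j).val,
      mul_comm (A j).val]
  · apply IntermediateField.lift_injective T
    rw [IntermediateField.lift_top, IntermediateField.lift_adjoin]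
    have h5 : Subtype.val '' ((Set.range fun i => (⟨t i, ht i⟩ : T)) ∪
        (Set.range fun j => (⟨x j ^ b.N, hX j⟩ : T)) ∪
        {(⟨mono x y (fun j => (B j).val) (fun j => (A j).val), hW⟩ : T)}) =
        Set.range t ∪ Set.range (fun j => x j ^ b.N) ∪
          {mono x y (fun j => (B j).val) (fun j => (A j).val)} := by
      rw [Set.image_union, Set.image_union, ← Set.range_comp, ← Set.range_comp,
        Set.image_singleton]
      rfl
    rw [h5, hT]
    rfl

/-- Hint: `fieldG` is stable under `σ` (it maps each generator and each constant into the field); as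
`SigmaL.exists_restrict` in K/D6. -/
theorem ProdFrob.exists_restrict {σ : M →+* M} {q : ℕ} (hσ : ProdFrob q F t x y σ)
    (B A : Fin n → ZMod b.N) :
    ∃ σ' : fieldG b F t x y B A →+* fieldG b F t x y B A, ∀ z, (σ' z : M) = σ z := by
  have hc : ∀ z ∈ fieldG b F t x y B A, σ z ∈ fieldG b F t x y B A := by
    have h1 : (fieldG b F t x y B A).toSubfield ≤
        ((fieldG b F t x y B A).toSubfield).comap σ := by
      conv_lhs => unfold fieldG
      rw [IntermediateField.adjoin_toSubfield, Subfield.closure_le]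
      rintro y (⟨c, rfl⟩ | ((⟨i, rfl⟩ | ⟨i, rfl⟩) | hy))
      · change σ (algebraMap F M c) ∈ fieldG b F t x _ B A
        rw [hσ.const]
        exact pow_mem (algebraMap_mem _ _) _
      · change σ (t i) ∈ fieldG b F t x _ B A
        rw [hσ.ft]
        exact IntermediateField.subset_adjoin F _ (Or.inl (Or.inl ⟨i, rfl⟩))
      · change σ (x i ^ b.N) ∈ fieldG b F t x _ B A
        rw [map_pow, hσ.fx]
        exact IntermediateField.subset_adjoin F _ (Or.inl (Or.inr ⟨i, rfl⟩))
      · rw [Set.mem_singleton_iff] at hy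
        subst hy
        change σ (mono x _ (fun j => (B j).val) (fun j => (A j).val)) ∈ fieldG b F t x _ B A
        unfold mono
        rw [map_prod]
        have h2 : ∀ j, σ (x j ^ (B j).val * y j ^ (A j).val) =
            x j ^ (B j).val * y j ^ (A j).val := by
          intro j
          rw [map_mul, map_pow, map_pow, hσ.fx, hσ.fy]
        rw [Finset.prod_congr rfl fun j _ => h2 j]
        exact IntermediateField.subset_adjoin F _ (Or.inr rfl)
    exact fun y hy => h1 hy
  exact ⟨(σ.comp (algebraMap (fieldG b F t x y B A) M)).codRestrict (fieldG b F t x y B A)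
    (fun z => hc z z.2), fun z => rfl⟩

end UnrG
end

section

/-!
# Families of products of Fermat curves: the monomial subfields
-/

namespace UnrG

universe u v w

open Polynomial Finset
open scoped Classical

/-- `L` is the function field over `F` of the family with base the affine space with coordinates `t`,
whose fibres are the products of the `n` curves `u_j x_j ^ N + v_j y_j ^ N = 1`, where `u_j`, `v_j` are
nonzero elements of `F(t)`. -/
structure IsFermatFamily (N : ℕ) {F L : Type u} [Field F] [Field L] [Algebra F L] {r n : ℕ}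
    (t : Fin r → L) (u v x y : Fin n → L) : Prop where
  left_mem : ∀ j, u j ∈ IntermediateField.adjoin F (Set.range t)
  right_mem : ∀ j, v j ∈ IntermediateField.adjoin F (Set.range t)
  left_ne : ∀ j, u j ≠ 0
  right_ne : ∀ j, v j ≠ 0
  equation : ∀ j, u j * x j ^ N + v j * y j ^ N = 1
  independent : AlgebraicIndependent F (Sum.elim t x)
  generate : IntermediateField.adjoin F (Set.range t ∪ Set.range x ∪ Set.range y) = ⊤

variable {𝔽 : Type w} [Field 𝔽] [Fintype 𝔽] (b : Base 𝔽)

variable {F M : Type u} [Field F] [Field M] [Algebra F M] {r n : ℕ} {t : Fin r → M}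
  {u v x y : Fin n → M}

lemma IsFermatFamily.ne (h : IsFermatFamily b.N (F := F) t u v x y) (j : Fin n) :
    x j ≠ 0 ∧ y j ≠ 0 := by
  have h0 : Transcendental F (x j) := h.independent.transcendental (Sum.inr j)
  constructor
  · intro h1
    rw [h1] at h0
    exact h0 isAlgebraic_zero
  · intro h1
    obtain ⟨T, hT⟩ : ∃ T : IntermediateField F M, T = IntermediateField.adjoin F
        ((Sum.elim t x) '' ({Sum.inr j}ᶜ : Set (Fin r ⊕ Fin n))) := ⟨_, rfl⟩
    have h2 : Transcendental T (x j) := by
      rw [hT, IntermediateField.transcendental_adjoin_iff]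
      exact h.independent.transcendental_adjoin (s := {Sum.inr j}ᶜ) (i := Sum.inr j) (by simp)
    have h3 : IntermediateField.adjoin F (Set.range t) ≤ T := by
      rw [hT]
      refine IntermediateField.adjoin.mono F _ _ ?_
      rintro z ⟨i, rfl⟩
      exact ⟨Sum.inl i, by simp, rfl⟩
    have h4 := h.equation j
    rw [h1, zero_pow b.N_pos.ne', mul_zero, add_zero] at h4
    have h5 : x j ^ b.N = (u j)⁻¹ := eq_inv_of_mul_eq_one_right h4
    have h6 : x j ^ b.N ∈ T := by
      rw [h5]
      exact inv_mem (h3 (h.left_mem j))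
    have h7 : IsAlgebraic T (x j ^ b.N) := isAlgebraic_algebraMap (⟨x j ^ b.N, h6⟩ : T)
    exact h2 (h7.of_pow b.N_pos)

/-- The functions `u_j x_j ^ N` are independent. -/
lemma IsFermatFamily.ind_mul (h : IsFermatFamily b.N (F := F) t u v x y) :
    AlgebraicIndependent F (Sum.elim t (fun j => u j * x j ^ b.N)) := by
  obtain ⟨K₀, hK₀⟩ : ∃ K₀ : IntermediateField F M,
      K₀ = IntermediateField.adjoin F (Set.range (Sum.elim t (fun j => u j * x j ^ b.N))) :=
    ⟨_, rfl⟩
  have ht : ∀ i, t i ∈ K₀ := fun i => by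
    rw [hK₀]
    exact IntermediateField.subset_adjoin F _ ⟨Sum.inl i, rfl⟩
  have htle : IntermediateField.adjoin F (Set.range t) ≤ K₀ := by
    rw [IntermediateField.adjoin_le_iff]
    rintro z ⟨i, rfl⟩
    exact ht i
  have hux : ∀ j, u j * x j ^ b.N ∈ K₀ := fun j => by
    rw [hK₀]
    exact IntermediateField.subset_adjoin F _ ⟨Sum.inr j, rfl⟩
  have hx : ∀ j, x j ^ b.N ∈ K₀ := fun j => by
    have h1 : x j ^ b.N = (u j)⁻¹ * (u j * x j ^ b.N) := by
      rw [inv_mul_cancel_left₀ (h.left_ne j)]
    rw [h1]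
    exact mul_mem (inv_mem (htle (h.left_mem j))) (hux j)
  have hy : ∀ j, y j ^ b.N ∈ K₀ := fun j => by
    have h1 : y j ^ b.N = (1 - u j * x j ^ b.N) / v j := by
      rw [eq_div_iff (h.right_ne j), ← h.equation j]
      ring
    rw [h1]
    exact div_mem (sub_mem (one_mem _) (hux j)) (htle (h.right_mem j))
  have hpow : ∀ z : M, z ^ b.N ∈ K₀ → IsAlgebraic K₀ z := by
    intro z hz
    have h1 : IsAlgebraic K₀ (z ^ b.N) := isAlgebraic_algebraMap (⟨z ^ b.N, hz⟩ : K₀)
    exact h1.of_pow b.N_pos
  refine indep_of_trdeg h.independent fun z => ?_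
  rw [← hK₀]
  have h2 : (⊤ : IntermediateField F M) ≤ (algebraicClosure K₀ M).restrictScalars F := by
    rw [← h.generate, IntermediateField.adjoin_le_iff]
    rintro w ((⟨i, rfl⟩ | ⟨j, rfl⟩) | ⟨j, rfl⟩)
    · exact mem_algebraicClosure_iff.2 (isAlgebraic_algebraMap (⟨t i, ht i⟩ : K₀))
    · exact mem_algebraicClosure_iff.2 (hpow _ (hx j))
    · exact mem_algebraicClosure_iff.2 (hpow _ (hy j))
  exact mem_algebraicClosure_iff.1 (h2 (IntermediateField.mem_top (x := z)))

/-- The coefficient of the monomial cover with exponents `B`, `A`. -/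
def famD {M : Type u} [Field M] {N n : ℕ} (u v : Fin n → M) (B A : Fin n → ZMod N) : M :=
  (∏ j, (u j ^ (B j).val * v j ^ (A j).val))⁻¹

theorem IsFermatFamily.cycProd (h : IsFermatFamily b.N (F := F) t u v x y)
    (B A : Fin n → ZMod b.N) :
    ∃ (t' : Fin r → fieldG b F t x y B A) (X' : Fin n → fieldG b F t x y B A)
      (D' W' : fieldG b F t x y B A), (∀ i, (t' i : M) = t i) ∧
      (∀ j, (X' j : M) = u j * x j ^ b.N) ∧ (D' : M) = famD u v B A ∧
      (W' : M) = mono x y (fun j => (B j).val) (fun j => (A j).val) ∧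
      CycProdD b.N (F := F) t' X' D' W' B A := by
  obtain ⟨T, hT⟩ : ∃ T, T = fieldG b F t x y B A := ⟨_, rfl⟩
  rw [← hT]
  have ht : ∀ i, t i ∈ T := fun i => by
    rw [hT]
    exact IntermediateField.subset_adjoin F _ (Or.inl (Or.inl ⟨i, rfl⟩))
  have htle : IntermediateField.adjoin F (Set.range t) ≤ T := by
    rw [IntermediateField.adjoin_le_iff]
    rintro z ⟨i, rfl⟩
    exact ht i
  have hX : ∀ j, u j * x j ^ b.N ∈ T := fun j => by
    refine mul_mem (htle (h.left_mem j)) ?_
    rw [hT]
    exact IntermediateField.subset_adjoin F _ (Or.inl (Or.inr ⟨j, rfl⟩))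
  have hD0 : famD u v B A ∈ IntermediateField.adjoin F (Set.range t) := by
    unfold famD
    exact inv_mem (prod_mem fun j _ =>
      mul_mem (pow_mem (h.left_mem j) _) (pow_mem (h.right_mem j) _))
  have hDne : famD u v B A ≠ 0 := by
    unfold famD
    exact inv_ne_zero (Finset.prod_ne_zero_iff.2 fun j _ =>
      mul_ne_zero (pow_ne_zero _ (h.left_ne j)) (pow_ne_zero _ (h.right_ne j)))
  have hW : mono x y (fun j => (B j).val) (fun j => (A j).val) ∈ T := by
    rw [hT]
    exact IntermediateField.subset_adjoin F _ (Or.inr rfl)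
  refine ⟨fun i => ⟨t i, ht i⟩, fun j => ⟨u j * x j ^ b.N, hX j⟩, ⟨famD u v B A, htle hD0⟩,
    ⟨mono x y (fun j => (B j).val) (fun j => (A j).val), hW⟩, fun _ => rfl, fun _ => rfl, rfl, rfl,
    ?_, ?_, ?_, ?_, ?_⟩
  · apply AlgebraicIndependent.of_comp (IntermediateField.val T)
    have h3 := h.ind_mul b
    have h5 : (IntermediateField.val T) ∘ (Sum.elim (fun i => (⟨t i, ht i⟩ : T))
        (fun j => (⟨u j * x j ^ b.N, hX j⟩ : T))) = Sum.elim t (fun j => u j * x j ^ b.N) := by
      funext i
      rcases i with i | i <;> rfl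
    rw [h5]
    exact h3
  · rw [← IntermediateField.mem_lift, IntermediateField.lift_adjoin]
    have h5 : Subtype.val '' (Set.range fun i => (⟨t i, ht i⟩ : T)) = Set.range t := by
      rw [← Set.range_comp]
      rfl
    rw [h5]
    exact hD0
  · intro h0
    exact hDne (congrArg Subtype.val h0)
  · apply Subtype.ext
    have h5 : (((∏ j, ((⟨u j * x j ^ b.N, hX j⟩ : T) ^ (B j).val *
        (1 - (⟨u j * x j ^ b.N, hX j⟩ : T)) ^ (A j).val) : T)) : M) =
        ∏ j, ((u j * x j ^ b.N) ^ (B j).val * (1 - u j * x j ^ b.N) ^ (A j).val) := by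
      rw [SubmonoidClass.coe_finsetProd]
      rfl
    change mono x y (fun j => (B j).val) (fun j => (A j).val) ^ b.N = famD u v B A *
      (((∏ j, ((⟨u j * x j ^ b.N, hX j⟩ : T) ^ (B j).val *
        (1 - (⟨u j * x j ^ b.N, hX j⟩ : T)) ^ (A j).val) : T)) : M)
    rw [h5]
    have h6 : ∏ j, ((u j * x j ^ b.N) ^ (B j).val * (1 - u j * x j ^ b.N) ^ (A j).val) =
        (∏ j, (u j ^ (B j).val * v j ^ (A j).val)) *
          mono x y (fun j => (B j).val) (fun j => (A j).val) ^ b.N := by
      unfold mono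
      rw [← Finset.prod_pow, ← Finset.prod_mul_distrib]
      refine Finset.prod_congr rfl fun j _ => ?_
      have h1 : 1 - u j * x j ^ b.N = v j * y j ^ b.N := by
        rw [← h.equation j]
        ring
      rw [h1, mul_pow, mul_pow, mul_pow, ← pow_mul, ← pow_mul, ← pow_mul, ← pow_mul,
        mul_comm (B j).val, mul_comm (A j).val]
      ring
    rw [h6]
    unfold famD
    rw [inv_mul_cancel_left₀]
    exact Finset.prod_ne_zero_iff.2 fun j _ =>
      mul_ne_zero (pow_ne_zero _ (h.left_ne j)) (pow_ne_zero _ (h.right_ne j))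
  · apply IntermediateField.lift_injective T
    rw [IntermediateField.lift_top, IntermediateField.lift_adjoin]
    have h5 : Subtype.val '' ((Set.range fun i => (⟨t i, ht i⟩ : T)) ∪
        (Set.range fun j => (⟨u j * x j ^ b.N, hX j⟩ : T)) ∪
        {(⟨mono x y (fun j => (B j).val) (fun j => (A j).val), hW⟩ : T)}) =
        Set.range t ∪ Set.range (fun j => u j * x j ^ b.N) ∪
          {mono x y (fun j => (B j).val) (fun j => (A j).val)} := by
      rw [Set.image_union, Set.image_union, ← Set.range_comp, ← Set.range_comp,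
        Set.image_singleton]
      rfl
    rw [h5, hT]
    unfold fieldG
    obtain ⟨R, hR⟩ : ∃ R, R = IntermediateField.adjoin F (Set.range t ∪
        Set.range (fun j => u j * x j ^ b.N) ∪
          {mono x y (fun j => (B j).val) (fun j => (A j).val)}) := ⟨_, rfl⟩
    have htR : IntermediateField.adjoin F (Set.range t) ≤ R := by
      rw [hR]
      exact IntermediateField.adjoin.mono F _ _ (Set.subset_union_left.trans
        Set.subset_union_left)
    apply le_antisymm
    · rw [IntermediateField.adjoin_le_iff]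
      rintro z ((⟨i, rfl⟩ | ⟨i, rfl⟩) | hz)
      · exact IntermediateField.subset_adjoin F _ (Or.inl (Or.inl ⟨i, rfl⟩))
      · refine mul_mem ((IntermediateField.adjoin.mono F _ _ (Set.subset_union_left.trans
          Set.subset_union_left)) (h.left_mem i)) ?_
        exact IntermediateField.subset_adjoin F _ (Or.inl (Or.inr ⟨i, rfl⟩))
      · exact IntermediateField.subset_adjoin F _ (Or.inr hz)
    · rw [IntermediateField.adjoin_le_iff, ← hR]
      rintro z ((⟨i, rfl⟩ | ⟨i, rfl⟩) | hz)
      · exact htR (IntermediateField.subset_adjoin F _ ⟨i, rfl⟩)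
      · have h1 : x i ^ b.N = (u i)⁻¹ * (u i * x i ^ b.N) := by
          rw [inv_mul_cancel_left₀ (h.left_ne i)]
        change x i ^ b.N ∈ R
        rw [h1]
        refine mul_mem (inv_mem (htR (h.left_mem i))) ?_
        rw [hR]
        exact IntermediateField.subset_adjoin F _ (Or.inl (Or.inr ⟨i, rfl⟩))
      · rw [hR]
        exact IntermediateField.subset_adjoin F _ (Or.inr hz)

end UnrG
end
end

section

/-!
# Products of Fermat curves: the Galois group
-/

namespace UnrG

universe u v w

open Polynomial Finset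
open scoped Classical

variable {𝔽 : Type w} [Field 𝔽] [Fintype 𝔽] (b : Base 𝔽)

variable {F M : Type u} [Field F] [Field M] [Algebra F M] {r n : ℕ} {t : Fin r → M}
  {x y : Fin n → M}

private lemma D2_pow_mem (j : Fin n) : x j ^ b.N ∈ fieldX b F t x :=
  IntermediateField.subset_adjoin F _ (Or.inr ⟨j, rfl⟩)

private lemma D2_t_mem (i : Fin r) : t i ∈ fieldX b F t x :=
  IntermediateField.subset_adjoin F _ (Or.inl ⟨i, rfl⟩)

private lemma D2_ypow_mem (h : ProdData (F := F) b t x y) (j : Fin n) :
    y j ^ b.N ∈ fieldX b F t x := by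
  have h1 : y j ^ b.N = 1 - x j ^ b.N := by
    rw [← h.eq j]
    ring
  rw [h1]
  exact sub_mem (one_mem _) (D2_pow_mem b j)

/-- A homomorphism fixing `fieldX` is diagonal. -/
private lemma D2_exp (h : ProdData (F := F) b t x y) (ι : 𝔽 →+* F) (f : M →+* M)
    (hf : ∀ z ∈ fieldX b F t x, f z = z) :
    ∃ a c : Fin n → ZMod b.N, (∀ j, f (x j) = algebraMap F M (ι b.ζ) ^ (a j).val * x j) ∧
      ∀ j, f (y j) = algebraMap F M (ι b.ζ) ^ (c j).val * y j := by
  have hζ : IsPrimitiveRoot (algebraMap F M (ι b.ζ)) b.N :=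
    b.hζ_map ((algebraMap F M).comp ι)
  have key : ∀ z : M, z ≠ 0 → z ^ b.N ∈ fieldX b F t x →
      ∃ k : ZMod b.N, f z = algebraMap F M (ι b.ζ) ^ k.val * z := by
    intro z hz hzm
    have h1 : (f z / z) ^ b.N = 1 := by
      rw [div_pow, ← map_pow, hf _ hzm, div_self]
      exact pow_ne_zero _ hz
    have : NeZero b.N := ⟨b.N_pos.ne'⟩
    obtain ⟨k, hk, hk'⟩ := hζ.eq_pow_of_pow_eq_one h1
    refine ⟨(k : ZMod b.N), ?_⟩
    rw [ZMod.val_natCast, Nat.mod_eq_of_lt hk, hk', div_mul_cancel₀ _ hz]
  choose a ha using fun j => key (x j) (h.ne b j).1 (D2_pow_mem b j)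
  choose c hc using fun j => key (y j) (h.ne b j).2 (D2_ypow_mem b h j)
  exact ⟨a, c, ha, hc⟩

/-- Two homomorphisms which agree on the generators are equal. -/
private lemma D2_unique (h : ProdData (F := F) b t x y) (f g : M →+* M)
    (hF : ∀ a : F, f (algebraMap F M a) = g (algebraMap F M a)) (ht : ∀ i, f (t i) = g (t i))
    (hx : ∀ j, f (x j) = g (x j)) (hy : ∀ j, f (y j) = g (y j)) : f = g := by
  ext z
  have hz : z ∈ IntermediateField.adjoin F (Set.range t ∪ Set.range x ∪ Set.range y) := by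
    rw [h.gen]
    exact IntermediateField.mem_top
  induction hz using IntermediateField.adjoin_induction with
  | mem z hz =>
    rcases hz with (⟨i, rfl⟩ | ⟨i, rfl⟩) | ⟨i, rfl⟩
    · exact ht i
    · exact hx i
    · exact hy i
  | algebraMap a => exact hF a
  | add u v _ _ hu hv => rw [map_add, map_add, hu, hv]
  | inv u _ hu => rw [map_inv₀, map_inv₀, hu]
  | mul u v _ _ hu hv => rw [map_mul, map_mul, hu, hv]

private lemma D2_split (h : ProdData (F := F) b t x y) (ι : 𝔽 →+* F) (T : IntermediateField F M)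
    (hT : fieldX b F t x ≤ T) :
    ∃ p : T[X], p.IsSplittingField T M ∧ Algebra.IsSeparable T M := by
  have hζ : IsPrimitiveRoot (algebraMap F M (ι b.ζ)) b.N :=
    b.hζ_map ((algebraMap F M).comp ι)
  have hTne : ((b.N : ℕ) : T) ≠ 0 := b.N_ne ((algebraMap F T).comp ι)
  obtain ⟨s, hs⟩ : ∃ s : Fin n ⊕ Fin n → M, s = Sum.elim x y := ⟨_, rfl⟩
  have hs0 : ∀ i, s i ≠ 0 := by
    intro i
    rw [hs]
    rcases i with i | i
    · exact (h.ne b i).1
    · exact (h.ne b i).2
  have hsm : ∀ i, s i ^ b.N ∈ fieldX b F t x := by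
    intro i
    rw [hs]
    rcases i with i | i
    · exact D2_pow_mem b i
    · exact D2_ypow_mem b h i
  obtain ⟨u, hu⟩ : ∃ u : Fin n ⊕ Fin n → T, ∀ i, algebraMap T M (u i) = s i ^ b.N :=
    ⟨fun i => ⟨s i ^ b.N, hT (hsm i)⟩, fun i => rfl⟩
  have hu0 : ∀ i, u i ≠ 0 := by
    intro i h0
    have h1 := hu i
    rw [h0, map_zero] at h1
    exact pow_ne_zero _ (hs0 i) h1.symm
  have htop : IntermediateField.adjoin T (Set.range s) = ⊤ := by
    rw [eq_top_iff]
    have h1 : (IntermediateField.adjoin F (Set.range t ∪ Set.range x ∪ Set.range y)) ≤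
        (IntermediateField.adjoin T (Set.range s)).restrictScalars F := by
      rw [IntermediateField.adjoin_le_iff]
      rintro z ((⟨i, rfl⟩ | ⟨i, rfl⟩) | ⟨i, rfl⟩)
      · exact (IntermediateField.adjoin T (Set.range s)).algebraMap_mem
          ⟨t i, hT (D2_t_mem b i)⟩
      · exact IntermediateField.subset_adjoin T _ ⟨Sum.inl i, by rw [hs]; rfl⟩
      · exact IntermediateField.subset_adjoin T _ ⟨Sum.inr i, by rw [hs]; rfl⟩
    rw [h.gen] at h1
    intro z _
    exact h1 (IntermediateField.mem_top)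
  have hroot : ∀ i, aeval (s i) (X ^ b.N - C (u i) : T[X]) = 0 := by
    intro i
    rw [map_sub, map_pow, aeval_X, aeval_C, hu, sub_self]
  have hint : ∀ i, IsIntegral T (s i) := fun i =>
    ⟨X ^ b.N - C (u i), monic_X_pow_sub_C _ b.N_pos.ne', by rw [← aeval_def]; exact hroot i⟩
  have hsep : ∀ i, IsSeparable T (s i) := by
    intro i
    have h1 : (X ^ b.N - C (u i) : T[X]).Separable :=
      separable_X_pow_sub_C _ hTne (hu0 i)
    exact h1.of_dvd (minpoly.dvd _ _ (hroot i))
  refine ⟨∏ i, (X ^ b.N - C (u i)), ⟨?_, ?_⟩, ?_⟩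
  · rw [Polynomial.map_prod]
    refine Splits.prod fun i _ => ?_
    rw [Polynomial.map_sub, Polynomial.map_pow, map_X, map_C, hu]
    exact X_pow_sub_C_splits_of_isPrimitiveRoot hζ rfl
  · rw [← top_le_iff]
    have h2 := congrArg IntermediateField.toSubalgebra htop
    rw [IntermediateField.adjoin_toSubalgebra_of_isAlgebraic
      (fun z hz => by obtain ⟨i, rfl⟩ := hz; exact (hint i).isAlgebraic),
      IntermediateField.top_toSubalgebra] at h2
    rw [← h2]
    apply Algebra.adjoin_mono
    rintro z ⟨i, rfl⟩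
    have h0 : (∏ i, (X ^ b.N - C (u i)) : T[X]) ≠ 0 :=
      Finset.prod_ne_zero_iff.mpr fun i _ => (monic_X_pow_sub_C _ b.N_pos.ne').ne_zero
    rw [mem_rootSet]
    refine ⟨h0, ?_⟩
    rw [map_prod]
    exact Finset.prod_eq_zero (Finset.mem_univ i) (hroot i)
  · have h1 : Algebra.IsSeparable T (IntermediateField.adjoin T (Set.range s)) :=
      (IntermediateField.isSeparable_adjoin_iff_isSeparable T M).mpr
        (fun z hz => by obtain ⟨i, rfl⟩ := hz; exact hsep i)
    rw [htop] at h1
    exact Algebra.IsSeparable.of_algHom T (⊤ : IntermediateField T M)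
      (IntermediateField.topEquiv (F := T) (E := M)).symm.toAlgHom

/-- Hint: `M` is generated over `T` by the roots `x_j`, `y_j` of `X ^ N - x_j ^ N`, `X ^ N - y_j ^ N`,
which are separable and split (`ι ζ ∈ F`); as `galois_fieldT` in K/D3. -/
theorem ProdData.galois (h : ProdData (F := F) b t x y) (ι : 𝔽 →+* F)
    (T : IntermediateField F M) (hT : fieldX b F t x ≤ T) :
    FiniteDimensional T M ∧ IsGalois T M ∧ Module.finrank T M ≤ b.N ^ (2 * n) := by
  obtain ⟨p, hp, hs⟩ := D2_split b h ι T hT
  have hfd : FiniteDimensional T M := hp.finiteDimensional (K := T) (L := M) p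
  have hno : Normal T M := Normal.of_isSplittingField p
  have hG : IsGalois T M := ⟨⟩
  refine ⟨hfd, hG, ?_⟩
  rw [← IsGalois.card_aut_eq_finrank]
  have hfix : ∀ g : M ≃ₐ[T] M, ∀ z ∈ fieldX b F t x, (g : M →+* M) z = z := fun g z hz =>
    g.commutes ⟨z, hT hz⟩
  choose a c ha hc using fun g : M ≃ₐ[T] M => D2_exp b h ι (g : M →+* M) (hfix g)
  have hinj : Function.Injective (fun g : M ≃ₐ[T] M => (a g, c g)) := by
    intro g g' hgg
    have h1 : a g = a g' := congrArg Prod.fst hgg
    have h1' : c g = c g' := congrArg Prod.snd hgg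
    have h2 : (g : M →+* M) = (g' : M →+* M) := by
      refine D2_unique b h _ _ (fun z => ?_) (fun i => ?_) (fun j => ?_) (fun j => ?_)
      · rw [hfix g _ ((fieldX b F t x).algebraMap_mem z), hfix g' _ ((fieldX b F t x).algebraMap_mem z)]
      · rw [hfix g _ (D2_t_mem b i), hfix g' _ (D2_t_mem b i)]
      · rw [ha g j, ha g' j, h1]
      · rw [hc g j, hc g' j, h1']
    exact AlgEquiv.ext fun z => RingHom.congr_fun h2 z
  have : NeZero b.N := ⟨b.N_pos.ne'⟩
  have h1 := Nat.card_le_card_of_injective _ hinj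
  rw [Nat.card_prod, Nat.card_eq_fintype_card (α := Fin n → ZMod b.N), Fintype.card_fun, ZMod.card,
    Fintype.card_fin] at h1
  rw [two_mul, pow_add]
  exact h1

/-- Every automorphism over `fieldX` is diagonal. -/
theorem ProdData.exists_exp (h : ProdData (F := F) b t x y) (ι : 𝔽 →+* F)
    (g : M ≃ₐ[fieldX b F t x] M) :
    ∃ a c : Fin n → ZMod b.N, (∀ j, g (x j) = algebraMap F M (ι b.ζ) ^ (a j).val * x j) ∧
      ∀ j, g (y j) = algebraMap F M (ι b.ζ) ^ (c j).val * y j :=
  D2_exp b h ι (g : M →+* M) (fun z hz => g.commutes ⟨z, hz⟩)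

/-- Hint: `g` fixes the monomial iff `ζ ^ (∑ ...) = 1` (the monomial is not zero, `ProdData.ne`), iff
the exponent is `0` mod `N`. -/
theorem fix_mono_iff (h : ProdData (F := F) b t x y) (ι : 𝔽 →+* F) {g : M →+* M}
    {a c : Fin n → ZMod b.N} (h1 : ∀ j, g (x j) = algebraMap F M (ι b.ζ) ^ (a j).val * x j)
    (h2 : ∀ j, g (y j) = algebraMap F M (ι b.ζ) ^ (c j).val * y j) (B A : Fin n → ZMod b.N) :
    g (mono x y (fun j => (B j).val) (fun j => (A j).val)) =
        mono x y (fun j => (B j).val) (fun j => (A j).val) ↔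
      ∑ j, (B j * a j + A j * c j) = 0 := by
  have : NeZero b.N := ⟨b.N_pos.ne'⟩
  have hζ : IsPrimitiveRoot (algebraMap F M (ι b.ζ)) b.N :=
    b.hζ_map ((algebraMap F M).comp ι)
  have hne : mono x y (fun j => (B j).val) (fun j => (A j).val) ≠ 0 := by
    unfold mono
    exact Finset.prod_ne_zero_iff.mpr fun j _ =>
      mul_ne_zero (pow_ne_zero _ (h.ne b j).1) (pow_ne_zero _ (h.ne b j).2)
  have hg : g (mono x y (fun j => (B j).val) (fun j => (A j).val)) =
      algebraMap F M (ι b.ζ) ^ (∑ j, ((B j).val * (a j).val + (A j).val * (c j).val)) *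
        mono x y (fun j => (B j).val) (fun j => (A j).val) := by
    unfold mono
    rw [map_prod, ← Finset.prod_pow_eq_pow_sum, ← Finset.prod_mul_distrib]
    refine Finset.prod_congr rfl fun j _ => ?_
    rw [map_mul, map_pow, map_pow, h1, h2, mul_pow, mul_pow, ← pow_mul, ← pow_mul, pow_add,
      mul_comm (a j).val, mul_comm (c j).val]
    ring
  rw [hg]
  have h3 : algebraMap F M (ι b.ζ) ^ (∑ j, ((B j).val * (a j).val + (A j).val * (c j).val)) *
        mono x y (fun j => (B j).val) (fun j => (A j).val) =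
        mono x y (fun j => (B j).val) (fun j => (A j).val) ↔
      algebraMap F M (ι b.ζ) ^ (∑ j, ((B j).val * (a j).val + (A j).val * (c j).val)) = 1 := by
    constructor
    · intro h4
      exact mul_right_cancel₀ hne (h4.trans (one_mul _).symm)
    · intro h4
      rw [h4, one_mul]
  rw [h3, hζ.pow_eq_one_iff_dvd, ← ZMod.natCast_eq_zero_iff]
  push_cast
  simp only [ZMod.natCast_zmod_val]

/-- Hint: both sides agree on `F`, `t`, `x`, `y` (`h.gen`), since `(ι ζ) ^ q = ι ζ`. -/
theorem ProdData.comm (h : ProdData (F := F) b t x y) (ι : 𝔽 →+* F) {σ : M →+* M}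
    (hσ : ProdFrob b.q F t x y σ) {T : IntermediateField F M} (hT : fieldX b F t x ≤ T)
    (g : M ≃ₐ[T] M) : σ.comp (g : M →+* M) = (g : M →+* M).comp σ := by
  have hfix : ∀ z ∈ fieldX b F t x, (g : M →+* M) z = z := fun z hz => g.commutes ⟨z, hT hz⟩
  obtain ⟨a, c, ha, hc⟩ := D2_exp b h ι (g : M →+* M) hfix
  have hζ : σ (algebraMap F M (ι b.ζ)) = algebraMap F M (ι b.ζ) := by
    rw [hσ.const, ← map_pow, ← map_pow, b.pow_q]
  refine D2_unique b h _ _ (fun z => ?_) (fun i => ?_) (fun j => ?_) (fun j => ?_)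
  · rw [RingHom.comp_apply, RingHom.comp_apply, hfix _ ((fieldX b F t x).algebraMap_mem z),
      hσ.const, map_pow, hfix _ ((fieldX b F t x).algebraMap_mem z)]
  · rw [RingHom.comp_apply, RingHom.comp_apply, hfix _ (D2_t_mem b i), hσ.ft, hfix _ (D2_t_mem b i)]
  · rw [RingHom.comp_apply, RingHom.comp_apply, hσ.fx, ha, map_mul, map_pow, hσ.fx, hζ]
  · rw [RingHom.comp_apply, RingHom.comp_apply, hσ.fy, hc, map_mul, map_pow, hσ.fy, hζ]

/-- The number of solutions `(B, A)` of a linear equation over the prime field `ℤ / N`. Hint: if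
`(a, c) ≠ 0` the map `(B, A) ↦ ∑ ...` is a surjective homomorphism of groups from a group of order
`N ^ (2 n)` to a group of order `N`, all fibres have the same number of elements
(`AddMonoidHom.card_fiber_eq_of_mem_range`). -/
theorem card_solutions {N : ℕ} [Fact N.Prime] {n : ℕ} (a c : Fin n → ZMod N) :
    (univ.filter fun γ : (Fin n → ZMod N) × (Fin n → ZMod N) =>
      ∑ j, (γ.1 j * a j + γ.2 j * c j) = 0).card * N =
    if a = 0 ∧ c = 0 then N ^ (2 * n) * N else N ^ (2 * n) := by
  have hcard : Fintype.card ((Fin n → ZMod N) × (Fin n → ZMod N)) = N ^ (2 * n) := by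
    rw [Fintype.card_prod, Fintype.card_fun, ZMod.card, Fintype.card_fin, two_mul, pow_add]
  split_ifs with h0
  · obtain ⟨rfl, rfl⟩ := h0
    congr 1
    rw [← hcard, ← Finset.card_univ]
    congr 1
    rw [Finset.filter_eq_self]
    intro γ _
    simp
  · obtain ⟨φ, hφ⟩ : ∃ φ : (Fin n → ZMod N) × (Fin n → ZMod N) →+ ZMod N,
        ∀ γ, φ γ = ∑ j, (γ.1 j * a j + γ.2 j * c j) := by
      refine ⟨{ toFun := fun γ => ∑ j, (γ.1 j * a j + γ.2 j * c j), map_zero' := ?_, map_add' := ?_ },
        fun γ => rfl⟩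
      · simp
      · intro γ δ
        rw [← Finset.sum_add_distrib]
        refine Finset.sum_congr rfl fun j _ => ?_
        simp only [Prod.fst_add, Prod.snd_add, Pi.add_apply]
        ring
    have hsurj : Function.Surjective φ := by
      intro s
      by_cases ha : a = 0
      · have hc : c ≠ 0 := fun hc => h0 ⟨ha, hc⟩
        obtain ⟨j, hj⟩ := Function.ne_iff.mp hc
        refine ⟨(0, Pi.single j (s / c j)), ?_⟩
        rw [hφ]
        simp only [Pi.zero_apply, zero_mul, zero_add]
        rw [Finset.sum_eq_single j]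
        · rw [Pi.single_eq_same, div_mul_cancel₀]
          exact hj
        · intro i _ hi
          rw [Pi.single_eq_of_ne hi, zero_mul]
        · intro hj'
          exact absurd (Finset.mem_univ j) hj'
      · obtain ⟨j, hj⟩ := Function.ne_iff.mp ha
        refine ⟨(Pi.single j (s / a j), 0), ?_⟩
        rw [hφ]
        simp only [Pi.zero_apply, zero_mul, add_zero]
        rw [Finset.sum_eq_single j]
        · rw [Pi.single_eq_same, div_mul_cancel₀]
          exact hj
        · intro i _ hi
          rw [Pi.single_eq_of_ne hi, zero_mul]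
        · intro hj'
          exact absurd (Finset.mem_univ j) hj'
    have h1 : (univ.filter fun γ : (Fin n → ZMod N) × (Fin n → ZMod N) =>
        ∑ j, (γ.1 j * a j + γ.2 j * c j) = 0) = univ.filter fun γ => φ γ = 0 := by
      refine Finset.filter_congr fun γ _ => ?_
      rw [hφ]
    rw [h1, ← hcard, ← Finset.card_univ (α := (Fin n → ZMod N) × (Fin n → ZMod N)),
      Finset.card_eq_sum_card_fiberwise (f := φ) (s := univ) (t := univ) (fun _ _ => Finset.mem_univ _)]
    have h2 : ∀ s ∈ (univ : Finset (ZMod N)), (univ.filter fun γ => φ γ = s).card =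
        (univ.filter fun γ => φ γ = 0).card := fun s _ =>
      AddMonoidHom.card_fiber_eq_of_mem_range φ (hsurj s) (hsurj 0)
    rw [Finset.sum_congr rfl h2, Finset.sum_const, Finset.card_univ, ZMod.card, smul_eq_mul, mul_comm]

end UnrG
end
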