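import Pool.Agent.Lib.MP_859dd5_ag.EQ.Fun
import Pool.Agent.Lib.MP_859dd5_ag.Mg.G003
import Pool.Agent.Lib.MP_859dd5_ag.Mg.G058
import Pool.Agent.Lib.MP_859dd5_ag.K.Graded
import Pool.Agent.Lib.MP_859dd5_ag.PQ.E0
import Pool.Agent.Lib.MP_859dd5_ag.PP.N0
import Pool.Agent.Lib.MP_859dd5_ag.Mg.G069
import Pool.Agent.Lib.MP_859dd5_ag.Mg.G070
import Pool.Agent.Lib.MP_859dd5_ag.Mg.G061
import Pool.Agent.Lib.MP_859dd5_ag.Mg.G072

section

/-!
# Monomial subfields: torsion of the kernel
-/

namespace UnrA.Fer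

open UnrG

universe u v w z

open Polynomial Finset
open scoped Classical

variable {m : UFun.{u, z}} {𝔽 : Type w} [Field 𝔽] [Fintype 𝔽] (b : Base 𝔽)

variable {F M : Type u} [Field F] [Field M] [Algebra F M] (ι : 𝔽 →+* F) {r n : ℕ}
  {t : Fin r → M} {x y : Fin n → M}

variable {bb aa : Fin n → ℕ} {E : Type u} [Field E] {i : E →+* M}

private lemma Q2_finite {E M : Type u} [Field E] [Field M] [Algebra E M] {N : ℕ} (hN : 0 < N)
    (S : Finset M) (hS : ∀ z ∈ S, ∃ a : E, z ^ N = algebraMap E M a) :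
    FiniteDimensional E (IntermediateField.adjoin E (S : Set M)) ∧
      Module.finrank E (IntermediateField.adjoin E (S : Set M)) ≤ N ^ S.card := by
  induction S using Finset.induction_on with
  | empty =>
    rw [Finset.coe_empty, IntermediateField.adjoin_empty, Finset.card_empty, pow_zero]
    exact ⟨inferInstance, (IntermediateField.finrank_bot).le⟩
  | insert z S hz ih =>
    obtain ⟨h1, h2⟩ := ih fun w hw => hS w (Finset.mem_insert_of_mem hw)
    obtain ⟨a, ha⟩ := hS z (Finset.mem_insert_self _ _)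
    have hae : aeval z (X ^ N - C a : E[X]) = 0 := by
      rw [map_sub, map_pow, aeval_X, aeval_C, ha, sub_self]
    have hint : IsIntegral E z := ⟨X ^ N - C a, monic_X_pow_sub_C a hN.ne', by
      rw [← aeval_def]; exact hae⟩
    have h3 : FiniteDimensional E (IntermediateField.adjoin E {z}) :=
      IntermediateField.adjoin.finiteDimensional hint
    have h4 : Module.finrank E (IntermediateField.adjoin E {z}) ≤ N := by
      rw [IntermediateField.adjoin.finrank hint]
      have h5 := natDegree_le_of_dvd (minpoly.dvd E z hae) (monic_X_pow_sub_C a hN.ne').ne_zero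
      rwa [natDegree_X_pow_sub_C] at h5
    rw [Finset.coe_insert, Set.insert_eq, IntermediateField.adjoin_union]
    refine ⟨IntermediateField.finiteDimensional_sup _ _, ?_⟩
    refine (IntermediateField.finrank_sup_le _ _).trans ?_
    rw [Finset.card_insert_of_notMem hz, pow_succ']
    exact Nat.mul_le_mul h4 h2

/-- Up to torsion the restriction to `M` is injective. Hint: `M` is generated over the image of
`E` by the `2 n` elements `x_j`, `y_j` whose `N`-th powers lie in it (`y_j ^ N = 1 - x_j ^ N`), so it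
is finite of degree at most `N ^ (2 n)`; `finrank_smul_eq_zero` (make `M` an `E`-algebra by
`i.toAlgebra`) and `Nat.dvd_factorial`. -/
lemma monoEmb_smul_eq_zero (hP : ProdData (F := F) b t x y)
    (h : MonoEmb b F t x y bb aa i) {z : KM m E} (hz : KM.map m i z = 0) :
    (b.N ^ (2 * n)).factorial • z = 0 := by
  let _ : Algebra E M := i.toAlgebra
  have hi : ∀ e : E, algebraMap E M e = i e := fun _ => rfl
  obtain ⟨S, hS⟩ : ∃ S : Finset M, S = univ.image x ∪ univ.image y := ⟨_, rfl⟩
  have hcard : S.card ≤ 2 * n := by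
    rw [hS]
    refine (Finset.card_union_le _ _).trans ?_
    have h1 : (univ.image x).card ≤ n := by
      simpa using (Finset.card_image_le (s := (univ : Finset (Fin n))) (f := x))
    have h2 : (univ.image y).card ≤ n := by
      simpa using (Finset.card_image_le (s := (univ : Finset (Fin n))) (f := y))
    omega
  have hpow : ∀ z ∈ S, ∃ a : E, z ^ b.N = algebraMap E M a := by
    intro z hz
    rw [hS, Finset.mem_union, Finset.mem_image, Finset.mem_image] at hz
    rcases hz with ⟨j, -, rfl⟩ | ⟨j, -, rfl⟩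
    · obtain ⟨e, he⟩ := h.x_mem j
      exact ⟨e, he.symm⟩
    · obtain ⟨e, he⟩ := h.x_mem j
      refine ⟨1 - e, ?_⟩
      rw [hi, map_sub, map_one, he, ← hP.eq j]
      ring
  obtain ⟨h1, h2⟩ := Q2_finite b.N_pos S hpow
  have htop : IntermediateField.adjoin E (S : Set M) = ⊤ := by
    rw [eq_top_iff]
    intro z _
    have hz : z ∈ IntermediateField.adjoin F (Set.range t ∪ Set.range x ∪ Set.range y) := by
      rw [hP.gen]; trivial
    have hE : ∀ w ∈ i.fieldRange, w ∈ IntermediateField.adjoin E (S : Set M) := by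
      rintro w ⟨e, rfl⟩
      exact IntermediateField.algebraMap_mem _ e
    induction hz using IntermediateField.adjoin_induction with
    | mem w hw =>
      rcases hw with (⟨k, rfl⟩ | ⟨j, rfl⟩) | ⟨j, rfl⟩
      · exact hE _ (h.t_mem k)
      · refine IntermediateField.subset_adjoin _ _ ?_
        rw [hS]
        simp
      · refine IntermediateField.subset_adjoin _ _ ?_
        rw [hS]
        simp
    | algebraMap a => exact hE _ (h.const a)
    | add a c _ _ ha hc => exact add_mem (ha trivial) (hc trivial)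
    | inv a _ ha => exact inv_mem (ha trivial)
    | mul a c _ _ ha hc => exact mul_mem (ha trivial) (hc trivial)
  rw [htop] at h1 h2
  have hfd : FiniteDimensional E M := by
    have h3 := h1
    exact Module.Finite.equiv (IntermediateField.topEquiv (F := E) (E := M)).toLinearEquiv
  have hfr : Module.finrank E M ≤ b.N ^ (2 * n) := by
    rw [IntermediateField.finrank_top'] at h2
    exact h2.trans (Nat.pow_le_pow_right b.N_pos hcard)
  have h4 := finrank_smul_eq_zero (Module.finrank E M) (K := E) (L := M) rfl (x := z) hz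
  obtain ⟨k, hk⟩ := Nat.dvd_factorial (Module.finrank_pos (R := E) (M := M)) hfr
  rw [hk, mul_comm, mul_smul, h4, smul_zero]

end UnrA.Fer
end

section

/-!
# Cyclic covers defined by several linear relations
-/

namespace UnrG

universe u v w

open Finset

/-- `a` is `b` times an `N`-th power of a nonzero element of the subfield. -/
def ModPow (N : ℕ) {F K : Type u} [Field F] [Field K] [Algebra F K] (K₀ : IntermediateField F K)
    (a b : K) : Prop :=
  ∃ c ∈ K₀, c ≠ 0 ∧ a = c ^ N * b

/-- The terms of the relation `x + (1 - x) - 1 = 0`. -/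
def trip {K : Type u} [Field K] (x : K) : Fin 3 → K := ![x, 1 - x, -1]

/-- All unramified classes of degree `j` of `K` are killed by `C`. -/
def KillsU (C j : ℕ) (K : Type u) [Field K] : Prop :=
  ∀ (m : ℕ) (z : KM m K), Unr z → z ∈ KM.deg m K j → C • z = 0

/-- The field `K = K₀(w)`, where `K₀` is generated by `t`, the quotients of the terms `Y_i` of the main
relation `∑ Y_i = 0` and by further variables `x_j`, and `w ^ N` is, up to an `N`-th power of `K₀`, the
product of the `Y_i ^ e_i` and the `x_j ^ B_j (1 - x_j) ^ A_j`. -/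
structure Sys (N : ℕ) {F K : Type u} [Field F] [Field K] [Algebra F K] {r d l : ℕ}
    (t : Fin r → K) (Y : Fin (d + 2) → K) (e : Fin (d + 2) → ZMod N) (x : Fin l → K)
    (B A : Fin l → ZMod N) (w : K) (K₀ : IntermediateField F K) : Prop where
  Y_ne : ∀ i, Y i ≠ 0
  Y_mem : ∀ i, Y i ∈ K₀
  sum_Y : ∑ i, Y i = 0
  sum_e : ∑ i, e i = 0
  x_ne : ∀ j, x j ≠ 0
  x_ne_one : ∀ j, 1 - x j ≠ 0
  K₀_eq : K₀ = IntermediateField.adjoin F
    (Set.range t ∪ {z | ∃ i j, z = Y i / Y j} ∪ Set.range x)
  top : K₀ ⊔ IntermediateField.adjoin F {w} = ⊤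
  w_pow : ModPow N K₀ (w ^ N)
    ((∏ i, Y i ^ (e i).val) * ∏ j, (x j ^ (B j).val * (1 - x j) ^ (A j).val))
  ind : ∃ v : Fin (r + d + l) → K, AlgebraicIndependent F v

end UnrG
end

section

/-!
# Balanced families of residue classes
-/

namespace UnrA.Fer

open UnrG

open Finset
open scoped Classical

/-- For each `c ≠ 0` as many `α i` lie in `⟨p⟩ c` as in `-⟨p⟩ c`. -/
def IsBalancedSum (p : ℕ) {N k : ℕ} (α : Fin k → ZMod N) : Prop :=
  ∀ c : ZMod N, c ≠ 0 → Nat.card {i // ∃ s : ℕ, (p : ZMod N) ^ s * α i = c} =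
    Nat.card {i // ∃ s : ℕ, (p : ZMod N) ^ s * α i = -c}

/-- The indicator function of the relation `u ∈ ⟨p⟩ c`. -/
noncomputable def indP (p : ℕ) {N : ℕ} (u c : ZMod N) : ℕ :=
  if ∃ s : ℕ, (p : ZMod N) ^ s * u = c then 1 else 0

lemma indP_neg (p : ℕ) {N : ℕ} (u c : ZMod N) : indP p (-u) c = indP p u (-c) := by
  unfold indP
  congr 1
  apply propext
  constructor
  · rintro ⟨s, hs⟩
    exact ⟨s, by rw [← hs]; ring⟩
  · rintro ⟨s, hs⟩
    exact ⟨s, by rw [mul_neg, hs, neg_neg]⟩

lemma card_subtype_eq_sum {ι : Type*} [Fintype ι] (P : ι → Prop) :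
    Nat.card {i // P i} = ∑ i, if P i then 1 else 0 := by
  rw [Nat.card_eq_fintype_card, Fintype.card_subtype, Finset.card_filter]

/-- The partial sums. -/
def psum {N n : ℕ} (α : Fin (n + 2) → ZMod N) (k : Fin (n + 1)) : ZMod N :=
  ∑ i ∈ univ.filter (fun i => i ≤ k.castSucc), α i

lemma psum_zero {N n : ℕ} (α : Fin (n + 2) → ZMod N) : psum α 0 = α 0 := by
  unfold psum
  rw [Fin.castSucc_zero]
  have h : univ.filter (fun i : Fin (n + 2) => i ≤ 0) = {0} := by
    ext i
    simp
  rw [h, sum_singleton]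

private lemma filter_succ' {n : ℕ} (j : Fin (n + 1)) :
    (univ.filter (fun i : Fin (n + 2) => i ≤ j.succ)) =
      insert j.succ (univ.filter (fun i : Fin (n + 2) => i ≤ j.castSucc)) := by
  ext i
  simp only [mem_filter, mem_univ, true_and, mem_insert]
  rw [Fin.le_def, Fin.le_def, Fin.ext_iff, Fin.val_succ, Fin.val_castSucc]
  omega

private lemma sum_succ' {N n : ℕ} (α : Fin (n + 2) → ZMod N) (j : Fin (n + 1)) :
    ∑ i ∈ univ.filter (fun i : Fin (n + 2) => i ≤ j.succ), α i = psum α j + α j.succ := by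
  unfold psum
  rw [filter_succ', sum_insert, add_comm]
  simp [Fin.le_def]

lemma psum_succ {N n : ℕ} (α : Fin (n + 2) → ZMod N) (j : Fin n) :
    psum α j.succ = psum α j.castSucc + α j.castSucc.succ := by
  rw [← sum_succ']
  rfl

lemma psum_last {N n : ℕ} {α : Fin (n + 2) → ZMod N} (hα : ∑ i, α i = 0) :
    psum α (Fin.last n) = - α (Fin.last (n + 1)) := by
  have h1 := sum_succ' α (Fin.last n)
  have h2 : univ.filter (fun i : Fin (n + 2) => i ≤ (Fin.last n).succ) = univ := by
    rw [Finset.filter_true_of_mem]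
    intro i _
    exact Fin.le_last i
  rw [h2, hα] at h1
  rw [eq_neg_iff_add_eq_zero]
  exact h1.symm

/-- The number of the exponents of the curves in the class of `c`. -/
lemma card_trip_eq {p N n : ℕ} {α : Fin (n + 2) → ZMod N} (hα : ∑ i, α i = 0) (c : ZMod N) :
    Nat.card {i : Fin n × Fin 3 // ∃ s : ℕ, (p : ZMod N) ^ s *
      tripE (psum α i.1.castSucc) (α i.1.castSucc.succ) i.2 = c} +
        (indP p (psum α 0) c + indP p (psum α 0) (-c) + (indP p (psum α (Fin.last n)) c +
        indP p (psum α (Fin.last n)) (-c))) =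
      Nat.card {i // ∃ s : ℕ, (p : ZMod N) ^ s * α i = c} +
        ∑ k : Fin (n + 1), (indP p (psum α k) c + indP p (psum α k) (-c)) := by
  have h1 : Nat.card {i : Fin n × Fin 3 // ∃ s : ℕ, (p : ZMod N) ^ s *
      tripE (psum α i.1.castSucc) (α i.1.castSucc.succ) i.2 = c} =
      ∑ j : Fin n, (indP p (psum α j.castSucc) c + indP p (α j.castSucc.succ) c +
        indP p (psum α j.succ) (-c)) := by
    rw [card_subtype_eq_sum, Fintype.sum_prod_type]
    refine sum_congr rfl fun j _ => ?_
    rw [Fin.sum_univ_three, psum_succ, ← indP_neg]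
    rfl
  have h2 : Nat.card {i // ∃ s : ℕ, (p : ZMod N) ^ s * α i = c} =
      indP p (α 0) c + (∑ j : Fin n, indP p (α j.castSucc.succ) c +
        indP p (α (Fin.last (n + 1))) c) := by
    rw [card_subtype_eq_sum, Fin.sum_univ_succ, Fin.sum_univ_castSucc]
    rfl
  have h3 : ∑ k : Fin (n + 1), indP p (psum α k) c =
      ∑ j : Fin n, indP p (psum α j.castSucc) c + indP p (psum α (Fin.last n)) c :=
    Fin.sum_univ_castSucc _
  have h4 : ∑ k : Fin (n + 1), indP p (psum α k) (-c) =
      indP p (psum α 0) (-c) + ∑ j : Fin n, indP p (psum α j.succ) (-c) :=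
    Fin.sum_univ_succ _
  have h5 : indP p (psum α 0) c = indP p (α 0) c := by rw [psum_zero]
  have h6 : indP p (psum α (Fin.last n)) (-c) = indP p (α (Fin.last (n + 1))) c := by
    rw [psum_last hα, indP_neg, neg_neg]
  rw [h1, h2, sum_add_distrib, sum_add_distrib, sum_add_distrib, h3, h4, h6]
  rw [h5]
  ring

/-- The exponents of the curves are balanced if and only if those of the diagonal hypersurface
are. -/
theorem isBalanced_iff_sum {p N n : ℕ} {α : Fin (n + 2) → ZMod N} (hα : ∑ i, α i = 0) :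
    IsBalanced p (fun j : Fin n => psum α j.castSucc) (fun j : Fin n => α j.castSucc.succ) ↔
      IsBalancedSum p α := by
  refine forall₂_congr fun c hc => ?_
  have h1 := card_trip_eq (p := p) hα c
  have h2 := card_trip_eq (p := p) hα (-c)
  rw [neg_neg] at h2
  have h3 : ∑ k : Fin (n + 1), (indP p (psum α k) (-c) + indP p (psum α k) c) =
      ∑ k : Fin (n + 1), (indP p (psum α k) c + indP p (psum α k) (-c)) :=
    sum_congr rfl fun k _ => add_comm _ _
  rw [h3] at h2
  change Nat.card {i : Fin n × Fin 3 // ∃ s : ℕ, (p : ZMod N) ^ s *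
      tripE (psum α i.1.castSucc) (α i.1.castSucc.succ) i.2 = c} =
    Nat.card {i : Fin n × Fin 3 // ∃ s : ℕ, (p : ZMod N) ^ s *
      tripE (psum α i.1.castSucc) (α i.1.castSucc.succ) i.2 = -c} ↔ _
  generalize Nat.card {i : Fin n × Fin 3 // ∃ s : ℕ, (p : ZMod N) ^ s *
      tripE (psum α i.1.castSucc) (α i.1.castSucc.succ) i.2 = c} = u₁ at h1 ⊢
  generalize Nat.card {i : Fin n × Fin 3 // ∃ s : ℕ, (p : ZMod N) ^ s *
      tripE (psum α i.1.castSucc) (α i.1.castSucc.succ) i.2 = -c} = u₂ at h2 ⊢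
  generalize Nat.card {i // ∃ s : ℕ, (p : ZMod N) ^ s * α i = c} = v₁ at h1 ⊢
  generalize Nat.card {i // ∃ s : ℕ, (p : ZMod N) ^ s * α i = -c} = v₂ at h2 ⊢
  omega

end UnrA.Fer
end

section

/-!
# Gluing: the terms and exponents
-/

namespace UnrG

universe u v w

open Finset

/-- The terms of the glued relation: the terms `Y_i`, `i ≠ a`, and the terms `-(Y_a / T_b) T_c`,
`c ≠ b`, where `T_0 + T_1 + T_2 = x + (1 - x) - 1 = 0`. -/
def gY {K : Type u} [Field K] {d : ℕ} (Y : Fin (d + 2) → K) (x : K) (a : Fin (d + 2))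
    (b : Fin 3) : Fin (d + 1 + 2) → K :=
  Fin.append (fun i : Fin (d + 1) => Y (a.succAbove i))
    (fun c : Fin 2 => -(Y a / trip x b) * trip x (b.succAbove c))

/-- The exponents of the glued relation. -/
def gE {N d : ℕ} (e : Fin (d + 2) → ZMod N) (B A : ZMod N) (a : Fin (d + 2)) (b : Fin 3) :
    Fin (d + 1 + 2) → ZMod N :=
  Fin.append (fun i : Fin (d + 1) => e (a.succAbove i)) (fun c : Fin 2 => tripE B A (b.succAbove c))

variable {K : Type u} [Field K] {d N : ℕ}

lemma trip_sum (x : K) : ∑ c, trip x c = 0 := by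
  rw [Fin.sum_univ_three]
  change x + (1 - x) + -1 = 0
  ring

lemma tripE_sum (B A : ZMod N) : ∑ c, tripE B A c = 0 := by
  rw [Fin.sum_univ_three]
  change B + A + -(B + A) = 0
  ring

lemma trip_ne {x : K} (h0 : x ≠ 0) (h1 : 1 - x ≠ 0) (c : Fin 3) : trip x c ≠ 0 := by
  fin_cases c
  · exact h0
  · exact h1
  · exact neg_ne_zero.2 one_ne_zero

/-- Hint: `Fin.sum_univ_add`, `Fin.append_left`, `Fin.append_right`, `Fin.sum_univ_succAbove`. -/
lemma gY_sum {Y : Fin (d + 2) → K} (hY : ∑ i, Y i = 0) {x : K} (h0 : x ≠ 0) (h1 : 1 - x ≠ 0)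
    (a : Fin (d + 2)) (b : Fin 3) : ∑ i, gY Y x a b i = 0 := by
  unfold gY
  rw [Fin.sum_univ_add]
  have e1 : ∀ i : Fin (d + 1), Fin.append (fun i : Fin (d + 1) => Y (a.succAbove i))
      (fun c : Fin 2 => -(Y a / trip x b) * trip x (b.succAbove c)) (Fin.castAdd 2 i) =
      Y (a.succAbove i) := fun i => Fin.append_left _ _ i
  have e2 : ∀ c : Fin 2, Fin.append (fun i : Fin (d + 1) => Y (a.succAbove i))
      (fun c : Fin 2 => -(Y a / trip x b) * trip x (b.succAbove c)) (Fin.natAdd (d + 1) c) =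
      -(Y a / trip x b) * trip x (b.succAbove c) := fun c => Fin.append_right _ _ c
  rw [Finset.sum_congr rfl fun i _ => e1 i, Finset.sum_congr rfl fun c _ => e2 c,
    ← Finset.mul_sum]
  rw [Fin.sum_univ_succAbove _ a] at hY
  have h2 := trip_sum x
  rw [Fin.sum_univ_succAbove _ b] at h2
  have h3 : ∑ c : Fin 2, trip x (b.succAbove c) = -trip x b := by linear_combination h2
  have h4 : ∑ i : Fin (d + 1), Y (a.succAbove i) = -Y a := by linear_combination hY
  have h5 := trip_ne h0 h1 b
  rw [h3, h4]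
  field_simp
  ring

lemma gE_sum {e : Fin (d + 2) → ZMod N} (he : ∑ i, e i = 0) {B A : ZMod N} {a : Fin (d + 2)}
    {b : Fin 3} (hab : e a + tripE B A b = 0) : ∑ i, gE e B A a b i = 0 := by
  unfold gE
  rw [Fin.sum_univ_add]
  have e1 : ∀ i : Fin (d + 1), Fin.append (fun i : Fin (d + 1) => e (a.succAbove i))
      (fun c : Fin 2 => tripE B A (b.succAbove c)) (Fin.castAdd 2 i) =
      e (a.succAbove i) := fun i => Fin.append_left _ _ i
  have e2 : ∀ c : Fin 2, Fin.append (fun i : Fin (d + 1) => e (a.succAbove i))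
      (fun c : Fin 2 => tripE B A (b.succAbove c)) (Fin.natAdd (d + 1) c) =
      tripE B A (b.succAbove c) := fun c => Fin.append_right _ _ c
  rw [Finset.sum_congr rfl fun i _ => e1 i, Finset.sum_congr rfl fun c _ => e2 c]
  rw [Fin.sum_univ_succAbove _ a] at he
  have h2 := tripE_sum B A
  rw [Fin.sum_univ_succAbove _ b] at h2
  linear_combination he + h2 - hab

/-- Hint: `Fin.addCases` (or `Fin.append` cases). -/
lemma gY_ne {Y : Fin (d + 2) → K} (hY : ∀ i, Y i ≠ 0) {x : K} (h0 : x ≠ 0) (h1 : 1 - x ≠ 0)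
    (a : Fin (d + 2)) (b : Fin 3) (i : Fin (d + 1 + 2)) : gY Y x a b i ≠ 0 := by
  unfold gY
  refine Fin.addCases (fun i => ?_) (fun c => ?_) i
  · rw [Fin.append_left]
    exact hY _
  · rw [Fin.append_right]
    exact mul_ne_zero (neg_ne_zero.2 (div_ne_zero (hY a) (trip_ne h0 h1 b)))
      (trip_ne h0 h1 _)

/-- Hint: `Finset.univ` of `Fin (n + 1)` is `insert a (image a.succAbove univ)`
(`Fin.univ_succAbove`), and `Fin (m + n)` is the disjoint union of the images of `castAdd`,
`natAdd` (or compare the sums `∑ i, {f i}` of singletons: `Multiset.map f univ.val = ∑ i, {f i}`,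
`Fin.sum_univ_add`, `Fin.sum_univ_succAbove`). -/
lemma tot_glue {l : ℕ} (e : Fin (d + 2) → ZMod N) (B A : Fin (l + 1) → ZMod N)
    (a : Fin (d + 2)) (b : Fin 3) :
    e a ::ₘ tripE (B (Fin.last l)) (A (Fin.last l)) b ::ₘ
      tot (gE e (B (Fin.last l)) (A (Fin.last l)) a b) (fun j => B j.castSucc)
        (fun j => A j.castSucc) = tot e B A := by
  have key : ∀ {s : ℕ} (f : Fin s → ZMod N),
      Multiset.map f (Finset.univ : Finset (Fin s)).val = ∑ i, ({f i} : Multiset (ZMod N)) := by
    intro s f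
    have h1 := Multiset.sum_map_singleton
      (Multiset.map f (Finset.univ : Finset (Fin s)).val)
    rw [Multiset.map_map] at h1
    exact h1.symm
  unfold tot
  rw [key e, key (gE e (B (Fin.last l)) (A (Fin.last l)) a b),
    Fin.sum_univ_castSucc (fun j => Multiset.map (tripE (B j) (A j)) Finset.univ.val),
    key (tripE (B (Fin.last l)) (A (Fin.last l)))]
  have e1 : ∀ i : Fin (d + 1), gE e (B (Fin.last l)) (A (Fin.last l)) a b (Fin.castAdd 2 i) =
      e (a.succAbove i) := fun i => Fin.append_left _ _ i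
  have e2 : ∀ c : Fin 2, gE e (B (Fin.last l)) (A (Fin.last l)) a b (Fin.natAdd (d + 1) c) =
      tripE (B (Fin.last l)) (A (Fin.last l)) (b.succAbove c) := fun c => Fin.append_right _ _ c
  rw [Fin.sum_univ_add (fun i => ({gE e (B (Fin.last l)) (A (Fin.last l)) a b i} :
    Multiset (ZMod N)))]
  rw [Finset.sum_congr rfl fun i _ => congrArg _ (e1 i),
    Finset.sum_congr rfl fun c _ => congrArg _ (e2 c)]
  rw [Fin.sum_univ_succAbove (fun i => ({e i} : Multiset (ZMod N))) a,
    Fin.sum_univ_succAbove (fun c => ({tripE (B (Fin.last l)) (A (Fin.last l)) c} :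
      Multiset (ZMod N))) b]
  rw [← Multiset.singleton_add, ← Multiset.singleton_add]
  abel

end UnrG
end

section

/-!
# Normalised coordinates
-/

namespace UnrG

universe u v w

open Polynomial Finset

variable {N : ℕ} {F K : Type u} [Field F] [Field K] [Algebra F K] {r d l : ℕ} {t : Fin r → K}
  {Y : Fin (d + 2) → K} {e : Fin (d + 2) → ZMod N} {x : Fin l → K} {B A : Fin l → ZMod N} {w : K}
  {K₀ : IntermediateField F K}

/-- The normalised terms. -/
def nY {K : Type u} [Field K] {d : ℕ} (Y : Fin (d + 2) → K) (π : Equiv.Perm (Fin (d + 2)))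
    (i : Fin (d + 2)) : K := Y (π i) / Y (π (Fin.last (d + 1)))

/-- The coefficient. -/
def nD {K : Type u} [Field K] {N l : ℕ} (x : Fin l → K) (B A : Fin l → ZMod N) : K :=
  ∏ j, (x j ^ (B j).val * (1 - x j) ^ (A j).val)

lemma Sys.nY_ne (h : Sys N t Y e x B A w K₀) (π : Equiv.Perm (Fin (d + 2))) (i : Fin (d + 2)) :
    nY Y π i ≠ 0 ∧ nY Y π (Fin.last (d + 1)) = 1 :=
  ⟨div_ne_zero (h.Y_ne _) (h.Y_ne _), div_self (h.Y_ne _)⟩

/-- Hint: `Equiv.sum_comp`, `Finset.sum_div`. -/
lemma Sys.nY_sum (h : Sys N t Y e x B A w K₀) (π : Equiv.Perm (Fin (d + 2))) :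
    ∑ i, nY Y π i = 0 := by
  unfold nY
  rw [← Finset.sum_div, Equiv.sum_comp π Y, h.sum_Y, zero_div]

/-- Hint: the elements `x j = Fin.append t x (natAdd j)` lie in the field. -/
lemma Sys.nD_mem (h : Sys N t Y e x B A w K₀) :
    nD x B A ∈ IntermediateField.adjoin F (Set.range (Fin.append t x)) ∧ nD x B A ≠ 0 := by
  have hx : ∀ j, x j ∈ IntermediateField.adjoin F (Set.range (Fin.append t x)) := fun j =>
    IntermediateField.subset_adjoin F _ ⟨Fin.natAdd r j, Fin.append_right t x j⟩
  constructor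
  · unfold nD
    exact prod_mem fun j _ => mul_mem (pow_mem (hx j) _)
      (pow_mem (sub_mem (one_mem _) (hx j)) _)
  · unfold nD
    exact Finset.prod_ne_zero_iff.2 fun j _ =>
      mul_ne_zero (pow_ne_zero _ (h.x_ne j)) (pow_ne_zero _ (h.x_ne_one j))

/-- Hint: the quotients `Y i / Y j` are the quotients of the normalised terms. -/
lemma Sys.K₀_eq' (h : Sys N t Y e x B A w K₀) (π : Equiv.Perm (Fin (d + 2))) :
    K₀ = IntermediateField.adjoin F (Set.range (Fin.append t x) ∪ Set.range (nY Y π)) := by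
  rw [h.K₀_eq]
  apply le_antisymm
  · rw [IntermediateField.adjoin_le_iff]
    rintro z ((⟨i, rfl⟩ | ⟨i, j, rfl⟩) | ⟨j, rfl⟩)
    · exact IntermediateField.subset_adjoin F _
        (Or.inl ⟨Fin.castAdd l i, Fin.append_left t x i⟩)
    · have h1 : Y i / Y j = nY Y π (π.symm i) / nY Y π (π.symm j) := by
        unfold nY
        rw [Equiv.apply_symm_apply, Equiv.apply_symm_apply,
          div_div_div_cancel_right₀ (h.Y_ne _)]
      rw [h1]
      exact div_mem (IntermediateField.subset_adjoin F _ (Or.inr ⟨_, rfl⟩))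
        (IntermediateField.subset_adjoin F _ (Or.inr ⟨_, rfl⟩))
    · exact IntermediateField.subset_adjoin F _
        (Or.inl ⟨Fin.natAdd r j, Fin.append_right t x j⟩)
  · rw [IntermediateField.adjoin_le_iff]
    rintro z (⟨i, rfl⟩ | ⟨i, rfl⟩)
    · refine Fin.addCases (fun i => ?_) (fun j => ?_) i
      · rw [Fin.append_left]
        exact IntermediateField.subset_adjoin F _ (Or.inl (Or.inl ⟨i, rfl⟩))
      · rw [Fin.append_right]
        exact IntermediateField.subset_adjoin F _ (Or.inr ⟨j, rfl⟩)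
    · exact IntermediateField.subset_adjoin F _ (Or.inl (Or.inr ⟨_, _, rfl⟩))

end UnrG
end

section

/-!
# Gluing: the subfield
-/

namespace UnrG

universe u v w

open Finset

variable {N : ℕ} {F K : Type u} [Field F] [Field K] [Algebra F K] {r d l : ℕ}

/-- Proof: `⊇`: the quotients of the terms of `gY` are products of quotients of the `Y_i` and the
elements `trip x c`. `⊆`: `Y a / gY j = -∑_{i ≠ a} Y i / gY j` lies in the right-hand side
(`∑ Y = 0`, `Fin.sum_univ_succAbove`), so all quotients of the `Y_i` do; and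
`trip x c / trip x b = -gY / Y a` for `c ≠ b`, so all quotients `trip x c / trip x c'` lie in the
right-hand side, in particular `x = -(trip x 0 / trip x 2)`. -/
lemma glue_adjoin {t : Fin r → K} {Y : Fin (d + 2) → K} (hY : ∀ i, Y i ≠ 0)
    (hsum : ∑ i, Y i = 0) {x : Fin (l + 1) → K} (h0 : ∀ j, x j ≠ 0) (h1 : ∀ j, 1 - x j ≠ 0)
    (a : Fin (d + 2)) (b : Fin 3) :
    IntermediateField.adjoin F
        (Set.range t ∪ {z | ∃ i j, z = Y i / Y j} ∪ Set.range x) =
      IntermediateField.adjoin F
        (Set.range t ∪ {z | ∃ i j, z = gY Y (x (Fin.last l)) a b i / gY Y (x (Fin.last l)) a b j} ∪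
          Set.range (fun j : Fin l => x j.castSucc)) := by
  obtain ⟨X, hX⟩ : ∃ X, X = x (Fin.last l) := ⟨_, rfl⟩
  have hX0 : X ≠ 0 := hX ▸ h0 _
  have hX1 : 1 - X ≠ 0 := hX ▸ h1 _
  rw [← hX]
  have hTb : trip X b ≠ 0 := trip_ne hX0 hX1 b
  have hg0 : ∀ i, gY Y X a b i ≠ 0 := gY_ne hY hX0 hX1 a b
  have hgl : ∀ i : Fin (d + 1), gY Y X a b (Fin.castAdd 2 i) = Y (a.succAbove i) := by
    intro i
    unfold gY
    rw [Fin.append_left]
  have hgr : ∀ c : Fin 2, gY Y X a b (Fin.natAdd (d + 1) c) =
      -(Y a / trip X b) * trip X (b.succAbove c) := by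
    intro c
    unfold gY
    rw [Fin.append_right]
  apply le_antisymm
  · rw [IntermediateField.adjoin_le_iff]
    set R := IntermediateField.adjoin F
        (Set.range t ∪ {z | ∃ i j, z = gY Y X a b i / gY Y X a b j} ∪
          Set.range (fun j : Fin l => x j.castSucc)) with hR
    have hgR : ∀ i j, gY Y X a b i / gY Y X a b j ∈ R := fun i j =>
      IntermediateField.subset_adjoin F _ (Or.inl (Or.inr ⟨i, j, rfl⟩))
    have hYg1 : ∀ (i : Fin (d + 1)) j, Y (a.succAbove i) / gY Y X a b j ∈ R := by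
      intro i j
      rw [← hgl i]
      exact hgR _ j
    have hYg : ∀ i j, Y i / gY Y X a b j ∈ R := by
      intro i j
      by_cases hi : i = a
      · have h2 : Y i = -∑ i : Fin (d + 1), Y (a.succAbove i) := by
          rw [Fin.sum_univ_succAbove _ a] at hsum
          rw [hi]
          exact eq_neg_of_add_eq_zero_left hsum
        rw [h2, neg_div, Finset.sum_div]
        exact neg_mem (sum_mem fun i _ => hYg1 i j)
      · obtain ⟨i', rfl⟩ := Fin.exists_succAbove_eq hi
        exact hYg1 i' j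
    have hYY : ∀ i j, Y i / Y j ∈ R := by
      intro i j
      have h2 : Y i / Y j = (Y i / gY Y X a b 0) / (Y j / gY Y X a b 0) := by
        rw [div_div_div_cancel_right₀ (hg0 0)]
      rw [h2]
      exact div_mem (hYg i 0) (hYg j 0)
    have hTT : ∀ c, trip X c / trip X b ∈ R := by
      intro c
      by_cases hc : c = b
      · rw [hc, div_self hTb]
        exact one_mem R
      · obtain ⟨c', rfl⟩ := Fin.exists_succAbove_eq hc
        have h2 : trip X (b.succAbove c') / trip X b =
            -(gY Y X a b (Fin.natAdd (d + 1) c') / gY Y X a b 0) / (Y a / gY Y X a b 0) := by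
          rw [hgr c']
          have h3 := hY a
          have h4 := hg0 0
          field_simp
        rw [h2]
        exact div_mem (neg_mem (hgR _ _)) (hYg a 0)
    have hXR : X ∈ R := by
      have h2 : X = -((trip X 0 / trip X b) / (trip X 2 / trip X b)) := by
        rw [div_div_div_cancel_right₀ hTb]
        change X = -(X / -1)
        rw [div_neg, div_one, neg_neg]
      rw [h2]
      exact neg_mem (div_mem (hTT 0) (hTT 2))
    rintro z ((⟨i, rfl⟩ | ⟨i, j, rfl⟩) | ⟨j, rfl⟩)
    · exact IntermediateField.subset_adjoin F _ (Or.inl (Or.inl ⟨i, rfl⟩))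
    · exact hYY i j
    · refine Fin.lastCases ?_ (fun j => ?_) j
      · rw [← hX]
        exact hXR
      · exact IntermediateField.subset_adjoin F _ (Or.inr ⟨j, rfl⟩)
  · rw [IntermediateField.adjoin_le_iff]
    set L := IntermediateField.adjoin F
        (Set.range t ∪ {z | ∃ i j, z = Y i / Y j} ∪ Set.range x) with hL
    have hYY : ∀ i j, Y i / Y j ∈ L := fun i j =>
      IntermediateField.subset_adjoin F _ (Or.inl (Or.inr ⟨i, j, rfl⟩))
    have hXL : X ∈ L := by
      rw [hX]
      exact IntermediateField.subset_adjoin F _ (Or.inr ⟨_, rfl⟩)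
    have hTL : ∀ c, trip X c ∈ L := by
      intro c
      fin_cases c
      · exact hXL
      · exact sub_mem (one_mem L) hXL
      · exact neg_mem (one_mem L)
    have hgL : ∀ i, gY Y X a b i / Y a ∈ L := by
      intro i
      refine Fin.addCases (fun i => ?_) (fun c => ?_) i
      · rw [hgl]
        exact hYY _ _
      · rw [hgr]
        have h2 : -(Y a / trip X b) * trip X (b.succAbove c) / Y a =
            -(trip X (b.succAbove c) / trip X b) := by
          have h3 := hY a
          field_simp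
        rw [h2]
        exact neg_mem (div_mem (hTL _) (hTL _))
    rintro z ((⟨i, rfl⟩ | ⟨i, j, rfl⟩) | ⟨j, rfl⟩)
    · exact IntermediateField.subset_adjoin F _ (Or.inl (Or.inl ⟨i, rfl⟩))
    · rw [← div_div_div_cancel_right₀ (hY a)]
      exact div_mem (hgL i) (hgL j)
    · exact IntermediateField.subset_adjoin F _ (Or.inr ⟨_, rfl⟩)

end UnrG
end

section

/-!
# The Bézout relation for the Frobenius polynomial
-/

namespace UnrG

universe u v w

open Polynomial Finset
open scoped Classical

variable {𝔽 : Type w} [Field 𝔽] [Fintype 𝔽] (b : Base 𝔽)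

/-- The Bézout relation. Proof: by `exists_int_bezout` it suffices that the polynomials have no
common complex root `z`. A common root has `z ^ N' = 1`, `N' = orderOf (ζ ^ k)`, and
`∑ j < N, z ^ (j i) = 0`, so `z ^ i ≠ 1`, whenever `¬ N ∣ k i`, i.e. whenever `¬ N' ∣ i`; so `z` is
a primitive `N'`-th root of unity, `z = ω' ^ k` by `exists_primitive_lift`. Then
`q ^ 2 = (-1) ^ n ∏ jac (z)`, and taking `Complex.normSq` with `Base.normSq_jac`: `q ^ 4 = q ^ n`,
so `n = 4` as `q ≥ 2`; then `∏ jac (z) = q ^ 2`, contradicting the hypothesis `hn`. -/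
theorem Base.exists_bezout {n : ℕ} (bb aa : Fin n → ℕ)
    (hn : n = 4 → ∀ χ : MulChar 𝔽 ℂ, orderOf χ = b.N →
      ∏ j, jacobiSum (χ ^ bb j) (χ ^ aa j) ≠ (b.q : ℂ) ^ 2)
    (h1 : ∀ j, ¬ b.N ∣ bb j) (h2 : ∀ j, ¬ b.N ∣ aa j) (h3 : ∀ j, ¬ b.N ∣ bb j + aa j) (k : ℕ)
    (l : Fin n → 𝔽 → ℕ)
    (hl : ∀ (j : Fin n) (c' : 𝔽), c' ≠ 0 → c' ≠ 1 →
      (b.ζ ^ k) ^ l j c' = (c' ^ b.e) ^ bb j * ((1 - c') ^ b.e) ^ aa j) :
    ∃ D : ℤ, D ≠ 0 ∧ C D ∈ Ideal.span (({X ^ orderOf (b.ζ ^ k) - 1,
        C ((b.q : ℤ) ^ 2) - (-1) ^ n * ∏ j, jacPoly 𝔽 (l j)} : Set ℤ[X]) ∪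
      {f | ∃ i : ℕ, ¬ b.N ∣ k * i ∧ f = ∑ j ∈ range b.N, X ^ (j * i)}) := by
  apply exists_int_bezout
  intro z
  by_contra hcon
  push Not at hcon
  have e1 : z ^ orderOf (b.ζ ^ k) = 1 := by
    have h := hcon (X ^ orderOf (b.ζ ^ k) - 1) (Or.inl (Or.inl rfl))
    rw [map_sub, map_pow, aeval_X, map_one, sub_eq_zero] at h
    exact h
  have e2 : ((b.q : ℂ)) ^ 2 = (-1) ^ n * ∏ j, ∑ c ∈ univ.filter (fun c : 𝔽 => c ≠ 0 ∧ c ≠ 1),
      z ^ l j c := by
    have h := hcon (C ((b.q : ℤ) ^ 2) - (-1) ^ n * ∏ j, jacPoly 𝔽 (l j)) (Or.inl (Or.inr rfl))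
    have h3' : aeval z ((-1 : ℤ[X]) ^ n) = (-1) ^ n := by
      rw [map_pow, map_neg, map_one]
    have h4 : algebraMap ℤ ℂ ((b.q : ℤ) ^ 2) = (b.q : ℂ) ^ 2 := by
      rw [map_pow]
      simp
    rw [map_sub, aeval_C, map_mul, h3', h4, map_prod, sub_eq_zero] at h
    rw [h]
    congr 1
    refine Finset.prod_congr rfl fun j _ => ?_
    rw [jacPoly, map_sum]
    exact Finset.sum_congr rfl fun c _ => by rw [map_pow, aeval_X]
  have e3 : ∀ i : ℕ, ¬ b.N ∣ k * i → z ^ i ≠ 1 := by
    intro i hi hz
    have h := hcon (∑ j ∈ range b.N, X ^ (j * i)) (Or.inr ⟨i, hi, rfl⟩)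
    rw [map_sum] at h
    have h5 : ∀ j ∈ range b.N, aeval z (X ^ (j * i) : ℤ[X]) = 1 := by
      intro j _
      rw [map_pow, aeval_X, mul_comm, pow_mul, hz, one_pow]
    rw [Finset.sum_congr rfl h5, Finset.sum_const, card_range, nsmul_eq_mul, mul_one] at h
    have h6 : b.N = 0 := by exact_mod_cast h
    exact b.N_pos.ne' h6
  have hprim : IsPrimitiveRoot z (orderOf (b.ζ ^ k)) := by
    refine ⟨e1, fun i hi => ?_⟩
    by_contra hdvd
    refine e3 i (fun h => hdvd ?_) hi
    rw [orderOf_dvd_iff_pow_eq_one, ← pow_mul]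
    exact (b.hζ.pow_eq_one_iff_dvd _).2 h
  obtain ⟨ω', hω', hω'k⟩ := exists_primitive_lift b.N_pos b.hζ hprim
  have h7 : ∀ j, Complex.normSq (∑ c ∈ univ.filter (fun c : 𝔽 => c ≠ 0 ∧ c ≠ 1), z ^ l j c) =
      b.q := by
    intro j
    rw [← hω'k]
    exact b.normSq_jac hω' (bb j) (aa j) (h1 j) (h2 j) (h3 j) (l j) (hl j)
  have h8 := congrArg Complex.normSq e2
  rw [map_pow, map_mul, map_pow, map_prod, Finset.prod_congr rfl (fun j _ => h7 j),
    Finset.prod_const, card_univ, Fintype.card_fin, Complex.normSq_neg, map_one, one_pow, one_mul,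
    Complex.normSq_natCast] at h8
  have h9 : ((b.q : ℝ)) ^ 4 = (b.q : ℝ) ^ n := by
    rw [← h8]
    ring
  have h10 : b.q ^ 4 = b.q ^ n := by exact_mod_cast h9
  have hq : 2 ≤ b.q := by
    have h11 := Nat.mul_pos b.N_pos b.e_pos
    unfold Base.q
    omega
  have h12 : n = 4 := (Nat.pow_right_injective hq h10).symm
  obtain ⟨χ, hχ, hχ1⟩ := b.exists_char hω'
  have h13 : orderOf χ = b.N :=
    Nat.dvd_antisymm (orderOf_dvd_of_pow_eq_one ((hχ1 b.N).mpr dvd_rfl))
      ((hχ1 _).mp (pow_orderOf_eq_one χ))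
  apply hn h12 χ h13
  have h14 : (-1 : ℂ) ^ n = 1 := by rw [h12]; norm_num
  rw [e2, h14, one_mul]
  refine Finset.prod_congr rfl fun j _ => ?_
  rw [← hω'k]
  exact (b.jac_eq hω' (bb j) (aa j) (l j) (hl j) hχ).symm

end UnrG
end

section

/-!
# Good classes are stable under the diagonal endomorphisms
-/

namespace UnrG

universe u v w

open Polynomial Finset
open scoped Classical

variable {m : ℕ} {𝔽 : Type w} [Field 𝔽] [Fintype 𝔽] (b : Base 𝔽)

variable {F M : Type u} [Field F] [Field M] [Algebra F M] (ι : 𝔽 →+* F) {r n : ℕ}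
  {t : Fin r → M} {x y : Fin n → M}

/-- The images of good classes under diagonal endomorphisms are good. Hint: `τ` multiplies the
monomial by a constant and fixes `x_j ^ N` (`ζ ^ N = 1`), so `f ∘ τ` and `g ∘ τ` agree on the
generators if `f`, `g` do; diagonal endomorphisms commute (`ProdData.ext`), so
`∑ f ^ i (τ Z) = τ (∑ f ^ i Z) = 0`. -/
lemma Good.map_diag (hP : ProdData (F := F) b t x y) {bb aa : Fin n → ℕ} {Z : KM m M}
    (h : Good b F ι t x y bb aa Z) {a c : Fin n → ℕ} {τ : M →+* M}
    (hτ : IsDiag b ι t x y a c τ) : Good b F ι t x y bb aa (KM.map m τ Z) := by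
  refine ⟨h.unr.map τ, fun f g h1 h2 h3 h4 => ?_, fun a' c' f hf hN => ?_⟩
  · rw [KM.map_map, KM.map_map]
    refine h.inv (f.comp τ) (g.comp τ) (fun a => ?_) (fun i => ?_) (fun j => ?_) ?_
    · rw [RingHom.comp_apply, RingHom.comp_apply, hτ.const]
      exact h1 a
    · rw [RingHom.comp_apply, RingHom.comp_apply, hτ.ft]
      exact h2 i
    · have h3' := h3 j
      rw [map_pow, map_pow] at h3'
      rw [RingHom.comp_apply, RingHom.comp_apply, map_pow, hτ.fx]
      simp only [map_pow, map_mul, mul_pow, h1, h3']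
    · rw [RingHom.comp_apply, RingHom.comp_apply, hτ.map_mono b ι, map_mul, map_mul, map_pow,
        map_pow, h1, h4]
  · have hcomm : ∀ i : ℕ, (f ^ i).comp τ = τ.comp (f ^ i) := by
      intro i
      have hi := hf.pow b ι i
      have e1 := hi.comp b ι hτ
      have e2 := hτ.comp b ι hi
      refine hP.ext b (fun a => ?_) (fun k => ?_) (fun k => ?_) (fun k => ?_)
      · rw [e1.const, e2.const]
      · rw [e1.ft, e2.ft]
      · rw [e1.fx, e2.fx, add_comm]
      · rw [e1.fy, e2.fy, add_comm]
    have h1 : ∀ i ∈ range b.N, KM.map m (f ^ i) (KM.map m τ Z) =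
        KM.map m τ (KM.map m (f ^ i) Z) := by
      intro i _
      rw [KM.map_map, KM.map_map, hcomm]
    rw [sum_congr rfl h1, ← map_sum, h.new a' c' f hf hN, map_zero]

/-- Hint: `Polynomial.induction_on`, `Good.add`, `Good.zsmul`, `Good.map_diag`, `actL_pow`,
`IsDiag.pow`. -/
lemma Good.aeval (hP : ProdData (F := F) b t x y) {bb aa : Fin n → ℕ} {Z : KM m M}
    (h : Good b F ι t x y bb aa Z) {a c : Fin n → ℕ} {τ : M →+* M}
    (hτ : IsDiag b ι t x y a c τ) (P : ℤ[X]) :
    Good b F ι t x y bb aa (Polynomial.aeval (actL m τ) P Z) := by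
  induction P using Polynomial.induction_on' with
  | add p q hp hq =>
    rw [map_add, LinearMap.add_apply]
    exact hp.add b ι hq
  | monomial k c =>
    rw [Polynomial.aeval_monomial, Module.End.mul_apply, actL_pow, Module.algebraMap_end_apply]
    exact (h.map_diag b ι hP (hτ.pow b ι k)).zsmul b ι c

end UnrG
end

section

/-!
# Local expansions of polynomials
-/

namespace UnrG

universe u v w

open Polynomial Finset
open scoped Classical

variable {m : ℕ} {K : Type u} [Field K]

/-- A nonzero power series has nonnegative valuation. Hint: `lauVal_v`, the coefficients of the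
coerced series vanish in negative degrees (`PowerSeries.coeff_coe`), and
`HahnSeries.coeff_order_eq_zero`. -/
lemma lauVal_coe_nonneg (f : PowerSeries K) (hf : f ≠ 0) :
    0 ≤ (lauVal K).v (f : LaurentSeries K) := by
  rw [lauVal_v]
  by_contra hcon
  push Not at hcon
  have h1 : (f : LaurentSeries K).coeff (f : LaurentSeries K).order = 0 := by
    rw [PowerSeries.coeff_coe, if_pos hcon]
  rw [HahnSeries.coeff_order_eq_zero] at h1
  apply hf
  have h2 : (HahnSeries.ofPowerSeries ℤ K) f = (HahnSeries.ofPowerSeries ℤ K) 0 := by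
    rw [map_zero]
    exact h1
  exact HahnSeries.ofPowerSeries_injective h2

private lemma L1_eval (p : K[X]) :
    ((p : PowerSeries K) : LaurentSeries K)
      = p.eval₂ (HahnSeries.C : K →+* LaurentSeries K) (lT K) := by
  have h : (HahnSeries.ofPowerSeries ℤ K).comp (Polynomial.coeToPowerSeries.ringHom (R := K))
      = eval₂RingHom (HahnSeries.C : K →+* LaurentSeries K) (lT K) := by
    refine Polynomial.ringHom_ext (fun a => ?_) ?_
    · simp
    · simp [lT]
  have := RingHom.congr_fun h p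
  simpa using this

/-- The expansion of a polynomial at `c` is a power series whose constant term is the value and
whose linear term is the value of the derivative. Hint: take `g` the coercion to power series of
`f.comp (C c + X)` (`lau_algebraMap`, `PowerSeries.coe_C`, `PowerSeries.coe_X`; `lT` is
`HahnSeries.single 1 1`); or polynomial induction on `f`. -/
lemma lau_poly (c : K) (f : K[X]) : ∃ g : PowerSeries K,
    lau c (algebraMap K[X] (RatFunc K) f) = (g : LaurentSeries K) ∧
      PowerSeries.constantCoeff g = f.eval c ∧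
      PowerSeries.coeff 1 g = f.derivative.eval c := by
  refine ⟨(taylor c f : K[X]), ?_, ?_, ?_⟩
  · rw [L1_eval, lau_algebraMap, taylor_apply, eval₂_comp]
    congr 1
    rw [eval₂_add, eval₂_X, eval₂_C, add_comm]
  · rw [← PowerSeries.coeff_zero_eq_constantCoeff_apply, Polynomial.coeff_coe, taylor_coeff_zero]
  · rw [Polynomial.coeff_coe, taylor_coeff_one]

end UnrG
end

section

/-!
# Scaling the parameter
-/

namespace UnrG

universe u v w

open Polynomial Finset
open scoped Classical

variable {m : ℕ} {K : Type u} [Field K]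

/-- The substitution `T ↦ c T` on Laurent series, as a function. -/
private noncomputable def L7_fun (c : K) (a : LaurentSeries K) : LaurentSeries K where
  coeff i := c ^ i * a.coeff i
  isPWO_support' := a.isPWO_support'.mono (fun i hi => by
    rw [Function.mem_support] at hi ⊢
    exact right_ne_zero_of_mul hi)

private lemma L7_coeff (c : K) (a : LaurentSeries K) (i : ℤ) :
    (L7_fun c a).coeff i = c ^ i * a.coeff i := rfl

private lemma L7_support {c : K} (hc : c ≠ 0) (a : LaurentSeries K) (i : ℤ) :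
    (L7_fun c a).coeff i ≠ 0 ↔ a.coeff i ≠ 0 := by
  rw [L7_coeff, mul_ne_zero_iff]
  exact ⟨fun h => h.2, fun h => ⟨zpow_ne_zero _ hc, h⟩⟩

/-- The substitution `T ↦ c T` in Laurent series. Hint: define the coefficients by
`c ^ i * a.coeff i` (same support when `c ≠ 0`) and check the ring axioms with
`HahnSeries.coeff_mul`; or extend `PowerSeries.rescale c` to the localization. -/
theorem exists_scale (c : K) (hc : c ≠ 0) : ∃ s : LaurentSeries K →+* LaurentSeries K,
    ∀ (a : LaurentSeries K) (i : ℤ), (s a).coeff i = c ^ i * a.coeff i := by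
  refine ⟨{ toFun := L7_fun c, map_one' := ?_, map_mul' := ?_, map_zero' := ?_, map_add' := ?_ },
    fun a i => rfl⟩
  · ext i
    rw [L7_coeff, HahnSeries.coeff_one]
    split_ifs with h
    · rw [h, zpow_zero, mul_one]
    · rw [mul_zero]
  · intro x y
    ext i
    rw [L7_coeff, HahnSeries.coeff_mul, HahnSeries.coeff_mul, Finset.mul_sum]
    have h1 : antidiagonal (L7_fun c x).isPWO_support (L7_fun c y).isPWO_support i =
        antidiagonal x.isPWO_support y.isPWO_support i := by
      ext ij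
      rw [Finset.mem_antidiagonal, Finset.mem_antidiagonal, HahnSeries.mem_support,
        HahnSeries.mem_support, HahnSeries.mem_support, HahnSeries.mem_support,
        L7_support hc, L7_support hc]
    rw [h1]
    refine Finset.sum_congr rfl (fun ij hij => ?_)
    rw [Finset.mem_antidiagonal] at hij
    rw [L7_coeff, L7_coeff, ← hij.2.2, zpow_add₀ hc]
    ring
  · ext i
    rw [L7_coeff]
    simp
  · intro x y
    ext i
    rw [L7_coeff, HahnSeries.coeff_add, HahnSeries.coeff_add, L7_coeff, L7_coeff, mul_add]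

/-- The specialization of an unramified class does not depend on the parameter. Hint:
`DVal.θ_map` with `D = D' = lauVal K`, `f = s`, `j = RingHom.id K`, `e = 1`; the first component
is `spec + res * sym c`. -/
theorem spec_scale (hm : Any m) (c : K) (hc : c ≠ 0) (s : LaurentSeries K →+* LaurentSeries K)
    (hs : ∀ (a : LaurentSeries K) (i : ℤ), (s a).coeff i = c ^ i * a.coeff i)
    {x : KM m (LaurentSeries K)} (hx : (lauVal K).res hm x = 0) :
    (lauVal K).spec hm (KM.map m s x) = (lauVal K).spec hm x := by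
  have key : ∀ a : LaurentSeries K, a ≠ 0 → (s a).order = a.order ∧
      (s a).leadingCoeff = a.leadingCoeff * c ^ a.order := by
    intro a ha
    have h1 := lau_order_eq (b := s a) (n := a.order) (by
      intro i hi
      rw [hs, HahnSeries.coeff_eq_zero_of_lt_order hi, mul_zero]) (by
      rw [hs]
      refine mul_ne_zero (zpow_ne_zero _ hc) ?_
      rw [← HahnSeries.leadingCoeff_eq]
      exact HahnSeries.leadingCoeff_ne_zero.mpr ha)
    refine ⟨h1.1, ?_⟩
    rw [h1.2, hs, mul_comm, HahnSeries.leadingCoeff_eq]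
  have h2 := DVal.θ_map hm (lauVal K) (lauVal K) s (RingHom.id K) 1 c hc
    (fun a ha => by rw [lauVal_v, lauVal_v, (key a ha).1, one_mul])
    (fun a ha => by rw [lauVal_ρ, lauVal_ρ, lauVal_v, (key a ha).2, RingHom.id_apply]) x
  have h3 : ((lauVal K).θ hm x).snd = 0 := hx
  rw [DVal.spec_apply, DVal.spec_apply, h2, h3]
  simp only [KM.map_id, AlgHom.id_apply, zero_mul, add_zero]

end UnrG
end

section

/-!
# The Frobenius in the rational coordinates
-/

namespace UnrG

universe u v w

open Polynomial Finset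
open scoped Classical

variable {m : ℕ} {𝔽 : Type w} [Field 𝔽] [Fintype 𝔽] (b : Base 𝔽)

variable {F M : Type u} [Field F] [Field M] [Algebra F M] (ι : 𝔽 →+* F) {r n : ℕ}
  {t : Fin r → M} {x y : Fin n → M}

private lemma P4_tower (h : ProdData (F := F) b t x y) (i : Fin r) :
    ∃ (K : Type u) (_ : Field K) (j : K →+* M), (∀ f : K[X], f ≠ 0 → f.eval₂ j (t i) ≠ 0) ∧
      Subfield.closure (Set.range j ∪ {t i}) = ⊤ ∧ (∀ a : F, algebraMap F M a ∈ j.range) ∧
      (∀ k, k ≠ i → t k ∈ j.range) ∧ (∀ k, x k ∈ j.range) ∧ (∀ k, y k ∈ j.range) := by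
  set S : Set M := Sum.elim t x '' {Sum.inl i}ᶜ with hS
  have htr : Transcendental (IntermediateField.adjoin F S) (t i) := by
    rw [IntermediateField.transcendental_adjoin_iff]
    exact h.ind.transcendental_adjoin (s := {Sum.inl i}ᶜ) (i := Sum.inl i) (by simp)
  set K0 := IntermediateField.adjoin F S with hK0
  have hxS : ∀ k, x k ∈ K0 := fun k =>
    IntermediateField.subset_adjoin F S ⟨Sum.inr k, by simp, rfl⟩
  have htS : ∀ k, k ≠ i → t k ∈ K0 := fun k hk =>
    IntermediateField.subset_adjoin F S ⟨Sum.inl k, by simpa using hk, rfl⟩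
  have hy : ∀ z ∈ Set.range y, IsIntegral K0 z := by
    rintro _ ⟨k, rfl⟩
    refine ⟨X ^ b.N - C (1 - ⟨x k, hxS k⟩ ^ b.N), monic_X_pow_sub_C _ b.N_pos.ne', ?_⟩
    rw [eval₂_sub, eval₂_X_pow, eval₂_C, map_sub, map_one, map_pow]
    have h1 := h.eq k
    have h2 : algebraMap K0 M ⟨x k, hxS k⟩ = x k := rfl
    rw [h2, ← h1]
    ring
  have halg : Algebra.IsAlgebraic K0 (IntermediateField.adjoin K0 (Set.range y)) :=
    IntermediateField.isAlgebraic_adjoin hy
  have htr2 : Transcendental (IntermediateField.adjoin K0 (Set.range y)) (t i) :=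
    htr.extendScalars _
  have hF : ∀ a : F, algebraMap F M a ∈
      (algebraMap (IntermediateField.adjoin K0 (Set.range y)) M).range := fun a =>
    ⟨⟨algebraMap F M a, (IntermediateField.adjoin K0 (Set.range y)).algebraMap_mem
      (algebraMap F K0 a)⟩, rfl⟩
  have hK : ∀ a : K0, (a : M) ∈
      (algebraMap (IntermediateField.adjoin K0 (Set.range y)) M).range := fun a =>
    ⟨⟨(a : M), (IntermediateField.adjoin K0 (Set.range y)).algebraMap_mem a⟩, rfl⟩
  have hY : ∀ k, y k ∈
      (algebraMap (IntermediateField.adjoin K0 (Set.range y)) M).range := fun k =>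
    ⟨⟨y k, IntermediateField.subset_adjoin K0 _ ⟨k, rfl⟩⟩, rfl⟩
  refine ⟨IntermediateField.adjoin K0 (Set.range y), inferInstance,
    algebraMap _ M, ?_, ?_, hF, fun k hk => hK ⟨t k, htS k hk⟩, fun k => hK ⟨x k, hxS k⟩, hY⟩
  · intro f hf hf0
    exact hf ((transcendental_iff.mp htr2) f hf0)
  · set C := Subfield.closure (Set.range (algebraMap (IntermediateField.adjoin K0 (Set.range y)) M)
      ∪ {t i}) with hC
    have hsub : ∀ z, z ∈ (algebraMap (IntermediateField.adjoin K0 (Set.range y)) M).range →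
        z ∈ C := fun z hz => Subfield.subset_closure (Or.inl (by simpa using hz))
    have hmem : ∀ z : M, z ∈ C := by
      intro z
      have hz : z ∈ IntermediateField.adjoin F (Set.range t ∪ Set.range x ∪ Set.range y) := by
        rw [h.gen]; trivial
      have hle : IntermediateField.adjoin F (Set.range t ∪ Set.range x ∪ Set.range y) ≤
          C.toIntermediateField (fun a => hsub _ (hF a)) := by
        rw [IntermediateField.adjoin_le_iff]
        rintro w ((⟨k, rfl⟩ | ⟨k, rfl⟩) | ⟨k, rfl⟩)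
        · by_cases hk : k = i
          · rw [hk]
            exact Subfield.subset_closure (Or.inr rfl)
          · exact hsub _ (hK ⟨t k, htS k hk⟩)
        · exact hsub _ (hK ⟨x k, hxS k⟩)
        · exact hsub _ (hY k)
      exact hle hz
    exact eq_top_iff.mpr fun z _ => hmem z

private lemma P4_one (hm : Any m) (h : ProdData (F := F) b t x y) (i : Fin r) :
    ∃ f : M →+* M, (∀ a : F, f (algebraMap F M a) = algebraMap F M a) ∧
      f (t i) = t i ^ b.q ∧ (∀ k, k ≠ i → f (t k) = t k) ∧
      (∀ i, f (x i) = x i) ∧ (∀ i, f (y i) = y i) ∧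
      ∀ ξ : KM m M, Unr ξ → KM.map m f ξ = ξ := by
  obtain ⟨K, _, j, hj, hT, hF, ht, hx, hy⟩ := P4_tower b h i
  obtain ⟨e, he1, he2⟩ := exists_ratFunc_equiv j hj hT
  have hq : 0 < b.q := Nat.succ_pos _
  have hinj : Function.Injective (eval₂RingHom j (t i ^ b.q)) := by
    rw [injective_iff_map_eq_zero]
    intro f hf
    by_contra hne
    refine hj (expand K b.q f) ?_ ?_
    · rw [Ne, expand_eq_zero hq]; exact hne
    · rw [expand_eq_comp_X_pow, eval₂_comp, eval₂_X_pow]
      exact hf
  let g : RatFunc K →+* M := IsFractionRing.lift hinj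
  have hg : ∀ p : K[X], g (algebraMap K[X] (RatFunc K) p) = p.eval₂ j (t i ^ b.q) := fun p =>
    IsFractionRing.lift_algebraMap hinj p
  let f : M →+* M := g.comp (e.symm : M →+* RatFunc K)
  have hfj : f.comp j = j := by
    ext a
    have h1 : e.symm (j a) = algebraMap K (RatFunc K) a := by
      rw [RingEquiv.symm_apply_eq, ← he1]; rfl
    change g (e.symm (j a)) = j a
    rw [h1, IsScalarTower.algebraMap_apply K K[X] (RatFunc K), hg]
    simp
  have hfa : ∀ z ∈ j.range, f z = z := by
    rintro _ ⟨a, rfl⟩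
    exact DFunLike.congr_fun hfj a
  refine ⟨f, fun a => hfa _ (hF a), ?_, fun k hk => hfa _ (ht k hk), fun k => hfa _ (hx k),
    fun k => hfa _ (hy k), fun ξ hξ => ?_⟩
  · have h1 : e.symm (t i) = algebraMap K[X] (RatFunc K) X := by
      rw [RingEquiv.symm_apply_eq, ← he2, RatFunc.algebraMap_X]
    change g (e.symm (t i)) = _
    rw [h1, hg, eval₂_X]
  · have h1 := unr_transc_map hm j hj hT hξ f (RingHom.id M) (by rw [hfj]; rfl)
    rw [h1, KM.map_id]
    rfl

/-- The Frobenius in the coordinates `t` acts trivially on unramified classes. Hint: for a subset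
`S` of the indices construct the endomorphism with `t_i ↦ t_i ^ q` for `i ∈ S`, by induction: for
one index `i`, `M` is a simple transcendental extension of the field `K` generated by the other
coordinates (`t_i` is transcendental over `K`, as in `ProdData.isFermat`), the endomorphism
`t_i ↦ t_i ^ q` over `K` exists by `exists_ratFunc_equiv`, and it acts trivially on unramified
classes by `unr_transc_map` (compare with the identity); unramified classes are preserved by
`Unr.map`. -/
lemma ProdData.exists_frobT (hm : Any m) (h : ProdData (F := F) b t x y) :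
    ∃ f : M →+* M, (∀ a : F, f (algebraMap F M a) = algebraMap F M a) ∧
      (∀ i, f (t i) = t i ^ b.q) ∧ (∀ i, f (x i) = x i) ∧ (∀ i, f (y i) = y i) ∧
      ∀ ξ : KM m M, Unr ξ → KM.map m f ξ = ξ := by
  have key : ∀ S : Finset (Fin r), ∃ f : M →+* M,
      (∀ a : F, f (algebraMap F M a) = algebraMap F M a) ∧
      (∀ i ∈ S, f (t i) = t i ^ b.q) ∧ (∀ i, i ∉ S → f (t i) = t i) ∧
      (∀ i, f (x i) = x i) ∧ (∀ i, f (y i) = y i) ∧
      ∀ ξ : KM m M, Unr ξ → KM.map m f ξ = ξ := by
    intro S
    induction S using Finset.induction_on with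
    | empty =>
      refine ⟨RingHom.id M, fun _ => rfl, fun i hi => absurd hi (Finset.notMem_empty i),
        fun _ _ => rfl, fun _ => rfl, fun _ => rfl, fun ξ _ => ?_⟩
      rw [KM.map_id]
      rfl
    | insert i S hi ih =>
      obtain ⟨f, f1, f2, f3, f4, f5, f6⟩ := ih
      obtain ⟨g, g1, g2, g3, g4, g5, g6⟩ := P4_one b hm h i
      refine ⟨g.comp f, fun a => ?_, fun k hk => ?_, fun k hk => ?_, fun k => ?_, fun k => ?_,
        fun ξ hξ => ?_⟩
      · rw [RingHom.comp_apply, f1, g1]
      · rw [RingHom.comp_apply]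
        rcases Finset.mem_insert.mp hk with rfl | hk
        · rw [f3 k hi, g2]
        · have hne : k ≠ i := fun h0 => hi (h0 ▸ hk)
          rw [f2 k hk, map_pow, g3 k hne]
      · rw [Finset.mem_insert, not_or] at hk
        rw [RingHom.comp_apply, f3 k hk.2, g3 k hk.1]
      · rw [RingHom.comp_apply, f4, g4]
      · rw [RingHom.comp_apply, f5, g5]
      · rw [← KM.map_map, f6 ξ hξ, g6 ξ hξ]
  obtain ⟨f, f1, f2, -, f4, f5, f6⟩ := key univ
  exact ⟨f, f1, fun i => f2 i (mem_univ i), f4, f5, f6⟩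

end UnrG
end

section

/-!
# Monomial subfields: torsion of the kernel
-/

namespace UnrG

universe u v w

open Polynomial Finset
open scoped Classical

variable {m : ℕ} {𝔽 : Type w} [Field 𝔽] [Fintype 𝔽] (b : Base 𝔽)

variable {F M : Type u} [Field F] [Field M] [Algebra F M] (ι : 𝔽 →+* F) {r n : ℕ}
  {t : Fin r → M} {x y : Fin n → M}

variable {bb aa : Fin n → ℕ} {E : Type u} [Field E] {i : E →+* M}

private lemma Q2_finite {E M : Type u} [Field E] [Field M] [Algebra E M] {N : ℕ} (hN : 0 < N)
    (S : Finset M) (hS : ∀ z ∈ S, ∃ a : E, z ^ N = algebraMap E M a) :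
    FiniteDimensional E (IntermediateField.adjoin E (S : Set M)) ∧
      Module.finrank E (IntermediateField.adjoin E (S : Set M)) ≤ N ^ S.card := by
  induction S using Finset.induction_on with
  | empty =>
    rw [Finset.coe_empty, IntermediateField.adjoin_empty, Finset.card_empty, pow_zero]
    exact ⟨inferInstance, (IntermediateField.finrank_bot).le⟩
  | insert z S hz ih =>
    obtain ⟨h1, h2⟩ := ih fun w hw => hS w (Finset.mem_insert_of_mem hw)
    obtain ⟨a, ha⟩ := hS z (Finset.mem_insert_self _ _)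
    have hae : aeval z (X ^ N - C a : E[X]) = 0 := by
      rw [map_sub, map_pow, aeval_X, aeval_C, ha, sub_self]
    have hint : IsIntegral E z := ⟨X ^ N - C a, monic_X_pow_sub_C a hN.ne', by
      rw [← aeval_def]; exact hae⟩
    have h3 : FiniteDimensional E (IntermediateField.adjoin E {z}) :=
      IntermediateField.adjoin.finiteDimensional hint
    have h4 : Module.finrank E (IntermediateField.adjoin E {z}) ≤ N := by
      rw [IntermediateField.adjoin.finrank hint]
      have h5 := natDegree_le_of_dvd (minpoly.dvd E z hae) (monic_X_pow_sub_C a hN.ne').ne_zero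
      rwa [natDegree_X_pow_sub_C] at h5
    rw [Finset.coe_insert, Set.insert_eq, IntermediateField.adjoin_union]
    refine ⟨IntermediateField.finiteDimensional_sup _ _, ?_⟩
    refine (IntermediateField.finrank_sup_le _ _).trans ?_
    rw [Finset.card_insert_of_notMem hz, pow_succ']
    exact Nat.mul_le_mul h4 h2

/-- Up to torsion the restriction to `M` is injective. Hint: `M` is generated over the image of
`E` by the `2 n` elements `x_j`, `y_j` whose `N`-th powers lie in it (`y_j ^ N = 1 - x_j ^ N`), so it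
is finite of degree at most `N ^ (2 n)`; `finrank_smul_eq_zero` (make `M` an `E`-algebra by
`i.toAlgebra`) and `Nat.dvd_factorial`. -/
lemma MonoEmb.smul_eq_zero (hm : Any m) (hP : ProdData (F := F) b t x y)
    (h : MonoEmb b F t x y bb aa i) {z : KM m E} (hz : KM.map m i z = 0) :
    (b.N ^ (2 * n)).factorial • z = 0 := by
  let _ : Algebra E M := i.toAlgebra
  have hi : ∀ e : E, algebraMap E M e = i e := fun _ => rfl
  obtain ⟨S, hS⟩ : ∃ S : Finset M, S = univ.image x ∪ univ.image y := ⟨_, rfl⟩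
  have hcard : S.card ≤ 2 * n := by
    rw [hS]
    refine (Finset.card_union_le _ _).trans ?_
    have h1 : (univ.image x).card ≤ n := by
      simpa using (Finset.card_image_le (s := (univ : Finset (Fin n))) (f := x))
    have h2 : (univ.image y).card ≤ n := by
      simpa using (Finset.card_image_le (s := (univ : Finset (Fin n))) (f := y))
    omega
  have hpow : ∀ z ∈ S, ∃ a : E, z ^ b.N = algebraMap E M a := by
    intro z hz
    rw [hS, Finset.mem_union, Finset.mem_image, Finset.mem_image] at hz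
    rcases hz with ⟨j, -, rfl⟩ | ⟨j, -, rfl⟩
    · obtain ⟨e, he⟩ := h.x_mem j
      exact ⟨e, he.symm⟩
    · obtain ⟨e, he⟩ := h.x_mem j
      refine ⟨1 - e, ?_⟩
      rw [hi, map_sub, map_one, he, ← hP.eq j]
      ring
  obtain ⟨h1, h2⟩ := Q2_finite b.N_pos S hpow
  have htop : IntermediateField.adjoin E (S : Set M) = ⊤ := by
    rw [eq_top_iff]
    intro z _
    have hz : z ∈ IntermediateField.adjoin F (Set.range t ∪ Set.range x ∪ Set.range y) := by
      rw [hP.gen]; trivial
    have hE : ∀ w ∈ i.fieldRange, w ∈ IntermediateField.adjoin E (S : Set M) := by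
      rintro w ⟨e, rfl⟩
      exact IntermediateField.algebraMap_mem _ e
    induction hz using IntermediateField.adjoin_induction with
    | mem w hw =>
      rcases hw with (⟨k, rfl⟩ | ⟨j, rfl⟩) | ⟨j, rfl⟩
      · exact hE _ (h.t_mem k)
      · refine IntermediateField.subset_adjoin _ _ ?_
        rw [hS]
        simp
      · refine IntermediateField.subset_adjoin _ _ ?_
        rw [hS]
        simp
    | algebraMap a => exact hE _ (h.const a)
    | add a c _ _ ha hc => exact add_mem (ha trivial) (hc trivial)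
    | inv a _ ha => exact inv_mem (ha trivial)
    | mul a c _ _ ha hc => exact mul_mem (ha trivial) (hc trivial)
  rw [htop] at h1 h2
  have hfd : FiniteDimensional E M := by
    have h3 := h1
    exact Module.Finite.equiv (IntermediateField.topEquiv (F := E) (E := M)).toLinearEquiv
  have hfr : Module.finrank E M ≤ b.N ^ (2 * n) := by
    rw [IntermediateField.finrank_top'] at h2
    exact h2.trans (Nat.pow_le_pow_right b.N_pos hcard)
  have h4 := finrank_smul_eq_zero hm (Module.finrank E M) (K := E) (L := M) rfl (y := z) hz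
  obtain ⟨k, hk⟩ := Nat.dvd_factorial (Module.finrank_pos (R := E) (M := M)) hfr
  rw [hk, mul_comm, mul_smul, h4, smul_zero]

end UnrG
end

section

/-!
# Cyclic covers defined by several linear relations, with a coefficient
-/

namespace UnrG

universe u v w

open Finset

/-- The field `K = K₀(w)`, where `K₀` is generated by `t`, the quotients of the terms `Y_i` of the main
relation `∑ Y_i = 0` and by further variables `x_j`, and `w ^ N` is, up to an `N`-th power of `K₀`, the
product of `δ ∈ F(t)`, the `Y_i ^ e_i` and the `x_j ^ B_j (1 - x_j) ^ A_j`. -/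
structure SysD (N : ℕ) {F K : Type u} [Field F] [Field K] [Algebra F K] {r d l : ℕ}
    (t : Fin r → K) (Y : Fin (d + 2) → K) (e : Fin (d + 2) → ZMod N) (x : Fin l → K)
    (B A : Fin l → ZMod N) (δ w : K) (K₀ : IntermediateField F K) : Prop where
  Y_ne : ∀ i, Y i ≠ 0
  Y_mem : ∀ i, Y i ∈ K₀
  sum_Y : ∑ i, Y i = 0
  sum_e : ∑ i, e i = 0
  x_ne : ∀ j, x j ≠ 0
  x_ne_one : ∀ j, 1 - x j ≠ 0
  δ_mem : δ ∈ IntermediateField.adjoin F (Set.range t)
  δ_ne : δ ≠ 0
  K₀_eq : K₀ = IntermediateField.adjoin F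
    (Set.range t ∪ {z | ∃ i j, z = Y i / Y j} ∪ Set.range x)
  top : K₀ ⊔ IntermediateField.adjoin F {w} = ⊤
  w_pow : ModPow N K₀ (w ^ N)
    (δ * ((∏ i, Y i ^ (e i).val) * ∏ j, (x j ^ (B j).val * (1 - x j) ^ (A j).val)))
  ind : ∃ v : Fin (r + d + l) → K, AlgebraicIndependent F v

end UnrG
end

section

/-!
# Normalised coordinates
-/

namespace UnrG

universe u v w

open Polynomial Finset

variable {N : ℕ} {F K : Type u} [Field F] [Field K] [Algebra F K] {r d l : ℕ} {t : Fin r → K}
  {Y : Fin (d + 2) → K} {e : Fin (d + 2) → ZMod N} {x : Fin l → K} {B A : Fin l → ZMod N} {δ w : K}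
  {K₀ : IntermediateField F K}

/-- The coefficient. -/
def nE {K : Type u} [Field K] {N l : ℕ} (δ : K) (x : Fin l → K) (B A : Fin l → ZMod N) : K :=
  δ * nD x B A

lemma SysD.nY_ne (h : SysD N t Y e x B A δ w K₀) (π : Equiv.Perm (Fin (d + 2))) (i : Fin (d + 2)) :
    nY Y π i ≠ 0 ∧ nY Y π (Fin.last (d + 1)) = 1 :=
  ⟨div_ne_zero (h.Y_ne _) (h.Y_ne _), div_self (h.Y_ne _)⟩

/-- Hint: `Equiv.sum_comp`, `Finset.sum_div`. -/
lemma SysD.nY_sum (h : SysD N t Y e x B A δ w K₀) (π : Equiv.Perm (Fin (d + 2))) :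
    ∑ i, nY Y π i = 0 := by
  unfold nY
  rw [← Finset.sum_div, Equiv.sum_comp π Y, h.sum_Y, zero_div]

lemma SysD.nE_mem (h : SysD N t Y e x B A δ w K₀) :
    nE δ x B A ∈ IntermediateField.adjoin F (Set.range (Fin.append t x)) ∧ nE δ x B A ≠ 0 := by
  have hx : ∀ j, x j ∈ IntermediateField.adjoin F (Set.range (Fin.append t x)) := fun j =>
    IntermediateField.subset_adjoin F _ ⟨Fin.natAdd r j, Fin.append_right t x j⟩
  have hle : IntermediateField.adjoin F (Set.range t) ≤
      IntermediateField.adjoin F (Set.range (Fin.append t x)) := by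
    rw [IntermediateField.adjoin_le_iff]
    rintro z ⟨i, rfl⟩
    exact IntermediateField.subset_adjoin F _ ⟨Fin.castAdd l i, Fin.append_left t x i⟩
  constructor
  · unfold nE nD
    exact mul_mem (hle h.δ_mem) (prod_mem fun j _ => mul_mem (pow_mem (hx j) _)
      (pow_mem (sub_mem (one_mem _) (hx j)) _))
  · unfold nE nD
    exact mul_ne_zero h.δ_ne (Finset.prod_ne_zero_iff.2 fun j _ =>
      mul_ne_zero (pow_ne_zero _ (h.x_ne j)) (pow_ne_zero _ (h.x_ne_one j)))

/-- Hint: the quotients `Y i / Y j` are the quotients of the normalised terms. -/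
lemma SysD.K₀_eq' (h : SysD N t Y e x B A δ w K₀) (π : Equiv.Perm (Fin (d + 2))) :
    K₀ = IntermediateField.adjoin F (Set.range (Fin.append t x) ∪ Set.range (nY Y π)) := by
  rw [h.K₀_eq]
  apply le_antisymm
  · rw [IntermediateField.adjoin_le_iff]
    rintro z ((⟨i, rfl⟩ | ⟨i, j, rfl⟩) | ⟨j, rfl⟩)
    · exact IntermediateField.subset_adjoin F _
        (Or.inl ⟨Fin.castAdd l i, Fin.append_left t x i⟩)
    · have h1 : Y i / Y j = nY Y π (π.symm i) / nY Y π (π.symm j) := by
        unfold nY
        rw [Equiv.apply_symm_apply, Equiv.apply_symm_apply,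
          div_div_div_cancel_right₀ (h.Y_ne _)]
      rw [h1]
      exact div_mem (IntermediateField.subset_adjoin F _ (Or.inr ⟨_, rfl⟩))
        (IntermediateField.subset_adjoin F _ (Or.inr ⟨_, rfl⟩))
    · exact IntermediateField.subset_adjoin F _
        (Or.inl ⟨Fin.natAdd r j, Fin.append_right t x j⟩)
  · rw [IntermediateField.adjoin_le_iff]
    rintro z (⟨i, rfl⟩ | ⟨i, rfl⟩)
    · refine Fin.addCases (fun i => ?_) (fun j => ?_) i
      · rw [Fin.append_left]
        exact IntermediateField.subset_adjoin F _ (Or.inl (Or.inl ⟨i, rfl⟩))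
      · rw [Fin.append_right]
        exact IntermediateField.subset_adjoin F _ (Or.inr ⟨j, rfl⟩)
    · exact IntermediateField.subset_adjoin F _ (Or.inl (Or.inr ⟨_, _, rfl⟩))

end UnrG
end

section

/-!
# Characters whose Jacobi sum is a power of the order of the field are balanced
-/

namespace UnrA.Fer

open UnrG

universe u v w z

open Finset
open scoped Classical

/-- If the exponent `N` is a prime number and the Jacobi sum of the character is a power of the order
of the finite field then the character is balanced. -/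
theorem isBalanced_of_jacobi {𝔽 : Type} [Field 𝔽] [Fintype 𝔽] {N : ℕ} (hN : N.Prime) {p : ℕ}
    [Fact p.Prime] [CharP 𝔽 p] {n c : ℕ} {B A : Fin n → ZMod N} (hB : ∀ j, B j ≠ 0)
    (hA : ∀ j, A j ≠ 0) (hC : ∀ j, B j + A j ≠ 0) (χ : MulChar 𝔽 ℂ) (hχ : orderOf χ = N)
    (hJ : ∏ j, jacobiSum (χ ^ (B j).val) (χ ^ (A j).val) = (Fintype.card 𝔽 : ℂ) ^ c) :
    IsBalanced p B A := by
  have : Fact N.Prime := ⟨hN⟩
  obtain ⟨e', hp', hcard0⟩ := FiniteField.card 𝔽 p
  obtain ⟨hpe, hbal⟩ := bal_of_jacobi p hN hcard0 hB hA hC χ hχ hJ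
  exact (bal_iff_isBalanced (p := p) e'.pos hpe B A).1 hbal

/-- The same for the characters of diagonal hypersurfaces. -/
theorem isBalancedSum_of_jacobi {𝔽 : Type} [Field 𝔽] [Fintype 𝔽] (b : Base 𝔽) (hN : b.N.Prime)
    {p : ℕ} [Fact p.Prime] [CharP 𝔽 p] {n c : ℕ} {α : Fin (n + 2) → ZMod b.N} (hα : MinZero α)
    (χ : MulChar 𝔽 ℂ) (hχ : orderOf χ = b.N)
    (hJ : ∏ j : Fin n, jacobiSum (χ ^ expB α j) (χ ^ expA α j) = (b.q : ℂ) ^ c) :
    IsBalancedSum p α := by
  have : NeZero b.N := ⟨hN.ne_zero⟩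
  have hB : ∀ j : Fin n, psum α j.castSucc ≠ 0 := by
    intro j h0
    refine (hα.exp b j).1 ?_
    change b.N ∣ (psum α j.castSucc).val
    rw [h0, ZMod.val_zero]
    exact dvd_zero _
  have hA : ∀ j : Fin n, α j.castSucc.succ ≠ 0 := by
    intro j h0
    refine (hα.exp b j).2.1 ?_
    change b.N ∣ (α j.castSucc.succ).val
    rw [h0, ZMod.val_zero]
    exact dvd_zero _
  have hC : ∀ j : Fin n, psum α j.castSucc + α j.castSucc.succ ≠ 0 := by
    intro j h0
    refine (hα.exp b j).2.2 ?_
    change b.N ∣ (psum α j.castSucc).val + (α j.castSucc.succ).val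
    rw [← ZMod.natCast_eq_zero_iff, Nat.cast_add, ZMod.natCast_zmod_val, ZMod.natCast_zmod_val]
    exact h0
  refine (isBalanced_iff_sum hα.1).1 (isBalanced_of_jacobi hN hB hA hC χ hχ (c := c) ?_)
  rw [b.card_q]
  exact hJ

end UnrA.Fer
end
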