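import Pool.Agent.Lib.MP_859dd5_ag.Mg.G071
import Pool.Agent.Lib.MP_859dd5_ag.Mg.G003
import Pool.Agent.Lib.MP_859dd5_ag.Mg.G007
import Pool.Agent.Lib.MP_859dd5_ag.Mg.G069
import Pool.Agent.Lib.MP_859dd5_ag.S.Fun
import Pool.Agent.Lib.MP_859dd5_ag.Mg.G072

section

/-!
# The Frobenius of the Fermat curve
-/

namespace UnrA.Fer

open UnrG

universe u v w z

open Polynomial Finset
open scoped Classical

variable {m : UFun.{u, z}} {𝔽 : Type w} [Field 𝔽] [Fintype 𝔽] (b : Base 𝔽)

private lemma map_pow_id {M : Type u} [Field M] {δ : M →+* M} {η : KM m M}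
    (h : KM.map m δ η = η) (i : ℕ) : KM.map m (δ ^ i) η = η := by
  induction i with
  | zero =>
    rw [pow_zero]
    change KM.map m (RingHom.id M) η = η
    rw [KM.map_id]
    rfl
  | succ i ih =>
    rw [pow_succ]
    change KM.map m ((δ ^ i).comp δ) η = η
    rw [← KM.map_map, h, ih]

private lemma comm_pow {M : Type u} [Field M] {δ γ : M →+* M} (h : γ.comp δ = δ.comp γ)
    (i : ℕ) : γ.comp (δ ^ i) = (δ ^ i).comp γ := by
  induction i with
  | zero => rfl
  | succ i ih =>
    rw [pow_succ]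
    change γ.comp ((δ ^ i).comp δ) = ((δ ^ i).comp δ).comp γ
    rw [← RingHom.comp_assoc, ih, RingHom.comp_assoc, h, RingHom.comp_assoc]

/-- **The Frobenius of the Fermat curve.** The trace `Φ` of the family of correspondences becomes
constant when multiplied by `D ^ 2`, where `D` divides `(q - 1)!` (`frob_family`); it commutes with
the automorphism `δ`, which fixes constant classes. -/
theorem frob_curve (hs : m.Specializes) {K M : Type u} [Field K] [Field M] (ι : 𝔽 →+* K)
    (j : K →+* M) {x y : M} (h : IsFermat b.N j x y) {ξ : KM m M} (hξ : Unr ξ)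
    (δ : M →+* M) (hδj : δ.comp j = j) (hδx : δ x = j (ι b.ζ) * x) (hδy : δ y = j (ι b.ζ) * y)
    (hsum : ∑ i ∈ range b.N, KM.map m (δ ^ i) ξ = 0)
    (φ : M →+* M) (hφj : φ.comp j = j) (hφx : φ x = x ^ b.q) (hφy : φ y = y ^ b.q)
    (γ : 𝔽 → (M →+* M)) (hγj : ∀ c, c ≠ 0 → c ≠ 1 → (γ c).comp j = j)
    (hγx : ∀ c, c ≠ 0 → c ≠ 1 → γ c x = j (ι c) ^ b.e * x)
    (hγy : ∀ c, c ≠ 0 → c ≠ 1 → γ c y = j (ι (1 - c)) ^ b.e * y) :
    fc b • (KM.map m φ ξ +
      ∑ c ∈ univ.filter (fun c : 𝔽 => c ≠ 0 ∧ c ≠ 1), KM.map m (γ c) ξ) = 0 := by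
  have hu : x ^ b.N ∉ (univ.filter (fun c : 𝔽 => c ≠ 0 ∧ c ≠ 1)).image (j.comp ι) := by
    intro h1
    obtain ⟨c, -, hc⟩ := Finset.mem_image.mp h1
    exact h.pow_ne b.N_pos (ι c) hc.symm
  have hinj : Function.Injective (j.comp ι) := (j.comp ι).injective
  -- the endomorphisms indexed by the points of the correspondence
  obtain ⟨γ', hγ'1, hγ'2⟩ : ∃ γ' : M → (M →+* M), γ' (x ^ b.N) = φ ∧
      ∀ c : 𝔽, c ≠ 0 → c ≠ 1 → γ' (j (ι c)) = γ c := by
    refine ⟨fun z => if hz : ∃ c : 𝔽, j (ι c) = z then γ hz.choose else φ, ?_, ?_⟩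
    · beta_reduce
      rw [dif_neg]
      rintro ⟨c, hc⟩
      exact h.pow_ne b.N_pos (ι c) hc.symm
    · intro c _ _
      have hz : ∃ c' : 𝔽, j (ι c') = j (ι c) := ⟨c, rfl⟩
      beta_reduce
      rw [dif_pos hz]
      congr 1
      exact hinj hz.choose_spec
  have hcases : ∀ c ∈ normSet (j.comp ι) (x ^ b.N), c = x ^ b.N ∨
      ∃ c' : 𝔽, c' ≠ 0 ∧ c' ≠ 1 ∧ c = j (ι c') := by
    intro c hc
    rcases Finset.mem_insert.mp hc with h1 | h1
    · exact Or.inl h1
    · obtain ⟨c', hc', h2⟩ := Finset.mem_image.mp h1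
      obtain ⟨-, h3, h4⟩ := Finset.mem_filter.mp hc'
      exact Or.inr ⟨c', h3, h4, h2.symm⟩
  have hy : 1 - x ^ b.N = y ^ b.N := by rw [← h.eq]; ring
  obtain ⟨D, y₂, hD, hy₂⟩ := frob_family b hs ι j h hξ γ' (by
      intro c hc
      rcases hcases c hc with rfl | ⟨c', h0, h1, rfl⟩
      · rw [hγ'1, hφj]
      · rw [hγ'2 c' h0 h1, hγj c' h0 h1]) (by
      intro c hc
      rcases hcases c hc with rfl | ⟨c', h0, h1, rfl⟩
      · rw [hγ'1, hφx, Base.q, pow_succ, pow_mul, mul_comm]
      · rw [hγ'2 c' h0 h1, hγx c' h0 h1, mul_comm]) (by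
      intro c hc
      rcases hcases c hc with rfl | ⟨c', h0, h1, rfl⟩
      · rw [hγ'1, hφy, Base.q, pow_succ, pow_mul, mul_comm, hy]
      · rw [hγ'2 c' h0 h1, hγy c' h0 h1, mul_comm, map_sub ι, map_sub j, map_one, map_one])
  obtain ⟨Φ, hΦ⟩ : ∃ Φ : KM m M, Φ = KM.map m φ ξ +
      ∑ c ∈ univ.filter (fun c : 𝔽 => c ≠ 0 ∧ c ≠ 1), KM.map m (γ c) ξ := ⟨_, rfl⟩
  have hsumΦ : ∑ c ∈ normSet (j.comp ι) (x ^ b.N), KM.map m (γ' c) ξ = Φ := by
    rw [normSet, Finset.sum_insert hu, Finset.sum_image fun c _ c' _ hcc => hinj hcc, hγ'1, hΦ]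
    congr 1
    refine Finset.sum_congr rfl fun c hc => ?_
    obtain ⟨-, h3, h4⟩ := Finset.mem_filter.mp hc
    rw [RingHom.comp_apply, hγ'2 c h3 h4]
  rw [hsumΦ] at hy₂
  rw [← hΦ]
  -- the automorphism commutes with the endomorphisms
  have hζq : j (ι b.ζ) ^ b.q = j (ι b.ζ) := by
    rw [← map_pow, ← map_pow, b.pow_q]
  have hφδ : φ.comp δ = δ.comp φ := by
    refine h.hom_ext ?_ ?_ ?_
    · rw [RingHom.comp_assoc, hδj, hφj, RingHom.comp_assoc, hφj, hδj]
    · rw [RingHom.comp_apply, RingHom.comp_apply, hδx, hφx, map_mul, map_pow, hδx, hφx, mul_pow,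
        hζq, ← RingHom.comp_apply φ, hφj]
    · rw [RingHom.comp_apply, RingHom.comp_apply, hδy, hφy, map_mul, map_pow, hδy, hφy, mul_pow,
        hζq, ← RingHom.comp_apply φ, hφj]
  have hγδ : ∀ c : 𝔽, c ≠ 0 → c ≠ 1 → (γ c).comp δ = δ.comp (γ c) := by
    intro c h0 h1
    have hδc : ∀ z : K, δ (j z) = j z := fun z => congrArg (fun f : K →+* M => f z) hδj
    have hγc : ∀ z : K, γ c (j z) = j z := fun z =>
      congrArg (fun f : K →+* M => f z) (hγj c h0 h1)
    refine h.hom_ext ?_ ?_ ?_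
    · rw [RingHom.comp_assoc, hδj, hγj c h0 h1, RingHom.comp_assoc, hγj c h0 h1, hδj]
    · rw [RingHom.comp_apply, RingHom.comp_apply, hδx, hγx c h0 h1, map_mul, map_mul, map_pow,
        hδx, hγx c h0 h1, hδc, hγc]
      ring
    · rw [RingHom.comp_apply, RingHom.comp_apply, hδy, hγy c h0 h1, map_mul, map_mul, map_pow,
        hδy, hγy c h0 h1, hδc, hγc]
      ring
  have hzero : ∑ i ∈ range b.N, KM.map m (δ ^ i) Φ = 0 := by
    have h1 : ∀ γ₀ : M →+* M, γ₀.comp δ = δ.comp γ₀ →
        ∑ i ∈ range b.N, KM.map m (δ ^ i) (KM.map m γ₀ ξ) = 0 := by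
      intro γ₀ h2
      have h3 : ∀ i ∈ range b.N, KM.map m (δ ^ i) (KM.map m γ₀ ξ) =
          KM.map m γ₀ (KM.map m (δ ^ i) ξ) := by
        intro i _
        rw [KM.map_map, KM.map_map, comm_pow h2 i]
      rw [Finset.sum_congr rfl h3, ← map_sum, hsum, map_zero]
    have h2 : ∀ i ∈ range b.N, KM.map m (δ ^ i) Φ = KM.map m (δ ^ i) (KM.map m φ ξ) +
        ∑ c ∈ univ.filter (fun c : 𝔽 => c ≠ 0 ∧ c ≠ 1), KM.map m (δ ^ i) (KM.map m (γ c) ξ) := by
      intro i _
      rw [hΦ, map_add, map_sum]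
    rw [Finset.sum_congr rfl h2, Finset.sum_add_distrib, h1 φ hφδ, Finset.sum_comm, zero_add]
    refine Finset.sum_eq_zero fun c hc => ?_
    obtain ⟨-, h3, h4⟩ := Finset.mem_filter.mp hc
    exact h1 (γ c) (hγδ c h3 h4)
  have hfix : KM.map m δ ((D * D) • Φ) = (D * D) • Φ := by
    rw [hy₂, KM.map_map, hδj]
  have hN : b.N • ((D * D) • Φ) = 0 := by
    have h1 : ∑ i ∈ range b.N, KM.map m (δ ^ i) ((D * D) • Φ) = b.N • ((D * D) • Φ) := by
      rw [Finset.sum_congr rfl fun i _ => map_pow_id hfix i, Finset.sum_const, Finset.card_range]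
    rw [← h1]
    have h2 : ∀ i ∈ range b.N, KM.map m (δ ^ i) ((D * D) • Φ) =
        (D * D) • KM.map m (δ ^ i) Φ := fun i _ => map_nsmul _ _ _
    rw [Finset.sum_congr rfl h2, ← Finset.smul_sum, hzero, smul_zero]
  obtain ⟨k, hk⟩ : b.N * (D * D) ∣ fc b := by
    unfold fc
    rw [sq]
    exact mul_dvd_mul_left _ (mul_dvd_mul hD hD)
  rw [hk, mul_comm, mul_smul, mul_smul, hN, smul_zero]

end UnrA.Fer
end

section

/-!
# The one-variable Frobenius relation in the product
-/

namespace UnrA.Fer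

open UnrG

universe u v w z

open Polynomial Finset
open scoped Classical

variable {m : UFun.{u, z}} {𝔽 : Type w} [Field 𝔽] [Fintype 𝔽] (b : Base 𝔽)

variable {F M : Type u} [Field F] [Field M] [Algebra F M] (ι : 𝔽 →+* F) {r n : ℕ}
  {t : Fin r → M} {x y : Fin n → M}

private lemma P6_fix {j : Fin n} {f : M →+* M}
    (h1 : ∀ a : F, f (algebraMap F M a) = algebraMap F M a) (h2 : ∀ i, f (t i) = t i)
    (h3 : ∀ i, i ≠ j → f (x i) = x i) (h4 : ∀ i, i ≠ j → f (y i) = y i) :
    f.comp (others F t x y j).subtype = (others F t x y j).subtype := by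
  have key : ∀ z ∈ others F t x y j, f z = z := by
    intro z hz
    unfold others at hz
    induction hz using Subfield.closure_induction with
    | mem z hz =>
      rcases hz with (⟨a, rfl⟩ | ⟨i, rfl⟩) | ⟨i, hi, rfl | rfl⟩
      · exact h1 a
      · exact h2 i
      · exact h3 i hi
      · exact h4 i hi
    | one => exact map_one f
    | add a b _ _ ha hb => rw [map_add, ha, hb]
    | neg a _ ha => rw [map_neg, ha]
    | inv a _ ha => rw [map_inv₀, ha]
    | mul a b _ _ ha hb => rw [map_mul, ha, hb]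
  ext z
  exact key z z.2

private lemma P6_fix' {j : Fin n} {f : M →+* M} (h : FixBut F t x y {j} f) :
    f.comp (others F t x y j).subtype = (others F t x y j).subtype :=
  P6_fix h.const h.ft (fun i hi => h.fx i (by simpa using hi)) (fun i hi => h.fy i (by simpa using hi))

/-- The one-variable Frobenius relation in the product. Hint: `frob_curve` for
`ProdData.isFermat` with `K = others F t x y j` and `ι` replaced by its composite
`𝔽 → F → others F t x y j`; endomorphisms in `FixBut F t x y {j}` fix `others F t x y j`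
(they agree with the identity on its generators). -/
theorem prod_frob_step (hs : m.Specializes) (h : ProdData (F := F) b t x y) (j : Fin n)
    {ξ : KM m M} (hξ : Unr ξ) (δ : M →+* M)
    (hδ : IsDiag b ι t x y (Pi.single j 1) (Pi.single j 1) δ)
    (hsum : ∑ i ∈ range b.N, KM.map m (δ ^ i) ξ = 0)
    (φ : M →+* M) (hφ : IsFrobAt b F t x y {j} φ) (γ : 𝔽 → (M →+* M))
    (hγ : ∀ c, c ≠ 0 → c ≠ 1 → IsGamma b ι t x y j c (γ c)) :
    fc b • (KM.map m φ ξ +
      ∑ c ∈ univ.filter (fun c : 𝔽 => c ≠ 0 ∧ c ≠ 1), KM.map m (γ c) ξ) = 0 := by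
  have hmem : ∀ a : 𝔽, (algebraMap F M).comp ι a ∈ others F t x y j := fun a =>
    Subfield.subset_closure (Or.inl (Or.inl ⟨ι a, rfl⟩))
  let ι' : 𝔽 →+* others F t x y j := ((algebraMap F M).comp ι).codRestrict _ hmem
  have hι' : ∀ a : 𝔽, (others F t x y j).subtype (ι' a) = algebraMap F M (ι a) := fun a => rfl
  refine frob_curve b hs ι' (others F t x y j).subtype (h.isFermat b j) hξ δ ?_ ?_ ?_ hsum φ
    (P6_fix' hφ.toFixBut) (hφ.gx j (by simp)) (hφ.gy j (by simp)) γ ?_ ?_ ?_
  · refine P6_fix hδ.const hδ.ft (fun i hi => ?_) (fun i hi => ?_)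
    · rw [hδ.fx, Pi.single_eq_of_ne hi, pow_zero, one_mul]
    · rw [hδ.fy, Pi.single_eq_of_ne hi, pow_zero, one_mul]
  · rw [hδ.fx, Pi.single_eq_same, pow_one, hι']
  · rw [hδ.fy, Pi.single_eq_same, pow_one, hι']
  · intro c h0 h1
    exact P6_fix' (hγ c h0 h1).toFixBut
  · intro c h0 h1
    rw [(hγ c h0 h1).gx, hι']
  · intro c h0 h1
    rw [(hγ c h0 h1).gy, hι']

end UnrA.Fer
end

section

/-!
# The one-variable Frobenius relation for good classes
-/

namespace UnrA.Fer

open UnrG

universe u v w z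

open Polynomial Finset
open scoped Classical

variable {m : UFun.{u, z}} {𝔽 : Type w} [Field 𝔽] [Fintype 𝔽] (b : Base 𝔽)

variable {F M : Type u} [Field F] [Field M] [Algebra F M] (ι : 𝔽 →+* F) {r n : ℕ}
  {t : Fin r → M} {x y : Fin n → M}

/-- the action of the automorphism of the correspondence on the powers and the monomial -/
private lemma P8_gamma {j : Fin n} {c' : 𝔽} (hc : c' ≠ 0) {f : M →+* M}
    (hf : IsGamma b ι t x y j c' f) (bb aa : Fin n → ℕ) :
    (∀ i, f (x i ^ b.N) = x i ^ b.N) ∧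
    f (mono x y bb aa) = algebraMap F M (ι ((c' ^ b.e) ^ bb j * ((1 - c') ^ b.e) ^ aa j)) *
      mono x y bb aa := by
  constructor
  · intro i
    rw [map_pow]
    by_cases hi : i = j
    · subst hi
      rw [hf.gx, mul_pow, ← pow_mul, mul_comm b.e b.N, ← map_pow, ← map_pow, b.pow_eq_one hc,
        map_one, map_one, one_mul]
    · rw [hf.fx i (by simpa using hi)]
  · unfold mono
    rw [map_prod, ← Finset.mul_prod_erase univ _ (mem_univ j),
      ← Finset.mul_prod_erase univ (fun j => x j ^ bb j * y j ^ aa j) (mem_univ j)]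
    have h1 : ∏ i ∈ univ.erase j, f (x i ^ bb i * y i ^ aa i) =
        ∏ i ∈ univ.erase j, (x i ^ bb i * y i ^ aa i) := by
      refine Finset.prod_congr rfl (fun i hi => ?_)
      have hij : i ∉ ({j} : Finset (Fin n)) := by
        simpa using (Finset.ne_of_mem_erase hi)
      rw [map_mul, map_pow, map_pow, hf.fx i hij, hf.fy i hij]
    rw [h1, map_mul, map_pow, map_pow, hf.gx, hf.gy]
    simp only [map_mul, map_pow]
    ring

private lemma P8_tau {a c : Fin n → ℕ} {f : M →+* M} (hf : IsDiag b ι t x y a c f) (i : Fin n) :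
    f (x i ^ b.N) = x i ^ b.N := by
  have hz : (algebraMap F M (ι b.ζ)) ^ b.N = 1 := by
    rw [← map_pow, ← map_pow, b.hζ.pow_eq_one, map_one, map_one]
  rw [map_pow, hf.fx, mul_pow, ← pow_mul, mul_comm (a i), pow_mul, hz, one_pow, one_mul]

/-- The one-variable Frobenius relation for good classes. Hint: `ProdData.frob_step` for `ξ = Z`
with `δ` from `exists_diag` (its weight on the monomial is `bb j + aa j`, so `h.new` gives the
vanishing of the sum) and `γ` from `exists_gamma`; by `h.inv`, `γ c' Z = τ ^ (l j c') Z`, because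
both fix `x_i ^ N` and multiply the monomial by the same constant
(`(c' ^ e) ^ bb j * ((1 - c') ^ e) ^ aa j = (ζ ^ wt) ^ (l j c')`, `IsDiag.map_mono`,
`IsDiag.pow`). -/
theorem Good.frob_step (hs : m.Specializes) (hP : ProdData (F := F) b t x y) {bb aa : Fin n → ℕ}
    (hba : ∀ j, ¬ b.N ∣ bb j + aa j)
    {Z : KM m M} (h : Good b F ι t x y bb aa Z) {a c : Fin n → ℕ} {τ : M →+* M}
    (hτ : IsDiag b ι t x y a c τ) (l : Fin n → 𝔽 → ℕ)
    (hl : ∀ (j : Fin n) (c' : 𝔽), c' ≠ 0 → c' ≠ 1 →
      (b.ζ ^ wt bb aa a c) ^ l j c' = (c' ^ b.e) ^ bb j * ((1 - c') ^ b.e) ^ aa j)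
    (j : Fin n) (φ : M →+* M) (hφ : IsFrobAt b F t x y {j} φ) :
    fc b • KM.map m φ Z = -(fc b • Polynomial.aeval (actL m τ) (jacPoly 𝔽 (l j)) Z) := by
  obtain ⟨δ, hδ⟩ := ProdData.exists_diag b ι hP (Pi.single j 1) (Pi.single j 1)
  have hwt : wt bb aa (Pi.single j 1) (Pi.single j 1) = bb j + aa j := by
    unfold wt
    rw [Finset.sum_eq_single j]
    · simp
    · intro i _ hi
      simp [Pi.single_eq_of_ne hi]
    · intro h
      exact absurd (mem_univ j) h
  have hsum := h.new _ _ δ hδ (by rw [hwt]; exact hba j)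
  have hex : ∀ c' : 𝔽, ∃ f : M →+* M, c' ≠ 0 → c' ≠ 1 → IsGamma b ι t x y j c' f := by
    intro c'
    by_cases h0 : c' ≠ 0 ∧ c' ≠ 1
    · obtain ⟨f, hf⟩ := ProdData.exists_gamma b ι hP j c' h0.1 h0.2
      exact ⟨f, fun _ _ => hf⟩
    · exact ⟨RingHom.id M, fun h1 h2 => absurd ⟨h1, h2⟩ h0⟩
  choose γ hγ using hex
  have h1 := prod_frob_step b ι hs hP j h.unr δ hδ hsum φ hφ γ hγ
  have h2 : ∀ c' ∈ univ.filter (fun c' : 𝔽 => c' ≠ 0 ∧ c' ≠ 1),
      KM.map m (γ c') Z = (actL m τ ^ l j c') Z := by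
    intro c' hc'
    rw [Finset.mem_filter] at hc'
    have hg := hγ c' hc'.2.1 hc'.2.2
    have ht := hτ.pow b ι (l j c')
    rw [actL_pow]
    obtain ⟨g1, g2⟩ := P8_gamma b ι hc'.2.1 hg bb aa
    refine h.inv _ _ ?_ ?_ ?_ ?_
    · intro a
      rw [hg.const, ht.const]
    · intro i
      rw [hg.ft, ht.ft]
    · intro i
      rw [g1, P8_tau b ι ht]
    · rw [g2, ht.map_mono b ι]
      congr 1
      rw [← map_pow, ← map_pow]
      congr 2
      rw [← hl j c' hc'.2.1 hc'.2.2, ← pow_mul]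
      congr 1
      unfold wt
      rw [Finset.sum_mul]
      refine Finset.sum_congr rfl (fun i _ => ?_)
      simp only [Pi.smul_apply, smul_eq_mul]
      ring
  have h3 : Polynomial.aeval (actL m τ) (jacPoly 𝔽 (l j)) Z =
      ∑ c' ∈ univ.filter (fun c' : 𝔽 => c' ≠ 0 ∧ c' ≠ 1), KM.map m (γ c') Z := by
    unfold jacPoly
    rw [map_sum, LinearMap.sum_apply]
    refine Finset.sum_congr rfl (fun c' hc' => ?_)
    rw [h2 c' hc', map_pow, aeval_X]
  rw [h3]
  rw [smul_add] at h1
  exact eq_neg_of_add_eq_zero_left h1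

end UnrA.Fer
end

section

/-!
# The Frobenius relation for good classes
-/

namespace UnrA.Fer

open UnrG

universe u v w z

open Polynomial Finset
open scoped Classical

variable {m : UFun.{u, z}} {𝔽 : Type w} [Field 𝔽] [Fintype 𝔽] (b : Base 𝔽)

variable {F M : Type u} [Field F] [Field M] [Algebra F M] (ι : 𝔽 →+* F) {r n : ℕ}
  {t : Fin r → M} {x y : Fin n → M}

/-- The Frobenius relation for good classes. Hint: induction on `J`; the Frobenius at `insert j J`
is the composite of the ones at `{j}` and `J` (`exists_frobAt`, `ProdData.ext`); apply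
`Good.frob_step` to the good class `aeval (actL m τ) (∏ …) Z` (`Good.aeval`) and use that
`aeval` is multiplicative. -/
theorem Good.frob_all (hs : m.Specializes) (hP : ProdData (F := F) b t x y) {bb aa : Fin n → ℕ}
    (hba : ∀ j, ¬ b.N ∣ bb j + aa j)
    {Z : KM m M} (h : Good b F ι t x y bb aa Z) {a c : Fin n → ℕ} {τ : M →+* M}
    (hτ : IsDiag b ι t x y a c τ) (l : Fin n → 𝔽 → ℕ)
    (hl : ∀ (j : Fin n) (c' : 𝔽), c' ≠ 0 → c' ≠ 1 →
      (b.ζ ^ wt bb aa a c) ^ l j c' = (c' ^ b.e) ^ bb j * ((1 - c') ^ b.e) ^ aa j)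
    (J : Finset (Fin n)) (φ : M →+* M) (hφ : IsFrobAt b F t x y J φ) :
    fc b ^ J.card • KM.map m φ Z = fc b ^ J.card •
      Polynomial.aeval (actL m τ) ((-1) ^ J.card * ∏ j ∈ J, jacPoly 𝔽 (l j)) Z := by
  induction J using Finset.induction_on generalizing φ Z with
  | empty =>
    have hid : φ = RingHom.id M := by
      refine ProdData.ext b hP ?_ ?_ ?_ ?_
      · intro a
        exact hφ.const a
      · intro i
        exact hφ.ft i
      · intro i
        exact hφ.fx i (by simp)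
      · intro i
        exact hφ.fy i (by simp)
    rw [hid, KM.map_id]
    simp
  | insert j J hj ih =>
    obtain ⟨φ1, h1⟩ := ProdData.exists_frobAt b hP ι {j}
    obtain ⟨φ2, h2⟩ := ProdData.exists_frobAt b hP ι J
    have hcomp : φ = φ2.comp φ1 := by
      refine ProdData.ext b hP ?_ ?_ ?_ ?_
      · intro a
        rw [RingHom.comp_apply, hφ.const, h1.const, h2.const]
      · intro i
        rw [RingHom.comp_apply, hφ.ft, h1.ft, h2.ft]
      · intro i
        rw [RingHom.comp_apply]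
        by_cases hij : i = j
        · subst hij
          rw [hφ.gx i (Finset.mem_insert_self _ _), h1.gx i (Finset.mem_singleton_self _),
            map_pow, h2.fx i hj]
        · rw [h1.fx i (by simpa using hij)]
          by_cases hiJ : i ∈ J
          · rw [h2.gx i hiJ, hφ.gx i (Finset.mem_insert_of_mem hiJ)]
          · rw [h2.fx i hiJ, hφ.fx i (by simp [hij, hiJ])]
      · intro i
        rw [RingHom.comp_apply]
        by_cases hij : i = j
        · subst hij
          rw [hφ.gy i (Finset.mem_insert_self _ _), h1.gy i (Finset.mem_singleton_self _),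
            map_pow, h2.fy i hj]
        · rw [h1.fy i (by simpa using hij)]
          by_cases hiJ : i ∈ J
          · rw [h2.gy i hiJ, hφ.gy i (Finset.mem_insert_of_mem hiJ)]
          · rw [h2.fy i hiJ, hφ.fy i (by simp [hij, hiJ])]
    have h3 := Good.frob_step b ι hs hP hba h hτ l hl j φ1 h1
    have h4 := ih (h.aeval b ι hP hτ (jacPoly 𝔽 (l j))) φ2 h2
    rw [hcomp, ← KM.map_map, Finset.card_insert_of_notMem hj, Finset.prod_insert hj, pow_succ,
      mul_smul, ← map_nsmul, h3, map_neg, map_nsmul, smul_neg, smul_comm, h4, ← smul_neg,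
      mul_comm (fc b ^ J.card), mul_smul]
    congr 2
    rw [← Module.End.mul_apply, ← map_mul, ← smul_neg, ← LinearMap.neg_apply, ← map_neg]
    have e : -((-1) ^ J.card * (∏ j ∈ J, jacPoly 𝔽 (l j)) * jacPoly 𝔽 (l j)) =
        (-1) ^ (J.card + 1) * (jacPoly 𝔽 (l j) * ∏ j ∈ J, jacPoly 𝔽 (l j)) := by ring
    rw [e]

end UnrA.Fer
end

section

/-!
# The annihilators of a good class
-/

namespace UnrA.Fer

open UnrG

universe u v w z

open Polynomial Finset
open scoped Classical

variable {m : UFun.{u, z}} {𝔽 : Type w} [Field 𝔽] [Fintype 𝔽] (b : Base 𝔽)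

variable {F M : Type u} [Field F] [Field M] [Algebra F M] (ι : 𝔽 →+* F) {r n : ℕ}
  {t : Fin r → M} {x y : Fin n → M}

private lemma P10_tau {a c : Fin n → ℕ} {f : M →+* M} (hf : IsDiag b ι t x y a c f) (i : Fin n) :
    f (x i ^ b.N) = x i ^ b.N := by
  have hz : (algebraMap F M (ι b.ζ)) ^ b.N = 1 := by
    rw [← map_pow, ← map_pow, b.hζ.pow_eq_one, map_one, map_one]
  rw [map_pow, hf.fx, mul_pow, ← pow_mul, mul_comm (a i), pow_mul, hz, one_pow, one_mul]

omit b in
private lemma P10_wt (bb aa a c : Fin n → ℕ) (k : ℕ) :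
    wt bb aa (k • a) (k • c) = wt bb aa a c * k := by
  unfold wt
  rw [Finset.sum_mul]
  refine Finset.sum_congr rfl (fun i _ => ?_)
  simp only [Pi.smul_apply, smul_eq_mul]
  ring

/-- The annihilators of a good class. Proof: the polynomials `P` with
`aeval (actL m τ) P (C ^ n • Z) = 0`, `C = fc b`, form an ideal. It contains `X ^ orderOf (ζ ^ wt) - 1`
(`h.inv`: `τ ^ orderOf` fixes the monomial and the `x_j ^ N`), the sums `∑ X ^ (i * k)` with
`¬ N ∣ wt * k` (`h.new` for `τ ^ k`, whose weight is `k * wt`), and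
`q ^ w - (-1) ^ n ∏ jacPoly` by `hfrob` and `Good.frob_all` for `J = univ`
(`q ^ w Z = φ Z` and `C ^ n φ Z = C ^ n (-1) ^ n ∏ jacPoly (τ) Z`). Hence it contains `C D`. -/
theorem Good.annihilate (hs : m.Specializes) {wd : ℕ} (hP : ProdData (F := F) b t x y) {bb aa : Fin n → ℕ}
    (hba : ∀ j, ¬ b.N ∣ bb j + aa j)
    {Z : KM m M} (h : Good b F ι t x y bb aa Z) (φ : M →+* M) (hφ : IsFrobAt b F t x y univ φ)
    (hfrob : ((b.q : ℤ) ^ wd) • Z = KM.map m φ Z)
    {a c : Fin n → ℕ} {τ : M →+* M}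
    (hτ : IsDiag b ι t x y a c τ) (l : Fin n → 𝔽 → ℕ)
    (hl : ∀ (j : Fin n) (c' : 𝔽), c' ≠ 0 → c' ≠ 1 →
      (b.ζ ^ wt bb aa a c) ^ l j c' = (c' ^ b.e) ^ bb j * ((1 - c') ^ b.e) ^ aa j) (D : ℤ)
    (hD : C D ∈ Ideal.span (({X ^ orderOf (b.ζ ^ wt bb aa a c) - 1,
        C ((b.q : ℤ) ^ wd) - (-1) ^ n * ∏ j, jacPoly 𝔽 (l j)} : Set ℤ[X]) ∪
      {f | ∃ k : ℕ, ¬ b.N ∣ wt bb aa a c * k ∧ f = ∑ i ∈ range b.N, X ^ (i * k)})) :
    ((fc b : ℤ) ^ n * D) • Z = 0 := by
  have hlin : ∀ (P : ℤ[X]) (k : ℤ) (W : KM m M),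
      Polynomial.aeval (actL m τ) P (k • W) = k • Polynomial.aeval (actL m τ) P W := by
    intro P k W
    exact LinearMap.map_smul _ k W
  have key : ∀ P ∈ Ideal.span (({X ^ orderOf (b.ζ ^ wt bb aa a c) - 1,
        C ((b.q : ℤ) ^ wd) - (-1) ^ n * ∏ j, jacPoly 𝔽 (l j)} : Set ℤ[X]) ∪
      {f | ∃ k : ℕ, ¬ b.N ∣ wt bb aa a c * k ∧ f = ∑ i ∈ range b.N, X ^ (i * k)}),
      Polynomial.aeval (actL m τ) P (((fc b : ℤ) ^ n) • Z) = 0 := by
    intro P hP'
    refine Submodule.span_induction (p := fun P _ =>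
      Polynomial.aeval (actL m τ) P (((fc b : ℤ) ^ n) • Z) = 0) ?_ ?_ ?_ ?_ hP'
    · intro P hP2
      rcases hP2 with (hP2 | hP2) | ⟨k, hk, hP2⟩
      · rw [hP2, hlin]
        have h1 : Polynomial.aeval (actL m τ) (X ^ orderOf (b.ζ ^ wt bb aa a c) - 1 : ℤ[X]) Z =
            0 := by
          rw [map_sub, map_pow, aeval_X, map_one, LinearMap.sub_apply, Module.End.one_apply,
            actL_pow, sub_eq_zero]
          have h2 : KM.map m (RingHom.id M) Z = Z := by
            rw [KM.map_id]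
            rfl
          have ht := hτ.pow b ι (orderOf (b.ζ ^ wt bb aa a c))
          have h3 : KM.map m (τ ^ orderOf (b.ζ ^ wt bb aa a c)) Z = KM.map m (RingHom.id M) Z := by
            refine h.inv _ _ ?_ ?_ ?_ ?_
            · intro s
              rw [ht.const, RingHom.id_apply]
            · intro i
              rw [ht.ft, RingHom.id_apply]
            · intro i
              rw [P10_tau b ι ht, RingHom.id_apply]
            · rw [ht.map_mono b ι, P10_wt, pow_mul, ← map_pow, ← map_pow, ← map_pow, ← map_pow,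
                pow_orderOf_eq_one, map_one, map_one, one_mul, RingHom.id_apply]
          rw [h3, h2]
        rw [h1, smul_zero]
      · rw [Set.mem_singleton_iff] at hP2
        rw [hP2, map_sub, LinearMap.sub_apply, sub_eq_zero, hlin, hlin]
        have h4 := Good.frob_all b ι hs hP hba h hτ l hl univ φ hφ
        rw [Finset.card_univ, Fintype.card_fin] at h4
        have h5 : Polynomial.aeval (actL m τ) (C ((b.q : ℤ) ^ wd)) Z = ((b.q : ℤ) ^ wd) • Z := by
          rw [aeval_C, Module.algebraMap_end_apply]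
        have h6 : ((fc b : ℤ) ^ n) • KM.map m φ Z = ((fc b : ℤ) ^ n) •
            Polynomial.aeval (actL m τ) ((-1) ^ n * ∏ j, jacPoly 𝔽 (l j)) Z := by
          have h7 : ((fc b : ℤ) ^ n) = ((fc b ^ n : ℕ) : ℤ) := by push_cast; rfl
          rw [h7, natCast_zsmul, natCast_zsmul]
          exact h4
        rw [h5, hfrob, h6]
      · rw [hP2, hlin]
        have h1 : Polynomial.aeval (actL m τ) (∑ i ∈ range b.N, X ^ (i * k) : ℤ[X]) Z = 0 := by
          rw [map_sum, LinearMap.sum_apply]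
          have ht := hτ.pow b ι k
          have h8 := h.new _ _ _ ht (by rw [P10_wt]; exact hk)
          rw [← h8]
          refine Finset.sum_congr rfl (fun i _ => ?_)
          rw [map_pow, aeval_X, actL_pow, ← pow_mul, mul_comm k i]
        rw [h1, smul_zero]
    · rw [map_zero, LinearMap.zero_apply]
    · intro P Q _ _ h1 h2
      rw [map_add, LinearMap.add_apply, h1, h2, add_zero]
    · intro P Q _ h1
      rw [smul_eq_mul, map_mul, Module.End.mul_apply, h1, map_zero]
  have h9 := key _ hD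
  rw [aeval_C, Module.algebraMap_end_apply, smul_smul, mul_comm] at h9
  exact h9

end UnrA.Fer
end

section

/-!
# Vanishing for monomial subfields of products of Fermat curves
-/

namespace UnrA.Fer

open UnrG

universe u v w z

open Polynomial Finset
open scoped Classical

variable {𝔽 : Type w} [Field 𝔽] [Fintype 𝔽] (b : Base 𝔽)

/-- **Vanishing for monomial subfields of products of Fermat curves.** Proof: take `a`, `c`, `l` from
`Base.exists_exponents`, `D` from `exists_bezout` for `k = wt bb aa a c`, and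
`C = (N ^ (2 n))! * fc ^ n * |D|`. Let `Z = KM.map m i z`, a good class (`monoEmb_good`);
`τ` from `exists_diag`, `φ` from `exists_frobAt` for `univ`, `ψ` from
`exists_frobT`, `fr` from `exists_frob`. Then `q ^ w Z = fr Z` (the weight)
`= φ ψ i σ z` (`RelFrob.frob_eq`) `= φ ψ Z = φ Z`. `Good.annihilate` gives
`(fc ^ n D) • Z = 0`, and `monoEmb_smul_eq_zero` the claim. -/
theorem prod_main {n : ℕ} (wd : ℕ) (bb aa : Fin n → ℕ)
    (hn : n = 2 * wd → ∀ χ : MulChar 𝔽 ℂ, orderOf χ = b.N →
      ∏ j, jacobiSum (χ ^ bb j) (χ ^ aa j) ≠ (b.q : ℂ) ^ wd) (h1 : ∀ j, ¬ b.N ∣ bb j)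
    (h2 : ∀ j, ¬ b.N ∣ aa j) (h3 : ∀ j, ¬ b.N ∣ bb j + aa j) :
    ∃ C : ℕ, 0 < C ∧ ∀ (m : UFun.{u, z}) (_ : m.HasWeight 𝔽 b.q wd) (_ : m.Specializes)
      (F M E : Type u) [Field F] [Field M] [Field E] [Algebra F M]
      (ι : 𝔽 →+* F) (r : ℕ) (t : Fin r → M) (x y : Fin n → M)
      (_ : ProdData (F := F) b t x y) (i : E →+* M) (_ : MonoEmb b F t x y bb aa i)
      (σ : E →+* E) (_ : RelFrob b F t x y bb aa i σ) (z : KM m E)
      (_ : Unr z) (_ : NewCls b F ι t x y bb aa i z)
      (_ : KM.map m σ z = z), C • z = 0 := by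
  obtain ⟨a, c, l, hl⟩ := b.exists_exponents bb aa
  obtain ⟨D, hD0, hD⟩ := exists_bezout b wd bb aa hn h1 h2 h3 (wt bb aa a c) l hl
  refine ⟨(b.N ^ (2 * n)).factorial * (fc b ^ n * D.natAbs),
    Nat.mul_pos (Nat.factorial_pos _) (Nat.mul_pos (pow_pos (fc_pos b) n)
      (Int.natAbs_pos.mpr hD0)), ?_⟩
  intro m hw hs F M E _ _ _ _ ι r t x y hP i hi σ hσ z hu hnew hσz
  have hZ := monoEmb_good b ι hi hu hnew
  obtain ⟨τ, hτ⟩ := hP.exists_diag b ι a c
  obtain ⟨φ, hφ⟩ := hP.exists_frobAt b ι univ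
  obtain ⟨ψ, hψ1, hψ2, hψ3, hψ4, hψ5⟩ := exists_frobT b m hP
  obtain ⟨fr, hfr⟩ := b.exists_frob ((algebraMap F M).comp ι)
  have hdeg : KM.map m fr (KM.map m i z) = (b.q ^ wd) • KM.map m i z :=
    hw M ((algebraMap F M).comp ι) fr hfr _
  have hfrob : ((b.q : ℤ) ^ wd) • KM.map m i z = KM.map m φ (KM.map m i z) := by
    have h4 : ((b.q : ℤ) ^ wd) = ((b.q ^ wd : ℕ) : ℤ) := by push_cast; rfl
    rw [h4, natCast_zsmul, ← hdeg, KM.map_map i fr, ← hσ.frob_eq b hP hi hφ hψ1 hψ2 hψ3 hψ4 hfr,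
      ← KM.map_map, ← KM.map_map, ← KM.map_map, hσz, hψ5 _ (hu.map i)]
  have hann := hZ.annihilate b ι hs hP h3 φ hφ hfrob hτ l hl D hD
  have hnat : (fc b ^ n * D.natAbs) • KM.map m i z = 0 := by
    rw [← natCast_zsmul]
    push_cast
    rcases abs_choice D with h4 | h4
    · rw [h4]
      exact hann
    · rw [h4, mul_neg, neg_smul, hann, neg_zero]
  rw [mul_smul]
  refine monoEmb_smul_eq_zero b hP hi ?_
  rw [map_nsmul]
  exact hnat

end UnrA.Fer
end

section

/-!
# Sums over Galois groups over purely transcendental subfields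
-/

namespace UnrA.Fer

open UnrG

universe u v w z

open Polynomial Finset
open scoped Classical

variable {m : UFun.{u, z}} {F Ω : Type u} [Field F] [Field Ω] [Algebra F Ω]

/-- The generators of a purely transcendental subfield as elements of that subfield. -/
lemma exists_gens_of_isPurely {T : IntermediateField F Ω} (hT : IsPurely T) :
    ∃ (s : ℕ) (v : Fin s → T), AlgebraicIndependent F v ∧
      IntermediateField.adjoin F (Set.range v) = ⊤ := by
  obtain ⟨s, v, hv, hgen⟩ := hT
  have hmem : ∀ i, v i ∈ T := fun i => by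
    rw [← hgen]
    exact IntermediateField.subset_adjoin F _ ⟨i, rfl⟩
  obtain ⟨v', hv'⟩ : ∃ v' : Fin s → T, ∀ i, T.val (v' i) = v i :=
    ⟨fun i => ⟨v i, hmem i⟩, fun i => rfl⟩
  have hcomp : T.val ∘ v' = v := funext hv'
  have hvi : AlgebraicIndependent F v' := by
    refine AlgebraicIndependent.of_comp T.val ?_
    rw [hcomp]
    exact hv
  have hgen' : IntermediateField.adjoin F (Set.range v') = ⊤ := by
    have h1 : (IntermediateField.adjoin F (Set.range v')).map T.val =
        (⊤ : IntermediateField F T).map T.val := by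
      rw [IntermediateField.adjoin_map, ← Set.range_comp, hcomp, hgen,
        ← AlgHom.fieldRange_eq_map, IntermediateField.fieldRange_val]
    exact IntermediateField.map_injective T.val h1
  exact ⟨s, v', hvi, hgen'⟩

/-- Unramified classes of a purely transcendental subfield are constant. -/
lemma mem_cst_of_isPurely {T : IntermediateField F Ω} (hT : IsPurely T) {y : KM m T}
    (hy : Unr y) : y ∈ cst m F T := by
  obtain ⟨s, v, hv, hgen⟩ := exists_gens_of_isPurely hT
  exact unr_purely v hv hgen hy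

/-- The sum over the Galois group over a purely transcendental subfield. -/
theorem galSum_purely (T : IntermediateField F Ω) [FiniteDimensional T Ω] [IsGalois T Ω]
    (hT : IsPurely T) {z : KM m Ω} (hz : Unr z) :
    Module.finrank T Ω • ∑ g : Ω ≃ₐ[T] Ω, KM.map m (g : Ω →+* Ω) z ∈ cst m F Ω := by
  obtain ⟨y, hy⟩ := exists_trace (K := T) (L := Ω) z
  have hSu : Unr (∑ g : Ω ≃ₐ[T] Ω, KM.map m (g : Ω →+* Ω) z) := Unr.sum fun c _ => hz.map _
  have h2 : Unr (Module.finrank T Ω • y) := unr_smul_of_map (by rw [hy]; exact hSu)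
  have h3 := map_mem_cst (mem_cst_of_isPurely hT h2) (f := algebraMap T Ω) (M := Ω)
    (fun a => rfl)
  rwa [map_nsmul, hy] at h3

/-- The sum over the automorphisms over `T` fixing `Y` is the sum over the Galois group of the
subfield generated by `T` and `Y`. -/
theorem subSum_purely (T : IntermediateField F Ω) [FiniteDimensional T Ω] [IsGalois T Ω] {B : ℕ}
    (hB : Module.finrank T Ω ≤ B) (Y : Ω)
    (hT : IsPurely (T ⊔ IntermediateField.adjoin F {Y})) {z : KM m Ω} (hz : Unr z) :
    B.factorial • ∑ g ∈ univ.filter (fun g : Ω ≃ₐ[T] Ω => g Y = Y), KM.map m (g : Ω →+* Ω) z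
      ∈ cst m F Ω := by
  obtain ⟨T', hT'⟩ : ∃ T' : IntermediateField F Ω, T' = T ⊔ IntermediateField.adjoin F {Y} :=
    ⟨_, rfl⟩
  rw [← hT'] at hT
  have hle : T ≤ T' := by
    rw [hT']
    exact le_sup_left
  have hY : Y ∈ T' := by
    rw [hT']
    exact (le_sup_right : IntermediateField.adjoin F {Y} ≤ T ⊔ IntermediateField.adjoin F {Y})
      (IntermediateField.mem_adjoin_simple_self F Y)
  let _ : Algebra T T' := (IntermediateField.inclusion hle).toRingHom.toAlgebra
  have : IsScalarTower T T' Ω := IsScalarTower.of_algebraMap_eq fun x => rfl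
  have : IsGalois T' Ω := IsGalois.tower_top_of_isGalois T T' Ω
  have : FiniteDimensional T' Ω := Module.Finite.of_restrictScalars_finite T T' Ω
  have hpos : 0 < Module.finrank T' Ω := Module.finrank_pos
  have hfin : Module.finrank T' Ω ≤ B := by
    refine le_trans ?_ hB
    have : FiniteDimensional T T' :=
      FiniteDimensional.of_injective (IsScalarTower.toAlgHom T T' Ω).toLinearMap
        (IsScalarTower.toAlgHom T T' Ω).injective
    have hfree : Module.Free T T' := Module.Free.of_divisionRing T T'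
    have hfree' : Module.Free T' Ω := Module.Free.of_divisionRing T' Ω
    have hmul := Module.finrank_mul_finrank T T' Ω
    rw [← hmul]
    exact Nat.le_mul_of_pos_left _ Module.finrank_pos
  have h1 := galSum_purely T' hT hz
  have h2 : ∑ g : Ω ≃ₐ[T'] Ω, KM.map m (g : Ω →+* Ω) z =
      ∑ g ∈ univ.filter (fun g : Ω ≃ₐ[T] Ω => g Y = Y), KM.map m (g : Ω →+* Ω) z := by
    refine Finset.sum_bij (fun g _ => g.restrictScalars T) ?_ ?_ ?_ ?_
    · intro g _
      rw [mem_filter]
      exact ⟨mem_univ _, g.commutes ⟨Y, hY⟩⟩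
    · intro g _ g' _ h3
      refine AlgEquiv.ext fun x => ?_
      exact DFunLike.congr_fun h3 x
    · intro g hg
      rw [mem_filter] at hg
      obtain ⟨S, hS⟩ : ∃ S : IntermediateField F Ω, ∀ x, x ∈ S ↔ g x = x :=
        ⟨{ carrier := {x | g x = x}
           mul_mem' := fun {x y} hx hy => by
             change g (x * y) = x * y
             rw [map_mul, show g x = x from hx, show g y = y from hy]
           add_mem' := fun {x y} hx hy => by
             change g (x + y) = x + y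
             rw [map_add, show g x = x from hx, show g y = y from hy]
           algebraMap_mem' := fun c => g.commutes (algebraMap F T c)
           inv_mem' := fun x hx => by
             change g x⁻¹ = x⁻¹
             rw [map_inv₀, show g x = x from hx] }, fun x => Iff.rfl⟩
      have hS' : T' ≤ S := by
        rw [hT']
        refine sup_le (fun x hx => (hS x).mpr (g.commutes ⟨x, hx⟩)) ?_
        rw [IntermediateField.adjoin_simple_le_iff]
        exact (hS Y).mpr hg.2
      refine ⟨{ (g : Ω ≃+* Ω) with commutes' := fun x => (hS _).mp (hS' x.2) }, mem_univ _, ?_⟩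
      exact AlgEquiv.ext fun x => rfl
    · intro g _
      rfl
  rw [h2] at h1
  exact smul_mem_cst_of_dvd (Nat.dvd_factorial hpos hfin) h1

end UnrA.Fer
end

section

/-!
# Unramified classes of Artin–Schreier extensions
-/

namespace UnrA.Fer

open UnrG

universe u v w z

open Polynomial Finset
open scoped Classical

variable {m : UFun.{u, z}} {F Ω : Type u} [Field F] [Field Ω] [Algebra F Ω]

/-- Unramified classes of an Artin–Schreier extension whose subextensions of lines are purely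
transcendental. -/
theorem unr_lines {p : ℕ}
    [Fact p.Prime] [CharP F p] {k : ℕ} [FixSp F p k] (hk : 0 < k) (T : IntermediateField F Ω) {Y₁ Y₂ : Ω}
    (h1 : Y₁ ^ p ^ k - Y₁ ∈ T) (h2 : Y₂ ^ p ^ k - Y₂ ∈ T)
    (gen : IntermediateField.adjoin T {Y₁, Y₂} = ⊤) (hT : IsPurely T)
    (hT1 : ∀ c ∈ fixQ F (p ^ k),
      IsPurely (T ⊔ IntermediateField.adjoin F {Y₁ + algebraMap F Ω c * Y₂}))
    (hT2 : IsPurely (T ⊔ IntermediateField.adjoin F {Y₂})) {z : KM m Ω}
    (hz : Unr z) :
    (p ^ k * ((p ^ k) ^ 2).factorial) • z ∈ cst m F Ω := by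
  obtain ⟨hfd, hgal, hle⟩ := as_galois hk T h1 h2 gen
  have hg1 : ∀ g : Ω ≃ₐ[T] Ω, (g : Ω →+* Ω) (Y₁ ^ p ^ k - Y₁) = Y₁ ^ p ^ k - Y₁ := fun g =>
    g.commutes ⟨_, h1⟩
  have hg2 : ∀ g : Ω ≃ₐ[T] Ω, (g : Ω →+* Ω) (Y₂ ^ p ^ k - Y₂) = Y₂ ^ p ^ k - Y₂ := fun g =>
    g.commutes ⟨_, h2⟩
  choose b₁ hb₁ hb₁' using fun g : Ω ≃ₐ[T] Ω => as_translate (F := F) hk (hg1 g)
  choose b₂ hb₂ hb₂' using fun g : Ω ≃ₐ[T] Ω => as_translate (F := F) hk (hg2 g)
  have hY1 : ∀ g : Ω ≃ₐ[T] Ω, g Y₁ = Y₁ + algebraMap F Ω (b₁ g) := fun g => hb₁' g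
  have hY2 : ∀ g : Ω ≃ₐ[T] Ω, g Y₂ = Y₂ + algebraMap F Ω (b₂ g) := fun g => hb₂' g
  have hcF : ∀ (g : Ω ≃ₐ[T] Ω) (c : F), g (algebraMap F Ω c) = algebraMap F Ω c := fun g c =>
    g.commutes (algebraMap F T c)
  have hinj : ∀ c : F, algebraMap F Ω c = 0 ↔ c = 0 := fun c =>
    map_eq_zero_iff _ (algebraMap F Ω).injective
  have hext : ∀ g : Ω ≃ₐ[T] Ω, g Y₁ = Y₁ → g Y₂ = Y₂ → g = 1 := by
    intro g e1 e2
    apply AlgEquiv.ext
    intro x
    change g x = x
    have hx : x ∈ IntermediateField.adjoin T {Y₁, Y₂} := by rw [gen]; trivial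
    induction hx using IntermediateField.adjoin_induction with
    | mem x hx =>
      rcases hx with rfl | rfl
      · exact e1
      · exact e2
    | algebraMap x => exact g.commutes x
    | add x y _ _ hx hy => rw [map_add, hx, hy]
    | inv x _ hx => rw [map_inv₀, hx]
    | mul x y _ _ hx hy => rw [map_mul, hx, hy]
  have he : ∀ g, b₁ g = 0 ∧ b₂ g = 0 ↔ g = (1 : Ω ≃ₐ[T] Ω) := by
    intro g
    constructor
    · rintro ⟨h3, h4⟩
      apply hext
      · rw [hY1, h3, map_zero, add_zero]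
      · rw [hY2, h4, map_zero, add_zero]
    · rintro rfl
      have h3 := hY1 1
      have h4 := hY2 1
      rw [AlgEquiv.one_apply] at h3 h4
      exact ⟨(hinj _).1 (by linear_combination -h3), (hinj _).1 (by linear_combination -h4)⟩
  have key := lines_sum (S := fixQ F (p ^ k))
    (fun a ha b hb => neg_div_mem_fixQ hk ha hb) hb₁ hb₂ he
    (fun g : Ω ≃ₐ[T] Ω => KM.map m (g : Ω →+* Ω) z)
  have e1 : ∀ c ∈ fixQ F (p ^ k), ((p ^ k) ^ 2).factorial •
      ∑ g ∈ univ.filter (fun g : Ω ≃ₐ[T] Ω => b₁ g + c * b₂ g = 0),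
        KM.map m (g : Ω →+* Ω) z ∈ cst m F Ω := by
    intro c hc
    have h3 := subSum_purely T hle (Y₁ + algebraMap F Ω c * Y₂) (hT1 c hc) hz
    have h4 : univ.filter (fun g : Ω ≃ₐ[T] Ω => b₁ g + c * b₂ g = 0) =
        univ.filter (fun g : Ω ≃ₐ[T] Ω =>
          g (Y₁ + algebraMap F Ω c * Y₂) = Y₁ + algebraMap F Ω c * Y₂) := by
      refine Finset.filter_congr fun g _ => ?_
      rw [map_add, map_mul, hcF, hY1, hY2, ← hinj, map_add, map_mul]
      constructor
      · intro h5
        linear_combination h5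
      · intro h5
        linear_combination h5
    rw [h4]
    exact h3
  have e2 : ((p ^ k) ^ 2).factorial •
      ∑ g ∈ univ.filter (fun g : Ω ≃ₐ[T] Ω => b₂ g = 0), KM.map m (g : Ω →+* Ω) z ∈ cst m F Ω := by
    have h3 := subSum_purely T hle Y₂ hT2 hz
    have h4 : univ.filter (fun g : Ω ≃ₐ[T] Ω => b₂ g = 0) =
        univ.filter (fun g : Ω ≃ₐ[T] Ω => g Y₂ = Y₂) := by
      refine Finset.filter_congr fun g _ => ?_
      rw [hY2, ← hinj]
      constructor
      · intro h5
        linear_combination h5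
      · intro h5
        linear_combination h5
    rw [h4]
    exact h3
  have e3 : ((p ^ k) ^ 2).factorial • ∑ g : Ω ≃ₐ[T] Ω, KM.map m (g : Ω →+* Ω) z ∈ cst m F Ω := by
    have h5 : T ⊔ IntermediateField.adjoin F {(0 : Ω)} = T := by
      rw [sup_eq_left, IntermediateField.adjoin_simple_le_iff]
      exact zero_mem T
    have h3 := subSum_purely T hle 0 (by rw [h5]; exact hT) hz
    have h4 : (univ : Finset (Ω ≃ₐ[T] Ω)) =
        univ.filter (fun g : Ω ≃ₐ[T] Ω => g 0 = 0) := by
      rw [eq_comm, Finset.filter_true_of_mem]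
      intro g _
      exact map_zero g
    rw [h4]
    exact h3
  have e4 : KM.map m (((1 : Ω ≃ₐ[T] Ω)) : Ω →+* Ω) z = z := by
    have h3 : (((1 : Ω ≃ₐ[T] Ω)) : Ω →+* Ω) = RingHom.id Ω := rfl
    rw [h3, KM.map_id]
    rfl
  have h6 := congrArg (fun x => ((p ^ k) ^ 2).factorial • x) key
  beta_reduce at h6
  rw [smul_add, smul_add, smul_sum, e4, card_fixQ hk] at h6
  rw [mul_comm, mul_smul, eq_sub_of_add_eq h6.symm]
  exact sub_mem (add_mem (sum_mem e1) e2) e3

end UnrA.Fer
end

section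

/-!
# Sums over cyclic groups
-/

namespace UnrA.Fer

open UnrG

universe u v w z

open Polynomial Finset
open scoped Classical

variable {m : UFun.{u, z}} {F E : Type u} [Field F] [Field E] [Algebra F E] {N r n : ℕ} {t : Fin r → E}
  {X : Fin n → E} {D W : E} {B A : Fin n → ZMod N}

/-- the Kummer extension `E = T(W)` -/
private lemma V9_galois (T : IntermediateField F E) (hN : 0 < N) {ω : F}
    (hω : IsPrimitiveRoot ω N) {W : E} (hW0 : W ≠ 0) (hW : W ^ N ∈ T)
    (gen : IntermediateField.adjoin T {W} = ⊤) :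
    FiniteDimensional T E ∧ IsGalois T E ∧ Module.finrank T E ≤ N := by
  have hNE : NeZero N := ⟨hN.ne'⟩
  have hNF : NeZero (N : F) := hω.neZero'
  have hNT : (N : T) ≠ 0 := by
    intro h0
    apply hNF.out
    apply (algebraMap F T).injective
    rw [map_natCast, map_zero]
    exact h0
  obtain ⟨a, ha⟩ : ∃ a : T, algebraMap T E a = W ^ N := ⟨⟨_, hW⟩, rfl⟩
  have ha0 : a ≠ 0 := by
    rintro rfl
    rw [map_zero] at ha
    exact pow_ne_zero N hW0 ha.symm
  obtain ⟨P, hP⟩ : ∃ P : Polynomial T, P = Polynomial.X ^ N - C a := ⟨_, rfl⟩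
  have hPm : P.Monic := by
    rw [hP]
    exact monic_X_pow_sub_C a hN.ne'
  have hPs : P.Separable := by
    rw [hP]
    exact separable_X_pow_sub_C a hNT ha0
  have hPr : aeval W P = 0 := by
    rw [hP, map_sub, map_pow, aeval_X, aeval_C, ha, sub_self]
  have hi : IsIntegral T W := ⟨P, hPm, hPr⟩
  have hsplit : P.IsSplittingField T E := by
    refine ⟨?_, ?_⟩
    · rw [hP, Polynomial.map_sub, Polynomial.map_pow, map_X, map_C]
      exact X_pow_sub_C_splits_of_isPrimitiveRoot
        (hω.map_of_injective (algebraMap F E).injective) ha.symm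
    · rw [← top_le_iff]
      have h3 := congrArg IntermediateField.toSubalgebra gen
      rw [IntermediateField.adjoin_toSubalgebra_of_isAlgebraic
        (fun z hz => by rw [Set.mem_singleton_iff] at hz; rw [hz]; exact hi.isAlgebraic),
        IntermediateField.top_toSubalgebra] at h3
      rw [← h3]
      apply Algebra.adjoin_mono
      intro z hz
      rw [Set.mem_singleton_iff] at hz
      rw [hz, mem_rootSet']
      exact ⟨(hPm.map (algebraMap T E)).ne_zero, hPr⟩
  have hfd : FiniteDimensional T E := hsplit.finiteDimensional (K := T) (L := E) _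
  refine ⟨hfd, IsGalois.of_separable_splitting_field hPs, ?_⟩
  rw [← IntermediateField.finrank_top', ← gen, IntermediateField.adjoin.finrank hi]
  refine (natDegree_le_of_dvd (minpoly.dvd T W hPr) hPm.ne_zero).trans ?_
  rw [hP, natDegree_X_pow_sub_C]

/-- Up to the factor `N`, the sum over the powers of an automorphism of order `N` over the field of the
parameters is a constant class which does not depend on the automorphism. -/
theorem cycProdD_cyc_sum (h : CycProdD N (F := F) t X D W B A) (hN : 0 < N)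
    {ω₀ : F} (hω₀ : IsPrimitiveRoot ω₀ N) {z : KM m E} (hz : Unr z) :
    ∃ c ∈ cst m F E, ∀ (ω : F) (_ : IsPrimitiveRoot ω N) (g : E →+* E)
      (_ : ∀ a : F, g (algebraMap F E a) = algebraMap F E a) (_ : ∀ i, g (t i) = t i)
      (_ : ∀ j, g (X j) = X j) (_ : g W = algebraMap F E ω * W),
      N • ∑ i ∈ range N, KM.map m (g ^ i) z = c := by
  obtain ⟨T, hT⟩ : ∃ T : IntermediateField F E,
    T = IntermediateField.adjoin F (Set.range (Sum.elim t X)) := ⟨_, rfl⟩
  have hpure : IsPurely T := by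
    rw [hT]
    exact isPurely_adjoin _ h.ind
  have htT : ∀ i, t i ∈ T := by
    intro i
    rw [hT]
    exact IntermediateField.subset_adjoin _ _ ⟨Sum.inl i, rfl⟩
  have hXT : ∀ i, X i ∈ T := by
    intro i
    rw [hT]
    exact IntermediateField.subset_adjoin _ _ ⟨Sum.inr i, rfl⟩
  have hDT : D ∈ T := by
    have h1 : IntermediateField.adjoin F (Set.range t) ≤ T := by
      rw [IntermediateField.adjoin_le_iff]
      rintro _ ⟨i, rfl⟩
      exact htT i
    exact h1 h.D_mem
  have hWT : W ^ N ∈ T := by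
    rw [h.eq]
    refine mul_mem hDT (prod_mem fun i _ => mul_mem (pow_mem (hXT i) _) (pow_mem ?_ _))
    exact sub_mem (one_mem _) (hXT i)
  have hW0 : W ≠ 0 := by
    intro h0
    have h1 := h.eq
    rw [h0, zero_pow hN.ne'] at h1
    refine mul_ne_zero h.D_ne (prod_ne_zero_iff.2 fun i _ => ?_) h1.symm
    exact mul_ne_zero (pow_ne_zero _ (h.X_ne i).1) (pow_ne_zero _ (h.X_ne i).2)
  have hgen : IntermediateField.adjoin T {W} = ⊤ := by
    rw [eq_top_iff]
    rintro z -
    have h1 := congrArg IntermediateField.toSubfield h.gen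
    rw [IntermediateField.adjoin_toSubfield, IntermediateField.top_toSubfield] at h1
    have h2 : (⊤ : Subfield E) ≤ (IntermediateField.adjoin T {W}).toSubfield := by
      rw [← h1, Subfield.closure_le]
      rintro z (⟨a, rfl⟩ | ((⟨i, rfl⟩ | ⟨i, rfl⟩) | hz))
      · exact (IntermediateField.adjoin T {W}).algebraMap_mem (algebraMap F T a)
      · exact (IntermediateField.adjoin T {W}).algebraMap_mem ⟨_, htT i⟩
      · exact (IntermediateField.adjoin T {W}).algebraMap_mem ⟨_, hXT i⟩
      · rw [Set.mem_singleton_iff] at hz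
        rw [hz]
        exact IntermediateField.mem_adjoin_simple_self T W
    exact h2 (Subfield.mem_top z)
  obtain ⟨hfd, hgal, hfin⟩ := V9_galois T hN hω₀ hW0 hWT hgen
  refine ⟨_, galSum_purely T hpure hz, ?_⟩
  intro ω hω g gF gt gX gW
  have hgT : ∀ z ∈ T, g z = z := by
    obtain ⟨S, hS⟩ : ∃ S : IntermediateField F E, ∀ x, x ∈ S ↔ g x = x :=
      ⟨{ carrier := {x | g x = x}
         mul_mem' := fun {x y} hx hy => by
           change g (x * y) = x * y
           rw [map_mul, show g x = x from hx, show g y = y from hy]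
         add_mem' := fun {x y} hx hy => by
           change g (x + y) = x + y
           rw [map_add, show g x = x from hx, show g y = y from hy]
         algebraMap_mem' := fun c => gF c
         inv_mem' := fun x hx => by
           change g x⁻¹ = x⁻¹
           rw [map_inv₀, show g x = x from hx] }, fun x => Iff.rfl⟩
    have h1 : T ≤ S := by
      rw [hT, IntermediateField.adjoin_le_iff]
      rintro _ ⟨i | i, rfl⟩
      · exact (hS _).2 (gt i)
      · exact (hS _).2 (gX i)
    exact fun z hz => (hS z).1 (h1 hz)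
  let G : E →ₐ[T] E := { g with commutes' := fun x => hgT _ x.2 }
  obtain ⟨g', hg'⟩ : ∃ g' : E ≃ₐ[T] E, ∀ z, g' z = g z :=
    ⟨AlgEquiv.ofBijective G (Algebra.IsAlgebraic.algHom_bijective G), fun _ => rfl⟩
  have hpow : ∀ i : ℕ, ∀ z, (g' ^ i) z = (g ^ i) z := by
    intro i
    induction i with
    | zero =>
      intro z
      rfl
    | succ i ih =>
      intro z
      rw [pow_succ, pow_succ, AlgEquiv.mul_apply, ih, hg']
      rfl
  have hpowW : ∀ i : ℕ, (g ^ i) W = algebraMap F E ω ^ i * W := by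
    intro i
    induction i with
    | zero =>
      rw [pow_zero, pow_zero, one_mul]
      rfl
    | succ i ih =>
      rw [pow_succ']
      change g ((g ^ i) W) = _
      rw [ih, map_mul, map_pow, gF, gW]
      ring
  have hinj : Set.InjOn (fun i : ℕ => g' ^ i) (range N : Finset ℕ) := by
    intro a ha b hb hab
    have ha' : a < N := mem_range.1 ha
    have hb' : b < N := mem_range.1 hb
    have h1 := congrArg (fun f : E ≃ₐ[T] E => f W) hab
    simp only [hpow, hpowW] at h1
    have h2 := mul_right_cancel₀ hW0 h1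
    exact (hω.map_of_injective (algebraMap F E).injective).pow_inj ha' hb' h2
  have hcard : Fintype.card (E ≃ₐ[T] E) = Module.finrank T E := by
    rw [← Nat.card_eq_fintype_card]
    exact IsGalois.card_aut_eq_finrank T E
  have himg : (range N).image (fun i : ℕ => g' ^ i) = univ := by
    apply eq_of_subset_of_card_le (subset_univ _)
    rw [card_image_of_injOn hinj, card_range, card_univ, hcard]
    exact hfin
  have hN' : Module.finrank T E = N := by
    rw [← hcard, ← card_univ, ← himg, card_image_of_injOn hinj, card_range]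
  have h2 : ∑ σ : E ≃ₐ[T] E, KM.map m (σ : E →+* E) z = ∑ i ∈ range N, KM.map m (g ^ i) z := by
    rw [← himg, sum_image hinj]
    refine sum_congr rfl fun i _ => ?_
    have h3 : ((g' ^ i : E ≃ₐ[T] E) : E →+* E) = g ^ i := by
      ext x
      exact hpow i x
    rw [h3]
  rw [h2, hN']

end UnrA.Fer
end
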