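import Pool.Agent.Lib.MP_859dd5_ag.PP.G1
import Pool.Agent.Lib.MP_859dd5_ag.Mg.G061
import Pool.Agent.Lib.MP_859dd5_ag.Mg.G068
import Pool.Agent.Lib.MP_859dd5_ag.Mg.G069
import Pool.Agent.Lib.MP_859dd5_ag.Mg.G058
import Pool.Agent.Lib.MP_859dd5_ag.Mg.G070
import Pool.Agent.Lib.MP_859dd5_ag.Mg.G009
import Pool.Agent.Lib.MP_859dd5_ag.Mg.G007

section

/-!
# Twisting a three term relation by a power of the Frobenius
-/

namespace UnrG

universe u v w

open Polynomial Finset

variable {N : ℕ} {F K K' : Type u} [Field F] [Field K] [Field K'] [Algebra F K] [Algebra F K']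
  [Algebra K K'] [IsScalarTower F K K'] {r d l : ℕ}

/-- The subfield of the extension. -/
def twF (F : Type u) {K K' : Type u} [Field F] [Field K] [Field K'] [Algebra F K] [Algebra F K']
    [Algebra K K'] {r d l : ℕ} (t : Fin r → K) (Y : Fin (d + 2) → K) (x : Fin (l + 1) → K)
    (y : K') : IntermediateField F K' :=
  IntermediateField.adjoin F (Set.range (fun i => algebraMap K K' (t i)) ∪
    {z | ∃ i j, z = algebraMap K K' (Y i) / algebraMap K K' (Y j)} ∪
    Set.range (Fin.snoc (fun j : Fin l => algebraMap K K' (x j.castSucc)) y))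

private lemma G7_gen {t : Fin r → K} {Y : Fin (d + 2) → K} {x : Fin (l + 1) → K} {y : K'} {Q : ℕ}
    (hy : y ^ Q = algebraMap K K' (x (Fin.last l))) (T : IntermediateField F K')
    (hT : twF F t Y x y ≤ T) :
    IntermediateField.adjoin F
      (Set.range t ∪ {z | ∃ i j, z = Y i / Y j} ∪ Set.range x) ≤
      T.comap (IsScalarTower.toAlgHom F K K') := by
  have hyT : y ∈ T := by
    apply hT
    apply IntermediateField.subset_adjoin
    right
    exact ⟨Fin.last l, by rw [Fin.snoc_last]⟩
  rw [IntermediateField.adjoin_le_iff]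
  rintro z ((⟨i, rfl⟩ | ⟨i, j, rfl⟩) | ⟨j, rfl⟩)
  · change algebraMap K K' (t i) ∈ T
    apply hT
    apply IntermediateField.subset_adjoin
    left; left
    exact ⟨i, rfl⟩
  · change algebraMap K K' (Y i / Y j) ∈ T
    apply hT
    apply IntermediateField.subset_adjoin
    left; right
    exact ⟨i, j, map_div₀ _ _ _⟩
  · change algebraMap K K' (x j) ∈ T
    rcases Fin.eq_castSucc_or_eq_last j with ⟨j', rfl⟩ | rfl
    · apply hT
      apply IntermediateField.subset_adjoin
      right
      exact ⟨j'.castSucc, by rw [Fin.snoc_castSucc]⟩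
    · rw [← hy]
      exact pow_mem hyT Q

/-- Hint: the image of `K₀` is generated by the images of the generators
(`IntermediateField.adjoin_map` or `Subfield.closure`); `x (last) = y ^ Q`. -/
lemma twF_mem {t : Fin r → K} {Y : Fin (d + 2) → K} {x : Fin (l + 1) → K} {y : K'} {Q : ℕ}
    (hy : y ^ Q = algebraMap K K' (x (Fin.last l))) {z : K}
    (hz : z ∈ IntermediateField.adjoin F
      (Set.range t ∪ {z | ∃ i j, z = Y i / Y j} ∪ Set.range x)) :
    algebraMap K K' z ∈ twF F t Y x y := by
  exact G7_gen hy (twF F t Y x y) le_rfl hz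

/-- Hint: `K' = K(y)`, `K = K₀(w)`, and `twF_mem`: the subfield generated by `twF` and `w` contains
the image of `K` and `y`. -/
lemma twF_top {t : Fin r → K} {Y : Fin (d + 2) → K} {x : Fin (l + 1) → K} {y : K'} {Q : ℕ}
    (hy : y ^ Q = algebraMap K K' (x (Fin.last l))) {w : K}
    (hw : IntermediateField.adjoin F
      (Set.range t ∪ {z | ∃ i j, z = Y i / Y j} ∪ Set.range x) ⊔
        IntermediateField.adjoin F {w} = ⊤)
    (hK : IntermediateField.adjoin K {y} = ⊤) :
    twF F t Y x y ⊔ IntermediateField.adjoin F {algebraMap K K' w} = ⊤ := by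
  obtain ⟨T, hTdef⟩ : ∃ T, T = twF F t Y x y ⊔ IntermediateField.adjoin F {algebraMap K K' w} :=
    ⟨_, rfl⟩
  rw [← hTdef]
  have h1 : twF F t Y x y ≤ T := by rw [hTdef]; exact le_sup_left
  have h2 : algebraMap K K' w ∈ T := by
    rw [hTdef]
    exact (le_sup_right : IntermediateField.adjoin F {algebraMap K K' w} ≤ _)
      (IntermediateField.mem_adjoin_simple_self F _)
  have hyT : y ∈ T := by
    apply h1
    apply IntermediateField.subset_adjoin
    right
    exact ⟨Fin.last l, by rw [Fin.snoc_last]⟩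
  have h3 := G7_gen hy T h1
  have h4 : IntermediateField.adjoin F {w} ≤ T.comap (IsScalarTower.toAlgHom F K K') := by
    rw [IntermediateField.adjoin_le_iff]
    rintro z rfl
    exact h2
  have h5 : (⊤ : IntermediateField F K) ≤ T.comap (IsScalarTower.toAlgHom F K K') := by
    rw [← hw]
    exact sup_le h3 h4
  have h6 : ∀ z : K, algebraMap K K' z ∈ T := fun z => h5 (IntermediateField.mem_top (x := z))
  rw [eq_top_iff]
  intro z _
  have hz : z ∈ IntermediateField.adjoin K {y} := by rw [hK]; exact IntermediateField.mem_top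
  induction hz using IntermediateField.adjoin_induction with
  | mem u hu =>
    rw [Set.mem_singleton_iff] at hu
    rw [hu]
    exact hyT
  | algebraMap u => exact h6 u
  | add u v _ _ hu hv => exact add_mem (hu trivial) (hv trivial)
  | inv u _ hu => exact inv_mem (hu trivial)
  | mul u v _ _ hu hv => exact mul_mem (hu trivial) (hv trivial)

/-- Hint: `x ^ B (1 - x) ^ A = y ^ (Q B) (1 - y) ^ (Q A)` in characteristic `p`
(`sub_pow_char_pow`), and the exponents `Q * B.val` and `((Q : ZMod N) * B).val` are congruent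
(`ModPow.pow_congr`, `ZMod.natCast_val`-type lemmas). -/
lemma tw_pow {p k : ℕ} [Fact p.Prime] [CharP K' p] [NeZero N] {K₁ : IntermediateField F K'}
    {x y : K'} (hy : y ^ p ^ k = x) (hym : y ∈ K₁) (h0 : x ≠ 0) (h1 : 1 - x ≠ 0)
    (B A : ZMod N) :
    ModPow N K₁ (x ^ B.val * (1 - x) ^ A.val)
      (y ^ ((p : ZMod N) ^ k * B).val * (1 - y) ^ ((p : ZMod N) ^ k * A).val) := by
  have hx1 : 1 - x = (1 - y) ^ p ^ k := by
    rw [sub_pow_char_pow, one_pow, hy]
  have hy0 : y ≠ 0 := by
    rintro rfl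
    apply h0
    rw [← hy, zero_pow (pow_ne_zero k (Fact.out : p.Prime).ne_zero)]
  have hy1 : 1 - y ≠ 0 := by
    intro h2
    apply h1
    rw [hx1, h2, zero_pow (pow_ne_zero k (Fact.out : p.Prime).ne_zero)]
  rw [hx1, ← hy, ← pow_mul, ← pow_mul]
  apply ModPow.mul
  · apply ModPow.pow_congr hym hy0
    rw [ZMod.natCast_val, ZMod.cast_id]
    push_cast
    rw [ZMod.natCast_val, ZMod.cast_id]
  · apply ModPow.pow_congr (sub_mem (one_mem _) hym) hy1
    rw [ZMod.natCast_val, ZMod.cast_id]
    push_cast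
    rw [ZMod.natCast_val, ZMod.cast_id]

end UnrG
end

section

section

/-!
# Kummer extensions: homomorphisms, trace, norm
-/

namespace UnrG

universe u v w

open Polynomial Finset
open scoped Classical

variable {m : ℕ} {K : Type u} [Field K]

private lemma X2_minpoly {K L : Type*} [Field K] [Field L] [Algebra K L] {N : ℕ} (hN : 0 < N)
    {a : K} (hirr : Irreducible (X ^ N - C a)) {Y : L} (hY : Y ^ N = algebraMap K L a) :
    IsIntegral K Y ∧ minpoly K Y = X ^ N - C a := by
  have hroot : aeval Y (X ^ N - C a : K[X]) = 0 := by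
    rw [map_sub, map_pow, aeval_X, aeval_C, hY, sub_self]
  have hmon : (X ^ N - C a : K[X]).Monic := monic_X_pow_sub_C a hN.ne'
  exact ⟨⟨_, hmon, hroot⟩, (minpoly.eq_of_irreducible_of_monic hirr hroot hmon).symm⟩

private lemma X2_pb {K L : Type*} [Field K] [Field L] [Algebra K L] {N : ℕ} (hN : 0 < N)
    {a : K} (hirr : Irreducible (X ^ N - C a)) {Y : L} (hY : Y ^ N = algebraMap K L a)
    (htop : IntermediateField.adjoin K {Y} = ⊤) :
    ∃ pb : PowerBasis K L, pb.gen = Y ∧ pb.dim = N := by
  obtain ⟨hint, hmin⟩ := X2_minpoly hN hirr hY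
  refine ⟨(IntermediateField.adjoin.powerBasis hint).map
    ((IntermediateField.equivOfEq htop).trans IntermediateField.topEquiv), ?_, ?_⟩
  · rw [PowerBasis.map_gen, IntermediateField.adjoin.powerBasis_gen]
    rfl
  · rw [PowerBasis.map_dim, IntermediateField.adjoin.powerBasis_dim, hmin,
      natDegree_X_pow_sub_C]

/-- Homomorphisms out of a Kummer extension. Hint: `L` is isomorphic to `AdjoinRoot (X ^ N - C a)`
over `K` (the minimal polynomial of `Y` is `X ^ N - C a` by `minpoly.eq_of_irreducible_of_monic`;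
`IntermediateField.adjoinRootEquivAdjoin`), then `AdjoinRoot.lift`. -/
theorem kummer_lift {K L : Type u} {E : Type v} [Field K] [Field L] [Field E] [Algebra K L]
    {N : ℕ} (hN : 0 < N) {a : K} (hirr : Irreducible (X ^ N - C a)) {Y : L}
    (hY : Y ^ N = algebraMap K L a) (htop : IntermediateField.adjoin K {Y} = ⊤) (g : K →+* E)
    (Y' : E) (hY' : Y' ^ N = g a) :
    ∃ ν : L →+* E, ν.comp (algebraMap K L) = g ∧ ν Y = Y' := by
  obtain ⟨hint, hmin⟩ := X2_minpoly hN hirr hY
  obtain ⟨pb, hgen, -⟩ := X2_pb hN hirr hY htop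
  let _ : Algebra K E := g.toAlgebra
  have hroot : aeval Y' (minpoly K pb.gen) = 0 := by
    rw [hgen, hmin, map_sub, map_pow, aeval_X, aeval_C, hY']
    exact sub_self _
  refine ⟨(pb.lift Y' hroot : L →ₐ[K] E).toRingHom, ?_, ?_⟩
  · ext x
    exact (pb.lift Y' hroot).commutes x
  · have h := pb.lift_gen Y' hroot
    rw [hgen] at h
    exact h

/-- The trace of a Kummer extension generated by an `N`-th root. Hint: `L` is a splitting field of
`X ^ N - C a`, Galois of degree `N` (`Mathlib.FieldTheory.KummerExtension`, e.g.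
`isSplittingField_X_pow_sub_C_of_root_adjoin_eq_top`, `isGalois_of_isSplittingField_X_pow_sub_C`,
`finrank_of_isSplittingField_X_pow_sub_C`); the automorphisms are exactly the `N` different maps
`Y ↦ ζ ^ i Y`, i.e. the powers `s ^ i`, `i < N` (a `K`-automorphism is determined by the image
of `Y`, which is an `N`-th root of `a`); `exists_trace` gives `y`. -/
theorem kummer_trace (hm : Any m) {L : Type u} [Field L] [Algebra K L] {N : ℕ} (hN : 0 < N)
    {ζ : K} (hζ : IsPrimitiveRoot ζ N) {a : K} (hirr : Irreducible (X ^ N - C a)) {Y : L}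
    (hY : Y ^ N = algebraMap K L a) (htop : IntermediateField.adjoin K {Y} = ⊤)
    (s : L →+* L) (hs : s.comp (algebraMap K L) = algebraMap K L)
    (hsY : s Y = algebraMap K L ζ * Y) :
    FiniteDimensional K L ∧ IsGalois K L ∧ Module.finrank K L = N ∧
      ∀ x : KM m L, ∃ y : KM m K, KM.map m (algebraMap K L) y =
        ∑ i ∈ range N, KM.map m (s ^ i) x := by
  obtain ⟨pb, hgen, hdim⟩ := X2_pb hN hirr hY htop
  have hfin : FiniteDimensional K L := pb.finite
  have hrank : Module.finrank K L = N := by rw [pb.finrank, hdim]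
  have hprim : (primitiveRoots N K).Nonempty := ⟨ζ, (mem_primitiveRoots hN).2 hζ⟩
  have hsplit : IsSplittingField K L (X ^ N - C a) := by
    have h := isSplittingField_X_pow_sub_C_of_root_adjoin_eq_top (K := K) (L := L)
      (by rw [hrank]; exact hprim) (a := a) (α := Y) (by rw [hrank]; exact hY) htop
    rwa [hrank] at h
  have hgal : IsGalois K L := isGalois_of_isSplittingField_X_pow_sub_C hprim hirr L
  refine ⟨hfin, hgal, hrank, ?_⟩
  intro x
  obtain ⟨y, hy⟩ := exists_trace hm (K := K) (L := L) x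
  refine ⟨y, ?_⟩
  rw [hy]
  -- the automorphism
  let sA : L →ₐ[K] L := { s with commutes' := fun r => RingHom.congr_fun hs r }
  have hsA : ∀ z, sA z = s z := fun _ => rfl
  let sE : L ≃ₐ[K] L := AlgEquiv.ofBijective sA (Algebra.IsAlgebraic.algHom_bijective sA)
  have hsE : ∀ z, sE z = s z := fun _ => rfl
  have hpow : ∀ (i : ℕ), ((sE ^ i : L ≃ₐ[K] L) : L →+* L) = s ^ i := by
    intro i
    induction i with
    | zero => ext z; rfl
    | succ i ih =>
      ext z
      rw [pow_succ, pow_succ]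
      have h1 := RingHom.congr_fun ih (sE z)
      exact h1
  have hpowY : ∀ i : ℕ, (sE ^ i) Y = algebraMap K L ζ ^ i * Y := by
    intro i
    induction i with
    | zero => simp
    | succ i ih =>
      rw [pow_succ', AlgEquiv.mul_apply, ih, map_mul, map_pow, AlgEquiv.commutes, hsE, hsY]
      ring
  have hζL : IsPrimitiveRoot (algebraMap K L ζ) N := hζ.map_of_injective (algebraMap K L).injective
  have hNz : NeZero N := ⟨hN.ne'⟩
  have hsurj : Function.Surjective (fun i : Fin N => sE ^ (i : ℕ)) := by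
    intro σ
    have hσ : (σ Y) ^ N = Y ^ N := by rw [← map_pow, hY, AlgEquiv.commutes]
    have hex : ∃ i < N, algebraMap K L ζ ^ i * Y = σ Y := by
      by_cases hY0 : Y = 0
      · exact ⟨0, hN, by rw [hY0, map_zero, mul_zero]⟩
      · have h1 : (σ Y / Y) ^ N = 1 := by
          rw [div_pow, hσ, div_self (pow_ne_zero _ hY0)]
        obtain ⟨i, hi, he⟩ := hζL.eq_pow_of_pow_eq_one h1
        exact ⟨i, hi, by rw [he, div_mul_cancel₀ _ hY0]⟩
    obtain ⟨i, hi, he⟩ := hex
    refine ⟨⟨i, hi⟩, ?_⟩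
    have h2 : ((sE ^ i : L ≃ₐ[K] L) : L →ₐ[K] L) = (σ : L →ₐ[K] L) := by
      apply pb.algHom_ext
      rw [hgen]
      change (sE ^ i) Y = σ Y
      rw [hpowY, he]
    exact AlgEquiv.ext fun z => AlgHom.congr_fun h2 z
  have hcard : Fintype.card (Fin N) = Fintype.card (L ≃ₐ[K] L) := by
    rw [Fintype.card_fin, ← Nat.card_eq_fintype_card, IsGalois.card_aut_eq_finrank, hrank]
  have hbij : Function.Bijective (fun i : Fin N => sE ^ (i : ℕ)) :=
    (Fintype.bijective_iff_surjective_and_card _).2 ⟨hsurj, hcard⟩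
  rw [← hbij.sum_comp (fun σ : L ≃ₐ[K] L => KM.map m (σ : L →+* L) x), Finset.sum_range]
  exact Finset.sum_congr rfl fun i _ => by rw [hpow]

/-- The norm from a Kummer extension of an element `Y - c`. Hint: `IsPrimitiveRoot.pow_sub_pow_eq_prod_sub_mul`
(or evaluate `X ^ N - Y ^ N = ∏ (X - ζ ^ i Y)` at `c`). -/
lemma prod_root_sub {L : Type u} [Field L] {N : ℕ} (hN : 0 < N) {ζ : L}
    (hζ : IsPrimitiveRoot ζ N) (Y c : L) :
    ∏ i ∈ range N, (ζ ^ i * Y - c) = (-1) ^ (N + 1) * (Y ^ N - c ^ N) := by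
  have h := congrArg (Polynomial.eval c) (X_pow_sub_C_eq_prod hζ hN (rfl : Y ^ N = Y ^ N))
  rw [eval_sub, eval_pow, eval_X, eval_C, eval_prod] at h
  simp only [eval_sub, eval_X, eval_C] at h
  have h2 : ∏ i ∈ range N, (ζ ^ i * Y - c) = (-1) ^ N * ∏ i ∈ range N, (c - ζ ^ i * Y) := by
    have h3 : ((-1 : L)) ^ N = ∏ _i ∈ range N, (-1 : L) := by
      rw [Finset.prod_const, Finset.card_range]
    rw [h3, ← Finset.prod_mul_distrib]
    exact Finset.prod_congr rfl fun i _ => by ring
  rw [h2, ← h]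
  ring

end UnrG
end

section

/-!
# Existence of the curve of the correspondence
-/

namespace UnrG

universe u v w

open Polynomial Finset
open scoped Classical

variable {m : ℕ} {𝔽 : Type w} [Field 𝔽] [Fintype 𝔽] (b : Base 𝔽)

variable {K M : Type u} [Field K] [Field M] (ι : 𝔽 →+* K) {j : K →+* M} {x y : M}

private lemma B2_Ne_ne {M : Type u} [Field M] (ι : 𝔽 →+* M) : ((b.N * b.e : ℕ) : M) ≠ 0 := by
  have h2 : ((Fintype.card 𝔽 : ℕ) : 𝔽) = 0 := FiniteField.cast_card_eq_zero 𝔽
  have h3 : ((Fintype.card 𝔽 : ℕ) : M) = 0 := by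
    rw [← map_natCast ι, h2, map_zero]
  rw [b.card, Nat.cast_add, Nat.cast_one] at h3
  intro h
  rw [h, zero_add] at h3
  exact one_ne_zero h3

/-- Hint: `irreducible_kummer`, `squarefree_one_sub_mul_pow`; `N e` is nonzero in `M` since
`N e + 1 = q` is zero there (`Base.card`, `FiniteField.cast_card_eq_zero`). -/
lemma irreducible_frob (ι : 𝔽 →+* K) (h : IsFermat b.N j x y) :
    Irreducible (X ^ b.N - C (algebraMap M[X] (RatFunc M)
      (1 - C (x ^ b.N) * X ^ (b.N * b.e))) : (RatFunc M)[X]) := by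
  refine irreducible_kummer _ (squarefree_one_sub_mul_pow (B2_Ne_ne b (j.comp ι)) _) ?_ b.N_pos
  have hl : 0 < b.N * b.e := Nat.mul_pos b.N_pos b.e_pos
  refine lt_of_lt_of_le hl (le_natDegree_of_ne_zero ?_)
  rw [coeff_sub, coeff_one, if_neg hl.ne', coeff_C_mul, coeff_X_pow, if_pos rfl, mul_one,
    zero_sub, neg_ne_zero]
  exact pow_ne_zero _ h.x_ne

private lemma B2_transc (h : ∀ f : K[X], f ≠ 0 → f.eval₂ j x ≠ 0) (e : ℕ)
    {L : Type u} [Field L] [Algebra (RatFunc M) L] (f : K[X]) (hf : f ≠ 0) :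
    f.eval₂ ((algebraMap (RatFunc M) L).comp ((algebraMap M (RatFunc M)).comp j))
      (algebraMap (RatFunc M) L (algebraMap M (RatFunc M) x * RatFunc.X ^ e)) ≠ 0 := by
  rw [← hom_eval₂, Ne, map_eq_zero]
  have e1 : (algebraMap M (RatFunc M)).comp j = (algebraMap M[X] (RatFunc M)).comp (C.comp j) := by
    ext a
    simp
  have e2 : algebraMap M (RatFunc M) x * RatFunc.X ^ e =
      algebraMap M[X] (RatFunc M) (C x * X ^ e) := by
    rw [algebraMap_ratFunc_eq, map_mul, map_pow, RatFunc.algebraMap_X]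
  rw [e1, e2, ← hom_eval₂, map_eq_zero_iff _ (IsFractionRing.injective M[X] (RatFunc M))]
  intro h0
  have h1 := congrArg (evalRingHom (1 : M)) h0
  rw [hom_eval₂, map_zero] at h1
  apply h f hf
  convert h1 using 2
  · ext a
    simp
  · simp

/-- Hint: `L = AdjoinRoot` of the irreducible polynomial, `s` by `kummer_lift`, `ψ` by
`IsFermat.exists_hom` (the element `x v ^ e` is transcendental over `K`: e.g. specialize `v = 1`,
or: apply the valuation of `M(v)` at infinity and `DVal.transc`-like arguments, or note that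
`f (x v ^ e) = 0` gives a polynomial relation for `v` over `M` whose coefficients
`f_i x ^ i` vanish). -/
theorem exists_frobData (h : IsFermat b.N j x y) :
    ∃ (L : Type u) (_ : Field L) (_ : Algebra (RatFunc M) L),
      Nonempty (FrobData b ι j x y L) := by
  have hirr := irreducible_frob b ι h
  set a : RatFunc M := algebraMap M[X] (RatFunc M) (1 - C (x ^ b.N) * X ^ (b.N * b.e)) with ha
  have hfact : Fact (Irreducible (X ^ b.N - C a : (RatFunc M)[X])) := ⟨hirr⟩
  set L := AdjoinRoot (X ^ b.N - C a : (RatFunc M)[X]) with hL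
  set Y : L := AdjoinRoot.root _ with hY
  have hYN : Y ^ b.N = algebraMap (RatFunc M) L a := by
    have h1 := AdjoinRoot.eval₂_root (X ^ b.N - C a : (RatFunc M)[X])
    rw [eval₂_sub, eval₂_pow, eval₂_X, eval₂_C, sub_eq_zero] at h1
    exact h1
  have htop : IntermediateField.adjoin (RatFunc M) {Y} = ⊤ :=
    IntermediateField.adjoin_eq_top_of_algebra _ _ AdjoinRoot.adjoinRoot_eq_top
  have hζ : (j (ι b.ζ)) ^ b.N = 1 := by
    rw [← map_pow, ← map_pow, b.hζ.pow_eq_one, map_one, map_one]
  obtain ⟨s, hs, hsY⟩ := kummer_lift b.N_pos hirr hYN htop (algebraMap (RatFunc M) L)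
    (algebraMap (RatFunc M) L (algebraMap M (RatFunc M) (j (ι b.ζ))) * Y) (by
      rw [mul_pow, ← map_pow, ← map_pow, hζ, map_one, map_one, one_mul, hYN])
  have e0 : (algebraMap M (RatFunc M) x * RatFunc.X ^ b.e) ^ b.N + a = 1 := by
    rw [ha, ← RatFunc.algebraMap_X, algebraMap_ratFunc_eq, ← map_pow, ← map_mul, ← map_pow,
      ← map_add]
    have e1 : (C x * X ^ b.e : M[X]) ^ b.N + (1 - C (x ^ b.N) * X ^ (b.N * b.e)) = 1 := by
      rw [mul_pow, ← pow_mul, Nat.mul_comm b.e b.N, C_pow]
      ring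
    rw [e1, map_one]
  obtain ⟨ψ, h1, h2, h3⟩ := h.exists_hom b.N_pos (b.N_ne ι)
    ((algebraMap (RatFunc M) L).comp ((algebraMap M (RatFunc M)).comp j))
    (algebraMap (RatFunc M) L (algebraMap M (RatFunc M) x * RatFunc.X ^ b.e)) Y (by
      rw [hYN, ← map_pow, ← map_add, e0, map_one]) (fun f hf => B2_transc h.transc b.e f hf)
  exact ⟨L, inferInstance, inferInstance, ⟨{
    Y := Y
    s := s
    ψ := ψ
    hY := hYN
    htop := htop
    hs := hs
    hsY := hsY
    hψj := fun a => congrArg (fun f : K →+* L => f a) h1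
    hψx := h2
    hψy := h3 }⟩⟩

end UnrG
end

section

/-!
# The norm and the push-forward
-/

namespace UnrG

universe u v w

open Polynomial Finset
open scoped Classical

variable {m : ℕ} {𝔽 : Type w} [Field 𝔽] [Fintype 𝔽] (b : Base 𝔽)

variable {K M : Type u} [Field K] [Field M] {ι : 𝔽 →+* K} {j : K →+* M} {x y : M}
  {L : Type u} [Field L] [Algebra (RatFunc M) L] (d : FrobData b ι j x y L)

/-- Hint: `(d.s ^ i) g = ζ ^ i Y - y (1 - v) ^ e` (`FrobData.s_pow_Y`, `FrobData.s_pow_const`),
`prod_root_sub`, `d.hY`, `h.eq`. -/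
lemma FrobData.prod_g (h : IsFermat b.N j x y) :
    ∏ i ∈ range b.N, (d.s ^ i) (d.g b) = (-1) ^ (b.N + 1) *
      algebraMap (RatFunc M) L (algebraMap M[X] (RatFunc M) (normPoly b (x ^ b.N))) := by
  have hζ : IsPrimitiveRoot
      (algebraMap (RatFunc M) L (algebraMap M (RatFunc M) (j (ι b.ζ)))) b.N :=
    b.hζ_map ((algebraMap (RatFunc M) L).comp ((algebraMap M (RatFunc M)).comp (j.comp ι)))
  have h1 := prod_root_sub b.N_pos hζ d.Y
    (algebraMap (RatFunc M) L (algebraMap M (RatFunc M) y * (1 - RatFunc.X) ^ b.e))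
  have h2 : ∀ i ∈ range b.N, (d.s ^ i) (d.g b) =
      (algebraMap (RatFunc M) L (algebraMap M (RatFunc M) (j (ι b.ζ)))) ^ i * d.Y -
        algebraMap (RatFunc M) L (algebraMap M (RatFunc M) y * (1 - RatFunc.X) ^ b.e) := by
    intro i _
    rw [FrobData.g, map_sub, d.s_pow_const b, d.s_pow_Y b]
  rw [prod_congr rfl h2, h1, d.hY, ← map_pow, ← map_sub]
  congr 2
  have hy : y ^ b.N = 1 - x ^ b.N := by rw [← h.eq]; ring
  rw [mul_pow, ← map_pow, hy, algebraMap_ratFunc_eq, ← RatFunc.algebraMap_X,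
    ← map_one (algebraMap M[X] (RatFunc M)), ← map_sub, ← map_pow, ← map_pow, ← map_mul, ← map_sub]
  congr 1
  unfold normPoly
  rw [← pow_mul, Nat.mul_comm b.e b.N, C_sub, C_1]

/-- Hint: otherwise `Y` would lie in `M(v)`, but `X ^ N - C _` is irreducible of degree `N ≥ 2`
(`irreducible_frob`); or `g = 0` gives `normPoly = 0`, contradicting its value/derivative, e.g.
its coefficient of degree one or `eval 0`. -/
lemma FrobData.g_ne (h : IsFermat b.N j x y) (i : ℕ) : (d.s ^ i) (d.g b) ≠ 0 := by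
  have hg : d.g b ≠ 0 := by
    intro h0
    have h1 := d.prod_g b h
    rw [prod_eq_zero (mem_range.mpr b.N_pos) (by rw [h0, map_zero]), eq_comm, mul_eq_zero] at h1
    rcases h1 with h1 | h1
    · exact pow_ne_zero _ (neg_ne_zero.mpr one_ne_zero) h1
    · rw [map_eq_zero, map_eq_zero_iff _ (IsFractionRing.injective M[X] (RatFunc M))] at h1
      have h2 := congrArg (fun p : M[X] => p.eval 0) h1
      have hl : b.N * b.e ≠ 0 := (Nat.mul_pos b.N_pos b.e_pos).ne'
      simp only [normPoly, eval_sub, eval_one, eval_mul, eval_C, eval_pow, eval_X, sub_zero,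
        one_pow, mul_one, zero_pow hl, mul_zero, eval_zero] at h2
      have h3 : x ^ b.N = 0 := by linear_combination h2
      exact pow_ne_zero _ h.x_ne h3
  exact (_root_.map_ne_zero (d.s ^ i)).mpr hg

/-- The push-forward of the class. Hint: `kummer_trace` with `ζ = algebraMap M _ (j (ι b.ζ))`. -/
theorem FrobData.exists_push (hm : Any m) (h : IsFermat b.N j x y) (ξ : KM m M) :
    FiniteDimensional (RatFunc M) L ∧ IsGalois (RatFunc M) L ∧
    Module.finrank (RatFunc M) L = b.N ∧
    ∃ y₀ : KM m (RatFunc M), KM.map m (algebraMap (RatFunc M) L) y₀ =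
      ∑ i ∈ range b.N, KM.map m (d.s ^ i) (d.β b m ξ) := by
  have hζ : IsPrimitiveRoot (algebraMap M (RatFunc M) (j (ι b.ζ))) b.N :=
    b.hζ_map ((algebraMap M (RatFunc M)).comp (j.comp ι))
  obtain ⟨h1, h2, h3, h4⟩ := kummer_trace hm b.N_pos hζ (irreducible_frob b ι h) d.hY d.htop
    d.s d.hs d.hsY
  exact ⟨h1, h2, h3, h4 _⟩

end UnrG
end

section

/-!
# Specialization by reduction
-/

namespace UnrG

universe u v w

open Polynomial Finset
open scoped Classical

variable {m : ℕ} {K : Type u} [Field K]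

/-- If a homomorphism to Laurent series reduces to a homomorphism on generators, it does so
everywhere. Hint: the set of such `a` is a subfield; for the inverse, `γ a ≠ 0` when `a ≠ 0`, so
`f` is a unit of the ring of power series. -/
theorem exists_red {M : Type u} [Field M] (h : M →+* LaurentSeries K) (γ : M →+* K) (S : Set M)
    (hS : Subfield.closure S = ⊤)
    (hred : ∀ a ∈ S, ∃ f : PowerSeries K, h a = (f : LaurentSeries K) ∧
      PowerSeries.constantCoeff f = γ a) (a : M) :
    ∃ f : PowerSeries K, h a = (f : LaurentSeries K) ∧ PowerSeries.constantCoeff f = γ a := by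
  have ha : a ∈ Subfield.closure S := by rw [hS]; trivial
  induction ha using Subfield.closure_induction with
  | mem a ha => exact hred a ha
  | one => exact ⟨1, by rw [map_one, PowerSeries.coe_one], by rw [map_one, map_one]⟩
  | add x y _ _ hx hy =>
    obtain ⟨f, hf, hf'⟩ := hx
    obtain ⟨g, hg, hg'⟩ := hy
    exact ⟨f + g, by rw [map_add, hf, hg, PowerSeries.coe_add], by
      rw [map_add, map_add, hf', hg']⟩
  | neg x _ hx =>
    obtain ⟨f, hf, hf'⟩ := hx
    exact ⟨-f, by rw [map_neg, hf, PowerSeries.coe_neg], by rw [map_neg, map_neg, hf']⟩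
  | inv x _ hx =>
    obtain ⟨f, hf, hf'⟩ := hx
    by_cases hx0 : x = 0
    · refine ⟨0, ?_, ?_⟩
      · rw [hx0, inv_zero, map_zero, PowerSeries.coe_zero]
      · rw [hx0, inv_zero, map_zero, map_zero]
    · have h1 : PowerSeries.constantCoeff f ≠ 0 := by
        rw [hf']
        exact (map_ne_zero γ).mpr hx0
      refine ⟨f⁻¹, ?_, ?_⟩
      · rw [map_inv₀, hf, inv_eq_iff_eq_inv, eq_comm]
        apply inv_eq_of_mul_eq_one_left
        rw [← PowerSeries.coe_mul, PowerSeries.mul_inv_cancel f h1, PowerSeries.coe_one]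
      · rw [PowerSeries.constantCoeff_inv, hf', map_inv₀]
  | mul x y _ _ hx hy =>
    obtain ⟨f, hf, hf'⟩ := hx
    obtain ⟨g, hg, hg'⟩ := hy
    exact ⟨f * g, by rw [map_mul, hf, hg, PowerSeries.coe_mul], by
      rw [map_mul, map_mul, hf', hg']⟩

/-- Hint: `DVal.θ_const` with `exists_red`, `lauVal_coe`. -/
theorem θ_of_red (hm : Any m) {M : Type u} [Field M] (h : M →+* LaurentSeries K) (γ : M →+* K)
    (S : Set M) (hS : Subfield.closure S = ⊤)
    (hred : ∀ a ∈ S, ∃ f : PowerSeries K, h a = (f : LaurentSeries K) ∧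
      PowerSeries.constantCoeff f = γ a) (ξ : KM m M) :
    (lauVal K).θ hm (KM.map m h ξ) = ⟨KM.map m γ ξ, 0⟩ := by
  have key : ∀ a : M, a ≠ 0 → (lauVal K).v (h a) = 0 ∧ (lauVal K).ρ (h a) = γ a := by
    intro a ha
    obtain ⟨f, hf, hf'⟩ := exists_red h γ S hS hred a
    have h1 : PowerSeries.constantCoeff f ≠ 0 := by
      rw [hf']
      exact (map_ne_zero γ).mpr ha
    rw [hf, ← hf']
    exact lauVal_coe f h1
  exact DVal.θ_const hm _ h γ (fun a ha => (key a ha).1) (fun a ha => (key a ha).2) ξ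

/-- The residue of the product of an unramified class with a symbol. Hint: `DVal.res_mul_sym`,
`θ_of_red`, `DVal.spec_apply`. -/
theorem res_mul_sym_of_red (hm : Any m) {M : Type u} [Field M] (h : M →+* LaurentSeries K)
    (γ : M →+* K) (S : Set M) (hS : Subfield.closure S = ⊤)
    (hred : ∀ a ∈ S, ∃ f : PowerSeries K, h a = (f : LaurentSeries K) ∧
      PowerSeries.constantCoeff f = γ a) (ξ : KM m M) {g : LaurentSeries K} (hg : g ≠ 0) :
    (lauVal K).res hm (KM.map m h ξ * sym m g) =
      (((lauVal K).v g : ℤ) : ZMod m) • KM.map m γ ξ := by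
  have h1 := θ_of_red hm h γ S hS hred ξ
  rw [DVal.res_mul_sym hm _ _ hg (by rw [DVal.res, h1]), DVal.spec_apply, h1]

end UnrG
end

section

/-!
# The expansion at infinity and the diagonal automorphism
-/

namespace UnrG

universe u v w

open Polynomial Finset
open scoped Classical

variable {m : ℕ} {𝔽 : Type w} [Field 𝔽] [Fintype 𝔽] (b : Base 𝔽)

variable {K M : Type u} [Field K] [Field M] {ι : 𝔽 →+* K} {j : K →+* M} {x y : M}
  {L : Type u} [Field L] [Algebra (RatFunc M) L] (d : FrobData b ι j x y L)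

private lemma B5_coe_poly (n : ℕ) (c : M) :
    ((1 - PowerSeries.C c * PowerSeries.X ^ n : PowerSeries M) : LaurentSeries M)
      = 1 - HahnSeries.C c * lT M ^ n := by
  rw [PowerSeries.coe_sub, PowerSeries.coe_one, PowerSeries.coe_mul, PowerSeries.coe_pow,
    PowerSeries.coe_C, PowerSeries.coe_X]
  rfl

/-- The extension of the expansion at infinity. Hint: `exists_root_powerSeries` for
`1 - C (x ^ N)⁻¹ * X ^ (N e)` with `a = 1`; with `v = T⁻¹`:
`1 - x ^ N v ^ (N e) = (ε x T ^ (-e)) ^ N (1 - (x ^ N)⁻¹ T ^ (N e))`; then `kummer_lift` with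
`irreducible_frob`; `lauInf_algebraMap`. -/
lemma FrobData.exists_infty (h : IsFermat b.N j x y) :
    ∃ (ν : L →+* LaurentSeries M) (f : PowerSeries M),
      ν.comp (algebraMap (RatFunc M) L) = lauInf M ∧
      ν d.Y = HahnSeries.C (j (ι b.ε) * x) * (lT M)⁻¹ ^ b.e * (f : LaurentSeries M) ∧
      PowerSeries.constantCoeff f = 1 ∧
      f ^ b.N = 1 - PowerSeries.C (x ^ b.N)⁻¹ * PowerSeries.X ^ (b.N * b.e) := by
  have hx : x ≠ 0 := h.x_ne
  have hne : 0 < b.N * b.e := Nat.mul_pos b.N_pos b.e_pos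
  obtain ⟨f, hf1, hf2⟩ := exists_root_powerSeries (b.N_ne (j.comp ι))
    (1 - PowerSeries.C (x ^ b.N)⁻¹ * PowerSeries.X ^ (b.N * b.e)) 1 one_ne_zero (by
      rw [one_pow, map_sub, map_one, map_mul, map_pow, PowerSeries.constantCoeff_X,
        zero_pow hne.ne', mul_zero, sub_zero])
  obtain ⟨ν, hν1, hν2⟩ := kummer_lift b.N_pos (irreducible_frob b ι h) d.hY d.htop (lauInf M)
    (HahnSeries.C (j (ι b.ε) * x) * (lT M)⁻¹ ^ b.e * (f : LaurentSeries M)) (by
      have hε : (j (ι b.ε)) ^ b.N = -1 := by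
        rw [← map_pow, ← map_pow, b.hε, map_neg, map_neg, map_one, map_one]
      have hfN : (f : LaurentSeries M) ^ b.N
          = 1 - HahnSeries.C (x ^ b.N)⁻¹ * lT M ^ (b.N * b.e) := by
        rw [← PowerSeries.coe_pow, hf1, B5_coe_poly]
      have hlT : (lT M)⁻¹ ^ (b.N * b.e) * lT M ^ (b.N * b.e) = 1 := by
        rw [← mul_pow, inv_mul_cancel₀ lT_ne, one_pow]
      have hC : (HahnSeries.C (x ^ b.N) : LaurentSeries M) * HahnSeries.C (x ^ b.N)⁻¹ = 1 := by
        rw [← map_mul, mul_inv_cancel₀ (pow_ne_zero _ hx), map_one]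
      rw [lauInf_algebraMap, eval₂_sub, eval₂_one, eval₂_mul, eval₂_C, eval₂_pow, eval₂_X,
        mul_pow, mul_pow, ← map_pow, mul_pow, hε, hfN, ← pow_mul, mul_comm b.e b.N,
        neg_one_mul, map_neg]
      calc -HahnSeries.C (x ^ b.N) * (lT M)⁻¹ ^ (b.N * b.e) *
            (1 - HahnSeries.C (x ^ b.N)⁻¹ * lT M ^ (b.N * b.e))
          = -(HahnSeries.C (x ^ b.N) * (lT M)⁻¹ ^ (b.N * b.e)) +
            (HahnSeries.C (x ^ b.N) * HahnSeries.C (x ^ b.N)⁻¹) *
              ((lT M)⁻¹ ^ (b.N * b.e) * lT M ^ (b.N * b.e)) := by ring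
        _ = 1 - HahnSeries.C (x ^ b.N) * (lT M)⁻¹ ^ (b.N * b.e) := by
            rw [hC, hlT]; ring)
  exact ⟨ν, f, hν1, hν2, hf2, hf1⟩

/-- The scaling of the parameter at infinity corresponds to the diagonal automorphism. Hint:
`IsFermat.hom_ext`; on constants both sides are `HahnSeries.C ∘ j`; on `x`: `x ↦ x T ^ (-e)`, and
`s' (T ^ (-e)) = η ^ e T ^ (-e) = ζ T ^ (-e)`; on `y`: `s' f = f` because `s' f` is again a power
series (namely `PowerSeries.rescale`), with constant term one and the same `N`-th power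
(as `η ^ (N e) = 1`), and `root_powerSeries_unique`. -/
lemma FrobData.infty_scale (h : IsFermat b.N j x y) {ν : L →+* LaurentSeries M}
    {f : PowerSeries M} (h1 : ν.comp (algebraMap (RatFunc M) L) = lauInf M)
    (h2 : ν d.Y = HahnSeries.C (j (ι b.ε) * x) * (lT M)⁻¹ ^ b.e * (f : LaurentSeries M))
    (h3 : PowerSeries.constantCoeff f = 1)
    (h4 : f ^ b.N = 1 - PowerSeries.C (x ^ b.N)⁻¹ * PowerSeries.X ^ (b.N * b.e))
    (δ : M →+* M) (hδj : δ.comp j = j) (hδx : δ x = j (ι b.ζ) * x)
    (hδy : δ y = j (ι b.ζ) * y) (s' : LaurentSeries M →+* LaurentSeries M)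
    (hs' : ∀ (a : LaurentSeries M) (i : ℤ), (s' a).coeff i = (j (ι b.η))⁻¹ ^ i * a.coeff i)
    (i : ℕ) : s'.comp (ν.comp ((d.s ^ i).comp d.ψ)) = (ν.comp ((d.s ^ i).comp d.ψ)).comp δ := by
  have hη : j (ι b.η) ≠ 0 := by
    intro h0
    have h5 : b.η = 0 := (map_eq_zero ι).mp ((map_eq_zero j).mp h0)
    have h6 := b.hη.pow_eq_one
    rw [h5, zero_pow (Nat.mul_pos b.N_pos b.e_pos).ne'] at h6
    exact zero_ne_one h6
  have hηN : (j (ι b.η))⁻¹ ^ (b.N * b.e) = 1 := by
    rw [inv_pow, ← map_pow, ← map_pow, b.hη.pow_eq_one, map_one, map_one, inv_one]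
  have hζ : j (ι b.ζ) = j (ι b.η) ^ b.e := by
    rw [Base.ζ, map_pow, map_pow]
  -- the homomorphism `ν ∘ s ^ i` on `M(v)`
  have hν : ∀ r : RatFunc M, ν ((d.s ^ i) (algebraMap (RatFunc M) L r)) = lauInf M r := by
    intro r
    rw [d.s_pow_const b]
    exact RingHom.congr_fun h1 r
  have hνY : ν ((d.s ^ i) d.Y) = HahnSeries.C (j (ι b.ζ)) ^ i *
      (HahnSeries.C (j (ι b.ε) * x) * (lT M)⁻¹ ^ b.e * (f : LaurentSeries M)) := by
    rw [d.s_pow_Y b, map_mul, map_pow, h2]
    congr 2
    have := RingHom.congr_fun h1 (algebraMap M (RatFunc M) (j (ι b.ζ)))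
    rw [RingHom.comp_apply] at this
    rw [this, lauInf_const]
  -- the values of `s'`
  have hsC : ∀ a : M, s' (HahnSeries.C a) = HahnSeries.C a := by
    intro a
    ext n
    rw [hs', HahnSeries.C_apply]
    by_cases hn : n = 0
    · subst hn
      simp
    · rw [HahnSeries.coeff_single_of_ne hn, mul_zero]
  have hsT : s' (lT M) = HahnSeries.C (j (ι b.η))⁻¹ * lT M := by
    ext n
    rw [hs', HahnSeries.C_mul_eq_smul, HahnSeries.coeff_smul, smul_eq_mul]
    unfold lT
    by_cases hn : n = 1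
    · subst hn
      simp
    · rw [HahnSeries.coeff_single_of_ne hn, mul_zero, mul_zero]
  have hsTi : s' ((lT M)⁻¹ ^ b.e) = HahnSeries.C (j (ι b.ζ)) * (lT M)⁻¹ ^ b.e := by
    rw [map_pow, map_inv₀, hsT, mul_inv, mul_pow, ← map_inv₀, inv_inv, ← map_pow, hζ]
  have hsf : s' (f : LaurentSeries M) = (f : LaurentSeries M) := by
    have e1 : s' (f : LaurentSeries M)
        = ((PowerSeries.rescale (j (ι b.η))⁻¹ f : PowerSeries M) : LaurentSeries M) := by
      ext n
      rw [hs', PowerSeries.coeff_coe, PowerSeries.coeff_coe]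
      split_ifs with hn
      · rw [mul_zero]
      · rw [PowerSeries.coeff_rescale]
        congr 1
        rw [← zpow_natCast, Int.natCast_natAbs, abs_of_nonneg (by omega)]
    have e2 : PowerSeries.rescale (j (ι b.η))⁻¹ f = f := by
      refine root_powerSeries_unique (b.N_ne (j.comp ι)) ?_ ?_ ?_
      · rw [← PowerSeries.coeff_zero_eq_constantCoeff_apply, PowerSeries.coeff_rescale, pow_zero,
          one_mul, PowerSeries.coeff_zero_eq_constantCoeff_apply, h3]
        exact one_ne_zero
      · rw [← PowerSeries.coeff_zero_eq_constantCoeff_apply, PowerSeries.coeff_rescale, pow_zero,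
          one_mul, PowerSeries.coeff_zero_eq_constantCoeff_apply]
      · have hC : ∀ c a : M, PowerSeries.rescale c (PowerSeries.C a) = PowerSeries.C a := by
          intro c a
          ext n
          rw [PowerSeries.coeff_rescale, PowerSeries.coeff_C]
          split_ifs with hn
          · rw [hn, pow_zero, one_mul]
          · rw [mul_zero]
        rw [← map_pow, h4, map_sub, map_one, map_mul, map_pow, PowerSeries.rescale_X, hC, mul_pow,
          ← map_pow PowerSeries.C (j (ι b.η))⁻¹, hηN, map_one, one_mul]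
    rw [e1, e2]
  refine h.hom_ext ?_ ?_ ?_
  · ext1 a
    simp only [RingHom.comp_apply]
    rw [d.hψj, hν, lauInf_const, hsC, show δ (j a) = j a from RingHom.congr_fun hδj a, d.hψj, hν,
      lauInf_const]
  · simp only [RingHom.comp_apply]
    rw [hδx, map_mul, map_mul, map_mul, d.hψj, d.hψx, hν, hν, lauInf_const, map_mul, map_pow,
      lauInf_const, lauInf_X, map_mul, hsC, hsTi]
    ring
  · simp only [RingHom.comp_apply]
    rw [hδy, map_mul, map_mul, map_mul, d.hψj, d.hψy, hν, lauInf_const, hνY, map_mul, map_pow,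
      map_mul, map_mul, hsC, hsC, hsTi, hsf]
    ring

end UnrG
end

section

/-!
# The local expansion at a rational point computes the place
-/

namespace UnrG

universe u v w

open Polynomial Finset
open scoped Classical

variable {m : ℕ} {K : Type u} [Field K]

/-- The local expansion at `c` computes the place of `X - c`. Hint: `placeVal_rep` writes `a` as
`p ^ n * (u / w)` with `p = X - C c` not dividing `u`, `w`; `lau_poly` and `lauVal_coe` give the
valuation and leading coefficient of the expansions of `u`, `w`; the expansion of `X - C c`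
is `lT K` (`lauVal_lT`); `AdjoinRoot.mk (X - C c) u = AdjoinRoot.of (X - C c) (u.eval c)` is
`mk_X_sub_C`. -/
lemma lau_place (c : K) [Fact (Irreducible (X - C c))] {a : RatFunc K} (ha : a ≠ 0) :
    (placeVal (X - C c)).v a = (lauVal K).v (lau c a) ∧
      (placeVal (X - C c)).ρ a = AdjoinRoot.of (X - C c) ((lauVal K).ρ (lau c a)) := by
  obtain ⟨u, w, hu, hw, h1, h2⟩ := placeVal_rep (X - C c) ha
  obtain ⟨gu, hgu, hu0, -⟩ := lau_poly c u
  obtain ⟨gw, hgw, hw0, -⟩ := lau_poly c w
  have hu' : u.eval c ≠ 0 := fun h => hu (dvd_iff_isRoot.mpr h)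
  have hw' : w.eval c ≠ 0 := fun h => hw (dvd_iff_isRoot.mpr h)
  have h3 := lauVal_coe gu (by rw [hu0]; exact hu')
  have h4 := lauVal_coe gw (by rw [hw0]; exact hw')
  have h5 : lau c (algebraMap K[X] (RatFunc K) (X - C c)) = lT K := by
    rw [lau_algebraMap]; simp
  have hau : algebraMap K[X] (RatFunc K) u ≠ 0 := by
    rw [Ne, FaithfulSMul.algebraMap_eq_zero_iff]
    rintro rfl
    exact hu' (by simp)
  have haw : algebraMap K[X] (RatFunc K) w ≠ 0 := by
    rw [Ne, FaithfulSMul.algebraMap_eq_zero_iff]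
    rintro rfl
    exact hw' (by simp)
  have hgu0 : (gu : LaurentSeries K) ≠ 0 := by
    rw [← hgu]
    exact (_root_.map_ne_zero _).mpr hau
  have hgw0 : (gw : LaurentSeries K) ≠ 0 := by
    rw [← hgw]
    exact (_root_.map_ne_zero _).mpr haw
  have h6 : lau c a = lT K ^ ((placeVal (X - C c)).v a) *
      ((gu : LaurentSeries K) / (gw : LaurentSeries K)) := by
    conv_lhs => rw [h1]
    rw [map_mul, map_zpow₀, map_div₀, h5, hgu, hgw]
  refine ⟨?_, ?_⟩
  · rw [h6, (lauVal K).v_mul _ _ (zpow_ne_zero _ lT_ne) (div_ne_zero hgu0 hgw0),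
      (lauVal K).v_zpow lT_ne, (lauVal K).v_div hgu0 hgw0, h3.1, h4.1, lauVal_lT.1]
    ring
  · rw [h6, map_mul, map_zpow₀, map_div₀, h3.2, h4.2, lauVal_lT.2, one_zpow, one_mul, hu0, hw0,
      map_div₀, h2, mk_X_sub_C, mk_X_sub_C]

/-- Hint: `DVal.res` of `placeVal` and of the pulled back valuation: use `DVal.θ_map` (or
`DVal.res_map`) twice, e.g. for the identity and `j = AdjoinRoot.of (X - C c)` with the valuation
`(lauVal K).comap (lau c)`; or directly prove by `KM.induction` that
`(placeVal (X - C c)).θ hm z` is the image of `(lauVal K).θ hm (KM.map m (lau c) z)` under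
`KM.map m (AdjoinRoot.of _)` in both components. -/
lemma res_lau (hm : Any m) (c : K) [Fact (Irreducible (X - C c))] (z : KM m (RatFunc K)) :
    (placeVal (X - C c)).res hm z =
    KM.map m (AdjoinRoot.of (X - C c)) ((lauVal K).res hm (KM.map m (lau c) z)) := by
  have h1 := DVal.res_map hm ((lauVal K).comap (lau c)) (placeVal (X - C c))
    (RingHom.id (RatFunc K)) (AdjoinRoot.of (X - C c)) 1 1 one_ne_zero
    (fun a ha => by
      rw [RingHom.id_apply, one_mul]
      exact (lau_place c ha).1)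
    (fun a ha => by
      rw [RingHom.id_apply, one_zpow, mul_one]
      exact (lau_place c ha).2) z
  have h2 := DVal.res_map hm ((lauVal K).comap (lau c)) (lauVal K) (lau c)
    (RingHom.id K) 1 1 one_ne_zero
    (fun a ha => by
      rw [one_mul]
      rfl)
    (fun a ha => by
      rw [one_zpow, mul_one, RingHom.id_apply]
      rfl) z
  rw [KM.map_id, AlgHom.id_apply, Int.cast_one, one_smul] at h1 h2
  rw [h1, h2]

end UnrG
end

section

/-!
# The local expansion at infinity computes the place at infinity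
-/

namespace UnrG

universe u v w

open Polynomial Finset
open scoped Classical

variable {m : ℕ} {K : Type u} [Field K]

private lemma L3_coe (f : K[X]) :
    f.eval₂ (HahnSeries.C : K →+* LaurentSeries K) (lT K) =
      ((f : PowerSeries K) : LaurentSeries K) := by
  induction f using Polynomial.induction_on' with
  | add p q hp hq => rw [eval₂_add, hp, hq, Polynomial.coe_add, PowerSeries.coe_add]
  | monomial n a =>
    rw [← C_mul_X_pow_eq_monomial, eval₂_mul, eval₂_C, eval₂_X_pow, Polynomial.coe_mul,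
      Polynomial.coe_C, Polynomial.coe_pow, Polynomial.coe_X, PowerSeries.coe_mul,
      PowerSeries.coe_C, PowerSeries.coe_pow, PowerSeries.coe_X]
    rfl

private lemma L3_monic {p : K[X]} (hp : p.Monic) :
    (lauVal K).v (lauInf K (algebraMap K[X] (RatFunc K) p)) = - p.natDegree ∧
      (lauVal K).ρ (lauInf K (algebraMap K[X] (RatFunc K) p)) = 1 := by
  have hT : (lT K)⁻¹ ≠ 0 := inv_ne_zero lT_ne
  let _ : Invertible (lT K)⁻¹ := invertibleOfNonzero hT
  have h1 := eval₂_reverse_mul_pow (HahnSeries.C : K →+* LaurentSeries K) (lT K)⁻¹ p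
  rw [invOf_eq_inv, inv_inv, L3_coe] at h1
  have h2 : PowerSeries.constantCoeff (p.reverse : PowerSeries K) = 1 := by
    rw [Polynomial.constantCoeff_coe, coeff_zero_reverse, hp.leadingCoeff]
  have h3 := lauVal_coe (p.reverse : PowerSeries K) (by rw [h2]; exact one_ne_zero)
  have h0 : ((p.reverse : PowerSeries K) : LaurentSeries K) ≠ 0 := by
    intro h
    have h4 := h3.2
    rw [h, map_zero, h2] at h4
    exact zero_ne_one h4
  rw [lauInf_algebraMap, ← h1]
  refine ⟨?_, ?_⟩
  · rw [(lauVal K).v_mul _ _ h0 (pow_ne_zero _ hT), (lauVal K).v_pow hT, (lauVal K).v_inv lT_ne,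
      h3.1, lauVal_lT.1]
    ring
  · rw [map_mul, map_pow, map_inv₀, h3.2, h2, lauVal_lT.2, inv_one, one_pow, one_mul]

/-- The local expansion at infinity computes the place at infinity. Hint: both sides are
multiplicative, so it suffices to treat constants (`valInfty_const`, `lauInf_const`, `lauVal_C`)
and monic polynomials (`valInfty_monic`; the expansion of a monic `p` of degree `d` is
`(lT K)⁻¹ ^ d` times a power series with constant term `1`, `lauInf_algebraMap`, `lauVal_lT`);
every nonzero rational function is a constant times a quotient of monic polynomials. -/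
lemma lauInf_valInfty {a : RatFunc K} (ha : a ≠ 0) :
    (lauVal K).v (lauInf K a) = (valInfty K).v a ∧
      (lauVal K).ρ (lauInf K a) = (valInfty K).ρ a := by
  -- polynomials
  have key : ∀ p : K[X], p ≠ 0 →
      (lauVal K).v (lauInf K (algebraMap K[X] (RatFunc K) p)) =
        (valInfty K).v (algebraMap K[X] (RatFunc K) p) ∧
      (lauVal K).ρ (lauInf K (algebraMap K[X] (RatFunc K) p)) =
        (valInfty K).ρ (algebraMap K[X] (RatFunc K) p) := by
    intro p hp
    have hlc : p.leadingCoeff ≠ 0 := leadingCoeff_ne_zero.mpr hp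
    obtain ⟨q, hq⟩ : ∃ q, q = p * C p.leadingCoeff⁻¹ := ⟨_, rfl⟩
    have hqm : q.Monic := by
      rw [hq]
      exact monic_mul_leadingCoeff_inv hp
    have e1 : algebraMap K[X] (RatFunc K) p =
        algebraMap K (RatFunc K) p.leadingCoeff * algebraMap K[X] (RatFunc K) q := by
      rw [algebraMap_ratFunc_eq, ← map_mul, hq, mul_comm p, ← mul_assoc, ← C_mul,
        mul_inv_cancel₀ hlc, C_1, one_mul]
    have ec : algebraMap K (RatFunc K) p.leadingCoeff ≠ 0 := by
      rw [Ne, FaithfulSMul.algebraMap_eq_zero_iff]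
      exact hlc
    have eq : algebraMap K[X] (RatFunc K) q ≠ 0 := by
      rw [Ne, FaithfulSMul.algebraMap_eq_zero_iff]
      exact hqm.ne_zero
    have h1 := L3_monic hqm
    have h2 := valInfty_monic hqm
    have h3 := valInfty_const hlc
    have h4 := lauVal_C hlc
    have ec' : (HahnSeries.C p.leadingCoeff : LaurentSeries K) ≠ 0 := by
      rw [← lauInf_const]
      exact (_root_.map_ne_zero _).mpr ec
    have eq' : lauInf K (algebraMap K[X] (RatFunc K) q) ≠ 0 := (_root_.map_ne_zero _).mpr eq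
    rw [e1, map_mul (lauInf K), lauInf_const]
    refine ⟨?_, ?_⟩
    · rw [(lauVal K).v_mul _ _ ec' eq', (valInfty K).v_mul _ _ ec eq, h4.1, h3.1, h1.1, h2.1]
    · rw [map_mul, map_mul, h4.2, h3.2, h1.2, h2.2]
  obtain ⟨p, q, hq, rfl⟩ := IsFractionRing.div_surjective (A := K[X]) a
  have hq0 : q ≠ 0 := nonZeroDivisors.ne_zero hq
  have hp0 : p ≠ 0 := by
    rintro rfl
    exact ha (by simp)
  have ep : algebraMap K[X] (RatFunc K) p ≠ 0 := by
    rw [Ne, FaithfulSMul.algebraMap_eq_zero_iff]
    exact hp0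
  have eq : algebraMap K[X] (RatFunc K) q ≠ 0 := by
    rw [Ne, FaithfulSMul.algebraMap_eq_zero_iff]
    exact hq0
  rw [map_div₀ (lauInf K)]
  refine ⟨?_, ?_⟩
  · rw [(lauVal K).v_div ((_root_.map_ne_zero _).mpr ep) ((_root_.map_ne_zero _).mpr eq),
      (valInfty K).v_div ep eq, (key p hp0).1, (key q hq0).1]
  · rw [map_div₀, map_div₀, (key p hp0).2, (key q hq0).2]

/-- Hint: `DVal.res_map` with `j = RingHom.id K`, `e = 1`, `c = 1`, `D = valInfty K`,
`D' = lauVal K`. -/
lemma res_lauInf (hm : Any m) (z : KM m (RatFunc K)) :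
    (lauVal K).res hm (KM.map m (lauInf K) z) = (valInfty K).res hm z := by
  have h2 := DVal.res_map hm (valInfty K) (lauVal K) (lauInf K)
    (RingHom.id K) 1 1 one_ne_zero
    (fun a ha => by
      rw [one_mul]
      exact (lauInf_valInfty ha).1)
    (fun a ha => by
      rw [one_zpow, mul_one, RingHom.id_apply]
      exact (lauInf_valInfty ha).2) z
  rw [KM.map_id, AlgHom.id_apply, Int.cast_one, one_smul] at h2
  exact h2

end UnrG
end

section

/-!
# Reciprocity
-/

namespace UnrG

universe u v w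

open Polynomial Finset
open scoped Classical

variable {m : ℕ} {K : Type u} [Field K]

/-- Constants are unramified at infinity. Hint: `DVal.θ_const` with `valInfty_const`. -/
lemma valInfty_res_const (hm : Any m) (y : KM m K) :
    (valInfty K).res hm (KM.map m (algebraMap K (RatFunc K)) y) = 0 ∧
      (valInfty K).spec hm (KM.map m (algebraMap K (RatFunc K)) y) = y := by
  have h1 := (valInfty K).θ_const hm (algebraMap K (RatFunc K)) (RingHom.id K)
    (fun a ha => (valInfty_const ha).1) (fun a ha => (valInfty_const ha).2) y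
  refine ⟨by rw [DVal.res, h1], ?_⟩
  rw [DVal.spec_apply, h1, KM.map_id]
  rfl

/-- Constants are unramified at finite places. Hint: `DVal.θ_const` with `placeVal_unit`. -/
lemma placeVal_res_const (hm : Any m) (p : K[X]) [Fact (Irreducible p)] (y : KM m K) :
    (placeVal p).res hm (KM.map m (algebraMap K (RatFunc K)) y) = 0 ∧
      (placeVal p).spec hm (KM.map m (algebraMap K (RatFunc K)) y) =
        KM.map m (AdjoinRoot.of p) y := by
  have hirr : Irreducible p := Fact.out
  have h1 : (placeVal p).θ hm (KM.map m (algebraMap K (RatFunc K)) y) =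
        ⟨KM.map m (AdjoinRoot.of p) y, 0⟩ := by
    have hnd : ∀ a : K, a ≠ 0 → ¬ p ∣ C a := fun a ha h => by
      have h1 := isUnit_of_dvd_unit h (isUnit_C.mpr (isUnit_iff_ne_zero.mpr ha))
      exact hirr.not_isUnit h1
    apply DVal.θ_const
    · intro a ha
      rw [algebraMap_ratFunc_eq]
      exact (placeVal_unit p (hnd a ha)).1
    · intro a ha
      rw [algebraMap_ratFunc_eq]
      exact (placeVal_unit p (hnd a ha)).2
  refine ⟨by rw [DVal.res, h1], ?_⟩
  rw [DVal.spec_apply, h1]

/-- Reciprocity: if all ramified places are rational, the sum of the residues at the finite places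
is minus the residue at infinity. Proof: let `r c = (lauVal K).res hm (KM.map m (lau c) z)` and
`z' = z - ∑ c ∈ S, KM.map m (algebraMap K (RatFunc K)) (r c) * sym m (algebraMap _ _ (X - C c))`.
All finite residues of `z'` vanish (`DVal.res_mul_sym`, `placeVal_res_const`, `res_lau`,
`placeVal_v_self`, `placeVal_unit`), so `z'` is constant by `milnor`; now take the residue at
infinity (`res_lauInf`, `valInfty_res_const`, `DVal.res_mul_sym`, `valInfty_monic`: the valuation
of `X - C c` at infinity is `-1`). -/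
theorem reciprocity (hm : Any m) (z : KM m (RatFunc K)) (S : Finset K)
    (h : ∀ (p : K[X]) (_ : p.Monic) (_ : Fact (Irreducible p)), (∀ c ∈ S, p ≠ X - C c) →
      (placeVal p).res hm z = 0) :
    ∑ c ∈ S, (lauVal K).res hm (KM.map m (lau c) z) +
      (lauVal K).res hm (KM.map m (lauInf K) z) = 0 := by
  have eX : ∀ c : K, algebraMap K[X] (RatFunc K) (X - C c) ≠ 0 := by
    intro c
    rw [Ne, FaithfulSMul.algebraMap_eq_zero_iff]; exact X_sub_C_ne_zero c
  obtain ⟨r, hr⟩ : ∃ r : K → KM m K, ∀ c, r c = (lauVal K).res hm (KM.map m (lau c) z) :=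
    ⟨_, fun _ => rfl⟩
  have hterm : ∀ (p : K[X]) [Fact (Irreducible p)] (c : K),
      (placeVal p).res hm (KM.map m (algebraMap K (RatFunc K)) (r c) *
        sym m (algebraMap K[X] (RatFunc K) (X - C c))) =
      (((placeVal p).v (algebraMap K[X] (RatFunc K) (X - C c)) : ℤ) : ZMod m) •
        KM.map m (AdjoinRoot.of p) (r c) := by
    intro p _ c
    rw [DVal.res_mul_sym hm _ _ (eX c) (placeVal_res_const hm p (r c)).1,
      (placeVal_res_const hm p (r c)).2]
  have hnd : ∀ (p : K[X]) (_ : p.Monic) (_ : Fact (Irreducible p)) (c : K), p ≠ X - C c →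
      (placeVal p).v (algebraMap K[X] (RatFunc K) (X - C c)) = 0 := by
    intro p hpm hp c hne
    exact (placeVal_unit p (not_dvd_of_monic (irreducible_X_sub_C c) (monic_X_sub_C c) hp.out hpm
      hne)).1
  obtain ⟨y, hy⟩ := milnor hm (z - ∑ c ∈ S, KM.map m (algebraMap K (RatFunc K)) (r c) *
    sym m (algebraMap K[X] (RatFunc K) (X - C c))) (by
    intro p hpm hp
    rw [DVal.res_sub, DVal.res_sum]
    by_cases hpS : ∀ c ∈ S, p ≠ X - C c
    · rw [h p hpm hp hpS, zero_sub, neg_eq_zero]
      refine Finset.sum_eq_zero fun c hc => ?_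
      rw [hterm p c, hnd p hpm hp c (hpS c hc), Int.cast_zero, zero_smul]
    · push Not at hpS
      obtain ⟨c, hc, rfl⟩ := hpS
      rw [Finset.sum_eq_single c, hterm (X - C c) c, placeVal_v_self, Int.cast_one, one_smul,
        res_lau hm c z, ← hr, sub_self]
      · intro c' _ hne
        rw [hterm (X - C c) c', hnd _ hpm hp c' ?_, Int.cast_zero, zero_smul]
        intro h1
        apply hne
        have h2 := congrArg (fun f : K[X] => f.eval c') h1
        simp only [eval_sub, eval_X, eval_C, sub_self] at h2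
        exact sub_eq_zero.mp h2
      · intro h1
        exact absurd hc h1)
  have h1 := congrArg ((valInfty K).res hm) hy
  rw [(valInfty_res_const hm y).1, DVal.res_sub, DVal.res_sum] at h1
  have h2 : ∀ c ∈ S, (valInfty K).res hm (KM.map m (algebraMap K (RatFunc K)) (r c) *
      sym m (algebraMap K[X] (RatFunc K) (X - C c))) = - r c := by
    intro c _
    rw [DVal.res_mul_sym hm _ _ (eX c) (valInfty_res_const hm (r c)).1,
      (valInfty_res_const hm (r c)).2, (valInfty_monic (monic_X_sub_C c)).1, natDegree_X_sub_C]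
    simp
  rw [Finset.sum_congr rfl h2, Finset.sum_neg_distrib, sub_neg_eq_add] at h1
  rw [res_lauInf, Finset.sum_congr rfl fun c _ => (hr c).symm, add_comm]
  exact h1.symm

end UnrG
end
end
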