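import Pool.Agent.Lib.MP_859dd5_ag.PP.G1
import Pool.Agent.Lib.MP_859dd5_ag.Mg.G007
import Pool.Agent.Lib.MP_859dd5_ag.Mg.G069
import Pool.Agent.Lib.MP_859dd5_ag.Mg.G009
import Pool.Agent.Lib.MP_859dd5_ag.Mg.G075
import Pool.Agent.Lib.MP_859dd5_ag.PP.N0
import Pool.Agent.Lib.MP_859dd5_ag.Mg.G068
import Pool.Agent.Lib.MP_859dd5_ag.PP.E0
import Pool.Agent.Lib.MP_859dd5_ag.Mg.G003

section

/-!
# Gluing: the monomial
-/

namespace UnrG

universe u v w

open Finset

variable {N : ℕ} {F K : Type u} [Field F] [Field K] [Algebra F K] {K₀ : IntermediateField F K}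
  {d : ℕ}

/-- Homogeneity: multiplication of the terms by an element of the subfield. Hint:
`∏ (λ Y_i) ^ e_i = λ ^ (∑ e_i) ∏ Y_i ^ e_i` and `∑ (e i).val` is `0` in `ZMod N`;
`ModPow.pow_one`. -/
lemma ModPow.smul_terms {s : ℕ} {Y : Fin s → K} {e : Fin s → ZMod N} (he : ∑ i, e i = 0)
    [NeZero N] {u : K} (hu : u ∈ K₀) (hu0 : u ≠ 0) :
    ModPow N K₀ (∏ i, (u * Y i) ^ (e i).val) (∏ i, Y i ^ (e i).val) := by
  have h1 : ∏ i, (u * Y i) ^ (e i).val = u ^ (∑ i, (e i).val) * ∏ i, Y i ^ (e i).val := by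
    rw [← Finset.prod_pow_eq_pow_sum, ← Finset.prod_mul_distrib]
    exact Finset.prod_congr rfl fun i _ => mul_pow _ _ _
  have h2 : ModPow N K₀ (u ^ (∑ i, (e i).val)) 1 := by
    refine ModPow.pow_one hu hu0 ?_
    rw [Nat.cast_sum]
    simp only [ZMod.natCast_zmod_val]
    exact he
  rw [h1]
  have h3 := ModPow.mul h2 (ModPow.refl (N := N) (K₀ := K₀) (∏ i, Y i ^ (e i).val))
  rwa [one_mul] at h3

/-- Hint: `(-1) ^ _` is a constant (`ModPow.neg`). -/
lemma ModPow.trip [NegPow F N] [NeZero N] (hN : 0 < N) (x : K) (B A : ZMod N) :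
    ModPow N K₀ (x ^ B.val * (1 - x) ^ A.val) (∏ c, trip x c ^ (tripE B A c).val) := by
  have h1 : ∏ c, UnrG.trip x c ^ (tripE B A c).val =
      x ^ B.val * (1 - x) ^ A.val * (-1) ^ (-(B + A)).val := by
    rw [Fin.prod_univ_three]
    rfl
  rw [h1]
  rcases neg_one_pow_eq_or K (-(B + A)).val with h2 | h2
  · rw [h2, mul_one]
    exact ModPow.refl _
  · rw [h2, mul_neg_one]
    exact (ModPow.neg hN _).symm

/-- Proof: with `T = trip x`, `u = -(Y a / T b)`: by `ModPow.smul_terms` (`tripE_sum`) the second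
factor is `∏_c (u T_c) ^ f_c` up to a power, where `u T_b = -Y_a`. So the product is
`(∏_{i ≠ a} Y_i ^ e_i) (∏_{c ≠ b} (u T_c) ^ f_c) * Y_a ^ e_a * (-Y_a) ^ f_b`, and
`Y_a ^ (e_a + f_b)` is an `N`-th power (`hab`). (`Fin.prod_univ_succAbove`, `Fin.prod_univ_add`,
`Fin.append_left`, `Fin.append_right`.) -/
lemma glue_prod [NegPow F N] [NeZero N] (hN : 0 < N) {Y : Fin (d + 2) → K}
    (hY : ∀ i, Y i ≠ 0) (hm : ∀ i, Y i ∈ K₀) {e : Fin (d + 2) → ZMod N} {x : K} (hx : x ∈ K₀)
    (h0 : x ≠ 0) (h1 : 1 - x ≠ 0) {B A : ZMod N} {a : Fin (d + 2)} {b : Fin 3}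
    (hab : e a + tripE B A b = 0) :
    ModPow N K₀ ((∏ i, Y i ^ (e i).val) * (x ^ B.val * (1 - x) ^ A.val))
      (∏ i, gY Y x a b i ^ (gE e B A a b i).val) := by
  have hT0 : trip x b ≠ 0 := trip_ne h0 h1 b
  have hTm : trip x b ∈ K₀ := by
    fin_cases b
    · exact hx
    · exact sub_mem (one_mem K₀) hx
    · exact neg_mem (one_mem K₀)
  obtain ⟨u, hu⟩ : ∃ u, u = -(Y a / trip x b) := ⟨_, rfl⟩
  have hum : u ∈ K₀ := by
    rw [hu]
    exact neg_mem (div_mem (hm a) hTm)
  have hu0 : u ≠ 0 := by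
    rw [hu]
    exact neg_ne_zero.mpr (div_ne_zero (hY a) hT0)
  have huT : u * trip x b = -Y a := by
    rw [hu, neg_mul, div_mul_cancel₀ _ hT0]
  have s1 : ModPow N K₀ (x ^ B.val * (1 - x) ^ A.val) (∏ c, (u * trip x c) ^ (tripE B A c).val) :=
    (ModPow.trip hN x B A).trans (ModPow.smul_terms (tripE_sum B A) hum hu0).symm
  have s2 := ModPow.mul (ModPow.refl (N := N) (K₀ := K₀) (∏ i, Y i ^ (e i).val)) s1
  refine s2.trans ?_
  have s3 : (∏ i, Y i ^ (e i).val) * ∏ c, (u * trip x c) ^ (tripE B A c).val =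
      (Y a ^ (e a).val * (-Y a) ^ (tripE B A b).val) * ∏ i, gY Y x a b i ^ (gE e B A a b i).val := by
    rw [Fin.prod_univ_succAbove _ a, Fin.prod_univ_succAbove (fun c => (u * trip x c) ^ (tripE B A c).val) b,
      huT, Fin.prod_univ_add (a := d + 1) (b := 2) (fun i => gY Y x a b i ^ (gE e B A a b i).val)]
    unfold gY gE
    simp only [Fin.append_left, Fin.append_right]
    rw [← hu]
    ring
  rw [s3]
  have s4 : ModPow N K₀ (Y a ^ (e a).val * (-Y a) ^ (tripE B A b).val) 1 := by
    have s5 := ModPow.mul (ModPow.refl (N := N) (K₀ := K₀) (Y a ^ (e a).val))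
      ((ModPow.neg hN (Y a) (K₀ := K₀)).pow (tripE B A b).val)
    refine s5.trans ?_
    rw [← pow_add]
    refine ModPow.pow_one (hm a) (hY a) ?_
    push_cast
    rw [ZMod.natCast_zmod_val, ZMod.natCast_zmod_val]
    exact hab
  have s6 := ModPow.mul s4 (ModPow.refl (N := N) (K₀ := K₀) (∏ i, gY Y x a b i ^ (gE e B A a b i).val))
  rwa [one_mul] at s6

end UnrG
end

section

/-!
# Normalised coordinates: the monomial and independence
-/

namespace UnrG

universe u v w

open Polynomial Finset

variable {N : ℕ} {F K : Type u} [Field F] [Field K] [Algebra F K] {r d l : ℕ} {t : Fin r → K}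
  {Y : Fin (d + 2) → K} {e : Fin (d + 2) → ZMod N} {x : Fin l → K} {B A : Fin l → ZMod N} {w : K}
  {K₀ : IntermediateField F K}

/-- Proof: `w ^ N = c ^ N ∏ Y_i ^ e_i * nD`; the quotient of `∏ Y_i ^ e_i` and the product of the
powers of the normalised terms is an `N`-th power of `K₀` (`ModPow.smul_terms` for `Y ∘ π`,
`Equiv.prod_comp`, `Equiv.sum_comp`), so `w' = w / c'` with `c' ∈ K₀`, and `K₀(w') = K₀(w) = K`
(`Sys.K₀_eq'`). -/
theorem Sys.exists_w [NeZero N] (h : Sys N t Y e x B A w K₀) (π : Equiv.Perm (Fin (d + 2))) :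
    ∃ w' : K, w' ^ N = nD x B A * ∏ i, nY Y π i ^ (e (π i)).val ∧
      IntermediateField.adjoin F
        (Set.range (Fin.append t x) ∪ Set.range (nY Y π) ∪ {w'}) = ⊤ := by
  obtain ⟨c, hc, hc0, hcw⟩ := h.w_pow
  obtain ⟨u, hu⟩ : ∃ u, u = Y (π (Fin.last (d + 1))) := ⟨_, rfl⟩
  have hu0 : u ≠ 0 := by rw [hu]; exact h.Y_ne _
  have huK : u ∈ K₀ := by rw [hu]; exact h.Y_mem _
  have hsum : ∑ i, e (π i) = 0 := by
    rw [Equiv.sum_comp π e]
    exact h.sum_e
  have hY : ∀ i, u * nY Y π i = Y (π i) := by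
    intro i
    unfold nY
    rw [hu, mul_comm, div_mul_cancel₀ _ (h.Y_ne _)]
  obtain ⟨c', hc', hc'0, hcw'⟩ := ModPow.smul_terms (N := N) (K₀ := K₀) (Y := nY Y π)
    (e := fun i => e (π i)) hsum huK hu0
  have h1 : ∏ i, Y i ^ (e i).val = c' ^ N * ∏ i, nY Y π i ^ (e (π i)).val := by
    rw [← hcw', ← Equiv.prod_comp π]
    refine Finset.prod_congr rfl fun i _ => ?_
    rw [hY i]
  have hcc : c * c' ≠ 0 := mul_ne_zero hc0 hc'0
  refine ⟨w / (c * c'), ?_, ?_⟩
  · rw [div_pow, hcw, h1, div_eq_iff (pow_ne_zero _ hcc), mul_pow]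
    unfold nD
    ring
  · rw [eq_top_iff, ← h.top]
    refine sup_le ?_ ?_
    · rw [h.K₀_eq' π]
      exact IntermediateField.adjoin.mono _ _ _ Set.subset_union_left
    · rw [IntermediateField.adjoin_simple_le_iff]
      have h2 : c * c' ∈ IntermediateField.adjoin F
          (Set.range (Fin.append t x) ∪ Set.range (nY Y π) ∪ {w / (c * c')}) := by
        have h3 : c * c' ∈ K₀ := mul_mem hc hc'
        rw [h.K₀_eq' π] at h3
        exact IntermediateField.adjoin.mono _ _ _ Set.subset_union_left h3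
      have h4 : w / (c * c') ∈ IntermediateField.adjoin F
          (Set.range (Fin.append t x) ∪ Set.range (nY Y π) ∪ {w / (c * c')}) :=
        IntermediateField.subset_adjoin F _ (Or.inr rfl)
      have h5 := mul_mem h4 h2
      rwa [div_mul_cancel₀ _ hcc] at h5

/-- Proof: `indep_of_trdeg` (PF/G1b), with the family of `h.ind` reindexed. Every element of `K` is
algebraic over the field `R` generated by the family: `nY Y π (last) = 1`, the term with index `d`
is the negative sum of the others (`Sys.nY_sum`, `Fin.sum_univ_castSucc` twice), so `K₀ ≤ R`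
(`Sys.K₀_eq'`), and `w ^ N ∈ K₀` (`h.w_pow`), `K = K₀(w)` (`h.top`). -/
theorem Sys.ind' [NeZero N] (h : Sys N t Y e x B A w K₀) (π : Equiv.Perm (Fin (d + 2))) :
    AlgebraicIndependent F (Sum.elim (Fin.append t x)
      (fun i : Fin d => nY Y π (i.castLE (by omega)))) := by
  obtain ⟨v, hv⟩ := h.ind
  obtain ⟨g, hg⟩ : ∃ g : Fin (r + l) ⊕ Fin d → K, g = Sum.elim (Fin.append t x)
      (fun i : Fin d => nY Y π (i.castLE (by omega))) := ⟨_, rfl⟩
  obtain ⟨R, hR⟩ : ∃ R : IntermediateField F K,
      R = IntermediateField.adjoin F (Set.range g) := ⟨_, rfl⟩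
  have hgl : ∀ i, Fin.append t x i ∈ R := fun i => by
    rw [hR]
    exact IntermediateField.subset_adjoin F _ ⟨Sum.inl i, by rw [hg]; rfl⟩
  have hgr : ∀ i : Fin d, nY Y π (i.castSucc.castSucc) ∈ R := fun i => by
    rw [hR]
    exact IntermediateField.subset_adjoin F _ ⟨Sum.inr i, by rw [hg]; rfl⟩
  have hlast : nY Y π (Fin.last (d + 1)) ∈ R := by
    rw [(h.nY_ne π 0).2]
    exact one_mem _
  have hmid : nY Y π (Fin.last d).castSucc ∈ R := by
    have h1 := h.nY_sum π
    rw [Fin.sum_univ_castSucc, Fin.sum_univ_castSucc] at h1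
    have h2 : nY Y π (Fin.last d).castSucc =
        -(∑ i : Fin d, nY Y π (i.castSucc.castSucc)) - nY Y π (Fin.last (d + 1)) := by
      linear_combination h1
    rw [h2]
    exact sub_mem (neg_mem (sum_mem fun i _ => hgr i)) hlast
  have hall : ∀ i, nY Y π i ∈ R := by
    intro i
    refine Fin.lastCases hlast (fun i => ?_) i
    exact Fin.lastCases hmid (fun i => hgr i) i
  have hle : K₀ ≤ R := by
    rw [h.K₀_eq' π, IntermediateField.adjoin_le_iff]
    rintro z (⟨i, rfl⟩ | ⟨i, rfl⟩)
    · exact hgl i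
    · exact hall i
  have hx : ∀ j, x j ∈ K₀ := fun j => by
    rw [h.K₀_eq]
    exact IntermediateField.subset_adjoin F _ (Or.inr ⟨j, rfl⟩)
  have hw : w ^ N ∈ R := by
    obtain ⟨c, hc, hc0, hcw⟩ := h.w_pow
    rw [hcw]
    apply hle
    refine mul_mem (pow_mem hc _) (mul_mem (prod_mem fun i _ => pow_mem (h.Y_mem i) _)
      (prod_mem fun j _ => mul_mem (pow_mem (hx j) _)
        (pow_mem (sub_mem (one_mem _) (hx j)) _)))
  obtain ⟨ε⟩ : Nonempty (Fin (r + l) ⊕ Fin d ≃ Fin (r + d + l)) :=
    ⟨finSumFinEquiv.trans (finCongr (by omega))⟩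
  have hf : AlgebraicIndependent F (v ∘ ε) := hv.comp ε ε.injective
  rw [← hg]
  refine indep_of_trdeg hf fun z => ?_
  rw [← hR]
  have h2 : (⊤ : IntermediateField F K) ≤ (algebraicClosure R K).restrictScalars F := by
    rw [← h.top]
    refine sup_le ?_ ?_
    · intro z hz
      exact mem_algebraicClosure_iff.2 (isAlgebraic_algebraMap (⟨z, hle hz⟩ : R))
    · rw [IntermediateField.adjoin_simple_le_iff]
      have h3 : IsAlgebraic R (w ^ N) := isAlgebraic_algebraMap (⟨w ^ N, hw⟩ : R)
      exact mem_algebraicClosure_iff.2 (h3.of_pow (Nat.pos_of_ne_zero (NeZero.ne N)))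
  exact mem_algebraicClosure_iff.1 (h2 (IntermediateField.mem_top (x := z)))

end UnrG
end

section

/-!
# Relations with four terms
-/

namespace UnrG

universe u v w

open Polynomial Finset

variable {N : ℕ} {F K : Type u} [Field F] [Field K] [Algebra F K] {r l : ℕ} {t : Fin r → K}
  {Y : Fin (2 + 2) → K} {e : Fin (2 + 2) → ZMod N} {x : Fin l → K} {B A : Fin l → ZMod N} {w : K}
  {K₀ : IntermediateField F K}

/-- Hint: `Sys.nY_ne`, `Sys.nY_sum`, `Sys.nD_mem`, `Sys.exists_w`, `Sys.ind'`, as for `Sys.cycData`;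
`e (π 0) + e (π 1) ≠ 0` and `N` is prime, so `(e (π 0)).val + (e (π 1)).val` is prime to `N`. -/
theorem Sys.cyc4 [Fact N.Prime] {p : ℕ} (h : Sys N t Y e x B A w K₀)
    (π : Equiv.Perm (Fin (2 + 2))) {k₁ k₂ : ℕ} (hk₁ : 0 < k₁) (hk₂ : 0 < k₂)
    (h1 : e (π 1) = -(p : ZMod N) ^ k₁ * e (π 0)) (h2 : e (π 3) = -(p : ZMod N) ^ k₂ * e (π 2))
    (hb : e (π 0) + e (π 1) ≠ 0) :
    ∃ w' : K, Cyc4 p N k₁ k₂ (F := F) (Fin.append t x) (nY Y π) w' (nD x B A)
      (fun i => (e (π i)).val) := by
  have hNp : N.Prime := Fact.out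
  obtain ⟨w', hw', hgen⟩ := h.exists_w π
  have hval : ∀ z : ZMod N, ((z.val : ℕ) : ZMod N) = z := fun z => ZMod.natCast_zmod_val z
  refine ⟨w', ?_⟩
  exact
    { N_pos := hNp.pos
      k₁_pos := hk₁
      k₂_pos := hk₂
      h01 := by
        rw [← ZMod.natCast_eq_zero_iff]
        push_cast
        rw [hval, hval, h1]
        ring
      h23 := by
        rw [← ZMod.natCast_eq_zero_iff]
        push_cast
        rw [hval, hval, h2]
        ring
      hsum := by
        rw [← ZMod.natCast_eq_zero_iff, Nat.cast_sum]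
        simp only [hval]
        rw [Equiv.sum_comp π e]
        exact h.sum_e
      hb := by
        rw [Nat.coprime_comm, hNp.coprime_iff_not_dvd, ← ZMod.natCast_eq_zero_iff]
        push_cast
        rw [hval, hval]
        exact hb
      X_ne := fun i => (h.nY_ne π i).1
      X_last := (h.nY_ne π 0).2
      sum := h.nY_sum π
      δ_mem := h.nD_mem.1
      δ_ne := h.nD_mem.2
      eq := hw'
      ind := h.ind' π
      gen := hgen }

/-- Two pairs of opposite exponents: `K` is purely transcendental. Proof: with `X_i = nY Y π i`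
(`X_3 = 1`), `a = X_0 / X_1`: `a ≠ -1` because `X_0`, `X_1` are independent; `∑ X = 0` gives
`X_1 = -(X_2 + 1) / (a + 1)`. `w' ^ N = nD * X_0 ^ e_0 X_1 ^ e_1 X_2 ^ e_2` (`Sys.exists_w`), and
`X_0 ^ e_0 X_1 ^ e_1 = a ^ e_0 X_1 ^ (e_0 + e_1)` with `N ∣ e_0 + e_1` (as natural numbers), so
`w'' = w' / X_1 ^ ((e_0 + e_1) / N)` satisfies `w'' ^ N = (nD * X_2 ^ e_2) * a ^ e_0`. By `mono_trick`
(PF/G6) for the subfield generated by `Fin.append t x` and `X_2` there is `y` such that `K` is
generated by `Fin.append t x`, `X_2`, `y`; these are independent by `indep_of_trdeg` (compare with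
`Sys.ind'`). -/
theorem Sys.isPurely_of_opp [Fact N.Prime] (h : Sys N t Y e x B A w K₀)
    (π : Equiv.Perm (Fin (2 + 2))) (h0 : e (π 0) ≠ 0) (hb : e (π 0) + e (π 1) = 0) :
    ∃ (s : ℕ) (v : Fin s → K), AlgebraicIndependent F v ∧
      IntermediateField.adjoin F (Set.range v) = ⊤ := by
  have hNp : N.Prime := Fact.out
  obtain ⟨w', hw', hgen⟩ := h.exists_w π
  have hval : ∀ z : ZMod N, ((z.val : ℕ) : ZMod N) = z := fun z => ZMod.natCast_zmod_val z
  have hX3 : nY Y π 3 = 1 := (h.nY_ne π 0).2
  have hX0 : nY Y π 0 ≠ 0 := (h.nY_ne π 0).1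
  have hX1 : nY Y π 1 ≠ 0 := (h.nY_ne π 1).1
  have hX2 : nY Y π 2 ≠ 0 := (h.nY_ne π 2).1
  have hsum : nY Y π 0 + nY Y π 1 + nY Y π 2 + 1 = 0 := by
    have h1 := h.nY_sum π
    rw [Fin.sum_univ_four, hX3] at h1
    exact h1
  have hind := h.ind' π
  have hne : nY Y π 0 + nY Y π 1 ≠ 0 := by
    intro h1
    have h2 := hind
    rw [algebraicIndependent_iff] at h2
    have h3 := h2 (MvPolynomial.X (Sum.inr 0) + MvPolynomial.X (Sum.inr 1)) (by
      rw [map_add, MvPolynomial.aeval_X, MvPolynomial.aeval_X]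
      exact h1)
    have h4 := congrArg (MvPolynomial.coeff (Finsupp.single (Sum.inr 0 : Fin (r + l) ⊕ Fin 2) 1)) h3
    rw [MvPolynomial.coeff_add, MvPolynomial.coeff_X, MvPolynomial.coeff_zero,
      MvPolynomial.coeff_X, if_pos rfl, if_neg, add_zero] at h4
    · exact one_ne_zero h4
    · intro h5
      have h6 := DFunLike.congr_fun h5 (Sum.inr 0)
      simp at h6
  obtain ⟨a, ha⟩ : ∃ a, a = nY Y π 0 / nY Y π 1 := ⟨_, rfl⟩
  have ha0 : a ≠ 0 := by
    rw [ha]
    exact div_ne_zero hX0 hX1
  have haX : nY Y π 0 = a * nY Y π 1 := by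
    rw [ha, div_mul_cancel₀ _ hX1]
  have ha1 : a + 1 ≠ 0 := by
    intro h1
    apply hne
    rw [haX]
    linear_combination nY Y π 1 * h1
  have hX1eq : nY Y π 1 = -(nY Y π 2 + 1) / (a + 1) := by
    rw [eq_div_iff ha1]
    linear_combination hsum - haX
  obtain ⟨m, hm⟩ : N ∣ (e (π 0)).val + (e (π 1)).val := by
    rw [← ZMod.natCast_eq_zero_iff]
    push_cast
    rw [hval, hval, hb]
  obtain ⟨w₂, hw₂⟩ : ∃ w₂, w₂ = w' / nY Y π 1 ^ m := ⟨_, rfl⟩
  have hw₂' : w' = w₂ * nY Y π 1 ^ m := by
    rw [hw₂, div_mul_cancel₀ _ (pow_ne_zero _ hX1)]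
  have hpow : w₂ ^ N = nD x B A * nY Y π 2 ^ (e (π 2)).val * a ^ (e (π 0)).val := by
    have h1 : w₂ ^ N * nY Y π 1 ^ (N * m) =
        nD x B A * nY Y π 2 ^ (e (π 2)).val * a ^ (e (π 0)).val * nY Y π 1 ^ (N * m) := by
      have h2 : w₂ ^ N * nY Y π 1 ^ (N * m) = w' ^ N := by
        rw [hw₂', mul_pow, ← pow_mul, mul_comm m]
      rw [h2, hw', Fin.prod_univ_four, hX3, one_pow, mul_one, ← hm, haX, mul_pow, pow_add]
      ring
    exact mul_right_cancel₀ (pow_ne_zero _ hX1) h1
  set T : IntermediateField F K :=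
    IntermediateField.adjoin F (Set.range (Fin.append t x) ∪ {nY Y π 2}) with hT
  have hTx : IntermediateField.adjoin F (Set.range (Fin.append t x)) ≤ T :=
    IntermediateField.adjoin.mono F _ _ Set.subset_union_left
  have hX2T : nY Y π 2 ∈ T := IntermediateField.subset_adjoin F _ (Or.inr rfl)
  have hcop : (e (π 0)).val.Coprime N := by
    rw [Nat.coprime_comm, hNp.coprime_iff_not_dvd, ← ZMod.natCast_eq_zero_iff, hval]
    exact h0
  obtain ⟨y, hy⟩ := mono_trick T hNp.pos hcop (w := w₂) (X := a)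
    (c := nD x B A * nY Y π 2 ^ (e (π 2)).val) (mul_mem (hTx h.nD_mem.1) (pow_mem hX2T _))
    (mul_ne_zero h.nD_mem.2 (pow_ne_zero _ hX2)) ha0 hpow
  -- the whole field
  have htop : T ⊔ IntermediateField.adjoin F {w₂, a} = ⊤ := by
    rw [eq_top_iff, ← hgen, IntermediateField.adjoin_le_iff]
    set L := T ⊔ IntermediateField.adjoin F {w₂, a} with hL
    have hTL : T ≤ L := le_sup_left
    have haL : a ∈ L := (le_sup_right : IntermediateField.adjoin F {w₂, a} ≤ L)
      (IntermediateField.subset_adjoin F _ (Or.inr rfl))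
    have hwL : w₂ ∈ L := (le_sup_right : IntermediateField.adjoin F {w₂, a} ≤ L)
      (IntermediateField.subset_adjoin F _ (Or.inl rfl))
    have hX1L : nY Y π 1 ∈ L := by
      rw [hX1eq]
      exact div_mem (neg_mem (add_mem (hTL hX2T) (one_mem L))) (add_mem haL (one_mem L))
    have hX0L : nY Y π 0 ∈ L := by
      rw [haX]
      exact mul_mem haL hX1L
    rintro z ((⟨i, rfl⟩ | ⟨i, rfl⟩) | hz)
    · exact hTL (IntermediateField.subset_adjoin F _ (Or.inl ⟨i, rfl⟩))
    · fin_cases i
      · exact hX0L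
      · exact hX1L
      · exact hTL hX2T
      · change nY Y π 3 ∈ L
        rw [hX3]
        exact one_mem L
    · rw [Set.mem_singleton_iff.mp hz, hw₂']
      exact mul_mem hwL (pow_mem hX1L _)
  have hg : IntermediateField.adjoin F
      (Set.range (Sum.elim (Fin.append t x) (![nY Y π 2, y] : Fin 2 → K))) = ⊤ := by
    rw [eq_top_iff, ← htop, hy]
    refine sup_le ?_ ?_
    · refine IntermediateField.adjoin.mono F _ _ ?_
      rintro z (⟨i, rfl⟩ | hz)
      · exact ⟨Sum.inl i, rfl⟩
      · rw [Set.mem_singleton_iff.mp hz]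
        exact ⟨Sum.inr 0, rfl⟩
    · refine IntermediateField.adjoin.mono F _ _ ?_
      rintro z hz
      rw [Set.mem_singleton_iff.mp hz]
      exact ⟨Sum.inr 1, rfl⟩
  have hindg : AlgebraicIndependent F (Sum.elim (Fin.append t x) (![nY Y π 2, y] : Fin 2 → K)) := by
    refine indep_of_trdeg hind fun z => ?_
    have hz : z ∈ IntermediateField.adjoin F
        (Set.range (Sum.elim (Fin.append t x) (![nY Y π 2, y] : Fin 2 → K))) := by
      rw [hg]
      exact IntermediateField.mem_top
    exact isAlgebraic_algebraMap (⟨z, hz⟩ : IntermediateField.adjoin F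
        (Set.range (Sum.elim (Fin.append t x) (![nY Y π 2, y] : Fin 2 → K))))
  obtain ⟨s, v, hv, hv2⟩ := isPurely_adjoin _ hindg
  exact ⟨s, v, hv, hv2.trans hg⟩

end UnrG
end

section

/-!
# Gluing
-/

namespace UnrG

universe u v w

open Finset

variable {N : ℕ} {F K : Type u} [Field F] [Field K] [Algebra F K] {r d l : ℕ}

/-- **Gluing**: a term of the main relation and a term of a three term relation with opposite
exponents are cancelled. Hint: `gY_ne`, `gY_sum`, `gE_sum`, `glue_adjoin`, `glue_prod`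
(`Fin.prod_univ_castSucc`), the elements `Y i`, `trip x c` lie in `K₀`. -/
theorem Sys.glue [NegPow F N] [NeZero N] {t : Fin r → K} {Y : Fin (d + 2) → K}
    {e : Fin (d + 2) → ZMod N} {x : Fin (l + 1) → K} {B A : Fin (l + 1) → ZMod N} {w : K}
    {K₀ : IntermediateField F K} (h : Sys N t Y e x B A w K₀) (a : Fin (d + 2)) (b : Fin 3)
    (hab : e a + tripE (B (Fin.last l)) (A (Fin.last l)) b = 0) :
    Sys N t (gY Y (x (Fin.last l)) a b) (gE e (B (Fin.last l)) (A (Fin.last l)) a b)
      (fun j : Fin l => x j.castSucc) (fun j => B j.castSucc) (fun j => A j.castSucc) w K₀ := by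
  obtain ⟨X, hX⟩ : ∃ X, X = x (Fin.last l) := ⟨_, rfl⟩
  have hX0 : X ≠ 0 := hX ▸ h.x_ne _
  have hX1 : 1 - X ≠ 0 := hX ▸ h.x_ne_one _
  have hxm : ∀ j, x j ∈ K₀ := by
    intro j
    rw [h.K₀_eq]
    exact IntermediateField.subset_adjoin F _ (Or.inr ⟨j, rfl⟩)
  have hXm : X ∈ K₀ := hX ▸ hxm _
  have hTm : ∀ c, trip X c ∈ K₀ := by
    intro c
    fin_cases c
    · exact hXm
    · exact sub_mem (one_mem K₀) hXm
    · exact neg_mem (one_mem K₀)
  have hN : 0 < N := Nat.pos_of_ne_zero (NeZero.ne N)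
  have hK := h.K₀_eq.trans (glue_adjoin (F := F) (t := t) h.Y_ne h.sum_Y h.x_ne h.x_ne_one a b)
  have hw := h.w_pow
  rw [← hX] at hK ⊢
  exact
    { Y_ne := gY_ne h.Y_ne hX0 hX1 a b
      Y_mem := by
        intro i
        refine Fin.addCases (fun i => ?_) (fun c => ?_) i
        · unfold gY
          rw [Fin.append_left]
          exact h.Y_mem _
        · unfold gY
          rw [Fin.append_right]
          exact mul_mem (neg_mem (div_mem (h.Y_mem a) (hTm b))) (hTm _)
      sum_Y := gY_sum h.sum_Y hX0 hX1 a b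
      sum_e := gE_sum h.sum_e hab
      x_ne := fun j => h.x_ne _
      x_ne_one := fun j => h.x_ne_one _
      K₀_eq := hK
      top := h.top
      w_pow := by
        refine hw.trans ?_
        rw [Fin.prod_univ_castSucc (fun j : Fin (l + 1) => x j ^ (B j).val * (1 - x j) ^ (A j).val), ← hX]
        have h2 := (glue_prod (F := F) (K₀ := K₀) hN h.Y_ne h.Y_mem hXm hX0 hX1 hab).mul
          (ModPow.refl (N := N) (K₀ := K₀)
            (∏ j : Fin l, (x j.castSucc ^ (B j.castSucc).val * (1 - x j.castSucc) ^ (A j.castSucc).val)))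
        have h3 : (∏ i, Y i ^ (e i).val) *
            ((∏ j : Fin l, (x j.castSucc ^ (B j.castSucc).val * (1 - x j.castSucc) ^ (A j.castSucc).val)) *
              (X ^ (B (Fin.last l)).val * (1 - X) ^ (A (Fin.last l)).val)) =
            (∏ i, Y i ^ (e i).val) * (X ^ (B (Fin.last l)).val * (1 - X) ^ (A (Fin.last l)).val) *
              ∏ j : Fin l, (x j.castSucc ^ (B j.castSucc).val * (1 - x j.castSucc) ^ (A j.castSucc).val) := by
          ring
        rw [h3]
        exact h2
      ind := by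
        obtain ⟨v, hv⟩ := h.ind
        exact ⟨_, hv.comp (finCongr (by omega : r + (d + 1) + l = r + d + (l + 1))) (Equiv.injective _)⟩ }

/-- Permutation of the three term relations. -/
theorem Sys.perm {t : Fin r → K} {Y : Fin (d + 2) → K}
    {e : Fin (d + 2) → ZMod N} {x : Fin l → K} {B A : Fin l → ZMod N} {w : K}
    {K₀ : IntermediateField F K} (h : Sys N t Y e x B A w K₀) (π : Equiv.Perm (Fin l)) :
    Sys N t Y e (fun j => x (π j)) (fun j => B (π j)) (fun j => A (π j)) w K₀ := by
  have hr : Set.range (fun j => x (π j)) = Set.range x := π.surjective.range_comp x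
  exact
    { Y_ne := h.Y_ne
      Y_mem := h.Y_mem
      sum_Y := h.sum_Y
      sum_e := h.sum_e
      x_ne := fun j => h.x_ne _
      x_ne_one := fun j => h.x_ne_one _
      K₀_eq := by rw [hr]; exact h.K₀_eq
      top := h.top
      w_pow := by
        rw [Equiv.prod_comp π (fun j => x j ^ (B j).val * (1 - x j) ^ (A j).val)]
        exact h.w_pow
      ind := h.ind }

lemma tot_perm {s : ℕ} (e : Fin s → ZMod N) (B A : Fin l → ZMod N) (π : Equiv.Perm (Fin l)) :
    tot e (fun j => B (π j)) (fun j => A (π j)) = tot e B A := by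
  unfold tot
  rw [Equiv.sum_comp π (fun j => Multiset.map (tripE (B j) (A j)) Finset.univ.val)]

end UnrG
end

section

/-!
# Twisting a three term relation by a power of the Frobenius
-/

namespace UnrG

universe u v w

open Polynomial Finset

variable {N : ℕ} {F K : Type u} [Field F] [Field K] [Algebra F K] {r d l : ℕ}

/-- **Twisting**. Proof: `exists_root_ext` for `x (last)`, `K₀' = twF F t Y x y`; `twF_mem`, `twF_top`,
`tw_pow` (`Fin.prod_univ_castSucc`, `Fin.snoc_castSucc`, `Fin.snoc_last`); independence of the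
images by `AlgebraicIndependent.map'`. -/
theorem Sys.twist {p : ℕ} [Fact p.Prime] [CharP F p] [NeZero N] {t : Fin r → K}
    {Y : Fin (d + 2) → K} {e : Fin (d + 2) → ZMod N} {x : Fin (l + 1) → K}
    {B A : Fin (l + 1) → ZMod N} {w : K} {K₀ : IntermediateField F K}
    (h : Sys N t Y e x B A w K₀) (k : ℕ) :
    ∃ (K' : Type u) (_ : Field K') (_ : Algebra F K') (_ : Algebra K K')
      (_ : IsScalarTower F K K') (y : K') (K₁ : IntermediateField F K'),
      FiniteDimensional K K' ∧ Module.finrank K K' ≤ p ^ k ∧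
      Sys N (fun i => algebraMap K K' (t i)) (fun i => algebraMap K K' (Y i)) e
        (Fin.snoc (fun j : Fin l => algebraMap K K' (x j.castSucc)) y)
        (Fin.snoc (fun j : Fin l => B j.castSucc) ((p : ZMod N) ^ k * B (Fin.last l)))
        (Fin.snoc (fun j : Fin l => A j.castSucc) ((p : ZMod N) ^ k * A (Fin.last l)))
        (algebraMap K K' w) K₁ := by
  obtain ⟨K', iK', iFK', iKK', iT, y, hfin, hdeg, hy, htop⟩ :=
    exists_root_ext (F := F) (K := K) (p := p) k (x (Fin.last l))
  have hp : p.Prime := Fact.out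
  have hQ : p ^ k ≠ 0 := pow_ne_zero _ hp.ne_zero
  have hchar : CharP K' p := charP_of_injective_algebraMap (algebraMap F K').injective p
  have hx0 : algebraMap K K' (x (Fin.last l)) ≠ 0 :=
    (map_ne_zero (algebraMap K K')).2 (h.x_ne _)
  have hx1 : 1 - algebraMap K K' (x (Fin.last l)) ≠ 0 := by
    have h1 := (map_ne_zero (algebraMap K K')).2 (h.x_ne_one (Fin.last l))
    rwa [map_sub, map_one] at h1
  have hy0 : y ≠ 0 := by
    rintro rfl
    rw [zero_pow hQ] at hy
    exact hx0 hy.symm
  have hy1 : 1 - y ≠ 0 := by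
    intro h1
    have h2 : y = 1 := (sub_eq_zero.1 h1).symm
    rw [h2, one_pow] at hy
    exact hx1 (by rw [← hy, sub_self])
  have hmem : ∀ z ∈ K₀, algebraMap K K' z ∈ twF F t Y x y := by
    intro z hz
    rw [h.K₀_eq] at hz
    exact twF_mem hy hz
  have hym : y ∈ twF F t Y x y := by
    unfold twF
    refine IntermediateField.subset_adjoin _ _ (Or.inr ⟨Fin.last l, ?_⟩)
    rw [Fin.snoc_last]
  refine ⟨K', iK', iFK', iKK', iT, y, twF F t Y x y, hfin, hdeg, ?_⟩
  refine ⟨fun i => (map_ne_zero (algebraMap K K')).2 (h.Y_ne i), fun i => hmem _ (h.Y_mem i),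
    ?_, h.sum_e, ?_, ?_, rfl, ?_, ?_, ?_⟩
  · rw [← map_sum, h.sum_Y, map_zero]
  · intro i
    refine Fin.lastCases ?_ (fun i => ?_) i
    · rw [Fin.snoc_last]
      exact hy0
    · rw [Fin.snoc_castSucc]
      exact (map_ne_zero (algebraMap K K')).2 (h.x_ne _)
  · intro i
    refine Fin.lastCases ?_ (fun i => ?_) i
    · rw [Fin.snoc_last]
      exact hy1
    · rw [Fin.snoc_castSucc]
      have h1 := (map_ne_zero (algebraMap K K')).2 (h.x_ne_one i.castSucc)
      rwa [map_sub, map_one] at h1
  · have h1 := h.top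
    rw [h.K₀_eq] at h1
    exact twF_top hy h1 htop
  · have h1 := h.w_pow.map hmem
    rw [map_mul, map_prod, map_prod, Fin.prod_univ_castSucc (n := l), map_pow] at h1
    rw [Fin.prod_univ_castSucc (n := l)]
    simp only [Fin.snoc_castSucc, Fin.snoc_last]
    refine h1.trans ?_
    simp only [map_mul, map_pow, map_sub, map_one]
    refine ModPow.mul (ModPow.refl _) (ModPow.mul (ModPow.refl _) ?_)
    exact tw_pow hy hym hx0 hx1 _ _
  · obtain ⟨v, hv⟩ := h.ind
    exact ⟨fun i => IsScalarTower.toAlgHom F K K' (v i),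
      hv.map' (f := IsScalarTower.toAlgHom F K K') (algebraMap K K').injective⟩

/-- Hint: `tripE (c * B) (c * A) = c * tripE B A`; `Fin.sum_univ_castSucc`. -/
lemma tot_snoc {s : ℕ} (e : Fin s → ZMod N) (B A : Fin l → ZMod N) (c B' A' : ZMod N) :
    tot e (Fin.snoc B (c * B') : Fin (l + 1) → ZMod N) (Fin.snoc A (c * A')) =
      tot e B A + (Multiset.map (tripE B' A') Finset.univ.val).map fun x => c * x := by
  have h1 : ∀ i, tripE (c * B') (c * A') i = c * tripE B' A' i := by
    intro i
    fin_cases i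
    · rfl
    · rfl
    · change -(c * B' + c * A') = c * -(B' + A')
      ring
  unfold tot
  rw [Fin.sum_univ_castSucc]
  simp only [Fin.snoc_castSucc, Fin.snoc_last, Multiset.map_map, Function.comp_def]
  rw [add_assoc]
  congr 2
  exact Multiset.map_congr rfl fun i _ => h1 i

end UnrG
end

section

/-!
# One step of the gluing process
-/

namespace UnrG

universe u v w

open Polynomial Finset

variable {N : ℕ} {F K : Type u} [Field F] [Field K] [Algebra F K] {r d l : ℕ}

/-- Proof: `z = e a`, `y = tripE (B j₀) (A j₀) b`. Apply `Sys.perm` with `Equiv.swap j₀ (last)`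
(`tot_perm`), `Sys.twist` with `e' - k`, so that the new exponent is `p ^ (e' - k) * y = -z`, and
`Sys.glue`. The total multiset is balanced after the twist by `Bal.twist` (`tot_snoc`), and after the
gluing by `tot_glue` and `Bal.of_pair` (with exponent `0`). -/
theorem Sys.step [NegPow F N] {p : ℕ} [Fact p.Prime] [CharP F p] [Fact N.Prime] {e' : ℕ}
    (he : 0 < e') (hpe : (p : ZMod N) ^ e' = 1) {t : Fin r → K} {Y : Fin (d + 2) → K}
    {e : Fin (d + 2) → ZMod N} {x : Fin (l + 1) → K} {B A : Fin (l + 1) → ZMod N} {w : K}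
    {K₀ : IntermediateField F K} (h : Sys N t Y e x B A w K₀) (hb : Bal p e' (tot e B A))
    (h0 : ∀ z ∈ tot e B A, z ≠ 0)
    (hc : ∃ z ∈ Multiset.map e Finset.univ.val,
      ∃ y ∈ ∑ j, Multiset.map (tripE (B j) (A j)) Finset.univ.val,
        ∃ k < e', y = -(p : ZMod N) ^ k * z) :
    ∃ (K' : Type u) (_ : Field K') (_ : Algebra F K') (_ : Algebra K K')
      (_ : IsScalarTower F K K'), FiniteDimensional K K' ∧ Module.finrank K K' ≤ p ^ e' ∧
      ∃ (t' : Fin r → K') (Y' : Fin (d + 1 + 2) → K') (g : Fin (d + 1 + 2) → ZMod N)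
        (x' : Fin l → K') (B' A' : Fin l → ZMod N) (w' : K') (K₁ : IntermediateField F K'),
        Sys N t' Y' g x' B' A' w' K₁ ∧ Bal p e' (tot g B' A') ∧ ∀ z ∈ tot g B' A', z ≠ 0 := by
  obtain ⟨z, hz, y, hy, k, hk, hyz⟩ := hc
  obtain ⟨a, -, rfl⟩ := Multiset.mem_map.1 hz
  obtain ⟨j₀, -, hy'⟩ := Multiset.mem_sum.1 hy
  obtain ⟨b, -, rfl⟩ := Multiset.mem_map.1 hy'
  have hN0 : NeZero N := ⟨(Fact.out : N.Prime).ne_zero⟩
  have hp : p.Prime := Fact.out
  obtain ⟨π, hπ⟩ : ∃ π : Equiv.Perm (Fin (l + 1)), π (Fin.last l) = j₀ :=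
    ⟨Equiv.swap j₀ (Fin.last l), Equiv.swap_apply_right _ _⟩
  obtain ⟨K', iK', iFK', iKK', iT, y', K₁, hfin, hdeg, hS⟩ := (h.perm π).twist (p := p) (e' - k)
  have hglue : e a + tripE
      ((Fin.snoc (fun j : Fin l => B (π j.castSucc))
        ((p : ZMod N) ^ (e' - k) * B (π (Fin.last l))) : Fin (l + 1) → ZMod N) (Fin.last l))
      ((Fin.snoc (fun j : Fin l => A (π j.castSucc))
        ((p : ZMod N) ^ (e' - k) * A (π (Fin.last l))) : Fin (l + 1) → ZMod N) (Fin.last l)) b
        = 0 := by
    have h1 : ∀ (c B' A' : ZMod N) i, tripE (c * B') (c * A') i = c * tripE B' A' i := by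
      intro c B' A' i
      fin_cases i
      · rfl
      · rfl
      · change -(c * B' + c * A') = c * -(B' + A')
        ring
    rw [Fin.snoc_last, Fin.snoc_last, hπ, h1, hyz]
    have h2 : (p : ZMod N) ^ (e' - k) * (-(p : ZMod N) ^ k * e a) = -((p : ZMod N) ^ e' * e a) := by
      rw [← Nat.sub_add_cancel hk.le, pow_add]
      simp only [Nat.add_sub_cancel]
      ring
    rw [h2, hpe]
    ring
  have hG := hS.glue a b hglue
  have hT1 := tot_snoc e (fun j : Fin l => B (π j.castSucc)) (fun j : Fin l => A (π j.castSucc))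
    ((p : ZMod N) ^ (e' - k)) (B (π (Fin.last l))) (A (π (Fin.last l)))
  have hT2 : tot e B A = tot e (fun j : Fin l => B (π j.castSucc))
      (fun j : Fin l => A (π j.castSucc)) +
      Multiset.map (tripE (B (π (Fin.last l))) (A (π (Fin.last l)))) Finset.univ.val := by
    rw [← tot_perm e B A π]
    unfold tot
    rw [Fin.sum_univ_castSucc, add_assoc]
  have hT3 := tot_glue e
    (Fin.snoc (fun j : Fin l => B (π j.castSucc))
        ((p : ZMod N) ^ (e' - k) * B (π (Fin.last l))) : Fin (l + 1) → ZMod N)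
    (Fin.snoc (fun j : Fin l => A (π j.castSucc))
        ((p : ZMod N) ^ (e' - k) * A (π (Fin.last l))) : Fin (l + 1) → ZMod N) a b
  refine ⟨K', iK', iFK', iKK', iT, hfin, hdeg.trans (Nat.pow_le_pow_right hp.pos (Nat.sub_le _ _)),
    _, _, _, _, _, _, _, _, hG, ?_, ?_⟩
  · rw [hT2] at hb
    have hb2 := (Bal.twist he hpe (e' - k)).2 hb
    rw [← hT1, ← hT3] at hb2
    have h3 := eq_neg_of_add_eq_zero_right hglue
    rw [h3] at hb2
    refine Bal.of_pair (x := e a) (k := 0) he hpe ?_
    rw [pow_zero, neg_mul, one_mul]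
    exact hb2
  · intro z hz2
    have hz3 : z ∈ tot e (Fin.snoc (fun j : Fin l => B (π j.castSucc))
        ((p : ZMod N) ^ (e' - k) * B (π (Fin.last l))) : Fin (l + 1) → ZMod N)
      (Fin.snoc (fun j : Fin l => A (π j.castSucc))
        ((p : ZMod N) ^ (e' - k) * A (π (Fin.last l))) : Fin (l + 1) → ZMod N) := by
      rw [← hT3]
      exact Multiset.mem_cons_of_mem (Multiset.mem_cons_of_mem hz2)
    rw [hT1] at hz3
    rw [hT2] at h0
    rcases Multiset.mem_add.1 hz3 with h4 | h4
    · exact h0 z (Multiset.mem_add.2 (Or.inl h4))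
    · obtain ⟨u, hu, rfl⟩ := Multiset.mem_map.1 h4
      refine mul_ne_zero (pow_ne_zero _ ?_) (h0 u (Multiset.mem_add.2 (Or.inr hu)))
      intro hp0
      rw [hp0, zero_pow he.ne'] at hpe
      exact zero_ne_one hpe

end UnrG
end

section

/-!
# Degenerate exponents
-/

namespace UnrG

universe u v w

open Polynomial Finset
open scoped Classical

variable {N : ℕ} {F E : Type u} [Field F] [Field E] [Algebra F E] {r n : ℕ} {t : Fin r → E}
  {X : Fin n → E} {W : E} {B A : Fin n → ZMod N}

/-- Hint: `X j` is transcendental (`h.ind`). -/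
lemma CycProd.X_ne (h : CycProd N (F := F) t X W B A) (j : Fin n) : X j ≠ 0 ∧ 1 - X j ≠ 0 := by
  have h1 : Transcendental F (X j) := h.ind.transcendental (Sum.inr j)
  constructor
  · intro h2
    apply h1
    rw [h2]
    exact isAlgebraic_zero
  · intro h2
    apply h1
    rw [← sub_eq_zero.1 h2]
    exact isAlgebraic_one

/-- If one factor depends on one coordinate `P ∈ {X_j, 1 - X_j, X_j / (1 - X_j)}` only, with exponent
prime to `N`, then the field is purely transcendental. Proof: by `mono_trick` (PF/G6), for the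
subfield `T` generated by `t` and the `X_i`, `i ≠ j`, and `W / g`, `P`, there is `y` with
`T ⊔ adjoin {W / g, P} = T ⊔ adjoin {y}`, and this is everything (`X j` lies in `F(P)`, `hXP`; `g` lies in
`T(P)`). The family `t`, `X_i` (`i ≠ j`), `y`, i.e. `Sum.elim t (Function.update X j y)`, generates
`E`; it is independent by `indep_of_trdeg` (PF/G1b), compare with `h.ind`. -/
theorem CycProd.isPurely_aux (h : CycProd N (F := F) t X W B A) (hN : 0 < N) (j : Fin n)
    {P c g : E} {k : ℕ} (hk : k.Coprime N)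
    (hc : c ∈ IntermediateField.adjoin F (Set.range t ∪ X '' {i | i ≠ j})) (hc0 : c ≠ 0)
    (hP : P ≠ 0) (hg0 : g ≠ 0) (hg : g ∈ IntermediateField.adjoin F {P})
    (hXP : X j ∈ IntermediateField.adjoin F {P}) (hW : (W / g) ^ N = c * P ^ k) :
    ∃ (s : ℕ) (v : Fin s → E), AlgebraicIndependent F v ∧
      IntermediateField.adjoin F (Set.range v) = ⊤ := by
  obtain ⟨y, hy⟩ := mono_trick (IntermediateField.adjoin F (Set.range t ∪ X '' {i | i ≠ j})) hN hk
    hc hc0 hP hW
  have hPle : IntermediateField.adjoin F {P} ≤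
      IntermediateField.adjoin F (Set.range t ∪ X '' {i | i ≠ j}) ⊔
        IntermediateField.adjoin F {W / g, P} := by
    refine le_trans ?_ le_sup_right
    exact IntermediateField.adjoin.mono F _ _ (fun z hz => Or.inr hz)
  have htop : IntermediateField.adjoin F (Set.range t ∪ X '' {i | i ≠ j}) ⊔
      IntermediateField.adjoin F {y} = ⊤ := by
    rw [← hy, eq_top_iff, ← h.gen, IntermediateField.adjoin_le_iff]
    rintro z ((⟨i, rfl⟩ | ⟨i, rfl⟩) | hz)
    · exact (le_sup_left : IntermediateField.adjoin F (Set.range t ∪ X '' {i | i ≠ j}) ≤ _)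
        (IntermediateField.subset_adjoin F _ (Or.inl ⟨i, rfl⟩))
    · by_cases hij : i = j
      · subst hij
        exact hPle hXP
      · exact (le_sup_left : IntermediateField.adjoin F (Set.range t ∪ X '' {i | i ≠ j}) ≤ _)
          (IntermediateField.subset_adjoin F _ (Or.inr ⟨i, hij, rfl⟩))
    · rw [Set.mem_singleton_iff] at hz
      subst hz
      have h1 : z / g * g ∈ IntermediateField.adjoin F (Set.range t ∪ X '' {i | i ≠ j}) ⊔
          IntermediateField.adjoin F {z / g, P} :=
        mul_mem ((le_sup_right : IntermediateField.adjoin F {z / g, P} ≤ _)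
          (IntermediateField.subset_adjoin F _ (Or.inl rfl))) (hPle hg)
      rwa [div_mul_cancel₀ _ hg0] at h1
  have hgen : IntermediateField.adjoin F (Set.range (Sum.elim t (Function.update X j y))) = ⊤ := by
    rw [eq_top_iff, ← htop, sup_le_iff]
    constructor
    · rw [IntermediateField.adjoin_le_iff]
      rintro z (⟨i, rfl⟩ | ⟨i, hi, rfl⟩)
      · exact IntermediateField.subset_adjoin F _ ⟨Sum.inl i, rfl⟩
      · exact IntermediateField.subset_adjoin F _ ⟨Sum.inr i, Function.update_of_ne hi _ _⟩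
    · rw [IntermediateField.adjoin_simple_le_iff]
      exact IntermediateField.subset_adjoin F _ ⟨Sum.inr j, Function.update_self _ _ _⟩
  have hind : AlgebraicIndependent F (Sum.elim t (Function.update X j y)) := by
    refine indep_of_trdeg h.ind fun z => ?_
    have hz : z ∈ IntermediateField.adjoin F
        (Set.range (Sum.elim t (Function.update X j y))) := by
      rw [hgen]
      exact IntermediateField.mem_top
    exact isAlgebraic_algebraMap (⟨z, hz⟩ : IntermediateField.adjoin F
        (Set.range (Sum.elim t (Function.update X j y))))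
  refine ⟨r + n, Sum.elim t (Function.update X j y) ∘ finSumFinEquiv.symm,
    hind.comp _ finSumFinEquiv.symm.injective, ?_⟩
  rw [Set.range_comp, finSumFinEquiv.symm.surjective.range_eq, Set.image_univ]
  exact hgen

end UnrG
end

section

/-!
# Degenerate exponents
-/

namespace UnrG

universe u v w

open Polynomial Finset
open scoped Classical

variable {N : ℕ} {F E : Type u} [Field F] [Field E] [Algebra F E] {r n : ℕ} {t : Fin r → E}
  {X : Fin n → E} {W : E} {B A : Fin n → ZMod N}

/-- The exponents `(B_j, A_j, -(B_j + A_j))` of one curve, exactly one of which vanishes. Proof: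
`CycProd.isPurely_aux` with: `B_j = 0`, `A_j ≠ 0`: `P = 1 - X_j`, `k = (A j).val`, `g = 1`; `A_j = 0`,
`B_j ≠ 0`: `P = X_j`; `B_j = -A_j ≠ 0`: `P = X_j / (1 - X_j)` (so `X_j = P / (1 + P)`),
`X_j ^ B (1 - X_j) ^ A = P ^ B (1 - X_j) ^ (A + B)` where `A.val + B.val = N`, `g = 1 - X_j`. The coefficient
is the product over `i ≠ j` (`Finset.mul_prod_erase`); a nonzero residue class mod the prime `N` is
prime to `N`. -/
theorem CycProd.isPurely [Fact N.Prime] (h : CycProd N (F := F) t X W B A) (j : Fin n)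
    (hj : ¬ (B j = 0 ∧ A j = 0)) (hj' : B j = 0 ∨ A j = 0 ∨ B j + A j = 0) :
    ∃ (s : ℕ) (v : Fin s → E), AlgebraicIndependent F v ∧
      IntermediateField.adjoin F (Set.range v) = ⊤ := by
  have hNp : N.Prime := Fact.out
  have hcop : ∀ z : ZMod N, z ≠ 0 → z.val.Coprime N := by
    intro z hz
    rw [Nat.coprime_comm, hNp.coprime_iff_not_dvd, ← ZMod.natCast_eq_zero_iff, ZMod.natCast_zmod_val]
    exact hz
  obtain ⟨c, hc⟩ : ∃ c, c = ∏ i ∈ univ.erase j, (X i ^ (B i).val * (1 - X i) ^ (A i).val) := ⟨_, rfl⟩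
  have hWc : W ^ N = (X j ^ (B j).val * (1 - X j) ^ (A j).val) * c := by
    rw [h.eq, hc, Finset.mul_prod_erase univ (fun i => X i ^ (B i).val * (1 - X i) ^ (A i).val)
      (Finset.mem_univ j)]
  have hcm : c ∈ IntermediateField.adjoin F (Set.range t ∪ X '' {i | i ≠ j}) := by
    rw [hc]
    refine prod_mem fun i hi => ?_
    have h1 : X i ∈ IntermediateField.adjoin F (Set.range t ∪ X '' {i | i ≠ j}) :=
      IntermediateField.subset_adjoin F _ (Or.inr ⟨i, Finset.ne_of_mem_erase hi, rfl⟩)
    exact mul_mem (pow_mem h1 _) (pow_mem (sub_mem (one_mem _) h1) _)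
  have hc0 : c ≠ 0 := by
    rw [hc]
    exact Finset.prod_ne_zero_iff.mpr fun i _ =>
      mul_ne_zero (pow_ne_zero _ (h.X_ne i).1) (pow_ne_zero _ (h.X_ne i).2)
  have hX0 := (h.X_ne j).1
  have hX1 := (h.X_ne j).2
  by_cases hB : B j = 0
  · have hA : A j ≠ 0 := fun hA => hj ⟨hB, hA⟩
    refine h.isPurely_aux hNp.pos j (P := 1 - X j) (c := c) (g := 1) (hcop _ hA) hcm hc0 hX1
      one_ne_zero (one_mem _) ?_ ?_
    · have h1 : X j = 1 - (1 - X j) := by ring
      rw [h1]
      exact sub_mem (one_mem _) (by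
        have h2 : (1 : E) - (1 - (1 - X j)) = 1 - X j := by ring
        rw [h2]
        exact IntermediateField.mem_adjoin_simple_self F _)
    · rw [div_one, hWc, hB, ZMod.val_zero, pow_zero, one_mul, mul_comm]
  · by_cases hA : A j = 0
    · refine h.isPurely_aux hNp.pos j (P := X j) (c := c) (g := 1) (hcop _ hB) hcm hc0 hX0
        one_ne_zero (one_mem _) (IntermediateField.mem_adjoin_simple_self F _) ?_
      rw [div_one, hWc, hA, ZMod.val_zero, pow_zero, mul_one, mul_comm]
    · have hBA : B j + A j = 0 := by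
        rcases hj' with h1 | h1 | h1
        · exact absurd h1 hB
        · exact absurd h1 hA
        · exact h1
      have hval : (B j).val + (A j).val = N := by
        have h1 : N ∣ (B j).val + (A j).val := by
          rw [← ZMod.natCast_eq_zero_iff]
          push_cast
          rw [ZMod.natCast_zmod_val, ZMod.natCast_zmod_val]
          exact hBA
        have h2 := ZMod.val_lt (B j)
        have h3 := ZMod.val_lt (A j)
        have h4 : 0 < (B j).val := Nat.pos_of_ne_zero fun h5 => hB ((ZMod.val_eq_zero _).mp h5)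
        obtain ⟨m, hm⟩ := h1
        have h5 : m = 1 := by
          rcases Nat.lt_trichotomy m 1 with h6 | h6 | h6
          · have h7 : m = 0 := by omega
            rw [h7, mul_zero] at hm
            omega
          · exact h6
          · have h8 : N * 2 ≤ N * m := Nat.mul_le_mul_left N h6
            omega
        rw [hm, h5, mul_one]
      obtain ⟨P, hP⟩ : ∃ P, P = X j / (1 - X j) := ⟨_, rfl⟩
      have hP1 : 1 - X j = (1 + P)⁻¹ := by
        rw [hP]
        field_simp
        ring
      have hPm : P ∈ IntermediateField.adjoin F {P} := IntermediateField.mem_adjoin_simple_self F _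
      have hg : 1 - X j ∈ IntermediateField.adjoin F {P} := by
        rw [hP1]
        exact inv_mem (add_mem (one_mem _) hPm)
      refine h.isPurely_aux hNp.pos j (P := P) (c := c) (g := 1 - X j) (hcop _ hB) hcm hc0
        (by rw [hP]; exact div_ne_zero hX0 hX1) hX1 hg ?_ ?_
      · have h1 : X j = 1 - (1 - X j) := by ring
        have h2 := sub_mem (one_mem (IntermediateField.adjoin F {P})) hg
        rw [← h1] at h2
        exact h2
      · rw [div_pow, hWc, hP, div_pow, div_eq_iff (pow_ne_zero _ hX1)]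
        have h2 : (1 - X j) ^ N = (1 - X j) ^ (B j).val * (1 - X j) ^ (A j).val := by
          rw [← pow_add, hval]
        rw [h2]
        have h3 : (1 - X j) ^ (B j).val ≠ 0 := pow_ne_zero _ hX1
        field_simp

/-- A curve which does not occur in the monomial is a further parameter. Hint: `(0 : ZMod N).val = 0`;
`Fin.prod_univ_succAbove`, `Fin.snoc`; independence: the family is a reindexing of
`Sum.elim t X`. -/
theorem CycProd.drop {X : Fin (n + 1) → E} {B A : Fin (n + 1) → ZMod N}
    (h : CycProd N (F := F) t X W B A) (j : Fin (n + 1)) (hB : B j = 0) (hA : A j = 0) :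
    CycProd N (F := F) (Fin.snoc t (X j) : Fin (r + 1) → E) (fun i => X (j.succAbove i)) W
      (fun i => B (j.succAbove i)) (fun i => A (j.succAbove i)) := by
  constructor
  · obtain ⟨e, he⟩ : ∃ e : Fin (r + 1) ⊕ Fin n → Fin r ⊕ Fin (n + 1),
        e = Sum.elim (Fin.snoc (fun i => Sum.inl i) (Sum.inr j) : Fin (r + 1) → Fin r ⊕ Fin (n + 1))
          (fun i => Sum.inr (j.succAbove i)) := ⟨_, rfl⟩
    have hinj : Function.Injective e := by
      rw [he]
      rintro (u | u) (v | v) huv
      · simp only [Sum.elim_inl] at huv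
        induction u using Fin.lastCases with
        | last =>
          induction v using Fin.lastCases with
          | last => rfl
          | cast v => rw [Fin.snoc_last, Fin.snoc_castSucc] at huv; exact absurd huv (by simp)
        | cast u =>
          induction v using Fin.lastCases with
          | last => rw [Fin.snoc_last, Fin.snoc_castSucc] at huv; exact absurd huv (by simp)
          | cast v =>
            rw [Fin.snoc_castSucc, Fin.snoc_castSucc] at huv
            rw [Sum.inl.inj huv]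
      · simp only [Sum.elim_inl, Sum.elim_inr] at huv
        induction u using Fin.lastCases with
        | last =>
          rw [Fin.snoc_last] at huv
          exact absurd (Sum.inr.inj huv).symm (Fin.succAbove_ne j v)
        | cast u => rw [Fin.snoc_castSucc] at huv; exact absurd huv (by simp)
      · simp only [Sum.elim_inl, Sum.elim_inr] at huv
        induction v using Fin.lastCases with
        | last =>
          rw [Fin.snoc_last] at huv
          exact absurd (Sum.inr.inj huv) (Fin.succAbove_ne j u)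
        | cast v => rw [Fin.snoc_castSucc] at huv; exact absurd huv (by simp)
      · simp only [Sum.elim_inr] at huv
        rw [Fin.succAbove_right_injective (Sum.inr.inj huv)]
    have h1 := h.ind.comp e hinj
    have h2 : Sum.elim t X ∘ e = Sum.elim (Fin.snoc t (X j) : Fin (r + 1) → E)
        (fun i => X (j.succAbove i)) := by
      funext u
      rcases u with u | u
      · simp only [Function.comp, he, Sum.elim_inl]
        induction u using Fin.lastCases with
        | last => rw [Fin.snoc_last, Fin.snoc_last]; rfl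
        | cast u => rw [Fin.snoc_castSucc, Fin.snoc_castSucc]; rfl
      · simp only [Function.comp, he, Sum.elim_inr]
    rw [h2] at h1
    exact h1
  · rw [h.eq, Fin.prod_univ_succAbove _ j, hB, hA, ZMod.val_zero, pow_zero, pow_zero, one_mul, one_mul]
  · rw [← h.gen]
    congr 1
    ext z
    constructor
    · rintro ((⟨i, rfl⟩ | ⟨i, rfl⟩) | hz)
      · induction i using Fin.lastCases with
        | last =>
          rw [Fin.snoc_last]
          exact Or.inl (Or.inr ⟨j, rfl⟩)
        | cast i =>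
          rw [Fin.snoc_castSucc]
          exact Or.inl (Or.inl ⟨i, rfl⟩)
      · exact Or.inl (Or.inr ⟨_, rfl⟩)
      · exact Or.inr hz
    · rintro ((⟨i, rfl⟩ | ⟨i, rfl⟩) | hz)
      · exact Or.inl (Or.inl ⟨i.castSucc, by rw [Fin.snoc_castSucc]⟩)
      · by_cases hi : i = j
        · rw [hi]
          exact Or.inl (Or.inl ⟨Fin.last r, by rw [Fin.snoc_last]⟩)
        · obtain ⟨i', rfl⟩ := Fin.exists_succAbove_eq hi
          exact Or.inl (Or.inr ⟨i', rfl⟩)
      · exact Or.inr hz

lemma CycFrob.drop {q : ℕ} {X : Fin (n + 1) → E} {σ : E →+* E} (h : CycFrob q F t X W σ)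
    (j : Fin (n + 1)) :
    CycFrob q F (Fin.snoc t (X j) : Fin (r + 1) → E) (fun i => X (j.succAbove i)) W σ := by
  refine ⟨h.const, fun i => ?_, fun i => h.fX _, h.fW⟩
  induction i using Fin.lastCases with
  | last => rw [Fin.snoc_last]; exact h.fX j
  | cast i => rw [Fin.snoc_castSucc]; exact h.ft i

/-- Four nondegenerate curves. The main block is the first one. Hint: `Fin.prod_univ_succ`,
`ModPow.trip` (PP/G4), `K₀ = adjoin F (range t ∪ range X)` (`X 0 = -(Y 0 / Y 2)`). -/
theorem CycProd.sys [NegPow F N] [NeZero N] {X : Fin 4 → E} {B A : Fin 4 → ZMod N}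
    (h : CycProd N (F := F) t X W B A) :
    ∃ K₀ : IntermediateField F E, Sys (d := 1) N t (trip (X 0)) (tripE (B 0) (A 0))
      (fun j : Fin 3 => X j.succ) (fun j => B j.succ) (fun j => A j.succ) W K₀ := by
  refine ⟨IntermediateField.adjoin F (Set.range t ∪ Set.range X), ?_⟩
  set K₀ := IntermediateField.adjoin F (Set.range t ∪ Set.range X) with hK₀
  have hXm : ∀ i, X i ∈ K₀ := fun i => IntermediateField.subset_adjoin F _ (Or.inr ⟨i, rfl⟩)
  have hTm : ∀ c, trip (X 0) c ∈ K₀ := by
    intro c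
    fin_cases c
    · exact hXm 0
    · exact sub_mem (one_mem K₀) (hXm 0)
    · exact neg_mem (one_mem K₀)
  have hN : 0 < N := Nat.pos_of_ne_zero (NeZero.ne N)
  exact
    { Y_ne := trip_ne (h.X_ne 0).1 (h.X_ne 0).2
      Y_mem := hTm
      sum_Y := trip_sum _
      sum_e := tripE_sum _ _
      x_ne := fun j => (h.X_ne _).1
      x_ne_one := fun j => (h.X_ne _).2
      K₀_eq := by
        apply le_antisymm
        · rw [hK₀, IntermediateField.adjoin_le_iff]
          rintro z (⟨i, rfl⟩ | ⟨i, rfl⟩)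
          · exact IntermediateField.subset_adjoin F _ (Or.inl (Or.inl ⟨i, rfl⟩))
          · refine Fin.cases ?_ (fun i => ?_) i
            · have h2 : X 0 = -(trip (X 0) 0 / trip (X 0) 2) := by
                change X 0 = -(X 0 / -1)
                rw [div_neg, div_one, neg_neg]
              have h3 : trip (X 0) 0 / trip (X 0) 2 ∈ IntermediateField.adjoin F
                  (Set.range t ∪ {z | ∃ i j, z = trip (X 0) i / trip (X 0) j} ∪
                    Set.range (fun j : Fin 3 => X j.succ)) :=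
                IntermediateField.subset_adjoin F _ (Or.inl (Or.inr ⟨0, 2, rfl⟩))
              have h4 := neg_mem h3
              rw [← h2] at h4
              exact h4
            · exact IntermediateField.subset_adjoin F _ (Or.inr ⟨i, rfl⟩)
        · rw [IntermediateField.adjoin_le_iff]
          rintro z ((⟨i, rfl⟩ | ⟨i, j, rfl⟩) | ⟨j, rfl⟩)
          · exact IntermediateField.subset_adjoin F _ (Or.inl ⟨i, rfl⟩)
          · exact div_mem (hTm i) (hTm j)
          · exact hXm _
      top := by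
        rw [eq_top_iff, ← h.gen, IntermediateField.adjoin_le_iff]
        rintro z (hz | hz)
        · exact (le_sup_left : K₀ ≤ _) (IntermediateField.subset_adjoin F _ hz)
        · exact (le_sup_right : IntermediateField.adjoin F {W} ≤ _) (IntermediateField.subset_adjoin F _ hz)
      w_pow := by
        rw [h.eq, Fin.prod_univ_succ]
        exact ModPow.mul (ModPow.trip hN (X 0) (B 0) (A 0)) (ModPow.refl _)
      ind := by
        refine ⟨_, h.ind.comp ((finCongr (by omega : r + 1 + 3 = r + 4)).trans finSumFinEquiv.symm)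
          (Equiv.injective _)⟩ }

end UnrG
end

section

/-!
# Embedding into the function field of a product of Fermat curves
-/

namespace UnrG

universe u v w

open Polynomial Finset
open scoped Classical

variable {𝔽 : Type w} [Field 𝔽] [Fintype 𝔽] (b : Base 𝔽)

variable {F E : Type u} [Field F] [Field E] [Algebra F E] {r n : ℕ} {t : Fin r → E}
  {X : Fin n → E} {W : E} {B A : Fin n → ZMod b.N}

private lemma E3_mono_pow {L Ω : Type u} [Field L] [Field Ω] [Algebra L Ω] {X Y : Fin n → Ω}
    {U : Fin n → L}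
    (hX : ∀ j, X j ^ b.N = algebraMap L Ω (U j)) (hY : ∀ j, Y j ^ b.N = algebraMap L Ω (1 - U j))
    (B A : Fin n → ℕ) :
    mono X Y B A ^ b.N = algebraMap L Ω (∏ j, (U j ^ B j * (1 - U j) ^ A j)) := by
  unfold mono
  rw [map_prod, ← Finset.prod_pow]
  refine Finset.prod_congr rfl fun j _ => ?_
  rw [mul_pow, ← pow_mul, ← pow_mul, Nat.mul_comm (B j), Nat.mul_comm (A j), pow_mul, pow_mul,
    hX, hY, map_mul, map_pow, map_pow]

/-- Proof: as `exists_embedding` in K/D9: in an algebraic closure `Ω` of `E` choose roots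
`x_j ^ N = X_j`, `y_j ^ N = 1 - X_j`, and let `M = IntermediateField.adjoin F` of the images of `t`, the
`x_j` and the `y_j`. `(mono x y B A) ^ N` is the image of `W ^ N`, so `mono x y B A` is the image of
`κ W` for an `N`-th root of unity `κ` of `𝔽` (`Base.exists_kappa`, K/E1). Independence by `indep_of_pow`
(K/E1). -/
theorem CycProd.exists_embedding (h : CycProd b.N (F := F) t X W B A) (ι : 𝔽 →+* F) :
    ∃ (M : Type u) (_ : Field M) (_ : Algebra F M) (x y : Fin n → M) (i : E →+* M) (κ : 𝔽),
      ProdData (F := F) b (fun k => i (t k)) x y ∧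
      MonoEmb b F (fun k => i (t k)) x y (fun j => (B j).val) (fun j => (A j).val) i ∧
      (∀ a : F, i (algebraMap F E a) = algebraMap F M a) ∧
      (∀ j, i (X j) = x j ^ b.N) ∧ κ ≠ 0 ∧
      i (algebraMap F E (ι κ) * W) = mono x y (fun j => (B j).val) (fun j => (A j).val) := by
  have hXe : ∀ j : Fin n, ∃ x : AlgebraicClosure E,
      x ^ b.N = algebraMap E (AlgebraicClosure E) (X j) :=
    fun j => IsAlgClosed.exists_pow_nat_eq _ b.N_pos
  have hYe : ∀ j : Fin n, ∃ y : AlgebraicClosure E,
      y ^ b.N = algebraMap E (AlgebraicClosure E) (1 - X j) :=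
    fun j => IsAlgClosed.exists_pow_nat_eq _ b.N_pos
  choose x hx using hXe
  choose y hy using hYe
  let Ω := AlgebraicClosure E
  let M : IntermediateField F Ω := IntermediateField.adjoin F
    (Set.range (fun k => algebraMap E Ω (t k)) ∪ Set.range x ∪ Set.range y)
  have mt : ∀ k, algebraMap E Ω (t k) ∈ M := fun k =>
    IntermediateField.subset_adjoin _ _ (Or.inl (Or.inl ⟨k, rfl⟩))
  have mx : ∀ j, x j ∈ M := fun j => IntermediateField.subset_adjoin _ _ (Or.inl (Or.inr ⟨j, rfl⟩))
  have my : ∀ j, y j ∈ M := fun j => IntermediateField.subset_adjoin _ _ (Or.inr ⟨j, rfl⟩)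
  let t' : Fin r → M := fun k => ⟨algebraMap E Ω (t k), mt k⟩
  let x' : Fin n → M := fun j => ⟨x j, mx j⟩
  let y' : Fin n → M := fun j => ⟨y j, my j⟩
  have hW0 : W ≠ 0 := by
    have h1 : W ^ b.N ≠ 0 := by
      rw [h.eq]
      exact Finset.prod_ne_zero_iff.mpr fun j _ =>
        mul_ne_zero (pow_ne_zero _ (h.X_ne j).1) (pow_ne_zero _ (h.X_ne j).2)
    exact fun h2 => h1 (by rw [h2, zero_pow b.N_pos.ne'])
  have hcw : algebraMap E Ω W ≠ 0 := (_root_.map_ne_zero _).mpr hW0
  have hz : (mono x y (fun j => (B j).val) (fun j => (A j).val) / algebraMap E Ω W) ^ b.N =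
      (-1) ^ 0 := by
    rw [div_pow, E3_mono_pow b hx hy, ← h.eq, map_pow, pow_zero, div_self (pow_ne_zero _ hcw)]
  obtain ⟨κ, hκ0, hκ⟩ := b.exists_kappa ((algebraMap F Ω).comp ι) hz
  have hικ : ι κ ≠ 0 := (_root_.map_ne_zero _).mpr hκ0
  have hW : mono x y (fun j => (B j).val) (fun j => (A j).val) =
      algebraMap E Ω (algebraMap F E (ι κ) * W) := by
    have h1 := (eq_div_iff hcw).mp hκ
    rw [← h1, map_mul (algebraMap E Ω) (algebraMap F E (ι κ)), ← IsScalarTower.algebraMap_apply]
    rfl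
  have hFM : ∀ d : F, algebraMap F Ω d ∈ M.toSubfield := fun d => M.algebraMap_mem d
  have hXM : ∀ j, algebraMap E Ω (X j) ∈ M.toSubfield := fun j => by
    rw [← hx]
    exact pow_mem (mx j) _
  have hWM : mono x y (fun j => (B j).val) (fun j => (A j).val) ∈ M.toSubfield :=
    prod_mem fun j _ => mul_mem (pow_mem (mx j) _) (pow_mem (my j) _)
  -- elements of `E` lie in a subfield as soon as the generators do
  have hgenT : ∀ T : Subfield Ω, (∀ d : F, algebraMap F Ω d ∈ T) →
      (∀ k, algebraMap E Ω (t k) ∈ T) → (∀ j, algebraMap E Ω (X j) ∈ T) →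
      mono x y (fun j => (B j).val) (fun j => (A j).val) ∈ T → ∀ z : E, algebraMap E Ω z ∈ T := by
    intro T hF ht hX hw z
    have hWT : algebraMap E Ω W ∈ T := by
      have e1 : algebraMap E Ω W = (algebraMap F Ω (ι κ))⁻¹ *
          mono x y (fun j => (B j).val) (fun j => (A j).val) := by
        rw [hW, map_mul, ← IsScalarTower.algebraMap_apply, inv_mul_cancel_left₀]
        exact (_root_.map_ne_zero _).mpr hικ
      rw [e1]
      exact T.mul_mem (T.inv_mem (hF _)) hw
    have hz : z ∈ IntermediateField.adjoin F (Set.range t ∪ Set.range X ∪ {W}) := by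
      rw [h.gen]
      exact IntermediateField.mem_top
    induction hz using IntermediateField.adjoin_induction with
    | mem z hz =>
      rcases hz with (⟨i, rfl⟩ | ⟨i, rfl⟩) | hz
      · exact ht i
      · exact hX i
      · rw [Set.mem_singleton_iff.mp hz]
        exact hWT
    | algebraMap a =>
      rw [← IsScalarTower.algebraMap_apply]
      exact hF a
    | add u v _ _ hu hv => rw [map_add]; exact T.add_mem hu hv
    | inv u _ hu => rw [map_inv₀]; exact T.inv_mem hu
    | mul u v _ _ hu hv => rw [map_mul]; exact T.mul_mem hu hv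
  have hiM : ∀ e : E, algebraMap E Ω e ∈ M.toSubfield := hgenT M.toSubfield hFM mt hXM hWM
  let i : E →+* M := (algebraMap E Ω).codRestrict M hiM
  have hi : ∀ e : E, ((i e : M) : Ω) = algebraMap E Ω e := fun _ => rfl
  have hinj : Function.Injective (algebraMap E Ω) := (algebraMap E Ω).injective
  have hmono : ((mono x' y' (fun j => (B j).val) (fun j => (A j).val) : M) : Ω) =
      mono x y (fun j => (B j).val) (fun j => (A j).val) := by
    unfold mono
    simp [x', y']
  have hit : (fun k => i (t k)) = t' := rfl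
  have hic : ∀ a : F, i (algebraMap F E a) = algebraMap F M a := by
    intro d
    apply Subtype.ext
    rw [hi]
    change algebraMap E Ω (algebraMap F E d) = algebraMap F Ω d
    rw [← IsScalarTower.algebraMap_apply]
  have hiX : ∀ j, i (X j) = x' j ^ b.N := fun j => Subtype.ext (hx j).symm
  have hiW : i (algebraMap F E (ι κ) * W) = mono x' y' (fun j => (B j).val) (fun j => (A j).val) := by
    apply Subtype.ext
    rw [hi, hmono, hW]
  refine ⟨M, inferInstance, inferInstance, x', y', i, κ, ⟨?_, ?_, ?_⟩, ⟨?_, ?_, ?_, ?_, ?_⟩,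
    hic, hiX, hκ0, hiW⟩
  · -- eq
    intro j
    apply Subtype.ext
    change x j ^ b.N + y j ^ b.N = 1
    rw [hx, hy, ← map_add, add_sub_cancel, map_one]
  · -- ind
    have h1 := h.ind.map' (f := IsScalarTower.toAlgHom F E Ω) hinj
    have h2 : AlgebraicIndependent F (Sum.elim (fun k => algebraMap E Ω (t k)) x) := by
      refine indep_of_pow h1 (Sum.elim (fun _ => 1) (fun _ => b.N)) ?_
      rintro (k | j)
      · simp
      · exact hx j
    have h3 : (M.val : M → Ω) ∘ Sum.elim t' x' = Sum.elim (fun k => algebraMap E Ω (t k)) x := by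
      funext k
      rcases k with k | j <;> rfl
    rw [← h3] at h2
    exact (M.val.algebraicIndependent_iff M.val.injective).mp h2
  · -- gen
    apply IntermediateField.lift_injective M
    rw [IntermediateField.lift_adjoin, IntermediateField.lift_top, Set.image_union,
      Set.image_union, ← Set.range_comp, ← Set.range_comp, ← Set.range_comp]
    rfl
  · -- const
    intro d
    exact ⟨algebraMap F _ d, hic d⟩
  · intro k
    exact ⟨t k, rfl⟩
  · intro j
    exact ⟨X j, hiX j⟩
  · exact ⟨_, hiW⟩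
  · -- gen
    rintro _ ⟨e, rfl⟩
    set Sc : Subfield M := Subfield.closure (Set.range (algebraMap F M) ∪
      Set.range (fun k => i (t k)) ∪
      (Set.range fun j => x' j ^ b.N) ∪ {mono x' y' (fun j => (B j).val) (fun j => (A j).val)}) with hSc
    have h1 : algebraMap E Ω e ∈ Sc.map (algebraMap M Ω) := by
      refine hgenT _ ?_ ?_ ?_ ?_ e
      · intro d
        exact ⟨algebraMap F M d, Subfield.subset_closure (Or.inl (Or.inl (Or.inl ⟨d, rfl⟩))), rfl⟩
      · intro k
        exact ⟨t' k, Subfield.subset_closure (Or.inl (Or.inl (Or.inr ⟨k, rfl⟩))), rfl⟩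
      · intro j
        exact ⟨x' j ^ b.N, Subfield.subset_closure (Or.inl (Or.inr ⟨j, rfl⟩)), hx j⟩
      · exact ⟨mono x' y' (fun j => (B j).val) (fun j => (A j).val),
          Subfield.subset_closure (Or.inr rfl), hmono⟩
    obtain ⟨m', hm', hme⟩ := h1
    have h2 : m' = i e := Subtype.ext hme
    rw [← h2]
    exact hm'

end UnrG
end

section

/-!
# Gluing
-/

namespace UnrG

universe u v w

open Finset

variable {N : ℕ} {F K : Type u} [Field F] [Field K] [Algebra F K] {r d l : ℕ}

/-- **Gluing**: a term of the main relation and a term of a three term relation with opposite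
exponents are cancelled. Hint: `gY_ne`, `gY_sum`, `gE_sum`, `glue_adjoin`, `glue_prod`
(`Fin.prod_univ_castSucc`), the elements `Y i`, `trip x c` lie in `K₀`. -/
theorem SysD.glue [NegPow F N] [NeZero N] {t : Fin r → K} {Y : Fin (d + 2) → K}
    {e : Fin (d + 2) → ZMod N} {x : Fin (l + 1) → K} {B A : Fin (l + 1) → ZMod N} {w : K}
    {δ : K} {K₀ : IntermediateField F K} (h : SysD N t Y e x B A δ w K₀) (a : Fin (d + 2)) (b : Fin 3)
    (hab : e a + tripE (B (Fin.last l)) (A (Fin.last l)) b = 0) :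
    SysD N t (gY Y (x (Fin.last l)) a b) (gE e (B (Fin.last l)) (A (Fin.last l)) a b)
      (fun j : Fin l => x j.castSucc) (fun j => B j.castSucc) (fun j => A j.castSucc) δ w K₀ := by
  obtain ⟨X, hX⟩ : ∃ X, X = x (Fin.last l) := ⟨_, rfl⟩
  have hX0 : X ≠ 0 := hX ▸ h.x_ne _
  have hX1 : 1 - X ≠ 0 := hX ▸ h.x_ne_one _
  have hxm : ∀ j, x j ∈ K₀ := by
    intro j
    rw [h.K₀_eq]
    exact IntermediateField.subset_adjoin F _ (Or.inr ⟨j, rfl⟩)
  have hXm : X ∈ K₀ := hX ▸ hxm _
  have hTm : ∀ c, trip X c ∈ K₀ := by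
    intro c
    fin_cases c
    · exact hXm
    · exact sub_mem (one_mem K₀) hXm
    · exact neg_mem (one_mem K₀)
  have hN : 0 < N := Nat.pos_of_ne_zero (NeZero.ne N)
  have hK := h.K₀_eq.trans (glue_adjoin (F := F) (t := t) h.Y_ne h.sum_Y h.x_ne h.x_ne_one a b)
  have hw := h.w_pow
  rw [← hX] at hK ⊢
  exact
    { Y_ne := gY_ne h.Y_ne hX0 hX1 a b
      Y_mem := by
        intro i
        refine Fin.addCases (fun i => ?_) (fun c => ?_) i
        · unfold gY
          rw [Fin.append_left]
          exact h.Y_mem _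
        · unfold gY
          rw [Fin.append_right]
          exact mul_mem (neg_mem (div_mem (h.Y_mem a) (hTm b))) (hTm _)
      sum_Y := gY_sum h.sum_Y hX0 hX1 a b
      sum_e := gE_sum h.sum_e hab
      x_ne := fun j => h.x_ne _
      x_ne_one := fun j => h.x_ne_one _
      δ_mem := h.δ_mem
      δ_ne := h.δ_ne
      K₀_eq := hK
      top := h.top
      w_pow := by
        refine hw.trans ?_
        rw [Fin.prod_univ_castSucc (fun j : Fin (l + 1) => x j ^ (B j).val * (1 - x j) ^ (A j).val), ← hX]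
        have h2 := (glue_prod (F := F) (K₀ := K₀) hN h.Y_ne h.Y_mem hXm hX0 hX1 hab).mul
          (ModPow.refl (N := N) (K₀ := K₀)
            (∏ j : Fin l, (x j.castSucc ^ (B j.castSucc).val * (1 - x j.castSucc) ^ (A j.castSucc).val)))
        have h3 : (∏ i, Y i ^ (e i).val) *
            ((∏ j : Fin l, (x j.castSucc ^ (B j.castSucc).val * (1 - x j.castSucc) ^ (A j.castSucc).val)) *
              (X ^ (B (Fin.last l)).val * (1 - X) ^ (A (Fin.last l)).val)) =
            (∏ i, Y i ^ (e i).val) * (X ^ (B (Fin.last l)).val * (1 - X) ^ (A (Fin.last l)).val) *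
              ∏ j : Fin l, (x j.castSucc ^ (B j.castSucc).val * (1 - x j.castSucc) ^ (A j.castSucc).val) := by
          ring
        rw [h3]
        exact (ModPow.refl _).mul h2
      ind := by
        obtain ⟨v, hv⟩ := h.ind
        exact ⟨_, hv.comp (finCongr (by omega : r + (d + 1) + l = r + d + (l + 1))) (Equiv.injective _)⟩ }

/-- Permutation of the three term relations. -/
theorem SysD.perm {t : Fin r → K} {Y : Fin (d + 2) → K}
    {e : Fin (d + 2) → ZMod N} {x : Fin l → K} {B A : Fin l → ZMod N} {w : K}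
    {δ : K} {K₀ : IntermediateField F K} (h : SysD N t Y e x B A δ w K₀) (π : Equiv.Perm (Fin l)) :
    SysD N t Y e (fun j => x (π j)) (fun j => B (π j)) (fun j => A (π j)) δ w K₀ := by
  have hr : Set.range (fun j => x (π j)) = Set.range x := π.surjective.range_comp x
  exact
    { Y_ne := h.Y_ne
      Y_mem := h.Y_mem
      sum_Y := h.sum_Y
      sum_e := h.sum_e
      x_ne := fun j => h.x_ne _
      x_ne_one := fun j => h.x_ne_one _
      δ_mem := h.δ_mem
      δ_ne := h.δ_ne
      K₀_eq := by rw [hr]; exact h.K₀_eq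
      top := h.top
      w_pow := by
        rw [Equiv.prod_comp π (fun j => x j ^ (B j).val * (1 - x j) ^ (A j).val)]
        exact h.w_pow
      ind := h.ind }

end UnrG
end
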