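import Pool.Agent.Lib.MP_859dd5_ag.Mg.G072
import Pool.Agent.Lib.MP_859dd5_ag.EQ.Fun
import Pool.Agent.Lib.MP_859dd5_ag.Mg.G068

section

/-!
# Products of Fermat curves: the Galois group
-/

namespace UnrG

universe u v w

open Polynomial Finset
open scoped Classical

variable {𝔽 : Type w} [Field 𝔽] [Fintype 𝔽] (b : Base 𝔽)

variable {F M : Type u} [Field F] [Field M] [Algebra F M] {r n : ℕ} {t : Fin r → M}
  {u v x y : Fin n → M}

private lemma D2_pow_mem (j : Fin n) : x j ^ b.N ∈ fieldX b F t x :=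
  IntermediateField.subset_adjoin F _ (Or.inr ⟨j, rfl⟩)

private lemma D2_t_mem (i : Fin r) : t i ∈ fieldX b F t x :=
  IntermediateField.subset_adjoin F _ (Or.inl ⟨i, rfl⟩)

private lemma D2_ypow_mem (h : IsFermatFamily b.N (F := F) t u v x y) (j : Fin n) :
    y j ^ b.N ∈ fieldX b F t x := by
  have htle : IntermediateField.adjoin F (Set.range t) ≤ fieldX b F t x := by
    rw [IntermediateField.adjoin_le_iff]
    rintro z ⟨i, rfl⟩
    exact D2_t_mem b i
  have h1 : y j ^ b.N = (1 - u j * x j ^ b.N) / v j := by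
    rw [eq_div_iff (h.right_ne j), ← h.equation j]
    ring
  rw [h1]
  exact div_mem (sub_mem (one_mem _) (mul_mem (htle (h.left_mem j)) (D2_pow_mem b j)))
    (htle (h.right_mem j))

/-- A homomorphism fixing `fieldX` is diagonal. -/
private lemma D2_exp (h : IsFermatFamily b.N (F := F) t u v x y) (ι : 𝔽 →+* F) (f : M →+* M)
    (hf : ∀ z ∈ fieldX b F t x, f z = z) :
    ∃ a c : Fin n → ZMod b.N, (∀ j, f (x j) = algebraMap F M (ι b.ζ) ^ (a j).val * x j) ∧
      ∀ j, f (y j) = algebraMap F M (ι b.ζ) ^ (c j).val * y j := by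
  have hζ : IsPrimitiveRoot (algebraMap F M (ι b.ζ)) b.N :=
    b.hζ_map ((algebraMap F M).comp ι)
  have key : ∀ z : M, z ≠ 0 → z ^ b.N ∈ fieldX b F t x →
      ∃ k : ZMod b.N, f z = algebraMap F M (ι b.ζ) ^ k.val * z := by
    intro z hz hzm
    have h1 : (f z / z) ^ b.N = 1 := by
      rw [div_pow, ← map_pow, hf _ hzm, div_self]
      exact pow_ne_zero _ hz
    have : NeZero b.N := ⟨b.N_pos.ne'⟩
    obtain ⟨k, hk, hk'⟩ := hζ.eq_pow_of_pow_eq_one h1
    refine ⟨(k : ZMod b.N), ?_⟩
    rw [ZMod.val_natCast, Nat.mod_eq_of_lt hk, hk', div_mul_cancel₀ _ hz]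
  choose a ha using fun j => key (x j) (h.ne b j).1 (D2_pow_mem b j)
  choose c hc using fun j => key (y j) (h.ne b j).2 (D2_ypow_mem b h j)
  exact ⟨a, c, ha, hc⟩

/-- Two homomorphisms which agree on the generators are equal. -/
private lemma D2_unique (h : IsFermatFamily b.N (F := F) t u v x y) (f g : M →+* M)
    (hF : ∀ a : F, f (algebraMap F M a) = g (algebraMap F M a)) (ht : ∀ i, f (t i) = g (t i))
    (hx : ∀ j, f (x j) = g (x j)) (hy : ∀ j, f (y j) = g (y j)) : f = g := by
  ext z
  have hz : z ∈ IntermediateField.adjoin F (Set.range t ∪ Set.range x ∪ Set.range y) := by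
    rw [h.generate]
    exact IntermediateField.mem_top
  induction hz using IntermediateField.adjoin_induction with
  | mem z hz =>
    rcases hz with (⟨i, rfl⟩ | ⟨i, rfl⟩) | ⟨i, rfl⟩
    · exact ht i
    · exact hx i
    · exact hy i
  | algebraMap a => exact hF a
  | add u v _ _ hu hv => rw [map_add, map_add, hu, hv]
  | inv u _ hu => rw [map_inv₀, map_inv₀, hu]
  | mul u v _ _ hu hv => rw [map_mul, map_mul, hu, hv]

private lemma D2_split (h : IsFermatFamily b.N (F := F) t u v x y) (ι : 𝔽 →+* F) (T : IntermediateField F M)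
    (hT : fieldX b F t x ≤ T) :
    ∃ p : T[X], p.IsSplittingField T M ∧ Algebra.IsSeparable T M := by
  have hζ : IsPrimitiveRoot (algebraMap F M (ι b.ζ)) b.N :=
    b.hζ_map ((algebraMap F M).comp ι)
  have hTne : ((b.N : ℕ) : T) ≠ 0 := b.N_ne ((algebraMap F T).comp ι)
  obtain ⟨s, hs⟩ : ∃ s : Fin n ⊕ Fin n → M, s = Sum.elim x y := ⟨_, rfl⟩
  have hs0 : ∀ i, s i ≠ 0 := by
    intro i
    rw [hs]
    rcases i with i | i
    · exact (h.ne b i).1
    · exact (h.ne b i).2
  have hsm : ∀ i, s i ^ b.N ∈ fieldX b F t x := by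
    intro i
    rw [hs]
    rcases i with i | i
    · exact D2_pow_mem b i
    · exact D2_ypow_mem b h i
  obtain ⟨u, hu⟩ : ∃ u : Fin n ⊕ Fin n → T, ∀ i, algebraMap T M (u i) = s i ^ b.N :=
    ⟨fun i => ⟨s i ^ b.N, hT (hsm i)⟩, fun i => rfl⟩
  have hu0 : ∀ i, u i ≠ 0 := by
    intro i h0
    have h1 := hu i
    rw [h0, map_zero] at h1
    exact pow_ne_zero _ (hs0 i) h1.symm
  have htop : IntermediateField.adjoin T (Set.range s) = ⊤ := by
    rw [eq_top_iff]
    have h1 : (IntermediateField.adjoin F (Set.range t ∪ Set.range x ∪ Set.range y)) ≤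
        (IntermediateField.adjoin T (Set.range s)).restrictScalars F := by
      rw [IntermediateField.adjoin_le_iff]
      rintro z ((⟨i, rfl⟩ | ⟨i, rfl⟩) | ⟨i, rfl⟩)
      · exact (IntermediateField.adjoin T (Set.range s)).algebraMap_mem
          ⟨t i, hT (D2_t_mem b i)⟩
      · exact IntermediateField.subset_adjoin T _ ⟨Sum.inl i, by rw [hs]; rfl⟩
      · exact IntermediateField.subset_adjoin T _ ⟨Sum.inr i, by rw [hs]; rfl⟩
    rw [h.generate] at h1
    intro z _
    exact h1 (IntermediateField.mem_top)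
  have hroot : ∀ i, aeval (s i) (X ^ b.N - C (u i) : T[X]) = 0 := by
    intro i
    rw [map_sub, map_pow, aeval_X, aeval_C, hu, sub_self]
  have hint : ∀ i, IsIntegral T (s i) := fun i =>
    ⟨X ^ b.N - C (u i), monic_X_pow_sub_C _ b.N_pos.ne', by rw [← aeval_def]; exact hroot i⟩
  have hsep : ∀ i, IsSeparable T (s i) := by
    intro i
    have h1 : (X ^ b.N - C (u i) : T[X]).Separable :=
      separable_X_pow_sub_C _ hTne (hu0 i)
    exact h1.of_dvd (minpoly.dvd _ _ (hroot i))
  refine ⟨∏ i, (X ^ b.N - C (u i)), ⟨?_, ?_⟩, ?_⟩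
  · rw [Polynomial.map_prod]
    refine Splits.prod fun i _ => ?_
    rw [Polynomial.map_sub, Polynomial.map_pow, map_X, map_C, hu]
    exact X_pow_sub_C_splits_of_isPrimitiveRoot hζ rfl
  · rw [← top_le_iff]
    have h2 := congrArg IntermediateField.toSubalgebra htop
    rw [IntermediateField.adjoin_toSubalgebra_of_isAlgebraic
      (fun z hz => by obtain ⟨i, rfl⟩ := hz; exact (hint i).isAlgebraic),
      IntermediateField.top_toSubalgebra] at h2
    rw [← h2]
    apply Algebra.adjoin_mono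
    rintro z ⟨i, rfl⟩
    have h0 : (∏ i, (X ^ b.N - C (u i)) : T[X]) ≠ 0 :=
      Finset.prod_ne_zero_iff.mpr fun i _ => (monic_X_pow_sub_C _ b.N_pos.ne').ne_zero
    rw [mem_rootSet]
    refine ⟨h0, ?_⟩
    rw [map_prod]
    exact Finset.prod_eq_zero (Finset.mem_univ i) (hroot i)
  · have h1 : Algebra.IsSeparable T (IntermediateField.adjoin T (Set.range s)) :=
      (IntermediateField.isSeparable_adjoin_iff_isSeparable T M).mpr
        (fun z hz => by obtain ⟨i, rfl⟩ := hz; exact hsep i)
    rw [htop] at h1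
    exact Algebra.IsSeparable.of_algHom T (⊤ : IntermediateField T M)
      (IntermediateField.topEquiv (F := T) (E := M)).symm.toAlgHom

/-- Hint: `M` is generated over `T` by the roots `x_j`, `y_j` of `X ^ N - x_j ^ N`, `X ^ N - y_j ^ N`,
which are separable and split (`ι ζ ∈ F`); as `galois_fieldT` in K/D3. -/
theorem IsFermatFamily.galois (h : IsFermatFamily b.N (F := F) t u v x y) (ι : 𝔽 →+* F)
    (T : IntermediateField F M) (hT : fieldX b F t x ≤ T) :
    FiniteDimensional T M ∧ IsGalois T M ∧ Module.finrank T M ≤ b.N ^ (2 * n) := by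
  obtain ⟨p, hp, hs⟩ := D2_split b h ι T hT
  have hfd : FiniteDimensional T M := hp.finiteDimensional (K := T) (L := M) p
  have hno : Normal T M := Normal.of_isSplittingField p
  have hG : IsGalois T M := ⟨⟩
  refine ⟨hfd, hG, ?_⟩
  rw [← IsGalois.card_aut_eq_finrank]
  have hfix : ∀ g : M ≃ₐ[T] M, ∀ z ∈ fieldX b F t x, (g : M →+* M) z = z := fun g z hz =>
    g.commutes ⟨z, hT hz⟩
  choose a c ha hc using fun g : M ≃ₐ[T] M => D2_exp b h ι (g : M →+* M) (hfix g)
  have hinj : Function.Injective (fun g : M ≃ₐ[T] M => (a g, c g)) := by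
    intro g g' hgg
    have h1 : a g = a g' := congrArg Prod.fst hgg
    have h1' : c g = c g' := congrArg Prod.snd hgg
    have h2 : (g : M →+* M) = (g' : M →+* M) := by
      refine D2_unique b h _ _ (fun z => ?_) (fun i => ?_) (fun j => ?_) (fun j => ?_)
      · rw [hfix g _ ((fieldX b F t x).algebraMap_mem z), hfix g' _ ((fieldX b F t x).algebraMap_mem z)]
      · rw [hfix g _ (D2_t_mem b i), hfix g' _ (D2_t_mem b i)]
      · rw [ha g j, ha g' j, h1]
      · rw [hc g j, hc g' j, h1']
    exact AlgEquiv.ext fun z => RingHom.congr_fun h2 z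
  have : NeZero b.N := ⟨b.N_pos.ne'⟩
  have h1 := Nat.card_le_card_of_injective _ hinj
  rw [Nat.card_prod, Nat.card_eq_fintype_card (α := Fin n → ZMod b.N), Fintype.card_fun, ZMod.card,
    Fintype.card_fin] at h1
  rw [two_mul, pow_add]
  exact h1

/-- Every automorphism over `fieldX` is diagonal. -/
theorem IsFermatFamily.exists_exp (h : IsFermatFamily b.N (F := F) t u v x y) (ι : 𝔽 →+* F)
    (g : M ≃ₐ[fieldX b F t x] M) :
    ∃ a c : Fin n → ZMod b.N, (∀ j, g (x j) = algebraMap F M (ι b.ζ) ^ (a j).val * x j) ∧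
      ∀ j, g (y j) = algebraMap F M (ι b.ζ) ^ (c j).val * y j :=
  D2_exp b h ι (g : M →+* M) (fun z hz => g.commutes ⟨z, hz⟩)

/-- Hint: `g` fixes the monomial iff `ζ ^ (∑ ...) = 1` (the monomial is not zero, `ProdData.ne`), iff
the exponent is `0` mod `N`. -/
theorem IsFermatFamily.fix_mono_iff (h : IsFermatFamily b.N (F := F) t u v x y) (ι : 𝔽 →+* F) {g : M →+* M}
    {a c : Fin n → ZMod b.N} (h1 : ∀ j, g (x j) = algebraMap F M (ι b.ζ) ^ (a j).val * x j)
    (h2 : ∀ j, g (y j) = algebraMap F M (ι b.ζ) ^ (c j).val * y j) (B A : Fin n → ZMod b.N) :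
    g (mono x y (fun j => (B j).val) (fun j => (A j).val)) =
        mono x y (fun j => (B j).val) (fun j => (A j).val) ↔
      ∑ j, (B j * a j + A j * c j) = 0 := by
  have : NeZero b.N := ⟨b.N_pos.ne'⟩
  have hζ : IsPrimitiveRoot (algebraMap F M (ι b.ζ)) b.N :=
    b.hζ_map ((algebraMap F M).comp ι)
  have hne : mono x y (fun j => (B j).val) (fun j => (A j).val) ≠ 0 := by
    unfold mono
    exact Finset.prod_ne_zero_iff.mpr fun j _ =>
      mul_ne_zero (pow_ne_zero _ (h.ne b j).1) (pow_ne_zero _ (h.ne b j).2)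
  have hg : g (mono x y (fun j => (B j).val) (fun j => (A j).val)) =
      algebraMap F M (ι b.ζ) ^ (∑ j, ((B j).val * (a j).val + (A j).val * (c j).val)) *
        mono x y (fun j => (B j).val) (fun j => (A j).val) := by
    unfold mono
    rw [map_prod, ← Finset.prod_pow_eq_pow_sum, ← Finset.prod_mul_distrib]
    refine Finset.prod_congr rfl fun j _ => ?_
    rw [map_mul, map_pow, map_pow, h1, h2, mul_pow, mul_pow, ← pow_mul, ← pow_mul, pow_add,
      mul_comm (a j).val, mul_comm (c j).val]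
    ring
  rw [hg]
  have h3 : algebraMap F M (ι b.ζ) ^ (∑ j, ((B j).val * (a j).val + (A j).val * (c j).val)) *
        mono x y (fun j => (B j).val) (fun j => (A j).val) =
        mono x y (fun j => (B j).val) (fun j => (A j).val) ↔
      algebraMap F M (ι b.ζ) ^ (∑ j, ((B j).val * (a j).val + (A j).val * (c j).val)) = 1 := by
    constructor
    · intro h4
      exact mul_right_cancel₀ hne (h4.trans (one_mul _).symm)
    · intro h4
      rw [h4, one_mul]
  rw [h3, hζ.pow_eq_one_iff_dvd, ← ZMod.natCast_eq_zero_iff]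
  push_cast
  simp only [ZMod.natCast_zmod_val]

/-- Hint: both sides agree on `F`, `t`, `x`, `y` (`h.gen`), since `(ι ζ) ^ q = ι ζ`. -/
theorem IsFermatFamily.comm (h : IsFermatFamily b.N (F := F) t u v x y) (ι : 𝔽 →+* F) {σ : M →+* M}
    (hσ : ProdFrob b.q F t x y σ) {T : IntermediateField F M} (hT : fieldX b F t x ≤ T)
    (g : M ≃ₐ[T] M) : σ.comp (g : M →+* M) = (g : M →+* M).comp σ := by
  have hfix : ∀ z ∈ fieldX b F t x, (g : M →+* M) z = z := fun z hz => g.commutes ⟨z, hT hz⟩
  obtain ⟨a, c, ha, hc⟩ := D2_exp b h ι (g : M →+* M) hfix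
  have hζ : σ (algebraMap F M (ι b.ζ)) = algebraMap F M (ι b.ζ) := by
    rw [hσ.const, ← map_pow, ← map_pow, b.pow_q]
  refine D2_unique b h _ _ (fun z => ?_) (fun i => ?_) (fun j => ?_) (fun j => ?_)
  · rw [RingHom.comp_apply, RingHom.comp_apply, hfix _ ((fieldX b F t x).algebraMap_mem z),
      hσ.const, map_pow, hfix _ ((fieldX b F t x).algebraMap_mem z)]
  · rw [RingHom.comp_apply, RingHom.comp_apply, hfix _ (D2_t_mem b i), hσ.ft, hfix _ (D2_t_mem b i)]
  · rw [RingHom.comp_apply, RingHom.comp_apply, hσ.fx, ha, map_mul, map_pow, hσ.fx, hζ]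
  · rw [RingHom.comp_apply, RingHom.comp_apply, hσ.fy, hc, map_mul, map_pow, hσ.fy, hζ]

end UnrG
end

section

/-!
# A relation between sums of conjugates
-/

namespace UnrA.Fer

open UnrG

universe u v w z

open Polynomial Finset
open scoped Classical

variable {m : UFun.{u, z}} {𝔽 : Type w} [Field 𝔽] [Fintype 𝔽] (b : Base 𝔽)

/-- A relation between the sums of the conjugates. Proof: for `g` in the Galois group `G` of `M` over
`fieldX` with exponents `a`, `c` (`ProdData.exists_exp`): `g` fixes `fieldG B A` iff it fixes the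
monomial iff `∑ (B a + A c) = 0` (`fix_mono_iff`), so by `card_solutions` the number of `(B, A)` such
that `g` fixes `fieldG B A` is `N ^ (2 n)` for `g = 1` and `N ^ (2 n - 1)` otherwise (`M` is generated
by `t`, `x`, `y`, so `g = 1` iff `a = c = 0`). The automorphisms over `fieldG B A` are the elements of `G`
fixing it (as in PF/G4b). Exchange the order of summation. -/
theorem family_sum_fieldG (hN : b.N.Prime) {F M : Type u} [Field F] [Field M] [Algebra F M]
    {r n : ℕ} {t : Fin r → M} {u v x y : Fin n → M} (h : IsFermatFamily b.N (F := F) t u v x y) (ι : 𝔽 →+* F)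
    (ξ : KM m M) [Fintype (M ≃ₐ[fieldX b F t x] M)]
    [∀ B A, Fintype (M ≃ₐ[fieldG b F t x y B A] M)] :
    b.N • ∑ γ : (Fin n → ZMod b.N) × (Fin n → ZMod b.N),
        ∑ g : M ≃ₐ[fieldG b F t x y γ.1 γ.2] M, KM.map m (g : M →+* M) ξ =
      (b.N ^ (2 * n) * (b.N - 1)) • ξ +
        b.N ^ (2 * n) • ∑ g : M ≃ₐ[fieldX b F t x] M, KM.map m (g : M →+* M) ξ := by
  have hNp : Fact b.N.Prime := ⟨hN⟩
  have hζ : IsPrimitiveRoot (algebraMap F M (ι b.ζ)) b.N :=
    b.hζ_map ((algebraMap F M).comp ι)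
  have hle : ∀ B A : Fin n → ZMod b.N, fieldX b F t x ≤ fieldG b F t x y B A := fun B A =>
    IntermediateField.adjoin.mono _ _ _ Set.subset_union_left
  obtain ⟨Y, hY⟩ : ∃ Y : (Fin n → ZMod b.N) × (Fin n → ZMod b.N) → M,
      ∀ γ, Y γ = mono x y (fun j => (γ.1 j).val) (fun j => (γ.2 j).val) := ⟨_, fun _ => rfl⟩
  have hinner : ∀ γ : (Fin n → ZMod b.N) × (Fin n → ZMod b.N),
      ∑ g : M ≃ₐ[fieldG b F t x y γ.1 γ.2] M, KM.map m (g : M →+* M) ξ =
      ∑ g ∈ univ.filter (fun g : M ≃ₐ[fieldX b F t x] M => g (Y γ) = Y γ),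
        KM.map m (g : M →+* M) ξ := by
    intro γ
    let _ : Algebra (fieldX b F t x) (fieldG b F t x y γ.1 γ.2) :=
      (IntermediateField.inclusion (hle γ.1 γ.2)).toRingHom.toAlgebra
    have : IsScalarTower (fieldX b F t x) (fieldG b F t x y γ.1 γ.2) M :=
      IsScalarTower.of_algebraMap_eq fun x => rfl
    have hYm : Y γ ∈ fieldG b F t x y γ.1 γ.2 := by
      rw [hY]
      exact IntermediateField.subset_adjoin F _ (Or.inr rfl)
    refine Finset.sum_bij (fun g _ => g.restrictScalars (fieldX b F t x)) ?_ ?_ ?_ ?_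
    · intro g _
      rw [mem_filter]
      exact ⟨mem_univ _, g.commutes ⟨Y γ, hYm⟩⟩
    · intro g _ g' _ h3
      refine AlgEquiv.ext fun x => ?_
      exact DFunLike.congr_fun h3 x
    · intro g hg
      rw [mem_filter] at hg
      obtain ⟨S, hS⟩ : ∃ S : IntermediateField F M, ∀ x, x ∈ S ↔ g x = x :=
        ⟨{ carrier := {x | g x = x}
           mul_mem' := fun {x y} hx hy => by
             change g (x * y) = x * y
             rw [map_mul, show g x = x from hx, show g y = y from hy]
           add_mem' := fun {x y} hx hy => by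
             change g (x + y) = x + y
             rw [map_add, show g x = x from hx, show g y = y from hy]
           algebraMap_mem' := fun c => g.commutes (algebraMap F (fieldX b F t x) c)
           inv_mem' := fun x hx => by
             change g x⁻¹ = x⁻¹
             rw [map_inv₀, show g x = x from hx] }, fun x => Iff.rfl⟩
      have hS' : fieldG b F t x y γ.1 γ.2 ≤ S := by
        unfold fieldG
        rw [IntermediateField.adjoin_le_iff]
        rintro z (hz | hz)
        · exact (hS z).2 (g.commutes ⟨z, IntermediateField.subset_adjoin F _ hz⟩)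
        · rw [Set.mem_singleton_iff] at hz
          have h5 := (hS _).2 hg.2
          rw [hY] at h5
          rw [hz]
          exact h5
      refine ⟨{ (g : M ≃+* M) with commutes' := fun x => (hS _).mp (hS' x.2) }, mem_univ _, ?_⟩
      exact AlgEquiv.ext fun x => rfl
    · intro g _
      rfl
  have hcount : ∀ g : M ≃ₐ[fieldX b F t x] M,
      (univ.filter fun γ : (Fin n → ZMod b.N) × (Fin n → ZMod b.N) => g (Y γ) = Y γ).card * b.N =
        if g = 1 then b.N ^ (2 * n) * b.N else b.N ^ (2 * n) := by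
    intro g
    obtain ⟨a, c, ha, hc⟩ := h.exists_exp b ι g
    have h1 : (univ.filter fun γ : (Fin n → ZMod b.N) × (Fin n → ZMod b.N) =>
        g (Y γ) = Y γ) = univ.filter fun γ : (Fin n → ZMod b.N) × (Fin n → ZMod b.N) =>
        ∑ j, (γ.1 j * a j + γ.2 j * c j) = 0 := by
      refine Finset.filter_congr fun γ _ => ?_
      rw [hY γ]
      exact IsFermatFamily.fix_mono_iff b h ι (g := (g : M →+* M)) ha hc γ.1 γ.2
    rw [h1, card_solutions a c]
    refine if_congr ?_ rfl rfl
    constructor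
    · rintro ⟨ha0, hc0⟩
      obtain ⟨S, hS⟩ : ∃ S : IntermediateField F M, ∀ x, x ∈ S ↔ g x = x :=
        ⟨{ carrier := {x | g x = x}
           mul_mem' := fun {x y} hx hy => by
             change g (x * y) = x * y
             rw [map_mul, show g x = x from hx, show g y = y from hy]
           add_mem' := fun {x y} hx hy => by
             change g (x + y) = x + y
             rw [map_add, show g x = x from hx, show g y = y from hy]
           algebraMap_mem' := fun c => g.commutes (algebraMap F (fieldX b F t x) c)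
           inv_mem' := fun x hx => by
             change g x⁻¹ = x⁻¹
             rw [map_inv₀, show g x = x from hx] }, fun x => Iff.rfl⟩
      have hS' : (⊤ : IntermediateField F M) ≤ S := by
        rw [← h.generate, IntermediateField.adjoin_le_iff]
        rintro z ((⟨i, rfl⟩ | ⟨j, rfl⟩) | ⟨j, rfl⟩)
        · exact (hS _).2 (g.commutes ⟨t i, IntermediateField.subset_adjoin F _ (Or.inl ⟨i, rfl⟩)⟩)
        · refine (hS _).2 ?_
          rw [ha j, ha0]
          simp
        · refine (hS _).2 ?_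
          rw [hc j, hc0]
          simp
      refine AlgEquiv.ext fun z => ?_
      exact (hS z).1 (hS' (IntermediateField.mem_top))
    · rintro rfl
      have key : ∀ (k : ZMod b.N) (z : M), z ≠ 0 →
          z = algebraMap F M (ι b.ζ) ^ k.val * z → k = 0 := by
        intro k z hz hk
        have h2 : algebraMap F M (ι b.ζ) ^ k.val = 1 := by
          have h3 : algebraMap F M (ι b.ζ) ^ k.val * z = 1 * z := by
            rw [one_mul]
            exact hk.symm
          exact mul_right_cancel₀ hz h3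
        have h4 := (hζ.pow_eq_one_iff_dvd _).1 h2
        have h5 := Nat.eq_zero_of_dvd_of_lt h4 (ZMod.val_lt k)
        exact (ZMod.val_eq_zero k).1 h5
      constructor
      · funext j
        exact key (a j) (x j) (h.ne b j).1 (ha j)
      · funext j
        exact key (c j) (y j) (h.ne b j).2 (hc j)
  have hswap : ∑ γ : (Fin n → ZMod b.N) × (Fin n → ZMod b.N),
      ∑ g ∈ univ.filter (fun g : M ≃ₐ[fieldX b F t x] M => g (Y γ) = Y γ),
        KM.map m (g : M →+* M) ξ =
      ∑ g : M ≃ₐ[fieldX b F t x] M, ∑ γ ∈ univ.filter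
        (fun γ : (Fin n → ZMod b.N) × (Fin n → ZMod b.N) => g (Y γ) = Y γ),
        KM.map m (g : M →+* M) ξ := by
    refine Finset.sum_comm' fun γ g => ?_
    simp only [mem_filter, mem_univ, true_and, and_true]
  rw [Finset.sum_congr rfl fun γ _ => hinner γ, hswap, Finset.smul_sum, Finset.smul_sum]
  have hterm : ∀ g : M ≃ₐ[fieldX b F t x] M,
      b.N • ∑ γ ∈ univ.filter (fun γ : (Fin n → ZMod b.N) × (Fin n → ZMod b.N) => g (Y γ) = Y γ),
        KM.map m (g : M →+* M) ξ =
      (if g = 1 then (b.N ^ (2 * n) * (b.N - 1)) • ξ else 0) +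
        b.N ^ (2 * n) • KM.map m (g : M →+* M) ξ := by
    intro g
    rw [Finset.sum_const, ← mul_nsmul, hcount g]
    by_cases hg : g = 1
    · rw [if_pos hg, if_pos hg, hg]
      have h1 : KM.map m ((1 : M ≃ₐ[fieldX b F t x] M) : M →+* M) ξ = ξ := by
        have h5 : ((1 : M ≃ₐ[fieldX b F t x] M) : M →+* M) = RingHom.id M := rfl
        rw [h5, KM.map_id]
        rfl
      rw [h1, ← add_smul]
      congr 1
      have h2 := hN.two_le
      obtain ⟨k, hk⟩ : ∃ k, b.N = k + 1 := ⟨b.N - 1, by omega⟩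
      have h3 : b.N - 1 = k := by omega
      rw [h3]
      calc b.N ^ (2 * n) * b.N = b.N ^ (2 * n) * (k + 1) := by rw [← hk]
        _ = b.N ^ (2 * n) * k + b.N ^ (2 * n) := by ring
    · rw [if_neg hg, if_neg hg, zero_add]
  rw [Finset.sum_congr rfl fun g _ => hterm g, Finset.sum_add_distrib, Finset.sum_ite_eq',
    if_pos (mem_univ _)]

end UnrA.Fer
end

section

/-!
# Irrelevant exponents
-/

namespace UnrA.Fer

open UnrG

universe u v w z

open Polynomial Finset
open scoped Classical

variable {m : UFun.{u, z}} {𝔽 : Type w} [Field 𝔽] [Fintype 𝔽] (b : Base 𝔽)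

/-- The automorphisms over the monomial subfield are those fixing the monomial. -/
theorem sum_fieldG_inner {F M : Type u} [Field F] [Field M] [Algebra F M]
    {r n : ℕ} {t : Fin r → M} {x y : Fin n → M} (ξ : KM m M)
    [Fintype (M ≃ₐ[fieldX b F t x] M)] (B A : Fin n → ZMod b.N)
    [Fintype (M ≃ₐ[fieldG b F t x y B A] M)] :
    ∑ g : M ≃ₐ[fieldG b F t x y B A] M, KM.map m (g : M →+* M) ξ =
      ∑ g ∈ univ.filter (fun g : M ≃ₐ[fieldX b F t x] M =>
        g (mono x y (fun j => (B j).val) (fun j => (A j).val)) =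
          mono x y (fun j => (B j).val) (fun j => (A j).val)),
        KM.map m (g : M →+* M) ξ := by
  have hle : fieldX b F t x ≤ fieldG b F t x y B A :=
    IntermediateField.adjoin.mono _ _ _ Set.subset_union_left
  let _ : Algebra (fieldX b F t x) (fieldG b F t x y B A) :=
    (IntermediateField.inclusion hle).toRingHom.toAlgebra
  have : IsScalarTower (fieldX b F t x) (fieldG b F t x y B A) M :=
    IsScalarTower.of_algebraMap_eq fun x => rfl
  have hYm : mono x y (fun j => (B j).val) (fun j => (A j).val) ∈ fieldG b F t x y B A :=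
    IntermediateField.subset_adjoin F _ (Or.inr rfl)
  refine Finset.sum_bij (fun g _ => g.restrictScalars (fieldX b F t x)) ?_ ?_ ?_ ?_
  · intro g _
    rw [mem_filter]
    exact ⟨mem_univ _, g.commutes ⟨_, hYm⟩⟩
  · intro g _ g' _ h3
    refine AlgEquiv.ext fun x => ?_
    exact DFunLike.congr_fun h3 x
  · intro g hg
    rw [mem_filter] at hg
    obtain ⟨S, hS⟩ : ∃ S : IntermediateField F M, ∀ x, x ∈ S ↔ g x = x :=
      ⟨{ carrier := {x | g x = x}
         mul_mem' := fun {x y} hx hy => by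
           change g (x * y) = x * y
           rw [map_mul, show g x = x from hx, show g y = y from hy]
         add_mem' := fun {x y} hx hy => by
           change g (x + y) = x + y
           rw [map_add, show g x = x from hx, show g y = y from hy]
         algebraMap_mem' := fun c => g.commutes (algebraMap F (fieldX b F t x) c)
         inv_mem' := fun x hx => by
           change g x⁻¹ = x⁻¹
           rw [map_inv₀, show g x = x from hx] }, fun x => Iff.rfl⟩
    have hS' : fieldG b F t x y B A ≤ S := by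
      unfold fieldG
      rw [IntermediateField.adjoin_le_iff]
      rintro z (hz | hz)
      · exact (hS z).2 (g.commutes ⟨z, IntermediateField.subset_adjoin F _ hz⟩)
      · rw [Set.mem_singleton_iff] at hz
        rw [hz]
        exact (hS _).2 hg.2
    refine ⟨{ (g : M ≃+* M) with commutes' := fun x => (hS _).mp (hS' x.2) }, mem_univ _, ?_⟩
    exact AlgEquiv.ext fun x => rfl
  · intro g _
    rfl

private lemma D3b_pow_congr {M : Type u} [Field M] {ζ : M} {N : ℕ} (hζ : ζ ^ N = 1) {i j : ℕ}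
    (h : (i : ZMod N) = j) : ζ ^ i = ζ ^ j := by
  have h1 : i % N = j % N := (ZMod.natCast_eq_natCast_iff _ _ _).1 h
  rw [← Nat.mod_add_div i N, ← Nat.mod_add_div j N, pow_add, pow_add, pow_mul, pow_mul, hζ,
    one_pow, one_pow, h1]

private lemma D3b_sum {F M : Type u} [Field F] [Field M] [Algebra F M]
    {T : IntermediateField F M} [Fintype (M ≃ₐ[T] M)] (g₀ : M ≃ₐ[T] M) (ξ : KM m M)
    (hξ : KM.map m (g₀ : M →+* M) ξ = ξ) (Y : M) (n : ℕ)
    (hone : ∀ g : M ≃ₐ[T] M, ((range n).filter fun i => (g * g₀ ^ i) Y = Y).card = 1) :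
    ∑ g : M ≃ₐ[T] M, KM.map m (g : M →+* M) ξ =
      n • ∑ g ∈ univ.filter (fun g : M ≃ₐ[T] M => g Y = Y), KM.map m (g : M →+* M) ξ := by
  have hg₀ξ : ∀ i : ℕ, KM.map m ((g₀ ^ i : M ≃ₐ[T] M) : M →+* M) ξ = ξ := by
    intro i
    induction i with
    | zero =>
      have h5 : ((g₀ ^ 0 : M ≃ₐ[T] M) : M →+* M) = RingHom.id M := rfl
      rw [h5, KM.map_id]
      rfl
    | succ i ih =>
      have h5 : ((g₀ ^ (i + 1) : M ≃ₐ[T] M) : M →+* M) =
          ((g₀ ^ i : M ≃ₐ[T] M) : M →+* M).comp (g₀ : M →+* M) := by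
        ext z
        rw [pow_succ]
        rfl
      rw [h5, ← KM.map_map, hξ, ih]
  calc ∑ g : M ≃ₐ[T] M, KM.map m (g : M →+* M) ξ =
      ∑ g : M ≃ₐ[T] M, ∑ _i ∈ (range n).filter fun i => (g * g₀ ^ i) Y = Y,
        KM.map m (g : M →+* M) ξ := by
        refine Finset.sum_congr rfl fun g _ => ?_
        rw [Finset.sum_const, hone g, one_nsmul]
    _ = ∑ i ∈ range n, ∑ g ∈ univ.filter (fun g : M ≃ₐ[T] M =>
        (g * g₀ ^ i) Y = Y), KM.map m (g : M →+* M) ξ := by
        refine Finset.sum_comm' fun g i => ?_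
        simp only [mem_filter, mem_univ, true_and, and_comm]
    _ = ∑ _i ∈ range n, ∑ g ∈ univ.filter (fun g : M ≃ₐ[T] M => g Y = Y),
        KM.map m (g : M →+* M) ξ := by
        refine Finset.sum_congr rfl fun i _ => ?_
        refine Finset.sum_bij (fun g _ => g * g₀ ^ i) ?_ ?_ ?_ ?_
        · intro g hg
          rw [mem_filter] at hg ⊢
          exact ⟨mem_univ _, hg.2⟩
        · intro g _ g' _ h3
          exact mul_right_cancel h3
        · intro g hg
          rw [mem_filter] at hg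
          refine ⟨g * (g₀ ^ i)⁻¹, ?_, by rw [inv_mul_cancel_right]⟩
          rw [mem_filter, inv_mul_cancel_right]
          exact ⟨mem_univ _, hg.2⟩
        · intro g _
          have h5 : ((g * g₀ ^ i : M ≃ₐ[T] M) : M →+* M) =
              (g : M →+* M).comp ((g₀ ^ i : M ≃ₐ[T] M) : M →+* M) := rfl
          rw [h5, ← KM.map_map, hg₀ξ]
    _ = _ := by
        rw [Finset.sum_const, card_range]

private lemma D3b_exists {F M : Type u} [Field F] [Field M] [Algebra F M]
    {T : IntermediateField F M} [FiniteDimensional T M] {f : M →+* M}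
    (hf : ∀ z ∈ T, f z = z) : ∃ g₀ : M ≃ₐ[T] M, ∀ z, g₀ z = f z := by
  obtain ⟨φ, hφ⟩ : ∃ φ : M →ₐ[T] M, ∀ z, φ z = f z :=
    ⟨{ f with commutes' := fun z => hf _ z.2 }, fun z => rfl⟩
  exact ⟨AlgEquiv.ofBijective φ (Algebra.IsAlgebraic.algHom_bijective φ), fun z => hφ z⟩

private lemma D3b_pow {F M : Type u} [Field F] [Field M] [Algebra F M]
    {T : IntermediateField F M} {g g₀ : M ≃ₐ[T] M} {ζ x : M} (hζ : ∀ g : M ≃ₐ[T] M, g ζ = ζ)
    {a a' : ℕ} (h0 : g₀ x = ζ ^ a * x) (h1 : g x = ζ ^ a' * x) (i : ℕ) :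
    (g * g₀ ^ i) x = ζ ^ (a' + i * a) * x := by
  have h2 : (g₀ ^ i) x = ζ ^ (i * a) * x := by
    induction i with
    | zero =>
      rw [zero_mul, pow_zero, pow_zero, one_mul]
      rfl
    | succ i ih =>
      rw [pow_succ, AlgEquiv.mul_apply, h0, map_mul, map_pow, hζ, ih, ← mul_assoc, ← pow_add]
      congr 2
      ring
  rw [AlgEquiv.mul_apply, h2, map_mul, map_pow, hζ, h1, ← mul_assoc, ← pow_add]
  congr 2
  ring

private lemma D3b_fixed {F M : Type u} [Field F] [Field M] [Algebra F M]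
    {f : M →+* M} (hf : ∀ z : F, f (algebraMap F M z) = algebraMap F M z) :
    ∃ S : IntermediateField F M, ∀ x, x ∈ S ↔ f x = x :=
  ⟨{ carrier := {x | f x = x}
     mul_mem' := fun {x y} hx hy => by
       change f (x * y) = x * y
       rw [map_mul, show f x = x from hx, show f y = y from hy]
     add_mem' := fun {x y} hx hy => by
       change f (x + y) = x + y
       rw [map_add, show f x = x from hx, show f y = y from hy]
     algebraMap_mem' := fun c => hf c
     inv_mem' := fun x hx => by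
       change f x⁻¹ = x⁻¹
       rw [map_inv₀, show f x = x from hx] }, fun x => Iff.rfl⟩

private lemma D3b_card {N : ℕ} [Fact N.Prime] {k s : ZMod N} (hne : s ≠ 0) {P : ℕ → Prop}
    (h : ∀ i, P i ↔ k + i * s = 0) : ((range N).filter P).card = 1 := by
  rw [Finset.card_eq_one]
  refine ⟨(-k / s).val, ?_⟩
  ext i
  rw [mem_filter, mem_range, mem_singleton, h]
  constructor
  · rintro ⟨hi, hi'⟩
    have h6 : (i : ZMod N) = -k / s := by
      rw [eq_div_iff hne]
      linear_combination hi'
    rw [← h6, ZMod.val_natCast, Nat.mod_eq_of_lt hi]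
  · rintro rfl
    refine ⟨ZMod.val_lt _, ?_⟩
    rw [ZMod.natCast_zmod_val, div_mul_cancel₀ _ hne]
    ring

/-- If a diagonal automorphism fixing the class acts nontrivially on the monomial, then the sum of
the conjugates over the monomial subfield is determined by the sum of all conjugates. -/
theorem family_sum_irrelevant (hN : b.N.Prime) {F M : Type u} [Field F] [Field M]
    [Algebra F M] {r n : ℕ} {t : Fin r → M} {u v x y : Fin n → M}
    (h : IsFermatFamily b.N (F := F) t u v x y) (ι : 𝔽 →+* F)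
    (ξ : KM m M) [Fintype (M ≃ₐ[fieldX b F t x] M)] (B A : Fin n → ZMod b.N)
    [Fintype (M ≃ₐ[fieldG b F t x y B A] M)] {a c : Fin n → ZMod b.N} {f : M →+* M}
    (hf : ∀ z : F, f (algebraMap F M z) = algebraMap F M z) (hft : ∀ i, f (t i) = t i)
    (hfx : ∀ j, f (x j) = algebraMap F M (ι b.ζ) ^ (a j).val * x j)
    (hfy : ∀ j, f (y j) = algebraMap F M (ι b.ζ) ^ (c j).val * y j)
    (hfξ : KM.map m f ξ = ξ) (hne : ∑ j, (B j * a j + A j * c j) ≠ 0) :
    ∑ g : M ≃ₐ[fieldX b F t x] M, KM.map m (g : M →+* M) ξ =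
      b.N • ∑ g : M ≃ₐ[fieldG b F t x y B A] M, KM.map m (g : M →+* M) ξ := by
  have hNp : Fact b.N.Prime := ⟨hN⟩
  have hζp : IsPrimitiveRoot (algebraMap F M (ι b.ζ)) b.N :=
    b.hζ_map ((algebraMap F M).comp ι)
  have hζ := hζp.pow_eq_one
  obtain ⟨ζ, hζdef⟩ : ∃ ζ, ζ = algebraMap F M (ι b.ζ) := ⟨_, rfl⟩
  rw [← hζdef] at hζ
  rw [← hζdef] at hfx hfy
  -- the automorphism over `fieldX`
  obtain ⟨hfd, hgal, -⟩ := h.galois b ι (fieldX b F t x) le_rfl
  obtain ⟨S, hS⟩ := D3b_fixed hf
  have hXS : fieldX b F t x ≤ S := by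
    unfold fieldX
    rw [IntermediateField.adjoin_le_iff]
    rintro z (⟨i, rfl⟩ | ⟨j, rfl⟩)
    · exact (hS _).2 (hft i)
    · refine (hS _).2 ?_
      change f (x j ^ b.N) = x j ^ b.N
      rw [map_pow, hfx, mul_pow, ← pow_mul, mul_comm (a j).val, pow_mul, hζ, one_pow, one_mul]
  obtain ⟨g₀, hg₀⟩ := D3b_exists (T := fieldX b F t x) (f := f) (fun z hz => (hS z).1 (hXS hz))
  have hg₀f : (g₀ : M →+* M) = f := RingHom.ext hg₀
  have hFfix : ∀ (g : M ≃ₐ[fieldX b F t x] M), g ζ = ζ := by
    intro g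
    rw [hζdef]
    exact g.commutes ((algebraMap F (fieldX b F t x)) (ι b.ζ))
  obtain ⟨Y, hY⟩ : ∃ Y, Y = mono x y (fun j => (B j).val) (fun j => (A j).val) := ⟨_, rfl⟩
  have hone : ∀ g : M ≃ₐ[fieldX b F t x] M,
      ((range b.N).filter fun i => (g * g₀ ^ i) Y = Y).card = 1 := by
    intro g
    obtain ⟨a', c', ha', hc'⟩ := h.exists_exp b ι g
    rw [← hζdef] at ha' hc'
    refine D3b_card (k := ∑ j, (B j * a' j + A j * c' j)) (s := ∑ j, (B j * a j + A j * c j))
      hne fun i => ?_
    rw [hY]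
    have e1 : ∀ j, ((g * g₀ ^ i : M ≃ₐ[fieldX b F t x] M) : M →+* M) (x j) =
        algebraMap F M (ι b.ζ) ^ (a' j + (i : ZMod b.N) * a j).val * x j := by
      intro j
      have h1 := D3b_pow hFfix ((hg₀ (x j)).trans (hfx j)) (ha' j) i
      refine h1.trans ?_
      rw [← hζdef]
      congr 1
      apply D3b_pow_congr hζ
      push_cast
      rw [ZMod.natCast_zmod_val, ZMod.natCast_zmod_val, ZMod.natCast_zmod_val]
    have e2 : ∀ j, ((g * g₀ ^ i : M ≃ₐ[fieldX b F t x] M) : M →+* M) (y j) =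
        algebraMap F M (ι b.ζ) ^ (c' j + (i : ZMod b.N) * c j).val * y j := by
      intro j
      have h1 := D3b_pow hFfix ((hg₀ (y j)).trans (hfy j)) (hc' j) i
      refine h1.trans ?_
      rw [← hζdef]
      congr 1
      apply D3b_pow_congr hζ
      push_cast
      rw [ZMod.natCast_zmod_val, ZMod.natCast_zmod_val, ZMod.natCast_zmod_val]
    have e3 := IsFermatFamily.fix_mono_iff b h ι
      (g := ((g * g₀ ^ i : M ≃ₐ[fieldX b F t x] M) : M →+* M))
      (a := fun j => a' j + (i : ZMod b.N) * a j) (c := fun j => c' j + (i : ZMod b.N) * c j)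
      e1 e2 B A
    have e4 : ∑ j, (B j * (a' j + (i : ZMod b.N) * a j) + A j * (c' j + (i : ZMod b.N) * c j)) =
        ∑ j, (B j * a' j + A j * c' j) + i * ∑ j, (B j * a j + A j * c j) := by
      rw [Finset.mul_sum, ← Finset.sum_add_distrib]
      exact Finset.sum_congr rfl fun j _ => by ring
    rw [e4] at e3
    exact e3
  have h8 : KM.map m (g₀ : M →+* M) ξ = ξ := by rw [hg₀f, hfξ]
  have h9 := D3b_sum g₀ ξ h8 Y b.N hone
  have h10 := sum_fieldG_inner (F := F) (t := t) (x := x) (y := y) b ξ B A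
  rw [h9, h10, ← hY]

end UnrA.Fer
end
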