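import Pool.Agent.Lib.MP_859dd5_ag.Mg.G003
import Pool.Agent.Lib.MP_859dd5_ag.Mg.G001
import Pool.Agent.Lib.MP_859dd5_ag.Mg.G006
import Pool.Agent.Lib.MP_859dd5_ag.Mg.G061
import Pool.Agent.Lib.MP_859dd5_ag.G.NormD
import Pool.Agent.Lib.MP_859dd5_ag.Mg.G069
import Pool.Agent.Lib.MP_859dd5_ag.Mg.G009
import Pool.Agent.Lib.MP_859dd5_ag.Mg.G072
import Pool.Agent.Lib.MP_859dd5_ag.Mg.G007
import Pool.Agent.Lib.MP_859dd5_ag.Mg.G068
import Pool.Agent.Lib.MP_859dd5_ag.Mg.G011
import Pool.Agent.Lib.MP_859dd5_ag.Mg.G015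
import Pool.Agent.Lib.MP_859dd5_ag.Mg.G024

section

section

/-!
# Minimal exponents after a change of the base field
-/

namespace UnrA.Fer

open UnrG

universe u v w z

open Polynomial Finset
open scoped Classical

variable {𝔽 : Type w} [Field 𝔽] [Fintype 𝔽] (b : Base 𝔽)

/-- endomorphisms fixing the coordinates fix `fieldK` -/
private lemma D12_fix {F L : Type u} [Field F] [Field L] [Algebra F L] {r n : ℕ}
    {t : Fin r → L} {a x : Fin (n + 2) → L} (h : DiagData b t (F := F) a x)
    {E : IntermediateField F L} (g : E →+* E)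
    (h1 : ∀ (c : F) (e : E), (e : L) = algebraMap F L c → g e = e)
    (h2 : ∀ k (e : E), (e : L) = t k → g e = e)
    (h3 : ∀ j (e : E), (e : L) = coordU b.N a x j → g e = e)
    (htE : ∀ k, t k ∈ E) (hUE : ∀ j, coordU b.N a x j ∈ E)
    (e : E) (he : (e : L) ∈ fieldK b F t x) : g e = e := by
  let T : Subfield L := (g.eqLocusField (RingHom.id E)).map (algebraMap E L)
  let T' : IntermediateField F L := T.toIntermediateField (fun c =>
    ⟨algebraMap F E c, h1 c _ rfl, rfl⟩)
  have hle : IntermediateField.adjoin F (Set.range t ∪ Set.range (coordU b.N a x)) ≤ T' := by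
    rw [IntermediateField.adjoin_le_iff]
    rintro _ (⟨k, rfl⟩ | ⟨j, rfl⟩)
    · exact ⟨⟨t k, htE k⟩, h2 k _ rfl, rfl⟩
    · exact ⟨⟨coordU b.N a x j, hUE j⟩, h3 j _ rfl, rfl⟩
  obtain ⟨e', he', hee⟩ := hle (fieldK_le_coord b h he)
  have h4 : e' = e := Subtype.ext hee
  rw [← h4]
  exact he'


/-- A homomorphism of the monomial subfields. -/
lemma D12_hom {k L F L' : Type u} [Field k] [Field L] [Algebra k L] [Field F] [Field L']
    [Algebra F L'] {n r : ℕ} {t₀ : Fin 0 → L} {x : Fin (n + 2) → L} {t : Fin r → L'}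
    (i : L →+* L') (hi : ∀ c : k, i (algebraMap k L c) ∈ IntermediateField.adjoin F (Set.range t))
    (α : Fin (n + 2) → ZMod b.N) :
    ∃ j : fieldA b k t₀ x α →+* fieldA b F t (fun l => i (x l)) α, ∀ e, (j e : L') = i e := by
  have hle : IntermediateField.adjoin F (Set.range t) ≤ fieldA b F t (fun l => i (x l)) α :=
    IntermediateField.adjoin.mono F _ _ (Set.subset_union_left.trans Set.subset_union_left)
  have hc : ∀ e ∈ fieldA b k t₀ x α, i e ∈ fieldA b F t (fun l => i (x l)) α := by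
    have h1 : (fieldA b k t₀ x α).toSubfield ≤
        ((fieldA b F t (fun l => i (x l)) α).toSubfield).comap i := by
      conv_lhs => unfold fieldA
      rw [IntermediateField.adjoin_toSubfield, Subfield.closure_le]
      rintro y (⟨c, rfl⟩ | ((⟨l, rfl⟩ | ⟨l, rfl⟩) | hy))
      · exact hle (hi c)
      · exact l.elim0
      · change i (x l ^ b.N) ∈ fieldA b F t (fun l => i (x l)) α
        rw [map_pow]
        exact IntermediateField.subset_adjoin F _ (Or.inl (Or.inr ⟨l, rfl⟩))
      · rw [Set.mem_singleton_iff] at hy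
        subst hy
        change i (wmon x α) ∈ fieldA b F t (fun l => i (x l)) α
        have h2 : i (wmon x α) = wmon (fun l => i (x l)) α := by
          unfold wmon
          rw [map_prod]
          exact Finset.prod_congr rfl fun l _ => map_pow _ _ _
        rw [h2]
        exact IntermediateField.subset_adjoin F _ (Or.inr rfl)
    exact fun y hy => h1 hy
  exact ⟨(i.comp (algebraMap (fieldA b k t₀ x α) L)).codRestrict
    (fieldA b F t (fun l => i (x l)) α) (fun e => hc e e.2), fun e => rfl⟩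

/-- Homomorphisms of the monomial subfield over the larger base restrict. -/
lemma D12_restrict {k L F L' : Type u} [Field k] [Field L] [Algebra k L] [Field F]
    [Field L'] [Algebra F L'] {n r : ℕ} {t₀ : Fin 0 → L} {x : Fin (n + 2) → L} {t : Fin r → L'}
    {i : L →+* L'} {α : Fin (n + 2) → ZMod b.N} (ι₀ : 𝔽 →+* k)
    {j : fieldA b k t₀ x α →+* fieldA b F t (fun l => i (x l)) α} (hj : ∀ e, (j e : L') = i e)
    {g' : fieldA b F t (fun l => i (x l)) α →+* fieldA b F t (fun l => i (x l)) α} {s : ℕ}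
    (hfix : ∀ e : fieldA b k t₀ x α, (e : L) ∈ fieldK b k t₀ x → g' (j e) = j e)
    (hw : ∀ e : fieldA b k t₀ x α, (e : L) = wmon x α →
      (g' (j e) : L') = i (algebraMap k L (ι₀ b.ζ) ^ s * wmon x α)) :
    ∃ g : fieldA b k t₀ x α →+* fieldA b k t₀ x α, g'.comp j = j.comp g ∧
      (∀ e : fieldA b k t₀ x α, (e : L) ∈ fieldK b k t₀ x → g e = e) ∧
      (∀ e : fieldA b k t₀ x α, (e : L) = wmon x α →
          (g e : L) = algebraMap k L (ι₀ b.ζ) ^ s * wmon x α) := by
  have hwA : wmon x α ∈ fieldA b k t₀ x α := IntermediateField.subset_adjoin _ _ (Or.inr rfl)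
  have hcl : Subfield.closure ({e : fieldA b k t₀ x α | (e : L) ∈ fieldK b k t₀ x} ∪
      {(⟨wmon x α, hwA⟩ : fieldA b k t₀ x α)}) = ⊤ := by
    obtain ⟨R, hR⟩ : ∃ R, R = Subfield.closure
      ({e : fieldA b k t₀ x α | (e : L) ∈ fieldK b k t₀ x} ∪
        {(⟨wmon x α, hwA⟩ : fieldA b k t₀ x α)}) := ⟨_, rfl⟩
    rw [← hR, eq_top_iff]
    intro e _
    have h1 : (fieldA b k t₀ x α).toSubfield ≤ R.map (algebraMap (fieldA b k t₀ x α) L) := by
      conv_lhs => unfold fieldA
      rw [IntermediateField.adjoin_toSubfield, Subfield.closure_le]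
      have hK : ∀ y : L, y ∈ fieldK b k t₀ x → y ∈ R.map (algebraMap (fieldA b k t₀ x α) L) := by
        intro y hy
        refine ⟨⟨y, fieldK_le_fieldA b α hy⟩, ?_, rfl⟩
        rw [hR]
        exact Subfield.subset_closure (Or.inl hy)
      rintro y (⟨c, rfl⟩ | ((⟨l, rfl⟩ | ⟨l, rfl⟩) | hy))
      · exact hK _ ((fieldK b k t₀ x).algebraMap_mem c)
      · exact l.elim0
      · exact hK _ (IntermediateField.subset_adjoin _ _ (Or.inr ⟨l, rfl⟩))
      · rw [Set.mem_singleton_iff] at hy
        subst hy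
        refine ⟨⟨wmon x α, hwA⟩, ?_, rfl⟩
        rw [hR]
        exact Subfield.subset_closure (Or.inr rfl)
    obtain ⟨e', he', hee⟩ := h1 e.2
    have h4 : e' = e := Subtype.ext hee
    rw [← h4]
    exact he'
  have hex : ∀ e : fieldA b k t₀ x α, ∃ e' : fieldA b k t₀ x α, j e' = g' (j e) := by
    have h1 : (⊤ : Subfield (fieldA b k t₀ x α)) ≤ (j.fieldRange.comap g').comap j := by
      rw [← hcl, Subfield.closure_le]
      rintro e (he | he)
      · exact ⟨e, (hfix e he).symm⟩
      · rw [Set.mem_singleton_iff] at he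
        subst he
        let eζ : fieldA b k t₀ x α := algebraMap k _ (ι₀ b.ζ)
        refine ⟨eζ ^ s * ⟨wmon x α, hwA⟩, ?_⟩
        apply Subtype.ext
        rw [hj, hw _ rfl]
        rfl
    exact fun e => h1 (Subfield.mem_top e)
  choose g hg using hex
  have hinj := j.injective
  refine ⟨⟨⟨⟨g, ?_⟩, ?_⟩, ?_, ?_⟩, ?_, ?_, ?_⟩
  · apply hinj
    rw [hg, map_one, map_one]
  · intro a c
    apply hinj
    rw [hg, map_mul, map_mul, map_mul]
    change _ = j (g a) * j (g c)
    rw [hg, hg]
  · apply hinj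
    change j (g 0) = j 0
    rw [hg, map_zero, map_zero]
  · intro a c
    apply hinj
    change j (g (a + c)) = j (g a + g c)
    rw [hg, map_add, map_add, map_add, hg, hg]
  · ext1 e
    exact (hg e).symm
  · intro e he
    apply hinj
    change j (g e) = j e
    rw [hg, hfix e he]
  · intro e he
    have h1 : ∃ e' : fieldA b k t₀ x α, (e' : L) = algebraMap k L (ι₀ b.ζ) ^ s * wmon x α := by
      let eζ : fieldA b k t₀ x α := algebraMap k _ (ι₀ b.ζ)
      exact ⟨eζ ^ s * ⟨wmon x α, hwA⟩, rfl⟩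
    obtain ⟨e', he'⟩ := h1
    have h2 : g e = e' := by
      apply hinj
      apply Subtype.ext
      rw [hg, hw e he, hj, he']
    change ((g e : fieldA b k t₀ x α) : L) = _
    rw [h2, he']

/-- Minimal exponents after a change of the base. Proof: `C = C₀ * ((N ^ (n + 1))!) ^ 2`, with `C₀`
from `prod_main` for `expB α`, `expA α` (`MinZero.exp`). Take `z`, `B` from `exists_descent` over
`k`, its image `z'` in the monomial subfield over `F`, and the embedding from `exists_embedding` for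
the identity `σ` (the constants satisfy `a ^ q = a`); `NewCls` holds for `z'` by the last property of
`exists_descent`, because homomorphisms restrict (`D12_restrict`). -/
theorem vv_eq_zero_of_min_ext {n : ℕ} (wd : ℕ) {w : ZMod b.N → ℤ} (hw : Weight b.N w)
    {α : Fin (n + 2) → ZMod b.N} (hα : MinZero α)
    (hn : n = 2 * wd → ∀ χ : MulChar 𝔽 ℂ, orderOf χ = b.N →
      ∏ j : Fin n, jacobiSum (χ ^ expB α j) (χ ^ expA α j) ≠ (b.q : ℂ) ^ wd) :
    ∃ C : ℕ, 0 < C ∧ ∀ (m : UFun.{u, z}) (_ : m.HasWeight 𝔽 b.q wd) (_ : m.Specializes)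
      (k L F L' : Type u) [Field k] [Field L] [Algebra k L] [Field F] [Field L'] [Algebra F L']
      (ι₀ : 𝔽 →+* k) (ι : 𝔽 →+* F) (_ : ∀ c : F, c ^ b.q = c) (t₀ : Fin 0 → L)
      (a x : Fin (n + 2) → L) (_ : DiagData b t₀ (F := k) a x) (i : L →+* L') (r : ℕ)
      (t : Fin r → L') (_ : DiagData b t (F := F) (fun l => i (a l)) (fun l => i (x l)))
      (_ : ∀ c : k, i (algebraMap k L c) ∈ IntermediateField.adjoin F (Set.range t))
      (_ : i (algebraMap k L (ι₀ b.ζ)) = algebraMap F L' (ι b.ζ)) (β : L')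
      (_ : β ∈ IntermediateField.adjoin F (Set.range t))
      (_ : i (∏ l, a l ^ (α l).val) = β ^ b.N) (ξ : KM m L) (_ : Unr ξ),
      C • KM.map m i (vv b ι₀ t₀ x w α ξ) = 0 := by
  obtain ⟨C₀, hC₀, hmain⟩ := prod_main.{u, w, z} b wd (expB α) (expA α) hn
    (fun j => (hα.exp b j).1) (fun j => (hα.exp b j).2.1) (fun j => (hα.exp b j).2.2)
  refine ⟨C₀ * ((b.N ^ (n + 1)).factorial) ^ 2,
    Nat.mul_pos hC₀ (pow_pos (Nat.factorial_pos _) 2), ?_⟩
  intro m hwt hs k L F L' _ _ _ _ _ _ ι₀ ι hF t₀ a x h₀ i₀ r t h hi₀ hζ β hβ hβN ξ hξ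
  obtain ⟨B, z₀, hB0, hB, hzmap, hzunr, hznew⟩ := exists_descent b (ι := ι₀) h₀ hw α hξ
  obtain ⟨jj, hjj⟩ := D12_hom b (t₀ := t₀) (x := x) (t := t) i₀ hi₀ α
  have hβN' : ∏ l, (fun l => i₀ (a l)) l ^ (α l).val = β ^ b.N := by
    rw [← hβN, map_prod]
    exact Finset.prod_congr rfl fun l _ => (map_pow _ _ _).symm
  have hwm : i₀ (wmon x α) = wmon (fun l => i₀ (x l)) α := by
    unfold wmon
    rw [map_prod]
    exact Finset.prod_congr rfl fun l _ => map_pow _ _ _
  obtain ⟨σ, hσσ⟩ : ∃ σ : L' →+* L', σ = RingHom.id L' := ⟨_, rfl⟩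
  have hσ : SigmaL b F t (fun l => i₀ (a l)) (fun l => i₀ (x l)) σ := by
    rw [hσσ]
    exact ⟨fun c => by rw [RingHom.id_apply, ← map_pow, hF], fun _ => rfl, fun _ => rfl,
      fun _ => rfl⟩
  have hσβ : σ β = β := by rw [hσσ]; rfl
  obtain ⟨M, _, _, t', x', y', i, hP, hE, hc1, ht1, hx1, κ, c, hκ0, hc, hc0, hσc, hW⟩ :=
    exists_embedding b h ι hα.1 hβ hβN' hσ hσβ
  have hKA : fieldK b F t (fun l => i₀ (x l)) ≤ fieldA b F t (fun l => i₀ (x l)) α :=
    fieldK_le_fieldA b α
  have htA : ∀ s, t s ∈ fieldA b F t (fun l => i₀ (x l)) α := fun s =>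
    IntermediateField.subset_adjoin _ _ (Or.inl (Or.inl ⟨s, rfl⟩))
  have hUA : ∀ j, coordU b.N (fun l => i₀ (a l)) (fun l => i₀ (x l)) j ∈
      fieldA b F t (fun l => i₀ (x l)) α := fun j => hKA (coordU_mem b h j)
  have hικ : algebraMap F L' (ι κ) ≠ 0 :=
    (_root_.map_ne_zero _).mpr ((_root_.map_ne_zero _).mpr hκ0)
  -- the Frobenius
  have hrel : RelFrob b F t' x' y' (expB α) (expA α) i
      (RingHom.id (fieldA b F t (fun l => i₀ (x l)) α)) := by
    refine ⟨?_, fun _ _ _ => rfl, fun _ _ _ => rfl, fun _ _ => rfl⟩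
    intro d e he
    have h1 := (hc1 d e).mp he
    apply Subtype.ext
    change (e : L') = (e : L') ^ b.q
    rw [h1, ← map_pow, hF]
  -- the new classes
  have hKt : ∀ e : fieldA b k t₀ x α, (e : L) ∈ fieldK b k t₀ x →
      (jj e : L') ∈ fieldK b F t (fun l => i₀ (x l)) := by
    intro e he
    rw [hjj]
    have hle : IntermediateField.adjoin F (Set.range t) ≤ fieldK b F t (fun l => i₀ (x l)) :=
      IntermediateField.adjoin.mono F _ _ Set.subset_union_left
    have h1 : (fieldK b k t₀ x).toSubfield ≤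
        ((fieldK b F t (fun l => i₀ (x l))).toSubfield).comap i₀ := by
      conv_lhs => unfold fieldK
      rw [IntermediateField.adjoin_toSubfield, Subfield.closure_le]
      rintro y (⟨c, rfl⟩ | (⟨l, rfl⟩ | ⟨l, rfl⟩))
      · exact hle (hi₀ c)
      · exact l.elim0
      · change i₀ (x l ^ b.N) ∈ fieldK b F t (fun l => i₀ (x l))
        rw [map_pow]
        exact IntermediateField.subset_adjoin F _ (Or.inr ⟨l, rfl⟩)
    exact h1 he
  have hnew : NewCls b F ι t' x' y' (expB α) (expA α) i (KM.map m jj z₀) := by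
    intro g s g1 g2 g3 g4 hk
    have hfix : ∀ e : fieldA b F t (fun l => i₀ (x l)) α,
        (e : L') ∈ fieldK b F t (fun l => i₀ (x l)) → g e = e :=
      D12_fix b h g (fun d e he => g1 d e ((hc1 d e).mpr he))
        (fun l e he => g2 l e ((ht1 l e).mpr he)) (fun j e he => g3 j e ((hx1 j e).mpr he))
        htA hUA
    have hscale : ∀ e : fieldA b F t (fun l => i₀ (x l)) α,
        (e : L') = wmon (fun l => i₀ (x l)) α →
        (g e : L') = algebraMap F L' (ι b.ζ) ^ s * wmon (fun l => i₀ (x l)) α := by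
      intro e he
      let eκ : fieldA b F t (fun l => i₀ (x l)) α := algebraMap F _ (ι κ)
      let ec : fieldA b F t (fun l => i₀ (x l)) α := ⟨c, hKA hc⟩
      let eζ : fieldA b F t (fun l => i₀ (x l)) α := algebraMap F _ (ι b.ζ)
      have hmono : i (eκ * ec * e) = mono x' y' (expB α) (expA α) := by
        rw [hW]
        change algebraMap F L' (ι κ) * c * (e : L') = _
        rw [he]
      have h1 := g4 _ hmono
      have h2 : i eζ = algebraMap F M (ι b.ζ) := (hc1 _ _).mpr rfl
      rw [← h2, ← hmono, ← map_pow, ← map_mul] at h1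
      have h3 := i.injective h1
      have h4 : g eκ = eκ := g1 (ι κ) _ ((hc1 _ _).mpr rfl)
      have h5 : g ec = ec := hfix _ hc
      rw [map_mul, map_mul, h4, h5] at h3
      have h6 : eκ * ec ≠ 0 := by
        refine mul_ne_zero ?_ ?_
        · intro h0
          exact hικ (congrArg (fun z : fieldA b F t (fun l => i₀ (x l)) α => (z : L')) h0)
        · intro h0
          exact hc0 (congrArg (fun z : fieldA b F t (fun l => i₀ (x l)) α => (z : L')) h0)
      have h7 : g e = eζ ^ s * e := by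
        apply mul_left_cancel₀ h6
        rw [h3]
        ring
      rw [h7]
      change algebraMap F L' (ι b.ζ) ^ s * (e : L') = _
      rw [he]
    obtain ⟨g₀, hg₀, hg₀fix, hg₀w⟩ := D12_restrict b ι₀ hjj (g' := g) (s := s)
      (fun e he => hfix _ (hKt e he)) (fun e he => by
        rw [hscale (jj e) (by rw [hjj, he, hwm]), map_mul, map_pow, hζ, hwm])
    have h1 := hznew g₀ s hg₀fix hg₀w hk
    have hpow : ∀ l : ℕ, (g ^ l).comp jj = jj.comp (g₀ ^ l) := by
      intro l
      induction l with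
      | zero => rfl
      | succ l ih =>
        rw [pow_succ, pow_succ]
        change ((g ^ l).comp g).comp jj = jj.comp ((g₀ ^ l).comp g₀)
        rw [RingHom.comp_assoc, hg₀, ← RingHom.comp_assoc, ih, RingHom.comp_assoc]
    have h2 : ∀ l ∈ range b.N, KM.map m (g ^ l) (KM.map m jj z₀) =
        KM.map m jj (KM.map m (g₀ ^ l) z₀) := by
      intro l _
      rw [KM.map_map, KM.map_map, hpow]
    rw [Finset.sum_congr rfl h2, ← map_sum, h1, map_zero]
  have hz0 := hmain m hwt hs F M (fieldA b F t (fun l => i₀ (x l)) α) ι r t' x' y' hP i hE _ hrel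
    (KM.map m jj z₀) (hzunr.map jj) hnew (by
      rw [KM.map_id]
      rfl)
  have h1 : C₀ • (B ^ 2 • KM.map m i₀ (vv b ι₀ t₀ x w α ξ)) = 0 := by
    rw [← map_nsmul (KM.map m i₀), ← hzmap, KM.map_map]
    have h2 : i₀.comp (algebraMap (fieldA b k t₀ x α) L) =
        (algebraMap (fieldA b F t (fun l => i₀ (x l)) α) L').comp jj := by
      ext1 e
      exact (hjj e).symm
    rw [h2, ← KM.map_map, ← map_nsmul, hz0, map_zero]
  obtain ⟨D, hD⟩ := Nat.dvd_factorial hB0 hB
  rw [hD, mul_pow, ← mul_assoc, mul_comm, mul_smul, mul_smul, h1, smul_zero]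

end UnrA.Fer
end

section

/-!
# Change of the base field of a diagonal hypersurface
-/

namespace UnrA.Fer

open UnrG

universe u v w z

open Polynomial Finset
open scoped Classical

variable {𝔽 : Type w} [Field 𝔽] [Fintype 𝔽] (b : Base 𝔽)

/-- Change of the base field of a diagonal hypersurface. -/
theorem exists_baseChange_diag {n s : ℕ} {k L k' κ : Type u} [Field k] [Field L] [Field k']
    [Field κ] [Algebra k L] [Algebra k k'] [FiniteDimensional k k'] [Algebra κ k']
    {t₀ : Fin 0 → L} {a x : Fin (n + 2) → L} (h : DiagData b t₀ (F := k) a x)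
    {τ : Fin s → k'} (hτ : AlgebraicIndependent κ τ)
    (hgen : IntermediateField.adjoin κ (Set.range τ) = ⊤) :
    ∃ (L' : Type u) (_ : Field L') (_ : Algebra L L') (_ : Algebra κ L') (_ : Algebra k' L'),
      FiniteDimensional L L' ∧ Module.finrank L L' ≤ Module.finrank k k' ∧
      (∀ c : k, algebraMap L L' (algebraMap k L c) = algebraMap k' L' (algebraMap k k' c)) ∧
      (∀ c : κ, algebraMap κ L' c = algebraMap k' L' (algebraMap κ k' c)) ∧
      DiagData b (F := κ) (fun i => algebraMap k' L' (τ i)) (fun l => algebraMap L L' (a l))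
        (fun l => algebraMap L L' (x l)) ∧
      ∀ z : k', algebraMap k' L' z ∈
        IntermediateField.adjoin κ (Set.range fun i => algebraMap k' L' (τ i)) := by
  obtain ⟨L', _, _, _, _, hst, hst', hfd, hle, hcl⟩ := exists_compositum (k := k) (E := L)
    (k' := k')
  let _ : Algebra κ L' := ((algebraMap k' L').comp (algebraMap κ k')).toAlgebra
  have hst'' : IsScalarTower κ k' L' := IsScalarTower.of_algebraMap_eq fun x => rfl
  have hcomm : ∀ c : k, algebraMap L L' (algebraMap k L c) = algebraMap k' L' (algebraMap k k' c) :=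
    fun c => by
      rw [← IsScalarTower.algebraMap_apply, ← IsScalarTower.algebraMap_apply]
  have hk' : ∀ z : k', algebraMap k' L' z ∈
      IntermediateField.adjoin κ (Set.range fun i => algebraMap k' L' (τ i)) := by
    intro z
    have h1 : (IntermediateField.adjoin κ (Set.range τ)).map (IsScalarTower.toAlgHom κ k' L') =
        IntermediateField.adjoin κ (Set.range (fun i => algebraMap k' L' (τ i))) := by
      rw [IntermediateField.adjoin_map, ← Set.range_comp]
      rfl
    rw [← h1]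
    exact ⟨z, by rw [hgen]; trivial, rfl⟩
  have hX : AlgebraicIndependent k (fun i : Fin n => x i.castSucc.succ) :=
    h.ind.comp (Sum.inr : Fin n → Fin 0 ⊕ Fin n) Sum.inr_injective
  refine ⟨L', inferInstance, inferInstance, inferInstance, inferInstance, hfd, hle, hcomm,
    fun _ => rfl, ⟨?_, ?_, ?_, ?_, ?_, ?_⟩, hk'⟩
  · intro l
    have h1 := h.a_mem l
    rw [Set.range_eq_empty, IntermediateField.adjoin_empty] at h1
    obtain ⟨c, hc⟩ := IntermediateField.mem_bot.mp h1
    rw [← hc, hcomm]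
    exact hk' _
  · exact fun l => (map_ne_zero (algebraMap L L')).2 (h.a_ne l)
  · rw [h.x_zero, map_one]
  · rw [← map_zero (algebraMap L L'), ← h.rel, map_sum]
    exact Finset.sum_congr rfl fun l _ => by rw [map_mul, map_pow]
  · have h1 : AlgebraicIndependent k (fun j : Fin n => algebraMap L L' (x j.castSucc.succ)) :=
      hX.map' (f := IsScalarTower.toAlgHom k L L') (algebraMap L L').injective
    have halg : Algebra.IsAlgebraic k k' := Algebra.IsAlgebraic.of_finite k k'
    have h2 : AlgebraicIndependent k' (fun j : Fin n => algebraMap L L' (x j.castSucc.succ)) :=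
      h1.extendScalars k'
    have h3 := AlgebraicIndependent.sumElim_comp hτ h2
    have h4 := h3.comp (Sum.swap : Fin s ⊕ Fin n → Fin n ⊕ Fin s)
      (Function.LeftInverse.injective Sum.swap_swap)
    have h5 : Sum.elim (fun j : Fin n => algebraMap L L' (x j.castSucc.succ))
        (algebraMap k' L' ∘ τ) ∘ Sum.swap =
        Sum.elim (fun i => algebraMap k' L' (τ i))
          (fun j : Fin n => algebraMap L L' (x j.castSucc.succ)) := by
      funext i
      rcases i with i | i <;> rfl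
    rw [h5] at h4
    exact h4
  · rw [eq_top_iff]
    intro y _
    obtain ⟨R, hR⟩ : ∃ R, R = IntermediateField.adjoin κ
      ((Set.range fun i => algebraMap k' L' (τ i)) ∪
        (Set.range fun l => algebraMap L L' (x l))) := ⟨_, rfl⟩
    rw [← hR]
    have hkR : ∀ z : k', algebraMap k' L' z ∈ R := by
      intro z
      rw [hR]
      exact IntermediateField.adjoin.mono κ _ _ Set.subset_union_left (hk' z)
    have hER : ∀ z : L, algebraMap L L' z ∈ R := by
      intro z
      have h1 := congrArg IntermediateField.toSubfield h.gen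
      rw [IntermediateField.adjoin_toSubfield, IntermediateField.top_toSubfield] at h1
      have h2 : (⊤ : Subfield L) ≤ R.toSubfield.comap (algebraMap L L') := by
        rw [← h1, Subfield.closure_le]
        rintro y (⟨c, rfl⟩ | (⟨i, rfl⟩ | ⟨i, rfl⟩))
        · change algebraMap L L' (algebraMap k L c) ∈ R
          rw [hcomm]
          exact hkR _
        · exact i.elim0
        · change algebraMap L L' (x i) ∈ R
          rw [hR]
          exact IntermediateField.subset_adjoin _ _ (Or.inr ⟨i, rfl⟩)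
      exact h2 (Subfield.mem_top z)
    have h3 : (⊤ : Subfield L') ≤ R.toSubfield := by
      rw [← hcl, Subfield.closure_le]
      rintro _ (⟨c, rfl⟩ | ⟨c, rfl⟩)
      · exact hER c
      · exact hkR c
    exact h3 (Subfield.mem_top y)

/-- Minimal exponents whose twist becomes trivial over a purely transcendental extension of the
finite field of constants. -/
theorem vv_smul_eq_zero_of_min {n : ℕ} (wd : ℕ) {w : ZMod b.N → ℤ} (hw : Weight b.N w)
    {α : Fin (n + 2) → ZMod b.N} (hα : MinZero α)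
    (hn : n = 2 * wd → ∀ χ : MulChar 𝔽 ℂ, orderOf χ = b.N →
      ∏ j : Fin n, jacobiSum (χ ^ expB α j) (χ ^ expA α j) ≠ (b.q : ℂ) ^ wd) :
    ∃ C : ℕ, 0 < C ∧ ∀ (m : UFun.{u, z}) (_ : m.HasWeight 𝔽 b.q wd) (_ : m.Specializes)
      (κ k L k' : Type u) [Field κ] [Field k] [Field L] [Field k'] [Algebra κ k] [Algebra k L]
      [Algebra k k'] [Algebra κ k'] [IsScalarTower κ k k'] [FiniteDimensional k k']
      (ι : 𝔽 →+* κ) (_ : ∀ c : κ, c ^ b.q = c) (t₀ : Fin 0 → L)
      (a x : Fin (n + 2) → L) (_ : DiagData b t₀ (F := k) a x) (s : ℕ) (τ : Fin s → k')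
      (_ : AlgebraicIndependent κ τ) (_ : IntermediateField.adjoin κ (Set.range τ) = ⊤)
      (γ : k) (_ : algebraMap k L γ = ∏ l, a l ^ (α l).val) (β : k')
      (_ : algebraMap k k' γ = β ^ b.N) (D : ℕ) (_ : (Module.finrank k k').factorial ∣ D)
      (ξ : KM m L) (_ : Unr ξ),
      (C * D) • vv b ((algebraMap κ k).comp ι) t₀ x w α ξ = 0 := by
  obtain ⟨C, hC, hmain⟩ := vv_eq_zero_of_min_ext.{u, w, z} b wd hw hα hn
  refine ⟨C, hC, ?_⟩
  intro m hwt hs κ k L k' _ _ _ _ _ _ _ _ _ _ ι hκ t₀ a x h s τ hτ hgen γ hγ β hβ D hD ξ hξ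
  obtain ⟨L', _, _, _, _, hfd, hle, hcomm, hκ', hdd, hmem⟩ := exists_baseChange_diag b h hτ hgen
  have h1 := hmain m hwt hs k L κ L' ((algebraMap κ k).comp ι) ι hκ t₀ a x h (algebraMap L L') s
    (fun i => algebraMap k' L' (τ i)) hdd (fun c => by rw [hcomm]; exact hmem _) (by
      rw [hcomm, RingHom.comp_apply, ← IsScalarTower.algebraMap_apply κ k k', hκ'])
    (algebraMap k' L' β) (hmem _) (by rw [← hγ, hcomm, hβ, map_pow]) ξ hξ
  rw [← map_nsmul] at h1
  have h2 := finrank_smul_eq_zero (m := m) (Module.finrank L L') (K := L) (L := L') rfl h1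
  obtain ⟨c, hc⟩ := (Nat.dvd_factorial (Module.finrank_pos (R := L) (M := L')) hle).trans hD
  rw [hc, mul_comm, mul_assoc, mul_comm, mul_comm c C, mul_assoc, mul_comm c, ← mul_assoc,
    mul_comm, mul_smul, mul_comm, mul_smul, h2, smul_zero]

end UnrA.Fer
end

section

/-!
# Sums over Galois groups
-/

namespace UnrG

universe u v w

open Polynomial Finset
open scoped Classical

variable {m : ℕ} {F Ω : Type u} [Field F] [Field Ω] [Algebra F Ω]

/-- The sum over the Galois group over a purely transcendental subfield. Proof: as `trT_eq_zero` in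
K/D4: `exists_trace` gives `y` with image `∑ g, g z`; project to degree `j` (`KM.proj_mem`,
`KM.proj_map`, `KM.proj_eq`, see `exists_trT` in K/D3); `finrank T Ω • y` is unramified
(`unr_smul_of_map`), so it is constant (`unr_purely`), so its image vanishes (`const_eq_zero`). -/
theorem galSum_purely (hm : Any m) (hF : ∀ a : F, a ≠ 0 → ∃ n > 0, a ^ n = 1)
    (T : IntermediateField F Ω) [FiniteDimensional T Ω] [IsGalois T Ω] (hT : IsPurely T) {j : ℕ}
    (hj : 2 ≤ j) {z : KM m Ω} (hz : Unr z) (hd : z ∈ KM.deg m Ω j) :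
    Module.finrank T Ω • ∑ g : Ω ≃ₐ[T] Ω, KM.map m (g : Ω →+* Ω) z = 0 := by
  obtain ⟨s, v, hv, hgen⟩ := hT
  obtain ⟨y₀, hy₀⟩ := exists_trace (K := T) (L := Ω) hm z
  obtain ⟨S, hS⟩ : ∃ S : KM m Ω, S = ∑ g : Ω ≃ₐ[T] Ω, KM.map m (g : Ω →+* Ω) z := ⟨_, rfl⟩
  have hSd : S ∈ KM.deg m Ω j := by
    rw [hS]
    exact Submodule.sum_mem _ (fun c _ => KM.deg_map _ hd)
  have hSu : Unr S := by
    rw [hS]
    intro A hA
    exact sum_mem fun c _ => (hz.map (c : Ω →+* Ω)) A hA
  rw [← hS] at hy₀ ⊢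
  obtain ⟨y, hy⟩ : ∃ y : KM m T, KM.map m (algebraMap T Ω) y = S ∧ y ∈ KM.deg m T j := by
    refine ⟨KM.proj m T j y₀, ?_, KM.proj_mem j y₀⟩
    rw [← KM.proj_map, hy₀, KM.proj_eq hSd]
  have hmem : ∀ i, v i ∈ T := fun i => by
    rw [← hgen]
    exact IntermediateField.subset_adjoin F _ ⟨i, rfl⟩
  obtain ⟨v', hv'⟩ : ∃ v' : Fin s → T, ∀ i, T.val (v' i) = v i :=
    ⟨fun i => ⟨v i, hmem i⟩, fun i => rfl⟩
  have hcomp : T.val ∘ v' = v := funext hv'
  have hvi : AlgebraicIndependent F v' := by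
    refine AlgebraicIndependent.of_comp T.val ?_
    rw [hcomp]
    exact hv
  have hgen' : IntermediateField.adjoin F (Set.range v') = ⊤ := by
    have h1 : (IntermediateField.adjoin F (Set.range v')).map T.val =
        (⊤ : IntermediateField F T).map T.val := by
      rw [IntermediateField.adjoin_map, ← Set.range_comp, hcomp, hgen,
        ← AlgHom.fieldRange_eq_map, IntermediateField.fieldRange_val]
    exact IntermediateField.map_injective T.val h1
  have h2 : Unr (Module.finrank T Ω • y) := unr_smul_of_map hm (by rw [hy.1]; exact hSu)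
  obtain ⟨y', hy'⟩ := unr_purely hm v' hvi hgen' h2
  have h3 : KM.map m (algebraMap F Ω) y' = Module.finrank T Ω • S := by
    have h4 : algebraMap F Ω = (algebraMap T Ω).comp (algebraMap F T) := rfl
    rw [h4, ← KM.map_map, hy', map_nsmul, hy.1]
  rw [← h3]
  exact const_eq_zero hm (algebraMap F Ω) hF hj y' (by
    rw [h3]
    exact nsmul_mem hSd _)

end UnrG
end

section

/-!
# Sums over Galois groups
-/

namespace UnrG

universe u v w

open Polynomial Finset
open scoped Classical

variable {m : ℕ} {F Ω : Type u} [Field F] [Field Ω] [Algebra F Ω]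

/-- The sum over the automorphisms over `T` fixing `Y` is the sum over the Galois group of the
subfield generated by `T` and `Y`. Proof: let `T' = T ⊔ F(Y)`; `Ω / T'` is finite and Galois
(`IsGalois.tower_top_intermediateField`-type statements for `T ≤ T'`, or `IsGalois.tower_top_of_isGalois`
with the algebra structure given by `IntermediateField.inclusion`), its degree divides that over `T`,
so it is at most `B` and divides `B!`; the automorphisms over `T'` are those over `T` fixing `Y`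
(an automorphism over `T` fixing `Y` fixes `T'`: `IntermediateField.adjoin`-induction or
`IntermediateField.fixedField`); now `galSum_purely`. -/
theorem subSum_purely (hm : Any m) (hF : ∀ a : F, a ≠ 0 → ∃ n > 0, a ^ n = 1)
    (T : IntermediateField F Ω) [FiniteDimensional T Ω] [IsGalois T Ω] {B : ℕ}
    (hB : Module.finrank T Ω ≤ B) (Y : Ω)
    (hT : IsPurely (T ⊔ IntermediateField.adjoin F {Y})) {j : ℕ}
    (hj : 2 ≤ j) {z : KM m Ω} (hz : Unr z) (hd : z ∈ KM.deg m Ω j) :
    B.factorial • ∑ g ∈ univ.filter (fun g : Ω ≃ₐ[T] Ω => g Y = Y), KM.map m (g : Ω →+* Ω) z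
      = 0 := by
  obtain ⟨T', hT'⟩ : ∃ T' : IntermediateField F Ω, T' = T ⊔ IntermediateField.adjoin F {Y} :=
    ⟨_, rfl⟩
  rw [← hT'] at hT
  have hle : T ≤ T' := by
    rw [hT']
    exact le_sup_left
  have hY : Y ∈ T' := by
    rw [hT']
    exact (le_sup_right : IntermediateField.adjoin F {Y} ≤ T ⊔ IntermediateField.adjoin F {Y})
      (IntermediateField.mem_adjoin_simple_self F Y)
  let _ : Algebra T T' := (IntermediateField.inclusion hle).toRingHom.toAlgebra
  have : IsScalarTower T T' Ω := IsScalarTower.of_algebraMap_eq fun x => rfl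
  have : IsGalois T' Ω := IsGalois.tower_top_of_isGalois T T' Ω
  have : FiniteDimensional T' Ω := Module.Finite.of_restrictScalars_finite T T' Ω
  have hpos : 0 < Module.finrank T' Ω := Module.finrank_pos
  have hfin : Module.finrank T' Ω ≤ B := by
    refine le_trans ?_ hB
    have : FiniteDimensional T T' :=
      FiniteDimensional.of_injective (IsScalarTower.toAlgHom T T' Ω).toLinearMap
        (IsScalarTower.toAlgHom T T' Ω).injective
    have hfree : Module.Free T T' := Module.Free.of_divisionRing T T'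
    have hfree' : Module.Free T' Ω := Module.Free.of_divisionRing T' Ω
    have hmul := Module.finrank_mul_finrank T T' Ω
    rw [← hmul]
    exact Nat.le_mul_of_pos_left _ Module.finrank_pos
  have h1 := galSum_purely hm hF T' hT hj hz hd
  have h2 : ∑ g : Ω ≃ₐ[T'] Ω, KM.map m (g : Ω →+* Ω) z =
      ∑ g ∈ univ.filter (fun g : Ω ≃ₐ[T] Ω => g Y = Y), KM.map m (g : Ω →+* Ω) z := by
    refine Finset.sum_bij (fun g _ => g.restrictScalars T) ?_ ?_ ?_ ?_
    · intro g _
      rw [mem_filter]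
      exact ⟨mem_univ _, g.commutes ⟨Y, hY⟩⟩
    · intro g _ g' _ h3
      refine AlgEquiv.ext fun x => ?_
      exact DFunLike.congr_fun h3 x
    · intro g hg
      rw [mem_filter] at hg
      obtain ⟨S, hS⟩ : ∃ S : IntermediateField F Ω, ∀ x, x ∈ S ↔ g x = x :=
        ⟨{ carrier := {x | g x = x}
           mul_mem' := fun {x y} hx hy => by
             change g (x * y) = x * y
             rw [map_mul, show g x = x from hx, show g y = y from hy]
           add_mem' := fun {x y} hx hy => by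
             change g (x + y) = x + y
             rw [map_add, show g x = x from hx, show g y = y from hy]
           algebraMap_mem' := fun c => g.commutes (algebraMap F T c)
           inv_mem' := fun x hx => by
             change g x⁻¹ = x⁻¹
             rw [map_inv₀, show g x = x from hx] }, fun x => Iff.rfl⟩
      have hS' : T' ≤ S := by
        rw [hT']
        refine sup_le (fun x hx => (hS x).mpr (g.commutes ⟨x, hx⟩)) ?_
        rw [IntermediateField.adjoin_simple_le_iff]
        exact (hS Y).mpr hg.2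
      refine ⟨{ (g : Ω ≃+* Ω) with commutes' := fun x => (hS _).mp (hS' x.2) }, mem_univ _, ?_⟩
      exact AlgEquiv.ext fun x => rfl
    · intro g _
      rfl
  rw [h2] at h1
  obtain ⟨q, hq⟩ := Nat.dvd_factorial hpos hfin
  rw [hq, mul_comm, mul_nsmul', h1, nsmul_zero]

end UnrG
end

section

/-!
# Unramified classes of Artin–Schreier extensions
-/

namespace UnrG

universe u v w

open Polynomial Finset
open scoped Classical

variable {m : ℕ} {F Ω : Type u} [Field F] [Field Ω] [Algebra F Ω]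

/-- Unramified classes of an Artin–Schreier extension whose subextensions of lines are purely
transcendental. Proof: `Ω / T` is Galois of degree at most `Q ^ 2` (`as_galois`); let
`g Y_i = Y_i + b_i g`, `b_i g ∈ fixQ F Q` (`as_translate`). Then `g` fixes `Y₁ + c Y₂` iff
`b₁ g + c b₂ g = 0`, and `g = 1` iff `b₁ g = b₂ g = 0`. By `lines_sum` (`S = fixQ F Q`,
`card_fixQ`, `neg_div_mem_fixQ`) `Q • z` is a combination of the sums of `subSum_purely` for
`Y₁ + c Y₂`, `Y₂` and `0` (the last gives the whole sum; `T ⊔ F(0) = T`), which are killed by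
`(Q ^ 2)!`. -/
theorem unr_lines (hm : Any m) (hF : ∀ a : F, a ≠ 0 → ∃ n > 0, a ^ n = 1) {p : ℕ}
    [Fact p.Prime] [CharP F p] {k : ℕ} [FixSp F p k] (hk : 0 < k) (T : IntermediateField F Ω) {Y₁ Y₂ : Ω}
    (h1 : Y₁ ^ p ^ k - Y₁ ∈ T) (h2 : Y₂ ^ p ^ k - Y₂ ∈ T)
    (gen : IntermediateField.adjoin T {Y₁, Y₂} = ⊤) (hT : IsPurely T)
    (hT1 : ∀ c ∈ fixQ F (p ^ k),
      IsPurely (T ⊔ IntermediateField.adjoin F {Y₁ + algebraMap F Ω c * Y₂}))
    (hT2 : IsPurely (T ⊔ IntermediateField.adjoin F {Y₂})) {j : ℕ} (hj : 2 ≤ j) {z : KM m Ω}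
    (hz : Unr z) (hd : z ∈ KM.deg m Ω j) :
    (p ^ k * ((p ^ k) ^ 2).factorial) • z = 0 := by
  obtain ⟨hfd, hgal, hle⟩ := as_galois hk T h1 h2 gen
  have hg1 : ∀ g : Ω ≃ₐ[T] Ω, (g : Ω →+* Ω) (Y₁ ^ p ^ k - Y₁) = Y₁ ^ p ^ k - Y₁ := fun g =>
    g.commutes ⟨_, h1⟩
  have hg2 : ∀ g : Ω ≃ₐ[T] Ω, (g : Ω →+* Ω) (Y₂ ^ p ^ k - Y₂) = Y₂ ^ p ^ k - Y₂ := fun g =>
    g.commutes ⟨_, h2⟩
  choose b₁ hb₁ hb₁' using fun g : Ω ≃ₐ[T] Ω => as_translate (F := F) hk (hg1 g)
  choose b₂ hb₂ hb₂' using fun g : Ω ≃ₐ[T] Ω => as_translate (F := F) hk (hg2 g)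
  have hY1 : ∀ g : Ω ≃ₐ[T] Ω, g Y₁ = Y₁ + algebraMap F Ω (b₁ g) := fun g => hb₁' g
  have hY2 : ∀ g : Ω ≃ₐ[T] Ω, g Y₂ = Y₂ + algebraMap F Ω (b₂ g) := fun g => hb₂' g
  have hcF : ∀ (g : Ω ≃ₐ[T] Ω) (c : F), g (algebraMap F Ω c) = algebraMap F Ω c := fun g c =>
    g.commutes (algebraMap F T c)
  have hinj : ∀ c : F, algebraMap F Ω c = 0 ↔ c = 0 := fun c =>
    map_eq_zero_iff _ (algebraMap F Ω).injective
  have hext : ∀ g : Ω ≃ₐ[T] Ω, g Y₁ = Y₁ → g Y₂ = Y₂ → g = 1 := by
    intro g e1 e2
    apply AlgEquiv.ext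
    intro x
    change g x = x
    have hx : x ∈ IntermediateField.adjoin T {Y₁, Y₂} := by rw [gen]; trivial
    induction hx using IntermediateField.adjoin_induction with
    | mem x hx =>
      rcases hx with rfl | rfl
      · exact e1
      · exact e2
    | algebraMap x => exact g.commutes x
    | add x y _ _ hx hy => rw [map_add, hx, hy]
    | inv x _ hx => rw [map_inv₀, hx]
    | mul x y _ _ hx hy => rw [map_mul, hx, hy]
  have he : ∀ g, b₁ g = 0 ∧ b₂ g = 0 ↔ g = (1 : Ω ≃ₐ[T] Ω) := by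
    intro g
    constructor
    · rintro ⟨h3, h4⟩
      apply hext
      · rw [hY1, h3, map_zero, add_zero]
      · rw [hY2, h4, map_zero, add_zero]
    · rintro rfl
      have h3 := hY1 1
      have h4 := hY2 1
      rw [AlgEquiv.one_apply] at h3 h4
      exact ⟨(hinj _).1 (by linear_combination -h3), (hinj _).1 (by linear_combination -h4)⟩
  have key := lines_sum (S := fixQ F (p ^ k))
    (fun a ha b hb => neg_div_mem_fixQ hk ha hb) hb₁ hb₂ he
    (fun g : Ω ≃ₐ[T] Ω => KM.map m (g : Ω →+* Ω) z)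
  have e1 : ∀ c ∈ fixQ F (p ^ k), ((p ^ k) ^ 2).factorial •
      ∑ g ∈ univ.filter (fun g : Ω ≃ₐ[T] Ω => b₁ g + c * b₂ g = 0),
        KM.map m (g : Ω →+* Ω) z = 0 := by
    intro c hc
    have h3 := subSum_purely hm hF T hle (Y₁ + algebraMap F Ω c * Y₂) (hT1 c hc) hj hz hd
    have h4 : univ.filter (fun g : Ω ≃ₐ[T] Ω => b₁ g + c * b₂ g = 0) =
        univ.filter (fun g : Ω ≃ₐ[T] Ω =>
          g (Y₁ + algebraMap F Ω c * Y₂) = Y₁ + algebraMap F Ω c * Y₂) := by
      refine Finset.filter_congr fun g _ => ?_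
      rw [map_add, map_mul, hcF, hY1, hY2, ← hinj, map_add, map_mul]
      constructor
      · intro h5
        linear_combination h5
      · intro h5
        linear_combination h5
    rw [h4]
    exact h3
  have e2 : ((p ^ k) ^ 2).factorial •
      ∑ g ∈ univ.filter (fun g : Ω ≃ₐ[T] Ω => b₂ g = 0), KM.map m (g : Ω →+* Ω) z = 0 := by
    have h3 := subSum_purely hm hF T hle Y₂ hT2 hj hz hd
    have h4 : univ.filter (fun g : Ω ≃ₐ[T] Ω => b₂ g = 0) =
        univ.filter (fun g : Ω ≃ₐ[T] Ω => g Y₂ = Y₂) := by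
      refine Finset.filter_congr fun g _ => ?_
      rw [hY2, ← hinj]
      constructor
      · intro h5
        linear_combination h5
      · intro h5
        linear_combination h5
    rw [h4]
    exact h3
  have e3 : ((p ^ k) ^ 2).factorial • ∑ g : Ω ≃ₐ[T] Ω, KM.map m (g : Ω →+* Ω) z = 0 := by
    have h5 : T ⊔ IntermediateField.adjoin F {(0 : Ω)} = T := by
      rw [sup_eq_left, IntermediateField.adjoin_simple_le_iff]
      exact zero_mem T
    have h3 := subSum_purely hm hF T hle 0 (by rw [h5]; exact hT) hj hz hd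
    have h4 : (univ : Finset (Ω ≃ₐ[T] Ω)) =
        univ.filter (fun g : Ω ≃ₐ[T] Ω => g 0 = 0) := by
      rw [eq_comm, Finset.filter_true_of_mem]
      intro g _
      exact map_zero g
    rw [h4]
    exact h3
  have e4 : KM.map m (((1 : Ω ≃ₐ[T] Ω)) : Ω →+* Ω) z = z := by
    have h3 : (((1 : Ω ≃ₐ[T] Ω)) : Ω →+* Ω) = RingHom.id Ω := rfl
    rw [h3, KM.map_id]
    rfl
  have h6 := congrArg (fun x => ((p ^ k) ^ 2).factorial • x) key
  beta_reduce at h6
  rw [smul_add, smul_add, smul_sum, sum_eq_zero e1, e2, e3, e4, card_fixQ hk, add_zero,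
    add_zero] at h6
  rw [mul_comm, mul_nsmul']
  exact h6.symm

end UnrG
end

section

/-!
# Twisted pairs: unramified classes
-/

namespace UnrG

universe u v w

open Polynomial Finset
open scoped Classical

/-- Algebraicity over a larger subfield. -/
theorem isAlgebraic_of_subfield_le {F Ω : Type u} [Field F] [Field Ω] [Algebra F Ω]
    {T T' : IntermediateField F Ω} (hle : T ≤ T') {z : Ω} (hz : IsAlgebraic T z) :
    IsAlgebraic T' z := by
  obtain ⟨f, hf0, hf⟩ := hz
  refine ⟨f.map (IntermediateField.inclusion hle).toRingHom, ?_, ?_⟩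
  · rw [Ne, Polynomial.map_eq_zero]
    exact hf0
  · rw [Polynomial.aeval_def, Polynomial.eval₂_map]
    exact hf

variable {p N k₁ k₂ : ℕ} {F Ω : Type u} [Field F] [Field Ω] [Algebra F Ω] {r : ℕ} {t : Fin r → Ω}
  {X : Fin 6 → Ω} {w δ Z₁ Z₂ Y₁ Y₂ : Ω} {e : Fin 6 → ℕ}

/-- Unramified classes of `Ω`. Proof: take `y` from `exists_y` and `T = subT t u₁ u₂ y (X 0 + X 1)`,
`u₁ = -X 1 / Z₁`, `u₂ = -X 3 / Z₂`. By `as_mem`, `adjoin_Y` and `as_galois` the field `Ω` is finite over
`T`, so it is algebraic over `T` and over every larger subfield; by `isPurely_subT` `T` is purely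
transcendental and `u₁`, `u₂` are independent, in particular `u₂ ≠ c u₁` for `c ∈ F`
(use e.g. `AlgebraicIndependent` of the pair and the polynomial `X 1 - C c * X 0`); so the
subfields of `sup_Y`, `sup_Y₂` are purely transcendental. Now `unr_lines` with `k = k₁ * k₂`. -/
theorem PairData.unr [FixSp F p (k₁ * k₂)] [Fact p.Prime] [CharP F p]
    (h : PairData p N k₁ k₂ (F := F) t X w δ Z₁ Z₂ Y₁ Y₂ e) {m : ℕ} (hm : Any m)
    (hF : ∀ a : F, a ≠ 0 → ∃ n > 0, a ^ n = 1) {j : ℕ} (hj : 2 ≤ j) {z : KM m Ω}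
    (hz : Unr z) (hd : z ∈ KM.deg m Ω j) :
    (p ^ (k₁ * k₂) * ((p ^ (k₁ * k₂)) ^ 2).factorial) • z = 0 := by
  have hpN : CharP Ω p := charP_of_injective_algebraMap (algebraMap F Ω).injective p
  have hk : 0 < k₁ * k₂ := Nat.mul_pos h.k₁_pos h.k₂_pos
  obtain ⟨y, hy⟩ := h.exists_y
  obtain ⟨hm1, hm2⟩ := h.as_mem hy
  have hgen := h.adjoin_Y hy
  obtain ⟨hfd, hgal, hle⟩ := as_galois hk _ hm1 hm2 hgen
  have halg : ∀ z : Ω, IsAlgebraic (subT F t (-X 1 / Z₁) (-X 3 / Z₂) y (X 0 + X 1)) z :=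
    fun z => Algebra.IsAlgebraic.isAlgebraic z
  obtain ⟨hind, hT⟩ := h.isPurely_subT halg
  -- algebraicity over larger subfields
  have hup : ∀ B : Ω, (∃ S : IntermediateField F Ω,
      subT F t (-X 1 / Z₁) (-X 3 / Z₂) y (X 0 + X 1) ⊔ S =
        subT F t (-X 1 / Z₁) (-X 3 / Z₂) y B) →
      IsPurely (subT F t (-X 1 / Z₁) (-X 3 / Z₂) y B) := by
    rintro B ⟨S, hS⟩
    refine (h.isPurely_subT fun z => ?_).2
    have hle' : subT F t (-X 1 / Z₁) (-X 3 / Z₂) y (X 0 + X 1) ≤
        subT F t (-X 1 / Z₁) (-X 3 / Z₂) y B := by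
      rw [← hS]
      exact le_sup_left
    exact isAlgebraic_of_subfield_le hle' (halg z)
  have hne : ∀ c : F, -X 3 / Z₂ ≠ algebraMap F Ω c * (-X 1 / Z₁) := by
    intro c hc
    have h2 : AlgebraicIndependent F
        (![-X 1 / Z₁, -X 3 / Z₂, y, X 0 + X 1] ∘ (Fin.castLE (by norm_num) : Fin 2 → Fin 4)) :=
      (hind.comp (Sum.inr : Fin 4 → Fin r ⊕ Fin 4) Sum.inr_injective).comp _
        (Fin.castLE_injective _)
    have h3 : MvPolynomial.aeval
        (![-X 1 / Z₁, -X 3 / Z₂, y, X 0 + X 1] ∘ (Fin.castLE (by norm_num) : Fin 2 → Fin 4))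
        (MvPolynomial.X (1 : Fin 2) - MvPolynomial.C c * MvPolynomial.X (0 : Fin 2) :
          MvPolynomial (Fin 2) F) = 0 := by
      rw [map_sub, map_mul, MvPolynomial.aeval_X, MvPolynomial.aeval_X, MvPolynomial.aeval_C]
      change -X 3 / Z₂ - algebraMap F Ω c * (-X 1 / Z₁) = 0
      rw [hc, sub_self]
    have h4 := h2 (a₁ := MvPolynomial.X (1 : Fin 2) - MvPolynomial.C c * MvPolynomial.X (0 : Fin 2))
      (a₂ := 0) (by rw [h3, map_zero])
    have h5 := congrArg (MvPolynomial.coeff (Finsupp.single (1 : Fin 2) 1)) h4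
    rw [MvPolynomial.coeff_sub, MvPolynomial.coeff_X, MvPolynomial.coeff_C_mul,
      MvPolynomial.coeff_X, MvPolynomial.coeff_zero] at h5
    have h6 : ¬ (Finsupp.single (0 : Fin 2) 1 = Finsupp.single (1 : Fin 2) 1) := by
      intro h7
      have h8 := Finsupp.single_left_injective (one_ne_zero : (1 : ℕ) ≠ 0) h7
      exact absurd h8 (by decide)
    rw [if_neg h6, if_pos rfl, mul_zero, sub_zero] at h5
    exact one_ne_zero h5
  refine unr_lines hm hF hk _ hm1 hm2 hgen hT (fun c hc => ?_) ?_ hj hz hd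
  · have hc' : c ^ p ^ (k₁ * k₂) = c := by
      refine (mem_fixQ ?_).1 hc
      exact Nat.one_lt_pow hk.ne' (Nat.Prime.one_lt Fact.out)
    rw [h.sup_Y hy hc' (hne c)]
    exact hup _ ⟨_, h.sup_Y hy hc' (hne c)⟩
  · rw [h.sup_Y₂ hy]
    exact hup _ ⟨_, h.sup_Y₂ hy⟩

end UnrG
end

section

/-!
# Twisted pairs: unramified classes
-/

namespace UnrG

universe u v w

open Polynomial Finset
open scoped Classical

variable {p N k₁ k₂ : ℕ} {F Ω : Type u} [Field F] [Field Ω] [Algebra F Ω] {r : ℕ} {t : Fin r → Ω}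
  {X : Fin 6 → Ω} {w δ Z₁ Z₂ Y₁ Y₂ : Ω} {e : Fin 6 → ℕ}

/-- Unramified classes of a field with two twisted pairs. Proof: take `Ω` from `exists_trace_roots`
with `c₁ = -X 0 / X 1`, `c₂ = -X 2 / X 3`, and the `F`-algebra structure
`((algebraMap K Ω).comp (algebraMap F K)).toAlgebra`; the images of `t`, `X`, `w`, `δ` give `PairData`
(independence: `AlgebraicIndependent.map'` or `AlgHom.algebraicIndependent_iff` for the injection;
`gen`: the subfield generated by the images and `Y₁`, `Y₂` contains the image of `K` and `Y₁`, `Y₂`).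
The image of `z` is unramified (`Unr.map`) of degree `j` (`KM.deg_map`), so it is killed by
`PairData.unr`; now `finrank_smul_eq_zero`, and the degree of `Ω / K` divides
`((p ^ (k₁ k₂)) ^ 2)!`. -/
theorem CycData.unr {K : Type u} [Field K] [Algebra F K] {t : Fin r → K} {X : Fin 6 → K} {w δ : K}
    [FixSp F p (k₁ * k₂)] [Fact p.Prime] [CharP F p] (h : CycData p N k₁ k₂ (F := F) t X w δ e) {m : ℕ}
    (hm : Any m) (hF : ∀ a : F, a ≠ 0 → ∃ n > 0, a ^ n = 1) {j : ℕ} (hj : 2 ≤ j) {z : KM m K}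
    (hz : Unr z) (hd : z ∈ KM.deg m K j) :
    (((p ^ (k₁ * k₂)) ^ 2).factorial * (p ^ (k₁ * k₂) * ((p ^ (k₁ * k₂)) ^ 2).factorial)) • z
      = 0 := by
  have hpK : CharP K p := charP_of_injective_algebraMap (algebraMap F K).injective p
  have hc₁ : -X 0 / X 1 ≠ 0 := div_ne_zero (neg_ne_zero.2 (h.X_ne 0)) (h.X_ne 1)
  have hc₂ : -X 2 / X 3 ≠ 0 := div_ne_zero (neg_ne_zero.2 (h.X_ne 2)) (h.X_ne 3)
  obtain ⟨Ω, iF, iA, Z₁, Z₂, Y₁, Y₂, hfd, hle, hgen, hZ₁, hZ₂, hZ₁p, hZ₂p⟩ :=
    exists_trace_roots (K := K) (p := p) h.k₁_pos h.k₂_pos hc₁ hc₂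
  let _ : Algebra F Ω := ((algebraMap K Ω).comp (algebraMap F K)).toAlgebra
  have hst : IsScalarTower F K Ω := IsScalarTower.of_algebraMap_eq fun x => rfl
  have hP : PairData p N k₁ k₂ (F := F) (fun i => algebraMap K Ω (t i))
      (fun i => algebraMap K Ω (X i)) (algebraMap K Ω w) (algebraMap K Ω δ) Z₁ Z₂ Y₁ Y₂ e :=
    { N_pos := h.N_pos
      k₁_pos := h.k₁_pos
      k₂_pos := h.k₂_pos
      h01 := h.h01
      h23 := h.h23
      h4 := h.h4
      X_ne := fun i => (map_ne_zero (algebraMap K Ω)).2 (h.X_ne i)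
      X_last := by rw [h.X_last, map_one]
      sum := by rw [← map_sum, h.sum, map_zero]
      δ_mem := by
        have h1 : (IntermediateField.adjoin F (Set.range t)).map (IsScalarTower.toAlgHom F K Ω) =
            IntermediateField.adjoin F (Set.range (fun i => algebraMap K Ω (t i))) := by
          rw [IntermediateField.adjoin_map, ← Set.range_comp]
          rfl
        rw [← h1]
        exact ⟨δ, h.δ_mem, rfl⟩
      δ_ne := (map_ne_zero (algebraMap K Ω)).2 h.δ_ne
      eq := by
        rw [← map_pow, h.eq, map_mul, map_prod]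
        simp only [map_pow]
      ind := by
        have h1 := h.ind.map' (f := IsScalarTower.toAlgHom F K Ω) (algebraMap K Ω).injective
        rw [Sum.comp_elim] at h1
        exact h1
      gen := by
        have h1 : ∀ z : K, algebraMap K Ω z ∈ IntermediateField.adjoin F
            (Set.range (fun i => algebraMap K Ω (t i)) ∪
              Set.range (fun i => algebraMap K Ω (X i)) ∪ {algebraMap K Ω w, Y₁, Y₂}) := by
          intro z
          have h2 : (IntermediateField.adjoin F (Set.range t ∪ Set.range X ∪ {w})) ≤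
              (IntermediateField.adjoin F
                (Set.range (fun i => algebraMap K Ω (t i)) ∪
                Set.range (fun i => algebraMap K Ω (X i)) ∪
                {algebraMap K Ω w, Y₁, Y₂})).comap (IsScalarTower.toAlgHom F K Ω) := by
            rw [IntermediateField.adjoin_le_iff]
            rintro y ((⟨i, rfl⟩ | ⟨i, rfl⟩) | hy)
            · exact IntermediateField.subset_adjoin _ _ (Or.inl (Or.inl ⟨i, rfl⟩))
            · exact IntermediateField.subset_adjoin _ _ (Or.inl (Or.inr ⟨i, rfl⟩))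
            · rw [Set.mem_singleton_iff] at hy
              subst hy
              exact IntermediateField.subset_adjoin _ _ (Or.inr (Or.inl rfl))
          exact h2 (by rw [h.gen]; trivial)
        have h3 : (IntermediateField.adjoin K {Y₁, Y₂}).toSubfield ≤
            (IntermediateField.adjoin F (Set.range (fun i => algebraMap K Ω (t i)) ∪
              Set.range (fun i => algebraMap K Ω (X i)) ∪
              {algebraMap K Ω w, Y₁, Y₂})).toSubfield := by
          rw [IntermediateField.adjoin_toSubfield, Subfield.closure_le]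
          rintro y (⟨z, rfl⟩ | hy)
          · exact h1 z
          · exact IntermediateField.subset_adjoin _ _ (Or.inr (Or.inr hy))
        rw [eq_top_iff]
        intro x _
        refine h3 ?_
        rw [hgen]
        trivial
      Z₁_eq := hZ₁
      Z₂_eq := hZ₂
      Z₁_pow := by rw [hZ₁p, map_div₀, map_neg]
      Z₂_pow := by rw [hZ₂p, map_div₀, map_neg] }
  have h1 := hP.unr hm hF hj (hz.map (algebraMap K Ω)) (KM.deg_map (algebraMap K Ω) hd)
  rw [← map_nsmul] at h1
  have h2 := finrank_smul_eq_zero hm _ rfl h1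
  obtain ⟨k, hk⟩ : Module.finrank K Ω ∣ ((p ^ (k₁ * k₂)) ^ 2).factorial :=
    Nat.dvd_factorial Module.finrank_pos hle
  rw [hk, mul_comm (Module.finrank K Ω) k, mul_assoc, mul_nsmul', mul_nsmul']
  rw [hk, mul_comm (Module.finrank K Ω) k] at h2
  rw [h2, nsmul_zero]

end UnrG
end

section

/-!
# The sum over the cyclic group of a cyclic cover
-/

namespace UnrG

universe u v w

open Polynomial Finset
open scoped Classical

variable {m : ℕ} {F E : Type u} [Field F] [Field E] [Algebra F E] {N r n : ℕ} {t : Fin r → E}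
  {X : Fin n → E} {D W : E} {B A : Fin n → ZMod N}

/-- the Kummer extension `E = T(W)` -/
private lemma V9_galois (T : IntermediateField F E) (hN : 0 < N) {ω : F}
    (hω : IsPrimitiveRoot ω N) {W : E} (hW0 : W ≠ 0) (hW : W ^ N ∈ T)
    (gen : IntermediateField.adjoin T {W} = ⊤) :
    FiniteDimensional T E ∧ IsGalois T E ∧ Module.finrank T E ≤ N := by
  have hNE : NeZero N := ⟨hN.ne'⟩
  have hNF : NeZero (N : F) := hω.neZero'
  have hNT : (N : T) ≠ 0 := by
    intro h0
    apply hNF.out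
    apply (algebraMap F T).injective
    rw [map_natCast, map_zero]
    exact h0
  obtain ⟨a, ha⟩ : ∃ a : T, algebraMap T E a = W ^ N := ⟨⟨_, hW⟩, rfl⟩
  have ha0 : a ≠ 0 := by
    rintro rfl
    rw [map_zero] at ha
    exact pow_ne_zero N hW0 ha.symm
  obtain ⟨P, hP⟩ : ∃ P : Polynomial T, P = Polynomial.X ^ N - C a := ⟨_, rfl⟩
  have hPm : P.Monic := by
    rw [hP]
    exact monic_X_pow_sub_C a hN.ne'
  have hPs : P.Separable := by
    rw [hP]
    exact separable_X_pow_sub_C a hNT ha0
  have hPr : aeval W P = 0 := by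
    rw [hP, map_sub, map_pow, aeval_X, aeval_C, ha, sub_self]
  have hi : IsIntegral T W := ⟨P, hPm, hPr⟩
  have hsplit : P.IsSplittingField T E := by
    refine ⟨?_, ?_⟩
    · rw [hP, Polynomial.map_sub, Polynomial.map_pow, map_X, map_C]
      exact X_pow_sub_C_splits_of_isPrimitiveRoot
        (hω.map_of_injective (algebraMap F E).injective) ha.symm
    · rw [← top_le_iff]
      have h3 := congrArg IntermediateField.toSubalgebra gen
      rw [IntermediateField.adjoin_toSubalgebra_of_isAlgebraic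
        (fun z hz => by rw [Set.mem_singleton_iff] at hz; rw [hz]; exact hi.isAlgebraic),
        IntermediateField.top_toSubalgebra] at h3
      rw [← h3]
      apply Algebra.adjoin_mono
      intro z hz
      rw [Set.mem_singleton_iff] at hz
      rw [hz, mem_rootSet']
      exact ⟨(hPm.map (algebraMap T E)).ne_zero, hPr⟩
  have hfd : FiniteDimensional T E := hsplit.finiteDimensional (K := T) (L := E) _
  refine ⟨hfd, IsGalois.of_separable_splitting_field hPs, ?_⟩
  rw [← IntermediateField.finrank_top', ← gen, IntermediateField.adjoin.finrank hi]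
  refine (natDegree_le_of_dvd (minpoly.dvd T W hPr) hPm.ne_zero).trans ?_
  rw [hP, natDegree_X_pow_sub_C]

/-- TASK V9. Proof: let `T = IntermediateField.adjoin F (range t ∪ range X)`; it is purely transcendental
(`isPurely_adjoin` with `Sum.elim t X`), and `W ^ N ∈ T`, `E = T(W)` (`h.gen`). The polynomial
`X ^ N - W ^ N` over `T` is separable (`N ≠ 0` in `F`: because `F` contains the primitive root `ω`,
`IsPrimitiveRoot.neZero'`, `Polynomial.separable_X_pow_sub_C`; `W ≠ 0` by `CycProdD.X_ne`) and splits in `E` (its roots are the `ω ^ i W`;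
`IsPrimitiveRoot`-lemmas, `X_pow_sub_C_splits_of_isPrimitiveRoot`), so `E` is its splitting field and is finite and
Galois over `T` (as in `as_galois`, PF/G3b), of degree at most `N`. `g` is bijective on `E` because `g ^ N = 1`
(both sides agree on the generators), and it fixes `T`: so it is an element `g'` of `E ≃ₐ[T] E`; the
elements `g' ^ i`, `i < N`, are distinct (`(g' ^ i) W = ω ^ i W`), and there are at most `N` elements
(`IsGalois.card_aut_eq_finrank`), so `∑ i ∈ range N, KM.map m (g ^ i) z = ∑ g : E ≃ₐ[T] E, KM.map m g z`, which is killed by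
`finrank T E = N` (`galSum_purely`, PF/G4). -/
theorem CycProdD.cyc_sum (h : CycProdD N (F := F) t X D W B A) (hN : 0 < N) (hm : Any m)
    (hF : ∀ a : F, a ≠ 0 → ∃ n > 0, a ^ n = 1) {ω : F} (hω : IsPrimitiveRoot ω N) {g : E →+* E}
    (gF : ∀ a : F, g (algebraMap F E a) = algebraMap F E a) (gt : ∀ i, g (t i) = t i)
    (gX : ∀ j, g (X j) = X j) (gW : g W = algebraMap F E ω * W) {j : ℕ} (hj : 2 ≤ j) {z : KM m E}
    (hz : Unr z) (hd : z ∈ KM.deg m E j) :
    N • ∑ i ∈ range N, KM.map m (g ^ i) z = 0 := by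
  obtain ⟨T, hT⟩ : ∃ T : IntermediateField F E,
    T = IntermediateField.adjoin F (Set.range (Sum.elim t X)) := ⟨_, rfl⟩
  have hpure : IsPurely T := by
    rw [hT]
    exact isPurely_adjoin _ h.ind
  have htT : ∀ i, t i ∈ T := by
    intro i
    rw [hT]
    exact IntermediateField.subset_adjoin _ _ ⟨Sum.inl i, rfl⟩
  have hXT : ∀ i, X i ∈ T := by
    intro i
    rw [hT]
    exact IntermediateField.subset_adjoin _ _ ⟨Sum.inr i, rfl⟩
  have hDT : D ∈ T := by
    have h1 : IntermediateField.adjoin F (Set.range t) ≤ T := by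
      rw [IntermediateField.adjoin_le_iff]
      rintro _ ⟨i, rfl⟩
      exact htT i
    exact h1 h.D_mem
  have hWT : W ^ N ∈ T := by
    rw [h.eq]
    refine mul_mem hDT (prod_mem fun i _ => mul_mem (pow_mem (hXT i) _) (pow_mem ?_ _))
    exact sub_mem (one_mem _) (hXT i)
  have hW0 : W ≠ 0 := by
    intro h0
    have h1 := h.eq
    rw [h0, zero_pow hN.ne'] at h1
    refine mul_ne_zero h.D_ne (prod_ne_zero_iff.2 fun i _ => ?_) h1.symm
    exact mul_ne_zero (pow_ne_zero _ (h.X_ne i).1) (pow_ne_zero _ (h.X_ne i).2)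
  have hgen : IntermediateField.adjoin T {W} = ⊤ := by
    rw [eq_top_iff]
    rintro z -
    have h1 := congrArg IntermediateField.toSubfield h.gen
    rw [IntermediateField.adjoin_toSubfield, IntermediateField.top_toSubfield] at h1
    have h2 : (⊤ : Subfield E) ≤ (IntermediateField.adjoin T {W}).toSubfield := by
      rw [← h1, Subfield.closure_le]
      rintro z (⟨a, rfl⟩ | ((⟨i, rfl⟩ | ⟨i, rfl⟩) | hz))
      · exact (IntermediateField.adjoin T {W}).algebraMap_mem (algebraMap F T a)
      · exact (IntermediateField.adjoin T {W}).algebraMap_mem ⟨_, htT i⟩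
      · exact (IntermediateField.adjoin T {W}).algebraMap_mem ⟨_, hXT i⟩
      · rw [Set.mem_singleton_iff] at hz
        rw [hz]
        exact IntermediateField.mem_adjoin_simple_self T W
    exact h2 (Subfield.mem_top z)
  obtain ⟨hfd, hgal, hfin⟩ := V9_galois T hN hω hW0 hWT hgen
  have hgT : ∀ z ∈ T, g z = z := by
    obtain ⟨S, hS⟩ : ∃ S : IntermediateField F E, ∀ x, x ∈ S ↔ g x = x :=
      ⟨{ carrier := {x | g x = x}
         mul_mem' := fun {x y} hx hy => by
           change g (x * y) = x * y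
           rw [map_mul, show g x = x from hx, show g y = y from hy]
         add_mem' := fun {x y} hx hy => by
           change g (x + y) = x + y
           rw [map_add, show g x = x from hx, show g y = y from hy]
         algebraMap_mem' := fun c => gF c
         inv_mem' := fun x hx => by
           change g x⁻¹ = x⁻¹
           rw [map_inv₀, show g x = x from hx] }, fun x => Iff.rfl⟩
    have h1 : T ≤ S := by
      rw [hT, IntermediateField.adjoin_le_iff]
      rintro _ ⟨i | i, rfl⟩
      · exact (hS _).2 (gt i)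
      · exact (hS _).2 (gX i)
    exact fun z hz => (hS z).1 (h1 hz)
  let G : E →ₐ[T] E := { g with commutes' := fun x => hgT _ x.2 }
  obtain ⟨g', hg'⟩ : ∃ g' : E ≃ₐ[T] E, ∀ z, g' z = g z :=
    ⟨AlgEquiv.ofBijective G (Algebra.IsAlgebraic.algHom_bijective G), fun _ => rfl⟩
  have hpow : ∀ i : ℕ, ∀ z, (g' ^ i) z = (g ^ i) z := by
    intro i
    induction i with
    | zero =>
      intro z
      rfl
    | succ i ih =>
      intro z
      rw [pow_succ, pow_succ, AlgEquiv.mul_apply, ih, hg']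
      rfl
  have hpowW : ∀ i : ℕ, (g ^ i) W = algebraMap F E ω ^ i * W := by
    intro i
    induction i with
    | zero =>
      rw [pow_zero, pow_zero, one_mul]
      rfl
    | succ i ih =>
      rw [pow_succ']
      change g ((g ^ i) W) = _
      rw [ih, map_mul, map_pow, gF, gW]
      ring
  have hinj : Set.InjOn (fun i : ℕ => g' ^ i) (range N : Finset ℕ) := by
    intro a ha b hb hab
    have ha' : a < N := mem_range.1 ha
    have hb' : b < N := mem_range.1 hb
    have h1 := congrArg (fun f : E ≃ₐ[T] E => f W) hab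
    simp only [hpow, hpowW] at h1
    have h2 := mul_right_cancel₀ hW0 h1
    exact (hω.map_of_injective (algebraMap F E).injective).pow_inj ha' hb' h2
  have hcard : Fintype.card (E ≃ₐ[T] E) = Module.finrank T E := by
    rw [← Nat.card_eq_fintype_card]
    exact IsGalois.card_aut_eq_finrank T E
  have himg : (range N).image (fun i : ℕ => g' ^ i) = univ := by
    apply eq_of_subset_of_card_le (subset_univ _)
    rw [card_image_of_injOn hinj, card_range, card_univ, hcard]
    exact hfin
  have hN' : Module.finrank T E = N := by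
    rw [← hcard, ← card_univ, ← himg, card_image_of_injOn hinj, card_range]
  have h1 := galSum_purely hm hF T hpure hj hz hd
  rw [hN'] at h1
  have h2 : ∑ σ : E ≃ₐ[T] E, KM.map m (σ : E →+* E) z = ∑ i ∈ range N, KM.map m (g ^ i) z := by
    rw [← himg, sum_image hinj]
    refine sum_congr rfl fun i _ => ?_
    have h3 : ((g' ^ i : E ≃ₐ[T] E) : E →+* E) = g ^ i := by
      ext x
      exact hpow i x
    rw [h3]
  rw [h2] at h1
  exact h1

end UnrG
end

section

/-!
# Twisted pairs: unramified classes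
-/

namespace UnrA.Fer

open UnrG

universe u v w z

open Polynomial Finset
open scoped Classical

variable {p N k₁ k₂ : ℕ} {F Ω : Type u} [Field F] [Field Ω] [Algebra F Ω] {r : ℕ} {t : Fin r → Ω}
  {X : Fin 6 → Ω} {w δ Z₁ Z₂ Y₁ Y₂ : Ω} {e : Fin 6 → ℕ}

/-- Unramified classes of `Ω`. Proof: take `y` from `exists_y` and `T = subT t u₁ u₂ y (X 0 + X 1)`,
`u₁ = -X 1 / Z₁`, `u₂ = -X 3 / Z₂`. By `as_mem`, `adjoin_Y` and `as_galois` the field `Ω` is finite over
`T`, so it is algebraic over `T` and over every larger subfield; by `isPurely_subT` `T` is purely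
transcendental and `u₁`, `u₂` are independent, in particular `u₂ ≠ c u₁` for `c ∈ F`
(use e.g. `AlgebraicIndependent` of the pair and the polynomial `X 1 - C c * X 0`); so the
subfields of `sup_Y`, `sup_Y₂` are purely transcendental. Now `unr_lines` with `k = k₁ * k₂`. -/
theorem pairData_unr [FixSp F p (k₁ * k₂)] [Fact p.Prime] [CharP F p]
    (h : PairData p N k₁ k₂ (F := F) t X w δ Z₁ Z₂ Y₁ Y₂ e) {m : UFun.{u, z}} {z : KM m Ω}
    (hz : Unr z) :
    (p ^ (k₁ * k₂) * ((p ^ (k₁ * k₂)) ^ 2).factorial) • z ∈ cst m F Ω := by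
  have hpN : CharP Ω p := charP_of_injective_algebraMap (algebraMap F Ω).injective p
  have hk : 0 < k₁ * k₂ := Nat.mul_pos h.k₁_pos h.k₂_pos
  obtain ⟨y, hy⟩ := h.exists_y
  obtain ⟨hm1, hm2⟩ := h.as_mem hy
  have hgen := h.adjoin_Y hy
  obtain ⟨hfd, hgal, hle⟩ := as_galois hk _ hm1 hm2 hgen
  have halg : ∀ z : Ω, IsAlgebraic (subT F t (-X 1 / Z₁) (-X 3 / Z₂) y (X 0 + X 1)) z :=
    fun z => Algebra.IsAlgebraic.isAlgebraic z
  obtain ⟨hind, hT⟩ := h.isPurely_subT halg
  -- algebraicity over larger subfields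
  have hup : ∀ B : Ω, (∃ S : IntermediateField F Ω,
      subT F t (-X 1 / Z₁) (-X 3 / Z₂) y (X 0 + X 1) ⊔ S =
        subT F t (-X 1 / Z₁) (-X 3 / Z₂) y B) →
      IsPurely (subT F t (-X 1 / Z₁) (-X 3 / Z₂) y B) := by
    rintro B ⟨S, hS⟩
    refine (h.isPurely_subT fun z => ?_).2
    have hle' : subT F t (-X 1 / Z₁) (-X 3 / Z₂) y (X 0 + X 1) ≤
        subT F t (-X 1 / Z₁) (-X 3 / Z₂) y B := by
      rw [← hS]
      exact le_sup_left
    exact isAlgebraic_of_subfield_le hle' (halg z)
  have hne : ∀ c : F, -X 3 / Z₂ ≠ algebraMap F Ω c * (-X 1 / Z₁) := by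
    intro c hc
    have h2 : AlgebraicIndependent F
        (![-X 1 / Z₁, -X 3 / Z₂, y, X 0 + X 1] ∘ (Fin.castLE (by norm_num) : Fin 2 → Fin 4)) :=
      (hind.comp (Sum.inr : Fin 4 → Fin r ⊕ Fin 4) Sum.inr_injective).comp _
        (Fin.castLE_injective _)
    have h3 : MvPolynomial.aeval
        (![-X 1 / Z₁, -X 3 / Z₂, y, X 0 + X 1] ∘ (Fin.castLE (by norm_num) : Fin 2 → Fin 4))
        (MvPolynomial.X (1 : Fin 2) - MvPolynomial.C c * MvPolynomial.X (0 : Fin 2) :
          MvPolynomial (Fin 2) F) = 0 := by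
      rw [map_sub, map_mul, MvPolynomial.aeval_X, MvPolynomial.aeval_X, MvPolynomial.aeval_C]
      change -X 3 / Z₂ - algebraMap F Ω c * (-X 1 / Z₁) = 0
      rw [hc, sub_self]
    have h4 := h2 (a₁ := MvPolynomial.X (1 : Fin 2) - MvPolynomial.C c * MvPolynomial.X (0 : Fin 2))
      (a₂ := 0) (by rw [h3, map_zero])
    have h5 := congrArg (MvPolynomial.coeff (Finsupp.single (1 : Fin 2) 1)) h4
    rw [MvPolynomial.coeff_sub, MvPolynomial.coeff_X, MvPolynomial.coeff_C_mul,
      MvPolynomial.coeff_X, MvPolynomial.coeff_zero] at h5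
    have h6 : ¬ (Finsupp.single (0 : Fin 2) 1 = Finsupp.single (1 : Fin 2) 1) := by
      intro h7
      have h8 := Finsupp.single_left_injective (one_ne_zero : (1 : ℕ) ≠ 0) h7
      exact absurd h8 (by decide)
    rw [if_neg h6, if_pos rfl, mul_zero, sub_zero] at h5
    exact one_ne_zero h5
  refine unr_lines hk _ hm1 hm2 hgen hT (fun c hc => ?_) ?_ hz
  · have hc' : c ^ p ^ (k₁ * k₂) = c := by
      refine (mem_fixQ ?_).1 hc
      exact Nat.one_lt_pow hk.ne' (Nat.Prime.one_lt Fact.out)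
    rw [h.sup_Y hy hc' (hne c)]
    exact hup _ ⟨_, h.sup_Y hy hc' (hne c)⟩
  · rw [h.sup_Y₂ hy]
    exact hup _ ⟨_, h.sup_Y₂ hy⟩


/-- Unramified classes of a field with two twisted pairs. Proof: take `Ω` from `exists_trace_roots`
with `c₁ = -X 0 / X 1`, `c₂ = -X 2 / X 3`, and the `F`-algebra structure
`((algebraMap K Ω).comp (algebraMap F K)).toAlgebra`; the images of `t`, `X`, `w`, `δ` give `PairData`
(independence: `AlgebraicIndependent.map'` or `AlgHom.algebraicIndependent_iff` for the injection;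
`gen`: the subfield generated by the images and `Y₁`, `Y₂` contains the image of `K` and `Y₁`, `Y₂`).
The image of `z` is unramified (`Unr.map`) of degree `j` (`KM.deg_map`), so it is killed by
`PairData.unr`; now `finrank_smul_eq_zero`, and the degree of `Ω / K` divides
`((p ^ (k₁ k₂)) ^ 2)!`. -/
theorem cycData_unr {K : Type u} [Field K] [Algebra F K] {t : Fin r → K} {X : Fin 6 → K} {w δ : K}
    [FixSp F p (k₁ * k₂)] [Fact p.Prime] [CharP F p] (h : CycData p N k₁ k₂ (F := F) t X w δ e) {m : UFun.{u, z}} {z : KM m K}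
    (hz : Unr z) :
    (((p ^ (k₁ * k₂)) ^ 2).factorial * (p ^ (k₁ * k₂) * ((p ^ (k₁ * k₂)) ^ 2).factorial)) • z
      ∈ cst m F K := by
  have hpK : CharP K p := charP_of_injective_algebraMap (algebraMap F K).injective p
  have hc₁ : -X 0 / X 1 ≠ 0 := div_ne_zero (neg_ne_zero.2 (h.X_ne 0)) (h.X_ne 1)
  have hc₂ : -X 2 / X 3 ≠ 0 := div_ne_zero (neg_ne_zero.2 (h.X_ne 2)) (h.X_ne 3)
  obtain ⟨Ω, iF, iA, Z₁, Z₂, Y₁, Y₂, hfd, hle, hgen, hZ₁, hZ₂, hZ₁p, hZ₂p⟩ :=
    exists_trace_roots (K := K) (p := p) h.k₁_pos h.k₂_pos hc₁ hc₂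
  let _ : Algebra F Ω := ((algebraMap K Ω).comp (algebraMap F K)).toAlgebra
  have hst : IsScalarTower F K Ω := IsScalarTower.of_algebraMap_eq fun x => rfl
  have hP : PairData p N k₁ k₂ (F := F) (fun i => algebraMap K Ω (t i))
      (fun i => algebraMap K Ω (X i)) (algebraMap K Ω w) (algebraMap K Ω δ) Z₁ Z₂ Y₁ Y₂ e :=
    { N_pos := h.N_pos
      k₁_pos := h.k₁_pos
      k₂_pos := h.k₂_pos
      h01 := h.h01
      h23 := h.h23
      h4 := h.h4
      X_ne := fun i => (map_ne_zero (algebraMap K Ω)).2 (h.X_ne i)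
      X_last := by rw [h.X_last, map_one]
      sum := by rw [← map_sum, h.sum, map_zero]
      δ_mem := by
        have h1 : (IntermediateField.adjoin F (Set.range t)).map (IsScalarTower.toAlgHom F K Ω) =
            IntermediateField.adjoin F (Set.range (fun i => algebraMap K Ω (t i))) := by
          rw [IntermediateField.adjoin_map, ← Set.range_comp]
          rfl
        rw [← h1]
        exact ⟨δ, h.δ_mem, rfl⟩
      δ_ne := (map_ne_zero (algebraMap K Ω)).2 h.δ_ne
      eq := by
        rw [← map_pow, h.eq, map_mul, map_prod]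
        simp only [map_pow]
      ind := by
        have h1 := h.ind.map' (f := IsScalarTower.toAlgHom F K Ω) (algebraMap K Ω).injective
        rw [Sum.comp_elim] at h1
        exact h1
      gen := by
        have h1 : ∀ z : K, algebraMap K Ω z ∈ IntermediateField.adjoin F
            (Set.range (fun i => algebraMap K Ω (t i)) ∪
              Set.range (fun i => algebraMap K Ω (X i)) ∪ {algebraMap K Ω w, Y₁, Y₂}) := by
          intro z
          have h2 : (IntermediateField.adjoin F (Set.range t ∪ Set.range X ∪ {w})) ≤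
              (IntermediateField.adjoin F
                (Set.range (fun i => algebraMap K Ω (t i)) ∪
                Set.range (fun i => algebraMap K Ω (X i)) ∪
                {algebraMap K Ω w, Y₁, Y₂})).comap (IsScalarTower.toAlgHom F K Ω) := by
            rw [IntermediateField.adjoin_le_iff]
            rintro y ((⟨i, rfl⟩ | ⟨i, rfl⟩) | hy)
            · exact IntermediateField.subset_adjoin _ _ (Or.inl (Or.inl ⟨i, rfl⟩))
            · exact IntermediateField.subset_adjoin _ _ (Or.inl (Or.inr ⟨i, rfl⟩))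
            · rw [Set.mem_singleton_iff] at hy
              subst hy
              exact IntermediateField.subset_adjoin _ _ (Or.inr (Or.inl rfl))
          exact h2 (by rw [h.gen]; trivial)
        have h3 : (IntermediateField.adjoin K {Y₁, Y₂}).toSubfield ≤
            (IntermediateField.adjoin F (Set.range (fun i => algebraMap K Ω (t i)) ∪
              Set.range (fun i => algebraMap K Ω (X i)) ∪
              {algebraMap K Ω w, Y₁, Y₂})).toSubfield := by
          rw [IntermediateField.adjoin_toSubfield, Subfield.closure_le]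
          rintro y (⟨z, rfl⟩ | hy)
          · exact h1 z
          · exact IntermediateField.subset_adjoin _ _ (Or.inr (Or.inr hy))
        rw [eq_top_iff]
        intro x _
        refine h3 ?_
        rw [hgen]
        trivial
      Z₁_eq := hZ₁
      Z₂_eq := hZ₂
      Z₁_pow := by rw [hZ₁p, map_div₀, map_neg]
      Z₂_pow := by rw [hZ₂p, map_div₀, map_neg] }
  have h1 := smul_mem_cst_of_map (L := K) (pairData_unr hP (hz.map (algebraMap K Ω)))
  refine smul_mem_cst_of_dvd (Nat.mul_dvd_mul ?_ dvd_rfl) h1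
  exact Nat.dvd_factorial Module.finrank_pos hle

end UnrA.Fer
end
end

section

section

/-!
# Four terms: unramified classes
-/

namespace UnrG

universe u v w

open Polynomial Finset
open scoped Classical

variable {p N k₁ k₂ : ℕ} {F Ω : Type u} [Field F] [Field Ω] [Algebra F Ω] {r : ℕ} {t : Fin r → Ω}
  {X : Fin 4 → Ω} {w δ Z₁ Z₂ Y₁ Y₂ : Ω} {e : Fin 4 → ℕ}

/-- As `PairData.isPurely_subT` (PF/G9). -/
theorem Pair4.isPurely_sub4 (h : Pair4 p N k₁ k₂ (F := F) t X w δ Z₁ Z₂ Y₁ Y₂ e) {y B : Ω}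
    (halg : ∀ z : Ω, IsAlgebraic (sub4 F t y B) z) :
    AlgebraicIndependent F (Sum.elim t ![y, B]) ∧ IsPurely (sub4 F t y B) := by
  have h1 : Set.range (Sum.elim t ![y, B]) = Set.range t ∪ {y, B} := by
    rw [Set.Sum.elim_range, Matrix.range_cons, Matrix.range_cons, Matrix.range_empty,
      Set.union_empty]
    rfl
  have h2 : sub4 F t y B = IntermediateField.adjoin F (Set.range (Sum.elim t ![y, B])) := by
    rw [h1]
    rfl
  have h3 : AlgebraicIndependent F (Sum.elim t ![y, B]) := by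
    refine indep_of_trdeg h.ind fun z => ?_
    rw [← h2]
    exact halg z
  refine ⟨h3, ?_⟩
  rw [h2]
  exact isPurely_adjoin _ h3

/-- Proof: otherwise `v` is a constant, so it is algebraic and `y` is algebraic over the field
generated by `t` (`Gen4.alg`), against the independence of `Sum.elim t ![y, B]`
(`AlgebraicIndependent.transcendental_adjoin`-type lemmas, see the proof of `unr_purely` in K/R2). -/
theorem Pair4.v_ne_const {y B v w Z₁ Z₂ : Ω} (hy : Gen4 F t v w Z₁ Z₂ y)
    (hind : AlgebraicIndependent F (Sum.elim t ![y, B])) (c : F) :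
    algebraMap F Ω c * v ≠ 1 := by
  intro h1
  have hc : c ≠ 0 := by
    rintro rfl
    rw [map_zero, zero_mul] at h1
    exact zero_ne_one h1
  have hc' : algebraMap F Ω c ≠ 0 := (_root_.map_ne_zero _).2 hc
  have h2 : v = algebraMap F Ω c⁻¹ := by
    rw [map_inv₀]
    exact eq_inv_of_mul_eq_one_right h1
  have h3 : IsAlgebraic (IntermediateField.adjoin F (Set.range t)) v := by
    rw [h2]
    exact isAlgebraic_algebraMap (algebraMap F (IntermediateField.adjoin F (Set.range t)) c⁻¹)
  have h4 := hy.alg h3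
  have h5 : Transcendental (IntermediateField.adjoin F (Set.range t)) y := by
    rw [IntermediateField.transcendental_adjoin_iff]
    have h6 := hind.transcendental_adjoin (s := Set.range Sum.inl) (i := Sum.inr 0) (by simp)
    have h7 : Sum.elim t ![y, B] '' Set.range Sum.inl = Set.range t := by
      rw [← Set.range_comp]
      rfl
    rw [h7] at h6
    exact h6
  exact h5 h4

/-- Unramified classes of `Ω`. Proof: as `PairData.unr` (PF/G9b): `y` from `exists_y`,
`T = sub4 F t y (Y₁ ^ Q - Y₁)`; `as_mem`, `adjoin_Y`, `as_galois`, `isPurely_sub4`, `v_ne_const`, `sup_Y`,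
`sup_Y₂`, `unr_lines` (PF/G5) with `k = k₁ * k₂`. -/
theorem Pair4.unr [FixSp F p (k₁ * k₂)] [Fact p.Prime] [CharP F p]
    (h : Pair4 p N k₁ k₂ (F := F) t X w δ Z₁ Z₂ Y₁ Y₂ e)
    (hF : ∀ a : F, a ≠ 0 → ∃ n > 0, a ^ n = 1) {j : ℕ} (hj : 2 ≤ j) :
    KillsU (p ^ (k₁ * k₂) * ((p ^ (k₁ * k₂)) ^ 2).factorial) j Ω := by
  intro m z hz hd
  have hm : Any m := any m
  have hpN : CharP Ω p := charP_of_injective_algebraMap (algebraMap F Ω).injective p
  have hk : 0 < k₁ * k₂ := Nat.mul_pos h.k₁_pos h.k₂_pos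
  obtain ⟨y, hy⟩ := h.exists_y
  obtain ⟨hm1, hm2⟩ := h.as_mem hy
  have hgen := h.adjoin_Y hy
  obtain ⟨hfd, hgal, hle⟩ := as_galois hk _ hm1 hm2 hgen
  have halg : ∀ z : Ω, IsAlgebraic (sub4 F t y (Y₁ ^ p ^ (k₁ * k₂) - Y₁)) z :=
    fun z => Algebra.IsAlgebraic.isAlgebraic z
  obtain ⟨hind, hT⟩ := h.isPurely_sub4 halg
  -- algebraicity over larger subfields
  have hup : ∀ B : Ω, (∃ S : IntermediateField F Ω,
      sub4 F t y (Y₁ ^ p ^ (k₁ * k₂) - Y₁) ⊔ S = sub4 F t y B) →
      IsPurely (sub4 F t y B) := by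
    rintro B ⟨S, hS⟩
    refine (h.isPurely_sub4 fun z => ?_).2
    have hle' : sub4 F t y (Y₁ ^ p ^ (k₁ * k₂) - Y₁) ≤ sub4 F t y B := by
      rw [← hS]
      exact le_sup_left
    obtain ⟨f, hf0, hf⟩ := halg z
    refine ⟨f.map (IntermediateField.inclusion hle').toRingHom, ?_, ?_⟩
    · rw [Ne, Polynomial.map_eq_zero]
      exact hf0
    · rw [Polynomial.aeval_def, Polynomial.eval₂_map]
      exact hf
  refine unr_lines hm hF hk _ hm1 hm2 hgen hT (fun c hc => ?_) ?_ hj hz hd
  · have hc' : c ^ p ^ (k₁ * k₂) = c := by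
      refine (mem_fixQ ?_).1 hc
      exact Nat.one_lt_pow hk.ne' (Nat.Prime.one_lt Fact.out)
    have hne := Pair4.v_ne_const hy hind c
    rw [h.sup_Y hy hc' hne]
    exact hup _ ⟨_, h.sup_Y hy hc' hne⟩
  · rw [h.sup_Y₂ hy]
    exact hup _ ⟨_, h.sup_Y₂ hy⟩

end UnrG
end

section

/-!
# Killing unramified classes up to constant classes
-/

namespace UnrA.Fer

open UnrG

universe u v w z

open Polynomial Finset
open scoped Classical

/-- Each unramified class of `K` multiplied by `C` comes from an unramified class of `F`. -/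
def KillsC (m : UFun.{u, z}) (C : ℕ) (F K : Type u) [Field F] [Field K] [Algebra F K] : Prop :=
  ∀ x : KM m K, Unr x → C • x ∈ cst m F K

section

variable {m : UFun.{u, z}} {F K K' : Type u} [Field F] [Field K] [Field K'] [Algebra F K]
  [Algebra F K']

lemma KillsC.of_finite [Algebra K K'] [IsScalarTower F K K'] [FiniteDimensional K K'] {C D : ℕ}
    (h : KillsC m C F K') (hD : Module.finrank K K' ≤ D) : KillsC m (D.factorial * C) F K := by
  intro x hx
  have h1 := smul_mem_cst_of_map (L := K) (h _ (hx.map (algebraMap K K')))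
  exact smul_mem_cst_of_dvd (Nat.mul_dvd_mul (Nat.dvd_factorial Module.finrank_pos hD) dvd_rfl) h1

lemma KillsC.of_dvd {C D : ℕ} (h : KillsC m C F K) (hD : C ∣ D) : KillsC m D F K :=
  fun x hx => smul_mem_cst_of_dvd hD (h x hx)

lemma KillsC.of_purely {n : ℕ} {v : Fin n → K} (hv : AlgebraicIndependent F v)
    (hgen : IntermediateField.adjoin F (Set.range v) = ⊤) : KillsC m 1 F K := by
  intro x hx
  rw [one_smul]
  exact unr_purely v hv hgen hx

end

section

variable {m : UFun.{u, z}}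

variable {p N k₁ k₂ : ℕ} {F Ω : Type u} [Field F] [Field Ω] [Algebra F Ω] {r : ℕ} {t : Fin r → Ω}
  {X : Fin 4 → Ω} {w δ Z₁ Z₂ Y₁ Y₂ : Ω} {e : Fin 4 → ℕ}

/-- Unramified classes of a field with two twisted pairs and four terms. -/
theorem pair4_unr [FixSp F p (k₁ * k₂)] [Fact p.Prime] [CharP F p]
    (h : Pair4 p N k₁ k₂ (F := F) t X w δ Z₁ Z₂ Y₁ Y₂ e) :
    KillsC m (p ^ (k₁ * k₂) * ((p ^ (k₁ * k₂)) ^ 2).factorial) F Ω := by
  intro z hz
  have hpN : CharP Ω p := charP_of_injective_algebraMap (algebraMap F Ω).injective p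
  have hk : 0 < k₁ * k₂ := Nat.mul_pos h.k₁_pos h.k₂_pos
  obtain ⟨y, hy⟩ := h.exists_y
  obtain ⟨hm1, hm2⟩ := h.as_mem hy
  have hgen := h.adjoin_Y hy
  obtain ⟨hfd, hgal, hle⟩ := as_galois hk _ hm1 hm2 hgen
  have halg : ∀ z : Ω, IsAlgebraic (sub4 F t y (Y₁ ^ p ^ (k₁ * k₂) - Y₁)) z :=
    fun z => Algebra.IsAlgebraic.isAlgebraic z
  obtain ⟨hind, hT⟩ := h.isPurely_sub4 halg
  -- algebraicity over larger subfields
  have hup : ∀ B : Ω, (∃ S : IntermediateField F Ω,
      sub4 F t y (Y₁ ^ p ^ (k₁ * k₂) - Y₁) ⊔ S = sub4 F t y B) →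
      IsPurely (sub4 F t y B) := by
    rintro B ⟨S, hS⟩
    refine (h.isPurely_sub4 fun z => ?_).2
    have hle' : sub4 F t y (Y₁ ^ p ^ (k₁ * k₂) - Y₁) ≤ sub4 F t y B := by
      rw [← hS]
      exact le_sup_left
    obtain ⟨f, hf0, hf⟩ := halg z
    refine ⟨f.map (IntermediateField.inclusion hle').toRingHom, ?_, ?_⟩
    · rw [Ne, Polynomial.map_eq_zero]
      exact hf0
    · rw [Polynomial.aeval_def, Polynomial.eval₂_map]
      exact hf
  refine unr_lines hk _ hm1 hm2 hgen hT (fun c hc => ?_) ?_ hz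
  · have hc' : c ^ p ^ (k₁ * k₂) = c := by
      refine (mem_fixQ ?_).1 hc
      exact Nat.one_lt_pow hk.ne' (Nat.Prime.one_lt Fact.out)
    have hne := Pair4.v_ne_const hy hind c
    rw [h.sup_Y hy hc' hne]
    exact hup _ ⟨_, h.sup_Y hy hc' hne⟩
  · rw [h.sup_Y₂ hy]
    exact hup _ ⟨_, h.sup_Y₂ hy⟩

end

section

variable {m : UFun.{u, z}}

variable {p N k₁ k₂ : ℕ} {F K : Type u} [Field F] [Field K] [Algebra F K] {r : ℕ} {t : Fin r → K}
  {X : Fin 4 → K} {w δ : K} {e : Fin 4 → ℕ}

/-- Unramified classes of a field with two twisted pairs and four terms. -/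
theorem cyc4_unr [FixSp F p (k₁ * k₂)] [Fact p.Prime] [CharP F p]
    (h : Cyc4 p N k₁ k₂ (F := F) t X w δ e) :
    KillsC m (((p ^ (k₁ * k₂)) ^ 2).factorial *
      (p ^ (k₁ * k₂) * ((p ^ (k₁ * k₂)) ^ 2).factorial)) F K := by
  have hpK : CharP K p := charP_of_injective_algebraMap (algebraMap F K).injective p
  have hc₁ : -X 0 / X 1 ≠ 0 := div_ne_zero (neg_ne_zero.2 (h.X_ne 0)) (h.X_ne 1)
  have hc₂ : -X 2 / X 3 ≠ 0 := div_ne_zero (neg_ne_zero.2 (h.X_ne 2)) (h.X_ne 3)
  obtain ⟨Ω, iF, iA, Z₁, Z₂, Y₁, Y₂, hfd, hle, hgen, hZ₁, hZ₂, hZ₁p, hZ₂p⟩ :=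
    exists_trace_roots (K := K) (p := p) h.k₁_pos h.k₂_pos hc₁ hc₂
  let _ : Algebra F Ω := ((algebraMap K Ω).comp (algebraMap F K)).toAlgebra
  have hst : IsScalarTower F K Ω := IsScalarTower.of_algebraMap_eq fun x => rfl
  have hP : Pair4 p N k₁ k₂ (F := F) (fun i => algebraMap K Ω (t i))
      (fun i => algebraMap K Ω (X i)) (algebraMap K Ω w) (algebraMap K Ω δ) Z₁ Z₂ Y₁ Y₂ e :=
    { N_pos := h.N_pos
      k₁_pos := h.k₁_pos
      k₂_pos := h.k₂_pos
      h01 := h.h01
      h23 := h.h23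
      hsum := h.hsum
      hb := h.hb
      X_ne := fun i => (map_ne_zero (algebraMap K Ω)).2 (h.X_ne i)
      X_last := by rw [h.X_last, map_one]
      sum := by rw [← map_sum, h.sum, map_zero]
      δ_mem := by
        have h1 : (IntermediateField.adjoin F (Set.range t)).map (IsScalarTower.toAlgHom F K Ω) =
            IntermediateField.adjoin F (Set.range (fun i => algebraMap K Ω (t i))) := by
          rw [IntermediateField.adjoin_map, ← Set.range_comp]
          rfl
        rw [← h1]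
        exact ⟨δ, h.δ_mem, rfl⟩
      δ_ne := (map_ne_zero (algebraMap K Ω)).2 h.δ_ne
      eq := by
        rw [← map_pow, h.eq, map_mul, map_prod]
        simp only [map_pow]
      ind := by
        have h1 := h.ind.map' (f := IsScalarTower.toAlgHom F K Ω) (algebraMap K Ω).injective
        rw [Sum.comp_elim] at h1
        exact h1
      gen := by
        have h1 : ∀ z : K, algebraMap K Ω z ∈ IntermediateField.adjoin F
            (Set.range (fun i => algebraMap K Ω (t i)) ∪
              Set.range (fun i => algebraMap K Ω (X i)) ∪ {algebraMap K Ω w, Y₁, Y₂}) := by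
          intro z
          have h2 : (IntermediateField.adjoin F (Set.range t ∪ Set.range X ∪ {w})) ≤
              (IntermediateField.adjoin F
                (Set.range (fun i => algebraMap K Ω (t i)) ∪
                Set.range (fun i => algebraMap K Ω (X i)) ∪
                {algebraMap K Ω w, Y₁, Y₂})).comap (IsScalarTower.toAlgHom F K Ω) := by
            rw [IntermediateField.adjoin_le_iff]
            rintro y ((⟨i, rfl⟩ | ⟨i, rfl⟩) | hy)
            · exact IntermediateField.subset_adjoin _ _ (Or.inl (Or.inl ⟨i, rfl⟩))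
            · exact IntermediateField.subset_adjoin _ _ (Or.inl (Or.inr ⟨i, rfl⟩))
            · rw [Set.mem_singleton_iff] at hy
              subst hy
              exact IntermediateField.subset_adjoin _ _ (Or.inr (Or.inl rfl))
          exact h2 (by rw [h.gen]; trivial)
        have h3 : (IntermediateField.adjoin K {Y₁, Y₂}).toSubfield ≤
            (IntermediateField.adjoin F (Set.range (fun i => algebraMap K Ω (t i)) ∪
              Set.range (fun i => algebraMap K Ω (X i)) ∪
              {algebraMap K Ω w, Y₁, Y₂})).toSubfield := by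
          rw [IntermediateField.adjoin_toSubfield, Subfield.closure_le]
          rintro y (⟨z, rfl⟩ | hy)
          · exact h1 z
          · exact IntermediateField.subset_adjoin _ _ (Or.inr (Or.inr hy))
        rw [eq_top_iff]
        intro x _
        refine h3 ?_
        rw [hgen]
        trivial
      Z₁_eq := hZ₁
      Z₂_eq := hZ₂
      Z₁_pow := by rw [hZ₁p, map_div₀, map_neg]
      Z₂_pow := by rw [hZ₂p, map_div₀, map_neg] }
  exact (pair4_unr hP).of_finite hle

end

end UnrA.Fer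
end

section

/-!
# Four terms: unramified classes
-/

namespace UnrG

universe u v w

open Polynomial Finset
open scoped Classical

variable {p N k₁ k₂ : ℕ} {F K : Type u} [Field F] [Field K] [Algebra F K] {r : ℕ} {t : Fin r → K}
  {X : Fin 4 → K} {w δ : K} {e : Fin 4 → ℕ}

/-- Classes killed in a finite extension. Hint: `finrank_smul_eq_zero`, `Unr.map`, `KM.deg_map`,
`Nat.dvd_factorial`. -/
lemma KillsU.of_finite {K K' : Type u} [Field K] [Field K'] [Algebra K K']
    [FiniteDimensional K K'] {C j D : ℕ} (h : KillsU C j K') (hD : Module.finrank K K' ≤ D) :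
    KillsU (D.factorial * C) j K := by
  intro m z hz hd
  have h1 : C • KM.map m (algebraMap K K') z = 0 :=
    h m _ (hz.map (algebraMap K K')) (KM.deg_map (algebraMap K K') hd)
  rw [← map_nsmul] at h1
  have h2 := finrank_smul_eq_zero (any m) _ rfl h1
  obtain ⟨k, hk⟩ : Module.finrank K K' ∣ D.factorial :=
    Nat.dvd_factorial Module.finrank_pos hD
  rw [hk, mul_comm (Module.finrank K K') k, mul_assoc, mul_nsmul', mul_nsmul', h2, nsmul_zero]

lemma KillsU.of_dvd {K : Type u} [Field K] {C D j : ℕ} (h : KillsU C j K) (hD : C ∣ D) :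
    KillsU D j K := by
  intro m z hz hd
  obtain ⟨k, rfl⟩ := hD
  rw [mul_comm, mul_nsmul', h m z hz hd, nsmul_zero]

/-- Unramified classes of a field with two twisted pairs. Proof: as `CycData.unr` (PF/G9c), with
`exists_trace_roots` and `Pair4.unr`. -/
theorem Cyc4.unr [FixSp F p (k₁ * k₂)] [Fact p.Prime] [CharP F p]
    (h : Cyc4 p N k₁ k₂ (F := F) t X w δ e)
    (hF : ∀ a : F, a ≠ 0 → ∃ n > 0, a ^ n = 1) {j : ℕ} (hj : 2 ≤ j) :
    KillsU (((p ^ (k₁ * k₂)) ^ 2).factorial *
      (p ^ (k₁ * k₂) * ((p ^ (k₁ * k₂)) ^ 2).factorial)) j K := by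
  have hpK : CharP K p := charP_of_injective_algebraMap (algebraMap F K).injective p
  have hc₁ : -X 0 / X 1 ≠ 0 := div_ne_zero (neg_ne_zero.2 (h.X_ne 0)) (h.X_ne 1)
  have hc₂ : -X 2 / X 3 ≠ 0 := div_ne_zero (neg_ne_zero.2 (h.X_ne 2)) (h.X_ne 3)
  obtain ⟨Ω, iF, iA, Z₁, Z₂, Y₁, Y₂, hfd, hle, hgen, hZ₁, hZ₂, hZ₁p, hZ₂p⟩ :=
    exists_trace_roots (K := K) (p := p) h.k₁_pos h.k₂_pos hc₁ hc₂
  let _ : Algebra F Ω := ((algebraMap K Ω).comp (algebraMap F K)).toAlgebra
  have hst : IsScalarTower F K Ω := IsScalarTower.of_algebraMap_eq fun x => rfl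
  have hP : Pair4 p N k₁ k₂ (F := F) (fun i => algebraMap K Ω (t i))
      (fun i => algebraMap K Ω (X i)) (algebraMap K Ω w) (algebraMap K Ω δ) Z₁ Z₂ Y₁ Y₂ e :=
    { N_pos := h.N_pos
      k₁_pos := h.k₁_pos
      k₂_pos := h.k₂_pos
      h01 := h.h01
      h23 := h.h23
      hsum := h.hsum
      hb := h.hb
      X_ne := fun i => (map_ne_zero (algebraMap K Ω)).2 (h.X_ne i)
      X_last := by rw [h.X_last, map_one]
      sum := by rw [← map_sum, h.sum, map_zero]
      δ_mem := by
        have h1 : (IntermediateField.adjoin F (Set.range t)).map (IsScalarTower.toAlgHom F K Ω) =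
            IntermediateField.adjoin F (Set.range (fun i => algebraMap K Ω (t i))) := by
          rw [IntermediateField.adjoin_map, ← Set.range_comp]
          rfl
        rw [← h1]
        exact ⟨δ, h.δ_mem, rfl⟩
      δ_ne := (map_ne_zero (algebraMap K Ω)).2 h.δ_ne
      eq := by
        rw [← map_pow, h.eq, map_mul, map_prod]
        simp only [map_pow]
      ind := by
        have h1 := h.ind.map' (f := IsScalarTower.toAlgHom F K Ω) (algebraMap K Ω).injective
        rw [Sum.comp_elim] at h1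
        exact h1
      gen := by
        have h1 : ∀ z : K, algebraMap K Ω z ∈ IntermediateField.adjoin F
            (Set.range (fun i => algebraMap K Ω (t i)) ∪
              Set.range (fun i => algebraMap K Ω (X i)) ∪ {algebraMap K Ω w, Y₁, Y₂}) := by
          intro z
          have h2 : (IntermediateField.adjoin F (Set.range t ∪ Set.range X ∪ {w})) ≤
              (IntermediateField.adjoin F
                (Set.range (fun i => algebraMap K Ω (t i)) ∪
                Set.range (fun i => algebraMap K Ω (X i)) ∪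
                {algebraMap K Ω w, Y₁, Y₂})).comap (IsScalarTower.toAlgHom F K Ω) := by
            rw [IntermediateField.adjoin_le_iff]
            rintro y ((⟨i, rfl⟩ | ⟨i, rfl⟩) | hy)
            · exact IntermediateField.subset_adjoin _ _ (Or.inl (Or.inl ⟨i, rfl⟩))
            · exact IntermediateField.subset_adjoin _ _ (Or.inl (Or.inr ⟨i, rfl⟩))
            · rw [Set.mem_singleton_iff] at hy
              subst hy
              exact IntermediateField.subset_adjoin _ _ (Or.inr (Or.inl rfl))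
          exact h2 (by rw [h.gen]; trivial)
        have h3 : (IntermediateField.adjoin K {Y₁, Y₂}).toSubfield ≤
            (IntermediateField.adjoin F (Set.range (fun i => algebraMap K Ω (t i)) ∪
              Set.range (fun i => algebraMap K Ω (X i)) ∪
              {algebraMap K Ω w, Y₁, Y₂})).toSubfield := by
          rw [IntermediateField.adjoin_toSubfield, Subfield.closure_le]
          rintro y (⟨z, rfl⟩ | hy)
          · exact h1 z
          · exact IntermediateField.subset_adjoin _ _ (Or.inr (Or.inr hy))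
        rw [eq_top_iff]
        intro x _
        refine h3 ?_
        rw [hgen]
        trivial
      Z₁_eq := hZ₁
      Z₂_eq := hZ₂
      Z₁_pow := by rw [hZ₁p, map_div₀, map_neg]
      Z₂_pow := by rw [hZ₂p, map_div₀, map_neg] }
  exact (hP.unr hF hj).of_finite hle

end UnrG
end

section

/-!
# Relations with four terms: unramified classes
-/

namespace UnrG

universe u v w

open Polynomial Finset

/-- Hint: `unr_purely`, `const_eq_zero`. -/
theorem KillsU.of_purely {F K : Type u} [Field F] [Field K] [Algebra F K]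
    (hF : ∀ a : F, a ≠ 0 → ∃ n > 0, a ^ n = 1) {s : ℕ} {v : Fin s → K}
    (hv : AlgebraicIndependent F v) (hgen : IntermediateField.adjoin F (Set.range v) = ⊤)
    {j : ℕ} (hj : 2 ≤ j) : KillsU 1 j K := by
  intro m z hz hd
  obtain ⟨y, hy⟩ := unr_purely (any m) v hv hgen hz
  rw [one_nsmul, ← hy]
  exact const_eq_zero (any m) (algebraMap F K) hF hj y (by rw [hy]; exact hd)

/-- Four distinct elements of `Fin 4` are the images of `0, 1, 2, 3` by a permutation. -/
lemma exists_perm4 {i₀ i₁ i₂ i₃ : Fin (2 + 2)} (h : [i₀, i₁, i₂, i₃].Nodup) :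
    ∃ π : Equiv.Perm (Fin (2 + 2)), π 0 = i₀ ∧ π 1 = i₁ ∧ π 2 = i₂ ∧ π 3 = i₃ := by
  have hinj : Function.Injective (![i₀, i₁, i₂, i₃] : Fin (2 + 2) → Fin (2 + 2)) := by
    rw [← List.nodup_ofFn]
    simpa [List.ofFn_succ] using h
  let π : Equiv.Perm (Fin (2 + 2)) :=
    Equiv.ofBijective _ ((Finite.injective_iff_bijective).1 hinj)
  exact ⟨π, rfl, rfl, rfl, rfl⟩

variable {N : ℕ} {F K : Type u} [Field F] [Field K] [Algebra F K] {r l : ℕ} {t : Fin r → K}
  {Y : Fin (2 + 2) → K} {e : Fin (2 + 2) → ZMod N} {x : Fin l → K} {B A : Fin l → ZMod N} {w : K}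
  {K₀ : IntermediateField F K}

/-- Proof: `exists_perm4`; if `e i₀ + e i₁ = 0` then `Sys.isPurely_of_opp`, `KillsU.of_purely`,
`KillsU.of_dvd`; otherwise `Sys.cyc4`, `Cyc4.unr`, `KillsU.of_dvd` (the constants divide the
factorials because `k₁ * k₂ ≤ s`). -/
theorem Sys.kills_four {p : ℕ} [Fact p.Prime] [CharP F p] [Fact N.Prime]
    (hF : ∀ a : F, a ≠ 0 → ∃ n > 0, a ^ n = 1) (h : Sys N t Y e x B A w K₀)
    (h0 : ∀ i, e i ≠ 0) {i₀ i₁ i₂ i₃ : Fin (2 + 2)} (hi : [i₀, i₁, i₂, i₃].Nodup)
    {k₁ k₂ s : ℕ} [FixSp F p (k₁ * k₂)] (hk₁ : 0 < k₁) (hk₂ : 0 < k₂) (hs : k₁ * k₂ ≤ s)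
    (h1 : e i₁ = -(p : ZMod N) ^ k₁ * e i₀) (h2 : e i₃ = -(p : ZMod N) ^ k₂ * e i₂) {j : ℕ}
    (hj : 2 ≤ j) :
    KillsU (((p ^ s) ^ 2).factorial * (p ^ s * ((p ^ s) ^ 2).factorial)) j K := by
  obtain ⟨π, rfl, rfl, rfl, rfl⟩ := exists_perm4 hi
  have hp1 : 0 < p := Nat.Prime.pos Fact.out
  by_cases hb : e (π 0) + e (π 1) = 0
  · obtain ⟨s', v, hv, hgen⟩ := h.isPurely_of_opp π (h0 _) hb
    exact (KillsU.of_purely hF hv hgen hj).of_dvd (one_dvd _)
  · obtain ⟨w', hw'⟩ := h.cyc4 π hk₁ hk₂ h1 h2 hb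
    refine (hw'.unr hF hj).of_dvd ?_
    have h3 : p ^ (k₁ * k₂) ∣ p ^ s := pow_dvd_pow p hs
    have h4 : ((p ^ (k₁ * k₂)) ^ 2).factorial ∣ ((p ^ s) ^ 2).factorial :=
      Nat.factorial_dvd_factorial (Nat.pow_le_pow_left (Nat.pow_le_pow_right hp1 hs) 2)
    exact mul_dvd_mul h4 (mul_dvd_mul h3 h4)

end UnrG
end

section

/-!
# Relations with four terms: unramified classes
-/

namespace UnrG

universe u v w

open Polynomial Finset

variable {N : ℕ} {F K : Type u} [Field F] [Field K] [Algebra F K] {r l : ℕ} {t : Fin r → K}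
  {Y : Fin (2 + 2) → K} {e : Fin (2 + 2) → ZMod N} {x : Fin l → K} {B A : Fin l → ZMod N} {δ w : K}
  {K₀ : IntermediateField F K}

/-- Proof: `exists_perm4`; if `e i₀ + e i₁ = 0` then `SysD.isPurely_of_opp`, `KillsU.of_purely`,
`KillsU.of_dvd`; otherwise `SysD.cyc4`, `Cyc4.unr`, `KillsU.of_dvd` (the constants divide the
factorials because `k₁ * k₂ ≤ s`). -/
theorem SysD.kills_four {p : ℕ} [Fact p.Prime] [CharP F p] [Fact N.Prime]
    (hF : ∀ a : F, a ≠ 0 → ∃ n > 0, a ^ n = 1) (h : SysD N t Y e x B A δ w K₀)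
    (h0 : ∀ i, e i ≠ 0) {i₀ i₁ i₂ i₃ : Fin (2 + 2)} (hi : [i₀, i₁, i₂, i₃].Nodup)
    {k₁ k₂ s : ℕ} [FixSp F p (k₁ * k₂)] (hk₁ : 0 < k₁) (hk₂ : 0 < k₂) (hs : k₁ * k₂ ≤ s)
    (h1 : e i₁ = -(p : ZMod N) ^ k₁ * e i₀) (h2 : e i₃ = -(p : ZMod N) ^ k₂ * e i₂) {j : ℕ}
    (hj : 2 ≤ j) :
    KillsU (((p ^ s) ^ 2).factorial * (p ^ s * ((p ^ s) ^ 2).factorial)) j K := by
  obtain ⟨π, rfl, rfl, rfl, rfl⟩ := exists_perm4 hi
  have hp1 : 0 < p := Nat.Prime.pos Fact.out
  by_cases hb : e (π 0) + e (π 1) = 0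
  · obtain ⟨s', v, hv, hgen⟩ := h.isPurely_of_opp π (h0 _) hb
    exact (KillsU.of_purely hF hv hgen hj).of_dvd (one_dvd _)
  · obtain ⟨w', hw'⟩ := h.cyc4 π hk₁ hk₂ h1 h2 hb
    refine (hw'.unr hF hj).of_dvd ?_
    have h3 : p ^ (k₁ * k₂) ∣ p ^ s := pow_dvd_pow p hs
    have h4 : ((p ^ (k₁ * k₂)) ^ 2).factorial ∣ ((p ^ s) ^ 2).factorial :=
      Nat.factorial_dvd_factorial (Nat.pow_le_pow_left (Nat.pow_le_pow_right hp1 hs) 2)
    exact mul_dvd_mul h4 (mul_dvd_mul h3 h4)

end UnrG
end

section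

/-!
# Families of products of Fermat curves: reduction to the monomial subfields
-/

namespace UnrA.Fer

open UnrG

universe u v w z

open Polynomial Finset
open scoped Classical

variable {m : UFun.{u, z}}

/-- The sum of the conjugates over a subfield whose unramified classes come from the constants. -/
theorem galSum_killsC {F M : Type u} [Field F] [Field M] [Algebra F M]
    (T : IntermediateField F M) [FiniteDimensional T M] [IsGalois T M] {C : ℕ}
    (hC : KillsC m C F T) {ξ : KM m M} (hξ : Unr ξ) :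
    (C * Module.finrank T M) • ∑ g : M ≃ₐ[T] M, KM.map m (g : M →+* M) ξ ∈ cst m F M := by
  obtain ⟨y, hy⟩ := exists_trace (K := T) (L := M) ξ
  have hSu : Unr (∑ g : M ≃ₐ[T] M, KM.map m (g : M →+* M) ξ) := Unr.sum fun c _ => hξ.map _
  have h2 : Unr (Module.finrank T M • y) := unr_smul_of_map (by rw [hy]; exact hSu)
  have h3 := map_mem_cst (hC _ h2) (f := algebraMap T M) (M := M) (fun a => rfl)
  rwa [map_nsmul, map_nsmul, hy, smul_smul] at h3

variable {𝔽 : Type w} [Field 𝔽] [Fintype 𝔽] (b : Base 𝔽)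

lemma fieldX_eq_fieldG {F M : Type u} [Field F] [Field M] [Algebra F M] {r n : ℕ}
    (t : Fin r → M) (x y : Fin n → M) :
    fieldX b F t x = fieldG b F t x y 0 0 := by
  refine le_antisymm (IntermediateField.adjoin.mono _ _ _ Set.subset_union_left) ?_
  unfold fieldG
  rw [IntermediateField.adjoin_le_iff]
  rintro z (hz | hz)
  · exact IntermediateField.subset_adjoin _ _ hz
  · rw [Set.mem_singleton_iff] at hz
    have h1 : z = 1 := by
      rw [hz]
      unfold mono
      refine Finset.prod_eq_one fun j _ => ?_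
      simp
    rw [h1]
    exact one_mem _

/-- The field of the powers of the coordinates of a Fermat family is purely transcendental. -/
lemma family_isPurely {F M : Type u} [Field F] [Field M] [Algebra F M] {r n : ℕ}
    {t : Fin r → M} {u v x y : Fin n → M} (h : IsFermatFamily b.N (F := F) t u v x y) :
    IsPurely (fieldX b F t x) := by
  have h1 : fieldX b F t x = IntermediateField.adjoin F
      (Set.range (Sum.elim t (fun j => u j * x j ^ b.N))) := by
    obtain ⟨R, hR⟩ : ∃ R, R = IntermediateField.adjoin F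
      (Set.range (Sum.elim t (fun j => u j * x j ^ b.N))) := ⟨_, rfl⟩
    have htR : IntermediateField.adjoin F (Set.range t) ≤ R := by
      rw [hR]
      refine IntermediateField.adjoin.mono F _ _ ?_
      rintro _ ⟨i, rfl⟩
      exact ⟨Sum.inl i, rfl⟩
    have htX : IntermediateField.adjoin F (Set.range t) ≤ fieldX b F t x :=
      IntermediateField.adjoin.mono F _ _ Set.subset_union_left
    rw [← hR]
    apply le_antisymm
    · unfold fieldX
      rw [IntermediateField.adjoin_le_iff]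
      rintro z (⟨i, rfl⟩ | ⟨i, rfl⟩)
      · exact htR (IntermediateField.subset_adjoin F _ ⟨i, rfl⟩)
      · have h2 : x i ^ b.N = (u i)⁻¹ * (u i * x i ^ b.N) := by
          rw [inv_mul_cancel_left₀ (h.left_ne i)]
        change x i ^ b.N ∈ R
        rw [h2]
        refine mul_mem (inv_mem (htR (h.left_mem i))) ?_
        rw [hR]
        exact IntermediateField.subset_adjoin F _ ⟨Sum.inr i, rfl⟩
    · rw [hR, IntermediateField.adjoin_le_iff]
      rintro _ ⟨i | i, rfl⟩
      · exact htX (IntermediateField.subset_adjoin F _ ⟨i, rfl⟩)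
      · refine mul_mem (htX (h.left_mem i)) ?_
        exact IntermediateField.subset_adjoin F _ (Or.inr ⟨i, rfl⟩)
  rw [h1]
  exact isPurely_adjoin _ (h.ind_mul b)

/-- Reduction of the theorem on families of products of Fermat curves to the monomial
subfields. -/
theorem family_reduced (hN : b.N.Prime) {F M : Type u} [Field F] [Field M] [Algebra F M] {r n : ℕ}
    {t : Fin r → M} {u v x y : Fin n → M} (h : IsFermatFamily b.N (F := F) t u v x y)
    (ι : 𝔽 →+* F) {ξ : KM m M} (hξ : Unr ξ) {C : ℕ}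
    (P : Set ((Fin n → ZMod b.N) × (Fin n → ZMod b.N)))
    (hP : ∀ h ∈ P, ∃ f : M →+* M, (∀ z : F, f (algebraMap F M z) = algebraMap F M z) ∧
      (∀ i, f (t i) = t i) ∧ (∀ j, f (x j) = algebraMap F M (ι b.ζ) ^ (h.1 j).val * x j) ∧
      (∀ j, f (y j) = algebraMap F M (ι b.ζ) ^ (h.2 j).val * y j) ∧ KM.map m f ξ = ξ)
    (hC : ∀ B A : Fin n → ZMod b.N, ¬ (B = 0 ∧ A = 0) →
      (∀ h ∈ P, ∑ j, (B j * h.1 j + A j * h.2 j) = 0) →
      KillsC m C F (fieldG b F t x y B A)) :
    (b.N ^ (2 * n) * (b.N - 1) * (b.N * ((b.N ^ (2 * n)).factorial * C))) • ξ ∈ cst m F M := by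
  obtain ⟨E₁, hE₁⟩ : ∃ E₁, E₁ = (b.N ^ (2 * n)).factorial * C := ⟨_, rfl⟩
  rw [← hE₁]
  have hle : ∀ B A : Fin n → ZMod b.N, fieldX b F t x ≤ fieldG b F t x y B A := fun B A =>
    IntermediateField.adjoin.mono _ _ _ Set.subset_union_left
  have hfdX : FiniteDimensional (fieldX b F t x) M := (h.galois b ι _ le_rfl).1
  have hfdG : ∀ B A : Fin n → ZMod b.N, FiniteDimensional (fieldG b F t x y B A) M :=
    fun B A => (h.galois b ι _ (hle B A)).1
  have hpure : IsPurely (fieldX b F t x) := family_isPurely b h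
  have hcongr : ∀ (T₁ T₂ : IntermediateField F M) (_ : T₁ = T₂) [Fintype (M ≃ₐ[T₁] M)]
      [Fintype (M ≃ₐ[T₂] M)], ∑ g : M ≃ₐ[T₁] M, KM.map m (g : M →+* M) ξ =
        ∑ g : M ≃ₐ[T₂] M, KM.map m (g : M →+* M) ξ := by
    rintro T₁ T₂ rfl i₁ i₂
    have h1 : i₁ = i₂ := Subsingleton.elim _ _
    subst h1
    rfl
  have hXk : E₁ • ∑ g : M ≃ₐ[fieldX b F t x] M, KM.map m (g : M →+* M) ξ ∈ cst m F M := by
    obtain ⟨_, hgal, hfin⟩ := h.galois b ι _ (le_refl (fieldX b F t x))
    have h1 := galSum_purely (fieldX b F t x) hpure hξ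
    refine smul_mem_cst_of_dvd ?_ h1
    rw [hE₁]
    exact Dvd.dvd.mul_right (Nat.dvd_factorial Module.finrank_pos hfin) _
  -- the exponents which are not killed by `P`
  have keyR : ∀ γ : (Fin n → ZMod b.N) × (Fin n → ZMod b.N),
      (∀ h ∈ P, ∑ j, (γ.1 j * h.1 j + γ.2 j * h.2 j) = 0) →
      E₁ • ∑ g : M ≃ₐ[fieldG b F t x y γ.1 γ.2] M, KM.map m (g : M →+* M) ξ ∈ cst m F M := by
    intro γ hγ
    by_cases h0 : γ.1 = 0 ∧ γ.2 = 0
    · obtain ⟨B, A⟩ := γ
      obtain ⟨rfl, rfl⟩ : B = 0 ∧ A = 0 := h0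
      rw [← hcongr _ _ (fieldX_eq_fieldG b t x y)]
      exact hXk
    · obtain ⟨hfd, hgal, hfin⟩ := h.galois b ι _ (hle γ.1 γ.2)
      have h1 := galSum_killsC (fieldG b F t x y γ.1 γ.2) (hC γ.1 γ.2 h0 hγ) hξ
      refine smul_mem_cst_of_dvd ?_ h1
      rw [hE₁, mul_comm]
      exact mul_dvd_mul (Nat.dvd_factorial Module.finrank_pos hfin) dvd_rfl
  have key : ∀ γ : (Fin n → ZMod b.N) × (Fin n → ZMod b.N),
      (b.N * E₁) • ∑ g : M ≃ₐ[fieldG b F t x y γ.1 γ.2] M, KM.map m (g : M →+* M) ξ ∈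
        cst m F M := by
    intro γ
    by_cases hγ : ∀ h ∈ P, ∑ j, (γ.1 j * h.1 j + γ.2 j * h.2 j) = 0
    · exact smul_mem_cst_of_dvd (Dvd.intro_left _ rfl) (keyR γ hγ)
    · push Not at hγ
      obtain ⟨h', hh', hne⟩ := hγ
      obtain ⟨f, hf1, hf2, hf3, hf4, hf5⟩ := hP h' hh'
      have h1 := family_sum_irrelevant b hN h ι ξ γ.1 γ.2 hf1 hf2 hf3 hf4 hf5 hne
      rw [mul_comm, mul_smul, ← h1]
      exact hXk
  have hsum := family_sum_fieldG b hN h ι ξ
  have h2 := congrArg (fun z => (b.N * E₁) • z) hsum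
  beta_reduce at h2
  rw [smul_add] at h2
  have h3 : (b.N * E₁) • (b.N ^ (2 * n) * (b.N - 1)) • ξ =
      (b.N * E₁) • b.N • ∑ γ : (Fin n → ZMod b.N) × (Fin n → ZMod b.N),
        ∑ g : M ≃ₐ[fieldG b F t x y γ.1 γ.2] M, KM.map m (g : M →+* M) ξ -
      (b.N * E₁) • b.N ^ (2 * n) • ∑ g : M ≃ₐ[fieldX b F t x] M, KM.map m (g : M →+* M) ξ := by
    rw [h2]
    abel
  rw [mul_comm, mul_smul, h3]
  refine sub_mem ?_ ?_
  · rw [smul_comm, Finset.smul_sum]
    exact nsmul_mem (sum_mem fun γ _ => key γ) _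
  · rw [smul_comm]
    exact nsmul_mem (smul_mem_cst_of_dvd (Dvd.intro_left _ rfl) hXk) _

end UnrA.Fer
end
end
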