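import Pool.Agent.Lib.MP_859dd5_ag.Mg.G076
import Pool.Agent.Lib.MP_859dd5_ag.S.Stm
import Pool.Agent.Lib.MP_859dd5_ag.Mg.G074

section

/-!
# Cyclic covers with a balanced part
-/

namespace UnrA.Fer

open UnrG

universe u v w z

open Polynomial Finset
open scoped Classical

/-- A variable of a family of cyclic covers can be moved to the parameters. -/
theorem cycProdD_sub {N r n a b : ℕ} {F E : Type u} [Field F] [Field E] [Algebra F E]
    {t : Fin r → E} {X : Fin n → E} {D W : E} {B A : Fin n → ZMod N}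
    (h : CycProdD N (F := F) t X D W B A) (e : Fin a ⊕ Fin b ≃ Fin n) :
    CycProdD N (F := F) (Fin.append t (fun i => X (e (Sum.inl i))))
      (fun j => X (e (Sum.inr j)))
      (D * ∏ i, (X (e (Sum.inl i)) ^ (B (e (Sum.inl i))).val *
        (1 - X (e (Sum.inl i))) ^ (A (e (Sum.inl i))).val)) W
      (fun j => B (e (Sum.inr j))) (fun j => A (e (Sum.inr j))) := by
  have hX : ∀ j, X j ≠ 0 ∧ 1 - X j ≠ 0 := by
    intro j
    have h0 : Transcendental F (X j) := h.ind.transcendental (Sum.inr j)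
    constructor
    · intro h1
      rw [h1] at h0
      exact h0 isAlgebraic_zero
    · intro h1
      rw [← sub_eq_zero.mp h1] at h0
      exact h0 isAlgebraic_one
  have hrange : Set.range (Fin.append t (fun i => X (e (Sum.inl i)))) =
      Set.range t ∪ Set.range (fun i => X (e (Sum.inl i))) := by
    ext z
    constructor
    · rintro ⟨i, rfl⟩
      induction i using Fin.addCases with
      | left i => rw [Fin.append_left]; exact Or.inl ⟨i, rfl⟩
      | right i => rw [Fin.append_right]; exact Or.inr ⟨i, rfl⟩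
    · rintro (⟨i, rfl⟩ | ⟨i, rfl⟩)
      · exact ⟨Fin.castAdd a i, Fin.append_left _ _ _⟩
      · exact ⟨Fin.natAdd r i, Fin.append_right _ _ _⟩
  refine ⟨?_, ?_, ?_, ?_, ?_⟩
  · obtain ⟨φ, hφ⟩ : ∃ φ : Fin (r + a) ⊕ Fin b → Fin r ⊕ Fin n, φ = Sum.elim
      (Fin.addCases (fun i => Sum.inl i) (fun i => Sum.inr (e (Sum.inl i))))
      (fun j => Sum.inr (e (Sum.inr j))) := ⟨_, rfl⟩
    have hinj : Function.Injective φ := by
      rw [hφ]
      rintro (i | i) (j | j) hij
      · induction i using Fin.addCases with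
        | left i =>
          induction j using Fin.addCases with
          | left j => simpa using hij
          | right j => simp at hij
        | right i =>
          induction j using Fin.addCases with
          | left j => simp at hij
          | right j => simpa using hij
      · induction i using Fin.addCases with
        | left i => simp at hij
        | right i => simp at hij
      · induction j using Fin.addCases with
        | left j => simp at hij
        | right j => simp at hij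
      · simpa using hij
    have h1 := h.ind.comp φ hinj
    have h2 : Sum.elim t X ∘ φ =
        Sum.elim (Fin.append t (fun i => X (e (Sum.inl i)))) (fun j => X (e (Sum.inr j))) := by
      funext i
      rw [hφ]
      rcases i with i | i
      · induction i using Fin.addCases with
        | left i => simp
        | right i => simp
      · rfl
    rwa [h2] at h1
  · refine mul_mem ?_ (prod_mem fun i _ => ?_)
    · refine IntermediateField.adjoin.mono F _ _ ?_ h.D_mem
      rw [hrange]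
      exact Set.subset_union_left
    · have h1 : X (e (Sum.inl i)) ∈ IntermediateField.adjoin F
          (Set.range (Fin.append t (fun i => X (e (Sum.inl i))))) :=
        IntermediateField.subset_adjoin F _ ⟨Fin.natAdd r i, Fin.append_right _ _ _⟩
      exact mul_mem (pow_mem h1 _) (pow_mem (sub_mem (one_mem _) h1) _)
  · exact mul_ne_zero h.D_ne (Finset.prod_ne_zero_iff.2 fun i _ =>
      mul_ne_zero (pow_ne_zero _ (hX _).1) (pow_ne_zero _ (hX _).2))
  · rw [h.eq, mul_assoc]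
    congr 1
    rw [← e.prod_comp, Fintype.prod_sum_type]
  · have h1 := h.gen
    rw [← h1]
    congr 1
    rw [hrange, Set.union_assoc (Set.range t)]
    congr 2
    ext z
    constructor
    · rintro (⟨i, rfl⟩ | ⟨i, rfl⟩)
      · exact ⟨_, rfl⟩
      · exact ⟨_, rfl⟩
    · rintro ⟨i, rfl⟩
      obtain ⟨j, rfl⟩ := e.surjective i
      rcases j with j | j
      · exact Or.inl ⟨j, rfl⟩
      · exact Or.inr ⟨j, rfl⟩

private lemma card_part {p N n b : ℕ} (c d : Fin n → ZMod N) (I : Finset (Fin n))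
    (e : Fin b ≃ I) {x : ZMod N} (hx : x ≠ 0) :
    Nat.card {i : Fin b × Fin 3 // ∃ s : ℕ, (p : ZMod N) ^ s *
      tripE (c (e i.1)) (d (e i.1)) i.2 = x} =
    Nat.card {i : Fin n × Fin 3 // ∃ s : ℕ, (p : ZMod N) ^ s *
      tripE (if i.1 ∈ I then c i.1 else 0) (if i.1 ∈ I then d i.1 else 0) i.2 = x} := by
  have hout : ∀ i : Fin n × Fin 3, (∃ s : ℕ, (p : ZMod N) ^ s *
      tripE (if i.1 ∈ I then c i.1 else 0) (if i.1 ∈ I then d i.1 else 0) i.2 = x) → i.1 ∈ I := by
    rintro ⟨i, k⟩ ⟨s, hs⟩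
    by_contra hi
    rw [if_neg hi, if_neg hi] at hs
    have h0 : tripE (0 : ZMod N) 0 k = 0 := by
      fin_cases k <;> simp [tripE]
    rw [h0, mul_zero] at hs
    exact hx hs.symm
  refine Nat.card_congr ⟨fun i => ⟨((e i.1.1 : I), i.1.2), ?_⟩,
    fun i => ⟨(e.symm ⟨i.1.1, hout i.1 i.2⟩, i.1.2), ?_⟩, ?_, ?_⟩
  · obtain ⟨s, hs⟩ := i.2
    refine ⟨s, ?_⟩
    have h1 : ((e i.1.1 : I) : Fin n) ∈ I := (e i.1.1).2
    simp only [if_pos h1]
    exact hs
  · obtain ⟨s, hs⟩ := i.2
    refine ⟨s, ?_⟩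
    have h1 := hout i.1 i.2
    simp only [if_pos h1] at hs
    simp only [Equiv.apply_symm_apply]
    exact hs
  · rintro ⟨⟨i, k⟩, hi⟩
    apply Subtype.ext
    simp
  · rintro ⟨⟨i, k⟩, hi⟩
    apply Subtype.ext
    simp

/-- Cyclic covers with a balanced part. -/
theorem killsC_of_part {N : ℕ} (hN : N.Prime) {p : ℕ} [Fact p.Prime] (hpN : p ≠ N) {n : ℕ}
    (B A : Fin n → ZMod N) (hb : HasBalancedPart p B A) :
    ∃ C S : ℕ, 0 < C ∧ 0 < S ∧ ∀ (m : UFun.{u, z}) (F E : Type u) [Field F] [FixSp F p S]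
      [CharP F p] [Field E] [Algebra F E] (r : ℕ) (t : Fin r → E) (X : Fin n → E) (D W : E)
      (_ : CycProdD N (F := F) t X D W B A), KillsC m C F E := by
  obtain ⟨I, hI, i, hi, j, hj, hij, hBi, hBj⟩ := hb
  obtain ⟨e₁, -⟩ : ∃ e : Fin (Fintype.card {x // x ∈ I}) ≃ {x // x ∈ I}, True :=
    ⟨(Fintype.equivFin _).symm, trivial⟩
  obtain ⟨e₂, -⟩ : ∃ e : Fin (Fintype.card {x // x ∉ I}) ≃ {x // x ∉ I}, True :=
    ⟨(Fintype.equivFin _).symm, trivial⟩
  obtain ⟨e, he1⟩ : ∃ e : Fin (Fintype.card {x // x ∉ I}) ⊕ Fin (Fintype.card {x // x ∈ I}) ≃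
      Fin n, ∀ j, e (Sum.inr j) = e₁ j := by
    refine ⟨(Equiv.sumComm _ _).trans ((Equiv.sumCongr e₁ e₂).trans
      (Equiv.sumCompl (fun x => x ∈ I))), fun j => rfl⟩
  obtain ⟨C, S, hC, hS, hk⟩ := killsC_of_bal.{u, z} hN hpN (fun j => B (e (Sum.inr j)))
    (fun j => A (e (Sum.inr j))) (fun _ => by
      refine ⟨fun x hx => ?_, e₁.symm ⟨i, hi⟩, e₁.symm ⟨j, hj⟩, ?_, ?_, ?_⟩
      · simp only [he1]
        rw [card_part B A I e₁ hx, card_part B A I e₁ (neg_ne_zero.2 hx)]
        exact hI x hx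
      · intro h
        exact hij (congrArg Subtype.val (e₁.symm.injective h))
      · rw [he1, Equiv.apply_symm_apply]
        exact hBi
      · rw [he1, Equiv.apply_symm_apply]
        exact hBj)
  exact ⟨C, S, hC, hS, fun m F E _ _ _ _ _ r t X D W h =>
    hk m F E _ _ _ _ W (cycProdD_sub h e)⟩

end UnrA.Fer
end

section

/-!
# Products of Fermat curves over a field
-/

namespace UnrA.Fer

open UnrG

universe u v w z

open Polynomial Finset
open scoped Classical

lemma killsRel_iff {m : UFun.{u, z}} {H : ℕ} {k E : Type u} [Field k] [Field E] [Algebra k E] :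
    KillsRel m H k E ↔ KillsC m H k E := by
  refine ⟨fun h x hx => ?_, fun h x hx => ?_⟩
  · exact mem_cst.mpr (h x hx)
  · exact mem_cst.mp (h x hx)

lemma IsFermatProduct.family {N : ℕ} {k L : Type u} [Field k] [Field L] [Algebra k L] {n : ℕ}
    {a b : Fin n → k} {x y : Fin n → L} (h : IsFermatProduct N a b x y) :
    IsFermatFamily N (F := k) (Fin.elim0 : Fin 0 → L) (fun j => algebraMap k L (a j))
      (fun j => algebraMap k L (b j)) x y where
  left_mem j := (IntermediateField.adjoin k _).algebraMap_mem _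
  right_mem j := (IntermediateField.adjoin k _).algebraMap_mem _
  left_ne j := (_root_.map_ne_zero _).2 (h.left_ne j)
  right_ne j := (_root_.map_ne_zero _).2 (h.right_ne j)
  equation := h.equation
  independent := by
    have h2 : (Sum.elim (Fin.elim0 : Fin 0 → L) x) ∘ (Equiv.emptySum (Fin 0) (Fin n)).symm = x := by
      funext j
      rfl
    refine (algebraicIndependent_equiv (Equiv.emptySum (Fin 0) (Fin n)).symm
      (f := (Sum.elim (Fin.elim0 : Fin 0 → L) x))).mp ?_
    rw [h2]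
    exact h.independent
  generate := by
    rw [Set.range_eq_empty (Fin.elim0 : Fin 0 → L), Set.empty_union]
    exact h.generate

/-- The monomial subfields. -/
theorem product_killsC {N : ℕ} (hN : N.Prime) {p : ℕ} [Fact p.Prime] (hpN : p ≠ N) {w : ℕ}
    (hw : 0 < w) {n : ℕ} (c d : Fin n → ZMod N) :
    ∃ S : ℕ, 0 < S ∧ ∀ {𝔽 : Type} [Field 𝔽] [Fintype 𝔽] [CharP 𝔽 p] (b : Base 𝔽) (_ : b.N = N),
    ∃ C : ℕ, 0 < C ∧ ∀ (m : UFun.{u, z}) (κ k E : Type u) [Field κ] [Field k] [Field E]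
      [FixSp k p S] [CharP k p] [Algebra k E] (_ : 𝔽 →+* κ) (_ : ∀ a : κ, a ^ b.q = a)
      (t : Fin 0 → E) (X : Fin n → E) (D W : E)
      (_ : CycProdD N (F := k) t X D W c d) (δ : k) (_ : algebraMap k E δ⁻¹ = D) (H : ℕ)
      (_ : IsNondegenerate c d →
        (m.Specializes ∧ m.HasWeight 𝔽 b.q w ∧ IsPowerIn κ k N H δ) ∨
        HasBalancedPart p c d ∨ KillsC m H k E),
      KillsC m (H * C) k E := by
  by_cases hb : IsNondegenerate c d → HasBalancedPart p c d
  · obtain ⟨C, S, hC, hS, hk⟩ : ∃ C S : ℕ, 0 < C ∧ 0 < S ∧ ∀ (m : UFun.{u, z}) (F E : Type u)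
        [Field F] [FixSp F p S] [CharP F p] [Field E] [Algebra F E] (r : ℕ) (t : Fin r → E)
        (X : Fin n → E) (D W : E) (_ : CycProdD N (F := F) t X D W c d), KillsC m C F E := by
      by_cases hnd : IsNondegenerate c d
      · exact killsC_of_part.{u, z} hN hpN c d (hb hnd)
      · exact killsC_of_bal.{u, z} hN hpN c d (fun h => absurd h hnd)
    refine ⟨S, hS, fun b hbN => ⟨C, hC, ?_⟩⟩
    intro m κ k E _ _ _ _ _ _ ι hκ t X D W hE δ hδ H _
    exact (hk m k E 0 t X D W hE).of_dvd (Dvd.intro_left _ rfl)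
  · rw [Classical.not_imp] at hb
    obtain ⟨hnd, hb⟩ := hb
    have hb' : ¬ IsBalanced p c d ∨ ∀ i j, c i ≠ 0 → c j ≠ 0 → i = j := by
      by_cases h : IsBalanced p c d
      · refine Or.inr fun i j hi hj => ?_
        by_contra hij
        exact hb ⟨univ, by simpa using h, i, mem_univ _, j, mem_univ _, hij, hi, hj⟩
      · exact Or.inl h
    refine ⟨1, one_pos, ?_⟩
    rintro 𝔽 _ _ _ b rfl
    obtain ⟨C, hC, hk⟩ := cycProdD_kills_base.{u, z} b hN (p := p) hw c d hnd hb'
    refine ⟨C, hC, ?_⟩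
    intro m κ k E _ _ _ _ _ _ ι hκ t X D W hE δ hδ H hH
    rcases hH hnd with h | h | h
    · obtain ⟨hs, hm, k', _, _, _, _, r, τ, β, hdvd, hτ, hgen, hβ⟩ := h
      intro x hx
      have h1 := hk m hs hm k E k' κ ι hκ (Module.finrank k k') le_rfl t X D W hE r τ hτ hgen δ⁻¹
        β⁻¹ hδ (by rw [map_inv₀, hβ, inv_pow]) x hx
      have h2 : (H * C) • x = 0 := by
        obtain ⟨e, he⟩ := hdvd
        rw [he, mul_comm _ e, mul_assoc, mul_smul, h1, smul_zero]
      rw [h2]
      exact zero_mem _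
    · exact absurd h hb
    · exact h.of_dvd (Dvd.intro _ rfl)

private lemma FF_pow_val {N : ℕ} [NeZero N] {F : Type u} [Field F] {z : F}
    (hz : z ^ N = 1) (c : ZMod N) (w : ℕ) : (z ^ w) ^ c.val = z ^ (w • c).val := by
  rw [← pow_mul]
  have h1 : ((w * c.val : ℕ) : ZMod N) = ((w • c).val : ℕ) := by
    rw [Nat.cast_mul, ZMod.natCast_zmod_val, ZMod.natCast_zmod_val, nsmul_eq_mul]
  have h2 := (ZMod.natCast_eq_natCast_iff' _ _ _).1 h1
  rw [← Nat.div_add_mod (w * c.val) N, ← Nat.div_add_mod ((w • c).val) N, pow_add, pow_add,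
    pow_mul, pow_mul, hz, one_pow, one_pow, h2]

/-- Unramified classes on products of Fermat curves over a field. -/
theorem product_cst {p f N : ℕ} [Fact p.Prime] (hf : 0 < f) (hN : N.Prime) (hpN : p ≠ N)
    (n : ℕ) {w : ℕ} (hw : 0 < w) {S : ℕ} (hS : 0 < S) :
    ∃ E s : ℕ, 0 < E ∧ 0 < s ∧ S ∣ s ∧ N * (p ^ f - 1) ∣ (p ^ f) ^ s - 1 ∧
      ∀ (κ k K L : Type u) [Field κ] [Field k] [Field K] [Field L]
      [Algebra κ k] [Algebra k L] [Algebra K L] (_ : Nat.card κ = (p ^ f) ^ s)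
      (A : UFun.{u, z}) (a b : Fin n → k) (x y : Fin n → L) (_ : IsFermatProduct N a b x y)
      (ζ : k) (_ : IsPrimitiveRoot ζ N) (H : ℕ)
      (_ : ∀ c d : Fin n → ZMod N, IsNondegenerate c d → ¬ (c = 0 ∧ d = 0) →
        IsMoved K ζ x y c d ∨
        (A.Specializes ∧ A.HasWeight κ ((p ^ f) ^ s) w ∧
          IsPowerIn κ k N H (∏ j, (a j ^ (c j).val * b j ^ (d j).val))) ∨
        HasBalancedPart p c d ∨ KillsRel A H k (monoField k x y c d))
      (ξ : A.obj K) (_ : ξ ∈ A.nr K), (E * H) • KM.map A (algebraMap K L) ξ ∈ cst A k L := by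
  have hp : p.Prime := Fact.out
  have hN0 : NeZero N := ⟨hN.pos.ne'⟩
  choose Sf hSf hk using fun γ : (Fin n → ZMod N) × (Fin n → ZMod N) =>
    product_killsC.{u, z} hN hpN hw γ.1 γ.2
  obtain ⟨s, 𝔽', _, _, _, b, hs, hSs, hbN, hcard, hdiv⟩ := exists_base_dvd hf hN.two_le
    ((Nat.coprime_primes hp hN).2 hpN)
    (Nat.mul_pos (Finset.prod_pos fun γ (_ : γ ∈ univ) => hSf γ) hS)
  choose Cf hCf hk' using fun γ => hk γ b hbN
  refine ⟨N ^ (2 * n) * (N - 1) * (N * ((N ^ (2 * n)).factorial * ∏ γ, Cf γ)), s, ?_, hs,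
    (Dvd.intro_left _ rfl).trans hSs, hdiv, ?_⟩
  · have h1 : 0 < N - 1 := by have := hN.two_le; omega
    have h2 : 0 < N ^ (2 * n) := pow_pos hN.pos _
    have h3 : 0 < ∏ γ, Cf γ := Finset.prod_pos fun γ _ => hCf γ
    have h4 := hN.pos
    have h5 := Nat.factorial_pos (N ^ (2 * n))
    positivity
  intro κ k K L _ _ _ _ _ _ _ hκ A a a' x y hX ζ hζ H hH ξ hξ
  subst hbN
  obtain ⟨e⟩ := exists_hom_of_card (κ' := 𝔽') (hκ.trans hcard.symm)
  have hbq : b.q = (p ^ f) ^ s := by rw [← b.card_q, hcard]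
  have hA' : A.HasWeight κ ((p ^ f) ^ s) w → A.HasWeight 𝔽' b.q w := by
    intro hA
    rw [hbq]
    exact hasWeight_of_hom (e : κ →+* 𝔽') hA
  have hκ' : ∀ z : κ, z ^ b.q = z := by
    intro z
    rw [hbq]
    exact pow_card_of_card (pow_pos (pow_pos hp.pos _) _) hκ z
  obtain ⟨ι₀, hι₀⟩ : ∃ ι₀ : 𝔽' →+* κ, ι₀ = (e.symm : 𝔽' →+* κ) := ⟨_, rfl⟩
  obtain ⟨ι, hι⟩ : ∃ ι : 𝔽' →+* k, ι = (algebraMap κ k).comp ι₀ := ⟨_, rfl⟩
  have hchar : CharP k p := charP_of_injective_ringHom ι.injective p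
  have hfix : ∀ γ, FixSp k p (Sf γ) := fun γ =>
    fixSp_of_card (f := f * s) (algebraMap κ k) (by rw [hκ, pow_mul]) (Nat.mul_pos hf hs)
      ((((Finset.dvd_prod_of_mem Sf (Finset.mem_univ γ)).trans (Dvd.intro _ rfl)).trans hSs).trans
        (Dvd.intro_left _ rfl))
  have hfam := hX.family
  have hζ' := b.hζ_map ι
  obtain ⟨u, _, hu, huζ⟩ := hζ'.isPrimitiveRoot_iff.1 hζ
  have hred := family_reduced (m := A) b hN hfam ι (ξ := KM.map A (algebraMap K L) ξ)
    (Unr.map _ hξ) (C := H * ∏ γ, Cf γ)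
    {γ | ∃ g h : Fin n → ZMod b.N, γ = (u • g, u • h) ∧ ∃ f : L →+* L,
        (∀ c : k, f (algebraMap k L c) = algebraMap k L c) ∧
        (∀ z : K, f (algebraMap K L z) = algebraMap K L z) ∧
        (∀ j, f (x j) = algebraMap k L ζ ^ (g j).val * x j) ∧
        (∀ j, f (y j) = algebraMap k L ζ ^ (h j).val * y j)} ?_ ?_
  · have h1 : b.N ^ (2 * n) * (b.N - 1) * (b.N * ((b.N ^ (2 * n)).factorial * ∏ γ, Cf γ)) * H =
        b.N ^ (2 * n) * (b.N - 1) * (b.N * ((b.N ^ (2 * n)).factorial * (H * ∏ γ, Cf γ))) := by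
      ring
    rw [h1]
    exact hred
  · rintro _ ⟨g, h, rfl, f, hf1, hf2, hf3, hf4⟩
    have hone : (algebraMap k L (ι b.ζ)) ^ b.N = 1 := by
      rw [← map_pow, hζ'.pow_eq_one, map_one]
    refine ⟨f, hf1, fun i => i.elim0, ?_, ?_, ?_⟩
    · intro j
      rw [hf3, ← huζ, map_pow, FF_pow_val hone (g j) u]
      rfl
    · intro j
      rw [hf4, ← huζ, map_pow, FF_pow_val hone (h j) u]
      rfl
    · have h1 : f.comp (algebraMap K L) = algebraMap K L := RingHom.ext hf2
      rw [KM.map_map, h1]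
  · intro c d hcd hP
    have hne : ¬ IsMoved K ζ x y c d := by
      rintro ⟨g, h, f, hf1, hf2, hf3, hf4, hf5⟩
      have h1 := hP (u • g, u • h) ⟨g, h, rfl, f, hf1, hf2, hf3, hf4⟩
      have h2 : ∑ j, (c j * (u • g) j + d j * (u • h) j) =
          (u : ZMod b.N) * ∑ j, (c j * g j + d j * h j) := by
        rw [Finset.mul_sum]
        refine Finset.sum_congr rfl fun j _ => ?_
        rw [Pi.smul_apply, Pi.smul_apply, nsmul_eq_mul, nsmul_eq_mul]
        ring
      rw [h2] at h1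
      have h3 : IsUnit (u : ZMod b.N) := (ZMod.isUnit_iff_coprime u b.N).2 hu
      exact hf5 ((h3.mul_right_eq_zero).1 h1)
    obtain ⟨t', X', D', W', -, -, hD', -, hcyc⟩ := hfam.cycProd b c d
    have := hfix (c, d)
    have hfield : monoField k x y c d = fieldG b k (Fin.elim0 : Fin 0 → L) x y c d := by
      unfold monoField fieldG
      rw [Set.range_eq_empty (Fin.elim0 : Fin 0 → L), Set.empty_union]
      rfl
    have h1 := hk' (c, d) A κ k (fieldG b k (Fin.elim0 : Fin 0 → L) x y c d) ι₀ hκ' t' X'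
      D' W' hcyc (∏ j, (a j ^ (c j).val * a' j ^ (d j).val)) (by
        apply Subtype.ext
        rw [hD']
        change algebraMap k L _ = _
        unfold famD
        rw [map_inv₀, map_prod]
        congr 1
        refine Finset.prod_congr rfl fun j _ => ?_
        rw [map_mul, map_pow, map_pow]) H (by
        intro hnd
        rcases hH c d hnd hcd with h | h | h | h
        · exact absurd h hne
        · exact Or.inl ⟨h.1, hA' h.2.1, h.2.2⟩
        · exact Or.inr (Or.inl h)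
        · rw [hfield] at h
          exact Or.inr (Or.inr (killsRel_iff.mp h)))
    refine h1.of_dvd (mul_dvd_mul_left H ?_)
    exact Finset.dvd_prod_of_mem Cf (Finset.mem_univ (c, d))

end UnrA.Fer
end
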