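import Pool.Agent.Lib.MP_859dd5_ag.Mg.G054
import Pool.Agent.Lib.MP_859dd5_ag.Mg.G068
import Pool.Agent.Lib.MP_859dd5_ag.EQ.Fun

section

section

/-!
# Artin-Schreier polynomials
-/

namespace UnrA.Fer

open UnrG

universe u v w z

open Polynomial Finset
open scoped Classical

variable {p : ℕ} [Fact p.Prime]

/-- The polynomial `X ^ p - X - a` has a root or is irreducible. -/
theorem irreducible_as {T : Type u} [Field T] [CharP T p] {a : T} (ha : ∀ b : T, b ^ p - b ≠ a) :
    Irreducible (X ^ p - X - C a : T[X]) := by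
  have hp : p.Prime := Fact.out
  have hlt : (X + C a : T[X]).degree < (p : ℕ) := by
    rw [degree_X_add_C]
    exact_mod_cast hp.one_lt
  have hf : (X ^ p - X - C a : T[X]) = X ^ p - (X + C a) := by ring
  have hmon : (X ^ p - X - C a : T[X]).Monic := by
    rw [hf]
    exact monic_X_pow_sub hlt
  have hdeg : (X ^ p - X - C a : T[X]).natDegree = p := by
    rw [hf, natDegree_sub_eq_left_of_natDegree_lt, natDegree_X_pow]
    rw [natDegree_X_add_C, natDegree_X_pow]
    exact hp.one_lt
  let A := AlgebraicClosure T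
  have hcA : CharP A p := charP_of_injective_algebraMap (algebraMap T A).injective p
  obtain ⟨α, hα⟩ := IsAlgClosed.exists_aeval_eq_zero A (X ^ p - X - C a : T[X])
    (by rw [degree_eq_natDegree hmon.ne_zero, hdeg]; exact_mod_cast hp.ne_zero)
  have hint : IsIntegral T α := ⟨_, hmon, by rwa [aeval_def] at hα⟩
  have hdvd : minpoly T α ∣ (X ^ p - X - C a : T[X]) := minpoly.dvd T α hα
  have hα' : α ^ p - α = algebraMap T A a := by
    simp only [map_sub, map_pow, aeval_X, aeval_C] at hα
    exact sub_eq_zero.1 hα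
  have hle : (minpoly T α).natDegree ≤ p := hdeg ▸ natDegree_le_of_dvd hdvd hmon.ne_zero
  rcases hle.lt_or_eq with hd | hd
  · exfalso
    have hd0 : 0 < (minpoly T α).natDegree := minpoly.natDegree_pos hint
    set g := (minpoly T α).map (algebraMap T A) with hg
    have hgs : g.Splits := IsAlgClosed.splits g
    have hcard : Multiset.card g.roots = (minpoly T α).natDegree := by
      rw [← hgs.natDegree_eq_card_roots, hg, natDegree_map]
    have hgmon : g.Monic := (minpoly.monic hint).map _
    have hsum : g.roots.sum ∈ (algebraMap T A).fieldRange := by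
      have h1 : g.nextCoeff = -g.roots.sum := by
        have h2 := hgs.eq_prod_roots_of_monic hgmon
        conv_lhs => rw [h2]
        exact multiset_prod_X_sub_C_nextCoeff _
      have h3 : g.nextCoeff = algebraMap T A (minpoly T α).nextCoeff := nextCoeff_map_eq _ _
      rw [← neg_neg g.roots.sum, ← h1, h3]
      exact neg_mem ⟨_, rfl⟩
    have hroot : ∀ r ∈ g.roots, r - α ∈ (algebraMap T A).fieldRange := by
      intro r hr
      have h1 : aeval r (X ^ p - X - C a : T[X]) = 0 := by
        obtain ⟨q, hq⟩ := hdvd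
        have h2 : aeval r (minpoly T α) = 0 := by
          have := (mem_roots hgmon.ne_zero).1 hr
          rw [IsRoot.def, hg, eval_map_algebraMap] at this
          exact this
        rw [hq, map_mul, h2, zero_mul]
      have h3 : r ^ p - r = algebraMap T A a := by
        simp only [map_sub, map_pow, aeval_X, aeval_C] at h1
        exact sub_eq_zero.1 h1
      have h4 : (r - α) ^ p = r - α := by
        rw [sub_pow_char]
        linear_combination h3 - hα'
      have h5 : r - α ∈ (⊥ : Subfield A) := (Subfield.mem_bot_iff_pow_eq_self A p).2 h4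
      exact (bot_le : (⊥ : Subfield A) ≤ (algebraMap T A).fieldRange) h5
    have h6 : (g.roots.map fun r => r - α).sum ∈ (algebraMap T A).fieldRange := by
      refine multiset_sum_mem _ ?_
      intro c hc
      obtain ⟨r, hr, rfl⟩ := Multiset.mem_map.1 hc
      exact hroot r hr
    have h7 : (g.roots.map fun r => r - α).sum =
        g.roots.sum - (minpoly T α).natDegree • α := by
      rw [Multiset.sum_map_sub, Multiset.map_id', Multiset.map_const', Multiset.sum_replicate,
        hcard]
    rw [h7] at h6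
    have h8 : (minpoly T α).natDegree • α ∈ (algebraMap T A).fieldRange := by
      have := sub_mem hsum h6
      rwa [sub_sub_cancel] at this
    obtain ⟨c, hc⟩ := h8
    have h9 : (((minpoly T α).natDegree : ℕ) : T) ≠ 0 := by
      intro h
      have := (CharP.cast_eq_zero_iff T p _).1 h
      exact absurd (Nat.le_of_dvd hd0 this) (not_le.2 hd)
    have h10 : α = algebraMap T A (c / ((minpoly T α).natDegree : ℕ)) := by
      rw [map_div₀, hc, nsmul_eq_mul, map_natCast]
      have : (((minpoly T α).natDegree : ℕ) : A) ≠ 0 := by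
        rw [← map_natCast (algebraMap T A)]
        exact (_root_.map_ne_zero _).2 h9
      exact (mul_div_cancel_left₀ α this).symm
    apply ha (c / ((minpoly T α).natDegree : ℕ))
    apply (algebraMap T A).injective
    rw [map_sub, map_pow, ← h10]
    exact hα'
  · have h1 : (X ^ p - X - C a : T[X]) = minpoly T α :=
      eq_of_monic_of_dvd_of_natDegree_le (minpoly.monic hint) hmon hdvd (by rw [hd, hdeg])
    rw [h1]
    exact minpoly.irreducible hint

end UnrA.Fer
end

section

/-!
# Homomorphisms of Artin-Schreier extensions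
-/

namespace UnrA.Fer

open UnrG

universe u v w z

open Polynomial Finset
open scoped Classical

variable {p : ℕ} [Fact p.Prime]

/-- Homomorphisms extend to Artin-Schreier extensions. -/
theorem as_lift {T L : Type u} {E : Type v} [Field T] [Field L] [Field E] [CharP T p]
    [Algebra T L] {a : T} (ha : ∀ b : T, b ^ p - b ≠ a) {Y : L} (hY : Y ^ p - Y = algebraMap T L a)
    (htop : IntermediateField.adjoin T {Y} = ⊤) (g : T →+* E) (Y' : E)
    (hY' : Y' ^ p - Y' = g a) :
    ∃ ν : L →+* E, ν.comp (algebraMap T L) = g ∧ ν Y = Y' := by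
  have hp : p.Prime := Fact.out
  have hirr := irreducible_as (p := p) ha
  have hlt : (X + C a : T[X]).degree < (p : ℕ) := by
    rw [degree_X_add_C]
    exact_mod_cast hp.one_lt
  have hmon : (X ^ p - X - C a : T[X]).Monic := by
    rw [show (X ^ p - X - C a : T[X]) = X ^ p - (X + C a) by ring]
    exact monic_X_pow_sub hlt
  have hroot0 : aeval Y (X ^ p - X - C a : T[X]) = 0 := by
    rw [map_sub, map_sub, map_pow, aeval_X, aeval_C, hY, sub_self]
  have hint : IsIntegral T Y := ⟨_, hmon, by rwa [aeval_def] at hroot0⟩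
  have hmin : minpoly T Y = X ^ p - X - C a :=
    (minpoly.eq_of_irreducible_of_monic hirr hroot0 hmon).symm
  obtain ⟨pb, hgen⟩ : ∃ pb : PowerBasis T L, pb.gen = Y := by
    refine ⟨(IntermediateField.adjoin.powerBasis hint).map
      ((IntermediateField.equivOfEq htop).trans IntermediateField.topEquiv), ?_⟩
    rw [PowerBasis.map_gen, IntermediateField.adjoin.powerBasis_gen]
    rfl
  let _ : Algebra T E := g.toAlgebra
  have hroot : aeval Y' (minpoly T pb.gen) = 0 := by
    rw [hgen, hmin, map_sub, map_sub, map_pow, aeval_X, aeval_C, hY']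
    exact sub_self _
  refine ⟨(pb.lift Y' hroot : L →ₐ[T] E).toRingHom, ?_, ?_⟩
  · ext x
    exact (pb.lift Y' hroot).commutes x
  · have h := pb.lift_gen Y' hroot
    rw [hgen] at h
    exact h

end UnrA.Fer
end

section

/-!
# Elements which are not of the form `b ^ p - b`
-/

namespace UnrA.Fer

open UnrG

universe u v w z

open Polynomial Finset
open scoped Classical

variable {p : ℕ} [Fact p.Prime]

/-- A polynomial in `x` of degree prime to `p` is not of the form `b ^ p - b`. -/
theorem as_not_mem {F : Type v} {T : Type u} [Field F] [Field T] [CharP F p] (j : F →+* T) {x : T}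
    (hx : ∀ f : F[X], f ≠ 0 → f.eval₂ j x ≠ 0)
    (hgen : Subfield.closure (Set.range j ∪ {x}) = ⊤) (f : F[X]) (hf : ¬ p ∣ f.natDegree) :
    ∀ b : T, b ^ p - b ≠ f.eval₂ j x := by
  intro b hb
  have hp : 1 < p := (Fact.out : p.Prime).one_lt
  have hinj : Function.Injective (eval₂RingHom j x) := by
    rw [injective_iff_map_eq_zero]
    intro f hf
    by_contra h0
    exact hx f h0 hf
  let φ : RatFunc F →+* T := IsFractionRing.lift hinj
  have hφ : ∀ q : F[X], φ (algebraMap F[X] (RatFunc F) q) = q.eval₂ j x := fun q =>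
    IsFractionRing.lift_algebraMap hinj q
  have hb' : b ∈ φ.fieldRange := by
    have h1 : φ.fieldRange = ⊤ := by
      rw [eq_top_iff, ← hgen, Subfield.closure_le]
      rintro z (⟨a, rfl⟩ | rfl)
      · exact ⟨algebraMap F[X] (RatFunc F) (C a), by rw [hφ, eval₂_C]⟩
      · exact ⟨algebraMap F[X] (RatFunc F) X, by rw [hφ, eval₂_X]⟩
    rw [h1]
    trivial
  obtain ⟨r, rfl⟩ := hb'
  have hr : r ^ p - r = algebraMap F[X] (RatFunc F) f := by
    apply φ.injective
    rw [map_sub, map_pow, hb, hφ]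
  have hint : IsIntegral F[X] r := by
    refine ⟨X ^ p - X - C f, ?_, ?_⟩
    · rw [sub_sub]
      refine monic_X_pow_sub ?_
      exact lt_of_le_of_lt ((degree_add_le _ _).trans (max_le degree_X_le
        (degree_C_le.trans (by norm_num)))) (by exact_mod_cast hp)
    · rw [eval₂_sub, eval₂_sub, eval₂_pow, eval₂_X, eval₂_C, hr, sub_self]
  obtain ⟨g, rfl⟩ := IsIntegrallyClosed.algebraMap_eq_of_integral hint
  have hg : g ^ p - g = f := by
    apply IsFractionRing.injective F[X] (RatFunc F)
    rw [map_sub, map_pow, hr]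
  apply hf
  rw [← hg]
  rcases Nat.eq_zero_or_pos g.natDegree with h0 | h0
  · have h1 : (g ^ p - g).natDegree = 0 := by
      refine Nat.le_zero.1 ((natDegree_sub_le _ _).trans ?_)
      rw [natDegree_pow, h0, mul_zero, max_self]
    rw [h1]
    exact dvd_zero p
  · rw [natDegree_sub_eq_left_of_natDegree_lt, natDegree_pow]
    · exact dvd_mul_right p _
    · rw [natDegree_pow]
      exact lt_mul_of_one_lt_left h0 hp

end UnrA.Fer
end

section

/-!
# Algebraic independence over larger fields
-/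

namespace UnrA.Fer

open UnrG

universe u v w z

open Polynomial Finset
open scoped Classical

/-- Roots of Artin-Schreier equations are algebraic. -/
theorem isAlgebraic_of_as {p : ℕ} (hp : 1 < p) {k L : Type u} [Field k] [Field L] [Algebra k L]
    {F : IntermediateField k L} {z : L} (hz : z ^ p - z ∈ F) : IsAlgebraic F z := by
  have hm : (X ^ p - (X + C (⟨z ^ p - z, hz⟩ : F)) : F[X]).Monic := by
    refine monic_X_pow_sub ?_
    rw [degree_X_add_C]
    exact_mod_cast hp
  refine ⟨_, hm.ne_zero, ?_⟩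
  rw [map_sub, map_add, map_pow, aeval_X, aeval_C]
  change z ^ p - (z + (z ^ p - z)) = 0
  ring

theorem isAlgebraic_of_pow {N : ℕ} (hN : 0 < N) {k L : Type u} [Field k] [Field L] [Algebra k L]
    {F : IntermediateField k L} {z : L} (hz : z ^ N ∈ F) : IsAlgebraic F z := by
  refine ⟨_, (monic_X_pow_sub_C (⟨z ^ N, hz⟩ : F) hN.ne').ne_zero, ?_⟩
  rw [map_sub, map_pow, aeval_X, aeval_C]
  exact sub_self (z ^ N)

theorem isAlgebraic_adjoin {k L : Type u} [Field k] [Field L] [Algebra k L]
    {F : IntermediateField k L} {S : Set L} (hS : ∀ z ∈ S, IsAlgebraic F z) {z : L}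
    (hz : z ∈ IntermediateField.adjoin k S) : IsAlgebraic F z := by
  have h1 : IntermediateField.adjoin k S ≤ (algebraicClosure F L).restrictScalars k := by
    rw [IntermediateField.adjoin_le_iff]
    intro x hx
    exact mem_algebraicClosure_iff.mpr (hS x hx)
  exact mem_algebraicClosure_iff.mp (h1 hz)

/-- Independence over a field that is algebraic over the field generated by the other variables. -/
theorem algebraicIndependent_over {k L : Type u} [Field k] [Field L] [Algebra k L] {ι κ : Type}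
    {x : ι → L} {s : κ → L} (h : AlgebraicIndependent k (Sum.elim x s))
    (T : IntermediateField k L)
    (hT : ∀ z ∈ T, IsAlgebraic (IntermediateField.adjoin k (Set.range s)) z) :
    AlgebraicIndependent T x := by
  have h1 : AlgebraicIndependent (IntermediateField.adjoin k (Set.range s)) x :=
    IntermediateField.algebraicIndependent_adjoin_iff.mpr (AlgebraicIndependent.sumElim_iff.mp h).2
  have h2 : AlgebraicIndependent
      (algebraicClosure (IntermediateField.adjoin k (Set.range s)) L) x := h1.algebraicClosure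
  let i' : T →+* algebraicClosure (IntermediateField.adjoin k (Set.range s)) L :=
    { toFun := fun z => ⟨z, mem_algebraicClosure_iff.mpr (hT z z.2)⟩
      map_one' := rfl
      map_mul' := fun _ _ => rfl
      map_zero' := rfl
      map_add' := fun _ _ => rfl }
  let _ := i'.toAlgebra
  have _ : IsScalarTower T (algebraicClosure (IntermediateField.adjoin k (Set.range s)) L) L :=
    IsScalarTower.of_algebraMap_eq fun x => rfl
  exact h2.restrictScalars i'.injective

theorem algebraicIndependent_over' {k L : Type u} [Field k] [Field L] [Algebra k L] {ι κ : Type}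
    {x : ι → L} {s : κ → L} (h : AlgebraicIndependent k (Sum.elim x s))
    (T : IntermediateField k L)
    (hT : ∀ z ∈ T, IsAlgebraic (IntermediateField.adjoin k (Set.range x)) z) :
    AlgebraicIndependent T s := by
  refine algebraicIndependent_over (x := s) (s := x) ?_ T hT
  have h2 := h.comp Sum.swap Sum.swap_leftInverse.injective
  have h3 : Sum.elim x s ∘ Sum.swap = Sum.elim s x := by
    funext t
    rcases t with t | t <;> rfl
  rwa [h3] at h2

end UnrA.Fer
end

section

/-!
# The Galois groups of products of Artin-Schreier curves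
-/

namespace UnrA.Fer

open UnrG

universe u v w z

open Polynomial Finset
open scoped Classical

/-- The field generated over `k` by `T₀`, the monomial `∏ x_j ^ (c_j)` and the sum `∑ d_j y_j`. -/
def asT {k L : Type u} [Field k] [Field L] [Algebra k L] (T₀ : IntermediateField k L)
    {p N n : ℕ} (x y : Fin n → L) (c : Fin n → ZMod N) (d : Fin n → ZMod p) :
    IntermediateField k L :=
  IntermediateField.adjoin k
    ((T₀ : Set L) ∪ {∏ j, x j ^ (c j).val, ∑ j, ((d j).val : L) * y j})

section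

variable {p N : ℕ} [Fact p.Prime] {k L : Type u} [Field k] [Field L] [CharP k p] [Algebra k L]
  {n : ℕ} {T₀ : IntermediateField k L} {x y : Fin n → L}

omit [Fact p.Prime] in
private lemma D1_charP (p : ℕ) (k L : Type u) [Field k] [Field L] [CharP k p] [Algebra k L] :
    CharP L p :=
  charP_of_injective_algebraMap (algebraMap k L).injective p

omit [Fact p.Prime] [CharP k p] in
private lemma D1_cast {ζ : k} (hζ : IsPrimitiveRoot ζ N) {A B : ℕ} (h0 : ζ ≠ 0)
    (h : algebraMap k L ζ ^ A = algebraMap k L ζ ^ B) : (A : ZMod N) = (B : ZMod N) := by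
  have hζ' := hζ.map_of_injective (algebraMap k L).injective
  have hne : algebraMap k L ζ ≠ 0 := (_root_.map_ne_zero _).2 h0
  have key : ∀ A B : ℕ, A ≤ B → algebraMap k L ζ ^ A = algebraMap k L ζ ^ B →
      (A : ZMod N) = (B : ZMod N) := by
    intro A B hAB h
    obtain ⟨d, rfl⟩ := Nat.exists_eq_add_of_le hAB
    rw [pow_add] at h
    have h1 : algebraMap k L ζ ^ d = 1 :=
      (mul_left_cancel₀ (pow_ne_zero A hne) ((mul_one _).trans h)).symm
    rw [hζ'.pow_eq_one_iff_dvd, ← ZMod.natCast_eq_zero_iff] at h1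
    rw [Nat.cast_add, h1, add_zero]
  rcases le_total A B with h1 | h1
  · exact key A B h1 h
  · exact (key B A h1 h.symm).symm

/-- A homomorphism fixing `T₀` is diagonal. -/
private lemma D1_key (hN : N.Prime) (hx0 : ∀ j, x j ≠ 0) (hx : ∀ j, x j ^ N ∈ T₀)
    (hy : ∀ j, y j ^ p - y j ∈ T₀) {ζ : k} (hζ : IsPrimitiveRoot ζ N) (f : L →+* L)
    (hf : ∀ z ∈ T₀, f z = z) :
    ∃ (a : Fin n → ZMod N) (c : Fin n → ZMod p),
      (∀ j, f (x j) = algebraMap k L ζ ^ (a j).val * x j) ∧
      (∀ j, f (y j) = y j + ((c j).val : L)) := by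
  have hζ' := hζ.map_of_injective (algebraMap k L).injective
  have hcL : CharP L p := D1_charP p k L
  have hNe : NeZero N := ⟨hN.ne_zero⟩
  have kx : ∀ j, ∃ a : ZMod N, f (x j) = algebraMap k L ζ ^ a.val * x j := by
    intro j
    have h1 : (f (x j) / x j) ^ N = 1 := by
      rw [div_pow, ← map_pow, hf _ (hx j), div_self]
      exact pow_ne_zero _ (hx0 j)
    obtain ⟨i, hi, hi'⟩ := hζ'.eq_pow_of_pow_eq_one h1
    refine ⟨(i : ZMod N), ?_⟩
    rw [ZMod.val_natCast, Nat.mod_eq_of_lt hi, hi', div_mul_cancel₀ _ (hx0 j)]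
  have ky : ∀ j, ∃ c : ZMod p, f (y j) = y j + (c.val : L) := by
    intro j
    have h1 : (f (y j) - y j) ^ p = f (y j) - y j := by
      have h2 := hf _ (hy j)
      rw [map_sub, map_pow] at h2
      rw [sub_pow_char]
      linear_combination h2
    have h3 : f (y j) - y j ∈ (⊥ : Subfield L) := (Subfield.mem_bot_iff_pow_eq_self L p).2 h1
    rw [← ZMod.fieldRange_castHom_eq_bot p] at h3
    obtain ⟨c, hc⟩ := h3
    refine ⟨c, ?_⟩
    rw [ZMod.castHom_apply] at hc
    rw [ZMod.natCast_val, hc]
    ring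
  choose a ha using kx
  choose c hc using ky
  exact ⟨a, c, ha, hc⟩

omit [Fact p.Prime] [CharP k p] in
/-- Two homomorphisms which agree on the generators are equal. -/
private lemma D1_unique
    (hgen : IntermediateField.adjoin k ((T₀ : Set L) ∪ Set.range x ∪ Set.range y) = ⊤)
    (f g : L →+* L) (hT : ∀ z ∈ T₀, f z = g z) (hx : ∀ j, f (x j) = g (x j))
    (hy : ∀ j, f (y j) = g (y j)) : f = g := by
  ext z
  have hz : z ∈ IntermediateField.adjoin k ((T₀ : Set L) ∪ Set.range x ∪ Set.range y) := by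
    rw [hgen]
    exact IntermediateField.mem_top
  induction hz using IntermediateField.adjoin_induction with
  | mem z hz =>
    rcases hz with (hz | ⟨i, rfl⟩) | ⟨i, rfl⟩
    · exact hT z hz
    · exact hx i
    · exact hy i
  | algebraMap a => exact hT _ (T₀.algebraMap_mem a)
  | add u v _ _ hu hv => rw [map_add, map_add, hu, hv]
  | inv u _ hu => rw [map_inv₀, map_inv₀, hu]
  | mul u v _ _ hu hv => rw [map_mul, map_mul, hu, hv]

private lemma D1_split (hN : N.Prime) (hpN : p ≠ N) (hx0 : ∀ j, x j ≠ 0) (hx : ∀ j, x j ^ N ∈ T₀)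
    (hy : ∀ j, y j ^ p - y j ∈ T₀)
    (hgen : IntermediateField.adjoin k ((T₀ : Set L) ∪ Set.range x ∪ Set.range y) = ⊤) {ζ : k}
    (hζ : IsPrimitiveRoot ζ N) (T : IntermediateField k L) (hT : T₀ ≤ T) :
    ∃ P : T[X], P.IsSplittingField T L ∧ Algebra.IsSeparable T L := by
  have hp : p.Prime := Fact.out
  have hζ' := hζ.map_of_injective (algebraMap k L).injective
  have hcL : CharP L p := D1_charP p k L
  have hcT : CharP T p := charP_of_injective_algebraMap (algebraMap k T).injective p
  have hTne : ((N : ℕ) : T) ≠ 0 := by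
    intro h
    have h1 := (CharP.cast_eq_zero_iff T p N).1 h
    exact hpN ((Nat.prime_dvd_prime_iff_eq hp hN).1 h1)
  obtain ⟨u, hu⟩ : ∃ u : Fin n → T, ∀ i, algebraMap T L (u i) = x i ^ N :=
    ⟨fun i => ⟨x i ^ N, hT (hx i)⟩, fun i => rfl⟩
  obtain ⟨v, hv⟩ : ∃ v : Fin n → T, ∀ i, algebraMap T L (v i) = y i ^ p - y i :=
    ⟨fun i => ⟨y i ^ p - y i, hT (hy i)⟩, fun i => rfl⟩
  have hu0 : ∀ i, u i ≠ 0 := by
    intro i h0
    have h1 := hu i
    rw [h0, map_zero] at h1
    exact pow_ne_zero _ (hx0 i) h1.symm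
  obtain ⟨s, hs⟩ : ∃ s : Fin n ⊕ Fin n → L, s = Sum.elim x y := ⟨_, rfl⟩
  obtain ⟨P, hP⟩ : ∃ P : Fin n ⊕ Fin n → T[X],
      P = Sum.elim (fun i => X ^ N - C (u i)) (fun i => X ^ p - X - C (v i)) := ⟨_, rfl⟩
  have hmon : ∀ i, (P i).Monic := by
    rw [hP]
    rintro (i | i)
    · exact monic_X_pow_sub_C _ hN.ne_zero
    · change (X ^ p - X - C (v i) : T[X]).Monic
      rw [sub_sub]
      refine monic_X_pow_sub ?_
      rw [degree_X_add_C]
      exact_mod_cast hp.one_lt
  have hroot : ∀ i, aeval (s i) (P i) = 0 := by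
    rw [hP, hs]
    rintro (i | i)
    · change aeval (x i) (X ^ N - C (u i) : T[X]) = 0
      rw [map_sub, map_pow, aeval_X, aeval_C, hu, sub_self]
    · change aeval (y i) (X ^ p - X - C (v i) : T[X]) = 0
      rw [map_sub, map_sub, map_pow, aeval_X, aeval_C, hv, sub_self]
  have hPsep : ∀ i, (P i).Separable := by
    rw [hP]
    rintro (i | i)
    · exact separable_X_pow_sub_C _ hTne (hu0 i)
    · change (X ^ p - X - C (v i) : T[X]).Separable
      have h1 : derivative (X ^ p - X - C (v i) : T[X]) = -1 := by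
        rw [derivative_sub, derivative_sub, derivative_X_pow, derivative_X, derivative_C,
          CharP.cast_eq_zero, C_0, zero_mul, zero_sub, sub_zero]
      unfold Polynomial.Separable
      rw [h1]
      exact isCoprime_one_right.neg_right
  have hPsp : ∀ i, ((P i).map (algebraMap T L)).Splits := by
    rw [hP]
    rintro (i | i)
    · change ((X ^ N - C (u i) : T[X]).map (algebraMap T L)).Splits
      rw [Polynomial.map_sub, Polynomial.map_pow, map_X, map_C, hu]
      exact X_pow_sub_C_splits_of_isPrimitiveRoot hζ' rfl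
    · change ((X ^ p - X - C (v i) : T[X]).map (algebraMap T L)).Splits
      have h1 := (Subfield.splits_bot L p).map (algebraMap (⊥ : Subfield L) L)
      rw [Polynomial.map_sub, Polynomial.map_pow, map_X] at h1
      have h2 := h1.comp_X_sub_C (y i)
      rw [sub_comp, pow_comp, X_comp, sub_pow_char, ← C_pow] at h2
      rw [Polynomial.map_sub, Polynomial.map_sub, Polynomial.map_pow, map_X, map_C, hv]
      have h3 : (X ^ p - X - C (y i ^ p - y i) : L[X]) = X ^ p - C (y i ^ p) - (X - C (y i)) := by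
        rw [C_sub]
        ring
      rw [h3]
      exact h2
  have htop : IntermediateField.adjoin T (Set.range s) = ⊤ := by
    rw [eq_top_iff]
    have h1 : (IntermediateField.adjoin k ((T₀ : Set L) ∪ Set.range x ∪ Set.range y)) ≤
        (IntermediateField.adjoin T (Set.range s)).restrictScalars k := by
      rw [IntermediateField.adjoin_le_iff]
      rintro z ((hz | ⟨i, rfl⟩) | ⟨i, rfl⟩)
      · exact (IntermediateField.adjoin T (Set.range s)).algebraMap_mem ⟨z, hT hz⟩
      · exact IntermediateField.subset_adjoin T _ ⟨Sum.inl i, by rw [hs]; rfl⟩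
      · exact IntermediateField.subset_adjoin T _ ⟨Sum.inr i, by rw [hs]; rfl⟩
    rw [hgen] at h1
    intro z _
    exact h1 (IntermediateField.mem_top)
  have hint : ∀ i, IsIntegral T (s i) := fun i =>
    ⟨P i, hmon i, by rw [← aeval_def]; exact hroot i⟩
  have hsep : ∀ i, IsSeparable T (s i) := fun i =>
    (hPsep i).of_dvd (minpoly.dvd _ _ (hroot i))
  refine ⟨∏ i, P i, ⟨?_, ?_⟩, ?_⟩
  · rw [Polynomial.map_prod]
    exact Splits.prod fun i _ => hPsp i
  · rw [← top_le_iff]
    have h2 := congrArg IntermediateField.toSubalgebra htop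
    rw [IntermediateField.adjoin_toSubalgebra_of_isAlgebraic
      (fun z hz => by obtain ⟨i, rfl⟩ := hz; exact (hint i).isAlgebraic),
      IntermediateField.top_toSubalgebra] at h2
    rw [← h2]
    apply Algebra.adjoin_mono
    rintro z ⟨i, rfl⟩
    have h0 : (∏ i, P i) ≠ 0 :=
      Finset.prod_ne_zero_iff.mpr fun i _ => (hmon i).ne_zero
    rw [mem_rootSet]
    refine ⟨h0, ?_⟩
    rw [map_prod]
    exact Finset.prod_eq_zero (Finset.mem_univ i) (hroot i)
  · have h1 : Algebra.IsSeparable T (IntermediateField.adjoin T (Set.range s)) :=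
      (IntermediateField.isSeparable_adjoin_iff_isSeparable T L).mpr
        (fun z hz => by obtain ⟨i, rfl⟩ := hz; exact hsep i)
    rw [htop] at h1
    exact Algebra.IsSeparable.of_algHom T (⊤ : IntermediateField T L)
      (IntermediateField.topEquiv (F := T) (E := L)).symm.toAlgHom

/-- Products of Artin-Schreier curves are Galois coverings. -/
theorem as_galois (hN : N.Prime) (hpN : p ≠ N) (hx0 : ∀ j, x j ≠ 0) (hx : ∀ j, x j ^ N ∈ T₀)
    (hy : ∀ j, y j ^ p - y j ∈ T₀)
    (hgen : IntermediateField.adjoin k ((T₀ : Set L) ∪ Set.range x ∪ Set.range y) = ⊤) {ζ : k}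
    (hζ : IsPrimitiveRoot ζ N) (T : IntermediateField k L) (hT : T₀ ≤ T) :
    FiniteDimensional T L ∧ IsGalois T L ∧ Module.finrank T L ≤ (N * p) ^ n := by
  obtain ⟨P, hP, hs⟩ := D1_split hN hpN hx0 hx hy hgen hζ T hT
  have hfd : FiniteDimensional T L := hP.finiteDimensional (K := T) (L := L) P
  have hno : Normal T L := Normal.of_isSplittingField P
  have hG : IsGalois T L := ⟨⟩
  refine ⟨hfd, hG, ?_⟩
  rw [← IsGalois.card_aut_eq_finrank]
  have hfix : ∀ g : L ≃ₐ[T] L, ∀ z ∈ T₀, (g : L →+* L) z = z := fun g z hz =>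
    g.commutes ⟨z, hT hz⟩
  choose a c ha hc using fun g : L ≃ₐ[T] L => D1_key hN hx0 hx hy hζ (g : L →+* L) (hfix g)
  have hinj : Function.Injective (fun g : L ≃ₐ[T] L => (a g, c g)) := by
    intro g g' hgg
    have h1 : a g = a g' := congrArg Prod.fst hgg
    have h1' : c g = c g' := congrArg Prod.snd hgg
    have h2 : (g : L →+* L) = (g' : L →+* L) := by
      refine D1_unique hgen _ _ (fun z hz => ?_) (fun j => ?_) (fun j => ?_)
      · rw [hfix g z hz, hfix g' z hz]
      · rw [ha g j, ha g' j, h1]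
      · rw [hc g j, hc g' j, h1']
    exact AlgEquiv.ext fun z => RingHom.congr_fun h2 z
  have : NeZero N := ⟨hN.ne_zero⟩
  have h1 := Nat.card_le_card_of_injective _ hinj
  rw [Nat.card_prod, Nat.card_eq_fintype_card (α := Fin n → ZMod N),
    Nat.card_eq_fintype_card (α := Fin n → ZMod p), Fintype.card_fun, Fintype.card_fun, ZMod.card,
    ZMod.card, Fintype.card_fin] at h1
  rw [mul_pow]
  exact h1

/-- The coordinates of the elements of the Galois group. -/
theorem as_coords (hN : N.Prime) (hpN : p ≠ N) (hx0 : ∀ j, x j ≠ 0) (hx : ∀ j, x j ^ N ∈ T₀)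
    (hy : ∀ j, y j ^ p - y j ∈ T₀)
    (hgen : IntermediateField.adjoin k ((T₀ : Set L) ∪ Set.range x ∪ Set.range y) = ⊤) {ζ : k}
    (hζ : IsPrimitiveRoot ζ N) :
    ∃ (α : (L ≃ₐ[T₀] L) → Fin n → ZMod N) (τ : (L ≃ₐ[T₀] L) → Fin n → ZMod p),
      (∀ g j, g (x j) = algebraMap k L ζ ^ (α g j).val * x j) ∧
      (∀ g j, g (y j) = y j + ((τ g j).val : L)) ∧
      (∀ g g', α (g * g') = α g + α g') ∧ (∀ g g', τ (g * g') = τ g + τ g') ∧
      ∀ g, α g = 0 → τ g = 0 → g = 1 := by
  have hcL : CharP L p := D1_charP p k L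
  have hNe : NeZero N := ⟨hN.ne_zero⟩
  have hfix : ∀ g : L ≃ₐ[T₀] L, ∀ z ∈ T₀, g z = z := fun g z hz => g.commutes ⟨z, hz⟩
  choose α τ h1 h2 using fun g : L ≃ₐ[T₀] L => D1_key hN hx0 hx hy hζ (g : L →+* L) (hfix g)
  have hx1 : ∀ g j, g (x j) = algebraMap k L ζ ^ (α g j).val * x j := h1
  have hy1 : ∀ g j, g (y j) = y j + ((τ g j).val : L) := h2
  refine ⟨α, τ, hx1, hy1, ?_, ?_, ?_⟩
  · intro g g'
    funext j
    have h3 : (g * g') (x j) = g (g' (x j)) := rfl
    rw [hx1, hx1 g', map_mul, map_pow, hfix g _ (T₀.algebraMap_mem ζ), hx1 g, ← mul_assoc,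
      ← pow_add] at h3
    have h4 := D1_cast (L := L) hζ (hζ.ne_zero hN.ne_zero) (mul_right_cancel₀ (hx0 j) h3)
    rw [Nat.cast_add, ZMod.natCast_zmod_val, ZMod.natCast_zmod_val, ZMod.natCast_zmod_val] at h4
    rw [h4, Pi.add_apply, add_comm]
  · intro g g'
    funext j
    have h3 : (g * g') (y j) = g (g' (y j)) := rfl
    rw [hy1, hy1 g', map_add, map_natCast, hy1 g, add_assoc, ← Nat.cast_add] at h3
    have h4 := (CharP.natCast_eq_natCast L p).1 (add_left_cancel h3)
    rw [← ZMod.natCast_eq_natCast_iff, Nat.cast_add, ZMod.natCast_zmod_val,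
      ZMod.natCast_zmod_val, ZMod.natCast_zmod_val] at h4
    rw [h4, Pi.add_apply]
  · intro g hg1 hg2
    have h3 : (g : L →+* L) = ((1 : L ≃ₐ[T₀] L) : L →+* L) := by
      refine D1_unique hgen _ _ (fun z hz => ?_) (fun j => ?_) (fun j => ?_)
      · exact hfix g z hz
      · change g (x j) = x j
        rw [hx1, hg1, Pi.zero_apply, ZMod.val_zero, pow_zero, one_mul]
      · change g (y j) = y j
        rw [hy1, hg2, Pi.zero_apply, ZMod.val_zero, Nat.cast_zero, add_zero]
    exact AlgEquiv.ext fun z => RingHom.congr_fun h3 z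

end

end UnrA.Fer
end

section

/-!
# The trace of Artin-Schreier extensions
-/

namespace UnrA.Fer

open UnrG

universe u v w z

open Polynomial Finset
open scoped Classical

variable {m : UFun.{u, z}} {p : ℕ} [Fact p.Prime]

omit [Fact p.Prime] in
private lemma A1c_charP {T L : Type u} [Field T] [Field L] [CharP T p] [Algebra T L] : CharP L p :=
  charP_of_injective_algebraMap (algebraMap T L).injective p

private lemma A1c_ne {T L : Type u} [Field T] [Field L] [CharP T p] [Algebra T L] {a : T}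
    {Y : L} (hY : Y ^ p - Y = algebraMap T L a) (s : L →+* L)
    (hs : ∀ c : T, s (algebraMap T L c) = algebraMap T L c) (hsY : s Y = Y + 1) :
    ∀ b : T, b ^ p - b ≠ a := by
  intro b hb
  have hL : CharP L p := A1c_charP (T := T)
  have h1 : (Y - algebraMap T L b) ^ p = Y - algebraMap T L b := by
    rw [sub_pow_char, ← map_pow]
    rw [← hb, map_sub] at hY
    linear_combination hY
  have h2 : Y - algebraMap T L b ∈ (⊥ : Subfield L) :=
    (Subfield.mem_bot_iff_pow_eq_self L p).2 h1
  have h3 : s (Y - algebraMap T L b) = Y - algebraMap T L b := by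
    have h4 : (⊥ : Subfield L) ≤ RingHom.eqLocusField s (RingHom.id L) := bot_le
    exact h4 h2
  rw [map_sub, hs, hsY] at h3
  exact one_ne_zero (α := L) (by linear_combination h3)

private lemma A1c_minpoly {T L : Type u} [Field T] [Field L] [CharP T p] [Algebra T L] {a : T}
    (ha : ∀ b : T, b ^ p - b ≠ a) {Y : L} (hY : Y ^ p - Y = algebraMap T L a) :
    IsIntegral T Y ∧ minpoly T Y = X ^ p - X - C a := by
  have hp : 1 < p := (Fact.out : p.Prime).one_lt
  have hroot : aeval Y (X ^ p - X - C a : T[X]) = 0 := by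
    rw [map_sub, map_sub, map_pow, aeval_X, aeval_C, hY, sub_self]
  have hmon : (X ^ p - X - C a : T[X]).Monic := by
    rw [sub_sub]
    refine monic_X_pow_sub ?_
    exact lt_of_le_of_lt ((degree_add_le _ _).trans (max_le degree_X_le
      (degree_C_le.trans (by norm_num)))) (by exact_mod_cast hp)
  exact ⟨⟨_, hmon, hroot⟩, (minpoly.eq_of_irreducible_of_monic (irreducible_as ha) hroot hmon).symm⟩

private lemma A1c_pb {T L : Type u} [Field T] [Field L] [CharP T p] [Algebra T L] {a : T}
    (ha : ∀ b : T, b ^ p - b ≠ a) {Y : L} (hY : Y ^ p - Y = algebraMap T L a)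
    (htop : IntermediateField.adjoin T {Y} = ⊤) :
    ∃ pb : PowerBasis T L, pb.gen = Y ∧ pb.dim = p := by
  have hp : 1 < p := (Fact.out : p.Prime).one_lt
  obtain ⟨hint, hmin⟩ := A1c_minpoly ha hY
  refine ⟨(IntermediateField.adjoin.powerBasis hint).map
    ((IntermediateField.equivOfEq htop).trans IntermediateField.topEquiv), ?_, ?_⟩
  · rw [PowerBasis.map_gen, IntermediateField.adjoin.powerBasis_gen]
    rfl
  · rw [PowerBasis.map_dim, IntermediateField.adjoin.powerBasis_dim, hmin, natDegree_sub_C]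
    rw [natDegree_sub_eq_left_of_natDegree_lt, natDegree_X_pow]
    rw [natDegree_X_pow, natDegree_X]
    exact hp

/-- Artin-Schreier extensions are Galois extensions of degree `p`. -/
theorem as_trace {T L : Type u} [Field T] [Field L] [CharP T p] [Algebra T L] {a : T}
    {Y : L} (hY : Y ^ p - Y = algebraMap T L a)
    (htop : IntermediateField.adjoin T {Y} = ⊤) (s : L →+* L)
    (hs : ∀ c : T, s (algebraMap T L c) = algebraMap T L c) (hsY : s Y = Y + 1) :
    FiniteDimensional T L ∧ IsGalois T L ∧ Module.finrank T L = p ∧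
      ∀ x : KM m L, ∃ y : KM m T, KM.map m (algebraMap T L) y =
        ∑ i ∈ range p, KM.map m (s ^ i) x := by
  have hp : 1 < p := (Fact.out : p.Prime).one_lt
  have hL : CharP L p := A1c_charP (T := T)
  have ha := A1c_ne hY s hs hsY
  obtain ⟨pb, hgen, hdim⟩ := A1c_pb ha hY htop
  have hfin : FiniteDimensional T L := pb.finite
  have hrank : Module.finrank T L = p := by rw [pb.finrank, hdim]
  -- the automorphism
  let sA : L →ₐ[T] L := { s with commutes' := hs }
  have hsA : ∀ z, sA z = s z := fun _ => rfl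
  let sE : L ≃ₐ[T] L := AlgEquiv.ofBijective sA (Algebra.IsAlgebraic.algHom_bijective sA)
  have hsE : ∀ z, sE z = s z := fun _ => rfl
  have hpow : ∀ (i : ℕ), ((sE ^ i : L ≃ₐ[T] L) : L →+* L) = s ^ i := by
    intro i
    induction i with
    | zero => ext z; rfl
    | succ i ih =>
      ext z
      rw [pow_succ, pow_succ]
      have h1 := RingHom.congr_fun ih (sE z)
      exact h1
  have hpowY : ∀ i : ℕ, (sE ^ i) Y = Y + i := by
    intro i
    induction i with
    | zero => simp
    | succ i ih =>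
      rw [pow_succ', AlgEquiv.mul_apply, ih, map_add, map_natCast, hsE, hsY]
      push_cast
      ring
  have hinj : Function.Injective (fun i : Fin p => sE ^ (i : ℕ)) := by
    intro i j hij
    have h1 : (sE ^ (i : ℕ)) Y = (sE ^ (j : ℕ)) Y := congrArg (fun e : L ≃ₐ[T] L => e Y) hij
    rw [hpowY, hpowY] at h1
    have h2 : ((i : ℕ) : L) = ((j : ℕ) : L) := add_left_cancel h1
    have h3 := (CharP.natCast_eq_natCast L p).1 h2
    exact Fin.ext (Nat.ModEq.eq_of_lt_of_lt h3 i.2 j.2)
  have hle : p ≤ Fintype.card (L ≃ₐ[T] L) := by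
    have h1 := Fintype.card_le_of_injective _ hinj
    rwa [Fintype.card_fin] at h1
  have hle2 : Fintype.card (L ≃ₐ[T] L) ≤ p := by
    have h1 := AlgEquiv.card_le (F := T) (K := L)
    rwa [hrank] at h1
  have hcard : Fintype.card (L ≃ₐ[T] L) = p := le_antisymm hle2 hle
  have hgal : IsGalois T L := by
    apply IsGalois.of_card_aut_eq_finrank
    rw [Nat.card_eq_fintype_card, hcard, hrank]
  refine ⟨hfin, hgal, hrank, ?_⟩
  intro x
  obtain ⟨y, hy⟩ := exists_trace (K := T) (L := L) x
  refine ⟨y, ?_⟩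
  rw [hy]
  have hbij : Function.Bijective (fun i : Fin p => sE ^ (i : ℕ)) :=
    (Fintype.bijective_iff_injective_and_card _).2 ⟨hinj, by rw [Fintype.card_fin, hcard]⟩
  rw [← hbij.sum_comp (fun σ : L ≃ₐ[T] L => KM.map m (σ : L →+* L) x), Finset.sum_range]
  exact Finset.sum_congr rfl fun i _ => by rw [hpow]

end UnrA.Fer
end

section

/-!
# The curves `y ^ p - y = x ^ N`
-/

namespace UnrA.Fer

open UnrG

universe u v w z

open Polynomial Finset
open scoped Classical

/-- `M` is the function field of the curve `y ^ p - y = x ^ N` over `K`. -/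
structure IsASCurve (p N : ℕ) {K : Type v} {M : Type u} [Field K] [Field M] (j : K →+* M)
    (x y : M) : Prop where
  eq : y ^ p - y = x ^ N
  transc : ∀ f : K[X], f ≠ 0 → f.eval₂ j x ≠ 0
  gen : Subfield.closure (Set.range j ∪ {x, y}) = ⊤

lemma IsASCurve.hom_ext {p N : ℕ} {K : Type v} {M : Type u} {E : Type w} [Field K]
    [Field M] [Field E] {j : K →+* M} {x y : M} (h : IsASCurve p N j x y) {f g : M →+* E}
    (h1 : f.comp j = g.comp j) (hx : f x = g x) (hy : f y = g y) : f = g := by
  apply RingHom.eq_of_eqOn_of_field_closure_eq_top h.gen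
  rintro z (⟨a, rfl⟩ | rfl | rfl)
  · exact congrArg (fun f : K →+* E => f a) h1
  · exact hx
  · exact hy

/-- The universal property of the function field of the curve. -/
theorem IsASCurve.exists_hom {p : ℕ} [Fact p.Prime] {N : ℕ} (hN : 0 < N) (hpN : ¬ p ∣ N)
    {K M : Type u} {E : Type w} [Field K] [Field M] [Field E] [CharP K p] {j : K →+* M} {x y : M}
    (h : IsASCurve p N j x y) (g : K →+* E) (x' y' : E) (heq : y' ^ p - y' = x' ^ N)
    (htr : ∀ f : K[X], f ≠ 0 → f.eval₂ g x' ≠ 0) :
    ∃ f : M →+* E, f.comp j = g ∧ f x = x' ∧ f y = y' := by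
  -- lifts to the field of rational functions
  have hinj1 : Function.Injective (eval₂RingHom j x) := by
    rw [injective_iff_map_eq_zero]
    intro f hf
    by_contra h0
    exact h.transc f h0 hf
  have hinj2 : Function.Injective (eval₂RingHom g x') := by
    rw [injective_iff_map_eq_zero]
    intro f hf
    by_contra h0
    exact htr f h0 hf
  let f₁ : RatFunc K →+* M := IsFractionRing.lift hinj1
  let f₂ : RatFunc K →+* E := IsFractionRing.lift hinj2
  have hf₁ : ∀ p : K[X], f₁ (algebraMap K[X] (RatFunc K) p) = p.eval₂ j x := fun p =>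
    IsFractionRing.lift_algebraMap hinj1 p
  have hf₂ : ∀ p : K[X], f₂ (algebraMap K[X] (RatFunc K) p) = p.eval₂ g x' := fun p =>
    IsFractionRing.lift_algebraMap hinj2 p
  have hchar : CharP (RatFunc K) p :=
    charP_of_injective_algebraMap (algebraMap K (RatFunc K)).injective p
  let P : (RatFunc K)[X] := X ^ p - X - C (algebraMap K[X] (RatFunc K) (X ^ N))
  have hev : ∀ f : K[X], f.eval₂ (algebraMap K (RatFunc K)) (RatFunc.X : RatFunc K) =
      algebraMap K[X] (RatFunc K) f := by
    intro f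
    have h1 : (eval₂RingHom (algebraMap K (RatFunc K)) (RatFunc.X : RatFunc K)) =
        algebraMap K[X] (RatFunc K) := by
      refine Polynomial.ringHom_ext (fun a => ?_) ?_
      · simp
      · simp
    exact RingHom.congr_fun h1 f
  have hP : Irreducible P := by
    refine irreducible_as fun b hb => ?_
    rw [← hev] at hb
    refine as_not_mem (algebraMap K (RatFunc K)) (x := (RatFunc.X : RatFunc K)) ?_ ?_ (X ^ N) ?_
      b hb
    · intro f hf h0
      rw [hev] at h0
      exact hf ((map_eq_zero_iff _ (IsFractionRing.injective K[X] (RatFunc K))).1 h0)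
    · rw [eq_top_iff]
      intro z _
      have h1 : ∀ f : K[X], algebraMap K[X] (RatFunc K) f ∈ Subfield.closure
          (Set.range (algebraMap K (RatFunc K)) ∪ {(RatFunc.X : RatFunc K)}) := by
        intro f
        rw [← hev, eval₂_eq_sum_range]
        refine sum_mem fun i _ => mul_mem ?_ (pow_mem ?_ _)
        · exact Subfield.subset_closure (Or.inl ⟨_, rfl⟩)
        · exact Subfield.subset_closure (Or.inr rfl)
      obtain ⟨u, v, hv, rfl⟩ := IsFractionRing.div_surjective (A := K[X]) z
      exact div_mem (h1 u) (h1 v)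
    · rwa [natDegree_X_pow]
  have : Fact (Irreducible P) := ⟨hP⟩
  have hy1 : P.eval₂ f₁ y = 0 := by
    rw [eval₂_sub, eval₂_sub, eval₂_pow, eval₂_X, eval₂_C, hf₁, eval₂_pow, eval₂_X, h.eq,
      sub_self]
  have hy2 : P.eval₂ f₂ y' = 0 := by
    rw [eval₂_sub, eval₂_sub, eval₂_pow, eval₂_X, eval₂_C, hf₂, eval₂_pow, eval₂_X, heq,
      sub_self]
  let α : AdjoinRoot P →+* M := AdjoinRoot.lift f₁ y hy1
  let β : AdjoinRoot P →+* E := AdjoinRoot.lift f₂ y' hy2
  have hαj : ∀ a : K, α (AdjoinRoot.of P (algebraMap K[X] (RatFunc K) (C a))) = j a := by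
    intro a
    rw [AdjoinRoot.lift_of, hf₁, eval₂_C]
  have hαx : α (AdjoinRoot.of P (algebraMap K[X] (RatFunc K) X)) = x := by
    rw [AdjoinRoot.lift_of, hf₁, eval₂_X]
  have hαy : α (AdjoinRoot.root P) = y := AdjoinRoot.lift_root hy1
  have hsurj : Function.Surjective α := by
    rw [← RingHom.range_eq_top]
    have h1 : α.fieldRange = ⊤ := by
      rw [eq_top_iff, ← h.gen, Subfield.closure_le]
      rintro z (⟨a, rfl⟩ | rfl | rfl)
      · exact ⟨_, hαj a⟩
      · exact ⟨_, hαx⟩
      · exact ⟨_, hαy⟩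
    rw [eq_top_iff]
    intro z _
    have h2 : z ∈ α.fieldRange := by rw [h1]; trivial
    exact h2
  let e : AdjoinRoot P ≃+* M := RingEquiv.ofBijective α ⟨α.injective, hsurj⟩
  have he : ∀ z, e.symm (α z) = z := fun z => e.symm_apply_apply z
  refine ⟨β.comp (e.symm : M →+* AdjoinRoot P), ?_, ?_, ?_⟩
  · refine RingHom.ext fun a => ?_
    change β (e.symm (j a)) = g a
    rw [← hαj a, he, AdjoinRoot.lift_of, hf₂, eval₂_C]
  · change β (e.symm x) = x'
    have h1 : e.symm x = AdjoinRoot.of P (algebraMap K[X] (RatFunc K) X) := by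
      rw [← he (AdjoinRoot.of P (algebraMap K[X] (RatFunc K) X)), hαx]
    rw [h1, AdjoinRoot.lift_of, hf₂, eval₂_X]
  · change β (e.symm y) = y'
    have h1 : e.symm y = AdjoinRoot.root P := by
      rw [← he (AdjoinRoot.root P), hαy]
    rw [h1]
    exact AdjoinRoot.lift_root hy2

end UnrA.Fer
end
end

section

section

/-!
# Exponents and absolute values of Gauss sums
-/

namespace UnrA.Fer

open UnrG

universe u v w z

open Polynomial Finset
open scoped Classical

variable {𝔽 : Type w} [Field 𝔽] [Fintype 𝔽] (b : Base 𝔽) {p f₀ : ℕ}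

private lemma B5a_zeta_pow_congr {i j : ℕ} (h : i ≡ j [MOD b.N]) : b.ζ ^ i = b.ζ ^ j := by
  have h1 : b.ζ ^ b.N = 1 := b.hζ.pow_eq_one
  have key : ∀ k : ℕ, b.ζ ^ k = b.ζ ^ (k % b.N) := by
    intro k
    conv_lhs => rw [← Nat.div_add_mod k b.N, pow_add, pow_mul, h1, one_pow, one_mul]
  rw [key i, key j]
  exact congrArg _ h

/-- Exponents realising the automorphisms of the correspondence. -/
theorem Base.exists_as_exponents [Fact p.Prime] [CharP 𝔽 p] (hN : b.N.Prime)
    (hf : Fintype.card 𝔽 = p ^ f₀) {n : ℕ} (hn : 0 < n) (bb : Fin n → ℕ)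
    (hb : ∀ j, ¬ b.N ∣ bb j) :
    ∃ (a c : Fin n → ℕ) (l : Fin n → 𝔽 → ℕ), b.ζ ^ ∑ i, bb i * a i = b.ζ ∧ ∑ i, c i = 1 ∧
      ∀ (j : Fin n) (s : 𝔽), s ≠ 0 → b.ζ ^ l j s = (s ^ b.e) ^ bb j ∧
      ((l j s : ℕ) : 𝔽) = ∑ i ∈ range f₀, s ^ p ^ i := by
  have hN1 : 1 < b.N := hN.one_lt
  have hp : p.Prime := Fact.out
  -- `p` is prime to `N`
  have hcop : b.N.Coprime p := by
    rw [Nat.coprime_primes hN hp]
    intro h
    have h0 : f₀ ≠ 0 := by
      rintro rfl
      have h2 := Fintype.one_lt_card (α := 𝔽)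
      rw [hf, pow_zero] at h2
      exact lt_irrefl _ h2
    have h1 : b.N ∣ p ^ f₀ := by
      rw [h]
      exact dvd_pow_self p h0
    rw [← hf, b.card] at h1
    have h2 : b.N ∣ 1 := (Nat.dvd_add_right (dvd_mul_right _ _)).mp h1
    exact hN.one_lt.ne' (Nat.dvd_one.mp h2)
  -- the trace is a natural number
  have htr : ∀ s : 𝔽, ∃ k : ℕ, (k : 𝔽) = ∑ i ∈ range f₀, s ^ p ^ i := by
    intro s
    have h1 : (∑ i ∈ range f₀, s ^ p ^ i) ^ p = ∑ i ∈ range f₀, s ^ p ^ i := by
      have h2 := map_sum (frobenius 𝔽 p) (fun i => s ^ p ^ i) (range f₀)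
      rw [frobenius_def] at h2
      rw [h2]
      have h3 : ∀ i, (frobenius 𝔽 p) (s ^ p ^ i) = s ^ p ^ (i + 1) := by
        intro i
        rw [frobenius_def, ← pow_mul, ← pow_succ]
      simp_rw [h3]
      have h4 := Finset.sum_range_succ' (fun i => s ^ p ^ i) f₀
      have h5 := Finset.sum_range_succ (fun i => s ^ p ^ i) f₀
      have h6 : s ^ p ^ f₀ = s ^ p ^ 0 := by
        rw [← hf, FiniteField.pow_card, pow_zero, pow_one]
      rw [h5, h6] at h4
      exact (add_right_cancel h4).symm
    have h2 := (Subfield.mem_bot_iff_pow_eq_self 𝔽 p).mpr h1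
    rw [mem_bot_iff_intCast p] at h2
    obtain ⟨k, hk⟩ := h2
    refine ⟨(k % p).toNat, ?_⟩
    rw [← hk]
    have h3 : (((k % p).toNat : ℤ) : 𝔽) = (k : 𝔽) := by
      rw [Int.toNat_of_nonneg (Int.emod_nonneg _ (by exact_mod_cast hp.ne_zero))]
      rw [← sub_eq_zero, ← Int.cast_sub, CharP.intCast_eq_zero_iff 𝔽 p]
      exact ⟨-(k / p), by have := Int.emod_add_mul_ediv k p; linarith⟩
    exact_mod_cast h3
  -- the exponent `a₀`
  obtain ⟨a₀, ha₀⟩ : ∃ a₀, bb ⟨0, hn⟩ * a₀ ≡ 1 [MOD b.N] := by
    have h1 : (bb ⟨0, hn⟩).Coprime b.N := ((Nat.Prime.coprime_iff_not_dvd hN).mpr (hb _)).symm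
    obtain ⟨m, _, hm⟩ := Nat.exists_mul_mod_eq_one_of_coprime h1 hN1
    exact ⟨m, by rw [Nat.ModEq, hm, Nat.mod_eq_of_lt hN1]⟩
  -- the exponents `l`
  have hl : ∀ (j : Fin n) (s : 𝔽), ∃ l : ℕ, s ≠ 0 → b.ζ ^ l = (s ^ b.e) ^ bb j ∧
      ((l : ℕ) : 𝔽) = ∑ i ∈ range f₀, s ^ p ^ i := by
    intro j s
    rcases eq_or_ne s 0 with h0 | h0
    · exact ⟨0, fun h => absurd h0 h⟩
    · obtain ⟨i, hi⟩ := b.exists_pow_ζ h0
      obtain ⟨k, hk⟩ := htr s
      obtain ⟨l, hl1, hl2⟩ := Nat.chineseRemainder hcop (i * bb j) k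
      refine ⟨l, fun _ => ⟨?_, ?_⟩⟩
      · rw [B5a_zeta_pow_congr b hl1, hi, pow_mul]
      · rw [← hk]
        exact (CharP.natCast_eq_natCast 𝔽 p).mpr hl2
  choose l hl using hl
  refine ⟨Pi.single ⟨0, hn⟩ a₀, Pi.single ⟨0, hn⟩ 1, l, ?_, ?_, hl⟩
  · have h1 : ∑ i, bb i * (Pi.single ⟨0, hn⟩ a₀ : Fin n → ℕ) i = bb ⟨0, hn⟩ * a₀ := by
      rw [Finset.sum_eq_single ⟨0, hn⟩]
      · rw [Pi.single_eq_same]
      · intro i _ hi
        rw [Pi.single_eq_of_ne hi, mul_zero]
      · intro h
        exact absurd (Finset.mem_univ _) h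
    rw [h1, B5a_zeta_pow_congr b ha₀, pow_one]
  · rw [Finset.sum_pi_single']
    simp

/-- The absolute value of a Gauss sum. -/
theorem normSq_gaussSum {χ : MulChar 𝔽 ℂ} (hχ : χ ≠ 1) {ψ : AddChar 𝔽 ℂ} (hψ : ψ.IsPrimitive) :
    Complex.normSq (gaussSum χ ψ) = Fintype.card 𝔽 := by
  have h1 := gaussSum_mul_gaussSum_eq_card hχ hψ
  rw [← star_gaussSum_eq, ← starRingEnd_apply, Complex.mul_conj] at h1
  exact_mod_cast h1

end UnrA.Fer
end

section

/-!
# The curves `u ^ p - u = x R(x) + l x + d`: definitions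
-/

namespace UnrA.Fer

open UnrG

universe u v w z

open Polynomial Finset
open scoped Classical

/-- The additive polynomial `R(x) = ∑_{i ≤ h} r_i x ^ (p ^ i)`. -/
def adR (p h : ℕ) {F : Type u} [Field F] (r : ℕ → F) (x : F) : F :=
  ∑ i ∈ range (h + 1), r i * x ^ p ^ i

/-- The coefficients `β_0 = - (a r_0 + R(a))`, `β_(i+1) = β_i ^ p - a r_(i+1)`. -/
def adB (p h : ℕ) {F : Type u} [Field F] (r : ℕ → F) (a : F) : ℕ → F
  | 0 => -(a * r 0 + adR p h r a)
  | i + 1 => adB p h r a i ^ p - a * r (i + 1)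

/-- The additive polynomial `B_a(x) = ∑_{i < h} β_i x ^ (p ^ i)`. -/
def adS (p h : ℕ) {F : Type u} [Field F] (r : ℕ → F) (a x : F) : F :=
  ∑ i ∈ range h, adB p h r a i * x ^ p ^ i

/-- `E` is the function field over `F` of
`u ^ p - u = d + x_0 R_0(x_0) + l_0 x_0 + x_1 R_1(x_1) + l_1 x_1`, where `R_j` is an additive polynomial
of degree `p ^ (h_j)`. -/
structure IsAddPair (p : ℕ) {F E : Type u} [Field F] [Field E] [Algebra F E] (h : Fin 2 → ℕ)
    (r : Fin 2 → ℕ → F) (l : Fin 2 → F) (d : F) (x : Fin 2 → E) (u : E) : Prop where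
  ne : ∀ j, r j (h j) ≠ 0
  pos : p = 2 → ∀ j, 0 < h j
  ind : AlgebraicIndependent F x
  eq : u ^ p - u = algebraMap F E d + ∑ j, (x j * adR p (h j) (fun i => algebraMap F E (r j i))
    (x j) + algebraMap F E (l j) * x j)
  gen : IntermediateField.adjoin F (Set.range x ∪ {u}) = ⊤

end UnrA.Fer
end

section

/-!
# The curves `u ^ p - u = x R(x) + l x + d`: identities
-/

namespace UnrA.Fer

open UnrG

universe u v w z

open Polynomial Finset
open scoped Classical

variable {p : ℕ} [Fact p.Prime]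

section

variable {F : Type u} [Field F] [CharP F p] {h : ℕ} (r : ℕ → F)

lemma adR_add (x y : F) : adR p h r (x + y) = adR p h r x + adR p h r y := by
  unfold adR
  rw [← Finset.sum_add_distrib]
  exact Finset.sum_congr rfl fun i _ => by rw [add_pow_char_pow, mul_add]

lemma adS_add (a x y : F) : adS p h r a (x + y) = adS p h r a x + adS p h r a y := by
  unfold adS
  rw [← Finset.sum_add_distrib]
  exact Finset.sum_congr rfl fun i _ => by rw [add_pow_char_pow, mul_add]

lemma adB_add (a a' : F) (i : ℕ) : adB p h r (a + a') i = adB p h r a i + adB p h r a' i := by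
  induction i with
  | zero =>
    simp only [adB, adR_add]
    ring
  | succ i ih =>
    simp only [adB, ih, add_pow_char]
    ring

lemma adS_add_left (a a' x : F) : adS p h r (a + a') x = adS p h r a x + adS p h r a' x := by
  unfold adS
  rw [← Finset.sum_add_distrib]
  exact Finset.sum_congr rfl fun i _ => by rw [adB_add, add_mul]

/-- The fundamental identity. -/
theorem adS_pow_sub {a : F} (ha : adB p h r a h = 0) (x : F) :
    adS p h r a x ^ p - adS p h r a x = a * adR p h r x + x * adR p h r a := by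
  have e1 : adS p h r a x ^ p = ∑ i ∈ range h, adB p h r a (i + 1) * x ^ p ^ (i + 1) +
      a * ∑ i ∈ range h, r (i + 1) * x ^ p ^ (i + 1) := by
    unfold adS
    rw [sum_pow_char, Finset.mul_sum, ← Finset.sum_add_distrib]
    refine Finset.sum_congr rfl fun i _ => ?_
    rw [mul_pow, ← pow_mul, ← pow_succ, adB]
    ring
  have e2 := Finset.sum_range_succ' (fun i => adB p h r a i * x ^ p ^ i) h
  have e3 := Finset.sum_range_succ' (fun i => r i * x ^ p ^ i) h
  have e4 := Finset.sum_range_succ (fun i => adB p h r a i * x ^ p ^ i) h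
  have e5 : adB p h r a 0 = -(a * r 0 + adR p h r a) := rfl
  simp only [pow_zero, pow_one] at e2 e3
  rw [ha, zero_mul, add_zero] at e4
  have e6 : adS p h r a x = ∑ i ∈ range h, adB p h r a i * x ^ p ^ i := rfl
  have e7 : adR p h r x = ∑ i ∈ range (h + 1), r i * x ^ p ^ i := rfl
  rw [e1, e7]
  rw [← e6] at e4
  rw [e5] at e2
  linear_combination e4 - e2 - a * e3

end

/-- Compatibility with homomorphisms. -/
lemma map_adR {F : Type u} {E : Type v} [Field F] [Field E] (f : F →+* E) (h : ℕ) (r : ℕ → F)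
    (x : F) : f (adR p h r x) = adR p h (fun i => f (r i)) (f x) := by
  simp only [adR, map_sum, map_mul, map_pow]

lemma map_adB {F : Type u} {E : Type v} [Field F] [Field E] (f : F →+* E) (h : ℕ) (r : ℕ → F)
    (a : F) (i : ℕ) : f (adB p h r a i) = adB p h (fun i => f (r i)) (f a) i := by
  induction i with
  | zero => simp only [adB, map_neg, map_add, map_mul, map_adR]
  | succ i ih => simp only [adB, map_sub, map_pow, map_mul, ih]

lemma map_adS {F : Type u} {E : Type v} [Field F] [Field E] (f : F →+* E) (h : ℕ) (r : ℕ → F)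
    (a x : F) : f (adS p h r a x) = adS p h (fun i => f (r i)) (f a) (f x) := by
  simp only [adS, map_sum, map_mul, map_pow, map_adB]

end UnrA.Fer
end

section

/-!
# The curves `u ^ p - u = x R(x) + l x + d`: two translations which do not commute
-/

namespace UnrA.Fer

open UnrG

universe u v w z

open Polynomial Finset
open scoped Classical

variable {p : ℕ} [Fact p.Prime]

/-- The polynomials of the coefficients `adB`. -/
theorem adB_poly {F : Type u} [Field F] [CharP F p] {h : ℕ} (hh : 0 < h) (r : ℕ → F)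
    (hr : r h ≠ 0) (i : ℕ) :
    ∃ P : F[X], P.natDegree = p ^ (h + i) ∧ P.leadingCoeff = -(r h) ^ p ^ i ∧
      (0 < i → derivative P = C (-(r i))) ∧ P.eval 0 = 0 ∧
      ∀ (E : Type u) [Field E] [Algebra F E] (x : E),
        aeval x P = adB p h (fun i => algebraMap F E (r i)) x i := by
  have hp : p.Prime := Fact.out
  induction i with
  | zero =>
    have hR : (∑ i ∈ range h, (C (r i) * X ^ p ^ i : F[X])).natDegree < p ^ h := by
      refine (Polynomial.natDegree_sum_le_of_forall_le (n := p ^ (h - 1)) _ _ fun i hi => ?_).trans_lt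
        (Nat.pow_lt_pow_right hp.one_lt (by omega))
      refine (natDegree_C_mul_X_pow_le _ _).trans (Nat.pow_le_pow_right hp.pos ?_)
      have := Finset.mem_range.1 hi
      omega
    have h1 : (C (r 0) * X + ∑ i ∈ range h, (C (r i) * X ^ p ^ i : F[X])).natDegree < p ^ h := by
      refine (natDegree_add_le _ _).trans_lt (max_lt ?_ hR)
      exact ((natDegree_C_mul_le _ _).trans natDegree_X_le).trans_lt
        (Nat.one_lt_pow hh.ne' hp.one_lt)
    have h2 : (C (r h) * X ^ p ^ h : F[X]).natDegree = p ^ h := natDegree_C_mul_X_pow _ _ hr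
    refine ⟨-((C (r h) * X ^ p ^ h) + (C (r 0) * X + ∑ i ∈ range h, C (r i) * X ^ p ^ i)),
      ?_, ?_, fun h0 => absurd h0 (lt_irrefl _), ?_, fun E _ _ x => ?_⟩
    · rw [natDegree_neg, natDegree_add_eq_left_of_natDegree_lt (by rw [h2]; exact h1), h2, add_zero]
    · rw [leadingCoeff_neg, leadingCoeff_add_of_degree_lt' (degree_lt_degree (by rw [h2]; exact h1)),
        leadingCoeff_C_mul_X_pow, pow_zero, pow_one]
    · have h3 : ∀ i, (0 : F) ^ p ^ i = 0 := fun i => zero_pow (pow_pos hp.pos i).ne'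
      simp [eval_finsetSum, h3]
    · simp only [adB, adR, Finset.sum_range_succ, map_neg, map_add, map_mul, map_sum, map_pow,
        aeval_C, aeval_X]
      ring
  | succ i ih =>
    obtain ⟨P, h1, h2, h3, h4, h5⟩ := ih
    have hd : (P ^ p).natDegree = p ^ (h + (i + 1)) := by
      rw [natDegree_pow, h1, ← pow_succ', add_assoc]
    have hd2 : (C (r (i + 1)) * X : F[X]).natDegree < (P ^ p).natDegree := by
      rw [hd]
      exact ((natDegree_C_mul_le _ _).trans natDegree_X_le).trans_lt
        (Nat.one_lt_pow (by omega) hp.one_lt)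
    refine ⟨P ^ p - C (r (i + 1)) * X, ?_, ?_, fun _ => ?_, ?_, fun E _ _ x => ?_⟩
    · rw [natDegree_sub_eq_left_of_natDegree_lt hd2, hd]
    · rw [leadingCoeff_sub_of_degree_lt (degree_lt_degree hd2), leadingCoeff_pow, h2]
      have h6 := sub_pow_char (R := F) (p := p) 0 (r h ^ p ^ i)
      rw [zero_sub, zero_pow hp.ne_zero, zero_sub, ← pow_mul, ← pow_succ] at h6
      exact h6
    · rw [derivative_sub, derivative_pow, derivative_C_mul, derivative_X, CharP.cast_eq_zero, C_0,
        zero_mul, zero_mul, mul_one, zero_sub, C_neg]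
    · rw [eval_sub, eval_pow, h4, eval_mul, eval_C, eval_X, mul_zero, zero_pow hp.ne_zero, sub_zero]
    · rw [map_sub, map_pow, h5, map_mul, aeval_C, aeval_X, adB, mul_comm x]

/-- Two translations which do not commute. -/
theorem ad_exists {Ω : Type u} [Field Ω] [IsAlgClosed Ω] [CharP Ω p] {h : ℕ} (hh : 0 < h)
    (h2 : p = 2 → 1 < h) (r : ℕ → Ω) (hr : r h ≠ 0) :
    ∃ a a' : Ω, a ≠ 0 ∧ adB p h r a h = 0 ∧ adB p h r a' h = 0 ∧
      adS p h r a a' ≠ adS p h r a' a ∧ (p = 2 → adS p h r a a = 0) := by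
  have hp : p.Prime := Fact.out
  choose P hP1 hP2 hP3 hP4 hP5 using adB_poly hh r hr
  have hP6 : ∀ (i : ℕ) (x : Ω), (P i).eval x = adB p h r x i := by
    intro i x
    have h1 := hP5 i Ω x
    rw [Polynomial.coe_aeval_eq_eval] at h1
    exact h1
  have hr' : ∀ i, r h ^ p ^ i ≠ 0 := fun i => pow_ne_zero _ hr
  have hsep : (P h).Separable := by
    rw [separable_def, hP3 h hh]
    refine ⟨0, C (-(r h))⁻¹, ?_⟩
    rw [zero_mul, zero_add, ← C_mul, inv_mul_cancel₀ (neg_ne_zero.2 hr), C_1]
  obtain ⟨W, hW⟩ : ∃ W : Finset Ω, W = (P h).roots.toFinset := ⟨_, rfl⟩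
  have hWmem : ∀ a ∈ W, adB p h r a h = 0 := by
    intro a ha
    rw [hW, Multiset.mem_toFinset, mem_roots hsep.ne_zero, IsRoot.def, hP6] at ha
    exact ha
  have hWcard : W.card = p ^ (h + h) := by
    rw [hW, Multiset.toFinset_card_of_nodup (nodup_roots hsep),
      ← (IsAlgClosed.splits (P h)).natDegree_eq_card_roots, hP1]
  -- a root with one more condition
  have hA : ∃ a ∈ W, a ≠ 0 ∧ (p = 2 → adS p h r a a = 0) := by
    by_cases hp2 : p = 2
    · have h1 := h2 hp2
      obtain ⟨q, hq⟩ : ∃ q : Polynomial Ω, q = ∑ i ∈ range h, P i * X ^ p ^ i - C 1 := ⟨_, rfl⟩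
      have hqe : ∀ x, q.eval x = adS p h r x x - 1 := by
        intro x
        rw [hq, eval_sub, eval_C, eval_finsetSum, adS]
        congr 1
        exact Finset.sum_congr rfl fun i _ => by rw [eval_mul, eval_pow, eval_X, hP6]
      have hq0 : q ≠ 0 := by
        intro h3
        have h4 : q.eval 0 = -1 := by
          have h5 : adS p h r (0 : Ω) 0 = 0 := by
            unfold adS
            exact Finset.sum_eq_zero fun i _ => by
              rw [zero_pow (pow_pos hp.pos i).ne', mul_zero]
          rw [hqe, h5, zero_sub]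
        rw [h3, eval_zero] at h4
        exact one_ne_zero (neg_eq_zero.1 h4.symm)
      have hqd : q.natDegree ≤ p ^ (h + h - 1) + p ^ (h - 1) := by
        rw [hq]
        refine (natDegree_sub_le _ _).trans (max_le ?_ (by rw [natDegree_C]; exact Nat.zero_le _))
        refine Polynomial.natDegree_sum_le_of_forall_le _ _ fun i hi => ?_
        have h3 := Finset.mem_range.1 hi
        refine natDegree_mul_le.trans (add_le_add ?_ ?_)
        · rw [hP1]
          exact Nat.pow_le_pow_right hp.pos (by omega)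
        · rw [natDegree_X_pow]
          exact Nat.pow_le_pow_right hp.pos (by omega)
      by_contra hcon
      push Not at hcon
      have h3 : W.erase 0 ⊆ q.roots.toFinset := by
        intro a ha
        obtain ⟨ha0, haW⟩ := Finset.mem_erase.1 ha
        have h4 := (hcon a haW ha0).2
        have h5 := adS_pow_sub r (hWmem a haW) a
        have h6 : a * adR p h r a + a * adR p h r a = 0 := by
          rw [← two_mul, show (2 : Ω) = 0 from by
            have := CharP.cast_eq_zero Ω p
            rw [hp2] at this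
            exact_mod_cast this, zero_mul]
        rw [h6, hp2, ← hp2, sub_eq_zero] at h5
        have h7 : adS p h r a a * (adS p h r a a - 1) = 0 := by
          rw [hp2] at h5 ⊢
          rw [mul_sub, mul_one, ← sq, h5, sub_self]
        rw [Multiset.mem_toFinset, mem_roots hq0, IsRoot.def, hqe]
        exact (mul_eq_zero.1 h7).resolve_left h4
      have h4 := Finset.card_le_card h3
      have h5 := Finset.pred_card_le_card_erase (s := W) (a := (0 : Ω))
      have h6 : q.roots.toFinset.card ≤ q.natDegree :=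
        (Multiset.toFinset_card_le _).trans (card_roots' q)
      rw [hWcard] at h5
      have h7 : p ^ (h + h) = 2 * p ^ (h + h - 1) := by
        conv_lhs => rw [show h + h = (h + h - 1) + 1 by omega, pow_succ]
        rw [hp2, mul_comm]
      have h8 : p ^ (h + h - 1) = p ^ (h - 1) * p ^ h := by
        rw [← pow_add]
        congr 1
        omega
      have h9 : 2 ^ 2 ≤ p ^ h := by
        rw [hp2]
        exact Nat.pow_le_pow_right (by norm_num) h1
      have h10 : 0 < p ^ (h - 1) := pow_pos hp.pos _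
      have h11 : 2 ≤ p ^ (h - 1) := by
        rw [hp2]
        calc 2 = 2 ^ 1 := rfl
          _ ≤ 2 ^ (h - 1) := Nat.pow_le_pow_right (by norm_num) (by omega)
      have h12 : 4 * p ^ (h - 1) ≤ p ^ (h + h - 1) := by
        rw [h8, mul_comm]
        exact Nat.mul_le_mul_left _ h9
      omega
    · have h1 : 1 < W.card := by
        rw [hWcard]
        exact Nat.one_lt_pow (by omega) hp.one_lt
      obtain ⟨a, ha, ha0⟩ := Finset.exists_mem_ne h1 0
      exact ⟨a, ha, ha0, fun h3 => absurd h3 hp2⟩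
  obtain ⟨a, haW, ha0, ha2⟩ := hA
  obtain ⟨Q, hQ⟩ : ∃ Q : Polynomial Ω, Q = ∑ i ∈ range h, C (adB p h r a i) * X ^ p ^ i -
      ∑ i ∈ range h, P i * C (a ^ p ^ i) := ⟨_, rfl⟩
  have hQe : ∀ x, Q.eval x = adS p h r a x - adS p h r x a := by
    intro x
    rw [hQ, eval_sub, eval_finsetSum, eval_finsetSum, adS, adS]
    congr 1
    · exact Finset.sum_congr rfl fun i _ => by rw [eval_mul, eval_pow, eval_X, eval_C]
    · exact Finset.sum_congr rfl fun i _ => by rw [eval_mul, eval_C, hP6]
  have hQd : Q.natDegree ≤ p ^ (h + h - 1) := by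
    rw [hQ]
    refine (natDegree_sub_le _ _).trans (max_le ?_ ?_)
    · refine Polynomial.natDegree_sum_le_of_forall_le _ _ fun i hi => ?_
      have h3 := Finset.mem_range.1 hi
      exact (natDegree_C_mul_X_pow_le _ _).trans (Nat.pow_le_pow_right hp.pos (by omega))
    · refine Polynomial.natDegree_sum_le_of_forall_le _ _ fun i hi => ?_
      have h3 := Finset.mem_range.1 hi
      refine (natDegree_mul_C_le _ _).trans ?_
      rw [hP1]
      exact Nat.pow_le_pow_right hp.pos (by omega)
  have hQ0 : Q ≠ 0 := by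
    intro h0
    obtain ⟨k, rfl⟩ : ∃ k, h = k + 1 := ⟨h - 1, by omega⟩
    have h1 : Q.coeff (p ^ (k + 1 + k)) = r (k + 1) ^ p ^ k * a ^ p ^ k := by
      rw [hQ, coeff_sub, finsetSum_coeff, finsetSum_coeff, Finset.sum_eq_zero, zero_sub,
        Finset.sum_range_succ, Finset.sum_eq_zero, zero_add, coeff_mul_C]
      · have h3 : (P k).coeff (p ^ (k + 1 + k)) = -r (k + 1) ^ p ^ k := by
          rw [← hP2 k, leadingCoeff, hP1]
        rw [h3]
        ring
      · intro i hi
        rw [coeff_mul_C, coeff_eq_zero_of_natDegree_lt, zero_mul]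
        rw [hP1]
        have h3 := Finset.mem_range.1 hi
        exact Nat.pow_lt_pow_right hp.one_lt (by omega)
      · intro i hi
        rw [coeff_C_mul_X_pow, if_neg]
        have h3 := Finset.mem_range.1 hi
        exact (Nat.pow_lt_pow_right hp.one_lt (by omega)).ne'
    rw [h0, coeff_zero] at h1
    exact mul_ne_zero (pow_ne_zero _ hr) (pow_ne_zero _ ha0) h1.symm
  have hlt : Q.roots.toFinset.card < W.card := by
    rw [hWcard]
    refine ((Multiset.toFinset_card_le _).trans (card_roots' Q)).trans_lt (hQd.trans_lt ?_)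
    exact Nat.pow_lt_pow_right hp.one_lt (by omega)
  obtain ⟨a', ha'W, ha'⟩ := Finset.exists_mem_notMem_of_card_lt_card hlt
  refine ⟨a, a', ha0, hWmem a haW, hWmem a' ha'W, fun h3 => ha' ?_, ha2⟩
  rw [Multiset.mem_toFinset, mem_roots hQ0, IsRoot.def, hQe, h3, sub_self]

end UnrA.Fer
end

section

/-!
# Heisenberg groups of automorphisms and new classes
-/

namespace UnrA.Fer

open UnrG

universe u v w z

open Polynomial Finset
open scoped Classical

variable {m : UFun.{u, z}}

private lemma t5a_sum {A : Type*} [AddCommMonoid A] {p c : ℕ} (hp : p.Prime) (hc : ¬ p ∣ c)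
    (F : ℕ → A) : ∑ i ∈ range p, F ((c * i) % p) = ∑ i ∈ range p, F i := by
  have hinj : Set.InjOn (fun i => (c * i) % p) (range p : Finset ℕ) := by
    intro i hi i' hi' h
    rw [mem_coe, mem_range] at hi hi'
    have h1 : c * i ≡ c * i' [MOD p] := h
    have h2 : i ≡ i' [MOD p] :=
      Nat.ModEq.cancel_left_of_coprime ((Nat.Prime.coprime_iff_not_dvd hp).mpr hc) h1
    exact Nat.ModEq.eq_of_lt_of_lt h2 hi hi'
  have himg : (range p).image (fun i => (c * i) % p) = range p := by
    refine Finset.eq_of_subset_of_card_le ?_ ?_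
    · intro x hx
      obtain ⟨i, _, rfl⟩ := mem_image.mp hx
      exact mem_range.mpr (Nat.mod_lt _ hp.pos)
    · rw [card_image_of_injOn hinj]
  conv_rhs => rw [← himg]
  rw [sum_image hinj]

/-- A class whose sum of conjugates under the centre of a Heisenberg group vanishes is recovered from its
traces under the conjugates of a subgroup of order `p`. -/
theorem heis_sum {p M t : ℕ} [Fact p.Prime] {E : Type u} [Field E] {g g' δ : E →+* E}
    (hg' : g' ^ M = 1) (hδ : δ ^ p = 1) (hM : p ≤ M) (h1 : δ.comp g = g.comp δ)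
    (h2 : δ.comp g' = g'.comp δ) (h3 : g.comp g' = (δ ^ t).comp (g'.comp g)) (ht : ¬ p ∣ t)
    {z : KM m E} (hz : ∑ i ∈ range p, KM.map m (δ ^ i) z = 0) :
    p • z = ∑ i ∈ range p, KM.map m (g' ^ i)
      (∑ j ∈ range p, KM.map m (g ^ j) (KM.map m (g' ^ (M - i)) z)) := by
  have hp : p.Prime := Fact.out
  have c1 : Commute δ g := h1
  have c2 : Commute δ g' := h2
  have h3' : g * g' = δ ^ t * (g' * g) := h3
  -- `g * g' ^ i`
  have e1 : ∀ i : ℕ, g * g' ^ i = δ ^ (t * i) * (g' ^ i * g) := by
    intro i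
    induction i with
    | zero => simp
    | succ i ih =>
      have c3 : g' ^ i * δ ^ t = δ ^ t * g' ^ i := (c2.pow_pow t i).eq.symm
      calc g * g' ^ (i + 1) = (g * g' ^ i) * g' := by rw [pow_succ, mul_assoc]
        _ = δ ^ (t * i) * (g' ^ i * (g * g')) := by rw [ih]; simp only [mul_assoc]
        _ = δ ^ (t * i) * ((g' ^ i * δ ^ t) * (g' * g)) := by rw [h3']; simp only [mul_assoc]
        _ = δ ^ (t * i) * ((δ ^ t * g' ^ i) * (g' * g)) := by rw [c3]
        _ = (δ ^ (t * i) * δ ^ t) * ((g' ^ i * g') * g) := by simp only [mul_assoc]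
        _ = δ ^ (t * (i + 1)) * (g' ^ (i + 1) * g) := by
          rw [← pow_add, ← pow_succ, mul_add, mul_one]
  have e2 : ∀ i j : ℕ, g ^ j * g' ^ i = δ ^ (t * i * j) * (g' ^ i * g ^ j) := by
    intro i j
    induction j with
    | zero => simp
    | succ j ih =>
      have c4 : g ^ j * δ ^ (t * i) = δ ^ (t * i) * g ^ j := (c1.pow_pow (t * i) j).eq.symm
      calc g ^ (j + 1) * g' ^ i = g ^ j * (g * g' ^ i) := by rw [pow_succ, mul_assoc]
        _ = (g ^ j * δ ^ (t * i)) * (g' ^ i * g) := by rw [e1]; simp only [mul_assoc]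
        _ = δ ^ (t * i) * (g ^ j * g' ^ i) * g := by rw [c4]; simp only [mul_assoc]
        _ = (δ ^ (t * i) * δ ^ (t * i * j)) * (g' ^ i * (g ^ j * g)) := by
          rw [ih]; simp only [mul_assoc]
        _ = δ ^ (t * i * (j + 1)) * (g' ^ i * g ^ (j + 1)) := by
          rw [← pow_add, ← pow_succ, mul_add, mul_one, add_comm]
  have e3 : ∀ i j : ℕ, δ ^ ((p - 1) * t * j * i) * (g ^ j * g' ^ i) = g' ^ i * g ^ j := by
    intro i j
    rw [e2, ← mul_assoc, ← pow_add]
    have h4 : (p - 1) * t * j * i + t * i * j = p * (t * i * j) := by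
      obtain ⟨q, rfl⟩ : ∃ q, p = q + 1 := ⟨p - 1, by have := hp.pos; omega⟩
      rw [Nat.add_sub_cancel]
      ring
    rw [h4, pow_mul, hδ, one_pow, one_mul]
  have e4 : ∀ i < p, ∀ j : ℕ, g' ^ i * (g ^ j * g' ^ (M - i)) =
      g ^ j * δ ^ ((p - 1) * t * j * i) := by
    intro i hi j
    have c5 : g ^ j * δ ^ ((p - 1) * t * j * i) = δ ^ ((p - 1) * t * j * i) * g ^ j :=
      (c1.pow_pow _ j).eq.symm
    calc g' ^ i * (g ^ j * g' ^ (M - i)) = (g' ^ i * g ^ j) * g' ^ (M - i) :=
          (mul_assoc _ _ _).symm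
      _ = (δ ^ ((p - 1) * t * j * i) * (g ^ j * g' ^ i)) * g' ^ (M - i) := by rw [e3]
      _ = δ ^ ((p - 1) * t * j * i) * (g ^ j * (g' ^ i * g' ^ (M - i))) := by
        rw [mul_assoc (δ ^ ((p - 1) * t * j * i)), mul_assoc (g ^ j)]
      _ = g ^ j * δ ^ ((p - 1) * t * j * i) := by
        rw [← pow_add, Nat.add_sub_cancel' (by omega), hg', mul_one, c5]
  have hmul : ∀ (f k : E →+* E) (y : KM m E), KM.map m f (KM.map m k y) = KM.map m (f * k) y :=
    fun f k y => KM.map_map k f y
  have e5 : ∀ i ∈ range p, KM.map m (g' ^ i)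
      (∑ j ∈ range p, KM.map m (g ^ j) (KM.map m (g' ^ (M - i)) z)) =
      ∑ j ∈ range p, KM.map m (g ^ j) (KM.map m (δ ^ ((p - 1) * t * j * i)) z) := by
    intro i hi
    rw [map_sum]
    refine sum_congr rfl fun j _ => ?_
    rw [hmul, hmul, hmul, mul_assoc (g' ^ i), e4 i (mem_range.mp hi) j]
  rw [sum_congr rfl e5, sum_comm]
  have e6 : ∀ j ∈ range p, j ≠ 0 → ∑ i ∈ range p, KM.map m (g ^ j)
      (KM.map m (δ ^ ((p - 1) * t * j * i)) z) = 0 := by
    intro j hj hj0
    rw [← map_sum]
    have hc : ¬ p ∣ (p - 1) * t * j := by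
      intro hd
      have hjp := mem_range.mp hj
      have hp2 := hp.two_le
      rcases (Nat.Prime.dvd_mul hp).mp hd with h | h
      · rcases (Nat.Prime.dvd_mul hp).mp h with h | h
        · have := Nat.le_of_dvd (by omega) h
          omega
        · exact ht h
      · have := Nat.le_of_dvd (by omega) h
        omega
    have hmod : ∀ i, KM.map m (δ ^ ((p - 1) * t * j * i)) z =
        KM.map m (δ ^ (((p - 1) * t * j * i) % p)) z := by
      intro i
      conv_lhs => rw [← Nat.div_add_mod ((p - 1) * t * j * i) p, pow_add, pow_mul, hδ, one_pow,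
        one_mul]
    rw [sum_congr rfl fun i _ => hmod i,
      t5a_sum hp hc (fun i => KM.map m (δ ^ i) z), hz, map_zero]
  rw [← Finset.add_sum_erase (range p) _ (mem_range.mpr hp.pos : 0 ∈ range p)]
  rw [Finset.sum_eq_zero (s := (range p).erase 0)
    (fun j hj => e6 j (Finset.mem_of_mem_erase hj) (Finset.ne_of_mem_erase hj)), add_zero]
  have e7 : ∀ i ∈ range p, KM.map m (g ^ 0) (KM.map m (δ ^ ((p - 1) * t * 0 * i)) z) = z := by
    intro i _
    rw [hmul, pow_zero, mul_zero, zero_mul, pow_zero, one_mul]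
    have : KM.map m (1 : E →+* E) = AddMonoidHom.id (KM m E) := KM.map_id
    rw [this, AddMonoidHom.id_apply]
  rw [sum_congr rfl e7, sum_const, card_range]

end UnrA.Fer
end

section

/-!
# The curves `u ^ p - u = x R(x) + l x + d`: quotient by a translation
-/

namespace UnrA.Fer

open UnrG

universe u v w z

open Polynomial Finset
open scoped Classical

variable {p : ℕ} [Fact p.Prime]

section

variable {F : Type u} [Field F] [CharP F p] (h : ℕ) (r : ℕ → F) (a c l : F)

variable (p) in
private noncomputable def T3_T (i : ℕ) : F :=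
  (adS p (h + 1) r a a - ∑ k ∈ range i, adB p (h + 1) r a k * a ^ p ^ k) / a ^ p ^ i

variable (p) in
private noncomputable def T3_r : ℕ → F
  | 0 => -adS p (h + 1) r a a ^ p / (2 * a ^ (2 * p))
  | i + 1 => -T3_T p h r a (i + 1) ^ p / a ^ p

variable (p) in
private noncomputable def T3_s : F := (c - adS p (h + 1) r a a / 2) / a

variable (p) in
private noncomputable def T3_k : F := adS p (h + 1) r a a / (2 * a ^ 2)

variable (p) in
private noncomputable def T3_l : F :=
  if p = 2 then -(adR p (h + 1) r a / a + T3_s p h r a c ^ 2) else -T3_s p h r a c ^ p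

variable (p) in
private noncomputable def T3_Q (x : F) : F :=
  x * adS p (h + 1) r a x / a - T3_k p h r a * x ^ 2 + T3_s p h r a c * x

private lemma T3_last (ha : a ≠ 0) : T3_T p h r a h = adB p (h + 1) r a h := by
  have h1 : adS p (h + 1) r a a = ∑ k ∈ range h, adB p (h + 1) r a k * a ^ p ^ k +
      adB p (h + 1) r a h * a ^ p ^ h := Finset.sum_range_succ _ _
  rw [T3_T, h1, add_sub_cancel_left, mul_div_assoc, div_self (pow_ne_zero _ ha), mul_one]

private lemma T3_C (ha : a ≠ 0) (x : F) : ∑ i ∈ range h, T3_T p h r a (i + 1) *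
    (x ^ p - a ^ (p - 1) * x) ^ p ^ i =
      adS p (h + 1) r a x - adS p (h + 1) r a a / a * x := by
  have hp : p.Prime := Fact.out
  have h1 : ∀ k : ℕ, ∑ i ∈ range k, T3_T p h r a (i + 1) * (x ^ p - a ^ (p - 1) * x) ^ p ^ i =
      T3_T p h r a k * x ^ p ^ k - T3_T p h r a 0 * x +
        ∑ i ∈ range k, adB p (h + 1) r a i * x ^ p ^ i := by
    intro k
    induction k with
    | zero => simp
    | succ k ih =>
      rw [Finset.sum_range_succ, ih, Finset.sum_range_succ]
      have h2 : T3_T p h r a (k + 1) * a ^ p ^ (k + 1) =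
          (T3_T p h r a k - adB p (h + 1) r a k) * a ^ p ^ k := by
        rw [T3_T, T3_T, Finset.sum_range_succ, div_mul_cancel₀ _ (pow_ne_zero _ ha), sub_mul,
          div_mul_cancel₀ _ (pow_ne_zero _ ha)]
        ring
      have h3 : (x ^ p - a ^ (p - 1) * x) ^ p ^ k =
          x ^ p ^ (k + 1) - a ^ ((p - 1) * p ^ k) * x ^ p ^ k := by
        rw [sub_pow_char_pow, mul_pow, ← pow_mul, ← pow_mul, ← pow_succ']
      have h4 : a ^ ((p - 1) * p ^ k) * a ^ p ^ k = a ^ p ^ (k + 1) := by
        rw [← pow_add]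
        congr 1
        calc (p - 1) * p ^ k + p ^ k = (p - 1 + 1) * p ^ k := by ring
          _ = p ^ (k + 1) := by rw [Nat.sub_add_cancel hp.pos, pow_succ']
      have h5 : T3_T p h r a (k + 1) * a ^ ((p - 1) * p ^ k) =
          T3_T p h r a k - adB p (h + 1) r a k := by
        apply mul_right_cancel₀ (pow_ne_zero (p ^ k) ha)
        rw [mul_assoc, h4, h2]
      rw [h3]
      linear_combination -x ^ p ^ k * h5
  have h6 : adS p (h + 1) r a x = ∑ k ∈ range h, adB p (h + 1) r a k * x ^ p ^ k +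
      adB p (h + 1) r a h * x ^ p ^ h := Finset.sum_range_succ _ _
  have h7 : T3_T p h r a 0 = adS p (h + 1) r a a / a := by simp [T3_T]
  rw [h1 h, T3_last h r a ha, h6, h7]
  ring

private lemma T3_R (x' : F) : adR p h (T3_r p h r a) x' =
    -adS p (h + 1) r a a ^ p / (2 * a ^ (2 * p)) * x' -
      (∑ i ∈ range h, T3_T p h r a (i + 1) * x' ^ p ^ i) ^ p / a ^ p := by
  rw [adR, Finset.sum_range_succ', sum_pow_char, Finset.sum_div]
  have h1 : ∀ i ∈ range h, T3_r p h r a (i + 1) * x' ^ p ^ (i + 1) =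
      -((T3_T p h r a (i + 1) * x' ^ p ^ i) ^ p / a ^ p) := by
    intro i _
    rw [T3_r, mul_pow, ← pow_mul, ← pow_succ]
    ring
  rw [Finset.sum_congr rfl h1, Finset.sum_neg_distrib, T3_r, pow_zero, pow_one]
  ring

private lemma T3_trans (ha : a ≠ 0) (h2 : p = 2 → adS p (h + 1) r a a = 0) (x : F) :
    T3_Q p h r a c (x + a) = T3_Q p h r a c x + adS p (h + 1) r a x + c := by
  have h1 := adS_add (p := p) (h := h + 1) r a x a
  rw [T3_Q, T3_Q, h1, T3_k, T3_s]
  by_cases hp2 : p = 2
  · rw [h2 hp2]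
    field_simp
    ring
  · have h3 : (2 : F) ≠ 0 := by
      intro h4
      have h5 : ((2 : ℕ) : F) = 0 := by exact_mod_cast h4
      rw [CharP.cast_eq_zero_iff F p 2] at h5
      exact hp2 ((Nat.prime_dvd_prime_iff_eq Fact.out Nat.prime_two).1 h5)
    field_simp
    ring

private lemma T3_id (ha : a ≠ 0) (hB : adB p (h + 1) r a (h + 1) = 0)
    (h2 : p = 2 → adS p (h + 1) r a a = 0) (hc : c ^ p - c = a * adR p (h + 1) r a + l * a)
    (x : F) : x * adR p (h + 1) r x + l * x - (T3_Q p h r a c x ^ p - T3_Q p h r a c x) =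
      (x ^ p - a ^ (p - 1) * x) * adR p h (T3_r p h r a) (x ^ p - a ^ (p - 1) * x) +
        T3_l p h r a c * (x ^ p - a ^ (p - 1) * x) := by
  have hp : p.Prime := Fact.out
  have e1 := adS_pow_sub r hB x
  have e2 := adS_pow_sub r hB a
  have e3 : a ^ p = a ^ (p - 1) * a := by
    rw [← pow_succ, Nat.sub_add_cancel hp.pos]
  rw [T3_R, T3_C h r a ha, T3_Q]
  by_cases hp2 : p = 2
  · have h20 : (2 : F) = 0 := by
      have := CharP.cast_eq_zero F p
      rw [hp2] at this
      exact_mod_cast this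
    have h3 := h2 hp2
    have h4 : a ^ (p - 1) = a := by rw [hp2, Nat.add_one_sub_one, pow_one]
    have h5 : T3_s p h r a c = c / a := by rw [T3_s, h3, zero_div, sub_zero]
    have h6 : T3_k p h r a = 0 := by rw [T3_k, h3, zero_div]
    rw [T3_l, if_pos hp2, h5, h6, h3, h4]
    generalize adS p (h + 1) r a x = B at e1 ⊢
    generalize adR p (h + 1) r x = R at e1 ⊢
    generalize adR p (h + 1) r a = S at e1 hc ⊢
    subst hp2
    have g1 : x * R + l * x - ((x * B / a - 0 * x ^ 2 + c / a * x) ^ 2 -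
        (x * B / a - 0 * x ^ 2 + c / a * x)) =
        (a ^ 2 * (x * R + l * x) - (x * B + c * x) ^ 2 + a * (x * B + c * x)) / a ^ 2 := by
      field_simp
      ring
    have g2 : (x ^ 2 - a * x) * (-0 ^ 2 / (2 * a ^ (2 * 2)) * (x ^ 2 - a * x) -
        (B - 0 / a * x) ^ 2 / a ^ 2) + -(S / a + (c / a) ^ 2) * (x ^ 2 - a * x) =
        (-(x ^ 2 - a * x) * B ^ 2 - (a * S + c ^ 2) * (x ^ 2 - a * x)) / a ^ 2 := by
      rw [zero_pow two_ne_zero, neg_zero, zero_div, zero_mul, zero_div, zero_mul, sub_zero]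
      field_simp
      ring
    rw [g1, g2]
    congr 1
    linear_combination -a * x * e1 - a * x * hc - (x ^ 2 * B * c + a ^ 2 * S * x) * h20
  · have h20 : (2 : F) ≠ 0 := by
      intro h4
      have h5 : ((2 : ℕ) : F) = 0 := by exact_mod_cast h4
      rw [CharP.cast_eq_zero_iff F p 2] at h5
      exact hp2 ((Nat.prime_dvd_prime_iff_eq Fact.out Nat.prime_two).1 h5)
    have h2p : (2 : F) ^ p = 2 := by
      rw [← one_add_one_eq_two, add_pow_char, one_pow]
    rw [T3_l, if_neg hp2]
    have f1 : T3_s p h r a c * a = c - adS p (h + 1) r a a / 2 := div_mul_cancel₀ _ ha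
    have f2 : T3_s p h r a c ^ p * a ^ p = c ^ p - adS p (h + 1) r a a ^ p / 2 := by
      rw [← mul_pow, f1, sub_pow_char, div_pow, h2p]
    have f3 : T3_k p h r a * (2 * a ^ 2) = adS p (h + 1) r a a :=
      div_mul_cancel₀ _ (mul_ne_zero h20 (pow_ne_zero _ ha))
    have f4 : T3_k p h r a ^ p * (2 * (a ^ p) ^ 2) = adS p (h + 1) r a a ^ p := by
      rw [← f3, mul_pow, mul_pow, h2p, ← pow_mul, ← pow_mul, mul_comm p 2]
    have f5 : T3_s p h r a c ^ p * a ^ (p - 1) = T3_s p h r a c + l := by
      apply mul_right_cancel₀ ha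
      rw [mul_assoc, ← e3, f2]
      have h5 : adS p (h + 1) r a a / 2 * 2 = adS p (h + 1) r a a := div_mul_cancel₀ _ h20
      apply mul_right_cancel₀ h20
      rw [sub_mul, div_mul_cancel₀ _ h20]
      linear_combination 2 * hc - e2 - 2 * f1 + h5
    have hap : a ^ p ≠ 0 := pow_ne_zero _ ha
    obtain ⟨b, hb⟩ : ∃ b, b = adS p (h + 1) r a x / a := ⟨_, rfl⟩
    have hBb : adS p (h + 1) r a x = b * a := by rw [hb, div_mul_cancel₀ _ ha]
    have g1 : (adS p (h + 1) r a x - adS p (h + 1) r a a / a * x) ^ p / a ^ p =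
        b ^ p - 2 * T3_k p h r a ^ p * x ^ p := by
      rw [sub_pow_char, mul_pow, div_pow, hBb, mul_pow, ← f4]
      field_simp
    have g2 : -adS p (h + 1) r a a ^ p / (2 * a ^ (2 * p)) = -T3_k p h r a ^ p := by
      rw [← f4, mul_comm 2 p, pow_mul a p 2]
      field_simp
    have g3 : (x * adS p (h + 1) r a x / a - T3_k p h r a * x ^ 2 + T3_s p h r a c * x) ^ p =
        x ^ p * b ^ p - T3_k p h r a ^ p * (x ^ p) ^ 2 + T3_s p h r a c ^ p * x ^ p := by
      rw [mul_div_assoc, ← hb, add_pow_char, sub_pow_char, mul_pow, mul_pow, mul_pow, ← pow_mul,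
        ← pow_mul, mul_comm 2 p]
    have g4 : a ^ (p - 1) * b ^ p - b = adR p (h + 1) r x +
        x * ((a ^ (p - 1)) ^ 2 * T3_k p h r a ^ p - T3_k p h r a) := by
      rw [hBb, mul_pow, e3] at e1
      rw [← f4, ← f3, e3] at e2
      have e4 : adR p (h + 1) r a =
          a * ((a ^ (p - 1)) ^ 2 * T3_k p h r a ^ p - T3_k p h r a) := by
        apply mul_left_cancel₀ (mul_ne_zero h20 ha)
        linear_combination -e2
      apply mul_left_cancel₀ ha
      linear_combination e1 + x * e4
    rw [g1, g2, g3, mul_div_assoc, ← hb]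
    linear_combination -x * g4 - x * f5

private lemma T3_ne (hr : r (h + 1) ≠ 0) (ha : a ≠ 0) (hB : adB p (h + 1) r a (h + 1) = 0)
    (h2 : p = 2 → adS p (h + 1) r a a = 0) : T3_r p h r a h ≠ 0 := by
  have hp : p.Prime := Fact.out
  have h1 : adB p (h + 1) r a h ^ p = a * r (h + 1) := sub_eq_zero.1 hB
  have h3 : adB p (h + 1) r a h ≠ 0 := by
    intro h0
    rw [h0, zero_pow hp.ne_zero] at h1
    exact mul_ne_zero ha hr h1.symm
  cases h with
  | zero =>
    have h4 : adS p (0 + 1) r a a = adB p (0 + 1) r a 0 * a := by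
      rw [adS, Finset.sum_range_succ, Finset.sum_range_zero, zero_add, pow_zero, pow_one]
    have h5 : adS p (0 + 1) r a a ≠ 0 := by
      rw [h4]
      exact mul_ne_zero h3 ha
    have h20 : (2 : F) ≠ 0 := by
      intro h6
      have h7 : ((2 : ℕ) : F) = 0 := by exact_mod_cast h6
      rw [CharP.cast_eq_zero_iff F p 2] at h7
      exact h5 (h2 ((Nat.prime_dvd_prime_iff_eq Fact.out Nat.prime_two).1 h7))
    rw [T3_r]
    exact div_ne_zero (neg_ne_zero.2 (pow_ne_zero _ h5)) (mul_ne_zero h20 (pow_ne_zero _ ha))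
  | succ k =>
    rw [T3_r, T3_last (k + 1) r a ha]
    exact div_ne_zero (neg_ne_zero.2 (pow_ne_zero _ h3)) (pow_ne_zero _ ha)

end

private lemma T3_map {F : Type u} {E : Type v} [Field F] [Field E] (f : F →+* E) (h : ℕ)
    (r : ℕ → F) (a c : F) :
    (∀ i, f (T3_r p h r a i) = T3_r p h (fun i => f (r i)) (f a) i) ∧
    f (T3_s p h r a c) = T3_s p h (fun i => f (r i)) (f a) (f c) ∧
    f (T3_k p h r a) = T3_k p h (fun i => f (r i)) (f a) ∧
    f (T3_l p h r a c) = T3_l p h (fun i => f (r i)) (f a) (f c) := by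
  have h1 : f (T3_s p h r a c) = T3_s p h (fun i => f (r i)) (f a) (f c) := by
    simp only [T3_s, map_div₀, map_sub, map_adS, map_ofNat]
  refine ⟨fun i => ?_, h1, ?_, ?_⟩
  · cases i with
    | zero => simp only [T3_r, map_div₀, map_neg, map_pow, map_mul, map_adS, map_ofNat]
    | succ i =>
      simp only [T3_r, T3_T, map_div₀, map_neg, map_pow, map_mul, map_adS, map_sub, map_sum,
        map_adB]
  · simp only [T3_k, map_div₀, map_mul, map_pow, map_adS, map_ofNat]
  · unfold T3_l
    split_ifs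
    · simp only [map_neg, map_add, map_div₀, map_adR, map_pow, h1]
    · simp only [map_neg, map_pow, h1]

/-- The quotient by a translation. -/
theorem ad_quotient {F : Type u} [Field F] [CharP F p] {h : ℕ} (r : ℕ → F) {a c l : F}
    (hr : r (h + 1) ≠ 0) (ha : a ≠ 0) (hB : adB p (h + 1) r a (h + 1) = 0)
    (h2 : p = 2 → adS p (h + 1) r a a = 0)
    (hc : c ^ p - c = a * adR p (h + 1) r a + l * a) :
    ∃ (r' : ℕ → F) (l' : F) (Q : F[X]), r' h ≠ 0 ∧ ∀ (E : Type u) [Field E] [Algebra F E] (x : E),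
      x * adR p (h + 1) (fun i => algebraMap F E (r i)) x + algebraMap F E l * x -
        ((aeval x Q) ^ p - aeval x Q) =
        (x ^ p - algebraMap F E a ^ (p - 1) * x) *
          adR p h (fun i => algebraMap F E (r' i)) (x ^ p - algebraMap F E a ^ (p - 1) * x) +
        algebraMap F E l' * (x ^ p - algebraMap F E a ^ (p - 1) * x) ∧
      aeval (x + algebraMap F E a) Q = aeval x Q +
        adS p (h + 1) (fun i => algebraMap F E (r i)) (algebraMap F E a) x + algebraMap F E c := by
  refine ⟨T3_r p h r a, T3_l p h r a c, C (1 / a) * (X * ∑ i ∈ range (h + 1),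
    C (adB p (h + 1) r a i) * X ^ p ^ i) - C (T3_k p h r a) * X ^ 2 + C (T3_s p h r a c) * X,
    T3_ne h r a hr ha hB h2, fun E _ _ x => ?_⟩
  obtain ⟨m1, m2, m3, m4⟩ := T3_map (p := p) (algebraMap F E) h r a c
  have hch : CharP E p := charP_of_injective_ringHom (algebraMap F E).injective p
  have hQ : ∀ y : E, aeval y (C (1 / a) * (X * ∑ i ∈ range (h + 1),
      C (adB p (h + 1) r a i) * X ^ p ^ i) - C (T3_k p h r a) * X ^ 2 +
        C (T3_s p h r a c) * X) =
      T3_Q p h (fun i => algebraMap F E (r i)) (algebraMap F E a) (algebraMap F E c) y := by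
    intro y
    simp only [map_add, map_sub, map_mul, map_pow, map_sum, aeval_C, aeval_X, m2, m3, T3_Q,
      map_div₀, map_one, map_adB, adS]
    ring
  have ha' : algebraMap F E a ≠ 0 := (_root_.map_ne_zero _).2 ha
  have hB' : adB p (h + 1) (fun i => algebraMap F E (r i)) (algebraMap F E a) (h + 1) = 0 := by
    rw [← map_adB, hB, map_zero]
  have h2' : p = 2 → adS p (h + 1) (fun i => algebraMap F E (r i)) (algebraMap F E a)
      (algebraMap F E a) = 0 := fun hp2 => by rw [← map_adS, h2 hp2, map_zero]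
  have hc' : algebraMap F E c ^ p - algebraMap F E c = algebraMap F E a *
      adR p (h + 1) (fun i => algebraMap F E (r i)) (algebraMap F E a) +
        algebraMap F E l * algebraMap F E a := by
    rw [← map_adR, ← map_pow, ← map_sub, hc, map_add, map_mul, map_mul]
  rw [hQ, hQ]
  simp only [m1, m4]
  exact ⟨T3_id h _ _ _ _ ha' hB' h2' hc' x, T3_trans h _ _ _ ha' h2' x⟩

end UnrA.Fer
end
end
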