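import Pool.Agent.Lib.MP_859dd5_ag.EQ.Fun
import Pool.Agent.Lib.MP_859dd5_ag.Mg.G003
import Pool.Agent.Lib.MP_859dd5_ag.Mg.G078
import Pool.Agent.Lib.MP_859dd5_ag.Mg.G069
import Pool.Agent.Lib.MP_859dd5_ag.Mg.G009

section

/-!
# Products of the curves `y ^ p - y = x ^ N`: definitions
-/

namespace UnrA.Fer

open UnrG

universe u v w z

open Polynomial Finset
open scoped Classical

variable {m : UFun.{u, z}} {𝔽 : Type w} [Field 𝔽] [Fintype 𝔽] (b : Base 𝔽)

/-- `M` is the function field over `F` of the product of `n` curves `y ^ p - y = x ^ N` and an affine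
space of dimension `r`. -/
structure ASProd (p : ℕ) {F M : Type u} [Field F] [Field M] [Algebra F M] {r n : ℕ}
    (t : Fin r → M) (x y : Fin n → M) : Prop where
  eq : ∀ j, y j ^ p - y j = x j ^ b.N
  ind : AlgebraicIndependent F (Sum.elim t x)
  gen : IntermediateField.adjoin F (Set.range t ∪ Set.range x ∪ Set.range y) = ⊤

variable {F M : Type u} [Field F] [Field M] [Algebra F M] (ι : 𝔽 →+* F) {r n : ℕ}

/-- The automorphisms `x_j ↦ ζ ^ (a_j) x_j`, `y_j ↦ y_j + c_j`. -/
structure IsASDiag (t : Fin r → M) (x y : Fin n → M) (a c : Fin n → ℕ) (f : M →+* M) :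
    Prop where
  const : ∀ a : F, f (algebraMap F M a) = algebraMap F M a
  ft : ∀ i, f (t i) = t i
  fx : ∀ i, f (x i) = algebraMap F M (ι b.ζ) ^ a i * x i
  fy : ∀ i, f (y i) = y i + (c i : M)

/-- The automorphism of the correspondence with parameter `s` in the `j`-th coordinate. -/
structure IsASGamma (p f₀ : ℕ) (t : Fin r → M) (x y : Fin n → M) (j : Fin n) (s : 𝔽)
    (f : M →+* M) : Prop extends FixBut F t x y {j} f where
  gx : f (x j) = algebraMap F M (ι s) ^ b.e * x j
  gy : f (y j) = y j + ∑ i ∈ range f₀, algebraMap F M (ι s) ^ p ^ i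

/-- The properties of the classes coming from the field generated by `F`, `t`, the powers
`x_j ^ N`, the monomial `∏ x_j ^ (bb_j)` and the sum `∑ y_j`. -/
structure ASGood (p : ℕ) (F : Type u) [Field F] [Algebra F M] (ι : 𝔽 →+* F) (t : Fin r → M)
    (x y : Fin n → M) (bb : Fin n → ℕ) (Z : KM m M) : Prop where
  unr : Unr Z
  inv : ∀ f g : M →+* M, (∀ a : F, f (algebraMap F M a) = g (algebraMap F M a)) →
    (∀ i, f (t i) = g (t i)) → (∀ j, f (x j ^ b.N) = g (x j ^ b.N)) →
    f (∏ j, x j ^ bb j) = g (∏ j, x j ^ bb j) → f (∑ j, y j) = g (∑ j, y j) →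
    KM.map m f Z = KM.map m g Z
  newN : ∀ (a : Fin n → ℕ) (f : M →+* M), IsASDiag b ι t x y a 0 f → ¬ b.N ∣ ∑ j, bb j * a j →
    ∑ i ∈ range b.N, KM.map m (f ^ i) Z = 0
  newp : ∀ (c : Fin n → ℕ) (f : M →+* M), IsASDiag b ι t x y 0 c f → ¬ p ∣ ∑ j, c j →
    ∑ i ∈ range p, KM.map m (f ^ i) Z = 0

/-- The polynomial of the automorphisms of the correspondence. -/
noncomputable def gauPoly (𝔽 : Type w) [Field 𝔽] [Fintype 𝔽] (l : 𝔽 → ℕ) : ℤ[X] :=
  ∑ s ∈ univ.filter (fun s : 𝔽 => s ≠ 0), X ^ l s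

end UnrA.Fer
end

section

/-!
# The product as a curve over the other coordinates, and its automorphisms
-/

namespace UnrA.Fer

open UnrG

universe u v w z

open Polynomial Finset
open scoped Classical

variable {𝔽 : Type w} [Field 𝔽] [Fintype 𝔽] (b : Base 𝔽)

variable {F M : Type u} [Field F] [Field M] [Algebra F M] (ι : 𝔽 →+* F) {r n : ℕ}
  {t : Fin r → M} {x y : Fin n → M} {p : ℕ}

private lemma B1_closure (h : ASProd (F := F) b p t x y) :
    Subfield.closure (Set.range (algebraMap F M) ∪ (Set.range t ∪ Set.range x ∪ Set.range y)) =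
      ⊤ := by
  have h1 := congrArg IntermediateField.toSubfield h.gen
  rwa [IntermediateField.adjoin_toSubfield, IntermediateField.top_toSubfield] at h1

private lemma B1_gen (h : ASProd (F := F) b p t x y) (j : Fin n) :
    Subfield.closure (Set.range (others F t x y j).subtype ∪ {x j, y j}) = ⊤ := by
  rw [eq_top_iff, ← B1_closure b h, Subfield.closure_le]
  have hO : ∀ z ∈ others F t x y j,
      z ∈ Subfield.closure (Set.range (others F t x y j).subtype ∪ {x j, y j}) :=
    fun z hz => Subfield.subset_closure (Or.inl ⟨⟨z, hz⟩, rfl⟩)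
  rintro z (⟨a, rfl⟩ | ((⟨i, rfl⟩ | ⟨i, rfl⟩) | ⟨i, rfl⟩))
  · exact hO _ (Subfield.subset_closure (Or.inl (Or.inl ⟨a, rfl⟩)))
  · exact hO _ (Subfield.subset_closure (Or.inl (Or.inr ⟨i, rfl⟩)))
  · by_cases hij : i = j
    · subst hij
      exact Subfield.subset_closure (Or.inr (Or.inl rfl))
    · exact hO _ (Subfield.subset_closure (Or.inr ⟨i, hij, Or.inl rfl⟩))
  · by_cases hij : i = j
    · subst hij
      exact Subfield.subset_closure (Or.inr (Or.inr rfl))
    · exact hO _ (Subfield.subset_closure (Or.inr ⟨i, hij, Or.inr rfl⟩))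

/-- An element with `z ^ p - z` in a relatively algebraically closed field is in the field. -/
private lemma B1_mem [Fact p.Prime] {B : IntermediateField F M} {z : M}
    (hz : z ^ p - z ∈ algebraicClosure B M) : z ∈ algebraicClosure B M := by
  have hp1 : 1 < p := (Fact.out : p.Prime).one_lt
  rw [mem_algebraicClosure_iff']
  have hint : IsIntegral (algebraicClosure B M) z := by
    refine ⟨X ^ p - (X + C (⟨z ^ p - z, hz⟩ : algebraicClosure B M)),
      Polynomial.monic_X_pow_sub ?_, ?_⟩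
    · rw [degree_X_add_C]
      exact_mod_cast hp1
    · simp only [eval₂_sub, eval₂_pow, eval₂_X, eval₂_add, eval₂_C]
      change z ^ p - (z + (z ^ p - z)) = 0
      ring
  exact isIntegral_trans z hint

private lemma B1_transc [Fact p.Prime] (h : ASProd (F := F) b p t x y) (j : Fin n) :
    ∀ f : (others F t x y j)[X], f ≠ 0 → f.eval₂ (others F t x y j).subtype (x j) ≠ 0 := by
  obtain ⟨B, hB⟩ : ∃ B : IntermediateField F M, B =
    IntermediateField.adjoin F (Sum.elim t x '' {Sum.inr j}ᶜ) := ⟨_, rfl⟩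
  have hT0 : Transcendental B (x j) := by
    subst hB
    rw [IntermediateField.transcendental_adjoin_iff]
    exact h.ind.transcendental_adjoin (s := {Sum.inr j}ᶜ) (i := Sum.inr j) (by simp)
  have hT : Transcendental (algebraicClosure B M) (x j) := hT0.algebraicClosure
  have hmem : ∀ z ∈ B, z ∈ algebraicClosure B M := fun z hz =>
    (algebraicClosure B M).algebraMap_mem ⟨z, hz⟩
  have ht : ∀ i, t i ∈ B := by
    intro i
    rw [hB]
    exact IntermediateField.subset_adjoin _ _ ⟨Sum.inl i, by simp, rfl⟩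
  have hx : ∀ i, i ≠ j → x i ∈ B := by
    intro i hij
    rw [hB]
    exact IntermediateField.subset_adjoin _ _ ⟨Sum.inr i, by simp [hij], rfl⟩
  have hle : others F t x y j ≤ (algebraicClosure B M).toSubfield := by
    unfold others
    rw [Subfield.closure_le]
    rintro z ((⟨a, rfl⟩ | ⟨i, rfl⟩) | ⟨i, hij, rfl | rfl⟩)
    · exact hmem _ (B.algebraMap_mem a)
    · exact hmem _ (ht i)
    · exact hmem _ (hx i hij)
    · have h1 : x i ∈ algebraicClosure B M := hmem _ (hx i hij)
      refine B1_mem (p := p) ?_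
      rw [h.eq i]
      exact pow_mem h1 _
  intro f hf h0
  have hg : Function.Injective (Subfield.inclusion hle) := (Subfield.inclusion hle).injective
  refine hT ⟨f.map (Subfield.inclusion hle), ?_, ?_⟩
  · exact (Polynomial.map_ne_zero_iff hg).mpr hf
  · rw [aeval_def, eval₂_map]
    exact h0

lemma ASProd.isASCurve [Fact p.Prime] (h : ASProd (F := F) b p t x y) (j : Fin n) :
    IsASCurve p b.N (others F t x y j).subtype (x j) (y j) :=
  ⟨h.eq j, B1_transc b h j, B1_gen b h j⟩

lemma ASProd.ext (h : ASProd (F := F) b p t x y) {E : Type v} [Field E] {f g : M →+* E}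
    (h1 : ∀ a : F, f (algebraMap F M a) = g (algebraMap F M a)) (h2 : ∀ i, f (t i) = g (t i))
    (h3 : ∀ i, f (x i) = g (x i)) (h4 : ∀ i, f (y i) = g (y i)) : f = g := by
  apply RingHom.eq_of_eqOn_of_field_closure_eq_top (B1_closure b h)
  rintro z (⟨a, rfl⟩ | ((⟨i, rfl⟩ | ⟨i, rfl⟩) | ⟨i, rfl⟩))
  · exact h1 a
  · exact h2 i
  · exact h3 i
  · exact h4 i

lemma ASProd.exists_fixBut [Fact p.Prime] [CharP F p] (h : ASProd (F := F) b p t x y)
    (ι : 𝔽 →+* F) (j : Fin n) (x' y' : M) (heq : y' ^ p - y' = x' ^ b.N)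
    (htr : ∀ f : (others F t x y j)[X], f ≠ 0 → f.eval₂ (others F t x y j).subtype x' ≠ 0) :
    ∃ f : M →+* M, FixBut F t x y {j} f ∧ f (x j) = x' ∧ f (y j) = y' := by
  have hM : CharP M p := charP_of_injective_ringHom (algebraMap F M).injective p
  have hO : CharP (others F t x y j) p :=
    (RingHom.charP_iff (others F t x y j).subtype (others F t x y j).subtype.injective p).mpr hM
  have hpN : ¬ p ∣ b.N := by
    intro h0
    exact b.N_ne ((algebraMap F M).comp ι) ((CharP.cast_eq_zero_iff M p b.N).mpr h0)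
  obtain ⟨f, hf, hfx, hfy⟩ := IsASCurve.exists_hom b.N_pos hpN (ASProd.isASCurve b h j)
    (others F t x y j).subtype x' y' heq htr
  have hfix : ∀ z ∈ others F t x y j, f z = z := fun z hz =>
    congrArg (fun g : others F t x y j →+* M => g ⟨z, hz⟩) hf
  refine ⟨f, ⟨?_, ?_, ?_, ?_⟩, hfx, hfy⟩
  · intro a
    exact hfix _ (Subfield.subset_closure (Or.inl (Or.inl ⟨a, rfl⟩)))
  · intro i
    exact hfix _ (Subfield.subset_closure (Or.inl (Or.inr ⟨i, rfl⟩)))
  · intro i hi
    exact hfix _ (Subfield.subset_closure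
      (Or.inr ⟨i, fun hij => hi (Finset.mem_singleton.mpr hij), Or.inl rfl⟩))
  · intro i hi
    exact hfix _ (Subfield.subset_closure
      (Or.inr ⟨i, fun hij => hi (Finset.mem_singleton.mpr hij), Or.inr rfl⟩))

private lemma B1_step [Fact p.Prime] [CharP F p] (h : ASProd (F := F) b p t x y) (j : Fin n)
    (i k : ℕ) : ∃ f : M →+* M, IsASDiag b ι t x y (Pi.single j i) (Pi.single j k) f := by
  have hM : CharP M p := charP_of_injective_ringHom (algebraMap F M).injective p
  have hζ : (algebraMap F M (ι b.ζ)) ^ b.N = 1 := by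
    rw [← map_pow, ← map_pow, b.hζ.pow_eq_one, map_one, map_one]
  have hζ0 : algebraMap F M (ι b.ζ) ≠ 0 := by
    intro h0
    rw [h0, zero_pow b.N_pos.ne'] at hζ
    exact zero_ne_one hζ
  obtain ⟨c, hc⟩ : ∃ c : others F t x y j, (c : M) = algebraMap F M (ι b.ζ) :=
    ⟨⟨_, Subfield.subset_closure (Or.inl (Or.inl ⟨_, rfl⟩))⟩, rfl⟩
  have hc0 : c ^ i ≠ 0 := by
    apply pow_ne_zero
    intro h0
    apply hζ0
    rw [← hc, h0]
    rfl
  have hk : ((k : ℕ) : M) ^ p = (k : M) := by
    have h1 := map_natCast (frobenius M p) k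
    rwa [frobenius_def] at h1
  obtain ⟨f, hf, hfx, hfy⟩ := ASProd.exists_fixBut b h ι j
    (algebraMap F M (ι b.ζ) ^ i * x j) (y j + (k : M)) (by
      rw [add_pow_char, hk, mul_pow, ← pow_mul, mul_comm i, pow_mul, hζ, one_pow, one_mul,
        ← h.eq]
      ring) (by
      have h1 := transc_mul (ASProd.isASCurve b h j).transc hc0
      intro f hf
      have h2 := h1 f hf
      rwa [map_pow, Subfield.subtype_apply, hc] at h2)
  refine ⟨f, hf.const, hf.ft, ?_, ?_⟩
  · intro l
    by_cases hl : l = j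
    · subst hl
      rw [hfx, Pi.single_eq_same]
    · rw [hf.fx l (fun h => hl (Finset.mem_singleton.mp h)), Pi.single_eq_of_ne hl, pow_zero,
        one_mul]
  · intro l
    by_cases hl : l = j
    · subst hl
      rw [hfy, Pi.single_eq_same]
    · rw [hf.fy l (fun h => hl (Finset.mem_singleton.mp h)), Pi.single_eq_of_ne hl, Nat.cast_zero,
        add_zero]

lemma ASProd.exists_diag [Fact p.Prime] [CharP F p] (h : ASProd (F := F) b p t x y)
    (a c : Fin n → ℕ) : ∃ f : M →+* M, IsASDiag b ι t x y a c f := by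
  have key : ∀ J : Finset (Fin n), ∃ f : M →+* M,
      IsASDiag b ι t x y (fun i => if i ∈ J then a i else 0)
        (fun i => if i ∈ J then c i else 0) f := by
    intro J
    induction J using Finset.induction_on with
    | empty =>
      refine ⟨RingHom.id M, fun _ => rfl, fun _ => rfl, ?_, ?_⟩
      · intro i
        simp
      · intro i
        simp
    | insert j J hj ih =>
      obtain ⟨f, hf⟩ := ih
      obtain ⟨g, hg⟩ := B1_step b ι h j (a j) (c j)
      refine ⟨g.comp f, ?_, ?_, ?_, ?_⟩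
      · intro z
        rw [RingHom.comp_apply, hf.const, hg.const]
      · intro i
        rw [RingHom.comp_apply, hf.ft, hg.ft]
      · intro i
        rw [RingHom.comp_apply, hf.fx, map_mul, map_pow, hg.const, hg.fx]
        by_cases hi : i = j
        · subst hi
          simp [hj]
        · simp [hi]
      · intro i
        rw [RingHom.comp_apply, hf.fy, map_add, map_natCast, hg.fy]
        by_cases hi : i = j
        · subst hi
          simp [hj]
        · simp [hi]
  obtain ⟨f, hf⟩ := key univ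
  refine ⟨f, ?_⟩
  simpa using hf

private lemma B1_frob [Fact p.Prime] [CharP 𝔽 p] (b : Base 𝔽) {L : Type u} [Field L]
    [CharP L p] (z w : L) : (z - w) ^ b.q = z ^ b.q - w ^ b.q := by
  obtain ⟨k, hk, hq⟩ := FiniteField.card 𝔽 p
  rw [← b.card_q, hq]
  exact sub_pow_char_pow z w k

private lemma B1_frob_one [Fact p.Prime] [CharP 𝔽 p] [CharP F p]
    (h : ASProd (F := F) b p t x y) (ι : 𝔽 →+* F) (j : Fin n) :
    ∃ f : M →+* M, IsFrobAt b F t x y {j} f := by
  have hM : CharP M p := charP_of_injective_ringHom (algebraMap F M).injective p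
  have hq : 0 < b.q := Nat.succ_pos _
  obtain ⟨f, hf, hfx, hfy⟩ := ASProd.exists_fixBut b h ι j (x j ^ b.q) (y j ^ b.q) (by
      rw [← pow_mul, mul_comm b.q, pow_mul, ← B1_frob b, h.eq, ← pow_mul, ← pow_mul,
        mul_comm b.N])
    (transc_pow (ASProd.isASCurve b h j).transc hq)
  refine ⟨f, hf, ?_, ?_⟩
  · intro i hi
    rw [Finset.mem_singleton.mp hi]
    exact hfx
  · intro i hi
    rw [Finset.mem_singleton.mp hi]
    exact hfy

lemma ASProd.exists_frobAt [Fact p.Prime] [CharP 𝔽 p] [CharP F p]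
    (h : ASProd (F := F) b p t x y) (ι : 𝔽 →+* F) (J : Finset (Fin n)) :
    ∃ f : M →+* M, IsFrobAt b F t x y J f := by
  induction J using Finset.induction_on with
  | empty =>
    exact ⟨RingHom.id M, ⟨fun _ => rfl, fun _ => rfl, fun _ _ => rfl, fun _ _ => rfl⟩,
      fun i hi => absurd hi (Finset.notMem_empty i), fun i hi => absurd hi (Finset.notMem_empty i)⟩
  | insert j J hj ih =>
    obtain ⟨f, hf⟩ := ih
    obtain ⟨g, hg⟩ := B1_frob_one b h ι j
    have hgj : ∀ i, i ≠ j → i ∉ ({j} : Finset (Fin n)) := fun i hi h =>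
      hi (Finset.mem_singleton.mp h)
    refine ⟨g.comp f, ⟨?_, ?_, ?_, ?_⟩, ?_, ?_⟩
    · intro z
      rw [RingHom.comp_apply, hf.const, hg.const]
    · intro i
      rw [RingHom.comp_apply, hf.ft, hg.ft]
    · intro i hi
      rw [Finset.mem_insert, not_or] at hi
      rw [RingHom.comp_apply, hf.fx i hi.2, hg.fx i (hgj i hi.1)]
    · intro i hi
      rw [Finset.mem_insert, not_or] at hi
      rw [RingHom.comp_apply, hf.fy i hi.2, hg.fy i (hgj i hi.1)]
    · intro i hi
      rw [RingHom.comp_apply]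
      by_cases hij : i = j
      · subst hij
        rw [hf.fx i hj, hg.gx i (Finset.mem_singleton_self i)]
      · rw [hf.gx i (Finset.mem_of_mem_insert_of_ne hi hij), map_pow, hg.fx i (hgj i hij)]
    · intro i hi
      rw [RingHom.comp_apply]
      by_cases hij : i = j
      · subst hij
        rw [hf.fy i hj, hg.gy i (Finset.mem_singleton_self i)]
      · rw [hf.gy i (Finset.mem_of_mem_insert_of_ne hi hij), map_pow, hg.fy i (hgj i hij)]

lemma ASProd.exists_gamma [Fact p.Prime] [CharP 𝔽 p] [CharP F p]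
    (h : ASProd (F := F) b p t x y) {f₀ : ℕ} (hf : Fintype.card 𝔽 = p ^ f₀) (j : Fin n) (s : 𝔽)
    (hs : s ≠ 0) : ∃ f : M →+* M, IsASGamma b ι p f₀ t x y j s f := by
  have hM : CharP M p := charP_of_injective_ringHom (algebraMap F M).injective p
  have key : (algebraMap F M (ι s) ^ b.e) ^ b.N = 1 := by
    rw [← pow_mul, mul_comm, ← map_pow, ← map_pow, b.pow_eq_one hs, map_one, map_one]
  have hS : algebraMap F M (ι s) ^ p ^ f₀ = algebraMap F M (ι s) := by
    rw [← map_pow, ← map_pow, ← hf, FiniteField.pow_card]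
  have hτ : (∑ i ∈ range f₀, algebraMap F M (ι s) ^ p ^ i) ^ p =
      ∑ i ∈ range f₀, algebraMap F M (ι s) ^ p ^ i := by
    have h1 : (∑ i ∈ range f₀, algebraMap F M (ι s) ^ p ^ i) ^ p =
        ∑ i ∈ range f₀, algebraMap F M (ι s) ^ p ^ (i + 1) := by
      rw [sum_pow_char p]
      refine Finset.sum_congr rfl fun i _ => ?_
      rw [← pow_mul, pow_succ]
    have h2 := Finset.sum_range_succ' (fun i => algebraMap F M (ι s) ^ p ^ i) f₀
    have h3 := Finset.sum_range_succ (fun i => algebraMap F M (ι s) ^ p ^ i) f₀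
    rw [h1]
    rw [h3] at h2
    simp only [pow_zero, pow_one] at h2
    rw [hS] at h2
    exact (add_right_cancel h2).symm
  obtain ⟨d, hd⟩ : ∃ d : others F t x y j, (d : M) = algebraMap F M (ι s) :=
    ⟨⟨_, Subfield.subset_closure (Or.inl (Or.inl ⟨_, rfl⟩))⟩, rfl⟩
  have hd0 : d ^ b.e ≠ 0 := by
    apply pow_ne_zero
    intro h0
    have h1 : algebraMap F M (ι s) = 0 := by
      rw [← hd, h0]
      rfl
    exact hs ((map_eq_zero ι).mp ((map_eq_zero (algebraMap F M)).mp h1))
  obtain ⟨f, hf, hfx, hfy⟩ := ASProd.exists_fixBut b h ι j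
    (algebraMap F M (ι s) ^ b.e * x j)
    (y j + ∑ i ∈ range f₀, algebraMap F M (ι s) ^ p ^ i) (by
      rw [add_pow_char, hτ, mul_pow, key, one_mul, ← h.eq]
      ring) (by
      have h1 := transc_mul (ASProd.isASCurve b h j).transc hd0
      intro f hf
      have h2 := h1 f hf
      rwa [map_pow, Subfield.subtype_apply, hd] at h2)
  exact ⟨f, hf, hfx, hfy⟩

lemma IsASDiag.pow {a c : Fin n → ℕ} {f : M →+* M} (h : IsASDiag b ι t x y a c f) (k : ℕ) :
    IsASDiag b ι t x y (k • a) (k • c) (f ^ k) := by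
  induction k with
  | zero =>
    refine ⟨fun _ => rfl, fun _ => rfl, ?_, ?_⟩
    · intro i
      simp
    · intro i
      simp
  | succ k ih =>
    rw [succ_nsmul, succ_nsmul, pow_succ]
    refine ⟨?_, ?_, ?_, ?_⟩
    · intro z
      rw [RingHom.mul_def, RingHom.comp_apply, h.const, ih.const]
    · intro i
      rw [RingHom.mul_def, RingHom.comp_apply, h.ft, ih.ft]
    · intro i
      rw [RingHom.mul_def, RingHom.comp_apply, h.fx, map_mul, map_pow, ih.const, ih.fx,
        Pi.add_apply, pow_add]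
      ring
    · intro i
      rw [RingHom.mul_def, RingHom.comp_apply, h.fy, map_add, map_natCast, ih.fy, Pi.add_apply,
        Nat.cast_add]
      ring

end UnrA.Fer
end

section

/-!
# Gauss sums and the Bezout relation
-/

namespace UnrA.Fer

open UnrG

universe u v w z

open Polynomial Finset
open scoped Classical

variable {𝔽 : Type w} [Field 𝔽] [Fintype 𝔽] (b : Base 𝔽) {p f₀ : ℕ}

private lemma B5_pow_congr {R : Type*} [Monoid R] {z : R} {N : ℕ} (hz : z ^ N = 1) {a c : ℕ}
    (h : a ≡ c [MOD N]) : z ^ a = z ^ c := by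
  have key : ∀ k : ℕ, z ^ k = z ^ (k % N) := by
    intro k
    conv_lhs => rw [← Nat.div_add_mod k N, pow_add, pow_mul, hz, one_pow, one_mul]
  rw [key a, key c]
  exact congrArg _ h

private lemma B5_modEq {R : Type*} [Field R] {z : R} {N : ℕ} (hz : IsPrimitiveRoot z N)
    (hN : 0 < N) {a c : ℕ} : z ^ a = z ^ c ↔ a ≡ c [MOD N] := by
  have h1 : orderOf (Units.mk0 z (hz.ne_zero hN.ne')) = N := by
    rw [← orderOf_units, Units.val_mk0]
    exact hz.eq_orderOf.symm
  rw [← h1, ← pow_eq_pow_iff_modEq, Units.ext_iff]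
  simp

/-- A complex number killed by two of the polynomials is a product of a primitive `N`-th and a
primitive `p`-th root of unity. -/
private lemma B5_split {z : ℂ} {N p : ℕ} (hN : N.Prime) (hp : p.Prime) (hc : N.Coprime p)
    (h1 : z ^ (N * p) = 1) (h2 : ∑ i ∈ range N, z ^ (i * p) = 0)
    (h3 : ∑ i ∈ range p, z ^ (i * N) = 0) :
    ∃ ω θ : ℂ, IsPrimitiveRoot ω N ∧ IsPrimitiveRoot θ p ∧ z = ω * θ := by
  have a1 : z ^ p ≠ 1 := by
    intro h
    have h4 : ∑ i ∈ range N, z ^ (i * p) = N := by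
      rw [Finset.sum_congr rfl (g := fun _ => (1 : ℂ)), sum_const, card_range, nsmul_eq_mul,
        mul_one]
      intro i _
      rw [mul_comm, pow_mul, h, one_pow]
    rw [h4] at h2
    exact hN.ne_zero (by exact_mod_cast h2)
  have a2 : z ^ N ≠ 1 := by
    intro h
    have h4 : ∑ i ∈ range p, z ^ (i * N) = p := by
      rw [Finset.sum_congr rfl (g := fun _ => (1 : ℂ)), sum_const, card_range, nsmul_eq_mul,
        mul_one]
      intro i _
      rw [mul_comm, pow_mul, h, one_pow]
    rw [h4] at h3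
    exact hp.ne_zero (by exact_mod_cast h3)
  have b1 : IsPrimitiveRoot (z ^ p) N := by
    have : Fact N.Prime := ⟨hN⟩
    have h4 : orderOf (z ^ p) = N :=
      orderOf_eq_prime (by rw [← pow_mul, mul_comm, h1]) a1
    rw [← h4]
    exact IsPrimitiveRoot.orderOf _
  have b2 : IsPrimitiveRoot (z ^ N) p := by
    have : Fact p.Prime := ⟨hp⟩
    have h4 : orderOf (z ^ N) = p :=
      orderOf_eq_prime (by rw [← pow_mul, h1]) a2
    rw [← h4]
    exact IsPrimitiveRoot.orderOf _
  obtain ⟨u, _, hu⟩ := Nat.exists_mul_mod_eq_one_of_coprime hc hp.one_lt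
  obtain ⟨v, _, hv⟩ := Nat.exists_mul_mod_eq_one_of_coprime hc.symm hN.one_lt
  refine ⟨(z ^ p) ^ v, (z ^ N) ^ u, b1.pow_of_coprime v ?_, b2.pow_of_coprime u ?_, ?_⟩
  · rw [Nat.Coprime]
    have h4 : Nat.gcd v N ∣ 1 := by
      rw [← hv, Nat.dvd_mod_iff (Nat.gcd_dvd_right v N)]
      exact (Nat.gcd_dvd_left v N).trans (dvd_mul_left _ _)
    exact Nat.dvd_one.mp h4
  · rw [Nat.Coprime]
    have h4 : Nat.gcd u p ∣ 1 := by
      rw [← hu, Nat.dvd_mod_iff (Nat.gcd_dvd_right u p)]
      exact (Nat.gcd_dvd_left u p).trans (dvd_mul_left _ _)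
    exact Nat.dvd_one.mp h4
  · rw [← pow_mul, ← pow_mul, ← pow_add]
    have h4 : 1 ≡ p * v + N * u [MOD N * p] := by
      rw [← Nat.modEq_and_modEq_iff_modEq_mul hc]
      constructor
      · have h5 : p * v ≡ 1 [MOD N] := by
          rw [Nat.ModEq, hv, Nat.mod_eq_of_lt hN.one_lt]
        have h6 : N * u ≡ 0 [MOD N] := (Nat.modEq_zero_iff_dvd).mpr (dvd_mul_right _ _)
        exact (h5.add h6).symm
      · have h5 : N * u ≡ 1 [MOD p] := by
          rw [Nat.ModEq, hu, Nat.mod_eq_of_lt hp.one_lt]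
        have h6 : p * v ≡ 0 [MOD p] := (Nat.modEq_zero_iff_dvd).mpr (dvd_mul_right _ _)
        have h7 := (h6.add h5).symm
        rwa [zero_add] at h7
    rw [← B5_pow_congr h1 h4, pow_one]

/-- The additive character attached to a primitive `p`-th root of unity. -/
private lemma B5_addChar [Fact p.Prime] [CharP 𝔽 p] (hf : Fintype.card 𝔽 = p ^ f₀) {θ : ℂ}
    (hθ : IsPrimitiveRoot θ p) :
    ∃ ψ : AddChar 𝔽 ℂ, ψ.IsPrimitive ∧
      ∀ (s : 𝔽) (k : ℕ), (k : 𝔽) = ∑ i ∈ range f₀, s ^ p ^ i → ψ s = θ ^ k := by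
  have hp : p.Prime := Fact.out
  obtain rfl : ringChar 𝔽 = p := ringChar.eq 𝔽 p
  let _ : Algebra (ZMod (ringChar 𝔽)) 𝔽 := ZMod.algebra _ _
  have hfr : Module.finrank (ZMod (ringChar 𝔽)) 𝔽 = f₀ := by
    have h1 := Module.card_eq_pow_finrank (K := ZMod (ringChar 𝔽)) (V := 𝔽)
    rw [hf, ZMod.card] at h1
    exact (Nat.pow_right_injective hp.two_le h1).symm
  have hθ1 : θ ^ (ringChar 𝔽) = 1 := hθ.pow_eq_one
  let ψ := (AddChar.zmodChar (ringChar 𝔽) hθ1).compAddMonoidHom
    (Algebra.trace (ZMod (ringChar 𝔽)) 𝔽).toAddMonoidHom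
  have hval : ∀ (s : 𝔽) (k : ℕ), Algebra.trace (ZMod (ringChar 𝔽)) 𝔽 s = (k : ZMod (ringChar 𝔽)) →
      ψ s = θ ^ k := by
    intro s k hk
    have h1 : ψ s = AddChar.zmodChar (ringChar 𝔽) hθ1
        (Algebra.trace (ZMod (ringChar 𝔽)) 𝔽 s) := rfl
    rw [h1, hk, AddChar.zmodChar_apply']
  refine ⟨ψ, ?_, ?_⟩
  · apply AddChar.IsPrimitive.of_ne_one
    obtain ⟨a, ha⟩ := FiniteField.trace_to_zmod_nondegenerate 𝔽 (one_ne_zero (α := 𝔽))
    rw [one_mul] at ha
    rw [AddChar.ne_one_iff]
    refine ⟨a, fun h => ha ?_⟩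
    have h2 := hval a (Algebra.trace (ZMod (ringChar 𝔽)) 𝔽 a).val
      (by rw [ZMod.natCast_zmod_val])
    rw [h2] at h
    have h3 := (hθ.pow_eq_one_iff_dvd _).mp h
    have h4 := Nat.eq_zero_of_dvd_of_lt h3 (ZMod.val_lt _)
    exact (ZMod.val_eq_zero _).mp h4
  · intro s k hk
    apply hval
    apply (algebraMap (ZMod (ringChar 𝔽)) 𝔽).injective
    rw [FiniteField.algebraMap_trace_eq_sum_pow, hfr, map_natCast, hk]
    simp only [Nat.card_zmod]

/-- The Bezout relation for the polynomials of Gauss sums. -/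
theorem Base.exists_as_bezout [Fact p.Prime] [CharP 𝔽 p] (hN : b.N.Prime)
    (hf : Fintype.card 𝔽 = p ^ f₀) {n wd : ℕ} (bb : Fin n → ℕ) (hb : ∀ j, ¬ b.N ∣ bb j)
    (hn : n = 2 * wd → ∀ (χ : MulChar 𝔽 ℂ) (ψ : AddChar 𝔽 ℂ), orderOf χ = b.N →
      ψ.IsPrimitive → (-1) ^ n * ∏ j, gaussSum (χ ^ bb j) ψ ≠ (b.q : ℂ) ^ wd)
    (l : Fin n → 𝔽 → ℕ)
    (hl : ∀ (j : Fin n) (s : 𝔽), s ≠ 0 → b.ζ ^ l j s = (s ^ b.e) ^ bb j ∧
      ((l j s : ℕ) : 𝔽) = ∑ i ∈ range f₀, s ^ p ^ i) :
    ∃ D : ℤ, D ≠ 0 ∧ C D ∈ Ideal.span ({X ^ (b.N * p) - 1,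
        C ((b.q : ℤ) ^ wd) - (-1) ^ n * ∏ j, gauPoly 𝔽 (l j),
        ∑ i ∈ range b.N, X ^ (i * p), ∑ i ∈ range p, X ^ (i * b.N)} : Set ℤ[X]) := by
  have hp : p.Prime := Fact.out
  -- `p` is prime to `N`
  have hcop : b.N.Coprime p := by
    rw [Nat.coprime_primes hN hp]
    intro h
    have h0 : f₀ ≠ 0 := by
      rintro rfl
      have h2 := Fintype.one_lt_card (α := 𝔽)
      rw [hf, pow_zero] at h2
      exact lt_irrefl _ h2
    have h1 : b.N ∣ p ^ f₀ := by
      rw [h]
      exact dvd_pow_self p h0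
    rw [← hf, b.card] at h1
    have h2 : b.N ∣ 1 := (Nat.dvd_add_right (dvd_mul_right _ _)).mp h1
    exact hN.one_lt.ne' (Nat.dvd_one.mp h2)
  apply exists_int_bezout
  intro z
  by_contra hcon
  push Not at hcon
  have h1 : z ^ (b.N * p) = 1 := by
    have h := hcon (X ^ (b.N * p) - 1) (by simp)
    rw [map_sub, map_pow, aeval_X, map_one] at h
    exact sub_eq_zero.mp h
  have h2 : (b.q : ℂ) ^ wd = (-1) ^ n * ∏ j, ∑ s ∈ univ.filter (fun s : 𝔽 => s ≠ 0),
      z ^ l j s := by
    have h := hcon (C ((b.q : ℤ) ^ wd) - (-1) ^ n * ∏ j, gauPoly 𝔽 (l j)) (by simp)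
    rw [map_sub, map_mul, map_prod, sub_eq_zero] at h
    simp only [gauPoly, map_sum, map_pow, map_neg, map_one, aeval_X, aeval_C] at h
    rw [← h]
    simp
  have h3 : ∑ i ∈ range b.N, z ^ (i * p) = 0 := by
    have h := hcon (∑ i ∈ range b.N, X ^ (i * p)) (by simp)
    simpa only [map_sum, map_pow, aeval_X] using h
  have h4 : ∑ i ∈ range p, z ^ (i * b.N) = 0 := by
    have h := hcon (∑ i ∈ range p, X ^ (i * b.N)) (by simp)
    simpa only [map_sum, map_pow, aeval_X] using h
  obtain ⟨ω, θ, hω, hθ, hz⟩ := B5_split hN hp hcop h1 h3 h4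
  obtain ⟨χ, hχ, hχ1⟩ := b.exists_char hω
  obtain ⟨ψ, hψ, hψ1⟩ := B5_addChar hf hθ
  have hord : orderOf χ = b.N :=
    Nat.dvd_antisymm (orderOf_dvd_of_pow_eq_one ((hχ1 b.N).mpr dvd_rfl))
      ((hχ1 _).mp (pow_orderOf_eq_one χ))
  have hgs : ∀ j, ∑ s ∈ univ.filter (fun s : 𝔽 => s ≠ 0), z ^ l j s =
      gaussSum (χ ^ bb j) ψ := by
    intro j
    rw [gaussSum, ← sum_subset (filter_subset (fun s : 𝔽 => s ≠ 0) univ)]
    · refine sum_congr rfl (fun s hs => ?_)
      have hs0 : s ≠ 0 := (mem_filter.mp hs).2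
      obtain ⟨i, hi⟩ := b.exists_pow_ζ hs0
      obtain ⟨hl1, hl2⟩ := hl j s hs0
      rw [hi, ← pow_mul] at hl1
      have h5 : ω ^ l j s = ω ^ (i * bb j) :=
        (B5_modEq hω b.N_pos).mpr ((B5_modEq b.hζ b.N_pos).mp hl1)
      have h6 : (χ ^ bb j) s = (χ s) ^ bb j := by
        have := MulChar.pow_apply_coe χ (bb j) (Units.mk0 s hs0)
        simpa using this
      rw [hz, mul_pow, h5, h6, hχ s i hs0 hi, pow_mul, hψ1 s _ hl2]
    · intro s _ hs
      have hs0 : s = 0 := by
        by_contra h5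
        exact hs (mem_filter.mpr ⟨mem_univ _, h5⟩)
      rw [hs0, MulChar.map_zero, zero_mul]
  simp_rw [hgs] at h2
  by_cases hnw : n = 2 * wd
  · exact hn hnw χ ψ hord hψ h2.symm
  · apply hnw
    have h5 := congrArg Complex.normSq h2
    rw [map_mul, map_prod, map_pow, map_pow, Complex.normSq_neg, map_one, one_pow, one_mul,
      Complex.normSq_natCast] at h5
    have h6 : ∀ j, Complex.normSq (gaussSum (χ ^ bb j) ψ) = b.q := by
      intro j
      rw [normSq_gaussSum (fun h => hb j ((hχ1 (bb j)).mp h)) hψ, b.card_q]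
    simp_rw [h6] at h5
    rw [prod_const, card_univ, Fintype.card_fin, ← pow_two, ← pow_mul] at h5
    have h7 : b.q ^ (2 * wd) = b.q ^ n := by exact_mod_cast h5
    have h8 : 2 ≤ b.q := by
      rw [← b.card_q]
      exact Fintype.one_lt_card
    exact (Nat.pow_right_injective h8 h7).symm

end UnrA.Fer
end

section

/-!
# The cover `v ^ N = ∏ X_j ^ (c_j)`, `u ^ p - u = ∑ X_j` in a product of curves
-/

namespace UnrA.Fer

open UnrG

universe u v w z

open Polynomial Finset
open scoped Classical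

/-- `E` is the function field over `F` of the variety `v ^ N = ∏ X_j ^ (c_j)`,
`u ^ p - u = ∑ X_j`. -/
structure ASCov (p N : ℕ) {F E : Type u} [Field F] [Field E] [Algebra F E] {n : ℕ}
    (X : Fin n → E) (v u : E) (c : Fin n → ZMod N) : Prop where
  ind : AlgebraicIndependent F X
  eqv : v ^ N = ∏ j, X j ^ (c j).val
  equ : u ^ p - u = ∑ j, X j
  gen : IntermediateField.adjoin F (Set.range X ∪ {v, u}) = ⊤

variable {𝔽 : Type w} [Field 𝔽] [Fintype 𝔽] (b : Base 𝔽)

/-- Subfields generated by finitely many elements of degree at most `d`. -/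
private lemma B7a_finite {E M : Type u} [Field E] [Field M] [Algebra E M] {d : ℕ} (S : Finset M)
    (hS : ∀ z ∈ S, ∃ f : E[X], f.Monic ∧ aeval z f = 0 ∧ f.natDegree ≤ d) :
    FiniteDimensional E (IntermediateField.adjoin E (S : Set M)) ∧
      Module.finrank E (IntermediateField.adjoin E (S : Set M)) ≤ d ^ S.card := by
  induction S using Finset.induction_on with
  | empty =>
    rw [Finset.coe_empty, IntermediateField.adjoin_empty, Finset.card_empty, pow_zero]
    exact ⟨inferInstance, (IntermediateField.finrank_bot).le⟩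
  | insert z S hz ih =>
    obtain ⟨h1, h2⟩ := ih fun w hw => hS w (Finset.mem_insert_of_mem hw)
    obtain ⟨f, hf, hae, hdeg⟩ := hS z (Finset.mem_insert_self _ _)
    have hint : IsIntegral E z := ⟨f, hf, by rw [← aeval_def]; exact hae⟩
    have h3 : FiniteDimensional E (IntermediateField.adjoin E {z}) :=
      IntermediateField.adjoin.finiteDimensional hint
    have h4 : Module.finrank E (IntermediateField.adjoin E {z}) ≤ d := by
      rw [IntermediateField.adjoin.finrank hint]
      exact (natDegree_le_of_dvd (minpoly.dvd E z hae) hf.ne_zero).trans hdeg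
    rw [Finset.coe_insert, Set.insert_eq, IntermediateField.adjoin_union]
    refine ⟨IntermediateField.finiteDimensional_sup _ _, ?_⟩
    refine (IntermediateField.finrank_sup_le _ _).trans ?_
    rw [Finset.card_insert_of_notMem hz, pow_succ']
    exact Nat.mul_le_mul h4 h2

private lemma B7a_range {E M : Type u} [Field E] [Field M] [Algebra E M] {d n : ℕ} (hd : 0 < d)
    (x : Fin n → M) (hx : ∀ j, ∃ f : E[X], f.Monic ∧ aeval (x j) f = 0 ∧ f.natDegree ≤ d) :
    FiniteDimensional E (IntermediateField.adjoin E (Set.range x)) ∧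
      Module.finrank E (IntermediateField.adjoin E (Set.range x)) ≤ d ^ n := by
  obtain ⟨h1, h2⟩ := B7a_finite (univ.image x) (d := d) (E := E) fun z hz => by
    obtain ⟨j, -, rfl⟩ := Finset.mem_image.1 hz
    exact hx j
  rw [Finset.coe_image, Finset.coe_univ, Set.image_univ] at h1 h2
  refine ⟨h1, h2.trans (Nat.pow_le_pow_right hd ?_)⟩
  exact (Finset.card_image_le).trans (by rw [Finset.card_univ, Fintype.card_fin])

/-- The cover is contained in the function field of a product of curves. -/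
theorem ASCov.exists_embedding {p : ℕ} [Fact p.Prime] (hN : b.N.Prime) {F E : Type u} [Field F]
    [Field E] [Algebra F E] [CharP F p] (ι : 𝔽 →+* F) {n : ℕ} {X : Fin n → E} {v u : E}
    {c : Fin n → ZMod b.N} (h : ASCov p b.N (F := F) X v u c) (hn : 0 < n)
    (hc : ∀ j, c j ≠ 0) :
    ∃ (M : Type u) (_ : Field M) (_ : Algebra F M) (x y : Fin n → M) (i : E →+* M),
      ASProd (F := F) b p (Fin.elim0 : Fin 0 → M) x y ∧
      (∀ a : F, i (algebraMap F E a) = algebraMap F M a) ∧
      (∀ j, i (X j) = x j ^ b.N) ∧ i v = ∏ j, x j ^ (c j).val ∧ i u = ∑ j, y j ∧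
      ∀ (m : UFun.{u, z}) (z : KM m E), KM.map m i z = 0 → ((b.N * p) ^ n).factorial • z = 0 := by
  have hp : p.Prime := Fact.out
  have hNZ : NeZero b.N := ⟨hN.ne_zero⟩
  obtain ⟨Ω, _, _, _⟩ : ∃ (Ω : Type u) (_ : Field Ω) (_ : Algebra E Ω), IsAlgClosed Ω :=
    ⟨AlgebraicClosure E, inferInstance, inferInstance, inferInstance⟩
  let _ : Algebra F Ω := ((algebraMap E Ω).comp (algebraMap F E)).toAlgebra
  have hst : IsScalarTower F E Ω := IsScalarTower.of_algebraMap_eq fun x => rfl
  have hcΩ : CharP Ω p := charP_of_injective_algebraMap (algebraMap F Ω).injective p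
  have hX0 : ∀ j, X j ≠ 0 := fun j => h.ind.ne_zero j
  have hXΩ0 : ∀ j, algebraMap E Ω (X j) ≠ 0 := fun j => (_root_.map_ne_zero _).2 (hX0 j)
  -- the roots
  have hx : ∀ j, ∃ z : Ω, z ^ b.N = algebraMap E Ω (X j) := fun j =>
    IsAlgClosed.exists_pow_nat_eq _ hN.pos
  choose x₀ hx₀ using hx
  have hx₀0 : ∀ j, x₀ j ≠ 0 := fun j h0 => hXΩ0 j (by rw [← hx₀ j, h0, zero_pow hN.ne_zero])
  have hy : ∀ j, ∃ z : Ω, z ^ p - z = algebraMap E Ω (X j) := by
    intro j
    have hdeg : (Polynomial.X ^ p - (Polynomial.X + C (algebraMap E Ω (X j))) :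
        Polynomial Ω).degree ≠ 0 := by
      have h1 : (Polynomial.X ^ p - (Polynomial.X + C (algebraMap E Ω (X j))) :
          Polynomial Ω).degree = (p : ℕ) := by
        rw [degree_sub_eq_left_of_degree_lt, degree_X_pow]
        rw [degree_X_add_C, degree_X_pow]
        exact_mod_cast hp.one_lt
      rw [h1]
      exact_mod_cast hp.ne_zero
    obtain ⟨z, hz⟩ := IsAlgClosed.exists_root _ hdeg
    refine ⟨z, ?_⟩
    rw [IsRoot.def, eval_sub, eval_add, eval_pow, eval_X, eval_C] at hz
    linear_combination hz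
  choose y₀ hy₀ using hy
  -- adjusting the first coordinates
  have hζ := b.hζ_map (((algebraMap F Ω).comp ι))
  obtain ⟨k, -, hk⟩ : ∃ k < b.N, ((algebraMap F Ω).comp ι b.ζ) ^ k =
      algebraMap E Ω v / ∏ j, x₀ j ^ (c j).val := by
    refine hζ.eq_pow_of_pow_eq_one ?_
    have h1 : (∏ j, x₀ j ^ (c j).val) ^ b.N = algebraMap E Ω (∏ j, X j ^ (c j).val) := by
      rw [← Finset.prod_pow, map_prod]
      refine Finset.prod_congr rfl fun j _ => ?_
      rw [← pow_mul, mul_comm, pow_mul, hx₀, map_pow]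
    rw [div_pow, h1, ← map_pow, h.eqv, div_self]
    rw [map_prod]
    exact Finset.prod_ne_zero_iff.2 fun j _ => by
      rw [map_pow]
      exact pow_ne_zero _ (hXΩ0 j)
  have hprod0 : ∏ j, x₀ j ^ (c j).val ≠ 0 :=
    Finset.prod_ne_zero_iff.2 fun j _ => pow_ne_zero _ (hx₀0 j)
  obtain ⟨s, hs⟩ : ∃ s : ℕ, s * (c ⟨0, hn⟩).val ≡ k [MOD b.N] := by
    refine ⟨((k : ZMod b.N) * (c ⟨0, hn⟩)⁻¹).val, ?_⟩
    have : Fact b.N.Prime := ⟨hN⟩
    rw [← ZMod.natCast_eq_natCast_iff]
    push_cast
    rw [ZMod.natCast_zmod_val, ZMod.natCast_zmod_val, mul_assoc, inv_mul_cancel₀ (hc _), mul_one]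
  obtain ⟨ω, hω⟩ : ∃ ω : Ω, ω = (algebraMap F Ω).comp ι b.ζ := ⟨_, rfl⟩
  rw [← hω] at hk
  have hωN : ω ^ b.N = 1 := by rw [hω]; exact hζ.pow_eq_one
  obtain ⟨x, hx⟩ : ∃ x : Fin n → Ω, x = Function.update x₀ ⟨0, hn⟩ (ω ^ s * x₀ ⟨0, hn⟩) :=
    ⟨_, rfl⟩
  have hx1 : ∀ j, x j ^ b.N = algebraMap E Ω (X j) := by
    intro j
    rw [hx]
    by_cases hj : j = ⟨0, hn⟩
    · rw [hj, Function.update_self, mul_pow, ← pow_mul, mul_comm s, pow_mul, hωN, one_pow, one_mul,
        hx₀]
    · rw [Function.update_of_ne hj, hx₀]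
  have hx2 : algebraMap E Ω v = ∏ j, x j ^ (c j).val := by
    have h1 : ∏ j, x j ^ (c j).val = ω ^ (s * (c ⟨0, hn⟩).val) * ∏ j, x₀ j ^ (c j).val := by
      rw [← Finset.mul_prod_erase univ _ (Finset.mem_univ (⟨0, hn⟩ : Fin n)),
        ← Finset.mul_prod_erase univ (fun j => x₀ j ^ (c j).val)
          (Finset.mem_univ (⟨0, hn⟩ : Fin n)), ← mul_assoc]
      congr 1
      · rw [hx, Function.update_self, mul_pow, ← pow_mul]
      · refine Finset.prod_congr rfl fun j hj => ?_
        rw [hx, Function.update_of_ne (Finset.mem_erase.1 hj).1]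
    rw [h1, pow_eq_pow_mod _ hωN, hs, ← pow_eq_pow_mod _ hωN, hk, div_mul_cancel₀ _ hprod0]
  obtain ⟨w, hw⟩ : ∃ w : Ω, w = algebraMap E Ω u - ∑ j, y₀ j := ⟨_, rfl⟩
  have hwp : w ^ p - w = 0 := by
    have h1 : (algebraMap E Ω u) ^ p - algebraMap E Ω u = ∑ j, (y₀ j ^ p - y₀ j) := by
      rw [← map_pow, ← map_sub, h.equ, map_sum]
      exact Finset.sum_congr rfl fun j _ => (hy₀ j).symm
    rw [Finset.sum_sub_distrib] at h1
    rw [hw, sub_pow_char, sum_pow_char]
    linear_combination h1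
  obtain ⟨y, hy⟩ : ∃ y : Fin n → Ω, y = Function.update y₀ ⟨0, hn⟩ (y₀ ⟨0, hn⟩ + w) := ⟨_, rfl⟩
  have hy1 : ∀ j, y j ^ p - y j = algebraMap E Ω (X j) := by
    intro j
    rw [hy]
    by_cases hj : j = ⟨0, hn⟩
    · rw [hj, Function.update_self, add_pow_char]
      linear_combination hy₀ ⟨0, hn⟩ + hwp
    · rw [Function.update_of_ne hj, hy₀]
  have hy2 : algebraMap E Ω u = ∑ j, y j := by
    rw [← Finset.add_sum_erase univ _ (Finset.mem_univ (⟨0, hn⟩ : Fin n)), hy,
      Function.update_self]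
    have h1 : ∑ j ∈ univ.erase (⟨0, hn⟩ : Fin n), Function.update y₀ ⟨0, hn⟩ (y₀ ⟨0, hn⟩ + w) j =
        ∑ j ∈ univ.erase (⟨0, hn⟩ : Fin n), y₀ j :=
      Finset.sum_congr rfl fun j hj => Function.update_of_ne (Finset.mem_erase.1 hj).1 _ _
    rw [h1]
    have h2 := Finset.add_sum_erase univ y₀ (Finset.mem_univ (⟨0, hn⟩ : Fin n))
    linear_combination -hw - h2
  -- the field
  obtain ⟨hf1, hr1⟩ := B7a_range (E := E) hN.pos x fun j =>
    ⟨Polynomial.X ^ b.N - C (X j), monic_X_pow_sub_C _ hN.ne_zero, by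
      rw [map_sub, map_pow, aeval_X, aeval_C, hx1, sub_self], by rw [natDegree_X_pow_sub_C]⟩
  obtain ⟨hf2, hr2⟩ := B7a_range (E := E) hp.pos y fun j =>
    ⟨Polynomial.X ^ p - (Polynomial.X + C (X j)), monic_X_pow_sub (by
      rw [degree_X_add_C]
      exact_mod_cast hp.one_lt), by
      rw [map_sub, map_add, map_pow, aeval_X, aeval_C, ← hy1]
      ring, by
      refine (natDegree_sub_le _ _).trans (max_le (natDegree_X_pow_le _) ?_)
      rw [natDegree_X_add_C]
      exact hp.one_lt.le⟩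
  obtain ⟨T, hT⟩ : ∃ T : IntermediateField E Ω, T = IntermediateField.adjoin E (Set.range x) ⊔
    IntermediateField.adjoin E (Set.range y) := ⟨_, rfl⟩
  have hfT : FiniteDimensional E T := by
    rw [hT]
    exact IntermediateField.finiteDimensional_sup _ _
  have hrT : Module.finrank E T ≤ (b.N * p) ^ n := by
    rw [hT, mul_pow]
    exact (IntermediateField.finrank_sup_le _ _).trans (Nat.mul_le_mul hr1 hr2)
  have hTc : T.toSubfield = Subfield.closure (Set.range (algebraMap E Ω) ∪
      (Set.range x ∪ Set.range y)) := by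
    rw [hT, ← IntermediateField.adjoin_union, IntermediateField.adjoin_toSubfield]
  have hxT : ∀ j, x j ∈ T := fun j => by
    rw [hT]
    exact (le_sup_left : IntermediateField.adjoin E (Set.range x) ≤ _)
      (IntermediateField.subset_adjoin E _ ⟨j, rfl⟩)
  have hyT : ∀ j, y j ∈ T := fun j => by
    rw [hT]
    exact (le_sup_right : IntermediateField.adjoin E (Set.range y) ≤ _)
      (IntermediateField.subset_adjoin E _ ⟨j, rfl⟩)
  let _ : Algebra F T := ((algebraMap E T).comp (algebraMap F E)).toAlgebra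
  have hstT : IsScalarTower F T Ω := IsScalarTower.of_algebraMap_eq fun x => rfl
  obtain ⟨x', hx'⟩ : ∃ x' : Fin n → T, ∀ j, (x' j : Ω) = x j := ⟨fun j => ⟨x j, hxT j⟩, fun _ => rfl⟩
  obtain ⟨y', hy'⟩ : ∃ y' : Fin n → T, ∀ j, (y' j : Ω) = y j := ⟨fun j => ⟨y j, hyT j⟩, fun _ => rfl⟩
  have hX' : ∀ j, algebraMap E T (X j) = x' j ^ b.N := fun j => by
    apply Subtype.ext
    change algebraMap E Ω (X j) = (x' j : Ω) ^ b.N
    rw [hx', hx1]
  have hv' : algebraMap E T v = ∏ j, x' j ^ (c j).val := by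
    apply (algebraMap T Ω).injective
    rw [map_prod]
    change algebraMap E Ω v = _
    rw [hx2]
    refine Finset.prod_congr rfl fun j _ => ?_
    rw [map_pow]
    change _ = (x' j : Ω) ^ _
    rw [hx']
  have hu' : algebraMap E T u = ∑ j, y' j := by
    apply (algebraMap T Ω).injective
    rw [map_sum]
    change algebraMap E Ω u = _
    rw [hy2]
    refine Finset.sum_congr rfl fun j _ => ?_
    change _ = (y' j : Ω)
    rw [hy']
  refine ⟨T, inferInstance, inferInstance, x', y', algebraMap E T, ⟨fun j => ?_, ?_, ?_⟩,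
    fun _ => rfl, hX', hv', hu', ?_⟩
  · apply Subtype.ext
    change (y' j : Ω) ^ p - (y' j : Ω) = (x' j : Ω) ^ b.N
    rw [hx', hy', hy1, hx1]
  · have h1 : AlgebraicIndependent F (fun j => algebraMap E Ω (X j)) :=
      h.ind.map' (f := IsScalarTower.toAlgHom F E Ω) (algebraMap E Ω).injective
    have h2 : AlgebraicIndependent F x := indep_of_pow h1 (fun _ => b.N) hx1
    have h3 : AlgebraicIndependent F x' := by
      refine AlgebraicIndependent.of_comp (IsScalarTower.toAlgHom F T Ω) ?_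
      have h4 : (IsScalarTower.toAlgHom F T Ω) ∘ x' = x := funext hx'
      rw [h4]
      exact h2
    have h4 : (Sum.elim (Fin.elim0 : Fin 0 → T) x') ∘ (Equiv.emptySum (Fin 0) (Fin n)).symm =
        x' := by
      funext j
      rfl
    refine (algebraicIndependent_equiv (Equiv.emptySum (Fin 0) (Fin n)).symm
      (f := (Sum.elim (Fin.elim0 : Fin 0 → T) x'))).mp ?_
    rw [h4]
    exact h3
  · rw [eq_top_iff]
    intro z _
    obtain ⟨R, hR⟩ : ∃ R, R = IntermediateField.adjoin F (Set.range (Fin.elim0 : Fin 0 → T) ∪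
      Set.range x' ∪ Set.range y') := ⟨_, rfl⟩
    rw [← hR]
    have hxR : ∀ j, x' j ∈ R := fun j => by
      rw [hR]
      exact IntermediateField.subset_adjoin _ _ (Or.inl (Or.inr ⟨j, rfl⟩))
    have hyR : ∀ j, y' j ∈ R := fun j => by
      rw [hR]
      exact IntermediateField.subset_adjoin _ _ (Or.inr ⟨j, rfl⟩)
    have hER : ∀ e : E, algebraMap E T e ∈ R := by
      have h5 : (⊤ : Subfield E) ≤ R.toSubfield.comap (algebraMap E T) := by
        have h6 := congrArg IntermediateField.toSubfield h.gen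
        rw [IntermediateField.adjoin_toSubfield, IntermediateField.top_toSubfield] at h6
        rw [← h6, Subfield.closure_le]
        rintro z (⟨e, rfl⟩ | (⟨j, rfl⟩ | hz))
        · exact R.algebraMap_mem e
        · change algebraMap E T (X j) ∈ R
          rw [hX']
          exact pow_mem (hxR j) _
        · rw [Set.mem_insert_iff, Set.mem_singleton_iff] at hz
          rcases hz with rfl | rfl
          · change algebraMap E T z ∈ R
            rw [hv']
            exact prod_mem fun j _ => pow_mem (hxR j) _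
          · change algebraMap E T z ∈ R
            rw [hu']
            exact sum_mem fun j _ => hyR j
      exact fun e => h5 (Subfield.mem_top e)
    have h2 : T.toSubfield ≤ R.toSubfield.map (algebraMap T Ω) := by
      rw [hTc, Subfield.closure_le]
      rintro _ (⟨a, rfl⟩ | ⟨j, rfl⟩ | ⟨j, rfl⟩)
      · exact ⟨algebraMap E T a, hER a, rfl⟩
      · exact ⟨x' j, hxR j, hx' j⟩
      · exact ⟨y' j, hyR j, hy' j⟩
    obtain ⟨z', hz', hzz⟩ := h2 z.2
    have h3 : z' = z := Subtype.ext hzz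
    rw [← h3]
    exact hz'
  · intro m z hz
    have h1 := finrank_smul_eq_zero _ rfl hz
    obtain ⟨e, he⟩ := Nat.dvd_factorial (Module.finrank_pos (R := E) (M := T)) hrT
    rw [he, mul_comm, mul_smul, h1, smul_zero]

end UnrA.Fer
end

section

/-!
# Automorphisms of the cover
-/

namespace UnrA.Fer

open UnrG

universe u v w z

open Polynomial Finset
open scoped Classical

variable {𝔽 : Type w} [Field 𝔽] [Fintype 𝔽] (b : Base 𝔽)

private lemma B7b_lift {E M : Type*} [Field E] [Field M] {i : E →+* M} {f : M →+* M}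
    (h : ∀ z : E, ∃ e : E, i e = f (i z)) : ∃ g : E →+* E, ∀ z, i (g z) = f (i z) := by
  choose g hg using h
  refine ⟨⟨⟨⟨g, ?_⟩, ?_⟩, ?_, ?_⟩, hg⟩
  · exact i.injective (by rw [hg, map_one, map_one])
  · exact fun a b => i.injective (by rw [hg, map_mul, map_mul, map_mul, hg, hg])
  · exact i.injective (by
      change i (g 0) = i 0
      rw [hg, map_zero, map_zero])
  · exact fun a b => i.injective (by
      change i (g (a + b)) = i (g a + g b)
      rw [hg, map_add, map_add, map_add, hg, hg])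

/-- The automorphisms of the product induce automorphisms of the cover. -/
theorem ASCov.exists_restrict {p : ℕ} {F E M : Type u} [Field F]
    [Field E] [Field M] [Algebra F E] [Algebra F M] (ι : 𝔽 →+* F) {n : ℕ} {X : Fin n → E}
    {v u : E} {c : Fin n → ZMod b.N} (h : ASCov p b.N (F := F) X v u c) {x y : Fin n → M}
    {i : E →+* M} (hi : ∀ a : F, i (algebraMap F E a) = algebraMap F M a)
    (hX : ∀ j, i (X j) = x j ^ b.N) (hv : i v = ∏ j, x j ^ (c j).val) (hu : i u = ∑ j, y j)
    {a d : Fin n → ℕ} {f : M →+* M}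
    (hf : IsASDiag b ι (Fin.elim0 : Fin 0 → M) x y a d f) :
    ∃ g : E →+* E, i.comp g = f.comp i ∧ (∀ a : F, g (algebraMap F E a) = algebraMap F E a) ∧
      (∀ j, g (X j) = X j) ∧ g v = algebraMap F E (ι b.ζ) ^ (∑ j, (c j).val * a j) * v ∧
      g u = u + ((∑ j, d j : ℕ) : E) := by
  have hζ : (algebraMap F M (ι b.ζ)) ^ b.N = 1 := by
    rw [← map_pow, ← map_pow, b.hζ.pow_eq_one, map_one, map_one]
  have h1 : ∀ z : F, f (i (algebraMap F E z)) = i (algebraMap F E z) := fun z => by
    rw [hi, hf.const]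
  have h2 : ∀ j, f (i (X j)) = i (X j) := fun j => by
    rw [hX, map_pow, hf.fx, mul_pow, ← pow_mul, mul_comm (a j), pow_mul, hζ, one_pow, one_mul]
  have h3 : f (i v) = i (algebraMap F E (ι b.ζ) ^ (∑ j, (c j).val * a j) * v) := by
    rw [map_mul, map_pow, hi, hv, map_prod, ← Finset.prod_pow_eq_pow_sum, ← Finset.prod_mul_distrib]
    refine Finset.prod_congr rfl fun j _ => ?_
    rw [map_pow, hf.fx, mul_pow, ← pow_mul, mul_comm (a j)]
  have h4 : f (i u) = i (u + ((∑ j, d j : ℕ) : E)) := by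
    rw [map_add, map_natCast, hu, map_sum, Nat.cast_sum, ← Finset.sum_add_distrib]
    exact Finset.sum_congr rfl fun j _ => hf.fy j
  have hrange : ∀ z : E, ∃ e : E, i e = f (i z) := by
    have h5 : (⊤ : Subfield E) ≤ i.fieldRange.comap (f.comp i) := by
      have h6 := congrArg IntermediateField.toSubfield h.gen
      rw [IntermediateField.adjoin_toSubfield, IntermediateField.top_toSubfield] at h6
      rw [← h6, Subfield.closure_le]
      rintro z (⟨e, rfl⟩ | (⟨j, rfl⟩ | hz))
      · exact ⟨_, (h1 e).symm⟩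
      · exact ⟨_, (h2 j).symm⟩
      · rw [Set.mem_insert_iff, Set.mem_singleton_iff] at hz
        rcases hz with rfl | rfl
        · exact ⟨_, h3.symm⟩
        · exact ⟨_, h4.symm⟩
    exact fun z => h5 (Subfield.mem_top z)
  obtain ⟨g, hg⟩ := B7b_lift hrange
  refine ⟨g, RingHom.ext hg, fun z => i.injective ?_, fun j => i.injective ?_, i.injective ?_,
    i.injective ?_⟩
  · rw [hg, h1]
  · rw [hg, h2]
  · rw [hg, h3]
  · rw [hg, h4]

end UnrA.Fer
end

section

/-!
# Rational subfields of the cover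
-/

namespace UnrA.Fer

open UnrG

universe u v w z

open Polynomial Finset
open scoped Classical

/-- A family of elements of a generated subfield generates it if it does so in the big field. -/
private lemma B8a_top {F E : Type u} [Field F] [Field E] [Algebra F E] {κ : Type*} (S : Set E)
    (g : κ → IntermediateField.adjoin F S)
    (h : S ⊆ IntermediateField.adjoin F (Set.range (fun i => (g i : E)))) :
    IntermediateField.adjoin F (Set.range g) = ⊤ := by
  rw [eq_top_iff]
  rintro ⟨z, hz⟩ -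
  have h1 : z ∈ IntermediateField.adjoin F (Set.range (fun i => (g i : E))) :=
    (IntermediateField.adjoin_le_iff.2 h) hz
  have h2 : IntermediateField.adjoin F (Set.range (fun i => (g i : E))) =
      IntermediateField.lift (IntermediateField.adjoin F (Set.range g)) := by
    rw [IntermediateField.lift_adjoin, ← Set.range_comp]
    rfl
  rw [h2, IntermediateField.mem_lift (⟨z, hz⟩ : IntermediateField.adjoin F S)] at h1
  exact h1

/-- Exchange of one element of an independent family. -/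
private lemma B8a_exchange {F E : Type u} [Field F] [Field E] [Algebra F E] {n : ℕ}
    {X : Fin n → E} (hind : AlgebraicIndependent F X) (j : Fin n) {s y : E}
    (h1 : y ∈ IntermediateField.adjoin F (Set.range X ∪ {s}))
    (h2 : X j ∈ IntermediateField.adjoin F (X '' {i | i ≠ j}) ⊔ IntermediateField.adjoin F {y})
    (h3 : s ∈ IntermediateField.adjoin F (X '' {i | i ≠ j}) ⊔ IntermediateField.adjoin F {y}) :
    ∃ w : Fin n → IntermediateField.adjoin F (Set.range X ∪ {s}), AlgebraicIndependent F w ∧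
      IntermediateField.adjoin F (Set.range w) = ⊤ := by
  have hX : ∀ i, X i ∈ IntermediateField.adjoin F (Set.range X ∪ {s}) := fun i =>
    IntermediateField.subset_adjoin F _ (Or.inl ⟨i, rfl⟩)
  obtain ⟨X', hX'⟩ : ∃ X' : Fin n → IntermediateField.adjoin F (Set.range X ∪ {s}),
      X' = fun i => ⟨X i, hX i⟩ := ⟨_, rfl⟩
  have hcoe : ∀ i, ((X' i : IntermediateField.adjoin F (Set.range X ∪ {s})) : E) = X i := by
    intro i
    rw [hX']
  have hind' : AlgebraicIndependent F X' := by
    have h4 : AlgebraicIndependent F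
        ((IntermediateField.adjoin F (Set.range X ∪ {s})).val ∘ X') := by
      have h5 : (IntermediateField.adjoin F (Set.range X ∪ {s})).val ∘ X' = X := by
        ext i
        exact hcoe i
      rw [h5]
      exact hind
    exact (AlgHom.algebraicIndependent_iff _
      (IntermediateField.adjoin F (Set.range X ∪ {s})).val.injective).1 h4
  have htop : IntermediateField.adjoin F (Set.range (Function.update X' j ⟨y, h1⟩)) = ⊤ := by
    apply B8a_top
    have h6 : IntermediateField.adjoin F (X '' {i | i ≠ j}) ⊔ IntermediateField.adjoin F {y} ≤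
        IntermediateField.adjoin F
          (Set.range (fun i => ((Function.update X' j ⟨y, h1⟩ : Fin n →
            IntermediateField.adjoin F (Set.range X ∪ {s})) i : E))) := by
      apply sup_le
      · rw [IntermediateField.adjoin_le_iff]
        rintro z ⟨i, hi, rfl⟩
        apply IntermediateField.subset_adjoin F _
        refine ⟨i, ?_⟩
        have h7 : (Function.update X' j ⟨y, h1⟩ : Fin n →
            IntermediateField.adjoin F (Set.range X ∪ {s})) i = X' i :=
          Function.update_of_ne hi _ _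
        change (((Function.update X' j ⟨y, h1⟩ : Fin n →
            IntermediateField.adjoin F (Set.range X ∪ {s})) i :
              IntermediateField.adjoin F (Set.range X ∪ {s})) : E) = X i
        rw [h7, hcoe]
      · rw [IntermediateField.adjoin_simple_le_iff]
        apply IntermediateField.subset_adjoin F _
        refine ⟨j, ?_⟩
        have h7 : (Function.update X' j ⟨y, h1⟩ : Fin n →
            IntermediateField.adjoin F (Set.range X ∪ {s})) j = ⟨y, h1⟩ :=
          Function.update_self _ _ _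
        change (((Function.update X' j ⟨y, h1⟩ : Fin n →
            IntermediateField.adjoin F (Set.range X ∪ {s})) j :
              IntermediateField.adjoin F (Set.range X ∪ {s})) : E) = y
        rw [h7]
    rintro z (⟨i, rfl⟩ | hz)
    · apply h6
      by_cases hij : i = j
      · rw [hij]
        exact h2
      · exact (le_sup_left : IntermediateField.adjoin F (X '' {i | i ≠ j}) ≤ _)
          (IntermediateField.subset_adjoin F _ ⟨i, hij, rfl⟩)
    · rw [Set.mem_singleton_iff] at hz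
      rw [hz]
      exact h6 h3
  refine ⟨Function.update X' j ⟨y, h1⟩, ?_, htop⟩
  refine indep_of_trdeg hind' fun z => ?_
  have hz : z ∈ IntermediateField.adjoin F (Set.range (Function.update X' j ⟨y, h1⟩)) := by
    rw [htop]
    exact IntermediateField.mem_top
  exact isAlgebraic_algebraMap
    (⟨z, hz⟩ : IntermediateField.adjoin F (Set.range (Function.update X' j ⟨y, h1⟩)))

/-- The field `F(X, v)` with `v ^ N = ∏ X_j ^ (c_j)` is purely transcendental. -/
theorem ASCov.isPurely_v {p N : ℕ} (hN : N.Prime) {F E : Type u} [Field F] [Field E]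
    [Algebra F E] {n : ℕ} {X : Fin n → E} {v u : E} {c : Fin n → ZMod N}
    (h : ASCov p N (F := F) X v u c) (hn : 0 < n) (hc : ∀ j, c j ≠ 0) :
    ∃ w : Fin n → IntermediateField.adjoin F (Set.range X ∪ {v}), AlgebraicIndependent F w ∧
      IntermediateField.adjoin F (Set.range w) = ⊤ := by
  have : NeZero N := ⟨hN.ne_zero⟩
  have hX0 : ∀ i, X i ≠ 0 := fun i h0 => h.ind.transcendental i (by rw [h0]; exact isAlgebraic_zero)
  have hcop : (c ⟨0, hn⟩).val.Coprime N := by
    rw [Nat.coprime_comm, hN.coprime_iff_not_dvd]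
    intro hd
    apply hc ⟨0, hn⟩
    have h1 := (ZMod.natCast_eq_zero_iff (c ⟨0, hn⟩).val N).2 hd
    rwa [ZMod.natCast_zmod_val] at h1
  have hcT : ∏ j ∈ univ.erase (⟨0, hn⟩ : Fin n), X j ^ (c j).val ∈
      IntermediateField.adjoin F (X '' {i | i ≠ ⟨0, hn⟩}) :=
    prod_mem fun j hj => pow_mem (IntermediateField.subset_adjoin F (X '' {i | i ≠ ⟨0, hn⟩})
      ⟨j, (Finset.mem_erase.1 hj).1, rfl⟩) _
  have hc0 : ∏ j ∈ univ.erase (⟨0, hn⟩ : Fin n), X j ^ (c j).val ≠ 0 :=
    Finset.prod_ne_zero_iff.2 fun j _ => pow_ne_zero _ (hX0 j)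
  have hvN : v ^ N = (∏ j ∈ univ.erase (⟨0, hn⟩ : Fin n), X j ^ (c j).val) *
      X ⟨0, hn⟩ ^ (c ⟨0, hn⟩).val := by
    rw [h.eqv]
    exact (Finset.prod_erase_mul univ (fun j => X j ^ (c j).val) (Finset.mem_univ _)).symm
  obtain ⟨y, hy⟩ := mono_trick (IntermediateField.adjoin F (X '' {i | i ≠ ⟨0, hn⟩})) hN.pos hcop
    hcT hc0 (hX0 _) hvN
  have hle : IntermediateField.adjoin F {v, X ⟨0, hn⟩} ≤
      IntermediateField.adjoin F (X '' {i | i ≠ ⟨0, hn⟩}) ⊔ IntermediateField.adjoin F {y} := by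
    rw [← hy]
    exact le_sup_right
  refine B8a_exchange h.ind ⟨0, hn⟩ (y := y) ?_ ?_ ?_
  · have h1 : IntermediateField.adjoin F {y} ≤
        IntermediateField.adjoin F (X '' {i | i ≠ ⟨0, hn⟩}) ⊔
          IntermediateField.adjoin F {v, X ⟨0, hn⟩} := by
      rw [hy]
      exact le_sup_right
    have h2 : IntermediateField.adjoin F (X '' {i | i ≠ ⟨0, hn⟩}) ⊔
        IntermediateField.adjoin F {v, X ⟨0, hn⟩} ≤
          IntermediateField.adjoin F (Set.range X ∪ {v}) := by
      refine sup_le (IntermediateField.adjoin.mono F _ _ ?_)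
        (IntermediateField.adjoin.mono F _ _ ?_)
      · rintro z ⟨i, -, rfl⟩
        exact Or.inl ⟨i, rfl⟩
      · rintro z (hz | hz)
        · exact Or.inr hz
        · rw [Set.mem_singleton_iff] at hz
          exact Or.inl ⟨_, hz.symm⟩
    exact h2 (h1 (IntermediateField.mem_adjoin_simple_self F y))
  · exact hle (IntermediateField.subset_adjoin F _ (Or.inr rfl))
  · exact hle (IntermediateField.subset_adjoin F _ (Or.inl rfl))

/-- The field `F(X, u)` with `u ^ p - u = ∑ X_j` is purely transcendental. -/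
theorem ASCov.isPurely_u {p N : ℕ} {F E : Type u} [Field F] [Field E]
    [Algebra F E] {n : ℕ} {X : Fin n → E} {v u : E} {c : Fin n → ZMod N}
    (h : ASCov p N (F := F) X v u c) (hn : 0 < n) :
    ∃ w : Fin n → IntermediateField.adjoin F (Set.range X ∪ {u}), AlgebraicIndependent F w ∧
      IntermediateField.adjoin F (Set.range w) = ⊤ := by
  have hu : u ∈ IntermediateField.adjoin F (X '' {i | i ≠ ⟨0, hn⟩}) ⊔
      IntermediateField.adjoin F {u} :=
    (le_sup_right : IntermediateField.adjoin F {u} ≤ _)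
      (IntermediateField.mem_adjoin_simple_self F u)
  refine B8a_exchange h.ind ⟨0, hn⟩ (y := u)
    (IntermediateField.subset_adjoin F _ (Or.inr rfl)) ?_ hu
  have h1 : X ⟨0, hn⟩ = u ^ p - u - ∑ j ∈ univ.erase (⟨0, hn⟩ : Fin n), X j := by
    rw [h.equ, ← Finset.add_sum_erase _ _ (Finset.mem_univ (⟨0, hn⟩ : Fin n))]
    ring
  rw [h1]
  refine sub_mem (sub_mem (pow_mem hu _) hu) (sum_mem fun j hj => ?_)
  exact (le_sup_left : IntermediateField.adjoin F (X '' {i | i ≠ ⟨0, hn⟩}) ≤ _)
    (IntermediateField.subset_adjoin F _ ⟨j, (Finset.mem_erase.1 hj).1, rfl⟩)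

end UnrA.Fer
end
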