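import Mathlib
import Pool.Agent.Lib.MP_859dd5_ag.Mg.G003
import Pool.Agent.Lib.MP_859dd5_ag.Mg.G070
import Pool.Agent.Lib.MP_859dd5_ag.Mg.G069
import Pool.Agent.Lib.MP_859dd5_ag.S.Fun
import Pool.Agent.Lib.MP_859dd5_ag.Mg.G009
import Pool.Agent.Lib.MP_859dd5_ag.Mg.G054
import Pool.Agent.Lib.MP_859dd5_ag.PP.N0

section

section

/-!
# Diagonal endomorphisms and good classes: formal properties
-/

namespace UnrA.Fer

open UnrG

universe u v w z

open Polynomial Finset
open scoped Classical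

variable {m : UFun.{u, z}} {𝔽 : Type w} [Field 𝔽] [Fintype 𝔽] (b : Base 𝔽)

variable {F M : Type u} [Field F] [Field M] [Algebra F M] (ι : 𝔽 →+* F) {r n : ℕ}
  {t : Fin r → M} {x y : Fin n → M}

lemma Good.zero {bb aa : Fin n → ℕ} : Good b F ι t x y bb aa (0 : KM m M) := by
  refine ⟨Unr.zero, ?_, ?_⟩
  · intro f g _ _ _ _
    rw [map_zero, map_zero]
  · intro a c f _ _
    exact Finset.sum_eq_zero fun i _ => map_zero _

lemma Good.add {bb aa : Fin n → ℕ} {Z Z' : KM m M} (h : Good b F ι t x y bb aa Z)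
    (h' : Good b F ι t x y bb aa Z') : Good b F ι t x y bb aa (Z + Z') := by
  refine ⟨h.unr.add h'.unr, ?_, ?_⟩
  · intro f g h1 h2 h3 h4
    rw [map_add, map_add, h.inv f g h1 h2 h3 h4, h'.inv f g h1 h2 h3 h4]
  · intro a c f hf hw
    simp only [map_add]
    rw [Finset.sum_add_distrib, h.new a c f hf hw, h'.new a c f hf hw, add_zero]

lemma Good.zsmul {bb aa : Fin n → ℕ} {Z : KM m M} (h : Good b F ι t x y bb aa Z) (c : ℤ) :
    Good b F ι t x y bb aa (c • Z) := by
  refine ⟨?_, ?_, ?_⟩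
  · exact h.unr.zsmul c
  · intro f g h1 h2 h3 h4
    rw [map_zsmul, map_zsmul, h.inv f g h1 h2 h3 h4]
  · intro a c' f hf hw
    simp only [map_zsmul]
    rw [← Finset.smul_sum, h.new a c' f hf hw, smul_zero]

lemma actL_pow (τ : M →+* M) (i : ℕ) (ξ : KM m M) :
    (actL m τ ^ i) ξ = KM.map m (τ ^ i) ξ := by
  induction i generalizing ξ with
  | zero =>
    rw [pow_zero, pow_zero]
    change ξ = KM.map m (RingHom.id M) ξ
    rw [KM.map_id]
    rfl
  | succ i ih =>
    rw [pow_succ, pow_succ]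
    change (actL m τ ^ i) (actL m τ ξ) = KM.map m ((τ ^ i).comp τ) ξ
    rw [ih, actL_apply, KM.map_map]

end UnrA.Fer
end

section

/-!
# Good classes are stable under the diagonal endomorphisms
-/

namespace UnrA.Fer

open UnrG

universe u v w z

open Polynomial Finset
open scoped Classical

variable {m : UFun.{u, z}} {𝔽 : Type w} [Field 𝔽] [Fintype 𝔽] (b : Base 𝔽)

variable {F M : Type u} [Field F] [Field M] [Algebra F M] (ι : 𝔽 →+* F) {r n : ℕ}
  {t : Fin r → M} {x y : Fin n → M}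

/-- The images of good classes under diagonal endomorphisms are good. Hint: `τ` multiplies the
monomial by a constant and fixes `x_j ^ N` (`ζ ^ N = 1`), so `f ∘ τ` and `g ∘ τ` agree on the
generators if `f`, `g` do; diagonal endomorphisms commute (`ProdData.ext`), so
`∑ f ^ i (τ Z) = τ (∑ f ^ i Z) = 0`. -/
lemma Good.map_diag (hP : ProdData (F := F) b t x y) {bb aa : Fin n → ℕ} {Z : KM m M}
    (h : Good b F ι t x y bb aa Z) {a c : Fin n → ℕ} {τ : M →+* M}
    (hτ : IsDiag b ι t x y a c τ) : Good b F ι t x y bb aa (KM.map m τ Z) := by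
  refine ⟨h.unr.map τ, fun f g h1 h2 h3 h4 => ?_, fun a' c' f hf hN => ?_⟩
  · rw [KM.map_map, KM.map_map]
    refine h.inv (f.comp τ) (g.comp τ) (fun a => ?_) (fun i => ?_) (fun j => ?_) ?_
    · rw [RingHom.comp_apply, RingHom.comp_apply, hτ.const]
      exact h1 a
    · rw [RingHom.comp_apply, RingHom.comp_apply, hτ.ft]
      exact h2 i
    · have h3' := h3 j
      rw [map_pow, map_pow] at h3'
      rw [RingHom.comp_apply, RingHom.comp_apply, map_pow, hτ.fx]
      simp only [map_pow, map_mul, mul_pow, h1, h3']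
    · rw [RingHom.comp_apply, RingHom.comp_apply, hτ.map_mono b ι, map_mul, map_mul, map_pow,
        map_pow, h1, h4]
  · have hcomm : ∀ i : ℕ, (f ^ i).comp τ = τ.comp (f ^ i) := by
      intro i
      have hi := hf.pow b ι i
      have e1 := hi.comp b ι hτ
      have e2 := hτ.comp b ι hi
      refine hP.ext b (fun a => ?_) (fun k => ?_) (fun k => ?_) (fun k => ?_)
      · rw [e1.const, e2.const]
      · rw [e1.ft, e2.ft]
      · rw [e1.fx, e2.fx, add_comm]
      · rw [e1.fy, e2.fy, add_comm]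
    have h1 : ∀ i ∈ range b.N, KM.map m (f ^ i) (KM.map m τ Z) =
        KM.map m τ (KM.map m (f ^ i) Z) := by
      intro i _
      rw [KM.map_map, KM.map_map, hcomm]
    rw [sum_congr rfl h1, ← map_sum, h.new a' c' f hf hN, map_zero]

/-- Hint: `Polynomial.induction_on`, `Good.add`, `Good.zsmul`, `Good.map_diag`, `actL_pow`,
`IsDiag.pow`. -/
lemma Good.aeval (hP : ProdData (F := F) b t x y) {bb aa : Fin n → ℕ} {Z : KM m M}
    (h : Good b F ι t x y bb aa Z) {a c : Fin n → ℕ} {τ : M →+* M}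
    (hτ : IsDiag b ι t x y a c τ) (P : ℤ[X]) :
    Good b F ι t x y bb aa (Polynomial.aeval (actL m τ) P Z) := by
  induction P using Polynomial.induction_on' with
  | add p q hp hq =>
    rw [map_add, LinearMap.add_apply]
    exact hp.add b ι hq
  | monomial k c =>
    rw [Polynomial.aeval_monomial, Module.End.mul_apply, actL_pow, Module.algebraMap_end_apply]
    exact (h.map_diag b ι hP (hτ.pow b ι k)).zsmul b ι c

end UnrA.Fer
end

section

/-!
# Existence of endomorphisms of the product (one coordinate, diagonal)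
-/

namespace UnrG

universe u v w

open Polynomial Finset
open scoped Classical

variable {m : ℕ} {𝔽 : Type w} [Field 𝔽] [Fintype 𝔽] (b : Base 𝔽)

variable {F M : Type u} [Field F] [Field M] [Algebra F M] (ι : 𝔽 →+* F) {r n : ℕ}
  {t : Fin r → M} {x y : Fin n → M}

/-- Existence of endomorphisms changing one coordinate. Hint: `IsFermat.exists_hom` for
`ProdData.isFermat`. -/
lemma ProdData.exists_fixBut (h : ProdData (F := F) b t x y) (hN : (b.N : M) ≠ 0) (j : Fin n)
    (x' y' : M) (heq : x' ^ b.N + y' ^ b.N = 1)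
    (htr : ∀ f : (others F t x y j)[X], f ≠ 0 → f.eval₂ (others F t x y j).subtype x' ≠ 0) :
    ∃ f : M →+* M, FixBut F t x y {j} f ∧ f (x j) = x' ∧ f (y j) = y' := by
  have hNK : (b.N : others F t x y j) ≠ 0 := by
    intro h0
    apply hN
    have h1 := congrArg (others F t x y j).subtype h0
    rwa [map_natCast, map_zero] at h1
  obtain ⟨f, hf, hfx, hfy⟩ := IsFermat.exists_hom b.N_pos hNK (ProdData.isFermat b h j)
    (others F t x y j).subtype x' y' heq htr
  have hfix : ∀ z ∈ others F t x y j, f z = z := fun z hz =>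
    congrArg (fun g : others F t x y j →+* M => g ⟨z, hz⟩) hf
  refine ⟨f, ⟨?_, ?_, ?_, ?_⟩, hfx, hfy⟩
  · intro a
    exact hfix _ (Subfield.subset_closure (Or.inl (Or.inl ⟨a, rfl⟩)))
  · intro i
    exact hfix _ (Subfield.subset_closure (Or.inl (Or.inr ⟨i, rfl⟩)))
  · intro i hi
    exact hfix _ (Subfield.subset_closure
      (Or.inr ⟨i, fun hij => hi (Finset.mem_singleton.mpr hij), Or.inl rfl⟩))
  · intro i hi
    exact hfix _ (Subfield.subset_closure
      (Or.inr ⟨i, fun hij => hi (Finset.mem_singleton.mpr hij), Or.inr rfl⟩))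

private lemma P2_step (h : ProdData (F := F) b t x y) (j : Fin n) (i k : ℕ) :
    ∃ f : M →+* M, IsDiag b ι t x y (Pi.single j i) (Pi.single j k) f := by
  have hζ : (algebraMap F M (ι b.ζ)) ^ b.N = 1 := by
    rw [← map_pow, ← map_pow, b.hζ.pow_eq_one, map_one, map_one]
  have hζ0 : algebraMap F M (ι b.ζ) ≠ 0 := by
    intro h0
    rw [h0, zero_pow b.N_pos.ne'] at hζ
    exact zero_ne_one hζ
  obtain ⟨c, hc⟩ : ∃ c : others F t x y j, (c : M) = algebraMap F M (ι b.ζ) :=
    ⟨⟨_, Subfield.subset_closure (Or.inl (Or.inl ⟨_, rfl⟩))⟩, rfl⟩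
  have hc0 : c ^ i ≠ 0 := by
    apply pow_ne_zero
    intro h0
    apply hζ0
    rw [← hc, h0]
    rfl
  obtain ⟨f, hf, hfx, hfy⟩ := ProdData.exists_fixBut b h (b.N_ne ((algebraMap F M).comp ι)) j
    (algebraMap F M (ι b.ζ) ^ i * x j) (algebraMap F M (ι b.ζ) ^ k * y j) (by
      rw [mul_pow, mul_pow, ← pow_mul, ← pow_mul, mul_comm i, mul_comm k, pow_mul, pow_mul, hζ,
        one_pow, one_pow, one_mul, one_mul, h.eq]) (by
      have h1 := transc_mul (ProdData.isFermat b h j).transc hc0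
      intro f hf
      have h2 := h1 f hf
      rwa [map_pow, Subfield.subtype_apply, hc] at h2)
  refine ⟨f, hf.const, hf.ft, ?_, ?_⟩
  · intro l
    by_cases hl : l = j
    · subst hl
      rw [hfx, Pi.single_eq_same]
    · rw [hf.fx l (fun h => hl (Finset.mem_singleton.mp h)), Pi.single_eq_of_ne hl, pow_zero,
        one_mul]
  · intro l
    by_cases hl : l = j
    · subst hl
      rw [hfy, Pi.single_eq_same]
    · rw [hf.fy l (fun h => hl (Finset.mem_singleton.mp h)), Pi.single_eq_of_ne hl, pow_zero,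
        one_mul]

/-- Hint: for each `j` the endomorphism `x_j ↦ ζ ^ (a j) x_j, y_j ↦ ζ ^ (c j) y_j` exists by
`exists_fixBut` and `transc_mul`; compose over all `j` (`Finset.induction_on` for the statement
with the exponents set to zero outside a finset `J`). -/
lemma ProdData.exists_diag (h : ProdData (F := F) b t x y) (a c : Fin n → ℕ) :
    ∃ f : M →+* M, IsDiag b ι t x y a c f := by
  have key : ∀ J : Finset (Fin n), ∃ f : M →+* M,
      IsDiag b ι t x y (fun i => if i ∈ J then a i else 0) (fun i => if i ∈ J then c i else 0)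
        f := by
    intro J
    induction J using Finset.induction_on with
    | empty =>
      refine ⟨RingHom.id M, fun _ => rfl, fun _ => rfl, ?_, ?_⟩
      · intro i
        simp
      · intro i
        simp
    | insert j J hj ih =>
      obtain ⟨f, hf⟩ := ih
      obtain ⟨g, hg⟩ := P2_step b ι h j (a j) (c j)
      refine ⟨g.comp f, ?_, ?_, ?_, ?_⟩
      · intro z
        rw [RingHom.comp_apply, hf.const, hg.const]
      · intro i
        rw [RingHom.comp_apply, hf.ft, hg.ft]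
      · intro i
        rw [RingHom.comp_apply, hf.fx, map_mul, map_pow, hg.const, hg.fx]
        by_cases hi : i = j
        · subst hi
          simp [hj]
        · simp [hi]
      · intro i
        rw [RingHom.comp_apply, hf.fy, map_mul, map_pow, hg.const, hg.fy]
        by_cases hi : i = j
        · subst hi
          simp [hj]
        · simp [hi]
  obtain ⟨f, hf⟩ := key univ
  refine ⟨f, ?_⟩
  simpa using hf

end UnrG
end

section

/-!
# Existence of endomorphisms of the product (Frobenius, correspondence)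
-/

namespace UnrG

universe u v w

open Polynomial Finset
open scoped Classical

variable {m : ℕ} {𝔽 : Type w} [Field 𝔽] [Fintype 𝔽] (b : Base 𝔽)

variable {F M : Type u} [Field F] [Field M] [Algebra F M] (ι : 𝔽 →+* F) {r n : ℕ}
  {t : Fin r → M} {x y : Fin n → M}

private lemma P3_add_pow {L : Type u} [Field L] (f : 𝔽 →+* L) (z w : L) :
    (z + w) ^ b.q = z ^ b.q + w ^ b.q := by
  obtain ⟨p, hp⟩ := CharP.exists 𝔽
  obtain ⟨k, hk, hq⟩ := FiniteField.card 𝔽 p
  have : Fact p.Prime := ⟨hk⟩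
  have hL : CharP L p := charP_of_injective_ringHom f.injective p
  rw [← b.card_q, hq]
  exact add_pow_char_pow z w p k

private lemma P3_frob_one (h : ProdData (F := F) b t x y) (ι : 𝔽 →+* F) (j : Fin n) :
    ∃ f : M →+* M, IsFrobAt b F t x y {j} f := by
  have hq : 0 < b.q := Nat.succ_pos _
  obtain ⟨f, hf, hfx, hfy⟩ := ProdData.exists_fixBut b h (b.N_ne ((algebraMap F M).comp ι)) j
    (x j ^ b.q) (y j ^ b.q) (by
      rw [← pow_mul, ← pow_mul, mul_comm b.q, pow_mul, pow_mul,
        ← P3_add_pow b ((algebraMap F M).comp ι), h.eq, one_pow])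
    (transc_pow (ProdData.isFermat b h j).transc hq)
  refine ⟨f, hf, ?_, ?_⟩
  · intro i hi
    rw [Finset.mem_singleton.mp hi]
    exact hfx
  · intro i hi
    rw [Finset.mem_singleton.mp hi]
    exact hfy

/-- Hint: for `J = {j}` use `exists_fixBut` with `x_j ^ q`, `y_j ^ q` (`x ^ N + y ^ N = 1` gives
`(x ^ q) ^ N + (y ^ q) ^ N = 1` since the `q`-th power map is additive, `FiniteField.card`,
`add_pow_char_pow`; `transc_pow`); compose over `J` by `Finset.induction_on`. -/
lemma ProdData.exists_frobAt (h : ProdData (F := F) b t x y) (ι : 𝔽 →+* F)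
    (J : Finset (Fin n)) :
    ∃ f : M →+* M, IsFrobAt b F t x y J f := by
  induction J using Finset.induction_on with
  | empty =>
    exact ⟨RingHom.id M, ⟨fun _ => rfl, fun _ => rfl, fun _ _ => rfl, fun _ _ => rfl⟩,
      fun i hi => absurd hi (Finset.notMem_empty i), fun i hi => absurd hi (Finset.notMem_empty i)⟩
  | insert j J hj ih =>
    obtain ⟨f, hf⟩ := ih
    obtain ⟨g, hg⟩ := P3_frob_one b h ι j
    have hgj : ∀ i, i ≠ j → i ∉ ({j} : Finset (Fin n)) := fun i hi h =>
      hi (Finset.mem_singleton.mp h)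
    refine ⟨g.comp f, ⟨?_, ?_, ?_, ?_⟩, ?_, ?_⟩
    · intro z
      rw [RingHom.comp_apply, hf.const, hg.const]
    · intro i
      rw [RingHom.comp_apply, hf.ft, hg.ft]
    · intro i hi
      rw [Finset.mem_insert, not_or] at hi
      rw [RingHom.comp_apply, hf.fx i hi.2, hg.fx i (hgj i hi.1)]
    · intro i hi
      rw [Finset.mem_insert, not_or] at hi
      rw [RingHom.comp_apply, hf.fy i hi.2, hg.fy i (hgj i hi.1)]
    · intro i hi
      rw [RingHom.comp_apply]
      by_cases hij : i = j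
      · subst hij
        rw [hf.fx i hj, hg.gx i (Finset.mem_singleton_self i)]
      · rw [hf.gx i (Finset.mem_of_mem_insert_of_ne hi hij), map_pow, hg.fx i (hgj i hij)]
    · intro i hi
      rw [RingHom.comp_apply]
      by_cases hij : i = j
      · subst hij
        rw [hf.fy i hj, hg.gy i (Finset.mem_singleton_self i)]
      · rw [hf.gy i (Finset.mem_of_mem_insert_of_ne hi hij), map_pow, hg.fy i (hgj i hij)]

/-- Hint: `exists_fixBut`, `transc_mul`, `(c ^ e) ^ N = 1` (`Base.pow_eq_one`). -/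
lemma ProdData.exists_gamma (h : ProdData (F := F) b t x y) (j : Fin n) (c : 𝔽) (hc : c ≠ 0)
    (hc1 : c ≠ 1) : ∃ f : M →+* M, IsGamma b ι t x y j c f := by
  have key : ∀ c : 𝔽, c ≠ 0 → (algebraMap F M (ι c) ^ b.e) ^ b.N = 1 := by
    intro c hc
    rw [← pow_mul, mul_comm, ← map_pow, ← map_pow, b.pow_eq_one hc, map_one, map_one]
  have hc' : 1 - c ≠ 0 := sub_ne_zero.mpr (Ne.symm hc1)
  obtain ⟨d, hd⟩ : ∃ d : others F t x y j, (d : M) = algebraMap F M (ι c) :=
    ⟨⟨_, Subfield.subset_closure (Or.inl (Or.inl ⟨_, rfl⟩))⟩, rfl⟩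
  have hd0 : d ^ b.e ≠ 0 := by
    apply pow_ne_zero
    intro h0
    have h1 : algebraMap F M (ι c) = 0 := by
      rw [← hd, h0]
      rfl
    exact hc ((map_eq_zero ι).mp ((map_eq_zero (algebraMap F M)).mp h1))
  obtain ⟨f, hf, hfx, hfy⟩ := ProdData.exists_fixBut b h (b.N_ne ((algebraMap F M).comp ι)) j
    (algebraMap F M (ι c) ^ b.e * x j) (algebraMap F M (ι (1 - c)) ^ b.e * y j) (by
      rw [mul_pow, mul_pow, key c hc, key (1 - c) hc', one_mul, one_mul, h.eq]) (by
      have h1 := transc_mul (ProdData.isFermat b h j).transc hd0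
      intro f hf
      have h2 := h1 f hf
      rwa [map_pow, Subfield.subtype_apply, hd] at h2)
  exact ⟨f, hf, hfx, hfy⟩

end UnrG
end

section

/-!
# The family of correspondences over the field of rational functions in two variables
-/

namespace UnrA.Fer

open UnrG

universe u v w z

open Polynomial Finset
open scoped Classical

variable {m : UFun.{u, z}}

/-- Relations between unramified classes specialize. -/
theorem spec_sum_eq (hs : m.Specializes) {K M L : Type u} [Field K] [Field M] [Field L]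
    {ι : Type*} (T : Finset ι) (f : ι → (M →+* PowerSeries K)) (g : L →+* PowerSeries K) (D : ℕ)
    {x : KM m M} (hx : Unr x) {y : KM m L} (hy : Unr y)
    (h0 : D • ∑ i ∈ T, KM.map m ((HahnSeries.ofPowerSeries ℤ K).comp (f i)) x =
      KM.map m ((HahnSeries.ofPowerSeries ℤ K).comp g) y) :
    D • ∑ i ∈ T, KM.map m ((PowerSeries.constantCoeff (R := K)).comp (f i)) x =
      KM.map m ((PowerSeries.constantCoeff (R := K)).comp g) y := by
  obtain ⟨s, hs⟩ := hs.exists_hom K
  have hmem : ∀ i, KM.map m ((HahnSeries.ofPowerSeries ℤ K).comp (f i)) x ∈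
      m.nr (LaurentSeries K) := fun i => hx.map _
  have hmem' : KM.map m ((HahnSeries.ofPowerSeries ℤ K).comp g) y ∈
      m.nr (LaurentSeries K) := hy.map _
  have h1 : D • ∑ i ∈ T, (⟨_, hmem i⟩ : m.nr (LaurentSeries K)) = ⟨_, hmem'⟩ := by
    apply Subtype.ext
    rw [AddSubgroup.coe_nsmul, AddSubgroup.val_finsetSum]
    exact h0
  have h2 := congrArg s h1
  rw [map_nsmul, map_sum] at h2
  have h3 : s ⟨_, hmem'⟩ = KM.map m ((PowerSeries.constantCoeff (R := K)).comp g) y :=
    hs L g y hy hmem'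
  have h4 : ∀ i, s ⟨_, hmem i⟩ = KM.map m ((PowerSeries.constantCoeff (R := K)).comp (f i)) x :=
    fun i => hs M (f i) x hx (hmem i)
  rw [h3, Finset.sum_congr rfl fun i _ => h4 i] at h2
  exact h2

section famPoly

variable {R R' : Type*} [CommRing R] [CommRing R']

/-- The polynomial whose roots are the parameters of the correspondence in the point with powers
`A`, `B`. -/
noncomputable def famPoly (l : ℕ) (A B : R) : R[X] := C A * X ^ l + C B * (1 - X) ^ l - 1

lemma famPoly_map (l : ℕ) (A B : R) (g : R →+* R') :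
    (famPoly l A B).map g = famPoly l (g A) (g B) := by
  simp [famPoly]

lemma natDegree_famPoly_le (l : ℕ) (A B : R) : (famPoly l A B).natDegree ≤ l := by
  unfold famPoly
  refine (natDegree_sub_le _ _).trans (max_le ((natDegree_add_le _ _).trans (max_le ?_ ?_)) ?_)
  · exact natDegree_C_mul_X_pow_le A l
  · refine (natDegree_C_mul_le _ _).trans (natDegree_pow_le.trans ?_)
    have h1 : (1 - X : R[X]).natDegree ≤ 1 :=
      (natDegree_sub_le _ _).trans (max_le (by simp) natDegree_X_le)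
    calc l * (1 - X : R[X]).natDegree ≤ l * 1 := Nat.mul_le_mul_left l h1
      _ = l := mul_one l
  · simp

lemma famPoly_eval (l : ℕ) (A B v : R) :
    (famPoly l A B).eval v = A * v ^ l + B * (1 - v) ^ l - 1 := by
  simp [famPoly]

end famPoly

lemma exists_ratHom {K : Type u} {E : Type v} [Field K] [Field E] (j : K →+* E) {t : E}
    (ht : ∀ f : K[X], f ≠ 0 → f.eval₂ j t ≠ 0) :
    ∃ g : RatFunc K →+* E, g.comp (algebraMap K (RatFunc K)) = j ∧ g RatFunc.X = t := by
  have hinj : Function.Injective (eval₂RingHom j t) := by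
    rw [injective_iff_map_eq_zero]
    intro f hf
    by_contra hne
    exact ht f hne hf
  let g : RatFunc K →+* E := IsFractionRing.lift hinj
  have hg : ∀ p : K[X], g (algebraMap K[X] (RatFunc K) p) = p.eval₂ j t := fun p =>
    IsFractionRing.lift_algebraMap hinj p
  refine ⟨g, ?_, ?_⟩
  · ext a
    rw [RingHom.comp_apply, IsScalarTower.algebraMap_apply K K[X] (RatFunc K), hg]
    simp
  · rw [← RatFunc.algebraMap_X, hg, eval₂_X]

/-- The field of rational functions in `a`, `b` maps to the field of Laurent series over the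
function field of the Fermat curve by `a ↦ x`, `b ↦ y + T`. -/
theorem exists_theta {N : ℕ} {K M : Type u} [Field K] [Field M] {j : K →+* M} {x y : M}
    (h : IsFermat N j x y) :
    ∃ Θ : RatFunc (RatFunc K) →+* LaurentSeries M,
      (∀ k : K, Θ (algebraMap (RatFunc K) (RatFunc (RatFunc K))
        (algebraMap K (RatFunc K) k)) = HahnSeries.C (j k)) ∧
      Θ (algebraMap (RatFunc K) (RatFunc (RatFunc K)) RatFunc.X) = HahnSeries.C x ∧
      Θ RatFunc.X = HahnSeries.C y + lT M := by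
  obtain ⟨g, hg1, hg2⟩ := exists_ratHom j h.transc
  have htr : ∀ f : (RatFunc K)[X], f ≠ 0 →
      f.eval₂ ((HahnSeries.C : M →+* LaurentSeries M).comp g) (HahnSeries.C y + lT M) ≠ 0 := by
    intro f hf h0
    have h1 : f.map g ≠ 0 := (Polynomial.map_ne_zero_iff g.injective).mpr hf
    have h2 := lau_algebraMap y (f.map g)
    rw [eval₂_map, h0] at h2
    have h3 := (map_eq_zero (lau y)).mp h2
    exact h1 ((map_eq_zero_iff _ (IsFractionRing.injective M[X] (RatFunc M))).mp h3)
  obtain ⟨Θ, hΘ1, hΘ2⟩ := exists_ratHom _ htr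
  refine ⟨Θ, fun k => ?_, ?_, hΘ2⟩
  · rw [← RingHom.comp_apply Θ, hΘ1, RingHom.comp_apply, ← RingHom.comp_apply g, hg1]
  · rw [← RingHom.comp_apply Θ, hΘ1, RingHom.comp_apply, hg2]

/-- The roots of a polynomial in a splitting field and in a larger field. -/
theorem exists_roots_bij {K S E : Type*} [Field K] [Field S] [Field E] [Algebra K S]
    (Θ : K →+* E) (Θ' : S →+* E) (hΘ : Θ'.comp (algebraMap K S) = Θ) (P : K[X]) (hP0 : P ≠ 0)
    (hspl : (P.map (algebraMap K S)).Splits) {ι : Type*} (T : Finset ι) (w : ι → E)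
    (hw : Set.InjOn w T) {a : E} (ha : a ≠ 0)
    (hP : P.map Θ = C a * ∏ c ∈ T, (X - C (w c))) :
    ∃ r : ι → S, (∀ c ∈ T, Θ' (r c) = w c) ∧ (∀ c ∈ T, aeval (r c) P = 0) ∧
      (∀ v : S, aeval v P = 0 → ∃ c ∈ T, v = r c) ∧
      ∀ {A : Type*} [AddCommMonoid A] (G : S → A),
        ∑ v ∈ (P.rootSet S).toFinset, G v = ∑ c ∈ T, G (r c) := by
  have hroot : ∀ v : S, v ∈ (P.rootSet S).toFinset ↔ aeval v P = 0 := by
    intro v
    rw [Set.mem_toFinset, mem_rootSet]
    exact ⟨fun h => h.2, fun h => ⟨hP0, h⟩⟩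
  have hmap : (P.map (algebraMap K S)).map Θ' = C a * ∏ c ∈ T, (X - C (w c)) := by
    rw [Polynomial.map_map, hΘ, hP]
  have h0 : P.map (algebraMap K S) ≠ 0 := (Polynomial.map_ne_zero_iff (algebraMap K S).injective).mpr hP0
  have h0' : (P.map (algebraMap K S)).map Θ' ≠ 0 := (Polynomial.map_ne_zero_iff Θ'.injective).mpr h0
  have key : ∀ c : ι, ∃ r : S, c ∈ T → Θ' r = w c ∧ aeval r P = 0 := by
    intro c
    by_cases hc : c ∈ T
    · have h1 : w c ∈ ((P.map (algebraMap K S)).map Θ').roots := by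
        rw [mem_roots h0', IsRoot.def, hmap, eval_mul, eval_prod, Finset.prod_eq_zero hc, mul_zero]
        simp
      rw [hspl.roots_map Θ'] at h1
      obtain ⟨r, hr, hrc⟩ := Multiset.mem_map.mp h1
      refine ⟨r, fun _ => ⟨hrc, ?_⟩⟩
      rw [mem_roots h0, IsRoot.def, eval_map, ← aeval_def] at hr
      exact hr
    · exact ⟨0, fun h => absurd h hc⟩
  choose r hr using key
  have hex : ∀ v : S, aeval v P = 0 → ∃ c ∈ T, v = r c := by
    intro v hv
    have h1 : ((P.map (algebraMap K S)).map Θ').eval (Θ' v) = 0 := by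
      rw [eval_map, eval₂_at_apply, eval_map, ← aeval_def, hv, map_zero]
    rw [hmap, eval_mul, eval_C, mul_eq_zero, eval_prod, Finset.prod_eq_zero_iff] at h1
    rcases h1 with h1 | ⟨c, hc, h1⟩
    · exact absurd h1 ha
    · refine ⟨c, hc, Θ'.injective ?_⟩
      rw [(hr c hc).1]
      simpa [sub_eq_zero] using h1
  refine ⟨r, fun c hc => (hr c hc).1, fun c hc => (hr c hc).2, hex, fun G => ?_⟩
  symm
  refine Finset.sum_bij (fun c _ => r c) ?_ ?_ ?_ ?_
  · intro c hc
    rw [hroot]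
    exact (hr c hc).2
  · intro c hc c' hc' h
    apply hw hc hc'
    rw [← (hr c hc).1, ← (hr c' hc').1, h]
  · intro v hv
    obtain ⟨c, hc, h1⟩ := hex v ((hroot v).mp hv)
    exact ⟨c, hc, h1.symm⟩
  · intro c _
    rfl

end UnrA.Fer
end

section

/-!
# The trace of the family of correspondences
-/

namespace UnrA.Fer

open UnrG

universe u v w z

open Polynomial Finset
open scoped Classical

variable {m : UFun.{u, z}} {𝔽 : Type w} [Field 𝔽] [Fintype 𝔽] (b : Base 𝔽)

lemma card_normSet {K M : Type u} [Field K] [Field M] (ι : 𝔽 →+* K) {j : K →+* M} {x y : M}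
    (h : IsFermat b.N j x y) : (normSet (j.comp ι) (x ^ b.N)).card = b.N * b.e := by
  have hu : x ^ b.N ∉ (univ.filter (fun c : 𝔽 => c ≠ 0 ∧ c ≠ 1)).image (j.comp ι) := by
    intro h1
    obtain ⟨c, -, hc⟩ := Finset.mem_image.mp h1
    exact h.pow_ne b.N_pos (ι c) hc.symm
  have h1 : univ.filter (fun c : 𝔽 => c ≠ 0 ∧ c ≠ 1) = (univ.erase 0).erase 1 := by
    ext c
    simp [and_comm]
  rw [normSet, Finset.card_insert_of_notMem hu,
    Finset.card_image_of_injective _ (j.comp ι).injective, h1,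
    Finset.card_erase_of_mem (Finset.mem_erase.mpr ⟨one_ne_zero, mem_univ _⟩),
    Finset.card_erase_of_mem (mem_univ _), Finset.card_univ, b.card]
  have h2 := Nat.mul_pos b.N_pos b.e_pos
  omega

lemma famPoly_reduction {K M : Type u} [Field K] [Field M] (ι : 𝔽 →+* K) {j : K →+* M} {x y : M}
    (h : IsFermat b.N j x y) : famPoly (b.N * b.e) (x ^ b.N) (y ^ b.N) =
      ∏ c ∈ normSet (j.comp ι) (x ^ b.N), (X - C c) := by
  have hu : x ^ b.N ∉ (univ.filter (fun c : 𝔽 => c ≠ 0 ∧ c ≠ 1)).image (j.comp ι) := by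
    intro h1
    obtain ⟨c, -, hc⟩ := Finset.mem_image.mp h1
    exact h.pow_ne b.N_pos (ι c) hc.symm
  have hy : y ^ b.N = 1 - x ^ b.N := by rw [← h.eq]; ring
  have h1 := normPoly_eq b (j.comp ι) (x ^ b.N)
  have h2 : famPoly (b.N * b.e) (x ^ b.N) (y ^ b.N) = -normPoly b (x ^ b.N) := by
    rw [hy, famPoly, normPoly, C_sub, C_1]
    ring
  rw [h2, h1, neg_neg, normSet, Finset.prod_insert hu,
    Finset.prod_image fun c _ c' _ hcc => (j.comp ι).injective hcc]

/-- **The trace of the family of correspondences.** -/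
theorem frob_family (hs : m.Specializes) {K M : Type u} [Field K] [Field M] (ι : 𝔽 →+* K)
    (j : K →+* M) {x y : M} (h : IsFermat b.N j x y) {ξ : KM m M} (hξ : Unr ξ)
    (γ : M → (M →+* M)) (hγj : ∀ c ∈ normSet (j.comp ι) (x ^ b.N), (γ c).comp j = j)
    (hγx : ∀ c ∈ normSet (j.comp ι) (x ^ b.N), γ c x = x * c ^ b.e)
    (hγy : ∀ c ∈ normSet (j.comp ι) (x ^ b.N), γ c y = y * (1 - c) ^ b.e) :
    ∃ (D : ℕ) (y₂ : KM m K), D ∣ (b.N * b.e).factorial ∧
      (D * D) • ∑ c ∈ normSet (j.comp ι) (x ^ b.N), KM.map m (γ c) ξ = KM.map m j y₂ := by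
  obtain ⟨T, hT⟩ : ∃ T : Finset M, T = normSet (j.comp ι) (x ^ b.N) := ⟨_, rfl⟩
  rw [← hT] at hγj hγx hγy ⊢
  obtain ⟨Θ, hΘk, hΘa, hΘb⟩ := exists_theta h
  obtain ⟨i₂, hi₂⟩ : ∃ i₂ : K →+* RatFunc (RatFunc K),
      i₂ = (algebraMap (RatFunc K) (RatFunc (RatFunc K))).comp (algebraMap K (RatFunc K)) :=
    ⟨_, rfl⟩
  have hΘi : ∀ k : K, Θ (i₂ k) = HahnSeries.C (j k) := fun k => by rw [hi₂]; exact hΘk k
  obtain ⟨a, ha⟩ : ∃ a : RatFunc (RatFunc K),
      a = algebraMap (RatFunc K) (RatFunc (RatFunc K)) RatFunc.X := ⟨_, rfl⟩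
  rw [← ha] at hΘa
  obtain ⟨a', ha'⟩ : ∃ a' : RatFunc (RatFunc K), a' = RatFunc.X := ⟨_, rfl⟩
  rw [← ha'] at hΘb
  obtain ⟨P, hP⟩ : ∃ P : (RatFunc (RatFunc K))[X],
      P = famPoly (b.N * b.e) (a ^ b.N) (a' ^ b.N) := ⟨_, rfl⟩
  -- power series
  have hC : ∀ c : M, HahnSeries.ofPowerSeries ℤ M (PowerSeries.C c) = HahnSeries.C c := fun c =>
    HahnSeries.ofPowerSeries_C c
  have hX : HahnSeries.ofPowerSeries ℤ M PowerSeries.X = lT M := HahnSeries.ofPowerSeries_X
  have hcc : ∀ c : M, (PowerSeries.constantCoeff (R := M)) (PowerSeries.C c) = c := fun c => by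
    simp
  obtain ⟨f, hf⟩ : ∃ f : (PowerSeries M)[X], f = famPoly (b.N * b.e) (PowerSeries.C (x ^ b.N))
      ((PowerSeries.C y + PowerSeries.X) ^ b.N) := ⟨_, rfl⟩
  have hfd : f.natDegree ≤ T.card := by
    rw [hT, card_normSet b ι h, hf]
    exact natDegree_famPoly_le _ _ _
  have hfm : f.map (PowerSeries.constantCoeff (R := M)) = ∏ c ∈ T, (X - C c) := by
    rw [hf, famPoly_map, hT, ← famPoly_reduction b ι h, hcc]
    congr 1
    simp
  obtain ⟨v, hv, hlc, hfac⟩ := exists_roots_ps f T hfd hfm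
  have hofi : Function.Injective (HahnSeries.ofPowerSeries ℤ M) :=
    HahnSeries.ofPowerSeries_injective
  have hPmap : P.map Θ = C (HahnSeries.ofPowerSeries ℤ M f.leadingCoeff) *
      ∏ c ∈ T, (X - C (HahnSeries.ofPowerSeries ℤ M (v c))) := by
    have h1 : P.map Θ = f.map (HahnSeries.ofPowerSeries ℤ M) := by
      rw [hP, hf, famPoly_map, famPoly_map, map_pow Θ, map_pow Θ, hΘa, hΘb, hC,
        map_pow (HahnSeries.ofPowerSeries ℤ M), map_add (HahnSeries.ofPowerSeries ℤ M), hC, hX,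
        map_pow (HahnSeries.C : M →+* LaurentSeries M)]
    rw [h1]
    conv_lhs => rw [hfac]
    rw [Polynomial.map_mul, map_C, Polynomial.map_prod]
    congr 1
    refine Finset.prod_congr rfl fun c _ => ?_
    rw [Polynomial.map_sub, map_X, map_C]
  have hvinj : Set.InjOn (fun c => HahnSeries.ofPowerSeries ℤ M (v c)) T := by
    intro c hc c' hc' h1
    have h2 := hofi h1
    rw [← hv c hc, ← hv c' hc', h2]
  have hlc' : HahnSeries.ofPowerSeries ℤ M f.leadingCoeff ≠ 0 := by
    rw [Ne, map_eq_zero_iff _ hofi]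
    exact hlc
  have hsep : P.Separable := by
    rw [← separable_map Θ, hPmap]
    refine Separable.unit_mul ?_ ?_
    · exact isUnit_C.mpr (isUnit_iff_ne_zero.mpr hlc')
    · rw [separable_prod_X_sub_C_iff']
      exact fun c hc c' hc' h1 => hvinj hc hc' h1
  have hP0 : P ≠ 0 := hsep.ne_zero
  have hsplE : (P.map Θ).Splits := by
    rw [hPmap]
    exact (Splits.prod fun c _ => Splits.X_sub_C _).C_mul _
  -- the splitting field
  obtain ⟨S, hSf, hSa, hSs, Θ', hΘ'⟩ : ∃ (S : Type u) (_ : Field S)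
      (_ : Algebra (RatFunc (RatFunc K)) S) (_ : P.IsSplittingField (RatFunc (RatFunc K)) S)
      (Θ' : S →+* LaurentSeries M), Θ'.comp (algebraMap (RatFunc (RatFunc K)) S) = Θ := by
    let _ : Algebra (RatFunc (RatFunc K)) (LaurentSeries M) := Θ.toAlgebra
    refine ⟨P.SplittingField, inferInstance, inferInstance, inferInstance,
      (SplittingField.lift P hsplE : P.SplittingField →ₐ[RatFunc (RatFunc K)]
        LaurentSeries M).toRingHom, ?_⟩
    exact AlgHom.comp_algebraMap _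
  obtain ⟨g, hg⟩ : ∃ g : RatFunc (RatFunc K) →+* S, g = algebraMap _ _ := ⟨_, rfl⟩
  obtain ⟨r, hr1, hr2, hr3, hr4⟩ := exists_roots_bij Θ Θ' hΘ' P hP0
    (IsSplittingField.splits S P) T (fun c => HahnSeries.ofPowerSeries ℤ M (v c)) hvinj hlc' hPmap
  have hΘg : ∀ z, Θ' (g z) = Θ z := fun z => by
    rw [hg]
    exact congrArg (fun f : RatFunc (RatFunc K) →+* LaurentSeries M => f z) hΘ'
  have hPev : ∀ s : S, aeval s P = 0 →
      g a ^ b.N * s ^ (b.N * b.e) + g a' ^ b.N * (1 - s) ^ (b.N * b.e) = 1 := by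
    intro s hs0
    rw [aeval_def, ← eval_map, hP, famPoly_map, famPoly_eval, ← hg, map_pow, map_pow,
      sub_eq_zero] at hs0
    exact hs0
  -- the homomorphisms
  have hψ1 : ∀ c ∈ T, ∃ ψ : M →+* S, ψ.comp j = g.comp i₂ ∧ ψ x = g a * r c ^ b.e ∧
      ψ y = g a' * (1 - r c) ^ b.e := by
    intro c hc
    refine IsFermat.exists_hom b.N_pos (b.N_ne ι) h (g.comp i₂) _ _ ?_ ?_
    · rw [mul_pow, mul_pow, ← pow_mul, ← pow_mul, mul_comm b.e]
      exact hPev _ (hr2 c hc)
    · intro q hq h0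
      have h1 := congrArg Θ' h0
      rw [hom_eval₂, map_zero, map_mul, map_pow, hr1 c hc, hΘg, hΘa, ← hC, ← map_pow,
        ← map_mul] at h1
      have h2 : Θ'.comp (g.comp i₂) = (HahnSeries.ofPowerSeries ℤ M).comp
          ((PowerSeries.C (R := M)).comp j) := by
        ext1 k
        rw [RingHom.comp_apply, RingHom.comp_apply, hΘg, hΘi, RingHom.comp_apply,
          RingHom.comp_apply, hC]
      rw [h2, ← hom_eval₂, map_eq_zero_iff _ hofi] at h1
      have h3 := congrArg (PowerSeries.constantCoeff (R := M)) h1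
      rw [hom_eval₂, map_zero, map_mul, map_pow, hv c hc, hcc, ← hγx c hc] at h3
      have h4 : (PowerSeries.constantCoeff (R := M)).comp ((PowerSeries.C (R := M)).comp j) =
          (γ c).comp j := by
        rw [hγj c hc]
        ext1 k
        exact hcc (j k)
      rw [h4, ← hom_eval₂, map_eq_zero] at h3
      exact h.transc q hq h3
  have hT0 : x ^ b.N ∈ T := by
    rw [hT]
    exact Finset.mem_insert_self _ _
  have hψ2 : ∀ s : S, ∃ ψ : M →+* S, aeval s P = 0 → ψ.comp j = g.comp i₂ ∧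
      ψ x = g a * s ^ b.e ∧ ψ y = g a' * (1 - s) ^ b.e := by
    intro s
    by_cases hs0 : aeval s P = 0
    · obtain ⟨c, hc, rfl⟩ := hr3 s hs0
      obtain ⟨ψ, hψ⟩ := hψ1 c hc
      exact ⟨ψ, fun _ => hψ⟩
    · obtain ⟨ψ, -⟩ := hψ1 _ hT0
      exact ⟨ψ, fun h => absurd h hs0⟩
  choose ψ hψ using hψ2
  have hσ : ∀ (σ : S ≃ₐ[RatFunc (RatFunc K)] S) (s : S), aeval s P = 0 →
      (σ : S →+* S).comp (ψ s) = ψ (σ s) := by
    intro σ s hs0
    have hσs : aeval (σ s) P = 0 := by
      have h1 : aeval (σ s) P = σ (aeval s P) :=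
        aeval_algHom_apply (σ : S →ₐ[RatFunc (RatFunc K)] S) s P
      rw [h1, hs0, map_zero]
    obtain ⟨e1, e2, e3⟩ := hψ s hs0
    obtain ⟨e4, e5, e6⟩ := hψ (σ s) hσs
    have hσg : ∀ z, σ (g z) = g z := fun z => by
      rw [hg]
      exact σ.commutes z
    refine h.hom_ext ?_ ?_ ?_
    · rw [RingHom.comp_assoc, e1, e4]
      ext1 k
      exact hσg _
    · rw [RingHom.comp_apply, e2, e5]
      change σ (g a * s ^ b.e) = _
      rw [map_mul, map_pow, hσg]
    · rw [RingHom.comp_apply, e3, e6]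
      change σ (g a' * (1 - s) ^ b.e) = _
      rw [map_mul, map_pow, hσg, map_sub, map_one]
  obtain ⟨D, y₁, hD, hy₁u, hy₁⟩ := family_trace P hsep
    (hP ▸ natDegree_famPoly_le _ _ _) ψ hσ hξ
  obtain ⟨y₁', hy₁'u, hy₁'⟩ := unr_ratFunc hy₁u
  obtain ⟨y₂, hy₂u, hy₂⟩ := unr_ratFunc hy₁'u
  refine ⟨D, y₂, hD, ?_⟩
  have hy : KM.map m i₂ y₂ = y₁ := by
    rw [hi₂, ← KM.map_map, hy₂, hy₁']
  -- the homomorphisms to the power series
  have hf2 : ∀ c : M, ∃ f : M →+* PowerSeries M, c ∈ T →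
      (HahnSeries.ofPowerSeries ℤ M).comp f = Θ'.comp (ψ (r c)) ∧
        (PowerSeries.constantCoeff (R := M)).comp f = γ c := by
    intro c
    by_cases hc : c ∈ T
    · obtain ⟨e1, e2, e3⟩ := hψ _ (hr2 c hc)
      obtain ⟨f, hf⟩ := exists_ps_lift h.gen (Θ'.comp (ψ (r c))) (γ c) (by
        rintro z (⟨k, rfl⟩ | rfl | rfl)
        · refine ⟨PowerSeries.C (j k), ?_, ?_⟩
          · rw [hC, ← hΘi, ← hΘg, RingHom.comp_apply, ← RingHom.comp_apply (ψ (r c)), e1]
            rfl
          · rw [hcc, ← RingHom.comp_apply (γ c), hγj c hc]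
        · refine ⟨PowerSeries.C z * v c ^ b.e, ?_, ?_⟩
          · rw [RingHom.comp_apply, e2, map_mul, map_pow, hC, map_mul, map_pow, hΘg, hΘa,
              hr1 c hc]
          · rw [map_mul, map_pow, hcc, hv c hc, hγx c hc]
        · refine ⟨(PowerSeries.C z + PowerSeries.X) * (1 - v c) ^ b.e, ?_, ?_⟩
          · rw [RingHom.comp_apply, e3, map_mul, map_pow, map_add, hC, hX, map_mul, map_pow, hΘg,
              hΘb, map_sub, map_sub, map_one, map_one, hr1 c hc]
          · rw [map_mul, map_pow, map_add, hcc, map_sub, map_one, hv c hc, hγy c hc,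
              PowerSeries.constantCoeff_X, add_zero])
      exact ⟨f, fun _ => hf⟩
    · exact ⟨(PowerSeries.C (R := M)), fun h => absurd h hc⟩
  choose f' hf' using hf2
  have h0 : (D * D) • ∑ c ∈ T, KM.map m ((HahnSeries.ofPowerSeries ℤ M).comp (f' c)) ξ =
      KM.map m ((HahnSeries.ofPowerSeries ℤ M).comp ((PowerSeries.C (R := M)).comp j)) y₂ := by
    have h1 := congrArg (KM.map m Θ') hy₁
    rw [map_nsmul, map_sum, hr4, KM.map_map, hΘ', ← hy, KM.map_map] at h1
    have h2 : (HahnSeries.ofPowerSeries ℤ M).comp ((PowerSeries.C (R := M)).comp j) =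
        Θ.comp i₂ := by
      ext1 k
      rw [RingHom.comp_apply, RingHom.comp_apply, hC, RingHom.comp_apply, hΘi]
    rw [h2, h1]
    congr 1
    refine Finset.sum_congr rfl fun c hc => ?_
    rw [(hf' c hc).1, KM.map_map]
  have h1 := spec_sum_eq hs T f' ((PowerSeries.C (R := M)).comp j) (D * D) hξ hy₂u h0
  have h2 : (PowerSeries.constantCoeff (R := M)).comp ((PowerSeries.C (R := M)).comp j) = j := by
    ext1 k
    exact hcc (j k)
  rw [h2] at h1
  rw [← h1]
  congr 1
  refine Finset.sum_congr rfl fun c hc => ?_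
  rw [(hf' c hc).2]

end UnrA.Fer
end

section

/-!
# Monomial subfields: good classes
-/

namespace UnrG

universe u v w

open Polynomial Finset
open scoped Classical

variable {m : ℕ} {𝔽 : Type w} [Field 𝔽] [Fintype 𝔽] (b : Base 𝔽)

variable {F M : Type u} [Field F] [Field M] [Algebra F M] (ι : 𝔽 →+* F) {r n : ℕ}
  {t : Fin r → M} {x y : Fin n → M}

variable {bb aa : Fin n → ℕ} {E : Type u} [Field E] {i : E →+* M}

lemma MonoEmb.hom_eq (h : MonoEmb b F t x y bb aa i) {E' : Type v} [Field E'] {f g : M →+* E'}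
    (h1 : ∀ a : F, f (algebraMap F M a) = g (algebraMap F M a)) (h2 : ∀ k, f (t k) = g (t k))
    (h3 : ∀ j, f (x j ^ b.N) = g (x j ^ b.N)) (h4 : f (mono x y bb aa) = g (mono x y bb aa)) :
    f.comp i = g.comp i := by
  have h5 : i.fieldRange ≤ f.eqLocusField g := by
    refine h.gen.trans ?_
    rw [Subfield.closure_le]
    rintro z (((⟨a, rfl⟩ | ⟨k, rfl⟩) | ⟨j, rfl⟩) | rfl)
    · exact h1 a
    · exact h2 k
    · exact h3 j
    · exact h4
  ext e
  exact h5 ⟨e, rfl⟩

/-- A homomorphism respecting the generators restricts to the subfield. -/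
lemma MonoEmb.exists_restrict (h : MonoEmb b F t x y bb aa i) {f : M →+* M}
    (h1 : ∀ a : F, f (algebraMap F M a) ∈ i.fieldRange) (h2 : ∀ k, f (t k) ∈ i.fieldRange)
    (h3 : ∀ j, f (x j ^ b.N) ∈ i.fieldRange) (h4 : f (mono x y bb aa) ∈ i.fieldRange) :
    ∃ g : E →+* E, f.comp i = i.comp g := by
  have h5 : i.fieldRange ≤ i.fieldRange.comap f := by
    refine h.gen.trans ?_
    rw [Subfield.closure_le]
    rintro z (((⟨a, rfl⟩ | ⟨k, rfl⟩) | ⟨j, rfl⟩) | rfl)
    · exact h1 a
    · exact h2 k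
    · exact h3 j
    · exact h4
  have h6 : ∀ e : E, ∃ e' : E, i e' = f (i e) := fun e => h5 ⟨e, rfl⟩
  choose g hg using h6
  have hi := i.injective
  refine ⟨⟨⟨⟨g, ?_⟩, ?_⟩, ?_, ?_⟩, ?_⟩
  · apply hi
    rw [hg, map_one, map_one]
  · intro a c
    apply hi
    rw [hg, map_mul, map_mul, map_mul]
    change _ = i (g a) * i (g c)
    rw [hg, hg]
  · apply hi
    change i (g 0) = i 0
    rw [hg, map_zero, map_zero]
  · intro a c
    apply hi
    change i (g (a + c)) = i (g a + g c)
    rw [hg, map_add, map_add, map_add, hg, hg]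
  · ext e
    exact (hg e).symm

/-- Hint: `Unr.map`; `inv` by `MonoEmb.hom_eq`; `new`: a diagonal endomorphism `f` restricts to
`g : E →+* E` (`exists_restrict`), `f ^ l ∘ i = i ∘ g ^ l`, and `hnew` applies to `g` with
`k = wt bb aa a c` (`IsDiag.map_mono`). -/
lemma MonoEmb.good (h : MonoEmb b F t x y bb aa i) {z : KM m E}
    (hz : Unr z) (hnew : NewCls b F ι t x y bb aa i z) :
    Good b F ι t x y bb aa (KM.map m i z) := by
  refine ⟨hz.map i, ?_, ?_⟩
  · intro f g h1 h2 h3 h4
    rw [KM.map_map, KM.map_map, h.hom_eq b h1 h2 h3 h4]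
  · intro a c f hf hwt
    have hζ : algebraMap F M (ι b.ζ) ^ b.N = 1 := by
      rw [← map_pow, ← map_pow, b.hζ.pow_eq_one, map_one, map_one]
    have hx : ∀ j, f (x j ^ b.N) = x j ^ b.N := by
      intro j
      rw [map_pow, hf.fx, mul_pow, ← pow_mul, mul_comm (a j), pow_mul, hζ, one_pow, one_mul]
    obtain ⟨g, hg⟩ := h.exists_restrict b (f := f)
      (fun a => by rw [hf.const]; exact h.const a)
      (fun k => by rw [hf.ft]; exact h.t_mem k)
      (fun j => by rw [hx]; exact h.x_mem j)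
      (by
        rw [hf.map_mono b ι]
        exact mul_mem (pow_mem (h.const _) _) h.w_mem)
    have hg' : ∀ e, f (i e) = i (g e) := fun e => congrArg (fun f : E →+* M => f e) hg
    have hpow : ∀ l, (f ^ l).comp i = i.comp (g ^ l) := by
      intro l
      induction l with
      | zero => rfl
      | succ l ih =>
        ext e
        have h1 := congrArg (fun f : E →+* M => f (g e)) ih
        rw [pow_succ, pow_succ]
        change (f ^ l) (f (i e)) = i ((g ^ l) (g e))
        rw [hg']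
        exact h1
    have h1 := hnew g (wt bb aa a c)
      (fun a e he => by
        apply i.injective
        rw [← hg', he, hf.const])
      (fun l e he => by
        apply i.injective
        rw [← hg', he, hf.ft])
      (fun j e he => by
        apply i.injective
        rw [← hg', he, hx])
      (fun e he => by
        rw [← hg', he, hf.map_mono b ι]) hwt
    have h2 : ∀ l ∈ range b.N, KM.map m (f ^ l) (KM.map m i z) =
        KM.map m i (KM.map m (g ^ l) z) := by
      intro l _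
      rw [KM.map_map, KM.map_map, hpow]
    rw [Finset.sum_congr rfl h2, ← map_sum, h1, map_zero]

end UnrG
end

section

/-!
# Monomial subfields: good classes
-/

namespace UnrA.Fer

open UnrG

universe u v w z

open Polynomial Finset
open scoped Classical

variable {m : UFun.{u, z}} {𝔽 : Type w} [Field 𝔽] [Fintype 𝔽] (b : Base 𝔽)

variable {F M : Type u} [Field F] [Field M] [Algebra F M] (ι : 𝔽 →+* F) {r n : ℕ}
  {t : Fin r → M} {x y : Fin n → M}

variable {bb aa : Fin n → ℕ} {E : Type u} [Field E] {i : E →+* M}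

/-- Hint: `Unr.map`; `inv` by `MonoEmb.hom_eq`; `new`: a diagonal endomorphism `f` restricts to
`g : E →+* E` (`exists_restrict`), `f ^ l ∘ i = i ∘ g ^ l`, and `hnew` applies to `g` with
`k = wt bb aa a c` (`IsDiag.map_mono`). -/
lemma monoEmb_good (h : MonoEmb b F t x y bb aa i) {z : KM m E}
    (hz : Unr z) (hnew : NewCls b F ι t x y bb aa i z) :
    Good b F ι t x y bb aa (KM.map m i z) := by
  refine ⟨hz.map i, ?_, ?_⟩
  · intro f g h1 h2 h3 h4
    rw [KM.map_map, KM.map_map, h.hom_eq b h1 h2 h3 h4]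
  · intro a c f hf hwt
    have hζ : algebraMap F M (ι b.ζ) ^ b.N = 1 := by
      rw [← map_pow, ← map_pow, b.hζ.pow_eq_one, map_one, map_one]
    have hx : ∀ j, f (x j ^ b.N) = x j ^ b.N := by
      intro j
      rw [map_pow, hf.fx, mul_pow, ← pow_mul, mul_comm (a j), pow_mul, hζ, one_pow, one_mul]
    obtain ⟨g, hg⟩ := h.exists_restrict b (f := f)
      (fun a => by rw [hf.const]; exact h.const a)
      (fun k => by rw [hf.ft]; exact h.t_mem k)
      (fun j => by rw [hx]; exact h.x_mem j)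
      (by
        rw [hf.map_mono b ι]
        exact mul_mem (pow_mem (h.const _) _) h.w_mem)
    have hg' : ∀ e, f (i e) = i (g e) := fun e => congrArg (fun f : E →+* M => f e) hg
    have hpow : ∀ l, (f ^ l).comp i = i.comp (g ^ l) := by
      intro l
      induction l with
      | zero => rfl
      | succ l ih =>
        ext e
        have h1 := congrArg (fun f : E →+* M => f (g e)) ih
        rw [pow_succ, pow_succ]
        change (f ^ l) (f (i e)) = i ((g ^ l) (g e))
        rw [hg']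
        exact h1
    have h1 := hnew g (wt bb aa a c)
      (fun a e he => by
        apply i.injective
        rw [← hg', he, hf.const])
      (fun l e he => by
        apply i.injective
        rw [← hg', he, hf.ft])
      (fun j e he => by
        apply i.injective
        rw [← hg', he, hx])
      (fun e he => by
        rw [← hg', he, hf.map_mono b ι]) hwt
    have h2 : ∀ l ∈ range b.N, KM.map m (f ^ l) (KM.map m i z) =
        KM.map m i (KM.map m (g ^ l) z) := by
      intro l _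
      rw [KM.map_map, KM.map_map, hpow]
    rw [Finset.sum_congr rfl h2, ← map_sum, h1, map_zero]

end UnrA.Fer
end
end

section

section

/-!
# The Gauss sum of the inverse of the Teichmüller character
-/

namespace UnrG

open Finset

variable (V : ValuationSubring ℂ)

private lemma S4_pow_expand {z : ℂ} (hz : z ∈ V) (t : ℕ) :
    ∃ c ∈ V, z ^ t = 1 + (t : ℂ) * (z - 1) + (z - 1) ^ 2 * c := by
  induction t with
  | zero => exact ⟨0, zero_mem V, by simp⟩
  | succ t ih =>
    obtain ⟨c, hc, h⟩ := ih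
    refine ⟨(t : ℂ) + c + c * (z - 1), ?_, ?_⟩
    · exact add_mem (add_mem (natCast_mem V t) hc) (mul_mem hc (sub_mem hz (one_mem V)))
    · rw [pow_succ, h]
      push_cast
      ring

/-- The character sum over the field. -/
private lemma S4_sum (p : ℕ) [hp : Fact p.Prime] (k : Type) [Field k] [Fintype k]
    [Algebra (ZMod p) k] :
    ∑ x : k, x⁻¹ * algebraMap (ZMod p) k (Algebra.trace (ZMod p) k x) = -1 := by
  classical
  have hcardk : Fintype.card k = p ^ Module.finrank (ZMod p) k := by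
    have h := Module.card_eq_pow_finrank (K := ZMod p) (V := k)
    rwa [ZMod.card] at h
  have hfr : 0 < Module.finrank (ZMod p) k := Module.finrank_pos
  have h1 : ∀ x : k, x⁻¹ * algebraMap (ZMod p) k (Algebra.trace (ZMod p) k x) =
      ∑ i ∈ range (Module.finrank (ZMod p) k), x⁻¹ * x ^ (p ^ i) := by
    intro x
    rw [FiniteField.algebraMap_trace_eq_sum_pow, Nat.card_zmod, Finset.mul_sum]
  rw [Finset.sum_congr rfl fun x _ => h1 x, Finset.sum_comm]
  have h0 : ∑ x : k, x⁻¹ * x ^ (p ^ 0) = -1 := by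
    have h2 : ∀ x : k, x⁻¹ * x ^ (p ^ 0) = 1 - if x = 0 then 1 else 0 := by
      intro x
      by_cases hx : x = 0
      · simp [hx]
      · rw [pow_zero, pow_one, inv_mul_cancel₀ hx, if_neg hx, sub_zero]
    rw [Finset.sum_congr rfl fun x _ => h2 x, Finset.sum_sub_distrib, Finset.sum_ite_eq',
      if_pos (Finset.mem_univ _), Finset.sum_const, Finset.card_univ, nsmul_one,
      FiniteField.cast_card_eq_zero, zero_sub]
  have hi : ∀ i ∈ range (Module.finrank (ZMod p) k), i ≠ 0 → ∑ x : k, x⁻¹ * x ^ (p ^ i) = 0 := by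
    intro i hi hi0
    have hilt := Finset.mem_range.1 hi
    have hpi : 1 < p ^ i := Nat.one_lt_pow hi0 hp.out.one_lt
    have h2 : ∀ x : k, x⁻¹ * x ^ (p ^ i) = x ^ (p ^ i - 1) := by
      intro x
      by_cases hx : x = 0
      · rw [hx, inv_zero, zero_mul, zero_pow (by omega)]
      · obtain ⟨m, hm⟩ : ∃ m, p ^ i = m + 1 := ⟨p ^ i - 1, by omega⟩
        rw [hm, Nat.add_sub_cancel, pow_succ, mul_comm (x ^ m) x, ← mul_assoc,
          inv_mul_cancel₀ hx, one_mul]
    rw [Finset.sum_congr rfl fun x _ => h2 x]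
    refine FiniteField.sum_pow_lt_card_sub_one k _ ?_
    rw [hcardk]
    have : p ^ i < p ^ Module.finrank (ZMod p) k := Nat.pow_lt_pow_right hp.out.one_lt hilt
    omega
  rw [Finset.sum_eq_single 0 hi (fun h => absurd (Finset.mem_range.2 hfr) h), h0]

/-- Proof: put `π = ζ - 1` with `ζ = zetaP p`. With `T x = (Tr x).val` the value `ψ x = ζ ^ (T x)`
(`stdAddChar_eq_pow`) is `1 + T x * π + π ^ 2 * (integral)`. Hence
`g = ∑ ω⁻¹ x + π * ∑ ω⁻¹ x * T x + π ^ 2 * I` with `I ∈ V`; the first sum vanishes (`ω⁻¹ ≠ 1` since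
`2 < card k`: `teichmuller_pow_ne_one` for `A = 1`). The residue of `∑ ω⁻¹ x * T x` is
`φ (∑_{x ≠ 0} x⁻¹ * Tr x) = φ (∑_i ∑_{x ≠ 0} x ^ (p ^ i - 1)) = φ (-1) ≠ 0`
(`FiniteField.algebraMap_trace_eq_sum_pow` gives `Tr x = ∑_{i < e} x ^ (p ^ i)`, `e = finrank`;
`FiniteField.sum_pow_lt_card_sub_one` for `i > 0`), so its valuation is one and `v g = v π`
(`v π < 1`). -/
theorem v_gaussSum_teichmuller (p : ℕ) [Fact p.Prime] (hV : V.valuation (p : ℂ) < 1)
    (k : Type) [Field k] [Fintype k] [Algebra (ZMod p) k] (hk : 2 < Fintype.card k)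
    {φ : k →+* IsLocalRing.ResidueField V} {ω : MulChar k ℂ}
    (hω : ∀ x : k, ∃ h : ω x ∈ V, IsLocalRing.residue V ⟨ω x, h⟩ = φ x) :
    V.valuation (gaussSum ω⁻¹ (trChar p k)) = V.valuation (zetaP p - 1) := by
  classical
  have hπ := v_zetaP_sub_one_lt V p hV
  have hprim := zetaP_primitive p
  have hζV : zetaP p ∈ V := (V.valuation_le_one_iff _).1
    (v_root V (Fact.out : p.Prime).pos hprim.pow_eq_one).le
  choose I hI hIe using S4_pow_expand V hζV
  have hω1 : ω⁻¹ ≠ 1 := by
    have := teichmuller_pow_ne_one V hω one_pos (by omega)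
    rwa [pow_one] at this
  have hsum0 : ∑ x : k, ω⁻¹ x = 0 := MulChar.sum_eq_zero_of_ne_one hω1
  -- the values of the inverse character
  have hinv : ∀ x : k, ω⁻¹ x = ω x⁻¹ := fun x => MulChar.inv_apply' ω x
  have hinvV : ∀ x : k, ω⁻¹ x ∈ V := fun x => by
    rw [hinv]
    exact (hω x⁻¹).1
  set T : k → ℕ := fun x => (Algebra.trace (ZMod p) k x).val with hT
  have hψ : ∀ x : k, trChar p k x = zetaP p ^ T x := fun x => by
    rw [trChar_apply, stdAddChar_eq_pow]
  -- the main sum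
  set S : ℂ := ∑ x : k, ω⁻¹ x * (T x : ℂ) with hS
  set J : ℂ := ∑ x : k, ω⁻¹ x * I (T x) with hJ
  have hJV : J ∈ V := sum_mem fun x _ => mul_mem (hinvV x) (hI _)
  have hSV : S ∈ V := sum_mem fun x _ => mul_mem (hinvV x) (natCast_mem V _)
  have hg : gaussSum ω⁻¹ (trChar p k) = (zetaP p - 1) * (S + (zetaP p - 1) * J) := by
    have h1 : gaussSum ω⁻¹ (trChar p k) = ∑ x : k, ω⁻¹ x +
        (zetaP p - 1) * S + (zetaP p - 1) ^ 2 * J := by
      rw [gaussSum, hS, hJ, Finset.mul_sum, Finset.mul_sum, ← Finset.sum_add_distrib,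
        ← Finset.sum_add_distrib]
      refine Finset.sum_congr rfl fun x _ => ?_
      rw [hψ, hIe]
      ring
    rw [h1, hsum0]
    ring
  have hres : IsLocalRing.residue V ⟨S, hSV⟩ = φ (-1) := by
    have h1 : (⟨S, hSV⟩ : V) = ∑ x : k, (⟨ω⁻¹ x, hinvV x⟩ : V) * ((T x : ℕ) : V) := by
      apply Subtype.ext
      simp [hS]
    rw [h1, map_sum, ← S4_sum p k, map_sum]
    refine Finset.sum_congr rfl fun x _ => ?_
    rw [map_mul, map_natCast, map_mul]
    congr 1
    · obtain ⟨hm, hr⟩ := hω x⁻¹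
      rw [← hr]
      congr 1
      exact Subtype.ext (hinv x)
    · have h2 : algebraMap (ZMod p) k (Algebra.trace (ZMod p) k x) = ((T x : ℕ) : k) := by
        rw [hT]
        conv_lhs => rw [← ZMod.natCast_zmod_val (Algebra.trace (ZMod p) k x)]
        rw [map_natCast]
      rw [h2, map_natCast]
  have hvS : V.valuation S = 1 := by
    have hle : V.valuation S ≤ 1 := (V.valuation_le_one_iff _).2 hSV
    refine le_antisymm hle ?_
    by_contra hlt
    rw [not_le] at hlt
    have h0 : IsLocalRing.residue V ⟨S, hSV⟩ = 0 := by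
      rw [IsLocalRing.residue_eq_zero_iff, V.valuation_lt_one_iff]
      exact hlt
    rw [hres] at h0
    have h3 : (-1 : k) = 0 := φ.injective (by rw [h0, map_zero])
    exact neg_ne_zero.2 one_ne_zero h3
  have hvJ : V.valuation ((zetaP p - 1) * J) < V.valuation S := by
    rw [hvS, map_mul]
    exact mul_lt_one_of_lt_of_le hπ ((V.valuation_le_one_iff _).2 hJV)
  rw [hg, map_mul, Valuation.map_add_eq_of_lt_left _ hvJ, hvS, mul_one]

end UnrG
end

section

/-!
# Lower bound for the valuations of Gauss sums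
-/

namespace UnrG

open Finset

variable (V : ValuationSubring ℂ)

/-- Proof by induction on `∑ d i`: if it is one then the exponent is `p ^ i` and the Gauss sum is
that of `ω⁻¹` (`gaussSum_pow_pow_char`, `v_gaussSum_teichmuller`). In the induction step choose `i` with
`0 < d i`, let `d'` be `d` with `d i` diminished by one, so `A = A' + p ^ i` with `0 < A'`, and apply
`v_gaussSum_mul_le` to `ω⁻¹ ^ A'` and `ω⁻¹ ^ p ^ i` (the product `ω⁻¹ ^ A` is not `1` by
`teichmuller_pow_ne_one`). -/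
theorem le_v_gaussSum (p : ℕ) [Fact p.Prime] (hV : V.valuation (p : ℂ) < 1)
    (k : Type) [Field k] [Fintype k] [Algebra (ZMod p) k] (hk : 2 < Fintype.card k)
    {φ : k →+* IsLocalRing.ResidueField V} {ω : MulChar k ℂ}
    (hω : ∀ x : k, ∃ h : ω x ∈ V, IsLocalRing.residue V ⟨ω x, h⟩ = φ x) (e : ℕ) (d : ℕ → ℕ)
    (h0 : 0 < ∑ i ∈ range e, d i * p ^ i)
    (h1 : ∑ i ∈ range e, d i * p ^ i < Fintype.card k - 1) :
    V.valuation (zetaP p - 1) ^ (∑ i ∈ range e, d i) ≤
      V.valuation (gaussSum (ω⁻¹ ^ (∑ i ∈ range e, d i * p ^ i)) (trChar p k)) := by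
  have hp : 0 < p := (Fact.out : p.Prime).pos
  have hbase : ∀ i : ℕ, V.valuation (gaussSum (ω⁻¹ ^ p ^ i) (trChar p k)) =
      V.valuation (zetaP p - 1) := by
    intro i
    rw [gaussSum_pow_pow_char, v_gaussSum_teichmuller V p hV k hk hω]
  obtain ⟨n, hn⟩ : ∃ n, n = ∑ i ∈ range e, d i := ⟨_, rfl⟩
  induction n generalizing d with
  | zero =>
    exfalso
    have hz : ∀ i ∈ range e, d i = 0 := by
      intro i hi
      exact (Finset.sum_eq_zero_iff.mp hn.symm) i hi
    have : ∑ i ∈ range e, d i * p ^ i = 0 :=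
      Finset.sum_eq_zero (fun i hi => by rw [hz i hi, Nat.zero_mul])
    omega
  | succ n ih =>
    obtain ⟨i, hi, hdi⟩ : ∃ i ∈ range e, 0 < d i := by
      by_contra hcon
      push Not at hcon
      have : ∑ i ∈ range e, d i = 0 :=
        Finset.sum_eq_zero (fun i hi => Nat.le_zero.mp (hcon i hi))
      omega
    set d' : ℕ → ℕ := Function.update d i (d i - 1) with hd'
    have hsplit : ∀ f : ℕ → ℕ → ℕ, ∑ j ∈ range e, f j (d j) =
        f i (d i) + ∑ j ∈ (range e).erase i, f j (d j) := by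
      intro f
      exact (Finset.add_sum_erase _ _ hi).symm
    have hsplit' : ∀ f : ℕ → ℕ → ℕ, ∑ j ∈ range e, f j (d' j) =
        f i (d i - 1) + ∑ j ∈ (range e).erase i, f j (d j) := by
      intro f
      rw [← Finset.add_sum_erase _ _ hi]
      congr 1
      · simp [hd']
      · refine Finset.sum_congr rfl (fun j hj => ?_)
        have : j ≠ i := (Finset.mem_erase.mp hj).1
        simp [hd', Function.update_of_ne this]
    have hs1 := hsplit (fun _ x => x)
    have hs1' := hsplit' (fun _ x => x)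
    have hs2 := hsplit (fun j x => x * p ^ j)
    have hs2' := hsplit' (fun j x => x * p ^ j)
    have hmul : d i * p ^ i = (d i - 1) * p ^ i + p ^ i := by
      obtain ⟨m, hm⟩ : ∃ m, d i = m + 1 := ⟨d i - 1, by omega⟩
      rw [hm]
      simp only [Nat.add_sub_cancel]
      ring
    have hsumd' : n = ∑ j ∈ range e, d' j := by omega
    have hA : ∑ j ∈ range e, d j * p ^ j = (∑ j ∈ range e, d' j * p ^ j) + p ^ i := by omega
    have hexp : ∑ j ∈ range e, d j = n + 1 := by omega
    rw [hexp]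
    rcases Nat.eq_zero_or_pos (∑ j ∈ range e, d' j * p ^ j) with hz | hpos
    · -- the exponent is a power of p
      have hz' : ∀ j ∈ range e, d' j = 0 := by
        intro j hj
        have := (Finset.sum_eq_zero_iff.mp hz) j hj
        rcases Nat.mul_eq_zero.mp this with h | h
        · exact h
        · exact absurd h (pow_pos hp j).ne'
      have hn0 : n = 0 := by
        rw [hsumd']
        exact Finset.sum_eq_zero hz'
      rw [hA, hz, zero_add, hbase i, hn0, zero_add, pow_one]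
    · have hih := ih d' hpos (by omega) hsumd'
      rw [← hsumd'] at hih
      have hne : ω⁻¹ ^ (∑ j ∈ range e, d' j * p ^ j) * ω⁻¹ ^ p ^ i ≠ 1 := by
        rw [← pow_add, ← hA]
        exact teichmuller_pow_ne_one V hω h0 h1
      have hm := v_gaussSum_mul_le V hne (trChar p k)
      rw [← pow_add, ← hA, hbase i] at hm
      calc V.valuation (zetaP p - 1) ^ (n + 1)
          = V.valuation (zetaP p - 1) ^ n * V.valuation (zetaP p - 1) := pow_succ _ _
        _ ≤ V.valuation (gaussSum (ω⁻¹ ^ (∑ j ∈ range e, d' j * p ^ j)) (trChar p k)) *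
              V.valuation (zetaP p - 1) := mul_le_mul_left hih _
        _ ≤ _ := hm

end UnrG
end

section

/-!
# The digits of `(p ^ e - 1) c / N`
-/

namespace UnrG

open Finset

/-- Proof: let `r i = (p ^ i * c).val` and `d' i = p * r i / N`, so `p * r i = r (i + 1) + N * d' i`
(`(p * x).val = p * x.val % N`), and `r e = r 0` because `p ^ e = 1` in `ZMod N`. Put
`d i = d' (e - 1 - i)`. Then `N * ∑ d' i p ^ (e - 1 - i) = ∑ (p ^ (e - i) r i - p ^ (e - 1 - i) r (i + 1))
= p ^ e r 0 - r e = M N c.val`, and `N * ∑ d' i = ∑ (p r i - r (i + 1)) = (p - 1) ∑ r i`. -/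
theorem exists_digits {p e M N : ℕ} (hp : 0 < p) (hN : 0 < N) (h : p ^ e = M * N + 1)
    (c : ZMod N) :
    ∃ d : ℕ → ℕ, ∑ i ∈ range e, d i * p ^ i = M * c.val ∧
      N * ∑ i ∈ range e, d i = (p - 1) * valSum p e c := by
  haveI : NeZero N := ⟨hN.ne'⟩
  set r : ℕ → ℕ := fun i => ((p : ZMod N) ^ i * c).val with hr
  have hr0 : r 0 = c.val := by simp [hr]
  have hpe : (p : ZMod N) ^ e = 1 := by
    have : ((p ^ e : ℕ) : ZMod N) = ((M * N + 1 : ℕ) : ZMod N) := by rw [h]
    push_cast at this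
    simpa using this
  have hre : r e = r 0 := by simp [hr, hpe]
  have hstep : ∀ i, r (i + 1) + N * (p * r i / N) = p * r i := by
    intro i
    have h1 : r (i + 1) = (p * r i) % N := by
      rw [← ZMod.val_natCast]
      simp only [hr]
      push_cast
      rw [ZMod.natCast_zmod_val]
      ring_nf
    rw [h1, Nat.mod_add_div]
  have hS : ∀ n, N * ∑ i ∈ range n, (p * r i / N) * p ^ (n - 1 - i) + r n = p ^ n * r 0 := by
    intro n
    induction n with
    | zero => simp
    | succ n ih =>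
      have h2 : ∑ i ∈ range (n + 1), (p * r i / N) * p ^ (n + 1 - 1 - i)
          = p * ∑ i ∈ range n, (p * r i / N) * p ^ (n - 1 - i) + p * r n / N := by
        rw [sum_range_succ, mul_sum]
        congr 1
        · refine sum_congr rfl fun i hi => ?_
          have hi' := mem_range.1 hi
          have : n + 1 - 1 - i = (n - 1 - i) + 1 := by omega
          rw [this, pow_succ]
          ring
        · simp
      rw [h2]
      have h3 := hstep n
      calc N * (p * ∑ i ∈ range n, (p * r i / N) * p ^ (n - 1 - i) + p * r n / N) + r (n + 1)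
          = p * (N * ∑ i ∈ range n, (p * r i / N) * p ^ (n - 1 - i))
            + (r (n + 1) + N * (p * r n / N)) := by ring
        _ = p * (N * ∑ i ∈ range n, (p * r i / N) * p ^ (n - 1 - i)) + p * r n := by rw [h3]
        _ = p * (N * ∑ i ∈ range n, (p * r i / N) * p ^ (n - 1 - i) + r n) := by ring
        _ = p ^ (n + 1) * r 0 := by rw [ih]; ring
  refine ⟨fun i => p * r (e - 1 - i) / N, ?_, ?_⟩
  · have h4 : ∑ i ∈ range e, p * r (e - 1 - i) / N * p ^ i
        = ∑ i ∈ range e, (p * r i / N) * p ^ (e - 1 - i) := by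
      rw [← sum_range_reflect]
      refine sum_congr rfl fun i hi => ?_
      have hi' := mem_range.1 hi
      have : e - 1 - (e - 1 - i) = i := by omega
      rw [this]
    rw [h4]
    have h5 := hS e
    rw [hre, h] at h5
    have h6 : N * ∑ i ∈ range e, (p * r i / N) * p ^ (e - 1 - i) = N * (M * r 0) := by
      have : (M * N + 1) * r 0 = N * (M * r 0) + r 0 := by ring
      rw [this] at h5
      exact Nat.add_right_cancel h5
    rw [Nat.eq_of_mul_eq_mul_left hN h6, hr0]
  · have h4 : ∑ i ∈ range e, p * r (e - 1 - i) / N = ∑ i ∈ range e, (p * r i / N) :=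
      sum_range_reflect (fun i => p * r i / N) e
    have h5 : ∑ i ∈ range e, r (i + 1) + N * ∑ i ∈ range e, (p * r i / N)
        = p * ∑ i ∈ range e, r i := by
      rw [mul_sum, mul_sum, ← sum_add_distrib]
      exact sum_congr rfl fun i _ => hstep i
    have h6 : ∑ i ∈ range e, r (i + 1) = ∑ i ∈ range e, r i := by
      have h7 := sum_range_succ' r e
      rw [sum_range_succ, hre] at h7
      exact (Nat.add_right_cancel h7).symm
    have h7 : valSum p e c = ∑ i ∈ range e, r i := rfl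
    rw [h4, h7, Nat.sub_mul, one_mul, ← h5, h6, Nat.add_sub_cancel_left]

/-- Hint: `(-x).val = N - x.val` for `x ≠ 0`, and `p ^ j * c ≠ 0` as `p` is a unit mod `N`. -/
lemma valSum_neg {p e M N : ℕ} (hN : 0 < N) (h : p ^ e = M * N + 1) (he : 0 < e) {c : ZMod N}
    (hc : c ≠ 0) : valSum p e (-c) + valSum p e c = e * N := by
  haveI : NeZero N := ⟨hN.ne'⟩
  have hpe : (p : ZMod N) ^ e = 1 := by
    have : ((p ^ e : ℕ) : ZMod N) = ((M * N + 1 : ℕ) : ZMod N) := by rw [h]
    push_cast at this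
    simpa using this
  have hu : IsUnit (p : ZMod N) := IsUnit.of_pow_eq_one hpe he.ne'
  unfold valSum
  rw [← sum_add_distrib]
  have h1 : ∀ j ∈ range e, ((p : ZMod N) ^ j * -c).val + ((p : ZMod N) ^ j * c).val = N := by
    intro j _
    have h2 : (p : ZMod N) ^ j * c ≠ 0 := by
      intro h0
      exact hc ((hu.pow j).mul_right_eq_zero.1 h0)
    rw [mul_neg, ZMod.neg_val, if_neg h2]
    exact Nat.sub_add_cancel (ZMod.val_lt _).le
  rw [sum_congr rfl h1, sum_const, card_range, smul_eq_mul]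

end UnrG
end

section

/-!
# Stickelberger's theorem
-/

namespace UnrG

open Finset

variable (V : ValuationSubring ℂ)

private lemma aux_pow_card {k : Type} [Field k] [Fintype k] (χ : MulChar k ℂ) :
    χ ^ (Fintype.card k - 1) = 1 := by
  classical
  have h := MulChar.pow_card_eq_one χ
  rwa [Fintype.card_units] at h

private lemma aux_order {Γ : Type*} [LinearOrderedCommGroupWithZero Γ] {x a b : Γ} {D D' : ℕ}
    (hx : x ≠ 0) (ha : x ^ D ≤ a) (hb : x ^ D' ≤ b) (hab : a * b = x ^ (D + D')) :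
    a = x ^ D := by
  have h1 : 0 < x ^ D' := zero_lt_iff.2 (pow_ne_zero _ hx)
  by_contra hne
  have hlt : x ^ D < a := lt_of_le_of_ne ha (Ne.symm hne)
  have h2 : x ^ D * x ^ D' < a * b :=
    calc x ^ D * x ^ D' < a * x ^ D' := mul_lt_mul_of_pos_right hlt h1
      _ ≤ a * b := mul_le_mul_right hb a
  rw [hab, pow_add] at h2
  exact lt_irrefl _ h2

/-- **Stickelberger.** Proof: let `q = p ^ e`, `A = M * c.val` and `A' = M * (-c).val = q - 1 - A`;
`0 < A < q - 1` (`0 < M` as `card k ≠ 1`). With the digits `d`, `d'` of `exists_digits` for `c`, `-c`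
and `D = ∑ d`, `D' = ∑ d'` we have `N (D + D') = (p - 1) e N` (`valSum_neg`), so
`D + D' = (p - 1) e`. By `le_v_gaussSum` `v π ^ D ≤ v (g (ω⁻¹ ^ A))`, `v π ^ D' ≤ v (g (ω⁻¹ ^ A'))`, and
the product of the right sides is `v q = v p ^ e = v π ^ ((p - 1) e)`
(`v_gaussSum_mul_inv`, `ω⁻¹ ^ A' = (ω⁻¹ ^ A)⁻¹`, `v_zetaP_sub_one_pow`), so both are equalities, and
`v (g (ω⁻¹ ^ A)) ^ N = v π ^ (D N) = v π ^ ((p - 1) valSum) = v p ^ valSum`. -/
theorem stickelberger (p : ℕ) [Fact p.Prime] (hV : V.valuation (p : ℂ) < 1)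
    (k : Type) [Field k] [Fintype k] [Algebra (ZMod p) k]
    {φ : k →+* IsLocalRing.ResidueField V} {ω : MulChar k ℂ}
    (hω : ∀ x : k, ∃ h : ω x ∈ V, IsLocalRing.residue V ⟨ω x, h⟩ = φ x) {e M N : ℕ}
    (hcard : Fintype.card k = p ^ e) (hN : 2 ≤ N) (hM : p ^ e = M * N + 1) {c : ZMod N}
    (hc : c ≠ 0) :
    V.valuation (gaussSum (ω⁻¹ ^ (M * c.val)) (trChar p k)) ^ N =
      V.valuation (p : ℂ) ^ valSum p e c := by
  have hp : 0 < p := (Fact.out : p.Prime).pos
  have hN0 : 0 < N := by omega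
  have : NeZero N := ⟨by omega⟩
  have hcard1 : 1 < Fintype.card k := Fintype.one_lt_card
  have hcardMN : Fintype.card k = M * N + 1 := by rw [hcard, hM]
  have hM0 : 0 < M := by
    rcases Nat.eq_zero_or_pos M with h | h
    · subst h; omega
    · exact h
  have hMN : 2 ≤ M * N := by nlinarith
  have hk : 2 < Fintype.card k := by omega
  have he : 0 < e := by
    rcases Nat.eq_zero_or_pos e with h | h
    · subst h
      simp at hcard
      omega
    · exact h
  have hcv : 0 < c.val := by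
    rcases Nat.eq_zero_or_pos c.val with h | h
    · exact absurd ((ZMod.val_eq_zero c).1 h) hc
    · exact h
  have hcN : c.val < N := ZMod.val_lt c
  have hneg : (-c).val = N - c.val := by
    rw [ZMod.neg_val, if_neg hc]
  have hA0 : 0 < M * c.val := Nat.mul_pos hM0 hcv
  have hA1 : M * c.val < Fintype.card k - 1 := by
    rw [hcardMN]
    have := (Nat.mul_lt_mul_left hM0).2 hcN
    omega
  have hA0' : 0 < M * (-c).val := by
    rw [hneg]
    exact Nat.mul_pos hM0 (by omega)
  have hA1' : M * (-c).val < Fintype.card k - 1 := by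
    rw [hcardMN, hneg]
    have := (Nat.mul_lt_mul_left hM0).2 (show N - c.val < N by omega)
    omega
  obtain ⟨d, hd1, hd2⟩ := exists_digits hp hN0 hM c
  obtain ⟨d', hd1', hd2'⟩ := exists_digits hp hN0 hM (-c)
  have hvs := valSum_neg hN0 hM he hc
  have hDD : (∑ i ∈ range e, d i) + (∑ i ∈ range e, d' i) = (p - 1) * e := by
    have h1 : N * ((∑ i ∈ range e, d i) + (∑ i ∈ range e, d' i)) = N * ((p - 1) * e) := by
      rw [Nat.mul_add, hd2, hd2', ← Nat.mul_add, Nat.add_comm, hvs]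
      ring
    exact Nat.eq_of_mul_eq_mul_left hN0 h1
  have hx : V.valuation (zetaP p - 1) ≠ 0 := v_zetaP_sub_one_ne V p
  have hB1 := le_v_gaussSum V p hV k hk hω e d (by rw [hd1]; exact hA0) (by rw [hd1]; exact hA1)
  have hB2 := le_v_gaussSum V p hV k hk hω e d' (by rw [hd1']; exact hA0')
    (by rw [hd1']; exact hA1')
  rw [hd1] at hB1
  rw [hd1'] at hB2
  have hinv : ω⁻¹ ^ (M * (-c).val) = (ω⁻¹ ^ (M * c.val))⁻¹ := by
    rw [eq_inv_iff_mul_eq_one, ← pow_add]
    have h1 : M * (-c).val + M * c.val = Fintype.card k - 1 := by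
      rw [hcardMN, hneg, ← Nat.mul_add, Nat.sub_add_cancel hcN.le]
      omega
    rw [h1]
    exact aux_pow_card _
  rw [hinv] at hB2
  have hne : ω⁻¹ ^ (M * c.val) ≠ 1 := teichmuller_pow_ne_one V hω hA0 hA1
  have hprod := v_gaussSum_mul_inv V hne (trChar_primitive p k)
  have hpv := v_zetaP_sub_one_pow V p
  have hcardv : V.valuation (Fintype.card k : ℂ) =
      V.valuation (zetaP p - 1) ^ ((∑ i ∈ range e, d i) + (∑ i ∈ range e, d' i)) := by
    rw [hcard, hDD, pow_mul, hpv, Nat.cast_pow, map_pow]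
  rw [hcardv] at hprod
  have hfin := aux_order hx hB1 hB2 hprod
  rw [hfin, ← pow_mul, Nat.mul_comm, hd2, pow_mul, hpv]

/-- Hint: `teichmuller_pow_ne_one`. -/
lemma orderOf_teichmuller {k : Type} [Field k] [Fintype k]
    {φ : k →+* IsLocalRing.ResidueField V} {ω : MulChar k ℂ}
    (hω : ∀ x : k, ∃ h : ω x ∈ V, IsLocalRing.residue V ⟨ω x, h⟩ = φ x) {M N : ℕ} (hN : 0 < N)
    (hM : Fintype.card k = M * N + 1) : orderOf (ω⁻¹ ^ M) = N := by
  have hcard1 : 1 < Fintype.card k := Fintype.one_lt_card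
  have hM0 : 0 < M := by
    rcases Nat.eq_zero_or_pos M with h | h
    · subst h; omega
    · exact h
  rw [orderOf_eq_iff hN]
  refine ⟨?_, ?_⟩
  · rw [← pow_mul]
    have h1 : M * N = Fintype.card k - 1 := by omega
    rw [h1]
    exact aux_pow_card _
  · intro n hn hn0
    rw [← pow_mul]
    apply teichmuller_pow_ne_one V hω (Nat.mul_pos hM0 hn0)
    have h1 := (Nat.mul_lt_mul_left hM0).2 hn
    omega

end UnrG
end

section

/-!
# Galois conjugation of products of Jacobi sums
-/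

namespace UnrG

open Finset

private lemma n1_root {k : Type} [Field k] [Fintype k] {N : ℕ} {χ : MulChar k ℂ}
    (hχ : orderOf χ = N) {g : kˣ} (hg : ∀ x, x ∈ Subgroup.zpowers g) :
    IsPrimitiveRoot (χ (g : k)) N := by
  constructor
  · rw [← MulChar.pow_apply_coe, ← hχ, pow_orderOf_eq_one, MulChar.one_apply_coe]
  · intro m hm
    rw [← MulChar.pow_apply_coe] at hm
    rw [← hχ]
    apply orderOf_dvd_of_pow_eq_one
    rw [MulChar.eq_iff hg, hm, MulChar.one_apply_coe]

open scoped Classical in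
private noncomputable def n1_poly (k : Type) [Field k] [Fintype k] (l : k → ℕ) (A B : ℕ) :
    Polynomial ℤ :=
  ∑ x : k, if x = 0 ∨ 1 - x = 0 then 0 else Polynomial.X ^ (l x * A + l (1 - x) * B)

private lemma n1_jacobi {k : Type} [Field k] [Fintype k] {χ : MulChar k ℂ} {g : kˣ}
    {l : k → ℕ} (hl : ∀ x : k, x ≠ 0 → (g : k) ^ l x = x) (A B : ℕ) :
    jacobiSum (χ ^ A) (χ ^ B) = Polynomial.aeval (χ (g : k)) (n1_poly k l A B) := by
  classical
  have h1 : ∀ (x : k) (C : ℕ), x ≠ 0 → (χ ^ C) x = χ (g : k) ^ (l x * C) := by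
    intro x C hx
    have h2 : x = ((Units.mk0 x hx : kˣ) : k) := rfl
    rw [h2, MulChar.pow_apply_coe]
    have h3 : χ (g : k) ^ l x = χ x := by rw [← map_pow, hl x hx]
    rw [← h2, pow_mul, h3]
  rw [jacobiSum, n1_poly, map_sum]
  refine Finset.sum_congr rfl fun x _ => ?_
  by_cases hx : x = 0
  · rw [if_pos (Or.inl hx), map_zero, hx, MulChar.map_zero, zero_mul]
  · by_cases hx1 : 1 - x = 0
    · rw [if_pos (Or.inr hx1), map_zero, hx1, MulChar.map_zero, mul_zero]
    · rw [if_neg (by tauto), map_pow, Polynomial.aeval_X, pow_add, h1 x A hx, h1 (1 - x) B hx1]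

/-- If the product of Jacobi sums is a rational integer for one character of order `N` then it is
the same for all characters of order `N`. Proof: as `jacobiProduct_eq_of_eq` (PF/S10), copy the proof
with its auxiliary lemmas. -/
theorem prodJacobi_eq_of_eq {k : Type} [Field k] [Fintype k] {N n : ℕ} (hN : 0 < N)
    {χ χ' : MulChar k ℂ} (hχ : orderOf χ = N) (hχ' : orderOf χ' = N) (B A : Fin n → ZMod N)
    (c : ℤ) (h : ∏ j, jacobiSum (χ ^ (B j).val) (χ ^ (A j).val) = c) :
    ∏ j, jacobiSum (χ' ^ (B j).val) (χ' ^ (A j).val) = c := by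
  classical
  obtain ⟨g, hg⟩ := IsCyclic.exists_generator (α := kˣ)
  have hex : ∀ x : k, ∃ l : ℕ, x ≠ 0 → (g : k) ^ l = x := by
    intro x
    by_cases hx : x = 0
    · exact ⟨0, fun h0 => absurd hx h0⟩
    · have h1 := mem_powers_iff_mem_zpowers.mpr (hg (Units.mk0 x hx))
      obtain ⟨l, hl⟩ := h1
      refine ⟨l, fun _ => ?_⟩
      have h2 := congrArg (Units.val) hl
      simpa using h2
  choose l hl using hex
  have hP : ∀ (η : MulChar k ℂ), ∏ j, jacobiSum (η ^ (B j).val) (η ^ (A j).val) =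
      Polynomial.aeval (η (g : k)) (∏ j : Fin n, n1_poly k l (B j).val (A j).val) := by
    intro η
    rw [map_prod]
    exact Finset.prod_congr rfl fun j _ => n1_jacobi hl _ _
  generalize (∏ j : Fin n, n1_poly k l (B j).val (A j).val) = P at hP
  have hr := n1_root hχ hg
  have hr' := n1_root hχ' hg
  have hm : minpoly ℤ (χ (g : k)) = minpoly ℤ (χ' (g : k)) := by
    rw [← Polynomial.cyclotomic_eq_minpoly hr hN, ← Polynomial.cyclotomic_eq_minpoly hr' hN]
  have hz : Polynomial.aeval (χ (g : k)) (P - Polynomial.C c) = 0 := by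
    rw [map_sub, ← hP, h, Polynomial.aeval_C]
    simp
  have hd := minpoly.isIntegrallyClosed_dvd (hr.isIntegral hN) hz
  rw [hm] at hd
  obtain ⟨Q, hQ⟩ := hd
  have hz' : Polynomial.aeval (χ' (g : k)) (P - Polynomial.C c) = 0 := by
    rw [hQ, map_mul, minpoly.aeval, zero_mul]
  rw [map_sub, ← hP, Polynomial.aeval_C, sub_eq_zero] at hz'
  rw [hz']
  simp

/-- Hint: `(χ ^ t.val) ^ a.val = χ ^ (t * a).val`, see `jacobiProduct_pow` (PF/S10). -/
theorem prodJacobi_pow {k : Type} [Field k] [Fintype k] {N n : ℕ} [NeZero N]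
    {χ : MulChar k ℂ} (hχ : orderOf χ = N) (B A : Fin n → ZMod N) (t : ZMod N) :
    ∏ j, jacobiSum ((χ ^ t.val) ^ (B j).val) ((χ ^ t.val) ^ (A j).val) =
      ∏ j, jacobiSum (χ ^ (t * B j).val) (χ ^ (t * A j).val) := by
  have key : ∀ a : ZMod N, (χ ^ t.val) ^ a.val = χ ^ (t * a).val := by
    intro a
    rw [← pow_mul, ZMod.val_mul]
    conv_lhs => rw [← pow_mod_orderOf, hχ]
  refine Finset.prod_congr rfl fun j _ => ?_
  rw [key, key]

end UnrG
end

section

/-!
# Sums over the lines of an elementary abelian group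
-/

namespace UnrG

universe u v w

open Polynomial Finset
open scoped Classical

variable {m : ℕ} {F Ω : Type u} [Field F] [Field Ω] [Algebra F Ω]

/-- TASK V1. Proof: as `unr_lines` in PF/G5 (copy it; replace the three uses of `subSum_purely` by the
hypotheses; `C` takes the place of the factorial). -/
theorem lines_kill {p : ℕ}
    [Fact p.Prime] [CharP F p] {k : ℕ} [FixSp F p k] (hk : 0 < k) (T : IntermediateField F Ω)
    [FiniteDimensional T Ω] {Y₁ Y₂ : Ω}
    (h1 : Y₁ ^ p ^ k - Y₁ ∈ T) (h2 : Y₂ ^ p ^ k - Y₂ ∈ T)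
    (gen : IntermediateField.adjoin T {Y₁, Y₂} = ⊤) (z : KM m Ω) (C : ℕ)
    (e1 : ∀ c ∈ fixQ F (p ^ k), C •
      ∑ g ∈ univ.filter (fun g : Ω ≃ₐ[T] Ω =>
          g (Y₁ + algebraMap F Ω c * Y₂) = Y₁ + algebraMap F Ω c * Y₂),
        KM.map m (g : Ω →+* Ω) z = 0)
    (e2 : C • ∑ g ∈ univ.filter (fun g : Ω ≃ₐ[T] Ω => g Y₂ = Y₂), KM.map m (g : Ω →+* Ω) z = 0)
    (e3 : C • ∑ g : Ω ≃ₐ[T] Ω, KM.map m (g : Ω →+* Ω) z = 0) :
    (p ^ k * C) • z = 0 := by
  have hg1 : ∀ g : Ω ≃ₐ[T] Ω, (g : Ω →+* Ω) (Y₁ ^ p ^ k - Y₁) = Y₁ ^ p ^ k - Y₁ := fun g =>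
    g.commutes ⟨_, h1⟩
  have hg2 : ∀ g : Ω ≃ₐ[T] Ω, (g : Ω →+* Ω) (Y₂ ^ p ^ k - Y₂) = Y₂ ^ p ^ k - Y₂ := fun g =>
    g.commutes ⟨_, h2⟩
  choose b₁ hb₁ hb₁' using fun g : Ω ≃ₐ[T] Ω => as_translate (F := F) hk (hg1 g)
  choose b₂ hb₂ hb₂' using fun g : Ω ≃ₐ[T] Ω => as_translate (F := F) hk (hg2 g)
  have hY1 : ∀ g : Ω ≃ₐ[T] Ω, g Y₁ = Y₁ + algebraMap F Ω (b₁ g) := fun g => hb₁' g
  have hY2 : ∀ g : Ω ≃ₐ[T] Ω, g Y₂ = Y₂ + algebraMap F Ω (b₂ g) := fun g => hb₂' g
  have hcF : ∀ (g : Ω ≃ₐ[T] Ω) (c : F), g (algebraMap F Ω c) = algebraMap F Ω c := fun g c =>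
    g.commutes (algebraMap F T c)
  have hinj : ∀ c : F, algebraMap F Ω c = 0 ↔ c = 0 := fun c =>
    map_eq_zero_iff _ (algebraMap F Ω).injective
  have hext : ∀ g : Ω ≃ₐ[T] Ω, g Y₁ = Y₁ → g Y₂ = Y₂ → g = 1 := by
    intro g e1 e2
    apply AlgEquiv.ext
    intro x
    change g x = x
    have hx : x ∈ IntermediateField.adjoin T {Y₁, Y₂} := by rw [gen]; trivial
    induction hx using IntermediateField.adjoin_induction with
    | mem x hx =>
      rcases hx with rfl | rfl
      · exact e1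
      · exact e2
    | algebraMap x => exact g.commutes x
    | add x y _ _ hx hy => rw [map_add, hx, hy]
    | inv x _ hx => rw [map_inv₀, hx]
    | mul x y _ _ hx hy => rw [map_mul, hx, hy]
  have he : ∀ g, b₁ g = 0 ∧ b₂ g = 0 ↔ g = (1 : Ω ≃ₐ[T] Ω) := by
    intro g
    constructor
    · rintro ⟨h3, h4⟩
      apply hext
      · rw [hY1, h3, map_zero, add_zero]
      · rw [hY2, h4, map_zero, add_zero]
    · rintro rfl
      have h3 := hY1 1
      have h4 := hY2 1
      rw [AlgEquiv.one_apply] at h3 h4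
      exact ⟨(hinj _).1 (by linear_combination -h3), (hinj _).1 (by linear_combination -h4)⟩
  have key := lines_sum (S := fixQ F (p ^ k))
    (fun a ha b hb => neg_div_mem_fixQ hk ha hb) hb₁ hb₂ he
    (fun g : Ω ≃ₐ[T] Ω => KM.map m (g : Ω →+* Ω) z)
  have e1' : ∀ c ∈ fixQ F (p ^ k), C •
      ∑ g ∈ univ.filter (fun g : Ω ≃ₐ[T] Ω => b₁ g + c * b₂ g = 0),
        KM.map m (g : Ω →+* Ω) z = 0 := by
    intro c hc
    have h3 := e1 c hc
    have h4 : univ.filter (fun g : Ω ≃ₐ[T] Ω => b₁ g + c * b₂ g = 0) =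
        univ.filter (fun g : Ω ≃ₐ[T] Ω =>
          g (Y₁ + algebraMap F Ω c * Y₂) = Y₁ + algebraMap F Ω c * Y₂) := by
      refine Finset.filter_congr fun g _ => ?_
      rw [map_add, map_mul, hcF, hY1, hY2, ← hinj, map_add, map_mul]
      constructor
      · intro h5
        linear_combination h5
      · intro h5
        linear_combination h5
    rw [h4]
    exact h3
  have e2' : C •
      ∑ g ∈ univ.filter (fun g : Ω ≃ₐ[T] Ω => b₂ g = 0), KM.map m (g : Ω →+* Ω) z = 0 := by
    have h4 : univ.filter (fun g : Ω ≃ₐ[T] Ω => b₂ g = 0) =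
        univ.filter (fun g : Ω ≃ₐ[T] Ω => g Y₂ = Y₂) := by
      refine Finset.filter_congr fun g _ => ?_
      rw [hY2, ← hinj]
      constructor
      · intro h5
        linear_combination h5
      · intro h5
        linear_combination h5
    rw [h4]
    exact e2
  have e4 : KM.map m (((1 : Ω ≃ₐ[T] Ω)) : Ω →+* Ω) z = z := by
    have h3 : (((1 : Ω ≃ₐ[T] Ω)) : Ω →+* Ω) = RingHom.id Ω := rfl
    rw [h3, KM.map_id]
    rfl
  have h6 := congrArg (fun x => C • x) key
  beta_reduce at h6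
  rw [smul_add, smul_add, smul_sum, sum_eq_zero e1', e2', e3, e4, card_fixQ hk, add_zero,
    add_zero] at h6
  rw [mul_comm, mul_nsmul']
  exact h6.symm

end UnrG
end

section

/-!
# Two Hermitian curves over a field
-/

namespace UnrG

universe u v w

open Polynomial Finset
open scoped Classical

/-- `M` is the function field over `k` of the product of two Hermitian curves `y ^ Q + y = x ^ (Q + 1)`. -/
structure Herm2 (Q : ℕ) {F M : Type u} [Field F] [Field M] [Algebra F M]
    (k : IntermediateField F M) (x y : Fin 2 → M) : Prop where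
  eq : ∀ j, y j ^ Q + y j = x j ^ (Q + 1)
  ind : AlgebraicIndependent k x
  gen : IntermediateField.adjoin F ((k : Set M) ∪ Set.range x ∪ Set.range y) = ⊤

/-- `M` is the function field over `k` of the product of two Fermat curves `U ^ n + V ^ n = 1`. -/
structure Ferm2 (n : ℕ) {F M : Type u} [Field F] [Field M] [Algebra F M]
    (k : IntermediateField F M) (U V : Fin 2 → M) : Prop where
  eq : ∀ j, U j ^ n + V j ^ n = 1
  ind : AlgebraicIndependent k U
  gen : IntermediateField.adjoin F ((k : Set M) ∪ Set.range U ∪ Set.range V) = ⊤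

/-- The endomorphism `x_j ↦ ζ x_j` fixing `k` and all other coordinates. -/
structure IsRot {F M : Type u} [Field F] [Field M] [Algebra F M] (k : IntermediateField F M)
    (x y : Fin 2 → M) (ζ : F) (j : Fin 2) (τ : M →+* M) : Prop where
  fk : ∀ z ∈ k, τ z = z
  fx : τ (x j) = algebraMap F M ζ * x j
  fx' : ∀ i, i ≠ j → τ (x i) = x i
  fy : ∀ i, τ (y i) = y i

/-- The subfield generated by `k`, `x_0`, `x_1`. -/
noncomputable def midX {F M : Type u} [Field F] [Field M] [Algebra F M]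
    (k : IntermediateField F M) (x : Fin 2 → M) : IntermediateField F M :=
  IntermediateField.adjoin F ((k : Set M) ∪ Set.range x)

end UnrG
end

section

/-!
# From Fermat curves to Hermitian curves
-/

namespace UnrG

universe u v w

open Polynomial Finset
open scoped Classical

variable {F M : Type u} [Field F] [Field M] [Algebra F M] {p s : ℕ}
  {k : IntermediateField F M} {U V : Fin 2 → M}

/-- TASK V6, part 1. `V_j ≠ 1`: otherwise `U_j ^ n = 0`, `U_j = 0`, but `U_j` is transcendental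
(`h.ind.transcendental j`). -/
theorem Ferm2.V_ne {n : ℕ} (h : Ferm2 n k U V) (hn : 0 < n) (j : Fin 2) : V j - 1 ≠ 0 := by
  intro h0
  have h1 : V j = 1 := sub_eq_zero.1 h0
  have h2 := h.eq j
  rw [h1, one_pow, add_eq_right] at h2
  have h3 : U j = 0 := by
    by_contra h4
    exact pow_ne_zero n h4 h2
  apply h.ind.transcendental j
  rw [h3]
  exact isAlgebraic_zero

private lemma V6_eq {M : Type u} [Field M] {p s : ℕ} [Fact p.Prime] [CharP M p]
    {U V b : M} (h : U ^ (p ^ s + 1) + V ^ (p ^ s + 1) = 1) (hV : V - 1 ≠ 0)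
    (hb : b ^ p ^ s + b = 1) :
    (-(V - 1)⁻¹ - b) ^ p ^ s + (-(V - 1)⁻¹ - b) = (U * (V - 1)⁻¹) ^ (p ^ s + 1) := by
  obtain ⟨c, hc⟩ : ∃ c, c = (V - 1)⁻¹ := ⟨_, rfl⟩
  have hc0 : c ≠ 0 := by
    rw [hc]
    exact inv_ne_zero hV
  have hVc : V * c = 1 + c := by
    have h1 : (V - 1) * c = 1 := by
      rw [hc]
      exact mul_inv_cancel₀ hV
    linear_combination h1
  rw [← hc, mul_pow]
  have h2 : U ^ (p ^ s + 1) * c ^ (p ^ s + 1) = c ^ (p ^ s + 1) - (V * c) ^ (p ^ s + 1) := by
    rw [mul_pow]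
    linear_combination c ^ (p ^ s + 1) * h
  rw [h2, hVc]
  have h3 : (1 + c) ^ (p ^ s + 1) = (1 + c ^ p ^ s) * (1 + c) := by
    rw [pow_succ, add_pow_char_pow, one_pow]
  have h4 : (-c - b) ^ p ^ s = -c ^ p ^ s - b ^ p ^ s := by
    have h5 : (-c - b) = 0 - (c + b) := by ring
    rw [h5, sub_pow_char_pow, add_pow_char_pow]
    have hp : p.Prime := Fact.out
    rw [zero_pow (pow_ne_zero _ hp.ne_zero)]
    ring
  rw [h3, h4, pow_succ]
  linear_combination -hb

private lemma V6_alg {Q : ℕ} (hQ : 1 < Q) {x y : Fin 2 → M}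
    (heq : ∀ j, y j ^ Q + y j = x j ^ (Q + 1))
    (hgen : IntermediateField.adjoin F ((k : Set M) ∪ Set.range x ∪ Set.range y) = ⊤) (z : M) :
    IsAlgebraic (IntermediateField.adjoin k (Set.range x)) z := by
  obtain ⟨B, hB⟩ : ∃ B : IntermediateField k M, B = IntermediateField.adjoin k (Set.range x) :=
    ⟨_, rfl⟩
  rw [← hB]
  have hmem : ∀ z ∈ B, z ∈ algebraicClosure B M := fun z hz =>
    (algebraicClosure B M).algebraMap_mem ⟨z, hz⟩
  have hx : ∀ j, x j ∈ B := by
    intro j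
    rw [hB]
    exact IntermediateField.subset_adjoin _ _ ⟨j, rfl⟩
  have hle : (⊤ : Subfield M) ≤ (algebraicClosure B M).toSubfield := by
    have h1 := congrArg IntermediateField.toSubfield hgen
    rw [IntermediateField.adjoin_toSubfield, IntermediateField.top_toSubfield] at h1
    rw [← h1, Subfield.closure_le]
    rintro z (⟨a, rfl⟩ | ((hz | ⟨j, rfl⟩) | ⟨j, rfl⟩))
    · exact hmem _ (B.algebraMap_mem (algebraMap F k a))
    · exact hmem _ (B.algebraMap_mem ⟨z, hz⟩)
    · exact hmem _ (hx j)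
    · change y j ∈ algebraicClosure B M
      rw [mem_algebraicClosure_iff']
      refine IsAlgebraic.isIntegral ⟨X ^ Q + (X - C (⟨x j, hx j⟩ ^ (Q + 1) : B)), ?_, ?_⟩
      · apply ne_zero_of_degree_gt (n := 0)
        rw [degree_add_eq_left_of_degree_lt, degree_X_pow]
        · exact_mod_cast (by omega : 0 < Q)
        · rw [degree_X_sub_C, degree_X_pow]
          exact_mod_cast hQ
      · rw [map_add, map_pow, map_sub, aeval_X, aeval_C, map_pow]
        have h2 : algebraMap B M ⟨x j, hx j⟩ = x j := rfl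
        rw [h2, ← heq j]
        ring
  have h3 : z ∈ algebraicClosure B M := hle (Subfield.mem_top z)
  rw [mem_algebraicClosure_iff'] at h3
  exact h3.isAlgebraic

/-- TASK V6, part 2. Proof: `Q = p ^ s`. Take `b ∈ F` with `b ^ Q + b = 1` (`FixSp.exists_trace`), `x_j = U_j / (V_j - 1)`, `y_j = -1 / (V_j - 1) - b`. With `c = 1 / (V_j - 1)`:
`V_j = 1 + 1 / c`, so `V_j ^ (Q + 1) c ^ (Q + 1) = (c ^ Q + 1) (c + 1)` (`add_pow_char_pow`), and
`x_j ^ (Q + 1) = (1 - V_j ^ (Q + 1)) c ^ (Q + 1) = -c ^ Q - c - 1 = y_j ^ Q + y_j` (`sub_pow_char_pow`,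
`neg_pow`: `(-c - b) ^ Q = 0 ^ Q - c ^ Q - b ^ Q`). Generation: `c = -(y_j + b)`, `V_j = 1 + 1 / c`,
`U_j = x_j (V_j - 1)`. Independence of `x` over `k`: `indep_of_trdeg` (PF/G1b) with `f = U`: `y_j` is a root of the
monic polynomial `X ^ Q + X - x_j ^ (Q + 1)` over `k(x)` (`s > 0`, so that its degree is `Q ≥ 2`), and `M` is
generated over `k(x)` by the `y_j` (`IntermediateField.adjoin` of algebraic elements is algebraic:
`IntermediateField.isAlgebraic_adjoin`, or write `z` as an element of the `IntermediateField` of elements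
algebraic over `k(x)`, `algebraicClosure`, as in `P1_transc`, K/P1). Rotations: `τ` fixes `V`, so it fixes `c`
and `y`, and `τ x_j = ζ x_j`. -/
theorem Ferm2.exists_herm [hFS : FixSp F p (2 * s)] [Fact p.Prime] [CharP F p] (hs : 0 < s)
    (h : Ferm2 (p ^ s + 1) k U V) :
    ∃ x y : Fin 2 → M, Herm2 (p ^ s) k x y ∧
      ∀ (ζ : F) (j : Fin 2) (τ : M →+* M), IsRot k U V ζ j τ → IsRot k x y ζ j τ := by
  have hp : p.Prime := Fact.out
  have hQ : 1 < p ^ s := Nat.one_lt_pow hs.ne' hp.one_lt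
  have : CharP M p := charP_of_injective_algebraMap (algebraMap F M).injective p
  obtain ⟨b, hb⟩ := hFS.exists_trace hp hs
  have hV := h.V_ne (Nat.succ_pos _)
  obtain ⟨x, hx⟩ : ∃ x : Fin 2 → M, ∀ j, x j = U j * (V j - 1)⁻¹ := ⟨_, fun _ => rfl⟩
  obtain ⟨y, hy⟩ : ∃ y : Fin 2 → M, ∀ j, y j = -(V j - 1)⁻¹ - algebraMap F M b :=
    ⟨_, fun _ => rfl⟩
  have heq : ∀ j, y j ^ p ^ s + y j = x j ^ (p ^ s + 1) := by
    intro j
    rw [hx, hy]
    exact V6_eq (h.eq j) (hV j) (by rw [← map_pow, ← map_add, hb, map_one])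
  have hgen : IntermediateField.adjoin F ((k : Set M) ∪ Set.range x ∪ Set.range y) = ⊤ := by
    obtain ⟨R, hR⟩ : ∃ R : IntermediateField F M,
      R = IntermediateField.adjoin F ((k : Set M) ∪ Set.range x ∪ Set.range y) := ⟨_, rfl⟩
    have hkR : ∀ z ∈ k, z ∈ R := by
      intro z hz
      rw [hR]
      exact IntermediateField.subset_adjoin _ _ (Or.inl (Or.inl hz))
    have hxR : ∀ j, x j ∈ R := by
      intro j
      rw [hR]
      exact IntermediateField.subset_adjoin _ _ (Or.inl (Or.inr ⟨j, rfl⟩))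
    have hyR : ∀ j, y j ∈ R := by
      intro j
      rw [hR]
      exact IntermediateField.subset_adjoin _ _ (Or.inr ⟨j, rfl⟩)
    have hcR : ∀ j, V j - 1 ∈ R := by
      intro j
      have h1 : V j - 1 = (-(y j + algebraMap F M b))⁻¹ := by
        rw [hy, sub_add_cancel, neg_neg, inv_inv]
      rw [h1]
      exact inv_mem (neg_mem (add_mem (hyR j) (R.algebraMap_mem b)))
    have hVR : ∀ j, V j ∈ R := by
      intro j
      have h1 := add_mem (hcR j) (one_mem R)
      rwa [sub_add_cancel] at h1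
    have hUR : ∀ j, U j ∈ R := by
      intro j
      have h1 := mul_mem (hxR j) (hcR j)
      rwa [hx, mul_assoc, inv_mul_cancel₀ (hV j), mul_one] at h1
    rw [← hR, eq_top_iff, ← h.gen, IntermediateField.adjoin_le_iff]
    rintro z ((hz | ⟨j, rfl⟩) | ⟨j, rfl⟩)
    · exact hkR z hz
    · exact hUR j
    · exact hVR j
  refine ⟨x, y, ⟨heq, indep_of_trdeg h.ind (V6_alg hQ heq hgen), hgen⟩, fun ζ j τ hτ => ?_⟩
  have hτF : ∀ a : F, τ (algebraMap F M a) = algebraMap F M a := fun a =>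
    hτ.fk _ (k.algebraMap_mem a)
  refine ⟨hτ.fk, ?_, fun i hi => ?_, fun i => ?_⟩
  · rw [hx, map_mul, map_inv₀, map_sub, map_one, hτ.fx, hτ.fy, mul_assoc]
  · rw [hx, map_mul, map_inv₀, map_sub, map_one, hτ.fx' i hi, hτ.fy]
  · rw [hy, map_sub, map_neg, map_inv₀, map_sub, map_one, hτ.fy, hτF]

end UnrG
end

section

/-!
# Rotations of products of Fermat curves
-/

namespace UnrG

universe u v w

open Polynomial Finset
open scoped Classical

variable {F M : Type u} [Field F] [Field M] [Algebra F M] {k : IntermediateField F M}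
  {U V : Fin 2 → M}

private lemma V7_transc {n : ℕ} (h : Ferm2 n k U V) (hn : 0 < n) {i j : Fin 2} (hij : i ≠ j) :
    ∀ f : (Subfield.closure ((k : Set M) ∪ {U i, V i}))[X], f ≠ 0 →
      f.eval₂ (Subfield.closure ((k : Set M) ∪ {U i, V i})).subtype (U j) ≠ 0 := by
  obtain ⟨B, hB⟩ : ∃ B : IntermediateField k M, B =
    IntermediateField.adjoin k (U '' {j}ᶜ) := ⟨_, rfl⟩
  have hT0 : Transcendental B (U j) := by
    subst hB
    rw [IntermediateField.transcendental_adjoin_iff]
    exact h.ind.transcendental_adjoin (s := {j}ᶜ) (i := j) (by simp)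
  have hT : Transcendental (algebraicClosure B M) (U j) := hT0.algebraicClosure
  have hmem : ∀ z ∈ B, z ∈ algebraicClosure B M := fun z hz =>
    (algebraicClosure B M).algebraMap_mem ⟨z, hz⟩
  have hx : U i ∈ B := by
    rw [hB]
    exact IntermediateField.subset_adjoin _ _ ⟨i, by simp [hij], rfl⟩
  have hle : Subfield.closure ((k : Set M) ∪ {U i, V i}) ≤ (algebraicClosure B M).toSubfield := by
    rw [Subfield.closure_le]
    rintro z (hz | rfl | rfl)
    · exact hmem _ (B.algebraMap_mem ⟨z, hz⟩)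
    · exact hmem _ hx
    · have h1 : U i ∈ algebraicClosure B M := hmem _ hx
      have h2 : V i ^ n ∈ algebraicClosure B M := by
        have h3 : V i ^ n = 1 - U i ^ n := eq_sub_of_add_eq' (h.eq i)
        rw [h3]
        exact sub_mem (one_mem _) (pow_mem h1 _)
      change V i ∈ algebraicClosure B M
      rw [mem_algebraicClosure_iff'] at h2 ⊢
      exact h2.of_pow hn
  intro f hf h0
  have hg : Function.Injective (Subfield.inclusion hle) := (Subfield.inclusion hle).injective
  refine hT ⟨f.map (Subfield.inclusion hle), ?_, ?_⟩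
  · exact (Polynomial.map_ne_zero_iff hg).mpr hf
  · rw [aeval_def, eval₂_map]
    exact h0

private lemma V7_gen {n : ℕ} (h : Ferm2 n k U V) {i j : Fin 2} (hij : ∀ l, l = i ∨ l = j) :
    Subfield.closure (Set.range (Subfield.closure ((k : Set M) ∪ {U i, V i})).subtype ∪
      {U j, V j}) = ⊤ := by
  have h1 := congrArg IntermediateField.toSubfield h.gen
  rw [IntermediateField.adjoin_toSubfield, IntermediateField.top_toSubfield] at h1
  rw [eq_top_iff, ← h1, Subfield.closure_le]
  have hO : ∀ z ∈ Subfield.closure ((k : Set M) ∪ {U i, V i}),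
      z ∈ Subfield.closure (Set.range (Subfield.closure ((k : Set M) ∪ {U i, V i})).subtype ∪
        {U j, V j}) :=
    fun z hz => Subfield.subset_closure (Or.inl ⟨⟨z, hz⟩, rfl⟩)
  rintro z (⟨a, rfl⟩ | ((hz | ⟨l, rfl⟩) | ⟨l, rfl⟩))
  · exact hO _ (Subfield.subset_closure (Or.inl (k.algebraMap_mem a)))
  · exact hO _ (Subfield.subset_closure (Or.inl hz))
  · rcases hij l with rfl | rfl
    · exact hO _ (Subfield.subset_closure (Or.inr (Or.inl rfl)))
    · exact Subfield.subset_closure (Or.inr (Or.inl rfl))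
  · rcases hij l with rfl | rfl
    · exact hO _ (Subfield.subset_closure (Or.inr (Or.inr rfl)))
    · exact Subfield.subset_closure (Or.inr (Or.inr rfl))

/-- TASK V7. Proof: let `i ≠ j` be the other index (`fin_cases j`) and
`R = IntermediateField.adjoin F (k ∪ {U i, V i})`. As in `P1_transc` (K/P1) `U j` is transcendental over `R`
(`AlgebraicIndependent.transcendental_adjoin` for `h.ind`, `Transcendental.algebraicClosure`;
`V_i ^ n = 1 - U_i ^ n`), and `M` is generated over `R` by `U j`, `V j`; so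
`IsFermat n (algebraMap R M) (U j) (V j)` (K/X4). `IsFermat.exists_hom` with `g = algebraMap R M`,
`x' = algebraMap F M ζ * U j`, `y' = V j` (`transc_mul` for the transcendence of `x'`, `ζ ≠ 0`) gives `τ`.
It is the identity on `R`, which contains `k`, `U i`, `V i`. -/
theorem Ferm2.exists_rot {n : ℕ} (h : Ferm2 n k U V) (hn : 0 < n) (hnF : (n : F) ≠ 0) {ζ : F}
    (hζ : ζ ^ n = 1) (j : Fin 2) : ∃ τ : M →+* M, IsRot k U V ζ j τ := by
  obtain ⟨i, hij, hall⟩ : ∃ i : Fin 2, i ≠ j ∧ ∀ l, l = i ∨ l = j := by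
    fin_cases j
    · exact ⟨1, by decide, by decide⟩
    · exact ⟨0, by decide, by decide⟩
  have hζ0 : ζ ≠ 0 := by
    rintro rfl
    rw [zero_pow hn.ne'] at hζ
    exact zero_ne_one hζ
  have htr := V7_transc h hn hij
  have hF : IsFermat n (Subfield.closure ((k : Set M) ∪ {U i, V i})).subtype (U j) (V j) :=
    ⟨h.eq j, htr, V7_gen h hall⟩
  have hk : ∀ z ∈ k, z ∈ Subfield.closure ((k : Set M) ∪ {U i, V i}) := fun z hz =>
    Subfield.subset_closure (Or.inl hz)
  have hnK : (n : Subfield.closure ((k : Set M) ∪ {U i, V i})) ≠ 0 := by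
    intro h0
    have h1 := congrArg (Subfield.closure ((k : Set M) ∪ {U i, V i})).subtype h0
    rw [map_natCast, map_zero] at h1
    apply hnF
    apply (algebraMap F M).injective
    rw [map_natCast, map_zero]
    exact h1
  have hc : (⟨algebraMap F M ζ, hk _ (k.algebraMap_mem ζ)⟩ :
      Subfield.closure ((k : Set M) ∪ {U i, V i})) ≠ 0 := by
    intro h0
    have h1 := congrArg (Subfield.closure ((k : Set M) ∪ {U i, V i})).subtype h0
    rw [map_zero] at h1
    exact hζ0 ((map_eq_zero (algebraMap F M)).1 h1)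
  obtain ⟨τ, h1, h2, h3⟩ := hF.exists_hom hn hnK
    (Subfield.closure ((k : Set M) ∪ {U i, V i})).subtype (algebraMap F M ζ * U j) (V j)
    (by rw [mul_pow, ← map_pow, hζ, map_one, one_mul]; exact h.eq j)
    (transc_mul htr hc)
  have hfix : ∀ z ∈ Subfield.closure ((k : Set M) ∪ {U i, V i}), τ z = z := fun z hz =>
    congrArg (fun f : _ →+* M => f ⟨z, hz⟩) h1
  refine ⟨τ, fun z hz => hfix z (hk z hz), h2, fun l hl => ?_, fun l => ?_⟩
  · rcases hall l with rfl | rfl
    · exact hfix _ (Subfield.subset_closure (Or.inr (Or.inl rfl)))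
    · exact absurd rfl hl
  · rcases hall l with rfl | rfl
    · exact hfix _ (Subfield.subset_closure (Or.inr (Or.inr rfl)))
    · exact h3

end UnrG
end
end

section

section

/-!
# The Stickelberger relation for products of Jacobi sums
-/

namespace UnrG

open Finset

private lemma N3_trip {N : ℕ} (t B A : ZMod N) (i : Fin 3) :
    tripE (t * B) (t * A) i = t * tripE B A i := by
  unfold tripE
  fin_cases i
  · simp
  · simp
  · simp [mul_add, mul_comm]

private lemma N3_trip_ne {N : ℕ} {B A : ZMod N} (hB : B ≠ 0) (hA : A ≠ 0) (hC : B + A ≠ 0)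
    (i : Fin 3) : tripE B A i ≠ 0 := by
  unfold tripE
  fin_cases i
  · simpa using hB
  · simpa using hA
  · simpa using neg_ne_zero.2 hC

/-- Proof: as `sum_valSum` (PF/S11), with `prodJacobi_eq_of_eq`, `prodJacobi_pow`,
`v_jacobi_triple` (product over `j`) and `stickelberger`. -/
theorem sum_valSum_prod (p : ℕ) [Fact p.Prime] {k : Type} [Field k] [Fintype k] [CharP k p]
    {N : ℕ} (hN : N.Prime) {e : ℕ} (hcard : Fintype.card k = p ^ e) {n c : ℕ}
    {B A : Fin n → ZMod N} (hB : ∀ j, B j ≠ 0) (hA : ∀ j, A j ≠ 0) (hC : ∀ j, B j + A j ≠ 0)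
    (χ : MulChar k ℂ) (hχ : orderOf χ = N)
    (hJ : ∏ j, jacobiSum (χ ^ (B j).val) (χ ^ (A j).val) = (Fintype.card k : ℂ) ^ c)
    (t : (ZMod N)ˣ) :
    ∑ j, ∑ i, valSum p e ((t : ZMod N) * tripE (B j) (A j) i) = (n + c) * e * N := by
  classical
  letI : Algebra (ZMod p) k := ZMod.algebra k p
  haveI : NeZero N := ⟨hN.ne_zero⟩
  haveI : Fact N.Prime := ⟨hN⟩
  have hq1 : 1 < Fintype.card k := Fintype.one_lt_card
  have hdvd : N ∣ Fintype.card k - 1 := by
    rw [← hχ, ← Fintype.card_units]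
    exact orderOf_dvd_of_pow_eq_one χ.pow_card_eq_one
  obtain ⟨M, hM'⟩ := hdvd
  have hM : Fintype.card k = M * N + 1 := by
    rw [mul_comm M N, ← hM']
    omega
  obtain ⟨V, hV⟩ := exists_valuation p
  obtain ⟨φ⟩ := exists_residue_hom V p hV k
  obtain ⟨ω, hω⟩ := exists_teichmuller V p hV k φ
  have hord : orderOf (ω⁻¹ ^ M) = N := orderOf_teichmuller V hω hN.pos hM
  have hJ' : ∏ j, jacobiSum ((ω⁻¹ ^ M) ^ ((t : ZMod N) * B j).val)
      ((ω⁻¹ ^ M) ^ ((t : ZMod N) * A j).val) = (Fintype.card k : ℂ) ^ c := by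
    rw [← prodJacobi_pow hord B A (t : ZMod N)]
    have hord' : orderOf ((ω⁻¹ ^ M) ^ (t : ZMod N).val) = N := by
      rw [Nat.Coprime.orderOf_pow, hord]
      rw [hord]
      exact (ZMod.val_coe_unit_coprime t).symm
    have h1 := prodJacobi_eq_of_eq hN.pos hχ hord' B A
      ((Fintype.card k : ℤ) ^ c) (by rw [hJ]; push_cast; rfl)
    rw [h1]
    push_cast
    rfl
  have ht0 : (t : ZMod N) ≠ 0 := t.ne_zero
  have h2 : ∀ j, V.valuation (jacobiSum ((ω⁻¹ ^ M) ^ ((t : ZMod N) * B j).val)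
      ((ω⁻¹ ^ M) ^ ((t : ZMod N) * A j).val)) * V.valuation (Fintype.card k : ℂ) =
      ∏ i, V.valuation (gaussSum ((ω⁻¹ ^ M) ^ ((t : ZMod N) * tripE (B j) (A j) i).val)
        (trChar p k)) := by
    intro j
    rw [v_jacobi_triple V (trChar_primitive p k) (ω⁻¹ ^ M) hord (B := (t : ZMod N) * B j)
      (A := (t : ZMod N) * A j) (by rw [← mul_add]; exact mul_ne_zero ht0 (hC j))]
    exact Finset.prod_congr rfl fun i _ => by rw [N3_trip]
  have h3 : ∀ j, ∀ i : Fin 3, V.valuation (gaussSum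
      ((ω⁻¹ ^ M) ^ ((t : ZMod N) * tripE (B j) (A j) i).val)
      (trChar p k)) ^ N = V.valuation (p : ℂ) ^ valSum p e ((t : ZMod N) * tripE (B j) (A j) i) := by
    intro j i
    have hc : (t : ZMod N) * tripE (B j) (A j) i ≠ 0 :=
      mul_ne_zero ht0 (N3_trip_ne (hB j) (hA j) (hC j) i)
    rw [← pow_mul]
    exact stickelberger V p hV k hω hcard hN.two_le (by rw [← hcard]; exact hM) hc
  have h4 : (∏ j, (V.valuation (jacobiSum ((ω⁻¹ ^ M) ^ ((t : ZMod N) * B j).val)
      ((ω⁻¹ ^ M) ^ ((t : ZMod N) * A j).val)) * V.valuation (Fintype.card k : ℂ))) ^ N =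
      V.valuation (p : ℂ) ^ (∑ j, ∑ i, valSum p e ((t : ZMod N) * tripE (B j) (A j) i)) := by
    rw [← Finset.prod_pow_eq_pow_sum, ← Finset.prod_pow]
    refine Finset.prod_congr rfl fun j _ => ?_
    rw [h2 j, ← Finset.prod_pow, Finset.prod_congr rfl fun i _ => h3 j i,
      Finset.prod_pow_eq_pow_sum]
  rw [Finset.prod_mul_distrib, ← map_prod, hJ', Finset.prod_const, Finset.card_univ,
    Fintype.card_fin] at h4
  have hvq : V.valuation (Fintype.card k : ℂ) = V.valuation (p : ℂ) ^ e := by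
    rw [hcard]
    push_cast
    rw [map_pow]
  rw [map_pow, hvq, ← pow_mul, ← pow_mul, ← pow_add, ← pow_mul] at h4
  have hv0 : 0 < V.valuation (p : ℂ) := by
    rw [zero_lt_iff]
    exact (Valuation.ne_zero_iff _).2 (Nat.cast_ne_zero.2 (Fact.out : p.Prime).ne_zero)
  have h5 := pow_right_injective₀ hv0 hV.ne h4
  rw [← h5]
  ring

end UnrG
end

section

/-!
# The cotangent series
-/

namespace UnrG

open Finset

/-- Hint: `cot_series_rep` for `z = a / N`:
`π cot (π z) = 1 / z + ∑_{n ≥ 1} (1 / (z - n) + 1 / (z + n))`; the finite sums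
`∑_{m < M} (1 / (m + z) - 1 / (m + 1 - z))` are
`1 / z + ∑_{1 ≤ n < M} (1 / (n + z) + 1 / (z - n)) - 1 / (M - z)`. The series of the statement converges
absolutely (its terms are `(N - 2 a) / ((m N + a) (m N + N - a))`), so the sum is the limit of the
sums over `m < M`. -/
theorem cot_hasSum {N a : ℕ} (ha : 0 < a) (haN : a < N) :
    HasSum (fun m : ℕ => (1 / ((m : ℂ) * N + a) - 1 / ((m : ℂ) * N + (N - a))))
      ((Real.pi : ℂ) / N * Complex.cot (Real.pi * a / N)) := by
  have hN0 : (0 : ℝ) < N := by exact_mod_cast (ha.trans haN)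
  have ha0 : (0 : ℝ) < a := by exact_mod_cast ha
  have haN' : (a : ℝ) < N := by exact_mod_cast haN
  have ha1 : (1 : ℝ) ≤ a := by exact_mod_cast ha
  have haN1 : (a : ℝ) + 1 ≤ N := by exact_mod_cast haN
  -- the terms are real
  have hterm : ∀ m : ℕ, (1 / ((m : ℂ) * N + a) - 1 / ((m : ℂ) * N + (N - a))) =
      ((1 / ((m : ℝ) * N + a) - 1 / ((m : ℝ) * N + (N - a)) : ℝ) : ℂ) := by
    intro m
    push_cast
    rfl
  -- summability
  have hsum : Summable (fun m : ℕ => (1 / ((m : ℂ) * N + a) - 1 / ((m : ℂ) * N + (N - a)))) := by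
    have hg : Summable (fun m : ℕ => (N : ℝ) * (1 / (((m + 1 : ℕ) : ℝ) ^ 2))) := by
      refine Summable.mul_left _ ?_
      exact (summable_nat_add_iff 1).mpr (Real.summable_one_div_nat_pow.mpr one_lt_two)
    refine Summable.of_norm_bounded hg fun m => ?_
    rw [hterm, Complex.norm_real, Real.norm_eq_abs]
    have hm : (0 : ℝ) ≤ m := Nat.cast_nonneg m
    have h1 : (m : ℝ) + 1 ≤ (m : ℝ) * N + a := by nlinarith
    have h2 : (m : ℝ) + 1 ≤ (m : ℝ) * N + (N - a) := by nlinarith
    have h1' : (0 : ℝ) < (m : ℝ) * N + a := by linarith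
    have h2' : (0 : ℝ) < (m : ℝ) * N + (N - a) := by linarith
    have h3 : 1 / ((m : ℝ) * N + a) - 1 / ((m : ℝ) * N + (N - a)) =
        ((N : ℝ) - 2 * a) / (((m : ℝ) * N + a) * ((m : ℝ) * N + (N - a))) := by
      rw [div_sub_div _ _ h1'.ne' h2'.ne']
      congr 1
      ring
    rw [h3, abs_div, abs_of_pos (mul_pos h1' h2'), mul_one_div]
    have h4 : |(N : ℝ) - 2 * a| ≤ N := by
      rw [abs_le]
      constructor <;> linarith
    push_cast
    refine div_le_div₀ hN0.le h4 (by positivity) ?_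
    rw [sq]
    exact mul_le_mul h1 h2 (by positivity) h1'.le
  rw [hsum.hasSum_iff_tendsto_nat]
  -- the integer complement
  obtain ⟨z, hz⟩ : ∃ z : ℂ, z = (a : ℂ) / N := ⟨_, rfl⟩
  have hNc : (N : ℂ) ≠ 0 := by exact_mod_cast (ha.trans haN).ne'
  have hac : (a : ℂ) = z * N := by
    rw [hz]
    field_simp
  have hzc : z ∈ Complex.integerComplement := by
    rw [Complex.mem_integerComplement_iff]
    rintro ⟨n, hn⟩
    have h1 : (a : ℂ) = n * N := by rw [hac, hn]
    have h2 : (a : ℤ) = n * N := by exact_mod_cast h1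
    have h3 : 0 < n := by
      by_contra h4
      have : n * N ≤ 0 := mul_nonpos_of_nonpos_of_nonneg (not_lt.mp h4) (by positivity)
      omega
    have h4 : (N : ℤ) ≤ n * N := by
      nlinarith [(by positivity : (0 : ℤ) ≤ (N : ℤ))]
    omega
  have hne1 : ∀ m : ℕ, z + (m : ℂ) ≠ 0 := fun m => by
    have := Complex.integerComplement_add_ne_zero hzc (m : ℤ)
    simpa using this
  have hne2 : ∀ m : ℕ, z - ((m : ℂ) + 1) ≠ 0 := fun m => by
    have := Complex.integerComplement_add_ne_zero hzc (-(m + 1) : ℤ)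
    simpa [sub_eq_add_neg] using this
  have hpart : ∀ M : ℕ, ∑ m ∈ range M, (1 / ((m : ℂ) * N + a) - 1 / ((m : ℂ) * N + (N - a))) =
      1 / N * (1 / z + ∑ j ∈ range M, cotTerm z j - 1 / (z + M)) := by
    intro M
    induction M with
    | zero => simp
    | succ M ih =>
      rw [sum_range_succ, sum_range_succ, ih]
      have e1 : 1 / ((M : ℂ) * N + a) = 1 / N * (1 / (z + M)) := by
        rw [hac, one_div_mul_one_div]
        congr 1
        ring
      have e2 : 1 / ((M : ℂ) * N + (N - a)) = -(1 / N * (1 / (z - (M + 1)))) := by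
        rw [hac, one_div_mul_one_div, ← one_div_neg_eq_neg_one_div]
        congr 1
        ring
      rw [e1, e2, cotTerm]
      push_cast
      have e3 : z + ((M : ℂ) + 1) = z + (M + 1) := rfl
      ring
  have hlim : Filter.Tendsto (fun M : ℕ => 1 / (N : ℂ) * (1 / z + ∑ j ∈ range M, cotTerm z j -
      1 / (z + M))) Filter.atTop (nhds (1 / (N : ℂ) * (1 / z + (Real.pi * Complex.cot (Real.pi * z)
        - 1 / z) - 0))) := by
    refine Filter.Tendsto.const_mul _ (Filter.Tendsto.sub (Filter.Tendsto.const_add _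
      (tendsto_logDeriv_euler_cot_sub hzc)) ?_)
    have h1 : Filter.Tendsto (fun M : ℕ => ((a : ℝ) / N + M)⁻¹) Filter.atTop (nhds 0) :=
      tendsto_inv_atTop_zero.comp
        (Filter.tendsto_atTop_add_const_left _ _ tendsto_natCast_atTop_atTop)
    have h2 := (Complex.continuous_ofReal.tendsto 0).comp h1
    rw [Complex.ofReal_zero] at h2
    refine h2.congr fun M => ?_
    rw [Function.comp_apply, hz]
    push_cast
    rw [one_div]
  simp_rw [hpart]
  have he : 1 / (N : ℂ) * (1 / z + (Real.pi * Complex.cot (Real.pi * z) - 1 / z) - 0) =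
      (Real.pi : ℂ) / N * Complex.cot (Real.pi * a / N) := by
    have : (Real.pi : ℂ) * a / N = Real.pi * z := by
      rw [hz]
      ring
    rw [this]
    ring
  rw [← he]
  exact hlim

end UnrG
end

section

/-!
# A series depending continuously on `s`
-/

namespace UnrG

open Finset Filter Topology

private lemma aux_diff {a b s : ℝ} (ha : 1 ≤ a) (hab : a ≤ b) (hs1 : 1 ≤ s) (hs2 : s ≤ 2) :
    |a ^ (-s) - b ^ (-s)| ≤ 2 * (b - a) / a ^ 2 := by
  have ha0 : 0 < a := by linarith
  have hb0 : 0 < b := by linarith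
  have hr0 : 0 < a / b := div_pos ha0 hb0
  have hr1 : a / b ≤ 1 := (div_le_one hb0).2 hab
  have e1 : b ^ (-s) = a ^ (-s) * (a / b) ^ s := by
    rw [Real.div_rpow ha0.le hb0.le, Real.rpow_neg ha0.le, Real.rpow_neg hb0.le]
    have : a ^ s ≠ 0 := (Real.rpow_pos_of_pos ha0 s).ne'
    field_simp
  have e2 : (a / b) ^ (2 : ℝ) ≤ (a / b) ^ s := Real.rpow_le_rpow_of_exponent_ge hr0 hr1 hs2
  have e2' : (a / b) ^ (2 : ℕ) ≤ (a / b) ^ s := by
    have : (a / b) ^ (2 : ℝ) = (a / b) ^ (2 : ℕ) := by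
      rw [← Real.rpow_natCast]; norm_num
    rw [← this]; exact e2
  have e3 : (a / b) ^ s ≤ 1 := Real.rpow_le_one hr0.le hr1 (by linarith)
  have e4 : 0 < a ^ (-s) := Real.rpow_pos_of_pos ha0 _
  have e5 : a ^ (-s) ≤ a⁻¹ := by
    rw [← Real.rpow_neg_one]
    exact Real.rpow_le_rpow_of_exponent_le ha (by linarith)
  have h1 : a ^ (-s) - b ^ (-s) = a ^ (-s) * (1 - (a / b) ^ s) := by rw [e1]; ring
  rw [h1, abs_of_nonneg (mul_nonneg e4.le (by linarith))]
  calc a ^ (-s) * (1 - (a / b) ^ s) ≤ a⁻¹ * (1 - (a / b) ^ (2 : ℕ)) := by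
        exact mul_le_mul e5 (sub_le_sub_left e2' 1) (sub_nonneg.2 e3) (inv_pos.2 ha0).le
    _ = (b - a) * (b + a) / (a * b ^ 2) := by field_simp; ring
    _ ≤ (b - a) * (2 * b) / (a * b ^ 2) := by
        apply div_le_div_of_nonneg_right _ (by positivity)
        apply mul_le_mul_of_nonneg_left (by linarith) (by linarith)
    _ = 2 * (b - a) / (a * b) := by field_simp
    _ ≤ 2 * (b - a) / a ^ 2 := by
        apply div_le_div_of_nonneg_left (by linarith) (by positivity)
        rw [pow_two]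
        exact mul_le_mul_of_nonneg_left hab ha0.le

private lemma aux_diff' {a b s c D : ℝ} (hc : 1 ≤ c) (ha : c ≤ a) (hb : c ≤ b) (hD : |b - a| ≤ D)
    (hs1 : 1 ≤ s) (hs2 : s ≤ 2) : |a ^ (-s) - b ^ (-s)| ≤ 2 * D / c ^ 2 := by
  have hc0 : 0 < c := by linarith
  have hD0 : 0 ≤ D := le_trans (abs_nonneg _) hD
  rcases le_total a b with h | h
  · refine (aux_diff (hc.trans ha) h hs1 hs2).trans ?_
    rw [abs_of_nonneg (by linarith)] at hD
    apply div_le_div₀ (by linarith) (by linarith) (by positivity)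
    exact pow_le_pow_left₀ hc0.le ha 2
  · rw [abs_sub_comm]
    refine (aux_diff (hc.trans hb) h hs1 hs2).trans ?_
    rw [abs_sub_comm, abs_of_nonneg (by linarith)] at hD
    apply div_le_div₀ (by linarith) (by linarith) (by positivity)
    exact pow_le_pow_left₀ hc0.le hb 2

private lemma aux_lower {N a : ℕ} (ha : 0 < a) (hN : 0 < N) (m : ℕ) :
    (m : ℝ) + 1 ≤ (m : ℝ) * N + a := by
  have h : m + 1 ≤ m * N + a := by nlinarith
  exact_mod_cast h

/-- Hint: for `m ≥ 1` and `s ∈ [1, 2]` each term has absolute value at most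
`2 N (m N) ^ (-2) * ...`: `|x ^ (-s) - y ^ (-s)| ≤ s |x - y| min (x, y) ^ (-s - 1)` by the mean value
theorem (`1 ≤ x, y`); dominated convergence: `continuousOn_tsum` or
`tendsto_tsum_of_dominated_convergence`. -/
theorem tendsto_tsum_diff {N a : ℕ} (ha : 0 < a) (haN : a < N) :
    Tendsto (fun s : ℝ => ∑' m : ℕ, (((m : ℝ) * N + a) ^ (-s) - ((m : ℝ) * N + (N - a)) ^ (-s)))
      (𝓝[>] 1)
      (𝓝 (∑' m : ℕ, (((m : ℝ) * N + a) ^ (-1 : ℝ) - ((m : ℝ) * N + (N - a)) ^ (-1 : ℝ)))) := by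
  have hN : 0 < N := by omega
  have hcast : ((N : ℝ) - a) = ((N - a : ℕ) : ℝ) := by
    rw [Nat.cast_sub haN.le]
  have hl1 : ∀ m : ℕ, (m : ℝ) + 1 ≤ (m : ℝ) * N + a := aux_lower ha hN
  have hl2 : ∀ m : ℕ, (m : ℝ) + 1 ≤ (m : ℝ) * N + (N - a) := by
    intro m
    rw [hcast]
    exact aux_lower (by omega) hN m
  have hsum : Summable (fun m : ℕ => 2 * (N : ℝ) / ((m : ℝ) + 1) ^ 2) := by
    have h1 : Summable (fun n : ℕ => 1 / (n : ℝ) ^ 2) :=
      Real.summable_one_div_nat_pow.2 (by norm_num)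
    have h2 := ((summable_nat_add_iff 1).2 h1).mul_left (2 * (N : ℝ))
    refine h2.congr ?_
    intro m
    push_cast
    ring
  apply tendsto_tsum_of_dominated_convergence hsum
  · intro m
    have hx : (m : ℝ) * N + a ≠ 0 := by
      have := hl1 m
      positivity
    have hy : (m : ℝ) * N + (N - a) ≠ 0 := by
      have h1 := hl2 m
      have h2 : (0 : ℝ) ≤ m := Nat.cast_nonneg m
      have : (0 : ℝ) < (m : ℝ) * N + (N - a) := by linarith
      exact this.ne'
    have hc : Continuous (fun s : ℝ => ((m : ℝ) * N + a) ^ (-s) - ((m : ℝ) * N + (N - a)) ^ (-s)) :=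
      ((Real.continuous_const_rpow hx).comp continuous_neg).sub
        ((Real.continuous_const_rpow hy).comp continuous_neg)
    exact (hc.tendsto 1).mono_left nhdsWithin_le_nhds
  · have hev : ∀ᶠ s : ℝ in 𝓝[>] 1, s ∈ Set.Ioo (1 : ℝ) 2 := Ioo_mem_nhdsGT (by norm_num)
    filter_upwards [hev] with s hs m
    rw [Real.norm_eq_abs]
    apply aux_diff' (by have : (0 : ℝ) ≤ m := Nat.cast_nonneg m
                        linarith) (hl1 m) (hl2 m) _ hs.1.le hs.2.le
    rw [abs_le]
    have h1 : (a : ℝ) < N := by exact_mod_cast haN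
    have h2 : (0 : ℝ) < a := by exact_mod_cast ha
    constructor <;> linarith

/-- The series for `s > 1` are separately summable. -/
theorem summable_rpow {N a : ℕ} (ha : 0 < a) (hN : 0 < N) {s : ℝ} (hs : 1 < s) :
    Summable (fun m : ℕ => ((m : ℝ) * N + a) ^ (-s)) := by
  have h1 : Summable (fun n : ℕ => (n : ℝ) ^ (-s)) := Real.summable_nat_rpow.2 (by linarith)
  have h2 := (summable_nat_add_iff 1).2 h1
  refine Summable.of_nonneg_of_le (fun m => ?_) (fun m => ?_) h2
  · positivity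
  · have h3 : (0 : ℝ) < ((m + 1 : ℕ) : ℝ) := by positivity
    have h4 := aux_lower ha hN m
    apply Real.rpow_le_rpow_of_nonpos h3 _ (by linarith)
    push_cast
    exact h4

end UnrG
end

section

/-!
# The value of an odd Dirichlet `L`-function at one
-/

namespace UnrG

open Finset Filter Topology

private theorem T3_sum_zmod {N : ℕ} [hN : NeZero N] (F : ℕ → ℂ) :
    ∑ x : ZMod N, F x.val = ∑ j ∈ range N, F j := by
  obtain ⟨n, rfl⟩ : ∃ n, N = n + 1 := ⟨N - 1, (Nat.succ_pred_eq_of_ne_zero hN.out).symm⟩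
  rw [← Fin.sum_univ_eq_sum_range F (n + 1)]
  rfl

private theorem T3_sum_Ioo {N : ℕ} [hN : NeZero N] (F : ℕ → ℂ) (h0 : F 0 = 0) :
    ∑ x : ZMod N, F x.val = ∑ a ∈ Ioo 0 N, F a := by
  rw [T3_sum_zmod, range_eq_Ico]
  have h1 : 0 < N := Nat.pos_of_ne_zero hN.out
  rw [← Finset.sum_Ioo_add_eq_sum_Ico h1, h0, add_zero]

/-- Hint: `DirichletCharacter.LFunction_eq_LSeries`, `LSeries` as a sum over `n`, decomposed into the
residue classes mod `N` (`Nat.sumByResidueClasses`, or `Nat.divModEquiv`); the class of `0` does not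
contribute because `χ 0 = 0` (`1 < N` as `χ` is odd and `χ ≠ 1`); then symmetrize `a ↦ N - a` with
`χ (-a) = -χ a`. -/
theorem LFunction_eq_of_one_lt {N : ℕ} [NeZero N] (hN : 2 < N) {χ : DirichletCharacter ℂ N}
    (hχ : χ.Odd) {s : ℝ} (hs : 1 < s) :
    2 * DirichletCharacter.LFunction χ s = ∑ a ∈ Ioo 0 N, χ (a : ZMod N) *
      ((∑' m : ℕ, (((m : ℝ) * N + a) ^ (-s) - ((m : ℝ) * N + (N - a)) ^ (-s)) : ℝ) : ℂ) := by
  have hs' : 1 < (s : ℂ).re := by rwa [Complex.ofReal_re]
  have hN1 : 1 < N := by omega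
  have : Fact (1 < N) := ⟨hN1⟩
  have hχ0 : χ 0 = 0 := MulChar.map_zero χ
  obtain ⟨S, hS⟩ : ∃ S : ℕ → ℂ, ∀ a, S a = ((∑' m : ℕ, ((m : ℝ) * N + a) ^ (-s) : ℝ) : ℂ) :=
    ⟨_, fun a => rfl⟩
  -- decomposition into residue classes
  have h1 : DirichletCharacter.LFunction χ s = ∑ a ∈ Ioo 0 N, χ (a : ZMod N) * S a := by
    rw [DirichletCharacter.LFunction_eq_LSeries χ hs', LSeries,
      Nat.sumByResidueClasses (DirichletCharacter.LSeriesSummable_of_one_lt_re χ hs') N,
      ← T3_sum_Ioo (fun a : ℕ => χ (a : ZMod N) * S a) (by simp [hχ0])]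
    refine sum_congr rfl fun j _ => ?_
    rw [hS, Complex.ofReal_tsum, ← tsum_mul_left]
    refine tsum_congr fun m => ?_
    have e1 : ((j.val + N * m : ℕ) : ZMod N) = j := by
      push_cast
      rw [ZMod.natCast_self, zero_mul, add_zero, ZMod.natCast_zmod_val]
    rw [ZMod.natCast_zmod_val]
    by_cases hj : j = 0
    · rw [LSeries.term]
      split_ifs
      · rw [hj, hχ0, zero_mul]
      · rw [e1, hj, hχ0, zero_div, zero_mul]
    · have hj' : 0 < j.val := Nat.pos_of_ne_zero ((ZMod.val_ne_zero j).mpr hj)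
      have hne : j.val + N * m ≠ 0 := by omega
      rw [LSeries.term_of_ne_zero hne, e1, div_eq_mul_inv, ← Complex.cpow_neg]
      congr 1
      have h2 : (0 : ℝ) ≤ (m : ℝ) * N + j.val := by positivity
      rw [Complex.ofReal_cpow h2]
      push_cast
      congr 1
      ring
  -- reflection
  have h2 : ∑ a ∈ Ioo 0 N, χ (a : ZMod N) * S a =
      -∑ a ∈ Ioo 0 N, χ (a : ZMod N) * S (N - a) := by
    rw [← sum_neg_distrib]
    refine sum_bij' (fun a _ => N - a) (fun a _ => N - a) ?_ ?_ ?_ ?_ ?_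
    · intro a ha
      rw [mem_Ioo] at ha ⊢
      omega
    · intro a ha
      rw [mem_Ioo] at ha ⊢
      omega
    · intro a ha
      rw [mem_Ioo] at ha
      show N - (N - a) = a
      omega
    · intro a ha
      rw [mem_Ioo] at ha
      show N - (N - a) = a
      omega
    · intro a ha
      rw [mem_Ioo] at ha
      have e1 : N - (N - a) = a := by omega
      have e2 : ((N - a : ℕ) : ZMod N) = -(a : ZMod N) := by
        rw [Nat.cast_sub ha.2.le, ZMod.natCast_self, zero_sub]
      have e3 : χ (-(a : ZMod N)) = -χ (a : ZMod N) :=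
        DirichletCharacter.Odd.eval_neg χ _ hχ
      simp only [e1, e2, e3]
      ring
  have h3 : ∀ a ∈ Ioo 0 N, χ (a : ZMod N) *
      ((∑' m : ℕ, (((m : ℝ) * N + a) ^ (-s) - ((m : ℝ) * N + (N - a)) ^ (-s)) : ℝ) : ℂ) =
      χ (a : ZMod N) * S a - χ (a : ZMod N) * S (N - a) := by
    intro a ha
    rw [mem_Ioo] at ha
    have hNpos : 0 < N := by omega
    have e1 : ((N - a : ℕ) : ℝ) = (N : ℝ) - a := by
      rw [Nat.cast_sub ha.2.le]
    have s1 := summable_rpow ha.1 hNpos hs
    have s2 := summable_rpow (a := N - a) (by omega) hNpos hs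
    rw [e1] at s2
    rw [hS, hS, e1, Summable.tsum_sub s1 s2, Complex.ofReal_sub]
    ring
  rw [sum_congr rfl h3, sum_sub_distrib, h1]
  have h4 : ∑ a ∈ Ioo 0 N, χ (a : ZMod N) * S (N - a) =
      -∑ a ∈ Ioo 0 N, χ (a : ZMod N) * S a := by
    rw [h2, neg_neg]
  rw [h4]
  ring

/-- Hint: let `s → 1+`: the left side is continuous (`DirichletCharacter.differentiable_LFunction`
for `χ ≠ 1`), the right side by `tendsto_tsum_diff`; the limit is computed by `cot_hasSum`. -/
theorem LFunction_one_eq {N : ℕ} [NeZero N] (hN : 2 < N) {χ : DirichletCharacter ℂ N}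
    (hχ : χ.Odd) :
    2 * DirichletCharacter.LFunction χ 1 = ∑ a ∈ Ioo 0 N, χ (a : ZMod N) *
      ((Real.pi : ℂ) / N * Complex.cot (Real.pi * a / N)) := by
  have hχ1 : χ ≠ 1 := by
    rintro rfl
    have h1 : (1 : DirichletCharacter ℂ N) (-1) = -1 := hχ
    rw [MulChar.one_apply isUnit_one.neg] at h1
    norm_num at h1
  have hL : Tendsto (fun s : ℝ => 2 * DirichletCharacter.LFunction χ s) (𝓝[>] 1)
      (𝓝 (2 * DirichletCharacter.LFunction χ 1)) := by
    have h1 : Continuous fun s : ℝ => 2 * DirichletCharacter.LFunction χ (s : ℂ) :=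
      continuous_const.mul
        ((DirichletCharacter.differentiable_LFunction hχ1).continuous.comp
          Complex.continuous_ofReal)
    have h2 := (h1.tendsto 1).mono_left (nhdsWithin_le_nhds (s := Set.Ioi (1 : ℝ)))
    simpa using h2
  have hR : Tendsto (fun s : ℝ => ∑ a ∈ Ioo 0 N, χ (a : ZMod N) *
      ((∑' m : ℕ, (((m : ℝ) * N + a) ^ (-s) - ((m : ℝ) * N + (N - a)) ^ (-s)) : ℝ) : ℂ))
      (𝓝[>] 1) (𝓝 (∑ a ∈ Ioo 0 N, χ (a : ZMod N) *
        ((Real.pi : ℂ) / N * Complex.cot (Real.pi * a / N)))) := by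
    refine tendsto_finsetSum _ fun a ha => Tendsto.const_mul _ ?_
    rw [mem_Ioo] at ha
    have h1 := (Complex.continuous_ofReal.tendsto _).comp (tendsto_tsum_diff ha.1 ha.2)
    have h2 : ((∑' m : ℕ, (((m : ℝ) * N + a) ^ (-1 : ℝ) -
        ((m : ℝ) * N + (N - a)) ^ (-1 : ℝ)) : ℝ) : ℂ) =
        (Real.pi : ℂ) / N * Complex.cot (Real.pi * a / N) := by
      rw [← (cot_hasSum ha.1 ha.2).tsum_eq, Complex.ofReal_tsum]
      refine tsum_congr fun m => ?_
      rw [Real.rpow_neg_one, Real.rpow_neg_one]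
      push_cast
      rw [one_div, one_div]
    rw [← h2]
    exact h1
  have hE : (fun s : ℝ => 2 * DirichletCharacter.LFunction χ s) =ᶠ[𝓝[>] 1]
      (fun s : ℝ => ∑ a ∈ Ioo 0 N, χ (a : ZMod N) *
      ((∑' m : ℕ, (((m : ℝ) * N + a) ^ (-s) - ((m : ℝ) * N + (N - a)) ^ (-s)) : ℝ) : ℂ)) := by
    filter_upwards [self_mem_nhdsWithin] with s hs
    exact LFunction_eq_of_one_lt hN hχ hs
  exact tendsto_nhds_unique (hL.congr' hE) hR

end UnrG
end

section

/-!
# The finite Fourier transform of the sawtooth function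
-/

namespace UnrG

open Finset

private theorem T4_sum_zmod {N : ℕ} [hN : NeZero N] (F : ZMod N → ℂ) :
    ∑ x : ZMod N, F x = ∑ j ∈ range N, F (j : ZMod N) := by
  obtain ⟨n, rfl⟩ : ∃ n, N = n + 1 := ⟨N - 1, (Nat.succ_pred_eq_of_ne_zero hN.out).symm⟩
  rw [← Fin.sum_univ_eq_sum_range (fun j => F (j : ZMod (n + 1))) (n + 1)]
  refine sum_congr rfl fun x _ => ?_
  have h1 : ((ZMod.val (n := n + 1) x : ℕ) : ZMod (n + 1)) = x := ZMod.natCast_zmod_val x
  exact congrArg F h1.symm

private theorem T4_sum_Ioo {N : ℕ} [hN : NeZero N] (F : ZMod N → ℂ) (h0 : F 0 = 0) :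
    ∑ a ∈ Ioo 0 N, F (a : ZMod N) = ∑ x : ZMod N, F x := by
  rw [T4_sum_zmod, range_eq_Ico]
  have h1 : 0 < N := Nat.pos_of_ne_zero hN.out
  rw [← Finset.sum_Ioo_add_eq_sum_Ico h1]
  simp [h0]

private theorem T4_geom (z : ℂ) (M : ℕ) :
    (z - 1) * ∑ k ∈ range M, (k : ℂ) * z ^ k = M * z ^ M - z * ∑ k ∈ range M, z ^ k := by
  induction M with
  | zero => simp
  | succ M ih =>
    rw [sum_range_succ, sum_range_succ, mul_add, ih]
    push_cast
    ring

/-- Hint: with `z = exp (2 π i a / N) = stdAddChar a`, `z ^ N = 1`, `z ≠ 1`: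
`∑_{k < N} k z ^ k = N / (z - 1)` (multiply by `z - 1` and telescope, or induction), and
`cot (π a / N) = i (z + 1) / (z - 1) = i (1 + 2 / (z - 1))`. -/
theorem cot_eq_sum {N a : ℕ} [NeZero N] (ha : 0 < a) (haN : a < N) :
    Complex.cot (Real.pi * a / N) = Complex.I * (1 + 2 / N *
      ∑ k : ZMod N, (k.val : ℂ) * ZMod.stdAddChar (k * (a : ZMod N))) := by
  have hNc : (N : ℂ) ≠ 0 := by exact_mod_cast (ha.trans haN).ne'
  obtain ⟨z, hz⟩ : ∃ z : ℂ, z = ZMod.stdAddChar ((a : ℕ) : ZMod N) := ⟨_, rfl⟩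
  have hz1 : z = Complex.exp (2 * Real.pi * Complex.I * (a / N)) := by
    have h1 := ZMod.stdAddChar_coe (N := N) (a : ℤ)
    rw [hz]
    rw [Int.cast_natCast] at h1
    rw [h1]
    congr 1
    push_cast
    ring
  have hzk : ∀ j : ℕ, ZMod.stdAddChar ((j : ZMod N) * (a : ZMod N)) = z ^ j := by
    intro j
    rw [hz, ← AddChar.map_nsmul_eq_pow, nsmul_eq_mul]
  have hzN : z ^ N = 1 := by
    rw [← hzk, ZMod.natCast_self, zero_mul, AddChar.map_zero_eq_one]
  have hz0 : z ≠ 1 := by
    intro h1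
    have h2 : (ZMod.stdAddChar ((a : ℕ) : ZMod N) : ℂ) = ZMod.stdAddChar (0 : ZMod N) := by
      rw [← hz, h1, AddChar.map_zero_eq_one]
    have h3 := ZMod.injective_stdAddChar h2
    rw [ZMod.natCast_eq_zero_iff] at h3
    exact absurd (Nat.le_of_dvd ha h3) (not_le.mpr haN)
  have hz1' : z - 1 ≠ 0 := sub_ne_zero.mpr hz0
  have hgeom : ∑ k ∈ range N, z ^ k = 0 := by
    have h1 := mul_geom_sum z N
    rw [hzN, sub_self] at h1
    exact (mul_eq_zero.mp h1).resolve_left hz1'
  have hS : ∑ k : ZMod N, (k.val : ℂ) * ZMod.stdAddChar (k * (a : ZMod N)) = N / (z - 1) := by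
    rw [T4_sum_zmod]
    have h1 : ∑ j ∈ range N, (((j : ZMod N).val : ℕ) : ℂ) *
        ZMod.stdAddChar ((j : ZMod N) * (a : ZMod N)) = ∑ j ∈ range N, (j : ℂ) * z ^ j := by
      refine sum_congr rfl fun j hj => ?_
      rw [hzk, ZMod.val_natCast, Nat.mod_eq_of_lt (mem_range.mp hj)]
    rw [h1, eq_div_iff hz1', mul_comm, T4_geom, hzN, hgeom]
    ring
  rw [hS]
  have h1 : (Real.pi : ℂ) * a / N = Real.pi * (a / N) := by ring
  rw [h1, Complex.cot_pi_eq_exp_ratio, ← hz1]
  have hI := Complex.I_mul_I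
  have h2 : Complex.I * (1 - z) ≠ 0 := mul_ne_zero Complex.I_ne_zero (by
    intro h3
    exact hz1' (by linear_combination -h3))
  rw [div_eq_iff h2]
  field_simp
  linear_combination (z ^ 2 - 1) * hI

/-- Proof: insert `cot_eq_sum` (sum over `a ≠ 0`), `∑ χ a = 0`, exchange the sums, and
`∑_a χ a stdAddChar (k a) = χ⁻¹ k g(χ)` for `k ≠ 0` (`gaussSum_mulShift`; `k` is a unit as `N` is
prime); the term `k = 0` vanishes because `k.val = 0`. -/
theorem sum_cot_eq {N : ℕ} [Fact N.Prime] {χ : DirichletCharacter ℂ N} (hχ : χ ≠ 1) :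
    ∑ a ∈ Ioo 0 N, χ (a : ZMod N) * Complex.cot (Real.pi * a / N) =
      2 * Complex.I / N * gaussSum χ ZMod.stdAddChar * ∑ k : ZMod N, χ⁻¹ k * (k.val : ℂ) := by
  have h1 : ∑ a ∈ Ioo 0 N, χ (a : ZMod N) * Complex.cot (Real.pi * a / N) =
      ∑ a ∈ Ioo 0 N, (fun x : ZMod N => χ x * (Complex.I * (1 + 2 / N *
        ∑ k : ZMod N, (k.val : ℂ) * ZMod.stdAddChar (k * x)))) (a : ZMod N) := by
    refine sum_congr rfl fun a ha => ?_
    rw [mem_Ioo] at ha
    rw [cot_eq_sum ha.1 ha.2]
  have hχ0 : χ 0 = 0 := MulChar.map_zero χ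
  refine h1.trans ((T4_sum_Ioo (fun x : ZMod N => χ x * (Complex.I * (1 + 2 / N *
        ∑ k : ZMod N, (k.val : ℂ) * ZMod.stdAddChar (k * x)))) (by simp [hχ0])).trans ?_)
  have h2 : ∀ k : ZMod N, (k.val : ℂ) * ∑ x : ZMod N, χ x * ZMod.stdAddChar (k * x) =
      gaussSum χ ZMod.stdAddChar * (χ⁻¹ k * (k.val : ℂ)) := by
    intro k
    by_cases hk : k = 0
    · rw [hk, ZMod.val_zero]
      simp
    · have h3 := gaussSum_mulShift_eq χ (ZMod.stdAddChar (N := N)) (Units.mk0 k hk)
      rw [gaussSum, Units.val_mk0] at h3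
      simp only [AddChar.mulShift_apply] at h3
      rw [h3]
      ring
  have h3 : ∀ x : ZMod N, χ x * (Complex.I * (1 + 2 / N *
        ∑ k : ZMod N, (k.val : ℂ) * ZMod.stdAddChar (k * x))) = Complex.I * χ x +
        2 * Complex.I / N * ∑ k : ZMod N, (k.val : ℂ) * (χ x * ZMod.stdAddChar (k * x)) := by
    intro x
    have h4 : ∑ k : ZMod N, (k.val : ℂ) * (χ x * ZMod.stdAddChar (k * x)) =
        χ x * ∑ k : ZMod N, (k.val : ℂ) * ZMod.stdAddChar (k * x) := by
      rw [mul_sum]
      exact sum_congr rfl fun k _ => by ring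
    rw [h4]
    ring
  simp only [h3]
  rw [sum_add_distrib, ← mul_sum, MulChar.sum_eq_zero_of_ne_one hχ, mul_zero, zero_add,
    ← mul_sum, sum_comm]
  simp only [← mul_sum, h2]
  ring

end UnrG
end

section

/-!
# Generalized Bernoulli numbers of odd characters do not vanish
-/

namespace UnrG

open Finset

private theorem T5_two : (-1 : ZMod 2) = 1 := by decide

/-- Proof: `χ⁻¹` is odd and nontrivial, so `L (1, χ⁻¹) ≠ 0`
(`DirichletCharacter.LFunction_apply_one_ne_zero`); by `LFunction_one_eq` and `sum_cot_eq` for `χ⁻¹` it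
is a multiple of the sum. (An odd character exists only for `2 < N`.) -/
theorem sum_char_mul_val_ne_zero {N : ℕ} [Fact N.Prime] {χ : DirichletCharacter ℂ N}
    (hχ : χ.Odd) : ∑ a : ZMod N, χ a * (a.val : ℂ) ≠ 0 := by
  have hprime : N.Prime := Fact.out
  have hχ' : χ (-1) = -1 := hχ
  have hN : 2 < N := by
    rcases Nat.lt_or_ge 2 N with h | h
    · exact h
    · exfalso
      have h2 : N = 2 := le_antisymm h hprime.two_le
      subst h2
      rw [T5_two, map_one] at hχ'
      norm_num at hχ'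
  have hψ : (χ⁻¹).Odd := by
    change χ⁻¹ (-1) = -1
    rw [MulChar.inv_apply_eq_inv', hχ']
    norm_num
  have hψ1 : χ⁻¹ ≠ 1 := by
    intro h1
    have h2 : χ = 1 := inv_eq_one.mp h1
    rw [h2, MulChar.one_apply isUnit_one.neg] at hχ'
    norm_num at hχ'
  intro h0
  have h1 := LFunction_one_eq hN hψ
  have h2 : ∑ a ∈ Ioo 0 N, χ⁻¹ (a : ZMod N) * ((Real.pi : ℂ) / N * Complex.cot (Real.pi * a / N)) =
      (Real.pi : ℂ) / N * ∑ a ∈ Ioo 0 N, χ⁻¹ (a : ZMod N) * Complex.cot (Real.pi * a / N) := by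
    rw [mul_sum]
    exact sum_congr rfl fun a _ => by ring
  rw [h2, sum_cot_eq hψ1, inv_inv, h0, mul_zero, mul_zero] at h1
  exact DirichletCharacter.LFunction_apply_one_ne_zero hψ1
    ((mul_eq_zero.mp h1).resolve_left two_ne_zero)

end UnrG
end

section

/-!
# The Stickelberger relation implies symmetry
-/

namespace UnrG

open Finset

/-- The number of pairs `(i, j)`, `j < e`, with `p ^ j α_i = a`. -/
def nuCount (p e : ℕ) {N l : ℕ} (α : Fin l → ZMod N) (a : ZMod N) : ℕ :=
  ((univ ×ˢ range e).filter fun x : Fin l × ℕ => (p : ZMod N) ^ x.2 * α x.1 = a).card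

/-- A function on the prime residue classes orthogonal to all odd characters and odd itself
vanishes. Hint: for `f` odd, `∑ χ a f a = 0` for even `χ` automatically; then Fourier inversion on the
finite group of units: `∑_χ χ (b⁻¹ a) = φ (N)` if `a = b` and `0` otherwise
(`DirichletCharacter.sum_char_inv_mul_char_eq`, `MulChar`/`AddChar` orthogonality). -/
theorem eq_zero_of_odd_of_orthogonal {N : ℕ} [Fact N.Prime] {f : ZMod N → ℂ} (h0 : f 0 = 0)
    (hodd : ∀ a, f (-a) = -f a)
    (h : ∀ χ : DirichletCharacter ℂ N, χ.Odd → ∑ a : ZMod N, χ a * f a = 0) (a : ZMod N) :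
    f a = 0 := by
  have hall : ∀ χ : DirichletCharacter ℂ N, ∑ a : ZMod N, χ a * f a = 0 := by
    intro χ
    rcases χ.even_or_odd with hχ | hχ
    · have h1 : ∑ a : ZMod N, χ a * f a = ∑ a : ZMod N, χ (-a) * f (-a) :=
        (Equiv.sum_comp (Equiv.neg (ZMod N)) (fun a => χ a * f a)).symm
      have h2 : ∑ a : ZMod N, χ (-a) * f (-a) = -∑ a : ZMod N, χ a * f a := by
        rw [← sum_neg_distrib]
        refine sum_congr rfl fun x _ => ?_
        rw [DirichletCharacter.Even.eval_neg χ x hχ, hodd, mul_neg]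
      rw [h2] at h1
      have h3 : (2 : ℂ) * ∑ a : ZMod N, χ a * f a = 0 := by linear_combination h1
      exact (mul_eq_zero.mp h3).resolve_left two_ne_zero
    · exact h χ hχ
  by_cases ha : a = 0
  · rw [ha, h0]
  · have hprime : N.Prime := Fact.out
    have hu : IsUnit a := isUnit_iff_ne_zero.mpr ha
    have h1 : ∑ χ : DirichletCharacter ℂ N, χ a⁻¹ * ∑ b : ZMod N, χ b * f b = 0 := by
      simp [hall]
    have h2 : ∑ χ : DirichletCharacter ℂ N, χ a⁻¹ * ∑ b : ZMod N, χ b * f b =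
        ∑ b : ZMod N, (∑ χ : DirichletCharacter ℂ N, χ a⁻¹ * χ b) * f b := by
      simp_rw [mul_sum, sum_mul]
      rw [sum_comm]
      exact sum_congr rfl fun b _ => sum_congr rfl fun χ _ => by ring
    rw [h2] at h1
    simp_rw [DirichletCharacter.sum_char_inv_mul_char_eq ℂ hu] at h1
    have h3 : (N.totient : ℂ) * f a = 0 := by
      simpa [ite_mul] using h1
    have h4 : (N.totient : ℂ) ≠ 0 := by
      exact_mod_cast (Nat.totient_pos.mpr hprime.pos).ne'
    exact (mul_eq_zero.mp h3).resolve_left h4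

private theorem U1_sum {p e N l : ℕ} [Fact N.Prime] {α : Fin l → ZMod N} (g : ZMod N → ℂ) :
    ∑ a : ZMod N, g a * (nuCount p e α a : ℂ) =
      ∑ i : Fin l, ∑ j ∈ range e, g ((p : ZMod N) ^ j * α i) := by
  have h1 : ∀ a : ZMod N, g a * (nuCount p e α a : ℂ) =
      ∑ x ∈ (univ : Finset (Fin l)) ×ˢ range e,
        if a = (p : ZMod N) ^ x.2 * α x.1 then g a else 0 := by
    intro a
    rw [nuCount, card_filter]
    push_cast
    rw [mul_sum]
    refine sum_congr rfl fun x _ => ?_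
    by_cases hx : a = (p : ZMod N) ^ x.2 * α x.1
    · rw [if_pos hx, if_pos hx.symm, mul_one]
    · rw [if_neg hx, if_neg fun h2 => hx h2.symm, mul_zero]
  simp_rw [h1]
  rw [sum_comm, sum_product]
  refine sum_congr rfl fun i _ => sum_congr rfl fun j _ => ?_
  rw [sum_ite_eq' univ, if_pos (mem_univ _)]

/-- Proof: for an odd character `χ`,
`0 = C ∑_t χ t = ∑_{i, j} ∑_t χ t (t p ^ j α_i).val = (∑_{i, j} χ⁻¹ (p ^ j α_i)) (∑_s χ s s.val)`, so
`∑_a χ⁻¹ a ν a = 0` by `sum_char_mul_val_ne_zero`; apply `eq_zero_of_odd_of_orthogonal` to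
`f a = ν a - ν (-a)` (`χ⁻¹` runs over all odd characters). `ν 0 = 0` as the `α_i` and `p` are units. -/
theorem nuCount_neg {p e N l : ℕ} [Fact N.Prime] (hp : (p : ZMod N) ≠ 0)
    {α : Fin l → ZMod N} (h0 : ∀ i, α i ≠ 0) (C : ℕ)
    (h : ∀ t : (ZMod N)ˣ, ∑ i, valSum p e ((t : ZMod N) * α i) = C) (a : ZMod N) :
    nuCount p e α (-a) = nuCount p e α a := by
  have key : ∀ χ : DirichletCharacter ℂ N, χ.Odd →
      ∑ a : ZMod N, χ a * (nuCount p e α a : ℂ) = 0 := by
    intro χ hχ
    have hχ' : χ (-1) = -1 := hχ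
    have hψ : (χ⁻¹).Odd := by
      change χ⁻¹ (-1) = -1
      rw [MulChar.inv_apply_eq_inv', hχ']
      norm_num
    have hψ1 : χ⁻¹ ≠ 1 := by
      intro h1
      have h2 : χ = 1 := inv_eq_one.mp h1
      rw [h2, MulChar.one_apply isUnit_one.neg] at hχ'
      norm_num at hχ'
    obtain ⟨B, hB⟩ : ∃ B : ℂ, B = ∑ s : ZMod N, χ⁻¹ s * (s.val : ℂ) := ⟨_, rfl⟩
    have hB0 : B ≠ 0 := by
      rw [hB]
      exact sum_char_mul_val_ne_zero hψ
    have h1 : ∑ t : ZMod N, χ⁻¹ t * ((∑ i, valSum p e (t * α i) : ℕ) : ℂ) = 0 := by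
      have h2 : ∀ t : ZMod N, χ⁻¹ t * ((∑ i, valSum p e (t * α i) : ℕ) : ℂ) = χ⁻¹ t * C := by
        intro t
        by_cases ht : t = 0
        · rw [ht, MulChar.map_zero, zero_mul, zero_mul]
        · have h3 := h (Units.mk0 t ht)
          rw [Units.val_mk0] at h3
          rw [h3]
      simp_rw [h2]
      rw [← sum_mul, MulChar.sum_eq_zero_of_ne_one hψ1, zero_mul]
    have h2 : ∀ c : ZMod N, c ≠ 0 → ∑ t : ZMod N, χ⁻¹ t * ((c * t).val : ℂ) = χ c * B := by
      intro c hc
      have h3 : ∑ t : ZMod N, χ⁻¹ t * ((c * t).val : ℂ) =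
          ∑ s : ZMod N, χ⁻¹ (c⁻¹ * s) * (s.val : ℂ) := by
        rw [← Equiv.sum_comp (Equiv.mulLeft₀ c hc) (fun s => χ⁻¹ (c⁻¹ * s) * (s.val : ℂ))]
        refine sum_congr rfl fun t _ => ?_
        change _ = χ⁻¹ (c⁻¹ * (c * t)) * ((c * t).val : ℂ)
        rw [inv_mul_cancel_left₀ hc]
      rw [h3, hB, mul_sum]
      refine sum_congr rfl fun s _ => ?_
      rw [map_mul, MulChar.inv_apply' χ c⁻¹, inv_inv]
      ring
    have h3 : (∑ a : ZMod N, χ a * (nuCount p e α a : ℂ)) * B = 0 := by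
      rw [U1_sum, ← h1, sum_mul]
      have h4 : ∀ t : ZMod N, χ⁻¹ t * ((∑ i, valSum p e (t * α i) : ℕ) : ℂ) =
          ∑ i : Fin l, ∑ j ∈ range e, χ⁻¹ t * ((((p : ZMod N) ^ j * α i) * t).val : ℂ) := by
        intro t
        push_cast
        rw [mul_sum]
        refine sum_congr rfl fun i _ => ?_
        rw [valSum]
        push_cast
        rw [mul_sum]
        refine sum_congr rfl fun j _ => ?_
        have h5 : (p : ZMod N) ^ j * (t * α i) = ((p : ZMod N) ^ j * α i) * t := by ring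
        rw [h5]
      simp_rw [h4]
      rw [sum_comm]
      refine sum_congr rfl fun i _ => ?_
      rw [sum_comm, sum_mul]
      refine sum_congr rfl fun j _ => ?_
      rw [h2 _ (mul_ne_zero (pow_ne_zero _ hp) (h0 i))]
    exact (mul_eq_zero.mp h3).resolve_right hB0
  have hf := eq_zero_of_odd_of_orthogonal
    (f := fun a => (nuCount p e α a : ℂ) - (nuCount p e α (-a) : ℂ)) (by simp)
    (fun a => by rw [neg_neg]; ring)
    (fun χ hχ => by
      have h1 := key χ hχ
      have h2 : ∑ a : ZMod N, χ a * (nuCount p e α (-a) : ℂ) =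
          -∑ a : ZMod N, χ a * (nuCount p e α a : ℂ) := by
        rw [← Equiv.sum_comp (Equiv.neg (ZMod N)), ← sum_neg_distrib]
        refine sum_congr rfl fun x _ => ?_
        rw [Equiv.neg_apply, neg_neg, DirichletCharacter.Odd.eval_neg χ x hχ, neg_mul]
      simp_rw [mul_sub]
      rw [sum_sub_distrib, h2, h1]
      simp) a
  have h1 : (nuCount p e α (-a) : ℂ) = nuCount p e α a := (sub_eq_zero.mp hf).symm
  exact_mod_cast h1

end UnrG
end

section

/-!
# The Stickelberger relation implies that the exponents are balanced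
-/

namespace UnrG

/-- Proof: write `S` as the multiset of the values of a family `α : Fin l → ZMod N` (e.g. `l` the
length of `S.toList`, `α = S.toList.get`), then `cnt p e S a = nuCount p e α a` (count the pairs
`(i, j)` by `i`: `Finset.card_filter`, `Finset.sum_product`), and apply `nuCount_neg` (PF/U1). -/
theorem bal_of_valSum {p e N : ℕ} [Fact N.Prime] (hp : (p : ZMod N) ≠ 0)
    {S : Multiset (ZMod N)} (h0 : ∀ x ∈ S, x ≠ 0) (C : ℕ)
    (h : ∀ t : (ZMod N)ˣ, (S.map fun x => valSum p e ((t : ZMod N) * x)).sum = C) :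
    Bal p e S := by
  obtain ⟨L, hL⟩ : ∃ L : List (ZMod N), (L : Multiset (ZMod N)) = S := ⟨S.toList, S.coe_toList⟩
  have hsum : ∀ f : ZMod N → ℕ, ∑ i : Fin L.length, f (L.get i) = (S.map f).sum := by
    intro f
    rw [← hL, Multiset.map_coe, Multiset.sum_coe]
    rw [← List.sum_ofFn]
    congr 1
    refine List.ext_getElem (by simp) fun n h1 h2 => ?_
    simp
  have hcnt : ∀ a, cnt p e S a = nuCount p e (fun i : Fin L.length => L.get i) a := by
    intro a
    unfold cnt nuCount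
    rw [← hsum, Finset.card_filter, Finset.sum_product]
    refine Finset.sum_congr rfl fun i _ => ?_
    unfold cnt1
    rw [Finset.card_filter]
  intro a
  rw [hcnt, hcnt]
  refine nuCount_neg hp (fun i => h0 _ ?_) C (fun t => ?_) a
  · rw [← hL]
    exact Multiset.mem_coe.mpr (List.get_mem L i)
  · rw [← h t, hsum fun x => valSum p e ((t : ZMod N) * x)]

end UnrG
end
end
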