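import Pool.Agent.Lib.MP_859dd5_ag.Mg.G078
import Pool.Agent.Lib.MP_859dd5_ag.Mg.G071
import Pool.Agent.Lib.MP_859dd5_ag.Mg.G068
import Pool.Agent.Lib.MP_859dd5_ag.Mg.G069
import Pool.Agent.Lib.MP_859dd5_ag.Mg.G046
import Pool.Agent.Lib.MP_859dd5_ag.Mg.G006
import Pool.Agent.Lib.MP_859dd5_ag.Mg.G003

section

section

/-!
# The point with independent coordinates near the generic point of the curve
-/

namespace UnrA.Fer

open UnrG

universe u v w z

open Polynomial Finset
open scoped Classical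

/-- The point `(x, y + T)` over the field of Laurent series specializes a point with independent
coordinates to the generic point of the curve. -/
theorem as_exists_theta {p N : ℕ} {K M : Type u} [Field K] [Field M] {j : K →+* M} {x y : M}
    (h : IsASCurve p N j x y) :
    ∃ Θ : RatFunc (RatFunc K) →+* LaurentSeries M,
      (∀ k : K, Θ (algebraMap (RatFunc K) (RatFunc (RatFunc K))
        (algebraMap K (RatFunc K) k)) = HahnSeries.C (j k)) ∧
      Θ (algebraMap (RatFunc K) (RatFunc (RatFunc K)) RatFunc.X) = HahnSeries.C x ∧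
      Θ RatFunc.X = HahnSeries.C y + lT M := by
  obtain ⟨g, hg1, hg2⟩ := exists_ratHom j h.transc
  have htr : ∀ f : (RatFunc K)[X], f ≠ 0 →
      f.eval₂ ((HahnSeries.C : M →+* LaurentSeries M).comp g) (HahnSeries.C y + lT M) ≠ 0 := by
    intro f hf h0
    have h1 : f.map g ≠ 0 := (Polynomial.map_ne_zero_iff g.injective).mpr hf
    have h2 := lau_algebraMap y (f.map g)
    rw [eval₂_map, h0] at h2
    have h3 := (map_eq_zero (lau y)).mp h2
    exact h1 ((map_eq_zero_iff _ (IsFractionRing.injective M[X] (RatFunc M))).mp h3)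
  obtain ⟨Θ, hΘ1, hΘ2⟩ := exists_ratHom _ htr
  refine ⟨Θ, fun k => ?_, ?_, hΘ2⟩
  · rw [← RingHom.comp_apply Θ, hΘ1, RingHom.comp_apply, ← RingHom.comp_apply g, hg1]
  · rw [← RingHom.comp_apply Θ, hΘ1, RingHom.comp_apply, hg2]

end UnrA.Fer
end

section

/-!
# The family of zero-cycles on the curve `y ^ p - y = x ^ N`
-/

namespace UnrA.Fer

open UnrG

universe u v w z

open Polynomial Finset
open scoped Classical

variable {m : UFun.{u, z}} {𝔽 : Type w} [Field 𝔽] [Fintype 𝔽] (b : Base 𝔽)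

section asPoly

variable {R : Type v} {R' : Type w} [CommRing R] [CommRing R']

/-- The polynomial of the family. -/
private noncomputable def A3_poly (q : ℕ) (A B : R) : R[X] :=
  X ^ q - X - C A * X ^ (q - 1) + C B

private lemma A3_poly_map (q : ℕ) (A B : R) (g : R →+* R') :
    (A3_poly q A B).map g = A3_poly q (g A) (g B) := by
  simp [A3_poly]

private lemma A3_poly_degree {q : ℕ} (hq : 0 < q) (A B : R) : (A3_poly q A B).natDegree ≤ q := by
  unfold A3_poly
  refine (natDegree_add_le _ _).trans (max_le ((natDegree_sub_le _ _).trans (max_le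
    ((natDegree_sub_le _ _).trans (max_le (natDegree_X_pow_le q) (natDegree_X_le.trans hq))) ?_)) ?_)
  · exact (natDegree_C_mul_X_pow_le A _).trans (Nat.sub_le _ _)
  · simp

private lemma A3_poly_eval (q : ℕ) (A B v : R) :
    (A3_poly q A B).eval v = v ^ q - v - A * v ^ (q - 1) + B := by
  simp [A3_poly]

end asPoly

private lemma A3_trace {R : Type v} [CommRing R] {p : ℕ} [Fact p.Prime] [CharP R p] (f : ℕ)
    (v : R) : (∑ i ∈ range f, v ^ p ^ i) ^ p - ∑ i ∈ range f, v ^ p ^ i = v ^ p ^ f - v := by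
  rw [sum_pow_char, ← Finset.sum_sub_distrib]
  have h1 : ∀ i ∈ range f, (v ^ p ^ i) ^ p - v ^ p ^ i =
      (fun i => v ^ p ^ i) (i + 1) - (fun i => v ^ p ^ i) i := by
    intro i _
    rw [← pow_mul, ← pow_succ]
  rw [Finset.sum_congr rfl h1, Finset.sum_range_sub (fun i => v ^ p ^ i), pow_zero, pow_one]

private lemma A3_trace' {R : Type v} [CommRing R] {p : ℕ} [Fact p.Prime] [CharP R p] (f : ℕ)
    (v : R) : ∑ i ∈ range f, (v ^ p - v) ^ p ^ i = v ^ p ^ f - v := by
  have h1 : ∀ i ∈ range f, (v ^ p - v) ^ p ^ i =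
      (fun i => v ^ p ^ i) (i + 1) - (fun i => v ^ p ^ i) i := by
    intro i _
    rw [sub_pow_char_pow, ← pow_mul, ← pow_succ']
  rw [Finset.sum_congr rfl h1, Finset.sum_range_sub (fun i => v ^ p ^ i), pow_zero, pow_one]

/-- The set of the points over the generic point. -/
private noncomputable def A3_set {M : Type u} [Field M] (ι : 𝔽 →+* M) (u : M) : Finset M :=
  insert u ((univ.filter (fun s : 𝔽 => s ≠ 0)).image ι)

private lemma A3_ne {p : ℕ} {K M : Type u} [Field K] [Field M] {j : K →+* M} {x y : M}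
    (h : IsASCurve p b.N j x y) (c : K) : x ^ b.N ≠ j c := by
  intro h1
  refine h.transc (X ^ b.N - C c) (X_pow_sub_C_ne_zero b.N_pos _) ?_
  rw [eval₂_sub, eval₂_pow, eval₂_X, eval₂_C, h1, sub_self]

private lemma A3_notMem {p : ℕ} {K M : Type u} [Field K] [Field M] (ι : 𝔽 →+* K) {j : K →+* M}
    {x y : M} (h : IsASCurve p b.N j x y) :
    x ^ b.N ∉ (univ.filter (fun s : 𝔽 => s ≠ 0)).image (j.comp ι) := by
  intro h1
  obtain ⟨c, -, hc⟩ := Finset.mem_image.mp h1
  exact A3_ne b h (ι c) hc.symm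

private lemma A3_card {p : ℕ} {K M : Type u} [Field K] [Field M] (ι : 𝔽 →+* K) {j : K →+* M}
    {x y : M} (h : IsASCurve p b.N j x y) : (A3_set (j.comp ι) (x ^ b.N)).card = b.q := by
  have h1 : univ.filter (fun s : 𝔽 => s ≠ 0) = univ.erase 0 := by
    ext c
    simp
  rw [A3_set, Finset.card_insert_of_notMem (A3_notMem b ι h),
    Finset.card_image_of_injective _ (j.comp ι).injective, h1,
    Finset.card_erase_of_mem (mem_univ _), Finset.card_univ, b.card]
  rfl

private lemma A3_prod {M : Type u} [Field M] (ι : 𝔽 →+* M) :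
    ∏ c : 𝔽, (X - C (ι c)) = (X ^ b.q - X : M[X]) := by
  have hr := FiniteField.roots_X_pow_card_sub_X 𝔽
  have hd : (X ^ Fintype.card 𝔽 - X : 𝔽[X]).natDegree = Fintype.card 𝔽 :=
    FiniteField.X_pow_card_sub_X_natDegree_eq _ Fintype.one_lt_card
  have hm : (X ^ Fintype.card 𝔽 - X : 𝔽[X]).Monic := by
    apply monic_X_pow_sub
    rw [degree_X]
    exact_mod_cast Fintype.one_lt_card
  have h := prod_multiset_X_sub_C_of_monic_of_roots_card_eq hm (by
    rw [hr, hd]
    rfl)
  rw [hr] at h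
  have h' : ∏ c : 𝔽, (X - C c) = (X ^ Fintype.card 𝔽 - X : 𝔽[X]) := h
  have h2 := congrArg (Polynomial.map ι) h'
  rw [Polynomial.map_prod, b.card_q] at h2
  simpa using h2

private lemma A3_reduction {p : ℕ} {K M : Type u} [Field K] [Field M] (ι : 𝔽 →+* K) {j : K →+* M}
    {x y : M} (h : IsASCurve p b.N j x y) : A3_poly b.q (x ^ b.N) (y ^ p - y) =
      ∏ c ∈ A3_set (j.comp ι) (x ^ b.N), (X - C c) := by
  have h1 := A3_prod b (j.comp ι)
  have h2 : univ.filter (fun s : 𝔽 => s ≠ 0) = univ.erase 0 := by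
    ext c
    simp
  rw [← Finset.mul_prod_erase univ (fun c : 𝔽 => (X - C ((j.comp ι) c) : M[X])) (mem_univ 0),
    map_zero, C_0, sub_zero] at h1
  have h3 : b.q = (b.q - 1) + 1 := by
    have : 0 < b.q := Nat.succ_pos _
    omega
  have h4 : ∏ c ∈ univ.erase 0, (X - C ((j.comp ι) c) : M[X]) = X ^ (b.q - 1) - 1 := by
    apply mul_left_cancel₀ (X_ne_zero (R := M))
    rw [h1, mul_sub, mul_one, ← pow_succ', ← h3]
  rw [A3_set, Finset.prod_insert (A3_notMem b ι h),
    Finset.prod_image fun c _ c' _ hcc => (j.comp ι).injective hcc, h2, h4, h.eq, A3_poly]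
  have h5 : (X : M[X]) ^ b.q = X ^ (b.q - 1) * X := by
    conv_lhs => rw [h3]
    rw [pow_succ]
  rw [h5]
  ring

/-- The family, with the endomorphisms indexed by the points. -/
private theorem A3_family (hs : m.Specializes) {p f : ℕ} [Fact p.Prime] [CharP 𝔽 p]
    (hf : Fintype.card 𝔽 = p ^ f) {K M : Type u} [Field K] [Field M] (ι : 𝔽 →+* K)
    (j : K →+* M) {x y : M} (h : IsASCurve p b.N j x y) {ξ : KM m M} (hξ : Unr ξ)
    (γ : M → (M →+* M)) (hγj : ∀ c ∈ A3_set (j.comp ι) (x ^ b.N), (γ c).comp j = j)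
    (hγx : ∀ c ∈ A3_set (j.comp ι) (x ^ b.N), γ c x = x * c ^ b.e)
    (hγy : ∀ c ∈ A3_set (j.comp ι) (x ^ b.N), γ c y = y + ∑ i ∈ range f, c ^ p ^ i) :
    ∃ (D : ℕ) (y₂ : KM m K), D ∣ b.q.factorial ∧ Unr y₂ ∧
      (D * D) • ∑ c ∈ A3_set (j.comp ι) (x ^ b.N), KM.map m (γ c) ξ = KM.map m j y₂ := by
  have hq0 : 0 < b.q := Nat.succ_pos _
  have hchK : CharP K p := charP_of_injective_ringHom ι.injective p
  have hchM : CharP M p := charP_of_injective_ringHom j.injective p
  have hpN : ¬ p ∣ b.N := by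
    intro h1
    exact b.N_ne ι ((CharP.cast_eq_zero_iff K p b.N).mpr h1)
  have hqf : b.q = p ^ f := by rw [← b.card_q, hf]
  obtain ⟨T, hT⟩ : ∃ T : Finset M, T = A3_set (j.comp ι) (x ^ b.N) := ⟨_, rfl⟩
  rw [← hT] at hγj hγx hγy ⊢
  obtain ⟨Θ, hΘk, hΘa, hΘb⟩ := as_exists_theta h
  obtain ⟨i₂, hi₂⟩ : ∃ i₂ : K →+* RatFunc (RatFunc K),
      i₂ = (algebraMap (RatFunc K) (RatFunc (RatFunc K))).comp (algebraMap K (RatFunc K)) :=
    ⟨_, rfl⟩
  have hΘi : ∀ k : K, Θ (i₂ k) = HahnSeries.C (j k) := fun k => by rw [hi₂]; exact hΘk k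
  obtain ⟨a, ha⟩ : ∃ a : RatFunc (RatFunc K),
      a = algebraMap (RatFunc K) (RatFunc (RatFunc K)) RatFunc.X := ⟨_, rfl⟩
  rw [← ha] at hΘa
  obtain ⟨a', ha'⟩ : ∃ a' : RatFunc (RatFunc K), a' = RatFunc.X := ⟨_, rfl⟩
  rw [← ha'] at hΘb
  obtain ⟨P, hP⟩ : ∃ P : (RatFunc (RatFunc K))[X],
      P = A3_poly b.q (a ^ b.N) (a' ^ p - a') := ⟨_, rfl⟩
  -- power series
  have hC : ∀ c : M, HahnSeries.ofPowerSeries ℤ M (PowerSeries.C c) = HahnSeries.C c := fun c =>
    HahnSeries.ofPowerSeries_C c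
  have hX : HahnSeries.ofPowerSeries ℤ M PowerSeries.X = lT M := HahnSeries.ofPowerSeries_X
  have hcc : ∀ c : M, (PowerSeries.constantCoeff (R := M)) (PowerSeries.C c) = c := fun c => by
    simp
  obtain ⟨F, hF⟩ : ∃ F : (PowerSeries M)[X], F = A3_poly b.q (PowerSeries.C (x ^ b.N))
      ((PowerSeries.C y + PowerSeries.X) ^ p - (PowerSeries.C y + PowerSeries.X)) := ⟨_, rfl⟩
  have hfd : F.natDegree ≤ T.card := by
    rw [hT, A3_card b ι h, hF]
    exact A3_poly_degree hq0 _ _
  have hfm : F.map (PowerSeries.constantCoeff (R := M)) = ∏ c ∈ T, (X - C c) := by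
    rw [hF, A3_poly_map, hT, ← A3_reduction b ι h, hcc]
    congr 1
    simp
  obtain ⟨v, hv, hlc, hfac⟩ := exists_roots_ps F T hfd hfm
  have hofi : Function.Injective (HahnSeries.ofPowerSeries ℤ M) :=
    HahnSeries.ofPowerSeries_injective
  have hPmap : P.map Θ = C (HahnSeries.ofPowerSeries ℤ M F.leadingCoeff) *
      ∏ c ∈ T, (X - C (HahnSeries.ofPowerSeries ℤ M (v c))) := by
    have h1 : P.map Θ = F.map (HahnSeries.ofPowerSeries ℤ M) := by
      rw [hP, hF, A3_poly_map, A3_poly_map, map_pow Θ, map_sub Θ, map_pow Θ, hΘa, hΘb, hC,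
        map_sub (HahnSeries.ofPowerSeries ℤ M), map_pow (HahnSeries.ofPowerSeries ℤ M),
        map_add (HahnSeries.ofPowerSeries ℤ M), hC, hX,
        map_pow (HahnSeries.C : M →+* LaurentSeries M)]
    rw [h1]
    conv_lhs => rw [hfac]
    rw [Polynomial.map_mul, map_C, Polynomial.map_prod]
    congr 1
    refine Finset.prod_congr rfl fun c _ => ?_
    rw [Polynomial.map_sub, map_X, map_C]
  have hvinj : Set.InjOn (fun c => HahnSeries.ofPowerSeries ℤ M (v c)) T := by
    intro c hc c' hc' h1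
    have h2 := hofi h1
    rw [← hv c hc, ← hv c' hc', h2]
  have hlc' : HahnSeries.ofPowerSeries ℤ M F.leadingCoeff ≠ 0 := by
    rw [Ne, map_eq_zero_iff _ hofi]
    exact hlc
  have hsep : P.Separable := by
    rw [← separable_map Θ, hPmap]
    refine Separable.unit_mul ?_ ?_
    · exact isUnit_C.mpr (isUnit_iff_ne_zero.mpr hlc')
    · rw [separable_prod_X_sub_C_iff']
      exact fun c hc c' hc' h1 => hvinj hc hc' h1
  have hP0 : P ≠ 0 := hsep.ne_zero
  have hsplE : (P.map Θ).Splits := by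
    rw [hPmap]
    exact (Splits.prod fun c _ => Splits.X_sub_C _).C_mul _
  -- the splitting field
  obtain ⟨S, hSf, hSa, hSs, Θ', hΘ'⟩ : ∃ (S : Type u) (_ : Field S)
      (_ : Algebra (RatFunc (RatFunc K)) S) (_ : P.IsSplittingField (RatFunc (RatFunc K)) S)
      (Θ' : S →+* LaurentSeries M), Θ'.comp (algebraMap (RatFunc (RatFunc K)) S) = Θ := by
    let _ : Algebra (RatFunc (RatFunc K)) (LaurentSeries M) := Θ.toAlgebra
    refine ⟨P.SplittingField, inferInstance, inferInstance, inferInstance,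
      (SplittingField.lift P hsplE : P.SplittingField →ₐ[RatFunc (RatFunc K)]
        LaurentSeries M).toRingHom, ?_⟩
    exact AlgHom.comp_algebraMap _
  obtain ⟨g, hg⟩ : ∃ g : RatFunc (RatFunc K) →+* S, g = algebraMap _ _ := ⟨_, rfl⟩
  have hchS : CharP S p := charP_of_injective_ringHom (g.comp i₂).injective p
  obtain ⟨r, hr1, hr2, hr3, hr4⟩ := exists_roots_bij Θ Θ' hΘ' P hP0
    (IsSplittingField.splits S P) T (fun c => HahnSeries.ofPowerSeries ℤ M (v c)) hvinj hlc' hPmap
  have hΘg : ∀ z, Θ' (g z) = Θ z := fun z => by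
    rw [hg]
    exact congrArg (fun f : RatFunc (RatFunc K) →+* LaurentSeries M => f z) hΘ'
  have hPev : ∀ s : S, aeval s P = 0 →
      s ^ b.q - s - g a ^ b.N * s ^ (b.q - 1) + (g a' ^ p - g a') = 0 := by
    intro s hs0
    rw [aeval_def, ← eval_map, hP, A3_poly_map, A3_poly_eval, ← hg, map_pow, map_sub,
      map_pow] at hs0
    exact hs0
  -- the homomorphisms
  have hψ1 : ∀ c ∈ T, ∃ ψ : M →+* S, ψ.comp j = g.comp i₂ ∧ ψ x = g a * r c ^ b.e ∧
      ψ y = g a' + ∑ i ∈ range f, r c ^ p ^ i := by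
    intro c hc
    refine IsASCurve.exists_hom b.N_pos hpN h (g.comp i₂) _ _ ?_ ?_
    · have h1 := hPev _ (hr2 c hc)
      have h2 := A3_trace (p := p) f (r c)
      rw [← hqf] at h2
      have h3 : (b.q - 1) = b.e * b.N := by
        rw [mul_comm]
        rfl
      rw [h3] at h1
      rw [add_pow_char, mul_pow, ← pow_mul]
      linear_combination h1 + h2
    · intro q hq h0
      have h1 := congrArg Θ' h0
      rw [hom_eval₂, map_zero, map_mul, map_pow, hr1 c hc, hΘg, hΘa, ← hC, ← map_pow,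
        ← map_mul] at h1
      have h2 : Θ'.comp (g.comp i₂) = (HahnSeries.ofPowerSeries ℤ M).comp
          ((PowerSeries.C (R := M)).comp j) := by
        ext1 k
        rw [RingHom.comp_apply, RingHom.comp_apply, hΘg, hΘi, RingHom.comp_apply,
          RingHom.comp_apply, hC]
      rw [h2, ← hom_eval₂, map_eq_zero_iff _ hofi] at h1
      have h3 := congrArg (PowerSeries.constantCoeff (R := M)) h1
      rw [hom_eval₂, map_zero, map_mul, map_pow, hv c hc, hcc, ← hγx c hc] at h3
      have h4 : (PowerSeries.constantCoeff (R := M)).comp ((PowerSeries.C (R := M)).comp j) =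
          (γ c).comp j := by
        rw [hγj c hc]
        ext1 k
        exact hcc (j k)
      rw [h4, ← hom_eval₂, map_eq_zero] at h3
      exact h.transc q hq h3
  have hT0 : x ^ b.N ∈ T := by
    rw [hT]
    exact Finset.mem_insert_self _ _
  have hψ2 : ∀ s : S, ∃ ψ : M →+* S, aeval s P = 0 → ψ.comp j = g.comp i₂ ∧
      ψ x = g a * s ^ b.e ∧ ψ y = g a' + ∑ i ∈ range f, s ^ p ^ i := by
    intro s
    by_cases hs0 : aeval s P = 0
    · obtain ⟨c, hc, rfl⟩ := hr3 s hs0
      obtain ⟨ψ, hψ⟩ := hψ1 c hc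
      exact ⟨ψ, fun _ => hψ⟩
    · obtain ⟨ψ, -⟩ := hψ1 _ hT0
      exact ⟨ψ, fun h => absurd h hs0⟩
  choose ψ hψ using hψ2
  have hσ : ∀ (σ : S ≃ₐ[RatFunc (RatFunc K)] S) (s : S), aeval s P = 0 →
      (σ : S →+* S).comp (ψ s) = ψ (σ s) := by
    intro σ s hs0
    have hσs : aeval (σ s) P = 0 := by
      have h1 : aeval (σ s) P = σ (aeval s P) :=
        aeval_algHom_apply (σ : S →ₐ[RatFunc (RatFunc K)] S) s P
      rw [h1, hs0, map_zero]
    obtain ⟨e1, e2, e3⟩ := hψ s hs0
    obtain ⟨e4, e5, e6⟩ := hψ (σ s) hσs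
    have hσg : ∀ z, σ (g z) = g z := fun z => by
      rw [hg]
      exact σ.commutes z
    refine h.hom_ext ?_ ?_ ?_
    · rw [RingHom.comp_assoc, e1, e4]
      ext1 k
      exact hσg _
    · rw [RingHom.comp_apply, e2, e5]
      change σ (g a * s ^ b.e) = _
      rw [map_mul, map_pow, hσg]
    · rw [RingHom.comp_apply, e3, e6]
      change σ (g a' + ∑ i ∈ range f, s ^ p ^ i) = _
      rw [map_add, hσg, map_sum]
      congr 1
      exact Finset.sum_congr rfl fun i _ => map_pow σ _ _
  obtain ⟨D, y₁, hD, hy₁u, hy₁⟩ := family_trace P hsep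
    (hP ▸ A3_poly_degree hq0 _ _) ψ hσ hξ
  obtain ⟨y₁', hy₁'u, hy₁'⟩ := unr_ratFunc hy₁u
  obtain ⟨y₂, hy₂u, hy₂⟩ := unr_ratFunc hy₁'u
  refine ⟨D, y₂, hD, hy₂u, ?_⟩
  have hy : KM.map m i₂ y₂ = y₁ := by
    rw [hi₂, ← KM.map_map, hy₂, hy₁']
  -- the homomorphisms to the power series
  have hf2 : ∀ c : M, ∃ f : M →+* PowerSeries M, c ∈ T →
      (HahnSeries.ofPowerSeries ℤ M).comp f = Θ'.comp (ψ (r c)) ∧
        (PowerSeries.constantCoeff (R := M)).comp f = γ c := by
    intro c
    by_cases hc : c ∈ T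
    · obtain ⟨e1, e2, e3⟩ := hψ _ (hr2 c hc)
      obtain ⟨f, hf⟩ := exists_ps_lift h.gen (Θ'.comp (ψ (r c))) (γ c) (by
        rintro z (⟨k, rfl⟩ | rfl | rfl)
        · refine ⟨PowerSeries.C (j k), ?_, ?_⟩
          · rw [hC, ← hΘi, ← hΘg, RingHom.comp_apply, ← RingHom.comp_apply (ψ (r c)), e1]
            rfl
          · rw [hcc, ← RingHom.comp_apply (γ c), hγj c hc]
        · refine ⟨PowerSeries.C z * v c ^ b.e, ?_, ?_⟩
          · rw [RingHom.comp_apply, e2, map_mul, map_pow, hC, map_mul, map_pow, hΘg, hΘa,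
              hr1 c hc]
          · rw [map_mul, map_pow, hcc, hv c hc, hγx c hc]
        · refine ⟨(PowerSeries.C z + PowerSeries.X) + ∑ i ∈ range f, v c ^ p ^ i, ?_, ?_⟩
          · rw [RingHom.comp_apply, e3, map_add, map_add, hC, hX, map_add, hΘg,
              hΘb, map_sum, map_sum]
            congr 1
            refine Finset.sum_congr rfl fun i _ => ?_
            rw [map_pow, map_pow, hr1 c hc]
          · rw [map_add, map_add, hcc, hγy c hc, PowerSeries.constantCoeff_X, add_zero, map_sum]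
            congr 1
            refine Finset.sum_congr rfl fun i _ => ?_
            rw [map_pow, hv c hc])
      exact ⟨f, fun _ => hf⟩
    · exact ⟨(PowerSeries.C (R := M)), fun h => absurd h hc⟩
  choose f' hf' using hf2
  have h0 : (D * D) • ∑ c ∈ T, KM.map m ((HahnSeries.ofPowerSeries ℤ M).comp (f' c)) ξ =
      KM.map m ((HahnSeries.ofPowerSeries ℤ M).comp ((PowerSeries.C (R := M)).comp j)) y₂ := by
    have h1 := congrArg (KM.map m Θ') hy₁
    rw [map_nsmul, map_sum, hr4, KM.map_map, hΘ', ← hy, KM.map_map] at h1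
    have h2 : (HahnSeries.ofPowerSeries ℤ M).comp ((PowerSeries.C (R := M)).comp j) =
        Θ.comp i₂ := by
      ext1 k
      rw [RingHom.comp_apply, RingHom.comp_apply, hC, RingHom.comp_apply, hΘi]
    rw [h2, h1]
    congr 1
    refine Finset.sum_congr rfl fun c hc => ?_
    rw [(hf' c hc).1, KM.map_map]
  have h1 := spec_sum_eq hs T f' ((PowerSeries.C (R := M)).comp j) (D * D) hξ hy₂u h0
  have h2 : (PowerSeries.constantCoeff (R := M)).comp ((PowerSeries.C (R := M)).comp j) = j := by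
    ext1 k
    exact hcc (j k)
  rw [h2] at h1
  rw [← h1]
  congr 1
  refine Finset.sum_congr rfl fun c hc => ?_
  rw [(hf' c hc).2]

/-- The Frobenius relation on the curve `y ^ p - y = x ^ N`: the sum of the class transformed by
the Frobenius endomorphism and by the automorphisms `x ↦ s ^ e x`, `y ↦ y + tr s` is constant. -/
theorem as_frob_family (hs : m.Specializes) {p f : ℕ} [Fact p.Prime] [CharP 𝔽 p]
    (hf : Fintype.card 𝔽 = p ^ f) {K M : Type u} [Field K] [Field M] (ι : 𝔽 →+* K)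
    (j : K →+* M) {x y : M} (h : IsASCurve p b.N j x y) {ξ : KM m M} (hξ : Unr ξ)
    (φ : M →+* M) (hφj : φ.comp j = j) (hφx : φ x = x ^ b.q) (hφy : φ y = y ^ b.q)
    (γ : 𝔽 → (M →+* M)) (hγj : ∀ s, s ≠ 0 → (γ s).comp j = j)
    (hγx : ∀ s, s ≠ 0 → γ s x = j (ι s) ^ b.e * x)
    (hγy : ∀ s, s ≠ 0 → γ s y = y + ∑ i ∈ range f, j (ι s) ^ p ^ i) :
    ∃ (D : ℕ) (y₂ : KM m K), D ∣ b.q.factorial ∧ Unr y₂ ∧
      (D * D) • (KM.map m φ ξ +
        ∑ s ∈ univ.filter (fun s : 𝔽 => s ≠ 0), KM.map m (γ s) ξ) = KM.map m j y₂ := by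
  have hchM : CharP M p := charP_of_injective_ringHom (j.comp ι).injective p
  have hqf : b.q = p ^ f := by rw [← b.card_q, hf]
  have hinj : Function.Injective (j.comp ι) := (j.comp ι).injective
  obtain ⟨δ, hδ⟩ : ∃ δ : M → (M →+* M), δ = fun c => if c = x ^ b.N then φ else
    γ (Function.invFun (j.comp ι) c) := ⟨_, rfl⟩
  have hδ1 : δ (x ^ b.N) = φ := by
    rw [hδ]
    exact if_pos rfl
  have hδ2 : ∀ s : 𝔽, δ ((j.comp ι) s) = γ s := by
    intro s
    rw [hδ]
    have h1 : ¬ (j.comp ι) s = x ^ b.N := fun h1 => A3_ne b h (ι s) h1.symm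
    simp only [if_neg h1, Function.leftInverse_invFun hinj s]
  have hmem : ∀ c ∈ A3_set (j.comp ι) (x ^ b.N), c = x ^ b.N ∨ ∃ s, s ≠ 0 ∧ c = (j.comp ι) s := by
    intro c hc
    rcases Finset.mem_insert.mp hc with hc | hc
    · exact Or.inl hc
    · obtain ⟨s, hs1, hs2⟩ := Finset.mem_image.mp hc
      exact Or.inr ⟨s, (Finset.mem_filter.mp hs1).2, hs2.symm⟩
  have g1 : ∀ c ∈ A3_set (j.comp ι) (x ^ b.N), (δ c).comp j = j := by
    intro c hc
    rcases hmem c hc with rfl | ⟨s, hs0, rfl⟩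
    · rw [hδ1, hφj]
    · rw [hδ2, hγj s hs0]
  have g2 : ∀ c ∈ A3_set (j.comp ι) (x ^ b.N), δ c x = x * c ^ b.e := by
    intro c hc
    rcases hmem c hc with rfl | ⟨s, hs0, rfl⟩
    · rw [hδ1, hφx, ← pow_mul, ← pow_succ']
      rfl
    · rw [hδ2, hγx s hs0, mul_comm]
      rfl
  have g3 : ∀ c ∈ A3_set (j.comp ι) (x ^ b.N), δ c y = y + ∑ i ∈ range f, c ^ p ^ i := by
    intro c hc
    rcases hmem c hc with rfl | ⟨s, hs0, rfl⟩
    · rw [hδ1, hφy, ← h.eq, A3_trace', hqf]
      ring
    · rw [hδ2, hγy s hs0]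
      rfl
  obtain ⟨D, y₂, hD, hu, hy⟩ := A3_family b hs hf ι j h hξ δ g1 g2 g3
  refine ⟨D, y₂, hD, hu, ?_⟩
  rw [← hy, A3_set, Finset.sum_insert (A3_notMem b ι h),
    Finset.sum_image fun c _ c' _ hcc => hinj hcc, hδ1]
  congr 2
  refine Finset.sum_congr rfl fun s _ => ?_
  rw [hδ2]

end UnrA.Fer
end

section

/-!
# The Frobenius relation for new classes on the curve `y ^ p - y = x ^ N`
-/

namespace UnrA.Fer

open UnrG

universe u v w z

open Polynomial Finset
open scoped Classical

variable {m : UFun.{u, z}} {𝔽 : Type w} [Field 𝔽] [Fintype 𝔽] (b : Base 𝔽)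

/-- The integer of the Frobenius relation. -/
def asc : ℕ := b.N * b.q.factorial ^ 2

lemma asc_pos : 0 < asc b := Nat.mul_pos b.N_pos (pow_pos (Nat.factorial_pos _) 2)

private lemma A4_pow_id {M : Type u} [Field M] {δ : M →+* M} {η : KM m M}
    (h : KM.map m δ η = η) (i : ℕ) : KM.map m (δ ^ i) η = η := by
  induction i with
  | zero =>
    rw [pow_zero]
    change KM.map m (RingHom.id M) η = η
    rw [KM.map_id]
    rfl
  | succ i ih =>
    rw [pow_succ]
    change KM.map m ((δ ^ i).comp δ) η = η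
    rw [← KM.map_map, h, ih]

private lemma A4_comm_pow {M : Type u} [Field M] {δ γ : M →+* M} (h : γ.comp δ = δ.comp γ)
    (i : ℕ) : γ.comp (δ ^ i) = (δ ^ i).comp γ := by
  induction i with
  | zero => rfl
  | succ i ih =>
    rw [pow_succ]
    change γ.comp ((δ ^ i).comp δ) = ((δ ^ i).comp δ).comp γ
    rw [← RingHom.comp_assoc, ih, RingHom.comp_assoc, h, RingHom.comp_assoc]

/-- The Frobenius relation for classes whose sum of conjugates by `x ↦ ζ x` vanishes. -/
theorem as_frob_curve (hs : m.Specializes) {p f : ℕ} [Fact p.Prime] [CharP 𝔽 p]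
    (hf : Fintype.card 𝔽 = p ^ f) {K M : Type u} [Field K] [Field M] (ι : 𝔽 →+* K)
    (j : K →+* M) {x y : M} (h : IsASCurve p b.N j x y) {ξ : KM m M} (hξ : Unr ξ)
    (δ : M →+* M) (hδj : δ.comp j = j) (hδx : δ x = j (ι b.ζ) * x) (hδy : δ y = y)
    (hsum : ∑ i ∈ range b.N, KM.map m (δ ^ i) ξ = 0)
    (φ : M →+* M) (hφj : φ.comp j = j) (hφx : φ x = x ^ b.q) (hφy : φ y = y ^ b.q)
    (γ : 𝔽 → (M →+* M)) (hγj : ∀ s, s ≠ 0 → (γ s).comp j = j)
    (hγx : ∀ s, s ≠ 0 → γ s x = j (ι s) ^ b.e * x)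
    (hγy : ∀ s, s ≠ 0 → γ s y = y + ∑ i ∈ range f, j (ι s) ^ p ^ i) :
    asc b • (KM.map m φ ξ +
      ∑ s ∈ univ.filter (fun s : 𝔽 => s ≠ 0), KM.map m (γ s) ξ) = 0 := by
  obtain ⟨D, y₂, hD, -, hy₂⟩ := as_frob_family b hs hf ι j h hξ φ hφj hφx hφy γ hγj hγx hγy
  obtain ⟨Φ, hΦ⟩ : ∃ Φ : KM m M, Φ = KM.map m φ ξ +
      ∑ s ∈ univ.filter (fun s : 𝔽 => s ≠ 0), KM.map m (γ s) ξ := ⟨_, rfl⟩
  rw [← hΦ] at hy₂ ⊢
  -- the automorphism commutes with the endomorphisms
  have hζq : j (ι b.ζ) ^ b.q = j (ι b.ζ) := by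
    rw [← map_pow, ← map_pow, b.pow_q]
  have hφδ : φ.comp δ = δ.comp φ := by
    refine h.hom_ext ?_ ?_ ?_
    · rw [RingHom.comp_assoc, hδj, hφj, RingHom.comp_assoc, hφj, hδj]
    · rw [RingHom.comp_apply, RingHom.comp_apply, hδx, hφx, map_mul, map_pow, hδx, hφx, mul_pow,
        hζq, ← RingHom.comp_apply φ, hφj]
    · rw [RingHom.comp_apply, RingHom.comp_apply, hδy, hφy, map_pow, hδy]
  have hγδ : ∀ s : 𝔽, s ≠ 0 → (γ s).comp δ = δ.comp (γ s) := by
    intro s h0
    have hδc : ∀ z : K, δ (j z) = j z := fun z => congrArg (fun f : K →+* M => f z) hδj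
    have hγc : ∀ z : K, γ s (j z) = j z := fun z =>
      congrArg (fun f : K →+* M => f z) (hγj s h0)
    refine h.hom_ext ?_ ?_ ?_
    · rw [RingHom.comp_assoc, hδj, hγj s h0, RingHom.comp_assoc, hγj s h0, hδj]
    · rw [RingHom.comp_apply, RingHom.comp_apply, hδx, hγx s h0, map_mul, map_mul, map_pow,
        hδx, hγx s h0, hδc, hγc]
      ring
    · rw [RingHom.comp_apply, RingHom.comp_apply, hδy, hγy s h0, map_add, hδy, map_sum]
      congr 1
      refine Finset.sum_congr rfl fun i _ => ?_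
      rw [map_pow, hδc]
  have hzero : ∑ i ∈ range b.N, KM.map m (δ ^ i) Φ = 0 := by
    have h1 : ∀ γ₀ : M →+* M, γ₀.comp δ = δ.comp γ₀ →
        ∑ i ∈ range b.N, KM.map m (δ ^ i) (KM.map m γ₀ ξ) = 0 := by
      intro γ₀ h2
      have h3 : ∀ i ∈ range b.N, KM.map m (δ ^ i) (KM.map m γ₀ ξ) =
          KM.map m γ₀ (KM.map m (δ ^ i) ξ) := by
        intro i _
        rw [KM.map_map, KM.map_map, A4_comm_pow h2 i]
      rw [Finset.sum_congr rfl h3, ← map_sum, hsum, map_zero]
    have h2 : ∀ i ∈ range b.N, KM.map m (δ ^ i) Φ = KM.map m (δ ^ i) (KM.map m φ ξ) +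
        ∑ s ∈ univ.filter (fun s : 𝔽 => s ≠ 0), KM.map m (δ ^ i) (KM.map m (γ s) ξ) := by
      intro i _
      rw [hΦ, map_add, map_sum]
    rw [Finset.sum_congr rfl h2, Finset.sum_add_distrib, h1 φ hφδ, Finset.sum_comm, zero_add]
    refine Finset.sum_eq_zero fun s hs => ?_
    exact h1 (γ s) (hγδ s (Finset.mem_filter.mp hs).2)
  have hfix : KM.map m δ ((D * D) • Φ) = (D * D) • Φ := by
    rw [hy₂, KM.map_map, hδj]
  have hN : b.N • ((D * D) • Φ) = 0 := by
    have h1 : ∑ i ∈ range b.N, KM.map m (δ ^ i) ((D * D) • Φ) = b.N • ((D * D) • Φ) := by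
      rw [Finset.sum_congr rfl fun i _ => A4_pow_id hfix i, Finset.sum_const, Finset.card_range]
    rw [← h1]
    have h2 : ∀ i ∈ range b.N, KM.map m (δ ^ i) ((D * D) • Φ) =
        (D * D) • KM.map m (δ ^ i) Φ := fun i _ => map_nsmul _ _ _
    rw [Finset.sum_congr rfl h2, ← Finset.smul_sum, hzero, smul_zero]
  obtain ⟨k, hk⟩ : b.N * (D * D) ∣ asc b := by
    unfold asc
    rw [sq]
    exact mul_dvd_mul_left _ (mul_dvd_mul hD hD)
  rw [hk, mul_comm, mul_smul, mul_smul, hN, smul_zero]

end UnrA.Fer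
end

section

/-!
# Good classes on products of the curves `y ^ p - y = x ^ N`
-/

namespace UnrA.Fer

open UnrG

universe u v w z

open Polynomial Finset
open scoped Classical

variable {m : UFun.{u, z}} {𝔽 : Type w} [Field 𝔽] [Fintype 𝔽] (b : Base 𝔽)

variable {F M : Type u} [Field F] [Field M] [Algebra F M] (ι : 𝔽 →+* F) {r n : ℕ}
  {t : Fin r → M} {x y : Fin n → M} {p : ℕ}

lemma B2_comp {a c a' c' : Fin n → ℕ} {f g : M →+* M} (hf : IsASDiag b ι t x y a c f)
    (hg : IsASDiag b ι t x y a' c' g) : IsASDiag b ι t x y (a + a') (c + c') (f.comp g) := by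
  refine ⟨?_, ?_, ?_, ?_⟩
  · intro z
    rw [RingHom.comp_apply, hg.const, hf.const]
  · intro i
    rw [RingHom.comp_apply, hg.ft, hf.ft]
  · intro i
    rw [RingHom.comp_apply, hg.fx, map_mul, map_pow, hf.const, hf.fx, Pi.add_apply, pow_add]
    ring
  · intro i
    rw [RingHom.comp_apply, hg.fy, map_add, map_natCast, hf.fy, Pi.add_apply]
    push_cast
    ring

lemma B2_powN {a c : Fin n → ℕ} {f : M →+* M} (hf : IsASDiag b ι t x y a c f) (i : Fin n) :
    f (x i ^ b.N) = x i ^ b.N := by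
  have hz : (algebraMap F M (ι b.ζ)) ^ b.N = 1 := by
    rw [← map_pow, ← map_pow, b.hζ.pow_eq_one, map_one, map_one]
  rw [map_pow, hf.fx, mul_pow, ← pow_mul, mul_comm (a i), pow_mul, hz, one_pow, one_mul]

lemma B2_mono {a c : Fin n → ℕ} {f : M →+* M} (hf : IsASDiag b ι t x y a c f)
    (bb : Fin n → ℕ) :
    f (∏ j, x j ^ bb j) = algebraMap F M (ι b.ζ) ^ (∑ j, bb j * a j) * ∏ j, x j ^ bb j := by
  rw [map_prod, ← Finset.prod_pow_eq_pow_sum, ← Finset.prod_mul_distrib]
  refine Finset.prod_congr rfl fun j _ => ?_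
  rw [map_pow, hf.fx, mul_pow, ← pow_mul, mul_comm (a j)]

lemma B2_sum {a c : Fin n → ℕ} {f : M →+* M} (hf : IsASDiag b ι t x y a c f) :
    f (∑ j, y j) = ∑ j, y j + ((∑ j, c j : ℕ) : M) := by
  rw [map_sum, Nat.cast_sum, ← Finset.sum_add_distrib]
  exact Finset.sum_congr rfl fun j _ => hf.fy j

private lemma B2_comm (hP : ASProd (F := F) b p t x y) {a c a' c' : Fin n → ℕ} {f τ : M →+* M}
    (hf : IsASDiag b ι t x y a' c' f) (hτ : IsASDiag b ι t x y a c τ) (i : ℕ) :
    (f ^ i).comp τ = τ.comp (f ^ i) := by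
  have hi := hf.pow b ι i
  have e1 := B2_comp b ι hi hτ
  have e2 := B2_comp b ι hτ hi
  refine hP.ext b (fun a => ?_) (fun k => ?_) (fun k => ?_) (fun k => ?_)
  · rw [e1.const, e2.const]
  · rw [e1.ft, e2.ft]
  · rw [e1.fx, e2.fx, add_comm]
  · rw [e1.fy, e2.fy, add_comm (i • c')]

private lemma B2_commF [Fact p.Prime] [CharP 𝔽 p] [CharP F p] (hP : ASProd (F := F) b p t x y)
    {a c : Fin n → ℕ} {f φ : M →+* M} (hf : IsASDiag b ι t x y a c f) {J : Finset (Fin n)}
    (hφ : IsFrobAt b F t x y J φ) (i : ℕ) : (f ^ i).comp φ = φ.comp (f ^ i) := by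
  obtain ⟨f₀, -, hf₀⟩ := FiniteField.card 𝔽 p
  have hq : b.q = p ^ (f₀ : ℕ) := by rw [← b.card_q, hf₀]
  have hM : CharP M p := charP_of_injective_algebraMap (algebraMap F M).injective p
  have e := hf.pow b ι i
  refine hP.ext b (fun a => ?_) (fun k => ?_) (fun k => ?_) (fun k => ?_)
  · rw [RingHom.comp_apply, RingHom.comp_apply, hφ.const, e.const, hφ.const]
  · rw [RingHom.comp_apply, RingHom.comp_apply, hφ.ft, e.ft, hφ.ft]
  · rw [RingHom.comp_apply, RingHom.comp_apply]
    by_cases hk : k ∈ J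
    · have hz : algebraMap F M (ι b.ζ) ^ b.q = algebraMap F M (ι b.ζ) := by
        rw [← map_pow, ← map_pow, b.pow_q]
      rw [hφ.gx k hk, map_pow, e.fx, map_mul, hφ.gx k hk, map_pow, hφ.const, mul_pow, ← pow_mul,
        mul_comm _ b.q, pow_mul, hz]
    · rw [hφ.fx k hk, e.fx, map_mul, hφ.fx k hk, map_pow, hφ.const]
  · rw [RingHom.comp_apply, RingHom.comp_apply]
    by_cases hk : k ∈ J
    · have h1 : (((i • c) k : ℕ) : M) ^ b.q = (((i • c) k : ℕ) : M) := by
        have h2 : (((i • c) k : ℕ) : 𝔽) ^ b.q = (((i • c) k : ℕ) : 𝔽) := b.pow_q _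
        have h3 := congrArg ((algebraMap F M).comp ι) h2
        rwa [map_pow, map_natCast] at h3
      rw [hφ.gy k hk, map_pow, e.fy, map_add, hφ.gy k hk, map_natCast, hq, add_pow_char_pow,
        ← hq, h1]
    · rw [hφ.fy k hk, e.fy, map_add, hφ.fy k hk, map_natCast]

lemma ASGood.zero {bb : Fin n → ℕ} : ASGood b p F ι t x y bb (0 : KM m M) := by
  refine ⟨Unr.zero, ?_, ?_, ?_⟩
  · intro f g _ _ _ _ _
    rw [map_zero, map_zero]
  · intro a f _ _
    exact Finset.sum_eq_zero fun i _ => map_zero _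
  · intro a f _ _
    exact Finset.sum_eq_zero fun i _ => map_zero _

lemma ASGood.add {bb : Fin n → ℕ} {Z Z' : KM m M} (h : ASGood b p F ι t x y bb Z)
    (h' : ASGood b p F ι t x y bb Z') : ASGood b p F ι t x y bb (Z + Z') := by
  refine ⟨h.unr.add h'.unr, ?_, ?_, ?_⟩
  · intro f g h1 h2 h3 h4 h5
    rw [map_add, map_add, h.inv f g h1 h2 h3 h4 h5, h'.inv f g h1 h2 h3 h4 h5]
  · intro a f hf hw
    simp only [map_add]
    rw [Finset.sum_add_distrib, h.newN a f hf hw, h'.newN a f hf hw, add_zero]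
  · intro c f hf hw
    simp only [map_add]
    rw [Finset.sum_add_distrib, h.newp c f hf hw, h'.newp c f hf hw, add_zero]

lemma ASGood.zsmul {bb : Fin n → ℕ} {Z : KM m M} (h : ASGood b p F ι t x y bb Z) (c : ℤ) :
    ASGood b p F ι t x y bb (c • Z) := by
  refine ⟨h.unr.zsmul c, ?_, ?_, ?_⟩
  · intro f g h1 h2 h3 h4 h5
    rw [map_zsmul, map_zsmul, h.inv f g h1 h2 h3 h4 h5]
  · intro a f hf hw
    simp only [map_zsmul]
    rw [← Finset.smul_sum, h.newN a f hf hw, smul_zero]
  · intro c' f hf hw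
    simp only [map_zsmul]
    rw [← Finset.smul_sum, h.newp c' f hf hw, smul_zero]

lemma ASGood.map_diag (hP : ASProd (F := F) b p t x y) {bb : Fin n → ℕ} {Z : KM m M}
    (h : ASGood b p F ι t x y bb Z) {a c : Fin n → ℕ} {τ : M →+* M}
    (hτ : IsASDiag b ι t x y a c τ) : ASGood b p F ι t x y bb (KM.map m τ Z) := by
  refine ⟨h.unr.map τ, fun f g h1 h2 h3 h4 h5 => ?_, fun a' f hf hN => ?_, fun c' f hf hN => ?_⟩
  · rw [KM.map_map, KM.map_map]
    refine h.inv (f.comp τ) (g.comp τ) (fun a => ?_) (fun i => ?_) (fun j => ?_) ?_ ?_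
    · rw [RingHom.comp_apply, RingHom.comp_apply, hτ.const]
      exact h1 a
    · rw [RingHom.comp_apply, RingHom.comp_apply, hτ.ft]
      exact h2 i
    · rw [RingHom.comp_apply, RingHom.comp_apply, B2_powN b ι hτ]
      exact h3 j
    · rw [RingHom.comp_apply, RingHom.comp_apply, B2_mono b ι hτ, map_mul, map_mul, map_pow,
        map_pow, h1, h4]
    · rw [RingHom.comp_apply, RingHom.comp_apply, B2_sum b ι hτ, map_add, map_add, map_natCast,
        map_natCast, h5]
  · have h1 : ∀ i ∈ range b.N, KM.map m (f ^ i) (KM.map m τ Z) =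
        KM.map m τ (KM.map m (f ^ i) Z) := by
      intro i _
      rw [KM.map_map, KM.map_map, B2_comm b ι hP hf hτ]
    rw [sum_congr rfl h1, ← map_sum, h.newN a' f hf hN, map_zero]
  · have h1 : ∀ i ∈ range p, KM.map m (f ^ i) (KM.map m τ Z) =
        KM.map m τ (KM.map m (f ^ i) Z) := by
      intro i _
      rw [KM.map_map, KM.map_map, B2_comm b ι hP hf hτ]
    rw [sum_congr rfl h1, ← map_sum, h.newp c' f hf hN, map_zero]

lemma ASGood.aeval (hP : ASProd (F := F) b p t x y) {bb : Fin n → ℕ} {Z : KM m M}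
    (h : ASGood b p F ι t x y bb Z) {a c : Fin n → ℕ} {τ : M →+* M}
    (hτ : IsASDiag b ι t x y a c τ) (P : ℤ[X]) :
    ASGood b p F ι t x y bb (Polynomial.aeval (actL m τ) P Z) := by
  induction P using Polynomial.induction_on' with
  | add p q hp hq =>
    rw [map_add, LinearMap.add_apply]
    exact hp.add b ι hq
  | monomial k c =>
    rw [Polynomial.aeval_monomial, Module.End.mul_apply, actL_pow, Module.algebraMap_end_apply]
    exact (h.map_diag b ι hP (hτ.pow b ι k)).zsmul b ι c

lemma ASGood.map_frob [Fact p.Prime] [CharP 𝔽 p] [CharP F p] (hP : ASProd (F := F) b p t x y)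
    {bb : Fin n → ℕ} {Z : KM m M} (h : ASGood b p F ι t x y bb Z) {J : Finset (Fin n)}
    {φ : M →+* M} (hφ : IsFrobAt b F t x y J φ) : ASGood b p F ι t x y bb (KM.map m φ Z) := by
  obtain ⟨f₀, -, hf₀⟩ := FiniteField.card 𝔽 p
  have hq : b.q = p ^ (f₀ : ℕ) := by rw [← b.card_q, hf₀]
  have hM : CharP M p := charP_of_injective_algebraMap (algebraMap F M).injective p
  -- the action of the Frobenius on the generators
  have a1 : ∀ j, φ (x j ^ b.N) = if j ∈ J then (x j ^ b.N) ^ b.q else x j ^ b.N := by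
    intro j
    rw [map_pow]
    split_ifs with hj
    · rw [hφ.gx j hj, ← pow_mul, ← pow_mul, mul_comm]
    · rw [hφ.fx j hj]
  have a2 : φ (∏ j, x j ^ bb j) = (∏ j, x j ^ bb j) *
      ∏ j, (if j ∈ J then ((x j ^ b.N) ^ b.e) ^ bb j else 1) := by
    rw [map_prod, ← Finset.prod_mul_distrib]
    refine Finset.prod_congr rfl fun j _ => ?_
    rw [map_pow]
    split_ifs with hj
    · rw [hφ.gx j hj, ← mul_pow]
      congr 1
      rw [Base.q, pow_succ, pow_mul, mul_comm]
    · rw [hφ.fx j hj, mul_one]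
  have a3 : ∀ (j : Fin n) (k : ℕ), y j ^ p ^ k = y j + ∑ i ∈ range k, (x j ^ b.N) ^ p ^ i := by
    intro j k
    induction k with
    | zero => simp
    | succ k ih =>
      have h1 : y j ^ p ^ (k + 1) = y j ^ p ^ k + (x j ^ b.N) ^ p ^ k := by
        have h2 : y j ^ p = y j + x j ^ b.N := by rw [← hP.eq j]; ring
        rw [pow_succ', pow_mul, h2, add_pow_char_pow]
      rw [h1, ih, Finset.sum_range_succ, add_assoc]
  have a4 : φ (∑ j, y j) = (∑ j, y j) +
      ∑ j, (if j ∈ J then ∑ i ∈ range (f₀ : ℕ), (x j ^ b.N) ^ p ^ i else 0) := by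
    rw [map_sum, ← Finset.sum_add_distrib]
    refine Finset.sum_congr rfl fun j _ => ?_
    split_ifs with hj
    · rw [hφ.gy j hj, hq, a3]
    · rw [hφ.fy j hj, add_zero]
  refine ⟨h.unr.map φ, fun f g h1 h2 h3 h4 h5 => ?_, fun a' f hf hN => ?_, fun c' f hf hN => ?_⟩
  · rw [KM.map_map, KM.map_map]
    refine h.inv (f.comp φ) (g.comp φ) (fun a => ?_) (fun i => ?_) (fun j => ?_) ?_ ?_
    · rw [RingHom.comp_apply, RingHom.comp_apply, hφ.const]
      exact h1 a
    · rw [RingHom.comp_apply, RingHom.comp_apply, hφ.ft]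
      exact h2 i
    · rw [RingHom.comp_apply, RingHom.comp_apply, a1]
      split_ifs with hj
      · rw [map_pow f, map_pow g, h3]
      · exact h3 j
    · rw [RingHom.comp_apply, RingHom.comp_apply, a2, map_mul, map_mul, h4]
      congr 1
      rw [map_prod, map_prod]
      refine Finset.prod_congr rfl fun j _ => ?_
      split_ifs with hj
      · rw [map_pow f, map_pow f, map_pow g, map_pow g, h3]
      · rw [map_one, map_one]
    · rw [RingHom.comp_apply, RingHom.comp_apply, a4, map_add, map_add, h5]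
      congr 1
      rw [map_sum, map_sum]
      refine Finset.sum_congr rfl fun j _ => ?_
      split_ifs with hj
      · rw [map_sum f, map_sum g]
        refine Finset.sum_congr rfl fun i _ => ?_
        rw [map_pow f, map_pow g, h3]
      · rw [map_zero, map_zero]
  · have h1 : ∀ i ∈ range b.N, KM.map m (f ^ i) (KM.map m φ Z) =
        KM.map m φ (KM.map m (f ^ i) Z) := by
      intro i _
      rw [KM.map_map, KM.map_map, B2_commF b ι hP hf hφ]
    rw [sum_congr rfl h1, ← map_sum, h.newN a' f hf hN, map_zero]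
  · have h1 : ∀ i ∈ range p, KM.map m (f ^ i) (KM.map m φ Z) =
        KM.map m φ (KM.map m (f ^ i) Z) := by
      intro i _
      rw [KM.map_map, KM.map_map, B2_commF b ι hP hf hφ]
    rw [sum_congr rfl h1, ← map_sum, h.newp c' f hf hN, map_zero]

end UnrA.Fer
end

section

/-!
# The curves `u ^ p - u = x R(x) + l x + d`: homomorphisms and base change
-/

namespace UnrA.Fer

open UnrG

universe u v w z

open Polynomial Finset
open scoped Classical

variable {p : ℕ} [Fact p.Prime] {F E : Type u} [Field F] [Field E] [CharP F p] [Algebra F E]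
  {h : Fin 2 → ℕ} {r : Fin 2 → ℕ → F} {l : Fin 2 → F} {d : F} {x : Fin 2 → E} {u : E}

omit [Fact p.Prime] [CharP F p] in
private lemma T4_poly {K : Type u} [Field K] (h : ℕ) (r : ℕ → K) (hr : r h ≠ 0) (l c : K)
    (hp1 : 1 < p) : (∑ i ∈ range (h + 1), C (r i) * X ^ (p ^ i + 1) + (C l * X + C c) : K[X]).natDegree
      = p ^ h + 1 := by
  have h1 : ∀ m : ℕ, m ≤ h → (∑ i ∈ range m, C (r i) * X ^ (p ^ i + 1) +
      (C l * X + C c) : K[X]).natDegree < p ^ h + 1 := by
    intro m hm
    refine Nat.lt_succ_of_le ((natDegree_add_le _ _).trans (max_le ?_ ?_))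
    · refine natDegree_sum_le_of_forall_le _ _ fun i hi => ?_
      refine (natDegree_C_mul_X_pow_le _ _).trans ?_
      have h2 : i < h := lt_of_lt_of_le (mem_range.1 hi) hm
      exact Nat.pow_lt_pow_right hp1 h2
    · refine (natDegree_add_le _ _).trans (max_le ?_ ?_)
      · exact (natDegree_C_mul_le _ _).trans (natDegree_X_le.trans (Nat.one_le_pow _ _ (by lia)))
      · rw [natDegree_C]
        exact Nat.zero_le _
  rw [sum_range_succ, add_assoc, add_comm (C (r h) * X ^ (p ^ h + 1)), ← add_assoc]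
  rw [natDegree_add_eq_right_of_natDegree_lt, natDegree_C_mul_X_pow _ _ hr]
  rw [natDegree_C_mul_X_pow _ _ hr]
  exact h1 h le_rfl

omit [Fact p.Prime] [CharP F p] in
private lemma T4_eval {K T : Type u} [Field K] [Field T] (j : K →+* T) (h : ℕ) (r : ℕ → K)
    (l c : K) (y : T) :
    (∑ i ∈ range (h + 1), C (r i) * X ^ (p ^ i + 1) + (C l * X + C c) : K[X]).eval₂ j y =
      j c + (y * adR p h (fun i => j (r i)) y + j l * y) := by
  rw [eval₂_add, eval₂_finsetSum, eval₂_add, eval₂_mul, eval₂_C, eval₂_X, eval₂_C, adR, mul_sum]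
  have h1 : ∀ i, eval₂ j y (C (r i) * X ^ (p ^ i + 1)) = y * (j (r i) * y ^ p ^ i) := by
    intro i
    rw [eval₂_mul, eval₂_C, eval₂_pow, eval₂_X]
    ring
  rw [sum_congr rfl fun i _ => h1 i]
  ring

/-- The universal property. -/
theorem IsAddPair.exists_hom (hE : IsAddPair p h r l d x u) {E' : Type v} [Field E']
    [Algebra F E'] (x' : Fin 2 → E') (hx' : AlgebraicIndependent F x') (u' : E')
    (hu' : u' ^ p - u' = algebraMap F E' d + ∑ j, (x' j *
      adR p (h j) (fun i => algebraMap F E' (r j i)) (x' j) + algebraMap F E' (l j) * x' j)) :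
    ∃ f : E →+* E', (∀ a, f (algebraMap F E a) = algebraMap F E' a) ∧ (∀ j, f (x j) = x' j) ∧
      f u = u' := by
  have hp : p.Prime := Fact.out
  obtain ⟨T, hT⟩ : ∃ T : IntermediateField F E, T = IntermediateField.adjoin F (Set.range x) :=
    ⟨_, rfl⟩
  have hxT : ∀ j, x j ∈ T := fun j => by
    rw [hT]
    exact IntermediateField.subset_adjoin _ _ ⟨j, rfl⟩
  have hTp : CharP T p := charP_of_injective_algebraMap (algebraMap F T).injective p
  -- the homomorphism of `T`
  obtain ⟨g, hgF, hgx⟩ : ∃ g : T →+* E', (∀ a : F, g (algebraMap F T a) = algebraMap F E' a) ∧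
      ∀ j, g ⟨x j, hxT j⟩ = x' j := by
    let e : T →ₐ[F] E' := ((IntermediateField.val _).comp hx'.aevalEquivField.toAlgHom).comp
      (hE.ind.aevalEquivField.symm.toAlgHom.comp (IntermediateField.equivOfEq hT).toAlgHom)
    refine ⟨e.toRingHom, fun a => e.commutes a, fun j => ?_⟩
    have h1 : hE.ind.aevalEquivField (algebraMap (MvPolynomial (Fin 2) F)
        (FractionRing (MvPolynomial (Fin 2) F)) (MvPolynomial.X j)) =
        IntermediateField.equivOfEq hT ⟨x j, hxT j⟩ := by
      apply Subtype.ext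
      rw [AlgebraicIndependent.aevalEquivField_algebraMap_apply_coe, MvPolynomial.aeval_X]
      rfl
    change ((hx'.aevalEquivField (hE.ind.aevalEquivField.symm
      (IntermediateField.equivOfEq hT ⟨x j, hxT j⟩)) : _) : E') = x' j
    rw [← h1, AlgEquiv.symm_apply_apply,
      AlgebraicIndependent.aevalEquivField_algebraMap_apply_coe, MvPolynomial.aeval_X]
  -- the right hand side
  obtain ⟨a, ha⟩ : ∃ a : T, a = algebraMap F T d + ∑ j, ((⟨x j, hxT j⟩ : T) *
      adR p (h j) (fun i => algebraMap F T (r j i)) ⟨x j, hxT j⟩ +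
        algebraMap F T (l j) * ⟨x j, hxT j⟩) := ⟨_, rfl⟩
  have haE : u ^ p - u = algebraMap T E a := by
    rw [hE.eq, ha, map_add, map_sum]
    refine congrArg₂ (· + ·) rfl (sum_congr rfl fun j _ => ?_)
    rw [map_add, map_mul, map_mul, map_adR]
    rfl
  have haE' : u' ^ p - u' = g a := by
    rw [hu', ha, map_add, map_sum, hgF]
    refine congrArg₂ (· + ·) rfl (sum_congr rfl fun j _ => ?_)
    rw [map_add, map_mul, map_mul, map_adR, hgF, hgx]
    simp only [hgF]
  have htop : IntermediateField.adjoin T {u} = ⊤ := by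
    have h1 : (IntermediateField.adjoin T {u}).restrictScalars F = ⊤ := by
      rw [← hE.gen, hT]
      exact IntermediateField.adjoin_adjoin_left F (Set.range x) {u}
    exact IntermediateField.restrictScalars_injective F
      (h1.trans IntermediateField.restrictScalars_top.symm)
  -- the element is not of the form `b ^ p - b`
  have hne : ∀ b : T, b ^ p - b ≠ a := by
    obtain ⟨K, hK⟩ : ∃ K : IntermediateField F E, K = IntermediateField.adjoin F (x '' {1}) :=
      ⟨_, rfl⟩
    have hKT : K ≤ T := by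
      rw [hK, hT]
      exact IntermediateField.adjoin.mono F _ _ (Set.image_subset_range _ _)
    have hx1 : x 1 ∈ K := by
      rw [hK]
      exact IntermediateField.subset_adjoin _ _ ⟨1, rfl, rfl⟩
    have hKp : CharP K p := charP_of_injective_algebraMap (algebraMap F K).injective p
    let j : K →+* T := (IntermediateField.inclusion hKT).toRingHom
    have htr : Transcendental K (x 0) := by
      rw [hK]
      exact IntermediateField.transcendental_adjoin_iff.2
        (hE.ind.transcendental_adjoin (s := {1}) (i := 0) (by simp))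
    have hx0 : ∀ f : K[X], f ≠ 0 → f.eval₂ j (⟨x 0, hxT 0⟩ : T) ≠ 0 := by
      intro f hf h0
      apply htr
      refine ⟨f, hf, ?_⟩
      have h1 := congrArg (algebraMap T E) h0
      rw [map_zero, hom_eval₂] at h1
      exact h1
    have hgen : Subfield.closure (Set.range j ∪ {(⟨x 0, hxT 0⟩ : T)}) = ⊤ := by
      obtain ⟨R, hR⟩ : ∃ R, R = Subfield.closure (Set.range j ∪ {(⟨x 0, hxT 0⟩ : T)}) := ⟨_, rfl⟩
      rw [← hR, eq_top_iff]
      intro y _
      have h1 : T.toSubfield ≤ R.map (algebraMap T E) := by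
        have h2 : T.toSubfield = Subfield.closure (Set.range (algebraMap F E) ∪ Set.range x) := by
          rw [hT, IntermediateField.adjoin_toSubfield]
        rw [h2, Subfield.closure_le]
        rintro _ (⟨b, rfl⟩ | ⟨i, rfl⟩)
        · refine ⟨algebraMap F T b, ?_, rfl⟩
          rw [hR]
          exact Subfield.subset_closure (Or.inl ⟨algebraMap F K b, rfl⟩)
        · refine ⟨⟨x i, hxT i⟩, ?_, rfl⟩
          rw [hR]
          fin_cases i
          · exact Subfield.subset_closure (Or.inr rfl)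
          · exact Subfield.subset_closure (Or.inl ⟨⟨x 1, hx1⟩, rfl⟩)
      obtain ⟨y', hy', hyy⟩ := h1 y.2
      have h3 : y' = y := Subtype.ext hyy
      rw [← h3]
      exact hy'
    obtain ⟨c, hc⟩ : ∃ c : K, c = algebraMap F K d + ((⟨x 1, hx1⟩ : K) *
      adR p (h 1) (fun i => algebraMap F K (r 1 i)) ⟨x 1, hx1⟩ +
        algebraMap F K (l 1) * ⟨x 1, hx1⟩) := ⟨_, rfl⟩
    obtain ⟨f, hf⟩ : ∃ f : K[X], f = ∑ i ∈ range (h 0 + 1), C (algebraMap F K (r 0 i)) *
      X ^ (p ^ i + 1) + (C (algebraMap F K (l 0)) * X + C c) := ⟨_, rfl⟩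
    have hfa : f.eval₂ j (⟨x 0, hxT 0⟩ : T) = a := by
      rw [hf, T4_eval, hc, map_add, map_add, map_mul, map_mul, map_adR, ha, Fin.sum_univ_two]
      have h1 : ∀ b : F, j (algebraMap F K b) = algebraMap F T b := fun b => rfl
      have h2 : j ⟨x 1, hx1⟩ = ⟨x 1, hxT 1⟩ := rfl
      simp only [h1, h2]
      ring
    have hdeg : f.natDegree = p ^ (h 0) + 1 := by
      rw [hf]
      exact T4_poly (h 0) (fun i => algebraMap F K (r 0 i))
        ((map_ne_zero (algebraMap F K)).2 (hE.ne 0)) _ _ hp.one_lt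
    rw [← hfa]
    refine as_not_mem j hx0 hgen f ?_
    rw [hdeg]
    intro hdvd
    rcases Nat.eq_zero_or_pos (h 0) with h0 | h0
    · rw [h0, pow_zero] at hdvd
      have h2 : p = 2 := by
        have h3 := Nat.le_of_dvd (by norm_num) hdvd
        have h4 := hp.two_le
        lia
      have h5 := hE.pos h2 0
      lia
    · have h1 : p ∣ p ^ (h 0) := dvd_pow_self p (by lia)
      have h2 := (Nat.dvd_add_right h1).1 hdvd
      exact hp.one_lt.ne' (Nat.dvd_one.1 h2)
  obtain ⟨ν, hν1, hν2⟩ := as_lift hne haE htop g u' haE'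
  refine ⟨ν, fun b => ?_, fun j => ?_, hν2⟩
  · have h1 := RingHom.congr_fun hν1 (algebraMap F T b)
    rw [hgF] at h1
    exact h1
  · have h1 := RingHom.congr_fun hν1 ⟨x j, hxT j⟩
    rw [hgx] at h1
    exact h1

lemma IsAddPair.hom_ext (hE : IsAddPair p h r l d x u) {E' : Type v} [Field E'] {f g : E →+* E'}
    (h1 : ∀ a : F, f (algebraMap F E a) = g (algebraMap F E a)) (h2 : ∀ j, f (x j) = g (x j))
    (h3 : f u = g u) : f = g := by
  have h4 : (⊤ : Subfield E) ≤ RingHom.eqLocusField f g := by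
    have h5 := congrArg IntermediateField.toSubfield hE.gen
    rw [IntermediateField.adjoin_toSubfield, IntermediateField.top_toSubfield] at h5
    rw [← h5, Subfield.closure_le]
    rintro y (⟨a, rfl⟩ | (⟨i, rfl⟩ | hy))
    · exact h1 a
    · exact h2 i
    · rw [Set.mem_singleton_iff] at hy
      rw [hy]
      exact h3
  exact RingHom.ext fun y => h4 (Subfield.mem_top y)

/-- Base change. -/
theorem IsAddPair.baseChange (hE : IsAddPair p h r l d x u) {F' : Type u} [Field F']
    [Algebra F F'] [FiniteDimensional F F'] :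
    ∃ (E' : Type u) (_ : Field E') (_ : Algebra E E') (_ : Algebra F' E'),
      FiniteDimensional E E' ∧ Module.finrank E E' ≤ Module.finrank F F' ∧
      (∀ a : F, algebraMap E E' (algebraMap F E a) = algebraMap F' E' (algebraMap F F' a)) ∧
      IsAddPair p h (fun j i => algebraMap F F' (r j i)) (fun j => algebraMap F F' (l j))
        (algebraMap F F' d) (fun j => algebraMap E E' (x j)) (algebraMap E E' u) := by
  obtain ⟨E', _, _, _, _, hst, hst', hfd, hle, hcl⟩ := exists_compositum (k := F) (E := E)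
    (k' := F')
  have hcomm : ∀ a : F, algebraMap E E' (algebraMap F E a) = algebraMap F' E' (algebraMap F F' a) :=
    fun a => by
      rw [← IsScalarTower.algebraMap_apply, ← IsScalarTower.algebraMap_apply]
  refine ⟨E', inferInstance, inferInstance, inferInstance, hfd, hle, hcomm,
    ⟨?_, hE.pos, ?_, ?_, ?_⟩⟩
  · exact fun j => (map_ne_zero (algebraMap F F')).2 (hE.ne j)
  · have h1 : AlgebraicIndependent F (fun j => algebraMap E E' (x j)) :=
      hE.ind.map' (f := IsScalarTower.toAlgHom F E E') (algebraMap E E').injective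
    have halg : Algebra.IsAlgebraic F F' := Algebra.IsAlgebraic.of_finite F F'
    exact h1.extendScalars F'
  · rw [← map_pow, ← map_sub, hE.eq, map_add, map_sum, hcomm]
    refine congrArg₂ (· + ·) rfl (sum_congr rfl fun j _ => ?_)
    rw [map_add, map_mul, map_mul, map_adR, hcomm]
    simp only [hcomm]
  · rw [eq_top_iff]
    intro y _
    obtain ⟨R, hR⟩ : ∃ R, R = IntermediateField.adjoin F'
      ((Set.range fun j => algebraMap E E' (x j)) ∪ {algebraMap E E' u}) := ⟨_, rfl⟩
    rw [← hR]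
    have hER : ∀ z : E, algebraMap E E' z ∈ R := by
      intro z
      have h1 := congrArg IntermediateField.toSubfield hE.gen
      rw [IntermediateField.adjoin_toSubfield, IntermediateField.top_toSubfield] at h1
      have h2 : (⊤ : Subfield E) ≤ R.toSubfield.comap (algebraMap E E') := by
        rw [← h1, Subfield.closure_le]
        rintro y (⟨a, rfl⟩ | (⟨i, rfl⟩ | hy))
        · change algebraMap E E' (algebraMap F E a) ∈ R
          rw [hcomm]
          exact R.algebraMap_mem _
        · change algebraMap E E' (x i) ∈ R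
          rw [hR]
          exact IntermediateField.subset_adjoin _ _ (Or.inl ⟨i, rfl⟩)
        · rw [Set.mem_singleton_iff] at hy
          change algebraMap E E' y ∈ R
          rw [hy, hR]
          exact IntermediateField.subset_adjoin _ _ (Or.inr rfl)
      exact h2 (Subfield.mem_top z)
    have h3 : (⊤ : Subfield E') ≤ R.toSubfield := by
      rw [← hcl, Subfield.closure_le]
      rintro _ (⟨a, rfl⟩ | ⟨a, rfl⟩)
      · exact hER a
      · exact R.algebraMap_mem a
    exact h3 (Subfield.mem_top y)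

/-- The two variables can be exchanged. -/
lemma IsAddPair.swap (hE : IsAddPair p h r l d x u) :
    IsAddPair p (fun j => h (1 - j)) (fun j => r (1 - j)) (fun j => l (1 - j)) d
      (fun j => x (1 - j)) u := by
  have hinj : Function.Injective (fun j : Fin 2 => 1 - j) := fun a b hab => sub_right_injective hab
  refine ⟨fun j => hE.ne _, fun hp j => hE.pos hp _, hE.ind.comp _ hinj, ?_, ?_⟩
  · rw [hE.eq, Fin.sum_univ_two, Fin.sum_univ_two]
    refine congrArg₂ (· + ·) rfl ?_
    exact add_comm _ _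
  · have h1 : (Set.range fun j => x (1 - j)) = Set.range x := by
      have h2 : Function.Surjective (fun j : Fin 2 => 1 - j) := fun j => ⟨1 - j, by
        change 1 - (1 - j) = j
        exact sub_sub_cancel 1 j⟩
      exact h2.range_comp x
    rw [h1]
    exact hE.gen

end UnrA.Fer
end

section

/-!
# The quotient of a pair by a translation
-/

namespace UnrA.Fer

open UnrG

universe u v w z

open Polynomial Finset
open scoped Classical

variable {m : UFun.{u, z}}

/-- The integer `C` kills the unramified classes of pairs whose sum of conjugates under `u ↦ u + 1`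
vanishes. -/
def AddPairNew (p : ℕ) (h : Fin 2 → ℕ) (C : ℕ) : Prop :=
  ∀ (m : UFun.{u, z}) (F E : Type u) [Field F] [Field E] [CharP F p] [Algebra F E]
    (r : Fin 2 → ℕ → F) (l : Fin 2 → F) (d : F) (x : Fin 2 → E) (u : E)
    (_ : IsAddPair p h r l d x u) (z : KM m E) (_ : Unr z) (δ : E →+* E)
    (_ : ∀ a : F, δ (algebraMap F E a) = algebraMap F E a) (_ : ∀ j, δ (x j) = x j)
    (_ : δ u = u + 1) (_ : ∑ i ∈ range p, KM.map m (δ ^ i) z = 0), C • z = 0

private lemma T5b_pair {p : ℕ} [Fact p.Prime] {F E : Type u} [Field F] [Field E] [Algebra F E]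
    {h : Fin 2 → ℕ} {r : Fin 2 → ℕ → F} {l : Fin 2 → F} {d : F} {X : Fin 2 → E} {U : E}
    (hne : ∀ j, r j (h j) ≠ 0) (hpos : p = 2 → ∀ j, 0 < h j) (hind : AlgebraicIndependent F X)
    (heq : U ^ p - U = algebraMap F E d + ∑ j, (X j * adR p (h j)
      (fun i => algebraMap F E (r j i)) (X j) + algebraMap F E (l j) * X j))
    {T : IntermediateField F E}
    (hT : T = IntermediateField.adjoin F (Set.range X ∪ {U})) (hX : ∀ j, X j ∈ T) (hU : U ∈ T) :
    IsAddPair p h r l d (fun j => (⟨X j, hX j⟩ : T)) ⟨U, hU⟩ := by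
  refine ⟨hne, hpos, ?_, ?_, ?_⟩
  · exact AlgebraicIndependent.of_comp T.val hind
  · apply (algebraMap T E).injective
    rw [map_sub, map_pow, map_add, map_sum]
    refine Eq.trans heq (congrArg₂ (· + ·) rfl (sum_congr rfl fun j _ => ?_))
    rw [map_add, map_mul, map_mul, map_adR]
    rfl
  · apply IntermediateField.map_injective T.val
    rw [IntermediateField.adjoin_map, ← AlgHom.fieldRange_eq_map, IntermediateField.fieldRange_val]
    rw [Set.image_union, Set.image_singleton, ← Set.range_comp]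
    exact hT.symm

private lemma T5b_aeval {F E : Type u} [Field F] [Field E] [Algebra F E] {s : E →+* E}
    (hs : ∀ a : F, s (algebraMap F E a) = algebraMap F E a) (y : E) (Q : F[X]) :
    s (aeval y Q) = aeval (s y) Q := by
  rw [aeval_def, aeval_def, hom_eval₂]
  have h1 : s.comp (algebraMap F E) = algebraMap F E := RingHom.ext hs
  rw [h1]

private lemma T5b_ind {p : ℕ} (hp : 1 < p) {F E : Type u} [Field F] [Field E] [Algebra F E]
    {x : Fin 2 → E} (hx : AlgebraicIndependent F x) (b : F) :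
    AlgebraicIndependent F ![x 0 ^ p - algebraMap F E b * x 0, x 1] := by
  have h1 : (C b * X : F[X]).natDegree < (X ^ p : F[X]).natDegree := by
    rw [natDegree_X_pow]
    exact lt_of_le_of_lt ((natDegree_C_mul_le _ _).trans natDegree_X_le) hp
  have h2 : (X ^ p - C b * X : F[X]).natDegree = p := by
    rw [natDegree_sub_eq_left_of_natDegree_lt h1, natDegree_X_pow]
  have h3 : ∀ i : Fin 2, Transcendental F ((![X ^ p - C b * X, X] : Fin 2 → F[X]) i) := by
    intro i
    fin_cases i
    · refine Polynomial.transcendental _ ?_ ?_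
      · change (X ^ p - C b * X : F[X]).natDegree ≠ 0
        rw [h2]
        lia
      · refine mem_nonZeroDivisors_of_ne_zero (leadingCoeff_ne_zero.2 ?_)
        intro h0
        have h4 : (X ^ p - C b * X : F[X]) = 0 := h0
        rw [h4, natDegree_zero] at h2
        lia
    · exact Polynomial.transcendental_X F
  have h4 := hx.polynomial_aeval_of_transcendental h3
  have h5 : (fun i => aeval (x i) ((![X ^ p - C b * X, X] : Fin 2 → F[X]) i)) =
      ![x 0 ^ p - algebraMap F E b * x 0, x 1] := by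
    funext i
    fin_cases i
    · change aeval (x 0) (X ^ p - C b * X : F[X]) = x 0 ^ p - algebraMap F E b * x 0
      rw [map_sub, map_pow, map_mul, aeval_X, aeval_C]
    · change aeval (x 1) (X : F[X]) = x 1
      rw [aeval_X]
  rw [h5] at h4
  exact h4

/-- The trace under a translation. -/
theorem addPair_trace {p : ℕ} [Fact p.Prime] {h : Fin 2 → ℕ} {h₀ C : ℕ} (hh : h 0 = h₀ + 1)
    (h2 : p = 2 → 0 < h₀)
    (hC : AddPairNew.{u, z} p ![h₀, h 1] C) {F E : Type u} [Field F] [Field E] [CharP F p]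
    [Algebra F E] {r : Fin 2 → ℕ → F} {l : Fin 2 → F} {d : F} {x : Fin 2 → E} {u : E}
    (hE : IsAddPair p h r l d x u) {a c : F} (ha : a ≠ 0)
    (hB : adB p (h 0) (r 0) a (h 0) = 0) (h3 : p = 2 → adS p (h 0) (r 0) a a = 0)
    (hc : c ^ p - c = a * adR p (h 0) (r 0) a + l 0 * a) {δ : E →+* E}
    (hδF : ∀ a : F, δ (algebraMap F E a) = algebraMap F E a) (hδx : ∀ j, δ (x j) = x j)
    (hδu : δ u = u + 1) {g : E →+* E}
    (hgF : ∀ a : F, g (algebraMap F E a) = algebraMap F E a)
    (hg0 : g (x 0) = x 0 + algebraMap F E a) (hg1 : g (x 1) = x 1)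
    (hgu : g u = u + adS p (h 0) (fun i => algebraMap F E (r 0 i)) (algebraMap F E a) (x 0) +
      algebraMap F E c) {z : KM m E} (hz : Unr z)
    (hsum : ∑ i ∈ range p, KM.map m (δ ^ i) z = 0) :
    (C * p) • ∑ j ∈ range p, KM.map m (g ^ j) z = 0 := by
  have hp : p.Prime := Fact.out
  have hEp : CharP E p := charP_of_injective_algebraMap (algebraMap F E).injective p
  -- `δ` and `g` commute
  have hcomm : Commute δ g := by
    refine hE.hom_ext (f := δ.comp g) (g := g.comp δ) ?_ ?_ ?_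
    · intro b
      rw [RingHom.comp_apply, RingHom.comp_apply, hgF, hδF, hgF]
    · intro j
      rw [RingHom.comp_apply, RingHom.comp_apply, hδx]
      fin_cases j
      · change δ (g (x 0)) = g (x 0)
        rw [hg0, map_add, hδx, hδF]
      · change δ (g (x 1)) = g (x 1)
        rw [hg1, hδx]
    · rw [RingHom.comp_apply, RingHom.comp_apply, hδu, map_add, map_one, hgu, map_add, map_add,
        map_adS, hδF, hδx, hδF, hδu]
      simp only [hδF]
      ring
  have hgE := hE.eq
  have hne0 := hE.ne 0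
  rw [Fin.sum_univ_two, hh] at hgE
  rw [hh] at hB h3 hc hgu hne0
  obtain ⟨r', l', Q, hr', hQ⟩ := ad_quotient (r 0) hne0 ha hB h3 hc
  obtain ⟨hQ1, hQ2⟩ := hQ E (x 0)
  have hA : algebraMap F E a ≠ 0 := (map_ne_zero (algebraMap F E)).2 ha
  obtain ⟨A, hAd⟩ : ∃ A : E, A = algebraMap F E a := ⟨_, rfl⟩
  have hgA : g A = A := by rw [hAd, hgF]
  have hδA : δ A = A := by rw [hAd, hδF]
  rw [← hAd] at hA hQ1 hQ2 hg0 hgu
  have hpp : A ^ (p - 1) * A = A ^ p := by
    rw [← pow_succ, Nat.sub_add_cancel hp.one_lt.le]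
  obtain ⟨x', hx'⟩ : ∃ x' : E, x' = x 0 ^ p - A ^ (p - 1) * x 0 := ⟨_, rfl⟩
  obtain ⟨q, hq⟩ : ∃ q : E, q = aeval (x 0) Q := ⟨_, rfl⟩
  obtain ⟨u', hu'⟩ : ∃ u' : E, u' = u - q := ⟨_, rfl⟩
  rw [← hx', ← hq] at hQ1
  rw [← hq] at hQ2
  have hgx' : g x' = x' := by
    rw [hx', map_sub, map_pow, map_mul, map_pow, hgA, hg0, add_pow_char, mul_add, hpp]
    ring
  have hδx' : δ x' = x' := by
    rw [hx', map_sub, map_pow, map_mul, map_pow, hδA, hδx]
  have hgq : g q = q + adS p (h₀ + 1) (fun i => algebraMap F E (r 0 i)) A (x 0) +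
      algebraMap F E c := by
    rw [hq, T5b_aeval hgF, hg0, hQ2, ← hq]
  have hδq : δ q = q := by
    rw [hq, T5b_aeval hδF, hδx]
  have hgu' : g u' = u' := by
    rw [hu', map_sub, hgu, hgq]
    ring
  have hδu' : δ u' = u' + 1 := by
    rw [hu', map_sub, hδu, hδq]
    ring
  obtain ⟨V, hV⟩ : ∃ V : Fin 2 → E, V = ![x', x 1] := ⟨_, rfl⟩
  have hV0 : V 0 = x' := by rw [hV]; rfl
  have hV1 : V 1 = x 1 := by rw [hV]; rfl
  have hind : AlgebraicIndependent F V := by
    have h1 := T5b_ind hp.one_lt hE.ind (a ^ (p - 1))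
    rw [map_pow, ← hAd, ← hx'] at h1
    rw [hV]
    exact h1
  have heq : u' ^ p - u' = algebraMap F E d + ∑ j, (V j *
      adR p ((![h₀, h 1] : Fin 2 → ℕ) j)
        (fun i => algebraMap F E ((![r', r 1] : Fin 2 → ℕ → F) j i)) (V j) +
        algebraMap F E ((![l', l 1] : Fin 2 → F) j) * V j) := by
    rw [Fin.sum_univ_two, hV0, hV1]
    change u' ^ p - u' = algebraMap F E d + ((x' *
      adR p h₀ (fun i => algebraMap F E (r' i)) x' + algebraMap F E l' * x') +
      (x 1 * adR p (h 1) (fun i => algebraMap F E (r 1 i)) (x 1) + algebraMap F E (l 1) * x 1))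
    rw [← hQ1, hu', sub_pow_char]
    linear_combination hgE
  obtain ⟨T, hT⟩ : ∃ T : IntermediateField F E,
    T = IntermediateField.adjoin F (Set.range V ∪ {u'}) := ⟨_, rfl⟩
  have hVT : ∀ j, V j ∈ T := fun j => by
    rw [hT]
    exact IntermediateField.subset_adjoin _ _ (Or.inl ⟨j, rfl⟩)
  have hx'T : x' ∈ T := hV0 ▸ hVT 0
  have hx1T : x 1 ∈ T := hV1 ▸ hVT 1
  have hu'T : u' ∈ T := by
    rw [hT]
    exact IntermediateField.subset_adjoin _ _ (Or.inr rfl)
  have hTp : CharP T p := charP_of_injective_algebraMap (algebraMap F T).injective p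
  have hclT : T.toSubfield = Subfield.closure (Set.range (algebraMap F E) ∪
      (Set.range V ∪ {u'})) := by
    rw [hT, IntermediateField.adjoin_toSubfield]
  have hpair := T5b_pair (p := p) (h := ![h₀, h 1]) (r := ![r', r 1]) (l := ![l', l 1]) (d := d)
    (X := V) (U := u') (by
      intro j
      fin_cases j
      · exact hr'
      · exact hE.ne 1) (by
      intro hp2 j
      fin_cases j
      · exact h2 hp2
      · exact hE.pos hp2 1) hind heq hT hVT hu'T
  -- `g` fixes `T`, `δ` maps `T` to itself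
  have hgT : ∀ e : T, g (algebraMap T E e) = algebraMap T E e := by
    intro e
    have h4 : T.toSubfield ≤ RingHom.eqLocusField g (RingHom.id E) := by
      rw [hclT, Subfield.closure_le]
      rintro _ (⟨b, rfl⟩ | (⟨j, rfl⟩ | hy))
      · exact hgF b
      · change g (V j) = V j
        fin_cases j
        · change g (V 0) = V 0
          rw [hV0, hgx']
        · change g (V 1) = V 1
          rw [hV1, hg1]
      · rw [Set.mem_singleton_iff] at hy
        rw [hy]
        exact hgu'
    exact h4 e.2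
  have hδV : ∀ j, δ (V j) = V j := by
    intro j
    fin_cases j
    · change δ (V 0) = V 0
      rw [hV0, hδx']
    · change δ (V 1) = V 1
      rw [hV1, hδx]
  have hδT : ∀ e : T, δ.comp (algebraMap T E) e ∈ T.toSubfield := by
    intro e
    have h4 : T.toSubfield ≤ T.toSubfield.comap δ := by
      have h5 : Set.range (algebraMap F E) ∪ (Set.range V ∪ {u'}) ⊆
          ((T.toSubfield.comap δ : Subfield E) : Set E) := by
        rintro _ (⟨b, rfl⟩ | (⟨j, rfl⟩ | hy))
        · change δ (algebraMap F E b) ∈ T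
          rw [hδF]
          exact T.algebraMap_mem b
        · change δ (V j) ∈ T
          rw [hδV]
          exact hVT j
        · rw [Set.mem_singleton_iff] at hy
          change δ _ ∈ T
          rw [hy, hδu']
          exact add_mem hu'T (one_mem T)
      have h6 := Subfield.closure_le.2 h5
      rw [← hclT] at h6
      exact h6
    exact h4 e.2
  let δ' : T →+* T := (δ.comp (algebraMap T E)).codRestrict T.toSubfield hδT
  have hδ' : ∀ e : T, algebraMap T E (δ' e) = δ (algebraMap T E e) := fun e => rfl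
  have hδ'i : ∀ i : ℕ, (algebraMap T E).comp (δ' ^ i) = (δ ^ i).comp (algebraMap T E) := by
    intro i
    induction i with
    | zero => rfl
    | succ i ih =>
      rw [pow_succ, pow_succ]
      refine RingHom.ext fun e => ?_
      have h4 := RingHom.congr_fun ih (δ' e)
      rw [RingHom.comp_apply, RingHom.comp_apply, hδ'] at h4
      exact h4
  -- the extension `E / T`
  have hY : (x 0 / A) ^ p - x 0 / A = algebraMap T E (⟨x', hx'T⟩ / algebraMap F T a ^ p) := by
    have h4 : algebraMap T E (⟨x', hx'T⟩ / algebraMap F T a ^ p) = x' / A ^ p := by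
      rw [map_div₀, map_pow, hAd]
      rfl
    rw [h4, hx', ← hpp, div_pow, ← hpp]
    have h5 : A ^ (p - 1) ≠ 0 := pow_ne_zero _ hA
    field_simp
  have htop : IntermediateField.adjoin T {x 0 / A} = ⊤ := by
    obtain ⟨R, hR⟩ : ∃ R, R = IntermediateField.adjoin T {x 0 / A} := ⟨_, rfl⟩
    rw [← hR]
    have hTR : ∀ e ∈ T, e ∈ R := fun e he => R.algebraMap_mem ⟨e, he⟩
    have hFR : ∀ b : F, algebraMap F E b ∈ R := fun b => hTR _ (T.algebraMap_mem b)
    have hAR : A ∈ R := by
      rw [hAd]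
      exact hFR a
    have hx0 : x 0 ∈ R := by
      have h4 : x 0 / A ∈ R := by
        rw [hR]
        exact IntermediateField.subset_adjoin _ _ rfl
      have h5 := mul_mem h4 hAR
      rw [div_mul_cancel₀ _ hA] at h5
      exact h5
    have hqR : q ∈ R := by
      rw [hq]
      have h4 := Polynomial.aeval_algHom_apply (R.restrictScalars F).val
        (⟨x 0, hx0⟩ : R.restrictScalars F) Q
      have h5 : aeval (x 0) Q = ((aeval (⟨x 0, hx0⟩ : R.restrictScalars F) Q :
        R.restrictScalars F) : E) := h4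
      rw [h5]
      exact (aeval (⟨x 0, hx0⟩ : R.restrictScalars F) Q).2
    have h1 := congrArg IntermediateField.toSubfield hE.gen
    rw [IntermediateField.adjoin_toSubfield, IntermediateField.top_toSubfield] at h1
    have h4 : (⊤ : Subfield E) ≤ R.toSubfield := by
      rw [← h1, Subfield.closure_le]
      rintro y (⟨b, rfl⟩ | (⟨j, rfl⟩ | hy))
      · exact hFR b
      · fin_cases j
        · exact hx0
        · exact hTR _ hx1T
      · rw [Set.mem_singleton_iff] at hy
        change y ∈ R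
        have h5 : y = u' + q := by
          rw [hy, hu']
          ring
        rw [h5]
        exact add_mem (hTR _ hu'T) hqR
    rw [eq_top_iff]
    intro y _
    exact h4 (Subfield.mem_top y)
  have hgY : g (x 0 / A) = x 0 / A + 1 := by
    rw [map_div₀, hg0, hgA, add_div, div_self hA]
  obtain ⟨hfd, hgal, hrank, htr⟩ := as_trace (m := m) hY htop g hgT hgY
  obtain ⟨y, hy⟩ := htr z
  have hunr : Unr (p • y) := by
    have h4 : Unr (KM.map m (algebraMap T E) y) := by
      rw [hy]
      exact Unr.sum fun j _ => hz.map _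
    have h5 := unr_smul_of_map h4
    rw [hrank] at h5
    exact h5
  have hsum' : ∑ i ∈ range p, KM.map m (δ' ^ i) (p • y) = 0 := by
    have h4 : KM.map m (algebraMap T E) (∑ i ∈ range p, KM.map m (δ' ^ i) y) = 0 := by
      rw [map_sum]
      have h5 : ∀ i ∈ range p, KM.map m (algebraMap T E) (KM.map m (δ' ^ i) y) =
          ∑ j ∈ range p, KM.map m (g ^ j) (KM.map m (δ ^ i) z) := by
        intro i _
        rw [KM.map_map, hδ'i, ← KM.map_map, hy, map_sum]
        refine sum_congr rfl fun j _ => ?_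
        rw [KM.map_map, KM.map_map]
        exact congrArg (fun f => KM.map m f z) (hcomm.pow_pow i j).eq
      rw [sum_congr rfl h5, sum_comm]
      refine sum_eq_zero fun j _ => ?_
      rw [← map_sum, hsum, map_zero]
    have h5 := finrank_smul_eq_zero p hrank h4
    have h6 : ∀ i ∈ range p, KM.map m (δ' ^ i) (p • y) = p • KM.map m (δ' ^ i) y :=
      fun i _ => map_nsmul _ _ _
    rw [sum_congr rfl h6, ← smul_sum, h5]
  have hfin := hC m F T _ _ d _ _ hpair (p • y) hunr δ' (fun b => by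
      apply (algebraMap T E).injective
      rw [hδ']
      exact hδF b) (fun j => by
      apply (algebraMap T E).injective
      rw [hδ']
      exact hδV j) (by
      apply (algebraMap T E).injective
      rw [hδ', map_add, map_one]
      exact hδu') hsum'
  have h7 := congrArg (KM.map m (algebraMap T E)) hfin
  rw [map_nsmul, map_nsmul, map_zero, hy, smul_smul] at h7
  exact h7

end UnrA.Fer
end
end

section

section

/-!
# The Frobenius relation for good classes
-/

namespace UnrA.Fer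

open UnrG

universe u v w z

open Polynomial Finset
open scoped Classical

variable {m : UFun.{u, z}} {𝔽 : Type w} [Field 𝔽] [Fintype 𝔽] (b : Base 𝔽)

variable {F M : Type u} [Field F] [Field M] [Algebra F M] (ι : 𝔽 →+* F) {r n : ℕ}
  {t : Fin r → M} {x y : Fin n → M} {p f₀ : ℕ}

private lemma B3_fix {j : Fin n} {f : M →+* M}
    (h1 : ∀ a : F, f (algebraMap F M a) = algebraMap F M a) (h2 : ∀ i, f (t i) = t i)
    (h3 : ∀ i, i ≠ j → f (x i) = x i) (h4 : ∀ i, i ≠ j → f (y i) = y i) :
    f.comp (others F t x y j).subtype = (others F t x y j).subtype := by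
  have key : ∀ z ∈ others F t x y j, f z = z := by
    intro z hz
    unfold others at hz
    induction hz using Subfield.closure_induction with
    | mem z hz =>
      rcases hz with (⟨a, rfl⟩ | ⟨i, rfl⟩) | ⟨i, hi, rfl | rfl⟩
      · exact h1 a
      · exact h2 i
      · exact h3 i hi
      · exact h4 i hi
    | one => exact map_one f
    | add a b _ _ ha hb => rw [map_add, ha, hb]
    | neg a _ ha => rw [map_neg, ha]
    | inv a _ ha => rw [map_inv₀, ha]
    | mul a b _ _ ha hb => rw [map_mul, ha, hb]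
  ext z
  exact key z z.2

private lemma B3_fix' {j : Fin n} {f : M →+* M} (h : FixBut F t x y {j} f) :
    f.comp (others F t x y j).subtype = (others F t x y j).subtype :=
  B3_fix h.const h.ft (fun i hi => h.fx i (by simpa using hi)) (fun i hi => h.fy i (by simpa using hi))

private lemma B3_gamma {j : Fin n} {s : 𝔽} (hs : s ≠ 0) {f : M →+* M}
    (hf : IsASGamma b ι p f₀ t x y j s f) (bb : Fin n → ℕ) :
    (∀ i, f (x i ^ b.N) = x i ^ b.N) ∧
    f (∏ j, x j ^ bb j) = algebraMap F M (ι ((s ^ b.e) ^ bb j)) * ∏ j, x j ^ bb j ∧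
    f (∑ j, y j) = ∑ j, y j + algebraMap F M (ι (∑ i ∈ range f₀, s ^ p ^ i)) := by
  refine ⟨?_, ?_, ?_⟩
  · intro i
    rw [map_pow]
    by_cases hi : i = j
    · subst hi
      rw [hf.gx, mul_pow, ← pow_mul, mul_comm b.e b.N, ← map_pow, ← map_pow, b.pow_eq_one hs,
        map_one, map_one, one_mul]
    · rw [hf.fx i (by simpa using hi)]
  · rw [map_prod, ← Finset.mul_prod_erase univ _ (mem_univ j),
      ← Finset.mul_prod_erase univ (fun j => x j ^ bb j) (mem_univ j)]
    have h1 : ∏ i ∈ univ.erase j, f (x i ^ bb i) = ∏ i ∈ univ.erase j, (x i ^ bb i) := by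
      refine Finset.prod_congr rfl (fun i hi => ?_)
      have hij : i ∉ ({j} : Finset (Fin n)) := by
        simpa using (Finset.ne_of_mem_erase hi)
      rw [map_pow, hf.fx i hij]
    rw [h1, map_pow, hf.gx]
    simp only [map_pow]
    ring
  · rw [map_sum, ← Finset.add_sum_erase univ _ (mem_univ j),
      ← Finset.add_sum_erase univ (fun j => y j) (mem_univ j)]
    have h1 : ∑ i ∈ univ.erase j, f (y i) = ∑ i ∈ univ.erase j, y i := by
      refine Finset.sum_congr rfl (fun i hi => ?_)
      have hij : i ∉ ({j} : Finset (Fin n)) := by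
        simpa using (Finset.ne_of_mem_erase hi)
      rw [hf.fy i hij]
    rw [h1, hf.gy, map_sum, map_sum]
    simp only [map_pow]
    ring

/-- The one-variable Frobenius relation for good classes. -/
theorem ASGood.frob_step (hs : m.Specializes) [Fact p.Prime] [CharP 𝔽 p] [CharP F p]
    (hf : Fintype.card 𝔽 = p ^ f₀) (hP : ASProd (F := F) b p t x y) {bb : Fin n → ℕ}
    (hb : ∀ j, ¬ b.N ∣ bb j) {Z : KM m M} (h : ASGood b p F ι t x y bb Z) {a c : Fin n → ℕ}
    {τ : M →+* M} (hτ : IsASDiag b ι t x y a c τ) (l : Fin n → 𝔽 → ℕ)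
    (hl : ∀ (j : Fin n) (s : 𝔽), s ≠ 0 →
      (b.ζ ^ ∑ i, bb i * a i) ^ l j s = (s ^ b.e) ^ bb j ∧
      (((l j s * ∑ i, c i : ℕ)) : 𝔽) = ∑ i ∈ range f₀, s ^ p ^ i)
    (j : Fin n) (φ : M →+* M) (hφ : IsFrobAt b F t x y {j} φ) :
    asc b • KM.map m φ Z = -(asc b • Polynomial.aeval (actL m τ) (gauPoly 𝔽 (l j)) Z) := by
  obtain ⟨δ, hδ⟩ := ASProd.exists_diag b ι hP (Pi.single j 1) 0
  have hwt : ∑ i, bb i * (Pi.single j 1 : Fin n → ℕ) i = bb j := by
    rw [Finset.sum_eq_single j]
    · simp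
    · intro i _ hi
      simp [Pi.single_eq_of_ne hi]
    · intro h
      exact absurd (mem_univ j) h
  have hsum := h.newN _ δ hδ (by rw [hwt]; exact hb j)
  have hex : ∀ s : 𝔽, ∃ f : M →+* M, s ≠ 0 → IsASGamma b ι p f₀ t x y j s f := by
    intro s
    by_cases h0 : s ≠ 0
    · obtain ⟨f, hf⟩ := ASProd.exists_gamma b ι hP hf j s h0
      exact ⟨f, fun _ => hf⟩
    · exact ⟨RingHom.id M, fun h1 => absurd h1 h0⟩
  choose γ hγ using hex
  have hmem : ∀ a : 𝔽, (algebraMap F M).comp ι a ∈ others F t x y j := fun a =>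
    Subfield.subset_closure (Or.inl (Or.inl ⟨ι a, rfl⟩))
  let ι' : 𝔽 →+* others F t x y j := ((algebraMap F M).comp ι).codRestrict _ hmem
  have hι' : ∀ a : 𝔽, (others F t x y j).subtype (ι' a) = algebraMap F M (ι a) := fun a => rfl
  have h1 : asc b • (KM.map m φ Z +
      ∑ s ∈ univ.filter (fun s : 𝔽 => s ≠ 0), KM.map m (γ s) Z) = 0 := by
    refine as_frob_curve b hs hf ι' (others F t x y j).subtype (hP.isASCurve b j) h.unr δ ?_ ?_ ?_
      hsum φ (B3_fix' hφ.toFixBut) (hφ.gx j (by simp)) (hφ.gy j (by simp)) γ ?_ ?_ ?_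
    · refine B3_fix hδ.const hδ.ft (fun i hi => ?_) (fun i hi => ?_)
      · rw [hδ.fx, Pi.single_eq_of_ne hi, pow_zero, one_mul]
      · rw [hδ.fy, Pi.zero_apply, Nat.cast_zero, add_zero]
    · rw [hδ.fx, Pi.single_eq_same, pow_one, hι']
    · rw [hδ.fy, Pi.zero_apply, Nat.cast_zero, add_zero]
    · intro s h0
      exact B3_fix' (hγ s h0).toFixBut
    · intro s h0
      rw [(hγ s h0).gx, hι']
    · intro s h0
      rw [(hγ s h0).gy]
      simp only [hι']
  have h2 : ∀ s ∈ univ.filter (fun s : 𝔽 => s ≠ 0),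
      KM.map m (γ s) Z = (actL m τ ^ l j s) Z := by
    intro s hs'
    rw [Finset.mem_filter] at hs'
    have hg := hγ s hs'.2
    have ht := hτ.pow b ι (l j s)
    obtain ⟨hl1, hl2⟩ := hl j s hs'.2
    rw [actL_pow]
    obtain ⟨g1, g2, g3⟩ := B3_gamma b ι hs'.2 hg bb
    refine h.inv _ _ ?_ ?_ ?_ ?_ ?_
    · intro a
      rw [hg.const, ht.const]
    · intro i
      rw [hg.ft, ht.ft]
    · intro i
      rw [g1, B2_powN b ι ht]
    · rw [g2, B2_mono b ι ht]
      congr 1
      rw [← map_pow, ← map_pow]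
      congr 2
      rw [← hl1, ← pow_mul]
      congr 1
      rw [Finset.sum_mul]
      refine Finset.sum_congr rfl (fun i _ => ?_)
      simp only [Pi.smul_apply, smul_eq_mul]
      ring
    · rw [g3, B2_sum b ι ht]
      congr 1
      rw [← hl2, map_natCast, map_natCast]
      congr 1
      rw [Finset.mul_sum]
      rfl
  have h3 : Polynomial.aeval (actL m τ) (gauPoly 𝔽 (l j)) Z =
      ∑ s ∈ univ.filter (fun s : 𝔽 => s ≠ 0), KM.map m (γ s) Z := by
    unfold gauPoly
    rw [map_sum, LinearMap.sum_apply]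
    refine Finset.sum_congr rfl (fun s hs' => ?_)
    rw [h2 s hs', map_pow, aeval_X]
  rw [h3]
  rw [smul_add] at h1
  exact eq_neg_of_add_eq_zero_left h1

/-- The Frobenius in several coordinates for good classes. -/
theorem ASGood.frob_all (hs : m.Specializes) [Fact p.Prime] [CharP 𝔽 p] [CharP F p]
    (hf : Fintype.card 𝔽 = p ^ f₀) (hP : ASProd (F := F) b p t x y) {bb : Fin n → ℕ}
    (hb : ∀ j, ¬ b.N ∣ bb j) {Z : KM m M} (h : ASGood b p F ι t x y bb Z) {a c : Fin n → ℕ}
    {τ : M →+* M} (hτ : IsASDiag b ι t x y a c τ) (l : Fin n → 𝔽 → ℕ)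
    (hl : ∀ (j : Fin n) (s : 𝔽), s ≠ 0 →
      (b.ζ ^ ∑ i, bb i * a i) ^ l j s = (s ^ b.e) ^ bb j ∧
      (((l j s * ∑ i, c i : ℕ)) : 𝔽) = ∑ i ∈ range f₀, s ^ p ^ i)
    (J : Finset (Fin n)) (φ : M →+* M) (hφ : IsFrobAt b F t x y J φ) :
    asc b ^ J.card • KM.map m φ Z = asc b ^ J.card •
      Polynomial.aeval (actL m τ) ((-1) ^ J.card * ∏ j ∈ J, gauPoly 𝔽 (l j)) Z := by
  induction J using Finset.induction_on generalizing φ Z with
  | empty =>
    have hid : φ = RingHom.id M := by
      refine ASProd.ext b hP ?_ ?_ ?_ ?_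
      · intro a
        exact hφ.const a
      · intro i
        exact hφ.ft i
      · intro i
        exact hφ.fx i (by simp)
      · intro i
        exact hφ.fy i (by simp)
    rw [hid, KM.map_id]
    simp
  | insert j J hj ih =>
    obtain ⟨φ1, h1⟩ := ASProd.exists_frobAt b hP ι {j}
    obtain ⟨φ2, h2⟩ := ASProd.exists_frobAt b hP ι J
    have hcomp : φ = φ2.comp φ1 := by
      refine ASProd.ext b hP ?_ ?_ ?_ ?_
      · intro a
        rw [RingHom.comp_apply, hφ.const, h1.const, h2.const]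
      · intro i
        rw [RingHom.comp_apply, hφ.ft, h1.ft, h2.ft]
      · intro i
        rw [RingHom.comp_apply]
        by_cases hij : i = j
        · subst hij
          rw [hφ.gx i (Finset.mem_insert_self _ _), h1.gx i (Finset.mem_singleton_self _),
            map_pow, h2.fx i hj]
        · rw [h1.fx i (by simpa using hij)]
          by_cases hiJ : i ∈ J
          · rw [h2.gx i hiJ, hφ.gx i (Finset.mem_insert_of_mem hiJ)]
          · rw [h2.fx i hiJ, hφ.fx i (by simp [hij, hiJ])]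
      · intro i
        rw [RingHom.comp_apply]
        by_cases hij : i = j
        · subst hij
          rw [hφ.gy i (Finset.mem_insert_self _ _), h1.gy i (Finset.mem_singleton_self _),
            map_pow, h2.fy i hj]
        · rw [h1.fy i (by simpa using hij)]
          by_cases hiJ : i ∈ J
          · rw [h2.gy i hiJ, hφ.gy i (Finset.mem_insert_of_mem hiJ)]
          · rw [h2.fy i hiJ, hφ.fy i (by simp [hij, hiJ])]
    have h3 := ASGood.frob_step b ι hs hf hP hb h hτ l hl j φ1 h1
    have h4 := ih (h.aeval b ι hP hτ (gauPoly 𝔽 (l j))) φ2 h2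
    rw [hcomp, ← KM.map_map, Finset.card_insert_of_notMem hj, Finset.prod_insert hj, pow_succ,
      mul_smul, ← map_nsmul, h3, map_neg, map_nsmul, smul_neg, smul_comm, h4, ← smul_neg,
      mul_comm (asc b ^ J.card), mul_smul]
    congr 2
    rw [← Module.End.mul_apply, ← map_mul, ← smul_neg, ← LinearMap.neg_apply, ← map_neg]
    have e : -((-1) ^ J.card * (∏ j ∈ J, gauPoly 𝔽 (l j)) * gauPoly 𝔽 (l j)) =
        (-1) ^ (J.card + 1) * (gauPoly 𝔽 (l j) * ∏ j ∈ J, gauPoly 𝔽 (l j)) := by ring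
    rw [e]

end UnrA.Fer
end

section

/-!
# Good classes are killed by the integers in an ideal of polynomials
-/

namespace UnrA.Fer

open UnrG

universe u v w z

open Polynomial Finset
open scoped Classical

variable {m : UFun.{u, z}} {𝔽 : Type w} [Field 𝔽] [Fintype 𝔽] (b : Base 𝔽)

variable {F M : Type u} [Field F] [Field M] [Algebra F M] (ι : 𝔽 →+* F) {r n : ℕ}
  {t : Fin r → M} {x y : Fin n → M} {p f₀ : ℕ}

theorem ASGood.annihilate (hs : m.Specializes) [Fact p.Prime] [CharP 𝔽 p] [CharP F p] {wd : ℕ}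
    (hf : Fintype.card 𝔽 = p ^ f₀) (hP : ASProd (F := F) b p t x y) {bb : Fin n → ℕ}
    (hb : ∀ j, ¬ b.N ∣ bb j) {Z : KM m M} (h : ASGood b p F ι t x y bb Z) (φ : M →+* M)
    (hφ : IsFrobAt b F t x y univ φ) (hfrob : ((b.q : ℤ) ^ wd) • Z = KM.map m φ Z)
    {a c : Fin n → ℕ} {τ : M →+* M} (hτ : IsASDiag b ι t x y a c τ)
    (ha : ¬ b.N ∣ p * ∑ i, bb i * a i) (hc : ¬ p ∣ b.N * ∑ i, c i) (l : Fin n → 𝔽 → ℕ)
    (hl : ∀ (j : Fin n) (s : 𝔽), s ≠ 0 →
      (b.ζ ^ ∑ i, bb i * a i) ^ l j s = (s ^ b.e) ^ bb j ∧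
      (((l j s * ∑ i, c i : ℕ)) : 𝔽) = ∑ i ∈ range f₀, s ^ p ^ i) (D : ℤ)
    (hD : C D ∈ Ideal.span ({X ^ (b.N * p) - 1,
        C ((b.q : ℤ) ^ wd) - (-1) ^ n * ∏ j, gauPoly 𝔽 (l j),
        ∑ i ∈ range b.N, X ^ (i * p), ∑ i ∈ range p, X ^ (i * b.N)} : Set ℤ[X])) :
    ((asc b : ℤ) ^ n * D) • Z = 0 := by
  have hM : CharP M p := charP_of_injective_algebraMap (algebraMap F M).injective p
  have hz : algebraMap F M (ι b.ζ) ^ b.N = 1 := by
    rw [← map_pow, ← map_pow, b.hζ.pow_eq_one, map_one, map_one]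
  have hlin : ∀ (P : ℤ[X]) (k : ℤ) (W : KM m M),
      Polynomial.aeval (actL m τ) P (k • W) = k • Polynomial.aeval (actL m τ) P W := by
    intro P k W
    exact LinearMap.map_smul _ k W
  have key : ∀ P ∈ Ideal.span ({X ^ (b.N * p) - 1,
        C ((b.q : ℤ) ^ wd) - (-1) ^ n * ∏ j, gauPoly 𝔽 (l j),
        ∑ i ∈ range b.N, X ^ (i * p), ∑ i ∈ range p, X ^ (i * b.N)} : Set ℤ[X]),
      Polynomial.aeval (actL m τ) P (((asc b : ℤ) ^ n) • Z) = 0 := by
    intro P hP'
    refine Submodule.span_induction (p := fun P _ =>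
      Polynomial.aeval (actL m τ) P (((asc b : ℤ) ^ n) • Z) = 0) ?_ ?_ ?_ ?_ hP'
    · intro P hP2
      rcases hP2 with hP2 | hP2 | hP2 | hP2
      · rw [hP2, hlin]
        have h1 : Polynomial.aeval (actL m τ) (X ^ (b.N * p) - 1 : ℤ[X]) Z = 0 := by
          rw [map_sub, map_pow, aeval_X, map_one, LinearMap.sub_apply, Module.End.one_apply,
            actL_pow, sub_eq_zero]
          have ht := hτ.pow b ι (b.N * p)
          have h3 : τ ^ (b.N * p) = RingHom.id M := by
            refine hP.ext b (fun a => ?_) (fun k => ?_) (fun k => ?_) (fun k => ?_)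
            · rw [ht.const, RingHom.id_apply]
            · rw [ht.ft, RingHom.id_apply]
            · rw [ht.fx, RingHom.id_apply]
              have h4 : algebraMap F M (ι b.ζ) ^ ((b.N * p) • a) k = 1 := by
                rw [Pi.smul_apply, smul_eq_mul, mul_assoc, pow_mul, hz, one_pow]
              rw [h4, one_mul]
            · rw [ht.fy, RingHom.id_apply]
              have h4 : ((((b.N * p) • c) k : ℕ) : M) = 0 := by
                rw [Pi.smul_apply, smul_eq_mul, Nat.cast_mul, Nat.cast_mul, CharP.cast_eq_zero M p,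
                  mul_zero, zero_mul]
              rw [h4, add_zero]
          rw [h3, KM.map_id]
          rfl
        rw [h1, smul_zero]
      · rw [hP2, map_sub, LinearMap.sub_apply, sub_eq_zero, hlin, hlin]
        have h4 := ASGood.frob_all b ι hs hf hP hb h hτ l hl univ φ hφ
        rw [Finset.card_univ, Fintype.card_fin] at h4
        have h5 : Polynomial.aeval (actL m τ) (C ((b.q : ℤ) ^ wd)) Z = ((b.q : ℤ) ^ wd) • Z := by
          rw [aeval_C, Module.algebraMap_end_apply]
        have h6 : ((asc b : ℤ) ^ n) • KM.map m φ Z = ((asc b : ℤ) ^ n) •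
            Polynomial.aeval (actL m τ) ((-1) ^ n * ∏ j, gauPoly 𝔽 (l j)) Z := by
          have h7 : ((asc b : ℤ) ^ n) = ((asc b ^ n : ℕ) : ℤ) := by push_cast; rfl
          rw [h7, natCast_zsmul, natCast_zsmul]
          exact h4
        rw [h5, hfrob, h6]
      · rw [hP2, hlin]
        have h1 : Polynomial.aeval (actL m τ) (∑ i ∈ range b.N, X ^ (i * p) : ℤ[X]) Z = 0 := by
          rw [map_sum, LinearMap.sum_apply]
          have ht := hτ.pow b ι p
          have ht' : IsASDiag b ι t x y (p • a) 0 (τ ^ p) := by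
            refine ⟨ht.const, ht.ft, ht.fx, fun i => ?_⟩
            rw [ht.fy, Pi.smul_apply, smul_eq_mul, Nat.cast_mul, CharP.cast_eq_zero M p, zero_mul,
              Pi.zero_apply, Nat.cast_zero]
          have hne : ¬ b.N ∣ ∑ j, bb j * (p • a) j := by
            have e : ∑ j, bb j * (p • a) j = p * ∑ i, bb i * a i := by
              rw [Finset.mul_sum]
              refine Finset.sum_congr rfl fun i _ => ?_
              rw [Pi.smul_apply, smul_eq_mul]
              ring
            rw [e]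
            exact ha
          have h8 := h.newN _ _ ht' hne
          rw [← h8]
          refine Finset.sum_congr rfl (fun i _ => ?_)
          rw [map_pow, aeval_X, actL_pow, ← pow_mul, mul_comm p i]
        rw [h1, smul_zero]
      · rw [Set.mem_singleton_iff] at hP2
        rw [hP2, hlin]
        have h1 : Polynomial.aeval (actL m τ) (∑ i ∈ range p, X ^ (i * b.N) : ℤ[X]) Z = 0 := by
          rw [map_sum, LinearMap.sum_apply]
          have ht := hτ.pow b ι b.N
          have ht' : IsASDiag b ι t x y 0 (b.N • c) (τ ^ b.N) := by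
            refine ⟨ht.const, ht.ft, fun i => ?_, ht.fy⟩
            have h4 : algebraMap F M (ι b.ζ) ^ (b.N • a) i = 1 := by
              rw [Pi.smul_apply, smul_eq_mul, pow_mul, hz, one_pow]
            rw [ht.fx, h4, Pi.zero_apply, pow_zero]
          have hne : ¬ p ∣ ∑ j, (b.N • c) j := by
            have e : ∑ j, (b.N • c) j = b.N * ∑ i, c i := by
              rw [Finset.mul_sum]
              rfl
            rw [e]
            exact hc
          have h8 := h.newp _ _ ht' hne
          rw [← h8]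
          refine Finset.sum_congr rfl (fun i _ => ?_)
          rw [map_pow, aeval_X, actL_pow, ← pow_mul, mul_comm b.N i]
        rw [h1, smul_zero]
    · rw [map_zero, LinearMap.zero_apply]
    · intro P Q _ _ h1 h2
      rw [map_add, LinearMap.add_apply, h1, h2, add_zero]
    · intro P Q _ h1
      rw [smul_eq_mul, map_mul, Module.End.mul_apply, h1, map_zero]
  have h9 := key _ hD
  rw [aeval_C, Module.algebraMap_end_apply, smul_smul, mul_comm] at h9
  exact h9

end UnrA.Fer
end

section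

/-!
# New classes of the cover
-/

namespace UnrA.Fer

open UnrG

universe u v w z

open Polynomial Finset
open scoped Classical

variable {𝔽 : Type w} [Field 𝔽] [Fintype 𝔽] (b : Base 𝔽)

private lemma B7_comp_pow {E M : Type u} [Field E] [Field M] {i : E →+* M} {g : E →+* E}
    {f : M →+* M} (h : i.comp g = f.comp i) (k : ℕ) : i.comp (g ^ k) = (f ^ k).comp i := by
  induction k with
  | zero => rfl
  | succ k ih =>
    have e1 : g ^ (k + 1) = (g ^ k).comp g := pow_succ g k
    have e2 : f ^ (k + 1) = (f ^ k).comp f := pow_succ f k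
    rw [e1, e2, ← RingHom.comp_assoc, ih, RingHom.comp_assoc, h, RingHom.comp_assoc]

private lemma B7_sum {m : UFun.{u, z}} {E M : Type u} [Field E] [Field M] {i : E →+* M}
    {g : E →+* E} {f : M →+* M} (h : i.comp g = f.comp i) (z : KM m E) (N : ℕ)
    (hz : ∑ k ∈ range N, KM.map m (g ^ k) z = 0) :
    ∑ k ∈ range N, KM.map m (f ^ k) (KM.map m i z) = 0 := by
  have h1 : ∀ k ∈ range N, KM.map m (f ^ k) (KM.map m i z) =
      KM.map m i (KM.map m (g ^ k) z) := by
    intro k _
    rw [KM.map_map, KM.map_map, B7_comp_pow h k]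
  rw [Finset.sum_congr rfl h1, ← map_sum, hz, map_zero]

/-- New classes of the cover over a finite field. -/
theorem ASCov.new_kills {p : ℕ} [Fact p.Prime] [CharP 𝔽 p] (hN : b.N.Prime)
    {n wd : ℕ} (hn : 0 < n) (c : Fin n → ZMod b.N) (hc : ∀ j, c j ≠ 0)
    (hG : n = 2 * wd → ∀ (χ : MulChar 𝔽 ℂ) (ψ : AddChar 𝔽 ℂ), orderOf χ = b.N →
      ψ.IsPrimitive → (-1) ^ n * ∏ j, gaussSum (χ ^ (c j).val) ψ ≠ (b.q : ℂ) ^ wd) :
    ∃ C : ℕ, 0 < C ∧ ∀ (m : UFun.{u, z}) (_ : m.Specializes) (_ : m.HasWeight 𝔽 b.q wd)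
      (F E : Type u) [Field F] [Field E] [Algebra F E] (ι : 𝔽 →+* F)
      (_ : ∀ a : F, a ^ b.q = a) (X : Fin n → E) (v u : E)
      (_ : ASCov p b.N (F := F) X v u c) (z : KM m E) (_ : Unr z)
      (_ : ∀ (g : E →+* E) (k : ℕ), (∀ a : F, g (algebraMap F E a) = algebraMap F E a) →
        (∀ j, g (X j) = X j) → g v = algebraMap F E (ι b.ζ) ^ k * v → g u = u → ¬ b.N ∣ k →
        ∑ i ∈ range b.N, KM.map m (g ^ i) z = 0)
      (_ : ∀ (g : E →+* E) (k : ℕ), (∀ a : F, g (algebraMap F E a) = algebraMap F E a) →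
        (∀ j, g (X j) = X j) → g v = v → g u = u + (k : E) → ¬ p ∣ k →
        ∑ i ∈ range p, KM.map m (g ^ i) z = 0), C • z = 0 := by
  have hp : p.Prime := Fact.out
  obtain ⟨f₀', _, hf'⟩ := FiniteField.card 𝔽 p
  obtain ⟨f₀, hf⟩ : ∃ f₀ : ℕ, Fintype.card 𝔽 = p ^ f₀ := ⟨f₀', hf'⟩
  have hb : ∀ j, ¬ b.N ∣ (c j).val := by
    intro j h
    apply hc j
    have hN0 : NeZero b.N := ⟨b.N_pos.ne'⟩
    have h9 := (ZMod.natCast_eq_zero_iff (c j).val b.N).2 h
    rwa [ZMod.natCast_zmod_val] at h9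
  have hNp : ¬ b.N ∣ p := by
    intro h
    have h1 : b.N = p := (Nat.prime_dvd_prime_iff_eq hN hp).mp h
    apply b.N_ne (RingHom.id 𝔽)
    rw [h1]
    exact CharP.cast_eq_zero 𝔽 p
  have hpN : ¬ p ∣ b.N := fun h => hNp (dvd_of_eq ((Nat.prime_dvd_prime_iff_eq hp hN).mp h).symm)
  obtain ⟨a, c', l, ha, hc', hl⟩ := Base.exists_as_exponents b hN hf hn (fun j => (c j).val) hb
  obtain ⟨D, hD0, hD⟩ := Base.exists_as_bezout b hN hf (fun j => (c j).val) hb hG l hl
  have hasc : 0 < asc b := Nat.mul_pos b.N_pos (pow_pos (Nat.factorial_pos _) 2)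
  refine ⟨((b.N * p) ^ n).factorial * (asc b ^ n * D.natAbs), Nat.mul_pos (Nat.factorial_pos _)
    (Nat.mul_pos (pow_pos hasc n) (Int.natAbs_pos.mpr hD0)), ?_⟩
  intro m hs hw F E _ _ _ ι hfr X v u h z hz hnN hnp
  have hFp : CharP F p := charP_of_injective_ringHom ι.injective p
  obtain ⟨M, _, _, x, y, i, hP, hi, hX, hv, hu, hkill⟩ := h.exists_embedding b hN ι hn hc
  have hMp : CharP M p := charP_of_injective_ringHom (algebraMap F M).injective p
  have hgood : ASGood b p F ι (Fin.elim0 : Fin 0 → M) x y (fun j => (c j).val)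
      (KM.map m i z) := by
    refine ⟨Unr.map i hz, ?_, ?_, ?_⟩
    · intro f g h1 _ h2 h3 h4
      have h5 : f.comp i = g.comp i := by
        have hle : (⊤ : IntermediateField F E) ≤
            (RingHom.eqLocusField (f.comp i) (g.comp i)).toIntermediateField (by
              intro a
              change f (i (algebraMap F E a)) = g (i (algebraMap F E a))
              rw [hi, h1]) := by
          rw [← h.gen, IntermediateField.adjoin_le_iff]
          rintro _ (⟨j, rfl⟩ | h6 | h6)
          · change f (i (X j)) = g (i (X j))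
            rw [hX, h2]
          · rw [h6]
            change f (i v) = g (i v)
            rw [hv, h3]
          · rw [h6]
            change f (i u) = g (i u)
            rw [hu, h4]
        ext w
        exact hle (IntermediateField.mem_top (x := w))
      rw [KM.map_map, KM.map_map, h5]
    · intro a f hf1 hna
      obtain ⟨g, hg1, hg2, hg3, hg4, hg5⟩ := h.exists_restrict b ι hi hX hv hu hf1
      refine B7_sum hg1 z b.N (hnN g _ hg2 hg3 hg4 ?_ hna)
      rw [hg5]
      simp
    · intro d f hf1 hnd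
      obtain ⟨g, hg1, hg2, hg3, hg4, hg5⟩ := h.exists_restrict b ι hi hX hv hu hf1
      refine B7_sum hg1 z p (hnp g _ hg2 hg3 ?_ hg5 hnd)
      rw [hg4]
      simp
  obtain ⟨τ, hτ⟩ := hP.exists_diag b ι a c'
  obtain ⟨φ, hφ⟩ := hP.exists_frobAt b ι univ
  have hqp : b.q = p ^ f₀ := by rw [← b.card_q, hf]
  have hφe : φ = iterateFrobenius M p f₀ := by
    refine hP.ext b ?_ (fun j => j.elim0) ?_ ?_
    · intro a
      rw [hφ.const, iterateFrobenius_def, ← map_pow, ← hqp, hfr]
    · intro j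
      rw [hφ.gx j (mem_univ j), iterateFrobenius_def, hqp]
    · intro j
      rw [hφ.gy j (mem_univ j), iterateFrobenius_def, hqp]
  have hfrob : ((b.q : ℤ) ^ wd) • KM.map m i z = KM.map m φ (KM.map m i z) := by
    have h1 := hw M ((algebraMap F M).comp ι) φ (fun w => by
      rw [hφe, iterateFrobenius_def, hqp]) (KM.map m i z)
    have h2 : KM.map m φ (KM.map m i z) = b.q ^ wd • KM.map m i z := h1
    rw [h2, ← Nat.cast_pow, natCast_zsmul]
  have hWN : ¬ b.N ∣ ∑ j, (c j).val * a j := by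
    intro h1
    have h2 : b.ζ ^ ∑ j, (c j).val * a j = 1 := (b.hζ.pow_eq_one_iff_dvd _).mpr h1
    rw [ha] at h2
    exact b.hζ.ne_one hN.one_lt h2
  have key := hgood.annihilate b ι hs hf hP hb φ hφ hfrob hτ
    (fun h1 => (hN.dvd_mul.mp h1).elim hNp hWN)
    (by rw [hc', mul_one]; exact hpN) l
    (fun j s hs0 => by
      have h1 := hl j s hs0
      refine ⟨by rw [ha]; exact h1.1, ?_⟩
      rw [hc', mul_one]
      exact h1.2) D hD
  have key2 : KM.map m i ((asc b ^ n * D.natAbs) • z) = 0 := by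
    rw [map_nsmul]
    have h1 : ((asc b : ℤ) ^ n * (D.natAbs : ℤ)) • KM.map m i z = 0 := by
      rcases Int.natAbs_eq D with h2 | h2
      · rw [← h2]
        exact key
      · have h3 : ((D.natAbs : ℕ) : ℤ) = -D := by omega
        rw [h3, mul_neg, neg_smul, key, neg_zero]
    have h4 : ((asc b ^ n * D.natAbs : ℕ) : ℤ) = (asc b : ℤ) ^ n * (D.natAbs : ℤ) := by
      push_cast
      ring
    rw [← h4, natCast_zsmul] at h1
    exact h1
  have key3 := hkill m _ key2
  rw [mul_smul]
  exact key3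

end UnrA.Fer
end

section

/-!
# The induction step for pairs
-/

namespace UnrA.Fer

open UnrG

universe u v w z

open Polynomial Finset
open scoped Classical

variable {m : UFun.{u, z}}

/-- Adjoining a root to a finite subextension. -/
private lemma T5_adj {F Ω : Type u} [Field F] [Field Ω] [Algebra F Ω] {d : ℕ}
    (L : IntermediateField F Ω) (h : FiniteDimensional F L) (hd : Module.finrank F L ≤ d)
    {n : ℕ} {a : Ω} (P : L[X]) (hP : P ≠ 0) (hn : P.natDegree ≤ n) (ha : aeval a P = 0) :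
    ∃ L' : IntermediateField F Ω, L ≤ L' ∧ a ∈ L' ∧ FiniteDimensional F L' ∧
      Module.finrank F L' ≤ d * n := by
  have hint : IsIntegral L a := isAlgebraic_iff_isIntegral.1 ⟨P, hP, ha⟩
  have hfd : FiniteDimensional L (IntermediateField.adjoin L {a}) :=
    IntermediateField.adjoin.finiteDimensional hint
  have hfd' : FiniteDimensional F (IntermediateField.adjoin L {a}) :=
    FiniteDimensional.trans F L _
  refine ⟨(IntermediateField.adjoin L {a}).restrictScalars F, fun x hx => ?_, ?_, hfd', ?_⟩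
  · exact (IntermediateField.adjoin L {a}).algebraMap_mem (⟨x, hx⟩ : L)
  · exact IntermediateField.mem_adjoin_simple_self L a
  · have h1 : Module.finrank F (IntermediateField.adjoin L {a}) =
        Module.finrank F L * Module.finrank L (IntermediateField.adjoin L {a}) :=
      (Module.finrank_mul_finrank F L _).symm
    have h2 := natDegree_le_of_dvd (minpoly.dvd L a ha) hP
    rw [← IntermediateField.adjoin.finrank hint] at h2
    calc _ = _ := h1
      _ ≤ _ := Nat.mul_le_mul hd (h2.trans hn)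

/-- The constants of the induction step. -/
private lemma T5_ext {p : ℕ} [Fact p.Prime] {F : Type u} [Field F] [CharP F p] {h : ℕ}
    (hh : 0 < h) (h2 : p = 2 → 1 < h) (r : ℕ → F) (hr : r h ≠ 0) (l : F) :
    ∃ (F' : Type u) (_ : Field F') (_ : Algebra F F') (_ : FiniteDimensional F F')
      (a a' c c' : F'), Module.finrank F F' ≤ p ^ (4 * h + 2) ∧ a ≠ 0 ∧
      adB p h (fun i => algebraMap F F' (r i)) a h = 0 ∧
      adB p h (fun i => algebraMap F F' (r i)) a' h = 0 ∧
      adS p h (fun i => algebraMap F F' (r i)) a a' ≠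
        adS p h (fun i => algebraMap F F' (r i)) a' a ∧
      (p = 2 → adS p h (fun i => algebraMap F F' (r i)) a a = 0) ∧
      c ^ p - c = a * adR p h (fun i => algebraMap F F' (r i)) a + algebraMap F F' l * a ∧
      c' ^ p - c' = a' * adR p h (fun i => algebraMap F F' (r i)) a' + algebraMap F F' l * a' := by
  have hp : p.Prime := Fact.out
  have : CharP (AlgebraicClosure F) p :=
    charP_of_injective_algebraMap (algebraMap F (AlgebraicClosure F)).injective p
  obtain ⟨a, a', ha, hB, hB', hne, h3⟩ := ad_exists (p := p) hh h2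
    (fun i => algebraMap F (AlgebraicClosure F) (r i))
    (by rwa [Ne, map_eq_zero_iff _ (algebraMap F (AlgebraicClosure F)).injective])
  obtain ⟨P, hPd, hPl, -, -, hP⟩ := adB_poly (p := p) hh r hr h
  have hroot : ∀ b : AlgebraicClosure F, ∃ c, c ^ p - c = b := by
    intro b
    have hd : (X ^ p - X - C b : (AlgebraicClosure F)[X]).natDegree = p := by
      rw [natDegree_sub_C, natDegree_sub_eq_left_of_natDegree_lt, natDegree_X_pow]
      rw [natDegree_X_pow, natDegree_X]
      exact hp.one_lt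
    obtain ⟨c, hc⟩ := IsAlgClosed.exists_root (X ^ p - X - C b : (AlgebraicClosure F)[X]) (by
      rw [degree_eq_natDegree (by rintro h0; rw [h0, natDegree_zero] at hd; exact hp.ne_zero hd.symm),
        hd]
      exact_mod_cast hp.ne_zero)
    refine ⟨c, ?_⟩
    rw [IsRoot.def, eval_sub, eval_sub, eval_pow, eval_X, eval_C] at hc
    exact sub_eq_zero.1 hc
  obtain ⟨c, hc⟩ := hroot (a * adR p h (fun i => algebraMap F (AlgebraicClosure F) (r i)) a +
    algebraMap F (AlgebraicClosure F) l * a)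
  obtain ⟨c', hc'⟩ := hroot (a' * adR p h (fun i => algebraMap F (AlgebraicClosure F) (r i)) a' +
    algebraMap F (AlgebraicClosure F) l * a')
  have hP0 : P ≠ 0 := by
    rintro rfl
    rw [leadingCoeff_zero] at hPl
    exact neg_ne_zero.2 (pow_ne_zero _ hr) hPl.symm
  have hA : ∀ (L : IntermediateField F (AlgebraicClosure F)) (a : AlgebraicClosure F),
      adB p h (fun i => algebraMap F (AlgebraicClosure F) (r i)) a h = 0 →
      aeval a (P.map (algebraMap F L)) = 0 := by
    intro L a h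
    rw [aeval_map_algebraMap, hP, h]
  have hR : ∀ (L : IntermediateField F (AlgebraicClosure F)) (a : AlgebraicClosure F), a ∈ L →
      a * adR p h (fun i => algebraMap F (AlgebraicClosure F) (r i)) a +
        algebraMap F (AlgebraicClosure F) l * a ∈ L := by
    intro L a ha
    refine add_mem (mul_mem ha (sum_mem fun i _ => ?_)) (mul_mem (L.algebraMap_mem _) ha)
    exact mul_mem (L.algebraMap_mem _) (pow_mem ha _)
  have hQ : ∀ (L : IntermediateField F (AlgebraicClosure F)) (c b : AlgebraicClosure F)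
      (hb : b ∈ L), c ^ p - c = b → (X ^ p - X - C (⟨b, hb⟩ : L) : L[X]) ≠ 0 ∧
      (X ^ p - X - C (⟨b, hb⟩ : L) : L[X]).natDegree ≤ p ∧
      aeval c (X ^ p - X - C (⟨b, hb⟩ : L) : L[X]) = 0 := by
    intro L c b hb h
    have hd : (X ^ p - X - C (⟨b, hb⟩ : L) : L[X]).natDegree = p := by
      rw [natDegree_sub_C, natDegree_sub_eq_left_of_natDegree_lt, natDegree_X_pow]
      rw [natDegree_X_pow, natDegree_X]
      exact hp.one_lt
    refine ⟨?_, hd.le, ?_⟩
    · intro h0
      rw [h0, natDegree_zero] at hd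
      exact hp.ne_zero hd.symm
    · rw [map_sub, map_sub, map_pow, aeval_X, aeval_C, h]
      exact sub_self _
  have hPm : ∀ L : IntermediateField F (AlgebraicClosure F), P.map (algebraMap F L) ≠ 0 :=
    fun L => (Polynomial.map_ne_zero_iff (algebraMap F L).injective).2 hP0
  have hPn : ∀ L : IntermediateField F (AlgebraicClosure F),
      (P.map (algebraMap F L)).natDegree ≤ p ^ (h + h) := fun L => by
    rw [natDegree_map, hPd]
  obtain ⟨L₀, -, hm₀, hf₀, hd₀⟩ := T5_adj (d := 1) (⊥ : IntermediateField F (AlgebraicClosure F))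
    inferInstance (by rw [IntermediateField.finrank_bot]) _ (hPm _) (hPn _) (hA _ _ hB)
  obtain ⟨L₁, hl₁, hm₁, hf₁, hd₁⟩ := T5_adj L₀ hf₀ hd₀ _ (hPm _) (hPn _) (hA _ _ hB')
  obtain ⟨q1, q2, q3⟩ := hQ L₁ c _ (hR L₁ a (hl₁ hm₀)) hc
  obtain ⟨L₂, hl₂, hm₂, hf₂, hd₂⟩ := T5_adj L₁ hf₁ hd₁ _ q1 q2 q3
  obtain ⟨q4, q5, q6⟩ := hQ L₂ c' _ (hR L₂ a' (hl₂ hm₁)) hc'
  obtain ⟨L₃, hl₃, hm₃, hf₃, hd₃⟩ := T5_adj L₂ hf₂ hd₂ _ q4 q5 q6
  have hinj := (algebraMap L₃ (AlgebraicClosure F)).injective
  have hr' : (fun i => algebraMap L₃ (AlgebraicClosure F) (algebraMap F L₃ (r i))) =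
      fun i => algebraMap F (AlgebraicClosure F) (r i) := rfl
  refine ⟨L₃, inferInstance, inferInstance, hf₃, ⟨a, hl₃ (hl₂ (hl₁ hm₀))⟩, ⟨a', hl₃ (hl₂ hm₁)⟩,
    ⟨c, hl₃ hm₂⟩, ⟨c', hm₃⟩, ?_, ?_, ?_, ?_, ?_, ?_, ?_, ?_⟩
  · refine hd₃.trans (le_of_eq ?_)
    ring
  · intro h0
    exact ha (congrArg Subtype.val h0)
  · apply hinj
    rw [map_adB, hr', map_zero]
    exact hB
  · apply hinj
    rw [map_adB, hr', map_zero]
    exact hB'
  · intro h0
    apply hne
    have h1 := congrArg (algebraMap L₃ (AlgebraicClosure F)) h0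
    rw [map_adS, map_adS, hr'] at h1
    exact h1
  · intro h0
    apply hinj
    rw [map_adS, hr', map_zero]
    exact h3 h0
  · apply hinj
    rw [map_sub, map_pow, map_add, map_mul, map_mul, map_adR, hr']
    exact hc
  · apply hinj
    rw [map_sub, map_pow, map_add, map_mul, map_mul, map_adR, hr']
    exact hc'

/-- Translations of independent elements are independent. -/
private lemma T5_indep {F K : Type u} [Field F] [Field K] [Algebra F K] {x x' : Fin 2 → K}
    (hx : AlgebraicIndependent F x) (y : Fin 2 → F)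
    (hx' : ∀ j, x' j = x j + algebraMap F K (y j)) : AlgebraicIndependent F x' := by
  have h1 : MvPolynomial.aeval x' = (MvPolynomial.aeval x : MvPolynomial (Fin 2) F →ₐ[F] K).comp
      (MvPolynomial.aeval fun j => MvPolynomial.X j + MvPolynomial.C (y j)) := by
    refine MvPolynomial.algHom_ext fun j => ?_
    rw [AlgHom.comp_apply, MvPolynomial.aeval_X, MvPolynomial.aeval_X, map_add,
      MvPolynomial.aeval_X, hx', ← MvPolynomial.algebraMap_eq, AlgHom.commutes]
  have h2 : (MvPolynomial.aeval fun j : Fin 2 => MvPolynomial.X j - MvPolynomial.C (y j)).comp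
      (MvPolynomial.aeval fun j : Fin 2 => (MvPolynomial.X j + MvPolynomial.C (y j) :
        MvPolynomial (Fin 2) F)) = AlgHom.id F _ := by
    refine MvPolynomial.algHom_ext fun j => ?_
    rw [AlgHom.comp_apply, MvPolynomial.aeval_X, map_add, MvPolynomial.aeval_X,
      ← MvPolynomial.algebraMap_eq, AlgHom.commutes, sub_add_cancel, AlgHom.id_apply]
  rw [algebraicIndependent_iff_injective_aeval, h1, AlgHom.coe_comp]
  refine Function.Injective.comp (algebraicIndependent_iff_injective_aeval.1 hx)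
    (Function.LeftInverse.injective (g := MvPolynomial.aeval fun j : Fin 2 =>
    (MvPolynomial.X j - MvPolynomial.C (y j) : MvPolynomial (Fin 2) F)) fun z => ?_)
  exact AlgHom.congr_fun h2 z

/-- Translations. -/
private lemma T5_hom {p : ℕ} [Fact p.Prime] {h : Fin 2 → ℕ} {F E : Type u} [Field F] [Field E]
    [CharP F p] [Algebra F E] {r : Fin 2 → ℕ → F} {l : Fin 2 → F} {d : F} {x : Fin 2 → E} {u : E}
    (hE : IsAddPair p h r l d x u) {a c : F} (hB : adB p (h 0) (r 0) a (h 0) = 0)
    (hc : c ^ p - c = a * adR p (h 0) (r 0) a + l 0 * a) :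
    ∃ g : E →+* E, (∀ a : F, g (algebraMap F E a) = algebraMap F E a) ∧
      g (x 0) = x 0 + algebraMap F E a ∧ g (x 1) = x 1 ∧
      g u = u + adS p (h 0) (fun i => algebraMap F E (r 0 i)) (algebraMap F E a) (x 0) +
        algebraMap F E c := by
  have : CharP E p := charP_of_injective_algebraMap (algebraMap F E).injective p
  have hB' : adB p (h 0) (fun i => algebraMap F E (r 0 i)) (algebraMap F E a) (h 0) = 0 := by
    rw [← map_adB, hB, map_zero]
  have h1 := adS_pow_sub (fun i => algebraMap F E (r 0 i)) hB' (x 0)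
  have h2 := congrArg (algebraMap F E) hc
  rw [map_sub, map_pow, map_add, map_mul, map_mul, map_adR] at h2
  obtain ⟨g, hg1, hg2, hg3⟩ := hE.exists_hom ![x 0 + algebraMap F E a, x 1]
    (T5_indep hE.ind ![a, 0] fun j => by fin_cases j <;> simp)
    (u + adS p (h 0) (fun i => algebraMap F E (r 0 i)) (algebraMap F E a) (x 0) +
        algebraMap F E c) (by
      have h3 := hE.eq
      rw [Fin.sum_univ_two] at h3 ⊢
      rw [add_pow_char, add_pow_char]
      simp only [Matrix.cons_val_zero, Matrix.cons_val_one]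
      rw [adR_add]
      linear_combination h3 + h1 + h2)
  exact ⟨g, hg1, hg2 0, hg2 1, hg3⟩

/-- The translation of `u`. -/
private lemma T5_del {p : ℕ} [Fact p.Prime] {h : Fin 2 → ℕ} {F E : Type u} [Field F] [Field E]
    [CharP F p] [Algebra F E] {r : Fin 2 → ℕ → F} {l : Fin 2 → F} {d : F} {x : Fin 2 → E} {u : E}
    (hE : IsAddPair p h r l d x u) :
    ∃ g : E →+* E, (∀ a : F, g (algebraMap F E a) = algebraMap F E a) ∧
      (∀ j, g (x j) = x j) ∧ g u = u + 1 := by
  have : CharP E p := charP_of_injective_algebraMap (algebraMap F E).injective p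
  refine hE.exists_hom x hE.ind (u + 1) ?_
  rw [← hE.eq, add_pow_char, one_pow]
  ring

/-- Powers of an endomorphism. -/
private lemma T5_pow {E : Type u} [Field E] {g : E →+* E} {y κ : E} (hκ : g κ = κ)
    (hy : g y = y + κ) (i : ℕ) : (g ^ i) y = y + i * κ := by
  induction i with
  | zero => simp
  | succ i ih =>
    rw [pow_succ', RingHom.mul_def, RingHom.comp_apply, ih, map_add, map_mul, map_natCast, hκ, hy]
    push_cast
    ring

private lemma T5_powfix {E : Type u} [Field E] {g : E →+* E} {y : E} (hy : g y = y) (i : ℕ) :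
    (g ^ i) y = y := by
  have h1 := T5_pow (g := g) (y := y) (κ := 0) (map_zero g) (by rw [hy, add_zero]) i
  rwa [mul_zero, add_zero] at h1

/-- The `p ^ 2`-th power of a translation. -/
private lemma T5_order {p : ℕ} [Fact p.Prime] {h : Fin 2 → ℕ} {F E : Type u} [Field F] [Field E]
    [CharP F p] [Algebra F E] {r : Fin 2 → ℕ → F} {l : Fin 2 → F} {d : F} {x : Fin 2 → E} {u : E}
    (hE : IsAddPair p h r l d x u) {a c : F} {g : E →+* E}
    (hgF : ∀ a : F, g (algebraMap F E a) = algebraMap F E a)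
    (hg0 : g (x 0) = x 0 + algebraMap F E a) (hg1 : g (x 1) = x 1)
    (hgu : g u = u + adS p (h 0) (fun i => algebraMap F E (r 0 i)) (algebraMap F E a) (x 0) +
      algebraMap F E c) : g ^ (p * p) = 1 := by
  have hE2 : CharP E p := charP_of_injective_algebraMap (algebraMap F E).injective p
  have hp0 : (p : E) = 0 := CharP.cast_eq_zero E p
  have h0 : ∀ i : ℕ, (g ^ i) (x 0) = x 0 + i * algebraMap F E a := T5_pow (hgF a) hg0
  have hu : ∀ i : ℕ, (g ^ i) u = u + (i * (adS p (h 0) (fun i => algebraMap F E (r 0 i))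
      (algebraMap F E a) (x 0) + algebraMap F E c) + (∑ k ∈ range i, (k : E)) *
        adS p (h 0) (fun i => algebraMap F E (r 0 i)) (algebraMap F E a) (algebraMap F E a)) := by
    have hadd : ∀ i : ℕ, adS p (h 0) (fun i => algebraMap F E (r 0 i)) (algebraMap F E a)
        (x 0 + i * algebraMap F E a) = adS p (h 0) (fun i => algebraMap F E (r 0 i))
          (algebraMap F E a) (x 0) + i * adS p (h 0) (fun i => algebraMap F E (r 0 i))
          (algebraMap F E a) (algebraMap F E a) := by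
      intro i
      induction i with
      | zero => simp
      | succ i ih =>
        have h1 : x 0 + ((i + 1 : ℕ) : E) * algebraMap F E a =
          (x 0 + i * algebraMap F E a) + algebraMap F E a := by push_cast; ring
        rw [h1, adS_add, ih]
        push_cast
        ring
    intro i
    induction i with
    | zero => simp
    | succ i ih =>
      have h1 : (g ^ (i + 1)) u = (g ^ i) (g u) := by rw [pow_succ]; rfl
      have h2 : (g ^ i) (adS p (h 0) (fun i => algebraMap F E (r 0 i)) (algebraMap F E a) (x 0)) =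
          adS p (h 0) (fun i => algebraMap F E (r 0 i)) (algebraMap F E a)
            (x 0 + i * algebraMap F E a) := by
        rw [map_adS, h0, T5_powfix (hgF a)]
        congr 1
        funext j
        exact T5_powfix (hgF _) i
      rw [h1, hgu, map_add, map_add, h2, T5_powfix (hgF c), ih, hadd, sum_range_succ]
      push_cast
      ring
  obtain ⟨κ, hκ⟩ : ∃ κ : F, algebraMap F E κ = (∑ k ∈ range p, (k : E)) *
      adS p (h 0) (fun i => algebraMap F E (r 0 i)) (algebraMap F E a) (algebraMap F E a) :=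
    ⟨(∑ k ∈ range p, (k : F)) * adS p (h 0) (r 0) a a, by
      rw [map_mul, map_sum, map_adS]; simp only [map_natCast]⟩
  have hup : (g ^ p) u = u + algebraMap F E κ := by
    rw [hu, hp0, hκ, zero_mul, zero_add]
  rw [pow_mul]
  refine hE.hom_ext (fun b => ?_) (fun j => ?_) ?_
  · exact T5_powfix (T5_powfix (hgF b) p) p
  · refine T5_powfix ?_ p
    fin_cases j
    · change (g ^ p) (x 0) = x 0
      rw [h0, hp0, zero_mul, add_zero]
    · exact T5_powfix hg1 p
  · rw [T5_pow (T5_powfix (hgF κ) p) hup, hp0, zero_mul, add_zero]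
    rfl

/-- The induction step over a field with the constants. -/
private lemma T5_main {p : ℕ} [Fact p.Prime] {h : Fin 2 → ℕ} {h₀ C : ℕ} (hh : h 0 = h₀ + 1)
    (h2 : p = 2 → 0 < h₀) (hC : AddPairNew.{u, z} p ![h₀, h 1] C) {F E : Type u} [Field F]
    [Field E] [CharP F p] [Algebra F E] {r : Fin 2 → ℕ → F} {l : Fin 2 → F} {d : F}
    {x : Fin 2 → E} {u : E} (hE : IsAddPair p h r l d x u) {a a' c c' : F} (ha : a ≠ 0)
    (hB : adB p (h 0) (r 0) a (h 0) = 0) (hB' : adB p (h 0) (r 0) a' (h 0) = 0)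
    (hne : adS p (h 0) (r 0) a a' ≠ adS p (h 0) (r 0) a' a)
    (h3 : p = 2 → adS p (h 0) (r 0) a a = 0)
    (hc : c ^ p - c = a * adR p (h 0) (r 0) a + l 0 * a)
    (hc' : c' ^ p - c' = a' * adR p (h 0) (r 0) a' + l 0 * a') {δ : E →+* E}
    (hδF : ∀ a : F, δ (algebraMap F E a) = algebraMap F E a) (hδx : ∀ j, δ (x j) = x j)
    (hδu : δ u = u + 1) {z : KM m E} (hz : Unr z)
    (hsum : ∑ i ∈ range p, KM.map m (δ ^ i) z = 0) : (C * p * p) • z = 0 := by
  have hE2 : CharP E p := charP_of_injective_algebraMap (algebraMap F E).injective p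
  have hp0 : (p : E) = 0 := CharP.cast_eq_zero E p
  obtain ⟨g, hgF, hg0, hg1, hgu⟩ := T5_hom hE hB hc
  obtain ⟨g', hgF', hg0', hg1', hgu'⟩ := T5_hom hE hB' hc'
  have hδi : ∀ i : ℕ, (δ ^ i) u = u + i := fun i => by
    rw [T5_pow (map_one δ) hδu, mul_one]
  -- values of the additive polynomials
  have hS : ∀ (f : E →+* E), (∀ a : F, f (algebraMap F E a) = algebraMap F E a) →
      ∀ (a : F) (y : E), f (adS p (h 0) (fun i => algebraMap F E (r 0 i)) (algebraMap F E a) y) =
        adS p (h 0) (fun i => algebraMap F E (r 0 i)) (algebraMap F E a) (f y) := by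
    intro f hf a y
    rw [map_adS, hf]
    simp only [hf]
  have hδp : δ ^ p = 1 := by
    refine hE.hom_ext (fun b => T5_powfix (hδF b) p) (fun j => T5_powfix (hδx j) p) ?_
    rw [hδi, hp0, add_zero]
    rfl
  have hcomm : ∀ (f : E →+* E) (b e : F), (∀ a : F, f (algebraMap F E a) = algebraMap F E a) →
      f (x 0) = x 0 + algebraMap F E b → f (x 1) = x 1 →
      f u = u + adS p (h 0) (fun i => algebraMap F E (r 0 i)) (algebraMap F E b) (x 0) +
        algebraMap F E e → δ.comp f = f.comp δ := by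
    intro f b e hfF hf0 hf1 hfu
    refine hE.hom_ext (fun b => ?_) (fun j => ?_) ?_
    · rw [RingHom.comp_apply, RingHom.comp_apply, hfF, hδF, hfF]
    · rw [RingHom.comp_apply, RingHom.comp_apply, hδx]
      fin_cases j
      · change δ (f (x 0)) = f (x 0)
        rw [hf0, map_add, hδx, hδF]
      · change δ (f (x 1)) = f (x 1)
        rw [hf1, hδx]
    · rw [RingHom.comp_apply, RingHom.comp_apply, hfu, hδu, map_add, map_add, map_add, hfu,
        hδu, hS δ hδF, hδx, hδF, map_one]
      ring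
  -- the commutator
  have hω : ∃ t : ℕ, (t : F) = adS p (h 0) (r 0) a' a - adS p (h 0) (r 0) a a' := by
    have h4 := adS_pow_sub (r 0) hB a'
    have h5 := adS_pow_sub (r 0) hB' a
    have h6 : (adS p (h 0) (r 0) a' a - adS p (h 0) (r 0) a a') ^ p =
        adS p (h 0) (r 0) a' a - adS p (h 0) (r 0) a a' := by
      rw [sub_pow_char]
      linear_combination h5 - h4
    have h7 := (Subfield.mem_bot_iff_pow_eq_self F p).2 h6
    rw [← ZMod.fieldRange_castHom_eq_bot p] at h7
    obtain ⟨y, hy⟩ := h7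
    obtain ⟨t, rfl⟩ := ZMod.natCast_zmod_surjective y
    exact ⟨t, by rw [← hy, map_natCast]⟩
  obtain ⟨t, ht⟩ := hω
  have htp : ¬ p ∣ t := by
    intro hd
    rw [(CharP.cast_eq_zero_iff F p t).2 hd, eq_comm, sub_eq_zero] at ht
    exact hne ht.symm
  have hgg : g.comp g' = (δ ^ t).comp (g'.comp g) := by
    refine hE.hom_ext (fun b => ?_) (fun j => ?_) ?_
    · rw [RingHom.comp_apply, RingHom.comp_apply, RingHom.comp_apply, hgF', hgF, hgF',
        T5_powfix (hδF b)]
    · rw [RingHom.comp_apply, RingHom.comp_apply, RingHom.comp_apply]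
      fin_cases j
      · change g (g' (x 0)) = (δ ^ t) (g' (g (x 0)))
        rw [hg0', hg0, map_add, map_add, hgF, hgF', hg0, hg0', map_add, map_add,
          T5_powfix (hδx 0), T5_powfix (hδF a), T5_powfix (hδF a')]
        ring
      · change g (g' (x 1)) = (δ ^ t) (g' (g (x 1)))
        rw [hg1', hg1, hg1', T5_powfix (hδx 1)]
    · have h4 := congrArg (algebraMap F E) ht
      rw [map_natCast, map_sub, map_adS, map_adS] at h4
      have h5 : ∀ (b : F) (y : E), (δ ^ t) y = y → (δ ^ t) (adS p (h 0)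
          (fun i => algebraMap F E (r 0 i)) (algebraMap F E b) y) = adS p (h 0)
          (fun i => algebraMap F E (r 0 i)) (algebraMap F E b) y := fun b y hy => by
        rw [hS (δ ^ t) (fun b => T5_powfix (hδF b) t), hy]
      rw [RingHom.comp_apply, RingHom.comp_apply, RingHom.comp_apply, hgu', hgu]
      simp only [map_add, hgF, hgF', hgu, hgu', hS g hgF, hS g' hgF', hg0, hg0', hδi, adS_add,
        T5_powfix (hδF c) t, T5_powfix (hδF c') t, h5 _ _ (T5_powfix (hδx 0) t),
        h5 _ _ (T5_powfix (hδF a') t)]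
      linear_combination -h4
  have hord := T5_order hE hgF' hg0' hg1' hgu'
  have hkey := heis_sum (m := m) (M := p * p) hord hδp
    (Nat.le_mul_of_pos_left p (Fact.out : p.Prime).pos) (hcomm g a c hgF hg0 hg1 hgu)
    (hcomm g' a' c' hgF' hg0' hg1' hgu') hgg htp hsum
  rw [mul_smul, hkey, smul_sum]
  refine sum_eq_zero fun i _ => ?_
  rw [← map_nsmul, addPair_trace hh h2 hC hE ha hB h3 hc hδF hδx hδu hgF hg0 hg1 hgu
    (hz.map (g' ^ (p * p - i))) ?_, map_zero]
  have h4 : ∀ i j : ℕ, (δ ^ i).comp (g' ^ j) = (g' ^ j).comp (δ ^ i) := by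
    intro i j
    have h5 : Commute δ g' := hcomm g' a' c' hgF' hg0' hg1' hgu'
    exact (h5.pow_pow i j)
  rw [← map_zero (KM.map m (g' ^ (p * p - i))), ← hsum, map_sum]
  refine sum_congr rfl fun j _ => ?_
  rw [KM.map_map, KM.map_map, h4]

/-- The induction step: the first exponent. -/
theorem addPair_step {p : ℕ} [Fact p.Prime] {h : Fin 2 → ℕ} {h₀ C : ℕ} (hh : h 0 = h₀ + 1)
    (h2 : p = 2 → 0 < h₀) (hC : AddPairNew.{u, z} p ![h₀, h 1] C) :
    AddPairNew.{u, z} p h ((p ^ (4 * h 0 + 2)).factorial * (C * p * p)) := by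
  intro m F E _ _ _ _ r l d x u hE z hz δ hδF hδx hδu hsum
  obtain ⟨F', _, _, hfdF, a, a', c, c', hdeg, ha, hB, hB', hne, h3, hc, hc'⟩ :=
    T5_ext (p := p) (h := h 0) (by omega) (fun hp => by have := h2 hp; omega) (r 0) (hE.ne 0) (l 0)
  obtain ⟨E', _, _, _, hfd, hle, hFF, hE'⟩ := hE.baseChange (F' := F')
  have hF2 : CharP F' p := charP_of_injective_algebraMap (algebraMap F F').injective p
  have hE2 : CharP E p := charP_of_injective_algebraMap (algebraMap F E).injective p
  obtain ⟨δ', hδF', hδx', hδu'⟩ := T5_del hE'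
  have hcomp : δ'.comp (algebraMap E E') = (algebraMap E E').comp δ := by
    refine hE.hom_ext (fun a => ?_) (fun j => ?_) ?_
    · rw [RingHom.comp_apply, RingHom.comp_apply, hδF, hFF, hδF']
    · rw [RingHom.comp_apply, RingHom.comp_apply, hδx]
      exact hδx' j
    · rw [RingHom.comp_apply, RingHom.comp_apply, hδu, map_add, map_one]
      exact hδu'
  have hpow : ∀ i : ℕ, (δ' ^ i).comp (algebraMap E E') = (algebraMap E E').comp (δ ^ i) := by
    intro i
    induction i with
    | zero => rfl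
    | succ i ih =>
      have h1 : (δ' ^ (i + 1)).comp (algebraMap E E') =
          (δ' ^ i).comp (δ'.comp (algebraMap E E')) := by rw [pow_succ]; rfl
      have h4 : ((algebraMap E E').comp (δ ^ (i + 1))) =
          ((algebraMap E E').comp (δ ^ i)).comp δ := by rw [pow_succ]; rfl
      rw [h1, h4, hcomp, ← ih]
      rfl
  have h4 := T5_main (m := m) (h := h) hh h2 hC hE' ha hB hB' hne h3 hc hc' hδF' hδx' hδu'
    (hz.map (algebraMap E E')) (by
      rw [← map_zero (KM.map m (algebraMap E E')), ← hsum, map_sum]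
      refine sum_congr rfl fun j _ => ?_
      rw [KM.map_map, KM.map_map, hpow])
  rw [← map_nsmul] at h4
  have h5 := finrank_smul_eq_zero _ rfl h4
  obtain ⟨k, hk⟩ := Nat.dvd_factorial Module.finrank_pos (hle.trans hdeg)
  rw [mul_smul, hk, mul_comm, mul_smul, h5, smul_zero]

lemma AddPairNew.swap {p : ℕ} {h : Fin 2 → ℕ} {C : ℕ} (hC : AddPairNew.{u, z} p h C) :
    AddPairNew.{u, z} p (fun j => h (1 - j)) C := by
  intro m F E _ _ _ _ r l d x u hE z hz δ hδF hδx hδu hsum
  have hj : ∀ j : Fin 2, 1 - (1 - j) = j := by decide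
  have h1 : IsAddPair p h (fun j => r (1 - j)) (fun j => l (1 - j)) d (fun j => x (1 - j)) u :=
    { ne := fun j => by
        have h2 := hE.ne (1 - j)
        simp only [hj] at h2
        exact h2
      pos := fun hp j => by
        have h2 := hE.pos hp (1 - j)
        simp only [hj] at h2
        exact h2
      ind := hE.ind.comp (fun j => 1 - j) fun i j hij => by
        have h2 := congrArg (fun k : Fin 2 => 1 - k) hij
        simpa only [hj] using h2
      eq := by
        rw [hE.eq, Fin.sum_univ_two, Fin.sum_univ_two, add_comm (x 0 * _ + _)]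
        rfl
      gen := by
        rw [← hE.gen]
        congr 2
        ext y
        constructor
        · rintro ⟨j, rfl⟩
          exact ⟨1 - j, rfl⟩
        · rintro ⟨j, rfl⟩
          exact ⟨1 - j, by simp only [hj]⟩ }
  exact hC m F E _ _ d _ u h1 z hz δ hδF (fun j => hδx _) hδu hsum

end UnrA.Fer
end
end
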