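import Pool.Agent.Lib.MP_859dd5_ag.Mg.G074
import Pool.Agent.Lib.MP_859dd5_ag.Mg.G078
import Pool.Agent.Lib.MP_859dd5_ag.Mg.G079
import Pool.Agent.Lib.MP_859dd5_ag.Mg.G009

section

/-!
# Reduction to the subfields attached to the additive characters
-/

namespace UnrA.Fer

open UnrG

universe u v w z

open Polynomial Finset
open scoped Classical

variable {m : UFun.{u, z}}

/-- The number of solutions of a linear equation over a prime field. -/
private lemma D3_count {q : ℕ} [Fact q.Prime] {n : ℕ} (a : Fin n → ZMod q) :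
    q * (univ.filter fun c : Fin n → ZMod q => ∑ j, c j * a j = 0).card =
      q ^ n * if a = 0 then q else 1 := by
  have hcard : Fintype.card (Fin n → ZMod q) = q ^ n := by
    rw [Fintype.card_fun, ZMod.card, Fintype.card_fin]
  split_ifs with h0
  · subst h0
    rw [mul_comm]
    congr 1
    rw [← hcard, ← Finset.card_univ]
    congr 1
    rw [Finset.filter_eq_self]
    intro c _
    simp
  · obtain ⟨j, hj⟩ := Function.ne_iff.mp h0
    rw [Pi.zero_apply] at hj
    have hfib : ∀ s : ZMod q, (univ.filter fun c : Fin n → ZMod q => ∑ j, c j * a j = s).card =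
        (univ.filter fun c : Fin n → ZMod q => ∑ j, c j * a j = 0).card := by
      intro s
      have hsh : ∀ (c : Fin n → ZMod q) (t : ZMod q),
          ∑ i, (c + Pi.single j (t / a j) : Fin n → ZMod q) i * a i = ∑ i, c i * a i + t := by
        intro c t
        simp only [Pi.add_apply, add_mul, Finset.sum_add_distrib]
        congr 1
        rw [Finset.sum_eq_single j]
        · rw [Pi.single_eq_same, div_mul_cancel₀ _ hj]
        · intro i _ hi
          rw [Pi.single_eq_of_ne hi, zero_mul]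
        · intro hj'
          exact absurd (Finset.mem_univ j) hj'
      refine Finset.card_bij' (fun c _ => c + Pi.single j (-s / a j))
        (fun c _ => c + Pi.single j (s / a j)) ?_ ?_ ?_ ?_
      · intro c hc
        rw [mem_filter] at hc ⊢
        refine ⟨mem_univ _, ?_⟩
        rw [hsh, hc.2]
        ring
      · intro c hc
        rw [mem_filter] at hc ⊢
        refine ⟨mem_univ _, ?_⟩
        rw [hsh, hc.2]
        ring
      · intro c _
        rw [add_assoc, ← Pi.single_add, neg_div, neg_add_cancel, Pi.single_zero, add_zero]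
      · intro c _
        rw [add_assoc, ← Pi.single_add, neg_div, add_neg_cancel, Pi.single_zero, add_zero]
    have h1 := Finset.card_eq_sum_card_fiberwise (f := fun c : Fin n → ZMod q => ∑ j, c j * a j)
      (s := univ) (t := univ) (fun _ _ => Finset.mem_univ _)
    rw [Finset.sum_congr rfl fun s _ => hfib s, Finset.sum_const, Finset.card_univ,
      Finset.card_univ, ZMod.card, hcard, smul_eq_mul] at h1
    rw [mul_one]
    exact h1.symm

/-- The automorphisms over a larger subfield are those fixing the additional generators. -/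
private lemma D3_inner {k L : Type u} [Field k] [Field L] [Algebra k L]
    {T₀ : IntermediateField k L} (S : Set L) (ξ : KM m L)
    [Fintype (L ≃ₐ[T₀] L)] (T : IntermediateField k L)
    (hT : T = IntermediateField.adjoin k ((T₀ : Set L) ∪ S)) [Fintype (L ≃ₐ[T] L)] :
    ∑ g : L ≃ₐ[T] L, KM.map m (g : L →+* L) ξ =
      ∑ g ∈ univ.filter (fun g : L ≃ₐ[T₀] L => ∀ z ∈ S, g z = z), KM.map m (g : L →+* L) ξ := by
  have hle : T₀ ≤ T := by
    intro z hz
    rw [hT]
    exact IntermediateField.subset_adjoin k _ (Or.inl hz)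
  have hST : ∀ z ∈ S, z ∈ T := by
    intro z hz
    rw [hT]
    exact IntermediateField.subset_adjoin k _ (Or.inr hz)
  let _ : Algebra T₀ T := (IntermediateField.inclusion hle).toRingHom.toAlgebra
  have : IsScalarTower T₀ T L := IsScalarTower.of_algebraMap_eq fun x => rfl
  refine Finset.sum_bij (fun g _ => g.restrictScalars T₀) ?_ ?_ ?_ ?_
  · intro g _
    rw [mem_filter]
    exact ⟨mem_univ _, fun z hz => g.commutes ⟨z, hST z hz⟩⟩
  · intro g _ g' _ h3
    refine AlgEquiv.ext fun x => ?_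
    exact DFunLike.congr_fun h3 x
  · intro g hg
    rw [mem_filter] at hg
    obtain ⟨R, hR⟩ : ∃ R : IntermediateField k L, ∀ x, x ∈ R ↔ g x = x :=
      ⟨{ carrier := {x | g x = x}
         mul_mem' := fun {x y} hx hy => by
           change g (x * y) = x * y
           rw [map_mul, show g x = x from hx, show g y = y from hy]
         add_mem' := fun {x y} hx hy => by
           change g (x + y) = x + y
           rw [map_add, show g x = x from hx, show g y = y from hy]
         algebraMap_mem' := fun c => g.commutes (algebraMap k T₀ c)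
         inv_mem' := fun x hx => by
           change g x⁻¹ = x⁻¹
           rw [map_inv₀, show g x = x from hx] }, fun x => Iff.rfl⟩
    have hR' : T ≤ R := by
      rw [hT, IntermediateField.adjoin_le_iff]
      rintro z (hz | hz)
      · exact (hR z).2 (g.commutes ⟨z, hz⟩)
      · exact (hR z).2 (hg.2 z hz)
    refine ⟨{ (g : L ≃+* L) with commutes' := fun x => (hR _).mp (hR' x.2) }, mem_univ _, ?_⟩
    exact AlgEquiv.ext fun x => rfl
  · intro g _
    rfl

private lemma D3_exists {k L : Type u} [Field k] [Field L] [Algebra k L]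
    {T : IntermediateField k L} [FiniteDimensional T L] {f : L →+* L}
    (hf : ∀ z ∈ T, f z = z) : ∃ g₀ : L ≃ₐ[T] L, ∀ z, g₀ z = f z := by
  obtain ⟨φ, hφ⟩ : ∃ φ : L →ₐ[T] L, ∀ z, φ z = f z :=
    ⟨{ f with commutes' := fun z => hf _ z.2 }, fun z => rfl⟩
  exact ⟨AlgEquiv.ofBijective φ (Algebra.IsAlgebraic.algHom_bijective φ), fun z => hφ z⟩

/-- The sum of a function invariant under an element with nonzero value of a character. -/
private lemma D3_coset {G A : Type*} [Group G] [Fintype G] [AddCommGroup A] {q : ℕ}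
    [Fact q.Prime] (K : G → A) (f : G) (hK : ∀ g, K (g * f) = K g) (R : G → Prop) [DecidablePred R]
    (hR : ∀ g, R (g * f) ↔ R g) (χ : G → ZMod q) (hχ : ∀ g g', χ (g * g') = χ g + χ g')
    (hf : χ f ≠ 0) :
    ∑ g ∈ univ.filter R, K g = q • ∑ g ∈ univ.filter (fun g => R g ∧ χ g = 0), K g := by
  have hKi : ∀ (i : ℕ) g, K (g * f ^ i) = K g := by
    intro i
    induction i with
    | zero =>
      intro g
      rw [pow_zero, mul_one]
    | succ i ih =>
      intro g
      rw [pow_succ, ← mul_assoc, hK, ih]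
  have hRi : ∀ (i : ℕ) g, R (g * f ^ i) ↔ R g := by
    intro i
    induction i with
    | zero =>
      intro g
      rw [pow_zero, mul_one]
    | succ i ih =>
      intro g
      rw [pow_succ, ← mul_assoc, hR, ih]
  have hχi : ∀ (i : ℕ) g, χ (g * f ^ i) = χ g + i * χ f := by
    intro i
    induction i with
    | zero =>
      intro g
      rw [pow_zero, mul_one, Nat.cast_zero, zero_mul, add_zero]
    | succ i ih =>
      intro g
      rw [pow_succ, ← mul_assoc, hχ, ih, Nat.cast_succ]
      ring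
  have hfib : ∀ s : ZMod q, ∑ g ∈ univ.filter (fun g => R g ∧ χ g = s), K g =
      ∑ g ∈ univ.filter (fun g => R g ∧ χ g = 0), K g := by
    intro s
    obtain ⟨i, hi⟩ : ∃ i : ℕ, (i : ZMod q) * χ f = -s :=
      ⟨(-s / χ f).val, by rw [ZMod.natCast_zmod_val, div_mul_cancel₀ _ hf]⟩
    refine Finset.sum_bij (fun g _ => g * f ^ i) ?_ ?_ ?_ ?_
    · intro g hg
      rw [mem_filter] at hg ⊢
      refine ⟨mem_univ _, (hRi i g).2 hg.2.1, ?_⟩
      rw [hχi, hg.2.2, hi, add_neg_cancel]
    · intro g _ g' _ h3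
      exact mul_right_cancel h3
    · intro g hg
      rw [mem_filter] at hg
      refine ⟨g * (f ^ i)⁻¹, ?_, by rw [inv_mul_cancel_right]⟩
      have h1 : g * (f ^ i)⁻¹ * f ^ i = g := inv_mul_cancel_right g (f ^ i)
      rw [mem_filter]
      refine ⟨mem_univ _, ?_, ?_⟩
      · rw [← hRi i, h1]
        exact hg.2.1
      · have h2 := hχi i (g * (f ^ i)⁻¹)
        rw [h1, hg.2.2, hi] at h2
        have h3 : χ (g * (f ^ i)⁻¹) = s := by linear_combination -h2
        exact h3
    · intro g _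
      rw [hKi]
  have h1 : ∑ s : ZMod q, ∑ g ∈ univ.filter (fun g => R g ∧ χ g = s), K g =
      ∑ g ∈ univ.filter R, K g := by
    rw [← Finset.sum_fiberwise (univ.filter R) χ K]
    refine Finset.sum_congr rfl fun s _ => ?_
    rw [Finset.filter_filter]
  rw [← h1, Finset.sum_congr rfl fun s _ => hfib s, Finset.sum_const, Finset.card_univ, ZMod.card]

private lemma D3_fix_sum {L : Type u} [Field L] {p n : ℕ} [Fact p.Prime] [CharP L p]
    {y : Fin n → L} {g : L →+* L} {t : Fin n → ZMod p}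
    (h1 : ∀ j, g (y j) = y j + ((t j).val : L)) (d : Fin n → ZMod p) :
    g (∑ j, ((d j).val : L) * y j) = ∑ j, ((d j).val : L) * y j ↔ ∑ j, d j * t j = 0 := by
  have hg : g (∑ j, ((d j).val : L) * y j) =
      ∑ j, ((d j).val : L) * y j + ((∑ j, (d j).val * (t j).val : ℕ) : L) := by
    rw [map_sum]
    push_cast
    rw [← Finset.sum_add_distrib]
    refine Finset.sum_congr rfl fun j _ => ?_
    rw [map_mul, map_natCast, h1, mul_add]
  rw [hg]
  have h3 : ∑ j, ((d j).val : L) * y j + ((∑ j, (d j).val * (t j).val : ℕ) : L) =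
      ∑ j, ((d j).val : L) * y j ↔ ((∑ j, (d j).val * (t j).val : ℕ) : L) = 0 := by
    constructor
    · intro h4
      exact left_eq_add.mp h4.symm
    · intro h4
      rw [h4, add_zero]
  rw [h3, CharP.cast_eq_zero_iff L p, ← ZMod.natCast_eq_zero_iff]
  push_cast
  simp only [ZMod.natCast_zmod_val]

private lemma D3_cast_inj {L : Type u} [Field L] {p : ℕ} [Fact p.Prime] [CharP L p] {a c : ZMod p}
    (h : ((a.val : ℕ) : L) = (c.val : L)) : a = c := by
  have h1 := (CharP.natCast_eq_natCast L p).1 h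
  have h2 := (ZMod.natCast_eq_natCast_iff _ _ p).2 h1
  rwa [ZMod.natCast_zmod_val, ZMod.natCast_zmod_val] at h2

/-- The identity in the group ring. -/
private lemma D3_identity {G A : Type*} [Fintype G] [AddCommGroup A] {p : ℕ}
    [Fact p.Prime] {n : ℕ} (K : G → A) (τ : G → Fin n → ZMod p)
    (e : G) (h0' : τ e = 0) (h1 : ∀ g, τ g = 0 → g = e) :
    (p ^ n * (p - 1)) • K e + p ^ n • ∑ g, K g =
    p • ∑ d : Fin n → ZMod p,
        ∑ g ∈ univ.filter (fun g => ∑ j, d j * τ g j = 0), K g := by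
  have hB : ∑ d : Fin n → ZMod p, ∑ g ∈ univ.filter (fun g => ∑ j, d j * τ g j = 0), K g =
      ∑ g, (univ.filter fun d : Fin n → ZMod p => ∑ j, d j * τ g j = 0).card • K g := by
    rw [Finset.sum_comm' (t' := univ)
      (s' := fun g => univ.filter fun d : Fin n → ZMod p => ∑ j, d j * τ g j = 0)]
    · exact Finset.sum_congr rfl fun g _ => by rw [Finset.sum_const]
    · intro c g
      simp only [mem_filter, mem_univ, true_and, and_true]
  have hE : K e = ∑ g, (if τ g = 0 then 1 else 0) • K g := by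
    rw [Finset.sum_eq_single e]
    · rw [if_pos h0', one_smul]
    · intro g _ hg
      rw [if_neg fun h => hg (h1 g h), zero_smul]
    · intro h
      exact absurd (mem_univ _) h
  rw [hB]
  conv_lhs => rw [hE]
  rw [Finset.smul_sum, Finset.smul_sum, Finset.smul_sum, ← Finset.sum_add_distrib]
  refine Finset.sum_congr rfl fun g _ => ?_
  rw [smul_smul, smul_smul, ← add_smul]
  congr 1
  rw [D3_count (τ g)]
  have hp1 : 1 ≤ p := (Fact.out : p.Prime).one_le
  obtain ⟨p', hp'⟩ : ∃ p', p = p' + 1 := ⟨p - 1, by omega⟩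
  have e2 : p - 1 = p' := by omega
  rw [e2]
  by_cases cb : τ g = 0
  · rw [if_pos cb, if_pos cb]
    calc p ^ n * p' * 1 + p ^ n = p ^ n * (p' + 1) := by ring
      _ = p ^ n * p := by rw [← hp']
  · rw [if_neg cb, if_neg cb]
    ring

private lemma D3_splits {L : Type u} [Field L] {p : ℕ} [Fact p.Prime] [CharP L p] (y : L) :
    (X ^ p - X - C (y ^ p - y) : L[X]).Splits := by
  have h1 : (X ^ p - X : L[X]).Splits := by
    have h2 := (Subfield.splits_bot L p).map (Subfield.subtype _)
    rwa [Polynomial.map_sub, Polynomial.map_pow, map_X] at h2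
  have h3 := h1.comp_X_sub_C y
  rw [sub_comp, pow_comp, X_comp] at h3
  have h4 : (X - C y : L[X]) ^ p - (X - C y) = X ^ p - X - C (y ^ p - y) := by
    rw [sub_pow_char, C_sub, C_pow]
    ring
  rwa [h4] at h3

private lemma D3_root {L : Type u} [Field L] {p : ℕ} [Fact p.Prime] [CharP L p] {w : L}
    (hw : w ^ p = w) : ∃ i : ZMod p, w = (i.val : L) := by
  have h1 : w ∈ (⊥ : Subfield L) := (Subfield.mem_bot_iff_pow_eq_self L p).2 hw
  rw [← ZMod.fieldRange_castHom_eq_bot p] at h1
  obtain ⟨i, rfl⟩ := h1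
  exact ⟨i, by rw [ZMod.castHom_apply, ZMod.natCast_val]⟩

private lemma D3_galois {p : ℕ} [Fact p.Prime] {k L : Type u} [Field k] [Field L] [CharP k p]
    [Algebra k L] {n : ℕ} {T₀ : IntermediateField k L} {y : Fin n → L}
    (hy : ∀ j, y j ^ p - y j ∈ T₀)
    (hgen : IntermediateField.adjoin k ((T₀ : Set L) ∪ Set.range y) = ⊤)
    (T : IntermediateField k L) (hT : T₀ ≤ T) :
    FiniteDimensional T L ∧ IsGalois T L := by
  have hp : 1 < p := (Fact.out : p.Prime).one_lt
  have hchL : CharP L p := charP_of_injective_ringHom (algebraMap k L).injective p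
  have hchT : CharP T p := charP_of_injective_ringHom (algebraMap k T).injective p
  obtain ⟨a, ha⟩ : ∃ a : Fin n → T, ∀ i, algebraMap T L (a i) = y i ^ p - y i :=
    ⟨fun i => ⟨y i ^ p - y i, hT (hy i)⟩, fun i => rfl⟩
  have htop : IntermediateField.adjoin T (Set.range y) = ⊤ := by
    rw [eq_top_iff]
    have h1 : (IntermediateField.adjoin k ((T₀ : Set L) ∪ Set.range y)) ≤
        (IntermediateField.adjoin T (Set.range y)).restrictScalars k := by
      rw [IntermediateField.adjoin_le_iff]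
      rintro z (hz | hz)
      · exact (IntermediateField.adjoin T (Set.range y)).algebraMap_mem ⟨z, hT hz⟩
      · exact IntermediateField.subset_adjoin T _ hz
    rw [hgen] at h1
    intro z _
    exact h1 (IntermediateField.mem_top)
  have hmon : ∀ i, (X ^ p - X - C (a i) : T[X]).Monic := by
    intro i
    rw [sub_sub]
    refine monic_X_pow_sub ?_
    exact lt_of_le_of_lt ((degree_add_le _ _).trans (max_le degree_X_le
      (degree_C_le.trans (by norm_num)))) (by exact_mod_cast hp)
  have hroot : ∀ i, aeval (y i) (X ^ p - X - C (a i) : T[X]) = 0 := by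
    intro i
    rw [map_sub, map_sub, map_pow, aeval_X, aeval_C, ha, sub_self]
  have hint : ∀ i, IsIntegral T (y i) := fun i =>
    ⟨X ^ p - X - C (a i), hmon i, by rw [← aeval_def]; exact hroot i⟩
  have hsep : ∀ i, IsSeparable T (y i) := by
    intro i
    have h1 : (X ^ p - X - C (a i) : T[X]).Separable := by
      rw [Polynomial.separable_def]
      refine ⟨0, -1, ?_⟩
      rw [derivative_sub, derivative_sub, derivative_C, derivative_X, derivative_X_pow,
        CharP.cast_eq_zero, C_0]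
      ring
    exact h1.of_dvd (minpoly.dvd _ _ (hroot i))
  have hspl : (∏ i, (X ^ p - X - C (a i)) : T[X]).IsSplittingField T L := by
    refine ⟨?_, ?_⟩
    · rw [Polynomial.map_prod]
      refine Splits.prod fun i _ => ?_
      rw [Polynomial.map_sub, Polynomial.map_sub, Polynomial.map_pow, map_X, map_C, ha]
      exact D3_splits _
    · rw [← top_le_iff]
      have h2 := congrArg IntermediateField.toSubalgebra htop
      rw [IntermediateField.adjoin_toSubalgebra_of_isAlgebraic
        (fun z hz => by obtain ⟨i, rfl⟩ := hz; exact (hint i).isAlgebraic),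
        IntermediateField.top_toSubalgebra] at h2
      rw [← h2]
      apply Algebra.adjoin_mono
      rintro z ⟨i, rfl⟩
      have h0 : (∏ i, (X ^ p - X - C (a i)) : T[X]) ≠ 0 :=
        Finset.prod_ne_zero_iff.mpr fun i _ => (hmon i).ne_zero
      rw [mem_rootSet]
      refine ⟨h0, ?_⟩
      rw [map_prod]
      exact Finset.prod_eq_zero (Finset.mem_univ i) (hroot i)
  have hS : Algebra.IsSeparable T L := by
    have h1 : Algebra.IsSeparable T (IntermediateField.adjoin T (Set.range y)) :=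
      (IntermediateField.isSeparable_adjoin_iff_isSeparable T L).mpr
        (fun z hz => by obtain ⟨i, rfl⟩ := hz; exact hsep i)
    rw [htop] at h1
    exact Algebra.IsSeparable.of_algHom T (⊤ : IntermediateField T L)
      (IntermediateField.topEquiv (F := T) (E := L)).symm.toAlgHom
  have hfd : FiniteDimensional T L :=
    hspl.finiteDimensional (K := T) (L := L) (∏ i, (X ^ p - X - C (a i)))
  have hno : Normal T L := Normal.of_isSplittingField (∏ i, (X ^ p - X - C (a i)))
  exact ⟨hfd, ⟨⟩⟩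

private lemma D3_coords {p : ℕ} [Fact p.Prime] {k L : Type u} [Field k] [Field L] [CharP k p]
    [Algebra k L] {n : ℕ} {T₀ : IntermediateField k L} {y : Fin n → L}
    (hy : ∀ j, y j ^ p - y j ∈ T₀)
    (hgen : IntermediateField.adjoin k ((T₀ : Set L) ∪ Set.range y) = ⊤)
    (T : IntermediateField k L) (hT : T₀ ≤ T) :
    ∃ τ : (L ≃ₐ[T] L) → Fin n → ZMod p,
      (∀ g j, g (y j) = y j + ((τ g j).val : L)) ∧
      (∀ g g', τ (g * g') = τ g + τ g') ∧ ∀ g, τ g = 0 → g = 1 := by
  have hchL : CharP L p := charP_of_injective_ringHom (algebraMap k L).injective p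
  have h1 : ∀ (g : L ≃ₐ[T] L) (j : Fin n), ∃ i : ZMod p, g (y j) = y j + (i.val : L) := by
    intro g j
    have h2 : g (y j ^ p - y j) = y j ^ p - y j := g.commutes ⟨_, hT (hy j)⟩
    obtain ⟨i, hi⟩ := D3_root (p := p) (w := g (y j) - y j) (by
      rw [map_sub, map_pow] at h2
      rw [sub_pow_char]
      linear_combination h2)
    exact ⟨i, by rw [← hi]; ring⟩
  choose τ hτ using h1
  refine ⟨τ, hτ, ?_, ?_⟩
  · intro g g'
    funext j
    have h2 : (((τ (g * g') j).val : ℕ) : L) = ((τ g j).val : L) + ((τ g' j).val : L) := by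
      have h3 := hτ (g * g') j
      rw [AlgEquiv.mul_apply, hτ g' j, map_add, map_natCast, hτ g j] at h3
      linear_combination -h3
    have h2' : (((τ (g * g') j).val : ℕ) : L) = (((τ g j).val + (τ g' j).val : ℕ) : L) := by
      rw [h2]
      push_cast
      rfl
    have h4 := (CharP.natCast_eq_natCast L p).1 h2'
    have h5 := (ZMod.natCast_eq_natCast_iff _ _ p).2 h4
    push_cast at h5
    rwa [ZMod.natCast_zmod_val, ZMod.natCast_zmod_val, ZMod.natCast_zmod_val] at h5
  · intro g hg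
    obtain ⟨R, hR⟩ : ∃ R : IntermediateField k L, ∀ x, x ∈ R ↔ g x = x :=
      ⟨{ carrier := {x | g x = x}
         mul_mem' := fun {x y} hx hy => by
           change g (x * y) = x * y
           rw [map_mul, show g x = x from hx, show g y = y from hy]
         add_mem' := fun {x y} hx hy => by
           change g (x + y) = x + y
           rw [map_add, show g x = x from hx, show g y = y from hy]
         algebraMap_mem' := fun c => g.commutes (algebraMap k T c)
         inv_mem' := fun x hx => by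
           change g x⁻¹ = x⁻¹
           rw [map_inv₀, show g x = x from hx] }, fun x => Iff.rfl⟩
    have hR' : (⊤ : IntermediateField k L) ≤ R := by
      rw [← hgen, IntermediateField.adjoin_le_iff]
      rintro z (hz | ⟨j, rfl⟩)
      · exact (hR z).2 (g.commutes ⟨z, hT hz⟩)
      · refine (hR _).2 ?_
        rw [hτ, hg]
        simp
    refine AlgEquiv.ext fun z => ?_
    exact (hR z).1 (hR' (IntermediateField.mem_top))

private lemma D3_finrank {p : ℕ} [Fact p.Prime] {k L : Type u} [Field k] [Field L] [CharP k p]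
    [Algebra k L] {n : ℕ} {T₀ : IntermediateField k L} {y : Fin n → L}
    (hy : ∀ j, y j ^ p - y j ∈ T₀)
    (hgen : IntermediateField.adjoin k ((T₀ : Set L) ∪ Set.range y) = ⊤)
    (T : IntermediateField k L) (hT : T₀ ≤ T) : Module.finrank T L ≤ p ^ n := by
  have hchL : CharP L p := charP_of_injective_ringHom (algebraMap k L).injective p
  obtain ⟨hfd, hgal⟩ := D3_galois hy hgen T hT
  obtain ⟨τ, hτ, hτm, hone⟩ := D3_coords hy hgen T hT
  rw [← IsGalois.card_aut_eq_finrank]
  have hinj : Function.Injective τ := by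
    intro g g' hgg
    have h1 : τ (g * g'⁻¹) = 0 := by
      have h2 : τ (g * g'⁻¹) + τ g' = τ g := by rw [← hτm, inv_mul_cancel_right]
      rw [hgg] at h2
      exact add_eq_right.mp h2
    have h3 := hone _ h1
    exact mul_inv_eq_one.mp h3
  have h1 := Nat.card_le_card_of_injective _ hinj
  rwa [Nat.card_eq_fintype_card (α := Fin n → ZMod p), Fintype.card_fun, ZMod.card,
    Fintype.card_fin] at h1

/-- Reduction to the subfields attached to the additive characters. -/
theorem as_reduced_add {p : ℕ} [Fact p.Prime] {k L : Type u} [Field k] [Field L] [CharP k p]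
    [Algebra k L] {n : ℕ} (T₀ : IntermediateField k L) {y : Fin n → L}
    (hy : ∀ j, y j ^ p - y j ∈ T₀)
    (hgen : IntermediateField.adjoin k ((T₀ : Set L) ∪ Set.range y) = ⊤) {ξ : KM m L}
    (hξ : Unr ξ) {C : ℕ} (P : Set (Fin n → ZMod p))
    (hP : ∀ h ∈ P, ∃ f : L →+* L, (∀ z ∈ T₀, f z = z) ∧
      (∀ j, f (y j) = y j + ((h j).val : L)) ∧ KM.map m f ξ = ξ)
    (hC0 : KillsC m C k T₀)
    (hC : ∀ d : Fin n → ZMod p, d ≠ 0 → (∀ h ∈ P, ∑ j, d j * h j = 0) →
      KillsC m C k (IntermediateField.adjoin k ((T₀ : Set L) ∪ {∑ j, ((d j).val : L) * y j}))) :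
    (p ^ n * (p - 1) * (p * ((p ^ n).factorial * C))) • ξ ∈ cst m k L := by
  have hchL : CharP L p := charP_of_injective_ringHom (algebraMap k L).injective p
  obtain ⟨hfd, hgal⟩ := D3_galois hy hgen T₀ le_rfl
  obtain ⟨τ, hτ, hτm, hone⟩ := D3_coords hy hgen T₀ le_rfl
  obtain ⟨E₁, hE₁⟩ : ∃ E₁, E₁ = (p ^ n).factorial * C := ⟨_, rfl⟩
  rw [← hE₁]
  obtain ⟨K, hK⟩ : ∃ K : (L ≃ₐ[T₀] L) → KM m L, ∀ g, K g = KM.map m (g : L →+* L) ξ :=
    ⟨_, fun _ => rfl⟩
  obtain ⟨S, hS⟩ : ∃ S : (Fin n → ZMod p) → KM m L, ∀ d, S d =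
      ∑ g ∈ univ.filter (fun g => ∑ j, d j * τ g j = 0), K g := ⟨_, fun _ => rfl⟩
  have hτ1 : τ 1 = 0 := by
    have h1 := hτm 1 1
    rw [mul_one] at h1
    exact left_eq_add.mp h1
  have hS0 : ∑ g, K g = S 0 := by
    rw [hS]
    refine Finset.sum_congr ?_ fun _ _ => rfl
    rw [eq_comm, Finset.filter_eq_self]
    intro g _
    simp
  have hkill0 : E₁ • S 0 ∈ cst m k L := by
    have hfin := D3_finrank hy hgen T₀ le_rfl
    have h1 := galSum_killsC T₀ hC0 hξ
    rw [← Finset.sum_congr rfl fun g _ => hK g, hS0] at h1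
    refine smul_mem_cst_of_dvd ?_ h1
    rw [hE₁, mul_comm]
    exact mul_dvd_mul (Nat.dvd_factorial Module.finrank_pos hfin) dvd_rfl
  have hmem : ∀ d, (p * E₁) • S d ∈ cst m k L := by
    intro d
    by_cases hd0 : d = 0
    · rw [hd0]
      exact smul_mem_cst_of_dvd (Dvd.intro_left _ rfl) hkill0
    by_cases hd : ∀ h ∈ P, ∑ j, d j * h j = 0
    · have hkd := hC d hd0 hd
      obtain ⟨T, hT⟩ : ∃ T : IntermediateField k L, T = IntermediateField.adjoin k
        ((T₀ : Set L) ∪ {∑ j, ((d j).val : L) * y j}) := ⟨_, rfl⟩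
      rw [← hT] at hkd
      have hle : T₀ ≤ T := by
        intro z hz
        rw [hT]
        exact IntermediateField.subset_adjoin k _ (Or.inl hz)
      obtain ⟨hfd', hgal'⟩ := D3_galois hy hgen T hle
      have hfin := D3_finrank hy hgen T hle
      have h1 := galSum_killsC T hkd hξ
      rw [D3_inner (T₀ := T₀) {∑ j, ((d j).val : L) * y j} ξ T hT] at h1
      have h2 : S d = ∑ g ∈ univ.filter (fun g : L ≃ₐ[T₀] L =>
          ∀ z ∈ ({∑ j, ((d j).val : L) * y j} : Set L), g z = z),
          KM.map m (g : L →+* L) ξ := by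
        rw [hS]
        refine Finset.sum_congr (Finset.filter_congr fun g _ => ?_) fun g _ => hK g
        have e2 := D3_fix_sum (g := (g : L →+* L)) (t := τ g) (hτ g) d
        constructor
        · rintro h4 z rfl
          exact e2.2 h4
        · intro h3
          exact e2.1 (h3 _ rfl)
      rw [← h2] at h1
      refine smul_mem_cst_of_dvd ?_ h1
      rw [hE₁, mul_comm]
      refine Dvd.dvd.mul_left ?_ _
      exact mul_dvd_mul (Nat.dvd_factorial Module.finrank_pos hfin) dvd_rfl
    · rw [not_forall] at hd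
      obtain ⟨h', hd⟩ := hd
      rw [Classical.not_imp] at hd
      obtain ⟨hh', hne⟩ := hd
      obtain ⟨f, hf1, hf3, hf4⟩ := hP h' hh'
      obtain ⟨g₀, hg₀⟩ := D3_exists (T := T₀) hf1
      have hg₀f : (g₀ : L →+* L) = f := RingHom.ext hg₀
      have hτ0 : τ g₀ = h' := by
        funext j
        refine D3_cast_inj (L := L) (p := p) ?_
        have h1 := hτ g₀ j
        rw [hg₀, hf3] at h1
        exact (add_left_cancel h1).symm
      have hKg : ∀ g, K (g * g₀) = K g := by
        intro g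
        rw [hK, hK]
        have h5 : ((g * g₀ : L ≃ₐ[T₀] L) : L →+* L) = (g : L →+* L).comp (g₀ : L →+* L) := rfl
        rw [h5, ← KM.map_map, hg₀f, hf4]
      have hv : ∀ g g', ∑ j, d j * τ (g * g') j = ∑ j, d j * τ g j + ∑ j, d j * τ g' j := by
        intro g g'
        rw [hτm, ← Finset.sum_add_distrib]
        exact Finset.sum_congr rfl fun j _ => by rw [Pi.add_apply, mul_add]
      have h1 := D3_coset K g₀ hKg (fun _ => True) (fun _ => Iff.rfl)
        (fun g => ∑ j, d j * τ g j) hv (by rw [hτ0]; exact hne)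
      have h2 : ∑ g ∈ univ.filter (fun _ : L ≃ₐ[T₀] L => True), K g = S 0 := by
        rw [← hS0, Finset.filter_true]
      have h3 : ∑ g ∈ univ.filter (fun g : L ≃ₐ[T₀] L => True ∧ ∑ j, d j * τ g j = 0), K g =
          S d := by
        rw [hS]
        exact Finset.sum_congr (Finset.filter_congr fun g _ => by rw [true_and]) fun _ _ => rfl
      rw [h2, h3] at h1
      rw [h1, smul_smul] at hkill0
      rw [mul_comm p]
      exact hkill0
  have hid := D3_identity K τ 1 hτ1 hone
  have hK1 : K 1 = ξ := by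
    rw [hK]
    have h5 : ((1 : L ≃ₐ[T₀] L) : L →+* L) = RingHom.id L := rfl
    rw [h5, KM.map_id]
    rfl
  simp only [hK1, hS0, ← hS] at hid
  have h2 := congrArg (fun z => (p * E₁) • z) hid
  beta_reduce at h2
  rw [smul_add] at h2
  have h3 : (p * E₁) • (p ^ n * (p - 1)) • ξ =
      (p * E₁) • p • ∑ d : Fin n → ZMod p, S d - (p * E₁) • p ^ n • S 0 := by
    rw [← h2]
    abel
  rw [mul_comm, mul_smul, h3]
  refine sub_mem ?_ ?_
  · rw [smul_comm, Finset.smul_sum]
    exact nsmul_mem (sum_mem fun d _ => hmem d) _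
  · rw [smul_comm]
    exact nsmul_mem (hmem 0) _

end UnrA.Fer
end

section

/-!
# Reduction to the subfields attached to the fixed characters
-/

namespace UnrA.Fer

open UnrG

universe u v w z

open Polynomial Finset
open scoped Classical

variable {m : UFun.{u, z}}

/-- The number of solutions of a linear equation over a prime field. -/
private lemma D4_count {q : ℕ} [Fact q.Prime] {n : ℕ} (a : Fin n → ZMod q) :
    q * (univ.filter fun c : Fin n → ZMod q => ∑ j, c j * a j = 0).card =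
      q ^ n * if a = 0 then q else 1 := by
  have hcard : Fintype.card (Fin n → ZMod q) = q ^ n := by
    rw [Fintype.card_fun, ZMod.card, Fintype.card_fin]
  split_ifs with h0
  · subst h0
    rw [mul_comm]
    congr 1
    rw [← hcard, ← Finset.card_univ]
    congr 1
    rw [Finset.filter_eq_self]
    intro c _
    simp
  · obtain ⟨j, hj⟩ := Function.ne_iff.mp h0
    rw [Pi.zero_apply] at hj
    have hfib : ∀ s : ZMod q, (univ.filter fun c : Fin n → ZMod q => ∑ j, c j * a j = s).card =
        (univ.filter fun c : Fin n → ZMod q => ∑ j, c j * a j = 0).card := by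
      intro s
      have hsh : ∀ (c : Fin n → ZMod q) (t : ZMod q),
          ∑ i, (c + Pi.single j (t / a j) : Fin n → ZMod q) i * a i = ∑ i, c i * a i + t := by
        intro c t
        simp only [Pi.add_apply, add_mul, Finset.sum_add_distrib]
        congr 1
        rw [Finset.sum_eq_single j]
        · rw [Pi.single_eq_same, div_mul_cancel₀ _ hj]
        · intro i _ hi
          rw [Pi.single_eq_of_ne hi, zero_mul]
        · intro hj'
          exact absurd (Finset.mem_univ j) hj'
      refine Finset.card_bij' (fun c _ => c + Pi.single j (-s / a j))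
        (fun c _ => c + Pi.single j (s / a j)) ?_ ?_ ?_ ?_
      · intro c hc
        rw [mem_filter] at hc ⊢
        refine ⟨mem_univ _, ?_⟩
        rw [hsh, hc.2]
        ring
      · intro c hc
        rw [mem_filter] at hc ⊢
        refine ⟨mem_univ _, ?_⟩
        rw [hsh, hc.2]
        ring
      · intro c _
        rw [add_assoc, ← Pi.single_add, neg_div, neg_add_cancel, Pi.single_zero, add_zero]
      · intro c _
        rw [add_assoc, ← Pi.single_add, neg_div, add_neg_cancel, Pi.single_zero, add_zero]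
    have h1 := Finset.card_eq_sum_card_fiberwise (f := fun c : Fin n → ZMod q => ∑ j, c j * a j)
      (s := univ) (t := univ) (fun _ _ => Finset.mem_univ _)
    rw [Finset.sum_congr rfl fun s _ => hfib s, Finset.sum_const, Finset.card_univ,
      Finset.card_univ, ZMod.card, hcard, smul_eq_mul] at h1
    rw [mul_one]
    exact h1.symm

/-- The automorphisms over a larger subfield are those fixing the additional generators. -/
private lemma D4_inner {k L : Type u} [Field k] [Field L] [Algebra k L]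
    {T₀ : IntermediateField k L} (S : Set L) (ξ : KM m L)
    [Fintype (L ≃ₐ[T₀] L)] (T : IntermediateField k L)
    (hT : T = IntermediateField.adjoin k ((T₀ : Set L) ∪ S)) [Fintype (L ≃ₐ[T] L)] :
    ∑ g : L ≃ₐ[T] L, KM.map m (g : L →+* L) ξ =
      ∑ g ∈ univ.filter (fun g : L ≃ₐ[T₀] L => ∀ z ∈ S, g z = z), KM.map m (g : L →+* L) ξ := by
  have hle : T₀ ≤ T := by
    intro z hz
    rw [hT]
    exact IntermediateField.subset_adjoin k _ (Or.inl hz)
  have hST : ∀ z ∈ S, z ∈ T := by
    intro z hz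
    rw [hT]
    exact IntermediateField.subset_adjoin k _ (Or.inr hz)
  let _ : Algebra T₀ T := (IntermediateField.inclusion hle).toRingHom.toAlgebra
  have : IsScalarTower T₀ T L := IsScalarTower.of_algebraMap_eq fun x => rfl
  refine Finset.sum_bij (fun g _ => g.restrictScalars T₀) ?_ ?_ ?_ ?_
  · intro g _
    rw [mem_filter]
    exact ⟨mem_univ _, fun z hz => g.commutes ⟨z, hST z hz⟩⟩
  · intro g _ g' _ h3
    refine AlgEquiv.ext fun x => ?_
    exact DFunLike.congr_fun h3 x
  · intro g hg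
    rw [mem_filter] at hg
    obtain ⟨R, hR⟩ : ∃ R : IntermediateField k L, ∀ x, x ∈ R ↔ g x = x :=
      ⟨{ carrier := {x | g x = x}
         mul_mem' := fun {x y} hx hy => by
           change g (x * y) = x * y
           rw [map_mul, show g x = x from hx, show g y = y from hy]
         add_mem' := fun {x y} hx hy => by
           change g (x + y) = x + y
           rw [map_add, show g x = x from hx, show g y = y from hy]
         algebraMap_mem' := fun c => g.commutes (algebraMap k T₀ c)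
         inv_mem' := fun x hx => by
           change g x⁻¹ = x⁻¹
           rw [map_inv₀, show g x = x from hx] }, fun x => Iff.rfl⟩
    have hR' : T ≤ R := by
      rw [hT, IntermediateField.adjoin_le_iff]
      rintro z (hz | hz)
      · exact (hR z).2 (g.commutes ⟨z, hz⟩)
      · exact (hR z).2 (hg.2 z hz)
    refine ⟨{ (g : L ≃+* L) with commutes' := fun x => (hR _).mp (hR' x.2) }, mem_univ _, ?_⟩
    exact AlgEquiv.ext fun x => rfl
  · intro g _
    rfl

private lemma D4_exists {k L : Type u} [Field k] [Field L] [Algebra k L]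
    {T : IntermediateField k L} [FiniteDimensional T L] {f : L →+* L}
    (hf : ∀ z ∈ T, f z = z) : ∃ g₀ : L ≃ₐ[T] L, ∀ z, g₀ z = f z := by
  obtain ⟨φ, hφ⟩ : ∃ φ : L →ₐ[T] L, ∀ z, φ z = f z :=
    ⟨{ f with commutes' := fun z => hf _ z.2 }, fun z => rfl⟩
  exact ⟨AlgEquiv.ofBijective φ (Algebra.IsAlgebraic.algHom_bijective φ), fun z => hφ z⟩

/-- The sum of a function invariant under an element with nonzero value of a character. -/
private lemma D4_coset {G A : Type*} [Group G] [Fintype G] [AddCommGroup A] {q : ℕ}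
    [Fact q.Prime] (K : G → A) (f : G) (hK : ∀ g, K (g * f) = K g) (R : G → Prop) [DecidablePred R]
    (hR : ∀ g, R (g * f) ↔ R g) (χ : G → ZMod q) (hχ : ∀ g g', χ (g * g') = χ g + χ g')
    (hf : χ f ≠ 0) :
    ∑ g ∈ univ.filter R, K g = q • ∑ g ∈ univ.filter (fun g => R g ∧ χ g = 0), K g := by
  have hKi : ∀ (i : ℕ) g, K (g * f ^ i) = K g := by
    intro i
    induction i with
    | zero =>
      intro g
      rw [pow_zero, mul_one]
    | succ i ih =>
      intro g
      rw [pow_succ, ← mul_assoc, hK, ih]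
  have hRi : ∀ (i : ℕ) g, R (g * f ^ i) ↔ R g := by
    intro i
    induction i with
    | zero =>
      intro g
      rw [pow_zero, mul_one]
    | succ i ih =>
      intro g
      rw [pow_succ, ← mul_assoc, hR, ih]
  have hχi : ∀ (i : ℕ) g, χ (g * f ^ i) = χ g + i * χ f := by
    intro i
    induction i with
    | zero =>
      intro g
      rw [pow_zero, mul_one, Nat.cast_zero, zero_mul, add_zero]
    | succ i ih =>
      intro g
      rw [pow_succ, ← mul_assoc, hχ, ih, Nat.cast_succ]
      ring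
  have hfib : ∀ s : ZMod q, ∑ g ∈ univ.filter (fun g => R g ∧ χ g = s), K g =
      ∑ g ∈ univ.filter (fun g => R g ∧ χ g = 0), K g := by
    intro s
    obtain ⟨i, hi⟩ : ∃ i : ℕ, (i : ZMod q) * χ f = -s :=
      ⟨(-s / χ f).val, by rw [ZMod.natCast_zmod_val, div_mul_cancel₀ _ hf]⟩
    refine Finset.sum_bij (fun g _ => g * f ^ i) ?_ ?_ ?_ ?_
    · intro g hg
      rw [mem_filter] at hg ⊢
      refine ⟨mem_univ _, (hRi i g).2 hg.2.1, ?_⟩
      rw [hχi, hg.2.2, hi, add_neg_cancel]
    · intro g _ g' _ h3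
      exact mul_right_cancel h3
    · intro g hg
      rw [mem_filter] at hg
      refine ⟨g * (f ^ i)⁻¹, ?_, by rw [inv_mul_cancel_right]⟩
      have h1 : g * (f ^ i)⁻¹ * f ^ i = g := inv_mul_cancel_right g (f ^ i)
      rw [mem_filter]
      refine ⟨mem_univ _, ?_, ?_⟩
      · rw [← hRi i, h1]
        exact hg.2.1
      · have h2 := hχi i (g * (f ^ i)⁻¹)
        rw [h1, hg.2.2, hi] at h2
        have h3 : χ (g * (f ^ i)⁻¹) = s := by linear_combination -h2
        exact h3
    · intro g _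
      rw [hKi]
  have h1 : ∑ s : ZMod q, ∑ g ∈ univ.filter (fun g => R g ∧ χ g = s), K g =
      ∑ g ∈ univ.filter R, K g := by
    rw [← Finset.sum_fiberwise (univ.filter R) χ K]
    refine Finset.sum_congr rfl fun s _ => ?_
    rw [Finset.filter_filter]
  rw [← h1, Finset.sum_congr rfl fun s _ => hfib s, Finset.sum_const, Finset.card_univ, ZMod.card]

/-- The identity in the group ring. -/
private lemma D4_identity {G A : Type*} [Fintype G] [AddCommGroup A] {N p : ℕ} [Fact N.Prime]
    [Fact p.Prime] {n : ℕ} (K : G → A) (α : G → Fin n → ZMod N) (τ : G → Fin n → ZMod p)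
    (e : G) (h0 : α e = 0) (h0' : τ e = 0) (h1 : ∀ g, α g = 0 → τ g = 0 → g = e) :
    (N ^ n * p ^ n * ((N - 1) * (p - 1))) • K e +
      (p ^ n * N) • ∑ c : Fin n → ZMod N,
        ∑ g ∈ univ.filter (fun g => ∑ j, c j * α g j = 0), K g +
      (N ^ n * p) • ∑ d : Fin n → ZMod p,
        ∑ g ∈ univ.filter (fun g => ∑ j, d j * τ g j = 0), K g =
    (N * p) • ∑ c : Fin n → ZMod N, ∑ d : Fin n → ZMod p,
        ∑ g ∈ univ.filter (fun g => ∑ j, c j * α g j = 0 ∧ ∑ j, d j * τ g j = 0), K g +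
      (N ^ n * p ^ n) • ∑ g, K g := by
  have hA : ∑ c : Fin n → ZMod N, ∑ g ∈ univ.filter (fun g => ∑ j, c j * α g j = 0), K g =
      ∑ g, (univ.filter fun c : Fin n → ZMod N => ∑ j, c j * α g j = 0).card • K g := by
    rw [Finset.sum_comm' (t' := univ)
      (s' := fun g => univ.filter fun c : Fin n → ZMod N => ∑ j, c j * α g j = 0)]
    · exact Finset.sum_congr rfl fun g _ => by rw [Finset.sum_const]
    · intro c g
      simp only [mem_filter, mem_univ, true_and, and_true]
  have hB : ∑ d : Fin n → ZMod p, ∑ g ∈ univ.filter (fun g => ∑ j, d j * τ g j = 0), K g =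
      ∑ g, (univ.filter fun d : Fin n → ZMod p => ∑ j, d j * τ g j = 0).card • K g := by
    rw [Finset.sum_comm' (t' := univ)
      (s' := fun g => univ.filter fun d : Fin n → ZMod p => ∑ j, d j * τ g j = 0)]
    · exact Finset.sum_congr rfl fun g _ => by rw [Finset.sum_const]
    · intro c g
      simp only [mem_filter, mem_univ, true_and, and_true]
  have hAB : ∑ c : Fin n → ZMod N, ∑ d : Fin n → ZMod p,
        ∑ g ∈ univ.filter (fun g => ∑ j, c j * α g j = 0 ∧ ∑ j, d j * τ g j = 0), K g =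
      ∑ g, ((univ.filter fun c : Fin n → ZMod N => ∑ j, c j * α g j = 0).card *
        (univ.filter fun d : Fin n → ZMod p => ∑ j, d j * τ g j = 0).card) • K g := by
    rw [← Finset.sum_product']
    rw [Finset.sum_comm' (t' := univ)
      (s' := fun g => (univ.filter fun c : Fin n → ZMod N => ∑ j, c j * α g j = 0) ×ˢ
        (univ.filter fun d : Fin n → ZMod p => ∑ j, d j * τ g j = 0))]
    · exact Finset.sum_congr rfl fun g _ => by rw [Finset.sum_const, Finset.card_product]
    · intro c g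
      simp only [mem_filter, mem_univ, true_and, and_true, mem_product]
  have hE : K e = ∑ g, (if α g = 0 ∧ τ g = 0 then 1 else 0) • K g := by
    rw [Finset.sum_eq_single e]
    · rw [if_pos ⟨h0, h0'⟩, one_smul]
    · intro g _ hg
      rw [if_neg fun h => hg (h1 g h.1 h.2), zero_smul]
    · intro h
      exact absurd (mem_univ _) h
  rw [hA, hB, hAB]
  conv_lhs => rw [hE]
  rw [Finset.smul_sum, Finset.smul_sum, Finset.smul_sum, Finset.smul_sum, Finset.smul_sum,
    ← Finset.sum_add_distrib, ← Finset.sum_add_distrib, ← Finset.sum_add_distrib]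
  refine Finset.sum_congr rfl fun g _ => ?_
  rw [smul_smul, smul_smul, smul_smul, smul_smul, ← add_smul, ← add_smul, ← add_smul]
  congr 1
  have hcA := D4_count (α g)
  have hcB := D4_count (τ g)
  have hN1 : 1 ≤ N := (Fact.out : N.Prime).one_le
  have hp1 : 1 ≤ p := (Fact.out : p.Prime).one_le
  obtain ⟨N', hN'⟩ : ∃ N', N = N' + 1 := ⟨N - 1, by omega⟩
  obtain ⟨p', hp'⟩ : ∃ p', p = p' + 1 := ⟨p - 1, by omega⟩
  have e1 : N - 1 = N' := by omega
  have e2 : p - 1 = p' := by omega
  obtain ⟨a, ha⟩ : ∃ a, a = (univ.filter fun c : Fin n → ZMod N => ∑ j, c j * α g j = 0).card :=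
    ⟨_, rfl⟩
  obtain ⟨b, hb⟩ : ∃ b, b = (univ.filter fun d : Fin n → ZMod p => ∑ j, d j * τ g j = 0).card :=
    ⟨_, rfl⟩
  rw [← ha] at hcA
  rw [← hb] at hcB
  rw [← ha, ← hb, e1, e2]
  have e3 : p ^ n * N * a = p ^ n * (N * a) := by ring
  have e4 : N ^ n * p * b = N ^ n * (p * b) := by ring
  have e5 : N * p * (a * b) = (N * a) * (p * b) := by ring
  rw [e3, e4, e5, hcA, hcB]
  by_cases ca : α g = 0
  · by_cases cb : τ g = 0
    · rw [if_pos ⟨ca, cb⟩, if_pos ca, if_pos cb]
      have h2 : N' * p' + N + p = N * p + 1 := by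
        rw [hN', hp']
        ring
      calc N ^ n * p ^ n * (N' * p') * 1 + p ^ n * (N ^ n * N) + N ^ n * (p ^ n * p) =
          N ^ n * p ^ n * (N' * p' + N + p) := by ring
        _ = N ^ n * p ^ n * (N * p + 1) := by rw [h2]
        _ = _ := by ring
    · rw [if_neg fun h => cb h.2, if_pos ca, if_neg cb]
      ring
  · by_cases cb : τ g = 0
    · rw [if_neg fun h => ca h.1, if_neg ca, if_pos cb]
      ring
    · rw [if_neg fun h => ca h.1, if_neg ca, if_neg cb]
      ring

private lemma D4_fix_prod {L : Type u} [Field L] {N n : ℕ} [Fact N.Prime] {ζ : L}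
    (hζ : IsPrimitiveRoot ζ N) {x : Fin n → L} (hx0 : ∀ j, x j ≠ 0) {g : L →+* L}
    {a : Fin n → ZMod N} (h1 : ∀ j, g (x j) = ζ ^ (a j).val * x j) (c : Fin n → ZMod N) :
    g (∏ j, x j ^ (c j).val) = ∏ j, x j ^ (c j).val ↔ ∑ j, c j * a j = 0 := by
  have hne : ∏ j, x j ^ (c j).val ≠ 0 :=
    Finset.prod_ne_zero_iff.mpr fun j _ => pow_ne_zero _ (hx0 j)
  have hg : g (∏ j, x j ^ (c j).val) =
      ζ ^ (∑ j, (c j).val * (a j).val) * ∏ j, x j ^ (c j).val := by
    rw [map_prod, ← Finset.prod_pow_eq_pow_sum, ← Finset.prod_mul_distrib]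
    refine Finset.prod_congr rfl fun j _ => ?_
    rw [map_pow, h1, mul_pow, ← pow_mul, mul_comm (a j).val]
  rw [hg]
  have h3 : ζ ^ (∑ j, (c j).val * (a j).val) * ∏ j, x j ^ (c j).val = ∏ j, x j ^ (c j).val ↔
      ζ ^ (∑ j, (c j).val * (a j).val) = 1 := by
    constructor
    · intro h4
      exact mul_right_cancel₀ hne (h4.trans (one_mul _).symm)
    · intro h4
      rw [h4, one_mul]
  rw [h3, hζ.pow_eq_one_iff_dvd, ← ZMod.natCast_eq_zero_iff]
  push_cast
  simp only [ZMod.natCast_zmod_val]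

private lemma D4_fix_sum {L : Type u} [Field L] {p n : ℕ} [Fact p.Prime] [CharP L p]
    {y : Fin n → L} {g : L →+* L} {t : Fin n → ZMod p}
    (h1 : ∀ j, g (y j) = y j + ((t j).val : L)) (d : Fin n → ZMod p) :
    g (∑ j, ((d j).val : L) * y j) = ∑ j, ((d j).val : L) * y j ↔ ∑ j, d j * t j = 0 := by
  have hg : g (∑ j, ((d j).val : L) * y j) =
      ∑ j, ((d j).val : L) * y j + ((∑ j, (d j).val * (t j).val : ℕ) : L) := by
    rw [map_sum]
    push_cast
    rw [← Finset.sum_add_distrib]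
    refine Finset.sum_congr rfl fun j _ => ?_
    rw [map_mul, map_natCast, h1, mul_add]
  rw [hg]
  have h3 : ∑ j, ((d j).val : L) * y j + ((∑ j, (d j).val * (t j).val : ℕ) : L) =
      ∑ j, ((d j).val : L) * y j ↔ ((∑ j, (d j).val * (t j).val : ℕ) : L) = 0 := by
    constructor
    · intro h4
      exact left_eq_add.mp h4.symm
    · intro h4
      rw [h4, add_zero]
  rw [h3, CharP.cast_eq_zero_iff L p, ← ZMod.natCast_eq_zero_iff]
  push_cast
  simp only [ZMod.natCast_zmod_val]

private lemma D4_pow_inj {L : Type u} [Field L] {N : ℕ} [Fact N.Prime] {ζ : L}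
    (hζ : IsPrimitiveRoot ζ N) {x : L} (hx : x ≠ 0) {a c : ZMod N}
    (h : ζ ^ a.val * x = ζ ^ c.val * x) : a = c := by
  have h1 := mul_right_cancel₀ hx h
  have h2 := hζ.pow_inj (ZMod.val_lt a) (ZMod.val_lt c) h1
  exact ZMod.val_injective N h2

private lemma D4_cast_inj {L : Type u} [Field L] {p : ℕ} [Fact p.Prime] [CharP L p] {a c : ZMod p}
    (h : ((a.val : ℕ) : L) = (c.val : L)) : a = c := by
  have h1 := (CharP.natCast_eq_natCast L p).1 h
  have h2 := (ZMod.natCast_eq_natCast_iff _ _ p).2 h1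
  rwa [ZMod.natCast_zmod_val, ZMod.natCast_zmod_val] at h2

/-- Reduction to the subfields attached to the characters fixed by `P`. -/
theorem as_reduced_fixed {p N : ℕ} [Fact p.Prime] (hN : N.Prime) (hpN : p ≠ N) {k L : Type u}
    [Field k] [Field L] [CharP k p] [Algebra k L] {n : ℕ} (T₀ : IntermediateField k L)
    {x y : Fin n → L} (hx0 : ∀ j, x j ≠ 0) (hx : ∀ j, x j ^ N ∈ T₀)
    (hy : ∀ j, y j ^ p - y j ∈ T₀)
    (hgen : IntermediateField.adjoin k ((T₀ : Set L) ∪ Set.range x ∪ Set.range y) = ⊤) {ζ : k}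
    (hζ : IsPrimitiveRoot ζ N) {ξ : KM m L} (hξ : Unr ξ) {C : ℕ}
    (P : Set ((Fin n → ZMod N) × (Fin n → ZMod p)))
    (hP : ∀ h ∈ P, ∃ f : L →+* L, (∀ z ∈ T₀, f z = z) ∧
      (∀ j, f (x j) = algebraMap k L ζ ^ (h.1 j).val * x j) ∧
      (∀ j, f (y j) = y j + ((h.2 j).val : L)) ∧ KM.map m f ξ = ξ)
    (hC : ∀ (c : Fin n → ZMod N) (d : Fin n → ZMod p),
      (∀ h ∈ P, ∑ j, c j * h.1 j = 0 ∧ ∑ j, d j * h.2 j = 0) →
        KillsC m C k (asT T₀ x y c d)) :
    ((N * p) ^ n * ((N - 1) * (p - 1)) * (N * p * (N * p) * (((N * p) ^ n).factorial * C))) • ξ ∈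
      cst m k L := by
  have : Fact N.Prime := ⟨hN⟩
  have hp' : p.Prime := Fact.out
  have hchL : CharP L p := charP_of_injective_ringHom (algebraMap k L).injective p
  have hζL : IsPrimitiveRoot (algebraMap k L ζ) N :=
    hζ.map_of_injective (algebraMap k L).injective
  obtain ⟨hfd, hgal, -⟩ := as_galois hN hpN hx0 hx hy hgen hζ T₀ le_rfl
  obtain ⟨α, τ, hα, hτ, hαm, hτm, hone⟩ := as_coords hN hpN hx0 hx hy hgen hζ
  obtain ⟨E₁, hE₁⟩ : ∃ E₁, E₁ = ((N * p) ^ n).factorial * C := ⟨_, rfl⟩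
  rw [← hE₁]
  obtain ⟨K, hK⟩ : ∃ K : (L ≃ₐ[T₀] L) → KM m L, ∀ g, K g = KM.map m (g : L →+* L) ξ :=
    ⟨_, fun _ => rfl⟩
  have hle : ∀ (c : Fin n → ZMod N) (d : Fin n → ZMod p), T₀ ≤ asT T₀ x y c d := by
    intro c d z hz
    exact IntermediateField.subset_adjoin k _ (Or.inl hz)
  obtain ⟨S, hS⟩ : ∃ S : (Fin n → ZMod N) → (Fin n → ZMod p) → KM m L, ∀ c d, S c d =
      ∑ g ∈ univ.filter (fun g => ∑ j, c j * α g j = 0 ∧ ∑ j, d j * τ g j = 0), K g :=
    ⟨_, fun _ _ => rfl⟩
  -- the sums are sums of conjugates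
  have hkill : ∀ c d, KillsC m C k (asT T₀ x y c d) → E₁ • S c d ∈ cst m k L := by
    intro c d hcd
    obtain ⟨hfd', hgal', hfin⟩ := as_galois hN hpN hx0 hx hy hgen hζ (asT T₀ x y c d) (hle c d)
    have h1 := galSum_killsC (asT T₀ x y c d) hcd hξ
    rw [D4_inner (T₀ := T₀) {∏ j, x j ^ (c j).val, ∑ j, ((d j).val : L) * y j} ξ
      (asT T₀ x y c d) rfl] at h1
    have h2 : S c d = ∑ g ∈ univ.filter (fun g : L ≃ₐ[T₀] L =>
        ∀ z ∈ ({∏ j, x j ^ (c j).val, ∑ j, ((d j).val : L) * y j} : Set L), g z = z),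
        KM.map m (g : L →+* L) ξ := by
      rw [hS]
      refine Finset.sum_congr (Finset.filter_congr fun g _ => ?_) fun g _ => hK g
      have e1 := D4_fix_prod hζL hx0 (g := (g : L →+* L)) (a := α g) (hα g) c
      have e2 := D4_fix_sum (g := (g : L →+* L)) (t := τ g) (hτ g) d
      constructor
      · rintro ⟨h3, h4⟩ z (rfl | rfl)
        · exact e1.2 h3
        · exact e2.2 h4
      · intro h3
        exact ⟨e1.1 (h3 _ (Or.inl rfl)), e2.1 (h3 _ (Or.inr rfl))⟩
    rw [← h2] at h1
    refine smul_mem_cst_of_dvd ?_ h1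
    rw [hE₁, mul_comm]
    exact mul_dvd_mul (Nat.dvd_factorial Module.finrank_pos hfin) dvd_rfl
  -- `S 0 d = N S c d` if some element of `P` moves the character `c`
  have hone1 : ∀ c d, (∃ h' ∈ P, ∑ j, c j * h'.1 j ≠ 0) → S 0 d = N • S c d := by
    rintro c d ⟨h', hh', hne⟩
    obtain ⟨f, hf1, hf2, hf3, hf4⟩ := hP h' hh'
    obtain ⟨g₀, hg₀⟩ := D4_exists (T := T₀) hf1
    have hg₀f : (g₀ : L →+* L) = f := RingHom.ext hg₀
    have hα0 : α g₀ = h'.1 := by
      funext j
      refine D4_pow_inj hζL (hx0 j) ?_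
      rw [← hα, hg₀, hf2]
    have hτ0 : τ g₀ = h'.2 := by
      funext j
      refine D4_cast_inj (L := L) (p := p) ?_
      have h1 := hτ g₀ j
      rw [hg₀, hf3] at h1
      exact (add_left_cancel h1).symm
    have hKg : ∀ g, K (g * g₀) = K g := by
      intro g
      rw [hK, hK]
      have h5 : ((g * g₀ : L ≃ₐ[T₀] L) : L →+* L) = (g : L →+* L).comp (g₀ : L →+* L) := rfl
      rw [h5, ← KM.map_map, hg₀f, hf4]
    have hKi : ∀ (i : ℕ) g, K (g * g₀ ^ i) = K g := by
      intro i
      induction i with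
      | zero =>
        intro g
        rw [pow_zero, mul_one]
      | succ i ih =>
        intro g
        rw [pow_succ, ← mul_assoc, hKg, ih]
    have hα1 : α 1 = 0 := by
      have h1 := hαm 1 1
      rw [mul_one] at h1
      exact left_eq_add.mp h1
    have hτ1 : τ 1 = 0 := by
      have h1 := hτm 1 1
      rw [mul_one] at h1
      exact left_eq_add.mp h1
    have hαi : ∀ i : ℕ, α (g₀ ^ i) = i • h'.1 := by
      intro i
      induction i with
      | zero => rw [pow_zero, hα1, zero_smul]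
      | succ i ih => rw [pow_succ, hαm, ih, hα0, succ_nsmul]
    have hτi : ∀ i : ℕ, τ (g₀ ^ i) = i • h'.2 := by
      intro i
      induction i with
      | zero => rw [pow_zero, hτ1, zero_smul]
      | succ i ih => rw [pow_succ, hτm, ih, hτ0, succ_nsmul]
    have hu : ∀ g g', ∑ j, c j * α (g * g') j = ∑ j, c j * α g j + ∑ j, c j * α g' j := by
      intro g g'
      rw [hαm, ← Finset.sum_add_distrib]
      exact Finset.sum_congr rfl fun j _ => by rw [Pi.add_apply, mul_add]
    have hv : ∀ g g', ∑ j, d j * τ (g * g') j = ∑ j, d j * τ g j + ∑ j, d j * τ g' j := by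
      intro g g'
      rw [hτm, ← Finset.sum_add_distrib]
      exact Finset.sum_congr rfl fun j _ => by rw [Pi.add_apply, mul_add]
    have hu1 : ∑ j, c j * α (g₀ ^ p) j = p * ∑ j, c j * h'.1 j := by
      rw [hαi, Finset.mul_sum]
      refine Finset.sum_congr rfl fun j _ => ?_
      rw [Pi.smul_apply, nsmul_eq_mul]
      ring
    have hv1 : ∑ j, d j * τ (g₀ ^ p) j = 0 := by
      rw [hτi]
      refine Finset.sum_eq_zero fun j _ => ?_
      rw [Pi.smul_apply, nsmul_eq_mul, CharP.cast_eq_zero, zero_mul, mul_zero]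
    have hpne : (p : ZMod N) ≠ 0 := by
      intro h0
      rw [ZMod.natCast_eq_zero_iff] at h0
      exact hpN ((Nat.prime_dvd_prime_iff_eq hN hp').1 h0).symm
    have h1 := D4_coset K (g₀ ^ p) (hKi p) (fun g => ∑ j, d j * τ g j = 0)
      (fun g => by rw [hv, hv1, add_zero]) (fun g => ∑ j, c j * α g j) hu
      (by rw [hu1]; exact mul_ne_zero hpne hne)
    have h2 : S 0 d = ∑ g ∈ univ.filter (fun g => ∑ j, d j * τ g j = 0), K g := by
      rw [hS]
      refine Finset.sum_congr (Finset.filter_congr fun g _ => ?_) fun _ _ => rfl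
      simp
    have h3 : S c d = ∑ g ∈ univ.filter (fun g => ∑ j, d j * τ g j = 0 ∧
        ∑ j, c j * α g j = 0), K g := by
      rw [hS]
      exact Finset.sum_congr (Finset.filter_congr fun g _ => and_comm) fun _ _ => rfl
    rw [← h2, ← h3] at h1
    exact h1
  -- `S c 0 = p S c d` if some element of `P` moves the character `d`
  have hone2 : ∀ c d, (∃ h' ∈ P, ∑ j, d j * h'.2 j ≠ 0) → S c 0 = p • S c d := by
    rintro c d ⟨h', hh', hne⟩
    obtain ⟨f, hf1, hf2, hf3, hf4⟩ := hP h' hh'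
    obtain ⟨g₀, hg₀⟩ := D4_exists (T := T₀) hf1
    have hg₀f : (g₀ : L →+* L) = f := RingHom.ext hg₀
    have hα0 : α g₀ = h'.1 := by
      funext j
      refine D4_pow_inj hζL (hx0 j) ?_
      rw [← hα, hg₀, hf2]
    have hτ0 : τ g₀ = h'.2 := by
      funext j
      refine D4_cast_inj (L := L) (p := p) ?_
      have h1 := hτ g₀ j
      rw [hg₀, hf3] at h1
      exact (add_left_cancel h1).symm
    have hKg : ∀ g, K (g * g₀) = K g := by
      intro g
      rw [hK, hK]
      have h5 : ((g * g₀ : L ≃ₐ[T₀] L) : L →+* L) = (g : L →+* L).comp (g₀ : L →+* L) := rfl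
      rw [h5, ← KM.map_map, hg₀f, hf4]
    have hKi : ∀ (i : ℕ) g, K (g * g₀ ^ i) = K g := by
      intro i
      induction i with
      | zero =>
        intro g
        rw [pow_zero, mul_one]
      | succ i ih =>
        intro g
        rw [pow_succ, ← mul_assoc, hKg, ih]
    have hα1 : α 1 = 0 := by
      have h1 := hαm 1 1
      rw [mul_one] at h1
      exact left_eq_add.mp h1
    have hτ1 : τ 1 = 0 := by
      have h1 := hτm 1 1
      rw [mul_one] at h1
      exact left_eq_add.mp h1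
    have hαi : ∀ i : ℕ, α (g₀ ^ i) = i • h'.1 := by
      intro i
      induction i with
      | zero => rw [pow_zero, hα1, zero_smul]
      | succ i ih => rw [pow_succ, hαm, ih, hα0, succ_nsmul]
    have hτi : ∀ i : ℕ, τ (g₀ ^ i) = i • h'.2 := by
      intro i
      induction i with
      | zero => rw [pow_zero, hτ1, zero_smul]
      | succ i ih => rw [pow_succ, hτm, ih, hτ0, succ_nsmul]
    have hu : ∀ g g', ∑ j, c j * α (g * g') j = ∑ j, c j * α g j + ∑ j, c j * α g' j := by
      intro g g'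
      rw [hαm, ← Finset.sum_add_distrib]
      exact Finset.sum_congr rfl fun j _ => by rw [Pi.add_apply, mul_add]
    have hv : ∀ g g', ∑ j, d j * τ (g * g') j = ∑ j, d j * τ g j + ∑ j, d j * τ g' j := by
      intro g g'
      rw [hτm, ← Finset.sum_add_distrib]
      exact Finset.sum_congr rfl fun j _ => by rw [Pi.add_apply, mul_add]
    have hu1 : ∑ j, c j * α (g₀ ^ N) j = 0 := by
      rw [hαi]
      refine Finset.sum_eq_zero fun j _ => ?_
      rw [Pi.smul_apply, nsmul_eq_mul, CharP.cast_eq_zero, zero_mul, mul_zero]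
    have hv1 : ∑ j, d j * τ (g₀ ^ N) j = N * ∑ j, d j * h'.2 j := by
      rw [hτi, Finset.mul_sum]
      refine Finset.sum_congr rfl fun j _ => ?_
      rw [Pi.smul_apply, nsmul_eq_mul]
      ring
    have hNne : (N : ZMod p) ≠ 0 := by
      intro h0
      rw [ZMod.natCast_eq_zero_iff] at h0
      exact hpN ((Nat.prime_dvd_prime_iff_eq hp' hN).1 h0)
    have h1 := D4_coset K (g₀ ^ N) (hKi N) (fun g => ∑ j, c j * α g j = 0)
      (fun g => by rw [hu, hu1, add_zero]) (fun g => ∑ j, d j * τ g j) hv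
      (by rw [hv1]; exact mul_ne_zero hNne hne)
    have h2 : S c 0 = ∑ g ∈ univ.filter (fun g => ∑ j, c j * α g j = 0), K g := by
      rw [hS]
      refine Finset.sum_congr (Finset.filter_congr fun g _ => ?_) fun _ _ => rfl
      simp
    have h3 : S c d = ∑ g ∈ univ.filter (fun g => ∑ j, c j * α g j = 0 ∧
        ∑ j, d j * τ g j = 0), K g := hS c d
    rw [← h2, ← h3] at h1
    exact h1
  have h00 : E₁ • S 0 0 ∈ cst m k L := hkill 0 0 (hC 0 0 fun h _ => by simp)
  have hA : ∀ d, (N * p * E₁) • S 0 d ∈ cst m k L := by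
    intro d
    by_cases hd : ∃ h' ∈ P, ∑ j, d j * h'.2 j ≠ 0
    · have h1 := hone2 0 d hd
      have h4 := h00
      rw [h1, smul_smul] at h4
      refine smul_mem_cst_of_dvd ?_ h4
      exact ⟨N, by ring⟩
    · refine smul_mem_cst_of_dvd (Dvd.intro_left _ rfl) (hkill 0 d (hC 0 d fun h hh => ⟨?_, ?_⟩))
      · simp
      · by_contra h3
        exact hd ⟨h, hh, h3⟩
  have hB : ∀ c, (N * p * E₁) • S c 0 ∈ cst m k L := by
    intro c
    by_cases hc : ∃ h' ∈ P, ∑ j, c j * h'.1 j ≠ 0
    · have h1 := hone1 c 0 hc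
      have h4 := h00
      rw [h1, smul_smul] at h4
      refine smul_mem_cst_of_dvd ?_ h4
      exact ⟨p, by ring⟩
    · refine smul_mem_cst_of_dvd (Dvd.intro_left _ rfl) (hkill c 0 (hC c 0 fun h hh => ⟨?_, ?_⟩))
      · by_contra h3
        exact hc ⟨h, hh, h3⟩
      · simp
  have hmem : ∀ c d, (N * p * (N * p) * E₁) • S c d ∈ cst m k L := by
    intro c d
    by_cases hc : ∃ h' ∈ P, ∑ j, c j * h'.1 j ≠ 0
    · have h1 := hone1 c d hc
      have h4 := hA d
      rw [h1, smul_smul] at h4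
      refine smul_mem_cst_of_dvd ?_ h4
      exact ⟨p, by ring⟩
    · by_cases hd : ∃ h' ∈ P, ∑ j, d j * h'.2 j ≠ 0
      · have h1 := hone2 c d hd
        have h4 := hB c
        rw [h1, smul_smul] at h4
        refine smul_mem_cst_of_dvd ?_ h4
        exact ⟨N, by ring⟩
      · refine smul_mem_cst_of_dvd (Dvd.intro_left _ rfl) (hkill c d (hC c d fun h hh => ⟨?_, ?_⟩))
        · by_contra h3
          exact hc ⟨h, hh, h3⟩
        · by_contra h3
          exact hd ⟨h, hh, h3⟩
  -- the identity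
  have hα1 : α 1 = 0 := by
    have h1 := hαm 1 1
    rw [mul_one] at h1
    exact left_eq_add.mp h1
  have hτ1 : τ 1 = 0 := by
    have h1 := hτm 1 1
    rw [mul_one] at h1
    exact left_eq_add.mp h1
  have hid := D4_identity K α τ 1 hα1 hτ1 hone
  have hK1 : K 1 = ξ := by
    rw [hK]
    have h5 : ((1 : L ≃ₐ[T₀] L) : L →+* L) = RingHom.id L := rfl
    rw [h5, KM.map_id]
    rfl
  have hs1 : ∀ c : Fin n → ZMod N, ∑ g ∈ univ.filter (fun g => ∑ j, c j * α g j = 0), K g =
      S c 0 := by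
    intro c
    rw [hS]
    refine Finset.sum_congr (Finset.filter_congr fun g _ => ?_) fun _ _ => rfl
    simp
  have hs2 : ∀ d : Fin n → ZMod p, ∑ g ∈ univ.filter (fun g => ∑ j, d j * τ g j = 0), K g =
      S 0 d := by
    intro d
    rw [hS]
    refine Finset.sum_congr (Finset.filter_congr fun g _ => ?_) fun _ _ => rfl
    simp
  have hs3 : ∑ g, K g = S 0 0 := by
    rw [hS]
    refine Finset.sum_congr ?_ fun _ _ => rfl
    rw [eq_comm, Finset.filter_eq_self]
    intro g _
    simp
  simp only [hs1, hs2, hs3, hK1, ← hS] at hid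
  have h2 := congrArg (fun z => (N * p * (N * p) * E₁) • z) hid
  beta_reduce at h2
  rw [smul_add, smul_add, smul_add] at h2
  have h3 : (N * p * (N * p) * E₁) • (N ^ n * p ^ n * ((N - 1) * (p - 1))) • ξ =
      (N * p * (N * p) * E₁) • (N * p) • ∑ c : Fin n → ZMod N, ∑ d : Fin n → ZMod p, S c d +
        (N * p * (N * p) * E₁) • (N ^ n * p ^ n) • S 0 0 -
      (N * p * (N * p) * E₁) • (N ^ n * p) • ∑ d : Fin n → ZMod p, S 0 d -
      (N * p * (N * p) * E₁) • (p ^ n * N) • ∑ c : Fin n → ZMod N, S c 0 := by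
    rw [← h2]
    abel
  rw [mul_pow, mul_comm, mul_smul, h3]
  refine sub_mem (sub_mem (add_mem ?_ ?_) ?_) ?_
  · rw [smul_comm, Finset.smul_sum]
    refine nsmul_mem (sum_mem fun c _ => ?_) _
    rw [Finset.smul_sum]
    exact sum_mem fun d _ => hmem c d
  · rw [smul_comm]
    exact nsmul_mem (hmem 0 0) _
  · rw [smul_comm, Finset.smul_sum]
    exact nsmul_mem (sum_mem fun d _ => hmem 0 d) _
  · rw [smul_comm, Finset.smul_sum]
    exact nsmul_mem (sum_mem fun c _ => hmem c 0) _

end UnrA.Fer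
end

section

/-!
# Reduction to the subfields attached to the fixed characters, two families
-/

namespace UnrA.Fer

open UnrG

universe u v w z

open Polynomial Finset
open scoped Classical

variable {m : UFun.{u, z}}

/-- Reduction to the subfields attached to the characters fixed by `P`, with a second family `t`. -/
theorem mix_reduced {p N : ℕ} [Fact p.Prime] (hN : N.Prime) (hpN : p ≠ N) {k L : Type u}
    [Field k] [Field L] [CharP k p] [Algebra k L] {n n' : ℕ} (T₀ : IntermediateField k L)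
    {x y : Fin n → L} {t : Fin n' → L} (hx0 : ∀ j, x j ≠ 0) (hx : ∀ j, x j ^ N ∈ T₀)
    (hy : ∀ j, y j ^ p - y j ∈ T₀) (ht : ∀ j, t j ^ p - t j ∈ T₀)
    (hgen : IntermediateField.adjoin k
      ((T₀ : Set L) ∪ Set.range x ∪ Set.range y ∪ Set.range t) = ⊤) {ζ : k}
    (hζ : IsPrimitiveRoot ζ N) {ξ : KM m L} (hξ : Unr ξ) {C : ℕ}
    (P : Set ((Fin n → ZMod N) × (Fin n → ZMod p) × (Fin n' → ZMod p)))
    (hP : ∀ h ∈ P, ∃ f : L →+* L, (∀ z ∈ T₀, f z = z) ∧
      (∀ j, f (x j) = algebraMap k L ζ ^ (h.1 j).val * x j) ∧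
      (∀ j, f (y j) = y j + ((h.2.1 j).val : L)) ∧ (∀ j, f (t j) = t j + ((h.2.2 j).val : L)) ∧
      KM.map m f ξ = ξ)
    (hC : ∀ (c : Fin n → ZMod N) (d : Fin n → ZMod p) (e : Fin n' → ZMod p),
      (∀ h ∈ P, ∑ j, c j * h.1 j = 0 ∧ ∑ j, d j * h.2.1 j + ∑ j, e j * h.2.2 j = 0) →
        KillsC m C k (IntermediateField.adjoin k ((T₀ : Set L) ∪
          {∏ j, x j ^ (c j).val, ∑ j, ((d j).val : L) * y j + ∑ j, ((e j).val : L) * t j}))) :
    ((N * p) ^ (n + n') * ((N - 1) * (p - 1)) *
      (N * p * (N * p) * (((N * p) ^ (n + n')).factorial * C))) • ξ ∈ cst m k L := by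
  have hN0 : NeZero N := ⟨hN.ne_zero⟩
  refine as_reduced_fixed hN hpN T₀ (x := Fin.append x (fun _ : Fin n' => (1 : L)))
    (y := Fin.append y t) ?_ ?_ ?_ ?_ hζ hξ
    {h' | ∃ h ∈ P, h' = (Fin.append h.1 0, Fin.append h.2.1 h.2.2)} ?_ ?_
  · intro j
    refine Fin.addCases (fun i => ?_) (fun i => ?_) j
    · rw [Fin.append_left]
      exact hx0 i
    · rw [Fin.append_right]
      exact one_ne_zero
  · intro j
    refine Fin.addCases (fun i => ?_) (fun i => ?_) j
    · rw [Fin.append_left]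
      exact hx i
    · rw [Fin.append_right, one_pow]
      exact one_mem T₀
  · intro j
    refine Fin.addCases (fun i => ?_) (fun i => ?_) j
    · rw [Fin.append_left]
      exact hy i
    · rw [Fin.append_right]
      exact ht i
  · rw [← top_le_iff, ← hgen]
    refine IntermediateField.adjoin.mono _ _ _ ?_
    rintro z (((hz | ⟨j, rfl⟩) | ⟨j, rfl⟩) | ⟨j, rfl⟩)
    · exact Or.inl (Or.inl hz)
    · exact Or.inl (Or.inr ⟨Fin.castAdd n' j, Fin.append_left _ _ j⟩)
    · exact Or.inr ⟨Fin.castAdd n' j, Fin.append_left _ _ j⟩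
    · exact Or.inr ⟨Fin.natAdd n j, Fin.append_right _ _ j⟩
  · rintro h' ⟨h, hh, rfl⟩
    obtain ⟨f, hf0, hfx, hfy, hft, hfξ⟩ := hP h hh
    refine ⟨f, hf0, fun j => ?_, fun j => ?_, hfξ⟩
    · refine Fin.addCases (fun i => ?_) (fun i => ?_) j
      · rw [Fin.append_left]
        change f (x i) = algebraMap k L ζ ^
          ((Fin.append h.1 (0 : Fin n' → ZMod N)) (Fin.castAdd n' i)).val * x i
        rw [Fin.append_left]
        exact hfx i
      · rw [Fin.append_right]
        change f 1 = algebraMap k L ζ ^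
          ((Fin.append h.1 (0 : Fin n' → ZMod N)) (Fin.natAdd n i)).val * 1
        rw [Fin.append_right, Pi.zero_apply, ZMod.val_zero, pow_zero, map_one, mul_one]
    · refine Fin.addCases (fun i => ?_) (fun i => ?_) j
      · rw [Fin.append_left]
        change f (y i) = y i + ((Fin.append h.2.1 h.2.2 (Fin.castAdd n' i)).val : L)
        rw [Fin.append_left]
        exact hfy i
      · rw [Fin.append_right]
        change f (t i) = t i + ((Fin.append h.2.1 h.2.2 (Fin.natAdd n i)).val : L)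
        rw [Fin.append_right]
        exact hft i
  · intro c d hcd
    have h1 := hC (fun j => c (Fin.castAdd n' j)) (fun j => d (Fin.castAdd n' j))
      (fun j => d (Fin.natAdd n j)) fun h hh => by
        obtain ⟨h2, h3⟩ := hcd _ ⟨h, hh, rfl⟩
        rw [Fin.sum_univ_add] at h2 h3
        simp only [Fin.append_left, Fin.append_right, Pi.zero_apply, mul_zero,
          Finset.sum_const_zero, add_zero] at h2 h3
        exact ⟨h2, h3⟩
    have heq : asT T₀ (Fin.append x (fun _ : Fin n' => (1 : L))) (Fin.append y t) c d =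
        IntermediateField.adjoin k ((T₀ : Set L) ∪
          {∏ j, x j ^ (c (Fin.castAdd n' j)).val, ∑ j, ((d (Fin.castAdd n' j)).val : L) * y j +
            ∑ j, ((d (Fin.natAdd n j)).val : L) * t j}) := by
      unfold asT
      rw [Fin.prod_univ_add, Fin.sum_univ_add]
      simp only [Fin.append_left, Fin.append_right, one_pow, Finset.prod_const_one, mul_one]
    rw [heq]
    exact h1

end UnrA.Fer
end

section

/-!
# Artin-Schreier extensions and new classes
-/

namespace UnrA.Fer

open UnrG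

universe u v w z

open Polynomial Finset
open scoped Classical

variable {m : UFun.{u, z}}

private lemma C1_pow_apply {A B : Type*} [Field A] [Field B] {f : A →+* A} {g : B →+* B}
    {j : A →+* B} (h : ∀ z, g (j z) = j (f z)) (i : ℕ) (z : A) :
    (g ^ i) (j z) = j ((f ^ i) z) := by
  induction i generalizing z with
  | zero => rfl
  | succ i ih =>
    have e1 : (g ^ (i + 1)) (j z) = (g ^ i) (g (j z)) := by rw [pow_succ]; rfl
    have e2 : (f ^ (i + 1)) z = (f ^ i) (f z) := by rw [pow_succ]; rfl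
    rw [e1, e2, h, ih]

private lemma C1_pow_fix {A B : Type*} [Field A] [Field B] {g : B →+* B}
    {j : A →+* B} (h : ∀ z, g (j z) = j z) (i : ℕ) (z : A) : (g ^ i) (j z) = j z := by
  have h1 := C1_pow_apply (f := RingHom.id A) (g := g) (j := j) h i z
  have h2 : ∀ k : ℕ, ((RingHom.id A) ^ k) z = z := by
    intro k
    induction k with
    | zero => rfl
    | succ k ih =>
      have e2 : ((RingHom.id A) ^ (k + 1)) z = ((RingHom.id A) ^ k) ((RingHom.id A) z) := by
        rw [pow_succ]; rfl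
      rw [e2]
      exact ih
  rw [h1, h2]

/-- Reduction to classes whose sum of conjugates vanishes. -/
theorem killsC_of_as {p : ℕ} [Fact p.Prime] {F E : Type u} [Field F] [Field E] [CharP F p]
    [Algebra F E] (T : IntermediateField F E) {u : E} (hu : u ^ p - u ∈ T)
    (hgen : IntermediateField.adjoin F ((T : Set E) ∪ {u}) = ⊤) {C₁ C₂ : ℕ}
    (hT : KillsC m C₁ F T)
    (hE : ∀ δ : E →+* E, (∀ a ∈ T, δ a = a) → δ u = u + 1 → ∀ z : KM m E, Unr z →
      ∑ i ∈ range p, KM.map m (δ ^ i) z = 0 → C₂ • z = 0) :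
    KillsC m (p * p * C₁ * C₂) F E := by
  by_cases huT : u ∈ T
  · have hT' : T = ⊤ := by
      rw [eq_top_iff, ← hgen, IntermediateField.adjoin_le_iff]
      rintro z (hz | hz)
      · exact hz
      · rw [Set.mem_singleton_iff.mp hz]
        exact huT
    intro z hz
    have hmem : ∀ w : E, w ∈ T := fun w => by
      rw [hT']
      exact IntermediateField.mem_top
    let j : E →+* T := ⟨⟨⟨fun w => ⟨w, hmem w⟩, rfl⟩, fun _ _ => rfl⟩, rfl, fun _ _ => rfl⟩
    have h1 := hT _ (hz.map j)
    have h2 := map_mem_cst h1 (f := algebraMap T E) (M := E) (fun a => rfl)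
    have h3 : KM.map m (algebraMap T E) (C₁ • KM.map m j z) = C₁ • z := by
      rw [map_nsmul, KM.map_map]
      have h4 : (algebraMap T E).comp j = RingHom.id E := rfl
      rw [h4, KM.map_id]
      rfl
    rw [h3] at h2
    exact smul_mem_cst_of_dvd ⟨p * p * C₂, by ring⟩ h2
  · have hTp : CharP T p := charP_of_injective_algebraMap (algebraMap F T).injective p
    have hEp : CharP E p := charP_of_injective_algebraMap (algebraMap F E).injective p
    have ha : ∀ b : T, b ^ p - b ≠ ⟨u ^ p - u, hu⟩ := by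
      intro b hb
      have h1 : (b : E) ^ p - b = u ^ p - u := congrArg Subtype.val hb
      have h2 : (u - b) ^ p = u - b := by
        rw [sub_pow_char]
        linear_combination -h1
      have h3 := (Subfield.mem_bot_iff_pow_eq_self E p).mpr h2
      rw [mem_bot_iff_intCast p] at h3
      obtain ⟨k, hk⟩ := h3
      apply huT
      have h4 : u = (b : E) + ((k : T) : E) := by
        have h5 : (((k : T)) : E) = (k : E) := by norm_cast
        rw [h5, hk]
        ring
      rw [h4]
      exact add_mem b.2 (k : T).2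
    have htop : IntermediateField.adjoin T {u} = ⊤ := by
      rw [eq_top_iff]
      intro z _
      have h1 : IntermediateField.adjoin F ((T : Set E) ∪ {u}) ≤
          IntermediateField.restrictScalars F (IntermediateField.adjoin T {u}) := by
        rw [IntermediateField.adjoin_le_iff]
        rintro w (hw | hw)
        · exact (IntermediateField.adjoin T {u}).algebraMap_mem ⟨w, hw⟩
        · exact IntermediateField.subset_adjoin T _ hw
      rw [hgen] at h1
      exact h1 (IntermediateField.mem_top (x := z))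
    have hY : u ^ p - u = algebraMap T E ⟨u ^ p - u, hu⟩ := rfl
    obtain ⟨δ, hδ1, hδ2⟩ := as_lift (p := p) ha hY htop (algebraMap T E) (u + 1) (by
      rw [add_pow_char, one_pow, ← hY]
      ring)
    have hδT : ∀ c : T, δ (algebraMap T E c) = algebraMap T E c := fun c =>
      RingHom.congr_fun hδ1 c
    obtain ⟨hfd, hgal, hfin, htr⟩ := as_trace (m := m) (p := p) hY htop δ hδT hδ2
    intro z hz
    obtain ⟨y, hy⟩ := htr z
    have hSu : Unr (∑ i ∈ range p, KM.map m (δ ^ i) z) := Unr.sum fun i _ => hz.map _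
    have h2 : Unr (p • y) := by
      have h3 : Unr (Module.finrank T E • y) := unr_smul_of_map (by rw [hy]; exact hSu)
      rwa [hfin] at h3
    have h3 := map_mem_cst (hT _ h2) (f := algebraMap T E) (M := E) (fun a => rfl)
    rw [map_nsmul, map_nsmul, hy] at h3
    have hfix : ∀ i, KM.map m (δ ^ i) (∑ i ∈ range p, KM.map m (δ ^ i) z) =
        ∑ i ∈ range p, KM.map m (δ ^ i) z := by
      intro i
      rw [← hy, KM.map_map]
      have h5 : (δ ^ i).comp (algebraMap T E) = algebraMap T E := by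
        ext c
        exact C1_pow_fix hδT i c
      rw [h5]
    have h4 := hE δ (fun a ha => hδT ⟨a, ha⟩) hδ2 (p • z - ∑ i ∈ range p, KM.map m (δ ^ i) z)
      ((hz.nsmul p).sub hSu) (by
        simp_rw [map_sub, map_nsmul, hfix]
        rw [Finset.sum_sub_distrib, ← Finset.smul_sum, Finset.sum_const, Finset.card_range,
          sub_self])
    rw [smul_sub, sub_eq_zero] at h4
    have h5 : (p * p * C₁ * C₂) • z = C₂ • (C₁ • p • ∑ i ∈ range p, KM.map m (δ ^ i) z) := by
      have h6 : (p * p * C₁ * C₂) • z = (C₁ * p) • (C₂ • (p • z)) := by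
        rw [smul_smul, smul_smul]
        congr 1
        ring
      rw [h6, h4, smul_smul, smul_smul, smul_smul]
      congr 1
      ring
    rw [h5]
    exact nsmul_mem h3 _

/-- Classes whose sum of conjugates vanishes, for fields with a rational finite extension. -/
theorem new_smul_of_purely {p : ℕ} {E F' E' : Type u} [Field E] [Field F'] [Field E']
    [Algebra F' E'] [Algebra E E'] [FiniteDimensional E E'] {D : ℕ}
    (hD : Module.finrank E E' ≤ D) {n : ℕ} {w : Fin n → E'} (hw : AlgebraicIndependent F' w)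
    (hgen : IntermediateField.adjoin F' (Set.range w) = ⊤) (δ : E →+* E) (δ' : E' →+* E')
    (h1 : ∀ z, δ' (algebraMap E E' z) = algebraMap E E' (δ z))
    (h2 : ∀ z, δ' (algebraMap F' E' z) = algebraMap F' E' z) {z : KM m E} (hz : Unr z)
    (hsum : ∑ i ∈ range p, KM.map m (δ ^ i) z = 0) : (D.factorial * p) • z = 0 := by
  obtain ⟨η, _, hη⟩ := unr_purely w hw hgen (hz.map (algebraMap E E'))
  have h3 : ∀ i, KM.map m (algebraMap E E') (KM.map m (δ ^ i) z) =
      KM.map m (algebraMap E E') z := by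
    intro i
    have h4 : (algebraMap E E').comp (δ ^ i) = (δ' ^ i).comp (algebraMap E E') := by
      ext w
      exact (C1_pow_apply h1 i w).symm
    have h5 : (δ' ^ i).comp (algebraMap F' E') = algebraMap F' E' := by
      ext w
      exact C1_pow_fix h2 i w
    rw [KM.map_map, h4, ← KM.map_map, ← hη, KM.map_map, h5]
  have h4 : KM.map m (algebraMap E E') (p • z) = 0 := by
    have h5 := congrArg (KM.map m (algebraMap E E')) hsum
    rw [map_sum, map_zero, Finset.sum_congr rfl fun i _ => h3 i, Finset.sum_const,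
      Finset.card_range] at h5
    rw [map_nsmul, h5]
  have h5 := finrank_smul_eq_zero _ rfl h4
  obtain ⟨k, hk⟩ := Nat.dvd_factorial (Module.finrank_pos (R := E) (M := E')) hD
  rw [hk, mul_comm (Module.finrank E E'), mul_assoc, mul_smul, mul_smul, h5, smul_zero]

end UnrA.Fer
end

section

/-!
# Twisted pairs
-/

namespace UnrA.Fer

open UnrG

universe u v w z

open Polynomial Finset
open scoped Classical

variable {m : UFun.{u, z}}

/-- Adjoining a `P`-th root. -/
private lemma C2_root {E Ω : Type u} [Field E] [Field Ω] [Algebra E Ω] {P : ℕ} (hP : 0 < P)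
    {x : Ω} {a : E} (h : x ^ P = algebraMap E Ω a) :
    IsIntegral E x ∧ FiniteDimensional E (IntermediateField.adjoin E {x}) ∧
      Module.finrank E (IntermediateField.adjoin E {x}) ≤ P := by
  have h1 : (Polynomial.X ^ P - Polynomial.C a : E[X]).Monic := monic_X_pow_sub_C a hP.ne'
  have h0 : Polynomial.aeval x (Polynomial.X ^ P - Polynomial.C a : E[X]) = 0 := by
    simp [h]
  have h2 : IsIntegral E x := ⟨_, h1, h0⟩
  refine ⟨h2, IntermediateField.adjoin.finiteDimensional h2, ?_⟩
  rw [IntermediateField.adjoin.finrank h2]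
  have h3 := Polynomial.natDegree_le_of_dvd (minpoly.dvd E x h0) h1.ne_zero
  rwa [natDegree_X_pow_sub_C] at h3

/-- The parametrization of the cover. -/
private lemma C2_alg {p N : ℕ} [Fact p.Prime] (hN : N.Prime) {E : Type u} [Field E] [CharP E p]
    {X₀ X₁ D d v w : E} {c₀ c₁ k : ℕ} (hD : D ≠ 0) (h0 : X₀ ≠ 0) (h1 : X₁ ≠ 0)
    (hv : v ^ N = D * (X₀ ^ c₀ * X₁ ^ c₁)) (hw : w ^ p - w = d + (X₀ + X₁)) (hc : ¬ N ∣ c₀)
    (hc1 : N ∣ c₁ + p ^ k * c₀) :
    ∃ l α β : ℕ, ∃ θ w' : E, θ = (v / X₁ ^ l) ^ α / (X₀ / X₁ ^ p ^ k) ^ β ∧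
      w' = w + ∑ i ∈ range k, X₁ ^ p ^ i ∧
      X₀ = θ ^ N / D ^ α * X₁ ^ p ^ k ∧ v = θ ^ c₀ / D ^ β * X₁ ^ l ∧
      w' ^ p - w' = d + X₁ ^ p ^ k * (θ ^ N / D ^ α + 1) := by
  obtain ⟨l, hl⟩ := hc1
  obtain ⟨α, β, hαβ⟩ : ∃ α β : ℕ, c₀ * α = 1 + N * β := by
    have h2 : c₀.Coprime N := ((Nat.Prime.coprime_iff_not_dvd hN).mpr hc).symm
    obtain ⟨a, _, ha⟩ := Nat.exists_mul_mod_eq_one_of_coprime h2 hN.one_lt
    refine ⟨a, c₀ * a / N, ?_⟩
    have h3 := Nat.div_add_mod (c₀ * a) N
    omega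
  obtain ⟨ζ, hζ⟩ : ∃ ζ, ζ = X₀ / X₁ ^ p ^ k := ⟨_, rfl⟩
  have hζ0 : ζ ≠ 0 := by
    rw [hζ]
    exact div_ne_zero h0 (pow_ne_zero _ h1)
  have hX0 : X₀ = ζ * X₁ ^ p ^ k := by
    rw [hζ, div_mul_cancel₀ _ (pow_ne_zero _ h1)]
  obtain ⟨v', hv'⟩ : ∃ v', v' = v / X₁ ^ l := ⟨_, rfl⟩
  have hvv : v = v' * X₁ ^ l := by
    rw [hv', div_mul_cancel₀ _ (pow_ne_zero _ h1)]
  have hvN : v' ^ N = D * ζ ^ c₀ := by
    have h2 : v ^ N = v' ^ N * (X₁ ^ c₁ * (X₁ ^ p ^ k) ^ c₀) := by
      rw [← pow_mul, ← pow_add, hl, mul_comm N l, pow_mul, ← mul_pow, ← hvv]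
    rw [h2, hX0] at hv
    have h3 : X₁ ^ c₁ * (X₁ ^ p ^ k) ^ c₀ ≠ 0 :=
      mul_ne_zero (pow_ne_zero _ h1) (pow_ne_zero _ (pow_ne_zero _ h1))
    apply mul_right_cancel₀ h3
    rw [hv]
    ring
  obtain ⟨θ, hθ⟩ : ∃ θ, θ = v' ^ α / ζ ^ β := ⟨_, rfl⟩
  have hθN : θ ^ N / D ^ α = ζ := by
    rw [hθ, div_pow, ← pow_mul, mul_comm α N, pow_mul, hvN, mul_pow, ← pow_mul, ← pow_mul, hαβ,
      pow_add, pow_one, mul_comm β N]
    have h2 : ζ ^ (N * β) ≠ 0 := pow_ne_zero _ hζ0
    have h3 : D ^ α ≠ 0 := pow_ne_zero _ hD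
    field_simp
  have hθc : θ ^ c₀ / D ^ β = v' := by
    rw [hθ, div_pow, ← pow_mul, mul_comm α c₀, hαβ, pow_add, pow_one, pow_mul, hvN, mul_pow,
      ← pow_mul, ← pow_mul, mul_comm β c₀]
    have h2 : ζ ^ (c₀ * β) ≠ 0 := pow_ne_zero _ hζ0
    have h3 : D ^ β ≠ 0 := pow_ne_zero _ hD
    field_simp
  refine ⟨l, α, β, θ, w + ∑ i ∈ range k, X₁ ^ p ^ i, ?_, rfl, ?_, ?_, ?_⟩
  · rw [hθ, hv', hζ]
  · rw [hθN, ← hX0]
  · rw [hθc, ← hvv]
  · rw [hθN, add_pow_char, sum_pow_char]
    have h2 := Finset.sum_range_sub (fun i => X₁ ^ p ^ i) k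
    rw [pow_zero, pow_one, Finset.sum_sub_distrib] at h2
    have h3 : ∑ i ∈ range k, (X₁ ^ p ^ i) ^ p = ∑ i ∈ range k, X₁ ^ p ^ (i + 1) :=
      Finset.sum_congr rfl fun i _ => by rw [← pow_mul, ← pow_succ]
    rw [h3]
    linear_combination hw + h2 + hX0

private lemma C2_main {p N : ℕ} [Fact p.Prime] (hN : N.Prime) {F E Ω : Type u} [Field F]
    [Field E] [Field Ω] [CharP F p] [CharP Ω p] [PerfectRing Ω p] [Algebra F E] [Algebra E Ω]
    [Algebra F Ω] [IsScalarTower F E Ω] {X : Fin 2 → E} {D d : F} {v u : E} {c₀ c₁ k : ℕ}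
    (hD : D ≠ 0) (hX : AlgebraicIndependent F X)
    (hv : v ^ N = algebraMap F E D * (X 0 ^ c₀ * X 1 ^ c₁))
    (hu : u ^ p - u = algebraMap F E d + (X 0 + X 1))
    (hgen : IntermediateField.adjoin F (Set.range X ∪ {v, u}) = ⊤) (hc : ¬ N ∣ c₀)
    (hc1 : N ∣ c₁ + p ^ k * c₀) {z : KM m E} (hz : Unr z) (δ : E →+* E)
    (hδF : ∀ a : F, δ (algebraMap F E a) = algebraMap F E a) (hδX : ∀ i, δ (X i) = X i)
    (hδv : δ v = v) (hδu : δ u = u + 1)
    (hsum : ∑ i ∈ range p, KM.map m (δ ^ i) z = 0) (σ : Ω →+* Ω)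
    (hσ : ∀ x : E, σ (algebraMap E Ω x) = algebraMap E Ω (δ x)) :
    (((p ^ k) ^ 4).factorial * p) • z = 0 := by
  have hp : p.Prime := Fact.out
  have hEp : CharP E p := charP_of_injective_algebraMap (algebraMap F E).injective p
  have hP : 0 < p ^ k := pow_pos hp.pos k
  have hX0 : X 0 ≠ 0 := hX.ne_zero 0
  have hX1 : X 1 ≠ 0 := hX.ne_zero 1
  obtain ⟨l, α, β, θ, w, hθ, hw, hx0, hv', hstar⟩ := C2_alg hN
    ((map_ne_zero (algebraMap F E)).mpr hD) hX0 hX1 hv hu hc hc1
  have hfac : θ ^ N / algebraMap F E D ^ α + 1 ≠ 0 := by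
    intro h
    have h1 : X 0 + X 1 ^ p ^ k = 0 := by
      have h2 : X 0 + X 1 ^ p ^ k = (θ ^ N / algebraMap F E D ^ α + 1) * X 1 ^ p ^ k := by
        rw [add_mul, ← hx0, one_mul]
      rw [h2, h, zero_mul]
    have h2 : MvPolynomial.aeval X (MvPolynomial.X 0 + MvPolynomial.X 1 ^ p ^ k :
        MvPolynomial (Fin 2) F) = 0 := by
      simpa using h1
    have h3 := (injective_iff_map_eq_zero _).mp hX _ h2
    have h4 := congrArg (MvPolynomial.aeval (fun i : Fin 2 => if i = 0 then (1 : F) else 0)) h3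
    simp at h4
    rw [zero_pow hP.ne', add_zero] at h4
    exact one_ne_zero h4
  -- the `P`-th roots
  obtain ⟨r, hr⟩ : ∃ r : Ω →+* Ω, ∀ x, r x ^ p ^ k = x :=
    ⟨((iterateFrobeniusEquiv Ω p k).symm : Ω →+* Ω), fun x =>
      (iterateFrobeniusEquiv Ω p k).apply_symm_apply x⟩
  have hinj : ∀ x y : Ω, x ^ p ^ k = y ^ p ^ k → x = y := fun x y h =>
    (iterateFrobeniusEquiv Ω p k).injective h
  have hrp : ∀ x, r (x ^ p ^ k) = x := fun x => hinj _ _ (hr _)
  have hσr : ∀ x, σ (r x) = r (σ x) := fun x => hinj _ _ (by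
    rw [← map_pow, hr, hr])
  let j : E →+* Ω := algebraMap E Ω
  have hjF : ∀ a : F, j (algebraMap F E a) = algebraMap F Ω a := fun a =>
    (IsScalarTower.algebraMap_apply F E Ω a).symm
  have hδθ : δ θ = θ := by
    rw [hθ]
    simp only [map_div₀, map_pow, hδX, hδv]
  have hδw : δ w = w + 1 := by
    rw [hw]
    simp only [map_add, map_sum, map_pow, hδX, hδu]
    ring
  obtain ⟨D₁, hD₁⟩ : ∃ y, y = r (j (algebraMap F E D)) := ⟨_, rfl⟩
  obtain ⟨d₁, hd₁⟩ : ∃ y, y = r (j (algebraMap F E d)) := ⟨_, rfl⟩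
  obtain ⟨θ₁, hθ₁⟩ : ∃ y, y = r (j θ) := ⟨_, rfl⟩
  obtain ⟨w₁, hw₁⟩ : ∃ y, y = r (j w) := ⟨_, rfl⟩
  have hD₁P : D₁ ^ p ^ k = j (algebraMap F E D) := by rw [hD₁, hr]
  have hd₁P : d₁ ^ p ^ k = j (algebraMap F E d) := by rw [hd₁, hr]
  have hθ₁P : θ₁ ^ p ^ k = j θ := by rw [hθ₁, hr]
  have hw₁P : w₁ ^ p ^ k = j w := by rw [hw₁, hr]
  have hfac₁ : θ₁ ^ N / D₁ ^ α + 1 ≠ 0 := by
    have h1 : θ₁ ^ N / D₁ ^ α + 1 = r (j (θ ^ N / algebraMap F E D ^ α + 1)) := by
      rw [hθ₁, hD₁]
      simp only [map_add, map_div₀, map_pow, map_one]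
    rw [h1]
    exact (map_ne_zero r).mpr ((map_ne_zero j).mpr hfac)
  have hstar₁ : w₁ ^ p - w₁ = d₁ + j (X 1) * (θ₁ ^ N / D₁ ^ α + 1) := by
    have h1 := congrArg (fun x => r (j x)) hstar
    beta_reduce at h1
    have h2 : r (j (X 1 ^ p ^ k)) = j (X 1) := by rw [map_pow j, hrp]
    rw [map_sub, map_sub, map_pow, map_pow, map_add, map_add, map_mul, map_mul, h2] at h1
    rw [hw₁, h1, hd₁, hθ₁, hD₁]
    simp only [map_add, map_div₀, map_pow, map_one]
  have hx1 : j (X 1) = (w₁ ^ p - w₁ - d₁) / (θ₁ ^ N / D₁ ^ α + 1) := by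
    rw [eq_div_iff hfac₁]
    linear_combination -hstar₁
  -- the extension
  let E' : IntermediateField E Ω := (IntermediateField.adjoin E {D₁} ⊔
    IntermediateField.adjoin E {d₁}) ⊔ (IntermediateField.adjoin E {θ₁} ⊔
    IntermediateField.adjoin E {w₁})
  obtain ⟨_, f1, g1⟩ := C2_root hP hD₁P
  obtain ⟨_, f2, g2⟩ := C2_root hP hd₁P
  obtain ⟨_, f3, g3⟩ := C2_root hP hθ₁P
  obtain ⟨_, f4, g4⟩ := C2_root hP hw₁P
  have hfd : FiniteDimensional E E' := inferInstanceAs (FiniteDimensional E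
    ((IntermediateField.adjoin E {D₁} ⊔ IntermediateField.adjoin E {d₁}) ⊔
    (IntermediateField.adjoin E {θ₁} ⊔ IntermediateField.adjoin E {w₁}) :
      IntermediateField E Ω))
  have hle : Module.finrank E E' ≤ (p ^ k) ^ 4 := by
    have h1 := IntermediateField.finrank_sup_le (IntermediateField.adjoin E {D₁})
      (IntermediateField.adjoin E {d₁})
    have h2 := IntermediateField.finrank_sup_le (IntermediateField.adjoin E {θ₁})
      (IntermediateField.adjoin E {w₁})
    have h3 := IntermediateField.finrank_sup_le (IntermediateField.adjoin E {D₁} ⊔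
      IntermediateField.adjoin E {d₁}) (IntermediateField.adjoin E {θ₁} ⊔
      IntermediateField.adjoin E {w₁})
    calc Module.finrank E E' ≤ _ := h3
      _ ≤ (p ^ k * p ^ k) * (p ^ k * p ^ k) := Nat.mul_le_mul
          (h1.trans (Nat.mul_le_mul g1 g2)) (h2.trans (Nat.mul_le_mul g3 g4))
      _ = (p ^ k) ^ 4 := by ring
  have m1 : D₁ ∈ E' := (le_sup_left.trans le_sup_left :
    IntermediateField.adjoin E {D₁} ≤ E') (IntermediateField.mem_adjoin_simple_self E D₁)
  have m2 : d₁ ∈ E' := (le_sup_right.trans le_sup_left :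
    IntermediateField.adjoin E {d₁} ≤ E') (IntermediateField.mem_adjoin_simple_self E d₁)
  have m3 : θ₁ ∈ E' := (le_sup_left.trans le_sup_right :
    IntermediateField.adjoin E {θ₁} ≤ E') (IntermediateField.mem_adjoin_simple_self E θ₁)
  have m4 : w₁ ∈ E' := (le_sup_right.trans le_sup_right :
    IntermediateField.adjoin E {w₁} ≤ E') (IntermediateField.mem_adjoin_simple_self E w₁)
  have hE'le : ∀ T : IntermediateField E Ω, D₁ ∈ T → d₁ ∈ T → θ₁ ∈ T → w₁ ∈ T → E' ≤ T := by
    intro T t1 t2 t3 t4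
    refine sup_le (sup_le ?_ ?_) (sup_le ?_ ?_) <;>
    · rw [IntermediateField.adjoin_le_iff, Set.singleton_subset_iff]
      assumption
  -- the endomorphism
  have hσ1 : σ D₁ = D₁ := by rw [hD₁, hσr, hσ, hδF]
  have hσ2 : σ d₁ = d₁ := by rw [hd₁, hσr, hσ, hδF]
  have hσ3 : σ θ₁ = θ₁ := by rw [hθ₁, hσr, hσ, hδθ]
  have hσ4 : σ w₁ = w₁ + 1 := by rw [hw₁, hσr, hσ, hδw, map_add, map_one, map_add, map_one]
  have hσE : ∀ x ∈ E', σ x ∈ E' := by
    have h1 := hE'le ((E'.toSubfield.comap σ).toIntermediateField fun x => by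
        change σ (algebraMap E Ω x) ∈ E'
        rw [hσ]
        exact E'.algebraMap_mem _)
      (by change σ D₁ ∈ E'; rwa [hσ1]) (by change σ d₁ ∈ E'; rwa [hσ2])
      (by change σ θ₁ ∈ E'; rwa [hσ3]) (by change σ w₁ ∈ E'; rw [hσ4]; exact add_mem m4 (one_mem _))
    intro x hx
    exact h1 hx
  let δ' : E' →+* E' :=
    { toFun := fun x => ⟨σ x, hσE x x.2⟩
      map_one' := Subtype.ext (map_one σ)
      map_mul' := fun x y => Subtype.ext (map_mul σ (x : Ω) (y : Ω))
      map_zero' := Subtype.ext (map_zero σ)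
      map_add' := fun x y => Subtype.ext (map_add σ (x : Ω) (y : Ω)) }
  -- the constants
  let F' : IntermediateField F E' := IntermediateField.adjoin F {⟨D₁, m1⟩, ⟨d₁, m2⟩}
  let g : Fin 2 → E' := ![⟨θ₁, m3⟩, ⟨w₁, m4⟩]
  have hgen' : IntermediateField.adjoin F' (Set.range g) = ⊤ := by
    obtain ⟨R, hR⟩ : ∃ R, R = IntermediateField.adjoin F' (Set.range g) := ⟨_, rfl⟩
    rw [← hR]
    have r1 : (⟨D₁, m1⟩ : E') ∈ R := by
      rw [hR]
      exact (IntermediateField.adjoin F' (Set.range g)).algebraMap_mem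
        ⟨_, IntermediateField.subset_adjoin F _ (Set.mem_insert _ _)⟩
    have r2 : (⟨d₁, m2⟩ : E') ∈ R := by
      rw [hR]
      exact (IntermediateField.adjoin F' (Set.range g)).algebraMap_mem
        ⟨_, IntermediateField.subset_adjoin F _ (Set.mem_insert_of_mem _ rfl)⟩
    have r3 : (⟨θ₁, m3⟩ : E') ∈ R := by
      rw [hR]
      exact IntermediateField.subset_adjoin F' _ ⟨0, rfl⟩
    have r4 : (⟨w₁, m4⟩ : E') ∈ R := by
      rw [hR]
      exact IntermediateField.subset_adjoin F' _ ⟨1, rfl⟩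
    have rF : ∀ a : F, algebraMap F E' a ∈ R := fun a => by
      rw [IsScalarTower.algebraMap_apply F F' E']
      exact R.algebraMap_mem _
    have rX1 : algebraMap E E' (X 1) ∈ R := by
      have h1 : algebraMap E E' (X 1) = ((⟨w₁, m4⟩ : E') ^ p - ⟨w₁, m4⟩ - ⟨d₁, m2⟩) /
          ((⟨θ₁, m3⟩ : E') ^ N / (⟨D₁, m1⟩ : E') ^ α + 1) := Subtype.ext hx1
      rw [h1]
      exact div_mem (sub_mem (sub_mem (pow_mem r4 _) r4) r2)
        (add_mem (div_mem (pow_mem r3 _) (pow_mem r1 _)) (one_mem _))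
    have rθ : algebraMap E E' θ ∈ R := by
      have h1 : algebraMap E E' θ = (⟨θ₁, m3⟩ : E') ^ p ^ k := Subtype.ext hθ₁P.symm
      rw [h1]
      exact pow_mem r3 _
    have rw' : algebraMap E E' w ∈ R := by
      have h1 : algebraMap E E' w = (⟨w₁, m4⟩ : E') ^ p ^ k := Subtype.ext hw₁P.symm
      rw [h1]
      exact pow_mem r4 _
    have rD : algebraMap E E' (algebraMap F E D) ∈ R := by
      rw [← IsScalarTower.algebraMap_apply F E E']
      exact rF D
    have hcomap : ∀ x : E, algebraMap E E' x ∈ R := by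
      have h1 : IntermediateField.adjoin F (Set.range X ∪ {v, u}) ≤
          (R.toSubfield.comap (algebraMap E E')).toIntermediateField (fun a => by
            change algebraMap E E' (algebraMap F E a) ∈ R
            rw [← IsScalarTower.algebraMap_apply F E E']
            exact rF a) := by
        rw [IntermediateField.adjoin_le_iff]
        rintro x (⟨i, rfl⟩ | hx | hx)
        · change algebraMap E E' (X i) ∈ R
          fin_cases i
          · change algebraMap E E' (X 0) ∈ R
            rw [hx0, map_mul, map_div₀, map_pow, map_pow, map_pow]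
            exact mul_mem (div_mem (pow_mem rθ _) (pow_mem rD _)) (pow_mem rX1 _)
          · exact rX1
        · change algebraMap E E' x ∈ R
          rw [hx, hv', map_mul, map_div₀, map_pow, map_pow, map_pow]
          exact mul_mem (div_mem (pow_mem rθ _) (pow_mem rD _)) (pow_mem rX1 _)
        · change algebraMap E E' x ∈ R
          have h2 : u = w - ∑ i ∈ range k, X 1 ^ p ^ i := by rw [hw]; ring
          rw [Set.mem_singleton_iff.mp hx, h2, map_sub, map_sum]
          refine sub_mem rw' (sum_mem fun i _ => ?_)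
          rw [map_pow]
          exact pow_mem rX1 _
      intro x
      rw [hgen] at h1
      exact h1 (IntermediateField.mem_top (x := x))
    rw [eq_top_iff]
    rintro ⟨x, hx⟩ _
    have h1 := hE'le ((R.toSubfield.map E'.val.toRingHom).toIntermediateField fun x =>
        ⟨algebraMap E E' x, hcomap x, rfl⟩) ⟨_, r1, rfl⟩ ⟨_, r2, rfl⟩ ⟨_, r3, rfl⟩ ⟨_, r4, rfl⟩
    obtain ⟨y, hy, hyx⟩ := h1 hx
    have h2 : y = ⟨x, hx⟩ := Subtype.ext hyx
    rw [← h2]
    exact hy
  have halg : Algebra.IsAlgebraic F F' := by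
    refine IntermediateField.isAlgebraic_adjoin fun x hx => ?_
    have hx' : ∃ a : F, x ^ p ^ k = algebraMap F E' a := by
      rcases hx with rfl | hx
      · exact ⟨D, Subtype.ext (hD₁P.trans (hjF D))⟩
      · rw [Set.mem_singleton_iff.mp hx]
        exact ⟨d, Subtype.ext (hd₁P.trans (hjF d))⟩
    obtain ⟨a, ha⟩ := hx'
    exact (C2_root hP ha).1
  have hX' : AlgebraicIndependent F (algebraMap E E' ∘ X) :=
    hX.map' (f := IsScalarTower.toAlgHom F E E') (algebraMap E E').injective
  have hX'' : AlgebraicIndependent F' (algebraMap E E' ∘ X) := hX'.extendScalars F'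
  have hg : AlgebraicIndependent F' g := indep_of_trdeg hX'' fun z => by
    rw [hgen']
    exact isAlgebraic_algebraMap (⟨z, IntermediateField.mem_top⟩ :
      (⊤ : IntermediateField F' E'))
  refine new_smul_of_purely hle hg hgen' δ δ' (fun x => Subtype.ext (hσ x)) ?_ hz hsum
  have hfix : F' ≤ (RingHom.eqLocusField δ' (RingHom.id E')).toIntermediateField (fun a => by
      change δ' (algebraMap F E' a) = algebraMap F E' a
      refine Subtype.ext ?_
      change σ (algebraMap F Ω a) = algebraMap F Ω a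
      rw [← hjF a, hσ, hδF]) := by
    rw [IntermediateField.adjoin_le_iff]
    rintro x (rfl | hx)
    · exact Subtype.ext hσ1
    · rw [Set.mem_singleton_iff.mp hx]
      exact Subtype.ext hσ2
  intro x
  exact hfix x.2

/-- New classes of a cover with a twisted pair. -/
theorem as_twisted_new {p N : ℕ} [Fact p.Prime] (hN : N.Prime) {F E : Type u} [Field F]
    [Field E] [CharP F p] [Algebra F E] {X : Fin 2 → E} {D d : F} {v u : E} {c₀ c₁ k : ℕ}
    (hD : D ≠ 0) (hX : AlgebraicIndependent F X)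
    (hv : v ^ N = algebraMap F E D * (X 0 ^ c₀ * X 1 ^ c₁))
    (hu : u ^ p - u = algebraMap F E d + (X 0 + X 1))
    (hgen : IntermediateField.adjoin F (Set.range X ∪ {v, u}) = ⊤) (hc : ¬ N ∣ c₀)
    (hc1 : N ∣ c₁ + p ^ k * c₀) {z : KM m E} (hz : Unr z) (δ : E →+* E)
    (hδF : ∀ a : F, δ (algebraMap F E a) = algebraMap F E a) (hδX : ∀ i, δ (X i) = X i)
    (hδv : δ v = v) (hδu : δ u = u + 1)
    (hsum : ∑ i ∈ range p, KM.map m (δ ^ i) z = 0) :
    (((p ^ k) ^ 4).factorial * p) • z = 0 := by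
  have hEp : CharP E p := charP_of_injective_algebraMap (algebraMap F E).injective p
  let _ : Algebra E (PerfectClosure E p) := (PerfectClosure.of E p).toAlgebra
  let _ : Algebra F (PerfectClosure E p) :=
    ((PerfectClosure.of E p).comp (algebraMap F E)).toAlgebra
  have hst : IsScalarTower F E (PerfectClosure E p) := IsScalarTower.of_algebraMap_eq fun x => rfl
  refine C2_main (Ω := PerfectClosure E p) hN hD hX hv hu hgen hc hc1 hz δ hδF hδX hδv hδu hsum
    (PerfectClosure.lift E p (PerfectClosure E p) ((PerfectClosure.of E p).comp δ)) ?_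
  intro x
  exact RingHom.congr_fun ((PerfectClosure.lift E p (PerfectClosure E p)).symm_apply_apply
    ((PerfectClosure.of E p).comp δ)) x

end UnrA.Fer
end

section

/-!
# Pairs of quadratic forms
-/

namespace UnrA.Fer

open UnrG

universe u v w z

open Polynomial Finset
open scoped Classical

variable {m : UFun.{u, z}}

/-- Adjunction of a square root. -/
private lemma T6_sqrt {F : Type u} [Field F] (c : F) :
    ∃ (F' : Type u) (_ : Field F') (_ : Algebra F F'), FiniteDimensional F F' ∧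
      Module.finrank F F' ≤ 2 ∧ ∃ ε : F', ε ^ 2 = algebraMap F F' c := by
  obtain ⟨ε, hε⟩ := IsAlgClosed.exists_pow_nat_eq (algebraMap F (AlgebraicClosure F) c) two_pos
  have hroot : aeval ε (X ^ 2 - C c : F[X]) = 0 := by
    rw [map_sub, map_pow, aeval_X, aeval_C, hε, sub_self]
  have hmon : (X ^ 2 - C c : F[X]).Monic := monic_X_pow_sub_C _ two_ne_zero
  have hint : IsIntegral F ε := ⟨_, hmon, hroot⟩
  refine ⟨IntermediateField.adjoin F {ε}, inferInstance, inferInstance,
    IntermediateField.adjoin.finiteDimensional hint, ?_,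
    ⟨ε, IntermediateField.mem_adjoin_simple_self F ε⟩, ?_⟩
  · rw [IntermediateField.adjoin.finrank hint]
    refine (natDegree_le_natDegree (minpoly.min F ε hmon hroot)).trans ?_
    rw [natDegree_X_pow_sub_C]
  · apply Subtype.ext
    exact hε

/-- If `- r_1 / r_0` is a square, a pair of quadratic forms is rational. -/
private lemma T6_core {p : ℕ} [Fact p.Prime] (hp : p ≠ 2) {F E : Type u} [Field F] [Field E]
    [CharP F p] [Algebra F E] {r : Fin 2 → ℕ → F} {l : Fin 2 → F} {d : F} {x : Fin 2 → E} {u : E}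
    (hE : IsAddPair p (fun _ => 0) r l d x u) {ε : F} (hε : ε ^ 2 = -r 1 0 / r 0 0) :
    ∃ w : Fin 2 → E, AlgebraicIndependent F w ∧
      IntermediateField.adjoin F (Set.range w) = ⊤ := by
  have hpp : p.Prime := Fact.out
  have h0 : r 0 0 ≠ 0 := hE.ne 0
  have h1 : r 1 0 ≠ 0 := hE.ne 1
  have hε0 : ε ≠ 0 := by
    rintro rfl
    rw [zero_pow two_ne_zero, eq_comm, div_eq_zero_iff, neg_eq_zero] at hε
    exact hε.elim h1 h0
  have h2 : (2 : F) ≠ 0 := by
    intro h
    have h3 : ((2 : ℕ) : F) = 0 := by exact_mod_cast h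
    rw [CharP.cast_eq_zero_iff F p, Nat.dvd_prime Nat.prime_two] at h3
    exact h3.elim hpp.one_lt.ne' hp
  have heq := hE.eq
  rw [Fin.sum_univ_two] at heq
  simp only [adR, zero_add, sum_range_one, pow_zero, pow_one] at heq
  obtain ⟨a, ha⟩ : ∃ a, a = algebraMap F E (r 0 0) := ⟨_, rfl⟩
  obtain ⟨b, hb⟩ : ∃ b, b = algebraMap F E (r 1 0) := ⟨_, rfl⟩
  obtain ⟨e, he⟩ : ∃ e, e = algebraMap F E ε := ⟨_, rfl⟩
  obtain ⟨i, hi⟩ : ∃ i : F, i = 2⁻¹ := ⟨_, rfl⟩
  have hab : a * e ^ 2 = -b := by
    rw [ha, hb, he, ← map_pow, ← map_mul, ← map_neg, hε, mul_div_cancel₀ _ h0]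
  obtain ⟨R, hR⟩ : ∃ R : IntermediateField F E,
      R = IntermediateField.adjoin F (Set.range ![x 0 + e * x 1, u]) := ⟨_, rfl⟩
  have hRt : x 0 + e * x 1 ∈ R := by
    rw [hR]
    exact IntermediateField.subset_adjoin _ _ ⟨0, rfl⟩
  have hRu : u ∈ R := by
    rw [hR]
    exact IntermediateField.subset_adjoin _ _ ⟨1, rfl⟩
  have hmem : ∀ c : F, algebraMap F E c ∈ R := fun c => R.algebraMap_mem c
  have hc0 : ∀ q : F, a * (x 0 + e * x 1) + algebraMap F E q ≠ 0 := by
    intro q hq
    have h3 : MvPolynomial.aeval x (MvPolynomial.C (r 0 0) * (MvPolynomial.X 0 +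
        MvPolynomial.C ε * MvPolynomial.X 1) + MvPolynomial.C q : MvPolynomial (Fin 2) F) = 0 := by
      simpa [← ha, ← he] using hq
    have h4 := (algebraicIndependent_iff.mp hE.ind) _ h3
    have h5 := congrArg (MvPolynomial.eval ![(1 - q) / r 0 0, 0]) h4
    simp [mul_div_cancel₀, h0] at h5
  have hx : x 0 - e * x 1 ∈ R := by
    have h3 : (x 0 - e * x 1) * (a * (x 0 + e * x 1) +
        algebraMap F E (l 0 * i - l 1 * (i * ε⁻¹))) ∈ R := by
      have h4 : (x 0 - e * x 1) * (a * (x 0 + e * x 1) +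
          algebraMap F E (l 0 * i - l 1 * (i * ε⁻¹))) = u ^ p - u - algebraMap F E d -
            (x 0 + e * x 1) * algebraMap F E (l 0 * i + l 1 * (i * ε⁻¹)) := by
        have h5 : e * algebraMap F E ε⁻¹ = 1 := by
          rw [he, ← map_mul, mul_inv_cancel₀ hε0, map_one]
        have h6 : 2 * algebraMap F E i = 1 := by
          rw [hi, ← map_ofNat (algebraMap F E) 2, ← map_mul, mul_inv_cancel₀ h2, map_one]
        rw [heq, map_sub, map_add, map_mul, map_mul, map_mul, ← ha, ← hb]
        linear_combination (-(x 1) ^ 2) * hab + (x 0 * algebraMap F E (l 0)) * h6 +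
          (2 * x 1 * algebraMap F E (l 1) * algebraMap F E i) * h5 +
            x 1 * algebraMap F E (l 1) * h6
      rw [h4]
      exact sub_mem (sub_mem (sub_mem (pow_mem hRu _) hRu) (hmem _)) (mul_mem hRt (hmem _))
    have h4 := R.div_mem h3 (add_mem (mul_mem (ha ▸ hmem (r 0 0)) hRt)
      (hmem (l 0 * i - l 1 * (i * ε⁻¹))))
    rwa [mul_div_cancel_right₀ _ (hc0 _)] at h4
  have h2E : (2 : E) ≠ 0 := by
    rw [← map_ofNat (algebraMap F E) 2]
    exact (_root_.map_ne_zero _).mpr h2
  have heE : e ≠ 0 := by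
    rw [he]
    exact (_root_.map_ne_zero _).mpr hε0
  have h2R : (2 : E) ∈ R := by
    rw [← map_ofNat (algebraMap F E) 2]
    exact hmem 2
  have hx0 : x 0 ∈ R := by
    have h3 := R.div_mem (add_mem hRt hx) h2R
    have h4 : (x 0 + e * x 1 + (x 0 - e * x 1)) / 2 = x 0 := by
      field_simp
      ring
    rwa [h4] at h3
  have hx1 : x 1 ∈ R := by
    have h3 := R.div_mem (sub_mem hRt hx0) (he ▸ hmem ε)
    have h4 : (x 0 + e * x 1 - x 0) / e = x 1 := by
      field_simp
      ring
    rwa [h4] at h3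
  have htop : R = ⊤ := by
    rw [eq_top_iff, ← hE.gen, IntermediateField.adjoin_le_iff]
    rintro y (⟨j, rfl⟩ | hy)
    · fin_cases j
      · exact hx0
      · exact hx1
    · rw [Set.mem_singleton_iff] at hy
      rw [hy]
      exact hRu
  refine ⟨![x 0 + e * x 1, u], ?_, hR ▸ htop⟩
  refine indep_of_trdeg hE.ind fun y => ?_
  rw [← hR]
  have hy : y ∈ R := by
    rw [htop]
    trivial
  exact isAlgebraic_algebraMap (⟨y, hy⟩ : R)

/-- The base case, `p` odd. -/
theorem addPair_zero {p : ℕ} [Fact p.Prime] (hp : p ≠ 2) :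
    AddPairNew.{u, z} p (fun _ => 0) ((2).factorial * p) := by
  intro m F E _ _ _ _ r l d x u hE z hz δ hδF hδx hδu hsum
  obtain ⟨F', _, _, _, hF', ε, hε⟩ := T6_sqrt (-r 1 0 / r 0 0)
  have : CharP F' p := charP_of_injective_algebraMap (algebraMap F F').injective p
  obtain ⟨E', _, _, _, _, hdeg, hcomm, hE'⟩ := hE.baseChange (F' := F')
  have : CharP E' p := charP_of_injective_algebraMap (algebraMap F' E').injective p
  obtain ⟨w, hw, hwgen⟩ := T6_core hp hE' (ε := ε) (by
    rw [hε, map_div₀, map_neg])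
  have hu' : (algebraMap E E' u + 1) ^ p - (algebraMap E E' u + 1) =
      algebraMap E E' u ^ p - algebraMap E E' u := by
    rw [add_pow_char, one_pow]
    ring
  obtain ⟨δ', hδ1, hδ2, hδ3⟩ := hE'.exists_hom _ hE'.ind (algebraMap E E' u + 1)
    (hu'.trans hE'.eq)
  refine new_smul_of_purely (hdeg.trans hF') hw hwgen δ δ' (fun y => ?_) hδ1 hz hsum
  have h1 : δ'.comp (algebraMap E E') = (algebraMap E E').comp δ := by
    refine hE.hom_ext (fun a => ?_) (fun j => ?_) ?_
    · simp only [RingHom.comp_apply]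
      rw [hδF, hcomm, hδ1]
    · simp only [RingHom.comp_apply]
      rw [hδx, hδ2]
    · simp only [RingHom.comp_apply]
      rw [hδu, hδ3, map_add, map_one]
  exact DFunLike.congr_fun h1 y

end UnrA.Fer
end

section

/-!
# Pairs of cubic forms in characteristic two
-/

namespace UnrA.Fer

open UnrG

universe u v w z

open Polynomial Finset
open scoped Classical

variable {m : UFun.{u, z}}

/-- Adjoining a root to a finite subextension. -/
private lemma T7_adj {F Ω : Type u} [Field F] [Field Ω] [Algebra F Ω] {d : ℕ}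
    (L : IntermediateField F Ω) (h : FiniteDimensional F L) (hd : Module.finrank F L ≤ d)
    {n : ℕ} (hn : 0 < n) {a : Ω} (ha : a ^ n ∈ L) :
    ∃ L' : IntermediateField F Ω, L ≤ L' ∧ a ∈ L' ∧ FiniteDimensional F L' ∧
      Module.finrank F L' ≤ d * n := by
  have hmon : (X ^ n - C (⟨a ^ n, ha⟩ : L) : L[X]).Monic := monic_X_pow_sub_C _ hn.ne'
  have hroot : aeval a (X ^ n - C (⟨a ^ n, ha⟩ : L) : L[X]) = 0 := by
    rw [map_sub, map_pow, aeval_X, aeval_C]
    exact sub_self _
  have hint : IsIntegral L a := ⟨_, hmon, by rw [← aeval_def]; exact hroot⟩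
  have hfd : FiniteDimensional L (IntermediateField.adjoin L {a}) :=
    IntermediateField.adjoin.finiteDimensional hint
  have hfd' : FiniteDimensional F (IntermediateField.adjoin L {a}) :=
    FiniteDimensional.trans F L _
  refine ⟨(IntermediateField.adjoin L {a}).restrictScalars F, fun x hx => ?_, ?_, hfd', ?_⟩
  · exact (IntermediateField.adjoin L {a}).algebraMap_mem (⟨x, hx⟩ : L)
  · exact IntermediateField.mem_adjoin_simple_self L a
  · have h1 : Module.finrank F (IntermediateField.adjoin L {a}) =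
        Module.finrank F L * Module.finrank L (IntermediateField.adjoin L {a}) :=
      (Module.finrank_mul_finrank F L _).symm
    have h2 := natDegree_le_of_dvd (minpoly.dvd L a hroot) hmon.ne_zero
    rw [natDegree_X_pow_sub_C, ← IntermediateField.adjoin.finrank hint] at h2
    calc _ = _ := h1
      _ ≤ _ := Nat.mul_le_mul hd h2

/-- The constants of the base case. -/
private lemma T7_ext {F : Type u} [Field F] (a₀ a₁ b c : F) :
    ∃ (F' : Type u) (_ : Field F') (_ : Algebra F F') (_ : FiniteDimensional F F')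
      (α₀ α₁ γ β : F'), Module.finrank F F' ≤ 24 ∧ α₀ ^ 2 = algebraMap F F' a₀ ∧
      α₁ ^ 2 = algebraMap F F' a₁ ∧ γ ^ 3 = algebraMap F F' b ∧ β ^ 2 = algebraMap F F' c := by
  obtain ⟨x₀, h₀⟩ := IsAlgClosed.exists_pow_nat_eq (algebraMap F (AlgebraicClosure F) a₀)
    two_pos
  obtain ⟨x₁, h₁⟩ := IsAlgClosed.exists_pow_nat_eq (algebraMap F (AlgebraicClosure F) a₁)
    two_pos
  obtain ⟨x₂, h₂⟩ := IsAlgClosed.exists_pow_nat_eq (algebraMap F (AlgebraicClosure F) b)
    three_pos
  obtain ⟨x₃, h₃⟩ := IsAlgClosed.exists_pow_nat_eq (algebraMap F (AlgebraicClosure F) c)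
    two_pos
  obtain ⟨L₀, -, hm₀, hf₀, hd₀⟩ := T7_adj (d := 1) (⊥ : IntermediateField F (AlgebraicClosure F))
    inferInstance (by rw [IntermediateField.finrank_bot]) two_pos (a := x₀)
    (by rw [h₀]; exact IntermediateField.algebraMap_mem _ _)
  obtain ⟨L₁, hl₁, hm₁, hf₁, hd₁⟩ := T7_adj L₀ hf₀ hd₀ two_pos (a := x₁)
    (by rw [h₁]; exact IntermediateField.algebraMap_mem _ _)
  obtain ⟨L₂, hl₂, hm₂, hf₂, hd₂⟩ := T7_adj L₁ hf₁ hd₁ three_pos (a := x₂)
    (by rw [h₂]; exact IntermediateField.algebraMap_mem _ _)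
  obtain ⟨L₃, hl₃, hm₃, hf₃, hd₃⟩ := T7_adj L₂ hf₂ hd₂ two_pos (a := x₃)
    (by rw [h₃]; exact IntermediateField.algebraMap_mem _ _)
  refine ⟨L₃, inferInstance, inferInstance, hf₃, ⟨x₀, hl₃ (hl₂ (hl₁ hm₀))⟩,
    ⟨x₁, hl₃ (hl₂ hm₁)⟩, ⟨x₂, hl₃ hm₂⟩, ⟨x₃, hm₃⟩, hd₃, ?_, ?_, ?_, ?_⟩
  · exact Subtype.ext h₀
  · exact Subtype.ext h₁
  · exact Subtype.ext h₂
  · exact Subtype.ext h₃

/-- Homomorphisms of fields of rational functions. -/
private lemma T7_hom {F K : Type u} [Field F] [Field K] [Algebra F K] {n : ℕ} {w w' : Fin n → K}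
    (hw : AlgebraicIndependent F w) (hgen : IntermediateField.adjoin F (Set.range w) = ⊤)
    (hw' : AlgebraicIndependent F w') :
    ∃ f : K →+* K, (∀ a : F, f (algebraMap F K a) = algebraMap F K a) ∧ ∀ i, f (w i) = w' i := by
  let e : K ≃ₐ[F] IntermediateField.adjoin F (Set.range w) :=
    IntermediateField.topEquiv.symm.trans (IntermediateField.equivOfEq hgen.symm)
  let f : K →ₐ[F] K := (IntermediateField.val _).comp
    (hw'.aevalEquivField.toAlgHom.comp ((e.trans hw.aevalEquivField.symm).toAlgHom))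
  refine ⟨f, fun a => f.commutes a, fun i => ?_⟩
  have h1 : hw.aevalEquivField.symm (e (w i)) = algebraMap (MvPolynomial (Fin n) F)
      (FractionRing (MvPolynomial (Fin n) F)) (MvPolynomial.X i) := by
    rw [AlgEquiv.symm_apply_eq]
    apply Subtype.ext
    rw [hw.aevalEquivField_algebraMap_apply_coe, MvPolynomial.aeval_X]
    rfl
  change ((hw'.aevalEquivField (hw.aevalEquivField.symm (e (w i))) :
    IntermediateField.adjoin F (Set.range w')) : K) = w' i
  rw [h1, hw'.aevalEquivField_algebraMap_apply_coe, MvPolynomial.aeval_X]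

/-- Generating families of the right length are independent. -/
private lemma T7_indep {F K : Type u} [Field F] [Field K] [Algebra F K] {f g : Fin 2 → K}
    (hf : AlgebraicIndependent F f) (hg : IntermediateField.adjoin F (Set.range g) = ⊤) :
    AlgebraicIndependent F g := by
  refine indep_of_trdeg hf fun z => ?_
  have hz : z ∈ IntermediateField.adjoin F (Set.range g) := by
    rw [hg]; exact IntermediateField.mem_top
  exact isAlgebraic_algebraMap (⟨z, hz⟩ : IntermediateField.adjoin F (Set.range g))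

/-- The identity of the base case. -/
private lemma T7_key {E : Type u} [Field E] [CharP E 2]
    (U X0 X1 τ d a0 a1 b0 b1 l0 l1 α0 α1 β γ : E)
    (hU : U ^ 2 - U = d + (X0 * (a0 * X0 + b0 * X0 ^ 2) + l0 * X0 +
      (X1 * (a1 * X1 + b1 * X1 ^ 2) + l1 * X1)))
    (hα0 : α0 ^ 2 = a0) (hα1 : α1 ^ 2 = a1) (hγ : b1 * γ ^ 3 = b0) (hβ : β ^ 2 = b1)
    (hτ : τ ^ 2 = X1 + γ * X0) :
    (U + α0 * X0 + α1 * X1 + β * γ * τ * X0) ^ 2 - (U + α0 * X0 + α1 * X1 + β * γ * τ * X0) =
      d + b1 * τ ^ 6 + (l1 + α1) * τ ^ 2 +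
        X0 * (b1 * γ * τ ^ 4 + (l0 + α0) + γ * (l1 + α1) + β * γ * τ) := by
  have hX1 : X1 = τ ^ 2 - γ * X0 := by rw [hτ]; ring
  subst hX1 hα0 hα1 hβ
  rw [← hγ] at hU
  have hU2 : U ^ 2 = U + (d + (X0 * (α0 ^ 2 * X0 + β ^ 2 * γ ^ 3 * X0 ^ 2) + l0 * X0 +
      ((τ ^ 2 - γ * X0) * (α1 ^ 2 * (τ ^ 2 - γ * X0) + β ^ 2 * (τ ^ 2 - γ * X0) ^ 2) +
        l1 * (τ ^ 2 - γ * X0)))) := by
    rw [← hU]; ring
  have h3 : ∀ y z : E, (y + z) ^ 2 = y ^ 2 + z ^ 2 := fun y z => CharTwo.add_sq y z
  rw [h3, h3, h3, hU2]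
  ring_nf
  reduce_mod_char!

/-- The field generated by a square root is rational. -/
private lemma T7_main {F K K' : Type u} [Field F] [Field K] [Field K'] [CharP F 2] [Algebra F K]
    [Algebra F K'] [Algebra K K'] [IsScalarTower F K K'] {r : Fin 2 → ℕ → F} {l : Fin 2 → F}
    {d : F} {x : Fin 2 → K} {u : K} (hK : IsAddPair 2 (fun _ => 1) r l d x u)
    {α₀ α₁ γ β : F} (hα₀ : α₀ ^ 2 = r 0 0) (hα₁ : α₁ ^ 2 = r 1 0) (hγ : r 1 1 * γ ^ 3 = r 0 1)
    (hβ : β ^ 2 = r 1 1) {τ : K'} (hτ : τ ^ 2 = algebraMap K K' (x 1 + algebraMap F K γ * x 0))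
    (htop : IntermediateField.adjoin K {τ} = ⊤) :
    ∃ w : Fin 2 → K', AlgebraicIndependent F w ∧
      IntermediateField.adjoin F (Set.range w) = ⊤ ∧
      ∃ δ : K' →+* K', (∀ a : F, δ (algebraMap F K' a) = algebraMap F K' a) ∧
        (∀ j, δ (algebraMap K K' (x j)) = algebraMap K K' (x j)) ∧
        δ (algebraMap K K' u) = algebraMap K K' u + 1 := by
  have hK2 : CharP K' 2 := charP_of_injective_algebraMap (algebraMap F K').injective 2
  have hr1 : r 1 1 ≠ 0 := hK.ne 1
  have hr0 : r 0 1 ≠ 0 := hK.ne 0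
  have hγ0 : γ ≠ 0 := by
    rintro rfl
    rw [zero_pow three_ne_zero, mul_zero] at hγ
    exact hr0 hγ.symm
  obtain ⟨X0, hX0⟩ : ∃ X0, X0 = algebraMap K K' (x 0) := ⟨_, rfl⟩
  obtain ⟨X1, hX1⟩ : ∃ X1, X1 = algebraMap K K' (x 1) := ⟨_, rfl⟩
  obtain ⟨U, hU⟩ : ∃ U, U = algebraMap K K' u := ⟨_, rfl⟩
  obtain ⟨G, hG⟩ : ∃ G, G = algebraMap F K' γ := ⟨_, rfl⟩
  have hτ' : τ ^ 2 = X1 + G * X0 := by
    rw [hτ, map_add, map_mul, ← IsScalarTower.algebraMap_apply, hX0, hX1, hG]
  have heq : U ^ 2 - U = algebraMap F K' d +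
      (X0 * (algebraMap F K' (r 0 0) * X0 + algebraMap F K' (r 0 1) * X0 ^ 2) +
        algebraMap F K' (l 0) * X0 +
      (X1 * (algebraMap F K' (r 1 0) * X1 + algebraMap F K' (r 1 1) * X1 ^ 2) +
        algebraMap F K' (l 1) * X1)) := by
    have h1 := congrArg (algebraMap K K') hK.eq
    rw [Fin.sum_univ_two] at h1
    simp only [adR, sum_range_succ, sum_range_zero, map_sub, map_add, map_mul, map_pow,
      ← IsScalarTower.algebraMap_apply, ← hX0, ← hX1, ← hU, zero_add, pow_zero, pow_one] at h1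
    exact h1
  have hkey := T7_key U X0 X1 τ (algebraMap F K' d) (algebraMap F K' (r 0 0))
    (algebraMap F K' (r 1 0)) (algebraMap F K' (r 0 1)) (algebraMap F K' (r 1 1))
    (algebraMap F K' (l 0)) (algebraMap F K' (l 1)) (algebraMap F K' α₀) (algebraMap F K' α₁)
    (algebraMap F K' β) G heq (by rw [← map_pow, hα₀]) (by rw [← map_pow, hα₁])
    (by rw [hG, ← map_pow, ← map_mul, hγ]) (by rw [← map_pow, hβ]) hτ'
  obtain ⟨V, hV⟩ : ∃ V, V = U + algebraMap F K' α₀ * X0 + algebraMap F K' α₁ * X1 +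
    algebraMap F K' β * G * τ * X0 := ⟨_, rfl⟩
  rw [← hV] at hkey
  obtain ⟨Q, hQ⟩ : ∃ Q : F[X], Q = C (r 1 1 * γ) * X ^ 4 + (C (β * γ) * X +
    C (l 0 + α₀ + γ * (l 1 + α₁))) := ⟨_, rfl⟩
  have hQτ : aeval τ Q = algebraMap F K' (r 1 1) * G * τ ^ 4 +
      (algebraMap F K' (l 0) + algebraMap F K' α₀) + G * (algebraMap F K' (l 1) +
        algebraMap F K' α₁) + algebraMap F K' β * G * τ := by
    rw [hQ, hG]
    simp only [map_add, map_mul, map_pow, aeval_X, aeval_C]
    ring
  have hQ0 : Q ≠ 0 := by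
    intro h0
    have h1 : Q.coeff 4 = r 1 1 * γ := by
      rw [hQ, coeff_add, coeff_add, coeff_C_mul_X_pow, if_pos rfl, coeff_C_mul, coeff_X,
        coeff_C, if_neg (by norm_num), if_neg (by norm_num), mul_zero, add_zero, add_zero]
    rw [h0, coeff_zero] at h1
    exact mul_ne_zero hr1 hγ0 h1.symm
  have hx : AlgebraicIndependent F (algebraMap K K' ∘ x) :=
    hK.ind.map' (f := IsScalarTower.toAlgHom F K K') (algebraMap K K').injective
  -- generation
  have hgen : ∀ T : IntermediateField F K', X0 ∈ T → X1 ∈ T → U ∈ T → τ ∈ T → T = ⊤ := by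
    intro T h0 h1 hu ht
    have hKT : ∀ z : K, algebraMap K K' z ∈ T := by
      intro z
      have hz : z ∈ IntermediateField.adjoin F (Set.range x ∪ {u}) := by
        rw [hK.gen]; exact IntermediateField.mem_top
      have hle : IntermediateField.adjoin F (Set.range x ∪ {u}) ≤
          T.comap (IsScalarTower.toAlgHom F K K') := by
        rw [IntermediateField.adjoin_le_iff]
        rintro z (⟨j, rfl⟩ | rfl)
        · fin_cases j
          · exact (show algebraMap K K' (x 0) ∈ T from hX0 ▸ h0)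
          · exact (show algebraMap K K' (x 1) ∈ T from hX1 ▸ h1)
        · exact (show algebraMap K K' z ∈ T from hU ▸ hu)
      exact hle hz
    rw [eq_top_iff]
    rintro z -
    have hz : z ∈ IntermediateField.adjoin K {τ} := by
      rw [htop]; exact IntermediateField.mem_top
    induction hz using IntermediateField.adjoin_induction with
    | mem x hx => rw [Set.mem_singleton_iff.1 hx]; exact ht
    | algebraMap x => exact hKT x
    | add x y _ _ hx hy => exact add_mem hx hy
    | mul x y _ _ hx hy => exact mul_mem hx hy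
    | inv x _ hx => exact inv_mem hx
  -- `τ` is transcendental
  have htr : Transcendental F τ := by
    have h1 : AlgebraicIndependent F ![X0, τ ^ 2] := by
      refine indep_of_trdeg hx fun z => ?_
      obtain ⟨B, hB⟩ : ∃ B : IntermediateField F K',
        B = IntermediateField.adjoin F (Set.range ![X0, τ ^ 2]) := ⟨_, rfl⟩
      rw [← hB]
      have h0 : X0 ∈ B := by
        rw [hB]; exact IntermediateField.subset_adjoin _ _ ⟨0, rfl⟩
      have ht : τ ^ 2 ∈ B := by
        rw [hB]; exact IntermediateField.subset_adjoin _ _ ⟨1, rfl⟩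
      have h1 : X1 ∈ B := by
        have h2 : X1 = τ ^ 2 - G * X0 := by rw [hτ']; ring
        rw [h2]
        exact sub_mem ht (mul_mem (hG ▸ B.algebraMap_mem _) h0)
      let A := (algebraicClosure B K').restrictScalars F
      have hA : ∀ z, z ∈ A ↔ IsAlgebraic B z := fun z => by
        change z ∈ algebraicClosure B K' ↔ _
        rw [mem_algebraicClosure_iff]
      have hBA : ∀ z ∈ B, z ∈ A := fun z hz => (hA _).2 (isAlgebraic_algebraMap (⟨_, hz⟩ : B))
      have hAtop : A = ⊤ := by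
        refine hgen A (hBA _ h0) (hBA _ h1) ?_ ?_
        · have hc : U ^ 2 - U ∈ B := by
            rw [heq]
            have hF : ∀ a : F, algebraMap F K' a ∈ B := fun a => B.algebraMap_mem a
            exact add_mem (hF _) (add_mem (add_mem (mul_mem h0 (add_mem (mul_mem (hF _) h0)
              (mul_mem (hF _) (pow_mem h0 2)))) (mul_mem (hF _) h0)) (add_mem (mul_mem h1
              (add_mem (mul_mem (hF _) h1) (mul_mem (hF _) (pow_mem h1 2))))
              (mul_mem (hF _) h1)))
          refine (hA _).2 ⟨X ^ 2 - X - C (⟨_, hc⟩ : B), ?_, ?_⟩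
          · intro h2
            have h3 : (X ^ 2 - X - C (⟨_, hc⟩ : B) : B[X]).coeff 2 = 1 := by
              simp [coeff_X]
            rw [h2, coeff_zero] at h3
            exact zero_ne_one h3
          · rw [map_sub, map_sub, map_pow, aeval_X, aeval_C]
            exact sub_self _
        · refine (hA _).2 ⟨X ^ 2 - C (⟨_, ht⟩ : B), (monic_X_pow_sub_C _ two_ne_zero).ne_zero, ?_⟩
          rw [map_sub, map_pow, aeval_X, aeval_C]
          exact sub_self _
      exact (hA z).1 (hAtop ▸ IntermediateField.mem_top)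
    have h2 := h1.transcendental 1
    intro h3
    exact h2 (h3.pow 2)
  have hQτ0 : aeval τ Q ≠ 0 := fun h0 => htr ⟨Q, hQ0, h0⟩
  have hX0eq : X0 * aeval τ Q = V ^ 2 - V - (algebraMap F K' d + algebraMap F K' (r 1 1) * τ ^ 6 +
      (algebraMap F K' (l 1) + algebraMap F K' α₁) * τ ^ 2) := by
    rw [hkey, hQτ]; ring
  have hgenw : ∀ T : IntermediateField F K', τ ∈ T → V ∈ T → T = ⊤ := by
    intro T ht hv
    have hF : ∀ a : F, algebraMap F K' a ∈ T := fun a => T.algebraMap_mem a
    have hG' : G ∈ T := hG ▸ hF _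
    have hQT : aeval τ Q ∈ T := by
      rw [hQτ]
      exact add_mem (add_mem (add_mem (mul_mem (mul_mem (hF _) hG') (pow_mem ht 4))
        (add_mem (hF _) (hF _))) (mul_mem hG' (add_mem (hF _) (hF _))))
        (mul_mem (mul_mem (hF _) hG') ht)
    have h0 : X0 ∈ T := by
      rw [← mul_div_cancel_right₀ X0 hQτ0, hX0eq]
      exact div_mem (sub_mem (sub_mem (pow_mem hv 2) hv) (add_mem (add_mem (hF _)
        (mul_mem (hF _) (pow_mem ht 6))) (mul_mem (add_mem (hF _) (hF _)) (pow_mem ht 2)))) hQT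
    have h1 : X1 ∈ T := by
      have h2 : X1 = τ ^ 2 - G * X0 := by rw [hτ']; ring
      rw [h2]
      exact sub_mem (pow_mem ht 2) (mul_mem hG' h0)
    refine hgen T h0 h1 ?_ ht
    have h2 : U = V - (algebraMap F K' α₀ * X0 + algebraMap F K' α₁ * X1 +
      algebraMap F K' β * G * τ * X0) := by rw [hV]; ring
    rw [h2]
    exact sub_mem hv (add_mem (add_mem (mul_mem (hF _) h0) (mul_mem (hF _) h1))
      (mul_mem (mul_mem (mul_mem (hF _) hG') ht) h0))
  have hw1 : IntermediateField.adjoin F (Set.range ![τ, V]) = ⊤ :=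
    hgenw _ (IntermediateField.subset_adjoin _ _ ⟨0, rfl⟩)
      (IntermediateField.subset_adjoin _ _ ⟨1, rfl⟩)
  have hw2 : IntermediateField.adjoin F (Set.range ![τ, V + 1]) = ⊤ := by
    refine hgenw _ (IntermediateField.subset_adjoin _ _ ⟨0, rfl⟩) ?_
    have h1 : V + 1 ∈ IntermediateField.adjoin F (Set.range ![τ, V + 1]) :=
      IntermediateField.subset_adjoin _ _ ⟨1, rfl⟩
    have h2 := sub_mem h1 (one_mem (IntermediateField.adjoin F (Set.range ![τ, V + 1])))
    rwa [add_sub_cancel_right] at h2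
  obtain ⟨δ, hδF, hδw⟩ := T7_hom (T7_indep hx hw1) hw1 (T7_indep hx hw2)
  have hδτ : δ τ = τ := hδw 0
  have hδV : δ V = V + 1 := hδw 1
  have h20 : (2 : K') = 0 := CharTwo.two_eq_zero
  have hδQ : δ (aeval τ Q) = aeval τ Q := by
    rw [hQτ, hG]
    simp only [map_add, map_mul, map_pow, hδF, hδτ]
  have hδ0 : δ X0 = X0 := by
    have h1 := congrArg δ hX0eq
    rw [map_mul, hδQ] at h1
    refine mul_right_cancel₀ hQτ0 (h1.trans ?_)
    rw [hX0eq]
    simp only [map_sub, map_add, map_mul, map_pow, hδF, hδτ, hδV]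
    linear_combination V * h20
  have hδ1 : δ X1 = X1 := by
    have h2 : X1 = τ ^ 2 - G * X0 := by rw [hτ']; ring
    rw [h2, map_sub, map_mul, map_pow, hδτ, hδ0, hG, hδF]
  refine ⟨![τ, V], T7_indep hx hw1, hw1, δ, hδF, fun j => ?_, ?_⟩
  · fin_cases j
    · exact hX0 ▸ hδ0
    · exact hX1 ▸ hδ1
  · rw [← hU]
    have h2 : U = V - (algebraMap F K' α₀ * X0 + algebraMap F K' α₁ * X1 +
      algebraMap F K' β * G * τ * X0) := by rw [hV]; ring
    rw [h2, map_sub, hδV]
    simp only [map_add, map_mul, hδF, hδτ, hδ0, hδ1, hG]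
    ring

/-- The base case, `p = 2`. -/
theorem addPair_one : AddPairNew.{u, z} 2 (fun _ => 1) ((48).factorial * 2) := by
  intro m F E _ _ _ _ r l d x u hE z hz δ hδF hδx hδu hsum
  obtain ⟨F', _, _, hfdF, α₀, α₁, γ, β, hdeg, hα₀, hα₁, hγ, hβ⟩ :=
    T7_ext (r 0 0) (r 1 0) (r 0 1 / r 1 1) (r 1 1)
  obtain ⟨E₁, _, _, _, hfd₁, hle₁, hcomm, hE₁⟩ := hE.baseChange (F' := F')
  have hF2 : CharP F' 2 := charP_of_injective_algebraMap (algebraMap F F').injective 2
  obtain ⟨E', _, _, _, htow, τ, hfd', hdeg', hτ, htop⟩ := exists_root_ext (F := F') (K := E₁)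
    (p := 2) 1 (algebraMap E E₁ (x 1) + algebraMap F' E₁ γ * algebraMap E E₁ (x 0))
  rw [pow_one] at hdeg' hτ
  have hγ' : algebraMap F F' (r 1 1) * γ ^ 3 = algebraMap F F' (r 0 1) := by
    rw [hγ, ← map_mul, mul_div_cancel₀ _ (hE.ne 1)]
  obtain ⟨w, hw, hwt, δ', h1, h2, h3⟩ := T7_main hE₁ hα₀ hα₁ hγ' hβ hτ htop
  let _ : Algebra E E' := ((algebraMap E₁ E').comp (algebraMap E E₁)).toAlgebra
  have hst : IsScalarTower E E₁ E' := IsScalarTower.of_algebraMap_eq fun _ => rfl
  have hfd : FiniteDimensional E E' := FiniteDimensional.trans E E₁ E'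
  have hD : Module.finrank E E' ≤ 48 := by
    rw [← Module.finrank_mul_finrank E E₁ E']
    exact (Nat.mul_le_mul (hle₁.trans hdeg) hdeg').trans (by norm_num)
  refine new_smul_of_purely hD hw hwt δ δ' (fun z => ?_) h1 hz hsum
  have hcomp : δ'.comp (algebraMap E E') = (algebraMap E E').comp δ := by
    have hE2 : CharP E 2 := charP_of_injective_algebraMap (algebraMap F E).injective 2
    refine hE.hom_ext (fun a => ?_) (fun j => ?_) ?_
    · rw [RingHom.comp_apply, RingHom.comp_apply, hδF]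
      change δ' (algebraMap E₁ E' (algebraMap E E₁ (algebraMap F E a))) =
        algebraMap E₁ E' (algebraMap E E₁ (algebraMap F E a))
      rw [hcomm, ← IsScalarTower.algebraMap_apply F' E₁ E', h1]
    · rw [RingHom.comp_apply, RingHom.comp_apply, hδx]
      exact h2 j
    · rw [RingHom.comp_apply, RingHom.comp_apply, hδu, map_add, map_one]
      exact h3
  exact RingHom.congr_fun hcomp z

end UnrA.Fer
end

section

/-!
# New classes of pairs
-/

namespace UnrA.Fer

open UnrG

universe u v w z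

open Polynomial Finset
open scoped Classical

/-- New classes of pairs are killed by an integer depending only on `p` and the degrees. -/
theorem addPair_new {p : ℕ} [Fact p.Prime] (h : Fin 2 → ℕ) :
    ∃ C : ℕ, 0 < C ∧ AddPairNew.{u, z} p h C := by
  have hp : 0 < p := (Fact.out : p.Prime).pos
  obtain ⟨n, hn⟩ : ∃ n, n = h 0 + h 1 := ⟨_, rfl⟩
  induction n using Nat.strong_induction_on generalizing h with
  | _ n IH =>
  -- the step for the first exponent
  have step : ∀ h' : Fin 2 → ℕ, h' 0 + h' 1 = n → ∀ h₀, h' 0 = h₀ + 1 → (p = 2 → 0 < h₀) →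
      ∃ C : ℕ, 0 < C ∧ AddPairNew.{u, z} p h' C := by
    intro h' hs h₀ hh h2
    obtain ⟨C, hC, hA⟩ := IH (h₀ + h' 1) (by omega) ![h₀, h' 1] (by simp)
    exact ⟨_, by positivity, addPair_step hh h2 hA⟩
  by_cases hp2 : p = 2
  · by_cases h0 : h 0 = 0
    · refine ⟨1, one_pos, ?_⟩
      intro m F E _ _ _ _ r l d x u hE
      have := hE.pos hp2 0
      omega
    by_cases h1 : h 1 = 0
    · refine ⟨1, one_pos, ?_⟩
      intro m F E _ _ _ _ r l d x u hE
      have := hE.pos hp2 1
      omega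
    by_cases h00 : h 0 = 1
    · by_cases h11 : h 1 = 1
      · have : h = fun _ => 1 := by
          funext j; fin_cases j
          · exact h00
          · exact h11
        subst this
        subst hp2
        exact ⟨_, by positivity, addPair_one⟩
      · obtain ⟨h₀, hh⟩ : ∃ h₀, h 1 = h₀ + 1 := ⟨h 1 - 1, by omega⟩
        obtain ⟨C, hC, hA⟩ := step (fun j => h (1 - j)) (by simp; omega) h₀ (by simpa using hh)
          (fun _ => by omega)
        have := hA.swap
        refine ⟨C, hC, ?_⟩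
        have e : (fun j => (fun j => h (1 - j)) (1 - j)) = h := by
          funext j; fin_cases j <;> rfl
        rwa [e] at this
    · obtain ⟨h₀, hh⟩ : ∃ h₀, h 0 = h₀ + 1 := ⟨h 0 - 1, by omega⟩
      exact step h hn.symm h₀ hh (fun _ => by omega)
  · by_cases h0 : h 0 = 0
    · by_cases h1 : h 1 = 0
      · have : h = fun _ => 0 := by
          funext j; fin_cases j
          · exact h0
          · exact h1
        subst this
        exact ⟨_, by positivity, addPair_zero hp2⟩
      · obtain ⟨h₀, hh⟩ : ∃ h₀, h 1 = h₀ + 1 := ⟨h 1 - 1, by omega⟩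
        obtain ⟨C, hC, hA⟩ := step (fun j => h (1 - j)) (by simp; omega) h₀ (by simpa using hh)
          (fun h => absurd h hp2)
        have := hA.swap
        refine ⟨C, hC, ?_⟩
        have e : (fun j => (fun j => h (1 - j)) (1 - j)) = h := by
          funext j; fin_cases j <;> rfl
        rwa [e] at this
    · obtain ⟨h₀, hh⟩ : ∃ h₀, h 0 = h₀ + 1 := ⟨h 0 - 1, by omega⟩
      exact step h hn.symm h₀ hh (fun h => absurd h hp2)

end UnrA.Fer
end
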