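import Pool.Agent.Lib.MP_859dd5_ag.Mg.G044
import Pool.Agent.Lib.MP_859dd5_ag.Mg.G069
import Pool.Agent.Lib.MP_859dd5_ag.Mg.G078
import Pool.Agent.Lib.MP_859dd5_ag.Mg.G079

section

/-!
# The case where `-1` is a power of `p`
-/

namespace UnrA.Fer

open UnrG

universe u v w z

open Polynomial Finset
open scoped Classical

private lemma C3_le {F E : Type*} [Field F] [Field E] [Algebra F E] {S : Set E}
    (hS : IntermediateField.adjoin F S = ⊤) {R : Subfield E}
    (h1 : ∀ a : F, algebraMap F E a ∈ R) (h2 : ∀ x ∈ S, x ∈ R) (x : E) : x ∈ R := by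
  have h3 := congrArg IntermediateField.toSubfield hS
  rw [IntermediateField.adjoin_toSubfield, IntermediateField.top_toSubfield] at h3
  have h4 : (⊤ : Subfield E) ≤ R := by
    rw [← h3, Subfield.closure_le]
    rintro y (⟨a, rfl⟩ | hy)
    · exact h1 a
    · exact h2 y hy
  exact h4 (Subfield.mem_top x)

private lemma C3_comp_pow {E E' : Type*} [Field E] [Field E'] {a : E →+* E'} {δ : E →+* E}
    {δ' : E' →+* E'} (h : δ'.comp a = a.comp δ) (i : ℕ) : (δ' ^ i).comp a = a.comp (δ ^ i) := by
  induction i with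
  | zero => rfl
  | succ i ih =>
    rw [pow_succ, pow_succ]
    change ((δ' ^ i).comp δ').comp a = a.comp ((δ ^ i).comp δ)
    rw [RingHom.comp_assoc, h, ← RingHom.comp_assoc, ih, RingHom.comp_assoc]

private lemma C3_finrank {E M : Type u} [Field E] [Field M] [Algebra E M] {N : ℕ} (hN : 0 < N)
    {z : M} (hz : ∃ a : E, z ^ N = algebraMap E M a) :
    FiniteDimensional E (IntermediateField.adjoin E {z}) ∧
      Module.finrank E (IntermediateField.adjoin E {z}) ≤ N := by
  obtain ⟨a, ha⟩ := hz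
  have hae : aeval z (X ^ N - C a : E[X]) = 0 := by
    rw [map_sub, map_pow, aeval_X, aeval_C, ha, sub_self]
  have hint : IsIntegral E z := ⟨X ^ N - C a, monic_X_pow_sub_C a hN.ne', by
    rw [← aeval_def]; exact hae⟩
  refine ⟨IntermediateField.adjoin.finiteDimensional hint, ?_⟩
  rw [IntermediateField.adjoin.finrank hint]
  have h5 := natDegree_le_of_dvd (minpoly.dvd E z hae) (monic_X_pow_sub_C a hN.ne').ne_zero
  rwa [natDegree_X_pow_sub_C] at h5

/-- New classes of a cover with two exponents when `N` divides `p ^ k + 1`. -/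
theorem as_herm_new {p N : ℕ} [Fact p.Prime] (hN : N.Prime) (hpN : p ≠ N) (k : ℕ)
    (hk : N ∣ p ^ k + 1) :
    ∃ C : ℕ, 0 < C ∧ ∀ (m : UFun.{u, z}) (F E : Type u) [Field F] [Field E] [CharP F p]
    [Algebra F E] (X : Fin 2 → E) (D d : F) (v u : E) (c₀ c₁ : ℕ) (_ : D ≠ 0)
    (_ : AlgebraicIndependent F X) (_ : v ^ N = algebraMap F E D * (X 0 ^ c₀ * X 1 ^ c₁))
    (_ : u ^ p - u = algebraMap F E d + (X 0 + X 1))
    (_ : IntermediateField.adjoin F (Set.range X ∪ {v, u}) = ⊤) (z : KM m E) (_ : Unr z)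
    (δ : E →+* E) (_ : ∀ a : F, δ (algebraMap F E a) = algebraMap F E a)
    (_ : ∀ i, δ (X i) = X i) (_ : δ v = v) (_ : δ u = u + 1)
    (_ : ∑ i ∈ range p, KM.map m (δ ^ i) z = 0), C • z = 0 := by
  obtain ⟨C', hC'0, hC'⟩ := addPair_new.{u, z} (p := p) (fun _ => k)
  refine ⟨((p ^ k + 1) ^ 2).factorial * C', Nat.mul_pos (Nat.factorial_pos _) hC'0, ?_⟩
  intro m F E _ _ _ _ X D d v u c₀ c₁ hD hX hv hu hgen z hz δ hδF hδX hδv hδu hsum
  have hp : p.Prime := Fact.out
  have hk0 : p = 2 → 0 < k := by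
    intro h2
    rcases Nat.eq_zero_or_pos k with h0 | h0
    · exfalso
      rw [h0, pow_zero] at hk
      have h3 : N = 2 := ((Nat.dvd_prime Nat.prime_two).1 hk).resolve_left hN.one_lt.ne'
      exact hpN (h2.trans h3.symm)
    · exact h0
  have hP1 : 0 < p ^ k + 1 := Nat.succ_pos _
  obtain ⟨l, hl⟩ := hk
  obtain ⟨Ω, _, _, _⟩ : ∃ (Ω : Type u) (_ : Field Ω) (_ : Algebra E Ω), IsAlgClosed Ω :=
    ⟨AlgebraicClosure E, inferInstance, inferInstance, inferInstance⟩
  let _ : Algebra F Ω := ((algebraMap E Ω).comp (algebraMap F E)).toAlgebra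
  have hst : IsScalarTower F E Ω := IsScalarTower.of_algebraMap_eq fun x => rfl
  have hξ : ∀ i, ∃ y : Ω, y ^ (p ^ k + 1) = algebraMap E Ω (X i) := fun i =>
    IsAlgClosed.exists_pow_nat_eq _ hP1
  choose ξ hξ using hξ
  have hX0 : ∀ i, X i ≠ 0 := fun i => hX.ne_zero i
  have hξ0 : ∀ i, ξ i ≠ 0 := by
    intro i h0
    have h1 := hξ i
    rw [h0, zero_pow hP1.ne'] at h1
    exact hX0 i ((_root_.map_eq_zero (algebraMap E Ω)).1 h1.symm)
  have hξN : ∀ i, (ξ i ^ l) ^ N = algebraMap E Ω (X i) := by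
    intro i
    rw [← pow_mul, mul_comm, ← hl, hξ]
  obtain ⟨D₁, hD₁⟩ : ∃ D₁ : Ω, D₁ = algebraMap E Ω v / ((ξ 0 ^ l) ^ c₀ * (ξ 1 ^ l) ^ c₁) :=
    ⟨_, rfl⟩
  have hne : (ξ 0 ^ l) ^ c₀ * (ξ 1 ^ l) ^ c₁ ≠ 0 :=
    mul_ne_zero (pow_ne_zero _ (pow_ne_zero _ (hξ0 0))) (pow_ne_zero _ (pow_ne_zero _ (hξ0 1)))
  have hvD : algebraMap E Ω v = D₁ * ((ξ 0 ^ l) ^ c₀ * (ξ 1 ^ l) ^ c₁) := by
    rw [hD₁, div_mul_cancel₀ _ hne]
  have hD₁N : D₁ ^ N = algebraMap F Ω D := by
    rw [hD₁, div_pow, div_eq_iff (pow_ne_zero _ hne), ← map_pow, hv, mul_pow, ← pow_mul,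
      ← pow_mul _ c₁, mul_comm c₀, mul_comm c₁, pow_mul _ N, pow_mul _ N, hξN, hξN, map_mul,
      map_mul, map_pow, map_pow]
    rfl
  -- the fields
  have hξE : ∀ i, ∃ a : E, ξ i ^ (p ^ k + 1) = algebraMap E Ω a := fun i => ⟨_, hξ i⟩
  obtain ⟨hf0, hr0⟩ := C3_finrank hP1 (hξE 0)
  obtain ⟨hf1, hr1⟩ := C3_finrank hP1 (hξE 1)
  obtain ⟨T, hT⟩ : ∃ T : IntermediateField E Ω, T = IntermediateField.adjoin E {ξ 0} ⊔
    IntermediateField.adjoin E {ξ 1} := ⟨_, rfl⟩
  have hfT : FiniteDimensional E T := by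
    rw [hT]
    exact IntermediateField.finiteDimensional_sup _ _
  have hrT : Module.finrank E T ≤ (p ^ k + 1) ^ 2 := by
    rw [hT, sq]
    exact (IntermediateField.finrank_sup_le _ _).trans (Nat.mul_le_mul hr0 hr1)
  have hξT : ∀ i, ξ i ∈ T := by
    intro i
    rw [hT]
    fin_cases i
    · exact (le_sup_left : IntermediateField.adjoin E {ξ 0} ≤ _)
        (IntermediateField.mem_adjoin_simple_self E _)
    · exact (le_sup_right : IntermediateField.adjoin E {ξ 1} ≤ _)
        (IntermediateField.mem_adjoin_simple_self E _)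
  have hD₁T : D₁ ∈ T := by
    rw [hD₁]
    exact div_mem (T.algebraMap_mem v) (mul_mem (pow_mem (pow_mem (hξT 0) _) _)
      (pow_mem (pow_mem (hξT 1) _) _))
  have hfF' : FiniteDimensional F (IntermediateField.adjoin F {D₁}) :=
    (C3_finrank hN.pos ⟨D, hD₁N⟩).1
  obtain ⟨F', hF'⟩ : ∃ F' : IntermediateField F Ω, F' = IntermediateField.adjoin F {D₁} :=
    ⟨_, rfl⟩
  rw [← hF'] at hfF'
  have hle : ∀ x : F', (x : Ω) ∈ T := by
    intro x
    have h1 : F' ≤ T.restrictScalars F := by
      rw [hF', IntermediateField.adjoin_le_iff]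
      rintro y hy
      rw [Set.mem_singleton_iff] at hy
      rw [hy]
      exact hD₁T
    exact h1 x.2
  let i' : F' →+* T := (algebraMap F' Ω).codRestrict T.toSubfield hle
  let _ : Algebra F' T := i'.toAlgebra
  have hi' : ∀ x : F', ((algebraMap F' T x : T) : Ω) = x := fun x => rfl
  have hE' : ∀ x : E, ((algebraMap E T x : T) : Ω) = algebraMap E Ω x := fun x => rfl
  have hcomm : ∀ a : F, algebraMap E T (algebraMap F E a) = algebraMap F' T (algebraMap F F' a) :=
    fun a => rfl
  have hD₁F : D₁ ∈ F' := by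
    rw [hF']
    exact IntermediateField.mem_adjoin_simple_self F _
  have hcF' : CharP F' p := charP_of_injective_algebraMap (algebraMap F F').injective p
  have hcE : CharP E p := charP_of_injective_algebraMap (algebraMap F E).injective p
  have hcT : CharP T p := charP_of_injective_algebraMap (algebraMap E T).injective p
  obtain ⟨ξ', hξ'⟩ : ∃ ξ' : Fin 2 → T, ∀ i, (ξ' i : Ω) = ξ i := ⟨fun i => ⟨ξ i, hξT i⟩, fun i => rfl⟩
  have hξX : ∀ i, ξ' i ^ (p ^ k + 1) = algebraMap E T (X i) := by
    intro i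
    apply Subtype.ext
    change (ξ' i : Ω) ^ (p ^ k + 1) = _
    rw [hξ', hξ, hE']
  have hvT : algebraMap E T v = algebraMap F' T ⟨D₁, hD₁F⟩ * ((ξ' 0 ^ l) ^ c₀ * (ξ' 1 ^ l) ^ c₁) := by
    apply Subtype.ext
    change algebraMap E Ω v = D₁ * (((ξ' 0 : Ω) ^ l) ^ c₀ * ((ξ' 1 : Ω) ^ l) ^ c₁)
    rw [hξ', hξ', hvD]
  have hadR : ∀ x : T, adR p k (fun i => algebraMap F' T (if i = k then 1 else 0)) x =
      x ^ p ^ k := by
    intro x
    unfold adR
    rw [Finset.sum_eq_single k]
    · change algebraMap F' T (if k = k then 1 else 0) * x ^ p ^ k = _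
      rw [if_pos rfl, map_one, one_mul]
    · intro i _ hi
      change algebraMap F' T (if i = k then 1 else 0) * x ^ p ^ i = 0
      rw [if_neg hi, map_zero, zero_mul]
    · intro h
      exact absurd (Finset.mem_range.2 (Nat.lt_succ_self k)) h
  have hmul : ∀ x : T, x * x ^ p ^ k = x ^ (p ^ k + 1) := fun x => (pow_succ' _ _).symm
  have hpair : IsAddPair p (fun _ => k) (fun _ i => if i = k then (1 : F') else 0)
      (fun _ => (0 : F')) (algebraMap F F' d) ξ' (algebraMap E T u) := by
    refine ⟨fun j => ?_, fun h2 _ => hk0 h2, ?_, ?_, ?_⟩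
    · rw [if_pos rfl]
      exact one_ne_zero
    · have h1 : AlgebraicIndependent F (fun j => algebraMap E Ω (X j)) :=
        hX.map' (f := IsScalarTower.toAlgHom F E Ω) (algebraMap E Ω).injective
      have h2 : AlgebraicIndependent F ξ := indep_of_pow h1 (fun _ => p ^ k + 1) hξ
      have halg : Algebra.IsAlgebraic F F' := Algebra.IsAlgebraic.of_finite F F'
      have h3 : AlgebraicIndependent F' ξ := h2.extendScalars F'
      have hst' : IsScalarTower F' T Ω := IsScalarTower.of_algebraMap_eq fun x => rfl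
      have h4 : AlgebraicIndependent F' ((IsScalarTower.toAlgHom F' T Ω) ∘ ξ') := by
        have h5 : (IsScalarTower.toAlgHom F' T Ω) ∘ ξ' = ξ := funext fun i => hξ' i
        rw [h5]
        exact h3
      exact h4.of_comp
    · rw [← hcomm, ← map_pow, ← map_sub, hu, map_add, map_add, Fin.sum_univ_two]
      simp only [hadR, map_zero, zero_mul, add_zero, hmul, hξX]
    · rw [eq_top_iff]
      intro x _
      obtain ⟨R, hR⟩ : ∃ R, R = IntermediateField.adjoin F' (Set.range ξ' ∪
        {algebraMap E T u}) := ⟨_, rfl⟩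
      rw [← hR]
      have hξR : ∀ i, ξ' i ∈ R := by
        intro i
        rw [hR]
        exact IntermediateField.subset_adjoin _ _ (Or.inl ⟨i, rfl⟩)
      have huR : algebraMap E T u ∈ R := by
        rw [hR]
        exact IntermediateField.subset_adjoin _ _ (Or.inr rfl)
      have hER : ∀ y : E, algebraMap E T y ∈ R := by
        refine fun y => C3_le hgen (R := R.toSubfield.comap (algebraMap E T)) ?_ ?_ y
        · intro a
          change algebraMap E T (algebraMap F E a) ∈ R
          rw [hcomm]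
          exact R.algebraMap_mem _
        · rintro y (⟨i, rfl⟩ | hy)
          · change algebraMap E T (X i) ∈ R
            rw [← hξX]
            exact pow_mem (hξR i) _
          · rw [Set.mem_insert_iff, Set.mem_singleton_iff] at hy
            rcases hy with rfl | rfl
            · change algebraMap E T y ∈ R
              rw [hvT]
              exact mul_mem (R.algebraMap_mem _) (mul_mem (pow_mem (pow_mem (hξR 0) _) _)
                (pow_mem (pow_mem (hξR 1) _) _))
            · exact huR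
      -- the elements of `T`
      have h1 : T.toSubfield = Subfield.closure (Set.range (algebraMap E Ω) ∪ {ξ 0, ξ 1}) := by
        rw [hT, ← IntermediateField.adjoin_union, Set.singleton_union,
          IntermediateField.adjoin_toSubfield]
      have h2 : T.toSubfield ≤ R.toSubfield.map (algebraMap T Ω) := by
        rw [h1, Subfield.closure_le]
        rintro _ (⟨a, rfl⟩ | hy)
        · exact ⟨algebraMap E T a, hER a, rfl⟩
        · rw [Set.mem_insert_iff, Set.mem_singleton_iff] at hy
          rcases hy with rfl | rfl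
          · exact ⟨ξ' 0, hξR 0, hξ' 0⟩
          · exact ⟨ξ' 1, hξR 1, hξ' 1⟩
      obtain ⟨y, hy, hyx⟩ := h2 x.2
      have h3 : y = x := Subtype.ext hyx
      rw [← h3]
      exact hy
  obtain ⟨δ', hδ'F, hδ'ξ, hδ'u⟩ := hpair.exists_hom (E' := T) ξ' hpair.ind
    (algebraMap E T u + 1) (by
      have h1 : (algebraMap E T u + 1) ^ p - (algebraMap E T u + 1) =
          algebraMap E T u ^ p - algebraMap E T u := by
        rw [add_pow_char, one_pow]
        ring
      rw [h1]
      exact hpair.eq)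
  have hext : δ'.comp (algebraMap E T) = (algebraMap E T).comp δ := by
    refine RingHom.ext fun y => ?_
    refine C3_le hgen (R := RingHom.eqLocusField (δ'.comp (algebraMap E T))
      ((algebraMap E T).comp δ)) ?_ ?_ y
    · intro a
      change δ' (algebraMap E T (algebraMap F E a)) = algebraMap E T (δ (algebraMap F E a))
      rw [hδF, hcomm, hδ'F]
    · rintro y (⟨i, rfl⟩ | hy)
      · change δ' (algebraMap E T (X i)) = algebraMap E T (δ (X i))
        rw [hδX, ← hξX, map_pow, hδ'ξ]
      · rw [Set.mem_insert_iff, Set.mem_singleton_iff] at hy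
        rcases hy with rfl | rfl
        · change δ' (algebraMap E T y) = algebraMap E T (δ y)
          rw [hδv, hvT, map_mul, map_mul, map_pow, map_pow, map_pow, map_pow, hδ'ξ, hδ'ξ, hδ'F]
        · change δ' (algebraMap E T y) = algebraMap E T (δ y)
          rw [hδu, hδ'u, map_add, map_one]
  have hkill := hC' m F' T _ _ _ ξ' (algebraMap E T u) hpair (KM.map m (algebraMap E T) z)
    (hz.map _) δ' hδ'F hδ'ξ hδ'u (by
      have h1 : ∀ i ∈ range p, KM.map m (δ' ^ i) (KM.map m (algebraMap E T) z) =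
          KM.map m (algebraMap E T) (KM.map m (δ ^ i) z) := by
        intro i _
        rw [KM.map_map, KM.map_map, C3_comp_pow hext i]
      rw [Finset.sum_congr rfl h1, ← map_sum, hsum, map_zero])
  rw [← map_nsmul] at hkill
  rw [mul_smul]
  have h1 := finrank_smul_eq_zero _ rfl hkill
  obtain ⟨e, he⟩ := Nat.dvd_factorial (Module.finrank_pos (R := E) (M := T)) hrT
  rw [he, mul_comm, mul_smul, h1, smul_zero]

end UnrA.Fer
end

section

/-!
# One curve of each family, when `-1` is a power of `p`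
-/

namespace UnrA.Fer

open UnrG

universe u v w z

open Polynomial Finset
open scoped Classical

private lemma X10_le {F E : Type*} [Field F] [Field E] [Algebra F E] {S : Set E}
    (hS : IntermediateField.adjoin F S = ⊤) {R : Subfield E}
    (h1 : ∀ a : F, algebraMap F E a ∈ R) (h2 : ∀ x ∈ S, x ∈ R) (x : E) : x ∈ R := by
  have h3 := congrArg IntermediateField.toSubfield hS
  rw [IntermediateField.adjoin_toSubfield, IntermediateField.top_toSubfield] at h3
  have h4 : (⊤ : Subfield E) ≤ R := by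
    rw [← h3, Subfield.closure_le]
    rintro y (⟨a, rfl⟩ | hy)
    · exact h1 a
    · exact h2 y hy
  exact h4 (Subfield.mem_top x)

private lemma X10_comp_pow {E E' : Type*} [Field E] [Field E'] {a : E →+* E'} {δ : E →+* E}
    {δ' : E' →+* E'} (h : δ'.comp a = a.comp δ) (i : ℕ) : (δ' ^ i).comp a = a.comp (δ ^ i) := by
  induction i with
  | zero => rfl
  | succ i ih =>
    rw [pow_succ, pow_succ]
    change ((δ' ^ i).comp δ').comp a = a.comp ((δ ^ i).comp δ)
    rw [RingHom.comp_assoc, h, ← RingHom.comp_assoc, ih, RingHom.comp_assoc]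

private lemma X10_finrank {E M : Type u} [Field E] [Field M] [Algebra E M] {N : ℕ} (hN : 0 < N)
    {z : M} (hz : ∃ a : E, z ^ N = algebraMap E M a) :
    FiniteDimensional E (IntermediateField.adjoin E {z}) ∧
      Module.finrank E (IntermediateField.adjoin E {z}) ≤ N := by
  obtain ⟨a, ha⟩ := hz
  have hae : aeval z (X ^ N - C a : E[X]) = 0 := by
    rw [map_sub, map_pow, aeval_X, aeval_C, ha, sub_self]
  have hint : IsIntegral E z := ⟨X ^ N - C a, monic_X_pow_sub_C a hN.ne', by
    rw [← aeval_def]; exact hae⟩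
  refine ⟨IntermediateField.adjoin.finiteDimensional hint, ?_⟩
  rw [IntermediateField.adjoin.finrank hint]
  have h5 := natDegree_le_of_dvd (minpoly.dvd E z hae) (monic_X_pow_sub_C a hN.ne').ne_zero
  rwa [natDegree_X_pow_sub_C] at h5

/-- New classes of a cover with one exponent and one additive form when `N` divides `p ^ k + 1`. -/
theorem as_mixed_new {p N : ℕ} [Fact p.Prime] (hN : N.Prime) (hpN : p ≠ N) (k h : ℕ)
    (hk : N ∣ p ^ k + 1) :
    ∃ C : ℕ, 0 < C ∧ ∀ (m : UFun.{u, z}) (F E : Type u) [Field F] [Field E] [CharP F p]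
    [Algebra F E] (X : Fin 2 → E) (D d : F) (r : ℕ → F) (l : F) (v u : E) (c₀ : ℕ) (_ : D ≠ 0)
    (_ : r h ≠ 0) (_ : p = 2 → 0 < h)
    (_ : AlgebraicIndependent F X) (_ : v ^ N = algebraMap F E D * X 0 ^ c₀)
    (_ : u ^ p - u = algebraMap F E d + (X 0 + (X 1 * adR p h (fun i => algebraMap F E (r i)) (X 1) +
      algebraMap F E l * X 1)))
    (_ : IntermediateField.adjoin F (Set.range X ∪ {v, u}) = ⊤) (z : KM m E) (_ : Unr z)
    (δ : E →+* E) (_ : ∀ a : F, δ (algebraMap F E a) = algebraMap F E a)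
    (_ : ∀ i, δ (X i) = X i) (_ : δ v = v) (_ : δ u = u + 1)
    (_ : ∑ i ∈ range p, KM.map m (δ ^ i) z = 0), C • z = 0 := by
  obtain ⟨C', hC'0, hC'⟩ := addPair_new.{u, z} (p := p) ![k, h]
  refine ⟨(p ^ k + 1).factorial * C', Nat.mul_pos (Nat.factorial_pos _) hC'0, ?_⟩
  intro m F E _ _ _ _ X D d r l v u c₀ hD hrh hh hX hv hu hgen z hz δ hδF hδX hδv hδu hsum
  have hp : p.Prime := Fact.out
  have hk0 : p = 2 → 0 < k := by
    intro h2
    rcases Nat.eq_zero_or_pos k with h0 | h0
    · exfalso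
      rw [h0, pow_zero] at hk
      have h3 : N = 2 := ((Nat.dvd_prime Nat.prime_two).1 hk).resolve_left hN.one_lt.ne'
      exact hpN (h2.trans h3.symm)
    · exact h0
  have hP1 : 0 < p ^ k + 1 := Nat.succ_pos _
  obtain ⟨q, hq⟩ := hk
  obtain ⟨Ω, _, _, _⟩ : ∃ (Ω : Type u) (_ : Field Ω) (_ : Algebra E Ω), IsAlgClosed Ω :=
    ⟨AlgebraicClosure E, inferInstance, inferInstance, inferInstance⟩
  let _ : Algebra F Ω := ((algebraMap E Ω).comp (algebraMap F E)).toAlgebra
  have hst : IsScalarTower F E Ω := IsScalarTower.of_algebraMap_eq fun x => rfl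
  obtain ⟨ξ₀, hξ₀⟩ : ∃ y : Ω, y ^ (p ^ k + 1) = algebraMap E Ω (X 0) :=
    IsAlgClosed.exists_pow_nat_eq _ hP1
  have hX0 : X 0 ≠ 0 := hX.ne_zero 0
  have hξ0 : ξ₀ ≠ 0 := by
    intro h0
    rw [h0, zero_pow hP1.ne'] at hξ₀
    exact hX0 ((_root_.map_eq_zero (algebraMap E Ω)).1 hξ₀.symm)
  have hξN : (ξ₀ ^ q) ^ N = algebraMap E Ω (X 0) := by
    rw [← pow_mul, mul_comm, ← hq, hξ₀]
  obtain ⟨D₁, hD₁⟩ : ∃ D₁ : Ω, D₁ = algebraMap E Ω v / (ξ₀ ^ q) ^ c₀ := ⟨_, rfl⟩
  have hne : (ξ₀ ^ q) ^ c₀ ≠ 0 := pow_ne_zero _ (pow_ne_zero _ hξ0)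
  have hvD : algebraMap E Ω v = D₁ * (ξ₀ ^ q) ^ c₀ := by
    rw [hD₁, div_mul_cancel₀ _ hne]
  have hD₁N : D₁ ^ N = algebraMap F Ω D := by
    rw [hD₁, div_pow, div_eq_iff (pow_ne_zero _ hne), ← map_pow, hv, ← pow_mul,
      mul_comm c₀, pow_mul _ N, hξN, map_mul, map_pow]
    rfl
  -- the fields
  obtain ⟨hf0, hr0⟩ := X10_finrank hP1 ⟨_, hξ₀⟩
  obtain ⟨T, hT⟩ : ∃ T : IntermediateField E Ω, T = IntermediateField.adjoin E {ξ₀} := ⟨_, rfl⟩
  have hfT : FiniteDimensional E T := by
    rw [hT]
    exact hf0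
  have hrT : Module.finrank E T ≤ p ^ k + 1 := by
    rw [hT]
    exact hr0
  obtain ⟨ξ, hξdef⟩ : ∃ ξ : Fin 2 → Ω, ξ = ![ξ₀, algebraMap E Ω (X 1)] := ⟨_, rfl⟩
  have e0 : ξ 0 = ξ₀ := by rw [hξdef]; rfl
  have e1 : ξ 1 = algebraMap E Ω (X 1) := by rw [hξdef]; rfl
  have hξT : ∀ i, ξ i ∈ T := by
    intro i
    fin_cases i
    · change ξ 0 ∈ T
      rw [e0, hT]
      exact IntermediateField.mem_adjoin_simple_self E _
    · change ξ 1 ∈ T
      rw [e1]
      exact T.algebraMap_mem _
  have hD₁T : D₁ ∈ T := by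
    rw [hD₁, ← e0]
    exact div_mem (T.algebraMap_mem v) (pow_mem (pow_mem (hξT 0) _) _)
  have hfF' : FiniteDimensional F (IntermediateField.adjoin F {D₁}) :=
    (X10_finrank hN.pos ⟨D, hD₁N⟩).1
  obtain ⟨F', hF'⟩ : ∃ F' : IntermediateField F Ω, F' = IntermediateField.adjoin F {D₁} :=
    ⟨_, rfl⟩
  rw [← hF'] at hfF'
  have hle : ∀ x : F', (x : Ω) ∈ T := by
    intro x
    have h1 : F' ≤ T.restrictScalars F := by
      rw [hF', IntermediateField.adjoin_le_iff]
      rintro y hy
      rw [Set.mem_singleton_iff] at hy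
      rw [hy]
      exact hD₁T
    exact h1 x.2
  let i' : F' →+* T := (algebraMap F' Ω).codRestrict T.toSubfield hle
  let _ : Algebra F' T := i'.toAlgebra
  have hi' : ∀ x : F', ((algebraMap F' T x : T) : Ω) = x := fun x => rfl
  have hE' : ∀ x : E, ((algebraMap E T x : T) : Ω) = algebraMap E Ω x := fun x => rfl
  have hcomm : ∀ a : F, algebraMap E T (algebraMap F E a) = algebraMap F' T (algebraMap F F' a) :=
    fun a => rfl
  have hD₁F : D₁ ∈ F' := by
    rw [hF']
    exact IntermediateField.mem_adjoin_simple_self F _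
  have hcF' : CharP F' p := charP_of_injective_algebraMap (algebraMap F F').injective p
  have hcE : CharP E p := charP_of_injective_algebraMap (algebraMap F E).injective p
  have hcT : CharP T p := charP_of_injective_algebraMap (algebraMap E T).injective p
  obtain ⟨ξ', hξ'⟩ : ∃ ξ' : Fin 2 → T, ∀ i, (ξ' i : Ω) = ξ i := ⟨fun i => ⟨ξ i, hξT i⟩, fun i => rfl⟩
  have hξX0 : ξ' 0 ^ (p ^ k + 1) = algebraMap E T (X 0) := by
    apply Subtype.ext
    change (ξ' 0 : Ω) ^ (p ^ k + 1) = _
    rw [hξ', e0, hξ₀, hE']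
  have hξX1 : ξ' 1 = algebraMap E T (X 1) := by
    apply Subtype.ext
    rw [hξ', e1, hE']
  have hvT : algebraMap E T v = algebraMap F' T ⟨D₁, hD₁F⟩ * (ξ' 0 ^ q) ^ c₀ := by
    apply Subtype.ext
    change algebraMap E Ω v = D₁ * ((ξ' 0 : Ω) ^ q) ^ c₀
    rw [hξ', e0, hvD]
  have hadR : ∀ x : T, adR p k (fun i => algebraMap F' T (if i = k then 1 else 0)) x =
      x ^ p ^ k := by
    intro x
    unfold adR
    rw [Finset.sum_eq_single k]
    · change algebraMap F' T (if k = k then 1 else 0) * x ^ p ^ k = _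
      rw [if_pos rfl, map_one, one_mul]
    · intro i _ hi
      change algebraMap F' T (if i = k then 1 else 0) * x ^ p ^ i = 0
      rw [if_neg hi, map_zero, zero_mul]
    · intro h
      exact absurd (Finset.mem_range.2 (Nat.lt_succ_self k)) h
  have hmul : ∀ x : T, x * x ^ p ^ k = x ^ (p ^ k + 1) := fun x => (pow_succ' _ _).symm
  have hadR1 : algebraMap E T (adR p h (fun i => algebraMap F E (r i)) (X 1)) =
      adR p h (fun i => algebraMap F' T (algebraMap F F' (r i))) (ξ' 1) := by
    unfold adR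
    rw [map_sum, hξX1]
    refine Finset.sum_congr rfl fun i _ => ?_
    rw [map_mul, map_pow]
    rfl
  have hpair : IsAddPair p ![k, h] ![fun i => if i = k then (1 : F') else 0,
      fun i => algebraMap F F' (r i)] ![(0 : F'), algebraMap F F' l] (algebraMap F F' d) ξ'
      (algebraMap E T u) := by
    refine ⟨fun j => ?_, fun h2 j => ?_, ?_, ?_, ?_⟩
    · fin_cases j
      · change (if k = k then (1 : F') else 0) ≠ 0
        rw [if_pos rfl]
        exact one_ne_zero
      · change algebraMap F F' (r h) ≠ 0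
        exact (_root_.map_ne_zero _).2 hrh
    · fin_cases j
      · exact hk0 h2
      · exact hh h2
    · have h1 : AlgebraicIndependent F (fun j => algebraMap E Ω (X j)) :=
        hX.map' (f := IsScalarTower.toAlgHom F E Ω) (algebraMap E Ω).injective
      have h2 : AlgebraicIndependent F ξ := by
        refine indep_of_pow h1 ![p ^ k + 1, 1] fun i => ?_
        fin_cases i
        · change ξ 0 ^ (p ^ k + 1) = algebraMap E Ω (X 0)
          rw [e0, hξ₀]
        · change ξ 1 ^ 1 = algebraMap E Ω (X 1)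
          rw [e1, pow_one]
      have halg : Algebra.IsAlgebraic F F' := Algebra.IsAlgebraic.of_finite F F'
      have h3 : AlgebraicIndependent F' ξ := h2.extendScalars F'
      have hst' : IsScalarTower F' T Ω := IsScalarTower.of_algebraMap_eq fun x => rfl
      have h4 : AlgebraicIndependent F' ((IsScalarTower.toAlgHom F' T Ω) ∘ ξ') := by
        have h5 : (IsScalarTower.toAlgHom F' T Ω) ∘ ξ' = ξ := funext fun i => hξ' i
        rw [h5]
        exact h3
      exact h4.of_comp
    · rw [← hcomm, ← map_pow, ← map_sub, hu, map_add, map_add, map_add, map_mul, map_mul, hadR1,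
        Fin.sum_univ_two]
      change _ = _ + (ξ' 0 * adR p k (fun i => algebraMap F' T (if i = k then 1 else 0)) (ξ' 0) +
        algebraMap F' T 0 * ξ' 0 + (ξ' 1 * adR p h (fun i => algebraMap F' T (algebraMap F F' (r i)))
          (ξ' 1) + algebraMap F' T (algebraMap F F' l) * ξ' 1))
      rw [hadR, hmul, hξX0, map_zero, zero_mul, add_zero, hcomm l, ← hξX1]
    · rw [eq_top_iff]
      intro x _
      obtain ⟨R, hR⟩ : ∃ R, R = IntermediateField.adjoin F' (Set.range ξ' ∪
        {algebraMap E T u}) := ⟨_, rfl⟩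
      rw [← hR]
      have hξR : ∀ i, ξ' i ∈ R := by
        intro i
        rw [hR]
        exact IntermediateField.subset_adjoin _ _ (Or.inl ⟨i, rfl⟩)
      have huR : algebraMap E T u ∈ R := by
        rw [hR]
        exact IntermediateField.subset_adjoin _ _ (Or.inr rfl)
      have hER : ∀ y : E, algebraMap E T y ∈ R := by
        refine fun y => X10_le hgen (R := R.toSubfield.comap (algebraMap E T)) ?_ ?_ y
        · intro a
          change algebraMap E T (algebraMap F E a) ∈ R
          rw [hcomm]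
          exact R.algebraMap_mem _
        · rintro y (⟨i, rfl⟩ | hy)
          · fin_cases i
            · change algebraMap E T (X 0) ∈ R
              rw [← hξX0]
              exact pow_mem (hξR 0) _
            · change algebraMap E T (X 1) ∈ R
              rw [← hξX1]
              exact hξR 1
          · rw [Set.mem_insert_iff, Set.mem_singleton_iff] at hy
            rcases hy with rfl | rfl
            · change algebraMap E T y ∈ R
              rw [hvT]
              exact mul_mem (R.algebraMap_mem _) (pow_mem (pow_mem (hξR 0) _) _)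
            · exact huR
      -- the elements of `T`
      have h1 : T.toSubfield = Subfield.closure (Set.range (algebraMap E Ω) ∪ {ξ₀}) := by
        rw [hT, IntermediateField.adjoin_toSubfield]
      have h2 : T.toSubfield ≤ R.toSubfield.map (algebraMap T Ω) := by
        rw [h1, Subfield.closure_le]
        rintro _ (⟨a, rfl⟩ | hy)
        · exact ⟨algebraMap E T a, hER a, rfl⟩
        · rw [Set.mem_singleton_iff] at hy
          exact ⟨ξ' 0, hξR 0, (hξ' 0).trans (e0.trans hy.symm)⟩
      obtain ⟨y, hy, hyx⟩ := h2 x.2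
      have h3 : y = x := Subtype.ext hyx
      rw [← h3]
      exact hy
  obtain ⟨δ', hδ'F, hδ'ξ, hδ'u⟩ := hpair.exists_hom (E' := T) ξ' hpair.ind
    (algebraMap E T u + 1) (by
      have h1 : (algebraMap E T u + 1) ^ p - (algebraMap E T u + 1) =
          algebraMap E T u ^ p - algebraMap E T u := by
        rw [add_pow_char, one_pow]
        ring
      rw [h1]
      exact hpair.eq)
  have hext : δ'.comp (algebraMap E T) = (algebraMap E T).comp δ := by
    refine RingHom.ext fun y => ?_
    refine X10_le hgen (R := RingHom.eqLocusField (δ'.comp (algebraMap E T))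
      ((algebraMap E T).comp δ)) ?_ ?_ y
    · intro a
      change δ' (algebraMap E T (algebraMap F E a)) = algebraMap E T (δ (algebraMap F E a))
      rw [hδF, hcomm, hδ'F]
    · rintro y (⟨i, rfl⟩ | hy)
      · fin_cases i
        · change δ' (algebraMap E T (X 0)) = algebraMap E T (δ (X 0))
          rw [hδX, ← hξX0, map_pow, hδ'ξ]
        · change δ' (algebraMap E T (X 1)) = algebraMap E T (δ (X 1))
          rw [hδX, ← hξX1, hδ'ξ]
      · rw [Set.mem_insert_iff, Set.mem_singleton_iff] at hy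
        rcases hy with rfl | rfl
        · change δ' (algebraMap E T y) = algebraMap E T (δ y)
          rw [hδv, hvT, map_mul, map_pow, map_pow, hδ'ξ, hδ'F]
        · change δ' (algebraMap E T y) = algebraMap E T (δ y)
          rw [hδu, hδ'u, map_add, map_one]
  have hkill := hC' m F' T _ _ _ ξ' (algebraMap E T u) hpair (KM.map m (algebraMap E T) z)
    (hz.map _) δ' hδ'F hδ'ξ hδ'u (by
      have h1 : ∀ i ∈ range p, KM.map m (δ' ^ i) (KM.map m (algebraMap E T) z) =
          KM.map m (algebraMap E T) (KM.map m (δ ^ i) z) := by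
        intro i _
        rw [KM.map_map, KM.map_map, X10_comp_pow hext i]
      rw [Finset.sum_congr rfl h1, ← map_sum, hsum, map_zero])
  rw [← map_nsmul] at hkill
  rw [mul_smul]
  have h1 := finrank_smul_eq_zero _ rfl hkill
  obtain ⟨e, he⟩ := Nat.dvd_factorial (Module.finrank_pos (R := E) (M := T)) hrT
  rw [he, mul_comm, mul_smul, h1, smul_zero]

end UnrA.Fer
end

section

/-!
# One curve of each family: all classes
-/

namespace UnrA.Fer

open UnrG

universe u v w z

open Polynomial Finset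
open scoped Classical

private lemma X11_le {F E : Type*} [Field F] [Field E] [Algebra F E] {S : Set E}
    (hS : IntermediateField.adjoin F S = ⊤) {R : Subfield E}
    (h1 : ∀ a : F, algebraMap F E a ∈ R) (h2 : ∀ x ∈ S, x ∈ R) (x : E) : x ∈ R := by
  have h3 := congrArg IntermediateField.toSubfield hS
  rw [IntermediateField.adjoin_toSubfield, IntermediateField.top_toSubfield] at h3
  have h4 : (⊤ : Subfield E) ≤ R := by
    rw [← h3, Subfield.closure_le]
    rintro y (⟨a, rfl⟩ | hy)
    · exact h1 a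
    · exact h2 y hy
  exact h4 (Subfield.mem_top x)

/-- Generators of a subfield containing an independent family with as many members. -/
private lemma X11_exchange {F E : Type u} [Field F] [Field E] [Algebra F E] {X g : Fin 2 → E}
    (hX : AlgebraicIndependent F X) {T : IntermediateField F E} (hXT : ∀ i, X i ∈ T)
    (hg : IntermediateField.adjoin F (Set.range g) = T) : AlgebraicIndependent F g := by
  have hgT : ∀ i, g i ∈ T := fun i => by
    rw [← hg]
    exact IntermediateField.subset_adjoin F _ ⟨i, rfl⟩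
  obtain ⟨X', hX'⟩ : ∃ X' : Fin 2 → T, ∀ i, T.val (X' i) = X i := ⟨fun i => ⟨X i, hXT i⟩, fun i => rfl⟩
  obtain ⟨g', hg'⟩ : ∃ g' : Fin 2 → T, ∀ i, T.val (g' i) = g i := ⟨fun i => ⟨g i, hgT i⟩, fun i => rfl⟩
  have hcX : T.val ∘ X' = X := funext hX'
  have hcg : T.val ∘ g' = g := funext hg'
  have hXi : AlgebraicIndependent F X' := by
    refine AlgebraicIndependent.of_comp T.val ?_
    rw [hcX]
    exact hX
  have htop : IntermediateField.adjoin F (Set.range g') = ⊤ := by
    have h1 : (IntermediateField.adjoin F (Set.range g')).map T.val =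
        (⊤ : IntermediateField F T).map T.val := by
      rw [IntermediateField.adjoin_map, ← Set.range_comp, hcg, hg,
        ← AlgHom.fieldRange_eq_map, IntermediateField.fieldRange_val]
    exact IntermediateField.map_injective T.val h1
  have hgi : AlgebraicIndependent F g' := by
    refine indep_of_trdeg hXi fun z => ?_
    have hz : z ∈ IntermediateField.adjoin F (Set.range g') := by
      rw [htop]
      exact IntermediateField.mem_top
    exact isAlgebraic_algebraMap (⟨z, hz⟩ : IntermediateField.adjoin F (Set.range g'))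
  have h2 := hgi.map' (f := T.val) T.val.injective
  rw [hcg] at h2
  exact h2

/-- The field of the monomial is purely transcendental. -/
private lemma X11_purely {F E : Type u} [Field F] [Field E] [Algebra F E] {X : Fin 2 → E} {D : F}
    {v : E} {N c₀ c₁ : ℕ} (hN : N.Prime) (hD : D ≠ 0) (hX : AlgebraicIndependent F X)
    (hv : v ^ N = algebraMap F E D * (X 0 ^ c₀ * X 1 ^ c₁)) (hc : ¬ N ∣ c₀) :
    IsPurely (IntermediateField.adjoin F (Set.range X ∪ {v})) := by
  have hX0 : ∀ i, X i ≠ 0 := fun i => hX.ne_zero i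
  have hcop : c₀.Coprime N := (Nat.coprime_comm.1 ((hN.coprime_iff_not_dvd).2 hc))
  obtain ⟨S, hS⟩ : ∃ S : IntermediateField F E, S = IntermediateField.adjoin F {X 1} := ⟨_, rfl⟩
  have hX1S : X 1 ∈ S := by
    rw [hS]
    exact IntermediateField.mem_adjoin_simple_self F _
  have hcS : algebraMap F E D * X 1 ^ c₁ ∈ S := mul_mem (S.algebraMap_mem D) (pow_mem hX1S _)
  have hc0 : algebraMap F E D * X 1 ^ c₁ ≠ 0 :=
    mul_ne_zero ((_root_.map_ne_zero (algebraMap F E)).2 hD) (pow_ne_zero _ (hX0 1))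
  have hvN : v ^ N = algebraMap F E D * X 1 ^ c₁ * X 0 ^ c₀ := by
    rw [hv]
    ring
  obtain ⟨y, hy⟩ := mono_trick S hN.pos hcop hcS hc0 (hX0 0) hvN
  have hT : IntermediateField.adjoin F (Set.range X ∪ {v}) =
      IntermediateField.adjoin F (Set.range ![X 1, y]) := by
    have h1 : (Set.range X ∪ {v} : Set E) = {X 1} ∪ {v, X 0} := by
      ext x
      simp only [Set.mem_union, Set.mem_range, Set.mem_singleton_iff, Set.mem_insert_iff,
        Fin.exists_fin_two]
      constructor
      · rintro ((h | h) | h)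
        · exact Or.inr (Or.inr h.symm)
        · exact Or.inl h.symm
        · exact Or.inr (Or.inl h)
      · rintro (h | (h | h))
        · exact Or.inl (Or.inr h.symm)
        · exact Or.inr h
        · exact Or.inl (Or.inl h.symm)
    have h2 : (Set.range ![X 1, y] : Set E) = {X 1} ∪ {y} := by
      ext x
      simp only [Set.mem_union, Set.mem_range, Set.mem_singleton_iff, Fin.exists_fin_two,
        Matrix.cons_val_zero, Matrix.cons_val_one]
      constructor
      · rintro (h | h)
        · exact Or.inl h.symm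
        · exact Or.inr h.symm
      · rintro (h | h)
        · exact Or.inl h.symm
        · exact Or.inr h.symm
    rw [h1, h2, IntermediateField.adjoin_union, IntermediateField.adjoin_union, ← hS, hy]
  refine ⟨2, ![X 1, y], X11_exchange hX (fun i => ?_) hT.symm, hT.symm⟩
  exact IntermediateField.subset_adjoin F _ (Or.inl ⟨i, rfl⟩)

/-- Unramified classes of a cover of `k(w, X₀, X₁)` with one exponent and one additive form. -/
theorem mixed_reduce {m : UFun.{u, z}} {p N : ℕ} [Fact p.Prime] (hN : N.Prime) {h C₂ c₀ : ℕ}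
    (hc₀ : ¬ N ∣ c₀) (hh : p = 2 → 0 < h)
    (H : ∀ (F E : Type u) [Field F] [Field E] [CharP F p]
      [Algebra F E] (X : Fin 2 → E) (D d : F) (r : ℕ → F) (l : F) (v u : E) (_ : D ≠ 0)
      (_ : r h ≠ 0) (_ : AlgebraicIndependent F X) (_ : v ^ N = algebraMap F E D * X 0 ^ c₀)
      (_ : u ^ p - u = algebraMap F E d + (X 0 + (X 1 * adR p h (fun i => algebraMap F E (r i))
        (X 1) + algebraMap F E l * X 1)))
      (_ : IntermediateField.adjoin F (Set.range X ∪ {v, u}) = ⊤) (z : KM m E) (_ : Unr z)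
      (δ : E →+* E) (_ : ∀ a : F, δ (algebraMap F E a) = algebraMap F E a)
      (_ : ∀ i, δ (X i) = X i) (_ : δ v = v) (_ : δ u = u + 1)
      (_ : ∑ i ∈ range p, KM.map m (δ ^ i) z = 0), C₂ • z = 0)
    {k E : Type u} [Field k] [Field E] [CharP k p] [Algebra k E] {q : ℕ} {w : Fin q → E}
    {X : Fin 2 → E} {D d : E} {r : ℕ → k} {l : k} {v u : E}
    (hind : AlgebraicIndependent k (Sum.elim w X)) (hD : D ∈ IntermediateField.adjoin k (Set.range w))
    (hD0 : D ≠ 0) (hd : d ∈ IntermediateField.adjoin k (Set.range w)) (hr : r h ≠ 0)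
    (hv : v ^ N = D * X 0 ^ c₀)
    (hu : u ^ p - u = d + (X 0 + (X 1 * adR p h (fun i => algebraMap k E (r i)) (X 1) +
      algebraMap k E l * X 1)))
    (hgen : IntermediateField.adjoin k (Set.range w ∪ Set.range X ∪ {v, u}) = ⊤) :
    KillsC m (p * p * 1 * C₂) k E := by
  have hindX : AlgebraicIndependent k X := hind.comp Sum.inr Sum.inr_injective
  have hindw : AlgebraicIndependent k w := hind.comp Sum.inl Sum.inl_injective
  have hind2 : AlgebraicIndependent k (Sum.elim X w) := by
    have h1 := hind.comp (Sum.swap : Fin 2 ⊕ Fin q → Fin q ⊕ Fin 2)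
      Sum.swap_leftInverse.injective
    have h2 : Sum.elim w X ∘ (Sum.swap : Fin 2 ⊕ Fin q → Fin q ⊕ Fin 2) = Sum.elim X w := by
      funext a
      rcases a with a | a <;> rfl
    rw [h2] at h1
    exact h1
  obtain ⟨F, hF⟩ : ∃ F : IntermediateField k E, F = IntermediateField.adjoin k (Set.range w) :=
    ⟨_, rfl⟩
  have hpF : IsPurely F := by
    rw [hF]
    exact isPurely_adjoin _ hindw
  have hindF : AlgebraicIndependent F X := by
    rw [hF]
    exact IntermediateField.algebraicIndependent_adjoin_iff.mpr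
      (AlgebraicIndependent.sumElim_iff.mp hind2).2
  have hwF : ∀ a, w a ∈ F := by
    intro a
    rw [hF]
    exact IntermediateField.subset_adjoin k _ ⟨a, rfl⟩
  rw [← hF] at hD hd
  have hcF : CharP F p := charP_of_injective_algebraMap (algebraMap k F).injective p
  obtain ⟨D', hD'⟩ : ∃ D' : F, (algebraMap F E D' : E) = D := ⟨⟨D, hD⟩, rfl⟩
  obtain ⟨d', hd'⟩ : ∃ d' : F, (algebraMap F E d' : E) = d := ⟨⟨d, hd⟩, rfl⟩
  have hD'0 : D' ≠ 0 := by
    intro h0
    rw [h0, map_zero] at hD'
    exact hD0 hD'.symm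
  have hr' : algebraMap k F (r h) ≠ 0 := (_root_.map_ne_zero (algebraMap k F)).2 hr
  have hv' : v ^ N = algebraMap F E D' * X 0 ^ c₀ := by
    rw [hD']
    exact hv
  have hv'' : v ^ N = algebraMap F E D' * (X 0 ^ c₀ * X 1 ^ 0) := by
    rw [hv', pow_zero, mul_one]
  have hu' : u ^ p - u = algebraMap F E d' + (X 0 + (X 1 * adR p h
      (fun i => algebraMap F E (algebraMap k F (r i))) (X 1) +
      algebraMap F E (algebraMap k F l) * X 1)) := by
    rw [hd']
    exact hu
  have hgenF : IntermediateField.adjoin F (Set.range X ∪ {v, u}) = ⊤ := by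
    rw [eq_top_iff]
    intro x _
    obtain ⟨R, hR⟩ : ∃ R, R = IntermediateField.adjoin F (Set.range X ∪ {v, u}) := ⟨_, rfl⟩
    rw [← hR]
    have hsub : (Set.range X ∪ {v, u} : Set E) ⊆ R := by
      rw [hR]
      exact IntermediateField.subset_adjoin F _
    have hFR : ∀ y ∈ F, y ∈ R := fun y hy => R.algebraMap_mem (⟨y, hy⟩ : F)
    refine X11_le hgen (R := R.toSubfield) (fun a => hFR _ (F.algebraMap_mem a)) ?_ x
    rintro y ((⟨a, rfl⟩ | hy) | hy)
    · exact hFR _ (hwF a)
    · exact hsub (Or.inl hy)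
    · exact hsub (Or.inr hy)
  -- the subfield of the monomial
  obtain ⟨T, hT⟩ : ∃ T : IntermediateField F E,
    T = IntermediateField.adjoin F (Set.range X ∪ {v}) := ⟨_, rfl⟩
  have hsubT : (Set.range X ∪ {v} : Set E) ⊆ T := by
    rw [hT]
    exact IntermediateField.subset_adjoin F _
  have hXT : ∀ i, X i ∈ T := fun i => hsubT (Or.inl ⟨i, rfl⟩)
  have hT1 : KillsC m 1 F T := by
    intro x hx
    rw [one_smul]
    refine mem_cst_of_isPurely ?_ hx
    rw [hT]
    exact X11_purely hN hD'0 hindF hv'' hc₀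
  have hkF : KillsC m (p * p * 1 * C₂) F E := by
    refine killsC_of_as T (u := u) ?_ ?_ hT1 ?_
    · rw [hu']
      refine add_mem (T.algebraMap_mem _) (add_mem (hXT 0) (add_mem (mul_mem (hXT 1) ?_)
        (mul_mem (T.algebraMap_mem _) (hXT 1))))
      exact sum_mem fun i _ => mul_mem (T.algebraMap_mem _) (pow_mem (hXT 1) _)
    · rw [eq_top_iff, ← hgenF, IntermediateField.adjoin_le_iff]
      rintro y (hy | hy)
      · exact IntermediateField.subset_adjoin F _ (Or.inl (hsubT (Or.inl hy)))
      · rw [Set.mem_insert_iff, Set.mem_singleton_iff] at hy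
        rcases hy with rfl | rfl
        · exact IntermediateField.subset_adjoin F _ (Or.inl (hsubT (Or.inr rfl)))
        · exact IntermediateField.subset_adjoin F _ (Or.inr rfl)
    · intro δ hδT hδu z hz hsum
      exact H F E X D' d' (fun i => algebraMap k F (r i)) (algebraMap k F l) v u hD'0 hr' hindF
        hv' hu' hgenF z hz δ (fun a => hδT _ (T.algebraMap_mem a)) (fun i => hδT _ (hXT i))
        (hδT _ (hsubT (Or.inr rfl))) hδu hsum
  intro x hx
  obtain ⟨y, hy, hyx⟩ := mem_cst.mp (hkF x hx)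
  rw [← hyx]
  exact map_mem_cst (mem_cst_of_isPurely hpF hy) (fun a => rfl)

end UnrA.Fer
end

section

/-!
# Sums of additive forms with two variables
-/

namespace UnrA.Fer

open UnrG

universe u v w z

open Polynomial Finset
open scoped Classical

/-- The two indices last. -/
theorem exists_equiv_pair {n : ℕ} {i j : Fin n} (hij : i ≠ j) :
    ∃ (n' : ℕ) (ε : Fin n' ⊕ Fin 2 ≃ Fin n), ε (Sum.inr 0) = i ∧ ε (Sum.inr 1) = j := by
  have hb : Function.Bijective (Sum.elim (fun s : {l : Fin n // l ≠ i ∧ l ≠ j} => (s : Fin n))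
      ![i, j]) := by
    constructor
    · rintro (s | s) (t | t) hst
      · exact congrArg Sum.inl (Subtype.ext hst)
      · exfalso
        fin_cases t
        · exact s.2.1 hst
        · exact s.2.2 hst
      · exfalso
        fin_cases s
        · exact t.2.1 hst.symm
        · exact t.2.2 hst.symm
      · fin_cases s <;> fin_cases t
        · rfl
        · exact absurd hst hij
        · exact absurd hst.symm hij
        · rfl
    · intro l
      by_cases h1 : l = i
      · exact ⟨Sum.inr 0, h1.symm⟩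
      · by_cases h2 : l = j
        · exact ⟨Sum.inr 1, h2.symm⟩
        · exact ⟨Sum.inl ⟨l, h1, h2⟩, rfl⟩
  exact ⟨Fintype.card {l : Fin n // l ≠ i ∧ l ≠ j},
    (Equiv.sumCongr (Fintype.equivFin {l : Fin n // l ≠ i ∧ l ≠ j}).symm
      (Equiv.refl (Fin 2))).trans (Equiv.ofBijective _ hb), rfl, rfl⟩

/-- Two of the variables of a sum of additive forms. -/
theorem addForms_kills {m : UFun.{u, z}} {p : ℕ} [Fact p.Prime] {k E : Type u} [Field k]
    [Field E] [CharP k p] [Algebra k E] {n' n : ℕ} (ε : Fin n' ⊕ Fin 2 ≃ Fin n) (h : Fin n → ℕ)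
    (r : Fin n → ℕ → k) (l : Fin n → k) (b : k) (x : Fin n → E) (u : E)
    (hx : AlgebraicIndependent k x)
    (heq : u ^ p - u = algebraMap k E b + ∑ j, (x j * adR p (h j)
      (fun s => algebraMap k E (r j s)) (x j) + algebraMap k E (l j) * x j))
    (hgen : IntermediateField.adjoin k (Set.range x ∪ {u}) = ⊤)
    (hne : ∀ t : Fin 2, r (ε (Sum.inr t)) (h (ε (Sum.inr t))) ≠ 0)
    (hpos : p = 2 → ∀ t : Fin 2, 0 < h (ε (Sum.inr t))) {C₂ : ℕ}
    (hC : AddPairNew.{u, z} p (fun t => h (ε (Sum.inr t))) C₂) :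
    KillsC m (p * p * 1 * C₂) k E := by
  obtain ⟨w, hw⟩ : ∃ w : Fin n' → E, w = fun t => x (ε (Sum.inl t)) := ⟨_, rfl⟩
  obtain ⟨y, hy⟩ : ∃ y : Fin 2 → E, y = fun t => x (ε (Sum.inr t)) := ⟨_, rfl⟩
  have hwy : AlgebraicIndependent k (Sum.elim w y) := by
    have h1 := hx.comp ε ε.injective
    have h2 : x ∘ ε = Sum.elim w y := by
      funext s
      rcases s with s | s <;> simp [hw, hy]
    rwa [h2] at h1
  have hwk : AlgebraicIndependent k w := hwy.comp Sum.inl Sum.inl_injective
  obtain ⟨F, hF⟩ : ∃ F : IntermediateField k E, F = IntermediateField.adjoin k (Set.range w) :=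
    ⟨_, rfl⟩
  have hyF : AlgebraicIndependent F y := by
    rw [hF]
    have h1 : AlgebraicIndependent k (Sum.elim y w) := by
      have h2 := hwy.comp Sum.swap Sum.swap_leftInverse.injective
      have h3 : Sum.elim w y ∘ Sum.swap = Sum.elim y w := by
        funext s
        rcases s with s | s <;> rfl
      rwa [h3] at h2
    exact IntermediateField.algebraicIndependent_adjoin_iff.mpr
      (AlgebraicIndependent.sumElim_iff.mp h1).2
  have hwF : ∀ t, w t ∈ F := fun t => by
    rw [hF]
    exact IntermediateField.subset_adjoin _ _ ⟨t, rfl⟩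
  have hkF : ∀ a : k, algebraMap k E a ∈ F := fun a => F.algebraMap_mem a
  have hcF : CharP F p := charP_of_injective_algebraMap (algebraMap k F).injective p
  -- the constant
  have hd : algebraMap k E b + ∑ t, (w t * adR p (h (ε (Sum.inl t)))
      (fun s => algebraMap k E (r (ε (Sum.inl t)) s)) (w t) +
        algebraMap k E (l (ε (Sum.inl t))) * w t) ∈ F := by
    refine add_mem (hkF _) (sum_mem fun t _ => add_mem (mul_mem (hwF t) ?_)
      (mul_mem (hkF _) (hwF t)))
    exact sum_mem fun s _ => mul_mem (hkF _) (pow_mem (hwF t) _)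
  have heq2 : u ^ p - u = (algebraMap k E b + ∑ t, (w t * adR p (h (ε (Sum.inl t)))
      (fun s => algebraMap k E (r (ε (Sum.inl t)) s)) (w t) +
        algebraMap k E (l (ε (Sum.inl t))) * w t)) +
      ∑ t : Fin 2, (y t * adR p (h (ε (Sum.inr t)))
      (fun s => algebraMap k E (r (ε (Sum.inr t)) s)) (y t) +
        algebraMap k E (l (ε (Sum.inr t))) * y t) := by
    rw [heq, ← Equiv.sum_comp ε, Fintype.sum_sum_type, hw, hy, add_assoc]
  -- the pair
  have hgenF : ∀ R : IntermediateField F E, (∀ t, y t ∈ R) → u ∈ R → R = ⊤ := by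
    intro R hRy hRu
    rw [eq_top_iff]
    intro z _
    have h1 : IntermediateField.adjoin k (Set.range x ∪ {u}) ≤ R.restrictScalars k := by
      rw [IntermediateField.adjoin_le_iff]
      rintro a (⟨j, rfl⟩ | ha)
      · obtain ⟨s, rfl⟩ := ε.surjective j
        rcases s with s | s
        · have h2 : w s = x (ε (Sum.inl s)) := by rw [hw]
          have h3 : w s ∈ R := R.algebraMap_mem ⟨w s, hwF s⟩
          rw [← h2]
          exact h3
        · have h2 := hRy s
          rw [hy] at h2
          exact h2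
      · rw [Set.mem_singleton_iff] at ha
        rw [ha]
        exact hRu
    rw [hgen] at h1
    exact h1 (IntermediateField.mem_top (x := z))
  have hE : IsAddPair p (F := F) (fun t => h (ε (Sum.inr t)))
      (fun t s => algebraMap k F (r (ε (Sum.inr t)) s))
      (fun t => algebraMap k F (l (ε (Sum.inr t)))) ⟨_, hd⟩ y u := by
    refine ⟨fun t => ?_, fun h2 t => hpos h2 t, hyF, ?_, ?_⟩
    · exact (map_ne_zero (algebraMap k F)).2 (hne t)
    · exact heq2
    · refine hgenF _ (fun t => ?_) ?_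
      · exact IntermediateField.subset_adjoin _ _ (Or.inl ⟨t, rfl⟩)
      · exact IntermediateField.subset_adjoin _ _ (Or.inr rfl)
  -- the rational subfield
  obtain ⟨T, hT⟩ : ∃ T : IntermediateField F E, T = IntermediateField.adjoin F (Set.range y) :=
    ⟨_, rfl⟩
  have hyT : ∀ t, y t ∈ T := fun t => by
    rw [hT]
    exact IntermediateField.subset_adjoin _ _ ⟨t, rfl⟩
  have hTk : KillsC m 1 F T := by
    refine KillsC.of_purely (v := fun t => (⟨y t, hyT t⟩ : T)) ?_ ?_
    · exact AlgebraicIndependent.of_comp T.val hyF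
    · rw [eq_top_iff]
      intro z _
      obtain ⟨R, hR⟩ : ∃ R : IntermediateField F T, R = IntermediateField.adjoin F
        (Set.range fun t => (⟨y t, hyT t⟩ : T)) := ⟨_, rfl⟩
      rw [← hR]
      have h1 : T ≤ R.map T.val := by
        refine hT.le.trans (IntermediateField.adjoin_le_iff.2 ?_)
        rintro _ ⟨t, rfl⟩
        refine ⟨⟨y t, hyT t⟩, ?_, rfl⟩
        rw [hR]
        exact IntermediateField.subset_adjoin _ _ ⟨t, rfl⟩
      obtain ⟨z', hz', hzz⟩ := h1 z.2
      have h3 : z' = z := Subtype.ext hzz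
      rw [← h3]
      exact hz'
  have hmain : KillsC m (p * p * 1 * C₂) F E := by
    refine killsC_of_as T (u := u) ?_ ?_ hTk ?_
    · rw [heq2]
      refine add_mem (T.algebraMap_mem ⟨_, hd⟩) (sum_mem fun t _ => ?_)
      have hkT : ∀ a : k, algebraMap k E a ∈ T := fun a => T.algebraMap_mem ⟨_, hkF a⟩
      exact add_mem (mul_mem (hyT t) (sum_mem fun s _ => mul_mem (hkT _) (pow_mem (hyT t) _)))
        (mul_mem (hkT _) (hyT t))
    · refine hgenF _ (fun t => ?_) ?_
      · exact IntermediateField.subset_adjoin _ _ (Or.inl (hyT t))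
      · exact IntermediateField.subset_adjoin _ _ (Or.inr rfl)
    · intro δ hδ hδu z hz hsum
      exact hC m F E _ _ _ y u hE z hz δ (fun a => hδ _ (T.algebraMap_mem a))
        (fun t => hδ _ (hyT t)) hδu hsum
  -- descent to `k`
  intro z hz
  obtain ⟨η, hη, hηz⟩ := mem_cst.mp (hmain z hz)
  obtain ⟨η₀, hη₀, hηη⟩ := unr_purely (F := k) (T := F) (fun t => (⟨w t, hwF t⟩ : F))
    (AlgebraicIndependent.of_comp F.val hwk) (by
      rw [eq_top_iff]
      intro a _
      obtain ⟨R, hR⟩ : ∃ R : IntermediateField k F, R = IntermediateField.adjoin k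
        (Set.range fun t => (⟨w t, hwF t⟩ : F)) := ⟨_, rfl⟩
      rw [← hR]
      have h1 : F ≤ R.map F.val := by
        refine hF.le.trans (IntermediateField.adjoin_le_iff.2 ?_)
        rintro _ ⟨t, rfl⟩
        refine ⟨⟨w t, hwF t⟩, ?_, rfl⟩
        rw [hR]
        exact IntermediateField.subset_adjoin _ _ ⟨t, rfl⟩
      obtain ⟨a', ha', haa⟩ := h1 a.2
      have h3 : a' = a := Subtype.ext haa
      rw [← h3]
      exact ha') hη
  refine mem_cst.mpr ⟨η₀, hη₀, ?_⟩
  rw [← hηz, ← hηη, KM.map_map]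
  rfl

end UnrA.Fer
end
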