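import Pool.Agent.Lib.MP_859dd5_ag.Mg.G075
import Pool.Agent.Lib.MP_859dd5_ag.Mg.G007
import Pool.Agent.Lib.MP_859dd5_ag.Mg.G009
import Pool.Agent.Lib.MP_859dd5_ag.G.NormD
import Pool.Agent.Lib.MP_859dd5_ag.Mg.G069
import Pool.Agent.Lib.MP_859dd5_ag.Mg.G003
import Pool.Agent.Lib.MP_859dd5_ag.Mg.G071

section

/-!
# The residue of the push-forward at a point of the correspondence
-/

namespace UnrG

universe u v w

open Polynomial Finset
open scoped Classical

variable {m : ℕ} {𝔽 : Type w} [Field 𝔽] [Fintype 𝔽] (b : Base 𝔽)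

variable {K M : Type u} [Field K] [Field M] {ι : 𝔽 →+* K} {j : K →+* M} {x y : M}
  {L : Type u} [Field L] [Algebra (RatFunc M) L] (d : FrobData b ι j x y L)

/-- The values of an extension of the local expansion at a point. Hint: `lau_poly` expands
`1 - x ^ N v ^ (N e)` at `c` as a power series with constant term `1 - x ^ N c ^ (N e)`;
`exists_root_powerSeries` gives its root `f`; then `kummer_lift` with `irreducible_frob`. -/
lemma FrobData.exists_local (h : IsFermat b.N j x y) (c y₁ : M) (hy : y₁ ≠ 0)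
    (hc : y₁ ^ b.N = 1 - x ^ b.N * c ^ (b.N * b.e)) :
    ∃ (ν : L →+* LaurentSeries M) (f : PowerSeries M),
      ν.comp (algebraMap (RatFunc M) L) = lau c ∧ ν d.Y = (f : LaurentSeries M) ∧
      PowerSeries.constantCoeff f = y₁ := by
  obtain ⟨g, hg1, hg2, -⟩ := lau_poly c (1 - C (x ^ b.N) * X ^ (b.N * b.e))
  obtain ⟨f, hf1, hf2⟩ := exists_root_powerSeries (b.N_ne (j.comp ι)) g y₁ hy (by
    rw [hg2, hc]
    simp)
  obtain ⟨ν, hν1, hν2⟩ := kummer_lift b.N_pos (irreducible_frob b ι h) d.hY d.htop (lau c)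
    (f : LaurentSeries M) (by
      rw [hg1, ← hf1]
      push_cast
      rfl)
  exact ⟨ν, f, hν1, hν2, hf2⟩

private lemma B4_v_prod {K κ : Type u} [Field K] [Field κ] (D : DVal K κ) {ι : Type*}
    (s : Finset ι) (f : ι → K) (hf : ∀ i ∈ s, f i ≠ 0) :
    D.v (∏ i ∈ s, f i) = ∑ i ∈ s, D.v (f i) := by
  induction s using Finset.induction_on with
  | empty => simp
  | insert a s ha ih =>
    rw [prod_insert ha, sum_insert ha, D.v_mul _ _ (hf a (mem_insert_self a s))
      (prod_ne_zero_iff.mpr fun i hi => hf i (mem_insert_of_mem hi)),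
      ih fun i hi => hf i (mem_insert_of_mem hi)]

/-- The residue of the push-forward at a point of the correspondence. Proof: take `ν`, `f` from
`exists_local` with `y₁ = y (1 - c) ^ e`. Then `KM.map (lau c) y₀ = ∑ i, KM.map (ν ∘ s ^ i ∘ ψ) ξ *
sym (ν (s ^ i g))`. The homomorphism `ν ∘ s ^ i ∘ ψ` reduces to `γ_i : x ↦ x c ^ e,
y ↦ ζ ^ i y (1 - c) ^ e`, constants fixed (`γ_i` exists by `IsFermat.exists_hom` and `transc_map`
applied to `γ`; `γ_0 = γ`), so by `res_mul_sym_of_red` (with the generating set `h.gen`) the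
residue of the `i`-th term is `v(ν (s ^ i g)) • γ_i ξ`. For `0 < i < N` the power series
`ν (s ^ i g) = ζ ^ i f - y (1 - c - T) ^ e` has constant term `(ζ ^ i - 1) y (1 - c) ^ e ≠ 0`,
so its valuation is zero. The valuation of the product over all `i` is one by `prod_g`,
`lau_poly`, `lauVal_coe_one` and `hroot`, `hsimple`; so `v(ν g) = 1`. -/
theorem FrobData.res_local (hm : Any m) (h : IsFermat b.N j x y) {ξ : KM m M} {y₀ : KM m (RatFunc M)}
    (hy₀ : KM.map m (algebraMap (RatFunc M) L) y₀ =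
      ∑ i ∈ range b.N, KM.map m (d.s ^ i) (d.β b m ξ))
    (c : M) (hc : c ≠ 0) (hc1 : c ≠ 1)
    (hval : (y * (1 - c) ^ b.e) ^ b.N = 1 - x ^ b.N * c ^ (b.N * b.e))
    (hroot : (normPoly b (x ^ b.N)).eval c = 0)
    (hsimple : (normPoly b (x ^ b.N)).derivative.eval c ≠ 0)
    (γ : M →+* M) (hγj : γ.comp j = j) (hγx : γ x = x * c ^ b.e)
    (hγy : γ y = y * (1 - c) ^ b.e) :
    (lauVal M).res hm (KM.map m (lau c) y₀) = KM.map m γ ξ := by
  have hy1 : y * (1 - c) ^ b.e ≠ 0 :=
    mul_ne_zero (h.y_ne b.N_pos) (pow_ne_zero _ (sub_ne_zero.mpr (Ne.symm hc1)))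
  obtain ⟨ν, f, hν, hνY, hf⟩ := d.exists_local b h c _ hy1 hval
  have hνa : ∀ a : RatFunc M, ν (algebraMap (RatFunc M) L a) = lau c a := fun a =>
    congrArg (fun f : RatFunc M →+* LaurentSeries M => f a) hν
  set z : M := j (ι b.ζ) with hz
  have hzN : z ^ b.N = 1 := by
    rw [hz, ← map_pow, ← map_pow, b.hζ.pow_eq_one, map_one, map_one]
  -- the homomorphisms of the reduction
  have hγi : ∀ i : ℕ, ∃ γi : M →+* M, γi.comp j = j ∧ γi x = x * c ^ b.e ∧
      γi y = z ^ i * (y * (1 - c) ^ b.e) := by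
    intro i
    apply h.exists_hom b.N_pos (b.N_ne ι)
    · rw [mul_pow x, mul_pow (z ^ i), ← pow_mul z, Nat.mul_comm i b.N, pow_mul z, hzN, one_pow,
        one_mul, hval, ← pow_mul, Nat.mul_comm b.e b.N]
      ring
    · intro p hp
      have h1 := transc_map h.transc γ p hp
      rwa [hγj, hγx] at h1
  choose γi hγi1 hγi2 hγi3 using hγi
  -- the reductions
  have hred : ∀ i : ℕ, ∀ a ∈ (Set.range j ∪ {x, y} : Set M), ∃ p : PowerSeries M,
      ((ν.comp (d.s ^ i)).comp d.ψ) a = (p : LaurentSeries M) ∧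
        PowerSeries.constantCoeff p = γi i a := by
    intro i a ha
    rcases ha with ⟨k, rfl⟩ | rfl | rfl
    · refine ⟨PowerSeries.C (j k), ?_, ?_⟩
      · rw [RingHom.comp_apply, RingHom.comp_apply, d.hψj, d.s_pow_const b, hνa, lau_const,
          PowerSeries.coe_C]
      · have h1 : γi i (j k) = j k := congrArg (fun f : K →+* M => f k) (hγi1 i)
        rw [h1]
        simp
    · obtain ⟨p, hp1, hp2, -⟩ := lau_poly c (C a * X ^ b.e)
      refine ⟨p, ?_, ?_⟩
      · have e1 : algebraMap M (RatFunc M) a * RatFunc.X ^ b.e =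
            algebraMap M[X] (RatFunc M) (C a * X ^ b.e) := by
          rw [algebraMap_ratFunc_eq, map_mul, map_pow, RatFunc.algebraMap_X]
        rw [RingHom.comp_apply, RingHom.comp_apply, d.hψx, d.s_pow_const b, hνa, ← hp1, e1]
      · rw [hp2, hγi2]
        simp
    · refine ⟨PowerSeries.C (z ^ i) * f, ?_, ?_⟩
      · rw [RingHom.comp_apply, RingHom.comp_apply, d.hψy, d.s_pow_Y b, map_mul, hνY, map_pow,
          hνa, lau_const, PowerSeries.coe_mul, PowerSeries.coe_C, map_pow]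
      · rw [map_mul, hf, hγi3]
        simp
  -- the functions
  obtain ⟨q, hq1, hq2, -⟩ := lau_poly c (C y * (1 - X) ^ b.e)
  have hgi : ∀ i : ℕ, ν ((d.s ^ i) (d.g b)) =
      ((PowerSeries.C (z ^ i) * f - q : PowerSeries M) : LaurentSeries M) := by
    intro i
    have e1 : algebraMap M (RatFunc M) y * (1 - RatFunc.X) ^ b.e =
        algebraMap M[X] (RatFunc M) (C y * (1 - X) ^ b.e) := by
      rw [algebraMap_ratFunc_eq, map_mul, map_pow, map_sub (algebraMap M[X] (RatFunc M)), map_one,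
        RatFunc.algebraMap_X]
    rw [FrobData.g, map_sub, map_sub, d.s_pow_const b, d.s_pow_Y b, map_mul, hνY, map_pow,
      hνa, hνa, lau_const, PowerSeries.coe_sub, PowerSeries.coe_mul, PowerSeries.coe_C, map_pow,
      ← hq1, e1]
  have hgne : ∀ i : ℕ, ν ((d.s ^ i) (d.g b)) ≠ 0 := fun i =>
    (_root_.map_ne_zero ν).mpr (d.g_ne b h i)
  have hv0 : ∀ i ∈ range b.N, i ≠ 0 → (lauVal M).v (ν ((d.s ^ i) (d.g b))) = 0 := by
    intro i hi hi0
    rw [hgi]
    refine (lauVal_coe _ ?_).1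
    rw [map_sub, map_mul, hf, hq2, PowerSeries.constantCoeff_C]
    have e1 : z ^ i * (y * (1 - c) ^ b.e) - eval c (C y * (1 - X) ^ b.e) =
        (z ^ i - 1) * (y * (1 - c) ^ b.e) := by
      simp
      ring
    rw [e1]
    refine mul_ne_zero ?_ hy1
    rw [sub_ne_zero]
    have hzp : IsPrimitiveRoot z b.N := b.hζ_map (j.comp ι)
    exact hzp.pow_ne_one_of_pos_of_lt hi0 (mem_range.mp hi)
  have hprod : (lauVal M).v (∏ i ∈ range b.N, ν ((d.s ^ i) (d.g b))) = 1 := by
    rw [← map_prod, d.prod_g b h, map_mul, hνa]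
    obtain ⟨p, hp1, hp2, hp3⟩ := lau_poly c (normPoly b (x ^ b.N))
    have h1 := lauVal_coe_one p (hp2.trans hroot) (by rw [hp3]; exact hsimple)
    have hpne : (p : LaurentSeries M) ≠ 0 := by
      intro h0
      have := h1.1
      rw [h0, lauVal_v, HahnSeries.order_zero] at this
      exact zero_ne_one this
    rw [hp1, map_pow, map_neg, map_one, (lauVal M).v_mul _ _ (pow_ne_zero _ (by simp)) hpne,
      (lauVal M).v_pow (by simp), (lauVal M).v_neg_one, h1.1, mul_zero, zero_add]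
  have hv1 : (lauVal M).v (ν ((d.s ^ 0) (d.g b))) = 1 := by
    rw [B4_v_prod _ _ _ fun i _ => hgne i, sum_eq_single_of_mem 0 (mem_range.mpr b.N_pos)
      (fun i hi hi0 => hv0 i hi hi0)] at hprod
    exact hprod
  -- the sum
  have hsum : KM.map m (lau c) y₀ = ∑ i ∈ range b.N,
      KM.map m ((ν.comp (d.s ^ i)).comp d.ψ) ξ * sym m (ν ((d.s ^ i) (d.g b))) := by
    rw [← hν, ← KM.map_map, hy₀, map_sum]
    refine sum_congr rfl fun i _ => ?_
    rw [FrobData.β, map_mul, map_mul, KM.map_sym, KM.map_sym, KM.map_map, KM.map_map]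
  rw [hsum, DVal.res_sum, sum_eq_single_of_mem 0 (mem_range.mpr b.N_pos)]
  · rw [res_mul_sym_of_red hm _ (γi 0) _ h.gen (hred 0) ξ (hgne 0), hv1]
    have e2 : γi 0 = γ := by
      refine h.hom_ext ?_ ?_ ?_
      · rw [hγi1, hγj]
      · rw [hγi2, hγx]
      · rw [hγi3, hγy, pow_zero, one_mul]
    rw [e2]
    simp
  · intro i hi hi0
    rw [res_mul_sym_of_red hm _ (γi i) _ h.gen (hred i) ξ (hgne i), hv0 i hi hi0]
    simp

end UnrG
end

section

/-!
# The residue of the push-forward at infinity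
-/

namespace UnrG

universe u v w

open Polynomial Finset
open scoped Classical

variable {m : ℕ} {𝔽 : Type w} [Field 𝔽] [Fintype 𝔽] (b : Base 𝔽)

variable {K M : Type u} [Field K] [Field M] {ι : 𝔽 →+* K} {j : K →+* M} {x y : M}
  {L : Type u} [Field L] [Algebra (RatFunc M) L] (d : FrobData b ι j x y L)

/-- The leading term of the conjugates of `g` at infinity. Hint:
`ν (s ^ i g) = T ^ (-e) * (ζ ^ i ε x f - y (T - 1) ^ e)`, and the power series in the bracket has
constant term `ζ ^ i ε x - (-1) ^ e y ≠ 0`: otherwise, taking `N`-th powers,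
`-x ^ N = (-1) ^ (N e) y ^ N = y ^ N` (`(-1) ^ (N e) = 1` in `𝔽` by `Base.pow_eq_one`),
contradicting `x ^ N + y ^ N = 1`. -/
lemma FrobData.infty_g (h : IsFermat b.N j x y) {ν : L →+* LaurentSeries M}
    {f : PowerSeries M} (h1 : ν.comp (algebraMap (RatFunc M) L) = lauInf M)
    (h2 : ν d.Y = HahnSeries.C (j (ι b.ε) * x) * (lT M)⁻¹ ^ b.e * (f : LaurentSeries M))
    (h3 : PowerSeries.constantCoeff f = 1) (i : ℕ) :
    (lauVal M).v (ν ((d.s ^ i) (d.g b))) = -(b.e : ℤ) := by
  have hν : ∀ a : RatFunc M, ν (algebraMap (RatFunc M) L a) = lauInf M a := fun a =>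
    congrArg (fun f : RatFunc M →+* LaurentSeries M => f a) h1
  have hT : (lT M)⁻¹ ≠ 0 := inv_ne_zero lT_ne
  obtain ⟨G, hG⟩ : ∃ G : PowerSeries M, G = PowerSeries.C (j (ι b.ζ) ^ i * (j (ι b.ε) * x)) * f -
    PowerSeries.C y * (PowerSeries.X - 1) ^ b.e := ⟨_, rfl⟩
  have e1 : ν ((d.s ^ i) (d.g b)) = (lT M)⁻¹ ^ b.e * (G : LaurentSeries M) := by
    have e2 : (d.s ^ i) (d.g b) = (d.s ^ i) d.Y -
        algebraMap (RatFunc M) L (algebraMap M (RatFunc M) y * (1 - RatFunc.X) ^ b.e) := by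
      rw [FrobData.g, map_sub, d.s_pow_const b]
    have e3 : (1 : LaurentSeries M) - (lT M)⁻¹ = (lT M)⁻¹ * (lT M - 1) := by
      rw [mul_sub, inv_mul_cancel₀ lT_ne, mul_one]
    rw [e2, d.s_pow_Y b, map_sub, map_mul ν, map_pow ν, hν, hν, h2, map_mul (lauInf M),
      map_pow (lauInf M), map_sub (lauInf M), lauInf_const, lauInf_const, map_one, lauInf_X, e3,
      mul_pow, hG, PowerSeries.coe_sub, PowerSeries.coe_mul, PowerSeries.coe_mul,
      PowerSeries.coe_pow, PowerSeries.coe_sub, PowerSeries.coe_C, PowerSeries.coe_C,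
      PowerSeries.coe_X, PowerSeries.coe_one,
      show (HahnSeries.single 1 1 : LaurentSeries M) = lT M from rfl,
      map_mul (HahnSeries.C : M →+* LaurentSeries M) (j (ι b.ζ) ^ i),
      map_pow (HahnSeries.C : M →+* LaurentSeries M)]
    ring
  have e4 : PowerSeries.constantCoeff G = j (ι b.ζ) ^ i * (j (ι b.ε) * x) - y * (-1) ^ b.e := by
    rw [hG]
    simp [h3]
  have e5 : PowerSeries.constantCoeff G ≠ 0 := by
    rw [e4, sub_ne_zero]
    intro h4
    have h5 := congrArg (fun z : M => z ^ b.N) h4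
    have hζ : (j (ι b.ζ)) ^ b.N = 1 := by
      rw [← map_pow, ← map_pow, b.hζ.pow_eq_one, map_one, map_one]
    have hε : (j (ι b.ε)) ^ b.N = -1 := by
      rw [← map_pow, ← map_pow, b.hε, map_neg, map_neg, map_one, map_one]
    have hneg : ((-1 : M) ^ b.e) ^ b.N = 1 := by
      have h6 := b.pow_eq_one (c := (-1 : 𝔽)) (neg_ne_zero.mpr one_ne_zero)
      have h7 := congrArg (fun z => j (ι z)) h6
      simp only [map_pow, map_neg, map_one] at h7
      rw [← pow_mul, mul_comm]
      exact h7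
    have h6 : (j (ι b.ζ) ^ i * (j (ι b.ε) * x)) ^ b.N = -x ^ b.N := by
      rw [mul_pow, mul_pow, hε, ← pow_mul, mul_comm i, pow_mul, hζ, one_pow]
      ring
    have h7 : (y * (-1) ^ b.e) ^ b.N = y ^ b.N := by
      rw [mul_pow, hneg, mul_one]
    have h8 : -x ^ b.N = y ^ b.N := by
      rw [← h6, ← h7]
      exact h5
    have h9 := h.eq
    rw [← h8, add_neg_cancel] at h9
    exact zero_ne_one h9
  have e6 := lauVal_coe G e5
  have e7 : (G : LaurentSeries M) ≠ 0 := by
    intro h4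
    rw [h4, map_zero] at e6
    exact e5 e6.2.symm
  rw [e1, (lauVal M).v_mul _ _ (pow_ne_zero _ hT) e7, (lauVal M).v_pow hT,
    (lauVal M).v_inv lT_ne, e6.1, lauVal_lT.1]
  ring

/-- The residue of `N` times the push-forward at infinity. Proof: `KM.map (lauInf M) y₀ =
∑ i, KM.map (ν ∘ s ^ i ∘ ψ) ξ * sym (ν (s ^ i g))`. The classes `X_i = KM.map (ν ∘ s ^ i ∘ ψ) ξ`
are unramified (`Unr.map`, `Unr.res_eq_zero` with the uniformizer `lT M`), so the residue is
`∑ i, -e • spec X_i` (`DVal.res_mul_sym`, `infty_g`). By `infty_scale` and `spec_scale` (with the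
`s'` of `exists_scale` for `c = (j (ι b.η))⁻¹`), `spec (KM.map (ν ∘ s ^ i ∘ ψ) (KM.map (δ ^ k) ξ))`
is independent of `k`; summing over `k < N` and using `hsum`, `N • spec X_i = 0`. -/
theorem FrobData.res_infty (hm : Any m) (h : IsFermat b.N j x y) {ξ : KM m M} (hξ : Unr ξ)
    {y₀ : KM m (RatFunc M)} (hy₀ : KM.map m (algebraMap (RatFunc M) L) y₀ =
      ∑ i ∈ range b.N, KM.map m (d.s ^ i) (d.β b m ξ))
    (δ : M →+* M) (hδj : δ.comp j = j) (hδx : δ x = j (ι b.ζ) * x)
    (hδy : δ y = j (ι b.ζ) * y) (hsum : ∑ i ∈ range b.N, KM.map m (δ ^ i) ξ = 0) :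
    (lauVal M).res hm (KM.map m (lauInf M) (b.N • y₀)) = 0 := by
  obtain ⟨ν, f, h1, h2, h3, h4⟩ := d.exists_infty b h
  have hη : (j (ι b.η))⁻¹ ≠ 0 := by
    have h5 : b.η ≠ 0 := b.hη.ne_zero (Nat.mul_pos b.N_pos b.e_pos).ne'
    exact inv_ne_zero ((_root_.map_ne_zero j).mpr ((_root_.map_ne_zero ι).mpr h5))
  obtain ⟨s', hs'⟩ := exists_scale (j (ι b.η))⁻¹ hη
  obtain ⟨θ, hθ⟩ : ∃ θ : ℕ → (M →+* LaurentSeries M), ∀ i, θ i = ν.comp ((d.s ^ i).comp d.ψ) :=
    ⟨_, fun _ => rfl⟩
  have hsc : ∀ i, s'.comp (θ i) = (θ i).comp δ := by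
    intro i
    rw [hθ]
    exact d.infty_scale b h h1 h2 h3 h4 δ hδj hδx hδy s' hs' i
  have hres : ∀ (i : ℕ) {η : KM m M}, Unr η → (lauVal M).res hm (KM.map m (θ i) η) = 0 :=
    fun i _ hη' => (hη'.map (θ i)).res_eq_zero (lauVal M) hm lT_ne lauVal_lT.1
  have hspec : ∀ (i k : ℕ), (lauVal M).spec hm (KM.map m (θ i) (KM.map m (δ ^ k) ξ)) =
      (lauVal M).spec hm (KM.map m (θ i) ξ) := by
    intro i k
    induction k with
    | zero =>
      rw [pow_zero]
      change (lauVal M).spec hm (KM.map m (θ i) (KM.map m (RingHom.id M) ξ)) = _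
      rw [KM.map_id, AlgHom.id_apply]
    | succ k ih =>
      rw [← ih]
      have e1 : KM.map m (δ ^ (k + 1)) ξ = KM.map m δ (KM.map m (δ ^ k) ξ) := by
        rw [KM.map_map, pow_succ']
        rfl
      rw [e1, KM.map_map (θ i) δ, ← hsc i, ← KM.map_map]
      exact spec_scale hm _ hη s' hs' (hres i (hξ.map (δ ^ k)))
  have hN : ∀ i, b.N • (lauVal M).spec hm (KM.map m (θ i) ξ) = 0 := by
    intro i
    have e1 : ∑ k ∈ range b.N, (lauVal M).spec hm (KM.map m (θ i) (KM.map m (δ ^ k) ξ)) =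
        b.N • (lauVal M).spec hm (KM.map m (θ i) ξ) := by
      rw [Finset.sum_congr rfl fun k _ => hspec i k, Finset.sum_const, Finset.card_range]
    rw [← e1, ← map_sum, ← map_sum, hsum, map_zero, map_zero]
  have e2 : KM.map m (lauInf M) y₀ =
      ∑ i ∈ range b.N, KM.map m (θ i) ξ * sym m (ν ((d.s ^ i) (d.g b))) := by
    rw [← h1, ← KM.map_map, hy₀, map_sum]
    refine Finset.sum_congr rfl fun i _ => ?_
    rw [FrobData.β, map_mul (KM.map m (d.s ^ i)), map_mul (KM.map m ν), KM.map_sym, KM.map_sym,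
      KM.map_map, KM.map_map, hθ, RingHom.comp_assoc]
  have hg0 : ∀ i, ν ((d.s ^ i) (d.g b)) ≠ 0 := by
    intro i h5
    have h6 := d.infty_g b h h1 h2 h3 i
    have h7 := d.infty_g b h h1 h2 h3 0
    have h8 := d.g_ne b h i
    exact h8 ((_root_.map_eq_zero ν).mp h5)
  have e3 : ∀ i, b.N • (lauVal M).res hm (KM.map m (θ i) ξ * sym m (ν ((d.s ^ i) (d.g b)))) = 0 := by
    intro i
    rw [DVal.res_mul_sym hm _ _ (hg0 i) (hres i hξ), smul_comm, hN i, smul_zero]
  have e4 : (lauVal M).res hm (KM.map m (lauInf M) (b.N • y₀)) =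
      b.N • (lauVal M).res hm (KM.map m (lauInf M) y₀) := by
    rw [map_nsmul, ← DVal.resL_apply, map_nsmul]
    rfl
  rw [e4, e2, DVal.res_sum, Finset.smul_sum]
  exact Finset.sum_eq_zero fun i _ => e3 i

end UnrG
end

section

/-!
# Local descent of unramified classes
-/

namespace UnrG

universe u v w

open Polynomial Finset
open scoped Classical

variable {m : ℕ}

section descent

variable {K L : Type u} [Field K] [Field L] [Algebra K L] [FiniteDimensional K L] [IsGalois K L]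

/-- For a Galois extension of degree `N`, if the restriction of `y` is unramified at all
valuations above `A` then `N y` is unramified at `A`. Proof: copy the proof of
`unr_smul_of_map` in `G/NormD.lean`: it only uses the hypothesis for the valuation `D'`
constructed there; the elements of `A` have nonnegative `D'`-valuation because they map to the
integral closure `O` (`DVal.ofPrime_nonneg_iff` with denominator `1`). -/
theorem unrAt_smul_of_map (hm : Any m) (A : ValuationSubring K) [IsDiscreteValuationRing A]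
    {y : KM m K} (hy : ∀ (κ : Type u) [Field κ] (D : DVal L κ) (ϖ : L), ϖ ≠ 0 → D.v ϖ = 1 →
      (∀ a ∈ A, a ≠ 0 → 0 ≤ D.v (algebraMap K L a)) →
      D.res hm (KM.map m (algebraMap K L) y) = 0) :
    UnrAt m A (Module.finrank K L • y) := by
  obtain ⟨ϖ, hϖ⟩ := IsDiscreteValuationRing.exists_irreducible A
  rw [unrAt_iff_res A ϖ hϖ hm]
  -- the integral closure
  set O := integralClosure A L with hO
  have hded : IsDedekindDomain O := integralClosure.isDedekindDomain A K L
  have hfin : Module.Finite A O := IsIntegralClosure.finite A K L O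
  have hfr : IsFractionRing O L := integralClosure.isFractionRing_of_finite_extension K L
  have hfree : Module.Free A O := IsIntegralClosure.module_free A K L O
  letI : MulSemiringAction (L ≃ₐ[K] L) O := IsIntegralClosure.MulSemiringAction A K L O
  have hgal : IsGaloisGroup (L ≃ₐ[K] L) A O := IsGaloisGroup.of_isFractionRing _ _ _ K L
  obtain ⟨P, hP⟩ := Ideal.exists_maximal O
  set p := IsLocalRing.maximalIdeal A with hp
  have hover : ∀ I : Ideal O, I.IsMaximal → I.LiesOver p := by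
    intro I hI
    constructor
    exact (IsLocalRing.eq_maximalIdeal (Ideal.isMaximal_comap_of_isIntegral_of_isMaximal I)).symm
  have hPp : P.LiesOver p := hover P hP
  have hpmap : p.map (algebraMap A O) = Ideal.span {algebraMap A O ϖ} := by
    rw [hp, hϖ.maximalIdeal_eq, Ideal.map_span, Set.image_singleton]
  have hϖO : algebraMap A O ϖ ≠ 0 := by
    rw [Ne, FaithfulSMul.algebraMap_eq_zero_iff]; exact hϖ.ne_zero
  have hpbot : p.map (algebraMap A O) ≠ ⊥ := by
    rw [hpmap, Ne, Ideal.span_singleton_eq_bot]; exact hϖO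
  -- the ring is principal
  have hpid : IsPrincipalIdealRing O := by
    apply IsPrincipalIdealRing.of_finite_maximals
    have h1 : (p.primesOver O).Finite := Algebra.QuasiFinite.finite_primesOver p
    exact h1.subset (fun I hI => ⟨hI.isPrime, hover I hI⟩)
  obtain ⟨ϖ', hϖ'⟩ : ∃ ϖ' : O, P = Ideal.span {ϖ'} := (hpid.principal P).principal
  have hPbot : P ≠ ⊥ := by
    intro h
    apply hpbot
    rw [eq_bot_iff, ← h]
    exact Ideal.map_le_of_le_comap (P.over_def p).le
  have hϖ'0 : ϖ' ≠ 0 := by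
    rintro rfl
    apply hPbot
    rw [hϖ', Ideal.span_singleton_eq_bot]
  have hϖ'u : ¬ IsUnit ϖ' := by
    intro h
    apply hP.ne_top
    rw [hϖ', Ideal.span_singleton_eq_top]
    exact h
  letI : Field (O ⧸ P) := Ideal.Quotient.field P
  have hmk : ∀ a : O, Ideal.Quotient.mk P a = 0 ↔ ϖ' ∣ a := by
    intro a
    rw [Ideal.Quotient.eq_zero_iff_mem, hϖ', Ideal.mem_span_singleton]
  have hfac : ∀ a : O, a ≠ 0 → ∃ (n : ℕ) (u : O), a = ϖ' ^ n * u ∧ Ideal.Quotient.mk P u ≠ 0 := by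
    intro a ha
    obtain ⟨n, c, hc, h⟩ := WfDvdMonoid.max_power_factor' ha hϖ'u
    exact ⟨n, c, h, by rwa [Ne, hmk]⟩
  set D' : DVal L (O ⧸ P) := DVal.ofPrime L (Ideal.Quotient.mk P) ϖ' hϖ'0
    ((hmk ϖ').mpr dvd_rfl) hfac with hD'
  have hself := DVal.ofPrime_self (K := L) (Ideal.Quotient.mk P) ϖ' hϖ'0
    ((hmk ϖ').mpr dvd_rfl) hfac
  have hunit : ∀ a : O, Ideal.Quotient.mk P a ≠ 0 → D'.v (algebraMap O L a) = 0 ∧
      D'.ρ (algebraMap O L a) = Ideal.Quotient.mk P a := fun a ha =>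
    DVal.ofPrime_unit (K := L) (Ideal.Quotient.mk P) ϖ' hϖ'0 ((hmk ϖ').mpr dvd_rfl) hfac ha
  obtain ⟨e, u, heu, hu⟩ := hfac _ hϖO
  -- the ramification index
  have he : P.ramificationIdx A = e := by
    rw [Ideal.IsDedekindDomain.ramificationIdx_eq_multiplicity p P hpbot, hpmap, heu]
    apply multiplicity_eq_of_dvd_of_not_dvd
    · rw [hϖ', Ideal.span_singleton_pow, Ideal.dvd_iff_le, Ideal.span_singleton_le_span_singleton]
      exact Dvd.intro _ rfl
    · rw [hϖ', Ideal.span_singleton_pow, Ideal.dvd_iff_le, Ideal.span_singleton_le_span_singleton,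
        pow_succ]
      intro h
      apply hu
      rw [hmk]
      exact (mul_dvd_mul_iff_left (pow_ne_zero e hϖ'0)).mp h
  have hf : P.inertiaDeg A = Module.finrank (A ⧸ p) (O ⧸ P) := Ideal.inertiaDeg_eq_of_isMaximal p P
  have hN : (p.primesOver O).ncard * (e * Module.finrank (A ⧸ p) (O ⧸ P)) =
      Module.finrank K L := by
    have h1 := Ideal.ncard_primesOver_mul_ramificationIdxIn_mul_inertiaDegIn p O (L ≃ₐ[K] L)
    rw [Ideal.ramificationIdxIn_eq_ramificationIdx p P (L ≃ₐ[K] L),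
      Ideal.inertiaDegIn_eq_inertiaDeg p P (L ≃ₐ[K] L), he, hf,
      IsGaloisGroup.card_eq_finrank (L ≃ₐ[K] L) K L] at h1
    exact h1
  -- the residue field extension
  letI algR : Algebra (IsLocalRing.ResidueField A) (O ⧸ P) := Ideal.Quotient.algebraOfLiesOver P p
  have hfd : Module.Finite (IsLocalRing.ResidueField A) (O ⧸ P) :=
    (inferInstance : Module.Finite (A ⧸ p) (O ⧸ P))
  have hN' : (p.primesOver O).ncard * (e * Module.finrank (IsLocalRing.ResidueField A) (O ⧸ P)) =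
      Module.finrank K L := hN
  obtain ⟨j, hj⟩ : ∃ j : IsLocalRing.ResidueField A →+* O ⧸ P,
      j = algebraMap (IsLocalRing.ResidueField A) (O ⧸ P) := ⟨_, rfl⟩
  have hjmk : ∀ a : A, j (IsLocalRing.residue A a) = Ideal.Quotient.mk P (algebraMap A O a) := by
    intro a
    rw [hj]
    rfl
  have hcomp : ∀ a : A, algebraMap O L (algebraMap A O a) = algebraMap K L a := fun a => rfl
  have hc : Ideal.Quotient.mk P u ≠ 0 := hu
  have hu0 : algebraMap O L u ≠ 0 := by
    rw [Ne, FaithfulSMul.algebraMap_eq_zero_iff]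
    rintro rfl
    exact hu (map_zero _)
  have hϖ'L : algebraMap O L ϖ' ≠ 0 := by
    rw [Ne, FaithfulSMul.algebraMap_eq_zero_iff]; exact hϖ'0
  have hunitA : ∀ a : A, IsUnit a → D'.v (algebraMap K L a) = 0 ∧
      D'.ρ (algebraMap K L a) = j (IsLocalRing.residue A a) := by
    intro a ha
    have h1 : Ideal.Quotient.mk P (algebraMap A O a) ≠ 0 := by
      rw [← hjmk]
      exact (_root_.map_ne_zero j).mpr ((residue_ne_zero_iff A).mpr ha)
    have h2 := hunit _ h1
    rw [hcomp] at h2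
    exact ⟨h2.1, by rw [h2.2, hjmk]⟩
  have hϖeq : algebraMap K L ϖ = (algebraMap O L ϖ') ^ e * algebraMap O L u := by
    rw [← hcomp, heu, map_mul, map_pow]
  have hϖv : D'.v (algebraMap K L ϖ) = (e : ℤ) := by
    rw [hϖeq, D'.v_mul _ _ (pow_ne_zero _ hϖ'L) hu0, D'.v_pow hϖ'L, hself.1, (hunit u hu).1]
    simp
  have hϖρ : D'.ρ (algebraMap K L ϖ) = Ideal.Quotient.mk P u := by
    rw [hϖeq, map_mul, map_pow, hself.2, (hunit u hu).2, one_pow, one_mul]
  have hAnn : ∀ a ∈ A, a ≠ 0 → 0 ≤ D'.v (algebraMap K L a) := by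
    intro a ha ha0
    have hne : algebraMap K L a ≠ 0 := (_root_.map_ne_zero _).mpr ha0
    refine (DVal.ofPrime_nonneg_iff (K := L) (Ideal.Quotient.mk P) ϖ' hϖ'0
      ((hmk ϖ').mpr dvd_rfl) hfac hne).2 ⟨algebraMap A O ⟨a, ha⟩, 1, ?_, ?_⟩
    · rw [map_one]
      exact one_ne_zero
    · rw [map_one, div_one]
      exact (hcomp ⟨a, ha⟩).symm
  have h1 := hy (O ⧸ P) D' (algebraMap O L ϖ') hϖ'L hself.1 hAnn
  rw [DVal.res_map hm (DVal.ofDVR A ϖ hϖ) D' (algebraMap K L) j e (Ideal.Quotient.mk P u) hc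
    (fun a ha => (ofDVR_compat (algebraMap K L) A ϖ hϖ D' j e _ hunitA hϖv hϖρ ha).1)
    (fun a ha => (ofDVR_compat (algebraMap K L) A ϖ hϖ D' j e _ hunitA hϖv hϖρ ha).2)] at h1
  have h2 : KM.map m j (e • (DVal.ofDVR A ϖ hϖ).res hm y) = 0 := by
    rw [map_nsmul, ← Nat.cast_smul_eq_nsmul (ZMod m)]
    exact_mod_cast h1
  have h3 := finrank_smul_eq_zero hm _ (K := IsLocalRing.ResidueField A) (L := O ⧸ P) rfl
    (y := e • (DVal.ofDVR A ϖ hϖ).res hm y) (by rw [← hj]; exact h2)
  rw [← hN', ← DVal.resL_apply, map_nsmul, DVal.resL_apply, mul_smul, mul_comm e, mul_smul, h3,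
    smul_zero]

end descent

end UnrG
end

section

/-!
# The push-forward away from the points of the correspondence
-/

namespace UnrG

universe u v w

open Polynomial Finset
open scoped Classical

variable {m : ℕ} {𝔽 : Type w} [Field 𝔽] [Fintype 𝔽] (b : Base 𝔽)

variable {K M : Type u} [Field K] [Field M] {ι : 𝔽 →+* K} {j : K →+* M} {x y : M}
  {L : Type u} [Field L] [Algebra (RatFunc M) L] (d : FrobData b ι j x y L)

private lemma B7_poly_mem (p : M[X]) [hp : Fact (Irreducible p)] (f : M[X]) :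
    algebraMap M[X] (RatFunc M) f ∈ (placeVal p).ring := by
  by_cases hf : f = 0
  · rw [hf, map_zero]; exact zero_mem _
  obtain ⟨n, c, hc, hfc⟩ := WfDvdMonoid.max_power_factor hf hp.out
  have hp0 : algebraMap M[X] (RatFunc M) p ≠ 0 := by
    rw [Ne, FaithfulSMul.algebraMap_eq_zero_iff]; exact hp.out.ne_zero
  have h1 : algebraMap M[X] (RatFunc M) p ∈ (placeVal p).ring := by
    rw [DVal.mem_ring _ hp0, placeVal_v_self]; norm_num
  have h2 : algebraMap M[X] (RatFunc M) c ∈ (placeVal p).ring := by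
    have hc0 : algebraMap M[X] (RatFunc M) c ≠ 0 := by
      rw [Ne, FaithfulSMul.algebraMap_eq_zero_iff]
      rintro rfl
      exact hc (dvd_zero _)
    rw [DVal.mem_ring _ hc0, (placeVal_unit p hc).1]
  rw [hfc, map_mul, map_pow]
  exact mul_mem (pow_mem h1 n) h2

private lemma B7_v_prod {κ : Type u} [Field κ] (D : DVal L κ) (n : ℕ) (f : ℕ → L)
    (hf : ∀ i, f i ≠ 0) : D.v (∏ i ∈ range n, f i) = ∑ i ∈ range n, D.v (f i) := by
  induction n with
  | zero => simp
  | succ n ih =>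
    rw [Finset.prod_range_succ, Finset.sum_range_succ,
      D.v_mul _ _ (Finset.prod_ne_zero_iff.mpr fun i _ => hf i) (hf n), ih]

/-- The conjugates of `g` are units away from the points of the correspondence. Proof: the
polynomials lie in `(placeVal p).ring`, hence `D` is nonnegative on their images; `D (Y) ≥ 0`
since `Y ^ N` is the image of a polynomial (`DVal.v_pow`); so `D (s ^ i g) ≥ 0`
(`DVal.min_le_v_add` or `D.ring`). The product over `i < N` is `±` the image of `normPoly`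
(`prod_g`), which is not divisible by `p` (`normPoly_eq`, `hp`, `p` monic irreducible), so both it
and its inverse lie in `(placeVal p).ring` (`placeVal_unit`) and its `D`-valuation is zero. -/
lemma FrobData.unit_g (h : IsFermat b.N j x y) (p : M[X]) [Fact (Irreducible p)] (hpm : p.Monic)
    (hp : ∀ c ∈ normSet (j.comp ι) (x ^ b.N), p ≠ X - C c) {κ : Type u} [Field κ]
    (D : DVal L κ) (hD : ∀ a ∈ (placeVal p).ring, a ≠ 0 → 0 ≤ D.v (algebraMap (RatFunc M) L a))
    (i : ℕ) (hi : i < b.N) : D.v ((d.s ^ i) (d.g b)) = 0 := by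
  have hirr : Irreducible p := Fact.out
  have hA : ∀ a ∈ (placeVal p).ring, algebraMap (RatFunc M) L a ∈ D.ring := by
    intro a ha
    by_cases ha0 : a = 0
    · rw [ha0, map_zero]; exact zero_mem _
    · rw [D.mem_ring ((_root_.map_ne_zero _).mpr ha0)]
      exact hD a ha ha0
  have hpoly : ∀ f : M[X], algebraMap (RatFunc M) L (algebraMap M[X] (RatFunc M) f) ∈ D.ring :=
    fun f => hA _ (B7_poly_mem p f)
  have hY : d.Y ∈ D.ring := by
    by_cases hY0 : d.Y = 0
    · rw [hY0]; exact zero_mem _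
    · have h1 := hpoly (1 - C (x ^ b.N) * X ^ (b.N * b.e))
      rw [← d.hY, D.mem_ring (pow_ne_zero _ hY0), D.v_pow hY0] at h1
      rw [D.mem_ring hY0]
      have h2 : (0 : ℤ) < b.N := by exact_mod_cast b.N_pos
      exact nonneg_of_mul_nonneg_right h1 h2
  have hg : ∀ i, (d.s ^ i) (d.g b) ∈ D.ring := by
    intro i
    have e2 : (d.s ^ i) (d.g b) = (d.s ^ i) d.Y -
        algebraMap (RatFunc M) L (algebraMap M (RatFunc M) y * (1 - RatFunc.X) ^ b.e) := by
      rw [FrobData.g, map_sub, d.s_pow_const b]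
    have e3 : algebraMap M (RatFunc M) y * (1 - RatFunc.X) ^ b.e =
        algebraMap M[X] (RatFunc M) (C y * (1 - X) ^ b.e) := by
      rw [map_mul, map_pow, map_sub, map_one, RatFunc.algebraMap_X, ← algebraMap_ratFunc_eq]
    rw [e2, d.s_pow_Y b, e3]
    refine sub_mem (mul_mem (pow_mem ?_ i) hY) (hpoly _)
    rw [algebraMap_ratFunc_eq]
    exact hpoly _
  have hg0 := d.g_ne b h
  -- the norm polynomial
  have hnd : ¬ p ∣ normPoly b (x ^ b.N) := by
    intro h1
    rw [normPoly_eq b (j.comp ι) (x ^ b.N), dvd_neg] at h1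
    rcases hirr.prime.dvd_or_dvd h1 with h2 | h2
    · exact not_dvd_of_monic (irreducible_X_sub_C _) (monic_X_sub_C _) hirr hpm
        (hp _ (Finset.mem_insert_self _ _)) h2
    · obtain ⟨c, hc, h3⟩ := (hirr.prime.dvd_finsetProd_iff _).mp h2
      exact not_dvd_of_monic (irreducible_X_sub_C _) (monic_X_sub_C _) hirr hpm
        (hp _ (Finset.mem_insert_of_mem (Finset.mem_image_of_mem _ hc))) h3
  have hn0 : algebraMap M[X] (RatFunc M) (normPoly b (x ^ b.N)) ≠ 0 := by
    rw [Ne, FaithfulSMul.algebraMap_eq_zero_iff]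
    intro h1
    exact hnd (h1 ▸ dvd_zero _)
  have hnv : D.v (algebraMap (RatFunc M) L
      (algebraMap M[X] (RatFunc M) (normPoly b (x ^ b.N)))) = 0 := by
    have h1 := (placeVal_unit p hnd).1
    have h2 : (algebraMap M[X] (RatFunc M) (normPoly b (x ^ b.N)))⁻¹ ∈ (placeVal p).ring := by
      rw [DVal.mem_ring _ (inv_ne_zero hn0), DVal.v_inv _ hn0, h1, neg_zero]
    have h3 := hD _ (B7_poly_mem p _) hn0
    have h4 := hD _ h2 (inv_ne_zero hn0)
    rw [map_inv₀, D.v_inv ((_root_.map_ne_zero _).mpr hn0)] at h4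
    omega
  have hprod := congrArg D.v (d.prod_g b h)
  rw [B7_v_prod D b.N _ hg0] at hprod
  have hsign : D.v ((-1 : L) ^ (b.N + 1)) = 0 := by
    rw [D.v_pow (neg_ne_zero.mpr one_ne_zero), D.v_neg_one, mul_zero]
  rw [D.v_mul _ _ (pow_ne_zero _ (neg_ne_zero.mpr one_ne_zero)) ((_root_.map_ne_zero _).mpr hn0),
    hsign, hnv, add_zero] at hprod
  have hnn : ∀ k ∈ range b.N, 0 ≤ D.v ((d.s ^ k) (d.g b)) := fun k _ =>
    (D.mem_ring (hg0 k)).mp (hg k)
  exact (Finset.sum_eq_zero_iff_of_nonneg hnn).mp hprod i (Finset.mem_range.mpr hi)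

/-- The push-forward is unramified (up to torsion) away from the points of the correspondence.
Hint: `unrAt_smul_of_map` for `A = (placeVal p).ring` (`DVal.ring_isDVR`), with
`FrobData.exists_push` for the Galois property and the degree; the residue of each summand
vanishes by `Unr.map`, `Unr.res_eq_zero`, `DVal.res_mul_sym` and `unit_g`; then
`DVal.U_eq_of_ring` and `DVal.res_eq_zero_of_mem_U`. -/
theorem FrobData.res_away (hm : Any m) (h : IsFermat b.N j x y) {ξ : KM m M} (hξ : Unr ξ)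
    {y₀ : KM m (RatFunc M)} (hy₀ : KM.map m (algebraMap (RatFunc M) L) y₀ =
      ∑ i ∈ range b.N, KM.map m (d.s ^ i) (d.β b m ξ))
    (p : M[X]) [Fact (Irreducible p)] (hpm : p.Monic)
    (hp : ∀ c ∈ normSet (j.comp ι) (x ^ b.N), p ≠ X - C c) :
    (placeVal p).res hm (b.N • y₀) = 0 := by
  have hirr : Irreducible p := Fact.out
  obtain ⟨hfd, hgal, hfr, -⟩ := d.exists_push b hm h ξ
  have hp0 : algebraMap M[X] (RatFunc M) p ≠ 0 := by
    rw [Ne, FaithfulSMul.algebraMap_eq_zero_iff]; exact hirr.ne_zero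
  have hdvr := (placeVal p).ring_isDVR hp0 (placeVal_v_self p)
  have h1 := unrAt_smul_of_map hm (placeVal p).ring (y := y₀) (fun κ _ D ϖ hϖ hv hD => by
    rw [hy₀, DVal.res_sum]
    refine Finset.sum_eq_zero fun i hi => ?_
    have hi' := Finset.mem_range.mp hi
    rw [FrobData.β, map_mul, KM.map_map, KM.map_sym,
      DVal.res_mul_sym hm _ _ (d.g_ne b h i) ((hξ.map _).res_eq_zero D hm hϖ hv),
      d.unit_g b h p hpm hp D hD i hi', Int.cast_zero, zero_smul])
  rw [hfr] at h1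
  unfold UnrAt at h1
  rw [DVal.U_eq_of_ring] at h1
  exact DVal.res_eq_zero_of_mem_U hm _ h1

end UnrG
end

section

/-!
# The Frobenius of the Fermat curve
-/

namespace UnrG

universe u v w

open Polynomial Finset
open scoped Classical

variable {m : ℕ} {𝔽 : Type w} [Field 𝔽] [Fintype 𝔽] (b : Base 𝔽)

/-- **The Frobenius of the Fermat curve.** Proof: take `exists_frobData` and the push-forward `y₀`
(`FrobData.exists_push`), apply `reciprocity` to `z = N • y₀` and `S = normSet (j ∘ ι) (x ^ N)`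
(`res_away`); the residue at infinity vanishes (`res_infty`); the residues at the points of `S`
are `N • γ_c ξ` and (at `x ^ N`) `N • φ ξ` by `res_local`, `normSet_spec` (for the point
`u = x ^ N`: `x * u ^ e = x ^ q`, `y * (1 - u) ^ e = y ^ q`). `x ^ N` is not in the image of `𝔽`
(`IsFermat.pow_ne`) and `j ∘ ι` is injective. -/
theorem frob_curve (hm : Any m) {K M : Type u} [Field K] [Field M] (ι : 𝔽 →+* K) (j : K →+* M)
    {x y : M} (h : IsFermat b.N j x y) {ξ : KM m M} (hξ : Unr ξ)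
    (δ : M →+* M) (hδj : δ.comp j = j) (hδx : δ x = j (ι b.ζ) * x) (hδy : δ y = j (ι b.ζ) * y)
    (hsum : ∑ i ∈ range b.N, KM.map m (δ ^ i) ξ = 0)
    (φ : M →+* M) (hφj : φ.comp j = j) (hφx : φ x = x ^ b.q) (hφy : φ y = y ^ b.q)
    (γ : 𝔽 → (M →+* M)) (hγj : ∀ c, c ≠ 0 → c ≠ 1 → (γ c).comp j = j)
    (hγx : ∀ c, c ≠ 0 → c ≠ 1 → γ c x = j (ι c) ^ b.e * x)
    (hγy : ∀ c, c ≠ 0 → c ≠ 1 → γ c y = j (ι (1 - c)) ^ b.e * y) :
    b.N • (KM.map m φ ξ +
      ∑ c ∈ univ.filter (fun c : 𝔽 => c ≠ 0 ∧ c ≠ 1), KM.map m (γ c) ξ) = 0 := by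
  obtain ⟨L, _, _, ⟨d⟩⟩ := exists_frobData b ι h
  obtain ⟨-, -, -, y₀, hy₀⟩ := d.exists_push b hm h ξ
  -- the residues
  have hloc : ∀ c ∈ normSet (j.comp ι) (x ^ b.N), ∀ γ' : M →+* M, γ'.comp j = j →
      γ' x = x * c ^ b.e → γ' y = y * (1 - c) ^ b.e →
      (lauVal M).res hm (KM.map m (lau c) (b.N • y₀)) = b.N • KM.map m γ' ξ := by
    intro c hc γ' h1 h2 h3
    obtain ⟨hc0, hc1, hval, hroot, hsimple⟩ := normSet_spec b h hc
    have h4 := d.res_local b hm h hy₀ c hc0 hc1 hval hroot hsimple γ' h1 h2 h3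
    rw [map_nsmul, ← DVal.resL_apply, map_nsmul, DVal.resL_apply, h4]
  have hu : x ^ b.N ∉ (univ.filter (fun c : 𝔽 => c ≠ 0 ∧ c ≠ 1)).image (j.comp ι) := by
    intro h1
    obtain ⟨c, -, hc⟩ := Finset.mem_image.mp h1
    exact h.pow_ne b.N_pos (ι c) hc.symm
  have hrec := reciprocity hm (b.N • y₀) (normSet (j.comp ι) (x ^ b.N))
    (fun p hpm hp hpS => by
      have : Fact (Irreducible p) := hp
      exact d.res_away b hm h hξ hy₀ p hpm hpS)
  rw [d.res_infty b hm h hξ hy₀ δ hδj hδx hδy hsum, add_zero, normSet, Finset.sum_insert hu,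
    Finset.sum_image fun c _ c' _ hcc => (j.comp ι).injective hcc] at hrec
  have hu' : x ^ b.N ∈ normSet (j.comp ι) (x ^ b.N) := Finset.mem_insert_self _ _
  have e1 := hloc (x ^ b.N) hu' φ hφj (by
    rw [hφx, Base.q, pow_succ, pow_mul, mul_comm]) (by
    have h1 : 1 - x ^ b.N = y ^ b.N := by rw [← h.eq]; ring
    rw [hφy, Base.q, pow_succ, pow_mul, mul_comm, h1])
  have e2 : ∀ c ∈ univ.filter (fun c : 𝔽 => c ≠ 0 ∧ c ≠ 1),
      (lauVal M).res hm (KM.map m (lau ((j.comp ι) c)) (b.N • y₀)) =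
        b.N • KM.map m (γ c) ξ := by
    intro c hc
    obtain ⟨-, hc0, hc1⟩ := Finset.mem_filter.mp hc
    refine hloc _ (Finset.mem_insert_of_mem (Finset.mem_image_of_mem _ hc)) (γ c)
      (hγj c hc0 hc1) ?_ ?_
    · rw [hγx c hc0 hc1, mul_comm]
      rfl
    · rw [hγy c hc0 hc1, mul_comm, map_sub ι, map_sub j, map_one, map_one]
      rfl
  rw [e1, Finset.sum_congr rfl e2, ← Finset.smul_sum, ← smul_add] at hrec
  exact hrec

end UnrG
end

section

/-!
# The one-variable Frobenius relation in the product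
-/

namespace UnrG

universe u v w

open Polynomial Finset
open scoped Classical

variable {m : ℕ} {𝔽 : Type w} [Field 𝔽] [Fintype 𝔽] (b : Base 𝔽)

variable {F M : Type u} [Field F] [Field M] [Algebra F M] (ι : 𝔽 →+* F) {r n : ℕ}
  {t : Fin r → M} {x y : Fin n → M}

private lemma P6_fix {j : Fin n} {f : M →+* M}
    (h1 : ∀ a : F, f (algebraMap F M a) = algebraMap F M a) (h2 : ∀ i, f (t i) = t i)
    (h3 : ∀ i, i ≠ j → f (x i) = x i) (h4 : ∀ i, i ≠ j → f (y i) = y i) :
    f.comp (others F t x y j).subtype = (others F t x y j).subtype := by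
  have key : ∀ z ∈ others F t x y j, f z = z := by
    intro z hz
    unfold others at hz
    induction hz using Subfield.closure_induction with
    | mem z hz =>
      rcases hz with (⟨a, rfl⟩ | ⟨i, rfl⟩) | ⟨i, hi, rfl | rfl⟩
      · exact h1 a
      · exact h2 i
      · exact h3 i hi
      · exact h4 i hi
    | one => exact map_one f
    | add a b _ _ ha hb => rw [map_add, ha, hb]
    | neg a _ ha => rw [map_neg, ha]
    | inv a _ ha => rw [map_inv₀, ha]
    | mul a b _ _ ha hb => rw [map_mul, ha, hb]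
  ext z
  exact key z z.2

private lemma P6_fix' {j : Fin n} {f : M →+* M} (h : FixBut F t x y {j} f) :
    f.comp (others F t x y j).subtype = (others F t x y j).subtype :=
  P6_fix h.const h.ft (fun i hi => h.fx i (by simpa using hi)) (fun i hi => h.fy i (by simpa using hi))

/-- The one-variable Frobenius relation in the product. Hint: `frob_curve` for
`ProdData.isFermat` with `K = others F t x y j` and `ι` replaced by its composite
`𝔽 → F → others F t x y j`; endomorphisms in `FixBut F t x y {j}` fix `others F t x y j`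
(they agree with the identity on its generators). -/
theorem ProdData.frob_step (hm : Any m) (h : ProdData (F := F) b t x y) (j : Fin n)
    {ξ : KM m M} (hξ : Unr ξ) (δ : M →+* M)
    (hδ : IsDiag b ι t x y (Pi.single j 1) (Pi.single j 1) δ)
    (hsum : ∑ i ∈ range b.N, KM.map m (δ ^ i) ξ = 0)
    (φ : M →+* M) (hφ : IsFrobAt b F t x y {j} φ) (γ : 𝔽 → (M →+* M))
    (hγ : ∀ c, c ≠ 0 → c ≠ 1 → IsGamma b ι t x y j c (γ c)) :
    b.N • (KM.map m φ ξ +
      ∑ c ∈ univ.filter (fun c : 𝔽 => c ≠ 0 ∧ c ≠ 1), KM.map m (γ c) ξ) = 0 := by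
  have hmem : ∀ a : 𝔽, (algebraMap F M).comp ι a ∈ others F t x y j := fun a =>
    Subfield.subset_closure (Or.inl (Or.inl ⟨ι a, rfl⟩))
  let ι' : 𝔽 →+* others F t x y j := ((algebraMap F M).comp ι).codRestrict _ hmem
  have hι' : ∀ a : 𝔽, (others F t x y j).subtype (ι' a) = algebraMap F M (ι a) := fun a => rfl
  refine frob_curve b hm ι' (others F t x y j).subtype (h.isFermat b j) hξ δ ?_ ?_ ?_ hsum φ
    (P6_fix' hφ.toFixBut) (hφ.gx j (by simp)) (hφ.gy j (by simp)) γ ?_ ?_ ?_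
  · refine P6_fix hδ.const hδ.ft (fun i hi => ?_) (fun i hi => ?_)
    · rw [hδ.fx, Pi.single_eq_of_ne hi, pow_zero, one_mul]
    · rw [hδ.fy, Pi.single_eq_of_ne hi, pow_zero, one_mul]
  · rw [hδ.fx, Pi.single_eq_same, pow_one, hι']
  · rw [hδ.fy, Pi.single_eq_same, pow_one, hι']
  · intro c h0 h1
    exact P6_fix' (hγ c h0 h1).toFixBut
  · intro c h0 h1
    rw [(hγ c h0 h1).gx, hι']
  · intro c h0 h1
    rw [(hγ c h0 h1).gy, hι']

end UnrG
end

section

/-!
# The one-variable Frobenius relation for good classes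
-/

namespace UnrG

universe u v w

open Polynomial Finset
open scoped Classical

variable {m : ℕ} {𝔽 : Type w} [Field 𝔽] [Fintype 𝔽] (b : Base 𝔽)

variable {F M : Type u} [Field F] [Field M] [Algebra F M] (ι : 𝔽 →+* F) {r n : ℕ}
  {t : Fin r → M} {x y : Fin n → M}

/-- the action of the automorphism of the correspondence on the powers and the monomial -/
private lemma P8_gamma {j : Fin n} {c' : 𝔽} (hc : c' ≠ 0) {f : M →+* M}
    (hf : IsGamma b ι t x y j c' f) (bb aa : Fin n → ℕ) :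
    (∀ i, f (x i ^ b.N) = x i ^ b.N) ∧
    f (mono x y bb aa) = algebraMap F M (ι ((c' ^ b.e) ^ bb j * ((1 - c') ^ b.e) ^ aa j)) *
      mono x y bb aa := by
  constructor
  · intro i
    rw [map_pow]
    by_cases hi : i = j
    · subst hi
      rw [hf.gx, mul_pow, ← pow_mul, mul_comm b.e b.N, ← map_pow, ← map_pow, b.pow_eq_one hc,
        map_one, map_one, one_mul]
    · rw [hf.fx i (by simpa using hi)]
  · unfold mono
    rw [map_prod, ← Finset.mul_prod_erase univ _ (mem_univ j),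
      ← Finset.mul_prod_erase univ (fun j => x j ^ bb j * y j ^ aa j) (mem_univ j)]
    have h1 : ∏ i ∈ univ.erase j, f (x i ^ bb i * y i ^ aa i) =
        ∏ i ∈ univ.erase j, (x i ^ bb i * y i ^ aa i) := by
      refine Finset.prod_congr rfl (fun i hi => ?_)
      have hij : i ∉ ({j} : Finset (Fin n)) := by
        simpa using (Finset.ne_of_mem_erase hi)
      rw [map_mul, map_pow, map_pow, hf.fx i hij, hf.fy i hij]
    rw [h1, map_mul, map_pow, map_pow, hf.gx, hf.gy]
    simp only [map_mul, map_pow]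
    ring

private lemma P8_tau {a c : Fin n → ℕ} {f : M →+* M} (hf : IsDiag b ι t x y a c f) (i : Fin n) :
    f (x i ^ b.N) = x i ^ b.N := by
  have hz : (algebraMap F M (ι b.ζ)) ^ b.N = 1 := by
    rw [← map_pow, ← map_pow, b.hζ.pow_eq_one, map_one, map_one]
  rw [map_pow, hf.fx, mul_pow, ← pow_mul, mul_comm (a i), pow_mul, hz, one_pow, one_mul]

/-- The one-variable Frobenius relation for good classes. Hint: `ProdData.frob_step` for `ξ = Z`
with `δ` from `exists_diag` (its weight on the monomial is `bb j + aa j`, so `h.new` gives the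
vanishing of the sum) and `γ` from `exists_gamma`; by `h.inv`, `γ c' Z = τ ^ (l j c') Z`, because
both fix `x_i ^ N` and multiply the monomial by the same constant
(`(c' ^ e) ^ bb j * ((1 - c') ^ e) ^ aa j = (ζ ^ wt) ^ (l j c')`, `IsDiag.map_mono`,
`IsDiag.pow`). -/
theorem Good.frob_step (hm : Any m) (hP : ProdData (F := F) b t x y) {bb aa : Fin n → ℕ}
    (hba : ∀ j, ¬ b.N ∣ bb j + aa j)
    {Z : KM m M} (h : Good b F ι t x y bb aa Z) {a c : Fin n → ℕ} {τ : M →+* M}
    (hτ : IsDiag b ι t x y a c τ) (l : Fin n → 𝔽 → ℕ)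
    (hl : ∀ (j : Fin n) (c' : 𝔽), c' ≠ 0 → c' ≠ 1 →
      (b.ζ ^ wt bb aa a c) ^ l j c' = (c' ^ b.e) ^ bb j * ((1 - c') ^ b.e) ^ aa j)
    (j : Fin n) (φ : M →+* M) (hφ : IsFrobAt b F t x y {j} φ) :
    b.N • KM.map m φ Z = -(b.N • Polynomial.aeval (actL m τ) (jacPoly 𝔽 (l j)) Z) := by
  obtain ⟨δ, hδ⟩ := ProdData.exists_diag b ι hP (Pi.single j 1) (Pi.single j 1)
  have hwt : wt bb aa (Pi.single j 1) (Pi.single j 1) = bb j + aa j := by
    unfold wt
    rw [Finset.sum_eq_single j]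
    · simp
    · intro i _ hi
      simp [Pi.single_eq_of_ne hi]
    · intro h
      exact absurd (mem_univ j) h
  have hsum := h.new _ _ δ hδ (by rw [hwt]; exact hba j)
  have hex : ∀ c' : 𝔽, ∃ f : M →+* M, c' ≠ 0 → c' ≠ 1 → IsGamma b ι t x y j c' f := by
    intro c'
    by_cases h0 : c' ≠ 0 ∧ c' ≠ 1
    · obtain ⟨f, hf⟩ := ProdData.exists_gamma b ι hP j c' h0.1 h0.2
      exact ⟨f, fun _ _ => hf⟩
    · exact ⟨RingHom.id M, fun h1 h2 => absurd ⟨h1, h2⟩ h0⟩
  choose γ hγ using hex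
  have h1 := ProdData.frob_step b ι hm hP j h.unr δ hδ hsum φ hφ γ hγ
  have h2 : ∀ c' ∈ univ.filter (fun c' : 𝔽 => c' ≠ 0 ∧ c' ≠ 1),
      KM.map m (γ c') Z = (actL m τ ^ l j c') Z := by
    intro c' hc'
    rw [Finset.mem_filter] at hc'
    have hg := hγ c' hc'.2.1 hc'.2.2
    have ht := hτ.pow b ι (l j c')
    rw [actL_pow]
    obtain ⟨g1, g2⟩ := P8_gamma b ι hc'.2.1 hg bb aa
    refine h.inv _ _ ?_ ?_ ?_ ?_
    · intro a
      rw [hg.const, ht.const]
    · intro i
      rw [hg.ft, ht.ft]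
    · intro i
      rw [g1, P8_tau b ι ht]
    · rw [g2, ht.map_mono b ι]
      congr 1
      rw [← map_pow, ← map_pow]
      congr 2
      rw [← hl j c' hc'.2.1 hc'.2.2, ← pow_mul]
      congr 1
      unfold wt
      rw [Finset.sum_mul]
      refine Finset.sum_congr rfl (fun i _ => ?_)
      simp only [Pi.smul_apply, smul_eq_mul]
      ring
  have h3 : Polynomial.aeval (actL m τ) (jacPoly 𝔽 (l j)) Z =
      ∑ c' ∈ univ.filter (fun c' : 𝔽 => c' ≠ 0 ∧ c' ≠ 1), KM.map m (γ c') Z := by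
    unfold jacPoly
    rw [map_sum, LinearMap.sum_apply]
    refine Finset.sum_congr rfl (fun c' hc' => ?_)
    rw [h2 c' hc', map_pow, aeval_X]
  rw [h3]
  rw [smul_add] at h1
  exact eq_neg_of_add_eq_zero_left h1

end UnrG
end
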