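import Pool.Agent.Lib.MP_859dd5_ag.Mg.G068
import Pool.Agent.Lib.MP_859dd5_ag.Mg.G011
import Pool.Agent.Lib.MP_859dd5_ag.Mg.G072
import Pool.Agent.Lib.MP_859dd5_ag.Mg.G007
import Pool.Agent.Lib.MP_859dd5_ag.Mg.G009
import Pool.Agent.Lib.MP_859dd5_ag.Mg.G075
import Pool.Agent.Lib.MP_859dd5_ag.Mg.G069
import Pool.Agent.Lib.MP_859dd5_ag.Mg.G003
import Pool.Agent.Lib.MP_859dd5_ag.Mg.G071
import Pool.Agent.Lib.MP_859dd5_ag.EQ.Fun

section

/-!
# The Galois group of a cyclic cover
-/

namespace UnrG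

universe u v w

open Polynomial Finset
open scoped Classical

variable {𝔽 : Type w} [Field 𝔽] [Fintype 𝔽] (b : Base 𝔽)

variable {F E : Type u} [Field F] [Field E] [Algebra F E] {r n : ℕ} {t : Fin r → E}
  {X : Fin n → E} {W : E} {B A : Fin n → ZMod b.N}

/-- The subfield generated by `t` and `X`. -/
def baseF (F : Type u) {E : Type u} [Field F] [Field E] [Algebra F E] {r n : ℕ}
    (t : Fin r → E) (X : Fin n → E) : IntermediateField F E :=
  IntermediateField.adjoin F (Set.range t ∪ Set.range X)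

private lemma E4_ext (h : CycProd b.N (F := F) t X W B A) {f g : E →+* E}
    (h1 : ∀ a : F, f (algebraMap F E a) = g (algebraMap F E a)) (h2 : ∀ i, f (t i) = g (t i))
    (h3 : ∀ j, f (X j) = g (X j)) (h4 : f W = g W) : f = g := by
  have hle : IntermediateField.adjoin F (Set.range t ∪ Set.range X ∪ {W}) ≤
      (RingHom.eqLocusField f g).toIntermediateField h1 := by
    rw [IntermediateField.adjoin_le_iff]
    rintro z ((⟨i, rfl⟩ | ⟨i, rfl⟩) | hz)
    · exact h2 i
    · exact h3 i
    · rw [Set.mem_singleton_iff] at hz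
      rw [hz]
      exact h4
  ext z
  have hz : z ∈ IntermediateField.adjoin F (Set.range t ∪ Set.range X ∪ {W}) := by
    rw [h.gen]; trivial
  exact hle hz

private lemma E4_t_mem (i : Fin r) : t i ∈ baseF F t X :=
  IntermediateField.subset_adjoin F _ (Or.inl ⟨i, rfl⟩)

private lemma E4_X_mem (j : Fin n) : X j ∈ baseF F t X :=
  IntermediateField.subset_adjoin F _ (Or.inr ⟨j, rfl⟩)

private lemma E4_pow_mem (h : CycProd b.N (F := F) t X W B A) : W ^ b.N ∈ baseF F t X := by
  rw [h.eq]
  refine prod_mem fun j _ => mul_mem (pow_mem (E4_X_mem j) _)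
    (pow_mem (sub_mem (one_mem _) (E4_X_mem j)) _)

private lemma E4_W_ne (h : CycProd b.N (F := F) t X W B A) : W ≠ 0 := by
  intro h0
  have h1 := h.eq
  rw [h0, zero_pow b.N_pos.ne'] at h1
  exact Finset.prod_ne_zero_iff.mpr (fun j _ => mul_ne_zero (pow_ne_zero _ (h.X_ne j).1)
    (pow_ne_zero _ (h.X_ne j).2)) h1.symm

private lemma E4_zeta (ι : 𝔽 →+* F) : IsPrimitiveRoot (algebraMap F E (ι b.ζ)) b.N :=
  b.hζ_map ((algebraMap F E).comp ι)

/-- Automorphisms over the base multiply `W` by a root of unity. -/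
private lemma E4_exp (h : CycProd b.N (F := F) t X W B A) (ι : 𝔽 →+* F)
    (g : E ≃ₐ[baseF F t X] E) :
    ∃ k < b.N, g W = algebraMap F E (ι b.ζ) ^ k * W := by
  have hW := E4_W_ne b h
  have h1 : (g W / W) ^ b.N = 1 := by
    rw [div_pow, ← map_pow]
    have h2 : g (W ^ b.N) = W ^ b.N := g.commutes ⟨W ^ b.N, E4_pow_mem b h⟩
    rw [h2, div_self (pow_ne_zero _ hW)]
  obtain ⟨k, hk, hk'⟩ := (E4_zeta b (E := E) ι).eq_pow_of_pow_eq_one h1
  exact ⟨k, hk, by rw [hk', div_mul_cancel₀ _ hW]⟩

private lemma E4_fix_const (g : E ≃ₐ[baseF F t X] E) (a : F) :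
    g (algebraMap F E a) = algebraMap F E a :=
  g.commutes ⟨_, (baseF F t X).algebraMap_mem a⟩

private lemma E4_fix_t (g : E ≃ₐ[baseF F t X] E) (i : Fin r) : g (t i) = t i :=
  g.commutes ⟨_, E4_t_mem i⟩

private lemma E4_fix_X (g : E ≃ₐ[baseF F t X] E) (j : Fin n) : g (X j) = X j :=
  g.commutes ⟨_, E4_X_mem j⟩

private lemma E4_split (h : CycProd b.N (F := F) t X W B A) (ι : 𝔽 →+* F) :
    ∃ p : (baseF F t X)[X], p.IsSplittingField (baseF F t X) E ∧
      Algebra.IsSeparable (baseF F t X) E := by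
  have hζ := E4_zeta b (E := E) ι
  obtain ⟨T, hT⟩ : ∃ T, T = baseF F t X := ⟨_, rfl⟩
  have htT : ∀ i, t i ∈ T := fun i => by rw [hT]; exact E4_t_mem i
  have hXT : ∀ j, X j ∈ T := fun i => by rw [hT]; exact E4_X_mem i
  have hWT : W ^ b.N ∈ T := by rw [hT]; exact E4_pow_mem b h
  rw [← hT]
  obtain ⟨y, hy⟩ : ∃ y : T, algebraMap T E y = W ^ b.N := ⟨⟨W ^ b.N, hWT⟩, rfl⟩
  have hy0 : y ≠ 0 := by
    intro h0
    rw [h0, map_zero] at hy
    exact pow_ne_zero _ (E4_W_ne b h) hy.symm
  have hN0 : ((b.N : ℕ) : T) ≠ 0 := b.N_ne ((algebraMap F T).comp ι)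
  have htop : IntermediateField.adjoin T {W} = ⊤ := by
    rw [eq_top_iff]
    have h1 : (IntermediateField.adjoin F (Set.range t ∪ Set.range X ∪ {W})) ≤
        (IntermediateField.adjoin T {W}).restrictScalars F := by
      rw [IntermediateField.adjoin_le_iff]
      rintro z ((⟨i, rfl⟩ | ⟨i, rfl⟩) | hz)
      · exact (IntermediateField.adjoin T {W}).algebraMap_mem ⟨t i, htT i⟩
      · exact (IntermediateField.adjoin T {W}).algebraMap_mem ⟨X i, hXT i⟩
      · exact IntermediateField.subset_adjoin T _ hz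
    rw [h.gen] at h1
    intro z _
    exact h1 (IntermediateField.mem_top)
  have hroot : aeval W (Polynomial.X ^ b.N - C y : T[X]) = 0 := by
    rw [map_sub, map_pow, aeval_X, aeval_C, hy, sub_self]
  have hint : IsIntegral T W :=
    ⟨Polynomial.X ^ b.N - C y, monic_X_pow_sub_C _ b.N_pos.ne', by
      rw [← aeval_def]; exact hroot⟩
  have hsep : IsSeparable T W := by
    have h1 : (Polynomial.X ^ b.N - C y : T[X]).Separable :=
      separable_X_pow_sub_C _ hN0 hy0
    exact h1.of_dvd (minpoly.dvd _ _ hroot)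
  refine ⟨Polynomial.X ^ b.N - C y, ⟨?_, ?_⟩, ?_⟩
  · rw [Polynomial.map_sub, Polynomial.map_pow, map_X, map_C, hy]
    exact X_pow_sub_C_splits_of_isPrimitiveRoot hζ rfl
  · rw [← top_le_iff]
    have h2 := congrArg IntermediateField.toSubalgebra htop
    rw [IntermediateField.adjoin_toSubalgebra_of_isAlgebraic
      (fun z hz => by rw [Set.mem_singleton_iff] at hz; rw [hz]; exact hint.isAlgebraic),
      IntermediateField.top_toSubalgebra] at h2
    rw [← h2]
    apply Algebra.adjoin_mono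
    intro z hz
    rw [Set.mem_singleton_iff] at hz
    have h0 : (Polynomial.X ^ b.N - C y : T[X]) ≠ 0 :=
      (monic_X_pow_sub_C _ b.N_pos.ne').ne_zero
    rw [hz]
    exact mem_rootSet.mpr ⟨h0, hroot⟩
  · have h1 : Algebra.IsSeparable T (IntermediateField.adjoin T {W}) :=
      (IntermediateField.isSeparable_adjoin_iff_isSeparable T E).mpr
        (fun z hz => by rw [Set.mem_singleton_iff] at hz; rw [hz]; exact hsep)
    rw [htop] at h1
    exact Algebra.IsSeparable.of_algHom T (⊤ : IntermediateField T E)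
      (IntermediateField.topEquiv (F := T) (E := E)).symm.toAlgHom

private lemma E4_exp_inj (h : CycProd b.N (F := F) t X W B A)
    (k : (E ≃ₐ[baseF F t X] E) → ℕ) {z : E} (hk : ∀ g : E ≃ₐ[baseF F t X] E, g W = z ^ k g * W)
    {g g' : E ≃ₐ[baseF F t X] E} (hg : k g = k g') : g = g' := by
  have h2 : (g : E →+* E) = (g' : E →+* E) := by
    refine E4_ext b h (fun a => ?_) (fun i => ?_) (fun j => ?_) ?_
    · exact (E4_fix_const g a).trans (E4_fix_const g' a).symm
    · exact (E4_fix_t g i).trans (E4_fix_t g' i).symm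
    · exact (E4_fix_X g j).trans (E4_fix_X g' j).symm
    · exact (hk g).trans (by rw [hg]; exact (hk g').symm)
  exact AlgEquiv.ext fun z => RingHom.congr_fun h2 z

/-- Proof: `W` is a root of the separable polynomial `X ^ N - W ^ N` over `baseF`, which splits
(`ι ζ ∈ F` is a primitive root of unity), and `E` is generated by `W`; the automorphism group embeds
into the `N`-th roots of unity `g W / W` (see `galois_fieldT` in K/D3 for a similar proof). -/
theorem CycProd.galois (h : CycProd b.N (F := F) t X W B A) (ι : 𝔽 →+* F) :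
    FiniteDimensional (baseF F t X) E ∧ IsGalois (baseF F t X) E ∧
      Module.finrank (baseF F t X) E ≤ b.N := by
  obtain ⟨p, hp, hs⟩ := E4_split b h ι
  have hfd : FiniteDimensional (baseF F t X) E :=
    hp.finiteDimensional (K := baseF F t X) (L := E) p
  have hno : Normal (baseF F t X) E := Normal.of_isSplittingField p
  have hG : IsGalois (baseF F t X) E := ⟨⟩
  refine ⟨hfd, hG, ?_⟩
  rw [← IsGalois.card_aut_eq_finrank]
  choose k hk hk' using E4_exp b h ι
  have hinj : Function.Injective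
      (fun g : E ≃ₐ[baseF F t X] E => (⟨k g, hk g⟩ : Fin b.N)) := by
    intro g g' hgg
    exact E4_exp_inj b h k hk' (congrArg Fin.val hgg)
  have h1 := Nat.card_le_card_of_injective _ hinj
  rwa [Nat.card_eq_fintype_card (α := Fin b.N), Fintype.card_fin] at h1

/-- Hint: both sides agree on `F`, `t`, `X`, `W`: `g W = ι ζ ^ k * W` for some `k`, and
`(ι ζ) ^ q = ι ζ`. -/
theorem CycProd.comm (h : CycProd b.N (F := F) t X W B A) (ι : 𝔽 →+* F) {σ : E →+* E}
    (hσ : CycFrob b.q F t X W σ) (g : E ≃ₐ[baseF F t X] E) :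
    σ.comp (g : E →+* E) = (g : E →+* E).comp σ := by
  obtain ⟨k, -, hk⟩ := E4_exp b h ι g
  have hz : σ (algebraMap F E (ι b.ζ)) = algebraMap F E (ι b.ζ) := by
    rw [hσ.const, ← map_pow, ← map_pow, b.pow_q]
  refine E4_ext b h (fun a => ?_) (fun i => ?_) (fun j => ?_) ?_
  · change σ (g (algebraMap F E a)) = g (σ (algebraMap F E a))
    rw [E4_fix_const, hσ.const, map_pow, E4_fix_const]
  · change σ (g (t i)) = g (σ (t i))
    rw [E4_fix_t, hσ.ft, E4_fix_t]
  · change σ (g (X j)) = g (σ (X j))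
    rw [E4_fix_X, hσ.fX, E4_fix_X]
  · change σ (g W) = g (σ W)
    rw [hσ.fW, hk, map_mul, map_pow, hz, hσ.fW]

/-- Hint: `IsPurely` of `Sum.elim t X` (`isPurely_adjoin`, PF/G1b). -/
theorem CycProd.isPurely_base (h : CycProd b.N (F := F) t X W B A) :
    IsPurely (baseF F t X) := by
  have h1 := isPurely_adjoin (F := F) (Sum.elim t X) h.ind
  rwa [Set.Sum.elim_range] at h1

/-- The classes `|G| z - ∑_h h z` are new. Proof: `g` (an automorphism over `baseF`, because it fixes
`F`, `t`, `X`) has order `N` (`g W = ζ ^ k W`, `N ∤ k`, `N` prime), and `|G| ≤ N`, so `G` consists of the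
powers of `g`, and `∑ l < N, g ^ l (h z) = ∑ l < N, g ^ l z` for all `h`; so
`∑ l < N, g ^ l (|G| z - ∑_h h z) = N ∑_l g ^ l z - ∑_h ∑_l g ^ l z = 0`. -/
theorem CycProd.sum_new (h : CycProd b.N (F := F) t X W B A) (ι : 𝔽 →+* F) (hN : b.N.Prime)
    {m : ℕ} (z : KM m E) (g : E →+* E) (k : ℕ)
    (h1 : ∀ a : F, g (algebraMap F E a) = algebraMap F E a) (h2 : ∀ i, g (t i) = t i)
    (h3 : ∀ j, g (X j) = X j) (h4 : g W = algebraMap F E (ι b.ζ) ^ k * W) (hk : ¬ b.N ∣ k)
    [Fintype (E ≃ₐ[baseF F t X] E)] :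
    ∑ l ∈ range b.N, KM.map m (g ^ l)
      (Fintype.card (E ≃ₐ[baseF F t X] E) • z -
        ∑ h : E ≃ₐ[baseF F t X] E, KM.map m (h : E →+* E) z) = 0 := by
  have hgl : ∀ l : ℕ, (∀ a : F, (g ^ l) (algebraMap F E a) = algebraMap F E a) ∧
      (∀ i, (g ^ l) (t i) = t i) ∧ (∀ j, (g ^ l) (X j) = X j) ∧
      (g ^ l) W = algebraMap F E (ι b.ζ) ^ (k * l) * W := by
    intro l
    induction l with
    | zero =>
      refine ⟨fun a => rfl, fun i => rfl, fun j => rfl, ?_⟩
      rw [mul_zero, pow_zero, pow_zero, one_mul]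
      rfl
    | succ l ih =>
      obtain ⟨i1, i2, i3, i4⟩ := ih
      have hs : ∀ x, (g ^ (l + 1)) x = (g ^ l) (g x) := fun x => by
        rw [pow_succ]; rfl
      refine ⟨fun a => ?_, fun i => ?_, fun j => ?_, ?_⟩
      · rw [hs, h1, i1]
      · rw [hs, h2, i2]
      · rw [hs, h3, i3]
      · rw [hs, h4, map_mul, map_pow, i1, i4, ← mul_assoc, ← pow_add]
        congr 2
        ring
  have hζ := E4_zeta b (E := E) ι
  -- every automorphism is a power of `g`
  have hpow : ∀ f : E ≃ₐ[baseF F t X] E, ∃ l₀ : ℕ, (f : E →+* E) = g ^ l₀ := by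
    intro f
    obtain ⟨k', -, hk'⟩ := E4_exp b h ι f
    have hcop : k.Coprime b.N := ((Nat.Prime.coprime_iff_not_dvd hN).mpr hk).symm
    obtain ⟨l₀, hl₀⟩ : ∃ l₀ : ℕ, k * l₀ ≡ k' [MOD b.N] := by
      obtain ⟨s, hs⟩ := Nat.exists_mul_mod_eq_one_of_coprime hcop hN.one_lt
      refine ⟨s * k', ?_⟩
      have h5 : k * s ≡ 1 [MOD b.N] := by
        rw [Nat.ModEq, hs.2, Nat.mod_eq_of_lt hN.one_lt]
      calc k * (s * k') = (k * s) * k' := by ring
        _ ≡ 1 * k' [MOD b.N] := h5.mul_right k'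
        _ = k' := one_mul _
    obtain ⟨i1, i2, i3, i4⟩ := hgl l₀
    refine ⟨l₀, E4_ext b h (fun a => ?_) (fun i => ?_) (fun j => ?_) ?_⟩
    · exact (E4_fix_const f a).trans (i1 a).symm
    · exact (E4_fix_t f i).trans (i2 i).symm
    · exact (E4_fix_X f j).trans (i3 j).symm
    · refine (show f W = _ from hk').trans ?_
      rw [i4]
      congr 1
      rw [pow_eq_pow_mod k' hζ.pow_eq_one, pow_eq_pow_mod (k * l₀) hζ.pow_eq_one]
      rw [hl₀]
  have hgN : g ^ b.N = 1 := by
    obtain ⟨i1, i2, i3, i4⟩ := hgl b.N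
    refine E4_ext b h i1 i2 i3 ?_
    rw [i4, mul_comm k, pow_mul, hζ.pow_eq_one, one_pow, one_mul]
    rfl
  have hshift1 : ∑ l ∈ range b.N, KM.map m (g ^ (l + 1)) z =
      ∑ l ∈ range b.N, KM.map m (g ^ l) z := by
    have e1 := Finset.sum_range_succ (fun l => KM.map m (g ^ l) z) b.N
    have e2 := Finset.sum_range_succ' (fun l => KM.map m (g ^ l) z) b.N
    rw [e1] at e2
    rw [hgN, pow_zero] at e2
    exact (add_right_cancel e2).symm
  have hshift : ∀ l₀ : ℕ, ∑ l ∈ range b.N, KM.map m (g ^ (l + l₀)) z =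
      ∑ l ∈ range b.N, KM.map m (g ^ l) z := by
    intro l₀
    induction l₀ with
    | zero => rfl
    | succ l₀ ih =>
      rw [← ih]
      have e1 := Finset.sum_range_succ (fun l => KM.map m (g ^ (l + l₀)) z) b.N
      have e2 := Finset.sum_range_succ' (fun l => KM.map m (g ^ (l + l₀)) z) b.N
      rw [e1] at e2
      have e3 : g ^ (b.N + l₀) = g ^ (0 + l₀) := by
        rw [pow_add, hgN, one_mul, zero_add]
      rw [e3] at e2
      have e4 := add_right_cancel e2
      rw [e4]
      refine Finset.sum_congr rfl fun l _ => ?_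
      rw [show l + (l₀ + 1) = l + 1 + l₀ by ring]
  have hh : ∀ f : E ≃ₐ[baseF F t X] E,
      ∑ l ∈ range b.N, KM.map m (g ^ l) (KM.map m (f : E →+* E) z) =
        ∑ l ∈ range b.N, KM.map m (g ^ l) z := by
    intro f
    obtain ⟨l₀, hl₀⟩ := hpow f
    rw [← hshift l₀]
    refine Finset.sum_congr rfl fun l _ => ?_
    rw [KM.map_map, hl₀, pow_add]
    rfl
  have e5 : ∀ l ∈ range b.N, KM.map m (g ^ l)
      (Fintype.card (E ≃ₐ[baseF F t X] E) • z -
        ∑ h : E ≃ₐ[baseF F t X] E, KM.map m (h : E →+* E) z) =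
      Fintype.card (E ≃ₐ[baseF F t X] E) • KM.map m (g ^ l) z -
        ∑ h : E ≃ₐ[baseF F t X] E, KM.map m (g ^ l) (KM.map m (h : E →+* E) z) := by
    intro l _
    rw [map_sub, map_nsmul, map_sum]
  rw [Finset.sum_congr rfl e5, Finset.sum_sub_distrib, Finset.sum_comm, ← Finset.smul_sum,
    Finset.sum_congr rfl (fun f _ => hh f), Finset.sum_const, Finset.card_univ, sub_self]

end UnrG
end

section

/-!
# Degenerate exponents
-/

namespace UnrG

universe u v w

open Polynomial Finset
open scoped Classical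

variable {N : ℕ} {F E : Type u} [Field F] [Field E] [Algebra F E] {r n : ℕ} {t : Fin r → E}
  {X : Fin n → E} {D W : E} {B A : Fin n → ZMod N}

/-- The exponents `(B_j, A_j, -(B_j + A_j))` of one curve, exactly one of which vanishes. Proof:
`CycProdD.isPurely_aux` with: `B_j = 0`, `A_j ≠ 0`: `P = 1 - X_j`, `k = (A j).val`, `g = 1`; `A_j = 0`,
`B_j ≠ 0`: `P = X_j`; `B_j = -A_j ≠ 0`: `P = X_j / (1 - X_j)` (so `X_j = P / (1 + P)`),
`X_j ^ B (1 - X_j) ^ A = P ^ B (1 - X_j) ^ (A + B)` where `A.val + B.val = N`, `g = 1 - X_j`. The coefficient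
is the product over `i ≠ j` (`Finset.mul_prod_erase`); a nonzero residue class mod the prime `N` is
prime to `N`. -/
theorem CycProdD.isPurely [Fact N.Prime] (h : CycProdD N (F := F) t X D W B A) (j : Fin n)
    (hj : ¬ (B j = 0 ∧ A j = 0)) (hj' : B j = 0 ∨ A j = 0 ∨ B j + A j = 0) :
    ∃ (s : ℕ) (v : Fin s → E), AlgebraicIndependent F v ∧
      IntermediateField.adjoin F (Set.range v) = ⊤ := by
  have hNp : N.Prime := Fact.out
  have hcop : ∀ z : ZMod N, z ≠ 0 → z.val.Coprime N := by
    intro z hz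
    rw [Nat.coprime_comm, hNp.coprime_iff_not_dvd, ← ZMod.natCast_eq_zero_iff, ZMod.natCast_zmod_val]
    exact hz
  obtain ⟨c, hc⟩ : ∃ c, c = D * ∏ i ∈ univ.erase j, (X i ^ (B i).val * (1 - X i) ^ (A i).val) :=
    ⟨_, rfl⟩
  have hWc : W ^ N = (X j ^ (B j).val * (1 - X j) ^ (A j).val) * c := by
    rw [h.eq, hc, ← Finset.mul_prod_erase univ (fun i => X i ^ (B i).val * (1 - X i) ^ (A i).val)
      (Finset.mem_univ j)]
    ring
  have hcm : c ∈ IntermediateField.adjoin F (Set.range t ∪ X '' {i | i ≠ j}) := by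
    rw [hc]
    refine mul_mem ((IntermediateField.adjoin.mono F _ _ Set.subset_union_left) h.D_mem)
      (prod_mem fun i hi => ?_)
    have h1 : X i ∈ IntermediateField.adjoin F (Set.range t ∪ X '' {i | i ≠ j}) :=
      IntermediateField.subset_adjoin F _ (Or.inr ⟨i, Finset.ne_of_mem_erase hi, rfl⟩)
    exact mul_mem (pow_mem h1 _) (pow_mem (sub_mem (one_mem _) h1) _)
  have hc0 : c ≠ 0 := by
    rw [hc]
    exact mul_ne_zero h.D_ne (Finset.prod_ne_zero_iff.mpr fun i _ =>
      mul_ne_zero (pow_ne_zero _ (h.X_ne i).1) (pow_ne_zero _ (h.X_ne i).2))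
  have hX0 := (h.X_ne j).1
  have hX1 := (h.X_ne j).2
  by_cases hB : B j = 0
  · have hA : A j ≠ 0 := fun hA => hj ⟨hB, hA⟩
    refine h.isPurely_aux hNp.pos j (P := 1 - X j) (c := c) (g := 1) (hcop _ hA) hcm hc0 hX1
      one_ne_zero (one_mem _) ?_ ?_
    · have h1 : X j = 1 - (1 - X j) := by ring
      rw [h1]
      exact sub_mem (one_mem _) (by
        have h2 : (1 : E) - (1 - (1 - X j)) = 1 - X j := by ring
        rw [h2]
        exact IntermediateField.mem_adjoin_simple_self F _)
    · rw [div_one, hWc, hB, ZMod.val_zero, pow_zero, one_mul, mul_comm]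
  · by_cases hA : A j = 0
    · refine h.isPurely_aux hNp.pos j (P := X j) (c := c) (g := 1) (hcop _ hB) hcm hc0 hX0
        one_ne_zero (one_mem _) (IntermediateField.mem_adjoin_simple_self F _) ?_
      rw [div_one, hWc, hA, ZMod.val_zero, pow_zero, mul_one, mul_comm]
    · have hBA : B j + A j = 0 := by
        rcases hj' with h1 | h1 | h1
        · exact absurd h1 hB
        · exact absurd h1 hA
        · exact h1
      have hval : (B j).val + (A j).val = N := by
        have h1 : N ∣ (B j).val + (A j).val := by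
          rw [← ZMod.natCast_eq_zero_iff]
          push_cast
          rw [ZMod.natCast_zmod_val, ZMod.natCast_zmod_val]
          exact hBA
        have h2 := ZMod.val_lt (B j)
        have h3 := ZMod.val_lt (A j)
        have h4 : 0 < (B j).val := Nat.pos_of_ne_zero fun h5 => hB ((ZMod.val_eq_zero _).mp h5)
        obtain ⟨m, hm⟩ := h1
        have h5 : m = 1 := by
          rcases Nat.lt_trichotomy m 1 with h6 | h6 | h6
          · have h7 : m = 0 := by omega
            rw [h7, mul_zero] at hm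
            omega
          · exact h6
          · have h8 : N * 2 ≤ N * m := Nat.mul_le_mul_left N h6
            omega
        rw [hm, h5, mul_one]
      obtain ⟨P, hP⟩ : ∃ P, P = X j / (1 - X j) := ⟨_, rfl⟩
      have hP1 : 1 - X j = (1 + P)⁻¹ := by
        rw [hP]
        field_simp
        ring
      have hPm : P ∈ IntermediateField.adjoin F {P} := IntermediateField.mem_adjoin_simple_self F _
      have hg : 1 - X j ∈ IntermediateField.adjoin F {P} := by
        rw [hP1]
        exact inv_mem (add_mem (one_mem _) hPm)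
      refine h.isPurely_aux hNp.pos j (P := P) (c := c) (g := 1 - X j) (hcop _ hB) hcm hc0
        (by rw [hP]; exact div_ne_zero hX0 hX1) hX1 hg ?_ ?_
      · have h1 : X j = 1 - (1 - X j) := by ring
        have h2 := sub_mem (one_mem (IntermediateField.adjoin F {P})) hg
        rw [← h1] at h2
        exact h2
      · rw [div_pow, hWc, hP, div_pow, div_eq_iff (pow_ne_zero _ hX1)]
        have h2 : (1 - X j) ^ N = (1 - X j) ^ (B j).val * (1 - X j) ^ (A j).val := by
          rw [← pow_add, hval]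
        rw [h2]
        have h3 : (1 - X j) ^ (B j).val ≠ 0 := pow_ne_zero _ hX1
        field_simp

/-- A curve which does not occur in the monomial is a further parameter. Hint: `(0 : ZMod N).val = 0`;
`Fin.prod_univ_succAbove`, `Fin.snoc`; independence: the family is a reindexing of
`Sum.elim t X`. -/
theorem CycProdD.drop {X : Fin (n + 1) → E} {B A : Fin (n + 1) → ZMod N}
    (h : CycProdD N (F := F) t X D W B A) (j : Fin (n + 1)) (hB : B j = 0) (hA : A j = 0) :
    CycProdD N (F := F) (Fin.snoc t (X j) : Fin (r + 1) → E) (fun i => X (j.succAbove i)) D W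
      (fun i => B (j.succAbove i)) (fun i => A (j.succAbove i)) := by
  constructor
  · obtain ⟨e, he⟩ : ∃ e : Fin (r + 1) ⊕ Fin n → Fin r ⊕ Fin (n + 1),
        e = Sum.elim (Fin.snoc (fun i => Sum.inl i) (Sum.inr j) : Fin (r + 1) → Fin r ⊕ Fin (n + 1))
          (fun i => Sum.inr (j.succAbove i)) := ⟨_, rfl⟩
    have hinj : Function.Injective e := by
      rw [he]
      rintro (u | u) (v | v) huv
      · simp only [Sum.elim_inl] at huv
        induction u using Fin.lastCases with
        | last =>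
          induction v using Fin.lastCases with
          | last => rfl
          | cast v => rw [Fin.snoc_last, Fin.snoc_castSucc] at huv; exact absurd huv (by simp)
        | cast u =>
          induction v using Fin.lastCases with
          | last => rw [Fin.snoc_last, Fin.snoc_castSucc] at huv; exact absurd huv (by simp)
          | cast v =>
            rw [Fin.snoc_castSucc, Fin.snoc_castSucc] at huv
            rw [Sum.inl.inj huv]
      · simp only [Sum.elim_inl, Sum.elim_inr] at huv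
        induction u using Fin.lastCases with
        | last =>
          rw [Fin.snoc_last] at huv
          exact absurd (Sum.inr.inj huv).symm (Fin.succAbove_ne j v)
        | cast u => rw [Fin.snoc_castSucc] at huv; exact absurd huv (by simp)
      · simp only [Sum.elim_inl, Sum.elim_inr] at huv
        induction v using Fin.lastCases with
        | last =>
          rw [Fin.snoc_last] at huv
          exact absurd (Sum.inr.inj huv) (Fin.succAbove_ne j u)
        | cast v => rw [Fin.snoc_castSucc] at huv; exact absurd huv (by simp)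
      · simp only [Sum.elim_inr] at huv
        rw [Fin.succAbove_right_injective (Sum.inr.inj huv)]
    have h1 := h.ind.comp e hinj
    have h2 : Sum.elim t X ∘ e = Sum.elim (Fin.snoc t (X j) : Fin (r + 1) → E)
        (fun i => X (j.succAbove i)) := by
      funext u
      rcases u with u | u
      · simp only [Function.comp, he, Sum.elim_inl]
        induction u using Fin.lastCases with
        | last => rw [Fin.snoc_last, Fin.snoc_last]; rfl
        | cast u => rw [Fin.snoc_castSucc, Fin.snoc_castSucc]; rfl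
      · simp only [Function.comp, he, Sum.elim_inr]
    rw [h2] at h1
    exact h1
  · refine (IntermediateField.adjoin.mono F _ _ ?_) h.D_mem
    rintro z ⟨i, rfl⟩
    exact ⟨i.castSucc, Fin.snoc_castSucc _ _ _⟩
  · exact h.D_ne
  · rw [h.eq, Fin.prod_univ_succAbove _ j, hB, hA, ZMod.val_zero, pow_zero, pow_zero, one_mul, one_mul]
  · rw [← h.gen]
    congr 1
    ext z
    constructor
    · rintro ((⟨i, rfl⟩ | ⟨i, rfl⟩) | hz)
      · induction i using Fin.lastCases with
        | last =>
          rw [Fin.snoc_last]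
          exact Or.inl (Or.inr ⟨j, rfl⟩)
        | cast i =>
          rw [Fin.snoc_castSucc]
          exact Or.inl (Or.inl ⟨i, rfl⟩)
      · exact Or.inl (Or.inr ⟨_, rfl⟩)
      · exact Or.inr hz
    · rintro ((⟨i, rfl⟩ | ⟨i, rfl⟩) | hz)
      · exact Or.inl (Or.inl ⟨i.castSucc, by rw [Fin.snoc_castSucc]⟩)
      · by_cases hi : i = j
        · rw [hi]
          exact Or.inl (Or.inl ⟨Fin.last r, by rw [Fin.snoc_last]⟩)
        · obtain ⟨i', rfl⟩ := Fin.exists_succAbove_eq hi
          exact Or.inl (Or.inr ⟨i', rfl⟩)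
      · exact Or.inr hz

/-- Nondegenerate curves. The main block is the first one. -/
theorem CycProdD.sys [NegPow F N] [NeZero N] {X : Fin (n + 1) → E} {B A : Fin (n + 1) → ZMod N}
    (h : CycProdD N (F := F) t X D W B A) :
    ∃ K₀ : IntermediateField F E, SysD (d := 1) N t (trip (X 0)) (tripE (B 0) (A 0))
      (fun j : Fin n => X j.succ) (fun j => B j.succ) (fun j => A j.succ) D W K₀ := by
  refine ⟨IntermediateField.adjoin F (Set.range t ∪ Set.range X), ?_⟩
  set K₀ := IntermediateField.adjoin F (Set.range t ∪ Set.range X) with hK₀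
  have hXm : ∀ i, X i ∈ K₀ := fun i => IntermediateField.subset_adjoin F _ (Or.inr ⟨i, rfl⟩)
  have hTm : ∀ c, trip (X 0) c ∈ K₀ := by
    intro c
    fin_cases c
    · exact hXm 0
    · exact sub_mem (one_mem K₀) (hXm 0)
    · exact neg_mem (one_mem K₀)
  have hN : 0 < N := Nat.pos_of_ne_zero (NeZero.ne N)
  exact
    { Y_ne := trip_ne (h.X_ne 0).1 (h.X_ne 0).2
      Y_mem := hTm
      sum_Y := trip_sum _
      sum_e := tripE_sum _ _
      x_ne := fun j => (h.X_ne _).1
      x_ne_one := fun j => (h.X_ne _).2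
      δ_mem := h.D_mem
      δ_ne := h.D_ne
      K₀_eq := by
        apply le_antisymm
        · rw [hK₀, IntermediateField.adjoin_le_iff]
          rintro z (⟨i, rfl⟩ | ⟨i, rfl⟩)
          · exact IntermediateField.subset_adjoin F _ (Or.inl (Or.inl ⟨i, rfl⟩))
          · refine Fin.cases ?_ (fun i => ?_) i
            · have h2 : X 0 = -(trip (X 0) 0 / trip (X 0) 2) := by
                change X 0 = -(X 0 / -1)
                rw [div_neg, div_one, neg_neg]
              have h3 : trip (X 0) 0 / trip (X 0) 2 ∈ IntermediateField.adjoin F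
                  (Set.range t ∪ {z | ∃ i j, z = trip (X 0) i / trip (X 0) j} ∪
                    Set.range (fun j : Fin n => X j.succ)) :=
                IntermediateField.subset_adjoin F _ (Or.inl (Or.inr ⟨0, 2, rfl⟩))
              have h4 := neg_mem h3
              rw [← h2] at h4
              exact h4
            · exact IntermediateField.subset_adjoin F _ (Or.inr ⟨i, rfl⟩)
        · rw [IntermediateField.adjoin_le_iff]
          rintro z ((⟨i, rfl⟩ | ⟨i, j, rfl⟩) | ⟨j, rfl⟩)
          · exact IntermediateField.subset_adjoin F _ (Or.inl ⟨i, rfl⟩)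
          · exact div_mem (hTm i) (hTm j)
          · exact hXm _
      top := by
        rw [eq_top_iff, ← h.gen, IntermediateField.adjoin_le_iff]
        rintro z (hz | hz)
        · exact (le_sup_left : K₀ ≤ _) (IntermediateField.subset_adjoin F _ hz)
        · exact (le_sup_right : IntermediateField.adjoin F {W} ≤ _) (IntermediateField.subset_adjoin F _ hz)
      w_pow := by
        rw [h.eq, Fin.prod_univ_succ]
        exact (ModPow.refl _).mul (ModPow.mul (ModPow.trip hN (X 0) (B 0) (A 0)) (ModPow.refl _))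
      ind := by
        refine ⟨_, h.ind.comp ((finCongr (by omega : r + 1 + n = r + (n + 1))).trans finSumFinEquiv.symm)
          (Equiv.injective _)⟩ }

end UnrG
end

section

/-!
# Twisting a three term relation by a power of the Frobenius
-/

namespace UnrG

universe u v w

open Polynomial Finset

variable {N : ℕ} {F K : Type u} [Field F] [Field K] [Algebra F K] {r d l : ℕ}

/-- **Twisting**. Proof: `exists_root_ext` for `x (last)`, `K₀' = twF F t Y x y`; `twF_mem`, `twF_top`,
`tw_pow` (`Fin.prod_univ_castSucc`, `Fin.snoc_castSucc`, `Fin.snoc_last`); independence of the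
images by `AlgebraicIndependent.map'`. -/
theorem SysD.twist {p : ℕ} [Fact p.Prime] [CharP F p] [NeZero N] {t : Fin r → K}
    {Y : Fin (d + 2) → K} {e : Fin (d + 2) → ZMod N} {x : Fin (l + 1) → K}
    {B A : Fin (l + 1) → ZMod N} {w : K} {K₀ : IntermediateField F K}
    {δ : K} (h : SysD N t Y e x B A δ w K₀) (k : ℕ) :
    ∃ (K' : Type u) (_ : Field K') (_ : Algebra F K') (_ : Algebra K K')
      (_ : IsScalarTower F K K') (y : K') (K₁ : IntermediateField F K'),
      FiniteDimensional K K' ∧ Module.finrank K K' ≤ p ^ k ∧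
      SysD N (fun i => algebraMap K K' (t i)) (fun i => algebraMap K K' (Y i)) e
        (Fin.snoc (fun j : Fin l => algebraMap K K' (x j.castSucc)) y)
        (Fin.snoc (fun j : Fin l => B j.castSucc) ((p : ZMod N) ^ k * B (Fin.last l)))
        (Fin.snoc (fun j : Fin l => A j.castSucc) ((p : ZMod N) ^ k * A (Fin.last l)))
        (algebraMap K K' δ) (algebraMap K K' w) K₁ := by
  obtain ⟨K', iK', iFK', iKK', iT, y, hfin, hdeg, hy, htop⟩ :=
    exists_root_ext (F := F) (K := K) (p := p) k (x (Fin.last l))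
  have hp : p.Prime := Fact.out
  have hQ : p ^ k ≠ 0 := pow_ne_zero _ hp.ne_zero
  have hchar : CharP K' p := charP_of_injective_algebraMap (algebraMap F K').injective p
  have hx0 : algebraMap K K' (x (Fin.last l)) ≠ 0 :=
    (map_ne_zero (algebraMap K K')).2 (h.x_ne _)
  have hx1 : 1 - algebraMap K K' (x (Fin.last l)) ≠ 0 := by
    have h1 := (map_ne_zero (algebraMap K K')).2 (h.x_ne_one (Fin.last l))
    rwa [map_sub, map_one] at h1
  have hy0 : y ≠ 0 := by
    rintro rfl
    rw [zero_pow hQ] at hy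
    exact hx0 hy.symm
  have hy1 : 1 - y ≠ 0 := by
    intro h1
    have h2 : y = 1 := (sub_eq_zero.1 h1).symm
    rw [h2, one_pow] at hy
    exact hx1 (by rw [← hy, sub_self])
  have hmem : ∀ z ∈ K₀, algebraMap K K' z ∈ twF F t Y x y := by
    intro z hz
    rw [h.K₀_eq] at hz
    exact twF_mem hy hz
  have hym : y ∈ twF F t Y x y := by
    unfold twF
    refine IntermediateField.subset_adjoin _ _ (Or.inr ⟨Fin.last l, ?_⟩)
    rw [Fin.snoc_last]
  refine ⟨K', iK', iFK', iKK', iT, y, twF F t Y x y, hfin, hdeg, ?_⟩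
  refine ⟨fun i => (map_ne_zero (algebraMap K K')).2 (h.Y_ne i), fun i => hmem _ (h.Y_mem i),
    ?_, h.sum_e, ?_, ?_, ?_, ?_, rfl, ?_, ?_, ?_⟩
  · rw [← map_sum, h.sum_Y, map_zero]
  · intro i
    refine Fin.lastCases ?_ (fun i => ?_) i
    · rw [Fin.snoc_last]
      exact hy0
    · rw [Fin.snoc_castSucc]
      exact (map_ne_zero (algebraMap K K')).2 (h.x_ne _)
  · intro i
    refine Fin.lastCases ?_ (fun i => ?_) i
    · rw [Fin.snoc_last]
      exact hy1
    · rw [Fin.snoc_castSucc]
      have h1 := (map_ne_zero (algebraMap K K')).2 (h.x_ne_one i.castSucc)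
      rwa [map_sub, map_one] at h1
  · have h1 : IntermediateField.adjoin F (Set.range t) ≤
        (IntermediateField.adjoin F (Set.range fun i => algebraMap K K' (t i))).comap
          (IsScalarTower.toAlgHom F K K') := by
      rw [IntermediateField.adjoin_le_iff]
      rintro z ⟨i, rfl⟩
      exact IntermediateField.subset_adjoin F _ ⟨i, rfl⟩
    exact h1 h.δ_mem
  · exact (map_ne_zero (algebraMap K K')).2 h.δ_ne
  · have h1 := h.top
    rw [h.K₀_eq] at h1
    exact twF_top hy h1 htop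
  · have h1 := h.w_pow.map hmem
    rw [map_mul, map_mul, map_prod, map_prod, Fin.prod_univ_castSucc (n := l), map_pow] at h1
    rw [Fin.prod_univ_castSucc (n := l)]
    simp only [Fin.snoc_castSucc, Fin.snoc_last]
    refine h1.trans ?_
    simp only [map_mul, map_pow, map_sub, map_one]
    refine ModPow.mul (ModPow.refl _) (ModPow.mul (ModPow.refl _) (ModPow.mul (ModPow.refl _) ?_))
    exact tw_pow hy hym hx0 hx1 _ _
  · obtain ⟨v, hv⟩ := h.ind
    exact ⟨fun i => IsScalarTower.toAlgHom F K K' (v i),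
      hv.map' (f := IsScalarTower.toAlgHom F K K') (algebraMap K K').injective⟩

end UnrG
end

section

/-!
# One step of the gluing process
-/

namespace UnrG

universe u v w

open Polynomial Finset

variable {N : ℕ} {F K : Type u} [Field F] [Field K] [Algebra F K] {r d l : ℕ}

/-- Proof: `z = e a`, `y = tripE (B j₀) (A j₀) b`. Apply `Sys.perm` with `Equiv.swap j₀ (last)`
(`tot_perm`), `Sys.twist` with `e' - k`, so that the new exponent is `p ^ (e' - k) * y = -z`, and
`Sys.glue`. The total multiset is balanced after the twist by `Bal.twist` (`tot_snoc`), and after the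
gluing by `tot_glue` and `Bal.of_pair` (with exponent `0`). -/
theorem SysD.step [NegPow F N] {p : ℕ} [Fact p.Prime] [CharP F p] [Fact N.Prime] {e' : ℕ}
    (he : 0 < e') (hpe : (p : ZMod N) ^ e' = 1) {t : Fin r → K} {Y : Fin (d + 2) → K}
    {e : Fin (d + 2) → ZMod N} {x : Fin (l + 1) → K} {B A : Fin (l + 1) → ZMod N} {w : K}
    {δ : K} {K₀ : IntermediateField F K} (h : SysD N t Y e x B A δ w K₀)
    (hb : Bal p e' (tot e B A))
    (h0 : ∀ z ∈ tot e B A, z ≠ 0)
    (hc : ∃ z ∈ Multiset.map e Finset.univ.val,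
      ∃ y ∈ ∑ j, Multiset.map (tripE (B j) (A j)) Finset.univ.val,
        ∃ k < e', y = -(p : ZMod N) ^ k * z) :
    ∃ (K' : Type u) (_ : Field K') (_ : Algebra F K') (_ : Algebra K K')
      (_ : IsScalarTower F K K'), FiniteDimensional K K' ∧ Module.finrank K K' ≤ p ^ e' ∧
      ∃ (t' : Fin r → K') (Y' : Fin (d + 1 + 2) → K') (g : Fin (d + 1 + 2) → ZMod N)
        (x' : Fin l → K') (B' A' : Fin l → ZMod N) (δ' w' : K') (K₁ : IntermediateField F K'),
        SysD N t' Y' g x' B' A' δ' w' K₁ ∧ Bal p e' (tot g B' A') ∧ ∀ z ∈ tot g B' A', z ≠ 0 := by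
  obtain ⟨z, hz, y, hy, k, hk, hyz⟩ := hc
  obtain ⟨a, -, rfl⟩ := Multiset.mem_map.1 hz
  obtain ⟨j₀, -, hy'⟩ := Multiset.mem_sum.1 hy
  obtain ⟨b, -, rfl⟩ := Multiset.mem_map.1 hy'
  have hN0 : NeZero N := ⟨(Fact.out : N.Prime).ne_zero⟩
  have hp : p.Prime := Fact.out
  obtain ⟨π, hπ⟩ : ∃ π : Equiv.Perm (Fin (l + 1)), π (Fin.last l) = j₀ :=
    ⟨Equiv.swap j₀ (Fin.last l), Equiv.swap_apply_right _ _⟩
  obtain ⟨K', iK', iFK', iKK', iT, y', K₁, hfin, hdeg, hS⟩ := (h.perm π).twist (p := p) (e' - k)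
  have hglue : e a + tripE
      ((Fin.snoc (fun j : Fin l => B (π j.castSucc))
        ((p : ZMod N) ^ (e' - k) * B (π (Fin.last l))) : Fin (l + 1) → ZMod N) (Fin.last l))
      ((Fin.snoc (fun j : Fin l => A (π j.castSucc))
        ((p : ZMod N) ^ (e' - k) * A (π (Fin.last l))) : Fin (l + 1) → ZMod N) (Fin.last l)) b
        = 0 := by
    have h1 : ∀ (c B' A' : ZMod N) i, tripE (c * B') (c * A') i = c * tripE B' A' i := by
      intro c B' A' i
      fin_cases i
      · rfl
      · rfl
      · change -(c * B' + c * A') = c * -(B' + A')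
        ring
    rw [Fin.snoc_last, Fin.snoc_last, hπ, h1, hyz]
    have h2 : (p : ZMod N) ^ (e' - k) * (-(p : ZMod N) ^ k * e a) = -((p : ZMod N) ^ e' * e a) := by
      rw [← Nat.sub_add_cancel hk.le, pow_add]
      simp only [Nat.add_sub_cancel]
      ring
    rw [h2, hpe]
    ring
  have hG := hS.glue a b hglue
  have hT1 := tot_snoc e (fun j : Fin l => B (π j.castSucc)) (fun j : Fin l => A (π j.castSucc))
    ((p : ZMod N) ^ (e' - k)) (B (π (Fin.last l))) (A (π (Fin.last l)))
  have hT2 : tot e B A = tot e (fun j : Fin l => B (π j.castSucc))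
      (fun j : Fin l => A (π j.castSucc)) +
      Multiset.map (tripE (B (π (Fin.last l))) (A (π (Fin.last l)))) Finset.univ.val := by
    rw [← tot_perm e B A π]
    unfold tot
    rw [Fin.sum_univ_castSucc, add_assoc]
  have hT3 := tot_glue e
    (Fin.snoc (fun j : Fin l => B (π j.castSucc))
        ((p : ZMod N) ^ (e' - k) * B (π (Fin.last l))) : Fin (l + 1) → ZMod N)
    (Fin.snoc (fun j : Fin l => A (π j.castSucc))
        ((p : ZMod N) ^ (e' - k) * A (π (Fin.last l))) : Fin (l + 1) → ZMod N) a b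
  refine ⟨K', iK', iFK', iKK', iT, hfin, hdeg.trans (Nat.pow_le_pow_right hp.pos (Nat.sub_le _ _)),
    _, _, _, _, _, _, _, _, _, hG, ?_, ?_⟩
  · rw [hT2] at hb
    have hb2 := (Bal.twist he hpe (e' - k)).2 hb
    rw [← hT1, ← hT3] at hb2
    have h3 := eq_neg_of_add_eq_zero_right hglue
    rw [h3] at hb2
    refine Bal.of_pair (x := e a) (k := 0) he hpe ?_
    rw [pow_zero, neg_mul, one_mul]
    exact hb2
  · intro z hz2
    have hz3 : z ∈ tot e (Fin.snoc (fun j : Fin l => B (π j.castSucc))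
        ((p : ZMod N) ^ (e' - k) * B (π (Fin.last l))) : Fin (l + 1) → ZMod N)
      (Fin.snoc (fun j : Fin l => A (π j.castSucc))
        ((p : ZMod N) ^ (e' - k) * A (π (Fin.last l))) : Fin (l + 1) → ZMod N) := by
      rw [← hT3]
      exact Multiset.mem_cons_of_mem (Multiset.mem_cons_of_mem hz2)
    rw [hT1] at hz3
    rw [hT2] at h0
    rcases Multiset.mem_add.1 hz3 with h4 | h4
    · exact h0 z (Multiset.mem_add.2 (Or.inl h4))
    · obtain ⟨u, hu, rfl⟩ := Multiset.mem_map.1 h4
      refine mul_ne_zero (pow_ne_zero _ ?_) (h0 u (Multiset.mem_add.2 (Or.inr hu)))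
      intro hp0
      rw [hp0, zero_pow he.ne'] at hpe
      exact zero_ne_one hpe

end UnrG
end

section

/-!
# Normalised coordinates: the monomial and independence
-/

namespace UnrG

universe u v w

open Polynomial Finset

variable {N : ℕ} {F K : Type u} [Field F] [Field K] [Algebra F K] {r d l : ℕ} {t : Fin r → K}
  {Y : Fin (d + 2) → K} {e : Fin (d + 2) → ZMod N} {x : Fin l → K} {B A : Fin l → ZMod N} {δ w : K}
  {K₀ : IntermediateField F K}

/-- Proof: `w ^ N = c ^ N ∏ Y_i ^ e_i * nD`; the quotient of `∏ Y_i ^ e_i` and the product of the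
powers of the normalised terms is an `N`-th power of `K₀` (`ModPow.smul_terms` for `Y ∘ π`,
`Equiv.prod_comp`, `Equiv.sum_comp`), so `w' = w / c'` with `c' ∈ K₀`, and `K₀(w') = K₀(w) = K`
(`SysD.K₀_eq'`). -/
theorem SysD.exists_w [NeZero N] (h : SysD N t Y e x B A δ w K₀) (π : Equiv.Perm (Fin (d + 2))) :
    ∃ w' : K, w' ^ N = nE δ x B A * ∏ i, nY Y π i ^ (e (π i)).val ∧
      IntermediateField.adjoin F
        (Set.range (Fin.append t x) ∪ Set.range (nY Y π) ∪ {w'}) = ⊤ := by
  obtain ⟨c, hc, hc0, hcw⟩ := h.w_pow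
  obtain ⟨u, hu⟩ : ∃ u, u = Y (π (Fin.last (d + 1))) := ⟨_, rfl⟩
  have hu0 : u ≠ 0 := by rw [hu]; exact h.Y_ne _
  have huK : u ∈ K₀ := by rw [hu]; exact h.Y_mem _
  have hsum : ∑ i, e (π i) = 0 := by
    rw [Equiv.sum_comp π e]
    exact h.sum_e
  have hY : ∀ i, u * nY Y π i = Y (π i) := by
    intro i
    unfold nY
    rw [hu, mul_comm, div_mul_cancel₀ _ (h.Y_ne _)]
  obtain ⟨c', hc', hc'0, hcw'⟩ := ModPow.smul_terms (N := N) (K₀ := K₀) (Y := nY Y π)
    (e := fun i => e (π i)) hsum huK hu0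
  have h1 : ∏ i, Y i ^ (e i).val = c' ^ N * ∏ i, nY Y π i ^ (e (π i)).val := by
    rw [← hcw', ← Equiv.prod_comp π]
    refine Finset.prod_congr rfl fun i _ => ?_
    rw [hY i]
  have hcc : c * c' ≠ 0 := mul_ne_zero hc0 hc'0
  refine ⟨w / (c * c'), ?_, ?_⟩
  · rw [div_pow, hcw, h1, div_eq_iff (pow_ne_zero _ hcc), mul_pow]
    unfold nE nD
    ring
  · rw [eq_top_iff, ← h.top]
    refine sup_le ?_ ?_
    · rw [h.K₀_eq' π]
      exact IntermediateField.adjoin.mono _ _ _ Set.subset_union_left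
    · rw [IntermediateField.adjoin_simple_le_iff]
      have h2 : c * c' ∈ IntermediateField.adjoin F
          (Set.range (Fin.append t x) ∪ Set.range (nY Y π) ∪ {w / (c * c')}) := by
        have h3 : c * c' ∈ K₀ := mul_mem hc hc'
        rw [h.K₀_eq' π] at h3
        exact IntermediateField.adjoin.mono _ _ _ Set.subset_union_left h3
      have h4 : w / (c * c') ∈ IntermediateField.adjoin F
          (Set.range (Fin.append t x) ∪ Set.range (nY Y π) ∪ {w / (c * c')}) :=
        IntermediateField.subset_adjoin F _ (Or.inr rfl)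
      have h5 := mul_mem h4 h2
      rwa [div_mul_cancel₀ _ hcc] at h5

/-- Proof: `indep_of_trdeg` (PF/G1b), with the family of `h.ind` reindexed. Every element of `K` is
algebraic over the field `R` generated by the family: `nY Y π (last) = 1`, the term with index `d`
is the negative sum of the others (`SysD.nY_sum`, `Fin.sum_univ_castSucc` twice), so `K₀ ≤ R`
(`SysD.K₀_eq'`), and `w ^ N ∈ K₀` (`h.w_pow`), `K = K₀(w)` (`h.top`). -/
theorem SysD.ind' [NeZero N] (h : SysD N t Y e x B A δ w K₀) (π : Equiv.Perm (Fin (d + 2))) :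
    AlgebraicIndependent F (Sum.elim (Fin.append t x)
      (fun i : Fin d => nY Y π (i.castLE (by omega)))) := by
  obtain ⟨v, hv⟩ := h.ind
  obtain ⟨g, hg⟩ : ∃ g : Fin (r + l) ⊕ Fin d → K, g = Sum.elim (Fin.append t x)
      (fun i : Fin d => nY Y π (i.castLE (by omega))) := ⟨_, rfl⟩
  obtain ⟨R, hR⟩ : ∃ R : IntermediateField F K,
      R = IntermediateField.adjoin F (Set.range g) := ⟨_, rfl⟩
  have hgl : ∀ i, Fin.append t x i ∈ R := fun i => by
    rw [hR]
    exact IntermediateField.subset_adjoin F _ ⟨Sum.inl i, by rw [hg]; rfl⟩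
  have hgr : ∀ i : Fin d, nY Y π (i.castSucc.castSucc) ∈ R := fun i => by
    rw [hR]
    exact IntermediateField.subset_adjoin F _ ⟨Sum.inr i, by rw [hg]; rfl⟩
  have hlast : nY Y π (Fin.last (d + 1)) ∈ R := by
    rw [(h.nY_ne π 0).2]
    exact one_mem _
  have hmid : nY Y π (Fin.last d).castSucc ∈ R := by
    have h1 := h.nY_sum π
    rw [Fin.sum_univ_castSucc, Fin.sum_univ_castSucc] at h1
    have h2 : nY Y π (Fin.last d).castSucc =
        -(∑ i : Fin d, nY Y π (i.castSucc.castSucc)) - nY Y π (Fin.last (d + 1)) := by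
      linear_combination h1
    rw [h2]
    exact sub_mem (neg_mem (sum_mem fun i _ => hgr i)) hlast
  have hall : ∀ i, nY Y π i ∈ R := by
    intro i
    refine Fin.lastCases hlast (fun i => ?_) i
    exact Fin.lastCases hmid (fun i => hgr i) i
  have hle : K₀ ≤ R := by
    rw [h.K₀_eq' π, IntermediateField.adjoin_le_iff]
    rintro z (⟨i, rfl⟩ | ⟨i, rfl⟩)
    · exact hgl i
    · exact hall i
  have hx : ∀ j, x j ∈ K₀ := fun j => by
    rw [h.K₀_eq]
    exact IntermediateField.subset_adjoin F _ (Or.inr ⟨j, rfl⟩)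
  have hδ : δ ∈ K₀ := by
    rw [h.K₀_eq]
    refine (IntermediateField.adjoin.mono F _ _ ?_) h.δ_mem
    exact Set.subset_union_left.trans Set.subset_union_left
  have hw : w ^ N ∈ R := by
    obtain ⟨c, hc, hc0, hcw⟩ := h.w_pow
    rw [hcw]
    apply hle
    refine mul_mem (pow_mem hc _) (mul_mem hδ (mul_mem (prod_mem fun i _ => pow_mem (h.Y_mem i) _)
      (prod_mem fun j _ => mul_mem (pow_mem (hx j) _)
        (pow_mem (sub_mem (one_mem _) (hx j)) _))))
  obtain ⟨ε⟩ : Nonempty (Fin (r + l) ⊕ Fin d ≃ Fin (r + d + l)) :=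
    ⟨finSumFinEquiv.trans (finCongr (by omega))⟩
  have hf : AlgebraicIndependent F (v ∘ ε) := hv.comp ε ε.injective
  rw [← hg]
  refine indep_of_trdeg hf fun z => ?_
  rw [← hR]
  have h2 : (⊤ : IntermediateField F K) ≤ (algebraicClosure R K).restrictScalars F := by
    rw [← h.top]
    refine sup_le ?_ ?_
    · intro z hz
      exact mem_algebraicClosure_iff.2 (isAlgebraic_algebraMap (⟨z, hle hz⟩ : R))
    · rw [IntermediateField.adjoin_simple_le_iff]
      have h3 : IsAlgebraic R (w ^ N) := isAlgebraic_algebraMap (⟨w ^ N, hw⟩ : R)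
      exact mem_algebraicClosure_iff.2 (h3.of_pow (Nat.pos_of_ne_zero (NeZero.ne N)))
  exact mem_algebraicClosure_iff.1 (h2 (IntermediateField.mem_top (x := z)))

end UnrG
end

section

/-!
# Relations with four terms
-/

namespace UnrG

universe u v w

open Polynomial Finset

variable {N : ℕ} {F K : Type u} [Field F] [Field K] [Algebra F K] {r l : ℕ} {t : Fin r → K}
  {Y : Fin (2 + 2) → K} {e : Fin (2 + 2) → ZMod N} {x : Fin l → K} {B A : Fin l → ZMod N} {δ w : K}
  {K₀ : IntermediateField F K}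

/-- Hint: `SysD.nY_ne`, `SysD.nY_sum`, `SysD.nE_mem`, `SysD.exists_w`, `SysD.ind'`, as for `SysD.cycData`;
`e (π 0) + e (π 1) ≠ 0` and `N` is prime, so `(e (π 0)).val + (e (π 1)).val` is prime to `N`. -/
theorem SysD.cyc4 [Fact N.Prime] {p : ℕ} (h : SysD N t Y e x B A δ w K₀)
    (π : Equiv.Perm (Fin (2 + 2))) {k₁ k₂ : ℕ} (hk₁ : 0 < k₁) (hk₂ : 0 < k₂)
    (h1 : e (π 1) = -(p : ZMod N) ^ k₁ * e (π 0)) (h2 : e (π 3) = -(p : ZMod N) ^ k₂ * e (π 2))
    (hb : e (π 0) + e (π 1) ≠ 0) :
    ∃ w' : K, Cyc4 p N k₁ k₂ (F := F) (Fin.append t x) (nY Y π) w' (nE δ x B A)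
      (fun i => (e (π i)).val) := by
  have hNp : N.Prime := Fact.out
  obtain ⟨w', hw', hgen⟩ := h.exists_w π
  have hval : ∀ z : ZMod N, ((z.val : ℕ) : ZMod N) = z := fun z => ZMod.natCast_zmod_val z
  refine ⟨w', ?_⟩
  exact
    { N_pos := hNp.pos
      k₁_pos := hk₁
      k₂_pos := hk₂
      h01 := by
        rw [← ZMod.natCast_eq_zero_iff]
        push_cast
        rw [hval, hval, h1]
        ring
      h23 := by
        rw [← ZMod.natCast_eq_zero_iff]
        push_cast
        rw [hval, hval, h2]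
        ring
      hsum := by
        rw [← ZMod.natCast_eq_zero_iff, Nat.cast_sum]
        simp only [hval]
        rw [Equiv.sum_comp π e]
        exact h.sum_e
      hb := by
        rw [Nat.coprime_comm, hNp.coprime_iff_not_dvd, ← ZMod.natCast_eq_zero_iff]
        push_cast
        rw [hval, hval]
        exact hb
      X_ne := fun i => (h.nY_ne π i).1
      X_last := (h.nY_ne π 0).2
      sum := h.nY_sum π
      δ_mem := h.nE_mem.1
      δ_ne := h.nE_mem.2
      eq := hw'
      ind := h.ind' π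
      gen := hgen }

/-- Two pairs of opposite exponents: `K` is purely transcendental. Proof: with `X_i = nY Y π i`
(`X_3 = 1`), `a = X_0 / X_1`: `a ≠ -1` because `X_0`, `X_1` are independent; `∑ X = 0` gives
`X_1 = -(X_2 + 1) / (a + 1)`. `w' ^ N = nD * X_0 ^ e_0 X_1 ^ e_1 X_2 ^ e_2` (`SysD.exists_w`), and
`X_0 ^ e_0 X_1 ^ e_1 = a ^ e_0 X_1 ^ (e_0 + e_1)` with `N ∣ e_0 + e_1` (as natural numbers), so
`w'' = w' / X_1 ^ ((e_0 + e_1) / N)` satisfies `w'' ^ N = (nE * X_2 ^ e_2) * a ^ e_0`. By `mono_trick`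
(PF/G6) for the subfield generated by `Fin.append t x` and `X_2` there is `y` such that `K` is
generated by `Fin.append t x`, `X_2`, `y`; these are independent by `indep_of_trdeg` (compare with
`SysD.ind'`). -/
theorem SysD.isPurely_of_opp [Fact N.Prime] (h : SysD N t Y e x B A δ w K₀)
    (π : Equiv.Perm (Fin (2 + 2))) (h0 : e (π 0) ≠ 0) (hb : e (π 0) + e (π 1) = 0) :
    ∃ (s : ℕ) (v : Fin s → K), AlgebraicIndependent F v ∧
      IntermediateField.adjoin F (Set.range v) = ⊤ := by
  have hNp : N.Prime := Fact.out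
  obtain ⟨w', hw', hgen⟩ := h.exists_w π
  have hval : ∀ z : ZMod N, ((z.val : ℕ) : ZMod N) = z := fun z => ZMod.natCast_zmod_val z
  have hX3 : nY Y π 3 = 1 := (h.nY_ne π 0).2
  have hX0 : nY Y π 0 ≠ 0 := (h.nY_ne π 0).1
  have hX1 : nY Y π 1 ≠ 0 := (h.nY_ne π 1).1
  have hX2 : nY Y π 2 ≠ 0 := (h.nY_ne π 2).1
  have hsum : nY Y π 0 + nY Y π 1 + nY Y π 2 + 1 = 0 := by
    have h1 := h.nY_sum π
    rw [Fin.sum_univ_four, hX3] at h1
    exact h1
  have hind := h.ind' π
  have hne : nY Y π 0 + nY Y π 1 ≠ 0 := by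
    intro h1
    have h2 := hind
    rw [algebraicIndependent_iff] at h2
    have h3 := h2 (MvPolynomial.X (Sum.inr 0) + MvPolynomial.X (Sum.inr 1)) (by
      rw [map_add, MvPolynomial.aeval_X, MvPolynomial.aeval_X]
      exact h1)
    have h4 := congrArg (MvPolynomial.coeff (Finsupp.single (Sum.inr 0 : Fin (r + l) ⊕ Fin 2) 1)) h3
    rw [MvPolynomial.coeff_add, MvPolynomial.coeff_X, MvPolynomial.coeff_zero,
      MvPolynomial.coeff_X, if_pos rfl, if_neg, add_zero] at h4
    · exact one_ne_zero h4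
    · intro h5
      have h6 := DFunLike.congr_fun h5 (Sum.inr 0)
      simp at h6
  obtain ⟨a, ha⟩ : ∃ a, a = nY Y π 0 / nY Y π 1 := ⟨_, rfl⟩
  have ha0 : a ≠ 0 := by
    rw [ha]
    exact div_ne_zero hX0 hX1
  have haX : nY Y π 0 = a * nY Y π 1 := by
    rw [ha, div_mul_cancel₀ _ hX1]
  have ha1 : a + 1 ≠ 0 := by
    intro h1
    apply hne
    rw [haX]
    linear_combination nY Y π 1 * h1
  have hX1eq : nY Y π 1 = -(nY Y π 2 + 1) / (a + 1) := by
    rw [eq_div_iff ha1]
    linear_combination hsum - haX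
  obtain ⟨m, hm⟩ : N ∣ (e (π 0)).val + (e (π 1)).val := by
    rw [← ZMod.natCast_eq_zero_iff]
    push_cast
    rw [hval, hval, hb]
  obtain ⟨w₂, hw₂⟩ : ∃ w₂, w₂ = w' / nY Y π 1 ^ m := ⟨_, rfl⟩
  have hw₂' : w' = w₂ * nY Y π 1 ^ m := by
    rw [hw₂, div_mul_cancel₀ _ (pow_ne_zero _ hX1)]
  have hpow : w₂ ^ N = nE δ x B A * nY Y π 2 ^ (e (π 2)).val * a ^ (e (π 0)).val := by
    have h1 : w₂ ^ N * nY Y π 1 ^ (N * m) =
        nE δ x B A * nY Y π 2 ^ (e (π 2)).val * a ^ (e (π 0)).val * nY Y π 1 ^ (N * m) := by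
      have h2 : w₂ ^ N * nY Y π 1 ^ (N * m) = w' ^ N := by
        rw [hw₂', mul_pow, ← pow_mul, mul_comm m]
      rw [h2, hw', Fin.prod_univ_four, hX3, one_pow, mul_one, ← hm, haX, mul_pow, pow_add]
      ring
    exact mul_right_cancel₀ (pow_ne_zero _ hX1) h1
  set T : IntermediateField F K :=
    IntermediateField.adjoin F (Set.range (Fin.append t x) ∪ {nY Y π 2}) with hT
  have hTx : IntermediateField.adjoin F (Set.range (Fin.append t x)) ≤ T :=
    IntermediateField.adjoin.mono F _ _ Set.subset_union_left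
  have hX2T : nY Y π 2 ∈ T := IntermediateField.subset_adjoin F _ (Or.inr rfl)
  have hcop : (e (π 0)).val.Coprime N := by
    rw [Nat.coprime_comm, hNp.coprime_iff_not_dvd, ← ZMod.natCast_eq_zero_iff, hval]
    exact h0
  obtain ⟨y, hy⟩ := mono_trick T hNp.pos hcop (w := w₂) (X := a)
    (c := nE δ x B A * nY Y π 2 ^ (e (π 2)).val) (mul_mem (hTx h.nE_mem.1) (pow_mem hX2T _))
    (mul_ne_zero h.nE_mem.2 (pow_ne_zero _ hX2)) ha0 hpow
  -- the whole field
  have htop : T ⊔ IntermediateField.adjoin F {w₂, a} = ⊤ := by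
    rw [eq_top_iff, ← hgen, IntermediateField.adjoin_le_iff]
    set L := T ⊔ IntermediateField.adjoin F {w₂, a} with hL
    have hTL : T ≤ L := le_sup_left
    have haL : a ∈ L := (le_sup_right : IntermediateField.adjoin F {w₂, a} ≤ L)
      (IntermediateField.subset_adjoin F _ (Or.inr rfl))
    have hwL : w₂ ∈ L := (le_sup_right : IntermediateField.adjoin F {w₂, a} ≤ L)
      (IntermediateField.subset_adjoin F _ (Or.inl rfl))
    have hX1L : nY Y π 1 ∈ L := by
      rw [hX1eq]
      exact div_mem (neg_mem (add_mem (hTL hX2T) (one_mem L))) (add_mem haL (one_mem L))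
    have hX0L : nY Y π 0 ∈ L := by
      rw [haX]
      exact mul_mem haL hX1L
    rintro z ((⟨i, rfl⟩ | ⟨i, rfl⟩) | hz)
    · exact hTL (IntermediateField.subset_adjoin F _ (Or.inl ⟨i, rfl⟩))
    · fin_cases i
      · exact hX0L
      · exact hX1L
      · exact hTL hX2T
      · change nY Y π 3 ∈ L
        rw [hX3]
        exact one_mem L
    · rw [Set.mem_singleton_iff.mp hz, hw₂']
      exact mul_mem hwL (pow_mem hX1L _)
  have hg : IntermediateField.adjoin F
      (Set.range (Sum.elim (Fin.append t x) (![nY Y π 2, y] : Fin 2 → K))) = ⊤ := by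
    rw [eq_top_iff, ← htop, hy]
    refine sup_le ?_ ?_
    · refine IntermediateField.adjoin.mono F _ _ ?_
      rintro z (⟨i, rfl⟩ | hz)
      · exact ⟨Sum.inl i, rfl⟩
      · rw [Set.mem_singleton_iff.mp hz]
        exact ⟨Sum.inr 0, rfl⟩
    · refine IntermediateField.adjoin.mono F _ _ ?_
      rintro z hz
      rw [Set.mem_singleton_iff.mp hz]
      exact ⟨Sum.inr 1, rfl⟩
  have hindg : AlgebraicIndependent F (Sum.elim (Fin.append t x) (![nY Y π 2, y] : Fin 2 → K)) := by
    refine indep_of_trdeg hind fun z => ?_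
    have hz : z ∈ IntermediateField.adjoin F
        (Set.range (Sum.elim (Fin.append t x) (![nY Y π 2, y] : Fin 2 → K))) := by
      rw [hg]
      exact IntermediateField.mem_top
    exact isAlgebraic_algebraMap (⟨z, hz⟩ : IntermediateField.adjoin F
        (Set.range (Sum.elim (Fin.append t x) (![nY Y π 2, y] : Fin 2 → K))))
  obtain ⟨s, v, hv, hv2⟩ := isPurely_adjoin _ hindg
  exact ⟨s, v, hv, hv2.trans hg⟩

end UnrG
end

section

/-!
# Merging two terms of the main relation
-/

namespace UnrG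

universe u v w

open Finset

variable {N : ℕ} {F K : Type u} [Field F] [Field K] [Algebra F K] {r d l : ℕ}

/-- Permutation of the terms of the main relation. -/
theorem SysD.permY {t : Fin r → K} {Y : Fin (d + 2) → K}
    {e : Fin (d + 2) → ZMod N} {x : Fin l → K} {B A : Fin l → ZMod N} {δ w : K}
    {K₀ : IntermediateField F K} (h : SysD N t Y e x B A δ w K₀)
    (π : Equiv.Perm (Fin (d + 2))) :
    SysD N t (fun i => Y (π i)) (fun i => e (π i)) x B A δ w K₀ := by
  have hr : {z | ∃ i j, z = Y (π i) / Y (π j)} = {z | ∃ i j, z = Y i / Y j} := by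
    ext z
    constructor
    · rintro ⟨i, j, rfl⟩
      exact ⟨_, _, rfl⟩
    · rintro ⟨i, j, rfl⟩
      exact ⟨π.symm i, π.symm j, by rw [Equiv.apply_symm_apply, Equiv.apply_symm_apply]⟩
  exact
    { Y_ne := fun i => h.Y_ne _
      Y_mem := fun i => h.Y_mem _
      sum_Y := (Equiv.sum_comp π Y).trans h.sum_Y
      sum_e := (Equiv.sum_comp π e).trans h.sum_e
      x_ne := h.x_ne
      x_ne_one := h.x_ne_one
      δ_mem := h.δ_mem
      δ_ne := h.δ_ne
      K₀_eq := by rw [hr]; exact h.K₀_eq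
      top := h.top
      w_pow := by
        rw [Equiv.prod_comp π (fun i => Y i ^ (e i).val)]
        exact h.w_pow
      ind := h.ind }

/-- A permutation with two prescribed values. -/
private lemma M1_perm {s : ℕ} {i j : Fin (s + 2)} (hij : i ≠ j) :
    ∃ π : Equiv.Perm (Fin (s + 2)), π 0 = i ∧ π (Fin.last (s + 1)) = j := by
  obtain ⟨π₁, hπ₁⟩ : ∃ π₁ : Equiv.Perm (Fin (s + 2)), π₁ (Fin.last (s + 1)) = j :=
    ⟨Equiv.swap (Fin.last (s + 1)) j, Equiv.swap_apply_left _ _⟩
  have hk : π₁.symm i ≠ Fin.last (s + 1) := by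
    intro h
    apply hij
    rw [← hπ₁, ← h, Equiv.apply_symm_apply]
  have h0 : (Fin.last (s + 1) : Fin (s + 2)) ≠ 0 := by
    intro h
    have := congrArg Fin.val h
    simp at this
  refine ⟨(Equiv.swap 0 (π₁.symm i)).trans π₁, ?_, ?_⟩
  · rw [Equiv.trans_apply, Equiv.swap_apply_left, Equiv.apply_symm_apply]
  · rw [Equiv.trans_apply, Equiv.swap_apply_of_ne_of_ne h0 hk.symm, hπ₁]

/-- The sum of two terms is not zero. -/
lemma SysD.add_ne [NeZero N] {t : Fin r → K} {Y : Fin (d + 1 + 2) → K}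
    {e : Fin (d + 1 + 2) → ZMod N} {x : Fin l → K} {B A : Fin l → ZMod N} {δ w : K}
    {K₀ : IntermediateField F K} (h : SysD N t Y e x B A δ w K₀) {i j : Fin (d + 1 + 2)}
    (hij : i ≠ j) : Y i + Y j ≠ 0 := by
  obtain ⟨π, hπ0, hπ1⟩ := M1_perm hij
  have h1 := (h.ind' π).transcendental (Sum.inr 0)
  intro h2
  apply h1
  have h3 : (Sum.elim (Fin.append t x) (fun i : Fin (d + 1) => nY Y π (i.castLE (by omega)))
      (Sum.inr 0)) = -1 := by
    change Y (π (Fin.castLE _ 0)) / Y (π (Fin.last (d + 1 + 1))) = -1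
    have h4 : (Fin.castLE (by omega) (0 : Fin (d + 1)) : Fin (d + 1 + 2)) = 0 := rfl
    rw [h4, hπ0, hπ1, div_eq_iff (h.Y_ne j)]
    linear_combination h2
  rw [h3]
  exact isAlgebraic_one.neg

/-- Merging of the last two terms; their quotients are new parameters. -/
theorem SysD.merge [NeZero N] {t : Fin r → K} {Y : Fin (d + 1 + 2) → K}
    {e : Fin (d + 1 + 2) → ZMod N} {x : Fin l → K} {B A : Fin l → ZMod N} {δ w : K}
    {K₀ : IntermediateField F K} (h : SysD N t Y e x B A δ w K₀) :
    ∃ (t' : Fin (r + 1) → K) (S δ' : K), SysD (d := d) N t'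
      (Fin.snoc (fun i : Fin (d + 1) => Y i.castSucc.castSucc) S : Fin (d + 2) → K)
      (Fin.snoc (fun i : Fin (d + 1) => e i.castSucc.castSucc)
        (e (Fin.last (d + 1)).castSucc + e (Fin.last (d + 2))) : Fin (d + 2) → ZMod N)
      x B A δ' w K₀ := by
  obtain ⟨i₁, hi₁⟩ : ∃ i₁ : Fin (d + 1 + 2), i₁ = (Fin.last (d + 1)).castSucc := ⟨_, rfl⟩
  obtain ⟨i₂, hi₂⟩ : ∃ i₂ : Fin (d + 1 + 2), i₂ = Fin.last (d + 2) := ⟨_, rfl⟩
  have hij : i₁ ≠ i₂ := by
    rw [hi₁, hi₂]
    intro h1
    have h2 := congrArg Fin.val h1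
    simp at h2
  obtain ⟨S, hS⟩ : ∃ S, S = Y i₁ + Y i₂ := ⟨_, rfl⟩
  have hS0 : S ≠ 0 := hS ▸ h.add_ne hij
  obtain ⟨τ, hτ⟩ : ∃ τ, τ = Y i₁ / S := ⟨_, rfl⟩
  obtain ⟨σ, hσ⟩ : ∃ σ, σ = Y i₂ / S := ⟨_, rfl⟩
  have hτσ : σ = 1 - τ := by
    rw [hτ, hσ, hS] at *
    field_simp
    ring
  have hτ0 : τ ≠ 0 := hτ ▸ div_ne_zero (h.Y_ne _) hS0
  have hσ0 : σ ≠ 0 := hσ ▸ div_ne_zero (h.Y_ne _) hS0
  have hY₁ : Y i₁ = τ * S := by rw [hτ, div_mul_cancel₀ _ hS0]
  have hY₂ : Y i₂ = σ * S := by rw [hσ, div_mul_cancel₀ _ hS0]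
  have hSm : S ∈ K₀ := hS ▸ add_mem (h.Y_mem _) (h.Y_mem _)
  have hτm : τ ∈ K₀ := hτ ▸ div_mem (h.Y_mem _) hSm
  have htm : ∀ i, t i ∈ K₀ := by
    intro i
    rw [h.K₀_eq]
    exact IntermediateField.subset_adjoin F _ (Or.inl (Or.inl ⟨i, rfl⟩))
  have hxm : ∀ j, x j ∈ K₀ := by
    intro j
    rw [h.K₀_eq]
    exact IntermediateField.subset_adjoin F _ (Or.inr ⟨j, rfl⟩)
  have hY'm : ∀ i, (Fin.snoc (fun i : Fin (d + 1) => Y i.castSucc.castSucc) S :
      Fin (d + 2) → K) i ∈ K₀ := by
    intro i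
    refine Fin.lastCases ?_ (fun i => ?_) i
    · rw [Fin.snoc_last]
      exact hSm
    · rw [Fin.snoc_castSucc]
      exact h.Y_mem _
  refine ⟨Fin.snoc t τ, S, δ * (τ ^ (e i₁).val * σ ^ (e i₂).val), ?_⟩
  have hle : IntermediateField.adjoin F (Set.range t) ≤
      IntermediateField.adjoin F (Set.range (Fin.snoc t τ : Fin (r + 1) → K)) := by
    rw [IntermediateField.adjoin_le_iff]
    rintro z ⟨i, rfl⟩
    exact IntermediateField.subset_adjoin F _ ⟨i.castSucc, Fin.snoc_castSucc _ _ _⟩
  have hτn : τ ∈ IntermediateField.adjoin F (Set.range (Fin.snoc t τ : Fin (r + 1) → K)) :=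
    IntermediateField.subset_adjoin F _ ⟨Fin.last r, Fin.snoc_last _ _⟩
  have hσn : σ ∈ IntermediateField.adjoin F (Set.range (Fin.snoc t τ : Fin (r + 1) → K)) := by
    rw [hτσ]
    exact sub_mem (one_mem _) hτn
  exact
    { Y_ne := by
        intro i
        refine Fin.lastCases ?_ (fun i => ?_) i
        · rw [Fin.snoc_last]
          exact hS0
        · rw [Fin.snoc_castSucc]
          exact h.Y_ne _
      Y_mem := hY'm
      sum_Y := by
        have h1 := h.sum_Y
        rw [Fin.sum_univ_castSucc, Fin.sum_univ_castSucc] at h1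
        rw [Fin.sum_univ_castSucc]
        simp only [Fin.snoc_castSucc, Fin.snoc_last]
        rw [hS, hi₁, hi₂, ← add_assoc]
        exact h1
      sum_e := by
        have h1 := h.sum_e
        rw [Fin.sum_univ_castSucc, Fin.sum_univ_castSucc] at h1
        rw [Fin.sum_univ_castSucc]
        simp only [Fin.snoc_castSucc, Fin.snoc_last]
        rw [← add_assoc]
        exact h1
      x_ne := h.x_ne
      x_ne_one := h.x_ne_one
      δ_mem := mul_mem (hle h.δ_mem) (mul_mem (pow_mem hτn _) (pow_mem hσn _))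
      δ_ne := mul_ne_zero h.δ_ne (mul_ne_zero (pow_ne_zero _ hτ0) (pow_ne_zero _ hσ0))
      K₀_eq := by
        apply le_antisymm
        · rw [h.K₀_eq, IntermediateField.adjoin_le_iff]
          obtain ⟨R, hR⟩ : ∃ R, R = IntermediateField.adjoin F
            (Set.range (Fin.snoc t τ : Fin (r + 1) → K) ∪
              {z | ∃ i j, z = (Fin.snoc (fun i : Fin (d + 1) => Y i.castSucc.castSucc) S :
                Fin (d + 2) → K) i / (Fin.snoc (fun i : Fin (d + 1) => Y i.castSucc.castSucc) S :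
                Fin (d + 2) → K) j} ∪ Set.range x) := ⟨_, rfl⟩
          rw [← hR]
          have hgen : ∀ z, z ∈ IntermediateField.adjoin F
              (Set.range (Fin.snoc t τ : Fin (r + 1) → K)) → z ∈ R := by
            intro z hz
            rw [hR]
            refine (IntermediateField.adjoin.mono F _ _ ?_) hz
            exact Set.subset_union_left.trans Set.subset_union_left
          have hq : ∀ i, Y i / S ∈ R := by
            intro i
            refine Fin.lastCases ?_ (fun i => ?_) i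
            · rw [← hi₂, ← hσ]
              exact hgen _ hσn
            · refine Fin.lastCases ?_ (fun i => ?_) i
              · rw [← hi₁, ← hτ]
                exact hgen _ hτn
              · rw [hR]
                refine IntermediateField.subset_adjoin F _ (Or.inl (Or.inr ⟨i.castSucc,
                  Fin.last (d + 1), ?_⟩))
                rw [Fin.snoc_castSucc, Fin.snoc_last]
          rintro z ((⟨i, rfl⟩ | ⟨i, j, rfl⟩) | ⟨j, rfl⟩)
          · exact hgen _ (hle (IntermediateField.subset_adjoin F _ ⟨i, rfl⟩))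
          · have h1 : Y i / Y j = (Y i / S) / (Y j / S) := by
              rw [div_div_div_cancel_right₀ hS0]
            rw [h1]
            exact div_mem (hq i) (hq j)
          · rw [hR]
            exact IntermediateField.subset_adjoin F _ (Or.inr ⟨j, rfl⟩)
        · rw [IntermediateField.adjoin_le_iff]
          rintro z ((⟨i, rfl⟩ | ⟨i, j, rfl⟩) | ⟨j, rfl⟩)
          · refine Fin.lastCases ?_ (fun i => ?_) i
            · rw [Fin.snoc_last]
              exact hτm
            · rw [Fin.snoc_castSucc]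
              exact htm i
          · exact div_mem (hY'm i) (hY'm j)
          · exact hxm j
      top := h.top
      w_pow := by
        refine h.w_pow.trans ?_
        have h1 : ModPow N K₀ (S ^ ((e i₁).val + (e i₂).val)) (S ^ (e i₁ + e i₂).val) := by
          apply ModPow.pow_congr hSm hS0
          push_cast
          rw [ZMod.natCast_zmod_val, ZMod.natCast_zmod_val, ZMod.natCast_zmod_val]
        rw [Fin.prod_univ_castSucc, Fin.prod_univ_castSucc,
          Fin.prod_univ_castSucc (fun i : Fin (d + 1 + 1) => (Fin.snoc (α := fun _ => K)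
            (fun i : Fin (d + 1) => Y i.castSucc.castSucc) S i) ^ ((Fin.snoc (α := fun _ => ZMod N)
              (fun i : Fin (d + 1) => e i.castSucc.castSucc)
              (e (Fin.last (d + 1)).castSucc + e (Fin.last (d + 2)))) i).val)]
        simp only [Fin.snoc_castSucc, Fin.snoc_last]
        have h2 : δ * ((∏ i : Fin (d + 1), Y i.castSucc.castSucc ^ (e i.castSucc.castSucc).val) *
            Y (Fin.last (d + 1)).castSucc ^ (e (Fin.last (d + 1)).castSucc).val *
            Y (Fin.last (d + 1 + 1)) ^ (e (Fin.last (d + 1 + 1))).val *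
            ∏ j, (x j ^ (B j).val * (1 - x j) ^ (A j).val)) =
            (δ * (τ ^ (e i₁).val * σ ^ (e i₂).val)) *
            ((∏ i : Fin (d + 1), Y i.castSucc.castSucc ^ (e i.castSucc.castSucc).val) *
            S ^ ((e i₁).val + (e i₂).val) *
            ∏ j, (x j ^ (B j).val * (1 - x j) ^ (A j).val)) := by
          have h3 : Y (Fin.last (d + 1)).castSucc = τ * S := by rw [← hi₁]; exact hY₁
          have h4 : Y (Fin.last (d + 1 + 1)) = σ * S := by
            have h5 : (Fin.last (d + 1 + 1) : Fin (d + 1 + 2)) = i₂ := hi₂.symm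
            rw [h5]
            exact hY₂
          have h5 : (Fin.last (d + 1 + 1) : Fin (d + 1 + 2)) = i₂ := hi₂.symm
          rw [h3, h4, h5, ← hi₁, mul_pow, mul_pow, pow_add]
          ring
        rw [h2]
        refine (ModPow.refl _).mul (ModPow.mul (ModPow.mul (ModPow.refl _) ?_) (ModPow.refl _))
        rw [← hi₁, ← hi₂]
        exact h1
      ind := by
        obtain ⟨v, hv⟩ := h.ind
        exact ⟨_, hv.comp (finCongr (by omega : r + 1 + d + l = r + (d + 1) + l))
          (Equiv.injective _)⟩ }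

end UnrG
end

section

/-!
# Unramified classes of the subfields generated by `x_0`, `x_1`, `y_j`
-/

namespace UnrG

universe u v w

open Polynomial Finset
open scoped Classical

variable {m : ℕ} {F M : Type u} [Field F] [Field M] [Algebra F M] {Q : ℕ}
  {k : IntermediateField F M} {x y : Fin 2 → M}

private lemma V3_mem {S : Set M} {z : M} :
    z ∈ IntermediateField.adjoin F S ↔
      z ∈ Subfield.closure (Set.range (algebraMap F M) ∪ S) := by
  rw [← IntermediateField.adjoin_toSubfield]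
  exact Iff.rfl

private lemma V3_alg {B : Type*} [Field B] [Algebra B M] {Q : ℕ} (hQ : 2 ≤ Q) {a : B} {z : M}
    (hz : z ^ Q + z = algebraMap B M a) : IsAlgebraic B z := by
  refine ⟨X ^ Q + X - C a, ?_, ?_⟩
  · intro h0
    have h1 := congrArg (fun f : B[X] => f.coeff 1) h0
    simp only [coeff_sub, coeff_add, coeff_X_pow, coeff_X_one, coeff_zero] at h1
    rw [if_neg (by omega), coeff_C, if_neg (by norm_num)] at h1
    simp at h1
  · simp [hz]

/-- TASK V3, part 1. Proof: as `P1_transc` in K/P1: `x_i` is transcendental over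
`B = IntermediateField.adjoin k (x '' {i}ᶜ)` (`AlgebraicIndependent.transcendental_adjoin`), so over
`algebraicClosure B M` (`Transcendental.algebraicClosure`), which contains `k`, `x_j` and `y_j` (a root of
the monic polynomial `X ^ Q + X - x_j ^ (Q + 1)`, `Q ≥ 2`). -/
theorem Herm2.transc (h : Herm2 Q k x y) (hQ : 2 ≤ Q) {i j : Fin 2} (hij : i ≠ j) :
    ∀ f : (IntermediateField.adjoin F ((k : Set M) ∪ {x j, y j}))[X], f ≠ 0 →
      f.eval₂ (algebraMap (IntermediateField.adjoin F ((k : Set M) ∪ {x j, y j})) M) (x i) ≠ 0 := by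
  obtain ⟨B, hB⟩ : ∃ B : IntermediateField k M, B =
    IntermediateField.adjoin k (x '' {i}ᶜ) := ⟨_, rfl⟩
  have hT0 : Transcendental B (x i) := by
    subst hB
    rw [IntermediateField.transcendental_adjoin_iff]
    exact h.ind.transcendental_adjoin (s := {i}ᶜ) (i := i) (by simp)
  have hT : Transcendental (algebraicClosure B M) (x i) := hT0.algebraicClosure
  have hmem : ∀ z ∈ B, z ∈ algebraicClosure B M := fun z hz =>
    (algebraicClosure B M).algebraMap_mem ⟨z, hz⟩
  have hk : ∀ z ∈ k, z ∈ B := fun z hz => B.algebraMap_mem ⟨z, hz⟩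
  have hx : x j ∈ B := by
    rw [hB]
    exact IntermediateField.subset_adjoin _ _ ⟨j, hij.symm, rfl⟩
  have hle : ∀ z ∈ IntermediateField.adjoin F ((k : Set M) ∪ {x j, y j}),
      z ∈ algebraicClosure B M := by
    intro z hz
    rw [V3_mem] at hz
    have h1 : Subfield.closure (Set.range (algebraMap F M) ∪ ((k : Set M) ∪ {x j, y j})) ≤
        (algebraicClosure B M).toSubfield := by
      rw [Subfield.closure_le]
      rintro z (⟨a, rfl⟩ | (hz | (rfl | rfl)))
      · exact hmem _ (hk _ (k.algebraMap_mem a))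
      · exact hmem _ (hk _ hz)
      · exact hmem _ hx
      · change y j ∈ algebraicClosure B M
        rw [mem_algebraicClosure_iff']
        have h2 : IsAlgebraic B (y j) := V3_alg (a := (⟨x j, hx⟩ : B) ^ (Q + 1)) hQ (by
          rw [h.eq j, map_pow]
          rfl)
        exact h2.isIntegral
    exact h1 hz
  intro f hf h0
  let g : (IntermediateField.adjoin F ((k : Set M) ∪ {x j, y j})) →+* algebraicClosure B M :=
    (algebraMap (IntermediateField.adjoin F ((k : Set M) ∪ {x j, y j})) M).codRestrict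
      (algebraicClosure B M) fun z => hle _ z.2
  refine hT ⟨f.map g, ?_, ?_⟩
  · exact (Polynomial.map_ne_zero_iff g.injective).mpr hf
  · rw [aeval_def, eval₂_map]
    exact h0

/-- TASK V3, part 2. Proof: `T' = R(x_i)` with `R = IntermediateField.adjoin F (k ∪ {x j, y j})`:
`unr_transc` for the inclusion `R →+* T'` and the element `x i` of `T'` (transcendental by part 1; generated:
`{x i, x j} = {x 0, x 1}`). `τ` fixes `k`, `x j`, `y j`, so it is the identity on `R`
(`IntermediateField.adjoin_induction`, or the equalizer). -/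
theorem Herm2.descent_y (h : Herm2 Q k x y) (hQ : 2 ≤ Q) (hm : Any m) {i j : Fin 2} (hij : i ≠ j)
    {ζ : F} {τ : M →+* M} (hτ : IsRot k x y ζ i τ) {T' : IntermediateField F M}
    (hT' : T' = IntermediateField.adjoin F ((k : Set M) ∪ {x 0, x 1, y j})) (η : KM m T')
    (hη : Unr η) :
    ∃ (R : Type u) (_ : Field R) (f : R →+* M) (κ : KM m R), τ.comp f = f ∧
      KM.map m f κ = KM.map m (algebraMap T' M) η := by
  obtain ⟨R, hR⟩ : ∃ R : IntermediateField F M, R =
    IntermediateField.adjoin F ((k : Set M) ∪ {x j, y j}) := ⟨_, rfl⟩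
  have htr : ∀ f : R[X], f ≠ 0 → f.eval₂ (algebraMap R M) (x i) ≠ 0 := by
    subst hR
    exact h.transc hQ hij
  have hxR : x j ∈ R := by
    rw [hR]
    exact IntermediateField.subset_adjoin _ _ (Or.inr (Or.inl rfl))
  have hyR : y j ∈ R := by
    rw [hR]
    exact IntermediateField.subset_adjoin _ _ (Or.inr (Or.inr rfl))
  have hkR : ∀ z ∈ k, z ∈ R := fun z hz => by
    rw [hR]
    exact IntermediateField.subset_adjoin _ _ (Or.inl hz)
  have hx2 : ∀ l, x l ∈ ({x 0, x 1} : Set M) := by
    intro l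
    fin_cases l
    · exact Or.inl rfl
    · exact Or.inr rfl
  have hxT : ∀ l, x l ∈ T' := by
    intro l
    rw [hT']
    refine IntermediateField.subset_adjoin _ _ (Or.inr ?_)
    rcases hx2 l with h1 | h1
    · exact Or.inl h1
    · exact Or.inr (Or.inl h1)
  have hRT : R ≤ T' := by
    rw [hR, IntermediateField.adjoin_le_iff]
    rintro z (hz | (rfl | rfl))
    · rw [hT']
      exact IntermediateField.subset_adjoin _ _ (Or.inl hz)
    · exact hxT j
    · rw [hT']
      exact IntermediateField.subset_adjoin _ _ (Or.inr (Or.inr (Or.inr rfl)))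
  let jR : R →+* T' := (IntermediateField.inclusion hRT).toRingHom
  have hj : (algebraMap T' M).comp jR = algebraMap R M := rfl
  have hgen : Subfield.closure (Set.range jR ∪ {(⟨x i, hxT i⟩ : T')}) = ⊤ := by
    have h1 : Subfield.closure (Set.range (algebraMap F M) ∪ ((k : Set M) ∪ {x 0, x 1, y j})) ≤
        (Subfield.closure (Set.range jR ∪ {(⟨x i, hxT i⟩ : T')})).map (algebraMap T' M) := by
      have hRm : ∀ z ∈ R, z ∈ (Subfield.closure
          (Set.range jR ∪ {(⟨x i, hxT i⟩ : T')})).map (algebraMap T' M) := fun z hz =>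
        ⟨jR ⟨z, hz⟩, Subfield.subset_closure (Or.inl ⟨_, rfl⟩), rfl⟩
      have hxm : ∀ l, x l ∈ (Subfield.closure
          (Set.range jR ∪ {(⟨x i, hxT i⟩ : T')})).map (algebraMap T' M) := by
        intro l
        by_cases hl : l = j
        · subst hl
          exact hRm _ hxR
        · obtain rfl : l = i := by omega
          exact ⟨_, Subfield.subset_closure (Or.inr rfl), rfl⟩
      rw [Subfield.closure_le]
      rintro z (⟨a, rfl⟩ | (hz | (rfl | rfl | rfl)))
      · exact hRm _ (R.algebraMap_mem a)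
      · exact hRm _ (hkR _ hz)
      · exact hxm 0
      · exact hxm 1
      · exact hRm _ hyR
    rw [eq_top_iff]
    rintro ⟨z, hz⟩ -
    have hz' : z ∈ Subfield.closure
        (Set.range (algebraMap F M) ∪ ((k : Set M) ∪ {x 0, x 1, y j})) := by
      rw [← V3_mem, ← hT']
      exact hz
    obtain ⟨s, hs, hsz⟩ := h1 hz'
    obtain rfl : s = ⟨z, hz⟩ := Subtype.ext hsz
    exact hs
  obtain ⟨κ, -, hκ⟩ := unr_transc hm jR (t := (⟨x i, hxT i⟩ : T')) (by
    intro f hf h0
    apply htr f hf
    have h1 := congrArg (algebraMap T' M) h0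
    rw [Polynomial.hom_eval₂, map_zero] at h1
    exact h1) hgen hη
  refine ⟨R, inferInstance, algebraMap R M, κ, ?_, ?_⟩
  · have h1 : Subfield.closure (Set.range (algebraMap F M) ∪ ((k : Set M) ∪ {x j, y j})) ≤
        RingHom.eqLocusField τ (RingHom.id M) := by
      rw [Subfield.closure_le]
      rintro z (⟨a, rfl⟩ | (hz | (rfl | rfl)))
      · exact hτ.fk _ (k.algebraMap_mem a)
      · exact hτ.fk _ hz
      · exact hτ.fx' j hij.symm
      · exact hτ.fy j
    ext z
    have hz : (z : M) ∈ Subfield.closure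
        (Set.range (algebraMap F M) ∪ ((k : Set M) ∪ {x j, y j})) := by
      rw [← V3_mem, ← hR]
      exact z.2
    exact h1 hz
  · rw [← hκ, KM.map_map]
    rfl

end UnrG
end

section

/-!
# Hermitian curves: classes of the subfield without one ordinate
-/

namespace UnrA.Fer

open UnrG

universe u v w z

open Polynomial Finset
open scoped Classical

variable {m : UFun.{u, z}} {F M : Type u} [Field F] [Field M] [Algebra F M] {Q : ℕ}
  {k : IntermediateField F M} {x y : Fin 2 → M}

private lemma V3_mem {S : Set M} {z : M} :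
    z ∈ IntermediateField.adjoin F S ↔
      z ∈ Subfield.closure (Set.range (algebraMap F M) ∪ S) := by
  rw [← IntermediateField.adjoin_toSubfield]
  exact Iff.rfl

private lemma V3_alg {B : Type*} [Field B] [Algebra B M] {Q : ℕ} (hQ : 2 ≤ Q) {a : B} {z : M}
    (hz : z ^ Q + z = algebraMap B M a) : IsAlgebraic B z := by
  refine ⟨X ^ Q + X - C a, ?_, ?_⟩
  · intro h0
    have h1 := congrArg (fun f : B[X] => f.coeff 1) h0
    simp only [coeff_sub, coeff_add, coeff_X_pow, coeff_X_one, coeff_zero] at h1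
    rw [if_neg (by omega), coeff_C, if_neg (by norm_num)] at h1
    simp at h1
  · simp [hz]

/-- TASK V3, part 2. Proof: `T' = R(x_i)` with `R = IntermediateField.adjoin F (k ∪ {x j, y j})`:
`unr_transc` for the inclusion `R →+* T'` and the element `x i` of `T'` (transcendental by part 1; generated:
`{x i, x j} = {x 0, x 1}`). `τ` fixes `k`, `x j`, `y j`, so it is the identity on `R`
(`IntermediateField.adjoin_induction`, or the equalizer). -/
theorem herm2_descent_y (h : Herm2 Q k x y) (hQ : 2 ≤ Q) {i j : Fin 2} (hij : i ≠ j)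
    {ζ : F} {τ : M →+* M} (hτ : IsRot k x y ζ i τ) {T' : IntermediateField F M}
    (hT' : T' = IntermediateField.adjoin F ((k : Set M) ∪ {x 0, x 1, y j})) (η : KM m T')
    (hη : Unr η) :
    ∃ (R : Type u) (_ : Field R) (f : R →+* M) (κ : KM m R), τ.comp f = f ∧
      KM.map m f κ = KM.map m (algebraMap T' M) η := by
  obtain ⟨R, hR⟩ : ∃ R : IntermediateField F M, R =
    IntermediateField.adjoin F ((k : Set M) ∪ {x j, y j}) := ⟨_, rfl⟩
  have htr : ∀ f : R[X], f ≠ 0 → f.eval₂ (algebraMap R M) (x i) ≠ 0 := by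
    subst hR
    exact h.transc hQ hij
  have hxR : x j ∈ R := by
    rw [hR]
    exact IntermediateField.subset_adjoin _ _ (Or.inr (Or.inl rfl))
  have hyR : y j ∈ R := by
    rw [hR]
    exact IntermediateField.subset_adjoin _ _ (Or.inr (Or.inr rfl))
  have hkR : ∀ z ∈ k, z ∈ R := fun z hz => by
    rw [hR]
    exact IntermediateField.subset_adjoin _ _ (Or.inl hz)
  have hx2 : ∀ l, x l ∈ ({x 0, x 1} : Set M) := by
    intro l
    fin_cases l
    · exact Or.inl rfl
    · exact Or.inr rfl
  have hxT : ∀ l, x l ∈ T' := by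
    intro l
    rw [hT']
    refine IntermediateField.subset_adjoin _ _ (Or.inr ?_)
    rcases hx2 l with h1 | h1
    · exact Or.inl h1
    · exact Or.inr (Or.inl h1)
  have hRT : R ≤ T' := by
    rw [hR, IntermediateField.adjoin_le_iff]
    rintro z (hz | (rfl | rfl))
    · rw [hT']
      exact IntermediateField.subset_adjoin _ _ (Or.inl hz)
    · exact hxT j
    · rw [hT']
      exact IntermediateField.subset_adjoin _ _ (Or.inr (Or.inr (Or.inr rfl)))
  let jR : R →+* T' := (IntermediateField.inclusion hRT).toRingHom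
  have hj : (algebraMap T' M).comp jR = algebraMap R M := rfl
  have hgen : Subfield.closure (Set.range jR ∪ {(⟨x i, hxT i⟩ : T')}) = ⊤ := by
    have h1 : Subfield.closure (Set.range (algebraMap F M) ∪ ((k : Set M) ∪ {x 0, x 1, y j})) ≤
        (Subfield.closure (Set.range jR ∪ {(⟨x i, hxT i⟩ : T')})).map (algebraMap T' M) := by
      have hRm : ∀ z ∈ R, z ∈ (Subfield.closure
          (Set.range jR ∪ {(⟨x i, hxT i⟩ : T')})).map (algebraMap T' M) := fun z hz =>
        ⟨jR ⟨z, hz⟩, Subfield.subset_closure (Or.inl ⟨_, rfl⟩), rfl⟩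
      have hxm : ∀ l, x l ∈ (Subfield.closure
          (Set.range jR ∪ {(⟨x i, hxT i⟩ : T')})).map (algebraMap T' M) := by
        intro l
        by_cases hl : l = j
        · subst hl
          exact hRm _ hxR
        · obtain rfl : l = i := by omega
          exact ⟨_, Subfield.subset_closure (Or.inr rfl), rfl⟩
      rw [Subfield.closure_le]
      rintro z (⟨a, rfl⟩ | (hz | (rfl | rfl | rfl)))
      · exact hRm _ (R.algebraMap_mem a)
      · exact hRm _ (hkR _ hz)
      · exact hxm 0
      · exact hxm 1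
      · exact hRm _ hyR
    rw [eq_top_iff]
    rintro ⟨z, hz⟩ -
    have hz' : z ∈ Subfield.closure
        (Set.range (algebraMap F M) ∪ ((k : Set M) ∪ {x 0, x 1, y j})) := by
      rw [← V3_mem, ← hT']
      exact hz
    obtain ⟨s, hs, hsz⟩ := h1 hz'
    obtain rfl : s = ⟨z, hz⟩ := Subtype.ext hsz
    exact hs
  obtain ⟨κ, -, hκ⟩ := unr_transc jR (t := (⟨x i, hxT i⟩ : T')) (by
    intro f hf h0
    apply htr f hf
    have h1 := congrArg (algebraMap T' M) h0
    rw [Polynomial.hom_eval₂, map_zero] at h1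
    exact h1) hgen hη
  refine ⟨R, inferInstance, algebraMap R M, κ, ?_, ?_⟩
  · have h1 : Subfield.closure (Set.range (algebraMap F M) ∪ ((k : Set M) ∪ {x j, y j})) ≤
        RingHom.eqLocusField τ (RingHom.id M) := by
      rw [Subfield.closure_le]
      rintro z (⟨a, rfl⟩ | (hz | (rfl | rfl)))
      · exact hτ.fk _ (k.algebraMap_mem a)
      · exact hτ.fk _ hz
      · exact hτ.fx' j hij.symm
      · exact hτ.fy j
    ext z
    have hz : (z : M) ∈ Subfield.closure
        (Set.range (algebraMap F M) ∪ ((k : Set M) ∪ {x j, y j})) := by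
      rw [← V3_mem, ← hR]
      exact z.2
    exact h1 hz
  · rw [← hκ, KM.map_map]
    rfl

end UnrA.Fer
end

section

/-!
# Cyclic covers: sums over automorphisms
-/

namespace UnrA.Fer

open UnrG

universe u v w z

open Polynomial Finset
open scoped Classical

variable {𝔽 : Type w} [Field 𝔽] [Fintype 𝔽] (b : Base 𝔽)

variable {F E : Type u} [Field F] [Field E] [Algebra F E] {r n : ℕ} {t : Fin r → E}
  {X : Fin n → E} {W : E} {B A : Fin n → ZMod b.N}

lemma E4_ext (h : CycProd b.N (F := F) t X W B A) {f g : E →+* E}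
    (h1 : ∀ a : F, f (algebraMap F E a) = g (algebraMap F E a)) (h2 : ∀ i, f (t i) = g (t i))
    (h3 : ∀ j, f (X j) = g (X j)) (h4 : f W = g W) : f = g := by
  have hle : IntermediateField.adjoin F (Set.range t ∪ Set.range X ∪ {W}) ≤
      (RingHom.eqLocusField f g).toIntermediateField h1 := by
    rw [IntermediateField.adjoin_le_iff]
    rintro z ((⟨i, rfl⟩ | ⟨i, rfl⟩) | hz)
    · exact h2 i
    · exact h3 i
    · rw [Set.mem_singleton_iff] at hz
      rw [hz]
      exact h4
  ext z
  have hz : z ∈ IntermediateField.adjoin F (Set.range t ∪ Set.range X ∪ {W}) := by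
    rw [h.gen]; trivial
  exact hle hz

lemma E4_t_mem (i : Fin r) : t i ∈ baseF F t X :=
  IntermediateField.subset_adjoin F _ (Or.inl ⟨i, rfl⟩)

lemma E4_X_mem (j : Fin n) : X j ∈ baseF F t X :=
  IntermediateField.subset_adjoin F _ (Or.inr ⟨j, rfl⟩)

lemma E4_pow_mem (h : CycProd b.N (F := F) t X W B A) : W ^ b.N ∈ baseF F t X := by
  rw [h.eq]
  refine prod_mem fun j _ => mul_mem (pow_mem (E4_X_mem j) _)
    (pow_mem (sub_mem (one_mem _) (E4_X_mem j)) _)

lemma E4_W_ne (h : CycProd b.N (F := F) t X W B A) : W ≠ 0 := by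
  intro h0
  have h1 := h.eq
  rw [h0, zero_pow b.N_pos.ne'] at h1
  exact Finset.prod_ne_zero_iff.mpr (fun j _ => mul_ne_zero (pow_ne_zero _ (h.X_ne j).1)
    (pow_ne_zero _ (h.X_ne j).2)) h1.symm

lemma E4_zeta (ι : 𝔽 →+* F) : IsPrimitiveRoot (algebraMap F E (ι b.ζ)) b.N :=
  b.hζ_map ((algebraMap F E).comp ι)

/-- Automorphisms over the base multiply `W` by a root of unity. -/
lemma E4_exp (h : CycProd b.N (F := F) t X W B A) (ι : 𝔽 →+* F)
    (g : E ≃ₐ[baseF F t X] E) :
    ∃ k < b.N, g W = algebraMap F E (ι b.ζ) ^ k * W := by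
  have hW := E4_W_ne b h
  have h1 : (g W / W) ^ b.N = 1 := by
    rw [div_pow, ← map_pow]
    have h2 : g (W ^ b.N) = W ^ b.N := g.commutes ⟨W ^ b.N, E4_pow_mem b h⟩
    rw [h2, div_self (pow_ne_zero _ hW)]
  obtain ⟨k, hk, hk'⟩ := (E4_zeta b (E := E) ι).eq_pow_of_pow_eq_one h1
  exact ⟨k, hk, by rw [hk', div_mul_cancel₀ _ hW]⟩

lemma E4_fix_const (g : E ≃ₐ[baseF F t X] E) (a : F) :
    g (algebraMap F E a) = algebraMap F E a :=
  g.commutes ⟨_, (baseF F t X).algebraMap_mem a⟩

lemma E4_fix_t (g : E ≃ₐ[baseF F t X] E) (i : Fin r) : g (t i) = t i :=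
  g.commutes ⟨_, E4_t_mem i⟩

lemma E4_fix_X (g : E ≃ₐ[baseF F t X] E) (j : Fin n) : g (X j) = X j :=
  g.commutes ⟨_, E4_X_mem j⟩

/-- The classes `|G| z - ∑_h h z` are new. Proof: `g` (an automorphism over `baseF`, because it fixes
`F`, `t`, `X`) has order `N` (`g W = ζ ^ k W`, `N ∤ k`, `N` prime), and `|G| ≤ N`, so `G` consists of the
powers of `g`, and `∑ l < N, g ^ l (h z) = ∑ l < N, g ^ l z` for all `h`; so
`∑ l < N, g ^ l (|G| z - ∑_h h z) = N ∑_l g ^ l z - ∑_h ∑_l g ^ l z = 0`. -/
theorem cycProd_sum_new (h : CycProd b.N (F := F) t X W B A) (ι : 𝔽 →+* F) (hN : b.N.Prime)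
    {m : UFun.{u, z}} (z : KM m E) (g : E →+* E) (k : ℕ)
    (h1 : ∀ a : F, g (algebraMap F E a) = algebraMap F E a) (h2 : ∀ i, g (t i) = t i)
    (h3 : ∀ j, g (X j) = X j) (h4 : g W = algebraMap F E (ι b.ζ) ^ k * W) (hk : ¬ b.N ∣ k)
    [Fintype (E ≃ₐ[baseF F t X] E)] :
    ∑ l ∈ range b.N, KM.map m (g ^ l)
      (Fintype.card (E ≃ₐ[baseF F t X] E) • z -
        ∑ h : E ≃ₐ[baseF F t X] E, KM.map m (h : E →+* E) z) = 0 := by
  have hgl : ∀ l : ℕ, (∀ a : F, (g ^ l) (algebraMap F E a) = algebraMap F E a) ∧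
      (∀ i, (g ^ l) (t i) = t i) ∧ (∀ j, (g ^ l) (X j) = X j) ∧
      (g ^ l) W = algebraMap F E (ι b.ζ) ^ (k * l) * W := by
    intro l
    induction l with
    | zero =>
      refine ⟨fun a => rfl, fun i => rfl, fun j => rfl, ?_⟩
      rw [mul_zero, pow_zero, pow_zero, one_mul]
      rfl
    | succ l ih =>
      obtain ⟨i1, i2, i3, i4⟩ := ih
      have hs : ∀ x, (g ^ (l + 1)) x = (g ^ l) (g x) := fun x => by
        rw [pow_succ]; rfl
      refine ⟨fun a => ?_, fun i => ?_, fun j => ?_, ?_⟩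
      · rw [hs, h1, i1]
      · rw [hs, h2, i2]
      · rw [hs, h3, i3]
      · rw [hs, h4, map_mul, map_pow, i1, i4, ← mul_assoc, ← pow_add]
        congr 2
        ring
  have hζ := E4_zeta b (E := E) ι
  -- every automorphism is a power of `g`
  have hpow : ∀ f : E ≃ₐ[baseF F t X] E, ∃ l₀ : ℕ, (f : E →+* E) = g ^ l₀ := by
    intro f
    obtain ⟨k', -, hk'⟩ := E4_exp b h ι f
    have hcop : k.Coprime b.N := ((Nat.Prime.coprime_iff_not_dvd hN).mpr hk).symm
    obtain ⟨l₀, hl₀⟩ : ∃ l₀ : ℕ, k * l₀ ≡ k' [MOD b.N] := by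
      obtain ⟨s, hs⟩ := Nat.exists_mul_mod_eq_one_of_coprime hcop hN.one_lt
      refine ⟨s * k', ?_⟩
      have h5 : k * s ≡ 1 [MOD b.N] := by
        rw [Nat.ModEq, hs.2, Nat.mod_eq_of_lt hN.one_lt]
      calc k * (s * k') = (k * s) * k' := by ring
        _ ≡ 1 * k' [MOD b.N] := h5.mul_right k'
        _ = k' := one_mul _
    obtain ⟨i1, i2, i3, i4⟩ := hgl l₀
    refine ⟨l₀, E4_ext b h (fun a => ?_) (fun i => ?_) (fun j => ?_) ?_⟩
    · exact (E4_fix_const f a).trans (i1 a).symm
    · exact (E4_fix_t f i).trans (i2 i).symm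
    · exact (E4_fix_X f j).trans (i3 j).symm
    · refine (show f W = _ from hk').trans ?_
      rw [i4]
      congr 1
      rw [pow_eq_pow_mod k' hζ.pow_eq_one, pow_eq_pow_mod (k * l₀) hζ.pow_eq_one]
      rw [hl₀]
  have hgN : g ^ b.N = 1 := by
    obtain ⟨i1, i2, i3, i4⟩ := hgl b.N
    refine E4_ext b h i1 i2 i3 ?_
    rw [i4, mul_comm k, pow_mul, hζ.pow_eq_one, one_pow, one_mul]
    rfl
  have hshift1 : ∑ l ∈ range b.N, KM.map m (g ^ (l + 1)) z =
      ∑ l ∈ range b.N, KM.map m (g ^ l) z := by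
    have e1 := Finset.sum_range_succ (fun l => KM.map m (g ^ l) z) b.N
    have e2 := Finset.sum_range_succ' (fun l => KM.map m (g ^ l) z) b.N
    rw [e1] at e2
    rw [hgN, pow_zero] at e2
    exact (add_right_cancel e2).symm
  have hshift : ∀ l₀ : ℕ, ∑ l ∈ range b.N, KM.map m (g ^ (l + l₀)) z =
      ∑ l ∈ range b.N, KM.map m (g ^ l) z := by
    intro l₀
    induction l₀ with
    | zero => rfl
    | succ l₀ ih =>
      rw [← ih]
      have e1 := Finset.sum_range_succ (fun l => KM.map m (g ^ (l + l₀)) z) b.N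
      have e2 := Finset.sum_range_succ' (fun l => KM.map m (g ^ (l + l₀)) z) b.N
      rw [e1] at e2
      have e3 : g ^ (b.N + l₀) = g ^ (0 + l₀) := by
        rw [pow_add, hgN, one_mul, zero_add]
      rw [e3] at e2
      have e4 := add_right_cancel e2
      rw [e4]
      refine Finset.sum_congr rfl fun l _ => ?_
      rw [show l + (l₀ + 1) = l + 1 + l₀ by ring]
  have hh : ∀ f : E ≃ₐ[baseF F t X] E,
      ∑ l ∈ range b.N, KM.map m (g ^ l) (KM.map m (f : E →+* E) z) =
        ∑ l ∈ range b.N, KM.map m (g ^ l) z := by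
    intro f
    obtain ⟨l₀, hl₀⟩ := hpow f
    rw [← hshift l₀]
    refine Finset.sum_congr rfl fun l _ => ?_
    rw [KM.map_map, hl₀, pow_add]
    rfl
  have e5 : ∀ l ∈ range b.N, KM.map m (g ^ l)
      (Fintype.card (E ≃ₐ[baseF F t X] E) • z -
        ∑ h : E ≃ₐ[baseF F t X] E, KM.map m (h : E →+* E) z) =
      Fintype.card (E ≃ₐ[baseF F t X] E) • KM.map m (g ^ l) z -
        ∑ h : E ≃ₐ[baseF F t X] E, KM.map m (g ^ l) (KM.map m (h : E →+* E) z) := by
    intro l _
    rw [map_sub, map_nsmul, map_sum]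
  rw [Finset.sum_congr rfl e5, Finset.sum_sub_distrib, Finset.sum_comm, ← Finset.smul_sum,
    Finset.sum_congr rfl (fun f _ => hh f), Finset.sum_const, Finset.card_univ, sub_self]

end UnrA.Fer
end
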