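import Pool.Agent.Lib.MP_859dd5_ag.Mg.G061
import Pool.Agent.Lib.MP_859dd5_ag.Mg.G003
import Pool.Agent.Lib.MP_859dd5_ag.Mg.G069
import Pool.Agent.Lib.MP_859dd5_ag.Mg.G009
import Pool.Agent.Lib.MP_859dd5_ag.Mg.G071
import Pool.Agent.Lib.MP_859dd5_ag.Mg.G072
import Pool.Agent.Lib.MP_859dd5_ag.Mg.G068
import Pool.Agent.Lib.MP_859dd5_ag.Mg.G070
import Pool.Agent.Lib.MP_859dd5_ag.Mg.G015
import Pool.Agent.Lib.MP_859dd5_ag.G.NormD
import Pool.Agent.Lib.MP_859dd5_ag.Mg.G007
import Pool.Agent.Lib.MP_859dd5_ag.Mg.G074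

section

section

/-!
# The function field of the line spanned by two Hermitian curves
-/

namespace UnrG

universe u v w

open Polynomial Finset
open scoped Classical

variable {m : ℕ}

/-- `K = k(u, v, y)` with `y` integral over `k(u, v)` is algebraic over `k(u, v)`. -/
private theorem V4_alg {k K : Type u} [Field k] [Field K] [Algebra k K] {Q : ℕ} (hQ : 2 ≤ Q) {u v y : K}
    (heq : y ^ Q + y = u ^ Q * v + u * v ^ Q)
    (hgen : IntermediateField.adjoin k {u, v, y} = ⊤) (z : K) :
    IsAlgebraic (IntermediateField.adjoin k (Set.range ![u, v])) z := by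
  obtain ⟨B, hB⟩ : ∃ B : IntermediateField k K, B = IntermediateField.adjoin k (Set.range ![u, v]) :=
    ⟨_, rfl⟩
  rw [← hB]
  have hu : u ∈ B := by
    rw [hB]; exact IntermediateField.subset_adjoin _ _ ⟨0, rfl⟩
  have hv : v ∈ B := by
    rw [hB]; exact IntermediateField.subset_adjoin _ _ ⟨1, rfl⟩
  let A := (algebraicClosure B K).restrictScalars k
  have hA : ∀ z, z ∈ A ↔ IsAlgebraic B z := fun z => by
    change z ∈ algebraicClosure B K ↔ _
    rw [mem_algebraicClosure_iff]
  have h1 : IntermediateField.adjoin k {u, v, y} ≤ A := by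
    rw [IntermediateField.adjoin_le_iff]
    rintro z (rfl | rfl | rfl)
    · exact (hA _).2 (isAlgebraic_algebraMap (⟨_, hu⟩ : B))
    · exact (hA _).2 (isAlgebraic_algebraMap (⟨_, hv⟩ : B))
    · refine (hA _).2 ?_
      let c : B := (⟨u, hu⟩ : B) ^ Q * ⟨v, hv⟩ + ⟨u, hu⟩ * (⟨v, hv⟩ : B) ^ Q
      have hc : algebraMap B K c = u ^ Q * v + u * v ^ Q := rfl
      have hmon : (X ^ Q + (X - C c) : B[X]).Monic := by
        apply monic_X_pow_add
        rw [degree_X_sub_C]
        exact_mod_cast (show 1 < Q by omega)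
      refine ⟨X ^ Q + (X - C c), hmon.ne_zero, ?_⟩
      rw [map_add, map_pow, map_sub, aeval_X, aeval_C, hc, ← heq]
      ring
  rw [hgen] at h1
  exact (hA z).1 (h1 (IntermediateField.mem_top))

private theorem V4_key {k K K' : Type u} [Field k] [Field K] [Field K'] [Algebra k K] [Algebra k K']
    [Algebra K K'] [IsScalarTower k K K'] {p : ℕ}
    [Fact p.Prime] [CharP k p] {s : ℕ} (hs : 0 < s) {u v y : K}
    (heq : y ^ p ^ s + y = u ^ p ^ s * v + u * v ^ p ^ s)
    (hgen : IntermediateField.adjoin k {u, v, y} = ⊤)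
    (hind : ∃ f : Fin 2 → K, AlgebraicIndependent k f) {a : K'}
    (ha : a ^ p ^ s = algebraMap K K' u) (hK' : IntermediateField.adjoin K {a} = ⊤) :
    ∃ w : Fin 2 → K', AlgebraicIndependent k w ∧ IntermediateField.adjoin k (Set.range w) = ⊤ := by
  have hp : p.Prime := Fact.out
  have : CharP K' p := charP_of_injective_algebraMap (algebraMap k K').injective p
  have : ExpChar K' p := ExpChar.prime hp
  have hQ : 2 ≤ p ^ s := by
    calc 2 ≤ p := hp.two_le
      _ = p ^ 1 := (pow_one p).symm
      _ ≤ p ^ s := Nat.pow_le_pow_right hp.pos hs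
  obtain ⟨f, hf⟩ := hind
  -- `u` is transcendental
  have huv : AlgebraicIndependent k ![u, v] := indep_of_trdeg hf (V4_alg hQ heq hgen)
  have hutr : Transcendental k u := by
    have := huv.transcendental 0
    simpa using this
  have hne : a - a ^ (p ^ s) ^ 2 ≠ 0 := by
    intro h0
    apply hutr
    have h1 : u = u ^ (p ^ s) ^ 2 := by
      apply (algebraMap K K').injective
      rw [map_pow, ← ha, ← pow_mul, mul_comm, pow_mul, ← sub_eq_zero.1 h0]
    have hQ2 : 1 < (p ^ s) ^ 2 := by
      apply Nat.one_lt_pow two_ne_zero (by omega)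
    have hmon : (X ^ (p ^ s) ^ 2 + (-X) : k[X]).Monic := by
      apply monic_X_pow_add
      rw [degree_neg, degree_X]
      exact_mod_cast hQ2
    refine ⟨X ^ (p ^ s) ^ 2 + (-X), hmon.ne_zero, ?_⟩
    rw [map_add, map_pow, map_neg, aeval_X, ← h1]
    ring
  obtain ⟨U, hU⟩ : ∃ U, U = algebraMap K K' u := ⟨_, rfl⟩
  obtain ⟨V, hV⟩ : ∃ V, V = algebraMap K K' v := ⟨_, rfl⟩
  obtain ⟨Y, hY⟩ : ∃ Y, Y = algebraMap K K' y := ⟨_, rfl⟩
  have hEq : Y ^ p ^ s + Y = U ^ p ^ s * V + U * V ^ p ^ s := by
    rw [hU, hV, hY]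
    have := congrArg (algebraMap K K') heq
    simpa using this
  obtain ⟨g, hg⟩ : ∃ g, g = (Y - U ^ p ^ s * V) - (a - a ^ (p ^ s) ^ 2) * V := ⟨_, rfl⟩
  have hgQ : g ^ p ^ s = -(Y - U ^ p ^ s * V) := by
    have e1 : g ^ p ^ s = (Y ^ p ^ s - (U ^ p ^ s) ^ p ^ s * V ^ p ^ s)
        - (a ^ p ^ s - (a ^ (p ^ s) ^ 2) ^ p ^ s) * V ^ p ^ s := by
      rw [hg, sub_pow_char_pow, sub_pow_char_pow, mul_pow, mul_pow, sub_pow_char_pow]
    have e2 : (a ^ (p ^ s) ^ 2) ^ p ^ s = (U ^ p ^ s) ^ p ^ s := by
      rw [hU, ← ha, ← pow_mul a, ← pow_mul a, ← pow_mul a]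
      congr 1
      rw [sq]
    rw [e1, e2, ha, ← hU]
    have e3 : Y ^ p ^ s = U ^ p ^ s * V + U * V ^ p ^ s - Y := by rw [← hEq]; ring
    rw [e3]
    ring
  have hVg : V = -(g ^ p ^ s + g) / (a - a ^ (p ^ s) ^ 2) := by
    rw [eq_div_iff hne, hgQ, hg]
    ring
  have hYg : Y = -g ^ p ^ s + a ^ (p ^ s) ^ 2 * V := by
    rw [hgQ, sq, pow_mul, ha, ← hU]
    ring
  have htop : IntermediateField.adjoin k (Set.range ![a, g]) = ⊤ := by
    obtain ⟨T, hT⟩ : ∃ T : IntermediateField k K', T =
      IntermediateField.adjoin k (Set.range ![a, g]) := ⟨_, rfl⟩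
    rw [← hT]
    have haT : a ∈ T := by
      rw [hT]; exact IntermediateField.subset_adjoin _ _ ⟨0, rfl⟩
    have hgT : g ∈ T := by
      rw [hT]; exact IntermediateField.subset_adjoin _ _ ⟨1, rfl⟩
    have hUT : U ∈ T := by
      rw [hU, ← ha]; exact pow_mem haT _
    have hVT : V ∈ T := by
      rw [hVg]
      exact div_mem (neg_mem (add_mem (pow_mem hgT _) hgT)) (sub_mem haT (pow_mem haT _))
    have hYT : Y ∈ T := by
      rw [hYg]
      exact add_mem (neg_mem (pow_mem hgT _)) (mul_mem (pow_mem haT _) hVT)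
    have hKT : ∀ z : K, algebraMap K K' z ∈ T := by
      intro z
      have hz : z ∈ IntermediateField.adjoin k {u, v, y} := by
        rw [hgen]; exact IntermediateField.mem_top
      have hle : IntermediateField.adjoin k {u, v, y} ≤ T.comap (IsScalarTower.toAlgHom k K K') := by
        rw [IntermediateField.adjoin_le_iff]
        rintro z (rfl | rfl | rfl)
        · exact (show algebraMap K K' z ∈ T from hU ▸ hUT)
        · exact (show algebraMap K K' z ∈ T from hV ▸ hVT)
        · exact (show algebraMap K K' z ∈ T from hY ▸ hYT)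
      exact hle hz
    rw [eq_top_iff]
    rintro z -
    have hz : z ∈ IntermediateField.adjoin K {a} := by
      rw [hK']; exact IntermediateField.mem_top
    induction hz using IntermediateField.adjoin_induction with
    | mem x hx => rw [Set.mem_singleton_iff.1 hx]; exact haT
    | algebraMap x => exact hKT x
    | add x y _ _ hx hy => exact add_mem hx hy
    | mul x y _ _ hx hy => exact mul_mem hx hy
    | inv x _ hx => exact inv_mem hx
  refine ⟨![a, g], ?_, htop⟩
  refine indep_of_trdeg (f := algebraMap K K' ∘ f) ?_ ?_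
  · have := hf.map' (f := IsScalarTower.toAlgHom k K K') (algebraMap K K').injective
    exact this
  · intro z
    have hz : z ∈ IntermediateField.adjoin k (Set.range ![a, g]) := by
      rw [htop]; exact IntermediateField.mem_top
    exact isAlgebraic_algebraMap (⟨z, hz⟩ : IntermediateField.adjoin k (Set.range ![a, g]))

/-- TASK V4. Proof: `CharP K p` (`charP_of_injective_algebraMap`). Let `Q = p ^ s`. By `exists_root_ext`
(PP/G6, for `F := k`; import it) there are a finite extension `K'` of `K` of degree `≤ Q`, a `k`-algebra, and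
`a ∈ K'` with `a ^ Q = u` (image of `u`) and `K' = K(a)`. Write `u, v, y` for the images in `K'`. Let
`y' = y - u ^ Q * v` and `g = y' - (a - a ^ (Q ^ 2)) * v`. Then `y' ^ Q + y' = (u - u ^ (Q ^ 2)) * v ^ Q` and
`g ^ Q = y' ^ Q - (u - u ^ (Q ^ 2)) * v ^ Q = -y'` (`sub_pow_char_pow`, `add_pow_char_pow`). Moreover
`a - a ^ (Q ^ 2) ≠ 0`: otherwise `u` is algebraic over `F_p`, so over `k`, which contradicts the independence
below. So `v = -(g ^ Q + g) / (a - a ^ (Q ^ 2))`, `y = -g ^ Q + u ^ Q * v`, `u = a ^ Q`, and `K'` is generated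
over `k` by `a` and `g` (`K` is generated over `k` by `u`, `v`, `y`). The two elements `a`, `g` are independent over
`k`: `indep_of_trdeg` (PF/G1b) with the images in `K'` of the independent pair `f` of the
hypothesis (`AlgebraicIndependent.map'`). For `a - a ^ (Q ^ 2) ≠ 0`: if it is zero then `u` is algebraic over
`k`, and `y` is algebraic over `k(v)` and `K` is algebraic over `k(v)`, so `f` is algebraic over
`k(v)` and two independent elements would be algebraic over a field of transcendence degree at most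
one over `k`; e.g. use `indep_of_trdeg` for `![u, v]` (`K` is algebraic over `k(u, v)`) to see that
`u` is transcendental over `k`. Now `unr_purely` for `K'` over `k` gives `κ` with image `ξ` in `K'`, and
`finrank K K' • (ξ - κ) = 0` by `finrank_smul_eq_zero` (G/NormA); the degree divides `Q!`
(`Nat.dvd_factorial`). -/
theorem unr_herm_line (hm : Any m) {k K : Type u} [Field k] [Field K] [Algebra k K] {p : ℕ}
    [Fact p.Prime] [CharP k p] {s : ℕ} (hs : 0 < s) {u v y : K}
    (heq : y ^ p ^ s + y = u ^ p ^ s * v + u * v ^ p ^ s)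
    (hgen : IntermediateField.adjoin k {u, v, y} = ⊤)
    (hind : ∃ f : Fin 2 → K, AlgebraicIndependent k f) {ξ : KM m K} (hξ : Unr ξ) :
    ∃ κ : KM m k, KM.map m (algebraMap k K) κ = (p ^ s).factorial • ξ := by
  obtain ⟨K', _, _, _, _, a, hfd, hdeg, ha, hK'⟩ := exists_root_ext (F := k) (K := K) (p := p) s u
  obtain ⟨w, hw, hwt⟩ := V4_key hs heq hgen hind ha hK'
  obtain ⟨κ, hκ⟩ := unr_purely hm w hw hwt (hξ.map (algebraMap K K'))
  have h1 : KM.map m (algebraMap K K') (ξ - KM.map m (algebraMap k K) κ) = 0 := by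
    rw [map_sub, KM.map_map, ← IsScalarTower.algebraMap_eq, hκ, sub_self]
  have h2 := finrank_smul_eq_zero hm _ rfl h1
  have hpos : 0 < Module.finrank K K' := Module.finrank_pos
  obtain ⟨c, hc⟩ := Nat.dvd_factorial hpos hdeg
  refine ⟨(p ^ s).factorial • κ, ?_⟩
  rw [map_nsmul, eq_comm, ← sub_eq_zero, ← smul_sub, hc, mul_comm, mul_smul, h2, smul_zero]

end UnrG
end

section

/-!
# Unramified classes of the subfields generated by `x_0`, `x_1`, `y_0 + c y_1`
-/

namespace UnrG

universe u v w

open Polynomial Finset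
open scoped Classical

variable {m : ℕ} {F M : Type u} [Field F] [Field M] [Algebra F M] {p s : ℕ}
  {k : IntermediateField F M} {x y : Fin 2 → M}

/-- `T'` as an algebra over `k` -/
@[reducible] private def V5_alg {T' : IntermediateField F M} (hle : k ≤ T') : Algebra k T' :=
  (IntermediateField.inclusion hle).toRingHom.toAlgebra

private lemma V5_gen {T' : IntermediateField F M} (hle : k ≤ T') (S : Set T')
    (hT' : T' = IntermediateField.adjoin F ((k : Set M) ∪ Subtype.val '' S)) :
    letI := V5_alg hle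
    IntermediateField.adjoin k S = ⊤ := by
  let _ := V5_alg hle
  change IntermediateField.adjoin k S = ⊤
  rw [eq_top_iff]
  rintro z -
  have h1 : T'.toSubfield ≤ (IntermediateField.adjoin k S).toSubfield.map (algebraMap T' M) := by
    have h2 : T'.toSubfield =
        Subfield.closure (Set.range (algebraMap F M) ∪ ((k : Set M) ∪ Subtype.val '' S)) := by
      rw [← IntermediateField.adjoin_toSubfield, ← hT']
    rw [h2, Subfield.closure_le]
    rintro w (⟨a, rfl⟩ | (hw | ⟨w', hw', rfl⟩))
    · exact ⟨algebraMap k T' (algebraMap F k a),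
        (IntermediateField.adjoin k S).algebraMap_mem _, rfl⟩
    · exact ⟨algebraMap k T' ⟨w, hw⟩, (IntermediateField.adjoin k S).algebraMap_mem _, rfl⟩
    · exact ⟨w', IntermediateField.subset_adjoin _ _ hw', rfl⟩
  obtain ⟨w, hw, hwz⟩ := h1 z.2
  have h3 : w = z := Subtype.ext hwz
  rw [← h3]
  exact hw

private lemma V5_ind {Q : ℕ} (h : Herm2 Q k x y) {T' : IntermediateField F M} (hle : k ≤ T')
    (hx : ∀ i, x i ∈ T') :
    letI := V5_alg hle
    AlgebraicIndependent k (fun i => (⟨x i, hx i⟩ : T')) := by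
  let _ := V5_alg hle
  change AlgebraicIndependent k (fun i => (⟨x i, hx i⟩ : T'))
  have h1 : AlgebraicIndependent k x := h.ind
  exact AlgebraicIndependent.of_comp
    ({ (algebraMap T' M) with commutes' := fun _ => rfl } : T' →ₐ[k] M) h1

/-- TASK V5, part 1. Proof: `T'` is purely transcendental over `k` with coordinates `x_0`, `x_1` (as a `k`-algebra
by `IntermediateField.inclusion`): `unr_purely` with ground field `k`. Independence:
`AlgebraicIndependent.of_comp` for the inclusion of `T'` in `M`. -/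
theorem Herm2.descent_x {Q : ℕ} (h : Herm2 Q k x y) (hm : Any m) {T' : IntermediateField F M}
    (hT' : T' = IntermediateField.adjoin F ((k : Set M) ∪ {x 0, x 1})) (η : KM m T')
    (hη : Unr η) :
    ∃ κ : KM m k, KM.map m (algebraMap k M) κ = KM.map m (algebraMap T' M) η := by
  have hle : k ≤ T' := by
    intro z hz
    rw [hT']
    exact IntermediateField.subset_adjoin _ _ (Or.inl hz)
  have hx : ∀ i, x i ∈ T' := by
    intro i
    rw [hT']
    refine IntermediateField.subset_adjoin _ _ (Or.inr ?_)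
    fin_cases i
    · exact Or.inl rfl
    · exact Or.inr rfl
  let _ := V5_alg hle
  have hgen := V5_gen hle (Set.range fun i => (⟨x i, hx i⟩ : T')) (by
    rw [← Set.range_comp]
    have h1 : Set.range (Subtype.val ∘ fun i => (⟨x i, hx i⟩ : T')) = {x 0, x 1} := by
      ext z
      constructor
      · rintro ⟨i, rfl⟩
        fin_cases i
        · exact Or.inl rfl
        · exact Or.inr rfl
      · rintro (rfl | rfl)
        · exact ⟨0, rfl⟩
        · exact ⟨1, rfl⟩
    rw [h1]
    exact hT')
  obtain ⟨κ, hκ⟩ := unr_purely hm (F := k) (T := T') (fun i => (⟨x i, hx i⟩ : T'))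
    (V5_ind h hle hx) hgen hη
  refine ⟨κ, ?_⟩
  rw [← hκ, KM.map_map]
  rfl

private lemma V5_eq {M : Type u} [Field M] {p s : ℕ} [Fact p.Prime] [CharP M p]
    {x₀ x₁ y₀ y₁ α b c : M} (h0 : y₀ ^ p ^ s + y₀ = x₀ ^ (p ^ s + 1))
    (h1 : y₁ ^ p ^ s + y₁ = x₁ ^ (p ^ s + 1)) (hc : c ^ p ^ s = c) (hα : α ^ (p ^ s + 1) = -c)
    (hb : b ^ p ^ s + b = 1) :
    (y₀ + c * y₁) ^ p ^ s + (y₀ + c * y₁) =
      (x₀ - α * x₁) ^ p ^ s * (α * x₁ + b * (x₀ - α * x₁)) +
        (x₀ - α * x₁) * (α * x₁ + b * (x₀ - α * x₁)) ^ p ^ s := by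
  obtain ⟨u, hu⟩ : ∃ u, u = x₀ - α * x₁ := ⟨_, rfl⟩
  obtain ⟨A, hA⟩ : ∃ A, A = α * x₁ := ⟨_, rfl⟩
  have hx0 : x₀ = u + A := by
    rw [hu, hA]
    ring
  have hA1 : A ^ p ^ s * A = -(c * x₁ ^ (p ^ s + 1)) := by
    rw [hA, ← pow_succ, mul_pow, hα]
    ring
  rw [← hu, ← hA, add_pow_char_pow, mul_pow, hc, add_pow_char_pow A (b * u), mul_pow]
  have h2 : y₀ ^ p ^ s + c * y₁ ^ p ^ s + (y₀ + c * y₁) =
      (y₀ ^ p ^ s + y₀) + c * (y₁ ^ p ^ s + y₁) := by ring
  rw [h2, h0, h1, hx0, pow_succ (u + A), add_pow_char_pow]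
  have h3 : c * x₁ ^ (p ^ s + 1) = -(A ^ p ^ s * A) := by
    rw [hA1, neg_neg]
  rw [h3]
  have h4 : b ^ p ^ s = 1 - b := by
    rw [← hb]
    ring
  rw [h4]
  ring

/-- TASK V5, part 2. Proof: choose `α, b ∈ F` with `α ^ (Q + 1) = -c` (`FixSp.exists_norm`) and
`b ^ Q + b = 1` (`FixSp.exists_trace`), `Q = p ^ s`. Then `α ≠ 0`. Let `u = x_0 - α x_1`,
`v = α x_1 + b u`, `Y = y_0 + c y_1`. As `c ^ Q = c`, `Y ^ Q + Y = x_0 ^ (Q + 1) + c x_1 ^ (Q + 1)
= x_0 ^ (Q + 1) - (α x_1) ^ (Q + 1) = u ^ Q v + u v ^ Q` (write `x_0 = u + α x_1`, `α x_1 = v - b u`). The field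
`T'` is generated over `k` by `u`, `v`, `Y`, since `x_1 = (v - b u) / α`, `x_0 = u + α x_1`. It contains the
independent pair `x` (`AlgebraicIndependent.of_comp`). Now `unr_herm_line` with ground field `k`, `K = T'`
(as a `k`-algebra by `IntermediateField.inclusion`). -/
theorem Herm2.descent_line [hFS : FixSp F p (2 * s)] [Fact p.Prime] [CharP F p] (hs : 0 < s)
    (h : Herm2 (p ^ s) k x y) (hm : Any m) {c : F} (hc : c ^ p ^ s = c) (hc0 : c ≠ 0)
    {T' : IntermediateField F M}
    (hT' : T' = IntermediateField.adjoin F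
      ((k : Set M) ∪ {x 0, x 1, y 0 + algebraMap F M c * y 1})) (η : KM m T') (hη : Unr η) :
    ∃ κ : KM m k, KM.map m (algebraMap k M) κ =
      (p ^ s).factorial • KM.map m (algebraMap T' M) η := by
  have hp : p.Prime := Fact.out
  have hQ : 1 < p ^ s := Nat.one_lt_pow hs.ne' hp.one_lt
  obtain ⟨α, hα⟩ := hFS.exists_norm hp hs (c := -c) (by
    have h1 := sub_pow_char_pow (p := p) (n := s) (0 : F) c
    rw [zero_pow (by omega), zero_sub, zero_sub, hc] at h1
    exact h1) (neg_ne_zero.2 hc0)
  obtain ⟨b, hb⟩ := hFS.exists_trace hp hs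
  have hα0 : α ≠ 0 := by
    rintro rfl
    rw [zero_pow (Nat.succ_ne_zero _)] at hα
    apply hc0
    linear_combination hα
  have hle : k ≤ T' := by
    intro z hz
    rw [hT']
    exact IntermediateField.subset_adjoin _ _ (Or.inl hz)
  have hx : ∀ i, x i ∈ T' := by
    intro i
    rw [hT']
    refine IntermediateField.subset_adjoin _ _ (Or.inr ?_)
    fin_cases i
    · exact Or.inl rfl
    · exact Or.inr (Or.inl rfl)
  have hY : y 0 + algebraMap F M c * y 1 ∈ T' := by
    rw [hT']
    exact IntermediateField.subset_adjoin _ _ (Or.inr (Or.inr (Or.inr rfl)))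
  have hu : x 0 - algebraMap F M α * x 1 ∈ T' :=
    sub_mem (hx 0) (mul_mem (T'.algebraMap_mem α) (hx 1))
  have hv : algebraMap F M α * x 1 + algebraMap F M b * (x 0 - algebraMap F M α * x 1) ∈ T' :=
    add_mem (mul_mem (T'.algebraMap_mem α) (hx 1)) (mul_mem (T'.algebraMap_mem b) hu)
  have : CharP M p := charP_of_injective_algebraMap (algebraMap F M).injective p
  have : CharP k p := charP_of_injective_algebraMap (algebraMap F k).injective p
  let _ := V5_alg hle
  obtain ⟨uT, huT⟩ : ∃ w : T', (w : M) = x 0 - algebraMap F M α * x 1 := ⟨⟨_, hu⟩, rfl⟩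
  obtain ⟨vT, hvT⟩ : ∃ w : T', (w : M) =
    algebraMap F M α * x 1 + algebraMap F M b * (x 0 - algebraMap F M α * x 1) := ⟨⟨_, hv⟩, rfl⟩
  obtain ⟨YT, hYT⟩ : ∃ w : T', (w : M) = y 0 + algebraMap F M c * y 1 := ⟨⟨_, hY⟩, rfl⟩
  have heq : YT ^ p ^ s + YT = uT ^ p ^ s * vT + uT * vT ^ p ^ s := by
    apply Subtype.ext
    push_cast
    rw [huT, hvT, hYT]
    exact V5_eq (p := p) (s := s) (α := algebraMap F M α) (b := algebraMap F M b)
      (c := algebraMap F M c) (h.eq 0) (h.eq 1) (by rw [← map_pow, hc])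
      (by rw [← map_pow, hα, map_neg]) (by rw [← map_pow, ← map_add, hb, map_one])
  have hα' : algebraMap F M α ≠ 0 := by
    rw [Ne, map_eq_zero]
    exact hα0
  have hgen := V5_gen hle ({uT, vT, YT} : Set T') (by
    rw [Set.image_insert_eq, Set.image_insert_eq, Set.image_singleton, huT, hvT, hYT]
    apply le_antisymm
    · have hmu := IntermediateField.subset_adjoin F ((k : Set M) ∪
        {x 0 - algebraMap F M α * x 1,
          algebraMap F M α * x 1 + algebraMap F M b * (x 0 - algebraMap F M α * x 1),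
          y 0 + algebraMap F M c * y 1}) (Or.inr (Or.inl rfl))
      have hmv := IntermediateField.subset_adjoin F ((k : Set M) ∪
        {x 0 - algebraMap F M α * x 1,
          algebraMap F M α * x 1 + algebraMap F M b * (x 0 - algebraMap F M α * x 1),
          y 0 + algebraMap F M c * y 1}) (Or.inr (Or.inr (Or.inl rfl)))
      have hmY := IntermediateField.subset_adjoin F ((k : Set M) ∪
        {x 0 - algebraMap F M α * x 1,
          algebraMap F M α * x 1 + algebraMap F M b * (x 0 - algebraMap F M α * x 1),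
          y 0 + algebraMap F M c * y 1}) (Or.inr (Or.inr (Or.inr rfl)))
      have h2 := sub_mem hmv (mul_mem (IntermediateField.algebraMap_mem _ b) hmu)
      rw [add_sub_cancel_right] at h2
      have h3 := mul_mem (inv_mem (IntermediateField.algebraMap_mem _ α)) h2
      rw [← mul_assoc, inv_mul_cancel₀ hα', one_mul] at h3
      have h4 := add_mem hmu h2
      rw [sub_add_cancel] at h4
      rw [hT', IntermediateField.adjoin_le_iff]
      rintro z (hz | rfl | rfl | rfl)
      · exact IntermediateField.subset_adjoin _ _ (Or.inl hz)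
      · exact h4
      · exact h3
      · exact hmY
    · rw [IntermediateField.adjoin_le_iff]
      rintro z (hz | rfl | rfl | rfl)
      · exact hle hz
      · exact hu
      · exact hv
      · exact hY)
  obtain ⟨κ, hκ⟩ := unr_herm_line hm (k := k) (K := T') hs heq hgen ⟨_, V5_ind h hle hx⟩ hη
  refine ⟨κ, ?_⟩
  have h5 := congrArg (KM.map m (algebraMap T' M)) hκ
  rw [KM.map_map, map_nsmul] at h5
  rw [← h5]
  rfl

end UnrG
end

section

/-!
# The extension generated by the roots of the coordinates of two curves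
-/

namespace UnrG

universe u v w

open Polynomial Finset
open scoped Classical

variable {F E : Type u} [Field F] [Field E] [Algebra F E]

/-- TASK V8, part 1. Hint: in `AlgebraicClosure E` choose roots `U_j`, `V_j` (`IsAlgClosed.exists_pow_nat_eq`) and
take `M = IntermediateField.adjoin E {U 0, U 1, V 0, V 1}` with the `F`-algebra structure
`(algebraMap E M).comp (algebraMap F E)` (as in `exists_root_ext`, PP/G6). The degree is at most `n ^ 4`:
`IntermediateField.adjoin` of a union is the supremum, `IntermediateField.finrank_sup_le`, each root has degree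
at most `n` (as in `as_galois`, PF/G3b); or adjoin the four roots one after the other with the
existence statement for one root. -/
theorem exists_four_roots {n : ℕ} (hn : 0 < n) (a b : Fin 2 → E) :
    ∃ (M : Type u) (_ : Field M) (_ : Algebra F M) (_ : Algebra E M) (_ : IsScalarTower F E M)
      (U V : Fin 2 → M), FiniteDimensional E M ∧ Module.finrank E M ≤ n ^ 4 ∧
      (∀ j, U j ^ n = algebraMap E M (a j)) ∧ (∀ j, V j ^ n = algebraMap E M (b j)) ∧
      IntermediateField.adjoin E (Set.range U ∪ Set.range V) = ⊤ := by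
  choose u hu using fun j => IsAlgClosed.exists_pow_nat_eq
    (algebraMap E (AlgebraicClosure E) (a j)) hn
  choose v hv using fun j => IsAlgClosed.exists_pow_nat_eq
    (algebraMap E (AlgebraicClosure E) (b j)) hn
  have hdeg : ∀ (z : AlgebraicClosure E) (c : E), z ^ n = algebraMap E (AlgebraicClosure E) c →
      Module.finrank E (IntermediateField.adjoin E {z}) ≤ n := by
    intro z c hz
    have hroot : aeval z (X ^ n - C c : E[X]) = 0 := by
      rw [map_sub, map_pow, aeval_X, aeval_C, hz, sub_self]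
    have hmon : (X ^ n - C c : E[X]).Monic := monic_X_pow_sub_C _ hn.ne'
    have hint : IsIntegral E z := ⟨_, hmon, by rw [← aeval_def]; exact hroot⟩
    rw [IntermediateField.adjoin.finrank hint]
    have h1 := natDegree_le_of_dvd (minpoly.dvd E z hroot) hmon.ne_zero
    rwa [natDegree_X_pow_sub_C] at h1
  let S : Set (AlgebraicClosure E) := Set.range u ∪ Set.range v
  have hfin : Finite S := ((Set.finite_range u).union (Set.finite_range v)).to_subtype
  have hfd : FiniteDimensional E (IntermediateField.adjoin E S) :=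
    IntermediateField.finiteDimensional_adjoin fun x _ =>
      (Algebra.IsAlgebraic.isAlgebraic (R := E) x).isIntegral
  have hle : Module.finrank E (IntermediateField.adjoin E S) ≤ n ^ 4 := by
    have h1 : S = ({u 0} ∪ {u 1}) ∪ ({v 0} ∪ {v 1}) := by
      ext z
      simp only [S, Set.mem_union, Set.mem_range, Set.mem_singleton_iff, Fin.exists_fin_two,
        eq_comm]
    rw [h1, IntermediateField.adjoin_union, IntermediateField.adjoin_union,
      IntermediateField.adjoin_union]
    refine (IntermediateField.finrank_sup_le _ _).trans ?_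
    have h2 := (IntermediateField.finrank_sup_le (IntermediateField.adjoin E {u 0})
      (IntermediateField.adjoin E {u 1})).trans (Nat.mul_le_mul (hdeg _ _ (hu 0)) (hdeg _ _ (hu 1)))
    have h3 := (IntermediateField.finrank_sup_le (IntermediateField.adjoin E {v 0})
      (IntermediateField.adjoin E {v 1})).trans (Nat.mul_le_mul (hdeg _ _ (hv 0)) (hdeg _ _ (hv 1)))
    calc _ ≤ (n * n) * (n * n) := Nat.mul_le_mul h2 h3
      _ = n ^ 4 := by ring
  let alg : Algebra F (IntermediateField.adjoin E S) :=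
    ((algebraMap E (IntermediateField.adjoin E S)).comp (algebraMap F E)).toAlgebra
  have htow : @IsScalarTower F E (IntermediateField.adjoin E S) _ _ alg.toSMul :=
    @IsScalarTower.of_algebraMap_eq F E (IntermediateField.adjoin E S) _ _ _ _ _ alg (fun _ => rfl)
  refine ⟨IntermediateField.adjoin E S, inferInstance, alg, inferInstance, htow,
    fun j => ⟨u j, IntermediateField.subset_adjoin E S (Or.inl ⟨j, rfl⟩)⟩,
    fun j => ⟨v j, IntermediateField.subset_adjoin E S (Or.inr ⟨j, rfl⟩)⟩, hfd, hle,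
    fun j => ?_, fun j => ?_, ?_⟩
  · apply (algebraMap (IntermediateField.adjoin E S) (AlgebraicClosure E)).injective
    rw [map_pow]
    exact hu j
  · apply (algebraMap (IntermediateField.adjoin E S) (AlgebraicClosure E)).injective
    rw [map_pow]
    exact hv j
  · apply IntermediateField.lift_injective (IntermediateField.adjoin E S)
    rw [IntermediateField.lift_adjoin, IntermediateField.lift_top, Set.image_union,
      ← Set.range_comp, ← Set.range_comp]
    rfl

open scoped IntermediateField.algebraAdjoinAdjoin in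
private theorem V8_indep {M : Type u} [Field M] [Algebra F M] {κ : Type} {t : κ → M}
    {U : Fin 2 → M} (h : AlgebraicIndependent F (Sum.elim U t)) (k : IntermediateField F M)
    (hk : ∀ z ∈ k, IsAlgebraic (IntermediateField.adjoin F (Set.range t)) z) :
    AlgebraicIndependent k U := by
  have h1 : AlgebraicIndependent (Algebra.adjoin F (Set.range t)) U :=
    (AlgebraicIndependent.sumElim_iff.1 h).2
  have h2 : Algebra.IsAlgebraic (Algebra.adjoin F (Set.range t))
      (IntermediateField.adjoin F (Set.range t)) :=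
    (IsFractionRing.comap_isAlgebraic_iff (K := IntermediateField.adjoin F (Set.range t))).2
      inferInstance
  have h3 : AlgebraicIndependent (IntermediateField.adjoin F (Set.range t)) U :=
    h1.extendScalars _
  have h4 := h3.algebraicClosure
  have hle : ∀ z ∈ k, z ∈ algebraicClosure (IntermediateField.adjoin F (Set.range t)) M :=
    fun z hz => mem_algebraicClosure_iff.2 (hk z hz)
  let φ : k →+* algebraicClosure (IntermediateField.adjoin F (Set.range t)) M :=
    { toFun := fun z => ⟨z.1, hle z.1 z.2⟩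
      map_one' := rfl
      map_mul' := fun _ _ => rfl
      map_zero' := rfl
      map_add' := fun _ _ => rfl }
  let _ : Algebra k (algebraicClosure (IntermediateField.adjoin F (Set.range t)) M) := φ.toAlgebra
  have : IsScalarTower k (algebraicClosure (IntermediateField.adjoin F (Set.range t)) M) M :=
    IsScalarTower.of_algebraMap_eq fun _ => rfl
  exact h4.restrictScalars φ.injective

variable {r n : ℕ} {t : Fin r → E} {X : Fin (n + 2) → E} {D W : E}

/-- TASK V8, part 2. Proof: take `M` from part 1 with `Q + 1` in place of `n`, `a = ![X 0, X 1]`,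
`b = ![1 - X 0, 1 - X 1]`. Let `P = ∏ j : Fin 2, (U j ^ (N' * (B j).val) * V j ^ (N' * (A j).val))`, where `B j`
is `B (Fin.castAdd n j)`-like (`![B 0, B 1]`), `β = W / P` (`P ≠ 0` as `X 0`, `X 1`, `1 - X 0`, `1 - X 1` are not zero,
`CycProdD.X_ne`), and `k = IntermediateField.adjoin F (t, X_j (j ≥ 2), β)` (images in `M`). Then
`P ^ N = ∏_{j < 2} X_j ^ (B j).val (1 - X_j) ^ (A j).val`, so
`β ^ N = D * ∏_{j ≥ 2} (...)` lies in `F(t, X_j (j ≥ 2))` (`Fin.prod_univ_succ` twice). Generation: `M` is
generated over `F` by `E`, `U`, `V`, and `E` by `t`, `X`, `W` (`h.gen`; the image of `⊤ = adjoin F S` under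
`algebraMap E M` is `adjoin F` of the image of `S`: `IntermediateField.adjoin_map` for
`IsScalarTower.toAlgHom F E M`), where `X_0 = U_0 ^ (Q + 1)`, `X_1 = U_1 ^ (Q + 1)`,
`W = β P`. Independence of `U_0`, `U_1` over `k`: the family `Sum.elim t' U` (`t' = (t, X_j (j ≥ 2))`) is independent over
`F`: `indep_of_trdeg` (PF/G1b) with `f` = the images of `Sum.elim t X` suitably indexed
(`h.ind.map'`), because `M` is algebraic over `F(t', U)` (it is generated by `t'`, `U`, `V`, `β`, where
`V_j ^ (Q + 1) = 1 - U_j ^ (Q + 1)` and `β ^ N ∈ F(t')`); then `U` is independent over `F(t')`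
(`AlgebraicIndependent.sumElim_iff` or `AlgebraicIndependent.sumElim`-type lemmas, file
Mathlib/RingTheory/AlgebraicIndependent/Transcendental.lean) and over the algebraic extension
`k = F(t')(β)` (`AlgebraicIndependent.extendScalars`); alternatively `indep_of_trdeg` is not needed: prove that
`U 0` is transcendental over `k` and `U 1` transcendental over `k(U 0)`. -/
theorem CycProdD.exists_ferm2 {N N' Q : ℕ} [NeZero N] {B A : Fin (n + 2) → ZMod N}
    (h : CycProdD N (F := F) t X D W B A) (hQ : Q + 1 = N' * N) :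
    ∃ (M : Type u) (_ : Field M) (_ : Algebra F M) (_ : Algebra E M) (_ : IsScalarTower F E M)
      (k : IntermediateField F M) (U V : Fin 2 → M), FiniteDimensional E M ∧
      Module.finrank E M ≤ (Q + 1) ^ 4 ∧ Ferm2 (Q + 1) k U V ∧
      U 0 ^ (Q + 1) = algebraMap E M (X 0) ∧ U 1 ^ (Q + 1) = algebraMap E M (X 1) ∧
      (∀ i, algebraMap E M (t i) ∈ k) ∧ (∀ j : Fin n, algebraMap E M (X j.succ.succ) ∈ k) ∧
      ∃ β ∈ k, algebraMap E M W = β * (U 0 ^ (N' * (B 0).val) * V 0 ^ (N' * (A 0).val)) *
        (U 1 ^ (N' * (B 1).val) * V 1 ^ (N' * (A 1).val)) := by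
  obtain ⟨M, iM, iF, iE, iT, U, V, hfd, hdeg, hU, hV, hgen⟩ :=
    exists_four_roots (F := F) (Nat.succ_pos Q) ![X 0, X 1] ![1 - X 0, 1 - X 1]
  have hinj : Function.Injective (algebraMap E M) := (algebraMap E M).injective
  have hU0 : ∀ j, U j ≠ 0 := by
    intro j hj
    have h1 := hU j
    rw [hj, zero_pow (Nat.succ_ne_zero Q)] at h1
    have h2 := (map_eq_zero (algebraMap E M)).1 h1.symm
    fin_cases j
    · exact (h.X_ne 0).1 h2
    · exact (h.X_ne 1).1 h2
  have hV0 : ∀ j, V j ≠ 0 := by
    intro j hj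
    have h1 := hV j
    rw [hj, zero_pow (Nat.succ_ne_zero Q)] at h1
    have h2 := (map_eq_zero (algebraMap E M)).1 h1.symm
    fin_cases j
    · exact (h.X_ne 0).2 h2
    · exact (h.X_ne 1).2 h2
  have hUX0 : U 0 ^ (Q + 1) = algebraMap E M (X 0) := hU 0
  have hUX1 : U 1 ^ (Q + 1) = algebraMap E M (X 1) := hU 1
  have hVX0 : V 0 ^ (Q + 1) = algebraMap E M (1 - X 0) := hV 0
  have hVX1 : V 1 ^ (Q + 1) = algebraMap E M (1 - X 1) := hV 1
  let P : M := (U 0 ^ (N' * (B 0).val) * V 0 ^ (N' * (A 0).val)) *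
        (U 1 ^ (N' * (B 1).val) * V 1 ^ (N' * (A 1).val))
  have hP0 : P ≠ 0 := mul_ne_zero (mul_ne_zero (pow_ne_zero _ (hU0 0)) (pow_ne_zero _ (hV0 0)))
    (mul_ne_zero (pow_ne_zero _ (hU0 1)) (pow_ne_zero _ (hV0 1)))
  have hpw : ∀ (z : M) (b : ℕ), (z ^ (N' * b)) ^ N = (z ^ (Q + 1)) ^ b := by
    intro z b
    rw [← pow_mul, ← pow_mul, hQ]
    congr 1
    ring
  have hPN : P ^ N = algebraMap E M ((X 0 ^ (B 0).val * (1 - X 0) ^ (A 0).val) *
      (X 1 ^ (B 1).val * (1 - X 1) ^ (A 1).val)) := by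
    simp only [P, mul_pow, hpw, map_mul, map_pow, hUX0, hUX1, hVX0, hVX1]
  let β : M := algebraMap E M W / P
  let t' : Fin r ⊕ Fin n → M := Sum.elim (fun i => algebraMap E M (t i))
    (fun j => algebraMap E M (X j.succ.succ))
  let T : IntermediateField F M := IntermediateField.adjoin F (Set.range t')
  let k : IntermediateField F M := IntermediateField.adjoin F (Set.range t' ∪ {β})
  have htT : ∀ i, algebraMap E M (t i) ∈ T := fun i =>
    IntermediateField.subset_adjoin F _ ⟨Sum.inl i, rfl⟩
  have hXT : ∀ j : Fin n, algebraMap E M (X j.succ.succ) ∈ T := fun j =>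
    IntermediateField.subset_adjoin F _ ⟨Sum.inr j, rfl⟩
  have hTk : T ≤ k := IntermediateField.adjoin.mono F _ _ Set.subset_union_left
  have hβk : β ∈ k := IntermediateField.subset_adjoin F _ (Or.inr rfl)
  have hDT : algebraMap E M D ∈ T := by
    have h1 : IntermediateField.adjoin F (Set.range t) ≤ T.comap (IsScalarTower.toAlgHom F E M) := by
      rw [IntermediateField.adjoin_le_iff]
      rintro z ⟨i, rfl⟩
      exact htT i
    exact h1 h.D_mem
  have hβN : β ^ N ∈ T := by
    have h1 : β ^ N = algebraMap E M D * ∏ j : Fin n, ((algebraMap E M (X j.succ.succ)) ^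
        (B j.succ.succ).val * (1 - algebraMap E M (X j.succ.succ)) ^ (A j.succ.succ).val) := by
      have h2 : (P ^ N) ≠ 0 := pow_ne_zero _ hP0
      rw [div_pow, div_eq_iff h2, ← map_pow, h.eq, Fin.prod_univ_succ, Fin.prod_univ_succ, hPN]
      simp only [map_mul, map_prod, map_pow, map_sub, map_one, Fin.succ_zero_eq_one]
      ring
    rw [h1]
    refine mul_mem hDT (prod_mem fun j _ => mul_mem (pow_mem (hXT j) _)
      (pow_mem (sub_mem (one_mem _) (hXT j)) _))
  have hWβ : algebraMap E M W = β * P := (div_mul_cancel₀ _ hP0).symm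
  have hind : AlgebraicIndependent F (Sum.elim U t') := by
    have h1 : AlgebraicIndependent F (algebraMap E M ∘ Sum.elim t X) :=
      h.ind.map' (f := IsScalarTower.toAlgHom F E M) hinj
    let e : Fin 2 ⊕ (Fin r ⊕ Fin n) → Fin r ⊕ Fin (n + 2) :=
      Sum.elim (fun j => Sum.inr (![0, 1] j)) (Sum.elim Sum.inl fun j => Sum.inr j.succ.succ)
    have he : Function.Injective e := by
      have h01 : (![0, 1] : Fin 2 → Fin (n + 2)) 0 ≠ (![0, 1] : Fin 2 → Fin (n + 2)) 1 := by
        simp
      have hs : ∀ (i : Fin 2) (j : Fin n), (![0, 1] : Fin 2 → Fin (n + 2)) i ≠ j.succ.succ := by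
        intro i j hij
        have h2 := congrArg Fin.val hij
        fin_cases i <;> simp at h2
      rintro (i | i | i) (j | j | j) hij
      · have h2 : (![0, 1] : Fin 2 → Fin (n + 2)) i = (![0, 1] : Fin 2 → Fin (n + 2)) j :=
          Sum.inr_injective hij
        congr 1
        fin_cases i <;> fin_cases j
        · rfl
        · exact absurd h2 h01
        · exact absurd h2.symm h01
        · rfl
      · exact absurd hij (by simp [e])
      · exact absurd (Sum.inr_injective hij) (hs _ _)
      · exact absurd hij (by simp [e])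
      · have h2 : i = j := Sum.inl_injective hij
        rw [h2]
      · exact absurd hij (by simp [e])
      · exact absurd (Sum.inr_injective hij).symm (hs _ _)
      · exact absurd hij (by simp [e])
      · have h2 : i.succ.succ = j.succ.succ := Sum.inr_injective hij
        rw [Fin.succ_injective _ (Fin.succ_injective _ h2)]
    refine indep_of_pow (h1.comp e he) (Sum.elim (fun _ => Q + 1) fun _ => 1) ?_
    rintro (j | i | j)
    · fin_cases j
      · exact hUX0
      · exact hUX1
    · exact pow_one _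
    · exact pow_one _
  have hkalg : ∀ z ∈ k, IsAlgebraic T z := by
    have h1 : k ≤ (algebraicClosure T M).restrictScalars F := by
      rw [IntermediateField.adjoin_le_iff]
      rintro z (hz | hz)
      · have hz' : z ∈ T := IntermediateField.subset_adjoin F _ hz
        exact mem_algebraicClosure_iff.2 (isAlgebraic_algebraMap (⟨z, hz'⟩ : T))
      · rw [Set.mem_singleton_iff] at hz
        rw [hz]
        refine mem_algebraicClosure_iff.2 (IsAlgebraic.of_pow (Nat.pos_of_ne_zero (NeZero.ne N)) ?_)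
        exact isAlgebraic_algebraMap (⟨β ^ N, hβN⟩ : T)
    intro z hz
    exact mem_algebraicClosure_iff.1 (h1 hz)
  refine ⟨M, iM, iF, iE, iT, k, U, V, hfd, hdeg, ⟨?_, V8_indep hind k hkalg, ?_⟩, hUX0, hUX1,
    fun i => hTk (htT i), fun j => hTk (hXT j), β, hβk, ?_⟩
  · intro j
    fin_cases j
    · change U 0 ^ (Q + 1) + V 0 ^ (Q + 1) = 1
      rw [hUX0, hVX0, ← map_add, add_sub_cancel, map_one]
    · change U 1 ^ (Q + 1) + V 1 ^ (Q + 1) = 1
      rw [hUX1, hVX1, ← map_add, add_sub_cancel, map_one]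
  · set K₁ : IntermediateField F M :=
      IntermediateField.adjoin F ((k : Set M) ∪ Set.range U ∪ Set.range V) with hK₁
    have hkK : k ≤ K₁ := fun z hz => IntermediateField.subset_adjoin F _ (Or.inl (Or.inl hz))
    have hUK : ∀ j, U j ∈ K₁ := fun j => IntermediateField.subset_adjoin F _ (Or.inl (Or.inr ⟨j, rfl⟩))
    have hVK : ∀ j, V j ∈ K₁ := fun j => IntermediateField.subset_adjoin F _ (Or.inr ⟨j, rfl⟩)
    have hE : ∀ z : E, algebraMap E M z ∈ K₁ := by
      have h1 : IntermediateField.adjoin F (Set.range t ∪ Set.range X ∪ {W}) ≤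
          K₁.comap (IsScalarTower.toAlgHom F E M) := by
        rw [IntermediateField.adjoin_le_iff]
        rintro z ((⟨i, rfl⟩ | ⟨j, rfl⟩) | hz)
        · exact hkK (hTk (htT i))
        · change algebraMap E M (X j) ∈ K₁
          refine Fin.cases ?_ (fun j' => ?_) j
          · rw [← hUX0]
            exact pow_mem (hUK 0) _
          · refine Fin.cases ?_ (fun j'' => ?_) j'
            · rw [Fin.succ_zero_eq_one, ← hUX1]
              exact pow_mem (hUK 1) _
            · exact hkK (hTk (hXT j''))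
        · rw [Set.mem_singleton_iff] at hz
          rw [hz]
          change algebraMap E M W ∈ K₁
          rw [hWβ]
          exact mul_mem (hkK hβk) (mul_mem (mul_mem (pow_mem (hUK 0) _) (pow_mem (hVK 0) _))
            (mul_mem (pow_mem (hUK 1) _) (pow_mem (hVK 1) _)))
      intro z
      have h2 : z ∈ IntermediateField.adjoin F (Set.range t ∪ Set.range X ∪ {W}) := by
        rw [h.gen]
        exact IntermediateField.mem_top
      exact h1 h2
    let K₂ : IntermediateField E M := K₁.toSubfield.toIntermediateField hE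
    have h3 : (⊤ : IntermediateField E M) ≤ K₂ := by
      rw [← hgen, IntermediateField.adjoin_le_iff]
      rintro z (⟨j, rfl⟩ | ⟨j, rfl⟩)
      · exact hUK j
      · exact hVK j
    rw [eq_top_iff]
    intro z _
    exact h3 (IntermediateField.mem_top (x := z))
  · rw [hWβ, mul_assoc]

end UnrG
end

section

/-!
# Hermitian lines
-/

namespace UnrA.Fer

open UnrG

universe u v w z

open Polynomial Finset
open scoped Classical

variable {m : UFun.{u, z}}

/-- `K = k(u, v, y)` with `y` integral over `k(u, v)` is algebraic over `k(u, v)`. -/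
private theorem V4_alg {k K : Type u} [Field k] [Field K] [Algebra k K] {Q : ℕ} (hQ : 2 ≤ Q) {u v y : K}
    (heq : y ^ Q + y = u ^ Q * v + u * v ^ Q)
    (hgen : IntermediateField.adjoin k {u, v, y} = ⊤) (z : K) :
    IsAlgebraic (IntermediateField.adjoin k (Set.range ![u, v])) z := by
  obtain ⟨B, hB⟩ : ∃ B : IntermediateField k K, B = IntermediateField.adjoin k (Set.range ![u, v]) :=
    ⟨_, rfl⟩
  rw [← hB]
  have hu : u ∈ B := by
    rw [hB]; exact IntermediateField.subset_adjoin _ _ ⟨0, rfl⟩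
  have hv : v ∈ B := by
    rw [hB]; exact IntermediateField.subset_adjoin _ _ ⟨1, rfl⟩
  let A := (algebraicClosure B K).restrictScalars k
  have hA : ∀ z, z ∈ A ↔ IsAlgebraic B z := fun z => by
    change z ∈ algebraicClosure B K ↔ _
    rw [mem_algebraicClosure_iff]
  have h1 : IntermediateField.adjoin k {u, v, y} ≤ A := by
    rw [IntermediateField.adjoin_le_iff]
    rintro z (rfl | rfl | rfl)
    · exact (hA _).2 (isAlgebraic_algebraMap (⟨_, hu⟩ : B))
    · exact (hA _).2 (isAlgebraic_algebraMap (⟨_, hv⟩ : B))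
    · refine (hA _).2 ?_
      let c : B := (⟨u, hu⟩ : B) ^ Q * ⟨v, hv⟩ + ⟨u, hu⟩ * (⟨v, hv⟩ : B) ^ Q
      have hc : algebraMap B K c = u ^ Q * v + u * v ^ Q := rfl
      have hmon : (X ^ Q + (X - C c) : B[X]).Monic := by
        apply monic_X_pow_add
        rw [degree_X_sub_C]
        exact_mod_cast (show 1 < Q by omega)
      refine ⟨X ^ Q + (X - C c), hmon.ne_zero, ?_⟩
      rw [map_add, map_pow, map_sub, aeval_X, aeval_C, hc, ← heq]
      ring
  rw [hgen] at h1
  exact (hA z).1 (h1 (IntermediateField.mem_top))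

private theorem V4_key {k K K' : Type u} [Field k] [Field K] [Field K'] [Algebra k K] [Algebra k K']
    [Algebra K K'] [IsScalarTower k K K'] {p : ℕ}
    [Fact p.Prime] [CharP k p] {s : ℕ} (hs : 0 < s) {u v y : K}
    (heq : y ^ p ^ s + y = u ^ p ^ s * v + u * v ^ p ^ s)
    (hgen : IntermediateField.adjoin k {u, v, y} = ⊤)
    (hind : ∃ f : Fin 2 → K, AlgebraicIndependent k f) {a : K'}
    (ha : a ^ p ^ s = algebraMap K K' u) (hK' : IntermediateField.adjoin K {a} = ⊤) :
    ∃ w : Fin 2 → K', AlgebraicIndependent k w ∧ IntermediateField.adjoin k (Set.range w) = ⊤ := by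
  have hp : p.Prime := Fact.out
  have : CharP K' p := charP_of_injective_algebraMap (algebraMap k K').injective p
  have : ExpChar K' p := ExpChar.prime hp
  have hQ : 2 ≤ p ^ s := by
    calc 2 ≤ p := hp.two_le
      _ = p ^ 1 := (pow_one p).symm
      _ ≤ p ^ s := Nat.pow_le_pow_right hp.pos hs
  obtain ⟨f, hf⟩ := hind
  -- `u` is transcendental
  have huv : AlgebraicIndependent k ![u, v] := indep_of_trdeg hf (V4_alg hQ heq hgen)
  have hutr : Transcendental k u := by
    have := huv.transcendental 0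
    simpa using this
  have hne : a - a ^ (p ^ s) ^ 2 ≠ 0 := by
    intro h0
    apply hutr
    have h1 : u = u ^ (p ^ s) ^ 2 := by
      apply (algebraMap K K').injective
      rw [map_pow, ← ha, ← pow_mul, mul_comm, pow_mul, ← sub_eq_zero.1 h0]
    have hQ2 : 1 < (p ^ s) ^ 2 := by
      apply Nat.one_lt_pow two_ne_zero (by omega)
    have hmon : (X ^ (p ^ s) ^ 2 + (-X) : k[X]).Monic := by
      apply monic_X_pow_add
      rw [degree_neg, degree_X]
      exact_mod_cast hQ2
    refine ⟨X ^ (p ^ s) ^ 2 + (-X), hmon.ne_zero, ?_⟩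
    rw [map_add, map_pow, map_neg, aeval_X, ← h1]
    ring
  obtain ⟨U, hU⟩ : ∃ U, U = algebraMap K K' u := ⟨_, rfl⟩
  obtain ⟨V, hV⟩ : ∃ V, V = algebraMap K K' v := ⟨_, rfl⟩
  obtain ⟨Y, hY⟩ : ∃ Y, Y = algebraMap K K' y := ⟨_, rfl⟩
  have hEq : Y ^ p ^ s + Y = U ^ p ^ s * V + U * V ^ p ^ s := by
    rw [hU, hV, hY]
    have := congrArg (algebraMap K K') heq
    simpa using this
  obtain ⟨g, hg⟩ : ∃ g, g = (Y - U ^ p ^ s * V) - (a - a ^ (p ^ s) ^ 2) * V := ⟨_, rfl⟩
  have hgQ : g ^ p ^ s = -(Y - U ^ p ^ s * V) := by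
    have e1 : g ^ p ^ s = (Y ^ p ^ s - (U ^ p ^ s) ^ p ^ s * V ^ p ^ s)
        - (a ^ p ^ s - (a ^ (p ^ s) ^ 2) ^ p ^ s) * V ^ p ^ s := by
      rw [hg, sub_pow_char_pow, sub_pow_char_pow, mul_pow, mul_pow, sub_pow_char_pow]
    have e2 : (a ^ (p ^ s) ^ 2) ^ p ^ s = (U ^ p ^ s) ^ p ^ s := by
      rw [hU, ← ha, ← pow_mul a, ← pow_mul a, ← pow_mul a]
      congr 1
      rw [sq]
    rw [e1, e2, ha, ← hU]
    have e3 : Y ^ p ^ s = U ^ p ^ s * V + U * V ^ p ^ s - Y := by rw [← hEq]; ring
    rw [e3]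
    ring
  have hVg : V = -(g ^ p ^ s + g) / (a - a ^ (p ^ s) ^ 2) := by
    rw [eq_div_iff hne, hgQ, hg]
    ring
  have hYg : Y = -g ^ p ^ s + a ^ (p ^ s) ^ 2 * V := by
    rw [hgQ, sq, pow_mul, ha, ← hU]
    ring
  have htop : IntermediateField.adjoin k (Set.range ![a, g]) = ⊤ := by
    obtain ⟨T, hT⟩ : ∃ T : IntermediateField k K', T =
      IntermediateField.adjoin k (Set.range ![a, g]) := ⟨_, rfl⟩
    rw [← hT]
    have haT : a ∈ T := by
      rw [hT]; exact IntermediateField.subset_adjoin _ _ ⟨0, rfl⟩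
    have hgT : g ∈ T := by
      rw [hT]; exact IntermediateField.subset_adjoin _ _ ⟨1, rfl⟩
    have hUT : U ∈ T := by
      rw [hU, ← ha]; exact pow_mem haT _
    have hVT : V ∈ T := by
      rw [hVg]
      exact div_mem (neg_mem (add_mem (pow_mem hgT _) hgT)) (sub_mem haT (pow_mem haT _))
    have hYT : Y ∈ T := by
      rw [hYg]
      exact add_mem (neg_mem (pow_mem hgT _)) (mul_mem (pow_mem haT _) hVT)
    have hKT : ∀ z : K, algebraMap K K' z ∈ T := by
      intro z
      have hz : z ∈ IntermediateField.adjoin k {u, v, y} := by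
        rw [hgen]; exact IntermediateField.mem_top
      have hle : IntermediateField.adjoin k {u, v, y} ≤ T.comap (IsScalarTower.toAlgHom k K K') := by
        rw [IntermediateField.adjoin_le_iff]
        rintro z (rfl | rfl | rfl)
        · exact (show algebraMap K K' z ∈ T from hU ▸ hUT)
        · exact (show algebraMap K K' z ∈ T from hV ▸ hVT)
        · exact (show algebraMap K K' z ∈ T from hY ▸ hYT)
      exact hle hz
    rw [eq_top_iff]
    rintro z -
    have hz : z ∈ IntermediateField.adjoin K {a} := by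
      rw [hK']; exact IntermediateField.mem_top
    induction hz using IntermediateField.adjoin_induction with
    | mem x hx => rw [Set.mem_singleton_iff.1 hx]; exact haT
    | algebraMap x => exact hKT x
    | add x y _ _ hx hy => exact add_mem hx hy
    | mul x y _ _ hx hy => exact mul_mem hx hy
    | inv x _ hx => exact inv_mem hx
  refine ⟨![a, g], ?_, htop⟩
  refine indep_of_trdeg (f := algebraMap K K' ∘ f) ?_ ?_
  · have := hf.map' (f := IsScalarTower.toAlgHom k K K') (algebraMap K K').injective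
    exact this
  · intro z
    have hz : z ∈ IntermediateField.adjoin k (Set.range ![a, g]) := by
      rw [htop]; exact IntermediateField.mem_top
    exact isAlgebraic_algebraMap (⟨z, hz⟩ : IntermediateField.adjoin k (Set.range ![a, g]))

/-- TASK V4. Proof: `CharP K p` (`charP_of_injective_algebraMap`). Let `Q = p ^ s`. By `exists_root_ext`
(PP/G6, for `F := k`; import it) there are a finite extension `K'` of `K` of degree `≤ Q`, a `k`-algebra, and
`a ∈ K'` with `a ^ Q = u` (image of `u`) and `K' = K(a)`. Write `u, v, y` for the images in `K'`. Let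
`y' = y - u ^ Q * v` and `g = y' - (a - a ^ (Q ^ 2)) * v`. Then `y' ^ Q + y' = (u - u ^ (Q ^ 2)) * v ^ Q` and
`g ^ Q = y' ^ Q - (u - u ^ (Q ^ 2)) * v ^ Q = -y'` (`sub_pow_char_pow`, `add_pow_char_pow`). Moreover
`a - a ^ (Q ^ 2) ≠ 0`: otherwise `u` is algebraic over `F_p`, so over `k`, which contradicts the independence
below. So `v = -(g ^ Q + g) / (a - a ^ (Q ^ 2))`, `y = -g ^ Q + u ^ Q * v`, `u = a ^ Q`, and `K'` is generated
over `k` by `a` and `g` (`K` is generated over `k` by `u`, `v`, `y`). The two elements `a`, `g` are independent over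
`k`: `indep_of_trdeg` (PF/G1b) with the images in `K'` of the independent pair `f` of the
hypothesis (`AlgebraicIndependent.map'`). For `a - a ^ (Q ^ 2) ≠ 0`: if it is zero then `u` is algebraic over
`k`, and `y` is algebraic over `k(v)` and `K` is algebraic over `k(v)`, so `f` is algebraic over
`k(v)` and two independent elements would be algebraic over a field of transcendence degree at most
one over `k`; e.g. use `indep_of_trdeg` for `![u, v]` (`K` is algebraic over `k(u, v)`) to see that
`u` is transcendental over `k`. Now `unr_purely` for `K'` over `k` gives `κ` with image `ξ` in `K'`, and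
`finrank K K' • (ξ - κ) = 0` by `finrank_smul_eq_zero` (G/NormA); the degree divides `Q!`
(`Nat.dvd_factorial`). -/
theorem unr_herm_line {k K : Type u} [Field k] [Field K] [Algebra k K] {p : ℕ}
    [Fact p.Prime] [CharP k p] {s : ℕ} (hs : 0 < s) {u v y : K}
    (heq : y ^ p ^ s + y = u ^ p ^ s * v + u * v ^ p ^ s)
    (hgen : IntermediateField.adjoin k {u, v, y} = ⊤)
    (hind : ∃ f : Fin 2 → K, AlgebraicIndependent k f) {ξ : KM m K} (hξ : Unr ξ) :
    ∃ κ : KM m k, KM.map m (algebraMap k K) κ = (p ^ s).factorial • ξ := by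
  obtain ⟨K', _, _, _, _, a, hfd, hdeg, ha, hK'⟩ := exists_root_ext (F := k) (K := K) (p := p) s u
  obtain ⟨w, hw, hwt⟩ := V4_key hs heq hgen hind ha hK'
  obtain ⟨κ, -, hκ⟩ := unr_purely w hw hwt (hξ.map (algebraMap K K'))
  have h1 : KM.map m (algebraMap K K') (ξ - KM.map m (algebraMap k K) κ) = 0 := by
    rw [map_sub, KM.map_map, ← IsScalarTower.algebraMap_eq, hκ, sub_self]
  have h2 := finrank_smul_eq_zero _ rfl h1
  have hpos : 0 < Module.finrank K K' := Module.finrank_pos
  obtain ⟨c, hc⟩ := Nat.dvd_factorial hpos hdeg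
  refine ⟨(p ^ s).factorial • κ, ?_⟩
  rw [map_nsmul, eq_comm, ← sub_eq_zero, ← smul_sub, hc, mul_comm, mul_smul, h2, smul_zero]

end UnrA.Fer
end

section

/-!
# Hermitian curves: classes of the lines
-/

namespace UnrA.Fer

open UnrG

universe u v w z

open Polynomial Finset
open scoped Classical

variable {m : UFun.{u, z}} {F M : Type u} [Field F] [Field M] [Algebra F M] {p s : ℕ}
  {k : IntermediateField F M} {x y : Fin 2 → M}

/-- `T'` as an algebra over `k` -/
@[reducible] private def V5_alg {T' : IntermediateField F M} (hle : k ≤ T') : Algebra k T' :=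
  (IntermediateField.inclusion hle).toRingHom.toAlgebra

private lemma V5_gen {T' : IntermediateField F M} (hle : k ≤ T') (S : Set T')
    (hT' : T' = IntermediateField.adjoin F ((k : Set M) ∪ Subtype.val '' S)) :
    letI := V5_alg hle
    IntermediateField.adjoin k S = ⊤ := by
  let _ := V5_alg hle
  change IntermediateField.adjoin k S = ⊤
  rw [eq_top_iff]
  rintro z -
  have h1 : T'.toSubfield ≤ (IntermediateField.adjoin k S).toSubfield.map (algebraMap T' M) := by
    have h2 : T'.toSubfield =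
        Subfield.closure (Set.range (algebraMap F M) ∪ ((k : Set M) ∪ Subtype.val '' S)) := by
      rw [← IntermediateField.adjoin_toSubfield, ← hT']
    rw [h2, Subfield.closure_le]
    rintro w (⟨a, rfl⟩ | (hw | ⟨w', hw', rfl⟩))
    · exact ⟨algebraMap k T' (algebraMap F k a),
        (IntermediateField.adjoin k S).algebraMap_mem _, rfl⟩
    · exact ⟨algebraMap k T' ⟨w, hw⟩, (IntermediateField.adjoin k S).algebraMap_mem _, rfl⟩
    · exact ⟨w', IntermediateField.subset_adjoin _ _ hw', rfl⟩
  obtain ⟨w, hw, hwz⟩ := h1 z.2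
  have h3 : w = z := Subtype.ext hwz
  rw [← h3]
  exact hw

private lemma V5_ind {Q : ℕ} (h : Herm2 Q k x y) {T' : IntermediateField F M} (hle : k ≤ T')
    (hx : ∀ i, x i ∈ T') :
    letI := V5_alg hle
    AlgebraicIndependent k (fun i => (⟨x i, hx i⟩ : T')) := by
  let _ := V5_alg hle
  change AlgebraicIndependent k (fun i => (⟨x i, hx i⟩ : T'))
  have h1 : AlgebraicIndependent k x := h.ind
  exact AlgebraicIndependent.of_comp
    ({ (algebraMap T' M) with commutes' := fun _ => rfl } : T' →ₐ[k] M) h1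

/-- TASK V5, part 1. Proof: `T'` is purely transcendental over `k` with coordinates `x_0`, `x_1` (as a `k`-algebra
by `IntermediateField.inclusion`): `unr_purely` with ground field `k`. Independence:
`AlgebraicIndependent.of_comp` for the inclusion of `T'` in `M`. -/
theorem herm2_descent_x {Q : ℕ} (h : Herm2 Q k x y) {T' : IntermediateField F M}
    (hT' : T' = IntermediateField.adjoin F ((k : Set M) ∪ {x 0, x 1})) (η : KM m T')
    (hη : Unr η) :
    ∃ κ : KM m k, KM.map m (algebraMap k M) κ = KM.map m (algebraMap T' M) η := by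
  have hle : k ≤ T' := by
    intro z hz
    rw [hT']
    exact IntermediateField.subset_adjoin _ _ (Or.inl hz)
  have hx : ∀ i, x i ∈ T' := by
    intro i
    rw [hT']
    refine IntermediateField.subset_adjoin _ _ (Or.inr ?_)
    fin_cases i
    · exact Or.inl rfl
    · exact Or.inr rfl
  let _ := V5_alg hle
  have hgen := V5_gen hle (Set.range fun i => (⟨x i, hx i⟩ : T')) (by
    rw [← Set.range_comp]
    have h1 : Set.range (Subtype.val ∘ fun i => (⟨x i, hx i⟩ : T')) = {x 0, x 1} := by
      ext z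
      constructor
      · rintro ⟨i, rfl⟩
        fin_cases i
        · exact Or.inl rfl
        · exact Or.inr rfl
      · rintro (rfl | rfl)
        · exact ⟨0, rfl⟩
        · exact ⟨1, rfl⟩
    rw [h1]
    exact hT')
  obtain ⟨κ, -, hκ⟩ := unr_purely (F := k) (T := T') (fun i => (⟨x i, hx i⟩ : T'))
    (V5_ind h hle hx) hgen hη
  refine ⟨κ, ?_⟩
  rw [← hκ, KM.map_map]
  rfl

private lemma V5_eq {M : Type u} [Field M] {p s : ℕ} [Fact p.Prime] [CharP M p]
    {x₀ x₁ y₀ y₁ α b c : M} (h0 : y₀ ^ p ^ s + y₀ = x₀ ^ (p ^ s + 1))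
    (h1 : y₁ ^ p ^ s + y₁ = x₁ ^ (p ^ s + 1)) (hc : c ^ p ^ s = c) (hα : α ^ (p ^ s + 1) = -c)
    (hb : b ^ p ^ s + b = 1) :
    (y₀ + c * y₁) ^ p ^ s + (y₀ + c * y₁) =
      (x₀ - α * x₁) ^ p ^ s * (α * x₁ + b * (x₀ - α * x₁)) +
        (x₀ - α * x₁) * (α * x₁ + b * (x₀ - α * x₁)) ^ p ^ s := by
  obtain ⟨u, hu⟩ : ∃ u, u = x₀ - α * x₁ := ⟨_, rfl⟩
  obtain ⟨A, hA⟩ : ∃ A, A = α * x₁ := ⟨_, rfl⟩
  have hx0 : x₀ = u + A := by
    rw [hu, hA]
    ring
  have hA1 : A ^ p ^ s * A = -(c * x₁ ^ (p ^ s + 1)) := by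
    rw [hA, ← pow_succ, mul_pow, hα]
    ring
  rw [← hu, ← hA, add_pow_char_pow, mul_pow, hc, add_pow_char_pow A (b * u), mul_pow]
  have h2 : y₀ ^ p ^ s + c * y₁ ^ p ^ s + (y₀ + c * y₁) =
      (y₀ ^ p ^ s + y₀) + c * (y₁ ^ p ^ s + y₁) := by ring
  rw [h2, h0, h1, hx0, pow_succ (u + A), add_pow_char_pow]
  have h3 : c * x₁ ^ (p ^ s + 1) = -(A ^ p ^ s * A) := by
    rw [hA1, neg_neg]
  rw [h3]
  have h4 : b ^ p ^ s = 1 - b := by
    rw [← hb]
    ring
  rw [h4]
  ring

/-- TASK V5, part 2. Proof: choose `α, b ∈ F` with `α ^ (Q + 1) = -c` (`FixSp.exists_norm`) and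
`b ^ Q + b = 1` (`FixSp.exists_trace`), `Q = p ^ s`. Then `α ≠ 0`. Let `u = x_0 - α x_1`,
`v = α x_1 + b u`, `Y = y_0 + c y_1`. As `c ^ Q = c`, `Y ^ Q + Y = x_0 ^ (Q + 1) + c x_1 ^ (Q + 1)
= x_0 ^ (Q + 1) - (α x_1) ^ (Q + 1) = u ^ Q v + u v ^ Q` (write `x_0 = u + α x_1`, `α x_1 = v - b u`). The field
`T'` is generated over `k` by `u`, `v`, `Y`, since `x_1 = (v - b u) / α`, `x_0 = u + α x_1`. It contains the
independent pair `x` (`AlgebraicIndependent.of_comp`). Now `unr_herm_line` with ground field `k`, `K = T'`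
(as a `k`-algebra by `IntermediateField.inclusion`). -/
theorem herm2_descent_line [hFS : FixSp F p (2 * s)] [Fact p.Prime] [CharP F p] (hs : 0 < s)
    (h : Herm2 (p ^ s) k x y) {c : F} (hc : c ^ p ^ s = c) (hc0 : c ≠ 0)
    {T' : IntermediateField F M}
    (hT' : T' = IntermediateField.adjoin F
      ((k : Set M) ∪ {x 0, x 1, y 0 + algebraMap F M c * y 1})) (η : KM m T') (hη : Unr η) :
    ∃ κ : KM m k, KM.map m (algebraMap k M) κ =
      (p ^ s).factorial • KM.map m (algebraMap T' M) η := by
  have hp : p.Prime := Fact.out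
  have hQ : 1 < p ^ s := Nat.one_lt_pow hs.ne' hp.one_lt
  obtain ⟨α, hα⟩ := hFS.exists_norm hp hs (c := -c) (by
    have h1 := sub_pow_char_pow (p := p) (n := s) (0 : F) c
    rw [zero_pow (by omega), zero_sub, zero_sub, hc] at h1
    exact h1) (neg_ne_zero.2 hc0)
  obtain ⟨b, hb⟩ := hFS.exists_trace hp hs
  have hα0 : α ≠ 0 := by
    rintro rfl
    rw [zero_pow (Nat.succ_ne_zero _)] at hα
    apply hc0
    linear_combination hα
  have hle : k ≤ T' := by
    intro z hz
    rw [hT']
    exact IntermediateField.subset_adjoin _ _ (Or.inl hz)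
  have hx : ∀ i, x i ∈ T' := by
    intro i
    rw [hT']
    refine IntermediateField.subset_adjoin _ _ (Or.inr ?_)
    fin_cases i
    · exact Or.inl rfl
    · exact Or.inr (Or.inl rfl)
  have hY : y 0 + algebraMap F M c * y 1 ∈ T' := by
    rw [hT']
    exact IntermediateField.subset_adjoin _ _ (Or.inr (Or.inr (Or.inr rfl)))
  have hu : x 0 - algebraMap F M α * x 1 ∈ T' :=
    sub_mem (hx 0) (mul_mem (T'.algebraMap_mem α) (hx 1))
  have hv : algebraMap F M α * x 1 + algebraMap F M b * (x 0 - algebraMap F M α * x 1) ∈ T' :=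
    add_mem (mul_mem (T'.algebraMap_mem α) (hx 1)) (mul_mem (T'.algebraMap_mem b) hu)
  have : CharP M p := charP_of_injective_algebraMap (algebraMap F M).injective p
  have : CharP k p := charP_of_injective_algebraMap (algebraMap F k).injective p
  let _ := V5_alg hle
  obtain ⟨uT, huT⟩ : ∃ w : T', (w : M) = x 0 - algebraMap F M α * x 1 := ⟨⟨_, hu⟩, rfl⟩
  obtain ⟨vT, hvT⟩ : ∃ w : T', (w : M) =
    algebraMap F M α * x 1 + algebraMap F M b * (x 0 - algebraMap F M α * x 1) := ⟨⟨_, hv⟩, rfl⟩
  obtain ⟨YT, hYT⟩ : ∃ w : T', (w : M) = y 0 + algebraMap F M c * y 1 := ⟨⟨_, hY⟩, rfl⟩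
  have heq : YT ^ p ^ s + YT = uT ^ p ^ s * vT + uT * vT ^ p ^ s := by
    apply Subtype.ext
    push_cast
    rw [huT, hvT, hYT]
    exact V5_eq (p := p) (s := s) (α := algebraMap F M α) (b := algebraMap F M b)
      (c := algebraMap F M c) (h.eq 0) (h.eq 1) (by rw [← map_pow, hc])
      (by rw [← map_pow, hα, map_neg]) (by rw [← map_pow, ← map_add, hb, map_one])
  have hα' : algebraMap F M α ≠ 0 := by
    rw [Ne, map_eq_zero]
    exact hα0
  have hgen := V5_gen hle ({uT, vT, YT} : Set T') (by
    rw [Set.image_insert_eq, Set.image_insert_eq, Set.image_singleton, huT, hvT, hYT]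
    apply le_antisymm
    · have hmu := IntermediateField.subset_adjoin F ((k : Set M) ∪
        {x 0 - algebraMap F M α * x 1,
          algebraMap F M α * x 1 + algebraMap F M b * (x 0 - algebraMap F M α * x 1),
          y 0 + algebraMap F M c * y 1}) (Or.inr (Or.inl rfl))
      have hmv := IntermediateField.subset_adjoin F ((k : Set M) ∪
        {x 0 - algebraMap F M α * x 1,
          algebraMap F M α * x 1 + algebraMap F M b * (x 0 - algebraMap F M α * x 1),
          y 0 + algebraMap F M c * y 1}) (Or.inr (Or.inr (Or.inl rfl)))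
      have hmY := IntermediateField.subset_adjoin F ((k : Set M) ∪
        {x 0 - algebraMap F M α * x 1,
          algebraMap F M α * x 1 + algebraMap F M b * (x 0 - algebraMap F M α * x 1),
          y 0 + algebraMap F M c * y 1}) (Or.inr (Or.inr (Or.inr rfl)))
      have h2 := sub_mem hmv (mul_mem (IntermediateField.algebraMap_mem _ b) hmu)
      rw [add_sub_cancel_right] at h2
      have h3 := mul_mem (inv_mem (IntermediateField.algebraMap_mem _ α)) h2
      rw [← mul_assoc, inv_mul_cancel₀ hα', one_mul] at h3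
      have h4 := add_mem hmu h2
      rw [sub_add_cancel] at h4
      rw [hT', IntermediateField.adjoin_le_iff]
      rintro z (hz | rfl | rfl | rfl)
      · exact IntermediateField.subset_adjoin _ _ (Or.inl hz)
      · exact h4
      · exact h3
      · exact hmY
    · rw [IntermediateField.adjoin_le_iff]
      rintro z (hz | rfl | rfl | rfl)
      · exact hle hz
      · exact hu
      · exact hv
      · exact hY)
  obtain ⟨κ, hκ⟩ := unr_herm_line (k := k) (K := T') hs heq hgen ⟨_, V5_ind h hle hx⟩ hη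
  refine ⟨κ, ?_⟩
  have h5 := congrArg (KM.map m (algebraMap T' M)) hκ
  rw [KM.map_map, map_nsmul] at h5
  rw [← h5]
  rfl

end UnrA.Fer
end

section

/-!
# Products of two Hermitian curves
-/

namespace UnrA.Fer

open UnrG

universe u v w z

open Polynomial Finset
open scoped Classical

variable {m : UFun.{u, z}} {F M : Type u} [Field F] [Field M] [Algebra F M] {p s : ℕ}
  {k : IntermediateField F M} {x y : Fin 2 → M}

private lemma V10_comm (h : Herm2 (p ^ s) k x y) {ζ : F} {j : Fin 2} {τ : M →+* M}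
    (hτ : IsRot k x y ζ j τ) {g : M →+* M} (gk : ∀ z ∈ k, g z = z) (gx : ∀ i, g (x i) = x i)
    (gy : ∀ i, ∃ c : F, g (y i) = y i + algebraMap F M c) : τ.comp g = g.comp τ := by
  have h1 := congrArg IntermediateField.toSubfield h.gen
  rw [IntermediateField.adjoin_toSubfield, IntermediateField.top_toSubfield] at h1
  have hF : ∀ a : F, algebraMap F M a ∈ k := fun a => k.algebraMap_mem a
  apply RingHom.eq_of_eqOn_of_field_closure_eq_top h1
  rintro z (⟨a, rfl⟩ | ((hz | ⟨i, rfl⟩) | ⟨i, rfl⟩))
  · change τ (g _) = g (τ _)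
    rw [gk _ (hF a), hτ.fk _ (hF a), gk _ (hF a)]
  · change τ (g _) = g (τ _)
    rw [gk _ hz, hτ.fk _ hz, gk _ hz]
  · change τ (g _) = g (τ _)
    rw [gx]
    by_cases hij : i = j
    · subst hij
      rw [hτ.fx, map_mul, gk _ (hF ζ), gx]
    · rw [hτ.fx' i hij, gx]
  · change τ (g _) = g (τ _)
    obtain ⟨c, hc⟩ := gy i
    rw [hc, hτ.fy, hc, map_add, hτ.fy, hτ.fk _ (hF c)]

/-- Two Hermitian curves: classes annihilated by the sums over both rotations are torsion. -/
theorem herm2_kills [hFS : FixSp F p (2 * s)] [Fact p.Prime] [CharP F p] (hs : 0 < s)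
    (h : Herm2 (p ^ s) k x y) {ζ : F} {n : ℕ} {τ : Fin 2 → (M →+* M)}
    (hτ : ∀ j, IsRot k x y ζ j (τ j)) {z : KM m M} (hz : Unr z)
    (hsum : ∀ j, ∑ l ∈ range n, KM.map m (τ j ^ l) z = 0) :
    (p ^ s * (n * ((p ^ s).factorial * ((p ^ s) ^ 2).factorial))) • z = 0 := by
  have hpM : CharP M p := charP_of_injective_algebraMap (algebraMap F M).injective p
  have hQ : 1 < p ^ s := Nat.one_lt_pow hs.ne' (Fact.out : p.Prime).one_lt
  have hFs : FixSp F p s := FixSp.of_dvd F Fact.out (by omega) (dvd_mul_left s 2) hFS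
  obtain ⟨θ, hθ⟩ := hFS.exists_anti Fact.out hs
  have hθ0 : θ ≠ 0 := by
    rintro rfl
    rw [zero_pow (by omega)] at hθ
    exact neg_ne_zero.2 one_ne_zero hθ.symm
  have hθQ : θ ^ p ^ s = -θ := by
    obtain ⟨q, hq⟩ : ∃ q, p ^ s = q + 1 := ⟨p ^ s - 1, by omega⟩
    rw [hq, Nat.add_sub_cancel] at hθ
    rw [hq, pow_succ, hθ, neg_one_mul]
  obtain ⟨a, ha⟩ : ∃ a : M, a = algebraMap F M θ⁻¹ := ⟨_, rfl⟩
  have ha0 : a ≠ 0 := by
    rw [ha, Ne, map_eq_zero]
    exact inv_ne_zero hθ0
  have haQ : a ^ p ^ s = -a := by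
    rw [ha, ← map_pow, inv_pow, hθQ, inv_neg, map_neg]
  obtain ⟨T, hT⟩ : ∃ T, T = IntermediateField.adjoin F ((k : Set M) ∪ {x 0, x 1}) := ⟨_, rfl⟩
  have hkT : k ≤ T := by
    intro z hz
    rw [hT]
    exact IntermediateField.subset_adjoin F _ (Or.inl hz)
  have haT : a ∈ T := by
    rw [ha]
    exact T.algebraMap_mem _
  have hxT : ∀ i, x i ∈ T := by
    intro i
    rw [hT]
    refine IntermediateField.subset_adjoin F _ (Or.inr ?_)
    fin_cases i
    · exact Or.inl rfl
    · exact Or.inr rfl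
  have hAS : ∀ i, (a * y i) ^ p ^ s - a * y i ∈ T := by
    intro i
    have h1 : (a * y i) ^ p ^ s - a * y i = -(a * x i ^ (p ^ s + 1)) := by
      rw [mul_pow, haQ, ← h.eq i]
      ring
    rw [h1]
    exact neg_mem (mul_mem haT (pow_mem (hxT i) _))
  have hya : ∀ (S : IntermediateField F M) (z : M), a * z ∈ S ↔ z ∈ S := by
    intro S z
    have haS : a ∈ S := by
      rw [ha]
      exact S.algebraMap_mem _
    constructor
    · intro h1
      have h2 := mul_mem (inv_mem haS) h1
      rwa [inv_mul_cancel_left₀ ha0] at h2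
    · exact mul_mem haS
  have hgenT : IntermediateField.adjoin T {a * y 0, a * y 1} = ⊤ := by
    obtain ⟨S, hS⟩ : ∃ S : IntermediateField F M, S =
        (IntermediateField.adjoin T {a * y 0, a * y 1}).restrictScalars F := ⟨_, rfl⟩
    have hmem : ∀ z, z ∈ S ↔ z ∈ IntermediateField.adjoin T {a * y 0, a * y 1} := fun z => by
      rw [hS]
      rfl
    have hTS : T ≤ S := fun z hz => (hmem z).2
      ((IntermediateField.adjoin T {a * y 0, a * y 1}).algebraMap_mem ⟨z, hz⟩)
    have h1 : S = ⊤ := by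
      rw [eq_top_iff, ← h.gen, IntermediateField.adjoin_le_iff]
      rintro z ((hz | ⟨i, rfl⟩) | ⟨i, rfl⟩)
      · exact hTS (hkT hz)
      · exact hTS (hxT i)
      · rw [SetLike.mem_coe, ← hya, hmem]
        refine IntermediateField.subset_adjoin T _ ?_
        fin_cases i
        · exact Or.inl rfl
        · exact Or.inr rfl
    rw [eq_top_iff]
    intro z _
    rw [← hmem, h1]
    trivial
  obtain ⟨hfd, hgal, hle⟩ := as_galois hs T (hAS 0) (hAS 1) hgenT
  -- the Galois group commutes with the rotations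
  have hFg : ∀ (g : M ≃ₐ[T] M) (c : F), g (algebraMap F M c) = algebraMap F M c := fun g c =>
    g.commutes (algebraMap F T c)
  have hcomm : ∀ (j : Fin 2) (g : M ≃ₐ[T] M), (τ j).comp (g : M →+* M) =
      (g : M →+* M).comp (τ j) := by
    intro j g
    refine V10_comm h (hτ j) (fun z hz => g.commutes ⟨z, hkT hz⟩)
      (fun i => g.commutes ⟨x i, hxT i⟩) fun i => ?_
    obtain ⟨c, _, hc⟩ := as_translate (F := F) hs (Y := a * y i) (g := (g : M →+* M))
      (g.commutes ⟨_, hAS i⟩)
    refine ⟨θ * c, ?_⟩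
    have h1 : (g : M →+* M) (a * y i) = a * g (y i) := by
      rw [map_mul, ha]
      exact congrArg (fun z => z * g (y i)) (hFg g θ⁻¹)
    rw [h1] at hc
    have h2 : algebraMap F M (θ * c) = a⁻¹ * algebraMap F M c := by
      rw [ha, map_mul, map_inv₀, inv_inv]
    change g (y i) = _
    rw [h2]
    field_simp
    linear_combination hc
  -- the subfields of the lines
  have hsup : ∀ Y Z : M, (∀ S : IntermediateField F M, Y ∈ S ↔ Z ∈ S) →
      T ⊔ IntermediateField.adjoin F {Y} =
        IntermediateField.adjoin F ((k : Set M) ∪ {x 0, x 1, Z}) := by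
    intro Y Z hYZ
    apply le_antisymm
    · refine sup_le ?_ ?_
      · rw [hT]
        refine IntermediateField.adjoin.mono F _ _ (Set.union_subset_union_right _ ?_)
        rintro z (rfl | hz)
        · exact Or.inl rfl
        · exact Or.inr (Or.inl hz)
      · rw [IntermediateField.adjoin_simple_le_iff, hYZ]
        exact IntermediateField.subset_adjoin F _ (Or.inr (Or.inr (Or.inr rfl)))
    · rw [IntermediateField.adjoin_le_iff]
      rintro z (hz | rfl | rfl | hz)
      · exact (le_sup_left : T ≤ _) (hkT hz)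
      · exact (le_sup_left : T ≤ _) (hxT 0)
      · exact (le_sup_left : T ≤ _) (hxT 1)
      · rw [Set.mem_singleton_iff] at hz
        rw [hz, SetLike.mem_coe, ← hYZ]
        exact (le_sup_right : IntermediateField.adjoin F {Y} ≤ _)
          (IntermediateField.mem_adjoin_simple_self F Y)
  refine lines_kill hs T (hAS 0) (hAS 1) hgenT z _ ?_ ?_ ?_
  · intro c hc
    have hc' : c ^ p ^ s = c := (mem_fixQ hQ).1 hc
    by_cases hc0 : c = 0
    · subst hc0
      refine line_descent T hle _ (τ 1) (hcomm 1) hz (hsum 1) ?_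
      intro η hη
      obtain ⟨R, _, f, κ, hf, hκ⟩ := herm2_descent_y h (by omega) (i := 1) (j := 0) (by decide) (hτ 1)
        (hsup (a * y 0 + algebraMap F M 0 * (a * y 1)) (y 0) (fun S => by
          rw [map_zero, zero_mul, add_zero]
          exact hya S (y 0))) η hη
      refine ⟨R, _, f, (p ^ s).factorial • κ, hf, ?_⟩
      rw [map_nsmul, hκ]
    · refine line_descent T hle _ (τ 0) (hcomm 0) hz (hsum 0) ?_
      intro η hη
      obtain ⟨κ, hκ⟩ := herm2_descent_line hs h hc' hc0
        (hsup (a * y 0 + algebraMap F M c * (a * y 1)) (y 0 + algebraMap F M c * y 1)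
          (fun S => by
            rw [← hya S (y 0 + algebraMap F M c * y 1)]
            have h1 : a * (y 0 + algebraMap F M c * y 1) =
              a * y 0 + algebraMap F M c * (a * y 1) := by ring
            rw [h1])) η hη
      refine ⟨k, _, algebraMap k M, κ, RingHom.ext fun z => (hτ 0).fk _ z.2, hκ⟩
  · refine line_descent T hle _ (τ 0) (hcomm 0) hz (hsum 0) ?_
    intro η hη
    obtain ⟨R, _, f, κ, hf, hκ⟩ := herm2_descent_y h (by omega) (i := 0) (j := 1) (by decide) (hτ 0)
      (hsup (a * y 1) (y 1) (fun S => hya S (y 1))) η hη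
    refine ⟨R, _, f, (p ^ s).factorial • κ, hf, ?_⟩
    rw [map_nsmul, hκ]
  · have h5 : T ⊔ IntermediateField.adjoin F {(0 : M)} =
        IntermediateField.adjoin F ((k : Set M) ∪ {x 0, x 1}) := by
      rw [← hT, sup_eq_left, IntermediateField.adjoin_simple_le_iff]
      exact zero_mem T
    have h3 := line_descent (c := (p ^ s).factorial) T hle (0 : M) (τ 0) (hcomm 0) hz
      (hsum 0) (by
      intro η hη
      obtain ⟨κ, hκ⟩ := herm2_descent_x h h5 η hη
      refine ⟨k, _, algebraMap k M, (p ^ s).factorial • κ,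
        RingHom.ext fun z => (hτ 0).fk _ z.2, ?_⟩
      rw [map_nsmul, hκ])
    have h4 : (univ : Finset (M ≃ₐ[T] M)) = univ.filter (fun g : M ≃ₐ[T] M => g 0 = 0) := by
      rw [eq_comm, Finset.filter_true_of_mem]
      intro g _
      exact map_zero g
    rw [h4]
    exact h3

end UnrA.Fer
end
end

section

section

/-!
# Descent of the sum over a line
-/

namespace UnrG

universe u v w

open Polynomial Finset
open scoped Classical

variable {m : ℕ} {F Ω : Type u} [Field F] [Field Ω] [Algebra F Ω]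

/-- TASK V2. Proof: let `T' = T ⊔ F(Y)`. As in `subSum_purely` (PF/G4b; copy its beginning and the
identification of the automorphisms over `T'` with those over `T` fixing `Y`) `Ω / T'` is Galois,
`d := finrank T' Ω` divides `B!`, and with `S = ∑_{g : Ω ≃ₐ[T'] Ω} g z` (the same as the sum in the
statement): `exists_trace` gives `y : KM m T'` with image `S`; `S` is unramified (PF/G4), so `d • y` is
unramified (`unr_smul_of_map`). Take `R`, `i`, `κ` from `hdesc` for `η = d • y`. For every `l`,
`(τ ^ l).comp i = i` (induction), so `KM.map m (τ ^ l) (KM.map m i κ) = KM.map m i κ`, i.e.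
`KM.map m (τ ^ l) (c • d • S) = c • d • S`. Summing over `l ∈ range n`:
`n • (c • d • S) = c • d • ∑ l, KM.map m (τ ^ l) S = c • d • ∑_g KM.map m g (∑ l, KM.map m (τ ^ l) z) = 0`,
since `τ ^ l` commutes with `g` (induction on `l` from `hτ`, `KM.map_map`). Finally
`d ∣ B!` (`Nat.dvd_factorial`). -/
theorem line_descent (hm : Any m)
    (T : IntermediateField F Ω) [FiniteDimensional T Ω] [IsGalois T Ω] {B : ℕ}
    (hB : Module.finrank T Ω ≤ B) (Y : Ω) (τ : Ω →+* Ω)
    (hτ : ∀ g : Ω ≃ₐ[T] Ω, τ.comp (g : Ω →+* Ω) = (g : Ω →+* Ω).comp τ) {n c : ℕ} {z : KM m Ω}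
    (hz : Unr z) (hsum : ∑ l ∈ range n, KM.map m (τ ^ l) z = 0)
    (hdesc : ∀ η : KM m (T ⊔ IntermediateField.adjoin F {Y} : IntermediateField F Ω), Unr η →
      ∃ (R : Type u) (_ : Field R) (i : R →+* Ω) (κ : KM m R), τ.comp i = i ∧
        KM.map m i κ =
          c • KM.map m (algebraMap (T ⊔ IntermediateField.adjoin F {Y} : IntermediateField F Ω) Ω) η) :
    (n * (c * B.factorial)) •
      ∑ g ∈ univ.filter (fun g : Ω ≃ₐ[T] Ω => g Y = Y), KM.map m (g : Ω →+* Ω) z = 0 := by
  obtain ⟨T', hT'⟩ : ∃ T' : IntermediateField F Ω, T' = T ⊔ IntermediateField.adjoin F {Y} :=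
    ⟨_, rfl⟩
  rw [← hT'] at hdesc
  have hle : T ≤ T' := by
    rw [hT']
    exact le_sup_left
  have hY : Y ∈ T' := by
    rw [hT']
    exact (le_sup_right : IntermediateField.adjoin F {Y} ≤ T ⊔ IntermediateField.adjoin F {Y})
      (IntermediateField.mem_adjoin_simple_self F Y)
  let _ : Algebra T T' := (IntermediateField.inclusion hle).toRingHom.toAlgebra
  have : IsScalarTower T T' Ω := IsScalarTower.of_algebraMap_eq fun x => rfl
  have : IsGalois T' Ω := IsGalois.tower_top_of_isGalois T T' Ω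
  have : FiniteDimensional T' Ω := Module.Finite.of_restrictScalars_finite T T' Ω
  have hpos : 0 < Module.finrank T' Ω := Module.finrank_pos
  have hfin : Module.finrank T' Ω ≤ B := by
    refine le_trans ?_ hB
    have : FiniteDimensional T T' :=
      FiniteDimensional.of_injective (IsScalarTower.toAlgHom T T' Ω).toLinearMap
        (IsScalarTower.toAlgHom T T' Ω).injective
    have hfree : Module.Free T T' := Module.Free.of_divisionRing T T'
    have hfree' : Module.Free T' Ω := Module.Free.of_divisionRing T' Ω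
    have hmul := Module.finrank_mul_finrank T T' Ω
    rw [← hmul]
    exact Nat.le_mul_of_pos_left _ Module.finrank_pos
  have h2 : ∑ g : Ω ≃ₐ[T'] Ω, KM.map m (g : Ω →+* Ω) z =
      ∑ g ∈ univ.filter (fun g : Ω ≃ₐ[T] Ω => g Y = Y), KM.map m (g : Ω →+* Ω) z := by
    refine Finset.sum_bij (fun g _ => g.restrictScalars T) ?_ ?_ ?_ ?_
    · intro g _
      rw [mem_filter]
      exact ⟨mem_univ _, g.commutes ⟨Y, hY⟩⟩
    · intro g _ g' _ h3
      refine AlgEquiv.ext fun x => ?_
      exact DFunLike.congr_fun h3 x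
    · intro g hg
      rw [mem_filter] at hg
      obtain ⟨S, hS⟩ : ∃ S : IntermediateField F Ω, ∀ x, x ∈ S ↔ g x = x :=
        ⟨{ carrier := {x | g x = x}
           mul_mem' := fun {x y} hx hy => by
             change g (x * y) = x * y
             rw [map_mul, show g x = x from hx, show g y = y from hy]
           add_mem' := fun {x y} hx hy => by
             change g (x + y) = x + y
             rw [map_add, show g x = x from hx, show g y = y from hy]
           algebraMap_mem' := fun c => g.commutes (algebraMap F T c)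
           inv_mem' := fun x hx => by
             change g x⁻¹ = x⁻¹
             rw [map_inv₀, show g x = x from hx] }, fun x => Iff.rfl⟩
      have hS' : T' ≤ S := by
        rw [hT']
        refine sup_le (fun x hx => (hS x).mpr (g.commutes ⟨x, hx⟩)) ?_
        rw [IntermediateField.adjoin_simple_le_iff]
        exact (hS Y).mpr hg.2
      refine ⟨{ (g : Ω ≃+* Ω) with commutes' := fun x => (hS _).mp (hS' x.2) }, mem_univ _, ?_⟩
      exact AlgEquiv.ext fun x => rfl
    · intro g _
      rfl
  obtain ⟨y, hy⟩ := exists_trace (K := T') (L := Ω) hm z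
  obtain ⟨S, hS⟩ : ∃ S : KM m Ω, S = ∑ g : Ω ≃ₐ[T'] Ω, KM.map m (g : Ω →+* Ω) z := ⟨_, rfl⟩
  have hSu : Unr S := by
    rw [hS]
    intro A hA
    exact sum_mem fun c _ => (hz.map (c : Ω →+* Ω)) A hA
  rw [← hS] at hy
  have hu : Unr (Module.finrank T' Ω • y) := unr_smul_of_map hm (by rw [hy]; exact hSu)
  obtain ⟨R, _, i, κ, hτi, hκ⟩ := hdesc _ hu
  have hpow : ∀ l : ℕ, (τ ^ l).comp i = i := by
    intro l
    induction l with
    | zero => rfl
    | succ l ih =>
      have h3 : (τ ^ (l + 1)).comp i = (τ ^ l).comp (τ.comp i) := by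
        rw [pow_succ]
        rfl
      rw [h3, hτi, ih]
  have hcomm : ∀ (l : ℕ) (g : Ω ≃ₐ[T] Ω),
      (τ ^ l).comp (g : Ω →+* Ω) = (g : Ω →+* Ω).comp (τ ^ l) := by
    intro l g
    induction l with
    | zero => rfl
    | succ l ih =>
      have h3 : (τ ^ (l + 1)).comp (g : Ω →+* Ω) = (τ ^ l).comp (τ.comp (g : Ω →+* Ω)) := by
        rw [pow_succ]
        rfl
      have h4 : (g : Ω →+* Ω).comp (τ ^ (l + 1)) = ((g : Ω →+* Ω).comp (τ ^ l)).comp τ := by
        rw [pow_succ]
        rfl
      rw [h3, hτ g, h4, ← ih]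
      rfl
  have hfix : ∀ l : ℕ, KM.map m (τ ^ l) (c • (Module.finrank T' Ω • S)) =
      c • (Module.finrank T' Ω • S) := by
    intro l
    have h3 : c • (Module.finrank T' Ω • S) = KM.map m i κ := by
      rw [hκ, map_nsmul, hy]
    rw [h3, KM.map_map, hpow l]
  have hzero : ∑ l ∈ range n, KM.map m (τ ^ l) S = 0 := by
    have h3 : ∀ l, KM.map m (τ ^ l) S =
        ∑ g ∈ univ.filter (fun g : Ω ≃ₐ[T] Ω => g Y = Y),
          KM.map m (g : Ω →+* Ω) (KM.map m (τ ^ l) z) := by
      intro l
      rw [hS, h2, map_sum]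
      refine Finset.sum_congr rfl fun g _ => ?_
      rw [KM.map_map, KM.map_map, hcomm]
    rw [Finset.sum_congr rfl fun l _ => h3 l, Finset.sum_comm]
    refine Finset.sum_eq_zero fun g _ => ?_
    rw [← map_sum, hsum, map_zero]
  have hfinal : n • (c • (Module.finrank T' Ω • S)) = 0 := by
    have h3 : ∑ l ∈ range n, KM.map m (τ ^ l) (c • (Module.finrank T' Ω • S)) =
        n • (c • (Module.finrank T' Ω • S)) := by
      rw [Finset.sum_congr rfl fun l _ => hfix l, Finset.sum_const, Finset.card_range]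
    rw [← h3]
    have h4 : ∀ l, KM.map m (τ ^ l) (c • (Module.finrank T' Ω • S)) =
        c • (Module.finrank T' Ω • KM.map m (τ ^ l) S) := by
      intro l
      rw [map_nsmul, map_nsmul]
    rw [Finset.sum_congr rfl fun l _ => h4 l, ← Finset.smul_sum, ← Finset.smul_sum, hzero,
      smul_zero, smul_zero]
  rw [← h2, ← hS]
  obtain ⟨q, hq⟩ := Nat.dvd_factorial hpos hfin
  have h5 : n * (c * B.factorial) = q * (n * (c * Module.finrank T' Ω)) := by
    rw [hq]
    ring
  rw [h5, mul_nsmul', mul_nsmul', mul_nsmul', hfinal, nsmul_zero]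

end UnrG
end

section

/-!
# Unramified classes of a product of two Hermitian curves
-/

namespace UnrG

universe u v w

open Polynomial Finset
open scoped Classical

variable {m : ℕ} {F M : Type u} [Field F] [Field M] [Algebra F M] {p s : ℕ}
  {k : IntermediateField F M} {x y : Fin 2 → M}

private lemma V10_comm (h : Herm2 (p ^ s) k x y) {ζ : F} {j : Fin 2} {τ : M →+* M}
    (hτ : IsRot k x y ζ j τ) {g : M →+* M} (gk : ∀ z ∈ k, g z = z) (gx : ∀ i, g (x i) = x i)
    (gy : ∀ i, ∃ c : F, g (y i) = y i + algebraMap F M c) : τ.comp g = g.comp τ := by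
  have h1 := congrArg IntermediateField.toSubfield h.gen
  rw [IntermediateField.adjoin_toSubfield, IntermediateField.top_toSubfield] at h1
  have hF : ∀ a : F, algebraMap F M a ∈ k := fun a => k.algebraMap_mem a
  apply RingHom.eq_of_eqOn_of_field_closure_eq_top h1
  rintro z (⟨a, rfl⟩ | ((hz | ⟨i, rfl⟩) | ⟨i, rfl⟩))
  · change τ (g _) = g (τ _)
    rw [gk _ (hF a), hτ.fk _ (hF a), gk _ (hF a)]
  · change τ (g _) = g (τ _)
    rw [gk _ hz, hτ.fk _ hz, gk _ hz]
  · change τ (g _) = g (τ _)
    rw [gx]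
    by_cases hij : i = j
    · subst hij
      rw [hτ.fx, map_mul, gk _ (hF ζ), gx]
    · rw [hτ.fx' i hij, gx]
  · change τ (g _) = g (τ _)
    obtain ⟨c, hc⟩ := gy i
    rw [hc, hτ.fy, hc, map_add, hτ.fy, hτ.fk _ (hF c)]

/-- Two Hermitian curves: classes annihilated by the sums over both rotations are torsion. -/
theorem Herm2.kills [hFS : FixSp F p (2 * s)] [Fact p.Prime] [CharP F p] (hs : 0 < s)
    (h : Herm2 (p ^ s) k x y) (hm : Any m) {ζ : F} {n : ℕ} {τ : Fin 2 → (M →+* M)}
    (hτ : ∀ j, IsRot k x y ζ j (τ j)) {z : KM m M} (hz : Unr z)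
    (hsum : ∀ j, ∑ l ∈ range n, KM.map m (τ j ^ l) z = 0) :
    (p ^ s * (n * ((p ^ s).factorial * ((p ^ s) ^ 2).factorial))) • z = 0 := by
  have hpM : CharP M p := charP_of_injective_algebraMap (algebraMap F M).injective p
  have hQ : 1 < p ^ s := Nat.one_lt_pow hs.ne' (Fact.out : p.Prime).one_lt
  have hFs : FixSp F p s := FixSp.of_dvd F Fact.out (by omega) (dvd_mul_left s 2) hFS
  obtain ⟨θ, hθ⟩ := hFS.exists_anti Fact.out hs
  have hθ0 : θ ≠ 0 := by
    rintro rfl
    rw [zero_pow (by omega)] at hθ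
    exact neg_ne_zero.2 one_ne_zero hθ.symm
  have hθQ : θ ^ p ^ s = -θ := by
    obtain ⟨q, hq⟩ : ∃ q, p ^ s = q + 1 := ⟨p ^ s - 1, by omega⟩
    rw [hq, Nat.add_sub_cancel] at hθ
    rw [hq, pow_succ, hθ, neg_one_mul]
  obtain ⟨a, ha⟩ : ∃ a : M, a = algebraMap F M θ⁻¹ := ⟨_, rfl⟩
  have ha0 : a ≠ 0 := by
    rw [ha, Ne, map_eq_zero]
    exact inv_ne_zero hθ0
  have haQ : a ^ p ^ s = -a := by
    rw [ha, ← map_pow, inv_pow, hθQ, inv_neg, map_neg]
  obtain ⟨T, hT⟩ : ∃ T, T = IntermediateField.adjoin F ((k : Set M) ∪ {x 0, x 1}) := ⟨_, rfl⟩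
  have hkT : k ≤ T := by
    intro z hz
    rw [hT]
    exact IntermediateField.subset_adjoin F _ (Or.inl hz)
  have haT : a ∈ T := by
    rw [ha]
    exact T.algebraMap_mem _
  have hxT : ∀ i, x i ∈ T := by
    intro i
    rw [hT]
    refine IntermediateField.subset_adjoin F _ (Or.inr ?_)
    fin_cases i
    · exact Or.inl rfl
    · exact Or.inr rfl
  have hAS : ∀ i, (a * y i) ^ p ^ s - a * y i ∈ T := by
    intro i
    have h1 : (a * y i) ^ p ^ s - a * y i = -(a * x i ^ (p ^ s + 1)) := by
      rw [mul_pow, haQ, ← h.eq i]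
      ring
    rw [h1]
    exact neg_mem (mul_mem haT (pow_mem (hxT i) _))
  have hya : ∀ (S : IntermediateField F M) (z : M), a * z ∈ S ↔ z ∈ S := by
    intro S z
    have haS : a ∈ S := by
      rw [ha]
      exact S.algebraMap_mem _
    constructor
    · intro h1
      have h2 := mul_mem (inv_mem haS) h1
      rwa [inv_mul_cancel_left₀ ha0] at h2
    · exact mul_mem haS
  have hgenT : IntermediateField.adjoin T {a * y 0, a * y 1} = ⊤ := by
    obtain ⟨S, hS⟩ : ∃ S : IntermediateField F M, S =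
        (IntermediateField.adjoin T {a * y 0, a * y 1}).restrictScalars F := ⟨_, rfl⟩
    have hmem : ∀ z, z ∈ S ↔ z ∈ IntermediateField.adjoin T {a * y 0, a * y 1} := fun z => by
      rw [hS]
      rfl
    have hTS : T ≤ S := fun z hz => (hmem z).2
      ((IntermediateField.adjoin T {a * y 0, a * y 1}).algebraMap_mem ⟨z, hz⟩)
    have h1 : S = ⊤ := by
      rw [eq_top_iff, ← h.gen, IntermediateField.adjoin_le_iff]
      rintro z ((hz | ⟨i, rfl⟩) | ⟨i, rfl⟩)
      · exact hTS (hkT hz)
      · exact hTS (hxT i)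
      · rw [SetLike.mem_coe, ← hya, hmem]
        refine IntermediateField.subset_adjoin T _ ?_
        fin_cases i
        · exact Or.inl rfl
        · exact Or.inr rfl
    rw [eq_top_iff]
    intro z _
    rw [← hmem, h1]
    trivial
  obtain ⟨hfd, hgal, hle⟩ := as_galois hs T (hAS 0) (hAS 1) hgenT
  -- the Galois group commutes with the rotations
  have hFg : ∀ (g : M ≃ₐ[T] M) (c : F), g (algebraMap F M c) = algebraMap F M c := fun g c =>
    g.commutes (algebraMap F T c)
  have hcomm : ∀ (j : Fin 2) (g : M ≃ₐ[T] M), (τ j).comp (g : M →+* M) =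
      (g : M →+* M).comp (τ j) := by
    intro j g
    refine V10_comm h (hτ j) (fun z hz => g.commutes ⟨z, hkT hz⟩)
      (fun i => g.commutes ⟨x i, hxT i⟩) fun i => ?_
    obtain ⟨c, _, hc⟩ := as_translate (F := F) hs (Y := a * y i) (g := (g : M →+* M))
      (g.commutes ⟨_, hAS i⟩)
    refine ⟨θ * c, ?_⟩
    have h1 : (g : M →+* M) (a * y i) = a * g (y i) := by
      rw [map_mul, ha]
      exact congrArg (fun z => z * g (y i)) (hFg g θ⁻¹)
    rw [h1] at hc
    have h2 : algebraMap F M (θ * c) = a⁻¹ * algebraMap F M c := by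
      rw [ha, map_mul, map_inv₀, inv_inv]
    change g (y i) = _
    rw [h2]
    field_simp
    linear_combination hc
  -- the subfields of the lines
  have hsup : ∀ Y Z : M, (∀ S : IntermediateField F M, Y ∈ S ↔ Z ∈ S) →
      T ⊔ IntermediateField.adjoin F {Y} =
        IntermediateField.adjoin F ((k : Set M) ∪ {x 0, x 1, Z}) := by
    intro Y Z hYZ
    apply le_antisymm
    · refine sup_le ?_ ?_
      · rw [hT]
        refine IntermediateField.adjoin.mono F _ _ (Set.union_subset_union_right _ ?_)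
        rintro z (rfl | hz)
        · exact Or.inl rfl
        · exact Or.inr (Or.inl hz)
      · rw [IntermediateField.adjoin_simple_le_iff, hYZ]
        exact IntermediateField.subset_adjoin F _ (Or.inr (Or.inr (Or.inr rfl)))
    · rw [IntermediateField.adjoin_le_iff]
      rintro z (hz | rfl | rfl | hz)
      · exact (le_sup_left : T ≤ _) (hkT hz)
      · exact (le_sup_left : T ≤ _) (hxT 0)
      · exact (le_sup_left : T ≤ _) (hxT 1)
      · rw [Set.mem_singleton_iff] at hz
        rw [hz, SetLike.mem_coe, ← hYZ]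
        exact (le_sup_right : IntermediateField.adjoin F {Y} ≤ _)
          (IntermediateField.mem_adjoin_simple_self F Y)
  refine lines_kill hs T (hAS 0) (hAS 1) hgenT z _ ?_ ?_ ?_
  · intro c hc
    have hc' : c ^ p ^ s = c := (mem_fixQ hQ).1 hc
    by_cases hc0 : c = 0
    · subst hc0
      refine line_descent hm T hle _ (τ 1) (hcomm 1) hz (hsum 1) ?_
      intro η hη
      obtain ⟨R, _, f, κ, hf, hκ⟩ := h.descent_y (by omega) hm (i := 1) (j := 0) (by decide) (hτ 1)
        (hsup (a * y 0 + algebraMap F M 0 * (a * y 1)) (y 0) (fun S => by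
          rw [map_zero, zero_mul, add_zero]
          exact hya S (y 0))) η hη
      refine ⟨R, _, f, (p ^ s).factorial • κ, hf, ?_⟩
      rw [map_nsmul, hκ]
    · refine line_descent hm T hle _ (τ 0) (hcomm 0) hz (hsum 0) ?_
      intro η hη
      obtain ⟨κ, hκ⟩ := h.descent_line hs hm hc' hc0
        (hsup (a * y 0 + algebraMap F M c * (a * y 1)) (y 0 + algebraMap F M c * y 1)
          (fun S => by
            rw [← hya S (y 0 + algebraMap F M c * y 1)]
            have h1 : a * (y 0 + algebraMap F M c * y 1) =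
              a * y 0 + algebraMap F M c * (a * y 1) := by ring
            rw [h1])) η hη
      refine ⟨k, _, algebraMap k M, κ, RingHom.ext fun z => (hτ 0).fk _ z.2, hκ⟩
  · refine line_descent hm T hle _ (τ 0) (hcomm 0) hz (hsum 0) ?_
    intro η hη
    obtain ⟨R, _, f, κ, hf, hκ⟩ := h.descent_y (by omega) hm (i := 0) (j := 1) (by decide) (hτ 0)
      (hsup (a * y 1) (y 1) (fun S => hya S (y 1))) η hη
    refine ⟨R, _, f, (p ^ s).factorial • κ, hf, ?_⟩
    rw [map_nsmul, hκ]
  · have h5 : T ⊔ IntermediateField.adjoin F {(0 : M)} =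
        IntermediateField.adjoin F ((k : Set M) ∪ {x 0, x 1}) := by
      rw [← hT, sup_eq_left, IntermediateField.adjoin_simple_le_iff]
      exact zero_mem T
    have h3 := line_descent (c := (p ^ s).factorial) hm T hle (0 : M) (τ 0) (hcomm 0) hz
      (hsum 0) (by
      intro η hη
      obtain ⟨κ, hκ⟩ := h.descent_x hm h5 η hη
      refine ⟨k, _, algebraMap k M, (p ^ s).factorial • κ,
        RingHom.ext fun z => (hτ 0).fk _ z.2, ?_⟩
      rw [map_nsmul, hκ])
    have h4 : (univ : Finset (M ≃ₐ[T] M)) = univ.filter (fun g : M ≃ₐ[T] M => g 0 = 0) := by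
      rw [eq_comm, Finset.filter_true_of_mem]
      intro g _
      exact map_zero g
    rw [h4]
    exact h3

end UnrG
end

section

/-!
# Two supersingular curves
-/

namespace UnrG

universe u v w

open Polynomial Finset
open scoped Classical

variable {m : ℕ} {F E M : Type u} [Field F] [Field E] [Field M] [Algebra F E] [Algebra E M]

/-- A homomorphism mapping the generators into `E` restricts to `E`. -/
private lemma V11_restrict {τ : M →+* M} {S : Set E} (hS : IntermediateField.adjoin F S = ⊤)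
    (hF : ∀ a : F, ∃ z : E, τ (algebraMap E M (algebraMap F E a)) = algebraMap E M z)
    (hτ : ∀ x ∈ S, ∃ z : E, τ (algebraMap E M x) = algebraMap E M z) :
    ∃ g : E →+* E, ∀ z, τ (algebraMap E M z) = algebraMap E M (g z) := by
  have h1 := congrArg IntermediateField.toSubfield hS
  rw [IntermediateField.adjoin_toSubfield, IntermediateField.top_toSubfield] at h1
  have h2 : ∀ z : E, z ∈ (algebraMap E M).fieldRange.comap (τ.comp (algebraMap E M)) := by
    intro z
    have h3 : Subfield.closure (Set.range (algebraMap F E) ∪ S) ≤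
        (algebraMap E M).fieldRange.comap (τ.comp (algebraMap E M)) := by
      rw [Subfield.closure_le]
      rintro x (⟨a, rfl⟩ | hx)
      · obtain ⟨z, hz⟩ := hF a
        exact ⟨z, hz.symm⟩
      · obtain ⟨z, hz⟩ := hτ x hx
        exact ⟨z, hz.symm⟩
    rw [h1] at h3
    exact h3 (Subfield.mem_top z)
  choose g hg using fun z => (h2 z)
  have hinj := (algebraMap E M).injective
  refine ⟨⟨⟨⟨g, ?_⟩, ?_⟩, ?_, ?_⟩, fun z => (hg z).symm⟩
  · apply hinj
    rw [hg, map_one, map_one]
  · intro x y
    apply hinj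
    change algebraMap E M (g (x * y)) = algebraMap E M (g x * g y)
    rw [hg, map_mul, map_mul, hg, hg]
  · apply hinj
    change algebraMap E M (g 0) = algebraMap E M 0
    rw [hg, map_zero, map_zero]
  · intro x y
    apply hinj
    change algebraMap E M (g (x + y)) = algebraMap E M (g x + g y)
    rw [hg, map_add, map_add, hg, hg]

private lemma V11_sum {g : E →+* E} {N N' : ℕ} (hg : g ^ N = 1) (z : KM m E) :
    ∑ l ∈ range (N' * N), KM.map m (g ^ l) z = N' • ∑ l ∈ range N, KM.map m (g ^ l) z := by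
  induction N' with
  | zero => simp
  | succ n ih =>
    rw [Nat.succ_mul, Finset.sum_range_add, ih, succ_nsmul]
    congr 1
    refine Finset.sum_congr rfl fun l _ => ?_
    rw [pow_add, mul_comm n N, pow_mul, hg, one_pow, one_mul]

/-- **Two supersingular curves.** -/
theorem CycProdD.kills_even {E : Type u} [Field E] [Algebra F E] {p s N N' : ℕ}
    [hFS : FixSp F p (2 * s)] [Fact p.Prime] [CharP F p] (hs : 0 < s) [hNp : Fact N.Prime] (hQ : p ^ s + 1 = N' * N)
    (hF : ∀ a : F, a ≠ 0 → ∃ n > 0, a ^ n = 1) {r n : ℕ} {t : Fin r → E} {X : Fin (n + 2) → E}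
    {D W : E} {B A : Fin (n + 2) → ZMod N} (h : CycProdD N (F := F) t X D W B A)
    (h0 : B 0 ≠ 0) (h1 : B 1 ≠ 0) {j : ℕ} (hj : 2 ≤ j) :
    KillsU (((p ^ s + 1) ^ 4).factorial * (p ^ s * ((p ^ s + 1) * ((p ^ s).factorial *
      ((p ^ s) ^ 2).factorial)) * N)) j E := by
  have hNprime : N.Prime := Fact.out
  have hN0 : NeZero N := ⟨hNprime.ne_zero⟩
  have hN'0 : 0 < N' := by
    rcases Nat.eq_zero_or_pos N' with h2 | h2
    · rw [h2, zero_mul] at hQ
      omega
    · exact h2
  obtain ⟨M, _, _, _, _, k, U, V, hfd, hle, hferm, hU0, hU1, htk, hXk, β, hβ, hW⟩ :=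
    h.exists_ferm2 hQ
  obtain ⟨x, y, hH, hrot⟩ := hferm.exists_herm hs
  have hQF : ((p ^ s + 1 : ℕ) : F) = 1 := by
    push_cast
    rw [CharP.cast_eq_zero, zero_pow hs.ne', zero_add]
  have hQF' : ((p ^ s + 1 : ℕ) : F) ≠ 0 := by
    rw [hQF]
    exact one_ne_zero
  obtain ⟨ζ, hζ⟩ := hFS.exists_isPrimitiveRoot Fact.out (by omega) (N := p ^ s + 1) (by
    have h1 : p ^ (2 * s) = (p ^ s) ^ 2 := by rw [← pow_mul, mul_comm]
    rw [h1, ← one_pow 2, Nat.sq_sub_sq, one_pow]
    exact dvd_mul_right _ _)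
  choose τ hτ using fun j : Fin 2 =>
    hferm.exists_rot (Nat.succ_pos _) hQF' hζ.pow_eq_one j
  have hζN : IsPrimitiveRoot (ζ ^ N') N := hζ.pow (Nat.succ_pos _) hQ
  have hω : ∀ c : ZMod N, c ≠ 0 → IsPrimitiveRoot ((ζ ^ N') ^ c.val) N := by
    intro c hc
    refine hζN.pow_of_coprime _ ?_
    rw [Nat.coprime_comm, hNprime.coprime_iff_not_dvd, ← ZMod.natCast_eq_zero_iff,
      ZMod.natCast_zmod_val]
    exact hc
  have hFM : ∀ a : F, algebraMap E M (algebraMap F E a) = algebraMap F M a := fun a =>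
    (IsScalarTower.algebraMap_apply F E M a).symm
  have hFτ : ∀ (i : Fin 2) (a : F), τ i (algebraMap F M a) = algebraMap F M a := fun i a =>
    (hτ i).fk _ (k.algebraMap_mem a)
  -- the action on `W`, `X`, `t`
  have hτt : ∀ i l, τ i (algebraMap E M (t l)) = algebraMap E M (t l) := fun i l =>
    (hτ i).fk _ (htk l)
  have hτU : ∀ i l, τ i (U l ^ (p ^ s + 1)) = U l ^ (p ^ s + 1) := by
    intro i l
    rw [map_pow]
    by_cases hil : l = i
    · rw [hil, (hτ i).fx, mul_pow, ← map_pow, hζ.pow_eq_one, map_one, one_mul]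
    · rw [(hτ i).fx' l hil]
  have hτX : ∀ i l, τ i (algebraMap E M (X l)) = algebraMap E M (X l) := by
    intro i l
    refine Fin.cases ?_ (fun l => ?_) l
    · rw [← hU0]
      exact hτU i 0
    · refine Fin.cases ?_ (fun l => ?_) l
      · have h2 : (Fin.succ 0 : Fin (n + 2)) = 1 := rfl
        rw [h2, ← hU1]
        exact hτU i 1
      · exact (hτ i).fk _ (hXk l)
  have hτW : ∀ i : Fin 2, ∃ c : ZMod N, c ≠ 0 ∧ τ i (algebraMap E M W) =
      algebraMap E M (algebraMap F E ((ζ ^ N') ^ c.val) * W) := by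
    intro i
    have key : ∀ c : ℕ, algebraMap F M ζ ^ (N' * c) = algebraMap F M ((ζ ^ N') ^ c) := by
      intro c
      rw [map_pow, map_pow, pow_mul]
    have hi : i = 0 ∨ i = 1 := by
      fin_cases i
      · exact Or.inl rfl
      · exact Or.inr rfl
    rcases hi with rfl | rfl
    · refine ⟨B 0, h0, ?_⟩
      rw [map_mul, hFM, hW, map_mul, map_mul, map_mul, map_mul, map_pow, map_pow, map_pow,
        map_pow, (hτ 0).fk _ hβ]
      rw [(hτ 0).fx, (hτ 0).fx' 1 (by decide), (hτ 0).fy, (hτ 0).fy, mul_pow, key]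
      ring
    · refine ⟨B 1, h1, ?_⟩
      rw [map_mul, hFM, hW, map_mul, map_mul, map_mul, map_mul, map_pow, map_pow, map_pow,
        map_pow, (hτ 1).fk _ hβ]
      rw [(hτ 1).fx, (hτ 1).fx' 0 (by decide), (hτ 1).fy, (hτ 1).fy, mul_pow, key]
      ring
  intro m z hz hd
  have hsum : ∀ i : Fin 2, ∑ l ∈ range (p ^ s + 1), KM.map m (τ i ^ l)
      (N • KM.map m (algebraMap E M) z) = 0 := by
    intro i
    obtain ⟨c, hc, hWc⟩ := hτW i
    obtain ⟨g, hg⟩ := V11_restrict (F := F) (τ := τ i) h.gen
      (fun a => ⟨algebraMap F E a, by rw [hFM, hFτ]⟩) (by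
        rintro x ((⟨l, rfl⟩ | ⟨l, rfl⟩) | hx)
        · exact ⟨_, hτt i l⟩
        · exact ⟨_, hτX i l⟩
        · rw [Set.mem_singleton_iff] at hx
          rw [hx]
          exact ⟨_, hWc⟩)
    have hinj := (algebraMap E M).injective
    have gF : ∀ a : F, g (algebraMap F E a) = algebraMap F E a := fun a => by
      apply hinj
      rw [← hg, hFM, hFτ]
    have gt : ∀ l, g (t l) = t l := fun l => by
      apply hinj
      rw [← hg, hτt]
    have gX : ∀ l, g (X l) = X l := fun l => by
      apply hinj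
      rw [← hg, hτX]
    have gW : g W = algebraMap F E ((ζ ^ N') ^ c.val) * W := by
      apply hinj
      rw [← hg, hWc]
    have hgN : g ^ N = 1 := by
      have h3 := congrArg IntermediateField.toSubfield h.gen
      rw [IntermediateField.adjoin_toSubfield, IntermediateField.top_toSubfield] at h3
      have hfix : ∀ (x : E), g x = x → ∀ l : ℕ, (g ^ l) x = x := by
        intro x hx l
        induction l with
        | zero => rfl
        | succ l ih =>
          rw [pow_succ]
          change (g ^ l) (g x) = x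
          rw [hx, ih]
      apply RingHom.eq_of_eqOn_of_field_closure_eq_top h3
      rintro x (⟨a, rfl⟩ | ((⟨l, rfl⟩ | ⟨l, rfl⟩) | hx))
      · exact hfix _ (gF a) N
      · exact hfix _ (gt l) N
      · exact hfix _ (gX l) N
      · rw [Set.mem_singleton_iff] at hx
        rw [hx]
        have h4 : ∀ l : ℕ, (g ^ l) W = algebraMap F E ((ζ ^ N') ^ c.val) ^ l * W := by
          intro l
          induction l with
          | zero => rw [pow_zero, pow_zero, one_mul]; rfl
          | succ l ih =>
            rw [pow_succ]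
            change (g ^ l) (g W) = _
            rw [gW, map_mul, hfix _ (gF _) l, ih]
            ring
        rw [h4, ← map_pow, (hω c hc).pow_eq_one, map_one, one_mul]
        rfl
    have hcyc := h.cyc_sum hNprime.pos (any m) hF (hω c hc) gF gt gX gW hj hz hd
    have hpow : ∀ l : ℕ, (τ i ^ l).comp (algebraMap E M) = (algebraMap E M).comp (g ^ l) := by
      intro l
      induction l with
      | zero => rfl
      | succ l ih =>
        ext x
        have h5 := congrArg (fun f : E →+* M => f (g x)) ih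
        rw [pow_succ, pow_succ]
        change (τ i ^ l) (τ i (algebraMap E M x)) = algebraMap E M ((g ^ l) (g x))
        rw [hg]
        exact h5
    have h6 : ∀ l : ℕ, KM.map m (τ i ^ l) (N • KM.map m (algebraMap E M) z) =
        KM.map m (algebraMap E M) (N • KM.map m (g ^ l) z) := by
      intro l
      rw [map_nsmul, map_nsmul, KM.map_map, KM.map_map, hpow]
    rw [Finset.sum_congr rfl (fun l _ => h6 l), ← map_sum, ← Finset.smul_sum, hQ,
      V11_sum hgN, smul_comm, hcyc, smul_zero, map_zero]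
  have hzM : Unr (N • KM.map m (algebraMap E M) z) := by
    intro A hA
    exact nsmul_mem ((hz.map (algebraMap E M)) A hA) N
  have h7 := hH.kills hs (any m) (fun i => hrot ζ i (τ i) (hτ i)) hzM hsum
  rw [← mul_nsmul', ← map_nsmul] at h7
  have h8 := finrank_smul_eq_zero (any m) _ (K := E) (L := M) rfl h7
  obtain ⟨d, hd'⟩ : Module.finrank E M ∣ ((p ^ s + 1) ^ 4).factorial :=
    Nat.dvd_factorial Module.finrank_pos hle
  rw [hd', mul_comm (Module.finrank E M) d, mul_assoc, mul_nsmul', mul_nsmul', h8, nsmul_zero]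

end UnrG
end
end
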