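import Pool.Agent.Lib.MP_859dd5_ag.Mg.G009
import Pool.Agent.Lib.MP_859dd5_ag.Mg.G074
import Pool.Agent.Lib.MP_859dd5_ag.Mg.G011
import Pool.Agent.Lib.MP_859dd5_ag.Mg.G007
import Pool.Agent.Lib.MP_859dd5_ag.Mg.G014
import Pool.Agent.Lib.MP_859dd5_ag.Mg.G003
import Pool.Agent.Lib.MP_859dd5_ag.Mg.G071
import Pool.Agent.Lib.MP_859dd5_ag.Mg.G015
import Pool.Agent.Lib.MP_859dd5_ag.Mg.G072
import Pool.Agent.Lib.MP_859dd5_ag.Mg.G077
import Pool.Agent.Lib.MP_859dd5_ag.Mg.G006
import Pool.Agent.Lib.MP_859dd5_ag.Mg.G001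
import Pool.Agent.Lib.MP_859dd5_ag.Mg.G070

section

section

/-!
# Relations with six terms
-/

namespace UnrG

universe u v w

open Polynomial Finset

variable {N : ℕ} {F K : Type u} [Field F] [Field K] [Algebra F K] {r l : ℕ} {t : Fin r → K}
  {Y : Fin (4 + 2) → K} {e : Fin (4 + 2) → ZMod N} {x : Fin l → K} {B A : Fin l → ZMod N} {w : K}
  {K₀ : IntermediateField F K}

/-- Hint: `Sys.nY_ne`, `Sys.nY_sum`, `Sys.nD_mem`, `Sys.exists_w`, `Sys.ind'`. Divisibilities:
`(e (π 1)).val` is congruent to `-p ^ k₁ (e (π 0)).val` mod `N` (`ZMod.natCast_eq_zero_iff`,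
`ZMod.natCast_zmod_val`). (`Fin.last (4 + 1) = 5`.) -/
theorem Sys.cycData [Fact N.Prime] {p : ℕ} (h : Sys N t Y e x B A w K₀)
    (π : Equiv.Perm (Fin (4 + 2))) {k₁ k₂ : ℕ} (hk₁ : 0 < k₁) (hk₂ : 0 < k₂)
    (h1 : e (π 1) = -(p : ZMod N) ^ k₁ * e (π 0)) (h2 : e (π 3) = -(p : ZMod N) ^ k₂ * e (π 2))
    (h4 : e (π 4) ≠ 0) :
    ∃ w' : K, CycData p N k₁ k₂ (F := F) (Fin.append t x) (nY Y π) w' (nD x B A)
      (fun i => (e (π i)).val) := by
  have hN : N.Prime := Fact.out
  obtain ⟨w', hw', hgen⟩ := h.exists_w π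
  have hval : ∀ z : ZMod N, ((z.val : ℕ) : ZMod N) = z := fun z => ZMod.natCast_zmod_val z
  refine ⟨w', ?_⟩
  refine ⟨hN.pos, hk₁, hk₂, ?_, ?_, ?_, fun i => (h.nY_ne π i).1, (h.nY_ne π 0).2, h.nY_sum π,
    h.nD_mem.1, h.nD_mem.2, hw', h.ind' π, hgen⟩
  · rw [← ZMod.natCast_eq_zero_iff]
    push_cast
    rw [hval, hval, h1]
    ring
  · rw [← ZMod.natCast_eq_zero_iff]
    push_cast
    rw [hval, hval, h2]
    ring
  · rw [Nat.coprime_comm, hN.coprime_iff_not_dvd]
    intro h5
    have h6 : (e (π 4)).val = 0 := Nat.eq_zero_of_dvd_of_lt h5 (ZMod.val_lt _)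
    exact h4 ((ZMod.val_eq_zero _).1 h6)

/-- Proof: `exists_two_pairs`-type data: four distinct indices; `exists_perm` (PF/D1) gives `π`;
`Sys.cycData` and `CycData.unr` (PF/G9c); the constants divide the factorials because
`k₁ * k₂ ≤ s` (`Nat.factorial_dvd_factorial`, `pow_dvd_pow`, `Nat.pow_le_pow_right`). -/
theorem Sys.kills_six {p : ℕ} [Fact p.Prime] [CharP F p] [Fact N.Prime]
    (hF : ∀ a : F, a ≠ 0 → ∃ n > 0, a ^ n = 1) (h : Sys N t Y e x B A w K₀)
    (h0 : ∀ i, e i ≠ 0) {i₀ i₁ i₂ i₃ : Fin (4 + 2)} (hi : [i₀, i₁, i₂, i₃].Nodup)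
    {k₁ k₂ s : ℕ} [FixSp F p (k₁ * k₂)] (hk₁ : 0 < k₁) (hk₂ : 0 < k₂) (hs : k₁ * k₂ ≤ s)
    (h1 : e i₁ = -(p : ZMod N) ^ k₁ * e i₀) (h2 : e i₃ = -(p : ZMod N) ^ k₂ * e i₂) {j : ℕ}
    (hj : 2 ≤ j) :
    KillsU (((p ^ s) ^ 2).factorial * (p ^ s * ((p ^ s) ^ 2).factorial)) j K := by
  obtain ⟨π, hπ0, hπ1, hπ2, hπ3⟩ := exists_perm hi
  obtain ⟨w', hw'⟩ := h.cycData π hk₁ hk₂ (p := p) (by rw [hπ0, hπ1]; exact h1)
    (by rw [hπ2, hπ3]; exact h2) (h0 _)
  intro m z hz hd
  have h3 := hw'.unr (any m) hF hj hz hd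
  have hp : 0 < p := (Fact.out : p.Prime).pos
  have h4 : p ^ (k₁ * k₂) ∣ p ^ s := pow_dvd_pow p hs
  have h5 : ((p ^ (k₁ * k₂)) ^ 2).factorial ∣ ((p ^ s) ^ 2).factorial :=
    Nat.factorial_dvd_factorial (Nat.pow_le_pow_left (Nat.pow_le_pow_right hp hs) 2)
  obtain ⟨k, hk⟩ : (((p ^ (k₁ * k₂)) ^ 2).factorial *
      (p ^ (k₁ * k₂) * ((p ^ (k₁ * k₂)) ^ 2).factorial)) ∣
      (((p ^ s) ^ 2).factorial * (p ^ s * ((p ^ s) ^ 2).factorial)) :=
    mul_dvd_mul h5 (mul_dvd_mul h4 h5)
  rw [hk, mul_comm, mul_nsmul', h3, nsmul_zero]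

end UnrG
end

section

/-!
# The gluing process
-/

namespace UnrG

universe u v w

open Polynomial Finset

/-- The constant of the relations with four and six terms. -/
def cK (p e : ℕ) : ℕ :=
  ((p ^ (4 * e ^ 2)) ^ 2).factorial * (p ^ (4 * e ^ 2) * ((p ^ (4 * e ^ 2)) ^ 2).factorial)

variable {N : ℕ} {F K : Type u} [Field F] [Field K] [Algebra F K] {r l : ℕ} {t : Fin r → K}

/-- Balanced relations with six terms. Hint: `exists_two_pairs`, `Sys.kills_six`. -/
theorem Sys.kills_of_bal_six {p : ℕ} [Fact p.Prime] [CharP F p] [Fact N.Prime]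
    (hF : ∀ a : F, a ≠ 0 → ∃ n > 0, a ^ n = 1) {e' : ℕ} [hL : FixLe F p (4 * e' ^ 2)]
    (he : 0 < e')
    (hpe : (p : ZMod N) ^ e' = 1) (hneg : ∀ j : ℕ, (p : ZMod N) ^ j ≠ -1)
    {Y : Fin (4 + 2) → K} {e : Fin (4 + 2) → ZMod N} {x : Fin l → K} {B A : Fin l → ZMod N}
    {w : K} {K₀ : IntermediateField F K} (h : Sys N t Y e x B A w K₀) (h0 : ∀ i, e i ≠ 0)
    (hb : Bal p e' (Multiset.map e Finset.univ.val)) {j : ℕ} (hj : 2 ≤ j) :
    KillsU (cK p e') j K := by
  obtain ⟨i₀, i₁, i₂, i₃, hi, ⟨k₁, hk₁, hk₁', h1⟩, k₂, hk₂, hk₂', h2⟩ :=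
    exists_two_pairs he hpe hneg (by norm_num) hb h0
  have hs : k₁ * k₂ ≤ 4 * e' ^ 2 := by
    calc k₁ * k₂ ≤ (2 * e') * (2 * e') := Nat.mul_le_mul hk₁' hk₂'
      _ = 4 * e' ^ 2 := by ring
  have : FixSp F p (k₁ * k₂) := hL.fix _ (Nat.mul_pos hk₁ hk₂) hs
  exact h.kills_six hF h0 hi hk₁ hk₂ hs h1 h2 hj

/-- Balanced relations with four terms. Hint: `exists_two_pairs`, `Sys.kills_four`. -/
theorem Sys.kills_of_bal_four {p : ℕ} [Fact p.Prime] [CharP F p] [Fact N.Prime]
    (hF : ∀ a : F, a ≠ 0 → ∃ n > 0, a ^ n = 1) {e' : ℕ} [hL : FixLe F p (4 * e' ^ 2)]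
    (he : 0 < e')
    (hpe : (p : ZMod N) ^ e' = 1) (hneg : ∀ j : ℕ, (p : ZMod N) ^ j ≠ -1)
    {Y : Fin (2 + 2) → K} {e : Fin (2 + 2) → ZMod N} {x : Fin l → K} {B A : Fin l → ZMod N}
    {w : K} {K₀ : IntermediateField F K} (h : Sys N t Y e x B A w K₀) (h0 : ∀ i, e i ≠ 0)
    (hb : Bal p e' (Multiset.map e Finset.univ.val)) {j : ℕ} (hj : 2 ≤ j) :
    KillsU (cK p e') j K := by
  obtain ⟨i₀, i₁, i₂, i₃, hi, ⟨k₁, hk₁, hk₁', h1⟩, k₂, hk₂, hk₂', h2⟩ :=
    exists_two_pairs he hpe hneg (by norm_num) hb h0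
  have hs : k₁ * k₂ ≤ 4 * e' ^ 2 := by
    calc k₁ * k₂ ≤ (2 * e') * (2 * e') := Nat.mul_le_mul hk₁' hk₂'
      _ = 4 * e' ^ 2 := by ring
  have : FixSp F p (k₁ * k₂) := hL.fix _ (Nat.mul_pos hk₁ hk₂) hs
  exact h.kills_four hF h0 hi hk₁ hk₂ hs h1 h2 hj

end UnrG
end

section

/-!
# The gluing process: the steps
-/

namespace UnrG

universe u v w

open Polynomial Finset

/-- Five terms and one three term relation. Proof: the main block has an odd number of terms, so
it is not balanced (`Bal.even_card`); `Bal.cross`, `Sys.step`, `Sys.kills_of_bal_six` (with `l = 0`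
the total multiset is the main block), `KillsU.of_finite`. -/
theorem Sys.kills_three {N : ℕ} {F K : Type u} [Field F] [Field K] [Algebra F K]
    {p : ℕ} [Fact p.Prime] [CharP F p] [Fact N.Prime]
    (hF : ∀ a : F, a ≠ 0 → ∃ n > 0, a ^ n = 1) {e' : ℕ} [hL : FixLe F p (4 * e' ^ 2)]
    (he : 0 < e')
    (hpe : (p : ZMod N) ^ e' = 1) (hneg : ∀ j : ℕ, (p : ZMod N) ^ j ≠ -1) {r : ℕ}
    {t : Fin r → K} {Y : Fin (3 + 2) → K} {e : Fin (3 + 2) → ZMod N} {x : Fin 1 → K}
    {B A : Fin 1 → ZMod N} {w : K} {K₀ : IntermediateField F K} (h : Sys N t Y e x B A w K₀)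
    (hb : Bal p e' (tot e B A)) (h0 : ∀ z ∈ tot e B A, z ≠ 0) {j : ℕ} (hj : 2 ≤ j) :
    KillsU ((p ^ e').factorial * cK p e') j K := by
  have : NegPow F N := hL.negPow Fact.out (by nlinarith [Nat.pow_pos (n := 2) he]) Fact.out
  have hnot : ¬ Bal p e' (Multiset.map e Finset.univ.val) := by
    intro hR
    have h1 := hR.even_card he hpe hneg (fun z hz => h0 z (Multiset.mem_add.2 (Or.inl hz)))
    rw [Multiset.card_map] at h1
    revert h1
    change ¬ Even (Finset.card (Finset.univ : Finset (Fin (3 + 2))))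
    rw [Finset.card_univ, Fintype.card_fin]
    decide
  have hc := (Bal.cross he hpe hb).resolve_left hnot
  obtain ⟨K', _, _, _, _, hfd, hle, t', Y', g, x', B', A', w', K₁, hS, hb', h0'⟩ :=
    h.step he hpe hb h0 hc
  have htot : tot g B' A' = Multiset.map g Finset.univ.val := by
    unfold tot
    rw [Finset.univ_eq_empty (α := Fin 0), Finset.sum_empty, add_zero]
  rw [htot] at hb' h0'
  have h1 : KillsU (cK p e') j K' := hS.kills_of_bal_six hF he hpe hneg
    (fun i => h0' _ (Multiset.mem_map_of_mem g (Finset.mem_univ i))) hb' hj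
  exact h1.of_finite hle

/-- Four terms and two three term relations. Proof: if the main block is balanced,
`Sys.kills_of_bal_four` and `KillsU.of_dvd`; otherwise `Bal.cross`, `Sys.step`, `Sys.kills_three`,
`KillsU.of_finite`. -/
theorem Sys.kills_two {N : ℕ} {F K : Type u} [Field F] [Field K] [Algebra F K]
    {p : ℕ} [Fact p.Prime] [CharP F p] [Fact N.Prime]
    (hF : ∀ a : F, a ≠ 0 → ∃ n > 0, a ^ n = 1) {e' : ℕ} [hL : FixLe F p (4 * e' ^ 2)]
    (he : 0 < e')
    (hpe : (p : ZMod N) ^ e' = 1) (hneg : ∀ j : ℕ, (p : ZMod N) ^ j ≠ -1) {r : ℕ}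
    {t : Fin r → K} {Y : Fin (2 + 2) → K} {e : Fin (2 + 2) → ZMod N} {x : Fin 2 → K}
    {B A : Fin 2 → ZMod N} {w : K} {K₀ : IntermediateField F K} (h : Sys N t Y e x B A w K₀)
    (hb : Bal p e' (tot e B A)) (h0 : ∀ z ∈ tot e B A, z ≠ 0) {j : ℕ} (hj : 2 ≤ j) :
    KillsU ((p ^ e').factorial * ((p ^ e').factorial * cK p e')) j K := by
  have : NegPow F N := hL.negPow Fact.out (by nlinarith [Nat.pow_pos (n := 2) he]) Fact.out
  by_cases hR : Bal p e' (Multiset.map e Finset.univ.val)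
  · have h1 := h.kills_of_bal_four hF he hpe hneg
      (fun i => h0 _ (Multiset.mem_add.2 (Or.inl (Multiset.mem_map_of_mem e
        (Finset.mem_univ i))))) hR hj
    exact h1.of_dvd (Dvd.dvd.mul_left (Dvd.dvd.mul_left dvd_rfl _) _)
  · have hc := (Bal.cross he hpe hb).resolve_left hR
    obtain ⟨K', _, _, _, _, hfd, hle, t', Y', g, x', B', A', w', K₁, hS, hb', h0'⟩ :=
      h.step he hpe hb h0 hc
    have h1 : KillsU ((p ^ e').factorial * cK p e') j K' :=
      hS.kills_three hF he hpe hneg hb' h0' hj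
    exact h1.of_finite hle

/-- Four three term relations. Proof: the main block has three terms, so it is not balanced;
`Bal.cross`, `Sys.step`, `Sys.kills_two`, `KillsU.of_finite`. -/
theorem Sys.kills_one {N : ℕ} {F K : Type u} [Field F] [Field K] [Algebra F K]
    {p : ℕ} [Fact p.Prime] [CharP F p] [Fact N.Prime]
    (hF : ∀ a : F, a ≠ 0 → ∃ n > 0, a ^ n = 1) {e' : ℕ} [hL : FixLe F p (4 * e' ^ 2)]
    (he : 0 < e')
    (hpe : (p : ZMod N) ^ e' = 1) (hneg : ∀ j : ℕ, (p : ZMod N) ^ j ≠ -1) {r : ℕ}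
    {t : Fin r → K} {Y : Fin (1 + 2) → K} {e : Fin (1 + 2) → ZMod N} {x : Fin 3 → K}
    {B A : Fin 3 → ZMod N} {w : K} {K₀ : IntermediateField F K} (h : Sys N t Y e x B A w K₀)
    (hb : Bal p e' (tot e B A)) (h0 : ∀ z ∈ tot e B A, z ≠ 0) {j : ℕ} (hj : 2 ≤ j) :
    KillsU ((p ^ e').factorial * ((p ^ e').factorial * ((p ^ e').factorial * cK p e'))) j K := by
  have : NegPow F N := hL.negPow Fact.out (by nlinarith [Nat.pow_pos (n := 2) he]) Fact.out
  have hnot : ¬ Bal p e' (Multiset.map e Finset.univ.val) := by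
    intro hR
    have h1 := hR.even_card he hpe hneg (fun z hz => h0 z (Multiset.mem_add.2 (Or.inl hz)))
    rw [Multiset.card_map] at h1
    revert h1
    change ¬ Even (Finset.card (Finset.univ : Finset (Fin (1 + 2))))
    rw [Finset.card_univ, Fintype.card_fin]
    decide
  have hc := (Bal.cross he hpe hb).resolve_left hnot
  obtain ⟨K', _, _, _, _, hfd, hle, t', Y', g, x', B', A', w', K₁, hS, hb', h0'⟩ :=
    h.step he hpe hb h0 hc
  have h1 : KillsU ((p ^ e').factorial * ((p ^ e').factorial * cK p e')) j K' :=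
    hS.kills_two hF he hpe hneg hb' h0' hj
  exact h1.of_finite hle

end UnrG
end

section

/-!
# The Frobenius relation for good classes
-/

namespace UnrG

universe u v w

open Polynomial Finset
open scoped Classical

variable {m : ℕ} {𝔽 : Type w} [Field 𝔽] [Fintype 𝔽] (b : Base 𝔽)

variable {F M : Type u} [Field F] [Field M] [Algebra F M] (ι : 𝔽 →+* F) {r n : ℕ}
  {t : Fin r → M} {x y : Fin n → M}

/-- The Frobenius relation for good classes. Hint: induction on `J`; the Frobenius at `insert j J`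
is the composite of the ones at `{j}` and `J` (`exists_frobAt`, `ProdData.ext`); apply
`Good.frob_step` to the good class `aeval (actL m τ) (∏ …) Z` (`Good.aeval`) and use that
`aeval` is multiplicative. -/
theorem Good.frob_all (hm : Any m) (hP : ProdData (F := F) b t x y) {bb aa : Fin n → ℕ}
    (hba : ∀ j, ¬ b.N ∣ bb j + aa j)
    {Z : KM m M} (h : Good b F ι t x y bb aa Z) {a c : Fin n → ℕ} {τ : M →+* M}
    (hτ : IsDiag b ι t x y a c τ) (l : Fin n → 𝔽 → ℕ)
    (hl : ∀ (j : Fin n) (c' : 𝔽), c' ≠ 0 → c' ≠ 1 →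
      (b.ζ ^ wt bb aa a c) ^ l j c' = (c' ^ b.e) ^ bb j * ((1 - c') ^ b.e) ^ aa j)
    (J : Finset (Fin n)) (φ : M →+* M) (hφ : IsFrobAt b F t x y J φ) :
    b.N ^ J.card • KM.map m φ Z = b.N ^ J.card •
      Polynomial.aeval (actL m τ) ((-1) ^ J.card * ∏ j ∈ J, jacPoly 𝔽 (l j)) Z := by
  induction J using Finset.induction_on generalizing φ Z with
  | empty =>
    have hid : φ = RingHom.id M := by
      refine ProdData.ext b hP ?_ ?_ ?_ ?_
      · intro a
        exact hφ.const a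
      · intro i
        exact hφ.ft i
      · intro i
        exact hφ.fx i (by simp)
      · intro i
        exact hφ.fy i (by simp)
    rw [hid, KM.map_id]
    simp
  | insert j J hj ih =>
    obtain ⟨φ1, h1⟩ := ProdData.exists_frobAt b hP ι {j}
    obtain ⟨φ2, h2⟩ := ProdData.exists_frobAt b hP ι J
    have hcomp : φ = φ2.comp φ1 := by
      refine ProdData.ext b hP ?_ ?_ ?_ ?_
      · intro a
        rw [RingHom.comp_apply, hφ.const, h1.const, h2.const]
      · intro i
        rw [RingHom.comp_apply, hφ.ft, h1.ft, h2.ft]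
      · intro i
        rw [RingHom.comp_apply]
        by_cases hij : i = j
        · subst hij
          rw [hφ.gx i (Finset.mem_insert_self _ _), h1.gx i (Finset.mem_singleton_self _),
            map_pow, h2.fx i hj]
        · rw [h1.fx i (by simpa using hij)]
          by_cases hiJ : i ∈ J
          · rw [h2.gx i hiJ, hφ.gx i (Finset.mem_insert_of_mem hiJ)]
          · rw [h2.fx i hiJ, hφ.fx i (by simp [hij, hiJ])]
      · intro i
        rw [RingHom.comp_apply]
        by_cases hij : i = j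
        · subst hij
          rw [hφ.gy i (Finset.mem_insert_self _ _), h1.gy i (Finset.mem_singleton_self _),
            map_pow, h2.fy i hj]
        · rw [h1.fy i (by simpa using hij)]
          by_cases hiJ : i ∈ J
          · rw [h2.gy i hiJ, hφ.gy i (Finset.mem_insert_of_mem hiJ)]
          · rw [h2.fy i hiJ, hφ.fy i (by simp [hij, hiJ])]
    have h3 := Good.frob_step b ι hm hP hba h hτ l hl j φ1 h1
    have h4 := ih (h.aeval b ι hP hτ (jacPoly 𝔽 (l j))) φ2 h2
    rw [hcomp, ← KM.map_map, Finset.card_insert_of_notMem hj, Finset.prod_insert hj, pow_succ,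
      mul_smul, ← map_nsmul, h3, map_neg, map_nsmul, smul_neg, smul_comm, h4, ← smul_neg,
      mul_comm (b.N ^ J.card), mul_smul]
    congr 2
    rw [← Module.End.mul_apply, ← map_mul, ← smul_neg, ← LinearMap.neg_apply, ← map_neg]
    have e : -((-1) ^ J.card * (∏ j ∈ J, jacPoly 𝔽 (l j)) * jacPoly 𝔽 (l j)) =
        (-1) ^ (J.card + 1) * (jacPoly 𝔽 (l j) * ∏ j ∈ J, jacPoly 𝔽 (l j)) := by ring
    rw [e]

end UnrG
end

section

/-!
# The annihilators of a good class
-/

namespace UnrG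

universe u v w

open Polynomial Finset
open scoped Classical

variable {m : ℕ} {𝔽 : Type w} [Field 𝔽] [Fintype 𝔽] (b : Base 𝔽)

variable {F M : Type u} [Field F] [Field M] [Algebra F M] (ι : 𝔽 →+* F) {r n : ℕ}
  {t : Fin r → M} {x y : Fin n → M}

private lemma P10_tau {a c : Fin n → ℕ} {f : M →+* M} (hf : IsDiag b ι t x y a c f) (i : Fin n) :
    f (x i ^ b.N) = x i ^ b.N := by
  have hz : (algebraMap F M (ι b.ζ)) ^ b.N = 1 := by
    rw [← map_pow, ← map_pow, b.hζ.pow_eq_one, map_one, map_one]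
  rw [map_pow, hf.fx, mul_pow, ← pow_mul, mul_comm (a i), pow_mul, hz, one_pow, one_mul]

omit b in
private lemma P10_wt (bb aa a c : Fin n → ℕ) (k : ℕ) :
    wt bb aa (k • a) (k • c) = wt bb aa a c * k := by
  unfold wt
  rw [Finset.sum_mul]
  refine Finset.sum_congr rfl (fun i _ => ?_)
  simp only [Pi.smul_apply, smul_eq_mul]
  ring

/-- The annihilators of a good class. Proof: the polynomials `P` with
`aeval (actL m τ) P ((N ^ n * q) • Z) = 0` form an ideal. It contains `X ^ orderOf (ζ ^ wt) - 1`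
(`h.inv`: `τ ^ orderOf` fixes the monomial and the `x_j ^ N`), the sums `∑ X ^ (i * k)` with
`¬ N ∣ wt * k` (`h.new` for `τ ^ k`, whose weight is `k * wt`), and
`q ^ 2 - (-1) ^ n ∏ jacPoly` by `hfrob` and `Good.frob_all` for `J = univ`
(`q ^ 3 Z = q φ Z` and `N ^ n φ Z = N ^ n (-1) ^ n ∏ jacPoly (τ) Z`). Hence it contains `C D`. -/
theorem Good.annihilate (hm : Any m) (hP : ProdData (F := F) b t x y) {bb aa : Fin n → ℕ}
    (hba : ∀ j, ¬ b.N ∣ bb j + aa j)
    {Z : KM m M} (h : Good b F ι t x y bb aa Z) (φ : M →+* M) (hφ : IsFrobAt b F t x y univ φ)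
    (hfrob : ((b.q : ℤ) ^ 3) • Z = (b.q : ℤ) • KM.map m φ Z)
    {a c : Fin n → ℕ} {τ : M →+* M}
    (hτ : IsDiag b ι t x y a c τ) (l : Fin n → 𝔽 → ℕ)
    (hl : ∀ (j : Fin n) (c' : 𝔽), c' ≠ 0 → c' ≠ 1 →
      (b.ζ ^ wt bb aa a c) ^ l j c' = (c' ^ b.e) ^ bb j * ((1 - c') ^ b.e) ^ aa j) (D : ℤ)
    (hD : C D ∈ Ideal.span (({X ^ orderOf (b.ζ ^ wt bb aa a c) - 1,
        C ((b.q : ℤ) ^ 2) - (-1) ^ n * ∏ j, jacPoly 𝔽 (l j)} : Set ℤ[X]) ∪
      {f | ∃ k : ℕ, ¬ b.N ∣ wt bb aa a c * k ∧ f = ∑ i ∈ range b.N, X ^ (i * k)})) :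
    ((b.N : ℤ) ^ n * b.q * D) • Z = 0 := by
  have hlin : ∀ (P : ℤ[X]) (k : ℤ) (W : KM m M),
      Polynomial.aeval (actL m τ) P (k • W) = k • Polynomial.aeval (actL m τ) P W := by
    intro P k W
    exact LinearMap.map_smul _ k W
  have key : ∀ P ∈ Ideal.span (({X ^ orderOf (b.ζ ^ wt bb aa a c) - 1,
        C ((b.q : ℤ) ^ 2) - (-1) ^ n * ∏ j, jacPoly 𝔽 (l j)} : Set ℤ[X]) ∪
      {f | ∃ k : ℕ, ¬ b.N ∣ wt bb aa a c * k ∧ f = ∑ i ∈ range b.N, X ^ (i * k)}),
      Polynomial.aeval (actL m τ) P (((b.N : ℤ) ^ n * b.q) • Z) = 0 := by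
    intro P hP'
    refine Submodule.span_induction (p := fun P _ =>
      Polynomial.aeval (actL m τ) P (((b.N : ℤ) ^ n * b.q) • Z) = 0) ?_ ?_ ?_ ?_ hP'
    · intro P hP2
      rcases hP2 with (hP2 | hP2) | ⟨k, hk, hP2⟩
      · rw [hP2, hlin]
        have h1 : Polynomial.aeval (actL m τ) (X ^ orderOf (b.ζ ^ wt bb aa a c) - 1 : ℤ[X]) Z =
            0 := by
          rw [map_sub, map_pow, aeval_X, map_one, LinearMap.sub_apply, Module.End.one_apply,
            actL_pow, sub_eq_zero]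
          have h2 : KM.map m (RingHom.id M) Z = Z := by
            rw [KM.map_id]
            rfl
          have ht := hτ.pow b ι (orderOf (b.ζ ^ wt bb aa a c))
          have h3 : KM.map m (τ ^ orderOf (b.ζ ^ wt bb aa a c)) Z = KM.map m (RingHom.id M) Z := by
            refine h.inv _ _ ?_ ?_ ?_ ?_
            · intro s
              rw [ht.const, RingHom.id_apply]
            · intro i
              rw [ht.ft, RingHom.id_apply]
            · intro i
              rw [P10_tau b ι ht, RingHom.id_apply]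
            · rw [ht.map_mono b ι, P10_wt, pow_mul, ← map_pow, ← map_pow, ← map_pow, ← map_pow,
                pow_orderOf_eq_one, map_one, map_one, one_mul, RingHom.id_apply]
          rw [h3, h2]
        rw [h1, smul_zero]
      · rw [Set.mem_singleton_iff] at hP2
        rw [hP2, map_sub, LinearMap.sub_apply, sub_eq_zero, hlin, hlin]
        have h4 := Good.frob_all b ι hm hP hba h hτ l hl univ φ hφ
        rw [Finset.card_univ, Fintype.card_fin] at h4
        have h5 : Polynomial.aeval (actL m τ) (C ((b.q : ℤ) ^ 2)) Z = ((b.q : ℤ) ^ 2) • Z := by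
          rw [aeval_C, Module.algebraMap_end_apply]
        have h6 : ((b.N : ℤ) ^ n) • KM.map m φ Z = ((b.N : ℤ) ^ n) •
            Polynomial.aeval (actL m τ) ((-1) ^ n * ∏ j, jacPoly 𝔽 (l j)) Z := by
          have h7 : ((b.N : ℤ) ^ n) = ((b.N ^ n : ℕ) : ℤ) := by push_cast; rfl
          rw [h7, natCast_zsmul, natCast_zsmul]
          exact h4
        have e1 : ((b.N : ℤ) ^ n * b.q) * (b.q : ℤ) ^ 2 = (b.N : ℤ) ^ n * (b.q : ℤ) ^ 3 := by ring
        rw [h5, smul_smul, e1, mul_smul, hfrob, smul_smul, mul_comm, mul_smul, h6, smul_smul,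
          mul_comm]
      · rw [hP2, hlin]
        have h1 : Polynomial.aeval (actL m τ) (∑ i ∈ range b.N, X ^ (i * k) : ℤ[X]) Z = 0 := by
          rw [map_sum, LinearMap.sum_apply]
          have ht := hτ.pow b ι k
          have h8 := h.new _ _ _ ht (by rw [P10_wt]; exact hk)
          rw [← h8]
          refine Finset.sum_congr rfl (fun i _ => ?_)
          rw [map_pow, aeval_X, actL_pow, ← pow_mul, mul_comm k i]
        rw [h1, smul_zero]
    · rw [map_zero, LinearMap.zero_apply]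
    · intro P Q _ _ h1 h2
      rw [map_add, LinearMap.add_apply, h1, h2, add_zero]
    · intro P Q _ h1
      rw [smul_eq_mul, map_mul, Module.End.mul_apply, h1, map_zero]
  have h9 := key _ hD
  rw [aeval_C, Module.algebraMap_end_apply, smul_smul, mul_comm] at h9
  exact h9

end UnrG
end

section

/-!
# Vanishing for monomial subfields of products of Fermat curves
-/

namespace UnrG

universe u v w

open Polynomial Finset
open scoped Classical

variable {m : ℕ} {𝔽 : Type w} [Field 𝔽] [Fintype 𝔽] (b : Base 𝔽)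

/-- **Vanishing for monomial subfields of products of Fermat curves.** Proof: take `a`, `c`, `l` from
`Base.exists_exponents`, `D` from `Base.exists_bezout` for `k = wt bb aa a c`, and
`C = (N ^ (2 n))! * N ^ n * q * |D|`. Let `Z = KM.map m i z`, a good class (`MonoEmb.good`) of
degree three; `τ` from `exists_diag`, `φ` from `exists_frobAt` for `univ`, `ψ` from
`exists_frobT`, `fr` from `exists_frob`. Then `q ^ 3 Z = fr Z` (`KM.deg_frob`)
`= φ ψ i σ z` (`RelFrob.frob_eq`) `= q φ ψ Z = q φ Z`. `Good.annihilate` gives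
`(N ^ n q D) • Z = 0`, and `MonoEmb.smul_eq_zero` the claim. -/
theorem prod_main {n : ℕ} (bb aa : Fin n → ℕ)
    (hn : n = 4 → ∀ χ : MulChar 𝔽 ℂ, orderOf χ = b.N →
      ∏ j, jacobiSum (χ ^ bb j) (χ ^ aa j) ≠ (b.q : ℂ) ^ 2) (h1 : ∀ j, ¬ b.N ∣ bb j)
    (h2 : ∀ j, ¬ b.N ∣ aa j) (h3 : ∀ j, ¬ b.N ∣ bb j + aa j) :
    ∃ C : ℕ, 0 < C ∧ ∀ (m : ℕ) (F M E : Type u) [Field F] [Field M] [Field E] [Algebra F M]
      (ι : 𝔽 →+* F) (r : ℕ) (t : Fin r → M) (x y : Fin n → M)
      (_ : ProdData (F := F) b t x y) (i : E →+* M) (_ : MonoEmb b F t x y bb aa i)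
      (σ : E →+* E) (_ : RelFrob b F t x y bb aa i σ) (z : KM m E)
      (_ : z ∈ KM.deg m E 3) (_ : Unr z) (_ : NewCls b F ι t x y bb aa i z)
      (_ : KM.map m σ z = b.q • z), C • z = 0 := by
  obtain ⟨a, c, l, hl⟩ := b.exists_exponents bb aa
  obtain ⟨D, hD0, hD⟩ := b.exists_bezout bb aa hn h1 h2 h3 (wt bb aa a c) l hl
  have hq : 0 < b.q := Nat.succ_pos _
  refine ⟨(b.N ^ (2 * n)).factorial * (b.N ^ n * b.q * D.natAbs),
    Nat.mul_pos (Nat.factorial_pos _) (Nat.mul_pos (Nat.mul_pos (pow_pos b.N_pos n) hq)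
      (Int.natAbs_pos.mpr hD0)), ?_⟩
  intro m F M E _ _ _ _ ι r t x y hP i hi σ hσ z hz hu hnew hσz
  have hm : Any m := any m
  have hZ := hi.good b ι hu hnew
  obtain ⟨τ, hτ⟩ := hP.exists_diag b ι a c
  obtain ⟨φ, hφ⟩ := hP.exists_frobAt b ι univ
  obtain ⟨ψ, hψ1, hψ2, hψ3, hψ4, hψ5⟩ := hP.exists_frobT b hm
  obtain ⟨fr, hfr⟩ := b.exists_frob ((algebraMap F M).comp ι)
  have hdeg : KM.map m fr (KM.map m i z) = ((b.q : ℤ) ^ 3) • KM.map m i z :=
    KM.deg_frob hfr (KM.deg_map i hz)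
  have hfrob : ((b.q : ℤ) ^ 3) • KM.map m i z = (b.q : ℤ) • KM.map m φ (KM.map m i z) := by
    rw [← hdeg, KM.map_map fr i, ← hσ.frob_eq b hP hi hφ hψ1 hψ2 hψ3 hψ4 hfr, ← KM.map_map,
      ← KM.map_map, ← KM.map_map, hσz, map_nsmul, map_nsmul, map_nsmul, hψ5 _ (hu.map i),
      natCast_zsmul]
  have hann := hZ.annihilate b ι hm hP h3 φ hφ hfrob hτ l hl D hD
  have hnat : (b.N ^ n * b.q * D.natAbs) • KM.map m i z = 0 := by
    rw [← natCast_zsmul]
    push_cast
    rcases abs_choice D with h4 | h4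
    · rw [h4]
      exact hann
    · rw [h4, mul_neg, neg_smul, hann, neg_zero]
  rw [mul_smul]
  refine hi.smul_eq_zero b hm hP ?_
  rw [map_nsmul]
  exact hnat

end UnrG
end

section

/-!
# Nondegenerate exponents without Tate classes
-/

namespace UnrG

universe u v w

open Polynomial Finset
open scoped Classical

variable {𝔽 : Type w} [Field 𝔽] [Fintype 𝔽] (b : Base 𝔽)

/-- Proof: `C = N ! * (C₀ * N !)` with `C₀` from `prod_main` (K/Q4) for the exponents `(B j).val`,
`(A j).val`. Let `G` be the Galois group of `E` over `baseF` (`CycProd.galois`), `S = ∑_h h z`. By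
`galSum_purely` (PF/G4, `CycProd.isPurely_base`) `|G| S = 0`. The class `z' = |G| z - S` is unramified
of degree three, `σ z' = q z'` (`CycProd.comm`), and it is new (`CycProd.sum_new`) in the sense of
`NewCls` for the embedding of `CycProd.exists_embedding` (an endomorphism `g` of `E` fixing `F`, `t`,
`X` with `i (g e) = ζ ^ k mono` for `i e = mono`, `e = κ W`, satisfies `g W = ζ ^ k W`); `RelFrob`
follows from `CycFrob` (`κ ∈ 𝔽` is fixed by the `q`-th power). So `C₀ z' = 0`, and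
`(C₀ |G|) (|G| z) = 0`; `|G| ≤ N` divides `N !`. See the proof of `vv_eq_zero_of_min` in K/D10 for the
conversions. -/
theorem CycProd.kills_of_ne (hN : b.N.Prime) {n : ℕ} {B A : Fin n → ZMod b.N}
    (hB : ∀ j, B j ≠ 0) (hA : ∀ j, A j ≠ 0) (hC : ∀ j, B j + A j ≠ 0)
    (hn : n = 4 → ∀ χ : MulChar 𝔽 ℂ, orderOf χ = b.N →
      ∏ j, jacobiSum (χ ^ (B j).val) (χ ^ (A j).val) ≠ (b.q : ℂ) ^ 2) :
    ∃ C : ℕ, 0 < C ∧ ∀ (F E : Type u) [Field F] [Field E] [Algebra F E]
      (_ : ∀ a : F, a ≠ 0 → ∃ n > 0, a ^ n = 1) (_ : 𝔽 →+* F) (r : ℕ) (t : Fin r → E)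
      (X : Fin n → E) (W : E) (_ : CycProd b.N (F := F) t X W B A) (σ : E →+* E)
      (_ : CycFrob b.q F t X W σ), KillsF C b.q E σ := by
  have hval : ∀ c : ZMod b.N, c ≠ 0 → ¬ b.N ∣ c.val := by
    intro c hc h
    apply hc
    have h1 := (ZMod.natCast_eq_zero_iff c.val b.N).2 h
    rwa [ZMod.natCast_zmod_val] at h1
  obtain ⟨C₀, hC₀, hmain⟩ := prod_main.{u} b (fun j => (B j).val) (fun j => (A j).val) hn
    (fun j => hval _ (hB j)) (fun j => hval _ (hA j)) (fun j h => by
      have h1 := (ZMod.natCast_eq_zero_iff _ _).2 h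
      rw [Nat.cast_add, ZMod.natCast_zmod_val, ZMod.natCast_zmod_val] at h1
      exact hC j h1)
  refine ⟨b.N.factorial * (C₀ * b.N.factorial), Nat.mul_pos (Nat.factorial_pos _)
    (Nat.mul_pos hC₀ (Nat.factorial_pos _)), ?_⟩
  intro F E _ _ _ hF ι r t X W h σ hσ m z hz hd hq
  obtain ⟨hfd, hgal, hle⟩ := h.galois b ι
  have hcard : Fintype.card (E ≃ₐ[baseF F t X] E) = Module.finrank (baseF F t X) E := by
    rw [← IsGalois.card_aut_eq_finrank, Nat.card_eq_fintype_card]
  obtain ⟨S, hS⟩ : ∃ S, S = ∑ g : E ≃ₐ[baseF F t X] E, KM.map m (g : E →+* E) z := ⟨_, rfl⟩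
  have hS0 : Module.finrank (baseF F t X) E • S = 0 := by
    rw [hS]
    exact galSum_purely (any m) hF (baseF F t X) (h.isPurely_base b) (by norm_num) hz hd
  obtain ⟨z', hz'⟩ : ∃ z', z' = Fintype.card (E ≃ₐ[baseF F t X] E) • z - S := ⟨_, rfl⟩
  have hu : Unr z' := by
    rw [hz', hS]
    intro A hA
    exact sub_mem (nsmul_mem (hz A hA) _) (sum_mem fun g _ => (hz.map (g : E →+* E)) A hA)
  have hdeg : z' ∈ KM.deg m E 3 := by
    rw [hz', hS]
    exact sub_mem (nsmul_mem hd _) (sum_mem fun g _ => KM.deg_map (g : E →+* E) hd)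
  have hσz : KM.map m σ z' = b.q • z' := by
    rw [hz', hS, map_sub, map_nsmul, hq, map_sum, smul_sub, Finset.smul_sum, smul_comm]
    congr 1
    refine Finset.sum_congr rfl fun g _ => ?_
    rw [KM.map_map, h.comm b ι hσ g, ← KM.map_map, hq, map_nsmul]
  obtain ⟨M, _, _, x, y, i, κ, hP, hE, hc, hX, hκ, hW⟩ := h.exists_embedding b ι
  have hi := i.injective
  have hrel : RelFrob b F (fun k => i (t k)) x y (fun j => (B j).val) (fun j => (A j).val) i σ := by
    refine ⟨?_, ?_, ?_, ?_⟩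
    · intro a e he
      have h1 : e = algebraMap F E a := hi (by rw [he, hc])
      rw [h1, hσ.const]
    · intro l e he
      have h1 : e = t l := hi he
      rw [h1, hσ.ft]
    · intro j e he
      have h1 : e = X j := hi (by rw [he, hX])
      rw [h1, hσ.fX]
    · intro e he
      have h1 : e = algebraMap F E (ι κ) * W := hi (by rw [he, hW])
      rw [h1, map_mul, hσ.const, hσ.fW, ← map_pow, ← map_pow, b.pow_q]
  have hnew : NewCls b F ι (fun k => i (t k)) x y (fun j => (B j).val) (fun j => (A j).val) i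
      z' := by
    intro g k g1 g2 g3 g4 hk
    rw [hz', hS]
    refine h.sum_new b ι hN z g k (fun a => g1 a _ (hc a)) (fun l => g2 l _ rfl)
      (fun j => g3 j _ (hX j)) ?_ hk
    have h1 := g4 _ hW
    rw [← hW, ← hc, ← map_pow, ← map_mul] at h1
    have h2 := hi h1
    rw [map_mul, g1 (ι κ) _ (hc _)] at h2
    have h3 : algebraMap F E (ι κ) ≠ 0 :=
      (_root_.map_ne_zero _).2 ((_root_.map_ne_zero _).2 hκ)
    apply mul_left_cancel₀ h3
    rw [h2]
    ring
  have h0 := hmain m F M E ι r (fun k => i (t k)) x y hP i hE σ hrel z' hdeg hu hnew hσz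
  obtain ⟨k, hk⟩ : Module.finrank (baseF F t X) E ∣ b.N.factorial :=
    Nat.dvd_factorial Module.finrank_pos hle
  have h1 : Fintype.card (E ≃ₐ[baseF F t X] E) • z = z' + S := by
    rw [hz', sub_add_cancel]
  have h2 : b.N.factorial * (C₀ * b.N.factorial) = (k * (C₀ * b.N.factorial)) *
      Fintype.card (E ≃ₐ[baseF F t X] E) := by
    rw [hcard]
    conv_lhs => rw [hk]
    rw [hk]
    ring
  rw [h2, mul_nsmul', h1, smul_add]
  have h3 : (k * (C₀ * b.N.factorial)) • z' = 0 := by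
    have : k * (C₀ * b.N.factorial) = (k * b.N.factorial) * C₀ := by ring
    rw [this, mul_nsmul', h0, nsmul_zero]
  have h4 : (k * (C₀ * b.N.factorial)) • S = 0 := by
    have : k * (C₀ * b.N.factorial) = (k * (C₀ * k)) * Module.finrank (baseF F t X) E := by
      rw [hk]
      ring
    rw [this, mul_nsmul', hS0, nsmul_zero]
  rw [h3, h4, add_zero]

end UnrG
end

section

/-!
# Monomial subfields of products of Fermat curves of prime degree
-/

namespace UnrG

universe u v w

open Polynomial Finset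
open scoped Classical

/-- Hint: if `p ^ j = -1` then the order of `p` divides `2 j`, so it divides `j` (it is odd), and
`1 = -1`, so `N = 2`. -/
lemma ne_neg_one_of_odd {p N : ℕ} [Fact N.Prime] (hN : N ≠ 2)
    (hodd : Odd (orderOf (p : ZMod N))) (j : ℕ) : (p : ZMod N) ^ j ≠ -1 := by
  intro h
  have h1 : (p : ZMod N) ^ (2 * j) = 1 := by
    rw [mul_comm, pow_mul, h]
    ring
  have h2 := orderOf_dvd_of_pow_eq_one h1
  have h3 : orderOf (p : ZMod N) ∣ j := (Nat.Coprime.dvd_mul_left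
    (Nat.Coprime.symm (Nat.coprime_two_left.2 hodd))).1 h2
  have h4 : (p : ZMod N) ^ j = 1 := orderOf_dvd_iff_pow_eq_one.1 h3
  rw [h4] at h
  have h5 : ((2 : ℕ) : ZMod N) = 0 := by
    push_cast
    linear_combination h
  have h6 : N ∣ 2 := (ZMod.natCast_eq_zero_iff _ _).1 h5
  exact hN ((Nat.prime_dvd_prime_iff_eq Fact.out Nat.prime_two).1 h6)

/-- Four nondegenerate curves with a Tate class. Proof: `CycProd.sys`, `bal_of_jacobi` (`n = 4`,
`c = 2`), `Sys.kills_one`; the total multiset is the sum over the four curves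
(`Fin.sum_univ_succ`). -/
theorem CycProd.kills_of_tate {𝔽 : Type} [Field 𝔽] [Fintype 𝔽] (b : Base 𝔽) (hN : b.N.Prime)
    {p e' : ℕ} [Fact p.Prime] [CharP 𝔽 p] (hcard : Fintype.card 𝔽 = p ^ e') (he : 0 < e')
    (hodd : Odd (orderOf (p : ZMod b.N))) {B A : Fin 4 → ZMod b.N}
    (hB : ∀ j, B j ≠ 0) (hA : ∀ j, A j ≠ 0) (hC : ∀ j, B j + A j ≠ 0) {χ : MulChar 𝔽 ℂ}
    (hχ : orderOf χ = b.N)
    (hJ : ∏ j, jacobiSum (χ ^ (B j).val) (χ ^ (A j).val) = (b.q : ℂ) ^ 2)
    {F E : Type u} [Field F] [hL : FixLe F p (4 * e' ^ 2)] [CharP F p] [Field E] [Algebra F E]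
    (hF : ∀ a : F, a ≠ 0 → ∃ n > 0, a ^ n = 1) {r : ℕ} {t : Fin r → E}
    {X : Fin 4 → E} {W : E} (h : CycProd b.N (F := F) t X W B A) :
    KillsU ((p ^ e').factorial * ((p ^ e').factorial * ((p ^ e').factorial * cK p e'))) 3 E := by
  have : Fact b.N.Prime := ⟨hN⟩
  have hN2 : b.N ≠ 2 := by
    intro h2
    have key : ∀ (N : ℕ) (_ : N = 2) (u v : ZMod N), u ≠ 0 → v ≠ 0 → u + v = 0 := by
      rintro N rfl
      decide
    exact hC 0 (key b.N h2 _ _ (hB 0) (hA 0))
  have : NegPow F b.N := hL.negPow Fact.out (by nlinarith [Nat.pow_pos (n := 2) he]) hN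
  have hneg := ne_neg_one_of_odd hN2 hodd
  have hJ' : ∏ j, jacobiSum (χ ^ (B j).val) (χ ^ (A j).val) = (Fintype.card 𝔽 : ℂ) ^ 2 := by
    rw [hJ, b.card_q]
  obtain ⟨hpe, hbal⟩ := bal_of_jacobi p hN hcard hB hA hC χ hχ hJ'
  obtain ⟨K₀, hS⟩ := h.sys
  have htot : tot (tripE (B 0) (A 0)) (fun j : Fin 3 => B j.succ) (fun j => A j.succ) =
      ∑ j, Multiset.map (tripE (B j) (A j)) Finset.univ.val := by
    rw [Fin.sum_univ_succ]
    rfl
  refine Sys.kills_one hF he hpe hneg hS (by rw [htot]; exact hbal) ?_ (by norm_num)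
  rw [htot]
  intro z hz
  rw [Multiset.mem_sum] at hz
  obtain ⟨j, -, hz⟩ := hz
  rw [Multiset.mem_map] at hz
  obtain ⟨c, -, rfl⟩ := hz
  fin_cases c
  · exact hB j
  · exact hA j
  · exact neg_ne_zero.2 (hC j)

/-- **Monomial subfields.** Proof: induction on `n`. If some `(B j, A j)` is `(0, 0)`, `CycProd.drop`,
`CycFrob.drop` and the induction hypothesis. If some `(B j, A j)` satisfies exactly one of `B j = 0`,
`A j = 0`, `B j + A j = 0`, then `CycProd.isPurely` and `KillsU.of_purely`, `C = 1`. Otherwise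
`CycProd.kills_of_tate` if `n = 4` and the product of Jacobi sums is `q ^ 2` for some `χ`, and
`CycProd.kills_of_ne` otherwise. -/
theorem CycProd.kills {𝔽 : Type} [Field 𝔽] [Fintype 𝔽] (b : Base 𝔽) (hN : b.N.Prime)
    {p : ℕ} [Fact p.Prime] [CharP 𝔽 p] (hodd : Odd (orderOf (p : ZMod b.N))) {n : ℕ}
    (B A : Fin n → ZMod b.N) :
    ∃ C S : ℕ, 0 < C ∧ 0 < S ∧ ∀ (F E : Type u) [Field F] [FixSp F p S] [CharP F p] [Field E]
      [Algebra F E] (_ : ∀ a : F, a ≠ 0 → ∃ n > 0, a ^ n = 1) (_ : 𝔽 →+* F) (r : ℕ)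
      (t : Fin r → E) (X : Fin n → E) (W : E) (_ : CycProd b.N (F := F) t X W B A)
      (σ : E →+* E) (_ : CycFrob b.q F t X W σ), KillsF C b.q E σ := by
  have : Fact b.N.Prime := ⟨hN⟩
  obtain ⟨e', hp', hcard0⟩ := FiniteField.card 𝔽 p
  induction n with
  | zero =>
    obtain ⟨C, hC, h⟩ := CycProd.kills_of_ne.{u} b hN (n := 0) (B := B) (A := A)
      (fun j => j.elim0) (fun j => j.elim0) (fun j => j.elim0) (fun h => absurd h (by norm_num))
    exact ⟨C, 1, hC, one_pos, fun F E _ _ _ _ _ => h F E⟩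
  | succ n ih =>
    by_cases h1 : ∃ j, B j = 0 ∧ A j = 0
    · obtain ⟨j, hBj, hAj⟩ := h1
      obtain ⟨C, S, hC, hS, h⟩ := ih (fun i => B (j.succAbove i)) (fun i => A (j.succAbove i))
      refine ⟨C, S, hC, hS, ?_⟩
      intro F E _ _ _ _ _ hF ι r t X W hW σ hσ
      exact h F E hF ι (r + 1) _ _ W (hW.drop j hBj hAj) σ (hσ.drop j)
    · by_cases h2 : ∃ j, B j = 0 ∨ A j = 0 ∨ B j + A j = 0
      · obtain ⟨j, hj⟩ := h2
        refine ⟨1, 1, one_pos, one_pos, ?_⟩
        intro F E _ _ _ _ _ hF ι r t X W hW σ hσ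
        obtain ⟨s, v, hv, hgen⟩ := hW.isPurely j (fun h => h1 ⟨j, h⟩) hj
        intro m z hz hd _
        exact KillsU.of_purely hF hv hgen (by norm_num) m z hz hd
      · have hB : ∀ j, B j ≠ 0 := fun j h => h2 ⟨j, Or.inl h⟩
        have hA : ∀ j, A j ≠ 0 := fun j h => h2 ⟨j, Or.inr (Or.inl h)⟩
        have hC : ∀ j, B j + A j ≠ 0 := fun j h => h2 ⟨j, Or.inr (Or.inr h)⟩
        by_cases h3 : n + 1 = 4 → ∀ χ : MulChar 𝔽 ℂ, orderOf χ = b.N →
            ∏ j, jacobiSum (χ ^ (B j).val) (χ ^ (A j).val) ≠ (b.q : ℂ) ^ 2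
        · obtain ⟨C, hC0, h⟩ := CycProd.kills_of_ne.{u} b hN hB hA hC h3
          exact ⟨C, 1, hC0, one_pos, fun F E _ _ _ _ _ => h F E⟩
        · push Not at h3
          obtain ⟨hn, χ, hχ, hJ⟩ := h3
          obtain rfl : n = 3 := by omega
          refine ⟨(p ^ (e' : ℕ)).factorial * ((p ^ (e' : ℕ)).factorial *
            ((p ^ (e' : ℕ)).factorial * cK p e')), (4 * (e' : ℕ) ^ 2).factorial, ?_,
            Nat.factorial_pos _, ?_⟩
          · have hp0 : 0 < p := hp'.pos
            unfold cK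
            positivity
          · intro F E _ _ _ _ _ hF ι r t X W hW σ hσ
            intro m z hz hd _
            have hL : FixLe F p (4 * (e' : ℕ) ^ 2) :=
              FixLe.of_fixSp Fact.out (Nat.factorial_pos _) dvd_rfl inferInstance
            exact CycProd.kills_of_tate b hN hcard0 e'.pos hodd hB hA hC hχ hJ hF hW m z hz hd

end UnrG
end

section

/-!
# Relations with two twisted pairs
-/

namespace UnrG

universe u v w

open Polynomial Finset

variable {N : ℕ} {F K : Type u} [Field F] [Field K] [Algebra F K]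

/-- Six terms. -/
theorem SysD.cycData [Fact N.Prime] {p : ℕ} {r l : ℕ} {t : Fin r → K} {Y : Fin (4 + 2) → K}
    {e : Fin (4 + 2) → ZMod N} {x : Fin l → K} {B A : Fin l → ZMod N} {δ w : K}
    {K₀ : IntermediateField F K} (h : SysD N t Y e x B A δ w K₀)
    {k₁ k₂ : ℕ} (hk₁ : 0 < k₁) (hk₂ : 0 < k₂)
    (h1 : e 1 = -(p : ZMod N) ^ k₁ * e 0) (h2 : e 3 = -(p : ZMod N) ^ k₂ * e 2)
    (h4 : e 4 ≠ 0) :
    ∃ w' : K, CycData p N k₁ k₂ (F := F) (Fin.append t x) (nY Y 1) w' (nE δ x B A)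
      (fun i => (e i).val) := by
  have hN : N.Prime := Fact.out
  obtain ⟨w', hw', hgen⟩ := h.exists_w 1
  have hval : ∀ z : ZMod N, ((z.val : ℕ) : ZMod N) = z := fun z => ZMod.natCast_zmod_val z
  refine ⟨w', ?_⟩
  refine ⟨hN.pos, hk₁, hk₂, ?_, ?_, ?_, fun i => (h.nY_ne 1 i).1, (h.nY_ne 1 0).2, h.nY_sum 1,
    h.nE_mem.1, h.nE_mem.2, hw', h.ind' 1, hgen⟩
  · rw [← ZMod.natCast_eq_zero_iff]
    push_cast
    rw [hval, hval, h1]
    ring
  · rw [← ZMod.natCast_eq_zero_iff]
    push_cast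
    rw [hval, hval, h2]
    ring
  · rw [Nat.coprime_comm, hN.coprime_iff_not_dvd]
    intro h5
    have h6 : (e 4).val = 0 := Nat.eq_zero_of_dvd_of_lt h5 (ZMod.val_lt _)
    exact h4 ((ZMod.val_eq_zero _).1 h6)

/-- At least six terms, two twisted pairs. -/
theorem SysD.kills_pairs {p : ℕ} [Fact p.Prime] [CharP F p] [Fact N.Prime]
    (hF : ∀ a : F, a ≠ 0 → ∃ n > 0, a ^ n = 1) {k₁ k₂ s : ℕ} [FixSp F p (k₁ * k₂)] (hk₁ : 0 < k₁)
    (hk₂ : 0 < k₂) (hs : k₁ * k₂ ≤ s) {j : ℕ} (hj : 2 ≤ j) {l : ℕ} {x : Fin l → K} {B A : Fin l → ZMod N}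
    {w : K} {K₀ : IntermediateField F K} :
    ∀ (d : ℕ) (hd : 4 ≤ d) {r : ℕ} {t : Fin r → K} {Y : Fin (d + 2) → K}
      {e : Fin (d + 2) → ZMod N} {δ : K} (_ : SysD N t Y e x B A δ w K₀)
      (_ : e ⟨1, by omega⟩ = -(p : ZMod N) ^ k₁ * e ⟨0, by omega⟩)
      (_ : e ⟨3, by omega⟩ = -(p : ZMod N) ^ k₂ * e ⟨2, by omega⟩)
      (_ : e ⟨4, by omega⟩ ≠ 0),
      KillsU (((p ^ s) ^ 2).factorial * (p ^ s * ((p ^ s) ^ 2).factorial)) j K := by
  intro d
  induction d with
  | zero => intro hd; omega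
  | succ d ih =>
    intro hd r t Y e δ h h1 h2 h4
    by_cases hd3 : d = 3
    · subst hd3
      obtain ⟨w', hw'⟩ := h.cycData hk₁ hk₂ (p := p) h1 h2 h4
      intro m z hz hd
      have h3 := hw'.unr (any m) hF hj hz hd
      have hp : 0 < p := (Fact.out : p.Prime).pos
      have h4 : p ^ (k₁ * k₂) ∣ p ^ s := pow_dvd_pow p hs
      have h5 : ((p ^ (k₁ * k₂)) ^ 2).factorial ∣ ((p ^ s) ^ 2).factorial :=
        Nat.factorial_dvd_factorial (Nat.pow_le_pow_left (Nat.pow_le_pow_right hp hs) 2)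
      obtain ⟨k, hk⟩ : (((p ^ (k₁ * k₂)) ^ 2).factorial *
          (p ^ (k₁ * k₂) * ((p ^ (k₁ * k₂)) ^ 2).factorial)) ∣
          (((p ^ s) ^ 2).factorial * (p ^ s * ((p ^ s) ^ 2).factorial)) :=
        mul_dvd_mul h5 (mul_dvd_mul h4 h5)
      rw [hk, mul_comm, mul_nsmul', h3, nsmul_zero]
    · have hN0 : NeZero N := ⟨(Fact.out : N.Prime).ne_zero⟩
      obtain ⟨t', S, δ', h'⟩ := h.merge
      have hv : ∀ (k : ℕ) (hk : k < d + 1),
          (Fin.snoc (α := fun _ => ZMod N) (fun i : Fin (d + 1) => e i.castSucc.castSucc)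
            (e (Fin.last (d + 1)).castSucc + e (Fin.last (d + 2)))) ⟨k, by omega⟩ =
          e ⟨k, by omega⟩ := fun k hk => Fin.snoc_castSucc (α := fun _ => ZMod N) _ _ ⟨k, hk⟩
      refine ih (by omega) h' ?_ ?_ ?_
      · rw [hv 1 (by omega), hv 0 (by omega)]
        exact h1
      · rw [hv 3 (by omega), hv 2 (by omega)]
        exact h2
      · rw [hv 4 (by omega)]
        exact h4

private lemma R3_step {n : ℕ} (π : Equiv.Perm (Fin n)) (k i : Fin n) :
    ∃ π' : Equiv.Perm (Fin n), π' k = i ∧ ∀ j, j ≠ k → π j ≠ i → π' j = π j := by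
  refine ⟨π.trans (Equiv.swap (π k) i), ?_, ?_⟩
  · rw [Equiv.trans_apply, Equiv.swap_apply_left]
  · intro j hj hji
    rw [Equiv.trans_apply]
    exact Equiv.swap_apply_of_ne_of_ne (fun h => hj (π.injective h)) hji

/-- Four distinct indices are the images of the first four by a permutation. -/
lemma exists_perm_first {n : ℕ} (hn : 4 ≤ n) {i₀ i₁ i₂ i₃ : Fin n} (h : [i₀, i₁, i₂, i₃].Nodup) :
    ∃ π : Equiv.Perm (Fin n), π ⟨0, by omega⟩ = i₀ ∧ π ⟨1, by omega⟩ = i₁ ∧
      π ⟨2, by omega⟩ = i₂ ∧ π ⟨3, by omega⟩ = i₃ := by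
  simp only [List.nodup_cons, List.mem_cons, List.not_mem_nil, or_false, not_or,
    not_false_eq_true, List.nodup_nil, and_true] at h
  obtain ⟨⟨h01, h02, h03⟩, ⟨h12, h13⟩, h23⟩ := h
  have hne : ∀ (a b : ℕ) (ha : a < n) (hb : b < n), a ≠ b → (⟨a, ha⟩ : Fin n) ≠ ⟨b, hb⟩ :=
    fun a b ha hb hab h => hab (congrArg Fin.val h)
  obtain ⟨π₀, p0, -⟩ := R3_step 1 ⟨0, by omega⟩ i₀
  obtain ⟨π₁, q1, q⟩ := R3_step π₀ ⟨1, by omega⟩ i₁
  have q0 : π₁ ⟨0, by omega⟩ = i₀ := by
    rw [q _ (hne _ _ _ _ (by norm_num)) (by rw [p0]; exact h01), p0]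
  obtain ⟨π₂, r2, r⟩ := R3_step π₁ ⟨2, by omega⟩ i₂
  have r0 : π₂ ⟨0, by omega⟩ = i₀ := by
    rw [r _ (hne _ _ _ _ (by norm_num)) (by rw [q0]; exact h02), q0]
  have r1 : π₂ ⟨1, by omega⟩ = i₁ := by
    rw [r _ (hne _ _ _ _ (by norm_num)) (by rw [q1]; exact h12), q1]
  obtain ⟨π₃, s3, s⟩ := R3_step π₂ ⟨3, by omega⟩ i₃
  refine ⟨π₃, ?_, ?_, ?_, s3⟩
  · rw [s _ (hne _ _ _ _ (by norm_num)) (by rw [r0]; exact h03), r0]
  · rw [s _ (hne _ _ _ _ (by norm_num)) (by rw [r1]; exact h13), r1]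
  · rw [s _ (hne _ _ _ _ (by norm_num)) (by rw [r2]; exact h23), r2]

/-- Balanced main block. -/
theorem SysD.kills_of_bal {p : ℕ} [Fact p.Prime] [CharP F p] [Fact N.Prime]
    (hF : ∀ a : F, a ≠ 0 → ∃ n > 0, a ^ n = 1) {e' : ℕ} [hL : FixLe F p (4 * e' ^ 2)]
    (he : 0 < e')
    (hpe : (p : ZMod N) ^ e' = 1) (hneg : ∀ j : ℕ, (p : ZMod N) ^ j ≠ -1) {d : ℕ} (hd : 1 ≤ d)
    {r l : ℕ} {t : Fin r → K} {Y : Fin (d + 2) → K} {e : Fin (d + 2) → ZMod N} {x : Fin l → K}
    {B A : Fin l → ZMod N} {δ w : K} {K₀ : IntermediateField F K}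
    (h : SysD N t Y e x B A δ w K₀) (h0 : ∀ i, e i ≠ 0)
    (hb : Bal p e' (Multiset.map e Finset.univ.val)) {j : ℕ} (hj : 2 ≤ j) :
    KillsU (cK p e') j K := by
  have heven : Even (d + 2) := by
    have h1 := hb.even_card he hpe hneg (fun z hz => by
      obtain ⟨i, -, rfl⟩ := Multiset.mem_map.1 hz
      exact h0 i)
    rw [Multiset.card_map] at h1
    change Even (Finset.card (Finset.univ : Finset (Fin (d + 2)))) at h1
    rwa [Finset.card_univ, Fintype.card_fin] at h1
  have hd2 : 2 ≤ d := by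
    obtain ⟨k, hk⟩ := heven
    omega
  obtain ⟨i₀, i₁, i₂, i₃, hi, ⟨k₁, hk₁, hk₁', h1⟩, k₂, hk₂, hk₂', h2⟩ :=
    exists_two_pairs he hpe hneg (by omega) hb h0
  have hs : k₁ * k₂ ≤ 4 * e' ^ 2 := by
    calc k₁ * k₂ ≤ (2 * e') * (2 * e') := Nat.mul_le_mul hk₁' hk₂'
      _ = 4 * e' ^ 2 := by ring
  have : FixSp F p (k₁ * k₂) := hL.fix _ (Nat.mul_pos hk₁ hk₂) hs
  rcases Nat.lt_or_ge d 4 with hd4 | hd4
  · have hd3 : d = 2 := by
      obtain ⟨k, hk⟩ := heven
      omega
    subst hd3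
    exact h.kills_four hF h0 hi hk₁ hk₂ hs h1 h2 hj
  · obtain ⟨π, p0, p1, p2, p3⟩ := exists_perm_first (by omega) hi
    refine SysD.kills_pairs hF hk₁ hk₂ hs hj d hd4 (h.permY π) ?_ ?_ (h0 _)
    · rw [p0, p1]
      exact h1
    · rw [p2, p3]
      exact h2

/-- **The gluing process.** -/
theorem SysD.kills {p : ℕ} [Fact p.Prime] [CharP F p] [Fact N.Prime]
    (hF : ∀ a : F, a ≠ 0 → ∃ n > 0, a ^ n = 1) {e' : ℕ} [hL : FixLe F p (4 * e' ^ 2)]
    (he : 0 < e')
    (hpe : (p : ZMod N) ^ e' = 1) (hneg : ∀ j : ℕ, (p : ZMod N) ^ j ≠ -1) {j : ℕ}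
    (hj : 2 ≤ j) :
    ∀ (l : ℕ) {K : Type u} [Field K] [Algebra F K] {d : ℕ} (_ : 1 ≤ d)
      {r : ℕ} {t : Fin r → K} {Y : Fin (d + 2) → K} {e : Fin (d + 2) → ZMod N} {x : Fin l → K}
      {B A : Fin l → ZMod N} {δ w : K} {K₀ : IntermediateField F K}
      (_ : SysD N t Y e x B A δ w K₀) (_ : Bal p e' (tot e B A)) (_ : ∀ z ∈ tot e B A, z ≠ 0),
      KillsU ((p ^ e').factorial ^ l * cK p e') j K := by
  have : NegPow F N := hL.negPow Fact.out (by nlinarith [Nat.pow_pos (n := 2) he]) Fact.out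
  intro l
  induction l with
  | zero =>
    intro K _ _ d hd r t Y e x B A δ w K₀ h hb h0
    have htot : tot e B A = Multiset.map e Finset.univ.val := by
      unfold tot
      rw [Finset.univ_eq_empty (α := Fin 0), Finset.sum_empty, add_zero]
    rw [htot] at hb h0
    rw [pow_zero, one_mul]
    exact h.kills_of_bal hF he hpe hneg hd
      (fun i => h0 _ (Multiset.mem_map_of_mem e (Finset.mem_univ i))) hb hj
  | succ l ih =>
    intro K _ _ d hd r t Y e x B A δ w K₀ h hb h0
    by_cases hR : Bal p e' (Multiset.map e Finset.univ.val)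
    · have h1 := h.kills_of_bal hF he hpe hneg hd
        (fun i => h0 _ (Multiset.mem_add.2 (Or.inl (Multiset.mem_map_of_mem e
          (Finset.mem_univ i))))) hR hj
      exact h1.of_dvd (Dvd.dvd.mul_left dvd_rfl _)
    · have hc := (Bal.cross he hpe hb).resolve_left hR
      obtain ⟨K', _, _, _, _, hfd, hle, t', Y', g, x', B', A', δ', w', K₁, hS, hb', h0'⟩ :=
        h.step he hpe hb h0 hc
      have h1 : KillsU ((p ^ e').factorial ^ l * cK p e') j K' :=
        ih (by omega) hS hb' h0'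
      have h2 := h1.of_finite hle
      rw [pow_succ', mul_assoc]
      exact h2

end UnrG
end

section

/-!
# Monomial subfields of families of products of Fermat curves of prime degree
-/

namespace UnrG

universe u v w

open Polynomial Finset
open scoped Classical

/-- A curve which does not occur can be dropped. -/
lemma isBalanced_drop {p N n : ℕ} {B A : Fin (n + 1) → ZMod N} (j : Fin (n + 1))
    (hB : B j = 0) (hA : A j = 0) :
    IsBalanced p (fun i => B (j.succAbove i)) (fun i => A (j.succAbove i)) ↔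
      IsBalanced p B A := by
  have key : ∀ c : ZMod N, c ≠ 0 →
      Nat.card {i : Fin n × Fin 3 // ∃ s : ℕ, (p : ZMod N) ^ s *
        tripE (B (j.succAbove i.1)) (A (j.succAbove i.1)) i.2 = c} =
      Nat.card {i : Fin (n + 1) × Fin 3 // ∃ s : ℕ, (p : ZMod N) ^ s *
        tripE (B i.1) (A i.1) i.2 = c} := by
    intro c hc
    refine Nat.card_congr (Equiv.ofBijective
      (fun i => ⟨(j.succAbove i.1.1, i.1.2), i.2⟩) ⟨?_, ?_⟩)
    · rintro ⟨⟨i, k⟩, hi⟩ ⟨⟨i', k'⟩, hi'⟩ h
      have h1 := congrArg (fun z => z.1) h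
      have h2 : (j.succAbove i, k) = (j.succAbove i', k') := h1
      rw [Prod.mk.injEq] at h2
      have h3 := Fin.succAbove_right_injective h2.1
      apply Subtype.ext
      exact Prod.ext h3 h2.2
    · rintro ⟨⟨i, k⟩, s, hs⟩
      have hij : i ≠ j := by
        rintro rfl
        apply hc
        have h1 : tripE (B i) (A i) k = 0 := by
          rw [hB, hA]
          fin_cases k
          · rfl
          · rfl
          · change -((0 : ZMod N) + 0) = 0
            ring
        have hs' : (p : ZMod N) ^ s * tripE (B i) (A i) k = c := hs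
        rw [← hs', h1, mul_zero]
      obtain ⟨i', rfl⟩ := Fin.exists_succAbove_eq hij
      exact ⟨⟨(i', k), s, hs⟩, rfl⟩
  constructor
  · intro h c hc
    rw [← key c hc, ← key (-c) (neg_ne_zero.2 hc)]
    exact h c hc
  · intro h c hc
    rw [key c hc, key (-c) (neg_ne_zero.2 hc)]
    exact h c hc

/-- The coefficient is an `N`-th power. -/
lemma CycProdD.toCyc {N : ℕ} {F E : Type u} [Field F] [Field E] [Algebra F E] {r n : ℕ}
    {t : Fin r → E} {X : Fin n → E} {D W : E} {B A : Fin n → ZMod N}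
    (h : CycProdD N (F := F) t X D W B A) (hN : 0 < N) {β : E}
    (hβ : β ∈ IntermediateField.adjoin F (Set.range t)) (hD : D = β ^ N) :
    CycProd N (F := F) t X (W / β) B A := by
  have hβ0 : β ≠ 0 := by
    rintro rfl
    rw [zero_pow hN.ne'] at hD
    exact h.D_ne hD
  refine ⟨h.ind, ?_, ?_⟩
  · rw [div_pow, h.eq, ← hD, mul_div_cancel_left₀ _ h.D_ne]
  · rw [eq_top_iff, ← h.gen, IntermediateField.adjoin_le_iff]
    rintro z (hz | hz)
    · exact IntermediateField.subset_adjoin F _ (Or.inl hz)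
    · rw [Set.mem_singleton_iff] at hz
      have h1 : W / β * β ∈ IntermediateField.adjoin F (Set.range t ∪ Set.range X ∪ {W / β}) := by
        refine mul_mem (IntermediateField.subset_adjoin F _ (Or.inr rfl)) ?_
        refine (IntermediateField.adjoin.mono F _ _ ?_) hβ
        exact Set.subset_union_left.trans Set.subset_union_left
      rw [div_mul_cancel₀ _ hβ0] at h1
      rw [hz]
      exact h1

/-- **Monomial subfields of families.** -/
theorem CycProdD.kills {𝔽 : Type} [Field 𝔽] [Fintype 𝔽] (b : Base 𝔽) (hN : b.N.Prime)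
    {p : ℕ} [Fact p.Prime] [CharP 𝔽 p] (hodd : Odd (orderOf (p : ZMod b.N))) {n : ℕ}
    (B A : Fin n → ZMod b.N) :
    ∃ C S : ℕ, 0 < C ∧ 0 < S ∧ ∀ (F E : Type u) [Field F] [FixSp F p S] [CharP F p] [Field E]
      [Algebra F E] (_ : ∀ a : F, a ≠ 0 → ∃ n > 0, a ^ n = 1) (_ : 𝔽 →+* F) (r : ℕ)
      (t : Fin r → E) (X : Fin n → E) (D W : E) (_ : CycProdD b.N (F := F) t X D W B A)
      (σ : E →+* E) (_ : CycFrob b.q F t X W σ)
      (_ : IsNondegenerate B A → (¬ IsBalanced p B A ∨ (B = 0 ∧ A = 0)) →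
        ∃ β ∈ IntermediateField.adjoin F (Set.range t), σ β = β ∧ D = β ^ b.N),
      KillsF C b.q E σ := by
  have : Fact b.N.Prime := ⟨hN⟩
  obtain ⟨e', hp', hcard0⟩ := FiniteField.card 𝔽 p
  have hpe : (p : ZMod b.N) ^ (e' : ℕ) = 1 := by
    have h1 : ((Fintype.card 𝔽 : ℕ) : ZMod b.N) = 1 := by
      rw [b.card]
      push_cast
      rw [ZMod.natCast_self, zero_mul, zero_add]
    rw [hcard0] at h1
    push_cast at h1
    exact h1
  induction n with
  | zero =>
    obtain ⟨C, hC, h⟩ := CycProd.kills_of_ne.{u} b hN (n := 0) (B := B) (A := A)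
      (fun j => j.elim0) (fun j => j.elim0) (fun j => j.elim0) (fun h => absurd h (by norm_num))
    refine ⟨C, 1, hC, one_pos, ?_⟩
    intro F E _ _ _ _ _ hF ι r t X D W hW σ hσ hβ
    obtain ⟨β, hβ, hσβ, hD⟩ := hβ (fun j => j.elim0)
      (Or.inr ⟨Subsingleton.elim _ _, Subsingleton.elim _ _⟩)
    exact h F E hF ι r t X _ (hW.toCyc b.N_pos hβ hD) σ
      ⟨hσ.const, hσ.ft, hσ.fX, by rw [map_div₀, hσ.fW, hσβ]⟩
  | succ n ih =>
    by_cases h1 : ∃ j, B j = 0 ∧ A j = 0
    · obtain ⟨j, hBj, hAj⟩ := h1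
      obtain ⟨C, S, hC, hS, h⟩ := ih (fun i => B (j.succAbove i)) (fun i => A (j.succAbove i))
      refine ⟨C, S, hC, hS, ?_⟩
      intro F E _ _ _ _ _ hF ι r t X D W hW σ hσ hβ
      refine h F E hF ι (r + 1) _ _ D W (hW.drop j hBj hAj) σ (hσ.drop j) ?_
      intro hnd hb
      have hnd' : IsNondegenerate B A := by
        intro i
        by_cases hij : i = j
        · rw [hij]
          exact Or.inl ⟨hBj, hAj⟩
        · obtain ⟨i', rfl⟩ := Fin.exists_succAbove_eq hij
          exact hnd i'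
      have hzero : ((fun i => B (j.succAbove i)) = 0 ∧ (fun i => A (j.succAbove i)) = 0) →
          B = 0 ∧ A = 0 := by
        rintro ⟨h2, h3⟩
        constructor
        · funext i
          by_cases hij : i = j
          · rw [hij]
            exact hBj
          · obtain ⟨i', rfl⟩ := Fin.exists_succAbove_eq hij
            exact congrFun h2 i'
        · funext i
          by_cases hij : i = j
          · rw [hij]
            exact hAj
          · obtain ⟨i', rfl⟩ := Fin.exists_succAbove_eq hij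
            exact congrFun h3 i'
      obtain ⟨β, hβ, hσβ, hD⟩ := hβ hnd' (by
        rcases hb with hb | hb
        · exact Or.inl fun h4 => hb ((isBalanced_drop j hBj hAj).2 h4)
        · exact Or.inr (hzero hb))
      refine ⟨β, ?_, hσβ, hD⟩
      refine (IntermediateField.adjoin.mono F _ _ ?_) hβ
      rintro z ⟨i, rfl⟩
      exact ⟨i.castSucc, Fin.snoc_castSucc _ _ _⟩
    · by_cases h2 : ∃ j, B j = 0 ∨ A j = 0 ∨ B j + A j = 0
      · obtain ⟨j, hj⟩ := h2
        refine ⟨1, 1, one_pos, one_pos, ?_⟩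
        intro F E _ _ _ _ _ hF ι r t X D W hW σ hσ _
        obtain ⟨s, v, hv, hgen⟩ := hW.isPurely j (fun h => h1 ⟨j, h⟩) hj
        intro m z hz hd _
        exact KillsU.of_purely hF hv hgen (by norm_num) m z hz hd
      · have hB : ∀ j, B j ≠ 0 := fun j h => h2 ⟨j, Or.inl h⟩
        have hA : ∀ j, A j ≠ 0 := fun j h => h2 ⟨j, Or.inr (Or.inl h)⟩
        have hC : ∀ j, B j + A j ≠ 0 := fun j h => h2 ⟨j, Or.inr (Or.inr h)⟩
        have hnd : IsNondegenerate B A := fun j => Or.inr ⟨hB j, hA j, hC j⟩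
        have hN2 : b.N ≠ 2 := by
          intro h2
          have key : ∀ (N : ℕ) (_ : N = 2) (u v : ZMod N), u ≠ 0 → v ≠ 0 → u + v = 0 := by
            rintro N rfl
            decide
          exact hC 0 (key b.N h2 _ _ (hB 0) (hA 0))
        have hneg := ne_neg_one_of_odd hN2 hodd
        have hiff := bal_iff_isBalanced (p := p) e'.pos hpe B A
        by_cases hbal : IsBalanced p B A
        · refine ⟨(p ^ (e' : ℕ)).factorial ^ n * cK p e', (4 * (e' : ℕ) ^ 2).factorial, ?_,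
            Nat.factorial_pos _, ?_⟩
          · have hp0 : 0 < p := hp'.pos
            unfold cK
            positivity
          · intro F E _ _ _ _ _ hF ι r t X D W hW σ hσ _
            intro m z hz hd _
            have hL : FixLe F p (4 * (e' : ℕ) ^ 2) :=
              FixLe.of_fixSp Fact.out (Nat.factorial_pos _) dvd_rfl inferInstance
            have hNP : NegPow F b.N :=
              hL.negPow Fact.out (by nlinarith [Nat.pow_pos (n := 2) e'.pos]) hN
            obtain ⟨K₀, hS⟩ := hW.sys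
            have htot : tot (tripE (B 0) (A 0)) (fun j : Fin n => B j.succ)
                (fun j => A j.succ) =
                ∑ j, Multiset.map (tripE (B j) (A j)) Finset.univ.val := by
              rw [Fin.sum_univ_succ]
              rfl
            refine SysD.kills hF e'.pos hpe hneg (by norm_num) n le_rfl hS
              (by rw [htot]; exact hiff.2 hbal) ?_ m z hz hd
            rw [htot]
            intro z hz
            rw [Multiset.mem_sum] at hz
            obtain ⟨j, -, hz⟩ := hz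
            rw [Multiset.mem_map] at hz
            obtain ⟨c, -, rfl⟩ := hz
            fin_cases c
            · exact hB j
            · exact hA j
            · exact neg_ne_zero.2 (hC j)
        · have hne : n + 1 = 4 → ∀ χ : MulChar 𝔽 ℂ, orderOf χ = b.N →
              ∏ j, jacobiSum (χ ^ (B j).val) (χ ^ (A j).val) ≠ (b.q : ℂ) ^ 2 := by
            intro _ χ hχ hJ
            rw [← b.card_q] at hJ
            exact hbal (hiff.1 (bal_of_jacobi p hN hcard0 hB hA hC χ hχ hJ).2)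
          obtain ⟨C, hC0, h⟩ := CycProd.kills_of_ne.{u} b hN hB hA hC hne
          refine ⟨C, 1, hC0, one_pos, ?_⟩
          intro F E _ _ _ _ _ hF ι r t X D W hW σ hσ hβ
          obtain ⟨β, hβ, hσβ, hD⟩ := hβ hnd (Or.inl hbal)
          exact h F E hF ι r t X _ (hW.toCyc b.N_pos hβ hD) σ
            ⟨hσ.const, hσ.ft, hσ.fX, by rw [map_div₀, hσ.fW, hσβ]⟩

end UnrG
end
end

section

section

/-!
# Monomial subfields of families of products of Fermat curves, all primes
-/

namespace UnrG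

universe u v w

open Polynomial Finset
open scoped Classical

/-- An element of even order in the multiplicative group of a prime field has `-1` as a power. -/
lemma exists_pow_eq_neg_one {N : ℕ} [Fact N.Prime] {x : ZMod N} (hx : 0 < orderOf x)
    (he : ¬ Odd (orderOf x)) : ∃ s : ℕ, 0 < s ∧ x ^ s = -1 := by
  obtain ⟨s, hs⟩ := Nat.not_odd_iff_even.1 he
  have h1 : (x ^ s) ^ 2 = 1 := by
    rw [← pow_mul, mul_two, ← hs, pow_orderOf_eq_one]
  have hs0 : 0 < s := by omega
  have h1' : (x ^ s - 1) * (x ^ s + 1) = 0 := by linear_combination h1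
  rcases mul_eq_zero.1 h1' with h2 | h2
  · exfalso
    have h3 := Nat.le_of_dvd hs0 (orderOf_dvd_of_pow_eq_one (sub_eq_zero.1 h2))
    omega
  · exact ⟨s, hs0, eq_neg_of_add_eq_zero_left h2⟩

/-- **Monomial subfields of families**, all primes. -/
theorem CycProdD.kills_all {𝔽 : Type} [Field 𝔽] [Fintype 𝔽] (b : Base 𝔽) (hN : b.N.Prime)
    {p : ℕ} [Fact p.Prime] [CharP 𝔽 p] {n : ℕ} (B A : Fin n → ZMod b.N) :
    ∃ C S : ℕ, 0 < C ∧ 0 < S ∧ ∀ (F E : Type u) [Field F] [FixSp F p S] [CharP F p] [Field E]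
      [Algebra F E] (_ : ∀ a : F, a ≠ 0 → ∃ n > 0, a ^ n = 1) (_ : 𝔽 →+* F) (r : ℕ)
      (t : Fin r → E) (X : Fin n → E) (D W : E) (_ : CycProdD b.N (F := F) t X D W B A)
      (σ : E →+* E) (_ : CycFrob b.q F t X W σ)
      (_ : IsNondegenerate B A →
        (¬ IsBalanced p B A ∨ ∀ i j, B i ≠ 0 → B j ≠ 0 → i = j) →
        ∃ β ∈ IntermediateField.adjoin F (Set.range t), σ β = β ∧ D = β ^ b.N),
      KillsF C b.q E σ := by
  have : Fact b.N.Prime := ⟨hN⟩
  by_cases hodd : Odd (orderOf (p : ZMod b.N))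
  · obtain ⟨C, S, hC, hS, h⟩ := CycProdD.kills.{u} b hN hodd B A
    refine ⟨C, S, hC, hS, ?_⟩
    intro F E _ _ _ _ _ hF ι r t X D W hW σ hσ hβ
    refine h F E hF ι r t X D W hW σ hσ fun hnd hb => hβ hnd ?_
    rcases hb with hb | hb
    · exact Or.inl hb
    · refine Or.inr fun i j hi _ => absurd ?_ hi
      rw [hb.1]
      rfl
  · obtain ⟨e', hp', hcard0⟩ := FiniteField.card 𝔽 p
    have hpe : (p : ZMod b.N) ^ (e' : ℕ) = 1 := by
      have h1 : ((Fintype.card 𝔽 : ℕ) : ZMod b.N) = 1 := by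
        rw [b.card]
        push_cast
        rw [ZMod.natCast_self, zero_mul, zero_add]
      rw [hcard0] at h1
      push_cast at h1
      exact h1
    have hord : 0 < orderOf (p : ZMod b.N) :=
      orderOf_pos_iff.2 (isOfFinOrder_iff_pow_eq_one.2 ⟨e', e'.pos, hpe⟩)
    obtain ⟨s, hs, hps⟩ := exists_pow_eq_neg_one hord hodd
    obtain ⟨N', hN'⟩ : b.N ∣ p ^ s + 1 := by
      rw [← ZMod.natCast_eq_zero_iff]
      push_cast
      rw [hps, neg_add_cancel]
    rw [mul_comm] at hN'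
    induction n with
    | zero =>
      obtain ⟨C, hC, h⟩ := CycProd.kills_of_ne.{u} b hN (n := 0) (B := B) (A := A)
        (fun j => j.elim0) (fun j => j.elim0) (fun j => j.elim0)
        (fun h => absurd h (by norm_num))
      refine ⟨C, 1, hC, one_pos, ?_⟩
      intro F E _ _ _ _ _ hF ι r t X D W hW σ hσ hβ
      obtain ⟨β, hβ, hσβ, hD⟩ := hβ (fun j => j.elim0) (Or.inr fun i => i.elim0)
      exact h F E hF ι r t X _ (hW.toCyc b.N_pos hβ hD) σ
        ⟨hσ.const, hσ.ft, hσ.fX, by rw [map_div₀, hσ.fW, hσβ]⟩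
    | succ n ih =>
      by_cases h1 : ∃ j, B j = 0 ∧ A j = 0
      · obtain ⟨j, hBj, hAj⟩ := h1
        obtain ⟨C, S, hC, hS, h⟩ := ih (fun i => B (j.succAbove i)) (fun i => A (j.succAbove i))
        refine ⟨C, S, hC, hS, ?_⟩
        intro F E _ _ _ _ _ hF ι r t X D W hW σ hσ hβ
        refine h F E hF ι (r + 1) _ _ D W (hW.drop j hBj hAj) σ (hσ.drop j) ?_
        intro hnd hb
        have hnd' : IsNondegenerate B A := by
          intro i
          by_cases hij : i = j
          · rw [hij]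
            exact Or.inl ⟨hBj, hAj⟩
          · obtain ⟨i', rfl⟩ := Fin.exists_succAbove_eq hij
            exact hnd i'
        obtain ⟨β, hβ, hσβ, hD⟩ := hβ hnd' (by
          rcases hb with hb | hb
          · exact Or.inl fun h4 => hb ((isBalanced_drop j hBj hAj).2 h4)
          · refine Or.inr fun i i' hi hi' => ?_
            have hij : i ≠ j := by
              rintro rfl
              exact hi hBj
            have hij' : i' ≠ j := by
              rintro rfl
              exact hi' hBj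
            obtain ⟨l, rfl⟩ := Fin.exists_succAbove_eq hij
            obtain ⟨l', rfl⟩ := Fin.exists_succAbove_eq hij'
            rw [hb l l' hi hi'])
        refine ⟨β, ?_, hσβ, hD⟩
        refine (IntermediateField.adjoin.mono F _ _ ?_) hβ
        rintro z ⟨i, rfl⟩
        exact ⟨i.castSucc, Fin.snoc_castSucc _ _ _⟩
      · by_cases h2 : ∃ j, B j = 0 ∨ A j = 0 ∨ B j + A j = 0
        · obtain ⟨j, hj⟩ := h2
          refine ⟨1, 1, one_pos, one_pos, ?_⟩
          intro F E _ _ _ _ _ hF ι r t X D W hW σ hσ _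
          obtain ⟨s, v, hv, hgen⟩ := hW.isPurely j (fun h => h1 ⟨j, h⟩) hj
          intro m z hz hd _
          exact KillsU.of_purely hF hv hgen (by norm_num) m z hz hd
        · have hB : ∀ j, B j ≠ 0 := fun j h => h2 ⟨j, Or.inl h⟩
          have hA : ∀ j, A j ≠ 0 := fun j h => h2 ⟨j, Or.inr (Or.inl h)⟩
          have hC : ∀ j, B j + A j ≠ 0 := fun j h => h2 ⟨j, Or.inr (Or.inr h)⟩
          cases n with
          | zero =>
            obtain ⟨C, hC0, h⟩ := CycProd.kills_of_ne.{u} b hN hB hA hC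
              (fun h => absurd h (by norm_num))
            refine ⟨C, 1, hC0, one_pos, ?_⟩
            intro F E _ _ _ _ _ hF ι r t X D W hW σ hσ hβ
            obtain ⟨β, hβ, hσβ, hD⟩ := hβ (fun j => Or.inr ⟨hB j, hA j, hC j⟩)
              (Or.inr fun i j _ _ => Fin.ext (by omega))
            exact h F E hF ι r t X _ (hW.toCyc b.N_pos hβ hD) σ
              ⟨hσ.const, hσ.ft, hσ.fX, by rw [map_div₀, hσ.fW, hσβ]⟩
          | succ n =>
            refine ⟨((p ^ s + 1) ^ 4).factorial * (p ^ s * ((p ^ s + 1) *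
              ((p ^ s).factorial * ((p ^ s) ^ 2).factorial)) * b.N), 2 * s, ?_, by omega, ?_⟩
            · have hp0 : 0 < p := hp'.pos
              have hb0 := b.N_pos
              positivity
            · intro F E _ _ _ _ _ hF ι r t X D W hW σ hσ _
              intro m z hz hd _
              exact hW.kills_even hs hN' hF (hB 0) (hB 1) (by norm_num) m z hz hd

end UnrG
end

section

/-!
# The gluing process
-/

namespace UnrA.Fer

open UnrG

universe u v w z

open Polynomial Finset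
open scoped Classical

variable {m : UFun.{u, z}}

section

variable {N : ℕ} {F K : Type u} [Field F] [Field K] [Algebra F K] {r l : ℕ} {t : Fin r → K}
  {Y : Fin (2 + 2) → K} {e : Fin (2 + 2) → ZMod N} {x : Fin l → K} {B A : Fin l → ZMod N} {δ w : K}
  {K₀ : IntermediateField F K}

/-- Four terms. -/
theorem sysD_kills_four {p : ℕ} [Fact p.Prime] [CharP F p] [Fact N.Prime] (h : SysD N t Y e x B A δ w K₀)
    (h0 : ∀ i, e i ≠ 0) {i₀ i₁ i₂ i₃ : Fin (2 + 2)} (hi : [i₀, i₁, i₂, i₃].Nodup)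
    {k₁ k₂ s : ℕ} [FixSp F p (k₁ * k₂)] (hk₁ : 0 < k₁) (hk₂ : 0 < k₂) (hs : k₁ * k₂ ≤ s)
    (h1 : e i₁ = -(p : ZMod N) ^ k₁ * e i₀) (h2 : e i₃ = -(p : ZMod N) ^ k₂ * e i₂)  :
    KillsC m (((p ^ s) ^ 2).factorial * (p ^ s * ((p ^ s) ^ 2).factorial)) F K := by
  obtain ⟨π, rfl, rfl, rfl, rfl⟩ := exists_perm4 hi
  have hp1 : 0 < p := Nat.Prime.pos Fact.out
  by_cases hb : e (π 0) + e (π 1) = 0
  · obtain ⟨s', v, hv, hgen⟩ := h.isPurely_of_opp π (h0 _) hb
    exact (KillsC.of_purely hv hgen).of_dvd (one_dvd _)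
  · obtain ⟨w', hw'⟩ := h.cyc4 π hk₁ hk₂ h1 h2 hb
    refine (cyc4_unr hw').of_dvd ?_
    have h3 : p ^ (k₁ * k₂) ∣ p ^ s := pow_dvd_pow p hs
    have h4 : ((p ^ (k₁ * k₂)) ^ 2).factorial ∣ ((p ^ s) ^ 2).factorial :=
      Nat.factorial_dvd_factorial (Nat.pow_le_pow_left (Nat.pow_le_pow_right hp1 hs) 2)
    exact mul_dvd_mul h4 (mul_dvd_mul h3 h4)

end

section

variable {N : ℕ} {F K : Type u} [Field F] [Field K] [Algebra F K]

/-- Two twisted pairs. -/
theorem sysD_kills_pairs {p : ℕ} [Fact p.Prime] [CharP F p] [Fact N.Prime] {k₁ k₂ s : ℕ} [FixSp F p (k₁ * k₂)] (hk₁ : 0 < k₁)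
    (hk₂ : 0 < k₂) (hs : k₁ * k₂ ≤ s) {l : ℕ} {x : Fin l → K} {B A : Fin l → ZMod N}
    {w : K} {K₀ : IntermediateField F K} :
    ∀ (d : ℕ) (hd : 4 ≤ d) {r : ℕ} {t : Fin r → K} {Y : Fin (d + 2) → K}
      {e : Fin (d + 2) → ZMod N} {δ : K} (_ : SysD N t Y e x B A δ w K₀)
      (_ : e ⟨1, by omega⟩ = -(p : ZMod N) ^ k₁ * e ⟨0, by omega⟩)
      (_ : e ⟨3, by omega⟩ = -(p : ZMod N) ^ k₂ * e ⟨2, by omega⟩)
      (_ : e ⟨4, by omega⟩ ≠ 0),
      KillsC m (((p ^ s) ^ 2).factorial * (p ^ s * ((p ^ s) ^ 2).factorial)) F K := by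
  intro d
  induction d with
  | zero => intro hd; omega
  | succ d ih =>
    intro hd r t Y e δ h h1 h2 h4
    by_cases hd3 : d = 3
    · subst hd3
      obtain ⟨w', hw'⟩ := h.cycData hk₁ hk₂ (p := p) h1 h2 h4
      intro z hz
      have hp : 0 < p := (Fact.out : p.Prime).pos
      have h4 : p ^ (k₁ * k₂) ∣ p ^ s := pow_dvd_pow p hs
      have h5 : ((p ^ (k₁ * k₂)) ^ 2).factorial ∣ ((p ^ s) ^ 2).factorial :=
        Nat.factorial_dvd_factorial (Nat.pow_le_pow_left (Nat.pow_le_pow_right hp hs) 2)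
      exact smul_mem_cst_of_dvd (mul_dvd_mul h5 (mul_dvd_mul h4 h5)) (cycData_unr hw' hz)
    · have hN0 : NeZero N := ⟨(Fact.out : N.Prime).ne_zero⟩
      obtain ⟨t', S, δ', h'⟩ := h.merge
      have hv : ∀ (k : ℕ) (hk : k < d + 1),
          (Fin.snoc (α := fun _ => ZMod N) (fun i : Fin (d + 1) => e i.castSucc.castSucc)
            (e (Fin.last (d + 1)).castSucc + e (Fin.last (d + 2)))) ⟨k, by omega⟩ =
          e ⟨k, by omega⟩ := fun k hk => Fin.snoc_castSucc (α := fun _ => ZMod N) _ _ ⟨k, hk⟩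
      refine ih (by omega) h' ?_ ?_ ?_
      · rw [hv 1 (by omega), hv 0 (by omega)]
        exact h1
      · rw [hv 3 (by omega), hv 2 (by omega)]
        exact h2
      · rw [hv 4 (by omega)]
        exact h4

/-- Balanced main block. -/
theorem sysD_kills_of_bal {p : ℕ} [Fact p.Prime] [CharP F p] [Fact N.Prime] {e' : ℕ} [hL : FixLe F p (4 * e' ^ 2)]
    (he : 0 < e')
    (hpe : (p : ZMod N) ^ e' = 1) (hneg : ∀ j : ℕ, (p : ZMod N) ^ j ≠ -1) {d : ℕ} (hd : 1 ≤ d)
    {r l : ℕ} {t : Fin r → K} {Y : Fin (d + 2) → K} {e : Fin (d + 2) → ZMod N} {x : Fin l → K}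
    {B A : Fin l → ZMod N} {δ w : K} {K₀ : IntermediateField F K}
    (h : SysD N t Y e x B A δ w K₀) (h0 : ∀ i, e i ≠ 0)
    (hb : Bal p e' (Multiset.map e Finset.univ.val)) :
    KillsC m (cK p e') F K := by
  have heven : Even (d + 2) := by
    have h1 := hb.even_card he hpe hneg (fun z hz => by
      obtain ⟨i, -, rfl⟩ := Multiset.mem_map.1 hz
      exact h0 i)
    rw [Multiset.card_map] at h1
    change Even (Finset.card (Finset.univ : Finset (Fin (d + 2)))) at h1
    rwa [Finset.card_univ, Fintype.card_fin] at h1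
  have hd2 : 2 ≤ d := by
    obtain ⟨k, hk⟩ := heven
    omega
  obtain ⟨i₀, i₁, i₂, i₃, hi, ⟨k₁, hk₁, hk₁', h1⟩, k₂, hk₂, hk₂', h2⟩ :=
    exists_two_pairs he hpe hneg (by omega) hb h0
  have hs : k₁ * k₂ ≤ 4 * e' ^ 2 := by
    calc k₁ * k₂ ≤ (2 * e') * (2 * e') := Nat.mul_le_mul hk₁' hk₂'
      _ = 4 * e' ^ 2 := by ring
  have : FixSp F p (k₁ * k₂) := hL.fix _ (Nat.mul_pos hk₁ hk₂) hs
  rcases Nat.lt_or_ge d 4 with hd4 | hd4
  · have hd3 : d = 2 := by
      obtain ⟨k, hk⟩ := heven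
      omega
    subst hd3
    exact sysD_kills_four h h0 hi hk₁ hk₂ hs h1 h2
  · obtain ⟨π, p0, p1, p2, p3⟩ := exists_perm_first (by omega) hi
    refine sysD_kills_pairs hk₁ hk₂ hs d hd4 (h.permY π) ?_ ?_ (h0 _)
    · rw [p0, p1]
      exact h1
    · rw [p2, p3]
      exact h2

/-- **The gluing process.** -/
theorem sysD_kills {p : ℕ} [Fact p.Prime] [CharP F p] [Fact N.Prime] {e' : ℕ} [hL : FixLe F p (4 * e' ^ 2)]
    (he : 0 < e')
    (hpe : (p : ZMod N) ^ e' = 1) (hneg : ∀ j : ℕ, (p : ZMod N) ^ j ≠ -1) :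
    ∀ (l : ℕ) {K : Type u} [Field K] [Algebra F K] {d : ℕ} (_ : 1 ≤ d)
      {r : ℕ} {t : Fin r → K} {Y : Fin (d + 2) → K} {e : Fin (d + 2) → ZMod N} {x : Fin l → K}
      {B A : Fin l → ZMod N} {δ w : K} {K₀ : IntermediateField F K}
      (_ : SysD N t Y e x B A δ w K₀) (_ : Bal p e' (tot e B A)) (_ : ∀ z ∈ tot e B A, z ≠ 0),
      KillsC m ((p ^ e').factorial ^ l * cK p e') F K := by
  have : NegPow F N := hL.negPow Fact.out (by nlinarith [Nat.pow_pos (n := 2) he]) Fact.out
  intro l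
  induction l with
  | zero =>
    intro K _ _ d hd r t Y e x B A δ w K₀ h hb h0
    have htot : tot e B A = Multiset.map e Finset.univ.val := by
      unfold tot
      rw [Finset.univ_eq_empty (α := Fin 0), Finset.sum_empty, add_zero]
    rw [htot] at hb h0
    rw [pow_zero, one_mul]
    exact sysD_kills_of_bal he hpe hneg hd h
      (fun i => h0 _ (Multiset.mem_map_of_mem e (Finset.mem_univ i))) hb
  | succ l ih =>
    intro K _ _ d hd r t Y e x B A δ w K₀ h hb h0
    by_cases hR : Bal p e' (Multiset.map e Finset.univ.val)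
    · have h1 := sysD_kills_of_bal (m := m) he hpe hneg hd h
        (fun i => h0 _ (Multiset.mem_add.2 (Or.inl (Multiset.mem_map_of_mem e
          (Finset.mem_univ i))))) hR
      exact h1.of_dvd (Dvd.dvd.mul_left dvd_rfl _)
    · have hc := (Bal.cross he hpe hb).resolve_left hR
      obtain ⟨K', _, _, _, _, hfd, hle, t', Y', g, x', B', A', δ', w', K₁, hS, hb', h0'⟩ :=
        h.step he hpe hb h0 hc
      have h1 : KillsC m ((p ^ e').factorial ^ l * cK p e') F K' :=
        ih (by omega) hS hb' h0'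
      have h2 := h1.of_finite hle
      rw [pow_succ', mul_assoc]
      exact h2

end

end UnrA.Fer
end

section

/-!
# Two supersingular curves
-/

namespace UnrA.Fer

open UnrG

universe u v w z

open Polynomial Finset
open scoped Classical

variable {m : UFun.{u, z}} {F E M : Type u} [Field F] [Field E] [Field M] [Algebra F E] [Algebra E M]

/-- A homomorphism mapping the generators into `E` restricts to `E`. -/
private lemma V11_restrict {τ : M →+* M} {S : Set E} (hS : IntermediateField.adjoin F S = ⊤)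
    (hF : ∀ a : F, ∃ z : E, τ (algebraMap E M (algebraMap F E a)) = algebraMap E M z)
    (hτ : ∀ x ∈ S, ∃ z : E, τ (algebraMap E M x) = algebraMap E M z) :
    ∃ g : E →+* E, ∀ z, τ (algebraMap E M z) = algebraMap E M (g z) := by
  have h1 := congrArg IntermediateField.toSubfield hS
  rw [IntermediateField.adjoin_toSubfield, IntermediateField.top_toSubfield] at h1
  have h2 : ∀ z : E, z ∈ (algebraMap E M).fieldRange.comap (τ.comp (algebraMap E M)) := by
    intro z
    have h3 : Subfield.closure (Set.range (algebraMap F E) ∪ S) ≤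
        (algebraMap E M).fieldRange.comap (τ.comp (algebraMap E M)) := by
      rw [Subfield.closure_le]
      rintro x (⟨a, rfl⟩ | hx)
      · obtain ⟨z, hz⟩ := hF a
        exact ⟨z, hz.symm⟩
      · obtain ⟨z, hz⟩ := hτ x hx
        exact ⟨z, hz.symm⟩
    rw [h1] at h3
    exact h3 (Subfield.mem_top z)
  choose g hg using fun z => (h2 z)
  have hinj := (algebraMap E M).injective
  refine ⟨⟨⟨⟨g, ?_⟩, ?_⟩, ?_, ?_⟩, fun z => (hg z).symm⟩
  · apply hinj
    rw [hg, map_one, map_one]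
  · intro x y
    apply hinj
    change algebraMap E M (g (x * y)) = algebraMap E M (g x * g y)
    rw [hg, map_mul, map_mul, hg, hg]
  · apply hinj
    change algebraMap E M (g 0) = algebraMap E M 0
    rw [hg, map_zero, map_zero]
  · intro x y
    apply hinj
    change algebraMap E M (g (x + y)) = algebraMap E M (g x + g y)
    rw [hg, map_add, map_add, hg, hg]

private lemma V11_sum {g : E →+* E} {N N' : ℕ} (hg : g ^ N = 1) (z : KM m E) :
    ∑ l ∈ range (N' * N), KM.map m (g ^ l) z = N' • ∑ l ∈ range N, KM.map m (g ^ l) z := by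
  induction N' with
  | zero => simp
  | succ n ih =>
    rw [Nat.succ_mul, Finset.sum_range_add, ih, succ_nsmul]
    congr 1
    refine Finset.sum_congr rfl fun l _ => ?_
    rw [pow_add, mul_comm n N, pow_mul, hg, one_pow, one_mul]

/-- **Two supersingular curves.** -/
theorem cycProdD_kills_even {m : UFun.{u, z}} {E : Type u} [Field E] [Algebra F E] {p s N N' : ℕ}
    [hFS : FixSp F p (2 * s)] [Fact p.Prime] [CharP F p] (hs : 0 < s) [hNp : Fact N.Prime] (hQ : p ^ s + 1 = N' * N) {r n : ℕ} {t : Fin r → E} {X : Fin (n + 2) → E}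
    {D W : E} {B A : Fin (n + 2) → ZMod N} (h : CycProdD N (F := F) t X D W B A)
    (h0 : B 0 ≠ 0) (h1 : B 1 ≠ 0) :
    KillsC m (((p ^ s + 1) ^ 4).factorial * (p ^ s * ((p ^ s + 1) * ((p ^ s).factorial *
      ((p ^ s) ^ 2).factorial))) * (N * N)) F E := by
  have hNprime : N.Prime := Fact.out
  have hN0 : NeZero N := ⟨hNprime.ne_zero⟩
  have hN'0 : 0 < N' := by
    rcases Nat.eq_zero_or_pos N' with h2 | h2
    · rw [h2, zero_mul] at hQ
      omega
    · exact h2
  obtain ⟨M, _, _, _, _, k, U, V, hfd, hle, hferm, hU0, hU1, htk, hXk, β, hβ, hW⟩ :=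
    h.exists_ferm2 hQ
  obtain ⟨x, y, hH, hrot⟩ := hferm.exists_herm hs
  have hQF : ((p ^ s + 1 : ℕ) : F) = 1 := by
    push_cast
    rw [CharP.cast_eq_zero, zero_pow hs.ne', zero_add]
  have hQF' : ((p ^ s + 1 : ℕ) : F) ≠ 0 := by
    rw [hQF]
    exact one_ne_zero
  obtain ⟨ζ, hζ⟩ := hFS.exists_isPrimitiveRoot Fact.out (by omega) (N := p ^ s + 1) (by
    have h1 : p ^ (2 * s) = (p ^ s) ^ 2 := by rw [← pow_mul, mul_comm]
    rw [h1, ← one_pow 2, Nat.sq_sub_sq, one_pow]
    exact dvd_mul_right _ _)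
  choose τ hτ using fun j : Fin 2 =>
    hferm.exists_rot (Nat.succ_pos _) hQF' hζ.pow_eq_one j
  have hζN : IsPrimitiveRoot (ζ ^ N') N := hζ.pow (Nat.succ_pos _) hQ
  have hω : ∀ c : ZMod N, c ≠ 0 → IsPrimitiveRoot ((ζ ^ N') ^ c.val) N := by
    intro c hc
    refine hζN.pow_of_coprime _ ?_
    rw [Nat.coprime_comm, hNprime.coprime_iff_not_dvd, ← ZMod.natCast_eq_zero_iff,
      ZMod.natCast_zmod_val]
    exact hc
  have hFM : ∀ a : F, algebraMap E M (algebraMap F E a) = algebraMap F M a := fun a =>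
    (IsScalarTower.algebraMap_apply F E M a).symm
  have hFτ : ∀ (i : Fin 2) (a : F), τ i (algebraMap F M a) = algebraMap F M a := fun i a =>
    (hτ i).fk _ (k.algebraMap_mem a)
  -- the action on `W`, `X`, `t`
  have hτt : ∀ i l, τ i (algebraMap E M (t l)) = algebraMap E M (t l) := fun i l =>
    (hτ i).fk _ (htk l)
  have hτU : ∀ i l, τ i (U l ^ (p ^ s + 1)) = U l ^ (p ^ s + 1) := by
    intro i l
    rw [map_pow]
    by_cases hil : l = i
    · rw [hil, (hτ i).fx, mul_pow, ← map_pow, hζ.pow_eq_one, map_one, one_mul]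
    · rw [(hτ i).fx' l hil]
  have hτX : ∀ i l, τ i (algebraMap E M (X l)) = algebraMap E M (X l) := by
    intro i l
    refine Fin.cases ?_ (fun l => ?_) l
    · rw [← hU0]
      exact hτU i 0
    · refine Fin.cases ?_ (fun l => ?_) l
      · have h2 : (Fin.succ 0 : Fin (n + 2)) = 1 := rfl
        rw [h2, ← hU1]
        exact hτU i 1
      · exact (hτ i).fk _ (hXk l)
  have hτW : ∀ i : Fin 2, ∃ c : ZMod N, c ≠ 0 ∧ τ i (algebraMap E M W) =
      algebraMap E M (algebraMap F E ((ζ ^ N') ^ c.val) * W) := by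
    intro i
    have key : ∀ c : ℕ, algebraMap F M ζ ^ (N' * c) = algebraMap F M ((ζ ^ N') ^ c) := by
      intro c
      rw [map_pow, map_pow, pow_mul]
    have hi : i = 0 ∨ i = 1 := by
      fin_cases i
      · exact Or.inl rfl
      · exact Or.inr rfl
    rcases hi with rfl | rfl
    · refine ⟨B 0, h0, ?_⟩
      rw [map_mul, hFM, hW, map_mul, map_mul, map_mul, map_mul, map_pow, map_pow, map_pow,
        map_pow, (hτ 0).fk _ hβ]
      rw [(hτ 0).fx, (hτ 0).fx' 1 (by decide), (hτ 0).fy, (hτ 0).fy, mul_pow, key]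
      ring
    · refine ⟨B 1, h1, ?_⟩
      rw [map_mul, hFM, hW, map_mul, map_mul, map_mul, map_mul, map_pow, map_pow, map_pow,
        map_pow, (hτ 1).fk _ hβ]
      rw [(hτ 1).fx, (hτ 1).fx' 0 (by decide), (hτ 1).fy, (hτ 1).fy, mul_pow, key]
      ring
  intro z hz
  obtain ⟨c₀, hc₀, hcyc⟩ := cycProdD_cyc_sum h hNprime.pos (hω 1 one_ne_zero) hz
  have hsum : ∀ i : Fin 2, ∑ l ∈ range (p ^ s + 1), KM.map m (τ i ^ l)
      (KM.map m (algebraMap E M) ((N * N) • z - c₀)) = 0 := by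
    intro i
    obtain ⟨c, hc, hWc⟩ := hτW i
    obtain ⟨g, hg⟩ := V11_restrict (F := F) (τ := τ i) h.gen
      (fun a => ⟨algebraMap F E a, by rw [hFM, hFτ]⟩) (by
        rintro x ((⟨l, rfl⟩ | ⟨l, rfl⟩) | hx)
        · exact ⟨_, hτt i l⟩
        · exact ⟨_, hτX i l⟩
        · rw [Set.mem_singleton_iff] at hx
          rw [hx]
          exact ⟨_, hWc⟩)
    have hinj := (algebraMap E M).injective
    have gF : ∀ a : F, g (algebraMap F E a) = algebraMap F E a := fun a => by
      apply hinj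
      rw [← hg, hFM, hFτ]
    have gt : ∀ l, g (t l) = t l := fun l => by
      apply hinj
      rw [← hg, hτt]
    have gX : ∀ l, g (X l) = X l := fun l => by
      apply hinj
      rw [← hg, hτX]
    have gW : g W = algebraMap F E ((ζ ^ N') ^ c.val) * W := by
      apply hinj
      rw [← hg, hWc]
    have hgN : g ^ N = 1 := by
      have h3 := congrArg IntermediateField.toSubfield h.gen
      rw [IntermediateField.adjoin_toSubfield, IntermediateField.top_toSubfield] at h3
      have hfix : ∀ (x : E), g x = x → ∀ l : ℕ, (g ^ l) x = x := by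
        intro x hx l
        induction l with
        | zero => rfl
        | succ l ih =>
          rw [pow_succ]
          change (g ^ l) (g x) = x
          rw [hx, ih]
      apply RingHom.eq_of_eqOn_of_field_closure_eq_top h3
      rintro x (⟨a, rfl⟩ | ((⟨l, rfl⟩ | ⟨l, rfl⟩) | hx))
      · exact hfix _ (gF a) N
      · exact hfix _ (gt l) N
      · exact hfix _ (gX l) N
      · rw [Set.mem_singleton_iff] at hx
        rw [hx]
        have h4 : ∀ l : ℕ, (g ^ l) W = algebraMap F E ((ζ ^ N') ^ c.val) ^ l * W := by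
          intro l
          induction l with
          | zero => rw [pow_zero, pow_zero, one_mul]; rfl
          | succ l ih =>
            rw [pow_succ]
            change (g ^ l) (g W) = _
            rw [gW, map_mul, hfix _ (gF _) l, ih]
            ring
        rw [h4, ← map_pow, (hω c hc).pow_eq_one, map_one, one_mul]
        rfl
    have hfixc : ∀ l : ℕ, KM.map m (g ^ l) c₀ = c₀ := by
      intro l
      refine map_of_mem_cst hc₀ fun a => ?_
      induction l with
      | zero => rfl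
      | succ l ih =>
        rw [pow_succ]
        change (g ^ l) (g _) = _
        rw [gF, ih]
    have hpow : ∀ l : ℕ, (τ i ^ l).comp (algebraMap E M) = (algebraMap E M).comp (g ^ l) := by
      intro l
      induction l with
      | zero => rfl
      | succ l ih =>
        ext x
        have h5 := congrArg (fun f : E →+* M => f (g x)) ih
        rw [pow_succ, pow_succ]
        change (τ i ^ l) (τ i (algebraMap E M x)) = algebraMap E M ((g ^ l) (g x))
        rw [hg]
        exact h5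
    have h6 : ∀ l : ℕ, KM.map m (τ i ^ l) (KM.map m (algebraMap E M) ((N * N) • z - c₀)) =
        KM.map m (algebraMap E M) (KM.map m (g ^ l) ((N * N) • z - c₀)) := by
      intro l
      rw [KM.map_map, KM.map_map, hpow]
    have h7 : ∑ l ∈ range N, KM.map m (g ^ l) ((N * N) • z - c₀) = 0 := by
      have h8 : ∀ l ∈ range N, KM.map m (g ^ l) ((N * N) • z - c₀) =
          (N * N) • KM.map m (g ^ l) z - c₀ := by
        intro l _
        rw [map_sub, map_nsmul, hfixc]
      rw [Finset.sum_congr rfl h8, Finset.sum_sub_distrib, ← Finset.smul_sum, mul_smul,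
        hcyc _ (hω c hc) g gF gt gX gW, Finset.sum_const, Finset.card_range, sub_self]
    rw [Finset.sum_congr rfl (fun l _ => h6 l), ← map_sum, hQ, V11_sum hgN, h7, smul_zero,
      map_zero]
  have hzE : Unr ((N * N) • z - c₀) := (hz.nsmul _).sub (unr_of_mem_cst hc₀)
  have h7 := herm2_kills hs hH (fun i => hrot ζ i (τ i) (hτ i)) (hzE.map (algebraMap E M)) hsum
  rw [← map_nsmul] at h7
  have h8 := finrank_smul_eq_zero _ (K := E) (L := M) rfl h7
  obtain ⟨d, hd'⟩ : Module.finrank E M ∣ ((p ^ s + 1) ^ 4).factorial :=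
    Nat.dvd_factorial Module.finrank_pos hle
  have h9 : (((p ^ s + 1) ^ 4).factorial * (p ^ s * ((p ^ s + 1) * ((p ^ s).factorial *
      ((p ^ s) ^ 2).factorial)))) • ((N * N) • z - c₀) = 0 := by
    rw [hd', mul_comm (Module.finrank E M) d, mul_assoc, mul_smul, mul_smul, h8, smul_zero]
  rw [smul_sub, sub_eq_zero] at h9
  rw [mul_smul, h9]
  exact nsmul_mem hc₀ _

end UnrA.Fer
end

section

/-!
# Balanced characters: no condition on the twist
-/

namespace UnrA.Fer

open UnrG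

universe u v w z

open Polynomial Finset
open scoped Classical

/-- For a balanced character with at least two curves, the unramified classes of the monomial
subfield come from the constants up to a factor which does not depend on the twist `D`. -/
theorem killsC_of_bal {N : ℕ} (hN : N.Prime) {p : ℕ} [Fact p.Prime] (hpN : p ≠ N) {n : ℕ}
    (B A : Fin n → ZMod N)
    (hb : IsNondegenerate B A → IsBalanced p B A ∧ ∃ i j, i ≠ j ∧ B i ≠ 0 ∧ B j ≠ 0) :
    ∃ C S : ℕ, 0 < C ∧ 0 < S ∧ ∀ (m : UFun.{u, z}) (F E : Type u) [Field F] [FixSp F p S]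
      [CharP F p] [Field E] [Algebra F E] (r : ℕ) (t : Fin r → E) (X : Fin n → E) (D W : E)
      (_ : CycProdD N (F := F) t X D W B A), KillsC m C F E := by
  have : Fact N.Prime := ⟨hN⟩
  have hp' : p.Prime := Fact.out
  have hp0 : 0 < p := hp'.pos
  have hN0 : 0 < N := hN.pos
  have hunit : IsUnit (p : ZMod N) := by
    rw [ZMod.isUnit_iff_coprime]
    exact (Nat.coprime_primes hp' hN).2 hpN
  have hord : 0 < orderOf (p : ZMod N) := by
    obtain ⟨x, hx⟩ := hunit
    rw [← hx, orderOf_units]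
    exact orderOf_pos x
  obtain ⟨e', he'⟩ : ∃ e', e' = orderOf (p : ZMod N) := ⟨_, rfl⟩
  have hpe : (p : ZMod N) ^ e' = 1 := by rw [he']; exact pow_orderOf_eq_one _
  have he0 : 0 < e' := by rw [he']; exact hord
  induction n with
  | zero =>
    obtain ⟨_, i, _⟩ := hb (fun j => j.elim0)
    exact i.elim0
  | succ n ih =>
    by_cases h1 : ∃ j, B j = 0 ∧ A j = 0
    · obtain ⟨j, hBj, hAj⟩ := h1
      obtain ⟨C, S, hC, hS, h⟩ := ih (fun i => B (j.succAbove i)) (fun i => A (j.succAbove i)) (by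
        intro hnd
        have hnd' : IsNondegenerate B A := by
          intro i
          by_cases hij : i = j
          · rw [hij]
            exact Or.inl ⟨hBj, hAj⟩
          · obtain ⟨i', rfl⟩ := Fin.exists_succAbove_eq hij
            exact hnd i'
        obtain ⟨hbal, i, i', hii, hi, hi'⟩ := hb hnd'
        refine ⟨(isBalanced_drop j hBj hAj).2 hbal, ?_⟩
        have hij : i ≠ j := by
          rintro rfl
          exact hi hBj
        have hij' : i' ≠ j := by
          rintro rfl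
          exact hi' hBj
        obtain ⟨l, rfl⟩ := Fin.exists_succAbove_eq hij
        obtain ⟨l', rfl⟩ := Fin.exists_succAbove_eq hij'
        exact ⟨l, l', fun h => hii (by rw [h]), hi, hi'⟩)
      refine ⟨C, S, hC, hS, ?_⟩
      intro m F E _ _ _ _ _ r t X D W hW
      exact h m F E (r + 1) _ _ D W (hW.drop j hBj hAj)
    · by_cases h2 : ∃ j, B j = 0 ∨ A j = 0 ∨ B j + A j = 0
      · obtain ⟨j, hj⟩ := h2
        refine ⟨1, 1, one_pos, one_pos, ?_⟩
        intro m F E _ _ _ _ _ r t X D W hW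
        obtain ⟨s, v, hv, hgen⟩ := hW.isPurely j (fun h => h1 ⟨j, h⟩) hj
        exact KillsC.of_purely hv hgen
      · have hB : ∀ j, B j ≠ 0 := fun j h => h2 ⟨j, Or.inl h⟩
        have hA : ∀ j, A j ≠ 0 := fun j h => h2 ⟨j, Or.inr (Or.inl h)⟩
        have hC : ∀ j, B j + A j ≠ 0 := fun j h => h2 ⟨j, Or.inr (Or.inr h)⟩
        have hnd : IsNondegenerate B A := fun j => Or.inr ⟨hB j, hA j, hC j⟩
        obtain ⟨hbal, i₀, j₀, hij₀, -, -⟩ := hb hnd
        by_cases hodd : Odd (orderOf (p : ZMod N))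
        · have hN2 : N ≠ 2 := by
            intro h2
            have key : ∀ (N : ℕ) (_ : N = 2) (u v : ZMod N), u ≠ 0 → v ≠ 0 → u + v = 0 := by
              rintro N rfl
              decide
            exact hC 0 (key N h2 _ _ (hB 0) (hA 0))
          have hneg := ne_neg_one_of_odd hN2 hodd
          have hiff := bal_iff_isBalanced (p := p) he0 hpe B A
          refine ⟨(p ^ e').factorial ^ n * cK p e', (4 * e' ^ 2).factorial, ?_,
            Nat.factorial_pos _, ?_⟩
          · unfold cK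
            positivity
          · intro m F E _ _ _ _ _ r t X D W hW
            have hL : FixLe F p (4 * e' ^ 2) :=
              FixLe.of_fixSp Fact.out (Nat.factorial_pos _) dvd_rfl inferInstance
            have hNP : NegPow F N :=
              hL.negPow Fact.out (by nlinarith [Nat.pow_pos (n := 2) he0]) hN
            obtain ⟨K₀, hS⟩ := hW.sys
            have htot : tot (tripE (B 0) (A 0)) (fun j : Fin n => B j.succ)
                (fun j => A j.succ) =
                ∑ j, Multiset.map (tripE (B j) (A j)) Finset.univ.val := by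
              rw [Fin.sum_univ_succ]
              rfl
            refine sysD_kills he0 hpe hneg n le_rfl hS
              (by rw [htot]; exact hiff.2 hbal) ?_
            rw [htot]
            intro z hz
            rw [Multiset.mem_sum] at hz
            obtain ⟨j, -, hz⟩ := hz
            rw [Multiset.mem_map] at hz
            obtain ⟨c, -, rfl⟩ := hz
            fin_cases c
            · exact hB j
            · exact hA j
            · exact neg_ne_zero.2 (hC j)
        · obtain ⟨s, hs, hps⟩ := exists_pow_eq_neg_one hord hodd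
          obtain ⟨N', hN'⟩ : N ∣ p ^ s + 1 := by
            rw [← ZMod.natCast_eq_zero_iff]
            push_cast
            rw [hps, neg_add_cancel]
          rw [mul_comm] at hN'
          cases n with
          | zero => exact absurd (Fin.ext (by omega)) hij₀
          | succ n =>
            refine ⟨((p ^ s + 1) ^ 4).factorial * (p ^ s * ((p ^ s + 1) *
              ((p ^ s).factorial * ((p ^ s) ^ 2).factorial))) * (N * N), 2 * s, ?_, by omega, ?_⟩
            · positivity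
            · intro m F E _ _ _ _ _ r t X D W hW
              exact cycProdD_kills_even hs hN' hW (hB 0) (hB 1)

end UnrA.Fer
end

section

/-!
# The monomial subfields of diagonal hypersurfaces
-/

namespace UnrA.Fer

open UnrG

universe u v w z

open Polynomial Finset
open scoped Classical

/-- The field generated by the data of a cyclic cover of an affine space. -/
theorem exists_cycProdD {F M : Type u} [Field F] [Field M] [Algebra F M] {N r n : ℕ}
    {t : Fin r → M} {X : Fin n → M} {D W : M} {B A : Fin n → ZMod N} {T : IntermediateField F M}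
    (hind : AlgebraicIndependent F (Sum.elim t X))
    (hD : D ∈ IntermediateField.adjoin F (Set.range t)) (hD0 : D ≠ 0)
    (heq : W ^ N = D * ∏ j, (X j ^ (B j).val * (1 - X j) ^ (A j).val))
    (hT : T = IntermediateField.adjoin F (Set.range t ∪ Set.range X ∪ {W})) :
    ∃ (t' : Fin r → T) (X' : Fin n → T) (D' W' : T), (∀ i, (t' i : M) = t i) ∧
      (∀ j, (X' j : M) = X j) ∧ (D' : M) = D ∧ (W' : M) = W ∧
      CycProdD N (F := F) t' X' D' W' B A := by
  have ht : ∀ i, t i ∈ T := fun i => by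
    rw [hT]
    exact IntermediateField.subset_adjoin F _ (Or.inl (Or.inl ⟨i, rfl⟩))
  have htle : IntermediateField.adjoin F (Set.range t) ≤ T := by
    rw [IntermediateField.adjoin_le_iff]
    rintro z ⟨i, rfl⟩
    exact ht i
  have hX : ∀ j, X j ∈ T := fun j => by
    rw [hT]
    exact IntermediateField.subset_adjoin F _ (Or.inl (Or.inr ⟨j, rfl⟩))
  have hW : W ∈ T := by
    rw [hT]
    exact IntermediateField.subset_adjoin F _ (Or.inr rfl)
  refine ⟨fun i => ⟨t i, ht i⟩, fun j => ⟨X j, hX j⟩, ⟨D, htle hD⟩,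
    ⟨W, hW⟩, fun _ => rfl, fun _ => rfl, rfl, rfl, ?_, ?_, ?_, ?_, ?_⟩
  · apply AlgebraicIndependent.of_comp (IntermediateField.val T)
    have h5 : (IntermediateField.val T) ∘ (Sum.elim (fun i => (⟨t i, ht i⟩ : T))
        (fun j => (⟨X j, hX j⟩ : T))) = Sum.elim t X := by
      funext i
      rcases i with i | i <;> rfl
    rw [h5]
    exact hind
  · rw [← IntermediateField.mem_lift, IntermediateField.lift_adjoin]
    have h5 : Subtype.val '' (Set.range fun i => (⟨t i, ht i⟩ : T)) = Set.range t := by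
      rw [← Set.range_comp]
      rfl
    rw [h5]
    exact hD
  · intro h0
    exact hD0 (congrArg Subtype.val h0)
  · apply Subtype.ext
    have h5 : (((∏ j, ((⟨X j, hX j⟩ : T) ^ (B j).val *
        (1 - (⟨X j, hX j⟩ : T)) ^ (A j).val) : T)) : M) =
        ∏ j, (X j ^ (B j).val * (1 - X j) ^ (A j).val) := by
      rw [SubmonoidClass.coe_finsetProd]
      rfl
    change W ^ N = D * (((∏ j, ((⟨X j, hX j⟩ : T) ^ (B j).val *
        (1 - (⟨X j, hX j⟩ : T)) ^ (A j).val) : T)) : M)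
    rw [h5, heq]
  · apply IntermediateField.lift_injective T
    rw [IntermediateField.lift_top, IntermediateField.lift_adjoin]
    have h5 : Subtype.val '' ((Set.range fun i => (⟨t i, ht i⟩ : T)) ∪
        (Set.range fun j => (⟨X j, hX j⟩ : T)) ∪ {(⟨W, hW⟩ : T)}) =
        Set.range t ∪ Set.range X ∪ {W} := by
      rw [Set.image_union, Set.image_union, ← Set.range_comp, ← Set.range_comp,
        Set.image_singleton]
      rfl
    rw [h5]
    exact hT.symm

variable {𝔽 : Type w} [Field 𝔽] [Fintype 𝔽] (b : Base 𝔽)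

variable {F L : Type u} [Field F] [Field L] [Algebra F L] {r n : ℕ}
  {t : Fin r → L} {a x : Fin (n + 2) → L}

/-- The monomial subfield of a diagonal hypersurface as a cyclic cover of an affine space. -/
theorem fieldA_cycProdD (h : DiagData b t (F := F) a x) {α : Fin (n + 2) → ZMod b.N}
    (hα : ∑ i, α i = 0) :
    ∃ (t' : Fin r → fieldA b F t x α) (X' : Fin n → fieldA b F t x α)
      (D' W' : fieldA b F t x α), CycProdD b.N (F := F) t' X' D' W'
        (fun j : Fin n => psum α j.castSucc) (fun j : Fin n => α j.castSucc.succ) := by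
  obtain ⟨c, hc, hc0, hid⟩ := mono_identity_twist b h hα
  obtain ⟨δ, hδ⟩ : ∃ δ, δ = (-1) ^ (α (Fin.last (n + 1))).val * (∏ i, a i ^ (α i).val) :=
    ⟨_, rfl⟩
  have hδm : δ ∈ IntermediateField.adjoin F (Set.range t) := by
    rw [hδ]
    exact mul_mem (pow_mem (neg_mem (one_mem _)) _) (prod_mem fun i _ => pow_mem (h.a_mem i) _)
  have hδ0 : δ ≠ 0 := by
    rw [hδ]
    exact mul_ne_zero (pow_ne_zero _ (neg_ne_zero.2 one_ne_zero))
      (prod_ne_zero_iff.2 fun i _ => pow_ne_zero _ (h.a_ne i))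
  rw [← hδ] at hid
  have hK := fieldK_le_coord b h
  obtain ⟨t', X', D', W', -, -, -, -, hW⟩ := exists_cycProdD (N := b.N) (T := fieldA b F t x α)
    (B := fun j : Fin n => psum α j.castSucc) (A := fun j : Fin n => α j.castSucc.succ)
    (algebraicIndependent_coord b h) (inv_mem hδm) (inv_ne_zero hδ0) (W := c * wmon x α) (by
      have h1 : ∏ j, (coordU b.N a x j ^ ((fun j : Fin n => psum α j.castSucc) j).val *
          (1 - coordU b.N a x j) ^ ((fun j : Fin n => α j.castSucc.succ) j).val) =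
          δ * (c * wmon x α) ^ b.N := hid
      rw [h1, inv_mul_cancel_left₀ hδ0]) (by
      obtain ⟨R, hR⟩ : ∃ R, R = IntermediateField.adjoin F (Set.range t ∪
        Set.range (coordU b.N a x) ∪ {c * wmon x α}) := ⟨_, rfl⟩
      rw [← hR]
      have hcR : fieldK b F t x ≤ R := by
        refine hK.trans ?_
        rw [hR]
        exact IntermediateField.adjoin.mono F _ _ Set.subset_union_left
      have hKA : fieldK b F t x ≤ fieldA b F t x α := fieldK_le_fieldA b α
      apply le_antisymm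
      · unfold fieldA
        rw [IntermediateField.adjoin_le_iff]
        rintro z ((⟨i, rfl⟩ | ⟨i, rfl⟩) | hz)
        · exact hcR (IntermediateField.subset_adjoin F _ (Or.inl ⟨i, rfl⟩))
        · exact hcR (IntermediateField.subset_adjoin F _ (Or.inr ⟨i, rfl⟩))
        · rw [Set.mem_singleton_iff] at hz
          have h1 : z = c⁻¹ * (c * wmon x α) := by
            rw [inv_mul_cancel_left₀ hc0, hz]
          change z ∈ R
          rw [h1]
          refine mul_mem (inv_mem (hcR hc)) ?_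
          rw [hR]
          exact IntermediateField.subset_adjoin F _ (Or.inr rfl)
      · rw [hR, IntermediateField.adjoin_le_iff]
        rintro z ((⟨i, rfl⟩ | ⟨i, rfl⟩) | hz)
        · exact hKA (IntermediateField.subset_adjoin F _ (Or.inl ⟨i, rfl⟩))
        · exact hKA (coordU_mem b h i)
        · rw [Set.mem_singleton_iff] at hz
          change z ∈ fieldA b F t x α
          rw [hz]
          refine mul_mem (hKA hc) ?_
          exact IntermediateField.subset_adjoin F _ (Or.inr rfl))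
  exact ⟨t', X', D', W', hW⟩

/-- For a balanced minimal character of a diagonal hypersurface of dimension at least two, the
unramified classes of the monomial subfield come from the constants, up to a factor which does not
depend on the coefficients. -/
theorem fieldA_killsC (hN : b.N.Prime) {p : ℕ} [Fact p.Prime] (hpN : p ≠ b.N) (hn : 2 ≤ n)
    {α : Fin (n + 2) → ZMod b.N} (hα : MinZero α) (hbal : IsBalancedSum p α) :
    ∃ C S : ℕ, 0 < C ∧ 0 < S ∧ ∀ (m : UFun.{u, z}) (F L : Type u) [Field F] [FixSp F p S]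
      [CharP F p] [Field L] [Algebra F L] (r : ℕ) (t : Fin r → L) (a x : Fin (n + 2) → L)
      (_ : DiagData b t (F := F) a x), KillsC m C F (fieldA b F t x α) := by
  have hB : ∀ j : Fin n, psum α j.castSucc ≠ 0 := by
    intro j h0
    refine (hα.exp b j).1 ?_
    change b.N ∣ (psum α j.castSucc).val
    rw [h0, ZMod.val_zero]
    exact dvd_zero _
  obtain ⟨C, S, hC, hS, h⟩ := killsC_of_bal.{u, z} hN hpN
    (fun j : Fin n => psum α j.castSucc) (fun j : Fin n => α j.castSucc.succ) (fun _ =>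
      ⟨(isBalanced_iff_sum hα.1).2 hbal, ⟨0, by omega⟩, ⟨1, by omega⟩, by
        intro h0
        exact absurd (congrArg Fin.val h0) (by norm_num), hB _, hB _⟩)
  refine ⟨C, S, hC, hS, ?_⟩
  intro m F L _ _ _ _ _ r t a x hD
  obtain ⟨t', X', D', W', hW⟩ := fieldA_cycProdD b hD hα.1
  exact h m F _ r t' X' D' W' hW

end UnrA.Fer
end

section

/-!
# Cyclic covers over a finite field of constants: weights
-/

namespace UnrA.Fer

open UnrG

universe u v w z

open Polynomial Finset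
open scoped Classical

/-- Classes coming from a finite field of constants. -/
lemma smul_eq_zero_of_cst {m : UFun.{u, z}} {𝔽 : Type w} [Field 𝔽] {q wd : ℕ}
    (hw : m.HasWeight 𝔽 q wd) {F E : Type u} [Field F] [Field E] [Algebra F E] (ι : 𝔽 →+* F)
    (hF : ∀ a : F, a ^ q = a) {x : KM m E} (hx : x ∈ cst m F E) : (q ^ wd - 1) • x = 0 := by
  obtain ⟨y, -, rfl⟩ := mem_cst.mp hx
  have h1 : KM.map m (RingHom.id F) y = q ^ wd • y :=
    hw F ι (RingHom.id F) (fun a => (hF a).symm) y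
  rw [KM.map_id] at h1
  have h2 : y = q ^ wd • y := h1
  have h3 : (q ^ wd - 1) • y = 0 := by
    rcases Nat.eq_zero_or_pos (q ^ wd) with h0 | h0
    · rw [h0] at h2 ⊢
      rw [zero_smul] at h2
      rw [h2, smul_zero]
    · have h4 : (q ^ wd - 1) • y + y = 0 + y := by
        rw [zero_add]
        nth_rw 2 [← one_smul ℕ y]
        rw [← add_smul, Nat.sub_add_cancel (show 1 ≤ q ^ wd from h0), ← h2]
      exact add_right_cancel h4
  rw [← map_nsmul, h3, map_zero]

variable {𝔽 : Type} [Field 𝔽] [Fintype 𝔽] (b : Base 𝔽)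

/-- Unramified classes of the function field of a product of cyclic covers over a finite field. -/
theorem cycProd_kills_of_ne (hN : b.N.Prime) {wd : ℕ} (hwd : 0 < wd) {n : ℕ}
    {B A : Fin n → ZMod b.N}
    (hB : ∀ j, B j ≠ 0) (hA : ∀ j, A j ≠ 0) (hC : ∀ j, B j + A j ≠ 0)
    (hn : n = 2 * wd → ∀ χ : MulChar 𝔽 ℂ, orderOf χ = b.N →
      ∏ j, jacobiSum (χ ^ (B j).val) (χ ^ (A j).val) ≠ (b.q : ℂ) ^ wd) :
    ∃ C : ℕ, 0 < C ∧ ∀ (m : UFun.{u, z}) (_ : m.Specializes) (_ : m.HasWeight 𝔽 b.q wd)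
      (F E : Type u) [Field F] [Field E] [Algebra F E] (_ : 𝔽 →+* F) (_ : ∀ a : F, a ^ b.q = a)
      (r : ℕ) (t : Fin r → E) (X : Fin n → E) (W : E) (_ : CycProd b.N (F := F) t X W B A)
      (z : KM m E), Unr z → C • z = 0 := by
  have hval : ∀ c : ZMod b.N, c ≠ 0 → ¬ b.N ∣ c.val := by
    intro c hc h
    apply hc
    have h1 := (ZMod.natCast_eq_zero_iff c.val b.N).2 h
    rwa [ZMod.natCast_zmod_val] at h1
  obtain ⟨C₀, hC₀, hmain⟩ := prod_main b wd (fun j => (B j).val) (fun j => (A j).val) hn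
    (fun j => hval _ (hB j)) (fun j => hval _ (hA j)) (fun j h => by
      have h1 := (ZMod.natCast_eq_zero_iff _ _).2 h
      rw [Nat.cast_add, ZMod.natCast_zmod_val, ZMod.natCast_zmod_val] at h1
      exact hC j h1)
  have hq1 : 0 < b.q ^ wd - 1 := by
    have h1 : 1 < b.q := by
      rw [← b.card_q]
      exact Fintype.one_lt_card
    have h2 := Nat.one_lt_pow hwd.ne' h1
    omega
  refine ⟨b.N.factorial * (C₀ * b.N.factorial) * (b.q ^ wd - 1),
    Nat.mul_pos (Nat.mul_pos (Nat.factorial_pos _)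
    (Nat.mul_pos hC₀ (Nat.factorial_pos _))) hq1, ?_⟩
  intro m hs hw F E _ _ _ ι hF r t X W h z hz
  obtain ⟨hfd, hgal, hle⟩ := h.galois b ι
  have hcard : Fintype.card (E ≃ₐ[baseF F t X] E) = Module.finrank (baseF F t X) E := by
    rw [← IsGalois.card_aut_eq_finrank, Nat.card_eq_fintype_card]
  obtain ⟨S, hS⟩ : ∃ S, S = ∑ g : E ≃ₐ[baseF F t X] E, KM.map m (g : E →+* E) z := ⟨_, rfl⟩
  have hS0 : (b.q ^ wd - 1) • Module.finrank (baseF F t X) E • S = 0 := by
    rw [hS]
    exact smul_eq_zero_of_cst hw ι hF (galSum_purely (baseF F t X) (h.isPurely_base b) hz)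
  obtain ⟨z', hz'⟩ : ∃ z', z' = Fintype.card (E ≃ₐ[baseF F t X] E) • z - S := ⟨_, rfl⟩
  have hu : Unr z' := by
    rw [hz', hS]
    exact (hz.nsmul _).sub (Unr.sum fun g _ => hz.map _)
  obtain ⟨M, _, _, x, y, i, κ, hP, hE, hc, hX, hκ, hW⟩ := h.exists_embedding b ι
  have hi := i.injective
  have hnew : NewCls b F ι (fun k => i (t k)) x y (fun j => (B j).val) (fun j => (A j).val) i
      z' := by
    intro g k g1 g2 g3 g4 hk
    rw [hz', hS]
    refine cycProd_sum_new b h ι hN z g k (fun a => g1 a _ (hc a)) (fun l => g2 l _ rfl)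
      (fun j => g3 j _ (hX j)) ?_ hk
    have h1 := g4 _ hW
    rw [← hW, ← hc, ← map_pow, ← map_mul] at h1
    have h2 := hi h1
    rw [map_mul, g1 (ι κ) _ (hc _)] at h2
    have h3 : algebraMap F E (ι κ) ≠ 0 :=
      (_root_.map_ne_zero _).2 ((_root_.map_ne_zero _).2 hκ)
    apply mul_left_cancel₀ h3
    rw [h2]
    ring
  have hσ : RelFrob b F (fun k => i (t k)) x y (fun j => (B j).val) (fun j => (A j).val) i
      (RingHom.id E) := by
    refine ⟨fun a e he => ?_, fun _ _ _ => rfl, fun _ _ _ => rfl, fun _ _ => rfl⟩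
    apply hi
    rw [map_pow, RingHom.id_apply, he, ← map_pow, hF]
  have h0 := hmain m hw hs F M E ι r (fun k => i (t k)) x y hP i hE (RingHom.id E) hσ z' hu hnew
    (by rw [KM.map_id]; rfl)
  obtain ⟨k, hk⟩ : Module.finrank (baseF F t X) E ∣ b.N.factorial :=
    Nat.dvd_factorial Module.finrank_pos hle
  have h1 : Fintype.card (E ≃ₐ[baseF F t X] E) • z = z' + S := by
    rw [hz', sub_add_cancel]
  obtain ⟨Q, hQ⟩ : ∃ Q, Q = b.q ^ wd - 1 := ⟨_, rfl⟩
  rw [← hQ] at hS0 ⊢
  have h2 : b.N.factorial * (C₀ * b.N.factorial) * Q = (k * (C₀ * b.N.factorial) * Q) *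
      Fintype.card (E ≃ₐ[baseF F t X] E) := by
    rw [hcard]
    conv_lhs => rw [hk]
    rw [hk]
    ring
  rw [h2, mul_smul, h1, smul_add]
  have h3 : (k * (C₀ * b.N.factorial) * Q) • z' = 0 := by
    have : k * (C₀ * b.N.factorial) * Q = (k * b.N.factorial * Q) * C₀ := by ring
    rw [this, mul_smul, h0, smul_zero]
  have h4 : (k * (C₀ * b.N.factorial) * Q) • S = 0 := by
    have : k * (C₀ * b.N.factorial) * Q =
        (k * (C₀ * k)) * (Q * Module.finrank (baseF F t X) E) := by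
      rw [hk]
      ring
    rw [this, mul_smul, mul_smul Q, hS0, smul_zero]
  rw [h3, h4, add_zero]

/-- Unramified classes of a cyclic cover of an affine space over a finite field, the twist being an
`N`-th power: the nonbalanced characters and those of a single curve. -/
theorem cycProdD_kills_weight (hN : b.N.Prime) {p : ℕ} [Fact p.Prime] [CharP 𝔽 p] {wd : ℕ}
    (hwd : 0 < wd) {n : ℕ} (B A : Fin n → ZMod b.N) (hnd : IsNondegenerate B A)
    (hb : ¬ IsBalanced p B A ∨ ∀ i j, B i ≠ 0 → B j ≠ 0 → i = j) :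
    ∃ C : ℕ, 0 < C ∧ ∀ (m : UFun.{u, z}) (_ : m.Specializes) (_ : m.HasWeight 𝔽 b.q wd)
      (F E : Type u) [Field F] [Field E] [Algebra F E] (_ : 𝔽 →+* F) (_ : ∀ a : F, a ^ b.q = a)
      (r : ℕ) (t : Fin r → E) (X : Fin n → E) (D W : E)
      (_ : CycProdD b.N (F := F) t X D W B A)
      (_ : ∃ β ∈ IntermediateField.adjoin F (Set.range t), D = β ^ b.N)
      (z : KM m E), Unr z → C • z = 0 := by
  have : Fact b.N.Prime := ⟨hN⟩
  induction n with
  | zero =>
    obtain ⟨C, hC, h⟩ := cycProd_kills_of_ne.{u, z} b hN hwd (n := 0) (B := B) (A := A)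
      (fun j => j.elim0) (fun j => j.elim0) (fun j => j.elim0) (fun h => absurd h (by omega))
    refine ⟨C, hC, ?_⟩
    intro m hs hw F E _ _ _ ι hF r t X D W hW hβ z hz
    obtain ⟨β, hβ, hD⟩ := hβ
    exact h m hs hw F E ι hF r t X _ (hW.toCyc b.N_pos hβ hD) z hz
  | succ n ih =>
    by_cases h1 : ∃ j, B j = 0 ∧ A j = 0
    · obtain ⟨j, hBj, hAj⟩ := h1
      obtain ⟨C, hC, h⟩ := ih (fun i => B (j.succAbove i)) (fun i => A (j.succAbove i))
        (fun i => hnd _) (by
          rcases hb with hb | hb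
          · exact Or.inl fun h4 => hb ((isBalanced_drop j hBj hAj).1 h4)
          · exact Or.inr fun i i' hi hi' =>
              Fin.succAbove_right_injective (hb _ _ hi hi'))
      refine ⟨C, hC, ?_⟩
      intro m hs hw F E _ _ _ ι hF r t X D W hW hβ z hz
      obtain ⟨β, hβ, hD⟩ := hβ
      refine h m hs hw F E ι hF (r + 1) _ _ D W (hW.drop j hBj hAj) ⟨β, ?_, hD⟩ z hz
      refine (IntermediateField.adjoin.mono F _ _ ?_) hβ
      rintro z ⟨i, rfl⟩
      exact ⟨i.castSucc, Fin.snoc_castSucc _ _ _⟩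
    · have h2 : ∀ j, B j ≠ 0 ∧ A j ≠ 0 ∧ B j + A j ≠ 0 := fun j =>
        (hnd j).resolve_left fun h => h1 ⟨j, h⟩
      have hne : n + 1 = 2 * wd → ∀ χ : MulChar 𝔽 ℂ, orderOf χ = b.N →
          ∏ j, jacobiSum (χ ^ (B j).val) (χ ^ (A j).val) ≠ (b.q : ℂ) ^ wd := by
        intro hn χ hχ hJ
        rcases hb with hb | hb
        · rw [← b.card_q] at hJ
          exact hb (isBalanced_of_jacobi hN (fun j => (h2 j).1) (fun j => (h2 j).2.1)
            (fun j => (h2 j).2.2) χ hχ hJ)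
        · have h3 := hb ⟨0, by omega⟩ ⟨1, by omega⟩ (h2 _).1 (h2 _).1
          exact absurd (congrArg Fin.val h3) (by norm_num)
      obtain ⟨C, hC0, h⟩ := cycProd_kills_of_ne.{u, z} b hN hwd (fun j => (h2 j).1)
        (fun j => (h2 j).2.1) (fun j => (h2 j).2.2) hne
      refine ⟨C, hC0, ?_⟩
      intro m hs hw F E _ _ _ ι hF r t X D W hW hβ z hz
      obtain ⟨β, hβ, hD⟩ := hβ
      exact h m hs hw F E ι hF r t X _ (hW.toCyc b.N_pos hβ hD) z hz

end UnrA.Fer
end

section

/-!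
# Cyclic covers of affine spaces over a field with a rational finite extension
-/

namespace UnrA.Fer

open UnrG

universe u v w z

open Polynomial Finset
open scoped Classical

/-- The kernel of the map attached to a finite extension of degree at most `h`. -/
lemma factorial_smul_eq_zero {m : UFun.{u, z}} {K L : Type u} [Field K] [Field L] [Algebra K L]
    [FiniteDimensional K L] {h : ℕ} (hh : Module.finrank K L ≤ h) {x : KM m K}
    (hx : KM.map m (algebraMap K L) x = 0) : h.factorial • x = 0 := by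
  have h1 := finrank_smul_eq_zero _ rfl hx
  obtain ⟨d, hd⟩ := Nat.dvd_factorial (Module.finrank_pos (R := K) (M := L)) hh
  rw [hd, mul_comm, mul_smul, h1, smul_zero]

/-- Cyclic covers of affine spaces over a field which has a rational finite extension over which
the twist is trivial. -/
theorem cycProdD_kills_base {𝔽 : Type} [Field 𝔽] [Fintype 𝔽] (b : Base 𝔽) (hN : b.N.Prime) {p : ℕ}
    [Fact p.Prime] [CharP 𝔽 p] {wd : ℕ}
    (hwd : 0 < wd) {n : ℕ} (B A : Fin n → ZMod b.N) (hnd : IsNondegenerate B A)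
    (hb : ¬ IsBalanced p B A ∨ ∀ i j, B i ≠ 0 → B j ≠ 0 → i = j) :
    ∃ C : ℕ, 0 < C ∧ ∀ (m : UFun.{u, z}) (_ : m.Specializes) (_ : m.HasWeight 𝔽 b.q wd)
      (k E k' κ : Type u) [Field k] [Field E] [Field k'] [Field κ] [Algebra k E] [Algebra k k']
      [FiniteDimensional k k'] [Algebra κ k'] (_ : 𝔽 →+* κ) (_ : ∀ a : κ, a ^ b.q = a)
      (h : ℕ) (_ : Module.finrank k k' ≤ h)
      (t : Fin 0 → E) (X : Fin n → E) (D W : E)
      (_ : CycProdD b.N (F := k) t X D W B A) (s : ℕ) (τ : Fin s → k')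
      (_ : AlgebraicIndependent κ τ) (_ : IntermediateField.adjoin κ (Set.range τ) = ⊤)
      (d : k) (β : k') (_ : algebraMap k E d = D) (_ : algebraMap k k' d = β ^ b.N)
      (z : KM m E), Unr z → (h.factorial * C) • z = 0 := by
  obtain ⟨C, hC, H⟩ := cycProdD_kills_weight.{u, z} b hN (p := p) hwd B A hnd hb
  refine ⟨C, hC, ?_⟩
  intro m hs hw k E k' κ _ _ _ _ _ _ _ _ ι hκ h hh t X D W hE s τ hτ hgen d β hd hβ z hz
  obtain ⟨E', _, _, _, _, hfd, hle, hcomm, hE', hmem⟩ := exists_baseChange hE hτ hgen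
  have h1 : C • KM.map m (algebraMap E E') z = 0 := by
    refine H m hs hw κ E' ι hκ s _ _ _ _ hE' ⟨algebraMap k' E' β, hmem β, ?_⟩ _ (hz.map _)
    rw [← hd, hcomm, hβ, map_pow]
  rw [mul_smul]
  refine factorial_smul_eq_zero (hle.trans hh) ?_
  rw [map_nsmul, h1]

end UnrA.Fer
end
end
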