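import Pool.Agent.Lib.MP_859dd5_ag.Mg.G078
import Pool.Agent.Lib.MP_859dd5_ag.AS.Stm
import Pool.Agent.Lib.MP_859dd5_ag.Mg.G007
import Pool.Agent.Lib.MP_859dd5_ag.Mg.G079
import Pool.Agent.Lib.MP_859dd5_ag.Mg.G046
import Pool.Agent.Lib.MP_859dd5_ag.Mg.G076
import Pool.Agent.Lib.MP_859dd5_ag.Mg.G044
import Pool.Agent.Lib.MP_859dd5_ag.Mg.G049
import Pool.Agent.Lib.MP_859dd5_ag.Mg.G074

section

/-!
# The variety `z ^ p - z = ∑ g_j(s_j)`: its cover by a product of curves
-/

namespace UnrA.Fer

open UnrG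

universe u v w z

open Polynomial Finset
open scoped Classical

section

variable {p M : ℕ}

private lemma One_deg {k : Type u} [Field k] (h : ℕ) (r : ℕ → k) (hr : r h ≠ 0) (l e : k)
    (hp1 : 1 < p) : (X * ∑ i ∈ range (h + 1), C (r i) * X ^ p ^ i + C l * X + C e : k[X]).natDegree
      = p ^ h + 1 := by
  have h1 : ∀ m : ℕ, m ≤ h → (∑ i ∈ range m, C (r i) * X ^ (p ^ i + 1) +
      (C l * X + C e) : k[X]).natDegree < p ^ h + 1 := by
    intro m hm
    refine Nat.lt_succ_of_le ((natDegree_add_le _ _).trans (max_le ?_ ?_))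
    · refine natDegree_sum_le_of_forall_le _ _ fun i hi => ?_
      refine (natDegree_C_mul_X_pow_le _ _).trans ?_
      have h2 : i < h := lt_of_lt_of_le (mem_range.1 hi) hm
      exact Nat.pow_lt_pow_right hp1 h2
    · refine (natDegree_add_le _ _).trans (max_le ?_ ?_)
      · exact (natDegree_C_mul_le _ _).trans (natDegree_X_le.trans (Nat.one_le_pow _ _ (by lia)))
      · rw [natDegree_C]
        exact Nat.zero_le _
  have h2 : (X * ∑ i ∈ range (h + 1), C (r i) * X ^ p ^ i + C l * X + C e : k[X]) =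
      ∑ i ∈ range (h + 1), C (r i) * X ^ (p ^ i + 1) + (C l * X + C e) := by
    rw [mul_sum, add_assoc]
    congr 1
    refine sum_congr rfl fun i _ => ?_
    ring
  rw [h2, sum_range_succ, add_assoc, add_comm (C (r h) * X ^ (p ^ h + 1)), ← add_assoc]
  rw [natDegree_add_eq_right_of_natDegree_lt, natDegree_C_mul_X_pow _ _ hr]
  rw [natDegree_C_mul_X_pow _ _ hr]
  exact h1 h le_rfl

lemma not_dvd_natDegree_of_additive [Fact p.Prime] {k : Type u} [Field k] {g : k[X]}
    (hg : IsAdditiveForm p M g) : ¬ p ∣ g.natDegree := by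
  have hp : p.Prime := Fact.out
  obtain ⟨h, r, l, e, -, h2, hr, rfl⟩ := hg
  rw [One_deg h r hr l e hp.one_lt]
  intro hdvd
  rcases Nat.eq_zero_or_pos h with h0 | h0
  · rw [h0, pow_zero] at hdvd
    have h3 : p = 2 := by
      have h3 := Nat.le_of_dvd (by norm_num) hdvd
      have h4 := hp.two_le
      lia
    have h5 := h2 h3
    lia
  · have h1 : p ∣ p ^ h := dvd_pow_self p (by lia)
    have h2 := (Nat.dvd_add_right h1).1 hdvd
    exact hp.one_lt.ne' (Nat.dvd_one.1 h2)

lemma aeval_mem_field {k L : Type u} [Field k] [Field L] [Algebra k L] {F : IntermediateField k L}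
    {x : L} (hx : x ∈ F) (f : k[X]) : aeval x f ∈ F := by
  have h1 := Polynomial.aeval_algHom_apply F.val (⟨x, hx⟩ : F) f
  rw [show (F.val ⟨x, hx⟩ : L) = x from rfl] at h1
  rw [h1]
  exact (aeval (⟨x, hx⟩ : F) f).2

/-- Moving one of the curves. -/
theorem exists_moveOne [Fact p.Prime] {k L : Type u} [Field k] [Field L] [CharP k p] [Algebra k L]
    {n : ℕ} {g : Fin n → k[X]} {s t : Fin n → L} (hg : ∀ j, IsAdditiveForm p M (g j))
    (he : ∀ j, t j ^ p - t j = aeval (s j) (g j)) (hs : AlgebraicIndependent k s)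
    (hgen : IntermediateField.adjoin k (Set.range s ∪ Set.range t) = ⊤) (j : Fin n) :
    ∃ σ : L →+* L, (∀ a : k, σ (algebraMap k L a) = algebraMap k L a) ∧ (∀ i, σ (s i) = s i) ∧
      (∀ i, i ≠ j → σ (t i) = t i) ∧ σ (t j) = t j + 1 := by
  have hp : p.Prime := Fact.out
  -- the field without `t j`
  obtain ⟨T, hT⟩ : ∃ T : IntermediateField k L,
    T = IntermediateField.adjoin k (Set.range s ∪ t '' {j}ᶜ) := ⟨_, rfl⟩
  -- the field without `s j` and `t j`
  obtain ⟨K, hK⟩ : ∃ K : IntermediateField k L,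
    K = IntermediateField.adjoin k (s '' {j}ᶜ ∪ t '' {j}ᶜ) := ⟨_, rfl⟩
  have hKT : K ≤ T := by
    rw [hK, hT]
    exact IntermediateField.adjoin.mono k _ _
      (Set.union_subset_union_left _ (Set.image_subset_range _ _))
  have hsT : ∀ i, s i ∈ T := fun i => by
    rw [hT]
    exact IntermediateField.subset_adjoin _ _ (Or.inl ⟨i, rfl⟩)
  have htT : ∀ i, i ≠ j → t i ∈ T := fun i hi => by
    rw [hT]
    exact IntermediateField.subset_adjoin _ _ (Or.inr ⟨i, hi, rfl⟩)
  have hTp : CharP T p := charP_of_injective_algebraMap (algebraMap k T).injective p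
  have hKp : CharP K p := charP_of_injective_algebraMap (algebraMap k K).injective p
  have hLp : CharP L p := charP_of_injective_algebraMap (algebraMap k L).injective p
  let ι : K →+* T := (IntermediateField.inclusion hKT).toRingHom
  -- `s j` is transcendental over `K`
  have htr : Transcendental K (s j) := by
    have hind : AlgebraicIndependent k
        (Sum.elim (fun _ : Unit => s j) (fun i : {i : Fin n // i ≠ j} => s i)) := by
      have h1 := hs.comp (fun x : Unit ⊕ {i : Fin n // i ≠ j} => Sum.elim (fun _ => j) (fun i => i.1) x)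
        (by
          rintro (x | x) (y | y) hxy
          · rfl
          · exact absurd hxy.symm y.2
          · exact absurd hxy x.2
          · exact congrArg Sum.inr (Subtype.ext hxy))
      have h2 : s ∘ (fun x : Unit ⊕ {i : Fin n // i ≠ j} => Sum.elim (fun _ => j) (fun i => i.1) x) =
          Sum.elim (fun _ : Unit => s j) (fun i : {i : Fin n // i ≠ j} => s i) := by
        funext x
        rcases x with x | x <;> rfl
      rwa [h2] at h1
    have hK' : ∀ z ∈ K, IsAlgebraic (IntermediateField.adjoin k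
        (Set.range fun i : {i : Fin n // i ≠ j} => s i)) z := by
      intro z hz
      rw [hK] at hz
      refine isAlgebraic_adjoin ?_ hz
      rintro x (⟨i, hi, rfl⟩ | ⟨i, hi, rfl⟩)
      · exact isAlgebraic_algebraMap
          (⟨s i, IntermediateField.subset_adjoin _ _ ⟨⟨i, hi⟩, rfl⟩⟩ : IntermediateField.adjoin k
            (Set.range fun i : {i : Fin n // i ≠ j} => s i))
      · refine isAlgebraic_of_as hp.one_lt ?_
        rw [he i]
        have h1 : s i ∈ IntermediateField.adjoin k
            (Set.range fun i : {i : Fin n // i ≠ j} => s i) :=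
          IntermediateField.subset_adjoin _ _ ⟨⟨i, hi⟩, rfl⟩
        exact aeval_mem_field h1 (g i)
    have h1 := algebraicIndependent_over hind K hK'
    rwa [algebraicIndependent_unique_type_iff] at h1
  have hx0 : ∀ f : K[X], f ≠ 0 → f.eval₂ ι (⟨s j, hsT j⟩ : T) ≠ 0 := by
    intro f hf h0
    apply htr
    refine ⟨f, hf, ?_⟩
    have h1 := congrArg (algebraMap T L) h0
    rw [map_zero, hom_eval₂] at h1
    exact h1
  have hgenT : Subfield.closure (Set.range ι ∪ {(⟨s j, hsT j⟩ : T)}) = ⊤ := by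
    obtain ⟨R, hR⟩ : ∃ R, R = Subfield.closure (Set.range ι ∪ {(⟨s j, hsT j⟩ : T)}) := ⟨_, rfl⟩
    rw [← hR, eq_top_iff]
    intro y _
    have hKR : ∀ z : K, ι z ∈ R := fun z => by
      rw [hR]
      exact Subfield.subset_closure (Or.inl ⟨z, rfl⟩)
    have h1 : T.toSubfield ≤ R.map (algebraMap T L) := by
      have h2 : T.toSubfield = Subfield.closure (Set.range (algebraMap k L) ∪
          (Set.range s ∪ t '' {j}ᶜ)) := by
        rw [hT, IntermediateField.adjoin_toSubfield]
      rw [h2, Subfield.closure_le]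
      rintro _ (⟨b, rfl⟩ | (⟨i, rfl⟩ | ⟨i, hi, rfl⟩))
      · exact ⟨ι (algebraMap k K b), hKR _, rfl⟩
      · by_cases hi : i = j
        · subst hi
          refine ⟨⟨s i, hsT i⟩, ?_, rfl⟩
          rw [hR]
          exact Subfield.subset_closure (Or.inr rfl)
        · have h3 : s i ∈ K := by
            rw [hK]
            exact IntermediateField.subset_adjoin _ _ (Or.inl ⟨i, hi, rfl⟩)
          exact ⟨ι ⟨s i, h3⟩, hKR _, rfl⟩
      · have h3 : t i ∈ K := by
          rw [hK]
          exact IntermediateField.subset_adjoin _ _ (Or.inr ⟨i, hi, rfl⟩)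
        exact ⟨ι ⟨t i, h3⟩, hKR _, rfl⟩
    obtain ⟨y', hy', hyy⟩ := h1 y.2
    have h3 : y' = y := Subtype.ext hyy
    rw [← h3]
    exact hy'
  obtain ⟨a, ha⟩ : ∃ a : T, (a : L) = aeval (s j) (g j) :=
    ⟨⟨_, aeval_mem_field (hsT j) (g j)⟩, rfl⟩
  have hne : ∀ b : T, b ^ p - b ≠ a := by
    have h1 : ((g j).map (algebraMap k K)).eval₂ ι (⟨s j, hsT j⟩ : T) = a := by
      apply Subtype.ext
      rw [ha, eval₂_map]
      have h2 := hom_eval₂ (g j) (ι.comp (algebraMap k K)) (algebraMap T L) (⟨s j, hsT j⟩ : T)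
      exact h2
    rw [← h1]
    refine as_not_mem ι hx0 hgenT _ ?_
    rw [natDegree_map]
    exact not_dvd_natDegree_of_additive (hg j)
  have htop : IntermediateField.adjoin T {t j} = ⊤ := by
    have h1 : (IntermediateField.adjoin T {t j}).restrictScalars k = ⊤ := by
      rw [hT, IntermediateField.adjoin_adjoin_left k (Set.range s ∪ t '' {j}ᶜ) {t j}, ← hgen]
      congr 1
      rw [Set.union_assoc]
      congr 1
      ext x
      constructor
      · rintro (⟨i, hi, rfl⟩ | hx)
        · exact ⟨i, rfl⟩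
        · rw [Set.mem_singleton_iff] at hx
          exact ⟨j, hx.symm⟩
      · rintro ⟨i, rfl⟩
        by_cases hi : i = j
        · subst hi
          exact Or.inr rfl
        · exact Or.inl ⟨i, hi, rfl⟩
    exact IntermediateField.restrictScalars_injective k
      (h1.trans IntermediateField.restrictScalars_top.symm)
  obtain ⟨σ, h1, h2⟩ := as_lift hne (Y := t j) (by rw [he j]; exact ha.symm) htop
    (algebraMap T L) (t j + 1) (by
      rw [add_pow_char, one_pow, add_sub_add_right_eq_sub, he j]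
      exact ha.symm)
  have hfix : ∀ z ∈ T, σ z = z := fun z hz => RingHom.congr_fun h1 ⟨z, hz⟩
  exact ⟨σ, fun b => hfix _ (T.algebraMap_mem b), fun i => hfix _ (hsT i),
    fun i hi => hfix _ (htT i hi), h2⟩

/-- Moving all of the curves. -/
theorem exists_move [Fact p.Prime] {k L : Type u} [Field k] [Field L] [CharP k p] [Algebra k L]
    {n : ℕ} {g : Fin n → k[X]} {s t : Fin n → L} (hg : ∀ j, IsAdditiveForm p M (g j))
    (he : ∀ j, t j ^ p - t j = aeval (s j) (g j)) (hs : AlgebraicIndependent k s)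
    (hgen : IntermediateField.adjoin k (Set.range s ∪ Set.range t) = ⊤) (c : Fin n → ℕ) :
    ∃ σ : L →+* L, (∀ a : k, σ (algebraMap k L a) = algebraMap k L a) ∧ (∀ i, σ (s i) = s i) ∧
      ∀ i, σ (t i) = t i + (c i : L) := by
  have h1 : ∀ (j : Fin n) (m : ℕ), ∃ σ : L →+* L,
      (∀ a : k, σ (algebraMap k L a) = algebraMap k L a) ∧ (∀ i, σ (s i) = s i) ∧
      (∀ i, i ≠ j → σ (t i) = t i) ∧ σ (t j) = t j + (m : L) := by
    intro j m
    obtain ⟨σ, h2, h3, h4, h5⟩ := exists_moveOne hg he hs hgen j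
    induction m with
    | zero =>
      exact ⟨RingHom.id L, fun _ => rfl, fun _ => rfl, fun _ _ => rfl, by simp⟩
    | succ m ih =>
      obtain ⟨ρ, h6, h7, h8, h9⟩ := ih
      refine ⟨ρ.comp σ, fun a => ?_, fun i => ?_, fun i hi => ?_, ?_⟩
      · rw [RingHom.comp_apply, h2, h6]
      · rw [RingHom.comp_apply, h3, h7]
      · rw [RingHom.comp_apply, h4 i hi, h8 i hi]
      · rw [RingHom.comp_apply, h5, map_add, map_one, h9, Nat.cast_add, Nat.cast_one, add_assoc]
  have key : ∀ J : Finset (Fin n), ∃ σ : L →+* L,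
      (∀ a : k, σ (algebraMap k L a) = algebraMap k L a) ∧ (∀ i, σ (s i) = s i) ∧
      ∀ i, σ (t i) = t i + ((if i ∈ J then c i else 0 : ℕ) : L) := by
    intro J
    induction J using Finset.induction_on with
    | empty =>
      exact ⟨RingHom.id L, fun _ => rfl, fun _ => rfl, fun i => by simp⟩
    | insert j J hj ih =>
      obtain ⟨ρ, h6, h7, h8⟩ := ih
      obtain ⟨σ, h2, h3, h4, h5⟩ := h1 j (c j)
      refine ⟨ρ.comp σ, fun a => ?_, fun i => ?_, fun i => ?_⟩
      · rw [RingHom.comp_apply, h2, h6]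
      · rw [RingHom.comp_apply, h3, h7]
      · rw [RingHom.comp_apply]
        by_cases hi : i = j
        · subst hi
          rw [h5, map_add, map_natCast, h8, if_neg hj, if_pos (mem_insert_self _ _), Nat.cast_zero,
            add_zero]
        · rw [h4 i hi, h8]
          congr 2
          simp [hi]
  obtain ⟨σ, h2, h3, h4⟩ := key univ
  exact ⟨σ, h2, h3, fun i => by rw [h4, if_pos (mem_univ _)]⟩

end

/-- The degree of a compositum of Artin-Schreier extensions. -/
theorem finrank_adjoin_as {p : ℕ} (hp : 1 < p) {K W : Type u} [Field K] [Field W] [Algebra K W]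
    {n : ℕ} (t : Fin n → W) (a : Fin n → K) (ht : ∀ j, t j ^ p - t j = algebraMap K W (a j)) :
    FiniteDimensional K (IntermediateField.adjoin K (Set.range t)) ∧
      Module.finrank K (IntermediateField.adjoin K (Set.range t)) ≤ p ^ n := by
  have hpol : ∀ j, ∃ f : K[X], f.Monic ∧ f.natDegree = p ∧ aeval (t j) f = 0 := by
    intro j
    refine ⟨X ^ p - (X + C (a j)), monic_X_pow_sub ?_, ?_, ?_⟩
    · rw [degree_X_add_C]
      exact_mod_cast hp
    · rw [natDegree_sub_eq_left_of_natDegree_lt, natDegree_X_pow]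
      rw [natDegree_X_add_C, natDegree_X_pow]
      exact hp
    · rw [map_sub, map_add, map_pow, aeval_X, aeval_C, ← ht j]
      ring
  have hint : ∀ j, IsIntegral K (t j) := by
    intro j
    obtain ⟨f, h1, -, h3⟩ := hpol j
    exact ⟨f, h1, by rwa [aeval_def] at h3⟩
  have h1 : ∀ J : Finset (Fin n),
      FiniteDimensional K (IntermediateField.adjoin K (t '' (J : Set (Fin n)))) ∧
      Module.finrank K (IntermediateField.adjoin K (t '' (J : Set (Fin n)))) ≤ p ^ J.card := by
    intro J
    induction J using Finset.induction_on with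
    | empty =>
      rw [Finset.coe_empty, Set.image_empty, IntermediateField.adjoin_empty]
      exact ⟨inferInstance, by simp⟩
    | insert j J hj ih =>
      have h2 : IntermediateField.adjoin K (t '' ((insert j J : Finset (Fin n)) : Set (Fin n))) =
          IntermediateField.adjoin K {t j} ⊔ IntermediateField.adjoin K (t '' (J : Set (Fin n))) := by
        rw [← IntermediateField.adjoin_union, Finset.coe_insert, Set.image_insert_eq]
        rfl
      have h3 : FiniteDimensional K (IntermediateField.adjoin K {t j}) :=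
        IntermediateField.adjoin.finiteDimensional (hint j)
      have h4 := ih.1
      rw [h2, Finset.card_insert_of_notMem hj, pow_succ, mul_comm (p ^ J.card)]
      refine ⟨inferInstance, (IntermediateField.finrank_sup_le _ _).trans ?_⟩
      refine Nat.mul_le_mul ?_ ih.2
      rw [IntermediateField.adjoin.finrank (hint j)]
      obtain ⟨f, h5, h6, h7⟩ := hpol j
      rw [← h6]
      exact natDegree_le_of_dvd (minpoly.dvd K _ h7) h5.ne_zero
  have h2 := h1 Finset.univ
  rwa [Finset.coe_univ, Set.image_univ, Finset.card_univ, Fintype.card_fin] at h2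

/-- The cover of the variety `z ^ p - z = ∑ g_j(s_j)` by the product of the curves
`t_j ^ p - t_j = g_j(s_j)`. -/
theorem exists_cover {p : ℕ} [Fact p.Prime] {k K : Type u} [Field k] [Field K] [CharP k p]
    [Algebra k K] {n : ℕ} (hn : 0 < n) {g : Fin n → k[X]} {s : Fin n → K} {z : K}
    (hz : z ^ p - z = ∑ j, aeval (s j) (g j))
    (hgen : IntermediateField.adjoin k (Set.range s ∪ {z}) = ⊤) :
    ∃ (L : Type u) (_ : Field L) (_ : Algebra K L) (_ : Algebra k L) (_ : IsScalarTower k K L)
      (t : Fin n → L), FiniteDimensional K L ∧ Module.finrank K L ∣ (p ^ n).factorial ∧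
      (∀ j, t j ^ p - t j = aeval (algebraMap K L (s j)) (g j)) ∧ algebraMap K L z = ∑ j, t j ∧
      IntermediateField.adjoin k (Set.range (fun j => algebraMap K L (s j)) ∪ Set.range t) = ⊤ := by
  have hp : p.Prime := Fact.out
  have hKp : CharP K p := charP_of_injective_algebraMap (algebraMap k K).injective p
  let W := AlgebraicClosure K
  have hWp : CharP W p := charP_of_injective_algebraMap (algebraMap K W).injective p
  -- roots
  have hroot : ∀ a : W, ∃ y : W, y ^ p - y = a := by
    intro a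
    obtain ⟨y, hy⟩ := IsAlgClosed.exists_root (X ^ p - (X + C a) : W[X]) (by
      rw [degree_sub_eq_left_of_degree_lt]
      · rw [degree_X_pow]
        exact_mod_cast hp.pos.ne'
      · rw [degree_X_pow, degree_X_add_C]
        exact_mod_cast hp.one_lt)
    refine ⟨y, ?_⟩
    rw [IsRoot.def, eval_sub, eval_pow, eval_X, eval_add, eval_X, eval_C] at hy
    linear_combination hy
  choose τ hτ using fun j => hroot (algebraMap K W (aeval (s j) (g j)))
  obtain ⟨c, hc⟩ : ∃ c : W, c = ∑ j, τ j - algebraMap K W z := ⟨_, rfl⟩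
  have hcp : c ^ p = c := by
    have h1 : c ^ p - c = 0 := by
      rw [hc, sub_pow_char, sum_pow_char]
      have h2 : ∀ j, τ j ^ p = τ j + algebraMap K W (aeval (s j) (g j)) := fun j => by
        rw [← hτ j]
        ring
      rw [sum_congr rfl fun j _ => h2 j, sum_add_distrib, ← map_sum, ← hz, map_sub, map_pow]
      ring
    exact sub_eq_zero.mp h1
  obtain ⟨t₀, ht₀⟩ : ∃ t₀ : Fin n → W, t₀ = fun j => if j = ⟨0, hn⟩ then τ j - c else τ j :=
    ⟨_, rfl⟩
  have hteq : ∀ j, t₀ j ^ p - t₀ j = algebraMap K W (aeval (s j) (g j)) := by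
    intro j
    rw [ht₀]
    beta_reduce
    split_ifs
    · rw [sub_pow_char, hcp, ← hτ j]
      ring
    · exact hτ j
  have htsum : ∑ j, t₀ j = algebraMap K W z := by
    have h1 : ∀ j, t₀ j = τ j - if j = ⟨0, hn⟩ then c else 0 := by
      intro j
      rw [ht₀]
      beta_reduce
      split_ifs <;> ring
    rw [sum_congr rfl fun j _ => h1 j, sum_sub_distrib, Finset.sum_ite_eq' univ, if_pos (mem_univ _),
      hc]
    ring
  obtain ⟨hfd, hfr⟩ := finrank_adjoin_as hp.one_lt t₀ _ hteq
  let L := IntermediateField.adjoin K (Set.range t₀)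
  have htL : ∀ j, t₀ j ∈ L := fun j => IntermediateField.subset_adjoin _ _ ⟨j, rfl⟩
  let _ : Algebra k L := ((algebraMap K L).comp (algebraMap k K)).toAlgebra
  have htow : IsScalarTower k K L := IsScalarTower.of_algebraMap_eq fun x => rfl
  have hsum : algebraMap K L z = ∑ j, (⟨t₀ j, htL j⟩ : L) := by
    apply Subtype.ext
    have h1 : ((∑ j, (⟨t₀ j, htL j⟩ : L) : L) : W) = ∑ j, t₀ j := by
      have h2 := map_sum L.val (fun j => (⟨t₀ j, htL j⟩ : L)) univ
      exact h2
    rw [h1, htsum]
    rfl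
  refine ⟨L, inferInstance, inferInstance, inferInstance, htow, fun j => ⟨t₀ j, htL j⟩, hfd,
    Nat.dvd_factorial Module.finrank_pos hfr, fun j => ?_, hsum, ?_⟩
  · apply Subtype.ext
    rw [aeval_algebraMap_apply]
    exact hteq j
  · obtain ⟨R, hR⟩ : ∃ R : IntermediateField k L, R = IntermediateField.adjoin k
      (Set.range (fun j => algebraMap K L (s j)) ∪ Set.range fun j => (⟨t₀ j, htL j⟩ : L)) :=
      ⟨_, rfl⟩
    rw [← hR]
    have hsR : ∀ j, algebraMap K L (s j) ∈ R := fun j => by
      rw [hR]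
      exact IntermediateField.subset_adjoin _ _ (Or.inl ⟨j, rfl⟩)
    have htR : ∀ j, (⟨t₀ j, htL j⟩ : L) ∈ R := fun j => by
      rw [hR]
      exact IntermediateField.subset_adjoin _ _ (Or.inr ⟨j, rfl⟩)
    have hKR : ∀ x : K, algebraMap K L x ∈ R := by
      intro x
      have h1 : IntermediateField.adjoin k (Set.range s ∪ {z}) ≤
          R.comap (IsScalarTower.toAlgHom k K L) := by
        rw [IntermediateField.adjoin_le_iff]
        rintro y (⟨j, rfl⟩ | hy)
        · exact hsR j
        · rw [Set.mem_singleton_iff] at hy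
          rw [hy]
          change algebraMap K L z ∈ R
          rw [hsum]
          exact sum_mem fun j _ => htR j
      rw [hgen] at h1
      exact h1 (IntermediateField.mem_top (x := x))
    have h2 : IntermediateField.adjoin K (Set.range fun j => (⟨t₀ j, htL j⟩ : L)) = ⊤ := by
      apply IntermediateField.lift_injective L
      rw [IntermediateField.lift_adjoin, IntermediateField.lift_top, ← Set.range_comp]
      rfl
    have h3 : IntermediateField.adjoin K (Set.range fun j => (⟨t₀ j, htL j⟩ : L)) ≤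
        R.toSubfield.toIntermediateField hKR := by
      rw [IntermediateField.adjoin_le_iff]
      rintro _ ⟨j, rfl⟩
      exact htR j
    rw [h2] at h3
    rw [eq_top_iff]
    intro x _
    exact h3 (IntermediateField.mem_top (x := x))


/-- The cover and its automorphisms. -/
theorem exists_cover_move {p M : ℕ} [Fact p.Prime] {k K : Type u} [Field k] [Field K] [CharP k p]
    [Algebra k K] {n : ℕ} (hn : 0 < n) {g : Fin n → k[X]} {s : Fin n → K} {z : K}
    (hg : ∀ j, IsAdditiveForm p M (g j)) (hs : AlgebraicIndependent k s)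
    (hz : z ^ p - z = ∑ j, aeval (s j) (g j))
    (hgen : IntermediateField.adjoin k (Set.range s ∪ {z}) = ⊤) :
    ∃ (L : Type u) (_ : Field L) (_ : Algebra K L) (_ : Algebra k L)
      (t : Fin n → L), (∀ a : k, algebraMap K L (algebraMap k K a) = algebraMap k L a) ∧
      FiniteDimensional K L ∧ Module.finrank K L ∣ (p ^ n).factorial ∧
      (∀ j, t j ^ p - t j = aeval (algebraMap K L (s j)) (g j)) ∧
      AlgebraicIndependent k (fun j => algebraMap K L (s j)) ∧
      IntermediateField.adjoin k (Set.range (fun j => algebraMap K L (s j)) ∪ Set.range t) = ⊤ ∧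
      ∀ c : Fin n → ℕ, p ∣ ∑ i, c i → ∃ σ : L →+* L,
        (∀ x : K, σ (algebraMap K L x) = algebraMap K L x) ∧ ∀ i, σ (t i) = t i + (c i : L) := by
  obtain ⟨L, _, _, _, _, t, h1, h2, h3, h4, h5⟩ := exists_cover hn hz hgen
  have hLp : CharP L p := charP_of_injective_algebraMap (algebraMap k L).injective p
  have h6 : AlgebraicIndependent k (fun j => algebraMap K L (s j)) :=
    hs.map' (f := IsScalarTower.toAlgHom k K L) (algebraMap K L).injective
  refine ⟨L, inferInstance, inferInstance, inferInstance, t,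
    fun a => (IsScalarTower.algebraMap_apply k K L a).symm, h1, h2, h3, h6, h5, fun c hc => ?_⟩
  obtain ⟨σ, h7, h8, h9⟩ := exists_move hg h3 h6 h5 c
  refine ⟨σ, fun x => ?_, h9⟩
  have hσz : σ (algebraMap K L z) = algebraMap K L z := by
    rw [h4, map_sum, sum_congr rfl fun j _ => h9 j, sum_add_distrib, ← Nat.cast_sum,
      (CharP.cast_eq_zero_iff L p _).2 hc, add_zero]
  have h10 : (⊤ : IntermediateField k K).toSubfield ≤
      RingHom.eqLocusField (σ.comp (algebraMap K L)) (algebraMap K L) := by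
    rw [← hgen, IntermediateField.adjoin_toSubfield, Subfield.closure_le]
    rintro y (⟨a, rfl⟩ | (⟨j, rfl⟩ | hy))
    · change σ (algebraMap K L (algebraMap k K a)) = algebraMap K L (algebraMap k K a)
      rw [← IsScalarTower.algebraMap_apply k K L a, h7]
    · exact h8 j
    · rw [Set.mem_singleton_iff] at hy
      rw [hy]
      exact hσz
  exact h10 (show x ∈ (⊤ : IntermediateField k K) from IntermediateField.mem_top)

end UnrA.Fer
end

section

/-!
# Products of Gauss sums without twisted pairs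
-/

namespace UnrA.Fer

open UnrG

universe u v w z

open Polynomial Finset
open scoped Classical

/-- The multiples of a nonzero residue class are all the residue classes. -/
private lemma B6_mul {N : ℕ} [Fact N.Prime] {x : ZMod N} (hx : x ≠ 0) (f : ZMod N → ℕ) :
    ∑ i ∈ range N, f ((i : ZMod N) * x) = ∑ y, f y := by
  have h1 : ∑ i ∈ range N, f ((i : ZMod N) * x) = ∑ y : ZMod N, f (y * x) := by
    refine Finset.sum_bij' (fun i _ => (i : ZMod N)) (fun y _ => y.val) ?_ ?_ ?_ ?_ ?_
    · intro i _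
      exact mem_univ _
    · intro y _
      exact mem_range.2 (ZMod.val_lt y)
    · intro i hi
      exact ZMod.val_cast_of_lt (mem_range.1 hi)
    · intro y _
      exact ZMod.natCast_zmod_val y
    · intro i _
      rfl
  rw [h1]
  exact Fintype.sum_equiv (Equiv.mulRight₀ x hx) _ _ (fun y => rfl)

private lemma B6_zero {p N : ℕ} {e : ZMod N} (he : e ≠ 0) : indP p (0 : ZMod N) e = 0 := by
  unfold indP
  rw [if_neg]
  rintro ⟨s, hs⟩
  rw [mul_zero] at hs
  exact he hs.symm

/-- The number of exponents of the Jacobi sums of a Gauss sum in a class. -/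
private lemma B6_count {N M p : ℕ} [Fact N.Prime] (hM : N = M + 2) {x e : ZMod N} (hx : x ≠ 0)
    (he : e ≠ 0) :
    (∑ i : Fin M, ∑ k, indP p (tripE x ((((i : ℕ) + 1 : ℕ) : ZMod N) * x) k) e) +
        2 * indP p (-x) e = M * indP p x e + 2 * ∑ y : ZMod N, indP p y e := by
  have hN1 : ((M + 1 : ℕ) : ZMod N) = -1 := by
    have h : ((M + 2 : ℕ) : ZMod N) = 0 := by
      rw [← hM]
      exact ZMod.natCast_self N
    have h' : ((M + 1 : ℕ) : ZMod N) + 1 = ((M + 2 : ℕ) : ZMod N) := by
      push_cast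
      ring
    rw [eq_neg_iff_add_eq_zero, h', h]
  have hk : ∀ i : Fin M, ∑ k, indP p (tripE x ((((i : ℕ) + 1 : ℕ) : ZMod N) * x) k) e =
      indP p x e + indP p ((((i : ℕ) + 1 : ℕ) : ZMod N) * x) e +
        indP p (-((((i : ℕ) + 2 : ℕ) : ZMod N) * x)) e := by
    intro i
    rw [Fin.sum_univ_three]
    have h3 : tripE x ((((i : ℕ) + 1 : ℕ) : ZMod N) * x) 2 =
        -((((i : ℕ) + 2 : ℕ) : ZMod N) * x) := by
      change -(x + (((i : ℕ) + 1 : ℕ) : ZMod N) * x) = _
      push_cast
      ring
    rw [h3]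
    rfl
  have h1 := B6_mul hx (fun y => indP p y e)
  have h2 := B6_mul hx (fun y => indP p (-y) e)
  have h3 : ∑ y : ZMod N, indP p (-y) e = ∑ y : ZMod N, indP p y e :=
    Fintype.sum_equiv (Equiv.neg (ZMod N)) _ _ (fun y => rfl)
  have hr : range N = range (M + 1 + 1) := by rw [hM]
  rw [h3, hr] at h2
  rw [hr] at h1
  rw [sum_range_succ, sum_range_succ', hN1] at h1
  rw [sum_range_succ', sum_range_succ'] at h2
  simp only [Nat.cast_zero, zero_mul, neg_zero, B6_zero he, add_zero, neg_mul, one_mul, zero_add,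
    Nat.cast_one] at h1 h2
  rw [Finset.sum_congr rfl (fun i _ => hk i), sum_add_distrib, sum_add_distrib, sum_const,
    card_univ, Fintype.card_fin, smul_eq_mul,
    Fin.sum_univ_eq_sum_range (fun i => indP p (((i + 1 : ℕ) : ZMod N) * x) e) M,
    Fin.sum_univ_eq_sum_range (fun i => indP p (-(((i + 2 : ℕ) : ZMod N) * x)) e) M]
  have h4 : ∑ i ∈ range M, indP p (-(((i + 2 : ℕ) : ZMod N) * x)) e =
      ∑ i ∈ range M, indP p (-(((i + 1 + 1 : ℕ) : ZMod N) * x)) e := rfl
  rw [h4]
  omega

/-- Families of characters with any finite index type. -/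
private lemma B6_bal {𝔽 : Type} [Field 𝔽] [Fintype 𝔽] {N : ℕ} (hN : N.Prime) {p : ℕ}
    [Fact p.Prime] [CharP 𝔽 p] {ι : Type} [Fintype ι] {c : ℕ} {B A : ι → ZMod N}
    (hB : ∀ j, B j ≠ 0) (hA : ∀ j, A j ≠ 0) (hC : ∀ j, B j + A j ≠ 0) (χ : MulChar 𝔽 ℂ)
    (hχ : orderOf χ = N)
    (hJ : ∏ j, jacobiSum (χ ^ (B j).val) (χ ^ (A j).val) = (Fintype.card 𝔽 : ℂ) ^ c)
    {e : ZMod N} (he : e ≠ 0) :
    ∑ j, ∑ k, indP p (tripE (B j) (A j) k) e = ∑ j, ∑ k, indP p (tripE (B j) (A j) k) (-e) := by
  have h := isBalanced_of_jacobi hN (p := p) (B := B ∘ (Fintype.equivFin ι).symm)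
    (A := A ∘ (Fintype.equivFin ι).symm) (c := c) (fun j => hB _) (fun j => hA _)
    (fun j => hC _) χ hχ (by
      rw [← hJ]
      exact Fintype.prod_equiv (Fintype.equivFin ι).symm _ _ (fun j => rfl)) e he
  rw [card_subtype_eq_sum, card_subtype_eq_sum, Fintype.sum_prod_type, Fintype.sum_prod_type] at h
  have h1 : ∀ d : ZMod N, ∑ j, ∑ k, indP p (tripE (B j) (A j) k) d =
      ∑ j, ∑ k, indP p (tripE ((B ∘ (Fintype.equivFin ι).symm) j)
        ((A ∘ (Fintype.equivFin ι).symm) j) k) d := by
    intro d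
    exact (Fintype.sum_equiv (Fintype.equivFin ι).symm _ _ (fun j => rfl)).symm
  rw [h1, h1]
  exact h

private lemma B6_pow {𝔽 : Type} [Field 𝔽] {N : ℕ} [NeZero N] (χ : MulChar 𝔽 ℂ)
    (hχ : orderOf χ = N) (x : ZMod N) (i : ℕ) :
    (χ ^ x.val) ^ i = χ ^ ((i : ZMod N) * x).val := by
  rw [← pow_mul, pow_eq_pow_iff_modEq, hχ, ← ZMod.natCast_eq_natCast_iff, Nat.cast_mul,
    ZMod.natCast_zmod_val, ZMod.natCast_zmod_val, mul_comm]

private lemma B6_one {N : ℕ} (hN : Odd N) {z : ℂ} (h2 : z ^ 2 = 1) (h : z ^ N = 1) : z = 1 := by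
  obtain ⟨t, rfl⟩ := hN
  rwa [pow_succ, pow_mul, h2, one_pow, one_mul] at h

/-- The power of a Gauss sum as a product of Jacobi sums, if the order is odd. -/
private lemma B6_gauss {𝔽 : Type} [Field 𝔽] [Fintype 𝔽] {N M : ℕ} (hN : N.Prime) (hM : N = M + 2)
    (hM0 : 0 < M) {x : ZMod N} (hx : x ≠ 0) (χ : MulChar 𝔽 ℂ) (ψ : AddChar 𝔽 ℂ)
    (hχ : orderOf χ = N) (hψ : ψ.IsPrimitive) :
    gaussSum (χ ^ x.val) ψ ^ N = (Fintype.card 𝔽 : ℂ) *
      ∏ i : Fin M, jacobiSum (χ ^ x.val) (χ ^ ((((i : ℕ) + 1 : ℕ) : ZMod N) * x).val) := by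
  have : Fact N.Prime := ⟨hN⟩
  have : NeZero N := ⟨hN.ne_zero⟩
  have hcop : (orderOf χ).Coprime x.val := by
    rw [hχ, Nat.Prime.coprime_iff_not_dvd hN, ← ZMod.natCast_eq_zero_iff, ZMod.natCast_zmod_val]
    exact hx
  have ho : orderOf (χ ^ x.val) = N := by
    rw [hcop.orderOf_pow, hχ]
  have h2 : 2 ≤ orderOf (χ ^ x.val) := by
    rw [ho]
    exact hN.two_le
  have hg := gaussSum_pow_eq_prod_jacobiSum h2 hψ
  rw [ho] at hg
  have hm1 : (χ ^ x.val) (-1) = 1 := by
    have e2 : ((χ ^ x.val) (-1)) ^ 2 = 1 := by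
      rw [← map_pow, neg_one_sq, map_one]
    have eN : ((χ ^ x.val) (-1)) ^ N = 1 := by
      have h := pow_orderOf_eq_one (χ ^ x.val)
      rw [ho] at h
      rw [← MulChar.pow_apply' _ hN.ne_zero, h, MulChar.one_apply (by simp)]
    exact B6_one (hN.odd_of_ne_two (by omega)) e2 eN
  rw [hg, hm1, one_mul, Finset.prod_Ico_eq_prod_range]
  have hr : N - 1 - 1 = M := by omega
  rw [hr, ← Fin.prod_univ_eq_prod_range
    (fun i => jacobiSum (χ ^ x.val) ((χ ^ x.val) ^ (1 + i))) M]
  congr 1
  refine Finset.prod_congr rfl fun i _ => ?_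
  rw [B6_pow χ hχ, add_comm 1 (i : ℕ)]

/-- A product of Gauss sums without twisted pairs is not a power of `q`, up to sign. -/
theorem prod_gaussSum_ne {𝔽 : Type} [Field 𝔽] [Fintype 𝔽] {N : ℕ} (hN : N.Prime) {p : ℕ}
    [Fact p.Prime] [CharP 𝔽 p] {n wd : ℕ} (hn : 2 ≤ n) (hwd : n = 2 * wd) {c : Fin n → ZMod N}
    (hc : ∀ j, c j ≠ 0) (ht : ¬ HasTwistedPair p c) (χ : MulChar 𝔽 ℂ) (ψ : AddChar 𝔽 ℂ)
    (hχ : orderOf χ = N) (hψ : ψ.IsPrimitive) :
    (-1) ^ n * ∏ j, gaussSum (χ ^ (c j).val) ψ ≠ (Fintype.card 𝔽 : ℂ) ^ wd := by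
  intro h
  have : Fact N.Prime := ⟨hN⟩
  have : NeZero N := ⟨hN.ne_zero⟩
  have h01 : (⟨0, by omega⟩ : Fin n) ≠ ⟨1, by omega⟩ := by
    intro h0
    rw [Fin.mk.injEq] at h0
    omega
  by_cases hneg : ∃ s : ℕ, (p : ZMod N) ^ s = -1
  · obtain ⟨s, hs⟩ := hneg
    exact ht ⟨⟨0, by omega⟩, ⟨1, by omega⟩, h01, hc _, hc _, s, Or.inl hs⟩
  have hN2 : N ≠ 2 := by
    rintro rfl
    refine hneg ⟨0, ?_⟩
    rw [pow_zero]
    rfl
  obtain ⟨M, hM⟩ : ∃ M, N = M + 2 := ⟨N - 2, by have := hN.two_le; omega⟩
  have hM0 : 0 < M := by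
    rcases Nat.eq_zero_or_pos M with h0 | h0
    · exact absurd (by omega) hN2
    · exact h0
  have hq : (Fintype.card 𝔽 : ℂ) ≠ 0 := Nat.cast_ne_zero.2 Fintype.card_ne_zero
  have hsgn : ((-1 : ℂ)) ^ n = 1 := by
    rw [hwd, pow_mul, neg_one_sq, one_pow]
  rw [hsgn, one_mul] at h
  have hprod : ∏ j : Fin n, ∏ i : Fin M, jacobiSum (χ ^ (c j).val)
      (χ ^ ((((i : ℕ) + 1 : ℕ) : ZMod N) * c j).val) = (Fintype.card 𝔽 : ℂ) ^ (wd * M) := by
    have h1 : (∏ j, gaussSum (χ ^ (c j).val) ψ) ^ N = ((Fintype.card 𝔽 : ℂ) ^ wd) ^ N := by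
      rw [h]
    rw [← Finset.prod_pow, Finset.prod_congr rfl
      (fun j _ => B6_gauss hN hM hM0 (hc j) χ ψ hχ hψ), Finset.prod_mul_distrib,
      Finset.prod_const, card_univ, Fintype.card_fin, ← pow_mul] at h1
    have h2 : wd * N = n + wd * M := by
      rw [hM, hwd]
      ring
    rw [h2, pow_add] at h1
    exact mul_left_cancel₀ (pow_ne_zero _ hq) h1
  have hbal : ∀ e : ZMod N, e ≠ 0 → ∑ j, indP p (c j) e = ∑ j, indP p (c j) (-e) := by
    intro e he
    have hB := B6_bal hN (p := p) (ι := Fin n × Fin M) (c := wd * M)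
      (B := fun i => c i.1) (A := fun i => (((i.2 : ℕ) + 1 : ℕ) : ZMod N) * c i.1)
      (fun i => hc i.1) (by
        intro i
        refine mul_ne_zero ?_ (hc i.1)
        rw [Ne, ZMod.natCast_eq_zero_iff]
        intro hd
        have := Nat.le_of_dvd (by omega) hd
        have := i.2.2
        omega) (by
        intro i
        have h2 : c i.1 + (((i.2 : ℕ) + 1 : ℕ) : ZMod N) * c i.1 =
            (((i.2 : ℕ) + 2 : ℕ) : ZMod N) * c i.1 := by
          push_cast
          ring
        rw [h2]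
        refine mul_ne_zero ?_ (hc i.1)
        rw [Ne, ZMod.natCast_eq_zero_iff]
        intro hd
        have := Nat.le_of_dvd (by omega) hd
        have := i.2.2
        omega) χ hχ (by
        rw [Fintype.prod_prod_type]
        exact hprod) he
    rw [Fintype.sum_prod_type, Fintype.sum_prod_type] at hB
    have hB' : ∑ j : Fin n, ∑ i : Fin M, ∑ k, indP p
        (tripE (c j) ((((i : ℕ) + 1 : ℕ) : ZMod N) * c j) k) e =
        ∑ j : Fin n, ∑ i : Fin M, ∑ k, indP p
        (tripE (c j) ((((i : ℕ) + 1 : ℕ) : ZMod N) * c j) k) (-e) := hB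
    have hT : ∑ y : ZMod N, indP p y (-e) = ∑ y : ZMod N, indP p y e := by
      refine Fintype.sum_equiv (Equiv.neg (ZMod N)) _ _ (fun y => ?_)
      rw [Equiv.neg_apply, indP_neg]
    have c1 : ∀ j : Fin n, (∑ i : Fin M, ∑ k, indP p
        (tripE (c j) ((((i : ℕ) + 1 : ℕ) : ZMod N) * c j) k) e) + 2 * indP p (c j) (-e) =
        M * indP p (c j) e + 2 * ∑ y : ZMod N, indP p y e := by
      intro j
      have h3 := B6_count (p := p) hM (hc j) he
      rw [indP_neg] at h3
      exact h3
    have c2 : ∀ j : Fin n, (∑ i : Fin M, ∑ k, indP p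
        (tripE (c j) ((((i : ℕ) + 1 : ℕ) : ZMod N) * c j) k) (-e)) + 2 * indP p (c j) e =
        M * indP p (c j) (-e) + 2 * ∑ y : ZMod N, indP p y e := by
      intro j
      have h3 := B6_count (p := p) hM (hc j) (neg_ne_zero.2 he)
      rw [indP_neg, neg_neg, hT] at h3
      exact h3
    have s1 := Finset.sum_congr (rfl : (univ : Finset (Fin n)) = univ) (fun j _ => c1 j)
    have s2 := Finset.sum_congr (rfl : (univ : Finset (Fin n)) = univ) (fun j _ => c2 j)
    rw [sum_add_distrib, sum_add_distrib, ← mul_sum, ← mul_sum] at s1 s2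
    rw [hB'] at s1
    have hlin : (M + 2) * ∑ j, indP p (c j) e = (M + 2) * ∑ j, indP p (c j) (-e) := by
      rw [add_mul, add_mul]
      omega
    exact Nat.eq_of_mul_eq_mul_left (by omega) hlin
  have h0 := hbal (c ⟨0, by omega⟩) (hc _)
  have hpos : 0 < ∑ j, indP p (c j) (c ⟨0, by omega⟩) := by
    refine Finset.sum_pos' (fun _ _ => Nat.zero_le _) ⟨⟨0, by omega⟩, mem_univ _, ?_⟩
    unfold indP
    rw [if_pos ⟨0, by rw [pow_zero, one_mul]⟩]
    exact Nat.one_pos
  rw [h0] at hpos
  obtain ⟨j, -, hj⟩ := Finset.exists_ne_zero_of_sum_ne_zero hpos.ne'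
  have hj' : ∃ s : ℕ, (p : ZMod N) ^ s * c j = -c ⟨0, by omega⟩ := by
    by_contra hcon
    apply hj
    unfold indP
    rw [if_neg hcon]
  obtain ⟨s, hs⟩ := hj'
  by_cases hj0 : j = ⟨0, by omega⟩
  · refine hneg ⟨s, ?_⟩
    rw [hj0] at hs
    have h5 : ((p : ZMod N) ^ s + 1) * c ⟨0, by omega⟩ = 0 := by
      rw [add_mul, hs, one_mul, neg_add_cancel]
    rcases mul_eq_zero.1 h5 with h6 | h6
    · exact eq_neg_of_add_eq_zero_left h6
    · exact absurd h6 (hc _)
  · exact ht ⟨j, ⟨0, by omega⟩, hj0, hc _, hc _, s, Or.inr (by rw [hs, neg_neg])⟩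

end UnrA.Fer
end

section

/-!
# All classes of the cover over a finite field
-/

namespace UnrA.Fer

open UnrG

universe u v w z

open Polynomial Finset
open scoped Classical

private lemma B8_sum {G A : Type*} [Monoid G] [AddCommMonoid A] {s : G} {N k j : ℕ} (hN : 0 < N)
    (hs : s ^ N = 1) (hk : k.Coprime N) (f : G → A) :
    ∑ i ∈ range N, f (s ^ (k * i + j)) = ∑ i ∈ range N, f (s ^ i) := by
  have h1 : ∀ i, f (s ^ (k * i + j)) = f (s ^ ((k * i + j) % N)) := fun i => by
    rw [← pow_eq_pow_mod _ hs]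
  rw [Finset.sum_congr rfl fun i _ => h1 i]
  have hmaps : Set.MapsTo (fun i => (k * i + j) % N) (range N : Set ℕ) (range N : Set ℕ) :=
    fun i _ => Finset.mem_coe.2 (Finset.mem_range.2 (Nat.mod_lt _ hN))
  have hinj : Set.InjOn (fun i => (k * i + j) % N) (range N : Set ℕ) := by
    intro i hi i' hi' h
    have h2 : k * i + j ≡ k * i' + j [MOD N] := h
    have h3 : i ≡ i' [MOD N] :=
      Nat.ModEq.cancel_left_of_coprime (Nat.coprime_comm.1 hk) (Nat.ModEq.add_right_cancel' j h2)
    exact Nat.ModEq.eq_of_lt_of_lt h3 (Finset.mem_range.1 (Finset.mem_coe.1 hi))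
      (Finset.mem_range.1 (Finset.mem_coe.1 hi'))
  exact Finset.sum_nbij (fun i => (k * i + j) % N) hmaps hinj
    (Finset.surjOn_of_injOn_of_card_le _ hmaps hinj le_rfl) fun _ _ => rfl

private lemma B8_top {F E : Type u} [Field F] [Field E] [Algebra F E] {S : Set E} {Y : E}
    (h : IntermediateField.adjoin F (S ∪ {Y}) = ⊤) :
    IntermediateField.adjoin (IntermediateField.adjoin F S) {Y} = ⊤ := by
  apply IntermediateField.restrictScalars_injective F
  rw [IntermediateField.adjoin_adjoin_left, h, IntermediateField.restrictScalars_top]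

private lemma B8_fix {F E : Type u} [Field F] [Field E] [Algebra F E] {S : Set E}
    {s : E →+* E} (h1 : ∀ a : F, s (algebraMap F E a) = algebraMap F E a)
    (h2 : ∀ x ∈ S, s x = x) (x : IntermediateField.adjoin F S) : s (x : E) = x := by
  obtain ⟨x, hx⟩ := x
  change s x = x
  induction hx using IntermediateField.adjoin_induction with
  | mem x hx => exact h2 x hx
  | algebraMap a => exact h1 a
  | add x y _ _ hx hy => rw [map_add, hx, hy]
  | inv x _ hx => rw [map_inv₀, hx]
  | mul x y _ _ hx hy => rw [map_mul, hx, hy]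

private lemma B8_ext {F E : Type u} [Field F] [Field E] [Algebra F E] {S : Set E}
    (h : IntermediateField.adjoin F S = ⊤) {f g : E →+* E}
    (h1 : ∀ a : F, f (algebraMap F E a) = g (algebraMap F E a)) (h2 : ∀ x ∈ S, f x = g x) :
    f = g := by
  ext x
  have hx : x ∈ IntermediateField.adjoin F S := by rw [h]; trivial
  induction hx using IntermediateField.adjoin_induction with
  | mem x hx => exact h2 x hx
  | algebraMap a => exact h1 a
  | add x y _ _ hx hy => rw [map_add, map_add, hx, hy]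
  | inv x _ hx => rw [map_inv₀, map_inv₀, hx]
  | mul x y _ _ hx hy => rw [map_mul, map_mul, hx, hy]

section pow

variable {m : UFun.{u, z}} {E : Type u} [Field E]

/-- Sum over a cyclic group of endomorphisms, twice. -/
private lemma B8_sum_sum {N : ℕ} (hN : 0 < N) {s : E →+* E} (hs : s ^ N = 1) (z : KM m E) :
    ∑ i ∈ range N, KM.map m (s ^ i) (∑ j ∈ range N, KM.map m (s ^ j) z) =
      N • ∑ j ∈ range N, KM.map m (s ^ j) z := by
  have h1 : ∀ i ∈ range N, KM.map m (s ^ i) (∑ j ∈ range N, KM.map m (s ^ j) z) =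
      ∑ j ∈ range N, KM.map m (s ^ j) z := by
    intro i _
    rw [map_sum, ← B8_sum (j := i) hN hs (Nat.coprime_one_left N) (fun g => KM.map m g z)]
    refine Finset.sum_congr rfl fun j _ => ?_
    rw [KM.map_map, ← RingHom.mul_def, ← pow_add, one_mul, add_comm]
  rw [Finset.sum_congr rfl h1, Finset.sum_const, Finset.card_range]

/-- The sums of commuting endomorphisms commute. -/
private lemma B8_comm {N p : ℕ} {s t : E →+* E} (h : Commute s t) (z : KM m E) :
    ∑ i ∈ range N, KM.map m (s ^ i) (∑ j ∈ range p, KM.map m (t ^ j) z) =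
      ∑ j ∈ range p, KM.map m (t ^ j) (∑ i ∈ range N, KM.map m (s ^ i) z) := by
  simp_rw [map_sum, KM.map_map, ← RingHom.mul_def]
  rw [Finset.sum_comm]
  exact Finset.sum_congr rfl fun j _ => Finset.sum_congr rfl fun i _ => by
    rw [(h.pow_pow i j).eq]

/-- The trace of a cyclic Galois extension whose group consists of the powers of `s`. -/
private lemma B8_trace {T : Type u} [Field T] [Algebra T E] [FiniteDimensional T E]
    [IsGalois T E] {N : ℕ} (hrank : Module.finrank T E = N) (s : E →+* E)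
    (hs : ∀ c : T, s (algebraMap T E c) = algebraMap T E c)
    (hall : ∀ σ : E ≃ₐ[T] E, ∃ i < N, (σ : E →+* E) = s ^ i) (x : KM m E) :
    ∃ y : KM m T, KM.map m (algebraMap T E) y = ∑ i ∈ range N, KM.map m (s ^ i) x := by
  obtain ⟨y, hy⟩ := exists_trace (K := T) (L := E) x
  refine ⟨y, ?_⟩
  rw [hy]
  let sA : E →ₐ[T] E := { s with commutes' := hs }
  let sE : E ≃ₐ[T] E := AlgEquiv.ofBijective sA (Algebra.IsAlgebraic.algHom_bijective sA)
  have hpow : ∀ (i : ℕ), ((sE ^ i : E ≃ₐ[T] E) : E →+* E) = s ^ i := by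
    intro i
    induction i with
    | zero => ext z; rfl
    | succ i ih =>
      ext z
      rw [pow_succ, pow_succ]
      exact RingHom.congr_fun ih (sE z)
  have hsurj : Function.Surjective (fun i : Fin N => sE ^ (i : ℕ)) := by
    intro σ
    obtain ⟨i, hi, he⟩ := hall σ
    refine ⟨⟨i, hi⟩, ?_⟩
    rw [← hpow] at he
    exact AlgEquiv.ext fun z => (RingHom.congr_fun he z).symm
  have hcard : Fintype.card (Fin N) = Fintype.card (E ≃ₐ[T] E) := by
    rw [Fintype.card_fin, ← Nat.card_eq_fintype_card, IsGalois.card_aut_eq_finrank, hrank]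
  have hbij : Function.Bijective (fun i : Fin N => sE ^ (i : ℕ)) :=
    (Fintype.bijective_iff_surjective_and_card _).2 ⟨hsurj, hcard⟩
  rw [← hbij.sum_comp (fun σ : E ≃ₐ[T] E => KM.map m (σ : E →+* E) x), Finset.sum_range]
  exact Finset.sum_congr rfl fun i _ => by rw [hpow]

/-- The trace of a Kummer extension of prime degree. -/
private lemma B8_kummer {T : Type u} [Field T] [Algebra T E] {N : ℕ} (hN : N.Prime) {ζ : T}
    (hζ : IsPrimitiveRoot ζ N) {a : T} {Y : E} (hY0 : Y ≠ 0) (hY : Y ^ N = algebraMap T E a)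
    (htop : IntermediateField.adjoin T {Y} = ⊤) (s : E →+* E)
    (hs : ∀ c : T, s (algebraMap T E c) = algebraMap T E c)
    (hsY : s Y = algebraMap T E ζ * Y) :
    FiniteDimensional T E ∧ IsGalois T E ∧ Module.finrank T E = N ∧
      ∀ x : KM m E, ∃ y : KM m T, KM.map m (algebraMap T E) y =
        ∑ i ∈ range N, KM.map m (s ^ i) x := by
  have hζL : IsPrimitiveRoot (algebraMap T E ζ) N := hζ.map_of_injective (algebraMap T E).injective
  have hNz : NeZero N := ⟨hN.ne_zero⟩
  have hroots : ∀ b : E, b ^ N = Y ^ N → ∃ i < N, algebraMap T E ζ ^ i * Y = b := by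
    intro b hb
    have h1 : (b / Y) ^ N = 1 := by rw [div_pow, hb, div_self (pow_ne_zero _ hY0)]
    obtain ⟨i, hi, he⟩ := hζL.eq_pow_of_pow_eq_one h1
    exact ⟨i, hi, by rw [he, div_mul_cancel₀ _ hY0]⟩
  have hirr : Irreducible (X ^ N - C a : T[X]) := by
    apply X_pow_sub_C_irreducible_of_prime hN
    intro b hb
    obtain ⟨i, -, he⟩ := hroots (algebraMap T E b) (by rw [← map_pow, hb, hY])
    have h2 : s Y = Y := by
      have h3 : algebraMap T E ζ ^ i ≠ 0 := pow_ne_zero _ (hζL.ne_zero hN.ne_zero)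
      apply mul_left_cancel₀ h3
      have h4 := hs b
      rwa [← he, map_mul, map_pow, hs] at h4
    rw [hsY] at h2
    have h5 : algebraMap T E ζ = 1 := mul_right_cancel₀ hY0 (by rw [h2, one_mul])
    exact hζL.ne_one hN.one_lt h5
  have hroot : aeval Y (X ^ N - C a : T[X]) = 0 := by
    rw [map_sub, map_pow, aeval_X, aeval_C, hY, sub_self]
  have hmon : (X ^ N - C a : T[X]).Monic := monic_X_pow_sub_C a hN.ne_zero
  have hint : IsIntegral T Y := ⟨_, hmon, hroot⟩
  have hmin : minpoly T Y = X ^ N - C a :=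
    (minpoly.eq_of_irreducible_of_monic hirr hroot hmon).symm
  have hfin : FiniteDimensional T E := by
    have h1 := IntermediateField.adjoin.finiteDimensional hint
    rw [htop] at h1
    exact IntermediateField.topEquiv.toLinearEquiv.finiteDimensional
  have hrank : Module.finrank T E = N := by
    have h1 := IntermediateField.adjoin.finrank hint
    rw [htop, IntermediateField.finrank_top', hmin, natDegree_X_pow_sub_C] at h1
    exact h1
  have hprim : (primitiveRoots N T).Nonempty := ⟨ζ, (mem_primitiveRoots hN.pos).2 hζ⟩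
  have hsplit : IsSplittingField T E (X ^ N - C a) := by
    have h := isSplittingField_X_pow_sub_C_of_root_adjoin_eq_top (K := T) (L := E)
      (by rw [hrank]; exact hprim) (a := a) (α := Y) (by rw [hrank]; exact hY) htop
    rwa [hrank] at h
  have hgal : IsGalois T E := isGalois_of_isSplittingField_X_pow_sub_C hprim hirr E
  refine ⟨hfin, hgal, hrank, B8_trace hrank s hs fun σ => ?_⟩
  obtain ⟨i, hi, he⟩ := hroots (σ Y) (by rw [← map_pow, hY, AlgEquiv.commutes])
  refine ⟨i, hi, ?_⟩
  have hpow : ∀ i : ℕ, (∀ c : T, (s ^ i) (algebraMap T E c) = algebraMap T E c) ∧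
      (s ^ i) Y = algebraMap T E ζ ^ i * Y := by
    intro i
    induction i with
    | zero => exact ⟨fun _ => rfl, by rw [pow_zero, pow_zero, one_mul]; rfl⟩
    | succ i ih =>
      refine ⟨fun c => ?_, ?_⟩
      · rw [pow_succ', RingHom.mul_def, RingHom.comp_apply, ih.1, hs]
      · rw [pow_succ', RingHom.mul_def, RingHom.comp_apply, ih.2, map_mul, map_pow, hs, hsY]
        ring
  refine B8_ext htop (fun c => ?_) fun x hx => ?_
  · exact ((σ : E ≃ₐ[T] E).commutes c).trans ((hpow i).1 c).symm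
  · rw [Set.mem_singleton_iff] at hx
    subst hx
    change σ x = (s ^ i) x
    rw [(hpow i).2, he]

end pow

/-- The trace of a class to a purely transcendental subfield over a finite field is killed. -/
private lemma B8_kill {m : UFun.{u, z}} {𝔽 : Type w} [Field 𝔽] {q wd : ℕ}
    (hw : m.HasWeight 𝔽 q wd) {F E : Type u} [Field F] [Field E] [Algebra F E] (ι : 𝔽 →+* F)
    (hF : ∀ a : F, a ^ q = a) {T : IntermediateField F E} {n : ℕ}
    (hT : ∃ w : Fin n → T, AlgebraicIndependent F w ∧ IntermediateField.adjoin F (Set.range w) = ⊤)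
    {k : ℕ} {s : E →+* E}
    (h : FiniteDimensional T E ∧ IsGalois T E ∧ Module.finrank T E = k ∧
      ∀ x : KM m E, ∃ y : KM m T, KM.map m (algebraMap T E) y =
        ∑ i ∈ range k, KM.map m (s ^ i) x) {z : KM m E} (hz : Unr z) :
    (k * (q ^ wd - 1)) • ∑ i ∈ range k, KM.map m (s ^ i) z = 0 := by
  obtain ⟨h1, h2, h3, h4⟩ := h
  obtain ⟨y, hy⟩ := h4 z
  obtain ⟨ω, hω, hωT⟩ := hT
  have h5 : Unr (KM.map m (algebraMap T E) y) := by
    rw [hy]
    exact Unr.sum fun i _ => hz.map _
  have h6 := unr_smul_of_map h5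
  rw [h3] at h6
  obtain ⟨y₀, hy₀, hy₁⟩ := unr_purely ω hω hωT h6
  have h7 : k • ∑ i ∈ range k, KM.map m (s ^ i) z ∈ cst m F E := by
    refine mem_cst.2 ⟨y₀, hy₀, ?_⟩
    rw [← hy, ← map_nsmul, ← hy₁, KM.map_map]
    rfl
  rw [mul_comm, mul_smul]
  exact smul_eq_zero_of_cst hw ι hF h7

section main

variable {𝔽 : Type} [Field 𝔽] [Fintype 𝔽] (b : Base 𝔽)

/-- The two automorphisms of the cover. -/
private lemma B8_autos {p : ℕ} [Fact p.Prime] (hN : b.N.Prime) {F E : Type u} [Field F]
    [Field E] [Algebra F E] [CharP F p] (ι : 𝔽 →+* F) {n : ℕ} {X : Fin n → E} {v u : E}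
    {c : Fin n → ZMod b.N} (h : ASCov p b.N (F := F) X v u c) (hn : 0 < n)
    (hc : ∀ j, c j ≠ 0) :
    ∃ gN gp : E →+* E, (∀ a : F, gN (algebraMap F E a) = algebraMap F E a) ∧
      (∀ j, gN (X j) = X j) ∧ gN v = algebraMap F E (ι b.ζ) * v ∧ gN u = u ∧
      (∀ a : F, gp (algebraMap F E a) = algebraMap F E a) ∧
      (∀ j, gp (X j) = X j) ∧ gp v = v ∧ gp u = u + 1 := by
  obtain ⟨M, _, _, x, y, i, hP, hi, hX, hv, hu, -⟩ := ASCov.exists_embedding.{u, 0, 0} b hN ι h hn
    hc
  have : Fact b.N.Prime := ⟨hN⟩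
  obtain ⟨f, hf⟩ := ASProd.exists_diag b ι hP (Pi.single ⟨0, hn⟩ ((c ⟨0, hn⟩)⁻¹).val) 0
  obtain ⟨f', hf'⟩ := ASProd.exists_diag b ι hP 0 (Pi.single ⟨0, hn⟩ 1)
  obtain ⟨gN, -, h1, h2, h3, h4⟩ := ASCov.exists_restrict b ι h hi hX hv hu hf
  obtain ⟨gp, -, h5, h6, h7, h8⟩ := ASCov.exists_restrict b ι h hi hX hv hu hf'
  refine ⟨gN, gp, h1, h2, ?_, ?_, h5, h6, ?_, ?_⟩
  · rw [h3]
    congr 1
    rw [← map_pow, ← map_pow]
    congr 2
    rw [Finset.sum_eq_single (⟨0, hn⟩ : Fin n) (fun j _ hj => by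
      rw [Pi.single_eq_of_ne hj, mul_zero]) (fun h => absurd (Finset.mem_univ _) h),
      Pi.single_eq_same]
    have h9 : ((c ⟨0, hn⟩).val * ((c ⟨0, hn⟩)⁻¹).val) % b.N = 1 % b.N := by
      rw [← ZMod.natCast_eq_natCast_iff', Nat.cast_mul, ZMod.natCast_zmod_val,
        ZMod.natCast_zmod_val, Nat.cast_one, mul_inv_cancel₀ (hc _)]
    rw [pow_eq_pow_mod _ b.hζ.pow_eq_one, h9, ← pow_eq_pow_mod _ b.hζ.pow_eq_one, pow_one]
  · rw [h4]
    simp
  · rw [h7]
    simp
  · rw [h8, Finset.sum_eq_single (⟨0, hn⟩ : Fin n) (fun j _ hj => Pi.single_eq_of_ne hj _)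
      (fun h => absurd (Finset.mem_univ _) h), Pi.single_eq_same, Nat.cast_one]

/-- All unramified classes of the cover over a finite field are killed. -/
theorem ASCov.kills {p : ℕ} [Fact p.Prime] [CharP 𝔽 p] (hN : b.N.Prime)
    {n wd : ℕ} (hwd : 0 < wd) (hn : 0 < n) (c : Fin n → ZMod b.N) (hc : ∀ j, c j ≠ 0)
    (ht : ¬ HasTwistedPair p c) :
    ∃ C : ℕ, 0 < C ∧ ∀ (m : UFun.{u, z}) (_ : m.Specializes) (_ : m.HasWeight 𝔽 b.q wd)
      (F E : Type u) [Field F] [Field E] [Algebra F E] (_ : 𝔽 →+* F)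
      (_ : ∀ a : F, a ^ b.q = a) (X : Fin n → E) (v u : E)
      (_ : ASCov p b.N (F := F) X v u c) (z : KM m E), Unr z → C • z = 0 := by
  have hp : p.Prime := Fact.out
  obtain ⟨C₁, hC₁, hnew⟩ := ASCov.new_kills.{u, 0, z} (p := p) (wd := wd) b hN hn c hc
    (fun h χ ψ hχ hψ => by
      have h1 := prod_gaussSum_ne hN (by omega) h hc ht χ ψ hχ hψ
      rwa [b.card_q] at h1)
  have hq1 : 0 < b.q ^ wd - 1 := by
    have h1 : 1 < b.q := by
      rw [← b.card_q]
      exact Fintype.one_lt_card
    have h2 := Nat.one_lt_pow hwd.ne' h1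
    omega
  refine ⟨C₁ * (b.N * p * (b.q ^ wd - 1)) * (b.N * p), Nat.mul_pos (Nat.mul_pos hC₁
    (Nat.mul_pos (Nat.mul_pos hN.pos hp.pos) hq1)) (Nat.mul_pos hN.pos hp.pos), ?_⟩
  intro m hs hw F E _ _ _ ι hF X v u h z hz
  have hcF : CharP F p := charP_of_injective_ringHom ι.injective p
  have hcE : CharP E p := charP_of_injective_ringHom (algebraMap F E).injective p
  obtain ⟨gN, gp, N1, N2, N3, N4, p1, p2, p3, p4⟩ := B8_autos b hN ι h hn hc
  have hv0 : v ≠ 0 := by
    intro h0
    have h1 := h.eqv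
    rw [h0, zero_pow hN.ne_zero] at h1
    obtain ⟨j, -, hj⟩ := Finset.prod_eq_zero_iff.1 h1.symm
    refine h.ind.transcendental j ?_
    rw [eq_zero_of_pow_eq_zero hj]
    exact isAlgebraic_zero
  have hext : ∀ f g : E →+* E, (∀ a : F, f (algebraMap F E a) = algebraMap F E a) →
      (∀ j, f (X j) = X j) → (∀ a : F, g (algebraMap F E a) = algebraMap F E a) →
      (∀ j, g (X j) = X j) → f v = g v → f u = g u → f = g := by
    intro f g f1 f2 g1 g2 hv hu
    refine B8_ext h.gen (fun a => (f1 a).trans (g1 a).symm) ?_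
    rintro x (⟨j, rfl⟩ | hx | hx)
    · exact (f2 j).trans (g2 j).symm
    · rw [hx, hv]
    · rw [Set.mem_singleton_iff] at hx
      rw [hx, hu]
  have hpowN : ∀ k : ℕ, (∀ a : F, (gN ^ k) (algebraMap F E a) = algebraMap F E a) ∧
      (∀ j, (gN ^ k) (X j) = X j) ∧ (gN ^ k) v = algebraMap F E (ι b.ζ) ^ k * v ∧
      (gN ^ k) u = u := by
    intro k
    induction k with
    | zero => exact ⟨fun _ => rfl, fun _ => rfl, by rw [pow_zero, pow_zero, one_mul]; rfl, rfl⟩
    | succ k ih =>
      simp only [pow_succ' gN, RingHom.mul_def, RingHom.comp_apply]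
      refine ⟨fun a => by rw [ih.1, N1], fun j => by rw [ih.2.1, N2], ?_, by rw [ih.2.2.2, N4]⟩
      rw [ih.2.2.1, map_mul, map_pow, N1, N3]
      ring
  have hpowp : ∀ k : ℕ, (∀ a : F, (gp ^ k) (algebraMap F E a) = algebraMap F E a) ∧
      (∀ j, (gp ^ k) (X j) = X j) ∧ (gp ^ k) v = v ∧ (gp ^ k) u = u + (k : E) := by
    intro k
    induction k with
    | zero => exact ⟨fun _ => rfl, fun _ => rfl, rfl, by rw [Nat.cast_zero, add_zero]; rfl⟩
    | succ k ih =>
      simp only [pow_succ' gp, RingHom.mul_def, RingHom.comp_apply]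
      refine ⟨fun a => by rw [ih.1, p1], fun j => by rw [ih.2.1, p2], by rw [ih.2.2.1, p3], ?_⟩
      rw [ih.2.2.2, map_add, p4, map_natCast]
      push_cast
      ring
  have hζN : algebraMap F E (ι b.ζ) ^ b.N = 1 := by
    rw [← map_pow, ← map_pow, b.hζ.pow_eq_one, map_one, map_one]
  have hNN : gN ^ b.N = 1 := by
    refine hext _ _ (hpowN _).1 (hpowN _).2.1 (fun _ => rfl) (fun _ => rfl) ?_ (hpowN _).2.2.2
    rw [(hpowN _).2.2.1, hζN, one_mul]
    rfl
  have hpp : gp ^ p = 1 := by
    refine hext _ _ (hpowp _).1 (hpowp _).2.1 (fun _ => rfl) (fun _ => rfl) (hpowp _).2.2.1 ?_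
    rw [(hpowp _).2.2.2, CharP.cast_eq_zero, add_zero]
    rfl
  have hcomm : Commute gN gp := by
    refine hext _ _ (fun a => ?_) (fun j => ?_) (fun a => ?_) (fun j => ?_) ?_ ?_ <;>
      simp only [RingHom.mul_def, RingHom.comp_apply, N1, N2, N3, N4, p1, p2, p3, p4, map_mul,
        map_add, map_one]
  have hkN : (b.N * (b.q ^ wd - 1)) • ∑ i ∈ range b.N, KM.map m (gN ^ i) z = 0 := by
    refine B8_kill hw ι hF (h.isPurely_u hn) ?_ hz
    have hX : ∀ j, X j ∈ IntermediateField.adjoin F (Set.range X ∪ {u}) := fun j =>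
      IntermediateField.subset_adjoin F _ (Or.inl ⟨j, rfl⟩)
    have ha : ∏ j, X j ^ (c j).val ∈ IntermediateField.adjoin F (Set.range X ∪ {u}) :=
      prod_mem fun j _ => pow_mem (hX j) _
    refine B8_kummer hN (ζ := algebraMap F _ (ι b.ζ)) (a := ⟨_, ha⟩)
      ((b.hζ.map_of_injective ι.injective).map_of_injective (algebraMap F _).injective) hv0
      h.eqv (B8_top ?_) gN (B8_fix N1 ?_) N3
    · rw [Set.union_assoc, Set.union_comm {u}, ← Set.insert_eq]
      exact h.gen
    · rintro x (⟨j, rfl⟩ | hx)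
      · exact N2 j
      · rw [Set.mem_singleton_iff] at hx
        rw [hx, N4]
  have hkp : (p * (b.q ^ wd - 1)) • ∑ i ∈ range p, KM.map m (gp ^ i) z = 0 := by
    refine B8_kill hw ι hF (h.isPurely_v hN hn hc) ?_ hz
    have : CharP (IntermediateField.adjoin F (Set.range X ∪ {v})) p :=
      charP_of_injective_ringHom (algebraMap F _).injective p
    have ha : ∑ j, X j ∈ IntermediateField.adjoin F (Set.range X ∪ {v}) :=
      sum_mem fun j _ => IntermediateField.subset_adjoin F _ (Or.inl ⟨j, rfl⟩)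
    refine as_trace (a := ⟨_, ha⟩) h.equ (B8_top ?_) gp (B8_fix p1 ?_) p4
    · rw [Set.union_assoc, ← Set.insert_eq]
      exact h.gen
    · rintro x (⟨j, rfl⟩ | hx)
      · exact p2 j
      · rw [Set.mem_singleton_iff] at hx
        rw [hx, p3]
  obtain ⟨SN, hSN⟩ : ∃ SN : KM m E →+ KM m E, ∀ x, SN x = ∑ i ∈ range b.N, KM.map m (gN ^ i) x :=
    ⟨∑ i ∈ range b.N, KM.map m (gN ^ i), fun x => by rw [AddMonoidHom.finsetSum_apply]⟩
  obtain ⟨Sp, hSp⟩ : ∃ Sp : KM m E →+ KM m E, ∀ x, Sp x = ∑ i ∈ range p, KM.map m (gp ^ i) x :=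
    ⟨∑ i ∈ range p, KM.map m (gp ^ i), fun x => by rw [AddMonoidHom.finsetSum_apply]⟩
  have hNN2 : ∀ x, SN (SN x) = b.N • SN x := fun x => by
    simp only [hSN]
    exact B8_sum_sum hN.pos hNN x
  have hpp2 : ∀ x, Sp (Sp x) = p • Sp x := fun x => by
    simp only [hSp]
    exact B8_sum_sum hp.pos hpp x
  have hNp : ∀ x, SN (Sp x) = Sp (SN x) := fun x => by
    simp only [hSp, hSN]
    exact B8_comm hcomm x
  have hUN : ∀ x, Unr x → Unr (SN x) := fun x hx => by
    rw [hSN]
    exact Unr.sum fun i _ => hx.map _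
  have hUp : ∀ x, Unr x → Unr (Sp x) := fun x hx => by
    rw [hSp]
    exact Unr.sum fun i _ => hx.map _
  rw [← hSN] at hkN
  rw [← hSp] at hkp
  obtain ⟨z', hz'⟩ : ∃ z', z' = (b.N * p) • z - b.N • Sp z - p • SN z + SN (Sp z) := ⟨_, rfl⟩
  have hu' : Unr z' := by
    rw [hz']
    exact (((hz.nsmul _).sub ((hUp _ hz).nsmul _)).sub ((hUN _ hz).nsmul _)).add
      (hUN _ (hUp _ hz))
  have hN0 : SN z' = 0 := by
    rw [hz', map_add, map_sub, map_sub, map_nsmul, map_nsmul, map_nsmul, hNN2, hNN2, mul_comm,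
      mul_smul]
    abel
  have hp0 : Sp z' = 0 := by
    rw [hz', map_add, map_sub, map_sub, map_nsmul, map_nsmul, map_nsmul, hpp2, hNp, hpp2, ← hNp,
      mul_smul]
    abel
  have hkill : C₁ • z' = 0 := by
    refine hnew m hs hw F E ι hF X v u h z' hu' ?_ ?_
    · intro g k g1 g2 g3 g4 hk
      have h1 : g = gN ^ k := hext _ _ g1 g2 (hpowN k).1 (hpowN k).2.1
        (g3.trans (hpowN k).2.2.1.symm) (g4.trans (hpowN k).2.2.2.symm)
      have h2 := B8_sum (k := k) (j := 0) hN.pos hNN
        (Nat.coprime_comm.1 (hN.coprime_iff_not_dvd.2 hk)) (fun s => KM.map m s z')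
      rw [h1]
      simp only [← pow_mul]
      simp only [add_zero] at h2
      rw [h2, ← hSN, hN0]
    · intro g k g1 g2 g3 g4 hk
      have h1 : g = gp ^ k := hext _ _ g1 g2 (hpowp k).1 (hpowp k).2.1
        (g3.trans (hpowp k).2.2.1.symm) (g4.trans (hpowp k).2.2.2.symm)
      have h2 := B8_sum (k := k) (j := 0) hp.pos hpp
        (Nat.coprime_comm.1 (hp.coprime_iff_not_dvd.2 hk)) (fun s => KM.map m s z')
      rw [h1]
      simp only [← pow_mul]
      simp only [add_zero] at h2
      rw [h2, ← hSp, hp0]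
  have h1 : (b.N * p) • z = z' + b.N • Sp z + p • SN z - SN (Sp z) := by
    rw [hz']
    abel
  have h2 : (b.N * p * (b.q ^ wd - 1)) • Sp z = 0 := by
    rw [mul_assoc, mul_smul, hkp, smul_zero]
  have h3 : (b.N * p * (b.q ^ wd - 1)) • SN z = 0 := by
    rw [mul_comm b.N, mul_assoc, mul_smul, hkN, smul_zero]
  have h4 : (b.N * p * (b.q ^ wd - 1)) • SN (Sp z) = 0 := by
    rw [← map_nsmul, h2, map_zero]
  obtain ⟨D, hD⟩ : ∃ D, D = b.N * p * (b.q ^ wd - 1) := ⟨_, rfl⟩
  rw [← hD] at h2 h3 h4 ⊢
  have t1 : (C₁ * D) • z' = 0 := by rw [mul_comm, mul_smul, hkill, smul_zero]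
  have t2 : (C₁ * D) • b.N • Sp z = 0 := by
    rw [mul_smul, smul_comm D b.N, h2, smul_zero, smul_zero]
  have t3 : (C₁ * D) • p • SN z = 0 := by
    rw [mul_smul, smul_comm D p, h3, smul_zero, smul_zero]
  have t4 : (C₁ * D) • SN (Sp z) = 0 := by rw [mul_smul, h4, smul_zero]
  rw [mul_smul (C₁ * D) (b.N * p) z, h1, smul_sub, smul_add, smul_add, t1, t2, t3, t4, add_zero,
    add_zero, sub_zero]

end main

end UnrA.Fer
end

section

/-!
# Covers over a field with a rational finite extension
-/

namespace UnrA.Fer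

open UnrG

universe u v w z

open Polynomial Finset
open scoped Classical

/-- `E` is the function field over `k` of the product of an affine space with coordinates `t_i` and
of the variety `v ^ N = D ∏ X_j ^ (c_j)`, `u ^ p - u = d + ∑ X_j`. -/
structure ASCovD (p N : ℕ) {k E : Type u} [Field k] [Field E] [Algebra k E] {r n : ℕ}
    (t : Fin r → E) (X : Fin n → E) (D d : k) (v u : E) (c : Fin n → ZMod N) : Prop where
  ind : AlgebraicIndependent k (Sum.elim t X)
  ne : D ≠ 0
  eqv : v ^ N = algebraMap k E D * ∏ j, X j ^ (c j).val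
  equ : u ^ p - u = algebraMap k E d + ∑ j, X j
  gen : IntermediateField.adjoin k (Set.range t ∪ Set.range X ∪ {v, u}) = ⊤

variable {𝔽 : Type} [Field 𝔽] [Fintype 𝔽] (b : Base 𝔽)

/-- A cover times an affine space: the classes come from the cover. -/
private lemma B9_kills {p N : ℕ} (hp : 1 < p) (hN : 0 < N) {n : ℕ} {c : Fin n → ZMod N} {B : ℕ}
    {m : UFun.{u, z}} {κ E' : Type u} [Field κ] [Field E'] [Algebra κ E']
    (H : ∀ (E : Type u) [Field E] [Algebra κ E] (x : Fin n → E) (v u : E),
      ASCov p N (F := κ) x v u c → ∀ z : KM m E, Unr z → B • z = 0)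
    {l : ℕ} (w : Fin l → E') (x : Fin n → E') (v u : E')
    (hind : AlgebraicIndependent κ (Sum.elim w x))
    (hv : v ^ N = ∏ j, x j ^ (c j).val) (hu : u ^ p - u = ∑ j, x j)
    (hgen : IntermediateField.adjoin κ (Set.range w ∪ Set.range x ∪ {v, u}) = ⊤)
    {ξ : KM m E'} (hξ : Unr ξ) : B • ξ = 0 := by
  have hxK : ∀ j, x j ∈ IntermediateField.adjoin κ (Set.range x) := fun j =>
    IntermediateField.subset_adjoin _ _ ⟨j, rfl⟩
  have hind0 : AlgebraicIndependent (IntermediateField.adjoin κ (Set.range x)) w :=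
    IntermediateField.algebraicIndependent_adjoin_iff.mpr
      (AlgebraicIndependent.sumElim_iff.mp hind).2
  have hindx : AlgebraicIndependent κ x := hind.comp Sum.inr Sum.inr_injective
  obtain ⟨K0, hK0⟩ : ∃ K0 : IntermediateField κ E',
    K0 = IntermediateField.adjoin κ (Set.range x) := ⟨_, rfl⟩
  rw [← hK0] at hxK hind0
  have hprod : ∏ j, x j ^ (c j).val ∈ K0 := prod_mem fun j _ => pow_mem (hxK j) _
  have hsum : ∑ j, x j ∈ K0 := sum_mem fun j _ => hxK j
  have hint : ∀ y ∈ ({v, u} : Set E'), IsIntegral K0 y := by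
    rintro y hy
    rcases hy with hy | hy
    · rw [hy]
      refine ⟨X ^ N - C ⟨∏ j, x j ^ (c j).val, hprod⟩, monic_X_pow_sub_C _ hN.ne', ?_⟩
      rw [eval₂_sub, eval₂_X_pow, eval₂_C]
      exact sub_eq_zero.2 hv
    · rw [Set.mem_singleton_iff] at hy
      rw [hy]
      refine ⟨X ^ p - (X + C ⟨∑ j, x j, hsum⟩), ?_, ?_⟩
      · apply monic_X_pow_sub
        rw [degree_X_add_C]
        exact_mod_cast hp
      · rw [eval₂_sub, eval₂_X_pow, eval₂_add, eval₂_X, eval₂_C]
        have h1 : algebraMap K0 E' ⟨∑ j, x j, hsum⟩ = ∑ j, x j := rfl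
        rw [h1, ← hu]
        ring
  have halg : Algebra.IsAlgebraic K0 (IntermediateField.adjoin K0 ({v, u} : Set E')) :=
    IntermediateField.isAlgebraic_adjoin hint
  have hind1 : AlgebraicIndependent (IntermediateField.adjoin K0 ({v, u} : Set E')) w :=
    hind0.extendScalars _
  have hvE : v ∈ IntermediateField.adjoin K0 ({v, u} : Set E') :=
    IntermediateField.subset_adjoin _ _ (Or.inl rfl)
  have huE : u ∈ IntermediateField.adjoin K0 ({v, u} : Set E') :=
    IntermediateField.subset_adjoin _ _ (Or.inr rfl)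
  have hsub : (IntermediateField.adjoin K0 ({v, u} : Set E')).toSubfield =
      Subfield.closure (Set.range (algebraMap K0 E') ∪ {v, u}) :=
    IntermediateField.adjoin_toSubfield _ _
  obtain ⟨E₁, hE₁⟩ : ∃ E₁ : IntermediateField K0 E',
    E₁ = IntermediateField.adjoin K0 ({v, u} : Set E') := ⟨_, rfl⟩
  rw [← hE₁] at hind1 hvE huE hsub
  have hxE : ∀ j, x j ∈ E₁ := fun j => E₁.algebraMap_mem ⟨x j, hxK j⟩
  have hst : IsScalarTower κ E₁ E' := IsScalarTower.of_algebraMap_eq fun a => rfl
  -- generation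
  have hgen1 : IntermediateField.adjoin E₁ (Set.range w) = ⊤ := by
    rw [eq_top_iff]
    intro y _
    obtain ⟨R, hR⟩ : ∃ R, R = IntermediateField.adjoin E₁ (Set.range w) := ⟨_, rfl⟩
    rw [← hR]
    have h1 := congrArg IntermediateField.toSubfield hgen
    rw [IntermediateField.adjoin_toSubfield, IntermediateField.top_toSubfield] at h1
    have h2 : (⊤ : Subfield E') ≤ R.toSubfield := by
      rw [← h1, Subfield.closure_le]
      rintro y (⟨a, rfl⟩ | ((⟨i, rfl⟩ | ⟨i, rfl⟩) | hy))
      · exact R.algebraMap_mem (algebraMap κ E₁ a)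
      · change w i ∈ R
        rw [hR]
        exact IntermediateField.subset_adjoin _ _ ⟨i, rfl⟩
      · exact R.algebraMap_mem ⟨x i, hxE i⟩
      · rcases hy with hy | hy
        · rw [hy]
          exact R.algebraMap_mem ⟨v, hvE⟩
        · rw [Set.mem_singleton_iff] at hy
          rw [hy]
          exact R.algebraMap_mem ⟨u, huE⟩
    exact h2 (Subfield.mem_top y)
  have hcov : ASCov p N (F := κ) (fun j => (⟨x j, hxE j⟩ : E₁)) ⟨v, hvE⟩ ⟨u, huE⟩ c := by
    refine ⟨?_, ?_, ?_, ?_⟩
    · exact AlgebraicIndependent.of_comp (IsScalarTower.toAlgHom κ E₁ E') hindx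
    · apply (algebraMap E₁ E').injective
      rw [map_pow, map_prod]
      simp only [map_pow]
      exact hv
    · apply (algebraMap E₁ E').injective
      rw [map_sub, map_pow, map_sum]
      exact hu
    · rw [eq_top_iff]
      intro y _
      obtain ⟨R, hR⟩ : ∃ R : IntermediateField κ E₁, R = IntermediateField.adjoin κ
        (Set.range (fun j => (⟨x j, hxE j⟩ : E₁)) ∪ {⟨v, hvE⟩, ⟨u, huE⟩}) := ⟨_, rfl⟩
      rw [← hR]
      have hRx : ∀ j, (⟨x j, hxE j⟩ : E₁) ∈ R := fun j => by
        rw [hR]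
        exact IntermediateField.subset_adjoin _ _ (Or.inl ⟨j, rfl⟩)
      have hRv : (⟨v, hvE⟩ : E₁) ∈ R := by
        rw [hR]
        exact IntermediateField.subset_adjoin _ _ (Or.inr (Or.inl rfl))
      have hRu : (⟨u, huE⟩ : E₁) ∈ R := by
        rw [hR]
        exact IntermediateField.subset_adjoin _ _ (Or.inr (Or.inr rfl))
      have h1 : K0 ≤ R.map (IsScalarTower.toAlgHom κ E₁ E') := by
        refine hK0.le.trans (IntermediateField.adjoin_le_iff.2 ?_)
        rintro _ ⟨j, rfl⟩
        exact ⟨⟨x j, hxE j⟩, hRx j, rfl⟩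
      have h2 : E₁.toSubfield ≤ (R.map (IsScalarTower.toAlgHom κ E₁ E')).toSubfield := by
        rw [hsub, Subfield.closure_le]
        rintro y (⟨a, rfl⟩ | hy)
        · exact h1 a.2
        · rcases hy with hy | hy
          · rw [hy]
            exact ⟨⟨v, hvE⟩, hRv, rfl⟩
          · rw [Set.mem_singleton_iff] at hy
            rw [hy]
            exact ⟨⟨u, huE⟩, hRu, rfl⟩
      obtain ⟨y', hy', hyy⟩ := h2 y.2
      have h3 : y' = y := Subtype.ext hyy
      rw [← h3]
      exact hy'
  obtain ⟨y, hy, hyx⟩ := unr_purely w hind1 hgen1 hξ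
  have h5 := H E₁ _ _ _ hcov y hy
  rw [← hyx, ← map_nsmul, h5, map_zero]

/-- Covers over a field with a rational finite extension in which the twist is trivial. -/
theorem ascovD_kills_base {p : ℕ} [Fact p.Prime] [CharP 𝔽 p] (hN : b.N.Prime)
    {n wd : ℕ} (hwd : 0 < wd) (hn : 0 < n) (c : Fin n → ZMod b.N) (hc : ∀ j, c j ≠ 0)
    (ht : ¬ HasTwistedPair p c) :
    ∃ C : ℕ, 0 < C ∧ ∀ (m : UFun.{u, z}) (_ : m.Specializes) (_ : m.HasWeight 𝔽 b.q wd)
      (k E k' κ : Type u) [Field k] [Field E] [Field k'] [Field κ] [Algebra k E] [Algebra k k']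
      [FiniteDimensional k k'] [Algebra κ k'] (_ : 𝔽 →+* κ) (_ : ∀ a : κ, a ^ b.q = a)
      (r : ℕ) (t : Fin r → E) (X : Fin n → E) (D d : k) (v u : E)
      (_ : ASCovD p b.N t X D d v u c) (s : ℕ) (τ : Fin s → k')
      (_ : AlgebraicIndependent κ τ) (_ : IntermediateField.adjoin κ (Set.range τ) = ⊤)
      (β e : k') (_ : algebraMap k k' D = β ^ b.N) (_ : algebraMap k k' d = e ^ p - e)
      (z : KM m E), Unr z → ((Module.finrank k k').factorial * C) • z = 0 := by
  obtain ⟨C, hC, H⟩ := ASCov.kills.{u, z} b (p := p) hN hwd hn c hc ht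
  refine ⟨C, hC, ?_⟩
  intro m hs hw k E k' κ _ _ _ _ _ _ _ _ ι hκ r t x D d v u hE s τ hτ hgen β e hβ he z hz
  obtain ⟨E', _, _, _, _, hst, hst', hfd, hle, hcl⟩ := exists_compositum (k := k) (E := E)
    (k' := k')
  let _ : Algebra κ E' := ((algebraMap k' E').comp (algebraMap κ k')).toAlgebra
  have hst'' : IsScalarTower κ k' E' := IsScalarTower.of_algebraMap_eq fun x => rfl
  have hcomm : ∀ a : k, algebraMap E E' (algebraMap k E a) = algebraMap k' E' (algebraMap k k' a) :=
    fun a => by
      rw [← IsScalarTower.algebraMap_apply, ← IsScalarTower.algebraMap_apply]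
  have hchar : CharP E' p :=
    charP_of_injective_ringHom ((algebraMap κ E').comp ι).injective p
  have hβ0 : β ≠ 0 := by
    intro h0
    have h1 : algebraMap k k' D = 0 := by rw [hβ, h0, zero_pow hN.ne_zero]
    exact hE.ne ((map_eq_zero _).1 h1)
  have hβ1 : algebraMap k' E' β ≠ 0 := (_root_.map_ne_zero _).2 hβ0
  have hkill : C • KM.map m (algebraMap E E') z = 0 := by
    refine B9_kills (p := p) (N := b.N) (c := c) (κ := κ) (E' := E') (Fact.out : p.Prime).one_lt
      b.N_pos (fun E₀ _ _ x v u h z hz => H m hs hw κ E₀ ι hκ x v u h z hz)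
      (l := s + r) (Sum.elim (fun i => algebraMap k' E' (τ i)) (fun i => algebraMap E E' (t i)) ∘
        finSumFinEquiv.symm)
      (fun j => algebraMap E E' (x j)) (algebraMap E E' v / algebraMap k' E' β)
      (algebraMap E E' u - algebraMap k' E' e) ?_ ?_ ?_ ?_ (hz.map _)
    · have h1 : AlgebraicIndependent k (fun i => algebraMap E E' (Sum.elim t x i)) :=
        hE.ind.map' (f := IsScalarTower.toAlgHom k E E') (algebraMap E E').injective
      have halg : Algebra.IsAlgebraic k k' := Algebra.IsAlgebraic.of_finite k k'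
      have h2 : AlgebraicIndependent k' (fun i => algebraMap E E' (Sum.elim t x i)) :=
        h1.extendScalars k'
      have h3 := AlgebraicIndependent.sumElim_comp hτ h2
      obtain ⟨ε, hε⟩ : ∃ ε : Fin (s + r) ⊕ Fin n ≃ (Fin r ⊕ Fin n) ⊕ Fin s,
        ε = ((Equiv.sumCongr finSumFinEquiv.symm (Equiv.refl (Fin n))).trans
          (Equiv.sumAssoc _ _ _)).trans (Equiv.sumComm _ _) := ⟨_, rfl⟩
      have h4 := h3.comp ε ε.injective
      have h5 : Sum.elim (fun i => algebraMap E E' (Sum.elim t x i)) (algebraMap k' E' ∘ τ) ∘ ε =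
          Sum.elim (Sum.elim (fun i => algebraMap k' E' (τ i)) (fun i => algebraMap E E' (t i)) ∘
            finSumFinEquiv.symm) (fun j => algebraMap E E' (x j)) := by
        funext i
        rcases i with i | i
        · obtain ⟨i', rfl⟩ := finSumFinEquiv.surjective i
          rcases i' with i' | i' <;> simp [hε]
        · simp [hε]
      rw [h5] at h4
      exact h4
    · rw [div_pow, div_eq_iff (pow_ne_zero _ hβ1), ← map_pow, hE.eqv, map_mul, map_prod, hcomm, hβ,
        map_pow, mul_comm]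
      congr 1
      exact Finset.prod_congr rfl fun j _ => map_pow _ _ _
    · have h1 := congrArg (algebraMap E E') hE.equ
      rw [map_sub, map_pow, map_add, hcomm, he, map_sub, map_pow, map_sum] at h1
      rw [sub_pow_char]
      linear_combination h1
    · rw [eq_top_iff]
      intro y _
      obtain ⟨R, hR⟩ : ∃ R, R = IntermediateField.adjoin κ
        (Set.range (Sum.elim (fun i => algebraMap k' E' (τ i)) (fun i => algebraMap E E' (t i)) ∘
          finSumFinEquiv.symm) ∪ (Set.range fun j => algebraMap E E' (x j)) ∪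
          {algebraMap E E' v / algebraMap k' E' β, algebraMap E E' u - algebraMap k' E' e}) :=
        ⟨_, rfl⟩
      rw [← hR]
      have hRτ : ∀ i, algebraMap k' E' (τ i) ∈ R := by
        intro i
        rw [hR]
        refine IntermediateField.subset_adjoin _ _ (Or.inl (Or.inl ⟨finSumFinEquiv (Sum.inl i), ?_⟩))
        simp
      have hRt : ∀ i, algebraMap E E' (t i) ∈ R := by
        intro i
        rw [hR]
        refine IntermediateField.subset_adjoin _ _ (Or.inl (Or.inl ⟨finSumFinEquiv (Sum.inr i), ?_⟩))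
        simp
      have hRx : ∀ i, algebraMap E E' (x i) ∈ R := by
        intro i
        rw [hR]
        exact IntermediateField.subset_adjoin _ _ (Or.inl (Or.inr ⟨i, rfl⟩))
      have hk' : ∀ a : k', algebraMap k' E' a ∈ R := by
        intro a
        have h1 : (IntermediateField.adjoin κ (Set.range τ)).map (IsScalarTower.toAlgHom κ k' E') ≤
            R := by
          rw [IntermediateField.adjoin_map, IntermediateField.adjoin_le_iff]
          rintro _ ⟨_, ⟨i, rfl⟩, rfl⟩
          exact hRτ i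
        exact h1 ⟨a, by rw [hgen]; trivial, rfl⟩
      have hRv : algebraMap E E' v ∈ R := by
        have h1 : algebraMap E E' v / algebraMap k' E' β ∈ R := by
          rw [hR]
          exact IntermediateField.subset_adjoin _ _ (Or.inr (Or.inl rfl))
        have h2 := R.mul_mem h1 (hk' β)
        rwa [div_mul_cancel₀ _ hβ1] at h2
      have hRu : algebraMap E E' u ∈ R := by
        have h1 : algebraMap E E' u - algebraMap k' E' e ∈ R := by
          rw [hR]
          exact IntermediateField.subset_adjoin _ _ (Or.inr (Or.inr rfl))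
        have h2 := R.add_mem h1 (hk' e)
        rwa [sub_add_cancel] at h2
      have hER : ∀ a : E, algebraMap E E' a ∈ R := by
        intro a
        have h1 := congrArg IntermediateField.toSubfield hE.gen
        rw [IntermediateField.adjoin_toSubfield, IntermediateField.top_toSubfield] at h1
        have h2 : (⊤ : Subfield E) ≤ R.toSubfield.comap (algebraMap E E') := by
          rw [← h1, Subfield.closure_le]
          rintro y (⟨a, rfl⟩ | ((⟨i, rfl⟩ | ⟨i, rfl⟩) | hy))
          · change algebraMap E E' (algebraMap k E a) ∈ R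
            rw [hcomm]
            exact hk' _
          · exact hRt i
          · exact hRx i
          · rcases hy with hy | hy
            · rw [hy]
              exact hRv
            · rw [Set.mem_singleton_iff] at hy
              rw [hy]
              exact hRu
        exact h2 (Subfield.mem_top a)
      have h3 : (⊤ : Subfield E') ≤ R.toSubfield := by
        rw [← hcl, Subfield.closure_le]
        rintro _ (⟨a, rfl⟩ | ⟨a, rfl⟩)
        · exact hER a
        · exact hk' a
      exact h3 (Subfield.mem_top y)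
  rw [mul_smul]
  refine factorial_smul_eq_zero hle ?_
  rw [map_nsmul, hkill]

end UnrA.Fer
end

section

/-!
# Covers with a twisted pair over any field
-/

namespace UnrA.Fer

open UnrG

universe u v w z

open Polynomial Finset
open scoped Classical

private lemma C4_le {F E : Type*} [Field F] [Field E] [Algebra F E] {S : Set E}
    (hS : IntermediateField.adjoin F S = ⊤) {R : Subfield E}
    (h1 : ∀ a : F, algebraMap F E a ∈ R) (h2 : ∀ x ∈ S, x ∈ R) (x : E) : x ∈ R := by
  have h3 := congrArg IntermediateField.toSubfield hS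
  rw [IntermediateField.adjoin_toSubfield, IntermediateField.top_toSubfield] at h3
  have h4 : (⊤ : Subfield E) ≤ R := by
    rw [← h3, Subfield.closure_le]
    rintro y (⟨a, rfl⟩ | hy)
    · exact h1 a
    · exact h2 y hy
  exact h4 (Subfield.mem_top x)

/-- Generators of a subfield containing an independent family with as many members. -/
private lemma C4_exchange {F E : Type u} [Field F] [Field E] [Algebra F E] {X g : Fin 2 → E}
    (hX : AlgebraicIndependent F X) {T : IntermediateField F E} (hXT : ∀ i, X i ∈ T)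
    (hg : IntermediateField.adjoin F (Set.range g) = T) : AlgebraicIndependent F g := by
  have hgT : ∀ i, g i ∈ T := fun i => by
    rw [← hg]
    exact IntermediateField.subset_adjoin F _ ⟨i, rfl⟩
  obtain ⟨X', hX'⟩ : ∃ X' : Fin 2 → T, ∀ i, T.val (X' i) = X i := ⟨fun i => ⟨X i, hXT i⟩, fun i => rfl⟩
  obtain ⟨g', hg'⟩ : ∃ g' : Fin 2 → T, ∀ i, T.val (g' i) = g i := ⟨fun i => ⟨g i, hgT i⟩, fun i => rfl⟩
  have hcX : T.val ∘ X' = X := funext hX'
  have hcg : T.val ∘ g' = g := funext hg'
  have hXi : AlgebraicIndependent F X' := by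
    refine AlgebraicIndependent.of_comp T.val ?_
    rw [hcX]
    exact hX
  have htop : IntermediateField.adjoin F (Set.range g') = ⊤ := by
    have h1 : (IntermediateField.adjoin F (Set.range g')).map T.val =
        (⊤ : IntermediateField F T).map T.val := by
      rw [IntermediateField.adjoin_map, ← Set.range_comp, hcg, hg,
        ← AlgHom.fieldRange_eq_map, IntermediateField.fieldRange_val]
    exact IntermediateField.map_injective T.val h1
  have hgi : AlgebraicIndependent F g' := by
    refine indep_of_trdeg hXi fun z => ?_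
    have hz : z ∈ IntermediateField.adjoin F (Set.range g') := by
      rw [htop]
      exact IntermediateField.mem_top
    exact isAlgebraic_algebraMap (⟨z, hz⟩ : IntermediateField.adjoin F (Set.range g'))
  have h2 := hgi.map' (f := T.val) T.val.injective
  rw [hcg] at h2
  exact h2

/-- The field of the monomial is purely transcendental. -/
private lemma C4_purely {F E : Type u} [Field F] [Field E] [Algebra F E] {X : Fin 2 → E} {D : F}
    {v : E} {N c₀ c₁ : ℕ} (hN : N.Prime) (hD : D ≠ 0) (hX : AlgebraicIndependent F X)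
    (hv : v ^ N = algebraMap F E D * (X 0 ^ c₀ * X 1 ^ c₁)) (hc : ¬ N ∣ c₀) :
    IsPurely (IntermediateField.adjoin F (Set.range X ∪ {v})) := by
  have hX0 : ∀ i, X i ≠ 0 := fun i => hX.ne_zero i
  have hcop : c₀.Coprime N := (Nat.coprime_comm.1 ((hN.coprime_iff_not_dvd).2 hc))
  obtain ⟨S, hS⟩ : ∃ S : IntermediateField F E, S = IntermediateField.adjoin F {X 1} := ⟨_, rfl⟩
  have hX1S : X 1 ∈ S := by
    rw [hS]
    exact IntermediateField.mem_adjoin_simple_self F _
  have hcS : algebraMap F E D * X 1 ^ c₁ ∈ S := mul_mem (S.algebraMap_mem D) (pow_mem hX1S _)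
  have hc0 : algebraMap F E D * X 1 ^ c₁ ≠ 0 :=
    mul_ne_zero ((_root_.map_ne_zero (algebraMap F E)).2 hD) (pow_ne_zero _ (hX0 1))
  have hvN : v ^ N = algebraMap F E D * X 1 ^ c₁ * X 0 ^ c₀ := by
    rw [hv]
    ring
  obtain ⟨y, hy⟩ := mono_trick S hN.pos hcop hcS hc0 (hX0 0) hvN
  have hT : IntermediateField.adjoin F (Set.range X ∪ {v}) =
      IntermediateField.adjoin F (Set.range ![X 1, y]) := by
    have h1 : (Set.range X ∪ {v} : Set E) = {X 1} ∪ {v, X 0} := by
      ext x
      simp only [Set.mem_union, Set.mem_range, Set.mem_singleton_iff, Set.mem_insert_iff,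
        Fin.exists_fin_two]
      constructor
      · rintro ((h | h) | h)
        · exact Or.inr (Or.inr h.symm)
        · exact Or.inl h.symm
        · exact Or.inr (Or.inl h)
      · rintro (h | (h | h))
        · exact Or.inl (Or.inr h.symm)
        · exact Or.inr h
        · exact Or.inl (Or.inl h.symm)
    have h2 : (Set.range ![X 1, y] : Set E) = {X 1} ∪ {y} := by
      ext x
      simp only [Set.mem_union, Set.mem_range, Set.mem_singleton_iff, Fin.exists_fin_two,
        Matrix.cons_val_zero, Matrix.cons_val_one]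
      constructor
      · rintro (h | h)
        · exact Or.inl h.symm
        · exact Or.inr h.symm
      · rintro (h | h)
        · exact Or.inl h.symm
        · exact Or.inr h.symm
    rw [h1, h2, IntermediateField.adjoin_union, IntermediateField.adjoin_union, ← hS, hy]
  refine ⟨2, ![X 1, y], C4_exchange hX (fun i => ?_) hT.symm, hT.symm⟩
  exact IntermediateField.subset_adjoin F _ (Or.inl ⟨i, rfl⟩)

/-- Reduction of a cover to a cover with two exponents over a purely transcendental extension of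
the base field. -/
private lemma C4_reduce {p N : ℕ} [Fact p.Prime] (hN : N.Prime) {n : ℕ} {c : Fin n → ZMod N}
    {i j : Fin n} (hij : i ≠ j) (hi : c i ≠ 0) {m : UFun.{u, z}} {C₂ : ℕ}
    (H : ∀ (F E : Type u) [Field F] [Field E] [CharP F p] [Algebra F E] (X : Fin 2 → E) (D d : F)
      (v u : E) (_ : D ≠ 0) (_ : AlgebraicIndependent F X)
      (_ : v ^ N = algebraMap F E D * (X 0 ^ (c i).val * X 1 ^ (c j).val))
      (_ : u ^ p - u = algebraMap F E d + (X 0 + X 1))
      (_ : IntermediateField.adjoin F (Set.range X ∪ {v, u}) = ⊤) (z : KM m E) (_ : Unr z)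
      (δ : E →+* E) (_ : ∀ a : F, δ (algebraMap F E a) = algebraMap F E a)
      (_ : ∀ i, δ (X i) = X i) (_ : δ v = v) (_ : δ u = u + 1)
      (_ : ∑ i ∈ range p, KM.map m (δ ^ i) z = 0), C₂ • z = 0)
    {k E : Type u} [Field k] [Field E] [CharP k p] [Algebra k E] {r : ℕ} {t : Fin r → E}
    {X : Fin n → E} {D d : k} {v u : E} (h : ASCovD p N t X D d v u c) :
    KillsC m (p * p * 1 * C₂) k E := by
  have : NeZero N := ⟨hN.ne_zero⟩
  have hindX : AlgebraicIndependent k X := h.ind.comp Sum.inr Sum.inr_injective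
  have hX0 : ∀ l, X l ≠ 0 := fun l => hindX.ne_zero l
  -- the base field
  let X₁ : {l : Fin n // l ≠ i ∧ l ≠ j} → E := fun l => X l
  obtain ⟨τ, hτ⟩ : ∃ τ : Fin r ⊕ {l : Fin n // l ≠ i ∧ l ≠ j} → E, τ = Sum.elim t X₁ := ⟨_, rfl⟩
  have hindτ : AlgebraicIndependent k τ := by
    have h1 := h.ind.comp (Sum.map id Subtype.val : Fin r ⊕ {l : Fin n // l ≠ i ∧ l ≠ j} →
      Fin r ⊕ Fin n) (Function.injective_id.sumMap Subtype.val_injective)
    have h2 : Sum.elim t X ∘ (Sum.map id Subtype.val : Fin r ⊕ {l : Fin n // l ≠ i ∧ l ≠ j} →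
      Fin r ⊕ Fin n) = τ := by
      rw [hτ]
      funext a
      rcases a with a | a <;> rfl
    rw [h2] at h1
    exact h1
  have hind2 : AlgebraicIndependent k (Sum.elim ![X i, X j] τ) := by
    let φ : Fin 2 ⊕ (Fin r ⊕ {l : Fin n // l ≠ i ∧ l ≠ j}) → Fin r ⊕ Fin n :=
      Sum.elim ![Sum.inr i, Sum.inr j] (Sum.map id Subtype.val)
    have hφ : Function.Injective φ := by
      refine Function.Injective.sumElim ?_ (Function.injective_id.sumMap Subtype.val_injective) ?_
      · intro a b hab
        fin_cases a <;> fin_cases b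
        · rfl
        · exact absurd (Sum.inr_injective hab) hij
        · exact absurd (Sum.inr_injective hab) hij.symm
        · rfl
      · rintro a (b | b) hab
        · fin_cases a
          · exact absurd hab Sum.inr_ne_inl
          · exact absurd hab Sum.inr_ne_inl
        · fin_cases a
          · exact b.2.1 (Sum.inr_injective hab).symm
          · exact b.2.2 (Sum.inr_injective hab).symm
    have h1 := h.ind.comp φ hφ
    have h2 : Sum.elim t X ∘ φ = Sum.elim ![X i, X j] τ := by
      rw [hτ]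
      funext a
      rcases a with a | a | a
      · fin_cases a <;> rfl
      · rfl
      · rfl
    rw [h2] at h1
    exact h1
  obtain ⟨F, hF⟩ : ∃ F : IntermediateField k E, F = IntermediateField.adjoin k (Set.range τ) :=
    ⟨_, rfl⟩
  have hpF : IsPurely F := by
    rw [hF]
    exact isPurely_adjoin _ hindτ
  have hindF : AlgebraicIndependent F ![X i, X j] := by
    rw [hF]
    exact IntermediateField.algebraicIndependent_adjoin_iff.mpr
      (AlgebraicIndependent.sumElim_iff.mp hind2).2
  have htF : ∀ a, t a ∈ F := by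
    intro a
    rw [hF, hτ]
    exact IntermediateField.subset_adjoin k _ ⟨Sum.inl a, rfl⟩
  have hXF : ∀ l, l ≠ i → l ≠ j → X l ∈ F := by
    intro l h1 h2
    rw [hF, hτ]
    exact IntermediateField.subset_adjoin k _ ⟨Sum.inr ⟨l, h1, h2⟩, rfl⟩
  have hcF : CharP F p := charP_of_injective_algebraMap (algebraMap k F).injective p
  have hmemj : j ∈ univ.erase i := Finset.mem_erase.2 ⟨hij.symm, Finset.mem_univ _⟩
  have hP : ∏ l ∈ (univ.erase i).erase j, X l ^ (c l).val ∈ F := prod_mem fun l hl => by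
    rw [Finset.mem_erase, Finset.mem_erase] at hl
    exact pow_mem (hXF l hl.2.1 hl.1) _
  have hP0 : ∏ l ∈ (univ.erase i).erase j, X l ^ (c l).val ≠ 0 :=
    Finset.prod_ne_zero_iff.2 fun l _ => pow_ne_zero _ (hX0 l)
  have hS : ∑ l ∈ (univ.erase i).erase j, X l ∈ F := sum_mem fun l hl => by
    rw [Finset.mem_erase, Finset.mem_erase] at hl
    exact hXF l hl.2.1 hl.1
  obtain ⟨D', hD'⟩ : ∃ D' : F, (algebraMap F E D' : E) =
      algebraMap k E D * ∏ l ∈ (univ.erase i).erase j, X l ^ (c l).val :=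
    ⟨⟨_, mul_mem (F.algebraMap_mem D) hP⟩, rfl⟩
  obtain ⟨d', hd'⟩ : ∃ d' : F, (algebraMap F E d' : E) =
      algebraMap k E d + ∑ l ∈ (univ.erase i).erase j, X l :=
    ⟨⟨_, add_mem (F.algebraMap_mem d) hS⟩, rfl⟩
  have hD'0 : D' ≠ 0 := by
    intro h0
    rw [h0, map_zero] at hD'
    exact mul_ne_zero ((_root_.map_ne_zero (algebraMap k E)).2 h.ne) hP0 hD'.symm
  have hv' : v ^ N = algebraMap F E D' * (![X i, X j] 0 ^ (c i).val * ![X i, X j] 1 ^ (c j).val) := by
    rw [h.eqv, hD', ← Finset.mul_prod_erase univ _ (Finset.mem_univ i),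
      ← Finset.mul_prod_erase (univ.erase i) _ hmemj]
    change _ = _ * (X i ^ (c i).val * X j ^ (c j).val)
    ring
  have hu' : u ^ p - u = algebraMap F E d' + (![X i, X j] 0 + ![X i, X j] 1) := by
    rw [h.equ, hd', ← Finset.add_sum_erase univ _ (Finset.mem_univ i),
      ← Finset.add_sum_erase (univ.erase i) _ hmemj]
    change _ = _ + (X i + X j)
    ring
  have hgenF : IntermediateField.adjoin F (Set.range ![X i, X j] ∪ {v, u}) = ⊤ := by
    rw [eq_top_iff]
    intro x _
    obtain ⟨R, hR⟩ : ∃ R, R = IntermediateField.adjoin F (Set.range ![X i, X j] ∪ {v, u}) :=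
      ⟨_, rfl⟩
    rw [← hR]
    have hsub : (Set.range ![X i, X j] ∪ {v, u} : Set E) ⊆ R := by
      rw [hR]
      exact IntermediateField.subset_adjoin F _
    have hFR : ∀ y ∈ F, y ∈ R := fun y hy => R.algebraMap_mem (⟨y, hy⟩ : F)
    refine C4_le h.gen (R := R.toSubfield) (fun a => hFR _ (F.algebraMap_mem a)) ?_ x
    rintro y ((⟨a, rfl⟩ | ⟨l, rfl⟩) | hy)
    · exact hFR _ (htF a)
    · by_cases h1 : l = i
      · rw [h1]
        exact hsub (Or.inl ⟨0, rfl⟩)
      by_cases h2 : l = j
      · rw [h2]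
        exact hsub (Or.inl ⟨1, rfl⟩)
      exact hFR _ (hXF l h1 h2)
    · exact hsub (Or.inr hy)
  have hci : ¬ N ∣ (c i).val := by
    intro hd
    apply hi
    have h1 := (ZMod.natCast_eq_zero_iff (c i).val N).2 hd
    rwa [ZMod.natCast_zmod_val] at h1
  -- the subfield of the monomial
  obtain ⟨T, hT⟩ : ∃ T : IntermediateField F E,
    T = IntermediateField.adjoin F (Set.range ![X i, X j] ∪ {v}) := ⟨_, rfl⟩
  have hsubT : (Set.range ![X i, X j] ∪ {v} : Set E) ⊆ T := by
    rw [hT]
    exact IntermediateField.subset_adjoin F _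
  have hT1 : KillsC m 1 F T := by
    intro x hx
    rw [one_smul]
    refine mem_cst_of_isPurely ?_ hx
    rw [hT]
    exact C4_purely hN hD'0 hindF hv' hci
  have hkF : KillsC m (p * p * 1 * C₂) F E := by
    refine killsC_of_as T (u := u) ?_ ?_ hT1 ?_
    · rw [hu']
      exact add_mem (T.algebraMap_mem _) (add_mem (hsubT (Or.inl ⟨0, rfl⟩))
        (hsubT (Or.inl ⟨1, rfl⟩)))
    · rw [eq_top_iff, ← hgenF, IntermediateField.adjoin_le_iff]
      rintro y (hy | hy)
      · exact IntermediateField.subset_adjoin F _ (Or.inl (hsubT (Or.inl hy)))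
      · rw [Set.mem_insert_iff, Set.mem_singleton_iff] at hy
        rcases hy with rfl | rfl
        · exact IntermediateField.subset_adjoin F _ (Or.inl (hsubT (Or.inr rfl)))
        · exact IntermediateField.subset_adjoin F _ (Or.inr rfl)
    · intro δ hδT hδu z hz hsum
      refine H F E ![X i, X j] D' d' v u hD'0 hindF hv' hu' hgenF z hz δ
        (fun a => hδT _ (T.algebraMap_mem a)) (fun l => hδT _ (hsubT (Or.inl ⟨l, rfl⟩)))
        (hδT _ (hsubT (Or.inr rfl))) hδu hsum
  intro x hx
  obtain ⟨y, hy, hyx⟩ := mem_cst.mp (hkF x hx)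
  rw [← hyx]
  exact map_mem_cst (mem_cst_of_isPurely hpF hy) (fun a => rfl)

/-- Covers with a twisted pair. -/
theorem ascovD_twisted {p N : ℕ} [Fact p.Prime] (hN : N.Prime) (hpN : p ≠ N) {n : ℕ}
    (c : Fin n → ZMod N) (hc : ∀ j, c j ≠ 0) (ht : HasTwistedPair p c) :
    ∃ C : ℕ, 0 < C ∧ ∀ (m : UFun.{u, z}) (k E : Type u) [Field k] [Field E] [CharP k p]
      [Algebra k E] (r : ℕ) (t : Fin r → E) (X : Fin n → E) (D d : k) (v u : E)
      (_ : ASCovD p N t X D d v u c), KillsC m C k E := by
  have : NeZero N := ⟨hN.ne_zero⟩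
  have hp : p.Prime := Fact.out
  obtain ⟨i, j, hij, hi, hj, s, hs | hs⟩ := ht
  · have hdvd : N ∣ p ^ s + 1 := by
      rw [← ZMod.natCast_eq_zero_iff]
      push_cast
      rw [hs, neg_add_cancel]
    obtain ⟨C, hC0, hC⟩ := as_herm_new.{u, z} hN hpN s hdvd
    refine ⟨p * p * 1 * C, Nat.mul_pos (Nat.mul_pos (Nat.mul_pos hp.pos hp.pos) one_pos) hC0, ?_⟩
    intro m k E _ _ _ _ r t X D d v u h
    exact C4_reduce hN hij hi (fun F E _ _ _ _ X D d v u h1 h2 h3 h4 h5 z hz δ h6 h7 h8 h9 h10 =>
      hC m F E X D d v u _ _ h1 h2 h3 h4 h5 z hz δ h6 h7 h8 h9 h10) h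
  · have hdvd : N ∣ (c j).val + p ^ s * (c i).val := by
      rw [← ZMod.natCast_eq_zero_iff]
      push_cast
      rw [ZMod.natCast_zmod_val, ZMod.natCast_zmod_val, hs, neg_add_cancel]
    have hci : ¬ N ∣ (c i).val := by
      intro hd
      apply hi
      have h1 := (ZMod.natCast_eq_zero_iff (c i).val N).2 hd
      rwa [ZMod.natCast_zmod_val] at h1
    refine ⟨p * p * 1 * (((p ^ s) ^ 4).factorial * p), Nat.mul_pos (Nat.mul_pos (Nat.mul_pos
      hp.pos hp.pos) one_pos) (Nat.mul_pos (Nat.factorial_pos _) hp.pos), ?_⟩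
    intro m k E _ _ _ _ r t X D d v u h
    exact C4_reduce hN hij hi (fun F E _ _ _ _ X D d v u h1 h2 h3 h4 h5 z hz δ h6 h7 h8 h9 h10 =>
      as_twisted_new hN h1 h2 h3 h4 h5 hci hdvd hz δ h6 h7 h8 h9 h10) h

end UnrA.Fer
end

section

/-!
# Degenerate characters
-/

namespace UnrA.Fer

open UnrG

universe u v w z

open Polynomial Finset
open scoped Classical

/-- A family of `n` generators of a field of transcendence degree `n` is algebraically independent. -/
theorem algebraicIndependent_of_gen {k E : Type u} [Field k] [Field E] [Algebra k E] {n : ℕ}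
    {X w : Fin n → E} (hX : AlgebraicIndependent k X)
    (hw : IntermediateField.adjoin k (Set.range w) = ⊤) : AlgebraicIndependent k w := by
  refine indep_of_trdeg hX fun z => ?_
  have hz : z ∈ IntermediateField.adjoin k (Set.range w) := by
    rw [hw]
    exact IntermediateField.mem_top
  exact isAlgebraic_algebraMap (⟨z, hz⟩ : IntermediateField.adjoin k (Set.range w))

/-- `n` generators of a subfield. -/
private lemma C5_kills {k L : Type u} [Field k] [Field L] [Algebra k L] {n : ℕ} {S : Set L}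
    {X W : Fin n → L} (hX : AlgebraicIndependent k X)
    (hXS : ∀ j, X j ∈ IntermediateField.adjoin k S)
    (hWS : ∀ j, W j ∈ IntermediateField.adjoin k S)
    (hS : S ⊆ IntermediateField.adjoin k (Set.range W)) (m : UFun.{u, z}) :
    KillsC m 1 k (IntermediateField.adjoin k S) := by
  have htop : IntermediateField.adjoin k
      (Set.range (fun j => (⟨W j, hWS j⟩ : IntermediateField.adjoin k S))) = ⊤ := by
    rw [eq_top_iff]
    rintro ⟨z, hz⟩ -
    have h1 : z ∈ IntermediateField.adjoin k (Set.range W) :=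
      (IntermediateField.adjoin_le_iff.2 hS) hz
    have h2 : IntermediateField.adjoin k (Set.range W) =
        IntermediateField.lift (IntermediateField.adjoin k
          (Set.range (fun j => (⟨W j, hWS j⟩ : IntermediateField.adjoin k S)))) := by
      rw [IntermediateField.lift_adjoin, ← Set.range_comp]
      rfl
    rw [h2, IntermediateField.mem_lift (⟨z, hz⟩ : IntermediateField.adjoin k S)] at h1
    exact h1
  have hind : AlgebraicIndependent k
      (fun j => (⟨X j, hXS j⟩ : IntermediateField.adjoin k S)) := by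
    have h4 : AlgebraicIndependent k ((IntermediateField.adjoin k S).val ∘
        (fun j => (⟨X j, hXS j⟩ : IntermediateField.adjoin k S))) := hX
    exact (AlgHom.algebraicIndependent_iff _
      (IntermediateField.adjoin k S).val.injective).1 h4
  exact KillsC.of_purely (algebraicIndependent_of_gen hind htop) htop

/-- The subfields of degenerate characters are purely transcendental. -/
theorem IsASFamily.degenerate {p N : ℕ} [Fact p.Prime] (hN : N.Prime)
    (hpN : p ≠ N) {k L : Type u} [Field k] [Field L] [CharP k p] [Algebra k L] {n : ℕ}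
    {a b : Fin n → k} {x y : Fin n → L} (h : IsASFamily p N a b x y)
    (c : Fin n → ZMod N) (d : Fin n → ZMod p)
    (hcd : (c = 0 ∧ d = 0) ∨ ∃ i, (c i = 0 ∧ d i ≠ 0) ∨ (c i ≠ 0 ∧ d i = 0))
    (m : UFun.{u, z}) : KillsC m 1 k (asField k x y c d) := by
  have hN0 : NeZero N := ⟨hN.ne_zero⟩
  have hpp : p.Prime := Fact.out
  have hp0 : NeZero p := ⟨hpp.ne_zero⟩
  have hcL : CharP L p := charP_of_injective_algebraMap (algebraMap k L).injective p
  have hx0 : ∀ j, x j ≠ 0 := fun j h0 =>
    h.independent.transcendental j (by rw [h0]; exact isAlgebraic_zero)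
  -- the elements
  obtain ⟨X, hX⟩ : ∃ X : Fin n → L, X = fun j => x j ^ N := ⟨_, rfl⟩
  obtain ⟨v, hv⟩ : ∃ v : L, v = ∏ j, x j ^ (c j).val := ⟨_, rfl⟩
  obtain ⟨s, hs⟩ : ∃ s : L, s = ∑ j, ((d j).val : L) * y j := ⟨_, rfl⟩
  have hXj : ∀ j, X j = x j ^ N := fun j => by rw [hX]
  have hX0 : ∀ j, X j ≠ 0 := fun j => by rw [hXj]; exact pow_ne_zero _ (hx0 j)
  have hXind : AlgebraicIndependent k X := by
    have h1 := h.independent.polynomial_aeval_of_transcendental
      (f := fun _ => (Polynomial.X : k[X]) ^ N)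
      (fun _ => (Polynomial.transcendental_X k).pow hN.pos)
    have h2 : (fun i => (Polynomial.aeval (x i)) ((Polynomial.X : k[X]) ^ N)) = X := by
      rw [hX]
      funext j
      simp
    rwa [h2] at h1
  have hvN : v ^ N = ∏ j, X j ^ (c j).val := by
    rw [hv, ← Finset.prod_pow]
    refine Finset.prod_congr rfl fun j _ => ?_
    rw [hXj, ← pow_mul, ← pow_mul, mul_comm]
  have hsp : s ^ p - s = ∑ j, ((d j).val : L) *
      (algebraMap k L (a j) * X j + algebraMap k L (b j)) := by
    rw [hs, sum_pow_char, ← Finset.sum_sub_distrib]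
    refine Finset.sum_congr rfl fun j _ => ?_
    have h1 : ((d j).val : L) ^ p = (d j).val := by
      have hexp : ExpChar L p := ExpChar.prime hpp
      have h2 := map_natCast (frobenius L p) (d j).val
      rwa [frobenius_def] at h2
    rw [mul_pow, h1, hXj, ← h.equation j]
    ring
  -- one of the `X_i` from `s`
  have hXs : ∀ (M : IntermediateField k L) (i : Fin n), d i ≠ 0 → s ∈ M →
      (∀ j, j ≠ i → d j ≠ 0 → X j ∈ M) → X i ∈ M := by
    intro M i hdi hsM hM
    have hdi' : ((d i).val : L) ≠ 0 := by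
      intro h0
      rw [CharP.cast_eq_zero_iff L p] at h0
      have h1 := (ZMod.natCast_eq_zero_iff (d i).val p).2 h0
      rw [ZMod.natCast_zmod_val] at h1
      exact hdi h1
    have hai : algebraMap k L (a i) ≠ 0 := by
      rw [_root_.map_ne_zero]
      exact h.ne i
    have h1 : X i = (s ^ p - s - ∑ j ∈ univ.erase i, ((d j).val : L) *
        (algebraMap k L (a j) * X j + algebraMap k L (b j)) -
          (d i).val * algebraMap k L (b i)) * ((d i).val * algebraMap k L (a i))⁻¹ := by
      rw [hsp, ← Finset.add_sum_erase _ _ (Finset.mem_univ i)]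
      field_simp
      ring
    rw [h1]
    refine mul_mem (sub_mem (sub_mem (sub_mem (pow_mem hsM _) hsM) (sum_mem fun j hj => ?_)) ?_)
      (inv_mem (mul_mem (natCast_mem M _) (M.algebraMap_mem _)))
    · by_cases hdj : d j = 0
      · rw [hdj, ZMod.val_zero, Nat.cast_zero, zero_mul]
        exact zero_mem _
      · exact mul_mem (natCast_mem M _) (add_mem (mul_mem (M.algebraMap_mem _)
          (hM j (Finset.mem_erase.1 hj).1 hdj)) (M.algebraMap_mem _))
    · exact mul_mem (natCast_mem M _) (M.algebraMap_mem _)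
  -- the field
  have hE : asField k x y c d = IntermediateField.adjoin k (Set.range X ∪ {v, s}) := by
    rw [asField, hX, hv, hs]
  rw [hE]
  have hXE : ∀ j, X j ∈ IntermediateField.adjoin k (Set.range X ∪ {v, s}) := fun j =>
    IntermediateField.subset_adjoin k _ (Or.inl ⟨j, rfl⟩)
  have hvE : v ∈ IntermediateField.adjoin k (Set.range X ∪ {v, s}) :=
    IntermediateField.subset_adjoin k _ (Or.inr (Or.inl rfl))
  have hsE : s ∈ IntermediateField.adjoin k (Set.range X ∪ {v, s}) :=
    IntermediateField.subset_adjoin k _ (Or.inr (Or.inr rfl))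
  have hsub : ∀ M : IntermediateField k L, (∀ j, X j ∈ M) → v ∈ M → s ∈ M →
      Set.range X ∪ {v, s} ⊆ (M : Set L) := by
    rintro M h1 h2 h3 _ (⟨j, rfl⟩ | rfl | h4)
    · exact h1 j
    · exact h2
    · rw [Set.mem_singleton_iff] at h4
      rw [h4]
      exact h3
  -- the monomial trick
  have hmono : ∀ (l : Fin n) (P : Fin n → Prop), c l ≠ 0 → P l → (∀ j, j ≠ l → P j → c j = 0) →
      ∃ θ : L, IntermediateField.adjoin k (X '' {j | ¬ P j}) ⊔ IntermediateField.adjoin k {v, X l} =
        IntermediateField.adjoin k (X '' {j | ¬ P j}) ⊔ IntermediateField.adjoin k {θ} := by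
    intro l P hcl hPl hP
    have hcop : (c l).val.Coprime N := by
      rw [Nat.coprime_comm, hN.coprime_iff_not_dvd]
      intro hd
      apply hcl
      have h1 := (ZMod.natCast_eq_zero_iff (c l).val N).2 hd
      rwa [ZMod.natCast_zmod_val] at h1
    refine mono_trick (c := ∏ j ∈ univ.erase l, X j ^ (c j).val)
      (IntermediateField.adjoin k (X '' {j | ¬ P j})) hN.pos hcop
      (prod_mem fun j hj => ?_) (Finset.prod_ne_zero_iff.2 fun j _ => pow_ne_zero _ (hX0 j))
      (hX0 l) ?_
    · by_cases hPj : P j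
      · rw [hP j (Finset.mem_erase.1 hj).1 hPj, ZMod.val_zero, pow_zero]
        exact one_mem _
      · exact pow_mem (IntermediateField.subset_adjoin k (X '' {j | ¬ P j}) ⟨j, hPj, rfl⟩) _
    · rw [hvN]
      exact (Finset.prod_erase_mul univ (fun j => X j ^ (c j).val) (Finset.mem_univ l)).symm
  rcases hcd with ⟨hc, hd⟩ | ⟨i, ⟨hci, hdi⟩ | ⟨hci, hdi⟩⟩
  · -- case C
    have hv1 : v = 1 := by
      rw [hv, hc]
      simp
    have hs0 : s = 0 := by
      rw [hs, hd]
      simp
    refine C5_kills hXind hXE (W := X) hXE (hsub (IntermediateField.adjoin k (Set.range X))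
      (fun j => IntermediateField.subset_adjoin k (Set.range X) ⟨j, rfl⟩) ?_ ?_) m
    · rw [hv1]; exact one_mem _
    · rw [hs0]; exact zero_mem _
  · -- case A
    by_cases hc : ∃ l, c l ≠ 0
    · obtain ⟨l, hcl⟩ := hc
      have hli : l ≠ i := by
        rintro rfl
        exact hcl hci
      obtain ⟨θ, hθ⟩ := hmono l (fun j => j = l ∨ j = i) hcl (Or.inl rfl) (by
        rintro j hj (h1 | h1)
        · exact absurd h1 hj
        · rw [h1, hci])
      obtain ⟨W, hW⟩ : ∃ W : Fin n → L, W = Function.update (Function.update X i s) l θ := ⟨_, rfl⟩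
      have hWl : W l = θ := by rw [hW, Function.update_self]
      have hWi : W i = s := by rw [hW, Function.update_of_ne hli.symm, Function.update_self]
      have hWj : ∀ j, j ≠ l → j ≠ i → W j = X j := by
        intro j h1 h2
        rw [hW, Function.update_of_ne h1, Function.update_of_ne h2]
      have hmem : ∀ j, W j ∈ IntermediateField.adjoin k (Set.range W) := fun j =>
        IntermediateField.subset_adjoin k _ ⟨j, rfl⟩
      have hθE : θ ∈ IntermediateField.adjoin k (Set.range X ∪ {v, s}) := by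
        have h1 : θ ∈ IntermediateField.adjoin k (X '' {j | ¬ (j = l ∨ j = i)}) ⊔
            IntermediateField.adjoin k {v, X l} := by
          rw [hθ]
          exact (le_sup_right : IntermediateField.adjoin k {θ} ≤ _)
            (IntermediateField.mem_adjoin_simple_self k θ)
        refine (sup_le ?_ ?_ : _ ⊔ _ ≤ IntermediateField.adjoin k (Set.range X ∪ {v, s})) h1
        · rw [IntermediateField.adjoin_le_iff]
          rintro _ ⟨j, -, rfl⟩
          exact hXE j
        · rw [IntermediateField.adjoin_le_iff]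
          rintro _ (rfl | h2)
          · exact hvE
          · rw [Set.mem_singleton_iff] at h2
            rw [h2]
            exact hXE l
      have hle : IntermediateField.adjoin k (X '' {j | ¬ (j = l ∨ j = i)}) ⊔
          IntermediateField.adjoin k {v, X l} ≤ IntermediateField.adjoin k (Set.range W) := by
        rw [hθ]
        refine sup_le ?_ ?_
        · rw [IntermediateField.adjoin_le_iff]
          rintro _ ⟨j, hj, rfl⟩
          rw [Set.mem_ofPred_eq, not_or] at hj
          rw [← hWj j hj.1 hj.2]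
          exact hmem j
        · rw [IntermediateField.adjoin_simple_le_iff, ← hWl]
          exact hmem l
      have hvW : v ∈ IntermediateField.adjoin k (Set.range W) :=
        hle ((le_sup_right : IntermediateField.adjoin k {v, X l} ≤ _)
          (IntermediateField.subset_adjoin k _ (Or.inl rfl)))
      have hXlW : X l ∈ IntermediateField.adjoin k (Set.range W) :=
        hle ((le_sup_right : IntermediateField.adjoin k {v, X l} ≤ _)
          (IntermediateField.subset_adjoin k _ (Or.inr rfl)))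
      have hsW : s ∈ IntermediateField.adjoin k (Set.range W) := by
        rw [← hWi]
        exact hmem i
      have hXjW : ∀ j, j ≠ i → X j ∈ IntermediateField.adjoin k (Set.range W) := by
        intro j hj
        by_cases hjl : j = l
        · rw [hjl]
          exact hXlW
        · rw [← hWj j hjl hj]
          exact hmem j
      refine C5_kills hXind hXE (W := W) ?_ (hsub _ ?_ hvW hsW) m
      · intro j
        by_cases hjl : j = l
        · rw [hjl, hWl]
          exact hθE
        · by_cases hji : j = i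
          · rw [hji, hWi]
            exact hsE
          · rw [hWj j hjl hji]
            exact hXE j
      · intro j
        by_cases hji : j = i
        · rw [hji]
          exact hXs _ i hdi hsW (fun j' h1 _ => hXjW j' h1)
        · exact hXjW j hji
    · push Not at hc
      have hv1 : v = 1 := by
        rw [hv]
        refine Finset.prod_eq_one fun j _ => ?_
        rw [hc j, ZMod.val_zero, pow_zero]
      obtain ⟨W, hW⟩ : ∃ W : Fin n → L, W = Function.update X i s := ⟨_, rfl⟩
      have hWi : W i = s := by rw [hW, Function.update_self]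
      have hWj : ∀ j, j ≠ i → W j = X j := by
        intro j h2
        rw [hW, Function.update_of_ne h2]
      have hmem : ∀ j, W j ∈ IntermediateField.adjoin k (Set.range W) := fun j =>
        IntermediateField.subset_adjoin k _ ⟨j, rfl⟩
      have hsW : s ∈ IntermediateField.adjoin k (Set.range W) := by
        rw [← hWi]
        exact hmem i
      have hXjW : ∀ j, j ≠ i → X j ∈ IntermediateField.adjoin k (Set.range W) := by
        intro j hj
        rw [← hWj j hj]
        exact hmem j
      refine C5_kills hXind hXE (W := W) ?_ (hsub _ ?_ (by rw [hv1]; exact one_mem _) hsW) m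
      · intro j
        by_cases hji : j = i
        · rw [hji, hWi]
          exact hsE
        · rw [hWj j hji]
          exact hXE j
      · intro j
        by_cases hji : j = i
        · rw [hji]
          exact hXs _ i hdi hsW (fun j' h1 _ => hXjW j' h1)
        · exact hXjW j hji
  · -- case B
    obtain ⟨θ, hθ⟩ := hmono i (fun j => j = i) hci rfl (fun j hj h1 => absurd h1 hj)
    have hθE : θ ∈ IntermediateField.adjoin k (Set.range X ∪ {v, s}) := by
      have h1 : θ ∈ IntermediateField.adjoin k (X '' {j | ¬ (j = i)}) ⊔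
          IntermediateField.adjoin k {v, X i} := by
        rw [hθ]
        exact (le_sup_right : IntermediateField.adjoin k {θ} ≤ _)
          (IntermediateField.mem_adjoin_simple_self k θ)
      refine (sup_le ?_ ?_ : _ ⊔ _ ≤ IntermediateField.adjoin k (Set.range X ∪ {v, s})) h1
      · rw [IntermediateField.adjoin_le_iff]
        rintro _ ⟨j, -, rfl⟩
        exact hXE j
      · rw [IntermediateField.adjoin_le_iff]
        rintro _ (rfl | h2)
        · exact hvE
        · rw [Set.mem_singleton_iff] at h2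
          rw [h2]
          exact hXE i
    -- a field that contains `θ` and the `X_j`, `j ≠ i`
    have hfin : ∀ M : IntermediateField k L, θ ∈ M → (∀ j, j ≠ i → X j ∈ M) →
        v ∈ M ∧ ∀ j, X j ∈ M := by
      intro M h1 h2
      have hle : IntermediateField.adjoin k (X '' {j | ¬ (j = i)}) ⊔
          IntermediateField.adjoin k {v, X i} ≤ M := by
        rw [hθ]
        refine sup_le ?_ ?_
        · rw [IntermediateField.adjoin_le_iff]
          rintro _ ⟨j, hj, rfl⟩
          exact h2 j hj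
        · rw [IntermediateField.adjoin_simple_le_iff]
          exact h1
      have h3 : v ∈ M := hle ((le_sup_right : IntermediateField.adjoin k {v, X i} ≤ _)
          (IntermediateField.subset_adjoin k _ (Or.inl rfl)))
      have h4 : X i ∈ M := hle ((le_sup_right : IntermediateField.adjoin k {v, X i} ≤ _)
          (IntermediateField.subset_adjoin k _ (Or.inr rfl)))
      refine ⟨h3, fun j => ?_⟩
      by_cases hji : j = i
      · rw [hji]
        exact h4
      · exact h2 j hji
    by_cases hd : ∃ l, d l ≠ 0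
    · obtain ⟨l, hdl⟩ := hd
      have hli : l ≠ i := by
        rintro rfl
        exact hdl hdi
      obtain ⟨W, hW⟩ : ∃ W : Fin n → L, W = Function.update (Function.update X i θ) l s := ⟨_, rfl⟩
      have hWl : W l = s := by rw [hW, Function.update_self]
      have hWi : W i = θ := by rw [hW, Function.update_of_ne hli.symm, Function.update_self]
      have hWj : ∀ j, j ≠ l → j ≠ i → W j = X j := by
        intro j h1 h2
        rw [hW, Function.update_of_ne h1, Function.update_of_ne h2]
      have hmem : ∀ j, W j ∈ IntermediateField.adjoin k (Set.range W) := fun j =>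
        IntermediateField.subset_adjoin k _ ⟨j, rfl⟩
      have hsW : s ∈ IntermediateField.adjoin k (Set.range W) := by
        rw [← hWl]
        exact hmem l
      have hθW : θ ∈ IntermediateField.adjoin k (Set.range W) := by
        rw [← hWi]
        exact hmem i
      have hXlW : X l ∈ IntermediateField.adjoin k (Set.range W) := by
        refine hXs _ l hdl hsW fun j h1 h2 => ?_
        have hji : j ≠ i := by
          rintro rfl
          exact h2 hdi
        rw [← hWj j h1 hji]
        exact hmem j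
      have hXjW : ∀ j, j ≠ i → X j ∈ IntermediateField.adjoin k (Set.range W) := by
        intro j hj
        by_cases hjl : j = l
        · rw [hjl]
          exact hXlW
        · rw [← hWj j hjl hj]
          exact hmem j
      obtain ⟨h1, h2⟩ := hfin _ hθW hXjW
      refine C5_kills hXind hXE (W := W) ?_ (hsub _ h2 h1 hsW) m
      intro j
      by_cases hjl : j = l
      · rw [hjl, hWl]
        exact hsE
      · by_cases hji : j = i
        · rw [hji, hWi]
          exact hθE
        · rw [hWj j hjl hji]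
          exact hXE j
    · push Not at hd
      have hs0 : s = 0 := by
        rw [hs]
        refine Finset.sum_eq_zero fun j _ => ?_
        rw [hd j, ZMod.val_zero, Nat.cast_zero, zero_mul]
      obtain ⟨W, hW⟩ : ∃ W : Fin n → L, W = Function.update X i θ := ⟨_, rfl⟩
      have hWi : W i = θ := by rw [hW, Function.update_self]
      have hWj : ∀ j, j ≠ i → W j = X j := by
        intro j h2
        rw [hW, Function.update_of_ne h2]
      have hmem : ∀ j, W j ∈ IntermediateField.adjoin k (Set.range W) := fun j =>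
        IntermediateField.subset_adjoin k _ ⟨j, rfl⟩
      have hθW : θ ∈ IntermediateField.adjoin k (Set.range W) := by
        rw [← hWi]
        exact hmem i
      have hXjW : ∀ j, j ≠ i → X j ∈ IntermediateField.adjoin k (Set.range W) := by
        intro j hj
        rw [← hWj j hj]
        exact hmem j
      obtain ⟨h1, h2⟩ := hfin _ hθW hXjW
      refine C5_kills hXind hXE (W := W) ?_ (hsub _ h2 h1 (by rw [hs0]; exact zero_mem _)) m
      intro j
      by_cases hji : j = i
      · rw [hji, hWi]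
        exact hθE
      · rw [hWj j hji]
        exact hXE j

end UnrA.Fer
end

section

/-!
# The subfield of a nondegenerate character
-/

namespace UnrA.Fer

open UnrG

universe u v w z

open Polynomial Finset
open scoped Classical

/-- The support of a family of exponents. -/
theorem exists_support {N n : ℕ} (c : Fin n → ZMod N) :
    ∃ (r' n' : ℕ) (e : Fin r' ⊕ Fin n' ≃ Fin n), (∀ i, c (e (Sum.inl i)) = 0) ∧
      ∀ i, c (e (Sum.inr i)) ≠ 0 := by
  refine ⟨Fintype.card {i // c i = 0}, Fintype.card {i // ¬ c i = 0},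
    (Equiv.sumCongr (Fintype.equivFin {i // c i = 0}).symm
      (Fintype.equivFin {i // ¬ c i = 0}).symm).trans (Equiv.sumCompl fun i => c i = 0), ?_, ?_⟩
  · intro i
    exact ((Fintype.equivFin {i // c i = 0}).symm i).2
  · intro i
    exact ((Fintype.equivFin {i // ¬ c i = 0}).symm i).2

private lemma C6_prod {M : Type*} [CommMonoid M] {n r' n' : ℕ} (e : Fin r' ⊕ Fin n' ≃ Fin n)
    (f : Fin n → M) (h : ∀ i, f (e (Sum.inl i)) = 1) :
    ∏ i, f (e (Sum.inr i)) = ∏ j, f j := by
  rw [← Equiv.prod_comp e f, Fintype.prod_sum_type]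
  simp [h]

private lemma C6_sum {M : Type*} [AddCommMonoid M] {n r' n' : ℕ} (e : Fin r' ⊕ Fin n' ≃ Fin n)
    (f : Fin n → M) (h : ∀ i, f (e (Sum.inl i)) = 0) :
    ∑ i, f (e (Sum.inr i)) = ∑ j, f j := by
  rw [← Equiv.sum_comp e f, Fintype.sum_sum_type]
  simp [h]

/-- The subfield of a nondegenerate character. -/
theorem IsASFamily.cov {p N : ℕ} [Fact p.Prime] (hN : N.Prime)
    {k L : Type u} [Field k] [Field L] [CharP k p] [Algebra k L] {n : ℕ}
    {a b : Fin n → k} {x y : Fin n → L} (h : IsASFamily p N a b x y)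
    (c : Fin n → ZMod N) (d : Fin n → ZMod p) (hcd : ∀ j, c j = 0 ↔ d j = 0) {r' n' : ℕ}
    (e : Fin r' ⊕ Fin n' ≃ Fin n) (h0 : ∀ i, c (e (Sum.inl i)) = 0)
    (h1 : ∀ i, c (e (Sum.inr i)) ≠ 0) :
    ∃ (t : Fin r' → asField k x y c d) (X : Fin n' → asField k x y c d)
      (v u : asField k x y c d),
      ASCovD p N t X (∏ j, (((d j).val : k) * a j) ^ (c j).val)⁻¹ (∑ j, ((d j).val : k) * b j) v
        u (fun i => c (e (Sum.inr i))) := by
  have hcL : CharP L p := charP_of_injective_algebraMap (algebraMap k L).injective p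
  have hpp : p.Prime := Fact.out
  obtain ⟨E, hE⟩ : ∃ E : IntermediateField k L, E = asField k x y c d := ⟨_, rfl⟩
  rw [← hE]
  have hxE : ∀ j, x j ^ N ∈ E := fun j => by
    rw [hE]
    exact IntermediateField.subset_adjoin _ _ (Or.inl ⟨j, rfl⟩)
  have hvE : ∏ j, x j ^ (c j).val ∈ E := by
    rw [hE]
    exact IntermediateField.subset_adjoin _ _ (Or.inr (Or.inl rfl))
  have huE : ∑ j, ((d j).val : L) * y j ∈ E := by
    rw [hE]
    exact IntermediateField.subset_adjoin _ _ (Or.inr (Or.inr rfl))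
  -- the constants
  obtain ⟨w, hw⟩ : ∃ w : Fin n → k, w = fun j => ((d j).val : k) * a j := ⟨_, rfl⟩
  have hw0 : ∀ j, c j ≠ 0 → w j ≠ 0 := by
    intro j hj
    rw [hw]
    refine mul_ne_zero ?_ (h.ne j)
    have h2 : d j ≠ 0 := fun e => hj ((hcd j).2 e)
    rw [Ne, CharP.cast_eq_zero_iff k p]
    intro h3
    have h4 : (d j).val < p := ZMod.val_lt _
    have h5 : (d j).val = 0 := Nat.eq_zero_of_dvd_of_lt h3 h4
    exact h2 ((ZMod.val_eq_zero _).1 h5)
  have hwd : ∀ j, c j = 0 → w j = 0 := by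
    intro j hj
    rw [hw]
    simp only
    rw [(hcd j).1 hj]
    simp
  have hXE : ∀ j, algebraMap k L (w j) * x j ^ N ∈ E := fun j =>
    E.mul_mem (E.algebraMap_mem _) (hxE j)
  have hwv : ∀ j, w j ^ (c j).val ≠ 0 := by
    intro j
    by_cases hj : c j = 0
    · rw [hj]
      simp
    · exact pow_ne_zero _ (hw0 j hj)
  have hP0 : ∏ j, w j ^ (c j).val ≠ 0 := Finset.prod_ne_zero_iff.2 fun j _ => hwv j
  have hwprod : ∏ j, (((d j).val : k) * a j) ^ (c j).val = ∏ j, w j ^ (c j).val := by
    rw [hw]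
  rw [hwprod]
  refine ⟨fun i => ⟨x (e (Sum.inl i)) ^ N, hxE _⟩,
    fun i => ⟨algebraMap k L (w (e (Sum.inr i))) * x (e (Sum.inr i)) ^ N, hXE _⟩,
    ⟨∏ j, x j ^ (c j).val, hvE⟩, ⟨∑ j, ((d j).val : L) * y j, huE⟩, ?_, ?_, ?_, ?_, ?_⟩
  · refine AlgebraicIndependent.of_comp E.val ?_
    have h2 : AlgebraicIndependent k (x ∘ e) := h.independent.comp e e.injective
    have h3 : ∀ s : Fin r' ⊕ Fin n', Transcendental k
        (Polynomial.C (Sum.elim (fun _ => (1 : k)) (fun i => w (e (Sum.inr i))) s) *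
          (Polynomial.X : k[X]) ^ N) := by
      intro s
      have h4 : Sum.elim (fun _ => (1 : k)) (fun i => w (e (Sum.inr i))) s ≠ 0 := by
        rcases s with i | i
        · exact one_ne_zero
        · exact hw0 _ (h1 i)
      refine Polynomial.transcendental _ ?_ ?_
      · rw [Polynomial.natDegree_C_mul_X_pow _ _ h4]
        exact hN.ne_zero
      · rw [Polynomial.leadingCoeff_C_mul_X_pow]
        exact mem_nonZeroDivisors_of_ne_zero h4
    have h5 := h2.polynomial_aeval_of_transcendental h3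
    have h6 : (fun s => Polynomial.aeval ((x ∘ e) s)
        (Polynomial.C (Sum.elim (fun _ => (1 : k)) (fun i => w (e (Sum.inr i))) s) *
          (Polynomial.X : k[X]) ^ N)) = E.val ∘ Sum.elim
        (fun i => (⟨x (e (Sum.inl i)) ^ N, hxE _⟩ : E))
        (fun i => (⟨algebraMap k L (w (e (Sum.inr i))) * x (e (Sum.inr i)) ^ N, hXE _⟩ : E)) := by
      funext s
      rcases s with i | i <;> simp
    rw [← h6]
    exact h5
  · exact inv_ne_zero hP0
  · apply (algebraMap E L).injective
    have h2 : ∏ i, (algebraMap k L (w (e (Sum.inr i))) * x (e (Sum.inr i)) ^ N) ^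
        (c (e (Sum.inr i))).val =
        ∏ j, (algebraMap k L (w j) * x j ^ N) ^ (c j).val := by
      refine C6_prod e (fun j => (algebraMap k L (w j) * x j ^ N) ^ (c j).val) ?_
      intro i
      rw [h0 i]
      simp
    have h3 : algebraMap k L (∏ j, w j ^ (c j).val)⁻¹ *
        ∏ j, (algebraMap k L (w j) * x j ^ N) ^ (c j).val = (∏ j, x j ^ (c j).val) ^ N := by
      have h4 : ∏ j, (algebraMap k L (w j) * x j ^ N) ^ (c j).val =
          algebraMap k L (∏ j, w j ^ (c j).val) * (∏ j, x j ^ (c j).val) ^ N := by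
        rw [map_prod, ← Finset.prod_pow, ← Finset.prod_mul_distrib]
        refine Finset.prod_congr rfl fun j _ => ?_
        rw [mul_pow, map_pow, ← pow_mul, ← pow_mul, mul_comm N]
      rw [h4, ← mul_assoc, ← map_mul, inv_mul_cancel₀ hP0, map_one, one_mul]
    rw [map_pow, map_mul, map_prod]
    simp only [map_pow]
    rw [← IsScalarTower.algebraMap_apply]
    change (∏ j, x j ^ (c j).val) ^ N = algebraMap k L (∏ j, w j ^ (c j).val)⁻¹ *
      ∏ i, (algebraMap k L (w (e (Sum.inr i))) * x (e (Sum.inr i)) ^ N) ^ (c (e (Sum.inr i))).val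
    rw [h2, h3]
  · apply (algebraMap E L).injective
    have h2 : ∑ i, algebraMap k L (w (e (Sum.inr i))) * x (e (Sum.inr i)) ^ N =
        ∑ j, algebraMap k L (w j) * x j ^ N := by
      refine C6_sum e (fun j => algebraMap k L (w j) * x j ^ N) ?_
      intro i
      rw [hwd _ (h0 i), map_zero, zero_mul]
    rw [map_sub, map_pow, map_add, map_sum (algebraMap E L), ← IsScalarTower.algebraMap_apply]
    change (∑ j, ((d j).val : L) * y j) ^ p - ∑ j, ((d j).val : L) * y j =
      algebraMap k L (∑ j, ((d j).val : k) * b j) +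
        ∑ i, algebraMap k L (w (e (Sum.inr i))) * x (e (Sum.inr i)) ^ N
    rw [h2, sum_pow_char, map_sum, ← Finset.sum_sub_distrib, ← Finset.sum_add_distrib]
    refine Finset.sum_congr rfl fun j _ => ?_
    have h3 : ((d j).val : L) ^ p = ((d j).val : L) := by
      have h4 := congrArg (ZMod.castHom (dvd_refl p) L) (ZMod.pow_card (d j))
      rw [map_pow] at h4
      have h5 : ZMod.castHom (dvd_refl p) L (d j) = ((d j).val : L) := by
        rw [ZMod.castHom_apply, ZMod.natCast_val]
      rw [h5] at h4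
      exact h4
    rw [mul_pow, h3, hw]
    simp only
    rw [map_mul, map_mul, map_natCast]
    have h4 := h.equation j
    linear_combination ((d j).val : L) * h4
  · rw [eq_top_iff]
    intro z _
    obtain ⟨R, hR⟩ : ∃ R : IntermediateField k E, R = IntermediateField.adjoin k
      (Set.range (fun i => (⟨x (e (Sum.inl i)) ^ N, hxE _⟩ : E)) ∪
        Set.range (fun i => (⟨algebraMap k L (w (e (Sum.inr i))) * x (e (Sum.inr i)) ^ N,
          hXE _⟩ : E)) ∪
        {⟨∏ j, x j ^ (c j).val, hvE⟩, ⟨∑ j, ((d j).val : L) * y j, huE⟩}) := ⟨_, rfl⟩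
    rw [← hR]
    have hRt : ∀ i, (⟨x (e (Sum.inl i)) ^ N, hxE _⟩ : E) ∈ R := fun i => by
      rw [hR]
      exact IntermediateField.subset_adjoin _ _ (Or.inl (Or.inl ⟨i, rfl⟩))
    have hRX : ∀ i, (⟨algebraMap k L (w (e (Sum.inr i))) * x (e (Sum.inr i)) ^ N, hXE _⟩ : E) ∈
        R := fun i => by
      rw [hR]
      exact IntermediateField.subset_adjoin _ _ (Or.inl (Or.inr ⟨i, rfl⟩))
    have hRv : (⟨∏ j, x j ^ (c j).val, hvE⟩ : E) ∈ R := by
      rw [hR]
      exact IntermediateField.subset_adjoin _ _ (Or.inr (Or.inl rfl))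
    have hRu : (⟨∑ j, ((d j).val : L) * y j, huE⟩ : E) ∈ R := by
      rw [hR]
      exact IntermediateField.subset_adjoin _ _ (Or.inr (Or.inr rfl))
    have hRx : ∀ j, (⟨x j ^ N, hxE j⟩ : E) ∈ R := by
      intro j
      obtain ⟨s, rfl⟩ := e.surjective j
      rcases s with i | i
      · exact hRt i
      · have h2 := R.mul_mem (R.algebraMap_mem (w (e (Sum.inr i)))⁻¹) (hRX i)
        have h3 : algebraMap k E (w (e (Sum.inr i)))⁻¹ *
            (⟨algebraMap k L (w (e (Sum.inr i))) * x (e (Sum.inr i)) ^ N, hXE _⟩ : E) =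
            ⟨x (e (Sum.inr i)) ^ N, hxE _⟩ := by
          apply (algebraMap E L).injective
          rw [map_mul, ← IsScalarTower.algebraMap_apply]
          change algebraMap k L (w (e (Sum.inr i)))⁻¹ *
            (algebraMap k L (w (e (Sum.inr i))) * x (e (Sum.inr i)) ^ N) = x (e (Sum.inr i)) ^ N
          rw [← mul_assoc, ← map_mul, inv_mul_cancel₀ (hw0 _ (h1 i)), map_one, one_mul]
        rw [h3] at h2
        exact h2
    have h2 : E ≤ R.map E.val := by
      refine hE.le.trans (IntermediateField.adjoin_le_iff.2 ?_)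
      rintro z (⟨j, rfl⟩ | hz)
      · exact ⟨⟨x j ^ N, hxE j⟩, hRx j, rfl⟩
      · rcases hz with hz | hz
        · rw [hz]
          exact ⟨_, hRv, rfl⟩
        · rw [Set.mem_singleton_iff] at hz
          rw [hz]
          exact ⟨_, hRu, rfl⟩
    obtain ⟨z', hz', hzz⟩ := h2 z.2
    have h3 : z' = z := Subtype.ext hzz
    rw [← h3]
    exact hz'

end UnrA.Fer
end

section

/-!
# The subfields of all characters
-/

namespace UnrA.Fer

open UnrG

universe u v w z

open Polynomial Finset
open scoped Classical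

/-- A nonzero natural number modulo `p` is an `N`-th power in the finite field. -/
private lemma C7_pow {p : ℕ} [Fact p.Prime] {𝔽 : Type} [Field 𝔽] [Fintype 𝔽] [CharP 𝔽 p]
    (b : Base 𝔽) (hdiv : b.N * (p - 1) ∣ b.q - 1) (g : ZMod p) (hg : g ≠ 0) :
    ∃ ε : 𝔽, ε ≠ 0 ∧ ((g.val : ℕ) : 𝔽) = ε ^ b.N := by
  have h1 : (((g.val : ℕ) : ZMod p)) ^ (p - 1) = 1 := by
    rw [ZMod.natCast_zmod_val]
    exact ZMod.pow_card_sub_one_eq_one hg
  have h2 : (((g.val : ℕ) : 𝔽)) ^ (p - 1) = 1 := by
    have h3 := congrArg (ZMod.castHom (dvd_refl p) 𝔽) h1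
    rw [map_pow, map_natCast, map_one] at h3
    exact h3
  have hp1 : 0 < p - 1 := Nat.sub_pos_of_lt (Fact.out : p.Prime).one_lt
  have hne : ((g.val : ℕ) : 𝔽) ≠ 0 := by
    intro h0
    rw [h0, zero_pow hp1.ne'] at h2
    exact zero_ne_one h2
  obtain ⟨i, hi⟩ := b.exists_pow_eq hne
  have hq : b.q - 1 = b.N * b.e := by
    unfold Base.q
    omega
  rw [hq] at hdiv
  have hpe : p - 1 ∣ b.e := Nat.dvd_of_mul_dvd_mul_left b.N_pos hdiv
  have h4 : b.η ^ (i * (p - 1)) = 1 := by
    rw [pow_mul, hi, h2]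
  have h5 : b.N * b.e ∣ i * (p - 1) := b.hη.dvd_of_pow_eq_one _ h4
  obtain ⟨f, hf⟩ := hpe
  have h6 : b.N ∣ i := by
    rw [hf] at h5
    have h7 : (b.N * f) * (p - 1) ∣ i * (p - 1) := by
      have h8 : b.N * ((p - 1) * f) = (b.N * f) * (p - 1) := by ring
      rwa [h8] at h5
    exact dvd_trans (dvd_mul_right _ _) (Nat.dvd_of_mul_dvd_mul_right hp1 h7)
  obtain ⟨l, hl⟩ := h6
  refine ⟨b.η ^ l, ?_, ?_⟩
  · refine pow_ne_zero _ ?_
    intro h0
    have h9 := b.hη.pow_eq_one
    rw [h0, zero_pow (Nat.mul_pos b.N_pos b.e_pos).ne'] at h9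
    exact zero_ne_one h9
  · rw [← hi, hl, mul_comm, pow_mul]

/-- The subfields of all characters. -/
theorem as_piece {p N : ℕ} [Fact p.Prime] (hN : N.Prime) (hpN : p ≠ N) {w : ℕ} (hw : 0 < w)
    {n : ℕ} (c : Fin n → ZMod N) (d : Fin n → ZMod p) {𝔽 : Type} [Field 𝔽] [Fintype 𝔽]
    [CharP 𝔽 p] (b : Base 𝔽) (hbN : b.N = N) (hdiv : N * (p - 1) ∣ b.q - 1) :
    ∃ C : ℕ, 0 < C ∧ ∀ (m : UFun.{u, z}) (κ k L : Type u) [Field κ] [Field k] [Field L]
      [CharP k p] [Algebra k L] (_ : 𝔽 →+* κ) (_ : ∀ a : κ, a ^ b.q = a) (a b' : Fin n → k)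
      (x y : Fin n → L) (_ : IsASFamily p N a b' x y) (H : ℕ)
      (_ : (∀ j, c j = 0 ↔ d j = 0) → ¬ (c = 0 ∧ d = 0) →
        (m.Specializes ∧ m.HasWeight 𝔽 b.q w ∧ IsTrivialIn κ k p N H
          (∏ j, a j ^ (c j).val) (∑ j, ((d j).val : k) * b' j)) ∨
        HasTwistedPair p c ∨ KillsC m H k (asField k x y c d)),
      KillsC m (H * C) k (asField k x y c d) := by
  subst hbN
  by_cases hdeg : (c = 0 ∧ d = 0) ∨ ∃ i, (c i = 0 ∧ d i ≠ 0) ∨ (c i ≠ 0 ∧ d i = 0)
  · refine ⟨1, one_pos, ?_⟩
    intro m κ k L _ _ _ _ _ ι hκ a b' x y hX H _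
    exact (hX.degenerate hN hpN c d hdeg m).of_dvd (one_dvd _)
  obtain ⟨hcd0, hdeg2⟩ := not_or.1 hdeg
  have hcd : ∀ j, c j = 0 ↔ d j = 0 := by
    intro j
    by_contra hj
    apply hdeg2
    refine ⟨j, ?_⟩
    by_cases h1 : c j = 0
    · left
      refine ⟨h1, fun h2 => hj ⟨fun _ => h2, fun _ => h1⟩⟩
    · right
      refine ⟨h1, ?_⟩
      by_contra h2
      exact hj ⟨fun h => absurd h h1, fun h => absurd h h2⟩
  obtain ⟨r', n', e, h0, h1⟩ := exists_support c
  by_cases ht : HasTwistedPair p c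
  · have ht' : HasTwistedPair p (fun i => c (e (Sum.inr i))) := by
      obtain ⟨i, j, hij, hi, hj, s, hs⟩ := ht
      have hex : ∀ l, c l ≠ 0 → ∃ l' : Fin n', e (Sum.inr l') = l := by
        intro l hl
        obtain ⟨l', rfl⟩ := e.surjective l
        rcases l' with l' | l'
        · exact absurd (h0 l') hl
        · exact ⟨l', rfl⟩
      obtain ⟨i', rfl⟩ := hex i hi
      obtain ⟨j', rfl⟩ := hex j hj
      exact ⟨i', j', fun h => hij (by rw [h]), hi, hj, s, hs⟩
    obtain ⟨C, hC, hkill⟩ := ascovD_twisted.{u, z} hN hpN _ h1 ht'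
    refine ⟨C, hC, ?_⟩
    intro m κ k L _ _ _ _ _ ι hκ a b' x y hX H _
    obtain ⟨t, X, v, w', hE⟩ := hX.cov hN c d hcd e h0 h1
    exact (hkill m k _ r' t X _ _ v w' hE).of_dvd (dvd_mul_left _ _)
  · have ht' : ¬ HasTwistedPair p (fun i => c (e (Sum.inr i))) := by
      rintro ⟨i, j, hij, hi, hj, s, hs⟩
      exact ht ⟨e (Sum.inr i), e (Sum.inr j), fun h => hij (Sum.inr_injective (e.injective h)),
        hi, hj, s, hs⟩
    have hn' : 0 < n' := by
      rcases Nat.eq_zero_or_pos n' with h2 | h2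
      · exfalso
        apply hcd0
        have hc0 : ∀ l, c l = 0 := by
          intro l
          obtain ⟨l', rfl⟩ := e.surjective l
          rcases l' with l' | l'
          · exact h0 l'
          · exact absurd l'.isLt (by omega)
        exact ⟨funext hc0, funext fun l => (hcd l).1 (hc0 l)⟩
      · exact h2
    obtain ⟨C, hC, hkill⟩ := ascovD_kills_base.{u, z} b (p := p) hN hw hn' _ h1 ht'
    refine ⟨C, hC, ?_⟩
    intro m κ k L _ _ _ _ _ ι hκ a b' x y hX H hyp
    rcases hyp hcd hcd0 with ⟨hspec, hwt, htriv⟩ | h2 | h2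
    · obtain ⟨t, X, v, w', hE⟩ := hX.cov hN c d hcd e h0 h1
      obtain ⟨k', _, _, _, _, s, τ, β, g, hfac, hτ, hgen, hβ, hg⟩ := htriv
      -- the product of the coefficients is an `N`-th power
      have hpow : ∃ ε : 𝔽, ε ≠ 0 ∧ (∏ j, (((d j).val : ℕ) : 𝔽) ^ (c j).val) = ε ^ b.N := by
        have hj : ∀ j, ∃ ε : 𝔽, ε ≠ 0 ∧ (((d j).val : ℕ) : 𝔽) ^ (c j).val = ε ^ b.N := by
          intro j
          by_cases hd : d j = 0
          · refine ⟨1, one_ne_zero, ?_⟩
            have hN0 : NeZero b.N := ⟨b.N_pos.ne'⟩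
            rw [(hcd j).2 hd, ZMod.val_zero, pow_zero, one_pow]
          · obtain ⟨ε, hε, h3⟩ := C7_pow b hdiv (d j) hd
            refine ⟨ε ^ (c j).val, pow_ne_zero _ hε, ?_⟩
            rw [h3, ← pow_mul, ← pow_mul, mul_comm]
        choose ε hε h3 using hj
        refine ⟨∏ j, ε j, Finset.prod_ne_zero_iff.2 fun j _ => hε j, ?_⟩
        rw [← Finset.prod_pow]
        exact Finset.prod_congr rfl fun j _ => h3 j
      obtain ⟨ε, hε, h3⟩ := hpow
      have h4 : (∏ j, (((d j).val : ℕ) : k') ^ (c j).val) =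
          algebraMap κ k' (ι ε) ^ b.N := by
        have h5 := congrArg ((algebraMap κ k').comp ι) h3
        rw [map_prod, map_pow] at h5
        rw [← RingHom.comp_apply, ← h5]
        refine Finset.prod_congr rfl fun j _ => ?_
        rw [map_pow, map_natCast]
      have hD : algebraMap k k' (∏ j, (((d j).val : k) * a j) ^ (c j).val)⁻¹ =
          ((algebraMap κ k' (ι ε) * β)⁻¹) ^ b.N := by
        rw [map_inv₀, inv_pow]
        congr 1
        rw [mul_pow, ← h4, ← hβ, map_prod, map_prod, ← Finset.prod_mul_distrib]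
        refine Finset.prod_congr rfl fun j _ => ?_
        rw [map_pow, map_mul, map_natCast, mul_pow, map_pow]
      intro z hz
      have h6 := hkill m hspec hwt k _ k' κ ι hκ r' t X _ _ v w' hE s τ hτ hgen _ g hD hg z hz
      obtain ⟨H', rfl⟩ := hfac
      have h7 : (Module.finrank k k').factorial * H' * C =
          H' * ((Module.finrank k k').factorial * C) := by ring
      rw [h7, mul_smul, h6, smul_zero]
      exact zero_mem _
    · exact absurd h2 ht
    · exact h2.of_dvd (dvd_mul_right _ _)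

end UnrA.Fer
end
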