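import Pool.Agent.Lib.MP_859dd5_ag.AS.Stm
import Pool.Agent.Lib.MP_859dd5_ag.Mg.G049
import Pool.Agent.Lib.MP_859dd5_ag.EQ.Fin1
import Pool.Agent.Lib.MP_859dd5_ag.Mg.G074
import Pool.Agent.Lib.MP_859dd5_ag.Mg.G078
import Pool.Agent.Lib.MP_859dd5_ag.Mg.G043
import Pool.Agent.Lib.MP_859dd5_ag.Mg.G044
import Pool.Agent.Lib.MP_859dd5_ag.Mg.G023
import Pool.Agent.Lib.MP_859dd5_ag.Mg.G001
import Pool.Agent.Lib.MP_859dd5_ag.GC.S1

section

/-!
# Characters with one exponent in each family, when `-1` is a power of `p`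
-/

namespace UnrA.Fer

open UnrG

universe u v w z

open Polynomial Finset
open scoped Classical

/-- `mixed_reduce` for a subfield. -/
private theorem X12_reduce {m : UFun.{u, z}} {p N : ℕ} [Fact p.Prime] (hN : N.Prime) {h C₂ c₀ : ℕ}
    (hc₀ : ¬ N ∣ c₀) (hh : p = 2 → 0 < h)
    (H : ∀ (F E : Type u) [Field F] [Field E] [CharP F p]
      [Algebra F E] (X : Fin 2 → E) (D d : F) (r : ℕ → F) (l : F) (v u : E) (_ : D ≠ 0)
      (_ : r h ≠ 0) (_ : AlgebraicIndependent F X) (_ : v ^ N = algebraMap F E D * X 0 ^ c₀)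
      (_ : u ^ p - u = algebraMap F E d + (X 0 + (X 1 * adR p h (fun i => algebraMap F E (r i))
        (X 1) + algebraMap F E l * X 1)))
      (_ : IntermediateField.adjoin F (Set.range X ∪ {v, u}) = ⊤) (z : KM m E) (_ : Unr z)
      (δ : E →+* E) (_ : ∀ a : F, δ (algebraMap F E a) = algebraMap F E a)
      (_ : ∀ i, δ (X i) = X i) (_ : δ v = v) (_ : δ u = u + 1)
      (_ : ∑ i ∈ range p, KM.map m (δ ^ i) z = 0), C₂ • z = 0)
    {k L : Type u} [Field k] [Field L] [CharP k p] [Algebra k L] {E : IntermediateField k L}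
    {q : ℕ} {w : Fin q → L} {X : Fin 2 → L} {D d : L} {r : ℕ → k} {l : k} {v u : L}
    (hwE : ∀ t, w t ∈ E) (hXE : ∀ t, X t ∈ E) (hvE : v ∈ E) (huE : u ∈ E)
    (hind : AlgebraicIndependent k (Sum.elim w X))
    (hD : D ∈ IntermediateField.adjoin k (Set.range w)) (hD0 : D ≠ 0)
    (hd : d ∈ IntermediateField.adjoin k (Set.range w)) (hr : r h ≠ 0)
    (hv : v ^ N = D * X 0 ^ c₀)
    (hu : u ^ p - u = d + (X 0 + (X 1 * adR p h (fun i => algebraMap k L (r i)) (X 1) +
      algebraMap k L l * X 1)))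
    (hgen : E ≤ IntermediateField.adjoin k (Set.range w ∪ Set.range X ∪ {v, u})) :
    KillsC m (p * p * 1 * C₂) k E := by
  have key : ∀ S : Set L, ∀ hS : S ⊆ E, ∀ z ∈ IntermediateField.adjoin k S, ∃ z' : E,
      z' ∈ IntermediateField.adjoin k {a : E | (a : L) ∈ S} ∧ (z' : L) = z := by
    intro S hS z hz
    have h1 : IntermediateField.adjoin k S ≤
        (IntermediateField.adjoin k {a : E | (a : L) ∈ S}).map E.val := by
      refine IntermediateField.adjoin_le_iff.2 fun a ha => ?_
      exact ⟨⟨a, hS ha⟩, IntermediateField.subset_adjoin _ _ ha, rfl⟩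
    obtain ⟨z', hz', hzz⟩ := h1 hz
    exact ⟨z', hz', hzz⟩
  have hw : {a : E | (a : L) ∈ Set.range w} = Set.range fun t => (⟨w t, hwE t⟩ : E) := by
    ext a
    constructor
    · rintro ⟨t, ht⟩
      exact ⟨t, Subtype.ext ht⟩
    · rintro ⟨t, rfl⟩
      exact ⟨t, rfl⟩
  have hwE' : Set.range w ⊆ E := by
    rintro _ ⟨t, rfl⟩
    exact hwE t
  obtain ⟨D', hD', hDD⟩ := key _ hwE' D hD
  obtain ⟨d', hd', hdd⟩ := key _ hwE' d hd
  rw [hw] at hD' hd'
  refine mixed_reduce hN hc₀ hh H (w := fun t => (⟨w t, hwE t⟩ : E))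
    (X := fun t => (⟨X t, hXE t⟩ : E)) (D := D') (d := d') (r := r) (l := l)
    (v := (⟨v, hvE⟩ : E)) (u := (⟨u, huE⟩ : E)) ?_ hD' ?_ hd' hr ?_ ?_ ?_
  · refine AlgebraicIndependent.of_comp E.val ?_
    have h1 : E.val ∘ Sum.elim (fun t => (⟨w t, hwE t⟩ : E)) (fun t => (⟨X t, hXE t⟩ : E)) =
        Sum.elim w X := by
      funext s
      rcases s with s | s <;> rfl
    rw [h1]
    exact hind
  · rintro rfl
    exact hD0 (hDD.symm.trans rfl)
  · apply (algebraMap E L).injective
    rw [map_pow, map_mul, map_pow]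
    change v ^ N = (D' : L) * X 0 ^ c₀
    rw [hDD, hv]
  · apply (algebraMap E L).injective
    have h1 : algebraMap E L (adR p h (fun i => algebraMap k E (r i)) ⟨X 1, hXE 1⟩) =
        adR p h (fun i => algebraMap k L (r i)) (X 1) := by
      unfold adR
      rw [map_sum]
      refine Finset.sum_congr rfl fun i _ => ?_
      rw [map_mul, map_pow, ← IsScalarTower.algebraMap_apply]
      rfl
    rw [map_sub, map_pow, map_add, map_add, map_add, map_mul, map_mul, h1,
      ← IsScalarTower.algebraMap_apply]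
    change u ^ p - u = (d' : L) + (X 0 + (X 1 * _ + _ * X 1))
    rw [hdd, hu]
  · rw [eq_top_iff]
    intro a _
    obtain ⟨a', ha', haa⟩ := key (Set.range w ∪ Set.range X ∪ {v, u}) (by
      rintro b ((hb | ⟨t, rfl⟩) | rfl | hb)
      · exact hwE' hb
      · exact hXE t
      · exact hvE
      · rw [Set.mem_singleton_iff] at hb
        rw [hb]
        exact huE) a (hgen a.2)
    have h3 : a' = a := Subtype.ext haa
    rw [← h3]
    refine IntermediateField.adjoin.mono _ _ _ ?_ ha'
    rintro b ((⟨t, ht⟩ | ⟨t, ht⟩) | hb | hb)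
    · exact Or.inl (Or.inl ⟨t, Subtype.ext ht⟩)
    · exact Or.inl (Or.inr ⟨t, Subtype.ext ht⟩)
    · exact Or.inr (Or.inl (Subtype.ext hb))
    · exact Or.inr (Or.inr (Subtype.ext hb))

/-- Nonzero exponents are nonzero in `k`. -/
private theorem X12_ne {p : ℕ} [Fact p.Prime] {k : Type u} [Field k] [CharP k p] {d : ZMod p}
    (hd : d ≠ 0) : (d.val : k) ≠ 0 := by
  rw [Ne, CharP.cast_eq_zero_iff k p]
  intro h3
  exact hd ((ZMod.val_eq_zero _).1 (Nat.eq_zero_of_dvd_of_lt h3 (ZMod.val_lt _)))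

/-- The equation of the sum. -/
private theorem X12_as {p : ℕ} [Fact p.Prime] {L : Type u} [Field L] [CharP L p] {n : ℕ}
    (d : Fin n → ZMod p) (y : Fin n → L) :
    (∑ j, ((d j).val : L) * y j) ^ p - ∑ j, ((d j).val : L) * y j =
      ∑ j, ((d j).val : L) * (y j ^ p - y j) := by
  rw [sum_pow_char, ← Finset.sum_sub_distrib]
  refine Finset.sum_congr rfl fun j _ => ?_
  have h3 : ((d j).val : L) ^ p = ((d j).val : L) := by
    have h4 := congrArg (ZMod.castHom (dvd_refl p) L) (ZMod.pow_card (d j))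
    rw [map_pow] at h4
    have h5 : ZMod.castHom (dvd_refl p) L (d j) = ((d j).val : L) := by
      rw [ZMod.castHom_apply, ZMod.natCast_val]
    rw [h5] at h4
    exact h4
  rw [mul_pow, h3, mul_sub]

/-- Characters with a nonzero exponent in each family, when `-1` is a power of `p` modulo `N`. -/
theorem mix_mixedPair {p N : ℕ} [Fact p.Prime] (hN : N.Prime) (hpN : p ≠ N) (M : ℕ)
    (hσ : ∃ σ : ℕ, (p : ZMod N) ^ σ = -1) :
    ∃ C : ℕ, 0 < C ∧ ∀ (m : UFun.{u, z}) (k L : Type u) [Field k] [Field L] [CharP k p]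
      [Algebra k L] (n n' : ℕ) (a b : Fin n → k) (g : Fin n' → k[X]) (x y : Fin n → L)
      (s t : Fin n' → L) (_ : IsASProduct p N M a b g x y s t) (c : Fin n → ZMod N)
      (d : Fin n → ZMod p) (d' : Fin n' → ZMod p) (_ : ∀ j, c j = 0 ↔ d j = 0) (i : Fin n)
      (j : Fin n') (_ : c i ≠ 0) (_ : d' j ≠ 0), KillsC m C k (mixField k x y s t c d d') := by
  have : NeZero N := ⟨hN.ne_zero⟩
  have hp : p.Prime := Fact.out
  obtain ⟨σ, hσ⟩ := hσ
  have hdvd : N ∣ p ^ σ + 1 := by
    rw [← ZMod.natCast_eq_zero_iff]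
    push_cast
    rw [hσ, neg_add_cancel]
  choose Cc hC0 hCc using fun h : ℕ => as_mixed_new.{u, z} hN hpN σ h hdvd
  refine ⟨p * p * 1 * ∏ h ∈ range (M + 1), Cc h, Nat.mul_pos (Nat.mul_pos (Nat.mul_pos hp.pos
    hp.pos) one_pos) (Finset.prod_pos fun h _ => hC0 h), ?_⟩
  intro m k L _ _ _ _ n n' a b g x y s t hX c d d' hcd i j hi hj
  have hcL : CharP L p := charP_of_injective_algebraMap (algebraMap k L).injective p
  obtain ⟨h, r, l, e, hhM, hh, hr, hg⟩ := hX.form j
  have hi' : d i ≠ 0 := fun h0 => hi ((hcd i).2 h0)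
  obtain ⟨α, hα⟩ : ∃ α : k, α = ((d i).val : k) * a i := ⟨_, rfl⟩
  obtain ⟨β, hβ⟩ : ∃ β : k, β = ((d' j).val : k) := ⟨_, rfl⟩
  have hα0 : α ≠ 0 := hα ▸ mul_ne_zero (X12_ne hi') (hX.ne i)
  have hβ0 : β ≠ 0 := hβ ▸ X12_ne hj
  have hx0 : ∀ l, x l ≠ 0 := fun l => hX.independent.ne_zero (Sum.inl l)
  obtain ⟨E, hE⟩ : ∃ E : IntermediateField k L, E = mixField k x y s t c d d' := ⟨_, rfl⟩
  rw [← hE]
  have hxE : ∀ j, x j ^ N ∈ E := fun j => by
    rw [hE]
    exact IntermediateField.subset_adjoin _ _ (Or.inl (Or.inl ⟨j, rfl⟩))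
  have hsE : ∀ j, s j ∈ E := fun j => by
    rw [hE]
    exact IntermediateField.subset_adjoin _ _ (Or.inl (Or.inr ⟨j, rfl⟩))
  have hvE : ∏ j, x j ^ (c j).val ∈ E := by
    rw [hE]
    exact IntermediateField.subset_adjoin _ _ (Or.inr (Or.inl rfl))
  have huE : ∑ j, ((d j).val : L) * y j + ∑ j, ((d' j).val : L) * t j ∈ E := by
    rw [hE]
    exact IntermediateField.subset_adjoin _ _ (Or.inr (Or.inr rfl))
  -- the other variables
  obtain ⟨q, ε, -⟩ : ∃ (q : ℕ) (_ : {l : Fin n // l ≠ i} ⊕ {l : Fin n' // l ≠ j} ≃ Fin q), True :=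
    ⟨_, Fintype.equivFin _, trivial⟩
  obtain ⟨w, hw⟩ : ∃ w : Fin q → L, w = fun t => Sum.elim (fun l : {l : Fin n // l ≠ i} =>
      x l ^ N) (fun l : {l : Fin n' // l ≠ j} => s l) (ε.symm t) := ⟨_, rfl⟩
  obtain ⟨W, hW⟩ : ∃ W : IntermediateField k L, W = IntermediateField.adjoin k (Set.range w) :=
    ⟨_, rfl⟩
  have hwx : ∀ l, l ≠ i → x l ^ N ∈ Set.range w := fun l hl => ⟨ε (Sum.inl ⟨l, hl⟩), by
    rw [hw]
    simp⟩
  have hws : ∀ l, l ≠ j → s l ∈ Set.range w := fun l hl => ⟨ε (Sum.inr ⟨l, hl⟩), by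
    rw [hw]
    simp⟩
  have hWx : ∀ l, l ≠ i → x l ^ N ∈ W := fun l hl => by
    rw [hW]
    exact IntermediateField.subset_adjoin _ _ (hwx l hl)
  have hWs : ∀ l, l ≠ j → s l ∈ W := fun l hl => by
    rw [hW]
    exact IntermediateField.subset_adjoin _ _ (hws l hl)
  have hWk : ∀ a : k, algebraMap k L a ∈ W := fun a => W.algebraMap_mem a
  have hWn : ∀ a : ℕ, (a : L) ∈ W := fun a => natCast_mem W a
  have hci : ¬ N ∣ (c i).val := by
    intro hd
    apply hi
    have h1 := (ZMod.natCast_eq_zero_iff (c i).val N).2 hd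
    rwa [ZMod.natCast_zmod_val] at h1
  refine X12_reduce (h := h) (c₀ := (c i).val) (w := w)
    (X := ![algebraMap k L α * x i ^ N, s j])
    (D := (∏ l ∈ Finset.univ.erase i, (x l ^ N) ^ (c l).val) *
      algebraMap k L ((α ^ (c i).val)⁻¹))
    (d := algebraMap k L (((d i).val : k) * b i) +
      ∑ l ∈ Finset.univ.erase i, ((d l).val : L) * (algebraMap k L (a l) * x l ^ N +
        algebraMap k L (b l)) + algebraMap k L (β * e) +
      ∑ l ∈ Finset.univ.erase j, ((d' l).val : L) * aeval (s l) (g l))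
    (r := fun i => β * r i) (l := β * l) (v := ∏ j, x j ^ (c j).val)
    (u := ∑ j, ((d j).val : L) * y j + ∑ j, ((d' j).val : L) * t j)
    hN hci hh ?_ ?_ ?_ hvE huE ?_ ?_ ?_ ?_ ?_ ?_ ?_ ?_
  · intro F E _ _ _ _ X D d r l v u h1 h2 h3 h4 h5 h6 z hz δ h7 h8 h9 h10 h11
    obtain ⟨C', hC'⟩ := Finset.dvd_prod_of_mem Cc (Finset.mem_range.2 (Nat.lt_succ_of_le hhM))
    rw [hC', mul_comm, mul_smul, hCc h m F E X D d r l v u _ h1 h2 hh h3 h4 h5 h6 z hz δ h7 h8 h9
      h10 h11, smul_zero]
  · intro t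
    rw [hw]
    change Sum.elim _ _ (ε.symm t) ∈ E
    rcases ε.symm t with l | l
    · exact hxE l
    · exact hsE l
  · intro t
    refine Fin.cases ?_ (fun t => ?_) t
    · exact mul_mem (E.algebraMap_mem _) (hxE i)
    · have h1 : t = 0 := Subsingleton.elim _ _
      rw [h1]
      exact hsE j
  · -- independence
    obtain ⟨φ, hφ⟩ : ∃ φ : Fin q ⊕ Fin 2 → Fin n ⊕ Fin n', φ = Sum.elim
      (fun t => Sum.map Subtype.val Subtype.val (ε.symm t)) ![Sum.inl i, Sum.inr j] := ⟨_, rfl⟩
    have hφi : Function.Injective φ := by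
      have h1 : ∀ t : {l : Fin n // l ≠ i} ⊕ {l : Fin n' // l ≠ j},
          Sum.map Subtype.val Subtype.val t ≠ (Sum.inl i : Fin n ⊕ Fin n') ∧
          Sum.map Subtype.val Subtype.val t ≠ (Sum.inr j : Fin n ⊕ Fin n') := by
        rintro (t | t)
        · exact ⟨fun h0 => t.2 (Sum.inl_injective h0), fun h0 => Sum.inl_ne_inr h0⟩
        · exact ⟨fun h0 => Sum.inr_ne_inl h0, fun h0 => t.2 (Sum.inr_injective h0)⟩
      rw [hφ]
      refine Function.Injective.sumElim ?_ ?_ ?_
      · exact (Sum.map_injective.2 ⟨Subtype.val_injective, Subtype.val_injective⟩).comp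
          ε.symm.injective
      · intro t t' h0
        fin_cases t <;> fin_cases t'
        · rfl
        · exact absurd h0 Sum.inl_ne_inr
        · exact absurd h0 Sum.inr_ne_inl
        · rfl
      · intro t t'
        fin_cases t'
        · exact (h1 _).1
        · exact (h1 _).2
    obtain ⟨γ, hγ⟩ : ∃ γ : Fin q ⊕ Fin 2 → k, γ = Sum.elim (fun _ => 1) ![α, 1] := ⟨_, rfl⟩
    obtain ⟨ν, hν⟩ : ∃ ν : Fin n ⊕ Fin n' → ℕ, ν = Sum.elim (fun _ => N) (fun _ => 1) := ⟨_, rfl⟩
    have hγ0 : ∀ t, γ t ≠ 0 := by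
      intro t
      rw [hγ]
      rcases t with t | t
      · exact one_ne_zero
      · fin_cases t
        · exact hα0
        · exact one_ne_zero
    have hν0 : ∀ t, ν t ≠ 0 := by
      intro t
      rw [hν]
      rcases t with t | t
      · exact hN.ne_zero
      · exact one_ne_zero
    have h3 : ∀ t, Transcendental k (Polynomial.C (γ t) * (Polynomial.X : k[X]) ^ ν (φ t)) := by
      intro t
      refine Polynomial.transcendental _ ?_ ?_
      · rw [Polynomial.natDegree_C_mul_X_pow _ _ (hγ0 t)]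
        exact hν0 _
      · rw [Polynomial.leadingCoeff_C_mul_X_pow]
        exact mem_nonZeroDivisors_of_ne_zero (hγ0 t)
    have h5 := (hX.independent.comp φ hφi).polynomial_aeval_of_transcendental h3
    have h6 : (fun t => Polynomial.aeval ((Sum.elim x s ∘ φ) t)
        (Polynomial.C (γ t) * (Polynomial.X : k[X]) ^ ν (φ t))) =
        Sum.elim w ![algebraMap k L α * x i ^ N, s j] := by
      funext t
      rw [map_mul, map_pow, Polynomial.aeval_C, Polynomial.aeval_X, Function.comp_apply]
      rcases t with t | t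
      · rw [hγ, hφ, hν, hw]
        simp only [Sum.elim_inl, map_one, one_mul]
        rcases ε.symm t with l | l
        · rfl
        · exact pow_one _
      · fin_cases t
        · rw [hγ, hφ, hν]
          rfl
        · rw [hγ, hφ, hν]
          change algebraMap k L 1 * s j ^ 1 = s j
          rw [map_one, one_mul, pow_one]
    rw [← h6]
    exact h5
  · rw [← hW]
    exact mul_mem (prod_mem fun l hl => pow_mem (hWx l (Finset.ne_of_mem_erase hl)) _) (hWk _)
  · refine mul_ne_zero (Finset.prod_ne_zero_iff.2 fun l _ => pow_ne_zero _ (pow_ne_zero _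
      (hx0 l))) ?_
    exact (_root_.map_ne_zero (algebraMap k L)).2 (inv_ne_zero (pow_ne_zero _ hα0))
  · rw [← hW]
    refine add_mem (add_mem (add_mem (hWk _) (sum_mem fun l hl => mul_mem (hWn _) (add_mem
      (mul_mem (hWk _) (hWx l (Finset.ne_of_mem_erase hl))) (hWk _)))) (hWk _))
      (sum_mem fun l hl => mul_mem (hWn _) ?_)
    have h1 := (aeval (⟨s l, hWs l (Finset.ne_of_mem_erase hl)⟩ : W) (g l)).2
    have h2 := Polynomial.aeval_algebraMap_apply L
      (⟨s l, hWs l (Finset.ne_of_mem_erase hl)⟩ : W) (g l)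
    change aeval (s l) (g l) = _ at h2
    rw [h2]
    exact h1
  · exact mul_ne_zero hβ0 hr
  · -- the equation of `v`
    have h1 : (∏ j, x j ^ (c j).val) ^ N = (∏ l ∈ Finset.univ.erase i, (x l ^ N) ^ (c l).val) *
        (x i ^ N) ^ (c i).val := by
      rw [Finset.prod_erase_mul _ _ (Finset.mem_univ i), ← Finset.prod_pow]
      refine Finset.prod_congr rfl fun l _ => ?_
      rw [← pow_mul, ← pow_mul, mul_comm]
    have h2 : (algebraMap k L ((α ^ (c i).val)⁻¹)) * algebraMap k L α ^ (c i).val = 1 := by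
      rw [← map_pow, ← map_mul, inv_mul_cancel₀ (pow_ne_zero _ hα0), map_one]
    change _ = _ * _ * (algebraMap k L α * x i ^ N) ^ (c i).val
    rw [h1, mul_pow]
    linear_combination (-(∏ l ∈ Finset.univ.erase i, (x l ^ N) ^ (c l).val) *
      (x i ^ N) ^ (c i).val) * h2
  · -- the equation of `u`
    have h1 : (∑ j, ((d j).val : L) * y j + ∑ j, ((d' j).val : L) * t j) ^ p -
        (∑ j, ((d j).val : L) * y j + ∑ j, ((d' j).val : L) * t j) =
        (∑ j, ((d j).val : L) * (y j ^ p - y j)) + ∑ j, ((d' j).val : L) * (t j ^ p - t j) := by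
      rw [add_pow_char, ← X12_as, ← X12_as]
      ring
    have h2 : ∑ j, ((d j).val : L) * (y j ^ p - y j) =
        ∑ l ∈ Finset.univ.erase i, ((d l).val : L) * (algebraMap k L (a l) * x l ^ N +
          algebraMap k L (b l)) + ((d i).val : L) * (algebraMap k L (a i) * x i ^ N +
          algebraMap k L (b i)) := by
      rw [Finset.sum_erase_add _ _ (Finset.mem_univ i)]
      exact Finset.sum_congr rfl fun l _ => by rw [hX.equation l]
    have h3 : ∑ j, ((d' j).val : L) * (t j ^ p - t j) =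
        ∑ l ∈ Finset.univ.erase j, ((d' l).val : L) * aeval (s l) (g l) +
          ((d' j).val : L) * aeval (s j) (g j) := by
      rw [Finset.sum_erase_add _ _ (Finset.mem_univ j)]
      exact Finset.sum_congr rfl fun l _ => by rw [hX.equation_add l]
    have h4 : aeval (s j) (g j) = s j * adR p h (fun i => algebraMap k L (r i)) (s j) +
        algebraMap k L l * s j + algebraMap k L e := by
      rw [hg]
      unfold adR
      simp only [map_add, map_mul, map_sum, map_pow, Polynomial.aeval_X, Polynomial.aeval_C]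
    have h5 : adR p h (fun i => algebraMap k L (β * r i)) (s j) =
        algebraMap k L β * adR p h (fun i => algebraMap k L (r i)) (s j) := by
      unfold adR
      rw [Finset.mul_sum]
      refine Finset.sum_congr rfl fun i _ => ?_
      change algebraMap k L (β * r i) * _ = _
      rw [map_mul, mul_assoc]
    change _ = _ + (algebraMap k L α * x i ^ N + (s j * adR p h _ (s j) + _ * s j))
    rw [h1, h2, h3, h4, h5, hα]
    have h6 : ((d' j).val : L) = algebraMap k L β := by rw [hβ, map_natCast]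
    rw [h6]
    simp only [map_mul, map_natCast]
    ring
  · -- generation
    obtain ⟨R, hR⟩ : ∃ R : IntermediateField k L, R = IntermediateField.adjoin k
      (Set.range w ∪ Set.range ![algebraMap k L α * x i ^ N, s j] ∪ {∏ j, x j ^ (c j).val,
        ∑ j, ((d j).val : L) * y j + ∑ j, ((d' j).val : L) * t j}) := ⟨_, rfl⟩
    rw [← hR]
    have hRs : ∀ z ∈ (Set.range w ∪ Set.range ![algebraMap k L α * x i ^ N, s j] ∪
        {∏ j, x j ^ (c j).val, ∑ j, ((d j).val : L) * y j + ∑ j, ((d' j).val : L) * t j} : Set L),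
        z ∈ R := fun z hz => by
      rw [hR]
      exact IntermediateField.subset_adjoin _ _ hz
    refine hE.le.trans (IntermediateField.adjoin_le_iff.2 ?_)
    rintro z ((⟨l, rfl⟩ | ⟨l, rfl⟩) | hz)
    · by_cases hl : l = i
      · rw [hl]
        have h2 := R.mul_mem (R.algebraMap_mem α⁻¹) (hRs _ (Or.inl (Or.inr ⟨0, rfl⟩)))
        have h3 : algebraMap k L α⁻¹ * (algebraMap k L α * x i ^ N) = x i ^ N := by
          rw [← mul_assoc, ← map_mul, inv_mul_cancel₀ hα0, map_one, one_mul]
        change algebraMap k L α⁻¹ * (algebraMap k L α * x i ^ N) ∈ R at h2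
        rw [h3] at h2
        exact h2
      · exact hRs _ (Or.inl (Or.inl (hwx l hl)))
    · by_cases hl : l = j
      · rw [hl]
        exact hRs _ (Or.inl (Or.inr ⟨1, rfl⟩))
      · exact hRs _ (Or.inl (Or.inl (hws l hl)))
    · exact hRs _ (Or.inr hz)

end UnrA.Fer
end

section

/-!
# Killing unramified classes in towers of fields
-/

namespace UnrA.Fer

open UnrG

universe u v w z

open Polynomial Finset
open scoped Classical

variable {m : UFun.{u, z}} {k L : Type u} [Field k] [Field L] [Algebra k L]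

/-- The same for a tower given by algebra structures. -/
theorem KillsC.trans {F E : Type u} [Field F] [Field E] [Algebra k F] [Algebra F E] [Algebra k E]
    [IsScalarTower k F E] {C₁ C₂ : ℕ} (h1 : KillsC m C₁ k F) (h2 : KillsC m C₂ F E) :
    KillsC m (C₁ * C₂) k E := by
  intro x hx
  obtain ⟨η, hη, hηx⟩ := mem_cst.mp (h2 x hx)
  have h3 := map_mem_cst (M := E) (h1 η hη) (f := algebraMap F E)
    (fun a => (IsScalarTower.algebraMap_apply k F E a).symm)
  rw [map_nsmul, hηx, ← mul_smul] at h3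
  exact h3

/-- Towers of intermediate fields. -/
theorem KillsC.tower {F : IntermediateField k L} {T : IntermediateField F L} {C₁ C₂ : ℕ}
    (h1 : KillsC m C₁ k F) (h2 : KillsC m C₂ F T) :
    KillsC m (C₁ * C₂) k (T.restrictScalars k) := by
  have h3 : KillsC m (C₁ * C₂) k T := h1.trans h2
  exact h3

/-- A purely transcendental extension generated by the family `v`. -/
theorem isPurely_extendScalars {T T' : IntermediateField k L} (hle : T ≤ T') {n : ℕ}
    {v : Fin n → L} (hv : AlgebraicIndependent T v)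
    (hgen : IntermediateField.adjoin k ((T : Set L) ∪ Set.range v) = T') :
    IsPurely (IntermediateField.extendScalars hle) := by
  refine ⟨n, v, hv, ?_⟩
  refine le_antisymm ?_ ?_
  · rw [IntermediateField.adjoin_le_iff]
    rintro z hz
    change z ∈ T'
    rw [← hgen]
    exact IntermediateField.subset_adjoin k _ (Or.inr hz)
  · intro z hz
    have h1 : z ∈ T' := hz
    rw [← hgen] at h1
    have h2 : IntermediateField.adjoin k ((T : Set L) ∪ Set.range v) ≤
        (IntermediateField.adjoin T (Set.range v)).restrictScalars k := by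
      rw [IntermediateField.adjoin_le_iff]
      rintro y (hy | hy)
      · exact (IntermediateField.adjoin T (Set.range v)).algebraMap_mem ⟨y, hy⟩
      · exact IntermediateField.subset_adjoin T _ hy
    exact h2 h1

/-- Purely transcendental extensions of the field. -/
theorem KillsC.ascend {T T' : IntermediateField k L} (hle : T ≤ T')
    (hp : IsPurely (IntermediateField.extendScalars hle)) {C : ℕ} (h : KillsC m C k T) :
    KillsC m C k T' := by
  intro ξ hξ
  obtain ⟨y, hy, hyξ⟩ := mem_cst.mp (mem_cst_of_isPurely (m := m) hp (y := ξ) hξ)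
  have hyξ' : KM.map m (IntermediateField.inclusion hle).toRingHom y = ξ := hyξ
  have h1 := map_mem_cst (M := T') (h y hy) (f := (IntermediateField.inclusion hle).toRingHom)
    (fun a => rfl)
  rw [map_nsmul, hyξ'] at h1
  exact h1

/-- Descent from a purely transcendental extension of the field. -/
theorem KillsC.descend {T T' : IntermediateField k L} (hle : T ≤ T')
    (hp : IsPurely (IntermediateField.extendScalars hle)) {C : ℕ} (h : KillsC m C k T') :
    KillsC m C k T := by
  intro ξ hξ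
  obtain ⟨s, v, hv, hgen⟩ := exists_gens_of_isPurely hp
  obtain ⟨E, hE⟩ : ∃ E : IntermediateField T L, E = IntermediateField.extendScalars hle := ⟨_, rfl⟩
  obtain ⟨η, hη, hηξ⟩ := mem_cst.mp (h (KM.map m (IntermediateField.inclusion hle).toRingHom ξ)
    (hξ.map _))
  refine mem_cst.mpr ⟨η, hη, ?_⟩
  have h1 : KM.map m (algebraMap T (IntermediateField.extendScalars hle))
      (C • ξ - KM.map m (algebraMap k T) η) = 0 := by
    rw [map_sub, KM.map_map, map_nsmul]
    change C • KM.map m (IntermediateField.inclusion hle).toRingHom ξ -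
      KM.map m (algebraMap k T') η = 0
    rw [hηξ, sub_self]
  have htop : ∀ z : IntermediateField.extendScalars hle,
      z ∈ IntermediateField.adjoin T (Set.range v) := fun z => by
    rw [hgen]
    exact IntermediateField.mem_top
  have hfin : FiniteDimensional (IntermediateField.adjoin T (Set.range v))
      (IntermediateField.extendScalars hle) := by
    rw [hgen]
    exact FiniteDimensional.of_finrank_eq_succ (n := 0) IntermediateField.finrank_top
  have h2 := rat_fin_ker hv h1
  have h3 : Module.finrank (IntermediateField.adjoin T (Set.range v))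
      (IntermediateField.extendScalars hle) = 1 := by
    rw [hgen]
    exact IntermediateField.finrank_top
  rw [h3, one_smul, sub_eq_zero] at h2
  exact h2.symm

end UnrA.Fer
end

section

/-!
# Characters of the first family only
-/

namespace UnrA.Fer

open UnrG

universe u v w z

open Polynomial Finset
open scoped Classical

/-- The subfield of the character `(c, d, 0)` is a purely transcendental extension of `asField`. -/
theorem IsASProduct.kills_extend {p N M : ℕ} [Fact p.Prime]
    {m : UFun.{u, z}} {k L : Type u} [Field k] [Field L]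
    [CharP k p] [Algebra k L] {n n' : ℕ} {a b : Fin n → k} {g : Fin n' → k[X]} {x y : Fin n → L}
    {s t : Fin n' → L} (h : IsASProduct p N M a b g x y s t) (c : Fin n → ZMod N)
    (d : Fin n → ZMod p) {C : ℕ} (hk : KillsC m C k (asField k x y c d)) :
    KillsC m C k (mixField k x y s t c d (0 : Fin n' → ZMod p)) := by
  have hp1 : 1 < p := (Fact.out : p.Prime).one_lt
  have hsum : ∑ j, ((((0 : Fin n' → ZMod p) j).val : ℕ) : L) * t j = 0 :=
    Finset.sum_eq_zero fun j _ => by
      rw [Pi.zero_apply, ZMod.val_zero, Nat.cast_zero, zero_mul]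
  have hle : asField k x y c d ≤ mixField k x y s t c d (0 : Fin n' → ZMod p) := by
    refine IntermediateField.adjoin_le_iff.2 ?_
    rintro z (hz | hz | hz)
    · exact IntermediateField.subset_adjoin _ _ (Or.inl (Or.inl hz))
    · exact IntermediateField.subset_adjoin _ _ (Or.inr (Or.inl hz))
    · refine IntermediateField.subset_adjoin _ _ (Or.inr (Or.inr ?_))
      rw [Set.mem_singleton_iff] at hz ⊢
      rw [hsum, add_zero]
      exact hz
  have hgen : IntermediateField.adjoin k ((asField k x y c d : Set L) ∪ Set.range s) =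
      mixField k x y s t c d (0 : Fin n' → ZMod p) := by
    apply le_antisymm
    · refine IntermediateField.adjoin_le_iff.2 ?_
      rintro z (hz | hz)
      · exact hle hz
      · exact IntermediateField.subset_adjoin _ _ (Or.inl (Or.inr hz))
    · refine IntermediateField.adjoin_le_iff.2 ?_
      rintro z ((hz | hz) | hz | hz)
      · exact IntermediateField.subset_adjoin _ _
          (Or.inl (IntermediateField.subset_adjoin _ _ (Or.inl hz)))
      · exact IntermediateField.subset_adjoin _ _ (Or.inr hz)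
      · exact IntermediateField.subset_adjoin _ _
          (Or.inl (IntermediateField.subset_adjoin _ _ (Or.inr (Or.inl hz))))
      · refine IntermediateField.subset_adjoin _ _
          (Or.inl (IntermediateField.subset_adjoin _ _ (Or.inr (Or.inr ?_))))
        rw [Set.mem_singleton_iff] at hz ⊢
        rw [hsum, add_zero] at hz
        exact hz
  have hxF : ∀ j, x j ∈ IntermediateField.adjoin k (Set.range x) := fun j =>
    IntermediateField.subset_adjoin _ _ ⟨j, rfl⟩
  have hF : ∀ z ∈ IntermediateField.adjoin k (Set.range x),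
      IsAlgebraic (IntermediateField.adjoin k (Set.range x)) z := fun z hz =>
    isAlgebraic_algebraMap (⟨z, hz⟩ : IntermediateField.adjoin k (Set.range x))
  have hT : ∀ z ∈ asField k x y c d, IsAlgebraic (IntermediateField.adjoin k (Set.range x)) z := by
    intro z hz
    refine isAlgebraic_adjoin ?_ hz
    rintro w (⟨j, rfl⟩ | hw | hw)
    · exact hF _ (pow_mem (hxF j) N)
    · rw [hw]
      exact hF _ (prod_mem fun j _ => pow_mem (hxF j) _)
    · rw [Set.mem_singleton_iff] at hw
      rw [hw]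
      refine isAlgebraic_adjoin (S := Set.range y) ?_ (sum_mem fun j _ => mul_mem
        (natCast_mem _ _) (IntermediateField.subset_adjoin _ _ ⟨j, rfl⟩))
      rintro _ ⟨j, rfl⟩
      refine isAlgebraic_of_as hp1 ?_
      rw [h.equation j]
      exact add_mem (mul_mem (IntermediateField.algebraMap_mem _ _) (pow_mem (hxF j) N))
        (IntermediateField.algebraMap_mem _ _)
  exact hk.ascend hle (isPurely_extendScalars hle (algebraicIndependent_over' h.independent _ hT)
    hgen)

end UnrA.Fer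
end

section

/-!
# The first family over the field of the second one
-/

namespace UnrA.Fer

open UnrG

universe u v w z

open Polynomial Finset
open scoped Classical

private lemma X6_aux {p N M : ℕ} [Fact p.Prime] {k L : Type u} [Field k] [Field L]
    [CharP k p] [Algebra k L] {n n' : ℕ} {a b : Fin n → k} {g : Fin n' → k[X]} {x y : Fin n → L}
    {s t : Fin n' → L} (h : IsASProduct p N M a b g x y s t) (c : Fin n → ZMod N)
    (d : Fin n → ZMod p) (d' : Fin n' → ZMod p) {j₀ : Fin n} (hj₀ : d j₀ ≠ 0)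
    (F : IntermediateField k L) (hF : F = IntermediateField.adjoin k (Set.range s)) :
    ∃ (b' : Fin n → F) (y' : Fin n → L),
      IsASFamily p N (fun j => algebraMap k F (a j)) b' x y' ∧
      (asField F x y' c d).restrictScalars k = mixField k x y s t c d d' := by
  have hcL : CharP L p := charP_of_injective_algebraMap (algebraMap k L).injective p
  have hpp : p.Prime := Fact.out
  have hsF : ∀ j, s j ∈ F := fun j => by
    rw [hF]
    exact IntermediateField.subset_adjoin _ _ ⟨j, rfl⟩
  have hcast : ∀ e : ZMod p, ((e.val : ℕ) : L) ^ p = (e.val : ℕ) := by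
    intro e
    have h4 := congrArg (ZMod.castHom (dvd_refl p) L) (ZMod.pow_card e)
    rw [map_pow] at h4
    have h5 : ZMod.castHom (dvd_refl p) L e = ((e.val : ℕ) : L) := by
      rw [ZMod.castHom_apply, ZMod.natCast_val]
    rw [h5] at h4
    exact h4
  have hgF : ∀ j, aeval (s j) (g j) ∈ F := by
    intro j
    have h1 : aeval (s j) (g j) = algebraMap F L (aeval (⟨s j, hsF j⟩ : F) (g j)) := by
      rw [← Polynomial.aeval_algebraMap_apply]
      rfl
    rw [h1]
    exact SetLike.coe_mem _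
  obtain ⟨T', hT'⟩ : ∃ T' : L, T' = ∑ j, ((d' j).val : L) * t j := ⟨_, rfl⟩
  have hTF : T' ^ p - T' ∈ F := by
    have h1 : T' ^ p - T' = ∑ j, ((d' j).val : L) * aeval (s j) (g j) := by
      rw [hT', sum_pow_char, ← Finset.sum_sub_distrib]
      refine Finset.sum_congr rfl fun j _ => ?_
      rw [mul_pow, hcast, ← h.equation_add j]
      ring
    rw [h1]
    exact F.sum_mem fun j _ => F.mul_mem (natCast_mem F _) (hgF j)
  have hδ0 : ((d j₀).val : L) ≠ 0 := by
    rw [Ne, CharP.cast_eq_zero_iff L p]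
    intro h3
    have h4 : (d j₀).val < p := ZMod.val_lt _
    have h5 : (d j₀).val = 0 := Nat.eq_zero_of_dvd_of_lt h3 h4
    exact hj₀ ((ZMod.val_eq_zero _).1 h5)
  obtain ⟨δ, hδ⟩ : ∃ δ : L, δ = ((d j₀).val : L)⁻¹ := ⟨_, rfl⟩
  have hδp : δ ^ p = δ := by
    rw [hδ, inv_pow, hcast]
  have hδF : δ ∈ F := by
    rw [hδ]
    exact F.inv_mem (natCast_mem F _)
  obtain ⟨B, hB⟩ : ∃ B : F, algebraMap F L B = δ * (T' ^ p - T') :=
    ⟨⟨_, F.mul_mem hδF hTF⟩, rfl⟩
  obtain ⟨y', hy'⟩ : ∃ y' : Fin n → L, y' = fun j => y j + if j = j₀ then δ * T' else 0 :=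
    ⟨_, rfl⟩
  have hsum : ∑ j, ((d j).val : L) * y' j = ∑ j, ((d j).val : L) * y j + T' := by
    rw [hy']
    simp only [mul_add]
    rw [Finset.sum_add_distrib]
    congr 1
    rw [Finset.sum_eq_single j₀]
    · rw [if_pos rfl, ← mul_assoc, hδ, mul_inv_cancel₀ hδ0, one_mul]
    · intro j _ hj
      rw [if_neg hj, mul_zero]
    · intro hj
      exact absurd (Finset.mem_univ _) hj
  refine ⟨fun j => algebraMap k F (b j) + if j = j₀ then B else 0, y', ⟨?_, ?_, ?_⟩, ?_⟩
  · intro j
    exact (map_ne_zero (algebraMap k F)).2 (h.ne j)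
  · intro j
    have h1 := h.equation j
    rw [map_add, ← IsScalarTower.algebraMap_apply, ← IsScalarTower.algebraMap_apply]
    rw [hy']
    simp only
    by_cases hj : j = j₀
    · rw [if_pos hj, if_pos hj, hB, add_pow_char, mul_pow, hδp]
      linear_combination h1
    · rw [if_neg hj, if_neg hj, map_zero, add_zero, add_zero]
      exact h1
  · refine algebraicIndependent_over h.independent F fun z hz => ?_
    rw [hF] at hz
    exact isAlgebraic_algebraMap (⟨z, hz⟩ : IntermediateField.adjoin k (Set.range s))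
  · unfold asField mixField
    rw [IntermediateField.restrictScalars_adjoin, hsum, hT']
    apply le_antisymm
    · rw [IntermediateField.adjoin_le_iff]
      rintro z (hz | hz | hz)
      · rw [SetLike.mem_coe, hF] at hz
        have h1 : IntermediateField.adjoin k (Set.range s) ≤ IntermediateField.adjoin k
            (Set.range (fun j => x j ^ N) ∪ Set.range s ∪
            {∏ j, x j ^ (c j).val, ∑ j, ((d j).val : L) * y j + ∑ j, ((d' j).val : L) * t j}) :=
          IntermediateField.adjoin.mono _ _ _ fun w hw => Or.inl (Or.inr hw)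
        exact h1 hz
      · exact IntermediateField.subset_adjoin _ _ (Or.inl (Or.inl hz))
      · exact IntermediateField.subset_adjoin _ _ (Or.inr hz)
    · rw [IntermediateField.adjoin_le_iff]
      rintro z ((hz | hz) | hz)
      · exact IntermediateField.subset_adjoin _ _ (Or.inr (Or.inl hz))
      · obtain ⟨j, rfl⟩ := hz
        exact IntermediateField.subset_adjoin _ _ (Or.inl (hsF j))
      · exact IntermediateField.subset_adjoin _ _ (Or.inr (Or.inr hz))

/-- If `d ≠ 0` then the subfield of the character `(c, d, d')` is the subfield of a character of the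
first family over `F = k(s)`, with modified `y` and `b`. -/
theorem IsASProduct.family {p N M : ℕ} [Fact p.Prime] {k L : Type u} [Field k] [Field L]
    [CharP k p] [Algebra k L] {n n' : ℕ} {a b : Fin n → k} {g : Fin n' → k[X]} {x y : Fin n → L}
    {s t : Fin n' → L} (h : IsASProduct p N M a b g x y s t) (c : Fin n → ZMod N)
    (d : Fin n → ZMod p) (d' : Fin n' → ZMod p) {j₀ : Fin n} (hj₀ : d j₀ ≠ 0) :
    ∃ (b' : Fin n → IntermediateField.adjoin k (Set.range s)) (y' : Fin n → L),
      IsASFamily p N (fun j => algebraMap k (IntermediateField.adjoin k (Set.range s)) (a j)) b'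
        x y' ∧
      (asField (IntermediateField.adjoin k (Set.range s)) x y' c d).restrictScalars k =
        mixField k x y s t c d d' := by
  exact X6_aux h c d d' hj₀ _ rfl

/-- The field generated by the `s_j` is purely transcendental. -/
theorem IsASProduct.kills_s {p N M : ℕ} {m : UFun.{u, z}} {k L : Type u} [Field k] [Field L]
    [Algebra k L] {n n' : ℕ} {a b : Fin n → k} {g : Fin n' → k[X]} {x y : Fin n → L}
    {s t : Fin n' → L} (h : IsASProduct p N M a b g x y s t) :
    KillsC m 1 k (IntermediateField.adjoin k (Set.range s)) := by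
  intro x hx
  rw [one_smul]
  exact mem_cst_of_isPurely (isPurely_adjoin _ (h.independent.comp Sum.inr Sum.inr_injective)) hx

end UnrA.Fer
end

section

/-!
# Degenerate characters and twisted pairs
-/

namespace UnrA.Fer

open UnrG

universe u v w z

open Polynomial Finset
open scoped Classical

/-- Degenerate characters. -/
theorem IsASProduct.kills_degenerate {p N M : ℕ} [Fact p.Prime] (hN : N.Prime) (hpN : p ≠ N)
    {m : UFun.{u, z}} {k L : Type u} [Field k] [Field L]
    [CharP k p] [Algebra k L] {n n' : ℕ} {a b : Fin n → k} {g : Fin n' → k[X]} {x y : Fin n → L}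
    {s t : Fin n' → L} (h : IsASProduct p N M a b g x y s t) (c : Fin n → ZMod N)
    (d : Fin n → ZMod p) (d' : Fin n' → ZMod p) {j₀ : Fin n} (hj₀ : d j₀ ≠ 0)
    (hcd : ∃ i, (c i = 0 ∧ d i ≠ 0) ∨ (c i ≠ 0 ∧ d i = 0)) :
    KillsC m 1 k (mixField k x y s t c d d') := by
  obtain ⟨b', y', hfam, hfield⟩ := h.family c d d' hj₀
  have hcF : CharP (IntermediateField.adjoin k (Set.range s)) p :=
    charP_of_injective_algebraMap (algebraMap k _).injective p
  have h1 := hfam.degenerate hN hpN c d (Or.inr hcd) m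
  have h2 := KillsC.tower h.kills_s h1
  rw [one_mul, hfield] at h2
  exact h2

/-- Characters with a twisted pair in the first family. -/
theorem mix_twisted {p N : ℕ} [Fact p.Prime] (hN : N.Prime) (hpN : p ≠ N) {n : ℕ}
    (c : Fin n → ZMod N) (d : Fin n → ZMod p) (hcd : ∀ j, c j = 0 ↔ d j = 0)
    (ht : HasTwistedPair p c) :
    ∃ C : ℕ, 0 < C ∧ ∀ (m : UFun.{u, z}) (k L : Type u) [Field k] [Field L] [CharP k p]
      [Algebra k L] (n' M : ℕ) (a b : Fin n → k) (g : Fin n' → k[X]) (x y : Fin n → L)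
      (s t : Fin n' → L) (_ : IsASProduct p N M a b g x y s t) (d' : Fin n' → ZMod p),
      KillsC m C k (mixField k x y s t c d d') := by
  obtain ⟨r', n₁, e, h0, h1⟩ := exists_support c
  have ht' : HasTwistedPair p (fun i => c (e (Sum.inr i))) := by
    obtain ⟨i, j, hij, hi, hj, s, hs⟩ := ht
    have hex : ∀ l, c l ≠ 0 → ∃ l' : Fin n₁, e (Sum.inr l') = l := by
      intro l hl
      obtain ⟨l', rfl⟩ := e.surjective l
      rcases l' with l' | l'
      · exact absurd (h0 l') hl
      · exact ⟨l', rfl⟩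
    obtain ⟨i', rfl⟩ := hex i hi
    obtain ⟨j', rfl⟩ := hex j hj
    exact ⟨i', j', fun h => hij (by rw [h]), hi, hj, s, hs⟩
  obtain ⟨C, hC, hkill⟩ := ascovD_twisted.{u, z} hN hpN _ h1 ht'
  obtain ⟨i₀, _, _, hi₀, _, _, _⟩ := ht
  refine ⟨C, hC, ?_⟩
  intro m k L _ _ _ _ n' M a b g x y s t h d'
  have hj₀ : d i₀ ≠ 0 := fun h2 => hi₀ ((hcd i₀).2 h2)
  obtain ⟨b', y', hfam, hfield⟩ := h.family c d d' hj₀
  have hcF : CharP (IntermediateField.adjoin k (Set.range s)) p :=
    charP_of_injective_algebraMap (algebraMap k _).injective p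
  obtain ⟨t', X, v, w', hE⟩ := hfam.cov hN c d hcd e h0 h1
  have h3 := hkill m _ _ r' t' X _ _ v w' hE
  have h2 := KillsC.tower h.kills_s h3
  rw [one_mul, hfield] at h2
  exact h2

end UnrA.Fer
end

section

/-!
# Characters with `d = 0`
-/

namespace UnrA.Fer

open UnrG

universe u v w z

open Polynomial Finset
open scoped Classical

/-- The field `k(s, ∑ d'_j t_j)`. -/
private noncomputable abbrev X8_G (k : Type u) {L : Type u} [Field k] [Field L] [Algebra k L]
    {p n' : ℕ} (s t : Fin n' → L) (d' : Fin n' → ZMod p) : IntermediateField k L :=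
  IntermediateField.adjoin k (Set.range s ∪ {∑ j, ((d' j).val : L) * t j})

/-- The sum `∑ d'_j t_j` is algebraic over `k(s)`. -/
private lemma X8_as {p N M : ℕ} [Fact p.Prime] {k L : Type u} [Field k] [Field L]
    [CharP k p] [Algebra k L] {n n' : ℕ} {a b : Fin n → k} {g : Fin n' → k[X]} {x y : Fin n → L}
    {s t : Fin n' → L} (h : IsASProduct p N M a b g x y s t) (d' : Fin n' → ZMod p) :
    (∑ j, ((d' j).val : L) * t j) ^ p - ∑ j, ((d' j).val : L) * t j ∈
      IntermediateField.adjoin k (Set.range s) := by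
  have hpp : p.Prime := Fact.out
  have hcL : CharP L p := charP_of_injective_algebraMap (algebraMap k L).injective p
  have h0 : (∑ j, ((d' j).val : L) * t j) ^ p - ∑ j, ((d' j).val : L) * t j =
      ∑ j, ((d' j).val : L) * aeval (s j) (g j) := by
    rw [sum_pow_char, ← Finset.sum_sub_distrib]
    refine Finset.sum_congr rfl fun j _ => ?_
    have h1 : ((d' j).val : L) ^ p = (d' j).val := by
      have hexp : ExpChar L p := ExpChar.prime hpp
      have h2 := map_natCast (frobenius L p) (d' j).val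
      rwa [frobenius_def] at h2
    rw [mul_pow, h1, ← h.equation_add j]
    ring
  rw [h0]
  refine sum_mem fun j _ => mul_mem (natCast_mem _ _) ?_
  have hs : s j ∈ IntermediateField.adjoin k (Set.range s) :=
    IntermediateField.subset_adjoin k _ ⟨j, rfl⟩
  have h1 : aeval (s j) (g j) =
      ((aeval (⟨s j, hs⟩ : IntermediateField.adjoin k (Set.range s)) (g j) :
        IntermediateField.adjoin k (Set.range s)) : L) :=
    (IntermediateField.adjoin k (Set.range s)).aeval_coe ⟨s j, hs⟩ (g j)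
  rw [h1]
  exact Subtype.prop _

/-- The first family over `k(s, ∑ d'_j t_j)`. -/
private lemma X8_family {p N M : ℕ} [Fact p.Prime] {k L : Type u} [Field k] [Field L]
    [CharP k p] [Algebra k L] {n n' : ℕ} {a b : Fin n → k} {g : Fin n' → k[X]} {x y : Fin n → L}
    {s t : Fin n' → L} (h : IsASProduct p N M a b g x y s t) (d' : Fin n' → ZMod p) :
    IsASFamily p N (fun j => algebraMap k (X8_G k s t d') (a j))
      (fun j => algebraMap k (X8_G k s t d') (b j)) x y := by
  refine ⟨fun j => ?_, fun j => h.equation j, ?_⟩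
  · rw [_root_.map_ne_zero]
    exact h.ne j
  · refine algebraicIndependent_over h.independent _ fun z hz => isAlgebraic_adjoin ?_ hz
    rintro _ (⟨j, rfl⟩ | h1)
    · exact isAlgebraic_algebraMap (⟨s j, IntermediateField.subset_adjoin k _ ⟨j, rfl⟩⟩ :
        IntermediateField.adjoin k (Set.range s))
    · rw [Set.mem_singleton_iff] at h1
      rw [h1]
      exact isAlgebraic_of_as (Fact.out : p.Prime).one_lt (X8_as h d')

/-- The first family over `k(s, ∑ d'_j t_j)`. -/
theorem IsASProduct.kills_over {p N M : ℕ} [Fact p.Prime] (hN : N.Prime) (hpN : p ≠ N)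
    {m : UFun.{u, z}} {k L : Type u} [Field k] [Field L]
    [CharP k p] [Algebra k L] {n n' : ℕ} {a b : Fin n → k} {g : Fin n' → k[X]} {x y : Fin n → L}
    {s t : Fin n' → L} (h : IsASProduct p N M a b g x y s t) (c : Fin n → ZMod N)
    (d' : Fin n' → ZMod p) :
    ∃ T : IntermediateField (IntermediateField.adjoin k
      (Set.range s ∪ {∑ j, ((d' j).val : L) * t j})) L, T.restrictScalars k =
        mixField k x y s t c (0 : Fin n → ZMod p) d' ∧
      KillsC m 1 (IntermediateField.adjoin k (Set.range s ∪ {∑ j, ((d' j).val : L) * t j})) T := by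
  have hp0 : NeZero p := ⟨(Fact.out : p.Prime).ne_zero⟩
  have hfam := X8_family h d'
  have hcG : CharP (IntermediateField.adjoin k
      (Set.range s ∪ {∑ j, ((d' j).val : L) * t j})) p :=
    charP_of_injective_algebraMap (algebraMap k _).injective p
  have hsum : ∑ j, (((0 : Fin n → ZMod p) j).val : L) * y j = 0 := by
    refine Finset.sum_eq_zero fun j _ => ?_
    rw [Pi.zero_apply, ZMod.val_zero, Nat.cast_zero, zero_mul]
  refine ⟨asField _ x y c (0 : Fin n → ZMod p), ?_, ?_⟩
  · rw [asField, IntermediateField.adjoin_adjoin_left, mixField, hsum, zero_add]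
    apply le_antisymm
    · rw [IntermediateField.adjoin_le_iff]
      rintro _ ((h1 | h1) | (h1 | h1 | h1))
      · exact IntermediateField.subset_adjoin k _ (Or.inl (Or.inr h1))
      · rw [Set.mem_singleton_iff] at h1
        rw [h1]
        exact IntermediateField.subset_adjoin k _ (Or.inr (Or.inr rfl))
      · exact IntermediateField.subset_adjoin k _ (Or.inl (Or.inl h1))
      · rw [h1]
        exact IntermediateField.subset_adjoin k _ (Or.inr (Or.inl rfl))
      · rw [Set.mem_singleton_iff] at h1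
        rw [h1]
        exact zero_mem _
    · rw [IntermediateField.adjoin_le_iff]
      rintro _ ((h1 | h1) | (h1 | h1))
      · exact IntermediateField.subset_adjoin k _ (Or.inr (Or.inl h1))
      · exact IntermediateField.subset_adjoin k _ (Or.inl (Or.inl h1))
      · rw [h1]
        exact IntermediateField.subset_adjoin k _ (Or.inr (Or.inr (Or.inl rfl)))
      · rw [Set.mem_singleton_iff] at h1
        rw [h1]
        exact IntermediateField.subset_adjoin k _ (Or.inl (Or.inr rfl))
  · refine hfam.degenerate hN hpN c (0 : Fin n → ZMod p) ?_ m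
    by_cases hc : c = 0
    · exact Or.inl ⟨hc, rfl⟩
    · obtain ⟨i, hi⟩ := Function.ne_iff.1 hc
      exact Or.inr ⟨i, Or.inr ⟨hi, rfl⟩⟩

/-- The trivial character of the additive group. -/
theorem IsASProduct.kills_zero {p N M : ℕ} [Fact p.Prime] (hN : N.Prime) (hpN : p ≠ N)
    {m : UFun.{u, z}} {k L : Type u} [Field k] [Field L]
    [CharP k p] [Algebra k L] {n n' : ℕ} {a b : Fin n → k} {g : Fin n' → k[X]} {x y : Fin n → L}
    {s t : Fin n' → L} (h : IsASProduct p N M a b g x y s t) (c : Fin n → ZMod N) :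
    KillsC m 1 k (mixField k x y s t c (0 : Fin n → ZMod p) (0 : Fin n' → ZMod p)) := by
  have hp0 : NeZero p := ⟨(Fact.out : p.Prime).ne_zero⟩
  obtain ⟨T, hT, hk⟩ := h.kills_over (m := m) hN hpN c 0
  have hG : IntermediateField.adjoin k
      (Set.range s ∪ {∑ j, (((0 : Fin n' → ZMod p) j).val : L) * t j}) =
        IntermediateField.adjoin k (Set.range s) := by
    have hsum : ∑ j, (((0 : Fin n' → ZMod p) j).val : L) * t j = 0 := by
      refine Finset.sum_eq_zero fun j _ => ?_
      rw [Pi.zero_apply, ZMod.val_zero, Nat.cast_zero, zero_mul]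
    rw [hsum]
    apply le_antisymm
    · rw [IntermediateField.adjoin_le_iff]
      rintro _ (h1 | h1)
      · exact IntermediateField.subset_adjoin k _ h1
      · rw [Set.mem_singleton_iff] at h1
        rw [h1]
        exact zero_mem _
    · exact IntermediateField.adjoin.mono k _ _ Set.subset_union_left
  have h1 : KillsC m 1 k (IntermediateField.adjoin k
      (Set.range s ∪ {∑ j, (((0 : Fin n' → ZMod p) j).val : L) * t j})) := by
    rw [hG]
    exact h.kills_s
  have h2 := KillsC.tower h1 hk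
  rw [one_mul, hT] at h2
  exact h2

/-- The characters `(c, 0, d')` are reduced to `(0, 0, d')`. -/
theorem IsASProduct.kills_of_zero {p N M : ℕ} [Fact p.Prime] (hN : N.Prime) (hpN : p ≠ N)
    {m : UFun.{u, z}} {k L : Type u} [Field k] [Field L]
    [CharP k p] [Algebra k L] {n n' : ℕ} {a b : Fin n → k} {g : Fin n' → k[X]} {x y : Fin n → L}
    {s t : Fin n' → L} (h : IsASProduct p N M a b g x y s t) (c : Fin n → ZMod N)
    (d' : Fin n' → ZMod p) {C : ℕ}
    (hk : KillsC m C k (mixField k x y s t (0 : Fin n → ZMod N) (0 : Fin n → ZMod p) d')) :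
    KillsC m C k (mixField k x y s t c (0 : Fin n → ZMod p) d') := by
  have hp0 : NeZero p := ⟨(Fact.out : p.Prime).ne_zero⟩
  have hN0 : NeZero N := ⟨hN.ne_zero⟩
  have hfam := X8_family h d'
  have hsum : ∑ j, (((0 : Fin n → ZMod p) j).val : L) * y j = 0 := by
    refine Finset.sum_eq_zero fun j _ => ?_
    rw [Pi.zero_apply, ZMod.val_zero, Nat.cast_zero, zero_mul]
  have hprod : ∏ j, x j ^ ((0 : Fin n → ZMod N) j).val = 1 := by
    refine Finset.prod_eq_one fun j _ => ?_
    rw [Pi.zero_apply, ZMod.val_zero, pow_zero]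
  have hind : AlgebraicIndependent (X8_G k s t d') (fun j => x j ^ N) := by
    have h1 := hfam.independent.polynomial_aeval_of_transcendental
      (f := fun _ => (Polynomial.X : (X8_G k s t d')[X]) ^ N)
      (fun _ => (Polynomial.transcendental_X _).pow hN.pos)
    have h2 : (fun i => (Polynomial.aeval (x i)) ((Polynomial.X : (X8_G k s t d')[X]) ^ N)) =
        fun j => x j ^ N := by
      funext j
      simp
    rwa [h2] at h1
  have hE : mixField k x y s t (0 : Fin n → ZMod N) (0 : Fin n → ZMod p) d' =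
      IntermediateField.adjoin k (Set.range (fun j => x j ^ N) ∪ Set.range s ∪
        {1, ∑ j, ((d' j).val : L) * t j}) := by
    rw [mixField, hprod, hsum, zero_add]
  have hle : X8_G k s t d' ≤ mixField k x y s t (0 : Fin n → ZMod N) (0 : Fin n → ZMod p) d' := by
    rw [hE, IntermediateField.adjoin_le_iff]
    rintro _ (h1 | h1)
    · exact IntermediateField.subset_adjoin k _ (Or.inl (Or.inr h1))
    · exact IntermediateField.subset_adjoin k _ (Or.inr (Or.inr h1))
  have hgen : IntermediateField.adjoin k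
      ((X8_G k s t d' : Set L) ∪ Set.range (fun j => x j ^ N)) =
        mixField k x y s t (0 : Fin n → ZMod N) (0 : Fin n → ZMod p) d' := by
    apply le_antisymm
    · rw [IntermediateField.adjoin_le_iff]
      rintro z (h1 | h1)
      · exact hle h1
      · rw [hE]
        exact IntermediateField.subset_adjoin k _ (Or.inl (Or.inl h1))
    · have hG : X8_G k s t d' ≤ IntermediateField.adjoin k
          ((X8_G k s t d' : Set L) ∪ Set.range (fun j => x j ^ N)) := fun z hz =>
        IntermediateField.subset_adjoin k _ (Or.inl hz)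
      rw [hE, IntermediateField.adjoin_le_iff]
      rintro _ ((h1 | h1) | (h1 | h1))
      · exact IntermediateField.subset_adjoin k _ (Or.inr h1)
      · exact hG (IntermediateField.subset_adjoin k _ (Or.inl h1))
      · rw [h1]
        exact one_mem _
      · exact hG (IntermediateField.subset_adjoin k _ (Or.inr h1))
  have hkG : KillsC m C k (X8_G k s t d') :=
    KillsC.descend hle (isPurely_extendScalars hle hind hgen) hk
  obtain ⟨T, hT, hk2⟩ := h.kills_over (m := m) hN hpN c d'
  have h2 := KillsC.tower hkG hk2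
  rw [mul_one, hT] at h2
  exact h2

end UnrA.Fer
end

section

/-!
# Characters with two nonzero exponents in the second family
-/

namespace UnrA.Fer

open UnrG

universe u v w z

open Polynomial Finset
open scoped Classical

/-- Characters with two nonzero exponents in the second family. -/
theorem mix_addPair {p N : ℕ} [Fact p.Prime] (hN : N.Prime) (hpN : p ≠ N) (M : ℕ) :
    ∃ C : ℕ, 0 < C ∧ ∀ (m : UFun.{u, z}) (k L : Type u) [Field k] [Field L] [CharP k p]
      [Algebra k L] (n n' : ℕ) (a b : Fin n → k) (g : Fin n' → k[X]) (x y : Fin n → L)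
      (s t : Fin n' → L) (_ : IsASProduct p N M a b g x y s t) (c : Fin n → ZMod N)
      (d : Fin n → ZMod p) (d' : Fin n' → ZMod p) (i j : Fin n') (_ : i ≠ j) (_ : d' i ≠ 0)
      (_ : d' j ≠ 0), KillsC m C k (mixField k x y s t c d d') := by
  choose Cc hC0 hCc using fun a a' : ℕ => addPair_new.{u, z} (p := p) ![a, a']
  obtain ⟨C₂, hC₂⟩ : ∃ C₂ : ℕ, C₂ = ∏ a ∈ range (M + 1), ∏ a' ∈ range (M + 1), Cc a a' :=
    ⟨_, rfl⟩
  have hC₂0 : 0 < C₂ := by
    rw [hC₂]
    exact Finset.prod_pos fun a _ => Finset.prod_pos fun a' _ => hC0 a a'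
  have hpp : p.Prime := Fact.out
  have hp0 : NeZero p := ⟨hpp.ne_zero⟩
  refine ⟨p * p * 1 * C₂, Nat.mul_pos (Nat.mul_pos (Nat.mul_pos hpp.pos hpp.pos) one_pos) hC₂0,
    ?_⟩
  intro m k L _ _ _ _ n n' a b g x y s t h c d d' i j hij hdi hdj
  have hcL : CharP L p := charP_of_injective_algebraMap (algebraMap k L).injective p
  choose hh r l e hM hpos hlead hg using h.form
  have hval : ∀ a : ZMod p, ((a.val : ℕ) : L) ^ p = ((a.val : ℕ) : L) := by
    intro a
    have h4 := congrArg (ZMod.castHom (dvd_refl p) L) (ZMod.pow_card a)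
    rw [map_pow] at h4
    have h5 : ZMod.castHom (dvd_refl p) L a = ((a.val : ℕ) : L) := by
      rw [ZMod.castHom_apply, ZMod.natCast_val]
    rw [h5] at h4
    exact h4
  have hsum0 : ∑ j, (((0 : Fin n → ZMod p) j).val : L) * y j = 0 := by
    refine Finset.sum_eq_zero fun j _ => ?_
    rw [Pi.zero_apply, ZMod.val_zero, Nat.cast_zero, zero_mul]
  obtain ⟨u, hu⟩ : ∃ u : L, u = ∑ j, ((d j).val : L) * y j + ∑ j, ((d' j).val : L) * t j :=
    ⟨_, rfl⟩
  -- the ground field
  obtain ⟨F, hF⟩ : ∃ F : IntermediateField k L, F = asField k x y c (0 : Fin n → ZMod p) :=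
    ⟨_, rfl⟩
  have hFk : KillsC m 1 k F := by
    rw [hF]
    refine IsASFamily.degenerate hN hpN
      (⟨h.ne, h.equation, h.independent.comp Sum.inl Sum.inl_injective⟩ :
        IsASFamily p N a b x y) c (0 : Fin n → ZMod p) ?_ m
    by_cases hc : c = 0
    · exact Or.inl ⟨hc, rfl⟩
    · obtain ⟨i, hi⟩ := Function.ne_iff.1 hc
      exact Or.inr ⟨i, Or.inr ⟨hi, rfl⟩⟩
  have hxF : ∀ j, x j ^ N ∈ F := fun j => by
    rw [hF]
    exact IntermediateField.subset_adjoin _ _ (Or.inl ⟨j, rfl⟩)
  have hvF : ∏ j, x j ^ (c j).val ∈ F := by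
    rw [hF]
    exact IntermediateField.subset_adjoin _ _ (Or.inr (Or.inl rfl))
  have hcF : CharP F p := charP_of_injective_algebraMap (algebraMap k F).injective p
  have hFx : ∀ z ∈ F, IsAlgebraic (IntermediateField.adjoin k (Set.range x)) z := by
    intro z hz
    have hle : F ≤ IntermediateField.adjoin k (Set.range x) := by
      have hx : ∀ j, x j ∈ IntermediateField.adjoin k (Set.range x) := fun j =>
        IntermediateField.subset_adjoin _ _ ⟨j, rfl⟩
      rw [hF, asField, IntermediateField.adjoin_le_iff]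
      rintro _ (⟨j, rfl⟩ | h1 | h1)
      · exact pow_mem (hx j) _
      · rw [h1]
        exact prod_mem fun j _ => pow_mem (hx j) _
      · rw [Set.mem_singleton_iff, hsum0] at h1
        rw [h1]
        exact zero_mem _
    exact isAlgebraic_algebraMap (⟨z, hle hz⟩ : IntermediateField.adjoin k (Set.range x))
  have hsF : AlgebraicIndependent F s := algebraicIndependent_over' h.independent F hFx
  -- the field of the character
  obtain ⟨E, hE⟩ : ∃ E : IntermediateField k L, E = mixField k x y s t c d d' := ⟨_, rfl⟩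
  rw [← hE]
  have hE2 : E = IntermediateField.adjoin k (Set.range (fun j => x j ^ N) ∪ Set.range s ∪
      {∏ j, x j ^ (c j).val, u}) := by
    rw [hE, hu]
    rfl
  have hsE : ∀ j, s j ∈ E := fun j => by
    rw [hE2]
    exact IntermediateField.subset_adjoin _ _ (Or.inl (Or.inr ⟨j, rfl⟩))
  have huE : u ∈ E := by
    rw [hE2]
    exact IntermediateField.subset_adjoin _ _ (Or.inr (Or.inr rfl))
  have hFE : F ≤ E := by
    rw [hF, asField, IntermediateField.adjoin_le_iff]
    rintro _ (h1 | h1 | h1)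
    · rw [hE2]
      exact IntermediateField.subset_adjoin _ _ (Or.inl (Or.inl h1))
    · rw [h1, hE2]
      exact IntermediateField.subset_adjoin _ _ (Or.inr (Or.inl rfl))
    · rw [Set.mem_singleton_iff, hsum0] at h1
      rw [h1]
      exact zero_mem _
  obtain ⟨E', hE'⟩ : ∃ E' : IntermediateField F L, E' = IntermediateField.extendScalars hFE :=
    ⟨_, rfl⟩
  have hres : E'.restrictScalars k = E := by
    rw [hE']
    exact IntermediateField.extendScalars_restrictScalars hFE
  have hmemE : ∀ {z : L}, z ∈ E' ↔ z ∈ E := fun {z} => by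
    rw [hE']
    exact IntermediateField.mem_extendScalars hFE
  have hsE' : ∀ j, s j ∈ E' := fun j => hmemE.2 (hsE j)
  have huE' : u ∈ E' := hmemE.2 huE
  -- the pair
  obtain ⟨n₁, ε, h0, h1⟩ := exists_equiv_pair hij
  have hd0 : ∀ j, d' j ≠ 0 → ((d' j).val : k) ≠ 0 := by
    intro j hj h3
    rw [CharP.cast_eq_zero_iff k p] at h3
    have h5 : (d' j).val = 0 := Nat.eq_zero_of_dvd_of_lt h3 (ZMod.val_lt _)
    exact hj ((ZMod.val_eq_zero _).1 h5)
  have hd1 : ∀ t : Fin 2, d' (ε (Sum.inr t)) ≠ 0 := by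
    intro t
    fin_cases t
    · exact h0.symm ▸ hdi
    · exact h1.symm ▸ hdj
  have hA : AddPairNew.{u, z} p (fun t => hh (ε (Sum.inr t))) C₂ := by
    have h2 : (fun t => hh (ε (Sum.inr t))) = ![hh i, hh j] := by
      funext t
      fin_cases t
      · exact congrArg hh h0
      · exact congrArg hh h1
    have h3 : Cc (hh i) (hh j) ∣ C₂ := by
      rw [hC₂]
      exact (Finset.dvd_prod_of_mem (fun a' => Cc (hh i) a')
        (Finset.mem_range.2 (Nat.lt_succ_of_le (hM j)))).trans
        (Finset.dvd_prod_of_mem (fun a => ∏ a' ∈ range (M + 1), Cc a a')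
          (Finset.mem_range.2 (Nat.lt_succ_of_le (hM i))))
    rw [h2]
    intro m F E _ _ _ _ r l d x u hE z hz δ hδF hδx hδu hsum
    obtain ⟨e, he⟩ := h3
    rw [he, mul_comm, mul_smul, hCc (hh i) (hh j) m F E r l d x u hE z hz δ hδF hδx hδu hsum,
      smul_zero]
  -- the constant
  have hbF : ∑ j, ((d j).val : L) * (algebraMap k L (a j) * x j ^ N + algebraMap k L (b j)) +
      ∑ j, ((d' j).val : L) * algebraMap k L (e j) ∈ F :=
    add_mem (sum_mem fun j _ => mul_mem (natCast_mem _ _) (add_mem (mul_mem (F.algebraMap_mem _)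
      (hxF j)) (F.algebraMap_mem _))) (sum_mem fun j _ => mul_mem (natCast_mem _ _)
      (F.algebraMap_mem _))
  have hgj : ∀ j, aeval (s j) (g j) = s j * ∑ i ∈ range (hh j + 1), algebraMap k L (r j i) *
      s j ^ p ^ i + algebraMap k L (l j) * s j + algebraMap k L (e j) := by
    intro j
    rw [hg j]
    simp only [map_add, map_mul, map_sum, map_pow, aeval_X, aeval_C]
  have hu2 : u ^ p - u = (∑ j, ((d j).val : L) * (algebraMap k L (a j) * x j ^ N +
      algebraMap k L (b j)) + ∑ j, ((d' j).val : L) * algebraMap k L (e j)) +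
      ∑ j, ((d' j).val : L) * (s j * ∑ i ∈ range (hh j + 1), algebraMap k L (r j i) *
      s j ^ p ^ i + algebraMap k L (l j) * s j) := by
    rw [hu, add_pow_char, sum_pow_char, sum_pow_char, add_sub_add_comm,
      ← Finset.sum_sub_distrib, ← Finset.sum_sub_distrib, add_assoc, ← Finset.sum_add_distrib]
    congr 1
    · refine Finset.sum_congr rfl fun j _ => ?_
      rw [mul_pow, hval, ← h.equation j]
      ring
    · refine Finset.sum_congr rfl fun j _ => ?_
      have h5 := h.equation_add j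
      rw [hgj j] at h5
      rw [mul_pow, hval]
      linear_combination ((d' j).val : L) * h5
  have hmain : KillsC m (p * p * 1 * C₂) F E' := by
    refine addForms_kills ε hh (fun j i => algebraMap k F (((d' j).val : k) * r j i))
      (fun j => algebraMap k F (((d' j).val : k) * l j)) ⟨_, hbF⟩
      (fun j => (⟨s j, hsE' j⟩ : E')) ⟨u, huE'⟩ (AlgebraicIndependent.of_comp E'.val hsF) ?_ ?_
      (fun t => ?_) (fun h2 t => hpos _ h2) hA
    · apply (algebraMap E' L).injective
      rw [map_sub, map_pow, map_add, map_sum (algebraMap E' L), ← IsScalarTower.algebraMap_apply]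
      change u ^ p - u = (∑ j, ((d j).val : L) * (algebraMap k L (a j) * x j ^ N +
        algebraMap k L (b j)) + ∑ j, ((d' j).val : L) * algebraMap k L (e j)) + _
      rw [hu2]
      congr 1
      refine Finset.sum_congr rfl fun j _ => ?_
      rw [map_add, map_mul, map_mul, map_adR, ← IsScalarTower.algebraMap_apply]
      simp only [← IsScalarTower.algebraMap_apply]
      change _ = s j * adR p (hh j) (fun i => algebraMap k L (((d' j).val : k) * r j i)) (s j) +
        algebraMap k L (((d' j).val : k) * l j) * s j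
      unfold adR
      simp only [map_mul, map_natCast]
      rw [mul_add, Finset.mul_sum, Finset.mul_sum, Finset.mul_sum]
      congr 1
      · refine Finset.sum_congr rfl fun s _ => ?_
        ring
      · ring
    · rw [eq_top_iff]
      intro z _
      obtain ⟨R, hR⟩ : ∃ R : IntermediateField F E', R = IntermediateField.adjoin F
        (Set.range (fun j => (⟨s j, hsE' j⟩ : E')) ∪ {⟨u, huE'⟩}) := ⟨_, rfl⟩
      rw [← hR]
      have hFR : ∀ w ∈ F, w ∈ R.map E'.val := by
        intro w hw
        exact (R.map E'.val).algebraMap_mem ⟨w, hw⟩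
      have h2 : E ≤ (R.map E'.val).restrictScalars k := by
        refine hE2.le.trans (IntermediateField.adjoin_le_iff.2 ?_)
        rintro w ((⟨j, rfl⟩ | ⟨j, rfl⟩) | (hw | hw))
        · exact hFR _ (hxF j)
        · refine ⟨⟨s j, hsE' j⟩, ?_, rfl⟩
          rw [hR]
          exact IntermediateField.subset_adjoin _ _ (Or.inl ⟨j, rfl⟩)
        · rw [hw]
          exact hFR _ hvF
        · rw [Set.mem_singleton_iff] at hw
          rw [hw]
          refine ⟨⟨u, huE'⟩, ?_, rfl⟩
          rw [hR]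
          exact IntermediateField.subset_adjoin _ _ (Or.inr rfl)
      obtain ⟨z', hz', hzz⟩ := h2 (hmemE.1 z.2)
      have h3 : z' = z := Subtype.ext hzz
      rw [← h3]
      exact hz'
    · exact (_root_.map_ne_zero (algebraMap k F)).2 (mul_ne_zero (hd0 _ (hd1 t)) (hlead _))
  have h2 := KillsC.tower hFk hmain
  rw [one_mul, hres] at h2
  exact h2

end UnrA.Fer
end

section

/-!
# The subfields of all characters, two families
-/

namespace UnrA.Fer

open UnrG

universe u v w z

open Polynomial Finset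
open scoped Classical

/-- The subfields of the characters with `d ≠ 0`. -/
theorem mix_piece {p N : ℕ} [Fact p.Prime] (hN : N.Prime) (hpN : p ≠ N) {w : ℕ} (hw : 0 < w)
    {n : ℕ} (M : ℕ) (c : Fin n → ZMod N) (d : Fin n → ZMod p) (hd : d ≠ 0) {𝔽 : Type}
    [Field 𝔽] [Fintype 𝔽] [CharP 𝔽 p] (b : Base 𝔽) (hbN : b.N = N)
    (hdiv : N * (p - 1) ∣ b.q - 1) :
    ∃ C : ℕ, 0 < C ∧ ∀ (m : UFun.{u, z}) (κ k L : Type u) [Field κ] [Field k] [Field L]
      [CharP k p] [Algebra k L] (_ : 𝔽 →+* κ) (_ : ∀ a : κ, a ^ b.q = a) (n' : ℕ)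
      (a b' : Fin n → k) (g : Fin n' → k[X]) (x y : Fin n → L) (s t : Fin n' → L)
      (_ : IsASProduct p N M a b' g x y s t) (d' : Fin n' → ZMod p) (H : ℕ)
      (_ : (∀ j, c j = 0 ↔ d j = 0) →
        (m.Specializes ∧ m.HasWeight 𝔽 b.q w ∧ d' = 0 ∧ IsTrivialIn κ k p N H
          (∏ j, a j ^ (c j).val) (∑ j, ((d j).val : k) * b' j)) ∨
        HasPair p c d' ∨ KillsC m H k (mixField k x y s t c d d')),
      KillsC m (H * C) k (mixField k x y s t c d d') := by
  obtain ⟨j₀, hj₀⟩ := Function.ne_iff.1 hd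
  rw [Pi.zero_apply] at hj₀
  by_cases hcd : ∀ j, c j = 0 ↔ d j = 0
  · obtain ⟨C₁, hC₁, h1⟩ : ∃ C : ℕ, 0 < C ∧ (HasTwistedPair p c → ∀ (m : UFun.{u, z})
        (k L : Type u) [Field k] [Field L] [CharP k p]
        [Algebra k L] (n' M : ℕ) (a b : Fin n → k) (g : Fin n' → k[X]) (x y : Fin n → L)
        (s t : Fin n' → L) (_ : IsASProduct p N M a b g x y s t) (d' : Fin n' → ZMod p),
        KillsC m C k (mixField k x y s t c d d')) := by
      by_cases ht : HasTwistedPair p c
      · obtain ⟨C, hC, h⟩ := mix_twisted.{u, z} hN hpN c d hcd ht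
        exact ⟨C, hC, fun _ => h⟩
      · exact ⟨1, one_pos, fun h => absurd h ht⟩
    obtain ⟨C₂, hC₂, h2⟩ := mix_addPair.{u, z} hN hpN M
    obtain ⟨C₃, hC₃, h3⟩ : ∃ C : ℕ, 0 < C ∧ ((∃ σ : ℕ, (p : ZMod N) ^ σ = -1) →
        ∀ (m : UFun.{u, z}) (k L : Type u) [Field k] [Field L] [CharP k p]
        [Algebra k L] (n n' : ℕ) (a b : Fin n → k) (g : Fin n' → k[X]) (x y : Fin n → L)
        (s t : Fin n' → L) (_ : IsASProduct p N M a b g x y s t) (c : Fin n → ZMod N)
        (d : Fin n → ZMod p) (d' : Fin n' → ZMod p) (_ : ∀ j, c j = 0 ↔ d j = 0) (i : Fin n)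
        (j : Fin n') (_ : c i ≠ 0) (_ : d' j ≠ 0),
        KillsC m C k (mixField k x y s t c d d')) := by
      by_cases hσ : ∃ σ : ℕ, (p : ZMod N) ^ σ = -1
      · obtain ⟨C, hC, h⟩ := mix_mixedPair.{u, z} hN hpN M hσ
        exact ⟨C, hC, fun _ => h⟩
      · exact ⟨1, one_pos, fun h => absurd h hσ⟩
    obtain ⟨C₄, hC₄, h4⟩ := as_piece.{u, z} hN hpN hw c d b hbN hdiv
    refine ⟨C₁ * C₂ * C₃ * C₄, Nat.mul_pos (Nat.mul_pos (Nat.mul_pos hC₁ hC₂) hC₃) hC₄, ?_⟩
    intro m κ k L _ _ _ _ _ ι hκ n' a b' g x y s t hX d' H hyp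
    rcases hyp hcd with ⟨hspec, hwt, hd', htriv⟩ | (h5 | ⟨i, j, hij, hi, hj⟩ | ⟨i, j, hi, hj, hσ⟩) |
      h5
    · rw [hd']
      have h6 := h4 m κ k L ι hκ a b' x y
        ⟨hX.ne, hX.equation, hX.independent.comp Sum.inl Sum.inl_injective⟩ H
        (fun _ _ => Or.inl ⟨hspec, hwt, htriv⟩)
      exact (hX.kills_extend c d h6).of_dvd (mul_dvd_mul_left H (dvd_mul_left _ _))
    · exact (h1 h5 m k L n' M a b' g x y s t hX d').of_dvd (Dvd.dvd.mul_left (Dvd.dvd.mul_right
        (Dvd.dvd.mul_right (dvd_mul_right _ _) _) _) _)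
    · exact (h2 m k L n n' a b' g x y s t hX c d d' i j hij hi hj).of_dvd (Dvd.dvd.mul_left
        (Dvd.dvd.mul_right (Dvd.dvd.mul_right (dvd_mul_left _ _) _) _) _)
    · exact (h3 hσ m k L n n' a b' g x y s t hX c d d' hcd i j hi hj).of_dvd (Dvd.dvd.mul_left
        (Dvd.dvd.mul_right (dvd_mul_left _ _) _) _)
    · exact h5.of_dvd (dvd_mul_right _ _)
  · refine ⟨1, one_pos, ?_⟩
    intro m κ k L _ _ _ _ _ ι hκ n' a b' g x y s t hX d' H _
    refine (hX.kills_degenerate hN hpN c d d' hj₀ ?_).of_dvd (one_dvd _)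
    push Not at hcd
    obtain ⟨i, h1 | h1⟩ := hcd
    · exact ⟨i, Or.inl h1⟩
    · exact ⟨i, Or.inr h1⟩

/-- The subfields of the characters with `d = 0`. -/
theorem mix_piece_zero {p N : ℕ} [Fact p.Prime] (hN : N.Prime) (hpN : p ≠ N) (M : ℕ) :
    ∃ C : ℕ, 0 < C ∧ ∀ (m : UFun.{u, z}) (k L : Type u) [Field k] [Field L]
      [CharP k p] [Algebra k L] (n n' : ℕ) (a b' : Fin n → k) (g : Fin n' → k[X])
      (x y : Fin n → L) (s t : Fin n' → L) (_ : IsASProduct p N M a b' g x y s t)
      (c : Fin n → ZMod N) (d' : Fin n' → ZMod p) (H : ℕ)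
      (_ : d' ≠ 0 → HasPair p (0 : Fin n → ZMod N) d' ∨
        KillsC m H k (mixField k x y s t (0 : Fin n → ZMod N) (0 : Fin n → ZMod p) d')),
      KillsC m (H * C) k (mixField k x y s t c (0 : Fin n → ZMod p) d') := by
  obtain ⟨C₂, hC₂, h2⟩ := mix_addPair.{u, z} hN hpN M
  refine ⟨C₂, hC₂, ?_⟩
  intro m k L _ _ _ _ n n' a b' g x y s t hX c d' H hyp
  by_cases hd' : d' = 0
  · rw [hd']
    exact (hX.kills_zero hN hpN c).of_dvd (one_dvd _)
  · refine hX.kills_of_zero hN hpN c d' ?_
    rcases hyp hd' with (⟨i, j, _, hi, _⟩ | ⟨i, j, hij, hi, hj⟩ | ⟨i, j, hi, hj, hσ⟩) | h5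
    · exact absurd rfl hi
    · exact (h2 m k L n n' a b' g x y s t hX 0 0 d' i j hij hi hj).of_dvd (dvd_mul_left _ _)
    · exact absurd rfl hi
    · exact h5.of_dvd (dvd_mul_right _ _)

end UnrA.Fer
end

section

/-!
# Products of Artin-Schreier curves over a field
-/

namespace UnrA.Fer

open UnrG

universe u v w z

open Polynomial Finset
open scoped Classical

/-- The alternatives for a character of a product of Artin-Schreier curves. -/
def MixAlt (m : UFun.{u, z}) (κ : Type u) (q w : ℕ) {k L : Type u} (K : Type u) [Field κ]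
    [Field k] [Field K] [Field L] [Algebra k L] [Algebra K L] {p N n n' : ℕ} (a b : Fin n → k)
    (x y : Fin n → L) (s t : Fin n' → L) (ζ : k) (H : ℕ) (c : Fin n → ZMod N)
    (d : Fin n → ZMod p) (d' : Fin n' → ZMod p) : Prop :=
  IsShifted K ζ x y s t c d d' ∨
    (m.Specializes ∧ m.HasWeight κ q w ∧ d' = 0 ∧
      IsTrivialIn κ k p N H (∏ j, a j ^ (c j).val) (∑ j, ((d j).val : k) * b j)) ∨
    HasPair p c d' ∨ KillsRel m H k (mixField k x y s t c d d')

/-- Fixing the generators. -/
private lemma M3_fix {k L : Type u} [Field k] [Field L] [Algebra k L] {S : Set L} {f : L →+* L}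
    (hf : ∀ z : k, f (algebraMap k L z) = algebraMap k L z) (hS : ∀ z ∈ S, f z = z) {z : L}
    (hz : z ∈ IntermediateField.adjoin k S) : f z = z := by
  let R : IntermediateField k L := (AlgHom.equalizer (⟨f, hf⟩ : L →ₐ[k] L)
    (AlgHom.id k L)).toIntermediateField fun a ha => by
      change f a⁻¹ = a⁻¹
      rw [map_inv₀]
      exact congrArg _ ha
  have h1 : IntermediateField.adjoin k S ≤ R := by
    rw [IntermediateField.adjoin_le_iff]
    intro z hz
    exact hS z hz
  exact h1 hz

/-- Unramified classes on products of Artin-Schreier curves over a field. -/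
theorem mix_cst {p f N : ℕ} [Fact p.Prime] (hf : 0 < f) (hN : N.Prime) (hpN : p ≠ N)
    (n n' M : ℕ) {w : ℕ} (hw : 0 < w) :
    ∃ E s₀ : ℕ, 0 < E ∧ 0 < s₀ ∧
      ∀ (m : UFun.{u, z}) (κ k K L : Type u) [Field κ] [Field k] [Field K] [Field L] [CharP k p]
      [Algebra k L] [Algebra K L] (_ : Nat.card κ = (p ^ f) ^ s₀) (a b : Fin n → k)
      (g : Fin n' → k[X]) (x y : Fin n → L) (s t : Fin n' → L)
      (_ : IsASProduct p N M a b g x y s t) (ζ : k) (_ : 0 < n → IsPrimitiveRoot ζ N) (H : ℕ)
      (_ : ∀ (c : Fin n → ZMod N) (d : Fin n → ZMod p) (d' : Fin n' → ZMod p),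
        (∀ j, c j = 0 ↔ d j = 0) → ¬ (d = 0 ∧ d' = 0) →
          MixAlt m κ ((p ^ f) ^ s₀) w K a b x y s t ζ H c d d')
      (ξ : m.obj K) (_ : ξ ∈ m.nr K), (E * H) • KM.map m (algebraMap K L) ξ ∈ cst m k L := by
  have hp : p.Prime := Fact.out
  have hN0 : NeZero N := ⟨hN.pos.ne'⟩
  have hp0 : NeZero p := ⟨hp.pos.ne'⟩
  obtain ⟨s₀, 𝔽', _, _, _, b₀, hs, -, hbN, hcard, hdiv⟩ := exists_base_dvd (S := 1) hf hN.two_le
    ((Nat.coprime_primes hp hN).2 hpN) one_pos
  have hbq : b₀.q = (p ^ f) ^ s₀ := by rw [← b₀.card_q, hcard]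
  have hdiv' : N * (p - 1) ∣ b₀.q - 1 := by
    rw [hbq]
    refine (mul_dvd_mul_left N ?_).trans hdiv
    have h1 := Nat.sub_dvd_pow_sub_pow p 1 f
    rwa [one_pow] at h1
  -- the constants
  have hpieces : ∀ γ : (Fin n → ZMod N) × (Fin n → ZMod p), ∃ C : ℕ, 0 < C ∧ (γ.2 ≠ 0 →
      ∀ (m : UFun.{u, z}) (κ k L : Type u) [Field κ] [Field k] [Field L]
      [CharP k p] [Algebra k L] (_ : 𝔽' →+* κ) (_ : ∀ a : κ, a ^ b₀.q = a) (n' : ℕ)
      (a b' : Fin n → k) (g : Fin n' → k[X]) (x y : Fin n → L) (s t : Fin n' → L)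
      (_ : IsASProduct p N M a b' g x y s t) (d' : Fin n' → ZMod p) (H : ℕ)
      (_ : (∀ j, γ.1 j = 0 ↔ γ.2 j = 0) →
        (m.Specializes ∧ m.HasWeight 𝔽' b₀.q w ∧ d' = 0 ∧ IsTrivialIn κ k p N H
          (∏ j, a j ^ (γ.1 j).val) (∑ j, ((γ.2 j).val : k) * b' j)) ∨
        HasPair p γ.1 d' ∨ KillsC m H k (mixField k x y s t γ.1 γ.2 d')),
      KillsC m (H * C) k (mixField k x y s t γ.1 γ.2 d')) := by
    rintro ⟨c, d⟩
    by_cases hd : d = 0
    · exact ⟨1, one_pos, fun h => absurd hd h⟩
    · obtain ⟨C, hC, h⟩ := mix_piece.{u, z} hN hpN hw M c d hd b₀ hbN hdiv'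
      exact ⟨C, hC, fun _ => h⟩
  choose Cf hCf hk using hpieces
  obtain ⟨C₀, hC₀, hk₀⟩ := mix_piece_zero.{u, z} (p := p) hN hpN M
  have hCp : 0 < ∏ γ, Cf γ := Finset.prod_pos fun γ _ => hCf γ
  have h1N : 0 < N - 1 := by have := hN.two_le; omega
  have h1p : 0 < p - 1 := by have := hp.two_le; omega
  refine ⟨((N * p) ^ (n + n') * ((N - 1) * (p - 1)) * (N * p * (N * p) *
    (((N * p) ^ (n + n')).factorial * (C₀ * ∏ γ, Cf γ)))) *
    (p ^ n' * (p - 1) * (p * ((p ^ n').factorial * (C₀ * ∏ γ, Cf γ)))), s₀, ?_, hs, ?_⟩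
  · have h4 := hN.pos
    have h5 := hp.pos
    have h6 := Nat.factorial_pos ((N * p) ^ (n + n'))
    have h7 := Nat.factorial_pos (p ^ n')
    positivity
  intro m κ k K L _ _ _ _ _ _ _ hκ a b' g x y s t hX ζ hζ H hH ξ hξ
  obtain ⟨e⟩ := exists_hom_of_card (κ' := 𝔽') (hκ.trans hcard.symm)
  have hA' : m.HasWeight κ ((p ^ f) ^ s₀) w → m.HasWeight 𝔽' b₀.q w := by
    intro hA
    rw [hbq]
    exact hasWeight_of_hom (e : κ →+* 𝔽') hA
  have hκ' : ∀ z : κ, z ^ b₀.q = z := by
    intro z
    rw [hbq]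
    exact pow_card_of_card (pow_pos (pow_pos hp.pos _) _) hκ z
  -- the pieces
  have hpiece : ∀ (c : Fin n → ZMod N) (d : Fin n → ZMod p) (d' : Fin n' → ZMod p),
      (∀ c₁ : Fin n → ZMod N, (d = 0 → c₁ = 0) → (d ≠ 0 → c₁ = c) →
        ¬ IsShifted K ζ x y s t c₁ d d') →
      KillsC m (H * (C₀ * ∏ γ, Cf γ)) k (mixField k x y s t c d d') := by
    intro c d d' hP
    by_cases hd : d = 0
    · refine KillsC.of_dvd (C := H * C₀) ?_ (mul_dvd_mul_left H (dvd_mul_right _ _))
      subst hd
      refine hk₀ m k L n n' a b' g x y s t hX c d' H fun hd' => ?_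
      rcases hH 0 0 d' (fun j => by simp) (fun h => hd' h.2) with h | ⟨-, -, h, -⟩ | h | h
      · exact absurd h (hP 0 (fun _ => rfl) (fun h => absurd rfl h))
      · exact absurd h hd'
      · exact Or.inl h
      · exact Or.inr (killsRel_iff.mp h)
    · refine KillsC.of_dvd (C := H * Cf (c, d)) ?_ (mul_dvd_mul_left H
        ((Finset.dvd_prod_of_mem Cf (Finset.mem_univ (c, d))).trans (dvd_mul_left _ _)))
      refine hk (c, d) hd m κ k L (e.symm : 𝔽' →+* κ) hκ' n' a b' g x y s t hX d' H fun hcd => ?_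
      rcases hH c d d' hcd (fun h => hd h.1) with h | ⟨h1, h2, h3⟩ | h | h
      · exact absurd h (hP c (fun h => absurd h hd) (fun _ => rfl))
      · exact Or.inl ⟨h1, hA' h2, h3⟩
      · exact Or.inr (Or.inl h)
      · exact Or.inr (Or.inr (killsRel_iff.mp h))
  have hsT : ∀ (T : IntermediateField k L) (j : Fin n'), s j ∈ T → t j ^ p - t j ∈ T := by
    intro T j hj
    rw [hX.equation_add, aeval_eq_sum_range]
    exact sum_mem fun i _ => T.smul_mem (pow_mem hj _)
  have hsep : ∀ h : L →+* L, (∀ z : K, h (algebraMap K L z) = algebraMap K L z) →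
      KM.map m h (KM.map m (algebraMap K L) ξ) = KM.map m (algebraMap K L) ξ := by
    intro h hh
    rw [KM.map_map, show h.comp (algebraMap K L) = algebraMap K L from RingHom.ext hh]
  rcases Nat.eq_zero_or_pos n with hn | hn
  · -- no curves of the first kind
    subst hn
    obtain ⟨T₀, hT₀⟩ : ∃ T₀ : IntermediateField k L,
      T₀ = IntermediateField.adjoin k (Set.range s) := ⟨_, rfl⟩
    have hsT₀ : ∀ j, s j ∈ T₀ := fun j => by
      rw [hT₀]
      exact IntermediateField.subset_adjoin k _ ⟨j, rfl⟩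
    have hred := as_reduced_add (m := m) T₀ (y := t) (fun j => hsT T₀ j (hsT₀ j)) ?_
      (Unr.map (algebraMap K L) (x := ξ) hξ) (C := H * (C₀ * ∏ γ, Cf γ))
      {τ | ∃ h : L →+* L, (∀ z : k, h (algebraMap k L z) = algebraMap k L z) ∧
        (∀ z : K, h (algebraMap K L z) = algebraMap K L z) ∧ (∀ j, h (s j) = s j) ∧
        (∀ j, h (t j) = t j + ((τ j).val : L))} ?_ ?_ ?_
    · refine smul_mem_cst_of_dvd ?_ hred
      exact ⟨((N * p) ^ (0 + n') * ((N - 1) * (p - 1)) * (N * p * (N * p) *
        (((N * p) ^ (0 + n')).factorial * (C₀ * ∏ γ, Cf γ)))), by ring⟩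
    · rw [eq_top_iff, ← hX.generate]
      refine IntermediateField.adjoin.mono k _ _ ?_
      rintro z (((⟨j, rfl⟩ | ⟨j, rfl⟩) | ⟨j, rfl⟩) | ⟨j, rfl⟩)
      · exact j.elim0
      · exact j.elim0
      · exact Or.inl (hsT₀ j)
      · exact Or.inr ⟨j, rfl⟩
    · rintro τ ⟨h, h1, h2, h3, h4⟩
      refine ⟨h, fun z hz => ?_, h4, hsep h h2⟩
      rw [hT₀] at hz
      refine M3_fix h1 ?_ hz
      rintro _ ⟨j, rfl⟩
      exact h3 j
    · rw [hT₀]
      exact hX.kills_s.of_dvd (one_dvd _)
    · intro d' hd' hP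
      have h1 : IntermediateField.adjoin k ((T₀ : Set L) ∪ {∑ j, ((d' j).val : L) * t j}) =
          mixField k x y s t (0 : Fin 0 → ZMod N) (0 : Fin 0 → ZMod p) d' := by
        have hz1 : ∑ j : Fin 0, (((0 : Fin 0 → ZMod p) j).val : L) * y j = 0 :=
          Finset.sum_eq_zero fun j _ => j.elim0
        have hz2 : ∏ j : Fin 0, x j ^ ((0 : Fin 0 → ZMod N) j).val = 1 :=
          Finset.prod_eq_one fun j _ => j.elim0
        unfold mixField
        rw [hT₀, IntermediateField.adjoin_union, IntermediateField.adjoin_self,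
          ← IntermediateField.adjoin_union, hz1, hz2, zero_add]
        refine le_antisymm ?_ ?_
        · rw [IntermediateField.adjoin_le_iff]
          rintro z (hz | hz)
          · exact IntermediateField.subset_adjoin k _ (Or.inl (Or.inr hz))
          · exact IntermediateField.subset_adjoin k _ (Or.inr (Or.inr hz))
        · rw [IntermediateField.adjoin_le_iff]
          rintro z ((⟨j, _⟩ | hz) | (hz | hz))
          · exact j.elim0
          · exact IntermediateField.subset_adjoin k _ (Or.inl hz)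
          · rw [hz]
            exact one_mem _
          · exact IntermediateField.subset_adjoin k _ (Or.inr hz)
      rw [h1]
      refine hpiece 0 0 d' fun c₁ _ _ => ?_
      rintro ⟨γ, τ, τ', h, h2, h3, h4, h5, h6, h7, h8⟩
      have h9 := hP τ' ⟨h, h2, h3, h6, h7⟩
      rcases h8 with h8 | h8
      · exact h8 (Finset.sum_eq_zero fun j _ => j.elim0)
      · refine h8 ?_
        rw [h9, add_zero]
        exact Finset.sum_eq_zero fun j _ => j.elim0
  · -- the general case
    obtain ⟨T₀, hT₀⟩ : ∃ T₀ : IntermediateField k L,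
      T₀ = IntermediateField.adjoin k (Set.range (fun j => x j ^ N) ∪ Set.range s) := ⟨_, rfl⟩
    have hxT₀ : ∀ j, x j ^ N ∈ T₀ := fun j => by
      rw [hT₀]
      exact IntermediateField.subset_adjoin k _ (Or.inl ⟨j, rfl⟩)
    have hsT₀ : ∀ j, s j ∈ T₀ := fun j => by
      rw [hT₀]
      exact IntermediateField.subset_adjoin k _ (Or.inr ⟨j, rfl⟩)
    have hx0 : ∀ j, x j ≠ 0 := fun j =>
      (hX.independent.comp Sum.inl Sum.inl_injective).ne_zero j
    have hred := mix_reduced (m := m) hN hpN T₀ (x := x) (y := y) (t := t) hx0 hxT₀ ?_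
      (fun j => hsT T₀ j (hsT₀ j)) ?_ (hζ hn) (ξ := KM.map m (algebraMap K L) ξ) (Unr.map _ hξ)
      (C := H * (C₀ * ∏ γ, Cf γ))
      {γ | ∃ h : L →+* L, (∀ z : k, h (algebraMap k L z) = algebraMap k L z) ∧
        (∀ z : K, h (algebraMap K L z) = algebraMap K L z) ∧
        (∀ j, h (x j) = algebraMap k L ζ ^ (γ.1 j).val * x j) ∧
        (∀ j, h (y j) = y j + ((γ.2.1 j).val : L)) ∧ (∀ j, h (s j) = s j) ∧
        (∀ j, h (t j) = t j + ((γ.2.2 j).val : L))} ?_ ?_
    · refine smul_mem_cst_of_dvd ?_ hred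
      exact ⟨(p ^ n' * (p - 1) * (p * ((p ^ n').factorial * (C₀ * ∏ γ, Cf γ)))), by ring⟩
    · intro j
      rw [hX.equation]
      exact add_mem (mul_mem (T₀.algebraMap_mem _) (hxT₀ j)) (T₀.algebraMap_mem _)
    · rw [eq_top_iff, ← hX.generate]
      refine IntermediateField.adjoin.mono k _ _ ?_
      rintro z (((⟨j, rfl⟩ | ⟨j, rfl⟩) | ⟨j, rfl⟩) | ⟨j, rfl⟩)
      · exact Or.inl (Or.inl (Or.inr ⟨j, rfl⟩))
      · exact Or.inl (Or.inr ⟨j, rfl⟩)
      · exact Or.inl (Or.inl (Or.inl (hsT₀ j)))
      · exact Or.inr ⟨j, rfl⟩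
    · rintro ⟨γ, τ, τ'⟩ ⟨h, h1, h2, h3, h4, h5, h6⟩
      refine ⟨h, fun z hz => ?_, h3, h4, h6, hsep h h2⟩
      rw [hT₀] at hz
      refine M3_fix h1 ?_ hz
      rintro _ (⟨j, rfl⟩ | ⟨j, rfl⟩)
      · change h (x j ^ N) = x j ^ N
        rw [map_pow, h3, mul_pow, ← pow_mul, mul_comm _ N, pow_mul, ← map_pow,
          (hζ hn).pow_eq_one, map_one, one_pow, one_mul]
      · exact h5 j
    · intro c d d' hP
      have h1 : IntermediateField.adjoin k ((T₀ : Set L) ∪ {∏ j, x j ^ (c j).val,
          ∑ j, ((d j).val : L) * y j + ∑ j, ((d' j).val : L) * t j}) =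
          mixField k x y s t c d d' := by
        unfold mixField
        rw [hT₀, IntermediateField.adjoin_union, IntermediateField.adjoin_self,
          ← IntermediateField.adjoin_union]
      rw [h1]
      refine hpiece c d d' fun c₁ h2 h3 => ?_
      rintro ⟨γ, τ, τ', h, h4, h5, h6, h7, h8, h9, h10⟩
      obtain ⟨h11, h12⟩ := hP (γ, τ, τ') ⟨h, h4, h5, h6, h7, h8, h9⟩
      rcases h10 with h10 | h10
      · apply h10
        by_cases hd : d = 0
        · rw [h2 hd]
          simp
        · rw [h3 hd]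
          exact h11
      · exact h10 h12

end UnrA.Fer
end

section

/-!
# The theorem on products of Artin-Schreier curves with the Galois cohomology groups
-/

namespace GC

open UnrA UnrA.Fer UnrG Polynomial UnrGal

universe u

theorem artinSchreier_gal {p f N : ℕ} (hp : p.Prime) (hf : 0 < f) (hN : N.Prime) (hpN : p ≠ N)
    (n n' M : ℕ) {w : ℕ} (hw : 0 < w) :
    ∃ E s₀ : ℕ, 0 < E ∧ 0 < s₀ ∧
      ∀ (κ k K L : Type u) [Field κ] [Field k] [Field K] [Field L] [CharP k p]
        [Algebra k L] [Algebra K L] (_ : Nat.card κ = (p ^ f) ^ s₀) (a b : Fin n → k)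
        (g : Fin n' → k[X]) (x y : Fin n → L) (s t : Fin n' → L)
        (_ : IsASProduct p N M a b g x y s t) (ζ : k) (_ : 0 < n → IsPrimitiveRoot ζ N) (H : ℕ),
        (∀ i, 2 ≤ i → (∀ (c : Fin n → ZMod N) (d : Fin n → ZMod p) (d' : Fin n' → ZMod p),
          (∀ j, c j = 0 ↔ d j = 0) → ¬ (d = 0 ∧ d' = 0) →
          IsShifted K ζ x y s t c d d' ∨
          (d' = 0 ∧ IsTrivialIn κ k p N H
            (∏ j, a j ^ (c j).val) (∑ j, ((d j).val : k) * b j)) ∨
          HasPair p c d' ∨
          Descends p w i H k (mixField k x y s t c d d') (mixField k x y s t c d d')) →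
          IsBounded p w i (E * H) k K L) ∧
        ∀ (A : UFun.{u, u})
        (_ : ∀ (c : Fin n → ZMod N) (d : Fin n → ZMod p) (d' : Fin n' → ZMod p),
          (∀ j, c j = 0 ↔ d j = 0) → ¬ (d = 0 ∧ d' = 0) →
          IsShifted K ζ x y s t c d d' ∨
          (A.Specializes ∧ A.HasWeight κ ((p ^ f) ^ s₀) w ∧ d' = 0 ∧ IsTrivialIn κ k p N H
            (∏ j, a j ^ (c j).val) (∑ j, ((d j).val : k) * b j)) ∨
          HasPair p c d' ∨ KillsRel A H k (mixField k x y s t c d d')),
        IsBoundedBy A (E * H) k K L := by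
  have : Fact p.Prime := ⟨hp⟩
  obtain ⟨E, s₀, hE, hs, h1⟩ := mix_cst.{u, u} hf hN hpN n n' M hw
  refine ⟨E, s₀, hE, hs, ?_⟩
  intro κ k K L _ _ _ _ _ _ _ hκ a b g x y s t hX ζ hζ H
  have h2 : ∀ (A : UFun.{u, u})
      (_ : ∀ (c : Fin n → ZMod N) (d : Fin n → ZMod p) (d' : Fin n' → ZMod p),
        (∀ j, c j = 0 ↔ d j = 0) → ¬ (d = 0 ∧ d' = 0) →
        IsShifted K ζ x y s t c d d' ∨
        (A.Specializes ∧ A.HasWeight κ ((p ^ f) ^ s₀) w ∧ d' = 0 ∧ IsTrivialIn κ k p N H
          (∏ j, a j ^ (c j).val) (∑ j, ((d j).val : k) * b j)) ∨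
        HasPair p c d' ∨ KillsRel A H k (mixField k x y s t c d d')),
      IsBoundedBy A (E * H) k K L := fun A hA =>
    isBoundedBy_of_cst fun ξ hξ => h1 A κ k K L hκ a b g x y s t hX ζ hζ H hA ξ hξ
  refine ⟨fun i hi hk => ?_, h2⟩
  obtain ⟨i, rfl⟩ : ∃ n, i = n + 2 := ⟨i - 2, by omega⟩
  have hcκ : CharP κ p := charP_of_card hp (r := f * s₀) (Nat.mul_pos hf hs)
    (by rw [hκ, pow_mul])
  have hcL : CharP L p := charP_of_injective_ringHom (algebraMap k L).injective p
  have hcK : CharP K p := (RingHom.charP_iff (algebraMap K L) (algebraMap K L).injective p).mpr hcL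
  refine isBounded_of fun l _ hpl => h2 _ fun c d d' hcd hne => ?_
  rcases hk c d d' hcd hne with h | ⟨h, h'⟩ | h | h
  · exact Or.inl h
  · refine Or.inr (Or.inl ⟨galU_specializes hpl, ?_, h, h'⟩)
    rw [← pow_mul]
    exact galU_hasWeight hpl κ (f * s₀)
  · exact Or.inr (Or.inr (Or.inl h))
  · have hcm : CharP (mixField k x y s t c d d') p :=
      charP_of_injective_ringHom (algebraMap k (mixField k x y s t c d d')).injective p
    exact Or.inr (Or.inr (Or.inr (descends_iff_killsRel.mp h l hpl)))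

end GC
end
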