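import Pool.Agent.Lib.MP_859dd5_ag.Mg.G069
import Pool.Agent.Lib.MP_859dd5_ag.Mg.G003

section

/-!
# Frobenius relations with a polynomial in the Frobenius of the base
-/

namespace UnrA.Fer

open UnrG

universe u v w z

open Polynomial Finset
open scoped Classical

/-- The homogenized polynomial `∑ p_i Q ^ i J ^ (d - i)`, where `d` is the degree of `P = ∑ p_i X ^ i`. -/
def homEval {R : Type v} [CommRing R] (P : ℤ[X]) (Q J : R) : R :=
  ∑ i ∈ range (P.natDegree + 1), (P.coeff i : R) * Q ^ i * J ^ (P.natDegree - i)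

lemma map_homEval {R : Type v} {S : Type w} [CommRing R] [CommRing S] (f : R →+* S) (P : ℤ[X])
    (Q J : R) : f (homEval P Q J) = homEval P (f Q) (f J) := by
  unfold homEval
  rw [map_sum]
  refine Finset.sum_congr rfl fun i _ => ?_
  rw [map_mul, map_mul, map_pow, map_pow, map_intCast]

/-- The relation between the two Frobenius endomorphisms. -/
lemma homEval_apply_eq_zero {V : Type z} [AddCommGroup V] (T : Module.End ℤ V) (P : ℤ[X])
    (c Q : ℤ) (Z : ℕ → V) (hZ : ∀ k, (c * Q) • Z k = c • T (Z (k + 1)))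
    (hP : ∑ i ∈ range (P.natDegree + 1), P.coeff i • Z i = 0) :
    c • ∑ i ∈ range (P.natDegree + 1), (P.coeff i * Q ^ i) • (T ^ (P.natDegree - i)) (Z 0) = 0 := by
  have key : ∀ i : ℕ, c • (T ^ i) (Z i) = (c * Q ^ i) • Z 0 := by
    intro i
    induction i with
    | zero => rw [pow_zero, pow_zero, mul_one]; rfl
    | succ i ih =>
      have h1 : c • (T ^ (i + 1)) (Z (i + 1)) = (T ^ i) (c • T (Z (i + 1))) := by
        rw [map_smul, pow_succ]
        rfl
      rw [h1, ← hZ, mul_comm c Q, mul_smul, map_smul, map_smul, ih, smul_smul]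
      congr 1
      ring
  have h1 : (T ^ P.natDegree) (c • ∑ i ∈ range (P.natDegree + 1), P.coeff i • Z i) = 0 := by
    rw [hP, smul_zero, map_zero]
  rw [← h1, map_smul, map_sum, Finset.smul_sum, Finset.smul_sum]
  refine Finset.sum_congr rfl fun i hi => ?_
  have hi' : i ≤ P.natDegree := Nat.lt_succ_iff.mp (Finset.mem_range.mp hi)
  have h2 : (T ^ P.natDegree) (Z i) = (T ^ (P.natDegree - i)) ((T ^ i) (Z i)) := by
    rw [← Module.End.mul_apply, ← pow_add, Nat.sub_add_cancel hi']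
  have h3 : c • (P.coeff i • (T ^ P.natDegree) (Z i)) =
      P.coeff i • (T ^ (P.natDegree - i)) (c • (T ^ i) (Z i)) := by
    rw [h2, map_smul, smul_comm]
  rw [map_smul, h3, key, map_smul, smul_smul, smul_smul]
  congr 1
  ring

variable {𝔽 : Type w} [Field 𝔽] [Fintype 𝔽] (b : Base 𝔽)

/-- The Bézout relation for a polynomial in the Frobenius of the base. -/
theorem exists_bezout_poly {n : ℕ} (wd : ℕ) (P : ℤ[X]) (bb aa : Fin n → ℕ)
    (hn : ∀ χ : MulChar 𝔽 ℂ, orderOf χ = b.N → homEval P ((b.q : ℂ) ^ wd)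
      ((-1) ^ n * ∏ j, jacobiSum (χ ^ bb j) (χ ^ aa j)) ≠ 0) (k : ℕ)
    (l : Fin n → 𝔽 → ℕ)
    (hl : ∀ (j : Fin n) (c' : 𝔽), c' ≠ 0 → c' ≠ 1 →
      (b.ζ ^ k) ^ l j c' = (c' ^ b.e) ^ bb j * ((1 - c') ^ b.e) ^ aa j) :
    ∃ D : ℤ, D ≠ 0 ∧ C D ∈ Ideal.span (({X ^ orderOf (b.ζ ^ k) - 1,
        homEval P (C ((b.q : ℤ) ^ wd)) ((-1) ^ n * ∏ j, jacPoly 𝔽 (l j))} : Set ℤ[X]) ∪
      {f | ∃ i : ℕ, ¬ b.N ∣ k * i ∧ f = ∑ j ∈ range b.N, X ^ (j * i)}) := by
  apply exists_int_bezout
  intro z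
  by_contra hcon
  push Not at hcon
  have e1 : z ^ orderOf (b.ζ ^ k) = 1 := by
    have h := hcon (X ^ orderOf (b.ζ ^ k) - 1) (Or.inl (Or.inl rfl))
    rw [map_sub, map_pow, aeval_X, map_one, sub_eq_zero] at h
    exact h
  have e2 : homEval P ((b.q : ℂ) ^ wd) ((-1) ^ n * ∏ j, ∑ c ∈ univ.filter
      (fun c : 𝔽 => c ≠ 0 ∧ c ≠ 1), z ^ l j c) = 0 := by
    have h := hcon _ (Or.inl (Or.inr rfl))
    have h0 : aeval z (homEval P (C ((b.q : ℤ) ^ wd)) ((-1) ^ n * ∏ j, jacPoly 𝔽 (l j))) =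
        homEval P (aeval z (C ((b.q : ℤ) ^ wd)))
          (aeval z ((-1) ^ n * ∏ j, jacPoly 𝔽 (l j))) :=
      map_homEval (aeval z : ℤ[X] →ₐ[ℤ] ℂ).toRingHom P _ _
    rw [h0] at h
    have h3' : aeval z ((-1 : ℤ[X]) ^ n) = (-1) ^ n := by
      rw [map_pow, map_neg, map_one]
    have h4 : algebraMap ℤ ℂ ((b.q : ℤ) ^ wd) = (b.q : ℂ) ^ wd := by
      rw [map_pow]
      simp
    rw [aeval_C, map_mul, h3', h4, map_prod] at h
    rw [← h]
    congr 2
    refine Finset.prod_congr rfl fun j _ => ?_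
    rw [jacPoly, map_sum]
    exact Finset.sum_congr rfl fun c _ => by rw [map_pow, aeval_X]
  have e3 : ∀ i : ℕ, ¬ b.N ∣ k * i → z ^ i ≠ 1 := by
    intro i hi hz
    have h := hcon (∑ j ∈ range b.N, X ^ (j * i)) (Or.inr ⟨i, hi, rfl⟩)
    rw [map_sum] at h
    have h5 : ∀ j ∈ range b.N, aeval z (X ^ (j * i) : ℤ[X]) = 1 := by
      intro j _
      rw [map_pow, aeval_X, mul_comm, pow_mul, hz, one_pow]
    rw [Finset.sum_congr rfl h5, Finset.sum_const, card_range, nsmul_eq_mul, mul_one] at h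
    have h6 : b.N = 0 := by exact_mod_cast h
    exact b.N_pos.ne' h6
  have hprim : IsPrimitiveRoot z (orderOf (b.ζ ^ k)) := by
    refine ⟨e1, fun i hi => ?_⟩
    by_contra hdvd
    refine e3 i (fun h => hdvd ?_) hi
    rw [orderOf_dvd_iff_pow_eq_one, ← pow_mul]
    exact (b.hζ.pow_eq_one_iff_dvd _).2 h
  obtain ⟨ω', hω', hω'k⟩ := exists_primitive_lift b.N_pos b.hζ hprim
  obtain ⟨χ, hχ, hχ1⟩ := b.exists_char hω'
  have h13 : orderOf χ = b.N :=
    Nat.dvd_antisymm (orderOf_dvd_of_pow_eq_one ((hχ1 b.N).mpr dvd_rfl))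
      ((hχ1 _).mp (pow_orderOf_eq_one χ))
  apply hn χ h13
  rw [← e2]
  congr 2
  refine Finset.prod_congr rfl fun j _ => ?_
  rw [← hω'k]
  exact (b.jac_eq hω' (bb j) (aa j) (l j) (hl j) hχ).symm

end UnrA.Fer
end

section

/-!
# Embedding of the monomial subfield into the function field of a product
-/

namespace UnrA.Fer

open UnrG

universe u v w z

open Polynomial Finset
open scoped Classical

variable {𝔽 : Type w} [Field 𝔽] [Fintype 𝔽] (b : Base 𝔽)

variable {F L : Type u} [Field F] [Field L] [Algebra F L] {ι : 𝔽 →+* F} {r n : ℕ}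
  {t : Fin r → L} {a x : Fin (n + 2) → L}

/-- the truncated sums of the exponents -/
private def pS {N n : ℕ} (α : Fin (n + 2) → ZMod N) (k : Fin (n + 1)) : ZMod N :=
  ∑ i ∈ univ.filter (fun i => i ≤ k.castSucc), α i

private lemma filter_succ {n : ℕ} (j : Fin (n + 1)) :
    (univ.filter (fun i : Fin (n + 2) => i ≤ j.succ)) =
      insert j.succ (univ.filter (fun i : Fin (n + 2) => i ≤ j.castSucc)) := by
  ext i
  simp only [mem_filter, mem_univ, true_and, mem_insert, Fin.le_def, Fin.ext_iff, Fin.val_succ,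
    Fin.val_castSucc]
  omega

private lemma sum_succ {N n : ℕ} (α : Fin (n + 2) → ZMod N) (j : Fin (n + 1)) :
    ∑ i ∈ univ.filter (fun i : Fin (n + 2) => i ≤ j.succ), α i = pS α j + α j.succ := by
  rw [filter_succ, sum_insert, add_comm]
  · rfl
  · simp only [mem_filter, mem_univ, true_and, Fin.le_def, Fin.val_succ, Fin.val_castSucc]
    omega

private lemma pS_succ {N n : ℕ} (α : Fin (n + 2) → ZMod N) (j : Fin n) :
    pS α j.succ = pS α j.castSucc + α j.castSucc.succ :=
  sum_succ α j.castSucc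

private lemma pS_last {N n : ℕ} {α : Fin (n + 2) → ZMod N} (hα : ∑ i, α i = 0) :
    pS α (Fin.last n) + α (Fin.last (n + 1)) = 0 := by
  have h1 := sum_succ α (Fin.last n)
  have h2 : (univ.filter (fun i : Fin (n + 2) => i ≤ (Fin.last n).succ)) = univ := by
    ext i
    simp [Fin.le_last]
  rw [h2, hα] at h1
  exact h1.symm

private lemma exists_quot {N : ℕ} [NeZero N] {p q s : ZMod N} (h : p + q = s) :
    ∃ e : ℕ, p.val + q.val = s.val + N * e := by
  have h1 : ((p.val + q.val : ℕ) : ZMod N) = s := by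
    rw [Nat.cast_add, ZMod.natCast_zmod_val, ZMod.natCast_zmod_val, h]
  have h2 : (p.val + q.val) % N = s.val := by
    rw [← h1, ZMod.val_natCast]
  exact ⟨(p.val + q.val) / N, by rw [← h2]; exact (Nat.mod_add_div _ _).symm⟩

/-- The monomial identity. Proof: with `s_i = a_i x_i ^ N / a_0`, `T_j = partS`, and
`1 - U_j = s_{j+1} / T_{j+1}`, `s_{n+1} = -T_n` (`partS_last`, `partS_succ`):
`∏ i, s_i ^ (α i).val = (-1) ^ (α (last)).val * T_n ^ (α last).val * ∏ j, ((1 - U_j) T_{j+1}) ^ (α (j+1)).val`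
and `∏ j U_j ^ expB = ∏ T_j ^ expB_j T_{j+1} ^ (-expB_j)`; the total exponent of each `T_j`
in the quotient of the two sides is divisible by `N` because
`expB_{j+1} - expB_j ≡ α_{j+1}` and `-expB_{n-1} ≡ α_n + α_{n+1}` mod `N` (`∑ α = 0`). Further
`∏ s_i ^ (α i).val = (∏ a_i ^ (α i).val) * (wmon x α) ^ N / a_0 ^ (∑ (α i).val)` and the exponent
`∑ (α i).val` is divisible by `N`. So the quotient is the `N`-th power of a product `c` of
integral powers of the `T_j`, `a_0` and `β`. -/
theorem mono_identity_cover (h : DiagData b t (F := F) a x) {α : Fin (n + 2) → ZMod b.N}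
    (hα : ∑ i, α i = 0) {M : ℕ} (hM : ∑ i, (α i).val = b.N * M) {β : L}
    (hβN : ∏ i, a i ^ (α i).val = β ^ b.N) :
    ∃ d : L, d ∈ Subfield.closure (Set.range fun i => a i * x i ^ b.N / a 0) ∧ d ≠ 0 ∧
      ∏ j, (coordU b.N a x j ^ expB α j * (1 - coordU b.N a x j) ^ expA α j) =
        (-1) ^ (α (Fin.last (n + 1))).val * (d * (β * wmon x α / a 0 ^ M)) ^ b.N := by
  set T : Fin (n + 1) → L := fun k => partS b.N a x k.castSucc with hT
  have hT0 : ∀ k, T k ≠ 0 := fun k => partS_ne b h k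
  set s : Fin (n + 2) → L := fun i => a i * x i ^ b.N / a 0 with hs
  have ha0 := h.a_ne 0
  -- quotients
  have hq : ∀ j : Fin n, ∃ e : ℕ, (pS α j.castSucc).val + (α j.castSucc.succ).val =
      (pS α j.succ).val + b.N * e := fun j => exists_quot (pS_succ α j).symm
  choose e he using hq
  obtain ⟨e', he'⟩ := exists_quot (pS_last hα)
  rw [ZMod.val_zero, zero_add] at he'
  -- the last summand
  have hlast : s (Fin.last (n + 1)) = -T (Fin.last n) := by
    have h1 := partS_succ b.N a x (Fin.last n)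
    have h2 : partS b.N a x (Fin.last n).succ = 0 := partS_last b h
    rw [h2] at h1
    have h3 : T (Fin.last n) + s (Fin.last (n + 1)) = 0 := h1.symm
    linear_combination h3
  have hs0 : s 0 = 1 := by
    simp only [hs]
    rw [h.x_zero, one_pow, mul_one, div_self ha0]
  -- the product of the powers of the summands
  have hprod : ∏ i, s i ^ (α i).val = (β * wmon x α / a 0 ^ M) ^ b.N := by
    simp only [hs]
    have h1 : ∀ i, (a i * x i ^ b.N / a 0) ^ (α i).val =
        a i ^ (α i).val * (x i ^ (α i).val) ^ b.N / a 0 ^ (α i).val := by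
      intro i
      rw [div_pow, mul_pow, ← pow_mul, ← pow_mul, mul_comm b.N]
    rw [prod_congr rfl fun i _ => h1 i, prod_div_distrib, prod_mul_distrib, hβN, prod_pow,
      prod_pow_eq_pow_sum, hM, div_pow, mul_pow, ← pow_mul, mul_comm M]
    rfl
  have hprod2 : ∏ i, s i ^ (α i).val =
      (∏ j : Fin n, s j.castSucc.succ ^ (α j.castSucc.succ).val) *
        (-T (Fin.last n)) ^ (α (Fin.last (n + 1))).val := by
    rw [Fin.prod_univ_succ, hs0, one_pow, one_mul, Fin.prod_univ_castSucc, ← hlast]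
    rfl
  -- the factors
  have hU : ∀ j : Fin n, coordU b.N a x j = T j.castSucc / T j.succ := fun j => rfl
  have hV : ∀ j : Fin n, 1 - coordU b.N a x j = s j.castSucc.succ / T j.succ := fun j =>
    one_sub_coordU b h j
  have hfac : ∀ j : Fin n, coordU b.N a x j ^ expB α j * (1 - coordU b.N a x j) ^ expA α j =
      s j.castSucc.succ ^ (α j.castSucc.succ).val *
        (T j.castSucc ^ (pS α j.castSucc).val / T j.succ ^ (pS α j.succ).val) *
          ((T j.succ ^ e j)⁻¹) ^ b.N := by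
    intro j
    have h1 : expB α j = (pS α j.castSucc).val := rfl
    have h2 : expA α j = (α j.castSucc.succ).val := rfl
    rw [hU, div_pow]
    rw [← hU, hV, div_pow, h1, h2]
    have h3 : T j.succ ^ (pS α j.castSucc).val * T j.succ ^ (α j.castSucc.succ).val =
        T j.succ ^ (pS α j.succ).val * (T j.succ ^ e j) ^ b.N := by
      rw [← pow_add, he j, pow_add, ← pow_mul, mul_comm b.N]
    have h4 := hT0 j.succ
    rw [inv_pow]
    rw [div_mul_div_comm, h3]
    have h5 : T j.succ ^ (pS α j.succ).val ≠ 0 := pow_ne_zero _ h4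
    have h6 : (T j.succ ^ e j) ^ b.N ≠ 0 := pow_ne_zero _ (pow_ne_zero _ h4)
    field_simp
  have htel : ∏ j : Fin n, (T j.castSucc ^ (pS α j.castSucc).val / T j.succ ^ (pS α j.succ).val) =
      (T (Fin.last n) ^ (pS α (Fin.last n)).val)⁻¹ := by
    have h1 := Fin.prod_univ_succ (fun k : Fin (n + 1) => T k ^ (pS α k).val)
    rw [Fin.prod_univ_castSucc] at h1
    have h2 : T 0 = 1 := partS_zero b h
    rw [h2, one_pow, one_mul] at h1
    have h3 : ∏ j : Fin n, T j.succ ^ (pS α j.succ).val ≠ 0 :=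
      prod_ne_zero_iff.2 fun j _ => pow_ne_zero _ (hT0 _)
    have h4 : T (Fin.last n) ^ (pS α (Fin.last n)).val ≠ 0 := pow_ne_zero _ (hT0 _)
    rw [prod_div_distrib, ← h1, div_eq_iff (by rw [h1]; exact h3)]
    field_simp
  refine ⟨(T (Fin.last n) ^ e')⁻¹ * ∏ j : Fin n, (T j.succ ^ e j)⁻¹, ?_, ?_, ?_⟩
  · have hTm : ∀ k, T k ∈ Subfield.closure (Set.range fun i => a i * x i ^ b.N / a 0) := by
      intro k
      simp only [hT]
      unfold partS
      exact sum_mem fun i _ => Subfield.subset_closure ⟨i, rfl⟩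
    exact mul_mem (inv_mem (pow_mem (hTm _) _)) (prod_mem fun j _ => inv_mem (pow_mem (hTm _) _))
  · exact mul_ne_zero (inv_ne_zero (pow_ne_zero _ (hT0 _))) (prod_ne_zero_iff.2 fun j _ =>
        inv_ne_zero (pow_ne_zero _ (hT0 _)))
  · rw [prod_congr rfl fun j _ => hfac j, prod_mul_distrib, prod_mul_distrib, htel, prod_pow]
    have h1 := hprod2.symm.trans hprod
    have h2 : (-T (Fin.last n)) ^ (α (Fin.last (n + 1))).val =
        (-1) ^ (α (Fin.last (n + 1))).val * T (Fin.last n) ^ (α (Fin.last (n + 1))).val := by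
      rw [← neg_one_mul, mul_pow]
    rw [h2] at h1
    have h3 : T (Fin.last n) ^ (pS α (Fin.last n)).val *
        T (Fin.last n) ^ (α (Fin.last (n + 1))).val = (T (Fin.last n) ^ e') ^ b.N := by
      rw [← pow_add, he', ← pow_mul, mul_comm b.N]
    have h4 : T (Fin.last n) ^ (pS α (Fin.last n)).val ≠ 0 := pow_ne_zero _ (hT0 _)
    have h5 : T (Fin.last n) ^ (α (Fin.last (n + 1))).val ≠ 0 := pow_ne_zero _ (hT0 _)
    have h6 : ((-1 : L) ^ (α (Fin.last (n + 1))).val) * (-1) ^ (α (Fin.last (n + 1))).val = 1 := by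
      rw [← mul_pow]; simp
    set P := ∏ j : Fin n, s j.castSucc.succ ^ (α j.castSucc.succ).val
    set R := ∏ j : Fin n, (T j.succ ^ e j)⁻¹
    set ep : L := (-1 : L) ^ (α (Fin.last (n + 1))).val
    set X1 := T (Fin.last n) ^ (pS α (Fin.last n)).val
    set X2 := T (Fin.last n) ^ (α (Fin.last (n + 1))).val
    have h7 : ((T (Fin.last n) ^ e')⁻¹ * R * (β * wmon x α / a 0 ^ M)) ^ b.N =
        (β * wmon x α / a 0 ^ M) ^ b.N * ((T (Fin.last n) ^ e') ^ b.N)⁻¹ * R ^ b.N := by
      have h8 : (T (Fin.last n) ^ e')⁻¹ * R * (β * wmon x α / a 0 ^ M) =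
          β * wmon x α / a 0 ^ M * (T (Fin.last n) ^ e')⁻¹ * R := by ring
      rw [h8, mul_pow, mul_pow, inv_pow]
    rw [h7, ← h1, ← h3]
    rw [mul_inv]
    have h8 : X2 * X2⁻¹ = 1 := mul_inv_cancel₀ h5
    linear_combination (-(P * X1⁻¹ * R ^ b.N) * (X2 * X2⁻¹)) * h6 - (P * X1⁻¹ * R ^ b.N) * h8

section aux

variable {Ω : Type u} [Field Ω] [Algebra F Ω] [Algebra L Ω] [IsScalarTower F L Ω]

/-- the preimage of a subfield containing the constants -/
private def T3_comap (F : Type u) {L Ω : Type u} [Field F] [Field L] [Algebra F L] [Field Ω]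
    [Algebra F Ω] [Algebra L Ω] [IsScalarTower F L Ω] (T : Subfield Ω)
    (hF : ∀ c : F, algebraMap F Ω c ∈ T) : IntermediateField F L :=
  (T.comap (algebraMap L Ω)).toIntermediateField (fun c => by
    change algebraMap L Ω (algebraMap F L c) ∈ T
    rw [← IsScalarTower.algebraMap_apply]
    exact hF c)

private lemma T3_mem (T : Subfield Ω) (hF : ∀ c : F, algebraMap F Ω c ∈ T) {z : L} :
    z ∈ (T3_comap F T hF : IntermediateField F L) ↔ algebraMap L Ω z ∈ T := Iff.rfl

private lemma T3_fieldK (h : DiagData b t (F := F) a x) (T : Subfield Ω)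
    (hF : ∀ c : F, algebraMap F Ω c ∈ T) (ht : ∀ k, algebraMap L Ω (t k) ∈ T)
    (hU : ∀ j, algebraMap L Ω (coordU b.N a x j) ∈ T) {z : L} (hz : z ∈ fieldK b F t x) :
    algebraMap L Ω z ∈ T := by
  have h1 : IntermediateField.adjoin F (Set.range t ∪ Set.range (coordU b.N a x)) ≤
      T3_comap F T hF := by
    rw [IntermediateField.adjoin_le_iff]
    rintro _ (⟨k, rfl⟩ | ⟨j, rfl⟩)
    · exact ht k
    · exact hU j
  exact (T3_mem T hF).mp (h1 (fieldK_le_coord b h hz))

private lemma T3_fieldA (h : DiagData b t (F := F) a x) (T : Subfield Ω)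
    (hF : ∀ c : F, algebraMap F Ω c ∈ T) (ht : ∀ k, algebraMap L Ω (t k) ∈ T)
    (hU : ∀ j, algebraMap L Ω (coordU b.N a x j) ∈ T) {α : Fin (n + 2) → ZMod b.N} {c : L}
    (hc : c ∈ fieldK b F t x) (hc0 : c ≠ 0) {k : F} (hk : k ≠ 0)
    (hw : algebraMap L Ω (algebraMap F L k * c * wmon x α) ∈ T) {z : L}
    (hz : z ∈ fieldA b F t x α) : algebraMap L Ω z ∈ T := by
  have hk' : algebraMap F L k ≠ 0 := (_root_.map_ne_zero _).mpr hk
  have hw' : algebraMap L Ω (wmon x α) ∈ T := by
    have e1 : wmon x α = (algebraMap F L k * c)⁻¹ * (algebraMap F L k * c * wmon x α) := by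
      field_simp
    rw [e1, map_mul, map_inv₀, map_mul]
    refine T.mul_mem (T.inv_mem (T.mul_mem ?_ (T3_fieldK b h T hF ht hU hc))) hw
    rw [← IsScalarTower.algebraMap_apply]
    exact hF k
  have h1 : fieldA b F t x α ≤ T3_comap F T hF := by
    unfold fieldA
    rw [IntermediateField.adjoin_le_iff]
    rintro _ ((⟨k, rfl⟩ | ⟨i, rfl⟩) | rfl)
    · exact ht k
    · exact T3_fieldK b h T hF ht hU (IntermediateField.subset_adjoin _ _ (Or.inr ⟨i, rfl⟩))
    · exact hw'
  exact (T3_mem T hF).mp (h1 hz)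

end aux

private lemma T3_mono_pow {Ω : Type u} [Field Ω] [Algebra L Ω] {X Y : Fin n → Ω} {U : Fin n → L}
    (hX : ∀ j, X j ^ b.N = algebraMap L Ω (U j)) (hY : ∀ j, Y j ^ b.N = algebraMap L Ω (1 - U j))
    (B A : Fin n → ℕ) :
    mono X Y B A ^ b.N = algebraMap L Ω (∏ j, (U j ^ B j * (1 - U j) ^ A j)) := by
  unfold mono
  rw [map_prod, ← Finset.prod_pow]
  refine Finset.prod_congr rfl fun j _ => ?_
  rw [mul_pow, ← pow_mul, ← pow_mul, Nat.mul_comm (B j), Nat.mul_comm (A j), pow_mul, pow_mul,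
    hX, hY, map_mul, map_pow, map_pow]


/-- The embedding. Proof: in an algebraic closure `Ω` of `L` choose `X_j`, `Y_j` with
`X_j ^ N = U_j = coordU`, `Y_j ^ N = 1 - U_j`, and let `M = IntermediateField.adjoin F` of `t`, `X`, `Y`.
The independence of `t`, `X` follows from `algebraicIndependent_coord` and `indep_of_pow`.
Let `E = fieldA b F t x α`. By `fieldK_le_coord` the image of `fieldK` lies in `M`; by
`mono_identity` `(mono X Y expB expA / (c * wmon x α)) ^ N = ± 1`, so this quotient is an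
`N`-th root of `± 1`, i.e. the image of some `κ ∈ 𝔽` (`Base.exists_kappa`); so `wmon` lies in `M`, and
`W = κ c wmon`. -/
theorem exists_embedding_cover (h : DiagData b t (F := F) a x) {α : Fin (n + 2) → ZMod b.N}
    (ι : 𝔽 →+* F) (hα : ∑ i, α i = 0) {s : ℕ} (hs : ∑ i, (α i).val = b.N * s) {β : L}
    (hβ : β ∈ IntermediateField.adjoin F (Set.range t))
    (hβN : ∏ i, a i ^ (α i).val = β ^ b.N) :
    ∃ (M : Type u) (_ : Field M) (_ : Algebra F M) (t' : Fin r → M) (x' y' : Fin n → M)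
      (i : fieldA b F t x α →+* M), ProdData (F := F) b t' x' y' ∧
      MonoEmb b F t' x' y' (expB α) (expA α) i ∧
      (∀ (c : F) (e : fieldA b F t x α), i e = algebraMap F M c ↔ (e : L) = algebraMap F L c) ∧
      (∀ k (e : fieldA b F t x α), i e = t' k ↔ (e : L) = t k) ∧
      (∀ j (e : fieldA b F t x α), i e = x' j ^ b.N ↔ (e : L) = coordU b.N a x j) ∧
      ∃ (κ : 𝔽) (d : L), κ ≠ 0 ∧
        d ∈ Subfield.closure (Set.range fun i => a i * x i ^ b.N / a 0) ∧ d ≠ 0 ∧
        ∀ e : fieldA b F t x α, i e = mono x' y' (expB α) (expA α) ↔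
          (e : L) = algebraMap F L (ι κ) * (d * (β / a 0 ^ s)) * wmon x α := by
  have hX : ∀ j : Fin n, ∃ X : AlgebraicClosure L,
      X ^ b.N = algebraMap L (AlgebraicClosure L) (coordU b.N a x j) :=
    fun j => IsAlgClosed.exists_pow_nat_eq _ b.N_pos
  have hY : ∀ j : Fin n, ∃ Y : AlgebraicClosure L,
      Y ^ b.N = algebraMap L (AlgebraicClosure L) (1 - coordU b.N a x j) :=
    fun j => IsAlgClosed.exists_pow_nat_eq _ b.N_pos
  choose X hX using hX
  choose Y hY using hY
  let Ω := AlgebraicClosure L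
  let M : IntermediateField F Ω := IntermediateField.adjoin F
    (Set.range (fun k => algebraMap L Ω (t k)) ∪ Set.range X ∪ Set.range Y)
  have mt : ∀ k, algebraMap L Ω (t k) ∈ M := fun k =>
    IntermediateField.subset_adjoin _ _ (Or.inl (Or.inl ⟨k, rfl⟩))
  have mX : ∀ j, X j ∈ M := fun j => IntermediateField.subset_adjoin _ _ (Or.inl (Or.inr ⟨j, rfl⟩))
  have mY : ∀ j, Y j ∈ M := fun j => IntermediateField.subset_adjoin _ _ (Or.inr ⟨j, rfl⟩)
  let t' : Fin r → M := fun k => ⟨algebraMap L Ω (t k), mt k⟩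
  let x' : Fin n → M := fun j => ⟨X j, mX j⟩
  let y' : Fin n → M := fun j => ⟨Y j, mY j⟩
  obtain ⟨d, hd, hd0, hid'⟩ := mono_identity_cover b h hα hs hβN
  have hβ0 : β ≠ 0 := by
    intro h0
    rw [h0, zero_pow b.N_pos.ne'] at hβN
    exact (Finset.prod_ne_zero_iff.2 fun i _ => pow_ne_zero _ (h.a_ne i)) hβN
  have htK : ∀ z ∈ IntermediateField.adjoin F (Set.range t), z ∈ fieldK b F t x := by
    intro z hz
    refine (IntermediateField.adjoin_le_iff.2 ?_) hz
    intro y hy
    exact IntermediateField.subset_adjoin F _ (Or.inl hy)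
  have hdK : d ∈ fieldK b F t x := by
    have h1 : Subfield.closure (Set.range fun i => a i * x i ^ b.N / a 0) ≤
        (fieldK b F t x).toSubfield := by
      rw [Subfield.closure_le]
      rintro _ ⟨i, rfl⟩
      exact div_mem (mul_mem (htK _ (h.a_mem i)) (IntermediateField.subset_adjoin F _
        (Or.inr ⟨i, rfl⟩))) (htK _ (h.a_mem 0))
    exact h1 hd
  obtain ⟨c, hcd⟩ : ∃ c, c = d * (β / a 0 ^ s) := ⟨_, rfl⟩
  have hc : c ∈ fieldK b F t x := by
    rw [hcd]
    exact mul_mem hdK (div_mem (htK _ hβ) (pow_mem (htK _ (h.a_mem 0)) _))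
  have hc0 : c ≠ 0 := by
    rw [hcd]
    exact mul_ne_zero hd0 (div_ne_zero hβ0 (pow_ne_zero _ (h.a_ne 0)))
  have hid : ∏ j, (coordU b.N a x j ^ expB α j * (1 - coordU b.N a x j) ^ expA α j) =
        (-1) ^ (α (Fin.last (n + 1))).val * (c * wmon x α) ^ b.N := by
    rw [hid', hcd]
    congr 2
    ring
  have hwne : wmon x α ≠ 0 := by
    unfold wmon
    exact Finset.prod_ne_zero_iff.mpr fun i _ => pow_ne_zero _ (h.x_ne b i)
  have hcw : algebraMap L Ω (c * wmon x α) ≠ 0 := (_root_.map_ne_zero _).mpr (mul_ne_zero hc0 hwne)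
  have hz : (mono X Y (expB α) (expA α) / algebraMap L Ω (c * wmon x α)) ^ b.N =
      (-1) ^ (α (Fin.last (n + 1))).val := by
    rw [div_pow, T3_mono_pow b hX hY, hid, map_mul, map_pow, map_neg, map_one, map_pow,
      mul_div_cancel_right₀ _ (pow_ne_zero _ hcw)]
  obtain ⟨κ, hκ0, hκ⟩ := b.exists_kappa ((algebraMap F Ω).comp ι) hz
  have hικ : ι κ ≠ 0 := (_root_.map_ne_zero _).mpr hκ0
  have hW : mono X Y (expB α) (expA α) =
      algebraMap L Ω (algebraMap F L (ι κ) * c * wmon x α) := by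
    have h1 := (eq_div_iff hcw).mp hκ
    rw [← h1, mul_assoc, map_mul (algebraMap L Ω) (algebraMap F L (ι κ)),
      ← IsScalarTower.algebraMap_apply]
    rfl
  have hFM : ∀ d : F, algebraMap F Ω d ∈ M.toSubfield := fun d => M.algebraMap_mem d
  have hUM : ∀ j, algebraMap L Ω (coordU b.N a x j) ∈ M.toSubfield := fun j => by
    rw [← hX]
    exact pow_mem (mX j) _
  have hWM : mono X Y (expB α) (expA α) ∈ M.toSubfield :=
    prod_mem fun j _ => mul_mem (pow_mem (mX j) _) (pow_mem (mY j) _)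
  have hiM : ∀ e : fieldA b F t x α, algebraMap L Ω (e : L) ∈ M.toSubfield := fun e =>
    T3_fieldA b h M.toSubfield hFM mt hUM hc hc0 hικ (by rw [← hW]; exact hWM) e.2
  let i : fieldA b F t x α →+* M :=
    ((algebraMap L Ω).comp (algebraMap (fieldA b F t x α) L)).codRestrict M hiM
  have hi : ∀ e : fieldA b F t x α, ((i e : M) : Ω) = algebraMap L Ω (e : L) := fun _ => rfl
  have hinj : Function.Injective (algebraMap L Ω) := (algebraMap L Ω).injective
  have hmono : ((mono x' y' (expB α) (expA α) : M) : Ω) = mono X Y (expB α) (expA α) := by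
    unfold mono
    simp [x', y']
  have hUA : ∀ j, coordU b.N a x j ∈ fieldA b F t x α := fun j => by
    have h1 : fieldK b F t x ≤ fieldA b F t x α :=
      IntermediateField.adjoin.mono _ _ _ Set.subset_union_left
    exact h1 (coordU_mem b h j)
  have hcA : c ∈ fieldA b F t x α := by
    have h1 : fieldK b F t x ≤ fieldA b F t x α :=
      IntermediateField.adjoin.mono _ _ _ Set.subset_union_left
    exact h1 hc
  have htA : ∀ k, t k ∈ fieldA b F t x α := fun k =>
    IntermediateField.subset_adjoin _ _ (Or.inl (Or.inl ⟨k, rfl⟩))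
  have hwA : wmon x α ∈ fieldA b F t x α :=
    IntermediateField.subset_adjoin _ _ (Or.inr rfl)
  refine ⟨M, inferInstance, inferInstance, t', x', y', i, ⟨?_, ?_, ?_⟩, ⟨?_, ?_, ?_, ?_, ?_⟩,
    ?_, ?_, ?_, κ, d, hκ0, hd, hd0, ?_⟩
  · -- eq
    intro j
    apply Subtype.ext
    change X j ^ b.N + Y j ^ b.N = 1
    rw [hX, hY, ← map_add, add_sub_cancel, map_one]
  · -- ind
    have h1 := (algebraicIndependent_coord b h).map' (f := IsScalarTower.toAlgHom F L Ω) hinj
    have h2 : AlgebraicIndependent F (Sum.elim (fun k => algebraMap L Ω (t k)) X) := by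
      refine indep_of_pow h1 (Sum.elim (fun _ => 1) (fun _ => b.N)) ?_
      rintro (k | j)
      · simp
      · exact hX j
    have h3 : (M.val : M → Ω) ∘ Sum.elim t' x' = Sum.elim (fun k => algebraMap L Ω (t k)) X := by
      funext k
      rcases k with k | j <;> rfl
    rw [← h3] at h2
    exact (M.val.algebraicIndependent_iff M.val.injective).mp h2
  · -- gen
    apply IntermediateField.lift_injective M
    rw [IntermediateField.lift_adjoin, IntermediateField.lift_top, Set.image_union,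
      Set.image_union, ← Set.range_comp, ← Set.range_comp, ← Set.range_comp]
    rfl
  · -- const
    intro d
    refine ⟨algebraMap F _ d, Subtype.ext ?_⟩
    rw [hi]
    change algebraMap L Ω (algebraMap F L d) = algebraMap F Ω d
    rw [← IsScalarTower.algebraMap_apply]
  · intro k
    exact ⟨⟨t k, htA k⟩, rfl⟩
  · intro j
    exact ⟨⟨coordU b.N a x j, hUA j⟩, Subtype.ext (hX j).symm⟩
  · refine ⟨⟨algebraMap F L (ι κ) * c * wmon x α,
      mul_mem (mul_mem ((fieldA b F t x α).algebraMap_mem _) hcA) hwA⟩, Subtype.ext ?_⟩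
    rw [hi, hmono, hW]
  · -- gen
    rintro _ ⟨e, rfl⟩
    set Sc : Subfield M := Subfield.closure (Set.range (algebraMap F M) ∪ Set.range t' ∪
      (Set.range fun j => x' j ^ b.N) ∪ {mono x' y' (expB α) (expA α)}) with hSc
    have h1 : algebraMap L Ω (e : L) ∈ Sc.map (algebraMap M Ω) := by
      refine T3_fieldA b h _ ?_ ?_ ?_ hc hc0 hικ ?_ e.2
      · intro d
        exact ⟨algebraMap F M d, Subfield.subset_closure (Or.inl (Or.inl (Or.inl ⟨d, rfl⟩))), rfl⟩
      · intro k
        exact ⟨t' k, Subfield.subset_closure (Or.inl (Or.inl (Or.inr ⟨k, rfl⟩))), rfl⟩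
      · intro j
        exact ⟨x' j ^ b.N, Subfield.subset_closure (Or.inl (Or.inr ⟨j, rfl⟩)), hX j⟩
      · exact ⟨mono x' y' (expB α) (expA α), Subfield.subset_closure (Or.inr rfl), by
          rw [← hW]; exact hmono⟩
    obtain ⟨m', hm', hme⟩ := h1
    have h2 : m' = i e := Subtype.ext hme
    rw [← h2]
    exact hm'
  · intro d e
    constructor
    · intro h1
      have h2 := congrArg (fun z : M => (z : Ω)) h1
      apply hinj
      rw [← hi e, h1, ← IsScalarTower.algebraMap_apply]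
      rfl
    · intro h1
      apply Subtype.ext
      rw [hi, h1, ← IsScalarTower.algebraMap_apply]
      rfl
  · intro k e
    constructor
    · intro h1
      apply hinj
      rw [← hi e, h1]
    · intro h1
      apply Subtype.ext
      rw [hi, h1]
  · intro j e
    constructor
    · intro h1
      apply hinj
      rw [← hi e, h1]
      exact hX j
    · intro h1
      apply Subtype.ext
      rw [hi, h1]
      exact (hX j).symm
  · intro e
    rw [← hcd]
    constructor
    · intro h1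
      apply hinj
      rw [← hi e, h1, hmono, hW]
    · intro h1
      apply Subtype.ext
      rw [hi, h1, hmono, hW]


end UnrA.Fer
end
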