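import Pool.Agent.Lib.MP_859dd5_ag.Mg.G003
import Pool.Agent.Lib.MP_859dd5_ag.Mg.G006
import Pool.Agent.Lib.MP_859dd5_ag.Mg.G071
import Pool.Agent.Lib.MP_859dd5_ag.Mg.G007
import Pool.Agent.Lib.MP_859dd5_ag.Mg.G051
import Pool.Agent.Lib.MP_859dd5_ag.Mg.G001

section

/-!
# Vanishing for monomial subfields: a polynomial in the Frobenius of the base
-/

namespace UnrA.Fer

open UnrG

universe u v w z

open Polynomial Finset
open scoped Classical

section

variable {m : UFun.{u, z}} {𝔽 : Type w} [Field 𝔽] [Fintype 𝔽] (b : Base 𝔽)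

variable {F M : Type u} [Field F] [Field M] [Algebra F M] (ι : 𝔽 →+* F) {r n : ℕ}
  {t : Fin r → M} {x y : Fin n → M}

private lemma T2_tau {a c : Fin n → ℕ} {f : M →+* M} (hf : IsDiag b ι t x y a c f) (i : Fin n) :
    f (x i ^ b.N) = x i ^ b.N := by
  have hz : (algebraMap F M (ι b.ζ)) ^ b.N = 1 := by
    rw [← map_pow, ← map_pow, b.hζ.pow_eq_one, map_one, map_one]
  rw [map_pow, hf.fx, mul_pow, ← pow_mul, mul_comm (a i), pow_mul, hz, one_pow, one_mul]

omit b in
private lemma T2_wt (bb aa a c : Fin n → ℕ) (k : ℕ) :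
    wt bb aa (k • a) (k • c) = wt bb aa a c * k := by
  unfold wt
  rw [Finset.sum_mul]
  refine Finset.sum_congr rfl (fun i _ => ?_)
  simp only [Pi.smul_apply, smul_eq_mul]
  ring

/-- The annihilators of a good class which is killed by a polynomial `R` in the diagonal
endomorphism. -/
theorem Good.annihilate_poly {bb aa : Fin n → ℕ}
    {Z : KM m M} (h : Good b F ι t x y bb aa Z) {a c : Fin n → ℕ} {τ : M →+* M}
    (hτ : IsDiag b ι t x y a c τ) (R : ℤ[X]) (κ : ℤ)
    (hR : Polynomial.aeval (actL m τ) R (κ • Z) = 0) (D : ℤ)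
    (hD : C D ∈ Ideal.span (({X ^ orderOf (b.ζ ^ wt bb aa a c) - 1, R} : Set ℤ[X]) ∪
      {f | ∃ k : ℕ, ¬ b.N ∣ wt bb aa a c * k ∧ f = ∑ i ∈ range b.N, X ^ (i * k)})) :
    (κ * D) • Z = 0 := by
  have hlin : ∀ (P : ℤ[X]) (k : ℤ) (W : KM m M),
      Polynomial.aeval (actL m τ) P (k • W) = k • Polynomial.aeval (actL m τ) P W := by
    intro P k W
    exact LinearMap.map_smul _ k W
  have key : ∀ P ∈ Ideal.span (({X ^ orderOf (b.ζ ^ wt bb aa a c) - 1, R} : Set ℤ[X]) ∪
      {f | ∃ k : ℕ, ¬ b.N ∣ wt bb aa a c * k ∧ f = ∑ i ∈ range b.N, X ^ (i * k)}),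
      Polynomial.aeval (actL m τ) P (κ • Z) = 0 := by
    intro P hP'
    refine Submodule.span_induction (p := fun P _ =>
      Polynomial.aeval (actL m τ) P (κ • Z) = 0) ?_ ?_ ?_ ?_ hP'
    · intro P hP2
      rcases hP2 with (hP2 | hP2) | ⟨k, hk, hP2⟩
      · rw [hP2, hlin]
        have h1 : Polynomial.aeval (actL m τ) (X ^ orderOf (b.ζ ^ wt bb aa a c) - 1 : ℤ[X]) Z =
            0 := by
          rw [map_sub, map_pow, aeval_X, map_one, LinearMap.sub_apply, Module.End.one_apply,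
            actL_pow, sub_eq_zero]
          have h2 : KM.map m (RingHom.id M) Z = Z := by
            rw [KM.map_id]
            rfl
          have ht := hτ.pow b ι (orderOf (b.ζ ^ wt bb aa a c))
          have h3 : KM.map m (τ ^ orderOf (b.ζ ^ wt bb aa a c)) Z = KM.map m (RingHom.id M) Z := by
            refine h.inv _ _ ?_ ?_ ?_ ?_
            · intro s
              rw [ht.const, RingHom.id_apply]
            · intro i
              rw [ht.ft, RingHom.id_apply]
            · intro i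
              rw [T2_tau b ι ht, RingHom.id_apply]
            · rw [ht.map_mono b ι, T2_wt, pow_mul, ← map_pow, ← map_pow, ← map_pow, ← map_pow,
                pow_orderOf_eq_one, map_one, map_one, one_mul, RingHom.id_apply]
          rw [h3, h2]
        rw [h1, smul_zero]
      · rw [Set.mem_singleton_iff] at hP2
        rw [hP2]
        exact hR
      · rw [hP2, hlin]
        have h1 : Polynomial.aeval (actL m τ) (∑ i ∈ range b.N, X ^ (i * k) : ℤ[X]) Z = 0 := by
          rw [map_sum, LinearMap.sum_apply]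
          have ht := hτ.pow b ι k
          have h8 := h.new _ _ _ ht (by rw [T2_wt]; exact hk)
          rw [← h8]
          refine Finset.sum_congr rfl (fun i _ => ?_)
          rw [map_pow, aeval_X, actL_pow, ← pow_mul, mul_comm k i]
        rw [h1, smul_zero]
    · rw [map_zero, LinearMap.zero_apply]
    · intro P Q _ _ h1 h2
      rw [map_add, LinearMap.add_apply, h1, h2, add_zero]
    · intro P Q _ h1
      rw [smul_eq_mul, map_mul, Module.End.mul_apply, h1, map_zero]
  have h9 := key _ hD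
  rw [aeval_C, Module.algebraMap_end_apply, smul_smul, mul_comm] at h9
  exact h9

end

variable {𝔽 : Type w} [Field 𝔽] [Fintype 𝔽] (b : Base 𝔽)

/-- **Vanishing for monomial subfields of products of Fermat curves**: classes `z` killed by a
polynomial `P` in the Frobenius `σ` of the base. -/
theorem prod_main_poly {n : ℕ} (wd : ℕ) (P : ℤ[X]) (bb aa : Fin n → ℕ)
    (hn : ∀ χ : MulChar 𝔽 ℂ, orderOf χ = b.N → homEval P ((b.q : ℂ) ^ wd)
      ((-1) ^ n * ∏ j, jacobiSum (χ ^ bb j) (χ ^ aa j)) ≠ 0)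
    (h3 : ∀ j, ¬ b.N ∣ bb j + aa j) :
    ∃ C : ℕ, 0 < C ∧ ∀ (m : UFun.{u, z}) (_ : m.HasWeight 𝔽 b.q wd) (_ : m.Specializes)
      (F M E : Type u) [Field F] [Field M] [Field E] [Algebra F M]
      (ι : 𝔽 →+* F) (r : ℕ) (t : Fin r → M) (x y : Fin n → M)
      (_ : ProdData (F := F) b t x y) (i : E →+* M) (_ : MonoEmb b F t x y bb aa i)
      (σ : E →+* E) (_ : RelFrob b F t x y bb aa i σ) (z : KM m E)
      (_ : Unr z) (_ : ∀ k, NewCls b F ι t x y bb aa i (KM.map m (σ ^ k) z))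
      (_ : ∑ k ∈ range (P.natDegree + 1), P.coeff k • KM.map m (σ ^ k) z = 0), C • z = 0 := by
  obtain ⟨a, c, l, hl⟩ := b.exists_exponents bb aa
  obtain ⟨D, hD0, hD⟩ := exists_bezout_poly b wd P bb aa hn (wt bb aa a c) l hl
  refine ⟨(b.N ^ (2 * n)).factorial * (fc b ^ n * D.natAbs),
    Nat.mul_pos (Nat.factorial_pos _) (Nat.mul_pos (pow_pos (fc_pos b) n)
      (Int.natAbs_pos.mpr hD0)), ?_⟩
  intro m hw hs F M E _ _ _ _ ι r t x y hP i hi σ hσ z hu hnew hσz
  have hZ : ∀ k, Good b F ι t x y bb aa (KM.map m i (KM.map m (σ ^ k) z)) := fun k =>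
    monoEmb_good b ι hi (hu.map _) (hnew k)
  obtain ⟨τ, hτ⟩ := hP.exists_diag b ι a c
  obtain ⟨φ, hφ⟩ := hP.exists_frobAt b ι univ
  obtain ⟨ψ, hψ1, hψ2, hψ3, hψ4, hψ5⟩ := exists_frobT b m hP
  obtain ⟨fr, hfr⟩ := b.exists_frob ((algebraMap F M).comp ι)
  obtain ⟨T, hT⟩ : ∃ T, T = Polynomial.aeval (actL m τ) ((-1) ^ n * ∏ j, jacPoly 𝔽 (l j)) :=
    ⟨_, rfl⟩
  have hstep : ∀ k, ((fc b : ℤ) ^ n * (b.q : ℤ) ^ wd) • KM.map m i (KM.map m (σ ^ k) z) =
      ((fc b : ℤ) ^ n) • T (KM.map m i (KM.map m (σ ^ (k + 1)) z)) := by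
    intro k
    have hdeg : KM.map m fr (KM.map m i (KM.map m (σ ^ k) z)) =
        (b.q ^ wd) • KM.map m i (KM.map m (σ ^ k) z) :=
      hw M ((algebraMap F M).comp ι) fr hfr _
    have hk1 : KM.map m (σ ^ (k + 1)) z = KM.map m σ (KM.map m (σ ^ k) z) := by
      rw [pow_succ', KM.map_map]
      rfl
    have hfrob : ((b.q : ℤ) ^ wd) • KM.map m i (KM.map m (σ ^ k) z) =
        KM.map m φ (KM.map m i (KM.map m (σ ^ (k + 1)) z)) := by
      have h4 : ((b.q : ℤ) ^ wd) = ((b.q ^ wd : ℕ) : ℤ) := by push_cast; rfl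
      rw [h4, natCast_zsmul, ← hdeg, KM.map_map i fr, ← hσ.frob_eq b hP hi hφ hψ1 hψ2 hψ3 hψ4 hfr,
        ← KM.map_map, ← KM.map_map, ← KM.map_map, hψ5 _ ((hu.map _).map _ |>.map i), hk1]
    have h4 := Good.frob_all b ι hs hP h3 (hZ (k + 1)) hτ l hl univ φ hφ
    rw [Finset.card_univ, Fintype.card_fin] at h4
    have h7 : ((fc b : ℤ) ^ n) = ((fc b ^ n : ℕ) : ℤ) := by push_cast; rfl
    rw [mul_smul, hfrob, h7, natCast_zsmul, natCast_zsmul, hT]
    exact h4
  have hsum : ∑ k ∈ range (P.natDegree + 1), P.coeff k • KM.map m i (KM.map m (σ ^ k) z) = 0 := by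
    have h5 := congrArg (KM.map m i) hσz
    rw [map_sum, map_zero] at h5
    rw [← h5]
    exact Finset.sum_congr rfl fun k _ => (map_zsmul _ _ _).symm
  have hR := homEval_apply_eq_zero T P ((fc b : ℤ) ^ n) ((b.q : ℤ) ^ wd)
    (fun k => KM.map m i (KM.map m (σ ^ k) z)) hstep hsum
  have hz0 : KM.map m (σ ^ 0) z = z := by
    rw [pow_zero]
    exact congrArg (fun f : KM m E →+ KM m E => f z) (KM.map_id (m := m) (K := E))
  have hR' : Polynomial.aeval (actL m τ) (homEval P (C ((b.q : ℤ) ^ wd))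
      ((-1) ^ n * ∏ j, jacPoly 𝔽 (l j))) (((fc b : ℤ) ^ n) • KM.map m i z) = 0 := by
    rw [map_smul, ← hR]
    congr 1
    have h6 : Polynomial.aeval (actL m τ) (homEval P (C ((b.q : ℤ) ^ wd))
        ((-1) ^ n * ∏ j, jacPoly 𝔽 (l j))) =
        ∑ i ∈ range (P.natDegree + 1), (P.coeff i * ((b.q : ℤ) ^ wd) ^ i) •
          T ^ (P.natDegree - i) := by
      unfold homEval
      rw [map_sum]
      refine Finset.sum_congr rfl fun i _ => ?_
      rw [map_mul, map_mul, map_pow (Polynomial.aeval (actL m τ)) (C ((b.q : ℤ) ^ wd)) i,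
        map_pow (Polynomial.aeval (actL m τ)) _ (P.natDegree - i), ← hT, aeval_C, map_intCast,
        eq_intCast (algebraMap ℤ (Module.End ℤ (KM m M))), zsmul_eq_mul]
      push_cast
      rfl
    rw [h6, LinearMap.sum_apply]
    refine Finset.sum_congr rfl fun i _ => ?_
    rw [LinearMap.smul_apply, hz0]
  have hZ0 := hZ 0
  rw [hz0] at hZ0
  have hann := hZ0.annihilate_poly b ι hτ _ _ hR' D hD
  have hnat : (fc b ^ n * D.natAbs) • KM.map m i z = 0 := by
    rw [← natCast_zsmul]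
    push_cast
    rcases abs_choice D with h4 | h4
    · rw [h4]
      exact hann
    · rw [h4, mul_neg, neg_smul, hann, neg_zero]
  rw [mul_smul]
  refine monoEmb_smul_eq_zero b hP hi ?_
  rw [map_nsmul]
  exact hnat

end UnrA.Fer
end

section

/-!
# Monomial subfields over a base with a Frobenius polynomial
-/

namespace UnrA.Fer

open UnrG

universe u v w z

open Polynomial Finset
open scoped Classical

variable {𝔽 : Type w} [Field 𝔽] [Fintype 𝔽] (b : Base 𝔽)

/-- The normalized powers of the coordinates. -/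
noncomputable def nX {n : ℕ} {L : Type u} [Field L] (N : ℕ) (a x : Fin (n + 2) → L)
    (i : Fin (n + 2)) : L := a i * x i ^ N / a 0

section

variable {F L : Type u} [Field F] [Field L] [Algebra F L] {r n : ℕ}
  {t : Fin r → L} {a x : Fin (n + 2) → L}

lemma T4_adj_le (α : Fin (n + 2) → ZMod b.N) {z : L}
    (hz : z ∈ IntermediateField.adjoin F (Set.range t)) : z ∈ fieldA b F t x α :=
  IntermediateField.adjoin.mono F _ _ (Set.subset_union_left.trans Set.subset_union_left) hz

lemma T4_nX_mem (h : DiagData b t (F := F) a x) (α : Fin (n + 2) → ZMod b.N) (i : Fin (n + 2)) :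
    nX b.N a x i ∈ fieldA b F t x α :=
  div_mem (mul_mem (T4_adj_le b α (h.a_mem i))
    (IntermediateField.subset_adjoin F _ (Or.inl (Or.inr ⟨i, rfl⟩))))
    (T4_adj_le b α (h.a_mem 0))

lemma T4_W_mem (h : DiagData b t (F := F) a x) (α : Fin (n + 2) → ZMod b.N) {β : L}
    (hβ : β ∈ IntermediateField.adjoin F (Set.range t)) (s : ℕ) :
    β * wmon x α / a 0 ^ s ∈ fieldA b F t x α :=
  div_mem (mul_mem (T4_adj_le b α hβ) (IntermediateField.subset_adjoin F _ (Or.inr rfl)))
    (pow_mem (T4_adj_le b α (h.a_mem 0)) s)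

/-- Generators of the monomial subfield. -/
lemma T4_closure {t₀ : Fin 0 → L} (h : DiagData b t₀ (F := F) a x) (α : Fin (n + 2) → ZMod b.N)
    {β : L} (hβ : β ∈ IntermediateField.adjoin F (Set.range t₀)) (hβ0 : β ≠ 0) (s : ℕ) :
    Subfield.closure (Set.range (algebraMap F (fieldA b F t₀ x α)) ∪
      ({e | ∃ i, (e : L) = nX b.N a x i} ∪ {e | (e : L) = β * wmon x α / a 0 ^ s})) = ⊤ := by
  obtain ⟨R, hR⟩ : ∃ R, R = Subfield.closure (Set.range (algebraMap F (fieldA b F t₀ x α)) ∪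
      ({e | ∃ i, (e : L) = nX b.N a x i} ∪ {e | (e : L) = β * wmon x α / a 0 ^ s})) := ⟨_, rfl⟩
  rw [← hR, eq_top_iff]
  have hF : ∀ z ∈ IntermediateField.adjoin F (Set.range t₀),
      z ∈ R.map (algebraMap (fieldA b F t₀ x α) L) := by
    intro z hz
    rw [Set.range_eq_empty, IntermediateField.adjoin_empty] at hz
    obtain ⟨c, rfl⟩ := IntermediateField.mem_bot.mp hz
    refine ⟨algebraMap F _ c, ?_, rfl⟩
    rw [hR]
    exact Subfield.subset_closure (Or.inl ⟨c, rfl⟩)
  have hXm : ∀ i, nX b.N a x i ∈ R.map (algebraMap (fieldA b F t₀ x α) L) := by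
    intro i
    refine ⟨⟨_, T4_nX_mem b h α i⟩, ?_, rfl⟩
    rw [hR]
    exact Subfield.subset_closure (Or.inr (Or.inl ⟨i, rfl⟩))
  have hWm : β * wmon x α / a 0 ^ s ∈ R.map (algebraMap (fieldA b F t₀ x α) L) := by
    refine ⟨⟨_, T4_W_mem b h α hβ s⟩, ?_, rfl⟩
    rw [hR]
    exact Subfield.subset_closure (Or.inr (Or.inr rfl))
  intro e _
  have h1 : (fieldA b F t₀ x α).toSubfield ≤ R.map (algebraMap (fieldA b F t₀ x α) L) := by
    conv_lhs => unfold fieldA
    rw [IntermediateField.adjoin_toSubfield, Subfield.closure_le]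
    rintro y (⟨c, rfl⟩ | ((⟨l, rfl⟩ | ⟨l, rfl⟩) | hy))
    · exact hF _ (IntermediateField.algebraMap_mem _ c)
    · exact l.elim0
    · have h2 : x l ^ b.N = nX b.N a x l * a 0 / a l := by
        unfold nX
        field_simp [h.a_ne 0, h.a_ne l]
      change x l ^ b.N ∈ R.map (algebraMap (fieldA b F t₀ x α) L)
      rw [h2]
      exact div_mem (mul_mem (hXm l) (hF _ (h.a_mem 0))) (hF _ (h.a_mem l))
    · rw [Set.mem_singleton_iff] at hy
      subst hy
      have h2 : wmon x α = (β * wmon x α / a 0 ^ s) * a 0 ^ s / β := by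
        field_simp [h.a_ne 0, hβ0]
      change wmon x α ∈ R.map (algebraMap (fieldA b F t₀ x α) L)
      rw [h2]
      exact div_mem (mul_mem hWm (pow_mem (hF _ (h.a_mem 0)) s)) (hF _ hβ)
  obtain ⟨e', he', hee⟩ := h1 e.2
  have h4 : e' = e := Subtype.ext hee
  rw [← h4]
  exact he'

/-- endomorphisms fixing the coordinates fix `fieldK` -/
private lemma T4_fix (h : DiagData b t (F := F) a x)
    {E : IntermediateField F L} (g : E →+* E)
    (h1 : ∀ (c : F) (e : E), (e : L) = algebraMap F L c → g e = e)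
    (h2 : ∀ k (e : E), (e : L) = t k → g e = e)
    (h3 : ∀ j (e : E), (e : L) = coordU b.N a x j → g e = e)
    (htE : ∀ k, t k ∈ E) (hUE : ∀ j, coordU b.N a x j ∈ E)
    (e : E) (he : (e : L) ∈ fieldK b F t x) : g e = e := by
  let T : Subfield L := (g.eqLocusField (RingHom.id E)).map (algebraMap E L)
  let T' : IntermediateField F L := T.toIntermediateField (fun c =>
    ⟨algebraMap F E c, h1 c _ rfl, rfl⟩)
  have hle : IntermediateField.adjoin F (Set.range t ∪ Set.range (coordU b.N a x)) ≤ T' := by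
    rw [IntermediateField.adjoin_le_iff]
    rintro _ (⟨k, rfl⟩ | ⟨j, rfl⟩)
    · exact ⟨⟨t k, htE k⟩, h2 k _ rfl, rfl⟩
    · exact ⟨⟨coordU b.N a x j, hUE j⟩, h3 j _ rfl, rfl⟩
  obtain ⟨e', he', hee⟩ := hle (fieldK_le_coord b h he)
  have h4 : e' = e := Subtype.ext hee
  rw [← h4]
  exact he'

end

/-- **Monomial subfields over a base with a Frobenius polynomial.** -/
theorem cover_kill {n : ℕ} (hn0 : 0 < n) (wd : ℕ) (P : ℤ[X]) {α : Fin (n + 2) → ZMod b.N}
    (hα : MinZero α)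
    (hn : ∀ χ : MulChar 𝔽 ℂ, orderOf χ = b.N → homEval P ((b.q : ℂ) ^ wd)
      ((-1) ^ n * ∏ j : Fin n, jacobiSum (χ ^ expB α j) (χ ^ expA α j)) ≠ 0) :
    ∃ C : ℕ, 0 < C ∧ ∀ (m : UFun.{u, z}) (_ : m.HasWeight 𝔽 b.q wd) (_ : m.Specializes)
      (F L : Type u) [Field F] [Field L] [Algebra F L] (ι : 𝔽 →+* F)
      (t₀ : Fin 0 → L) (a x : Fin (n + 2) → L) (_ : DiagData b t₀ (F := F) a x) (β : L)
      (_ : β ∈ IntermediateField.adjoin F (Set.range t₀))
      (_ : ∏ i, a i ^ (α i).val = β ^ b.N) (s : ℕ) (_ : ∑ i, (α i).val = b.N * s)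
      (σ : fieldA b F t₀ x α →+* fieldA b F t₀ x α)
      (_ : ∀ c : F, σ (algebraMap F _ c) = algebraMap F _ c ^ b.q)
      (_ : ∀ i (e : fieldA b F t₀ x α), (e : L) = nX b.N a x i → σ e = e)
      (_ : ∀ e : fieldA b F t₀ x α, (e : L) = β * wmon x α / a 0 ^ s → σ e = e)
      (D : ℕ) (z : KM m (fieldA b F t₀ x α)) (_ : Unr z)
      (_ : ∀ (g : fieldA b F t₀ x α →+* fieldA b F t₀ x α) (k : ℕ),
        (∀ e : fieldA b F t₀ x α, (e : L) ∈ fieldK b F t₀ x → g e = e) →
        (∀ e : fieldA b F t₀ x α, (e : L) = wmon x α →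
          (g e : L) = algebraMap F L (ι b.ζ) ^ k * wmon x α) →
        ¬ b.N ∣ k → ∑ l ∈ range b.N, KM.map m (g ^ l) z = 0)
      (_ : D • ∑ k ∈ range (P.natDegree + 1), P.coeff k • KM.map m (σ ^ k) z ∈
        cst m F (fieldA b F t₀ x α)), (C * D) • z = 0 := by
  obtain ⟨C₀, hC₀, hmain⟩ := prod_main_poly.{u, w, z} b wd P (expB α) (expA α) hn
    (fun j => (hα.exp b j).2.2)
  refine ⟨C₀ * b.N, Nat.mul_pos hC₀ b.N_pos, ?_⟩
  intro m hwt hsp F L _ _ _ ι t₀ a x h β hβ hβN s hs σ σF σX σW D z hz hnew hconst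
  obtain ⟨M, _, _, t', x', y', i, hP, hE, hc1, ht1, hx1, κ, d, hκ0, hd, hd0, hW⟩ :=
    exists_embedding_cover b h ι hα.1 hs hβ hβN
  have hβ0 : β ≠ 0 := by
    intro h0
    rw [h0, zero_pow b.N_pos.ne'] at hβN
    exact (Finset.prod_ne_zero_iff.2 fun i _ => pow_ne_zero _ (h.a_ne i)) hβN
  have hcl := T4_closure b h α hβ hβ0 s
  have hwm : wmon x α ∈ fieldA b F t₀ x α := IntermediateField.subset_adjoin F _ (Or.inr rfl)
  have hwne : wmon x α ≠ 0 := by
    unfold wmon
    exact Finset.prod_ne_zero_iff.mpr fun i _ => pow_ne_zero _ (h.x_ne b i)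
  have hKA : fieldK b F t₀ x ≤ fieldA b F t₀ x α := fieldK_le_fieldA b α
  have hUA : ∀ j, coordU b.N a x j ∈ fieldA b F t₀ x α := fun j => hKA (coordU_mem b h j)
  have hikF : ∀ (c : F) (e : fieldA b F t₀ x α), (e : L) = algebraMap F L c →
      e = algebraMap F _ c := fun c e he => Subtype.ext he
  -- elements fixed by the Frobenius
  have hfixσ : ∀ y ∈ Subfield.closure (Set.range (nX b.N a x)), ∀ e : fieldA b F t₀ x α,
      (e : L) = y → σ e = e := by
    intro y hy e he
    have h1 : Subfield.closure (Set.range (nX b.N a x)) ≤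
        (σ.eqLocusField (RingHom.id _)).map (algebraMap (fieldA b F t₀ x α) L) := by
      rw [Subfield.closure_le]
      rintro _ ⟨i, rfl⟩
      exact ⟨⟨_, T4_nX_mem b h α i⟩, σX i _ rfl, rfl⟩
    obtain ⟨e', he', hee⟩ := h1 hy
    have h4 : e' = e := Subtype.ext (hee.trans he.symm)
    rw [← h4]
    exact he'
  have hUcl : ∀ j, coordU b.N a x j ∈ Subfield.closure (Set.range (nX b.N a x)) := by
    have hT : ∀ j, partS b.N a x j ∈ Subfield.closure (Set.range (nX b.N a x)) := by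
      intro j
      unfold partS
      exact sum_mem fun i _ => Subfield.subset_closure ⟨i, rfl⟩
    exact fun j => div_mem (hT _) (hT _)
  have hdA : d ∈ fieldA b F t₀ x α := by
    have h1 : Subfield.closure (Set.range (nX b.N a x)) ≤ (fieldA b F t₀ x α).toSubfield := by
      rw [Subfield.closure_le]
      rintro _ ⟨i, rfl⟩
      exact T4_nX_mem b h α i
    exact h1 hd
  have hrel : RelFrob b F t' x' y' (expB α) (expA α) i σ := by
    refine ⟨?_, fun l => l.elim0, ?_, ?_⟩
    · intro c e he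
      rw [hikF c e ((hc1 c e).mp he), σF]
    · intro j e he
      exact hfixσ _ (hUcl j) e ((hx1 j e).mp he)
    · intro e he
      have h1 := (hW e).mp he
      obtain ⟨eκ, heκ⟩ : ∃ eκ : fieldA b F t₀ x α, eκ = algebraMap F _ (ι κ) := ⟨_, rfl⟩
      obtain ⟨ed, hed⟩ : ∃ ed : fieldA b F t₀ x α, ed = ⟨d, hdA⟩ := ⟨_, rfl⟩
      obtain ⟨eW, heW⟩ : ∃ eW : fieldA b F t₀ x α, eW = ⟨_, T4_W_mem b h α hβ s⟩ := ⟨_, rfl⟩
      have h2 : e = eκ * ed * eW := by
        apply Subtype.ext
        rw [h1, heκ, hed, heW]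
        change _ = algebraMap F L (ι κ) * d * (β * wmon x α / a 0 ^ s)
        ring
      have h3 : σ eκ = eκ := by
        rw [heκ, σF, ← map_pow, ← map_pow, b.pow_q]
      have h4 : σ ed = ed := hfixσ d hd ed (by rw [hed])
      have h5 : σ eW = eW := σW eW (by rw [heW])
      rw [h2, map_mul, map_mul, h3, h4, h5]
  -- properties of automorphisms in terms of the embedding
  have hgfix : ∀ (g : fieldA b F t₀ x α →+* fieldA b F t₀ x α) (k : ℕ),
      (∀ (a : F) (e : fieldA b F t₀ x α), i e = algebraMap F M a → g e = e) →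
      (∀ j (e : fieldA b F t₀ x α), i e = x' j ^ b.N → g e = e) →
      (∀ e : fieldA b F t₀ x α, i e = mono x' y' (expB α) (expA α) →
        i (g e) = algebraMap F M (ι b.ζ) ^ k * mono x' y' (expB α) (expA α)) →
      (∀ e : fieldA b F t₀ x α, (e : L) ∈ fieldK b F t₀ x → g e = e) ∧
      (∀ e : fieldA b F t₀ x α, (e : L) = wmon x α →
          (g e : L) = algebraMap F L (ι b.ζ) ^ k * wmon x α) := by
    intro g k g1 g3 g4
    have hfix : ∀ e : fieldA b F t₀ x α, (e : L) ∈ fieldK b F t₀ x → g e = e :=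
      T4_fix b h g (fun d e he => g1 d e ((hc1 d e).mpr he)) (fun l => l.elim0)
        (fun j e he => g3 j e ((hx1 j e).mpr he)) (fun l => l.elim0) hUA
    refine ⟨hfix, ?_⟩
    intro e he
    have hβK : d * (β / a 0 ^ s) ∈ fieldK b F t₀ x := by
      have htK : ∀ z ∈ IntermediateField.adjoin F (Set.range t₀), z ∈ fieldK b F t₀ x := by
        intro z hz
        exact IntermediateField.adjoin.mono F _ _ Set.subset_union_left hz
      have h1 : Subfield.closure (Set.range (nX b.N a x)) ≤ (fieldK b F t₀ x).toSubfield := by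
        rw [Subfield.closure_le]
        rintro _ ⟨i, rfl⟩
        exact div_mem (mul_mem (htK _ (h.a_mem i)) (IntermediateField.subset_adjoin F _
          (Or.inr ⟨i, rfl⟩))) (htK _ (h.a_mem 0))
      exact mul_mem (h1 hd) (div_mem (htK _ hβ) (pow_mem (htK _ (h.a_mem 0)) _))
    have hc0 : d * (β / a 0 ^ s) ≠ 0 :=
      mul_ne_zero hd0 (div_ne_zero hβ0 (pow_ne_zero _ (h.a_ne 0)))
    let eκ : fieldA b F t₀ x α := algebraMap F _ (ι κ)
    let ec : fieldA b F t₀ x α := ⟨d * (β / a 0 ^ s), hKA hβK⟩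
    let eζ : fieldA b F t₀ x α := algebraMap F _ (ι b.ζ)
    have hικ : algebraMap F L (ι κ) ≠ 0 :=
      (_root_.map_ne_zero _).mpr ((_root_.map_ne_zero _).mpr hκ0)
    have hmono : i (eκ * ec * e) = mono x' y' (expB α) (expA α) := by
      rw [hW]
      change algebraMap F L (ι κ) * (d * (β / a 0 ^ s)) * (e : L) = _
      rw [he]
    have h1 := g4 _ hmono
    have h2 : i eζ = algebraMap F M (ι b.ζ) := (hc1 _ _).mpr rfl
    rw [← h2, ← hmono, ← map_pow, ← map_mul] at h1
    have h3 := i.injective h1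
    have h4 : g eκ = eκ := g1 (ι κ) _ ((hc1 _ _).mpr rfl)
    have h5 : g ec = ec := hfix _ hβK
    rw [map_mul, map_mul, h4, h5] at h3
    have h6 : eκ * ec ≠ 0 := by
      refine mul_ne_zero ?_ ?_
      · intro h0
        exact hικ (congrArg (fun z : fieldA b F t₀ x α => (z : L)) h0)
      · intro h0
        exact hc0 (congrArg (fun z : fieldA b F t₀ x α => (z : L)) h0)
    have h7 : g e = eζ ^ k * e := by
      apply mul_left_cancel₀ h6
      rw [h3]
      ring
    rw [h7]
    change algebraMap F L (ι b.ζ) ^ k * (e : L) = _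
    rw [he]
  -- automorphisms commute with the Frobenius
  have hcomm : ∀ (g : fieldA b F t₀ x α →+* fieldA b F t₀ x α) (k : ℕ),
      (∀ e : fieldA b F t₀ x α, (e : L) ∈ fieldK b F t₀ x → g e = e) →
      (∀ e : fieldA b F t₀ x α, (e : L) = wmon x α →
          (g e : L) = algebraMap F L (ι b.ζ) ^ k * wmon x α) → g.comp σ = σ.comp g := by
    intro g k hg1 hg2
    apply RingHom.eq_of_eqOn_of_field_closure_eq_top hcl
    have hgF : ∀ c : F, g (algebraMap F _ c) = algebraMap F _ c := fun c =>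
      hg1 _ ((fieldK b F t₀ x).algebraMap_mem c)
    rintro e (⟨c, rfl⟩ | (⟨i, he⟩ | he))
    · change g (σ _) = σ (g _)
      rw [hgF, σF, map_pow, hgF]
    · change g (σ _) = σ (g _)
      have h1 : g e = e := by
        refine hg1 e ?_
        rw [he]
        refine div_mem (mul_mem ?_ (IntermediateField.subset_adjoin F _ (Or.inr ⟨i, rfl⟩))) ?_
        · exact IntermediateField.adjoin.mono F _ _ Set.subset_union_left (h.a_mem i)
        · exact IntermediateField.adjoin.mono F _ _ Set.subset_union_left (h.a_mem 0)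
      rw [h1, σX i e he, h1]
    · change g (σ _) = σ (g _)
      rw [σW e he]
      obtain ⟨ew, hew⟩ : ∃ ew : fieldA b F t₀ x α, ew = ⟨wmon x α, hwm⟩ := ⟨_, rfl⟩
      have hcm : β / a 0 ^ s ∈ fieldK b F t₀ x :=
        div_mem (IntermediateField.adjoin.mono F _ _ Set.subset_union_left hβ)
          (pow_mem (IntermediateField.adjoin.mono F _ _ Set.subset_union_left (h.a_mem 0)) _)
      obtain ⟨ec, hec⟩ : ∃ ec : fieldA b F t₀ x α, ec = ⟨β / a 0 ^ s, hKA hcm⟩ := ⟨_, rfl⟩
      obtain ⟨eζ, heζ⟩ : ∃ eζ : fieldA b F t₀ x α, eζ = algebraMap F _ (ι b.ζ) := ⟨_, rfl⟩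
      have h1 : e = ec * ew := by
        apply Subtype.ext
        change (e : L) = (ec : L) * (ew : L)
        rw [he, hec, hew]
        change _ = β / a 0 ^ s * wmon x α
        ring
      have h2 : g ew = eζ ^ k * ew := by
        apply Subtype.ext
        rw [hg2 ew (by rw [hew]), hew, heζ]
        rfl
      have h3 : g ec = ec := hg1 ec (by rw [hec]; exact hcm)
      have h4 : g e = eζ ^ k * e := by
        rw [h1, map_mul, h2, h3]
        ring
      have h5 : σ eζ = eζ := by rw [heζ, σF, ← map_pow, ← map_pow, b.pow_q]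
      rw [h4, map_mul, map_pow, h5, σW e he]
  have hpow : ∀ (g : fieldA b F t₀ x α →+* fieldA b F t₀ x α), g.comp σ = σ.comp g →
      ∀ (k l : ℕ), (g ^ l).comp (σ ^ k) = (σ ^ k).comp (g ^ l) := by
    intro g hgσ k l
    have h1 : Commute g σ := hgσ
    exact (h1.pow_pow l k)
  have hnewk : ∀ (g : fieldA b F t₀ x α →+* fieldA b F t₀ x α) (k' : ℕ),
      (∀ e : fieldA b F t₀ x α, (e : L) ∈ fieldK b F t₀ x → g e = e) →
      (∀ e : fieldA b F t₀ x α, (e : L) = wmon x α →
          (g e : L) = algebraMap F L (ι b.ζ) ^ k' * wmon x α) → ¬ b.N ∣ k' → ∀ k,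
      ∑ l ∈ range b.N, KM.map m (g ^ l) (KM.map m (σ ^ k) z) = 0 := by
    intro g k' hg1 hg2 hk' k
    have h1 := hpow g (hcomm g k' hg1 hg2)
    have h2 : ∀ l ∈ range b.N, KM.map m (g ^ l) (KM.map m (σ ^ k) z) =
        KM.map m (σ ^ k) (KM.map m (g ^ l) z) := by
      intro l _
      rw [KM.map_map, KM.map_map, h1]
    rw [Finset.sum_congr rfl h2, ← map_sum, hnew g k' hg1 hg2 hk', map_zero]
  -- an automorphism
  obtain ⟨g, k', hg1, hg2, hk'⟩ : ∃ (g : fieldA b F t₀ x α →+* fieldA b F t₀ x α) (k' : ℕ),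
      (∀ e : fieldA b F t₀ x α, (e : L) ∈ fieldK b F t₀ x → g e = e) ∧
      (∀ e : fieldA b F t₀ x α, (e : L) = wmon x α →
          (g e : L) = algebraMap F L (ι b.ζ) ^ k' * wmon x α) ∧ ¬ b.N ∣ k' := by
    obtain ⟨f, hf⟩ := hP.exists_diag b ι (Pi.single ⟨0, hn0⟩ 1) 0
    have hζ : algebraMap F M (ι b.ζ) ^ b.N = 1 := by
      rw [← map_pow, ← map_pow, b.hζ.pow_eq_one, map_one, map_one]
    have hx : ∀ j, f (x' j ^ b.N) = x' j ^ b.N := by
      intro j
      rw [map_pow, hf.fx, mul_pow, ← pow_mul, mul_comm _ b.N, pow_mul, hζ, one_pow, one_mul]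
    obtain ⟨g, hg⟩ := hE.exists_restrict b (f := f)
      (fun a => by rw [hf.const]; exact hE.const a)
      (fun k => by rw [hf.ft]; exact hE.t_mem k)
      (fun j => by rw [hx]; exact hE.x_mem j)
      (by
        rw [hf.map_mono b ι]
        exact mul_mem (pow_mem (hE.const _) _) hE.w_mem)
    have hg' : ∀ e, f (i e) = i (g e) := fun e => congrArg (fun f : _ →+* M => f e) hg
    obtain ⟨h1, h2⟩ := hgfix g (wt (expB α) (expA α) (Pi.single ⟨0, hn0⟩ 1) 0)
      (fun a e he => by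
        apply i.injective
        rw [← hg', he, hf.const])
      (fun j e he => by
        apply i.injective
        rw [← hg', he, hx])
      (fun e he => by
        rw [← hg', he, hf.map_mono b ι])
    refine ⟨g, _, h1, h2, ?_⟩
    have h3 : wt (expB α) (expA α) (Pi.single ⟨0, hn0⟩ 1) 0 = expB α ⟨0, hn0⟩ := by
      unfold wt
      rw [Finset.sum_eq_single ⟨0, hn0⟩]
      · simp
      · intro j _ hj
        rw [Pi.single_eq_of_ne hj]
        simp
      · intro h4
        exact absurd (Finset.mem_univ _) h4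
    rw [h3]
    exact (hα.exp b _).1
  -- the class is killed by the polynomial
  have hsum : (b.N * D) • ∑ k ∈ range (P.natDegree + 1), P.coeff k • KM.map m (σ ^ k) z = 0 := by
    obtain ⟨S, hS⟩ : ∃ S, S = D • ∑ k ∈ range (P.natDegree + 1),
      P.coeff k • KM.map m (σ ^ k) z := ⟨_, rfl⟩
    have hgl : ∀ (l : ℕ) (c : F), (g ^ l) (algebraMap F (fieldA b F t₀ x α) c) =
        algebraMap F _ c := by
      intro l c
      induction l with
      | zero => rfl
      | succ l ih =>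
        rw [pow_succ]
        change (g ^ l) (g _) = _
        rw [hg1 _ ((fieldK b F t₀ x).algebraMap_mem c), ih]
    have h1 : ∀ l ∈ range b.N, KM.map m (g ^ l) S = S := by
      intro l _
      rw [hS]
      exact map_of_mem_cst hconst (hgl l)
    have h2 : ∑ l ∈ range b.N, KM.map m (g ^ l) S = 0 := by
      rw [hS]
      have h3 : ∀ l ∈ range b.N, KM.map m (g ^ l) (D • ∑ k ∈ range (P.natDegree + 1),
          P.coeff k • KM.map m (σ ^ k) z) = D • ∑ k ∈ range (P.natDegree + 1),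
          P.coeff k • KM.map m (g ^ l) (KM.map m (σ ^ k) z) := by
        intro l _
        rw [map_nsmul, map_sum]
        congr 1
        exact Finset.sum_congr rfl fun k _ => map_zsmul _ _ _
      rw [Finset.sum_congr rfl h3, ← Finset.smul_sum, Finset.sum_comm]
      have h4 : ∀ k ∈ range (P.natDegree + 1), ∑ l ∈ range b.N,
          P.coeff k • KM.map m (g ^ l) (KM.map m (σ ^ k) z) = 0 := by
        intro k _
        rw [← Finset.smul_sum, hnewk g k' hg1 hg2 hk' k, smul_zero]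
      rw [Finset.sum_congr rfl h4, Finset.sum_const_zero, smul_zero]
    rw [Finset.sum_congr rfl h1, Finset.sum_const, card_range] at h2
    rw [mul_smul, ← hS, h2]
  have hzz : ∑ k ∈ range (P.natDegree + 1), P.coeff k • KM.map m (σ ^ k) ((b.N * D) • z) = 0 := by
    rw [← hsum, Finset.smul_sum]
    refine Finset.sum_congr rfl fun k _ => ?_
    rw [map_nsmul, smul_comm]
  have hfinal := hmain m hwt hsp F M (fieldA b F t₀ x α) ι 0 t' x' y' hP i hE σ hrel
    ((b.N * D) • z) (hz.nsmul _) (by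
      intro k g' s' g1 g2 g3 g4 hk
      obtain ⟨h1, h2⟩ := hgfix g' s' g1 g3 g4
      have h3 := hnewk g' s' h1 h2 hk k
      have h4 : ∀ l ∈ range b.N, KM.map m (g' ^ l) (KM.map m (σ ^ k) ((b.N * D) • z)) =
          (b.N * D) • KM.map m (g' ^ l) (KM.map m (σ ^ k) z) := by
        intro l _
        rw [map_nsmul, map_nsmul]
      rw [Finset.sum_congr rfl h4, ← Finset.smul_sum, h3, smul_zero]) hzz
  rw [mul_assoc, mul_smul]
  exact hfinal

end UnrA.Fer
end
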