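import Pool.Agent.Lib.MP_859dd5_ag.S.DStm
import Pool.Agent.Lib.MP_859dd5_ag.Mg.G052
import Pool.Agent.Lib.MP_859dd5_ag.S.SysP

section

section

/-!
# Minimal exponents over a base with a Frobenius polynomial
-/

namespace UnrA.Fer

open UnrG

universe u v w z

open Polynomial Finset
open scoped Classical

variable {𝔽 : Type w} [Field 𝔽] [Fintype 𝔽] (b : Base 𝔽)

/-- The normalized powers of the coordinates are algebraically independent. -/
lemma fieldA_cover_ind {n : ℕ} {F L : Type u} [Field F] [Field L] [Algebra F L] {t₀ : Fin 0 → L}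
    {a x : Fin (n + 2) → L} (h : DiagData b t₀ (F := F) a x) (α : Fin (n + 2) → ZMod b.N) :
    AlgebraicIndependent F (fun i : Fin n => (⟨nX b.N a x i.castSucc.succ,
      T4_nX_mem b h α _⟩ : fieldA b F t₀ x α)) := by
  have ha0 := h.a_ne 0
  apply AlgebraicIndependent.of_comp (IntermediateField.val (fieldA b F t₀ x α))
  have h1 : AlgebraicIndependent F (fun i : Fin n => x i.castSucc.succ) :=
    h.ind.comp (Sum.inr : Fin n → Fin 0 ⊕ Fin n) Sum.inr_injective
  have hc : ∀ i, ∃ c : F, algebraMap F L c = a i / a 0 ∧ c ≠ 0 := by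
    intro i
    have h2 := div_mem (h.a_mem i) (h.a_mem 0)
    rw [Set.range_eq_empty, IntermediateField.adjoin_empty] at h2
    obtain ⟨c, hc⟩ := IntermediateField.mem_bot.mp h2
    refine ⟨c, hc, ?_⟩
    rintro rfl
    rw [map_zero] at hc
    exact div_ne_zero (h.a_ne i) ha0 hc.symm
  choose c hc hc0 using hc
  have h2 : AlgebraicIndependent F (fun i : Fin n =>
      Polynomial.aeval (x i.castSucc.succ) (C (c i.castSucc.succ) * X ^ b.N : F[X])) := by
    refine h1.polynomial_aeval_of_transcendental fun i => ?_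
    refine Polynomial.transcendental _ ?_ ?_
    · rw [natDegree_C_mul_X_pow _ _ (hc0 _)]
      exact b.N_pos.ne'
    · rw [leadingCoeff_C_mul_X_pow]
      exact mem_nonZeroDivisors_of_ne_zero (hc0 _)
  have h3 : (fun i : Fin n =>
      Polynomial.aeval (x i.castSucc.succ) (C (c i.castSucc.succ) * X ^ b.N : F[X])) =
      (IntermediateField.val (fieldA b F t₀ x α)) ∘
        (fun i : Fin n => (⟨nX b.N a x i.castSucc.succ, T4_nX_mem b h α _⟩ :
          fieldA b F t₀ x α)) := by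
    funext i
    rw [map_mul, aeval_C, map_pow, aeval_X, hc]
    change _ = nX b.N a x i.castSucc.succ
    unfold nX
    ring
  rw [h3] at h2
  exact h2

/-- The monomial subfield is the function field of the cover. -/
lemma fieldA_cover {n : ℕ} {F L : Type u} [Field F] [Field L] [Algebra F L] {t₀ : Fin 0 → L}
    {a x : Fin (n + 2) → L} (h : DiagData b t₀ (F := F) a x) (α : Fin (n + 2) → ZMod b.N)
    {β : L} (hβ : β ∈ IntermediateField.adjoin F (Set.range t₀))
    (hβN : ∏ i, a i ^ (α i).val = β ^ b.N) {s : ℕ} (hs : ∑ i, (α i).val = b.N * s) :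
    IsMonomialCover b.N F α
      (fun i => (⟨nX b.N a x i, T4_nX_mem b h α i⟩ : fieldA b F t₀ x α))
      (⟨β * wmon x α / a 0 ^ s, T4_W_mem b h α hβ s⟩ : fieldA b F t₀ x α) := by
  have ha0 := h.a_ne 0
  have hβ0 : β ≠ 0 := by
    intro h0
    rw [h0, zero_pow b.N_pos.ne'] at hβN
    exact (Finset.prod_ne_zero_iff.2 fun i _ => pow_ne_zero _ (h.a_ne i)) hβN
  refine ⟨?_, ?_, ?_, ?_, ?_⟩
  · apply Subtype.ext
    change nX b.N a x 0 = 1
    unfold nX
    rw [h.x_zero, one_pow, mul_one, div_self ha0]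
  · apply Subtype.ext
    rw [IntermediateField.coe_sum]
    change ∑ i, nX b.N a x i = 0
    unfold nX
    rw [← Finset.sum_div, h.rel, zero_div]
  · exact fieldA_cover_ind b h α
  · apply Subtype.ext
    have h5 : (((∏ i, ((⟨nX b.N a x i, T4_nX_mem b h α i⟩ : fieldA b F t₀ x α)) ^ (α i).val :
        fieldA b F t₀ x α)) : L) = ∏ i, nX b.N a x i ^ (α i).val := by
      rw [SubmonoidClass.coe_finsetProd]
      rfl
    change (β * wmon x α / a 0 ^ s) ^ b.N = ((∏ i, ((⟨nX b.N a x i, T4_nX_mem b h α i⟩ :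
      fieldA b F t₀ x α)) ^ (α i).val : fieldA b F t₀ x α) : L)
    rw [h5]
    unfold nX
    have h1 : ∀ i, (a i * x i ^ b.N / a 0) ^ (α i).val =
        a i ^ (α i).val * (x i ^ (α i).val) ^ b.N / a 0 ^ (α i).val := by
      intro i
      rw [div_pow, mul_pow, ← pow_mul, ← pow_mul, mul_comm b.N]
    rw [prod_congr rfl fun i _ => h1 i, prod_div_distrib, prod_mul_distrib, hβN, prod_pow,
      prod_pow_eq_pow_sum, hs, div_pow, mul_pow, ← pow_mul, mul_comm s]
    rfl
  · have hcl := T4_closure b h α hβ hβ0 s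
    rw [eq_top_iff]
    intro e _
    obtain ⟨R, hR⟩ : ∃ R, R = IntermediateField.adjoin F
      (Set.range (fun i => (⟨nX b.N a x i, T4_nX_mem b h α i⟩ : fieldA b F t₀ x α)) ∪
        {(⟨β * wmon x α / a 0 ^ s, T4_W_mem b h α hβ s⟩ : fieldA b F t₀ x α)}) := ⟨_, rfl⟩
    rw [← hR]
    have h1 : (⊤ : Subfield (fieldA b F t₀ x α)) ≤ R.toSubfield := by
      rw [← hcl, Subfield.closure_le]
      rintro y (⟨c, rfl⟩ | (⟨i, hy⟩ | hy))
      · exact R.algebraMap_mem c
      · have h2 : y = ⟨nX b.N a x i, T4_nX_mem b h α i⟩ := Subtype.ext hy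
        rw [h2, hR]
        exact IntermediateField.subset_adjoin _ _ (Or.inl ⟨i, rfl⟩)
      · have h2 : y = ⟨β * wmon x α / a 0 ^ s, T4_W_mem b h α hβ s⟩ := Subtype.ext hy
        rw [h2, hR]
        exact IntermediateField.subset_adjoin _ _ (Or.inr rfl)
    exact h1 (Subfield.mem_top e)

/-- Minimal exponents over a base with a Frobenius polynomial. -/
theorem vv_smul_eq_zero_of_cover {n : ℕ} (hn0 : 0 < n) (wd : ℕ) {w : ZMod b.N → ℤ}
    (hw : Weight b.N w) (P : ℤ[X]) {α : Fin (n + 2) → ZMod b.N} (hα : MinZero α)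
    (hn : ∀ χ : MulChar 𝔽 ℂ, orderOf χ = b.N → homEval P ((b.q : ℂ) ^ wd)
      ((-1) ^ n * ∏ j : Fin n, jacobiSum (χ ^ expB α j) (χ ^ expA α j)) ≠ 0) :
    ∃ C : ℕ, 0 < C ∧ ∀ (m : UFun.{u, z}) (_ : m.HasWeight 𝔽 b.q wd) (_ : m.Specializes)
      (k L k' : Type u) [Field k] [Field L] [Field k'] [Algebra k L] [Algebra k k']
      [FiniteDimensional k k'] (ι₀ : 𝔽 →+* k) (t₀ : Fin 0 → L)
      (a x : Fin (n + 2) → L) (_ : DiagData b t₀ (F := k) a x)
      (γ : k) (_ : algebraMap k L γ = ∏ l, a l ^ (α l).val) (β : k')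
      (_ : algebraMap k k' γ = β ^ b.N) (D₁ D : ℕ) (_ : FrobeniusKills m D₁ P b.q b.N k' α)
      (_ : (Module.finrank k k').factorial * D₁ ∣ D) (ξ : KM m L) (_ : Unr ξ),
      (C * D) • vv b ι₀ t₀ x w α ξ = 0 := by
  obtain ⟨C₀, hC₀, hmain⟩ := cover_kill.{u, w, z} b hn0 wd P hα hn
  refine ⟨C₀ * ((b.N ^ (n + 1)).factorial) ^ 2,
    Nat.mul_pos hC₀ (pow_pos (Nat.factorial_pos _) 2), ?_⟩
  intro m hwt hsp k L k' _ _ _ _ _ _ ι₀ t₀ a x h₀ γ hγ β hβN D₁ D hD₁ hD ξ hξ
  obtain ⟨L', _, _, _, _, hst, hst', hfd, hle, hcl⟩ := exists_compositum (k := k) (E := L)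
    (k' := k')
  have hcomm : ∀ c : k, algebraMap L L' (algebraMap k L c) = algebraMap k' L' (algebraMap k k' c) :=
    fun c => by
      rw [← IsScalarTower.algebraMap_apply, ← IsScalarTower.algebraMap_apply]
  obtain ⟨i₀, hi₀⟩ : ∃ i₀ : L →+* L', i₀ = algebraMap L L' := ⟨_, rfl⟩
  obtain ⟨t, ht⟩ : ∃ t : Fin 0 → L', t = Fin.elim0 := ⟨_, rfl⟩
  have hk' : ∀ z : k', algebraMap k' L' z ∈ IntermediateField.adjoin k' (Set.range t) :=
    fun z => IntermediateField.algebraMap_mem _ z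
  have hkk : ∀ c : k, i₀ (algebraMap k L c) ∈ IntermediateField.adjoin k' (Set.range t) := by
    intro c
    rw [hi₀, hcomm]
    exact hk' _
  have hX : AlgebraicIndependent k (fun i : Fin n => x i.castSucc.succ) :=
    h₀.ind.comp (Sum.inr : Fin n → Fin 0 ⊕ Fin n) Sum.inr_injective
  have h : DiagData b t (F := k') (fun l => i₀ (a l)) (fun l => i₀ (x l)) := by
    refine ⟨?_, ?_, ?_, ?_, ?_, ?_⟩
    · intro l
      have h1 := h₀.a_mem l
      rw [Set.range_eq_empty, IntermediateField.adjoin_empty] at h1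
      obtain ⟨c, hc⟩ := IntermediateField.mem_bot.mp h1
      rw [← hc]
      exact hkk c
    · exact fun l => (map_ne_zero i₀).2 (h₀.a_ne l)
    · rw [h₀.x_zero, map_one]
    · rw [← map_zero i₀, ← h₀.rel, map_sum]
      exact Finset.sum_congr rfl fun l _ => by rw [map_mul, map_pow]
    · have h1 : AlgebraicIndependent k (fun j : Fin n => algebraMap L L' (x j.castSucc.succ)) :=
        hX.map' (f := IsScalarTower.toAlgHom k L L') (algebraMap L L').injective
      have halg : Algebra.IsAlgebraic k k' := Algebra.IsAlgebraic.of_finite k k'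
      have h2 : AlgebraicIndependent k' (fun j : Fin n => algebraMap L L' (x j.castSucc.succ)) :=
        h1.extendScalars k'
      have h3 := h2.comp (Equiv.emptySum (Fin 0) (Fin n)) (Equiv.injective _)
      have h4 : (fun j : Fin n => algebraMap L L' (x j.castSucc.succ)) ∘
          (Equiv.emptySum (Fin 0) (Fin n)) =
          Sum.elim t (fun i : Fin n => i₀ (x i.castSucc.succ)) := by
        funext i
        rcases i with i | i
        · exact i.elim0
        · rw [hi₀]
          rfl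
      rw [h4] at h3
      exact h3
    · rw [eq_top_iff]
      intro y _
      obtain ⟨R, hR⟩ : ∃ R, R = IntermediateField.adjoin k' (Set.range t ∪
          (Set.range fun l => i₀ (x l))) := ⟨_, rfl⟩
      rw [← hR]
      have hER : ∀ z : L, algebraMap L L' z ∈ R := by
        intro z
        have h1 := congrArg IntermediateField.toSubfield h₀.gen
        rw [IntermediateField.adjoin_toSubfield, IntermediateField.top_toSubfield] at h1
        have h2 : (⊤ : Subfield L) ≤ R.toSubfield.comap (algebraMap L L') := by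
          rw [← h1, Subfield.closure_le]
          rintro y (⟨c, rfl⟩ | (⟨i, rfl⟩ | ⟨i, rfl⟩))
          · change algebraMap L L' (algebraMap k L c) ∈ R
            rw [hcomm]
            exact R.algebraMap_mem _
          · exact i.elim0
          · change algebraMap L L' (x i) ∈ R
            rw [hR]
            refine IntermediateField.subset_adjoin _ _ (Or.inr ⟨i, ?_⟩)
            rw [hi₀]
        exact h2 (Subfield.mem_top z)
      have h3 : (⊤ : Subfield L') ≤ R.toSubfield := by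
        rw [← hcl, Subfield.closure_le]
        rintro _ (⟨c, rfl⟩ | ⟨c, rfl⟩)
        · exact hER c
        · exact R.algebraMap_mem c
      exact h3 (Subfield.mem_top y)
  obtain ⟨ι, hι⟩ : ∃ ι : 𝔽 →+* k', ι = (algebraMap k k').comp ι₀ := ⟨_, rfl⟩
  have hζ : i₀ (algebraMap k L (ι₀ b.ζ)) = algebraMap k' L' (ι b.ζ) := by
    rw [hi₀, hcomm, hι]
    rfl
  have hβN' : ∏ l, (fun l => i₀ (a l)) l ^ (α l).val = (algebraMap k' L' β) ^ b.N := by
    rw [← map_pow, ← hβN, ← hcomm, hγ, ← hi₀, map_prod]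
    exact Finset.prod_congr rfl fun l _ => (map_pow _ _ _).symm
  obtain ⟨s, hs⟩ : ∃ s : ℕ, ∑ i, (α i).val = b.N * s := by
    have h1 : ((∑ i, (α i).val : ℕ) : ZMod b.N) = 0 := by
      have : NeZero b.N := ⟨b.N_pos.ne'⟩
      rw [Nat.cast_sum, ← hα.1]
      exact sum_congr rfl fun i _ => ZMod.natCast_zmod_val _
    exact (ZMod.natCast_eq_zero_iff _ _).1 h1
  obtain ⟨φ, ⟨hφF, hφX, hφW⟩, hφ⟩ := hD₁ _ _ _ (fieldA_cover b h α (hk' β) hβN' hs)
  obtain ⟨B, z₀, hB0, hB, hzmap, hzunr, hznew⟩ := exists_descent b (ι := ι₀) h₀ hw α hξ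
  obtain ⟨jj, hjj⟩ := D12_hom b (t₀ := t₀) (x := x) (t := t) i₀ hkk α
  have hwm : i₀ (wmon x α) = wmon (fun l => i₀ (x l)) α := by
    unfold wmon
    rw [map_prod]
    exact Finset.prod_congr rfl fun l _ => map_pow _ _ _
  have hKt : ∀ e : fieldA b k t₀ x α, (e : L) ∈ fieldK b k t₀ x →
      (jj e : L') ∈ fieldK b k' t (fun l => i₀ (x l)) := by
    intro e he
    rw [hjj]
    have hle : IntermediateField.adjoin k' (Set.range t) ≤ fieldK b k' t (fun l => i₀ (x l)) :=
      IntermediateField.adjoin.mono k' _ _ Set.subset_union_left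
    have h1 : (fieldK b k t₀ x).toSubfield ≤
        ((fieldK b k' t (fun l => i₀ (x l))).toSubfield).comap i₀ := by
      conv_lhs => unfold fieldK
      rw [IntermediateField.adjoin_toSubfield, Subfield.closure_le]
      rintro y (⟨c, rfl⟩ | (⟨l, rfl⟩ | ⟨l, rfl⟩))
      · exact hle (hkk c)
      · exact l.elim0
      · change i₀ (x l ^ b.N) ∈ fieldK b k' t (fun l => i₀ (x l))
        rw [map_pow]
        exact IntermediateField.subset_adjoin k' _ (Or.inr ⟨l, rfl⟩)
    exact h1 he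
  have hz0 := hmain m hwt hsp k' L' ι t _ _ h (algebraMap k' L' β) (hk' β) hβN' s hs φ hφF
    (fun i e he => by
      have h2 : e = ⟨nX b.N (fun l => i₀ (a l)) (fun l => i₀ (x l)) i, T4_nX_mem b h α i⟩ :=
        Subtype.ext he
      rw [h2]
      exact hφX i)
    (fun e he => by
      have h2 : e = ⟨_, T4_W_mem b h α (hk' β) s⟩ := Subtype.ext he
      rw [h2]
      exact hφW) D₁ (KM.map m jj z₀) (hzunr.map jj)
    (fun g k'' hg1 hg2 hk => by
      obtain ⟨g₀, hg₀, hg₀fix, hg₀w⟩ := D12_restrict b ι₀ hjj (g' := g) (s := k'')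
        (fun e he => hg1 _ (hKt e he)) (fun e he => by
          rw [hg2 (jj e) (by rw [hjj, he, hwm]), map_mul, map_pow, hζ, hwm])
      have h1 := hznew g₀ k'' hg₀fix hg₀w hk
      have hpow : ∀ l : ℕ, (g ^ l).comp jj = jj.comp (g₀ ^ l) := by
        intro l
        induction l with
        | zero => rfl
        | succ l ih =>
          rw [pow_succ, pow_succ]
          change ((g ^ l).comp g).comp jj = jj.comp ((g₀ ^ l).comp g₀)
          rw [RingHom.comp_assoc, hg₀, ← RingHom.comp_assoc, ih, RingHom.comp_assoc]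
      have h2 : ∀ l ∈ range b.N, KM.map m (g ^ l) (KM.map m jj z₀) =
          KM.map m jj (KM.map m (g₀ ^ l) z₀) := by
        intro l _
        rw [KM.map_map, KM.map_map, hpow]
      rw [Finset.sum_congr rfl h2, ← map_sum, h1, map_zero])
    (hφ _ (hzunr.map jj))
  have h1 : (C₀ * D₁ * B ^ 2) • KM.map m i₀ (vv b ι₀ t₀ x w α ξ) = 0 := by
    rw [mul_smul, ← map_nsmul (KM.map m i₀), ← hzmap, KM.map_map]
    have h2 : i₀.comp (algebraMap (fieldA b k t₀ x α) L) =
        (algebraMap (fieldA b k' t (fun l => i₀ (x l)) α) L').comp jj := by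
      ext1 e
      exact (hjj e).symm
    rw [h2, ← KM.map_map, ← map_nsmul, hz0, map_zero]
  have h2 : KM.map m (algebraMap L L') ((C₀ * D₁ * B ^ 2) • vv b ι₀ t₀ x w α ξ) = 0 := by
    rw [map_nsmul, ← hi₀]
    exact h1
  have h3 := finrank_smul_eq_zero (m := m) (Module.finrank L L') (K := L) (L := L') rfl h2
  obtain ⟨e₁, he₁⟩ := Nat.dvd_factorial hB0 hB
  obtain ⟨e₂, he₂⟩ := Nat.dvd_factorial (Module.finrank_pos (R := L) (M := L')) hle
  obtain ⟨e₃, he₃⟩ := hD
  have h4 : C₀ * ((b.N ^ (n + 1)).factorial) ^ 2 * D =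
      (e₁ ^ 2 * e₂ * e₃) * (Module.finrank L L' * (C₀ * D₁ * B ^ 2)) := by
    rw [he₃, he₁, he₂]
    ring
  rw [h4, mul_smul, mul_smul (Module.finrank L L'), h3, smul_zero]

end UnrA.Fer
end

section

/-!
# The main theorem over a field of constants with roots of unity, with Frobenius polynomials
-/

namespace UnrA.Fer

open UnrG

universe u v w z

open Polynomial Finset
open scoped Classical

/-- The twist becomes trivial over a finite extension of the base for which a polynomial in the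
Frobenius kills the classes. -/
def FrobSplits (A : UFun.{u, z}) (D : ℕ) (P : ℤ[X]) (q N : ℕ) (k : Type u) {L : Type u} [Field k]
    [Field L] [Algebra k L] {n : ℕ} (α : Fin (n + 2) → ZMod N) (c : L) : Prop :=
  ∃ (k' : Type u) (_ : Field k') (_ : Algebra k k') (_ : FiniteDimensional k k') (γ : k)
    (β : k') (D₁ : ℕ), algebraMap k L γ = c ∧ algebraMap k k' γ = β ^ N ∧
      (Module.finrank k k').factorial * D₁ ∣ D ∧ FrobeniusKills A D₁ P q N k' α

variable {𝔽 : Type w} [Field 𝔽] [Fintype 𝔽] (b : Base 𝔽)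

/-- The condition on the Frobenius eigenvalues. -/
def HomCond (wd : ℕ) (P : ℤ[X]) {n : ℕ} (α : Fin (n + 2) → ZMod b.N) : Prop :=
  ∀ χ : MulChar 𝔽 ℂ, orderOf χ = b.N → homEval P ((b.q : ℂ) ^ wd)
    ((-1) ^ n * ∏ j : Fin n, jacobiSum (χ ^ expB α j) (χ ^ expA α j)) ≠ 0

/-- **Main theorem** over a field of constants with roots of unity. -/
theorem diag_core_poly (n wd : ℕ) {C' : ℕ} (hC'0 : 0 < C')
    (P : (Fin (n + 2) → ZMod b.N) → ℤ[X]) :
    ∃ E : ℕ, 0 < E ∧ ∀ (m : UFun.{u, z}) (_ : m.HasWeight 𝔽 b.q wd)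
      (_ : m.Specializes) (κ k L : Type u) [Field κ] [Field k] [Field L] [Algebra κ k]
      [Algebra k L] (ι : 𝔽 →+* κ) (_ : ∀ c : κ, c ^ b.q = c)
      (t₀ : Fin 0 → L) (a x : Fin (n + 2) → L) (_ : DiagData b t₀ (F := k) a x) (D : ℕ)
      (H : Set (Fin (n + 2) → ZMod b.N))
      (_ : ∀ α : Fin (n + 2) → ZMod b.N, MinZero α → (∀ h ∈ H, pair α h = 0) →
        (SplitsOver b.N κ (k := k) D (∏ l, a l ^ (α l).val) ∧ JacCond b wd α) ∨
        KillsC m C' k (fieldA b k t₀ x α) ∨ KillsC m D k (fieldA b k t₀ x α) ∨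
        (0 < n ∧ HomCond b wd (P α) α ∧
          FrobSplits m D (P α) b.q b.N k α (∏ l, a l ^ (α l).val)))
      (ξ : KM m L) (_ : Unr ξ)
      (_ : ∀ h ∈ H, ∃ f : L →+* L,
        UnrG.IsAdm b ((algebraMap κ k).comp ι) t₀ x h f ∧ KM.map m f ξ = ξ),
      (E * D) • ξ ∈ cst m k L := by
  obtain ⟨w, hw⟩ := exists_weight b.two_le
  have key1 : ∀ α : Fin (n + 2) → ZMod b.N, ∃ C : ℕ, 0 < C ∧ (MinZero α → JacCond b wd α →
      ∀ (m : UFun.{u, z}) (_ : m.HasWeight 𝔽 b.q wd) (_ : m.Specializes)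
      (κ k L k' : Type u) [Field κ] [Field k] [Field L] [Field k'] [Algebra κ k] [Algebra k L]
      [Algebra k k'] [Algebra κ k'] [IsScalarTower κ k k'] [FiniteDimensional k k']
      (ι : 𝔽 →+* κ) (_ : ∀ c : κ, c ^ b.q = c) (t₀ : Fin 0 → L)
      (a x : Fin (n + 2) → L) (_ : DiagData b t₀ (F := k) a x) (s : ℕ) (τ : Fin s → k')
      (_ : AlgebraicIndependent κ τ) (_ : IntermediateField.adjoin κ (Set.range τ) = ⊤)
      (γ : k) (_ : algebraMap k L γ = ∏ l, a l ^ (α l).val) (β : k')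
      (_ : algebraMap k k' γ = β ^ b.N) (D : ℕ) (_ : (Module.finrank k k').factorial ∣ D)
      (ξ : KM m L) (_ : Unr ξ),
      (C * D) • vv b ((algebraMap κ k).comp ι) t₀ x w α ξ = 0) := by
    intro α
    by_cases hα : MinZero α ∧ JacCond b wd α
    · obtain ⟨C, hC, hC'⟩ := vv_smul_eq_zero_of_min.{u, w, z} b wd hw hα.1 hα.2
      exact ⟨C, hC, fun _ _ => hC'⟩
    · exact ⟨1, one_pos, fun h h' => absurd ⟨h, h'⟩ hα⟩
  choose C hC0 hC using key1
  have key2 : ∀ α : Fin (n + 2) → ZMod b.N, ∃ C : ℕ, 0 < C ∧ (MinZero α → 0 < n →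
      HomCond b wd (P α) α → ∀ (m : UFun.{u, z}) (_ : m.HasWeight 𝔽 b.q wd) (_ : m.Specializes)
      (k L k' : Type u) [Field k] [Field L] [Field k'] [Algebra k L] [Algebra k k']
      [FiniteDimensional k k'] (ι₀ : 𝔽 →+* k) (t₀ : Fin 0 → L)
      (a x : Fin (n + 2) → L) (_ : DiagData b t₀ (F := k) a x)
      (γ : k) (_ : algebraMap k L γ = ∏ l, a l ^ (α l).val) (β : k')
      (_ : algebraMap k k' γ = β ^ b.N) (D₁ D : ℕ)
      (_ : FrobeniusKills m D₁ (P α) b.q b.N k' α)
      (_ : (Module.finrank k k').factorial * D₁ ∣ D) (ξ : KM m L) (_ : Unr ξ),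
      (C * D) • vv b ι₀ t₀ x w α ξ = 0) := by
    intro α
    by_cases hα : MinZero α ∧ 0 < n ∧ HomCond b wd (P α) α
    · obtain ⟨C, hC, hC'⟩ := vv_smul_eq_zero_of_cover.{u, w, z} b hα.2.1 wd hw (P α) hα.1
        hα.2.2
      exact ⟨C, hC, fun _ _ _ => hC'⟩
    · exact ⟨1, one_pos, fun h h' h'' => absurd ⟨h, h', h''⟩ hα⟩
  choose B hB0 hB using key2
  refine ⟨b.N ^ (n + 1) * (b.N * ((b.N ^ (n + 1)).factorial) ^ 2 *
      ((∏ α, C α) * (∏ α, B α) * C')),
    Nat.mul_pos (pow_pos b.N_pos _) (Nat.mul_pos (Nat.mul_pos b.N_pos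
      (pow_pos (Nat.factorial_pos _) 2)) (Nat.mul_pos (Nat.mul_pos
        (Finset.prod_pos fun α _ => hC0 α) (Finset.prod_pos fun α _ => hB0 α)) hC'0)),
    ?_⟩
  intro m hwt hs κ k L _ _ _ _ _ ι hκ t₀ a x h D H hH ξ hξ hinv
  have hsum := sum_vv b (ι := (algebraMap κ k).comp ι) h hw ξ
  have h1 : b.N ^ (n + 1) • ξ = ∑ e : Fin (n + 1) → ZMod b.N,
      vv b ((algebraMap κ k).comp ι) t₀ x w (Fin.cons (-∑ j, e j) e) ξ := by
    rw [hsum]
    rw [← Nat.cast_pow, natCast_zsmul]
  have h2 : ∀ A B D : ℕ, A * B * D = B * D * A := fun A B D => by ring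
  rw [h2, mul_smul, h1, Finset.smul_sum]
  refine sum_mem fun e _ => ?_
  obtain ⟨α, hα⟩ : ∃ α : Fin (n + 2) → ZMod b.N, α = Fin.cons (-∑ j, e j) e := ⟨_, rfl⟩
  rw [← hα]
  have hα0 : ∑ i, α i = 0 := by
    rw [hα, Fin.sum_cons]
    ring
  obtain ⟨R, hR⟩ : ∃ R, R = ((b.N ^ (n + 1)).factorial) ^ 2 := ⟨_, rfl⟩
  obtain ⟨G, hG⟩ := Finset.dvd_prod_of_mem C (Finset.mem_univ α)
  obtain ⟨G', hG'⟩ := Finset.dvd_prod_of_mem B (Finset.mem_univ α)
  rw [← hR, hG, hG']
  by_cases hmin : MinZero α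
  · by_cases hp : ∀ h ∈ H, pair α h = 0
    · rcases hH α hmin hp with ⟨⟨k', _, _, _, _, _, s, τ, γ, β, h3, h4, h5, h6, h7⟩, hjac⟩ |
        hbal | hkill | ⟨hn0, hhom, k', _, _, _, γ, β, D₁, h5, h6, h7, h8⟩
      · have h8 := hC α hmin hjac m hwt hs κ k L k' ι hκ t₀ a x h s τ h3 h4 γ h5 β h6 D h7 ξ hξ
        have h9 : b.N * R * (C α * G * (B α * G') * C') * D =
          b.N * R * C' * G * (B α * G') * (C α * D) := by ring
        rw [h9, mul_smul, h8, smul_zero]
        exact zero_mem _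
      · have h8 := vv_mem_cst_of_sub b (ι := (algebraMap κ k).comp ι) h w _ (fieldK_le_fieldA b α)
          hbal (pair_eq_zero_of_fieldA b h α) hξ
        rw [← hR] at h8
        refine smul_mem_cst_of_dvd ⟨b.N * C α * G * (B α * G') * D, ?_⟩ h8
        ring
      · have h8 := vv_mem_cst_of_sub b (ι := (algebraMap κ k).comp ι) h w _ (fieldK_le_fieldA b α) hkill
          (pair_eq_zero_of_fieldA b h α) hξ
        rw [← hR] at h8
        refine smul_mem_cst_of_dvd ⟨b.N * (C α * G * (B α * G') * C'), ?_⟩ h8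
        ring
      · have h9 := hB α hmin hn0 hhom m hwt hs k L k' ((algebraMap κ k).comp ι) t₀ a x h γ h5 β
          h6 D₁ D h8 h7 ξ hξ
        have h10 : b.N * R * (C α * G * (B α * G') * C') * D =
          b.N * R * C' * (C α * G) * G' * (B α * D) := by ring
        rw [h10, mul_smul, h9, smul_zero]
        exact zero_mem _
    · push Not at hp
      obtain ⟨h₀, hh₀, hk⟩ := hp
      obtain ⟨f, hf, hfξ⟩ := hinv h₀ hh₀
      have h8 := vv_eq_zero_of_inv b h hw hf hk hfξ
      have h9 : b.N * R * (C α * G * (B α * G') * C') * D =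
        R * (C α * G * (B α * G') * C') * D * b.N := by ring
      rw [h9, mul_smul, h8, smul_zero]
      exact zero_mem _
  · have h8 := vv_mem_cst_of_not_min b (ι := (algebraMap κ k).comp ι) h w hα0 hmin hξ
    rw [← hR] at h8
    refine smul_mem_cst_of_dvd ⟨b.N * (C α * G * (B α * G') * C') * D, ?_⟩ h8
    ring

end UnrA.Fer
end

section

/-!
# The monomial subfields of diagonal hypersurfaces as cyclic covers of a linear relation
-/

namespace UnrA.Fer

open UnrG

universe u v w z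

open Polynomial Finset
open scoped Classical

variable {𝔽 : Type w} [Field 𝔽] [Fintype 𝔽] (b : Base 𝔽)

/-- The monomial subfield is generated by an `N`-th root of a monomial in the terms of a linear
relation. -/
theorem fieldA_sys {n : ℕ} {F L : Type u} [Field F] [Field L] [Algebra F L] {t₀ : Fin 0 → L}
    {a x : Fin (n + 2) → L} (h : DiagData b t₀ (F := F) a x) {α : Fin (n + 2) → ZMod b.N}
    (hα : ∑ i, α i = 0) :
    ∃ (δ w : fieldA b F t₀ x α) (K₀ : IntermediateField F (fieldA b F t₀ x α)),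
      SysD (d := n) (l := 0) b.N (Fin.elim0 : Fin 0 → fieldA b F t₀ x α)
        (fun i => (⟨nX b.N a x i, T4_nX_mem b h α i⟩ : fieldA b F t₀ x α)) α
        (Fin.elim0 : Fin 0 → fieldA b F t₀ x α) Fin.elim0 Fin.elim0 δ w K₀ := by
  have ha0 := h.a_ne 0
  have hN : NeZero b.N := ⟨b.N_pos.ne'⟩
  obtain ⟨s, hs⟩ : ∃ s : ℕ, ∑ i, (α i).val = b.N * s := by
    have h1 : ((∑ i, (α i).val : ℕ) : ZMod b.N) = 0 := by
      rw [Nat.cast_sum, ← hα]
      exact sum_congr rfl fun i _ => ZMod.natCast_zmod_val _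
    exact (ZMod.natCast_eq_zero_iff _ _).1 h1
  have hc : ∀ i, ∃ c : F, algebraMap F L c = a i ∧ c ≠ 0 := by
    intro i
    have h2 := h.a_mem i
    rw [Set.range_eq_empty, IntermediateField.adjoin_empty] at h2
    obtain ⟨c, hc⟩ := IntermediateField.mem_bot.mp h2
    refine ⟨c, hc, ?_⟩
    rintro rfl
    rw [map_zero] at hc
    exact h.a_ne i hc.symm
  choose c hc hc0 using hc
  obtain ⟨Y, hY⟩ : ∃ Y : Fin (n + 2) → fieldA b F t₀ x α, Y = fun i =>
    (⟨nX b.N a x i, T4_nX_mem b h α i⟩ : fieldA b F t₀ x α) := ⟨_, rfl⟩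
  have hYv : ∀ i, (Y i : L) = nX b.N a x i := fun i => by rw [hY]
  have hwA : wmon x α ∈ fieldA b F t₀ x α := IntermediateField.subset_adjoin F _ (Or.inr rfl)
  obtain ⟨wA, hw⟩ : ∃ wA : fieldA b F t₀ x α, wA = ⟨wmon x α, hwA⟩ := ⟨_, rfl⟩
  rw [← hY]
  have hYne : ∀ i, Y i ≠ 0 := by
    intro i h0
    have h1 := congrArg (fun z : fieldA b F t₀ x α => (z : L)) h0
    rw [hYv] at h1
    exact div_ne_zero (mul_ne_zero (h.a_ne i) (pow_ne_zero _ (h.x_ne b i))) ha0 h1
  have hY0 : Y 0 = 1 := by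
    apply Subtype.ext
    rw [hYv]
    change nX b.N a x 0 = 1
    unfold nX
    rw [h.x_zero, one_pow, mul_one, div_self ha0]
  obtain ⟨K₀, hK₀⟩ : ∃ K₀ : IntermediateField F (fieldA b F t₀ x α),
      K₀ = IntermediateField.adjoin F (Set.range (Fin.elim0 : Fin 0 → fieldA b F t₀ x α) ∪
        {z | ∃ i j, z = Y i / Y j} ∪ Set.range (Fin.elim0 : Fin 0 → fieldA b F t₀ x α)) :=
    ⟨_, rfl⟩
  have hYm : ∀ i, Y i ∈ K₀ := by
    intro i
    rw [hK₀]
    refine IntermediateField.subset_adjoin _ _ (Or.inl (Or.inr ⟨i, 0, ?_⟩))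
    rw [hY0, div_one]
  refine ⟨algebraMap F _ (∏ i, c i ^ (α i).val)⁻¹, wA, K₀, ?_⟩
  exact
    { Y_ne := hYne
      Y_mem := hYm
      sum_Y := by
        apply Subtype.ext
        rw [IntermediateField.coe_sum]
        change ∑ i, ((Y i : fieldA b F t₀ x α) : L) = 0
        rw [Finset.sum_congr rfl fun i _ => hYv i]
        unfold nX
        rw [← Finset.sum_div, h.rel, zero_div]
      sum_e := hα
      x_ne := fun j => j.elim0
      x_ne_one := fun j => j.elim0
      δ_mem := IntermediateField.algebraMap_mem _ _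
      δ_ne := by
        rw [Ne, map_eq_zero, inv_eq_zero]
        exact Finset.prod_ne_zero_iff.2 fun i _ => pow_ne_zero _ (hc0 i)
      K₀_eq := hK₀
      top := by
        obtain ⟨R, hR⟩ : ∃ R, R = K₀ ⊔ IntermediateField.adjoin F {wA} := ⟨_, rfl⟩
        rw [← hR, eq_top_iff]
        intro e _
        have h1 : (fieldA b F t₀ x α).toSubfield ≤
            R.toSubfield.map (algebraMap (fieldA b F t₀ x α) L) := by
          conv_lhs => unfold fieldA
          rw [IntermediateField.adjoin_toSubfield, Subfield.closure_le]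
          rintro y (⟨c', rfl⟩ | ((⟨l, rfl⟩ | ⟨l, rfl⟩) | hy))
          · exact ⟨algebraMap F _ c', R.algebraMap_mem c', rfl⟩
          · exact l.elim0
          · refine ⟨Y l * algebraMap F _ (c 0) / algebraMap F _ (c l), ?_, ?_⟩
            · have h2 : Y l ∈ R := by
                rw [hR]
                exact (le_sup_left : K₀ ≤ _) (hYm l)
              exact div_mem (mul_mem h2 (R.algebraMap_mem _)) (R.algebraMap_mem _)
            · rw [map_div₀, map_mul]
              change ((Y l : fieldA b F t₀ x α) : L) * algebraMap F L (c 0) /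
                algebraMap F L (c l) = x l ^ b.N
              rw [hYv, hc, hc]
              unfold nX
              field_simp [h.a_ne 0, h.a_ne l]
          · rw [Set.mem_singleton_iff] at hy
            subst hy
            refine ⟨wA, ?_, by rw [hw]; rfl⟩
            rw [hR]
            exact (le_sup_right : IntermediateField.adjoin F {wA} ≤ _)
              (IntermediateField.mem_adjoin_simple_self F wA)
        obtain ⟨e', he', hee⟩ := h1 e.2
        have h4 : e' = e := Subtype.ext hee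
        rw [← h4]
        exact he'
      w_pow := by
        refine ⟨algebraMap F _ (c 0) ^ s, pow_mem (K₀.algebraMap_mem _) _,
          pow_ne_zero _ ((_root_.map_ne_zero _).2 (hc0 0)), ?_⟩
        apply Subtype.ext
        have h5 : (((∏ i, Y i ^ (α i).val : fieldA b F t₀ x α)) : L) =
            ∏ i, nX b.N a x i ^ (α i).val := by
          rw [SubmonoidClass.coe_finsetProd]
          exact Finset.prod_congr rfl fun i _ => by rw [SubmonoidClass.coe_pow, hYv]
        have h6 : ((∏ j : Fin 0, ((Fin.elim0 j : fieldA b F t₀ x α) ^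
            ((Fin.elim0 j : ZMod b.N)).val * (1 - (Fin.elim0 j : fieldA b F t₀ x α)) ^
              ((Fin.elim0 j : ZMod b.N)).val)) : fieldA b F t₀ x α) = 1 := by
          rw [Finset.univ_eq_empty, Finset.prod_empty]
        rw [h6, mul_one]
        change ((wA : L)) ^ b.N = (algebraMap F L (c 0) ^ s) ^ b.N *
          (algebraMap F L (∏ i, c i ^ (α i).val)⁻¹ *
            ((∏ i, Y i ^ (α i).val : fieldA b F t₀ x α) : L))
        rw [h5, hw, map_inv₀, map_prod, hc]
        have h7 : ∏ i, algebraMap F L (c i ^ (α i).val) = ∏ i, a i ^ (α i).val :=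
          Finset.prod_congr rfl fun i _ => by rw [map_pow, hc]
        rw [h7]
        unfold nX
        have h1 : ∀ i, (a i * x i ^ b.N / a 0) ^ (α i).val =
            a i ^ (α i).val * (x i ^ (α i).val) ^ b.N / a 0 ^ (α i).val := by
          intro i
          rw [div_pow, mul_pow, ← pow_mul, ← pow_mul, mul_comm b.N]
        rw [prod_congr rfl fun i _ => h1 i, prod_div_distrib, prod_mul_distrib, prod_pow,
          prod_pow_eq_pow_sum, hs]
        have h8 : ∏ i, a i ^ (α i).val ≠ 0 :=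
          Finset.prod_ne_zero_iff.2 fun i _ => pow_ne_zero _ (h.a_ne i)
        have h9 : a 0 ^ (b.N * s) ≠ 0 := pow_ne_zero _ ha0
        change (∏ i, x i ^ (α i).val) ^ b.N = _
        rw [← pow_mul, mul_comm s]
        field_simp
      ind := by
        have h1 := (fieldA_cover_ind b h α)
        exact ⟨_, h1.comp (Fin.cast (by omega)) (Fin.cast_injective _)⟩ }

end UnrA.Fer
end

section

/-!
# Constants for paired exponents
-/

namespace UnrA.Fer

open UnrG

universe u v w z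

open Polynomial Finset
open scoped Classical

/-- If `-1` is a power of `p` then all exponents are balanced. -/
lemma isBalancedSum_of_neg_one {p N k t : ℕ} (ht : N ∣ p ^ t + 1) (α : Fin k → ZMod N) :
    IsBalancedSum p α := by
  have h1 : (p : ZMod N) ^ t = -1 := by
    rw [eq_neg_iff_add_eq_zero]
    have h2 := (ZMod.natCast_eq_zero_iff (p ^ t + 1) N).2 ht
    push_cast at h2
    exact h2
  intro c _
  congr 1
  apply congrArg (fun P : Fin k → Prop => {i // P i})
  funext i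
  apply propext
  constructor
  · rintro ⟨s, hs⟩
    exact ⟨t + s, by rw [pow_add, mul_assoc, hs, h1, neg_one_mul]⟩
  · rintro ⟨s, hs⟩
    exact ⟨t + s, by rw [pow_add, mul_assoc, hs, h1, neg_one_mul, neg_neg]⟩

/-- Constants for paired exponents which do not depend on the exponents. -/
theorem exists_pair_const {N p : ℕ} [Fact p.Prime] (hN : N.Prime) (hpN : p ≠ N) (n : ℕ) :
    ∃ C S : ℕ, 0 < C ∧ 0 < S ∧ ∀ {𝔽 : Type w} [Field 𝔽] [Fintype 𝔽] (b : Base 𝔽) (_ : b.N = N)
      (α : Fin (n + 2) → ZMod b.N) (_ : MinZero α)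
      (_ : (2 ≤ n ∧ ∃ t, N ∣ p ^ t + 1) ∨ IsPaired p α) (m : UFun.{u, z})
      (F L : Type u) [Field F] [FixSp F p S] [CharP F p] [Field L] [Algebra F L]
      (t : Fin 0 → L) (a x : Fin (n + 2) → L) (_ : DiagData b t (F := F) a x),
      KillsC m C F (fieldA b F t x α) := by
  have hN0 : NeZero N := ⟨hN.ne_zero⟩
  have hNf : Fact N.Prime := ⟨hN⟩
  have hp : p.Prime := Fact.out
  obtain ⟨C₁, S₁, hC₁, hS₁, h₁⟩ : ∃ C S : ℕ, 0 < C ∧ 0 < S ∧ (2 ≤ n →
      ∀ {𝔽 : Type w} [Field 𝔽] [Fintype 𝔽] (b : Base 𝔽) (_ : b.N = N)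
      (α : Fin (n + 2) → ZMod b.N) (_ : MinZero α) (_ : IsBalancedSum p α) (m : UFun.{u, z})
      (F L : Type u) [Field F] [FixSp F p S] [CharP F p] [Field L] [Algebra F L] (r : ℕ)
      (t : Fin r → L) (a x : Fin (n + 2) → L) (_ : DiagData b t (F := F) a x),
      KillsC m C F (fieldA b F t x α)) := by
    by_cases hn : 2 ≤ n
    · obtain ⟨C, S, hC, hS, h⟩ := exists_bal_const.{u, w, z} hN hpN hn
      exact ⟨C, S, hC, hS, fun _ => h⟩
    · exact ⟨1, 1, one_pos, one_pos, fun h => absurd h hn⟩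
  have key : ∀ α : Fin (n + 2) → ZMod N, ∃ C S : ℕ, 0 < C ∧ 0 < S ∧ (IsPaired p α →
      (∀ J : Finset (Fin (n + 2)), J.Nonempty → J ≠ univ → ∑ i ∈ J, α i ≠ 0) →
      ∀ (m : UFun.{u, z}) (F K : Type u) [Field F] [FixSp F p S] [CharP F p] [Field K]
      [Algebra F K] (t : Fin 0 → K) (Y : Fin (n + 2) → K) (x : Fin 0 → K) (B A : Fin 0 → ZMod N)
      (δ w : K) (K₀ : IntermediateField F K) (_ : SysD N t Y α x B A δ w K₀),
      KillsC m C F K) := by
    intro α
    by_cases hα : IsPaired p α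
    · obtain ⟨I, a, b, ha, hb, hI, hdis, hcard, h1, h3⟩ := hα
      refine ⟨((p ^ (a * b)) ^ 2).factorial * (p ^ (a * b) * ((p ^ (a * b)) ^ 2).factorial),
        a * b, Nat.mul_pos (Nat.factorial_pos _) (Nat.mul_pos (pow_pos hp.pos _)
          (Nat.factorial_pos _)), Nat.mul_pos ha hb, ?_⟩
      intro _ hmin m F K _ _ _ _ _ t Y x B A δ w K₀ hs
      exact sysD_kills_paired hs I ha hb hI hdis (fun h => hcard (by rw [h])) hmin h1 h3
    · exact ⟨1, 1, one_pos, one_pos, fun h => absurd h hα⟩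
  choose C S hC hS h using key
  refine ⟨C₁ * ∏ α, C α, S₁ * ∏ α, S α, Nat.mul_pos hC₁ (Finset.prod_pos fun α _ => hC α),
    Nat.mul_pos hS₁ (Finset.prod_pos fun α _ => hS α), ?_⟩
  intro 𝔽 _ _ b hb α hα hcase m F L _ hfix _ _ _ t a x hD
  subst hb
  rcases hcase with ⟨hn, t', ht'⟩ | hpair
  · have : FixSp F p S₁ := FixSp.of_dvd F Fact.out
      (Nat.mul_pos hS₁ (Finset.prod_pos fun α _ => hS α)) (Dvd.intro _ rfl) hfix
    exact (h₁ hn b rfl α hα (isBalancedSum_of_neg_one ht' α) m F L 0 t a x hD).of_dvd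
      (Dvd.intro _ rfl)
  · have : FixSp F p (S α) := FixSp.of_dvd F Fact.out
      (Nat.mul_pos hS₁ (Finset.prod_pos fun α _ => hS α))
      (Dvd.dvd.mul_left (Finset.dvd_prod_of_mem S (Finset.mem_univ α)) S₁) hfix
    obtain ⟨δ, w, K₀, hs⟩ := fieldA_sys b hD hα.1
    exact (h α hpair hα.2 m F _ _ _ _ _ _ δ w K₀ hs).of_dvd
      (Dvd.dvd.mul_left (Finset.dvd_prod_of_mem C (Finset.mem_univ α)) C₁)

end UnrA.Fer
end
end

section

/-!
# Balanced exponents are paired
-/

namespace UnrA.Fer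

open UnrG

universe u v w z

open Finset
open scoped Classical

private lemma U4_cnt1 {p e N : ℕ} [Fact N.Prime] (he : 0 < e) (hpe : (p : ZMod N) ^ e = 1)
    {x c : ZMod N} (hc : c ≠ 0) :
    cnt1 p e x c = if ∃ s : ℕ, (p : ZMod N) ^ s * x = c then cnt1 p e (1 : ZMod N) 1 else 0 := by
  split_ifs with h
  · obtain ⟨s, hs⟩ := h
    have hx : x ≠ 0 := by
      rintro rfl
      rw [mul_zero] at hs
      exact hc hs.symm
    have h1 : cnt1 p e x c = cnt1 p e ((p : ZMod N) ^ s * 1) ((p : ZMod N) ^ s) := by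
      rw [cnt1_pow_mul he hpe]
      unfold cnt1
      congr 1
      refine Finset.filter_congr fun j _ => ?_
      rw [← hs, mul_one]
      exact ⟨fun h => mul_right_cancel₀ hx h, fun h => by rw [h]⟩
    have hp : (p : ZMod N) ^ s ≠ 0 := by
      intro h0
      rw [h0, zero_mul] at hs
      exact hc hs.symm
    rw [h1]
    unfold cnt1
    congr 1
    refine Finset.filter_congr fun j _ => ?_
    rw [mul_one, mul_one]
    exact ⟨fun h => mul_right_cancel₀ hp (h.trans (one_mul _).symm), fun h => by rw [h, one_mul]⟩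
  · unfold cnt1
    rw [Finset.card_eq_zero, Finset.filter_eq_empty_iff]
    intro j _ hj
    exact h ⟨j, hj⟩

private lemma U4_cnt {p e N k : ℕ} [Fact N.Prime] (he : 0 < e) (hpe : (p : ZMod N) ^ e = 1)
    (α : Fin k → ZMod N) {c : ZMod N} (hc : c ≠ 0) :
    cnt p e (Multiset.map α Finset.univ.val) c =
      Nat.card {i // ∃ s : ℕ, (p : ZMod N) ^ s * α i = c} * cnt1 p e (1 : ZMod N) 1 := by
  unfold cnt
  rw [Multiset.map_map, card_subtype_eq_sum, Finset.sum_mul]
  change ∑ i, cnt1 p e (α i) c = _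
  refine Finset.sum_congr rfl fun i _ => ?_
  rw [U4_cnt1 he hpe hc, ite_mul, one_mul, zero_mul]

/-- The two notions of balanced families agree. -/
lemma bal_of_isBalancedSum {p e N k : ℕ} [Fact N.Prime] (he : 0 < e)
    (hpe : (p : ZMod N) ^ e = 1) {α : Fin k → ZMod N} (h : IsBalancedSum p α) :
    Bal p e (Multiset.map α Finset.univ.val) := by
  intro c
  by_cases hc : c = 0
  · rw [hc, neg_zero]
  · rw [U4_cnt he hpe α hc, U4_cnt he hpe α (neg_ne_zero.2 hc), h c hc]

/-- Balanced families of prime order are supersingular or contain two disjoint pairs. -/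
theorem isPaired_of_isBalancedSum {p N n : ℕ} [hp : Fact p.Prime] (hN : N.Prime) (hpN : p ≠ N)
    (hn : 2 ≤ n) {α : Fin (n + 2) → ZMod N}
    (hα : ∀ I : Finset (Fin (n + 2)), I.Nonempty → I ≠ univ → ∑ i ∈ I, α i ≠ 0)
    (h : IsBalancedSum p α) : (2 ≤ n ∧ ∃ t, N ∣ p ^ t + 1) ∨ IsPaired p α := by
  have : Fact N.Prime := ⟨hN⟩
  by_cases hneg : ∃ t, N ∣ p ^ t + 1
  · exact Or.inl ⟨hn, hneg⟩
  right
  have hneg' : ∀ j : ℕ, (p : ZMod N) ^ j ≠ -1 := by
    intro j hj
    refine hneg ⟨j, (ZMod.natCast_eq_zero_iff _ _).1 ?_⟩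
    push_cast
    rw [hj, neg_add_cancel]
  have hpz : (p : ZMod N) ≠ 0 := by
    intro h0
    exact hpN ((Nat.prime_dvd_prime_iff_eq hN hp.out).1
      ((ZMod.natCast_eq_zero_iff _ _).1 h0)).symm
  have he : 0 < N - 1 := by have := hN.two_le; omega
  have hpe : (p : ZMod N) ^ (N - 1) = 1 := ZMod.pow_card_sub_one_eq_one hpz
  have hb := bal_of_isBalancedSum he hpe h
  have h0 : ∀ i, α i ≠ 0 := by
    intro i hi
    refine hα {i} (Finset.singleton_nonempty i) ?_ (by rw [Finset.sum_singleton, hi])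
    intro h1
    have h2 := congrArg Finset.card h1
    rw [Finset.card_singleton, Finset.card_univ, Fintype.card_fin] at h2
    omega
  have heven : Even (n + 2) := by
    have h1 := hb.even_card he hpe hneg' (fun z hz => by
      obtain ⟨i, -, rfl⟩ := Multiset.mem_map.1 hz
      exact h0 i)
    rw [Multiset.card_map] at h1
    change Even (Finset.card (Finset.univ : Finset (Fin (n + 2)))) at h1
    rwa [Finset.card_univ, Fintype.card_fin] at h1
  obtain ⟨i₀, i₁, i₂, i₃, hi, ⟨a, ha, -, h1⟩, b, hb', -, h2⟩ :=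
    exists_two_pairs he hpe hneg' (by omega) hb h0
  simp only [List.nodup_cons, List.mem_cons, List.not_mem_nil, or_false, not_or,
    List.nodup_nil, and_true, not_false_eq_true] at hi
  obtain ⟨⟨h01, h02, h03⟩, ⟨h12, h13⟩, h23⟩ := hi
  refine ⟨![{i₀}, {i₁}, {i₂}, {i₃}], a, b, ha, hb', ?_, ?_, ?_, ?_, ?_⟩
  · intro j
    fin_cases j <;> exact Finset.singleton_nonempty _
  · intro j j' hjj
    change Disjoint _ _
    fin_cases j <;> fin_cases j' <;>
      first
        | exact absurd rfl hjj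
        | (change Disjoint ({_} : Finset (Fin (n + 2))) {_}
           rw [Finset.disjoint_singleton]
           first | assumption | (apply Ne.symm; assumption))
  · rw [Fin.sum_univ_four]
    change Finset.card {i₀} + Finset.card {i₁} + Finset.card {i₂} + Finset.card {i₃} + 1 ≠ n + 2
    simp only [Finset.card_singleton]
    obtain ⟨k, hk⟩ := heven
    omega
  · change ∑ i ∈ ({i₁} : Finset _), α i = -(p : ZMod N) ^ a * ∑ i ∈ ({i₀} : Finset _), α i
    rw [Finset.sum_singleton, Finset.sum_singleton]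
    exact h1
  · change ∑ i ∈ ({i₃} : Finset _), α i = -(p : ZMod N) ^ b * ∑ i ∈ ({i₂} : Finset _), α i
    rw [Finset.sum_singleton, Finset.sum_singleton]
    exact h2

end UnrA.Fer
end
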