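import Pool.Agent.Lib.MP_859dd5_ag.Mg.G054

section

/-!
# Construction of discrete valuations from prime elements
-/

namespace UnrH3

universe u v w

variable {m : ℕ}

section Prime

variable {R : Type w} {K : Type u} {κ : Type v} [CommRing R] [IsDomain R] [Field K] [Field κ]
  [Algebra R K] [IsFractionRing R K]

/-- `x = p^n u / w` with `u, w` prime to `p`, and `c` is the residue of `u / w`. -/
def Rep (π : R →+* κ) (p : R) (x : K) (n : ℤ) (c : κ) : Prop :=
  ∃ u w : R, π u ≠ 0 ∧ π w ≠ 0 ∧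
    x = (algebraMap R K p) ^ n * (algebraMap R K u / algebraMap R K w) ∧ c = π u / π w

lemma Rep.mul {π : R →+* κ} {p : R} (hp : p ≠ 0) {x y : K} {n k : ℤ} {c d : κ}
    (h1 : Rep π p x n c) (h2 : Rep π p y k d) : Rep π p (x * y) (n + k) (c * d) := by
  obtain ⟨u, w, hu, hw, rfl, rfl⟩ := h1
  obtain ⟨u', w', hu', hw', rfl, rfl⟩ := h2
  refine ⟨u * u', w * w', by simp [hu, hu'], by simp [hw, hw'], ?_, ?_⟩
  · rw [zpow_add₀ (by simpa using hp), map_mul, map_mul]
    field_simp
  · rw [map_mul, map_mul]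
    field_simp

lemma Rep.unique {π : R →+* κ} {p : R} (hp : p ≠ 0) (hker : π p = 0) {x : K} {n k : ℤ} {c d : κ}
    (h1 : Rep π p x n c) (h2 : Rep π p x k d) : n = k ∧ c = d := by
  wlog hnk : n ≤ k generalizing n k c d with H
  · obtain ⟨h3, h4⟩ := H h2 h1 (le_of_lt (not_le.mp hnk))
    exact ⟨h3.symm, h4.symm⟩
  obtain ⟨u, w, hu, hw, h1, rfl⟩ := h1
  obtain ⟨u', w', hu', hw', h2, rfl⟩ := h2
  have hu0 : u ≠ 0 := fun h => hu (by rw [h, map_zero])
  have hw0 : w ≠ 0 := fun h => hw (by rw [h, map_zero])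
  have hu0' : u' ≠ 0 := fun h => hu' (by rw [h, map_zero])
  have hw0' : w' ≠ 0 := fun h => hw' (by rw [h, map_zero])
  have inj := IsFractionRing.injective R K
  have hpK : algebraMap R K p ≠ 0 := by simpa using hp
  have hwK : algebraMap R K w ≠ 0 := by simpa using hw0
  have hwK' : algebraMap R K w' ≠ 0 := by simpa using hw0'
  obtain ⟨j, hj⟩ := Int.le.dest hnk
  have key : u * w' = p ^ j * u' * w := by
    apply inj
    rw [h1, ← hj, zpow_add₀ hpK, zpow_natCast, mul_assoc] at h2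
    have h3 := mul_left_cancel₀ (zpow_ne_zero n hpK) h2
    rw [map_mul, map_mul, map_mul, map_pow]
    field_simp at h3
    linear_combination h3
  have key2 := congrArg π key
  rw [map_mul, map_mul, map_mul, map_pow, hker] at key2
  rcases Nat.eq_zero_or_pos j with hj0 | hj0
  · subst hj0
    refine ⟨by simpa using hj, ?_⟩
    rw [div_eq_div_iff hw hw']
    simpa using key2
  · rw [zero_pow (by omega), zero_mul, zero_mul] at key2
    exact absurd key2 (mul_ne_zero hu hw')

lemma Rep.exists {π : R →+* κ} {p : R}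
    (hfin : ∀ a : R, a ≠ 0 → ∃ (n : ℕ) (u : R), a = p ^ n * u ∧ π u ≠ 0) (hp : p ≠ 0)
    {x : K} (hx : x ≠ 0) : ∃ (n : ℤ) (c : κ), Rep π p x n c := by
  obtain ⟨a, b, hb, rfl⟩ := IsFractionRing.div_surjective (A := R) x
  have hb0 : b ≠ 0 := nonZeroDivisors.ne_zero hb
  have ha0 : a ≠ 0 := by
    rintro rfl
    simp at hx
  obtain ⟨n, u, rfl, hu⟩ := hfin a ha0
  obtain ⟨k, w, rfl, hw⟩ := hfin b hb0
  have hpK : algebraMap R K p ≠ 0 := by simpa using hp
  refine ⟨(n : ℤ) - k, π u / π w, u, w, hu, hw, ?_, rfl⟩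
  have hwK : algebraMap R K w ≠ 0 := by
    have : w ≠ 0 := by rintro rfl; simp at hw
    simpa using this
  rw [map_mul, map_mul, map_pow, map_pow, zpow_sub₀ hpK, zpow_natCast, zpow_natCast]
  field_simp

lemma Rep.ne_zero {π : R →+* κ} {p : R} {x : K} {n : ℤ} {c : κ}
    (h : Rep π p x n c) : c ≠ 0 := by
  obtain ⟨u, w, hu, hw, -, rfl⟩ := h
  exact div_ne_zero hu hw

lemma Rep.st {π : R →+* κ} {p : R} (hp : p ≠ 0) (hker : π p = 0)
    (hfin : ∀ a : R, a ≠ 0 → ∃ (n : ℕ) (u : R), a = p ^ n * u ∧ π u ≠ 0)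
    {a b : K} (hb : b ≠ 0) (hab : a + b = 1) {n k : ℤ} {c d : κ}
    (h1 : Rep π p a n c) (h2 : Rep π p b k d) :
    (0 < n ∧ k = 0 ∧ d = 1) ∨ (0 < k ∧ n = 0 ∧ c = 1) ∨
    (n = 0 ∧ k = 0 ∧ c + d = 1) ∨ (n < 0 ∧ k = n ∧ d = - c) := by
  obtain ⟨u, w, hu, hw, hxa, hc⟩ := h1
  have hb' : b = 1 - a := by rw [← hab]; ring
  have hpK : algebraMap R K p ≠ 0 := by simpa using hp
  have hw0 : w ≠ 0 := by rintro rfl; simp at hw
  have hwK : algebraMap R K w ≠ 0 := by simpa using hw0
  rcases lt_trichotomy n 0 with hn | hn | hn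
  · -- negative valuation
    obtain ⟨j, hj⟩ := Int.eq_ofNat_of_zero_le (show 0 ≤ -n by omega)
    have hj0 : j ≠ 0 := by omega
    have h3 : Rep π p b n (-c) := by
      refine ⟨p ^ j * w - u, w, ?_, hw, ?_, ?_⟩
      · rw [map_sub, map_mul, map_pow, hker, zero_pow hj0, zero_mul, zero_sub, neg_ne_zero]
        exact hu
      · rw [hb', hxa, map_sub, map_mul, map_pow]
        have : n = -(j : ℤ) := by omega
        rw [this, zpow_neg, zpow_natCast]
        field_simp
      · rw [map_sub, map_mul, map_pow, hker, zero_pow hj0, zero_mul, zero_sub, hc]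
        field_simp
    obtain ⟨h4, h5⟩ := h2.unique hp hker h3
    exact Or.inr (Or.inr (Or.inr ⟨hn, h4, h5⟩))
  · -- zero valuation
    have hwu : w - u ≠ 0 := by
      intro h
      apply hb
      have : w = u := sub_eq_zero.mp h
      rw [hb', hxa, hn, this, zpow_zero, one_mul, div_self, sub_self]
      rw [← this]; exact hwK
    obtain ⟨i, u', hi, hu'⟩ := hfin _ hwu
    have hb'' : b = algebraMap R K (w - u) / algebraMap R K w := by
      rw [hb', hxa, hn, zpow_zero, one_mul, map_sub]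
      field_simp
    rcases Nat.eq_zero_or_pos i with hi0 | hi0
    · subst hi0
      rw [pow_zero, one_mul] at hi
      have h3 : Rep π p b 0 (π (w - u) / π w) :=
        ⟨w - u, w, by rw [hi]; exact hu', hw, by rw [hb'', zpow_zero, one_mul], rfl⟩
      obtain ⟨h4, h5⟩ := h2.unique hp hker h3
      refine Or.inr (Or.inr (Or.inl ⟨hn, h4, ?_⟩))
      rw [hc, h5, map_sub]
      field_simp
      ring
    · have h3 : Rep π p b (i : ℤ) (π u' / π w) := by
        refine ⟨u', w, hu', hw, ?_, rfl⟩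
        rw [hb'', hi, zpow_natCast, map_mul, map_pow]
        field_simp
      obtain ⟨h4, h5⟩ := h2.unique hp hker h3
      refine Or.inr (Or.inl ⟨by omega, hn, ?_⟩)
      have h6 := congrArg π hi
      rw [map_sub, map_mul, map_pow, hker, zero_pow (by omega), zero_mul, sub_eq_zero] at h6
      rw [hc, ← h6, div_self hw]
  · -- positive valuation
    obtain ⟨j, hj⟩ := Int.eq_ofNat_of_zero_le hn.le
    have hj0 : j ≠ 0 := by omega
    have h3 : Rep π p b 0 1 := by
      refine ⟨w - p ^ j * u, w, ?_, hw, ?_, ?_⟩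
      · rw [map_sub, map_mul, map_pow, hker, zero_pow hj0, zero_mul, sub_zero]
        exact hw
      · rw [hb', hxa, map_sub, map_mul, map_pow, hj, zpow_natCast]
        field_simp
      · rw [map_sub, map_mul, map_pow, hker, zero_pow hj0, zero_mul, sub_zero, div_self hw]
    obtain ⟨h4, h5⟩ := h2.unique hp hker h3
    exact Or.inl ⟨hn, h4, h5⟩

open Classical in
/-- The discrete valuation attached to a prime element `p` of a domain `R` with fraction
field `K`, and a homomorphism `π` to a field `κ` with kernel `(p)`. -/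
noncomputable def DVal.ofPrime (K : Type u) [Field K] [Algebra R K] [IsFractionRing R K]
    (π : R →+* κ) (p : R) (hp : p ≠ 0) (hker : π p = 0)
    (hfin : ∀ a : R, a ≠ 0 → ∃ (n : ℕ) (u : R), a = p ^ n * u ∧ π u ≠ 0) : DVal K κ where
  v x := if hx : x = 0 then 0 else (Rep.exists (π := π) hfin hp hx).choose
  ρ :=
    { toFun := fun x => if hx : x = 0 then 0 else (Rep.exists (π := π) hfin hp hx).choose_spec.choose
      map_zero' := by simp
      map_one' := by
        rw [dif_neg one_ne_zero]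
        have h1 := (Rep.exists (π := π) hfin hp (one_ne_zero (α := K))).choose_spec.choose_spec
        have h2 : Rep π p (1 : K) 0 (1 : κ) := ⟨1, 1, by simp, by simp, by simp, by simp⟩
        exact (h1.unique hp hker h2).2
      map_mul' := by
        intro x y
        by_cases hx : x = 0
        · subst hx; simp
        by_cases hy : y = 0
        · subst hy; simp
        have hxy : x * y ≠ 0 := mul_ne_zero hx hy
        rw [dif_neg hx, dif_neg hy, dif_neg hxy]
        have h1 := (Rep.exists (π := π) hfin hp hx).choose_spec.choose_spec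
        have h2 := (Rep.exists (π := π) hfin hp hy).choose_spec.choose_spec
        have h3 := (Rep.exists (π := π) hfin hp hxy).choose_spec.choose_spec
        exact (h3.unique hp hker (h1.mul hp h2)).2 }
  v_mul x y hx hy := by
    have hxy : x * y ≠ 0 := mul_ne_zero hx hy
    rw [dif_neg hx, dif_neg hy, dif_neg hxy]
    have h1 := (Rep.exists (π := π) hfin hp hx).choose_spec.choose_spec
    have h2 := (Rep.exists (π := π) hfin hp hy).choose_spec.choose_spec
    have h3 := (Rep.exists (π := π) hfin hp hxy).choose_spec.choose_spec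
    exact (h3.unique hp hker (h1.mul hp h2)).1
  st a b ha hb hab := by
    simp only [MonoidWithZeroHom.coe_mk, ZeroHom.coe_mk]
    rw [dif_neg ha, dif_neg hb, dif_neg ha, dif_neg hb]
    have h1 := (Rep.exists (π := π) hfin hp ha).choose_spec.choose_spec
    have h2 := (Rep.exists (π := π) hfin hp hb).choose_spec.choose_spec
    exact Rep.st hp hker hfin hb hab h1 h2

variable (π : R →+* κ) (p : R) (hp : p ≠ 0) (hker : π p = 0)
    (hfin : ∀ a : R, a ≠ 0 → ∃ (n : ℕ) (u : R), a = p ^ n * u ∧ π u ≠ 0)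

lemma DVal.ofPrime_rep {x : K} (hx : x ≠ 0) :
    Rep π p x ((DVal.ofPrime K π p hp hker hfin).v x) ((DVal.ofPrime K π p hp hker hfin).ρ x) := by
  have h1 := (Rep.exists (π := π) hfin hp hx).choose_spec.choose_spec
  have h2 : (DVal.ofPrime K π p hp hker hfin).v x = (Rep.exists (π := π) hfin hp hx).choose := by
    simp only [DVal.ofPrime]
    rw [dif_neg hx]
  have h3 : (DVal.ofPrime K π p hp hker hfin).ρ x =
      (Rep.exists (π := π) hfin hp hx).choose_spec.choose := by
    simp only [DVal.ofPrime, MonoidWithZeroHom.coe_mk, ZeroHom.coe_mk]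
    rw [dif_neg hx]
  rw [h2, h3]
  exact h1

lemma DVal.ofPrime_eq {x : K} (hx : x ≠ 0) {n : ℤ} {c : κ} (h : Rep π p x n c) :
    (DVal.ofPrime K π p hp hker hfin).v x = n ∧ (DVal.ofPrime K π p hp hker hfin).ρ x = c :=
  (DVal.ofPrime_rep π p hp hker hfin hx).unique hp hker h

lemma DVal.ofPrime_unit {a : R} (ha : π a ≠ 0) :
    (DVal.ofPrime K π p hp hker hfin).v (algebraMap R K a) = 0 ∧
    (DVal.ofPrime K π p hp hker hfin).ρ (algebraMap R K a) = π a := by
  have ha0 : a ≠ 0 := by rintro rfl; simp at ha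
  apply DVal.ofPrime_eq
  · simpa using ha0
  · exact ⟨a, 1, ha, by simp, by simp, by simp⟩

lemma DVal.ofPrime_self :
    (DVal.ofPrime K π p hp hker hfin).v (algebraMap R K p) = 1 ∧
    (DVal.ofPrime K π p hp hker hfin).ρ (algebraMap R K p) = 1 := by
  apply DVal.ofPrime_eq
  · simpa using hp
  · exact ⟨1, 1, by simp, by simp, by simp, by simp⟩

lemma DVal.ofPrime_nonneg_iff {x : K} (hx : x ≠ 0) :
    0 ≤ (DVal.ofPrime K π p hp hker hfin).v x ↔
      ∃ a w : R, π w ≠ 0 ∧ x = algebraMap R K a / algebraMap R K w := by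
  constructor
  · intro h
    obtain ⟨u, w, hu, hw, h1, h2⟩ := DVal.ofPrime_rep π p hp hker hfin hx
    obtain ⟨j, hj⟩ := Int.eq_ofNat_of_zero_le h
    refine ⟨p ^ j * u, w, hw, ?_⟩
    rw [hj, zpow_natCast] at h1
    rw [h1, map_mul, map_pow, mul_div_assoc]
  · rintro ⟨a, w, hw, h1⟩
    have ha : a ≠ 0 := by rintro rfl; simp [h1] at hx
    obtain ⟨n, u, h2, hu⟩ := hfin a ha
    have h3 : Rep π p x n (π u / π w) :=
      ⟨u, w, hu, hw, by rw [h1, h2, map_mul, map_pow, zpow_natCast, mul_div_assoc], rfl⟩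
    rw [((DVal.ofPrime_rep π p hp hker hfin hx).unique hp hker h3).1]
    omega

end Prime

section Units

variable {K : Type u} {κ : Type v} [Field K] [Field κ]

/-- The set of units of a discrete valuation. -/
def DVal.unitSet (D : DVal K κ) : Set K := {u | u ≠ 0 ∧ D.v u = 0}

variable (m) in
/-- The subalgebra of the Milnor K-ring generated by the symbols of units. -/
noncomputable def DVal.U (D : DVal K κ) : Subalgebra (ZMod m) (KM m K) :=
  Algebra.adjoin (ZMod m) (sym m '' D.unitSet)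

lemma DVal.res_eq_zero_of_mem_U (hm : Odd m) (D : DVal K κ) {x : KM m K} (hx : x ∈ D.U m) :
    D.res hm x = 0 := by
  unfold DVal.U at hx
  induction hx using Algebra.adjoin_induction with
  | mem x hx =>
    obtain ⟨u, ⟨hu0, hu⟩, rfl⟩ := hx
    rw [DVal.res, D.θ_sym hm hu0, hu]
    simp
  | algebraMap r => rw [DVal.res, AlgHom.commutes, KMX.algebraMap_eq]
  | add x y _ _ hx hy =>
    rw [DVal.res] at *
    rw [map_add, KMX.add_snd, hx, hy, add_zero]
  | mul x y _ _ hx hy =>
    rw [DVal.res] at *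
    rw [map_mul, KMX.mul_snd, hx, hy, mul_zero, zero_mul, add_zero]

/-- An element congruent to `1` times the uniformizer lies in the unit part. -/
lemma DVal.one_unit_aux (hm : Odd m) (D : DVal K κ) {ϖ : K} (hϖ : ϖ ≠ 0) (hv : D.v ϖ = 1)
    {u : K} (hu : u ≠ 0) (hvu : D.v (1 - u) = 1) (hu1 : u ≠ 1) (hv0 : D.v u = 0) :
    sym m u * sym m ϖ ∈ D.U m := by
  have h1u : (1 : K) - u ≠ 0 := sub_ne_zero.mpr (Ne.symm hu1)
  set a := (1 - u) / ϖ with ha
  have ha0 : a ≠ 0 := div_ne_zero h1u hϖ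
  have hva : D.v a = 0 := by rw [ha, D.v_div h1u hϖ, hvu, hv]; norm_num
  have h2 : sym m u * sym m (1 - u) = 0 := sym_steinberg (by ring)
  have h3 : (1 : K) - u = a * ϖ := by rw [ha]; field_simp
  rw [h3, sym_mul ha0 hϖ, mul_add] at h2
  have h4 : sym m u * sym m ϖ = - (sym m u * sym m a) := by
    rw [add_comm] at h2
    exact eq_neg_of_add_eq_zero_left h2
  rw [h4]
  apply neg_mem
  apply mul_mem
  · exact Algebra.subset_adjoin ⟨u, ⟨hu, hv0⟩, rfl⟩
  · exact Algebra.subset_adjoin ⟨a, ⟨ha0, hva⟩, rfl⟩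

lemma DVal.v_one_sub (D : DVal K κ) {u : K} (hu : u ≠ 0) (hu1 : u ≠ 1) (hv : D.v u = 0)
    (hρ : D.ρ u = 1) : 0 < D.v (1 - u) := by
  have h1u : (1 : K) - u ≠ 0 := sub_ne_zero.mpr (Ne.symm hu1)
  rcases D.st u (1 - u) hu h1u (by ring) with h | h | h | h
  · omega
  · exact h.1
  · have := h.2.2
    rw [hρ] at this
    have h2 : D.ρ (1 - u) = 0 := by
      have h3 : (1 : κ) + D.ρ (1 - u) = 1 + 0 := by rw [this, add_zero]
      exact add_left_cancel h3
    exact absurd h2 (D.ρ_ne h1u)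
  · omega

lemma DVal.v_add_eq_of_lt (D : DVal K κ) {a b : K} (ha : a ≠ 0) (hb : b ≠ 0)
    (h : D.v a < D.v b) : a + b ≠ 0 ∧ D.v (a + b) = D.v a := by
  have hab : a + b ≠ 0 := by
    intro h0
    have : b = -a := by rw [eq_neg_iff_add_eq_zero, add_comm]; exact h0
    rw [this, D.v_neg ha] at h
    omega
  refine ⟨hab, ?_⟩
  have hba : b / a ≠ 0 := div_ne_zero hb ha
  have h1 : D.v (b / a) = D.v b - D.v a := D.v_div hb ha
  have hs : (a + b) / a ≠ 0 := div_ne_zero hab ha
  have h2 : D.v ((a + b) / a) = D.v (a + b) - D.v a := D.v_div hab ha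
  have hnb : -(b / a) ≠ 0 := neg_ne_zero.mpr hba
  rcases D.st (-(b / a)) ((a + b) / a) hnb hs (by field_simp; ring) with h | h | h | h
  · omega
  · rw [D.v_neg hba] at h; omega
  · rw [D.v_neg hba] at h; omega
  · rw [D.v_neg hba] at h; omega

lemma DVal.one_unit (hm : Odd m) (D : DVal K κ) {ϖ : K} (hϖ : ϖ ≠ 0) (hv : D.v ϖ = 1)
    {u : K} (hu : u ≠ 0) (hvu : D.v u = 0) (hρ : D.ρ u = 1) :
    sym m u * sym m ϖ ∈ D.U m := by
  by_cases hu1 : u = 1
  · subst hu1; simp
  have h0 := D.v_one_sub hu hu1 hvu hρ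
  have h1u : (1 : K) - u ≠ 0 := sub_ne_zero.mpr (Ne.symm hu1)
  by_cases h1 : D.v (1 - u) = 1
  · exact D.one_unit_aux hm hϖ hv hu h1 hu1 hvu
  have h2 : 1 < D.v (1 - u) := by omega
  -- the auxiliary one-unit `1 - ϖ`
  have hw1 : (1 : K) - ϖ ≠ 1 := by simpa using hϖ
  have hw0 : (1 : K) - ϖ ≠ 0 ∧ D.v (1 - ϖ) = 0 := by
    have := D.v_add_eq_of_lt one_ne_zero (neg_ne_zero.mpr hϖ) (by rw [D.v_neg hϖ, hv]; simp)
    rw [← sub_eq_add_neg] at this
    refine ⟨this.1, ?_⟩
    rw [this.2, D.v_one]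
  have h3 : sym m (1 - ϖ) * sym m ϖ ∈ D.U m :=
    D.one_unit_aux hm hϖ hv hw0.1 (by rw [sub_sub_cancel, hv]) hw1 hw0.2
  set w := (1 : K) - ϖ with hw
  have hq0 : u / w ≠ 0 := div_ne_zero hu hw0.1
  have hvq : D.v (u / w) = 0 := by rw [D.v_div hu hw0.1, hvu, hw0.2, sub_zero]
  have h4 : (1 : K) - u / w = (-ϖ + (1 - u)) / w := by
    rw [eq_div_iff hw0.1, sub_mul, div_mul_cancel₀ _ hw0.1, one_mul, hw]; ring
  have h5 := D.v_add_eq_of_lt (neg_ne_zero.mpr hϖ) h1u (by rw [D.v_neg hϖ, hv]; exact h2)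
  have h6 : D.v (1 - u / w) = 1 := by
    rw [h4, D.v_div h5.1 hw0.1, h5.2, D.v_neg hϖ, hv, hw0.2, sub_zero]
  have h7 : u / w ≠ 1 := by
    intro h
    rw [h, sub_self] at h4
    have : (-ϖ + (1 - u)) / w ≠ 0 := div_ne_zero h5.1 hw0.1
    exact this h4.symm
  have h8 := D.one_unit_aux hm hϖ hv hq0 h6 h7 hvq
  rw [sym_div hu hw0.1, sub_mul] at h8
  have h9 := add_mem h8 h3
  rwa [sub_add_cancel] at h9

/-- For a normalized discrete valuation whose residue field is `κ`, the kernel of the tame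
residue is generated by symbols of units. -/
theorem DVal.mem_U_of_res_eq_zero (hm : Odd m) (D : DVal K κ) {ϖ : K} (hϖ : ϖ ≠ 0)
    (hv : D.v ϖ = 1) (hρϖ : D.ρ ϖ = 1)
    (hsurj : ∀ g : κ, g ≠ 0 → ∃ u : K, u ≠ 0 ∧ D.v u = 0 ∧ D.ρ u = g)
    {x : KM m K} (hx : D.res hm x = 0) : x ∈ D.U m := by
  have dec : ∀ x : KM m K, ∃ w₀ w₁ : KM m K, w₀ ∈ D.U m ∧ w₁ ∈ D.U m ∧
      x = w₀ + w₁ * sym m ϖ := by
    intro x
    induction x using KM.induction with
    | h0 r => exact ⟨_, 0, Subalgebra.algebraMap_mem _ r, zero_mem _, by simp⟩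
    | hadd x y hx hy =>
      obtain ⟨a, b, ha, hb, rfl⟩ := hx
      obtain ⟨a', b', ha', hb', rfl⟩ := hy
      exact ⟨a + a', b + b', add_mem ha ha', add_mem hb hb', by rw [add_mul]; abel⟩
    | hsmul r x hx =>
      obtain ⟨a, b, ha, hb, rfl⟩ := hx
      exact ⟨r • a, r • b, Subalgebra.smul_mem _ ha r, Subalgebra.smul_mem _ hb r, by
        rw [smul_add, smul_mul_assoc]⟩
    | hmul a x ha hx =>
      obtain ⟨w₀, w₁, hw₀, hw₁, rfl⟩ := hx
      set n := D.v a
      have hn : D.v (a / ϖ ^ n) = 0 := by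
        rw [D.v_div ha (zpow_ne_zero _ hϖ), D.v_zpow hϖ, hv]; simp [n]
      have hu0 : a / ϖ ^ n ≠ 0 := div_ne_zero ha (zpow_ne_zero _ hϖ)
      have hsa : sym m a = sym m (a / ϖ ^ n) + (n : ℤ) • sym m ϖ := by
        rw [← sym_zpow hϖ, ← sym_mul hu0 (zpow_ne_zero _ hϖ)]
        congr 1
        field_simp
      have hsu : sym m (a / ϖ ^ n) ∈ D.U m := Algebra.subset_adjoin ⟨_, ⟨hu0, hn⟩, rfl⟩
      refine ⟨sym m (a / ϖ ^ n) * w₀,
        sym m (a / ϖ ^ n) * w₁ + (n : ℤ) • eps m K w₀, mul_mem hsu hw₀,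
        add_mem (mul_mem hsu hw₁) (zsmul_mem (eps_mem_adjoin hw₀) _), ?_⟩
      rw [hsa, add_mul, mul_add, mul_add, smul_mul_assoc, smul_mul_assoc, sym_mul_eq hm ϖ w₀,
        ← mul_assoc (sym m ϖ), sym_mul_eq hm ϖ w₁, mul_assoc _ (sym m ϖ) (sym m ϖ), sym_sq hm,
        mul_zero, smul_zero, add_zero, add_mul, smul_mul_assoc, mul_assoc]
      abel
  obtain ⟨w₀, w₁, hw₀, hw₁, rfl⟩ := dec x
  have h1 : D.spec hm w₁ = 0 := by
    have h2 : D.res hm w₀ = 0 := D.res_eq_zero_of_mem_U hm hw₀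
    have h3 : D.res hm (w₀ + w₁ * sym m ϖ) = D.res hm w₀ + D.spec hm w₁ := by
      rw [DVal.res, DVal.res, DVal.spec_apply, map_add, map_mul, D.θ_sym hm hϖ, hv, hρϖ]
      simp
    rw [h3, h2, zero_add] at hx
    exact hx
  apply add_mem hw₀
  classical
  choose! G hG0 hGv hGρ using hsurj
  refine mul_sym_mem_of_spec_eq_zero hm D.unitSet ϖ D.ρ (D.spec hm) ?_ G ?_ ?_ ?_ ?_ hw₁ h1
  · intro u hu
    rw [DVal.spec_apply, D.θ_sym hm hu.1]
  · intro g hg
    exact ⟨hG0 g hg, hGv g hg⟩
  · intro g h hg hh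
    have hgh : g * h ≠ 0 := mul_ne_zero hg hh
    have h4 : sym m (G (g * h)) - sym m (G g) - sym m (G h) =
        sym m (G (g * h) / (G g * G h)) := by
      rw [sym_div (hG0 _ hgh) (mul_ne_zero (hG0 g hg) (hG0 h hh)),
        sym_mul (hG0 g hg) (hG0 h hh), sub_sub]
    rw [h4]
    apply D.one_unit hm hϖ hv (div_ne_zero (hG0 _ hgh) (mul_ne_zero (hG0 g hg) (hG0 h hh)))
    · rw [D.v_div (hG0 _ hgh) (mul_ne_zero (hG0 g hg) (hG0 h hh)),
        D.v_mul _ _ (hG0 g hg) (hG0 h hh), hGv _ hgh, hGv g hg, hGv h hh]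
      norm_num
    · rw [map_div₀, map_mul, hGρ _ hgh, hGρ g hg, hGρ h hh, div_self hgh]
  · intro g h hg hh hgh
    -- compare `G h` with `1 - G g`
    have hGg1 : G g ≠ 1 := by
      intro h1
      have h2 := hGρ g hg
      rw [h1, map_one] at h2
      rw [← h2] at hgh
      exact hh (by simpa using hgh)
    have hb0 : (1 : K) - G g ≠ 0 := sub_ne_zero.mpr (Ne.symm hGg1)
    have hb : D.v (1 - G g) = 0 ∧ D.ρ (1 - G g) = h := by
      rcases D.st (G g) (1 - G g) (hG0 g hg) hb0 (by ring) with h' | h' | h' | h'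
      · have := hGv g hg; omega
      · exfalso
        have h2 := h'.2.2
        rw [hGρ g hg] at h2
        rw [h2] at hgh
        exact hh (by simpa using hgh)
      · refine ⟨h'.2.1, ?_⟩
        have h2 := h'.2.2
        rw [hGρ g hg, ← hgh] at h2
        exact add_left_cancel h2
      · have := hGv g hg; omega
    have h5 : sym m (G h) = sym m (1 - G g) + sym m (G h / (1 - G g)) := by
      rw [sym_div (hG0 h hh) hb0]; abel
    have h6 : sym m (G g) * sym m (1 - G g) = 0 := sym_steinberg (by ring)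
    rw [h5, mul_add, h6, zero_add, mul_assoc]
    apply mul_mem
    · exact Algebra.subset_adjoin ⟨_, ⟨hG0 g hg, hGv g hg⟩, rfl⟩
    · apply D.one_unit hm hϖ hv (div_ne_zero (hG0 h hh) hb0)
      · rw [D.v_div (hG0 h hh) hb0, hGv h hh, hb.1, sub_zero]
      · rw [map_div₀, hGρ h hh, hb.2, div_self hh]
  · intro u hu hu0
    have hρu : D.ρ u ≠ 0 := D.ρ_ne hu0
    rw [← sym_div hu0 (hG0 _ hρu)]
    apply D.one_unit hm hϖ hv (div_ne_zero hu0 (hG0 _ hρu))
    · rw [D.v_div hu0 (hG0 _ hρu), hu.2, hGv _ hρu, sub_zero]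
    · rw [map_div₀, hGρ _ hρu, div_self hρu]

end Units

end UnrH3
end

section

/-!
# Milnor's theorem on the K-ring of a rational function field
-/

namespace UnrH3

universe u v w

open Polynomial

variable {m : ℕ} {K : Type u} [Field K]

section place

variable (p : K[X]) [hp : Fact (Irreducible p)]

/-- The `p`-adic discrete valuation of the rational function field. -/
noncomputable def placeVal : DVal (RatFunc K) (AdjoinRoot p) :=
  DVal.ofPrime (RatFunc K) (AdjoinRoot.mk p) p hp.out.ne_zero (by simp)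
    (by
      intro a ha
      obtain ⟨n, c, hc, h⟩ := WfDvdMonoid.max_power_factor ha hp.out
      exact ⟨n, c, h, by rwa [Ne, AdjoinRoot.mk_eq_zero]⟩)

lemma placeVal_v_self : (placeVal p).v (algebraMap K[X] (RatFunc K) p) = 1 :=
  (DVal.ofPrime_self (K := RatFunc K) (AdjoinRoot.mk p) p _ _ _).1

lemma placeVal_ρ_self : (placeVal p).ρ (algebraMap K[X] (RatFunc K) p) = 1 :=
  (DVal.ofPrime_self (K := RatFunc K) (AdjoinRoot.mk p) p _ _ _).2

lemma placeVal_unit {f : K[X]} (hf : ¬ p ∣ f) :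
    (placeVal p).v (algebraMap K[X] (RatFunc K) f) = 0 ∧
    (placeVal p).ρ (algebraMap K[X] (RatFunc K) f) = AdjoinRoot.mk p f :=
  DVal.ofPrime_unit (K := RatFunc K) (AdjoinRoot.mk p) p _ _ _ (by rwa [Ne, AdjoinRoot.mk_eq_zero])

end place

/-- Nonzero polynomials of degree at most `d`, as rational functions. -/
def polySet (K : Type u) [Field K] (d : ℕ) : Set (RatFunc K) :=
  {r | ∃ f : K[X], f ≠ 0 ∧ f.natDegree ≤ d ∧ r = algebraMap K[X] (RatFunc K) f}

variable (m K) in
/-- The subalgebra generated by the symbols of polynomials of degree at most `d`. -/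
noncomputable def Lsub (d : ℕ) : Subalgebra (ZMod m) (KM m (RatFunc K)) :=
  Algebra.adjoin (ZMod m) (sym m '' polySet K d)

lemma Lsub_mono {d e : ℕ} (h : d ≤ e) : Lsub m K d ≤ Lsub m K e := by
  apply Algebra.adjoin_mono
  apply Set.image_mono
  rintro r ⟨f, hf, hd, rfl⟩
  exact ⟨f, hf, hd.trans h, rfl⟩

lemma sym_mem_Lsub {d : ℕ} {f : K[X]} (hd : f.natDegree ≤ d) :
    sym m (algebraMap K[X] (RatFunc K) f) ∈ Lsub m K d := by
  by_cases hf : f = 0
  · subst hf; simp
  exact Algebra.subset_adjoin ⟨_, ⟨f, hf, hd, rfl⟩, rfl⟩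

lemma exists_mem_Lsub (x : KM m (RatFunc K)) : ∃ d, x ∈ Lsub m K d := by
  induction x using KM.induction with
  | h0 r => exact ⟨0, Subalgebra.algebraMap_mem _ r⟩
  | hadd x y hx hy =>
    obtain ⟨d, hd⟩ := hx
    obtain ⟨e, he⟩ := hy
    exact ⟨max d e, add_mem (Lsub_mono (le_max_left _ _) hd) (Lsub_mono (le_max_right _ _) he)⟩
  | hsmul r x hx =>
    obtain ⟨d, hd⟩ := hx
    exact ⟨d, Subalgebra.smul_mem _ hd r⟩
  | hmul a x ha hx =>
    obtain ⟨d, hd⟩ := hx
    obtain ⟨f, g, hg, rfl⟩ := IsFractionRing.div_surjective (A := K[X]) a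
    have hg0 : g ≠ 0 := nonZeroDivisors.ne_zero hg
    have hf0 : f ≠ 0 := by rintro rfl; simp at ha
    have h1 : sym m (algebraMap K[X] (RatFunc K) f / algebraMap K[X] (RatFunc K) g) =
        sym m (algebraMap K[X] (RatFunc K) f) - sym m (algebraMap K[X] (RatFunc K) g) :=
      sym_div (by simpa using hf0) (by simpa using hg0)
    refine ⟨max d (max f.natDegree g.natDegree), mul_mem ?_ (Lsub_mono (le_max_left _ _) hd)⟩
    rw [h1]
    exact sub_mem (sym_mem_Lsub (by omega)) (sym_mem_Lsub (by omega))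

section step

variable {d : ℕ} {p : K[X]} [hp : Fact (Irreducible p)]

lemma not_dvd_of_natDegree_lt {f : K[X]} (hf : f ≠ 0) (h : f.natDegree < p.natDegree) :
    ¬ p ∣ f := fun hdvd => absurd (natDegree_le_of_dvd hdvd hf) (not_le.mpr h)

lemma θ_snd_of_mem_Lsub (hm : Odd m) (hd : d < p.natDegree) {x : KM m (RatFunc K)}
    (hx : x ∈ Lsub m K d) : ((placeVal p).θ hm x).snd = 0 := by
  apply DVal.res_eq_zero_of_mem_U hm
  refine Algebra.adjoin_mono ?_ hx
  apply Set.image_mono
  rintro r ⟨f, hf, hfd, rfl⟩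
  exact ⟨by simpa using hf,
    (placeVal_unit p (not_dvd_of_natDegree_lt hf (lt_of_le_of_lt hfd hd))).1⟩

/-- The key lemma in Milnor's theorem. -/
lemma mul_sym_mem_Lsub (hm : Odd m) (hpm : p.Monic) (hd : p.natDegree = d + 1)
    {x : KM m (RatFunc K)} (hx : x ∈ Lsub m K d) (hx0 : (placeVal p).spec hm x = 0) :
    x * sym m (algebraMap K[X] (RatFunc K) p) ∈ Lsub m K d := by
  have hp1 : p ≠ 1 := by rintro rfl; simp at hd
  have hρ : ∀ f : K[X], f ≠ 0 → f.natDegree ≤ d →
      (placeVal p).ρ (algebraMap K[X] (RatFunc K) f) = AdjoinRoot.mk p f := fun f hf hfd =>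
    (placeVal_unit p (not_dvd_of_natDegree_lt hf (by omega))).2
  have hGmem : ∀ g : AdjoinRoot p, (AdjoinRoot.modByMonicHom hpm g).natDegree ≤ d := by
    intro g
    obtain ⟨f, rfl⟩ := AdjoinRoot.mk_surjective g
    rw [AdjoinRoot.modByMonicHom_mk]
    have := natDegree_modByMonic_lt f hpm hp1
    omega
  have hmk : ∀ g : AdjoinRoot p, AdjoinRoot.mk p (AdjoinRoot.modByMonicHom hpm g) = g :=
    AdjoinRoot.mk_leftInverse hpm
  have hG0 : ∀ g : AdjoinRoot p, g ≠ 0 → AdjoinRoot.modByMonicHom hpm g ≠ 0 := by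
    intro g hg h
    apply hg
    rw [← hmk g, h, map_zero]
  unfold Lsub at *
  refine mul_sym_mem_of_spec_eq_zero hm (polySet K d) _ (placeVal p).ρ ((placeVal p).spec hm) ?_
    (fun g => algebraMap K[X] (RatFunc K) (AdjoinRoot.modByMonicHom hpm g)) ?_ ?_ ?_ ?_ hx hx0
  · rintro u ⟨f, hf, hfd, rfl⟩
    rw [DVal.spec_apply, DVal.θ_sym _ hm (by simpa using hf)]
  · intro g hg
    exact ⟨_, hG0 g hg, hGmem g, rfl⟩
  · intro g h hg hh
    set G₁ := AdjoinRoot.modByMonicHom hpm g with hG₁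
    set G₂ := AdjoinRoot.modByMonicHom hpm h with hG₂
    set G₃ := AdjoinRoot.modByMonicHom hpm (g * h) with hG₃
    have hg1 : G₁ ≠ 0 := hG0 g hg
    have hg2 : G₂ ≠ 0 := hG0 h hh
    have hg3 : G₃ ≠ 0 := hG0 _ (mul_ne_zero hg hh)
    have h3 : G₃ = (G₁ * G₂) %ₘ p := by
      rw [hG₃, ← AdjoinRoot.modByMonicHom_mk hpm, map_mul (AdjoinRoot.mk p), hG₁, hG₂, hmk g,
        hmk h]
    set H := (G₁ * G₂) /ₘ p with hH
    have hsum : G₃ + p * H = G₁ * G₂ := by rw [h3, hH]; exact modByMonic_add_div _ _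
    have e1 : algebraMap K[X] (RatFunc K) G₁ ≠ 0 := by simpa using hg1
    have e2 : algebraMap K[X] (RatFunc K) G₂ ≠ 0 := by simpa using hg2
    have e3 : algebraMap K[X] (RatFunc K) G₃ ≠ 0 := by simpa using hg3
    have ep : algebraMap K[X] (RatFunc K) p ≠ 0 := by simpa using hp.out.ne_zero
    have hsumK := congrArg (algebraMap K[X] (RatFunc K)) hsum
    rw [map_add, map_mul, map_mul] at hsumK
    by_cases hH0 : H = 0
    · rw [hH0, map_zero, mul_zero, add_zero] at hsumK
      rw [hsumK, sym_mul e1 e2]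
      simp
    · have eH : algebraMap K[X] (RatFunc K) H ≠ 0 := by simpa using hH0
      have hHd : H.natDegree ≤ d := by
        rw [hH, natDegree_divByMonic _ hpm, natDegree_mul hg1 hg2, hd]
        have h6 : G₁.natDegree ≤ d := hGmem g
        have h7 : G₂.natDegree ≤ d := hGmem h
        omega
      have hst : sym m (algebraMap K[X] (RatFunc K) G₃ / (algebraMap K[X] (RatFunc K) G₁ *
          algebraMap K[X] (RatFunc K) G₂)) * sym m ((algebraMap K[X] (RatFunc K) p *
          algebraMap K[X] (RatFunc K) H) / (algebraMap K[X] (RatFunc K) G₁ *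
          algebraMap K[X] (RatFunc K) G₂)) = 0 := by
        apply sym_steinberg
        rw [← add_div, hsumK, div_self (mul_ne_zero e1 e2)]
      rw [sym_div e3 (mul_ne_zero e1 e2), sym_div (mul_ne_zero ep eH) (mul_ne_zero e1 e2),
        sym_mul e1 e2, sym_mul ep eH] at hst
      set s₁ := sym m (algebraMap K[X] (RatFunc K) G₁) with hs₁
      set s₂ := sym m (algebraMap K[X] (RatFunc K) G₂) with hs₂
      set s₃ := sym m (algebraMap K[X] (RatFunc K) G₃) with hs₃
      set sp := sym m (algebraMap K[X] (RatFunc K) p) with hsp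
      set sH := sym m (algebraMap K[X] (RatFunc K) H) with hsH
      have h4 : (s₃ - s₁ - s₂) * sp = -((s₃ - s₁ - s₂) * (sH - s₁ - s₂)) := by
        have h5 : (s₃ - s₁ - s₂) * sp + (s₃ - s₁ - s₂) * (sH - s₁ - s₂) = 0 := by
          rw [← mul_add, ← hst]
          congr 1 <;> abel
        exact eq_neg_of_add_eq_zero_left h5
      rw [h4]
      have m1 : s₁ ∈ Lsub m K d := sym_mem_Lsub (hGmem g)
      have m2 : s₂ ∈ Lsub m K d := sym_mem_Lsub (hGmem h)
      have m3 : s₃ ∈ Lsub m K d := sym_mem_Lsub (hGmem (g * h))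
      have mH : sH ∈ Lsub m K d := sym_mem_Lsub hHd
      exact neg_mem (mul_mem (sub_mem (sub_mem m3 m1) m2) (sub_mem (sub_mem mH m1) m2))
  · intro g h hg hh hgh
    have h1 : sym m (algebraMap K[X] (RatFunc K) (AdjoinRoot.modByMonicHom hpm g)) *
        sym m (algebraMap K[X] (RatFunc K) (AdjoinRoot.modByMonicHom hpm h)) = 0 := by
      apply sym_steinberg
      rw [← map_add, ← map_add, hgh, ← map_one (AdjoinRoot.mk p), AdjoinRoot.modByMonicHom_mk,
        (modByMonic_eq_self_iff hpm).mpr, map_one]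
      rw [degree_one, ← natDegree_pos_iff_degree_pos, hd]
      omega
    rw [h1, zero_mul]
    exact zero_mem _
  · rintro u ⟨f, hf, hfd, rfl⟩ _
    rw [hρ f hf hfd, AdjoinRoot.modByMonicHom_mk, (modByMonic_eq_self_iff hpm).mpr, sub_self,
      zero_mul]
    · exact zero_mem _
    · exact degree_lt_degree (by omega)

end step

/-- Monic irreducible polynomials of a given degree. -/
def MonicIrr (K : Type u) [Field K] (d : ℕ) : Type u :=
  {p : K[X] // p.Monic ∧ Irreducible p ∧ p.natDegree = d}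

/-- The span used in the inductive step of Milnor's theorem. -/
noncomputable def Nsub (m : ℕ) (K : Type u) [Field K] (d : ℕ) :
    Submodule (ZMod m) (KM m (RatFunc K)) :=
  Subalgebra.toSubmodule (Lsub m K d) ⊔
    ⨆ p : MonicIrr K (d + 1), (Subalgebra.toSubmodule (Lsub m K d)).map
      (LinearMap.mulRight (ZMod m) (sym m (algebraMap K[X] (RatFunc K) p.1)))

lemma mem_Nsub_left {d : ℕ} {x : KM m (RatFunc K)} (hx : x ∈ Lsub m K d) : x ∈ Nsub m K d :=
  Submodule.mem_sup_left hx

lemma mul_sym_mem_Nsub {d : ℕ} {x : KM m (RatFunc K)} (hx : x ∈ Lsub m K d)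
    (p : MonicIrr K (d + 1)) : x * sym m (algebraMap K[X] (RatFunc K) p.1) ∈ Nsub m K d := by
  apply Submodule.mem_sup_right
  apply Submodule.mem_iSup_of_mem p
  exact ⟨x, hx, rfl⟩

lemma Nsub_induction {d : ℕ} {P : KM m (RatFunc K) → Prop}
    (h0 : ∀ w ∈ Lsub m K d, P w)
    (h1 : ∀ w ∈ Lsub m K d, ∀ p : MonicIrr K (d + 1),
      P (w * sym m (algebraMap K[X] (RatFunc K) p.1)))
    (hadd : ∀ x y, P x → P y → P (x + y)) {x : KM m (RatFunc K)} (hx : x ∈ Nsub m K d) : P x := by
  obtain ⟨y, hy, z, hz, rfl⟩ := Submodule.mem_sup.mp hx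
  apply hadd _ _ (h0 y hy)
  refine Submodule.iSup_induction _ (motive := P) hz ?_ ?_ hadd
  · rintro p _ ⟨w, hw, rfl⟩
    exact h1 w hw p
  · exact h0 0 (zero_mem _)

lemma mul_mem_Nsub_of_Lsub {d : ℕ} {w x : KM m (RatFunc K)} (hw : w ∈ Lsub m K d)
    (hx : x ∈ Nsub m K d) : w * x ∈ Nsub m K d := by
  refine Nsub_induction (P := fun x => w * x ∈ Nsub m K d) ?_ ?_ ?_ hx
  · intro y hy; exact mem_Nsub_left (mul_mem hw hy)
  · intro y hy p
    rw [← mul_assoc]
    exact mul_sym_mem_Nsub (mul_mem hw hy) p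
  · intro x y hx hy
    rw [mul_add]
    exact add_mem hx hy

lemma sym_mul_mem_Nsub (hm : Odd m) {d : ℕ} {x : KM m (RatFunc K)} (q : MonicIrr K (d + 1))
    (hx : x ∈ Nsub m K d) : sym m (algebraMap K[X] (RatFunc K) q.1) * x ∈ Nsub m K d := by
  have heps : ∀ {w}, w ∈ Lsub m K d → eps m _ w ∈ Lsub m K d := fun h => eps_mem_adjoin h
  refine Nsub_induction
    (P := fun x => sym m (algebraMap K[X] (RatFunc K) q.1) * x ∈ Nsub m K d) ?_ ?_ ?_ hx
  · intro y hy
    rw [sym_mul_eq hm]
    exact mul_sym_mem_Nsub (heps hy) q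
  · intro y hy p
    rw [← mul_assoc, sym_mul_eq hm, mul_assoc]
    apply mul_mem_Nsub_of_Lsub (heps hy)
    by_cases hpq : q.1 = p.1
    · rw [hpq, sym_sq hm]
      exact zero_mem _
    · -- `q = p + h`
      have eq0 : algebraMap K[X] (RatFunc K) q.1 ≠ 0 := by
        simpa using q.2.2.1.ne_zero
      have ep0 : algebraMap K[X] (RatFunc K) p.1 ≠ 0 := by
        simpa using p.2.2.1.ne_zero
      have hh0 : q.1 - p.1 ≠ 0 := sub_ne_zero.mpr hpq
      have eh0 : algebraMap K[X] (RatFunc K) (q.1 - p.1) ≠ 0 := by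
        rw [Ne, FaithfulSMul.algebraMap_eq_zero_iff]; exact hh0
      have hdeg : (q.1 - p.1).natDegree ≤ d := by
        have h1 : (q.1 - p.1).degree < q.1.degree := by
          apply degree_sub_lt_left
          · rw [degree_eq_natDegree q.2.2.1.ne_zero, degree_eq_natDegree p.2.2.1.ne_zero,
              q.2.2.2, p.2.2.2]
          · exact q.2.2.1.ne_zero
          · rw [q.2.1.leadingCoeff, p.2.1.leadingCoeff]
        have h2 := natDegree_lt_natDegree hh0 h1
        rw [q.2.2.2] at h2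
        omega
      have hst : sym m (algebraMap K[X] (RatFunc K) p.1 / algebraMap K[X] (RatFunc K) q.1) *
          sym m (algebraMap K[X] (RatFunc K) (q.1 - p.1) / algebraMap K[X] (RatFunc K) q.1)
            = 0 := by
        apply sym_steinberg
        rw [← add_div, ← map_add, add_sub_cancel, div_self eq0]
      rw [sym_div ep0 eq0, sym_div eh0 eq0] at hst
      set sp := sym m (algebraMap K[X] (RatFunc K) p.1)
      set sq := sym m (algebraMap K[X] (RatFunc K) q.1)
      set sh := sym m (algebraMap K[X] (RatFunc K) (q.1 - p.1))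
      have e1 : sq * sq = 0 := sym_sq hm _
      have e2 : sp * sq = - (sq * sp) := sym_anticomm hm _ _
      have e3 : sp * sh = - (sh * sp) := sym_anticomm hm _ _
      have e4 : sq * sh = - (sh * sq) := sym_anticomm hm _ _
      have h5 : sq * sp = sh * sp - sh * sq := by
        rw [sub_mul, mul_sub, mul_sub, e1, e2, e3, e4] at hst
        have h6 : sq * sp - (sh * sp - sh * sq) = 0 := by
          rw [← hst]; abel
        exact sub_eq_zero.mp h6
      rw [h5]
      have mh : sh ∈ Lsub m K d := sym_mem_Lsub hdeg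
      exact sub_mem (mul_sym_mem_Nsub mh p) (mul_sym_mem_Nsub mh q)
  · intro x y hx hy
    rw [mul_add]
    exact add_mem hx hy

lemma Lsub_succ_le (hm : Odd m) {d : ℕ} {x : KM m (RatFunc K)} (hx : x ∈ Lsub m K (d + 1)) :
    x ∈ Nsub m K d := by
  have key : ∀ z ∈ Nsub m K d, x * z ∈ Nsub m K d := by
    unfold Lsub at hx
    induction hx using Algebra.adjoin_induction with
    | mem x hx =>
      obtain ⟨_, ⟨f, hf, hfd, rfl⟩, rfl⟩ := hx
      intro z hz
      by_cases hfd' : f.natDegree ≤ d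
      · exact mul_mem_Nsub_of_Lsub (sym_mem_Lsub hfd') hz
      have hfd'' : f.natDegree = d + 1 := by omega
      have hfu : ¬ IsUnit f := by
        intro h
        have := natDegree_eq_zero_of_isUnit h
        omega
      by_cases hirr : Irreducible f
      · -- normalize `f`
        set c := f.leadingCoeff with hc
        have hc0 : c ≠ 0 := leadingCoeff_ne_zero.mpr hf
        have hq : (f * C c⁻¹).Monic := monic_mul_leadingCoeff_inv hf
        have hunit : IsUnit (C c⁻¹ : K[X]) := (isUnit_C).mpr (isUnit_iff_ne_zero.mpr (inv_ne_zero hc0))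
        have hqi : Irreducible (f * C c⁻¹) := (irreducible_mul_isUnit hunit).mpr hirr
        have hqd : (f * C c⁻¹).natDegree = d + 1 := by
          rw [natDegree_mul_C (inv_ne_zero hc0), hfd'']
        have hfe : f = C c * (f * C c⁻¹) := by
          rw [mul_comm f, ← mul_assoc, ← C_mul, mul_inv_cancel₀ hc0, C_1, one_mul]
        have e1 : algebraMap K[X] (RatFunc K) (C c) ≠ 0 := by simpa using hc0
        have e2 : algebraMap K[X] (RatFunc K) (f * C c⁻¹) ≠ 0 := by simpa using hq.ne_zero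
        rw [hfe, map_mul, sym_mul e1 e2, add_mul]
        refine add_mem (mul_mem_Nsub_of_Lsub (sym_mem_Lsub (by simp)) hz)
          (sym_mul_mem_Nsub hm ⟨_, hq, hqi, hqd⟩ hz)
      · -- `f` is a product of polynomials of smaller degree
        rw [irreducible_iff] at hirr
        push Not at hirr
        obtain ⟨g, h, hgh, hg, hh⟩ := hirr hfu
        have hg0 : g ≠ 0 := by rintro rfl; rw [zero_mul] at hgh; exact hf hgh
        have hh0 : h ≠ 0 := by rintro rfl; rw [mul_zero] at hgh; exact hf hgh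
        have hgd : 0 < g.natDegree := by
          by_contra h0
          apply hg
          rw [Polynomial.isUnit_iff_degree_eq_zero, degree_eq_natDegree hg0]
          have : g.natDegree = 0 := by omega
          simp [this]
        have hhd : 0 < h.natDegree := by
          by_contra h0
          apply hh
          rw [Polynomial.isUnit_iff_degree_eq_zero, degree_eq_natDegree hh0]
          have : h.natDegree = 0 := by omega
          simp [this]
        have hsum : g.natDegree + h.natDegree = d + 1 := by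
          rw [← natDegree_mul hg0 hh0, ← hgh, hfd'']
        have e1 : algebraMap K[X] (RatFunc K) g ≠ 0 := by simpa using hg0
        have e2 : algebraMap K[X] (RatFunc K) h ≠ 0 := by simpa using hh0
        rw [hgh, map_mul, sym_mul e1 e2]
        exact mul_mem_Nsub_of_Lsub (add_mem (sym_mem_Lsub (by omega)) (sym_mem_Lsub (by omega))) hz
    | algebraMap r =>
      intro z hz
      rw [← Algebra.smul_def]
      exact Submodule.smul_mem _ r hz
    | add x y _ _ hx hy =>
      intro z hz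
      rw [add_mul]
      exact add_mem (hx z hz) (hy z hz)
    | mul x y _ _ hx hy =>
      intro z hz
      rw [mul_assoc]
      exact hx _ (hy z hz)
  have := key 1 (mem_Nsub_left (one_mem _))
  simpa using this

/-- The inductive step in Milnor's theorem. -/
lemma milnor_step (hm : Odd m) {d : ℕ} {x : KM m (RatFunc K)} (hx : x ∈ Lsub m K (d + 1))
    (hres : ∀ (p : K[X]) (_ : p.Monic) (hp : Fact (Irreducible p)),
      (placeVal p).res hm x = 0) : x ∈ Lsub m K d := by
  classical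
  have hN := Lsub_succ_le hm hx
  obtain ⟨y, hy, z, hz, rfl⟩ := Submodule.mem_sup.mp hN
  rw [Submodule.mem_iSup_iff_exists_finsupp] at hz
  obtain ⟨f, hf, rfl⟩ := hz
  have hy : y ∈ Lsub m K d := hy
  refine add_mem hy (sum_mem ?_)
  intro q hq
  obtain ⟨w, hw, hwq⟩ := hf q
  have hw : w ∈ Lsub m K d := hw
  rw [LinearMap.mulRight_apply] at hwq
  rw [← hwq]
  have : Fact (Irreducible q.1) := ⟨q.2.2.1⟩
  apply mul_sym_mem_Lsub hm q.2.1 q.2.2.2 hw
  have h1 := hres q.1 q.2.1 inferInstance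
  have hdq : d < q.1.natDegree := by rw [q.2.2.2]; omega
  have hterm : ∀ i : MonicIrr K (d + 1), i ≠ q → (placeVal q.1).res hm (f i) = 0 := by
    intro i hi
    obtain ⟨w', hw', hwi⟩ := hf i
    have hw' : w' ∈ Lsub m K d := hw'
    rw [LinearMap.mulRight_apply] at hwi
    have hndvd : ¬ q.1 ∣ i.1 := by
      intro hdvd
      apply hi
      apply Subtype.ext
      exact (eq_of_monic_of_associated q.2.1 i.2.1
        (q.2.2.1.associated_of_dvd i.2.2.1 hdvd) ).symm
    have h2 := placeVal_unit q.1 hndvd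
    have e0 : algebraMap K[X] (RatFunc K) i.1 ≠ 0 := by simpa using i.2.2.1.ne_zero
    rw [← hwi, DVal.res, map_mul, DVal.θ_sym _ hm e0, h2.1, KMX.mul_snd,
      θ_snd_of_mem_Lsub hm hdq hw']
    simp
  have hself : (placeVal q.1).res hm (f q) = (placeVal q.1).spec hm w := by
    have e0 : algebraMap K[X] (RatFunc K) q.1 ≠ 0 := by simpa using q.2.2.1.ne_zero
    rw [← hwq, DVal.res, map_mul, DVal.θ_sym _ hm e0, placeVal_v_self, KMX.mul_snd,
      θ_snd_of_mem_Lsub hm hdq hw, DVal.spec_apply]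
    simp
  have hsum : (placeVal q.1).res hm (y + ∑ i ∈ f.support, f i) =
      (placeVal q.1).res hm y + ∑ i ∈ f.support, (placeVal q.1).res hm (f i) := by
    simp only [DVal.res, map_add, map_sum, KMX.add_snd, KMX.sum_snd]
  rw [Finsupp.sum, hsum, Finset.sum_eq_single q (fun i _ hi => hterm i hi) (fun h => absurd hq h), hself] at h1
  have h3 : (placeVal q.1).res hm y = 0 := θ_snd_of_mem_Lsub hm hdq hy
  rwa [h3, zero_add] at h1

/-- Milnor's theorem: an element of the K-ring of `K(t)` modulo `m` whose residues at all monic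
irreducible polynomials vanish comes from `K`. -/
theorem milnor (hm : Odd m) (x : KM m (RatFunc K))
    (hres : ∀ (p : K[X]) (_ : p.Monic) (hp : Fact (Irreducible p)),
      (placeVal p).res hm x = 0) : ∃ y : KM m K, KM.map m (algebraMap K (RatFunc K)) y = x := by
  obtain ⟨d, hd⟩ := exists_mem_Lsub x
  have h0 : x ∈ Lsub m K 0 := by
    induction d with
    | zero => exact hd
    | succ d ih => exact ih (milnor_step hm hd hres)
  unfold Lsub at h0
  have h1 : Algebra.adjoin (ZMod m) (sym m '' polySet K 0) ≤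
      (KM.map m (algebraMap K (RatFunc K))).range := by
    rw [Algebra.adjoin_le_iff]
    rintro _ ⟨_, ⟨f, hf, hfd, rfl⟩, rfl⟩
    have h2 : f = C (f.coeff 0) := eq_C_of_natDegree_le_zero hfd
    refine ⟨sym m (f.coeff 0), ?_⟩
    change KM.map m _ _ = _
    rw [KM.map_sym]
    congr 1
    conv_rhs => rw [h2]
    simp
  obtain ⟨y, hy⟩ := h1 h0
  exact ⟨y, hy⟩

end UnrH3
end

section

/-!
# Unramified elements of the Milnor K-ring modulo `m`
-/

namespace UnrH3

universe u v w

variable {m : ℕ}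

section Def

variable {K : Type u} [Field K]

/-- The element `x` of the Milnor K-ring of `K` modulo `m` is unramified at the valuation ring
`A` of `K` if it lies in the subring generated by the symbols `{u}` of units `u` of `A`. -/
def UnrAt (m : ℕ) {K : Type u} [Field K] (A : ValuationSubring K) (x : KM m K) : Prop :=
  x ∈ Algebra.adjoin (ZMod m) (Set.range fun u : Aˣ => sym m ((u : A) : K))

/-- The element `x` of the Milnor K-ring of `K` modulo `m` is unramified if it is unramified at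
every discrete valuation ring with fraction field `K`. -/
def Unr (x : KM m K) : Prop :=
  ∀ A : ValuationSubring K, IsDiscreteValuationRing A → UnrAt m A x

end Def

section DVR

variable {K : Type u} [Field K]

/-- The discrete valuation attached to a discrete valuation ring and a uniformizer. -/
noncomputable def DVal.ofDVR (A : ValuationSubring K) [IsDiscreteValuationRing A] (ϖ : A)
    (hϖ : Irreducible ϖ) : DVal K (IsLocalRing.ResidueField A) :=
  DVal.ofPrime K (IsLocalRing.residue A) ϖ hϖ.ne_zero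
    (by
      rw [IsLocalRing.residue_eq_zero_iff, IsLocalRing.mem_maximalIdeal]
      exact hϖ.not_isUnit)
    (by
      intro a ha
      obtain ⟨n, u, hu⟩ := IsDiscreteValuationRing.eq_unit_mul_pow_irreducible ha hϖ
      refine ⟨n, u, by rw [hu, mul_comm], ?_⟩
      rw [Ne, IsLocalRing.residue_eq_zero_iff, IsLocalRing.mem_maximalIdeal]
      simp)

section

variable (A : ValuationSubring K) [IsDiscreteValuationRing A] (ϖ : A) (hϖ : Irreducible ϖ)

lemma residue_ne_zero_iff {a : A} : IsLocalRing.residue A a ≠ 0 ↔ IsUnit a := by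
  rw [Ne, IsLocalRing.residue_eq_zero_iff, IsLocalRing.mem_maximalIdeal, mem_nonunits_iff, not_not]

lemma DVal.ofDVR_nonneg {x : K} (hx : x ≠ 0) : 0 ≤ (DVal.ofDVR A ϖ hϖ).v x ↔ x ∈ A := by
  unfold DVal.ofDVR
  rw [DVal.ofPrime_nonneg_iff _ _ _ _ _ hx]
  constructor
  · rintro ⟨a, w, hw, h⟩
    rw [residue_ne_zero_iff] at hw
    obtain ⟨w, rfl⟩ := hw
    have h2 : x = ((a * (w⁻¹ : Aˣ) : A) : K) := by
      have hw0 : ((w : A) : K) ≠ 0 := by
        have := w.ne_zero
        simpa using this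
      have h3 : (((w : A) * ((w⁻¹ : Aˣ) : A) : A) : K) = 1 := by simp
      rw [h]
      change (a : K) / ((w : A) : K) = _
      rw [div_eq_iff hw0]
      push_cast at h3 ⊢
      rw [mul_assoc, mul_comm ((w⁻¹ : Aˣ) : K), h3, mul_one]
    rw [h2]
    exact (a * (w⁻¹ : Aˣ) : A).2
  · intro h
    exact ⟨⟨x, h⟩, 1, by simp, by simp⟩

lemma DVal.ofDVR_unit_iff {x : K} (hx : x ≠ 0) :
    (DVal.ofDVR A ϖ hϖ).v x = 0 ↔ ∃ u : Aˣ, ((u : A) : K) = x := by
  constructor
  · intro h
    have h1 : x ∈ A := (DVal.ofDVR_nonneg A ϖ hϖ hx).mp h.ge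
    have h2 : x⁻¹ ∈ A := by
      apply (DVal.ofDVR_nonneg A ϖ hϖ (inv_ne_zero hx)).mp
      rw [DVal.v_inv _ hx, h]
      simp
    exact ⟨⟨⟨x, h1⟩, ⟨x⁻¹, h2⟩, by ext; simp [hx], by ext; simp [hx]⟩, rfl⟩
  · rintro ⟨u, rfl⟩
    exact (DVal.ofPrime_unit (K := K) (IsLocalRing.residue A) ϖ _ _ _
      (residue_ne_zero_iff A |>.mpr u.isUnit)).1

lemma DVal.ofDVR_ρ (u : A) (hu : IsUnit u) :
    (DVal.ofDVR A ϖ hϖ).ρ (u : K) = IsLocalRing.residue A u :=
  (DVal.ofPrime_unit (K := K) (IsLocalRing.residue A) ϖ _ _ _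
      (residue_ne_zero_iff A |>.mpr hu)).2

lemma DVal.ofDVR_v_self : (DVal.ofDVR A ϖ hϖ).v (ϖ : K) = 1 :=
  (DVal.ofPrime_self (K := K) (IsLocalRing.residue A) ϖ _ _ _).1

lemma DVal.ofDVR_ρ_self : (DVal.ofDVR A ϖ hϖ).ρ (ϖ : K) = 1 :=
  (DVal.ofPrime_self (K := K) (IsLocalRing.residue A) ϖ _ _ _).2

lemma DVal.ofDVR_U : (DVal.ofDVR A ϖ hϖ).U m =
    Algebra.adjoin (ZMod m) (Set.range fun u : Aˣ => sym m ((u : A) : K)) := by
  unfold DVal.U
  congr 1
  ext y
  constructor
  · rintro ⟨x, ⟨hx0, hx⟩, rfl⟩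
    obtain ⟨u, rfl⟩ := (DVal.ofDVR_unit_iff A ϖ hϖ hx0).mp hx
    exact ⟨u, rfl⟩
  · rintro ⟨u, rfl⟩
    have hu : ((u : A) : K) ≠ 0 := by
      have := u.ne_zero
      simpa using this
    exact ⟨_, ⟨hu, (DVal.ofDVR_unit_iff A ϖ hϖ hu).mpr ⟨u, rfl⟩⟩, rfl⟩

/-- An element is unramified at `A` if and only if its tame residue at `A` vanishes. -/
theorem unrAt_iff_res (hm : Odd m) (x : KM m K) :
    UnrAt m A x ↔ (DVal.ofDVR A ϖ hϖ).res hm x = 0 := by
  unfold UnrAt
  rw [← DVal.ofDVR_U A ϖ hϖ]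
  constructor
  · exact fun h => DVal.res_eq_zero_of_mem_U hm _ h
  · intro h
    have hϖ0 : (ϖ : K) ≠ 0 := by
      have := hϖ.ne_zero
      simpa using this
    refine DVal.mem_U_of_res_eq_zero hm _ hϖ0 (DVal.ofDVR_v_self A ϖ hϖ)
      (DVal.ofDVR_ρ_self A ϖ hϖ) ?_ h
    intro g hg
    obtain ⟨a, rfl⟩ := IsLocalRing.residue_surjective g
    have ha : IsUnit a := (residue_ne_zero_iff A).mp hg
    have ha0 : (a : K) ≠ 0 := by
      have := ha.ne_zero
      simpa using this
    refine ⟨a, ha0, ?_, DVal.ofDVR_ρ A ϖ hϖ a ha⟩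
    rw [DVal.ofDVR_unit_iff A ϖ hϖ ha0]
    obtain ⟨w, rfl⟩ := ha
    exact ⟨w, rfl⟩

end

end DVR

section Ring

variable {K : Type u} {κ : Type v} [Field K] [Field κ] (D : DVal K κ)

lemma DVal.min_le_v_add {a b : K} (ha : a ≠ 0) (hb : b ≠ 0) (hab : a + b ≠ 0) :
    min (D.v a) (D.v b) ≤ D.v (a + b) := by
  have h1 := D.st (a / (a + b)) (b / (a + b)) (div_ne_zero ha hab) (div_ne_zero hb hab)
    (by field_simp)
  rw [D.v_div ha hab, D.v_div hb hab] at h1
  rcases h1 with h | h | h | h <;> omega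

/-- The valuation ring of a discrete valuation. -/
def DVal.ring : ValuationSubring K where
  carrier := {x | x = 0 ∨ 0 ≤ D.v x}
  mul_mem' := by
    rintro a b (rfl | ha) (rfl | hb)
    · left; simp
    · left; simp
    · left; simp
    · by_cases h0 : a = 0
      · left; simp [h0]
      by_cases h1 : b = 0
      · left; simp [h1]
      right
      rw [D.v_mul _ _ h0 h1]
      omega
  one_mem' := Or.inr (by rw [D.v_one])
  add_mem' := by
    rintro a b ha hb
    by_cases h0 : a = 0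
    · subst h0; simpa using hb
    by_cases h1 : b = 0
    · subst h1; simpa using ha
    by_cases h2 : a + b = 0
    · exact Or.inl h2
    right
    have := D.min_le_v_add h0 h1 h2
    have ha := ha.resolve_left h0
    have hb := hb.resolve_left h1
    exact le_trans (le_min ha hb) this
  zero_mem' := Or.inl rfl
  neg_mem' := by
    rintro a (rfl | ha)
    · left; simp
    · by_cases h0 : a = 0
      · left; simp [h0]
      right
      rwa [D.v_neg h0]
  mem_or_inv_mem' := by
    intro x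
    by_cases hx : x = 0
    · exact Or.inl (Or.inl hx)
    rcases le_total 0 (D.v x) with h | h
    · exact Or.inl (Or.inr h)
    · right; right
      rw [D.v_inv hx]; omega

lemma DVal.mem_ring {x : K} (hx : x ≠ 0) : x ∈ D.ring ↔ 0 ≤ D.v x := by
  change (x = 0 ∨ 0 ≤ D.v x) ↔ _
  simp [hx]

lemma DVal.ring_isUnit_iff {x : D.ring} (hx : (x : K) ≠ 0) : IsUnit x ↔ D.v (x : K) = 0 := by
  constructor
  · rintro ⟨u, rfl⟩
    have h1 : ((((u : D.ring) * ((u⁻¹ : (D.ring)ˣ) : D.ring) : D.ring)) : K) = 1 := by simp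
    have hu : ((((u⁻¹ : (D.ring)ˣ) : D.ring)) : K) ≠ 0 := by
      intro h
      push_cast at h1
      rw [h, mul_zero] at h1
      exact zero_ne_one h1
    have h2 := (D.mem_ring hx).mp (u : D.ring).2
    have h3 := (D.mem_ring hu).mp ((u⁻¹ : (D.ring)ˣ) : D.ring).2
    have h4 := D.v_mul _ _ hx hu
    push_cast at h1
    rw [h1, D.v_one] at h4
    omega
  · intro h
    have h2 : (x : K)⁻¹ ∈ D.ring := by
      rw [D.mem_ring (inv_ne_zero hx), D.v_inv hx, h]; simp
    refine ⟨⟨x, ⟨(x : K)⁻¹, h2⟩, ?_, ?_⟩, rfl⟩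
    · ext; simp [hx]
    · ext; simp [hx]

/-- The valuation ring of a normalized discrete valuation is a discrete valuation ring. -/
lemma DVal.ring_isDVR {ϖ : K} (hϖ : ϖ ≠ 0) (hv : D.v ϖ = 1) : IsDiscreteValuationRing D.ring := by
  apply IsDiscreteValuationRing.ofHasUnitMulPowIrreducibleFactorization
  have hmem : ϖ ∈ D.ring := by rw [D.mem_ring hϖ, hv]; norm_num
  refine ⟨⟨ϖ, hmem⟩, ?_, ?_⟩
  · constructor
    · rw [D.ring_isUnit_iff (by simpa using hϖ)]
      simp [hv]
    · intro a b hab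
      have h1 : (a : K) * b = ϖ := by
        have := congrArg (fun z : D.ring => (z : K)) hab
        simpa using this.symm
      have ha : (a : K) ≠ 0 := by rintro h; rw [h, zero_mul] at h1; exact hϖ h1.symm
      have hb : (b : K) ≠ 0 := by rintro h; rw [h, mul_zero] at h1; exact hϖ h1.symm
      have h2 := D.v_mul _ _ ha hb
      rw [h1, hv] at h2
      have h3 := (D.mem_ring ha).mp a.2
      have h4 := (D.mem_ring hb).mp b.2
      rw [D.ring_isUnit_iff ha, D.ring_isUnit_iff hb]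
      omega
  · intro x hx
    have hx0 : (x : K) ≠ 0 := by simpa using hx
    have h1 := (D.mem_ring hx0).mp x.2
    obtain ⟨n, hn⟩ := Int.eq_ofNat_of_zero_le h1
    have hpow : ϖ ^ n ≠ 0 := pow_ne_zero n hϖ
    have h2 : D.v ((x : K) / ϖ ^ n) = 0 := by
      rw [D.v_div hx0 hpow, D.v_pow hϖ, hv, hn]; simp
    have h3 : (x : K) / ϖ ^ n ∈ D.ring := by
      rw [D.mem_ring (div_ne_zero hx0 hpow), h2]
    have h4 : IsUnit (⟨(x : K) / ϖ ^ n, h3⟩ : D.ring) := by
      rw [D.ring_isUnit_iff (by simpa using div_ne_zero hx0 hpow)]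
      exact h2
    obtain ⟨u, hu⟩ := h4
    refine ⟨n, u, ?_⟩
    rw [hu]
    ext
    push_cast
    field_simp

lemma DVal.U_eq_of_ring :
    Algebra.adjoin (ZMod m) (Set.range fun u : (D.ring)ˣ => sym m ((u : D.ring) : K)) =
      D.U m := by
  unfold DVal.U
  congr 1
  ext y
  constructor
  · rintro ⟨u, rfl⟩
    have hu : ((u : D.ring) : K) ≠ 0 := by
      have := u.ne_zero
      simpa using this
    exact ⟨_, ⟨hu, (D.ring_isUnit_iff hu).mp u.isUnit⟩, rfl⟩
  · rintro ⟨x, ⟨hx0, hx⟩, rfl⟩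
    have h1 : x ∈ D.ring := (D.mem_ring hx0).mpr hx.ge
    obtain ⟨u, hu⟩ := (D.ring_isUnit_iff (x := ⟨x, h1⟩) hx0).mpr hx
    exact ⟨u, by simp [hu]⟩

/-- Unramified elements have vanishing residues at every normalized discrete valuation. -/
lemma Unr.res_eq_zero (hm : Odd m) {x : KM m K} (hx : Unr x) {ϖ : K} (hϖ : ϖ ≠ 0)
    (hv : D.v ϖ = 1) : D.res hm x = 0 := by
  have h1 := hx D.ring (D.ring_isDVR hϖ hv)
  unfold UnrAt at h1
  rw [DVal.U_eq_of_ring] at h1
  exact D.res_eq_zero_of_mem_U hm h1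

end Ring

section Functoriality

variable {K : Type u} {L : Type v} [Field K] [Field L]

lemma Unr.zero : Unr (0 : KM m K) := fun _ _ => zero_mem _

lemma Unr.add {x y : KM m K} (hx : Unr x) (hy : Unr y) : Unr (x + y) :=
  fun A hA => add_mem (hx A hA) (hy A hA)

lemma Unr.neg {x : KM m K} (hx : Unr x) : Unr (-x) :=
  fun A hA => neg_mem (hx A hA)

lemma Unr.sub {x y : KM m K} (hx : Unr x) (hy : Unr y) : Unr (x - y) :=
  fun A hA => sub_mem (hx A hA) (hy A hA)

lemma Unr.mul {x y : KM m K} (hx : Unr x) (hy : Unr y) : Unr (x * y) :=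
  fun A hA => mul_mem (hx A hA) (hy A hA)

lemma Unr.smul {x : KM m K} (hx : Unr x) (r : ZMod m) : Unr (r • x) :=
  fun A hA => Subalgebra.smul_mem _ (hx A hA) r

/-- The preimage of a discrete valuation ring under a field homomorphism is the whole field
or a discrete valuation ring. -/
lemma comap_isDVR (f : K →+* L) (B : ValuationSubring L) [IsDiscreteValuationRing B] :
    B.comap f = ⊤ ∨ IsDiscreteValuationRing (B.comap f) := by
  classical
  obtain ⟨ϖ, hϖ⟩ := IsDiscreteValuationRing.exists_irreducible B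
  set D := DVal.ofDVR B ϖ hϖ with hD
  have hmem : ∀ x : K, x ≠ 0 → (x ∈ B.comap f ↔ 0 ≤ D.v (f x)) := by
    intro x hx
    rw [ValuationSubring.mem_comap, hD, DVal.ofDVR_nonneg B ϖ hϖ ((map_ne_zero f).mpr hx)]
  by_cases hpos : ∃ x : K, x ≠ 0 ∧ 0 < D.v (f x)
  · right
    have hex : ∃ n : ℕ, 0 < n ∧ ∃ x : K, x ≠ 0 ∧ D.v (f x) = n := by
      obtain ⟨x, hx, h⟩ := hpos
      exact ⟨(D.v (f x)).toNat, by omega, x, hx, by omega⟩
    obtain ⟨hn0, t, ht, hvt⟩ := Nat.find_spec hex
    set n := Nat.find hex with hn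
    have hdvd : ∀ x : K, x ≠ 0 → (n : ℤ) ∣ D.v (f x) := by
      intro x hx
      by_contra hcon
      set q := D.v (f x) / n with hq
      have hfx : f x ≠ 0 := (map_ne_zero f).mpr hx
      have hft : f t ≠ 0 := (map_ne_zero f).mpr ht
      have h1 : D.v (f (x / t ^ q)) = D.v (f x) % n := by
        rw [map_div₀, map_zpow₀, D.v_div hfx (zpow_ne_zero _ hft), D.v_zpow hft, hvt]
        have := Int.emod_add_mul_ediv (D.v (f x)) n
        rw [hq]
        linarith
      have h2 : 0 ≤ D.v (f x) % n := Int.emod_nonneg _ (by omega)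
      have h3 : D.v (f x) % n < n := Int.emod_lt_of_pos _ (by omega)
      have h4 : D.v (f x) % n ≠ 0 := fun h => hcon (Int.dvd_of_emod_eq_zero h)
      refine Nat.find_min hex (m := (D.v (f x) % n).toNat) (by omega)
        ⟨by omega, x / t ^ q, div_ne_zero hx (zpow_ne_zero _ ht), by omega⟩
    -- the restricted valuation, divided by `n`
    let D' : DVal K (IsLocalRing.ResidueField B) :=
      { v := fun x => D.v (f x) / n
        ρ := D.ρ.comp f.toMonoidWithZeroHom
        v_mul := by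
          intro a b ha hb
          obtain ⟨c, hc⟩ := hdvd a ha
          obtain ⟨d, hd⟩ := hdvd b hb
          rw [map_mul, D.v_mul _ _ ((map_ne_zero f).mpr ha) ((map_ne_zero f).mpr hb), hc, hd,
            ← mul_add, Int.mul_ediv_cancel_left _ (by omega), Int.mul_ediv_cancel_left _ (by omega),
            Int.mul_ediv_cancel_left _ (by omega)]
        st := by
          intro a b ha hb hab
          have h1 := D.st (f a) (f b) ((map_ne_zero f).mpr ha) ((map_ne_zero f).mpr hb)
            (by rw [← map_add, hab, map_one])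
          obtain ⟨c, hc⟩ := hdvd a ha
          obtain ⟨d, hd⟩ := hdvd b hb
          have hn' : (0 : ℤ) < n := by omega
          rw [hc, hd] at h1 ⊢
          rw [Int.mul_ediv_cancel_left _ (by omega), Int.mul_ediv_cancel_left _ (by omega)]
          change _ ∨ _ ∨ _ ∨ _
          rcases h1 with ⟨h1, h2, h3⟩ | ⟨h1, h2, h3⟩ | ⟨h1, h2, h3⟩ | ⟨h1, h2, h3⟩
          · exact Or.inl ⟨(mul_pos_iff_of_pos_left hn').mp h1,
              (mul_eq_zero.mp h2).resolve_left (by omega), h3⟩
          · exact Or.inr (Or.inl ⟨(mul_pos_iff_of_pos_left hn').mp h1,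
              (mul_eq_zero.mp h2).resolve_left (by omega), h3⟩)
          · exact Or.inr (Or.inr (Or.inl ⟨(mul_eq_zero.mp h1).resolve_left (by omega),
              (mul_eq_zero.mp h2).resolve_left (by omega), h3⟩))
          · exact Or.inr (Or.inr (Or.inr ⟨by nlinarith, mul_left_cancel₀ (by omega) h2, h3⟩)) }
    have hring : B.comap f = D'.ring := by
      ext x
      by_cases hx : x = 0
      · subst hx; simp
      rw [hmem x hx, D'.mem_ring hx]
      obtain ⟨c, hc⟩ := hdvd x hx
      change _ ↔ 0 ≤ D.v (f x) / n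
      rw [hc, Int.mul_ediv_cancel_left _ (by omega)]
      constructor
      · intro h; by_contra h'; push Not at h'; nlinarith
      · intro h; positivity
    rw [hring]
    exact D'.ring_isDVR ht (by change D.v (f t) / n = 1; rw [hvt]; exact Int.ediv_self (by omega))
  · left
    rw [eq_top_iff]
    intro x _
    by_cases hx : x = 0
    · subst hx; exact zero_mem _
    rw [hmem x hx]
    by_contra h
    push Not at h hpos
    have := hpos x⁻¹ (inv_ne_zero hx)
    rw [map_inv₀, D.v_inv ((map_ne_zero f).mpr hx)] at this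
    omega

/-- Functoriality of unramified elements under field homomorphisms. -/
theorem Unr.map (f : K →+* L) {x : KM m K} (hx : Unr x) : Unr (KM.map m f x) := by
  intro B hB
  have key : ∀ (x : KM m K) (S : Set (KM m K)), x ∈ Algebra.adjoin (ZMod m) S →
      (∀ s ∈ S, UnrAt m B (KM.map m f s)) → UnrAt m B (KM.map m f x) := by
    intro x S hx hS
    induction hx using Algebra.adjoin_induction with
    | mem x hx => exact hS x hx
    | algebraMap r => rw [AlgHom.commutes]; exact Subalgebra.algebraMap_mem _ _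
    | add x y _ _ hx hy => rw [map_add]; exact add_mem hx hy
    | mul x y _ _ hx hy => rw [map_mul]; exact mul_mem hx hy
  have hunit : ∀ a : K, a ≠ 0 → a ∈ B.comap f → a⁻¹ ∈ B.comap f →
      UnrAt m B (KM.map m f (sym m a)) := by
    intro a ha h1 h2
    rw [KM.map_sym]
    rw [ValuationSubring.mem_comap] at h1 h2
    rw [map_inv₀] at h2
    have hfa : f a ≠ 0 := (map_ne_zero f).mpr ha
    exact Algebra.subset_adjoin ⟨⟨⟨f a, h1⟩, ⟨(f a)⁻¹, h2⟩, by ext; simp [hfa],
      by ext; simp [hfa]⟩, rfl⟩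
  rcases comap_isDVR f B with h | h
  · refine key x (Set.range (usym m : Kˣ → KM m K)) (by rw [adjoin_range_usym]; trivial) ?_
    rintro _ ⟨a, rfl⟩
    rw [← sym_unit]
    exact hunit _ a.ne_zero (by rw [h]; trivial) (by rw [h]; trivial)
  · refine key x _ (hx _ h) ?_
    rintro _ ⟨u, rfl⟩
    have hu : ((u : B.comap f) : K) ≠ 0 := by
      have := u.ne_zero
      simpa using this
    refine hunit _ hu (u : B.comap f).2 ?_
    have h1 : (((u : B.comap f) : K)) * ((((u⁻¹ : (B.comap f)ˣ)) : B.comap f) : K) = 1 := by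
      have h2 : (((u : B.comap f) * ((u⁻¹ : (B.comap f)ˣ) : B.comap f) : B.comap f) : K) = 1 := by
        simp
      exact_mod_cast h2
    rw [← eq_inv_of_mul_eq_one_right h1]
    exact (((u⁻¹ : (B.comap f)ˣ)) : B.comap f).2

end Functoriality

end UnrH3
end
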